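import Pool.Agent.TST.Reord

/-!
# Representatives of the rows of a subdivided wall

All elements of the rows but one representative of every row are contracted: the
representatives carry the brick wall.
-/

open Set BIC BICS
open scoped Matroid

namespace TST

open CWL

variable {α : Type*} {M : Matroid α} {R : Set α} {ends : α → Sym2 ((ℕ × ℕ) ⊕ α)}
  {L : Bool × ℕ × ℕ → List α} {y u : ℕ}

lemma seg_ne {s : Bool × ℕ × ℕ} : segNear s ≠ segFar s := by
  intro h
  unfold segNear segFar at h
  split_ifs at h <;> simp only [Prod.mk.injEq] at h <;> omega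

lemma node_zero (s : Bool × ℕ × ℕ) (l : List α) : node s l 0 = Sum.inl (segNear s) := by
  unfold node; simp

lemma node_len (s : Bool × ℕ × ℕ) {l : List α} (h : l ≠ []) :
    node s l l.length = Sum.inl (segFar s) := by
  unfold node
  rw [if_neg (by rw [List.length_eq_zero_iff]; exact h), if_pos rfl]

lemma node_cons (s : Bool × ℕ × ℕ) (c : α) (l : List α) {i : ℕ} (hi : 0 < i) :
    node s (c :: l) (i + 1) = node s l i := by
  unfold node
  rw [if_neg (show i + 1 ≠ 0 by omega), if_neg (show i ≠ 0 by omega)]
  by_cases h : i = l.length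
  · rw [if_pos (by rw [List.length_cons, h]), if_pos h]
  · rw [if_neg (by rw [List.length_cons]; omega), if_neg h]
    obtain ⟨k, rfl⟩ : ∃ k, i = k + 1 := ⟨i - 1, by omega⟩
    simp

/-- **One element of a row is contracted.** -/
theorem con_one [M.Finite] (hW : SubWall R ends L y) (hB : BicU M R ends u)
    {s : Bool × ℕ × ℕ} (hs : s ∈ Seg y) {c : α} {l : List α} (hL : L s = c :: l) (hl : l ≠ []) :
    ∃ ends', SubWall (R \ {c}) ends' (Function.update L s l) y ∧
      BicU (M ／ {c}) (R \ {c}) ends' u := by
  classical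
  have hnd := hW.nodup s hs
  rw [hL, List.nodup_cons] at hnd
  have hlen : 0 < l.length := List.length_pos_iff.2 hl
  have hcR : c ∈ R := (hW.mem c).2 ⟨s, hs, by rw [hL]; simp⟩
  have n1 : node s (L s) 1 = Sum.inr c := by
    rw [hL]
    unfold node
    rw [if_neg (by omega), if_neg (by rw [List.length_cons]; omega)]
    simp
  have e1 : ends c = s(Sum.inl (segNear s), Sum.inr c) := by
    have := hW.end_eq s hs 0 (by rw [hL]; simp)
    simp only [hL, List.getElem_cons_zero] at this
    rw [← hL, node_zero, n1] at this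
    exact this
  refine ⟨_, ?_, hB.contract hcR (by simp) e1⟩
  have hdis : ∀ s' ∈ Seg y, s' ≠ s → c ∉ L s' := fun s' hs' hne h =>
    hW.disj s' hs' s hs hne h (by rw [hL]; simp)
  constructor
  · intro s' hs'
    by_cases hss : s' = s
    · subst hss
      rw [Function.update_self]
      exact hl
    · rw [Function.update_of_ne hss]
      exact hW.ne s' hs'
  · intro s' hs'
    by_cases hss : s' = s
    · subst hss
      rw [Function.update_self]
      exact hnd.2
    · rw [Function.update_of_ne hss]
      exact hW.nodup s' hs'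
  · intro s' hs' s'' hs'' hne
    have h1 := hW.disj s' hs' s'' hs'' hne
    by_cases hss : s' = s
    · subst hss
      have h2 : s'' ≠ s' := Ne.symm hne
      rw [Function.update_self, Function.update_of_ne h2]
      intro x hx
      exact h1 (by rw [hL]; exact List.mem_cons_of_mem _ hx)
    · rw [Function.update_of_ne hss]
      by_cases hss' : s'' = s
      · subst hss'
        rw [Function.update_self]
        intro x hx hx'
        exact h1 hx (by rw [hL]; exact List.mem_cons_of_mem _ hx')
      · rw [Function.update_of_ne hss']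
        exact h1
  · intro x
    constructor
    · rintro ⟨hx, hxc⟩
      obtain ⟨s', hs', hxs⟩ := (hW.mem x).1 hx
      refine ⟨s', hs', ?_⟩
      by_cases hss : s' = s
      · subst hss
        rw [Function.update_self]
        rw [hL] at hxs
        rcases List.mem_cons.1 hxs with h | h
        · exact absurd h hxc
        · exact h
      · rw [Function.update_of_ne hss]
        exact hxs
    · rintro ⟨s', hs', hxs⟩
      by_cases hss : s' = s
      · subst hss
        rw [Function.update_self] at hxs
        refine ⟨(hW.mem x).2 ⟨s', hs', by rw [hL]; exact List.mem_cons_of_mem _ hxs⟩, ?_⟩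
        rintro rfl
        exact hnd.1 hxs
      · rw [Function.update_of_ne hss] at hxs
        refine ⟨(hW.mem x).2 ⟨s', hs', hxs⟩, ?_⟩
        rintro rfl
        exact hdis s' hs' hss hxs
  · intro s' hs' i hi
    have hmap : ∀ (l' : List α) (j : ℕ), c ∉ l' → (if node s' l' j = Sum.inr c then
        (Sum.inl (segNear s) : (ℕ × ℕ) ⊕ α) else node s' l' j) = node s' l' j := by
      intro l' j hcl
      rw [if_neg]
      intro h
      unfold node at h
      split_ifs at h
      split at h
      · rename_i heq
        rw [Sum.inr.injEq] at h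
        subst h
        exact hcl (List.mem_of_getElem? heq)
      · simp at h
    by_cases hss : s' = s
    · subst hss
      simp only [Function.update_self] at hi ⊢
      have h1 := hW.end_eq s' hs' (i + 1) (by rw [hL, List.length_cons]; omega)
      have h2 : (L s')[i + 1]'(by rw [hL, List.length_cons]; omega) = l[i] := by
        simp [hL]
      rw [h2] at h1
      rw [h1, Sym2.map_mk]
      have h3 : node s' (L s') (i + 1 + 1) = node s' l (i + 1) := by
        rw [hL]; exact node_cons _ _ _ (by omega)
      rw [h3, hmap l _ hnd.1]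
      by_cases hi0 : i = 0
      · subst hi0
        rw [n1, if_pos rfl, node_zero]
      · have h4 : node s' (L s') (i + 1) = node s' l i := by
          rw [hL]; exact node_cons _ _ _ (by omega)
        rw [h4, hmap l _ hnd.1]
    · simp only [Function.update_of_ne hss] at hi ⊢
      rw [hW.end_eq s' hs' i hi, Sym2.map_mk, hmap _ _ (hdis s' hs' hss),
        hmap _ _ (hdis s' hs' hss)]

/-- one row: all elements but the last one are contracted -/
theorem con_row {s : Bool × ℕ × ℕ} (hs : s ∈ Seg y) (r : α) :
    ∀ (l : List α) (M : Matroid α) [M.Finite] (R : Set α) (ends : α → Sym2 ((ℕ × ℕ) ⊕ α))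
      (L : Bool × ℕ × ℕ → List α), L s = l ++ [r] → SubWall R ends L y → BicU M R ends u →
      ∃ ends', SubWall (R \ {x | x ∈ l}) ends' (Function.update L s [r]) y ∧
        BicU (M ／ {x | x ∈ l}) (R \ {x | x ∈ l}) ends' u := by
  classical
  intro l
  induction l with
  | nil =>
    intro M _ R ends L hL hW hB
    refine ⟨ends, ?_, ?_⟩
    · have e : ({x | x ∈ ([] : List α)} : Set α) = ∅ := by ext; simp
      rw [e, sdiff_empty]
      rw [List.nil_append] at hL
      rw [← hL, Function.update_eq_self]
      exact hW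
    · have e : ({x | x ∈ ([] : List α)} : Set α) = ∅ := by ext; simp
      rw [e, sdiff_empty, Matroid.contract_empty]
      exact hB
  | cons c l ih =>
    intro M _ R ends L hL hW hB
    obtain ⟨e1, h1, h2⟩ := con_one hW hB hs (c := c) (l := l ++ [r]) (by rw [hL]; rfl) (by simp)
    have hf : (M ／ {c}).Finite := BQ.fin_contract _
    obtain ⟨e2, h3, h4⟩ := ih (M ／ {c}) (R \ {c}) e1 (Function.update L s (l ++ [r]))
      (by rw [Function.update_self]) h1 h2
    have e : (R \ ({c} : Set α)) \ {x | x ∈ l} = R \ {x | x ∈ c :: l} := by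
      ext x
      simp only [mem_sdiff, mem_singleton_iff, mem_ofPred_eq, List.mem_cons, not_or]
      tauto
    have e' : M ／ ({c} : Set α) ／ {x | x ∈ l} = M ／ {x | x ∈ c :: l} := by
      rw [Matroid.contract_contract]
      congr 1
      ext x
      simp
    rw [Function.update_idem, e] at h3
    rw [e, e'] at h4
    exact ⟨e2, h3, h4⟩

/-- **REPRESENTATIVES.** One representative `r s` of every row is kept, all other elements of the
rows are contracted. -/
theorem con_reps [M.Finite] (hW : SubWall R ends L y) (hB : BicU M R ends u)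
    {r : Bool × ℕ × ℕ → α} (hr : ∀ s ∈ Seg y, r s ∈ L s) :
    ∃ ends' : α → Sym2 ((ℕ × ℕ) ⊕ α), BicU (M ／ (R \ r '' Seg y)) (r '' Seg y) ends' u ∧
      ∀ s ∈ Seg y, ends' (r s) = s(Sum.inl (segNear s), Sum.inl (segFar s)) := by
  classical
  have key : ∀ T : Finset (Bool × ℕ × ℕ), (T : Set (Bool × ℕ × ℕ)) ⊆ Seg y →
      ∃ (ends' : α → Sym2 ((ℕ × ℕ) ⊕ α)),
        SubWall (R \ {x | ∃ s ∈ T, x ∈ L s ∧ x ≠ r s}) ends'
          (fun s => if s ∈ T then [r s] else L s) y ∧
        BicU (M ／ {x | ∃ s ∈ T, x ∈ L s ∧ x ≠ r s}) (R \ {x | ∃ s ∈ T, x ∈ L s ∧ x ≠ r s})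
          ends' u := by
    intro T
    induction T using Finset.induction_on with
    | empty =>
      intro _
      have e : ({x | ∃ s ∈ (∅ : Finset (Bool × ℕ × ℕ)), x ∈ L s ∧ x ≠ r s} : Set α) = ∅ := by
        ext; simp
      refine ⟨ends, ?_, ?_⟩
      · rw [e, sdiff_empty]; simpa using hW
      · rw [e, sdiff_empty, Matroid.contract_empty]; exact hB
    | insert s T hsT ih =>
      intro hT
      have hs : s ∈ Seg y := hT (by simp)
      obtain ⟨e1, h1, h2⟩ := ih (fun a ha => hT (by simp only [Finset.coe_insert]; exact Or.inr ha))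
      have hf : (M ／ {x | ∃ s ∈ T, x ∈ L s ∧ x ≠ r s}).Finite := BQ.fin_contract _
      have hnd := hW.nodup s hs
      -- the representative comes last
      have hperm : (L s).Perm ((L s).erase (r s) ++ [r s]) :=
        (List.perm_cons_erase (hr s hs)).trans (List.perm_append_singleton _ _).symm
      obtain ⟨e2, h3, h4⟩ := perm_row hs hperm [] _ e1 (by simp [hsT]) h1 h2
      obtain ⟨e3, h5, h6⟩ := con_row hs (r s) ((L s).erase (r s)) _ _ e2 _
        (by rw [Function.update_self]; simp) h3 h4
      have hset : ∀ x, x ∈ (L s).erase (r s) ↔ x ∈ L s ∧ x ≠ r s := by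
        intro x
        rw [hnd.mem_erase_iff, and_comm]
      have eR : (R \ {x | ∃ s ∈ T, x ∈ L s ∧ x ≠ r s}) \ {x | x ∈ (L s).erase (r s)} =
          R \ {x | ∃ s' ∈ (insert s T : Finset (Bool × ℕ × ℕ)), x ∈ L s' ∧ x ≠ r s'} := by
        ext x
        simp only [mem_sdiff, mem_ofPred_eq, hset, Finset.mem_insert, exists_eq_or_imp]
        rw [and_assoc]
        refine and_congr_right fun _ => ?_
        rw [not_or]
        exact and_comm
      have eM : M ／ {x | ∃ s ∈ T, x ∈ L s ∧ x ≠ r s} ／ {x | x ∈ (L s).erase (r s)} =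
          M ／ {x | ∃ s' ∈ (insert s T : Finset (Bool × ℕ × ℕ)), x ∈ L s' ∧ x ≠ r s'} := by
        rw [Matroid.contract_contract]
        congr 1
        ext x
        simp only [mem_union, mem_ofPred_eq, hset, Finset.mem_insert, exists_eq_or_imp]
        exact or_comm
      rw [eR] at h5 h6
      rw [eM] at h6
      refine ⟨e3, subWall_congr h5 ?_, h6⟩
      intro s' hs'
      by_cases hss : s' = s
      · subst hss
        simp
      · simp [hss]
  obtain ⟨e, h1, h2⟩ := key (seg_finite y).toFinset (by simp)
  have hset : R \ {x | ∃ s ∈ (seg_finite y).toFinset, x ∈ L s ∧ x ≠ r s} = r '' Seg y := by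
    ext x
    simp only [mem_sdiff, mem_ofPred_eq, Set.Finite.mem_toFinset, not_exists, not_and, not_not]
    constructor
    · rintro ⟨hx, hx'⟩
      obtain ⟨s, hs, hxs⟩ := (hW.mem x).1 hx
      exact ⟨s, hs, (hx' s hs hxs).symm⟩
    · rintro ⟨s, hs, rfl⟩
      refine ⟨(hW.mem _).2 ⟨s, hs, hr s hs⟩, fun s' hs' h => ?_⟩
      by_cases hss : s' = s
      · rw [hss]
      · exact absurd (hr s hs) (fun h' => hW.disj s' hs' s hs hss h h')
  have hset' : {x | ∃ s ∈ (seg_finite y).toFinset, x ∈ L s ∧ x ≠ r s} = R \ r '' Seg y := by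
    rw [← hset]
    ext x
    simp only [mem_sdiff, mem_ofPred_eq, Set.Finite.mem_toFinset]
    constructor
    · rintro ⟨s, hs, h3, h4⟩
      exact ⟨(hW.mem x).2 ⟨s, hs, h3⟩, fun h5 => h5.2 ⟨s, hs, h3, h4⟩⟩
    · rintro ⟨h3, h4⟩
      by_contra h5
      exact h4 ⟨h3, h5⟩
  rw [hset, hset'] at h2
  refine ⟨e, h2, fun s hs => ?_⟩
  have h3 := h1.end_eq s hs 0 (by simp [hs])
  simp only [Set.Finite.mem_toFinset, hs, if_true, List.getElem_cons_zero] at h3
  rw [h3, node_zero]
  congr 1

end TST
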