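import Pool.Agent.EN.Ground3
import Pool.Agent.CW.Lift

/-!
# Quotients of frames (row B7 of T*, helper57)

The parts of a partial map `π : V → Option V'` are finite and have spanning trees `F P`.  Then
`M ／ ⋃ F P` is a frame for the elements between different parts (and for loops which satisfy the
star rule).  For elements inside of the parts in `O` only the trees of these parts matter.
-/

open Set Relation
open scoped Matroid

namespace TST

open BIC Gad EN BICS

variable {α V V' : Type*}

/-- The part `P`. -/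
def prt (π : V → Option V') (P : V') : Set V := {v | π v = some P}

/-- A quotient of the graph: parts with spanning trees. -/
structure Quo (S : Set α) (ends : α → Sym2 V) (π : V → Option V') (F : V' → Set α)
    (S' : Set α) (ends' : α → Sym2 V') : Prop where
  fin : ∀ P, (prt π P).Finite
  tree : ∀ P, (prt π P = ∅ ∧ F P = ∅) ∨ Arb S ends (prt π P) (F P)
  sub : S' ⊆ S
  rel : ∀ e ∈ S', ∃ p q P Q, ends e = s(p, q) ∧ π p = some P ∧ π q = some Q ∧ ends' e = s(P, Q)
  dis : ∀ P, Disjoint S' (F P)

/-- the trees of the parts in `O` -/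
def FO (F : V' → Set α) (O : Set V') : Set α := ⋃ P ∈ O, F P

lemma mem_FO {F : V' → Set α} {O : Set V'} {e : α} : e ∈ FO F O ↔ ∃ P ∈ O, e ∈ F P := by
  simp [FO]

section

variable {M : Matroid α} {S S' : Set α} {ends : α → Sym2 V} {ends' : α → Sym2 V'} {u : ℕ}
  {π : V → Option V'} {F : V' → Set α}

lemma Quo.F_ins (h : Quo S ends π F S' ends') {P : V'} {e : α} (he : e ∈ F P) :
    e ∈ S ∧ ∀ v ∈ ends e, π v = some P := by
  rcases h.tree P with ⟨_, h1⟩ | h1
  · rw [h1] at he
    exact absurd he (Set.notMem_empty e)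
  · have := h1.1 he
    exact ⟨this.1, fun v hv => this.2 v hv⟩

lemma Quo.FO_sub (h : Quo S ends π F S' ends') (O : Set V') : FO F O ⊆ S := by
  intro e he
  obtain ⟨P, _, he⟩ := mem_FO.1 he
  exact (h.F_ins he).1

lemma Quo.F_uniq (h : Quo S ends π F S' ends') {P Q : V'} {e : α} (he : e ∈ F P)
    (he' : e ∈ F Q) : P = Q := by
  obtain ⟨v, hv⟩ := exists_mem_ends ends e
  have h1 := (h.F_ins he).2 v hv
  rw [(h.F_ins he').2 v hv] at h1
  exact (Option.some.inj h1).symm

lemma Quo.F_fin [M.Finite] (hF : FrmU M S ends u) (h : Quo S ends π F S' ends') (O : Set V') :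
    (FO F O).Finite := M.ground_finite.subset ((h.FO_sub O).trans hF.sub)

/-- elements inside of the parts of `O` -/
lemma Quo.ends_in (h : Quo S ends π F S' ends') {O : Set V'} {e : α} (he : e ∈ ins S' ends' O)
    {v : V} (hv : v ∈ ends e) : ∃ P ∈ O, π v = some P := by
  obtain ⟨p, q, P, Q, h1, h2, h3, h4⟩ := h.rel e he.1
  have hP : P ∈ O := he.2 P (by rw [h4]; simp)
  have hQ : Q ∈ O := he.2 Q (by rw [h4]; simp)
  rw [h1] at hv
  rcases Sym2.mem_iff.1 hv with rfl | rfl
  · exact ⟨P, hP, h2⟩
  · exact ⟨Q, hQ, h3⟩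

/-- Adding trees of finitely many parts keeps independence. -/
lemma Quo.indep_fin [M.Finite] (hF : FrmU M S ends u) (h : Quo S ends π F S' ends') {I : Set α}
    (hI : M.Indep I) (hIS : I ⊆ S) (T : Finset V')
    (hT : ∀ P ∈ T, ∀ e ∈ I, ∀ v ∈ ends e, ∀ e' ∈ I, ∀ v' ∈ ends e', π v = some P →
      π v' = some P → v = v') :
    M.Indep (I ∪ FO F (T : Set V')) := by
  classical
  induction T using Finset.induction_on with
  | empty =>
    have : FO F ((∅ : Finset V') : Set V') = ∅ := by
      ext e
      simp [mem_FO]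
    rw [this, union_empty]
    exact hI
  | insert P T hP ih =>
    have h1 := ih fun Q hQ => hT Q (Finset.mem_insert_of_mem hQ)
    have h2 : FO F ((insert P T : Finset V') : Set V') = FO F (T : Set V') ∪ F P := by
      ext e
      simp only [mem_FO, Finset.coe_insert, mem_insert_iff, mem_union, Finset.mem_coe]
      constructor
      · rintro ⟨Q, rfl | hQ, he⟩
        · exact Or.inr he
        · exact Or.inl ⟨Q, hQ, he⟩
      · rintro (⟨Q, hQ, he⟩ | he)
        · exact ⟨Q, Or.inr hQ, he⟩
        · exact ⟨P, Or.inl rfl, he⟩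
    rw [h2, ← union_assoc]
    rcases h.tree P with ⟨_, h3⟩ | h3
    · rw [h3, union_empty]
      exact h1
    · have hb := hT P (Finset.mem_insert_self P T)
      -- the base point of the tree
      obtain ⟨b', hb', hbb⟩ : ∃ b' ∈ prt π P, ∀ e ∈ I, ∀ v ∈ ends e, π v = some P → v = b' := by
        by_cases hbP : ∃ e ∈ I, ∃ v ∈ ends e, π v = some P
        · obtain ⟨e, he, v, hv, hvP⟩ := hbP
          exact ⟨v, hvP, fun e' he' v' hv' h' => hb e' he' v' hv' e he v hv h' hvP⟩
        · obtain ⟨b', hb'⟩ := h3.2.1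
          exact ⟨b', hb', fun e he v hv hvP => absurd ⟨e, he, v, hv, hvP⟩ hbP⟩
      refine hF.indep_arb (h.fin P) h3 hb' h1 (union_subset hIS (h.FO_sub _)) ?_
      rintro e (he | he) v hv hvU
      · exact hbb e he v hv hvU
      · obtain ⟨Q, hQ, he⟩ := mem_FO.1 he
        have h4 := (h.F_ins he).2 v hv
        have h5 : π v = some P := hvU
        rw [h4] at h5
        have : Q = P := Option.some.inj h5
        subst this
        exact absurd hQ hP

/-- Vertices over `W`, counted. -/
lemma Quo.ncard_parts [M.Finite] (hF : FrmU M S ends u) (h : Quo S ends π F S' ends') {W : Set V'}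
    (hW : W.Finite) (hne : ∀ P ∈ W, (prt π P).Nonempty) :
    {v | ∃ P ∈ W, π v = some P}.ncard = W.ncard + (FO F W).ncard := by
  classical
  have key : ∀ T : Finset V', (∀ P ∈ T, (prt π P).Nonempty) → {v | ∃ P ∈ T, π v = some P}.Finite ∧
      {v | ∃ P ∈ T, π v = some P}.ncard = T.card + (FO F (T : Set V')).ncard := by
    intro T
    induction T using Finset.induction_on with
    | empty =>
      intro _
      have e0 : FO F (∅ : Set V') = ∅ := by
        ext e
        simp [mem_FO]
      simp [e0]
    | insert P T hP ih =>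
      intro hne
      have ih' := ih fun Q hQ => hne Q (Finset.mem_insert_of_mem hQ)
      have e1 : {v | ∃ Q ∈ insert P T, π v = some Q} = {v | ∃ Q ∈ T, π v = some Q} ∪ prt π P := by
        ext v
        simp only [Finset.mem_insert, mem_ofPred_eq, mem_union, prt]
        constructor
        · rintro ⟨Q, rfl | hQ, hv⟩
          · exact Or.inr hv
          · exact Or.inl ⟨Q, hQ, hv⟩
        · rintro (⟨Q, hQ, hv⟩ | hv)
          · exact ⟨Q, Or.inr hQ, hv⟩
          · exact ⟨P, Or.inl rfl, hv⟩
      have e2 : FO F ((insert P T : Finset V') : Set V') = FO F (T : Set V') ∪ F P := by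
        ext e
        simp only [mem_FO, Finset.coe_insert, mem_insert_iff, mem_union, Finset.mem_coe]
        constructor
        · rintro ⟨Q, rfl | hQ, he⟩
          · exact Or.inr he
          · exact Or.inl ⟨Q, hQ, he⟩
        · rintro (⟨Q, hQ, he⟩ | he)
          · exact ⟨Q, Or.inr hQ, he⟩
          · exact ⟨P, Or.inl rfl, he⟩
      have hdP : Disjoint (FO F (T : Set V')) (F P) := by
        rw [Set.disjoint_left]
        intro e he he'
        obtain ⟨Q, hQ, he⟩ := mem_FO.1 he
        rw [h.F_uniq he he'] at hQ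
        exact hP hQ
      have hdV : Disjoint {v | ∃ Q ∈ T, π v = some Q} (prt π P) := by
        rw [Set.disjoint_left]
        rintro v ⟨Q, hQ, hv⟩ hv'
        have h5 : π v = some P := hv'
        rw [hv] at h5
        exact hP (Option.some.inj h5 ▸ hQ)
      have hfP : (F P).Finite := M.ground_finite.subset (fun e he => hF.sub (h.F_ins he).1)
      have hc : (prt π P).ncard = 1 + (F P).ncard := by
        rcases h.tree P with ⟨h5, h6⟩ | h5
        · exact absurd (hne P (Finset.mem_insert_self P T)) (by rw [h5]; simp)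
        · have := (arb_ncard (h.fin P) h5).2
          omega
      refine ⟨?_, ?_⟩
      · rw [e1]
        exact ih'.1.union (h.fin P)
      · rw [e1, e2, ncard_union_eq hdP (M.ground_finite.subset
          ((h.FO_sub _).trans hF.sub)) hfP, Finset.card_insert_of_notMem hP,
          ncard_union_eq hdV ih'.1 (h.fin P)]
        have := ih'.2
        omega
  have h5 := key hW.toFinset fun P hP => hne P (hW.mem_toFinset.1 hP)
  have e3 : {v | ∃ P ∈ hW.toFinset, π v = some P} = {v | ∃ P ∈ W, π v = some P} := by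
    ext v
    simp
  rw [e3, hW.coe_toFinset, ← Set.ncard_eq_toFinset_card W hW] at h5
  exact h5.2

/-- Adding the trees of the parts in `O` keeps independence. -/
lemma Quo.indep [M.Finite] (hF : FrmU M S ends u) (h : Quo S ends π F S' ends') {I : Set α}
    (hI : M.Indep I) (hIS : I ⊆ S) (O : Set V')
    (hT : ∀ P ∈ O, ∀ e ∈ I, ∀ v ∈ ends e, ∀ e' ∈ I, ∀ v' ∈ ends e', π v = some P →
      π v' = some P → v = v') :
    M.Indep (I ∪ FO F O) := by
  classical
  have : Fintype (FO F O) := (h.F_fin hF O).fintype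
  choose g hg1 hg2 using fun e : FO F O => mem_FO.1 e.2
  have h1 := h.indep_fin hF hI hIS (Finset.univ.image g) (by
    intro P hP
    obtain ⟨e, -, rfl⟩ := Finset.mem_image.1 hP
    exact hT _ (hg1 e))
  refine h1.subset (union_subset_union_right _ ?_)
  intro e he
  exact mem_FO.2 ⟨g ⟨e, he⟩, Finset.mem_coe.2 (Finset.mem_image.2 ⟨⟨e, he⟩, Finset.mem_univ _, rfl⟩),
    hg2 ⟨e, he⟩⟩

/-- **Quotient of a frame.** -/
theorem FrmU.quo [M.Finite] (hF : FrmU M S ends u) (h : Quo S ends π F S' ends')
    (hloop : ∀ e ∈ S', ∀ P, ends' e = s(P, P) →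
      e ∉ M.closure (ins S' ends' {P}ᶜ ∪ FO F univ)) :
    FrmU (M ／ FO F univ) S' ends' u := by
  classical
  have hFS : FO F univ ⊆ S := h.FO_sub _
  have hFE : FO F univ ⊆ M.E := hFS.trans hF.sub
  have hdis : Disjoint S' (FO F univ) := by
    rw [Set.disjoint_left]
    intro e he he'
    obtain ⟨P, _, he'⟩ := mem_FO.1 he'
    exact Set.disjoint_left.1 (h.dis P) he he'
  refine ⟨?_, ?_, ?_⟩
  · rw [Matroid.contract_ground]
    exact fun e he => ⟨hF.sub (h.sub he), Set.disjoint_left.1 hdis he⟩
  · intro P e he hPe hcl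
    rw [Matroid.contract_closure_eq] at hcl
    obtain ⟨p, q, P₁, Q₁, h1, h2, h3, h4⟩ := h.rel e he
    by_cases hPQ : P₁ = Q₁
    · subst hPQ
      have : P = P₁ := by
        rw [h4] at hPe
        simpa using hPe
      subst this
      exact hloop e he P h4 hcl.1
    · -- one end of `e` is in `P`
      obtain ⟨p', hp', hpe, huniq⟩ : ∃ p', π p' = some P ∧ p' ∈ ends e ∧
          ∀ v ∈ ends e, π v = some P → v = p' := by
        rw [h4] at hPe
        rcases Sym2.mem_iff.1 hPe with rfl | rfl
        · refine ⟨p, h2, by rw [h1]; simp, fun v hv hvP => ?_⟩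
          rw [h1] at hv
          rcases Sym2.mem_iff.1 hv with rfl | rfl
          · rfl
          · rw [h3] at hvP
            exact absurd (Option.some.inj hvP).symm hPQ
        · refine ⟨q, h3, by rw [h1]; simp, fun v hv hvP => ?_⟩
          rw [h1] at hv
          rcases Sym2.mem_iff.1 hv with rfl | rfl
          · rw [h2] at hvP
            exact absurd (Option.some.inj hvP) hPQ
          · rfl
      set B : Set α := ins S' ends' {P}ᶜ ∪ FO F {P}ᶜ with hB
      have hBS : B ⊆ S := union_subset (fun x hx => h.sub hx.1) (h.FO_sub _)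
      have hBv : ∀ x ∈ B, ∀ v ∈ ends x, π v ≠ some P := by
        rintro x (hx | hx) v hv hvP
        · obtain ⟨Q, hQ, hvQ⟩ := h.ends_in hx hv
          rw [hvP] at hvQ
          exact hQ (Option.some.inj hvQ).symm
        · obtain ⟨Q, hQ, hx⟩ := mem_FO.1 hx
          rw [(h.F_ins hx).2 v hv] at hvP
          exact hQ (Option.some.inj hvP)
      obtain ⟨I, hI⟩ := M.exists_isBasis B (hBS.trans hF.sub)
      have hIS : I ⊆ S := hI.subset.trans hBS
      have h5 : M.Indep (insert e I) := by
        refine hF.leaf hI.indep hIS (v := p') (fun x hx hv => hBv x (hI.subset hx) p' hv hp')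
          (h.sub he) hpe
      have h6 : M.Indep (insert e I ∪ FO F {P}) := by
        refine h.indep hF h5 (insert_subset (h.sub he) hIS) {P} ?_
        have huq : ∀ x ∈ insert e I, ∀ v ∈ ends x, π v = some P → v = p' := by
          rintro x (rfl | hx) v hv hvQ
          · exact huniq v hv hvQ
          · exact absurd hvQ (hBv x (hI.subset hx) v hv)
        rintro Q rfl x hx v hv x' hx' v' hv' h8 h9
        rw [huq x hx v hv h8, huq x' hx' v' hv' h9]
      have heI : e ∉ I ∪ FO F {P} := by
        rintro (he' | he')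
        · exact hBv e (hI.subset he') p' hpe hp'
        · obtain ⟨Q, _, he'⟩ := mem_FO.1 he'
          exact Set.disjoint_left.1 (h.dis Q) he he'
      have h7 : e ∉ M.closure (I ∪ FO F {P}) := by
        rw [(h6.subset (by
          intro x hx
          rcases hx with hx | hx
          · exact Or.inl (Or.inr hx)
          · exact Or.inr hx)).notMem_closure_iff_of_notMem heI (hF.sub (h.sub he))]
        refine h6.subset ?_
        rintro x (rfl | hx | hx)
        · exact Or.inl (Or.inl rfl)
        · exact Or.inl (Or.inr hx)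
        · exact Or.inr hx
      apply h7
      rw [← M.closure_union_closure_left_eq, hI.closure_eq_closure,
        M.closure_union_closure_left_eq]
      refine M.closure_subset_closure ?_ hcl.1
      rintro x (hx | hx)
      · exact Or.inl (Or.inl hx)
      · obtain ⟨Q, _, hx⟩ := mem_FO.1 hx
        by_cases hQ : Q = P
        · subst hQ
          exact Or.inr (mem_FO.2 ⟨Q, rfl, hx⟩)
        · exact Or.inl (Or.inr (mem_FO.2 ⟨Q, hQ, hx⟩))
  · intro W hW
    have hX : ins S' ends' W ⊆ M.E \ FO F univ := fun e he =>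
      ⟨hF.sub (h.sub he.1), Set.disjoint_left.1 hdis he.1⟩
    have h1 := rk_contract_set (M := M) (C := FO F univ) hFE hX
    have hall : FO F univ = FO F W ∪ FO F Wᶜ := by
      ext e
      simp only [mem_FO, mem_union, mem_univ, true_and, mem_compl_iff]
      constructor
      · rintro ⟨P, he⟩
        by_cases hP : P ∈ W
        · exact Or.inl ⟨P, hP, he⟩
        · exact Or.inr ⟨P, hP, he⟩
      · rintro (⟨P, _, he⟩ | ⟨P, _, he⟩)
        · exact ⟨P, he⟩
        · exact ⟨P, he⟩
    have hd : Disjoint (FO F W) (FO F Wᶜ) := by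
      rw [Set.disjoint_left]
      intro e he he'
      obtain ⟨P, hP, he⟩ := mem_FO.1 he
      obtain ⟨Q, hQ, he'⟩ := mem_FO.1 he'
      rw [h.F_uniq he he'] at hP
      exact hQ hP
    have hfW := h.F_fin hF W
    have hfW' := h.F_fin hF Wᶜ
    have hind : M.Indep (FO F univ) := by
      have := h.indep hF (I := ∅) M.empty_indep (empty_subset _) univ
        (fun P _ e he => absurd he (Set.notMem_empty e))
      simpa using this
    have h2 : rk M (FO F univ) = (FO F W).ncard + (FO F Wᶜ).ncard := by
      rw [rk_indep hind, hall, ncard_union_eq hd hfW hfW']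
    have h3 : rk M (ins S' ends' W ∪ FO F univ) ≤
        rk M (ins S' ends' W ∪ FO F W) + (FO F Wᶜ).ncard := by
      rw [hall, ← union_assoc]
      exact rk_union_le (M := M) hfW'
    -- the vertices over `W`
    set U : Set V := {v | ∃ P ∈ W, π v = some P} with hU
    have h4 : ins S' ends' W ∪ FO F W ⊆ ins S ends U := by
      rintro e (he | he)
      · exact ⟨h.sub he.1, fun v hv => h.ends_in he hv⟩
      · obtain ⟨P, hP, he⟩ := mem_FO.1 he
        exact ⟨(h.F_ins he).1, fun v hv => ⟨P, hP, (h.F_ins he).2 v hv⟩⟩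
    have hcount : U.Finite ∧ U.ncard ≤ W.ncard + (FO F W).ncard := by
      have key : ∀ T : Finset V', {v | ∃ P ∈ T, π v = some P}.Finite ∧
          {v | ∃ P ∈ T, π v = some P}.ncard ≤ T.card + (FO F (T : Set V')).ncard := by
        intro T
        induction T using Finset.induction_on with
        | empty => simp
        | insert P T hP ih =>
          have e1 : {v | ∃ Q ∈ insert P T, π v = some Q} = {v | ∃ Q ∈ T, π v = some Q} ∪ prt π P := by
            ext v
            simp only [Finset.mem_insert, mem_ofPred_eq, mem_union, prt]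
            constructor
            · rintro ⟨Q, rfl | hQ, hv⟩
              · exact Or.inr hv
              · exact Or.inl ⟨Q, hQ, hv⟩
            · rintro (⟨Q, hQ, hv⟩ | hv)
              · exact ⟨Q, Or.inr hQ, hv⟩
              · exact ⟨P, Or.inl rfl, hv⟩
          have e2 : FO F ((insert P T : Finset V') : Set V') = FO F (T : Set V') ∪ F P := by
            ext e
            simp only [mem_FO, Finset.coe_insert, mem_insert_iff, mem_union, Finset.mem_coe]
            constructor
            · rintro ⟨Q, rfl | hQ, he⟩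
              · exact Or.inr he
              · exact Or.inl ⟨Q, hQ, he⟩
            · rintro (⟨Q, hQ, he⟩ | he)
              · exact ⟨Q, Or.inr hQ, he⟩
              · exact ⟨P, Or.inl rfl, he⟩
          have hdP : Disjoint (FO F (T : Set V')) (F P) := by
            rw [Set.disjoint_left]
            intro e he he'
            obtain ⟨Q, hQ, he⟩ := mem_FO.1 he
            rw [h.F_uniq he he'] at hQ
            exact hP hQ
          have hfP : (F P).Finite := M.ground_finite.subset (fun e he => hF.sub (h.F_ins he).1)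
          have hc : (prt π P).ncard ≤ 1 + (F P).ncard := by
            rcases h.tree P with ⟨h5, h6⟩ | h5
            · rw [h5]
              simp
            · have := (arb_ncard (h.fin P) h5).2
              omega
          refine ⟨?_, ?_⟩
          · rw [e1]
            exact ih.1.union (h.fin P)
          · rw [e1, e2, ncard_union_eq hdP (h.F_fin hF _) hfP, Finset.card_insert_of_notMem hP]
            have := Set.ncard_union_le {v | ∃ Q ∈ T, π v = some Q} (prt π P)
            have := ih.2
            omega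
      have h5 := key hW.toFinset
      have e3 : {v | ∃ P ∈ hW.toFinset, π v = some P} = U := by
        ext v
        simp [hU]
      rw [e3, hW.coe_toFinset, ← Set.ncard_eq_toFinset_card W hW] at h5
      exact h5
    have h5 := hF.rk U hcount.1
    have h6 := rk_mono M h4
    have h7 := hcount.2
    omega

lemma FO_compl (F : V' → Set α) (O : Set V') : FO F univ = FO F O ∪ FO F Oᶜ := by
  ext e
  simp only [mem_FO, mem_union, mem_univ, true_and, mem_compl_iff]
  constructor
  · rintro ⟨P, he⟩
    by_cases hP : P ∈ O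
    · exact Or.inl ⟨P, hP, he⟩
    · exact Or.inr ⟨P, hP, he⟩
  · rintro (⟨P, _, he⟩ | ⟨P, _, he⟩)
    · exact ⟨P, he⟩
    · exact ⟨P, he⟩

lemma Quo.FO_disj (h : Quo S ends π F S' ends') {O O' : Set V'} (hO : Disjoint O O') :
    Disjoint (FO F O) (FO F O') := by
  rw [Set.disjoint_left]
  intro e he he'
  obtain ⟨P, hP, he⟩ := mem_FO.1 he
  obtain ⟨Q, hQ, he'⟩ := mem_FO.1 he'
  rw [h.F_uniq he he'] at hP
  exact Set.disjoint_left.1 hO hP hQ

lemma Quo.S_disj (h : Quo S ends π F S' ends') (O : Set V') : Disjoint S' (FO F O) := by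
  rw [Set.disjoint_left]
  intro e he he'
  obtain ⟨P, _, he'⟩ := mem_FO.1 he'
  exact Set.disjoint_left.1 (h.dis P) he he'

lemma Quo.FO_indep [M.Finite] (hF : FrmU M S ends u) (h : Quo S ends π F S' ends')
    (O : Set V') : M.Indep (FO F O) := by
  have := h.indep hF (I := ∅) M.empty_indep (empty_subset _) O
    (fun P _ e he => absurd he (Set.notMem_empty e))
  simpa using this

/-- **Only the trees inside of `O` matter for elements inside of `O`.** -/
theorem Quo.rk_transfer [M.Finite] (hF : FrmU M S ends u) (h : Quo S ends π F S' ends')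
    {O : Set V'} {X : Set α} (hX : X ⊆ ins S' ends' O) :
    rk (M ／ FO F univ) X = rk (M ／ FO F O) X := by
  classical
  have hE : ∀ O', FO F O' ⊆ M.E := fun O' => (h.FO_sub O').trans hF.sub
  have hXS : X ⊆ S := fun e he => h.sub (hX he).1
  have hXd : ∀ O', X ⊆ M.E \ FO F O' := fun O' e he =>
    ⟨hF.sub (hXS he), Set.disjoint_left.1 (h.S_disj O') (hX he).1⟩
  have h1 := rk_contract_set (M := M) (hE univ) (hXd univ)
  have h2 := rk_contract_set (M := M) (hE O) (hXd O)
  have hd : Disjoint (FO F O) (FO F Oᶜ) := h.FO_disj disjoint_compl_right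
  have h3 : rk M (FO F univ) = (FO F O).ncard + (FO F Oᶜ).ncard := by
    rw [rk_indep (h.FO_indep hF _), FO_compl F O,
      ncard_union_eq hd (h.F_fin hF O) (h.F_fin hF Oᶜ)]
  have h4 : rk M (FO F O) = (FO F O).ncard := rk_indep (h.FO_indep hF _)
  obtain ⟨I, hI⟩ := M.exists_isBasis (X ∪ FO F O) (union_subset (hXS.trans hF.sub) (hE O))
  have hIv : ∀ e ∈ I, ∀ v ∈ ends e, ∀ P ∈ Oᶜ, π v ≠ some P := by
    intro e he v hv P hP hvP
    rcases hI.subset he with he | he
    · obtain ⟨Q, hQ, hvQ⟩ := h.ends_in (hX he) hv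
      rw [hvP] at hvQ
      exact hP ((Option.some.inj hvQ).symm ▸ hQ)
    · obtain ⟨Q, hQ, he⟩ := mem_FO.1 he
      rw [(h.F_ins he).2 v hv] at hvP
      exact hP (Option.some.inj hvP ▸ hQ)
  have h5 : M.Indep (I ∪ FO F Oᶜ) := h.indep hF hI.indep
    (hI.subset.trans (union_subset hXS (h.FO_sub _))) Oᶜ
    (fun P hP e he v hv e' he' v' hv' h6 => absurd h6 (hIv e he v hv P hP))
  have hIf : I.Finite := M.ground_finite.subset hI.indep.subset_ground
  have h6 : Disjoint I (FO F Oᶜ) := by
    rw [Set.disjoint_left]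
    intro e he he'
    obtain ⟨P, hP, he'⟩ := mem_FO.1 he'
    obtain ⟨v, hv⟩ := exists_mem_ends ends e
    exact hIv e he v hv P hP ((h.F_ins he').2 v hv)
  have h7 : rk M (X ∪ FO F O) = I.ncard := by
    have := hI.eRk_eq_eRk
    rw [← cast_rk, ← cast_rk] at this
    have h8 : rk M I = rk M (X ∪ FO F O) := by exact_mod_cast this
    rw [← h8, rk_indep hI.indep]
  have h8 : I.ncard + (FO F Oᶜ).ncard ≤ rk M (X ∪ FO F univ) := by
    rw [← ncard_union_eq h6 hIf (h.F_fin hF _), ← rk_indep h5]
    refine rk_mono M ?_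
    rintro e (he | he)
    · rcases hI.subset he with he | he
      · exact Or.inl he
      · exact Or.inr (by rw [FO_compl F O]; exact Or.inl he)
    · exact Or.inr (by rw [FO_compl F O]; exact Or.inr he)
  have h9 : rk M (X ∪ FO F univ) ≤ rk M (X ∪ FO F O) + (FO F Oᶜ).ncard := by
    rw [FO_compl F O, ← union_assoc]
    exact rk_union_le (M := M) (h.F_fin hF _)
  omega

end

/-- A grid with joints depends only on the ranks of subsets. -/
lemma jgrid_congr {M N : Matroid α} [M.Finite] [N.Finite] {S : Set α} (hM : S ⊆ M.E)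
    (hN : S ⊆ N.E) (h : ∀ X ⊆ S, rk M X = rk N X) {t : ℕ} {j : ℕ × ℕ → α}
    {ed : ℕ × ℕ → ℕ × ℕ → α} (hJ : JGrid M S t j ed) : JGrid N S t j ed := by
  have hind : ∀ X ⊆ S, M.Indep X → N.Indep X := by
    intro X hX hI
    have h1 := h X hX
    rw [rk_indep hI] at h1
    have hXf : X.Finite := M.ground_finite.subset (hX.trans hM)
    rw [Matroid.indep_iff_eRk_eq_encard_of_finite hXf, ← cast_rk, ← hXf.cast_ncard_eq, ← h1]
  have hcl : ∀ X ⊆ S, ∀ e ∈ S, e ∈ M.closure X → e ∈ N.closure X := by
    intro X hX e he hc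
    have h1 : rk M (insert e X) = rk M X := by
      rw [← rk_closure, Matroid.closure_insert_eq_of_mem_closure hc, rk_closure]
    by_contra hcon
    have h2 := CWL.rk_insert_ge (hN he) hcon
    have h3 := h X hX
    have h4 := h (insert e X) (insert_subset he hX)
    omega
  have hj : j '' Cl t ⊆ S := hJ.basis.subset
  refine ⟨hJ.inj, ?_, hJ.mem, ?_, ?_, ?_⟩
  · refine (hind _ hj hJ.basis.indep).isBasis_of_subset_of_subset_closure hj ?_
    intro e he
    exact hcl _ hj e he (hJ.basis.subset_closure he)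
  · intro c c' hcc
    refine hcl _ ?_ _ (hJ.mem c c' hcc) (hJ.h1 c c' hcc)
    rintro x (rfl | rfl)
    · exact hj ⟨c, hcc.1, rfl⟩
    · exact hj ⟨c', hcc.2.1, rfl⟩
  · intro c c' hcc
    refine hcl _ ?_ _ (hj ⟨c, hcc.1, rfl⟩) (hJ.h2 c c' hcc)
    rintro x (rfl | rfl)
    · exact hj ⟨c', hcc.2.1, rfl⟩
    · exact hJ.mem c c' hcc
  · intro c c' hcc
    refine hcl _ ?_ _ (hj ⟨c', hcc.2.1, rfl⟩) (hJ.h3 c c' hcc)
    rintro x (rfl | rfl)
    · exact hj ⟨c, hcc.1, rfl⟩
    · exact hJ.mem c c' hcc

/-- **A picture inside of `O` is a picture over the trees of `O`.** -/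
theorem Quo.jgrid {M : Matroid α} [M.Finite] {S S' : Set α} {ends : α → Sym2 V}
    {ends' : α → Sym2 V'} {u : ℕ} {π : V → Option V'} {F : V' → Set α}
    (hF : FrmU M S ends u) (h : Quo S ends π F S' ends') {O : Set V'} {C T : Set α}
    (hC : C ⊆ ins S' ends' O) (hT : T ⊆ ins S' ends' O) (hCT : Disjoint C T) {t : ℕ}
    {j : ℕ × ℕ → α} {ed : ℕ × ℕ → ℕ × ℕ → α} (hI : (M ／ FO F univ).Indep (C ∪ j '' Cl t))
    (hJ : JGrid (M ／ FO F univ ／ C) T t j ed) :
    M.Indep ((FO F O ∪ C) ∪ j '' Cl t) ∧ JGrid (M ／ (FO F O ∪ C)) T t j ed := by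
  have hE : ∀ O', FO F O' ⊆ M.E := fun O' => (h.FO_sub O').trans hF.sub
  have hjT : j '' Cl t ⊆ T := hJ.basis.subset
  have hSE : ∀ O', ins S' ends' O ⊆ M.E \ FO F O' := fun O' e he =>
    ⟨hF.sub (h.sub he.1), Set.disjoint_left.1 (h.S_disj O') he.1⟩
  have f1 : (M ／ FO F univ).Finite := inferInstance
  have f2 : (M ／ FO F O).Finite := inferInstance
  have hr : ∀ X ⊆ ins S' ends' O, rk (M ／ FO F univ) X = rk (M ／ FO F O) X :=
    fun X hX => h.rk_transfer hF hX
  have hCj : C ∪ j '' Cl t ⊆ ins S' ends' O := union_subset hC (hjT.trans hT)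
  have h1 : (M ／ FO F O).Indep (C ∪ j '' Cl t) := by
    have hXf : (C ∪ j '' Cl t).Finite :=
      M.ground_finite.subset ((hCj.trans (hSE univ)).trans sdiff_subset)
    have h2 := hr _ hCj
    rw [rk_indep hI] at h2
    rw [Matroid.indep_iff_eRk_eq_encard_of_finite hXf, ← cast_rk, ← hXf.cast_ncard_eq, ← h2]
  have h3 : M.Indep (C ∪ j '' Cl t ∪ FO F O) := ((h.FO_indep hF O).contract_indep_iff.1 h1).2
  refine ⟨h3.subset ?_, ?_⟩
  · rintro e ((he | he) | he)
    · exact Or.inr he
    · exact Or.inl (Or.inl he)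
    · exact Or.inl (Or.inr he)
  · rw [← Matroid.contract_contract]
    refine jgrid_congr (M := M ／ FO F univ ／ C) ?_ ?_ ?_ hJ
    · intro e he
      exact ⟨hSE univ (hT he), fun hc => Set.disjoint_left.1 hCT hc he⟩
    · intro e he
      exact ⟨hSE O (hT he), fun hc => Set.disjoint_left.1 hCT hc he⟩
    · intro X hX
      have hXO : X ⊆ ins S' ends' O := hX.trans hT
      have hXC : Disjoint X C := Set.disjoint_left.2 fun e he hc =>
        Set.disjoint_left.1 hCT hc (hX he)
      have h4 := rk_contract_set (M := M ／ FO F univ) (C := C) (X := X)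
        (fun e he => hSE univ (hC he))
        (fun e he => ⟨hSE univ (hXO he), Set.disjoint_left.1 hXC he⟩)
      have h5 := rk_contract_set (M := M ／ FO F O) (C := C) (X := X)
        (fun e he => hSE O (hC he))
        (fun e he => ⟨hSE O (hXO he), Set.disjoint_left.1 hXC he⟩)
      have h6 := hr C hC
      have h7 := hr (X ∪ C) (union_subset hXO hC)
      omega

end TST
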