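import Pool.Agent.TST.CrossP

/-!
# Elements which cross an exit (CLAIM A of T-star; pure matroid theory, helper33)

`crossU_of` (path) and `cross2_of` (pair of legs with the chord `h`): an element which sees something
on both sides crosses.  From `star_cases` and `pair_circ` of helper51.
-/

open Set
open scoped Matroid

namespace TST

variable {α : Type*} {N : Matroid α} {K : Set α} {t z h x y p q C : α}

/-- **[SC] on a path**. -/
theorem crossU_of (hK : N.IsCircuit K) (htK : t ∉ K) (hzK : z ∉ K) (htz : t ≠ z)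
    (ht : t ∈ N.closure K) (hz : z ∈ N.closure K) (hp : p ∈ K) (hq : q ∈ K)
    (z2c : ∀ x ∈ K, Eqv N K z x p ∨ Eqv N K z x q) (zpq : ¬ Eqv N K z p q)
    (hno : ∀ D ⊆ K ∪ {z, t}, N.IsCircuit D → z ∈ D → p ∈ D → q ∈ D → False)
    (hx : x ∈ K) (hy : y ∈ K) (x0 : Eqv N K z x p) (x1 : ¬ Eqv N K t x p) (y0 : Eqv N K z y q)
    (y1 : ¬ Eqv N K t y q) (hun : ¬ Eqv N K t p q) : CrossU N K z p q t := by
  have h1 := star_cases hK htK hzK htz ht hz hp hq
    (fun w hw => (z2c w hw).imp (fun h => h.symm) id) zpq (by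
      intro D hD hc h1 h2 h3
      refine hno D (hD.trans ?_) hc h1 h2 h3
      rintro w (hw | hw | hw)
      exacts [Or.inr (Or.inl hw), Or.inr (Or.inr hw), Or.inl hw])
  rcases h1 with h1 | h1 | ⟨w, hw, w1, w2, w3, w4⟩
  · exact absurd (h1 x hx x0.symm).symm x1
  · exact absurd (h1 y hy y0) y1
  rcases w4 with w4 | ⟨w4, w5⟩
  · exact absurd w4 hun
  refine ⟨hun, fun a ha h => (w4 a ha h.symm).symm, w5, ?_⟩
  intro a ha b hb a1 a2 b1 b2
  have ha3 : Eqv N K t w a := by
    rcases w3 a ha with h | h | h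
    exacts [absurd h.symm a1, h, absurd h a2]
  have hb3 : Eqv N K t w b := by
    rcases w3 b hb with h | h | h
    exacts [absurd h.symm b1, h, absurd h b2]
  exact ha3.symm.trans hK hw hb3

/-- **[SC] + [PC] on a pair of legs**: `t` sees something on the side of `p` of the chord `h` and
something on the side of `q` of the exit `z`. -/
theorem cross2_of (hK : N.IsCircuit K) (htK : t ∉ K) (hzK : z ∉ K) (hhK : h ∉ K) (htz : t ≠ z)
    (hth : t ≠ h) (hzh : z ≠ h) (ht : t ∈ N.closure K) (hz : z ∈ N.closure K)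
    (hh : h ∈ N.closure K) (hp : p ∈ K) (hq : q ∈ K)
    (h2c : ∀ x ∈ K, Eqv N K h x p ∨ Eqv N K h x q) (hpq : ¬ Eqv N K h p q)
    (z2c : ∀ x ∈ K, Eqv N K z x p ∨ Eqv N K z x q) (zpq : ¬ Eqv N K z p q)
    (nest : ∀ x ∈ K, Eqv N K h x p → Eqv N K z x p)
    (hno : ∀ D ⊆ K ∪ {z, h, t}, N.IsCircuit D → z ∈ D ∨ h ∈ D → p ∈ D → q ∈ D → False)
    (hx : x ∈ K) (hy : y ∈ K) (x0 : Eqv N K h x p) (x1 : ¬ Eqv N K t x p) (y0 : Eqv N K z y q)
    (y1 : ¬ Eqv N K t y q) : Cross2 N K h z p q t := by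
  have nest' : ∀ x ∈ K, Eqv N K z x q → Eqv N K h x q := fun x hx h3 =>
    (h2c x hx).resolve_left fun h4 => zpq ((nest x hx h4).symm.trans hK hx h3)
  have h1 := star_cases hK htK hzK htz ht hz hp hq
    (fun w hw => (z2c w hw).imp (fun h => h.symm) id) zpq (by
      intro D hD hc h1 h2 h3
      refine hno D (hD.trans ?_) hc (Or.inl h1) h2 h3
      rintro w (hw | hw | hw)
      exacts [Or.inr (Or.inl hw), Or.inr (Or.inr (Or.inr hw)), Or.inl hw])
  have h2 := star_cases hK htK hhK hth ht hh hp hq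
    (fun w hw => (h2c w hw).imp (fun h => h.symm) id) hpq (by
      intro D hD hc h1 h2 h3
      refine hno D (hD.trans ?_) hc (Or.inr h1) h2 h3
      rintro w (hw | hw | hw)
      exacts [Or.inr (Or.inr (Or.inl hw)), Or.inr (Or.inr (Or.inr hw)), Or.inl hw])
  rcases h1 with h1 | h1 | ⟨w, hw, w1, w2, w3, w4⟩
  · exact absurd (h1 x hx (nest x hx x0).symm).symm x1
  · exact absurd (h1 y hy y0) y1
  rcases h2 with h2 | h2 | ⟨w', hw', v1, v2, v3, v4⟩
  · exact absurd (h2 x hx x0.symm).symm x1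
  · exact absurd (h2 y hy (nest' y hy y0)) y1
  have hun : ¬ Eqv N K t p q → (∀ x ∈ K, Eqv N K t x p → Eqv N K h x p) ∧
      ∀ x ∈ K, Eqv N K t x q → Eqv N K z x q := by
    intro h3
    refine ⟨?_, ?_⟩
    · rcases v4 with v4 | ⟨v4, -⟩
      · exact absurd v4 h3
      · exact fun a ha h => (v4 a ha h.symm).symm
    · rcases w4 with w4 | ⟨-, w4⟩
      · exact absurd w4 h3
      · exact w4
  refine ⟨?_, hun, ?_⟩
  · intro c hc c1 c2
    by_cases hb : Eqv N K t p q
    · have c3 : ¬ Eqv N K t c p := by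
        intro c3
        have c4 : Eqv N K h c q := (h2c c hc).resolve_left c2
        obtain ⟨D, d1, d2, d3, d4, d5, d6, -⟩ := pair_circ hK htK hhK hzK hth htz hzh.symm ht hh hz
          hx hc hy hp hq x0.symm (c4.trans hK hq (nest' y hy y0).symm) (nest' y hy y0) hpq
          (nest x hx x0).symm ((nest x hx x0).trans hK hp c1.symm) y0 zpq (fun h => x1 h.symm)
          (fun h => x1 (h.trans hK hc c3)) (fun h => y1 (h.symm.trans hK hc (c3.trans hK hp hb))) y1
        refine hno D (d1.trans ?_) d2 (Or.inl d3) d5 d6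
        rintro w (hw | hw | hw | hw)
        exacts [Or.inr (Or.inl hw), Or.inr (Or.inr (Or.inl hw)), Or.inr (Or.inr (Or.inr hw)),
          Or.inl hw]
      exact ⟨c3, fun h => c3 (h.trans hK hq hb.symm)⟩
    · obtain ⟨u1, u2⟩ := hun hb
      exact ⟨fun h => c2 (u1 c hc h), fun h => zpq (c1.symm.trans hK hc (u2 c hc h))⟩
  · intro a ha b hb a1 a2 b1 b2
    have ha3 : Eqv N K t w a := by
      rcases w3 a ha with h | h | h
      exacts [absurd h.symm a1, h, absurd h a2]
    have hb3 : Eqv N K t w b := by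
      rcases w3 b hb with h | h | h
      exacts [absurd h.symm b1, h, absurd h b2]
    exact ha3.symm.trans hK hw hb3

end TST
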