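import Pool.Agent.TST.StarNode
import Pool.Agent.TST.Cross2

/-!
# Two links of the same exit (CLAIM A of T-star, STAR SPLIT; helper63)

`Tri.linkPair`: two links of the same exit, in the pair of legs `F`, `G`: the traces on `G` are
comparable or those on `F` are equal, and the same with `F` and `G` exchanged.  `Tri.linkDiff`: links
whose second places are on different legs have comparable places on the first leg.
-/

set_option autoImplicit false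

open Set
open scoped Matroid

namespace TST

variable {α : Type*} {N : Matroid α} {K F G H Fo T : Set α} {z x y t t' o₁ o₂ o₃ : α}

namespace Tri

/-- closure in the pair of legs -/
lemma pair_mem (h : Tri N K F G H T o₁ o₂ o₃ z) {s : α} (hs : s ∈ N.closure K) (hsK : s ∉ K) :
    s ∈ (N ／ (H \ {o₃})).closure (F ∪ G) := by
  rw [Matroid.contract_closure_eq]
  refine ⟨?_, fun h1 => hsK (h.th.H_sub h1.1)⟩
  have hE := h.th.ground
  have hsub : F ∪ G ∪ (H \ {o₃}) ⊆ N.E := by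
    rintro w ((h1 | h1) | h1)
    · exact hE (h.th.F_sub h1)
    · exact hE (h.th.G_sub h1)
    · exact hE (h.th.H_sub h1.1)
  refine N.closure_subset_closure_of_subset_closure ?_ hs
  intro w hw
  rw [h.th.hK] at hw
  by_cases hwo : w = o₃
  · rw [hwo]
    refine N.closure_subset_closure ?_ (h.th.cGH.mem_closure_sdiff_singleton_of_mem (Or.inr h.h3))
    rintro v ⟨hv | hv, hv2⟩
    · exact Or.inl (Or.inr hv)
    · exact Or.inr ⟨hv, hv2⟩
  · refine N.subset_closure _ hsub ?_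
    rcases hw with hw | hw
    · exact Or.inl hw
    · exact Or.inr ⟨hw, hwo⟩

/-- a link crosses the exit and the chord of the third leg -/
theorem cross2 (h : Tri N K F G H T o₁ o₂ o₃ z)
    (hne : ∃ a ∈ F, a ∉ Fo) (ht : t ∈ T) (hL : LinkCls N K F G Fo o₁ o₂ o₃ t)
    (zq : ∀ x ∈ F ∪ G, Eqv (N ／ (H \ {o₃})) (F ∪ G) z x o₁ ↔ x ∈ Fo)
    (zp : ∀ x ∈ F ∪ G, Eqv (N ／ (H \ {o₃})) (F ∪ G) z x o₂ ↔ x ∉ Fo)
    (hp : ∀ x ∈ F ∪ G, Eqv (N ／ (H \ {o₃})) (F ∪ G) o₃ x o₂ ↔ x ∈ G) :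
    Cross2 (N ／ (H \ {o₃})) (F ∪ G) o₃ z o₂ o₁ t := by
  have hK' := h.th.pair h.h3
  have htK := h.TK t ht
  have htH : t ∉ H := fun h1 => htK (h.th.H_sub h1)
  have hFG : ∀ x ∈ F, x ∉ G := fun x hx hx' => disjoint_left.1 h.th.dFG hx hx'
  have o1F : o₁ ∈ F := h.h1
  have eF : ∀ x ∈ F, ∀ y ∈ F, Eqv (N ／ (H \ {o₃})) (F ∪ G) t x y ↔ Eqv N K t x y :=
    fun x hx y hy => h.th.pair_eqv h.h3 hx hy htH
  have eG : ∀ x ∈ G, ∀ y ∈ G, Eqv (N ／ (H \ {o₃})) (F ∪ G) t x y ↔ Eqv N K t x y := by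
    intro x hx y hy
    have := h.th.swap'.pair_eqv h.h3 hx hy htH
    rwa [union_comm G F] at this
  have eX : ∀ x ∈ F, ∀ y ∈ G, Eqv (N ／ (H \ {o₃})) (F ∪ G) t x y ↔
      t ∈ N.closure (K \ {x, y, o₃}) := by
    intro x hx y hy
    rw [h.th.pair_eqv' h.h3 (Or.inl hx) (Or.inr hy) htH]
    constructor
    · rintro (h1 | h1)
      · exact absurd hy (h1 ▸ hFG x hx)
      · exact h1
    · exact Or.inr
  obtain ⟨a, ha, haF⟩ := hne
  have ha1 : ¬ Eqv N K t a o₁ := fun h1 => haF (hL.a1 a ha h1)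
  have ha2 : ¬ Eqv (N ／ (H \ {o₃})) (F ∪ G) t a o₂ := by
    rw [eX a ha o₂ h.h2]
    exact hL.a3 a ha haF
  refine ⟨?_, ?_, ?_⟩
  · intro x hx h1 h2
    have hxFo : x ∉ Fo := (zp x hx).1 h1
    have hxG : x ∉ G := fun h3 => h2 ((hp x hx).2 h3)
    have hxF : x ∈ F := hx.resolve_right hxG
    refine ⟨?_, ?_⟩
    · rw [eX x hxF o₂ h.h2]
      exact hL.a3 x hxF hxFo
    · rw [eF x hxF o₁ o1F]
      exact fun h3 => hxFo (hL.a1 x hxF h3)
  · intro hpq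
    refine ⟨?_, ?_⟩
    · intro x hx h1
      rw [hp x hx]
      by_contra hxG
      have hxF : x ∈ F := hx.resolve_right hxG
      have h2 : ¬ Eqv N K t x o₁ := by
        intro h3
        exact hpq (h1.symm.trans hK' hx ((eF x hxF o₁ o1F).2 h3))
      have h3 : Eqv (N ／ (H \ {o₃})) (F ∪ G) t a x := (eF a ha x hxF).2 (hL.a2 a ha x hxF ha1 h2)
      exact ha2 (h3.trans hK' hx h1)
    · intro x hx h1
      rw [zq x hx]
      rcases hx with hxF | hxG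
      · exact hL.a1 x hxF ((eF x hxF o₁ o1F).1 h1)
      · exfalso
        have h2 : ¬ Eqv N K t x o₂ := by
          intro h3
          exact hpq (((eG x hxG o₂ h.h2).2 h3).symm.trans hK' (Or.inr hxG) h1)
        have h3 : Eqv (N ／ (H \ {o₃})) (F ∪ G) t a x :=
          (eX a ha x hxG).2 (hL.a5 a ha x hxG ha1 h2)
        exact ha1 ((eF a ha o₁ o1F).1 (h3.trans hK' (Or.inr hxG) h1))
  · intro x hx y hy x1 x2 y1 y2
    rcases hx with hxF | hxG <;> rcases hy with hyF | hyG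
    · exact (eF x hxF y hyF).2 (hL.a2 x hxF y hyF (fun h1 => x2 ((eF x hxF o₁ o1F).2 h1))
        fun h1 => y2 ((eF y hyF o₁ o1F).2 h1))
    · exact (eX x hxF y hyG).2 (hL.a5 x hxF y hyG (fun h1 => x2 ((eF x hxF o₁ o1F).2 h1))
        fun h1 => y1 ((eG y hyG o₂ h.h2).2 h1))
    · exact ((eX y hyF x hxG).2 (hL.a5 y hyF x hxG (fun h1 => y2 ((eF y hyF o₁ o1F).2 h1))
        fun h1 => x1 ((eG x hxG o₂ h.h2).2 h1))).symm
    · exact (eG x hxG y hyG).2 (hL.a4 x hxG y hyG (fun h1 => x1 ((eG x hxG o₂ h.h2).2 h1))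
        fun h1 => y1 ((eG y hyG o₂ h.h2).2 h1))

/-- **[LINK-PAIR]**: two links of the same exit in the pair of legs `F`, `G`. -/
theorem linkPair (h : Tri N K F G H T o₁ o₂ o₃ z) (hz : ZCut N K z F Fo G H) (ho : o₁ ∈ Fo)
    (hne : ∃ a ∈ F, a ∉ Fo) (ht : t ∈ T) (hL : LinkCls N K F G Fo o₁ o₂ o₃ t)
    (ht' : t' ∈ T) (hL' : LinkCls N K F G Fo o₁ o₂ o₃ t') :
    ((∀ x ∈ G, Eqv N K t x o₂ → Eqv N K t' x o₂) ∨ (∀ x ∈ G, Eqv N K t' x o₂ → Eqv N K t x o₂) ∨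
      ∀ x ∈ F, (Eqv N K t x o₁ ↔ Eqv N K t' x o₁)) ∧
    ((∀ x ∈ F, Eqv N K t x o₁ → Eqv N K t' x o₁) ∨ (∀ x ∈ F, Eqv N K t' x o₁ → Eqv N K t x o₁) ∨
      ∀ x ∈ G, (Eqv N K t x o₂ ↔ Eqv N K t' x o₂)) := by
  by_cases htt : t = t'
  · subst htt
    exact ⟨Or.inl fun x _ h1 => h1, Or.inl fun x _ h1 => h1⟩
  have hK' := h.th.pair h.h3
  have hFG : ∀ x ∈ F, x ∉ G := fun x hx hx' => disjoint_left.1 h.th.dFG hx hx'
  have hFo : ∀ x ∈ G, x ∉ Fo := fun x hx hx' => hFG x (hz.sub hx') hx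
  have o1F : o₁ ∈ F := h.h1
  have o3n : o₃ ∉ F ∪ G := by
    rintro (h1 | h1)
    · exact disjoint_left.1 h.th.dFH h1 h.h3
    · exact disjoint_left.1 h.th.dGH h1 h.h3
  have hzH : z ∉ H := fun h1 => h.zK (h.th.H_sub h1)
  have nFG : ∀ s, s ∉ K → s ∉ F ∪ G := by
    rintro s hs (h1 | h1)
    · exact hs (h.th.F_sub h1)
    · exact hs (h.th.G_sub h1)
  have nO : ∀ s, s ∉ K → o₃ ≠ s := fun s hs h1 => hs (h1 ▸ h.th.H_sub h.h3)
  have cF := h.th.pair_chord h.h3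
  have cG := h.th.swap'.pair_chord h.h3
  -- the chord
  have hcl : o₃ ∈ (N ／ (H \ {o₃})).closure (F ∪ G) := by
    refine (N ／ (H \ {o₃})).closure_subset_closure ?_
      (cF.mem_closure_sdiff_singleton_of_mem (Or.inl rfl))
    rintro w ⟨hw | hw, hw2⟩
    · exact absurd hw hw2
    · exact Or.inl hw
  have hpq : ¬ Eqv (N ／ (H \ {o₃})) (F ∪ G) o₃ o₂ o₁ := by
    rintro (h1 | h1)
    · exact hFG o₁ o1F (h1 ▸ h.h2)
    · rw [Matroid.contract_closure_eq] at h1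
      have h2 := h.th.iFG o₁ o1F o₂ h.h2
      rw [Matroid.indep_iff_forall_notMem_closure_sdiff (by
        exact sdiff_subset.trans h.th.ground)] at h2
      refine h2 (e := o₃) ⟨h.th.H_sub h.h3, ?_⟩ (N.closure_subset_closure ?_ h1.1)
      · rintro (h3 | h3)
        · exact o3n (Or.inl (h3 ▸ o1F))
        · exact o3n (Or.inr ((mem_singleton_iff.1 h3) ▸ h.h2))
      · rintro w (⟨hw, hw2⟩ | hw)
        · refine ⟨⟨?_, fun h3 => hw2 ?_⟩, fun h3 => o3n ((mem_singleton_iff.1 h3) ▸ hw)⟩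
          · exact hw.elim (fun h3 => h.th.F_sub h3) (fun h3 => h.th.G_sub h3)
          · rcases h3 with h3 | h3
            · exact Or.inr h3
            · exact Or.inl h3
        · refine ⟨⟨h.th.H_sub hw.1, ?_⟩, hw.2⟩
          rintro (h3 | h3)
          · exact disjoint_left.1 h.th.dFH (h3 ▸ o1F) hw.1
          · exact disjoint_left.1 h.th.dGH ((mem_singleton_iff.1 h3) ▸ h.h2) hw.1
  have hpG : ∀ x ∈ G, Eqv (N ／ (H \ {o₃})) (F ∪ G) o₃ x o₂ := by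
    intro x hx
    refine Or.inr ((N ／ (H \ {o₃})).closure_subset_closure ?_
      (cF.mem_closure_sdiff_singleton_of_mem (Or.inl rfl)))
    rintro w ⟨hw | hw, hw2⟩
    · exact absurd hw hw2
    · refine ⟨Or.inl hw, ?_⟩
      rintro (h3 | h3)
      · exact hFG w hw (h3 ▸ hx)
      · exact hFG w hw ((mem_singleton_iff.1 h3) ▸ h.h2)
  have hqF : ∀ x ∈ F, Eqv (N ／ (H \ {o₃})) (F ∪ G) o₃ x o₁ := by
    intro x hx
    refine Or.inr ((N ／ (H \ {o₃})).closure_subset_closure ?_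
      (cG.mem_closure_sdiff_singleton_of_mem (Or.inl rfl)))
    rintro w ⟨hw | hw, hw2⟩
    · exact absurd hw hw2
    · refine ⟨Or.inr hw, ?_⟩
      rintro (h3 | h3)
      · exact hFG x hx (h3 ▸ hw)
      · exact hFG o₁ o1F ((mem_singleton_iff.1 h3) ▸ hw)
  have hp : ∀ x ∈ F ∪ G, Eqv (N ／ (H \ {o₃})) (F ∪ G) o₃ x o₂ ↔ x ∈ G := by
    intro x hx
    refine ⟨fun h1 => ?_, hpG x⟩
    by_contra hxG
    have hxF := hx.resolve_right hxG
    exact hpq (h1.symm.trans hK' hx (hqF x hxF))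
  have h2c : ∀ x ∈ F ∪ G, Eqv (N ／ (H \ {o₃})) (F ∪ G) o₃ x o₂ ∨
      Eqv (N ／ (H \ {o₃})) (F ∪ G) o₃ x o₁ := fun x hx => hx.elim (fun h1 => Or.inr (hqF x h1))
    (fun h1 => Or.inl (hpG x h1))
  -- the exit
  have zpq : ¬ Eqv (N ／ (H \ {o₃})) (F ∪ G) z o₂ o₁ := by
    rw [h.th.pair_eqv' h.h3 (Or.inr h.h2) (Or.inl o1F) hzH]
    rintro (h1 | h1)
    · exact hFG o₁ o1F (h1 ▸ h.h2)
    · exact h.notMem_cl (hz.nonloop ho fun h2 => h.zK (h2 ▸ h.th.F_sub h.h1)) sdiff_subset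
        (fun h2 => h2.2 (Or.inr (Or.inl rfl)))
        (fun h2 => h2.2 (Or.inl rfl)) (fun h2 => h2.2 (Or.inr (Or.inr rfl))) h1
  have zFo : ∀ x ∈ Fo, Eqv (N ／ (H \ {o₃})) (F ∪ G) z x o₁ := by
    intro x hx
    rw [h.th.pair_eqv h.h3 (hz.sub hx) o1F hzH]
    exact (hz.cls_X h.th h.zK (hz.sub hx) o1F).2 ⟨fun _ => ho, fun _ => hx⟩
  have zNo : ∀ x ∈ F ∪ G, x ∉ Fo → Eqv (N ／ (H \ {o₃})) (F ∪ G) z x o₂ := by
    intro x hx hxF
    rw [h.th.pair_eqv' h.h3 hx (Or.inr h.h2) hzH]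
    right
    refine N.closure_subset_closure ?_ (hz.c1.mem_closure_sdiff_singleton_of_mem (Or.inl rfl))
    rintro w ⟨hw | hw, hwz⟩
    · exact absurd hw hwz
    · refine ⟨h.th.F_sub (hz.sub hw), ?_⟩
      rintro (h3 | h3 | h3)
      · exact hxF (h3 ▸ hw)
      · exact hFG w (hz.sub hw) (h3 ▸ h.h2)
      · exact o3n (Or.inl ((mem_singleton_iff.1 h3) ▸ hz.sub hw))
  have zq : ∀ x ∈ F ∪ G, Eqv (N ／ (H \ {o₃})) (F ∪ G) z x o₁ ↔ x ∈ Fo := by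
    intro x hx
    refine ⟨fun h1 => ?_, zFo x⟩
    by_contra hxF
    exact zpq ((zNo x hx hxF).symm.trans hK' hx h1)
  have zp : ∀ x ∈ F ∪ G, Eqv (N ／ (H \ {o₃})) (F ∪ G) z x o₂ ↔ x ∉ Fo := by
    intro x hx
    refine ⟨fun h1 h2 => ?_, zNo x hx⟩
    exact zpq (h1.symm.trans hK' hx (zFo x h2))
  have z2c : ∀ x ∈ F ∪ G, Eqv (N ／ (H \ {o₃})) (F ∪ G) z x o₂ ∨
      Eqv (N ／ (H \ {o₃})) (F ∪ G) z x o₁ := by
    intro x hx
    by_cases hxF : x ∈ Fo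
    · exact Or.inr (zFo x hxF)
    · exact Or.inl (zNo x hx hxF)
  have c1 := h.cross2 hne ht hL zq zp hp
  have c2 := h.cross2 hne ht' hL' zq zp hp
  have hno : ∀ D ⊆ F ∪ G ∪ {z, o₃, t, t'}, (N ／ (H \ {o₃})).IsCircuit D → z ∈ D ∨ o₃ ∈ D →
      o₂ ∈ D → o₁ ∈ D → False := by
    intro D hD hc h1 h2 h3
    by_cases hzD : z ∈ D
    · refine h.p2.pair h.th h.h3 D ?_ hc hzD (Or.inl ⟨h3, h2⟩)
      intro w hw
      rcases hD hw with h4 | h4 | h4 | h4 | h4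
      · exact Or.inl (Or.inl h4)
      · exact Or.inr h4
      · exact Or.inl (Or.inr (Or.inl h4))
      · exact Or.inl (Or.inr (Or.inr (h4 ▸ ht)))
      · exact Or.inl (Or.inr (Or.inr ((mem_singleton_iff.1 h4) ▸ ht')))
    · refine h.p1.pair h.th h.h3 D ?_ hc h3 h2 (h1.resolve_left hzD)
      intro w hw
      rcases hD hw with h4 | h4 | h4 | h4 | h4
      · exact Or.inl h4
      · exact absurd (h4 ▸ hw) hzD
      · exact Or.inr (Or.inl h4)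
      · exact Or.inr (Or.inr (h4 ▸ ht))
      · exact Or.inr (Or.inr ((mem_singleton_iff.1 h4) ▸ ht'))
  obtain ⟨a, ha, haF⟩ := hne
  have hzt : ∀ s ∈ T, z ≠ s := fun s hs h1 => h.zT (h1 ▸ hs)
  have key := crossG2 hK' (h.pair_mem h.zc h.zK) hcl (h.pair_mem (h.Tc ht) (h.TK t ht))
    (h.pair_mem (h.Tc ht') (h.TK t' ht')) (nFG z h.zK) o3n (nFG t (h.TK t ht))
    (nFG t' (h.TK t' ht')) (nO z h.zK).symm (hzt t ht) (hzt t' ht') (nO t (h.TK t ht))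
    (nO t' (h.TK t' ht')) htt (C := a) (Or.inl ha) (Or.inr h.h2) (Or.inl o1F) h2c hpq z2c zpq
    (fun x hx h1 => (zp x hx).2 (hFo x ((hp x hx).1 h1))) (hqF a ha) (zNo a (Or.inl ha) haF)
    hno c1 c2
  have eF : ∀ s ∈ T, ∀ x ∈ F, Eqv (N ／ (H \ {o₃})) (F ∪ G) s x o₁ ↔ Eqv N K s x o₁ :=
    fun s hs x hx => h.th.pair_eqv h.h3 hx o1F fun h1 => h.TK s hs (h.th.H_sub h1)
  have eG : ∀ s ∈ T, ∀ x ∈ G, Eqv (N ／ (H \ {o₃})) (F ∪ G) s x o₂ ↔ Eqv N K s x o₂ := by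
    intro s hs x hx
    have := h.th.swap'.pair_eqv h.h3 hx h.h2 fun h1 => h.TK s hs (h.th.H_sub h1)
    rwa [union_comm G F] at this
  refine ⟨?_, ?_⟩
  · rcases key.1 with h1 | h1 | h1
    · left
      intro x hx h2
      exact (eG t' ht' x hx).1 (h1 x (Or.inr hx) (hpG x hx) ((eG t ht x hx).2 h2))
    · right; left
      intro x hx h2
      exact (eG t ht x hx).1 (h1 x (Or.inr hx) (hpG x hx) ((eG t' ht' x hx).2 h2))
    · right; right
      intro x hx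
      by_cases hxF : x ∈ Fo
      · rw [← eF t ht x hx, ← eF t' ht' x hx]
        exact h1 x (Or.inl hx) (zFo x hxF)
      · exact ⟨fun h2 => absurd (hL.a1 x hx h2) hxF, fun h2 => absurd (hL'.a1 x hx h2) hxF⟩
  · rcases key.2 with h1 | h1 | h1
    · left
      intro x hx h2
      exact (eF t' ht' x hx).1 (h1 x (Or.inl hx) (zFo x (hL.a1 x hx h2)) ((eF t ht x hx).2 h2))
    · right; left
      intro x hx h2
      exact (eF t ht x hx).1 (h1 x (Or.inl hx) (zFo x (hL'.a1 x hx h2)) ((eF t' ht' x hx).2 h2))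
    · right; right
      intro x hx
      rw [← eG t ht x hx, ← eG t' ht' x hx]
      exact h1 x (Or.inr hx) (hpG x hx)

/-- links of the same exit with the second place on the same leg -/
theorem linkSame (h : Tri N K F G H T o₁ o₂ o₃ z) (hz : ZCut N K z F Fo G H) (ho : o₁ ∈ Fo)
    (hne : ∃ a ∈ F, a ∉ Fo) (ht : t ∈ T) (hL : NearLk N K F G H Fo o₁ o₂ o₃ t)
    (ht' : t' ∈ T) (hL' : NearLk N K F G H Fo o₁ o₂ o₃ t') :
    ((∀ x ∈ G, Eqv N K t x o₂ → Eqv N K t' x o₂) ∨ (∀ x ∈ G, Eqv N K t' x o₂ → Eqv N K t x o₂) ∨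
      ∀ x ∈ F, (Eqv N K t x o₁ ↔ Eqv N K t' x o₁)) ∧
    ((∀ x ∈ F, Eqv N K t x o₁ → Eqv N K t' x o₁) ∨ (∀ x ∈ F, Eqv N K t' x o₁ → Eqv N K t x o₁) ∨
      ∀ x ∈ G, (Eqv N K t x o₂ ↔ Eqv N K t' x o₂)) :=
  h.linkPair hz ho hne ht (hL.cls h.h3) ht' (hL'.cls h.h3)

/-- links of the same exit with second places on different legs -/
theorem linkDiff (h : Tri N K F G H T o₁ o₂ o₃ z) (hz : ZCut N K z F Fo G H) (ho : o₁ ∈ Fo)
    (hne : ∃ a ∈ F, a ∉ Fo) (ht : t ∈ T) (hL : NearLk N K F G H Fo o₁ o₂ o₃ t)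
    (ht' : t' ∈ T) (hL' : NearLk N K F H G Fo o₁ o₃ o₂ t') :
    (∀ x ∈ F, Eqv N K t x o₁ → Eqv N K t' x o₁) ∨ (∀ x ∈ F, Eqv N K t' x o₁ → Eqv N K t x o₁) := by
  rcases (h.linkPair hz ho hne ht (hL.cls h.h3) ht' hL'.cls').2 with h1 | h1 | h1
  · exact Or.inl h1
  · exact Or.inr h1
  · exfalso
    obtain ⟨x, hx, hx2⟩ := hL.b1
    exact hx2 ((h1 x hx).2 (hL'.b3 x hx))

end Tri

end TST
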