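import Pool.Agent.TST.RowStar

/-!
# Thetas in a matroid (CLAIM A of T-star, [SE]; pure matroid part, helper64)

`K` is the union of three legs `F`, `G`, `H` (a theta: the union of two legs is a circuit, and `K`
without elements of two legs is independent) with the ends `o₁`, `o₂`, `o₃`.  The exit `z` is in the
closure of `K` and no circuit of `K + z` through `z` contains two ends.  Then `z` cuts one leg once
(or not at all): all circuits of `K + z` through `z` are known.
-/

set_option autoImplicit false

open Set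
open scoped Matroid

namespace TST

variable {α : Type*} {N : Matroid α} {K F G H : Set α} {z x y e o₁ o₂ o₃ : α}

/-- a theta with the legs `F`, `G`, `H` -/
structure Theta (N : Matroid α) (K F G H : Set α) : Prop where
  hK : K = F ∪ G ∪ H
  dFG : Disjoint F G
  dFH : Disjoint F H
  dGH : Disjoint G H
  cFG : N.IsCircuit (F ∪ G)
  cFH : N.IsCircuit (F ∪ H)
  cGH : N.IsCircuit (G ∪ H)
  iFG : ∀ x ∈ F, ∀ y ∈ G, N.Indep (K \ {x, y})
  iFH : ∀ x ∈ F, ∀ y ∈ H, N.Indep (K \ {x, y})
  iGH : ∀ x ∈ G, ∀ y ∈ H, N.Indep (K \ {x, y})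

/-- all circuits through the exit `z` which cuts the leg `X` into `X₁` (with the end) and the rest -/
structure ZCut (N : Matroid α) (K : Set α) (z : α) (X X₁ Y W : Set α) : Prop where
  sub : X₁ ⊆ X
  c1 : N.IsCircuit (insert z X₁)
  c2 : N.IsCircuit (insert z (X \ X₁ ∪ Y))
  c3 : N.IsCircuit (insert z (X \ X₁ ∪ W))
  all : ∀ C ⊆ insert z K, N.IsCircuit C → z ∈ C →
    C = insert z X₁ ∨ C = insert z (X \ X₁ ∪ Y) ∨ C = insert z (X \ X₁ ∪ W)

namespace Theta

/-- exchange of the last two legs -/
lemma swap (T : Theta N K F G H) : Theta N K F H G where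
  hK := by rw [T.hK]; ext e; simp only [mem_union]; tauto
  dFG := T.dFH
  dFH := T.dFG
  dGH := T.dGH.symm
  cFG := T.cFH
  cFH := T.cFG
  cGH := by rw [union_comm]; exact T.cGH
  iFG := T.iFH
  iFH := T.iFG
  iGH := fun x hx y hy => by rw [pair_comm]; exact T.iGH y hy x hx

/-- exchange of the first two legs -/
lemma swap' (T : Theta N K F G H) : Theta N K G F H where
  hK := by rw [T.hK]; ext e; simp only [mem_union]; tauto
  dFG := T.dFG.symm
  dFH := T.dGH
  dGH := T.dFH
  cFG := by rw [union_comm]; exact T.cFG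
  cFH := T.cGH
  cGH := T.cFH
  iFG := fun x hx y hy => by rw [pair_comm]; exact T.iFG y hy x hx
  iFH := T.iGH
  iGH := T.iFH

lemma F_sub (T : Theta N K F G H) : F ⊆ K := by
  rw [T.hK]; exact subset_union_left.trans subset_union_left

lemma G_sub (T : Theta N K F G H) : G ⊆ K := T.swap'.F_sub

lemma H_sub (T : Theta N K F G H) : H ⊆ K := T.swap.G_sub

lemma ground (T : Theta N K F G H) : K ⊆ N.E := by
  rw [T.hK]
  exact union_subset T.cFG.subset_ground (subset_union_right.trans T.cFH.subset_ground)

/-- an element of `G` is spanned by the rest of `G` and `H` -/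
lemma mem_cl (T : Theta N K F G H) {S : Set α} (hy : y ∈ G) (h : ∀ e ∈ G ∪ H, e ≠ y → e ∈ S) :
    y ∈ N.closure S := by
  refine N.closure_subset_closure ?_ (T.cGH.mem_closure_sdiff_singleton_of_mem (Or.inl hy))
  rintro e ⟨he, hne⟩
  exact h e he hne

/-- `z` is spanned without the element `y` of `G` -/
lemma cl_insert (T : Theta N K F G H) {S : Set α} (hy : y ∈ G) (hS : S ⊆ K)
    (h : ∀ e ∈ G ∪ H, e ≠ y → e ∈ S) {z : α} (hz : z ∈ N.closure (insert y S)) :
    z ∈ N.closure S := by
  refine N.closure_subset_closure_of_subset_closure ?_ hz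
  exact insert_subset (T.mem_cl hy h) (N.subset_closure _ (hS.trans T.ground))

/-- the basis `K - {x, y}` spans -/
lemma spans (T : Theta N K F G H) (hx : x ∈ F) (hy : y ∈ G) :
    N.closure K ⊆ N.closure (K \ {x, y}) := by
  have hxy : x ≠ y := fun h => T.dFG.ne_of_mem hx hy h
  refine N.closure_subset_closure_of_subset_closure fun e he => ?_
  have hS : K \ {x, y} ⊆ N.closure (K \ {x, y}) :=
    N.subset_closure _ (sdiff_subset.trans T.ground)
  by_cases hex : e = x
  · subst hex
    refine T.swap'.mem_cl (G := F) (H := H) (F := G) hx (fun f hf hne => ⟨?_, ?_⟩)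
    · rcases hf with h | h
      · exact T.F_sub h
      · exact T.H_sub h
    · rintro (h | h)
      · exact hne h
      · rcases hf with h1 | h1
        · exact T.dFG.ne_of_mem h1 hy h
        · exact T.dGH.ne_of_mem hy h1 h.symm
  · by_cases hey : e = y
    · subst hey
      refine T.mem_cl hy (fun f hf hne => ⟨?_, ?_⟩)
      · rcases hf with h | h
        · exact T.G_sub h
        · exact T.H_sub h
      · rintro (h | h)
        · rcases hf with h1 | h1
          · exact T.dFG.ne_of_mem hx h1 h.symm
          · exact T.dFH.ne_of_mem hx h1 h.symm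
        · exact hne h
    · exact hS ⟨he, by rintro (h | h); exacts [hex h, hey h]⟩

end Theta

/-- elements of a fundamental circuit -/
lemma mem_fund_iff {B : Set α} (hI : N.Indep B) (hz : z ∈ N.closure B) (hn : z ∉ B) (he : e ∈ B) :
    e ∈ N.fundCircuit z B ↔ z ∉ N.closure (B \ {e}) := by
  have hne : e ≠ z := fun h => hn (h ▸ he)
  constructor
  · intro h1 h2
    have hI' := hI.subset (sdiff_subset (s := B) (t := {e}))
    have h3 := hI'.fundCircuit_isCircuit h2 (fun h => hn h.1)
    have h4 := N.fundCircuit_subset_insert z (B \ {e})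
    have h5 := h3.eq_fundCircuit_of_subset hI (h4.trans (insert_subset_insert sdiff_subset))
    rw [← h5] at h1
    rcases h4 h1 with h | h
    · exact hne h
    · exact h.2 rfl
  · intro h
    by_contra h1
    have h2 := (hI.fundCircuit_isCircuit hz hn).mem_closure_sdiff_singleton_of_mem
      (N.mem_fundCircuit z B)
    refine h (N.closure_subset_closure ?_ h2)
    rintro f ⟨hf, hfz⟩
    refine ⟨(N.fundCircuit_subset_insert z B hf).resolve_left hfz, ?_⟩
    intro h3
    exact h1 (h3 ▸ hf)

/-- two circuits through `z` in `B + z`, `B` independent, are equal -/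
lemma circ_unique {B C C' : Set α} (hI : N.Indep B) (hC : N.IsCircuit C) (hC' : N.IsCircuit C')
    (h : C ⊆ insert z B) (h' : C' ⊆ insert z B) : C = C' :=
  (hC.eq_fundCircuit_of_subset hI h).trans (hC'.eq_fundCircuit_of_subset hI h').symm

end TST
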