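import Pool.Agent.TST.SubC
import Pool.Agent.TST.Theta

/-!
# Children of a theta (CLAIM A of T-star; pure matroid theory, helper33)

`Theta.sub_in`, `Theta.sub_out`: the inner system is a theta, the outer one a circuit.
`Theta.pair`: two legs, the third one is contracted up to its end.
-/

open Set
open scoped Matroid

namespace TST

variable {α : Type*} {N : Matroid α}

variable {K F G H Fo T : Set α} {c z x y g o₁ o₂ o₃ : α}

/-- Two elements of one leg are coparallel. -/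
lemma Theta.notMem_cl (h : Theta N K F G H) (hx : x ∈ F) (hy : y ∈ F) (hxy : x ≠ y) :
    x ∉ N.closure (K \ {x, y}) := by
  obtain rfl := h.hK
  intro hcl
  have hxE : x ∉ (F ∪ G ∪ H) \ {x, y} := fun h => h.2 (Or.inl rfl)
  obtain ⟨C, h1, h2, h3⟩ := N.exists_isCircuit_of_mem_closure hcl hxE
  have hyC : y ∉ C := by
    intro h4
    rcases h1 h4 with h5 | h5
    · exact hxy h5.symm
    · exact h5.2 (Or.inr rfl)
  have hCK : C ⊆ F ∪ G ∪ H := by
    intro w hw
    rcases h1 hw with h5 | h5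
    · exact h5 ▸ Or.inl (Or.inl hx)
    · exact h5.1
  have hG : G ⊆ C := by
    intro g hg
    by_contra hgC
    refine h2.not_indep ((h.iFG y hy g hg).subset ?_)
    intro w hw
    refine ⟨hCK hw, ?_⟩
    rintro (h5 | h5)
    · exact hyC (h5 ▸ hw)
    · exact hgC ((mem_singleton_iff.1 h5) ▸ hw)
  have hH : H ⊆ C := by
    intro g hg
    by_contra hgC
    refine h2.not_indep ((h.iFH y hy g hg).subset ?_)
    intro w hw
    refine ⟨hCK hw, ?_⟩
    rintro (h5 | h5)
    · exact hyC (h5 ▸ hw)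
    · exact hgC ((mem_singleton_iff.1 h5) ▸ hw)
  have h6 := h2.eq_of_superset_isCircuit h.cGH (union_subset hG hH)
  have h7 : x ∈ G ∪ H := h6 ▸ h3
  rcases h7 with h7 | h7
  · exact disjoint_left.1 h.dFG hx h7
  · exact disjoint_left.1 h.dFH hx h7

/-- Set identity of the contraction of a part of the first leg. -/
lemma sub_set {A : Set α} (hFo : Fo ⊆ F) (hc : c ∈ Fo) (hFA : Disjoint F A) :
    insert c (F \ Fo) ∪ A = (F ∪ A) \ (Fo \ {c}) := by
  ext w
  simp only [mem_union, mem_insert_iff, mem_sdiff, mem_singleton_iff, not_and, not_not]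
  constructor
  · rintro ((rfl | h1) | h1)
    · exact ⟨Or.inl (hFo hc), fun _ => rfl⟩
    · exact ⟨Or.inl h1.1, fun h2 => absurd h2 h1.2⟩
    · exact ⟨Or.inr h1, fun h2 => absurd h1 (disjoint_left.1 hFA (hFo h2))⟩
  · rintro ⟨h1 | h1, h2⟩
    · by_cases h3 : w ∈ Fo
      · exact Or.inl (Or.inl (h2 h3))
      · exact Or.inl (Or.inr ⟨h1, h3⟩)
    · exact Or.inr h1

/-- **[SUB-IN], theta**: the inner system is a theta. -/
theorem Theta.sub_in (h : Theta N K F G H) (hFo : Fo ⊆ F) (hc : c ∈ Fo) :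
    Theta (N ／ (Fo \ {c})) (insert c (K \ Fo)) (insert c (F \ Fo)) G H := by
  obtain rfl := h.hK
  have hcF := hFo hc
  have hDG : Disjoint (Fo \ {c}) G := h.dFG.mono_left (fun w hw => hFo hw.1)
  have hDH : Disjoint (Fo \ {c}) H := h.dFH.mono_left (fun w hw => hFo hw.1)
  have hins : insert c (F \ Fo) ⊆ F := insert_subset hcF sdiff_subset
  have hss : ∀ A : Set α, Fo \ {c} ⊂ F ∪ A := by
    intro A
    exact ⟨fun w hw => Or.inl (hFo hw.1), fun h1 => (h1 (Or.inl hcF)).2 rfl⟩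
  have hK : insert c (F \ Fo) ∪ G ∪ H = (F ∪ G ∪ H) \ (Fo \ {c}) := by
    have h1 := sub_set hFo hc (h.dFG.union_right h.dFH)
    rw [union_assoc, union_assoc]
    exact h1
  have hK' : insert c ((F ∪ G ∪ H) \ Fo) = insert c (F \ Fo) ∪ G ∪ H := by
    rw [hK]
    ext w
    simp only [mem_insert_iff, mem_sdiff, mem_singleton_iff, not_and, not_not]
    constructor
    · rintro (rfl | h1)
      · exact ⟨Or.inl (Or.inl hcF), fun _ => rfl⟩
      · exact ⟨h1.1, fun h2 => absurd h2 h1.2⟩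
    · rintro ⟨h1, h2⟩
      by_cases h3 : w ∈ Fo
      · exact Or.inl (h2 h3)
      · exact Or.inr ⟨h1, h3⟩
  have hI : (Fo \ {c}) ⊆ F ∪ G ∪ H := fun w hw => Or.inl (Or.inl (hFo hw.1))
  have hDI : N.Indep (Fo \ {c}) := h.cFG.ssubset_indep (hss G)
  have key : ∀ x y, N.Indep ((F ∪ G ∪ H) \ {x, y}) → x ∉ Fo \ {c} → y ∉ Fo \ {c} →
      (N ／ (Fo \ {c})).Indep ((insert c (F \ Fo) ∪ G ∪ H) \ {x, y}) := by
    intro x y h1 hx hy
    rw [hDI.contract_indep_iff, hK]
    refine ⟨?_, ?_⟩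
    · rw [disjoint_left]
      intro w hw hw'
      exact hw.1.2 hw'
    · convert h1 using 1
      ext w
      simp only [mem_union, mem_sdiff, mem_insert_iff, mem_singleton_iff, not_or]
      constructor
      · rintro (⟨⟨h2, h3⟩, h4⟩ | h2)
        · exact ⟨h2, h4⟩
        · refine ⟨Or.inl (Or.inl (hFo h2.1)), fun h3 => hx (h3 ▸ h2), fun h3 => hy (h3 ▸ h2)⟩
      · rintro ⟨h2, h3⟩
        by_cases h4 : w ∈ Fo ∧ ¬ w = c
        · exact Or.inr h4
        · exact Or.inl ⟨⟨h2, h4⟩, h3⟩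
  have hn : ∀ w ∈ insert c (F \ Fo), w ∉ Fo \ {c} := by
    rintro w (rfl | hw) h1
    · exact h1.2 rfl
    · exact hw.2 h1.1
  have hnG : ∀ w ∈ G, w ∉ Fo \ {c} := fun w hw h1 => disjoint_left.1 hDG h1 hw
  have hnH : ∀ w ∈ H, w ∉ Fo \ {c} := fun w hw h1 => disjoint_left.1 hDH h1 hw
  rw [hK']
  refine ⟨rfl, h.dFG.mono_left hins, h.dFH.mono_left hins, h.dGH, ?_, ?_, ?_, ?_, ?_, ?_⟩
  · rw [sub_set hFo hc h.dFG]
    exact h.cFG.contract_isCircuit (hss G)
  · rw [sub_set hFo hc h.dFH]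
    exact h.cFH.contract_isCircuit (hss H)
  · have hdep : (N ／ (Fo \ {c})).Dep (G ∪ H) := by
      refine ⟨fun h1 => h.cGH.not_indep h1.of_contract, ?_⟩
      rw [Matroid.contract_ground, subset_sdiff]
      exact ⟨h.cGH.subset_ground, (hDG.union_right hDH).symm⟩
    rw [Matroid.isCircuit_iff_dep_forall_sdiff_singleton_indep]
    refine ⟨hdep, ?_⟩
    rintro w (hw | hw)
    · refine (key c w (h.iFG c hcF w hw) (hn c (Or.inl rfl)) (hnG w hw)).subset ?_
      rintro v ⟨h1 | h1, h2⟩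
      · refine ⟨Or.inl (Or.inr h1), ?_⟩
        rintro (h3 | h3)
        · exact disjoint_left.1 h.dFG hcF (h3 ▸ h1)
        · exact h2 h3
      · refine ⟨Or.inr h1, ?_⟩
        rintro (h3 | h3)
        · exact disjoint_left.1 h.dFH hcF (h3 ▸ h1)
        · exact h2 h3
    · refine (key c w (h.iFH c hcF w hw) (hn c (Or.inl rfl)) (hnH w hw)).subset ?_
      rintro v ⟨h1 | h1, h2⟩
      · refine ⟨Or.inl (Or.inr h1), ?_⟩
        rintro (h3 | h3)
        · exact disjoint_left.1 h.dFG hcF (h3 ▸ h1)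
        · exact h2 h3
      · refine ⟨Or.inr h1, ?_⟩
        rintro (h3 | h3)
        · exact disjoint_left.1 h.dFH hcF (h3 ▸ h1)
        · exact h2 h3
  · intro x hx y hy
    exact key x y (h.iFG x (hins hx) y hy) (hn x hx) (hnG y hy)
  · intro x hx y hy
    exact key x y (h.iFH x (hins hx) y hy) (hn x hx) (hnH y hy)
  · intro x hx y hy
    exact key x y (h.iGH x hx y hy) (hnG x hx) (hnH y hy)

/-- Spanning sets after a contraction. -/
lemma con_spans {K K' D : Set α} (hK : K ⊆ K' ∪ D) {t : α} (ht : t ∈ N.closure K) (htD : t ∉ D) :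
    t ∈ (N ／ D).closure K' := by
  rw [Matroid.contract_closure_eq]
  exact ⟨N.closure_subset_closure hK ht, htD⟩

/-- Classes after a contraction. -/
lemma con_eqv {K K' D : Set α} (hK : K = K' ∪ D) (hKD : Disjoint K' D) (hx : x ∈ K') (hy : y ∈ K')
    {t : α} (ht : t ∉ D) : Eqv (N ／ D) K' t x y ↔ Eqv N K t x y := by
  have h1 : K' \ {x, y} ∪ D = K \ {x, y} := by
    rw [hK]
    ext w
    simp only [mem_union, mem_sdiff, mem_insert_iff, mem_singleton_iff, not_or]
    constructor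
    · rintro (h1 | h1)
      · exact ⟨Or.inl h1.1, h1.2⟩
      · exact ⟨Or.inr h1, fun h2 => disjoint_left.1 hKD hx (h2 ▸ h1),
          fun h2 => disjoint_left.1 hKD hy (h2 ▸ h1)⟩
    · rintro ⟨h1 | h1, h2⟩
      · exact Or.inl ⟨h1, h2⟩
      · exact Or.inr h1
  unfold Eqv
  rw [Matroid.contract_closure_eq, h1]
  constructor
  · rintro (h2 | h2)
    · exact Or.inl h2
    · exact Or.inr h2.1
  · rintro (h2 | h2)
    · exact Or.inl h2
    · exact Or.inr ⟨h2, ht⟩

/-! ### pairs of legs -/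

/-- **Pair of legs**: the third leg without `o₃` is contracted, the other two form a circuit. -/
theorem Theta.pair (h : Theta N K F G H) (ho : o₃ ∈ H) : (N ／ (H \ {o₃})).IsCircuit (F ∪ G) := by
  obtain rfl := h.hK
  have hDI : N.Indep (H \ {o₃}) := h.cFH.ssubset_indep
    ⟨fun w hw => Or.inr hw.1, fun h2 => (h2 (Or.inr ho)).2 rfl⟩
  have hdis : Disjoint (F ∪ G) (H \ {o₃}) := (h.dFH.union_left h.dGH).mono_right sdiff_subset
  have key : ∀ x ∈ F ∪ G, N.Indep ((F ∪ G ∪ H) \ {x, o₃}) →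
      (N ／ (H \ {o₃})).Indep ((F ∪ G) \ {x}) := by
    intro x hx h1
    rw [hDI.contract_indep_iff]
    refine ⟨hdis.mono_left sdiff_subset, h1.subset ?_⟩
    rintro w (h2 | h2)
    · refine ⟨Or.inl h2.1, ?_⟩
      rintro (h3 | h3)
      · exact h2.2 h3
      · exact disjoint_left.1 (h.dFH.union_left h.dGH) h2.1 ((mem_singleton_iff.1 h3) ▸ ho)
    · refine ⟨Or.inr h2.1, ?_⟩
      rintro (h3 | h3)
      · exact disjoint_left.1 (h.dFH.union_left h.dGH) hx (h3 ▸ h2.1)
      · exact h2.2 h3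
  rw [Matroid.isCircuit_iff_dep_forall_sdiff_singleton_indep]
  refine ⟨⟨fun h1 => h.cFG.not_indep h1.of_contract, ?_⟩, ?_⟩
  · rw [Matroid.contract_ground, subset_sdiff]
    exact ⟨h.cFG.subset_ground, hdis⟩
  · rintro x (hx | hx)
    · exact key x (Or.inl hx) (h.iFH x hx o₃ ho)
    · exact key x (Or.inr hx) (h.iGH x hx o₃ ho)

/-- In the pair of legs `o₃` is the chord which cuts at the branch node. -/
theorem Theta.pair_chord (h : Theta N K F G H) (ho : o₃ ∈ H) :
    (N ／ (H \ {o₃})).IsCircuit (insert o₃ F) := by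
  have h1 : insert o₃ F = (F ∪ H) \ (H \ {o₃}) := by
    ext w
    simp only [mem_union, mem_insert_iff, mem_sdiff, mem_singleton_iff, not_and, not_not]
    constructor
    · rintro (rfl | h1)
      · exact ⟨Or.inr ho, fun _ => rfl⟩
      · exact ⟨Or.inl h1, fun h2 => absurd h2 (disjoint_left.1 h.dFH h1)⟩
    · rintro ⟨h1 | h1, h2⟩
      · exact Or.inr h1
      · exact Or.inl (h2 h1)
  rw [h1]
  exact h.cFH.contract_isCircuit ⟨fun w hw => Or.inr hw.1, fun h2 => (h2 (Or.inr ho)).2 rfl⟩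

/-- (P2) in the pair of legs. -/
theorem P2.pair (h : Theta N K F G H) (hP : P2 N K T o₁ o₂ o₃ z) (ho : o₃ ∈ H) :
    P2 (N ／ (H \ {o₃})) (F ∪ G) (insert o₃ T) o₁ o₂ o₃ z := by
  obtain rfl := h.hK
  intro C hC hcir hz hends
  obtain ⟨C', h1, h2, h3⟩ := hcir.exists_subset_isCircuit_of_contract
  refine hP C' ?_ h1 (h2 hz) (hends.imp (fun h => ⟨h2 h.1, h2 h.2⟩)
    (fun h => h.imp (fun h => ⟨h2 h.1, h2 h.2⟩) (fun h => ⟨h2 h.1, h2 h.2⟩)))
  intro x hx
  rcases h3 hx with h4 | h4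
  · rcases hC h4 with (h5 | h5 | h5) | h5
    · exact Or.inl (Or.inl (Or.inl h5))
    · exact Or.inl (Or.inl (Or.inr (h5 ▸ ho)))
    · exact Or.inl (Or.inr h5)
    · exact Or.inr h5
  · exact Or.inl (Or.inl (Or.inr h4.1))

/-- (P1) in the pair of legs. -/
theorem P1.pair (h : Theta N K F G H) (hP : P1 N K T o₁ o₂ o₃) (ho : o₃ ∈ H) :
    P1 (N ／ (H \ {o₃})) (F ∪ G) (insert o₃ T) o₁ o₂ o₃ := by
  obtain rfl := h.hK
  intro C hC hcir ho1 ho2 ho3
  obtain ⟨C', h1, h2, h3⟩ := hcir.exists_subset_isCircuit_of_contract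
  refine hP C' ?_ h1 (h2 ho1) (h2 ho2) (h2 ho3)
  intro x hx
  rcases h3 hx with h4 | h4
  · rcases hC h4 with h5 | h5 | h5
    · exact Or.inl (Or.inl h5)
    · exact Or.inl (Or.inr (h5 ▸ ho))
    · exact Or.inr h5
  · exact Or.inl (Or.inr h4.1)

/-- Classes of two elements of one leg do not change in the pair of legs. -/
theorem Theta.pair_eqv (h : Theta N K F G H) (ho : o₃ ∈ H) (hx : x ∈ F) (hy : y ∈ F) {t : α}
    (ht : t ∉ H) : Eqv (N ／ (H \ {o₃})) (F ∪ G) t x y ↔ Eqv N K t x y := by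
  obtain rfl := h.hK
  have h1 : N.closure ((F ∪ G) \ {x, y} ∪ (H \ {o₃})) = N.closure ((F ∪ G ∪ H) \ {x, y}) := by
    refine subset_antisymm (N.closure_subset_closure ?_) ?_
    · rintro w (h1 | h1)
      · exact ⟨Or.inl h1.1, h1.2⟩
      · refine ⟨Or.inr h1.1, ?_⟩
        rintro (h2 | h2)
        · exact disjoint_left.1 h.dFH hx (h2 ▸ h1.1)
        · exact disjoint_left.1 h.dFH hy ((mem_singleton_iff.1 h2) ▸ h1.1)
    · refine N.closure_subset_closure_of_subset_closure ?_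
      have hsub : (F ∪ G) \ {x, y} ∪ (H \ {o₃}) ⊆ N.E := by
        rintro w (h1 | h1)
        · exact h.cFG.subset_ground h1.1
        · exact h.cGH.subset_ground (Or.inr h1.1)
      rintro w ⟨hw, hw2⟩
      by_cases hwo : w = o₃
      · rw [hwo]
        refine N.closure_subset_closure ?_ (h.cGH.mem_closure_sdiff_singleton_of_mem (Or.inr ho))
        rintro v ⟨hv | hv, hv2⟩
        · refine Or.inl ⟨Or.inr hv, ?_⟩
          rintro (h2 | h2)
          · exact disjoint_left.1 h.dFG hx (h2 ▸ hv)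
          · exact disjoint_left.1 h.dFG hy ((mem_singleton_iff.1 h2) ▸ hv)
        · exact Or.inr ⟨hv, hv2⟩
      · refine N.subset_closure _ hsub ?_
        rcases hw with hw | hw
        · exact Or.inl ⟨hw, hw2⟩
        · exact Or.inr ⟨hw, hwo⟩
  unfold Eqv
  rw [Matroid.contract_closure_eq, h1]
  constructor
  · rintro (h2 | h2)
    · exact Or.inl h2
    · exact Or.inr h2.1
  · rintro (h2 | h2)
    · exact Or.inl h2
    · exact Or.inr ⟨h2, fun h3 => ht h3.1⟩

/-- Classes of elements of the two legs in the pair. -/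
theorem Theta.pair_eqv' (h : Theta N K F G H) (ho : o₃ ∈ H) (hx : x ∈ F ∪ G) (hy : y ∈ F ∪ G)
    {t : α} (ht : t ∉ H) : Eqv (N ／ (H \ {o₃})) (F ∪ G) t x y ↔
      x = y ∨ t ∈ N.closure (K \ {x, y, o₃}) := by
  obtain rfl := h.hK
  have hd := h.dFH.union_left h.dGH
  have h1 : (F ∪ G) \ {x, y} ∪ (H \ {o₃}) = (F ∪ G ∪ H) \ {x, y, o₃} := by
    ext w
    simp only [mem_union, mem_sdiff, mem_insert_iff, mem_singleton_iff, not_or]
    constructor
    · rintro (h1 | h1)
      · exact ⟨Or.inl h1.1, h1.2.1, h1.2.2, fun h2 => disjoint_left.1 hd h1.1 (h2 ▸ ho)⟩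
      · exact ⟨Or.inr h1.1, fun h2 => disjoint_left.1 hd hx (h2 ▸ h1.1),
          fun h2 => disjoint_left.1 hd hy (h2 ▸ h1.1), h1.2⟩
    · rintro ⟨h1 | h1, h2, h3, h4⟩
      · exact Or.inl ⟨h1, h2, h3⟩
      · exact Or.inr ⟨h1, h4⟩
  unfold Eqv
  rw [Matroid.contract_closure_eq, h1]
  constructor
  · rintro (h2 | h2)
    · exact Or.inl h2
    · exact Or.inr h2.1
  · rintro (h2 | h2)
    · exact Or.inl h2
    · exact Or.inr ⟨h2, fun h3 => ht h3.1⟩

/-! ### the outer part -/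

/-- **[SUB-OUT]**: the outer part `Fo + c` is a circuit after contraction of everything else. -/
theorem Theta.sub_out (h : Theta N K F G H) (hFo : Fo ⊆ F) (hc : c ∈ F) (hg : g ∈ G) :
    (N ／ (K \ insert c Fo)).IsCircuit (insert c Fo) := by
  obtain rfl := h.hK
  have hins : insert c Fo ⊆ F := insert_subset hc hFo
  have hgF : g ∉ F := fun h1 => disjoint_left.1 h.dFG h1 hg
  set Q := (F ∪ G ∪ H) \ insert c Fo with hQ
  have hQE : Q ⊆ N.E := by
    rintro w ⟨(h1 | h1) | h1, -⟩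
    · exact h.cFG.subset_ground (Or.inl h1)
    · exact h.cFG.subset_ground (Or.inr h1)
    · exact h.cGH.subset_ground (Or.inr h1)
  have hQI : N.Indep (Q \ {g}) := by
    refine (h.iFG c hc g hg).subset ?_
    rintro w ⟨hw, hwg⟩
    refine ⟨hw.1, ?_⟩
    rintro (h1 | h1)
    · exact hw.2 (Or.inl h1)
    · exact hwg h1
  have hgQ : g ∈ Q := ⟨Or.inl (Or.inr hg), fun h1 => hgF (hins h1)⟩
  have hbas : N.IsBasis (Q \ {g}) Q := by
    refine hQI.isBasis_of_subset_of_subset_closure sdiff_subset ?_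
    intro w hw
    by_cases hwg : w = g
    · rw [hwg]
      refine N.closure_subset_closure ?_ (h.cGH.mem_closure_sdiff_singleton_of_mem (Or.inl hg))
      rintro v ⟨hv, hvg⟩
      have hvF : v ∉ F := by
        intro h1
        exact disjoint_left.1 (h.dFG.union_right h.dFH) h1 hv
      exact ⟨⟨by rw [union_assoc]; exact Or.inr hv, fun h1 => hvF (hins h1)⟩, hvg⟩
    · exact N.subset_closure _ (sdiff_subset.trans hQE) ⟨hw, hwg⟩
  rw [Matroid.isCircuit_iff_dep_forall_sdiff_singleton_indep]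
  refine ⟨⟨?_, ?_⟩, ?_⟩
  · intro h1
    refine h1.notMem_closure_sdiff_of_mem (Or.inl rfl : c ∈ insert c Fo) ?_
    rw [Matroid.contract_closure_eq]
    refine ⟨N.closure_subset_closure ?_ (h.cFG.mem_closure_sdiff_singleton_of_mem (Or.inl hc)),
      fun h2 => h2.2 (Or.inl rfl)⟩
    rintro w ⟨hw, hwc⟩
    by_cases hwF : w ∈ Fo
    · exact Or.inl ⟨Or.inr hwF, hwc⟩
    · exact Or.inr ⟨Or.inl hw, fun h2 => h2.elim hwc hwF⟩
  · rw [Matroid.contract_ground, subset_sdiff]
    exact ⟨hins.trans (subset_union_left.trans h.cFG.subset_ground), disjoint_sdiff_right⟩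
  · intro x hx
    rw [hbas.contract_indep_iff]
    refine ⟨(h.iFG x (hins hx) g hg).subset ?_, disjoint_sdiff_left.mono_right sdiff_subset⟩
    rintro w (⟨h1, h2⟩ | ⟨h1, h2⟩)
    · refine ⟨Or.inl (Or.inl (hins h1)), ?_⟩
      rintro (h3 | h3)
      · exact h2 h3
      · exact hgF (h3 ▸ hins h1)
    · refine ⟨h1.1, ?_⟩
      rintro (h3 | h3)
      · exact h1.2 (h3 ▸ hx)
      · exact h2 h3

/-- **[SUB-OUT]**: in the outer system `c` is parallel to `z`. -/
theorem Theta.sub_out_par (h : Theta N K F G H) (hFo : Fo ⊆ F) (hc : c ∈ F) (hcF : c ∉ Fo)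
    (ho : o₁ ∈ Fo) (hz : z ∉ K) (hz1 : N.IsCircuit (insert z Fo))
    (hz2 : N.IsCircuit (insert z (F \ Fo ∪ G))) :
    (N ／ (K \ insert c Fo)).IsCircuit {c, z} := by
  obtain hK := h.hK
  subst hK
  have hcz : c ≠ z := fun h1 => hz (Or.inl (Or.inl (h1 ▸ hc)))
  have hoF := hFo ho
  have hoc : o₁ ≠ c := fun h1 => hcF (h1 ▸ ho)
  set K := F ∪ G ∪ H with hK
  set Q := K \ insert c Fo with hQ
  have hKE : K ⊆ N.E := by
    rintro w ((h1 | h1) | h1)
    · exact h.cFG.subset_ground (Or.inl h1)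
    · exact h.cFG.subset_ground (Or.inr h1)
    · exact h.cGH.subset_ground (Or.inr h1)
  have hzE : z ∈ N.E := hz1.subset_ground (Or.inl rfl)
  have hzQ : z ∉ Q := fun h1 => hz h1.1
  have hcQ : c ∉ Q := fun h1 => h1.2 (Or.inl rfl)
  -- `z` is no loop
  have hzcl : z ∉ N.closure Q := by
    intro h1
    refine h.notMem_cl hoF hc hoc ?_
    have h2 : o₁ ∈ N.closure (insert z Fo \ {o₁}) :=
      hz1.mem_closure_sdiff_singleton_of_mem (Or.inr ho)
    refine N.closure_subset_closure_of_subset_closure ?_ h2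
    rintro w ⟨hw | hw, hwo⟩
    · rw [hw]
      refine N.closure_subset_closure ?_ h1
      rintro v ⟨hv, hv2⟩
      refine ⟨hv, ?_⟩
      rintro (h3 | h3)
      · exact hv2 (Or.inr (h3 ▸ ho))
      · exact hv2 (Or.inl h3)
    · refine N.mem_closure_of_mem' ⟨Or.inl (Or.inl (hFo hw)), ?_⟩ (hKE (Or.inl (Or.inl (hFo hw))))
      rintro (h3 | h3)
      · exact hwo h3
      · exact hcF (h3 ▸ hw)
  have hccl : c ∉ N.closure Q := by
    intro h1
    refine h.notMem_cl hc hoF hoc.symm (N.closure_subset_closure ?_ h1)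
    rintro w ⟨hw, hw2⟩
    refine ⟨hw, ?_⟩
    rintro (h3 | h3)
    · exact hw2 (Or.inl h3)
    · exact hw2 (Or.inr (h3 ▸ ho))
  have h1 : z ∈ N.closure (insert c Q) := by
    have h2 : z ∈ N.closure (insert z ((F \ Fo) ∪ G) \ {z}) :=
      hz2.mem_closure_sdiff_singleton_of_mem (Or.inl rfl)
    refine N.closure_subset_closure ?_ h2
    rintro w ⟨hw | hw, hwz⟩
    · exact absurd hw hwz
    · by_cases hwc : w = c
      · exact Or.inl hwc
      · refine Or.inr ⟨?_, ?_⟩
        · rcases hw with hw | hw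
          · exact Or.inl (Or.inl hw.1)
          · exact Or.inl (Or.inr hw)
        · rintro (h3 | h3)
          · exact hwc h3
          · rcases hw with hw | hw
            · exact hw.2 h3
            · exact disjoint_left.1 h.dFG (hFo h3) hw
  rw [Matroid.isCircuit_iff_dep_forall_sdiff_singleton_indep]
  have hnc : (N ／ Q).IsNonloop c := by
    rw [← Matroid.not_isLoop_iff (by exact ⟨hKE (Or.inl (Or.inl hc)), hcQ⟩),
      Matroid.contract_isLoop_iff_mem_closure]
    exact fun h2 => hccl h2.1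
  have hnz : (N ／ Q).IsNonloop z := by
    rw [← Matroid.not_isLoop_iff (by exact ⟨hzE, hzQ⟩), Matroid.contract_isLoop_iff_mem_closure]
    exact fun h2 => hzcl h2.1
  refine ⟨⟨?_, ?_⟩, ?_⟩
  · intro h2
    refine h2.notMem_closure_sdiff_of_mem (Or.inr rfl : z ∈ ({c, z} : Set α)) ?_
    rw [Matroid.contract_closure_eq]
    refine ⟨N.closure_subset_closure ?_ h1, hzQ⟩
    rintro w (hw | hw)
    · exact Or.inl ⟨Or.inl hw, fun h3 => hcz (hw ▸ h3)⟩
    · exact Or.inr hw
  · rintro w (hw | hw)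
    · exact hw ▸ hnc.mem_ground
    · exact (mem_singleton_iff.1 hw) ▸ hnz.mem_ground
  · rintro w (hw | hw)
    · refine hnz.indep.subset ?_
      rintro v ⟨hv | hv, hv2⟩
      · exact absurd (hv.trans hw.symm) hv2
      · exact hv
    · refine hnc.indep.subset ?_
      rintro v ⟨hv | hv, hv2⟩
      · exact hv
      · exact absurd ((mem_singleton_iff.1 hv).trans (mem_singleton_iff.1 hw).symm) hv2

/-- The outer part of a cut leg is cut off. -/
theorem ZCut.cutOff (h : Theta N K F G H) (hz : ZCut N K z F Fo G H) (hzK : z ∉ K) :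
    CutOff N K Fo z := by
  refine ⟨hz.sub.trans h.F_sub, hzK, hz.c1, ?_⟩
  intro c hc c' hc' _
  refine N.closure_subset_closure ?_ (hz.c2.mem_closure_sdiff_singleton_of_mem (Or.inl rfl))
  have key : ∀ v ∈ F \ Fo ∪ G, v ∈ K ∧ v ∉ Fo := by
    rintro v (hv | hv)
    · exact ⟨h.F_sub hv.1, hv.2⟩
    · exact ⟨h.G_sub hv, fun h1 => disjoint_left.1 h.dFG (hz.sub h1) hv⟩
  rintro w ⟨hw | hw, hwz⟩
  · exact absurd hw hwz
  · obtain ⟨h1, h2⟩ := key w hw
    refine ⟨h1, ?_⟩
    rintro (h3 | h3)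
    · exact h2 (h3 ▸ hc)
    · exact h2 ((mem_singleton_iff.1 h3) ▸ hc')

/-- The rest of a cut leg with one other leg is cut off as well. -/
theorem ZCut.cst_in (h : Theta N K F G H) (hz : ZCut N K z F Fo G H) {a b : α} (ha : a ∈ K \ Fo)
    (hb : b ∈ K \ Fo) : z ∈ N.closure (K \ {a, b}) := by
  refine N.closure_subset_closure ?_ (hz.c1.mem_closure_sdiff_singleton_of_mem (Or.inl rfl))
  rintro w ⟨hw | hw, hwz⟩
  · exact absurd hw hwz
  · refine ⟨h.F_sub (hz.sub hw), ?_⟩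
    rintro (h3 | h3)
    · exact ha.2 (h3 ▸ hw)
    · exact hb.2 ((mem_singleton_iff.1 h3) ▸ hw)

end TST
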