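import Pool.Agent.TST.PP2
import Pool.Agent.TST.ThetaSub

/-!
# [TREE]: circuits through all chords and all ends (CLAIM A of T-star; pure matroid theory)

One master lemma (helper78) for all facts of rows and stars.  `E₀` is a set with a basis of finite
complement `B`.  If `A` has fewer than `|B|` elements and the only dual flat which contains `A` and
meets `P` is `E₀`, then `N` has a circuit in `E₀ \ A` which contains `P`.  For a circuit (a theta)
`K` with chords `Z` the dual flats are governed by the rules `axis` and `mem`.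
-/

set_option autoImplicit false

open Set
open scoped Matroid

namespace TST

variable {α : Type*} {N : Matroid α} {K Z A P F G H T : Set α} {x y w s t z z' p q e : α}

/-- `F` is a flat of the dual of `N ↾ E₀` -/
def DFlat (N : Matroid α) (E₀ F : Set α) : Prop :=
  ∀ e ∈ E₀, e ∉ F → e ∈ N.closure (E₀ \ insert e F)

/-- a cocircuit through `e` which avoids the closure of an independent set -/
lemma exists_cocircuit_of_notMem {D : Matroid α} {J : Set α} (hJ : D.Indep J) (he : e ∈ D.E)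
    (hn : e ∉ D.closure J) : ∃ C, D.IsCocircuit C ∧ e ∈ C ∧ Disjoint (D.closure J) C := by
  have heJ : e ∉ J := fun h => hn (D.subset_closure J hJ.subset_ground h)
  have hI : D.Indep (insert e J) := (hJ.notMem_closure_iff_of_notMem heJ he).1 hn
  obtain ⟨B, hB, hIB⟩ := hI.exists_isBase_superset
  have heB : e ∈ B := hIB (mem_insert e J)
  have hJB : J ⊆ B \ {e} := fun v hv => ⟨hIB (Or.inr hv), fun h => heJ (h ▸ hv)⟩
  refine ⟨D.E \ D.closure (B \ {e}), hB.compl_closure_sdiff_singleton_isCocircuit heB,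
    ⟨he, hB.indep.notMem_closure_sdiff_of_mem heB⟩, ?_⟩
  rw [disjoint_left]
  intro v hv hv2
  exact hv2.2 (D.closure_subset_closure hJB hv)

/-- **[TREE], general form.** -/
theorem tree_master {E₀ B : Set α} (hE : E₀ ⊆ N.E) (hB : B ⊆ E₀) (hbas : N.IsBasis (E₀ \ B) E₀)
    (hA : A ⊆ E₀) (hAf : A.Finite) (hc : A.ncard < B.ncard) (hP : P ⊆ E₀)
    (hne : P.Nonempty)
    (hfl : ∀ F ⊆ E₀, A ⊆ F → DFlat N E₀ F → (F ∩ P).Nonempty → F = E₀) :
    ∃ C ⊆ E₀, N.IsCircuit C ∧ P ⊆ C ∧ Disjoint A C := by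
  set D : Matroid α := (N ↾ E₀)✶ with hD
  have hDE : D.E = E₀ := rfl
  have hDB : D.IsBase B := by
    rw [hD, Matroid.dual_isBase_iff (show B ⊆ (N ↾ E₀).E from hB)]
    exact (Matroid.isBase_restrict_iff hE).2 hbas
  have hDc : ∀ C, D.IsCocircuit C → N.IsCircuit C := by
    intro C hC
    have h7 : D✶ = N ↾ E₀ := Matroid.dual_dual _
    rw [Matroid.isCocircuit_def, h7, Matroid.restrict_isCircuit_iff hE] at hC
    exact hC.1
  have hfl' : ∀ J, D.Indep J → A ⊆ D.closure J → ∀ r ∈ P, r ∈ D.closure J →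
      D.closure J = E₀ := by
    intro J hJ hAJ r hr hrJ
    refine hfl _ (D.closure_subset_ground J) hAJ ?_ ⟨r, hrJ, hr⟩
    intro v hv hvn
    obtain ⟨C, hC, hvC, hdis⟩ := exists_cocircuit_of_notMem hJ (hDE ▸ hv) hvn
    have h1 := (hDc C hC).mem_closure_sdiff_singleton_of_mem hvC
    refine N.closure_subset_closure ?_ h1
    rintro a ⟨ha, hav⟩
    refine ⟨hDE ▸ hC.subset_ground ha, ?_⟩
    rintro (h2 | h2)
    · exact hav h2
    · exact disjoint_left.1 hdis h2 ha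
  obtain ⟨J, hJ⟩ := D.exists_isBasis A (hDE.symm ▸ hA)
  have hJA : J ⊆ A := hJ.subset
  have hJf : J.Finite := hAf.subset hJA
  have hJc : J.ncard < B.ncard := (ncard_le_ncard hJA hAf).trans_lt hc
  have hAJ : A ⊆ D.closure J := hJ.subset_closure
  have hno : ∀ r ∈ P, r ∉ D.closure J := by
    intro r hr hrJ
    have h1 := hfl' J hJ.indep hAJ r hr hrJ
    have h2 : D.IsBase J := hJ.indep.isBase_of_ground_subset_closure (by rw [h1, hDE])
    have h3 := h2.ncard_eq_ncard_of_isBase hDB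
    omega
  obtain ⟨r, hr⟩ := hne
  have hrJ : r ∉ J := fun h => hno r hr (D.subset_closure J hJ.indep.subset_ground h)
  have hI : D.Indep (insert r J) :=
    (hJ.indep.notMem_closure_iff_of_notMem hrJ (hDE ▸ hP hr)).1 (hno r hr)
  have h1 := hfl' (insert r J) hI
    (hAJ.trans (D.closure_subset_closure (subset_insert r J))) r hr
    (D.subset_closure _ hI.subset_ground (mem_insert r J))
  have h2 : D.IsBase (insert r J) := hI.isBase_of_ground_subset_closure (by rw [h1, hDE])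
  have h3 := h2.compl_closure_sdiff_singleton_isCocircuit (mem_insert r J)
  have h4 : insert r J \ {r} = J := by
    ext v
    simp only [mem_sdiff, mem_insert_iff, mem_singleton_iff]
    constructor
    · rintro ⟨h | h, h'⟩
      · exact absurd h h'
      · exact h
    · intro h
      exact ⟨Or.inr h, fun h' => hrJ (h' ▸ h)⟩
  rw [h4] at h3
  refine ⟨D.E \ D.closure J, sdiff_subset, hDc _ h3, ?_, ?_⟩
  · intro v hv
    exact ⟨hDE ▸ hP hv, hno v hv⟩
  · rw [disjoint_left]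
    intro v hv hv2
    exact hv2.2 (hAJ hv)

/-! ### Rules -/

/-- the general rule -/
lemma DFlat.step (h : DFlat N (K ∪ Z) F) (hKE : K ⊆ N.E) {X₀ : Set α} (hX : X₀ ⊆ F)
    (he : e ∈ K ∪ Z) (hn : e ∉ N.closure (K \ insert e X₀))
    (ht : ∀ t ∈ Z, t ≠ e → t ∉ F → t ∈ N.closure (K \ insert e X₀)) : e ∈ F := by
  by_contra hcon
  have h1 := h e he hcon
  refine hn (N.closure_subset_closure_of_subset_closure ?_ h1)
  rintro v ⟨hv | hv, hvn⟩
  · refine N.subset_closure _ (sdiff_subset.trans hKE) ⟨hv, ?_⟩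
    rintro (h2 | h2)
    · exact hvn (Or.inl h2)
    · exact hvn (Or.inr (hX h2))
  · exact ht v hv (fun h2 => hvn (Or.inl h2)) (fun h2 => hvn (Or.inr h2))

/-- the rules for a circuit -/
structure StepC (N : Matroid α) (K Z F : Set α) : Prop where
  axis : ∀ x ∈ K, x ∈ F → ∀ y ∈ K, y ∈ F → ∀ s ∈ Z, ¬ Eqv N K s x y →
    (∀ t ∈ Z, t = s ∨ t ∈ F ∨ Eqv N K t x y) → s ∈ F
  mem : ∀ x ∈ K, x ∈ F → ∀ y ∈ K, (∀ t ∈ Z, t ∈ F ∨ Eqv N K t x y) → y ∈ F

lemma DFlat.stepC (h : DFlat N (K ∪ Z) F) (H : Chart N K Z) : StepC N K Z F := by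
  have hKE : K ⊆ N.E := H.cir.subset_ground
  refine ⟨?_, ?_⟩
  · intro x hx hxF y hy hyF s hs hd ht
    have hsK : s ∉ K := fun h1 => disjoint_left.1 H.dis h1 hs
    have h2 : K \ insert s {x, y} = K \ {x, y} := by
      ext v
      simp only [mem_sdiff, mem_insert_iff, mem_singleton_iff, not_or]
      exact ⟨fun h3 => ⟨h3.1, h3.2.2⟩, fun h3 => ⟨h3.1, fun h4 => hsK (h4 ▸ h3.1), h3.2⟩⟩
    refine h.step (X₀ := {x, y}) hKE ?_ (Or.inr hs) ?_ ?_
    · rintro v (rfl | rfl)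
      exacts [hxF, hyF]
    · rw [h2]
      exact fun h3 => hd (Or.inr h3)
    · intro t htZ hts htF
      rw [h2]
      rcases ht t htZ with h3 | h3 | h3 | h3
      · exact absurd h3 hts
      · exact absurd h3 htF
      · exact absurd (Or.inl h3) hd
      · exact h3
  · intro x hx hxF y hy ht
    by_cases hxy : x = y
    · exact hxy ▸ hxF
    refine h.step (X₀ := {x}) hKE (singleton_subset_iff.2 hxF) (Or.inl hy) ?_ ?_
    · have h2 : K \ insert y {x} = (K \ {x}) \ {y} := by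
        ext v
        simp only [mem_sdiff, mem_insert_iff, mem_singleton_iff, not_or]
        tauto
      rw [h2]
      exact (H.cir.sdiff_singleton_indep hx).notMem_closure_sdiff_of_mem
        ⟨hy, fun h3 => hxy h3.symm⟩
    · intro t htZ _ htF
      rcases ht t htZ with h3 | h3 | h3
      · exact absurd h3 htF
      · exact absurd h3 hxy
      · rwa [pair_comm] at h3

/-- **[TREE] for a circuit.** -/
theorem Chart.tree (H : Chart N K Z) (hZ : Z.Finite) (hA : A ⊆ K) (hAn : A.Nonempty)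
    (hAf : A.Finite) (hc : A.ncard ≤ Z.ncard) (hP : P ⊆ K ∪ Z) (hne : P.Nonempty)
    (hfl : ∀ F : Set α, A ⊆ F → StepC N K Z F → (F ∩ P).Nonempty → Z ⊆ F) :
    ∃ C ⊆ K ∪ Z, N.IsCircuit C ∧ P ⊆ C ∧ Disjoint A C := by
  obtain ⟨a, ha⟩ := hAn
  have haZ : a ∉ Z := disjoint_left.1 H.dis (hA ha)
  have hB := H.base (hA ha)
  have hBs : insert a Z ⊆ K ∪ Z := insert_subset (Or.inl (hA ha)) subset_union_right
  refine tree_master (B := insert a Z) H.sub hBs ?_ (hA.trans subset_union_left) hAf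
    ?_ hP hne ?_
  · unfold dk at hB
    rw [Matroid.dual_isBase_iff (show insert a Z ⊆ (N ↾ (K ∪ Z)).E from hBs)] at hB
    exact (Matroid.isBase_restrict_iff H.sub).1 hB
  · rw [ncard_insert_of_notMem haZ hZ]
    omega
  · intro F hF hAF hfl2 hmeet
    have h1 := hfl2.stepC H
    have h2 := hfl F hAF h1 hmeet
    refine subset_antisymm hF ?_
    rintro v (hv | hv)
    · exact h1.mem a (hA ha) (hAF ha) v hv (fun t ht => Or.inl (h2 ht))
    · exact h2 hv

/-- **[TREE] for one exit.** -/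
theorem PP.tree (hPP : PP N K T p q z) (H : Chart N K Z) (hZ : Z.Finite) (hzZ : z ∈ Z)
    (hZT : Z ⊆ T ∪ {z}) (hA : A ⊆ K) (hAn : A.Nonempty) (hAf : A.Finite) (hc : A.ncard ≤ Z.ncard)
    (hp : p ∈ K) (hq : q ∈ K)
    (hfl : ∀ F : Set α, A ⊆ F → StepC N K Z F → (z ∈ F ∨ p ∈ F ∨ q ∈ F) → Z ⊆ F) : False := by
  have hP : ({z, p, q} : Set α) ⊆ K ∪ Z := by
    rintro v (rfl | rfl | rfl)
    exacts [Or.inr hzZ, Or.inl hp, Or.inl hq]
  have hF : ∀ F : Set α, A ⊆ F → StepC N K Z F → (F ∩ {z, p, q}).Nonempty → Z ⊆ F := by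
    rintro F hAF hst ⟨v, hv, rfl | rfl | rfl⟩
    · exact hfl F hAF hst (Or.inl hv)
    · exact hfl F hAF hst (Or.inr (Or.inl hv))
    · exact hfl F hAF hst (Or.inr (Or.inr hv))
  obtain ⟨C, hC, hcir, hPC, -⟩ := H.tree hZ hA hAn hAf hc hP ⟨z, Or.inl rfl⟩ hF
  refine hPP C ?_ hcir (hPC (Or.inl rfl)) (hPC (Or.inr (Or.inl rfl)))
    (hPC (Or.inr (Or.inr rfl)))
  intro v hv
  rcases hC hv with h1 | h1
  · exact Or.inl (Or.inl h1)
  · rcases hZT h1 with h2 | h2
    · exact Or.inl (Or.inr h2)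
    · exact Or.inr h2

/-- **[TREE] for two exits.** -/
theorem PP2.tree (hPP : PP2 N K T p q z z') (H : Chart N K Z) (hZ : Z.Finite) (hzZ : z ∈ Z)
    (hzZ' : z' ∈ Z) (hZT : Z ⊆ T ∪ {z, z'}) (hA : A ⊆ K) (hAn : A.Nonempty) (hAf : A.Finite)
    (hc : A.ncard ≤ Z.ncard) (hp : p ∈ K) (hq : q ∈ K)
    (hfl : ∀ F : Set α, A ⊆ F → StepC N K Z F → (z ∈ F ∨ z' ∈ F ∨ p ∈ F ∨ q ∈ F) → Z ⊆ F) :
    False := by
  have hP : ({z, z', p, q} : Set α) ⊆ K ∪ Z := by
    rintro v (rfl | rfl | rfl | rfl)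
    exacts [Or.inr hzZ, Or.inr hzZ', Or.inl hp, Or.inl hq]
  have hF : ∀ F : Set α, A ⊆ F → StepC N K Z F → (F ∩ {z, z', p, q}).Nonempty → Z ⊆ F := by
    rintro F hAF hst ⟨v, hv, rfl | rfl | rfl | rfl⟩
    · exact hfl F hAF hst (Or.inl hv)
    · exact hfl F hAF hst (Or.inr (Or.inl hv))
    · exact hfl F hAF hst (Or.inr (Or.inr (Or.inl hv)))
    · exact hfl F hAF hst (Or.inr (Or.inr (Or.inr hv)))
  obtain ⟨C, hC, hcir, hPC, -⟩ := H.tree hZ hA hAn hAf hc hP ⟨z, Or.inl rfl⟩ hF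
  refine hPP C ?_ hcir (hPC (Or.inl rfl)) (hPC (Or.inr (Or.inl rfl)))
    (hPC (Or.inr (Or.inr (Or.inl rfl)))) (hPC (Or.inr (Or.inr (Or.inr rfl))))
  intro v hv
  rcases hC hv with h1 | h1
  · exact Or.inl (Or.inl h1)
  · rcases hZT h1 with h2 | h2
    · exact Or.inl (Or.inr h2)
    · exact Or.inr h2

/-! ### The list form -/

/-- the chords which separate `x` and `y` -/
def DSet (N : Matroid α) (K Z : Set α) (x y : α) : Set α := {t | t ∈ Z ∧ ¬ Eqv N K t x y}

/-- **[TREE], list form**: `n + 1` chords, `a 0, .., a n` in `K`; exactly one chord separates `p` and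
`a 0` (`a n` and `q`), exactly two chords separate `a k` and `a (k + 1)`; the graph of the chords and
of `p`, `q` is connected.  Then there is a circuit through all chords and `p`, `q`. -/
theorem Chart.tree_list (H : Chart N K Z) {n : ℕ} (hn : Z.ncard = n + 1) (a : ℕ → α)
    (ha : ∀ k ≤ n, a k ∈ K) (hp : p ∈ K) (hq : q ∈ K) (h0 : (DSet N K Z p (a 0)).ncard = 1)
    (h1 : ∀ k < n, (DSet N K Z (a k) (a (k + 1))).ncard = 2)
    (h2 : (DSet N K Z (a n) q).ncard = 1)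
    (hcon : ∀ F : Set α, (F ∩ (Z ∪ {p, q})).Nonempty →
      ((insert p (DSet N K Z p (a 0)) ∩ F).Nonempty → insert p (DSet N K Z p (a 0)) ⊆ F) →
      (∀ k < n, (DSet N K Z (a k) (a (k + 1)) ∩ F).Nonempty →
        DSet N K Z (a k) (a (k + 1)) ⊆ F) →
      ((insert q (DSet N K Z (a n) q) ∩ F).Nonempty → insert q (DSet N K Z (a n) q) ⊆ F) →
      Z ⊆ F) :
    ∃ C ⊆ K ∪ Z, N.IsCircuit C ∧ Z ∪ {p, q} ⊆ C := by
  have hZ : Z.Finite := finite_of_ncard_pos (by omega)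
  set A : Set α := a '' (Finset.range (n + 1) : Set ℕ) with hAdef
  have haA : ∀ k ≤ n, a k ∈ A := fun k hk => ⟨k, by simpa [Nat.lt_succ_iff] using hk, rfl⟩
  have hAK : A ⊆ K := by
    rintro v ⟨k, hk, rfl⟩
    exact ha k (by simpa [Nat.lt_succ_iff] using hk)
  have hAc : A.ncard ≤ n + 1 := by
    have h3 := ncard_image_le (f := a) (Finset.range (n + 1)).finite_toSet
    rwa [ncard_coe_finset, Finset.card_range] at h3
  have one : ∀ x ∈ K, ∀ y ∈ K, ∀ F : Set α, StepC N K Z F → x ∈ F →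
      (DSet N K Z x y).ncard = 1 → (insert y (DSet N K Z x y) ∩ F).Nonempty →
      insert y (DSet N K Z x y) ⊆ F := by
    intro x hx y hy F hF hxF hc hm
    obtain ⟨d, hd⟩ := ncard_eq_one.1 hc
    have hdm : d ∈ DSet N K Z x y := hd ▸ mem_singleton d
    have hothers : ∀ t ∈ Z, t = d ∨ Eqv N K t x y := by
      intro t ht
      by_contra hcon2
      push Not at hcon2
      have h4 : t ∈ DSet N K Z x y := ⟨ht, hcon2.2⟩
      rw [hd] at h4
      exact hcon2.1 h4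
    have hyd : y ∈ F ∨ d ∈ F := by
      obtain ⟨v, hv | hv, hvF⟩ := hm
      · exact Or.inl (hv ▸ hvF)
      · rw [hd] at hv
        exact Or.inr (hv ▸ hvF)
    have hboth : y ∈ F ∧ d ∈ F := by
      rcases hyd with h4 | h4
      · refine ⟨h4, hF.axis x hx hxF y hy h4 d hdm.1 hdm.2 ?_⟩
        intro t ht
        rcases hothers t ht with h5 | h5
        · exact Or.inl h5
        · exact Or.inr (Or.inr h5)
      · refine ⟨hF.mem x hx hxF y hy ?_, h4⟩
        intro t ht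
        rcases hothers t ht with h5 | h5
        · exact Or.inl (h5 ▸ h4)
        · exact Or.inr h5
    rintro v (hv | hv)
    · exact hv ▸ hboth.1
    · rw [hd] at hv
      exact hv ▸ hboth.2
  have swapD : ∀ x y, DSet N K Z x y = DSet N K Z y x := by
    intro x y
    ext t
    constructor
    · rintro ⟨h3, h4⟩
      exact ⟨h3, fun h5 => h4 h5.symm⟩
    · rintro ⟨h3, h4⟩
      exact ⟨h3, fun h5 => h4 h5.symm⟩
  have hP : Z ∪ {p, q} ⊆ K ∪ Z := by
    rintro v (hv | rfl | rfl)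
    exacts [Or.inr hv, Or.inl hp, Or.inl hq]
  have hF : ∀ F : Set α, A ⊆ F → StepC N K Z F → (F ∩ (Z ∪ {p, q})).Nonempty → Z ⊆ F := by
    intro F hAF hst hmeet
    refine hcon F hmeet ?_ ?_ ?_
    · rw [swapD]
      intro hm
      exact one (a 0) (ha 0 (by omega)) p hp F hst (hAF (haA 0 (by omega)))
        (by rw [swapD]; exact h0) hm
    · intro k hk hm
      obtain ⟨u, v, huv, he⟩ := ncard_eq_two.1 (h1 k hk)
      have hu : u ∈ DSet N K Z (a k) (a (k + 1)) := he ▸ Or.inl rfl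
      have hv : v ∈ DSet N K Z (a k) (a (k + 1)) := he ▸ Or.inr rfl
      have hothers : ∀ t ∈ Z, t = u ∨ t = v ∨ Eqv N K t (a k) (a (k + 1)) := by
        intro t ht
        by_contra hcon2
        push Not at hcon2
        have h4 : t ∈ DSet N K Z (a k) (a (k + 1)) := ⟨ht, hcon2.2.2⟩
        rw [he] at h4
        rcases h4 with h4 | h4
        · exact hcon2.1 h4
        · exact hcon2.2.1 h4
      have hk1 := ha k hk.le
      have hk2 := ha (k + 1) hk
      have hk3 := hAF (haA k hk.le)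
      have hk4 := hAF (haA (k + 1) hk)
      have huvF : u ∈ F ∨ v ∈ F := by
        obtain ⟨r, hr, hrF⟩ := hm
        rw [he] at hr
        rcases hr with hr | hr
        · exact Or.inl (hr ▸ hrF)
        · exact Or.inr (hr ▸ hrF)
      have hboth : u ∈ F ∧ v ∈ F := by
        rcases huvF with h4 | h4
        · refine ⟨h4, hst.axis _ hk1 hk3 _ hk2 hk4 v hv.1 hv.2 ?_⟩
          intro t ht
          rcases hothers t ht with h5 | h5 | h5
          · exact Or.inr (Or.inl (h5 ▸ h4))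
          · exact Or.inl h5
          · exact Or.inr (Or.inr h5)
        · refine ⟨hst.axis _ hk1 hk3 _ hk2 hk4 u hu.1 hu.2 ?_, h4⟩
          intro t ht
          rcases hothers t ht with h5 | h5 | h5
          · exact Or.inl h5
          · exact Or.inr (Or.inl (h5 ▸ h4))
          · exact Or.inr (Or.inr h5)
      rw [he]
      rintro r (hr | hr)
      · exact hr ▸ hboth.1
      · exact hr ▸ hboth.2
    · intro hm
      exact one (a n) (ha n le_rfl) q hq F hst (hAF (haA n le_rfl)) h2 hm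
  obtain ⟨C, hC, hcir, hPC, -⟩ := H.tree hZ hAK ⟨a 0, haA 0 (by omega)⟩
    ((Finset.range (n + 1)).finite_toSet.image a) (by omega) hP ⟨p, Or.inr (Or.inl rfl)⟩ hF
  exact ⟨C, hC, hcir, hPC⟩

/-! ### The theta form -/

/-- the rules for a theta with the legs `F`, `G`, `H`; `R` is the flat -/
structure StepT (N : Matroid α) (K F G H Z R : Set α) : Prop where
  axis : ∀ X ⊆ K, X ⊆ R → ∀ s ∈ Z, s ∉ N.closure (K \ X) →
    (∀ t ∈ Z, t = s ∨ t ∈ R ∨ t ∈ N.closure (K \ X)) → s ∈ R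
  mem₁ : ∀ x ∈ F, x ∈ R → ∀ y ∈ F, (∀ t ∈ Z, t ∈ R ∨ t ∈ N.closure (K \ {x, y})) → y ∈ R
  mem₂ : ∀ x ∈ G, x ∈ R → ∀ y ∈ G, (∀ t ∈ Z, t ∈ R ∨ t ∈ N.closure (K \ {x, y})) → y ∈ R
  mem₃ : ∀ x ∈ H, x ∈ R → ∀ y ∈ H, (∀ t ∈ Z, t ∈ R ∨ t ∈ N.closure (K \ {x, y})) → y ∈ R
  tri₁ : ∀ x ∈ F, ∀ y ∈ G, y ∈ R → ∀ w ∈ H, w ∈ R →
    (∀ t ∈ Z, t ∈ R ∨ t ∈ N.closure (K \ {x, y, w})) → x ∈ R
  tri₂ : ∀ x ∈ F, x ∈ R → ∀ y ∈ G, ∀ w ∈ H, w ∈ R →
    (∀ t ∈ Z, t ∈ R ∨ t ∈ N.closure (K \ {x, y, w})) → y ∈ R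
  tri₃ : ∀ x ∈ F, x ∈ R → ∀ y ∈ G, y ∈ R → ∀ w ∈ H,
    (∀ t ∈ Z, t ∈ R ∨ t ∈ N.closure (K \ {x, y, w})) → w ∈ R

section

variable {R : Set α}

lemma DFlat.axisK (h : DFlat N (K ∪ Z) R) (hKE : K ⊆ N.E) (hdis : Disjoint K Z) {X : Set α}
    (hX : X ⊆ R) (hs : s ∈ Z) (hn : s ∉ N.closure (K \ X))
    (ht : ∀ t ∈ Z, t = s ∨ t ∈ R ∨ t ∈ N.closure (K \ X)) : s ∈ R := by
  have hsK : s ∉ K := fun h1 => disjoint_left.1 hdis h1 hs
  have h2 : K \ insert s X = K \ X := by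
    ext v
    simp only [mem_sdiff, mem_insert_iff, not_or]
    exact ⟨fun h3 => ⟨h3.1, h3.2.2⟩, fun h3 => ⟨h3.1, fun h4 => hsK (h4 ▸ h3.1), h3.2⟩⟩
  refine h.step (X₀ := X) hKE hX (Or.inr hs) (by rwa [h2]) ?_
  intro t htZ hts htF
  rw [h2]
  rcases ht t htZ with h3 | h3 | h3
  exacts [absurd h3 hts, absurd h3 htF, h3]

lemma DFlat.memK (h : DFlat N (K ∪ Z) R) (hKE : K ⊆ N.E) {X X' : Set α} (hX : X ⊆ R) (he : e ∈ K)
    (hXX : insert e X = X') (hn : e ∉ N.closure (K \ X'))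
    (ht : ∀ t ∈ Z, t ∈ R ∨ t ∈ N.closure (K \ X')) : e ∈ R := by
  subst hXX
  refine h.step (X₀ := X) hKE hX (Or.inl he) hn ?_
  intro t htZ _ htF
  exact (ht t htZ).resolve_left htF

lemma tree_insert_rot : ({y, w, x} : Set α) = {x, y, w} := by
  ext v
  simp only [mem_insert_iff, mem_singleton_iff]
  tauto

lemma Theta.tri_notMem (T : Theta N K F G H) (hx : x ∈ F) (hy : y ∈ G) (hw : w ∈ H) :
    w ∉ N.closure (K \ {x, y, w}) := by
  have h1 := T.iFG x hx y hy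
  have h2 : K \ {x, y, w} = (K \ {x, y}) \ {w} := by
    ext v
    simp only [mem_sdiff, mem_insert_iff, mem_singleton_iff, not_or]
    tauto
  rw [h2]
  refine h1.notMem_closure_sdiff_of_mem ⟨T.H_sub hw, ?_⟩
  rintro (h3 | h3)
  · exact T.dFH.ne_of_mem hx hw h3.symm
  · exact T.dGH.ne_of_mem hy hw h3.symm

lemma DFlat.stepT (h : DFlat N (K ∪ Z) R) (T : Theta N K F G H) (hdis : Disjoint K Z) :
    StepT N K F G H Z R := by
  have hKE := T.ground
  have two : ∀ {F G H : Set α}, Theta N K F G H → ∀ x ∈ F, x ∈ R → ∀ y ∈ F,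
      (∀ t ∈ Z, t ∈ R ∨ t ∈ N.closure (K \ {x, y})) → y ∈ R := by
    intro F G H T x hx hxR y hy ht
    by_cases hxy : x = y
    · exact hxy ▸ hxR
    · refine h.memK (X := {x}) hKE (singleton_subset_iff.2 hxR) (T.F_sub hy) (pair_comm y x) ?_ ht
      have h1 := T.notMem_cl hy hx (fun h2 => hxy h2.symm)
      rwa [pair_comm] at h1
  refine ⟨?_, two T, two T.swap', two T.swap.swap', ?_, ?_, ?_⟩
  · intro X _ hX s hs hn ht
    exact h.axisK hKE hdis hX hs hn ht
  · intro x hx y hy hyR w hw hwR ht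
    refine h.memK (X := {y, w}) hKE ?_ (T.F_sub hx) rfl ?_ ht
    · rintro v (rfl | rfl)
      exacts [hyR, hwR]
    · have h1 := T.swap.swap'.swap.swap'.tri_notMem hy hw hx
      rwa [tree_insert_rot] at h1
  · intro x hx hxR y hy w hw hwR ht
    refine h.memK (X := {x, w}) hKE ?_ (T.G_sub hy) (insert_comm y x {w}) ?_ ht
    · rintro v (rfl | rfl)
      exacts [hxR, hwR]
    · have h1 := T.swap.tri_notMem hx hw hy
      rwa [pair_comm w y] at h1
  · intro x hx hxR y hy hyR w hw ht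
    refine h.memK (X := {x, y}) hKE ?_ (T.H_sub hw) ?_ (T.tri_notMem hx hy hw) ht
    · rintro v (rfl | rfl)
      exacts [hxR, hyR]
    · ext v
      simp only [mem_insert_iff, mem_singleton_iff]
      tauto

/-- **[TREE] for a theta.** -/
theorem Theta.tree (T : Theta N K F G H) (hZc : Z ⊆ N.closure K) (hdis : Disjoint K Z)
    (hZ : Z.Finite) (hx : x ∈ F) (hy : y ∈ G) (hA : A ⊆ K) (hAf : A.Finite)
    (hc : A.ncard ≤ Z.ncard + 1) (hP : P ⊆ K ∪ Z) (hne : P.Nonempty)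
    (hfl : ∀ R : Set α, A ⊆ R → StepT N K F G H Z R → (R ∩ P).Nonempty → Z ⊆ R ∧
      ((∃ a ∈ F, ∃ b ∈ G, a ∈ R ∧ b ∈ R) ∨ (∃ a ∈ F, ∃ b ∈ H, a ∈ R ∧ b ∈ R) ∨
        (∃ a ∈ G, ∃ b ∈ H, a ∈ R ∧ b ∈ R))) :
    ∃ C ⊆ K ∪ Z, N.IsCircuit C ∧ P ⊆ C ∧ Disjoint A C := by
  have hE : K ∪ Z ⊆ N.E := union_subset T.ground (hZc.trans (N.closure_subset_ground K))
  have hxy : x ≠ y := fun h => T.dFG.ne_of_mem hx hy h
  have hxK := T.F_sub hx
  have hyK := T.G_sub hy
  have hxZ : x ∉ Z := disjoint_left.1 hdis hxK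
  have hyZ : y ∉ Z := disjoint_left.1 hdis hyK
  have hBs : insert x (insert y Z) ⊆ K ∪ Z :=
    insert_subset (Or.inl hxK) (insert_subset (Or.inl hyK) subset_union_right)
  refine tree_master (B := insert x (insert y Z)) hE hBs ?_ (hA.trans subset_union_left) hAf
    ?_ hP hne ?_
  · have h2 : (K ∪ Z) \ insert x (insert y Z) = K \ {x, y} := by
      ext v
      simp only [mem_sdiff, mem_union, mem_insert_iff, mem_singleton_iff, not_or]
      constructor
      · rintro ⟨h3 | h3, h4, h5, h6⟩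
        · exact ⟨h3, h4, h5⟩
        · exact absurd h3 h6
      · rintro ⟨h3, h4, h5⟩
        exact ⟨Or.inl h3, h4, h5, fun h6 => disjoint_left.1 hdis h3 h6⟩
    rw [h2]
    refine (T.iFG x hx y hy).isBasis_of_subset_of_subset_closure
      (sdiff_subset.trans subset_union_left) ?_
    exact (union_subset (N.subset_closure K T.ground) hZc).trans (T.spans hx hy)
  · rw [ncard_insert_of_notMem _ (hZ.insert y), ncard_insert_of_notMem hyZ hZ]
    · omega
    · rintro (h2 | h2)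
      exacts [hxy h2, hxZ h2]
  · intro R hR hAR hRfl hmeet
    have h1 := hRfl.stepT T hdis
    obtain ⟨h2, h3⟩ := hfl R hAR h1 hmeet
    refine subset_antisymm hR ?_
    have hall : (∃ a ∈ F, a ∈ R) ∧ (∃ a ∈ G, a ∈ R) ∧ (∃ a ∈ H, a ∈ R) := by
      rcases h3 with ⟨a, ha, b, hb, haR, hbR⟩ | ⟨a, ha, b, hb, haR, hbR⟩ | ⟨a, ha, b, hb, haR, hbR⟩
      · refine ⟨⟨a, ha, haR⟩, ⟨b, hb, hbR⟩, ?_⟩
        by_contra hcon
        push Not at hcon
        have hH : H.Nonempty := by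
          by_contra hH
          rw [not_nonempty_iff_eq_empty] at hH
          have h4 := T.cFH
          have h5 := T.cFG
          rw [hH, union_empty] at h4
          have h6 : F = F ∪ G := h4.eq_of_subset_isCircuit h5 subset_union_left
          exact T.dFG.ne_of_mem (h6 ▸ Or.inr hb) hb rfl
        obtain ⟨w, hw⟩ := hH
        exact hcon w hw (h1.tri₃ a ha haR b hb hbR w hw (fun t ht => Or.inl (h2 ht)))
      · refine ⟨⟨a, ha, haR⟩, ⟨y, hy, ?_⟩, ⟨b, hb, hbR⟩⟩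
        exact h1.tri₂ a ha haR y hy b hb hbR (fun t ht => Or.inl (h2 ht))
      · refine ⟨⟨x, hx, ?_⟩, ⟨a, ha, haR⟩, ⟨b, hb, hbR⟩⟩
        exact h1.tri₁ x hx a ha haR b hb hbR (fun t ht => Or.inl (h2 ht))
    obtain ⟨⟨a, ha, haR⟩, ⟨b, hb, hbR⟩, ⟨c, hc', hcR⟩⟩ := hall
    rintro v (hv | hv)
    · rw [T.hK] at hv
      rcases hv with (hv | hv) | hv
      · exact h1.mem₁ a ha haR v hv (fun t ht => Or.inl (h2 ht))
      · exact h1.mem₂ b hb hbR v hv (fun t ht => Or.inl (h2 ht))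
      · exact h1.mem₃ c hc' hcR v hv (fun t ht => Or.inl (h2 ht))
    · exact h2 hv

end

end TST
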