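import Pool.Agent.TST.StarNode
import Pool.Agent.TST.Tree

/-!
# Zigzags in a star are impossible (CLAIM A of T-star, STAR SPLIT; helper64)

Pure part: sets `A` for `Theta.tree` (helper75) against `P2` of the exit `z`.
-/

set_option autoImplicit false

open Set
open scoped Matroid

namespace TST

variable {α : Type*} {N : Matroid α} {K F G H T Z A R : Set α}
  {z x y t u d s s' a₁ a₂ a₃ b f g o₁ o₂ o₃ : α}

namespace StepT

/-- one chord separates -/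
lemma one (st : StepT N K F G H Z R) (hx : x ∈ K) (hxR : x ∈ R) (hy : y ∈ K) (hyR : y ∈ R)
    (hs : s ∈ Z) (h1 : ¬ Eqv N K s x y) (h2 : ∀ t ∈ Z, t ≠ s → t ∈ R ∨ Eqv N K t x y) : s ∈ R := by
  have hxy : x ≠ y := fun h => h1 (Or.inl h)
  refine st.axis {x, y} (by rintro v (rfl | rfl) <;> assumption)
    (by rintro v (rfl | rfl) <;> assumption) s hs (fun h => h1 (Or.inr h)) ?_
  intro t ht
  by_cases hts : t = s
  · exact Or.inl hts
  · rcases h2 t ht hts with h3 | h3 | h3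
    · exact Or.inr (Or.inl h3)
    · exact absurd h3 hxy
    · exact Or.inr (Or.inr h3)

/-- two chords separate -/
lemma two (st : StepT N K F G H Z R) (hx : x ∈ K) (hxR : x ∈ R) (hy : y ∈ K) (hyR : y ∈ R)
    (hs' : s' ∈ R) (hs : s ∈ Z) (h1 : ¬ Eqv N K s x y)
    (h2 : ∀ t ∈ Z, t ≠ s → t ≠ s' → Eqv N K t x y) : s ∈ R := by
  refine st.one hx hxR hy hyR hs h1 fun t ht hts => ?_
  by_cases h3 : t = s'
  · exact Or.inl (h3 ▸ hs')
  · exact Or.inr (h2 t ht hts h3)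

end StepT

namespace Tri

/-- [TREE] against P2 -/
theorem treeP2 (h : Tri N K F G H T o₁ o₂ o₃ z) (hZ : Z ⊆ insert z T) (hz : z ∈ Z)
    (hZf : Z.Finite) (hA : A ⊆ K) (hAf : A.Finite) (hc : A.ncard ≤ Z.ncard + 1)
    (hAF : ∃ a ∈ F, a ∈ A) (hAG : ∃ a ∈ G, a ∈ A)
    (hfl : ∀ R : Set α, A ⊆ R → StepT N K F G H Z R → (z ∈ R ∨ o₁ ∈ R ∨ o₂ ∈ R) → Z ⊆ R) :
    False := by
  obtain ⟨a, haF, haA⟩ := hAF
  obtain ⟨c, hcG, hcA⟩ := hAG
  have hZc : Z ⊆ N.closure K := by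
    intro t ht
    rcases hZ ht with h1 | h1
    · exact h1 ▸ h.zc
    · exact h.Tc h1
  have hdis : Disjoint K Z := by
    rw [disjoint_left]
    intro t ht ht'
    rcases hZ ht' with h1 | h1
    · exact h.zK (h1 ▸ ht)
    · exact h.TK t h1 ht
  obtain ⟨C, hC, hcir, hPC, -⟩ := h.th.tree (P := {z, o₁, o₂}) hZc hdis hZf haF hcG hA hAf hc (by
    rintro v (rfl | rfl | rfl)
    · exact Or.inr hz
    · exact Or.inl (h.th.F_sub h.h1)
    · exact Or.inl (h.th.G_sub h.h2)) ⟨z, Or.inl rfl⟩ (by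
    rintro R hAR hst ⟨v, hv, hvP⟩
    refine ⟨hfl R hAR hst ?_, Or.inl ⟨a, haF, c, hcG, hAR haA, hAR hcA⟩⟩
    rcases hvP with rfl | rfl | rfl
    · exact Or.inl hv
    · exact Or.inr (Or.inl hv)
    · exact Or.inr (Or.inr hv))
  refine h.p2 C ?_ hcir (hPC (Or.inl rfl)) (Or.inl ⟨hPC (Or.inr (Or.inl rfl)),
    hPC (Or.inr (Or.inr rfl))⟩)
  intro v hv
  rcases hC hv with h1 | h1
  · exact Or.inl (Or.inl h1)
  · rcases hZ h1 with h2 | h2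
    · exact Or.inr h2
    · exact Or.inl (Or.inr h2)

/-- **Zigzag of `d` against the exit `z` and the near element `t`.**  The pairs `(x, y)`, `(x', y')`
are the two changes. -/
theorem zig3 (h : Tri N K F G H T o₁ o₂ o₃ z) (ht : t ∈ T) (hd : d ∈ T) {x' y' : α}
    (ha₁ : a₁ ∈ F) (ha₂ : a₂ ∈ F) (ha₃ : a₃ ∈ F) (hg : g ∈ G)
    (hx : x ∈ ({a₁, a₂, a₃} : Set α)) (hy : y ∈ ({a₁, a₂, a₃} : Set α))
    (hx' : x' ∈ ({a₁, a₂, a₃} : Set α)) (hy' : y' ∈ ({a₁, a₂, a₃} : Set α))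
    (e1 : Eqv N K z o₁ a₁ ∧ Eqv N K t o₁ a₁ ∧ ¬ Eqv N K d o₁ a₁)
    (e2 : Eqv N K z x y ∧ ¬ Eqv N K t x y ∧ ¬ Eqv N K d x y)
    (e3 : ¬ Eqv N K z x' y' ∧ Eqv N K t x' y' ∧ ¬ Eqv N K d x' y')
    (e4 : Eqv N K z o₂ g ∧ ¬ Eqv N K t o₂ g ∧ Eqv N K d o₂ g) : False := by
  have hzt : z ≠ t := fun h1 => h.zT (h1 ▸ ht)
  have hzd : z ≠ d := fun h1 => h.zT (h1 ▸ hd)
  have htd : t ≠ d := by
    rintro rfl
    exact e4.2.1 e4.2.2
  have hFK : ∀ v ∈ F, v ∈ K := fun v hv => h.th.F_sub hv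
  have hGK : ∀ v ∈ G, v ∈ K := fun v hv => h.th.G_sub hv
  have hAK : ∀ v ∈ ({a₁, a₂, a₃} : Set α), v ∈ K := by
    rintro v (rfl | rfl | rfl)
    exacts [hFK _ ha₁, hFK _ ha₂, hFK _ ha₃]
  have hAsub : ({a₁, a₂, a₃} : Set α) ⊆ {a₁, a₂, a₃, g} := by
    rintro v (rfl | rfl | rfl)
    exacts [Or.inl rfl, Or.inr (Or.inl rfl), Or.inr (Or.inr (Or.inl rfl))]
  have hZ3 : ({z, t, d} : Set α).ncard = 3 := by
    rw [ncard_eq_three]
    exact ⟨z, t, d, hzt, hzd, htd, rfl⟩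
  refine h.treeP2 (Z := {z, t, d}) (A := {a₁, a₂, a₃, g}) ?_ (Or.inl rfl) (by simp) ?_ (by simp) ?_
    ⟨a₁, ha₁, Or.inl rfl⟩ ⟨g, hg, Or.inr (Or.inr (Or.inr rfl))⟩ ?_
  · rintro v (rfl | rfl | rfl)
    exacts [Or.inl rfl, Or.inr ht, Or.inr hd]
  · rintro v (rfl | rfl | rfl | rfl)
    exacts [hFK _ ha₁, hFK _ ha₂, hFK _ ha₃, hGK _ hg]
  · rw [hZ3]
    classical
    have h1 := Finset.card_le_four (a := a₁) (b := a₂) (c := a₃) (d := g)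
    rw [← ncard_coe_finset] at h1
    push_cast at h1
    exact h1
  · intro R hAR st hP
    have mA : ∀ v ∈ ({a₁, a₂, a₃} : Set α), v ∈ R := fun v hv => hAR (hAsub hv)
    have mZ : ∀ v ∈ ({z, t, d} : Set α), v = z ∨ v = t ∨ v = d := fun v hv => hv
    -- two equivalences
    have td : t ∈ R → d ∈ R := fun hr => st.two (hAK x hx) (mA x hx) (hAK y hy) (mA y hy) hr
      (Or.inr (Or.inr rfl)) e2.2.2 (by
        rintro v (rfl | rfl | rfl) h1 h2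
        exacts [e2.1, absurd rfl h2, absurd rfl h1])
    have dt : d ∈ R → t ∈ R := fun hr => st.two (hAK x hx) (mA x hx) (hAK y hy) (mA y hy) hr
      (Or.inr (Or.inl rfl)) e2.2.1 (by
        rintro v (rfl | rfl | rfl) h1 h2
        exacts [e2.1, absurd rfl h1, absurd rfl h2])
    have zd : z ∈ R → d ∈ R := fun hr => st.two (hAK x' hx') (mA x' hx') (hAK y' hy') (mA y' hy') hr
      (Or.inr (Or.inr rfl)) e3.2.2 (by
        rintro v (rfl | rfl | rfl) h1 h2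
        exacts [absurd rfl h2, e3.2.1, absurd rfl h1])
    have dz : d ∈ R → z ∈ R := fun hr => st.two (hAK x' hx') (mA x' hx') (hAK y' hy') (mA y' hy') hr
      (Or.inl rfl) e3.1 (by
        rintro v (rfl | rfl | rfl) h1 h2
        exacts [absurd rfl h1, e3.2.1, absurd rfl h2])
    have hdR : d ∈ R := by
      rcases hP with h1 | h1 | h1
      · exact zd h1
      · refine st.one (hFK _ h.h1) h1 (hFK _ ha₁) (hAR (Or.inl rfl)) (Or.inr (Or.inr rfl)) e1.2.2 ?_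
        rintro v (rfl | rfl | rfl) h2
        exacts [Or.inr e1.1, Or.inr e1.2.1, absurd rfl h2]
      · refine td (st.one (hGK _ h.h2) h1 (hGK _ hg) (hAR (Or.inr (Or.inr (Or.inr rfl))))
          (Or.inr (Or.inl rfl)) e4.2.1 ?_)
        rintro v (rfl | rfl | rfl) h2
        exacts [Or.inr e4.1, absurd rfl h2, Or.inr e4.2.2]
    rintro v (rfl | rfl | rfl)
    exacts [dz hdR, dt hdR, hdR]

/-- **Zigzag of `d` against the near links `t` and `u`, on the cut leg.** -/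
theorem zig4 (h : Tri N K F G H T o₁ o₂ o₃ z) (ht : t ∈ T) (hu : u ∈ T) (hd : d ∈ T)
    (ha₁ : a₁ ∈ F) (ha₂ : a₂ ∈ F) (ha₃ : a₃ ∈ F) (hb : b ∈ F) (hg : g ∈ G)
    (e1 : Eqv N K z o₁ a₁ ∧ Eqv N K t o₁ a₁ ∧ Eqv N K u o₁ a₁ ∧ ¬ Eqv N K d o₁ a₁)
    (e2 : Eqv N K z a₁ a₂ ∧ ¬ Eqv N K t a₁ a₂ ∧ Eqv N K u a₁ a₂ ∧ ¬ Eqv N K d a₁ a₂)
    (e3 : Eqv N K z a₂ a₃ ∧ Eqv N K t a₂ a₃ ∧ ¬ Eqv N K u a₂ a₃ ∧ ¬ Eqv N K d a₂ a₃)
    (e4 : ¬ Eqv N K z a₃ b ∧ Eqv N K t a₃ b ∧ Eqv N K u a₃ b ∧ ¬ Eqv N K d a₃ b)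
    (e5 : Eqv N K z o₂ g ∧ Eqv N K d o₂ g ∧ ((¬ Eqv N K t o₂ g ∧ Eqv N K u o₂ g) ∨
      (Eqv N K t o₂ g ∧ ¬ Eqv N K u o₂ g))) : False := by
  have hzt : z ≠ t := fun h1 => h.zT (h1 ▸ ht)
  have hzu : z ≠ u := fun h1 => h.zT (h1 ▸ hu)
  have hzd : z ≠ d := fun h1 => h.zT (h1 ▸ hd)
  have htu : t ≠ u := fun h1 => e2.2.1 (h1 ▸ e2.2.2.1)
  have htd : t ≠ d := by
    rintro rfl
    exact e1.2.2.2 e1.2.1
  have hud : u ≠ d := by
    rintro rfl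
    exact e1.2.2.2 e1.2.2.1
  have hFK : ∀ v ∈ F, v ∈ K := fun v hv => h.th.F_sub hv
  have hGK : ∀ v ∈ G, v ∈ K := fun v hv => h.th.G_sub hv
  have hZ4 : ({z, t, u, d} : Set α).ncard = 4 := by
    rw [ncard_insert_of_notMem ?_ (by simp), (ncard_eq_three).2 ⟨t, u, d, htu, htd, hud, rfl⟩]
    rintro (h1 | h1 | h1)
    exacts [hzt h1, hzu h1, hzd h1]
  refine h.treeP2 (Z := {z, t, u, d}) (A := {a₁, a₂, a₃, b, g}) ?_ (Or.inl rfl) (by simp) ?_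
    (by simp) ?_ ⟨a₁, ha₁, Or.inl rfl⟩ ⟨g, hg, Or.inr (Or.inr (Or.inr (Or.inr rfl)))⟩ ?_
  · rintro v (rfl | rfl | rfl | rfl)
    exacts [Or.inl rfl, Or.inr ht, Or.inr hu, Or.inr hd]
  · rintro v (rfl | rfl | rfl | rfl | rfl)
    exacts [hFK _ ha₁, hFK _ ha₂, hFK _ ha₃, hFK _ hb, hGK _ hg]
  · rw [hZ4]
    classical
    have h1 := Finset.card_le_five (a := a₁) (b := a₂) (c := a₃) (d := b) (e := g)
    rw [← ncard_coe_finset] at h1
    push_cast at h1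
    exact h1
  · intro R hAR st hP
    have r1 : a₁ ∈ R := hAR (Or.inl rfl)
    have r2 : a₂ ∈ R := hAR (Or.inr (Or.inl rfl))
    have r3 : a₃ ∈ R := hAR (Or.inr (Or.inr (Or.inl rfl)))
    have rb : b ∈ R := hAR (Or.inr (Or.inr (Or.inr (Or.inl rfl))))
    have rg : g ∈ R := hAR (Or.inr (Or.inr (Or.inr (Or.inr rfl))))
    have td : t ∈ R → d ∈ R := fun hr => st.two (hFK _ ha₁) r1 (hFK _ ha₂) r2 hr
      (Or.inr (Or.inr (Or.inr rfl))) e2.2.2.2 (by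
        rintro v (rfl | rfl | rfl | rfl) h1 h2
        exacts [e2.1, absurd rfl h2, e2.2.2.1, absurd rfl h1])
    have dt : d ∈ R → t ∈ R := fun hr => st.two (hFK _ ha₁) r1 (hFK _ ha₂) r2 hr
      (Or.inr (Or.inl rfl)) e2.2.1 (by
        rintro v (rfl | rfl | rfl | rfl) h1 h2
        exacts [e2.1, absurd rfl h1, e2.2.2.1, absurd rfl h2])
    have ud : u ∈ R → d ∈ R := fun hr => st.two (hFK _ ha₂) r2 (hFK _ ha₃) r3 hr
      (Or.inr (Or.inr (Or.inr rfl))) e3.2.2.2 (by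
        rintro v (rfl | rfl | rfl | rfl) h1 h2
        exacts [e3.1, e3.2.1, absurd rfl h2, absurd rfl h1])
    have du : d ∈ R → u ∈ R := fun hr => st.two (hFK _ ha₂) r2 (hFK _ ha₃) r3 hr
      (Or.inr (Or.inr (Or.inl rfl))) e3.2.2.1 (by
        rintro v (rfl | rfl | rfl | rfl) h1 h2
        exacts [e3.1, e3.2.1, absurd rfl h1, absurd rfl h2])
    have zd : z ∈ R → d ∈ R := fun hr => st.two (hFK _ ha₃) r3 (hFK _ hb) rb hr
      (Or.inr (Or.inr (Or.inr rfl))) e4.2.2.2 (by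
        rintro v (rfl | rfl | rfl | rfl) h1 h2
        exacts [absurd rfl h2, e4.2.1, e4.2.2.1, absurd rfl h1])
    have dz : d ∈ R → z ∈ R := fun hr => st.two (hFK _ ha₃) r3 (hFK _ hb) rb hr
      (Or.inl rfl) e4.1 (by
        rintro v (rfl | rfl | rfl | rfl) h1 h2
        exacts [absurd rfl h1, e4.2.1, e4.2.2.1, absurd rfl h2])
    have hdR : d ∈ R := by
      rcases hP with h1 | h1 | h1
      · exact zd h1
      · refine st.one (hFK _ h.h1) h1 (hFK _ ha₁) r1 (Or.inr (Or.inr (Or.inr rfl))) e1.2.2.2 ?_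
        rintro v (rfl | rfl | rfl | rfl) h2
        exacts [Or.inr e1.1, Or.inr e1.2.1, Or.inr e1.2.2.1, absurd rfl h2]
      · rcases e5.2.2 with ⟨e6, e7⟩ | ⟨e6, e7⟩
        · refine td (st.one (hGK _ h.h2) h1 (hGK _ hg) rg (Or.inr (Or.inl rfl)) e6 ?_)
          rintro v (rfl | rfl | rfl | rfl) h2
          exacts [Or.inr e5.1, absurd rfl h2, Or.inr e7, Or.inr e5.2.1]
        · refine ud (st.one (hGK _ h.h2) h1 (hGK _ hg) rg (Or.inr (Or.inr (Or.inl rfl))) e7 ?_)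
          rintro v (rfl | rfl | rfl | rfl) h2
          exacts [Or.inr e5.1, Or.inr e6, absurd rfl h2, Or.inr e5.2.1]
    rintro v (rfl | rfl | rfl | rfl)
    exacts [dz hdR, dt hdR, du hdR, hdR]

/-- **Zigzag of `d` against the near links `t` and `u`, on the other leg.**  `z` separates `f` and
`b`. -/
theorem zig5 (h : Tri N K F G H T o₁ o₂ o₃ z) (ht : t ∈ T) (hu : u ∈ T) (hd : d ∈ T)
    (ha₁ : a₁ ∈ F) (ha₂ : a₂ ∈ F) (ha₃ : a₃ ∈ F) (hf : f ∈ G) (hb : b ∈ G)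
    (e1 : Eqv N K z o₁ a₁ ∧ Eqv N K t o₁ a₁ ∧ Eqv N K u o₁ a₁ ∧ ¬ Eqv N K d o₁ a₁)
    (e2 : Eqv N K z a₁ a₂ ∧ ¬ Eqv N K t a₁ a₂ ∧ Eqv N K u a₁ a₂ ∧ ¬ Eqv N K d a₁ a₂)
    (e3 : Eqv N K z a₂ a₃ ∧ Eqv N K t a₂ a₃ ∧ ¬ Eqv N K u a₂ a₃ ∧ ¬ Eqv N K d a₂ a₃)
    (e4 : Eqv N K z o₂ f ∧ Eqv N K d o₂ f ∧ ¬ Eqv N K z f b ∧ Eqv N K d f b)
    (e5 : (¬ Eqv N K t o₂ f ∧ Eqv N K u o₂ f ∧ Eqv N K t f b ∧ ¬ Eqv N K u f b) ∨
      (Eqv N K t o₂ f ∧ ¬ Eqv N K u o₂ f ∧ ¬ Eqv N K t f b ∧ Eqv N K u f b)) : False := by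
  have hzt : z ≠ t := fun h1 => h.zT (h1 ▸ ht)
  have hzu : z ≠ u := fun h1 => h.zT (h1 ▸ hu)
  have hzd : z ≠ d := fun h1 => h.zT (h1 ▸ hd)
  have htu : t ≠ u := fun h1 => e2.2.1 (h1 ▸ e2.2.2.1)
  have htd : t ≠ d := by
    rintro rfl
    exact e1.2.2.2 e1.2.1
  have hud : u ≠ d := by
    rintro rfl
    exact e1.2.2.2 e1.2.2.1
  have hFK : ∀ v ∈ F, v ∈ K := fun v hv => h.th.F_sub hv
  have hGK : ∀ v ∈ G, v ∈ K := fun v hv => h.th.G_sub hv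
  have hZ4 : ({z, t, u, d} : Set α).ncard = 4 := by
    rw [ncard_insert_of_notMem ?_ (by simp), (ncard_eq_three).2 ⟨t, u, d, htu, htd, hud, rfl⟩]
    rintro (h1 | h1 | h1)
    exacts [hzt h1, hzu h1, hzd h1]
  refine h.treeP2 (Z := {z, t, u, d}) (A := {a₁, a₂, a₃, f, b}) ?_ (Or.inl rfl) (by simp) ?_
    (by simp) ?_ ⟨a₁, ha₁, Or.inl rfl⟩ ⟨f, hf, Or.inr (Or.inr (Or.inr (Or.inl rfl)))⟩ ?_
  · rintro v (rfl | rfl | rfl | rfl)
    exacts [Or.inl rfl, Or.inr ht, Or.inr hu, Or.inr hd]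
  · rintro v (rfl | rfl | rfl | rfl | rfl)
    exacts [hFK _ ha₁, hFK _ ha₂, hFK _ ha₃, hGK _ hf, hGK _ hb]
  · rw [hZ4]
    classical
    have h1 := Finset.card_le_five (a := a₁) (b := a₂) (c := a₃) (d := f) (e := b)
    rw [← ncard_coe_finset] at h1
    push_cast at h1
    exact h1
  · intro R hAR st hP
    have r1 : a₁ ∈ R := hAR (Or.inl rfl)
    have r2 : a₂ ∈ R := hAR (Or.inr (Or.inl rfl))
    have r3 : a₃ ∈ R := hAR (Or.inr (Or.inr (Or.inl rfl)))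
    have rf : f ∈ R := hAR (Or.inr (Or.inr (Or.inr (Or.inl rfl))))
    have rb : b ∈ R := hAR (Or.inr (Or.inr (Or.inr (Or.inr rfl))))
    have td : t ∈ R → d ∈ R := fun hr => st.two (hFK _ ha₁) r1 (hFK _ ha₂) r2 hr
      (Or.inr (Or.inr (Or.inr rfl))) e2.2.2.2 (by
        rintro v (rfl | rfl | rfl | rfl) h1 h2
        exacts [e2.1, absurd rfl h2, e2.2.2.1, absurd rfl h1])
    have dt : d ∈ R → t ∈ R := fun hr => st.two (hFK _ ha₁) r1 (hFK _ ha₂) r2 hr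
      (Or.inr (Or.inl rfl)) e2.2.1 (by
        rintro v (rfl | rfl | rfl | rfl) h1 h2
        exacts [e2.1, absurd rfl h1, e2.2.2.1, absurd rfl h2])
    have ud : u ∈ R → d ∈ R := fun hr => st.two (hFK _ ha₂) r2 (hFK _ ha₃) r3 hr
      (Or.inr (Or.inr (Or.inr rfl))) e3.2.2.2 (by
        rintro v (rfl | rfl | rfl | rfl) h1 h2
        exacts [e3.1, e3.2.1, absurd rfl h2, absurd rfl h1])
    have du : d ∈ R → u ∈ R := fun hr => st.two (hFK _ ha₂) r2 (hFK _ ha₃) r3 hr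
      (Or.inr (Or.inr (Or.inl rfl))) e3.2.2.1 (by
        rintro v (rfl | rfl | rfl | rfl) h1 h2
        exacts [e3.1, e3.2.1, absurd rfl h1, absurd rfl h2])
    have zb : z ∈ R → d ∈ R := by
      intro hr
      rcases e5 with ⟨-, -, e7, e8⟩ | ⟨-, -, e7, e8⟩
      · refine ud (st.two (hGK _ hf) rf (hGK _ hb) rb hr (Or.inr (Or.inr (Or.inl rfl))) e8 ?_)
        rintro v (rfl | rfl | rfl | rfl) h1 h2
        exacts [absurd rfl h2, e7, absurd rfl h1, e4.2.2.2]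
      · refine td (st.two (hGK _ hf) rf (hGK _ hb) rb hr (Or.inr (Or.inl rfl)) e7 ?_)
        rintro v (rfl | rfl | rfl | rfl) h1 h2
        exacts [absurd rfl h2, absurd rfl h1, e8, e4.2.2.2]
    have dz : d ∈ R → z ∈ R := by
      intro hr
      rcases e5 with ⟨-, -, e7, e8⟩ | ⟨-, -, e7, e8⟩
      · refine st.two (hGK _ hf) rf (hGK _ hb) rb (du hr) (Or.inl rfl) e4.2.2.1 ?_
        rintro v (rfl | rfl | rfl | rfl) h1 h2
        exacts [absurd rfl h1, e7, absurd rfl h2, e4.2.2.2]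
      · refine st.two (hGK _ hf) rf (hGK _ hb) rb (dt hr) (Or.inl rfl) e4.2.2.1 ?_
        rintro v (rfl | rfl | rfl | rfl) h1 h2
        exacts [absurd rfl h1, absurd rfl h2, e8, e4.2.2.2]
    have hdR : d ∈ R := by
      rcases hP with h1 | h1 | h1
      · exact zb h1
      · refine st.one (hFK _ h.h1) h1 (hFK _ ha₁) r1 (Or.inr (Or.inr (Or.inr rfl))) e1.2.2.2 ?_
        rintro v (rfl | rfl | rfl | rfl) h2
        exacts [Or.inr e1.1, Or.inr e1.2.1, Or.inr e1.2.2.1, absurd rfl h2]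
      · rcases e5 with ⟨e6, e7, -, -⟩ | ⟨e6, e7, -, -⟩
        · refine td (st.one (hGK _ h.h2) h1 (hGK _ hf) rf (Or.inr (Or.inl rfl)) e6 ?_)
          rintro v (rfl | rfl | rfl | rfl) h2
          exacts [Or.inr e4.1, absurd rfl h2, Or.inr e7, Or.inr e4.2.1]
        · refine ud (st.one (hGK _ h.h2) h1 (hGK _ hf) rf (Or.inr (Or.inr (Or.inl rfl))) e7 ?_)
          rintro v (rfl | rfl | rfl | rfl) h2
          exacts [Or.inr e4.1, Or.inr e6, absurd rfl h2, Or.inr e4.2.1]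
    rintro v (rfl | rfl | rfl | rfl)
    exacts [dz hdR, dt hdR, du hdR, hdR]

end Tri

end TST
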