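import Pool.Agent.TST.StarSys
import Pool.Agent.TST.StarCross
import Pool.Agent.TST.StarZig

/-!
# One step of the star split (CLAIM A of T-star, STAR SPLIT; helper64)

`TWit.facts : StarSysFacts` and `starStep : StarStepStmt`.
-/

set_option autoImplicit false

open Set
open scoped Matroid

namespace TST

variable {α : Type*} {N : Matroid α} {T T' : Set α} {z c d t t' w : α}
variable {X : Fin 3 → Set α} {o : Fin 3 → α} {i j k : Fin 3}
variable {E : α → α → α → Prop} {O A : α → Fin 3 → Set α} {B : α → α → α → α → Prop}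

lemma not_near (h : ∀ l, l ≠ i → ∀ x ∈ X l, x ∈ O t l) : ¬ NearT O X t := by
  rintro ⟨a, b, hab, ⟨x, hx, hx2⟩, y, hy, hy2⟩
  by_cases ha : a = i
  · exact hy2 (h b (fun hb => hab (ha.trans hb.symm)) y hy)
  · exact hx2 (h a ha x hx)

/-- the data of one witness -/
structure WD (E : α → α → α → Prop) (O A : α → Fin 3 → Set α) (B : α → α → α → α → Prop)
    (X : Fin 3 → Set α) (T : Set α) (z : α) (N : Matroid α) (o : Fin 3 → α) : Prop where
  hs : TSys N X o T z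
  hE : ∀ t ∈ insert z T, ∀ i, ∀ x ∈ X i, ∀ y ∈ X i, (Eqv N (TK X o) t x y ↔ E t x y)
  hO : ∀ t ∈ T, ∀ i, ∀ x ∈ X i, (Eqv N (TK X o) t (o i) x ↔ x ∈ O t i)
  hA : ∀ i, ∀ x ∈ X i, (Eqv N (TK X o) z (o i) x ↔ x ∈ A z i)
  hB : ∀ t ∈ T, ∀ x ∈ X 0, ∀ y ∈ X 1, ∀ w ∈ X 2, (t ∈ N.closure (TK X o \ {x, y, w}) ↔ B t x y w)

namespace WD

lemma tK (h : WD E O A B X T z N o) (ht : t ∈ T) : t ∉ TK X o := fun h1 =>
  disjoint_left.1 h.hs.dT ht h1

lemma hA' (h : WD E O A B X T z N o) {x : α} (hx : x ∈ X i) :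
    x ∈ outP X o i (A z i) ↔ x ∈ A z i := by
  constructor
  · rintro (h1 | h1)
    · exact absurd (h1 ▸ hx) (h.hs.oX i)
    · exact h1.2
  · exact fun h1 => Or.inr ⟨hx, h1⟩

/-- the class of the end, for elements of the leg -/
lemma hO' (h : WD E O A B X T z N o) (ht : t ∈ T) {x : α} (hx : x ∈ X i) :
    Eqv N (TK X o) t x (o i) ↔ x ∈ O t i :=
  ⟨fun h1 => (h.hO t ht i x hx).1 h1.symm, fun h1 => ((h.hO t ht i x hx).2 h1).symm⟩

lemma rel (h : WD E O A B X T z N o) (ht : t ∈ T) {x y : α} (hx : x ∈ X i) (hy : y ∈ X i)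
    (h1 : x ∈ O t i) : E t x y ↔ y ∈ O t i := by
  rw [← h.hE t (Or.inr ht) i x hx y hy, ← h.hO t ht i y hy]
  have h2 := (h.hO t ht i x hx).2 h1
  exact ⟨fun h3 => h.hs.trans (Or.inl rfl) (Or.inr hx) (Or.inr hy) h2 h3,
    fun h3 => h.hs.trans (Or.inr hx) (Or.inl rfl) (Or.inr hy) h2.symm h3⟩

lemma symm (h : WD E O A B X T z N o) (ht : t ∈ T) {x y : α} (hx : x ∈ X i) (hy : y ∈ X i)
    (h1 : E t x y) : E t y x := by
  rw [← h.hE t (Or.inr ht) i x hx y hy] at h1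
  exact (h.hE t (Or.inr ht) i y hy x hx).1 h1.symm

/-- the cut -/
lemma cut (h : WD E O A B X T z N o) (hcut : ∃ x ∈ X i, x ∉ A z i) (hij : i ≠ j) (hik : i ≠ k)
    (hjk : j ≠ k) :
    ZCut N (TK X o) z (leg X o i) (outP X o i (A z i)) (leg X o j) (leg X o k) :=
  (h.hs.zcut h.hA hcut hij hik hjk).2.1

lemma one (h : WD E O A B X T z N o) :
    (∀ i, ∀ x ∈ X i, ∀ y ∈ X i, (E z x y ↔ (x ∈ A z i ↔ y ∈ A z i))) ∧
      ∀ i j, i ≠ j → (∃ x ∈ X i, x ∉ A z i) → ∀ y ∈ X j, y ∈ A z j := by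
  constructor
  · intro i x hx y hy
    obtain ⟨j, k, hij, hik, hjk⟩ := fin3_ex i
    rw [← h.hE z (Or.inl rfl) i x hx y hy]
    by_cases hcut : ∃ x ∈ X i, x ∉ A z i
    · rw [(h.cut hcut hij hik hjk).cls_X (h.hs.tri hij hik hjk).th h.hs.zK (Or.inr hx) (Or.inr hy),
        h.hA' hx, h.hA' hy]
    · push Not at hcut
      have h1 := (h.hA i x hx).2 (hcut x hx)
      have h2 := (h.hA i y hy).2 (hcut y hy)
      exact ⟨fun _ => ⟨fun _ => hcut y hy, fun _ => hcut x hx⟩,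
        fun _ => h.hs.trans (Or.inr hx) (Or.inl rfl) (Or.inr hy) h1.symm h2⟩
  · intro i l hil hcut
    obtain ⟨j, k, hij, hik, hjk⟩ := fin3_ex i
    exact (h.hs.zcut h.hA hcut hij hik hjk).2.2 l hil.symm

/-- inner elements -/
lemma inner (h : WD E O A B X T z N o) (ht : t ∈ T) :
    (∀ x ∈ outP X o i (A z i), Eqv N (TK X o) t x (o i)) ↔
      ∀ x ∈ X i, x ∈ A z i → x ∈ O t i := by
  constructor
  · intro h1 x hx hxA
    exact (h.hO' ht hx).1 (h1 x (Or.inr ⟨hx, hxA⟩))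
  · rintro h1 x (hx | hx)
    · exact Or.inl hx
    · exact (h.hO' ht hx.1).2 (h1 x hx.1 hx.2)

/-- the three kinds of elements -/
lemma node (h : WD E O A B X T z N o) (ht : t ∈ T) (hcut : ∃ x ∈ X i, x ∉ A z i) (hij : i ≠ j)
    (hik : i ≠ k) (hjk : j ≠ k) : (∀ x ∈ X i, x ∈ A z i → x ∈ O t i) ∨
      (t ∈ N.closure (outP X o i (A z i)) ∧ ∀ l, l ≠ i → ∀ x ∈ X l, x ∈ O t l) ∨
      (t ∉ N.closure (outP X o i (A z i)) ∧
        (NearLk N (TK X o) (leg X o i) (leg X o j) (leg X o k) (outP X o i (A z i)) (o i) (o j)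
            (o k) t ∨
          NearLk N (TK X o) (leg X o i) (leg X o k) (leg X o j) (outP X o i (A z i)) (o i) (o k)
            (o j) t ∨
          ∀ l, l ≠ i → ∀ x ∈ X l, x ∈ O t l)) := by
  have hT := h.hs.tri hij hik hjk
  have hne : ∃ a ∈ leg X o i, a ∉ outP X o i (A z i) := by
    obtain ⟨x, hx, hx2⟩ := hcut
    exact ⟨x, Or.inr hx, fun h1 => hx2 ((h.hA' hx).1 h1)⟩
  rcases hT.node (h.cut hcut hij hik hjk) (Or.inl rfl) hne ht with h1 | h1 | ⟨h1, h2⟩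
  · exact Or.inl ((h.inner ht).1 h1)
  · refine Or.inr (Or.inl ⟨h1, ?_⟩)
    intro l hl x hx
    refine (h.hO t ht l x hx).1 ?_
    have hn : ∀ v ∈ leg X o l, v ∉ outP X o i (A z i) := fun v hv hv2 =>
      h.hs.dis hl hv (outP_sub hv2)
    exact eqv_of_cl (outP_sub.trans (leg_sub i)) h1 (hn _ (Or.inl rfl)) (hn _ (Or.inr hx))
  · refine Or.inr (Or.inr ⟨h1, ?_⟩)
    rcases h2 with h2 | h2 | ⟨h2, h3⟩
    · exact Or.inl h2
    · exact Or.inr (Or.inl h2)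
    · refine Or.inr (Or.inr ?_)
      intro l hl x hx
      rcases fin3 hij hik hjk l with rfl | rfl | rfl
      · exact absurd rfl hl
      · exact (h.hO' ht hx).1 (h2 x (Or.inr hx))
      · exact (h.hO' ht hx).1 (h3 x (Or.inr hx))

lemma exi (h : WD E O A B X T z N o) (ht : t ∈ T) (hn : NearT O X t) (i : Fin 3) :
    CmpOn (X i) (O t i) (A z i) := by
  obtain ⟨j, k, hij, hik, hjk⟩ := fin3_ex i
  by_cases hcut : ∃ x ∈ X i, x ∉ A z i
  · rcases h.node ht hcut hij hik hjk with h1 | h1 | ⟨-, h1 | h1 | h1⟩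
    · exact Or.inr fun x hx hxA => h1 x hx hxA
    · exact absurd hn (not_near h1.2)
    · exact Or.inl fun x hx hxO => (h.hA' hx).1 (h1.a1 x (Or.inr hx) ((h.hO' ht hx).2 hxO))
    · exact Or.inl fun x hx hxO => (h.hA' hx).1 (h1.a1 x (Or.inr hx) ((h.hO' ht hx).2 hxO))
    · exact absurd hn (not_near h1)
  · push Not at hcut
    exact Or.inl fun x hx _ => hcut x hx

lemma tri (h : WD E O A B X T z N o) (ht : t ∈ T) {x x' y y' w w' : α} (hx : x ∈ X 0)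
    (hx' : x' ∈ X 0) (hy : y ∈ X 1) (hy' : y' ∈ X 1) (hw : w ∈ X 2) (hw' : w' ∈ X 2)
    (e1 : E t x x') (e2 : E t y y') (e3 : E t w w') (hB : B t x y w) : B t x' y' w' := by
  have htK := h.tK ht
  have th := h.hs.th
  rw [← h.hE t (Or.inr ht) 0 x hx x' hx'] at e1
  rw [← h.hE t (Or.inr ht) 1 y hy y' hy'] at e2
  rw [← h.hE t (Or.inr ht) 2 w hw w' hw'] at e3
  rw [← h.hB t ht x hx y hy w hw] at hB
  rw [← h.hB t ht x' hx' y' hy' w' hw']
  have h1 := th.move (w := w) (Or.inr hx) (Or.inr hx') (Or.inr hy) htK hB e1.symm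
  rw [insert_comm] at h1
  have h2 := th.swap'.move (w := w) (Or.inr hy) (Or.inr hy') (Or.inr hx') htK h1 e2.symm
  have e4 : ({y', x', w} : Set α) = {w, x', y'} := by
    ext v; simp only [mem_insert_iff, mem_singleton_iff]; tauto
  rw [e4] at h2
  have h3 := th.swap.swap'.move (w := y') (Or.inr hw) (Or.inr hw') (Or.inr hx') htK h2 e3.symm
  have e5 : ({w', x', y'} : Set α) = {x', y', w'} := by
    ext v; simp only [mem_insert_iff, mem_singleton_iff]; tauto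
  rwa [e5] at h3

/-! ### zigzags -/

lemma sep (h : WD E O A B X T z N o) (ht : t ∈ T) {x y : α} (hx : x ∈ X i) (hy : y ∈ X i)
    (h1 : x ∈ O t i) (h2 : y ∉ O t i) : ¬ Eqv N (TK X o) t x y := by
  rw [h.hE t (Or.inr ht) i x hx y hy, h.rel ht hx hy h1]
  exact h2

lemma sep' (h : WD E O A B X T z N o) (ht : t ∈ T) {x y : α} (hx : x ∈ X i) (hy : y ∈ X i)
    (h1 : x ∉ O t i) (h2 : y ∈ O t i) : ¬ Eqv N (TK X o) t x y :=
  fun h3 => h.sep ht hy hx h2 h1 h3.symm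

lemma same (h : WD E O A B X T z N o) (ht : t ∈ T) {x y : α} (hx : x ∈ X i) (hy : y ∈ X i)
    (h1 : x ∈ O t i) (h2 : y ∈ O t i) : Eqv N (TK X o) t x y := by
  rw [h.hE t (Or.inr ht) i x hx y hy, h.rel ht hx hy h1]
  exact h2

lemma zE (h : WD E O A B X T z N o) {x y : α} (hx : x ∈ X i) (hy : y ∈ X i) :
    Eqv N (TK X o) z x y ↔ (x ∈ A z i ↔ y ∈ A z i) := by
  rw [h.hE z (Or.inl rfl) i x hx y hy, h.one.1 i x hx y hy]

/-- an element of another leg behind the place of a near element -/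
lemma other (hn : NearT O X t) (i : Fin 3) : ∃ l, i ≠ l ∧ ∃ g ∈ X l, g ∉ O t l := by
  obtain ⟨a, b, hab, ha, hb⟩ := hn
  by_cases h1 : i = a
  · exact ⟨b, fun h2 => hab (h1.symm.trans h2), hb⟩
  · exact ⟨a, h1, ha⟩

lemma zigE (h : WD E O A B X T z N o) (hd : d ∈ T) (hS : SameR E O X d i) (ht : t ∈ T)
    (hn : NearT O X t) (htwo : ∀ x ∈ X i, ∀ y ∈ X i, x ∉ O t i → y ∉ O t i → E t x y) :
    ¬ Zig (X i) (O t i) (A z i) (O d i) ∧ ¬ Zig (X i) (A z i) (O t i) (O d i) := by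
  obtain ⟨l, hil, g, hg, hgO⟩ := other hn i
  obtain ⟨k, hik, hlk⟩ : ∃ k, i ≠ k ∧ l ≠ k := by
    have h3 : ∀ i j : Fin 3, ∃ k, i ≠ k ∧ j ≠ k := by decide
    exact h3 i l
  have hT := h.hs.tri hil hik hlk
  have hcmp := h.exi ht hn i
  have hdg := hS.1 l hil.symm g hg
  have e4 : (∃ x ∈ X i, x ∉ A z i) → Eqv N (TK X o) z (o l) g ∧ ¬ Eqv N (TK X o) t (o l) g ∧
      Eqv N (TK X o) d (o l) g := fun hcut =>
    ⟨(h.hA l g hg).2 (h.one.2 i l hil hcut g hg), fun h1 => hgO ((h.hO t ht l g hg).1 h1),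
      (h.hO d hd l g hg).2 hdg⟩
  have e1 : ∀ {a}, a ∈ X i → a ∈ A z i → a ∈ O t i → a ∉ O d i →
      Eqv N (TK X o) z (o i) a ∧ Eqv N (TK X o) t (o i) a ∧ ¬ Eqv N (TK X o) d (o i) a :=
    fun ha h1 h2 h3 => ⟨(h.hA i _ ha).2 h1, (h.hO t ht i _ ha).2 h2,
      fun h4 => h3 ((h.hO d hd i _ ha).1 h4)⟩
  have m1 : ∀ a b c : α, a ∈ ({a, b, c} : Set α) := fun a b c => Or.inl rfl
  have m2 : ∀ a b c : α, b ∈ ({a, b, c} : Set α) := fun a b c => Or.inr (Or.inl rfl)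
  have m3 : ∀ a b c : α, c ∈ ({a, b, c} : Set α) := fun a b c => Or.inr (Or.inr rfl)
  constructor
  · rintro ⟨a₁, h1, a₂, h2, a₃, h3, ⟨p1, p2⟩, ⟨q1, q2, q3⟩, r1, r2⟩
    have hsub : ∀ x ∈ X i, x ∈ O t i → x ∈ A z i := by
      rcases hcmp with h4 | h4
      · exact h4
      · exact absurd (h4 a₂ h2 q2) q1
    have p3 := hsub a₁ h1 p1
    have r3 : a₃ ∉ O t i := fun h4 => r1 (hsub a₃ h3 h4)
    refine hT.zig3 ht hd (a₁ := a₁) (a₂ := a₂) (a₃ := a₃) (x := a₁) (y := a₂) (x' := a₂)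
      (y' := a₃) (Or.inr h1) (Or.inr h2) (Or.inr h3) (Or.inr hg) (m1 _ _ _) (m2 _ _ _)
      (m2 _ _ _) (m3 _ _ _) (e1 h1 p3 p1 p2) ⟨?_, ?_, ?_⟩ ⟨?_, ?_, ?_⟩ (e4 ⟨a₃, h3, r1⟩)
    · exact (h.zE h1 h2).2 ⟨fun _ => q2, fun _ => p3⟩
    · exact h.sep ht h1 h2 p1 q1
    · exact h.sep' hd h1 h2 p2 q3
    · rw [h.zE h2 h3]
      exact fun h4 => r1 (h4.1 q2)
    · exact (h.hE t (Or.inr ht) i _ h2 _ h3).2 (htwo _ h2 _ h3 q1 r3)
    · exact h.sep hd h2 h3 q3 r2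
  · rintro ⟨a₁, h1, a₂, h2, a₃, h3, ⟨p1, p2⟩, ⟨q1, q2, q3⟩, r1, r2⟩
    have hsub : ∀ x ∈ X i, x ∈ A z i → x ∈ O t i := by
      rcases hcmp with h4 | h4
      · exact absurd (h4 a₂ h2 q2) q1
      · exact h4
    have p3 := hsub a₁ h1 p1
    have r3 : a₃ ∉ A z i := fun h4 => r1 (hsub a₃ h3 h4)
    refine hT.zig3 ht hd (a₁ := a₁) (a₂ := a₂) (a₃ := a₃) (x := a₂) (y := a₃) (x' := a₁)
      (y' := a₂) (Or.inr h1) (Or.inr h2) (Or.inr h3) (Or.inr hg) (m2 _ _ _) (m3 _ _ _)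
      (m1 _ _ _) (m2 _ _ _) (e1 h1 p1 p3 p2) ⟨?_, ?_, ?_⟩ ⟨?_, ?_, ?_⟩ (e4 ⟨a₂, h2, q1⟩)
    · exact (h.zE h2 h3).2 ⟨fun h4 => absurd h4 q1, fun h4 => absurd h4 r3⟩
    · exact h.sep ht h2 h3 q2 r1
    · exact h.sep hd h2 h3 q3 r2
    · rw [h.zE h1 h2]
      exact fun h4 => q1 (h4.1 p1)
    · exact h.same ht h1 h2 p3 q2
    · exact h.sep' hd h1 h2 p2 q3

theorem facts (h : WD E O A B X T z N o) : StarSysFacts E O A B X T z where
  one := h.one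
  rel := fun _ ht _ _ hx _ hy h1 => h.rel ht hx hy h1
  symm := fun _ ht _ _ hx _ hy h1 => h.symm ht hx hy h1
  exi := fun _ ht hn i => h.exi ht hn i
  tri := fun _ ht _ hx _ hx' _ hy _ hy' _ hw _ hw' e1 e2 e3 hB =>
    h.tri ht hx hx' hy hy' hw hw' e1 e2 e3 hB
  zigE := fun _ _ hd hS _ ht hn htwo => h.zigE hd hS ht hn htwo

end WD

lemma TWit.wd (h : TWit E O A B X T z) : ∃ N o, WD E O A B X T z N o := by
  obtain ⟨N, o, h1, h2, h3, h4, h5⟩ := h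
  exact ⟨N, o, h1, h2, h3, h4, h5⟩

theorem TWit.facts (h : TWit E O A B X T z) : StarSysFacts E O A B X T z := by
  obtain ⟨N, o, h1⟩ := h.wd
  exact h1.facts

/-! ### the children -/

/-- **An old exit** is an exit of the child. -/
theorem TWit.old {A' : α → Fin 3 → Set α} (h : TWit E O A B X T w) {Y : Set α}
    (hT' : T' ⊆ T) (hin : ∀ t ∈ T', ∀ x ∈ X i, x ∈ Y → x ∈ O t i) (hA' : A' w = A w) :
    TWit E O A' B (Function.update X i (X i \ Y)) T' w := by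
  obtain ⟨N, o, h⟩ := h.wd
  obtain ⟨j, k, hij, hik, hjk⟩ := fin3_ex i
  have hco : ∀ t ∈ T', ∀ a ∈ outP X o i Y, Eqv N (TK X o) t a (o i) := by
    rintro t ht a (ha | ha)
    · exact Or.inl ha
    · exact (h.hO' (hT' ht) ha.1).2 (hin t ht a ha.1 ha.2)
  have hsys := h.hs.child (c := o i) (Y := Y) (Or.inl rfl) hij hik hjk
    ((h.hs.tri hij hik hjk).old outP_sub (Or.inl rfl) hT')
  refine h.hs.child_wit h.hE h.hO h.hB (Or.inl rfl) hT' (fun t ht => Or.inl rfl) (Or.inl rfl) hsys ?_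
  intro l x hx
  have e1 : Function.update o i (o i) = o := Function.update_eq_self ..
  rw [e1, hA']
  refine h.hA l x ?_
  by_cases hl : l = i
  · subst hl
    rw [Function.update_self] at hx
    exact hx.1
  · rwa [Function.update_of_ne hl] at hx

/-- **A link** is an exit of the child. -/
theorem WD.link {A' : α → Fin 3 → Set α} (h : WD E O A B X T z N o)
    (hcut : ∃ x ∈ X i, x ∉ A z i) (hd : d ∈ T) (hc : c ∈ outP X o i (A z i))
    (hco : ¬ Eqv N (TK X o) d c (o i)) (hA1 : ∀ x, x ∈ A' d i ↔ E d c x)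
    (hA2 : ∀ l, l ≠ i → A' d l = O d l) :
    TWit E O A' B (chX A X z i) (chT O A X T z i) d := by
  obtain ⟨j, k, hij, hik, hjk⟩ := fin3_ex i
  have hT' : chT O A X T z i ⊆ T := fun t ht => ht.1
  have hin : ∀ t ∈ chT O A X T z i, ∀ a ∈ outP X o i (A z i), Eqv N (TK X o) t a (o i) :=
    fun t ht => (h.inner ht.1).2 ht.2
  have hdT : d ∉ chT O A X T z i := fun h1 => hco (hin d h1 c hc)
  have hcX : c ∈ X i := by
    rcases hc with h1 | h1
    · exact absurd (Or.inl h1) hco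
    · exact h1.1
  have hco' : ∀ t ∈ chT O A X T z i, ∀ a ∈ outP X o i (A z i), Eqv N (TK X o) t a c :=
    fun t ht a ha => h.hs.trans (outP_sub ha) (Or.inl rfl) (Or.inr hcX) (hin t ht a ha)
      (hin t ht c hc).symm
  have hsys := h.hs.child hc hij hik hjk
    ((h.hs.tri hij hik hjk).link (h.cut hcut hij hik hjk) (Or.inl rfl) hc hd hco hT' hin hdT)
  refine h.hs.child_wit h.hE h.hO h.hB hc hT' (fun t ht => hin t ht c hc) (Or.inr hd) hsys ?_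
  intro l x hx
  by_cases hl : l = i
  · subst hl
    rw [Function.update_self] at hx
    rw [Function.update_self, hA1]
    exact h.hE d (Or.inr hd) l c hcX x hx.1
  · rw [Function.update_of_ne hl] at hx
    rw [Function.update_of_ne hl, hA2 l hl]
    exact h.hO d hd l x hx

/-- a triple indexed by the legs -/
lemma trip {a b e : α} {f : Fin 3 → α} (hij : i ≠ j) (hik : i ≠ k) (hjk : j ≠ k) (h0 : f 0 = a)
    (h1 : f 1 = b) (h2 : f 2 = e) : ({f i, f j, f k} : Set α) = {a, b, e} := by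
  have key : ∀ v, v ∈ ({f i, f j, f k} : Set α) ↔ ∃ l, v = f l := by
    intro v
    constructor
    · rintro (h | h | h)
      exacts [⟨i, h⟩, ⟨j, h⟩, ⟨k, h⟩]
    · rintro ⟨l, h⟩
      rcases fin3 hij hik hjk l with rfl | rfl | rfl
      exacts [Or.inl h, Or.inr (Or.inl h), Or.inr (Or.inr h)]
  ext v
  rw [key]
  constructor
  · rintro ⟨l, rfl⟩
    fin_cases l
    exacts [Or.inl h0, Or.inr (Or.inl h1), Or.inr (Or.inr h2)]
  · rintro (h | h | h)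
    exacts [⟨0, h.trans h0.symm⟩, ⟨1, h.trans h1.symm⟩, ⟨2, h.trans h2.symm⟩]

/-- the field near -/
lemma WD.near (h : WD E O A B X T z N o) (ht : t ∈ T) (hij : i ≠ j) (hik : i ≠ k) (hjk : j ≠ k)
    (hnot : ∃ x ∈ X i, x ∉ O t i)
    (hL : NearLk N (TK X o) (leg X o i) (leg X o j) (leg X o k) (outP X o i (A z i)) (o i) (o j)
      (o k) t) : ∃ i j k, i ≠ j ∧ i ≠ k ∧ j ≠ k ∧
    (∃ x ∈ X i, x ∉ O t i) ∧ (∃ x ∈ X j, x ∉ O t j) ∧ (∀ x ∈ X k, x ∈ O t k) ∧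
    (∀ l, ∀ x ∈ X l, ∀ y ∈ X l, (E t x y ↔ (x ∈ O t l ↔ y ∈ O t l))) ∧
    ∀ x ∈ X 0, ∀ y ∈ X 1, ∀ w ∈ X 2, (k ≠ 0 → x ∉ O t 0) → (k ≠ 1 → y ∉ O t 1) →
      (k ≠ 2 → w ∉ O t 2) → B t x y w := by
  have hk : ∀ x ∈ X k, x ∈ O t k := fun x hx => (h.hO' ht hx).1 (hL.b3 x (Or.inr hx))
  refine ⟨i, j, k, hij, hik, hjk, hnot, ?_, hk, ?_, ?_⟩
  · obtain ⟨x, hx | hx, hx2⟩ := hL.b1
    · exact absurd (Or.inl hx) hx2
    · exact ⟨x, hx, fun h1 => hx2 ((h.hO' ht hx).2 h1)⟩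
  · intro l x hx y hy
    by_cases h1 : x ∈ O t l
    · rw [h.rel ht hx hy h1]
      exact ⟨fun h2 => ⟨fun _ => h2, fun _ => h1⟩, fun h2 => h2.1 h1⟩
    by_cases h2 : y ∈ O t l
    · have h3 := h.rel ht hy hx h2
      exact ⟨fun h4 => absurd (h3.1 (h.symm ht hx hy h4)) h1, fun h4 => absurd (h4.2 h2) h1⟩
    refine ⟨fun _ => ⟨fun h3 => absurd h3 h1, fun h3 => absurd h3 h2⟩, fun _ => ?_⟩
    rw [← h.hE t (Or.inr ht) l x hx y hy]
    rw [← h.hO' ht hx] at h1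
    rw [← h.hO' ht hy] at h2
    rcases fin3 hij hik hjk l with rfl | rfl | rfl
    · exact hL.a2 x (Or.inr hx) y (Or.inr hy) h1 h2
    · exact hL.b2 x (Or.inr hx) y (Or.inr hy) h1 h2
    · exact absurd (hL.b3 x (Or.inr hx)) h1
  · intro x hx y hy w hw c0 c1 c2
    rw [← h.hB t ht x hx y hy w hw]
    have hf : ∀ l, (![x, y, w] : Fin 3 → α) l ∈ X l := by
      intro l
      fin_cases l
      exacts [hx, hy, hw]
    have hn : ∀ l, l ≠ k → (![x, y, w] : Fin 3 → α) l ∉ O t l := by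
      intro l hl
      fin_cases l
      exacts [c0 hl.symm, c1 hl.symm, c2 hl.symm]
    have htr := trip (f := ![x, y, w]) (a := x) (b := y) (e := w) hij hik hjk rfl rfl rfl
    rw [← htr]
    exact hL.b4 _ (Or.inr (hf i)) _ (Or.inr (hf j)) _ (Or.inr (hf k))
      (fun h1 => hn i hik ((h.hO' ht (hf i)).1 h1)) (fun h1 => hn j hjk ((h.hO' ht (hf j)).1 h1))

/-- traces of the pair, in terms of `O` -/
lemma WD.pair (h : WD E O A B X T z N o) (hcut : ∃ x ∈ X i, x ∉ A z i) (ht : t ∈ T)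
    (ht' : t' ∈ T) (hij : i ≠ j) (hik : i ≠ k) (hjk : j ≠ k)
    (hL : LinkCls N (TK X o) (leg X o i) (leg X o j) (outP X o i (A z i)) (o i) (o j) (o k) t)
    (hL' : LinkCls N (TK X o) (leg X o i) (leg X o j) (outP X o i (A z i)) (o i) (o j) (o k) t') :
    (CmpOn (X j) (O t j) (O t' j) ∨ EqOn (X i) (O t i) (O t' i)) ∧
      (CmpOn (X i) (O t i) (O t' i) ∨ EqOn (X j) (O t j) (O t' j)) := by
  have hne : ∃ a ∈ leg X o i, a ∉ outP X o i (A z i) := by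
    obtain ⟨x, hx, hx2⟩ := hcut
    exact ⟨x, Or.inr hx, fun h1 => hx2 ((h.hA' hx).1 h1)⟩
  obtain ⟨h1, h2⟩ := (h.hs.tri hij hik hjk).linkPair (h.cut hcut hij hik hjk) (Or.inl rfl) hne ht hL
    ht' hL'
  have conv : ∀ l : Fin 3, ∀ t ∈ T, ∀ t' ∈ T,
      (∀ x ∈ leg X o l, Eqv N (TK X o) t x (o l) → Eqv N (TK X o) t' x (o l)) →
      ∀ x ∈ X l, x ∈ O t l → x ∈ O t' l := fun l t ht t' ht' h3 x hx h4 =>
    (h.hO' ht' hx).1 (h3 x (Or.inr hx) ((h.hO' ht hx).2 h4))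
  have conv' : ∀ l : Fin 3,
      (∀ x ∈ leg X o l, (Eqv N (TK X o) t x (o l) ↔ Eqv N (TK X o) t' x (o l))) →
      EqOn (X l) (O t l) (O t' l) := fun l h3 x hx =>
    (h.hO' ht hx).symm.trans ((h3 x (Or.inr hx)).trans (h.hO' ht' hx))
  constructor
  · rcases h1 with h1 | h1 | h1
    · exact Or.inl (Or.inl (conv j t ht t' ht' h1))
    · exact Or.inl (Or.inr (conv j t' ht' t ht h1))
    · exact Or.inr (conv' i h1)
  · rcases h2 with h2 | h2 | h2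
    · exact Or.inl (Or.inl (conv i t ht t' ht' h2))
    · exact Or.inl (Or.inr (conv i t' ht' t ht h2))
    · exact Or.inr (conv' j h2)

/-- a near link, both kinds -/
lemma WD.nearLk (h : WD E O A B X T z N o) (hcut : ∃ x ∈ X i, x ∉ A z i) (ht : t ∈ T)
    (htc : t ∉ chT O A X T z i) (hn : NearT O X t) (hij : i ≠ j) (hik : i ≠ k) (hjk : j ≠ k) :
    NearLk N (TK X o) (leg X o i) (leg X o j) (leg X o k) (outP X o i (A z i)) (o i) (o j)
        (o k) t ∨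
      NearLk N (TK X o) (leg X o i) (leg X o k) (leg X o j) (outP X o i (A z i)) (o i) (o k)
        (o j) t := by
  rcases h.node ht hcut hij hik hjk with h1 | h1 | ⟨-, h1 | h1 | h1⟩
  · exact absurd ⟨ht, h1⟩ htc
  · exact absurd hn (not_near h1.2)
  · exact Or.inl h1
  · exact Or.inr h1
  · exact absurd hn (not_near h1)

/-- the field cross -/
lemma WD.cross (h : WD E O A B X T z N o) (hcut : ∃ x ∈ X i, x ∉ A z i) (ht : t ∈ T)
    (htc : t ∉ chT O A X T z i) (hn : NearT O X t) (ht' : t' ∈ T) (htc' : t' ∉ chT O A X T z i)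
    (hn' : NearT O X t') (l : Fin 3) :
    CmpOn (X l) (O t l) (O t' l) ∨ ∀ m, m ≠ l → EqOn (X m) (O t m) (O t' m) := by
  obtain ⟨j, k, hij, hik, hjk⟩ := fin3_ex i
  -- both kinds are links for each pair of legs
  have cls : ∀ j k : Fin 3, i ≠ j → i ≠ k → j ≠ k → ∀ t ∈ T, t ∉ chT O A X T z i → NearT O X t →
      LinkCls N (TK X o) (leg X o i) (leg X o j) (outP X o i (A z i)) (o i) (o j) (o k) t := by
    intro j k hij hik hjk t ht htc hn
    rcases h.nearLk hcut ht htc hn hij hik hjk with h1 | h1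
    · exact h1.cls (Or.inl rfl)
    · exact h1.cls'
  have pr : ∀ j k : Fin 3, i ≠ j → i ≠ k → j ≠ k → _ := fun j k hij hik hjk =>
    h.pair hcut ht ht' hij hik hjk (cls j k hij hik hjk t ht htc hn)
      (cls j k hij hik hjk t' ht' htc' hn')
  -- second leg
  have sec : ∀ j k : Fin 3, i ≠ j → i ≠ k → j ≠ k →
      CmpOn (X j) (O t j) (O t' j) ∨ ∀ m, m ≠ j → EqOn (X m) (O t m) (O t' m) := by
    intro j k hij hik hjk
    have full : ∀ {t}, t ∈ T → NearLk N (TK X o) (leg X o i) (leg X o k) (leg X o j)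
        (outP X o i (A z i)) (o i) (o k) (o j) t → ∀ x ∈ X j, x ∈ O t j :=
      fun ht h1 x hx => (h.hO' ht hx).1 (h1.b3 x (Or.inr hx))
    have full' : ∀ {t}, t ∈ T → NearLk N (TK X o) (leg X o i) (leg X o j) (leg X o k)
        (outP X o i (A z i)) (o i) (o j) (o k) t → ∀ x ∈ X k, x ∈ O t k :=
      fun ht h1 x hx => (h.hO' ht hx).1 (h1.b3 x (Or.inr hx))
    rcases h.nearLk hcut ht htc hn hij hik hjk with h1 | h1
    · rcases h.nearLk hcut ht' htc' hn' hij hik hjk with h2 | h2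
      · rcases (pr j k hij hik hjk).1 with h3 | h3
        · exact Or.inl h3
        · right
          intro m hm
          rcases fin3 hij hik hjk m with rfl | rfl | rfl
          · exact h3
          · exact absurd rfl hm
          · exact fun x hx => ⟨fun _ => full' ht' h2 x hx, fun _ => full' ht h1 x hx⟩
      · exact Or.inl (Or.inl fun x hx _ => full ht' h2 x hx)
    · exact Or.inl (Or.inr fun x hx _ => full ht h1 x hx)
  rcases fin3 hij hik hjk l with rfl | rfl | rfl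
  · rcases (pr j k hij hik hjk).2 with h1 | h1
    · exact Or.inl h1
    rcases (pr k j hik hij hjk.symm).2 with h2 | h2
    · exact Or.inl h2
    right
    intro m hm
    rcases fin3 hij hik hjk m with rfl | rfl | rfl
    · exact absurd rfl hm
    · exact h1
    · exact h2
  · exact sec _ k hij hik hjk
  · exact sec _ j hik hij hjk.symm

/-- what is used about a near link -/
lemma WD.nearI (h : WD E O A B X T z N o) (hcut : ∃ x ∈ X i, x ∉ A z i) (ht : t ∈ T)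
    (htc : t ∉ chT O A X T z i) (hn : NearT O X t) :
    (∀ x ∈ X i, x ∈ O t i → x ∈ A z i) ∧ (∃ x ∈ X i, x ∉ O t i) ∧ ∃ i j k, i ≠ j ∧ i ≠ k ∧ j ≠ k ∧
    (∃ x ∈ X i, x ∉ O t i) ∧ (∃ x ∈ X j, x ∉ O t j) ∧ (∀ x ∈ X k, x ∈ O t k) ∧
    (∀ l, ∀ x ∈ X l, ∀ y ∈ X l, (E t x y ↔ (x ∈ O t l ↔ y ∈ O t l))) ∧
    ∀ x ∈ X 0, ∀ y ∈ X 1, ∀ w ∈ X 2, (k ≠ 0 → x ∉ O t 0) → (k ≠ 1 → y ∉ O t 1) →
      (k ≠ 2 → w ∉ O t 2) → B t x y w := by
  obtain ⟨j, k, hij, hik, hjk⟩ := fin3_ex i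
  have hnot : ∃ x ∈ X i, x ∉ O t i := by
    by_contra hcon
    push Not at hcon
    exact htc ⟨ht, fun x hx _ => hcon x hx⟩
  rcases h.nearLk hcut ht htc hn hij hik hjk with h1 | h1
  · exact ⟨fun x hx hxO => (h.hA' hx).1 (h1.a1 x (Or.inr hx) ((h.hO' ht hx).2 hxO)), hnot,
      h.near ht hij hik hjk hnot h1⟩
  · exact ⟨fun x hx hxO => (h.hA' hx).1 (h1.a1 x (Or.inr hx) ((h.hO' ht hx).2 hxO)), hnot,
      h.near ht hik hij hjk.symm hnot h1⟩

/-- the field zig -/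
lemma WD.zigN (h : WD E O A B X T z N o) (hcut : ∃ x ∈ X i, x ∉ A z i) (ht : t ∈ T)
    (htc : t ∉ chT O A X T z i) (hn : NearT O X t) (ht' : t' ∈ T) (htc' : t' ∉ chT O A X T z i)
    (hn' : NearT O X t') (hd : d ∈ T) {l : Fin 3} (hS : SameR E O X d l)
    (hne : ∃ m, m ≠ l ∧ ¬ EqOn (X m) (O t m) (O t' m)) :
    ¬ Zig (X l) (O t l) (O t' l) (O d l) := by
  obtain ⟨f1, -, p, q, r, hpq, hpr, hqr, -, -, hr, htw, -⟩ := h.nearI hcut ht htc hn
  obtain ⟨f1', -, p', q', r', hpq', hpr', hqr', -, -, hr', htw', -⟩ := h.nearI hcut ht' htc' hn'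
  have two : ∀ {m : Fin 3} {x y : α}, x ∈ X m → y ∈ X m → x ∉ O t m → y ∉ O t m →
      Eqv N (TK X o) t x y := fun hx hy h1 h2 =>
    (h.hE t (Or.inr ht) _ _ hx _ hy).2 ((htw _ _ hx _ hy).2 ⟨fun h3 => absurd h3 h1,
      fun h3 => absurd h3 h2⟩)
  have two' : ∀ {m : Fin 3} {x y : α}, x ∈ X m → y ∈ X m → x ∉ O t' m → y ∉ O t' m →
      Eqv N (TK X o) t' x y := fun hx hy h1 h2 =>
    (h.hE t' (Or.inr ht') _ _ hx _ hy).2 ((htw' _ _ hx _ hy).2 ⟨fun h3 => absurd h3 h1,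
      fun h3 => absurd h3 h2⟩)
  rintro ⟨a₁, h1, a₂, h2, a₃, h3, ⟨c1, c2⟩, ⟨q1, q2, q3⟩, r1, r2⟩
  have hcmp : ∀ x ∈ X l, x ∈ O t l → x ∈ O t' l := by
    rcases h.cross hcut ht htc hn ht' htc' hn' l with (h4 | h4) | h4
    · exact h4
    · exact absurd (h4 a₂ h2 q2) q1
    · obtain ⟨m, hm, hm'⟩ := hne
      exact absurd (h4 m hm) hm'
  have c3 := hcmp a₁ h1 c1
  have r3 : a₃ ∉ O t l := fun h4 => r1 (hcmp a₃ h3 h4)
  have oneA : ∀ m, i ≠ m → ∀ y ∈ X m, y ∈ A z m := fun m him => h.one.2 i m him hcut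
  by_cases hli : l = i
  · subst hli
    have b1 := f1 a₁ h1 c1
    have b2 := f1' a₂ h2 q2
    by_cases hb : ∃ b ∈ X l, b ∉ A z l ∧ b ∉ O d l
    · obtain ⟨b, hb1, hb2, hb3⟩ := hb
      exact (h.zigE hd hS ht hn fun x hx y hy h4 h5 =>
        (htw l x hx y hy).2 ⟨fun h6 => absurd h6 h4, fun h6 => absurd h6 h5⟩).1
        ⟨a₁, h1, a₂, h2, b, hb1, ⟨c1, c2⟩, ⟨q1, b2, q3⟩, hb2, hb3⟩
    push Not at hb
    obtain ⟨b, hb1, hb2⟩ := hcut
    have hb3 := hb b hb1 hb2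
    have a3A : a₃ ∈ A z l := by
      by_contra h4
      exact r2 (hb a₃ h3 h4)
    have hb4 : b ∉ O t l := fun h4 => hb2 (f1 b hb1 h4)
    have hb5 : b ∉ O t' l := fun h4 => hb2 (f1' b hb1 h4)
    obtain ⟨m, hm, hm'⟩ := hne
    have hm2 : ∃ g ∈ X m, (g ∉ O t m ∧ g ∈ O t' m) ∨ (g ∈ O t m ∧ g ∉ O t' m) := by
      by_contra hcon
      push Not at hcon
      exact hm' fun x hx => ⟨(hcon x hx).2, fun h4 => by
        by_contra h5
        exact (hcon x hx).1 h5 h4⟩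
    obtain ⟨g, hg, hg2⟩ := hm2
    obtain ⟨k, hk1, hk2⟩ : ∃ k, l ≠ k ∧ m ≠ k := by
      have h3 : ∀ i j : Fin 3, ∃ k, i ≠ k ∧ j ≠ k := by decide
      exact h3 l m
    have hT := h.hs.tri hm.symm hk1 hk2
    refine hT.zig4 ht ht' hd (Or.inr h1) (Or.inr h2) (Or.inr h3) (Or.inr hb1) (Or.inr hg)
      ⟨(h.hA l _ h1).2 b1, (h.hO t ht l _ h1).2 c1, (h.hO t' ht' l _ h1).2 c3,
        fun h4 => c2 ((h.hO d hd l _ h1).1 h4)⟩
      ⟨(h.zE h1 h2).2 ⟨fun _ => b2, fun _ => b1⟩, h.sep ht h1 h2 c1 q1, h.same ht' h1 h2 c3 q2,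
        h.sep' hd h1 h2 c2 q3⟩
      ⟨(h.zE h2 h3).2 ⟨fun _ => a3A, fun _ => b2⟩, two h2 h3 q1 r3, h.sep ht' h2 h3 q2 r1,
        h.sep hd h2 h3 q3 r2⟩
      ⟨fun h4 => hb2 (((h.zE h3 hb1).1 h4).1 a3A), two h3 hb1 r3 hb4, two' h3 hb1 r1 hb5,
        h.sep' hd h3 hb1 r2 hb3⟩
      ⟨(h.hA m _ hg).2 (oneA m hm.symm g hg), (h.hO d hd m _ hg).2 (hS.1 m hm g hg), ?_⟩
    rcases hg2 with ⟨g1, g2⟩ | ⟨g1, g2⟩
    · exact Or.inl ⟨fun h4 => g1 ((h.hO t ht m _ hg).1 h4), (h.hO t' ht' m _ hg).2 g2⟩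
    · exact Or.inr ⟨(h.hO t ht m _ hg).2 g1, fun h4 => g2 ((h.hO t' ht' m _ hg).1 h4)⟩
  · obtain ⟨k, hk1, hk2⟩ : ∃ k, l ≠ k ∧ i ≠ k := by
      have h3 : ∀ i j : Fin 3, ∃ k, i ≠ k ∧ j ≠ k := by decide
      exact h3 l i
    obtain ⟨b, hb1, hb2⟩ := hcut
    have hb4 : b ∉ O t i := fun h4 => hb2 (f1 b hb1 h4)
    have hb5 : b ∉ O t' i := fun h4 => hb2 (f1' b hb1 h4)
    have hrk : r = k := by
      rcases fin3 hk1 (show l ≠ i from hli) hk2.symm r with h4 | h4 | h4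
      · exact absurd (hr a₂ (h4 ▸ h2)) (h4 ▸ q1)
      · exact h4
      · exact absurd (hr b (h4 ▸ hb1)) (h4 ▸ hb4)
    have hrk' : r' = k := by
      rcases fin3 hk1 (show l ≠ i from hli) hk2.symm r' with h4 | h4 | h4
      · exact absurd (hr' a₃ (h4 ▸ h3)) (h4 ▸ r1)
      · exact h4
      · exact absurd (hr' b (h4 ▸ hb1)) (h4 ▸ hb5)
    have hf : ∃ f ∈ X i, (f ∉ O t i ∧ f ∈ O t' i) ∨ (f ∈ O t i ∧ f ∉ O t' i) := by
      obtain ⟨m, hm, hm'⟩ := hne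
      rcases fin3 hk1 (show l ≠ i from hli) hk2.symm m with h4 | h4 | h4
      · exact absurd h4 hm
      · exfalso
        apply hm'
        subst h4
        intro x hx
        exact ⟨fun _ => hr' x (hrk'.symm ▸ hx) |> fun h5 => hrk' ▸ h5,
          fun _ => hr x (hrk.symm ▸ hx) |> fun h5 => hrk ▸ h5⟩
      · subst h4
        by_contra hcon
        push Not at hcon
        exact hm' fun x hx => ⟨(hcon x hx).2, fun h4 => by
          by_contra h5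
          exact (hcon x hx).1 h5 h4⟩
    obtain ⟨f, hf1, hf2⟩ := hf
    have hfA : f ∈ A z i := by
      rcases hf2 with h4 | h4
      · exact f1' f hf1 h4.2
      · exact f1 f hf1 h4.1
    have hil : i ≠ l := fun h4 => hli h4.symm
    have hT := h.hs.tri (show l ≠ i from hli) hk1 hk2
    have za := oneA l hil
    refine hT.zig5 ht ht' hd (Or.inr h1) (Or.inr h2) (Or.inr h3) (Or.inr hf1) (Or.inr hb1)
      ⟨(h.hA l _ h1).2 (za _ h1), (h.hO t ht l _ h1).2 c1, (h.hO t' ht' l _ h1).2 c3,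
        fun h4 => c2 ((h.hO d hd l _ h1).1 h4)⟩
      ⟨(h.zE h1 h2).2 ⟨fun _ => za _ h2, fun _ => za _ h1⟩, h.sep ht h1 h2 c1 q1,
        h.same ht' h1 h2 c3 q2, h.sep' hd h1 h2 c2 q3⟩
      ⟨(h.zE h2 h3).2 ⟨fun _ => za _ h3, fun _ => za _ h2⟩, two h2 h3 q1 r3,
        h.sep ht' h2 h3 q2 r1, h.sep hd h2 h3 q3 r2⟩
      ⟨(h.hA i _ hf1).2 hfA, (h.hO d hd i _ hf1).2 (hS.1 i hil f hf1),
        fun h4 => hb2 (((h.zE hf1 hb1).1 h4).1 hfA),
        h.same hd hf1 hb1 (hS.1 i hil f hf1) (hS.1 i hil b hb1)⟩ ?_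
    rcases hf2 with ⟨g1, g2⟩ | ⟨g1, g2⟩
    · exact Or.inl ⟨fun h4 => g1 ((h.hO t ht i _ hf1).1 h4), (h.hO t' ht' i _ hf1).2 g2,
        two hf1 hb1 g1 hb4, h.sep ht' hf1 hb1 g2 hb5⟩
    · exact Or.inr ⟨(h.hO t ht i _ hf1).2 g1, fun h4 => g2 ((h.hO t' ht' i _ hf1).1 h4),
        h.sep ht hf1 hb1 g1 hb4, two' hf1 hb1 g2 hb5⟩

open Classical in
/-- **One step of the star split.** -/
theorem starStep : StarStepStmt α := by
  intro E O A B X T W hTW hW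
  refine ⟨fun z hz => (hW z hz).facts, ?_⟩
  intro z hz i hcut
  obtain ⟨N, o, h⟩ := (hW z hz).wd
  obtain ⟨j, k, hij, hik, hjk⟩ := fin3_ex i
  have hex : ∀ t, t ∈ T → t ∉ chT O A X T z i →
      ∃ c ∈ outP X o i (A z i), ¬ Eqv N (TK X o) t c (o i) := by
    intro t ht htc
    by_contra hcon
    push Not at hcon
    exact htc ⟨ht, (h.inner ht).1 hcon⟩
  choose! cc hcc1 hcc2 using hex
  have hWT : ∀ w ∈ W, w ∉ T := fun w hw h1 => disjoint_left.1 hTW h1 hw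
  refine ⟨T \ chT O A X T z i, fun w l => if w ∈ T then (if l = i then {x | E w (cc w) x} else O w l)
    else A w l, ?_⟩
  refine ⟨sdiff_subset, disjoint_sdiff_right, ?_, ?_, ?_, ?_, ?_, ?_, ?_, ?_, ?_⟩
  · rintro w (hw | hw)
    · refine (hW w hw).old (fun t ht => ht.1) (fun t ht => ht.2) ?_
      ext l x
      simp only [if_neg (hWT w hw)]
    · refine h.link hcut hw.1 (hcc1 w hw.1 hw.2) (hcc2 w hw.1 hw.2) (fun x => ?_) (fun l hl => ?_)
      · simp only [if_pos hw.1, if_true, mem_ofPred_eq]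
      · simp only [if_pos hw.1, if_neg hl]
  · intro w hw
    ext l x
    simp only [if_neg (hWT w hw)]
  · intro d hd l hl
    simp only [if_pos hd.1, if_neg hl]
  · exact fun t ht h1 h2 => absurd ⟨ht, h1⟩ h2
  · intro t ht hn x hx hxO
    rcases h.nearLk hcut ht.1 ht.2 hn hij hik hjk with h1 | h1
    · exact (h.hA' hx).1 (h1.a1 x (Or.inr hx) ((h.hO' ht.1 hx).2 hxO))
    · exact (h.hA' hx).1 (h1.a1 x (Or.inr hx) ((h.hO' ht.1 hx).2 hxO))
  · intro t ht hn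
    have hnot : ∃ x ∈ X i, x ∉ O t i := by
      by_contra hcon
      push Not at hcon
      exact ht.2 ⟨ht.1, fun x hx _ => hcon x hx⟩
    rcases h.nearLk hcut ht.1 ht.2 hn hij hik hjk with h1 | h1
    · exact h.near ht.1 hij hik hjk hnot h1
    · exact h.near ht.1 hik hij hjk.symm hnot h1
  · exact fun t ht hn t' ht' hn' l => h.cross hcut ht.1 ht.2 hn ht'.1 ht'.2 hn' l
  · intro d hd
    have hc1 := hcc1 d hd.1 hd.2
    have hc2 := hcc2 d hd.1 hd.2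
    have hcX : cc d ∈ X i := by
      rcases hc1 with h1 | h1
      · exact absurd (Or.inl h1) hc2
      · exact h1.1
    refine ⟨cc d, hcX, fun h1 => hc2 ((h.hO' hd.1 hcX).2 h1), fun x _ => ?_⟩
    simp only [if_pos hd.1, if_true, mem_ofPred_eq]
  · exact fun l d hd hS t ht hn t' ht' hn' hne => h.zigN hcut ht.1 ht.2 hn ht'.1 ht'.2 hn' hd hS hne

end TST
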