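import Pool.Agent.TST.StarSplit
import Pool.Agent.TST.StarStep

/-!
# STAR SPLIT (CLAIM A of T-star): the theorem

`starSplit : StarSplitStmt`, from the induction `starSplit_of_step` (helper33), the pair lemma
`Tri.linkPair` (helper63) and the step `starStep` (helper64).
-/

namespace TST

/-- **STAR SPLIT.** -/
theorem starSplit {α : Type*} : StarSplitStmt α := starSplit_of_step starStep

end TST
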