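import Pool.Agent.TST.CrossP
import Pool.Agent.TST.ThetaSub

/-!
# Row split and star split: definitions (CLAIM A of T-star, helper90)

Path systems with one exit (`PSys`) and star systems with one exit (`TSys`), and the witnesses of the
exits: every exit has its own matroid, with the same relations on the elements of the row
(of the legs).
-/

open Set
open scoped Matroid

namespace TST

variable {α : Type*}

/-! ### rows -/

/-- the circuit of a path system: the elements `X` of the row and the two ends -/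
abbrev PK (X : Set α) (p q : α) : Set α := insert p (insert q X)

/-- **Path system** with the ends `p`, `q`, the unbalanced elements `T` and one exit `z`. -/
structure PSys (N : Matroid α) (X : Set α) (p q : α) (T : Set α) (z : α) : Prop where
  cir : N.IsCircuit (PK X p q)
  pX : p ∉ X
  qX : q ∉ X
  pq : p ≠ q
  Tcl : T ⊆ N.closure (PK X p q)
  TK : Disjoint T (PK X p q)
  zcl : z ∈ N.closure (PK X p q)
  zK : z ∉ PK X p q
  zT : z ∉ T
  unb : ∀ t ∈ T, ¬ Eqv N (PK X p q) t p q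
  pp : PP N (PK X p q) T p q z

/-- **Witness of the exit `z`.**  `E t x y` = `t` does not separate `x` and `y`; `L t`, `R t` = classes
of the left and of the right end (for `t ∈ T`); `A z` = class of the left end (for the exit `z`). -/
def PWit (E : α → α → α → Prop) (L R A : α → Set α) (X T : Set α) (z : α) : Prop :=
  ∃ (N : Matroid α) (p q : α), PSys N X p q T z ∧
    (∀ t ∈ insert z T, ∀ x ∈ X, ∀ y ∈ X, (Eqv N (PK X p q) t x y ↔ E t x y)) ∧
    (∀ t ∈ T, ∀ x ∈ X, (Eqv N (PK X p q) t p x ↔ x ∈ L t)) ∧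
    (∀ t ∈ T, ∀ x ∈ X, (Eqv N (PK X p q) t q x ↔ x ∈ R t)) ∧
    (∀ x ∈ X, (Eqv N (PK X p q) z p x ↔ x ∈ A z))

/-- `t` has exactly two places on the row: the classes `L t`, `R t` and one middle class. -/
structure Two (E : α → α → α → Prop) (L R : α → Set α) (X : Set α) (t : α) : Prop where
  mid : ∃ x ∈ X, x ∉ L t ∧ x ∉ R t
  dis : ∀ x ∈ X, x ∈ L t → x ∉ R t
  cls : ∀ x ∈ X, ∀ y ∈ X, (E t x y ↔ (x ∈ L t ↔ y ∈ L t) ∧ (x ∈ R t ↔ y ∈ R t))

/-- comparable on `X` -/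
def CmpOn (X A B : Set α) : Prop := (∀ x ∈ X, x ∈ A → x ∈ B) ∨ ∀ x ∈ X, x ∈ B → x ∈ A

/-- equal on `X` -/
def EqOn (X A B : Set α) : Prop := ∀ x ∈ X, (x ∈ A ↔ x ∈ B)

/-- **Output of the row split.**  `Th` = honest elements of `T`. -/
structure RowSplit (E : α → α → α → Prop) (L R A : α → Set α) (X T W Th : Set α) : Prop where
  sub : Th ⊆ T
  /-- honest: exactly two places -/
  two : ∀ t ∈ Th, Two E L R X t
  /-- an exit against an element of `T` -/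
  exi : ∀ t ∈ T, ∀ z ∈ W, (∀ x ∈ X, x ∈ A z → x ∈ L t) ∨ (∀ x ∈ X, x ∉ A z → x ∈ R t) ∨
    (t ∈ Th ∧ (∀ x ∈ X, x ∈ L t → x ∈ A z) ∧ ∀ x ∈ X, x ∈ R t → x ∉ A z)
  /-- an exit has exactly one place (or none) -/
  one : ∀ z ∈ W, ∀ x ∈ X, ∀ y ∈ X, (E z x y ↔ (x ∈ A z ↔ y ∈ A z))
  /-- two honest elements: crossing places on one side, then equal places on the other side -/
  LL : ∀ t ∈ Th, ∀ t' ∈ Th, CmpOn X (L t) (L t') ∨ EqOn X (R t) (R t')
  RR : ∀ t ∈ Th, ∀ t' ∈ Th, CmpOn X (R t) (R t') ∨ EqOn X (L t) (L t')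
  LR : ∀ t ∈ Th, ∀ t' ∈ Th, CmpOn X (L t) (R t')ᶜ
  /-- a local element is constant on one side of each place of an honest one -/
  locL : ∀ t ∈ T, t ∉ Th → ∀ t' ∈ Th, (∀ x ∈ X, x ∈ L t' → x ∈ L t) ∨ ∀ x ∈ X, x ∉ L t' → x ∈ R t
  locR : ∀ t ∈ T, t ∉ Th → ∀ t' ∈ Th, (∀ x ∈ X, x ∈ R t' → x ∈ R t) ∨ ∀ x ∈ X, x ∉ R t' → x ∈ L t

/-- **ROW SPLIT.** -/
def RowSplitStmt (α : Type*) : Prop :=
  ∀ (E : α → α → α → Prop) (L R A : α → Set α) (X T W : Set α), X.Finite → Disjoint T W →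
    (∀ z ∈ W, PWit E L R A X T z) → ∃ Th, RowSplit E L R A X T W Th

/-! ### stars -/

/-- the leg `i` with its end -/
abbrev leg (X : Fin 3 → Set α) (o : Fin 3 → α) (i : Fin 3) : Set α := insert (o i) (X i)

/-- the theta -/
abbrev TK (X : Fin 3 → Set α) (o : Fin 3 → α) : Set α := leg X o 0 ∪ leg X o 1 ∪ leg X o 2

/-- **Star system** with the legs `X i`, the ends `o i`, the elements `T` of the closed star
(balanced same-row elements are allowed), and one exit `z`. -/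
structure TSys (N : Matroid α) (X : Fin 3 → Set α) (o : Fin 3 → α) (T : Set α) (z : α) : Prop where
  th : Theta N (TK X o) (leg X o 0) (leg X o 1) (leg X o 2)
  oX : ∀ i, o i ∉ X i
  Tcl : T ⊆ N.closure (TK X o)
  dT : Disjoint T (TK X o)
  zcl : z ∈ N.closure (TK X o)
  zK : z ∉ TK X o
  zT : z ∉ T
  p1 : ∀ C ⊆ TK X o ∪ T, N.IsCircuit C → (∀ i, o i ∈ C) → False
  p2 : ∀ C ⊆ TK X o ∪ T ∪ {z}, N.IsCircuit C → z ∈ C → ∀ i j, i ≠ j → o i ∈ C → o j ∈ C → False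

/-- **Witness of the exit `z` of a star.**  `E t x y` (for `x`, `y` in one leg) = `t` does not separate
`x` and `y`; `O t i` = class of the end in the leg `i` (for `t ∈ T`), `A z i` the same for the exit;
`B t x y w` = `t` is spanned by the star without `x`, `y`, `w` (one element of each leg). -/
def TWit (E : α → α → α → Prop) (O A : α → Fin 3 → Set α) (B : α → α → α → α → Prop)
    (X : Fin 3 → Set α) (T : Set α) (z : α) : Prop :=
  ∃ (N : Matroid α) (o : Fin 3 → α), TSys N X o T z ∧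
    (∀ t ∈ insert z T, ∀ i, ∀ x ∈ X i, ∀ y ∈ X i, (Eqv N (TK X o) t x y ↔ E t x y)) ∧
    (∀ t ∈ T, ∀ i, ∀ x ∈ X i, (Eqv N (TK X o) t (o i) x ↔ x ∈ O t i)) ∧
    (∀ i, ∀ x ∈ X i, (Eqv N (TK X o) z (o i) x ↔ x ∈ A z i)) ∧
    (∀ t ∈ T, ∀ x ∈ X 0, ∀ y ∈ X 1, ∀ w ∈ X 2, (t ∈ N.closure (TK X o \ {x, y, w}) ↔ B t x y w))

/-- `t` has places on at least two legs -/
def NearT (O : α → Fin 3 → Set α) (X : Fin 3 → Set α) (t : α) : Prop :=
  ∃ i j, i ≠ j ∧ (∃ x ∈ X i, x ∉ O t i) ∧ ∃ x ∈ X j, x ∉ O t j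

/-- `d` lives in the leg `i` and has at most one class there besides the class of the end (one-place
elements and balanced ones) -/
def SameR (E : α → α → α → Prop) (O : α → Fin 3 → Set α) (X : Fin 3 → Set α) (d : α)
    (i : Fin 3) : Prop :=
  (∀ l, l ≠ i → ∀ x ∈ X l, x ∈ O d l) ∧
    ∀ x ∈ X i, ∀ y ∈ X i, x ∉ O d i → y ∉ O d i → E d x y

/-- zigzag of (the complement of) `D` across the two cuts `P` and `Q` -/
def Zig (X P Q D : Set α) : Prop :=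
  ∃ a₁ ∈ X, ∃ a₂ ∈ X, ∃ a₃ ∈ X, (a₁ ∈ P ∧ a₁ ∉ D) ∧ (a₂ ∉ P ∧ a₂ ∈ Q ∧ a₂ ∈ D) ∧ a₃ ∉ Q ∧ a₃ ∉ D

/-- **Output of the star split.**  `Lk` = links (near or same-row), `C i` = core in the leg `i`. -/
structure StarSplit (E : α → α → α → Prop) (O A : α → Fin 3 → Set α) (B : α → α → α → α → Prop)
    (X C : Fin 3 → Set α) (T W Lk : Set α) : Prop where
  sub : Lk ⊆ T
  Csub : ∀ i, C i ⊆ X i
  /-- exits and links are constant on the core of each leg -/
  core : ∀ d ∈ W ∪ Lk, ∀ i, ∀ x ∈ C i, ∀ y ∈ C i, E d x y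
  /-- the other elements live in the core, or are constant on the core of each leg -/
  loc : ∀ t ∈ T, t ∉ Lk → (∀ i, ∀ x ∈ X i, x ∉ C i → x ∈ O t i) ∨
    ((∀ i, ∀ x ∈ C i, ∀ y ∈ C i, E t x y) ∧ ¬ NearT O X t)
  /-- a near link has exactly two places -/
  near : ∀ t ∈ Lk, NearT O X t → ∃ i j k, i ≠ j ∧ i ≠ k ∧ j ≠ k ∧
    (∃ x ∈ X i, x ∉ O t i) ∧ (∃ x ∈ X j, x ∉ O t j) ∧ (∀ x ∈ X k, x ∈ O t k) ∧
    (∀ l, ∀ x ∈ X l, ∀ y ∈ X l, (E t x y ↔ (x ∈ O t l ↔ y ∈ O t l))) ∧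
    ∀ x ∈ X 0, ∀ y ∈ X 1, ∀ w ∈ X 2, (k ≠ 0 → x ∉ O t 0) → (k ≠ 1 → y ∉ O t 1) →
      (k ≠ 2 → w ∉ O t 2) → B t x y w
  /-- two near links with crossing places on a leg have the same places on the other legs -/
  cross : ∀ t ∈ Lk, NearT O X t → ∀ t' ∈ Lk, NearT O X t' → ∀ i,
    CmpOn (X i) (O t i) (O t' i) ∨ ∀ j, j ≠ i → EqOn (X j) (O t j) (O t' j)
  /-- a near element against an exit -/
  exi : ∀ t ∈ T, NearT O X t → ∀ z ∈ W, ∀ i, CmpOn (X i) (O t i) (A z i)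
  /-- an exit has at most one place in the star -/
  one : ∀ z ∈ W, (∀ i, ∀ x ∈ X i, ∀ y ∈ X i, (E z x y ↔ (x ∈ A z i ↔ y ∈ A z i))) ∧
    ∀ i j, i ≠ j → (∃ x ∈ X i, x ∉ A z i) → ∀ y ∈ X j, y ∈ A z j
  /-- outside of the core: cut off by an exit or a link -/
  out : ∀ i, ∀ x ∈ X i, x ∉ C i → ∃ z ∈ W ∪ Lk, ∀ y ∈ C i, ¬ E z x y
  /-- no zigzag across an exit and a near link -/
  zigE : ∀ i, ∀ d ∈ T, SameR E O X d i → ∀ z ∈ W, ∀ t ∈ Lk, NearT O X t →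
    ¬ Zig (X i) (O t i) (A z i) (O d i) ∧ ¬ Zig (X i) (A z i) (O t i) (O d i)
  /-- no zigzag across two near links with different other places -/
  zig : ∀ i, ∀ d ∈ T, SameR E O X d i → ∀ t ∈ Lk, NearT O X t → ∀ t' ∈ Lk, NearT O X t' →
    (∃ l, l ≠ i ∧ ¬ EqOn (X l) (O t l) (O t' l)) → ¬ Zig (X i) (O t i) (O t' i) (O d i)

/-- **STAR SPLIT.** -/
def StarSplitStmt (α : Type*) : Prop :=
  ∀ (E : α → α → α → Prop) (O A : α → Fin 3 → Set α) (B : α → α → α → α → Prop)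
    (X : Fin 3 → Set α) (T W : Set α), (∀ i, (X i).Finite) → (∀ i, (X i).Nonempty) →
    Disjoint T W →
    (∀ z ∈ W, TWit E O A B X T z) → ∃ (C : Fin 3 → Set α) (Lk : Set α), StarSplit E O A B X C T W Lk

end TST
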