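import Pool.Agent.TST.StarNode
import Pool.Agent.TST.SplitDef

/-!
# Degenerate tripods (CLAIM A of T-star, helper51)

`Theta.cls_of_noCir`: an element of the closure of a theta which is in no circuit with all three ends
has only one class besides the class of the end on a leg, as soon as it has a place on a second leg.
`StarSplit.dt`: an element with places at the ends of two legs and something on the third leg is no
link, the two legs are contained in the core, and exits and links see nothing on them.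
-/

set_option autoImplicit false

open Set
open scoped Matroid

namespace TST

variable {α : Type*} {N : Matroid α} {K F G H : Set α} {d x x' y o₁ o₂ o₃ : α}

/-- **[DT]** one class besides the class of the end -/
theorem Theta.cls_of_noCir (T : Theta N K F G H) (h1 : o₁ ∈ F) (h2 : o₂ ∈ G) (h3 : o₃ ∈ H)
    (hd : d ∈ N.closure K) (hdK : d ∉ K)
    (hno : ∀ C ⊆ insert d K, N.IsCircuit C → d ∈ C → o₁ ∈ C → o₂ ∈ C → o₃ ∈ C → False)
    (hx : x ∈ F) (hx' : x' ∈ F) (hy : y ∈ G) (nx : ¬ Eqv N K d x o₁) (nx' : ¬ Eqv N K d x' o₁)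
    (ny : ¬ Eqv N K d y o₂) : Eqv N K d x x' := by
  -- the triples
  have trip : ∀ x ∈ F, ¬ Eqv N K d x o₁ → d ∈ N.closure (K \ {x, y, o₃}) := by
    intro x hx nx
    by_contra hcon
    have hI := T.iFG x hx y hy
    have hdI : d ∈ N.closure (K \ {x, y}) := T.spans hx hy hd
    have hdn : d ∉ K \ {x, y} := fun h => hdK h.1
    have m1 : o₁ ∈ K \ {x, y} := by
      refine ⟨T.F_sub h1, ?_⟩
      rintro (h | h)
      · exact nx (Or.inl h.symm)
      · exact T.dFG.ne_of_mem h1 hy h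
    have m2 : o₂ ∈ K \ {x, y} := by
      refine ⟨T.G_sub h2, ?_⟩
      rintro (h | h)
      · exact T.dFG.ne_of_mem hx h2 h.symm
      · exact ny (Or.inl h.symm)
    have m3 : o₃ ∈ K \ {x, y} := by
      refine ⟨T.H_sub h3, ?_⟩
      rintro (h | h)
      · exact T.dFH.ne_of_mem hx h3 h.symm
      · exact T.dGH.ne_of_mem hy h3 h.symm
    refine hno _ ((N.fundCircuit_subset_insert d (K \ {x, y})).trans
      (insert_subset_insert sdiff_subset)) (hI.fundCircuit_isCircuit hdI hdn)
      (N.mem_fundCircuit d _) ?_ ?_ ?_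
    · refine (mem_fund_iff hI hdI hdn m1).2 fun h => nx (Or.inr ?_)
      refine N.closure_subset_closure ?_ h
      rintro e ⟨⟨he, he1⟩, he2⟩
      refine ⟨he, ?_⟩
      rintro (h4 | h4)
      · exact he1 (Or.inl h4)
      · exact he2 h4
    · refine (mem_fund_iff hI hdI hdn m2).2 fun h => ny (Or.inr ?_)
      refine N.closure_subset_closure ?_ h
      rintro e ⟨⟨he, he1⟩, he2⟩
      refine ⟨he, ?_⟩
      rintro (h4 | h4)
      · exact he1 (Or.inr h4)
      · exact he2 h4
    · refine (mem_fund_iff hI hdI hdn m3).2 fun h => hcon ?_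
      refine N.closure_subset_closure ?_ h
      rintro e ⟨⟨he, he1⟩, he2⟩
      refine ⟨he, ?_⟩
      rintro (h4 | h4 | h4)
      · exact he1 (Or.inl h4)
      · exact he1 (Or.inr h4)
      · exact he2 h4
  have hJ := T.iGH y hy o₃ h3
  have hdJ : d ∈ N.closure (K \ {y, o₃}) := T.swap'.swap.spans hy h3 hd
  have hdn : d ∉ K \ {y, o₃} := fun h => hdK h.1
  have hC := hJ.fundCircuit_isCircuit hdJ hdn
  have key : ∀ x ∈ F, ¬ Eqv N K d x o₁ → x ∉ N.fundCircuit d (K \ {y, o₃}) := by
    intro x hx nx h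
    have hxJ : x ∈ K \ {y, o₃} := by
      refine ⟨T.F_sub hx, ?_⟩
      rintro (h4 | h4)
      · exact T.dFG.ne_of_mem hx hy h4
      · exact T.dFH.ne_of_mem hx h3 h4
    refine (mem_fund_iff hJ hdJ hdn hxJ).1 h ?_
    refine N.closure_subset_closure ?_ (trip x hx nx)
    rintro e ⟨he, he1⟩
    refine ⟨⟨he, ?_⟩, fun h4 => he1 (Or.inl h4)⟩
    rintro (h4 | h4)
    · exact he1 (Or.inr (Or.inl h4))
    · exact he1 (Or.inr (Or.inr h4))
  right
  refine N.closure_subset_closure ?_
    (hC.mem_closure_sdiff_singleton_of_mem (N.mem_fundCircuit d _))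
  rintro e ⟨he, hed⟩
  have heJ := (N.fundCircuit_subset_insert d (K \ {y, o₃}) he).resolve_left hed
  refine ⟨heJ.1, ?_⟩
  rintro (h4 | h4)
  · exact key x hx nx (h4 ▸ he)
  · exact key x' hx' nx' ((mem_singleton_iff.1 h4) ▸ he)

variable {E : α → α → α → Prop} {O A : α → Fin 3 → Set α} {B : α → α → α → α → Prop}
  {X C : Fin 3 → Set α} {S W Lk : Set α} {i j k : Fin 3}

/-- **Degenerate tripods in the star split.**  `d` has places at the ends of the legs `j`, `k` and
separates something on the leg `i`. -/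
theorem StarSplit.dt (h : StarSplit E O A B X C S W Lk) (hd : d ∈ S) (hij : i ≠ j) (hik : i ≠ k)
    (hjk : j ≠ k) (hjn : (X j).Nonempty) (hkn : (X k).Nonempty) (hj : ∀ x ∈ X j, x ∉ O d j)
    (hk : ∀ x ∈ X k, x ∉ O d k) (hs : ∃ x ∈ X i, ∃ y ∈ X i, ¬ E d x y) :
    NearT O X d ∧ d ∉ Lk ∧ X j ⊆ C j ∧ X k ⊆ C k ∧ (∀ x ∈ X i, x ∉ C i → x ∈ O d i) ∧
      ∀ z ∈ W ∪ Lk, (∀ x ∈ X j, ∀ y ∈ X j, E z x y) ∧ ∀ x ∈ X k, ∀ y ∈ X k, E z x y := by
  obtain ⟨xj, hxj⟩ := hjn
  obtain ⟨xk, hxk⟩ := hkn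
  have hn : NearT O X d := ⟨j, k, hjk, ⟨xj, hxj, hj xj hxj⟩, xk, hxk, hk xk hxk⟩
  have hdL : d ∉ Lk := by
    intro hdL
    obtain ⟨a, b, e, hab, hae, hbe, ha, hb, hc, hrel, -⟩ := h.near d hdL hn
    have he : e = i := by
      have hej : e ≠ j := by
        rintro rfl
        exact hj xj hxj (hc xj hxj)
      have hek : e ≠ k := by
        rintro rfl
        exact hk xk hxk (hc xk hxk)
      have : ∀ e i j k : Fin 3, i ≠ j → i ≠ k → j ≠ k → e ≠ j → e ≠ k → e = i := by decide
      exact this e i j k hij hik hjk hej hek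
    subst he
    obtain ⟨x, hx, y, hy, hxy⟩ := hs
    exact hxy ((hrel e x hx y hy).2 ⟨fun _ => hc y hy, fun _ => hc x hx⟩)
  have hC : ∀ i, ∀ x ∈ X i, x ∉ C i → x ∈ O d i := by
    rcases h.loc d hd hdL with h1 | h1
    · exact h1
    · exact absurd hn h1.2
  have hCj : X j ⊆ C j := fun x hx => by
    by_contra hcon
    exact hj x hx (hC j x hx hcon)
  have hCk : X k ⊆ C k := fun x hx => by
    by_contra hcon
    exact hk x hx (hC k x hx hcon)
  exact ⟨hn, hdL, hCj, hCk, hC i, fun z hz => ⟨fun x hx y hy => h.core z hz j x (hCj hx) y (hCj hy),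
    fun x hx y hy => h.core z hz k x (hCk hx) y (hCk hy)⟩⟩

end TST
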