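import Pool.Agent.TST.Theta

/-!
# An exit of a theta, [SE] (CLAIM A of T-star; pure matroid part, helper64)

`spokeExit`: an exit `z` of a theta (no circuit through `z` contains two of the ends `o₁`, `o₂`,
`o₃`) cuts one leg once or not at all.
-/

set_option autoImplicit false

open Set
open scoped Matroid

namespace TST

variable {α : Type*} {N : Matroid α} {K F G H X₁ : Set α} {z x y e o₁ o₂ o₃ : α}

/-- the circuits through the exit, from three of them -/
theorem Theta.zcut (T : Theta N K F G H) (hX : X₁ ⊆ F) (hzK : z ∉ K)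
    (c1 : N.IsCircuit (insert z X₁)) (c2 : N.IsCircuit (insert z (F \ X₁ ∪ G)))
    (c3 : N.IsCircuit (insert z (F \ X₁ ∪ H))) : ZCut N K z F X₁ G H where
  sub := hX
  c1 := c1
  c2 := c2
  c3 := c3
  all := by
    intro C hCK hC hzC
    by_cases h1 : insert z X₁ ⊆ C
    · exact Or.inl (c1.eq_of_subset_isCircuit hC h1).symm
    right
    obtain ⟨x, hx, hxC⟩ : ∃ x ∈ X₁, x ∉ C := by
      by_contra h2
      push Not at h2
      exact h1 (insert_subset hzC h2)
    obtain ⟨y, hy, hyC⟩ : ∃ y ∈ G ∪ H, y ∉ C := by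
      by_contra h2
      push Not at h2
      have h3 := T.cGH.eq_of_subset_isCircuit hC h2
      rw [← h3] at hzC
      rcases hzC with h | h
      · exact hzK (T.G_sub h)
      · exact hzK (T.H_sub h)
    have hCB : C ⊆ insert z (K \ {x, y}) := by
      intro e he
      rcases hCK he with h | h
      · exact Or.inl h
      · exact Or.inr ⟨h, by rintro (h2 | h2); exacts [hxC (h2 ▸ he), hyC (h2 ▸ he)]⟩
    rcases hy with hy | hy
    · right
      refine circ_unique (T.iFG x (hX hx) y hy) hC c3 hCB ?_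
      refine insert_subset_insert ?_
      rintro e (he | he)
      · refine ⟨T.F_sub he.1, ?_⟩
        rintro (h2 | h2)
        · exact he.2 (h2 ▸ hx)
        · exact T.dFG.ne_of_mem he.1 hy h2
      · refine ⟨T.H_sub he, ?_⟩
        rintro (h2 | h2)
        · exact T.dFH.ne_of_mem (hX hx) he h2.symm
        · exact T.dGH.ne_of_mem hy he h2.symm
    · left
      refine circ_unique (T.iFH x (hX hx) y hy) hC c2 hCB ?_
      refine insert_subset_insert ?_
      rintro e (he | he)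
      · refine ⟨T.F_sub he.1, ?_⟩
        rintro (h2 | h2)
        · exact he.2 (h2 ▸ hx)
        · exact T.dFH.ne_of_mem he.1 hy h2
      · refine ⟨T.G_sub he, ?_⟩
        rintro (h2 | h2)
        · exact T.dFG.ne_of_mem (hX hx) he h2.symm
        · exact T.dGH.ne_of_mem he hy h2

/-- the elements of the leg `F` in the fundamental circuit -/
lemma Theta.mem_F (T : Theta N K F G H) (hx : x ∈ F) (hy : y ∈ G) (hz : z ∈ N.closure K)
    (hzK : z ∉ K) (he : e ∈ F) (hex : e ≠ x) :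
    e ∈ N.fundCircuit z (K \ {x, y}) ↔ ¬ Eqv N K z e x := by
  have heB : e ∈ K \ {x, y} := ⟨T.F_sub he, by
    rintro (h | h)
    · exact hex h
    · exact T.dFG.ne_of_mem he hy h⟩
  rw [mem_fund_iff (T.iFG x hx y hy) (T.spans hx hy hz) (fun h => hzK h.1) heB, not_iff_not]
  constructor
  · intro h
    right
    refine N.closure_subset_closure ?_ h
    rintro f ⟨⟨hf, hn⟩, hfe⟩
    exact ⟨hf, by rintro (h2 | h2); exacts [hfe h2, hn (Or.inl h2)]⟩
  · intro h
    have h1 := h.resolve_left hex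
    refine T.cl_insert hy (S := (K \ {x, y}) \ {e}) (sdiff_subset.trans sdiff_subset) ?_ ?_
    · intro f hf hfy
      have hfF : f ∉ F := fun h2 => by
        rcases hf with h3 | h3
        · exact T.dFG.ne_of_mem h2 h3 rfl
        · exact T.dFH.ne_of_mem h2 h3 rfl
      refine ⟨⟨?_, ?_⟩, ?_⟩
      · rcases hf with h3 | h3
        · exact T.G_sub h3
        · exact T.H_sub h3
      · rintro (h2 | h2)
        · exact hfF (h2 ▸ hx)
        · exact hfy h2
      · exact fun h2 => hfF (h2 ▸ he)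
    · refine N.closure_subset_closure ?_ h1
      rintro f ⟨hf, hn⟩
      by_cases hfy : f = y
      · exact Or.inl hfy
      · exact Or.inr ⟨⟨hf, by rintro (h2 | h2); exacts [hn (Or.inr h2), hfy h2]⟩,
          fun h2 => hn (Or.inl h2)⟩

/-- the elements of the leg `G` in the fundamental circuit -/
lemma Theta.mem_G (T : Theta N K F G H) (hx : x ∈ F) (hy : y ∈ G) (hz : z ∈ N.closure K)
    (hzK : z ∉ K) (he : e ∈ G) (hey : e ≠ y) :
    e ∈ N.fundCircuit z (K \ {x, y}) ↔ ¬ Eqv N K z e y := by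
  have := T.swap'.mem_F hy hx hz hzK he hey
  rwa [pair_comm] at this

/-- equivalent elements of the third leg -/
lemma Theta.mem_H (T : Theta N K F G H) (hx : x ∈ F) (hy : y ∈ G) (hz : z ∈ N.closure K)
    (hzK : z ∉ K) {h h' : α} (hh : h ∈ H) (hh' : h' ∈ H) (heq : Eqv N K z h h')
    (hm : h' ∈ N.fundCircuit z (K \ {x, y})) : h ∈ N.fundCircuit z (K \ {x, y}) := by
  rcases heq with rfl | heq
  · exact hm
  have hB : ∀ g ∈ H, g ∈ K \ {x, y} := fun g hg => ⟨T.H_sub hg, by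
    rintro (h2 | h2)
    · exact T.dFH.ne_of_mem hx hg h2.symm
    · exact T.dGH.ne_of_mem hy hg h2.symm⟩
  rw [mem_fund_iff (T.iFG x hx y hy) (T.spans hx hy hz) (fun h => hzK h.1) (hB _ hh')] at hm
  rw [mem_fund_iff (T.iFG x hx y hy) (T.spans hx hy hz) (fun h => hzK h.1) (hB _ hh)]
  intro h1
  apply hm
  have h2 : z ∈ N.closure ((K \ {h, h'}) \ {y}) := by
    refine T.swap'.swap.swap'.cl_insert hy (S := (K \ {h, h'}) \ {y})
      (sdiff_subset.trans sdiff_subset) ?_ ?_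
    · intro f hf hfy
      have hfH : f ∉ H := fun h2 => by
        rcases hf with h3 | h3
        · exact T.dGH.ne_of_mem h3 h2 rfl
        · exact T.dFH.ne_of_mem h3 h2 rfl
      refine ⟨⟨?_, ?_⟩, hfy⟩
      · rcases hf with h3 | h3
        · exact T.G_sub h3
        · exact T.F_sub h3
      · rintro (h2 | h2)
        · exact hfH (h2 ▸ hh)
        · exact hfH (h2 ▸ hh')
    · refine N.closure_subset_closure ?_ heq
      intro f hf
      by_cases hfy : f = y
      · exact Or.inl hfy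
      · exact Or.inr ⟨hf, hfy⟩
  have hI : N.Indep ((K \ {x, y}) \ {h} ∪ (K \ {h, h'}) \ {y}) := by
    refine (T.iGH y hy h hh).subset ?_
    rintro f (⟨⟨hf, hn⟩, hfh⟩ | ⟨⟨hf, hn⟩, hfy⟩)
    · exact ⟨hf, by rintro (h2 | h2); exacts [hn (Or.inr h2), hfh h2]⟩
    · exact ⟨hf, by rintro (h2 | h2); exacts [hfy h2, hn (Or.inl h2)]⟩
  have h3 : z ∈ N.closure (((K \ {x, y}) \ {h}) ∩ ((K \ {h, h'}) \ {y})) := by
    rw [hI.closure_inter_eq_inter_closure]
    exact ⟨h1, h2⟩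
  refine N.closure_subset_closure ?_ h3
  rintro f ⟨⟨⟨hf, hn⟩, _⟩, ⟨⟨_, hn'⟩, _⟩⟩
  exact ⟨⟨hf, hn⟩, fun h4 => hn' (Or.inr h4)⟩

/-- `Eqv` is transitive on a leg -/
lemma Theta.trans (T : Theta N K F G H) (hy : y ∈ G) {a b c : α} (ha : a ∈ F) (hb : b ∈ F)
    (hc : c ∈ F) (h : Eqv N K z a b) (h' : Eqv N K z b c) : Eqv N K z a c := by
  rcases h with rfl | h
  · exact h'
  rcases h' with rfl | h'
  · exact Or.inr h
  right
  have key : ∀ d ∈ F, ∀ d' ∈ F, z ∈ N.closure (K \ {d, d'}) →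
      z ∈ N.closure ((K \ {d, d'}) \ {y}) := by
    intro d hd d' hd' hz
    refine T.cl_insert hy (S := (K \ {d, d'}) \ {y}) (sdiff_subset.trans sdiff_subset) ?_ ?_
    · intro f hf hfy
      have hfF : f ∉ F := fun h2 => by
        rcases hf with h3 | h3
        · exact T.dFG.ne_of_mem h2 h3 rfl
        · exact T.dFH.ne_of_mem h2 h3 rfl
      refine ⟨⟨?_, ?_⟩, hfy⟩
      · rcases hf with h3 | h3
        · exact T.G_sub h3
        · exact T.H_sub h3
      · rintro (h2 | h2)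
        · exact hfF (h2 ▸ hd)
        · exact hfF (h2 ▸ hd')
    · refine N.closure_subset_closure ?_ hz
      intro f hf
      by_cases hfy : f = y
      · exact Or.inl hfy
      · exact Or.inr ⟨hf, hfy⟩
  have h1 := key a ha b hb h
  have h2 := key b hb c hc h'
  have hI : N.Indep ((K \ {a, b}) \ {y} ∪ (K \ {b, c}) \ {y}) := by
    refine (T.iFG b hb y hy).subset ?_
    rintro f (⟨⟨hf, hn⟩, hfy⟩ | ⟨⟨hf, hn⟩, hfy⟩)
    · exact ⟨hf, by rintro (h2 | h2); exacts [hn (Or.inr h2), hfy h2]⟩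
    · exact ⟨hf, by rintro (h2 | h2); exacts [hn (Or.inl h2), hfy h2]⟩
  have h3 : z ∈ N.closure (((K \ {a, b}) \ {y}) ∩ ((K \ {b, c}) \ {y})) := by
    rw [hI.closure_inter_eq_inter_closure]
    exact ⟨h1, h2⟩
  refine N.closure_subset_closure ?_ h3
  rintro f ⟨⟨⟨hf, hn⟩, _⟩, ⟨⟨_, hn'⟩, _⟩⟩
  exact ⟨hf, by rintro (h4 | h4); exacts [hn (Or.inl h4), hn' (Or.inr h4)]⟩

/-- the fundamental circuit if the legs `G` and `H` are not cut -/
lemma Theta.fund_eq (T : Theta N K F G H) (hx : x ∈ F) (hy : y ∈ G) (hz : z ∈ N.closure K)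
    (hzK : z ∉ K) (h3 : o₃ ∈ H) (uG : ∀ e ∈ G, Eqv N K z e y) (uH : ∀ e ∈ H, Eqv N K z e o₃) :
    N.fundCircuit z (K \ {x, y}) = insert z {e | e ∈ F ∧ ¬ Eqv N K z e x} ∨
      N.fundCircuit z (K \ {x, y}) = insert z ({e | e ∈ F ∧ ¬ Eqv N K z e x} ∪ H) := by
  have hsub := N.fundCircuit_subset_insert z (K \ {x, y})
  have hzm := N.mem_fundCircuit z (K \ {x, y})
  have hF : ∀ e ∈ F, (e ∈ N.fundCircuit z (K \ {x, y}) ↔ ¬ Eqv N K z e x) := by
    intro e he
    by_cases hex : e = x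
    · subst hex
      constructor
      · intro h
        rcases hsub h with h | h
        · exact absurd (h ▸ T.F_sub he) hzK
        · exact absurd (Or.inl rfl) h.2
      · intro h
        exact absurd (Or.inl rfl) h
    · exact T.mem_F hx hy hz hzK he hex
  have hG : ∀ e ∈ G, e ∉ N.fundCircuit z (K \ {x, y}) := by
    intro e he h
    by_cases hey : e = y
    · subst hey
      rcases hsub h with h | h
      · exact hzK (h ▸ T.G_sub he)
      · exact h.2 (Or.inr rfl)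
    · exact (T.mem_G hx hy hz hzK he hey).1 h (uG e he)
  have hK' : ∀ e ∈ N.fundCircuit z (K \ {x, y}), e = z ∨ e ∈ F ∨ e ∈ H := by
    intro e he
    rcases hsub he with h | h
    · exact Or.inl h
    · have h1 := h.1
      rw [T.hK] at h1
      rcases h1 with (h1 | h1) | h1
      · exact Or.inr (Or.inl h1)
      · exact absurd he (hG e h1)
      · exact Or.inr (Or.inr h1)
  by_cases h0 : o₃ ∈ N.fundCircuit z (K \ {x, y})
  · right
    ext e
    constructor
    · intro he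
      rcases hK' e he with h | h | h
      · exact Or.inl h
      · exact Or.inr (Or.inl ⟨h, (hF e h).1 he⟩)
      · exact Or.inr (Or.inr h)
    · rintro (rfl | h | h)
      · exact hzm
      · exact (hF e h.1).2 h.2
      · exact T.mem_H hx hy hz hzK h h3 (uH e h) h0
  · left
    ext e
    constructor
    · intro he
      rcases hK' e he with h | h | h
      · exact Or.inl h
      · exact Or.inr ⟨h, (hF e h).1 he⟩
      · exact absurd (T.mem_H hx hy hz hzK h3 h (uH e h).symm he) h0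
    · rintro (rfl | h)
      · exact hzm
      · exact (hF e h.1).2 h.2

/-- the leg `F` is cut, the others are not -/
lemma Theta.zcut_F (T : Theta N K F G H) (h1 : o₁ ∈ F) (h2 : o₂ ∈ G) (h3 : o₃ ∈ H)
    (hz : z ∈ N.closure K) (hzK : z ∉ K) (uG : ∀ e ∈ G, Eqv N K z e o₂)
    (uH : ∀ e ∈ H, Eqv N K z e o₃)
    (n13 : ∀ C ⊆ insert z K, N.IsCircuit C → z ∈ C → o₁ ∈ C → o₃ ∈ C → False)
    (hcut : ∃ x ∈ F, ¬ Eqv N K z x o₁) :
    o₁ ∈ {e | e ∈ F ∧ Eqv N K z e o₁} ∧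
      ZCut N K z F {e | e ∈ F ∧ Eqv N K z e o₁} G H := by
  obtain ⟨x, hx, hxo⟩ := hcut
  have fc : ∀ (a b : α), a ∈ F → b ∈ G → N.IsCircuit (N.fundCircuit z (K \ {a, b})) :=
    fun a b ha hb => (T.iFG a ha b hb).fundCircuit_isCircuit (T.spans ha hb hz) (fun h => hzK h.1)
  have fsub : ∀ (a b : α), N.fundCircuit z (K \ {a, b}) ⊆ insert z K :=
    fun a b => (N.fundCircuit_subset_insert _ _).trans (insert_subset_insert sdiff_subset)
  have hFI : N.Indep F := (T.iGH o₂ h2 o₃ h3).subset fun e he => ⟨T.F_sub he, by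
    rintro (h | h)
    · exact T.dFG.ne_of_mem he h2 h
    · exact T.dFH.ne_of_mem he h3 h⟩
  have cx : ∀ x ∈ F, ¬ Eqv N K z x o₁ →
      N.IsCircuit (insert z {e | e ∈ F ∧ ¬ Eqv N K z e x}) := by
    intro x hx hxo
    rcases T.fund_eq hx h2 hz hzK h3 uG uH with h | h
    · rw [← h]; exact fc x o₂ hx h2
    · exfalso
      refine n13 _ (fsub x o₂) (fc x o₂ hx h2) (N.mem_fundCircuit _ _) ?_ ?_
      · rw [h]
        exact Or.inr (Or.inl ⟨h1, fun h4 => hxo h4.symm⟩)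
      · rw [h]
        exact Or.inr (Or.inr h3)
  have hEF : ∀ x, insert z {e | e ∈ F ∧ ¬ Eqv N K z e x} ⊆ insert z F :=
    fun x => insert_subset_insert fun e he => he.1
  have eX : {e | e ∈ F ∧ ¬ Eqv N K z e x} = {e | e ∈ F ∧ Eqv N K z e o₁} := by
    ext e
    constructor
    · rintro ⟨he, hex⟩
      refine ⟨he, ?_⟩
      by_contra h4
      have h5 := circ_unique hFI (cx e he h4) (cx x hx hxo) (hEF _) (hEF _)
      have h6 : e ∈ insert z {f | f ∈ F ∧ ¬ Eqv N K z f x} := Or.inr ⟨he, hex⟩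
      rw [← h5] at h6
      rcases h6 with h6 | h6
      · exact hzK (h6 ▸ T.F_sub he)
      · exact h6.2 (Or.inl rfl)
    · rintro ⟨he, heo⟩
      refine ⟨he, fun hex => hxo ?_⟩
      exact T.trans h2 hx he h1 hex.symm heo
  have c1 : N.IsCircuit (insert z {e | e ∈ F ∧ Eqv N K z e o₁}) := by
    rw [← eX]; exact cx x hx hxo
  have eF : F \ {e | e ∈ F ∧ Eqv N K z e o₁} = {e | e ∈ F ∧ ¬ Eqv N K z e o₁} := by
    ext e
    constructor
    · rintro ⟨he, hn⟩
      exact ⟨he, fun h => hn ⟨he, h⟩⟩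
    · rintro ⟨he, hn⟩
      exact ⟨he, fun h => hn h.2⟩
  have hne : ¬ N.IsCircuit (insert z {e | e ∈ F ∧ ¬ Eqv N K z e o₁}) := by
    intro h
    have h5 := circ_unique hFI h c1 (hEF _) (insert_subset_insert fun e he => he.1)
    have h6 : x ∈ insert z {f | f ∈ F ∧ ¬ Eqv N K z f o₁} := Or.inr ⟨hx, hxo⟩
    rw [h5] at h6
    rcases h6 with h6 | h6
    · exact hzK (h6 ▸ T.F_sub hx)
    · exact hxo h6.2
  have c3 : N.IsCircuit (insert z (F \ {e | e ∈ F ∧ Eqv N K z e o₁} ∪ H)) := by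
    rw [eF]
    rcases T.fund_eq h1 h2 hz hzK h3 uG uH with h | h
    · exact absurd (h ▸ fc o₁ o₂ h1 h2) hne
    · rw [← h]; exact fc o₁ o₂ h1 h2
  have c2 : N.IsCircuit (insert z (F \ {e | e ∈ F ∧ Eqv N K z e o₁} ∪ G)) := by
    rw [eF]
    have fc' : N.IsCircuit (N.fundCircuit z (K \ {o₁, o₃})) :=
      (T.iFH o₁ h1 o₃ h3).fundCircuit_isCircuit (T.swap.spans h1 h3 hz) (fun h => hzK h.1)
    rcases T.swap.fund_eq h1 h3 hz hzK h2 uH uG with h | h
    · exact absurd (h ▸ fc') hne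
    · rw [← h]; exact fc'
  exact ⟨⟨h1, Or.inl rfl⟩, T.zcut (fun e he => he.1) hzK c1 c2 c3⟩

/-- if `F` is cut then `G` is not cut -/
lemma Theta.uncut (T : Theta N K F G H) (h1 : o₁ ∈ F) (h2 : o₂ ∈ G)
    (hz : z ∈ N.closure K) (hzK : z ∉ K)
    (n12 : ∀ C ⊆ insert z K, N.IsCircuit C → z ∈ C → o₁ ∈ C → o₂ ∈ C → False)
    (hcut : ∃ x ∈ F, ¬ Eqv N K z x o₁) : ∀ e ∈ G, Eqv N K z e o₂ := by
  intro y hy
  by_contra hyo
  obtain ⟨x, hx, hxo⟩ := hcut
  refine n12 (N.fundCircuit z (K \ {x, y}))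
    ((N.fundCircuit_subset_insert _ _).trans (insert_subset_insert sdiff_subset))
    ((T.iFG x hx y hy).fundCircuit_isCircuit (T.spans hx hy hz) (fun h => hzK h.1))
    (N.mem_fundCircuit _ _) ?_ ?_
  · exact (T.mem_F hx hy hz hzK h1 (fun h => hxo (Or.inl h.symm))).2 fun h => hxo h.symm
  · exact (T.mem_G hx hy hz hzK h2 (fun h => hyo (Or.inl h.symm))).2 fun h => hyo h.symm

/-- no leg is cut: `z` closes the leg `H` -/
lemma Theta.close_H (T : Theta N K F G H) (h1 : o₁ ∈ F) (h2 : o₂ ∈ G) (h3 : o₃ ∈ H)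
    (hz : z ∈ N.closure K) (hzK : z ∉ K) (hl : N.IsNonloop z) (uF : ∀ e ∈ F, Eqv N K z e o₁)
    (uG : ∀ e ∈ G, Eqv N K z e o₂) (uH : ∀ e ∈ H, Eqv N K z e o₃) :
    N.IsCircuit (insert z H) := by
  have e0 : {e | e ∈ F ∧ ¬ Eqv N K z e o₁} = ∅ := by
    ext e
    simp only [mem_ofPred_eq, mem_empty_iff_false, iff_false, not_and, not_not]
    exact fun he => uF e he
  have fc := (T.iFG o₁ h1 o₂ h2).fundCircuit_isCircuit (T.spans h1 h2 hz) (fun h => hzK h.1)
  rcases T.fund_eq h1 h2 hz hzK h3 uG uH with h | h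
  · rw [h, e0] at fc
    exact absurd (by simpa using fc) hl.not_isLoop
  · rw [h, e0, empty_union] at fc
    exact fc

/-- **[SE].** An exit of a theta cuts one leg once, or closes all legs. -/
theorem Theta.spokeExit (T : Theta N K F G H) (h1 : o₁ ∈ F) (h2 : o₂ ∈ G) (h3 : o₃ ∈ H)
    (hz : z ∈ N.closure K) (hzK : z ∉ K) (hl : N.IsNonloop z)
    (hno : ∀ C ⊆ insert z K, N.IsCircuit C → z ∈ C →
      (o₁ ∈ C ∧ o₂ ∈ C) ∨ (o₁ ∈ C ∧ o₃ ∈ C) ∨ (o₂ ∈ C ∧ o₃ ∈ C) → False) :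
    (∃ X₁, o₁ ∈ X₁ ∧ ZCut N K z F X₁ G H) ∨ (∃ X₁, o₂ ∈ X₁ ∧ ZCut N K z G X₁ F H) ∨
      ∃ X₁, o₃ ∈ X₁ ∧ ZCut N K z H X₁ F G := by
  have n12 : ∀ C ⊆ insert z K, N.IsCircuit C → z ∈ C → o₁ ∈ C → o₂ ∈ C → False :=
    fun C a b c d e => hno C a b c (Or.inl ⟨d, e⟩)
  have n13 : ∀ C ⊆ insert z K, N.IsCircuit C → z ∈ C → o₁ ∈ C → o₃ ∈ C → False :=
    fun C a b c d e => hno C a b c (Or.inr (Or.inl ⟨d, e⟩))
  have n23 : ∀ C ⊆ insert z K, N.IsCircuit C → z ∈ C → o₂ ∈ C → o₃ ∈ C → False :=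
    fun C a b c d e => hno C a b c (Or.inr (Or.inr ⟨d, e⟩))
  by_cases cF : ∃ x ∈ F, ¬ Eqv N K z x o₁
  · left
    have uG := T.uncut h1 h2 hz hzK n12 cF
    have uH := T.swap.uncut h1 h3 hz hzK n13 cF
    exact ⟨_, T.zcut_F h1 h2 h3 hz hzK uG uH n13 cF⟩
  push Not at cF
  by_cases cG : ∃ x ∈ G, ¬ Eqv N K z x o₂
  · right; left
    have uH := T.swap'.swap.uncut h2 h3 hz hzK n23 cG
    exact ⟨_, T.swap'.zcut_F h2 h1 h3 hz hzK cF uH n23 cG⟩
  push Not at cG
  by_cases cH : ∃ x ∈ H, ¬ Eqv N K z x o₃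
  · right; right
    exact ⟨_, T.swap.swap'.zcut_F h3 h1 h2 hz hzK cF cG
      (fun C a b c d e => n23 C a b c e d) cH⟩
  push Not at cH
  left
  have cH' := T.close_H h1 h2 h3 hz hzK hl cF cG cH
  have cG' := T.swap.close_H h1 h3 h2 hz hzK hl cF cH cG
  have cF' := T.swap'.swap.close_H h2 h3 h1 hz hzK hl cG cH cF
  exact ⟨F, h1, T.zcut Subset.rfl hzK cF' (by simpa using cG') (by simpa using cH')⟩

end TST
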