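import Pool.Agent.TST.ThetaSub
import Pool.Agent.TST.SpokeExit

/-!
# The node lemma of a star (CLAIM A of T-star, STAR SPLIT; pure matroid part, helper64)

`Tri`: a theta with the ends `o₁`, `o₂`, `o₃`, the inner elements `T` and one exit `z`.  The exit cuts
the leg `F` in the outer part `Fo` and the rest.  An element `t` of `T` is constant on `Fo`
(inner), or in the closure of `Fo` (outer), or a link: then it is an exit of the inner theta and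
has two classes on `Fo`.
-/

set_option autoImplicit false

open Set
open scoped Matroid

namespace TST

variable {α : Type*} {N : Matroid α} {K F G H Fo X₁ T T' : Set α} {z x y e c d t w o₁ o₂ o₃ : α}

/-! ### classes of an exit -/

/-- a circuit through `z` from the closure -/
lemma exists_cir_of_cl {S : Set α} (hz : z ∈ N.closure S) (hn : z ∉ S) :
    ∃ C ⊆ insert z S, N.IsCircuit C ∧ z ∈ C :=
  N.exists_isCircuit_of_mem_closure hz hn

/-- an exit with a cut is no loop -/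
lemma ZCut.nonloop {Y W : Set α} (hz : ZCut N K z F X₁ Y W) (hx : x ∈ X₁) (hxz : x ≠ z) :
    N.IsNonloop z := by
  rw [← Matroid.not_isLoop_iff (hz.c1.subset_ground (Or.inl rfl))]
  intro h1
  have h2 := h1.isCircuit.eq_of_subset_isCircuit hz.c1
    (singleton_subset_iff.2 (mem_insert z X₁))
  have h3 : x ∈ insert z X₁ := Or.inr hx
  rw [← h2] at h3
  exact hxz h3

theorem ZCut.cls_X (h : Theta N K F G H) (hz : ZCut N K z F X₁ G H) (hzK : z ∉ K) (hx : x ∈ F)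
    (hy : y ∈ F) : Eqv N K z x y ↔ (x ∈ X₁ ↔ y ∈ X₁) := by
  by_cases hxy : x = y
  · subst hxy
    exact ⟨fun _ => Iff.rfl, fun _ => Or.inl rfl⟩
  have hmix : ∀ x ∈ F, ∀ y ∈ F, x ∈ X₁ → y ∉ X₁ → ¬ Eqv N K z x y := by
    intro x hx y hy hx1 hy1 h1
    rcases h1 with h1 | h1
    · exact hy1 (h1 ▸ hx1)
    obtain ⟨C, c1, c2, c3⟩ := exists_cir_of_cl h1 (fun h2 => hzK h2.1)
    have hxC : x ∉ C := by
      intro h2
      rcases c1 h2 with h3 | h3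
      · exact hzK (h3 ▸ h.F_sub hx)
      · exact h3.2 (Or.inl rfl)
    have hyC : y ∉ C := by
      intro h2
      rcases c1 h2 with h3 | h3
      · exact hzK (h3 ▸ h.F_sub hy)
      · exact h3.2 (Or.inr rfl)
    rcases hz.all C (c1.trans (insert_subset_insert sdiff_subset)) c2 c3 with h2 | h2 | h2
    · exact hxC (h2 ▸ Or.inr hx1)
    · exact hyC (h2 ▸ Or.inr (Or.inl ⟨hy, hy1⟩))
    · exact hyC (h2 ▸ Or.inr (Or.inl ⟨hy, hy1⟩))
  constructor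
  · intro h1
    constructor
    · intro hx1
      by_contra hy1
      exact hmix x hx y hy hx1 hy1 h1
    · intro hy1
      by_contra hx1
      exact hmix y hy x hx hy1 hx1 h1.symm
  · intro h1
    by_cases hx1 : x ∈ X₁
    · have hy1 := h1.1 hx1
      right
      refine N.closure_subset_closure ?_ (hz.c2.mem_closure_sdiff_singleton_of_mem (Or.inl rfl))
      rintro w ⟨hw | hw | hw, hwz⟩
      · exact absurd hw hwz
      · refine ⟨h.F_sub hw.1, ?_⟩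
        rintro (h3 | h3)
        · exact hw.2 (h3 ▸ hx1)
        · exact hw.2 ((mem_singleton_iff.1 h3) ▸ hy1)
      · refine ⟨h.G_sub hw, ?_⟩
        rintro (h3 | h3)
        · exact disjoint_left.1 h.dFG hx (h3 ▸ hw)
        · exact disjoint_left.1 h.dFG hy ((mem_singleton_iff.1 h3) ▸ hw)
    · have hy1 : y ∉ X₁ := fun h2 => hx1 (h1.2 h2)
      right
      refine N.closure_subset_closure ?_ (hz.c1.mem_closure_sdiff_singleton_of_mem (Or.inl rfl))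
      rintro w ⟨hw | hw, hwz⟩
      · exact absurd hw hwz
      · refine ⟨h.F_sub (hz.sub hw), ?_⟩
        rintro (h3 | h3)
        · exact hx1 (h3 ▸ hw)
        · exact hy1 ((mem_singleton_iff.1 h3) ▸ hw)

theorem ZCut.cls_off (h : Theta N K F G H) (hz : ZCut N K z F X₁ G H) (hx : x ∉ X₁) (hy : y ∉ X₁) :
    Eqv N K z x y := by
  right
  refine N.closure_subset_closure ?_ (hz.c1.mem_closure_sdiff_singleton_of_mem (Or.inl rfl))
  rintro w ⟨hw | hw, hwz⟩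
  · exact absurd hw hwz
  · refine ⟨h.F_sub (hz.sub hw), ?_⟩
    rintro (h3 | h3)
    · exact hx (h3 ▸ hw)
    · exact hy ((mem_singleton_iff.1 h3) ▸ hw)

theorem ZCut.cls_Y (h : Theta N K F G H) (hz : ZCut N K z F X₁ G H) (hx : x ∈ G) (hy : y ∈ G) :
    Eqv N K z x y :=
  hz.cls_off h (fun h1 => disjoint_left.1 h.dFG (hz.sub h1) hx)
    (fun h1 => disjoint_left.1 h.dFG (hz.sub h1) hy)

theorem ZCut.cls_W (h : Theta N K F G H) (hz : ZCut N K z F X₁ G H) (hx : x ∈ H) (hy : y ∈ H) :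
    Eqv N K z x y :=
  hz.cls_off h (fun h1 => disjoint_left.1 h.dFH (hz.sub h1) hx)
    (fun h1 => disjoint_left.1 h.dFH (hz.sub h1) hy)

/-- an element on a circuit which is in no circuit with both ends has at most two classes -/
theorem two_of_PP (hK : N.IsCircuit K) (ht : t ∈ N.closure K) (htK : t ∉ K)
    (hno : ∀ C ⊆ insert t K, N.IsCircuit C → t ∈ C → o₁ ∈ C → o₂ ∈ C → False) (hx : x ∈ K) :
    Eqv N K t x o₁ ∨ Eqv N K t x o₂ := by
  by_contra hcon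
  push Not at hcon
  have h1 : t ∈ N.closure (K \ {x}) := by rwa [hK.closure_sdiff_singleton_eq x]
  obtain ⟨C, c1, c2, c3, c4⟩ := exists_circ (hK.sdiff_singleton_indep hx) h1 (fun h => htK h.1)
  have key : ∀ o, ¬ Eqv N K t x o → o ∈ C := by
    intro o ho
    refine c4 o fun h2 => ho (Or.inr (N.closure_subset_closure ?_ h2))
    rintro w ⟨⟨hw, hw1⟩, hw2⟩
    exact ⟨hw, fun h3 => h3.elim hw1 hw2⟩
  exact hno C (c1.trans (insert_subset_insert sdiff_subset)) c2 c3 (key _ hcon.1) (key _ hcon.2)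

/-! ### one theta, one exit -/

/-- a theta with the ends `o₁`, `o₂`, `o₃`, the inner elements `T`, the exit `z` -/
structure Tri (N : Matroid α) (K F G H T : Set α) (o₁ o₂ o₃ z : α) : Prop where
  th : Theta N K F G H
  h1 : o₁ ∈ F
  h2 : o₂ ∈ G
  h3 : o₃ ∈ H
  p1 : P1 N K T o₁ o₂ o₃
  p2 : P2 N K T o₁ o₂ o₃ z
  zc : z ∈ N.closure K
  zK : z ∉ K
  zT : z ∉ T
  Tc : T ⊆ N.closure K
  TK : ∀ t ∈ T, t ∉ K

namespace Tri

lemma swap (h : Tri N K F G H T o₁ o₂ o₃ z) : Tri N K F H G T o₁ o₃ o₂ z where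
  th := h.th.swap
  h1 := h.h1
  h2 := h.h3
  h3 := h.h2
  p1 := fun C h1 h2 h3 h4 h5 => h.p1 C h1 h2 h3 h5 h4
  p2 := fun C h1 h2 h3 h4 => h.p2 C h1 h2 h3 (by tauto)
  zc := h.zc
  zK := h.zK
  zT := h.zT
  Tc := h.Tc
  TK := h.TK

lemma swap' (h : Tri N K F G H T o₁ o₂ o₃ z) : Tri N K G F H T o₂ o₁ o₃ z where
  th := h.th.swap'
  h1 := h.h2
  h2 := h.h1
  h3 := h.h3
  p1 := fun C h1 h2 h3 h4 h5 => h.p1 C h1 h2 h4 h3 h5
  p2 := fun C h1 h2 h3 h4 => h.p2 C h1 h2 h3 (by tauto)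
  zc := h.zc
  zK := h.zK
  zT := h.zT
  Tc := h.Tc
  TK := h.TK

lemma noz (h : Tri N K F G H T o₁ o₂ o₃ z) : ∀ C ⊆ insert z K, N.IsCircuit C → z ∈ C →
    (o₁ ∈ C ∧ o₂ ∈ C) ∨ (o₁ ∈ C ∧ o₃ ∈ C) ∨ (o₂ ∈ C ∧ o₃ ∈ C) → False := by
  intro C h1 h2 h3 h4
  refine h.p2 C (fun w hw => ?_) h2 h3 h4
  rcases h1 hw with h5 | h5
  · exact Or.inr h5
  · exact Or.inl (Or.inl h5)

/-- **[SE]** -/
theorem cut (h : Tri N K F G H T o₁ o₂ o₃ z) (hl : N.IsNonloop z) :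
    (∃ X₁, o₁ ∈ X₁ ∧ ZCut N K z F X₁ G H) ∨ (∃ X₁, o₂ ∈ X₁ ∧ ZCut N K z G X₁ F H) ∨
      ∃ X₁, o₃ ∈ X₁ ∧ ZCut N K z H X₁ F G :=
  h.th.spokeExit h.h1 h.h2 h.h3 h.zc h.zK hl h.noz

/-- the exit is not spanned by the elements of a leg without the end -/
lemma notMem_cl (h : Tri N K F G H T o₁ o₂ o₃ z) (hl : N.IsNonloop z) {S : Set α} (hS : S ⊆ K)
    (h1 : o₁ ∉ S) (h2 : o₂ ∉ S) (h3 : o₃ ∉ S) : z ∉ N.closure S := by
  intro hz
  obtain ⟨C, c1, c2, c3⟩ := exists_cir_of_cl hz (fun h4 => h.zK (hS h4))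
  have hC : C ⊆ insert z K := c1.trans (insert_subset_insert hS)
  have hn : ∀ o ∈ K, o ∉ S → o ∉ C := by
    intro o ho ho' hoC
    rcases c1 hoC with h4 | h4
    · exact h.zK (h4 ▸ ho)
    · exact ho' h4
  have n1 := hn o₁ (h.th.F_sub h.h1) h1
  have n2 := hn o₂ (h.th.G_sub h.h2) h2
  have n3 := hn o₃ (h.th.H_sub h.h3) h3
  rcases h.cut hl with ⟨X, hX, hz⟩ | ⟨X, hX, hz⟩ | ⟨X, hX, hz⟩
  · rcases hz.all C hC c2 c3 with h4 | h4 | h4
    · exact n1 (h4 ▸ Or.inr hX)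
    · exact n2 (h4 ▸ Or.inr (Or.inr h.h2))
    · exact n3 (h4 ▸ Or.inr (Or.inr h.h3))
  · rcases hz.all C hC c2 c3 with h4 | h4 | h4
    · exact n2 (h4 ▸ Or.inr hX)
    · exact n1 (h4 ▸ Or.inr (Or.inr h.h1))
    · exact n3 (h4 ▸ Or.inr (Or.inr h.h3))
  · rcases hz.all C hC c2 c3 with h4 | h4 | h4
    · exact n3 (h4 ▸ Or.inr hX)
    · exact n1 (h4 ▸ Or.inr (Or.inr h.h1))
    · exact n2 (h4 ▸ Or.inr (Or.inr h.h2))

/-- **The old exit** in the inner theta: contract the outer part without the end. -/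
theorem old (h : Tri N K F G H T o₁ o₂ o₃ z) (hFo : Fo ⊆ F) (ho : o₁ ∈ Fo) (hT' : T' ⊆ T) :
    Tri (N ／ (Fo \ {o₁})) (insert o₁ (K \ Fo)) (insert o₁ (F \ Fo)) G H T' o₁ o₂ o₃ z := by
  have hDK : Fo \ {o₁} ⊆ K := fun w hw => h.th.F_sub (hFo hw.1)
  have hKK : K ⊆ insert o₁ (K \ Fo) ∪ (Fo \ {o₁}) := by
    intro w hw
    by_cases hwF : w ∈ Fo
    · by_cases hwo : w = o₁
      · exact Or.inl (Or.inl hwo)
      · exact Or.inr ⟨hwF, hwo⟩
    · exact Or.inl (Or.inr ⟨hw, hwF⟩)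
  have hK'K : insert o₁ (K \ Fo) ⊆ K := insert_subset (h.th.F_sub h.h1) sdiff_subset
  refine ⟨h.th.sub_in hFo ho, Or.inl rfl, h.h2, h.h3, ?_, ?_, ?_, ?_, ?_, ?_, ?_⟩
  · intro C c1 c2 c3 c4 c5
    obtain ⟨C', d1, d2, d3⟩ := c2.exists_subset_isCircuit_of_contract
    refine h.p1 C' ?_ d1 (d2 c3) (d2 c4) (d2 c5)
    intro w hw
    rcases d3 hw with h4 | h4
    · rcases c1 h4 with h5 | h5
      · exact Or.inl (hK'K h5)
      · exact Or.inr (hT' h5)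
    · exact Or.inl (hDK h4)
  · intro C c1 c2 c3 c4
    obtain ⟨C', d1, d2, d3⟩ := c2.exists_subset_isCircuit_of_contract
    refine h.p2 C' ?_ d1 (d2 c3) (c4.imp (fun h => ⟨d2 h.1, d2 h.2⟩)
      (fun h => h.imp (fun h => ⟨d2 h.1, d2 h.2⟩) (fun h => ⟨d2 h.1, d2 h.2⟩)))
    intro w hw
    rcases d3 hw with h4 | h4
    · rcases c1 h4 with (h5 | h5) | h5
      · exact Or.inl (Or.inl (hK'K h5))
      · exact Or.inl (Or.inr (hT' h5))
      · exact Or.inr h5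
    · exact Or.inl (Or.inl (hDK h4))
  · exact con_spans hKK h.zc (fun h1 => h.zK (hDK h1))
  · exact fun h1 => h.zK (hK'K h1)
  · exact fun h1 => h.zT (hT' h1)
  · intro t ht
    exact con_spans hKK (h.Tc (hT' ht)) (fun h1 => h.TK t (hT' ht) (hDK h1))
  · exact fun t ht h1 => h.TK t (hT' ht) (hK'K h1)

/-- **A link** is an exit of the inner theta. -/
theorem link (h : Tri N K F G H T o₁ o₂ o₃ z) (hz : ZCut N K z F Fo G H) (ho : o₁ ∈ Fo)
    (hc : c ∈ Fo) (hd : d ∈ T) (hco : ¬ Eqv N K d c o₁) (hT' : T' ⊆ T)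
    (hTc : ∀ t ∈ T', ∀ a ∈ Fo, Eqv N K t a o₁) (hdT : d ∉ T') :
    Tri (N ／ (Fo \ {c})) (insert c (K \ Fo)) (insert c (F \ Fo)) G H T' c o₂ o₃ d := by
  have hcne : c ≠ o₁ := fun h1 => hco (Or.inl h1)
  have hcut := hz.cutOff h.th h.zK
  have hDK : Fo \ {c} ⊆ K := fun w hw => hcut.sub hw.1
  have hnF : ∀ g ∈ G ∪ H, g ∉ Fo := by
    rintro g (hg | hg) hgF
    · exact disjoint_left.1 h.th.dFG (hz.sub hgF) hg
    · exact disjoint_left.1 h.th.dFH (hz.sub hgF) hg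
  have n2 := hnF _ (Or.inl h.h2)
  have n3 := hnF _ (Or.inr h.h3)
  have hdK := h.TK d hd
  have hKK : K ⊆ insert c (K \ Fo) ∪ (Fo \ {c}) := by
    intro w hw
    by_cases hwF : w ∈ Fo
    · by_cases hwo : w = c
      · exact Or.inl (Or.inl hwo)
      · exact Or.inr ⟨hwF, hwo⟩
    · exact Or.inl (Or.inr ⟨hw, hwF⟩)
  have hK'K : insert c (K \ Fo) ⊆ K := insert_subset (hcut.sub hc) sdiff_subset
  have hTc' : ∀ t ∈ T', t ∈ N.closure (K \ {c, o₁}) := fun t ht =>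
    (hTc t ht c hc).resolve_left hcne
  have hdc : d ∉ N.closure (K \ {c, o₁}) := fun h1 => hco (Or.inr h1)
  refine ⟨h.th.sub_in hz.sub hc, Or.inl rfl, h.h2, h.h3, ?_, ?_, ?_, ?_, ?_, ?_, ?_⟩
  · exact sub_in_P1 h.p2 hcut hc n2 n3 hT' h.zT
  · exact sub_in_P2 h.p1 h.p2 hcut hc ho hcne n2 n3 hT' hTc' h.zT hd hdK hdc h.th.ground
  · exact con_spans hKK (h.Tc hd) (fun h1 => hdK (hDK h1))
  · exact fun h1 => hdK (hK'K h1)
  · exact hdT
  · intro t ht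
    exact con_spans hKK (h.Tc (hT' ht)) (fun h1 => h.TK t (hT' ht) (hDK h1))
  · exact fun t ht h1 => h.TK t (hT' ht) (hK'K h1)

/-- a link is no loop of the child -/
lemma nonloop (h : Tri N K F G H T o₁ o₂ o₃ z) (hz : ZCut N K z F Fo G H) (hd : d ∈ T)
    (hdF : d ∉ N.closure Fo) : (N ／ (Fo \ {c})).IsNonloop d := by
  have hdK := h.TK d hd
  have hdE : d ∈ (N ／ (Fo \ {c})).E :=
    ⟨N.closure_subset_ground _ (h.Tc hd), fun h1 => hdK (h.th.F_sub (hz.sub h1.1))⟩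
  rw [← Matroid.not_isLoop_iff hdE, Matroid.contract_isLoop_iff_mem_closure]
  rintro ⟨h1, -⟩
  exact hdF (N.closure_subset_closure sdiff_subset h1)

/-- an exit of the child, seen in the parent -/
lemma behind (h : Tri N K F G H T o₁ o₂ o₃ z) (hz : ZCut N K z F Fo G H) (hc : c ∈ Fo) (hd : d ∈ T)
    {a : α} (hall : ∀ C ⊆ insert d (insert c (K \ Fo)), (N ／ (Fo \ {c})).IsCircuit C → d ∈ C →
      a ∈ C ∨ o₂ ∈ C ∨ o₃ ∈ C) (ha : a ∈ F) : d ∉ N.closure (K \ {a, o₂, o₃}) := by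
  intro h1
  have hdK := h.TK d hd
  have hcK : c ∈ K := h.th.F_sub (hz.sub hc)
  have h2 : d ∈ (N ／ (Fo \ {c})).closure (insert c (K \ Fo) \ {a, o₂, o₃}) := by
    refine con_spans ?_ h1 (fun h3 => hdK (h.th.F_sub (hz.sub h3.1)))
    rintro w ⟨hw, hw2⟩
    by_cases hwF : w ∈ Fo
    · by_cases hwc : w = c
      · exact Or.inl ⟨Or.inl hwc, hw2⟩
      · exact Or.inr ⟨hwF, hwc⟩
    · exact Or.inl ⟨Or.inr ⟨hw, hwF⟩, hw2⟩
  have hnd : d ∉ insert c (K \ Fo) \ {a, o₂, o₃} := by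
    rintro ⟨h3 | h3, h4⟩
    · exact hdK (h3 ▸ hcK)
    · exact hdK h3.1
  obtain ⟨C, c1, c2, c3⟩ := exists_cir_of_cl h2 hnd
  have e4 : ∀ b ∈ ({a, o₂, o₃} : Set α), b ∈ K → b ∉ C := by
    intro b hb hbK hbC
    rcases c1 hbC with h9 | h9
    · exact hdK (h9 ▸ hbK)
    · exact h9.2 hb
  rcases hall C (c1.trans (insert_subset_insert sdiff_subset)) c2 c3 with h9 | h9 | h9
  · exact e4 a (Or.inl rfl) (h.th.F_sub ha) h9
  · exact e4 o₂ (Or.inr (Or.inl rfl)) (h.th.G_sub h.h2) h9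
  · exact e4 o₃ (Or.inr (Or.inr rfl)) (h.th.H_sub h.h3) h9

/-- **[SUB-OUT]**: two classes on the outer part -/
lemma two_out (h : Tri N K F G H T o₁ o₂ o₃ z) (hz : ZCut N K z F Fo G H) (ho : o₁ ∈ Fo)
    (hd : d ∈ T) {a : α} (ha : a ∈ F) (haF : a ∉ Fo) (hda : d ∉ N.closure (K \ {a, o₂, o₃}))
    (hx : x ∈ Fo) : Eqv N K d x o₁ ∨ Eqv N K d x a := by
  have hdK := h.TK d hd
  have hFoK : Fo ⊆ K := hz.sub.trans h.th.F_sub
  have hnF : ∀ g ∈ G ∪ H, g ∉ Fo := by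
    rintro g (hg | hg) hgF
    · exact disjoint_left.1 h.th.dFG (hz.sub hgF) hg
    · exact disjoint_left.1 h.th.dFH (hz.sub hgF) hg
  have n2 := hnF _ (Or.inl h.h2)
  have n3 := hnF _ (Or.inr h.h3)
  have haK : a ∈ K := h.th.F_sub ha
  have hpar := h.th.sub_out_par hz.sub ha haF ho h.zK hz.c1 hz.c2
  have hcir := h.th.sub_out hz.sub ha h.h2
  have hzc : z ∈ N.closure Fo := by
    have := hz.c1.mem_closure_sdiff_singleton_of_mem (Or.inl rfl)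
    rwa [insert_sdiff_self_of_notMem (fun h1 => h.zK (hFoK h1))] at this
  have hPP : PP (N ／ (K \ insert a Fo)) (insert a Fo) ∅ o₁ a d :=
    sub_out h.p2 hFoK h.zK sdiff_subset haK hpar ho haF n2 n3 hzc (empty_subset _)
      (fun t ht => absurd ht (notMem_empty _)) h.zT hd hdK hda h.th.ground
  have hins : insert a Fo ⊆ K := insert_subset haK hFoK
  have hKK : K = insert a Fo ∪ (K \ insert a Fo) := (union_sdiff_cancel hins).symm
  have hdn : d ∉ K \ insert a Fo := fun h1 => hdK h1.1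
  have h1 := two_of_PP hcir (con_spans hKK.le (h.Tc hd) hdn) (fun h1 => hdK (hins h1)) (o₁ := o₁)
    (o₂ := a) (fun C c1 c2 c3 c4 c5 => hPP C (by
      intro w hw
      rcases c1 hw with h2 | h2
      · exact Or.inr h2
      · exact Or.inl (Or.inl h2)) c2 c3 c4 c5) (Or.inr hx)
  rwa [con_eqv hKK disjoint_sdiff_right (Or.inr hx) (Or.inr ho) hdn,
    con_eqv hKK disjoint_sdiff_right (Or.inr hx) (Or.inl rfl) hdn] at h1

end Tri

/-! ### classes of a link -/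

/-- remove a class from a spanning set -/
lemma Theta.drop (h : Theta N K F G H) (hc : c ∈ F) (hy : y ∈ G) {S R : Set α} (hdK : d ∉ K)
    (hS : S ⊆ K \ {c, y}) (hd : d ∈ N.closure S) (hR : ∀ a ∈ R, a ∈ F ∧ Eqv N K d a c) :
    d ∈ N.closure (S \ R) := by
  have hI := h.iFG c hc y hy
  have hdI : d ∈ N.closure (K \ {c, y}) := N.closure_subset_closure hS hd
  have hdn : d ∉ K \ {c, y} := fun h1 => hdK h1.1
  have hfc := hI.fundCircuit_isCircuit hdI hdn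
  have hdm := N.mem_fundCircuit d (K \ {c, y})
  obtain ⟨C, c1, c2, c3⟩ := exists_cir_of_cl hd (fun h1 => hdn (hS h1))
  have h1 : C = N.fundCircuit d (K \ {c, y}) := circ_unique hI c2 hfc
    (c1.trans (insert_subset_insert hS)) (N.fundCircuit_subset_insert _ _)
  have h2 := c2.mem_closure_sdiff_singleton_of_mem c3
  refine N.closure_subset_closure ?_ h2
  rintro e ⟨he, hed⟩
  have heS : e ∈ S := (c1 he).resolve_left hed
  refine ⟨heS, fun heR => ?_⟩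
  obtain ⟨heF, hec⟩ := hR e heR
  have heI := hS heS
  have hne : e ≠ c := fun h3 => heI.2 (Or.inl h3)
  rw [h1, mem_fund_iff hI hdI hdn heI] at he
  refine he ?_
  have h3 : K \ {e, c} ⊆ insert y ((K \ {c, y}) \ {e}) := by
    rintro w ⟨hw, hw2⟩
    by_cases hwy : w = y
    · exact Or.inl hwy
    · refine Or.inr ⟨⟨hw, ?_⟩, fun h4 => hw2 (Or.inl h4)⟩
      rintro (h4 | h4)
      · exact hw2 (Or.inr h4)
      · exact hwy h4
  refine h.cl_insert hy (sdiff_subset.trans sdiff_subset) ?_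
    (N.closure_subset_closure h3 (hec.resolve_left hne))
  intro f hf hfy
  have hfF : f ∉ F := by
    rcases hf with hf | hf
    · exact fun h4 => disjoint_left.1 h.dFG h4 hf
    · exact fun h4 => disjoint_left.1 h.dFH h4 hf
  refine ⟨⟨?_, ?_⟩, fun h4 => hfF ((mem_singleton_iff.1 h4) ▸ heF)⟩
  · rcases hf with hf | hf
    · exact h.G_sub hf
    · exact h.H_sub hf
  · rintro (h4 | h4)
    · exact hfF (h4 ▸ hc)
    · exact hfy h4

/-- exchange an element of a triple by an equivalent one -/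
lemma Theta.move (h : Theta N K F G H) (hx : x ∈ F) (he : e ∈ F) (hy : y ∈ G) (hdK : d ∉ K)
    (hd : d ∈ N.closure (K \ {x, y, w})) (hex : Eqv N K d e x) :
    d ∈ N.closure (K \ {e, y, w}) := by
  have h1 := h.drop (R := {e}) hx hy hdK (S := K \ {x, y, w}) (by
    rintro v ⟨hv, hv2⟩
    refine ⟨hv, ?_⟩
    rintro (h4 | h4)
    · exact hv2 (Or.inl h4)
    · exact hv2 (Or.inr (Or.inl h4))) hd (by
      rintro a ha
      rw [mem_singleton_iff.1 ha]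
      exact ⟨he, hex⟩)
  refine N.closure_subset_closure ?_ h1
  rintro v ⟨⟨hv, hv2⟩, hv3⟩
  refine ⟨hv, ?_⟩
  rintro (h4 | h4)
  · exact hv3 h4
  · exact hv2 (Or.inr h4)

/-! ### links and pairs of legs -/

/-- Classes of a link of the exit at `Fo`, in the form needed for the pair of the legs `F`, `G`
(the end `o₃` of the third leg is the chord). -/
structure LinkCls (N : Matroid α) (K F G Fo : Set α) (o₁ o₂ o₃ t : α) : Prop where
  a1 : ∀ x ∈ F, Eqv N K t x o₁ → x ∈ Fo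
  a2 : ∀ x ∈ F, ∀ y ∈ F, ¬ Eqv N K t x o₁ → ¬ Eqv N K t y o₁ → Eqv N K t x y
  a3 : ∀ a ∈ F, a ∉ Fo → t ∉ N.closure (K \ {a, o₂, o₃})
  a4 : ∀ x ∈ G, ∀ y ∈ G, ¬ Eqv N K t x o₂ → ¬ Eqv N K t y o₂ → Eqv N K t x y
  a5 : ∀ x ∈ F, ∀ y ∈ G, ¬ Eqv N K t x o₁ → ¬ Eqv N K t y o₂ → t ∈ N.closure (K \ {x, y, o₃})

/-- a near link: the second place is in the leg `G` -/
structure NearLk (N : Matroid α) (K F G H Fo : Set α) (o₁ o₂ o₃ t : α) : Prop where
  a1 : ∀ x ∈ F, Eqv N K t x o₁ → x ∈ Fo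
  a2 : ∀ x ∈ F, ∀ y ∈ F, ¬ Eqv N K t x o₁ → ¬ Eqv N K t y o₁ → Eqv N K t x y
  a3 : ∀ a ∈ F, a ∉ Fo → t ∉ N.closure (K \ {a, o₂, o₃})
  b1 : ∃ x ∈ G, ¬ Eqv N K t x o₂
  b2 : ∀ x ∈ G, ∀ y ∈ G, ¬ Eqv N K t x o₂ → ¬ Eqv N K t y o₂ → Eqv N K t x y
  b3 : ∀ x ∈ H, Eqv N K t x o₃
  b4 : ∀ x ∈ F, ∀ y ∈ G, ∀ w ∈ H, ¬ Eqv N K t x o₁ → ¬ Eqv N K t y o₂ →
    t ∈ N.closure (K \ {x, y, w})

lemma NearLk.cls (h3 : o₃ ∈ H) (h : NearLk N K F G H Fo o₁ o₂ o₃ t) :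
    LinkCls N K F G Fo o₁ o₂ o₃ t :=
  ⟨h.a1, h.a2, h.a3, h.b2, fun x hx y hy h1 h2 => h.b4 x hx y hy o₃ h3 h1 h2⟩

lemma NearLk.cls' (h : NearLk N K F G H Fo o₁ o₂ o₃ t) :
    LinkCls N K F H Fo o₁ o₃ o₂ t :=
  ⟨h.a1, h.a2, fun a ha ha' h1 => h.a3 a ha ha' (by rwa [pair_comm o₂ o₃]),
    fun x hx _ _ h1 _ => absurd (h.b3 x hx) h1, fun _ _ y hy _ h1 => absurd (h.b3 y hy) h1⟩

namespace Tri

/-- **A near link**: an exit of the child which cuts the leg `G`. -/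
theorem nearLk (h : Tri N K F G H T o₁ o₂ o₃ z) (hz : ZCut N K z F Fo G H) (ho : o₁ ∈ Fo)
    (hc : c ∈ Fo) (hd : d ∈ T) (hco : ¬ Eqv N K d c o₁) {G₁ : Set α}
    (hk : ZCut (N ／ (Fo \ {c})) (insert c (K \ Fo)) d G G₁ (insert c (F \ Fo)) H)
    (h2 : o₂ ∈ G₁) (hG : ∃ y ∈ G, y ∉ G₁) (hne : ∃ a ∈ F, a ∉ Fo) :
    NearLk N K F G H Fo o₁ o₂ o₃ d := by
  have hdK := h.TK d hd
  have hcF := hz.sub hc
  have hFoK : Fo ⊆ K := hz.sub.trans h.th.F_sub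
  have hdFo : d ∉ Fo := fun h1 => hdK (hFoK h1)
  have hdK' : d ∉ insert c (K \ Fo) := by
    rintro (h1 | h1)
    · exact hdK (h1 ▸ hFoK hc)
    · exact hdK h1.1
  have th' := h.th.sub_in hz.sub hc
  have hnG : ∀ g ∈ G, g ∉ Fo := fun g hg hgF => disjoint_left.1 h.th.dFG (hz.sub hgF) hg
  have hnH : ∀ g ∈ H, g ∉ Fo := fun g hg hgF => disjoint_left.1 h.th.dFH (hz.sub hgF) hg
  have mG : ∀ g ∈ G, g ∈ insert c (K \ Fo) := fun g hg => Or.inr ⟨h.th.G_sub hg, hnG g hg⟩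
  have mH : ∀ g ∈ H, g ∈ insert c (K \ Fo) := fun g hg => Or.inr ⟨h.th.H_sub hg, hnH g hg⟩
  have mF : ∀ g ∈ F, g ∉ Fo → g ∈ insert c (K \ Fo) := fun g hg hgF =>
    Or.inr ⟨h.th.F_sub hg, hgF⟩
  have a3 : ∀ a ∈ F, a ∉ Fo → d ∉ N.closure (K \ {a, o₂, o₃}) := by
    intro a ha haF
    refine h.behind hz hc hd ?_ ha
    intro C c1 c2 c3
    rcases hk.all C c1 c2 c3 with h4 | h4 | h4
    · exact Or.inr (Or.inl (h4 ▸ Or.inr h2))
    · exact Or.inl (h4 ▸ Or.inr (Or.inr (Or.inr ⟨ha, haF⟩)))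
    · exact Or.inr (Or.inr (h4 ▸ Or.inr (Or.inr h.h3)))
  -- the rest of `F` is in the class of `c`
  have inn : ∀ x ∈ F, x ∉ Fo → Eqv N K d x c := by
    intro x hx hxF
    rw [← sub_eqv hFoK hc hdFo (mF x hx hxF) (Or.inl rfl)]
    exact hk.cls_Y th'.swap' (Or.inr ⟨hx, hxF⟩) (Or.inl rfl)
  have a1 : ∀ x ∈ F, Eqv N K d x o₁ → x ∈ Fo := by
    intro x hx h1
    by_contra hxF
    exact hco (h.th.trans h.h2 hcF hx h.h1 (inn x hx hxF).symm h1)
  obtain ⟨a, ha, haF⟩ := hne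
  have two : ∀ x ∈ Fo, Eqv N K d x o₁ ∨ Eqv N K d x a := fun x hx =>
    h.two_out hz ho hd ha haF (a3 a ha haF) hx
  have key : ∀ x ∈ F, ¬ Eqv N K d x o₁ → Eqv N K d x a := by
    intro x hx h1
    by_cases hxF : x ∈ Fo
    · exact (two x hxF).resolve_left h1
    · exact h.th.trans h.h2 hx hcF ha (inn x hx hxF) (inn a ha haF).symm
  have clsG : ∀ x ∈ G, ∀ y ∈ G, (Eqv N K d x y ↔ (x ∈ G₁ ↔ y ∈ G₁)) := by
    intro x hx y hy
    rw [← sub_eqv hFoK hc hdFo (mG x hx) (mG y hy)]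
    exact hk.cls_X th'.swap' hdK' hx hy
  have clsH : ∀ x ∈ H, ∀ y ∈ H, Eqv N K d x y := by
    intro x hx y hy
    rw [← sub_eqv hFoK hc hdFo (mH x hx) (mH y hy)]
    exact hk.cls_W th'.swap' hx hy
  have nG : ∀ y ∈ G, ¬ Eqv N K d y o₂ → y ∉ G₁ := by
    intro y hy h1 h3
    exact h1 ((clsG y hy o₂ h.h2).2 ⟨fun _ => h2, fun _ => h3⟩)
  obtain ⟨y₀, hy₀, hy₀G⟩ := hG
  -- the closure
  have hcl : d ∈ N.closure ({x | x ∈ F ∧ Eqv N K d x o₁} ∪ G₁) := by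
    have e1 : d ∈ (N ／ (Fo \ {c})).closure G₁ := by
      have := hk.c1.mem_closure_sdiff_singleton_of_mem (Or.inl rfl)
      rwa [insert_sdiff_self_of_notMem (fun h1 => hdK (h.th.G_sub (hk.sub h1)))] at this
    rw [Matroid.contract_closure_eq] at e1
    have e2 := h.th.drop (R := {x | x ∈ F ∧ Eqv N K d x c}) hcF hy₀ hdK (S := G₁ ∪ Fo \ {c}) (by
      rintro v (hv | hv)
      · refine ⟨h.th.G_sub (hk.sub hv), ?_⟩
        rintro (h4 | h4)
        · exact disjoint_left.1 h.th.dFG hcF (h4 ▸ hk.sub hv)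
        · exact hy₀G (h4 ▸ hv)
      · refine ⟨hFoK hv.1, ?_⟩
        rintro (h4 | h4)
        · exact hv.2 h4
        · exact hnG y₀ hy₀ (h4 ▸ hv.1)) e1.1 (fun a ha => ha)
    refine N.closure_subset_closure ?_ e2
    rintro v ⟨hv | hv, hv2⟩
    · exact Or.inr hv
    · refine Or.inl ⟨hz.sub hv.1, ?_⟩
      rcases two v hv.1 with h4 | h4
      · exact h4
      · exact absurd ⟨hz.sub hv.1, h.th.trans h.h2 (hz.sub hv.1) ha hcF h4 (inn a ha haF)⟩ hv2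
  refine ⟨a1, ?_, a3, ⟨y₀, hy₀, ?_⟩, ?_, fun x hx => clsH x hx o₃ h.h3, ?_⟩
  · intro x hx y hy h1 h4
    exact h.th.trans h.h2 hx ha hy (key x hx h1) (key y hy h4).symm
  · intro h1
    exact hy₀G (((clsG y₀ hy₀ o₂ h.h2).1 h1).2 h2)
  · intro x hx y hy h1 h4
    exact (clsG x hx y hy).2 ⟨fun h5 => absurd h5 (nG x hx h1), fun h5 => absurd h5 (nG y hy h4)⟩
  · intro x hx y hy w hw h1 h4
    refine N.closure_subset_closure ?_ hcl
    rintro v (hv | hv)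
    · refine ⟨h.th.F_sub hv.1, ?_⟩
      rintro (h5 | h5 | h5)
      · exact h1 (h5 ▸ hv.2)
      · exact disjoint_left.1 h.th.dFG hv.1 (h5 ▸ hy)
      · exact disjoint_left.1 h.th.dFH hv.1 ((mem_singleton_iff.1 h5) ▸ hw)
    · refine ⟨h.th.G_sub (hk.sub hv), ?_⟩
      rintro (h5 | h5 | h5)
      · exact disjoint_left.1 h.th.dFG hx (h5 ▸ hk.sub hv)
      · exact nG y hy h4 (h5 ▸ hv)
      · exact disjoint_left.1 h.th.dGH (hk.sub hv) ((mem_singleton_iff.1 h5) ▸ hw)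

end Tri

end TST
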