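import Pool.Agent.TST.StarStepDef
import Pool.Agent.TST.StarNode

/-!
# One star system (CLAIM A of T-star, STAR SPLIT; helper64)

The node lemma `Tri.node` and its form for the witnesses `TWit`: the cut of the exit, the two
children (`old` exit and `link`).
-/

set_option autoImplicit false

open Set
open scoped Matroid

namespace TST

variable {α : Type*} {N : Matroid α} {K F G H Fo T T' : Set α} {z x y e c d t w o₁ o₂ o₃ : α}

lemma ZCut.swap {X X₁ Y W : Set α} (h : ZCut N K z X X₁ Y W) : ZCut N K z X X₁ W Y where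
  sub := h.sub
  c1 := h.c1
  c2 := h.c3
  c3 := h.c2
  all := fun C h1 h2 h3 => (h.all C h1 h2 h3).imp id Or.symm

/-- an element which is spanned by the outer part -/
lemma eqv_of_cl (hFo : Fo ⊆ K) (hd : d ∈ N.closure Fo) (hx : x ∉ Fo) (hy : y ∉ Fo) :
    Eqv N K d x y := by
  right
  refine N.closure_subset_closure ?_ hd
  intro v hv
  refine ⟨hFo hv, ?_⟩
  rintro (h3 | h3)
  · exact hx (h3 ▸ hv)
  · exact hy ((mem_singleton_iff.1 h3) ▸ hv)

/-- **Node lemma.** -/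
theorem Tri.node (h : Tri N K F G H T o₁ o₂ o₃ z) (hz : ZCut N K z F Fo G H) (ho : o₁ ∈ Fo)
    (hne : ∃ a ∈ F, a ∉ Fo) (hd : d ∈ T) :
    (∀ x ∈ Fo, Eqv N K d x o₁) ∨ d ∈ N.closure Fo ∨
      (d ∉ N.closure Fo ∧ (NearLk N K F G H Fo o₁ o₂ o₃ d ∨ NearLk N K F H G Fo o₁ o₃ o₂ d ∨
          (∀ x ∈ G, Eqv N K d x o₂) ∧ ∀ x ∈ H, Eqv N K d x o₃)) := by
  by_cases h1 : ∀ x ∈ Fo, Eqv N K d x o₁
  · exact Or.inl h1
  by_cases hcl : d ∈ N.closure Fo
  · exact Or.inr (Or.inl hcl)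
  refine Or.inr (Or.inr ⟨hcl, ?_⟩)
  push Not at h1
  obtain ⟨c, hc, hco⟩ := h1
  have hch := h.link (T' := ∅) hz ho hc hd hco (empty_subset _)
    (fun t ht => absurd ht (notMem_empty _)) (notMem_empty _)
  have hdK := h.TK d hd
  have hFoK : Fo ⊆ K := hz.sub.trans h.th.F_sub
  have hdFo : d ∉ Fo := fun h1 => hdK (hFoK h1)
  have hnG : ∀ g ∈ G, g ∉ Fo := fun g hg hgF => disjoint_left.1 h.th.dFG (hz.sub hgF) hg
  have hnH : ∀ g ∈ H, g ∉ Fo := fun g hg hgF => disjoint_left.1 h.th.dFH (hz.sub hgF) hg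
  have mG : ∀ g ∈ G, g ∈ insert c (K \ Fo) := fun g hg => Or.inr ⟨h.th.G_sub hg, hnG g hg⟩
  have mH : ∀ g ∈ H, g ∈ insert c (K \ Fo) := fun g hg => Or.inr ⟨h.th.H_sub hg, hnH g hg⟩
  have cG : (∀ x ∈ G, Eqv (N ／ (Fo \ {c})) (insert c (K \ Fo)) d x o₂) → ∀ x ∈ G, Eqv N K d x o₂ :=
    fun h1 x hx => (sub_eqv hFoK hc hdFo (mG x hx) (mG _ h.h2)).1 (h1 x hx)
  have cH : (∀ x ∈ H, Eqv (N ／ (Fo \ {c})) (insert c (K \ Fo)) d x o₃) → ∀ x ∈ H, Eqv N K d x o₃ :=
    fun h1 x hx => (sub_eqv hFoK hc hdFo (mH x hx) (mH _ h.h3)).1 (h1 x hx)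
  rcases hch.cut (h.nonloop hz hd hcl) with ⟨X, hX, hk⟩ | ⟨X, hX, hk⟩ | ⟨X, hX, hk⟩
  · exact Or.inr (Or.inr ⟨cG fun x hx => hk.cls_Y hch.th hx h.h2,
      cH fun x hx => hk.cls_W hch.th hx h.h3⟩)
  · by_cases hG : ∃ y ∈ G, y ∉ X
    · exact Or.inl (h.nearLk hz ho hc hd hco hk hX hG hne)
    · push Not at hG
      refine Or.inr (Or.inr ⟨cG fun x hx => ?_, cH fun x hx => hk.cls_W hch.th.swap' hx h.h3⟩)
      exact (hk.cls_X hch.th.swap' hch.zK hx h.h2).2 ⟨fun _ => hX, fun _ => hG x hx⟩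
  · by_cases hH : ∃ y ∈ H, y ∉ X
    · exact Or.inr (Or.inl (h.swap.nearLk hz.swap ho hc hd hco hk hX hH hne))
    · push Not at hH
      refine Or.inr (Or.inr ⟨cG fun x hx => hk.cls_W hch.th.swap.swap' hx h.h2, cH fun x hx => ?_⟩)
      exact (hk.cls_X hch.th.swap.swap' hch.zK hx h.h3).2 ⟨fun _ => hX, fun _ => hH x hx⟩

/-! ### the three legs -/

lemma Theta.perm {f : Fin 3 → Set α} (h : Theta N K (f 0) (f 1) (f 2)) {i j k : Fin 3}
    (hij : i ≠ j) (hik : i ≠ k) (hjk : j ≠ k) : Theta N K (f i) (f j) (f k) := by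
  fin_cases i <;> fin_cases j <;> fin_cases k <;>
    first
    | exact absurd rfl hij
    | exact absurd rfl hik
    | exact absurd rfl hjk
    | exact h
    | exact h.swap
    | exact h.swap'
    | exact h.swap.swap'
    | exact h.swap'.swap
    | exact h.swap.swap'.swap

lemma Theta.unperm {f : Fin 3 → Set α} {i j k : Fin 3} (h : Theta N K (f i) (f j) (f k))
    (hij : i ≠ j) (hik : i ≠ k) (hjk : j ≠ k) : Theta N K (f 0) (f 1) (f 2) := by
  fin_cases i <;> fin_cases j <;> fin_cases k <;>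
    first
    | exact absurd rfl hij
    | exact absurd rfl hik
    | exact absurd rfl hjk
    | exact h
    | exact h.swap
    | exact h.swap'
    | exact h.swap.swap'
    | exact h.swap'.swap
    | exact h.swap.swap'.swap

lemma fin3 {i j k : Fin 3} (hij : i ≠ j) (hik : i ≠ k) (hjk : j ≠ k) (l : Fin 3) :
    l = i ∨ l = j ∨ l = k := by
  revert i j k l
  decide

lemma fin3_ex : ∀ l : Fin 3, ∃ j k : Fin 3, l ≠ j ∧ l ≠ k ∧ j ≠ k := by
  decide

variable {X : Fin 3 → Set α} {o : Fin 3 → α} {i j k : Fin 3}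

/-- the three legs in one order -/
lemma TSys.tri (h : TSys N X o T z) (hij : i ≠ j) (hik : i ≠ k) (hjk : j ≠ k) :
    Tri N (TK X o) (leg X o i) (leg X o j) (leg X o k) T (o i) (o j) (o k) z where
  th := Theta.perm (f := leg X o) h.th hij hik hjk
  h1 := Or.inl rfl
  h2 := Or.inl rfl
  h3 := Or.inl rfl
  p1 := by
    intro C h1 h2 h3 h4 h5
    refine h.p1 C h1 h2 fun l => ?_
    rcases fin3 hij hik hjk l with rfl | rfl | rfl
    exacts [h3, h4, h5]
  p2 := by
    intro C h1 h2 h3 h4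
    rcases h4 with h4 | h4 | h4
    · exact h.p2 C h1 h2 h3 i j hij h4.1 h4.2
    · exact h.p2 C h1 h2 h3 i k hik h4.1 h4.2
    · exact h.p2 C h1 h2 h3 j k hjk h4.1 h4.2
  zc := h.zcl
  zK := h.zK
  zT := h.zT
  Tc := h.Tcl
  TK := fun t ht h1 => disjoint_left.1 h.dT ht h1

/-- the converse -/
lemma tsys_of_tri (h : Tri N (TK X o) (leg X o i) (leg X o j) (leg X o k) T (o i) (o j) (o k) z)
    (hij : i ≠ j) (hik : i ≠ k) (hjk : j ≠ k) (hoX : ∀ l, o l ∉ X l) : TSys N X o T z where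
  th := Theta.unperm (f := leg X o) h.th hij hik hjk
  oX := hoX
  Tcl := h.Tc
  dT := disjoint_left.2 fun t ht => h.TK t ht
  zcl := h.zc
  zK := h.zK
  zT := h.zT
  p1 := fun C h1 h2 h3 => h.p1 C h1 h2 (h3 i) (h3 j) (h3 k)
  p2 := by
    intro C h1 h2 h3 a b hab ha hb
    refine h.p2 C h1 h2 h3 ?_
    rcases fin3 hij hik hjk a with rfl | rfl | rfl <;> rcases fin3 hij hik hjk b with rfl | rfl | rfl
    · exact absurd rfl hab
    · exact Or.inl ⟨ha, hb⟩
    · exact Or.inr (Or.inl ⟨ha, hb⟩)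
    · exact Or.inl ⟨hb, ha⟩
    · exact absurd rfl hab
    · exact Or.inr (Or.inr ⟨ha, hb⟩)
    · exact Or.inr (Or.inl ⟨hb, ha⟩)
    · exact Or.inr (Or.inr ⟨hb, ha⟩)
    · exact absurd rfl hab

/-- transitivity on a leg -/
lemma TSys.trans (h : TSys N X o T z) {l : Fin 3} {a b e' : α} (ha : a ∈ leg X o l)
    (hb : b ∈ leg X o l) (hc : e' ∈ leg X o l) (h1 : Eqv N (TK X o) t a b)
    (h2 : Eqv N (TK X o) t b e') : Eqv N (TK X o) t a e' := by
  obtain ⟨j, k, h3, h4, h5⟩ := fin3_ex l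
  exact (Theta.perm (f := leg X o) h.th h3 h4 h5).trans (y := o j) (Or.inl rfl) ha hb hc h1 h2

lemma leg_sub (l : Fin 3) : leg X o l ⊆ TK X o := by
  fin_cases l
  · exact fun _ h => Or.inl (Or.inl h)
  · exact fun _ h => Or.inl (Or.inr h)
  · exact fun _ h => Or.inr h

/-- **The cut of the exit.** -/
theorem TSys.zcut (h : TSys N X o T z) {A : Fin 3 → Set α}
    (hA : ∀ i, ∀ x ∈ X i, (Eqv N (TK X o) z (o i) x ↔ x ∈ A i)) (hx : ∃ x ∈ X i, x ∉ A i)
    (hij : i ≠ j) (hik : i ≠ k) (hjk : j ≠ k) : N.IsNonloop z ∧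
      ZCut N (TK X o) z (leg X o i) (insert (o i) (X i ∩ A i)) (leg X o j) (leg X o k) ∧
      ∀ l, l ≠ i → ∀ y ∈ X l, y ∈ A l := by
  obtain ⟨x, hx, hxA⟩ := hx
  have hl : N.IsNonloop z := by
    rw [← Matroid.not_isLoop_iff (N.closure_subset_ground _ h.zcl)]
    intro h1
    exact hxA ((hA i x hx).1 (Or.inr (h1.mem_closure _)))
  have T := h.tri hij hik hjk
  have hn : ¬ Eqv N (TK X o) z (o i) x := fun h1 => hxA ((hA i x hx).1 h1)
  rcases T.cut hl with ⟨X₁, h1, hz⟩ | ⟨X₁, h1, hz⟩ | ⟨X₁, h1, hz⟩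
  · have h2 : X₁ = insert (o i) (X i ∩ A i) := by
      ext v
      constructor
      · intro hv
        rcases hz.sub hv with h3 | h3
        · exact Or.inl h3
        · refine Or.inr ⟨h3, (hA i v h3).1 ?_⟩
          exact (hz.cls_X T.th h.zK (Or.inl rfl) (Or.inr h3)).2 ⟨fun _ => hv, fun _ => h1⟩
      · rintro (h3 | ⟨h3, h4⟩)
        · exact h3 ▸ h1
        · exact ((hz.cls_X T.th h.zK (Or.inl rfl) (Or.inr h3)).1 ((hA i v h3).2 h4)).1 h1
    rw [h2] at hz
    refine ⟨hl, hz, ?_⟩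
    intro l hli y hy
    rcases fin3 hij hik hjk l with rfl | rfl | rfl
    · exact absurd rfl hli
    · exact (hA l y hy).1 (hz.cls_Y T.th (Or.inl rfl) (Or.inr hy))
    · exact (hA l y hy).1 (hz.cls_W T.th (Or.inl rfl) (Or.inr hy))
  · exact absurd (hz.cls_Y T.th.swap' (Or.inl rfl) (Or.inr hx)) hn
  · exact absurd (hz.cls_Y T.th.swap.swap' (Or.inl rfl) (Or.inr hx)) hn

/-! ### the child -/

lemma mem_TK {v : α} : v ∈ TK X o ↔ ∃ l, v = o l ∨ v ∈ X l := by
  constructor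
  · rintro ((h | h) | h)
    exacts [⟨0, h⟩, ⟨1, h⟩, ⟨2, h⟩]
  · rintro ⟨l, h⟩
    exact leg_sub l h

/-- the outer part -/
abbrev outP (X : Fin 3 → Set α) (o : Fin 3 → α) (i : Fin 3) (Y : Set α) : Set α :=
  insert (o i) (X i ∩ Y)

variable {Y : Set α}

lemma outP_sub : outP X o i Y ⊆ leg X o i := fun _ h => h.imp id And.left

lemma TSys.dis (h : TSys N X o T z) {l m : Fin 3} (hlm : l ≠ m) {v : α} (h1 : v ∈ leg X o l)
    (h2 : v ∈ leg X o m) : False := by
  obtain ⟨k, hk⟩ : ∃ k : Fin 3, l ≠ k ∧ m ≠ k := by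
    have : ∀ l m : Fin 3, ∃ k : Fin 3, l ≠ k ∧ m ≠ k := by decide
    exact this l m
  exact disjoint_left.1 (Theta.perm (f := leg X o) h.th hlm hk.1 hk.2).dFG h1 h2

lemma leg_child_i (h : TSys N X o T z) :
    leg (Function.update X i (X i \ Y)) (Function.update o i c) i =
      insert c (leg X o i \ outP X o i Y) := by
  have := h.oX i
  ext v
  simp only [Function.update_self, mem_insert_iff, mem_sdiff, mem_inter_iff, not_or, not_and]
  constructor
  · rintro (h1 | h1)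
    · exact Or.inl h1
    · exact Or.inr ⟨Or.inr h1.1, fun h2 => this (h2 ▸ h1.1), fun _ => h1.2⟩
  · rintro (h1 | ⟨h1 | h1, h2⟩)
    · exact Or.inl h1
    · exact absurd h1 h2.1
    · exact Or.inr ⟨h1, h2.2 h1⟩

lemma leg_child_j {l : Fin 3} (hl : l ≠ i) :
    leg (Function.update X i (X i \ Y)) (Function.update o i c) l = leg X o l := by
  simp only [leg, Function.update_of_ne hl]

lemma TK_child (h : TSys N X o T z) (hc : c ∈ outP X o i Y) :
    TK (Function.update X i (X i \ Y)) (Function.update o i c) =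
      insert c (TK X o \ outP X o i Y) := by
  obtain ⟨j, k, hij, hik, hjk⟩ := fin3_ex i
  have h1 : ∀ (X' : Fin 3 → Set α) (o' : Fin 3 → α),
      TK X' o' = leg X' o' i ∪ leg X' o' j ∪ leg X' o' k := by
    intro X' o'
    ext v
    constructor
    · intro hv
      obtain ⟨l, hl⟩ := mem_TK.1 hv
      rcases fin3 hij hik hjk l with rfl | rfl | rfl
      exacts [Or.inl (Or.inl hl), Or.inl (Or.inr hl), Or.inr hl]
    · rintro ((hv | hv) | hv)
      exacts [leg_sub _ hv, leg_sub _ hv, leg_sub _ hv]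
  rw [h1, leg_child_i h, leg_child_j hij.symm, leg_child_j hik.symm, h1 X o]
  ext v
  constructor
  · rintro (((hv | hv) | hv) | hv)
    · exact Or.inl hv
    · exact Or.inr ⟨Or.inl (Or.inl hv.1), hv.2⟩
    · exact Or.inr ⟨Or.inl (Or.inr hv), fun h2 => h.dis hij (outP_sub h2) hv⟩
    · exact Or.inr ⟨Or.inr hv, fun h2 => h.dis hik (outP_sub h2) hv⟩
  · rintro (hv | ⟨(hv | hv) | hv, hv2⟩)
    · exact Or.inl (Or.inl (Or.inl hv))
    · exact Or.inl (Or.inl (Or.inr ⟨hv, hv2⟩))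
    · exact Or.inl (Or.inr hv)
    · exact Or.inr hv

/-- the system of the child, from the three legs -/
lemma TSys.child (h : TSys N X o T z) (hc : c ∈ outP X o i Y) (hij : i ≠ j) (hik : i ≠ k)
    (hjk : j ≠ k) (hch : Tri (N ／ (outP X o i Y \ {c})) (insert c (TK X o \ outP X o i Y))
      (insert c (leg X o i \ outP X o i Y)) (leg X o j) (leg X o k) T' c (o j) (o k) d) :
    TSys (N ／ (outP X o i Y \ {c})) (Function.update X i (X i \ Y)) (Function.update o i c) T' d := by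
  have e1 : Function.update o i c i = c := Function.update_self ..
  have e2 : Function.update o i c j = o j := Function.update_of_ne hij.symm ..
  have e3 : Function.update o i c k = o k := Function.update_of_ne hik.symm ..
  refine tsys_of_tri (i := i) (j := j) (k := k) ?_ hij hik hjk ?_
  · rw [TK_child h hc, leg_child_i h, leg_child_j hij.symm, leg_child_j hik.symm, e1, e2, e3]
    exact hch
  · intro l
    by_cases hl : l = i
    · subst hl
      rw [Function.update_self, Function.update_self]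
      rintro ⟨h1, h2⟩
      rcases hc with h3 | h3
      · exact h.oX l (h3 ▸ h1)
      · exact h2 h3.2
    · rw [Function.update_of_ne hl, Function.update_of_ne hl]
      exact h.oX l

variable {E : α → α → α → Prop} {O A A' : α → Fin 3 → Set α} {B : α → α → α → α → Prop}

/-- the relations of the child -/
lemma TSys.child_wit (h : TSys N X o T w)
    (hE : ∀ t ∈ insert w T, ∀ i, ∀ x ∈ X i, ∀ y ∈ X i, (Eqv N (TK X o) t x y ↔ E t x y))
    (hO : ∀ t ∈ T, ∀ i, ∀ x ∈ X i, (Eqv N (TK X o) t (o i) x ↔ x ∈ O t i))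
    (hB : ∀ t ∈ T, ∀ x ∈ X 0, ∀ y ∈ X 1, ∀ w ∈ X 2,
      (t ∈ N.closure (TK X o \ {x, y, w}) ↔ B t x y w))
    (hc : c ∈ outP X o i Y) (hT' : T' ⊆ T)
    (hco : ∀ t ∈ T', Eqv N (TK X o) t c (o i)) (hd : d ∈ insert w T)
    (hsys : TSys (N ／ (outP X o i Y \ {c})) (Function.update X i (X i \ Y))
      (Function.update o i c) T' d)
    (hA' : ∀ l, ∀ x ∈ Function.update X i (X i \ Y) l,
      (Eqv N (TK X o) d (Function.update o i c l) x ↔ x ∈ A' d l)) :
    TWit E O A' B (Function.update X i (X i \ Y)) T' d := by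
  have hTK := TK_child h hc
  have hFoK : outP X o i Y ⊆ TK X o := outP_sub.trans (leg_sub i)
  have hnot : ∀ t ∈ insert w T, t ∉ outP X o i Y := by
    rintro t (ht | ht) h1
    · exact h.zK (ht ▸ hFoK h1)
    · exact disjoint_left.1 h.dT ht (hFoK h1)
  have hsub : ∀ l, Function.update X i (X i \ Y) l ⊆ X l := by
    intro l
    by_cases hl : l = i
    · subst hl
      rw [Function.update_self]
      exact sdiff_subset
    · rw [Function.update_of_ne hl]
  have hmem : ∀ l, ∀ x ∈ Function.update X i (X i \ Y) l, x ∈ insert c (TK X o \ outP X o i Y) := by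
    intro l x hx
    rw [← hTK]
    exact leg_sub l (Or.inr hx)
  have hmo : ∀ l, Function.update o i c l ∈ insert c (TK X o \ outP X o i Y) := by
    intro l
    rw [← hTK]
    exact leg_sub l (Or.inl rfl)
  have hdT : insert d T' ⊆ insert w T := by
    rintro t (ht | ht)
    · exact ht ▸ hd
    · exact Or.inr (hT' ht)
  refine ⟨_, _, hsys, ?_, ?_, ?_, ?_⟩
  · intro t ht l x hx y hy
    rw [hTK, sub_eqv hFoK hc (hnot t (hdT ht)) (hmem l x hx) (hmem l y hy)]
    exact hE t (hdT ht) l x (hsub l hx) y (hsub l hy)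
  · intro t ht l x hx
    rw [hTK, sub_eqv hFoK hc (hnot t (Or.inr (hT' ht))) (hmo l) (hmem l x hx)]
    by_cases hl : l = i
    · subst hl
      rw [Function.update_self, ← hO t (hT' ht) l x (hsub l hx)]
      have m1 : c ∈ leg X o l := outP_sub hc
      have m2 : x ∈ leg X o l := Or.inr (hsub l hx)
      exact ⟨fun h1 => h.trans (Or.inl rfl) m1 m2 (hco t ht).symm h1,
        fun h1 => h.trans m1 (Or.inl rfl) m2 (hco t ht) h1⟩
    · rw [Function.update_of_ne hl]
      exact hO t (hT' ht) l x (hsub l hx)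
  · intro l x hx
    rw [hTK, sub_eqv hFoK hc (hnot d hd) (hmo l) (hmem l x hx)]
    exact hA' l x hx
  · intro t ht x hx y hy v hv
    rw [← hB t (hT' ht) x (hsub 0 hx) y (hsub 1 hy) v (hsub 2 hv), hTK,
      Matroid.contract_closure_eq]
    have e1 : insert c (TK X o \ outP X o i Y) \ {x, y, v} ∪ (outP X o i Y \ {c}) =
        TK X o \ {x, y, v} := by
      have n1 : ∀ b ∈ ({x, y, v} : Set α), b ∉ outP X o i Y \ {c} := by
        rintro b hb ⟨h1, h2⟩
        have h3 : b ∈ insert c (TK X o \ outP X o i Y) := by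
          rcases hb with rfl | rfl | hb
          · exact hmem 0 _ hx
          · exact hmem 1 _ hy
          · exact (mem_singleton_iff.1 hb) ▸ hmem 2 _ hv
        rcases h3 with h3 | h3
        · exact h2 h3
        · exact h3.2 h1
      ext b
      constructor
      · rintro (⟨h1 | h1, h2⟩ | h1)
        · exact ⟨h1 ▸ hFoK hc, h2⟩
        · exact ⟨h1.1, h2⟩
        · exact ⟨hFoK h1.1, fun h2 => n1 b h2 h1⟩
      · rintro ⟨h1, h2⟩
        by_cases h3 : b ∈ outP X o i Y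
        · by_cases h4 : b = c
          · exact Or.inl ⟨Or.inl h4, h2⟩
          · exact Or.inr ⟨h3, h4⟩
        · exact Or.inl ⟨Or.inr ⟨h1, h3⟩, h2⟩
    rw [e1]
    exact ⟨fun h1 => h1.1, fun h1 => ⟨h1, fun h2 => hnot t (Or.inr (hT' ht)) h2.1⟩⟩

end TST
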