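import Pool.Agent.EN.JModel
import Pool.Agent.EN.Joint

/-!
# Jointly unbalanced colourings of a real host (row B7 of T*, helper57)

The real host of depth `N` is a frame on its own vertices; the abstract host of depth `d ≤ N` is the
real host without the horizontal edges of the windows `|b| ≤ N - d`, contracted by `Pz (N - d)`.
-/

open Set Relation
open scoped Matroid

namespace TST

open BIC Gad EN Mdl Mdu Mdj

variable {α V σ X : Type*}

/-- A frame on the host of depth `N`: exactly one or more elements for every edge, balanced pages. -/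
structure RealH (H : Host V σ) (N : ℤ) (M : Matroid α) (S : Set α)
    (ends : α → Sym2 (HV V σ)) : Prop where
  frm : Frm M S ends
  hadj : ∀ u v, H.Adj N u v → ∃ e ∈ S, ends e = s(u, v)
  adj : ∀ e ∈ S, ∀ u v, ends e = s(u, v) → H.Adj N u v
  pg : ∀ s (A : Set (HV V σ)), A.Finite → A.Nonempty → VConn S ends A →
    (∀ w ∈ A, ∃ c b, w = Sum.inr (s, c, b)) → rk M (ins S ends A) < A.ncard

/-- real vertices over `A` -/
def Ph (k : ℤ) (A : Set (HV V σ)) : Set (HV V σ) := {w | Pz k w ∈ A}

/-- elements which are not horizontal in the windows `|b| ≤ k` -/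
def Sd (S : Set α) (ends : α → Sym2 (HV V σ)) (k : ℤ) : Set α :=
  {e | e ∈ S ∧ ∀ s c c' b, ends e = s(Sum.inr (s, c, b), Sum.inr (s, c', b)) → c ≠ c' →
    k < b ∨ b < -k}

/-- **The predicate.** -/
def UU [Fintype X] (N : ℤ) (M : Matroid α) (S : Set α) (ends : α → Sym2 (HV V σ)) (d : ℤ)
    (f : HV V σ → Option X) : Prop :=
  (∀ y, ∃ w, f w = some y) ∧ (∀ y, {w | f w = some y}.Finite) ∧
    JU M (Sd S ends (N - d)) ends (Finset.univ : Finset X)
      (fun y => Ph (N - d) {w | f w = some y})

section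

variable {H : Host V σ} {N d k : ℤ} {M : Matroid α} {S : Set α} {ends : α → Sym2 (HV V σ)}
  {f f' : HV V σ → Option X}

lemma Sd_sub : Sd S ends k ⊆ S := fun _ he => he.1

lemma Sd_mono {l : ℤ} (h : l ≤ k) : Sd S ends k ⊆ Sd S ends l := by
  intro e he
  refine ⟨he.1, fun s c c' b h1 h2 => ?_⟩
  have := he.2 s c c' b h1 h2
  omega

/-- elements of `Sd` are edges after contraction -/
lemma sd_adj (h : RealH H N M S ends) (hk : 0 ≤ k) (hkN : k ≤ N) {e : α}
    (he : e ∈ Sd S ends k) {u v : HV V σ} (huv : ends e = s(u, v)) :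
    Pz k u = Pz k v ∨ H.Adj (N - k) (Pz k u) (Pz k v) := by
  have hadj := h.adj e he.1 u v huv
  have key : ∀ u v : HV V σ, ends e = s(u, v) → H.E N u v →
      Pz k u = Pz k v ∨ H.Adj (N - k) (Pz k u) (Pz k v) := by
    rintro (u | ⟨s, c, b⟩) (v | ⟨s', c', b'⟩) he' hE
    · exact Or.inr (Or.inl hE)
    · obtain ⟨h1, h2⟩ := hE
      right; left
      refine ⟨h1, ?_⟩
      rcases h2 with ⟨h2, h3⟩ | ⟨h2, h3⟩
      · left
        refine ⟨?_, h3⟩
        unfold pz
        split_ifs <;> omega
      · right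
        refine ⟨?_, h3⟩
        unfold pz
        split_ifs <;> omega
    · exact hE.elim
    · obtain ⟨rfl, h2, h3, h4, h5⟩ := hE
      rcases h5 with ⟨rfl, rfl⟩ | ⟨rfl, rfl, h5⟩
      · -- vertical
        by_cases hm : -k ≤ b ∧ b + 1 ≤ k
        · left
          simp only [Pz, Sum.inr.injEq, Prod.mk.injEq, true_and]
          rw [pz_mid (by omega) (by omega), pz_mid (by omega) (by omega)]
        · right; left
          refine ⟨rfl, h2, ?_, ?_, Or.inl ⟨rfl, ?_⟩⟩
          · unfold pz
            split_ifs <;> omega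
          · unfold pz
            split_ifs <;> omega
          · unfold pz
            split_ifs <;> omega
      · -- horizontal
        have h6 := he.2 s c (c + 1) b' he' (by omega)
        right; left
        refine ⟨rfl, h2, ?_, ?_, Or.inr ⟨rfl, rfl, ?_⟩⟩
        · unfold pz
          split_ifs <;> omega
        · unfold pz
          split_ifs <;> omega
        · unfold pz
          split_ifs <;> omega
  rcases hadj with h1 | h1
  · exact key u v huv h1
  · rcases key v u (by rw [huv, Sym2.eq_swap]) h1 with h2 | h2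
    · exact Or.inl h2.symm
    · exact Or.inr h2.symm

/-- edges of the abstract host lift to elements of `Sd` -/
lemma sd_lift (h : RealH H N M S ends) (hk : 0 ≤ k) (hkN : k ≤ N) {u v : HV V σ}
    (huv : H.Adj (N - k) u v) : ∃ u' v', GAdj (Sd S ends k) ends u' v' ∧ Pz k u' = u ∧
      Pz k v' = v := by
  obtain ⟨u', v', h1, h2, h3⟩ := H.lift (d := N - k) (by omega) hk huv
  rw [sub_add_cancel] at h1
  obtain ⟨e, he, hee⟩ := h.hadj u' v' h1
  refine ⟨u', v', ⟨e, ⟨he, fun s c c' b h4 hcc => ?_⟩, hee⟩, h2, h3⟩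
  by_contra hb
  have h5 : ∀ x y : HV V σ, H.Adj (N - k) x y → x = Sum.inr (s, c, 0) → y = Sum.inr (s, c', 0) →
      False := by
    rintro x y (hxy | hxy) rfl rfl
    · obtain ⟨_, _, _, _, h6⟩ := hxy
      rcases h6 with ⟨h6, h7⟩ | ⟨h6, h7, h8⟩
      · exact hcc h6
      · exact h8 rfl
    · obtain ⟨_, _, _, _, h6⟩ := hxy
      rcases h6 with ⟨h6, h7⟩ | ⟨h6, h7, h8⟩
      · exact hcc h6.symm
      · exact h8 rfl
  rw [hee] at h4
  have hp : ∀ x : ℕ, Pz k (Sum.inr (s, x, b) : HV V σ) = Sum.inr (s, x, 0) := by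
    intro x
    simp only [Pz]
    rw [pz_mid (by omega) (by omega)]
  rcases Sym2.eq_iff.1 h4 with ⟨rfl, rfl⟩ | ⟨rfl, rfl⟩
  · exact h5 _ _ huv (h2.symm.trans (hp c)) (h3.symm.trans (hp c'))
  · exact h5 _ _ huv.symm (h3.symm.trans (hp c)) (h2.symm.trans (hp c'))

lemma finite_Ph (hk : 0 ≤ k) {A : Set (HV V σ)} (hA : A.Finite) : (Ph k A).Finite := by
  have h1 : Ph k A ⊆ ⋃ x ∈ Set.Icc (-k) k,
      (fun w : HV V σ => match w with
        | Sum.inl v => (Sum.inl v : HV V σ)
        | Sum.inr (s, c, b) => Sum.inr (s, c, b + x)) '' A := by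
    rintro (v | ⟨s, c, b⟩) hw
    · rw [Set.mem_iUnion₂]
      exact ⟨0, ⟨by omega, hk⟩, Sum.inl v, hw, rfl⟩
    · rw [Set.mem_iUnion₂]
      refine ⟨b - pz k b, ?_, Sum.inr (s, c, pz k b), hw, ?_⟩
      · unfold pz
        rw [Set.mem_Icc]
        split_ifs <;> omega
      · simp only
        rw [add_sub_cancel]
  exact ((Set.finite_Icc _ _).biUnion (fun x _ => hA.image _)).subset h1

/-- steps inside of `A` -/
def Sp (S : Set α) (ends : α → Sym2 (HV V σ)) (k : ℤ) (A : Set (HV V σ)) :
    HV V σ → HV V σ → Prop :=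
  ReflTransGen fun a b => GAdj (Sd S ends k) ends a b ∧ a ∈ Ph k A ∧ b ∈ Ph k A

lemma Sp.symm {A : Set (HV V σ)} {u v : HV V σ} (h : Sp S ends k A u v) :
    Sp S ends k A v u := by
  unfold Sp at h ⊢
  induction h with
  | refl => exact ReflTransGen.refl
  | tail _ h2 ih => exact (ReflTransGen.single ⟨h2.1.symm, h2.2.2, h2.2.1⟩).trans ih

/-- vertical steps -/
lemma sp_vert (h : RealH H N M S ends) (hk : 0 ≤ k) (hkN : k ≤ N) {A : Set (HV V σ)} {s : σ}
    {c : ℕ} (hc : c < H.len s) (hA : (Sum.inr (s, c, 0) : HV V σ) ∈ A) :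
    ∀ n : ℕ, ∀ b : ℤ, -k ≤ b → b + n ≤ k →
      Sp S ends k A (Sum.inr (s, c, b)) (Sum.inr (s, c, b + n)) := by
  intro n
  induction n with
  | zero =>
    intro b _ _
    have e : b + ((0 : ℕ) : ℤ) = b := by simp
    rw [e]
    exact ReflTransGen.refl
  | succ n ih =>
    intro b h1 h2
    have h3 := ih b h1 (by push_cast at h2; omega)
    refine ReflTransGen.tail h3 ?_
    obtain ⟨e, he, hee⟩ := h.hadj (Sum.inr (s, c, b + n)) (Sum.inr (s, c, b + n + 1))
      (Or.inl ⟨rfl, hc, by omega, by push_cast at h2; omega, Or.inl ⟨rfl, rfl⟩⟩)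
    have hm : ∀ x : ℤ, -k ≤ x → x ≤ k → (Sum.inr (s, c, x) : HV V σ) ∈ Ph k A := by
      intro x h4 h5
      change Pz k _ ∈ A
      simp only [Pz]
      rw [pz_mid h4 h5]
      exact hA
    push_cast at h2 ⊢
    refine ⟨⟨e, ⟨he, ?_⟩, by rw [hee, add_assoc]⟩, hm _ (by omega) (by omega),
      hm _ (by omega) (by omega)⟩
    intro s' c' c'' b' h4 h5
    rw [hee] at h4
    exfalso
    rcases Sym2.eq_iff.1 h4 with ⟨h6, h7⟩ | ⟨h6, h7⟩
    · simp only [Sum.inr.injEq, Prod.mk.injEq] at h6 h7
      omega
    · simp only [Sum.inr.injEq, Prod.mk.injEq] at h6 h7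
      omega

/-- fibres are connected -/
lemma sp_fib (h : RealH H N M S ends) (hk : 0 ≤ k) (hkN : k ≤ N) {A : Set (HV V σ)}
    (hR : Rg H (N - k) A) {u v : HV V σ} (huv : Pz k u = Pz k v) (hu : Pz k u ∈ A) :
    Sp S ends k A u v := by
  rcases u with u | ⟨s, c, b⟩
  · rcases v with v | ⟨s', c', b'⟩
    · simp only [Pz, Sum.inl.injEq] at huv
      rw [huv]
      exact ReflTransGen.refl
    · simp only [Pz, reduceCtorEq] at huv
  · rcases v with v | ⟨s', c', b'⟩
    · simp only [Pz, reduceCtorEq] at huv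
    · simp only [Pz, Sum.inr.injEq, Prod.mk.injEq] at huv
      obtain ⟨rfl, rfl, h3⟩ := huv
      by_cases hb : b = b'
      · rw [hb]
        exact ReflTransGen.refl
      · have h4 : -k ≤ b ∧ b ≤ k ∧ -k ≤ b' ∧ b' ≤ k := by
          unfold pz at h3
          split_ifs at h3 <;> omega
        simp only [Pz] at hu
        rw [pz_mid h4.1 h4.2.1] at hu
        have hc := (hR s c 0 hu).1
        rcases le_or_gt b b' with h5 | h5
        · obtain ⟨n, rfl⟩ := Int.le.dest h5
          exact sp_vert h hk hkN hc hu n b h4.1 h4.2.2.2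
        · obtain ⟨n, rfl⟩ := Int.le.dest h5.le
          exact (sp_vert h hk hkN hc hu n b' h4.2.2.1 h4.2.1).symm

/-- **Connected sets lift to connected sets.** -/
lemma vconn_Ph (h : RealH H N M S ends) (hk : 0 ≤ k) (hkN : k ≤ N) {A : Set (HV V σ)}
    (hR : Rg H (N - k) A) (hA : Co H (N - k) A) : VConn (Sd S ends k) ends (Ph k A) := by
  intro u hu v hv
  have h1 := hA _ hu _ hv
  have key : ∀ b, Pa H (N - k) A (Pz k u) b → b ∈ A → ∀ b', Pz k b' = b →
      Sp S ends k A u b' := by
    intro b hb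
    induction hb with
    | refl =>
      intro _ b' h2
      exact sp_fib h hk hkN hR h2.symm hu
    | tail hab hbc ih =>
      rename_i b c
      intro hc c' hc'
      obtain ⟨p, q, h3, h4, h5⟩ := sd_lift h hk hkN hbc.1
      have h6 := ih hbc.2.1 p h4
      have h7 : Sp S ends k A p q := by
        refine ReflTransGen.single ⟨h3, ?_, ?_⟩
        · change Pz k p ∈ A
          rw [h4]
          exact hbc.2.1
        · change Pz k q ∈ A
          rw [h5]
          exact hbc.2.2
      exact (h6.trans h7).trans (sp_fib h hk hkN hR (h5.trans hc'.symm) (by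
        rw [h5]
        exact hbc.2.2))
  exact key _ h1 hv v rfl

lemma Rg_of_ok (hf : Ok H d f) {A : Set (HV V σ)} {y : X} (hA : ∀ w ∈ A, f w = some y) :
    Rg H d A := by
  intro s c b hw
  exact hf.sup s c b (by rw [hA _ hw]; simp)

lemma finite_class (hf : Ok H d f) (y : X) : {w | f w = some y}.Finite :=
  hf.fin.subset fun w hw => by
    change f w ≠ none
    rw [show f w = some y from hw]
    simp

lemma disj_Ph (f : HV V σ → Option X) {y z : X} (hyz : y ≠ z) :
    Disjoint (Ph k {w | f w = some y}) (Ph k {w | f w = some z}) := by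
  rw [Set.disjoint_left]
  intro w h1 h2
  have h3 : f (Pz k w) = some y := h1
  rw [show f (Pz k w) = some z from h2] at h3
  exact hyz (Option.some.inj h3).symm

lemma Ph_mono {A B : Set (HV V σ)} (h : A ⊆ B) : Ph k A ⊆ Ph k B := fun _ hw => h hw

lemma Ph_nonempty (hk : 0 ≤ k) {A : Set (HV V σ)} (h : A.Nonempty) : (Ph k A).Nonempty := by
  obtain ⟨v | ⟨s, c, b⟩, hw⟩ := h
  · exact ⟨Sum.inl v, hw⟩
  · rcases le_or_gt 0 b with hb | hb
    · refine ⟨Sum.inr (s, c, b + k), ?_⟩
      change Pz k _ ∈ A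
      simp only [Pz]
      rw [pz_pos hk hb]
      exact hw
    · refine ⟨Sum.inr (s, c, b - k), ?_⟩
      change Pz k _ ∈ A
      simp only [Pz]
      rw [pz_neg hk hb.le]
      exact hw

lemma pz_pz {l b : ℤ} (hk : 0 ≤ k) (hl : 0 ≤ l) : pz k (pz l b) = pz (k + l) b := by
  unfold pz
  split_ifs <;> omega

lemma Pz_Pz {l : ℤ} (hk : 0 ≤ k) (hl : 0 ≤ l) (w : HV V σ) : Pz k (Pz l w) = Pz (k + l) w := by
  rcases w with v | ⟨s, c, b⟩
  · rfl
  · simp only [Pz]
    rw [pz_pz hk hl]

lemma frm_sd (h : Frm M S ends) (k : ℤ) : Frm M (Sd S ends k) ends := by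
  refine ⟨Sd_sub.trans h.sub, fun v e he hv hcl => ?_, fun W => ?_⟩
  · have h1 : ins (Sd S ends k) ends {v}ᶜ ⊆ ins S ends {v}ᶜ := fun x hx => ⟨hx.1.1, hx.2⟩
    exact h.star v e he.1 hv (M.closure_subset_closure h1 hcl)
  · have h1 : ins (Sd S ends k) ends W ⊆ ins S ends W := fun x hx => ⟨hx.1.1, hx.2⟩
    exact (M.eRk_mono h1).trans (h.rk W)

open Classical in
lemma cut_class (f : HV V σ → Option X) (y : X) {A : Set (HV V σ)} (hA : ∀ w ∈ A, f w = some y)
    (k : ℤ) : (fun z => Ph k {w | cut f y A w = some z}) =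
      Function.update (fun z => Ph k {w | f w = some z}) y (Ph k A) := by
  funext z
  by_cases hz : z = y
  · subst hz
    rw [Function.update_self, cut_set hA]
  · rw [Function.update_of_ne hz, cut_set_ne hz]

/-- **The instance.** -/
theorem RealH.jnt [M.Finite] [Fintype X] (h : RealH H N M S ends) :
    Jnt (X := X) H N (UU N M S ends) := by
  classical
  refine ⟨?_, ?_, ?_, ?_, ?_, ?_⟩
  · intro d f y _ _ hU
    exact hU.1 y
  · intro d f f' hd hdN hf' hff hU
    have hF := frm_sd h.frm (N - d)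
    refine ⟨fun y => ?_, fun y => finite_class hf' y, ?_⟩
    · obtain ⟨w, hw⟩ := hU.1 y
      exact ⟨w, hff w y hw⟩
    · refine JU.mono_all hF (fun y _ => finite_Ph (by omega) (finite_class hf' y)) ?_ ?_ ?_ ?_
        hU.2.2
      · exact fun y _ => Ph_mono fun w hw => hff w y hw
      · exact fun y _ => Ph_nonempty (by omega) (hU.1 y)
      · intro y _
        refine vconn_Ph h (by omega) (by omega) ?_ ?_
        · rw [sub_sub_cancel]
          exact Rg_of_ok hf' fun w hw => hw
        · rw [sub_sub_cancel]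
          exact hf'.con y
      · exact fun y _ z _ hyz => disj_Ph f' hyz
  · intro d f y A B hd hdN hf hAB hA hB hne hC hno hU
    have hF := frm_sd h.frm (N - d)
    have hAf : ∀ w ∈ A, f w = some y := fun w hw => by
      have : w ∈ {w | f w = some y} := by rw [hAB]; exact Or.inl hw
      exact this
    have hBf : ∀ w ∈ B, f w = some y := fun w hw => by
      have : w ∈ {w | f w = some y} := by rw [hAB]; exact Or.inr hw
      exact this
    have e1 : Ph (N - d) {w | f w = some y} = Ph (N - d) A ∪ Ph (N - d) B := by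
      rw [hAB]
      rfl
    have e2 : Ph (N - d) A ∩ Ph (N - d) B = Ph (N - d) (A ∩ B) := rfl
    have h1 := JU.update_modu (i := y) hF (Finset.mem_univ y)
      (fun z _ => finite_Ph (by omega) (finite_class hf z)) e1
      (by rw [e2]; exact Ph_nonempty (by omega) hne)
      (by
        rw [e2]
        refine vconn_Ph h (by omega) (by omega) ?_ ?_
        · rw [sub_sub_cancel]
          exact Rg_of_ok hf fun w hw => hAf w hw.1
        · rw [sub_sub_cancel]
          exact hC)
      (by
        intro e he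
        by_contra hcon
        rw [mem_union, not_or] at hcon
        obtain ⟨u, v, huv⟩ : ∃ u v, ends e = s(u, v) := by
          induction hh : ends e with
          | _ a b => exact ⟨a, b, rfl⟩
        have hu := he.2 u (by rw [huv]; simp)
        have hv := he.2 v (by rw [huv]; simp)
        have hcA : ¬ (u ∈ Ph (N - d) A ∧ v ∈ Ph (N - d) A) := fun hh => hcon.1 ⟨he.1, by
          intro x hx
          rw [huv] at hx
          rcases Sym2.mem_iff.1 hx with rfl | rfl
          · exact hh.1
          · exact hh.2⟩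
        have hcB : ¬ (u ∈ Ph (N - d) B ∧ v ∈ Ph (N - d) B) := fun hh => hcon.2 ⟨he.1, by
          intro x hx
          rw [huv] at hx
          rcases Sym2.mem_iff.1 hx with rfl | rfl
          · exact hh.1
          · exact hh.2⟩
        have hadj := sd_adj h (k := N - d) (by omega) (by omega) he.1 huv
        rw [sub_sub_cancel] at hadj
        rcases hadj with hadj | hadj
        · rcases hu with hu | hu
          · refine hcA ⟨hu, ?_⟩
            change Pz (N - d) v ∈ A
            rw [← hadj]
            exact hu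
          · refine hcB ⟨hu, ?_⟩
            change Pz (N - d) v ∈ B
            rw [← hadj]
            exact hu
        · rcases hu with hu | hu
          · rcases hv with hv | hv
            · exact hcA ⟨hu, hv⟩
            · exact hno _ hu _ hv (fun hh => hcB ⟨hh, hv⟩) (fun hh => hcA ⟨hu, hh⟩) hadj
          · rcases hv with hv | hv
            · exact hno _ hv _ hu (fun hh => hcB ⟨hu, hh⟩) (fun hh => hcA ⟨hh, hv⟩) hadj.symm
            · exact hcB ⟨hu, hv⟩)
      (fun z _ hz => disj_Ph f hz) hU.2.2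
    have hne' : ∀ A', A' ∩ A ∪ A' ∩ B ⊆ A' → (A ∩ B).Nonempty → (A ∩ B ⊆ A') →
        (∀ w ∈ A', f w = some y) → ∀ z, ∃ w, cut f y A' w = some z := by
      intro A' _ hne'' hsub hA' z
      by_cases hz : z = y
      · subst hz
        obtain ⟨w, hw⟩ := hne''
        exact ⟨w, (cut_eq hA').2 (hsub hw)⟩
      · obtain ⟨w, hw⟩ := hU.1 z
        exact ⟨w, (cut_ne hz).2 hw⟩
    have hfc : ∀ A' z, {w | cut f y A' w = some z}.Finite := fun A' z =>
      (finite_class hf z).subset fun w hw => cut_some hw
    rcases h1 with h1 | h1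
    · left
      refine ⟨hne' A (by rintro w (hw | hw) <;> exact hw.1) hne inter_subset_left hAf, hfc A, ?_⟩
      rw [cut_class f y hAf]
      exact h1
    · right
      refine ⟨hne' B (by rintro w (hw | hw) <;> exact hw.1) hne inter_subset_right hBf, hfc B, ?_⟩
      rw [cut_class f y hBf]
      exact h1
  · intro d f y s hd hdN hf hU hpg
    have hF := frm_sd h.frm (N - d)
    have h1 := hU.2.2.single hF (fun z _ => finite_Ph (by omega) (finite_class hf z))
      (Finset.mem_univ y)
    have hne : (Ph (N - d) {w | f w = some y}).Nonempty := Ph_nonempty (by omega) (hU.1 y)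
    have hvc : VConn (Sd S ends (N - d)) ends (Ph (N - d) {w | f w = some y}) := by
      refine vconn_Ph h (by omega) (by omega) ?_ ?_
      · rw [sub_sub_cancel]
        exact Rg_of_ok hf fun w hw => hw
      · rw [sub_sub_cancel]
        exact hf.con y
    have h2 := h.pg s (Ph (N - d) {w | f w = some y})
      (finite_Ph (by omega) (finite_class hf y)) hne ?_ ?_
    · have h3 := rk_mono M (show ins (Sd S ends (N - d)) ends (Ph (N - d) {w | f w = some y}) ⊆
        ins S ends (Ph (N - d) {w | f w = some y}) from fun e he => ⟨he.1.1, he.2⟩)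
      omega
    · intro u hu v hv
      refine Relation.ReflTransGen.mono ?_ _ _ (hvc u hu v hv)
      rintro a b ⟨⟨e, he, hee⟩, h4, h5⟩
      exact ⟨⟨e, he.1, hee⟩, h4, h5⟩
    · rintro w hw
      obtain ⟨c, b, hcb⟩ := hpg (Pz (N - d) w) hw
      rcases w with v | ⟨s', c', b'⟩
      · simp only [Pz, reduceCtorEq] at hcb
      · simp only [Pz, Sum.inr.injEq, Prod.mk.injEq] at hcb
        exact ⟨c', b', by rw [hcb.1]⟩
  · intro d k f hd hk hdk hf hU
    refine ⟨fun y => ?_, fun y => finite_Ph hk (hU.2.1 y), ?_⟩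
    · obtain ⟨w, hw⟩ := Ph_nonempty hk (hU.1 y)
      exact ⟨w, hw⟩
    · have e1 : (fun y => Ph (N - (d + k)) {w | f (Pz k w) = some y}) =
          fun y => Ph (N - d) {w | f w = some y} := by
        funext y
        ext w
        change f (Pz k (Pz (N - (d + k)) w)) = some y ↔ f (Pz (N - d) w) = some y
        rw [Pz_Pz hk (by omega)]
        have : k + (N - (d + k)) = N - d := by ring
        rw [this]
      rw [e1]
      have h1 := hU.2.2
      unfold JU at h1 ⊢
      refine h1.trans (rk_mono M ?_)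
      refine iUnion₂_mono fun y _ => ?_
      intro e he
      exact ⟨Sd_mono (by omega) he.1, he.2⟩
  · intro d f A hd hdN hf hAf hAne hAc hU f' hf'
    have hF := frm_sd h.frm (N - d)
    refine ⟨fun y => ?_, fun y => (finite_class hf y).subset fun w hw =>
      hAf y w ((hf' w y).1 hw), ?_⟩
    · obtain ⟨w, hw⟩ := hAne y
      exact ⟨w, (hf' w y).2 hw⟩
    · have e1 : (fun y => Ph (N - d) {w | f' w = some y}) = fun y => Ph (N - d) (A y) := by
        funext y
        ext w
        exact hf' _ y
      rw [e1]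
      refine JU.loc (F := fun y => Ph (N - d) {w | f w = some y}) hF
        (fun y _ => finite_Ph (by omega) (finite_class hf y))
        (fun y _ => Ph_mono fun w hw => hAf y w hw) ?_
      intro y _
      refine JU.unR_of_update hF (Finset.mem_univ y)
        (fun z _ => finite_Ph (by omega) (finite_class hf z))
        (finite_Ph (by omega) ((finite_class hf y).subset fun w hw => hAf y w hw)) ?_
      have h1 := (hU y).2.2
      rw [cut_class f y (hAf y)] at h1
      exact h1

end

end TST
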