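import Pool.Agent.EN.Ground3
import Pool.Agent.CW.Lift

/-!
# Frames from locations (row B7 of T*, helper57)

`R` is a connected graph with the vertices `Vs` (`endsR`), `Hv v` the closure of the elements of `R`
which miss `v`.  `S` are elements with locations outside of `VQ`: `v ∉ ends e` gives `e ∈ Hv v`,
`v ∈ ends e` gives `e ∉ Hv v`.  If `Q ⊆ R` lives on `VQ`, then `M ／ Q` is a frame for `S` up to
`r(R) + |VQ| - |Vs| - r(Q)`.
-/

open Set Relation
open scoped Matroid

namespace TST

open BIC Gad EN BICS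

variable {α V : Type*}

/-- closure of the elements which miss `v` -/
def Hv (M : Matroid α) (R : Set α) (endsR : α → Sym2 V) (v : V) : Set α :=
  M.closure {e | e ∈ R ∧ v ∉ endsR e}

section

variable {M : Matroid α} {R S Q : Set α} {ends endsR : α → Sym2 V} {Vs VQ : Set V} {u : ℕ}

/-- elements of `R` in all flats `Hv v`, `v ∈ U` -/
def FU (M : Matroid α) (R : Set α) (endsR : α → Sym2 V) (U : Set V) : Set α :=
  {e | e ∈ M.closure R ∧ ∀ v ∈ U, e ∈ Hv M R endsR v}

/-- Peeling: every vertex of `U` drops the rank. -/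
lemma rk_FU [M.Finite] (hRE : R ⊆ M.E)
    (hstarR : ∀ e ∈ R, ∀ v ∈ endsR e, v ∉ VQ → e ∉ Hv M R endsR v)
    {U : Set V} (hUf : U.Finite) (hUQ : Disjoint U VQ) (ρ : V → ℕ)
    (hρ : ∀ v ∈ U, ∃ e ∈ R, v ∈ endsR e ∧ ∀ w ∈ endsR e, w = v ∨ w ∉ U ∨ ρ w < ρ v) :
    rk M (FU M R endsR U) + U.ncard ≤ rk M R := by
  classical
  -- add the vertices in the order of decreasing `ρ`
  have key : ∀ n : ℕ, ∀ U' ⊆ U, U'.ncard = n → (∀ v ∈ U, ∀ w ∈ U', ρ w < ρ v → v ∈ U') →
      rk M (FU M R endsR U') + U'.ncard ≤ rk M R := by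
    intro n
    induction n with
    | zero =>
      intro U' hU' hn _
      have h1 : U' = ∅ := (ncard_eq_zero (hUf.subset hU')).1 hn
      subst h1
      have h2 : FU M R endsR ∅ ⊆ M.closure R := fun e he => he.1
      have h3 := rk_mono M h2
      rw [rk_closure] at h3
      simpa using h3
    | succ n ih =>
      intro U' hU' hn hup
      have hfin := hUf.subset hU'
      have hne : U'.Nonempty := by
        rw [← ncard_pos hfin]
        omega
      obtain ⟨v, hv, hmin⟩ := Set.exists_min_image U' ρ hfin hne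
      have h1 := ih (U' \ {v}) (sdiff_subset.trans hU') (by
        rw [ncard_sdiff_singleton_of_mem hv, hn]
        omega) (by
        intro x hx w hw hxw
        refine ⟨hup x hx w hw.1 hxw, ?_⟩
        rintro rfl
        have := hmin w hw.1
        omega)
      have h2 : (U' \ {v}).ncard = n := by
        rw [ncard_sdiff_singleton_of_mem hv, hn]
        omega
      obtain ⟨e, he, hve, hw⟩ := hρ v (hU' hv)
      have h3 : e ∈ FU M R endsR (U' \ {v}) := by
        refine ⟨M.subset_closure R hRE he, fun w hw' => ?_⟩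
        refine M.subset_closure _ (fun x hx => hRE hx.1) ⟨he, fun hwe => ?_⟩
        rcases hw w hwe with h | h | h
        · exact hw'.2 h
        · exact h (hU' hw'.1)
        · have := hmin w hw'.1
          omega
      have h4 : e ∉ M.closure (FU M R endsR U') := by
        intro h
        have h5 : M.closure (FU M R endsR U') ⊆ Hv M R endsR v := by
          have h6 : FU M R endsR U' ⊆ Hv M R endsR v := fun x hx => hx.2 v hv
          exact (M.closure_subset_closure h6).trans (by
            unfold Hv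
            rw [M.closure_closure])
        exact hstarR e he v hve (Set.disjoint_left.1 hUQ (hU' hv)) (h5 h)
      have h5 : insert e (FU M R endsR U') ⊆ FU M R endsR (U' \ {v}) := by
        intro x hx
        rcases hx with rfl | hx
        · exact h3
        · exact ⟨hx.1, fun w hw => hx.2 w hw.1⟩
      have h6 := CWL.rk_insert_ge (hRE he) h4
      have h7 := rk_mono M h5
      omega
  exact key _ U (subset_refl _) rfl fun v hv _ _ _ => hv

/-- **Frames from locations.** -/
theorem frm_loc [M.Finite] (hVs : Vs.Finite) (hRE : R ⊆ M.E) (hSE : S ⊆ M.E) (hQR : Q ⊆ R)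
    (hSQ : Disjoint S Q)
    (hVQ : VQ ⊆ Vs) (hQV : ∀ e ∈ Q, ∀ v ∈ endsR e, v ∈ VQ)
    (hcon : VConn R endsR Vs)
    (hstarR : ∀ e ∈ R, ∀ v ∈ endsR e, v ∉ VQ → e ∉ Hv M R endsR v)
    (hSV : ∀ e ∈ S, ∀ v ∈ ends e, v ∈ Vs ∧ v ∉ VQ)
    (hSclo : ∀ e ∈ S, e ∈ M.closure R)
    (hstar : ∀ e ∈ S, ∀ v ∈ ends e, e ∉ Hv M R endsR v)
    (hloc : ∀ e ∈ S, ∀ v ∈ Vs, v ∉ VQ → v ∉ ends e → e ∈ Hv M R endsR v)
    (hr : rk M R + VQ.ncard ≤ Vs.ncard + rk M Q + u) :
    FrmU (M ／ Q) S ends u := by
  classical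
  have hQE : Q ⊆ M.E := hQR.trans hRE
  refine ⟨?_, ?_, ?_⟩
  · rw [Matroid.contract_ground]
    exact fun e he => ⟨hSE he, Set.disjoint_left.1 hSQ he⟩
  · intro v e he hve hcl
    rw [Matroid.contract_closure_eq] at hcl
    refine hstar e he v hve ?_
    have h1 : ins S ends {v}ᶜ ∪ Q ⊆ Hv M R endsR v := by
      rintro x (hx | hx)
      · refine hloc x hx.1 v (hSV e he v hve).1 (hSV e he v hve).2 fun h => ?_
        exact hx.2 v h rfl
      · refine M.subset_closure _ (fun y hy => hRE hy.1) ⟨hQR hx, fun h => ?_⟩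
        exact (hSV e he v hve).2 (hQV x hx v h)
    have h2 := M.closure_subset_closure h1 hcl.1
    unfold Hv at h2
    rw [M.closure_closure] at h2
    exact h2
  · intro W hW
    have hX : ins S ends W ⊆ M.E \ Q := fun e he =>
      ⟨hSE he.1, Set.disjoint_left.1 hSQ he.1⟩
    have h1 := rk_contract_set (M := M) (C := Q) hQE hX
    rcases (ins S ends W).eq_empty_or_nonempty with h0 | ⟨e₀, he₀⟩
    · rw [h0]
      have := rk_le_ncard (M := M ／ Q) (X := ∅) (by simp)
      simp only [ncard_empty] at this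
      omega
    obtain ⟨w₀, hw₀⟩ := exists_mem_ends ends e₀
    have hw₀W : w₀ ∈ W := he₀.2 w₀ hw₀
    have hw₀V := (hSV e₀ he₀.1 w₀ hw₀).1
    set U : Set V := (Vs \ VQ) \ W with hU
    have hUf : U.Finite := hVs.subset (sdiff_subset.trans sdiff_subset)
    -- distances to `w₀`
    have hcon' : ∀ v ∈ Vs, ReflTransGen (fun x y => GAdj R endsR x y ∧ x ∈ Vs ∧ y ∈ Vs) w₀ v :=
      fun v hv => hcon w₀ hw₀V v hv
    let step : ℕ → Set V := fun n => Nat.rec {w₀} (fun _ A =>
      {v | ∃ x ∈ A, GAdj R endsR x v}) n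
    have hstep0 : step 0 = {w₀} := rfl
    have hstepS : ∀ n, step (n + 1) = {v | ∃ x ∈ step n, GAdj R endsR x v} := fun n => rfl
    have hex : ∀ v ∈ Vs, ∃ n, v ∈ step n := by
      intro v hv
      have h := hcon' v hv
      clear hv
      induction h with
      | refl => exact ⟨0, rfl⟩
      | tail _ hyz ih =>
        obtain ⟨n, hn⟩ := ih
        exact ⟨n + 1, _, hn, hyz.1⟩
    let ρ : V → ℕ := fun v => sInf {n | v ∈ step n}
    have hρ : ∀ v ∈ U, ∃ e ∈ R, v ∈ endsR e ∧ ∀ w ∈ endsR e, w = v ∨ w ∉ U ∨ ρ w < ρ v := by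
      intro v hv
      have hex' : {n | v ∈ step n}.Nonempty := hex v hv.1.1
      have hsp : v ∈ step (ρ v) := Nat.sInf_mem hex'
      have hv0 : v ≠ w₀ := by
        rintro rfl
        exact hv.2 hw₀W
      rcases hk : ρ v with _ | k
      · rw [hk] at hsp
        exact absurd hsp hv0
      · rw [hk, hstepS] at hsp
        obtain ⟨x, hx, e, he, hee⟩ := hsp
        refine ⟨e, he, by rw [hee]; simp, fun w hw => ?_⟩
        rw [hee] at hw
        rcases Sym2.mem_iff.1 hw with rfl | rfl
        · right; right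
          have h3 : ρ w ≤ k := Nat.sInf_le hx
          omega
        · exact Or.inl rfl
    have h2 := rk_FU (VQ := VQ) hRE hstarR hUf (by
      rw [Set.disjoint_left]
      exact fun v hv => hv.1.2) ρ hρ
    have h3 : ins S ends W ∪ Q ⊆ FU M R endsR U := by
      rintro e (he | he)
      · refine ⟨hSclo e he.1, fun v hv => hloc e he.1 v hv.1.1 hv.1.2 fun h => ?_⟩
        exact hv.2 (he.2 v h)
      · refine ⟨M.subset_closure R hRE (hQR he), fun v hv => ?_⟩
        exact M.subset_closure _ (fun y hy => hRE hy.1) ⟨hQR he, fun h => hv.1.2 (hQV e he v h)⟩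
    have h4 := rk_mono M h3
    have h5 : Vs.ncard ≤ VQ.ncard + W.ncard + U.ncard := by
      have h6 : Vs ⊆ VQ ∪ W ∪ U := by
        intro v hv
        by_cases hq : v ∈ VQ
        · exact Or.inl (Or.inl hq)
        by_cases hw : v ∈ W
        · exact Or.inl (Or.inr hw)
        · exact Or.inr ⟨⟨hv, hq⟩, hw⟩
      have hVQf := hVs.subset hVQ
      calc Vs.ncard ≤ (VQ ∪ W ∪ U).ncard :=
            Set.ncard_le_ncard h6 ((hVQf.union hW).union hUf)
        _ ≤ (VQ ∪ W).ncard + U.ncard := Set.ncard_union_le _ _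
        _ ≤ _ := by
          have := Set.ncard_union_le VQ W
          omega
    omega

/-- A frame with rank rule up to `0` is a frame. -/
lemma frm_of_frmU [M.Finite] (h : FrmU M S ends 0) : Frm M S ends := by
  refine ⟨h.sub, h.star, fun W => ?_⟩
  by_cases hW : W.Finite
  · have h1 := h.rk W hW
    rw [← cast_rk, ← hW.cast_ncard_eq]
    simpa using (by exact_mod_cast h1 : (rk M (ins S ends W) : ℕ∞) ≤ (W.ncard + 0 : ℕ))
  · rw [Set.Infinite.encard_eq hW]
    exact le_top

end

end TST
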