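import Pool.Agent.TST.Quot
import Pool.Agent.TST.Loc
import Pool.Agent.TST.JntInst
import Pool.Agent.EN.PatDefs

/-!
# The predicate `U` of the host: instance by a quotient of the middle windows (helper57)

`(Sw, ends)` is an exact frame on the labels of a host, where the middle window of every column is a
path (`MidS`).  Contracting these paths gives a `RealH`, hence `Mdj.Jnt`; jointly unbalanced sets away
from the window `0` are the same before and after the contraction (`ULast`).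
-/

open Set Relation
open scoped Matroid

namespace TST

open BIC Gad EN Mdl Mdu Mdj

variable {α V σ X : Type*}

/-- The middle window of a column (`TSK.Mid`). -/
def MidS (N : ℤ) (s : σ) (c m : ℕ) : Set (HV V σ) :=
  {v | ∃ b : ℤ, v = Sum.inr (s, c, b) ∧ (b = 0 ∨ (N < b ∧ b ≤ N + m))}

open Classical in
/-- contraction of the middle windows -/
noncomputable def p0 (H : Host V σ) (N : ℤ) (m : σ → ℕ → ℕ) : HV V σ → Option (HV V σ)
  | Sum.inl v => some (Sum.inl v)
  | Sum.inr (s, c, b) => if c < H.len s ∧ -N ≤ b ∧ b ≤ N + m s c then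
      some (Sum.inr (s, c, if N < b then 0 else b)) else none

/-- all vertices of a sheet, with the middle windows -/
def ShV (H : Host V σ) (N : ℤ) (m : σ → ℕ → ℕ) (s : σ) : Set (HV V σ) :=
  {v | ∃ c b, v = Sum.inr (s, c, b) ∧ c < H.len s ∧ -N ≤ b ∧ b ≤ N + m s c}

/-- vertices of a sheet -/
def ShW (H : Host V σ) (N : ℤ) (s : σ) : Set (HV V σ) :=
  {v | ∃ c b, v = Sum.inr (s, c, b) ∧ c < H.len s ∧ -N ≤ b ∧ b ≤ N}

/-- The graph of a host with middle windows. -/
structure HostG (H : Host V σ) (N : ℤ) (M : Matroid α) (Sw : Set α) (ends : α → Sym2 (HV V σ))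
    (m : σ → ℕ → ℕ) : Prop where
  frm : Frm M Sw ends
  emb : ∀ u v, NZ H N u → NZ H N v → H.Adj N u v → GAdj Sw ends u v
  mid : ∀ s c, c < H.len s → VConn Sw ends (MidS N s c (m s c)) ∧
    Lnk Sw ends {Sum.inr (s, c, -1)} (MidS N s c (m s c)) ∧
    Lnk Sw ends (MidS N s c (m s c)) {Sum.inr (s, c, 1)}
  /-- every element is in a middle window or an edge of the host -/
  conv : ∀ e ∈ Sw, ∀ u v, ends e = s(u, v) → ∃ u' v', p0 H N m u = some u' ∧
    p0 H N m v = some v' ∧ (u' = v' ∨ H.Adj N u' v')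
  irr : ∀ v, ¬ H.A v v
  /-- balanced pages -/
  bal : ∀ s, 0 < H.len s → rk M (ins Sw ends (ShV H N m s)) < (ShV H N m s).ncard

section

variable {H : Host V σ} {N : ℤ} {M : Matroid α} {Sw : Set α} {ends : α → Sym2 (HV V σ)}
  {m : σ → ℕ → ℕ}

lemma p0_nz {w : HV V σ} (h : NZ H N w) : p0 H N m w = some w := by
  classical
  rcases w with v | ⟨s, c, b⟩
  · rfl
  · obtain ⟨h1, h2, h3, h4⟩ := h
    simp only [p0]
    rw [if_pos ⟨h1, h2, by omega⟩, if_neg (by omega)]

lemma p0_eq_some {w w' : HV V σ} (h : p0 H N m w = some w') :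
    (∃ v, w = Sum.inl v ∧ w' = Sum.inl v) ∨ ∃ s c b, w = Sum.inr (s, c, b) ∧ c < H.len s ∧ -N ≤ b ∧
      b ≤ N + m s c ∧ w' = Sum.inr (s, c, if N < b then 0 else b) := by
  classical
  rcases w with v | ⟨s, c, b⟩
  · simp only [p0, Option.some.injEq] at h
    exact Or.inl ⟨v, rfl, h.symm⟩
  · simp only [p0] at h
    by_cases h1 : c < H.len s ∧ -N ≤ b ∧ b ≤ N + m s c
    · rw [if_pos h1] at h
      exact Or.inr ⟨s, c, b, rfl, h1.1, h1.2.1, h1.2.2, (Option.some.inj h).symm⟩
    · rw [if_neg h1] at h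
      exact absurd h (by simp)

lemma p0_prt_zero {s : σ} {c : ℕ} (hN : 0 ≤ N) (hc : c < H.len s) :
    prt (p0 H N m) (Sum.inr (s, c, 0)) = MidS N s c (m s c) := by
  classical
  ext w
  constructor
  · intro hw
    rcases p0_eq_some (m := m) hw with ⟨v, rfl, h⟩ | ⟨s', c', b, rfl, h1, h2, h3, h4⟩
    · simp at h
    · simp only [Sum.inr.injEq, Prod.mk.injEq] at h4
      obtain ⟨rfl, rfl, h5⟩ := h4
      refine ⟨b, rfl, ?_⟩
      split_ifs at h5 with h6
      · exact Or.inr ⟨h6, h3⟩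
      · exact Or.inl h5.symm
  · rintro ⟨b, rfl, hb⟩
    change p0 H N m _ = _
    simp only [p0]
    rcases hb with rfl | ⟨h1, h2⟩
    · rw [if_pos ⟨hc, by omega, by omega⟩, if_neg (by omega)]
    · rw [if_pos ⟨hc, by omega, h2⟩, if_pos h1]

lemma p0_prt_other {P : HV V σ} (hP : ∀ s c, c < H.len s → P ≠ Sum.inr (s, c, 0)) :
    prt (p0 H N m) P = {w | w = P ∧ p0 H N m w = some P} := by
  classical
  ext w
  constructor
  · intro hw
    refine ⟨?_, hw⟩
    rcases p0_eq_some (m := m) hw with ⟨v, rfl, h⟩ | ⟨s', c', b, rfl, h1, h2, h3, h4⟩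
    · exact h.symm
    · split_ifs at h4 with h6
      · exact absurd h4 (hP s' c' h1)
      · exact h4.symm
  · exact fun hw => hw.2

lemma finite_MidS (s : σ) (c k : ℕ) : (MidS (V := V) N s c k).Finite := by
  have h1 : MidS (V := V) N s c k ⊆ {Sum.inr (s, c, 0)} ∪
      (fun b : ℤ => (Sum.inr (s, c, b) : HV V σ)) '' Set.Ioc N (N + k) := by
    rintro w ⟨b, rfl, rfl | ⟨h1, h2⟩⟩
    · exact Or.inl rfl
    · exact Or.inr ⟨b, ⟨h1, h2⟩, rfl⟩
  exact ((Set.finite_singleton _).union ((Set.finite_Ioc _ _).image _)).subset h1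

lemma finite_p0_prt (hN : 0 ≤ N) (P : HV V σ) : (prt (p0 H N m) P).Finite := by
  by_cases hP : ∃ s c, c < H.len s ∧ P = Sum.inr (s, c, 0)
  · obtain ⟨s, c, hc, rfl⟩ := hP
    rw [p0_prt_zero hN hc]
    exact finite_MidS _ _ _
  · push Not at hP
    rw [p0_prt_other hP]
    exact (Set.finite_singleton P).subset fun w hw => hw.1

/-- **The quotient.** -/
lemma HostG.quo [M.Finite] (h : HostG H N M Sw ends m) (hN : 0 ≤ N) :
    ∃ F : HV V σ → Set α, (∀ P, (∀ s c, c < H.len s → P ≠ Sum.inr (s, c, 0)) → F P = ∅) ∧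
      Quo Sw ends (p0 H N m) F
        {e | e ∈ Sw ∧ ∃ u v u' v', ends e = s(u, v) ∧ p0 H N m u = some u' ∧
          p0 H N m v = some v' ∧ u' ≠ v'}
        (fun e => (ends e).map fun w => (p0 H N m w).getD w) := by
  classical
  have htree : ∀ P, ∃ F : Set α, ((∀ s c, c < H.len s → P ≠ Sum.inr (s, c, 0)) → F = ∅) ∧
      ((prt (p0 H N m) P = ∅ ∧ F = ∅) ∨ Arb Sw ends (prt (p0 H N m) P) F) := by
    intro P
    by_cases hP : ∃ s c, c < H.len s ∧ P = Sum.inr (s, c, 0)
    · obtain ⟨s, c, hc, rfl⟩ := hP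
      obtain ⟨τ, hτ⟩ := exists_arb (finite_MidS (V := V) (N := N) s c (m s c))
        ⟨Sum.inr (s, c, 0), 0, rfl, Or.inl rfl⟩ (h.mid s c hc).1
      refine ⟨τ, fun hcon => absurd rfl (hcon s c hc), Or.inr ?_⟩
      rw [p0_prt_zero hN hc]
      exact hτ
    · push Not at hP
      refine ⟨∅, fun _ => rfl, ?_⟩
      rw [p0_prt_other hP]
      by_cases h1 : p0 H N m P = some P
      · right
        have : {w | w = P ∧ p0 H N m w = some P} = {P} := by
          ext w
          constructor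
          · exact fun hw => hw.1
          · rintro rfl
            exact ⟨rfl, h1⟩
        rw [this]
        exact Arb.single P
      · left
        refine ⟨?_, rfl⟩
        ext w
        simp only [mem_ofPred_eq, mem_empty_iff_false, iff_false]
        rintro ⟨rfl, h2⟩
        exact h1 h2
  choose F hF0 hF using htree
  refine ⟨F, hF0, ⟨finite_p0_prt hN, hF, fun e he => he.1, ?_, ?_⟩⟩
  · rintro e ⟨_, u, v, u', v', h1, h2, h3, _⟩
    refine ⟨u, v, u', v', h1, h2, h3, ?_⟩
    rw [h1, Sym2.map_mk, h2, h3]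
    rfl
  · intro P
    rw [Set.disjoint_left]
    rintro e ⟨_, u, v, u', v', h1, h2, h3, h4⟩ hF'
    rcases hF P with ⟨_, h5⟩ | h5
    · rw [h5] at hF'
      exact hF'
    · have h6 := (h5.1 hF').2
      have h7 : p0 H N m u = some P := h6 u (by rw [h1]; simp)
      have h8 : p0 H N m v = some P := h6 v (by rw [h1]; simp)
      rw [h2] at h7
      rw [h3] at h8
      exact h4 ((Option.some.inj h7).trans (Option.some.inj h8).symm)

/-- kept elements -/
def Sk (H : Host V σ) (N : ℤ) (Sw : Set α) (ends : α → Sym2 (HV V σ)) (m : σ → ℕ → ℕ) : Set α :=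
  {e | e ∈ Sw ∧ ∃ u v u' v', ends e = s(u, v) ∧ p0 H N m u = some u' ∧
    p0 H N m v = some v' ∧ u' ≠ v'}

/-- ends after the contraction -/
noncomputable def ek (H : Host V σ) (N : ℤ) (ends : α → Sym2 (HV V σ)) (m : σ → ℕ → ℕ) (e : α) :
    Sym2 (HV V σ) := (ends e).map fun w => (p0 H N m w).getD w

lemma exists_pair (z : Sym2 (HV V σ)) : ∃ u v, z = s(u, v) := by
  induction z with
  | _ a b => exact ⟨a, b, rfl⟩

/-- host adjacency before and after the contraction -/
lemma HostG.hadj (h : HostG H N M Sw ends m) (hN : 1 ≤ N) {u v : HV V σ} (huv : H.Adj N u v)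
    (hu : ∀ s c b, u = Sum.inr (s, c, b) → c < H.len s ∧ -N ≤ b ∧ b ≤ N)
    (hv : ∀ s c b, v = Sum.inr (s, c, b) → c < H.len s ∧ -N ≤ b ∧ b ≤ N) (hne : u ≠ v) :
    ∃ e ∈ Sk H N Sw ends m, ek H N ends m e = s(u, v) := by
  classical
  -- it is enough to find an element between the parts
  have key : ∀ a b, GAdj Sw ends a b → p0 H N m a = some u → p0 H N m b = some v →
      ∃ e ∈ Sk H N Sw ends m, ek H N ends m e = s(u, v) := by
    rintro a b ⟨e, he, hee⟩ ha hb
    refine ⟨e, ⟨he, a, b, u, v, hee, ha, hb, hne⟩, ?_⟩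
    unfold ek
    rw [hee, Sym2.map_mk, ha, hb]
    rfl
  by_cases h0 : NZ H N u ∧ NZ H N v
  · exact key u v (h.emb u v h0.1 h0.2 huv) (p0_nz h0.1) (p0_nz h0.2)
  -- vertical edges at the window `0`
  have hz : ∀ s c, c < H.len s → ∀ w ∈ MidS (V := V) N s c (m s c),
      p0 H N m w = some (Sum.inr (s, c, 0)) := by
    intro s c hc w hw
    have : w ∈ prt (p0 H N m) (Sum.inr (s, c, 0)) := by
      rw [p0_prt_zero (by omega) hc]
      exact hw
    exact this
  have hE : ∀ x y : HV V σ, H.E N x y → (¬ NZ H N x ∨ ¬ NZ H N y) →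
      (∀ s c b, x = Sum.inr (s, c, b) → c < H.len s ∧ -N ≤ b ∧ b ≤ N) →
      (∀ s c b, y = Sum.inr (s, c, b) → c < H.len s ∧ -N ≤ b ∧ b ≤ N) →
      ∃ s c, c < H.len s ∧ ((x = Sum.inr (s, c, -1) ∧ y = Sum.inr (s, c, 0)) ∨
        (x = Sum.inr (s, c, 0) ∧ y = Sum.inr (s, c, 1))) := by
    rintro (x | ⟨s, c, b⟩) (y | ⟨s', c', b'⟩) hxy hnz hx hy
    · rcases hnz with h1 | h1 <;> exact absurd trivial h1
    · obtain ⟨h1, h2⟩ := hxy
      rcases hnz with h3 | h3
      · exact absurd trivial h3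
      · refine absurd ⟨h1, ?_, ?_, ?_⟩ h3 <;> omega
    · exact hxy.elim
    · obtain ⟨rfl, h2, h3, h4, h5⟩ := hxy
      obtain ⟨hx1, hx2, hx3⟩ := hx s c b rfl
      obtain ⟨hy1, hy2, hy3⟩ := hy s c' b' rfl
      rcases h5 with ⟨rfl, rfl⟩ | ⟨rfl, rfl, h5⟩
      · refine ⟨s, c, hx1, ?_⟩
        have hb : b = 0 ∨ b + 1 = 0 := by
          by_contra hcon
          rw [not_or] at hcon
          rcases hnz with h6 | h6
          · exact h6 ⟨hx1, hx2, hx3, hcon.1⟩
          · exact h6 ⟨hy1, hy2, hy3, hcon.2⟩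
        rcases hb with rfl | hb
        · exact Or.inr ⟨rfl, rfl⟩
        · have : b = -1 := by omega
          subst this
          exact Or.inl ⟨rfl, rfl⟩
      · rcases hnz with h6 | h6
        · exact absurd ⟨hx1, hx2, hx3, h5⟩ h6
        · exact absurd ⟨hy1, hy2, hy3, h5⟩ h6
  have hnz : ¬ NZ H N u ∨ ¬ NZ H N v := by
    by_contra hcon
    rw [not_or, not_not, not_not] at hcon
    exact h0 hcon
  have hfin : ∀ x y : HV V σ, (x = u ∧ y = v) ∨ (x = v ∧ y = u) → (∃ s c, c < H.len s ∧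
      ((x = Sum.inr (s, c, -1) ∧ y = Sum.inr (s, c, 0)) ∨
        (x = Sum.inr (s, c, 0) ∧ y = Sum.inr (s, c, 1)))) →
      ∃ e ∈ Sk H N Sw ends m, ek H N ends m e = s(u, v) := by
    rintro x y hxy ⟨s, c, hc, h1⟩
    have hm1 : p0 H N m (Sum.inr (s, c, -1) : HV V σ) = some (Sum.inr (s, c, -1)) :=
      p0_nz ⟨hc, by omega, by omega, by omega⟩
    have hp1 : p0 H N m (Sum.inr (s, c, 1) : HV V σ) = some (Sum.inr (s, c, 1)) :=
      p0_nz ⟨hc, by omega, by omega, by omega⟩
    have h2 : ∃ a b, GAdj Sw ends a b ∧ p0 H N m a = some x ∧ p0 H N m b = some y := by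
      rcases h1 with ⟨rfl, rfl⟩ | ⟨rfl, rfl⟩
      · obtain ⟨e, he, a, ha, b, hb, hee⟩ := (h.mid s c hc).2.1
        rw [mem_singleton_iff] at ha
        subst ha
        exact ⟨_, b, ⟨e, he, hee⟩, hm1, hz s c hc b hb⟩
      · obtain ⟨e, he, a, ha, b, hb, hee⟩ := (h.mid s c hc).2.2
        rw [mem_singleton_iff] at hb
        subst hb
        exact ⟨a, _, ⟨e, he, hee⟩, hz s c hc a ha, hp1⟩
    obtain ⟨a, b, hab, ha, hb⟩ := h2
    rcases hxy with ⟨rfl, rfl⟩ | ⟨rfl, rfl⟩
    · exact key a b hab ha hb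
    · exact key b a hab.symm hb ha
  rcases huv with huv | huv
  · exact hfin u v (Or.inl ⟨rfl, rfl⟩) (hE u v huv hnz hu hv)
  · exact hfin v u (Or.inr ⟨rfl, rfl⟩) (hE v u huv hnz.symm hv hu)

lemma Sk_eq : Sk H N Sw ends m = {e | e ∈ Sw ∧ ∃ u v u' v', ends e = s(u, v) ∧
    p0 H N m u = some u' ∧ p0 H N m v = some v' ∧ u' ≠ v'} := rfl

lemma ek_of {e : α} {u v u' v' : HV V σ} (h : ends e = s(u, v)) (hu : p0 H N m u = some u')
    (hv : p0 H N m v = some v') : ek H N ends m e = s(u', v') := by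
  unfold ek
  rw [h, Sym2.map_mk, hu, hv]
  rfl

lemma HostG.adj (h : HostG H N M Sw ends m) {e : α} (he : e ∈ Sk H N Sw ends m) {u v : HV V σ}
    (huv : ek H N ends m e = s(u, v)) : H.Adj N u v := by
  obtain ⟨he1, a, b, a', b', h1, h2, h3, h4⟩ := he
  rw [ek_of h1 h2 h3] at huv
  obtain ⟨a'', b'', h5, h6, h7⟩ := h.conv e he1 a b h1
  rw [h2] at h5
  rw [h3] at h6
  have e1 : a' = a'' := Option.some.inj h5
  have e2 : b' = b'' := Option.some.inj h6
  subst e1
  subst e2
  rcases h7 with h7 | h7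
  · exact absurd h7 h4
  · rcases Sym2.eq_iff.1 huv with ⟨rfl, rfl⟩ | ⟨rfl, rfl⟩
    · exact h7
    · exact h7.symm

lemma region_of_adj (hN : 0 ≤ N) {u v : HV V σ} (huv : H.Adj N u v) :
    ∀ s c b, u = Sum.inr (s, c, b) → c < H.len s ∧ -N ≤ b ∧ b ≤ N := by
  rintro s c b rfl
  rcases huv with huv | huv
  · rcases v with v | ⟨s', c', b'⟩
    · exact huv.elim
    · obtain ⟨rfl, h2, h3, h4, h5⟩ := huv
      rcases h5 with ⟨rfl, rfl⟩ | ⟨rfl, rfl, h5⟩
      · exact ⟨h2, h3, by omega⟩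
      · exact ⟨by omega, h3, h4⟩
  · rcases v with v | ⟨s', c', b'⟩
    · obtain ⟨h1, h2⟩ := huv
      exact ⟨h1, by omega, by omega⟩
    · obtain ⟨rfl, h2, h3, h4, h5⟩ := huv
      rcases h5 with ⟨rfl, rfl⟩ | ⟨rfl, rfl, h5⟩
      · exact ⟨h2, by omega, h4⟩
      · exact ⟨h2, h3, h4⟩

lemma HostG.ne_of_adj (h : HostG H N M Sw ends m) {u v : HV V σ} (huv : H.Adj N u v) :
    u ≠ v := by
  rintro rfl
  have : H.E N u u := by
    rcases huv with h1 | h1 <;> exact h1
  rcases u with v | ⟨s, c, b⟩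
  · exact h.irr v this
  · obtain ⟨_, _, _, _, h5⟩ := this
    omega

lemma HostG.hadj' (h : HostG H N M Sw ends m) (hN : 1 ≤ N) {u v : HV V σ} (huv : H.Adj N u v) :
    ∃ e ∈ Sk H N Sw ends m, ek H N ends m e = s(u, v) :=
  h.hadj hN huv (region_of_adj (by omega) huv) (region_of_adj (by omega) huv.symm)
    (h.ne_of_adj huv)

lemma ShV_finite (s : σ) (H : Host V σ) (N : ℤ) (m : σ → ℕ → ℕ) : (ShV H N m s).Finite := by
  have h1 : ShV H N m s ⊆ ⋃ c ∈ Finset.range (H.len s),
      (fun b : ℤ => (Sum.inr (s, c, b) : HV V σ)) '' Set.Icc (-N) (N + m s c) := by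
    rintro v ⟨c, b, rfl, h1, h2, h3⟩
    rw [mem_iUnion₂]
    exact ⟨c, Finset.mem_range.2 h1, b, ⟨h2, h3⟩, rfl⟩
  refine Set.Finite.subset ?_ h1
  exact (Finset.finite_toSet _).biUnion fun c _ => (Set.finite_Icc _ _).image _

lemma ShW_sub (s : σ) : ShW H N s ⊆ ShV H N m s := by
  rintro v ⟨c, b, rfl, h1, h2, h3⟩
  exact ⟨c, b, rfl, h1, h2, by omega⟩

lemma ShW_vconn (h : HostG H N M Sw ends m) (hN : 1 ≤ N) (s : σ) :
    VConn (Sk H N Sw ends m) (ek H N ends m) (ShW H N s) := by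
  -- every vertex is connected to `(s, 0, -N)`
  have hst : ∀ u v : HV V σ, u ∈ ShW H N s → v ∈ ShW H N s → H.Adj N u v →
      ReflTransGen (fun a b => GAdj (Sk H N Sw ends m) (ek H N ends m) a b ∧ a ∈ ShW H N s ∧
        b ∈ ShW H N s) u v := fun u v hu hv huv =>
    ReflTransGen.single ⟨h.hadj' hN huv, hu, hv⟩
  have hsym : ∀ u v : HV V σ, ReflTransGen (fun a b => GAdj (Sk H N Sw ends m) (ek H N ends m) a b ∧
      a ∈ ShW H N s ∧ b ∈ ShW H N s) u v → ReflTransGen (fun a b =>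
      GAdj (Sk H N Sw ends m) (ek H N ends m) a b ∧ a ∈ ShW H N s ∧ b ∈ ShW H N s) v u := by
    intro u v h1
    induction h1 with
    | refl => exact ReflTransGen.refl
    | tail _ h2 ih => exact (ReflTransGen.single ⟨h2.1.symm, h2.2.2, h2.2.1⟩).trans ih
  have hmem : ∀ c (b : ℤ), c < H.len s → -N ≤ b → b ≤ N →
      (Sum.inr (s, c, b) : HV V σ) ∈ ShW H N s := fun c b h1 h2 h3 => ⟨c, b, rfl, h1, h2, h3⟩
  have hv : ∀ c, c < H.len s → ∀ n : ℕ, (n : ℤ) ≤ 2 * N →
      ReflTransGen (fun a b => GAdj (Sk H N Sw ends m) (ek H N ends m) a b ∧ a ∈ ShW H N s ∧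
        b ∈ ShW H N s) (Sum.inr (s, c, -N)) (Sum.inr (s, c, -N + n)) := by
    intro c hc n
    induction n with
    | zero =>
      intro _
      have e : -N + ((0 : ℕ) : ℤ) = -N := by simp
      rw [e]
    | succ n ih =>
      intro hn
      push_cast at hn
      refine (ih (by omega)).trans ?_
      refine hst _ _ (hmem c _ hc (by omega) (by omega)) (hmem c _ hc (by push_cast; omega)
        (by push_cast; omega)) (Or.inl ⟨rfl, hc, by omega, by push_cast; omega, Or.inl ⟨rfl, by push_cast; omega⟩⟩)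
  have hh : ∀ c, c < H.len s → ReflTransGen (fun a b =>
      GAdj (Sk H N Sw ends m) (ek H N ends m) a b ∧ a ∈ ShW H N s ∧ b ∈ ShW H N s)
      (Sum.inr (s, 0, -N)) (Sum.inr (s, c, -N)) := by
    intro c
    induction c with
    | zero => exact fun _ => ReflTransGen.refl
    | succ c ih =>
      intro hc
      refine (ih (by omega)).trans ?_
      exact hst _ _ (hmem c _ (by omega) le_rfl (by omega)) (hmem _ _ hc le_rfl (by omega))
        (Or.inl ⟨rfl, hc, le_rfl, by omega, Or.inr ⟨rfl, rfl, by omega⟩⟩)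
  have key : ∀ w ∈ ShW H N s, ReflTransGen (fun a b =>
      GAdj (Sk H N Sw ends m) (ek H N ends m) a b ∧ a ∈ ShW H N s ∧ b ∈ ShW H N s)
      (Sum.inr (s, 0, -N)) w := by
    rintro w ⟨c, b, rfl, h1, h2, h3⟩
    have h4 := hv c h1 (b + N).toNat (by omega)
    have e : -N + (((b + N).toNat : ℕ) : ℤ) = b := by omega
    rw [e] at h4
    exact (hh c h1).trans h4
  intro u hu v hv'
  exact (hsym _ _ (key u hu)).trans (key v hv')

end

section

variable {H : Host V σ} {N : ℤ} {M : Matroid α} {Sw : Set α} {ends : α → Sym2 (HV V σ)}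
  {m : σ → ℕ → ℕ}

/-- **The host after contraction of the middle windows, and what remains of it.** -/
theorem HostG.real [M.Finite] (h : HostG H N M Sw ends m) (hN : 1 ≤ N) :
    ∃ F₀ : Set α, RealH H N (M ／ F₀) (Sk H N Sw ends m) (ek H N ends m) ∧
      ∀ A : Set (HV V σ), (∀ w ∈ A, NZ H N w) → ∀ X ⊆ ins (Sk H N Sw ends m) (ek H N ends m) A,
        X ⊆ ins Sw ends A ∧ rk (M ／ F₀) X = rk M X := by
  classical
  obtain ⟨F, hF0, hQ'⟩ := h.quo (by omega)
  have hQ : Quo Sw ends (p0 H N m) F (Sk H N Sw ends m) (ek H N ends m) := hQ'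
  clear hQ'
  have hFU : FrmU M Sw ends 0 := h.frm.frmU
  have hE : ∀ e ∈ Sk H N Sw ends m, ∀ P, ek H N ends m e ≠ s(P, P) := by
    rintro e ⟨_, u, v, u', v', h1, h2, h3, h4⟩ P hP
    rw [ek_of h1 h2 h3] at hP
    rcases Sym2.eq_iff.1 hP with ⟨rfl, rfl⟩ | ⟨rfl, rfl⟩ <;> exact h4 rfl
  have hfr := FrmU.quo hFU hQ (fun e he P hP => absurd hP (hE e he P))
  have hfrm : Frm (M ／ FO F univ) (Sk H N Sw ends m) (ek H N ends m) := frm_of_frmU hfr
  have hnzsub : ∀ A : Set (HV V σ), (∀ w ∈ A, NZ H N w) →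
      ins (Sk H N Sw ends m) (ek H N ends m) A ⊆ ins Sw ends A := by
    rintro A hA e ⟨⟨he, u, v, u', v', h1, h2, h3, h4⟩, he2⟩
    refine ⟨he, ?_⟩
    have hback : ∀ w w', p0 H N m w = some w' → w' ∈ A → w ∈ A := by
      intro w w' hw hw'
      have hnz := hA w' hw'
      rcases p0_eq_some (m := m) hw with ⟨x, rfl, rfl⟩ | ⟨s, c, b, rfl, g1, g2, g3, rfl⟩
      · exact hw'
      · split_ifs at hnz hw' with g4
        · exact absurd rfl hnz.2.2.2
        · exact hw'
    intro w hw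
    rw [h1] at hw
    rw [ek_of h1 h2 h3] at he2
    rcases Sym2.mem_iff.1 hw with rfl | rfl
    · exact hback _ _ h2 (he2 u' (by simp))
    · exact hback _ _ h3 (he2 v' (by simp))
  refine ⟨FO F univ, ⟨hfrm, fun u v huv => h.hadj' hN huv, fun e he u v huv => h.adj he huv, ?_⟩,
    ?_⟩
  · -- balanced pages
    intro s A hAf hAne hAc hAs
    have hEm : rk (M ／ FO F univ) ∅ = 0 := CWL.rk_empty _
    by_cases hAW : A ⊆ ShW H N s
    · have hlen : 0 < H.len s := by
        obtain ⟨w, hw⟩ := hAne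
        obtain ⟨c, b, _, h1, _⟩ := hAW hw
        omega
      have h1 := hfrm.grow_over (R := ∅) (empty_subset _)
        ((ShV_finite s H N m).subset (ShW_sub s)) hAW hAne (ShW_vconn h hN s)
        (fun e he => absurd he (Set.notMem_empty e))
      rw [empty_union, empty_union] at h1
      -- the rank of the sheet
      have h2 := h.bal s hlen
      set O : Set (HV V σ) := ShW H N s with hO
      have h3 := hQ.rk_transfer hFU (O := O) (X := ins (Sk H N Sw ends m) (ek H N ends m) O)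
        (fun e he => he)
      have hd1 : ins (Sk H N Sw ends m) (ek H N ends m) O ⊆ M.E \ FO F O := fun e he =>
        ⟨h.frm.sub he.1.1, Set.disjoint_left.1 (hQ.S_disj O) he.1⟩
      have h4 := BICS.rk_contract_set (M := M) ((hQ.FO_sub O).trans h.frm.sub) hd1
      have h5 : rk M (FO F O) = (FO F O).ncard := rk_indep (hQ.FO_indep hFU O)
      have hsub : ins (Sk H N Sw ends m) (ek H N ends m) O ∪ FO F O ⊆
          ins Sw ends (ShV H N m s) := by
        have hin : ∀ w w', p0 H N m w = some w' → w' ∈ O → w ∈ ShV H N m s := by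
          rintro w w' hw hw'
          rcases p0_eq_some (m := m) hw with ⟨x, rfl, rfl⟩ | ⟨s', c, b, rfl, g1, g2, g3, rfl⟩
          · obtain ⟨_, _, g, _⟩ := hw'
            exact absurd g (by simp)
          · obtain ⟨c', b', g4, _⟩ := hw'
            simp only [Sum.inr.injEq, Prod.mk.injEq] at g4
            obtain ⟨rfl, _⟩ := g4
            exact ⟨c, b, rfl, g1, g2, g3⟩
        rintro e (he | he)
        · refine ⟨he.1.1, fun w hw => ?_⟩
          obtain ⟨P, hP, hwP⟩ := hQ.ends_in he hw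
          exact hin w P hwP hP
        · obtain ⟨P, hP, he⟩ := mem_FO.1 he
          exact ⟨(hQ.F_ins he).1, fun w hw => hin w P ((hQ.F_ins he).2 w hw) hP⟩
      have h6 := rk_mono M hsub
      -- counting
      have h7 : (ShV H N m s).ncard = O.ncard + (FO F O).ncard := by
        have hcount := hQ.ncard_parts hFU (W := O) ((ShV_finite s H N m).subset (ShW_sub s))
        have e1 : {v | ∃ P ∈ O, p0 H N m v = some P} = ShV H N m s := by
          ext w
          constructor
          · rintro ⟨P, hP, hwP⟩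
            rcases p0_eq_some (m := m) hwP with ⟨x, rfl, rfl⟩ | ⟨s', c, b, rfl, g1, g2, g3, rfl⟩
            · obtain ⟨_, _, g, _⟩ := hP
              exact absurd g (by simp)
            · obtain ⟨c', b', g4, _⟩ := hP
              simp only [Sum.inr.injEq, Prod.mk.injEq] at g4
              obtain ⟨rfl, _⟩ := g4
              exact ⟨c, b, rfl, g1, g2, g3⟩
          · rintro ⟨c, b, rfl, g1, g2, g3⟩
            refine ⟨Sum.inr (s, c, if N < b then 0 else b), ?_, ?_⟩
            · refine ⟨c, _, rfl, g1, ?_, ?_⟩ <;> split_ifs <;> omega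
            · simp only [p0]
              rw [if_pos ⟨g1, g2, g3⟩]
        rw [e1] at hcount
        refine hcount ?_
        intro P hP
        obtain ⟨c, b, rfl, g1, g2, g3⟩ := hP
        refine ⟨Sum.inr (s, c, b), ?_⟩
        change p0 H N m _ = _
        simp only [p0]
        rw [if_pos ⟨g1, g2, by omega⟩, if_neg (by omega)]
      omega
    · -- an unused label
      obtain ⟨w, hw, hwn⟩ := Set.not_subset.1 hAW
      obtain ⟨c, b, rfl⟩ := hAs w hw
      have hno : ∀ w', ¬ GAdj (Sk H N Sw ends m) (ek H N ends m) (Sum.inr (s, c, b)) w' := by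
        rintro w' ⟨e, he, hee⟩
        have h1 := region_of_adj (by omega) (h.adj he hee) s c b rfl
        exact hwn ⟨c, b, rfl, h1⟩
      have hA1 : A = {Sum.inr (s, c, b)} := by
        refine Set.Subset.antisymm ?_ (singleton_subset_iff.2 hw)
        intro x hx
        have h1 := hAc _ hw x hx
        rcases Relation.ReflTransGen.cases_head h1 with h2 | ⟨y, h2, _⟩
        · exact h2.symm
        · exact absurd h2.1 (hno y)
      have h2 : ins (Sk H N Sw ends m) (ek H N ends m) A = ∅ := by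
        rw [Set.eq_empty_iff_forall_notMem]
        rintro e ⟨he, he2⟩
        obtain ⟨u, v, huv⟩ := exists_pair (ek H N ends m e)
        have h3 := he2 u (by rw [huv]; simp)
        rw [hA1, mem_singleton_iff] at h3
        subst h3
        exact hno v ⟨e, he, huv⟩
      rw [h2, hEm, hA1, ncard_singleton]
      omega
  · intro A hA X hX
    refine ⟨hX.trans (hnzsub A hA), ?_⟩
    have h1 := hQ.rk_transfer hFU hX
    have h2 : FO F A = ∅ := by
      rw [Set.eq_empty_iff_forall_notMem]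
      intro e he
      obtain ⟨P, hP, he⟩ := mem_FO.1 he
      rw [hF0 P (by
        rintro s c hc rfl
        exact (hA _ hP).2.2.2 rfl)] at he
      exact he
    rw [h1, h2, Matroid.contract_empty]

/-- the shift of helper45 and the contraction of helper63 -/
lemma Pz_shf {k D : ℤ} (hk : 0 ≤ k) {w : HV V σ} (hw : NZ H D w) : Pz k (shf k w) = w := by
  rcases w with v | ⟨s, c, b⟩
  · rfl
  · obtain ⟨_, _, _, h4⟩ := hw
    simp only [shf, Pz]
    split_ifs with hb
    · rw [pz_pos hk hb.le]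
    · rw [pz_neg hk (by omega)]

lemma Ph_eq_shf {k D : ℤ} (hk : 0 ≤ k) {A : Set (HV V σ)} (hA : ∀ w ∈ A, NZ H D w) :
    Ph k A = shf k '' A := by
  ext w
  constructor
  · intro hw
    refine ⟨Pz k w, hw, ?_⟩
    rcases w with v | ⟨s, c, b⟩
    · rfl
    · have h1 := (hA _ hw).2.2.2
      simp only [Pz, shf] at h1 ⊢
      have h2 : (if 0 < pz k b then pz k b + k else pz k b - k) = b := by
        unfold pz at h1 ⊢
        split_ifs at h1 ⊢ <;> omega
      rw [h2]
  · rintro ⟨w, hw, rfl⟩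
    change Pz k _ ∈ A
    rw [Pz_shf hk (hA w hw)]
    exact hw

end

/-- **The predicate `U` of a host with middle windows.** -/
theorem HostG.exists_U {α : Type*} {V σ X : Type} [Fintype X] {H : Host V σ} {N : ℤ}
    {M : Matroid α} [M.Finite] {Sw S : Set α} {ends : α → Sym2 (HV V σ)} {m : σ → ℕ → ℕ}
    (h : HostG H N M Sw ends m) (hN : 1 ≤ N)
    (hS : ∀ A : Set (HV V σ), (∀ w ∈ A, NZ H N w) → ins Sw ends A ⊆ ins S ends A) :
    ∃ (F₀ : Set α) (Sk : Set α) (ek : α → Sym2 (HV V σ)), RealH H N (M ／ F₀) Sk ek ∧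
      Jnt (X := X) H N (UU N (M ／ F₀) Sk ek) ∧ TSK.ULast M S ends H N (UU (X := X) N (M ／ F₀) Sk ek) := by
  classical
  obtain ⟨F₀, hR, hlast⟩ := h.real hN
  refine ⟨F₀, _, _, hR, hR.jnt, ?_⟩
  intro D f hD hDN hU I hI
  have hF := frm_sd hR.frm (N - D)
  have hnzA : ∀ y ∈ I, ∀ w ∈ Ph (N - D) {w | f w = some y}, NZ H N w := by
    intro y hy w hw
    have h1 := hI y hy (Pz (N - D) w) hw
    rcases w with v | ⟨s, c, b⟩
    · trivial
    · obtain ⟨h2, h3, h4, h5⟩ := h1
      refine ⟨h2, ?_, ?_, ?_⟩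
      · unfold pz at h3
        split_ifs at h3 <;> omega
      · unfold pz at h4
        split_ifs at h4 <;> omega
      · rintro rfl
        apply h5
        rw [pz_mid (by omega) (by omega)]
  have hf : ∀ y ∈ (Finset.univ : Finset X), (Ph (N - D) {w | f w = some y}).Finite :=
    fun y _ => finite_Ph (by omega) (hU.2.1 y)
  have h1 := hU.2.2.restr hF hf (Finset.subset_univ I)
  have e1 : ∀ y ∈ I, Ph (N - D) {w | f w = some y} = shf (N - D) '' {w | f w = some y} :=
    fun y hy => Ph_eq_shf (by omega) (fun w hw => hI y hy w hw)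
  unfold JU at h1 ⊢
  have e2 : ∑ y ∈ I, (shf (N - D) '' {w | f w = some y}).ncard =
      ∑ y ∈ I, (Ph (N - D) {w | f w = some y}).ncard :=
    Finset.sum_congr rfl fun y hy => by rw [e1 y hy]
  rw [e2]
  refine h1.trans ?_
  set A : Set (HV V σ) := {w | NZ H N w} with hA
  have h2 : (⋃ y ∈ I, ins (Sd (Sk H N Sw ends m) (ek H N ends m) (N - D)) (ek H N ends m)
      (Ph (N - D) {w | f w = some y})) ⊆ ins (Sk H N Sw ends m) (ek H N ends m) A := by
    intro e he
    rw [mem_iUnion₂] at he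
    obtain ⟨y, hy, he⟩ := he
    exact ⟨he.1.1, fun w hw => hnzA y hy w (he.2 w hw)⟩
  have h3 := (hlast A (fun w hw => hw) _ h2).2
  rw [h3]
  refine rk_mono M ?_
  intro e he
  rw [mem_iUnion₂] at he ⊢
  obtain ⟨y, hy, he⟩ := he
  refine ⟨y, hy, ?_⟩
  change e ∈ ins S ends (shf (N - D) '' {w | f w = some y})
  rw [← e1 y hy]
  refine hS _ (hnzA y hy) ?_
  exact (hlast _ (hnzA y hy) {e} (singleton_subset_iff.2 ⟨he.1.1, he.2⟩)).1 rfl

end TST
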