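import Pool.Agent.TST.StripC
import Pool.Agent.TST.UInst

/-!
# The graph of the strip (host of T-star): definitions

`StripS`: the strip at the base level.  `SG`: the graph of the strip after the contraction of the
other positions, on the labels `HV (OV X₀ β Lm) σ`.  `Sw`, `Sh`: the cheap elements; `hostL`: the host.
-/

open Set Relation
open scoped Matroid

namespace TST

open BIC Gad EN BICS Mdl

universe u

variable {α : Type u} {X₀ β σ : Type}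

/-! ### base level -/

/-- an element with one end in `VQ` becomes a loop -/
noncomputable def eQ {V : Type*} (VQ : Set V) (ends : α → Sym2 V) (e : α) : Sym2 V := by
  classical
  exact if h : ∃ v w, ends e = s(v, w) ∧ v ∉ VQ ∧ w ∈ VQ then s(h.choose, h.choose) else ends e

/-- elements with an end outside of `VQ` -/
def SQ {V : Type*} (VQ : Set V) (S : Set α) (ends : α → Sym2 V) : Set α :=
  {e | e ∈ S ∧ ∃ v ∈ ends e, v ∉ VQ}

/-- elements of the rows in `B` -/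
def rowE (W : RW X₀ β) (el : β → ℕ → α) (B : Set β) : Set α :=
  {e | ∃ r ∈ B, ∃ p < W.len r, el r p = e}

/-- nodes of the rows in `B` -/
def rowV (W : RW X₀ β) (B : Set β) : Set (Nd X₀ β) := {v | ∃ r ∈ B, ∃ p ≤ W.len r, W.nd r p = v}

/-- **Base frame.** `S` = elements of the rows and honest rungs (other elements with two nodes); `Q`
contains the elements of the rows `BQ`; the frame in `M` is for the elements which avoid these rows. -/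
structure BF (M : Matroid α) (W : RW X₀ β) (S : Set α) (ends : α → Sym2 (Nd X₀ β))
    (el : β → ℕ → α) (BQ : Set β) (Q : Set α) (u : ℕ) : Prop where
  row : RowIn W S ends el
  hdtl : ∀ r, W.hd r ≠ W.tl r
  sub : S ⊆ M.E
  frm : FrmU M (ins S ends (rowV W BQ)ᶜ) ends u
  frmQ : FrmU (M ／ Q) (SQ (rowV W BQ) S ends) (eQ (rowV W BQ) ends) 0
  Q_sub : Q ⊆ M.E
  Q_row : rowE W el BQ ⊆ Q
  Q_S : Q ∩ S ⊆ rowE W el BQ
  node : ∀ e ∈ S, ∀ v ∈ ends e, ∃ r, ∃ p ≤ W.len r, W.nd r p = v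

/-- columns of the sheets -/
abbrev CI {σ : Type} (ln : σ → ℕ) : Type := {p : σ × ℕ // p.2 < ln p.1}

/-- `p` is in the window `b` of the column `i` -/
def Cols.Win {W : RW X₀ β} {ι : Type*} {N : ℕ} (C : Cols W ι N) (i : ι) (b : ℤ) (p : ℕ) : Prop :=
  (C.x i (b + N).toNat < p ∧ p ≤ C.x i (b + N + 1).toNat) ∨
    (C.x i (b + N + 1).toNat < p ∧ p ≤ C.x i (b + N).toNat)

/-- `e` joins the windows `b` of the columns `i` and `j`. -/
def Joins {W : RW X₀ β} {ι : Type*} {N : ℕ} (C : Cols W ι N) (ends : α → Sym2 (Nd X₀ β)) (i j : ι)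
    (b : ℤ) (e : α) : Prop :=
  ∃ p p', C.Win i b p ∧ C.Win j b p' ∧ ends e = s(W.nd (C.R i) p, W.nd (C.R j) p')

/-- **The strip at the base level.** `Ed` = pairs of columns which are joined in all windows, `Rg` =
the chosen rungs, `Lost` = rows with an uncovered pass or with an end in `VQ`. -/
structure StripS (M : Matroid α) (W : RW X₀ β) (S : Set α) (ends : α → Sym2 (Nd X₀ β))
    (el : β → ℕ → α) (BQ : Set β) (Q : Set α) (u : ℕ) (ln : σ → ℕ) (N : ℕ) (C : Cols W (CI ln) N)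
    (ex : β → Finset ℕ) (Lost : Set β) (Ed : CI ln → CI ln → Prop) (Rg : Set α) : Prop where
  bf : BF M W S ends el BQ Q u
  N1 : 1 ≤ N
  exs : ∀ r, ∀ p ∈ ex r, p < W.len r ∧ ∀ i, C.R i = r →
    (∀ b ≤ 2 * N + 1, p < C.x i b) ∨ (∀ b ≤ 2 * N + 1, C.x i b < p)
  lost : ∀ r ∈ Lost, 0 ∈ ex r ∧ W.len r - 1 ∈ ex r
  good : ∀ r ∉ Lost, ((ex r = ∅ ∧ ∃ i, C.R i = r) ∨ (ex r = {0} ∧ ∀ i, C.R i ≠ r)) ∧
    W.nd r 0 ∉ rowV W BQ ∧ W.nd r (W.len r) ∉ rowV W BQ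
  colQ : ∀ i, C.R i ∉ BQ
  ed : ∀ i j, Ed i j → i ≠ j
  rg : ∀ e ∈ Rg, e ∈ S ∧ ∃ i j b, Ed i j ∧ -(N : ℤ) ≤ b ∧ b ≤ N ∧ b ≠ 0 ∧ Joins C ends i j b e
  rg_ex : ∀ i j, Ed i j → ∀ b : ℤ, -(N : ℤ) ≤ b → b ≤ N → b ≠ 0 → ∃ e ∈ Rg, Joins C ends i j b e

/-! ### labels -/

/-- outside vertices of the host: wall vertices and nodes of the rows outside of the columns -/
abbrev OV (X₀ β : Type) (Lm : ℕ) : Type := X₀ ⊕ (β × Fin (Lm + 1))

open Classical in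
/-- labels of the nodes of the shrunk rows `W` -/
noncomputable def lab {W : RW X₀ β} {ln : σ → ℕ} {N : ℕ} (T : Strip W (CI ln) N) (Lm : ℕ) :
    Nd X₀ β → HV (OV X₀ β Lm) σ
  | Sum.inl x => Sum.inl (Sum.inl x)
  | Sum.inr (r, p) =>
    if h : ∃ q : CI ln × ℤ, T.R q.1 = r ∧ -(N : ℤ) ≤ q.2 ∧ q.2 ≤ N + T.m q.1 ∧ T.idx q.1 q.2 = p then
      Sum.inr (h.choose.1.1.1, h.choose.1.1.2, h.choose.2)
    else Sum.inl (Sum.inr (r, Fin.ofNat (Lm + 1) p))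

/-- vertex of a column -/
def cv {V : Type*} {ln : σ → ℕ} (i : CI ln) (b : ℤ) : HV V σ := Sum.inr (i.1.1, i.1.2, b)

/-! ### the graph of the strip -/

/-- labels of the nodes of the rows in `B` -/
def rowL {W : RW X₀ β} {ln : σ → ℕ} {N : ℕ} (T : Strip W (CI ln) N) (Lm : ℕ) (B : Set β) :
    Set (HV (OV X₀ β Lm) σ) := lab T Lm '' rowV W B

/-- the elements which avoid the nodes of the rows `BQ` -/
def SfQ {W : RW X₀ β} {ln : σ → ℕ} {N : ℕ} (T : Strip W (CI ln) N) (Lm : ℕ) (BQ : Set β)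
    (Sf : Set α) (eL : α → Sym2 (HV (OV X₀ β Lm) σ)) : Set α :=
  {e ∈ Sf | ∀ v ∈ eL e, v ∉ rowL T Lm BQ}

/-- **The graph of the strip** (after contraction; `W` = the shrunk rows). -/
structure SG (M : Matroid α) (W : RW X₀ β) (el : β → ℕ → α) {ln : σ → ℕ} {N : ℕ}
    (T : Strip W (CI ln) N) (Lm : ℕ) (Sf : Set α) (eL : α → Sym2 (HV (OV X₀ β Lm) σ)) (Q : Set α)
    (BQ : Set β) (u : ℕ) (Ed : CI ln → CI ln → Prop) (Rg : Set α) : Prop where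
  N1 : 1 ≤ N
  strong : ∀ i i', i ≠ i' → T.R i = T.R i' →
    T.a i + 2 * N + T.m i + 1 < T.a i' ∨ T.a i' + 2 * N + T.m i' + 1 < T.a i
  len : ∀ r, 1 ≤ W.len r ∧ W.len r ≤ Lm
  hdtl : ∀ r, W.hd r ≠ W.tl r
  sub : Sf ⊆ M.E
  frmU : FrmU M (SfQ T Lm BQ Sf eL) eL u
  frm : Frm (M ／ Q) (SQ (rowL T Lm BQ) Sf eL) (eQ (rowL T Lm BQ) eL)
  Q_sub : Q ⊆ M.E
  Q_Sf : Q ∩ Sf ⊆ rowE W el BQ
  row : ∀ r k, k < W.len r → el r k ∈ Sf ∧
    eL (el r k) = s(lab T Lm (W.nd r k), lab T Lm (W.nd r (k + 1)))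
  inj : ∀ r k r' k', k < W.len r → k' < W.len r' → el r k = el r' k' → r = r' ∧ k = k'
  colQ : ∀ i, T.R i ∉ BQ
  ed : ∀ i j, Ed i j → i ≠ j
  rg : ∀ e ∈ Rg, e ∈ Sf ∧ ∃ i j b, Ed i j ∧ -(N : ℤ) ≤ b ∧ b ≤ N ∧ b ≠ 0 ∧
    eL e = s(cv i b, cv j b)
  rg_ex : ∀ i j, Ed i j → ∀ b : ℤ, -(N : ℤ) ≤ b → b ≤ N → b ≠ 0 → ∃ e ∈ Rg,
    eL e = s(cv i b, cv j b)
  Sf_sub : ∀ e ∈ Sf, e ∈ Rg ∨ ∃ r k, k < W.len r ∧ el r k = e

section host

variable {M : Matroid α} {W : RW X₀ β} {el : β → ℕ → α} {ln : σ → ℕ} {N : ℕ}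
  {T : Strip W (CI ln) N} {Lm : ℕ} {Sf : Set α} {eL : α → Sym2 (HV (OV X₀ β Lm) σ)} {Q : Set α}
  {BQ : Set β} {u : ℕ} {Ed : CI ln → CI ln → Prop} {Rg : Set α}

/-- elements of the rows inside of the column `i` -/
def ColE (W : RW X₀ β) (el : β → ℕ → α) (T : Strip W (CI ln) N) (i : CI ln) : Set α :=
  {e | ∃ k, T.a i ≤ k ∧ k < T.a i + 2 * N + T.m i ∧ el (T.R i) k = e}

/-- cheap elements, with the middle windows: rows outside of `Lost`, columns, rungs -/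
def Sw (W : RW X₀ β) (el : β → ℕ → α) (T : Strip W (CI ln) N) (Lost : Set β) (Rg : Set α) : Set α :=
  {e | ∃ r k, k < W.len r ∧ r ∉ Lost ∧ el r k = e} ∪ {e | ∃ i, e ∈ ColE W el T i} ∪ Rg

/-- cheap elements -/
def Sh (W : RW X₀ β) (el : β → ℕ → α) (T : Strip W (CI ln) N) (Lost : Set β) (Rg : Set α)
    (eL : α → Sym2 (HV (OV X₀ β Lm) σ)) : Set α :=
  {e | e ∈ Sw W el T Lost Rg ∧ ∀ v ∈ eL e, ∀ i, v ∉ MidS N i.1.1 i.1.2 (T.m i)}

/-- the host; `len` = `ln`, or `0` for sheets which are not used -/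
def hostL (S : Set α) (eL : α → Sym2 (HV (OV X₀ β Lm) σ)) (N : ℕ) (len : σ → ℕ) :
    Host (OV X₀ β Lm) σ where
  len := len
  A v w := GAdj S eL (Sum.inl v) (Sum.inl w)
  aL v s c := GAdj S eL (Sum.inl v) (Sum.inr (s, c, -(N : ℤ)))
  aR v s c := GAdj S eL (Sum.inl v) (Sum.inr (s, c, (N : ℤ)))
  gd _ := True

end host

end TST
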