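import Pool.Agent.BICS.Base

/-!
# Moves of rows (row MV of T-star, CLAIM A by minimality)

`RowF M Rw ν`: the rows `Rw s` are the series classes of a subdivided graph; all ranks are known:
`r(X) = |X| - ν {s | Rw s ⊆ X}`.  `moveA`: a part of a row is replaced by a balanced same-row
element.  `moveC`: a corner is moved along a row (a balanced element which closes two initial parts
of rows).
-/

set_option autoImplicit false

open Set BIC BICS
open scoped Matroid

namespace TST

variable {α ι : Type*} {M : Matroid α}

/-- **Exchange.** -/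
lemma drop_one {J W : Set α} {t x : α} (hJ : J ⊆ M.closure W) (htW : t ∈ M.closure W)
    (hx : x ∉ M.closure W) (ht : t ∈ M.closure (insert x J)) : t ∈ M.closure J := by
  by_contra hn
  have h1 := (M.closure_exchange ⟨ht, hn⟩).1
  refine hx ?_
  have h2 : insert t J ⊆ M.closure W := insert_subset htW hJ
  exact M.closure_subset_closure_of_subset_closure h2 h1

/-- Many elements are removed. -/
lemma drops {J : Set α} {t : α} {Q : Set α} (hQ : Q.Finite) :
    (∀ x ∈ Q, ∃ W, J ∪ (Q \ {x}) ⊆ W ∧ W ⊆ M.E ∧ t ∈ M.closure W ∧ x ∉ M.closure W) →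
    t ∈ M.closure (J ∪ Q) → t ∈ M.closure J := by
  induction Q, hQ using Set.Finite.induction_on with
  | empty =>
    intro _ h
    rwa [union_empty] at h
  | @insert x Q hxQ _ ih =>
    intro hW h
    refine ih ?_ ?_
    · intro y hy
      obtain ⟨W, h1, h2, h3, h4⟩ := hW y (Or.inr hy)
      refine ⟨W, ?_, h2, h3, h4⟩
      rintro z (hz | hz)
      · exact h1 (Or.inl hz)
      · exact h1 (Or.inr ⟨Or.inr hz.1, hz.2⟩)
    · obtain ⟨W, h1, h2, h3, h4⟩ := hW x (Or.inl rfl)
      refine drop_one (W := W) ?_ h3 h4 ?_
      · refine Subset.trans ?_ (M.subset_closure W h2)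
        rintro z (hz | hz)
        · exact h1 (Or.inl hz)
        · refine h1 (Or.inr ⟨Or.inr hz, ?_⟩)
          intro hzx
          exact hxQ (hzx ▸ hz)
      · rwa [← union_insert]

/-- A subdivided graph with known ranks. -/
structure RowF (M : Matroid α) (Rw : ι → Set α) (ν : Set ι → ℕ) : Prop where
  sub : ∀ s, Rw s ⊆ M.E
  ne : ∀ s, (Rw s).Nonempty
  dis : ∀ s s', s ≠ s' → Disjoint (Rw s) (Rw s')
  rk : ∀ X ⊆ ⋃ s, Rw s, BIC.rk M X + ν {s | Rw s ⊆ X} = X.ncard

/-- full rows -/
def full (Rw : ι → Set α) (X : Set α) : Set ι := {s | Rw s ⊆ X}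

lemma mem_full {Rw : ι → Set α} {X : Set α} {s : ι} : s ∈ full Rw X ↔ Rw s ⊆ X := Iff.rfl

section

variable {Rw : ι → Set α} {ν : Set ι → ℕ}

lemma RowF.sub' (h : RowF M Rw ν) : (⋃ s, Rw s) ⊆ M.E := iUnion_subset h.sub

lemma RowF.uniq (h : RowF M Rw ν) {s s' : ι} {x : α} (hx : x ∈ Rw s) (hx' : x ∈ Rw s') :
    s = s' := by
  by_contra hne
  exact Set.disjoint_left.1 (h.dis s s' hne) hx hx'

lemma RowF.rkf (h : RowF M Rw ν) {X : Set α} (hX : X ⊆ ⋃ s, Rw s) :
    BIC.rk M X + ν (full Rw X) = X.ncard := h.rk X hX

lemma rk_ins [M.Finite] {X : Set α} {x : α} (hxE : x ∈ M.E) (hx : x ∉ M.closure X) :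
    BIC.rk M (insert x X) = BIC.rk M X + 1 := by
  have h1 := M.eRk_insert_eq_add_one (e := x) (X := X) ⟨hxE, hx⟩
  rw [← cast_rk, ← cast_rk] at h1
  exact_mod_cast h1

lemma rk_ins_mem [M.Finite] {X : Set α} {x : α} (hx : x ∈ M.closure X) :
    BIC.rk M (insert x X) = BIC.rk M X := by
  rw [← rk_closure, Matroid.closure_insert_eq_of_mem_closure hx, rk_closure]

/-- One more element of an unfinished row. -/
lemma RowF.notMem [M.Finite] (h : RowF M Rw ν) {X : Set α} {x : α} {s : ι}
    (hX : X ⊆ ⋃ s, Rw s) (hx : x ∈ Rw s) (hxX : x ∉ X)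
    (hν : ν (full Rw (insert x X)) ≤ ν (full Rw X)) : x ∉ M.closure X := by
  intro hcl
  have hXf : X.Finite := M.ground_finite.subset (hX.trans h.sub')
  have h1 := h.rkf hX
  have h2 := h.rkf (X := insert x X) (insert_subset (mem_iUnion.2 ⟨s, hx⟩) hX)
  rw [ncard_insert_of_notMem hxX hXf, rk_ins_mem hcl] at h2
  omega

lemma RowF.full_insert (h : RowF M Rw ν) {X : Set α} {x : α} {s : ι} (hx : x ∈ Rw s)
    (hs : ¬ Rw s ⊆ insert x X) : full Rw (insert x X) = full Rw X := by
  ext s'
  rw [mem_full, mem_full]
  constructor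
  · intro h1 y hy
    rcases h1 hy with h2 | h2
    · subst h2
      rw [h.uniq hy hx] at h1
      exact absurd h1 hs
    · exact h2
  · exact fun h1 => h1.trans (subset_insert _ _)

/-- Two elements of a row are in series. -/
lemma RowF.series [M.Finite] (h : RowF M Rw ν) {X : Set α} {x y : α} {s : ι}
    (hX : X ⊆ ⋃ s, Rw s) (hx : x ∈ Rw s) (hxX : x ∉ X) (hy : y ∈ Rw s) (hyX : y ∉ X)
    (hxy : x ≠ y) : x ∉ M.closure X := by
  refine h.notMem hX hx hxX (le_of_eq ?_)
  rw [h.full_insert hx]
  intro h1
  rcases h1 hy with h2 | h2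
  · exact hxy h2.symm
  · exact hyX h2

/-- **Move (R-a).**  `A` is a class of the balanced same-row element `t`. -/
theorem RowF.moveA [M.Finite] [DecidableEq ι] (h : RowF M Rw ν) {s₀ : ι} {t : α} {A : Set α}
    (ht : t ∈ M.closure (Rw s₀)) (htS : ∀ s, t ∉ Rw s) (hA : A ⊆ Rw s₀) (hAne : A.Nonempty)
    (hcl : ∀ a ∈ A, ∀ a' ∈ A, a ≠ a' → t ∈ M.closure ((⋃ s, Rw s) \ {a, a'}))
    (hsep : ∀ a ∈ A, ∀ c ∈ Rw s₀, c ∉ A → t ∉ M.closure ((⋃ s, Rw s) \ {a, c}))
    (hbal : ∀ a ∈ A, t ∉ M.closure (Rw s₀ \ {a})) :
    RowF M (Function.update Rw s₀ (insert t (Rw s₀ \ A))) ν := by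
  have htE : t ∈ M.E := M.closure_subset_ground _ ht
  have hup : ∀ s, s ≠ s₀ → Function.update Rw s₀ (insert t (Rw s₀ \ A)) s = Rw s := fun s hs =>
    Function.update_of_ne hs _ _
  have hup0 : Function.update Rw s₀ (insert t (Rw s₀ \ A)) s₀ = insert t (Rw s₀ \ A) :=
    Function.update_self _ _ _
  obtain ⟨a, ha⟩ := hAne
  have hSE := h.sub'
  have hAE : A ⊆ M.E := hA.trans (h.sub s₀)
  have hAf : A.Finite := M.ground_finite.subset hAE
  refine ⟨?_, ?_, ?_, ?_⟩
  · intro s
    by_cases hs : s = s₀
    · rw [hs, hup0]
      exact insert_subset htE (sdiff_subset.trans (h.sub s₀))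
    · rw [hup s hs]
      exact h.sub s
  · intro s
    by_cases hs : s = s₀
    · rw [hs, hup0]
      exact ⟨t, mem_insert _ _⟩
    · rw [hup s hs]
      exact h.ne s
  · intro s s' hss
    by_cases hs : s = s₀
    · have hs' : s' ≠ s₀ := fun h1 => hss (hs.trans h1.symm)
      rw [hs, hup0, hup s' hs', Set.disjoint_left]
      rintro x (hx | hx) hx'
      · exact htS s' (hx ▸ hx')
      · exact hs' (h.uniq hx' hx.1)
    · by_cases hs' : s' = s₀
      · rw [hs', hup0, hup s hs, Set.disjoint_right]
        rintro x (hx | hx) hx'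
        · exact htS s (hx ▸ hx')
        · exact hs (h.uniq hx' hx.1)
      · rw [hup s hs, hup s' hs']
        exact h.dis s s' hss
  · intro X hX
    change BIC.rk M X + ν (full (Function.update Rw s₀ (insert t (Rw s₀ \ A))) X) = X.ncard
    obtain ⟨R', hR'⟩ : ∃ R', R' = Function.update Rw s₀ (insert t (Rw s₀ \ A)) := ⟨_, rfl⟩
    rw [← hR'] at hup hup0 hX ⊢
    -- the part without `t`
    have hX₀ : X \ {t} ⊆ ⋃ s, Rw s := by
      rintro x ⟨hx, hxt⟩
      obtain ⟨s, hs⟩ := mem_iUnion.1 (hX hx)
      by_cases hs0 : s = s₀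
      · rw [hs0, hup0] at hs
        exact mem_iUnion.2 ⟨s₀, (hs.resolve_left hxt).1⟩
      · rw [hup s hs0] at hs
        exact mem_iUnion.2 ⟨s, hs⟩
    have hXA : ∀ x ∈ X \ {t}, x ∉ A := by
      rintro x ⟨hx, hxt⟩ hxA
      obtain ⟨s, hs⟩ := mem_iUnion.1 (hX hx)
      by_cases hs0 : s = s₀
      · rw [hs0, hup0] at hs
        exact (hs.resolve_left hxt).2 hxA
      · rw [hup s hs0] at hs
        exact hs0 (h.uniq hs (hA hxA))
    obtain ⟨X₀, hX₀d⟩ : ∃ X₀, X₀ = X \ {t} := ⟨_, rfl⟩
    rw [← hX₀d] at hX₀ hXA
    have hX₀f : X₀.Finite := M.ground_finite.subset (hX₀.trans hSE)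
    have hns : s₀ ∉ full Rw X₀ := fun h1 => hXA a (h1 (hA ha)) ha
    have hoth : ∀ s, s ≠ s₀ → (Rw s ⊆ X ↔ Rw s ⊆ X₀) := by
      intro s hs
      rw [hX₀d]
      constructor
      · intro h1 x hx
        exact ⟨h1 hx, fun h2 => htS s (h2 ▸ hx)⟩
      · exact fun h1 => h1.trans sdiff_subset
    by_cases htX : t ∈ X
    · have hXe : X = insert t X₀ := by
        rw [hX₀d, insert_sdiff_singleton, insert_eq_of_mem htX]
      have htX₀ : t ∉ X₀ := by
        rw [hX₀d]
        exact fun h1 => h1.2 rfl
      have hcard : X.ncard = X₀.ncard + 1 := by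
        rw [hXe, ncard_insert_of_notMem htX₀ hX₀f]
      by_cases hfull : Rw s₀ \ A ⊆ X₀
      · -- the new row is complete
        have hu : X₀ ∪ A ⊆ ⋃ s, Rw s := union_subset hX₀
          (hA.trans (subset_iUnion Rw s₀))
        have hfe : full R' X = full Rw (X₀ ∪ A) := by
          ext s
          rw [mem_full, mem_full]
          by_cases hs : s = s₀
          · rw [hs, hup0]
            constructor
            · intro _ x hx
              by_cases hxA : x ∈ A
              · exact Or.inr hxA
              · exact Or.inl (hfull ⟨hx, hxA⟩)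
            · intro _
              rw [hXe]
              exact insert_subset_insert hfull
          · rw [hup s hs, hoth s hs]
            constructor
            · exact fun h1 => h1.trans subset_union_left
            · intro h1 x hx
              refine (h1 hx).resolve_right fun hxA => hs (h.uniq hx (hA hxA))
        have hdj : Disjoint X₀ A := Set.disjoint_left.2 hXA
        have h1 := h.rkf hu
        rw [ncard_union_eq hdj hX₀f hAf] at h1
        have h2 := h.rkf hX₀
        -- all but `a`
        have hu' : X₀ ∪ (A \ {a}) ⊆ ⋃ s, Rw s :=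
          (union_subset_union_right _ sdiff_subset).trans hu
        have hfe' : full Rw (X₀ ∪ (A \ {a})) = full Rw X₀ := by
          ext s
          rw [mem_full, mem_full]
          constructor
          · intro h3 x hx
            refine (h3 hx).resolve_right fun hxA => ?_
            rw [h.uniq hx (hA hxA.1)] at h3
            rcases h3 (hA ha) with h4 | h4
            · exact hXA a h4 ha
            · exact h4.2 rfl
          · exact fun h3 => h3.trans subset_union_left
        have h3 := h.rkf hu'
        have hdj' : Disjoint X₀ (A \ {a}) := hdj.mono_right sdiff_subset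
        have hca : (A \ {a}).ncard + 1 = A.ncard := ncard_sdiff_singleton_add_one ha hAf
        rw [hfe', ncard_union_eq hdj' hX₀f (hAf.subset sdiff_subset)] at h3
        have hins : insert a (X₀ ∪ (A \ {a})) = X₀ ∪ A := by
          rw [← union_insert, insert_sdiff_singleton, insert_eq_of_mem ha]
        have haE : a ∈ M.E := hAE ha
        rw [hfe]
        by_cases hac : a ∈ M.closure (X₀ ∪ (A \ {a}))
        · -- `t` is in the closure of `X₀`
          have h4 := rk_ins_mem hac
          rw [hins] at h4
          have h5 : t ∈ M.closure (X₀ ∪ (A \ {a})) := by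
            have h6 : M.closure (X₀ ∪ A) = M.closure (X₀ ∪ (A \ {a})) := by
              rw [← hins]
              exact Matroid.closure_insert_eq_of_mem_closure hac
            rw [← h6]
            refine M.closure_subset_closure ?_ ht
            intro x hx
            by_cases hxA : x ∈ A
            · exact Or.inr hxA
            · exact Or.inl (hfull ⟨hx, hxA⟩)
          have h6 : t ∈ M.closure X₀ := by
            refine drops (hAf.subset sdiff_subset) ?_ h5
            rintro x ⟨hx, hxa⟩
            have hxa' : x ≠ a := hxa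
            refine ⟨(⋃ s, Rw s) \ {a, x}, ?_, sdiff_subset.trans hSE,
              hcl a ha x hx (Ne.symm hxa'), ?_⟩
            · rintro z (hz | hz)
              · refine ⟨hX₀ hz, ?_⟩
                rintro (hz1 | hz1)
                · exact hXA z hz (hz1 ▸ ha)
                · have hz1' : z = x := hz1
                  exact hXA z hz (hz1' ▸ hx)
              · refine ⟨hu' (Or.inr hz.1), ?_⟩
                rintro (hz1 | hz1)
                · exact hz.1.2 hz1
                · exact hz.2 hz1
            · refine h.series sdiff_subset (hA hx) (fun h7 => h7.2 (Or.inr rfl)) (hA ha)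
                (fun h7 => h7.2 (Or.inl rfl)) hxa'
          have h7 := rk_ins_mem h6
          rw [← hXe] at h7
          omega
        · have h4 := rk_ins haE hac
          rw [hins] at h4
          have h6 : t ∉ M.closure X₀ := by
            intro h6
            apply hac
            have h7 : t ∈ M.closure (insert a (Rw s₀ \ {a})) \ M.closure (Rw s₀ \ {a}) := by
              refine ⟨?_, hbal a ha⟩
              rwa [insert_sdiff_singleton, insert_eq_of_mem (hA ha)]
            have h8 := (M.closure_exchange h7).1
            refine M.closure_subset_closure_of_subset_closure ?_ h8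
            have hu'' : X₀ ∪ (A \ {a}) ⊆ M.E := hu'.trans hSE
            refine insert_subset (M.closure_subset_closure subset_union_left h6) ?_
            refine Subset.trans ?_ (M.subset_closure _ hu'')
            rintro x ⟨hx, hxa⟩
            by_cases hxA : x ∈ A
            · exact Or.inr ⟨hxA, hxa⟩
            · exact Or.inl (hfull ⟨hx, hxA⟩)
          have h7 := rk_ins htE h6
          rw [← hXe] at h7
          omega
      · obtain ⟨c, hc, hcX⟩ := not_subset.1 hfull
        have hfe : full R' X = full Rw X₀ := by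
          ext s
          by_cases hs : s = s₀
          · rw [hs]
            constructor
            · intro h1
              rw [mem_full, hup0] at h1
              exfalso
              have h2 := h1 (Or.inr hc)
              rw [hXe] at h2
              rcases h2 with h2 | h2
              · exact htS s₀ (h2 ▸ hc.1)
              · exact hcX h2
            · exact fun h1 => absurd h1 hns
          · rw [mem_full, mem_full, hup s hs, hoth s hs]
        have h1 : t ∉ M.closure X₀ := by
          intro h1
          refine hsep a ha c hc.1 hc.2 (M.closure_subset_closure ?_ h1)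
          intro z hz
          refine ⟨hX₀ hz, ?_⟩
          rintro (hz1 | hz1)
          · exact hXA z hz (hz1 ▸ ha)
          · have hz1' : z = c := hz1
            exact hcX (hz1' ▸ hz)
        have h2 := rk_ins htE h1
        rw [← hXe] at h2
        have h3 := h.rkf hX₀
        rw [hfe]
        omega
    · have hXe : X = X₀ := by
        rw [hX₀d, sdiff_singleton_eq_self htX]
      have hfe : full R' X = full Rw X₀ := by
        ext s
        by_cases hs : s = s₀
        · rw [hs]
          constructor
          · intro h1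
            rw [mem_full, hup0] at h1
            exact absurd (h1 (mem_insert _ _)) htX
          · exact fun h1 => absurd h1 hns
        · rw [mem_full, mem_full, hup s hs, hoth s hs]
      rw [hfe, hXe]
      exact h.rkf hX₀

end

end TST
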