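import Pool.Agent.TST.LDef

/-!
# T-star, third level: final system (definitions)

`FSys`: labelled conflicts with honest rungs `T`, few classes, and small sets of rows.  `ClaimF`: from
`LSys` (many tiles) to `FSys`.  `RowFin`: from `FSys` to `Base`.  `claimA_of`: `ClaimA`.
-/

open Set BIC BICS CWL
open scoped Matroid

namespace TSH

universe u

open Mdl Mdj EN Gad TST EN.Wall

/-- nodes of the rows in `A` -/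
def LV {α : Type u} (L₁ : Bool × ℕ × ℕ → List α) (f₁ : α → Sym2 ((ℕ × ℕ) ⊕ α))
    (A : Set (Bool × ℕ × ℕ)) : Set ((ℕ × ℕ) ⊕ α) := {v | ∃ x ∈ crr L₁ A, v ∈ f₁ x}

/-- the vertices of the inner square -/
def Box (a n₀ : ℕ) : Set (ℕ × ℕ) :=
  {v | a ≤ v.1 ∧ v.1 ≤ a + (2 * n₀ - 1) ∧ a ≤ v.2 ∧ v.2 ≤ a + (2 * n₀ - 1)}

/-- the elements of the rows which avoid the nodes of `Zq` -/
def SA {α : Type u} (L₁ : Bool × ℕ × ℕ → List α) (f₁ : α → Sym2 ((ℕ × ℕ) ⊕ α)) (w : ℕ)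
    (Zq : Set (Bool × ℕ × ℕ)) : Set α :=
  {x | x ∈ crr L₁ (Seg w) ∧ ∀ v ∈ f₁ x, v ∉ LV L₁ f₁ Zq}

/-- the gap `b` of the label `i` contains the node `p` -/
def Gap (q : ℕ → ℕ → ℕ) (i b p : ℕ) : Prop := Btw (q i b) (q i (b + 1)) p

/-- the labels `i` and `j` belong to the same pass, or are joined by rungs in all gaps -/
def Jn {α : Type u} (L₁ : Bool × ℕ × ℕ → List α) (gT : α → Sym2 ((ℕ × ℕ) ⊕ α)) (T : Set α)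
    (n : ℕ) (R : ℕ → Bool × ℕ × ℕ) (q : ℕ → ℕ → ℕ) (i j : ℕ) : Prop :=
  (R i = R j ∧ RamP.Near n (q i) (q j)) ∨
    ∀ b, b + 1 < n → ∃ t ∈ T, ∃ p p', Gap q i b p ∧ Gap q j b p' ∧
      gT t = s(node (R i) (L₁ (R i)) p, node (R j) (L₁ (R j)) p')

/-- **Final system.**  `Zq` = rows which are contracted for the joint ground (outer ring, squares
around finitely many points), `LR` = light rows, `T` = honest rungs with the two nodes `gT`,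
`cls i < kc` = class of the label `i`, `pv` = private classes.  (V1), (V2) are not wanted any more. -/
structure FSys {α : Type u} (M : Matroid α) (w s : ℕ) (𝒯 : Finset (ℕ × ℕ))
    (L₁ : Bool × ℕ × ℕ → List α) (f₁ : α → Sym2 ((ℕ × ℕ) ⊕ α)) (e₁ : Bool × ℕ × ℕ → α) (u₁ : ℕ)
    (L₂ : Bool × ℕ × ℕ → List α) (f₂ : α → Sym2 ((ℕ × ℕ) ⊕ α)) (e₂ : Bool × ℕ × ℕ → α) (u₂ : ℕ)
    (n m : ℕ) (τ : ℕ → ℕ × ℕ) (R : ℕ → Bool × ℕ × ℕ) (c : ℕ → ℕ → α) (q : ℕ → ℕ → ℕ)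
    (a n₀ ρ η : ℕ) (F : ℕ → ℕ) (Zq LR : Set (Bool × ℕ × ℕ)) (T : Set α)
    (gT : α → Sym2 ((ℕ × ℕ) ⊕ α)) (kc : ℕ) (cls : ℕ → ℕ) (pv : Set ℕ) : Prop where
  pair : Pair M (Seg w) L₁ f₁ e₁ u₁ (tiles s 𝒯) L₂ f₂ e₂ u₂
  tau : ∀ b < n, τ b ∈ 𝒯
  row : ∀ i < m, R i ∈ Seg w
  pos : ∀ i < m, ∀ b < n, ∃ h : q i b < (L₁ (R i)).length, (L₁ (R i))[q i b] = c i b
  ns : ∀ i < m, ∀ j < m, R i = R j → RamP.Near n (q i) (q j) ∨ RamP.Sep n (q i) (q j)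
  inj : ∀ i < m, ∀ b < n, ∀ j < m, ∀ a < n, c i b = c j a → i = j ∧ b = a
  /-- all conflicts of the tiles in rows which are not in `Zq` are labelled -/
  tile : ∀ b < n, ∀ r ∈ Seg w, ∀ x ∈ L₁ r, x ∈ crr L₂ (shS (τ b).1 (τ b).2 '' Seg s) →
    ∃ i < m, x = c i b
  anchor : ∀ b < n, ∀ σ ∈ Seg s, ∀ r ∈ Seg w, e₂ (shS (τ b).1 (τ b).2 σ) ∈ L₁ r → r ∈ Zq
  wall : 2 ∣ a ∧ 4 ∣ n₀ ∧ 4 ≤ n₀ ∧ a + (2 * n₀ - 1) ≤ w ∧ w ≤ 4 * n₀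
  Zq_sub : Zq ⊆ LR
  LR_sub : LR ⊆ Seg w
  /-- the rows of `Zq` are inside or outside of the inner square -/
  Zq_box : ∀ r ∈ Zq, segNear r ∈ Box a n₀ ↔ segFar r ∈ Box a n₀
  /-- all rows which are not inside of the square are light -/
  ring : ∀ r ∈ Seg w, ¬ (segNear r ∈ Box a n₀ ∧ segFar r ∈ Box a n₀) → r ∈ LR
  ne : ∃ r ∈ Zq, segNear r ∈ Box a n₀
  big : 55 ≤ {v | v ∈ Box a n₀ ∧ ∃ r ∈ Zq, segNear r = v ∨ segFar r = v}.ncard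
  few : F {r | r ∈ Zq ∧ segNear r ∈ Box a n₀}.ncard ≤ w
  light : η * LR.ncard ≤ w ^ 2
  /-- the rest of the wall is connected -/
  con : VConn (SA L₁ f₁ w Zq) f₁ (LV L₁ f₁ (Seg w) \ LV L₁ f₁ Zq)
  /-- contraction of `Zq` kills the lift, and `Zq` is full -/
  kill : ∃ N : Matroid α, N.Finite ∧ Bic N (crr L₁ (Seg w)) f₁ ∧
    rk N (crr L₁ Zq) = (LV L₁ f₁ Zq).ncard ∧
    ∀ X ⊆ crr L₁ (Seg w), rk M (X ∪ crr L₁ Zq) + rk N (crr L₁ Zq) =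
      rk N (X ∪ crr L₁ Zq) + rk M (crr L₁ Zq)
  T_cl : T ⊆ M.closure (crr L₁ (Seg w))
  T₁ : Disjoint T (crr L₁ (Seg w))
  T₂ : Disjoint T (crr L₂ (tiles s 𝒯))
  /-- honest rungs: exactly two locations outside of `Zq`, inner nodes of rows which are not light -/
  hon : ∀ t ∈ T, (∃ r ∈ Seg w, r ∉ LR ∧ ∃ r' ∈ Seg w, r' ∉ LR ∧ ∃ p p', 0 < p ∧
    p < (L₁ r).length ∧ 0 < p' ∧ p' < (L₁ r').length ∧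
    gT t = s(node r (L₁ r) p, node r' (L₁ r') p')) ∧
    ∀ v ∈ LV L₁ f₁ (Seg w), v ∉ LV L₁ f₁ Zq →
      (v ∈ gT t ↔ t ∉ M.closure {x | x ∈ crr L₁ (Seg w) ∧ v ∉ f₁ x})
  /-- LIFT -/
  lift : rk M (T ∪ SA L₁ f₁ w Zq) ≤ rk M (SA L₁ f₁ w Zq) + ρ
  /-- few classes -/
  kc_le : η * kc ≤ w ^ 2
  cls_lt : ∀ i < m, R i ∉ LR → cls i < kc
  /-- a private class lives in two stars -/
  priv : ∀ k ∈ pv, ∃ v v' : ℕ × ℕ, ∀ i < m, R i ∉ LR → cls i = k →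
    (segNear (R i) = v ∨ segFar (R i) = v) ∨ (segNear (R i) = v' ∨ segFar (R i) = v')
  /-- the other classes are connected by honest rungs -/
  conn : ∀ i < m, ∀ j < m, R i ∉ LR → R j ∉ LR → cls i = cls j → cls i ∉ pv →
    Relation.ReflTransGen (fun x y => (x < m ∧ R x ∉ LR) ∧ (y < m ∧ R y ∉ LR) ∧ cls x = cls y ∧
      (Jn L₁ gT T n R q x y ∨ Jn L₁ gT T n R q y x)) i j

/-- **Claim F** (rows + stars, LIFT, gamma, count): from a label system with many tiles to a final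
system.  `κ'` = bound of the lifts of the output; `ρh` = side of the hot blocks; `ρ` and the least
side `sA` of the tiles depend on `k`, `κ`, `κ'`, `ρh` only.  `K₀` = width of the layer; `L ≤ L'` = thresholds of `Dens`.
The output has a subwall of side `w'` at `(i₀, j₀)` (rows may be dropped). -/
def ClaimF (k κ κ' ρh ρ : ℕ) : Prop :=
  ∃ sA : ℕ, ∀ (Cb s η : ℕ) (F : ℕ → ℕ), sA ≤ s → 2 ≤ s → 2 ∣ s →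
    ∃ (Df h' : ℕ → ℕ) (h K₀ w₁ : ℕ), ∀ wmax n' : ℕ,
    ∃ n ≥ 1, ∀ {α : Type u} (M : Matroid α) [M.Finite] (w L L' : ℕ) (𝒯 : Finset (ℕ × ℕ))
    (L₁ : Bool × ℕ × ℕ → List α) (f₁ : α → Sym2 ((ℕ × ℕ) ⊕ α)) (e₁ : Bool × ℕ × ℕ → α) (u₁ : ℕ)
    (L₂ : Bool × ℕ × ℕ → List α) (f₂ : α → Sym2 ((ℕ × ℕ) ⊕ α)) (e₂ : Bool × ℕ × ℕ → α) (u₂ : ℕ)
    (D : Set α) (m : ℕ) (τ : ℕ → ℕ × ℕ) (R : ℕ → Bool × ℕ × ℕ) (c : ℕ → ℕ → α) (q : ℕ → ℕ → ℕ)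
    (Za : Finset (Bool × ℕ × ℕ)),
    w₁ ≤ w → w ≤ wmax → L ≤ L' → L' ≤ wmax → u₁ ≤ κ → u₂ ≤ κ → Za.card ≤ (Seg (s + 2)).ncard →
    1 ≤ m →
    HotS κ' ρh M w s 𝒯 L₁ e₂ →
    LSys M w s (Seg (s + 2)).ncard 𝒯 L₁ f₁ e₁ u₁ L₂ f₂ e₂ u₂ D n m τ R c q Za →
    LCore M w s 𝒯 L₁ f₁ e₁ u₁ L₂ f₂ e₂ u₂ D n m τ c Za →
    Dens w L L' Cb h h' K₀ Df m R →
    HasUniformMinor M k ∨
    ∃ (M₁ : Matroid α) (𝒯' : Finset (ℕ × ℕ)) (L₁' : Bool × ℕ × ℕ → List α)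
      (f₁' : α → Sym2 ((ℕ × ℕ) ⊕ α)) (e₁' : Bool × ℕ × ℕ → α) (u₁' : ℕ)
      (L₂' : Bool × ℕ × ℕ → List α) (f₂' : α → Sym2 ((ℕ × ℕ) ⊕ α)) (u₂' : ℕ) (m' : ℕ)
      (τ' : ℕ → ℕ × ℕ)
      (R' : ℕ → Bool × ℕ × ℕ) (c' : ℕ → ℕ → α) (q' : ℕ → ℕ → ℕ)
      (a n₀ : ℕ) (Zq LR : Set (Bool × ℕ × ℕ)) (T : Set α) (gT : α → Sym2 ((ℕ × ℕ) ⊕ α)) (kc : ℕ)
      (cls : ℕ → ℕ) (pv : Set ℕ) (i₀ j₀ w' : ℕ),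
      M₁ ≤m M ∧ 𝒯' ⊆ 𝒯 ∧ u₁' ≤ κ' ∧ u₂' ≤ κ' ∧ m' ≤ Cb * w ^ 2 ∧
      w ≤ 2 * w' ∧ shS i₀ j₀ '' Seg w' ⊆ Seg w ∧ (∀ r ∈ Seg w', e₁' r ∈ L₁ (shS i₀ j₀ r)) ∧
      FSys M₁ w' s 𝒯' L₁' f₁' e₁' u₁' L₂' f₂' e₂ u₂' n' m' τ' R' c' q' a n₀
        ρ η F Zq LR T gT kc cls pv

/-- **Row Fin**: from the final system to `Base`. -/
def RowFin (κ ρ : ℕ) : Prop :=
  ∀ (Cb wmax nT : ℕ), ∃ n : ℕ, ∀ {α : Type u} (M : Matroid α) [M.Finite] (w s : ℕ)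
    (𝒯 : Finset (ℕ × ℕ))
    (L₁ : Bool × ℕ × ℕ → List α) (f₁ : α → Sym2 ((ℕ × ℕ) ⊕ α)) (e₁ : Bool × ℕ × ℕ → α) (u₁ : ℕ)
    (L₂ : Bool × ℕ × ℕ → List α) (f₂ : α → Sym2 ((ℕ × ℕ) ⊕ α)) (e₂ : Bool × ℕ × ℕ → α) (u₂ : ℕ)
    (m : ℕ) (τ : ℕ → ℕ × ℕ) (R : ℕ → Bool × ℕ × ℕ) (c : ℕ → ℕ → α)
    (q : ℕ → ℕ → ℕ) (a n₀ η : ℕ) (F : ℕ → ℕ)
    (Zq LR : Set (Bool × ℕ × ℕ)) (T : Set α) (gT : α → Sym2 ((ℕ × ℕ) ⊕ α)) (kc : ℕ) (cls : ℕ → ℕ)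
    (pv : Set ℕ), w ≤ wmax → u₁ ≤ κ → m ≤ Cb * w ^ 2 →
    FSys M w s 𝒯 L₁ f₁ e₁ u₁ L₂ f₂ e₂ u₂ n m τ R c q a n₀ ρ (8 * η) F Zq LR T gT kc cls pv →
    ∃ (el : SegR n₀ → ℕ → α) (S Q : Set α) (ends : α → Sym2 (Nd (WV n₀) (SegR n₀)))
      (BQ Bd : Finset (SegR n₀)) (τ' : ℕ → ℕ × ℕ) (m' : ℕ) (R' : ℕ → SegR n₀) (q' : ℕ → ℕ → ℕ)
      (G : ℕ → ℕ → Prop) (P : Finset ℕ), m' ≤ m ∧
      Base M w s 𝒯 L₁ L₂ e₂ (κ + ρ) η nT F a n₀ el S Q ends BQ Bd τ' m' R' q' G P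

lemma HotT.mono {α : Type u} {κ ρh : ℕ} {M N : Matroid α} {w s : ℕ} {𝒯 𝒯' : Finset (ℕ × ℕ)}
    {L₁ L₁' : Bool × ℕ × ℕ → List α} {e₂ : Bool × ℕ × ℕ → α} (h : HotT κ ρh M w s 𝒯 L₁ e₂)
    (hN : N ≤m M) (h𝒯 : 𝒯' ⊆ 𝒯) (hL : ∀ r ∈ Seg w, ∀ x ∈ L₁' r, x ∈ L₁ r) :
    HotT κ ρh N w s 𝒯' L₁' e₂ := by
  intro M' 𝒯'' L₁'' f₁ e₁ u₁ L₂ f₂ u₂ h1 h2 h3 h4 h6 h5
  exact h M' 𝒯'' L₁'' f₁ e₁ u₁ L₂ f₂ u₂ (h1.trans hN) (h2.trans h𝒯) h3 h4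
    (fun r hr => hL r hr _ (h6 r hr)) h5

lemma HotS.mono {α : Type u} {κ ρh : ℕ} {M N : Matroid α} {w s : ℕ} {𝒯 𝒯' : Finset (ℕ × ℕ)}
    {L₁ L₁' : Bool × ℕ × ℕ → List α} {e₂ : Bool × ℕ × ℕ → α} (h : HotS κ ρh M w s 𝒯 L₁ e₂)
    (hN : N ≤m M) (h𝒯 : 𝒯' ⊆ 𝒯) (hL : ∀ r ∈ Seg w, ∀ x ∈ L₁' r, x ∈ L₁ r) :
    HotS κ ρh N w s 𝒯' L₁' e₂ :=
  fun i₀ j₀ w' hw hs => (h i₀ j₀ w' hw hs).mono hN h𝒯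
    fun r hr => hL _ (hs ⟨r, hr, rfl⟩)

lemma shS_zero (σ : Bool × ℕ × ℕ) : shS 0 0 σ = σ := by
  simp [shS]

lemma HotS.hot {α : Type u} {κ ρh : ℕ} {M : Matroid α} {w s : ℕ} {𝒯 : Finset (ℕ × ℕ)}
    {L₁ : Bool × ℕ × ℕ → List α} {e₂ : Bool × ℕ × ℕ → α} (h : HotS κ ρh M w s 𝒯 L₁ e₂) :
    HotT κ ρh M w s 𝒯 L₁ e₂ := by
  have h1 := h 0 0 w (by omega) (by
    rintro _ ⟨σ, hσ, rfl⟩
    rw [shS_zero]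
    exact hσ)
  simpa only [shS_zero] using h1

lemma Seg_mono' {a b : ℕ} (hab : a ≤ b) : Seg a ⊆ Seg b := by
  intro σ hσ
  rcases hσ with ⟨h1, h2, h3⟩ | ⟨h1, h2, h3, h4⟩
  · exact Or.inl ⟨h1, by omega, by omega⟩
  · exact Or.inr ⟨h1, by omega, by omega, h4⟩

/-- the whole wall and a tile have a conflict -/
lemma HotT.ne {α : Type u} {κ ρh : ℕ} {M : Matroid α} {w s : ℕ} {𝒯 : Finset (ℕ × ℕ)}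
    {L₁ : Bool × ℕ × ℕ → List α} {e₁ e₂ : Bool × ℕ × ℕ → α} (h : HotT κ ρh M w s 𝒯 L₁ e₂)
    (hw : ρh ≤ w) (hs : ρh ≤ s)
    {f₁ : α → Sym2 ((ℕ × ℕ) ⊕ α)} {u₁ : ℕ} {L₂ : Bool × ℕ × ℕ → List α}
    {f₂ : α → Sym2 ((ℕ × ℕ) ⊕ α)} {u₂ : ℕ} (h1 : u₁ ≤ κ) (h2 : u₂ ≤ κ)
    (hP : Pair M (Seg w) L₁ f₁ e₁ u₁ (tiles s 𝒯) L₂ f₂ e₂ u₂) {b : ℕ × ℕ} (hb : b ∈ 𝒯) :
    (crr L₁ (Seg w) ∩ crr L₂ (shS b.1 b.2 '' Seg s)).Nonempty := by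
  have h0 : ∀ σ : Bool × ℕ × ℕ, shS 0 0 σ = σ := by
    intro σ
    simp [shS]
  obtain ⟨r, hr, x, hx, hx'⟩ := h M 𝒯 L₁ f₁ e₁ u₁ L₂ f₂ u₂ Matroid.IsMinor.refl subset_rfl h1 h2
    (fun r hr => hP.s₁.mem_last hr) hP 0 0 b.1 b.2 (by
      rintro _ ⟨σ, hσ, rfl⟩
      rw [h0]
      exact Seg_mono' hw hσ) (by
      rintro _ ⟨σ, hσ, rfl⟩
      exact ⟨b, hb, σ, Seg_mono' hs hσ, rfl⟩)
  refine ⟨x, ⟨r, ?_, hx⟩, crr_mono (image_mono (Seg_mono' hs)) hx'⟩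
  obtain ⟨σ, hσ, rfl⟩ := hr
  rw [h0]
  exact Seg_mono' hw hσ

/-- **`ClaimA` from its three rows.** -/
theorem claimA_of (k κ κ' ρh ρ : ℕ) (hκ : κ ≤ κ') (hW : RowW0.{u} κ)
    (hF : ClaimF.{u} k κ κ' ρh ρ) (hR : RowFin.{u} κ' ρ) : ClaimA.{u} k κ κ' ρh (κ' + ρ) := by
  obtain ⟨sA, hF⟩ := hF
  refine ⟨max sA ρh, ?_⟩
  intro Cb s η F hsA hs2 hs
  obtain ⟨Df, h', h, K₀, w₁, hF⟩ := hF Cb s (8 * η) F ((le_max_left _ _).trans hsA) hs2 hs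
  refine ⟨Df, h', h, K₀, max w₁ ρh, ?_⟩
  intro wmax nT
  obtain ⟨n', hR⟩ := hR (4 * Cb) wmax nT
  obtain ⟨n, hn, hF⟩ := hF wmax n'
  obtain ⟨m₀, hW⟩ := hW Cb s wmax n hs2 hs
  refine ⟨m₀, ?_⟩
  intro α M _ w L L' 𝒯 L₁ f₁ e₁ u₁ L₂ f₂ e₂ u₂ a1 a2 a3 a3' a4 a5 a6 a7 a8 hHot hcov a9
  obtain ⟨M₀, 𝒯₀, L₁', f₁', u₁', L₂', f₂', u₂', D, m, τ, R, c, q, Za, b1, b2, b3, b4, b5, bL, b6,
    bC, b7⟩ := hW M w L L' h K₀ Df h' 𝒯 L₁ f₁ e₁ u₁ L₂ f₂ e₂ u₂ a2 a4 a5 a6 a7 a8 hcov a9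
  have fM : M₀.Finite := ⟨M.ground_finite.subset b1.subset⟩
  have hHot' := hHot.mono b1 b2 bL
  have hm : 1 ≤ m := by
    obtain ⟨x, hx, hx'⟩ := hHot'.hot.ne ((le_max_right _ _).trans a1) ((le_max_right _ _).trans hsA)
      (b3.trans hκ) (b4.trans hκ) b6.pair (b6.tau 0 (by omega))
    obtain ⟨i, hi, _⟩ := b6.tile 0 (by omega) x hx hx'
    omega
  rcases hF M₀ w L L' 𝒯₀ L₁' f₁' e₁ u₁' L₂' f₂' e₂ u₂' D m τ R c q Za ((le_max_left _ _).trans a1) a2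
    a3 a3' b3 b4 b5 hm hHot' b6 bC b7 with hU | hU
  · exact Or.inl (HasUniformMinor_mono hU b1)
  obtain ⟨M₁, 𝒯₁, L₁'', f₁'', e₁'', u₁'', L₂'', f₂'', u₂'', m', τ', R', c', q', a, n₀, Zq, LR, T, gT,
    kc, cls, pv, i₀, j₀, w', d1, d2, d3, d4, d5, dw, ds, dL, d6⟩ := hU
  have fM₁ : M₁.Finite := ⟨M₀.ground_finite.subset d1.subset⟩
  have hww : w ^ 2 ≤ 4 * w' ^ 2 := (Nat.pow_le_pow_left dw 2).trans_eq (by ring)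
  obtain ⟨el, S, Q, ends, BQ, Bd, τ'', m'', R'', q'', G, P, g1, g2⟩ :=
    hR M₁ w' s 𝒯₁ L₁'' f₁'' e₁'' u₁'' L₂'' f₂'' e₂ u₂'' m' τ' R' c' q' a n₀ η F Zq LR T gT kc cls pv
      ((subwall_le ds).trans a2) d3 (d5.trans (by
        calc Cb * w ^ 2 ≤ Cb * (4 * w' ^ 2) := Nat.mul_le_mul_left _ hww
          _ = 4 * Cb * w' ^ 2 := by ring)) d6
  exact Or.inr ⟨M₁, 𝒯₁, L₁'', f₁'', e₁'', u₁'', L₂'', f₂'', u₂'', a, n₀, el, S, Q, ends, BQ, Bd, τ'',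
    m'', R'', q'', G, P, i₀, j₀, w', d1.trans b1, d2.trans b2, d3, d4, g1.trans d5, dw, ds,
    fun r hr => bL _ (ds ⟨r, hr, rfl⟩) _ (dL r hr), d6.pair, g2⟩

end TSH
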