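import Pool.Agent.TST.SplitDef2
import Pool.Agent.TST.Cross2

/-!
# Facts about rows in the language `E`, `L`, `R`, `A` (CLAIM A of T-star, helper33)

`PWitB.one`: an exit has one place.  `PWitB.link`: an element which crosses an exit is unbalanced
with exactly two places or balanced with exactly two classes.  `PWitD.chain`, `PWitD.zig`.
-/

set_option autoImplicit false

open Set
open scoped Matroid

namespace TST

section

variable {α : Type*} {X T : Set α} {z z' t x y a b c : α} {E : α → α → α → Prop}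
  {L R A : α → Set α} {N : Matroid α} {p q : α}

/-- balanced with exactly two classes -/
structure Bal2 (E : α → α → α → Prop) (L R : α → Set α) (X : Set α) (t : α) : Prop where
  bal : ∀ x ∈ X, (x ∈ L t ↔ x ∈ R t)
  cls : ∀ x ∈ X, ∀ y ∈ X, (E t x y ↔ (x ∈ L t ↔ y ∈ L t))

/-- an exit has at most one place -/
lemma PWitB.one (h : PWitB E L R A X T z) (hx : x ∈ X) (hy : y ∈ X) :
    E z x y ↔ (x ∈ A z ↔ y ∈ A z) := by
  obtain ⟨N, p, q, hS, hr⟩ := h
  have hK := hS.cir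
  have hpK : p ∈ PK X p q := Or.inl rfl
  have hqK : q ∈ PK X p q := Or.inr (Or.inl rfl)
  have hXK : ∀ x ∈ X, x ∈ PK X p q := fun x hx => Or.inr (Or.inr hx)
  rw [← hr.rE z (Or.inr rfl) x hx y hy, ← hr.rA z rfl x hx, ← hr.rA z rfl y hy]
  constructor
  · intro h7
    exact ⟨fun h8 => h8.trans hK (hXK x hx) h7, fun h8 => h8.trans hK (hXK y hy) h7.symm⟩
  · intro h7
    rcases hS.exit2 (hXK x hx) with h8 | h8
    · exact h8.symm.trans hK hpK (h7.1 h8)
    · rcases hS.exit2 (hXK y hy) with h9 | h9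
      · exact (h7.2 h9).symm.trans hK hpK h9
      · exact h8.symm.trans hK hqK h9

lemma PSysB.crossU (h : PSysB N X p q T z) (ht : t ∈ T) (hx : x ∈ PK X p q) (hy : y ∈ PK X p q)
    (x0 : Eqv N (PK X p q) z p x) (x1 : ¬ Eqv N (PK X p q) t p x) (y0 : ¬ Eqv N (PK X p q) z p y)
    (y1 : ¬ Eqv N (PK X p q) t q y) (hun : ¬ Eqv N (PK X p q) t p q) :
    CrossU N (PK X p q) z p q t := by
  have hK := h.cir
  have hpK : p ∈ PK X p q := Or.inl rfl
  have hqK : q ∈ PK X p q := Or.inr (Or.inl rfl)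
  have hpq : ¬ Eqv N (PK X p q) z p q := by
    intro h8
    rcases h.exit2 hy with h9 | h9
    · exact y0 h9
    · exact y0 (h8.trans hK hqK h9)
  refine crossU_of hK (h.tK ht) h.zK (fun h8 => h.zT (h8 ▸ ht)) (h.Tcl ht) h.zcl hpK hqK
    (fun w hw => (h.exit2 hw).imp (fun h => h.symm) (fun h => h.symm)) hpq (by
      intro D h1 h2 h3 h4 h5
      refine h.pp D (h1.trans ?_) h2 h3 h4 h5
      rintro w (hw | hw | hw)
      · exact Or.inl (Or.inl hw)
      · exact Or.inr hw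
      · exact Or.inl (Or.inr (hw ▸ ht))) hx hy x0.symm (fun h8 => x1 h8.symm)
    ((h.exit2 hy).resolve_left y0).symm (fun h8 => y1 h8.symm) hun

/-- **an element which crosses an exit** -/
theorem PWitB.link (h : PWitB E L R A X T z) (ht : t ∈ T) (hx : x ∈ X) (x0 : x ∈ A z) (x1 : x ∉ L t)
    (hy : y ∈ X) (y0 : y ∉ A z) (y1 : y ∉ R t) :
    (Two E L R X t ∧ (∀ x ∈ X, x ∈ L t → x ∈ A z) ∧ ∀ x ∈ X, x ∈ R t → x ∉ A z) ∨
      Bal2 E L R X t := by
  obtain ⟨N, p, q, hS, hr⟩ := h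
  have hK := hS.cir
  have hpK : p ∈ PK X p q := Or.inl rfl
  have hqK : q ∈ PK X p q := Or.inr (Or.inl rfl)
  have hXK : ∀ x ∈ X, x ∈ PK X p q := fun x hx => Or.inr (Or.inr hx)
  have hE := hr.rE t (Or.inl ht)
  have hL := hr.rL t ht
  have hR := hr.rR t ht
  have hA := hr.rA z rfl
  have x0' : Eqv N (PK X p q) z p x := (hA x hx).2 x0
  have x1' : ¬ Eqv N (PK X p q) t p x := fun h8 => x1 ((hL x hx).1 h8)
  have y0' : ¬ Eqv N (PK X p q) z p y := fun h8 => y0 ((hA y hy).1 h8)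
  have y1' : ¬ Eqv N (PK X p q) t q y := fun h8 => y1 ((hR y hy).1 h8)
  by_cases hb : Eqv N (PK X p q) t p q
  · right
    have hLR : ∀ w ∈ X, (w ∈ L t ↔ w ∈ R t) := by
      intro w hw
      rw [← hL w hw, ← hR w hw]
      exact ⟨fun h8 => hb.symm.trans hK hpK h8, fun h8 => hb.trans hK hqK h8⟩
    have y2' : ¬ Eqv N (PK X p q) t p y := fun h8 => y1 ((hLR y hy).1 ((hL y hy).1 h8))
    have two : ∀ a ∈ X, ∀ b ∈ X, a ∈ A z → a ∉ L t → b ∉ A z → b ∉ L t →
        Eqv N (PK X p q) t a b := by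
      intro a ha b hb' a1 a2 b1 b2
      refine bal_two hS.pp hK hS.zcl hS.zK hpK hqK ht (hS.Tcl ht) (hS.tK ht)
        (fun h8 => hS.zT (h8 ▸ ht)) (hXK a ha) (hXK b hb') hb ((hA a ha).2 a1) ?_ ?_ ?_
      · exact fun h8 => a2 ((hL a ha).1 h8)
      · exact fun h8 => b1 ((hA b hb').1 h8)
      · exact fun h8 => b2 ((hL b hb').1 h8)
    have hyL : y ∉ L t := fun h8 => y1 ((hLR y hy).1 h8)
    have all : ∀ a ∈ X, a ∉ L t → Eqv N (PK X p q) t a y := by
      intro a ha a2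
      by_cases a1 : a ∈ A z
      · exact two a ha y hy a1 a2 y0 hyL
      · exact (two x hx a ha x0 x1 a1 a2).symm.trans hK (hXK x hx) (two x hx y hy x0 x1 y0 hyL)
    refine ⟨hLR, ?_⟩
    intro a ha b hb'
    rw [← hE a ha b hb']
    constructor
    · intro h8
      rw [← hL a ha, ← hL b hb']
      exact ⟨fun h9 => h9.trans hK (hXK a ha) h8, fun h9 => h9.trans hK (hXK b hb') h8.symm⟩
    · intro h8
      by_cases h9 : a ∈ L t
      · exact ((hL a ha).2 h9).symm.trans hK hpK ((hL b hb').2 (h8.1 h9))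
      · exact (all a ha h9).trans hK (hXK y hy) (all b hb' fun h10 => h9 (h8.2 h10)).symm
  · left
    have hc := hS.crossU ht (hXK x hx) (hXK y hy) x0' x1' y0' y1' hb
    have hzpq : ¬ Eqv N (PK X p q) z p q := by
      intro h8
      rcases hS.exit2 (hXK y hy) with h9 | h9
      · exact y0' h9
      · exact y0' (h8.trans hK hqK h9)
    have l1 : ∀ w ∈ X, w ∈ L t → w ∈ A z := fun w hw h8 =>
      (hA w hw).1 (hc.sp w (hXK w hw) ((hL w hw).2 h8).symm).symm
    have l2 : ∀ w ∈ X, w ∈ R t → w ∉ A z := fun w hw h8 h9 =>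
      hzpq (((hA w hw).2 h9).trans hK (hXK w hw) (hc.sq w (hXK w hw) ((hR w hw).2 h8).symm))
    refine ⟨⟨⟨x, hx, x1, fun h8 => l2 x hx h8 x0⟩, ?_, ?_⟩, l1, l2⟩
    · intro w hw h8 h9
      exact hb (((hL w hw).2 h8).trans hK (hXK w hw) ((hR w hw).2 h9).symm)
    · intro a ha b hb'
      rw [← hE a ha b hb', ← hL a ha, ← hL b hb', ← hR a ha, ← hR b hb']
      constructor
      · intro h7
        exact ⟨⟨fun h8 => h8.trans hK (hXK a ha) h7, fun h8 => h8.trans hK (hXK b hb') h7.symm⟩,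
          ⟨fun h8 => h8.trans hK (hXK a ha) h7, fun h8 => h8.trans hK (hXK b hb') h7.symm⟩⟩
      · rintro ⟨h7, h8⟩
        by_cases h9 : Eqv N (PK X p q) t p a
        · exact h9.symm.trans hK hpK (h7.1 h9)
        · by_cases h10 : Eqv N (PK X p q) t q a
          · exact h10.symm.trans hK hqK (h8.1 h10)
          · exact hc.thd a (hXK a ha) b (hXK b hb') (fun h => h9 h.symm) (fun h => h10 h.symm)
              (fun h => h9 (h7.2 h.symm)) fun h => h10 (h8.2 h.symm)

/-- **CHAIN**: the places of two exits are nested -/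
theorem PWitD.chain (h : PWitD E L R A X T z z') : CmpOn X (A z) (A z') := by
  obtain ⟨N, p, q, hS, hS', hzz, hpp, hr⟩ := h
  have hXK : ∀ x ∈ X, x ∈ PK X p q := fun x hx => Or.inr (Or.inr hx)
  have hA := hr.rA z (Or.inl rfl)
  have hA' := hr.rA z' (Or.inr rfl)
  by_contra hcon
  unfold CmpOn at hcon
  push Not at hcon
  obtain ⟨⟨a, ha, a1, a2⟩, b, hb, b1, b2⟩ := hcon
  exact hpp.chain hS.pp hS'.pp hS.cir hS.zcl hS.zK hS'.zcl hS'.zK hzz (Or.inl rfl)
    (Or.inr (Or.inl rfl)) (hXK a ha) (hXK b hb) ((hA a ha).2 a1) (fun h8 => a2 ((hA' a ha).1 h8))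
    (fun h8 => b2 ((hA b hb).1 h8)) ((hA' b hb).2 b1)

/-- **ZIG**: an element which sees something before the place of `z` and behind the place of `z'`
contains everything between the places in its middle class -/
theorem PWitD.zig (h : PWitD E L R A X T z z') (ht : t ∈ T) (ha : a ∈ X) (a0 : a ∈ A z)
    (a1 : a ∉ L t) (hb : b ∈ X) (b0 : b ∉ A z) (b1 : b ∈ A z') (hc : c ∈ X) (c0 : c ∉ A z')
    (c1 : c ∉ R t) : b ∉ L t ∧ b ∉ R t := by
  have hcmp : ∀ x ∈ X, x ∈ A z → x ∈ A z' := by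
    rcases h.chain with h1 | h1
    · exact h1
    · exact absurd (h1 b hb b1) b0
  have cz : c ∉ A z := fun h1 => c0 (hcmp c hc h1)
  have az : a ∈ A z' := hcmp a ha a0
  have k := h.left.link ht ha a0 a1 hc cz c1
  have k' := h.right.link ht ha az a1 hc c0 c1
  rcases k with ⟨k1, k2, k3⟩ | k
  · rcases k' with ⟨k1', k2', k3'⟩ | k'
    · exact ⟨fun h1 => b0 (k2 b hb h1), fun h1 => k3' b hb h1 b1⟩
    · -- `t` is not balanced in the sense of `Bal2`
      refine ⟨fun h1 => b0 (k2 b hb h1), fun h1 => ?_⟩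
      exact k1.dis b hb ((k'.bal b hb).2 h1) h1
  · have hbL : b ∉ L t := by
      intro b2
      have cL : c ∉ L t := fun h1 => c1 ((k.bal c hc).1 h1)
      obtain ⟨N, p, q, hS, hS', hzz, hpp, hr⟩ := h
      have hK := hS.cir
      have hpK : p ∈ PK X p q := Or.inl rfl
      have hqK : q ∈ PK X p q := Or.inr (Or.inl rfl)
      have hXK : ∀ x ∈ X, x ∈ PK X p q := fun x hx => Or.inr (Or.inr hx)
      have hL := hr.rL t ht
      have hR := hr.rR t ht
      have hE := hr.rE t (Or.inl ht)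
      have hA := hr.rA z (Or.inl rfl)
      have hA' := hr.rA z' (Or.inr rfl)
      have bal : Eqv N (PK X p q) t p q :=
        ((hL b hb).2 b2).trans hK (hXK b hb) ((hR b hb).2 ((k.bal b hb).1 b2)).symm
      have npq : ¬ Eqv N (PK X p q) z p q := by
        intro h8
        rcases hS.exit2 (hXK c hc) with h9 | h9
        · exact cz ((hA c hc).1 h9)
        · exact cz ((hA c hc).1 (h8.trans hK hqK h9))
      have npq' : ¬ Eqv N (PK X p q) z' p q := by
        intro h8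
        rcases hS'.exit2 (hXK c hc) with h9 | h9
        · exact c0 ((hA' c hc).1 h9)
        · exact c0 ((hA' c hc).1 (h8.trans hK hqK h9))
      refine hpp.zig hK hS.zcl hS.zK hS'.zcl hS'.zK hzz ht (hS.Tcl ht) (hS.tK ht)
        (fun h8 => hS.zT (h8 ▸ ht)) (fun h8 => hS'.zT (h8 ▸ ht)) hpK hqK (hXK a ha) (hXK b hb)
        (hXK c hc) bal npq npq' ((hA a ha).2 a0) ((hA' a ha).2 az)
        (fun h8 => a1 ((hL a ha).1 h8)) ?_ ((hA' b hb).2 b1) ((hL b hb).2 b2) ?_ ?_ ?_
      · exact (hS.exit2 (hXK b hb)).resolve_left fun h8 => b0 ((hA b hb).1 h8)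
      · exact (hS.exit2 (hXK c hc)).resolve_left fun h8 => cz ((hA c hc).1 h8)
      · exact (hS'.exit2 (hXK c hc)).resolve_left fun h8 => c0 ((hA' c hc).1 h8)
      · exact (hE a ha c hc).2 ((k.cls a ha c hc).2 (iff_of_false a1 cL))
    exact ⟨hbL, fun h1 => hbL ((k.bal b hb).2 h1)⟩

end

end TST
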