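import Pool.Agent.TST.Tree
import Pool.Agent.TST.SplitDef

/-!
# Path systems with balanced elements (CLAIM A of T-star, helper33)

`PSysB` = path system with one exit, `T` arbitrary (balanced elements allowed); `PWitB` = witness of
one exit, `PWitD` = witness of a pair of exits.  The facts `tree`, `tree_list` of `Tree.lean` without
the matroid: only the relations `E`, `L`, `R`.
-/

set_option autoImplicit false

open Set
open scoped Matroid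

namespace TST

variable {α : Type*}

/-- **Path system** with the ends `p`, `q`, the same-row elements `T` (balanced or not), one exit -/
structure PSysB (N : Matroid α) (X : Set α) (p q : α) (T : Set α) (z : α) : Prop where
  cir : N.IsCircuit (PK X p q)
  pX : p ∉ X
  qX : q ∉ X
  pq : p ≠ q
  Tcl : T ⊆ N.closure (PK X p q)
  TK : Disjoint T (PK X p q)
  zcl : z ∈ N.closure (PK X p q)
  zK : z ∉ PK X p q
  zT : z ∉ T
  pp : PP N (PK X p q) T p q z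

/-- the relations of a witness: `E t x y` = `t` does not separate `x`, `y`; `L t`, `R t` = classes of
the ends for the elements of `T`; `A z` = class of the left end for the exits `W` -/
structure PRel (E : α → α → α → Prop) (L R A : α → Set α) (N : Matroid α) (X : Set α) (p q : α)
    (T W : Set α) : Prop where
  rE : ∀ t, (t ∈ T ∨ t ∈ W) → ∀ x ∈ X, ∀ y ∈ X, (Eqv N (PK X p q) t x y ↔ E t x y)
  rL : ∀ t ∈ T, ∀ x ∈ X, (Eqv N (PK X p q) t p x ↔ x ∈ L t)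
  rR : ∀ t ∈ T, ∀ x ∈ X, (Eqv N (PK X p q) t q x ↔ x ∈ R t)
  rA : ∀ z ∈ W, ∀ x ∈ X, (Eqv N (PK X p q) z p x ↔ x ∈ A z)

/-- **Witness of one exit.** -/
def PWitB (E : α → α → α → Prop) (L R A : α → Set α) (X T : Set α) (z : α) : Prop :=
  ∃ (N : Matroid α) (p q : α), PSysB N X p q T z ∧ PRel E L R A N X p q T {z}

/-- **Witness of a pair of exits.** -/
def PWitD (E : α → α → α → Prop) (L R A : α → Set α) (X T : Set α) (z z' : α) : Prop :=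
  ∃ (N : Matroid α) (p q : α), PSysB N X p q T z ∧ PSysB N X p q T z' ∧ z ≠ z' ∧
    PP2 N (PK X p q) T p q z z' ∧ PRel E L R A N X p q T {z, z'}

/-- **The rules of a flat on a row**: `F` = elements of the row and chords in the flat, `Pp`, `Pq` =
the left end, the right end is in the flat -/
structure StepR (E : α → α → α → Prop) (L R : α → Set α) (X Z F : Set α) (Pp Pq : Prop) : Prop where
  axis : ∀ x ∈ X, x ∈ F → ∀ y ∈ X, y ∈ F → ∀ s ∈ Z, ¬ E s x y →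
    (∀ t ∈ Z, t = s ∨ t ∈ F ∨ E t x y) → s ∈ F
  mem : ∀ x ∈ X, x ∈ F → ∀ y ∈ X, (∀ t ∈ Z, t ∈ F ∨ E t x y) → y ∈ F
  axisp : Pp → ∀ x ∈ X, x ∈ F → ∀ s ∈ Z, x ∉ L s → (∀ t ∈ Z, t = s ∨ t ∈ F ∨ x ∈ L t) → s ∈ F
  axisq : Pq → ∀ x ∈ X, x ∈ F → ∀ s ∈ Z, x ∉ R s → (∀ t ∈ Z, t = s ∨ t ∈ F ∨ x ∈ R t) → s ∈ F
  toP : ∀ x ∈ X, x ∈ F → (∀ t ∈ Z, t ∈ F ∨ x ∈ L t) → Pp
  ofP : Pp → ∀ x ∈ X, (∀ t ∈ Z, t ∈ F ∨ x ∈ L t) → x ∈ F
  toQ : ∀ x ∈ X, x ∈ F → (∀ t ∈ Z, t ∈ F ∨ x ∈ R t) → Pq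
  ofQ : Pq → ∀ x ∈ X, (∀ t ∈ Z, t ∈ F ∨ x ∈ R t) → x ∈ F

section

variable {N : Matroid α} {K X T T' W W' Z A₀ F P : Set α} {p q z z' : α}
  {E : α → α → α → Prop} {L R A L' R' : α → Set α}

lemma PSysB.tK {t : α} (h : PSysB N X p q T z) (ht : t ∈ T) : t ∉ PK X p q :=
  disjoint_left.1 h.TK ht

lemma PSys.toB (h : PSys N X p q T z) : PSysB N X p q T z :=
  ⟨h.cir, h.pX, h.qX, h.pq, h.Tcl, h.TK, h.zcl, h.zK, h.zT, h.pp⟩

/-- (EXIT2) -/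
lemma PSysB.exit2 {x : α} (h : PSysB N X p q T z) (hx : x ∈ PK X p q) :
    Eqv N (PK X p q) z p x ∨ Eqv N (PK X p q) z q x :=
  h.pp.exit2 h.cir h.zcl h.zK (Or.inl rfl) (Or.inr (Or.inl rfl)) hx

/-- exchange of the ends -/
lemma PSysB.swap (h : PSysB N X p q T z) : PSysB N X q p T z := by
  have e : PK X q p = PK X p q := insert_comm _ _ _
  refine ⟨?_, h.qX, h.pX, h.pq.symm, ?_, ?_, ?_, ?_, h.zT, ?_⟩
  · rw [e]; exact h.cir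
  · rw [e]; exact h.Tcl
  · rw [e]; exact h.TK
  · rw [e]; exact h.zcl
  · rw [e]; exact h.zK
  · rw [e]; exact fun C h1 h2 h3 h4 h5 => h.pp C h1 h2 h3 h5 h4

lemma PSysB.mono (h : PSysB N X p q T z) (hT : T' ⊆ T) : PSysB N X p q T' z :=
  ⟨h.cir, h.pX, h.qX, h.pq, hT.trans h.Tcl, h.TK.mono_left hT, h.zcl, h.zK,
    fun h1 => h.zT (hT h1), h.pp.mono hT⟩

lemma PRel.mono (h : PRel E L R A N X p q T W) (hT : T' ⊆ T) (hW : W' ⊆ W) :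
    PRel E L R A N X p q T' W' :=
  ⟨fun t ht => h.rE t (ht.imp (fun h1 => hT h1) (fun h1 => hW h1)), fun t ht => h.rL t (hT ht),
    fun t ht => h.rR t (hT ht), fun t ht => h.rA t (hW ht)⟩

lemma PWitB.mono (h : PWitB E L R A X T z) (hT : T' ⊆ T) : PWitB E L R A X T' z := by
  obtain ⟨N, p, q, h1, h2⟩ := h
  exact ⟨N, p, q, h1.mono hT, h2.mono hT (Subset.refl _)⟩

lemma PWitD.mono (h : PWitD E L R A X T z z') (hT : T' ⊆ T) : PWitD E L R A X T' z z' := by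
  obtain ⟨N, p, q, h1, h2, h3, h4, h5⟩ := h
  exact ⟨N, p, q, h1.mono hT, h2.mono hT, h3, h4.mono hT, h5.mono hT (Subset.refl _)⟩

lemma PWitD.left (h : PWitD E L R A X T z z') : PWitB E L R A X T z := by
  obtain ⟨N, p, q, h1, h2, h3, h4, h5⟩ := h
  exact ⟨N, p, q, h1, h5.mono (Subset.refl _) (singleton_subset_iff.2 (Or.inl rfl))⟩

lemma PWitD.symm (h : PWitD E L R A X T z z') : PWitD E L R A X T z' z := by
  obtain ⟨N, p, q, h1, h2, h3, h4, h5⟩ := h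
  exact ⟨N, p, q, h2, h1, h3.symm, h4.symm, h5.mono (Subset.refl _) (pair_comm z' z).le⟩

lemma PWitD.right (h : PWitD E L R A X T z z') : PWitB E L R A X T z' := h.symm.left

/-- an exit which sees something has two classes -/
lemma PSysB.rz (h : PSysB N X p q T z) (hz : ∃ x ∈ X, ∃ y ∈ X, ¬ Eqv N (PK X p q) z x y) :
    ¬ Eqv N (PK X p q) z p q := by
  intro h1
  obtain ⟨x, hx, y, hy, h2⟩ := hz
  have hK := h.cir
  have hp : p ∈ PK X p q := Or.inl rfl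
  have hq : q ∈ PK X p q := Or.inr (Or.inl rfl)
  have all : ∀ w ∈ X, Eqv N (PK X p q) z p w := by
    intro w hw
    rcases h.exit2 (x := w) (Or.inr (Or.inr hw)) with h3 | h3
    · exact h3
    · exact h1.trans hK hq h3
  exact h2 ((all x hx).symm.trans hK hp (all y hy))

/-- the classes of the right end for an exit which sees something -/
lemma PSysB.rR (h : PSysB N X p q T z) (hz : ∃ x ∈ X, ∃ y ∈ X, ¬ Eqv N (PK X p q) z x y) {x : α}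
    (hx : x ∈ X) : Eqv N (PK X p q) z q x ↔ ¬ Eqv N (PK X p q) z p x := by
  have hx' : x ∈ PK X p q := Or.inr (Or.inr hx)
  constructor
  · intro h1 h2
    exact h.rz hz (h2.trans h.cir hx' h1.symm)
  · exact fun h1 => (h.exit2 hx').resolve_left h1

/-- from the rules of the dual flats to the rules of the row -/
lemma StepC.toR (hst : StepC N (PK X p q) Z F)
    (hE : ∀ t ∈ Z, ∀ x ∈ X, ∀ y ∈ X, (Eqv N (PK X p q) t x y ↔ E t x y))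
    (hL : ∀ t ∈ Z, ∀ x ∈ X, (Eqv N (PK X p q) t p x ↔ x ∈ L' t))
    (hR : ∀ t ∈ Z, ∀ x ∈ X, (Eqv N (PK X p q) t q x ↔ x ∈ R' t)) :
    StepR E L' R' X Z F (p ∈ F) (q ∈ F) := by
  have hp : p ∈ PK X p q := Or.inl rfl
  have hq : q ∈ PK X p q := Or.inr (Or.inl rfl)
  have hX : ∀ x ∈ X, x ∈ PK X p q := fun x hx => Or.inr (Or.inr hx)
  refine ⟨?_, ?_, ?_, ?_, ?_, ?_, ?_, ?_⟩
  · intro x hx hxF y hy hyF s hs hd ht
    refine hst.axis x (hX x hx) hxF y (hX y hy) hyF s hs (fun h => hd ((hE s hs x hx y hy).1 h)) ?_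
    exact fun t htZ => (ht t htZ).imp_right fun h => h.imp_right (hE t htZ x hx y hy).2
  · intro x hx hxF y hy ht
    refine hst.mem x (hX x hx) hxF y (hX y hy) ?_
    exact fun t htZ => (ht t htZ).imp_right (hE t htZ x hx y hy).2
  · intro hpF x hx hxF s hs hd ht
    refine hst.axis p hp hpF x (hX x hx) hxF s hs (fun h => hd ((hL s hs x hx).1 h)) ?_
    exact fun t htZ => (ht t htZ).imp_right fun h => h.imp_right (hL t htZ x hx).2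
  · intro hqF x hx hxF s hs hd ht
    refine hst.axis q hq hqF x (hX x hx) hxF s hs (fun h => hd ((hR s hs x hx).1 h)) ?_
    exact fun t htZ => (ht t htZ).imp_right fun h => h.imp_right (hR t htZ x hx).2
  · intro x hx hxF ht
    refine hst.mem x (hX x hx) hxF p hp ?_
    exact fun t htZ => (ht t htZ).imp_right fun h => ((hL t htZ x hx).2 h).symm
  · intro hpF x hx ht
    refine hst.mem p hp hpF x (hX x hx) ?_
    exact fun t htZ => (ht t htZ).imp_right fun h => (hL t htZ x hx).2 h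
  · intro x hx hxF ht
    refine hst.mem x (hX x hx) hxF q hq ?_
    exact fun t htZ => (ht t htZ).imp_right fun h => ((hR t htZ x hx).2 h).symm
  · intro hqF x hx ht
    refine hst.mem q hq hqF x (hX x hx) ?_
    exact fun t htZ => (ht t htZ).imp_right fun h => (hR t htZ x hx).2 h

/-- **[TREE] for one exit, without the matroid.** -/
theorem PWitB.tree (h : PWitB E L R A X T z) (hz : ∃ x ∈ X, ∃ y ∈ X, ¬ E z x y)
    (hL : ∀ t ∈ T, ∀ x ∈ X, (x ∈ L' t ↔ x ∈ L t)) (hR : ∀ t ∈ T, ∀ x ∈ X, (x ∈ R' t ↔ x ∈ R t))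
    (hLz : ∀ x ∈ X, (x ∈ L' z ↔ x ∈ A z)) (hRz : ∀ x ∈ X, (x ∈ R' z ↔ x ∉ A z))
    (hZf : Z.Finite) (hzZ : z ∈ Z) (hZ : ∀ t ∈ Z, t = z ∨ t ∈ T) (hA : A₀ ⊆ X) (hAn : A₀.Nonempty)
    (hAf : A₀.Finite) (hc : A₀.ncard ≤ Z.ncard)
    (hfl : ∀ (F : Set α) (Pp Pq : Prop), A₀ ⊆ F → StepR E L' R' X Z F Pp Pq →
      (z ∈ F ∨ Pp ∨ Pq) → Z ⊆ F) : False := by
  obtain ⟨N, p, q, hS, hr⟩ := h
  have hz' : ∃ x ∈ X, ∃ y ∈ X, ¬ Eqv N (PK X p q) z x y := by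
    obtain ⟨x, hx, y, hy, h1⟩ := hz
    exact ⟨x, hx, y, hy, fun h2 => h1 ((hr.rE z (Or.inr rfl) x hx y hy).1 h2)⟩
  have H : Chart N (PK X p q) Z := by
    refine ⟨hS.cir, ?_, ?_⟩
    · intro t ht
      rcases hZ t ht with rfl | h1
      exacts [hS.zcl, hS.Tcl h1]
    · rw [disjoint_right]
      intro t ht
      rcases hZ t ht with rfl | h1
      exacts [hS.zK, hS.tK h1]
  refine hS.pp.tree H hZf hzZ ?_ (hA.trans fun x hx => Or.inr (Or.inr hx)) hAn hAf hc (Or.inl rfl)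
    (Or.inr (Or.inl rfl)) ?_
  · intro t ht
    rcases hZ t ht with rfl | h1
    exacts [Or.inr rfl, Or.inl h1]
  · intro F hAF hst hm
    refine hfl F (p ∈ F) (q ∈ F) hAF (hst.toR ?_ ?_ ?_) hm
    · intro t ht
      rcases hZ t ht with rfl | h1
      exacts [hr.rE _ (Or.inr rfl), hr.rE _ (Or.inl h1)]
    · intro t ht x hx
      rcases hZ t ht with rfl | h1
      · rw [hLz x hx]; exact hr.rA _ rfl x hx
      · rw [hL t h1 x hx]; exact hr.rL t h1 x hx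
    · intro t ht x hx
      rcases hZ t ht with rfl | h1
      · rw [hRz x hx, ← hr.rA t rfl x hx]; exact hS.rR hz' hx
      · rw [hR t h1 x hx]; exact hr.rR t h1 x hx

/-- **[TREE] for two exits, without the matroid.** -/
theorem PWitD.tree (h : PWitD E L R A X T z z') (hz : ∃ x ∈ X, ∃ y ∈ X, ¬ E z x y)
    (hz' : ∃ x ∈ X, ∃ y ∈ X, ¬ E z' x y)
    (hL : ∀ t ∈ T, ∀ x ∈ X, (x ∈ L' t ↔ x ∈ L t)) (hR : ∀ t ∈ T, ∀ x ∈ X, (x ∈ R' t ↔ x ∈ R t))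
    (hLz : ∀ x ∈ X, (x ∈ L' z ↔ x ∈ A z)) (hRz : ∀ x ∈ X, (x ∈ R' z ↔ x ∉ A z))
    (hLz' : ∀ x ∈ X, (x ∈ L' z' ↔ x ∈ A z')) (hRz' : ∀ x ∈ X, (x ∈ R' z' ↔ x ∉ A z'))
    (hZf : Z.Finite) (hzZ : z ∈ Z) (hzZ' : z' ∈ Z) (hZ : ∀ t ∈ Z, t = z ∨ t = z' ∨ t ∈ T)
    (hA : A₀ ⊆ X) (hAn : A₀.Nonempty) (hAf : A₀.Finite) (hc : A₀.ncard ≤ Z.ncard)
    (hfl : ∀ (F : Set α) (Pp Pq : Prop), A₀ ⊆ F → StepR E L' R' X Z F Pp Pq →
      (z ∈ F ∨ z' ∈ F ∨ Pp ∨ Pq) → Z ⊆ F) : False := by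
  obtain ⟨N, p, q, hS, hS', -, hpp, hr⟩ := h
  have sees : ∀ s, (s = z ∨ s = z') → (∃ x ∈ X, ∃ y ∈ X, ¬ E s x y) →
      ∃ x ∈ X, ∃ y ∈ X, ¬ Eqv N (PK X p q) s x y := by
    rintro s hs ⟨x, hx, y, hy, h1⟩
    exact ⟨x, hx, y, hy, fun h2 => h1 ((hr.rE s (Or.inr hs) x hx y hy).1 h2)⟩
  have g := sees z (Or.inl rfl) hz
  have g' := sees z' (Or.inr rfl) hz'
  have H : Chart N (PK X p q) Z := by
    refine ⟨hS.cir, ?_, ?_⟩
    · intro t ht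
      rcases hZ t ht with rfl | rfl | h1
      exacts [hS.zcl, hS'.zcl, hS.Tcl h1]
    · rw [disjoint_right]
      intro t ht
      rcases hZ t ht with rfl | rfl | h1
      exacts [hS.zK, hS'.zK, hS.tK h1]
  refine hpp.tree H hZf hzZ hzZ' ?_ (hA.trans fun x hx => Or.inr (Or.inr hx)) hAn hAf hc (Or.inl rfl)
    (Or.inr (Or.inl rfl)) ?_
  · intro t ht
    rcases hZ t ht with rfl | rfl | h1
    exacts [Or.inr (Or.inl rfl), Or.inr (Or.inr rfl), Or.inl h1]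
  · intro F hAF hst hm
    refine hfl F (p ∈ F) (q ∈ F) hAF (hst.toR ?_ ?_ ?_) hm
    · intro t ht
      rcases hZ t ht with rfl | rfl | h1
      exacts [hr.rE _ (Or.inr (Or.inl rfl)), hr.rE _ (Or.inr (Or.inr rfl)), hr.rE _ (Or.inl h1)]
    · intro t ht x hx
      rcases hZ t ht with rfl | rfl | h1
      · rw [hLz x hx]; exact hr.rA _ (Or.inl rfl) x hx
      · rw [hLz' x hx]; exact hr.rA _ (Or.inr rfl) x hx
      · rw [hL t h1 x hx]; exact hr.rL t h1 x hx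
    · intro t ht x hx
      rcases hZ t ht with rfl | rfl | h1
      · rw [hRz x hx, ← hr.rA t (Or.inl rfl) x hx]; exact hS.rR g hx
      · rw [hRz' x hx, ← hr.rA t (Or.inr rfl) x hx]; exact hS'.rR g' hx
      · rw [hR t h1 x hx]; exact hr.rR t h1 x hx

/-- the list form of `tree` for the rules of the row -/
lemma tree_list_aux (H : Chart N (PK X p q) Z) {n : ℕ} (hn : Z.ncard = n + 1) (a : ℕ → α)
    (ha : ∀ k ≤ n, a k ∈ X)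
    (hE : ∀ t ∈ Z, ∀ x ∈ X, ∀ y ∈ X, (Eqv N (PK X p q) t x y ↔ E t x y))
    (hL : ∀ t ∈ Z, ∀ x ∈ X, (Eqv N (PK X p q) t p x ↔ x ∈ L' t))
    (hR : ∀ t ∈ Z, ∀ x ∈ X, (Eqv N (PK X p q) t q x ↔ x ∈ R' t))
    (h0 : {t | t ∈ Z ∧ a 0 ∉ L' t}.ncard = 1)
    (h1 : ∀ k < n, {t | t ∈ Z ∧ ¬ E t (a k) (a (k + 1))}.ncard = 2)
    (h2 : {t | t ∈ Z ∧ a n ∉ R' t}.ncard = 1)
    (hcon : ∀ (F : Set α) (Pp Pq : Prop), ((∃ t ∈ Z, t ∈ F) ∨ Pp ∨ Pq) →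
      ((Pp ∨ ∃ t ∈ Z, a 0 ∉ L' t ∧ t ∈ F) → Pp ∧ ∀ t ∈ Z, a 0 ∉ L' t → t ∈ F) →
      (∀ k < n, (∃ t ∈ Z, ¬ E t (a k) (a (k + 1)) ∧ t ∈ F) →
        ∀ t ∈ Z, ¬ E t (a k) (a (k + 1)) → t ∈ F) →
      ((Pq ∨ ∃ t ∈ Z, a n ∉ R' t ∧ t ∈ F) → Pq ∧ ∀ t ∈ Z, a n ∉ R' t → t ∈ F) → Z ⊆ F) :
    ∃ C ⊆ PK X p q ∪ Z, N.IsCircuit C ∧ Z ∪ {p, q} ⊆ C := by
  have hX : ∀ x ∈ X, x ∈ PK X p q := fun x hx => Or.inr (Or.inr hx)
  have e0 : DSet N (PK X p q) Z p (a 0) = {t | t ∈ Z ∧ a 0 ∉ L' t} := by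
    ext t
    exact and_congr_right fun ht => not_congr (hL t ht _ (ha 0 (by omega)))
  have e1 : ∀ k < n, DSet N (PK X p q) Z (a k) (a (k + 1)) =
      {t | t ∈ Z ∧ ¬ E t (a k) (a (k + 1))} := by
    intro k hk
    ext t
    exact and_congr_right fun ht => not_congr (hE t ht _ (ha k hk.le) _ (ha (k + 1) hk))
  have e2 : DSet N (PK X p q) Z (a n) q = {t | t ∈ Z ∧ a n ∉ R' t} := by
    ext t
    refine and_congr_right fun ht => not_congr ?_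
    rw [← hR t ht _ (ha n le_rfl)]
    exact ⟨fun h => h.symm, fun h => h.symm⟩
  refine H.tree_list hn a (fun k hk => hX _ (ha k hk)) (Or.inl rfl) (Or.inr (Or.inl rfl))
    (by rw [e0]; exact h0) (fun k hk => by rw [e1 k hk]; exact h1 k hk) (by rw [e2]; exact h2) ?_
  intro F hm c0 c1 c2
  refine hcon F (p ∈ F) (q ∈ F) ?_ ?_ ?_ ?_
  · obtain ⟨t, htF, ht | ht | ht⟩ := hm
    · exact Or.inl ⟨t, ht, htF⟩
    · exact Or.inr (Or.inl (ht ▸ htF))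
    · exact Or.inr (Or.inr ((mem_singleton_iff.1 ht) ▸ htF))
  · intro h3
    have h4 : insert p (DSet N (PK X p q) Z p (a 0)) ⊆ F := by
      refine c0 ?_
      rcases h3 with h3 | ⟨t, ht, h4, h5⟩
      · exact ⟨p, mem_insert _ _, h3⟩
      · refine ⟨t, Or.inr ?_, h5⟩
        rw [e0]
        exact ⟨ht, h4⟩
    refine ⟨h4 (mem_insert _ _), fun t ht h5 => h4 (Or.inr ?_)⟩
    rw [e0]
    exact ⟨ht, h5⟩
  · rintro k hk ⟨t, ht, h4, h5⟩ s hs h6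
    have h7 := c1 k hk ⟨t, by rw [e1 k hk]; exact ⟨ht, h4⟩, h5⟩
    refine h7 ?_
    rw [e1 k hk]
    exact ⟨hs, h6⟩
  · intro h3
    have h4 : insert q (DSet N (PK X p q) Z (a n) q) ⊆ F := by
      refine c2 ?_
      rcases h3 with h3 | ⟨t, ht, h4, h5⟩
      · exact ⟨q, mem_insert _ _, h3⟩
      · refine ⟨t, Or.inr ?_, h5⟩
        rw [e2]
        exact ⟨ht, h4⟩
    refine ⟨h4 (mem_insert _ _), fun t ht h5 => h4 (Or.inr ?_)⟩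
    rw [e2]
    exact ⟨ht, h5⟩

/-- **[TREE], list form, one exit.** -/
theorem PWitB.tree_list (h : PWitB E L R A X T z) (hz : ∃ x ∈ X, ∃ y ∈ X, ¬ E z x y)
    (hL : ∀ t ∈ T, ∀ x ∈ X, (x ∈ L' t ↔ x ∈ L t)) (hR : ∀ t ∈ T, ∀ x ∈ X, (x ∈ R' t ↔ x ∈ R t))
    (hLz : ∀ x ∈ X, (x ∈ L' z ↔ x ∈ A z)) (hRz : ∀ x ∈ X, (x ∈ R' z ↔ x ∉ A z))
    (hzZ : z ∈ Z) (hZ : ∀ t ∈ Z, t = z ∨ t ∈ T) {n : ℕ} (hn : Z.ncard = n + 1) (a : ℕ → α)
    (ha : ∀ k ≤ n, a k ∈ X) (h0 : {t | t ∈ Z ∧ a 0 ∉ L' t}.ncard = 1)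
    (h1 : ∀ k < n, {t | t ∈ Z ∧ ¬ E t (a k) (a (k + 1))}.ncard = 2)
    (h2 : {t | t ∈ Z ∧ a n ∉ R' t}.ncard = 1)
    (hcon : ∀ (F : Set α) (Pp Pq : Prop), ((∃ t ∈ Z, t ∈ F) ∨ Pp ∨ Pq) →
      ((Pp ∨ ∃ t ∈ Z, a 0 ∉ L' t ∧ t ∈ F) → Pp ∧ ∀ t ∈ Z, a 0 ∉ L' t → t ∈ F) →
      (∀ k < n, (∃ t ∈ Z, ¬ E t (a k) (a (k + 1)) ∧ t ∈ F) →
        ∀ t ∈ Z, ¬ E t (a k) (a (k + 1)) → t ∈ F) →
      ((Pq ∨ ∃ t ∈ Z, a n ∉ R' t ∧ t ∈ F) → Pq ∧ ∀ t ∈ Z, a n ∉ R' t → t ∈ F) → Z ⊆ F) :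
    False := by
  obtain ⟨N, p, q, hS, hr⟩ := h
  have hz' : ∃ x ∈ X, ∃ y ∈ X, ¬ Eqv N (PK X p q) z x y := by
    obtain ⟨x, hx, y, hy, h1⟩ := hz
    exact ⟨x, hx, y, hy, fun h2 => h1 ((hr.rE z (Or.inr rfl) x hx y hy).1 h2)⟩
  have H : Chart N (PK X p q) Z := by
    refine ⟨hS.cir, ?_, ?_⟩
    · intro t ht
      rcases hZ t ht with rfl | h1
      exacts [hS.zcl, hS.Tcl h1]
    · rw [disjoint_right]
      intro t ht
      rcases hZ t ht with rfl | h1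
      exacts [hS.zK, hS.tK h1]
  obtain ⟨C, hC, hcir, hPC⟩ := tree_list_aux (E := E) (L' := L') (R' := R') H hn a ha (by
    intro t ht
    rcases hZ t ht with rfl | h1
    exacts [hr.rE _ (Or.inr rfl), hr.rE _ (Or.inl h1)]) (by
    intro t ht x hx
    rcases hZ t ht with rfl | h1
    · rw [hLz x hx]; exact hr.rA _ rfl x hx
    · rw [hL t h1 x hx]; exact hr.rL t h1 x hx) (by
    intro t ht x hx
    rcases hZ t ht with rfl | h1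
    · rw [hRz x hx, ← hr.rA t rfl x hx]; exact hS.rR hz' hx
    · rw [hR t h1 x hx]; exact hr.rR t h1 x hx) h0 h1 h2 hcon
  refine hS.pp C ?_ hcir (hPC (Or.inl hzZ)) (hPC (Or.inr (Or.inl rfl))) (hPC (Or.inr (Or.inr rfl)))
  intro t ht
  rcases hC ht with h3 | h3
  · exact Or.inl (Or.inl h3)
  · rcases hZ t h3 with rfl | h4
    exacts [Or.inr rfl, Or.inl (Or.inr h4)]

/-- **[TREE], list form, two exits.** -/
theorem PWitD.tree_list (h : PWitD E L R A X T z z') (hz : ∃ x ∈ X, ∃ y ∈ X, ¬ E z x y)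
    (hz' : ∃ x ∈ X, ∃ y ∈ X, ¬ E z' x y)
    (hL : ∀ t ∈ T, ∀ x ∈ X, (x ∈ L' t ↔ x ∈ L t)) (hR : ∀ t ∈ T, ∀ x ∈ X, (x ∈ R' t ↔ x ∈ R t))
    (hLz : ∀ x ∈ X, (x ∈ L' z ↔ x ∈ A z)) (hRz : ∀ x ∈ X, (x ∈ R' z ↔ x ∉ A z))
    (hLz' : ∀ x ∈ X, (x ∈ L' z' ↔ x ∈ A z')) (hRz' : ∀ x ∈ X, (x ∈ R' z' ↔ x ∉ A z'))
    (hzZ : z ∈ Z) (hzZ' : z' ∈ Z) (hZ : ∀ t ∈ Z, t = z ∨ t = z' ∨ t ∈ T) {n : ℕ}
    (hn : Z.ncard = n + 1) (a : ℕ → α)
    (ha : ∀ k ≤ n, a k ∈ X) (h0 : {t | t ∈ Z ∧ a 0 ∉ L' t}.ncard = 1)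
    (h1 : ∀ k < n, {t | t ∈ Z ∧ ¬ E t (a k) (a (k + 1))}.ncard = 2)
    (h2 : {t | t ∈ Z ∧ a n ∉ R' t}.ncard = 1)
    (hcon : ∀ (F : Set α) (Pp Pq : Prop), ((∃ t ∈ Z, t ∈ F) ∨ Pp ∨ Pq) →
      ((Pp ∨ ∃ t ∈ Z, a 0 ∉ L' t ∧ t ∈ F) → Pp ∧ ∀ t ∈ Z, a 0 ∉ L' t → t ∈ F) →
      (∀ k < n, (∃ t ∈ Z, ¬ E t (a k) (a (k + 1)) ∧ t ∈ F) →
        ∀ t ∈ Z, ¬ E t (a k) (a (k + 1)) → t ∈ F) →
      ((Pq ∨ ∃ t ∈ Z, a n ∉ R' t ∧ t ∈ F) → Pq ∧ ∀ t ∈ Z, a n ∉ R' t → t ∈ F) → Z ⊆ F) :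
    False := by
  obtain ⟨N, p, q, hS, hS', -, hpp, hr⟩ := h
  have sees : ∀ s, (s = z ∨ s = z') → (∃ x ∈ X, ∃ y ∈ X, ¬ E s x y) →
      ∃ x ∈ X, ∃ y ∈ X, ¬ Eqv N (PK X p q) s x y := by
    rintro s hs ⟨x, hx, y, hy, h1⟩
    exact ⟨x, hx, y, hy, fun h2 => h1 ((hr.rE s (Or.inr hs) x hx y hy).1 h2)⟩
  have g := sees z (Or.inl rfl) hz
  have g' := sees z' (Or.inr rfl) hz'
  have H : Chart N (PK X p q) Z := by
    refine ⟨hS.cir, ?_, ?_⟩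
    · intro t ht
      rcases hZ t ht with rfl | rfl | h1
      exacts [hS.zcl, hS'.zcl, hS.Tcl h1]
    · rw [disjoint_right]
      intro t ht
      rcases hZ t ht with rfl | rfl | h1
      exacts [hS.zK, hS'.zK, hS.tK h1]
  obtain ⟨C, hC, hcir, hPC⟩ := tree_list_aux (E := E) (L' := L') (R' := R') H hn a ha (by
    intro t ht
    rcases hZ t ht with rfl | rfl | h1
    exacts [hr.rE _ (Or.inr (Or.inl rfl)), hr.rE _ (Or.inr (Or.inr rfl)), hr.rE _ (Or.inl h1)]) (by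
    intro t ht x hx
    rcases hZ t ht with rfl | rfl | h1
    · rw [hLz x hx]; exact hr.rA _ (Or.inl rfl) x hx
    · rw [hLz' x hx]; exact hr.rA _ (Or.inr rfl) x hx
    · rw [hL t h1 x hx]; exact hr.rL t h1 x hx) (by
    intro t ht x hx
    rcases hZ t ht with rfl | rfl | h1
    · rw [hRz x hx, ← hr.rA t (Or.inl rfl) x hx]; exact hS.rR g hx
    · rw [hRz' x hx, ← hr.rA t (Or.inr rfl) x hx]; exact hS'.rR g' hx
    · rw [hR t h1 x hx]; exact hr.rR t h1 x hx) h0 h1 h2 hcon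
  refine hpp C ?_ hcir (hPC (Or.inl hzZ)) (hPC (Or.inl hzZ')) (hPC (Or.inr (Or.inl rfl)))
    (hPC (Or.inr (Or.inr rfl)))
  intro t ht
  rcases hC ht with h3 | h3
  · exact Or.inl (Or.inl h3)
  · rcases hZ t h3 with rfl | rfl | h4
    exacts [Or.inr (Or.inl rfl), Or.inr (Or.inr rfl), Or.inl (Or.inr h4)]

end

end TST
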