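import Pool.Agent.TST.RowCls

/-!
# Children of a star and of a path (CLAIM A of T-star; pure matroid theory)

An exit `z` cuts the leg `F` of a tripod in an outer part `Fo` (with the end `o₁`) and the rest; after
contraction of `Fo` without `c`, `z` is parallel to `c` and the end `o₁` is replaced by `c`.
-/

open Set
open scoped Matroid

namespace TST

variable {α : Type*} {N : Matroid α}

/-- A circuit has not exactly one element outside of a flat. -/
lemma exists_off {C F : Set α} (hC : N.IsCircuit C) {d : α} (hd : d ∈ C)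
    (hdF : d ∉ N.closure F) : ∃ e ∈ C, e ≠ d ∧ e ∉ N.closure F := by
  by_contra hcon
  push Not at hcon
  refine hdF (N.closure_subset_closure_of_subset_closure (X := C \ {d}) ?_
    (hC.mem_closure_sdiff_singleton_of_mem hd))
  rintro e ⟨he, hed⟩
  exact hcon e he hed

/-- Replacement of an element by a parallel one. -/
lemma circuit_replace {C : Set α} (hC : N.IsCircuit C) {c z : α} (hcz : N.IsCircuit {c, z})
    (hc : c ∈ C) (hz : z ∉ C) : N.IsCircuit (insert z (C \ {c})) := by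
  have hCne : C ≠ {c, z} := fun h => hz (h ▸ Or.inr rfl)
  obtain ⟨e, he⟩ : (C \ {c}).Nonempty := by
    by_contra hcon
    rw [not_nonempty_iff_eq_empty, sdiff_eq_empty] at hcon
    have h1 : C = {c} := subset_antisymm hcon (singleton_subset_iff.2 hc)
    have h2 := hcz.eq_of_superset_isCircuit hC (by rw [h1]; exact fun x hx => Or.inl hx)
    exact hCne h2.symm
  obtain ⟨C₁, h1, h2, h3⟩ := hC.strong_elimination hcz hc (Or.inl rfl) he.1
    (by rintro (h | h); exacts [he.2 h, hz (h ▸ he.1)])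
  have h4 : C₁ ⊆ insert z (C \ {c}) := by
    intro x hx
    obtain ⟨h5, h6⟩ := h1 hx
    rcases h5 with h5 | h5 | h5
    · exact Or.inr ⟨h5, h6⟩
    · exact absurd h5 h6
    · exact Or.inl h5
  have hz1 : z ∈ C₁ := by
    by_contra hz1
    have h5 : C₁ ⊆ C := by
      intro x hx
      rcases h4 hx with h6 | h6
      · exact absurd (h6 ▸ hx) hz1
      · exact h6.1
    have h6 := hC.eq_of_superset_isCircuit h2 h5
    rw [h6] at hc
    exact (h1 hc).2 rfl
  have hc1 : c ∉ C₁ := fun h => (h1 h).2 rfl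
  have h5 : C₁ ≠ {c, z} := fun h => hc1 (h ▸ Or.inl rfl)
  obtain ⟨C₂, h6, h7⟩ := h2.elimination hcz h5 z
  have h8 : C₂ ⊆ C := by
    intro x hx
    obtain ⟨h9, h10⟩ := h6 hx
    rcases h9 with h9 | h9 | h9
    · rcases h4 h9 with h11 | h11
      · exact absurd h11 h10
      · exact h11.1
    · exact h9 ▸ hc
    · exact absurd h9 h10
  have h9 := hC.eq_of_superset_isCircuit h7 h8
  have h10 : insert z (C \ {c}) = C₁ := by
    refine subset_antisymm (insert_subset hz1 ?_) h4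
    rintro x ⟨hx, hxc⟩
    rw [h9] at hx
    rcases (h6 hx).1 with h11 | h11 | h11
    · exact h11
    · exact absurd h11 hxc
    · exact absurd h11 (h6 hx).2
  rw [h10]
  exact h2

/-- Lift of a circuit through `c` with `c` replaced by `z`. -/
lemma lift_replace {C Fo : Set α} {c z : α} (hz : N.IsCircuit (insert z Fo)) (hzF : z ∉ Fo)
    (hc : c ∈ Fo) (hC : (N ／ (Fo \ {c})).IsCircuit C) (hcC : c ∈ C) (hzC : z ∉ C) :
    ∃ C', N.IsCircuit C' ∧ z ∈ C' ∧ c ∉ C' ∧ C \ {c} ⊆ C' ∧ C' ⊆ insert z (C \ {c}) ∪ (Fo \ {c}) := by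
  have hcz : c ≠ z := fun h => hzF (h ▸ hc)
  have h1 : (N ／ (Fo \ {c})).IsCircuit {c, z} := by
    have h2 := hz.contract_isCircuit (C := Fo \ {c}) ⟨fun x hx => Or.inr hx.1,
      fun h => hzF (h (Or.inl rfl)).1⟩
    have h3 : insert z Fo \ (Fo \ {c}) = {c, z} := by
      ext x
      simp only [mem_sdiff, mem_insert_iff, mem_singleton_iff, not_and, not_not]
      constructor
      · rintro ⟨h4 | h4, h5⟩
        · exact Or.inr h4
        · exact Or.inl (h5 h4)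
      · rintro (rfl | rfl)
        · exact ⟨Or.inr hc, fun _ => rfl⟩
        · exact ⟨Or.inl rfl, fun h => absurd h hzF⟩
    rwa [h3] at h2
  obtain ⟨C', h2, h3, h4⟩ := (circuit_replace hC h1 hcC hzC).exists_subset_isCircuit_of_contract
  refine ⟨C', h2, h3 (Or.inl rfl), fun h => ?_, fun x hx => h3 (Or.inr hx), h4⟩
  rcases h4 h with (h5 | h5) | h5
  · exact hcz h5
  · exact h5.2 rfl
  · exact h5.2 rfl

/-- Lift of a circuit through `c` (replaced by `z`) and `d`: it contains an element of `E₀`. -/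
theorem sub_gen {Q X E₀ C' : Set α} {c z d : α} (hcz : (N ／ Q).IsCircuit {c, z})
    (hC' : (N ／ Q).IsCircuit C') (hc : c ∈ C') (hz : z ∉ C') (hd : d ∈ C') (hdc : d ≠ c)
    (hdX : d ∉ N.closure X)
    (hX : ∀ e, (e ∈ C' ∨ e = z ∨ e ∈ Q) → e ≠ c → e ≠ d → e ∉ E₀ → e ∈ N.closure X) :
    ∃ C, N.IsCircuit C ∧ z ∈ C ∧ c ∉ C ∧ C' \ {c} ⊆ C ∧ C ⊆ insert z (C' \ {c}) ∪ Q ∧
      ∃ e ∈ C, e ∈ E₀ := by
  have hne : c ≠ z := fun h => hz (h ▸ hc)
  have hcQ : c ∉ Q := fun h => (hC'.subset_ground hc).2 h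
  obtain ⟨C, h1, h2, h3⟩ := (circuit_replace hC' hcz hc hz).exists_subset_isCircuit_of_contract
  have hcC : c ∉ C := by
    intro h
    rcases h3 h with (h5 | h5) | h5
    · exact hne h5
    · exact h5.2 rfl
    · exact hcQ h5
  refine ⟨C, h1, h2 (Or.inl rfl), hcC, fun x hx => h2 (Or.inr hx), h3, ?_⟩
  obtain ⟨e, he, hed, heX⟩ := exists_off h1 (h2 (Or.inr ⟨hd, hdc⟩)) hdX
  refine ⟨e, he, ?_⟩
  by_contra hE
  refine heX (hX e ?_ (fun h => hcC (h ▸ he)) hed hE)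
  rcases h3 he with (h5 | h5) | h5
  · exact Or.inr (Or.inl h5)
  · exact Or.inl h5.1
  · exact Or.inr (Or.inr h5)

/-- Lift of a circuit through `d` which avoids `c`: it contains an element of `E₀`. -/
theorem sub_gen' {Q X E₀ C' : Set α} {d : α} (hC' : (N ／ Q).IsCircuit C') (hd : d ∈ C')
    (hdX : d ∉ N.closure X)
    (hX : ∀ e, (e ∈ C' ∨ e ∈ Q) → e ≠ d → e ∉ E₀ → e ∈ N.closure X) :
    ∃ C, N.IsCircuit C ∧ C' ⊆ C ∧ C ⊆ C' ∪ Q ∧ ∃ e ∈ C, e ∈ E₀ := by
  obtain ⟨C, h1, h2, h3⟩ := hC'.exists_subset_isCircuit_of_contract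
  refine ⟨C, h1, h2, h3, ?_⟩
  obtain ⟨e, he, hed, heX⟩ := exists_off h1 (h2 hd) hdX
  refine ⟨e, he, ?_⟩
  by_contra hE
  refine heX (hX e ?_ hed hE)
  rcases h3 he with h5 | h5
  · exact Or.inl h5
  · exact Or.inr h5

/-! ### The systems -/

/-- (P1): no circuit of the system contains all three ends. -/
def P1 (N : Matroid α) (K T : Set α) (o₁ o₂ o₃ : α) : Prop :=
  ∀ C ⊆ K ∪ T, N.IsCircuit C → o₁ ∈ C → o₂ ∈ C → o₃ ∈ C → False

/-- (P2): no circuit contains `z` and two of the ends. -/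
def P2 (N : Matroid α) (K T : Set α) (o₁ o₂ o₃ z : α) : Prop :=
  ∀ C ⊆ K ∪ T ∪ {z}, N.IsCircuit C → z ∈ C →
    (o₁ ∈ C ∧ o₂ ∈ C) ∨ (o₁ ∈ C ∧ o₃ ∈ C) ∨ (o₂ ∈ C ∧ o₃ ∈ C) → False

/-- (P2) of a path: no circuit contains `z` and both ends. -/
def PP (N : Matroid α) (K T : Set α) (p q z : α) : Prop :=
  ∀ C ⊆ K ∪ T ∪ {z}, N.IsCircuit C → z ∈ C → p ∈ C → q ∈ C → False

/-- `z` cuts off the part `Fo` of `K`: `Fo ∪ {z}` is a circuit, and `z` does not separate `Fo`. -/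
structure CutOff (N : Matroid α) (K Fo : Set α) (z : α) : Prop where
  sub : Fo ⊆ K
  notMem : z ∉ K
  cir : N.IsCircuit (insert z Fo)
  cst : ∀ c ∈ Fo, ∀ c' ∈ Fo, c ≠ c' → z ∈ N.closure (K \ {c, c'})

lemma CutOff.par {K Fo : Set α} {z c : α} (h : CutOff N K Fo z) (hc : c ∈ Fo) :
    (N ／ (Fo \ {c})).IsCircuit {c, z} := by
  have hzF : z ∉ Fo := fun hz => h.notMem (h.sub hz)
  have h2 := h.cir.contract_isCircuit (C := Fo \ {c}) ⟨fun x hx => Or.inr hx.1,
    fun h => hzF (h (Or.inl rfl)).1⟩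
  have h3 : insert z Fo \ (Fo \ {c}) = {c, z} := by
    ext x
    simp only [mem_sdiff, mem_insert_iff, mem_singleton_iff, not_and, not_not]
    constructor
    · rintro ⟨h4 | h4, h5⟩
      · exact Or.inr h4
      · exact Or.inl (h5 h4)
    · rintro (rfl | rfl)
      · exact ⟨Or.inr hc, fun _ => rfl⟩
      · exact ⟨Or.inl rfl, fun h => absurd h hzF⟩
  rwa [h3] at h2

section sub

variable {K Fo T T' : Set α} {p q z c d o₁ o₂ o₃ : α}

/-- **[SUB-PATH]**: `z` cuts off `Fo ∋ q`; in `N ／ (Fo - c)` the new end is `c`, and every `d` which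
separates `c` from `q` is an exit.  `T'` = elements which do not separate `c` from `q`. -/
theorem sub_path (hP : PP N K T p q z) (hcut : CutOff N K Fo z) (hc : c ∈ Fo) (hq : q ∈ Fo)
    (hcq : c ≠ q) (hp : p ∉ Fo) (hT' : T' ⊆ T)
    (hTc : ∀ t ∈ T', t ∈ N.closure (K \ {c, q})) (hzT : z ∉ T) (hd : d ∈ T) (hdK : d ∉ K)
    (hdc : d ∉ N.closure (K \ {c, q})) (hKE : K ⊆ N.E) :
    PP (N ／ (Fo \ {c})) (insert c (K \ Fo)) T' p c d := by
  intro C hC hcir hdC hpC hcC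
  have hzK := hcut.notMem
  have hdz : d ≠ z := fun h => hzT (h ▸ hd)
  have hcK := hcut.sub hc
  have hdne : d ≠ c := fun h => hdK (h ▸ hcK)
  have hpc : p ≠ c := fun h => hp (h ▸ hc)
  have hzC : z ∉ C := by
    intro h
    rcases hC h with ((h1 | h1) | h1) | h1
    · exact hzK (h1 ▸ hcK)
    · exact hzK h1.1
    · exact hzT (hT' h1)
    · exact hdz h1.symm
  have hsub : ∀ e, (e ∈ C ∨ e ∈ Fo \ {c}) → e ∈ K ∨ e ∈ T' ∨ e = d := by
    rintro e (he | he)
    · rcases hC he with ((h1 | h1) | h1) | h1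
      · exact Or.inl (h1 ▸ hcK)
      · exact Or.inl h1.1
      · exact Or.inr (Or.inl h1)
      · exact Or.inr (Or.inr h1)
    · exact Or.inl (hcut.sub he.1)
  obtain ⟨C', h1, h2, h3, h4, h5, e, he, heq⟩ := sub_gen (E₀ := {q}) (hcut.par hc) hcir hcC hzC hdC
    hdne hdc (by
      intro e he hec hed heq
      have key : e ∈ K → e ∈ N.closure (K \ {c, q}) := fun h =>
        N.mem_closure_of_mem' ⟨h, fun h' => h'.elim hec heq⟩ (hKE h)
      rcases he with he | he | he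
      · rcases hsub e (Or.inl he) with h1 | h1 | h1
        · exact key h1
        · exact hTc e h1
        · exact absurd h1 hed
      · rw [he]
        exact hcut.cst c hc q hq hcq
      · exact key (hcut.sub he.1))
  refine hP C' ?_ h1 h2 (h4 ⟨hpC, hpc⟩) ((mem_singleton_iff.1 heq) ▸ he)
  intro x hx
  rcases h5 hx with (h6 | h6) | h6
  · exact Or.inr h6
  · rcases hsub x (Or.inl h6.1) with h7 | h7 | h7
    · exact Or.inl (Or.inl h7)
    · exact Or.inl (Or.inr (hT' h7))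
    · exact Or.inl (Or.inr (h7 ▸ hd))
  · exact Or.inl (Or.inl (hcut.sub h6.1))

/-- **[SUB-IN], (P1')**. -/
theorem sub_in_P1 (hP : P2 N K T o₁ o₂ o₃ z) (hcut : CutOff N K Fo z) (hc : c ∈ Fo)
    (ho₂ : o₂ ∉ Fo) (ho₃ : o₃ ∉ Fo) (hT' : T' ⊆ T) (hzT : z ∉ T) :
    P1 (N ／ (Fo \ {c})) (insert c (K \ Fo)) T' c o₂ o₃ := by
  intro C hC hcir hcC h2C h3C
  have hzK := hcut.notMem
  have hcK := hcut.sub hc
  have hzC : z ∉ C := by
    intro h
    rcases hC h with (h1 | h1) | h1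
    · exact hzK (h1 ▸ hcK)
    · exact hzK h1.1
    · exact hzT (hT' h1)
  obtain ⟨C', h1, h2, h3, h4, h5⟩ := lift_replace hcut.cir (fun h => hzK (hcut.sub h)) hc hcir hcC
    hzC
  refine hP C' ?_ h1 h2 (Or.inr (Or.inr ⟨h4 ⟨h2C, fun h => ho₂ (h ▸ hc)⟩,
    h4 ⟨h3C, fun h => ho₃ (h ▸ hc)⟩⟩))
  intro x hx
  rcases h5 hx with (h6 | h6) | h6
  · exact Or.inr h6
  · rcases hC h6.1 with (h7 | h7) | h7
    · exact Or.inl (Or.inl (h7 ▸ hcK))
    · exact Or.inl (Or.inl h7.1)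
    · exact Or.inl (Or.inr (hT' h7))
  · exact Or.inl (Or.inl (hcut.sub h6.1))

/-- **[SUB-IN], (P2')**: `d` separates `c` from the old end `o₁`. -/
theorem sub_in_P2 (hP1 : P1 N K T o₁ o₂ o₃) (hP : P2 N K T o₁ o₂ o₃ z) (hcut : CutOff N K Fo z)
    (hc : c ∈ Fo) (ho₁ : o₁ ∈ Fo) (hco : c ≠ o₁) (ho₂ : o₂ ∉ Fo) (ho₃ : o₃ ∉ Fo) (hT' : T' ⊆ T)
    (hTc : ∀ t ∈ T', t ∈ N.closure (K \ {c, o₁})) (hzT : z ∉ T) (hd : d ∈ T) (hdK : d ∉ K)
    (hdc : d ∉ N.closure (K \ {c, o₁})) (hKE : K ⊆ N.E) :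
    P2 (N ／ (Fo \ {c})) (insert c (K \ Fo)) T' c o₂ o₃ d := by
  intro C hC hcir hdC hends
  have hzK := hcut.notMem
  have hdz : d ≠ z := fun h => hzT (h ▸ hd)
  have hcK := hcut.sub hc
  have hdne : d ≠ c := fun h => hdK (h ▸ hcK)
  have h2c : o₂ ≠ c := fun h => ho₂ (h ▸ hc)
  have h3c : o₃ ≠ c := fun h => ho₃ (h ▸ hc)
  have hzC : z ∉ C := by
    intro h
    rcases hC h with ((h1 | h1) | h1) | h1
    · exact hzK (h1 ▸ hcK)
    · exact hzK h1.1
    · exact hzT (hT' h1)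
    · exact hdz h1.symm
  have hsub : ∀ e, (e ∈ C ∨ e ∈ Fo \ {c}) → e ∈ K ∨ e ∈ T' ∨ e = d := by
    rintro e (he | he)
    · rcases hC he with ((h1 | h1) | h1) | h1
      · exact Or.inl (h1 ▸ hcK)
      · exact Or.inl h1.1
      · exact Or.inr (Or.inl h1)
      · exact Or.inr (Or.inr h1)
    · exact Or.inl (hcut.sub he.1)
  have hflat : ∀ e, (e ∈ C ∨ e = z ∨ e ∈ Fo \ {c}) → e ≠ c → e ≠ d → e ∉ ({o₁} : Set α) →
      e ∈ N.closure (K \ {c, o₁}) := by
    intro e he hec hed heq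
    have key : e ∈ K → e ∈ N.closure (K \ {c, o₁}) := fun h =>
      N.mem_closure_of_mem' ⟨h, fun h' => h'.elim hec heq⟩ (hKE h)
    rcases he with he | he | he
    · rcases hsub e (Or.inl he) with h1 | h1 | h1
      · exact key h1
      · exact hTc e h1
      · exact absurd h1 hed
    · rw [he]
      exact hcut.cst c hc o₁ ho₁ hco
    · exact key (hcut.sub he.1)
  by_cases hcC : c ∈ C
  · obtain ⟨C', h1, h2, h3, h4, h5, e, he, heq⟩ := sub_gen (E₀ := {o₁}) (hcut.par hc) hcir hcC hzC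
      hdC hdne hdc hflat
    have ho1C : o₁ ∈ C' := (mem_singleton_iff.1 heq) ▸ he
    refine hP C' ?_ h1 h2 ?_
    · intro x hx
      rcases h5 hx with (h6 | h6) | h6
      · exact Or.inr h6
      · rcases hsub x (Or.inl h6.1) with h7 | h7 | h7
        · exact Or.inl (Or.inl h7)
        · exact Or.inl (Or.inr (hT' h7))
        · exact Or.inl (Or.inr (h7 ▸ hd))
      · exact Or.inl (Or.inl (hcut.sub h6.1))
    · rcases hends with h6 | h6 | h6
      · exact Or.inl ⟨ho1C, h4 ⟨h6.2, h2c⟩⟩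
      · exact Or.inr (Or.inl ⟨ho1C, h4 ⟨h6.2, h3c⟩⟩)
      · exact Or.inl ⟨ho1C, h4 ⟨h6.1, h2c⟩⟩
  · obtain ⟨C', h1, h2, h3, e, he, heq⟩ := sub_gen' (E₀ := {o₁}) hcir hdC hdc (by
      intro e he hed heq
      refine hflat e (he.imp id Or.inr) ?_ hed heq
      rcases he with he | he
      · exact fun h => hcC (h ▸ he)
      · exact he.2)
    have ho1C : o₁ ∈ C' := (mem_singleton_iff.1 heq) ▸ he
    have h23 : o₂ ∈ C ∧ o₃ ∈ C := by
      rcases hends with h6 | h6 | h6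
      · exact absurd h6.1 hcC
      · exact absurd h6.1 hcC
      · exact h6
    refine hP1 C' ?_ h1 ho1C (h2 h23.1) (h2 h23.2)
    intro x hx
    rcases h3 hx with h6 | h6
    · rcases hsub x (Or.inl h6) with h7 | h7 | h7
      · exact Or.inl h7
      · exact Or.inr (hT' h7)
      · exact Or.inr (h7 ▸ hd)
    · exact Or.inl (hcut.sub h6.1)

/-- **[SUB-OUT]**: the other parts are contracted, the path is `Fo + c`. -/
theorem sub_out {Q : Set α} (hP : P2 N K T o₁ o₂ o₃ z) (hFo : Fo ⊆ K) (hzK : z ∉ K)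
    (hQ : Q ⊆ K) (hcK : c ∈ K) (hcz : (N ／ Q).IsCircuit {c, z}) (ho₁ : o₁ ∈ Fo) (hcF : c ∉ Fo)
    (h2F : o₂ ∉ Fo) (h3F : o₃ ∉ Fo) (hzc : z ∈ N.closure Fo) (hT' : T' ⊆ T)
    (hTc : ∀ t ∈ T', t ∈ N.closure (K \ {c, o₂, o₃})) (hzT : z ∉ T) (hd : d ∈ T) (hdK : d ∉ K)
    (hdc : d ∉ N.closure (K \ {c, o₂, o₃})) (hKE : K ⊆ N.E) :
    PP (N ／ Q) (insert c Fo) T' o₁ c d := by
  intro C hC hcir hdC hpC hcC
  have hdz : d ≠ z := fun h => hzT (h ▸ hd)
  have hdne : d ≠ c := fun h => hdK (h ▸ hcK)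
  have hpc : o₁ ≠ c := fun h => hcF (h ▸ ho₁)
  have hzC : z ∉ C := by
    intro h
    rcases hC h with ((h1 | h1) | h1) | h1
    · exact hzK (h1 ▸ hcK)
    · exact hzK (hFo h1)
    · exact hzT (hT' h1)
    · exact hdz h1.symm
  have hsub : ∀ e, (e ∈ C ∨ e ∈ Q) → e ∈ K ∨ e ∈ T' ∨ e = d := by
    rintro e (he | he)
    · rcases hC he with ((h1 | h1) | h1) | h1
      · exact Or.inl (h1 ▸ hcK)
      · exact Or.inl (hFo h1)
      · exact Or.inr (Or.inl h1)
      · exact Or.inr (Or.inr h1)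
    · exact Or.inl (hQ he)
  obtain ⟨C', h1, h2, h3, h4, h5, e, he, heq⟩ := sub_gen (E₀ := {o₂, o₃}) hcz hcir hcC hzC hdC
    hdne hdc (by
      intro e he hec hed heq
      have key : e ∈ K → e ∈ N.closure (K \ {c, o₂, o₃}) := fun h =>
        N.mem_closure_of_mem' ⟨h, fun h' => h'.elim hec heq⟩ (hKE h)
      rcases he with he | he | he
      · rcases hsub e (Or.inl he) with h1 | h1 | h1
        · exact key h1
        · exact hTc e h1
        · exact absurd h1 hed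
      · rw [he]
        refine N.closure_subset_closure ?_ hzc
        intro x hx
        refine ⟨hFo hx, ?_⟩
        rintro (h | h | h)
        · exact hcF (h ▸ hx)
        · exact h2F (h ▸ hx)
        · exact h3F (h ▸ hx)
      · exact key (hQ he))
  refine hP C' ?_ h1 h2 ?_
  · intro x hx
    rcases h5 hx with (h6 | h6) | h6
    · exact Or.inr h6
    · rcases hsub x (Or.inl h6.1) with h7 | h7 | h7
      · exact Or.inl (Or.inl h7)
      · exact Or.inl (Or.inr (hT' h7))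
      · exact Or.inl (Or.inr (h7 ▸ hd))
    · exact Or.inl (Or.inl (hQ h6))
  · have ho1 : o₁ ∈ C' := h4 ⟨hpC, hpc⟩
    rcases heq with heq | heq
    · exact Or.inl ⟨ho1, heq ▸ he⟩
    · exact Or.inr (Or.inl ⟨ho1, (mem_singleton_iff.1 heq) ▸ he⟩)

/-- Classes do not change in the inner system. -/
theorem sub_eqv (hFo : Fo ⊆ K) (hc : c ∈ Fo) {t x y : α} (ht : t ∉ Fo)
    (hx : x ∈ insert c (K \ Fo)) (hy : y ∈ insert c (K \ Fo)) :
    Eqv (N ／ (Fo \ {c})) (insert c (K \ Fo)) t x y ↔ Eqv N K t x y := by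
  have h1 : insert c (K \ Fo) \ {x, y} ∪ (Fo \ {c}) = K \ {x, y} := by
    ext w
    simp only [mem_union, mem_sdiff, mem_insert_iff, mem_singleton_iff, not_or]
    constructor
    · rintro (⟨rfl | h1, h2⟩ | ⟨h1, h2⟩)
      · exact ⟨hFo hc, h2⟩
      · exact ⟨h1.1, h2⟩
      · refine ⟨hFo h1, fun h3 => ?_, fun h3 => ?_⟩
        · rw [h3] at h1 h2
          rcases hx with hx | hx
          · exact h2 hx
          · exact hx.2 h1
        · rw [h3] at h1 h2
          rcases hy with hy | hy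
          · exact h2 hy
          · exact hy.2 h1
    · rintro ⟨h1, h2⟩
      by_cases hw : w ∈ Fo
      · by_cases hwc : w = c
        · exact Or.inl ⟨Or.inl hwc, h2⟩
        · exact Or.inr ⟨hw, hwc⟩
      · exact Or.inl ⟨Or.inr ⟨h1, hw⟩, h2⟩
  unfold Eqv
  rw [Matroid.contract_closure_eq, h1]
  constructor
  · rintro (h2 | h2)
    · exact Or.inl h2
    · exact Or.inr h2.1
  · rintro (h2 | h2)
    · exact Or.inl h2
    · exact Or.inr ⟨h2, fun h3 => ht h3.1⟩

end sub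

/-! ### the new circuit and the new theta -/

/-- the new path -/
theorem cir_sub {K Fo : Set α} {c : α} (hK : N.IsCircuit K) (hFo : Fo ⊆ K) (hc : c ∈ Fo) :
    (N ／ (Fo \ {c})).IsCircuit (insert c (K \ Fo)) := by
  have h1 := hK.contract_isCircuit (C := Fo \ {c}) ⟨fun x hx => hFo hx.1,
    fun h => (h (hFo hc)).2 rfl⟩
  have h2 : K \ (Fo \ {c}) = insert c (K \ Fo) := by
    ext x
    simp only [mem_sdiff, mem_insert_iff, mem_singleton_iff, not_and, not_not]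
    constructor
    · rintro ⟨h3, h4⟩
      by_cases h5 : x ∈ Fo
      · exact Or.inl (h4 h5)
      · exact Or.inr ⟨h3, h5⟩
    · rintro (rfl | h3)
      · exact ⟨hFo hc, fun _ => rfl⟩
      · exact ⟨h3.1, fun h4 => absurd h4 h3.2⟩
  rwa [h2] at h1

end TST
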