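import Pool.Agent.TST.CrossP
import Pool.Agent.TST.SubC

/-!
# Pairs of exits and balanced elements of a row (CLAIM A of T-star; pure matroid theory)

`PP2`: no circuit of local elements and two exits contains both exits and both ends.  The local
elements may be balanced (`Eqv N K t p q`).
-/

open Set
open scoped Matroid

namespace TST

variable {α : Type*} {N : Matroid α} {K T T' : Set α} {t t' z z' z₀ z₁ p q x y a b c : α}

/-- no circuit of local elements and the two exits contains the exits and both ends -/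
def PP2 (N : Matroid α) (K T : Set α) (p q z z' : α) : Prop :=
  ∀ C ⊆ K ∪ T ∪ {z, z'}, N.IsCircuit C → z ∈ C → z' ∈ C → p ∈ C → q ∈ C → False

lemma PP2.symm (h : PP2 N K T p q z z') : PP2 N K T p q z' z := by
  intro C h1 h2 h3 h4 h5 h6
  refine h C ?_ h2 h4 h3 h5 h6
  rwa [pair_comm]

lemma PP2.swap (h : PP2 N K T p q z z') : PP2 N K T q p z z' :=
  fun C h1 h2 h3 h4 h5 h6 => h C h1 h2 h3 h4 h6 h5

lemma PP2.mono (h : PP2 N K T p q z z') (hT : T' ⊆ T) : PP2 N K T' p q z z' :=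
  fun C h1 h2 h3 h4 h5 h6 => h C (h1.trans (union_subset_union_left _
    (union_subset_union_right _ hT))) h2 h3 h4 h5 h6

lemma PP.mono (h : PP N K T p q z) (hT : T' ⊆ T) : PP N K T' p q z :=
  fun C h1 h2 h3 h4 h5 => h C (h1.trans (union_subset_union_left _
    (union_subset_union_right _ hT))) h2 h3 h4 h5

lemma PP.swap (h : PP N K T p q z) : PP N K T q p z :=
  fun C h1 h2 h3 h4 h5 => h C h1 h2 h3 h5 h4

/-- (EXIT2) -/
lemma PP.exit2 (h : PP N K T p q z) (hK : N.IsCircuit K) (hz : z ∈ N.closure K) (hzK : z ∉ K)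
    (hp : p ∈ K) (hq : q ∈ K) (hx : x ∈ K) : Eqv N K z p x ∨ Eqv N K z q x := by
  by_contra hcon
  push Not at hcon
  have h1 := cls_circuit hK hz hzK hx
  refine h _ ?_ h1 (mem_insert _ _) (Or.inr ⟨hp, fun h2 => hcon.1 h2.2.symm⟩)
    (Or.inr ⟨hq, fun h2 => hcon.2 h2.2.symm⟩)
  rintro w (hw | hw)
  · exact Or.inr hw
  · exact Or.inl (Or.inl hw.1)

/-- **Balanced elements**: a balanced element which sees something on both sides of an exit has
exactly two classes. -/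
theorem bal_two (hP : PP N K T p q z) (hK : N.IsCircuit K) (hz : z ∈ N.closure K) (hzK : z ∉ K)
    (hp : p ∈ K) (hq : q ∈ K) (ht : t ∈ T) (htc : t ∈ N.closure K) (htK : t ∉ K) (hzt : z ≠ t)
    (hx : x ∈ K) (hy : y ∈ K) (hb : Eqv N K t p q) (x1 : Eqv N K z p x) (x2 : ¬ Eqv N K t p x)
    (y1 : ¬ Eqv N K z p y) (y2 : ¬ Eqv N K t p y) : Eqv N K t x y := by
  by_contra hxy
  have hyq : Eqv N K z q y := (hP.exit2 hK hz hzK hp hq hy).resolve_left y1
  set Z : Set α := {z, t} with hZ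
  have H : Chart N K Z := by
    refine ⟨hK, ?_, ?_⟩
    · rintro w (rfl | rfl)
      exacts [hz, htc]
    · rw [disjoint_right]
      rintro w (rfl | rfl)
      exacts [hzK, htK]
  have mz : z ∈ Z := Or.inl rfl
  have mt : t ∈ Z := Or.inr rfl
  have hZf : Z.Finite := by rw [hZ]; simp
  have hZc : Z.ncard = 2 := ncard_pair hzt
  have hne : y ≠ x := fun h => hxy (Or.inl h.symm)
  set I : Set α := {y, x} with hIdef
  have hIf : I.Finite := by rw [hIdef]; simp
  have hIc : I.ncard = 2 := ncard_pair hne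
  have hI : (dk N K Z).Indep I := by
    refine H.indep_insert (H.indep_one hx) hy ?_
    refine H.notMem_of hx hy mt hxy ?_
    rintro c rfl
    exact ⟨hx, Eqv.refl⟩
  have hIE := (dk N K Z).subset_closure I hI.subset_ground
  have ix : x ∈ (dk N K Z).closure I := hIE (Or.inr rfl)
  have iy : y ∈ (dk N K Z).closure I := hIE (Or.inl rfl)
  have zxy : ¬ Eqv N K z x y := fun h => y1 (x1.trans hK hx h)
  have all : t ∈ (dk N K Z).closure I → False := by
    intro it
    have iz : z ∈ (dk N K Z).closure I := by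
      refine H.axis_mem hx hy ix iy mz zxy ?_
      rintro r (rfl | rfl)
      exacts [Or.inl rfl, Or.inr (Or.inl it)]
    refine H.rank hZf (by omega) hIf hx ix ?_
    rintro r (rfl | rfl)
    exacts [iz, it]
  have np : p ∉ (dk N K Z).closure I := by
    intro ip
    refine all (H.axis_mem hp hx ip ix mt x2 ?_)
    rintro r (rfl | rfl)
    exacts [Or.inr (Or.inr x1), Or.inl rfl]
  have nq : q ∉ (dk N K Z).closure I := by
    intro iq
    refine all (H.axis_mem hq hy iq iy mt (fun h => y2 (hb.trans hK hq h)) ?_)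
    rintro r (rfl | rfl)
    exacts [Or.inr (Or.inr hyq), Or.inl rfl]
  have nz : z ∉ (dk N K Z).closure I := by
    intro iz
    refine all (H.axis_mem hx hy ix iy mt hxy ?_)
    rintro r (rfl | rfl)
    exacts [Or.inr (Or.inl iz), Or.inl rfl]
  have hC := H.circuit hZf hI (hIc.trans hZc.symm) hIf ⟨x, hx⟩
  refine hP _ ?_ hC ⟨Or.inr mz, nz⟩ ⟨Or.inl hp, np⟩ ⟨Or.inl hq, nq⟩
  rintro w ⟨hw | hw | hw, -⟩
  · exact Or.inl (Or.inl hw)
  · exact Or.inr hw
  · exact Or.inl (Or.inr ((mem_singleton_iff.1 hw) ▸ ht))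

/-- **[CHAIN]**: the cuts of two exits are nested. -/
theorem PP2.chain (h2 : PP2 N K T p q z z') (hP : PP N K T p q z) (hP' : PP N K T p q z')
    (hK : N.IsCircuit K) (hz : z ∈ N.closure K) (hzK : z ∉ K) (hz' : z' ∈ N.closure K)
    (hzK' : z' ∉ K) (hzz : z ≠ z') (hp : p ∈ K) (hq : q ∈ K) (hx : x ∈ K) (hy : y ∈ K)
    (x1 : Eqv N K z p x) (x2 : ¬ Eqv N K z' p x) (y1 : ¬ Eqv N K z p y) (y2 : Eqv N K z' p y) :
    False := by
  have hxq : Eqv N K z' q x := (hP'.exit2 hK hz' hzK' hp hq hx).resolve_left x2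
  have hyq : Eqv N K z q y := (hP.exit2 hK hz hzK hp hq hy).resolve_left y1
  set Z : Set α := {z, z'} with hZ
  have H : Chart N K Z := by
    refine ⟨hK, ?_, ?_⟩
    · rintro w (rfl | rfl)
      exacts [hz, hz']
    · rw [disjoint_right]
      rintro w (rfl | rfl)
      exacts [hzK, hzK']
  have mz : z ∈ Z := Or.inl rfl
  have mz' : z' ∈ Z := Or.inr rfl
  have hZf : Z.Finite := by rw [hZ]; simp
  have hZc : Z.ncard = 2 := ncard_pair hzz
  have hne : y ≠ x := fun h => y1 (h ▸ x1)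
  set I : Set α := {y, x} with hIdef
  have hIf : I.Finite := by rw [hIdef]; simp
  have hIc : I.ncard = 2 := ncard_pair hne
  have zxy : ¬ Eqv N K z x y := fun h => y1 (x1.trans hK hx h)
  have zxy' : ¬ Eqv N K z' x y := fun h => x2 (y2.trans hK hy h.symm)
  have hI : (dk N K Z).Indep I := by
    refine H.indep_insert (H.indep_one hx) hy ?_
    refine H.notMem_of hx hy mz zxy ?_
    rintro c rfl
    exact ⟨hx, Eqv.refl⟩
  have hIE := (dk N K Z).subset_closure I hI.subset_ground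
  have ix : x ∈ (dk N K Z).closure I := hIE (Or.inr rfl)
  have iy : y ∈ (dk N K Z).closure I := hIE (Or.inl rfl)
  have all : z ∈ (dk N K Z).closure I → False := by
    intro iz
    have iz' : z' ∈ (dk N K Z).closure I := by
      refine H.axis_mem hx hy ix iy mz' zxy' ?_
      rintro r (rfl | rfl)
      exacts [Or.inr (Or.inl iz), Or.inl rfl]
    refine H.rank hZf (by omega) hIf hx ix ?_
    rintro r (rfl | rfl)
    exacts [iz, iz']
  have np : p ∉ (dk N K Z).closure I := by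
    intro ip
    refine all (H.axis_mem hp hy ip iy mz y1 ?_)
    rintro r (rfl | rfl)
    exacts [Or.inl rfl, Or.inr (Or.inr y2)]
  have nq : q ∉ (dk N K Z).closure I := by
    intro iq
    refine all (H.axis_mem hq hx iq ix mz (fun h => zxy (h.symm.trans hK hq hyq)) ?_)
    rintro r (rfl | rfl)
    exacts [Or.inl rfl, Or.inr (Or.inr hxq)]
  have nz : z ∉ (dk N K Z).closure I := all
  have nz' : z' ∉ (dk N K Z).closure I := by
    intro iz'
    refine all (H.axis_mem hx hy ix iy mz zxy ?_)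
    rintro r (rfl | rfl)
    exacts [Or.inl rfl, Or.inr (Or.inl iz')]
  have hC := H.circuit hZf hI (hIc.trans hZc.symm) hIf ⟨x, hx⟩
  refine h2 _ ?_ hC ⟨Or.inr mz, nz⟩ ⟨Or.inr mz', nz'⟩ ⟨Or.inl hp, np⟩ ⟨Or.inl hq, nq⟩
  rintro w ⟨hw | hw, -⟩
  · exact Or.inl (Or.inl hw)
  · exact Or.inr hw

/-- **[ZIG]**: a balanced element which sees something before the cut of `z` and after the cut of
`z'` contains everything between the cuts in its class. -/
theorem PP2.zig (h2 : PP2 N K T p q z z') (hK : N.IsCircuit K) (hz : z ∈ N.closure K) (hzK : z ∉ K)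
    (hz' : z' ∈ N.closure K) (hzK' : z' ∉ K) (hzz : z ≠ z') (ht : t ∈ T) (htc : t ∈ N.closure K)
    (htK : t ∉ K) (hzt : z ≠ t) (hzt' : z' ≠ t) (hp : p ∈ K) (hq : q ∈ K) (ha : a ∈ K) (hb : b ∈ K)
    (hc : c ∈ K) (hbal : Eqv N K t p q) (zpq : ¬ Eqv N K z p q) (zpq' : ¬ Eqv N K z' p q)
    (a1 : Eqv N K z p a) (a2 : Eqv N K z' p a) (a3 : ¬ Eqv N K t p a)
    (b1 : Eqv N K z q b) (b2 : Eqv N K z' p b) (b3 : Eqv N K t p b)
    (c1 : Eqv N K z q c) (c2 : Eqv N K z' q c) (c3 : Eqv N K t a c) : False := by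
  have hpc : ¬ Eqv N K t p c := fun h => a3 (h.trans hK hc c3.symm)
  set Z : Set α := {z, z', t} with hZ
  have H : Chart N K Z := by
    refine ⟨hK, ?_, ?_⟩
    · rintro w (rfl | rfl | rfl)
      exacts [hz, hz', htc]
    · rw [disjoint_right]
      rintro w (rfl | rfl | rfl)
      exacts [hzK, hzK', htK]
  have mz : z ∈ Z := Or.inl rfl
  have mz' : z' ∈ Z := Or.inr (Or.inl rfl)
  have mt : t ∈ Z := Or.inr (Or.inr rfl)
  have hZf : Z.Finite := by rw [hZ]; simp
  have hZc : Z.ncard = 3 := ncard_eq_three.2 ⟨z, z', t, hzz, hzt, hzt', rfl⟩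
  have zab : ¬ Eqv N K z a b := fun h => zpq ((a1.trans hK ha h).trans hK hb b1.symm)
  have zbc' : ¬ Eqv N K z' b c := fun h => zpq' ((b2.trans hK hb h).trans hK hc c2.symm)
  have zac' : ¬ Eqv N K z' a c := fun h => zpq' ((a2.trans hK ha h).trans hK hc c2.symm)
  have tab : ¬ Eqv N K t a b := fun h => a3 (b3.trans hK hb h.symm)
  have tbc : ¬ Eqv N K t b c := fun h => hpc (b3.trans hK hb h)
  have e1 : b ≠ a := fun h => zab (Or.inl h.symm)
  have e2 : c ≠ a := fun h => zac' (Or.inl h.symm)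
  have e3 : c ≠ b := fun h => zbc' (Or.inl h.symm)
  set I : Set α := {c, b, a} with hIdef
  have hIf : I.Finite := by rw [hIdef]; simp
  have hIc : I.ncard = 3 := ncard_eq_three.2 ⟨c, b, a, e3, e2, e1, rfl⟩
  have hI : (dk N K Z).Indep I := by
    refine H.indep_insert (H.indep_insert (H.indep_one ha) hb ?_) hc ?_
    · refine H.notMem_of ha hb mz zab ?_
      rintro d rfl
      exact ⟨ha, Eqv.refl⟩
    · refine H.notMem_of ha hc mz' zac' ?_
      rintro d (rfl | rfl)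
      · exact ⟨hb, a2.symm.trans hK hp b2⟩
      · exact ⟨ha, Eqv.refl⟩
  have hIE := (dk N K Z).subset_closure I hI.subset_ground
  have ia : a ∈ (dk N K Z).closure I := hIE (Or.inr (Or.inr rfl))
  have ib : b ∈ (dk N K Z).closure I := hIE (Or.inr (Or.inl rfl))
  have ic : c ∈ (dk N K Z).closure I := hIE (Or.inl rfl)
  have all : t ∈ (dk N K Z).closure I → False := by
    intro it
    have iz : z ∈ (dk N K Z).closure I := by
      refine H.axis_mem ha hb ia ib mz zab ?_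
      rintro r (rfl | rfl | rfl)
      exacts [Or.inl rfl, Or.inr (Or.inr (a2.symm.trans hK hp b2)), Or.inr (Or.inl it)]
    have iz' : z' ∈ (dk N K Z).closure I := by
      refine H.axis_mem hb hc ib ic mz' zbc' ?_
      rintro r (rfl | rfl | rfl)
      exacts [Or.inr (Or.inl iz), Or.inl rfl, Or.inr (Or.inl it)]
    refine H.rank hZf (by omega) hIf ha ia ?_
    rintro r (rfl | rfl | rfl)
    exacts [iz, iz', it]
  have np : p ∉ (dk N K Z).closure I := by
    intro ip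
    refine all (H.axis_mem hp ha ip ia mt a3 ?_)
    rintro r (rfl | rfl | rfl)
    exacts [Or.inr (Or.inr a1), Or.inr (Or.inr a2), Or.inl rfl]
  have nq : q ∉ (dk N K Z).closure I := by
    intro iq
    refine all (H.axis_mem hq hc iq ic mt (fun h => hpc (hbal.trans hK hq h)) ?_)
    rintro r (rfl | rfl | rfl)
    exacts [Or.inr (Or.inr c1), Or.inr (Or.inr c2), Or.inl rfl]
  have nz : z ∉ (dk N K Z).closure I := by
    intro iz
    refine all (H.axis_mem ha hb ia ib mt tab ?_)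
    rintro r (rfl | rfl | rfl)
    exacts [Or.inr (Or.inl iz), Or.inr (Or.inr (a2.symm.trans hK hp b2)), Or.inl rfl]
  have nz' : z' ∉ (dk N K Z).closure I := by
    intro iz'
    refine all (H.axis_mem hb hc ib ic mt tbc ?_)
    rintro r (rfl | rfl | rfl)
    exacts [Or.inr (Or.inr (b1.symm.trans hK hq c1)), Or.inr (Or.inl iz'), Or.inl rfl]
  have hC := H.circuit hZf hI (hIc.trans hZc.symm) hIf ⟨a, ha⟩
  refine h2 _ ?_ hC ⟨Or.inr mz, nz⟩ ⟨Or.inr mz', nz'⟩ ⟨Or.inl hp, np⟩ ⟨Or.inl hq, nq⟩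
  rintro w ⟨hw | hw | hw | hw, -⟩
  · exact Or.inl (Or.inl hw)
  · exact Or.inr (Or.inl hw)
  · exact Or.inr (Or.inr hw)
  · exact Or.inl (Or.inr ((mem_singleton_iff.1 hw) ▸ ht))

/-! ### the halves -/

/-- A circuit `C₃` which is in the circuit `C₁` of `N ／ X` up to elements of `cl X` contains `C₁`, or
is disjoint from it. -/
lemma circuit_keep {X C₁ C₃ : Set α} (h1 : (N ／ X).IsCircuit C₁) (h3 : N.IsCircuit C₃)
    (hs : ∀ e ∈ C₃, e ∈ C₁ ∨ e ∈ N.closure X) (hp : p ∈ C₁) (hp3 : p ∈ C₃) :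
    C₁ ⊆ C₃ := by
  intro e he
  by_contra he3
  have hep : e ≠ p := fun h => he3 (h ▸ hp3)
  have h4 : p ∈ N.closure (C₁ \ {e, p} ∪ X) := by
    refine N.closure_subset_closure_of_subset_closure (X := C₃ \ {p}) ?_
      (h3.mem_closure_sdiff_singleton_of_mem hp3)
    rintro f ⟨hf, hfp⟩
    rcases hs f hf with h5 | h5
    · refine N.mem_closure_of_mem' (Or.inl ⟨h5, ?_⟩) (h3.subset_ground hf)
      rintro (h6 | h6)
      · exact he3 (h6 ▸ hf)
      · exact hfp h6
    · exact N.closure_subset_closure subset_union_right h5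
  have hpX : p ∉ X := fun h => (h1.subset_ground hp).2 h
  have h5 : p ∈ (N ／ X).closure ((C₁ \ {e}) \ {p}) := by
    rw [Matroid.contract_closure_eq]
    refine ⟨?_, hpX⟩
    have h6 : (C₁ \ {e}) \ {p} = C₁ \ {e, p} := by
      rw [sdiff_sdiff]
      rfl
    rw [h6]
    exact h4
  exact (h1.sdiff_singleton_indep he).notMem_closure_sdiff_of_mem ⟨hp, hep.symm⟩ h5

/-- **[SUB2]**: two links at the exit `z₀`; a point `x₂` beyond the exit `z₁` is not separated from
`c` by the second, but by the first one. -/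
theorem PP2.sub2 {Fo F₁ : Set α} (h2 : PP2 N K T p q z₀ z₁) (hcut : CutOff N K Fo z₀)
    (hcut₁ : CutOff N K F₁ z₁) (hF : F₁ ⊆ Fo) (hc : c ∈ Fo) (hcF : c ∉ F₁) (hx : x ∈ F₁)
    (hq : q ∈ F₁) (hxq : x ≠ q) (hp : p ∉ Fo) (hT' : T' ⊆ T) (ht : t ∈ T) (ht' : t' ∈ T)
    (hz₀ : z₀ ∉ T) (hz₁ : z₁ ∉ T) (hzz : z₀ ≠ z₁) (htK : t ∉ K) (htK' : t' ∉ K) (hKE : K ⊆ N.E)
    (s1 : ∀ s ∈ T', s ∈ N.closure (K \ {c, x})) (s2 : t' ∈ N.closure (K \ {c, x}))
    (s3 : t ∉ N.closure (K \ {c, x})) (r1 : ∀ s ∈ T', s ∈ N.closure (K \ {x, q}))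
    (r2 : t ∈ N.closure (K \ {x, q})) (r3 : t' ∉ N.closure (K \ {x, q})) :
    PP2 (N ／ (Fo \ {c})) (insert c (K \ Fo)) T' p c t t' := by
  intro C hC hcir htC htC' hpC hcC
  have hcK := hcut.sub hc
  have hxFo := hF hx
  have hqFo := hF hq
  have hxK := hcut.sub hxFo
  have hqK := hcut.sub hqFo
  have hcx : c ≠ x := fun h => hcF (h ▸ hx)
  have hpc : p ≠ c := fun h => hp (h ▸ hc)
  have htz : t ≠ z₀ := fun h => hz₀ (h ▸ ht)
  have htz' : t' ≠ z₀ := fun h => hz₀ (h ▸ ht')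
  have htz1 : t ≠ z₁ := fun h => hz₁ (h ▸ ht)
  have htz1' : t' ≠ z₁ := fun h => hz₁ (h ▸ ht')
  have htc : t ≠ c := fun h => htK (h ▸ hcK)
  have htc' : t' ≠ c := fun h => htK' (h ▸ hcK)
  have hzC : z₀ ∉ C := by
    intro h
    rcases hC h with ((h1 | h1) | h1) | (h1 | h1)
    · exact hcut.notMem (h1 ▸ hcK)
    · exact hcut.notMem h1.1
    · exact hz₀ (hT' h1)
    · exact htz h1.symm
    · exact htz' (mem_singleton_iff.1 h1).symm
  -- the circuit through `z₀`
  have hcz : c ≠ z₀ := fun h => hcut.notMem (h ▸ hcK)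
  have h1 := circuit_replace hcir (hcut.par hc) hcC hzC
  obtain ⟨C₂, c2, c3, c4⟩ := h1.exists_subset_isCircuit_of_contract
  have hsub : ∀ e ∈ insert z₀ (C \ {c}), e = z₀ ∨ e ∈ K \ Fo ∨ e ∈ T' ∨ e = t ∨ e = t' := by
    rintro e (he | ⟨he, hec⟩)
    · exact Or.inl he
    · rcases hC he with ((h3 | h3) | h3) | (h3 | h3)
      · exact absurd h3 hec
      · exact Or.inr (Or.inl h3)
      · exact Or.inr (Or.inr (Or.inl h3))
      · exact Or.inr (Or.inr (Or.inr (Or.inl h3)))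
      · exact Or.inr (Or.inr (Or.inr (Or.inr h3)))
  have hcC₂ : c ∉ C₂ := by
    intro h
    rcases c4 h with (h3 | h3) | h3
    · exact hcz h3
    · exact h3.2 rfl
    · exact h3.2 rfl
  have htC₂ : t ∈ C₂ := c3 (Or.inr ⟨htC, htc⟩)
  have hpC₂ : p ∈ C₂ := c3 (Or.inr ⟨hpC, hpc⟩)
  -- membership in the two hyperplanes
  have m1 : ∀ e, (e ∈ insert z₀ (C \ {c}) ∨ e ∈ Fo) → e ≠ c → e ≠ x → e ≠ t →
      e ∈ N.closure (K \ {c, x}) := by
    intro e he h3 h4 h5
    have key : e ∈ K → e ∈ N.closure (K \ {c, x}) := fun h =>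
      N.mem_closure_of_mem' ⟨h, fun h' => h'.elim h3 h4⟩ (hKE h)
    rcases he with he | he
    · rcases hsub e he with h6 | h6 | h6 | h6 | h6
      · rw [h6]
        exact hcut.cst c hc x hxFo hcx
      · exact key h6.1
      · exact s1 e h6
      · exact absurd h6 h5
      · rw [h6]
        exact s2
    · exact key (hcut.sub he)
  have m2 : ∀ e, (e ∈ insert z₀ (C \ {c}) ∨ e ∈ Fo) → e ≠ x → e ≠ q → e ≠ t' →
      e ∈ N.closure (K \ {x, q}) := by
    intro e he h3 h4 h5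
    have key : e ∈ K → e ∈ N.closure (K \ {x, q}) := fun h =>
      N.mem_closure_of_mem' ⟨h, fun h' => h'.elim h3 h4⟩ (hKE h)
    rcases he with he | he
    · rcases hsub e he with h6 | h6 | h6 | h6 | h6
      · rw [h6]
        exact hcut.cst x hxFo q hqFo hxq
      · exact key h6.1
      · exact r1 e h6
      · rw [h6]
        exact r2
      · exact absurd h6 h5
    · exact key (hcut.sub he)
  have hxC₂ : x ∈ C₂ := by
    obtain ⟨e, he, het, heF⟩ := exists_off c2 htC₂ s3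
    by_contra hcon
    refine heF (m1 e ?_ (fun h => hcC₂ (h ▸ he)) (fun h => hcon (h ▸ he)) het)
    rcases c4 he with h3 | h3
    · exact Or.inl h3
    · exact Or.inr h3.1
  -- elimination of `x`
  have hpK₁ : p ∉ insert z₁ F₁ := by
    rintro (h | h)
    · rcases c4 hpC₂ with (h3 | h3) | h3
      · exact hzz (h3.symm.trans h)
      · rcases hC h3.1 with ((h4 | h4) | h4) | (h4 | h4)
        · exact hpc h4
        · exact hcut₁.notMem (h ▸ h4.1)
        · exact hz₁ (hT' (h ▸ h4))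
        · exact htz1 (h4.symm.trans h)
        · exact htz1' ((mem_singleton_iff.1 h4).symm.trans h)
      · exact hp h3.1
    · exact hp (hF h)
  obtain ⟨C₃, d1, d2, d3⟩ := c2.strong_elimination hcut₁.cir hxC₂ (Or.inr hx) hpC₂ hpK₁
  have hxC₃ : x ∉ C₃ := fun h => (d1 h).2 rfl
  have hcC₃ : c ∉ C₃ := by
    intro h
    rcases (d1 h).1 with h3 | h3 | h3
    · exact hcC₂ h3
    · exact hcut₁.notMem (h3 ▸ hcK)
    · exact hcF h3
  have hC₃ : ∀ e ∈ C₃, e ∈ insert z₀ (C \ {c}) ∨ e ∈ Fo \ {c} ∨ e = z₁ := by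
    intro e he
    rcases (d1 he).1 with h3 | h3 | h3
    · rcases c4 h3 with h4 | h4
      · exact Or.inl h4
      · exact Or.inr (Or.inl h4)
    · exact Or.inr (Or.inr h3)
    · exact Or.inr (Or.inl ⟨hF h3, fun h => hcF (h ▸ h3)⟩)
  have hFoE : Fo \ {c} ⊆ N.E := fun e he => hKE (hcut.sub he.1)
  have hz₁cl : z₁ ∈ N.closure (Fo \ {c}) := by
    have h3 := hcut₁.cir.mem_closure_sdiff_singleton_of_mem (mem_insert z₁ F₁)
    refine N.closure_subset_closure ?_ h3
    rintro e ⟨he | he, he2⟩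
    · exact absurd he he2
    · exact ⟨hF he, fun h => hcF (h ▸ he)⟩
  have hkeep : insert z₀ (C \ {c}) ⊆ C₃ := by
    refine circuit_keep h1 d2 ?_ (Or.inr ⟨hpC, hpc⟩) d3
    intro e he
    rcases hC₃ e he with h3 | h3 | h3
    · exact Or.inl h3
    · exact Or.inr (N.subset_closure _ hFoE h3)
    · exact Or.inr (h3 ▸ hz₁cl)
  have htC₃ : t ∈ C₃ := hkeep (Or.inr ⟨htC, htc⟩)
  have htC₃' : t' ∈ C₃ := hkeep (Or.inr ⟨htC', htc'⟩)
  have hz₁C₃ : z₁ ∈ C₃ := by
    obtain ⟨e, he, het, heF⟩ := exists_off d2 htC₃ s3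
    by_contra hcon
    refine heF (m1 e ?_ (fun h => hcC₃ (h ▸ he)) (fun h => hxC₃ (h ▸ he)) het)
    rcases hC₃ e he with h3 | h3 | h3
    · exact Or.inl h3
    · exact Or.inr h3.1
    · exact absurd (h3 ▸ he) hcon
  have hqC₃ : q ∈ C₃ := by
    obtain ⟨e, he, het, heF⟩ := exists_off d2 htC₃' r3
    by_contra hcon
    rcases hC₃ e he with h3 | h3 | h3
    · exact heF (m2 e (Or.inl h3) (fun h => hxC₃ (h ▸ he)) (fun h => hcon (h ▸ he)) het)
    · exact heF (m2 e (Or.inr h3.1) (fun h => hxC₃ (h ▸ he)) (fun h => hcon (h ▸ he)) het)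
    · rw [h3] at heF
      exact heF (hcut₁.cst x hx q hq hxq)
  refine h2 C₃ ?_ d2 (hkeep (Or.inl rfl)) hz₁C₃ (hkeep (Or.inr ⟨hpC, hpc⟩)) hqC₃
  intro e he
  rcases hC₃ e he with h3 | h3 | h3
  · rcases hsub e h3 with h6 | h6 | h6 | h6 | h6
    · exact Or.inr (Or.inl h6)
    · exact Or.inl (Or.inl h6.1)
    · exact Or.inl (Or.inr (hT' h6))
    · exact Or.inl (Or.inr (h6 ▸ ht))
    · exact Or.inl (Or.inr (h6 ▸ ht'))
  · exact Or.inl (Or.inl (hcut.sub h3.1))
  · exact Or.inr (Or.inr h3)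

/-- **[SUB2']**: an old exit `z'` and a link `t` at `z₀`. -/
theorem PP2.sub2' {Fo : Set α} (h2 : PP2 N K T p q z₀ z') (hcut : CutOff N K Fo z₀)
    (hc : c ∈ Fo) (hq : q ∈ Fo) (hcq : c ≠ q) (hp : p ∉ Fo) (hT' : T' ⊆ T) (ht : t ∈ T)
    (hz₀ : z₀ ∉ T) (hz' : z' ∉ K) (hzz : z₀ ≠ z') (htK : t ∉ K) (hKE : K ⊆ N.E)
    (s1 : ∀ s ∈ T', s ∈ N.closure (K \ {c, q})) (s2 : z' ∈ N.closure (K \ {c, q}))
    (s3 : t ∉ N.closure (K \ {c, q})) :
    PP2 (N ／ (Fo \ {c})) (insert c (K \ Fo)) T' p c z' t := by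
  intro C hC hcir hzC' htC hpC hcC
  have hcK := hcut.sub hc
  have hpc : p ≠ c := fun h => hp (h ▸ hc)
  have htz : t ≠ z₀ := fun h => hz₀ (h ▸ ht)
  have htc : t ≠ c := fun h => htK (h ▸ hcK)
  have hzc' : z' ≠ c := fun h => hz' (h ▸ hcK)
  have hzC : z₀ ∉ C := by
    intro h
    rcases hC h with ((h1 | h1) | h1) | (h1 | h1)
    · exact hcut.notMem (h1 ▸ hcK)
    · exact hcut.notMem h1.1
    · exact hz₀ (hT' h1)
    · exact hzz h1
    · exact htz (mem_singleton_iff.1 h1).symm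
  have hsub : ∀ e, (e ∈ C ∨ e ∈ Fo \ {c}) → e ∈ K ∨ e ∈ T' ∨ e = z' ∨ e = t := by
    rintro e (he | he)
    · rcases hC he with ((h1 | h1) | h1) | (h1 | h1)
      · exact Or.inl (h1 ▸ hcK)
      · exact Or.inl h1.1
      · exact Or.inr (Or.inl h1)
      · exact Or.inr (Or.inr (Or.inl h1))
      · exact Or.inr (Or.inr (Or.inr h1))
    · exact Or.inl (hcut.sub he.1)
  obtain ⟨C', h1, h3, h4, h5, h6, e, he, heq⟩ := sub_gen (E₀ := {q}) (hcut.par hc) hcir hcC hzC htC
    htc s3 (by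
      intro e he hec hed heq
      have key : e ∈ K → e ∈ N.closure (K \ {c, q}) := fun h =>
        N.mem_closure_of_mem' ⟨h, fun h' => h'.elim hec heq⟩ (hKE h)
      rcases he with he | he | he
      · rcases hsub e (Or.inl he) with h1 | h1 | h1 | h1
        · exact key h1
        · exact s1 e h1
        · exact h1 ▸ s2
        · exact absurd h1 hed
      · rw [he]
        exact hcut.cst c hc q hq hcq
      · exact key (hcut.sub he.1))
  refine h2 C' ?_ h1 h3 (h5 ⟨hzC', hzc'⟩) (h5 ⟨hpC, hpc⟩) ((mem_singleton_iff.1 heq) ▸ he)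
  intro x hx
  rcases h6 hx with (h7 | h7) | h7
  · exact Or.inr (Or.inl h7)
  · rcases hsub x (Or.inl h7.1) with h8 | h8 | h8 | h8
    · exact Or.inl (Or.inl h8)
    · exact Or.inl (Or.inr (hT' h8))
    · exact Or.inr (Or.inr h8)
    · exact Or.inl (Or.inr (h8 ▸ ht))
  · exact Or.inl (Or.inl (hcut.sub h7.1))

/-- two old exits: contraction of elements of the row -/
theorem PP2.con {K' D : Set α} (h2 : PP2 N K T p q z z') (hK : K' ⊆ K) (hD : D ⊆ K)
    (hT' : T' ⊆ T) : PP2 (N ／ D) K' T' p q z z' := by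
  intro C hC hcir h3 h4 h5 h6
  obtain ⟨C', c1, c2, c3⟩ := hcir.exists_subset_isCircuit_of_contract
  refine h2 C' ?_ c1 (c2 h3) (c2 h4) (c2 h5) (c2 h6)
  intro e he
  rcases c3 he with h7 | h7
  · rcases hC h7 with (h8 | h8) | h8
    · exact Or.inl (Or.inl (hK h8))
    · exact Or.inl (Or.inr (hT' h8))
    · exact Or.inr h8
  · exact Or.inl (Or.inl (hD h7))

/-- the same for one exit -/
theorem PP.con {K' D : Set α} (h : PP N K T p q z) (hK : K' ⊆ K) (hD : D ⊆ K) (hT' : T' ⊆ T) :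
    PP (N ／ D) K' T' p q z := by
  intro C hC hcir h3 h4 h5
  obtain ⟨C', c1, c2, c3⟩ := hcir.exists_subset_isCircuit_of_contract
  refine h C' ?_ c1 (c2 h3) (c2 h4) (c2 h5)
  intro e he
  rcases c3 he with h7 | h7
  · rcases hC h7 with (h8 | h8) | h8
    · exact Or.inl (Or.inl (hK h8))
    · exact Or.inl (Or.inr (hT' h8))
    · exact Or.inr h8
  · exact Or.inl (Or.inl (hD h7))

end TST
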