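import Pool.Agent.TST.LayChoice

/-!
# From the maximal list to the interface `LayOut` (label level of T-star, helper45)

`EndH`: facts about the maximal list.  Output: the chosen families, their places, and `LayOut`.
-/

set_option autoImplicit false

open Set

namespace TST

universe u v w

/-- the family `e` splits the label `k` at every usable window -/
def SplW {α : Type u} (S : α → α → α → Prop) (C : ℕ → ℕ → α) (W : Set ℕ) (F : ℕ → ℕ → α)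
    (e k : ℕ) : Prop := ∀ x ∈ W, SeeW (ES S) C (F e x) k x

/-- labels which are split by one family -/
def AdjF {α : Type u} (Lb : Set ℕ) (S : α → α → α → Prop) (C : ℕ → ℕ → α) (W : Set ℕ)
    (F : ℕ → ℕ → α) (γ : Set ℕ) (i j : ℕ) : Prop :=
  (i ∈ Lb ∧ j ∈ Lb) ∧ ∃ e ∈ γ, SplW S C W F e i ∧ SplW S C W F e j

/-- **Facts about the maximal list.** -/
structure EndH {α : Type u} {β : Type v} {ν : Type w} (rw : β → Set α) (V : Set β)
    (nd₁ nd₂ : β → ν) (S : α → α → α → Prop) (Fa : Set α) (Nr : ν → Set α) (Tr : β → Set α)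
    (Lv : ν → α → Set α) (Aw : β → α → Set α) (B : α → α → α → α → Prop) (lg : ν → Fin 3 → β)
    (oe : ν → Fin 3 → ν) (fr : α → Bool → β) (m K : ℕ) (R : ℕ → β) (C : ℕ → ℕ → α) (γ : Set ℕ)
    (F : ℕ → ℕ → α) (kk : ℕ → ℕ) (W : Set ℕ) (D : Set (Cd α)) : Prop where
  ord : RefOrd K C R W D
  wne : ∃ x, x ∈ W
  lbl : ∀ q ∈ D, q.k < m ∧ R q.k ∈ V
  /-- the references -/
  z0 : ∀ q ∈ D, q.z ∈ γ ∧ kk q.z ≤ 3 ∧ SplW S C W F q.z q.k
  z1 : ∀ q ∈ D, ∃ z, (z ∈ Fa ∨ ∃ u, z ∈ Nr u) ∧ SeeR rw S z (R q.k)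
  z2 : ∀ q ∈ D, kk q.z ≤ 2 → ∃ j < m, R j ∈ V ∧ R j ≠ R q.k ∧ SplW S C W F q.z j
  z3 : ∀ q ∈ D, kk q.z = 3 → ∃ q₀ ∈ D, q₀.z ≠ q.z ∧ R q₀.k = R q.k ∧ SplW S C W F q.z q₀.k
  /-- sandwich of the rungs -/
  rung : ∀ e ∈ γ, kk e ≤ 2 → ∀ q ∈ D, SplW S C W F e q.k →
    SandP W q.d q.G (fun x => {p | p ∈ rw (R q.k) ∧ p ∈ Aw (R q.k) (F e x)})
  rung2 : ∀ e ∈ γ, kk e ≤ 2 → ∀ q ∈ D, ∀ q' ∈ D, R q.k = R q'.k → SplW S C W F e q.k →
    SplW S C W F e q'.k → q.z = q'.z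
  /-- sandwich of the same-row elements -/
  same : ∀ e ∈ γ, kk e = 3 → ∀ q ∈ D, ∀ q' ∈ D, R q.k = R q'.k → q.z ≠ q'.z →
    SplW S C W F e q.k → SplW S C W F e q'.k → ∃ P₁ P₂ : ℕ → Set α,
      (∀ x ∈ W, PlSame (ES S) (rw (R q.k)) (Lv (nd₁ (R q.k)) (F e x)) (Lv (nd₂ (R q.k)) (F e x))
        (F e x) (P₁ x) (P₂ x)) ∧
      ((SandP W q.d q.G P₁ ∧ SandP W q'.d q'.G P₂) ∨ (SandP W q'.d q'.G P₁ ∧ SandP W q.d q.G P₂))
  /-- near rungs -/
  near : ∀ e ∈ γ, kk e = 1 ∨ kk e = 2 → ∀ q ∈ D, ∀ q' ∈ D, R q.k ≠ R q'.k → SplW S C W F e q.k →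
    SplW S C W F e q'.k → ∀ x ∈ W, TPl rw V nd₁ nd₂ S Fa Nr Tr Lv Aw B lg oe fr
      (fun _ c => cond c (R q'.k) (R q.k))
      (fun _ c => {p | p ∈ rw (cond c (R q'.k) (R q.k)) ∧ p ∈ Aw (cond c (R q'.k) (R q.k)) (F e x)})
      (F e x)
  /-- far rungs -/
  far : ∀ e ∈ γ, kk e = 0 → ∀ k < m, ∀ x ∈ W, ∀ y ∈ W,
    (fr (F e x) false = R k ↔ fr (F e y) false = R k)

section

variable {α : Type u} {β : Type v} {ν : Type w} {rw : β → Set α} {V : Set β}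
    {nd₁ nd₂ : β → ν} {S : α → α → α → Prop} {Dg Fa On Dt : Set α} {Nr : ν → Set α}
    {Tr : β → Set α} {Tu : ν → Set α} {Lv : ν → α → Set α} {Aw : β → α → Set α}
    {Au : ν → α → Fin 3 → Set α} {B : α → α → α → α → Prop} {lg : ν → Fin 3 → β}
    {oe : ν → Fin 3 → ν} {fr : α → Bool → β} {r₀ : α → β} {ct : α → ν} {r : β}
    {m K M : ℕ} {R : ℕ → β} {C : ℕ → ℕ → α} {γ : Set ℕ} {wf : ℕ → Finset ℕ → α} {ki kj kk : ℕ → ℕ}
    {W : Set ℕ} {D : Set (Cd α)} {Y : ℕ → ℕ}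

lemma not_ES {t a b : α} (h : ¬ ES S t a b) : a ≠ b ∧ S t a b := by
  unfold ES at h
  push Not at h
  exact h

/-- a family which splits a label sees its row -/
lemma SplW.see (hC : ∀ i < m, R i ∈ V → ∀ p < K, C i p ∈ rw (R i)) (hW : ∀ x ∈ W, 5 * x + 5 < K)
    {F : ℕ → ℕ → α} {e k : ℕ} (hk : k < m) (hkV : R k ∈ V) (h : SplW S C W F e k) {x : ℕ}
    (hx : x ∈ W) : SeeR rw S (F e x) (R k) := by
  obtain ⟨p, p', h1, h2, h3, h4, h5⟩ := h x hx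
  have hw := hW x hx
  obtain ⟨h6, h7⟩ := not_ES h5
  exact ⟨_, hC k hk hkV p (by omega), _, hC k hk hkV p' (by omega), h6, h7⟩

/-- the kinds of the rungs -/
lemma LabFam.rungK (hf : LabFam V nd₁ nd₂ S Dg Fa On Dt Nr Tr Lv Aw ct m K R C γ wf ki kj kk)
    {e : ℕ} (he : e ∈ γ) (hk : kk e ≤ 2) {x : ℕ} (hx : 5 * x + 5 < K) :
    wf e (Qw x) ∈ Fa ∨ ∃ u, wf e (Qw x) ∈ Nr u := by
  rcases (hf.wit e he (Qw x) (Qw_sub hx) (Qw_card x)).2.1 with h1 | h1 | h1 | h1 | h1 | h1 | h1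
  · exact Or.inl h1.2
  · exact Or.inr ⟨_, h1.2⟩
  · exact Or.inr ⟨_, h1.2⟩
  all_goals
    have h2 := h1.1
    omega

lemma LabFam.farK (hf : LabFam V nd₁ nd₂ S Dg Fa On Dt Nr Tr Lv Aw ct m K R C γ wf ki kj kk)
    {e : ℕ} (he : e ∈ γ) (hk : kk e = 0) {x : ℕ} (hx : 5 * x + 5 < K) : wf e (Qw x) ∈ Fa := by
  rcases (hf.wit e he (Qw x) (Qw_sub hx) (Qw_card x)).2.1 with h1 | h1 | h1 | h1 | h1 | h1 | h1
  · exact h1.2
  all_goals
    have h2 := h1.1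
    omega

lemma LabFam.sameK (hf : LabFam V nd₁ nd₂ S Dg Fa On Dt Nr Tr Lv Aw ct m K R C γ wf ki kj kk)
    {e : ℕ} (he : e ∈ γ) (hk : kk e = 3) {x : ℕ} (hx : 5 * x + 5 < K) :
    wf e (Qw x) ∈ Tr (R (ki e)) := by
  rcases (hf.wit e he (Qw x) (Qw_sub hx) (Qw_card x)).2.1 with h1 | h1 | h1 | h1 | h1 | h1 | h1
  · have h2 := h1.1
    omega
  · have h2 := h1.1
    omega
  · have h2 := h1.1
    omega
  · exact h1.2
  all_goals
    have h2 := h1.1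
    omega

/-- one family which splits both labels of an edge -/
lemma LabFam.splW (hf : LabFam V nd₁ nd₂ S Dg Fa On Dt Nr Tr Lv Aw ct m K R C γ wf ki kj kk)
    (hinj : ∀ i < m, R i ∈ V → ∀ p < K, ∀ p' < K, C i p = C i p' → p = p')
    (hW : ∀ x ∈ W, 5 * x + 5 < K) {e : ℕ} (he : e ∈ γ) :
    SplW S C W (fun e x => wf e (Qw x)) e (ki e) ∧ SplW S C W (fun e x => wf e (Qw x)) e (kj e) := by
  obtain ⟨-, ⟨hi, hiV⟩, hj, hjV⟩ := hf.ran e he
  have key : ∀ k, k < m → R k ∈ V → (∀ x ∈ W, SnQ S C (Qw x) (wf e (Qw x)) k) →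
      SplW S C W (fun e x => wf e (Qw x)) e k := by
    intro k hk hkV h x hx
    obtain ⟨a, ha, b, hb, hab, hS⟩ := h x hx
    rw [mem_Qw] at ha hb
    have hw := hW x hx
    refine ⟨a, b, by omega, by omega, by omega, by omega, ?_⟩
    rintro (h1 | h1)
    · exact hab (hinj k hk hkV a (by omega) b (by omega) h1)
    · exact h1 hS
  exact ⟨key _ hi hiV fun x hx => (hf.wit e he _ (Qw_sub (hW x hx)) (Qw_card x)).2.2.1,
    key _ hj hjV fun x hx => (hf.wit e he _ (Qw_sub (hW x hx)) (Qw_card x)).2.2.2⟩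

/-- the classes of the ends of a same-row element -/
lemma PWitB.lcls' {E : α → α → α → Prop} {L R' A : α → Set α} {X T : Set α} {z₀ x y s : α}
    (h : PWitB E L R' A X T z₀) (hs : s ∈ T) (hx : x ∈ X) (hy : y ∈ X) (hE : E s x y) :
    (x ∈ L s ↔ y ∈ L s) ∧ (x ∈ R' s ↔ y ∈ R' s) := by
  obtain ⟨N, p, q, hS, hr⟩ := h
  have h1 := (hr.rE s (Or.inl hs) x hx y hy).2 hE
  have hxK : x ∈ PK X p q := Or.inr (Or.inr hx)
  have hyK : y ∈ PK X p q := Or.inr (Or.inr hy)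
  rw [← hr.rL s hs x hx, ← hr.rL s hs y hy, ← hr.rR s hs x hx, ← hr.rR s hs y hy]
  exact ⟨⟨fun h2 => h2.trans hS.cir hxK h1, fun h2 => h2.trans hS.cir hyK h1.symm⟩,
    ⟨fun h2 => h2.trans hS.cir hxK h1, fun h2 => h2.trans hS.cir hyK h1.symm⟩⟩

/-- **A family with kind at most 3 which splits two cut labels separates the tiles of both, or both labels
have the same reference.** -/
theorem EndH.sep (h : LabFacts3 rw V nd₁ nd₂ S Dg Fa On Dt Nr Tr Tu Lv Aw Au B lg oe fr r₀ ct)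
    (hf : LabFam V nd₁ nd₂ S Dg Fa On Dt Nr Tr Lv Aw ct m K R C γ wf ki kj kk)
    (hC : ∀ i < m, R i ∈ V → ∀ p < K, C i p ∈ rw (R i))
    (hH : EndH rw V nd₁ nd₂ S Fa Nr Tr Lv Aw B lg oe fr m K R C γ (fun e x => wf e (Qw x)) kk W D)
    {e : ℕ} (he : e ∈ γ) (hk : kk e ≤ 3) {q q' : Cd α} (hq : q ∈ D) (hq' : q' ∈ D)
    (hs : SplW S C W (fun e x => wf e (Qw x)) e q.k)
    (hs' : SplW S C W (fun e x => wf e (Qw x)) e q'.k) :
    (R q.k = R q'.k ∧ q.z = q'.z) ∨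
    (((kk e ≤ 2 ∧ R q.k ≠ R q'.k) ∨ (kk e = 3 ∧ R q.k = R q'.k ∧ q.z ≠ q'.z)) ∧
      SepF S C W (fun x => wf e (Qw x)) q.k ∧ SepF S C W (fun x => wf e (Qw x)) q'.k) := by
  have hO := hH.ord
  by_cases hk2 : kk e ≤ 2
  · -- rungs
    have sep : ∀ q ∈ D, SplW S C W (fun e x => wf e (Qw x)) e q.k →
        SepF S C W (fun x => wf e (Qw x)) q.k := by
      intro q hq hs
      obtain ⟨hkm, hkV⟩ := hH.lbl q hq
      refine hO.sepF hq (hH.rung e he hk2 q hq hs) ?_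
      intro x hx p hp p' hp' hn
      have c1 := hC q.k hkm hkV p hp
      have c2 := hC q.k hkm hkV p' hp'
      have w1 := (h.wB (R q.k) hkV (wf e (Qw x)) (hf.rungK he hk2 (hO.win x hx))
        (hs.see hC hO.win hkm hkV hx)).one c1 c2
      by_contra hcon
      refine hn ?_
      have w2 := w1.1 (Or.inr hcon)
      exact ⟨fun h1 => ⟨c2, w2.1 h1.2⟩, fun h1 => ⟨c1, w2.2 h1.2⟩⟩
    by_cases hr : R q.k = R q'.k
    · exact Or.inl ⟨hr, hH.rung2 e he hk2 q hq q' hq' hr hs hs'⟩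
    · exact Or.inr ⟨Or.inl ⟨hk2, hr⟩, sep q hq hs, sep q' hq' hs'⟩
  · -- same-row elements
    have hk3 : kk e = 3 := by omega
    obtain ⟨hkm, hkV⟩ := hH.lbl q hq
    obtain ⟨hkm', hkV'⟩ := hH.lbl q' hq'
    obtain ⟨x₀, hx₀⟩ := hH.wne
    obtain ⟨-, ⟨hi, hiV⟩, -⟩ := hf.ran e he
    have hr1 : ∀ q ∈ D, SplW S C W (fun e x => wf e (Qw x)) e q.k → R q.k = R (ki e) := by
      intro q hq hs
      obtain ⟨hkm, hkV⟩ := hH.lbl q hq
      exact h.same_see _ hiV _ (hf.sameK he hk3 (hO.win x₀ hx₀)) _ hkV (hs.see hC hO.win hkm hkV hx₀)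
    have hr : R q.k = R q'.k := (hr1 q hq hs).trans (hr1 q' hq' hs').symm
    by_cases hz : q.z = q'.z
    · exact Or.inl ⟨hr, hz⟩
    · refine Or.inr ⟨Or.inr ⟨hk3, hr, hz⟩, ?_⟩
      obtain ⟨P₁, P₂, hP, hS⟩ := hH.same e he hk3 q hq q' hq' hr hz hs hs'
      obtain ⟨z, hzr, hzs⟩ := hH.z1 q hq
      have hwB := h.wB (R q.k) hkV z hzr hzs
      have hT : ∀ x ∈ W, wf e (Qw x) ∈ Tr (R q.k) := by
        intro x hx
        rw [hr1 q hq hs]
        exact hf.sameK he hk3 (hO.win x hx)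
      have hL : ∀ x ∈ W, ∀ y ∈ rw (R q.k), ∀ z ∈ rw (R q.k), ES S (wf e (Qw x)) y z →
          (y ∈ Lv (nd₁ (R q.k)) (wf e (Qw x)) ↔ z ∈ Lv (nd₁ (R q.k)) (wf e (Qw x))) :=
        fun x hx y hy z hz hE => (hwB.lcls' (hT x hx) hy hz hE).1
      have hR : ∀ x ∈ W, ∀ y ∈ rw (R q.k), ∀ z ∈ rw (R q.k), ES S (wf e (Qw x)) y z →
          (y ∈ Lv (nd₂ (R q.k)) (wf e (Qw x)) ↔ z ∈ Lv (nd₂ (R q.k)) (wf e (Qw x))) :=
        fun x hx y hy z hz hE => (hwB.lcls' (hT x hx) hy hz hE).2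
      have hCr : ∀ p < K, C q.k p ∈ rw (R q.k) := hC q.k hkm hkV
      have hCr' : ∀ p < K, C q'.k p ∈ rw (R q.k) := by
        rw [hr]
        exact hC q'.k hkm' hkV'
      rcases hS with ⟨s1, s2⟩ | ⟨s1, s2⟩
      · exact hO.sepF₂ (L := Lv (nd₁ (R q.k))) (R' := Lv (nd₂ (R q.k))) hq hq' hr hz s1 s2 hCr' hP
          hL hR
      · exact (hO.sepF₂ (L := Lv (nd₁ (R q.k))) (R' := Lv (nd₂ (R q.k))) hq' hq hr.symm
          (fun h1 => hz h1.symm) s1 s2 hCr hP hL hR).symm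

/-- **The chosen families.** -/
def gamT (S : α → α → α → Prop) (C : ℕ → ℕ → α) (R : ℕ → β) (W : Set ℕ) (D : Set (Cd α))
    (F : ℕ → ℕ → α) (kk : ℕ → ℕ) (γ : Set ℕ) : Set ℕ :=
  {e | e ∈ γ ∧ ∃ q ∈ D, ∃ q' ∈ D, SplW S C W F e q.k ∧ SplW S C W F e q'.k ∧
    ((kk e ≤ 2 ∧ R q.k ≠ R q'.k) ∨ (kk e = 3 ∧ R q.k = R q'.k ∧ q.z ≠ q'.z))}

/-- the edges of the families of kind at most 3 -/
def AdjR (Lb : Set ℕ) (S : α → α → α → Prop) (C : ℕ → ℕ → α) (W : Set ℕ)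
    (F : ℕ → ℕ → α) (kk : ℕ → ℕ) (γ : Set ℕ) (i j : ℕ) : Prop :=
  (i ∈ Lb ∧ j ∈ Lb) ∧ ∃ e ∈ γ, kk e ≤ 3 ∧ SplW S C W F e i ∧ SplW S C W F e j

/-- the edges of the chosen families -/
def AdjT (m : ℕ) (R : ℕ → β) (V : Set β) (S : α → α → α → Prop) (C : ℕ → ℕ → α) (W : Set ℕ)
    (F : ℕ → ℕ → α) (γ : Set ℕ) (i j : ℕ) : Prop :=
  (i < m ∧ R i ∈ V) ∧ (j < m ∧ R j ∈ V) ∧ ∃ e ∈ γ, SepF S C W (F e) i ∧ SepF S C W (F e) j

/-- two labels with the same reference -/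
theorem EndH.refEdge
    (h : LabFacts3 rw V nd₁ nd₂ S Dg Fa On Dt Nr Tr Tu Lv Aw Au B lg oe fr r₀ ct)
    (hf : LabFam V nd₁ nd₂ S Dg Fa On Dt Nr Tr Lv Aw ct m K R C γ wf ki kj kk)
    (hC : ∀ i < m, R i ∈ V → ∀ p < K, C i p ∈ rw (R i))
    (hH : EndH rw V nd₁ nd₂ S Fa Nr Tr Lv Aw B lg oe fr m K R C γ (fun e x => wf e (Qw x)) kk W D)
    {q q' : Cd α} (hq : q ∈ D) (hq' : q' ∈ D) (hr : R q.k = R q'.k) (hz : q.z = q'.z)
    (hcls : ∀ j, AdjF {i | i < m ∧ R i ∈ V} S C W (fun e x => wf e (Qw x)) γ q.k j → j ∈ cutL D) :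
    AdjT m R V S C W (fun e x => wf e (Qw x)) (gamT S C R W D (fun e x => wf e (Qw x)) kk γ)
      q.k q'.k := by
  obtain ⟨hzγ, hzk, hzs⟩ := hH.z0 q hq
  obtain ⟨-, -, hzs'⟩ := hH.z0 q' hq'
  rw [← hz] at hzs'
  have L1 := hH.lbl q hq
  have L2 := hH.lbl q' hq'
  by_cases hk2 : kk q.z ≤ 2
  · obtain ⟨j, hj, hjV, hjr, hjs⟩ := hH.z2 q hq hk2
    obtain ⟨q₂, hq₂, hq₂j⟩ := hcls j ⟨⟨L1, hj, hjV⟩, q.z, hzγ, hzs, hjs⟩
    rw [← hq₂j] at hjr hjs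
    have hT : q.z ∈ gamT S C R W D (fun e x => wf e (Qw x)) kk γ :=
      ⟨hzγ, q, hq, q₂, hq₂, hzs, hjs, Or.inl ⟨hk2, fun h1 => hjr h1.symm⟩⟩
    refine ⟨L1, L2, q.z, hT, ?_, ?_⟩
    · rcases EndH.sep h hf hC hH hzγ hzk hq hq₂ hzs hjs with h1 | h1
      · exact absurd h1.1.symm hjr
      · exact h1.2.1
    · rcases EndH.sep h hf hC hH hzγ hzk hq' hq₂ hzs' hjs with h1 | h1
      · exact absurd (hr.trans h1.1).symm hjr
      · exact h1.2.1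
  · have hk3 : kk q.z = 3 := by omega
    obtain ⟨q₀, hq₀, hz₀, hr₀, hs₀⟩ := hH.z3 q hq hk3
    have hT : q.z ∈ gamT S C R W D (fun e x => wf e (Qw x)) kk γ :=
      ⟨hzγ, q, hq, q₀, hq₀, hzs, hs₀, Or.inr ⟨hk3, hr₀.symm, fun h1 => hz₀ h1.symm⟩⟩
    refine ⟨L1, L2, q.z, hT, ?_, ?_⟩
    · rcases EndH.sep h hf hC hH hzγ hzk hq hq₀ hzs hs₀ with h1 | h1
      · exact absurd h1.2.symm hz₀
      · exact h1.2.1
    · rcases EndH.sep h hf hC hH hzγ hzk hq' hq₀ hzs' hs₀ with h1 | h1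
      · exact absurd (hz.trans h1.2).symm hz₀
      · exact h1.2.1

/-- one edge -/
theorem EndH.edge₁
    (h : LabFacts3 rw V nd₁ nd₂ S Dg Fa On Dt Nr Tr Tu Lv Aw Au B lg oe fr r₀ ct)
    (hf : LabFam V nd₁ nd₂ S Dg Fa On Dt Nr Tr Lv Aw ct m K R C γ wf ki kj kk)
    (hC : ∀ i < m, R i ∈ V → ∀ p < K, C i p ∈ rw (R i))
    (hH : EndH rw V nd₁ nd₂ S Fa Nr Tr Lv Aw B lg oe fr m K R C γ (fun e x => wf e (Qw x)) kk W D)
    {i j : ℕ} (hij : AdjR {i | i < m ∧ R i ∈ V} S C W (fun e x => wf e (Qw x)) kk γ i j)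
    (hi : i ∈ cutL D) (hj : j ∈ cutL D)
    (hcls : ∀ j, AdjF {i | i < m ∧ R i ∈ V} S C W (fun e x => wf e (Qw x)) γ i j → j ∈ cutL D) :
    AdjT m R V S C W (fun e x => wf e (Qw x)) (gamT S C R W D (fun e x => wf e (Qw x)) kk γ) i j := by
  obtain ⟨⟨L1, L2⟩, e, he, hk, hs, hs'⟩ := hij
  obtain ⟨q, hq, rfl⟩ := hi
  obtain ⟨q', hq', rfl⟩ := hj
  rcases EndH.sep h hf hC hH he hk hq hq' hs hs' with h1 | h1
  · exact EndH.refEdge h hf hC hH hq hq' h1.1 h1.2 hcls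
  · exact ⟨L1, L2, e, ⟨he, q, hq, q', hq', hs, hs', h1.1⟩, h1.2⟩

/-- all edges of a class which is cut completely -/
theorem EndH.edges
    (h : LabFacts3 rw V nd₁ nd₂ S Dg Fa On Dt Nr Tr Tu Lv Aw Au B lg oe fr r₀ ct)
    (hf : LabFam V nd₁ nd₂ S Dg Fa On Dt Nr Tr Lv Aw ct m K R C γ wf ki kj kk)
    (hC : ∀ i < m, R i ∈ V → ∀ p < K, C i p ∈ rw (R i))
    (hH : EndH rw V nd₁ nd₂ S Fa Nr Tr Lv Aw B lg oe fr m K R C γ (fun e x => wf e (Qw x)) kk W D)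
    {i j : ℕ} (hij : Relation.ReflTransGen
      (AdjR {i | i < m ∧ R i ∈ V} S C W (fun e x => wf e (Qw x)) kk γ) i j)
    (hcls : ∀ j, Relation.ReflTransGen
      (AdjF {i | i < m ∧ R i ∈ V} S C W (fun e x => wf e (Qw x)) γ) i j → j ∈ cutL D) :
    Relation.ReflTransGen (AdjT m R V S C W (fun e x => wf e (Qw x))
      (gamT S C R W D (fun e x => wf e (Qw x)) kk γ)) i j ∧
    Relation.ReflTransGen (AdjF {i | i < m ∧ R i ∈ V} S C W (fun e x => wf e (Qw x)) γ) i j := by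
  induction hij with
  | refl => exact ⟨Relation.ReflTransGen.refl, Relation.ReflTransGen.refl⟩
  | @tail b c _ h2 ih =>
    obtain ⟨ih1, ih2⟩ := ih
    have h3 : AdjF {i | i < m ∧ R i ∈ V} S C W (fun e x => wf e (Qw x)) γ b c := by
      obtain ⟨L, e, he, -, hs⟩ := h2
      exact ⟨L, e, he, hs⟩
    refine ⟨ih1.tail (EndH.edge₁ h hf hC hH h2 (hcls _ ih2) (hcls _ (ih2.tail h3)) ?_), ih2.tail h3⟩
    intro k hk
    exact hcls k (ih2.tail hk)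

/-- **The places of a chosen family.** -/
theorem EndH.places
    (h : LabFacts3 rw V nd₁ nd₂ S Dg Fa On Dt Nr Tr Tu Lv Aw Au B lg oe fr r₀ ct)
    (hf : LabFam V nd₁ nd₂ S Dg Fa On Dt Nr Tr Lv Aw ct m K R C γ wf ki kj kk)
    (hC : ∀ i < m, R i ∈ V → ∀ p < K, C i p ∈ rw (R i))
    (hH : EndH rw V nd₁ nd₂ S Fa Nr Tr Lv Aw B lg oe fr m K R C γ (fun e x => wf e (Qw x)) kk W D)
    {e : ℕ} (he : e ∈ gamT S C R W D (fun e x => wf e (Qw x)) kk γ) :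
    ∃ (ρ : Bool → β) (P : Bool → ℕ → Set α),
      (∀ c, ∃ q ∈ D, R q.k = ρ c ∧ SandP W q.d q.G (P c)) ∧
      (∀ x ∈ W, ρ false = ρ true → P false x ⊆ P true x) ∧
      ∀ x ∈ W, TPl rw V nd₁ nd₂ S Fa Nr Tr Lv Aw B lg oe fr (fun _ => ρ) (fun _ c => P c x)
        (wf e (Qw x)) := by
  obtain ⟨heγ, q, hq, q', hq', hs, hs', hk⟩ := he
  obtain ⟨L1, L1V⟩ := hH.lbl q hq
  obtain ⟨L2, L2V⟩ := hH.lbl q' hq'
  have hO := hH.ord
  rcases hk with ⟨hk, hr⟩ | ⟨hk, hr, hz⟩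
  · -- rungs
    by_cases hk0 : kk e = 0
    · -- far rungs
      obtain ⟨x₀, hx₀⟩ := hH.wne
      have hfar : ∀ x ∈ W, ∃ i, fr (wf e (Qw x)) i = R q.k ∧ fr (wf e (Qw x)) (!i) = R q'.k := by
        intro x hx
        have hFa := hf.farK heγ hk0 (hO.win x hx)
        obtain ⟨i, hi⟩ := h.far_see _ hFa _ L1V (hs.see hC hO.win L1 L1V hx)
        obtain ⟨j, hj⟩ := h.far_see _ hFa _ L2V (hs'.see hC hO.win L2 L2V hx)
        refine ⟨i, hi.symm, ?_⟩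
        have hij : j = !i := by
          cases i <;> cases j
          · exact absurd (hi.trans hj.symm) hr
          · rfl
          · rfl
          · exact absurd (hi.trans hj.symm) hr
        rw [← hij]
        exact hj.symm
      -- the constant order
      obtain ⟨a, ha, b, hb, hsa, hsb, hab⟩ : ∃ a ∈ D, ∃ b ∈ D,
          SplW S C W (fun e x => wf e (Qw x)) e a.k ∧ SplW S C W (fun e x => wf e (Qw x)) e b.k ∧
          ∀ x ∈ W, fr (wf e (Qw x)) false = R a.k ∧ fr (wf e (Qw x)) true = R b.k := by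
        obtain ⟨i₀, hi₀, hi₀'⟩ := hfar x₀ hx₀
        cases i₀
        · refine ⟨q, hq, q', hq', hs, hs', fun x hx => ?_⟩
          have h1 := (hH.far e heγ hk0 q.k L1 x hx x₀ hx₀).2 hi₀
          obtain ⟨i, hi, hi'⟩ := hfar x hx
          cases i
          · exact ⟨hi, hi'⟩
          · exact absurd (h1.symm.trans hi') hr
        · refine ⟨q', hq', q, hq, hs', hs, fun x hx => ?_⟩
          have h1 := (hH.far e heγ hk0 q'.k L2 x hx x₀ hx₀).2 hi₀'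
          obtain ⟨i, hi, hi'⟩ := hfar x hx
          cases i
          · exact absurd (hi.symm.trans h1) hr
          · exact ⟨hi', hi⟩
      have hne : R a.k ≠ R b.k := by
        have h1 := hab x₀ hx₀
        rw [← h1.1, ← h1.2]
        exact fun h2 => absurd (h.far_ne (hf.farK heγ hk0 (hO.win x₀ hx₀)) h2) (by simp)
      refine ⟨fun c => R (cond c b a).k, fun c x => {p | p ∈ rw (R (cond c b a).k) ∧
        p ∈ Aw (R (cond c b a).k) (wf e (Qw x))}, ?_, ?_, ?_⟩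
      · intro c
        cases c
        · exact ⟨a, ha, rfl, hH.rung e heγ hk a ha hsa⟩
        · exact ⟨b, hb, rfl, hH.rung e heγ hk b hb hsb⟩
      · intro x hx h1
        exact absurd h1 hne
      · intro x hx
        refine ⟨fun c => ?_, Or.inl ⟨hf.farK heγ hk0 (hO.win x hx), fun c => ?_⟩⟩
        · cases c
          · exact (hH.lbl a ha).2
          · exact (hH.lbl b hb).2
        · obtain ⟨h1, h2⟩ := hab x hx
          cases c
          · rw [h1]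
            exact ⟨rfl, rfl⟩
          · rw [h2]
            exact ⟨rfl, rfl⟩
    · -- near rungs
      refine ⟨fun c => cond c (R q'.k) (R q.k), fun c x => {p | p ∈ rw (cond c (R q'.k) (R q.k)) ∧
        p ∈ Aw (cond c (R q'.k) (R q.k)) (wf e (Qw x))}, ?_, ?_, ?_⟩
      · intro c
        cases c
        · exact ⟨q, hq, rfl, hH.rung e heγ hk q hq hs⟩
        · exact ⟨q', hq', rfl, hH.rung e heγ hk q' hq' hs'⟩
      · intro x hx h1
        exact absurd h1 hr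
      · intro x hx
        exact hH.near e heγ (by omega) q hq q' hq' hr hs hs' x hx
  · -- same-row elements
    obtain ⟨P₁, P₂, hP, hS⟩ := hH.same e heγ hk q hq q' hq' hr hz hs hs'
    have hki : ∀ x ∈ W, R q.k = R (ki e) := by
      intro x hx
      obtain ⟨-, ⟨hi, hiV⟩, -⟩ := hf.ran e heγ
      exact h.same_see _ hiV _ (hf.sameK heγ hk (hO.win x hx)) _ L1V (hs.see hC hO.win L1 L1V hx)
    refine ⟨fun _ => R q.k, fun c => cond c P₂ P₁, ?_, ?_, ?_⟩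
    · intro c
      rcases hS with ⟨s1, s2⟩ | ⟨s1, s2⟩
      · cases c
        · exact ⟨q, hq, rfl, s1⟩
        · exact ⟨q', hq', hr.symm, s2⟩
      · cases c
        · exact ⟨q', hq', hr.symm, s1⟩
        · exact ⟨q, hq, rfl, s2⟩
    · intro x hx _
      exact (hP x hx).le
    · intro x hx
      refine ⟨fun _ => L1V, Or.inr (Or.inr ⟨R q.k, L1V, ?_, fun _ => rfl, hP x hx⟩)⟩
      rw [hki x hx]
      exact hf.sameK heγ hk (hO.win x hx)

/-- **`LayOut` from the facts about the maximal list.** -/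
theorem EndH.layOut
    (h : LabFacts3 rw V nd₁ nd₂ S Dg Fa On Dt Nr Tr Tu Lv Aw Au B lg oe fr r₀ ct)
    (hf : LabFam V nd₁ nd₂ S Dg Fa On Dt Nr Tr Lv Aw ct m K R C γ wf ki kj kk)
    (hC : ∀ i < m, R i ∈ V → ∀ p < K, C i p ∈ rw (R i))
    (hinj : ∀ i < m, R i ∈ V → ∀ p < K, ∀ p' < K, C i p = C i p' → p = p')
    (hH : EndH rw V nd₁ nd₂ S Fa Nr Tr Lv Aw B lg oe fr m K R C γ (fun e x => wf e (Qw x)) kk W D)
    (hY : ∀ b < M, Y b ∈ W) (hYm : ∀ a b, a < b → b < M → Y a < Y b)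
    (hmax : ∀ i, (∀ j, Relation.ReflTransGen (AdjF {i | i < m ∧ R i ∈ V} S C W
        (fun e x => wf e (Qw x)) γ) i j → j ∈ cutL D) ∨
      ∃ v v' : ν, ∀ j, Relation.ReflTransGen (AdjF {i | i < m ∧ R i ∈ V} S C W
        (fun e x => wf e (Qw x)) γ) i j → At nd₁ nd₂ (R j) v ∨ At nd₁ nd₂ (R j) v')
    (hone : ∀ e ∈ γ, ¬ kk e ≤ 3 → (∀ j, Relation.ReflTransGen (AdjF {i | i < m ∧ R i ∈ V} S C W
        (fun e x => wf e (Qw x)) γ) (ki e) j → j ∈ cutL D) →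
      (¬ ∃ v v' : ν, ∀ j, Relation.ReflTransGen (AdjF {i | i < m ∧ R i ∈ V} S C W
        (fun e x => wf e (Qw x)) γ) (ki e) j → At nd₁ nd₂ (R j) v ∨ At nd₁ nd₂ (R j) v') →
      Relation.ReflTransGen (AdjR {i | i < m ∧ R i ∈ V} S C W (fun e x => wf e (Qw x)) kk γ)
        (ki e) (kj e)) :
    ∃ (γT : Set ℕ) (ρ : ℕ → Bool → β) (P : ℕ → Bool → ℕ → Set α) (Cut : Set ℕ),
      LayOut V nd₁ nd₂ S Dg (fun t pr pa => t ∈ Dg ∧
        TPl rw V nd₁ nd₂ S Fa Nr Tr Lv Aw B lg oe fr (fun _ => pr) (fun _ => pa) t)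
        m M (7 * (m * m)) 3 R (fun i b => C i (5 * Y b)) γT (fun e x => wf e (Qw (Y (x + 1)))) ρ P
        Cut := by
  classical
  have hO := hH.ord
  obtain ⟨γT, hγT⟩ : ∃ γT, γT = gamT S C R W D (fun e x => wf e (Qw x)) kk γ := ⟨_, rfl⟩
  have hex : ∀ e, ∃ (ρ : Bool → β) (P : Bool → ℕ → Set α), e ∈ γT →
      (∀ c, ∃ q ∈ D, R q.k = ρ c ∧ SandP W q.d q.G (P c)) ∧
      (∀ x ∈ W, ρ false = ρ true → P false x ⊆ P true x) ∧
      ∀ x ∈ W, TPl rw V nd₁ nd₂ S Fa Nr Tr Lv Aw B lg oe fr (fun _ => ρ) (fun _ c => P c x)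
        (wf e (Qw x)) := by
    intro e
    by_cases he : e ∈ γT
    · rw [hγT] at he
      obtain ⟨ρ, P, h1⟩ := EndH.places h hf hC hH he
      exact ⟨ρ, P, fun _ => h1⟩
    · exact ⟨fun _ => R 0, fun _ _ => ∅, fun h1 => absurd h1 he⟩
  choose ρ P hρP using hex
  have sub : ∀ i j, AdjK {i | i < m ∧ R i ∈ V} Dg S (fun i b => C i (5 * Y b)) M i j →
      ∃ e ∈ γ, ki e = i ∧ kj e = j := by
    rintro i j ⟨hL, d, hd, ⟨a, ha, b, hb, hab, hs⟩, a', ha', b', hb', hab', hs'⟩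
    have lt : ∀ a < M, 5 * Y a < K := by
      intro a ha
      have := hO.win (Y a) (hY a ha)
      omega
    have ne : ∀ a b, a < M → b < M → a ≠ b → 5 * Y a ≠ 5 * Y b := by
      intro a b ha hb hab h1
      rcases Nat.lt_or_gt_of_ne hab with h2 | h2
      · have := hYm a b h2 hb
        omega
      · have := hYm b a h2 ha
        omega
    exact hf.all i j ⟨hL, d, hd, ⟨_, lt a ha, _, lt b hb, ne a b ha hb hab, hs⟩,
      _, lt a' ha', _, lt b' hb', ne a' b' ha' hb' hab', hs'⟩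
  have subF : ∀ i j, AdjK {i | i < m ∧ R i ∈ V} Dg S (fun i b => C i (5 * Y b)) M i j →
      AdjF {i | i < m ∧ R i ∈ V} S C W (fun e x => wf e (Qw x)) γ i j := by
    intro i j hij
    obtain ⟨e, he, rfl, rfl⟩ := sub i j hij
    obtain ⟨h1, h2⟩ := hf.splW hinj hO.win he
    exact ⟨hij.1, e, he, h1, h2⟩
  have subR : ∀ i j, Relation.ReflTransGen (AdjK {i | i < m ∧ R i ∈ V} Dg S
      (fun i b => C i (5 * Y b)) M) i j → Relation.ReflTransGen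
      (AdjF {i | i < m ∧ R i ∈ V} S C W (fun e x => wf e (Qw x)) γ) i j := by
    intro i j hij
    induction hij with
    | refl => exact Relation.ReflTransGen.refl
    | tail _ h2 ih => exact ih.tail (subF _ _ h2)
  refine ⟨γT, ρ, fun e c x => P e c (Y (x + 1)), _,
    hO.layOut (Cut₀ := cutL D) (F := fun e x => wf e (Qw x)) hY hYm ?_ ?_ ?_ ?_ ?_ ?_⟩
  · intro e he
    rw [hγT] at he
    exact (hf.ran e he.1).1
  · intro e he x hx
    have h1 := (hρP e he).2.2 x hx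
    rw [hγT] at he
    exact ⟨(hf.wit e he.1 _ (Qw_sub (hO.win x hx)) (Qw_card x)).1, h1⟩
  · intro e he c
    exact (hρP e he).1 c
  · intro e he x hx h1
    exact (hρP e he).2.1 x hx h1
  · intro i
    rcases hmax i with h1 | ⟨v, v', h1⟩
    · exact Or.inl fun j hj => h1 j (subR i j hj)
    · exact Or.inr ⟨v, v', fun j hj => h1 j (subR i j hj)⟩
  · intro i j hij _ hnp
    have hnF : ¬ ∃ v v' : ν, ∀ j, Relation.ReflTransGen (AdjF {i | i < m ∧ R i ∈ V} S C W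
        (fun e x => wf e (Qw x)) γ) i j → At nd₁ nd₂ (R j) v ∨ At nd₁ nd₂ (R j) v' := by
      rintro ⟨v, v', h1⟩
      exact hnp ⟨v, v', fun k hk => h1 k (subR i k hk)⟩
    have hcF : ∀ j, Relation.ReflTransGen (AdjF {i | i < m ∧ R i ∈ V} S C W
        (fun e x => wf e (Qw x)) γ) i j → j ∈ cutL D := by
      rcases hmax i with h1 | h1
      · exact h1
      · exact absurd h1 hnF
    have hR : Relation.ReflTransGen (AdjR {i | i < m ∧ R i ∈ V} S C W (fun e x => wf e (Qw x)) kk γ)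
        i j := by
      obtain ⟨e, he, rfl, rfl⟩ := sub i j hij
      by_cases hk : kk e ≤ 3
      · obtain ⟨h1, h2⟩ := hf.splW hinj hO.win he
        exact Relation.ReflTransGen.single ⟨hij.1, e, he, hk, h1, h2⟩
      · exact hone e he hk hcF hnF
    have h2 := (EndH.edges h hf hC hH hR hcF).1
    rw [hγT]
    exact h2

end

end TST
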