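import Pool.Agent.TST.LayRow

/-!
# The tree of cells of one row (T-star, row R5; definitions, helper79)

`C k p` = element of the label `k` at the position `p < K`; the window `x` consists of the positions
`5 x + 1, .., 5 x + 4`.  `F e x` = member of the family `e ∈ γ` at the window `x`.  `GT c W D` : there
is a tree of free references on the cell `c`; `W` = usable windows, `D` = data of the cut labels: `q ∈ D`
means that the label `q.k` is cut by the family `q.z` in the direction `q.d`; `q.G x` = global place of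
`F q.z x`.
-/

set_option autoImplicit false

open Set

namespace TST

universe u

/-- a cell of a row: the elements left of it, its elements, the same-row elements which are constant on
both sides of it, the places of its exits (left side) -/
structure Cell (α : Type u) where
  Lf : Set α
  X : Set α
  T : Set α
  A : α → Set α

section

variable {α : Type u}

/-- the left child at the wall `z` -/
def Cell.left (L R : α → Set α) (c : Cell α) (z : α) : Cell α :=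
  ⟨c.Lf, cX c.X (c.A z), cT R c.X c.T (c.A z), cA L c.A c.T⟩

/-- the right child at the wall `z` -/
def Cell.right (L R : α → Set α) (c : Cell α) (z : α) : Cell α :=
  ⟨c.Lf ∪ cX c.X (c.A z), cX c.X (c.A z)ᶜ, cT L c.X c.T (c.A z)ᶜ, cB R c.A c.T⟩

/-- the global place of an exit of a cell (elements of the row on the left side) -/
def Cell.gp (c : Cell α) (e : α) : Set α := c.Lf ∪ cX c.X (c.A e)

/-- data of a cut label -/
structure Cd (α : Type u) where
  k : ℕ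
  z : ℕ
  d : Bool
  G : ℕ → Set α

/-- the label `k` lies in the cell -/
def InC (K : ℕ) (C : ℕ → ℕ → α) (c : Cell α) (k : ℕ) : Prop := ∀ p < K, C k p ∈ c.X

/-- six places of a position with respect to the window `x` -/
def wpos (x p : ℕ) : ℕ := if p ≤ 5 * x then 0 else if 5 * x + 5 ≤ p then 5 else p - 5 * x

/-- the sets `P x` have a fixed pattern on the labels of the row -/
def Hom (K : ℕ) (C : ℕ → ℕ → α) (Lb W : Set ℕ) (P : ℕ → Set α) : Prop :=
  ∀ k ∈ Lb, ∃ v : ℕ → Prop, ∀ x ∈ W, ∀ p < K, (C k p ∈ P x ↔ v (wpos x p))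

/-- `e` separates two positions of the label `k` near the window `x` -/
def SeeW (E : α → α → α → Prop) (C : ℕ → ℕ → α) (e : α) (k x : ℕ) : Prop :=
  ∃ p p', 5 * x ≤ p ∧ p ≤ 5 * x + 5 ∧ 5 * x ≤ p' ∧ p' ≤ 5 * x + 5 ∧ ¬ E e (C k p) (C k p')

/-- `e` separates two positions of the label `k` between two usable windows -/
def SeeB (E : α → α → α → Prop) (C : ℕ → ℕ → α) (W : Set ℕ) (e : α) (k : ℕ) : Prop :=
  ∃ x ∈ W, ∃ y ∈ W, ∃ p p', 5 * x ≤ p ∧ p ≤ 5 * y + 5 ∧ 5 * x ≤ p' ∧ p' ≤ 5 * y + 5 ∧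
    ¬ E e (C k p) (C k p')

/-- `P` is the side `p ≤ 5 x` of the label `k` (`d = true`), or the side `p ≥ 5 x + 5` (`d = false`) -/
def SideW (K : ℕ) (C : ℕ → ℕ → α) (d : Bool) (P : Set α) (k x : ℕ) : Prop :=
  (∀ p < K, p ≤ 5 * x → (C k p ∈ P ↔ d = true)) ∧
    ∀ p < K, 5 * x + 5 ≤ p → (C k p ∈ P ↔ d = false)

/-- the members of the families at the window `x` -/
def MbF (F : ℕ → ℕ → α) (γ : Set ℕ) (x : ℕ) : Set α := {s | ∃ e ∈ γ, s = F e x}

/-- **Node**: the family `z` is free on the cell and cuts the labels `Cz` in the direction `d`; the other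
labels of the cell are left of all members or right of all members. -/
structure Node (E : α → α → α → Prop) (L R : α → Set α) (Dg : Set α) (F : ℕ → ℕ → α) (γ : Set ℕ)
    (K : ℕ) (C : ℕ → ℕ → α) (Lb : Set ℕ) (c : Cell α) (z : ℕ) (d : Bool) (Wz Cz : Set ℕ) : Prop where
  mem : z ∈ γ
  fr : Fr E L R c.A Dg c.X c.T (MbF F γ) univ Wz (F z)
  exc : ∀ x ∈ Wz, ExC E Dg c.X c.T (F z x)
  ne : Cz.Nonempty
  lb : ∀ k ∈ Cz, k ∈ Lb ∧ InC K C c k
  win : ∀ x ∈ Wz, 5 * x + 5 < K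
  cut : ∀ k ∈ Cz, ∀ x ∈ Wz, SideW K C d (c.A (F z x)) k x
  con : ∀ k ∈ Lb, InC K C c k → k ∉ Cz → (∀ x ∈ Wz, ∀ p < K, C k p ∈ c.A (F z x)) ∨
    ∀ x ∈ Wz, ∀ p < K, C k p ∉ c.A (F z x)

/-- four reserved windows around the usable windows -/
structure Resv (Wz W : Set ℕ) (l₁ l₂ h₂ h₁ : ℕ) : Prop where
  sub : W ⊆ Wz
  ml₁ : l₁ ∈ Wz
  ml₂ : l₂ ∈ Wz
  mh₂ : h₂ ∈ Wz
  mh₁ : h₁ ∈ Wz
  ll : l₁ < l₂
  hh : h₂ < h₁
  lh : l₂ < h₂
  lo : ∀ x ∈ W, l₂ < x
  hi : ∀ x ∈ W, x < h₂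

/-- the window of the wall of the left child -/
def wl (d : Bool) (l₁ h₁ : ℕ) : ℕ := if d = true then l₁ else h₁

/-- the window of the wall of the right child -/
def wr (d : Bool) (l₁ h₁ : ℕ) : ℕ := if d = true then h₁ else l₁

/-- the data of the labels which are cut at a node -/
def ndD (F : ℕ → ℕ → α) (c : Cell α) (z : ℕ) (d : Bool) (Cz : Set ℕ) : Set (Cd α) :=
  {q | q.k ∈ Cz ∧ q.z = z ∧ q.d = d ∧ q.G = fun x => c.gp (F z x)}

/-- **Tree of references**; `Qc` = a property of the cells -/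
inductive GT (E : α → α → α → Prop) (L R : α → Set α) (Dg : Set α) (F : ℕ → ℕ → α) (γ : Set ℕ)
    (K : ℕ) (C : ℕ → ℕ → α) (Lb : Set ℕ) (Qc : Cell α → Prop) : Cell α → Set ℕ → Set (Cd α) → Prop
  | leaf (c : Cell α) (W : Set ℕ) : CellS E L R c.A Dg c.X c.T → Qc c →
      GT E L R Dg F γ K C Lb Qc c W ∅
  | node (c : Cell α) (W : Set ℕ) (z : ℕ) (d : Bool) (Wz Cz : Set ℕ) (D₁ D₂ : Set (Cd α))
      (l₁ l₂ h₂ h₁ : ℕ) : CellS E L R c.A Dg c.X c.T → Qc c →
      Node E L R Dg F γ K C Lb c z d Wz Cz → Resv Wz W l₁ l₂ h₂ h₁ →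
      GT E L R Dg F γ K C Lb Qc (c.left L R (F z (wl d l₁ h₁))) W D₁ →
      GT E L R Dg F γ K C Lb Qc (c.right L R (F z (wr d l₁ h₁))) W D₂ →
      GT E L R Dg F γ K C Lb Qc c W (ndD F c z d Cz ∪ D₁ ∪ D₂)

/-- **The leaf `g` of the uncut label `j`.**  `app`: the leaf may be replaced by a tree. -/
structure LeafAt (E : α → α → α → Prop) (L R : α → Set α) (Dg : Set α) (F : ℕ → ℕ → α) (γ : Set ℕ)
    (K : ℕ) (C : ℕ → ℕ → α) (Lb : Set ℕ) (Qc : Cell α → Prop) (c : Cell α) (W : Set ℕ)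
    (D : Set (Cd α)) (j : ℕ) (g : Cell α) : Prop where
  cs : CellS E L R g.A Dg g.X g.T
  qc : Qc g
  inC : InC K C g j
  X : g.X ⊆ c.X
  T : g.T ⊆ c.T
  A : ∀ e, e ∉ c.T → g.A e = c.A e
  cutp : ∀ q ∈ D, ∀ x ∈ W, ∀ y ∈ W, ∀ p < K, 5 * x ≤ p → p ≤ 5 * y + 5 → C q.k p ∉ g.X
  link : ∀ s ∈ c.T, ExC E Dg g.X g.T s → ∀ x ∈ W, ∀ y ∈ MbF F γ x, y ∉ c.T →
    ExC E Dg g.X g.T y → PWitD E L R g.A g.X g.T s y
  desc : ∀ f ∈ γ, ∀ Wf ⊆ W, Fr E L R c.A Dg c.X c.T (MbF F γ) univ Wf (F f) →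
    Fr E L R g.A Dg g.X g.T (MbF F γ) univ Wf (F f)
  app : ∀ W' ⊆ W, ∀ D', GT E L R Dg F γ K C Lb Qc g W' D' → GT E L R Dg F γ K C Lb Qc c W' (D ∪ D')

/-- the cut labels -/
def cutL (D : Set (Cd α)) : Set ℕ := {k | ∃ q ∈ D, q.k = k}

end

end TST
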