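import Pool.Agent.TST.SplitD
import Pool.Agent.TST.WitFacts

/-!
# Row core of the insertion proof (T-star, row R5, helper11)

A cell of a row: `X` = elements of the row, `T` = same-row elements which are constant on both sides of
the cell, `A` = places of the exits.  `Fr` = free families.  Children of a cell, descent of free
families, and the same-row step.
-/

set_option autoImplicit false

open Set
open scoped Matroid

namespace TST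

section

variable {α ι : Type*} {E : α → α → α → Prop} {L R A A' : α → Set α} {Dg X T P Q Q' : Set α}
  {Mb : ι → Set α} {W W' : Set ι} {f t : ι → α} {d e : α}

/-- exits of the cell `(X, T)` -/
def ExC (E : α → α → α → Prop) (Dg X T : Set α) (d : α) : Prop :=
  d ∈ Dg ∧ d ∉ T ∧ ∃ x ∈ X, ∃ y ∈ X, ¬ E d x y

/-- (S) every good element is in `T`, constant on `X` or an exit with a witness -/
def CellS (E : α → α → α → Prop) (L R A : α → Set α) (Dg X T : Set α) : Prop :=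
  ∀ d, ExC E Dg X T d → PWitB E L R A X T d

/-- **Families which have pair witnesses with all exits of `Q`** (up to one index); `Q = univ`: free
families.  `Mb y` = members of Ramsey families at the window `y`. -/
structure Fr (E : α → α → α → Prop) (L R A : α → Set α) (Dg X T : Set α) (Mb : ι → Set α)
    (Q : Set α) (W : Set ι) (f : ι → α) : Prop where
  mem : ∀ x ∈ W, f x ∈ Dg ∧ f x ∉ T ∧ f x ∈ Mb x
  w2 : ∀ e ∈ Q, ExC E Dg X T e → ∃ b, ∀ x ∈ W, x ≠ b → ExC E Dg X T (f x) →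
    PWitD E L R A X T e (f x)
  w2f : ∀ y ∈ W, ∀ e ∈ Mb y, e ∈ Q → ExC E Dg X T e → ∀ x ∈ W, x ≠ y → ExC E Dg X T (f x) →
    PWitD E L R A X T e (f x)

/-- the same-row elements of the left child -/
def cT (R : α → Set α) (X T P : Set α) : Set α := {s | s ∈ T ∧ ∀ y ∈ X, y ∉ P → y ∈ R s}

/-- the places of the left child -/
def cA (L A : α → Set α) (T : Set α) : α → Set α :=
  fun s => {x | (s ∈ T ∧ x ∈ L s) ∨ (s ∉ T ∧ x ∈ A s)}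

/-- the elements of the left child -/
def cX (X P : Set α) : Set α := {x | x ∈ X ∧ x ∈ P}

lemma mem_cA_T {s x : α} (hs : s ∈ T) : x ∈ cA L A T s ↔ x ∈ L s := by
  simp only [cA, mem_ofPred_eq]
  tauto

lemma mem_cA_n {s x : α} (hs : s ∉ T) : x ∈ cA L A T s ↔ x ∈ A s := by
  simp only [cA, mem_ofPred_eq]
  tauto

lemma cT_sub : cT R X T P ⊆ T := fun _ h => h.1

lemma cX_sub : cX X P ⊆ X := fun _ h => h.1

lemma cT_R {s y : α} (hs : s ∈ cT R X T P) (hy : y ∈ X) (hyP : y ∉ P) : y ∈ R s := hs.2 y hy hyP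

/-- an element of `T` which is not in the child crosses `P` -/
lemma cross_of {s : α} (hs : s ∈ T) (h : s ∉ cT R X T P) : ∃ y ∈ X, y ∉ P ∧ y ∉ R s := by
  by_contra hcon
  push Not at hcon
  exact h ⟨hs, hcon⟩

lemma ExC.up {X' T' : Set α} (h : ExC E Dg X' T' d) (hX : X' ⊆ X) (hd : d ∉ T) : ExC E Dg X T d := by
  obtain ⟨h1, -, x, hx, y, hy, h3⟩ := h
  exact ⟨h1, hd, x, hX hx, y, hX hy, h3⟩

/-- two classes on a subset -/
lemma PWitB.two (h : PWitB E L R A X T d) {X' : Set α} (hX : X' ⊆ X)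
    (hd : ∃ x ∈ X', ∃ y ∈ X', ¬ E d x y) : (∃ x ∈ X', x ∈ A d) ∧ ∃ y ∈ X', y ∉ A d := by
  obtain ⟨x, hx, y, hy, h3⟩ := hd
  rw [h.one (hX hx) (hX hy)] at h3
  by_cases h4 : x ∈ A d
  · exact ⟨⟨x, hx, h4⟩, y, hy, fun h5 => h3 ⟨fun _ => h5, fun _ => h4⟩⟩
  · refine ⟨⟨y, hy, ?_⟩, x, hx, h4⟩
    by_contra h5
    exact h3 ⟨fun h => absurd h h4, fun h => absurd h h5⟩

/-- **(S) for the left child.** -/
theorem CellS.left {z : α} (hS : CellS E L R A Dg X T) (hz : PWitB E L R A X T z) :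
    CellS E L R (cA L A T) Dg (cX X (A z)) (cT R X T (A z)) := by
  intro d hd
  by_cases hdT : d ∈ T
  · obtain ⟨y, hy, hyA, hyR⟩ := cross_of hdT hd.2.1
    exact hz.newL cT_sub (fun s hs y hy hyP => cT_R hs hy hyP) hy hyA hdT hyR
      (fun x _ _ => mem_cA_T hdT)
  · exact (hS d (hd.up cX_sub hdT)).old cX_sub cT_sub (fun x _ => mem_cA_n hdT)

/-- a place which sees the left child is inside of `P` -/
lemma PWitD.sub_of {z₀ : α} (h : PWitD E L R A X T z₀ d)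
    (hd : ∃ x ∈ cX X (A z₀), ∃ y ∈ cX X (A z₀), ¬ E d x y) : ∀ x ∈ X, x ∈ A d → x ∈ A z₀ := by
  obtain ⟨⟨-, -⟩, y, hy, hyd⟩ := h.right.two cX_sub hd
  rcases h.chain with h1 | h1
  · exact absurd (h1 y hy.1 hy.2) hyd
  · exact h1

/-- the pair of an old exit and a link -/
lemma PWitD.linkC {z₀ : α} (h : PWitD E L R A X T z₀ d) (hdT : d ∉ T)
    (hd : ∃ x ∈ cX X (A z₀), ∃ y ∈ cX X (A z₀), ¬ E d x y) (he : e ∈ T)
    (hen : e ∉ cT R X T (A z₀)) :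
    PWitD E L R (cA L A T) (cX X (A z₀)) (cT R X T (A z₀)) e d := by
  obtain ⟨y, hy, hyA, hyR⟩ := cross_of he hen
  exact (h.linkL cT_sub (fun s hs y hy hyP => cT_R hs hy hyP) hy hyA
    (fun h1 => hyA (h.sub_of hd y hy h1)) he hyR (fun x _ _ => mem_cA_n hdT)
    (fun x _ _ => mem_cA_T he)).symm

/-- nested walls: the child at the smaller wall, links through the larger wall -/
lemma PWitD.linkG {z₀ z₁ : α} (h : PWitD E L R A X T z₁ d)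
    (inc : ∀ a ∈ X, a ∈ A z₀ → a ∈ A z₁) (hdT : d ∉ T)
    (hd : ∃ x ∈ cX X (A z₀), ∃ y ∈ cX X (A z₀), ¬ E d x y) (he : e ∈ T)
    (hen : ∃ y ∈ X, y ∉ A z₁ ∧ y ∉ R e) :
    PWitD E L R (cA L A T) (cX X (A z₀)) (cT R X T (A z₀)) e d := by
  have h4 := h.linkC hdT (by
    obtain ⟨u, hu, v, hv, h5⟩ := hd
    exact ⟨u, ⟨hu.1, inc u hu.1 hu.2⟩, v, ⟨hv.1, inc v hv.1 hv.2⟩, h5⟩) he (by
    obtain ⟨y, hy, hyA, hyR⟩ := hen
    exact fun h1 => hyR (h1.2 y hy hyA))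
  exact h4.old (fun u hu => ⟨hu.1, inc u hu.1 hu.2⟩)
    (fun s hs => ⟨hs.1, fun y hy hyA => hs.2 y hy fun h5 => hyA (inc y hy h5)⟩)
    (fun _ _ => Iff.rfl) (fun _ _ => Iff.rfl)

/-- **(D) DESCENT to the left child** at the wall `z₀`: old exits of `Q` and all links. -/
theorem Fr.left [Nonempty ι] {z₀ : α} (hf : Fr E L R A Dg X T Mb Q W f) (hW : W' ⊆ W)
    (hz : ∀ x ∈ W', ExC E Dg X T (f x) → PWitD E L R A X T z₀ (f x)) :
    Fr E L R (cA L A T) Dg (cX X (A z₀)) (cT R X T (A z₀)) Mb (Q ∪ T) W' f := by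
  have key : ∀ e, ExC E Dg (cX X (A z₀)) (cT R X T (A z₀)) e → ∀ x ∈ W',
      ExC E Dg (cX X (A z₀)) (cT R X T (A z₀)) (f x) →
      (e ∉ T → PWitD E L R A X T e (f x)) →
      PWitD E L R (cA L A T) (cX X (A z₀)) (cT R X T (A z₀)) e (f x) := by
    intro e he x hx hfx h1
    have hfT := (hf.mem x (hW hx)).2.1
    by_cases heT : e ∈ T
    · exact (hz x hx (hfx.up cX_sub hfT)).linkC hfT hfx.2.2 heT he.2.1
    · exact (h1 heT).old cX_sub cT_sub (fun x _ => mem_cA_n heT) (fun x _ => mem_cA_n hfT)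
  refine ⟨fun x hx => ?_, fun e heQ he => ?_, fun y hy e hey heQ he x hx hxy hfx => ?_⟩
  · obtain ⟨h1, h2, h3⟩ := hf.mem x (hW hx)
    exact ⟨h1, fun h => h2 h.1, h3⟩
  · by_cases heT : e ∈ T
    · obtain ⟨b⟩ := ‹Nonempty ι›
      exact ⟨b, fun x hx _ hfx => key e he x hx hfx (fun h => absurd heT h)⟩
    · obtain ⟨b, hb⟩ := hf.w2 e (heQ.resolve_right heT) (he.up cX_sub heT)
      exact ⟨b, fun x hx hxb hfx => key e he x hx hfx
        fun _ => hb x (hW hx) hxb (hfx.up cX_sub (hf.mem x (hW hx)).2.1)⟩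
  · exact key e he x hx hfx fun heT => hf.w2f y (hW hy) e hey (heQ.resolve_right heT)
      (he.up cX_sub heT) x (hW hx) hxy (hfx.up cX_sub (hf.mem x (hW hx)).2.1)

/-- a free family `f` descends at a wall `z r` of another family -/
theorem Fr.leftF [Nonempty ι] (hf : Fr E L R A Dg X T Mb Q W f) {z₀ : α} {r : ι} (hr : r ∈ W) (hzM : z₀ ∈ Mb r)
    (hzQ : z₀ ∈ Q) (hz₀ : ExC E Dg X T z₀) (hW : W' ⊆ W) (hrW : r ∉ W') :
    Fr E L R (cA L A T) Dg (cX X (A z₀)) (cT R X T (A z₀)) Mb (Q ∪ T) W' f :=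
  hf.left hW fun x hx hfx => hf.w2f r hr z₀ hzM hzQ hz₀ x (hW hx) (fun h => hrW (h ▸ hx)) hfx

/-! ### The same-row step -/

/-- the classes of the left end -/
lemma PWitB.lcls {z₀ x y s : α} (h : PWitB E L R A X T z₀) (hs : s ∈ T) (hx : x ∈ X) (hy : y ∈ X)
    (h1 : x ∈ L s) (h2 : y ∈ L s) : E s x y := by
  obtain ⟨N, p, q, hS, hr⟩ := h
  rw [← hr.rE s (Or.inl hs) x hx y hy]
  exact ((hr.rL s hs x hx).2 h1).symm.trans hS.cir (Or.inl rfl) ((hr.rL s hs y hy).2 h2)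

/-- the classes of the right end -/
lemma PWitB.rcls {z₀ x y s : α} (h : PWitB E L R A X T z₀) (hs : s ∈ T) (hx : x ∈ X) (hy : y ∈ X)
    (h1 : x ∈ R s) (h2 : y ∈ R s) : E s x y := by
  obtain ⟨N, p, q, hS, hr⟩ := h
  rw [← hr.rE s (Or.inl hs) x hx y hy]
  exact ((hr.rR s hs x hx).2 h1).symm.trans hS.cir (Or.inr (Or.inl rfl)) ((hr.rR s hs y hy).2 h2)

lemma PWitB.rcls' {z₀ x y s : α} (h : PWitB E L R A X T z₀) (hs : s ∈ T) (hx : x ∈ X) (hy : y ∈ X)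
    (h1 : x ∈ R s) (h2 : y ∉ R s) : ¬ E s x y := by
  obtain ⟨N, p, q, hS, hr⟩ := h
  rw [← hr.rE s (Or.inl hs) x hx y hy]
  intro h3
  exact h2 ((hr.rR s hs y hy).1 (((hr.rR s hs x hx).2 h1).trans hS.cir (Or.inr (Or.inr hx)) h3))

/-- an element of `T` which is not constant on `X'` leaves the class of the left end there -/
lemma PWitB.exL {z₀ s : α} {X' : Set α} (h : PWitB E L R A X T z₀) (hs : s ∈ T) (hX : X' ⊆ X)
    (hd : ∃ x ∈ X', ∃ y ∈ X', ¬ E s x y) : ∃ a ∈ X', a ∉ L s := by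
  by_contra hcon
  push Not at hcon
  obtain ⟨x, hx, y, hy, h1⟩ := hd
  exact h1 (h.lcls hs (hX hx) (hX hy) (hcon x hx) (hcon y hy))

/-- two elements behind the place of `z₀` in no class of the right end -/
lemma PWitB.mid {z₀ s a y u v : α} (h : PWitB E L R A X T z₀) (hs : s ∈ T) (ha : a ∈ X)
    (haA : a ∈ A z₀) (haL : a ∉ L s) (hy : y ∈ X) (hyA : y ∉ A z₀) (hyR : y ∉ R s)
    (hu : u ∈ X) (huA : u ∉ A z₀) (huR : u ∉ R s) (hv : v ∈ X) (hvA : v ∉ A z₀) (hvR : v ∉ R s) :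
    E s u v := by
  rcases h.link hs ha haA haL hy hyA hyR with ⟨k1, k2, k3⟩ | k
  · rw [k1.cls u hu v hv]
    exact ⟨⟨fun h1 => absurd (k2 u hu h1) huA, fun h1 => absurd (k2 v hv h1) hvA⟩,
      ⟨fun h1 => absurd h1 huR, fun h1 => absurd h1 hvR⟩⟩
  · rw [k.cls u hu v hv]
    exact ⟨fun h1 => absurd ((k.bal u hu).1 h1) huR, fun h1 => absurd ((k.bal v hv).1 h1) hvR⟩

/-- **(SUB2) for two links with different places behind `z₁`.** -/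
theorem PWitD.links {z₀ z₁ s s' k x' : α} (h : PWitD E L R A X T z₀ z₁)
    (inc : ∀ a ∈ X, a ∈ A z₀ → a ∈ A z₁) (hk : k ∈ X) (hk0 : k ∉ A z₀) (hk1 : k ∈ A z₁)
    (hs : s ∈ T) (hsn : s ∉ cT R X T (A z₀))
    (hsX : ∃ x ∈ cX X (A z₀), ∃ y ∈ cX X (A z₀), ¬ E s x y)
    (hs' : s' ∈ T) (hsn' : ∃ y ∈ X, y ∉ A z₁ ∧ y ∉ R s')
    (hsX' : ∃ x ∈ cX X (A z₀), ∃ y ∈ cX X (A z₀), ¬ E s' x y)
    (hx : x' ∈ X) (hx1 : x' ∉ A z₁) (hd : ¬ (x' ∈ R s ↔ x' ∈ R s')) :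
    PWitD E L R (cA L A T) (cX X (A z₀)) (cT R X T (A z₀)) s s' := by
  obtain ⟨y, hy, hyA, hyR⟩ := cross_of hs hsn
  obtain ⟨y', hy', hyA', hyR'⟩ := hsn'
  obtain ⟨a, ha, haL⟩ := h.left.exL hs cX_sub hsX
  obtain ⟨a', ha', haL'⟩ := h.left.exL hs' cX_sub hsX'
  have hx0 : x' ∉ A z₀ := fun h1 => hx1 (inc x' hx h1)
  have y0' : y' ∉ A z₀ := fun h1 => hyA' (inc y' hy' h1)
  -- the middle of `s'`
  have m' : ∀ u ∈ X, u ∉ A z₀ → u ∈ A z₁ → u ∉ R s' := fun u hu h0 h1 =>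
    (h.zig hs' ha'.1 ha'.2 haL' hu h0 h1 hy' hyA' hyR').2
  by_cases hxs : x' ∈ R s'
  · have hxs2 : x' ∉ R s := fun h1 => hd ⟨fun _ => hxs, fun _ => h1⟩
    have m : k ∉ R s := (h.zig hs ha.1 ha.2 haL hk hk0 hk1 hx hx1 hxs2).2
    have e1 : E s k x' := h.left.mid hs ha.1 ha.2 haL hy hyA hyR hk hk0 m hx hx0 hxs2
    have e2 : ¬ E s' k x' := by
      intro h1
      obtain ⟨N, p, q, hS, hS', hne, hpp, hr⟩ := h
      have h2 := (hr.rE s' (Or.inl hs') k hk x' hx).2 h1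
      have h3 := (hr.rR s' hs' x' hx).2 hxs
      exact m' k hk hk0 hk1 ((hr.rR s' hs' k hk).1 (h3.trans hS.cir (Or.inr (Or.inr hx)) h2.symm))
    exact (h.newL inc cT_sub (fun s hs y hy hyP => cT_R hs hy hyP) hk hk0 hk1 hx hx1 hs' hs e1 e2
      hxs hxs2 (fun x _ _ => mem_cA_T hs') (fun x _ _ => mem_cA_T hs)).symm
  · have hxs2 : x' ∈ R s := by
      by_contra h1
      exact hd ⟨fun h2 => absurd h2 h1, fun h2 => absurd h2 hxs⟩
    have hc : ∃ c ∈ X, c ∉ A z₀ ∧ c ∈ A z₁ ∧ c ∉ R s := by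
      by_cases hcr : ∃ y ∈ X, y ∉ A z₁ ∧ y ∉ R s
      · obtain ⟨w, hw, hwA, hwR⟩ := hcr
        exact ⟨k, hk, hk0, hk1, (h.zig hs ha.1 ha.2 haL hk hk0 hk1 hw hwA hwR).2⟩
      · push Not at hcr
        refine ⟨y, hy, hyA, ?_, hyR⟩
        by_contra h1
        exact hyR (hcr y hy h1)
    obtain ⟨c, hc, hc0, hc1, hcR⟩ := hc
    have e1 : E s' c x' := h.left.mid hs' ha'.1 ha'.2 haL' hy' y0' hyR' hc hc0 (m' c hc hc0 hc1) hx
      hx0 hxs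
    have e2 : ¬ E s c x' := by
      intro h1
      obtain ⟨N, p, q, hS, hS', hne, hpp, hr⟩ := h
      have h2 := (hr.rE s (Or.inl hs) c hc x' hx).2 h1
      have h3 := (hr.rR s hs x' hx).2 hxs2
      exact hcR ((hr.rR s hs c hc).1 (h3.trans hS.cir (Or.inr (Or.inr hx)) h2.symm))
    exact h.newL inc cT_sub (fun s hs y hy hyP => cT_R hs hy hyP) hc hc0 hc1 hx hx1 hs hs' e1 e2
      hxs2 hxs (fun x _ _ => mem_cA_T hs) (fun x _ _ => mem_cA_T hs')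

/-- **SAME-ROW STEP**: a family `t x` of links through two walls `z₀`, `z₁` has pair witnesses on the
left child with all links and with the old exits which have a pair witness with one of the walls. -/
theorem Fr.same [Nonempty ι] {z₀ z₁ : α} (hz : PWitD E L R A X T z₀ z₁)
    (inc : ∀ a ∈ X, a ∈ A z₀ → a ∈ A z₁) (hk : ∃ k ∈ X, k ∉ A z₀ ∧ k ∈ A z₁)
    (hQ : ∀ e ∈ Q, ExC E Dg X T e → PWitD E L R A X T z₀ e ∨ PWitD E L R A X T z₁ e)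
    (ht : ∀ x ∈ W', t x ∈ Dg ∧ t x ∈ T ∧ t x ∈ Mb x)
    (hcr : ∀ x ∈ W', ∃ y ∈ X, y ∉ A z₁ ∧ y ∉ R (t x))
    (dif : ∀ x ∈ W', ExC E Dg (cX X (A z₀)) (cT R X T (A z₀)) (t x) → ∀ y ∈ W', x ≠ y →
      ∀ e ∈ T, (∀ a ∈ X, a ∉ A z₁ → (a ∈ R e ↔ a ∈ R (t y))) →
      ∃ a ∈ X, a ∉ A z₁ ∧ ¬ (a ∈ R e ↔ a ∈ R (t x)))
    (difM : ∀ y ∈ W', ∀ e ∈ Mb y, e ∈ T →
      ExC E Dg (cX X (A z₀)) (cT R X T (A z₀)) e → ∀ x ∈ W', x ≠ y →
      ExC E Dg (cX X (A z₀)) (cT R X T (A z₀)) (t x) →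
      ∃ a ∈ X, a ∉ A z₁ ∧ ¬ (a ∈ R e ↔ a ∈ R (t x))) :
    Fr E L R (cA L A T) Dg (cX X (A z₀)) (cT R X T (A z₀)) Mb (Q ∪ T) W' t := by
  classical
  obtain ⟨b₀⟩ := ‹Nonempty ι›
  obtain ⟨k, hk, hk0, hk1⟩ := hk
  have hcr0 : ∀ x ∈ W', ∃ y ∈ X, y ∉ A z₀ ∧ y ∉ R (t x) := by
    intro x hx
    obtain ⟨y, hy, hyA, hyR⟩ := hcr x hx
    exact ⟨y, hy, fun h2 => hyA (inc y hy h2), hyR⟩
  have hcrr : ∀ x ∈ W', t x ∉ cT R X T (A z₀) := by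
    intro x hx h1
    obtain ⟨y, hy, hyA, hyR⟩ := hcr0 x hx
    exact hyR (h1.2 y hy hyA)
  -- old exits
  have old : ∀ e ∈ Q, ExC E Dg (cX X (A z₀)) (cT R X T (A z₀)) e → e ∉ T → ∀ x ∈ W',
      PWitD E L R (cA L A T) (cX X (A z₀)) (cT R X T (A z₀)) e (t x) := by
    intro e heQ he heT x hx
    rcases hQ e heQ (he.up cX_sub heT) with h3 | h3
    · exact (h3.linkG (fun _ _ h => h) heT he.2.2 (ht x hx).2.1 (hcr0 x hx)).symm
    · exact (h3.linkG inc heT he.2.2 (ht x hx).2.1 (hcr x hx)).symm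
  -- two links
  have lnk : ∀ e, ExC E Dg (cX X (A z₀)) (cT R X T (A z₀)) e → e ∈ T → ∀ x ∈ W',
      ExC E Dg (cX X (A z₀)) (cT R X T (A z₀)) (t x) →
      (∃ a ∈ X, a ∉ A z₁ ∧ ¬ (a ∈ R e ↔ a ∈ R (t x))) →
      PWitD E L R (cA L A T) (cX X (A z₀)) (cT R X T (A z₀)) e (t x) := by
    rintro e he heT x hx htx ⟨a, ha, haA, had⟩
    exact hz.links inc hk hk0 hk1 heT he.2.1 he.2.2 (ht x hx).2.1 (hcr x hx) htx.2.2 ha haA had
  refine ⟨fun x hx => ⟨(ht x hx).1, hcrr x hx, (ht x hx).2.2⟩, fun e heQ he => ?_, ?_⟩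
  · by_cases heT : e ∈ T
    · by_cases hb : ∃ b ∈ W', ∀ a ∈ X, a ∉ A z₁ → (a ∈ R e ↔ a ∈ R (t b))
      · obtain ⟨b, hb, hb2⟩ := hb
        exact ⟨b, fun x hx hxb htx => lnk e he heT x hx htx (dif x hx htx b hb hxb e heT hb2)⟩
      · refine ⟨b₀, fun x hx _ htx => lnk e he heT x hx htx ?_⟩
        by_contra hcon
        push Not at hcon
        exact hb ⟨x, hx, hcon⟩
    · exact ⟨b₀, fun x hx _ _ => old e (heQ.resolve_right heT) he heT x hx⟩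
  · intro y hy e hey heQ he x hx hxy htx
    by_cases heT : e ∈ T
    · exact lnk e he heT x hx htx (difM y hy e hey heT he x hx hxy htx)
    · exact old e (heQ.resolve_right heT) he heT x hx

/-! ### Mirror images -/

/-- exchange of the ends -/
lemma CellS.swap (h : CellS E L R A Dg X T) : CellS E R L (fun s => (A s)ᶜ) Dg X T :=
  fun d hd => (h d hd).swap hd.2.2 (fun _ _ => Iff.rfl)

lemma Fr.swap (h : Fr E L R A Dg X T Mb Q W f) : Fr E R L (fun s => (A s)ᶜ) Dg X T Mb Q W f := by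
  refine ⟨h.mem, fun e heQ he => ?_, fun y hy e hey heQ he x hx hxy hfx => ?_⟩
  · obtain ⟨b, hb⟩ := h.w2 e heQ he
    exact ⟨b, fun x hx hxb hfx => (hb x hx hxb hfx).swap he.2.2 hfx.2.2 (fun _ _ => Iff.rfl)
      (fun _ _ => Iff.rfl)⟩
  · exact (h.w2f y hy e hey heQ he x hx hxy hfx).swap he.2.2 hfx.2.2 (fun _ _ => Iff.rfl)
      (fun _ _ => Iff.rfl)

lemma CellS.congr (h : CellS E L R A Dg X T)
    (hA : ∀ d, ExC E Dg X T d → ∀ x ∈ X, (x ∈ A' d ↔ x ∈ A d)) : CellS E L R A' Dg X T :=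
  fun d hd => (h d hd).congrA (hA d hd)

lemma Fr.congr (h : Fr E L R A Dg X T Mb Q W f)
    (hA : ∀ d, ExC E Dg X T d → ∀ x ∈ X, (x ∈ A' d ↔ x ∈ A d)) :
    Fr E L R A' Dg X T Mb Q W f := by
  refine ⟨h.mem, fun e heQ he => ?_, fun y hy e hey heQ he x hx hxy hfx => ?_⟩
  · obtain ⟨b, hb⟩ := h.w2 e heQ he
    exact ⟨b, fun x hx hxb hfx => (hb x hx hxb hfx).congrA (hA e he) (hA _ hfx)⟩
  · exact (h.w2f y hy e hey heQ he x hx hxy hfx).congrA (hA e he) (hA _ hfx)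

/-- fewer windows, fewer exits -/
lemma Fr.mono (h : Fr E L R A Dg X T Mb Q W f) (hW : W' ⊆ W) (hQ : Q' ⊆ Q) :
    Fr E L R A Dg X T Mb Q' W' f :=
  ⟨fun x hx => h.mem x (hW hx),
    fun e heQ he => (h.w2 e (hQ heQ) he).imp fun _ hb x hx => hb x (hW hx),
    fun y hy e hey heQ he x hx => h.w2f y (hW hy) e hey (hQ heQ) he x (hW hx)⟩

/-- the places of the right child -/
def cB (R A : α → Set α) (T : Set α) : α → Set α := fun s => (cA R (fun s => (A s)ᶜ) T s)ᶜ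

lemma mem_cB_T {s x : α} (hs : s ∈ T) : x ∈ cB R A T s ↔ x ∉ R s := by
  unfold cB
  rw [mem_compl_iff, mem_cA_T hs]

lemma mem_cB_n {s x : α} (hs : s ∉ T) : x ∈ cB R A T s ↔ x ∈ A s := by
  unfold cB
  rw [mem_compl_iff, mem_cA_n hs, mem_compl_iff, not_not]

/-- **(S) for the right child.** -/
theorem CellS.right {z : α} (hS : CellS E L R A Dg X T) (hz : PWitB E L R A X T z)
    (hzx : ∃ x ∈ X, ∃ y ∈ X, ¬ E z x y) :
    CellS E L R (cB R A T) Dg (cX X (A z)ᶜ) (cT L X T (A z)ᶜ) :=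
  ((hS.swap).left (hz.swap (A' := fun s => (A s)ᶜ) hzx (fun _ _ => Iff.rfl))).swap

/-- **(D) DESCENT to the right child.** -/
theorem Fr.right [Nonempty ι] {z₀ : α} (hf : Fr E L R A Dg X T Mb Q W f) (hW : W' ⊆ W)
    (hz₀ : ∃ x ∈ X, ∃ y ∈ X, ¬ E z₀ x y)
    (hz : ∀ x ∈ W', ExC E Dg X T (f x) → PWitD E L R A X T z₀ (f x)) :
    Fr E L R (cB R A T) Dg (cX X (A z₀)ᶜ) (cT L X T (A z₀)ᶜ) Mb (Q ∪ T) W' f :=
  (hf.swap.left (z₀ := z₀) hW fun x hx hfx => (hz x hx hfx).swap hz₀ hfx.2.2 (fun _ _ => Iff.rfl)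
    (fun _ _ => Iff.rfl)).swap

theorem Fr.rightF [Nonempty ι] (hf : Fr E L R A Dg X T Mb Q W f) {z₀ : α} {r : ι} (hr : r ∈ W)
    (hzM : z₀ ∈ Mb r) (hzQ : z₀ ∈ Q) (hz₀ : ExC E Dg X T z₀) (hW : W' ⊆ W) (hrW : r ∉ W') :
    Fr E L R (cB R A T) Dg (cX X (A z₀)ᶜ) (cT L X T (A z₀)ᶜ) Mb (Q ∪ T) W' f :=
  hf.right hW hz₀.2.2
    fun x hx hfx => hf.w2f r hr z₀ hzM hzQ hz₀ x (hW hx) (fun h => hrW (h ▸ hx)) hfx

/-! ### Sandwich -/

/-- an exit which separates two elements behind the wall `z` contains the wall -/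
lemma PWitD.sand_lo {z a a' : α} (h : PWitD E L R A X T z e) (ha : a ∈ X) (ha' : a' ∈ X)
    (hE : ¬ E e a a') (h1 : a ∉ A z) (h2 : a' ∉ A z) : ∀ x ∈ X, x ∈ A z → x ∈ A e := by
  rw [h.right.one ha ha'] at hE
  rcases h.chain with h3 | h3
  · exact h3
  · by_cases h4 : a ∈ A e
    · exact absurd (h3 a ha h4) h1
    · refine absurd (h3 a' ha' ?_) h2
      by_contra h5
      exact hE ⟨fun h => absurd h h4, fun h => absurd h h5⟩

/-- an exit which separates two elements before the wall `z` is contained in the wall -/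
lemma PWitD.sand_hi {z a a' : α} (h : PWitD E L R A X T z e) (ha : a ∈ X) (ha' : a' ∈ X)
    (hE : ¬ E e a a') (h1 : a ∈ A z) (h2 : a' ∈ A z) : ∀ x ∈ X, x ∈ A e → x ∈ A z := by
  rw [h.right.one ha ha'] at hE
  rcases h.chain with h3 | h3
  · by_cases h4 : a ∈ A e
    · exact absurd ⟨fun _ => h3 a' ha' h2, fun _ => h4⟩ hE
    · exact absurd (h3 a ha h1) h4
  · exact h3

/-- the right place of a link through `z₀` contains every wall which it crosses -/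
lemma PWitD.rplace_lo {z₀ z₁ s a y : α} (h : PWitD E L R A X T z₀ z₁) (hs : s ∈ T) (ha : a ∈ X)
    (haA : a ∈ A z₀) (haL : a ∉ L s) (hy : y ∈ X) (hyA : y ∉ A z₁) (hyR : y ∉ R s) :
    ∀ x ∈ X, x ∈ A z₁ → x ∈ A z₀ ∨ x ∉ R s := by
  intro x hx hx1
  by_cases hx0 : x ∈ A z₀
  · exact Or.inl hx0
  · exact Or.inr (h.zig hs ha haA haL hx hx0 hx1 hy hyA hyR).2

/-- it is contained in every wall which it does not cross -/
lemma rplace_hi {z₀ z₁ s : α} (inc : ∀ a ∈ X, a ∈ A z₀ → a ∈ A z₁)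
    (h : ¬ ∃ y ∈ X, y ∉ A z₁ ∧ y ∉ R s) : ∀ x ∈ X, (x ∈ A z₀ ∨ x ∉ R s) → x ∈ A z₁ := by
  rintro x hx (hx0 | hx0)
  · exact inc x hx hx0
  · by_contra h1
    exact h ⟨x, hx, h1, hx0⟩

/-- a link through `z₀` with the places `L s` (before `z₀`) and `R s` (behind `z₀`): two elements
before the wall -/
lemma PWitB.link_lo {z₀ s a y u v : α} (h : PWitB E L R A X T z₀) (hs : s ∈ T) (ha : a ∈ X)
    (haA : a ∈ A z₀) (haL : a ∉ L s) (hy : y ∈ X) (hyA : y ∉ A z₀) (hyR : y ∉ R s)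
    (hu : u ∈ X) (huA : u ∈ A z₀) (hv : v ∈ X) (hvA : v ∈ A z₀) :
    E s u v ↔ (u ∈ L s ↔ v ∈ L s) := by
  rcases h.link hs ha haA haL hy hyA hyR with ⟨k1, k2, k3⟩ | k
  · rw [k1.cls u hu v hv]
    exact ⟨fun h1 => h1.1, fun h1 => ⟨h1, ⟨fun h2 => absurd huA (k3 u hu h2),
      fun h2 => absurd hvA (k3 v hv h2)⟩⟩⟩
  · exact k.cls u hu v hv

/-- two elements behind the wall -/
lemma PWitB.link_hi {z₀ s a y u v : α} (h : PWitB E L R A X T z₀) (hs : s ∈ T) (ha : a ∈ X)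
    (haA : a ∈ A z₀) (haL : a ∉ L s) (hy : y ∈ X) (hyA : y ∉ A z₀) (hyR : y ∉ R s)
    (hu : u ∈ X) (huA : u ∉ A z₀) (hv : v ∈ X) (hvA : v ∉ A z₀) :
    E s u v ↔ (u ∈ R s ↔ v ∈ R s) := by
  rcases h.link hs ha haA haL hy hyA hyR with ⟨k1, k2, k3⟩ | k
  · rw [k1.cls u hu v hv]
    exact ⟨fun h1 => h1.2, fun h1 => ⟨⟨fun h2 => absurd (k2 u hu h2) huA,
      fun h2 => absurd (k2 v hv h2) hvA⟩, h1⟩⟩
  · rw [k.cls u hu v hv, k.bal u hu, k.bal v hv]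

/-- one element before the wall, one behind it -/
lemma PWitB.link_mid {z₀ s a y u v : α} (h : PWitB E L R A X T z₀) (hs : s ∈ T) (ha : a ∈ X)
    (haA : a ∈ A z₀) (haL : a ∉ L s) (hy : y ∈ X) (hyA : y ∉ A z₀) (hyR : y ∉ R s)
    (hu : u ∈ X) (huA : u ∈ A z₀) (huL : u ∉ L s) (hv : v ∈ X) (hvA : v ∉ A z₀) :
    E s u v ↔ v ∉ R s := by
  rcases h.link hs ha haA haL hy hyA hyR with ⟨k1, k2, k3⟩ | k
  · rw [k1.cls u hu v hv]
    refine ⟨fun h1 h2 => k3 u hu (h1.2.2 h2) huA, fun h1 => ⟨⟨fun h2 => absurd h2 huL,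
      fun h2 => absurd (k2 v hv h2) hvA⟩, ⟨fun h2 => absurd huA (k3 u hu h2),
      fun h2 => absurd h2 h1⟩⟩⟩
  · rw [k.cls u hu v hv, k.bal v hv]
    exact ⟨fun h1 h2 => huL (h1.2 h2), fun h1 => ⟨fun h2 => absurd h2 huL,
      fun h2 => absurd h2 h1⟩⟩

/-- **SAME-ROW STEP**, left child: the family is separated from itself behind `z₁` by its classes. -/
theorem Fr.sameL [Nonempty ι] {z₀ z₁ : α} (hz : PWitD E L R A X T z₀ z₁)
    (inc : ∀ a ∈ X, a ∈ A z₀ → a ∈ A z₁) (hk : ∃ k ∈ X, k ∉ A z₀ ∧ k ∈ A z₁)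
    (hQ : ∀ e ∈ Q, ExC E Dg X T e → PWitD E L R A X T z₀ e ∨ PWitD E L R A X T z₁ e)
    (ht : ∀ x ∈ W', t x ∈ Dg ∧ t x ∈ T ∧ t x ∈ Mb x)
    (h1 : ∀ x ∈ W', ∃ a ∈ X, ∃ a' ∈ X, a ∉ A z₁ ∧ a' ∉ A z₁ ∧ ¬ E (t x) a a')
    (h2 : ∀ x ∈ W', ∀ y ∈ W', x ≠ y → ∃ a ∈ X, ∃ a' ∈ X, a ∉ A z₁ ∧ a' ∉ A z₁ ∧
      ¬ E (t x) a a' ∧ ∀ e ∈ Mb y, E e a a') :
    Fr E L R (cA L A T) Dg (cX X (A z₀)) (cT R X T (A z₀)) Mb (Q ∪ T) W' t := by
  have hcr : ∀ x ∈ W', ∃ y ∈ X, y ∉ A z₁ ∧ y ∉ R (t x) := by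
    intro x hx
    obtain ⟨a, ha, a', ha', haA, haA', hE⟩ := h1 x hx
    by_contra hcon
    push Not at hcon
    exact hE (hz.left.rcls (ht x hx).2.1 ha ha' (hcon a ha haA) (hcon a' ha' haA'))
  have sep : ∀ x ∈ W', ExC E Dg (cX X (A z₀)) (cT R X T (A z₀)) (t x) → ∀ a ∈ X, ∀ a' ∈ X,
      a ∉ A z₁ → a' ∉ A z₁ → ¬ E (t x) a a' → ¬ (a ∈ R (t x) ↔ a' ∈ R (t x)) := by
    intro x hx htx a ha a' ha' haA haA' hE h3
    obtain ⟨y, hy, hyA, hyR⟩ := hcr x hx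
    obtain ⟨u, hu, huL⟩ := hz.left.exL (ht x hx).2.1 cX_sub htx.2.2
    exact hE ((hz.left.link_hi (ht x hx).2.1 hu.1 hu.2 huL hy (fun h4 => hyA (inc y hy h4)) hyR
      ha (fun h4 => haA (inc a ha h4)) ha' (fun h4 => haA' (inc a' ha' h4))).2 h3)
  have same : ∀ e ∈ T, ∀ a ∈ X, ∀ a' ∈ X, E e a a' → (a ∈ R e ↔ a' ∈ R e) := by
    intro e he a ha a' ha' hE
    constructor
    · intro h3
      by_contra h4
      exact hz.left.rcls' he ha ha' h3 h4 hE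
    · intro h3
      by_contra h4
      obtain ⟨N, p, q, hS, hr⟩ := hz.left
      have h5 := (hr.rE e (Or.inl he) a ha a' ha').2 hE
      have h6 := (hr.rR e he a' ha').2 h3
      exact h4 ((hr.rR e he a ha).1 (h6.trans hS.cir (Or.inr (Or.inr ha')) h5.symm))
  have fin : ∀ x ∈ W', ExC E Dg (cX X (A z₀)) (cT R X T (A z₀)) (t x) → ∀ e,
      ∀ a ∈ X, ∀ a' ∈ X, a ∉ A z₁ → a' ∉ A z₁ → ¬ E (t x) a a' → (a ∈ R e ↔ a' ∈ R e) →
      ∃ a ∈ X, a ∉ A z₁ ∧ ¬ (a ∈ R e ↔ a ∈ R (t x)) := by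
    intro x hx htx e a ha a' ha' haA haA' hE h3
    have h4 := sep x hx htx a ha a' ha' haA haA' hE
    by_cases h5 : (a ∈ R e ↔ a ∈ R (t x))
    · exact ⟨a', ha', haA', fun h6 => h4 (h5.symm.trans (h3.trans h6))⟩
    · exact ⟨a, ha, haA, h5⟩
  refine Fr.same hz inc hk hQ ht hcr ?_ ?_
  · intro x hx htx y hy hxy e he heq
    obtain ⟨a, ha, a', ha', haA, haA', hE, hM⟩ := h2 x hx y hy hxy
    refine fin x hx htx e a ha a' ha' haA haA' hE ?_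
    rw [heq a ha haA, heq a' ha' haA']
    exact same _ (ht y hy).2.1 a ha a' ha' (hM _ (ht y hy).2.2)
  · intro y hy e hey heT he x hx hxy htx
    obtain ⟨a, ha, a', ha', haA, haA', hE, hM⟩ := h2 x hx y hy hxy
    exact fin x hx htx e a ha a' ha' haA haA' hE (same e heT a ha a' ha' (hM e hey))

/-- **SAME-ROW STEP**, right child. -/
theorem Fr.sameR [Nonempty ι] {z₀ z₁ : α} (hz : PWitD E L R A X T z₀ z₁)
    (hz0 : ∃ x ∈ X, ∃ y ∈ X, ¬ E z₀ x y) (hz1 : ∃ x ∈ X, ∃ y ∈ X, ¬ E z₁ x y)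
    (inc : ∀ a ∈ X, a ∈ A z₁ → a ∈ A z₀) (hk : ∃ k ∈ X, k ∈ A z₀ ∧ k ∉ A z₁)
    (hQ : ∀ e ∈ Q, ExC E Dg X T e → PWitD E L R A X T z₀ e ∨ PWitD E L R A X T z₁ e)
    (ht : ∀ x ∈ W', t x ∈ Dg ∧ t x ∈ T ∧ t x ∈ Mb x)
    (h1 : ∀ x ∈ W', ∃ a ∈ X, ∃ a' ∈ X, a ∈ A z₁ ∧ a' ∈ A z₁ ∧ ¬ E (t x) a a')
    (h2 : ∀ x ∈ W', ∀ y ∈ W', x ≠ y → ∃ a ∈ X, ∃ a' ∈ X, a ∈ A z₁ ∧ a' ∈ A z₁ ∧
      ¬ E (t x) a a' ∧ ∀ e ∈ Mb y, E e a a') :
    Fr E L R (cB R A T) Dg (cX X (A z₀)ᶜ) (cT L X T (A z₀)ᶜ) Mb (Q ∪ T) W' t := by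
  have hz' : PWitD E R L (fun s => (A s)ᶜ) X T z₀ z₁ :=
    hz.swap hz0 hz1 (fun _ _ => Iff.rfl) (fun _ _ => Iff.rfl)
  refine (Fr.sameL hz' ?_ ?_ ?_ ht ?_ ?_).swap
  · exact fun a ha h1 h2 => h1 (inc a ha h2)
  · obtain ⟨k, hk, h1, h2⟩ := hk
    exact ⟨k, hk, not_not.2 h1, h2⟩
  · intro e heQ he
    rcases hQ e heQ he with h1 | h1
    · exact Or.inl (h1.swap hz0 he.2.2 (fun _ _ => Iff.rfl) (fun _ _ => Iff.rfl))
    · exact Or.inr (h1.swap hz1 he.2.2 (fun _ _ => Iff.rfl) (fun _ _ => Iff.rfl))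
  · intro x hx
    obtain ⟨a, ha, a', ha', h3, h4, h5⟩ := h1 x hx
    exact ⟨a, ha, a', ha', not_not.2 h3, not_not.2 h4, h5⟩
  · intro x hx y hy hxy
    obtain ⟨a, ha, a', ha', h3, h4, h5⟩ := h2 x hx y hy hxy
    exact ⟨a, ha, a', ha', not_not.2 h3, not_not.2 h4, h5⟩

end

end TST
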