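import Pool.Agent.TST.LabDef3
import Pool.Agent.TST.LayRow

/-!
# The root cell of a row (label level of T-star, helper45)

The root cell `(rw r, Tr r)` of a visible row is a cell in the sense of `LayRow`, and a far family is
free on it.
-/

set_option autoImplicit false

open Set

namespace TST

universe u v w

/-- the good elements of the rows: rungs and same-row elements -/
def RowG {α : Type u} {β : Type v} {ν : Type w} (V : Set β) (Dg Fr : Set α) (Nr : ν → Set α)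
    (Tr : β → Set α) (D' : Set α) : Prop :=
  ∀ d ∈ D', d ∈ Dg ∧ (d ∈ Fr ∨ (∃ u, d ∈ Nr u) ∨ ∃ r ∈ V, d ∈ Tr r)

section

variable {α : Type u} {β : Type v} {ν : Type w} {rw : β → Set α} {V : Set β}
    {nd₁ nd₂ : β → ν} {S : α → α → α → Prop} {Dg Fa On Dt : Set α} {Nr : ν → Set α}
    {Tr : β → Set α} {Tu : ν → Set α} {Lv : ν → α → Set α} {Aw : β → α → Set α}
    {Au : ν → α → Fin 3 → Set α} {B : α → α → α → α → Prop} {lg : ν → Fin 3 → β}
    {oe : ν → Fin 3 → ν} {fr : α → Bool → β} {r₀ : α → β} {ct : α → ν} {D' : Set α} {r : β}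

/-- an exit of the root cell is a rung which sees the row -/
lemma LabFacts3.exC (h : LabFacts3 rw V nd₁ nd₂ S Dg Fa On Dt Nr Tr Tu Lv Aw Au B lg oe fr r₀ ct)
    (hD : RowG V Dg Fa Nr Tr D') (hr : r ∈ V) {d : α} (hd : ExC (ES S) D' (rw r) (Tr r) d) :
    (d ∈ Fa ∨ ∃ u, d ∈ Nr u) ∧ SeeR rw S d r := by
  obtain ⟨hdD, hdT, x, hx, y, hy, hE⟩ := hd
  have hS : SeeR rw S d r := by
    unfold ES at hE
    push Not at hE
    exact ⟨x, hx, y, hy, hE.1, hE.2⟩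
  refine ⟨?_, hS⟩
  rcases (hD d hdD).2 with h1 | h1 | ⟨r', hr', h1⟩
  · exact Or.inl h1
  · exact Or.inr h1
  · have h2 := h.same_see r' hr' d h1 r hr hS
    rw [← h2] at h1
    exact absurd h1 hdT

/-- **The root cell.** -/
theorem LabFacts3.cellS
    (h : LabFacts3 rw V nd₁ nd₂ S Dg Fa On Dt Nr Tr Tu Lv Aw Au B lg oe fr r₀ ct)
    (hD : RowG V Dg Fa Nr Tr D') (hr : r ∈ V) :
    CellS (ES S) (Lv (nd₁ r)) (Lv (nd₂ r)) (Aw r) D' (rw r) (Tr r) := by
  intro d hd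
  obtain ⟨h1, h2⟩ := h.exC hD hr hd
  exact h.wB r hr d h1 h2

/-- two rows which are seen by a far rung -/
lemma LabFacts3.far_two
    (h : LabFacts3 rw V nd₁ nd₂ S Dg Fa On Dt Nr Tr Tu Lv Aw Au B lg oe fr r₀ ct) {z : α}
    (hz : z ∈ Fa) (hr : r ∈ V) (hs : SeeR rw S z r) : ∃ i, fr z i = r := by
  obtain ⟨i, hi⟩ := h.far_see z hz r hr hs
  exact ⟨i, hi.symm⟩

/-- a far rung is not a near rung at an end of one of its rows -/
lemma LabFacts3.far_not_near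
    (h : LabFacts3 rw V nd₁ nd₂ S Dg Fa On Dt Nr Tr Tu Lv Aw Au B lg oe fr r₀ ct) {z : α}
    (hz : z ∈ Fa) (u : ν) : z ∉ Nr u := by
  intro hn
  have h0 := h.far_V z hz false
  have h1 := h.far_V z hz true
  exact h.far_dis z hz u (h.near_see u z hn _ h0.1 h0.2) (h.near_see u z hn _ h1.1 h1.2)

lemma LabFacts3.far_ne
    (h : LabFacts3 rw V nd₁ nd₂ S Dg Fa On Dt Nr Tr Tu Lv Aw Au B lg oe fr r₀ ct) {z : α}
    (hz : z ∈ Fa) {i j : Bool} (hij : fr z i = fr z j) : i = j := by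
  have h1 : At nd₁ nd₂ (fr z false) (nd₁ (fr z false)) := Or.inl rfl
  cases i <;> cases j
  · rfl
  · rw [hij] at h1
    exact absurd h1 (h.far_dis z hz _ (hij ▸ h1))
  · rw [← hij] at h1
    exact absurd h1 (h.far_dis z hz _ (hij.symm ▸ h1))
  · rfl

/-- **A far family is free on the root cell.**  `p x`, `q x` = two elements of the other row which are
separated by the member at the window `x` and by no member of another window. -/
theorem LabFacts3.farFr {ι : Type*} [Nonempty ι]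
    (h : LabFacts3 rw V nd₁ nd₂ S Dg Fa On Dt Nr Tr Tu Lv Aw Au B lg oe fr r₀ ct)
    (hD : RowG V Dg Fa Nr Tr D') (hr : r ∈ V) {r' : β} (hrr : r' ≠ r) {Mb : ι → Set α}
    {Q : Set α} {W : Set ι} {f : ι → α} {p q : ι → α}
    (hf : ∀ x ∈ W, f x ∈ D' ∧ f x ∈ Fa ∧ f x ∈ Mb x)
    (hs : ∀ x ∈ W, SeeR rw S (f x) r)
    (hp : ∀ x ∈ W, p x ∈ rw r') (hq : ∀ x ∈ W, q x ∈ rw r') (hr' : r' ∈ V)
    (hsep : ∀ x ∈ W, ¬ ES S (f x) (p x) (q x))
    (hM : ∀ y ∈ W, ∀ e ∈ Mb y, e ∈ Fa → ∀ x ∈ W, x ≠ y → ES S e (p x) (q x)) :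
    Fr (ES S) (Lv (nd₁ r)) (Lv (nd₂ r)) (Aw r) D' (rw r) (Tr r) Mb Q W f := by
  have hfT : ∀ x ∈ W, f x ∉ Tr r := by
    intro x hx h1
    refine hrr (h.same_see r hr (f x) h1 r' hr' ?_)
    have h2 := hsep x hx
    unfold ES at h2
    push Not at h2
    exact ⟨p x, hp x hx, q x, hq x hx, h2.1, h2.2⟩
  have hs' : ∀ x ∈ W, SeeR rw S (f x) r' := by
    intro x hx
    have h2 := hsep x hx
    unfold ES at h2
    push Not at h2
    exact ⟨p x, hp x hx, q x, hq x hx, h2.1, h2.2⟩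
  -- two far rungs with the same place on the other row
  have eqv : ∀ e, e ∈ Fa → SeeR rw S e r' → ∀ x ∈ W,
      EqOn (rw r') (Aw r' e) (Aw r' (f x)) → ∀ a ∈ rw r', ∀ b ∈ rw r',
      (ES S e a b ↔ ES S (f x) a b) := by
    intro e he hse x hx hE a ha b hb
    have h1 := (h.wB r' hr' e (Or.inl he) hse).one ha hb
    have h2 := (h.wB r' hr' (f x) (Or.inl (hf x hx).2.1) (hs' x hx)).one ha hb
    have h3 : a ∈ Aw r' e ↔ a ∈ Aw r' (f x) := hE a ha
    have h4 : b ∈ Aw r' e ↔ b ∈ Aw r' (f x) := hE b hb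
    rw [h1, h2, h3, h4]
  -- the pair
  have pair : ∀ e, ExC (ES S) D' (rw r) (Tr r) e → ∀ x ∈ W,
      ¬ (e ∈ Fa ∧ SeeR rw S e r' ∧ EqOn (rw r') (Aw r' e) (Aw r' (f x))) →
      PWitD (ES S) (Lv (nd₁ r)) (Lv (nd₂ r)) (Aw r) (rw r) (Tr r) e (f x) := by
    intro e he x hx hn
    obtain ⟨h1, h2⟩ := h.exC hD hr he
    have hne : e ≠ f x := by
      intro h3
      rw [h3] at hn
      exact hn ⟨(hf x hx).2.1, hs' x hx, fun _ _ => Iff.rfl⟩
    refine h.wD r hr e h1 (f x) (Or.inl (hf x hx).2.1) hne h2 (hs x hx)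
      (fun u _ _ => h.far_not_near (hf x hx).2.1 u) ?_
    intro i j he1 hx1 hri hrj hij hE
    obtain ⟨k, hk⟩ := h.far_see (f x) hx1 r' hr' (hs' x hx)
    have hkj : k = !j := by
      cases k <;> cases j <;> simp_all
    rw [← hkj, ← hk] at hij
    rw [hij] at hE
    have h5 := (h.far_V e he1 (!i)).2
    rw [hij] at h5
    exact hn ⟨he1, h5, hE⟩
  refine ⟨fun x hx => ⟨(hf x hx).1, hfT x hx, (hf x hx).2.2⟩, fun e _ he => ?_, ?_⟩
  · by_cases hb : ∃ b ∈ W, e ∈ Fa ∧ SeeR rw S e r' ∧ EqOn (rw r') (Aw r' e) (Aw r' (f b))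
    · obtain ⟨b, hb, he1, he2, he3⟩ := hb
      refine ⟨b, fun x hx hxb _ => pair e he x hx ?_⟩
      rintro ⟨-, -, h4⟩
      refine hsep x hx ?_
      have h5 := eqv e he1 he2 x hx h4 (p x) (hp x hx) (q x) (hq x hx)
      have h6 := eqv e he1 he2 b hb he3 (p x) (hp x hx) (q x) (hq x hx)
      rw [← h5, h6]
      exact hM b hb (f b) (hf b hb).2.2 (hf b hb).2.1 x hx hxb
    · obtain ⟨b₀⟩ := ‹Nonempty ι›
      exact ⟨b₀, fun x hx _ _ => pair e he x hx fun h4 => hb ⟨x, hx, h4⟩⟩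
  · intro y hy e hey _ he x hx hxy _
    refine pair e he x hx ?_
    rintro ⟨h1, h2, h3⟩
    refine hsep x hx ?_
    rw [← eqv e h1 h2 x hx h3 (p x) (hp x hx) (q x) (hq x hx)]
    exact hM y hy e hey h1 x hx hxy

end

end TST
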