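import Pool.Agent.TST.LabFam
import Pool.Agent.TST.LayRoot
import Pool.Agent.TST.LayDef

/-!
# Windows of the Ramsey families, far families (label level of T-star, helper45)

The window `x` consists of the positions `5 x + 1, .., 5 x + 4`; the member of the family `e` at the window
`x` is `w e (Qw x)`.  The patterns are homogeneous in the sense of `Hom`, and a far family which sees
a label on another row is free on the root cell.
-/

set_option autoImplicit false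

open Set

namespace TST

universe u v w

/-- the positions of the window `x` -/
def Qw (x : ℕ) : Finset ℕ := {5 * x + 1, 5 * x + 2, 5 * x + 3, 5 * x + 4}

lemma mem_Qw {x p : ℕ} : p ∈ Qw x ↔ 5 * x < p ∧ p < 5 * x + 5 := by
  unfold Qw
  simp only [Finset.mem_insert, Finset.mem_singleton]
  omega

lemma Qw_card (x : ℕ) : (Qw x).card = 4 := by
  unfold Qw
  rw [Finset.card_insert_of_notMem, Finset.card_insert_of_notMem, Finset.card_insert_of_notMem,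
    Finset.card_singleton]
  · rw [Finset.mem_singleton]
    omega
  · simp only [Finset.mem_insert, Finset.mem_singleton]
    omega
  · simp only [Finset.mem_insert, Finset.mem_singleton]
    omega

lemma Qw_sub {x K : ℕ} (h : 5 * x + 5 < K) : Qw x ⊆ Finset.range K := by
  intro p hp
  rw [mem_Qw] at hp
  rw [Finset.mem_range]
  omega

/-- the place relative to a window -/
lemma qloc_Qw (x p : ℕ) : qloc (Qw x) p =
    if p ≤ 5 * x then 0 else if 5 * x + 5 ≤ p then 8 else 2 * (p - 5 * x) - 1 := by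
  classical
  have h1 : (Qw x).filter (fun y => y < p) = (Finset.Ioo (5 * x) (min p (5 * x + 5))) := by
    ext y
    rw [Finset.mem_filter, mem_Qw, Finset.mem_Ioo]
    omega
  have h2 : (Qw x).filter (fun y => y ≤ p) = (Finset.Ioo (5 * x) (min (p + 1) (5 * x + 5))) := by
    ext y
    rw [Finset.mem_filter, mem_Qw, Finset.mem_Ioo]
    omega
  unfold qloc
  rw [h1, h2, Nat.card_Ioo, Nat.card_Ioo]
  split_ifs with h3 h4
  · omega
  · omega
  · omega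

lemma qloc_of_wpos {x y p q : ℕ} (h : wpos x p = wpos y q) : qloc (Qw x) p = qloc (Qw y) q := by
  rw [qloc_Qw, qloc_Qw]
  unfold wpos at h
  split_ifs at h ⊢ <;> omega

section

variable {α : Type u} {β : Type v} {ν : Type w} {rw : β → Set α} {V : Set β}
    {nd₁ nd₂ : β → ν} {S : α → α → α → Prop} {Dg Fa On Dt : Set α} {Nr : ν → Set α}
    {Tr : β → Set α} {Tu : ν → Set α} {Lv : ν → α → Set α} {Aw : β → α → Set α}
    {Au : ν → α → Fin 3 → Set α} {B : α → α → α → α → Prop} {lg : ν → Fin 3 → β}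
    {oe : ν → Fin 3 → ν} {fr : α → Bool → β} {r₀ : α → β} {ct : α → ν} {D' : Set α} {r : β}
    {m K : ℕ} {R : ℕ → β} {C : ℕ → ℕ → α} {γ : Set ℕ} {wf : ℕ → Finset ℕ → α} {ki kj kk : ℕ → ℕ}

/-- the sides of the exits are homogeneous -/
theorem LabFam.homAw (hf : LabFam V nd₁ nd₂ S Dg Fa On Dt Nr Tr Lv Aw ct m K R C γ wf ki kj kk)
    {e : ℕ} (he : e ∈ γ) {Lb W : Set ℕ} (hL : ∀ k ∈ Lb, k < m ∧ R k = r)
    (hW : ∀ x ∈ W, 5 * x + 5 < K) : Hom K C Lb W (fun x => Aw r (wf e (Qw x))) := by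
  intro k hk
  obtain ⟨hkm, hkr⟩ := hL k hk
  refine ⟨fun c => ∃ x ∈ W, ∃ p < K, wpos x p = c ∧ C k p ∈ Aw r (wf e (Qw x)), ?_⟩
  intro x hx p hp
  refine ⟨fun h => ⟨x, hx, p, hp, rfl, h⟩, ?_⟩
  rintro ⟨y, hy, q, hq, h1, h2⟩
  have h3 := (hf.homA e he k hkm (Qw y) (Qw_sub (hW y hy)) (Qw_card y) (Qw x) (Qw_sub (hW x hx))
    (Qw_card x) q hq p hp (qloc_of_wpos h1)).1
  rw [hkr] at h3
  exact h3.1 h2

theorem LabFam.homL (hf : LabFam V nd₁ nd₂ S Dg Fa On Dt Nr Tr Lv Aw ct m K R C γ wf ki kj kk)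
    {e : ℕ} (he : e ∈ γ) {Lb W : Set ℕ} (hL : ∀ k ∈ Lb, k < m ∧ R k = r)
    (hW : ∀ x ∈ W, 5 * x + 5 < K) : Hom K C Lb W (fun x => Lv (nd₁ r) (wf e (Qw x))) := by
  intro k hk
  obtain ⟨hkm, hkr⟩ := hL k hk
  refine ⟨fun c => ∃ x ∈ W, ∃ p < K, wpos x p = c ∧ C k p ∈ Lv (nd₁ r) (wf e (Qw x)), ?_⟩
  intro x hx p hp
  refine ⟨fun h => ⟨x, hx, p, hp, rfl, h⟩, ?_⟩
  rintro ⟨y, hy, q, hq, h1, h2⟩
  have h3 := (hf.homA e he k hkm (Qw y) (Qw_sub (hW y hy)) (Qw_card y) (Qw x) (Qw_sub (hW x hx))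
    (Qw_card x) q hq p hp (qloc_of_wpos h1)).2.1
  rw [hkr] at h3
  exact h3.1 h2

theorem LabFam.homR (hf : LabFam V nd₁ nd₂ S Dg Fa On Dt Nr Tr Lv Aw ct m K R C γ wf ki kj kk)
    {e : ℕ} (he : e ∈ γ) {Lb W : Set ℕ} (hL : ∀ k ∈ Lb, k < m ∧ R k = r)
    (hW : ∀ x ∈ W, 5 * x + 5 < K) : Hom K C Lb W (fun x => Lv (nd₂ r) (wf e (Qw x))) := by
  intro k hk
  obtain ⟨hkm, hkr⟩ := hL k hk
  refine ⟨fun c => ∃ x ∈ W, ∃ p < K, wpos x p = c ∧ C k p ∈ Lv (nd₂ r) (wf e (Qw x)), ?_⟩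
  intro x hx p hp
  refine ⟨fun h => ⟨x, hx, p, hp, rfl, h⟩, ?_⟩
  rintro ⟨y, hy, q, hq, h1, h2⟩
  have h3 := (hf.homA e he k hkm (Qw y) (Qw_sub (hW y hy)) (Qw_card y) (Qw x) (Qw_sub (hW x hx))
    (Qw_card x) q hq p hp (qloc_of_wpos h1)).2.2
  rw [hkr] at h3
  exact h3.1 h2

/-- two positions on one side of the window have the same side -/
lemma LabFam.side (hf : LabFam V nd₁ nd₂ S Dg Fa On Dt Nr Tr Lv Aw ct m K R C γ wf ki kj kk)
    {e k y p q : ℕ} (he : e ∈ γ) (hk : k < m) (hy : 5 * y + 5 < K) (hp : p < K) (hq : q < K)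
    (h : (p ≤ 5 * y ∧ q ≤ 5 * y) ∨ (5 * y + 5 ≤ p ∧ 5 * y + 5 ≤ q)) :
    C k p ∈ Aw (R k) (wf e (Qw y)) ↔ C k q ∈ Aw (R k) (wf e (Qw y)) := by
  refine (hf.homA e he k hk (Qw y) (Qw_sub hy) (Qw_card y) (Qw y) (Qw_sub hy) (Qw_card y) p hp q hq
    (qloc_of_wpos ?_)).1
  unfold wpos
  split_ifs <;> omega

/-- **A far family which sees a label on another row is free on the root cell.** -/
theorem LabFam.farFree
    (h : LabFacts3 rw V nd₁ nd₂ S Dg Fa On Dt Nr Tr Tu Lv Aw Au B lg oe fr r₀ ct)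
    (hf : LabFam V nd₁ nd₂ S Dg Fa On Dt Nr Tr Lv Aw ct m K R C γ wf ki kj kk)
    (hC : ∀ i < m, R i ∈ V → ∀ p < K, C i p ∈ rw (R i))
    (hD : RowG V Dg Fa Nr Tr D') (hr : r ∈ V) {e j : ℕ} (he : e ∈ γ) (hk : kk e = 0)
    (hj : j < m) (hjV : R j ∈ V) (hjr : R j ≠ r) {W : Set ℕ} (hW : ∀ x ∈ W, 5 * x + 5 < K)
    (hD' : ∀ x ∈ W, wf e (Qw x) ∈ D') (hs : ∀ x ∈ W, SeeR rw S (wf e (Qw x)) r)
    (hsj : ∀ x ∈ W, SeeW (ES S) C (wf e (Qw x)) j x) :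
    Fr (ES S) (Lv (nd₁ r)) (Lv (nd₂ r)) (Aw r) D' (rw r) (Tr r) (MbF (fun e x => wf e (Qw x)) γ)
      univ W (fun x => wf e (Qw x)) := by
  classical
  have hex : ∀ x, ∃ pq : ℕ × ℕ, x ∈ W → (5 * x ≤ pq.1 ∧ pq.1 ≤ 5 * x + 5) ∧
      (5 * x ≤ pq.2 ∧ pq.2 ≤ 5 * x + 5) ∧ ¬ ES S (wf e (Qw x)) (C j pq.1) (C j pq.2) := by
    intro x
    by_cases hx : x ∈ W
    · obtain ⟨p, q, h1, h2, h3, h4, h5⟩ := hsj x hx
      exact ⟨(p, q), fun _ => ⟨⟨h1, h2⟩, ⟨h3, h4⟩, h5⟩⟩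
    · exact ⟨(0, 0), fun h1 => absurd h1 hx⟩
  choose pq hpq using hex
  have lt : ∀ x ∈ W, ∀ p, 5 * x ≤ p ∧ p ≤ 5 * x + 5 → p < K := fun x hx p hp => by
    have := hW x hx
    omega
  refine h.farFr hD hr hjr (p := fun x => C j (pq x).1) (q := fun x => C j (pq x).2) ?_ hs ?_ ?_ hjV
    ?_ ?_
  · intro x hx
    refine ⟨hD' x hx, ?_, e, he, rfl⟩
    rcases (hf.wit e he (Qw x) (Qw_sub (hW x hx)) (Qw_card x)).2.1 with h1 | h1 | h1 | h1 | h1 | h1 | h1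
    · exact h1.2
    all_goals
      have h2 := h1.1
      omega
  · intro x hx
    exact hC j hj hjV _ (lt x hx _ (hpq x hx).1)
  · intro x hx
    exact hC j hj hjV _ (lt x hx _ (hpq x hx).2.1)
  · intro x hx
    exact (hpq x hx).2.2
  · rintro y hy _ ⟨e', he', rfl⟩ hFa x hx hxy
    have p1 := (hpq x hx).1
    have p2 := (hpq x hx).2.1
    have l1 := lt x hx _ (hpq x hx).1
    have l2 := lt x hx _ (hpq x hx).2.1
    by_contra hcon
    have hsee : SeeR rw S (wf e' (Qw y)) (R j) := by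
      have h3 := hcon
      unfold ES at h3
      push Not at h3
      exact ⟨_, hC j hj hjV _ l1, _, hC j hj hjV _ l2, h3.1, h3.2⟩
    refine hcon ?_
    have h3 := (h.wB (R j) hjV _ (Or.inl hFa) hsee).one (hC j hj hjV _ l1) (hC j hj hjV _ l2)
    show ES S (wf e' (Qw y)) (C j (pq x).1) (C j (pq x).2)
    rw [h3]
    refine hf.side he' hj (hW y hy) l1 l2 ?_
    rcases Nat.lt_or_gt_of_ne hxy with h4 | h4 <;> omega

end

end TST
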