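import Pool.Agent.TST.CutList
import Pool.Agent.TST.LayFar

/-!
# The state machine of the label level (T-star, row R5; helper88)

Instance of `cut_list`: a state = the usable windows and the trees of references of all visible rows.
The steps are statements about one row (`RowStep`).
-/

set_option autoImplicit false

open Set

namespace TST

universe u v w

section tree

variable {α : Type u} {E : α → α → α → Prop} {L R : α → Set α} {Dg : Set α} {F : ℕ → ℕ → α}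
  {γ : Set ℕ} {K : ℕ} {C : ℕ → ℕ → α} {Lb : Set ℕ} {Qc : Cell α → Prop} {c : Cell α}
  {W W' : Set ℕ} {D : Set (Cd α)}

lemma Resv.monoW {Wz : Set ℕ} {l₁ l₂ h₂ h₁ : ℕ} (h : Resv Wz W l₁ l₂ h₂ h₁) (hW : W' ⊆ W) :
    Resv Wz W' l₁ l₂ h₂ h₁ :=
  ⟨hW.trans h.sub, h.ml₁, h.ml₂, h.mh₂, h.mh₁, h.ll, h.hh, h.lh, fun x hx => h.lo x (hW hx),
    fun x hx => h.hi x (hW hx)⟩

/-- fewer windows -/
theorem GT.monoW (h : GT E L R Dg F γ K C Lb Qc c W D) : ∀ W' ⊆ W,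
    GT E L R Dg F γ K C Lb Qc c W' D := by
  induction h with
  | leaf c W h1 h2 => exact fun W' _ => GT.leaf c W' h1 h2
  | node c W z d Wz Cz D₁ D₂ l₁ l₂ h₂ h₁ h1 h2 h3 h4 _ _ ih₁ ih₂ =>
    exact fun W' hW => GT.node c W' z d Wz Cz D₁ D₂ l₁ l₂ h₂ h₁ h1 h2 h3 (h4.monoW hW)
      (ih₁ W' hW) (ih₂ W' hW)

/-- the cut labels are labels of the row -/
theorem GT.labk (h : GT E L R Dg F γ K C Lb Qc c W D) : ∀ q ∈ D, q.k ∈ Lb := by
  induction h with
  | leaf c W h1 h2 => exact fun q hq => absurd hq (notMem_empty q)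
  | node c W z d Wz Cz D₁ D₂ l₁ l₂ h₂ h₁ h1 h2 h3 h4 _ _ ih₁ ih₂ =>
    rintro q ((hq | hq) | hq)
    · exact (h3.lb q.k hq.1).1
    · exact ih₁ q hq
    · exact ih₂ q hq

/-- the references are families -/
theorem GT.memz (h : GT E L R Dg F γ K C Lb Qc c W D) : ∀ q ∈ D, q.z ∈ γ := by
  induction h with
  | leaf c W h1 h2 => exact fun q hq => absurd hq (notMem_empty q)
  | node c W z d Wz Cz D₁ D₂ l₁ l₂ h₂ h₁ h1 h2 h3 h4 _ _ ih₁ ih₂ =>
    rintro q ((hq | hq) | hq)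
    · rw [hq.2.1]
      exact h3.mem
    · exact ih₁ q hq
    · exact ih₂ q hq

end tree

/-- the root cell of a row -/
abbrev rootC {α : Type u} {β : Type v} (rw : β → Set α) (Tr : β → Set α) (Aw : β → α → Set α)
    (r : β) : Cell α := ⟨∅, rw r, Tr r, Aw r⟩

/-- the labels of a row -/
def lbR {β : Type v} (m : ℕ) (R : ℕ → β) (r : β) : Set ℕ := {k | k < m ∧ R k = r}

/-- the member of the family `e` at the window `x` -/
abbrev famF {α : Type u} (wf : ℕ → Finset ℕ → α) : ℕ → ℕ → α := fun e x => wf e (Qw x)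

/-- the family `e` splits the label `k` (six positions) -/
def SplF {α : Type u} {β : Type v} (V : Set β) (S : α → α → α → Prop) (m K : ℕ) (R : ℕ → β)
    (C : ℕ → ℕ → α) (wf : ℕ → Finset ℕ → α) (e k : ℕ) : Prop :=
  (k < m ∧ R k ∈ V) ∧ ∀ x, 5 * x + 5 < K → SeeW (ES S) C (famF wf e x) k x

/-- far families -/
def FarK (γ : Set ℕ) (kk : ℕ → ℕ) (e : ℕ) : Prop := e ∈ γ ∧ kk e = 0

/-- same-row families -/
def SameK (γ : Set ℕ) (kk : ℕ → ℕ) (e : ℕ) : Prop := e ∈ γ ∧ kk e = 3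

/-- near families -/
def NearK {β : Type v} {ν : Type w} (nd₁ nd₂ : β → ν) (R : ℕ → β) (γ : Set ℕ) (ki kk : ℕ → ℕ)
    (y : ν) (e : ℕ) : Prop :=
  e ∈ γ ∧ ((kk e = 1 ∧ y = nd₁ (R (ki e))) ∨ (kk e = 2 ∧ y = nd₂ (R (ki e))))

/-- the member of a homogeneous family separates two positions at every window or at no window -/
theorem LabFam.seeW {α : Type u} {β : Type v} {ν : Type w} {V : Set β} {nd₁ nd₂ : β → ν}
    {S : α → α → α → Prop} {Dg Fa On Dt : Set α} {Nr : ν → Set α} {Tr : β → Set α}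
    {Lv : ν → α → Set α} {Aw : β → α → Set α} {ct : α → ν} {m K : ℕ} {R : ℕ → β}
    {C : ℕ → ℕ → α} {γ : Set ℕ} {wf : ℕ → Finset ℕ → α} {ki kj kk : ℕ → ℕ}
    (hf : LabFam V nd₁ nd₂ S Dg Fa On Dt Nr Tr Lv Aw ct m K R C γ wf ki kj kk)
    (hi : ∀ k < m, ∀ p < K, ∀ p' < K, C k p = C k p' → p = p')
    {e k x y : ℕ} (he : e ∈ γ) (hk : k < m) (hx : 5 * x + 5 < K) (hy : 5 * y + 5 < K)
    (h : SeeW (ES S) C (wf e (Qw x)) k x) : SeeW (ES S) C (wf e (Qw y)) k y := by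
  obtain ⟨p, p', h1, h2, h3, h4, h5⟩ := h
  unfold ES at h5
  push Not at h5
  obtain ⟨h5, h6⟩ := h5
  have hpp : p ≠ p' := fun h => h5 (by rw [h])
  refine ⟨p - 5 * x + 5 * y, p' - 5 * x + 5 * y, by omega, by omega, by omega, by omega, ?_⟩
  unfold ES
  push Not
  constructor
  · intro h7
    have h8 := hi k hk _ (by omega) _ (by omega) h7
    omega
  · refine (hf.hom e he k hk (Qw x) (Qw_sub hx) (Qw_card x) (Qw y) (Qw_sub hy) (Qw_card y) p
      (by omega) p' (by omega) _ (by omega) _ (by omega) (qloc_of_wpos ?_) (qloc_of_wpos ?_)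
      (by omega) (by omega)).1 h6
    · unfold wpos
      split_ifs <;> omega
    · unfold wpos
      split_ifs <;> omega

/-- **A step on one row**: the label `a` is cut, at most `c₀` windows are lost. -/
def RowStep {α : Type u} (E : α → α → α → Prop) (L R : α → Set α) (Dg : Set α)
    (F : ℕ → ℕ → α) (γ : Set ℕ) (K : ℕ) (C : ℕ → ℕ → α) (Lb : Set ℕ) (Qc : Cell α → Prop)
    (c : Cell α) (c₀ : ℕ) (W : Finset ℕ) (D : Set (Cd α)) (e a : ℕ) : Prop :=
  ∃ W' : Finset ℕ, W' ⊆ W ∧ W.card ≤ W'.card + c₀ ∧ ∃ D' : Set (Cd α), D ⊆ D' ∧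
    GT E L R Dg F γ K C Lb Qc c (W' : Set ℕ) D' ∧ a ∈ cutL D' ∧
    ∀ q ∈ D', q ∈ D ∨ (q.z = e ∧ ∃ x ∈ W', SeeW E C (F e x) q.k x)

/-- a state: the usable windows and the data of the cut labels of the rows -/
structure Sta (α : Type u) (β : Type v) where
  W : Finset ℕ
  D : β → Set (Cd α)

/-- the cut labels of a state -/
def csS {α : Type u} {β : Type v} (V : Set β) (m : ℕ) (R : ℕ → β) (σ : Sta α β) : Set ℕ :=
  {k | (k < m ∧ R k ∈ V) ∧ k ∈ cutL (σ.D (R k))}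

/-- **Invariant of the states.** -/
structure InvS {α : Type u} {β : Type v} {ν : Type w} (rw : β → Set α) (V : Set β)
    (nd₁ nd₂ : β → ν) (S : α → α → α → Prop) (Dq : Set α) (Tr : β → Set α) (Lv : ν → α → Set α)
    (Aw : β → α → Set α) (Qr : β → Cell α → Prop) (m K : ℕ) (R : ℕ → β) (C : ℕ → ℕ → α)
    (γ : Set ℕ) (wf : ℕ → Finset ℕ → α) (ki kk : ℕ → ℕ) (c₀ W₀ : ℕ) (σ : Sta α β) : Prop where
  win : ∀ x ∈ σ.W, 5 * x + 5 < K
  tr : ∀ r ∈ V, GT (ES S) (Lv (nd₁ r)) (Lv (nd₂ r)) Dq (famF wf) γ K C (lbR m R r) (Qr r)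
    (rootC rw Tr Aw r) (σ.W : Set ℕ) (σ.D r)
  card : W₀ ≤ σ.W.card + c₀ * (csS V m R σ).ncard
  /-- the references are same-row families or rung families which split a label on another row -/
  ref : ∀ r ∈ V, ∀ q ∈ σ.D r, SameK γ kk q.z ∨
    ((FarK γ kk q.z ∨ ∃ y, NearK nd₁ nd₂ R γ ki kk y q.z) ∧
      ∃ j, SplF V S m K R C wf q.z j ∧ R j ≠ r)
  refs : ∀ r ∈ V, ∀ q ∈ σ.D r, SplF V S m K R C wf q.z q.k
  refS : ∀ r ∈ V, ∀ q ∈ σ.D r, SameK γ kk q.z →
    ∃ q₀ ∈ σ.D r, q₀.z ≠ q.z ∧ SplF V S m K R C wf q.z q₀.k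

section

variable {α : Type u} {β : Type v} {ν : Type w} {rw : β → Set α} {V : Set β} {nd₁ nd₂ : β → ν}
  {S : α → α → α → Prop} {Dg Fa On Dt Dq : Set α} {Nr : ν → Set α} {Tr : β → Set α}
  {Lv : ν → α → Set α} {Aw : β → α → Set α} {ct : α → ν} {m K c₀ W₀ : ℕ}
  {R : ℕ → β} {C : ℕ → ℕ → α} {γ : Set ℕ} {wf : ℕ → Finset ℕ → α} {ki kj kk : ℕ → ℕ}
  {Qr : β → Cell α → Prop} {σ : Sta α β}

lemma csS_lt {i : ℕ} (hi : i ∈ csS V m R σ) : i < m := hi.1.1

lemma csS_fin : (csS V m R σ).Finite ∧ (csS V m R σ).ncard ≤ m := by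
  have h1 : csS V m R σ ⊆ ((Finset.range m : Finset ℕ) : Set ℕ) := fun i hi =>
    Finset.mem_coe.2 (Finset.mem_range.2 (csS_lt hi))
  refine ⟨(Finset.finite_toSet _).subset h1, ?_⟩
  have h2 := Set.ncard_le_ncard h1 (Finset.finite_toSet _)
  rwa [Set.ncard_coe_finset, Finset.card_range] at h2

/-- **A row step gives a new state.** -/
theorem InvS.step (hf : LabFam V nd₁ nd₂ S Dg Fa On Dt Nr Tr Lv Aw ct m K R C γ wf ki kj kk)
    (hi : ∀ k < m, ∀ p < K, ∀ p' < K, C k p = C k p' → p = p')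
    (hσ : InvS rw V nd₁ nd₂ S Dq Tr Lv Aw Qr m K R C γ wf ki kk c₀ W₀ σ) {e a : ℕ}
    (he : (SameK γ kk e ∧ ∃ i ∈ csS V m R σ, R i = R a ∧ SplF V S m K R C wf e i) ∨
      ((FarK γ kk e ∨ ∃ y, NearK nd₁ nd₂ R γ ki kk y e) ∧
        ∃ j, SplF V S m K R C wf e j ∧ R j ≠ R a))
    (ha : a < m) (haV : R a ∈ V) (haC : a ∉ csS V m R σ)
    (hs : RowStep (ES S) (Lv (nd₁ (R a))) (Lv (nd₂ (R a))) Dq (famF wf) γ K C (lbR m R (R a))
      (Qr (R a)) (rootC rw Tr Aw (R a)) c₀ σ.W (σ.D (R a)) e a) :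
    ∃ σ', InvS rw V nd₁ nd₂ S Dq Tr Lv Aw Qr m K R C γ wf ki kk c₀ W₀ σ' ∧
      csS V m R σ ⊆ csS V m R σ' ∧ a ∈ csS V m R σ' ∧
      ∀ i ∈ csS V m R σ', i ∈ csS V m R σ ∨ (R i = R a ∧ SplF V S m K R C wf e i) := by
  classical
  obtain ⟨W', hW', hcard, D', hD', hGT, haD, hnew⟩ := hs
  have heγ : e ∈ γ := by
    rcases he with ⟨h, -⟩ | ⟨h | ⟨y, h⟩, -⟩
    · exact h.1
    · exact h.1
    · exact h.1
  have hW : ∀ x ∈ W', 5 * x + 5 < K := fun x hx => hσ.win x (hW' hx)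
  -- the new data
  have new : ∀ q ∈ D', q ∈ σ.D (R a) ∨ (q.z = e ∧ SplF V S m K R C wf e q.k) := by
    intro q hq
    rcases hnew q hq with h1 | ⟨h1, x, hx, h2⟩
    · exact Or.inl h1
    · have h3 := hGT.labk q hq
      refine Or.inr ⟨h1, ⟨h3.1, by rw [h3.2]; exact haV⟩, fun y hy => ?_⟩
      exact hf.seeW hi heγ h3.1 (hW x hx) hy h2
  obtain ⟨σ', hσ'⟩ : ∃ σ' : Sta α β, σ' = ⟨W', fun r => if r = R a then D' else σ.D r⟩ :=
    ⟨_, rfl⟩
  have sW : σ'.W = W' := by rw [hσ']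
  have sDa : σ'.D (R a) = D' := by
    rw [hσ']
    simp only [if_true]
  have sDn : ∀ r, r ≠ R a → σ'.D r = σ.D r := by
    intro r hr
    rw [hσ']
    simp only [if_neg hr]
  have hsub : csS V m R σ ⊆ csS V m R σ' := by
    rintro i ⟨h1, q, hq, h2⟩
    refine ⟨h1, q, ?_, h2⟩
    by_cases hr : R i = R a
    · rw [hr, sDa]
      rw [hr] at hq
      exact hD' hq
    · rw [sDn _ hr]
      exact hq
  have haS : a ∈ csS V m R σ' := by
    refine ⟨⟨ha, haV⟩, ?_⟩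
    rw [sDa]
    exact haD
  refine ⟨σ', ⟨?_, ?_, ?_, ?_, ?_, ?_⟩, hsub, haS, ?_⟩
  · intro x hx
    rw [sW] at hx
    exact hW x hx
  · intro r hr
    by_cases hra : r = R a
    · rw [hra, sDa, sW]
      exact hGT
    · rw [sDn r hra, sW]
      exact (hσ.tr r hr).monoW _ (Finset.coe_subset.2 hW')
  · have h1 : (csS V m R σ).ncard < (csS V m R σ').ncard :=
      Set.ncard_lt_ncard (ssubset_iff_subset_not_subset.2 ⟨hsub, fun h => haC (h haS)⟩) csS_fin.1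
    have h2 := hσ.card
    have h3 := Nat.mul_le_mul_left c₀ (Nat.succ_le_of_lt h1)
    rw [Nat.succ_eq_add_one, Nat.mul_add, Nat.mul_one] at h3
    rw [sW]
    omega
  · intro r hr q hq
    by_cases hra : r = R a
    · rw [hra, sDa] at hq
      rcases new q hq with h1 | ⟨h1, -⟩
      · rw [hra]
        exact hσ.ref (R a) haV q h1
      · rw [h1, hra]
        rcases he with ⟨he, -⟩ | he
        · exact Or.inl he
        · exact Or.inr he
    · rw [sDn r hra] at hq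
      exact hσ.ref r hr q hq
  · intro r hr q hq
    by_cases hra : r = R a
    · rw [hra, sDa] at hq
      rcases new q hq with h1 | ⟨h1, h2⟩
      · exact hσ.refs (R a) haV q h1
      · rw [h1]
        exact h2
    · rw [sDn r hra] at hq
      exact hσ.refs r hr q hq
  · intro r hr q hq hqS
    by_cases hra : r = R a
    · rw [hra, sDa] at hq
      rw [hra, sDa]
      rcases new q hq with h1 | ⟨h1, h2⟩
      · obtain ⟨q₀, g1, g2, g3⟩ := hσ.refS (R a) haV q h1 hqS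
        exact ⟨q₀, hD' g1, g2, g3⟩
      · rw [h1] at hqS ⊢
        rcases he with ⟨-, i, hi, hiR, hie⟩ | ⟨he, -⟩
        · obtain ⟨-, q₀, g1, g2⟩ := hi
          rw [hiR] at g1
          by_cases hz : q₀.z = e
          · obtain ⟨q₁, k1, k2, k3⟩ := hσ.refS (R a) haV q₀ g1 (by rw [hz]; exact hqS)
            rw [hz] at k2 k3
            exact ⟨q₁, hD' k1, k2, k3⟩
          · exact ⟨q₀, hD' g1, hz, by rw [g2]; exact hie⟩
        · exfalso
          have h3 := hqS.2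
          rcases he with h4 | ⟨y, -, h4 | h4⟩
          · have := h4.2
            omega
          · omega
          · omega
    · rw [sDn r hra] at hq
      rw [sDn r hra]
      exact hσ.refS r hr q hq hqS
  · rintro i ⟨h1, q, hq, h2⟩
    by_cases hra : R i = R a
    · rw [hra, sDa] at hq
      rcases new q hq with h3 | ⟨-, h3⟩
      · exact Or.inl ⟨h1, q, by rw [hra]; exact h3, h2⟩
      · rw [h2] at h3
        exact Or.inr ⟨hra, h3⟩
    · rw [sDn _ hra] at hq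
      exact Or.inl ⟨h1, q, hq, h2⟩

end

end TST
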