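import Pool.Agent.TST.DtRow
import Pool.Agent.TST.LayState
import Pool.Agent.TST.LayEnd

/-!
# The maximal state and the classes (T-star, row R5; helper88)

`cut_list` for the states `InvS`, together with `one_dt`: for every label its class under all families is
its class under the families of kind at most 3 and all its labels are cut, or it lives at two vertices.
-/

set_option autoImplicit false

open Set

namespace TST

universe u v w

section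

variable {α : Type u} {β : Type v} {ν : Type w} {rw : β → Set α} {V : Set β} {nd₁ nd₂ : β → ν}
  {S : α → α → α → Prop} {Dg Fr On Dt Dq : Set α} {Nr : ν → Set α} {Tr : β → Set α}
  {Tu : ν → Set α} {Lv : ν → α → Set α} {Aw : β → α → Set α} {Au : ν → α → Fin 3 → Set α}
  {B : α → α → α → α → Prop} {lg : ν → Fin 3 → β} {oe : ν → Fin 3 → ν} {fr : α → Bool → β}
  {r₀ : α → β} {ct : α → ν} {m K c₀ W₀ : ℕ} {R : ℕ → β} {C : ℕ → ℕ → α} {γ : Set ℕ}
  {w : ℕ → Finset ℕ → α} {ki kj kk : ℕ → ℕ} {Qr : β → Cell α → Prop}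

/-- the edges of the one-place families -/
def OneR (V : Set β) (S : α → α → α → Prop) (m K : ℕ) (R : ℕ → β) (C : ℕ → ℕ → α) (γ : Set ℕ)
    (w : ℕ → Finset ℕ → α) (kk : ℕ → ℕ) (i j : ℕ) : Prop :=
  ∃ e ∈ γ, kk e = 4 ∧ SplF V S m K R C w e i ∧ SplF V S m K R C w e j

/-- the edges of all families -/
def AdjA (V : Set β) (S : α → α → α → Prop) (m K : ℕ) (R : ℕ → β) (C : ℕ → ℕ → α) (γ : Set ℕ)
    (w : ℕ → Finset ℕ → α) (i j : ℕ) : Prop :=
  ∃ e ∈ γ, SplF V S m K R C w e i ∧ SplF V S m K R C w e j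

/-- the kinds of the families -/
lemma LabFam.kind7 (hf : LabFam V nd₁ nd₂ S Dg Fr On Dt Nr Tr Lv Aw ct m K R C γ w ki kj kk)
    (hK : 6 ≤ K) {e : ℕ} (he : e ∈ γ) : FarK γ kk e ∨ (∃ y, NearK nd₁ nd₂ R γ ki kk y e) ∨
      SameK γ kk e ∨ kk e = 4 ∨ ∃ y, DtK nd₁ nd₂ R γ ki kk y e := by
  obtain ⟨-, h1, -⟩ := hf.wit e he (Qw 0) (Qw_sub (by omega)) (Qw_card 0)
  rcases h1 with h1 | h1 | h1 | h1 | h1 | h1 | h1
  · exact Or.inl ⟨he, h1.1⟩
  · exact Or.inr (Or.inl ⟨_, he, Or.inl ⟨h1.1, rfl⟩⟩)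
  · exact Or.inr (Or.inl ⟨_, he, Or.inr ⟨h1.1, rfl⟩⟩)
  · exact Or.inr (Or.inr (Or.inl ⟨he, h1.1⟩))
  · exact Or.inr (Or.inr (Or.inr (Or.inl h1.1)))
  · exact Or.inr (Or.inr (Or.inr (Or.inr ⟨_, he, Or.inl ⟨h1.1, rfl⟩⟩)))
  · exact Or.inr (Or.inr (Or.inr (Or.inr ⟨_, he, Or.inr ⟨h1.1, rfl⟩⟩)))

/-- **The maximal state.** -/
theorem LabFam.maximal
    (hf : LabFam V nd₁ nd₂ S Dg Fr On Dt Nr Tr Lv Aw ct m K R C γ w ki kj kk)
    (hK : 5 * m + 6 ≤ K) (hC : ∀ i < m, R i ∈ V → ∀ a < K, C i a ∈ rw (R i))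
    (hinj : ∀ k < m, ∀ a < K, ∀ b < K, C k a = C k b → a = b)
    (h : LabFacts3 rw V nd₁ nd₂ S Dg Fr On Dt Nr Tr Tu Lv Aw Au B lg oe fr r₀ ct)
    {σ₀ : Sta α β}
    (h0 : InvS rw V nd₁ nd₂ S Dq Tr Lv Aw Qr m K R C γ w ki kk c₀ W₀ σ₀)
    (hC0 : csS V m R σ₀ = ∅)
    (stepF : ∀ σ, InvS rw V nd₁ nd₂ S Dq Tr Lv Aw Qr m K R C γ w ki kk c₀ W₀ σ → ∀ e a j,
      FarK γ kk e → SplF V S m K R C w e a → SplF V S m K R C w e j → R a ≠ R j →
      a ∉ csS V m R σ →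
      RowStep (ES S) (Lv (nd₁ (R a))) (Lv (nd₂ (R a))) Dq (famF w) γ K C (lbR m R (R a))
        (Qr (R a)) (rootC rw Tr Aw (R a)) c₀ σ.W (σ.D (R a)) e a)
    (stepS : ∀ σ, InvS rw V nd₁ nd₂ S Dq Tr Lv Aw Qr m K R C γ w ki kk c₀ W₀ σ → ∀ e i₀ a,
      SameK γ kk e → SplF V S m K R C w e i₀ → SplF V S m K R C w e a → R i₀ = R a →
      i₀ ∈ csS V m R σ → a ∉ csS V m R σ →
      InvF nd₁ nd₂ R (FarK γ kk) (SameK γ kk) (NearK nd₁ nd₂ R γ ki kk) (SplF V S m K R C w)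
        (csS V m R σ) →
      RowStep (ES S) (Lv (nd₁ (R a))) (Lv (nd₂ (R a))) Dq (famF w) γ K C (lbR m R (R a))
        (Qr (R a)) (rootC rw Tr Aw (R a)) c₀ σ.W (σ.D (R a)) e a)
    (stepN : ∀ σ, InvS rw V nd₁ nd₂ S Dq Tr Lv Aw Qr m K R C γ w ki kk c₀ W₀ σ → ∀ y e a b p,
      NearK nd₁ nd₂ R γ ki kk y e → SplF V S m K R C w e a → SplF V S m K R C w e b → R a ≠ R b →
      a ∉ csS V m R σ →
      InvF nd₁ nd₂ R (FarK γ kk) (SameK γ kk) (NearK nd₁ nd₂ R γ ki kk) (SplF V S m K R C w)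
        (csS V m R σ) →
      ExG nd₁ nd₂ R (PairG (FarK γ kk) (SplF V S m K R C w))
        (fun y => PairG (NearK nd₁ nd₂ R γ ki kk y) (SplF V S m K R C w)) y p →
      PathG nd₁ nd₂ R (SameG R (SameK γ kk) (SplF V S m K R C w))
        (fun y => PairG (NearK nd₁ nd₂ R γ ki kk y) (SplF V S m K R C w)) (csS V m R σ) (R a) y p
        b →
      RowStep (ES S) (Lv (nd₁ (R a))) (Lv (nd₂ (R a))) Dq (famF w) γ K C (lbR m R (R a))
        (Qr (R a)) (rootC rw Tr Aw (R a)) c₀ σ.W (σ.D (R a)) e a)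
    (one : ∀ σ, InvS rw V nd₁ nd₂ S Dq Tr Lv Aw Qr m K R C γ w ki kk c₀ W₀ σ → ∀ e i j,
      (FarK γ kk e ∨ ∃ y, NearK nd₁ nd₂ R γ ki kk y e) → SplF V S m K R C w e i →
      SplF V S m K R C w e j → R i = R j →
      InvF nd₁ nd₂ R (FarK γ kk) (SameK γ kk) (NearK nd₁ nd₂ R γ ki kk) (SplF V S m K R C w)
        (csS V m R σ) →
      i ∈ csS V m R σ → j ∈ csS V m R σ)
    (hO : ∀ q p, OneR V S m K R C γ w kk q p →
      (∃ c, Relation.ReflTransGen (C0G (SameG R (SameK γ kk) (SplF V S m K R C w))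
        (PairG (FarK γ kk) (SplF V S m K R C w))
        (fun y => PairG (NearK nd₁ nd₂ R γ ki kk y) (SplF V S m K R C w))) q c ∧
        TouG (PairG (FarK γ kk) (SplF V S m K R C w))
          (fun y => PairG (NearK nd₁ nd₂ R γ ki kk y) (SplF V S m K R C w)) c) →
      Relation.ReflTransGen (C0G (SameG R (SameK γ kk) (SplF V S m K R C w))
        (PairG (FarK γ kk) (SplF V S m K R C w))
        (fun y => PairG (NearK nd₁ nd₂ R γ ki kk y) (SplF V S m K R C w))) q p) :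
    ∃ σ, InvS rw V nd₁ nd₂ S Dq Tr Lv Aw Qr m K R C γ w ki kk c₀ W₀ σ ∧
      InvF nd₁ nd₂ R (FarK γ kk) (SameK γ kk) (NearK nd₁ nd₂ R γ ki kk) (SplF V S m K R C w)
        (csS V m R σ) ∧
      ∀ i, (∀ j, Relation.ReflTransGen (AdjA V S m K R C γ w) i j → j ∈ csS V m R σ ∧
          Relation.ReflTransGen (C0G (SameG R (SameK γ kk) (SplF V S m K R C w))
            (PairG (FarK γ kk) (SplF V S m K R C w))
            (fun y => PairG (NearK nd₁ nd₂ R γ ki kk y) (SplF V S m K R C w))) i j) ∨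
        ∃ v v' : ν, ∀ j, Relation.ReflTransGen (AdjA V S m K R C γ w) i j →
          At nd₁ nd₂ (R j) v ∨ At nd₁ nd₂ (R j) v' := by
  have hK6 : 6 ≤ K := by omega
  have hinj' : ∀ k < m, ∀ a < K, ∀ b < K, C k a = C k b → a = b := hinj
  -- the relations
  obtain ⟨Spl, hSpl⟩ : ∃ Spl : ℕ → ℕ → Prop, Spl = SplF V S m K R C w := ⟨_, rfl⟩
  obtain ⟨Far, hFar⟩ : ∃ Far : ℕ → ℕ → Prop, Far = PairG (FarK γ kk) Spl := ⟨_, rfl⟩
  obtain ⟨Near, hNear⟩ : ∃ Near : ν → ℕ → ℕ → Prop,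
      Near = fun y => PairG (NearK nd₁ nd₂ R γ ki kk y) Spl := ⟨_, rfl⟩
  obtain ⟨Same, hSame⟩ : ∃ Same : ℕ → ℕ → Prop, Same = SameG R (SameK γ kk) Spl := ⟨_, rfl⟩
  obtain ⟨One, hOne⟩ : ∃ One : ℕ → ℕ → Prop, One = OneR V S m K R C γ w kk := ⟨_, rfl⟩
  obtain ⟨Dtr, hDtr⟩ : ∃ Dtr : ν → ℕ → ℕ → Prop,
      Dtr = fun y => PairG (DtK nd₁ nd₂ R γ ki kk y) Spl := ⟨_, rfl⟩
  have Farv : ∀ i j, Far i j ↔ ∃ e, FarK γ kk e ∧ Spl e i ∧ Spl e j := fun i j => by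
    rw [hFar]; rfl
  have Nearv : ∀ y i j, Near y i j ↔ ∃ e, NearK nd₁ nd₂ R γ ki kk y e ∧ Spl e i ∧ Spl e j :=
    fun y i j => by rw [hNear]; rfl
  have Samev : ∀ i j, Same i j ↔ R i = R j ∧ ∃ e, SameK γ kk e ∧ Spl e i ∧ Spl e j :=
    fun i j => by rw [hSame]; rfl
  have Dtv : ∀ y i j, Dtr y i j ↔ ∃ e, DtK nd₁ nd₂ R γ ki kk y e ∧ Spl e i ∧ Spl e j :=
    fun y i j => by rw [hDtr]; rfl
  have Onev : ∀ i j, One i j ↔ ∃ e ∈ γ, kk e = 4 ∧ Spl e i ∧ Spl e j :=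
    fun i j => by rw [hOne, hSpl]; rfl
  have hSs : ∀ i j, Same i j → Same j i := by
    intro i j h
    rw [Samev] at h ⊢
    obtain ⟨h1, e, h0, h2, h3⟩ := h
    exact ⟨h1.symm, e, h0, h3, h2⟩
  have hSr : ∀ i j, Same i j → R i = R j := fun i j h => ((Samev i j).1 h).1
  have hFs : ∀ i j, Far i j → Far j i := by
    intro i j h
    rw [Farv] at h ⊢
    obtain ⟨e, h2, h3, h4⟩ := h
    exact ⟨e, h2, h4, h3⟩
  have hNs : ∀ y i j, Near y i j → Near y j i := by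
    intro y i j h
    rw [Nearv] at h ⊢
    obtain ⟨e, h2, h3, h4⟩ := h
    exact ⟨e, h2, h4, h3⟩
  have hOs : ∀ i j, One i j → One j i := by
    intro i j h
    rw [Onev] at h ⊢
    obtain ⟨e, h2, h5, h3, h4⟩ := h
    exact ⟨e, h2, h5, h4, h3⟩
  have hDs : ∀ y i j, Dtr y i j → Dtr y j i := by
    intro y i j h
    rw [Dtv] at h ⊢
    obtain ⟨e, h2, h3, h4⟩ := h
    exact ⟨e, h2, h4, h3⟩
  have see0 : ∀ e i, Spl e i → SeeR rw S (w e (Qw 0)) (R i) := by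
    intro e i hs
    rw [hSpl] at hs
    exact hs.see hC (x := 0) (by omega)
  have hNr : ∀ y e i, NearK nd₁ nd₂ R γ ki kk y e → Spl e i → At nd₁ nd₂ (R i) y := by
    intro y e i he hs
    have h1 := hf.mem_near he (Qw_sub (x := 0) (by omega)) (Qw_card 0)
    have h2 := see0 e i hs
    rw [hSpl] at hs
    exact h.near_see y _ h1 _ hs.1.2 h2
  have hNat : ∀ y i j, Near y i j → At nd₁ nd₂ (R i) y ∧ At nd₁ nd₂ (R j) y := by
    intro y i j h
    rw [Nearv] at h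
    obtain ⟨e, h2, h3, h4⟩ := h
    exact ⟨hNr y e i h2 h3, hNr y e j h2 h4⟩
  have hOr : ∀ i j, One i j → R i = R j := by
    intro i j hij
    rw [Onev] at hij
    obtain ⟨e, he, hk, hs, hs'⟩ := hij
    obtain ⟨-, h1, -⟩ := hf.wit e he (Qw 0) (Qw_sub (by omega)) (Qw_card 0)
    have hd : w e (Qw 0) ∈ On := by
      rcases h1 with h1 | h1 | h1 | h1 | h1 | h1 | h1
      · have := h1.1
        omega
      · have := h1.1
        omega
      · have := h1.1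
        omega
      · have := h1.1
        omega
      · exact h1.2
      · have := h1.1
        omega
      · have := h1.1
        omega
    have g1 := see0 e i hs
    have g2 := see0 e j hs'
    rw [hSpl] at hs hs'
    exact (h.one_see _ (Or.inl hd) _ hs.1.2 g1).trans (h.one_see _ (Or.inl hd) _ hs'.1.2 g2).symm
  have hDr : ∀ y i j, Dtr y i j → At nd₁ nd₂ (R i) y ∧ R i = R j := by
    intro y i j hij
    rw [Dtv, hSpl] at hij
    obtain ⟨e, he, hs, hs'⟩ := hij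
    obtain ⟨h1, h2⟩ := hf.dt_row hK6 hC hinj' h he hs
    exact ⟨h1, h2 j hs'⟩
  have hD : ∀ y i j, Dtr y i j → ∀ p, ExG nd₁ nd₂ R Far Near y p →
      ¬ Relation.ReflTransGen (StG nd₁ nd₂ R Same Near y) p i := by
    intro y i j hij p hp
    rw [Dtv, hSpl] at hij
    obtain ⟨e, he, hs, -⟩ := hij
    rw [hFar, hNear, hSpl] at hp
    rw [hSame, hNear, hSpl]
    exact hf.dt_free hK6 hC hinj' h hK he hs hp
  have hD2 : ∀ y i j, Dtr y i j → ∀ p, ExG nd₁ nd₂ R Far Near y p → R p = R i := by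
    intro y i j hij p hp
    rw [Dtv, hSpl] at hij
    obtain ⟨e, he, hs, -⟩ := hij
    rw [hFar, hNear, hSpl] at hp
    exact hf.dt_one hK6 hC hinj' h he hs hp
  have hO' : ∀ q p, One q p → (∃ c, Relation.ReflTransGen (C0G Same Far Near) q c ∧
      TouG Far Near c) → Relation.ReflTransGen (C0G Same Far Near) q p := by
    rw [hOne, hSame, hFar, hNear, hSpl]
    exact hO
  -- all edges
  have allG : ∀ i j, AdjA V S m K R C γ w i j → AllG Same Far One Near Dtr i j := by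
    rintro i j ⟨e, he, hs, hs'⟩
    rw [← hSpl] at hs hs'
    rcases hf.kind7 hK6 he with h1 | ⟨y, h1⟩ | h1 | h1 | ⟨y, h1⟩
    · exact Or.inl (Or.inr (Or.inr ((Farv i j).2 ⟨e, h1, hs, hs'⟩)))
    · exact Or.inl (Or.inr (Or.inl ⟨y, (Nearv y i j).2 ⟨e, h1, hs, hs'⟩⟩))
    · have hd := hf.mem_same h1 (Qw_sub (x := 0) (by omega)) (Qw_card 0)
      have g1 := see0 e i hs
      have g2 := see0 e j hs'
      have hV := (hf.ran e he).2.1.2
      have e1 : R i = R (ki e) := by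
        rw [hSpl] at hs
        exact h.same_see _ hV _ hd _ hs.1.2 g1
      have e2 : R j = R (ki e) := by
        rw [hSpl] at hs'
        exact h.same_see _ hV _ hd _ hs'.1.2 g2
      exact Or.inl (Or.inl ((Samev i j).2 ⟨e1.trans e2.symm, e, h1, hs, hs'⟩))
    · exact Or.inr (Or.inl ((Onev i j).2 ⟨e, he, h1, hs, hs'⟩))
    · exact Or.inr (Or.inr ⟨y, (Dtv y i j).2 ⟨e, h1, hs, hs'⟩⟩)
  have allR : ∀ i j, Relation.ReflTransGen (AdjA V S m K R C γ w) i j →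
      Relation.ReflTransGen (AllG Same Far One Near Dtr) i j :=
    fun i j hij => Relation.ReflTransGen.mono allG _ _ hij
  have allA : ∀ i j, Relation.ReflTransGen (C0G Same Far Near) i j →
      Relation.ReflTransGen (AllG Same Far One Near Dtr) i j :=
    fun i j hij => Relation.ReflTransGen.mono (fun _ _ h1 => Or.inl h1) _ _ hij
  -- the maximal state
  rw [← hSpl] at stepF stepS stepN one ⊢
  have hstep : ∀ σ, InvS rw V nd₁ nd₂ S Dq Tr Lv Aw Qr m K R C γ w ki kk c₀ W₀ σ → ∀ e a,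
      ((SameK γ kk e ∧ ∃ i ∈ csS V m R σ, R i = R a ∧ SplF V S m K R C w e i) ∨
        ((FarK γ kk e ∨ ∃ y, NearK nd₁ nd₂ R γ ki kk y e) ∧
          ∃ j, SplF V S m K R C w e j ∧ R j ≠ R a)) →
      Spl e a → a ∉ csS V m R σ →
      RowStep (ES S) (Lv (nd₁ (R a))) (Lv (nd₂ (R a))) Dq (famF w) γ K C (lbR m R (R a))
        (Qr (R a)) (rootC rw Tr Aw (R a)) c₀ σ.W (σ.D (R a)) e a →
      ∃ σ', InvS rw V nd₁ nd₂ S Dq Tr Lv Aw Qr m K R C γ w ki kk c₀ W₀ σ' ∧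
        csS V m R σ ⊆ csS V m R σ' ∧ a ∈ csS V m R σ' ∧
        ∀ i ∈ csS V m R σ', i ∈ csS V m R σ ∨ (R i = R a ∧ Spl e i) := by
    intro σ hσ e a he hs ha hrs
    rw [hSpl] at hs ⊢
    exact hσ.step hf hinj' he hs.1.1 hs.1.2 ha hrs
  obtain ⟨σ, hσ, hInv, hmax⟩ := cut_list (R := R) (m := m) (FarF := FarK γ kk)
    (SameF := SameK γ kk) (NearF := NearK nd₁ nd₂ R γ ki kk) (Spl := Spl)
    (Adj := C0G Same Far Near) hNr (InvS rw V nd₁ nd₂ S Dq Tr Lv Aw Qr m K R C γ w ki kk c₀ W₀)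
    (csS V m R) (fun σ _ i hi => csS_lt hi) σ₀ h0 hC0
    (fun σ hσ e a j he ha hj hR haC => hstep σ hσ e a (Or.inr ⟨Or.inl he, j, by
      rw [← hSpl]; exact hj, fun h1 => hR h1.symm⟩) ha haC (stepF σ hσ e a j he ha hj hR haC))
    (fun σ hσ e i₀ a he hi ha hR hiC haC hI => hstep σ hσ e a (Or.inl ⟨he, i₀, hiC, hR, by
      rw [← hSpl]; exact hi⟩) ha haC (stepS σ hσ e i₀ a he hi ha hR hiC haC hI))
    (fun σ hσ y e a b p he ha hb hR haC hI hE hP => hstep σ hσ e a (Or.inr ⟨Or.inr ⟨y, he⟩, b, by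
      rw [← hSpl]; exact hb, fun h1 => hR h1.symm⟩) ha haC
      (stepN σ hσ y e a b p he ha hb hR haC hI hE hP))
    one (by
      rintro i j (h1 | ⟨y, h1⟩ | h1)
      · exact Or.inl (hSs _ _ h1)
      · exact Or.inr (Or.inl ⟨y, hNs _ _ _ h1⟩)
      · exact Or.inr (Or.inr (hFs _ _ h1)))
    (by
      rintro i j (h1 | ⟨y, h1⟩ | h1)
      · obtain ⟨h2, e, h3, h4, h5⟩ := (Samev i j).1 h1
        exact ⟨e, h4, h5, Or.inl ⟨h3, h2⟩⟩
      · obtain ⟨e, h3, h4, h5⟩ := (Nearv y i j).1 h1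
        exact ⟨e, h4, h5, Or.inr (Or.inr ⟨y, h3⟩)⟩
      · obtain ⟨e, h3, h4, h5⟩ := (Farv i j).1 h1
        exact ⟨e, h4, h5, Or.inr (Or.inl h3)⟩)
  refine ⟨σ, hσ, hInv, fun i => ?_⟩
  have hC0e : C0G (SameG R (SameK γ kk) Spl) (PairG (FarK γ kk) Spl)
      (fun y => PairG (NearK nd₁ nd₂ R γ ki kk y) Spl) = C0G Same Far Near := by
    rw [hSame, hFar, hNear]
  rw [hC0e]
  rcases one_dt hSs hSr hNs hNat hFs hOs hOr hDs hDr hD hD2 hO' i with h1 | ⟨v, v', h1⟩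
  · rcases hmax i with h2 | ⟨v, v', h2⟩
    · exact Or.inl fun j hij => ⟨h2 j (h1 j (allR i j hij)), h1 j (allR i j hij)⟩
    · exact Or.inr ⟨v, v', fun j hij => h2 j (h1 j (allR i j hij))⟩
  · exact Or.inr ⟨v, v', fun j hij => h1 j (allR i j hij)⟩

end

end TST
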