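import Pool.Agent.TST.LayNd

/-!
# An element which is nested with all exits of a cell (T-star, row R5; helper35)

`NestI E L R A Dg X T P o`: the element `o` has the two classes `P` and complement; it is constant on `X`,
or (alpha) an exit which is a pair with every exit of the cell, or (beta) it can be added to `T`.
-/

set_option autoImplicit false

open Set

namespace TST

variable {α : Type*} {E : α → α → α → Prop} {L R A : α → Set α} {Dg X T P : Set α} {o z : α}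

/-- **`o` is nested with the exits of the cell and of its subcells** -/
def NestI (E : α → α → α → Prop) (L R A : α → Set α) (Dg X T P : Set α) (o : α) : Prop :=
  (∀ x ∈ X, x ∈ P) ∨ (∀ x ∈ X, x ∉ P) ∨
  (o ∉ T ∧ (∀ x ∈ X, (x ∈ A o ↔ x ∈ P)) ∧ ∀ z, ExC E Dg X T z → PWitD E L R A X T z o) ∨
  ((∀ x ∈ X, (x ∈ L o ↔ x ∈ P) ∧ (x ∈ R o ↔ x ∉ P)) ∧
    ∀ z, ExC E Dg X T z → PWitB E L R A X (insert o T) z)

lemma nest_beta (h1 : ∀ x ∈ X, (x ∈ L o ↔ x ∈ P) ∧ (x ∈ R o ↔ x ∉ P))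
    (h : PWitB E L R A X (insert o T) z) :
    (∀ x ∈ X, x ∈ A z → x ∈ P) ∨ ∀ x ∈ X, x ∈ P → x ∈ A z := by
  by_contra hcon
  push Not at hcon
  obtain ⟨⟨a, ha, haA, haP⟩, y, hy, hyP, hyA⟩ := hcon
  rcases h.link (mem_insert _ _) ha haA (fun h3 => haP ((h1 a ha).1.1 h3)) hy hyA
    (fun h3 => (h1 y hy).2.1 h3 hyP) with ⟨-, k2, -⟩ | k
  · exact hyA (k2 y hy ((h1 y hy).1.2 hyP))
  · exact (h1 y hy).2.1 ((k.bal y hy).1 ((h1 y hy).1.2 hyP)) hyP

/-- **nested** -/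
theorem NestI.nest (h : NestI E L R A Dg X T P o) (hz : ExC E Dg X T z) :
    (∀ x ∈ X, x ∈ A z → x ∈ P) ∨ ∀ x ∈ X, x ∈ P → x ∈ A z := by
  rcases h with h | h | ⟨-, h1, h2⟩ | ⟨h1, h2⟩
  · exact Or.inl fun x hx _ => h x hx
  · exact Or.inr fun x hx hP => absurd hP (h x hx)
  · rcases (h2 z hz).chain with h3 | h3
    · exact Or.inl fun x hx hA => (h1 x hx).1 (h3 x hx hA)
    · exact Or.inr fun x hx hP => h3 x hx ((h1 x hx).2 hP)
  · exact nest_beta h1 (h2 z hz)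

/-- **the left child** -/
theorem NestI.left (h : NestI E L R A Dg X T P o) (hz : ExC E Dg X T z) :
    NestI E L R (cA L A T) Dg (cX X (A z)) (cT R X T (A z)) P o := by
  have hn := h.nest hz
  rcases h with h | h | ⟨hoT, h1, h2⟩ | ⟨h1, h2⟩
  · exact Or.inl fun x hx => h x hx.1
  · exact Or.inr (Or.inl fun x hx => h x hx.1)
  · by_cases c1 : ∀ x ∈ cX X (A z), x ∈ P
    · exact Or.inl c1
    by_cases c2 : ∀ x ∈ cX X (A z), x ∉ P
    · exact Or.inr (Or.inl c2)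
    push Not at c1 c2
    obtain ⟨x, hx, hxP⟩ := c1
    obtain ⟨y, hy, hyP⟩ := c2
    have hsee : ∃ x ∈ cX X (A z), ∃ y ∈ cX X (A z), ¬ E o x y := by
      refine ⟨x, hx, y, hy, ?_⟩
      rw [(h2 z hz).right.one hx.1 hy.1, h1 x hx.1, h1 y hy.1]
      exact fun h3 => hxP (h3.2 hyP)
    refine Or.inr (Or.inr (Or.inl ⟨fun h3 => hoT h3.1, fun x hx => ?_, fun d hd => ?_⟩))
    · rw [mem_cA_n hoT]
      exact h1 x hx.1
    · by_cases hdT : d ∈ T
      · exact (h2 z hz).linkC hoT hsee hdT hd.2.1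
      · exact (h2 d (hd.up cX_sub hdT)).old cX_sub cT_sub (fun x _ => mem_cA_n hdT)
          (fun x _ => mem_cA_n hoT)
  · rcases hn with h3 | h3
    · exact Or.inl fun x hx => h3 x hx.1 hx.2
    · refine Or.inr (Or.inr (Or.inr ⟨fun x hx => h1 x hx.1, fun d hd => ?_⟩))
      by_cases hdT : d ∈ T
      · obtain ⟨y, hy, hyA, hyR⟩ := cross_of hdT hd.2.1
        refine (h2 z hz).newL (insert_subset_insert cT_sub) ?_ hy hyA (mem_insert_of_mem _ hdT) hyR
          (fun x _ _ => mem_cA_T hdT)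
        rintro s (rfl | hs) v hv hvA
        · exact (h1 v hv).2.2 fun h4 => hvA (h3 v hv h4)
        · exact cT_R hs hv hvA
      · exact (h2 d (hd.up cX_sub hdT)).old cX_sub (insert_subset_insert cT_sub)
          (fun x _ => mem_cA_n hdT)

/-- exchange of the ends -/
lemma NestI.swap (h : NestI E L R A Dg X T P o) :
    NestI E R L (fun s => (A s)ᶜ) Dg X T Pᶜ o := by
  by_cases c1 : ∀ x ∈ X, x ∈ P
  · exact Or.inr (Or.inl fun x hx h3 => h3 (c1 x hx))
  by_cases c2 : ∀ x ∈ X, x ∉ P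
  · exact Or.inl fun x hx => c2 x hx
  rcases h with h | h | ⟨hoT, h1, h2⟩ | ⟨h1, h2⟩
  · exact absurd h c1
  · exact absurd h c2
  · push Not at c1 c2
    obtain ⟨x, hx, hxP⟩ := c1
    obtain ⟨y, hy, hyP⟩ := c2
    refine Or.inr (Or.inr (Or.inl ⟨hoT, fun x hx => not_congr (h1 x hx), fun d hd => ?_⟩))
    refine (h2 d hd).swap hd.2.2 ⟨x, hx, y, hy, ?_⟩ (fun _ _ => Iff.rfl) (fun _ _ => Iff.rfl)
    rw [(h2 d hd).right.one hx hy, h1 x hx, h1 y hy]
    exact fun h3 => hxP (h3.2 hyP)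
  · refine Or.inr (Or.inr (Or.inr ⟨fun x hx => ⟨(h1 x hx).2, ?_⟩, fun d hd => ?_⟩))
    · rw [(h1 x hx).1]
      exact not_not.symm
    · exact (h2 d hd).swap hd.2.2 (fun _ _ => Iff.rfl)

/-- **the right child** -/
theorem NestI.right (h : NestI E L R A Dg X T P o) (hz : ExC E Dg X T z) :
    NestI E L R (cB R A T) Dg (cX X (A z)ᶜ) (cT L X T (A z)ᶜ) P o := by
  have h1 := (h.swap.left (z := z) hz).swap
  rw [compl_compl] at h1
  exact h1

end TST
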