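import Pool.Agent.TST.OneQ
import Pool.Agent.TST.OneNest
import Pool.Agent.TST.LabJoin

/-!
# LEMMA ONE (T-star, row R5; helper39's walk, typed by helper35)

A one-place family splits two labels `q`, `p` of one row, and the class of `q` under the rungs and the
same-row families contains a label which is split by a rung family.  Then `p` is in this class.
-/

set_option autoImplicit false

open Set

namespace TST

universe u v w

section

variable {α : Type u} {β : Type v} {ν : Type w} {rw : β → Set α} {V : Set β} {nd₁ nd₂ : β → ν}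
  {S : α → α → α → Prop} {Dg Fr On Dt : Set α} {Nr : ν → Set α} {Tr : β → Set α}
  {Tu : ν → Set α} {Lv : ν → α → Set α} {Aw : β → α → Set α} {Au : ν → α → Fin 3 → Set α}
  {B : α → α → α → α → Prop} {lg : ν → Fin 3 → β} {oe : ν → Fin 3 → ν} {fr : α → Bool → β}
  {r₀ : α → β} {ct : α → ν} {m K : ℕ} {R : ℕ → β} {C : ℕ → ℕ → α} {γ : Set ℕ}
  {w : ℕ → Finset ℕ → α} {ki kj kk : ℕ → ℕ} {r : β}

/-- the rungs and the same-row elements of the row -/
def OneD (Dg Fr : Set α) (Nr : ν → Set α) (Tr : β → Set α) (r : β) : Set α :=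
  {d | d ∈ Dg ∧ (d ∈ Fr ∨ (∃ u, d ∈ Nr u) ∨ d ∈ Tr r)}

lemma oneD_rowG (hr : r ∈ V) : RowG V Dg Fr Nr Tr (OneD Dg Fr Nr Tr r) := by
  rintro d ⟨h1, h2 | h2 | h2⟩
  exacts [⟨h1, Or.inl h2⟩, ⟨h1, Or.inr (Or.inl h2)⟩, ⟨h1, Or.inr (Or.inr ⟨r, hr, h2⟩)⟩]

/-- **State of the walk**: `P` = labels which have lost a tile near the middle, all tiles of `q` and `p`
near the middle are in the cell. -/
structure OneSt (rw : β → Set α) (nd₁ nd₂ : β → ν) (S : α → α → α → Prop) (Tr : β → Set α)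
    (Lv : ν → α → Set α) (Aw : β → α → Set α) (D' : Set α) (r : β) (m K : ℕ) (R : ℕ → β)
    (C : ℕ → ℕ → α) (o : ℕ → α) (q p : ℕ) (P : Finset ℕ) (c : Cell α) : Prop where
  inv : CInv (Lv (nd₁ r)) (Lv (nd₂ r)) (rw r) c
  cs : CellS (ES S) (Lv (nd₁ r)) (Lv (nd₂ r)) c.A D' c.X c.T
  sT : c.T ⊆ Tr r
  nest : ∀ s, s + 5 < K → NestI (ES S) (Lv (nd₁ r)) (Lv (nd₂ r)) c.A D' c.X c.T (Aw r (o s)) (o s)
  mid : ∀ a, 5 * P.card ≤ a → a + 5 * P.card < K → C q a ∈ c.X ∧ C p a ∈ c.X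
  lost : ∀ k ∈ P, ∃ a, K ≤ 2 * a + 12 * (P.card + 1) ∧ 2 * a ≤ K + 12 * (P.card + 1) ∧ C k a ∉ c.X
  lab : ∀ k ∈ P, k < m ∧ R k = r

/-- the root -/
lemma OneSt.root
    (h : LabFacts3 rw V nd₁ nd₂ S Dg Fr On Dt Nr Tr Tu Lv Aw Au B lg oe fr r₀ ct)
    (hf : LabFam V nd₁ nd₂ S Dg Fr On Dt Nr Tr Lv Aw ct m K R C γ w ki kj kk) (hK : 6 ≤ K)
    (hC : ∀ i < m, R i ∈ V → ∀ a < K, C i a ∈ rw (R i))
    (hinj : ∀ k < m, ∀ a < K, ∀ b < K, C k a = C k b → a = b) {e q p : ℕ} (he : e ∈ γ)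
    (hk : kk e = 4) (hq : SplF V S m K R C w e q) (hp : SplF V S m K R C w e p) (hr : R q = r)
    (hpr : R p = r) :
    OneSt rw nd₁ nd₂ S Tr Lv Aw (OneD Dg Fr Nr Tr r) r m K R C (fun s => w e (Qs s)) q p ∅
      (rootC rw Tr Aw r) := by
  have hrV : r ∈ V := by
    rw [← hr]
    exact hq.1.2
  refine ⟨CInv.root, h.cellS (oneD_rowG hrV) hrV, Subset.refl _, ?_, ?_, ?_, ?_⟩
  · intro s hs
    have ho : w e (Qs s) ∈ On := by
      obtain ⟨-, h1, -⟩ := hf.wit e he (Qs s) (Qs_sub hs) (Qs_card s)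
      rw [hk] at h1
      rcases h1 with h1 | h1 | h1 | h1 | h1 | h1 | h1
      · exact absurd h1.1 (by norm_num)
      · exact absurd h1.1 (by norm_num)
      · exact absurd h1.1 (by norm_num)
      · exact absurd h1.1 (by norm_num)
      · exact h1.2
      all_goals exact absurd h1.1 (by norm_num)
    have hsee : SeeR rw S (w e (Qs s)) r := by
      obtain ⟨i, j, hi, hj, h1⟩ := hf.splS hK hinj he hq
      have h2 := h1 s hs
      have h3 := hC q hq.1.1 hq.1.2
      rw [hr] at h3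
      refine ⟨_, h3 (s + i) (by omega), _, h3 (s + j) (by omega), fun h4 => h2 (Or.inl h4), ?_⟩
      by_contra h4
      exact h2 (Or.inr h4)
    rcases h.one_wit _ ho r hrV hsee with ⟨h1, h2⟩ | ⟨h1, -, h2⟩
    · refine Or.inr (Or.inr (Or.inl ⟨?_, fun _ _ => Iff.rfl, ?_⟩))
      · obtain ⟨N, p', q', hS, -⟩ := h1
        exact hS.zT
      · intro z hz
        obtain ⟨h3, h4⟩ := h.exC (oneD_rowG hrV) hrV hz
        exact h2 z h3 h4
    · refine Or.inr (Or.inr (Or.inr ⟨h2, ?_⟩))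
      intro z hz
      obtain ⟨h3, h4⟩ := h.exC (oneD_rowG hrV) hrV hz
      exact h1 z h3 h4
  · intro a _ ha
    have h1 := hC q hq.1.1 hq.1.2 a (by omega)
    have h2 := hC p hp.1.1 hp.1.2 a (by omega)
    rw [hr] at h1
    rw [hpr] at h2
    exact ⟨h1, h2⟩
  · intro k hk
    exact absurd hk (Finset.notMem_empty k)
  · intro k hk
    exact absurd hk (Finset.notMem_empty k)

/-- a label which is not split is on one side -/
lemma pconst (hf : LabFam V nd₁ nd₂ S Dg Fr On Dt Nr Tr Lv Aw ct m K R C γ w ki kj kk)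
    (hinj : ∀ k < m, ∀ a < K, ∀ b < K, C k a = C k b → a = b) {g p s : ℕ} (hg : g ∈ γ) (hp : p < m)
    (hpV : R p ∈ V) (hno : ¬ SplF V S m K R C w g p) (hs : s + 5 < K) {L R' A : α → Set α}
    {X T : Set α} (hB : PWitB (ES S) L R' A X T (w g (Qs s)))
    (hX : ∀ j ≤ 5, C p (s + j) ∈ X) {a : ℕ} (ha : a < K) (haX : C p a ∈ X) :
    C p a ∈ A (w g (Qs s)) ↔ C p (s + 1) ∈ A (w g (Qs s)) := by
  have six : ∀ j ≤ 5, (C p (s + j) ∈ A (w g (Qs s)) ↔ C p (s + 1) ∈ A (w g (Qs s))) := by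
    intro j hj
    have h1 := hf.conS hinj hg hp hpV hno hs hj (show 1 ≤ 5 by norm_num)
    exact (hB.one (hX j hj) (hX 1 (by norm_num))).1 h1
  by_cases h1 : a ≤ s
  · have h2 : ES S (w g (Qs s)) (C p a) (C p (s + 1)) := by
      right
      intro h3
      have h4 := (hf.homE2 hg hp hs hs ha (show s + 1 < K by omega) (show s < K by omega)
        (show s + 1 < K by omega) (p' := s) (q' := s + 1) (by unfold spos; split_ifs <;> omega)
        rfl (by omega) (by omega)).1 h3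
      rcases hf.conS hinj hg hp hpV hno hs (show 0 ≤ 5 by norm_num) (show 1 ≤ 5 by norm_num) with
        h5 | h5
      · have h6 := hinj p hp _ (by omega) _ (by omega) h5
        omega
      · exact h5 h4
    exact (hB.one haX (hX 1 (by norm_num))).1 h2
  by_cases h2 : s + 5 ≤ a
  · have h3 : ES S (w g (Qs s)) (C p a) (C p (s + 4)) := by
      right
      intro h3
      have h4 := (hf.homE2 hg hp hs hs ha (show s + 4 < K by omega) (show s + 5 < K by omega)
        (show s + 4 < K by omega) (p' := s + 5) (q' := s + 4) (by unfold spos; split_ifs <;> omega)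
        rfl (by omega) (by omega)).1 h3
      rcases hf.conS hinj hg hp hpV hno hs (show 5 ≤ 5 by norm_num) (show 4 ≤ 5 by norm_num) with
        h5 | h5
      · have h6 := hinj p hp _ (by omega) _ (by omega) h5
        omega
      · exact h5 h4
    exact ((hB.one haX (hX 4 (by norm_num))).1 h3).trans (six 4 (by norm_num))
  · obtain ⟨j, rfl⟩ : ∃ j, a = s + j := ⟨a - s, by omega⟩
    exact six j (by omega)

/-- **Step of the walk.** -/
theorem OneSt.step
    (h : LabFacts3 rw V nd₁ nd₂ S Dg Fr On Dt Nr Tr Tu Lv Aw Au B lg oe fr r₀ ct)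
    (hf : LabFam V nd₁ nd₂ S Dg Fr On Dt Nr Tr Lv Aw ct m K R C γ w ki kj kk)
    (hK : 30 * m + 60 ≤ K)
    (hC : ∀ i < m, R i ∈ V → ∀ a < K, C i a ∈ rw (R i))
    (hinj : ∀ k < m, ∀ a < K, ∀ b < K, C k a = C k b → a = b) {e q p : ℕ} (he : e ∈ γ)
    (hk : kk e = 4) (hq : SplF V S m K R C w e q) (hp : SplF V S m K R C w e p) (hr : R q = r)
    (hpr : R p = r) {P : Finset ℕ} {c : Cell α}
    (hSt : OneSt rw nd₁ nd₂ S Tr Lv Aw (OneD Dg Fr Nr Tr r) r m K R C (fun s => w e (Qs s)) q p P c)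
    {g k s : ℕ} (hg : g ∈ γ) (hgp : ¬ SplF V S m K R C w g p) (hgk : SplF V S m K R C w g k)
    (hkr : R k = r) (hkP : k ∉ P) (hPm : P.card < m) (hs1 : K ≤ 2 * s + 12 * (P.card + 2))
    (hs2 : 2 * (s + 5) ≤ K + 12 * (P.card + 2)) (hzD : w g (Qs s) ∈ OneD Dg Fr Nr Tr r)
    (hzT : w g (Qs s) ∉ c.T) :
    ∃ c', OneSt rw nd₁ nd₂ S Tr Lv Aw (OneD Dg Fr Nr Tr r) r m K R C (fun s => w e (Qs s)) q p
      (insert k P) c' := by
  classical
  have hK6 : 6 ≤ K := by omega
  have hs : s + 5 < K := by omega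
  have hrV : r ∈ V := by
    rw [← hr]
    exact hq.1.2
  have hcard : (insert k P).card = P.card + 1 := Finset.card_insert_of_notMem hkP
  obtain ⟨i, j, hi, hj, hsep⟩ := hf.splS hK6 hinj hg hgk
  have hsep := hsep s hs
  obtain ⟨z, hz⟩ : ∃ z, z = w g (Qs s) := ⟨_, rfl⟩
  rw [← hz] at hzD hzT hsep
  have hkC : ∀ a < K, C k a ∈ rw r := by
    intro a ha
    rw [← hkr]
    exact hC k hgk.1.1 hgk.1.2 a ha
  -- the new cell
  have main : ∃ c' : Cell α, CInv (Lv (nd₁ r)) (Lv (nd₂ r)) (rw r) c' ∧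
      CellS (ES S) (Lv (nd₁ r)) (Lv (nd₂ r)) c'.A (OneD Dg Fr Nr Tr r) c'.X c'.T ∧ c'.T ⊆ Tr r ∧
      (∀ s, s + 5 < K → NestI (ES S) (Lv (nd₁ r)) (Lv (nd₂ r)) c'.A (OneD Dg Fr Nr Tr r) c'.X c'.T
        (Aw r (w e (Qs s))) (w e (Qs s))) ∧ c'.X ⊆ c.X ∧
      (∀ a, 5 * (P.card + 1) ≤ a → a + 5 * (P.card + 1) < K → C q a ∈ c'.X ∧ C p a ∈ c'.X) ∧
      (C k (s + i) ∉ c'.X ∨ C k (s + j) ∉ c'.X) := by
    by_cases hcon : ∃ x ∈ c.X, ∃ y ∈ c.X, ¬ ES S z x y
    swap
    · push Not at hcon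
      refine ⟨c, hSt.inv, hSt.cs, hSt.sT, hSt.nest, Subset.refl _,
        fun a h1 h2 => hSt.mid a (by omega) (by omega), ?_⟩
      by_contra h1
      push Not at h1
      exact hsep (hcon _ h1.1 _ h1.2)
    have hex : ExC (ES S) (OneD Dg Fr Nr Tr r) c.X c.T z := ⟨hzD, hzT, hcon⟩
    have hB := hSt.cs z hex
    have midp : ∀ a, 5 * P.card ≤ a → a + 5 * P.card < K → C p a ∈ c.X := fun a h1 h2 =>
      (hSt.mid a h1 h2).2
    -- the label `p` is on one side
    have hpc : ∀ a, 5 * P.card ≤ a → a + 5 * P.card < K →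
        (C p a ∈ c.A z ↔ C p (s + 1) ∈ c.A z) := by
      intro a h1 h2
      rw [hz] at hB ⊢
      exact pconst hf hinj hg hp.1.1 hp.1.2 hgp hs hB (fun j hj => midp _ (by omega) (by omega))
        (by omega) (midp a h1 h2)
    -- the label `q` is on the same side
    have split1 : ∀ l, SplF V S m K R C w e l → R l = r → ∃ s, s + 5 < K ∧ ∃ a ≤ 5, ∃ b ≤ 5,
        C l (s + a) ∈ Aw r (w e (Qs s)) ∧ C l (s + b) ∉ Aw r (w e (Qs s)) := by
      intro l hl hlr
      obtain ⟨i', j', hi', hj', h1⟩ := hf.splS hK6 hinj he hl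
      have h0 : (0 : ℕ) + 5 < K := by omega
      have h1 := h1 0 h0
      have hm : ∀ a < K, C l a ∈ rw r := by
        intro a ha
        rw [← hlr]
        exact hC l hl.1.1 hl.1.2 a ha
      have ho : w e (Qs 0) ∈ On := by
        obtain ⟨-, h1, -⟩ := hf.wit e he (Qs 0) (Qs_sub h0) (Qs_card 0)
        rw [hk] at h1
        rcases h1 with h1 | h1 | h1 | h1 | h1 | h1 | h1
        · exact absurd h1.1 (by norm_num)
        · exact absurd h1.1 (by norm_num)
        · exact absurd h1.1 (by norm_num)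
        · exact absurd h1.1 (by norm_num)
        · exact h1.2
        all_goals exact absurd h1.1 (by norm_num)
      have hsee : SeeR rw S (w e (Qs 0)) r := by
        refine ⟨_, hm (0 + i') (by omega), _, hm (0 + j') (by omega), fun h4 => h1 (Or.inl h4), ?_⟩
        by_contra h4
        exact h1 (Or.inr h4)
      rw [h.one_cls _ ho r hrV hsee _ (hm _ (by omega)) _ (hm _ (by omega))] at h1
      by_cases h2 : C l (0 + i') ∈ Aw r (w e (Qs 0))
      · exact ⟨0, h0, i', hi', j', hj', h2, fun h3 => h1 ⟨fun _ => h3, fun _ => h2⟩⟩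
      · refine ⟨0, h0, j', hj', i', hi', ?_, h2⟩
        by_contra h3
        exact h1 ⟨fun h4 => absurd h4 h2, fun h4 => absurd h4 h3⟩
    have homq : HomS K (C q) (fun s => Aw r (w e (Qs s))) := by
      have h1 := (hf.homS he hq.1.1).1
      rw [hr] at h1
      exact h1
    have homp : HomS K (C p) (fun s => Aw r (w e (Qs s))) := by
      have h1 := (hf.homS he hp.1.1).1
      rw [hpr] at h1
      exact h1
    have hqc : ∀ b, 5 * (P.card + 1) ≤ b → b + 5 * (P.card + 1) < K →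
        (C q b ∈ c.A z ↔ C p (s + 1) ∈ c.A z) := by
      intro b h1 h2
      have h3 := nest_side (X := c.X) (A := c.A z) homq homp (split1 q hq hr) (split1 p hp hpr)
        (fun s hs => (hSt.nest s hs).nest hex) (show 5 ≤ b by omega) (by omega)
        (hSt.mid b (by omega) (by omega)).1 (fun a h4 h5 => midp a (by omega) (by omega))
        (fun a h4 h5 => (hpc a (by omega) (by omega)).trans (hpc b (by omega) (by omega)).symm)
      exact h3.trans (hpc b (by omega) (by omega))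
    by_cases hside : C p (s + 1) ∈ c.A z
    · -- the left child
      refine ⟨c.left (Lv (nd₁ r)) (Lv (nd₂ r)) z, hSt.inv.left z, hSt.cs.left hB,
        fun t ht => hSt.sT ht.1, fun s hs => (hSt.nest s hs).left hex, fun x hx => hx.1, ?_, ?_⟩
      · intro a h1 h2
        obtain ⟨h3, h4⟩ := hSt.mid a (by omega) (by omega)
        exact ⟨⟨h3, (hqc a h1 h2).2 hside⟩, h4, (hpc a (by omega) (by omega)).2 hside⟩
      · by_contra h1
        push Not at h1
        rw [hB.one h1.1.1 h1.2.1] at hsep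
        exact hsep ⟨fun _ => h1.2.2, fun _ => h1.1.2⟩
    · -- the right child
      refine ⟨c.right (Lv (nd₁ r)) (Lv (nd₂ r)) z, hSt.inv.right z, hSt.cs.right hB hcon,
        fun t ht => hSt.sT ht.1, fun s hs => (hSt.nest s hs).right hex, fun x hx => hx.1, ?_, ?_⟩
      · intro a h1 h2
        obtain ⟨h3, h4⟩ := hSt.mid a (by omega) (by omega)
        exact ⟨⟨h3, fun h5 => hside ((hqc a h1 h2).1 h5)⟩, h4,
          fun h5 => hside ((hpc a (by omega) (by omega)).1 h5)⟩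
      · by_contra h1
        push Not at h1
        rw [hB.one h1.1.1 h1.2.1] at hsep
        exact hsep ⟨fun h2 => absurd h2 h1.1.2, fun h2 => absurd h2 h1.2.2⟩
  obtain ⟨c', h1, h2, h3, h4, h5, h6, h7⟩ := main
  refine ⟨c', h1, h2, h3, h4, ?_, ?_, ?_⟩
  · intro a
    rw [hcard]
    exact h6 a
  · intro l hl
    rw [hcard]
    rcases Finset.mem_insert.1 hl with rfl | hl
    · rcases h7 with h7 | h7
      · exact ⟨s + i, by omega, by omega, h7⟩
      · exact ⟨s + j, by omega, by omega, h7⟩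
    · obtain ⟨a, g1, g2, g3⟩ := hSt.lost l hl
      exact ⟨a, by omega, by omega, fun h8 => g3 (h5 h8)⟩
  · intro l hl
    rcases Finset.mem_insert.1 hl with rfl | hl
    · exact ⟨hgk.1.1, hkr⟩
    · exact hSt.lab l hl

/-- **LEMMA ONE** = the hypothesis `hO` of `LabFam.maximal`. -/
theorem LabFam.one_row
    (hf : LabFam V nd₁ nd₂ S Dg Fr On Dt Nr Tr Lv Aw ct m K R C γ w ki kj kk)
    (hK : 30 * m + 60 ≤ K) (hC : ∀ i < m, R i ∈ V → ∀ a < K, C i a ∈ rw (R i))
    (hinj : ∀ k < m, ∀ a < K, ∀ b < K, C k a = C k b → a = b)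
    (h : LabFacts3 rw V nd₁ nd₂ S Dg Fr On Dt Nr Tr Tu Lv Aw Au B lg oe fr r₀ ct) :
    ∀ q p, OneR V S m K R C γ w kk q p →
      (∃ c, Relation.ReflTransGen (C0G (SameG R (SameK γ kk) (SplF V S m K R C w))
        (PairG (FarK γ kk) (SplF V S m K R C w))
        (fun y => PairG (NearK nd₁ nd₂ R γ ki kk y) (SplF V S m K R C w))) q c ∧
        TouG (PairG (FarK γ kk) (SplF V S m K R C w))
          (fun y => PairG (NearK nd₁ nd₂ R γ ki kk y) (SplF V S m K R C w)) c) →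
      Relation.ReflTransGen (C0G (SameG R (SameK γ kk) (SplF V S m K R C w))
        (PairG (FarK γ kk) (SplF V S m K R C w))
        (fun y => PairG (NearK nd₁ nd₂ R γ ki kk y) (SplF V S m K R C w))) q p := by
  classical
  rintro q p ⟨e, he, hk, hq, hp⟩ ⟨c₁, hqc, hc₁⟩
  by_contra hno
  have hK6 : 6 ≤ K := by omega
  obtain ⟨Sm, hSm⟩ : ∃ Sm : ℕ → ℕ → Prop, Sm = SameG R (SameK γ kk) (SplF V S m K R C w) :=
    ⟨_, rfl⟩
  rw [← hSm] at hqc hno
  have hSs : ∀ i j, Sm i j → Sm j i := by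
    intro i j h1
    rw [hSm] at h1 ⊢
    obtain ⟨h1, e, h2, h3, h4⟩ := h1
    exact ⟨h1.symm, e, h2, h4, h3⟩
  obtain ⟨l, hl, hlq⟩ := c0_last hqc hc₁ hSs
  obtain ⟨r, hr⟩ : ∃ r, r = R q := ⟨_, rfl⟩
  have hrV : r ∈ V := by
    rw [hr]
    exact hq.1.2
  have h0K : (0 : ℕ) + 5 < K := by omega
  -- the row of `p`
  have hpr : R p = r := by
    have ho : w e (Qs 0) ∈ On := by
      obtain ⟨-, h1, -⟩ := hf.wit e he (Qs 0) (Qs_sub h0K) (Qs_card 0)
      rw [hk] at h1
      rcases h1 with h1 | h1 | h1 | h1 | h1 | h1 | h1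
      · exact absurd h1.1 (by norm_num)
      · exact absurd h1.1 (by norm_num)
      · exact absurd h1.1 (by norm_num)
      · exact absurd h1.1 (by norm_num)
      · exact h1.2
      all_goals exact absurd h1.1 (by norm_num)
    have hrow : ∀ k, SplF V S m K R C w e k → R k = r₀ (w e (Qs 0)) := by
      intro k hs
      obtain ⟨i, j, hi, hj, h1⟩ := hf.splS hK6 hinj he hs
      have h1 := h1 0 h0K
      refine h.one_see _ (Or.inl ho) _ hs.1.2 ⟨_, hC k hs.1.1 hs.1.2 (0 + i) (by omega), _,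
        hC k hs.1.1 hs.1.2 (0 + j) (by omega), fun h2 => h1 (Or.inl h2), ?_⟩
      by_contra h2
      exact h1 (Or.inr h2)
    rw [hr, hrow p hp, hrow q hq]
  have hsymp : ∀ a b, Relation.ReflTransGen Sm a b → Relation.ReflTransGen Sm b a := by
    intro a b h1
    induction h1 with
    | refl => exact Relation.ReflTransGen.refl
    | tail _ h3 ih => exact Relation.ReflTransGen.head (hSs _ _ h3) ih
  -- labels of the path
  have hrow : ∀ k, Relation.ReflTransGen Sm l k → R k = R l := by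
    intro k h1
    induction h1 with
    | refl => rfl
    | @tail a b _ h2 ih =>
      rw [hSm] at h2
      exact h2.1.symm.trans ih
  have hlr : R l = r := by
    rw [hr]
    exact (hrow q hlq).symm
  have hpath : ∀ k, Relation.ReflTransGen Sm l k →
      Relation.ReflTransGen (C0G Sm (PairG (FarK γ kk) (SplF V S m K R C w))
        (fun y => PairG (NearK nd₁ nd₂ R γ ki kk y) (SplF V S m K R C w))) q k := by
    intro k h1
    have h2 : Relation.ReflTransGen Sm q l := hsymp _ _ hlq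
    exact Relation.ReflTransGen.mono (fun a b h3 => Or.inl h3) _ _ (h2.trans h1)
  -- the rung family at `l`
  obtain ⟨e₀, he₀, hkind, hs₀, hedge⟩ : ∃ e₀ ∈ γ, (FarK γ kk e₀ ∨ ∃ y, NearK nd₁ nd₂ R γ ki kk y e₀) ∧
      SplF V S m K R C w e₀ l ∧ ∀ k, SplF V S m K R C w e₀ k →
        C0G Sm (PairG (FarK γ kk) (SplF V S m K R C w))
          (fun y => PairG (NearK nd₁ nd₂ R γ ki kk y) (SplF V S m K R C w)) l k := by
    rcases hl with ⟨j, e₀, h1, h2, -⟩ | ⟨y, j, e₀, h1, h2, -⟩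
    · exact ⟨e₀, h1.1, Or.inl h1, h2, fun k h3 => Or.inr (Or.inr ⟨e₀, h1, h2, h3⟩)⟩
    · exact ⟨e₀, h1.1, Or.inr ⟨y, h1⟩, h2, fun k h3 => Or.inr (Or.inl ⟨y, e₀, h1, h2, h3⟩)⟩
  have rung : ∀ s, s + 5 < K → w e₀ (Qs s) ∈ OneD Dg Fr Nr Tr r ∧
      PWitB (ES S) (Lv (nd₁ r)) (Lv (nd₂ r)) (Aw r) (rw r) (Tr r) (w e₀ (Qs s)) := by
    intro s hs
    have hz : w e₀ (Qs s) ∈ Fr ∨ ∃ u, w e₀ (Qs s) ∈ Nr u := by
      rcases hkind with h1 | ⟨y, h1⟩
      · exact Or.inl (hf.mem_far h1 (Qs_sub hs) (Qs_card s))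
      · exact Or.inr ⟨y, hf.mem_near h1 (Qs_sub hs) (Qs_card s)⟩
    have hsee : SeeR rw S (w e₀ (Qs s)) r := by
      obtain ⟨i, j, hi, hj, h1⟩ := hf.splS hK6 hinj he₀ hs₀
      have h1 := h1 s hs
      rw [← hlr]
      refine ⟨_, hC l hs₀.1.1 hs₀.1.2 (s + i) (by omega), _, hC l hs₀.1.1 hs₀.1.2 (s + j) (by omega),
        fun h2 => h1 (Or.inl h2), ?_⟩
      by_contra h2
      exact h1 (Or.inr h2)
    refine ⟨⟨(hf.wit e₀ he₀ (Qs s) (Qs_sub hs) (Qs_card s)).1, ?_⟩, h.wB r hrV _ hz hsee⟩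
    rcases hz with h1 | h1
    exacts [Or.inl h1, Or.inr (Or.inl h1)]
  -- a maximal state
  obtain ⟨F, hF⟩ : ∃ F : Finset (Finset ℕ), F = (Finset.range m).powerset.filter fun P =>
      ∃ c, OneSt rw nd₁ nd₂ S Tr Lv Aw (OneD Dg Fr Nr Tr r) r m K R C (fun s => w e (Qs s)) q p P c :=
    ⟨_, rfl⟩
  have memF : ∀ P, P ∈ F ↔ P ⊆ Finset.range m ∧ ∃ c, OneSt rw nd₁ nd₂ S Tr Lv Aw
      (OneD Dg Fr Nr Tr r) r m K R C (fun s => w e (Qs s)) q p P c := by
    intro P
    rw [hF, Finset.mem_filter, Finset.mem_powerset]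
  have hFne : F.Nonempty := ⟨∅, (memF _).2 ⟨Finset.empty_subset _, _,
    OneSt.root h hf hK6 hC hinj he hk hq hp hr.symm hpr⟩⟩
  obtain ⟨P, hPF, hPmax⟩ := Finset.exists_max_image F Finset.card hFne
  obtain ⟨hPm, c, hSt⟩ := (memF P).1 hPF
  have hPc : P.card ≤ m := by
    have h1 := Finset.card_le_card hPm
    rwa [Finset.card_range] at h1
  -- the step
  have hstep : ∀ g ∈ γ, ¬ SplF V S m K R C w g p → ∀ k, SplF V S m K R C w g k → R k = r →
      ∀ s, K ≤ 2 * s + 12 * (P.card + 2) → 2 * (s + 5) ≤ K + 12 * (P.card + 2) →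
      w g (Qs s) ∈ OneD Dg Fr Nr Tr r → w g (Qs s) ∉ c.T → k ∈ P := by
    intro g hg hgp k hgk hkr s hs1 hs2 hzD hzT
    by_contra hkP
    have h1 : insert k P ⊆ Finset.range m :=
      Finset.insert_subset (Finset.mem_range.2 hgk.1.1) hPm
    have h2 := Finset.card_le_card h1
    rw [Finset.card_insert_of_notMem hkP, Finset.card_range] at h2
    obtain ⟨c', hc'⟩ := hSt.step h hf hK hC hinj he hk hq hp hr.symm hpr hg hgp hgk hkr hkP
      (by omega) hs1 hs2 hzD hzT
    have h3 := hPmax _ ((memF _).2 ⟨h1, c', hc'⟩)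
    rw [Finset.card_insert_of_notMem hkP] at h3
    omega
  have hlP : l ∈ P := by
    have hs : K / 2 + 5 < K := by omega
    refine hstep e₀ he₀ ?_ l hs₀ hlr (K / 2) (by omega) (by omega) (rung _ hs).1 ?_
    · intro h1
      exact hno ((hpath l Relation.ReflTransGen.refl).tail (hedge p h1))
    · intro h1
      obtain ⟨N, p', q', hS, -⟩ := (rung _ hs).2
      exact hS.zT (hSt.sT h1)
  have hall : ∀ k, Relation.ReflTransGen Sm l k → k ∈ P := by
    intro k h1
    induction h1 with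
    | refl => exact hlP
    | @tail k k' hlk hkk ih =>
      obtain ⟨a, ha1, ha2, haX⟩ := hSt.lost k ih
      obtain ⟨hkm, hkr⟩ := hSt.lab k ih
      have h2 := hkk
      rw [hSm] at h2
      obtain ⟨hRR, g, hg, hgk, hgk'⟩ := h2
      obtain ⟨i, j, hi, hj, hsep⟩ := hf.splS hK6 hinj hg.1 hgk
      have hkC : ∀ b < K, C k b ∈ rw r := by
        intro b hb
        rw [← hkr]
        exact hC k hgk.1.1 hgk.1.2 b hb
      have hT : ∀ s, s + 5 < K → w g (Qs s) ∈ Tr r := by
        intro s hs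
        have h3 := hf.mem_same hg (Qs_sub hs) (Qs_card s)
        have h4 := (hf.ran g hg.1).2.1
        have h5 := hsep s hs
        have h6 : SeeR rw S (w g (Qs s)) r := by
          refine ⟨_, hkC (s + i) (by omega), _, hkC (s + j) (by omega), fun h7 => h5 (Or.inl h7), ?_⟩
          by_contra h7
          exact h5 (Or.inr h7)
        have h7 := h.same_see _ h4.2 _ h3 _ hrV h6
        rw [h7]
        exact h3
      have hD : ∀ s, s + 5 < K → w g (Qs s) ∈ OneD Dg Fr Nr Tr r := fun s hs =>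
        ⟨(hf.wit g hg.1 (Qs s) (Qs_sub hs) (Qs_card s)).1, Or.inr (Or.inr (hT s hs))⟩
      have hgp : ¬ SplF V S m K R C w g p := by
        intro h3
        refine hno (((hpath k hlk).tail (Or.inl hkk)).tail (Or.inl ?_))
        rw [hSm]
        exact ⟨by rw [← hRR, hkr, hpr], g, hg, hgk', h3⟩
      have hkr' : R k' = r := by rw [← hRR, hkr]
      obtain ⟨hom1, hom2, hom3⟩ := hf.homS hg.1 (k := k) hkm
      rw [hkr] at hom2 hom3
      have hB := (rung 0 h0K).2
      have haK : a < K := by omega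
      by_cases hLf : C k a ∈ c.Lf
      · -- the lost tile is on the left
        obtain ⟨i', hi', hi2⟩ : ∃ i' ≤ 5, C k (0 + i') ∉ Lv (nd₁ r) (w g (Qs 0)) := by
          by_contra h3
          push Not at h3
          exact hsep 0 h0K (hB.lcls (hT 0 h0K) (hkC _ (by omega)) (hkC _ (by omega)) (h3 i hi)
            (h3 j hj))
        obtain ⟨v, hv⟩ := hom2
        rw [hv 0 h0K _ (by omega), spos_add hi'] at hi2
        have hs : a - i' + 5 < K := by omega
        refine hstep g hg.1 hgp k' hgk' hkr' (a - i') (by omega) (by omega) (hD _ hs) ?_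
        intro h3
        have h4 := hSt.inv.tl _ h3 _ hLf
        rw [hv _ hs _ haK, spos_sub hi' (by omega)] at h4
        exact hi2 h4
      · obtain ⟨i', hi', hi2⟩ : ∃ i' ≤ 5, C k (0 + i') ∉ Lv (nd₂ r) (w g (Qs 0)) := by
          by_contra h3
          push Not at h3
          exact hsep 0 h0K (hB.rcls (hT 0 h0K) (hkC _ (by omega)) (hkC _ (by omega)) (h3 i hi)
            (h3 j hj))
        obtain ⟨v, hv⟩ := hom3
        rw [hv 0 h0K _ (by omega), spos_add hi'] at hi2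
        have hs : a - i' + 5 < K := by omega
        refine hstep g hg.1 hgp k' hgk' hkr' (a - i') (by omega) (by omega) (hD _ hs) ?_
        intro h3
        have h4 := hSt.inv.tr _ h3 _ (hkC a haK) hLf haX
        rw [hv _ hs _ haK, spos_sub hi' (by omega)] at h4
        exact hi2 h4
  obtain ⟨a, ha1, ha2, haX⟩ := hSt.lost q (hall q hlq)
  exact haX (hSt.mid a (by omega) (by omega)).1

end

end TST
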