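import Pool.Agent.TST.LabelS3
import Pool.Agent.TST.OneWalk

/-!
# The label level, without hypotheses (T-star, row R5)

`oneStmt` = LEMMA ONE, `labelStmt3` = the label level.
-/

set_option autoImplicit false

open Set

namespace TST

universe u v w

/-- **LEMMA ONE** -/
theorem oneStmt : OneStmt.{u, v, w} := by
  intro m
  refine ⟨30 * m + 60, ?_⟩
  intro K hK α β ν rw V nd₁ nd₂ S Dg Fr On Dt Nr Tr Tu Lv Aw Au B lg oe fr r₀ ct R C γ w ki kj kk h
    hf hC hinj
  exact hf.one_row hK hC hinj h

/-- **THE LABEL LEVEL** -/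
theorem labelStmt3 : LabelStmt3.{u, v, w} := labelStmt3_of oneStmt

end TST
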