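import Pool.Agent.TST.PassE54

/-!
# Row R8 of T-star: LIFT from two passes (helper54)
-/

set_option autoImplicit false

open Set BIC BICS CWL
open scoped Matroid

namespace TSH

universe u

open Mdl Mdj EN Gad TST EN.Wall DA

/-! ### The bad vertices -/

/-- good vertices: deep inside of the small square, off the lines, far from `V` -/
def GdV (a₂ w₂ Λ : ℕ) (Pt V : Finset (ℕ × ℕ)) (v : ℕ × ℕ) : Prop :=
  (a₂ + Λ ≤ v.1 ∧ v.1 + Λ ≤ a₂ + w₂ ∧ a₂ + Λ ≤ v.2 ∧ v.2 + Λ ≤ a₂ + w₂) ∧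
    OffL Λ Pt v ∧ ∀ v' ∈ V, Λ ≤ sd v v'

open Classical in
/-- the bad vertices of the wall -/
noncomputable def BdF (w a₂ w₂ Λ : ℕ) (Pt V : Finset (ℕ × ℕ)) : Finset (ℕ × ℕ) :=
  (Finset.range (w + 1) ×ˢ Finset.range (w + 1)).filter fun v => ¬ GdV a₂ w₂ Λ Pt V v

/-- the number of vertices of the wall outside of the inner square -/
lemma card_out {w a n₀ m : ℕ} {R : ℕ → Bool × ℕ × ℕ} {Zq : Set (Bool × ℕ × ℕ)}
    (hw : 1 ≤ w) (hcov : ∀ r ∈ Seg w, ∃ i < m, R i = r) {X : Finset (ℕ × ℕ)}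
    (hX : ∀ v ∈ X, v.1 ≤ w ∧ v.2 ≤ w ∧ v ∉ Box a n₀) :
    X.card ≤ 2 * (LtL m R (ZT w a n₀ Zq)).card := by
  classical
  have key : ∀ v ∈ X, ∃ s ∈ Seg w, segNear s = v ∨ segFar s = v := by
    intro v hv
    obtain ⟨h1, h2, _⟩ := hX v hv
    by_cases h3 : v.1 + 1 ≤ w
    · exact row_at h3 h2
    · obtain ⟨s, hs, h4⟩ := seg_of_wadj (w := w) (p := (v.1 - 1, v.2)) (q := v)
        (Or.inl ⟨rfl, Or.inl (by simp only; omega)⟩)
        (by rw [Gad.mem_rct]; simp only; omega) (by rw [Gad.mem_rct]; omega)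
      refine ⟨s, hs, ?_⟩
      unfold srow at h4
      rw [Sym2.eq_iff] at h4
      rcases h4 with h4 | h4
      · exact Or.inr h4.2
      · exact Or.inl h4.1
  have h1 : X ⊆ ((LtL m R (ZT w a n₀ Zq)).image fun i => segNear (R i)) ∪
      (LtL m R (ZT w a n₀ Zq)).image fun i => segFar (R i) := by
    intro v hv
    obtain ⟨s, hs, h2⟩ := key v hv
    obtain ⟨i, hi, rfl⟩ := hcov s hs
    have h3 : i ∈ LtL m R (ZT w a n₀ Zq) := by
      unfold LtL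
      rw [Finset.mem_filter, Finset.mem_range]
      refine ⟨hi, Or.inl ⟨hs, Or.inr fun h4 => (hX v hv).2.2 ?_⟩⟩
      rcases h2 with h2 | h2
      · exact h2 ▸ h4.1
      · exact h2 ▸ h4.2
    rw [Finset.mem_union, Finset.mem_image, Finset.mem_image]
    rcases h2 with h2 | h2
    · exact Or.inl ⟨i, h3, h2⟩
    · exact Or.inr ⟨i, h3, h2⟩
  refine (Finset.card_le_card h1).trans ((Finset.card_union_le _ _).trans ?_)
  have h2 := Finset.card_image_le (s := LtL m R (ZT w a n₀ Zq)) (f := fun i => segNear (R i))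
  have h3 := Finset.card_image_le (s := LtL m R (ZT w a n₀ Zq)) (f := fun i => segFar (R i))
  omega

/-- the card of a strip -/
lemma card_strip {w x₀ k : ℕ} : ((Finset.Ico x₀ (x₀ + k)) ×ˢ Finset.range (w + 1)).card =
    k * (w + 1) := by
  rw [Finset.card_product, Nat.card_Ico, Finset.card_range]
  congr 1
  omega

lemma card_strip' {w x₀ k : ℕ} : (Finset.range (w + 1) ×ˢ (Finset.Ico x₀ (x₀ + k))).card =
    k * (w + 1) := by
  rw [Finset.card_product, Nat.card_Ico, Finset.card_range, mul_comm]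
  congr 1
  omega

/-- **The number of bad vertices.** -/
theorem card_BdF {w a n₀ m a₂ w₂ Λ As : ℕ} {R : ℕ → Bool × ℕ × ℕ} {Zq : Set (Bool × ℕ × ℕ)}
    {Pt V : Finset (ℕ × ℕ)}
    (hw : 1 ≤ w) (hcov : ∀ r ∈ Seg w, ∃ i < m, R i = r) (h1 : a₂ ≤ a + As)
    (h2 : a + (2 * n₀ - 1) ≤ a₂ + w₂ + As) :
    (BdF w a₂ w₂ Λ Pt V).card ≤ 2 * (LtL m R (ZT w a n₀ Zq)).card +
      4 * ((As + Λ + 1) * (w + 1)) + Pt.card * (2 * ((2 * Λ + 1) * (w + 1))) +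
      V.card * ((2 * Λ + 1) * (2 * Λ + 1)) := by
  classical
  obtain ⟨X, hX⟩ : ∃ X : Finset (ℕ × ℕ), X = (Finset.range (w + 1) ×ˢ Finset.range (w + 1)).filter
    fun v => v ∉ Box a n₀ := ⟨_, rfl⟩
  have hXc : X.card ≤ 2 * (LtL m R (ZT w a n₀ Zq)).card := by
    refine card_out hw hcov fun v hv => ?_
    rw [hX, Finset.mem_filter, Finset.mem_product, Finset.mem_range, Finset.mem_range] at hv
    exact ⟨by omega, by omega, hv.2⟩
  obtain ⟨k, hk⟩ : ∃ k, k = As + Λ + 1 := ⟨_, rfl⟩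
  obtain ⟨b, hb⟩ : ∃ b, b = a + (2 * n₀ - 1) := ⟨_, rfl⟩
  obtain ⟨l, hl⟩ : ∃ l, l = 2 * Λ + 1 := ⟨_, rfl⟩
  obtain ⟨Y, hY⟩ : ∃ Y : Finset (ℕ × ℕ), Y =
    ((Finset.Ico a (a + k)) ×ˢ Finset.range (w + 1)) ∪
    ((Finset.Ico (b + 1 - k) (b + 1 - k + k)) ×ˢ Finset.range (w + 1)) ∪
    ((Finset.range (w + 1)) ×ˢ (Finset.Ico a (a + k))) ∪
    ((Finset.range (w + 1)) ×ˢ (Finset.Ico (b + 1 - k) (b + 1 - k + k))) := ⟨_, rfl⟩
  have hYc : Y.card ≤ 4 * (k * (w + 1)) := by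
    rw [hY]
    refine (Finset.card_union_le _ _).trans ?_
    refine (Nat.add_le_add_right (Finset.card_union_le _ _) _).trans ?_
    refine (Nat.add_le_add_right (Nat.add_le_add_right (Finset.card_union_le _ _) _) _).trans ?_
    rw [card_strip, card_strip, card_strip', card_strip']
    omega
  obtain ⟨Ln, hLn⟩ : ∃ Ln : Finset (ℕ × ℕ), Ln = Pt.biUnion fun o =>
    ((Finset.Ico (o.1 - Λ) (o.1 - Λ + l)) ×ˢ Finset.range (w + 1)) ∪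
    ((Finset.range (w + 1)) ×ˢ (Finset.Ico (o.2 - Λ) (o.2 - Λ + l))) := ⟨_, rfl⟩
  have hLc : Ln.card ≤ Pt.card * (2 * (l * (w + 1))) := by
    rw [hLn]
    refine Finset.card_biUnion_le_card_mul _ _ _ fun o _ => ?_
    refine (Finset.card_union_le _ _).trans ?_
    rw [card_strip, card_strip']
    omega
  obtain ⟨Bl, hBl⟩ : ∃ Bl : Finset (ℕ × ℕ), Bl = V.biUnion fun v =>
    (Finset.Ico (v.1 - Λ) (v.1 - Λ + l)) ×ˢ (Finset.Ico (v.2 - Λ) (v.2 - Λ + l)) := ⟨_, rfl⟩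
  have hBc : Bl.card ≤ V.card * (l * l) := by
    rw [hBl]
    refine Finset.card_biUnion_le_card_mul _ _ _ fun o _ => ?_
    rw [Finset.card_product, Nat.card_Ico, Nat.card_Ico]
    exact Nat.mul_le_mul (by omega) (by omega)
  have hsub : BdF w a₂ w₂ Λ Pt V ⊆ X ∪ Y ∪ Ln ∪ Bl := by
    intro v hv
    unfold BdF at hv
    rw [Finset.mem_filter, Finset.mem_product, Finset.mem_range, Finset.mem_range] at hv
    obtain ⟨⟨g1, g2⟩, g3⟩ := hv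
    by_contra hcon
    rw [Finset.mem_union, Finset.mem_union, Finset.mem_union] at hcon
    push Not at hcon
    obtain ⟨⟨⟨c1, c2⟩, c3⟩, c4⟩ := hcon
    have hbox : v ∈ Box a n₀ := by
      by_contra h
      refine c1 ?_
      rw [hX, Finset.mem_filter, Finset.mem_product, Finset.mem_range, Finset.mem_range]
      exact ⟨⟨g1, g2⟩, h⟩
    simp only [Box, mem_ofPred_eq] at hbox
    rw [← hb] at hbox
    rw [hY] at c2
    simp only [Finset.mem_union, Finset.mem_product, Finset.mem_Ico, Finset.mem_range] at c2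
    refine g3 ⟨by omega, fun o ho => ?_, fun v' hv' => ?_⟩
    · rw [hLn, Finset.mem_biUnion] at c3
      push Not at c3
      have := c3 o ho
      simp only [Finset.mem_union, Finset.mem_product, Finset.mem_Ico, Finset.mem_range] at this
      omega
    · rw [hBl, Finset.mem_biUnion] at c4
      push Not at c4
      have := c4 v' hv'
      simp only [Finset.mem_product, Finset.mem_Ico] at this
      by_contra h5
      push Not at h5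
      have h6 : sd v v' ≤ Λ := by omega
      rw [sd_le] at h6
      omega
  rw [← hk, ← hl]
  refine (Finset.card_le_card hsub).trans ?_
  have t1 := Finset.card_union_le (X ∪ Y ∪ Ln) Bl
  have t2 := Finset.card_union_le (X ∪ Y) Ln
  have t3 := Finset.card_union_le X Y
  omega

/-! ### The two passes -/

/-- conflicts of fewer tiles -/
lemma unI_mono {α : Type u} {m N : ℕ} {R : ℕ → Bool × ℕ × ℕ} {c : ℕ → ℕ → α} {I J : Finset ℕ}
    {Q : Set (Bool × ℕ × ℕ)} (h : I ⊆ J) : UnI m N R c J Q ⊆ UnI m N R c I Q := by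
  rintro x ⟨i, hi, hQ, b, hb, hbJ, rfl⟩
  exact ⟨i, hi, hQ, b, hb, fun h1 => hbJ (h h1), rfl⟩

/-- **The dichotomy**: an element with two own vertices off the bad vertices is an element of one
pass. -/
lemma twoB_pass {α : Type u} {M : Matroid α} {S : Set α} {row : α → Sym2 (ℕ × ℕ)}
    {w D₀ a₂ w₂ Λ Λ' : ℕ} {Hs₀ Pt V V₀ V₁ : Finset (ℕ × ℕ)} {z : α} (hΛ : Λ ≤ Λ') (h3 : 3 ≤ Λ')
    (hD : 1 ≤ D₀) (hV : V = V₀ ∪ V₁) (h2 : TwoL M S row w D₀ Hs₀ z)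
    (hreg : ∀ v, GdV a₂ w₂ Λ' Pt V v → RegV w D₀ Hs₀ v)
    (hz : TwoB M S row w D₀ Hs₀ (BdF w a₂ w₂ Λ' Pt V : Set (ℕ × ℕ)) z) :
    PassT M S row w D₀ Hs₀ a₂ w₂ 0 Λ Λ Pt V₀ z ∨ PassT M S row w D₀ Hs₀ a₂ w₂ 1 Λ Λ Pt V₁ z := by
  classical
  obtain ⟨⟨N, hN, hNB, hNs⟩, c₀, hc₀, hW₀, v, v', hne, hv, hvr, hv', hvr'⟩ := hz
  obtain ⟨N', hN'⟩ : ∃ N' : Finset (ℕ × ℕ), N' = N.filter fun v => v.1 ≤ w ∧ v.2 ≤ w := ⟨_, rfl⟩
  have hdeep : ∀ v, RegV w D₀ Hs₀ v → v.1 ≤ w ∧ v.2 ≤ w := by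
    intro v hv
    have h4 := hv.1
    unfold DeepR at h4
    simp only at h4
    omega
  have hNs' : ∀ c, c ⊆ S → WallE c row w ∅ → ∀ v ∈ LocR M S row c z, RegV w D₀ Hs₀ v → v ∈ N' := by
    intro c hc hW v hv hvr
    rw [hN', Finset.mem_filter]
    exact ⟨hNs c hc hW v hv hvr, hdeep v hvr⟩
  have hN8 : N'.card ≤ 8 := by
    rw [hN']
    exact (Finset.card_filter_le _ _).trans hN
  have hgood : ∀ v ∈ N', GdV a₂ w₂ Λ' Pt V v := by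
    intro v hv
    rw [hN', Finset.mem_filter] at hv
    by_contra hcon
    refine hNB v hv.1 ?_
    unfold BdF
    rw [Finset.mem_coe, Finset.mem_filter, Finset.mem_product, Finset.mem_range, Finset.mem_range]
    exact ⟨by omega, hcon⟩
  have hgd : ∀ V' ⊆ V, ∀ v ∈ N', (a₂ + Λ ≤ v.1 ∧ v.1 + Λ ≤ a₂ + w₂ ∧ a₂ + Λ ≤ v.2 ∧
      v.2 + Λ ≤ a₂ + w₂) ∧ OffL Λ Pt v ∧ ∀ v' ∈ V', Λ ≤ sd v v' := by
    intro V' hV' v hv
    obtain ⟨g1, g2, g3⟩ := hgood v hv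
    refine ⟨by omega, fun o ho => ?_, fun v' hv' => ?_⟩
    · have := g2 o ho
      omega
    · have := g3 v' (hV' hv')
      omega
  rcases kd_of (a := a₂) h2 (N := N') (fun v hv => by
    have g1 := hgood v hv
    have g2 := g1.1
    exact ⟨hreg v g1, by omega, by omega⟩) hc₀ hW₀ (hNs' c₀ hc₀ hW₀ v hv hvr)
    (hNs' c₀ hc₀ hW₀ v' hv' hvr') hne hv hv' with hK | hK
  · exact Or.inl ⟨N', hN8, hgd V₀ (by rw [hV]; exact Finset.subset_union_left), hNs', hK⟩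
  · exact Or.inr ⟨N', hN8, hgd V₁ (by rw [hV]; exact Finset.subset_union_right), hNs', hK⟩

/-- **ROW R8 (LIFT).** -/
theorem liftRow (k κ : ℕ) : ∃ ρ, LiftRow.{u} k κ ρ := by
  classical
  obtain ⟨ρ, Cv, hP⟩ := liftPass.{u} k κ
  refine ⟨2 * ρ, ?_⟩
  intro β D₀ δ₀ D₁ δ₁ p
  refine ⟨D₀, ?_⟩
  intro r hr Cg
  obtain ⟨Λ, hP⟩ := hP Cg
  obtain ⟨Λ', hΛ'⟩ : ∃ Λ', Λ' = Λ + Cg + 10 := ⟨_, rfl⟩
  obtain ⟨As, ws, hSm⟩ := exists_small (Cg + κ) Λ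
  obtain ⟨l, hl⟩ : ∃ l, l = 2 * Λ' + 1 := ⟨_, rfl⟩
  obtain ⟨A₁, hA₁⟩ : ∃ A₁, A₁ = 4 * (As + Λ' + 1) + (Cg + κ) * (2 * l) := ⟨_, rfl⟩
  obtain ⟨A₂, hA₂⟩ : ∃ A₂, A₂ = 2 + 2 * Cv * (l * l) := ⟨_, rfl⟩
  refine ⟨2 * A₁ + A₂, 2 * (ws + 2 * As + Λ) + 10, ?_⟩
  intro wmax mmax n
  obtain ⟨n₁, hP1⟩ := hP wmax (max n (ρ + 1)) (le_max_right _ _)
  obtain ⟨n₂, hP0⟩ := hP wmax (max n₁ (ρ + 1)) (le_max_right _ _)
  refine ⟨n₂, ?_⟩
  intro α M _ w s 𝒯 L₁ f₁ e₁ u₁ L₂ f₂ e₂ u₂ D σ N m τ R c Za row Hm Hs₀ Om₁ Hs₁ Om₂ η F P LR₀ a n₀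
    Zq LR hw₁ hwm hmm hu hOc hPc hOP hS hG Tl hTl hTlc
  obtain ⟨Q, rZ, hSq⟩ := hG.sq
  have hside := hS.b.pair.s₁
  have hn₀ := hG.wall.2.2.1
  have haw := hG.wall.2.2.2.1
  have hw4 := hG.wall.2.2.2.2
  have hra := hG.le_a
  have hrw := hG.le_w
  have hrZ := hSq.rZ_le
  have hQc := hSq.Q_le
  have hdp := hSq.deep16
  have hfr := hSq.far24
  -- the kill data
  obtain ⟨Nk, Jk, W, k1, k2, k3, k4, k5, k6, k7, k8, k9, k10⟩ := holK (r := rZ) (Q := Q) hside hn₀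
    haw (fun c hc => by have := hdp c hc; omega) (fun c hc c' hc' hne => by
      have := hfr c hc c' hc' hne
      omega)
  have hK : KDat M w L₁ f₁ u₁ a n₀ rZ Q Nk Jk W := ⟨k1, k2, k3, k4, k5, k6, k7, k8, k9, k10⟩
  -- the small square
  have hPt : (Q ∪ Jk).card ≤ Cg + κ := (Finset.card_union_le _ _).trans (by omega)
  obtain ⟨a₂, w₂, s1, s2, s3, s4, _, s6⟩ := hSm a (a + (2 * n₀ - 1)) (Q ∪ Jk) (by omega) hPt (by
    intro v hv
    rcases Finset.mem_union.1 hv with h | h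
    · have := hdp v h
      omega
    · have := k6 v h
      omega)
  have hB : SBox Λ a n₀ a₂ w₂ (Q ∪ Jk) := ⟨by omega, s1, s2, s6⟩
  -- the first pass
  rcases hP0 M w s 𝒯 L₁ f₁ e₁ u₁ L₂ f₂ e₂ u₂ D σ N m τ R c Za row β D₀ δ₀ D₁ δ₁ Hm Hs₀ Om₁ Hs₁ Om₂
    r η F P LR₀ a n₀ Zq LR rZ Q Nk Jk W a₂ w₂ 0 Tl hwm hu hOP hr hS hG hSq hK hB (by omega) hTl hTlc
    with hU | ⟨B₀, hB₀, hB₀c, V₀, hV₀, hL₀⟩
  · exact Or.inl hU
  -- the second pass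
  rcases hP1 M w s 𝒯 L₁ f₁ e₁ u₁ L₂ f₂ e₂ u₂ D σ N m τ R c Za row β D₀ δ₀ D₁ δ₁ Hm Hs₀ Om₁ Hs₁ Om₂
    r η F P LR₀ a n₀ Zq LR rZ Q Nk Jk W a₂ w₂ 1 B₀ hwm hu hOP hr hS hG hSq hK hB le_rfl
    (hB₀.trans hTl) (by rw [hB₀c]; exact le_max_left _ _) with hU | ⟨B₁, hB₁, hB₁c, V₁, hV₁, hL₁⟩
  · exact Or.inl hU
  obtain ⟨I, hI, hIc⟩ := Finset.exists_subset_card_eq (s := B₁) (n := n)
    (by rw [hB₁c]; exact le_max_left _ _)
  refine Or.inr ⟨I, BdF w a₂ w₂ Λ' (Q ∪ Jk) (V₀ ∪ V₁), hI.trans (hB₁.trans hB₀), hIc,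
    ?_, ?_⟩
  · obtain ⟨Lt, hLt⟩ : ∃ Lt, Lt = (LtL m R (ZT w a n₀ Zq)).card := ⟨_, rfl⟩
    have c1 := card_BdF (w := w) (a := a) (n₀ := n₀) (m := m) (a₂ := a₂) (w₂ := w₂) (Λ := Λ')
      (As := As) (R := R) (Zq := Zq) (Pt := Q ∪ Jk) (V := V₀ ∪ V₁) (by omega) hS.cov s3 s4
    have c2 := Finset.card_union_le V₀ V₁
    rw [← hLt] at c1 hV₀ hV₁ ⊢
    rw [← hl] at c1
    have c3 : (Q ∪ Jk).card * (2 * (l * (w + 1))) ≤ (Cg + κ) * (2 * (l * (w + 1))) :=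
      Nat.mul_le_mul_right _ hPt
    have c4 : (V₀ ∪ V₁).card * (l * l) ≤ (2 * Cv * Lt) * (l * l) := by
      refine Nat.mul_le_mul_right _ ?_
      have : 2 * Cv * Lt = Cv * Lt + Cv * Lt := by ring
      omega
    have c5 : 2 * Lt + (2 * Cv * Lt) * (l * l) = A₂ * Lt := by
      rw [hA₂]
      ring
    have c6 : 4 * ((As + Λ' + 1) * (w + 1)) + (Cg + κ) * (2 * (l * (w + 1))) = A₁ * (w + 1) := by
      rw [hA₁]
      ring
    have c7 : A₁ * (w + 1) ≤ A₁ * (2 * w) := Nat.mul_le_mul_left _ (by omega)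
    have c8 : A₁ * (2 * w) + A₂ * Lt ≤ (2 * A₁ + A₂) * (w + Lt) := by
      have : (2 * A₁ + A₂) * (w + Lt) = A₁ * (2 * w) + A₂ * Lt + (2 * A₁ * Lt + A₂ * w) := by ring
      omega
    omega
  · intro X hXS hUX hrX T hTD hT
    have hreg : ∀ v, GdV a₂ w₂ Λ' (Q ∪ Jk) (V₀ ∪ V₁) v → RegV w D₀ Hs₀ v := by
      rintro v ⟨g1, g2, g3⟩
      refine ⟨?_, fun h2 => ?_⟩
      · unfold DeepR
        simp only
        omega
      · rcases hs_bdV hG hS.rnd hOP hSq.eq h2 (by omega) (by omega) with h3 | ⟨c, hc, h3⟩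
        · refine h3 ?_
          simp only [Box, mem_ofPred_eq]
          omega
        · have h4 := g2 c (Finset.mem_union_left _ hc)
          unfold SqN at h3
          omega
    obtain ⟨T₀, hT₀⟩ : ∃ T₀ : Set α, T₀ = {z | z ∈ T ∧
      PassT M (crr L₁ (Seg w)) row w D₀ Hs₀ a₂ w₂ 0 Λ Λ (Q ∪ Jk) V₀ z} := ⟨_, rfl⟩
    obtain ⟨T₁, hT₁⟩ : ∃ T₁ : Set α, T₁ = {z | z ∈ T ∧
      PassT M (crr L₁ (Seg w)) row w D₀ Hs₀ a₂ w₂ 1 Λ Λ (Q ∪ Jk) V₁ z} := ⟨_, rfl⟩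
    have hTT : T ⊆ T₀ ∪ T₁ := by
      intro z hz
      rcases twoB_pass (Λ := Λ) (Λ' := Λ') (by omega) (by omega) (by
        have := hS.rnd.le.1
        omega) rfl (hS.rnd.two z (hTD hz)) hreg (hT z hz) with h | h
      · exact Or.inl (by rw [hT₀]; exact ⟨hz, h⟩)
      · exact Or.inr (by rw [hT₁]; exact ⟨hz, h⟩)
    have q0 := hL₀ X hXS ((unI_mono (hI.trans hB₁)).trans hUX) hrX T₀
      (fun z hz => by rw [hT₀] at hz; exact hTD hz.1) (fun z hz => by rw [hT₀] at hz; exact hz.2)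
    have q1 := hL₁ X hXS ((unI_mono hI).trans hUX) hrX T₁
      (fun z hz => by rw [hT₁] at hz; exact hTD hz.1) (fun z hz => by rw [hT₁] at hz; exact hz.2)
    have q2 := rk_submod M (T₀ ∪ X) (T₁ ∪ X)
    have q3 : rk M (T ∪ X) ≤ rk M (T₀ ∪ X ∪ (T₁ ∪ X)) := by
      refine rk_mono M ?_
      rintro x (hx | hx)
      · rcases hTT hx with h | h
        · exact Or.inl (Or.inl h)
        · exact Or.inr (Or.inl h)
      · exact Or.inl (Or.inr hx)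
    have q4 : rk M X ≤ rk M ((T₀ ∪ X) ∩ (T₁ ∪ X)) :=
      rk_mono M fun x hx => ⟨Or.inr hx, Or.inr hx⟩
    omega

end TSH
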