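import Pool.Agent.TST.TstarAll
import Pool.Agent.TST.LabelS3F
import Pool.Agent.TST.LiftRow54

/-!
# T-star

`tstarD`: T-star for plain grids, from the label level (row R5, `labelStmt3`) and LIFT (row R8,
`liftRow`).
-/

set_option autoImplicit false

namespace TSH

universe u

/-- **T-star for plain grids.** -/
theorem tstarD (k K : ℕ) (hk : 1 ≤ k) : TSK.TStarD.{u} k K :=
  tstarD_of TST.labelStmt3 (fun k κ _ => liftRow k κ) k K hk

end TSH
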