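import Pool.Agent.TST.SGAlphaM

/-!
# alpha of the host with one sheet and without wall (fins host of T-star)
-/

open Set Relation
open scoped Matroid

namespace TST

open BIC Gad EN BICS Mdl

universe u

variable {α : Type u} {X₀ β σ : Type} {M : Matroid α} {W : RW X₀ β} {el : β → ℕ → α} {ln : σ → ℕ}
  {N : ℕ} {T : Strip W (CI ln) N} {Lm : ℕ} {Sf : Set α} {eL : α → Sym2 (HV (OV X₀ β Lm) σ)}
  {Q : Set α} {BQ : Set β} {u : ℕ} {Ed : CI ln → CI ln → Prop} {Rg : Set α}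

/-- without rows there are no outside vertices -/
lemma SG.outV_univ (h : SG M W el T Lm Sf eL Q BQ u Ed Rg) :
    {v | ∃ e ∈ Sh W el T univ Rg eL, Sum.inl v ∈ eL e} = ∅ := by
  rw [Set.eq_empty_iff_forall_notMem]
  rintro v ⟨e, ⟨(⟨r, k, _, hr, _⟩ | ⟨i, k, k1, k2, rfl⟩) | he, _⟩, hv⟩
  · exact hr trivial
  · have h3 := T.lt i
    rw [(h.row _ k (by omega)).2, Sym2.mem_iff] at hv
    rcases hv with hv | hv
    · exact sga_not_inl i k1 (by omega) hv.symm
    · exact sga_not_inl i (by omega) (by omega) hv.symm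
  · obtain ⟨_, i, j, b, _, _, _, _, hee⟩ := h.rg e he
    rw [hee, Sym2.mem_iff] at hv
    rcases hv with hv | hv <;> exact absurd hv (by simp [cv])

/-- **alpha of the fins host.** -/
theorem SG.alphaFin [M.Finite] (h : SG M W el T Lm Sf eL Q BQ u Ed Rg) {s₀ : σ} {len : σ → ℕ}
    (hl0 : len s₀ = ln s₀) (hl : ∀ s, s ≠ s₀ → len s = 0) {E₂ : Set α} {k₁ c : ℕ}
    (hX : ∀ X ⊆ M.E, Disjoint X E₂ → rk M X + rk M (M.E \ X) < rk M M.E + k₁ →
      ∃ Bd : Finset β, Bd.card ≤ c ∧ ∀ r ∉ Bd, ∀ k < W.len r, el r k ∉ X)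
    (hcol : ∃ Rs : Finset β, c < Rs.card ∧ ∀ r ∈ Rs, ∃ i : CI ln, i.1.1 = s₀ ∧ T.R i = r) (e : ℕ) :
    TSK.AlphaA M E₂ (SfQ T Lm BQ Sf eL) eL (hostL (Sh W el T univ Rg eL) eL N len) N k₁
      {v | ∃ e ∈ Sh W el T univ Rg eL, Sum.inl v ∈ eL e} e := by
  classical
  intro X hXE hXd hXr
  obtain ⟨Bd, hBd, hBX⟩ := hX X hXE hXd hXr
  obtain ⟨Rs, hRs, hRi⟩ := hcol
  obtain ⟨r, hr, hrB⟩ : ∃ r ∈ Rs, r ∉ Bd := by
    by_contra hcon
    push Not at hcon
    have := Finset.card_le_card hcon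
    omega
  obtain ⟨i, hi, rfl⟩ := hRi r hr
  have hlt := T.lt i
  obtain ⟨f, hf⟩ : ∃ f : ℕ → HV (OV X₀ β Lm) σ, ∀ k, f k = lab T Lm (W.nd (T.R i) (T.a i + k)) :=
    ⟨_, fun _ => rfl⟩
  obtain ⟨B, hB⟩ : ∃ B, B = ColE W el T i := ⟨_, rfl⟩
  have hadj : ∀ k < 2 * N + T.m i, GAdj B eL (f k) (f (k + 1)) := by
    intro k hk
    refine ⟨el (T.R i) (T.a i + k), ?_, ?_⟩
    · rw [hB]
      exact ⟨_, by omega, by omega, rfl⟩
    · rw [(h.row _ _ (by omega)).2, hf, hf]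
      rfl
  refine ⟨f '' {k | k ≤ 2 * N + T.m i}, B, (finite_le_nat _).image _, ?_, ?_, ?_, ?_, ?_, ?_⟩
  · rw [hB]
    intro e he
    exact h.Sh_offQ (Lost := univ) (fun r hr => absurd trivial hr) (Or.inl (Or.inr ⟨i, he⟩))
  · rw [hB, Set.disjoint_left]
    rintro e ⟨k, k1, k2, rfl⟩ he
    exact hBX _ hrB k (by omega) he
  · rw [hB]
    rintro e ⟨k, k1, k2, rfl⟩
    refine ⟨h.Sh_offQ (Lost := univ) (fun r hr => absurd trivial hr)
      (Or.inl (Or.inr ⟨i, k, k1, k2, rfl⟩)), ?_⟩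
    intro v hv
    rw [(h.row _ k (by omega)).2, Sym2.mem_iff] at hv
    rcases hv with rfl | rfl
    · refine ⟨k - T.a i, ?_, ?_⟩
      · show k - T.a i ≤ 2 * N + T.m i
        omega
      · rw [hf]
        congr 2
        omega
    · refine ⟨k + 1 - T.a i, ?_, ?_⟩
      · show k + 1 - T.a i ≤ 2 * N + T.m i
        omega
      · rw [hf]
        congr 2
        omega
  · exact vconn_path f _ hadj
  · intro s hs
    have hs0 : s = s₀ := by
      by_contra hne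
      have h1 : len s = 0 := hl s hne
      have h2 : 0 < len s := hs
      omega
    subst hs0
    refine ⟨i.1.2, ?_, ?_⟩
    · show i.1.2 < len s
      rw [hl0, ← hi]
      exact i.2
    · intro b b1 b2 b3
      obtain ⟨g1, g2⟩ := idx_mem (T := T) i (b := b) (by omega) (by omega)
      refine ⟨T.idx i b - T.a i, ?_, ?_⟩
      · show T.idx i b - T.a i ≤ 2 * N + T.m i
        omega
      · rw [hf, show T.a i + (T.idx i b - T.a i) = T.idx i b by omega,
          sga_col i b (by omega) (by omega)]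
        show (Sum.inr (i.1.1, i.1.2, b) : HV (OV X₀ β Lm) σ) = _
        rw [hi]
  · rw [h.outV_univ]
    simp

end TST
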