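import Pool.Agent.TST.AlphaR

/-!
# alpha of the host of T-star with missing rows (helper8)

The rows in `Miss` need not be in `Sf`; `Xg` = wall vertices far from the missing rows.
-/

open Set Relation
open scoped Matroid

namespace TST

open BIC Gad EN BICS Mdl

variable {α X₀ β V σ J : Type*}

/-- Core with missing rows: the big side contains the images of all wall vertices in `Xg` but `e₀`
and of all rows outside of `Miss` with both ends in `Xg` but `c + 3 e₀`. -/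
theorem alpha_coreM [Finite β] [Finite X₀] (W : RW X₀ β) (hlen : ∀ r, 1 ≤ W.len r)
    (M : Matroid α) (E₂ Sf : Set α)
    (ends : α → Sym2 (HV V σ)) (H : Host V σ) (N : ℤ) (k₁ c e₀ : ℕ) (ρ : Nd X₀ β → HV V σ)
    (el : β → ℕ → α) (Miss : Set β) (Xg : Set X₀)
    (hrow : ∀ r ∉ Miss, ∀ k < W.len r, ρ (W.nd r k) = ρ (W.nd r (k + 1)) ∨
      (el r k ∈ Sf ∧ ends (el r k) = s(ρ (W.nd r k), ρ (W.nd r (k + 1)))))
    (hX : ∀ X ⊆ M.E, Disjoint X E₂ → rk M X + rk M (M.E \ X) < rk M M.E + k₁ →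
      ∃ Bd : Finset β, Bd.card ≤ c ∧ ∀ r ∉ Bd, r ∉ Miss → ∀ k < W.len r, el r k ∉ X)
    (hwall : ∀ Bd : Finset β, Bd.card ≤ c → ∃ Y : Finset X₀, Y.Nonempty ∧
      (∀ x ∈ Y, ∀ y ∈ Y, ReflTransGen (fun a b => a ∈ Y ∧ b ∈ Y ∧ ∃ r, r ∉ Bd ∧ r ∉ Miss ∧
        ((W.hd r = a ∧ W.tl r = b) ∨ (W.hd r = b ∧ W.tl r = a))) x y) ∧
      {x | x ∉ Y ∧ x ∈ Xg}.ncard ≤ e₀)
    (hdeg : ∀ x, {r | W.hd r = x ∨ W.tl r = x}.ncard ≤ 3)
    (hcol : ∀ s, 0 < H.len s → ∃ Rs : Finset β, c + 3 * e₀ < Rs.card ∧ ∀ r ∈ Rs,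
      (r ∉ Miss ∧ W.hd r ∈ Xg ∧ W.tl r ∈ Xg) ∧ ∃ c' < H.len s, ∀ b : ℤ, -N ≤ b → b ≤ N → b ≠ 0 →
        ∃ k ≤ W.len r, ρ (W.nd r k) = Sum.inr (s, c', b))
    (X : Set α) (hXE : X ⊆ M.E) (hXE₂ : Disjoint X E₂)
    (hXo : rk M X + rk M (M.E \ X) < rk M M.E + k₁) :
    ∃ (VB : Set (HV V σ)) (B : Set α), VB.Finite ∧ B ⊆ Sf ∧ Disjoint B X ∧ B ⊆ ins Sf ends VB ∧
      VConn B ends VB ∧
      (∀ s, 0 < H.len s → ∃ c < H.len s, ∀ b, -N ≤ b → b ≤ N → b ≠ 0 → Sum.inr (s, c, b) ∈ VB) ∧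
      ∃ (Yc : Finset X₀) (Bad : Finset β), Yc.card ≤ e₀ ∧ Bad.card ≤ c + 3 * e₀ ∧
        (∀ x ∈ Xg, x ∉ Yc → ρ (Sum.inl x) ∈ VB) ∧
        ∀ r ∉ Bad, r ∉ Miss → W.hd r ∈ Xg → W.tl r ∈ Xg → ∀ k ≤ W.len r, ρ (W.nd r k) ∈ VB := by
  classical
  have := Fintype.ofFinite β
  have := Fintype.ofFinite X₀
  obtain ⟨Bd, hBd, hBX⟩ := hX X hXE hXE₂ hXo
  obtain ⟨Y, hYne, hYc, hYe⟩ := hwall Bd hBd
  set Yc : Finset X₀ := Finset.univ.filter fun x => x ∉ Y ∧ x ∈ Xg with hYcd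
  have hYcc : Yc.card ≤ e₀ := by
    have h1 : {x | x ∉ Y ∧ x ∈ Xg} = (Yc : Set X₀) := by
      ext x
      simp [hYcd]
    rw [h1, ncard_coe_finset] at hYe
    exact hYe
  -- bad rows
  set Bad : Finset β := Finset.univ.filter fun r => r ∈ Bd ∨ W.hd r ∈ Yc ∨ W.tl r ∈ Yc with hBad
  have hBadc : Bad.card ≤ c + 3 * e₀ := by
    have h1 : Bad ⊆ Bd ∪ Yc.biUnion fun x => Finset.univ.filter fun r => W.hd r = x ∨ W.tl r = x := by
      intro r hr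
      rw [hBad, Finset.mem_filter] at hr
      rw [Finset.mem_union, Finset.mem_biUnion]
      rcases hr.2 with h | h | h
      · exact Or.inl h
      · exact Or.inr ⟨W.hd r, h, by simp⟩
      · exact Or.inr ⟨W.tl r, h, by simp⟩
    have h2 : (Yc.biUnion fun x => Finset.univ.filter fun r => W.hd r = x ∨ W.tl r = x).card ≤
        Yc.card * 3 := by
      refine Finset.card_biUnion_le_card_mul _ _ _ ?_
      intro x _
      have h3 := hdeg x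
      have h4 : {r | W.hd r = x ∨ W.tl r = x} =
          ((Finset.univ.filter fun r => W.hd r = x ∨ W.tl r = x : Finset β) : Set β) := by
        ext r
        simp
      rw [h4, ncard_coe_finset] at h3
      exact h3
    have h5 := Finset.card_le_card h1
    have h6 := Finset.card_union_le Bd
      (Yc.biUnion fun x => Finset.univ.filter fun r => W.hd r = x ∨ W.tl r = x)
    have h7 : Yc.card * 3 ≤ e₀ * 3 := Nat.mul_le_mul_right _ hYcc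
    omega
  -- good rows
  set Gd : β → Prop := fun r => r ∉ Bd ∧ r ∉ Miss ∧ W.hd r ∈ Y ∧ W.tl r ∈ Y with hGd
  have hgood : ∀ r, r ∉ Bad → r ∉ Miss → W.hd r ∈ Xg → W.tl r ∈ Xg → Gd r := by
    intro r hr hm h1 h2
    rw [hBad, Finset.mem_filter] at hr
    push Not at hr
    obtain ⟨g1, g2, g3⟩ := hr (Finset.mem_univ r)
    refine ⟨g1, hm, ?_, ?_⟩
    · by_contra h3
      exact g2 (by rw [hYcd, Finset.mem_filter]; exact ⟨Finset.mem_univ _, h3, h1⟩)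
    · by_contra h3
      exact g3 (by rw [hYcd, Finset.mem_filter]; exact ⟨Finset.mem_univ _, h3, h2⟩)
  -- the big side
  set VB : Set (HV V σ) := ρ '' ({x | ∃ y ∈ Y, x = Sum.inl y} ∪
    {x | ∃ r, Gd r ∧ ∃ k ≤ W.len r, x = W.nd r k}) with hVB
  set B : Set α := {e | ∃ r, Gd r ∧ ∃ k < W.len r, e = el r k ∧ el r k ∈ Sf ∧
    ends (el r k) = s(ρ (W.nd r k), ρ (W.nd r (k + 1)))} with hB
  have hndVB : ∀ r, Gd r → ∀ k ≤ W.len r, ρ (W.nd r k) ∈ VB := fun r hr k hk =>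
    ⟨_, Or.inr ⟨r, hr, k, hk, rfl⟩, rfl⟩
  have hstep : ∀ r, Gd r → ∀ k < W.len r, ReflTransGen
      (fun x y => GAdj B ends x y ∧ x ∈ VB ∧ y ∈ VB) (ρ (W.nd r k)) (ρ (W.nd r (k + 1))) := by
    intro r hr k hk
    rcases hrow r hr.2.1 k hk with h | ⟨h1, h2⟩
    · rw [h]
    · exact ReflTransGen.single ⟨⟨el r k, ⟨r, hr, k, hk, rfl, h1, h2⟩, h2⟩,
        hndVB r hr k hk.le, hndVB r hr (k + 1) hk⟩
  have hsym : ∀ x y, ReflTransGen (fun x y => GAdj B ends x y ∧ x ∈ VB ∧ y ∈ VB) x y →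
      ReflTransGen (fun x y => GAdj B ends x y ∧ x ∈ VB ∧ y ∈ VB) y x := by
    intro x y h
    induction h with
    | refl => exact ReflTransGen.refl
    | tail _ h2 ih => exact ReflTransGen.head ⟨h2.1.symm, h2.2.2, h2.2.1⟩ ih
  have hwalk : ∀ r, Gd r → ∀ k ≤ W.len r, ReflTransGen
      (fun x y => GAdj B ends x y ∧ x ∈ VB ∧ y ∈ VB) (ρ (Sum.inl (W.hd r))) (ρ (W.nd r k)) := by
    intro r hr k
    induction k with
    | zero =>
      intro _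
      rw [W.nd_zero]
    | succ k ih => exact fun hk => (ih (by omega)).trans (hstep r hr k (by omega))
  obtain ⟨y₀, hy₀⟩ := hYne
  have hY1 : ∀ y ∈ Y, ReflTransGen (fun x y => GAdj B ends x y ∧ x ∈ VB ∧ y ∈ VB)
      (ρ (Sum.inl y₀)) (ρ (Sum.inl y)) := by
    intro y hy
    have h1 := hYc y₀ hy₀ y hy
    induction h1 with
    | refl => exact ReflTransGen.refl
    | @tail a b _ h2 ih =>
      obtain ⟨ha, hb, r, hr, hm, hrab⟩ := h2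
      have hrB : Gd r := by
        refine ⟨hr, hm, ?_, ?_⟩
        · rcases hrab with ⟨e1, e2⟩ | ⟨e1, e2⟩
          · exact e1 ▸ ha
          · exact e1 ▸ hb
        · rcases hrab with ⟨e1, e2⟩ | ⟨e1, e2⟩
          · exact e2 ▸ hb
          · exact e2 ▸ ha
      have h3 := hwalk r hrB (W.len r) (le_refl _)
      rw [W.nd_len (hlen r)] at h3
      rcases hrab with ⟨e1, e2⟩ | ⟨e1, e2⟩
      · rw [e1, e2] at h3
        exact (ih ha).trans h3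
      · rw [e1, e2] at h3
        exact (ih ha).trans (hsym _ _ h3)
  have hall : ∀ x ∈ VB, ReflTransGen (fun x y => GAdj B ends x y ∧ x ∈ VB ∧ y ∈ VB)
      (ρ (Sum.inl y₀)) x := by
    rintro _ ⟨x, ⟨y, hy, rfl⟩ | ⟨r, hr, k, hk, rfl⟩, rfl⟩
    · exact hY1 y hy
    · exact (hY1 _ hr.2.2.1).trans (hwalk r hr k hk)
  refine ⟨VB, B, ?_, ?_, ?_, ?_, ?_, ?_, ?_⟩
  · refine Finite.image _ (Finite.union ?_ ?_)
    · refine (Y.finite_toSet.image (Sum.inl : X₀ → Nd X₀ β)).subset ?_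
      rintro _ ⟨y, hy, rfl⟩
      exact ⟨y, hy, rfl⟩
    · have h1 : (⋃ r : β, (fun k => W.nd r k) '' {k | k ≤ W.len r}).Finite :=
        finite_iUnion fun r => (finite_le_nat _).image _
      refine h1.subset ?_
      rintro _ ⟨r, _, k, hk, rfl⟩
      exact mem_iUnion.2 ⟨r, k, hk, rfl⟩
  · rintro e ⟨r, _, k, _, rfl, h, _⟩
    exact h
  · rw [disjoint_left]
    rintro e ⟨r, hr, k, hk, rfl, _, _⟩ hx
    exact hBX r hr.1 hr.2.1 k hk hx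
  · rintro e ⟨r, hr, k, hk, rfl, h1, h2⟩
    refine ⟨h1, fun v hv => ?_⟩
    rw [h2, Sym2.mem_iff] at hv
    rcases hv with rfl | rfl
    · exact hndVB r hr k hk.le
    · exact hndVB r hr (k + 1) hk
  · intro x hx y hy
    exact (hsym _ _ (hall x hx)).trans (hall y hy)
  · intro s hs
    obtain ⟨Rs, hRs, hRs2⟩ := hcol s hs
    obtain ⟨r, hr, hrB⟩ : ∃ r ∈ Rs, r ∉ Bad := by
      by_contra hcon
      push Not at hcon
      have := Finset.card_le_card (show Rs ⊆ Bad from hcon)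
      omega
    obtain ⟨⟨g1, g2, g3⟩, c', hc', hb⟩ := hRs2 r hr
    refine ⟨c', hc', fun b h1 h2 h3 => ?_⟩
    obtain ⟨k, hk, hkk⟩ := hb b h1 h2 h3
    rw [← hkk]
    exact hndVB r (hgood r hrB g1 g2 g3) k hk
  · refine ⟨Yc, Bad, hYcc, hBadc, fun x hx hxc => ?_, fun r h1 h2 h3 h4 =>
      hndVB r (hgood r h1 h2 h3 h4)⟩
    refine ⟨_, Or.inl ⟨x, ?_, rfl⟩, rfl⟩
    by_contra hxY
    apply hxc
    rw [hYcd, Finset.mem_filter]
    exact ⟨Finset.mem_univ _, hxY, hx⟩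

/-- **Row H4 with missing rows, wall vertices alone**: at most `e₀` labels of the wall vertices in
`Xg` are outside. -/
theorem alphaA_of_rowsM [Finite β] [Finite X₀] (W : RW X₀ β) (hlen : ∀ r, 1 ≤ W.len r)
    (M : Matroid α) (E₂ Sf : Set α)
    (ends : α → Sym2 (HV V σ)) (H : Host V σ) (N : ℤ) (k₁ c e₀ : ℕ) (ρ : Nd X₀ β → HV V σ)
    (el : β → ℕ → α) (Miss : Set β) (Xg : Set X₀)
    (hrow : ∀ r ∉ Miss, ∀ k < W.len r, ρ (W.nd r k) = ρ (W.nd r (k + 1)) ∨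
      (el r k ∈ Sf ∧ ends (el r k) = s(ρ (W.nd r k), ρ (W.nd r (k + 1)))))
    (hX : ∀ X ⊆ M.E, Disjoint X E₂ → rk M X + rk M (M.E \ X) < rk M M.E + k₁ →
      ∃ Bd : Finset β, Bd.card ≤ c ∧ ∀ r ∉ Bd, r ∉ Miss → ∀ k < W.len r, el r k ∉ X)
    (hwall : ∀ Bd : Finset β, Bd.card ≤ c → ∃ Y : Finset X₀, Y.Nonempty ∧
      (∀ x ∈ Y, ∀ y ∈ Y, ReflTransGen (fun a b => a ∈ Y ∧ b ∈ Y ∧ ∃ r, r ∉ Bd ∧ r ∉ Miss ∧
        ((W.hd r = a ∧ W.tl r = b) ∨ (W.hd r = b ∧ W.tl r = a))) x y) ∧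
      {x | x ∉ Y ∧ x ∈ Xg}.ncard ≤ e₀)
    (hdeg : ∀ x, {r | W.hd r = x ∨ W.tl r = x}.ncard ≤ 3)
    (hcol : ∀ s, 0 < H.len s → ∃ Rs : Finset β, c + 3 * e₀ < Rs.card ∧ ∀ r ∈ Rs,
      (r ∉ Miss ∧ W.hd r ∈ Xg ∧ W.tl r ∈ Xg) ∧ ∃ c' < H.len s, ∀ b : ℤ, -N ≤ b → b ≤ N → b ≠ 0 →
        ∃ k ≤ W.len r, ρ (W.nd r k) = Sum.inr (s, c', b)) :
    TSK.AlphaA M E₂ Sf ends H N k₁ {v | ∃ x ∈ Xg, ρ (Sum.inl x) = Sum.inl v} e₀ := by
  classical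
  intro X hXE hXE₂ hXo
  obtain ⟨VB, B, g1, g2, g3, g4, g5, g6, Yc, Bad, hYcc, hBadc, hYV, hndVB⟩ :=
    alpha_coreM W hlen M E₂ Sf ends H N k₁ c e₀ ρ el Miss Xg hrow hX hwall hdeg hcol X hXE hXE₂ hXo
  refine ⟨VB, B, g1, g2, g3, g4, g5, g6, ?_⟩
  have h2 : (Sum.inl '' {v ∈ {v : V | ∃ x ∈ Xg, ρ (Sum.inl x) = Sum.inl v} |
      (Sum.inl v : HV V σ) ∉ VB} : Set (HV V σ)) ⊆ (fun x => ρ (Sum.inl x)) '' (Yc : Set X₀) := by
    rintro _ ⟨v, ⟨⟨x, hxg, hxv⟩, hv⟩, rfl⟩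
    refine ⟨x, ?_, hxv⟩
    by_contra hx
    exact hv (hxv ▸ hYV x hxg hx)
  have h3 : ((fun x => ρ (Sum.inl x)) '' (Yc : Set X₀)).Finite := Yc.finite_toSet.image _
  have h4 := ncard_le_ncard h2 h3
  rw [ncard_image_of_injective _ Sum.inl_injective] at h4
  have h5 := ncard_image_le (f := fun x => ρ (Sum.inl x)) Yc.finite_toSet
  rw [ncard_coe_finset] at h5
  omega

end TST
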