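import Pool.Agent.TST.Shrink
import Pool.Agent.EN.Model
import Pool.Agent.EN.AlphaE

/-!
# Row H4 of the host of T-star: Alpha from 'few rows are hit' (helper8)
-/

open Set Relation
open scoped Matroid

namespace TST

open BIC Gad EN BICS Mdl

variable {α X₀ β V σ J : Type*}

/-- `TSK.Alpha` of helper34's stub, word by word. -/
def AlphaH (M : Matroid α) (E₂ Sf : Set α) (ends : α → Sym2 (HV V σ)) (H : Host V σ) (N : ℤ)
    (k₁ e : ℕ) : Prop :=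
  ∀ X ⊆ M.E, Disjoint X E₂ → rk M X + rk M (M.E \ X) < rk M M.E + k₁ →
    ∃ (VB : Set (HV V σ)) (B : Set α), VB.Finite ∧ B ⊆ Sf ∧ Disjoint B X ∧ B ⊆ ins Sf ends VB ∧
      VConn B ends VB ∧
      (∀ s, 0 < H.len s → ∃ c < H.len s, ∀ b, -N ≤ b → b ≤ N → b ≠ 0 → Sum.inr (s, c, b) ∈ VB) ∧
      {v : V | (Sum.inl v : HV V σ) ∉ VB}.ncard ≤ e

lemma biUnion_fin_le {ι : Type*} (s : Finset ι) (f : ι → Set V) (hf : ∀ i, (f i).Finite) {L : ℕ}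
    (hL : ∀ i, (f i).ncard ≤ L) : (⋃ i ∈ s, f i).Finite ∧ (⋃ i ∈ s, f i).ncard ≤ s.card * L := by
  classical
  induction s using Finset.induction_on with
  | empty => simp
  | insert r Bs hr ih =>
    rw [Finset.set_biUnion_insert, Finset.card_insert_of_notMem hr]
    refine ⟨(hf r).union ih.1, (ncard_union_le _ _).trans ?_⟩
    have := hL r
    have := ih.2
    have e : (Bs.card + 1) * L = Bs.card * L + L := by ring
    omega

/-- Core of row H4: the big side contains the images of all wall vertices but `e₀` and of all rows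
but `c + 3 e₀`. `ρ` = any map of the nodes into host vertices (labels, or labels of a quotient); a
row element is contracted (same image) or in the graph. -/
theorem alpha_core [Finite β] [Finite X₀] (W : RW X₀ β) (hlen : ∀ r, 1 ≤ W.len r)
    (M : Matroid α) (E₂ Sf : Set α)
    (ends : α → Sym2 (HV V σ)) (H : Host V σ) (N : ℤ) (k₁ c e₀ : ℕ) (ρ : Nd X₀ β → HV V σ)
    (el : β → ℕ → α)
    (hrow : ∀ r k, k < W.len r → ρ (W.nd r k) = ρ (W.nd r (k + 1)) ∨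
      (el r k ∈ Sf ∧ ends (el r k) = s(ρ (W.nd r k), ρ (W.nd r (k + 1)))))
    (hX : ∀ X ⊆ M.E, Disjoint X E₂ → rk M X + rk M (M.E \ X) < rk M M.E + k₁ →
      ∃ Bd : Finset β, Bd.card ≤ c ∧ ∀ r ∉ Bd, ∀ k < W.len r, el r k ∉ X)
    (hwall : ∀ Bd : Finset β, Bd.card ≤ c → ∃ Y : Finset X₀, Y.Nonempty ∧
      (∀ x ∈ Y, ∀ y ∈ Y, ReflTransGen (fun a b => a ∈ Y ∧ b ∈ Y ∧ ∃ r ∉ Bd,
        (W.hd r = a ∧ W.tl r = b) ∨ (W.hd r = b ∧ W.tl r = a)) x y) ∧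
      {x | x ∉ Y}.ncard ≤ e₀)
    (hdeg : ∀ x, {r | W.hd r = x ∨ W.tl r = x}.ncard ≤ 3)
    (hcol : ∀ s, 0 < H.len s → ∃ Rs : Finset β, c + 3 * e₀ < Rs.card ∧ ∀ r ∈ Rs,
      ∃ c' < H.len s, ∀ b : ℤ, -N ≤ b → b ≤ N → b ≠ 0 →
        ∃ k ≤ W.len r, ρ (W.nd r k) = Sum.inr (s, c', b))
    (X : Set α) (hXE : X ⊆ M.E) (hXE₂ : Disjoint X E₂)
    (hXo : rk M X + rk M (M.E \ X) < rk M M.E + k₁) :
    ∃ (VB : Set (HV V σ)) (B : Set α), VB.Finite ∧ B ⊆ Sf ∧ Disjoint B X ∧ B ⊆ ins Sf ends VB ∧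
      VConn B ends VB ∧
      (∀ s, 0 < H.len s → ∃ c < H.len s, ∀ b, -N ≤ b → b ≤ N → b ≠ 0 → Sum.inr (s, c, b) ∈ VB) ∧
      ∃ (Yc : Finset X₀) (Bad : Finset β), Yc.card ≤ e₀ ∧ Bad.card ≤ c + 3 * e₀ ∧
        (∀ x ∉ Yc, ρ (Sum.inl x) ∈ VB) ∧ ∀ r ∉ Bad, ∀ k ≤ W.len r, ρ (W.nd r k) ∈ VB := by
  classical
  have := Fintype.ofFinite β
  have := Fintype.ofFinite X₀
  obtain ⟨Bd, hBd, hBX⟩ := hX X hXE hXE₂ hXo
  obtain ⟨Y, hYne, hYc, hYe⟩ := hwall Bd hBd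
  set Yc : Finset X₀ := Finset.univ.filter fun x => x ∉ Y with hYcd
  have hYcc : Yc.card ≤ e₀ := by
    have h1 : {x | x ∉ Y} = (Yc : Set X₀) := by
      ext x
      simp [hYcd]
    rw [h1, ncard_coe_finset] at hYe
    exact hYe
  -- bad rows
  set Bad : Finset β := Finset.univ.filter fun r => r ∈ Bd ∨ W.hd r ∉ Y ∨ W.tl r ∉ Y with hBad
  have hBadc : Bad.card ≤ c + 3 * e₀ := by
    have h1 : Bad ⊆ Bd ∪ Yc.biUnion fun x => Finset.univ.filter fun r => W.hd r = x ∨ W.tl r = x := by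
      intro r hr
      rw [hBad, Finset.mem_filter] at hr
      rw [Finset.mem_union, Finset.mem_biUnion]
      rcases hr.2 with h | h | h
      · exact Or.inl h
      · exact Or.inr ⟨W.hd r, by simp [hYcd, h], by simp⟩
      · exact Or.inr ⟨W.tl r, by simp [hYcd, h], by simp⟩
    have h2 : (Yc.biUnion fun x => Finset.univ.filter fun r => W.hd r = x ∨ W.tl r = x).card ≤
        Yc.card * 3 := by
      refine Finset.card_biUnion_le_card_mul _ _ _ ?_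
      intro x _
      have h3 := hdeg x
      have h4 : {r | W.hd r = x ∨ W.tl r = x} =
          ((Finset.univ.filter fun r => W.hd r = x ∨ W.tl r = x : Finset β) : Set β) := by
        ext r
        simp
      rw [h4, ncard_coe_finset] at h3
      exact h3
    have h5 := Finset.card_le_card h1
    have h6 := Finset.card_union_le Bd
      (Yc.biUnion fun x => Finset.univ.filter fun r => W.hd r = x ∨ W.tl r = x)
    have h7 : Yc.card * 3 ≤ e₀ * 3 := Nat.mul_le_mul_right _ hYcc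
    omega
  have hgood : ∀ r, r ∉ Bad → r ∉ Bd ∧ W.hd r ∈ Y ∧ W.tl r ∈ Y := by
    intro r hr
    rw [hBad, Finset.mem_filter] at hr
    push Not at hr
    exact hr (Finset.mem_univ r)
  -- the big side
  set VB : Set (HV V σ) := ρ '' ({x | ∃ y ∈ Y, x = Sum.inl y} ∪
    {x | ∃ r ∉ Bad, ∃ k ≤ W.len r, x = W.nd r k}) with hVB
  set B : Set α := {e | ∃ r ∉ Bad, ∃ k < W.len r, e = el r k ∧ el r k ∈ Sf ∧
    ends (el r k) = s(ρ (W.nd r k), ρ (W.nd r (k + 1)))} with hB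
  have hndVB : ∀ r, r ∉ Bad → ∀ k ≤ W.len r, ρ (W.nd r k) ∈ VB := fun r hr k hk =>
    ⟨_, Or.inr ⟨r, hr, k, hk, rfl⟩, rfl⟩
  have hstep : ∀ r, r ∉ Bad → ∀ k < W.len r, ReflTransGen
      (fun x y => GAdj B ends x y ∧ x ∈ VB ∧ y ∈ VB) (ρ (W.nd r k)) (ρ (W.nd r (k + 1))) := by
    intro r hr k hk
    rcases hrow r k hk with h | ⟨h1, h2⟩
    · rw [h]
    · exact ReflTransGen.single ⟨⟨el r k, ⟨r, hr, k, hk, rfl, h1, h2⟩, h2⟩,
        hndVB r hr k hk.le, hndVB r hr (k + 1) hk⟩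
  have hsym : ∀ x y, ReflTransGen (fun x y => GAdj B ends x y ∧ x ∈ VB ∧ y ∈ VB) x y →
      ReflTransGen (fun x y => GAdj B ends x y ∧ x ∈ VB ∧ y ∈ VB) y x := by
    intro x y h
    induction h with
    | refl => exact ReflTransGen.refl
    | tail _ h2 ih => exact ReflTransGen.head ⟨h2.1.symm, h2.2.2, h2.2.1⟩ ih
  have hwalk : ∀ r, r ∉ Bad → ∀ k ≤ W.len r, ReflTransGen
      (fun x y => GAdj B ends x y ∧ x ∈ VB ∧ y ∈ VB) (ρ (Sum.inl (W.hd r))) (ρ (W.nd r k)) := by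
    intro r hr k
    induction k with
    | zero =>
      intro _
      rw [W.nd_zero]
    | succ k ih => exact fun hk => (ih (by omega)).trans (hstep r hr k (by omega))
  obtain ⟨y₀, hy₀⟩ := hYne
  have hY1 : ∀ y ∈ Y, ReflTransGen (fun x y => GAdj B ends x y ∧ x ∈ VB ∧ y ∈ VB)
      (ρ (Sum.inl y₀)) (ρ (Sum.inl y)) := by
    intro y hy
    have h1 := hYc y₀ hy₀ y hy
    induction h1 with
    | refl => exact ReflTransGen.refl
    | @tail a b _ h2 ih =>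
      obtain ⟨ha, hb, r, hr, hrab⟩ := h2
      have hrB : r ∉ Bad := by
        rw [hBad, Finset.mem_filter]
        rintro ⟨_, h | h | h⟩
        · exact hr h
        · rcases hrab with ⟨e1, e2⟩ | ⟨e1, e2⟩
          · exact h (e1 ▸ ha)
          · exact h (e1 ▸ hb)
        · rcases hrab with ⟨e1, e2⟩ | ⟨e1, e2⟩
          · exact h (e2 ▸ hb)
          · exact h (e2 ▸ ha)
      have h3 := hwalk r hrB (W.len r) (le_refl _)
      rw [W.nd_len (hlen r)] at h3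
      rcases hrab with ⟨e1, e2⟩ | ⟨e1, e2⟩
      · rw [e1, e2] at h3
        exact (ih ha).trans h3
      · rw [e1, e2] at h3
        exact (ih ha).trans (hsym _ _ h3)
  have hall : ∀ x ∈ VB, ReflTransGen (fun x y => GAdj B ends x y ∧ x ∈ VB ∧ y ∈ VB)
      (ρ (Sum.inl y₀)) x := by
    rintro _ ⟨x, ⟨y, hy, rfl⟩ | ⟨r, hr, k, hk, rfl⟩, rfl⟩
    · exact hY1 y hy
    · exact (hY1 _ (hgood r hr).2.1).trans (hwalk r hr k hk)
  refine ⟨VB, B, ?_, ?_, ?_, ?_, ?_, ?_, ?_⟩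
  · refine Finite.image _ (Finite.union ?_ ?_)
    · refine (Y.finite_toSet.image (Sum.inl : X₀ → Nd X₀ β)).subset ?_
      rintro _ ⟨y, hy, rfl⟩
      exact ⟨y, hy, rfl⟩
    · have h1 : (⋃ r : β, (fun k => W.nd r k) '' {k | k ≤ W.len r}).Finite :=
        finite_iUnion fun r => (finite_le_nat _).image _
      refine h1.subset ?_
      rintro _ ⟨r, _, k, hk, rfl⟩
      exact mem_iUnion.2 ⟨r, k, hk, rfl⟩
  · rintro e ⟨r, _, k, _, rfl, h, _⟩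
    exact h
  · rw [disjoint_left]
    rintro e ⟨r, hr, k, hk, rfl, _, _⟩ hx
    exact hBX r (hgood r hr).1 k hk hx
  · rintro e ⟨r, hr, k, hk, rfl, h1, h2⟩
    refine ⟨h1, fun v hv => ?_⟩
    rw [h2, Sym2.mem_iff] at hv
    rcases hv with rfl | rfl
    · exact hndVB r hr k hk.le
    · exact hndVB r hr (k + 1) hk
  · intro x hx y hy
    exact (hsym _ _ (hall x hx)).trans (hall y hy)
  · intro s hs
    obtain ⟨Rs, hRs, hRs2⟩ := hcol s hs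
    obtain ⟨r, hr, hrB⟩ : ∃ r ∈ Rs, r ∉ Bad := by
      by_contra hcon
      push Not at hcon
      have := Finset.card_le_card (show Rs ⊆ Bad from hcon)
      omega
    obtain ⟨c', hc', hb⟩ := hRs2 r hr
    refine ⟨c', hc', fun b h1 h2 h3 => ?_⟩
    obtain ⟨k, hk, hkk⟩ := hb b h1 h2 h3
    rw [← hkk]
    exact hndVB r hrB k hk
  · refine ⟨Yc, Bad, hYcc, hBadc, fun x hx => ?_, hndVB⟩
    refine ⟨_, Or.inl ⟨x, ?_, rfl⟩, rfl⟩
    by_contra hxY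
    apply hx
    rw [hYcd, Finset.mem_filter]
    exact ⟨Finset.mem_univ _, hxY⟩

/-- **Row H4.** -/
theorem alpha_of_rows [Finite β] [Finite X₀] (W : RW X₀ β) (hlen : ∀ r, 1 ≤ W.len r)
    (M : Matroid α) (E₂ Sf : Set α)
    (ends : α → Sym2 (HV V σ)) (H : Host V σ) (N : ℤ) (k₁ c e₀ Lp : ℕ) (ρ : Nd X₀ β → HV V σ)
    (el : β → ℕ → α)
    (hrow : ∀ r k, k < W.len r → ρ (W.nd r k) = ρ (W.nd r (k + 1)) ∨
      (el r k ∈ Sf ∧ ends (el r k) = s(ρ (W.nd r k), ρ (W.nd r (k + 1)))))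
    (hX : ∀ X ⊆ M.E, Disjoint X E₂ → rk M X + rk M (M.E \ X) < rk M M.E + k₁ →
      ∃ Bd : Finset β, Bd.card ≤ c ∧ ∀ r ∉ Bd, ∀ k < W.len r, el r k ∉ X)
    (hwall : ∀ Bd : Finset β, Bd.card ≤ c → ∃ Y : Finset X₀, Y.Nonempty ∧
      (∀ x ∈ Y, ∀ y ∈ Y, ReflTransGen (fun a b => a ∈ Y ∧ b ∈ Y ∧ ∃ r ∉ Bd,
        (W.hd r = a ∧ W.tl r = b) ∨ (W.hd r = b ∧ W.tl r = a)) x y) ∧
      {x | x ∉ Y}.ncard ≤ e₀)
    (hdeg : ∀ x, {r | W.hd r = x ∨ W.tl r = x}.ncard ≤ 3)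
    (hcol : ∀ s, 0 < H.len s → ∃ Rs : Finset β, c + 3 * e₀ < Rs.card ∧ ∀ r ∈ Rs,
      ∃ c' < H.len s, ∀ b : ℤ, -N ≤ b → b ≤ N → b ≠ 0 →
        ∃ k ≤ W.len r, ρ (W.nd r k) = Sum.inr (s, c', b))
    (hV : ∀ v : V, ∃ r k, k ≤ W.len r ∧ ρ (W.nd r k) = Sum.inl v)
    (hLp : ∀ r, {v : V | ∃ k, 0 < k ∧ k < W.len r ∧ ρ (W.nd r k) = Sum.inl v}.ncard ≤ Lp) :
    AlphaH M E₂ Sf ends H N k₁ (e₀ + (c + 3 * e₀) * Lp) := by
  classical
  intro X hXE hXE₂ hXo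
  obtain ⟨VB, B, g1, g2, g3, g4, g5, g6, Yc, Bad, hYcc, hBadc, hYV, hndVB⟩ :=
    alpha_core W hlen M E₂ Sf ends H N k₁ c e₀ ρ el hrow hX hwall hdeg hcol X hXE hXE₂ hXo
  refine ⟨VB, B, g1, g2, g3, g4, g5, g6, ?_⟩
  set F₁ : Set V := {v | ∃ x ∈ Yc, ρ (Sum.inl x) = Sum.inl v} with hF₁
  have h1 : {v : V | (Sum.inl v : HV V σ) ∉ VB} ⊆ F₁ ∪
      ⋃ r ∈ Bad, {v : V | ∃ k, 0 < k ∧ k < W.len r ∧ ρ (W.nd r k) = Sum.inl v} := by
    intro v hv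
    obtain ⟨r, k, hk, hkv⟩ := hV v
    have key : ∀ x, ρ (Sum.inl x) = Sum.inl v → v ∈ F₁ := by
      intro x hx
      refine ⟨x, ?_, hx⟩
      by_contra hxY
      apply hv
      rw [← hx]
      exact hYV x hxY
    rcases Nat.eq_zero_or_pos k with rfl | h0
    · rw [W.nd_zero] at hkv
      exact Or.inl (key _ hkv)
    · rcases hk.lt_or_eq with h2 | rfl
      · refine Or.inr (mem_iUnion₂.2 ⟨r, ?_, k, h0, h2, hkv⟩)
        by_contra hrB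
        apply hv
        rw [← hkv]
        exact hndVB r hrB k hk
      · rw [W.nd_len (hlen r)] at hkv
        exact Or.inl (key _ hkv)
  have hF₁f : F₁.Finite ∧ F₁.ncard ≤ e₀ := by
    have h2 : (Sum.inl '' F₁ : Set (HV V σ)) ⊆ (fun x => ρ (Sum.inl x)) '' (Yc : Set X₀) := by
      rintro _ ⟨v, ⟨x, hx, hxv⟩, rfl⟩
      exact ⟨x, hx, hxv⟩
    have h3 : ((fun x => ρ (Sum.inl x)) '' (Yc : Set X₀)).Finite := Yc.finite_toSet.image _
    have h4 := ncard_le_ncard h2 h3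
    rw [ncard_image_of_injective _ Sum.inl_injective] at h4
    have h5 := ncard_image_le (f := fun x => ρ (Sum.inl x)) Yc.finite_toSet
    rw [ncard_coe_finset] at h5
    exact ⟨Finite.of_finite_image (h3.subset h2) Sum.inl_injective.injOn, by omega⟩
  have hBf : ∀ r, {v : V | ∃ k, 0 < k ∧ k < W.len r ∧ ρ (W.nd r k) = Sum.inl v}.Finite := by
    intro r
    have h2 : ((fun k => ρ (W.nd r k)) '' {k | k ≤ W.len r}).Finite := (finite_le_nat _).image _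
    have h3 : (Sum.inl '' {v : V | ∃ k, 0 < k ∧ k < W.len r ∧ ρ (W.nd r k) = Sum.inl v} :
        Set (HV V σ)) ⊆ (fun k => ρ (W.nd r k)) '' {k | k ≤ W.len r} := by
      rintro _ ⟨v, ⟨k, _, hk, hkv⟩, rfl⟩
      exact ⟨k, hk.le, hkv⟩
    exact Finite.of_finite_image (h2.subset h3) Sum.inl_injective.injOn
  have hU := biUnion_fin_le Bad (fun r => {v : V | ∃ k, 0 < k ∧ k < W.len r ∧
      ρ (W.nd r k) = Sum.inl v}) hBf hLp
  have h6 := ncard_le_ncard h1 (hF₁f.1.union hU.1)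
  have h7 := ncard_union_le F₁ (⋃ r ∈ Bad, {v : V | ∃ k, 0 < k ∧ k < W.len r ∧
      ρ (W.nd r k) = Sum.inl v})
  have h8 : Bad.card * Lp ≤ (c + 3 * e₀) * Lp := Nat.mul_le_mul_right _ hBadc
  have := hF₁f.2
  have := hU.2
  omega

/-- **Row H4, wall vertices alone** (helper14's form `TSK.AlphaA`): at most `e₀` labels of wall
vertices are outside. -/
theorem alphaA_of_rows [Finite β] [Finite X₀] (W : RW X₀ β) (hlen : ∀ r, 1 ≤ W.len r)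
    (M : Matroid α) (E₂ Sf : Set α)
    (ends : α → Sym2 (HV V σ)) (H : Host V σ) (N : ℤ) (k₁ c e₀ : ℕ) (ρ : Nd X₀ β → HV V σ)
    (el : β → ℕ → α)
    (hrow : ∀ r k, k < W.len r → ρ (W.nd r k) = ρ (W.nd r (k + 1)) ∨
      (el r k ∈ Sf ∧ ends (el r k) = s(ρ (W.nd r k), ρ (W.nd r (k + 1)))))
    (hX : ∀ X ⊆ M.E, Disjoint X E₂ → rk M X + rk M (M.E \ X) < rk M M.E + k₁ →
      ∃ Bd : Finset β, Bd.card ≤ c ∧ ∀ r ∉ Bd, ∀ k < W.len r, el r k ∉ X)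
    (hwall : ∀ Bd : Finset β, Bd.card ≤ c → ∃ Y : Finset X₀, Y.Nonempty ∧
      (∀ x ∈ Y, ∀ y ∈ Y, ReflTransGen (fun a b => a ∈ Y ∧ b ∈ Y ∧ ∃ r ∉ Bd,
        (W.hd r = a ∧ W.tl r = b) ∨ (W.hd r = b ∧ W.tl r = a)) x y) ∧
      {x | x ∉ Y}.ncard ≤ e₀)
    (hdeg : ∀ x, {r | W.hd r = x ∨ W.tl r = x}.ncard ≤ 3)
    (hcol : ∀ s, 0 < H.len s → ∃ Rs : Finset β, c + 3 * e₀ < Rs.card ∧ ∀ r ∈ Rs,
      ∃ c' < H.len s, ∀ b : ℤ, -N ≤ b → b ≤ N → b ≠ 0 →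
        ∃ k ≤ W.len r, ρ (W.nd r k) = Sum.inr (s, c', b)) :
    TSK.AlphaA M E₂ Sf ends H N k₁ {v | ∃ x : X₀, ρ (Sum.inl x) = Sum.inl v} e₀ := by
  classical
  intro X hXE hXE₂ hXo
  obtain ⟨VB, B, g1, g2, g3, g4, g5, g6, Yc, Bad, hYcc, hBadc, hYV, hndVB⟩ :=
    alpha_core W hlen M E₂ Sf ends H N k₁ c e₀ ρ el hrow hX hwall hdeg hcol X hXE hXE₂ hXo
  refine ⟨VB, B, g1, g2, g3, g4, g5, g6, ?_⟩
  have h2 : (Sum.inl '' {v ∈ {v : V | ∃ x : X₀, ρ (Sum.inl x) = Sum.inl v} |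
      (Sum.inl v : HV V σ) ∉ VB} : Set (HV V σ)) ⊆ (fun x => ρ (Sum.inl x)) '' (Yc : Set X₀) := by
    rintro _ ⟨v, ⟨⟨x, hxv⟩, hv⟩, rfl⟩
    refine ⟨x, ?_, hxv⟩
    by_contra hx
    exact hv (hxv ▸ hYV x hx)
  have h3 : ((fun x => ρ (Sum.inl x)) '' (Yc : Set X₀)).Finite := Yc.finite_toSet.image _
  have h4 := ncard_le_ncard h2 h3
  rw [ncard_image_of_injective _ Sum.inl_injective] at h4
  have h5 := ncard_image_le (f := fun x => ρ (Sum.inl x)) Yc.finite_toSet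
  rw [ncard_coe_finset] at h5
  omega

end TST
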