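import Pool.Agent.TST.HubHX

/-!
# Alpha for a plain grid inside of a tile (helper14)

`alphaHotE`, `alphaHotTE`: alpha by hot blocks when enough anchors of the tile are outside of `X`.
`tileGrid`: the plain grid of a tile.  `wall_hX`: the hypothesis `hX` of `SG.wallHost`.
-/

open Set BIC BICS
open scoped Matroid

namespace CWL

universe u

/-- **Alpha by hot blocks with few missing rows**; only `c + 1` anchors of the tile are outside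
of `X`. -/
theorem alphaHotE (κ k₀ τ : ℕ) : ∃ c : ℕ, ∀ ρ : ℕ, ∃ w₀ s₁ : ℕ, ∀ w ≥ w₀, ∀ s ≥ s₁,
    ∀ {α : Type u} (M : Matroid α) [M.Finite] (Z₀ : Set (Bool × ℕ × ℕ))
    (L₁ : Bool × ℕ × ℕ → List α) (f₁ : α → Sym2 ((ℕ × ℕ) ⊕ α))
    (e₁ : Bool × ℕ × ℕ → α) (u₁ : ℕ) (L₂ : Bool × ℕ × ℕ → List α)
    (f₂ : α → Sym2 ((ℕ × ℕ) ⊕ α)) (e₂ : Bool × ℕ × ℕ → α) (u₂ : ℕ) (F : Set α),
    u₁ ≤ κ → u₂ ≤ κ → Z₀.Finite → Z₀.ncard ≤ τ →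
    GSide M (Seg w \ Z₀) L₁ f₁ e₁ u₁ → GSide M✶ (Seg s) L₂ f₂ e₂ u₂ →
    (∀ i j a b : ℕ, shS i j '' Seg ρ ⊆ Seg w \ Z₀ → shS a b '' Seg ρ ⊆ Seg s →
      ∃ r ∈ shS i j '' Seg ρ, ∃ x ∈ L₁ r, x ∈ crr L₂ (shS a b '' Seg ρ)) →
    F ⊆ crr L₁ (Seg w \ Z₀) → Disjoint (crr L₂ (Seg s)) F →
    (∀ r ∈ Seg w \ Z₀, ∃ x ∈ L₁ r, x ∉ F) →
    ∀ X ⊆ (M ／ F).E, c < {σ ∈ Seg s | e₂ σ ∉ X}.ncard →
    rk (M ／ F) X + rk (M ／ F) ((M ／ F).E \ X) ≤ rk (M ／ F) (M ／ F).E + k₀ →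
    {r ∈ Seg w \ Z₀ | ∃ x ∈ L₁ r, x ∈ X}.ncard ≤ c := by
  classical
  obtain ⟨m, hm⟩ : ∃ m, m = cW (k₀ + κ + 2 * τ) := ⟨_, rfl⟩
  refine ⟨2 * m + 1, fun ρ => ?_⟩
  refine ⟨2 * (ρ + 1) * (m + τ + 1), 2 * (ρ + 1) * (m + τ + 1) + (2 * m + 2), ?_⟩
  intro w hw s hs α M _ Z₀ L₁ f₁ e₁ u₁ L₂ f₂ e₂ u₂ F hu₁ hu₂ hZf hZc h₁ h₂ hhot hF hFd hFr X hX
    hXe hsep
  have hfd : M✶.Finite := inferInstance
  have hfF : (M ／ F).Finite := BQ.fin_contract F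
  have hfFd : (M ／ F)✶.Finite := inferInstance
  have g₁ := h₁.mono hu₁
  have hEF : (M ／ F).E = M.E \ F := Matroid.contract_ground _ _
  have hSy : Seg w \ Z₀ ⊆ Seg w := sdiff_subset
  have hτ : (Seg w \ (Seg w \ Z₀)).ncard ≤ τ := by
    refine (Set.ncard_le_ncard ?_ hZf).trans hZc
    rintro x ⟨h3, h4⟩
    by_contra h5
    exact h4 ⟨h3, h5⟩
  set R : Set α := crr L₁ (Seg w \ Z₀) with hR
  have hRE : R ⊆ M.E := h₁.sub_ground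
  have hRFE : R \ F ⊆ (M ／ F).E := by
    rw [hEF]
    exact sdiff_subset_sdiff_left hRE
  -- rows
  have a1 := sep_restrict hX hRFE hsep
  have a2 := g₁.isoZ hSy hτ hF hFr (A := X ∩ (R \ F)) inter_subset_right a1
  have e1 : {r ∈ Seg w \ Z₀ | ∃ x ∈ L₁ r, x ∈ X ∩ (R \ F)} =
      {r ∈ Seg w \ Z₀ | ∃ x ∈ L₁ r, x ∈ X} := by
    ext r
    refine and_congr_right fun hr => ?_
    constructor
    · rintro ⟨x, hx, hxA⟩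
      exact ⟨x, hx, hxA.1⟩
    · rintro ⟨x, hx, hxA⟩
      have := hX hxA
      rw [hEF] at this
      exact ⟨x, hx, hxA, ⟨r, hr, hx⟩, this.2⟩
  rw [e1, ← hm] at a2
  rcases a2 with a2 | a2
  · exact a2
  exfalso
  set Bd : Set (Bool × ℕ × ℕ) :=
    {r ∈ Seg w \ Z₀ | ∃ x ∈ L₁ r, x ∉ F ∧ x ∉ X ∩ (R \ F)} with hBd
  have hBf : Bd.Finite := (seg_finite w).subset fun r hr => hr.1.1
  have hBZ : (Bd ∪ Z₀).ncard ≤ m + τ := (Set.ncard_union_le _ _).trans (by omega)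
  obtain ⟨a, ha, hfree⟩ := free_block (w := w) (ρ := ρ) (m := m + τ) hw (hBf.union hZf) hBZ
  have ha' : shS a 0 '' Seg ρ ⊆ Seg w \ Z₀ := fun r hr => ⟨ha hr, fun h => hfree r hr (Or.inr h)⟩
  -- columns
  have g₂ : GSide (M ／ F)✶ (Seg s) L₂ f₂ e₂ κ := by
    rw [Matroid.dual_contract]
    exact (h₂.mono hu₂).delete hFd
  set R₂ : Set α := crr L₂ (Seg s) with hR₂
  have hR₂E : R₂ ⊆ (M ／ F).E := by
    have := g₂.sub_ground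
    rwa [Matroid.dual_ground] at this
  have b1 := sep_dual hX hsep
  have b2 : rk (M ／ F)✶ ((M ／ F).E \ X) + rk (M ／ F)✶ ((M ／ F).E \ ((M ／ F).E \ X)) ≤
      rk (M ／ F)✶ (M ／ F).E + k₀ := by
    rw [sdiff_sdiff_cancel_left hX]
    omega
  have b3 := sep_restrict (M := (M ／ F)✶) (E := (M ／ F).E) (A := (M ／ F).E \ X) (T := R₂)
    sdiff_subset hR₂E b2
  have b4 := (g₂.isoZ (Subset.refl _) (τ := τ) (by simp) (F := ∅) (empty_subset _)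
    (fun σ hσ => ⟨e₂ σ, g₂.mem_last hσ, by simp⟩) (A := ((M ／ F).E \ X) ∩ R₂)
    (by rw [sdiff_empty]; exact inter_subset_right) (q := k₀)
    (by
      rw [Matroid.contract_empty, sdiff_empty]
      exact b3))
  rw [← hm] at b4
  have b5 : {σ ∈ Seg s | ∃ x ∈ L₂ σ, x ∉ ((M ／ F).E \ X) ∩ R₂}.ncard ≤ m := by
    rcases b4 with b4 | b4
    · exfalso
      have h3 : {σ ∈ Seg s | e₂ σ ∉ X} ⊆
          {σ ∈ Seg s | ∃ x ∈ L₂ σ, x ∈ ((M ／ F).E \ X) ∩ R₂} := by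
        rintro σ ⟨hσ, hσX⟩
        have h4 : e₂ σ ∈ R₂ := ⟨σ, hσ, g₂.mem_last hσ⟩
        exact ⟨hσ, e₂ σ, g₂.mem_last hσ, ⟨hR₂E h4, hσX⟩, h4⟩
      have h4 := Set.ncard_le_ncard h3 ((seg_finite s).subset fun σ hσ => hσ.1)
      omega
    · refine (Set.ncard_le_ncard ?_ ((seg_finite s).subset fun σ hσ => hσ.1)).trans b4
      rintro σ ⟨hσ, x, hx, hxX⟩
      exact ⟨hσ, x, hx, by simp, hxX⟩
  obtain ⟨b, hb, hfree'⟩ := free_block (w := s) (ρ := ρ) (m := m) (by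
      have : 2 * (ρ + 1) * (m + 1) ≤ 2 * (ρ + 1) * (m + τ + 1) :=
        Nat.mul_le_mul_left _ (by omega)
      omega)
    ((seg_finite s).subset fun r hr => hr.1) b5
  -- a conflict of the two blocks
  obtain ⟨r, hr, x, hx, σ, hσ, hxσ⟩ := hhot a 0 b 0 ha' hb
  have hxR₂ : x ∈ R₂ := ⟨σ, hb hσ, hxσ⟩
  have hxF : x ∉ F := fun h => Set.disjoint_left.1 hFd hxR₂ h
  have hxX : x ∈ X := by
    by_contra hcon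
    exact hfree r hr (Or.inl ⟨ha' hr, x, hx, hxF, fun h => hcon h.1⟩)
  exact hfree' σ hσ ⟨hb hσ, x, hxσ, fun h => h.1.2 hxX⟩

end CWL

namespace TSH

universe u

open Mdl Mdj EN Gad TST EN.Wall CWL

/-- **alpha by hot blocks in a tile, with few missing rows and few anchors in `X`.** -/
theorem alphaHotTE (κ k₀ τ : ℕ) : ∃ c : ℕ, ∀ ρ : ℕ, ∃ w₀ s₁ : ℕ, ∀ w ≥ w₀, ∀ s ≥ s₁,
    ∀ {α : Type u} (M : Matroid α) [M.Finite] (Z₀ : Set (Bool × ℕ × ℕ))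
    (L₁ : Bool × ℕ × ℕ → List α) (f₁ : α → Sym2 ((ℕ × ℕ) ⊕ α))
    (e₁ : Bool × ℕ × ℕ → α) (u₁ : ℕ) (L₂ : Bool × ℕ × ℕ → List α)
    (f₂ : α → Sym2 ((ℕ × ℕ) ⊕ α)) (e₂ : Bool × ℕ × ℕ → α) (u₂ : ℕ) (F : Set α) (i₀ j₀ : ℕ),
    u₁ ≤ κ → u₂ ≤ κ → Z₀.Finite → Z₀.ncard ≤ τ →
    GSide M (Seg w \ Z₀) L₁ f₁ e₁ u₁ → GSide M✶ (shS i₀ j₀ '' Seg s) L₂ f₂ e₂ u₂ →
    (∀ i j a b : ℕ, shS i j '' Seg ρ ⊆ Seg w → shS a b '' Seg ρ ⊆ shS i₀ j₀ '' Seg s →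
      ∃ r ∈ shS i j '' Seg ρ, ∃ x ∈ L₁ r, x ∈ crr L₂ (shS a b '' Seg ρ)) →
    F ⊆ crr L₁ (Seg w \ Z₀) → Disjoint (crr L₂ (shS i₀ j₀ '' Seg s)) F →
    (∀ r ∈ Seg w \ Z₀, ∃ x ∈ L₁ r, x ∉ F) →
    ∀ X ⊆ (M ／ F).E, c < {σ ∈ Seg s | e₂ (shS i₀ j₀ σ) ∉ X}.ncard →
    rk (M ／ F) X + rk (M ／ F) ((M ／ F).E \ X) ≤ rk (M ／ F) (M ／ F).E + k₀ →
    {r ∈ Seg w \ Z₀ | ∃ x ∈ L₁ r, x ∈ X}.ncard ≤ c := by
  obtain ⟨c, hc⟩ := alphaHotE.{u} κ k₀ τ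
  refine ⟨c, fun ρ => ?_⟩
  obtain ⟨w₀, s₁, h0⟩ := hc ρ
  refine ⟨w₀, s₁, ?_⟩
  intro w hw s hs α M _ Z₀ L₁ f₁ e₁ u₁ L₂ f₂ e₂ u₂ F i₀ j₀ hu₁ hu₂ hZf hZ h₁ h₂ hhot hF hFd hFr X hX
    hXe hsep
  have hf : M✶.Finite := inferInstance
  obtain ⟨f', hg⟩ := h₂.shift (S' := Seg s) (Subset.refl _)
  have ecr : ∀ T : Set (Bool × ℕ × ℕ), crr (fun σ => L₂ (shS i₀ j₀ σ)) T =
      crr L₂ (shS i₀ j₀ '' T) := fun T => crr_shift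
  refine h0 w hw s hs M Z₀ L₁ f₁ e₁ u₁ (fun σ => L₂ (shS i₀ j₀ σ)) f'
    (fun σ => e₂ (shS i₀ j₀ σ)) u₂ F hu₁ hu₂ hZf hZ h₁ hg ?_ hF (by rw [ecr]; exact hFd) hFr X hX
    hXe hsep
  intro i j a' b' hi ha
  have e1 : shS i₀ j₀ '' (shS a' b' '' Seg ρ) = shS (a' + i₀) (b' + j₀) '' Seg ρ := by
    rw [← image_comp]
    refine image_congr fun σ _ => ?_
    simp only [Function.comp, shS, Nat.add_assoc]
  obtain ⟨r, hr, x, hx, hx2⟩ := hhot i j (a' + i₀) (b' + j₀) (hi.trans sdiff_subset) (by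
    rw [← e1]
    exact image_mono ha)
  refine ⟨r, hr, x, hx, ?_⟩
  rw [ecr, e1]
  exact hx2

/-- **The plain grid of a tile.** -/
theorem tileGrid {α : Type u} {M : Matroid α} [M.Finite] {S₁ S₂ : Set (Bool × ℕ × ℕ)}
    {L₁ : Bool × ℕ × ℕ → List α} {f₁ : α → Sym2 ((ℕ × ℕ) ⊕ α)} {e₁ : Bool × ℕ × ℕ → α} {u₁ : ℕ}
    {L₂ : Bool × ℕ × ℕ → List α} {f₂ : α → Sym2 ((ℕ × ℕ) ⊕ α)} {e₂ : Bool × ℕ × ℕ → α} {u₂ : ℕ}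
    (hp : Pair M S₁ L₁ f₁ e₁ u₁ S₂ L₂ f₂ e₂ u₂) {i₀ j₀ s : ℕ}
    (ht : shS i₀ j₀ '' Seg s ⊆ S₂) {C : Set α}
    (hCd : Disjoint (crr L₂ (shS i₀ j₀ '' Seg s)) C) {κ c n' : ℕ} (hu₂ : u₂ ≤ κ) (h2 : 2 ≤ n')
    (hs : (κ + 1) * (2 * n' + 2) ≤ s) (hc : c < n') :
    ∃ E₂ D₂ : Set α, E₂ ⊆ e₂ '' (shS i₀ j₀ '' Seg s) ∧ D₂ ⊆ crr L₂ (shS i₀ j₀ '' Seg s) ∧
      E₂ ⊆ crr L₂ (shS i₀ j₀ '' Seg s) ∧ E₂ ⊆ (M ／ C).E ∧ D₂ ⊆ (M ／ C).E \ E₂ ∧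
      PGrid ((M ／ C)✶ ／ D₂) E₂ n' ∧
      ∀ X : Set α, Disjoint X E₂ → c < {σ ∈ Seg s | e₂ (shS i₀ j₀ σ) ∉ X}.ncard := by
  have hf : M✶.Finite := inferInstance
  have hfC : (M ／ C).Finite := ⟨M.ground_finite.subset sdiff_subset⟩
  have hfd : (M ／ C)✶.Finite := inferInstance
  have g₂ : GSide (M ／ C)✶ (shS i₀ j₀ '' Seg s) L₂ f₂ e₂ κ := by
    rw [Matroid.dual_contract]
    exact ((hp.s₂.subset ht).mono hu₂).delete hCd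
  obtain ⟨f', hg⟩ := g₂.shift (S' := Seg s) (Subset.refl _)
  have ecr : crr (fun σ => L₂ (shS i₀ j₀ σ)) (Seg s) = crr L₂ (shS i₀ j₀ '' Seg s) := crr_shift
  have eim : (fun σ => e₂ (shS i₀ j₀ σ)) '' Seg s = e₂ '' (shS i₀ j₀ '' Seg s) := by
    rw [← image_comp]
    rfl
  obtain ⟨D₂, E₂, h3, h4, h5, h6⟩ := hg.pgrid hs
  rw [ecr] at h3
  have hE : crr L₂ (shS i₀ j₀ '' Seg s) ⊆ (M ／ C).E := by
    have := g₂.sub_ground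
    rwa [Matroid.dual_ground] at this
  have h4' := h4
  rw [eim] at h4'
  have hE₂ : E₂ ⊆ crr L₂ (shS i₀ j₀ '' Seg s) := h4'.trans g₂.e_sub
  refine ⟨E₂, D₂, h4', h3, hE₂, hE₂.trans hE, fun x hx => ⟨hE (h3 hx), fun h =>
    Set.disjoint_left.1 h5 h hx⟩, h6, ?_⟩
  intro X hX
  have hfn : ((M ／ C)✶ ／ D₂).Finite := ⟨(M ／ C)✶.ground_finite.subset sdiff_subset⟩
  have h7 := pgrid_ncard h6 h2
  have h8 : E₂ ⊆ (fun σ => e₂ (shS i₀ j₀ σ)) '' {σ ∈ Seg s | e₂ (shS i₀ j₀ σ) ∉ X} := by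
    intro x hx
    obtain ⟨σ, hσ, rfl⟩ := h4 hx
    exact ⟨σ, ⟨hσ, fun h => Set.disjoint_left.1 hX h hx⟩, rfl⟩
  have hfs : {σ ∈ Seg s | e₂ (shS i₀ j₀ σ) ∉ X}.Finite := (seg_finite s).subset fun σ hσ => hσ.1
  have h9 := (ncard_le_ncard h8 (hfs.image _)).trans (ncard_image_le hfs)
  nlinarith

/-- **`hX` of the wall.** -/
theorem wall_hX (κ k₁ : ℕ) : ∃ c : ℕ, ∀ ρ : ℕ, ∃ w₀ s₁ : ℕ, ∀ w ≥ w₀, ∀ s ≥ s₁,
    ∀ {α : Type u} (M : Matroid α) [M.Finite] (S₂ : Set (Bool × ℕ × ℕ))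
    (L₁ : Bool × ℕ × ℕ → List α) (f₁ : α → Sym2 ((ℕ × ℕ) ⊕ α)) (e₁ : Bool × ℕ × ℕ → α) (u₁ : ℕ)
    (L₂ : Bool × ℕ × ℕ → List α) (f₂ : α → Sym2 ((ℕ × ℕ) ⊕ α)) (e₂ : Bool × ℕ × ℕ → α) (u₂ : ℕ),
    Pair M (Seg w) L₁ f₁ e₁ u₁ S₂ L₂ f₂ e₂ u₂ → u₁ ≤ κ → u₂ ≤ κ →
    (∀ i j a b : ℕ, shS i j '' Seg ρ ⊆ Seg w → shS a b '' Seg ρ ⊆ S₂ →
      ∃ r ∈ shS i j '' Seg ρ, ∃ x ∈ L₁ r, x ∈ crr L₂ (shS a b '' Seg ρ)) →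
    ∀ i₀ j₀ : ℕ, shS i₀ j₀ '' Seg s ⊆ S₂ → ∀ (a n : ℕ) (el : SegR n → ℕ → α),
    a + (2 * n - 1) ≤ w →
    (∀ (r : SegR n) (p : ℕ) (h : p < (L₁ (shS a a r.1)).length),
      el r p = (L₁ (shS a a r.1))[p]) →
    ∀ K : SegR n → Finset ℕ, (∀ r, (K r).Nonempty) →
    (∀ r, ∀ x ∈ K r, x < (inW L₁ a n).len r) →
    Disjoint (crr L₂ (shS i₀ j₀ '' Seg s)) (cel (inW L₁ a n) K el) →
    ∀ X ⊆ (M ／ cel (inW L₁ a n) K el).E, c < {σ ∈ Seg s | e₂ (shS i₀ j₀ σ) ∉ X}.ncard →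
      BIC.rk (M ／ cel (inW L₁ a n) K el) X +
        BIC.rk (M ／ cel (inW L₁ a n) K el) ((M ／ cel (inW L₁ a n) K el).E \ X) <
        BIC.rk (M ／ cel (inW L₁ a n) K el) (M ／ cel (inW L₁ a n) K el).E + k₁ →
      ∃ Bd : Finset (SegR n), Bd.card ≤ c ∧ ∀ r ∉ Bd,
        ∀ k < ((inW L₁ a n).shrink K).len r, els K el r k ∉ X := by
  classical
  obtain ⟨c, hc⟩ := alphaHotTE.{u} κ k₁ 0
  refine ⟨c, fun ρ => ?_⟩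
  obtain ⟨w₀, s₁, h0⟩ := hc ρ
  refine ⟨w₀, s₁, ?_⟩
  intro w hw s hs α M _ S₂ L₁ f₁ e₁ u₁ L₂ f₂ e₂ u₂ hp hu₁ hu₂ hhot i₀ j₀ htile a n el haw hel K hKn
    hKl hC X hX hXe hXr
  have hseg : ∀ r : SegR n, shS a a r.1 ∈ Seg w := fun r => shS_mem (by omega) haw haw r.2
  have hmem : ∀ (r : SegR n) (p : ℕ), p < (inW L₁ a n).len r → el r p ∈ L₁ (shS a a r.1) := by
    intro r p hp
    rw [hel r p hp]
    exact List.getElem_mem _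
  have hinj : ∀ (r r' : SegR n) (p p' : ℕ), p < (inW L₁ a n).len r → p' < (inW L₁ a n).len r' →
      el r p = el r' p' → r = r' ∧ p = p' := by
    intro r r' p p' h1 h2 h3
    have h4 := hp.s₁.uniq (hseg r) (hseg r') (hmem r p h1) (h3 ▸ hmem r' p' h2)
    have h5 : r = r' := Subtype.ext (shS_inj a a h4)
    subst h5
    refine ⟨rfl, ?_⟩
    rw [hel r p h1, hel r p' h2] at h3
    exact (List.Nodup.getElem_inj_iff (hp.s₁.nodup _ (hseg r))).1 h3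
  have h1 := h0 w hw s hs M ∅ L₁ f₁ e₁ u₁ L₂ f₂ e₂ u₂ (cel (inW L₁ a n) K el) i₀ j₀ hu₁ hu₂
    Set.finite_empty (by simp) (by rw [sdiff_empty]; exact hp.s₁) (hp.s₂.subset htile)
    (fun i j a' b' g1 g2 => hhot i j a' b' g1 (g2.trans htile)) (by
      rw [sdiff_empty]
      rintro x ⟨r, p, g1, _, rfl⟩
      exact ⟨_, hseg r, hmem r p g1⟩) hC (by
      rw [sdiff_empty]
      intro r hr
      by_cases hin : ∃ r' : SegR n, shS a a r'.1 = r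
      · obtain ⟨r', rfl⟩ := hin
        obtain ⟨x, hx⟩ := hKn r'
        refine ⟨el r' x, hmem r' x (hKl r' x hx), ?_⟩
        rintro ⟨r'', p, g1, g2, g3⟩
        obtain ⟨rfl, rfl⟩ := hinj _ _ _ _ g1 (hKl r' x hx) g3
        exact g2 hx
      · have h1 := hp.s₁.mem_last hr
        refine ⟨e₁ r, h1, ?_⟩
        rintro ⟨r'', p, g1, g2, g3⟩
        have h5 := hmem r'' p g1
        rw [g3] at h5
        exact hin ⟨r'', hp.s₁.uniq (hseg r'') hr h5 h1⟩) X hX hXe hXr.le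
  rw [sdiff_empty] at h1
  have hfin : {r ∈ Seg w | ∃ x ∈ L₁ r, x ∈ X}.Finite := (seg_finite w).subset fun r hr => hr.1
  have fR : Fintype (SegR n) := Fintype.ofFinite _
  refine ⟨Finset.univ.filter fun r : SegR n => shS a a r.1 ∈
    {r ∈ Seg w | ∃ x ∈ L₁ r, x ∈ X}, ?_, ?_⟩
  · refine le_trans ?_ h1
    rw [← ncard_coe_finset]
    refine ncard_le_ncard_of_injOn (fun r : SegR n => shS a a r.1) ?_ ?_ hfin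
    · intro r hr
      exact (Finset.mem_filter.1 (Finset.mem_coe.1 hr)).2
    · intro r _ r' _ h2
      exact Subtype.ext (shS_inj a a h2)
  · intro r hrB k hk hkX
    exact hrB (Finset.mem_filter.2 ⟨Finset.mem_univ _, hseg r, _,
      hmem r _ (hKl r _ (kth_mem hk)), hkX⟩)

end TSH
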