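import Pool.Agent.TST.VSys

/-!
# Minimal V-systems (row MIN of T-star, CLAIM A)

In a minor of a V-system with the fewest row elements, every element of `D` in the closure of one row
is a loop or sees no element of the row.  The rows in `Fz` are not changed.
-/

set_option autoImplicit false

open Set BIC BICS
open scoped Matroid

namespace TST

variable {α ι κ τ : Type*} {M : Matroid α} {Rw : ι → Set α} {ν : Set ι → ℕ}

/-- One element of a row is contracted, another one stays. -/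
theorem RowF.con_elem [M.Finite] [DecidableEq ι] (h : RowF M Rw ν) {s₀ : ι} {t : α}
    (ht : t ∈ Rw s₀) (hnl : t ∉ M.closure ∅) (hne : (Rw s₀ \ {t}).Nonempty) :
    RowF (M ／ {t}) (Function.update Rw s₀ (Rw s₀ \ {t})) ν := by
  have htE : t ∈ M.E := h.sub s₀ ht
  have hup : ∀ s, s ≠ s₀ → Function.update Rw s₀ (Rw s₀ \ {t}) s = Rw s := fun s hs =>
    Function.update_of_ne hs _ _
  have hup0 : Function.update Rw s₀ (Rw s₀ \ {t}) s₀ = Rw s₀ \ {t} := Function.update_self _ _ _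
  have hsub : ∀ s, Function.update Rw s₀ (Rw s₀ \ {t}) s ⊆ Rw s := by
    intro s
    by_cases hs : s = s₀
    · rw [hs, hup0]
      exact sdiff_subset
    · rw [hup s hs]
  have htn : ∀ s, t ∉ Function.update Rw s₀ (Rw s₀ \ {t}) s := by
    intro s
    by_cases hs : s = s₀
    · rw [hs, hup0]
      exact fun h1 => h1.2 rfl
    · rw [hup s hs]
      exact fun h1 => hs (h.uniq h1 ht)
  have hr1 : BIC.rk M {t} = 1 := by
    have h1 := rk_ins (M := M) (X := ∅) htE hnl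
    have h2 : BIC.rk M (∅ : Set α) = 0 := by
      have := rk_le_ncard M (finite_empty (α := α))
      rw [ncard_empty] at this
      omega
    rw [h2] at h1
    simpa using h1
  refine ⟨?_, ?_, ?_, ?_⟩
  · intro s x hx
    exact ⟨h.sub s (hsub s hx), fun h1 => htn s (h1 ▸ hx)⟩
  · intro s
    by_cases hs : s = s₀
    · rw [hs, hup0]
      exact hne
    · rw [hup s hs]
      exact h.ne s
  · intro s s' hss
    exact (h.dis s s' hss).mono (hsub s) (hsub s')
  · intro X hX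
    have hXS : X ⊆ ⋃ s, Rw s := hX.trans (iUnion_mono hsub)
    have htX : t ∉ X := fun h1 => by
      obtain ⟨s, hs⟩ := mem_iUnion.1 (hX h1)
      exact htn s hs
    have h1 := rk_contract_set (M := M) (C := {t}) (X := X) (singleton_subset_iff.2 htE)
      fun x hx => ⟨h.sub' (hXS hx), fun h2 => htX (h2 ▸ hx)⟩
    have h2 := h.rk (X ∪ {t}) (union_subset hXS (singleton_subset_iff.2 (mem_iUnion.2 ⟨s₀, ht⟩)))
    have h3 : {s | Rw s ⊆ X ∪ {t}} = {s | Function.update Rw s₀ (Rw s₀ \ {t}) s ⊆ X} := by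
      ext s
      show Rw s ⊆ X ∪ {t} ↔ Function.update Rw s₀ (Rw s₀ \ {t}) s ⊆ X
      by_cases hs : s = s₀
      · rw [hs, hup0]
        constructor
        · intro h4 x hx
          rcases h4 hx.1 with h5 | h5
          · exact h5
          · exact absurd h5 hx.2
        · intro h4 x hx
          by_cases h5 : x = t
          · exact Or.inr h5
          · exact Or.inl (h4 ⟨hx, h5⟩)
      · rw [hup s hs]
        constructor
        · intro h4 x hx
          rcases h4 hx with h5 | h5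
          · exact h5
          · exact absurd (h.uniq hx (h5 ▸ ht)) hs
        · exact fun h4 => h4.trans subset_union_left
    have hXf : X.Finite := M.ground_finite.subset (hXS.trans h.sub')
    have h4 : (X ∪ {t}).ncard = X.ncard + 1 := by
      rw [union_singleton, ncard_insert_of_notMem htX hXf]
    rw [h3, h4] at h2
    rw [hr1] at h1
    omega

/-- **A smaller system after the contraction of elements of `D`.** -/
theorem VSys.con [M.Finite] {ι' : Type*} {D : Set α} {Col : κ → Set α} {tb : κ → τ}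
    (h : VSys M Rw ν D Col tb) {Z : Set α} (hZD : Z ⊆ D) {Rw' : ι' → Set α} {ν' : Set ι' → ℕ}
    (hR : RowF (M ／ Z) Rw' ν') (hsub : (⋃ s, Rw' s) ⊆ (⋃ s, Rw s) ∪ D)
    (hcl : D \ Z ⊆ (M ／ Z).closure (⋃ s, Rw' s)) :
    VSys (M ／ Z) Rw' ν' (D \ Z) Col tb := by
  classical
  have hDE : D ⊆ M.E := h.D_cl.trans (M.closure_subset_ground _)
  have hZE : Z ⊆ M.E := hZD.trans hDE
  have hS'E' : (⋃ s, Rw' s) ⊆ M.E \ Z := hR.sub'
  have hS'E : (⋃ s, Rw' s) ⊆ M.E := hS'E'.trans sdiff_subset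
  have hSZ : Disjoint (⋃ s, Rw' s) Z := by
    rw [Set.disjoint_left]
    exact fun x hx hxZ => (hS'E' hx).2 hxZ
  have hmem : ∀ x ∈ ⋃ s, Rw' s, ∀ B : Set τ, x ∈ TT Col tb B → x ∈ ⋃ s, Rw s := by
    intro x hx B hxB
    refine (hsub hx).resolve_right fun hxD => ?_
    exact Set.disjoint_left.1 (TT_D h B) hxB hxD
  have hDZ : (D \ Z) ∪ Z = D := sdiff_union_of_subset hZD
  refine ⟨hR, hcl, fun f => (h.col_D f).mono_right sdiff_subset, ?_, ?_⟩
  · intro B c hc
    have hP : ∀ Q : Set α, Q ⊆ (D \ Z) ∪ ((⋃ s, Rw' s)) →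
        BIC.rk (M ／ Z) Q + BIC.rk M Z = BIC.rk M (Q ∪ Z) := by
      intro Q hQ
      refine rk_contract_set hZE ?_
      intro x hx
      rcases hQ hx with h1 | h1
      · exact ⟨hDE h1.1, h1.2⟩
      · exact ⟨hS'E h1, fun h2 => Set.disjoint_left.1 hSZ h1 h2⟩
    have hcS : c '' B ⊆ ⋃ s, Rw' s := by
      rintro _ ⟨b, hb, rfl⟩
      exact (hc b hb).1
    have e1 := hP ((D \ Z) ∪ ((⋃ s, Rw' s) \ TT Col tb B))
      (union_subset_union_right _ sdiff_subset)
    have e2 := hP (c '' B ∪ ((D \ Z) ∪ ((⋃ s, Rw' s) \ TT Col tb B)))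
      (union_subset (hcS.trans subset_union_right) (union_subset_union_right _ sdiff_subset))
    have e3 : (D \ Z) ∪ ((⋃ s, Rw' s) \ TT Col tb B) ∪ Z =
        D ∪ ((⋃ s, Rw' s) \ TT Col tb B) := by
      rw [union_right_comm, hDZ]
    have e4 : c '' B ∪ ((D \ Z) ∪ ((⋃ s, Rw' s) \ TT Col tb B)) ∪ Z =
        c '' B ∪ (D ∪ ((⋃ s, Rw' s) \ TT Col tb B)) := by
      rw [union_assoc, e3]
    rw [e3] at e1
    rw [e4] at e2
    have hV := h.V1 B c fun b hb => ⟨hmem _ (hc b hb).1 _ (hc b hb).2, (hc b hb).2⟩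
    have hPP : D ∪ ((⋃ s, Rw' s) \ TT Col tb B) ⊆ D ∪ ((⋃ s, Rw s) \ TT Col tb B) := by
      rintro x (hx | hx)
      · exact Or.inl hx
      · rcases hsub hx.1 with h1 | h1
        · exact Or.inr ⟨h1, hx.2⟩
        · exact Or.inl h1
    have h1 := rk_submod M (c '' B ∪ (D ∪ ((⋃ s, Rw' s) \ TT Col tb B)))
      (D ∪ ((⋃ s, Rw s) \ TT Col tb B))
    have h2 : BIC.rk M (D ∪ ((⋃ s, Rw' s) \ TT Col tb B)) ≤
        BIC.rk M ((c '' B ∪ (D ∪ ((⋃ s, Rw' s) \ TT Col tb B))) ∩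
          (D ∪ ((⋃ s, Rw s) \ TT Col tb B))) :=
      rk_mono M fun x hx => ⟨Or.inr hx, hPP hx⟩
    have h3 : BIC.rk M (c '' B ∪ (D ∪ ((⋃ s, Rw s) \ TT Col tb B))) ≤
        BIC.rk M ((c '' B ∪ (D ∪ ((⋃ s, Rw' s) \ TT Col tb B))) ∪
          (D ∪ ((⋃ s, Rw s) \ TT Col tb B))) := by
      refine rk_mono M ?_
      rintro x (hx | hx)
      · exact Or.inl (Or.inl hx)
      · exact Or.inr hx
    omega
  · intro f
    have e1 := rk_contract_set (M := M) hZE (X := (D \ Z) ∪ (Col f ∩ ⋃ s, Rw' s)) (by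
      rintro x (hx | hx)
      · exact ⟨hDE hx.1, hx.2⟩
      · exact ⟨hS'E hx.2, fun h2 => Set.disjoint_left.1 hSZ hx.2 h2⟩)
    have e2 := rk_contract_set (M := M) hZE (X := D \ Z) (fun x hx => ⟨hDE hx.1, hx.2⟩)
    rw [union_right_comm, hDZ] at e1
    rw [hDZ] at e2
    have h1 : BIC.rk M (D ∪ (Col f ∩ ⋃ s, Rw' s)) ≤ BIC.rk M (D ∪ (Col f ∩ ⋃ s, Rw s)) := by
      refine rk_mono M ?_
      rintro x (hx | hx)
      · exact Or.inl hx
      · rcases hsub hx.2 with h2 | h2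
        · exact Or.inr ⟨hx.1, h2⟩
        · exact Or.inl h2
    have h2 := h.V2 f
    omega

/-! ### classes of a same-row element -/

/-- transitivity of the classes on a row -/
lemma RowF.cls_trans [M.Finite] (h : RowF M Rw ν) {s₀ : ι} {t a b c : α}
    (hb : b ∈ Rw s₀) (hc : c ∈ Rw s₀) (hbc : b ≠ c)
    (h1 : t ∈ M.closure ((⋃ s, Rw s) \ {a, b})) (h2 : t ∈ M.closure ((⋃ s, Rw s) \ {b, c})) :
    t ∈ M.closure ((⋃ s, Rw s) \ {a, c}) := by
  have hc' : c ∈ ⋃ s, Rw s := mem_iUnion.2 ⟨s₀, hc⟩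
  have hSE := h.sub'
  have h3 : t ∈ M.closure ((⋃ s, Rw s) \ {a, b, c}) := by
    refine drop_one (W := (⋃ s, Rw s) \ {b, c}) (x := c) ?_ h2 ?_ ?_
    · refine Subset.trans ?_ (M.subset_closure _ (sdiff_subset.trans hSE))
      exact sdiff_subset_sdiff_right (subset_insert _ _)
    · refine h.series (s := s₀) (y := b) sdiff_subset hc ?_ hb ?_ hbc.symm
      · exact fun h4 => h4.2 (Or.inr rfl)
      · exact fun h4 => h4.2 (Or.inl rfl)
    · refine M.closure_subset_closure ?_ h1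
      rintro x ⟨hx, hx2⟩
      by_cases hxc : x = c
      · exact Or.inl hxc
      · refine Or.inr ⟨hx, ?_⟩
        rintro (h4 | h4 | h4)
        · exact hx2 (Or.inl h4)
        · exact hx2 (Or.inr h4)
        · exact hxc h4
  refine M.closure_subset_closure ?_ h3
  rintro x ⟨hx, hx2⟩
  refine ⟨hx, ?_⟩
  rintro (h4 | h4)
  · exact hx2 (Or.inl h4)
  · exact hx2 (Or.inr (Or.inr h4))

/-- `t` sees nothing in the row `s`: a loop, or the whole row is one class and needed. -/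
def Blind (M : Matroid α) (Rw : ι → Set α) (s : ι) (t : α) : Prop :=
  t ∈ M.closure ∅ ∨ ((∀ a ∈ Rw s, t ∉ M.closure (Rw s \ {a})) ∧
    ∀ a ∈ Rw s, ∀ a' ∈ Rw s, a ≠ a' → t ∈ M.closure ((⋃ s, Rw s) \ {a, a'}))

/-- **One move.** -/
theorem VSys.move [M.Finite] [DecidableEq ι] {D : Set α} {Col : κ → Set α} {tb : κ → τ}
    (h : VSys M Rw ν D Col tb) (hD : ∀ s, Disjoint D (Rw s)) {s₀ : ι} (hν : ν {s₀} = 0) {t : α}
    (htD : t ∈ D) (ht : t ∈ M.closure (Rw s₀)) (hB : ¬ Blind M Rw s₀ t) :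
    ∃ (Z A : Set α), Z ⊆ D ∧ A ⊆ Rw s₀ ∧ A.Nonempty ∧ (Rw s₀ \ A).Nonempty ∧
      VSys (M ／ Z) (Function.update Rw s₀ (Rw s₀ \ A)) ν (D \ Z) Col tb := by
  have hSE := h.rows.sub'
  have hDE : D ⊆ M.E := h.D_cl.trans (M.closure_subset_ground _)
  have htS : ∀ s, t ∉ Rw s := fun s hs => Set.disjoint_left.1 (hD s) htD hs
  have hnl : t ∉ M.closure ∅ := fun h1 => hB (Or.inl h1)
  -- the row is independent
  have hI : M.Indep (Rw s₀) := by
    have h1 := h.rows.rk (Rw s₀) (subset_iUnion _ _)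
    have h2 : {s | Rw s ⊆ Rw s₀} = {s₀} := by
      ext s
      constructor
      · intro h3
        obtain ⟨x, hx⟩ := h.rows.ne s
        exact h.rows.uniq hx (h3 hx)
      · rintro rfl
        exact Subset.rfl
    rw [h2, hν, add_zero] at h1
    have h3 : (Rw s₀).Finite := M.ground_finite.subset (h.rows.sub s₀)
    rw [Matroid.indep_iff_eRk_eq_encard_of_finite h3, ← cast_rk, h1, h3.cast_ncard_eq]
  obtain ⟨a₀, ha₀, ha₀t⟩ : ∃ a₀ ∈ Rw s₀, t ∉ M.closure (Rw s₀ \ {a₀}) := by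
    have h1 := hI.fundCircuit_isCircuit ht (htS s₀)
    have h2 : ∃ a ∈ M.fundCircuit t (Rw s₀), a ≠ t := by
      by_contra hcon
      push Not at hcon
      have h3 : M.fundCircuit t (Rw s₀) = {t} := by
        ext x
        constructor
        · exact fun hx => hcon x hx
        · rintro rfl
          exact M.mem_fundCircuit _ _
      rw [h3, Matroid.singleton_isCircuit] at h1
      exact hnl h1
    obtain ⟨a, ha, hat⟩ := h2
    have haR : a ∈ Rw s₀ := by
      rcases M.fundCircuit_subset_insert _ _ ha with h3 | h3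
      · exact absurd h3 hat
      · exact h3
    refine ⟨a, haR, fun h3 => ?_⟩
    have h4 := (hI.mem_fundCircuit_iff ht (htS s₀)).1 ha
    have h5 : insert t (Rw s₀) \ {a} = insert t (Rw s₀ \ {a}) := by
      ext x
      constructor
      · rintro ⟨rfl | h6, h7⟩
        · exact Or.inl rfl
        · exact Or.inr ⟨h6, h7⟩
      · rintro (rfl | h6)
        · exact ⟨Or.inl rfl, fun h7 => hat h7.symm⟩
        · exact ⟨Or.inr h6.1, h6.2⟩
    rw [h5] at h4
    exact ((h4.subset (subset_insert _ _)).mem_closure_iff_of_notMem (fun h6 => htS s₀ h6.1)).1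
      h3 |>.not_indep h4
  obtain ⟨A, hA⟩ : ∃ A : Set α, A = {a | a ∈ Rw s₀ ∧ (a = a₀ ∨
    t ∈ M.closure ((⋃ s, Rw s) \ {a, a₀}))} := ⟨_, rfl⟩
  have hmA : ∀ a, a ∈ A ↔ a ∈ Rw s₀ ∧ (a = a₀ ∨ t ∈ M.closure ((⋃ s, Rw s) \ {a, a₀})) := by
    intro a
    rw [hA]
    rfl
  have hsym : ∀ a b, t ∈ M.closure ((⋃ s, Rw s) \ {a, b}) → t ∈ M.closure ((⋃ s, Rw s) \ {b, a}) := by
    intro a b h1
    rwa [pair_comm]
  have hAR : A ⊆ Rw s₀ := fun a ha => ((hmA a).1 ha).1
  have ha₀A : a₀ ∈ A := (hmA a₀).2 ⟨ha₀, Or.inl rfl⟩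
  have hcl : ∀ a ∈ A, ∀ a' ∈ A, a ≠ a' → t ∈ M.closure ((⋃ s, Rw s) \ {a, a'}) := by
    intro a ha a' ha' hne
    obtain ⟨h1, h2⟩ := (hmA a).1 ha
    obtain ⟨h3, h4⟩ := (hmA a').1 ha'
    rcases h2 with rfl | h2
    · rcases h4 with rfl | h4
      · exact absurd rfl hne
      · exact hsym _ _ h4
    · rcases h4 with rfl | h4
      · exact h2
      · by_cases h5 : a = a₀
        · subst h5
          exact hsym _ _ h4
        · by_cases h6 : a' = a₀
          · subst h6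
            exact h2
          · exact h.rows.cls_trans ha₀ h3 (Ne.symm h6) h2 (hsym _ _ h4)
  have hsep : ∀ a ∈ A, ∀ c ∈ Rw s₀, c ∉ A → t ∉ M.closure ((⋃ s, Rw s) \ {a, c}) := by
    intro a ha c hc hcA h1
    obtain ⟨h2, h3⟩ := (hmA a).1 ha
    have hca : c ≠ a₀ := fun h4 => hcA (h4 ▸ ha₀A)
    apply hcA
    refine (hmA c).2 ⟨hc, Or.inr ?_⟩
    by_cases h4 : a = a₀
    · rw [← h4]
      exact hsym _ _ h1
    · have h5 := h3.resolve_left h4
      have hac : a ≠ c := fun h6 => hcA (h6 ▸ ha)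
      exact hsym _ _ (h.rows.cls_trans h2 hc hac (hsym _ _ h5) h1)
  have hbal : ∀ a ∈ A, t ∉ M.closure (Rw s₀ \ {a}) := by
    intro a ha h1
    obtain ⟨h2, h3⟩ := (hmA a).1 ha
    by_cases h4 : a = a₀
    · exact ha₀t (h4 ▸ h1)
    · have h5 := h3.resolve_left h4
      apply ha₀t
      have h6 : t ∈ M.closure (Rw s₀ \ {a, a₀}) := by
        refine drop_one (W := (⋃ s, Rw s) \ {a, a₀}) (x := a₀) ?_ h5 ?_ ?_
        · refine Subset.trans ?_ (M.subset_closure _ (sdiff_subset.trans hSE))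
          exact sdiff_subset_sdiff_left (subset_iUnion _ _)
        · refine h.rows.series (s := s₀) (y := a) sdiff_subset ha₀ ?_ h2 ?_ (Ne.symm h4)
          · exact fun h6 => h6.2 (Or.inr rfl)
          · exact fun h6 => h6.2 (Or.inl rfl)
        · refine M.closure_subset_closure ?_ h1
          rintro x ⟨hx, hx2⟩
          by_cases hxa : x = a₀
          · exact Or.inl hxa
          · refine Or.inr ⟨hx, ?_⟩
            rintro (h7 | h7)
            · exact hx2 h7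
            · exact hxa h7
      refine M.closure_subset_closure ?_ h6
      exact fun x hx => ⟨hx.1, fun h7 => hx.2 (Or.inr h7)⟩
  have hne : (Rw s₀ \ A).Nonempty := by
    rw [Set.nonempty_iff_ne_empty]
    intro h1
    have h2 : Rw s₀ ⊆ A := sdiff_eq_empty.1 h1
    exact hB (Or.inr ⟨fun a ha => hbal a (h2 ha), fun a ha a' ha' hne => hcl a (h2 ha) a' (h2 ha') hne⟩)
  -- the move
  obtain ⟨Rw₁, hRw₁⟩ : ∃ Rw₁, Rw₁ = Function.update Rw s₀ (insert t (Rw s₀ \ A)) := ⟨_, rfl⟩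
  have hR₁ : RowF M Rw₁ ν := by
    rw [hRw₁]
    exact h.rows.moveA ht htS hAR ⟨a₀, ha₀A⟩ hcl hsep hbal
  have hRw₁0 : Rw₁ s₀ = insert t (Rw s₀ \ A) := by
    rw [hRw₁]
    exact Function.update_self _ _ _
  have hRw₁s : ∀ s, s ≠ s₀ → Rw₁ s = Rw s := by
    intro s hs
    rw [hRw₁]
    exact Function.update_of_ne hs _ _
  obtain ⟨Z₀, hZ₀D, hZ₀, hZ₀c⟩ := exists_skew (M := M) hR₁.sub' (D₁ := D \ ⋃ s, Rw₁ s)
    (sdiff_subset.trans hDE)
  have hZ₀E : Z₀ ⊆ M.E := hZ₀D.trans (sdiff_subset.trans hDE)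
  have hSZ₀ : Disjoint (⋃ s, Rw₁ s) Z₀ := by
    rw [Set.disjoint_left]
    intro x hx hxZ
    exact (hZ₀D hxZ).2 hx
  have hR₂ := hR₁.con hZ₀E hZ₀ hSZ₀
  have f2 : (M ／ Z₀).Finite := ⟨M.ground_finite.subset sdiff_subset⟩
  have ht₁ : t ∈ Rw₁ s₀ := by
    rw [hRw₁0]
    exact Or.inl rfl
  have hRt : Rw₁ s₀ \ {t} = Rw s₀ \ A := by
    rw [hRw₁0]
    ext x
    constructor
    · rintro ⟨rfl | h1, h2⟩
      · exact absurd rfl h2
      · exact h1
    · exact fun h1 => ⟨Or.inr h1, fun h2 => htS s₀ (h2 ▸ h1.1)⟩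
  have hnl₂ : t ∉ (M ／ Z₀).closure ∅ := by
    intro h1
    have h2 : BIC.rk (M ／ Z₀) {t} = 0 := by
      have h3 := rk_ins_mem (M := M ／ Z₀) (X := ∅) h1
      have h4 : BIC.rk (M ／ Z₀) (∅ : Set α) = 0 := by
        have := rk_le_ncard (M ／ Z₀) (finite_empty (α := α))
        rw [ncard_empty] at this
        omega
      rw [h4] at h3
      simpa using h3
    have h3 := rk_con_skew hZ₀E hZ₀ hR₁.sub' hSZ₀ (X := {t})
      (singleton_subset_iff.2 (mem_iUnion.2 ⟨s₀, ht₁⟩))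
    have h4 := rk_ins (M := M) (X := ∅) (hDE htD) hnl
    rw [h2] at h3
    have h5 : (insert t (∅ : Set α)) = {t} := by simp
    rw [h5] at h4
    omega
  have hR₃ := hR₂.con_elem ht₁ hnl₂ (by rw [hRt]; exact hne)
  have e1 : Function.update Rw₁ s₀ (Rw₁ s₀ \ {t}) = Function.update Rw s₀ (Rw s₀ \ A) := by
    rw [hRt, hRw₁, Function.update_idem]
  rw [e1, Matroid.contract_contract] at hR₃
  have hZD : Z₀ ∪ {t} ⊆ D := union_subset (hZ₀D.trans sdiff_subset) (singleton_subset_iff.2 htD)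
  have hsub2 : (⋃ s, Function.update Rw s₀ (Rw s₀ \ A) s) ⊆ ⋃ s, Rw s := by
    refine iUnion_mono fun s => ?_
    by_cases hs : s = s₀
    · rw [hs, Function.update_self]
      exact sdiff_subset
    · rw [Function.update_of_ne hs]
  refine ⟨Z₀ ∪ {t}, A, hZD, hAR, ⟨a₀, ha₀A⟩, hne, h.con hZD hR₃ (hsub2.trans subset_union_left) ?_⟩
  rw [Matroid.contract_closure_eq]
  rintro x ⟨hx, hxZ⟩
  refine ⟨?_, hxZ⟩
  have h1 : (⋃ s, Rw₁ s) ∪ Z₀ ⊆ (⋃ s, Function.update Rw s₀ (Rw s₀ \ A) s) ∪ (Z₀ ∪ {t}) := by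
    rintro y (hy | hy)
    · obtain ⟨s, hs⟩ := mem_iUnion.1 hy
      by_cases hss : s = s₀
      · rw [hss, hRw₁0] at hs
        rcases hs with rfl | hs
        · exact Or.inr (Or.inr rfl)
        · refine Or.inl (mem_iUnion.2 ⟨s₀, ?_⟩)
          rw [Function.update_self]
          exact hs
      · rw [hRw₁s s hss] at hs
        refine Or.inl (mem_iUnion.2 ⟨s, ?_⟩)
        rw [Function.update_of_ne hss]
        exact hs
    · exact Or.inr (Or.inl hy)
  have h2 : x ∈ M.closure ((⋃ s, Rw₁ s) ∪ Z₀) := by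
    by_cases h3 : x ∈ ⋃ s, Rw₁ s
    · exact M.subset_closure _ (union_subset hR₁.sub' hZ₀E) (Or.inl h3)
    · exact hZ₀c ⟨hx, h3⟩
  exact M.closure_subset_closure h1 h2

/-- **Row MIN.** -/
theorem VSys.exists_min [Finite ι] {Col : κ → Set α} {tb : κ → τ} (Fz : Set ι)
    (hν : ∀ s ∉ Fz, ν {s} = 0) : ∀ (M : Matroid α) [M.Finite] (Rw : ι → Set α) (D : Set α),
    VSys M Rw ν D Col tb → (∀ s, Disjoint D (Rw s)) →
    ∃ (Z : Set α) (Rw' : ι → Set α), Z ⊆ D ∧ (∀ s, Rw' s ⊆ Rw s) ∧ (∀ s ∈ Fz, Rw' s = Rw s) ∧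
      VSys (M ／ Z) Rw' ν (D \ Z) Col tb ∧
      ∀ s ∉ Fz, ∀ t ∈ D \ Z, t ∈ (M ／ Z).closure (Rw' s) → Blind (M ／ Z) Rw' s t := by
  classical
  intro M _ Rw D h hD
  induction hn : (⋃ s, Rw s).ncard using Nat.strong_induction_on generalizing M Rw D with
  | _ n ih =>
    by_cases hmin : ∀ s ∉ Fz, ∀ t ∈ D, t ∈ M.closure (Rw s) → Blind M Rw s t
    · refine ⟨∅, Rw, empty_subset _, fun s => Subset.rfl, fun s _ => rfl, ?_, ?_⟩
      · rw [Matroid.contract_empty, sdiff_empty]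
        exact h
      · rw [Matroid.contract_empty, sdiff_empty]
        exact hmin
    · push Not at hmin
      obtain ⟨s₀, hs₀, t, htD, ht, hB⟩ := hmin
      obtain ⟨Z, A, h1, h2, h3, h4, h5⟩ := h.move hD (hν s₀ hs₀) htD ht hB
      have f1 : (M ／ Z).Finite := ⟨M.ground_finite.subset sdiff_subset⟩
      have hsub : ∀ s, Function.update Rw s₀ (Rw s₀ \ A) s ⊆ Rw s := by
        intro s
        by_cases hs : s = s₀
        · rw [hs, Function.update_self]
          exact sdiff_subset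
        · rw [Function.update_of_ne hs]
      have hlt : (⋃ s, Function.update Rw s₀ (Rw s₀ \ A) s).ncard < n := by
        rw [← hn]
        refine ncard_lt_ncard ?_ (M.ground_finite.subset h.rows.sub')
        refine (Set.ssubset_iff_of_subset (iUnion_mono hsub)).2 ?_
        obtain ⟨a, ha⟩ := h3
        refine ⟨a, mem_iUnion.2 ⟨s₀, h2 ha⟩, fun h6 => ?_⟩
        obtain ⟨s, hs⟩ := mem_iUnion.1 h6
        have h7 : s = s₀ := h.rows.uniq (hsub s hs) (h2 ha)
        rw [h7, Function.update_self] at hs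
        exact hs.2 ha
      obtain ⟨Z', Rw', g1, g2, g3, g4, g5⟩ := ih _ hlt (M ／ Z) _ (D \ Z) h5
        (fun s => (hD s).mono sdiff_subset (hsub s)) rfl
      refine ⟨Z ∪ Z', Rw', union_subset h1 (g1.trans sdiff_subset), fun s => (g2 s).trans (hsub s),
        ?_, ?_, ?_⟩
      · intro s hs
        rw [g3 s hs]
        have h6 : s ≠ s₀ := fun h7 => hs₀ (h7 ▸ hs)
        rw [Function.update_of_ne h6]
      · rw [← Matroid.contract_contract, ← sdiff_sdiff]
        exact g4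
      · rw [← Matroid.contract_contract, ← sdiff_sdiff]
        exact g5

end TST
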