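import Pool.Agent.TST.Move

/-!
# V-systems and their steps (row MV of T-star, CLAIM A by minimality)

`VSys M Rw ν D Col tb`: exact rows, `D` in their closure, columns `Col f` (fixed sets of elements)
in tiles `tb f`.  `V1`: one conflict per tile is independent over `D` and the rows outside of the
tiles.  `V2`: a column has rank one over `D`.  `D` may contain elements of the rows (elements which
were used in moves), the columns do not meet `D`.
`VSys.step`: new exact rows in `S ∪ D`; a set `Z ⊆ D` skew to the new rows is contracted.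
-/

set_option autoImplicit false

open Set BIC BICS
open scoped Matroid

namespace TST

variable {α ι ι' κ τ : Type*} {M : Matroid α}

/-- A set `Z` which is skew to `S` and spans the rest of `D₁` with it. -/
lemma exists_skew [M.Finite] {S D₁ : Set α} (hS : S ⊆ M.E) (hD : D₁ ⊆ M.E) :
    ∃ Z ⊆ D₁, BIC.rk M (S ∪ Z) = BIC.rk M S + Z.ncard ∧ D₁ ⊆ M.closure (S ∪ Z) := by
  classical
  obtain ⟨I, hI⟩ := M.exists_isBasis S hS
  obtain ⟨J, hJ, hIJ⟩ := hI.indep.subset_isBasis_of_subset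
    (subset_union_left : I ⊆ I ∪ D₁) (union_subset hI.indep.subset_ground hD)
  have hJf : J.Finite := M.ground_finite.subset hJ.indep.subset_ground
  have hJI : J \ I ⊆ D₁ := fun x hx => (hJ.subset hx.1).resolve_left hx.2
  have hc1 : M.closure (S ∪ (J \ I)) = M.closure J := by
    refine Subset.antisymm ?_ ?_
    · refine M.closure_subset_closure_of_subset_closure (union_subset ?_ ?_)
      · exact (hI.subset_closure).trans (M.closure_subset_closure hIJ)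
      · exact sdiff_subset.trans (M.subset_closure J hJ.indep.subset_ground)
    · refine M.closure_subset_closure ?_
      intro x hx
      by_cases hxI : x ∈ I
      · exact Or.inl (hI.subset hxI)
      · exact Or.inr ⟨hx, hxI⟩
  refine ⟨J \ I, hJI, ?_, ?_⟩
  · have h1 : BIC.rk M (S ∪ (J \ I)) = J.ncard := by
      rw [← rk_closure, hc1, rk_closure, rk_indep hJ.indep]
    have h2 : BIC.rk M S = I.ncard := by
      rw [← rk_closure, hI.closure_eq_closure.symm, rk_closure, rk_indep hI.indep]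
    rw [h1, h2, ← ncard_sdiff_add_ncard_of_subset hIJ hJf, add_comm]
  · rw [hc1]
    exact subset_union_right.trans (hJ.subset_closure)

/-- A skew set can be contracted. -/
lemma rk_skew_sub [M.Finite] {S Z X : Set α} (hZf : Z.Finite)
    (hZ : BIC.rk M (S ∪ Z) = BIC.rk M S + Z.ncard) (hX : X ⊆ S) :
    BIC.rk M (X ∪ Z) = BIC.rk M X + Z.ncard := by
  have h1 := rk_union_le M (X := X) hZf
  have h2 := rk_submod M (X ∪ Z) S
  have h3 : BIC.rk M X ≤ BIC.rk M ((X ∪ Z) ∩ S) :=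
    rk_mono M fun x hx => ⟨Or.inl hx, hX hx⟩
  have h4 : BIC.rk M (S ∪ Z) ≤ BIC.rk M ((X ∪ Z) ∪ S) := by
    refine rk_mono M ?_
    rintro x (hx | hx)
    · exact Or.inr hx
    · exact Or.inl (Or.inr hx)
  omega

lemma rk_con_skew [M.Finite] {S Z X : Set α} (hZE : Z ⊆ M.E)
    (hZ : BIC.rk M (S ∪ Z) = BIC.rk M S + Z.ncard) (hSE : S ⊆ M.E) (hSZ : Disjoint S Z)
    (hX : X ⊆ S) : BIC.rk (M ／ Z) X = BIC.rk M X := by
  have hZf : Z.Finite := M.ground_finite.subset hZE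
  have h1 := rk_skew_sub hZf hZ hX
  have h2 := rk_skew_sub hZf hZ (empty_subset S)
  have h3 := rk_contract_set (M := M) hZE (X := X) (fun x hx => ⟨hSE (hX hx), fun h =>
    Set.disjoint_left.1 hSZ (hX hx) h⟩)
  have h4 : BIC.rk M (∅ : Set α) = 0 := by
    have := rk_le_ncard M (finite_empty (α := α))
    rw [ncard_empty] at this
    omega
  rw [empty_union] at h2
  omega

/-- The rows are not changed by the contraction of a skew set. -/
lemma RowF.con [M.Finite] {Rw : ι → Set α} {ν : Set ι → ℕ} (h : RowF M Rw ν) {Z : Set α}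
    (hZE : Z ⊆ M.E) (hZ : BIC.rk M ((⋃ s, Rw s) ∪ Z) = BIC.rk M (⋃ s, Rw s) + Z.ncard)
    (hSZ : Disjoint (⋃ s, Rw s) Z) : RowF (M ／ Z) Rw ν where
  sub := fun s x hx => ⟨h.sub s hx, fun hxZ =>
    Set.disjoint_left.1 hSZ (mem_iUnion.2 ⟨s, hx⟩) hxZ⟩
  ne := h.ne
  dis := h.dis
  rk := fun X hX => by
    rw [rk_con_skew hZE hZ h.sub' hSZ hX]
    exact h.rk X hX

/-- the elements of the tiles in `B` -/
def TT (Col : κ → Set α) (tb : κ → τ) (B : Set τ) : Set α := {x | ∃ f, tb f ∈ B ∧ x ∈ Col f}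

/-- A V-system. -/
structure VSys (M : Matroid α) (Rw : ι → Set α) (ν : Set ι → ℕ) (D : Set α) (Col : κ → Set α)
    (tb : κ → τ) : Prop where
  rows : RowF M Rw ν
  D_cl : D ⊆ M.closure (⋃ s, Rw s)
  col_D : ∀ f, Disjoint (Col f) D
  V1 : ∀ (B : Finset τ) (c : τ → α), (∀ b ∈ B, c b ∈ (⋃ s, Rw s) ∩ TT Col tb {b}) →
    BIC.rk M (D ∪ ((⋃ s, Rw s) \ TT Col tb B)) + B.card ≤
      BIC.rk M (c '' B ∪ (D ∪ ((⋃ s, Rw s) \ TT Col tb B)))
  V2 : ∀ f, BIC.rk M (D ∪ (Col f ∩ ⋃ s, Rw s)) ≤ BIC.rk M D + 1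

variable {Rw : ι → Set α} {ν : Set ι → ℕ} {D : Set α} {Col : κ → Set α} {tb : κ → τ}

lemma TT_D (h : VSys M Rw ν D Col tb) (B : Set τ) : Disjoint (TT Col tb B) D := by
  rw [Set.disjoint_left]
  rintro x ⟨f, _, hx⟩ hxD
  exact Set.disjoint_left.1 (h.col_D f) hx hxD

/-- **Step.** -/
theorem VSys.step [M.Finite] (h : VSys M Rw ν D Col tb) {Rw' : ι' → Set α} {ν' : Set ι' → ℕ}
    (hR : RowF M Rw' ν') (hsub : (⋃ s, Rw' s) ⊆ (⋃ s, Rw s) ∪ D) {D₁ : Set α}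
    (hD₁ : D₁ ⊆ D \ ⋃ s, Rw' s) (hcl : D ⊆ M.closure ((⋃ s, Rw' s) ∪ D₁)) :
    ∃ Z ⊆ D₁, BIC.rk M ((⋃ s, Rw' s) ∪ Z) = BIC.rk M (⋃ s, Rw' s) + Z.ncard ∧
      D₁ ⊆ M.closure ((⋃ s, Rw' s) ∪ Z) ∧ VSys (M ／ Z) Rw' ν' (D \ Z) Col tb := by
  classical
  have hDE : D ⊆ M.E := h.D_cl.trans (M.closure_subset_ground _)
  have hD₁D : D₁ ⊆ D := hD₁.trans sdiff_subset
  have hS'E := hR.sub'
  obtain ⟨Z, hZD, hZ, hZc⟩ := exists_skew (M := M) hS'E (hD₁D.trans hDE)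
  have hZE : Z ⊆ M.E := hZD.trans (hD₁D.trans hDE)
  have hSZ : Disjoint (⋃ s, Rw' s) Z := by
    rw [Set.disjoint_left]
    intro x hx hxZ
    exact (hD₁ (hZD hxZ)).2 hx
  have hmem : ∀ x ∈ ⋃ s, Rw' s, ∀ B : Set τ, x ∈ TT Col tb B → x ∈ ⋃ s, Rw s := by
    intro x hx B hxB
    refine (hsub hx).resolve_right fun hxD => ?_
    exact Set.disjoint_left.1 (TT_D h B) hxB hxD
  have hDZ : (D \ Z) ∪ Z = D := sdiff_union_of_subset (hZD.trans hD₁D)
  refine ⟨Z, hZD, hZ, hZc, hR.con hZE hZ hSZ, ?_, ?_, ?_, ?_⟩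
  · rw [Matroid.contract_closure_eq]
    rintro x ⟨hx, hxZ⟩
    refine ⟨?_, hxZ⟩
    refine M.closure_subset_closure_of_subset_closure ?_ (hcl hx)
    exact union_subset (subset_union_left.trans (M.subset_closure _ (union_subset hS'E hZE))) hZc
  · intro f
    exact (h.col_D f).mono_right sdiff_subset
  · intro B c hc
    have hP : ∀ Q : Set α, Q ⊆ (D \ Z) ∪ ((⋃ s, Rw' s)) →
        BIC.rk (M ／ Z) Q + BIC.rk M Z = BIC.rk M (Q ∪ Z) := by
      intro Q hQ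
      refine rk_contract_set hZE ?_
      intro x hx
      rcases hQ hx with h1 | h1
      · exact ⟨hDE h1.1, h1.2⟩
      · exact ⟨hS'E h1, fun h2 => Set.disjoint_left.1 hSZ h1 h2⟩
    have hcS : c '' B ⊆ ⋃ s, Rw' s := by
      rintro _ ⟨b, hb, rfl⟩
      exact (hc b hb).1
    have e1 := hP ((D \ Z) ∪ ((⋃ s, Rw' s) \ TT Col tb B))
      (union_subset_union_right _ sdiff_subset)
    have e2 := hP (c '' B ∪ ((D \ Z) ∪ ((⋃ s, Rw' s) \ TT Col tb B)))
      (union_subset (hcS.trans subset_union_right) (union_subset_union_right _ sdiff_subset))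
    have e3 : (D \ Z) ∪ ((⋃ s, Rw' s) \ TT Col tb B) ∪ Z =
        D ∪ ((⋃ s, Rw' s) \ TT Col tb B) := by
      rw [union_right_comm, hDZ]
    have e4 : c '' B ∪ ((D \ Z) ∪ ((⋃ s, Rw' s) \ TT Col tb B)) ∪ Z =
        c '' B ∪ (D ∪ ((⋃ s, Rw' s) \ TT Col tb B)) := by
      rw [union_assoc, e3]
    rw [e3] at e1
    rw [e4] at e2
    -- compare with the old system
    have hV := h.V1 B c fun b hb => ⟨hmem _ (hc b hb).1 _ (hc b hb).2, (hc b hb).2⟩
    have hPP : D ∪ ((⋃ s, Rw' s) \ TT Col tb B) ⊆ D ∪ ((⋃ s, Rw s) \ TT Col tb B) := by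
      rintro x (hx | hx)
      · exact Or.inl hx
      · rcases hsub hx.1 with h1 | h1
        · exact Or.inr ⟨h1, hx.2⟩
        · exact Or.inl h1
    have h1 := rk_submod M (c '' B ∪ (D ∪ ((⋃ s, Rw' s) \ TT Col tb B)))
      (D ∪ ((⋃ s, Rw s) \ TT Col tb B))
    have h2 : BIC.rk M (D ∪ ((⋃ s, Rw' s) \ TT Col tb B)) ≤
        BIC.rk M ((c '' B ∪ (D ∪ ((⋃ s, Rw' s) \ TT Col tb B))) ∩
          (D ∪ ((⋃ s, Rw s) \ TT Col tb B))) :=
      rk_mono M fun x hx => ⟨Or.inr hx, hPP hx⟩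
    have h3 : BIC.rk M (c '' B ∪ (D ∪ ((⋃ s, Rw s) \ TT Col tb B))) ≤
        BIC.rk M ((c '' B ∪ (D ∪ ((⋃ s, Rw' s) \ TT Col tb B))) ∪
          (D ∪ ((⋃ s, Rw s) \ TT Col tb B))) := by
      refine rk_mono M ?_
      rintro x (hx | hx)
      · exact Or.inl (Or.inl hx)
      · exact Or.inr hx
    omega
  · intro f
    have e1 := rk_contract_set (M := M) hZE (X := (D \ Z) ∪ (Col f ∩ ⋃ s, Rw' s)) (by
      rintro x (hx | hx)
      · exact ⟨hDE hx.1, hx.2⟩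
      · exact ⟨hS'E hx.2, fun h2 => Set.disjoint_left.1 hSZ hx.2 h2⟩)
    have e2 := rk_contract_set (M := M) hZE (X := D \ Z) (fun x hx => ⟨hDE hx.1, hx.2⟩)
    rw [union_right_comm, hDZ] at e1
    rw [hDZ] at e2
    have h1 : BIC.rk M (D ∪ (Col f ∩ ⋃ s, Rw' s)) ≤ BIC.rk M (D ∪ (Col f ∩ ⋃ s, Rw s)) := by
      refine rk_mono M ?_
      rintro x (hx | hx)
      · exact Or.inl hx
      · rcases hsub hx.2 with h2 | h2
        · exact Or.inr ⟨hx.1, h2⟩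
        · exact Or.inl h2
    have h2 := h.V2 f
    omega

/-- The total form of `V2`. -/
theorem VSys.total [M.Finite] [Fintype κ] [DecidableEq κ] (h : VSys M Rw ν D Col tb)
    (B : Finset τ) (F : Finset κ) (hF : ∀ f, tb f ∈ B → f ∈ F) :
    BIC.rk M (⋃ s, Rw s) ≤ BIC.rk M (D ∪ ((⋃ s, Rw s) \ TT Col tb B)) + F.card := by
  have key : ∀ G : Finset κ, BIC.rk M ((D ∪ ((⋃ s, Rw s) \ TT Col tb B)) ∪
      ⋃ f ∈ G, (Col f ∩ ⋃ s, Rw s)) ≤ BIC.rk M (D ∪ ((⋃ s, Rw s) \ TT Col tb B)) + G.card := by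
    intro G
    induction G using Finset.induction_on with
    | empty => simp
    | insert f G hf ih =>
      rw [Finset.card_insert_of_notMem hf, Finset.set_biUnion_insert]
      obtain ⟨P, hP⟩ : ∃ P, P = (D ∪ ((⋃ s, Rw s) \ TT Col tb B)) ∪
        ⋃ f ∈ G, (Col f ∩ ⋃ s, Rw s) := ⟨_, rfl⟩
      rw [← hP] at ih
      have h1 := rk_submod M P (D ∪ (Col f ∩ ⋃ s, Rw s))
      have h2 : BIC.rk M D ≤ BIC.rk M (P ∩ (D ∪ (Col f ∩ ⋃ s, Rw s))) := by
        refine rk_mono M fun x hx => ⟨?_, Or.inl hx⟩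
        rw [hP]
        exact Or.inl (Or.inl hx)
      have h3 : BIC.rk M ((D ∪ ((⋃ s, Rw s) \ TT Col tb B)) ∪ ((Col f ∩ ⋃ s, Rw s) ∪
          ⋃ f ∈ G, (Col f ∩ ⋃ s, Rw s))) ≤ BIC.rk M (P ∪ (D ∪ (Col f ∩ ⋃ s, Rw s))) := by
        refine rk_mono M ?_
        rw [hP]
        rintro x (hx | hx | hx)
        · exact Or.inl (Or.inl hx)
        · exact Or.inr (Or.inr hx)
        · exact Or.inl (Or.inr hx)
      have h4 := h.V2 f
      omega
  refine le_trans (rk_mono M ?_) (key F)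
  intro x hx
  by_cases hxT : x ∈ TT Col tb B
  · obtain ⟨f, hf, hxf⟩ := hxT
    exact Or.inr (mem_iUnion₂.2 ⟨f, hF f hf, hxf, hx⟩)
  · exact Or.inl (Or.inr ⟨hx, hxT⟩)

/-- **Move (R-a) in a V-system.**  All tiles which meet `A` lose elements. -/
theorem VSys.moveA [M.Finite] [DecidableEq ι] (h : VSys M Rw ν D Col tb) {s₀ : ι} {t : α}
    {A : Set α} (htD : t ∈ D) (ht : t ∈ M.closure (Rw s₀)) (htS : ∀ s, t ∉ Rw s)
    (hA : A ⊆ Rw s₀) (hAne : A.Nonempty)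
    (hcl : ∀ a ∈ A, ∀ a' ∈ A, a ≠ a' → t ∈ M.closure ((⋃ s, Rw s) \ {a, a'}))
    (hsep : ∀ a ∈ A, ∀ c ∈ Rw s₀, c ∉ A → t ∉ M.closure ((⋃ s, Rw s) \ {a, c}))
    (hbal : ∀ a ∈ A, t ∉ M.closure (Rw s₀ \ {a})) {D₁ : Set α}
    (hD₁ : D₁ ⊆ D \ ⋃ s, Function.update Rw s₀ (insert t (Rw s₀ \ A)) s)
    (hD₁c : D ⊆ M.closure ((⋃ s, Function.update Rw s₀ (insert t (Rw s₀ \ A)) s) ∪ D₁)) :
    ∃ Z ⊆ D₁, BIC.rk M ((⋃ s, Function.update Rw s₀ (insert t (Rw s₀ \ A)) s) ∪ Z) =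
        BIC.rk M (⋃ s, Function.update Rw s₀ (insert t (Rw s₀ \ A)) s) + Z.ncard ∧
      D₁ ⊆ M.closure ((⋃ s, Function.update Rw s₀ (insert t (Rw s₀ \ A)) s) ∪ Z) ∧
      VSys (M ／ Z) (Function.update Rw s₀ (insert t (Rw s₀ \ A))) ν (D \ Z) Col tb := by
  have hR := h.rows.moveA ht htS hA hAne hcl hsep hbal
  refine h.step hR ?_ hD₁ hD₁c
  refine iUnion_subset fun s => ?_
  by_cases hs : s = s₀
  · rw [hs, Function.update_self]
    rintro x (hx | hx)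
    · exact Or.inr (hx ▸ htD)
    · exact Or.inl (mem_iUnion.2 ⟨s₀, hx.1⟩)
  · rw [Function.update_of_ne hs]
    exact (subset_iUnion Rw s).trans subset_union_left

end TST
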