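import Pool.Agent.TST.RowsRe
import Pool.Agent.TST.VSys

/-!
# The clean pair after moves on the rows (row P1 of T-star)

`Z` is contracted (elements which are in no row and no column), `Y` (conflicts which are on the rows no
more) is deleted; the rows are exact for the same nullities.
-/

open Set BIC BICS CWL
open scoped Matroid

namespace TST

variable {α : Type*} {M : Matroid α} {S₁ S₂ : Set (Bool × ℕ × ℕ)}
  {L₁ L₂ L' : Bool × ℕ × ℕ → List α} {f₁ f₂ : α → Sym2 ((ℕ × ℕ) ⊕ α)}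
  {e₁ e₂ e' : Bool × ℕ × ℕ → α} {u₁ u₂ : ℕ}

/-- **The pair after moves.** -/
theorem pair_min [M.Finite] (h : Pair M S₁ L₁ f₁ e₁ u₁ S₂ L₂ f₂ e₂ u₂) {Z Y : Set α}
    (hZ : Disjoint (crr L₂ S₂) Z) (hY : Y ⊆ crr L₂ S₂) (hYe : ∀ s ∈ S₂, e₂ s ∉ Y)
    (hnd' : ∀ s ∈ S₁, (L' s).Nodup) (hm : ∀ s ∈ S₁, ∀ x, x ∈ L' s → x ∈ L₁ s)
    (he' : ∀ s ∈ S₁, (L' s).getLast? = some (e' s)) (hYL : Disjoint (crr L' S₁) Y)
    (hF : RowF (M ／ Z) (fun s : {s // s ∈ S₁} => {x | x ∈ L' s.1}) (nuG M S₁ L₁))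
    (hdj : Disjoint (e' '' S₁) (e₂ '' S₂)) :
    ∃ f₁' f₂', Pair (M ／ Z ＼ Y) S₁ L' f₁' e' u₁ S₂ (lrem L₂ Y) f₂' e₂ u₂ := by
  obtain ⟨f₁', h1⟩ := gside_of_rowF h.s₁ hnd' hm he' hF
  have hfM : M✶.Finite := inferInstance
  have h2 := h.s₂.delete hZ
  have hfD : (M✶ ＼ Z).Finite := BQ.fin_delete Z
  obtain ⟨f₂', h3⟩ := h2.contract hY hYe
  have hfZ : (M ／ Z).Finite := BQ.fin_contract Z
  refine ⟨f₁', f₂', h1.delete hYL, ?_, hdj⟩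
  rw [Matroid.dual_delete, Matroid.dual_contract]
  exact h3

end TST
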