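import Pool.Agent.TST.LDef
import Pool.Agent.CW.V1
import Pool.Agent.TST.Min
import Pool.Agent.TST.PairMin

/-!
# Systems after P0 and after P1 (T-star)
-/

open Set BIC BICS CWL
open scoped Matroid

namespace TSH

universe u

/-- **System after P0** (input of P1): rows of labels, conflicts of unused tiles and anchors, `D` =
the elements which are good for the chosen group; there may be other elements in `M` (no clause).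
`V2` only for the set of all tiles. -/
structure BSys {α : Type u} (M : Matroid α) (w s : ℕ) (𝒯 : Finset (ℕ × ℕ))
    (L₁ : Bool × ℕ × ℕ → List α) (f₁ : α → Sym2 ((ℕ × ℕ) ⊕ α)) (e₁ : Bool × ℕ × ℕ → α) (u₁ : ℕ)
    (L₂ : Bool × ℕ × ℕ → List α) (f₂ : α → Sym2 ((ℕ × ℕ) ⊕ α)) (e₂ : Bool × ℕ × ℕ → α) (u₂ : ℕ)
    (D : Set α) (σ n m : ℕ) (τ : ℕ → ℕ × ℕ) (R : ℕ → Bool × ℕ × ℕ) (c : ℕ → ℕ → α)
    (Za : Finset (Bool × ℕ × ℕ)) : Prop where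
  pair : Pair M (Seg w) L₁ f₁ e₁ u₁ (cores s 𝒯) L₂ f₂ e₂ u₂
  tau : ∀ b < n, τ b ∈ 𝒯
  tinj : ∀ a < n, ∀ b < n, τ a = τ b → a = b
  row : ∀ i < m, R i ∈ Seg w
  mem : ∀ i < m, ∀ b < n, c i b ∈ L₁ (R i)
  lab : ∀ i < m, ∀ b < n, c i b ∈ crr L₂ (shS (τ b).1 (τ b).2 '' core (s + 2))
  inj : ∀ i < m, ∀ b < n, ∀ j < m, ∀ a < n, c i b = c j a → i = j ∧ b = a
  anc : ∀ i < m, ∀ b < n, ∀ r ∈ Seg w, c i b ≠ e₁ r
  all : ∀ r ∈ Seg w, r ∉ Za → ∀ x ∈ L₁ r, x = e₁ r ∨ ∃ i < m, ∃ b < n, x = c i b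
  tile : ∀ b < n, ∀ x ∈ crr L₁ (Seg w), x ∈ crr L₂ (shS (τ b).1 (τ b).2 '' core (s + 2)) →
    ∃ i < m, x = c i b
  anchor : ∀ σ ∈ cores s 𝒯, ∀ r ∈ Seg w, e₂ σ ∈ L₁ r → r ∈ Za
  ze : ∀ r ∈ Seg w, e₁ r ∉ crr L₂ (cores s 𝒯)
  D_cl : D ⊆ M.closure (crr L₁ (Seg w))
  D₁ : Disjoint D (crr L₁ (Seg w))
  D₂ : Disjoint D (crr L₂ (cores s 𝒯))
  /-- (V1) one kept conflict in each tile of `B` -/
  V1 : ∀ (B : Finset ℕ) (I : ℕ → ℕ), (∀ b ∈ B, b < n ∧ I b < m) →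
    rk M (D ∪ (crr L₁ (Seg w) \ KB m c B)) + B.card ≤
      rk M ((fun b => c (I b) b) '' (B : Set ℕ) ∪ (D ∪ (crr L₁ (Seg w) \ KB m c B))) + u₂
  /-- (V2) for the set of all tiles -/
  V2 : rk M (crr L₁ (Seg w)) ≤ rk M (D ∪ (crr L₁ (Seg w) \ KB m c (Iio n))) + σ * n

/-- **Minimal system** (output of P1), without order: the rows consist of labels, of conflicts of
tiles which are not used, or of one element; every element of `D` in the closure of one row `r ∉ Za`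
is a loop or sees nothing.  There may be other elements in `M` (no clause). -/
structure MSys {α : Type u} (M : Matroid α) (w s : ℕ) (𝒯 : Finset (ℕ × ℕ))
    (L₁ : Bool × ℕ × ℕ → List α) (f₁ : α → Sym2 ((ℕ × ℕ) ⊕ α)) (e₁ : Bool × ℕ × ℕ → α) (u₁ : ℕ)
    (L₂ : Bool × ℕ × ℕ → List α) (f₂ : α → Sym2 ((ℕ × ℕ) ⊕ α)) (e₂ : Bool × ℕ × ℕ → α) (u₂ : ℕ)
    (D : Set α) (σ n m : ℕ) (τ : ℕ → ℕ × ℕ) (R : ℕ → Bool × ℕ × ℕ) (c : ℕ → ℕ → α)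
    (Za : Finset (Bool × ℕ × ℕ)) : Prop where
  pair : Pair M (Seg w) L₁ f₁ e₁ u₁ (cores s 𝒯) L₂ f₂ e₂ u₂
  tau : ∀ b < n, τ b ∈ 𝒯
  tinj : ∀ a < n, ∀ b < n, τ a = τ b → a = b
  row : ∀ i < m, R i ∈ Seg w
  mem : ∀ i < m, ∀ b < n, c i b ∈ L₁ (R i)
  lab : ∀ i < m, ∀ b < n, c i b ∈ crr L₂ (shS (τ b).1 (τ b).2 '' core (s + 2))
  inj : ∀ i < m, ∀ b < n, ∀ j < m, ∀ a < n, c i b = c j a → i = j ∧ b = a
  tile : ∀ b < n, ∀ x ∈ crr L₁ (Seg w), x ∈ crr L₂ (shS (τ b).1 (τ b).2 '' core (s + 2)) →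
    ∃ i < m, x = c i b
  anchor : ∀ σ ∈ cores s 𝒯, ∀ r ∈ Seg w, e₂ σ ∈ L₁ r → r ∈ Za
  D_cl : D ⊆ M.closure (crr L₁ (Seg w))
  D₁ : Disjoint D (crr L₁ (Seg w))
  D₂ : Disjoint D (crr L₂ (cores s 𝒯))
  /-- (V1) one kept conflict in each tile of `B` -/
  V1 : ∀ (B : Finset ℕ) (I : ℕ → ℕ), (∀ b ∈ B, b < n ∧ I b < m) →
    rk M (D ∪ (crr L₁ (Seg w) \ KB m c B)) + B.card ≤
      rk M ((fun b => c (I b) b) '' (B : Set ℕ) ∪ (D ∪ (crr L₁ (Seg w) \ KB m c B))) + u₂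
  /-- (V2) for the set of all tiles -/
  V2 : rk M (crr L₁ (Seg w)) ≤ rk M (D ∪ (crr L₁ (Seg w) \ KB m c (Iio n))) + σ * n
  /-- minimality -/
  min : ∀ r : {r // r ∈ Seg w}, r.1 ∉ Za → ∀ t ∈ D, t ∈ M.closure {x | x ∈ L₁ r.1} →
    TST.Blind M (fun r : {r // r ∈ Seg w} => {x | x ∈ L₁ r.1}) r t

end TSH
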