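import Pool.Agent.TST.OutDef
import Pool.Agent.TST.LCore
import Pool.Agent.DA.SetOm

/-!
# T-star: contraction of the conflicts of the unused tiles (helper34)

`unus m N n R c κ Q` = conflicts `c i b` with `R i ∈ Q` of the tiles `b < N` which are not `κ b'`, `b' < n`.
-/

open Set BIC BICS CWL
open scoped Matroid

namespace TSH

universe u

open Mdl Mdj EN Gad TST EN.Wall

/-- the conflicts of the unused tiles on the rows of `Q` -/
def unus {α : Type u} (m N n : ℕ) (R : ℕ → Bool × ℕ × ℕ) (c : ℕ → ℕ → α) (κ : ℕ → ℕ)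
    (Q : Set (Bool × ℕ × ℕ)) : Set α :=
  {x | ∃ i < m, R i ∈ Q ∧ ∃ b < N, (∀ b' < n, κ b' ≠ b) ∧ x = c i b}

lemma unus_mono {α : Type u} {m N n : ℕ} {R : ℕ → Bool × ℕ × ℕ} {c : ℕ → ℕ → α} {κ : ℕ → ℕ}
    {Q Q' : Set (Bool × ℕ × ℕ)} (h : Q ⊆ Q') : unus m N n R c κ Q ⊆ unus m N n R c κ Q' := by
  rintro x ⟨i, hi, hQ, h1⟩
  exact ⟨i, hi, h hQ, h1⟩

/-- `Sees` after a contraction inside of `S` -/
lemma sees_con {α : Type u} {M : Matroid α} {S Z : Set α} (hZ : Z ⊆ S) {t x y : α}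
    (ht : t ∉ Z) (hx : x ∉ Z) (hy : y ∉ Z) : Sees (M ／ Z) (S \ Z) t x y ↔ Sees M S t x y := by
  unfold Sees
  rw [Matroid.contract_closure_eq]
  have e1 : (S \ Z) \ {x, y} ∪ Z = S \ {x, y} := by
    ext a
    simp only [mem_union, mem_sdiff, mem_insert_iff, mem_singleton_iff, not_or]
    constructor
    · rintro (⟨⟨h1, _⟩, h3⟩ | h1)
      · exact ⟨h1, h3⟩
      · exact ⟨hZ h1, fun h => hx (h ▸ h1), fun h => hy (h ▸ h1)⟩
    · rintro ⟨h1, h2⟩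
      by_cases h3 : a ∈ Z
      · exact Or.inr h3
      · exact Or.inl ⟨⟨h1, h3⟩, h2⟩
  rw [e1]
  exact not_congr ⟨fun h => h.1, fun h => ⟨h, ht⟩⟩

/-- locations after a contraction inside of `S` -/
lemma locR_con {α : Type u} {M : Matroid α} {S Z : Set α} {row : α → Sym2 (ℕ × ℕ)} {c : Set α}
    (hZ : Z ⊆ S) (hc : c ⊆ S \ Z) {z : α} (hz : z ∉ Z) :
    DA.LocR (M ／ Z) (S \ Z) row c z = DA.LocR M S row c z := by
  ext v
  unfold DA.LocR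
  simp only [mem_ofPred_eq]
  rw [Matroid.contract_closure_eq]
  have e1 : (S \ Z) \ {e | e ∈ c ∧ v ∈ row e} ∪ Z = S \ {e | e ∈ c ∧ v ∈ row e} := by
    ext a
    simp only [mem_union, mem_sdiff, mem_ofPred_eq, not_and]
    constructor
    · rintro (⟨⟨h1, _⟩, h3⟩ | h1)
      · exact ⟨h1, h3⟩
      · exact ⟨hZ h1, fun h => absurd h1 (hc h).2⟩
    · rintro ⟨h1, h2⟩
      by_cases h3 : a ∈ Z
      · exact Or.inr h3
      · exact Or.inl ⟨⟨h1, h3⟩, h2⟩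
  rw [e1]
  exact not_congr ⟨fun h => h.1, fun h => ⟨h, hz⟩⟩

/-- ranks after a contraction inside of both sets -/
lemma rk_con_sub {α : Type u} {M : Matroid α} [M.Finite] {Z X : Set α} (hX : X ⊆ M.E) (hZ : Z ⊆ X) :
    rk (M ／ Z) (X \ Z) + rk M Z = rk M X := by
  rw [rk_contract_set (hZ.trans hX) (fun x hx => ⟨hX hx.1, hx.2⟩), sdiff_union_of_subset hZ]

section

variable {α : Type u} {M : Matroid α} {w s : ℕ} {𝒯 : Finset (ℕ × ℕ)}
  {L₁ : Bool × ℕ × ℕ → List α} {f₁ : α → Sym2 ((ℕ × ℕ) ⊕ α)} {e₁ : Bool × ℕ × ℕ → α} {u₁ : ℕ}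
  {L₂ : Bool × ℕ × ℕ → List α} {f₂ : α → Sym2 ((ℕ × ℕ) ⊕ α)} {e₂ : Bool × ℕ × ℕ → α} {u₂ : ℕ}
  {D : Set α} {σ N m n : ℕ} {τ : ℕ → ℕ × ℕ} {R : ℕ → Bool × ℕ × ℕ} {c : ℕ → ℕ → α}
  {Za : Finset (Bool × ℕ × ℕ)} {κ : ℕ → ℕ} {Q : Set (Bool × ℕ × ℕ)}

lemma BSys.unus_sub (h : BSys M w s 𝒯 L₁ f₁ e₁ u₁ L₂ f₂ e₂ u₂ D σ N m τ R c Za) :
    unus m N n R c κ Q ⊆ crr L₁ (Seg w) := by
  rintro x ⟨i, hi, _, b, hb, _, rfl⟩
  exact ⟨R i, h.row i hi, h.mem i hi b hb⟩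

lemma BSys.used (h : BSys M w s 𝒯 L₁ f₁ e₁ u₁ L₂ f₂ e₂ u₂ D σ N m τ R c Za)
    (hκ : ∀ b < n, κ b < N) {i b : ℕ} (hi : i < m) (hb : b < n) :
    c i (κ b) ∉ unus m N n R c κ Q := by
  rintro ⟨j, hj, _, b', hb', h1, h2⟩
  exact h1 b hb (h.inj i hi _ (hκ b hb) j hj b' hb' h2).2

lemma BSys.unus_anc (h : BSys M w s 𝒯 L₁ f₁ e₁ u₁ L₂ f₂ e₂ u₂ D σ N m τ R c Za) :
    ∀ r ∈ Seg w, e₁ r ∉ unus m N n R c κ Q := by
  rintro r hr ⟨i, hi, _, b, hb, _, h2⟩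
  exact h.anc i hi b hb r hr h2.symm

lemma BSys.unus_D (h : BSys M w s 𝒯 L₁ f₁ e₁ u₁ L₂ f₂ e₂ u₂ D σ N m τ R c Za) :
    Disjoint D (unus m N n R c κ Q) := h.D₁.mono_right h.unus_sub

/-- the unused conflicts are not on the columns of the used tiles -/
lemma BSys.unus_col (h : BSys M w s 𝒯 L₁ f₁ e₁ u₁ L₂ f₂ e₂ u₂ D σ N m τ R c Za)
    (hκ : ∀ b < n, κ b < N) :
    Disjoint (crr L₂ (cores s ((Finset.range n).image fun b => τ (κ b)))) (unus m N n R c κ Q) := by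
  rw [Set.disjoint_left]
  rintro x ⟨σ', ⟨t, ht, hσ'⟩, hx⟩ hxU
  rw [Finset.mem_image] at ht
  obtain ⟨b, hb, rfl⟩ := ht
  rw [Finset.mem_range] at hb
  obtain ⟨i, hi, h1⟩ := h.tile (κ b) (hκ b hb) x (h.unus_sub hxU) ⟨σ', hσ', hx⟩
  rw [h1] at hxU
  exact h.used hκ hi hb hxU

/-- **The pair after the contraction of the unused conflicts on the rows of `Q`.** -/
theorem BSys.con_pair [M.Finite] (h : BSys M w s 𝒯 L₁ f₁ e₁ u₁ L₂ f₂ e₂ u₂ D σ N m τ R c Za)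
    (hκ : ∀ b < n, κ b < N) :
    ∃ f₁' : α → Sym2 ((ℕ × ℕ) ⊕ α),
      Pair (M ／ unus m N n R c κ Q) (Seg w) (lrem L₁ (unus m N n R c κ Q)) f₁' e₁ u₁
        (cores s ((Finset.range n).image fun b => τ (κ b))) L₂ f₂ e₂ u₂ := by
  refine (h.pair.subset₂ ?_).contract h.unus_sub (h.unus_col hκ) h.unus_anc
  rintro σ' ⟨t, ht, hσ'⟩
  rw [Finset.mem_image] at ht
  obtain ⟨b, hb, rfl⟩ := ht
  exact ⟨_, h.tau _ (hκ b (Finset.mem_range.1 hb)), hσ'⟩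

/-- **Contraction of the unused conflicts**: the system with the tiles `κ b`, `b < n`, only.
`Q` = all rows outside of `Za` (or more). -/
theorem BSys.con [M.Finite] (h : BSys M w s 𝒯 L₁ f₁ e₁ u₁ L₂ f₂ e₂ u₂ D σ N m τ R c Za)
    (hκ : ∀ b < n, κ b < N) (hκi : ∀ a < n, ∀ b < n, κ a = κ b → a = b)
    (hQ : ∀ r ∈ Seg w, r ∉ Za → r ∈ Q) {σ' : ℕ}
    (hV2 : rk M (crr L₁ (Seg w)) ≤
      rk M (D ∪ (crr L₁ (Seg w) \ KB m c (κ '' Iio n))) + σ' * n) :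
    ∃ f₁' : α → Sym2 ((ℕ × ℕ) ⊕ α),
      BSys (M ／ unus m N n R c κ Q) w s ((Finset.range n).image fun b => τ (κ b))
        (lrem L₁ (unus m N n R c κ Q)) f₁' e₁ u₁ L₂ f₂ e₂ u₂ D σ' n m (fun b => τ (κ b)) R
        (fun i b => c i (κ b)) Za := by
  classical
  obtain ⟨f₁', hP⟩ := h.con_pair (Q := Q) hκ
  obtain ⟨Z, hZ⟩ : ∃ Z, Z = unus m N n R c κ Q := ⟨_, rfl⟩
  have hZS : Z ⊆ crr L₁ (Seg w) := by rw [hZ]; exact h.unus_sub
  have hSE : crr L₁ (Seg w) ⊆ M.E := h.pair.s₁.sub_ground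
  have hDZ : Disjoint D Z := by rw [hZ]; exact h.unus_D
  have hused : ∀ i < m, ∀ b < n, c i (κ b) ∉ Z := fun i hi b hb => by
    rw [hZ]
    exact h.used hκ hi hb
  have hfM : (M ／ Z).Finite := BQ.fin_contract _
  have hDE : D ⊆ M.E := h.D_cl.trans (M.closure_subset_ground _)
  rw [← hZ] at hP ⊢
  have hKB : ∀ B : Set ℕ, (∀ b ∈ B, b < n) →
      KB m (fun i b => c i (κ b)) B = KB m c (κ '' B) := by
    intro B hB
    ext x
    constructor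
    · rintro ⟨i, hi, b, hb, hx⟩
      exact ⟨i, hi, κ b, ⟨b, hb, rfl⟩, hx⟩
    · rintro ⟨i, hi, _, ⟨b, hb, rfl⟩, hx⟩
      exact ⟨i, hi, b, hb, hx⟩
  have hKZ : ∀ B : Set ℕ, (∀ b ∈ B, b < n) → Z ⊆ crr L₁ (Seg w) \ KB m c (κ '' B) := by
    rintro B hB x hx
    refine ⟨hZS hx, ?_⟩
    rintro ⟨i, hi, _, ⟨b, hb, rfl⟩, rfl⟩
    exact hused i hi b (hB b hb) hx
  have hset : ∀ B : Set ℕ, (∀ b ∈ B, b < n) →
      D ∪ (crr (lrem L₁ Z) (Seg w) \ KB m (fun i b => c i (κ b)) B) =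
        (D ∪ (crr L₁ (Seg w) \ KB m c (κ '' B))) \ Z := by
    intro B hB
    rw [hKB B hB, crr_lrem, union_sdiff_distrib, hDZ.sdiff_eq_left]
    congr 1
    ext x
    simp only [mem_sdiff]
    tauto
  have hDSE : ∀ B : Set ℕ, D ∪ (crr L₁ (Seg w) \ KB m c B) ⊆ M.E := fun B =>
    union_subset hDE (sdiff_subset.trans hSE)
  refine ⟨f₁', ?_⟩
  refine
    { pair := hP
      tau := fun b hb => Finset.mem_image_of_mem _ (Finset.mem_range.2 hb)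
      tinj := fun a ha b hb hab => hκi a ha b hb (h.tinj _ (hκ a ha) _ (hκ b hb) hab)
      row := h.row
      mem := fun i hi b hb => mem_lrem.2 ⟨h.mem i hi _ (hκ b hb), hused i hi b hb⟩
      lab := fun i hi b hb => h.lab i hi _ (hκ b hb)
      inj := ?_
      anc := fun i hi b hb => h.anc i hi _ (hκ b hb)
      all := ?_
      tile := ?_
      anchor := ?_
      ze := ?_
      D_cl := ?_
      D₁ := ?_
      D₂ := ?_
      V1 := ?_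
      V2 := ?_ }
  · intro i hi b hb j hj a ha hab
    obtain ⟨h1, h2⟩ := h.inj i hi _ (hκ b hb) j hj _ (hκ a ha) hab
    exact ⟨h1, hκi b hb a ha h2⟩
  · intro r hr hrZ x hx
    obtain ⟨hx1, hx2⟩ := mem_lrem.1 hx
    rcases h.all r hr hrZ x hx1 with h1 | ⟨i, hi, b, hb, h1⟩
    · exact Or.inl h1
    · right
      by_cases h2 : ∃ b' < n, κ b' = b
      · obtain ⟨b', hb', rfl⟩ := h2
        exact ⟨i, hi, b', hb', h1⟩
      · exfalso
        apply hx2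
        rw [hZ]
        have h3 : R i = r := h.pair.s₁.uniq (h.row i hi) hr (h.mem i hi b hb) (h1 ▸ hx1)
        exact ⟨i, hi, by rw [h3]; exact hQ r hr hrZ, b, hb, fun b' hb' h4 => h2 ⟨b', hb', h4⟩, h1⟩
  · intro b hb x hx hx2
    rw [crr_lrem] at hx
    exact h.tile _ (hκ b hb) x hx.1 hx2
  · rintro σ₁ ⟨t, ht, hσ₁⟩ r hr hx
    rw [Finset.mem_image] at ht
    obtain ⟨b, hb, rfl⟩ := ht
    exact h.anchor σ₁ ⟨_, h.tau _ (hκ b (Finset.mem_range.1 hb)), hσ₁⟩ r hr (mem_lrem.1 hx).1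
  · rintro r hr ⟨σ₁, ⟨t, ht, hσ₁⟩, hx⟩
    rw [Finset.mem_image] at ht
    obtain ⟨b, hb, rfl⟩ := ht
    exact h.ze r hr ⟨σ₁, ⟨_, h.tau _ (hκ b (Finset.mem_range.1 hb)), hσ₁⟩, hx⟩
  · rw [crr_lrem]
    intro z hz
    rw [Matroid.contract_closure_eq]
    refine ⟨?_, fun h1 => Set.disjoint_left.1 hDZ hz h1⟩
    rw [sdiff_union_of_subset hZS]
    exact h.D_cl hz
  · rw [crr_lrem]
    exact h.D₁.mono_right sdiff_subset
  · refine h.D₂.mono_right (crr_mono ?_)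
    rintro σ₁ ⟨t, ht, hσ₁⟩
    rw [Finset.mem_image] at ht
    obtain ⟨b, hb, rfl⟩ := ht
    exact ⟨_, h.tau _ (hκ b (Finset.mem_range.1 hb)), hσ₁⟩
  · intro B I hB
    obtain ⟨g, hg⟩ : ∃ g : ℕ → ℕ, ∀ b < n, g (κ b) = I b := by
      refine ⟨fun a => if h9 : ∃ b < n, κ b = a then I h9.choose else 0, fun b hb => ?_⟩
      have h9 : ∃ b' < n, κ b' = κ b := ⟨b, hb, rfl⟩
      simp only
      rw [dif_pos h9]
      rw [hκi _ h9.choose_spec.1 b hb h9.choose_spec.2]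
    have h1 := h.V1 (B.image κ) g (by
      intro a ha
      rw [Finset.mem_image] at ha
      obtain ⟨b, hb, rfl⟩ := ha
      obtain ⟨h2, h3⟩ := hB b hb
      exact ⟨hκ b h2, by rw [hg b h2]; exact h3⟩)
    have hBn : ∀ b ∈ (B : Set ℕ), b < n := fun b hb => (hB b hb).1
    have hcard : (B.image κ).card = B.card :=
      Finset.card_image_of_injOn fun a ha b hb hab => hκi a (hBn a ha) b (hBn b hb) hab
    have himg : (fun b => c (g b) b) '' ((B.image κ : Finset ℕ) : Set ℕ) =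
        (fun b => c (I b) (κ b)) '' (B : Set ℕ) := by
      ext x
      simp only [Finset.coe_image, mem_image, Finset.mem_coe]
      constructor
      · rintro ⟨_, ⟨b, hb, rfl⟩, rfl⟩
        exact ⟨b, hb, by rw [hg b (hBn b hb)]⟩
      · rintro ⟨b, hb, rfl⟩
        exact ⟨κ b, ⟨b, hb, rfl⟩, by rw [hg b (hBn b hb)]⟩
    rw [hcard, himg, Finset.coe_image] at h1
    have hZX : Z ⊆ D ∪ (crr L₁ (Seg w) \ KB m c (κ '' (B : Set ℕ))) :=
      (hKZ _ hBn).trans subset_union_right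
    have e1 := rk_con_sub (M := M) (hDSE (κ '' (B : Set ℕ))) hZX
    have hIE : (fun b => c (I b) (κ b)) '' (B : Set ℕ) ⊆ M.E := by
      rintro _ ⟨b, hb, rfl⟩
      exact hSE ⟨R (I b), h.row _ (hB b hb).2, h.mem _ (hB b hb).2 _ (hκ b (hBn b hb))⟩
    have e2 := rk_con_sub (M := M) (Z := Z) (X := (fun b => c (I b) (κ b)) '' (B : Set ℕ) ∪
      (D ∪ (crr L₁ (Seg w) \ KB m c (κ '' (B : Set ℕ))))) (union_subset hIE (hDSE _))
      (hZX.trans subset_union_right)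
    have e3 : ((fun b => c (I b) (κ b)) '' (B : Set ℕ) ∪
        (D ∪ (crr L₁ (Seg w) \ KB m c (κ '' (B : Set ℕ))))) \ Z =
        (fun b => c (I b) (κ b)) '' (B : Set ℕ) ∪
          (D ∪ (crr L₁ (Seg w) \ KB m c (κ '' (B : Set ℕ)))) \ Z := by
      rw [union_sdiff_distrib]
      congr 1
      ext x
      simp only [mem_sdiff, mem_image, and_iff_left_iff_imp]
      rintro ⟨b, hb, rfl⟩
      exact hused _ (hB b hb).2 b (hBn b hb)
    rw [e3] at e2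
    rw [hset _ hBn]
    omega
  · have hBn : ∀ b ∈ Iio n, b < n := fun b hb => hb
    rw [hset _ hBn]
    have hZX : Z ⊆ D ∪ (crr L₁ (Seg w) \ KB m c (κ '' Iio n)) :=
      (hKZ _ hBn).trans subset_union_right
    have e1 := rk_con_sub (M := M) (hDSE (κ '' Iio n)) hZX
    have e2 := rk_con_sub (M := M) hSE hZS
    rw [crr_lrem]
    omega

end

end TSH
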