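import Pool.Agent.TST.BCon

/-!
# T-star: contraction of any set of elements on the rows which are not used (helper34)

`Ext` = elements of the rows which are no labels and not the last elements (on rows of `Za` only).
-/

open Set BIC BICS CWL
open scoped Matroid

namespace TSH

universe u

open Mdl Mdj EN Gad TST EN.Wall

/-- the elements of the rows which are neither labels nor last elements -/
def Ext {α : Type u} (w m N : ℕ) (L₁ : Bool × ℕ × ℕ → List α) (e₁ : Bool × ℕ × ℕ → α)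
    (c : ℕ → ℕ → α) : Set α :=
  {x | x ∈ crr L₁ (Seg w) ∧ (∀ r ∈ Seg w, x ≠ e₁ r) ∧ ∀ i < m, ∀ b < N, x ≠ c i b}

section

variable {α : Type u} {M : Matroid α} {w s : ℕ} {𝒯 : Finset (ℕ × ℕ)}
  {L₁ : Bool × ℕ × ℕ → List α} {f₁ : α → Sym2 ((ℕ × ℕ) ⊕ α)} {e₁ : Bool × ℕ × ℕ → α} {u₁ : ℕ}
  {L₂ : Bool × ℕ × ℕ → List α} {f₂ : α → Sym2 ((ℕ × ℕ) ⊕ α)} {e₂ : Bool × ℕ × ℕ → α} {u₂ : ℕ}
  {D : Set α} {σ N m n : ℕ} {τ : ℕ → ℕ × ℕ} {R : ℕ → Bool × ℕ × ℕ} {c : ℕ → ℕ → α}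
  {Za : Finset (Bool × ℕ × ℕ)} {κ : ℕ → ℕ} {Z : Set α}

/-- the extra elements are on rows of `Za` -/
lemma BSys.ext_Za (h : BSys M w s 𝒯 L₁ f₁ e₁ u₁ L₂ f₂ e₂ u₂ D σ N m τ R c Za) {x : α}
    (hx : x ∈ Ext w m N L₁ e₁ c) {r : Bool × ℕ × ℕ} (hr : r ∈ Seg w) (hxr : x ∈ L₁ r) : r ∈ Za := by
  by_contra hrZ
  rcases h.all r hr hrZ x hxr with h1 | ⟨i, hi, b, hb, h1⟩
  · exact hx.2.1 r hr h1
  · exact hx.2.2 i hi b hb h1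

/-- every element of a row is the last one, a label or extra -/
lemma BSys.cases (h : BSys M w s 𝒯 L₁ f₁ e₁ u₁ L₂ f₂ e₂ u₂ D σ N m τ R c Za) {r : Bool × ℕ × ℕ}
    (hr : r ∈ Seg w) {x : α} (hx : x ∈ L₁ r) :
    x = e₁ r ∨ (∃ i < m, R i = r ∧ ∃ b < N, x = c i b) ∨ x ∈ Ext w m N L₁ e₁ c := by
  by_cases h1 : ∃ r' ∈ Seg w, x = e₁ r'
  · obtain ⟨r', hr', rfl⟩ := h1
    left
    have h2 := h.pair.s₁.uniq hr' hr (h.pair.s₁.mem_last hr') hx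
    rw [h2]
  · by_cases h2 : ∃ i < m, ∃ b < N, x = c i b
    · obtain ⟨i, hi, b, hb, rfl⟩ := h2
      right
      left
      exact ⟨i, hi, h.pair.s₁.uniq (h.row i hi) hr (h.mem i hi b hb) hx, b, hb, rfl⟩
    · right
      right
      refine ⟨⟨r, hr, hx⟩, fun r' hr' h3 => h1 ⟨r', hr', h3⟩, fun i hi b hb h3 =>
        h2 ⟨i, hi, b, hb, h3⟩⟩

/-- a set of elements of rows without used conflicts avoids the columns of the used tiles -/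
lemma BSys.col_disj (h : BSys M w s 𝒯 L₁ f₁ e₁ u₁ L₂ f₂ e₂ u₂ D σ N m τ R c Za)
    (hκ : ∀ b < n, κ b < N) (hZ : Z ⊆ crr L₁ (Seg w))
    (hZu : ∀ i < m, ∀ b < n, c i (κ b) ∉ Z) :
    Disjoint (crr L₂ (cores s ((Finset.range n).image fun b => τ (κ b)))) Z := by
  rw [Set.disjoint_left]
  rintro x ⟨σ', ⟨t, ht, hσ'⟩, hx⟩ hxU
  rw [Finset.mem_image] at ht
  obtain ⟨b, hb, rfl⟩ := ht
  rw [Finset.mem_range] at hb
  obtain ⟨i, hi, h1⟩ := h.tile (κ b) (hκ b hb) x (hZ hxU) ⟨σ', hσ', hx⟩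
  rw [h1] at hxU
  exact hZu i hi b hb hxU

/-- **The pair after the contraction of any set `Z` on the rows** without last elements and without
used conflicts. -/
theorem BSys.con_pairZ [M.Finite] (h : BSys M w s 𝒯 L₁ f₁ e₁ u₁ L₂ f₂ e₂ u₂ D σ N m τ R c Za)
    (hκ : ∀ b < n, κ b < N) (hZ : Z ⊆ crr L₁ (Seg w)) (hZe : ∀ r ∈ Seg w, e₁ r ∉ Z)
    (hZu : ∀ i < m, ∀ b < n, c i (κ b) ∉ Z) :
    ∃ f₁' : α → Sym2 ((ℕ × ℕ) ⊕ α),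
      Pair (M ／ Z) (Seg w) (lrem L₁ Z) f₁' e₁ u₁
        (cores s ((Finset.range n).image fun b => τ (κ b))) L₂ f₂ e₂ u₂ := by
  refine (h.pair.subset₂ ?_).contract hZ (h.col_disj hκ hZ hZu) hZe
  rintro σ' ⟨t, ht, hσ'⟩
  rw [Finset.mem_image] at ht
  obtain ⟨b, hb, rfl⟩ := ht
  exact ⟨_, h.tau _ (hκ b (Finset.mem_range.1 hb)), hσ'⟩

lemma BSys.ext_sub (_ : BSys M w s 𝒯 L₁ f₁ e₁ u₁ L₂ f₂ e₂ u₂ D σ N m τ R c Za) :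
    Ext w m N L₁ e₁ c ⊆ crr L₁ (Seg w) := fun _ hx => hx.1

lemma BSys.ext_anc (_ : BSys M w s 𝒯 L₁ f₁ e₁ u₁ L₂ f₂ e₂ u₂ D σ N m τ R c Za) :
    ∀ r ∈ Seg w, e₁ r ∉ Ext w m N L₁ e₁ c := fun r hr hx => hx.2.1 r hr rfl

lemma BSys.ext_used (_ : BSys M w s 𝒯 L₁ f₁ e₁ u₁ L₂ f₂ e₂ u₂ D σ N m τ R c Za)
    (hκ : ∀ b < n, κ b < N) {i b : ℕ} (hi : i < m) (hb : b < n) :
    c i (κ b) ∉ Ext w m N L₁ e₁ c := fun hx => hx.2.2 i hi (κ b) (hκ b hb) rfl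

end

end TSH
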