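import Pool.Agent.TST.PreRows
import Pool.Agent.CW.Defs

/-!
# The brick wall without a few edges (row H6 of T-star, helper14)

`wall_robust`: after deletion of `c` edges one component of the brick wall contains all but
`6 (c + 1) ^ 2` vertices.  `segRW`: the brick wall `Seg (2 n - 1)` as a subdivided graph.
-/

open Set Relation
open scoped Matroid

namespace TST

open BIC Gad EN BICS Mdl EN.Wall

section

variable {n : ℕ}

/-- connection without the edges in `E` -/
def Ce (E : Finset (Sym2 (WV n))) (a b : WV n) : Prop := (Wl n).Adj a b ∧ s(a, b) ∉ E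

lemma Ce.symm {E : Finset (Sym2 (WV n))} {a b : WV n} (h : Ce E a b) : Ce E b a :=
  ⟨h.1.symm, by rw [Sym2.eq_swap]; exact h.2⟩

lemma ce_symm {E : Finset (Sym2 (WV n))} {a b : WV n} (h : ReflTransGen (Ce E) a b) :
    ReflTransGen (Ce E) b a := by
  induction h with
  | refl => exact ReflTransGen.refl
  | tail _ h2 ih => exact ReflTransGen.head h2.symm ih

open Classical in
/-- A set which is closed under the connection has a small boundary. -/
lemma closed_small {E : Finset (Sym2 (WV n))} {A : Finset (WV n)}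
    (hA : ∀ a b, Ce E a b → a ∈ A → b ∈ A) :
    A.card ≤ 2 * (E.card + 1) ^ 2 ∨ Aᶜ.card ≤ 2 * (E.card + 1) ^ 2 := by
  refine iso E.card A ?_
  refine Finset.card_le_card_of_injOn (fun x : WV n × WV n => s(x.1, x.2)) ?_ ?_
  · intro x hx
    have hx' := (Finset.mem_filter.1 (Finset.mem_coe.1 hx)).2
    by_contra hE
    exact hx'.2.2 (hA x.1 x.2 ⟨hx'.1, hE⟩ hx'.2.1)
  · rintro ⟨a, b⟩ hx ⟨c, d⟩ hy hxy
    have hx' := (Finset.mem_filter.1 (Finset.mem_coe.1 hx)).2
    have hy' := (Finset.mem_filter.1 (Finset.mem_coe.1 hy)).2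
    rcases Sym2.eq_iff.1 hxy with ⟨h1, h2⟩ | ⟨h1, h2⟩
    · exact Prod.ext h1 h2
    · dsimp only at h1 h2
      rw [h1] at hx'
      exact absurd hx'.2.1 hy'.2.2

open Classical in
/-- **The wall without a few edges.** -/
theorem wall_robust (c : ℕ) {n : ℕ} (hn : 1 ≤ n) (E : Finset (Sym2 (WV n))) (hE : E.card ≤ c) :
    ∃ Y : Finset (WV n), Y.Nonempty ∧
      (∀ x ∈ Y, ∀ y ∈ Y, ReflTransGen (fun a b => a ∈ Y ∧ b ∈ Y ∧ (Wl n).Adj a b ∧ s(a, b) ∉ E) x y) ∧
      Yᶜ.card ≤ 6 * (c + 1) ^ 2 := by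
  set K := 2 * (c + 1) ^ 2 with hK
  have hKE : 2 * (E.card + 1) ^ 2 ≤ K := by
    rw [hK]
    gcongr
  set cl : WV n → Finset (WV n) := fun x => Finset.univ.filter fun y => ReflTransGen (Ce E) x y
    with hcl
  have hmem : ∀ x y, y ∈ cl x ↔ ReflTransGen (Ce E) x y := by
    intro x y
    rw [hcl]
    simp
  have hclc : ∀ x a b, Ce E a b → a ∈ cl x → b ∈ cl x := by
    intro x a b hab ha
    exact (hmem x b).2 (((hmem x a).1 ha).tail hab)
  have hconn : ∀ x, ∀ y ∈ cl x, ReflTransGen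
      (fun a b => a ∈ cl x ∧ b ∈ cl x ∧ (Wl n).Adj a b ∧ s(a, b) ∉ E) x y := by
    intro x y hy
    have h1 := (hmem x y).1 hy
    clear hy
    induction h1 with
    | refl => exact ReflTransGen.refl
    | tail h2 h3 ih => exact ih.tail ⟨(hmem _ _).2 h2, (hmem _ _).2 (h2.tail h3), h3⟩
  have hconn' : ∀ x, ∀ y ∈ cl x, ReflTransGen
      (fun a b => a ∈ cl x ∧ b ∈ cl x ∧ (Wl n).Adj a b ∧ s(a, b) ∉ E) y x := by
    intro x y hy
    have h1 := hconn x y hy
    clear hy
    induction h1 with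
    | refl => exact ReflTransGen.refl
    | tail _ h3 ih =>
      refine ReflTransGen.head ⟨h3.2.1, h3.1, h3.2.2.1.symm, ?_⟩ ih
      rw [Sym2.eq_swap]
      exact h3.2.2.2
  have x₀ : WV n := (⟨0, by omega⟩, ⟨0, by omega⟩)
  by_cases hbig : ∃ x, (cl x)ᶜ.card ≤ K
  · obtain ⟨x, hx⟩ := hbig
    refine ⟨cl x, ⟨x, (hmem x x).2 ReflTransGen.refl⟩, ?_, by omega⟩
    intro y hy z hz
    exact (hconn' x y hy).trans (hconn x z hz)
  · push Not at hbig
    have hsm : ∀ x, (cl x).card ≤ K := by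
      intro x
      rcases closed_small (hclc x) with h | h
      · omega
      · have := hbig x
        omega
    -- then the wall is small
    have hV : Fintype.card (WV n) ≤ 3 * K := by
      by_contra hV
      have hex : ∃ m, ∃ A : Finset (WV n), (∀ a b, Ce E a b → a ∈ A → b ∈ A) ∧ K < A.card ∧
          A.card = m := ⟨_, Finset.univ, fun _ _ _ _ => Finset.mem_univ _, by
        rw [Finset.card_univ]; omega, rfl⟩
      obtain ⟨A, h1, h2, h3⟩ := Nat.find_spec hex
      have hmin := fun m hm => Nat.find_min hex (m := m) hm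
      obtain ⟨x, hx⟩ : A.Nonempty := Finset.card_pos.1 (by omega)
      have hsub : cl x ⊆ A := by
        intro y hy
        have h4 := (hmem x y).1 hy
        clear hy
        induction h4 with
        | refl => exact hx
        | tail _ h5 ih => exact h1 _ _ h5 ih
      have hA' : ∀ a b, Ce E a b → a ∈ A \ cl x → b ∈ A \ cl x := by
        intro a b hab ha
        rw [Finset.mem_sdiff] at ha ⊢
        refine ⟨h1 a b hab ha.1, fun hb => ha.2 ?_⟩
        exact hclc x b a hab.symm hb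
      have hc : (A \ cl x).card = A.card - (cl x).card := Finset.card_sdiff_of_subset hsub
      have hpos : 0 < (cl x).card := Finset.card_pos.2 ⟨x, (hmem x x).2 ReflTransGen.refl⟩
      have hle := Finset.card_le_card hsub
      have h6 : (A \ cl x).card ≤ K := by
        by_contra h7
        exact hmin (A \ cl x).card (by omega) ⟨_, hA', by omega, rfl⟩
      have h7 := hsm x
      have h8 : A.card ≤ 2 * K := by omega
      have h9 := Finset.card_add_card_compl A
      rcases closed_small h1 with h | h <;> omega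
    refine ⟨{x₀}, ⟨x₀, Finset.mem_singleton_self _⟩, ?_, ?_⟩
    · intro x hx y hy
      rw [Finset.mem_singleton.1 hx, Finset.mem_singleton.1 hy]
    · refine (Finset.card_le_univ _).trans ?_
      omega

/-! ### The segments of the brick wall as rows -/

/-- rows: the segments of the wall `Seg (2 n - 1)` -/
abbrev SegR (n : ℕ) := {s : Bool × ℕ × ℕ // s ∈ CWL.Seg (2 * n - 1)}

lemma seg_lt {s : SegR n} : s.1.2.1 < 2 * n ∧ s.1.2.2 < 2 * n ∧
    (s.1.1 = true → s.1.2.1 + 1 < 2 * n) ∧ (s.1.1 = false → s.1.2.2 + 1 < 2 * n ∧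
      (s.1.2.1 + s.1.2.2) % 2 = 0) := by
  obtain ⟨⟨b, i, j⟩, hs⟩ := s
  rcases hs with ⟨h1, h2, h3⟩ | ⟨h1, h2, h3, h4⟩
  · dsimp only at h1 h2 h3 ⊢
    refine ⟨by omega, by omega, fun _ => by omega, fun h => ?_⟩
    rw [h1] at h
    exact absurd h (by simp)
  · dsimp only at h1 h2 h3 h4 ⊢
    refine ⟨by omega, by omega, fun h => ?_, fun _ => ⟨by omega, h4⟩⟩
    rw [h1] at h
    exact absurd h (by simp)

/-- first end -/
def segHd (s : SegR n) : WV n := (⟨s.1.2.1, seg_lt.1⟩, ⟨s.1.2.2, seg_lt.2.1⟩)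

open Classical in
/-- last end -/
noncomputable def segTl (s : SegR n) : WV n :=
  if hs : s.1.1 = true then (⟨s.1.2.1 + 1, seg_lt.2.2.1 hs⟩, ⟨s.1.2.2, seg_lt.2.1⟩)
  else (⟨s.1.2.1, seg_lt.1⟩, ⟨s.1.2.2 + 1, (seg_lt.2.2.2 (by simpa using hs)).1⟩)

/-- the wall as a subdivided graph -/
noncomputable def segRW (n : ℕ) (len : SegR n → ℕ) : RW (WV n) (SegR n) := ⟨segHd, segTl, len⟩

lemma vl_segHd (s : SegR n) : vl (segHd s) = (s.1.2.1, s.1.2.2) := rfl

lemma vl_segTl_true {s : SegR n} (hs : s.1.1 = true) : vl (segTl s) = (s.1.2.1 + 1, s.1.2.2) := by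
  unfold segTl
  rw [dif_pos hs]
  rfl

lemma vl_segTl_false {s : SegR n} (hs : s.1.1 = false) :
    vl (segTl s) = (s.1.2.1, s.1.2.2 + 1) := by
  unfold segTl
  rw [dif_neg (by rw [hs]; simp)]
  rfl

lemma seg_adj (s : SegR n) : (Wl n).Adj (segHd s) (segTl s) := by
  show Iso.WAdj (vl (segHd s)) (vl (segTl s))
  rw [vl_segHd]
  cases hs : s.1.1
  · rw [vl_segTl_false hs]
    exact Or.inr ⟨rfl, Or.inl ⟨rfl, (seg_lt.2.2.2 hs).2⟩⟩
  · rw [vl_segTl_true hs]
    exact Or.inl ⟨rfl, Or.inl rfl⟩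

/-- every edge is a row -/
lemma exists_seg {a b : WV n} (hab : (Wl n).Adj a b) :
    ∃ s : SegR n, (segHd s = a ∧ segTl s = b) ∨ (segHd s = b ∧ segTl s = a) := by
  have key : ∀ a b : WV n, vl b = (a.1.val + 1, a.2.val) ∨
      (vl b = (a.1.val, a.2.val + 1) ∧ (a.1.val + a.2.val) % 2 = 0) →
      ∃ s : SegR n, segHd s = a ∧ segTl s = b := by
    rintro a b (h | ⟨h, hp⟩)
    · have h1 : b.1.val = a.1.val + 1 := congrArg Prod.fst h
      have h2 : b.2.val = a.2.val := congrArg Prod.snd h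
      have h3 := b.1.2
      have h4 := a.2.2
      have hs : ((true, a.1.val, a.2.val) : Bool × ℕ × ℕ) ∈ CWL.Seg (2 * n - 1) :=
        Or.inl ⟨rfl, by dsimp only; omega, by dsimp only; omega⟩
      refine ⟨⟨_, hs⟩, ?_, ?_⟩
      · exact vl_inj rfl
      · refine vl_inj ?_
        rw [vl_segTl_true rfl, h]
    · have h1 : b.1.val = a.1.val := congrArg Prod.fst h
      have h2 : b.2.val = a.2.val + 1 := congrArg Prod.snd h
      have h3 := b.2.2
      have h4 := a.1.2
      have hs : ((false, a.1.val, a.2.val) : Bool × ℕ × ℕ) ∈ CWL.Seg (2 * n - 1) :=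
        Or.inr ⟨rfl, by dsimp only; omega, by dsimp only; omega, hp⟩
      refine ⟨⟨_, hs⟩, ?_, ?_⟩
      · exact vl_inj rfl
      · refine vl_inj ?_
        rw [vl_segTl_false rfl, h]
  have h0 : Iso.WAdj (vl a) (vl b) := hab
  rcases h0 with ⟨h1, h2 | h2⟩ | ⟨h1, ⟨h2, h3⟩ | ⟨h2, h3⟩⟩
  · obtain ⟨s, h⟩ := key a b (Or.inl (Prod.ext h2.symm h1.symm))
    exact ⟨s, Or.inl h⟩
  · obtain ⟨s, h⟩ := key b a (Or.inl (Prod.ext h2.symm h1))
    exact ⟨s, Or.inr h⟩
  · obtain ⟨s, h⟩ := key a b (Or.inr ⟨Prod.ext h1.symm h2.symm, h3⟩)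
    exact ⟨s, Or.inl h⟩
  · obtain ⟨s, h⟩ := key b a (Or.inr ⟨Prod.ext h1 h2.symm, h3⟩)
    exact ⟨s, Or.inr h⟩

/-- a row is determined by its ends -/
lemma seg_uniq {s t : SegR n} (h1 : segHd s = segHd t) (h2 : segTl s = segTl t) : s = t := by
  have h1' := congrArg vl h1
  have h2' := congrArg vl h2
  rw [vl_segHd, vl_segHd, Prod.mk.injEq] at h1'
  refine Subtype.ext (Prod.ext ?_ (Prod.ext h1'.1 h1'.2))
  cases hs : s.1.1 <;> cases ht : t.1.1
  · rfl
  · rw [vl_segTl_false hs, vl_segTl_true ht, Prod.mk.injEq] at h2'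
    omega
  · rw [vl_segTl_true hs, vl_segTl_false ht, Prod.mk.injEq] at h2'
    omega
  · rfl

instance : Finite (SegR n) := by
  refine Finite.of_injective (fun s : SegR n => (segHd s, segTl s)) ?_
  intro s t hst
  exact seg_uniq (congrArg Prod.fst hst) (congrArg Prod.snd hst)

/-- **`hwall` of row H4.** -/
theorem seg_hwall (c : ℕ) (hn : 1 ≤ n) (len : SegR n → ℕ) (Bd : Finset (SegR n))
    (hBd : Bd.card ≤ c) : ∃ Y : Finset (WV n), Y.Nonempty ∧
      (∀ x ∈ Y, ∀ y ∈ Y, ReflTransGen (fun a b => a ∈ Y ∧ b ∈ Y ∧ ∃ r ∉ Bd,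
        ((segRW n len).hd r = a ∧ (segRW n len).tl r = b) ∨
        ((segRW n len).hd r = b ∧ (segRW n len).tl r = a)) x y) ∧
      {x | x ∉ Y}.ncard ≤ 6 * (c + 1) ^ 2 := by
  classical
  obtain ⟨Y, h1, h2, h3⟩ := wall_robust c hn (Bd.image fun r => s(segHd r, segTl r))
    (Finset.card_image_le.trans hBd)
  refine ⟨Y, h1, ?_, ?_⟩
  · intro x hx y hy
    have h4 := h2 x hx y hy
    clear hy
    induction h4 with
    | refl => exact ReflTransGen.refl
    | tail _ h5 ih =>
      obtain ⟨g1, g2, g3, g4⟩ := h5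
      obtain ⟨r, hr⟩ := exists_seg g3
      refine ih.tail ⟨g1, g2, r, fun hrB => g4 (Finset.mem_image.2 ⟨r, hrB, ?_⟩), hr⟩
      rcases hr with ⟨h6, h7⟩ | ⟨h6, h7⟩
      · rw [h6, h7]
      · rw [h6, h7, Sym2.eq_swap]
  · have h4 : {x | x ∉ Y} = ((Yᶜ : Finset (WV n)) : Set (WV n)) := by
      ext x
      simp
    rw [h4, ncard_coe_finset]
    exact h3

/-- **`hdeg` of row H4.** -/
theorem seg_hdeg (len : SegR n → ℕ) (x : WV n) :
    {r | (segRW n len).hd r = x ∨ (segRW n len).tl r = x}.ncard ≤ 3 := by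
  classical
  refine le_trans ?_ (degree_le x)
  refine Set.ncard_le_ncard_of_injOn (fun r : SegR n => if segHd r = x then segTl r else segHd r)
    ?_ ?_ (Set.toFinite _)
  · rintro r (h | h)
    · have h' : segHd r = x := h
      show (Wl n).Adj x (if segHd r = x then segTl r else segHd r)
      rw [if_pos h', ← h']
      exact seg_adj r
    · have h' : segTl r = x := h
      show (Wl n).Adj x (if segHd r = x then segTl r else segHd r)
      have hne : segHd r ≠ x := fun he =>
        (Wl n).loopless.irrefl x (by have := seg_adj r; rwa [he, h'] at this)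
      rw [if_neg hne, ← h']
      exact (seg_adj r).symm
  · intro r hr t ht hrt
    have hr' : segHd r = x ∨ segTl r = x := hr
    have ht' : segHd t = x ∨ segTl t = x := ht
    dsimp only at hrt
    have hrel : ∀ r : SegR n, (vl (segTl r)).1 + (vl (segTl r)).2 =
        (vl (segHd r)).1 + (vl (segHd r)).2 + 1 := by
      intro r
      rw [vl_segHd]
      cases hs : r.1.1
      · rw [vl_segTl_false hs]
        dsimp only
        omega
      · rw [vl_segTl_true hs]
        dsimp only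
        omega
    have e1 := hrel r
    have e2 := hrel t
    split_ifs at hrt with g1 g2 g2
    · exact seg_uniq (g1.trans g2.symm) hrt
    · have g3 : segTl t = x := by rcases ht' with h | h; exacts [absurd h g2, h]
      rw [g1, hrt] at e1
      rw [g3] at e2
      omega
    · have g3 : segTl r = x := by rcases hr' with h | h; exacts [absurd h g1, h]
      rw [g2, ← hrt] at e2
      rw [g3] at e1
      omega
    · have g3 : segTl r = x := by rcases hr' with h | h; exacts [absurd h g1, h]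
      have g4 : segTl t = x := by rcases ht' with h | h; exacts [absurd h g2, h]
      exact seg_uniq hrt (g3.trans g4.symm)

/-- a corner of side `m` in the wall of side `n` -/
def emW {m : ℕ} (hm : m ≤ n) (a : WV m) : WV n :=
  (⟨a.1.val, by have := a.1.2; omega⟩, ⟨a.2.val, by have := a.2.2; omega⟩)

lemma emW_inj {m : ℕ} (hm : m ≤ n) : Function.Injective (emW hm) := by
  intro a b hab
  refine vl_inj ?_
  have := congrArg vl hab
  exact this

/-- **`hrow` of `pre_of_rows`.** -/
theorem seg_hrow {m : ℕ} (hm : m ≤ n) (len : SegR n → ℕ) (a b : WV m) (hab : (Wl m).Adj a b) :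
    ∃ r, ((segRW n len).hd r = emW hm a ∧ (segRW n len).tl r = emW hm b) ∨
      ((segRW n len).hd r = emW hm b ∧ (segRW n len).tl r = emW hm a) :=
  exists_seg (a := emW hm a) (b := emW hm b) hab

end

end TST
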