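import Pool.Agent.TST.TopD
import Pool.Agent.TST.SGDefs
import Pool.Agent.TST.WallRow
import Pool.Agent.CW.Units
import Pool.Agent.CW.AlphaZ
import Pool.Agent.CW.Relink

/-!
# T-star, second level: from the clean pair to the host (`Base`)

`Base`: the output of the rows A for a clean pair.  `ClaimA`: the clean pair gives `Base` or a uniform
minor.  `HostOfBase`: `Base` gives the strip situation.  `hostExistsD`: both give `HostExistsD`.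
-/

open Set BIC BICS CWL
open scoped Matroid

namespace TSH

universe u

open Mdl Mdj EN Gad TST EN.Wall

/-- the rows of the inner wall (without a ring of width `a`) -/
noncomputable abbrev inW {α : Type u} (L₁ : Bool × ℕ × ℕ → List α) (a n : ℕ) :
    RW (WV n) (SegR n) :=
  segRW n fun r => (L₁ (shS a a r.1)).length

/-- `e` is no element of a row -/
def Rung {α : Type u} (L₁ : Bool × ℕ × ℕ → List α) (a n : ℕ) (el : SegR n → ℕ → α) (e : α) : Prop :=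
  ∀ r, ∀ p < (inW L₁ a n).len r, el r p ≠ e

/-- the honest pairs of inner nodes -/
def Hon {α : Type u} (L₁ : Bool × ℕ × ℕ → List α) (a n : ℕ) (el : SegR n → ℕ → α) (S : Set α)
    (ends : α → Sym2 (Nd (WV n) (SegR n))) (x y : SegR n × ℕ) : Prop :=
  0 < x.2 ∧ x.2 < (inW L₁ a n).len x.1 ∧ 0 < y.2 ∧ y.2 < (inW L₁ a n).len y.1 ∧
    ∃ e ∈ S, Rung L₁ a n el e ∧ ends e = s((inW L₁ a n).nd x.1 x.2, (inW L₁ a n).nd y.1 y.2)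

/-- the strand graph on the labels in `P` -/
def PG (G : ℕ → ℕ → Prop) (P : Finset ℕ) : SimpleGraph {i // i ∈ P} :=
  SimpleGraph.fromRel fun i j => G i.1 j.1

/-- **Output of the rows A.**  `s` = side of the tiles of the host, `W` = inner wall, `S` = elements of all rows of `W` and honest rungs,
`BQ` = few rows (with all the rows which contain anchors of the tiles), `Q` = elements of the rows in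
`BQ` and of other rows outside of `W`, `Bd` = bad rows, tiles `τ 0, …, τ (nT - 1)` with `m` labels,
`P` = labels of honest passes (all passes outside of the bad rows). -/
structure Base {α : Type u} (M : Matroid α) (w s : ℕ) (𝒯 : Finset (ℕ × ℕ))
    (L₁ L₂ : Bool × ℕ × ℕ → List α) (e₂ : Bool × ℕ × ℕ → α) (u η nT : ℕ) (F : ℕ → ℕ)
    (a n : ℕ) (el : SegR n → ℕ → α) (S Q : Set α) (ends : α → Sym2 (Nd (WV n) (SegR n)))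
    (BQ Bd : Finset (SegR n)) (τ : ℕ → ℕ × ℕ) (m : ℕ) (R : ℕ → SegR n) (q : ℕ → ℕ → ℕ)
    (G : ℕ → ℕ → Prop) (P : Finset ℕ) : Prop where
  wall : 2 ∣ a ∧ 4 ∣ n ∧ a + (2 * n - 1) ≤ w ∧ w ≤ 4 * n
  el_eq : ∀ (r : SegR n) (p : ℕ) (h : p < (L₁ (shS a a r.1)).length),
    el r p = (L₁ (shS a a r.1))[p]
  row : RowIn (inW L₁ a n) S ends el
  node : ∀ e ∈ S, ∀ v ∈ ends e, ∃ r, ∃ p ≤ (inW L₁ a n).len r, (inW L₁ a n).nd r p = v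
  rung : ∀ e ∈ S, Rung L₁ a n el e → e ∉ crr L₂ (tiles s 𝒯) ∧ ∃ r p r' p', r ∉ BQ ∧ r' ∉ BQ ∧
    0 < p ∧ p < (inW L₁ a n).len r ∧ 0 < p' ∧ p' < (inW L₁ a n).len r' ∧
    ends e = s((inW L₁ a n).nd r p, (inW L₁ a n).nd r' p')
  /-- the frame in `M`: only the elements which avoid the nodes of `BQ` -/
  frm : FrmU M (ins S ends (rowV (inW L₁ a n) BQ)ᶜ) ends u
  /-- the exact frame in `M ／ Q`, with loops -/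
  frmQ : FrmU (M ／ Q) (SQ (rowV (inW L₁ a n) BQ) S ends) (eQ (rowV (inW L₁ a n) BQ) ends) 0
  Q_sub : Q ⊆ M.E
  Q_row : rowE (inW L₁ a n) el BQ ⊆ Q
  Q_S : Q ∩ S ⊆ rowE (inW L₁ a n) el BQ
  Q_ne : BQ.Nonempty
  Q_big : 55 ≤ {x : WV n | Sum.inl x ∈ rowV (inW L₁ a n) BQ}.ncard
  BQ_Bd : BQ ⊆ Bd
  /-- disjoint cycles which avoid `BQ` are independent -/
  indep : ∀ B : Finset (SegR n),
    (∀ r ∈ B, ∀ p ≤ (inW L₁ a n).len r, (inW L₁ a n).nd r p ∉ rowV (inW L₁ a n) BQ) →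
    (∀ A ⊆ B, A.card ≤ {x : WV n | ∃ r ∈ A, segHd r = x ∨ segTl r = x}.ncard) →
    (M ／ Q).Indep (rowE (inW L₁ a n) el B)
  /-- the tiles -/
  tau : ∀ b < nT, τ b ∈ 𝒯
  anchor : ∀ b < nT, ∀ σ ∈ Seg s, ∀ r ∉ BQ, ∀ p < (inW L₁ a n).len r,
    el r p ≠ e₂ (shS (τ b).1 (τ b).2 σ)
  units : HUnits (Hon L₁ a n el S ends) nT m R q G
  lab : ∀ i < m, ∀ b < nT, q i b < (inW L₁ a n).len (R i)
  /-- location of the elements of `S` at an inner node: only the rows of the wall matter -/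
  loc : ∀ r ∉ BQ, ∀ p, 0 < p → p < (inW L₁ a n).len r → ∀ e ∈ S,
    ((inW L₁ a n).nd r p ∈ ends e ↔ e ∉ M.closure (crr L₁ (Seg w) \ {el r (p - 1), el r p}))
  /-- every conflict of the tile is a label -/
  all : ∀ b < nT, ∀ r, ∀ p < (inW L₁ a n).len r,
    el r p ∈ crr L₂ (shS (τ b).1 (τ b).2 '' Seg s) → ∃ i < m, R i = r ∧ q i b = p
  P_lt : ∀ i ∈ P, i < m ∧ R i ∉ BQ
  P_sep : ∀ i ∈ P, ∀ j ∈ P, i ≠ j → R i = R j → RamP.Sep nT (q i) (q j)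
  P_cov : ∀ i < m, R i ∉ Bd → ∃ j ∈ P, R j = R i ∧ RamP.Near nT (q i) (q j)
  /-- few components -/
  comp : η * Nat.card (PG G P).ConnectedComponent ≤ w ^ 2
  bad : η * Bd.card ≤ w ^ 2
  few : F BQ.card ≤ w

/-- **Hot blocks of side `ρh`**, in all minors with the same column anchors; the anchor of a row may
be any element of the row `L₁ r` -/
def HotT {α : Type u} (κ ρh : ℕ) (M : Matroid α) (w s : ℕ) (𝒯 : Finset (ℕ × ℕ))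
    (L₁ : Bool × ℕ × ℕ → List α) (e₂ : Bool × ℕ × ℕ → α) : Prop :=
  ∀ (M' : Matroid α) (𝒯' : Finset (ℕ × ℕ)) (L₁' : Bool × ℕ × ℕ → List α)
    (f₁ : α → Sym2 ((ℕ × ℕ) ⊕ α)) (e₁ : Bool × ℕ × ℕ → α) (u₁ : ℕ) (L₂ : Bool × ℕ × ℕ → List α)
    (f₂ : α → Sym2 ((ℕ × ℕ) ⊕ α)) (u₂ : ℕ), M' ≤m M → 𝒯' ⊆ 𝒯 → u₁ ≤ κ → u₂ ≤ κ →
    (∀ r ∈ Seg w, e₁ r ∈ L₁ r) →
    Pair M' (Seg w) L₁' f₁ e₁ u₁ (tiles s 𝒯') L₂ f₂ e₂ u₂ →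
    ∀ i j a b : ℕ, shS i j '' Seg ρh ⊆ Seg w → shS a b '' Seg ρh ⊆ tiles s 𝒯' →
      ∃ r ∈ shS i j '' Seg ρh, ∃ x ∈ L₁' r, x ∈ crr L₂ (shS a b '' Seg ρh)

/-- **Hot blocks for all large subwalls.** -/
def HotS {α : Type u} (κ ρh : ℕ) (M : Matroid α) (w s : ℕ) (𝒯 : Finset (ℕ × ℕ))
    (L₁ : Bool × ℕ × ℕ → List α) (e₂ : Bool × ℕ × ℕ → α) : Prop :=
  ∀ i₀ j₀ w' : ℕ, w ≤ 2 * w' → shS i₀ j₀ '' Seg w' ⊆ Seg w →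
    HotT κ ρh M w' s 𝒯 (fun r => L₁ (shS i₀ j₀ r)) e₂

/-- **Rows A.**  `k`, `κ`: uniform minors, lifts of the clean pair; `κ'`: lifts of the output;
`ρh`: hot blocks.  Then the bound `u` of the frames and the least side `sA` of the tiles; `s` = side
of the tiles of the host (`s + 2` in the clean pair; every row crosses every tile of side `s`),
`Cb` = density, `η`, `F`: wishes of the host; then the density functions `Df`, `h'`, `h`, the width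
`K₀` of the layer and the least side `w₁` (two thresholds `L ≤ L'` for the weights of the rows); then the greatest side `wmax` and the number `nT` of tiles
which are wanted; then the number `m₀` of tiles which is needed.  The output has a subwall of side
`w'` at `(i₀, j₀)`. -/
def ClaimA (k κ κ' ρh u : ℕ) : Prop :=
  ∃ sA : ℕ, ∀ (Cb s η : ℕ) (F : ℕ → ℕ), sA ≤ s → 2 ≤ s → 2 ∣ s →
    ∃ (Df h' : ℕ → ℕ) (h K₀ w₁ : ℕ), ∀ wmax nT : ℕ,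
    ∃ m₀ : ℕ, ∀ {α : Type u} (M : Matroid α) [M.Finite] (w L L' : ℕ) (𝒯 : Finset (ℕ × ℕ))
    (L₁ : Bool × ℕ × ℕ → List α) (f₁ : α → Sym2 ((ℕ × ℕ) ⊕ α)) (e₁ : Bool × ℕ × ℕ → α) (u₁ : ℕ)
    (L₂ : Bool × ℕ × ℕ → List α) (f₂ : α → Sym2 ((ℕ × ℕ) ⊕ α)) (e₂ : Bool × ℕ × ℕ → α) (u₂ : ℕ),
    w₁ ≤ w → w ≤ wmax → L ≤ L' → L' ≤ wmax → u₁ ≤ κ → u₂ ≤ κ → m₀ ≤ 𝒯.card →
    (∀ b ∈ 𝒯, 2 * (s + 3) ∣ b.1 ∧ 2 * (s + 3) ∣ b.2) →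
    World M w (s + 2) 𝒯 L₁ f₁ e₁ u₁ L₂ f₂ e₂ u₂ → HotS κ' ρh M w s 𝒯 L₁ e₂ →
    (∀ b ∈ 𝒯, ∀ r ∈ Seg w, ∃ x ∈ L₁ r, x ∈ crr L₂ (shS b.1 b.2 '' Seg s)) →
    (∀ b ∈ 𝒯,
      (∀ r ∈ Seg w, Df L' *
        ({x | x ∈ L₁ r} ∩ crr L₂ (shS b.1 b.2 '' Seg (s + 2))).ncard < w ^ 2) ∧
      (crr L₁ (Seg w) ∩ crr L₂ (shS b.1 b.2 '' Seg (s + 2))).ncard ≤ Cb * w ^ 2 ∧
      Df L' * (crr L₁ (layer w K₀) ∩ crr L₂ (shS b.1 b.2 '' Seg (s + 2))).ncard ≤ w ^ 2 ∧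
      h * (crr L₁ {r | r ∈ Seg w ∧
            L < ({x | x ∈ L₁ r} ∩ crr L₂ (shS b.1 b.2 '' Seg (s + 2))).ncard} ∩
          crr L₂ (shS b.1 b.2 '' Seg (s + 2))).ncard ≤ w ^ 2 ∧
      h' L * (crr L₁ {r | r ∈ Seg w ∧
            L' < ({x | x ∈ L₁ r} ∩ crr L₂ (shS b.1 b.2 '' Seg (s + 2))).ncard} ∩
          crr L₂ (shS b.1 b.2 '' Seg (s + 2))).ncard ≤ w ^ 2) →
    HasUniformMinor M k ∨
    ∃ (M₁ : Matroid α) (𝒯' : Finset (ℕ × ℕ)) (L₁' : Bool × ℕ × ℕ → List α)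
      (f₁' : α → Sym2 ((ℕ × ℕ) ⊕ α)) (e₁' : Bool × ℕ × ℕ → α) (u₁' : ℕ)
      (L₂' : Bool × ℕ × ℕ → List α) (f₂' : α → Sym2 ((ℕ × ℕ) ⊕ α)) (u₂' : ℕ) (a n : ℕ) (el : SegR n → ℕ → α) (S Q : Set α)
      (ends : α → Sym2 (Nd (WV n) (SegR n))) (BQ Bd : Finset (SegR n)) (τ : ℕ → ℕ × ℕ) (m : ℕ)
      (R : ℕ → SegR n) (q : ℕ → ℕ → ℕ) (G : ℕ → ℕ → Prop) (P : Finset ℕ) (i₀ j₀ w' : ℕ),
      M₁ ≤m M ∧ 𝒯' ⊆ 𝒯 ∧ u₁' ≤ κ' ∧ u₂' ≤ κ' ∧ m ≤ Cb * w ^ 2 ∧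
      w ≤ 2 * w' ∧ shS i₀ j₀ '' Seg w' ⊆ Seg w ∧ (∀ r ∈ Seg w', e₁' r ∈ L₁ (shS i₀ j₀ r)) ∧
      Pair M₁ (Seg w') L₁' f₁' e₁' u₁' (tiles s 𝒯') L₂' f₂' e₂ u₂' ∧
      Base M₁ w' s 𝒯' L₁' L₂' e₂ u η nT F a n el S Q ends BQ Bd τ m R q G P

/-- **The host from `Base`.**  `ρ`: hot blocks.  `u` and `E₁` do not depend on the strip. -/
def HostOfBase (k κ u : ℕ) : Prop :=
  ∀ ρ : ℕ, ∃ E₁ : ℕ → ℕ, ∀ (k₁ N₀ y₀ c h₀ : ℕ) (g : ℕ → ℕ) (Nn mp t n₁ : ℕ), ∃ s₁ : ℕ,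
    ∀ s ≥ s₁, ∃ (η w₀ : ℕ) (F : ℕ → ℕ), ∀ wmax mmax : ℕ, ∃ nT : ℕ,
    ∀ {α : Type u} (M : Matroid α) [M.Finite] (w : ℕ) (𝒯 : Finset (ℕ × ℕ))
    (L₁ : Bool × ℕ × ℕ → List α) (f₁ : α → Sym2 ((ℕ × ℕ) ⊕ α)) (e₁ : Bool × ℕ × ℕ → α) (u₁ : ℕ)
    (L₂ : Bool × ℕ × ℕ → List α) (f₂ : α → Sym2 ((ℕ × ℕ) ⊕ α)) (e₂ : Bool × ℕ × ℕ → α) (u₂ : ℕ)
    (a n : ℕ) (el : SegR n → ℕ → α) (S Q : Set α) (ends : α → Sym2 (Nd (WV n) (SegR n)))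
    (BQ Bd : Finset (SegR n)) (τ : ℕ → ℕ × ℕ) (m : ℕ) (R : ℕ → SegR n) (q : ℕ → ℕ → ℕ)
    (G : ℕ → ℕ → Prop) (P : Finset ℕ),
    w₀ ≤ w → w ≤ wmax → m ≤ mmax → u₁ ≤ κ → u₂ ≤ κ →
    Pair M (Seg w) L₁ f₁ e₁ u₁ (tiles s 𝒯) L₂ f₂ e₂ u₂ →
    (∀ i j a b : ℕ, shS i j '' Seg ρ ⊆ Seg w → shS a b '' Seg ρ ⊆ tiles s 𝒯 →
      ∃ r ∈ shS i j '' Seg ρ, ∃ x ∈ L₁ r, x ∈ crr L₂ (shS a b '' Seg ρ)) →
    Base M w s 𝒯 L₁ L₂ e₂ u η nT F a n el S Q ends BQ Bd τ m R q G P →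
    HasUniformMinor M k ∨ TSK.HostOut M u k₁ (E₁ k₁) N₀ y₀ c h₀ g Nn mp t n₁

lemma subwall_le {i₀ j₀ w' w : ℕ} (h : shS i₀ j₀ '' Seg w' ⊆ Seg w) : w' ≤ w := by
  by_contra hlt
  push Not at hlt
  have h1 := h ⟨(true, w' - 1, 0), Or.inl ⟨rfl, by show w' - 1 < w'; omega, Nat.zero_le _⟩, rfl⟩
  rcases h1 with ⟨_, h2, _⟩ | ⟨h2, _⟩
  · simp only [shS] at h2
    omega
  · simp [shS] at h2

/-- **Covered pairs with two thresholds** `L ≤ L'` (as `coverExistsE`; `Df` at `L'`, and the rows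
with more than `L'` conflicts in the tile carry at most `w ^ 2 / h' L`). -/
def CoverE2 (k K : ℕ) : Prop := ∃ (κ : ℕ) (s₀ s₁ : ℕ → ℕ) (Cb : ℕ → ℕ → ℕ),
    ∀ t G : ℕ, 2 ∣ G → ∀ (Df h' : ℕ → ℕ) (h K₀ w₁ s : ℕ), s₁ t ≤ s → s < G → ∃ wmax : ℕ,
    ∀ m : ℕ, ∃ N : ℕ, ∀ n ≥ N,
    ∀ {α : Type u} (M : Matroid α) [M.Finite] (S₁ S₂ C₁ D₂ : Set α)
    (g₁ g₂ : α → Sym2 (ℕ × ℕ)), Dat M S₁ S₂ C₁ D₂ g₁ g₂ n →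
    ((C₁ ∩ D₂).ncard ≤ K * n ^ 4 ∨ (M.E \ (S₁ ∪ S₂ ∪ C₁ ∪ D₂)).ncard ≤ K * n ^ 4) →
    KGe M S₁ S₂ N → HasUniformMinor M k ∨
    ∃ (M₀ : Matroid α) (w L L' : ℕ) (𝒯 : Finset (ℕ × ℕ)) (L₁ : Bool × ℕ × ℕ → List α)
      (f₁ : α → Sym2 ((ℕ × ℕ) ⊕ α)) (e₁ : Bool × ℕ × ℕ → α) (u₁ : ℕ)
      (L₂ : Bool × ℕ × ℕ → List α) (f₂ : α → Sym2 ((ℕ × ℕ) ⊕ α)) (e₂ : Bool × ℕ × ℕ → α) (u₂ : ℕ),
      M₀ ≤m M ∧ w₁ ≤ w ∧ w ≤ wmax ∧ L ≤ L' ∧ L' ≤ wmax ∧ u₁ ≤ κ ∧ u₂ ≤ κ ∧ m ≤ 𝒯.card ∧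
      (∀ b ∈ 𝒯, G ∣ b.1 ∧ G ∣ b.2) ∧
      World M₀ w s 𝒯 L₁ f₁ e₁ u₁ L₂ f₂ e₂ u₂ ∧
      Linked M₀ t (s₀ t) (e₁ '' Seg w) (e₂ '' tiles s 𝒯) ∧
      ∀ b ∈ 𝒯,
        (∀ r ∈ Seg w, ∃ x ∈ L₁ r, x ∈ crr L₂ (shS b.1 b.2 '' Seg (s₁ t))) ∧
        (∀ r ∈ Seg w, Df L' * ({x | x ∈ L₁ r} ∩ crr L₂ (shS b.1 b.2 '' Seg s)).ncard < w ^ 2) ∧
        (crr L₁ (Seg w) ∩ crr L₂ (shS b.1 b.2 '' Seg s)).ncard ≤ Cb t G * w ^ 2 ∧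
        Df L' * (crr L₁ (layer w K₀) ∩ crr L₂ (shS b.1 b.2 '' Seg s)).ncard ≤ w ^ 2 ∧
        h * (crr L₁ {r | r ∈ Seg w ∧
              L < ({x | x ∈ L₁ r} ∩ crr L₂ (shS b.1 b.2 '' Seg s)).ncard} ∩
            crr L₂ (shS b.1 b.2 '' Seg s)).ncard ≤ w ^ 2 ∧
        h' L * (crr L₁ {r | r ∈ Seg w ∧
              L' < ({x | x ∈ L₁ r} ∩ crr L₂ (shS b.1 b.2 '' Seg s)).ncard} ∩
            crr L₂ (shS b.1 b.2 '' Seg s)).ncard ≤ w ^ 2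

/-- **`HostExistsD` from its rows.** -/
theorem hostExistsD (k K : ℕ) (hk : 1 ≤ k) (hC : CoverE2.{u} k K)
    (hA : ∀ κ, ∃ κ', κ ≤ κ' ∧ ∀ ρh, ∃ u, ClaimA.{u} k κ κ' ρh u)
    (hB : ∀ κ u, HostOfBase.{u} k κ u) : TSK.HostExistsD.{u} k K := by
  classical
  obtain ⟨κ, s₀, s₂, Cb, hW⟩ := hC
  obtain ⟨t₀, hhot⟩ := hotBlock.{u} k hk
  obtain ⟨t₁, _, hrel⟩ := relink.{u} k hk t₀
  obtain ⟨s₀', w₂, hrel⟩ := hrel κ (s₀ t₁)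
  obtain ⟨κ', hκ, hA⟩ := hA κ
  obtain ⟨ρ, hρ⟩ := hhot κ' s₀'
  obtain ⟨u, sA, hA⟩ := hA ρ
  obtain ⟨E₁, hB⟩ := hB κ' u ρ
  refine ⟨u, E₁, ?_⟩
  intro k₁ N₀ y₀ c h₀ g Nn mp t n₁
  obtain ⟨s₁, hB⟩ := hB k₁ N₀ y₀ c h₀ g Nn mp t n₁
  obtain ⟨s, hs1, hs4, hs2, hsA, hs5⟩ : ∃ s, s₁ ≤ s ∧ 2 ≤ s ∧ 2 ∣ s ∧ sA ≤ s ∧ s₂ t₁ ≤ s :=
    ⟨2 * (s₁ + sA + s₂ t₁ + 2), by omega, by omega, ⟨_, rfl⟩, by omega, by omega⟩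
  obtain ⟨η, w₀, F, hB⟩ := hB s hs1
  obtain ⟨Df, h', h, K₀, w₁, hA⟩ := hA (Cb t₁ (2 * (s + 3))) s η F hsA hs4 hs2
  obtain ⟨wmax, hW⟩ := hW t₁ (2 * (s + 3)) ⟨_, rfl⟩ Df h' h K₀ (max (2 * w₂ + 2) (max (2 * w₀) w₁)) (s + 2)
    (by omega) (by omega)
  obtain ⟨nT, hB⟩ := hB wmax (Cb t₁ (2 * (s + 3)) * wmax ^ 2)
  obtain ⟨m₀, hA⟩ := hA wmax nT
  obtain ⟨N, hN⟩ := hW m₀
  refine ⟨N, ?_⟩
  intro n hn α M _ S₁ S₂ C₁ D₂ g₁ g₂ hd hc hK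
  rcases hN n hn M S₁ S₂ C₁ D₂ g₁ g₂ hd hc hK with hU | hU
  · exact Or.inl hU
  obtain ⟨M₀, w, L, L', 𝒯, L₁, f₁, e₁, u₁, L₂, f₂, e₂, u₂, a1, a2, a3, a4, a4', a5, a6, a7, a8, a9,
    a10, a11⟩ := hU
  have fM : M₀.Finite := ⟨M.ground_finite.subset a1.subset⟩
  by_cases hU₀ : HasUniformMinor M₀ k
  · exact Or.inl (HasUniformMinor_mono hU₀ a1)
  have w2 : 2 * w₂ + 2 ≤ w := (le_max_left _ _).trans a2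
  have w0 : 2 * w₀ ≤ w := ((le_max_left _ _).trans (le_max_right _ _)).trans a2
  have w1 : w₁ ≤ w := ((le_max_right _ _).trans (le_max_right _ _)).trans a2
  have hHot : HotS κ' ρ M₀ w s 𝒯 L₁ e₂ := by
    intro i₀ j₀ w' hw' hsw M' 𝒯' L₁' f₁' e₁' u₁' L₂' f₂' u₂' c1 c2 c3 c4 c6 c5
    have fM' : M'.Finite := ⟨M₀.ground_finite.subset c1.subset⟩
    obtain ⟨f₀, hS₀⟩ := a9.pair.s₁.shift hsw
    have hsub : e₂ '' tiles s 𝒯' ⊆ e₂ '' tiles (s + 2) 𝒯 := image_mono (by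
        rintro σ ⟨b, hb, σ', hσ', hσ⟩
        refine ⟨b, c2 hb, σ', ?_, hσ⟩
        rcases hσ' with ⟨h1, h2, h3⟩ | ⟨h1, h2, h3, h4⟩
        · exact Or.inl ⟨h1, by omega, by omega⟩
        · exact Or.inr ⟨h1, by omega, by omega, h4⟩)
    rcases hrel w' (by omega) M₀ (fun r => L₁ (shS i₀ j₀ r)) f₀ (fun r => e₁ (shS i₀ j₀ r)) e₁' u₁
      (e₂ '' tiles s 𝒯') a5 hS₀
      (a10.mono Matroid.IsMinor.refl (by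
        rintro _ ⟨r, hr, rfl⟩
        exact ⟨_, hsw ⟨r, hr, rfl⟩, rfl⟩) hsub) c6 c5.dj with hU | hl
    · exact absurd hU hU₀
    rcases hρ t₀ le_rfl M' (Seg w') L₁' f₁' e₁' u₁' (tiles s 𝒯') L₂' f₂' e₂ u₂' c5 c3 c4
      (hl.mono c1 Subset.rfl Subset.rfl) with hU | hh
    · exact absurd (HasUniformMinor_mono hU c1) hU₀
    · exact hh
  rcases hA M₀ w L L' 𝒯 L₁ f₁ e₁ u₁ L₂ f₂ e₂ u₂ w1 a3 a4 a4' a5 a6 a7 a8 a9 hHot (by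
      intro b hb r hr
      obtain ⟨x, hx, σ, ⟨σ', hσ', hσσ⟩, hxσ⟩ := (a11 b hb).1 r hr
      refine ⟨x, hx, σ, ⟨σ', ?_, hσσ⟩, hxσ⟩
      rcases hσ' with ⟨h1, h2, h3⟩ | ⟨h1, h2, h3, h4⟩
      · exact Or.inl ⟨h1, by omega, by omega⟩
      · exact Or.inr ⟨h1, by omega, by omega, h4⟩) (fun b hb => (a11 b hb).2) with hU | hU
  · exact absurd hU hU₀
  obtain ⟨M₁, 𝒯', L₁', f₁', e₁', u₁', L₂', f₂', u₂', a, n', el, S, Q, ends, BQ, Bd, τ, m, R, q, G, P,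
    i₀, j₀, w', b1, b2, b3, b4, bm, bw, bs, ba, b5, b6⟩ := hU
  have fM₁ : M₁.Finite := ⟨M₀.ground_finite.subset b1.subset⟩
  have hw' : w' ≤ w := subwall_le bs
  rcases hB M₁ w' 𝒯' L₁' f₁' e₁' u₁' L₂' f₂' e₂ u₂' a n' el S Q ends BQ Bd τ m R q G P
    (by omega) (hw'.trans a3) (bm.trans (Nat.mul_le_mul_left _ (Nat.pow_le_pow_left a3 2)))
    b3 b4 b5 (hHot i₀ j₀ w' bw bs M₁ 𝒯' L₁' f₁' e₁' u₁' L₂' f₂' u₂' b1 b2 b3 b4 ba b5) b6 with hU | hU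
  · exact Or.inl (HasUniformMinor_mono (HasUniformMinor_mono hU b1) a1)
  · right
    obtain ⟨M₂, V, σ, fV, fσ, H, N', S', Sf, Q', E₂, D₂', ends', n'', c1, c2⟩ := hU
    exact ⟨M₂, V, σ, fV, fσ, H, N', S', Sf, Q', E₂, D₂', ends', n'', (c1.trans b1).trans a1, c2⟩

end TSH
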