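import Pool.Agent.TST.SGDefs
import Pool.Agent.CW.Units

/-!
# Row CU of the host: columns from homogeneous units (helper45)

`f b` = number of the window `b`; the tile `u = 3 f(N) + 1` is in the middle window.
-/

open Set Relation
open scoped Matroid

namespace TST

open BIC Gad EN BICS Mdl

variable {X₀ β σ : Type}

/-- the tile of the separator `b` -/
def sepT (N : ℕ) (f : ℕ → ℕ) (b : ℕ) : ℕ := if b ≤ 2 * N then 3 * f b else 3 * f (2 * N) + 3

lemma sepT_succ {N : ℕ} {f : ℕ → ℕ} (hf : ∀ a b, a < b → b ≤ 2 * N → f a < f b) {b : ℕ}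
    (hb : b ≤ 2 * N) : 3 * f b + 3 ≤ sepT N f (b + 1) := by
  unfold sepT
  split_ifs with h
  · have := hf b (b + 1) (by omega) h
    omega
  · obtain rfl : b = 2 * N := by omega
    omega

lemma sepT_lt {N : ℕ} {f : ℕ → ℕ} (hf : ∀ a b, a < b → b ≤ 2 * N → f a < f b) {a b : ℕ}
    (hab : a < b) (hb : b ≤ 2 * N + 1) : sepT N f a < sepT N f b := by
  induction b, hab using Nat.le_induction with
  | base =>
    have h1 := sepT_succ (N := N) hf (b := a) (by omega)
    have h2 : sepT N f a = 3 * f a := by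
      unfold sepT
      rw [if_pos (by omega)]
    show sepT N f a < sepT N f (a + 1)
    omega
  | succ c hc ih =>
    have h1 := sepT_succ (N := N) hf (b := c) (by omega)
    have h2 : sepT N f c = 3 * f c := by
      unfold sepT
      rw [if_pos (by omega)]
    have h3 := ih (by omega)
    omega

lemma sepT_bd {N : ℕ} {f : ℕ → ℕ} (hf : ∀ a b, a < b → b ≤ 2 * N → f a < f b) (hf0 : 1 ≤ f 0)
    {b : ℕ} (hb : b ≤ 2 * N + 1) : 3 ≤ sepT N f b ∧ sepT N f b ≤ 3 * f (2 * N) + 3 := by
  constructor
  · rcases Nat.eq_zero_or_pos b with rfl | h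
    · unfold sepT
      rw [if_pos (by omega)]
      omega
    · have h1 := sepT_lt (N := N) hf h hb
      have h2 : sepT N f 0 = 3 * f 0 := by
        unfold sepT
        rw [if_pos (by omega)]
      omega
  · rcases Nat.lt_or_ge b (2 * N + 1) with h | h
    · have h1 := sepT_lt (N := N) hf h le_rfl
      have h2 : sepT N f (2 * N + 1) = 3 * f (2 * N) + 3 := by
        unfold sepT
        rw [if_neg (by omega)]
      omega
    · obtain rfl : b = 2 * N + 1 := by omega
      unfold sepT
      rw [if_neg (by omega)]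

theorem cols_of_units {W : RW X₀ β} {J : β × ℕ → β × ℕ → Prop} {n m : ℕ} {R : ℕ → β}
    {q : ℕ → ℕ → ℕ} {G : ℕ → ℕ → Prop} (hU : CWL.HUnits J n m R q G)
    (hlt : ∀ i < m, ∀ b < n, q i b < W.len (R i)) {N : ℕ} {f : ℕ → ℕ}
    (hf : ∀ a b, a < b → b ≤ 2 * N → f a < f b) (hf0 : 1 ≤ f 0) (hfn : 3 * f (2 * N) + 5 < n)
    {ln : σ → ℕ} (lbl : CI ln → ℕ) (hl : ∀ i, lbl i < m)
    (hsep : ∀ i j, i ≠ j → R (lbl i) = R (lbl j) → RamP.Sep n (q (lbl i)) (q (lbl j))) :
    ∃ C : Cols W (CI ln) N, (∀ i, C.R i = R (lbl i)) ∧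
      (∀ i, ∀ b ≤ 2 * N, C.x i b = q (lbl i) (3 * f b)) ∧
      (∀ i, C.x i (2 * N + 1) = q (lbl i) (3 * f (2 * N) + 3)) ∧
      (∀ i, ∀ b ≤ 2 * N + 1, 0 < C.x i b ∧ C.x i b + 1 < W.len (R (lbl i))) ∧
      (∀ i p, p ∈ C.y i ↔ ∃ i' < m, R i' = R (lbl i) ∧ RamP.Near n (q i') (q (lbl i)) ∧
        p = q i' (3 * f N + 1)) ∧
      (∀ i' < m, ∀ i, R i' = R (lbl i) → ¬ RamP.Near n (q i') (q (lbl i)) → ∀ b < n,
        (∀ a ≤ 2 * N + 1, q i' b < C.x i a) ∨ (∀ a ≤ 2 * N + 1, C.x i a < q i' b)) ∧
      ∀ i (b : ℤ) p, -(N : ℤ) ≤ b → b ≤ N →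
        CWL.Btw (q (lbl i) (3 * f (b + N).toNat + 1)) (q (lbl i) (3 * f (b + N).toNat + 2)) p →
        C.Win i b p := by
  classical
  have hfN : f N ≤ f (2 * N) := by
    rcases Nat.eq_zero_or_pos N with rfl | h
    · exact le_rfl
    · exact (hf N (2 * N) (by omega) le_rfl).le
  have hs : ∀ b ≤ 2 * N + 1, sepT N f b + 1 < n := fun b hb => by
    have := (sepT_bd hf hf0 hb).2
    omega
  refine ⟨
    { R := fun i => R (lbl i)
      x := fun i b => q (lbl i) (sepT N f b)
      y := fun i => ((Finset.range m).filter fun i' => R i' = R (lbl i) ∧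
        RamP.Near n (q i') (q (lbl i))).image fun i' => q i' (3 * f N + 1)
      up := fun i => ∀ r s, r < s → s < n → q (lbl i) r < q (lbl i) s
      lt := ?_
      mon := ?_
      yin := ?_
      sep := ?_ }, ?_⟩
  · intro i b hb
    exact hlt _ (hl i) _ (by have := hs b hb; omega)
  · intro i
    rcases hU.mon _ (hl i) with h | h
    · exact Or.inl ⟨h, fun b hb => h _ _ (sepT_lt hf (by omega) (by omega))
        (by have := hs (b + 1) (by omega); omega)⟩
    · refine Or.inr ⟨fun h2 => ?_, fun b hb => h _ _ (sepT_lt hf (by omega) (by omega))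
        (by have := hs (b + 1) (by omega); omega)⟩
      have h3 := h 0 1 (by omega) (by omega)
      have h4 := h2 0 1 (by omega) (by omega)
      omega
  · intro i p hp
    rw [Finset.mem_image] at hp
    obtain ⟨i', hi', rfl⟩ := hp
    rw [Finset.mem_filter, Finset.mem_range] at hi'
    obtain ⟨h1, h2, h3⟩ := hi'
    have e1 : sepT N f N = 3 * f N := by
      unfold sepT
      rw [if_pos (by omega)]
    have e2 := sepT_succ (N := N) hf (b := N) (by omega)
    have e3 := hs (N + 1) (by omega)
    rcases h3 with h3 | h3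
    · refine Or.inl ⟨?_, ?_⟩
      · simp only [e1]
        exact (h3 (3 * f N) (3 * f N + 1) (by omega) (by omega)).2.2.1
      · exact (h3 (3 * f N + 1) (sepT N f (N + 1)) (by omega) (by omega)).2.1
    · refine Or.inr ⟨?_, ?_⟩
      · exact (h3 (3 * f N + 1) (sepT N f (N + 1)) (by omega) (by omega)).2.1
      · simp only [e1]
        exact (h3 (3 * f N) (3 * f N + 1) (by omega) (by omega)).2.2.1
  · intro i i' hii hR
    rcases hsep i i' hii hR with h | h
    · exact Or.inl fun b hb b' hb' => h _ _ (by have := hs b hb; omega)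
        (by have := hs b' hb'; omega)
    · exact Or.inr fun b hb b' hb' => h _ _ (by have := hs b hb; omega)
        (by have := hs b' hb'; omega)
  · refine ⟨fun _ => rfl, ?_, ?_, ?_, ?_, ?_, ?_⟩
    · intro i b hb
      show q (lbl i) (sepT N f b) = _
      unfold sepT
      rw [if_pos hb]
    · intro i
      show q (lbl i) (sepT N f (2 * N + 1)) = _
      unfold sepT
      rw [if_neg (by omega)]
    · intro i b hb
      show 0 < q (lbl i) (sepT N f b) ∧ q (lbl i) (sepT N f b) + 1 < W.len (R (lbl i))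
      have h1 := (sepT_bd hf hf0 hb).1
      have h2 := hs b hb
      rcases hU.mon _ (hl i) with h | h
      · have h3 := h 0 (sepT N f b) (by omega) (by omega)
        have h4 := h (sepT N f b) (sepT N f b + 1) (by omega) h2
        have h5 := hlt _ (hl i) (sepT N f b + 1) h2
        omega
      · have h3 := h 0 (sepT N f b) (by omega) (by omega)
        have h4 := h (sepT N f b) (sepT N f b + 1) (by omega) h2
        have h5 := hlt _ (hl i) 0 (by omega)
        omega
    · intro i p
      show p ∈ ((Finset.range m).filter fun i' => R i' = R (lbl i) ∧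
        RamP.Near n (q i') (q (lbl i))).image (fun i' => q i' (3 * f N + 1)) ↔ _
      rw [Finset.mem_image]
      constructor
      · rintro ⟨i', hi', rfl⟩
        rw [Finset.mem_filter, Finset.mem_range] at hi'
        exact ⟨i', hi'.1, hi'.2.1, hi'.2.2, rfl⟩
      · rintro ⟨i', h1, h2, h3, rfl⟩
        exact ⟨i', by rw [Finset.mem_filter, Finset.mem_range]; exact ⟨h1, h2, h3⟩, rfl⟩
    · intro i' hi' i hR hn b hb
      show (∀ a ≤ 2 * N + 1, q i' b < q (lbl i) (sepT N f a)) ∨
        ∀ a ≤ 2 * N + 1, q (lbl i) (sepT N f a) < q i' b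
      rcases hU.near i' hi' _ (hl i) hR with h | h | h
      · exact absurd h hn
      · exact Or.inl fun a ha => h _ _ hb (by have := hs a ha; omega)
      · exact Or.inr fun a ha => h _ _ hb (by have := hs a ha; omega)
    · intro i b p hb1 hb2 hp
      obtain ⟨c, hc⟩ : ∃ c : ℕ, (b + N).toNat = c := ⟨_, rfl⟩
      have hc1 : (b + N + 1).toNat = c + 1 := by omega
      have hc2 : c ≤ 2 * N := by omega
      show (q (lbl i) (sepT N f (b + N).toNat) < p ∧ p ≤ q (lbl i) (sepT N f (b + N + 1).toNat)) ∨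
        (q (lbl i) (sepT N f (b + N + 1).toNat) < p ∧ p ≤ q (lbl i) (sepT N f (b + N).toNat))
      rw [hc] at hp ⊢
      rw [hc1]
      have e1 : sepT N f c = 3 * f c := by
        unfold sepT
        rw [if_pos hc2]
      have e2 := sepT_succ (N := N) hf hc2
      have e3 := hs (c + 1) (by omega)
      rw [e1]
      rcases hU.mon _ (hl i) with h | h
      · have h1 := h (3 * f c) (3 * f c + 1) (by omega) (by omega)
        have h2 := h (3 * f c + 1) (3 * f c + 2) (by omega) (by omega)
        have h3 := h (3 * f c + 2) (sepT N f (c + 1)) (by omega) (by omega)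
        left
        rcases hp with hp | hp <;> omega
      · have h1 := h (3 * f c) (3 * f c + 1) (by omega) (by omega)
        have h2 := h (3 * f c + 1) (3 * f c + 2) (by omega) (by omega)
        have h3 := h (3 * f c + 2) (sepT N f (c + 1)) (by omega) (by omega)
        right
        rcases hp with hp | hp <;> omega

end TST
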