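import Pool.Agent.TST.SGDefs

/-!
# Frames of a quotient, with loops and with `Q` (row HF of T-star, helper95)
-/

open Set Relation
open scoped Matroid

namespace TST

open BIC Gad EN BICS

section
variable {α V V' : Type*} {M : Matroid α} {S S' : Set α} {ends : α → Sym2 V}
  {ends' : α → Sym2 V'} {u : ℕ} {π : V → Option V'} {F : V' → Set α}

/-- as `FrmU.quo`, loops come from loops. -/
theorem FrmU.quo_loops [M.Finite] (hF : FrmU M S ends u) (h : Quo S ends π F S' ends')
    (hloop : ∀ e ∈ S', ∀ P, ends' e = s(P, P) → ∃ v, ends e = s(v, v)) :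
    FrmU (M ／ FO F univ) S' ends' u := by
  classical
  refine FrmU.quo hF h fun e he P heP hcl => ?_
  obtain ⟨p, hp⟩ := hloop e he P heP
  obtain ⟨p₁, q₁, P₁, Q₁, h1, h2, h3, h4⟩ := h.rel e he
  have hpP : π p = some P := by
    have h5 : p₁ = p := by
      have : p₁ ∈ ends e := by rw [h1]; simp
      rw [hp] at this
      simpa using this
    have h6 : P₁ = P := by
      have : P₁ ∈ ends' e := by rw [h4]; simp
      rw [heP] at this
      simpa using this
    rw [← h5, ← h6]
    exact h2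
  have hpe : p ∈ ends e := by rw [hp]; simp
  have huniq : ∀ v ∈ ends e, π v = some P → v = p := by
    intro v hv _
    rw [hp] at hv
    simpa using hv
  set B : Set α := ins S' ends' {P}ᶜ ∪ FO F {P}ᶜ with hB
  have hBS : B ⊆ S := union_subset (fun x hx => h.sub hx.1) (h.FO_sub _)
  have hBv : ∀ x ∈ B, ∀ v ∈ ends x, π v ≠ some P := by
    rintro x (hx | hx) v hv hvP
    · obtain ⟨Q, hQ, hvQ⟩ := h.ends_in hx hv
      rw [hvP] at hvQ
      exact hQ (Option.some.inj hvQ).symm
    · obtain ⟨Q, hQ, hx⟩ := mem_FO.1 hx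
      rw [(h.F_ins hx).2 v hv] at hvP
      exact hQ (Option.some.inj hvP)
  obtain ⟨I, hI⟩ := M.exists_isBasis B (hBS.trans hF.sub)
  have hIS : I ⊆ S := hI.subset.trans hBS
  have h5 : M.Indep (insert e I) :=
    hF.leaf hI.indep hIS (v := p) (fun x hx hv => hBv x (hI.subset hx) p hv hpP)
      (h.sub he) hpe
  have h6 : M.Indep (insert e I ∪ FO F {P}) := by
    refine h.indep hF h5 (insert_subset (h.sub he) hIS) {P} ?_
    have huq : ∀ x ∈ insert e I, ∀ v ∈ ends x, π v = some P → v = p := by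
      rintro x (rfl | hx) v hv hvQ
      · exact huniq v hv hvQ
      · exact absurd hvQ (hBv x (hI.subset hx) v hv)
    rintro Q rfl x hx v hv x' hx' v' hv' h8 h9
    rw [huq x hx v hv h8, huq x' hx' v' hv' h9]
  have heI : e ∉ I ∪ FO F {P} := by
    rintro (he' | he')
    · exact hBv e (hI.subset he') p hpe hpP
    · obtain ⟨Q, _, he'⟩ := mem_FO.1 he'
      exact Set.disjoint_left.1 (h.dis Q) he he'
  have h7 : e ∉ M.closure (I ∪ FO F {P}) := by
    rw [(h6.subset (by
      intro x hx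
      rcases hx with hx | hx
      · exact Or.inl (Or.inr hx)
      · exact Or.inr hx)).notMem_closure_iff_of_notMem heI (hF.sub (h.sub he))]
    refine h6.subset ?_
    rintro x (rfl | hx | hx)
    · exact Or.inl (Or.inl rfl)
    · exact Or.inl (Or.inr hx)
    · exact Or.inr hx
  apply h7
  rw [← M.closure_union_closure_left_eq, hI.closure_eq_closure,
    M.closure_union_closure_left_eq]
  refine M.closure_subset_closure ?_ hcl
  rintro x (hx | hx)
  · exact Or.inl (Or.inl hx)
  · obtain ⟨Q, _, hx⟩ := mem_FO.1 hx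
    by_cases hQ : Q = P
    · subst hQ
      exact Or.inr (mem_FO.2 ⟨Q, rfl, hx⟩)
    · exact Or.inl (Or.inr (mem_FO.2 ⟨Q, hQ, hx⟩))

lemma eQ_mix {VQ : Set V} {ends : α → Sym2 V} {e : α} {v w : V} (h : ends e = s(v, w))
    (hv : v ∉ VQ) (hw : w ∈ VQ) : eQ VQ ends e = s(v, v) := by
  unfold eQ
  have hex : ∃ v w, ends e = s(v, w) ∧ v ∉ VQ ∧ w ∈ VQ := ⟨v, w, h, hv, hw⟩
  rw [dif_pos hex]
  obtain ⟨w', h1, h2, h3⟩ := hex.choose_spec
  have : hex.choose = v := by
    rcases Sym2.eq_iff.1 (h.symm.trans h1) with ⟨h4, _⟩ | ⟨h4, h5⟩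
    · exact h4.symm
    · rw [h4] at hv
      exact absurd h3 hv
  rw [this]

lemma eQ_out {VQ : Set V} {ends : α → Sym2 V} {e : α} (h : ∀ v ∈ ends e, v ∉ VQ) :
    eQ VQ ends e = ends e := by
  unfold eQ
  rw [dif_neg]
  rintro ⟨v, w, h1, _, h3⟩
  exact h w (by rw [h1]; simp) h3

lemma arb_congr {S₁ S₂ : Set α} {ends₁ ends₂ : α → Sym2 V} {U : Set V} {τ : Set α}
    (h : Arb S₁ ends₁ U τ) (h2 : ∀ e ∈ τ, e ∈ S₂ ∧ ends₂ e = ends₁ e) : Arb S₂ ends₂ U τ := by
  refine ⟨fun e he => ⟨(h2 e he).1, fun v hv => ?_⟩, h.2.1, fun v hv => ?_⟩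
  · rw [(h2 e he).2] at hv
    exact (h.1 he).2 v hv
  · obtain ⟨φ, h3, h4⟩ := h.2.2 v hv
    refine ⟨φ, h3, fun e he => ?_⟩
    rw [(h2 e he).2]
    exact h4 e he

lemma frm_of_zero [M.Finite] (h : FrmU M S ends 0) : Frm M S ends := by
  refine ⟨h.sub, h.star, fun W => ?_⟩
  by_cases hW : W.Finite
  · have h1 := h.rk W hW
    rw [← cast_rk, ← hW.cast_ncard_eq]
    exact_mod_cast h1
  · rw [Set.Infinite.encard_eq hW]
    exact le_top

/-- the second part of `host_frames`: the frame after the contraction of `Q`. -/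
theorem host_frm_Q [M.Finite] {Q : Set α} {VQ : Set V}
    (hQ : FrmU (M ／ Q) (SQ VQ S ends) (eQ VQ ends) 0)
    (h : Quo S ends π F S' ends') (hl : ∀ e ∈ S', ∀ P, ends' e ≠ s(P, P))
    (hsat : ∀ P, prt π P ⊆ VQ ∨ Disjoint (prt π P) VQ)
    (hFQ : ∀ P, prt π P ⊆ VQ → F P ⊆ Q) :
    Frm ((M ／ FO F univ) ／ (Q \ FO F univ)) (SQ {P | prt π P ⊆ VQ} S' ends')
      (eQ {P | prt π P ⊆ VQ} ends') := by
  classical
  -- the parts outside of `VQ`
  set π₁ : V → Option V' := fun v => if v ∈ VQ then none else π v with hπ₁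
  set F₁ : V' → Set α := fun P => if prt π P ⊆ VQ then ∅ else F P with hF₁
  set VQ' : Set V' := {P | prt π P ⊆ VQ} with hVQ'
  have hdj : ∀ P, P ∉ VQ' → Disjoint (prt π P) VQ := fun P hP => (hsat P).resolve_left hP
  have hπo : ∀ v, v ∉ VQ → π₁ v = π v := fun v hv => if_neg hv
  have hrel : ∀ e ∈ S', (∀ v ∈ ends e, v ∉ VQ) ∧ (∀ P ∈ ends' e, P ∉ VQ') ∨
      (∀ v ∈ ends e, v ∈ VQ) ∧ (∀ P ∈ ends' e, P ∈ VQ') ∨
      ∃ p q P P', ends e = s(p, q) ∧ ends' e = s(P, P') ∧ π p = some P ∧ π q = some P' ∧ p ∉ VQ ∧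
        q ∈ VQ ∧ P ∉ VQ' ∧ P' ∈ VQ' := by
    intro e he
    obtain ⟨p, q, P, P', h1, h2, h3, h4⟩ := h.rel e he
    have hin : ∀ r R, π r = some R → (r ∈ VQ ↔ R ∈ VQ') := by
      intro r R hr
      constructor
      · intro hrV
        by_contra hR
        exact Set.disjoint_left.1 (hdj R hR) hr hrV
      · intro hR
        exact hR hr
    by_cases c1 : p ∈ VQ <;> by_cases c2 : q ∈ VQ
    · refine Or.inr (Or.inl ⟨?_, ?_⟩)
      · intro v hv
        rw [h1] at hv
        rcases Sym2.mem_iff.1 hv with rfl | rfl <;> assumption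
      · intro R hR
        rw [h4] at hR
        rcases Sym2.mem_iff.1 hR with rfl | rfl
        · exact (hin p _ h2).1 c1
        · exact (hin q _ h3).1 c2
    · refine Or.inr (Or.inr ⟨q, p, P', P, by rw [h1, Sym2.eq_swap], by rw [h4, Sym2.eq_swap],
        h3, h2, c2, c1, fun hc => c2 ((hin q _ h3).2 hc), (hin p _ h2).1 c1⟩)
    · exact Or.inr (Or.inr ⟨p, q, P, P', h1, h4, h2, h3, c1, c2,
        fun hc => c1 ((hin p _ h2).2 hc), (hin q _ h3).1 c2⟩)
    · refine Or.inl ⟨?_, ?_⟩
      · intro v hv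
        rw [h1] at hv
        rcases Sym2.mem_iff.1 hv with rfl | rfl <;> assumption
      · intro R hR
        rw [h4] at hR
        rcases Sym2.mem_iff.1 hR with rfl | rfl
        · exact fun hc => c1 ((hin p _ h2).2 hc)
        · exact fun hc => c2 ((hin q _ h3).2 hc)
  have hquo : Quo (SQ VQ S ends) (eQ VQ ends) π₁ F₁ (SQ VQ' S' ends') (eQ VQ' ends') := by
    have hprt : ∀ P, prt π₁ P ⊆ prt π P := by
      intro P v hv
      by_cases hvQ : v ∈ VQ
      · have h1 : π₁ v = some P := hv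
        rw [hπ₁] at h1
        simp only [if_pos hvQ] at h1
        exact absurd h1 (by simp)
      · have h1 : π₁ v = some P := hv
        rw [hπo v hvQ] at h1
        exact h1
    refine ⟨fun P => (h.fin P).subset (hprt P), fun P => ?_, ?_, ?_, ?_⟩
    · by_cases hP : prt π P ⊆ VQ
      · refine Or.inl ⟨?_, if_pos hP⟩
        rw [Set.eq_empty_iff_forall_notMem]
        intro v hv
        have h1 : π₁ v = some P := hv
        rw [hπ₁] at h1
        simp only [if_pos (hP (hprt P hv))] at h1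
        exact absurd h1 (by simp)
      · have hdP := hdj P hP
        have e1 : prt π₁ P = prt π P := by
          refine (hprt P).antisymm fun v hv => ?_
          show π₁ v = some P
          rw [hπo v (fun hvQ => Set.disjoint_left.1 hdP hv hvQ)]
          exact hv
        have e2 : F₁ P = F P := if_neg hP
        rw [e1, e2]
        rcases h.tree P with h1 | h1
        · exact Or.inl h1
        · refine Or.inr (arb_congr h1 fun e he => ?_)
          have h2 := h.F_ins he
          have h3 : ∀ v ∈ ends e, v ∉ VQ := fun v hv hvQ =>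
            Set.disjoint_left.1 hdP (h2.2 v hv) hvQ
          obtain ⟨v, hv⟩ := exists_mem_ends ends e
          exact ⟨⟨h2.1, v, hv, h3 v hv⟩, eQ_out h3⟩
    · rintro e ⟨he, P, hPe, hP⟩
      refine ⟨h.sub he, ?_⟩
      rcases hrel e he with ⟨h1, _⟩ | ⟨_, h1⟩ | ⟨p, q, P', P'', h1, _, _, _, h2, _⟩
      · obtain ⟨v, hv⟩ := exists_mem_ends ends e
        exact ⟨v, hv, h1 v hv⟩
      · exact absurd (h1 P hPe) hP
      · exact ⟨p, by rw [h1]; simp, h2⟩
    · rintro e ⟨he, P, hPe, hP⟩
      rcases hrel e he with ⟨h1, h2⟩ | ⟨_, h1⟩ | ⟨p, q, P', P'', h1, h2, h3, h4, h5, h6, h7, h8⟩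
      · obtain ⟨p, q, P₁, Q₁, g1, g2, g3, g4⟩ := h.rel e he
        refine ⟨p, q, P₁, Q₁, by rw [eQ_out h1, g1], ?_, ?_, by rw [eQ_out h2, g4]⟩
        · rw [hπo p (h1 p (by rw [g1]; simp)), g2]
        · rw [hπo q (h1 q (by rw [g1]; simp)), g3]
      · exact absurd (h1 P hPe) hP
      · exact ⟨p, p, P', P', eQ_mix h1 h5 h6, by rw [hπo p h5, h3], by rw [hπo p h5, h3],
          eQ_mix h2 h7 h8⟩
    · intro P
      rw [Set.disjoint_left]
      rintro e ⟨he, _⟩ he'
      by_cases hP : prt π P ⊆ VQ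
      · have : F₁ P = ∅ := if_pos hP
        rw [this] at he'
        exact he'
      · have : F₁ P = F P := if_neg hP
        rw [this] at he'
        exact Set.disjoint_left.1 (h.dis P) he he'
  have hfin : (M ／ Q).Finite := BQ.fin_contract Q
  have h1 := FrmU.quo_loops hQ hquo (by
    rintro e ⟨he, P, hPe, hP⟩ R heR
    rcases hrel e he with ⟨h1, h2⟩ | ⟨_, h1⟩ | ⟨p, q, P', P'', h1, h2, h3, h4, h5, h6, h7, h8⟩
    · rw [eQ_out h2] at heR
      exact absurd heR (hl e he R)
    · exact absurd (h1 P hPe) hP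
    · exact ⟨p, eQ_mix h1 h5 h6⟩)
  have e1 : (M ／ Q) ／ FO F₁ univ = (M ／ FO F univ) ／ (Q \ FO F univ) := by
    rw [Matroid.contract_contract, Matroid.contract_contract]
    congr 1
    ext e
    simp only [mem_union, mem_sdiff, mem_FO, mem_univ, true_and]
    constructor
    · rintro (he | ⟨P, he⟩)
      · by_cases hc : ∃ P, e ∈ F P
        · exact Or.inl hc
        · exact Or.inr ⟨he, hc⟩
      · by_cases hP : prt π P ⊆ VQ
        · have : F₁ P = ∅ := if_pos hP
          rw [this] at he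
          exact absurd he (Set.notMem_empty e)
        · have : F₁ P = F P := if_neg hP
          rw [this] at he
          exact Or.inl ⟨P, he⟩
    · rintro (⟨P, he⟩ | ⟨he, _⟩)
      · by_cases hP : prt π P ⊆ VQ
        · exact Or.inl (hFQ P hP he)
        · refine Or.inr ⟨P, ?_⟩
          have : F₁ P = F P := if_neg hP
          rw [this]
          exact he
      · exact Or.inl he
  rw [e1] at h1
  have f1 : (M ／ FO F univ).Finite := BQ.fin_contract _
  have f2 : (M ／ FO F univ ／ (Q \ FO F univ)).Finite := BQ.fin_contract _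
  exact frm_of_zero h1

/-- **Frames of the host.** `Q` = all elements of some rows, `VQ` = all nodes of these rows; every
part is inside of `VQ` or disjoint to it; `eQ` on the quotient, for the parts inside of `VQ`. -/
theorem host_frames [M.Finite] (hF : FrmU M S ends u) {Q : Set α} {VQ : Set V} (_hQE : Q ⊆ M.E)
    (hQ : FrmU (M ／ Q) (SQ VQ S ends) (eQ VQ ends) 0)
    (_hQV : ∀ e ∈ Q, ∀ v ∈ ends e, v ∈ VQ)
    (h : Quo S ends π F S' ends') (hl : ∀ e ∈ S', ∀ P, ends' e ≠ s(P, P))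
    (hsat : ∀ P, prt π P ⊆ VQ ∨ Disjoint (prt π P) VQ)
    (hFQ : ∀ P, prt π P ⊆ VQ → F P ⊆ Q) :
    FrmU (M ／ FO F univ) S' ends' u ∧
    Frm ((M ／ FO F univ) ／ (Q \ FO F univ)) (SQ {P | prt π P ⊆ VQ} S' ends')
      (eQ {P | prt π P ⊆ VQ} ends') :=
  ⟨FrmU.quo hF h fun e he P heP => absurd heP (hl e he P), host_frm_Q hQ h hl hsat hFQ⟩

/-- **Frames of the host**, when the frame is only known away from `VQ`. -/
theorem host_frames' [M.Finite] {Q : Set α} {VQ : Set V} (hF : FrmU M (ins S ends VQᶜ) ends u)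
    (hQE : Q ⊆ M.E) (hQ : FrmU (M ／ Q) (SQ VQ S ends) (eQ VQ ends) 0)
    (h : Quo S ends π F S' ends') (hl : ∀ e ∈ S', ∀ P, ends' e ≠ s(P, P))
    (hsat : ∀ P, prt π P ⊆ VQ ∨ Disjoint (prt π P) VQ)
    (hFQ : ∀ P, prt π P ⊆ VQ → F P ⊆ Q) :
    FrmU (M ／ FO F univ) (ins S' ends' {P | prt π P ⊆ VQ}ᶜ) ends' u ∧
    Frm ((M ／ FO F univ) ／ (Q \ FO F univ)) (SQ {P | prt π P ⊆ VQ} S' ends')
      (eQ {P | prt π P ⊆ VQ} ends') := by
  classical
  have hN := host_frm_Q hQ h hl hsat hFQ
  refine ⟨?_, hN⟩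
  set VQ' : Set V' := {P | prt π P ⊆ VQ} with hVQ'
  have hdj : ∀ P, P ∉ VQ' → Disjoint (prt π P) VQ := fun P hP => (hsat P).resolve_left hP
  set S'' : Set α := ins S' ends' VQ'ᶜ with hS''
  have hout : ∀ e ∈ S'', ∀ v ∈ ends e, v ∉ VQ := by
    intro e he v hv hvQ
    obtain ⟨p, q, P, P', h1, h2, h3, h4⟩ := h.rel e he.1
    rw [h1] at hv
    rcases Sym2.mem_iff.1 hv with rfl | rfl
    · exact Set.disjoint_left.1 (hdj P (he.2 P (by rw [h4]; simp))) h2 hvQ
    · exact Set.disjoint_left.1 (hdj P' (he.2 P' (by rw [h4]; simp))) h3 hvQ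
  have hsub : S'' ⊆ ins S ends VQᶜ := fun e he => ⟨h.sub he.1, hout e he⟩
  have hSQ : S'' ⊆ SQ VQ' S' ends' := by
    intro e he
    obtain ⟨P, hP⟩ := exists_mem_ends ends' e
    exact ⟨he.1, P, hP, he.2 P hP⟩
  have heQ : ∀ e ∈ S'', eQ VQ' ends' e = ends' e := fun e he => eQ_out he.2
  have hFOE : Disjoint S'' (FO F univ) := by
    rw [Set.disjoint_left]
    intro e he he'
    obtain ⟨P, _, he'⟩ := mem_FO.1 he'
    exact Set.disjoint_left.1 (h.dis P) he.1 he'
  refine ⟨fun e he => ⟨hF.sub (hsub he), Set.disjoint_left.1 hFOE he⟩, ?_, ?_⟩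
  · -- star
    intro P e he hPe hcl
    have heN := hN.star P e (hSQ he) (by rw [heQ e he]; exact hPe)
    apply heN
    have hXsub : ins S'' ends' {P}ᶜ ⊆ ins (SQ VQ' S' ends') (eQ VQ' ends') {P}ᶜ := by
      intro x hx
      exact ⟨hSQ hx.1, by rw [heQ x hx.1]; exact hx.2⟩
    have heE : e ∈ ((M ／ FO F univ) ／ (Q \ FO F univ)).E := hN.sub (hSQ he)
    refine Matroid.closure_subset_closure _ hXsub ?_
    rw [Matroid.contract_closure_eq]
    exact ⟨Matroid.closure_subset_closure _ subset_union_left hcl, heE.2⟩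
  · -- rank
    set π₁ : V → Option V' := fun v => if v ∈ VQ then none else π v with hπ₁
    set F₁ : V' → Set α := fun P => if prt π P ⊆ VQ then ∅ else F P with hF₁
    have hπo : ∀ v, v ∉ VQ → π₁ v = π v := fun v hv => if_neg hv
    have hprt : ∀ P, prt π₁ P ⊆ prt π P := by
      intro P v hv
      by_cases hvQ : v ∈ VQ
      · have h1 : π₁ v = some P := hv
        rw [hπ₁] at h1
        simp only [if_pos hvQ] at h1
        exact absurd h1 (by simp)
      · have h1 : π₁ v = some P := hv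
        rw [hπo v hvQ] at h1
        exact h1
    have hquo : Quo (ins S ends VQᶜ) ends π₁ F₁ S'' ends' := by
      refine ⟨fun P => (h.fin P).subset (hprt P), fun P => ?_, hsub, ?_, ?_⟩
      · by_cases hP : prt π P ⊆ VQ
        · refine Or.inl ⟨?_, if_pos hP⟩
          rw [Set.eq_empty_iff_forall_notMem]
          intro v hv
          have h1 : π₁ v = some P := hv
          rw [hπ₁] at h1
          simp only [if_pos (hP (hprt P hv))] at h1
          exact absurd h1 (by simp)
        · have hdP := hdj P hP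
          have e1 : prt π₁ P = prt π P := by
            refine (hprt P).antisymm fun v hv => ?_
            show π₁ v = some P
            rw [hπo v (fun hvQ => Set.disjoint_left.1 hdP hv hvQ)]
            exact hv
          have e2 : F₁ P = F P := if_neg hP
          rw [e1, e2]
          rcases h.tree P with h1 | h1
          · exact Or.inl h1
          · refine Or.inr (arb_congr h1 fun e he => ?_)
            have h2 := h.F_ins he
            exact ⟨⟨h2.1, fun v hv hvQ => Set.disjoint_left.1 hdP (h2.2 v hv) hvQ⟩, rfl⟩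
      · intro e he
        obtain ⟨p, q, P₁, Q₁, g1, g2, g3, g4⟩ := h.rel e he.1
        refine ⟨p, q, P₁, Q₁, g1, ?_, ?_, g4⟩
        · rw [hπo p (hout e he p (by rw [g1]; simp)), g2]
        · rw [hπo q (hout e he q (by rw [g1]; simp)), g3]
      · intro P
        rw [Set.disjoint_left]
        intro e he he'
        by_cases hP : prt π P ⊆ VQ
        · have : F₁ P = ∅ := if_pos hP
          rw [this] at he'
          exact he'
        · have : F₁ P = F P := if_neg hP
          rw [this] at he'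
          exact Set.disjoint_left.1 (h.dis P) he.1 he'
    have h1 := FrmU.quo hF hquo fun e he P heP => absurd heP (hl e he.1 P)
    have hFF : FO F₁ univ ⊆ FO F univ := by
      intro e he
      obtain ⟨P, _, he⟩ := mem_FO.1 he
      by_cases hP : prt π P ⊆ VQ
      · have : F₁ P = ∅ := if_pos hP
        rw [this] at he
        exact absurd he (Set.notMem_empty e)
      · have : F₁ P = F P := if_neg hP
        rw [this] at he
        exact mem_FO.2 ⟨P, mem_univ _, he⟩
    have e1 : M ／ FO F univ = (M ／ FO F₁ univ) ／ (FO F univ \ FO F₁ univ) := by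
      rw [Matroid.contract_contract]
      congr 1
      rw [union_sdiff_cancel hFF]
    intro W hW
    have f1 : (M ／ FO F₁ univ).Finite := BQ.fin_contract _
    rw [e1]
    have h2 : ins S'' ends' W ⊆ (M ／ FO F₁ univ).E \ (FO F univ \ FO F₁ univ) := by
      intro x hx
      exact ⟨h1.sub hx.1, fun hc => Set.disjoint_left.1 hFOE hx.1 hc.1⟩
    have h3 : FO F univ \ FO F₁ univ ⊆ (M ／ FO F₁ univ).E := by
      rintro x ⟨hx, hx'⟩
      refine ⟨?_, hx'⟩
      obtain ⟨P, _, hx⟩ := mem_FO.1 hx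
      by_cases hP : prt π P ⊆ VQ
      · exact hQE (hFQ P hP hx)
      · have h2 := h.F_ins hx
        exact hF.sub ⟨h2.1, fun v hv hvQ => Set.disjoint_left.1 (hdj P hP) (h2.2 v hv) hvQ⟩
    have h4 := BQ.rk_con h3 h2
    have h5 := rk_submod (M := M ／ FO F₁ univ) (ins S'' ends' W) (FO F univ \ FO F₁ univ)
    have h6 := h1.rk W hW
    omega

end

end TST
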