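import Pool.Agent.TST.SGDefs

/-!
# Row LB of the host (T*): labels of the nodes of the columns

The nodes `a i, …, a i + 2 N + m i` of the column `i` have the labels `-N, …, -1, 0, N + 1, …, N + m i,
1, …, N` (or the reverse order with the middle window unchanged).
-/

open Set Relation
open scoped Matroid

namespace TST

open BIC Gad EN BICS Mdl

universe u

variable {α : Type u} {X₀ β σ : Type}

section labels

variable {W : RW X₀ β} {ln : σ → ℕ} {N : ℕ} (T : Strip W (CI ln) N) {Lm : ℕ}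

/-! ### node numbers -/

lemma Strip.idx_range {ι : Type*} (T : Strip W ι N) (i : ι) (b : ℤ) (h1 : -(N : ℤ) ≤ b)
    (h2 : b ≤ N + T.m i) : T.a i ≤ T.idx i b ∧ T.idx i b ≤ T.a i + 2 * N + T.m i := by
  unfold Strip.idx
  split_ifs <;> omega

lemma Strip.idx_inj {ι : Type*} (T : Strip W ι N) (i : ι) {b b' : ℤ} (h1 : -(N : ℤ) ≤ b)
    (h2 : b ≤ N + T.m i) (h1' : -(N : ℤ) ≤ b') (h2' : b' ≤ N + T.m i)
    (h : T.idx i b = T.idx i b') : b = b' := by
  unfold Strip.idx at h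
  by_cases hu : T.up i
  · rw [if_pos hu, if_pos hu] at h
    split_ifs at h <;> omega
  · rw [if_neg hu, if_neg hu] at h
    split_ifs at h <;> omega

lemma Strip.idx_surj {ι : Type*} (T : Strip W ι N) (i : ι) {k : ℕ} (h1 : T.a i ≤ k)
    (h2 : k ≤ T.a i + 2 * N + T.m i) :
    ∃ b : ℤ, -(N : ℤ) ≤ b ∧ b ≤ N + T.m i ∧ T.idx i b = k := by
  unfold Strip.idx
  by_cases hu : T.up i
  · simp only [if_pos hu]
    by_cases c1 : k ≤ T.a i + N
    · refine ⟨(k : ℤ) - T.a i - N, by omega, by omega, ?_⟩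
      rw [if_pos (by omega)]
      omega
    · by_cases c2 : k ≤ T.a i + N + T.m i
      · refine ⟨(k : ℤ) - T.a i, by omega, by omega, ?_⟩
        rw [if_neg (by omega), if_neg (by omega)]
        omega
      · refine ⟨(k : ℤ) - T.a i - N - T.m i, by omega, by omega, ?_⟩
        rw [if_neg (by omega), if_pos (by omega)]
        omega
  · simp only [if_neg hu]
    by_cases c1 : k ≤ T.a i + N
    · refine ⟨T.a i + N - (k : ℤ), by omega, by omega, ?_⟩
      rw [if_neg (by omega), if_pos (by omega)]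
      omega
    · by_cases c2 : k ≤ T.a i + N + T.m i
      · refine ⟨(k : ℤ) - T.a i, by omega, by omega, ?_⟩
        rw [if_neg (by omega), if_neg (by omega)]
        omega
      · refine ⟨T.a i + N + T.m i - (k : ℤ), by omega, by omega, ?_⟩
        rw [if_pos (by omega)]
        omega

/-- different columns of the same row are disjoint -/
lemma Strip.idx_col {ι : Type*} (T : Strip W ι N) {i i' : ι} {b b' : ℤ} (hR : T.R i = T.R i')
    (h1 : -(N : ℤ) ≤ b) (h2 : b ≤ N + T.m i) (h1' : -(N : ℤ) ≤ b') (h2' : b' ≤ N + T.m i')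
    (h : T.idx i b = T.idx i' b') : i = i' ∧ b = b' := by
  by_cases hi : i = i'
  · subst hi
    exact ⟨rfl, T.idx_inj i h1 h2 h1' h2' h⟩
  · exfalso
    have h3 := T.idx_range i b h1 h2
    have h4 := T.idx_range i' b' h1' h2'
    rcases T.dis i i' hi hR with h5 | h5 <;> omega

/-- nodes of a column are inner nodes of the row -/
lemma Strip.nd_col {ι : Type*} (T : Strip W ι N) (i : ι) {k : ℕ} (h1 : T.a i ≤ k)
    (h2 : k ≤ T.a i + 2 * N + T.m i) : W.nd (T.R i) k = Sum.inr (T.R i, k) := by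
  have h3 := T.pos i
  have h4 := T.lt i
  exact W.nd_mid (by omega) (by omega)

/-! ### labels -/

theorem lab_col (i : CI ln) (b : ℤ) (h1 : -(N : ℤ) ≤ b) (h2 : b ≤ N + T.m i) :
    lab T Lm (Sum.inr (T.R i, T.idx i b)) = cv i b := by
  classical
  have h : ∃ q : CI ln × ℤ, T.R q.1 = T.R i ∧ -(N : ℤ) ≤ q.2 ∧ q.2 ≤ N + T.m q.1 ∧
      T.idx q.1 q.2 = T.idx i b := ⟨(i, b), rfl, h1, h2, rfl⟩
  have hl : lab T Lm (Sum.inr (T.R i, T.idx i b)) =
      Sum.inr (h.choose.1.1.1, h.choose.1.1.2, h.choose.2) := by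
    unfold lab
    exact dif_pos h
  obtain ⟨g1, g2, g3, g4⟩ := h.choose_spec
  obtain ⟨g5, g6⟩ := T.idx_col g1 g2 g3 h1 h2 g4
  rw [hl, g5, g6]
  rfl

/-- the label of an inner node -/
lemma lab_or_out (r : β) (p : ℕ) :
    (∃ i : CI ln, ∃ b : ℤ, T.R i = r ∧ -(N : ℤ) ≤ b ∧ b ≤ N + T.m i ∧ T.idx i b = p ∧
      lab T Lm (Sum.inr (r, p)) = cv i b) ∨
    ((∀ i, T.R i = r → p < T.a i ∨ T.a i + 2 * N + T.m i < p) ∧
      lab T Lm (Sum.inr (r, p)) = Sum.inl (Sum.inr (r, Fin.ofNat (Lm + 1) p))) := by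
  classical
  by_cases h : ∃ q : CI ln × ℤ, T.R q.1 = r ∧ -(N : ℤ) ≤ q.2 ∧ q.2 ≤ N + T.m q.1 ∧
      T.idx q.1 q.2 = p
  · left
    obtain ⟨⟨i, b⟩, rfl, h2, h3, rfl⟩ := h
    exact ⟨i, b, rfl, h2, h3, rfl, lab_col T i b h2 h3⟩
  · right
    refine ⟨fun i hi => ?_, ?_⟩
    · by_contra hcon
      obtain ⟨b, hb1, hb2, hb3⟩ := T.idx_surj i (k := p) (by omega) (by omega)
      exact h ⟨(i, b), hi, hb1, hb2, hb3⟩
    · unfold lab
      exact dif_neg h

lemma lab_inl (x : X₀) : lab T Lm (Sum.inl x) = Sum.inl (Sum.inl x) := rfl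

/-- the label of a node of a column -/
lemma lab_nd (i : CI ln) (b : ℤ) (h1 : -(N : ℤ) ≤ b) (h2 : b ≤ N + T.m i) :
    lab T Lm (W.nd (T.R i) (T.idx i b)) = cv i b := by
  have h3 := T.idx_range i b h1 h2
  rw [T.nd_col i h3.1 h3.2]
  exact lab_col T i b h1 h2

theorem lab_inj (hL : ∀ r, 1 ≤ W.len r ∧ W.len r ≤ Lm) {r r' : β} {p p' : ℕ} (hp : p ≤ W.len r)
    (hp' : p' ≤ W.len r') (h : lab T Lm (W.nd r p) = lab T Lm (W.nd r' p')) :
    W.nd r p = W.nd r' p' := by
  -- the nodes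
  have key : ∀ (r : β) (p : ℕ), p ≤ W.len r → (∃ x, W.nd r p = Sum.inl x) ∨
      (W.nd r p = Sum.inr (r, p)) := by
    intro r p hp
    unfold RW.nd
    split_ifs with h1 h2
    · exact Or.inl ⟨_, rfl⟩
    · exact Or.inl ⟨_, rfl⟩
    · exact Or.inr rfl
  rcases key r p hp with ⟨x, hx⟩ | hx <;> rcases key r' p' hp' with ⟨x', hx'⟩ | hx'
  · rw [hx, hx'] at h ⊢
    rw [lab_inl, lab_inl] at h
    rw [Sum.inl.inj (Sum.inl.inj h)]
  · exfalso
    rw [hx, hx', lab_inl] at h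
    rcases lab_or_out T (Lm := Lm) r' p' with ⟨i, b, -, -, -, -, h1⟩ | ⟨-, h1⟩
    · rw [h1] at h
      exact absurd h (by unfold cv; simp)
    · rw [h1] at h
      exact absurd (Sum.inl.inj h) (by simp)
  · exfalso
    rw [hx, hx', lab_inl] at h
    rcases lab_or_out T (Lm := Lm) r p with ⟨i, b, -, -, -, -, h1⟩ | ⟨-, h1⟩
    · rw [h1] at h
      exact absurd h (by unfold cv; simp)
    · rw [h1] at h
      exact absurd (Sum.inl.inj h) (by simp)
  · rw [hx, hx'] at h ⊢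
    rcases lab_or_out T (Lm := Lm) r p with ⟨i, b, h1, h2, h3, h4, h5⟩ | ⟨-, h5⟩ <;>
      rcases lab_or_out T (Lm := Lm) r' p' with ⟨i', b', h1', h2', h3', h4', h5'⟩ | ⟨-, h5'⟩
    · rw [h5, h5'] at h
      unfold cv at h
      have h6 := Sum.inr.inj h
      have h7 : i = i' := by
        apply Subtype.ext
        exact Prod.ext (Prod.ext_iff.1 h6).1 (Prod.ext_iff.1 (Prod.ext_iff.1 h6).2).1
      have h8 : b = b' := (Prod.ext_iff.1 (Prod.ext_iff.1 h6).2).2
      subst h7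
      subst h8
      rw [← h1, ← h1', ← h4, ← h4']
    · rw [h5, h5'] at h
      exact absurd h (by unfold cv; simp)
    · rw [h5, h5'] at h
      exact absurd h (by unfold cv; simp)
    · rw [h5, h5'] at h
      have h6 := Sum.inr.inj (Sum.inl.inj h)
      have h7 : r = r' := (Prod.ext_iff.1 h6).1
      have h8 : (Fin.ofNat (Lm + 1) p : Fin (Lm + 1)) = Fin.ofNat (Lm + 1) p' := (Prod.ext_iff.1 h6).2
      have h9 : p % (Lm + 1) = p' % (Lm + 1) := by
        have := congrArg Fin.val h8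
        simpa [Fin.ofNat] using this
      have h10 := (hL r).2
      have h11 := (hL r').2
      rw [Nat.mod_eq_of_lt (by omega), Nat.mod_eq_of_lt (by omega)] at h9
      rw [h7, h9]

/-- nodes outside of the columns -/
theorem lab_out (r : β) (p : ℕ) (hp : p ≤ W.len r) (hl : 1 ≤ W.len r)
    (h : ∀ i, T.R i = r → p < T.a i ∨ T.a i + 2 * N + T.m i < p) :
    ∃ v, lab T Lm (W.nd r p) = Sum.inl v := by
  rcases Nat.eq_zero_or_pos p with h0 | h0
  · subst h0
    exact ⟨_, by rw [W.nd_zero]; rfl⟩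
  · rcases hp.lt_or_eq with h1 | h1
    · rw [W.nd_mid h0 h1]
      rcases lab_or_out T (Lm := Lm) r p with ⟨i, b, g1, g2, g3, g4, -⟩ | ⟨-, g5⟩
      · exfalso
        have g6 := T.idx_range i b g2 g3
        rcases h i g1 with g7 | g7 <;> omega
      · exact ⟨_, g5⟩
    · subst h1
      exact ⟨_, by rw [W.nd_len hl]; rfl⟩

/-- steps of a column -/
theorem lab_step (i : CI ln) (b : ℤ) (h : (-(N : ℤ) ≤ b ∧ b < -1) ∨ (1 ≤ b ∧ b < N)) :
    ∃ k, T.a i ≤ k ∧ k < T.a i + 2 * N + T.m i ∧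
      s(lab T Lm (W.nd (T.R i) k), lab T Lm (W.nd (T.R i) (k + 1))) = s(cv i b, cv i (b + 1)) := by
  have h1 := T.idx_range i b (by omega) (by omega)
  have h2 := T.idx_range i (b + 1) (by omega) (by omega)
  have h3 : T.idx i (b + 1) = T.idx i b + 1 ∨ T.idx i b = T.idx i (b + 1) + 1 := by
    unfold Strip.idx
    by_cases hu : T.up i
    · simp only [if_pos hu]
      left
      rcases h with h | h
      · rw [if_pos (by omega), if_pos (by omega)]
        omega
      · rw [if_neg (by omega), if_pos (by omega), if_neg (by omega), if_pos (by omega)]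
        omega
    · simp only [if_neg hu]
      right
      rcases h with h | h
      · rw [if_pos (by omega), if_pos (by omega)]
        omega
      · rw [if_neg (by omega), if_pos (by omega), if_neg (by omega), if_pos (by omega)]
        omega
  rcases h3 with h3 | h3
  · refine ⟨T.idx i b, by omega, by omega, ?_⟩
    rw [← h3, lab_nd T i b (by omega) (by omega), lab_nd T i (b + 1) (by omega) (by omega)]
  · refine ⟨T.idx i (b + 1), by omega, by omega, ?_⟩
    rw [← h3, lab_nd T i b (by omega) (by omega), lab_nd T i (b + 1) (by omega) (by omega),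
      Sym2.eq_swap]

/-- all steps of a column: the path `-N, …, -1, middle, 1, …, N` -/
theorem lab_cls (hN : 1 ≤ N) (i : CI ln) (k : ℕ) (h1 : T.a i ≤ k)
    (h2 : k < T.a i + 2 * N + T.m i) : ∃ b b' : ℤ,
      s(lab T Lm (W.nd (T.R i) k), lab T Lm (W.nd (T.R i) (k + 1))) = s(cv i b, cv i b') ∧
      -(N : ℤ) ≤ b ∧ b ≤ N + T.m i ∧ -(N : ℤ) ≤ b' ∧ b' ≤ N + T.m i ∧
      ((b' = b + 1 ∧ (b < -1 ∨ (1 ≤ b ∧ b' ≤ N))) ∨
        ((b = -1 ∨ b = 0 ∨ N < b) ∧ (b' = 0 ∨ N < b' ∨ b' = 1) ∧ ¬ (b = -1 ∧ b' = 1))) := by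
  obtain ⟨b, g1, g2, g3⟩ := T.idx_surj i h1 h2.le
  obtain ⟨b', g1', g2', g3'⟩ := T.idx_surj i (k := k + 1) (by omega) (by omega)
  have hl := lab_nd T (Lm := Lm) i b g1 g2
  have hl' := lab_nd T (Lm := Lm) i b' g1' g2'
  rw [g3] at hl
  rw [g3'] at hl'
  have key : ((b' = b + 1 ∧ (b < -1 ∨ (1 ≤ b ∧ b' ≤ N))) ∨
        ((b = -1 ∨ b = 0 ∨ N < b) ∧ (b' = 0 ∨ N < b' ∨ b' = 1) ∧ ¬ (b = -1 ∧ b' = 1))) ∨
      ((b = b' + 1 ∧ (b' < -1 ∨ (1 ≤ b' ∧ b ≤ N))) ∨
        ((b' = -1 ∨ b' = 0 ∨ N < b') ∧ (b = 0 ∨ N < b ∨ b = 1) ∧ ¬ (b' = -1 ∧ b = 1))) := by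
    unfold Strip.idx at g3 g3'
    by_cases hu : T.up i
    · rw [if_pos hu] at g3 g3'
      split_ifs at g3 g3' <;> omega
    · rw [if_neg hu] at g3 g3'
      split_ifs at g3 g3' <;> omega
  rcases key with key | key
  · exact ⟨b, b', by rw [hl, hl'], g1, g2, g1', g2', key⟩
  · exact ⟨b', b, by rw [hl, hl', Sym2.eq_swap], g1', g2', g1, g2, key⟩

/-- the two outside neighbours of a column -/
theorem lab_end (hs : ∀ i i', i ≠ i' → T.R i = T.R i' →
      T.a i + 2 * N + T.m i + 1 < T.a i' ∨ T.a i' + 2 * N + T.m i' + 1 < T.a i)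
    (i : CI ln) (ε : ℤ) (hε : ε = 1 ∨ ε = -1) : ∃ k v, k < W.len (T.R i) ∧
      (k + 1 = T.a i ∨ k = T.a i + 2 * N + T.m i) ∧
      s(lab T Lm (W.nd (T.R i) k), lab T Lm (W.nd (T.R i) (k + 1))) =
        s(Sum.inl v, cv i (ε * N)) := by
  have hpos := T.pos i
  have hlt := T.lt i
  have hr1 : -(N : ℤ) ≤ ε * N := by
    rcases hε with rfl | rfl <;> omega
  have hr2 : ε * N ≤ N + T.m i := by
    rcases hε with rfl | rfl <;> omega
  have hl := lab_nd T (Lm := Lm) i (ε * N) hr1 hr2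
  have hidx : T.idx i (ε * N) = T.a i ∨ T.idx i (ε * N) = T.a i + 2 * N + T.m i := by
    unfold Strip.idx
    rcases hε with rfl | rfl <;> split_ifs <;> omega
  rcases hidx with hidx | hidx
  · obtain ⟨v, hv⟩ := lab_out T (Lm := Lm) (T.R i) (T.a i - 1) (by omega) (by omega) (by
      intro i' hi'
      by_cases hii : i = i'
      · subst hii
        exact Or.inl (by omega)
      · rcases hs i i' hii hi'.symm with h | h
        · exact Or.inl (by omega)
        · exact Or.inr (by omega))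
    refine ⟨T.a i - 1, v, by omega, Or.inl (by omega), ?_⟩
    rw [hv, show T.a i - 1 + 1 = T.idx i (ε * N) by omega, hl]
  · obtain ⟨v, hv⟩ := lab_out T (Lm := Lm) (T.R i) (T.a i + 2 * N + T.m i + 1) (by omega)
      (by omega) (by
      intro i' hi'
      by_cases hii : i = i'
      · subst hii
        exact Or.inr (by omega)
      · rcases hs i i' hii hi'.symm with h | h
        · exact Or.inl (by omega)
        · exact Or.inr (by omega))
    refine ⟨T.a i + 2 * N + T.m i, v, by omega, Or.inr rfl, ?_⟩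
    rw [hv, ← hidx, hl, Sym2.eq_swap]

/-- node number of the `j`-th node of the middle window -/
lemma Strip.idx_mid {ι : Type*} (T : Strip W ι N) (i : ι) (j : ℕ) (_hj : j ≤ T.m i) :
    T.idx i (if j = 0 then 0 else (N : ℤ) + j) = T.a i + N + j := by
  unfold Strip.idx
  by_cases hu : T.up i
  · rw [if_pos hu]
    by_cases h0 : j = 0
    · rw [if_pos h0, if_pos le_rfl]
      omega
    · rw [if_neg h0, if_neg (by omega), if_neg (by omega)]
      omega
  · rw [if_neg hu]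
    by_cases h0 : j = 0
    · rw [if_pos h0, if_neg (by omega), if_pos (by omega)]
      omega
    · rw [if_neg h0, if_neg (by omega), if_neg (by omega)]
      omega

/-- the middle window is a path -/
theorem lab_mid {S : Set α} {el : β → ℕ → α} {eL : α → Sym2 (HV (OV X₀ β Lm) σ)} (hN : 1 ≤ N)
    (i : CI ln) (hel : ∀ k, T.a i ≤ k → k < T.a i + 2 * N + T.m i → el (T.R i) k ∈ S ∧
      eL (el (T.R i) k) = s(lab T Lm (W.nd (T.R i) k), lab T Lm (W.nd (T.R i) (k + 1)))) :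
    VConn S eL (MidS N i.1.1 i.1.2 (T.m i)) ∧
      Lnk S eL {cv i (-1)} (MidS N i.1.1 i.1.2 (T.m i)) ∧
      Lnk S eL (MidS N i.1.1 i.1.2 (T.m i)) {cv i 1} := by
  classical
  -- labels of the middle window
  have hmid : ∀ j ≤ T.m i, lab T Lm (W.nd (T.R i) (T.a i + N + j)) =
      cv i (if j = 0 then 0 else (N : ℤ) + j) := by
    intro j hj
    have h1 := lab_nd T (Lm := Lm) i (if j = 0 then 0 else (N : ℤ) + j) (by split_ifs <;> omega)
      (by split_ifs <;> omega)
    rw [T.idx_mid i j hj] at h1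
    exact h1
  have hin : ∀ j ≤ T.m i, (cv i (if j = 0 then 0 else (N : ℤ) + j) : HV (OV X₀ β Lm) σ) ∈
      MidS (V := OV X₀ β Lm) N i.1.1 i.1.2 (T.m i) := by
    intro j hj
    refine ⟨_, rfl, ?_⟩
    split_ifs with h
    · exact Or.inl rfl
    · exact Or.inr ⟨by omega, by omega⟩
  have hex : ∀ v ∈ MidS (V := OV X₀ β Lm) N i.1.1 i.1.2 (T.m i), ∃ j ≤ T.m i,
      v = cv i (if j = 0 then 0 else (N : ℤ) + j) := by
    rintro v ⟨b, rfl, hb | ⟨hb1, hb2⟩⟩
    · exact ⟨0, Nat.zero_le _, by rw [if_pos rfl, hb]; rfl⟩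
    · refine ⟨(b - N).toNat, by omega, ?_⟩
      rw [if_neg (by omega), show (N : ℤ) + (b - N).toNat = b by omega]
      rfl
  -- steps
  have hadj : ∀ j < T.m i, GAdj S eL (cv i (if j = 0 then 0 else (N : ℤ) + j))
      (cv i (if j + 1 = 0 then 0 else (N : ℤ) + (j + 1 : ℕ))) := by
    intro j hj
    obtain ⟨h1, h2⟩ := hel (T.a i + N + j) (by omega) (by omega)
    refine ⟨el (T.R i) (T.a i + N + j), h1, ?_⟩
    rw [h2, hmid j (by omega), show T.a i + N + j + 1 = T.a i + N + (j + 1) by omega,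
      hmid (j + 1) (by omega)]
  have hadj' : ∀ j < T.m i, GAdj S eL (cv i (if j + 1 = 0 then 0 else (N : ℤ) + (j + 1 : ℕ)))
      (cv i (if j = 0 then 0 else (N : ℤ) + j)) := by
    intro j hj
    obtain ⟨e, h1, h2⟩ := hadj j hj
    exact ⟨e, h1, by rw [h2, Sym2.eq_swap]⟩
  have hcon : ∀ j ≤ T.m i,
      ReflTransGen (fun x y => GAdj S eL x y ∧ x ∈ MidS (V := OV X₀ β Lm) N i.1.1 i.1.2 (T.m i) ∧
        y ∈ MidS (V := OV X₀ β Lm) N i.1.1 i.1.2 (T.m i))
        (cv i (if (0 : ℕ) = 0 then 0 else (N : ℤ) + (0 : ℕ)))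
        (cv i (if j = 0 then 0 else (N : ℤ) + j)) ∧
      ReflTransGen (fun x y => GAdj S eL x y ∧ x ∈ MidS (V := OV X₀ β Lm) N i.1.1 i.1.2 (T.m i) ∧
        y ∈ MidS (V := OV X₀ β Lm) N i.1.1 i.1.2 (T.m i))
        (cv i (if j = 0 then 0 else (N : ℤ) + j))
        (cv i (if (0 : ℕ) = 0 then 0 else (N : ℤ) + (0 : ℕ))) := by
    intro j
    induction j with
    | zero => exact fun _ => ⟨ReflTransGen.refl, ReflTransGen.refl⟩
    | succ j ih =>
      intro hj
      obtain ⟨h1, h2⟩ := ih (by omega)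
      exact ⟨h1.tail ⟨hadj j (by omega), hin j (by omega), hin (j + 1) hj⟩,
        ReflTransGen.head ⟨hadj' j (by omega), hin (j + 1) hj, hin j (by omega)⟩ h2⟩
  refine ⟨?_, ?_, ?_⟩
  · intro u hu v hv
    obtain ⟨j, hj, rfl⟩ := hex u hu
    obtain ⟨j', hj', rfl⟩ := hex v hv
    exact (hcon j hj).2.trans (hcon j' hj').1
  · by_cases hup : T.up i
    · obtain ⟨h1, h2⟩ := hel (T.a i + N - 1) (by omega) (by omega)
      refine ⟨_, h1, cv i (-1), rfl, cv i (if (0 : ℕ) = 0 then 0 else (N : ℤ) + (0 : ℕ)),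
        hin 0 (Nat.zero_le _), ?_⟩
      have h3 := lab_nd T (Lm := Lm) i (-1) (by omega) (by omega)
      have h4 : T.idx i (-1) = T.a i + N - 1 := by
        unfold Strip.idx
        rw [if_pos hup, if_pos (by omega)]
        omega
      rw [h4] at h3
      rw [h2, h3, show T.a i + N - 1 + 1 = T.a i + N + 0 by omega, hmid 0 (Nat.zero_le _)]
    · obtain ⟨h1, h2⟩ := hel (T.a i + N + T.m i) (by omega) (by omega)
      refine ⟨_, h1, cv i (-1), rfl, _, hin (T.m i) le_rfl, ?_⟩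
      have h3 := lab_nd T (Lm := Lm) i (-1) (by omega) (by omega)
      have h4 : T.idx i (-1) = T.a i + N + T.m i + 1 := by
        unfold Strip.idx
        rw [if_neg hup, if_pos (by omega)]
        omega
      rw [h4] at h3
      rw [h2, h3, hmid (T.m i) le_rfl, Sym2.eq_swap]
  · by_cases hup : T.up i
    · obtain ⟨h1, h2⟩ := hel (T.a i + N + T.m i) (by omega) (by omega)
      refine ⟨_, h1, _, hin (T.m i) le_rfl, cv i 1, rfl, ?_⟩
      have h3 := lab_nd T (Lm := Lm) i 1 (by omega) (by omega)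
      have h4 : T.idx i 1 = T.a i + N + T.m i + 1 := by
        unfold Strip.idx
        rw [if_pos hup, if_neg (by omega), if_pos (by omega)]
        omega
      rw [h4] at h3
      rw [h2, h3, hmid (T.m i) le_rfl]
    · obtain ⟨h1, h2⟩ := hel (T.a i + N - 1) (by omega) (by omega)
      refine ⟨_, h1, cv i (if (0 : ℕ) = 0 then 0 else (N : ℤ) + (0 : ℕ)),
        hin 0 (Nat.zero_le _), cv i 1, rfl, ?_⟩
      have h3 := lab_nd T (Lm := Lm) i 1 (by omega) (by omega)
      have h4 : T.idx i 1 = T.a i + N - 1 := by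
        unfold Strip.idx
        rw [if_neg hup, if_neg (by omega), if_pos (by omega)]
        omega
      rw [h4] at h3
      rw [h2, h3, show T.a i + N - 1 + 1 = T.a i + N + 0 by omega, hmid 0 (Nat.zero_le _),
        Sym2.eq_swap]

end labels

end TST
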