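import Pool.Agent.TST.StripC

/-!
# Nodes between the columns (helper14)

`port_of_cols`: on a row whose kept positions are all on columns, every inner node outside of the
columns is between the last node of one column and the first node of another column.
-/

open Set Relation

namespace TST

variable {X₀ β : Type*} {W : RW X₀ β} {ι : Type*} [Fintype ι] {N : ℕ}

/-- first and last node of a column -/
lemma strip_ends (hN : 1 ≤ N) {C : Cols W ι N} {ex : β → Finset ℕ}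
    {T : Strip (W.shrink (C.K ex)) ι N} (hup : T.up = C.up)
    (hidx : ∀ i, ∀ b < 2 * N + 1, b ≠ N → ∀ p, (C.x i b < p ∧ p ≤ C.x i (b + 1)) ∨
        (C.x i (b + 1) < p ∧ p ≤ C.x i b) → cnt (C.K ex) (C.R i) p = T.idx i (b - N)) (i : ι) :
    cnt (C.K ex) (C.R i) (C.z i 0) + 1 = T.a i ∧
      cnt (C.K ex) (C.R i) (C.z i (2 * N + 1)) = T.a i + 2 * N + T.m i := by
  have hz0 : C.z i 0 ∈ C.K ex (C.R i) := by
    obtain ⟨c, hc, h2⟩ := C.exists_z i (b := 0) (by omega)
    exact (C.mem_K ex).2 (Or.inr ⟨i, rfl, Or.inr ⟨c, hc, h2.symm⟩⟩)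
  have hm0 := C.z_mon i 0 (by omega)
  have hm1 := C.z_mon i (2 * N) (by omega)
  rw [← cnt_succ_of_mem hz0]
  by_cases hu : C.up i
  · have hu' : T.up i := by rw [hup]; exact hu
    rw [C.z_up hu, C.z_up hu] at hm0 hm1
    rw [C.z_up hu, C.z_up hu]
    have h1 := hidx i 0 (by omega) (by omega) (C.x i 0 + 1) (Or.inl ⟨by omega, hm0⟩)
    have h2 := hidx i (2 * N) (by omega) (by omega) (C.x i (2 * N + 1)) (Or.inl ⟨hm1, le_rfl⟩)
    rw [h1, h2]
    unfold Strip.idx
    rw [if_pos hu', if_pos hu', if_pos (by omega), if_neg (by omega), if_pos (by omega)]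
    constructor <;> omega
  · have hu' : ¬ T.up i := by rw [hup]; exact hu
    rw [C.z_dn hu, C.z_dn hu] at hm0 hm1
    rw [C.z_dn hu, C.z_dn hu]
    have e1 : 2 * N + 1 - 0 = 2 * N + 1 := by omega
    have e2 : 2 * N + 1 - (0 + 1) = 2 * N := by omega
    have e3 : 2 * N + 1 - 2 * N = 0 + 1 := by omega
    have e4 : 2 * N + 1 - (2 * N + 1) = 0 := by omega
    rw [e1, e2] at hm0
    rw [e3, e4] at hm1
    rw [e1, e4]
    have h1 := hidx i (2 * N) (by omega) (by omega) (C.x i (2 * N + 1) + 1) (Or.inr ⟨by omega, hm0⟩)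
    have h2 := hidx i 0 (by omega) (by omega) (C.x i 0) (Or.inr ⟨hm1, le_rfl⟩)
    rw [h1, h2]
    unfold Strip.idx
    rw [if_neg hu', if_neg hu', if_neg (by omega), if_pos (by omega), if_pos (by omega)]
    constructor <;> omega

/-- **Ports.** -/
theorem port_of_cols (hN : 1 ≤ N) {C : Cols W ι N} {ex : β → Finset ℕ}
    {T : Strip (W.shrink (C.K ex)) ι N} (hR : T.R = C.R) (hup : T.up = C.up)
    (hidx : ∀ i, ∀ b < 2 * N + 1, b ≠ N → ∀ p, (C.x i b < p ∧ p ≤ C.x i (b + 1)) ∨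
        (C.x i (b + 1) < p ∧ p ≤ C.x i b) → cnt (C.K ex) (C.R i) p = T.idx i (b - N))
    {r : β} (hr : ex r = ∅ ∨ (C.K ex r).card ≤ 1) {k : ℕ} (h0 : 0 < k)
    (hk : k < (W.shrink (C.K ex)).len r)
    (hout : ∀ i, T.R i = r → k < T.a i ∨ T.a i + 2 * N + T.m i < k) :
    (∃ i, T.R i = r ∧ k + 1 = T.a i) ∧ ∃ i, T.R i = r ∧ k = T.a i + 2 * N + T.m i + 1 := by
  have hk' : k < (C.K ex r).card := hk
  have hex : ex r = ∅ := by
    rcases hr with h | h
    · exact h
    · omega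
  have hmem : ∀ x ∈ C.K ex r, ∃ i, C.R i = r ∧ C.z i 0 ≤ x ∧ x ≤ C.z i (2 * N + 1) := by
    intro x hx
    rcases (C.mem_K ex).1 hx with h | ⟨i, hi, h⟩
    · rw [hex] at h
      exact absurd h (Finset.notMem_empty x)
    · exact ⟨i, hi, C.pos_z h⟩
  constructor
  · obtain ⟨y, hy, hyk⟩ := exists_kth (C.K ex) r hk'
    obtain ⟨i, rfl, h1, h2⟩ := hmem y hy
    obtain ⟨e1, e2⟩ := strip_ends hN hup hidx i
    refine ⟨i, by rw [hR], ?_⟩
    have h3 := cnt_mono (C.K ex) (C.R i) h2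
    rcases h1.lt_or_eq with h4 | h4
    · exfalso
      have hz0 : C.z i 0 ∈ C.K ex (C.R i) := by
        obtain ⟨c, hc, h5⟩ := C.exists_z i (b := 0) (by omega)
        exact (C.mem_K ex).2 (Or.inr ⟨i, rfl, Or.inr ⟨c, hc, h5.symm⟩⟩)
      have h5 := cnt_succ_of_mem hz0
      have h6 := cnt_mono (C.K ex) (C.R i) (show C.z i 0 + 1 ≤ y by omega)
      rcases hout i (by rw [hR]) with h7 | h7 <;> omega
    · rw [h4, hyk] at e1
      exact e1
  · obtain ⟨x, hx, hxk⟩ := exists_kth (C.K ex) r (k := k - 1) (by omega)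
    obtain ⟨i, rfl, h1, h2⟩ := hmem x hx
    obtain ⟨e1, e2⟩ := strip_ends hN hup hidx i
    refine ⟨i, by rw [hR], ?_⟩
    have h3 := cnt_mono (C.K ex) (C.R i) h1
    rcases h2.lt_or_eq with h4 | h4
    · exfalso
      have h5 := cnt_succ_of_mem hx
      have h6 := cnt_mono (C.K ex) (C.R i) (show x + 1 ≤ C.z i (2 * N + 1) by omega)
      rcases hout i (by rw [hR]) with h7 | h7 <;> omega
    · rw [← h4, hxk] at e2
      omega

end TST
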