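import Pool.Agent.TST.SGEx
import Pool.Agent.TST.HostFrames
import Pool.Agent.TST.Lab
import Pool.Agent.TST.PortC

/-!
# The graph of the strip exists: `StripS.sg` (row LQ of the host of T-star)
-/

open Set Relation
open scoped Matroid

namespace TST

open BIC Gad EN BICS Mdl

universe u

variable {α : Type u} {X₀ β σ : Type}

section rel

variable {V V' : Type*} {M : Matroid α} {S : Set α} {ends : α → Sym2 V}

lemma eQ_relabel {VQ : Set V} {VQ' : Set V'} {φ : V → V'} {ends' : α → Sym2 V'} {e : α}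
    (he : ends' e = (ends e).map φ) (hφ : ∀ v ∈ ends e, v ∈ VQ ↔ φ v ∈ VQ') :
    eQ VQ' ends' e = (eQ VQ ends e).map φ := by
  classical
  obtain ⟨a, b, hab⟩ : ∃ a b, ends e = s(a, b) := by
    induction h : ends e using Sym2.ind with
    | _ x y => exact ⟨x, y, rfl⟩
  have hea : a ∈ ends e := by rw [hab]; simp
  have heb : b ∈ ends e := by rw [hab]; simp
  have he' : ends' e = s(φ a, φ b) := by rw [he, hab, Sym2.map_mk]
  by_cases ha : a ∈ VQ
  · by_cases hb : b ∈ VQ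
    · have h1 : eQ VQ ends e = ends e := by
        unfold eQ
        rw [dif_neg]
        rintro ⟨v, w, h2, h3, _⟩
        have : v ∈ ends e := by rw [h2]; simp
        rw [hab, Sym2.mem_iff] at this
        rcases this with rfl | rfl
        · exact h3 ha
        · exact h3 hb
      have h1' : eQ VQ' ends' e = ends' e := by
        unfold eQ
        rw [dif_neg]
        rintro ⟨v, w, h2, h3, _⟩
        have : v ∈ ends' e := by rw [h2]; simp
        rw [he', Sym2.mem_iff] at this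
        rcases this with rfl | rfl
        · exact h3 ((hφ a hea).1 ha)
        · exact h3 ((hφ b heb).1 hb)
      rw [h1, h1', he]
    · rw [eQ_loop (v := b) (w := a) (by rw [hab, Sym2.eq_swap]) hb ha,
        eQ_loop (v := φ b) (w := φ a) (by rw [he', Sym2.eq_swap]) (fun h => hb ((hφ b heb).2 h))
          ((hφ a hea).1 ha), Sym2.map_mk]
  · by_cases hb : b ∈ VQ
    · rw [eQ_loop (v := a) (w := b) hab ha hb,
        eQ_loop (v := φ a) (w := φ b) he' (fun h => ha ((hφ a hea).2 h)) ((hφ b heb).1 hb),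
        Sym2.map_mk]
    · rw [eQ_of_notMem, eQ_of_notMem, he]
      · intro v hv
        rw [hab, Sym2.mem_iff] at hv
        rcases hv with rfl | rfl
        · exact ha
        · exact hb
      · intro v hv
        rw [he', Sym2.mem_iff] at hv
        rcases hv with rfl | rfl
        · exact fun h => ha ((hφ a hea).2 h)
        · exact fun h => hb ((hφ b heb).2 h)

lemma SQ_relabel {VQ : Set V} {VQ' : Set V'} {φ : V → V'} {ends' : α → Sym2 V'}
    (he : ∀ e ∈ S, ends' e = (ends e).map φ)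
    (hφ : ∀ e ∈ S, ∀ v ∈ ends e, v ∈ VQ ↔ φ v ∈ VQ') : SQ VQ' S ends' = SQ VQ S ends := by
  ext e
  constructor
  · rintro ⟨heS, v, hv, hvQ⟩
    rw [he e heS, Sym2.mem_map] at hv
    obtain ⟨w, hw, rfl⟩ := hv
    exact ⟨heS, w, hw, fun h => hvQ ((hφ e heS w hw).1 h)⟩
  · rintro ⟨heS, v, hv, hvQ⟩
    refine ⟨heS, φ v, ?_, fun h => hvQ ((hφ e heS v hv).2 h)⟩
    rw [he e heS, Sym2.mem_map]
    exact ⟨v, hv, rfl⟩

end rel

lemma nd_succ_ne {W : RW X₀ β} {r : β} {k : ℕ} (hr : W.hd r ≠ W.tl r) (hk : k < W.len r) :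
    W.nd r k ≠ W.nd r (k + 1) := by
  intro h
  rcases Nat.eq_zero_or_pos k with rfl | h0
  · rw [W.nd_zero] at h
    rcases (Nat.succ_le_of_lt hk).lt_or_eq with h1 | h1
    · rw [W.nd_mid (by omega) h1] at h
      exact absurd h (by simp)
    · have h2 : (0 : ℕ) + 1 = W.len r := h1
      rw [h2, W.nd_len (by omega)] at h
      exact hr (Sum.inl.inj h)
  · rw [W.nd_mid h0 hk] at h
    have := nd_inner h
    omega

/-- **The graph of the strip.** -/
theorem StripS.sg [Finite β] {M : Matroid α} [M.Finite] {W : RW X₀ β} {S : Set α}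
    {ends : α → Sym2 (Nd X₀ β)} {el : β → ℕ → α} {BQ : Set β} {Q : Set α} {u : ℕ} {ln : σ → ℕ}
    [Fintype (CI ln)] {N : ℕ} {C : Cols W (CI ln) N} {ex : β → Finset ℕ} {Lost : Set β}
    {Ed : CI ln → CI ln → Prop} {Rg : Set α}
    (h : StripS M W S ends el BQ Q u ln N C ex Lost Ed Rg) :
    ∃ (T : Strip (W.shrink (C.K ex)) (CI ln) N) (Lm : ℕ) (eL : α → Sym2 (HV (OV X₀ β Lm) σ)),
      T.R = C.R ∧ T.up = C.up ∧ (∀ i, T.m i = (C.y i).card) ∧
      (∀ e i j b, Joins C ends i j b e → -(N : ℤ) ≤ b → b ≤ N → b ≠ 0 →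
        eL e = s(cv i b, cv j b)) ∧
      (∀ i (b : ℤ), (-(N : ℤ) ≤ b ∧ b < -1) ∨ (1 ≤ b ∧ b < N) →
        eL (el (C.R i) (C.x i (b + N + 1).toNat)) = s(cv i b, cv i (b + 1))) ∧
      (∀ i, ∀ p ∈ C.y i, ∀ v ∈ eL (el (C.R i) p), v ∈ MidS (N : ℤ) i.1.1 i.1.2 (T.m i)) ∧
      (∀ i p, (C.x i 0 < p ∧ p < C.x i (2 * N + 1)) ∨ (C.x i (2 * N + 1) < p ∧ p < C.x i 0) →
        el (C.R i) p ∈ cel W (C.K ex) el ∪ ColE (W.shrink (C.K ex)) (els (C.K ex) el) T i) ∧
      (∀ i (b : ℤ) p, -(N : ℤ) ≤ b → b ≤ N → b ≠ 0 → C.Win i b p →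
        cnt (C.K ex) (C.R i) p = T.idx i b) ∧
      (∀ i, cnt (C.K ex) (C.R i) (C.z i 0) + 1 = T.a i ∧
        cnt (C.K ex) (C.R i) (C.z i (2 * N + 1)) = T.a i + 2 * N + T.m i) ∧
      (∀ B : Set β, Disjoint B Lost → (M ／ Q).Indep (rowE W el B) →
        ((M ／ cel W (C.K ex) el) ／ (Q \ cel W (C.K ex) el)).Indep
          (rowE (W.shrink (C.K ex)) (els (C.K ex) el) B)) ∧
      SG (M ／ cel W (C.K ex) el) (W.shrink (C.K ex)) (els (C.K ex) el) T Lm
        (kel (C.K ex) el ∪ Rg) eL (Q \ cel W (C.K ex) el) BQ u Ed Rg := by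
  classical
  set K := C.K ex with hKdef
  obtain ⟨T, hTR, hTup, hTs, hTm, hTw, hTmid⟩ := strip_of_cols' C ex h.exs
  have hlen := h.bf.row.pos
  have hmemK : ∀ r p, p ∈ K r ↔ p ∈ ex r ∨ ∃ i, C.R i = r ∧
      ((∃ b < 2 * N + 2, C.x i b = p) ∨ p ∈ C.y i) := by
    intro r p
    rw [hKdef]
    unfold Cols.K
    simp only [Finset.mem_union, Finset.mem_biUnion, Finset.mem_filter, Finset.mem_univ, true_and,
      Finset.mem_image, Finset.mem_range]
  have hK : ∀ r, ∀ x ∈ K r, x < W.len r := by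
    intro r x hx
    rcases (hmemK r x).1 hx with h1 | ⟨i, rfl, ⟨b, hb, rfl⟩ | h1⟩
    · exact (h.exs r x h1).1
    · exact C.lt i b (by omega)
    · have h2 := C.yin i x h1
      have h3 := C.lt i N (by omega)
      have h4 := C.lt i (N + 1) (by omega)
      omega
  have hcolK : ∀ i, ∀ b ≤ 2 * N + 1, C.x i b ∈ K (C.R i) := fun i b hb =>
    (hmemK _ _).2 (Or.inr ⟨i, rfl, Or.inl ⟨b, by omega, rfl⟩⟩)
  have hKQ : KQ W K BQ Lost := by
    refine ⟨hlen, hK, fun r => ?_, fun r hr => ?_, fun r hr => (h.good r hr).2⟩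
    · by_cases hr : r ∈ Lost
      · exact ⟨0, (hmemK r 0).2 (Or.inl (h.lost r hr).1)⟩
      · rcases (h.good r hr).1 with ⟨_, i, rfl⟩ | ⟨h1, _⟩
        · exact ⟨_, hcolK i 0 (by omega)⟩
        · exact ⟨0, (hmemK r 0).2 (Or.inl (by rw [h1]; simp))⟩
    · exact ⟨(hmemK r _).2 (Or.inl (h.lost r hr).1), (hmemK r _).2 (Or.inl (h.lost r hr).2)⟩
  -- rungs in the quotient
  have hwin : ∀ i b p, C.Win i b p → -(N : ℤ) ≤ b → b ≤ N → b ≠ 0 → p < W.len (C.R i) ∧
      spi W K (W.nd (C.R i) p) = some (Sum.inr (C.R i, T.idx i b)) ∧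
      0 < T.idx i b ∧ T.idx i b < (K (C.R i)).card := by
    intro i b p hp h1 h2 h3
    have hb1 : (b + N + 1).toNat = (b + N).toNat + 1 := by omega
    have hlt1 := C.lt i (b + N).toNat (by omega)
    have hlt2 := C.lt i (b + N + 1).toNat (by omega)
    have hpl : p < W.len (C.R i) := by
      rcases hp with hp | hp <;> omega
    have hc := hTw i (b + N).toNat (by omega) (by omega) p (by
      rw [← hb1]
      exact hp)
    have hbb : (((b + N).toNat : ℕ) : ℤ) - N = b := by omega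
    rw [hbb] at hc
    -- kept positions on both sides
    have hx0 : ∃ x ∈ K (C.R i), x < p := by
      rcases hp with hp | hp
      · exact ⟨_, hcolK i _ (by omega), hp.1⟩
      · exact ⟨_, hcolK i _ (by omega), hp.1⟩
    have hx1 : ∃ x ∈ K (C.R i), p ≤ x := by
      rcases hp with hp | hp
      · exact ⟨_, hcolK i _ (by omega), hp.2⟩
      · exact ⟨_, hcolK i _ (by omega), hp.2⟩
    have h5 : 0 < cnt K (C.R i) p := by
      obtain ⟨x, hx, hxp⟩ := hx0
      exact Finset.card_pos.2 ⟨x, Finset.mem_filter.2 ⟨hx, hxp⟩⟩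
    have h6 : cnt K (C.R i) p < (K (C.R i)).card := by
      obtain ⟨x, hx, hxp⟩ := hx1
      refine Finset.card_lt_card ((Finset.ssubset_iff_of_subset (Finset.filter_subset _ _)).2
        ⟨x, hx, fun h7 => ?_⟩)
      have := (Finset.mem_filter.1 h7).2
      omega
    rw [hc] at h5 h6
    refine ⟨hpl, ?_, h5, h6⟩
    rw [spi_nd hK hKQ.ne hpl.le, hc, RW.nd_mid _ h5 h6]
  have hidx : ∀ i j b, Sum.inr (C.R i, T.idx i b) = (Sum.inr (C.R j, T.idx j b) : Nd X₀ β) →
      -(N : ℤ) ≤ b → b ≤ N → i = j := by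
    intro i j b hij h1 h2
    have h3 := Sum.inr.inj hij
    have h4 : C.R i = C.R j := (Prod.mk.inj h3).1
    have h5 : T.idx i b = T.idx j b := (Prod.mk.inj h3).2
    have h6 := lab_col T (Lm := 0) i b h1 (by omega)
    have h7 := lab_col T (Lm := 0) j b h1 (by omega)
    rw [hTR, h4, h5] at h6
    rw [hTR] at h7
    rw [h6] at h7
    unfold cv at h7
    have h8 := Sum.inr.inj h7
    exact Subtype.ext (Prod.ext (Prod.mk.inj h8).1 (Prod.mk.inj (Prod.mk.inj h8).2).1)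
  have hjoin : ∀ e i j b, Joins C ends i j b e → -(N : ℤ) ≤ b → b ≤ N → b ≠ 0 →
      ∃ p q, ends e = s(p, q) ∧ spi W K p = some (Sum.inr (C.R i, T.idx i b)) ∧
        spi W K q = some (Sum.inr (C.R j, T.idx j b)) := by
    rintro e i j b ⟨p, p', h1, h2, h3⟩ h4 h5 h6
    exact ⟨_, _, h3, (hwin i b p h1 h4 h5 h6).2.1, (hwin j b p' h2 h4 h5 h6).2.1⟩
  have hRgS : Rg ⊆ S := fun e he => (h.rg e he).1
  have hRgT : ∀ e ∈ Rg, ∃ p q P Q, ends e = s(p, q) ∧ spi W K p = some P ∧ spi W K q = some Q ∧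
      P ≠ Q := by
    intro e he
    obtain ⟨_, i, j, b, h1, h2, h3, h4, h5⟩ := h.rg e he
    obtain ⟨p, q, g1, g2, g3⟩ := hjoin e i j b h5 h2 h3 h4
    exact ⟨p, q, _, _, g1, g2, g3, fun h6 => h.ed i j h1 (hidx i j b h6 h2 h3)⟩
  obtain ⟨F, hF1, hquo, hrow⟩ := shrink h.bf.row hK hKQ.ne hRgS hRgT
  have hFO : FO F univ = cel W K el := cel_eq h.bf.row hK hKQ.ne hF1 hquo.tree
  -- no loops
  have hnl : ∀ e ∈ kel K el ∪ Rg, ∀ P, ens W K ends e ≠ s(P, P) := by
    rintro e (⟨r, x, hx, rfl⟩ | he) P hP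
    · have h1 : cnt K r x < (W.shrink K).len r := cnt_lt hx
      have h2 := hrow.ends r (cnt K r x) h1
      have h3 : els K el r (cnt K r x) = el r x := by
        unfold els
        rw [kth_cnt hx]
      rw [h3, hP] at h2
      have h4 : (W.shrink K).nd r (cnt K r x) = (W.shrink K).nd r (cnt K r x + 1) := by
        rcases Sym2.eq_iff.1 h2 with ⟨h5, h6⟩ | ⟨h5, h6⟩
        · rw [← h5, ← h6]
        · rw [← h5, ← h6]
      exact nd_succ_ne (W := W.shrink K) (h.bf.hdtl r) h1 h4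
    · obtain ⟨p, q, P', Q', h1, h2, h3, h4⟩ := hRgT e he
      unfold ens at hP
      rw [h1, Sym2.map_mk] at hP
      unfold spg at hP
      rw [h2, h3] at hP
      simp only [Option.getD_some] at hP
      rcases Sym2.eq_iff.1 hP with ⟨h5, h6⟩ | ⟨h5, h6⟩
      · exact h4 (h5.trans h6.symm)
      · exact h4 (h5.trans h6.symm)
  obtain ⟨Lm, hLm⟩ : ∃ Lm, ∀ r, (K r).card ≤ Lm := by
    obtain ⟨b, hb⟩ := (Set.finite_range fun r => (K r).card).bddAbove
    exact ⟨b, fun r => hb ⟨r, rfl⟩⟩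
  have hlenL : ∀ r, 1 ≤ (W.shrink K).len r ∧ (W.shrink K).len r ≤ Lm := fun r =>
    ⟨Finset.card_pos.2 (hKQ.ne r), hLm r⟩
  -- nodes
  have hnode : ∀ e ∈ kel K el ∪ Rg, ∀ v ∈ ens W K ends e, (∃ r k, k ≤ (W.shrink K).len r ∧
      (W.shrink K).nd r k = v) ∧ (prt (spi W K) v).Nonempty := by
    intro e he v hv
    obtain ⟨p, q, P, Q, h1, h2, h3, h4⟩ := hquo.rel e he
    have heS := hquo.sub he
    have key : ∀ p ∈ ends e, ∀ P, spi W K p = some P → (∃ r k, k ≤ (W.shrink K).len r ∧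
        (W.shrink K).nd r k = P) ∧ (prt (spi W K) P).Nonempty := by
      intro p hp P hP
      refine ⟨?_, p, hP⟩
      obtain ⟨r, t, ht, rfl⟩ := h.bf.node e heS p hp
      rw [spi_nd hK hKQ.ne ht] at hP
      exact ⟨r, cnt K r t, cnt_le, Option.some.inj hP⟩
    rw [h4, Sym2.mem_iff] at hv
    rcases hv with rfl | rfl
    · exact key p (by rw [h1]; simp) _ h2
    · exact key q (by rw [h1]; simp) _ h3
  have hinj : ∀ v w, (∃ r k, k ≤ (W.shrink K).len r ∧ (W.shrink K).nd r k = v) →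
      (∃ r k, k ≤ (W.shrink K).len r ∧ (W.shrink K).nd r k = w) →
      lab T Lm v = lab T Lm w → v = w := by
    rintro v w ⟨r, k, hk, rfl⟩ ⟨r', k', hk', rfl⟩ hvw
    exact lab_inj T hlenL hk hk' hvw
  have hφ : ∀ e ∈ kel K el ∪ Rg, ∀ v ∈ ens W K ends e,
      v ∈ {P | prt (spi W K) P ⊆ rowV W BQ} ↔ lab T Lm v ∈ rowL T Lm BQ := by
    intro e he v hv
    obtain ⟨h1, h2⟩ := hnode e he v hv
    have h3 := hKQ.part_iff h2
    constructor
    · intro h4
      exact ⟨v, h3.1 h4, rfl⟩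
    · rintro ⟨w, ⟨r, hr, k, hk, rfl⟩, hw⟩
      have h4 := hinj _ _ ⟨r, k, hk, rfl⟩ h1 hw
      exact h3.2 (h4 ▸ ⟨r, hr, k, hk, rfl⟩)
  obtain ⟨hA, hB⟩ := host_frames' h.bf.frm h.bf.Q_sub h.bf.frmQ hquo hnl hKQ.disj
    (fun P hP e he => h.bf.Q_row (hKQ.cel_Q h.bf.row hP (hF1 P he) (hquo.F_ins he).2))
  rw [hFO] at hA hB
  have hfin1 : (M ／ cel W K el).Finite := ⟨M.ground_finite.subset sdiff_subset⟩
  have hfin2 : ((M ／ cel W K el) ／ (Q \ cel W K el)).Finite :=
    ⟨hfin1.ground_finite.subset sdiff_subset⟩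
  have hcelS : cel W K el ⊆ S := by
    rintro e ⟨r, p, hp, _, rfl⟩
    exact h.bf.row.mem r p hp
  have hcelQ : cel W K el \ Q = cel W K el \ rowE W el BQ := by
    ext e
    constructor
    · rintro ⟨h1, h2⟩
      exact ⟨h1, fun h3 => h2 (h.bf.Q_row h3)⟩
    · rintro ⟨h1, h2⟩
      exact ⟨h1, fun h3 => h2 (h.bf.Q_S ⟨h3, hcelS h1⟩)⟩
  set eL : α → Sym2 (HV (OV X₀ β Lm) σ) := fun e => (ens W K ends e).map (lab T Lm) with heL
  have hcvn : ∀ i (b : ℤ), -(N : ℤ) ≤ b → b ≤ N + T.m i →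
      lab T Lm (Sum.inr (C.R i, T.idx i b)) = cv i b := by
    intro i b h1 h2
    rw [← hTR]
    exact lab_col T i b h1 h2
  have hjL : ∀ e i j b, Joins C ends i j b e → -(N : ℤ) ≤ b → b ≤ N → b ≠ 0 →
      eL e = s(cv i b, cv j b) := by
    intro e i j b h1 h2 h3 h4
    obtain ⟨p, q, g1, g2, g3⟩ := hjoin e i j b h1 h2 h3 h4
    rw [heL]
    change (ens W K ends e).map (lab T Lm) = _
    unfold ens
    rw [g1, Sym2.map_mk, Sym2.map_mk]
    unfold spg
    rw [g2, g3]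
    simp only [Option.getD_some]
    rw [hcvn i b h2 (by omega), hcvn j b h2 (by omega)]
  have heL2 : ∀ r p, p < W.len r → p ∈ K r → eL (el r p) =
      s(lab T Lm ((W.shrink K).nd r (cnt K r p)), lab T Lm ((W.shrink K).nd r (cnt K r p + 1))) := by
    intro r p hp hpK
    have h2 := hrow.ends r (cnt K r p) (cnt_lt hpK)
    have h3 : els K el r (cnt K r p) = el r p := by
      unfold els
      rw [kth_cnt hpK]
    rw [h3] at h2
    change (ens W K ends (el r p)).map (lab T Lm) = _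
    rw [h2, Sym2.map_mk]
  have hwinL : ∀ i b p, C.Win i b p → -(N : ℤ) ≤ b → b ≤ N → b ≠ 0 →
      lab T Lm ((W.shrink K).nd (C.R i) (cnt K (C.R i) p)) = cv i b := by
    intro i b p hp h1 h2 h3
    obtain ⟨h4, h5, h6, h7⟩ := hwin i b p hp h1 h2 h3
    rw [spi_nd hK hKQ.ne h4.le] at h5
    rw [Option.some.inj h5]
    exact hcvn i b h1 (by omega)
  have hmidL : ∀ i p, ((C.x i N < p ∧ p ≤ C.x i (N + 1)) ∨ (C.x i (N + 1) < p ∧ p ≤ C.x i N)) →
      lab T Lm ((W.shrink K).nd (C.R i) (cnt K (C.R i) p)) ∈ MidS (N : ℤ) i.1.1 i.1.2 (T.m i) := by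
    intro i p hp
    obtain ⟨b, hb, hcb⟩ := hTmid i p hp
    have hx0 : ∃ x ∈ K (C.R i), x < p := by
      rcases hp with hp | hp
      · exact ⟨_, hcolK i _ (by omega), hp.1⟩
      · exact ⟨_, hcolK i _ (by omega), hp.1⟩
    have hx1 : ∃ x ∈ K (C.R i), p ≤ x := by
      rcases hp with hp | hp
      · exact ⟨_, hcolK i _ (by omega), hp.2⟩
      · exact ⟨_, hcolK i _ (by omega), hp.2⟩
    have h5 : 0 < cnt K (C.R i) p := by
      obtain ⟨x, hx, hxp⟩ := hx0
      exact Finset.card_pos.2 ⟨x, Finset.mem_filter.2 ⟨hx, hxp⟩⟩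
    have h6 : cnt K (C.R i) p < (K (C.R i)).card := by
      obtain ⟨x, hx, hxp⟩ := hx1
      refine Finset.card_lt_card ((Finset.ssubset_iff_of_subset (Finset.filter_subset _ _)).2
        ⟨x, hx, fun h7 => ?_⟩)
      have := (Finset.mem_filter.1 h7).2
      omega
    rw [RW.nd_mid _ h5 (by exact h6), hcb, hcvn i b (by omega) (by omega)]
    exact ⟨b, rfl, hb⟩
  -- nodes of the columns
  have hnodeC : ∀ i p, ((C.x i 0 < p ∧ p ≤ C.x i (2 * N + 1)) ∨
      (C.x i (2 * N + 1) < p ∧ p ≤ C.x i 0)) → T.a i ≤ cnt K (C.R i) p ∧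
        cnt K (C.R i) p ≤ T.a i + 2 * N + T.m i := by
    intro i p hp
    have hex : ∃ b < 2 * N + 1, (C.x i b < p ∧ p ≤ C.x i (b + 1)) ∨
        (C.x i (b + 1) < p ∧ p ≤ C.x i b) := by
      rcases hp with hp | hp
      · have h1 : ∃ b, p ≤ C.x i b := ⟨_, hp.2⟩
        have h2 := Nat.find_spec h1
        have h3 : Nat.find h1 ≤ 2 * N + 1 := Nat.find_min' h1 hp.2
        have h4 : Nat.find h1 ≠ 0 := by
          intro h5
          rw [h5] at h2
          omega
        have h5 := Nat.find_min h1 (m := Nat.find h1 - 1) (by omega)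
        refine ⟨Nat.find h1 - 1, by omega, Or.inl ⟨by omega, ?_⟩⟩
        rw [Nat.sub_add_cancel (by omega)]
        exact h2
      · have h1 : ∃ b, C.x i b < p := ⟨_, hp.1⟩
        have h2 := Nat.find_spec h1
        have h3 : Nat.find h1 ≤ 2 * N + 1 := Nat.find_min' h1 hp.1
        have h4 : Nat.find h1 ≠ 0 := by
          intro h5
          rw [h5] at h2
          omega
        have h5 := Nat.find_min h1 (m := Nat.find h1 - 1) (by omega)
        refine ⟨Nat.find h1 - 1, by omega, Or.inr ⟨?_, by omega⟩⟩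
        rw [Nat.sub_add_cancel (by omega)]
        exact h2
    obtain ⟨b, hb, hbp⟩ := hex
    by_cases hbN : b = N
    · subst hbN
      obtain ⟨b', hb', hc⟩ := hTmid i p hbp
      rw [hc]
      exact T.idx_range i b' (by omega) (by omega)
    · rw [hTw i b hb hbN p hbp]
      exact T.idx_range i _ (by omega) (by omega)
  refine ⟨T, Lm, eL, hTR, hTup, hTm, hjL, ?_, ?_, ?_, ?_,
    fun i => strip_ends h.N1 hTup hTw i, ?_, ?_⟩
  · intro i b hb
    have hb1 : (b + N + 1).toNat = (b + N).toNat + 1 := by omega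
    have hb2 : (b + 1 + N).toNat = (b + N).toNat + 1 := by omega
    have hb3 : (b + 1 + N + 1).toNat = (b + N).toNat + 2 := by omega
    have hxK : C.x i (b + N + 1).toNat ∈ K (C.R i) := hcolK i _ (by omega)
    have hxl : C.x i (b + N + 1).toNat < W.len (C.R i) := C.lt i _ (by omega)
    have hmon : (C.x i (b + N).toNat < C.x i ((b + N).toNat + 1) ∧
        C.x i ((b + N).toNat + 1) < C.x i ((b + N).toNat + 2)) ∨
        (C.x i ((b + N).toNat + 1) < C.x i (b + N).toNat ∧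
        C.x i ((b + N).toNat + 2) < C.x i ((b + N).toNat + 1)) := by
      rcases C.mon i with ⟨_, hm⟩ | ⟨_, hm⟩
      · exact Or.inl ⟨hm _ (by omega), hm _ (by omega)⟩
      · exact Or.inr ⟨hm _ (by omega), hm _ (by omega)⟩
    have hsu := cnt_succ_of_mem hxK
    rw [heL2 _ _ hxl hxK, ← hsu, hb1]
    rcases hmon with ⟨m1, m2⟩ | ⟨m1, m2⟩
    · rw [hwinL i b _ (Or.inl (by rw [hb1]; omega)) (by omega) (by omega) (by omega),
        hwinL i (b + 1) (C.x i ((b + N).toNat + 1) + 1) (Or.inl (by rw [hb2, hb3]; omega))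
          (by omega) (by omega) (by omega)]
    · rw [hwinL i b (C.x i ((b + N).toNat + 1) + 1) (Or.inr (by rw [hb1]; omega)) (by omega)
          (by omega) (by omega),
        hwinL i (b + 1) (C.x i ((b + N).toNat + 1)) (Or.inr (by rw [hb2, hb3]; omega)) (by omega)
          (by omega) (by omega), Sym2.eq_swap]
  · intro i p hp v hv
    have hpK : p ∈ K (C.R i) := (hmemK _ _).2 (Or.inr ⟨i, rfl, Or.inr hp⟩)
    have hpl := hK _ _ hpK
    have h2 := C.yin i p hp
    rw [heL2 _ _ hpl hpK, ← cnt_succ_of_mem hpK, Sym2.mem_iff] at hv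
    rcases hv with rfl | rfl
    · exact hmidL i p (by omega)
    · exact hmidL i (p + 1) (by omega)
  · intro i p hp
    have hlt0 := C.lt i 0 (by omega)
    have hlt1 := C.lt i (2 * N + 1) le_rfl
    have hpl : p < W.len (C.R i) := by omega
    by_cases hpK : p ∈ K (C.R i)
    · right
      have h1 := hnodeC i p (by omega)
      have h2 := hnodeC i (p + 1) (by omega)
      rw [cnt_succ_of_mem hpK] at h2
      refine ⟨cnt K (C.R i) p, h1.1, by omega, ?_⟩
      rw [hTR]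
      unfold els
      rw [kth_cnt hpK]
    · exact Or.inl ⟨_, p, hpl, hpK, rfl⟩
  · intro i b p h1 h2 h3 h4
    have hb1 : (b + N + 1).toNat = (b + N).toNat + 1 := by omega
    have hc := hTw i (b + N).toNat (by omega) (by omega) p (by
      rw [← hb1]
      exact h4)
    have hbb : (((b + N).toNat : ℕ) : ℤ) - N = b := by omega
    rw [hbb] at hc
    exact hc
  · intro B hB' hI
    have h1 := hKQ.indep h.bf.row h.bf.frmQ hB' hI
    have e1 : (M ／ cel W K el) ／ (Q \ cel W K el) =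
        (M ／ Q) ／ (cel W K el \ rowE W el BQ) := by
      rw [← hcelQ, Matroid.contract_contract, Matroid.contract_contract]
      congr 1
      ext x
      simp only [mem_union, mem_sdiff]
      tauto
    rw [e1]
    have h2 : (M ／ Q).Indep (cel W K el \ rowE W el BQ) :=
      h1.subset subset_union_right
    rw [h2.contract_indep_iff]
    have h3 : rowE (W.shrink K) (els K el) B ⊆ rowE W el B := by
      rintro e ⟨r, hr, k, hk, rfl⟩
      exact ⟨r, hr, _, hK r _ (kth_mem hk), rfl⟩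
    refine ⟨?_, h1.subset (union_subset_union_left _ h3)⟩
    rw [Set.disjoint_left]
    rintro e ⟨r, hr, k, hk, rfl⟩ ⟨⟨r', p, hp, hpK, h4⟩, _⟩
    unfold els at h4
    obtain ⟨rfl, rfl⟩ := h.bf.row.inj r' p r _ hp (hK r _ (kth_mem hk)) h4
    exact hpK (kth_mem hk)
  · have hset : SfQ T Lm BQ (kel K el ∪ Rg) eL = {e | e ∈ kel K el ∪ Rg ∧
        ∀ v ∈ ens W K ends e, v ∉ {P | prt (spi W K) P ⊆ rowV W BQ}} := by
      ext e
      constructor
      · rintro ⟨he, h1⟩
        refine ⟨he, fun v hv hvQ => h1 (lab T Lm v) ?_ ((hφ e he v hv).1 hvQ)⟩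
        change lab T Lm v ∈ (ens W K ends e).map (lab T Lm)
        exact Sym2.mem_map.2 ⟨v, hv, rfl⟩
      · rintro ⟨he, h1⟩
        refine ⟨he, fun v hv hvQ => ?_⟩
        change v ∈ (ens W K ends e).map (lab T Lm) at hv
        obtain ⟨w, hw, rfl⟩ := Sym2.mem_map.1 hv
        exact h1 w hw ((hφ e he w hw).2 hvQ)
    refine ⟨h.N1, hTs, hlenL, h.bf.hdtl, ?_, ?_, ?_, ?_, ?_, ?_, ?_, ?_, h.ed, ?_, ?_, ?_⟩
    · intro e he
      refine ⟨h.bf.sub (hquo.sub he), ?_⟩
      rintro ⟨r, p, hp, hpK, rfl⟩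
      rcases he with ⟨r', x, hx, he⟩ | he
      · obtain ⟨rfl, rfl⟩ := h.bf.row.inj r' x r p (hK _ _ hx) hp he
        exact hpK hx
      · obtain ⟨p₁, q₁, P, Q', g1, g2, g3, g4⟩ := hRgT _ he
        have h5 : spi W K (W.nd r p) = spi W K (W.nd r (p + 1)) := by
          rw [spi_nd hK hKQ.ne hp.le, spi_nd hK hKQ.ne hp, cnt_succ_of_notMem hpK]
        rw [h.bf.row.ends r p hp] at g1
        rcases Sym2.eq_iff.1 g1 with ⟨g5, g6⟩ | ⟨g5, g6⟩
        · rw [← g5] at g2
          rw [← g6] at g3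
          rw [g2, g3] at h5
          exact g4 (Option.some.inj h5)
        · rw [← g6] at g2
          rw [← g5] at g3
          rw [g2, g3] at h5
          exact g4 (Option.some.inj h5).symm
    · rw [hset]
      refine TST.FrmU.relabel hA (φ := lab T Lm) (fun e _ => rfl) ?_
      rintro v w ⟨e, he, hv⟩ ⟨e', he', hw⟩ hvw
      exact hinj v w (hnode e he.1 v hv).1 (hnode e' he'.1 w hw).1 hvw
    · have e2 := SQ_relabel (S := kel K el ∪ Rg) (ends := ens W K ends) (ends' := eL)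
        (fun e _ => rfl) hφ
      rw [e2]
      apply frm_of_zero
      refine TST.FrmU.relabel hB.frmU (φ := lab T Lm) (fun e he => ?_) ?_
      · exact eQ_relabel rfl (fun v hv => hφ e he.1 v hv)
      · rintro v w ⟨e, he, hv⟩ ⟨e', he', hw⟩ hvw
        exact hinj v w (hnode e he.1 v (mem_eQ hv)).1 (hnode e' he'.1 w (mem_eQ hw)).1 hvw
    · rintro e ⟨he, he2⟩
      exact ⟨h.bf.Q_sub he, he2⟩
    · rintro e ⟨⟨heQ, he2⟩, heS⟩
      obtain ⟨r, hr, p, hp, rfl⟩ := h.bf.Q_S ⟨heQ, hquo.sub heS⟩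
      by_cases hpK : p ∈ K r
      · refine ⟨r, hr, cnt K r p, cnt_lt hpK, ?_⟩
        unfold els
        rw [kth_cnt hpK]
      · exact absurd ⟨r, p, hp, hpK, rfl⟩ he2
    · intro r k hk
      refine ⟨Or.inl ⟨r, _, kth_mem hk, rfl⟩, ?_⟩
      change (ens W K ends (els K el r k)).map (lab T Lm) = _
      rw [hrow.ends r k hk, Sym2.map_mk]
    · exact hrow.inj
    · intro i
      rw [hTR]
      exact h.colQ i
    · intro e he
      obtain ⟨_, i, j, b, h1, h2, h3, h4, h5⟩ := h.rg e he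
      exact ⟨Or.inr he, i, j, b, h1, h2, h3, h4, hjL e i j b h5 h2 h3 h4⟩
    · intro i j hij b h1 h2 h3
      obtain ⟨e, he, h4⟩ := h.rg_ex i j hij b h1 h2 h3
      exact ⟨e, he, hjL e i j b h4 h1 h2 h3⟩
    · rintro e (⟨r, x, hx, rfl⟩ | he)
      · right
        refine ⟨r, cnt K r x, cnt_lt hx, ?_⟩
        unfold els
        rw [kth_cnt hx]
      · exact Or.inl he

end TST
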