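import Pool.Agent.TST.HubHX
import Pool.Agent.TST.ColsU
import Pool.Agent.TST.SGMain

/-!
# T-star: the strip of a choice of labels (common part of the rows of `HostOfBase`)

`Base.bf`: the base frame.  `Base.strip`: columns from labels in `P`, the strip situation and the
conflicts of the middle tile `3 f N + 1`.
-/

set_option autoImplicit false

open Set BIC BICS CWL
open scoped Matroid

namespace TSH

universe u

open Mdl Mdj EN Gad TST EN.Wall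

open Classical in
/-- the extra positions: on the lost rows the ends and the positions `q i' t` far from all columns,
the first position of the other rows without column -/
noncomputable def exB {X₀ β ι : Type*} (W : RW X₀ β) (Lost : Set β) (m nT t : ℕ) (R : ℕ → β)
    (q : ℕ → ℕ → ℕ) (lbl : ι → ℕ) (r : β) : Finset ℕ :=
  if r ∈ Lost then {0, W.len r - 1} ∪ ((Finset.range m).filter fun i' => R i' = r ∧
    ∀ i, R (lbl i) = r → ¬ RamP.Near nT (q i') (q (lbl i))).image fun i' => q i' t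
  else if ∃ i, R (lbl i) = r then ∅ else {0}

lemma mem_exB {X₀ β ι : Type*} {W : RW X₀ β} {Lost : Set β} {m nT t : ℕ} {R : ℕ → β}
    {q : ℕ → ℕ → ℕ} {lbl : ι → ℕ} {r : β} {p : ℕ} :
    p ∈ exB W Lost m nT t R q lbl r ↔ (r ∈ Lost ∧ (p = 0 ∨ p = W.len r - 1 ∨ ∃ i' < m, R i' = r ∧
      (∀ i, R (lbl i) = r → ¬ RamP.Near nT (q i') (q (lbl i))) ∧ p = q i' t)) ∨
      (r ∉ Lost ∧ (∀ i, R (lbl i) ≠ r) ∧ p = 0) := by
  classical
  unfold exB
  by_cases h1 : r ∈ Lost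
  · rw [if_pos h1, Finset.mem_union, Finset.mem_insert, Finset.mem_singleton, Finset.mem_image]
    constructor
    · rintro ((h2 | h2) | ⟨i', h2, h3⟩)
      · exact Or.inl ⟨h1, Or.inl h2⟩
      · exact Or.inl ⟨h1, Or.inr (Or.inl h2)⟩
      · obtain ⟨h4, h5, h6⟩ := Finset.mem_filter.1 h2
        exact Or.inl ⟨h1, Or.inr (Or.inr ⟨i', Finset.mem_range.1 h4, h5, h6, h3.symm⟩)⟩
    · rintro (⟨-, h2 | h2 | ⟨i', h3, h4, h5, h6⟩⟩ | ⟨h2, -⟩)
      · exact Or.inl (Or.inl h2)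
      · exact Or.inl (Or.inr h2)
      · exact Or.inr ⟨i', Finset.mem_filter.2 ⟨Finset.mem_range.2 h3, h4, h5⟩, h6.symm⟩
      · exact absurd h1 h2
  · rw [if_neg h1]
    by_cases h2 : ∃ i, R (lbl i) = r
    · rw [if_pos h2]
      obtain ⟨i, hi⟩ := h2
      constructor
      · intro h3
        simp at h3
      · rintro (⟨h3, -⟩ | ⟨-, h3, -⟩)
        · exact absurd h3 h1
        · exact absurd hi (h3 i)
    · rw [if_neg h2, Finset.mem_singleton]
      constructor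
      · exact fun h3 => Or.inr ⟨h1, fun i hi => h2 ⟨i, hi⟩, h3⟩
      · rintro (⟨h3, -⟩ | ⟨-, -, h3⟩)
        · exact absurd h3 h1
        · exact h3

section

variable {α : Type u} {M : Matroid α} {w s : ℕ} {𝒯 : Finset (ℕ × ℕ)}
    {L₁ L₂ : Bool × ℕ × ℕ → List α} {f₁ : α → Sym2 ((ℕ × ℕ) ⊕ α)} {e₁ e₂ : Bool × ℕ × ℕ → α}
    {f₂ : α → Sym2 ((ℕ × ℕ) ⊕ α)} {u₁ u₂ u η nT : ℕ} {F : ℕ → ℕ} {a n : ℕ} {el : SegR n → ℕ → α}
    {S Q : Set α}
    {ends : α → Sym2 (Nd (WV n) (SegR n))} {BQ Bd : Finset (SegR n)} {τ : ℕ → ℕ × ℕ} {m : ℕ}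
    {R : ℕ → SegR n} {q : ℕ → ℕ → ℕ} {G : ℕ → ℕ → Prop} {P : Finset ℕ}

/-- The base frame. -/
theorem Base.bf (hg : GSide M (Seg w) L₁ f₁ e₁ u₁)
    (h : Base M w s 𝒯 L₁ L₂ e₂ u η nT F a n el S Q ends BQ Bd τ m R q G P) :
    BF M (inW L₁ a n) S ends el (BQ : Set (SegR n)) Q u where
  row := h.row
  hdtl := fun r hr => by
    have h1 := seg_adj r
    have h2 : segHd r = segTl r := hr
    rw [h2] at h1
    exact h1.ne rfl
  sub := (h.locB hg).SE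
  frm := h.frm
  frmQ := h.frmQ
  Q_sub := h.Q_sub
  Q_row := h.Q_row
  Q_S := h.Q_S
  node := h.node

/-- **The strip of a choice of labels.** -/
theorem Base.strip (hg : GSide M (Seg w) L₁ f₁ e₁ u₁)
    (h : Base M w s 𝒯 L₁ L₂ e₂ u η nT F a n el S Q ends BQ Bd τ m R q G P)
    {σ : Type} {ln : σ → ℕ} [Fintype (CI ln)] {N : ℕ} (hN : 1 ≤ N) {f : ℕ → ℕ}
    (hf : ∀ a b, a < b → b ≤ 2 * N → f a < f b) (hf0 : 1 ≤ f 0) (hfn : 3 * f (2 * N) + 5 < nT)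
    (lbl : CI ln → ℕ) (hl : ∀ i, lbl i ∈ P) (hinj : Function.Injective lbl)
    (Lost : Set (SegR n)) (hLost : ∀ r ∉ Lost,
      (∀ i' < m, R i' = r → ∃ i, R (lbl i) = r ∧ RamP.Near nT (q i') (q (lbl i))) ∧
      (inW L₁ a n).nd r 0 ∉ rowV (inW L₁ a n) BQ ∧
      (inW L₁ a n).nd r ((inW L₁ a n).len r) ∉ rowV (inW L₁ a n) BQ) :
    ∃ (C : Cols (inW L₁ a n) (CI ln) N) (ex : SegR n → Finset ℕ), (∀ i, C.R i = R (lbl i)) ∧
      (∀ i, ∀ b ≤ 2 * N, C.x i b = q (lbl i) (3 * f b)) ∧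
      (∀ i, C.x i (2 * N + 1) = q (lbl i) (3 * f (2 * N) + 3)) ∧
      (∀ i p, p ∈ C.y i ↔ ∃ i' < m, R i' = R (lbl i) ∧ RamP.Near nT (q i') (q (lbl i)) ∧
        p = q i' (3 * f N + 1)) ∧
      (∀ i j, (G (lbl i) (lbl j) ∨ G (lbl j) (lbl i)) → ∀ b : ℤ, -(N : ℤ) ≤ b → b ≤ N →
        ∃ e ∈ S, Rung L₁ a n el e ∧ ∃ p p',
          Btw (q (lbl i) (3 * f (b + N).toNat + 1)) (q (lbl i) (3 * f (b + N).toNat + 2)) p ∧
          Btw (q (lbl j) (3 * f (b + N).toNat + 1)) (q (lbl j) (3 * f (b + N).toNat + 2)) p' ∧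
          C.Win i b p ∧ C.Win j b p' ∧
          ends e = s((inW L₁ a n).nd (C.R i) p, (inW L₁ a n).nd (C.R j) p')) ∧
      (∀ (Ed : CI ln → CI ln → Prop) (Rg : Set α), (∀ i j, Ed i j → i ≠ j) →
        (∀ e ∈ Rg, e ∈ S ∧ ∃ i j b, Ed i j ∧ -(N : ℤ) ≤ b ∧ b ≤ N ∧ b ≠ 0 ∧
          Joins C ends i j b e) →
        (∀ i j, Ed i j → ∀ b : ℤ, -(N : ℤ) ≤ b → b ≤ N → b ≠ 0 → ∃ e ∈ Rg,
          Joins C ends i j b e) →
        StripS M (inW L₁ a n) S ends el BQ Q u ln N C ex Lost Ed Rg) ∧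
      ∀ r p, p < (inW L₁ a n).len r →
        el r p ∈ crr L₂ (shS (τ (3 * f N + 1)).1 (τ (3 * f N + 1)).2 '' Seg s) →
        p ∈ C.K ex r ∧ (r ∉ Lost → ∃ i, C.R i = r ∧ p ∈ C.y i) ∧
        ∀ i, C.R i = r → C.z i 0 ≤ p → p ≤ C.z i (2 * N + 1) → p ∈ C.y i := by
  classical
  have hPm : ∀ i, lbl i < m := fun i => (h.P_lt _ (hl i)).1
  have hfN : f N ≤ f (2 * N) := (hf N (2 * N) (by omega) le_rfl).le
  obtain ⟨C, cR, cx, cx1, cin, cy, cfar, cwin⟩ := cols_of_units (W := inW L₁ a n) h.units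
    (fun i hi b hb => h.lab i hi b hb) hf hf0 hfn lbl hPm
    (fun i j hij hR => h.P_sep _ (hl i) _ (hl j) (fun he => hij (hinj he)) hR)
  obtain ⟨ex, hex⟩ : ∃ ex, ex = exB (inW L₁ a n) Lost m nT (3 * f N + 1) R q lbl := ⟨_, rfl⟩
  have hexs : ∀ r, ∀ p ∈ ex r, p < (inW L₁ a n).len r ∧ ∀ i, C.R i = r →
      (∀ b ≤ 2 * N + 1, p < C.x i b) ∨ (∀ b ≤ 2 * N + 1, C.x i b < p) := by
    intro r p hp
    have hpos := h.row.pos r
    rw [hex, mem_exB] at hp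
    have key0 : ∀ i, C.R i = r → ∀ b ≤ 2 * N + 1, 0 < C.x i b := fun i _ b hb => (cin i b hb).1
    have key1 : ∀ i, C.R i = r → ∀ b ≤ 2 * N + 1, C.x i b < (inW L₁ a n).len r - 1 := by
      rintro i rfl b hb
      have := (cin i b hb).2
      rw [cR]
      omega
    rcases hp with ⟨_, rfl | rfl | ⟨i', h5, rfl, h7, rfl⟩⟩ | ⟨_, _, rfl⟩
    · exact ⟨hpos, fun i hi => Or.inl (key0 i hi)⟩
    · exact ⟨by omega, fun i hi => Or.inr (key1 i hi)⟩
    · refine ⟨h.lab i' h5 _ (by omega), fun i hi => ?_⟩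
      rw [cR] at hi
      exact cfar i' h5 i hi.symm (h7 i hi) _ (by omega)
    · exact ⟨hpos, fun i hi => Or.inl (key0 i hi)⟩
  refine ⟨C, ex, cR, cx, cx1, cy, ?_, ?_, ?_⟩
  · intro i j hG b hb1 hb2
    have hc : (b + N).toNat ≤ 2 * N := by omega
    have hfc : f (b + N).toNat ≤ f (2 * N) := by
      rcases hc.lt_or_eq with h1 | h1
      · exact (hf _ _ h1 le_rfl).le
      · rw [h1]
    obtain ⟨c, hcd⟩ : ∃ c, c = f (b + N).toNat := ⟨_, rfl⟩
    rw [← hcd] at hfc ⊢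
    have key : ∀ i j, G (lbl i) (lbl j) → ∃ p p', Btw (q (lbl i) (3 * c + 1)) (q (lbl i) (3 * c + 2)) p ∧
        Btw (q (lbl j) (3 * c + 1)) (q (lbl j) (3 * c + 2)) p' ∧
        Hon L₁ a n el S ends (R (lbl i), p) (R (lbl j), p') := fun i j hij =>
      (h.units.hon _ (hPm i) _ (hPm j) (3 * c + 1) (3 * c + 2) (by omega) (by omega)).1 hij
    rcases hG with hG | hG
    · obtain ⟨p, p', h1, h2, h3, h4, h5, h6, e, h7, h8, h9⟩ := key i j hG
      refine ⟨e, h7, h8, p, p', h1, h2, cwin i b p hb1 hb2 (by rw [← hcd]; exact h1),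
        cwin j b p' hb1 hb2 (by rw [← hcd]; exact h2), ?_⟩
      rw [cR, cR]
      exact h9
    · obtain ⟨p, p', h1, h2, h3, h4, h5, h6, e, h7, h8, h9⟩ := key j i hG
      refine ⟨e, h7, h8, p', p, h2, h1, cwin i b p' hb1 hb2 (by rw [← hcd]; exact h2),
        cwin j b p hb1 hb2 (by rw [← hcd]; exact h1), ?_⟩
      rw [cR, cR, Sym2.eq_swap]
      exact h9
  · intro Ed Rg hEd hRg hRx
    refine ⟨h.bf hg, hN, hexs, ?_, ?_, ?_, hEd, hRg, hRx⟩
    · intro r hr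
      rw [hex, mem_exB, mem_exB]
      exact ⟨Or.inl ⟨hr, Or.inl rfl⟩, Or.inl ⟨hr, Or.inr (Or.inl rfl)⟩⟩
    · intro r hr
      refine ⟨?_, (hLost r hr).2⟩
      rw [hex]
      unfold exB
      rw [if_neg hr]
      by_cases h1 : ∃ i, R (lbl i) = r
      · left
        rw [if_pos h1]
        obtain ⟨i, hi⟩ := h1
        exact ⟨rfl, i, (cR i).trans hi⟩
      · right
        rw [if_neg h1]
        exact ⟨rfl, fun i hi => h1 ⟨i, (cR i).symm.trans hi⟩⟩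
    · intro i
      rw [cR]
      exact_mod_cast (h.P_lt _ (hl i)).2
  · intro r p hp hc
    have ht : 3 * f N + 1 < nT := by omega
    obtain ⟨i', hi', rfl, rfl⟩ := h.all _ ht r p hp hc
    have hnear : ∀ i, R i' = R (lbl i) → RamP.Near nT (q i') (q (lbl i)) →
        q i' (3 * f N + 1) ∈ C.y i := fun i h1 h2 => (cy i _).2 ⟨i', hi', h1, h2, rfl⟩
    refine ⟨?_, ?_, ?_⟩
    · rw [C.mem_K]
      by_cases h1 : ∃ i, R (lbl i) = R i' ∧ RamP.Near nT (q i') (q (lbl i))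
      · obtain ⟨i, h2, h3⟩ := h1
        exact Or.inr ⟨i, (cR i).trans h2, Or.inl (hnear i h2.symm h3)⟩
      · left
        have h2 : R i' ∈ Lost := by
          by_contra hcon
          exact h1 ((hLost _ hcon).1 i' hi' rfl)
        rw [hex, mem_exB]
        exact Or.inl ⟨h2, Or.inr (Or.inr ⟨i', hi', rfl, fun i hi hn => h1 ⟨i, hi, hn⟩, rfl⟩)⟩
    · intro hr
      obtain ⟨i, h2, h3⟩ := (hLost _ hr).1 i' hi' rfl
      exact ⟨i, (cR i).trans h2, hnear i h2.symm h3⟩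
    · intro i hi h1 h2
      rw [cR] at hi
      by_cases h3 : RamP.Near nT (q i') (q (lbl i))
      · exact hnear i hi.symm h3
      · exfalso
        obtain ⟨b, hb, h4⟩ := C.exists_z i (b := 2 * N + 1) le_rfl
        obtain ⟨c, hc', h5⟩ := C.exists_z i (b := 0) (by omega)
        rcases cfar i' hi' i hi.symm h3 _ ht with h6 | h6
        · have := h6 c hc'
          omega
        · have := h6 b hb
          omega

/-- a list element of the row -/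
lemma Base.el_mem (h : Base M w s 𝒯 L₁ L₂ e₂ u η nT F a n el S Q ends BQ Bd τ m R q G P)
    (r : SegR n) {p : ℕ} (hp : p < (inW L₁ a n).len r) : el r p ∈ L₁ (shS a a r.1) := by
  rw [h.el_eq r p hp]
  exact List.getElem_mem _

section tile

variable {σ : Type} {ln : σ → ℕ} [Fintype (CI ln)] {N : ℕ} {C : Cols (inW L₁ a n) (CI ln) N}
  {ex : SegR n → Finset ℕ} {Lost : Set (SegR n)} {Rg : Set α}
  {T : Strip ((inW L₁ a n).shrink (C.K ex)) (CI ln) N} {Lm : ℕ}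
  {eL : α → Sym2 (HV (OV (WV n) (SegR n) Lm) σ)} {B : Set α}

/-- The contracted elements are no conflicts of the middle tile. -/
lemma tile_cel (hconf : ∀ r p, p < (inW L₁ a n).len r → el r p ∈ B →
      p ∈ C.K ex r ∧ (r ∉ Lost → ∃ i, C.R i = r ∧ p ∈ C.y i) ∧
        ∀ i, C.R i = r → C.z i 0 ≤ p → p ≤ C.z i (2 * N + 1) → p ∈ C.y i) :
    Disjoint B (cel (inW L₁ a n) (C.K ex) el) := by
  rw [Set.disjoint_left]
  rintro e he ⟨r, p, hp, hpK, rfl⟩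
  exact hpK (hconf r p hp he).1

/-- The cheap elements are no conflicts of the middle tile. -/
lemma tile_sh (hK : ∀ r, ∀ p ∈ C.K ex r, p < (inW L₁ a n).len r)
    (hconf : ∀ r p, p < (inW L₁ a n).len r → el r p ∈ B →
      p ∈ C.K ex r ∧ (r ∉ Lost → ∃ i, C.R i = r ∧ p ∈ C.y i) ∧
        ∀ i, C.R i = r → C.z i 0 ≤ p → p ≤ C.z i (2 * N + 1) → p ∈ C.y i)
    (hTR : T.R = C.R)
    (hMid : ∀ i, ∀ p ∈ C.y i, ∀ v ∈ eL (el (C.R i) p), v ∈ MidS (N : ℤ) i.1.1 i.1.2 (T.m i))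
    (hcnt : ∀ i, cnt (C.K ex) (C.R i) (C.z i 0) + 1 = T.a i ∧
      cnt (C.K ex) (C.R i) (C.z i (2 * N + 1)) = T.a i + 2 * N + T.m i)
    (hRg : ∀ e ∈ Rg, e ∉ B) :
    Disjoint B (Sh ((inW L₁ a n).shrink (C.K ex)) (els (C.K ex) el) T Lost Rg eL) := by
  rw [Set.disjoint_left]
  rintro e he ⟨hS, hv⟩
  have key : ∀ i p, p ∈ C.y i → e = el (C.R i) p → False := by
    intro i p hp h1
    have h2 := hMid i p hp
    rw [← h1] at h2
    obtain ⟨v, hvv⟩ : ∃ v, v ∈ eL e := by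
      induction eL e using Sym2.ind with
      | _ x y => exact ⟨x, by simp⟩
    exact hv v hvv i (h2 v hvv)
  rcases hS with (⟨r, k, hk, hr, h3⟩ | ⟨i, k, g1, g2, h3⟩) | h3
  · have hk' : k < (C.K ex r).card := hk
    have h4 : el r (kth (C.K ex) r k) = e := h3
    obtain ⟨i, h5, h6⟩ := (hconf r _ (hK r _ (kth_mem hk')) (by rw [h4]; exact he)).2.1 hr
    exact key i _ h6 (by rw [h5, h4])
  · have hlt := T.lt i
    rw [hTR] at h3
    have hk' : k < (C.K ex (C.R i)).card := by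
      have h4 : ((inW L₁ a n).shrink (C.K ex)).len (T.R i) = (C.K ex (T.R i)).card := rfl
      rw [h4, hTR] at hlt
      omega
    have h4 : el (C.R i) (kth (C.K ex) (C.R i) k) = e := h3
    obtain ⟨c1, c2⟩ := hcnt i
    have h5 := cnt_kth hk'
    have h6 : C.z i 0 ≤ kth (C.K ex) (C.R i) k := by
      by_contra hcon
      push Not at hcon
      have := cnt_mono (C.K ex) (C.R i) hcon.le
      omega
    have h7 : kth (C.K ex) (C.R i) k ≤ C.z i (2 * N + 1) := by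
      by_contra hcon
      push Not at hcon
      have := cnt_mono (C.K ex) (C.R i) hcon.le
      omega
    exact key i _ ((hconf _ _ (hK _ _ (kth_mem hk')) (by rw [h4]; exact he)).2.2 i rfl h6 h7)
      h4.symm
  · exact hRg e h3 he

/-- The anchors of the tiles are outside of the graph without the rows `BQ`. -/
lemma Base.tile_anchor (h : Base M w s 𝒯 L₁ L₂ e₂ u η nT F a n el S Q ends BQ Bd τ m R q G P)
    (hK : ∀ r, ∀ p ∈ C.K ex r, p < (inW L₁ a n).len r)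
    {Q' : Set α} {Ed : CI ln → CI ln → Prop} {M' : Matroid α}
    (hSG : SG M' ((inW L₁ a n).shrink (C.K ex)) (els (C.K ex) el) T Lm (kel (C.K ex) el ∪ Rg) eL Q'
      BQ u Ed Rg) {b : ℕ} (hb : b < nT)
    (hRg : ∀ e ∈ Rg, e ∉ crr L₂ (shS (τ b).1 (τ b).2 '' Seg s))
    (hg₂ : GSide M✶ (shS (τ b).1 (τ b).2 '' Seg s) L₂ f₂ e₂ u₂) :
    Disjoint (SfQ T Lm BQ (kel (C.K ex) el ∪ Rg) eL) (e₂ '' (shS (τ b).1 (τ b).2 '' Seg s)) := by
  rw [Set.disjoint_left]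
  rintro e ⟨he, hv⟩ ⟨_, ⟨σ', hσ, rfl⟩, h1⟩
  rcases he with ⟨r, p, hp, h2⟩ | he
  · by_cases hr : r ∈ BQ
    · have hk : cnt (C.K ex) r p < (C.K ex r).card := cnt_lt hp
      have h3 := (hSG.row r (cnt (C.K ex) r p) hk).2
      have h4 : els (C.K ex) el r (cnt (C.K ex) r p) = e := by
        unfold els
        rw [kth_cnt hp, h2]
      rw [h4] at h3
      refine hv (TST.lab T Lm (((inW L₁ a n).shrink (C.K ex)).nd r (cnt (C.K ex) r p))) ?_ ?_
      · rw [h3]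
        simp
      · exact ⟨_, ⟨r, hr, _, hk.le, rfl⟩, rfl⟩
    · exact h.anchor b hb σ' hσ r hr p (hK r p hp) (h2.trans h1.symm)
  · refine hRg e he ⟨shS (τ b).1 (τ b).2 σ', ⟨σ', hσ, rfl⟩, ?_⟩
    rw [← h1]
    exact hg₂.mem_last ⟨σ', hσ, rfl⟩

end tile

end

end TSH
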