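import Pool.Agent.TST.Bricks

/-!
# The family of bricks (row B7 of T-star, helper14)

One brick in every block, with different first vertices of all rows; so every set of rows of the
bricks has at least as many ends as rows.
-/

open Set Relation
open scoped Matroid

namespace TST

open BIC Gad EN BICS Mdl Mdj Mdu

variable {β : Type}

/-- **The family of bricks.** -/
theorem brick_family {L h : ℕ} (hL : 4 ≤ L) {W : RW (EN.Wall.WV (L * h)) β}
    (hedge : ∀ a b, (EN.Wall.Wl (L * h)).Adj a b → ∃ r, (W.hd r = a ∧ W.tl r = b) ∨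
      (W.hd r = b ∧ W.tl r = a)) :
    ∃ (Br : EN.Wall.WV h → Finset β) (st : β → EN.Wall.WV (L * h)),
      (∀ y, ∀ r ∈ Br y, EN.Wall.blk L h (W.hd r) = y ∧ EN.Wall.blk L h (W.tl r) = y) ∧
      (∀ y, {x | ∃ r ∈ Br y, W.hd r = x ∨ W.tl r = x}.ncard ≤ (Br y).card) ∧
      (∀ y, (Br y).Nonempty) ∧ (∀ y, ∀ r ∈ Br y, W.hd r ≠ W.tl r) ∧
      (∀ y, ∀ r ∈ Br y, st r = W.hd r ∨ st r = W.tl r) ∧ InjOn st {r | ∃ y, r ∈ Br y} ∧
      ∀ A : Finset β, (∀ r ∈ A, ∃ y, r ∈ Br y) →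
        A.card ≤ {x | ∃ r ∈ A, W.hd r = x ∨ W.tl r = x}.ncard := by
  classical
  choose c ρ k1 k2 k3 k4 k5 using fun y => exists_bricks (W := W) hL hedge y
  set Br : EN.Wall.WV h → Finset β := fun y => Finset.univ.image (ρ y) with hBr
  have hall := fun y => brick_rows (k1 y) (k2 y) (k3 y) (k5 y)
  have hmemB : ∀ {r y}, r ∈ Br y ↔ ∃ i, ρ y i = r := by
    intro r y
    rw [hBr]
    simp
  have hblk : ∀ y i, EN.Wall.blk L h (W.hd (ρ y i)) = y := fun y i =>
    ((hall y).1 _ (hmemB.2 ⟨i, rfl⟩)).1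
  have hst0 : ∀ r : β, ∃ x : EN.Wall.WV (L * h), ∀ y i, ρ y i = r → x = c y i := by
    intro r
    by_cases hr : ∃ y i, ρ y i = r
    · obtain ⟨y, i, rfl⟩ := hr
      refine ⟨c y i, fun y' i' he => ?_⟩
      have h3 : y = y' := by rw [← hblk y i, ← hblk y' i', he]
      subst h3
      rw [k2 y he]
    · exact ⟨W.hd r, fun y i he => absurd ⟨y, i, he⟩ hr⟩
  choose st hst using hst0
  have hstc : ∀ y i, st (ρ y i) = c y i := fun y i => hst _ y i rfl
  have hends : ∀ y, ∀ r ∈ Br y, st r = W.hd r ∨ st r = W.tl r := by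
    intro y r hr
    obtain ⟨i, rfl⟩ := hmemB.1 hr
    rw [hstc]
    rcases k5 y i with ⟨g, _⟩ | ⟨_, g⟩
    · exact Or.inl g.symm
    · exact Or.inr g.symm
  have hinj : InjOn st {r | ∃ y, r ∈ Br y} := by
    rintro r ⟨y, hr⟩ r' ⟨y', hr'⟩ he
    obtain ⟨i, rfl⟩ := hmemB.1 hr
    obtain ⟨i', rfl⟩ := hmemB.1 hr'
    rw [hstc, hstc] at he
    have h3 : y = y' := by rw [← k3 y i, ← k3 y' i', he]
    subst h3
    rw [k1 y he]
  refine ⟨Br, st, fun y => (hall y).1, fun y => (hall y).2.1, fun y => (hall y).2.2.1,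
    fun y => (hall y).2.2.2, hends, hinj, ?_⟩
  intro A hA
  rw [← ncard_coe_finset]
  refine ncard_le_ncard_of_injOn st ?_ (hinj.mono fun r hr => hA r hr) ?_
  · intro r hr
    obtain ⟨y, hy⟩ := hA r hr
    rcases hends y r hy with h1 | h1
    · exact ⟨r, hr, Or.inl h1.symm⟩
    · exact ⟨r, hr, Or.inr h1.symm⟩
  · refine (((Finset.finite_toSet A).image W.hd).union ((Finset.finite_toSet A).image W.tl)).subset ?_
    rintro x ⟨r, hr, hx | hx⟩
    · exact Or.inl ⟨r, hr, hx⟩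
    · exact Or.inr ⟨r, hr, hx⟩

end TST
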