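import Pool.Agent.TST.WallSG

/-!
# Independent bricks over the contracted rows (row B7 of T-star, helper14)

The rows of all bricks and a set of elements with representatives in the contracted part are
independent, so all bricks but `u` are independent after the contraction.
-/

open Set Relation
open scoped Matroid

namespace TST

open BIC Gad EN BICS Mdl Mdj Mdu

universe u

variable {α : Type u} {X₀ β : Type}

/-- **Disjoint sets which are independent over `F₀` are independent over `A ⊇ F₀`, up to the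
difference of the ranks.** -/
theorem bricks_over {M : Matroid α} [M.Finite] {A F₀ : Set α} {u : ℕ} (hA : A ⊆ M.E) (h0 : F₀ ⊆ A)
    (hr : rk M A ≤ F₀.ncard + u) {Y : Type*} [DecidableEq Y] (I : Finset Y) (X : Y → Set α)
    (hd : ∀ y ∈ I, ∀ z ∈ I, y ≠ z → Disjoint (X y) (X z)) (hXA : ∀ y ∈ I, Disjoint (X y) A)
    (hX : M.Indep (F₀ ∪ ⋃ y ∈ I, X y)) :
    ∃ J ⊆ I, (I \ J).card ≤ u ∧ (M ／ A).Indep (⋃ y ∈ J, X y) := by
  classical
  set U : Set α := ⋃ y ∈ I, X y with hU
  have hUE : U ⊆ M.E \ A := by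
    intro e he
    obtain ⟨y, hy, hey⟩ := mem_iUnion₂.1 he
    exact ⟨hX.subset_ground (Or.inr he), Set.disjoint_left.1 (hXA y hy) hey⟩
  have hUf : U.Finite := M.ground_finite.subset (hUE.trans sdiff_subset)
  have hF0U : Disjoint F₀ U := by
    rw [Set.disjoint_left]
    intro e he he'
    exact (hUE he').2 (h0 he)
  have hF0f : F₀.Finite := M.ground_finite.subset (h0.trans hA)
  obtain ⟨B, hB⟩ := (M ／ A).exists_isBasis U hUE
  have hBU : B ⊆ U := hB.subset
  have h1 : rk (M ／ A) U = B.ncard := by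
    have := hB.eRk_eq_eRk
    rw [← cast_rk, ← cast_rk] at this
    have h8 : rk (M ／ A) B = rk (M ／ A) U := by exact_mod_cast this
    rw [← h8, rk_indep hB.indep]
  have h2 := BICS.rk_contract_set (M := M) hA hUE
  have h3 : U.ncard + F₀.ncard ≤ rk M (U ∪ A) := by
    rw [Nat.add_comm, ← ncard_union_eq hF0U hF0f hUf, ← rk_indep hX]
    exact rk_mono M (by
      rintro e (he | he)
      · exact Or.inr (h0 he)
      · exact Or.inl he)
  have h4 : (U \ B).ncard ≤ u := by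
    have := ncard_sdiff_add_ncard_of_subset hBU hUf
    omega
  refine ⟨I.filter fun y => X y ⊆ B, Finset.filter_subset _ _, ?_, ?_⟩
  · -- bad bricks have an element outside of `B`
    have hch : ∀ y ∈ I \ (I.filter fun y => X y ⊆ B), ∃ e, e ∈ X y ∧ e ∉ B := by
      intro y hy
      obtain ⟨g1, g2⟩ := Finset.mem_sdiff.1 hy
      by_contra hcon
      push Not at hcon
      exact g2 (Finset.mem_filter.2 ⟨g1, hcon⟩)
    rcases Finset.eq_empty_or_nonempty (I \ (I.filter fun y => X y ⊆ B)) with hemp | ⟨y₀, hy₀⟩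
    · rw [hemp, Finset.card_empty]
      exact Nat.zero_le _
    have hαn : Nonempty α := ⟨(hch y₀ hy₀).choose⟩
    choose! w hw using hch
    have h5 : (w '' ↑(I \ (I.filter fun y => X y ⊆ B))).ncard =
        (I \ (I.filter fun y => X y ⊆ B)).card := by
      rw [Set.InjOn.ncard_image (s := ↑(I \ (I.filter fun y => X y ⊆ B))) (f := w) (by
        intro y hy z hz hyz
        by_contra hne
        have g1 := hw y (Finset.mem_coe.1 hy)
        have g2 := hw z (Finset.mem_coe.1 hz)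
        rw [← hyz] at g2
        exact Set.disjoint_left.1 (hd y (Finset.mem_sdiff.1 (Finset.mem_coe.1 hy)).1 z
          (Finset.mem_sdiff.1 (Finset.mem_coe.1 hz)).1 hne) g1.1 g2.1), ncard_coe_finset]
    rw [← h5]
    refine (ncard_le_ncard ?_ (hUf.subset sdiff_subset)).trans h4
    rintro _ ⟨y, hy, rfl⟩
    have g1 := hw y (Finset.mem_coe.1 hy)
    exact ⟨mem_iUnion₂.2 ⟨y, (Finset.mem_sdiff.1 (Finset.mem_coe.1 hy)).1, g1.1⟩, g1.2⟩
  · refine hB.indep.subset (iUnion₂_subset fun y hy => ?_)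
    exact (Finset.mem_filter.1 hy).2

/-- **Representatives of the elements of rows**: `o` = direction of the rows, different rows start
at different vertices. -/
theorem sdr_rows {W : RW X₀ β} {S : Set α} {ends : α → Sym2 (Nd X₀ β)} {el : β → ℕ → α}
    (hR : RowIn W S ends el) {B : Set β} (st : β → X₀)
    (hst : ∀ r ∈ B, st r = W.hd r ∨ st r = W.tl r) (hinj : InjOn st B) :
    ∃ φ : α → Nd X₀ β, InjOn φ (rowE W el B) ∧ (∀ e ∈ rowE W el B, φ e ∈ ends e) ∧
      ∀ r ∈ B, ∀ k < W.len r, φ (el r k) = Sum.inl (st r) ∨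
        ∃ p, 0 < p ∧ p < W.len r ∧ φ (el r k) = Sum.inr (r, p) := by
  classical
  -- representative of the element `k` of the row `r`
  set ψ : β → ℕ → Nd X₀ β := fun r k => if st r = W.hd r then W.nd r k else W.nd r (k + 1) with hψ
  have hex : ∀ e : α, ∃ n : Nd X₀ β, ∀ r k, k < W.len r → el r k = e → n = ψ r k := by
    intro e
    by_cases he : ∃ r k, k < W.len r ∧ el r k = e
    · obtain ⟨r, k, hk, hre⟩ := he
      refine ⟨ψ r k, fun r' k' hk' he' => ?_⟩
      obtain ⟨rfl, rfl⟩ := hR.inj r k r' k' hk hk' (hre.trans he'.symm)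
      rfl
    · obtain ⟨n⟩ : Nonempty (Nd X₀ β) := by
        by_contra hne
        rw [not_nonempty_iff] at hne
        have hβ : IsEmpty X₀ := (isEmpty_sum.1 hne).1
        obtain ⟨v, hv⟩ := exists_mem_ends ends e
        exact hne.elim v
      exact ⟨n, fun r k hk h1 => absurd ⟨r, k, hk, h1⟩ he⟩
  choose φ hφ using hex
  have hφ' : ∀ r k, k < W.len r → φ (el r k) = ψ r k := fun r k hk => hφ _ r k hk rfl
  have hval : ∀ r ∈ B, ∀ k < W.len r, (φ (el r k) = Sum.inl (st r) ∧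
      (st r = W.hd r → k = 0) ∧ (st r ≠ W.hd r → k + 1 = W.len r)) ∨
        ∃ p, 0 < p ∧ p < W.len r ∧ φ (el r k) = Sum.inr (r, p) ∧
          (st r = W.hd r → p = k) ∧ (st r ≠ W.hd r → p = k + 1) := by
    intro r hr k hk
    rw [hφ' r k hk, hψ]
    dsimp only
    by_cases h1 : st r = W.hd r
    · rw [if_pos h1]
      rcases Nat.eq_zero_or_pos k with rfl | h0
      · left
        rw [W.nd_zero, h1]
        exact ⟨rfl, fun _ => rfl, fun h2 => absurd rfl h2⟩
      · right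
        exact ⟨k, h0, hk, W.nd_mid h0 hk, fun _ => rfl, fun h2 => absurd h1 h2⟩
    · rw [if_neg h1]
      rcases (by omega : k + 1 < W.len r ∨ k + 1 = W.len r) with h2 | h2
      · right
        exact ⟨k + 1, by omega, h2, W.nd_mid (by omega) h2, fun h3 => absurd h3 h1, fun _ => rfl⟩
      · left
        rw [h2, W.nd_len (hR.pos r)]
        refine ⟨?_, fun h3 => absurd h3 h1, fun _ => rfl⟩
        rcases hst r hr with h3 | h3
        · exact absurd h3 h1
        · rw [h3]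
  refine ⟨φ, ?_, ?_, ?_⟩
  · rintro _ ⟨r, hr, k, hk, rfl⟩ _ ⟨r', hr', k', hk', rfl⟩ he
    rcases hval r hr k hk with ⟨a1, a2, a3⟩ | ⟨p, p0, p1, a1, a2, a3⟩
    · rcases hval r' hr' k' hk' with ⟨b1, b2, b3⟩ | ⟨p', p0', p1', b1, b2, b3⟩
      · have h1 : st r = st r' := Sum.inl.inj (a1.symm.trans (he.trans b1))
        have h2 := hinj hr hr' h1
        subst h2
        have h3 : k = k' := by
          by_cases h4 : st r = W.hd r
          · rw [a2 h4, b2 h4]
          · have := a3 h4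
            have := b3 h4
            omega
        rw [h3]
      · exact absurd (a1.symm.trans (he.trans b1)) (by simp)
    · rcases hval r' hr' k' hk' with ⟨b1, b2, b3⟩ | ⟨p', p0', p1', b1, b2, b3⟩
      · exact absurd (a1.symm.trans (he.trans b1)) (by simp)
      · have h1 := Sum.inr.inj (a1.symm.trans (he.trans b1))
        obtain ⟨rfl, rfl⟩ := Prod.mk.inj h1
        have h3 : k = k' := by
          by_cases h4 : st r = W.hd r
          · rw [← a2 h4, ← b2 h4]
          · have := a3 h4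
            have := b3 h4
            omega
        rw [h3]
  · rintro _ ⟨r, hr, k, hk, rfl⟩
    rw [hφ' r k hk, hR.ends r k hk, hψ]
    dsimp only
    split_ifs
    · exact Sym2.mem_mk_left _ _
    · exact Sym2.mem_mk_right _ _
  · intro r hr k hk
    rcases hval r hr k hk with ⟨a1, _, _⟩ | ⟨p, p0, p1, a1, _, _⟩
    · exact Or.inl a1
    · exact Or.inr ⟨p, p0, p1, a1⟩

/-- **Bricks at the base level.** -/
theorem bricks_base {M : Matroid α} [M.Finite] [Finite β] {L h : ℕ} (hL : 4 ≤ L)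
    {W : RW (EN.Wall.WV (L * h)) β} {S : Set α} {ends : α → Sym2 (Nd (EN.Wall.WV (L * h)) β)}
    {el : β → ℕ → α} (hR : RowIn W S ends el)
    (hind : ∀ (F : Set α) (φ : α → Nd (EN.Wall.WV (L * h)) β), F ⊆ rowE W el univ → InjOn φ F →
      (∀ e ∈ F, φ e ∈ ends e) → M.Indep F)
    (hedge : ∀ a b, (EN.Wall.Wl (L * h)).Adj a b → ∃ r, (W.hd r = a ∧ W.tl r = b) ∨
      (W.hd r = b ∧ W.tl r = a))
    {BQ : Set β} {F₀ : Set α} {φ₀ : α → Nd (EN.Wall.WV (L * h)) β} {u : ℕ}
    (h0 : F₀ ⊆ rowE W el BQ) (h1 : InjOn φ₀ F₀) (h2 : ∀ e ∈ F₀, φ₀ e ∈ ends e)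
    (hr : rk M (rowE W el BQ) ≤ F₀.ncard + u) :
    ∃ (Br : EN.Wall.WV h → Finset β) (Zb : Finset (EN.Wall.WV h)), Zb.card ≤ u ∧
      (∀ y, ∀ r ∈ Br y, EN.Wall.blk L h (W.hd r) = y ∧ EN.Wall.blk L h (W.tl r) = y) ∧
      (∀ y, {x | ∃ r ∈ Br y, W.hd r = x ∨ W.tl r = x}.ncard ≤ (Br y).card) ∧
      (∀ y, (Br y).Nonempty) ∧ (∀ y, ∀ r ∈ Br y, W.hd r ≠ W.tl r) ∧
      (M ／ rowE W el BQ).Indep (rowE W el {r | ∃ y, y ∉ Zb ∧ (∀ r' ∈ Br y,
        W.nd r' 0 ∉ rowV W BQ ∧ W.nd r' (W.len r') ∉ rowV W BQ) ∧ r ∈ Br y}) := by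
  classical
  choose c ρ k1 k2 k3 k4 k5 using fun y => exists_bricks (W := W) hL hedge y
  set Br : EN.Wall.WV h → Finset β := fun y => Finset.univ.image (ρ y) with hBr
  have hall := fun y => brick_rows (k1 y) (k2 y) (k3 y) (k5 y)
  have hmemB : ∀ {r y}, r ∈ Br y ↔ ∃ i, ρ y i = r := by
    intro r y
    rw [hBr]
    simp
  have hblk : ∀ y i, EN.Wall.blk L h (W.hd (ρ y i)) = y := fun y i =>
    ((hall y).1 _ (hmemB.2 ⟨i, rfl⟩)).1
  -- the good blocks
  set I : Finset (EN.Wall.WV h) := Finset.univ.filter fun y => ∀ r' ∈ Br y,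
    W.nd r' 0 ∉ rowV W BQ ∧ W.nd r' (W.len r') ∉ rowV W BQ with hI
  have hImem : ∀ {y}, y ∈ I ↔ ∀ r' ∈ Br y,
      W.nd r' 0 ∉ rowV W BQ ∧ W.nd r' (W.len r') ∉ rowV W BQ := by
    intro y
    rw [hI, Finset.mem_filter]
    exact ⟨fun h => h.2, fun h => ⟨Finset.mem_univ _, h⟩⟩
  have hnotQ : ∀ y ∈ I, ∀ r ∈ Br y, r ∉ BQ := by
    intro y hy r hr' hrQ
    exact (hImem.1 hy r hr').1 ⟨r, hrQ, 0, by omega, rfl⟩
  set BI : Set β := {r | ∃ y ∈ I, r ∈ Br y} with hBI
  -- start of a row of a brick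
  have hst0 : ∀ r : β, ∃ x : EN.Wall.WV (L * h), ∀ y i, ρ y i = r → x = c y i := by
    intro r
    by_cases hr : ∃ y i, ρ y i = r
    · obtain ⟨y, i, rfl⟩ := hr
      refine ⟨c y i, fun y' i' he => ?_⟩
      have h3 : y = y' := by rw [← hblk y i, ← hblk y' i', he]
      subst h3
      rw [k2 y he]
    · exact ⟨W.hd r, fun y i he => absurd ⟨y, i, he⟩ hr⟩
  choose st hst using hst0
  have hstc : ∀ y i, st (ρ y i) = c y i := fun y i => hst _ y i rfl
  obtain ⟨φ, φ1, φ2, φ3⟩ := sdr_rows hR (B := BI) st (by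
      rintro r ⟨y, _, hr⟩
      obtain ⟨i, rfl⟩ := hmemB.1 hr
      rw [hstc]
      rcases k5 y i with ⟨g, _⟩ | ⟨_, g⟩
      · exact Or.inl g.symm
      · exact Or.inr g.symm) (by
      rintro r ⟨y, _, hr⟩ r' ⟨y', _, hr'⟩ he
      obtain ⟨i, rfl⟩ := hmemB.1 hr
      obtain ⟨i', rfl⟩ := hmemB.1 hr'
      rw [hstc, hstc] at he
      have h3 : y = y' := by rw [← k3 y i, ← k3 y' i', he]
      subst h3
      rw [k1 y he])
  -- the representatives of the bricks are not in the contracted part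
  have hout : ∀ e ∈ rowE W el BI, φ e ∉ rowV W BQ := by
    rintro _ ⟨r, ⟨y, hy, hr⟩, k, hk, rfl⟩ ⟨r', hr', p', hp', he⟩
    rcases φ3 r ⟨y, hy, hr⟩ k hk with h3 | ⟨p, p0, p1, h3⟩
    · rw [h3] at he
      obtain ⟨i, rfl⟩ := hmemB.1 hr
      rw [hstc] at he
      have h4 := hImem.1 hy (ρ y i) hr
      rw [W.nd_zero, W.nd_len (hR.pos _)] at h4
      rcases k5 y i with ⟨g, _⟩ | ⟨_, g⟩
      · exact h4.1 ⟨r', hr', p', hp', by rw [he, g]⟩
      · exact h4.2 ⟨r', hr', p', hp', by rw [he, g]⟩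
    · rw [h3] at he
      have h4 : r' = r := by
        unfold RW.nd at he
        split_ifs at he
        exact (Prod.mk.inj (Sum.inr.inj he)).1
      subst h4
      exact hnotQ y hy r' hr hr'
  have hin : ∀ e ∈ F₀, φ₀ e ∈ rowV W BQ := by
    intro e he
    obtain ⟨r, hr, k, hk, rfl⟩ := h0 he
    have h3 := h2 _ he
    rw [hR.ends r k hk, Sym2.mem_iff] at h3
    rcases h3 with h3 | h3
    · exact ⟨r, hr, k, hk.le, h3.symm⟩
    · exact ⟨r, hr, k + 1, hk, h3.symm⟩
  have hdis : ∀ e ∈ rowE W el BI, e ∉ rowE W el BQ := by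
    rintro _ ⟨r, ⟨y, hy, hr⟩, k, hk, rfl⟩ ⟨r', hr', k', hk', he⟩
    have h3 := (hR.inj _ _ _ _ hk' hk he).1
    subst h3
    exact hnotQ y hy r' hr hr'
  have hallE : rowE W el univ ⊆ M.E := by
    rintro _ ⟨r, _, k, hk, rfl⟩
    have h3 := hind {el r k} (fun _ => W.nd r k) (by
      rintro _ rfl
      exact ⟨r, mem_univ _, k, hk, rfl⟩) (injOn_singleton _ _) (by
      rintro _ rfl
      rw [hR.ends r k hk]
      exact Sym2.mem_mk_left _ _)
    exact h3.subset_ground rfl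
  have hXI : M.Indep (F₀ ∪ ⋃ y ∈ I, rowE W el (Br y : Set β)) := by
    refine hind _ (fun e => if e ∈ F₀ then φ₀ e else φ e) ?_ ?_ ?_
    · rintro e (he | he)
      · obtain ⟨r, _, k, hk, he⟩ := h0 he
        exact ⟨r, mem_univ _, k, hk, he⟩
      · obtain ⟨y, hy, r, _, k, hk, he⟩ := mem_iUnion₂.1 he
        exact ⟨r, mem_univ _, k, hk, he⟩
    · have hsub : ∀ e, e ∈ ⋃ y ∈ I, rowE W el (Br y : Set β) → e ∈ rowE W el BI := by
        intro e he
        obtain ⟨y, hy, r, hr, k, hk, he⟩ := mem_iUnion₂.1 he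
        exact ⟨r, ⟨y, hy, hr⟩, k, hk, he⟩
      intro e he e' he' hee
      simp only [] at hee
      by_cases g1 : e ∈ F₀ <;> by_cases g2 : e' ∈ F₀
      · rw [if_pos g1, if_pos g2] at hee
        exact h1 g1 g2 hee
      · rw [if_pos g1, if_neg g2] at hee
        have g3 := hout e' (hsub e' (he'.resolve_left g2))
        rw [← hee] at g3
        exact absurd (hin e g1) g3
      · rw [if_neg g1, if_pos g2] at hee
        have g3 := hout e (hsub e (he.resolve_left g1))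
        rw [hee] at g3
        exact absurd (hin e' g2) g3
      · rw [if_neg g1, if_neg g2] at hee
        exact φ1 (hsub e (he.resolve_left g1)) (hsub e' (he'.resolve_left g2)) hee
    · intro e he
      split_ifs with g1
      · exact h2 e g1
      · obtain ⟨y, hy, r, hr, k, hk, he'⟩ := mem_iUnion₂.1 (he.resolve_left g1)
        exact φ2 e ⟨r, ⟨y, hy, hr⟩, k, hk, he'⟩
  obtain ⟨J, hJ1, hJ2, hJ3⟩ := bricks_over (M := M) (A := rowE W el BQ) (F₀ := F₀) (u := u)
    (fun e he => hallE (by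
      obtain ⟨r, _, k, hk, he⟩ := he
      exact ⟨r, mem_univ _, k, hk, he⟩)) h0 hr I (fun y => rowE W el (Br y : Set β)) (by
      intro y hy z hz hne
      rw [Set.disjoint_left]
      rintro _ ⟨r, hr, k, hk, rfl⟩ ⟨r', hr', k', hk', he⟩
      have h3 := (hR.inj _ _ _ _ hk' hk he).1
      subst h3
      exact hne (((hall y).1 _ hr).1.symm.trans ((hall z).1 _ hr').1)) (by
      intro y hy
      rw [Set.disjoint_left]
      rintro e ⟨r, hr, k, hk, he⟩
      exact hdis e ⟨r, ⟨y, hy, hr⟩, k, hk, he⟩) hXI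
  refine ⟨Br, I \ J, hJ2, fun y => (hall y).1, fun y => (hall y).2.1, fun y => (hall y).2.2.1,
    fun y => (hall y).2.2.2, hJ3.subset ?_⟩
  rintro _ ⟨r, ⟨y, hy, hyI, hr⟩, k, hk, rfl⟩
  have h3 : y ∈ I := hImem.2 hyI
  have h4 : y ∈ J := by
    by_contra h5
    exact hy (Finset.mem_sdiff.2 ⟨h3, h5⟩)
  exact mem_iUnion₂.2 ⟨y, h4, r, hr, k, hk, rfl⟩

end TST
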