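import Pool.Agent.TST.Out

/-!
# T-star: `ClaimF` from `HonOut`

`ClaimH`: as `ClaimF`, with `HonOut` (no order of the rows) in the place of `FSys`.
-/

open Set BIC BICS CWL
open scoped Matroid

namespace TSH

universe u

open Mdl Mdj EN Gad TST EN.Wall

/-- **`ClaimF` without order of the rows.** -/
def ClaimH (k κ κ' ρh ρ : ℕ) : Prop :=
  ∃ sA : ℕ, ∀ (Cb s η : ℕ) (F : ℕ → ℕ), sA ≤ s → 2 ≤ s → 2 ∣ s →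
    ∃ (Df h' : ℕ → ℕ) (h K₀ w₁ : ℕ), ∀ wmax n' : ℕ,
    ∃ n ≥ 1, ∀ {α : Type u} (M : Matroid α) [M.Finite] (w L L' : ℕ) (𝒯 : Finset (ℕ × ℕ))
    (L₁ : Bool × ℕ × ℕ → List α) (f₁ : α → Sym2 ((ℕ × ℕ) ⊕ α)) (e₁ : Bool × ℕ × ℕ → α) (u₁ : ℕ)
    (L₂ : Bool × ℕ × ℕ → List α) (f₂ : α → Sym2 ((ℕ × ℕ) ⊕ α)) (e₂ : Bool × ℕ × ℕ → α) (u₂ : ℕ)
    (D : Set α) (m : ℕ) (τ : ℕ → ℕ × ℕ) (R : ℕ → Bool × ℕ × ℕ) (c : ℕ → ℕ → α) (q : ℕ → ℕ → ℕ)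
    (Za : Finset (Bool × ℕ × ℕ)),
    w₁ ≤ w → w ≤ wmax → L ≤ L' → L' ≤ wmax → u₁ ≤ κ → u₂ ≤ κ → Za.card ≤ (Seg (s + 2)).ncard →
    1 ≤ m →
    HotS κ' ρh M w s 𝒯 L₁ e₂ →
    LSys M w s (Seg (s + 2)).ncard 𝒯 L₁ f₁ e₁ u₁ L₂ f₂ e₂ u₂ D n m τ R c q Za →
    LCore M w s 𝒯 L₁ f₁ e₁ u₁ L₂ f₂ e₂ u₂ D n m τ c Za →
    Dens w L L' Cb h h' K₀ Df m R →
    HasUniformMinor M k ∨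
    ∃ (M₁ : Matroid α) (𝒯' : Finset (ℕ × ℕ)) (L₁' : Bool × ℕ × ℕ → List α)
      (f₁' : α → Sym2 ((ℕ × ℕ) ⊕ α)) (e₁' : Bool × ℕ × ℕ → α) (u₁' : ℕ)
      (L₂' : Bool × ℕ × ℕ → List α) (f₂' : α → Sym2 ((ℕ × ℕ) ⊕ α)) (u₂' : ℕ) (m' : ℕ)
      (τ' : ℕ → ℕ × ℕ) (R' : ℕ → Bool × ℕ × ℕ) (c' : ℕ → ℕ → α)
      (a n₀ : ℕ) (Zq LR : Set (Bool × ℕ × ℕ)) (T : Set α) (r₁ r₂ : α → Bool × ℕ × ℕ)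
      (A₁ A₂ : α → Set α) (kc : ℕ) (cls : ℕ → ℕ) (pv : Set ℕ) (i₀ j₀ w' : ℕ),
      M₁ ≤m M ∧ 𝒯' ⊆ 𝒯 ∧ u₁' ≤ κ' ∧ u₂' ≤ κ' ∧ m' ≤ Cb * w ^ 2 ∧
      w ≤ 2 * w' ∧ shS i₀ j₀ '' Seg w' ⊆ Seg w ∧
      (∀ r ∈ Seg w', ∀ x ∈ L₁' r, x ∈ L₁ (shS i₀ j₀ r)) ∧
      HonOut M₁ w' s 𝒯' L₁' f₁' e₁' u₁' L₂' f₂' e₂ u₂' n' m' τ' R' c' a n₀
        ρ η F Zq LR T r₁ r₂ A₁ A₂ kc cls pv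

/-- **`ClaimF` from `ClaimH`.** -/
theorem claimF_of_H (k κ κ' ρh ρ : ℕ) (h : ClaimH.{u} k κ κ' ρh ρ) : ClaimF.{u} k κ κ' ρh ρ := by
  obtain ⟨sA, h⟩ := h
  refine ⟨sA, fun Cb s η F h1 h2 h3 => ?_⟩
  obtain ⟨Df, h', hh, K₀, w₁, h⟩ := h Cb s η F h1 h2 h3
  refine ⟨Df, h', hh, K₀, w₁, fun wmax n' => ?_⟩
  obtain ⟨n'', hR⟩ := rowOut.{u} (Cb * wmax ^ 2) wmax n'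
  obtain ⟨n, hn, h⟩ := h wmax n''
  refine ⟨n, hn, ?_⟩
  intro α M _ w L L' 𝒯 L₁ f₁ e₁ u₁ L₂ f₂ e₂ u₂ D m τ R c q Za a1 a2 a3 a3' a4 a5 a6 a7 a8 a9 a10 a11
  rcases h M w L L' 𝒯 L₁ f₁ e₁ u₁ L₂ f₂ e₂ u₂ D m τ R c q Za a1 a2 a3 a3' a4 a5 a6 a7 a8 a9 a10 a11
    with hU | hU
  · exact Or.inl hU
  obtain ⟨M₁, 𝒯', L₁', f₁', e₁', u₁', L₂', f₂', u₂', m', τ', R', c', a, n₀, Zq, LR, T, r₁, r₂,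
    A₁, A₂, kc, cls, pv, i₀, j₀, w', b1, b2, b3, b4, b5, b6, b7, b8, b9⟩ := hU
  have fM₁ : M₁.Finite := ⟨M.ground_finite.subset b1.subset⟩
  obtain ⟨L₁'', f₁'', e₁'', τ'', q'', c'', gT, c1, c2, c3⟩ := hR M₁ w' s 𝒯' L₁' f₁' e₁' u₁' L₂' f₂'
    e₂ u₂' m' τ' R' c' a n₀ ρ η F Zq LR T r₁ r₂ A₁ A₂ kc cls pv ((subwall_le b7).trans a2)
    (b5.trans (Nat.mul_le_mul_left _ (Nat.pow_le_pow_left a2 2))) b9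
  exact Or.inr ⟨M₁, 𝒯', L₁'', f₁'', e₁'', u₁', L₂', f₂', u₂', m', τ'', R', c'', q'', a, n₀, Zq, LR,
    T, gT, kc, cls, pv, i₀, j₀, w', b1, b2, b3, b4, b5, b6, b7,
    fun r hr => b8 r hr _ (c2 r hr), c3⟩

end TSH
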