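import Pool.Agent.TST.FinL
import Pool.Agent.TST.ClaimH

/-!
# T-star: the composition of Claim F (row R10)

`claimH_of`: `ClaimH` from the label level (`LabRow`) and LIFT (`LiftRow`).
-/

set_option autoImplicit false

open Set BIC BICS CWL
open scoped Matroid

namespace TSH

universe u

open Mdl Mdj EN Gad TST EN.Wall

/-- the data for one choice of tiles `κ₁` -/
structure FinP {α : Type u} (M : Matroid α) (k w s : ℕ) (𝒯 : Finset (ℕ × ℕ))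
    (L₁ : Bool × ℕ × ℕ → List α) (f₁ : α → Sym2 ((ℕ × ℕ) ⊕ α)) (e₂ : Bool × ℕ × ℕ → α)
    (D : Set α) (N m n : ℕ) (τ : ℕ → ℕ × ℕ) (R : ℕ → Bool × ℕ × ℕ) (c : ℕ → ℕ → α)
    (Za : Finset (Bool × ℕ × ℕ)) (row : α → Sym2 (ℕ × ℕ)) (D₀ : ℕ) (Hs₀ Om : Finset (ℕ × ℕ))
    (r C η : ℕ) (F : ℕ → ℕ) (a n₀ : ℕ) (Zq : Set (Bool × ℕ × ℕ)) (A Cγ ρ : ℕ)
    (κ₁ : ℕ → ℕ) (I : Finset ℕ) (Bd : Finset (ℕ × ℕ)) (LR : Set (Bool × ℕ × ℕ))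
    (Dg G : Set α) (r₀ : α → Bool × ℕ × ℕ) (A₀ : α → Set α) (Mv : Finset (Bool × ℕ × ℕ))
    (T : Set α) (pr : α → Bool → Bool × ℕ × ℕ) (pa : α → Bool → Set α) (kc : ℕ) (cls : ℕ → ℕ)
    (pv : Set ℕ) : Prop where
  lr : LR = ZR w a n₀ Zq ∪ (ZT w a n₀ Zq ∪ NrB w Bd)
  geo : GeoH M w s 𝒯 L₁ f₁ e₂ N τ r C η F Om Za (ZT w a n₀ Zq ∪ NrB w Bd) a n₀ Zq LR
  card : Bd.card ≤ A * (w + (LtL m R (ZT w a n₀ Zq)).card)
  I_sub : I ⊆ Finset.range N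
  lift : LiftI M w L₁ D N m R c row D₀ Hs₀ (ZT w a n₀ Zq) I (Bd : Set (ℕ × ℕ)) ρ
  kI : ∀ b < n, κ₁ b ∈ I
  labM : LabM M w L₁ D row D₀ Hs₀ (Bd : Set (ℕ × ℕ)) (ZT w a n₀ Zq) LR Dg G r₀ A₀
  labT : LabT M w L₁ D row D₀ Hs₀ (Bd : Set (ℕ × ℕ)) Zq LR Dg m n N R c κ₁ T pr pa kc cls pv
  Mv_card : Mv.card ≤ Cγ * (LtL m R LR).card
  gam : rk M ({z | z ∈ G ∧ segNear (r₀ z) ∉ GV LR Mv ∧ segFar (r₀ z) ∉ GV LR Mv} ∪
      (crr L₁ (Seg w) \ KL m R c LR ((Finset.range n).image κ₁))) ≤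
    rk M (crr L₁ (Seg w) \ KL m R c LR ((Finset.range n).image κ₁)) +
      (LtL m R LR).card * (2 * k)

section

variable {α : Type u} {M : Matroid α} {k w s : ℕ} {𝒯 : Finset (ℕ × ℕ)}
  {L₁ : Bool × ℕ × ℕ → List α} {f₁ : α → Sym2 ((ℕ × ℕ) ⊕ α)} {e₁ : Bool × ℕ × ℕ → α} {u₁ : ℕ}
  {L₂ : Bool × ℕ × ℕ → List α} {f₂ : α → Sym2 ((ℕ × ℕ) ⊕ α)} {e₂ : Bool × ℕ × ℕ → α} {u₂ : ℕ}
  {D : Set α} {σ N m n : ℕ} {τ : ℕ → ℕ × ℕ} {R : ℕ → Bool × ℕ × ℕ} {c : ℕ → ℕ → α}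
  {Za : Finset (Bool × ℕ × ℕ)} {row : α → Sym2 (ℕ × ℕ)} {D₀ : ℕ} {Hs₀ Om : Finset (ℕ × ℕ)}
  {r C η : ℕ} {F : ℕ → ℕ} {a n₀ : ℕ} {Zq : Set (Bool × ℕ × ℕ)} {A Cγ ρ : ℕ}
  {κ₁ : ℕ → ℕ} {I : Finset ℕ} {Bd : Finset (ℕ × ℕ)} {LR : Set (Bool × ℕ × ℕ)}
  {Dg G : Set α} {r₀ : α → Bool × ℕ × ℕ} {A₀ : α → Set α} {Mv : Finset (Bool × ℕ × ℕ)}
  {T : Set α} {pr : α → Bool → Bool × ℕ × ℕ} {pa : α → Bool → Set α} {kc : ℕ} {cls : ℕ → ℕ}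
  {pv : Set ℕ}

lemma NrB_sub {w : ℕ} {Bd : Finset (ℕ × ℕ)} : NrB w Bd ⊆ Seg w := fun _ h => h.1

lemma ZT_sub {w a n₀ : ℕ} {Zq : Set (Bool × ℕ × ℕ)} : ZT w a n₀ Zq ⊆ Seg w := by
  rintro q (h | h)
  · exact h.1
  · exact h.1

lemma Zq_sub_ZT {w a n₀ : ℕ} {Zq : Set (Bool × ℕ × ℕ)} (h : Zq ⊆ Seg w) : Zq ⊆ ZT w a n₀ Zq :=
  fun _ hq => Or.inl ⟨h hq, Or.inl hq⟩

/-- **The number of classes for one choice of tiles.** -/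
theorem FinP.kc_le [M.Finite]
    (h : FinP M k w s 𝒯 L₁ f₁ e₂ D N m n τ R c Za row D₀ Hs₀ Om r C η F a n₀ Zq A Cγ ρ κ₁ I Bd LR
      Dg G r₀ A₀ Mv T pr pa kc cls pv)
    (hB : BSys M w s 𝒯 L₁ f₁ e₁ u₁ L₂ f₂ e₂ u₂ D σ N m τ R c Za) {σ' : ℕ}
    (V2 : rk M (crr L₁ (Seg w)) ≤
      rk M (D ∪ (crr L₁ (Seg w) \ KB m c ((Finset.range n).image κ₁ : Finset ℕ))) + σ' * n)
    (hn : 2 * m + m * (ρ + m + m * (2 * k) + m + u₂ + 2 * m) + 2 ≤ n) :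
    kc ≤ σ' + (SpL m R LR (GV LR Mv)).card := by
  classical
  have hZTLR : ZT w a n₀ Zq ⊆ LR := by
    rw [h.lr]
    exact fun q hq => Or.inr (Or.inl hq)
  have hLab := h.labT.lab
  have hκi : ∀ a < n, ∀ b < n, κ₁ a = κ₁ b → a = b := by
    intro x hx y hy hxy
    rcases Nat.lt_trichotomy x y with h1 | h1 | h1
    · have := hLab.mono x y h1 hy
      omega
    · exact h1
    · have := hLab.mono y x h1 hx
      omega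
  have himI : (Finset.range n).image κ₁ ⊆ I := by
    intro b hb
    obtain ⟨x, hx, rfl⟩ := Finset.mem_image.1 hb
    exact h.kI x (Finset.mem_range.1 hx)
  obtain ⟨T₂, hT₂⟩ : ∃ T₂ : Set α, T₂ = {z | z ∈ D ∧
      TwoB M (crr L₁ (Seg w)) row w D₀ Hs₀ (Bd : Set (ℕ × ℕ)) z ∧
      ∀ r' ∈ LR, r' ∉ ZT w a n₀ Zq → ∀ x' ∈ L₁ r', ∀ y' ∈ L₁ r', x' ≠ y' →
        ¬ Sees M (crr L₁ (Seg w)) z x' y'} := ⟨_, rfl⟩
  have hT₂D : T₂ ⊆ D := by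
    rw [hT₂]
    exact fun z hz => hz.1
  have l1 : rk M (T₂ ∪ (crr L₁ (Seg w) \ KL m R c (ZT w a n₀ Zq) I)) ≤
      rk M (crr L₁ (Seg w) \ KL m R c (ZT w a n₀ Zq) I) + ρ := by
    refine h.lift.cnt hB h.I_sub hT₂D ?_
    rw [hT₂]
    exact fun z hz => hz.2.1
  have l2 : rk M (T₂ ∪ (crr L₁ (Seg w) \
      KL m R c (ZT w a n₀ Zq) ((Finset.range n).image κ₁))) ≤
      rk M (crr L₁ (Seg w) \ KL m R c (ZT w a n₀ Zq) ((Finset.range n).image κ₁)) + ρ :=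
    rk_lift_mono (sdiff_subset_sdiff_right (KL_mono himI)) l1
  have l3 := lift_light hB.pair.s₁ hB.row hB.mem hB.inj hLab.lt hκi (by omega) hZTLR
    (hT₂D.trans hB.D_cl) (subset_rfl) l2 (by
      rw [hT₂]
      intro z hz r' hr' hL hZ x hx y hy hxy
      exact hz.2.2 r' hL hZ x hx y hy hxy)
  have hLm : (LtL m R LR).card ≤ m := by
    have h1 := Finset.card_filter_le (Finset.range m) fun i => R i ∈ LR
    rw [Finset.card_range] at h1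
    unfold LtL
    exact h1
  refine kc_count (W := GV LR Mv) (Gf := {z | z ∈ G ∧ segNear (r₀ z) ∉ GV LR Mv ∧
    segFar (r₀ z) ∉ GV LR Mv}) (T₂ := T₂)
    (Y := crr L₁ (Seg w) \ KL m R c LR ((Finset.range n).image κ₁)) (ρ := ρ + m)
    (g := (LtL m R LR).card * (2 * k)) (u₂ := u₂) hB.pair.s₁ hB.row hB.mem hB.inj hB.D_cl hB.V1
    hLab V2 ?_ subset_rfl l3 h.gam ?_ (by omega)
  · rintro d hd i hi hiL hiW hiW' ⟨a, ha, b, hb, hab, hsee⟩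
    have hne : c i (κ₁ a) ≠ c i (κ₁ b) := by
      intro h'
      exact hab (hκi a ha b hb (hB.inj i hi _ (hLab.lt a ha) i hi _ (hLab.lt b hb) h').2)
    have hma := hB.mem i hi _ (hLab.lt a ha)
    have hmb := hB.mem i hi _ (hLab.lt b hb)
    obtain ⟨h3, h4⟩ := h.labM.kind d hd (R i) (hB.row i hi) hiL (fun h' => hiW (Or.inl h'))
      (fun h' => hiW' (Or.inl h')) _ hma _ hmb hne hsee
    refine ⟨h3, ?_⟩
    rcases h4 with h5 | h5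
    · left
      rw [hT₂]
      exact ⟨hd, h5.1, h5.2⟩
    · right
      have h6 := (((h.labM.one d h5).sep (R i) (hB.row i hi) hiL _ hma _ hmb hne).1 hsee).1
      refine ⟨h5, ?_, ?_⟩
      · rw [← h6]
        exact hiW
      · rw [← h6]
        exact hiW'
  · have h3 : m * (ρ + m + (LtL m R LR).card * (2 * k) + m + u₂ + 2 * m) ≤
        m * (ρ + m + m * (2 * k) + m + u₂ + 2 * m) := by
      refine Nat.mul_le_mul_left _ ?_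
      have h4 : (LtL m R LR).card * (2 * k) ≤ m * (2 * k) := Nat.mul_le_mul_right _ hLm
      omega
    omega

end

/-- **Row R10: `ClaimH` from the label level and LIFT.** -/
theorem claimH_of (k : ℕ) (hk : 2 ≤ k)
    (hLab : ∀ β D₀ δ₀ D₁ δ₁ : ℕ, LabRow.{u} β D₀ δ₀ D₁ δ₁)
    (hLift : ∀ κ : ℕ, ∃ ρ : ℕ, LiftRow.{u} k κ ρ) (κ : ℕ) :
    ∃ κ' : ℕ, κ ≤ κ' ∧ ∃ ρ : ℕ, ∀ ρh : ℕ, ClaimH.{u} k κ κ' ρh ρ := by
  classical
  obtain ⟨K, hGS⟩ := gSys.{u} k κ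
  refine ⟨κ + 3 * K, by omega, ?_⟩
  obtain ⟨κ', hκ'⟩ : ∃ κ', κ' = κ + 3 * K := ⟨_, rfl⟩
  rw [← hκ']
  obtain ⟨ρ, hLiftR⟩ := hLift κ'
  refine ⟨ρ, fun ρh => ?_⟩
  obtain ⟨Cγ, hγ⟩ := gammaS.{u} k hk κ'
  obtain ⟨wγ, sγ, hγ⟩ := hγ ρh
  refine ⟨sγ, fun Cb s η F hsA hs2 hs => ?_⟩
  obtain ⟨t, ht⟩ : ∃ t, t = 16 * η * Cb + 1 := ⟨_, rfl⟩
  obtain ⟨β, D₀, δ₀, D₁, δ₁, ρom, wG, hGS⟩ := hGS t (by omega)
  obtain ⟨σ₂, hσ₂⟩ : ∃ σ₂, σ₂ = (Seg (s + 2)).ncard := ⟨_, rfl⟩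
  obtain ⟨p, hp⟩ : ∃ p, p = ρom + σ₂ := ⟨_, rfl⟩
  obtain ⟨r₀, hLiftR⟩ := hLiftR β D₀ δ₀ D₁ δ₁ p
  obtain ⟨r, hr⟩ : ∃ r, r = max r₀ (δ₁ + 62) := ⟨_, rfl⟩
  have hr₀ : r₀ ≤ r := by rw [hr]; exact le_max_left _ _
  have hr₁ : δ₁ + 60 + 2 ≤ r := by rw [hr]; exact le_max_right _ _
  obtain ⟨C, hGeo⟩ := exists_geoH.{u} p r κ'
  obtain ⟨wZ, hGeo⟩ := hGeo η F
  obtain ⟨A, wL, hLiftR⟩ := hLiftR r hr₀ C
  obtain ⟨A', hA'⟩ : ∃ A', A' = 9 * C + 1 + 196 * A + (2 * σ₂ + 4) := ⟨_, rfl⟩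
  obtain ⟨B, hB⟩ : ∃ B, B = η + 32 * η * (Cγ + 1) := ⟨_, rfl⟩
  obtain ⟨Df, h', hh, wN, hNum⟩ := numH η Cb A' B 0
  refine ⟨Df, h', hh, C, wG + wγ + wZ + wL + wN + 1, fun wmax n' => ?_⟩
  obtain ⟨mmax, hmm⟩ : ∃ mmax, mmax = Cb * wmax ^ 2 := ⟨_, rfl⟩
  obtain ⟨n, hn⟩ : ∃ n, n = n' +
      (2 * mmax + mmax * (ρ + mmax + mmax * (2 * k) + mmax + κ' + 2 * mmax) + 2) := ⟨_, rfl⟩
  obtain ⟨R₁, hLabR⟩ := hLab β D₀ δ₀ D₁ δ₁ mmax n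
  obtain ⟨R₀γ, hγ⟩ := hγ wmax mmax R₁
  obtain ⟨R₀L, hLiftR⟩ := hLiftR wmax mmax R₀γ
  obtain ⟨N, hN⟩ : ∃ N, N = (2 * σ₂ + 2 * mmax + 3 + 1) * R₀L + 1 + (3 * K + 1) := ⟨_, rfl⟩
  refine ⟨N + (3 * K + 1), by omega, ?_⟩
  intro α M _ w L L' 𝒯 L₁ f₁ e₁ u₁ L₂ f₂ e₂ u₂ D m τ R c q Za hw hwm hLL hL'w hu₁ hu₂ hZac hm1
    hHot hLS hLC hDens
  rw [← hσ₂] at hZac hLS
  by_cases hU : HasUniformMinor M k
  · exact Or.inl hU
  right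
  rcases hGS M w s σ₂ 𝒯 L₁ f₁ e₁ u₁ L₂ f₂ e₂ u₂ D (N + (3 * K + 1)) m τ R c q Za N (by omega) hu₁
    (by omega) rfl hLS hLC with h | h
  · exact absurd h hU
  obtain ⟨M', 𝒯', L₁', f₁', e₁', D', ι, row, Hm, Hs₀, Om₁, Hs₁, Om₂, hM'M, h𝒯', hL₁', he₁', hD',
    hι, hιN, hOm, hG⟩ := h
  have fM' : M'.Finite := ⟨M.ground_finite.subset hM'M.subset⟩
  have hU' : ¬ HasUniformMinor M' k := fun h => hU (HasUniformMinor_mono h hM'M)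
  obtain ⟨τ', hτ'⟩ : ∃ τ' : ℕ → ℕ × ℕ, τ' = fun b => τ (ι b) := ⟨_, rfl⟩
  obtain ⟨c', hc'⟩ : ∃ c' : ℕ → ℕ → α, c' = fun i b => c i (ι b) := ⟨_, rfl⟩
  obtain ⟨σ, hσ⟩ : ∃ σ, σ = 2 * σ₂ + 2 * (m / t) + 3 := ⟨_, rfl⟩
  obtain ⟨u₁', hu₁'⟩ : ∃ u₁', u₁' = u₁ + 3 * K := ⟨_, rfl⟩
  rw [← hτ', ← hc', ← hσ, ← hu₁'] at hG
  have hHot' : HotT κ' ρh M' w s 𝒯' L₁' e₂ := (hHot.mono hM'M h𝒯' hL₁').hot
  have hBS := hG.b
  have hmm' : m ≤ mmax := by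
    rw [hmm]
    exact hDens.b.trans (Nat.mul_le_mul_left _ (Nat.pow_le_pow_left hwm 2))
  have hu1 : u₁' ≤ κ' := by omega
  have hu2 : u₂ ≤ κ' := by omega
  have hmt : m / t ≤ mmax := (Nat.div_le_self m t).trans hmm'
  -- the geometry
  obtain ⟨a, n₀, Zq, LR₁, hZ⟩ := hGeo M' w s 𝒯' L₁' f₁' e₁' u₁' e₂ N τ' Om₂ Za ∅ (by omega) hu1
    hBS.pair.s₁ (by omega) (empty_subset _) (by simp) hBS.tau hBS.anchor
  have hZqS : Zq ⊆ Seg w := hZ.Zq_sub.trans hZ.LR_sub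
  -- the numbers
  have hNumH := hNum w L L' C m R (by omega) hLL hG.cov hDens
  have hzt : Df L' * (LtL m R (ZT w a n₀ Zq)).card ≤ A' * w ^ 2 :=
    hZ.zt hDens le_rfl (by omega)
  have hrow2 : ∀ LR : Set (Bool × ℕ × ℕ), ∀ r ∈ Seg w, r ∉ LR → ∃ y ∈ L₁' r, y ≠ e₁' r := by
    intro LR q hq _
    obtain ⟨i, hi, rfl⟩ := hG.cov q hq
    exact ⟨c' i 0, hBS.mem i hi 0 (by omega), hBS.anc i hi 0 (by omega) _ hq⟩
  -- the choice of the tiles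
  have hthin := hBS.thinK (R₀ := R₀L) (n := n) (by omega) (by
      rw [hσ, hN]
      have h1 : (2 * σ₂ + 2 * (m / t) + 3 + 1) * R₀L ≤ (2 * σ₂ + 2 * mmax + 3 + 1) * R₀L :=
        Nat.mul_le_mul_right _ (by omega)
      omega) (fun κ₁ => ∃ (I : Finset ℕ) (Bd : Finset (ℕ × ℕ)) (LR : Set (Bool × ℕ × ℕ))
        (Dg G : Set α) (r₀ : α → Bool × ℕ × ℕ) (A₀ : α → Set α) (Mv : Finset (Bool × ℕ × ℕ))
        (T : Set α) (pr : α → Bool → Bool × ℕ × ℕ) (pa : α → Bool → Set α) (kc : ℕ)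
        (cls : ℕ → ℕ) (pv : Set ℕ),
        FinP M' k w s 𝒯' L₁' f₁' e₂ D' N m n τ' R c' Za row D₀ Hs₀ Om₂ r C η F a n₀ Zq A Cγ ρ
          κ₁ I Bd LR Dg G r₀ A₀ Mv T pr pa kc cls pv) (by
      intro Tl hTl hTlc
      rcases hLiftR M' w s 𝒯' L₁' f₁' e₁' u₁' L₂ f₂ e₂ u₂ D' σ N m τ' R c' Za row Hm Hs₀ Om₁ Hs₁
        Om₂ η F Om₂ ∅ a n₀ Zq LR₁ (by omega) hwm hmm' hu1 (by omega) (by omega) subset_rfl hG hZ
        Tl hTl hTlc with h | ⟨I, Bd, hIT, hIc, hBdc, hLI⟩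
      · exact absurd h hU'
      have hIN : I ⊆ Finset.range N := hIT.trans hTl
      have hltI : ∀ b ∈ I, b < N := fun b hb => Finset.mem_range.1 (hIN hb)
      obtain ⟨LR, hLR⟩ : ∃ LR, LR = ZR w a n₀ Zq ∪ (ZT w a n₀ Zq ∪ NrB w Bd) := ⟨_, rfl⟩
      have hES : ZT w a n₀ Zq ∪ NrB w Bd ⊆ Seg w := union_subset ZT_sub NrB_sub
      have hLRS : LR ⊆ Seg w := by
        rw [hLR]
        exact union_subset (fun q hq => hq.1) hES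
      have hZTLR : ZT w a n₀ Zq ⊆ LR := by
        rw [hLR]
        exact fun q hq => Or.inr (Or.inl hq)
      have hNrLR : NrB w Bd ⊆ LR := by
        rw [hLR]
        exact fun q hq => Or.inr (Or.inr hq)
      have hLRQE : LR ⊆ ZT w a n₀ Zq ∪ NrB w Bd := by
        rw [hLR]
        exact union_subset (fun q hq => Or.inl (Or.inl hq)) subset_rfl
      have hNr := NrB_card (w := w) Bd
      have hNrc : (NrB w Bd).ncard ≤ A' * (L' + 1) ^ 0 * (w + (LtL m R (ZT w a n₀ Zq)).card) := by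
        rw [pow_zero, mul_one]
        refine hNr.2.trans ?_
        calc 196 * Bd.card ≤ 196 * (A * (w + (LtL m R (ZT w a n₀ Zq)).card)) :=
              Nat.mul_le_mul_left _ hBdc
          _ = 196 * A * (w + (LtL m R (ZT w a n₀ Zq)).card) := by ring
          _ ≤ A' * (w + (LtL m R (ZT w a n₀ Zq)).card) :=
              Nat.mul_le_mul_right _ (by omega)
      have hlight : η * LR.ncard ≤ w ^ 2 :=
        hNumH.light (by omega) hzt hNr.1 hNrc hLRS hLRQE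
      have hgeo := hZ.enlarge hBS.anchor hES (by rw [← hLR]; exact hlight)
      rw [← hLR] at hgeo
      obtain ⟨Dg, G, r₀', A₀, hLM, hLT⟩ := hLabR M' w s 𝒯' L₁' f₁' e₁' u₁' L₂ f₂ e₂ u₂ D' σ N m τ' R
        c' Za row Hm Hs₀ Om₁ Hs₁ Om₂ hmm' hG (Bd : Set (ℕ × ℕ)) Zq (ZT w a n₀ Zq) LR
        (Zq_sub_ZT hZqS) hZTLR hLRS hZ.geo (hZ.outW subset_rfl hr₁)
        (fun q hq h => Or.inr ⟨hq, h⟩)
        (fun q hq v hv h => hNrLR ⟨hq, v, Finset.mem_coe.1 hv, h⟩)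
      have hGD := hLM.G_D
      rcases hγ M' w s 𝒯' L₁' f₁' e₁' u₁' L₂ f₂ e₂ u₂ m τ' R c' LR G r₀' A₀ I (by omega) hwm hsA
        hmm' hu1 hu2 hIc.ge (hBS.pair.subset₂ tiles_sub_cores) hHot'
        (fun b hb => hBS.tau b (hltI b hb)) hBS.row
        (fun i hi b hb => hBS.mem i hi b (hltI b hb))
        (fun i hi b hb j hj a ha => hBS.inj i hi b (hltI b hb) j hj a (hltI a ha))
        (fun i hi b hb => hBS.anc i hi b (hltI b hb))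
        (fun b hb x hx hx' => hBS.tile b (hltI b hb) x hx
          (crr_mono (image_mono seg_sub_core) hx')) hLRS (hrow2 LR) (hGD.trans hBS.D_cl)
        (hBS.D₁.mono_left hGD) ((hBS.D₂.mono_left hGD).mono_right (crr_mono tiles_sub_cores))
        hLM.one with h | ⟨B₁, hB₁I, hB₁c, Mv, hMv, hMvc, hrk⟩
      · exact absurd h hU'
      obtain ⟨κ₁, T, pr, pa, kc, cls, pv, hκB, hLT'⟩ := hLT B₁ (hB₁I.trans hIN) hB₁c.ge
      refine ⟨κ₁, fun b hb => hIT (hB₁I (hκB b hb)), hLT'.lab.mono, I, Bd, LR, Dg, G, r₀', A₀, Mv,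
        T, pr, pa, kc, cls, pv, ?_⟩
      rw [← ltl_card] at hMvc hrk
      refine
        { lr := hLR
          geo := hgeo
          card := hBdc
          I_sub := hIN
          lift := hLI
          kI := fun b hb => hB₁I (hκB b hb)
          labM := hLM
          labT := hLT'
          Mv_card := hMvc
          gam := ?_ }
      have himB : (Finset.range n).image κ₁ ⊆ B₁ := by
        intro b hb
        obtain ⟨x, hx, rfl⟩ := Finset.mem_image.1 hb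
        exact hκB x (Finset.mem_range.1 hx)
      refine rk_lift_mono (sdiff_subset_sdiff_right (KL_mono himB)) (le_trans (rk_mono _ ?_) hrk)
      refine union_subset_union_left _ ?_
      rintro z ⟨hz, hz1, hz2⟩
      refine ⟨hz, ?_⟩
      rintro v (rfl | rfl)
      · exact ⟨fun h => hz1 (Or.inl h), fun h => hz1 (Or.inr h)⟩
      · exact ⟨fun h => hz2 (Or.inl h), fun h => hz2 (Or.inr h)⟩)
  obtain ⟨κ₁, hκN, hκm, ⟨I, Bd, LR, Dg, G, r₀', A₀, Mv, T, pr, pa, kc, cls, pv, hP⟩, hV⟩ := hthin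
  -- the number of classes
  have hLRS : LR ⊆ Seg w := hP.geo.LR_sub
  have hZTLR : ZT w a n₀ Zq ⊆ LR := by
    rw [hP.lr]
    exact fun q hq => Or.inr (Or.inl hq)
  have hLRQE : LR ⊆ ZT w a n₀ Zq ∪ NrB w Bd := by
    rw [hP.lr]
    exact union_subset (fun q hq => Or.inl (Or.inl hq)) subset_rfl
  have hNr := NrB_card (w := w) Bd
  have hNrc : (NrB w Bd).ncard ≤ A' * (L' + 1) ^ 0 * (w + (LtL m R (ZT w a n₀ Zq)).card) := by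
    rw [pow_zero, mul_one]
    refine hNr.2.trans ?_
    calc 196 * Bd.card ≤ 196 * (A * (w + (LtL m R (ZT w a n₀ Zq)).card)) :=
          Nat.mul_le_mul_left _ hP.card
      _ = 196 * A * (w + (LtL m R (ZT w a n₀ Zq)).card) := by ring
      _ ≤ A' * (w + (LtL m R (ZT w a n₀ Zq)).card) :=
          Nat.mul_le_mul_right _ (by omega)
  have hkc1 := hP.kc_le hBS hV (by
    have h1 : m * (ρ + m + m * (2 * k) + m + u₂ + 2 * m) ≤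
        mmax * (ρ + mmax + mmax * (2 * k) + mmax + κ' + 2 * mmax) := by
      refine Nat.mul_le_mul hmm' ?_
      have h2 : m * (2 * k) ≤ mmax * (2 * k) := Nat.mul_le_mul_right _ hmm'
      omega
    omega)
  rw [hσ] at hkc1
  have hkc : η * kc ≤ w ^ 2 := hNumH.kc (C := Cγ) (by omega) hDens.d hzt hNr.1 hNrc hLRS hLRQE
    (t := t) (σ₂ := σ₂) (by omega) (by omega) (by omega) hP.Mv_card hkc1
  -- the output
  have hV' : ∀ i < m, R i ∉ LR → R i ∈ Seg w \ LR := fun i hi h => ⟨hBS.row i hi, h⟩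
  have hLab := hP.labT.lab
  obtain ⟨f₁'', hO⟩ := honOut_conT hBS hP.geo (n := n) (κ := κ₁) hκm hκN hP.labT.T_D hP.labT.rg
    hLab.chn (kc := kc) (cls := cls) (pv := pv) (fun i hi h => hLab.cls_lt i hi (hV' i hi h)) (by
      intro k' hk'
      obtain ⟨v, v', h⟩ := hLab.priv k' hk'
      exact ⟨v, v', fun i hi h1 h2 => h i hi (hV' i hi h1) h2⟩) (by
      intro i hi j hj h1 h2 h3 h4
      refine (Relation.ReflTransGen.mono ?_) _ _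
        (hLab.conn i hi j hj (hV' i hi h1) (hV' j hj h2) h3 h4)
      rintro x y ⟨⟨hx, hxR⟩, ⟨hy, hyR⟩, hxy, hseen⟩
      exact ⟨⟨hx, hxR.2⟩, ⟨hy, hyR.2⟩, hxy, hseen⟩) hZTLR
    (hP.lift.lift hBS hZqS (Zq_sub_ZT hZqS) (fun q hq h => Or.inr ⟨hq, h⟩) hP.kI hP.labT.T_D
      hP.labT.two) hkc
  have h00 : ∀ σ : Bool × ℕ × ℕ, shS 0 0 σ = σ := shS_zero
  refine ⟨M' ／ unus m N n R c' κ₁ (ZT w a n₀ Zq), (Finset.range n).image fun b => τ' (κ₁ b),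
    lrem L₁' (unus m N n R c' κ₁ (ZT w a n₀ Zq)), f₁'', e₁', u₁', L₂, f₂, u₂, m,
    fun b => τ' (κ₁ b), R, fun i b => c' i (κ₁ b), a, n₀, Zq, LR, T, fun t => pr t false,
    fun t => pr t true, fun t => pa t false, fun t => pa t true, kc, cls, pv, 0, 0, w,
    (con_minor M' _).trans hM'M, ?_, hu1, hu2, hDens.b, by omega, ?_, ?_, hO.fewer (by omega)⟩
  · intro x hx
    obtain ⟨b, hb, rfl⟩ := Finset.mem_image.1 hx
    exact h𝒯' (hBS.tau _ (hκN b (Finset.mem_range.1 hb)))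
  · rintro _ ⟨q, hq, rfl⟩
    rw [h00]
    exact hq
  · intro q hq x hx
    rw [h00]
    exact hL₁' q hq x (mem_lrem.1 hx).1

end TSH
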