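import Mathlib

/-!
# Classes of a symmetric relation on finitely many labels (label level of T*, helper88)
-/

set_option autoImplicit false

open Set

namespace TST

/-- **Classes.** -/
theorem exists_classes {m : ℕ} {Lb : Set ℕ} (hLb : ∀ i ∈ Lb, i < m) {Adj : ℕ → ℕ → Prop}
    (hsym : ∀ i j, Adj i j → Adj j i) :
    ∃ (kc : ℕ) (cls : ℕ → ℕ), (∀ i ∈ Lb, cls i < kc) ∧ (∀ k < kc, ∃ i ∈ Lb, cls i = k) ∧
      ∀ i ∈ Lb, ∀ j ∈ Lb, (cls i = cls j ↔ Relation.ReflTransGen Adj i j) := by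
  classical
  obtain ⟨Cn, hCn⟩ : ∃ Cn : ℕ → ℕ → Prop, Cn = Relation.ReflTransGen Adj := ⟨_, rfl⟩
  have Cs : ∀ {i j}, Cn i j → Cn j i := by
    intro i j hij
    rw [hCn] at hij ⊢
    induction hij with
    | refl => exact Relation.ReflTransGen.refl
    | tail _ h5 ih => exact Relation.ReflTransGen.head (hsym _ _ h5) ih
  have Ct : ∀ {i j k}, Cn i j → Cn j k → Cn i k := by
    intro i j k h4 h5
    rw [hCn] at *
    exact h4.trans h5
  have Cr : ∀ i, Cn i i := fun i => by rw [hCn]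
  rw [← hCn]
  obtain ⟨rep, hrep⟩ : ∃ rep : ℕ → ℕ, rep = fun i => sInf {j | j ∈ Lb ∧ Cn i j} := ⟨_, rfl⟩
  have rep_mem : ∀ i ∈ Lb, rep i ∈ Lb ∧ Cn i (rep i) := by
    intro i hi
    have h4 : sInf {j | j ∈ Lb ∧ Cn i j} ∈ {j | j ∈ Lb ∧ Cn i j} := Nat.sInf_mem ⟨i, hi, Cr i⟩
    rw [hrep]
    exact h4
  have rep_eq : ∀ i j, Cn i j → rep i = rep j := by
    intro i j hij
    rw [hrep]
    have h4 : {k | k ∈ Lb ∧ Cn i k} = {k | k ∈ Lb ∧ Cn j k} := by
      ext k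
      exact ⟨fun h5 => ⟨h5.1, Ct (Cs hij) h5.2⟩, fun h5 => ⟨h5.1, Ct hij h5.2⟩⟩
    show sInf {k | k ∈ Lb ∧ Cn i k} = sInf {k | k ∈ Lb ∧ Cn j k}
    rw [h4]
  obtain ⟨reps, hreps⟩ : ∃ reps : Finset ℕ, reps =
    ((Finset.range m).filter fun i => i ∈ Lb).image rep := ⟨_, rfl⟩
  have mreps : ∀ i ∈ Lb, rep i ∈ reps := by
    intro i hi
    rw [hreps]
    exact Finset.mem_image_of_mem _ (Finset.mem_filter.2 ⟨Finset.mem_range.2 (hLb i hi), hi⟩)
  have mreps' : ∀ x ∈ reps, ∃ i ∈ Lb, rep i = x := by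
    intro x hx
    rw [hreps, Finset.mem_image] at hx
    obtain ⟨i, hi, hir⟩ := hx
    rw [Finset.mem_filter] at hi
    exact ⟨i, hi.2, hir⟩
  obtain ⟨F, hFd⟩ : ∃ F : ℕ → ℕ, F = fun r => if hh : r ∈ reps then (reps.equivFin ⟨r, hh⟩).val
    else 0 := ⟨_, rfl⟩
  have Fv : ∀ r (hr : r ∈ reps), F r = (reps.equivFin ⟨r, hr⟩).val := by
    intro r hr
    rw [hFd]
    simp only [hr, dif_pos]
  refine ⟨reps.card, fun i => F (rep i), ?_, ?_, ?_⟩
  · intro i hi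
    show F (rep i) < reps.card
    rw [Fv _ (mreps i hi)]
    exact (reps.equivFin ⟨rep i, mreps i hi⟩).isLt
  · intro k hk
    obtain ⟨r, hr⟩ : ∃ r, reps.equivFin r = ⟨k, hk⟩ := reps.equivFin.surjective _
    obtain ⟨i, hi, hir⟩ := mreps' r.1 r.2
    refine ⟨i, hi, ?_⟩
    show F (rep i) = k
    rw [Fv _ (mreps i hi)]
    have h5 : (⟨rep i, mreps i hi⟩ : {x // x ∈ reps}) = r := Subtype.ext hir
    rw [h5, hr]
  · intro i hi j hj
    constructor
    · intro heq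
      have heq' : F (rep i) = F (rep j) := heq
      rw [Fv _ (mreps i hi), Fv _ (mreps j hj)] at heq'
      have h4 := reps.equivFin.injective (Fin.ext heq')
      have h5 : rep i = rep j := congrArg Subtype.val h4
      have h6 := (rep_mem i hi).2
      rw [h5] at h6
      exact Ct h6 (Cs (rep_mem j hj).2)
    · intro h
      show F (rep i) = F (rep j)
      rw [rep_eq i j h]

end TST
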