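import Pool.Agent.TST.SheetsR

/-!
# Row HC of the host of T*: hubs on few rows, or fins
-/

open Set Relation

namespace TST

variable {J β : Type*}

/-- A connected set on at most `τ` rows with `t` neighbours on different other rows. -/
def HubB (G : SimpleGraph J) (R : J → β) (τ t : ℕ) : Prop :=
  ∃ (T : Finset J) (v : Fin t → J), T.Nonempty ∧ (R '' (T : Set J)).ncard ≤ τ ∧
    Function.Injective (fun i => R (v i)) ∧ (∀ i, ∀ x ∈ T, R x ≠ R (v i)) ∧
    (∀ x ∈ T, ∀ y ∈ T, ReflTransGen (fun a b => G.Adj a b ∧ a ∈ T ∧ b ∈ T) x y) ∧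
    ∀ i, ∃ x ∈ T, G.Adj x (v i)

/-- A path on more than `τ` rows with `t` neighbours outside, attached at positions `≥ t`. -/
def Fins (G : SimpleGraph J) (R : J → β) (τ t : ℕ) : Prop :=
  ∃ (n : ℕ) (p : ℕ → J) (w : Fin t → J) (a : Fin t → ℕ),
    (∀ i, i + 1 < n → G.Adj (p i) (p (i + 1))) ∧
    (∀ i j, i < n → j < n → p i = p j → i = j) ∧ τ < (R '' (p '' {i | i < n})).ncard ∧
    Function.Injective w ∧ (∀ i, ∀ j < n, w i ≠ p j) ∧
    ∀ i, t ≤ a i ∧ a i < n ∧ G.Adj (p (a i)) (w i)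

/-- A rooted tree on `T` with leaves `V`. -/
structure HcTr (G : SimpleGraph J) (x₀ : J) (T V : Finset J) (par : J → J) (dep : J → ℕ) :
    Prop where
  root : x₀ ∈ T
  dep0 : dep x₀ = 0
  par0 : par x₀ = x₀
  disj : ∀ v ∈ V, v ∉ T
  step : ∀ y, y ∈ T ∨ y ∈ V → y ≠ x₀ → par y ∈ T ∧ G.Adj (par y) y ∧ dep (par y) + 1 = dep y

/-- the path from `v` to the root -/
def HcPa (par : J → J) (v : J) : Set J := {y | ∃ n, par^[n] v = y}

lemma exists_hcTr [Fintype J] (G : SimpleGraph J) {T V : Finset J} {x₀ : J} (hx : x₀ ∈ T)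
    (hVT : ∀ v ∈ V, v ∉ T)
    (hc : ∀ x ∈ T, ∀ y ∈ T, ReflTransGen (fun a b => G.Adj a b ∧ a ∈ T ∧ b ∈ T) x y)
    (hV : ∀ v ∈ V, ∃ u ∈ T, G.Adj u v) :
    ∃ (par : J → J) (dep : J → ℕ), HcTr G x₀ T V par dep := by
  classical
  obtain ⟨G', hG'⟩ : ∃ G' : SimpleGraph J, ∀ a b, G'.Adj a b ↔ (G.Adj a b ∧ a ∈ T ∧ b ∈ T) :=
    ⟨{ Adj := fun a b => G.Adj a b ∧ a ∈ T ∧ b ∈ T
       symm := ⟨fun _ _ h => ⟨h.1.symm, h.2.2, h.2.1⟩⟩
       loopless := ⟨fun _ h => G.irrefl h.1⟩ }, fun _ _ => Iff.rfl⟩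
  have hreach : ∀ y ∈ T, G'.Reachable x₀ y := by
    intro y hy
    have h1 := hc x₀ hx y hy
    have : ∀ z, ReflTransGen (fun a b => G.Adj a b ∧ a ∈ T ∧ b ∈ T) x₀ z → G'.Reachable x₀ z := by
      intro z hz
      induction hz with
      | refl => exact SimpleGraph.Reachable.refl _
      | tail _ h2 ih => exact ih.trans (SimpleGraph.Adj.reachable ((hG' _ _).2 h2))
    exact this y h1
  have hp : ∀ y, ∃ u, (y ∈ T → y ≠ x₀ → u ∈ T ∧ G.Adj u y ∧ G'.dist x₀ u + 1 = G'.dist x₀ y) ∧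
      (y ∈ V → u ∈ T ∧ G.Adj u y) ∧ (y = x₀ → u = x₀) := by
    intro y
    by_cases h1 : y = x₀
    · refine ⟨x₀, fun _ h => absurd h1 h, fun h => ?_, fun _ => rfl⟩
      rw [h1] at h
      exact absurd hx (hVT _ h)
    by_cases h2 : y ∈ T
    · have h3 := hreach y h2
      obtain ⟨n, hn⟩ : ∃ n, G'.dist x₀ y = n + 1 := by
        refine Nat.exists_eq_succ_of_ne_zero fun h => h1 ?_
        exact (h3.dist_eq_zero_iff.1 h).symm
      obtain ⟨u, hu, hu'⟩ := exists_par G' h3 hn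
      have h4 := (hG' _ _).1 hu
      exact ⟨u, fun _ _ => ⟨h4.2.1, h4.1, by omega⟩, fun h => absurd h2 (hVT _ h),
        fun h => absurd h h1⟩
    · by_cases h3 : y ∈ V
      · obtain ⟨u, hu, hu'⟩ := hV y h3
        exact ⟨u, fun h => absurd h h2, fun _ => ⟨hu, hu'⟩, fun h => absurd h h1⟩
      · exact ⟨y, fun h => absurd h h2, fun h => absurd h h3, fun h => h⟩
  choose par hpar1 hpar2 hpar3 using hp
  refine ⟨par, fun y => if y ∈ T then G'.dist x₀ y else G'.dist x₀ (par y) + 1, hx, ?_,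
    hpar3 x₀ rfl, hVT, ?_⟩
  · simp [hx]
  · intro y hy hyx
    by_cases h1 : y ∈ T
    · obtain ⟨h2, h3, h4⟩ := hpar1 y h1 hyx
      refine ⟨h2, h3, ?_⟩
      simp only [h1, h2, if_true]
      exact h4
    · have h2 := hy.resolve_left h1
      obtain ⟨h3, h4⟩ := hpar2 y h2
      refine ⟨h3, h4, ?_⟩
      simp only [h1, h3, if_true, if_false]

namespace HcTr

variable {G : SimpleGraph J} {x₀ : J} {T V : Finset J} {par : J → J} {dep : J → ℕ}

lemma iter (h : HcTr G x₀ T V par dep) {v : J} (hv : v ∈ T ∨ v ∈ V) (n : ℕ) :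
    (par^[n] v ∈ T ∨ par^[n] v ∈ V) ∧ dep (par^[n] v) = dep v - n ∧
      (1 ≤ n → par^[n] v ∈ T) := by
  induction n with
  | zero => exact ⟨hv, by simp, by omega⟩
  | succ n ih =>
    rw [Function.iterate_succ_apply']
    obtain ⟨h1, h2, h3⟩ := ih
    by_cases h4 : par^[n] v = x₀
    · rw [h4, h.par0]
      have h5 := h.dep0
      rw [h4] at h2
      exact ⟨Or.inl h.root, by omega, fun _ => h.root⟩
    · obtain ⟨h5, _, h6⟩ := h.step _ h1 h4
      exact ⟨Or.inl h5, by omega, fun _ => h5⟩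

lemma dep_pos (h : HcTr G x₀ T V par dep) {v : J} (hv : v ∈ T ∨ v ∈ V) (hne : v ≠ x₀) :
    0 < dep v := by
  have := (h.step v hv hne).2.2
  omega

lemma eq_root (h : HcTr G x₀ T V par dep) {v : J} (hv : v ∈ T ∨ v ∈ V) (h0 : dep v = 0) :
    v = x₀ := by
  by_contra hne
  have := h.dep_pos hv hne
  omega

lemma iter_big (h : HcTr G x₀ T V par dep) {v : J} (hv : v ∈ T ∨ v ∈ V) {n : ℕ}
    (hn : dep v ≤ n) : par^[n] v = x₀ := by
  obtain ⟨h1, h2, _⟩ := h.iter hv n
  exact h.eq_root h1 (by omega)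

lemma pa_refl (v : J) : v ∈ HcPa par v := ⟨0, rfl⟩

lemma pa_trans {a b c : J} (h : a ∈ HcPa par b) (h' : b ∈ HcPa par c) : a ∈ HcPa par c := by
  obtain ⟨k, rfl⟩ := h
  obtain ⟨l, rfl⟩ := h'
  exact ⟨k + l, by rw [Function.iterate_add_apply]⟩

lemma pa_par (v : J) : par v ∈ HcPa par v := ⟨1, rfl⟩

lemma pa_mem (h : HcTr G x₀ T V par dep) {v y : J} (hv : v ∈ T ∨ v ∈ V) (hy : y ∈ HcPa par v) :
    y ∈ T ∨ y ∈ V := by
  obtain ⟨n, rfl⟩ := hy
  exact (h.iter hv n).1

lemma pa_dep (h : HcTr G x₀ T V par dep) {v y : J} (hv : v ∈ T ∨ v ∈ V) (hy : y ∈ HcPa par v) :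
    dep y ≤ dep v := by
  obtain ⟨n, rfl⟩ := hy
  have := (h.iter hv n).2.1
  omega

lemma pa_eq (h : HcTr G x₀ T V par dep) {v y : J} (hv : v ∈ T ∨ v ∈ V) (hy : y ∈ HcPa par v) :
    par^[dep v - dep y] v = y := by
  obtain ⟨n, rfl⟩ := hy
  obtain ⟨h1, h2, _⟩ := h.iter hv n
  by_cases hn : n ≤ dep v
  · congr 1
    rw [h2, show dep v - (dep v - n) = n by omega]
  · rw [h.iter_big hv (by omega : dep v ≤ n), h.iter_big hv]
    rw [h.dep0]
    omega

/-- the path of a leaf or of an inner vertex: case distinction at the vertex below -/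
lemma pa_child (h : HcTr G x₀ T V par dep) {v x : J} (hv : v ∈ T ∨ v ∈ V) (hx : x ∈ HcPa par v)
    (hne : v ≠ x) : ∃ y, (y ∈ T ∨ y ∈ V) ∧ y ≠ x₀ ∧ par y = x ∧ y ∈ HcPa par v := by
  classical
  have hx' : ∃ n, par^[n] v = x := hx
  have h1 := Nat.find_spec hx'
  obtain ⟨m, hm⟩ : ∃ m, Nat.find hx' = m + 1 := by
    refine Nat.exists_eq_succ_of_ne_zero fun h2 => hne ?_
    rw [h2] at h1
    exact h1
  rw [hm, Function.iterate_succ_apply'] at h1
  refine ⟨par^[m] v, (h.iter hv m).1, ?_, h1, m, rfl⟩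
  intro h2
  rw [h2, h.par0] at h1
  exact Nat.find_min hx' (m := m) (by omega) (h2.trans h1)

end HcTr

section

variable {G : SimpleGraph J} {x₀ : J} {T V : Finset J} {par : J → J} {dep : J → ℕ}

/-! ### Paths on few rows -/

/-- the bound -/
def hcF (τ t₁ : ℕ) : ℕ → ℕ
  | 0 => τ
  | m + 1 => τ + t₁ * hcF τ t₁ m

/-- the first exit from the rows of `ρ` -/
lemma hc_exit (h : HcTr G x₀ T V par dep) {R : J → β} {ρ : Finset β} (hρ : R x₀ ∈ ρ) {v : J}
    (hv : v ∈ T ∨ v ∈ V) (hR : R v ∉ ρ) :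
    ∃ y, y ∈ HcPa par v ∧ R y ∉ ρ ∧ par y ∈ T ∧ G.Adj (par y) y ∧ ∀ n, R (par^[n] (par y)) ∈ ρ := by
  classical
  obtain ⟨D, hD⟩ : ∃ D, dep v = D := ⟨_, rfl⟩
  induction D generalizing v with
  | zero =>
    rw [h.eq_root hv hD] at hR
    exact absurd hρ hR
  | succ D ih =>
    have hne : v ≠ x₀ := by
      rintro rfl
      exact hR hρ
    obtain ⟨h1, h2, h3⟩ := h.step v hv hne
    by_cases h4 : ∀ n, R (par^[n] (par v)) ∈ ρ
    · exact ⟨v, HcTr.pa_refl v, hR, h1, h2, h4⟩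
    · push Not at h4
      obtain ⟨n, hn⟩ := h4
      -- the last vertex outside of `ρ`
      obtain ⟨m, hm1, hm2⟩ : ∃ m, R (par^[m] (par v)) ∉ ρ ∧
          ∀ m', m < m' → R (par^[m'] (par v)) ∈ ρ := by
        have hb : ∀ m, R (par^[m] (par v)) ∉ ρ → m ≤ dep (par v) := by
          intro m hm
          by_contra hcon
          rw [h.iter_big (Or.inl h1) (by omega)] at hm
          exact hm hρ
        refine ⟨Nat.findGreatest (fun m => R (par^[m] (par v)) ∉ ρ) (dep (par v)), ?_, ?_⟩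
        · exact Nat.findGreatest_spec (P := fun m => R (par^[m] (par v)) ∉ ρ) (hb n hn) hn
        · intro m' hm'
          by_contra hcon
          have := Nat.le_findGreatest (P := fun m => R (par^[m] (par v)) ∉ ρ) (hb m' hcon) hcon
          omega
      have h7 := h.iter (Or.inl h1 : par v ∈ T ∨ par v ∈ V) m
      have h8 : par^[m] (par v) ≠ x₀ := by
        intro h9
        rw [h9] at hm1
        exact hm1 hρ
      obtain ⟨h9, h10, _⟩ := h.step _ h7.1 h8
      refine ⟨par^[m] (par v), HcTr.pa_trans ⟨m, rfl⟩ (HcTr.pa_par v), hm1, h9, h10, ?_⟩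
      intro n'
      rw [← Function.iterate_succ_apply' par m, ← Function.iterate_add_apply]
      exact hm2 _ (by omega)

/-- the part of the tree on the rows of `ρ` -/
lemma hc_of_exit (h : HcTr G x₀ T V par dep) {R : J → β} {ρ : Finset β} (hρ : R x₀ ∈ ρ)
    {τ t : ℕ} (hτ : ρ.card ≤ τ) {E : Finset β} (hE : t ≤ E.card)
    (hEy : ∀ r ∈ E, ∃ y, R y = r ∧ R y ∉ ρ ∧ par y ∈ T ∧ G.Adj (par y) y ∧
      ∀ n, R (par^[n] (par y)) ∈ ρ) : HubB G R τ t := by
  classical
  obtain ⟨T', hT'⟩ : ∃ T' : Finset J, ∀ x, x ∈ T' ↔ (x ∈ T ∧ ∀ n, R (par^[n] x) ∈ ρ) :=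
    ⟨T.filter fun x => ∀ n, R (par^[n] x) ∈ ρ, fun x => Finset.mem_filter⟩
  have hx₀ : x₀ ∈ T' := by
    rw [hT']
    refine ⟨h.root, fun n => ?_⟩
    have : par^[n] x₀ = x₀ := h.iter_big (Or.inl h.root) (by rw [h.dep0]; omega)
    rw [this]
    exact hρ
  obtain ⟨F, hF⟩ : ∃ F : Finset β, F ⊆ E ∧ F.card = t := Finset.exists_subset_card_eq hE
  obtain ⟨hFE, hFc⟩ := hF
  have e : Fin t ≃ F := (Finset.equivFinOfCardEq hFc).symm
  have hy : ∀ i : Fin t, ∃ y, R y = (e i : β) ∧ R y ∉ ρ ∧ par y ∈ T ∧ G.Adj (par y) y ∧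
      ∀ n, R (par^[n] (par y)) ∈ ρ := fun i => hEy _ (hFE (e i).2)
  choose v hv1 hv2 hv3 hv4 hv5 using hy
  have hup : ∀ x ∈ T', ReflTransGen (fun a b => G.Adj a b ∧ a ∈ T' ∧ b ∈ T') x x₀ ∧
      ReflTransGen (fun a b => G.Adj a b ∧ a ∈ T' ∧ b ∈ T') x₀ x := by
    have key : ∀ n, ∀ x ∈ T', dep x = n →
        ReflTransGen (fun a b => G.Adj a b ∧ a ∈ T' ∧ b ∈ T') x x₀ ∧
        ReflTransGen (fun a b => G.Adj a b ∧ a ∈ T' ∧ b ∈ T') x₀ x := by
      intro n
      induction n with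
      | zero =>
        intro x hx hd
        rw [h.eq_root (Or.inl ((hT' x).1 hx).1) hd]
        exact ⟨ReflTransGen.refl, ReflTransGen.refl⟩
      | succ n ih =>
        intro x hx hd
        have hx' := (hT' x).1 hx
        have hne : x ≠ x₀ := by
          rintro rfl
          have := h.dep0
          omega
        obtain ⟨h1, h2, h3⟩ := h.step x (Or.inl hx'.1) hne
        have h4 : par x ∈ T' := (hT' _).2 ⟨h1, fun n => by
          have := hx'.2 (n + 1)
          rwa [Function.iterate_succ_apply] at this⟩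
        obtain ⟨h5, h6⟩ := ih (par x) h4 (by omega)
        exact ⟨ReflTransGen.head ⟨h2.symm, hx, h4⟩ h5, h6.tail ⟨h2, h4, hx⟩⟩
    exact fun x hx => key _ x hx rfl
  refine ⟨T', v, ⟨x₀, hx₀⟩, ?_, ?_, ?_, ?_, ?_⟩
  · refine le_trans ?_ hτ
    rw [← Set.ncard_coe_finset]
    refine Set.ncard_le_ncard ?_ (Finset.finite_toSet _)
    rintro _ ⟨x, hx, rfl⟩
    exact ((hT' x).1 hx).2 0
  · intro i j hij
    have hij' : R (v i) = R (v j) := hij
    rw [hv1, hv1] at hij'
    exact e.injective (Subtype.ext hij')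
  · intro i x hx hR
    exact hv2 i (hR ▸ ((hT' x).1 hx).2 0)
  · intro x hx y hy
    exact (hup x hx).1.trans (hup y hy).2
  · intro i
    exact ⟨par (v i), (hT' _).2 ⟨hv3 i, hv5 i⟩, hv4 i⟩

/-- **Case A.** -/
lemma hc_few (h : HcTr G x₀ T V par dep) {R : J → β} (hR : ∀ v ∈ V, ∀ w ∈ V, R v = R w → v = w)
    {τ t : ℕ} (m : ℕ) : ∀ (ρ : Finset β) (I : Finset J), ρ.card + m = τ → R x₀ ∈ ρ → I ⊆ V →
      (∀ v ∈ I, (R '' HcPa par v).Finite ∧ (R '' HcPa par v).ncard ≤ τ ∧ (ρ : Set β) ⊆ R '' HcPa par v) →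
      hcF τ t m < I.card → HubB G R τ t := by
  classical
  induction m with
  | zero =>
    intro ρ I hc hρ hIV hI hcard
    exfalso
    unfold hcF at hcard
    have h1 : (I.filter fun v => R v ∈ ρ).card ≤ ρ.card := by
      refine Finset.card_le_card_of_injOn R (fun v hv => (Finset.mem_filter.1 hv).2) ?_
      intro v hv w hw hvw
      exact hR v (hIV (Finset.mem_filter.1 hv).1) w (hIV (Finset.mem_filter.1 hw).1) hvw
    obtain ⟨v, hv, hvρ⟩ : ∃ v ∈ I, R v ∉ ρ := by
      by_contra hcon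
      push Not at hcon
      rw [Finset.filter_true_of_mem hcon] at h1
      omega
    obtain ⟨h2, h3, h4⟩ := hI v hv
    have h5 : (insert (R v) ρ : Finset β).card ≤ (R '' HcPa par v).ncard := by
      rw [← Set.ncard_coe_finset]
      refine Set.ncard_le_ncard ?_ h2
      rw [Finset.coe_insert]
      exact insert_subset ⟨v, HcTr.pa_refl v, rfl⟩ h4
    rw [Finset.card_insert_of_notMem hvρ] at h5
    omega
  | succ m ih =>
    intro ρ I hc hρ hIV hI hcard
    rw [hcF] at hcard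
    have h1 : (I.filter fun v => R v ∈ ρ).card ≤ ρ.card := by
      refine Finset.card_le_card_of_injOn R (fun v hv => (Finset.mem_filter.1 hv).2) ?_
      intro v hv w hw hvw
      exact hR v (hIV (Finset.mem_filter.1 hv).1) w (hIV (Finset.mem_filter.1 hw).1) hvw
    obtain ⟨I', hI'⟩ : ∃ I', I' = I.filter fun v => R v ∉ ρ := ⟨_, rfl⟩
    have h2 : (I.filter fun v => R v ∈ ρ).card + I'.card = I.card := by
      rw [hI']
      exact Finset.card_filter_add_card_filter_not _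
    have hex : ∀ v, ∃ y, v ∈ I' → y ∈ HcPa par v ∧ R y ∉ ρ ∧ par y ∈ T ∧ G.Adj (par y) y ∧
        ∀ n, R (par^[n] (par y)) ∈ ρ := by
      intro v
      by_cases hv : v ∈ I'
      · have hv' := hv
        rw [hI', Finset.mem_filter] at hv'
        obtain ⟨y, hy⟩ := hc_exit h hρ (Or.inr (hIV hv'.1)) hv'.2
        exact ⟨y, fun _ => hy⟩
      · exact ⟨v, fun h => absurd h hv⟩
    choose ex hex using hex
    by_cases hE : t ≤ (I'.image fun v => R (ex v)).card
    · refine hc_of_exit h hρ (by omega) hE ?_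
      intro r hr
      obtain ⟨v, hv, rfl⟩ := Finset.mem_image.1 hr
      obtain ⟨_, g2, g3, g4, g5⟩ := hex v hv
      exact ⟨ex v, rfl, g2, g3, g4, g5⟩
    · push Not at hE
      obtain ⟨r, hr, hr'⟩ := Finset.exists_lt_card_fiber_of_mul_lt_card_of_maps_to
        (s := I') (t := I'.image fun v => R (ex v)) (f := fun v => R (ex v))
        (n := hcF τ t m) (fun v hv => Finset.mem_image_of_mem _ hv) (by
          calc (I'.image fun v => R (ex v)).card * hcF τ t m ≤ t * hcF τ t m :=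
                Nat.mul_le_mul_right _ hE.le
            _ < I'.card := by omega)
      have hrρ : r ∉ ρ := by
        obtain ⟨v, hv, rfl⟩ := Finset.mem_image.1 hr
        exact (hex v hv).2.1
      refine ih (insert r ρ) _ ?_ (Finset.mem_insert_of_mem hρ) ?_ ?_ hr'
      · rw [Finset.card_insert_of_notMem hrρ]
        omega
      · intro v hv
        have hv1 := (Finset.mem_filter.1 hv).1
        rw [hI', Finset.mem_filter] at hv1
        exact hIV hv1.1
      · intro v hv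
        obtain ⟨hv1, hv2⟩ := Finset.mem_filter.1 hv
        have hv3 := hv1
        rw [hI', Finset.mem_filter] at hv3
        obtain ⟨g1, g2, g3⟩ := hI v hv3.1
        refine ⟨g1, g2, ?_⟩
        rw [Finset.coe_insert]
        refine insert_subset ?_ g3
        exact ⟨ex v, (hex v hv1).1, hv2⟩

/-! ### Many paths -/

/-- **The heavy path.** -/
lemma hc_heavy (h : HcTr G x₀ T V par dep) {I : Finset J} (hI : I ⊆ V) {D : ℕ}
    (hD : ∀ y, y ∈ T ∨ y ∈ V → dep y ≤ D) (k : ℕ) :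
    ∀ x, x ∈ T ∨ x ∈ V → D ≤ dep x + k → ∀ L : Finset J, (∀ v, v ∈ L ↔ (v ∈ I ∧ x ∈ HcPa par v)) →
      L.Nonempty → ∃ v ∈ L, ∃ W : Finset J, (∀ w ∈ W, (w ∈ T ∨ w ∈ V) ∧ w ≠ x₀ ∧
        par w ∈ HcPa par v ∧ x ∈ HcPa par (par w) ∧ w ∉ HcPa par v) ∧ L.card ≤ 2 ^ W.card := by
  classical
  induction k with
  | zero =>
    intro x hx hk L hL hne
    obtain ⟨v, hv⟩ := hne
    have hv' := (hL v).1 hv
    have key : ∀ w ∈ L, w = x := by
      intro w hw
      have hw' := (hL w).1 hw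
      by_contra hcon
      obtain ⟨y, h1, h2, h3, h4⟩ := h.pa_child (Or.inr (hI hw'.1)) hw'.2 hcon
      have h5 := (h.step y h1 h2).2.2
      rw [h3] at h5
      have := hD y h1
      omega
    refine ⟨v, hv, ∅, by simp, ?_⟩
    rw [Finset.card_empty, pow_zero, Finset.card_le_one]
    intro a ha b hb
    rw [key a ha, key b hb]
  | succ k ih =>
    intro x hx hk L hL hne
    by_cases hxV : x ∈ V
    · have key : ∀ w ∈ L, w = x := by
        intro w hw
        have hw' := (hL w).1 hw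
        by_contra hcon
        obtain ⟨y, h1, h2, h3, h4⟩ := h.pa_child (Or.inr (hI hw'.1)) hw'.2 hcon
        have h5 := (h.step y h1 h2).1
        rw [h3] at h5
        exact h.disj x hxV h5
      obtain ⟨v, hv⟩ := hne
      refine ⟨v, hv, ∅, by simp, ?_⟩
      rw [Finset.card_empty, pow_zero, Finset.card_le_one]
      intro a ha b hb
      rw [key a ha, key b hb]
    · have hxT : x ∈ T := hx.resolve_right hxV
      -- the leaves below a vertex
      obtain ⟨Ls, hLs⟩ : ∃ Ls : J → Finset J, ∀ y v, v ∈ Ls y ↔ (v ∈ I ∧ y ∈ HcPa par v) :=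
        ⟨fun y => I.filter fun v => y ∈ HcPa par v, fun y v => Finset.mem_filter⟩
      obtain ⟨C, hC⟩ : ∃ C : Finset J, ∀ y, y ∈ C ↔ ((y ∈ T ∨ y ∈ V) ∧ y ≠ x₀ ∧ par y = x ∧
          (Ls y).Nonempty) :=
        ⟨(T ∪ V).filter fun y => y ≠ x₀ ∧ par y = x ∧ (Ls y).Nonempty, fun y => by
          rw [Finset.mem_filter, Finset.mem_union]⟩
      have hchild : ∀ v ∈ L, ∃ y ∈ C, v ∈ Ls y := by
        intro v hv
        have hv' := (hL v).1 hv
        have hvx : v ≠ x := by
          rintro rfl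
          exact h.disj _ (hI hv'.1) hxT
        obtain ⟨y, h1, h2, h3, h4⟩ := h.pa_child (Or.inr (hI hv'.1)) hv'.2 hvx
        have h5 : v ∈ Ls y := (hLs y v).2 ⟨hv'.1, h4⟩
        exact ⟨y, (hC y).2 ⟨h1, h2, h3, ⟨v, h5⟩⟩, h5⟩
      have hCne : C.Nonempty := by
        obtain ⟨v, hv⟩ := hne
        obtain ⟨y, hy, _⟩ := hchild v hv
        exact ⟨y, hy⟩
      obtain ⟨y, hy, hmax⟩ := Finset.exists_max_image C (fun y => (Ls y).card) hCne
      obtain ⟨h1, h2, h3, h4⟩ := (hC y).1 hy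
      have h5 := (h.step y h1 h2).2.2
      rw [h3] at h5
      obtain ⟨v, hv, W, hW, hcard⟩ := ih y h1 (by omega) (Ls y) (hLs y) h4
      have hv' := (hLs y v).1 hv
      have hvm : v ∈ T ∨ v ∈ V := Or.inr (hI hv'.1)
      have hxv : x ∈ HcPa par v := by
        rw [← h3]
        exact HcTr.pa_trans (HcTr.pa_par y) hv'.2
      have hdisj : Disjoint W (C.erase y) := by
        rw [Finset.disjoint_left]
        intro w hw hw'
        obtain ⟨g1, g2, _, g4, _⟩ := hW w hw
        have g5 := ((hC w).1 (Finset.mem_of_mem_erase hw')).2.2.1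
        rw [g5] at g4
        have := h.pa_dep hx g4
        omega
      refine ⟨v, (hL v).2 ⟨hv'.1, hxv⟩, W ∪ C.erase y, ?_, ?_⟩
      · intro w hw
        rcases Finset.mem_union.1 hw with hw | hw
        · obtain ⟨g1, g2, g3, g4, g5⟩ := hW w hw
          refine ⟨g1, g2, g3, ?_, g5⟩
          rw [← h3]
          exact HcTr.pa_trans (HcTr.pa_par y) g4
        · obtain ⟨g0, g1⟩ := Finset.mem_erase.1 hw
          obtain ⟨g2, g3, g4, _⟩ := (hC w).1 g1
          refine ⟨g2, g3, by rw [g4]; exact hxv, by rw [g4]; exact HcTr.pa_refl x, ?_⟩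
          intro g5
          have g6 := (h.step w g2 g3).2.2
          rw [g4] at g6
          have g7 := h.pa_eq hvm g5
          have g8 := h.pa_eq hvm hv'.2
          rw [← g6, h5] at g7
          exact g0 (g7.symm.trans g8)
      · rw [Finset.card_union_of_disjoint hdisj, Finset.card_erase_of_mem hy, pow_add]
        have hc1 : L.card ≤ C.card * (Ls y).card := by
          have g1 : L ⊆ C.biUnion Ls := by
            intro v hv
            obtain ⟨y, hy, hvy⟩ := hchild v hv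
            exact Finset.mem_biUnion.2 ⟨y, hy, hvy⟩
          exact (Finset.card_le_card g1).trans (Finset.card_biUnion_le_card_mul _ _ _ hmax)
        have hc2 : C.card ≤ 2 ^ (C.card - 1) := by
          have hpos : 0 < C.card := hCne.card_pos
          have := Nat.lt_two_pow_self (n := C.card - 1)
          omega
        calc L.card ≤ C.card * (Ls y).card := hc1
          _ ≤ 2 ^ (C.card - 1) * 2 ^ W.card := Nat.mul_le_mul hc2 hcard
          _ = 2 ^ W.card * 2 ^ (C.card - 1) := Nat.mul_comm _ _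

/-- **Case B.** -/
lemma hc_many [Fintype J] (h : HcTr G x₀ T V par dep) {R : J → β} {τ t : ℕ}
    (ht : 2 * t ≤ τ) {I : Finset J} (hI : I ⊆ V) (hne : I.Nonempty)
    (hR : ∀ v ∈ I, τ < (R '' HcPa par v).ncard) (hc : 2 ^ (2 * t) ≤ I.card) : Fins G R τ t := by
  classical
  obtain ⟨D, hD⟩ : ∃ D, ∀ y : J, dep y ≤ D :=
    ⟨Finset.univ.sup dep, fun v => Finset.le_sup (f := dep) (Finset.mem_univ v)⟩
  obtain ⟨v, hv, W, hW, hcard⟩ := hc_heavy h hI (D := D) (fun y _ => hD y) D x₀ (Or.inl h.root)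
    (by omega) I (fun v => ⟨fun hv => ⟨hv, dep v, h.iter_big (Or.inr (hI hv)) le_rfl⟩,
      fun hv => hv.1⟩) hne
  have hvm : v ∈ T ∨ v ∈ V := Or.inr (hI hv)
  have hWc : 2 * t ≤ W.card := (Nat.pow_le_pow_iff_right (by norm_num : 1 < 2)).1 (hc.trans hcard)
  have hpath : HcPa par v = (fun j => par^[j] v) '' {j | j < dep v + 1} := by
    ext y
    constructor
    · intro hy
      refine ⟨dep v - dep y, ?_, h.pa_eq hvm hy⟩
      show dep v - dep y < dep v + 1
      omega
    · rintro ⟨j, _, rfl⟩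
      exact ⟨j, rfl⟩
  have hpath' : HcPa par v = (fun j => par^[dep v - j] v) '' {j | j < dep v + 1} := by
    ext y
    constructor
    · intro hy
      refine ⟨dep y, ?_, h.pa_eq hvm hy⟩
      show dep y < dep v + 1
      have := h.pa_dep hvm hy
      omega
    · rintro ⟨j, _, rfl⟩
      exact ⟨dep v - j, rfl⟩
  have hlen : τ < dep v + 1 := by
    refine (hR v hv).trans_le ?_
    rw [hpath, Set.image_image]
    refine (Set.ncard_image_le (Set.finite_lt_nat _)).trans ?_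
    rw [show {j | j < dep v + 1} = ((Finset.range (dep v + 1) : Finset ℕ) : Set ℕ) by
      ext j; simp, Set.ncard_coe_finset, Finset.card_range]
  have hadj : ∀ j, j < dep v → G.Adj (par^[j + 1] v) (par^[j] v) := by
    intro j hj
    rw [Function.iterate_succ_apply']
    obtain ⟨h1, h2, _⟩ := h.iter hvm j
    refine (h.step _ h1 ?_).2.1
    intro h3
    rw [h3, h.dep0] at h2
    omega
  have hinj : ∀ i j, i < dep v + 1 → j < dep v + 1 → par^[i] v = par^[j] v → i = j := by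
    intro i j hi hj hij
    have h1 := (h.iter hvm i).2.1
    have h2 := (h.iter hvm j).2.1
    rw [hij] at h1
    omega
  by_cases hhigh : t ≤ (W.filter fun w => t ≤ dep (par w)).card
  · obtain ⟨W', hW', hW'c⟩ := Finset.exists_subset_card_eq hhigh
    have e : Fin t ≃ W' := (Finset.equivFinOfCardEq hW'c).symm
    have hmem : ∀ i : Fin t, (e i : J) ∈ W ∧ t ≤ dep (par (e i : J)) := fun i =>
      Finset.mem_filter.1 (hW' (e i).2)
    refine ⟨dep v + 1, fun j => par^[dep v - j] v, fun i => (e i : J), fun i => dep (par (e i : J)),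
      ?_, ?_, ?_, ?_, ?_, ?_⟩
    · intro i hi
      have h1 := hadj (dep v - (i + 1)) (by omega)
      rw [show dep v - (i + 1) + 1 = dep v - i by omega] at h1
      exact h1
    · intro i j hi hj hij
      have := hinj _ _ (by omega) (by omega) hij
      omega
    · rw [← hpath']
      exact hR v hv
    · intro i j hij
      exact e.injective (Subtype.ext hij)
    · intro i j _ hij
      exact (hW _ (hmem i).1).2.2.2.2 ⟨dep v - j, hij.symm⟩
    · intro i
      obtain ⟨g1, g2, g3, _, _⟩ := hW _ (hmem i).1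
      refine ⟨(hmem i).2, ?_, ?_⟩
      · have := h.pa_dep hvm g3
        show dep (par (e i : J)) < dep v + 1
        omega
      · show G.Adj (par^[dep v - dep (par (e i : J))] v) (e i : J)
        rw [h.pa_eq hvm g3]
        exact (h.step _ g1 g2).2.1
  · have hlow : t ≤ (W.filter fun w => ¬ t ≤ dep (par w)).card := by
      have := Finset.card_filter_add_card_filter_not (s := W) (fun w => t ≤ dep (par w))
      omega
    obtain ⟨W', hW', hW'c⟩ := Finset.exists_subset_card_eq hlow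
    have e : Fin t ≃ W' := (Finset.equivFinOfCardEq hW'c).symm
    have hmem : ∀ i : Fin t, (e i : J) ∈ W ∧ ¬ t ≤ dep (par (e i : J)) := fun i =>
      Finset.mem_filter.1 (hW' (e i).2)
    refine ⟨dep v + 1, fun j => par^[j] v, fun i => (e i : J),
      fun i => dep v - dep (par (e i : J)), ?_, ?_, ?_, ?_, ?_, ?_⟩
    · intro i hi
      exact (hadj i (by omega)).symm
    · intro i j hi hj hij
      exact hinj _ _ hi hj hij
    · rw [← hpath]
      exact hR v hv
    · intro i j hij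
      exact e.injective (Subtype.ext hij)
    · intro i j _ hij
      exact (hW _ (hmem i).1).2.2.2.2 ⟨j, hij.symm⟩
    · intro i
      obtain ⟨g1, g2, g3, _, _⟩ := hW _ (hmem i).1
      have g4 := (hmem i).2
      refine ⟨?_, ?_, ?_⟩
      · show t ≤ dep v - dep (par (e i : J))
        omega
      · show dep v - dep (par (e i : J)) < dep v + 1
        omega
      show G.Adj (par^[dep v - dep (par (e i : J))] v) (e i : J)
      rw [h.pa_eq hvm g3]
      exact (h.step _ g1 g2).2.1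

end

/-- **Row HC.** A hub with neighbours on many rows: a hub on few rows, or a path with fins. -/
theorem hub_cases (τ t₁ t₂ : ℕ) (h : 2 * t₂ ≤ τ) : ∃ t : ℕ, ∀ {J β : Type} [Fintype J]
    (G : SimpleGraph J) (R : J → β), HubR G R t → HubB G R τ t₁ ∨ Fins G R τ t₂ := by
  classical
  obtain ⟨B, hB⟩ : ∃ B, ∀ m ≤ τ, hcF τ t₁ m ≤ B :=
    ⟨(Finset.range (τ + 1)).sup (hcF τ t₁), fun m hm =>
      Finset.le_sup (f := hcF τ t₁) (Finset.mem_range.2 (by omega))⟩
  refine ⟨B + 2 ^ (2 * t₂) + 1, ?_⟩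
  intro J β _ G R hub
  obtain ⟨T, v, hvR, hvT, hTne, hTc, hTv⟩ := hub
  obtain ⟨x₀, hx₀⟩ := hTne
  have hvinj : Function.Injective v := fun i j hij => hvR (by
    show R (v i) = R (v j)
    rw [hij])
  obtain ⟨V, hV⟩ : ∃ V : Finset J, V = Finset.univ.image v := ⟨_, rfl⟩
  have hVm : ∀ y, y ∈ V ↔ ∃ i, v i = y := by
    intro y
    rw [hV]
    simp
  have hVc : V.card = B + 2 ^ (2 * t₂) + 1 := by
    rw [hV, Finset.card_image_of_injective _ hvinj, Finset.card_univ, Fintype.card_fin]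
  obtain ⟨par, dep, hr⟩ := exists_hcTr G (V := V) hx₀ (by
    intro y hy
    obtain ⟨i, rfl⟩ := (hVm y).1 hy
    exact hvT i) hTc (by
    intro y hy
    obtain ⟨i, rfl⟩ := (hVm y).1 hy
    exact hTv i)
  have hRV : ∀ a ∈ V, ∀ b ∈ V, R a = R b → a = b := by
    intro a ha b hb hab
    obtain ⟨i, rfl⟩ := (hVm a).1 ha
    obtain ⟨j, rfl⟩ := (hVm b).1 hb
    rw [hvR hab]
  obtain ⟨I₁, hI₁⟩ : ∃ I₁, I₁ = V.filter fun a => (R '' HcPa par a).ncard ≤ τ := ⟨_, rfl⟩
  obtain ⟨I₂, hI₂⟩ : ∃ I₂, I₂ = V.filter fun a => ¬ (R '' HcPa par a).ncard ≤ τ := ⟨_, rfl⟩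
  have hcard : I₁.card + I₂.card = V.card := by
    rw [hI₁, hI₂]
    exact Finset.card_filter_add_card_filter_not _
  have hpafin : ∀ a, (HcPa par a).Finite := fun a => Set.toFinite _
  by_cases hA : B < I₁.card
  · left
    have hne : I₁.Nonempty := Finset.card_pos.1 (by omega)
    obtain ⟨a, ha⟩ := hne
    have hmem : ∀ a ∈ I₁, a ∈ V ∧ (R '' HcPa par a).ncard ≤ τ := by
      intro a ha
      rw [hI₁] at ha
      exact Finset.mem_filter.1 ha
    have hroot : ∀ a ∈ V, x₀ ∈ HcPa par a := fun a ha => ⟨dep a, hr.iter_big (Or.inr ha) le_rfl⟩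
    have hτ : 1 ≤ τ := by
      obtain ⟨h1, h2⟩ := hmem a ha
      have h3 : 0 < (R '' HcPa par a).ncard := by
        rw [Set.ncard_pos ((hpafin a).image R)]
        exact ⟨R x₀, x₀, hroot a h1, rfl⟩
      omega
    refine hc_few hr hRV (τ - 1) {R x₀} I₁ (by rw [Finset.card_singleton]; omega)
      (Finset.mem_singleton_self _) (fun a ha => (hmem a ha).1) ?_
      (lt_of_le_of_lt (hB _ (by omega)) hA)
    intro a ha
    obtain ⟨h1, h2⟩ := hmem a ha
    refine ⟨(hpafin a).image R, h2, ?_⟩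
    rw [Finset.coe_singleton, singleton_subset_iff]
    exact ⟨x₀, hroot a h1, rfl⟩
  · right
    have hc : 2 ^ (2 * t₂) ≤ I₂.card := by omega
    have hpos : 0 < I₂.card := lt_of_lt_of_le (by positivity) hc
    refine hc_many hr h (I := I₂) ?_ (Finset.card_pos.1 hpos) ?_ hc
    · intro a ha
      rw [hI₂] at ha
      exact (Finset.mem_filter.1 ha).1
    · intro a ha
      rw [hI₂] at ha
      have := (Finset.mem_filter.1 ha).2
      omega

end TST
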