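import Pool.Agent.TST.PortC
import Pool.Agent.DA.Ground

/-!
# Lines of the strip: from the base level to the graph of the strip (helper14)

Two rungs between the same two columns and the pieces of the rows between them: this cycle is
balanced at the base level iff it is balanced after the contraction.  `port_of_ends`: ports.
-/

open Set Relation
open scoped Matroid

namespace TST

open BIC Gad EN BICS Mdl

universe u

variable {α : Type u} {X₀ β : Type}

/-- **Peeling.** -/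
theorem peel {V : Type*} {N : Matroid α} [N.Finite] {S' : Set α} {f' : α → Sym2 V}
    (hstar : ∀ v, ∀ e ∈ S', v ∈ f' e → e ∉ N.closure (ins S' f' {v}ᶜ)) {X Y : Set α} {e' : α}
    (hX : X ⊆ S') (hY : Y ⊆ S') (he' : e' ∈ S') (hYf : Y.Finite)
    (hp : ∀ Y' ⊆ Y, Y'.Nonempty → ∃ y ∈ Y', ∃ v ∈ f' y, (∀ x ∈ Y', x ≠ y → v ∉ f' x) ∧
      (∀ x ∈ X, v ∉ f' x) ∧ v ∉ f' e')
    (hcl : e' ∈ N.closure (X ∪ Y)) : e' ∈ N.closure X := by
  classical
  have key : ∀ n : ℕ, ∀ Y' ⊆ Y, Y'.ncard = n → e' ∈ N.closure (X ∪ Y') → e' ∈ N.closure X := by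
    intro n
    induction n with
    | zero =>
      intro Y' hY' hc h
      rw [(ncard_eq_zero (hYf.subset hY')).1 hc, union_empty] at h
      exact h
    | succ n ih =>
      intro Y' hY' hc h
      have hne : Y'.Nonempty := by
        rw [Set.nonempty_iff_ne_empty]
        rintro rfl
        rw [ncard_empty] at hc
        omega
      obtain ⟨y, hy, v, hv, h1, h2, h3⟩ := hp Y' hY' hne
      have hc' : (Y' \ {y}).ncard = n := by
        rw [ncard_sdiff_singleton_of_mem hy, hc]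
        rfl
      refine ih (Y' \ {y}) (sdiff_subset.trans hY') hc' ?_
      by_contra hcon
      have h4 : X ∪ Y' = insert y (X ∪ (Y' \ {y})) := by
        rw [← union_insert, insert_sdiff_singleton, insert_eq_of_mem hy]
      rw [h4] at h
      have h5 := (Matroid.closure_exchange (M := N) (X := X ∪ (Y' \ {y})) ⟨h, hcon⟩).1
      refine hstar v y (hY (hY' hy)) hv (N.closure_subset_closure ?_ h5)
      rintro x (rfl | hx | hx)
      · exact ⟨he', fun w hw hwv => h3 (by rw [mem_singleton_iff] at hwv; exact hwv ▸ hw)⟩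
      · exact ⟨hX hx, fun w hw hwv => h2 x hx (by rw [mem_singleton_iff] at hwv; exact hwv ▸ hw)⟩
      · exact ⟨hY (hY' hx.1), fun w hw hwv => h1 x hx.1 hx.2 (by
          rw [mem_singleton_iff] at hwv
          exact hwv ▸ hw)⟩
  exact key _ Y subset_rfl rfl hcl

lemma up_max {P : ℕ → Prop} {t₀ κ : ℕ} (h0 : P t₀) (h : t₀ < κ) :
    ∃ t, t₀ ≤ t ∧ t < κ ∧ P t ∧ ∀ t', t < t' → t' < κ → ¬ P t' := by
  classical
  refine ⟨Nat.findGreatest P (κ - 1), Nat.le_findGreatest (by omega) h0, ?_,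
    Nat.findGreatest_spec (by omega : t₀ ≤ κ - 1) h0, fun t' h1 h2 =>
      Nat.findGreatest_is_greatest h1 (by omega)⟩
  have := Nat.findGreatest_le (P := P) (κ - 1)
  omega

lemma down_min {P : ℕ → Prop} {t₀ κ : ℕ} (h0 : P t₀) (h : κ < t₀) :
    ∃ t, κ < t ∧ t ≤ t₀ ∧ P t ∧ ∀ t', κ < t' → t' < t → ¬ P t' := by
  classical
  have hex : ∃ t, κ < t ∧ P t := ⟨t₀, h, h0⟩
  refine ⟨Nat.find hex, (Nat.find_spec hex).1, Nat.find_min' hex ⟨h, h0⟩,
    (Nat.find_spec hex).2, fun t' h1 h2 h3 => Nat.find_min hex h2 ⟨h1, h3⟩⟩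

lemma nd_eq_inr {W : RW X₀ β} {r r' : β} {t s : ℕ} (h : W.nd r' t = Sum.inr (r, s)) :
    r' = r ∧ t = s := by
  unfold RW.nd at h
  split_ifs at h
  exact Prod.mk.inj (Sum.inr.inj h)

lemma inner_notQ {W : RW X₀ β} {BQ : Set β} {r : β} {t : ℕ} (hr : r ∉ BQ) (h0 : 0 < t)
    (h1 : t < W.len r) : W.nd r t ∉ rowV W BQ := by
  rintro ⟨r', hr', p, _, h⟩
  rw [W.nd_mid h0 h1] at h
  exact hr ((nd_eq_inr h).1 ▸ hr')

/-- the elements of a row between two nodes -/
def pcE (el : β → ℕ → α) (r : β) (p q : ℕ) : Set α :=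
  {x | ∃ t, min p q ≤ t ∧ t < max p q ∧ el r t = x}

section

variable {W : RW X₀ β} {ι : Type*} {N : ℕ}

/-- the elements of a pass -/
def passE (C : Cols W ι N) (el : β → ℕ → α) (i : ι) : Set α :=
  {e | ∃ p, C.z i 0 < p ∧ p < C.z i (2 * N + 1) ∧ el (C.R i) p = e}

variable (C : Cols W ι N)

lemma Cols.z_lt (i : ι) {b : ℕ} (hb : b ≤ 2 * N + 1) : C.z i b < W.len (C.R i) := by
  obtain ⟨c, hc, h⟩ := C.exists_z i hb
  rw [h]
  exact C.lt i c hc

lemma Cols.win_z {i : ι} {b : ℤ} {p : ℕ} (h1 : -(N : ℤ) ≤ b) (h2 : b ≤ N) (h : C.Win i b p) :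
    C.z i 0 < p ∧ p ≤ C.z i (2 * N + 1) := by
  have hx : ∀ c ≤ 2 * N + 1, C.z i 0 ≤ C.x i c ∧ C.x i c ≤ C.z i (2 * N + 1) := by
    intro c hc
    obtain ⟨c', hc', h3⟩ := C.exists_x i hc
    rw [← h3]
    exact ⟨strip_mono' (C.z_mon i) (Nat.zero_le _) hc', strip_mono' (C.z_mon i) hc' le_rfl⟩
  have h3 := hx (b + N).toNat (by omega)
  have h4 := hx (b + N + 1).toNat (by omega)
  rcases h with h | h <;> omega

lemma Cols.zK [Fintype ι] (ex : β → Finset ℕ) (i : ι) {b : ℕ} (hb : b ≤ 2 * N + 1) :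
    C.z i b ∈ C.K ex (C.R i) := by
  obtain ⟨c, hc, h⟩ := C.exists_z i hb
  exact (C.mem_K ex).2 (Or.inr ⟨i, rfl, Or.inr ⟨c, hc, h.symm⟩⟩)

end

/-- the elements of a column after the contraction -/
theorem colE_eq {W : RW X₀ β} {σ : Type} {ln : σ → ℕ} [Fintype (CI ln)] {N : ℕ}
    {C : Cols W (CI ln) N} {ex : β → Finset ℕ} {S : Set α} {ends : α → Sym2 (Nd X₀ β)}
    {el : β → ℕ → α} (hR : RowIn W S ends el) (hK : ∀ r, ∀ x ∈ C.K ex r, x < W.len r)
    {T : Strip (W.shrink (C.K ex)) (CI ln) N} (hTR : T.R = C.R) {i : CI ln}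
    (h1 : cnt (C.K ex) (C.R i) (C.z i 0) + 1 = T.a i)
    (h2 : cnt (C.K ex) (C.R i) (C.z i (2 * N + 1)) = T.a i + 2 * N + T.m i) :
    ColE (W.shrink (C.K ex)) (els (C.K ex) el) T i = passE C el i \ cel W (C.K ex) el := by
  have hT := T.lt i
  rw [hTR] at hT
  have hT' : T.a i + 2 * N + T.m i < (C.K ex (C.R i)).card := hT
  ext e
  constructor
  · rintro ⟨k, k1, k2, rfl⟩
    rw [hTR]
    have hk : k < (C.K ex (C.R i)).card := by omega
    have hkm := kth_mem hk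
    have hkc := cnt_kth (K := C.K ex) hk
    refine ⟨⟨kth (C.K ex) (C.R i) k, ?_, ?_, rfl⟩, ?_⟩
    · by_contra hcon
      have := cnt_mono (C.K ex) (C.R i) (not_lt.1 hcon)
      omega
    · by_contra hcon
      have := cnt_mono (C.K ex) (C.R i) (not_lt.1 hcon)
      omega
    · rintro ⟨r, p, hp, hpK, he⟩
      obtain ⟨rfl, rfl⟩ := hR.inj _ _ _ _ hp (hK _ _ hkm) he
      exact hpK hkm
  · rintro ⟨⟨p, p1, p2, rfl⟩, hp⟩
    have hpl : p < W.len (C.R i) := p2.trans (C.z_lt i le_rfl)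
    have hpK : p ∈ C.K ex (C.R i) := by
      by_contra hcon
      exact hp ⟨_, p, hpl, hcon, rfl⟩
    have h3 := cnt_succ_of_mem (C.zK ex i (b := 0) (by omega))
    have h4 := cnt_mono (C.K ex) (C.R i) (show C.z i 0 + 1 ≤ p by omega)
    have h5 := cnt_succ_of_mem hpK
    have h6 := cnt_mono (C.K ex) (C.R i) (show p + 1 ≤ C.z i (2 * N + 1) by omega)
    refine ⟨cnt (C.K ex) (C.R i) p, by omega, by omega, ?_⟩
    rw [hTR]
    unfold els
    rw [kth_cnt hpK]

section line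

variable {M : Matroid α} {W : RW X₀ β} {S : Set α} {ends : α → Sym2 (Nd X₀ β)} {el : β → ℕ → α}
  {BQ : Set β} {Q : Set α} {ι : Type*} [Fintype ι] {N : ℕ} {C : Cols W ι N} {ex : β → Finset ℕ}
  {i j : ι} {p q p' q' : ℕ} {e e' : α}

omit [Fintype ι] in
/-- a rung is no element of a row -/
lemma rung_ne (hR : RowIn W S ends el) (hij : i ≠ j)
    (hp : C.z i 0 < p ∧ p ≤ C.z i (2 * N + 1)) (hq : C.z j 0 < q ∧ q ≤ C.z j (2 * N + 1))
    (he : ends e = s(W.nd (C.R i) p, W.nd (C.R j) q)) : ∀ r t, t < W.len r → el r t ≠ e := by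
  rintro r t ht rfl
  rw [hR.ends r t ht] at he
  have hpl := C.z_lt i (b := 2 * N + 1) le_rfl
  have hql := C.z_lt j (b := 2 * N + 1) le_rfl
  rw [W.nd_mid (r := C.R i) (p := p) (by omega) (by omega),
    W.nd_mid (r := C.R j) (p := q) (by omega) (by omega)] at he
  rcases Sym2.eq_iff.1 he with ⟨h1, h2⟩ | ⟨h1, h2⟩
  · obtain ⟨a1, a2⟩ := nd_eq_inr h1
    obtain ⟨b1, b2⟩ := nd_eq_inr h2
    rcases C.sep_z hij (a1.symm.trans b1) with h3 | h3 <;> omega
  · obtain ⟨a1, a2⟩ := nd_eq_inr h1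
    obtain ⟨b1, b2⟩ := nd_eq_inr h2
    rcases C.sep_z hij (b1.symm.trans a1) with h3 | h3 <;> omega

omit [Fintype ι] in
/-- a rung between rows outside of `BQ` is not contracted -/
lemma rung_notQ (hR : RowIn W S ends el) (hQS : Q ∩ S ⊆ rowE W el BQ) (hij : i ≠ j)
    (hp : C.z i 0 < p ∧ p ≤ C.z i (2 * N + 1)) (hq : C.z j 0 < q ∧ q ≤ C.z j (2 * N + 1))
    (heS : e ∈ S) (he : ends e = s(W.nd (C.R i) p, W.nd (C.R j) q)) : e ∉ Q := by
  intro h
  obtain ⟨r, _, k, hk, hre⟩ := hQS ⟨h, heS⟩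
  exact rung_ne hR hij hp hq he r k hk hre

/-- **Balanced lines.** -/
theorem line_bal (hR : RowIn W S ends el) (hij : i ≠ j)
    (hp : C.z i 0 < p ∧ p ≤ C.z i (2 * N + 1)) (hq : C.z j 0 < q ∧ q ≤ C.z j (2 * N + 1))
    (hp' : C.z i 0 < p' ∧ p' ≤ C.z i (2 * N + 1)) (hq' : C.z j 0 < q' ∧ q' ≤ C.z j (2 * N + 1))
    (he' : ends e' = s(W.nd (C.R i) p', W.nd (C.R j) q'))
    (hb : e' ∈ (M ／ Q).closure (pcE el (C.R i) p p' ∪ pcE el (C.R j) q q' ∪ {e})) :
    e' ∈ ((M ／ cel W (C.K ex) el) ／ (Q \ cel W (C.K ex) el)).closure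
      (passE C el i \ cel W (C.K ex) el ∪ passE C el j \ cel W (C.K ex) el ∪ {e}) := by
  have h1 : ∀ (i : ι) (p p' : ℕ), (C.z i 0 < p ∧ p ≤ C.z i (2 * N + 1)) →
      (C.z i 0 < p' ∧ p' ≤ C.z i (2 * N + 1)) → pcE el (C.R i) p p' ⊆ passE C el i := by
    rintro i p p' hp hp' x ⟨t, h1, h2, rfl⟩
    exact ⟨t, by omega, by omega, rfl⟩
  rw [Matroid.contract_contract, Matroid.contract_closure_eq, union_sdiff_self]
  rw [Matroid.contract_closure_eq] at hb
  refine ⟨M.closure_subset_closure ?_ hb.1, ?_⟩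
  · rintro x (((hx | hx) | hx) | hx)
    · by_cases hxc : x ∈ cel W (C.K ex) el
      · exact Or.inr (Or.inl hxc)
      · exact Or.inl (Or.inl (Or.inl ⟨h1 i p p' hp hp' hx, hxc⟩))
    · by_cases hxc : x ∈ cel W (C.K ex) el
      · exact Or.inr (Or.inl hxc)
      · exact Or.inl (Or.inl (Or.inr ⟨h1 j q q' hq hq' hx, hxc⟩))
    · exact Or.inl (Or.inr hx)
    · exact Or.inr (Or.inr hx)
  · rintro (⟨r, t, ht, _, hre⟩ | h)
    · exact rung_ne hR hij hp' hq' he' r t ht hre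
    · exact hb.2 h

/-- **Unbalanced lines.** -/
theorem line_unb [M.Finite] (hR : RowIn W S ends el)
    (hFQ : FrmU (M ／ Q) (SQ (rowV W BQ) S ends) (eQ (rowV W BQ) ends) 0)
    (hQr : rowE W el BQ ⊆ Q) (hQS : Q ∩ S ⊆ rowE W el BQ) (hcolQ : ∀ i, C.R i ∉ BQ)
    (hK : ∀ r, ∀ x ∈ C.K ex r, x < W.len r) (hKn : ∀ r, (C.K ex r).Nonempty) (hij : i ≠ j)
    (hp : C.z i 0 < p ∧ p ≤ C.z i (2 * N + 1)) (hq : C.z j 0 < q ∧ q ≤ C.z j (2 * N + 1))
    (hp' : C.z i 0 < p' ∧ p' ≤ C.z i (2 * N + 1)) (hq' : C.z j 0 < q' ∧ q' ≤ C.z j (2 * N + 1))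
    (heS : e ∈ S) (he : ends e = s(W.nd (C.R i) p, W.nd (C.R j) q))
    (he'S : e' ∈ S) (he' : ends e' = s(W.nd (C.R i) p', W.nd (C.R j) q'))
    (hub : e' ∉ (M ／ Q).closure (pcE el (C.R i) p p' ∪ pcE el (C.R j) q q' ∪ {e})) :
    e' ∉ ((M ／ cel W (C.K ex) el) ／ (Q \ cel W (C.K ex) el)).closure
      (passE C el i \ cel W (C.K ex) el ∪ passE C el j \ cel W (C.K ex) el ∪ {e}) := by
  classical
  intro hcl
  rw [Matroid.contract_contract, Matroid.contract_closure_eq, union_sdiff_self] at hcl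
  have he'Q : e' ∉ Q := rung_notQ hR hQS hij hp' hq' he'S he'
  have heQ : e ∉ Q := rung_notQ hR hQS hij hp hq heS he
  have hzi := C.z_lt i (b := 2 * N + 1) le_rfl
  have hzj := C.z_lt j (b := 2 * N + 1) le_rfl
  -- touched nodes
  set Tn : β → ℕ → Prop := fun r s => (r = C.R i ∧ min p p' ≤ s ∧ s ≤ max p p') ∨
    (r = C.R j ∧ min q q' ≤ s ∧ s ≤ max q q') with hTn
  have hTni : ∀ s, C.z i 0 < s → s ≤ C.z i (2 * N + 1) → Tn (C.R i) s →
      min p p' ≤ s ∧ s ≤ max p p' := by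
    rintro s s1 s2 (⟨_, h⟩ | ⟨h0, h⟩)
    · exact h
    · exfalso
      rcases C.sep_z hij h0 with h3 | h3 <;> omega
  have hTnj : ∀ s, C.z j 0 < s → s ≤ C.z j (2 * N + 1) → Tn (C.R j) s →
      min q q' ≤ s ∧ s ≤ max q q' := by
    rintro s s1 s2 (⟨h0, h⟩ | ⟨_, h⟩)
    · exfalso
      rcases C.sep_z hij h0.symm with h3 | h3 <;> omega
    · exact h
  have hrowel : ∀ r t, t < W.len r → ∀ r' s, (Sum.inr (r', s) : Nd X₀ β) ∈ ends (el r t) →
      r = r' ∧ (t = s ∨ t + 1 = s) := by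
    intro r t ht r' s h
    rw [hR.ends r t ht, Sym2.mem_iff] at h
    rcases h with h | h
    · obtain ⟨a1, a2⟩ := nd_eq_inr h.symm
      exact ⟨a1, Or.inl a2⟩
    · obtain ⟨a1, a2⟩ := nd_eq_inr h.symm
      exact ⟨a1, Or.inr a2⟩
  set X : Set α := pcE el (C.R i) p p' ∪ pcE el (C.R j) q q' ∪ {e} with hX
  have htX : ∀ x ∈ X, ∀ r s, (Sum.inr (r, s) : Nd X₀ β) ∈ ends x → Tn r s := by
    rintro x ((⟨t, t1, t2, rfl⟩ | ⟨t, t1, t2, rfl⟩) | hx) r s hs
    · obtain ⟨rfl, h⟩ := hrowel _ t (by omega) r s hs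
      exact Or.inl ⟨rfl, by omega, by omega⟩
    · obtain ⟨rfl, h⟩ := hrowel _ t (by omega) r s hs
      exact Or.inr ⟨rfl, by omega, by omega⟩
    · rw [mem_singleton_iff] at hx
      subst hx
      rw [he, Sym2.mem_iff] at hs
      rcases hs with hs | hs
      · obtain ⟨rfl, rfl⟩ := nd_eq_inr hs.symm
        exact Or.inl ⟨rfl, by omega, by omega⟩
      · obtain ⟨rfl, rfl⟩ := nd_eq_inr hs.symm
        exact Or.inr ⟨rfl, by omega, by omega⟩
  have hte' : ∀ r s, (Sum.inr (r, s) : Nd X₀ β) ∈ ends e' → Tn r s := by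
    intro r s hs
    rw [he', Sym2.mem_iff] at hs
    rcases hs with hs | hs
    · obtain ⟨rfl, rfl⟩ := nd_eq_inr hs.symm
      exact Or.inl ⟨rfl, by omega, by omega⟩
    · obtain ⟨rfl, rfl⟩ := nd_eq_inr hs.symm
      exact Or.inr ⟨rfl, by omega, by omega⟩
  set Y : Set α := (passE C el i ∪ passE C el j ∪ cel W (C.K ex) el) \ (X ∪ Q) with hY
  -- elements of `Y`
  have hYel : ∀ y ∈ Y, ∃ r t, t < W.len r ∧ r ∉ BQ ∧ el r t = y ∧
      ((r = C.R i ∧ C.z i 0 < t ∧ t < C.z i (2 * N + 1)) ∨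
        (r = C.R j ∧ C.z j 0 < t ∧ t < C.z j (2 * N + 1)) ∨ t ∉ C.K ex r) := by
    rintro y ⟨(⟨t, t1, t2, rfl⟩ | ⟨t, t1, t2, rfl⟩) | ⟨r, t, t1, t2, rfl⟩, hy2⟩
    · exact ⟨_, t, by omega, hcolQ i, rfl, Or.inl ⟨rfl, t1, t2⟩⟩
    · exact ⟨_, t, by omega, hcolQ j, rfl, Or.inr (Or.inl ⟨rfl, t1, t2⟩)⟩
    · exact ⟨r, t, t1, fun h => hy2 (Or.inr (hQr ⟨r, h, t, t1, rfl⟩)), rfl, Or.inr (Or.inr t2)⟩
  have hYr : ∀ r t, t < W.len r → el r t ∈ Y → r ∉ BQ ∧
      ((r = C.R i ∧ C.z i 0 < t ∧ t < C.z i (2 * N + 1)) ∨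
        (r = C.R j ∧ C.z j 0 < t ∧ t < C.z j (2 * N + 1)) ∨ t ∉ C.K ex r) := by
    intro r t ht h
    obtain ⟨r', t', ht', h1, h2, h3⟩ := hYel _ h
    obtain ⟨rfl, rfl⟩ := hR.inj _ _ _ _ ht' ht h2
    exact ⟨h1, h3⟩
  have hinner : ∀ r t, t < W.len r → r ∉ BQ → 2 ≤ W.len r →
      ∃ v ∈ ends (el r t), v ∉ rowV W BQ := by
    intro r t ht hr hl
    rw [hR.ends r t ht]
    rcases Nat.eq_zero_or_pos t with rfl | h0
    · exact ⟨_, Sym2.mem_mk_right _ _, inner_notQ hr (by omega) (by omega)⟩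
    · exact ⟨_, Sym2.mem_mk_left _ _, inner_notQ hr h0 ht⟩
  have hYS : Y ⊆ SQ (rowV W BQ) S ends := by
    intro y hy
    obtain ⟨r, t, ht, hr, rfl, h⟩ := hYel y hy
    refine ⟨hR.mem r t ht, hinner r t ht hr ?_⟩
    rcases h with ⟨rfl, h1, h2⟩ | ⟨rfl, h1, h2⟩ | h
    · omega
    · omega
    · obtain ⟨κ, hκ⟩ := hKn r
      have h1 := hK r κ hκ
      by_contra h2
      have h3 : t = κ := by omega
      exact h (h3 ▸ hκ)
  have hXS : X ⊆ SQ (rowV W BQ) S ends := by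
    rintro x ((⟨t, t1, t2, rfl⟩ | ⟨t, t1, t2, rfl⟩) | hx)
    · exact ⟨hR.mem _ t (by omega), hinner _ t (by omega) (hcolQ i) (by omega)⟩
    · exact ⟨hR.mem _ t (by omega), hinner _ t (by omega) (hcolQ j) (by omega)⟩
    · rw [mem_singleton_iff] at hx
      subst hx
      exact ⟨heS, W.nd (C.R i) p, by rw [he]; exact Sym2.mem_mk_left _ _,
        inner_notQ (hcolQ i) (by omega) (by omega)⟩
  have he'SQ : e' ∈ SQ (rowV W BQ) S ends := ⟨he'S, W.nd (C.R i) p', by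
    rw [he']; exact Sym2.mem_mk_left _ _, inner_notQ (hcolQ i) (by omega) (by omega)⟩
  have hfM : (M ／ Q).Finite := ⟨M.ground_finite.subset sdiff_subset⟩
  refine hub (peel hFQ.star hXS hYS he'SQ ((M ／ Q).ground_finite.subset (hYS.trans hFQ.sub)) ?_ ?_)
  · -- peeling
    intro Y' hY' hne
    -- an untouched inner node is enough
    have hfin : ∀ r t s, t < W.len r → el r t ∈ Y' → (s = t ∨ s = t + 1) → 0 < s → s < W.len r →
        (∀ t', t' ≠ t → (t' = s ∨ t' + 1 = s) → el r t' ∉ Y') → ¬ Tn r s →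
        ∃ y ∈ Y', ∃ v ∈ eQ (rowV W BQ) ends y, (∀ x ∈ Y', x ≠ y → v ∉ eQ (rowV W BQ) ends x) ∧
          (∀ x ∈ X, v ∉ eQ (rowV W BQ) ends x) ∧ v ∉ eQ (rowV W BQ) ends e' := by
      intro r t s ht hy hst h0 hs hoth hTs
      obtain ⟨hrQ, _⟩ := hYr r t ht (hY' hy)
      refine ⟨el r t, hy, W.nd r s, ?_, ?_, ?_, ?_⟩
      · rw [DA.mem_eQ_iff (hYS (hY' hy))]
        refine ⟨?_, inner_notQ hrQ h0 hs⟩
        rw [hR.ends r t ht]
        rcases hst with rfl | rfl
        · exact Sym2.mem_mk_left _ _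
        · exact Sym2.mem_mk_right _ _
      · intro x hx hxy hv
        rw [DA.mem_eQ_iff (hYS (hY' hx))] at hv
        obtain ⟨r', t', ht', _, rfl, _⟩ := hYel x (hY' hx)
        have hv1 := hv.1
        rw [W.nd_mid h0 hs] at hv1
        obtain ⟨rfl, h3⟩ := hrowel r' t' ht' r s hv1
        refine hoth t' (fun h => hxy (by rw [h])) h3 hx
      · intro x hx hv
        rw [DA.mem_eQ_iff (hXS hx)] at hv
        have hv1 := hv.1
        rw [W.nd_mid h0 hs] at hv1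
        exact hTs (htX x hx r s hv1)
      · intro hv
        rw [DA.mem_eQ_iff he'SQ] at hv
        have hv1 := hv.1
        rw [W.nd_mid h0 hs] at hv1
        exact hTs (hte' r s hv1)
    -- elements which are never in `Y`
    have hzY : ∀ i' : ι, (i' = i ∨ i' = j) → ∀ b, (b = 0 ∨ b = 2 * N + 1) →
        el (C.R i') (C.z i' b) ∉ Y' := by
      intro i' hi' b hb h
      have hb' : b ≤ 2 * N + 1 := by omega
      have hm := C.z_mon i' 0 (by omega)
      have hm' := strip_mono' (C.z_mon i') (show 0 + 1 ≤ 2 * N + 1 by omega) le_rfl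
      rcases (hYr _ _ (C.z_lt i' hb') (hY' h)).2 with ⟨h1, h2, h3⟩ | ⟨h1, h2, h3⟩ | h1
      · rcases hi' with rfl | rfl
        · rcases hb with rfl | rfl <;> omega
        · rcases C.sep_z hij h1.symm with h4 | h4 <;> rcases hb with rfl | rfl <;> omega
      · rcases hi' with rfl | rfl
        · rcases C.sep_z hij h1 with h4 | h4 <;> rcases hb with rfl | rfl <;> omega
        · rcases hb with rfl | rfl <;> omega
      · exact h1 (C.zK ex i' hb')
    by_cases hA : ∃ i', (i' = i ∨ i' = j) ∧ ∃ t, C.z i' 0 < t ∧ t < C.z i' (2 * N + 1) ∧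
        el (C.R i') t ∈ Y'
    · obtain ⟨i', hi', t, t1, t2, ht⟩ := hA
      have hzl := C.z_lt i' (b := 2 * N + 1) le_rfl
      -- the touched nodes of the pass are an interval which does not contain `t` and `t + 1`
      obtain ⟨lo, hi, hlo, hTi, htlo⟩ : ∃ lo hi, C.z i' 0 < lo ∧
          (∀ s, C.z i' 0 < s → s ≤ C.z i' (2 * N + 1) → Tn (C.R i') s → lo ≤ s ∧ s ≤ hi) ∧
          (t < lo ∨ hi ≤ t) := by
        rcases hi' with rfl | rfl
        · refine ⟨min p p', max p p', by omega, hTni, ?_⟩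
          by_contra hcon
          exact (hY' ht).2 (Or.inl (Or.inl (Or.inl ⟨t, by omega, by omega, rfl⟩)))
        · refine ⟨min q q', max q q', by omega, hTnj, ?_⟩
          by_contra hcon
          exact (hY' ht).2 (Or.inl (Or.inl (Or.inr ⟨t, by omega, by omega, rfl⟩)))
      rcases htlo with htlo | htlo
      · obtain ⟨t₁, a1, a2, a3, a4⟩ := down_min (P := fun t => el (C.R i') t ∈ Y') ht t1
        refine hfin (C.R i') t₁ t₁ (by omega) a3 (Or.inl rfl) (by omega) (by omega) ?_ ?_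
        · intro t' h1 h2 h3
          have h4 : t' + 1 = t₁ := by omega
          rcases (by omega : t' = C.z i' 0 ∨ C.z i' 0 < t') with h5 | h5
          · rw [h5] at h3
            exact hzY i' hi' 0 (Or.inl rfl) h3
          · exact a4 t' h5 (by omega) h3
        · intro h
          have := hTi t₁ a1 (by omega) h
          omega
      · obtain ⟨t₁, a1, a2, a3, a4⟩ := up_max (P := fun t => el (C.R i') t ∈ Y') ht t2
        refine hfin (C.R i') t₁ (t₁ + 1) (by omega) a3 (Or.inr rfl) (by omega) (by omega) ?_ ?_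
        · intro t' h1 h2 h3
          have h4 : t' = t₁ + 1 := by omega
          rcases (by omega : t' = C.z i' (2 * N + 1) ∨ t' < C.z i' (2 * N + 1)) with h5 | h5
          · rw [h5] at h3
            exact hzY i' hi' (2 * N + 1) (Or.inr rfl) h3
          · exact a4 t' (by omega) h5 h3
        · intro h
          have := hTi (t₁ + 1) (by omega) (by omega) h
          omega
    · -- no elements in the two passes
      have hcel : ∀ r t, t < W.len r → el r t ∈ Y' → t ∉ C.K ex r := by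
        intro r t ht h
        rcases (hYr r t ht (hY' h)).2 with ⟨rfl, h1, h2⟩ | ⟨rfl, h1, h2⟩ | h1
        · exact absurd ⟨i, Or.inl rfl, t, h1, h2, h⟩ hA
        · exact absurd ⟨j, Or.inr rfl, t, h1, h2, h⟩ hA
        · exact h1
      have hTno : ∀ r t s, t < W.len r → el r t ∈ Y' → (s = t ∨ s = t + 1) → ¬ Tn r s := by
        intro r t s ht h hst hT
        have hnK := hcel r t ht h
        rcases hT with ⟨rfl, h1, h2⟩ | ⟨rfl, h1, h2⟩
        · refine hA ⟨i, Or.inl rfl, t, ?_, ?_, h⟩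
          · rcases (by omega : C.z i 0 < t ∨ C.z i 0 = t) with h3 | h3
            · exact h3
            · exact absurd (h3 ▸ C.zK ex i (b := 0) (by omega)) hnK
          · rcases (by omega : t < C.z i (2 * N + 1) ∨ C.z i (2 * N + 1) = t) with h3 | h3
            · exact h3
            · exact absurd (h3 ▸ C.zK ex i (b := 2 * N + 1) le_rfl) hnK
        · refine hA ⟨j, Or.inr rfl, t, ?_, ?_, h⟩
          · rcases (by omega : C.z j 0 < t ∨ C.z j 0 = t) with h3 | h3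
            · exact h3
            · exact absurd (h3 ▸ C.zK ex j (b := 0) (by omega)) hnK
          · rcases (by omega : t < C.z j (2 * N + 1) ∨ C.z j (2 * N + 1) = t) with h3 | h3
            · exact h3
            · exact absurd (h3 ▸ C.zK ex j (b := 2 * N + 1) le_rfl) hnK
      obtain ⟨y₀, hy₀⟩ := hne
      obtain ⟨r, t₀, ht₀, hr, rfl, _⟩ := hYel y₀ (hY' hy₀)
      obtain ⟨κ, hκ⟩ := hKn r
      have hκl := hK r κ hκ
      have hκY : el r κ ∉ Y' := fun h => hcel r κ hκl h hκ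
      rcases lt_trichotomy t₀ κ with h1 | h1 | h1
      · obtain ⟨t₁, a1, a2, a3, a4⟩ := up_max (P := fun t => el r t ∈ Y') hy₀ h1
        refine hfin r t₁ (t₁ + 1) (by omega) a3 (Or.inr rfl) (by omega) (by omega) ?_
          (hTno r t₁ _ (by omega) a3 (Or.inr rfl))
        intro t' h1 h2 h3
        have h4 : t' = t₁ + 1 := by omega
        rcases (by omega : t' = κ ∨ t' < κ) with h5 | h5
        · rw [h5] at h3
          exact hκY h3
        · exact a4 t' (by omega) h5 h3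
      · exact absurd (h1 ▸ hκ) (hcel r t₀ ht₀ hy₀)
      · obtain ⟨t₁, a1, a2, a3, a4⟩ := down_min (P := fun t => el r t ∈ Y') hy₀ h1
        refine hfin r t₁ t₁ (by omega) a3 (Or.inl rfl) (by omega) (by omega) ?_
          (hTno r t₁ _ (by omega) a3 (Or.inl rfl))
        intro t' h1 h2 h3
        have h4 : t' + 1 = t₁ := by omega
        rcases (by omega : t' = κ ∨ κ < t') with h5 | h5
        · rw [h5] at h3
          exact hκY h3
        · exact a4 t' h5 (by omega) h3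
  · rw [Matroid.contract_closure_eq]
    refine ⟨M.closure_subset_closure ?_ hcl.1, he'Q⟩
    rintro x (((hx | hx) | hx) | (hx | hx))
    · by_cases h1 : x ∈ X ∪ Q
      · rcases h1 with h1 | h1
        · exact Or.inl (Or.inl h1)
        · exact Or.inr h1
      · exact Or.inl (Or.inr ⟨Or.inl (Or.inl hx.1), h1⟩)
    · by_cases h1 : x ∈ X ∪ Q
      · rcases h1 with h1 | h1
        · exact Or.inl (Or.inl h1)
        · exact Or.inr h1
      · exact Or.inl (Or.inr ⟨Or.inl (Or.inr hx.1), h1⟩)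
    · exact Or.inl (Or.inl (Or.inr hx))
    · by_cases h1 : x ∈ X ∪ Q
      · rcases h1 with h1 | h1
        · exact Or.inl (Or.inl h1)
        · exact Or.inr h1
      · exact Or.inl (Or.inr ⟨Or.inr hx, h1⟩)
    · exact Or.inr hx

end line

/-- **Ports**, from the node numbers of the columns. -/
theorem port_of_ends {X₀ β : Type*} {W : RW X₀ β} {ι : Type*} [Fintype ι] {N : ℕ}
    {C : Cols W ι N} {ex : β → Finset ℕ}
    {T : Strip (W.shrink (C.K ex)) ι N} (hR : T.R = C.R)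
    (hends : ∀ i, cnt (C.K ex) (C.R i) (C.z i 0) + 1 = T.a i ∧
      cnt (C.K ex) (C.R i) (C.z i (2 * N + 1)) = T.a i + 2 * N + T.m i)
    {r : β} (hr : ex r = ∅ ∨ (C.K ex r).card ≤ 1) {k : ℕ} (h0 : 0 < k)
    (hk : k < (W.shrink (C.K ex)).len r)
    (hout : ∀ i, T.R i = r → k < T.a i ∨ T.a i + 2 * N + T.m i < k) :
    (∃ i, T.R i = r ∧ k + 1 = T.a i) ∧ ∃ i, T.R i = r ∧ k = T.a i + 2 * N + T.m i + 1 := by
  have hk' : k < (C.K ex r).card := hk
  have hex : ex r = ∅ := by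
    rcases hr with h | h
    · exact h
    · omega
  have hmem : ∀ x ∈ C.K ex r, ∃ i, C.R i = r ∧ C.z i 0 ≤ x ∧ x ≤ C.z i (2 * N + 1) := by
    intro x hx
    rcases (C.mem_K ex).1 hx with h | ⟨i, hi, h⟩
    · rw [hex] at h
      exact absurd h (Finset.notMem_empty x)
    · exact ⟨i, hi, C.pos_z h⟩
  constructor
  · obtain ⟨y, hy, hyk⟩ := exists_kth (C.K ex) r hk'
    obtain ⟨i, rfl, h1, h2⟩ := hmem y hy
    obtain ⟨e1, e2⟩ := hends i
    refine ⟨i, by rw [hR], ?_⟩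
    have h3 := cnt_mono (C.K ex) (C.R i) h2
    rcases h1.lt_or_eq with h4 | h4
    · exfalso
      have hz0 : C.z i 0 ∈ C.K ex (C.R i) := by
        obtain ⟨c, hc, h5⟩ := C.exists_z i (b := 0) (by omega)
        exact (C.mem_K ex).2 (Or.inr ⟨i, rfl, Or.inr ⟨c, hc, h5.symm⟩⟩)
      have h5 := cnt_succ_of_mem hz0
      have h6 := cnt_mono (C.K ex) (C.R i) (show C.z i 0 + 1 ≤ y by omega)
      rcases hout i (by rw [hR]) with h7 | h7 <;> omega
    · rw [h4, hyk] at e1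
      exact e1
  · obtain ⟨x, hx, hxk⟩ := exists_kth (C.K ex) r (k := k - 1) (by omega)
    obtain ⟨i, rfl, h1, h2⟩ := hmem x hx
    obtain ⟨e1, e2⟩ := hends i
    refine ⟨i, by rw [hR], ?_⟩
    have h3 := cnt_mono (C.K ex) (C.R i) h1
    rcases h2.lt_or_eq with h4 | h4
    · exfalso
      have h5 := cnt_succ_of_mem hx
      have h6 := cnt_mono (C.K ex) (C.R i) (show x + 1 ≤ C.z i (2 * N + 1) by omega)
      rcases hout i (by rw [hR]) with h7 | h7 <;> omega
    · rw [← h4, hxk] at e2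
      omega

end TST
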