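import Pool.Agent.TST.BaseDef
import Pool.Agent.TST.SGMain
import Pool.Agent.TST.ColsU
import Pool.Agent.TST.LineC
import Pool.Agent.TST.HubC

/-!
# T-star: from `Base` to the graph of the strip (definitions)

`Ctx`: the data of `HostOfBase`.  `RungC`: choice of the rungs.  `Sel`: choice of columns and windows.
`SGOut`: the strip with all its properties.
-/

open Set BIC BICS CWL
open scoped Matroid

namespace TSH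

universe u

open Mdl Mdj EN Gad TST EN.Wall

/-- the data of `HostOfBase` -/
structure Ctx {α : Type u} (κ ρ : ℕ) (M : Matroid α) (w s : ℕ) (𝒯 : Finset (ℕ × ℕ))
    (L₁ : Bool × ℕ × ℕ → List α) (f₁ : α → Sym2 ((ℕ × ℕ) ⊕ α)) (e₁ : Bool × ℕ × ℕ → α) (u₁ : ℕ)
    (L₂ : Bool × ℕ × ℕ → List α) (f₂ : α → Sym2 ((ℕ × ℕ) ⊕ α)) (e₂ : Bool × ℕ × ℕ → α) (u₂ : ℕ)
    (u η nT : ℕ) (F : ℕ → ℕ) (a n : ℕ) (el : SegR n → ℕ → α) (S Q : Set α)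
    (ends : α → Sym2 (Nd (WV n) (SegR n))) (BQ Bd : Finset (SegR n)) (τ : ℕ → ℕ × ℕ) (m : ℕ)
    (R : ℕ → SegR n) (q : ℕ → ℕ → ℕ) (G : ℕ → ℕ → Prop) (P : Finset ℕ) : Prop where
  hu₁ : u₁ ≤ κ
  hu₂ : u₂ ≤ κ
  pair : Pair M (Seg w) L₁ f₁ e₁ u₁ (tiles s 𝒯) L₂ f₂ e₂ u₂
  hot : ∀ i j a b : ℕ, shS i j '' Seg ρ ⊆ Seg w → shS a b '' Seg ρ ⊆ tiles s 𝒯 →
      ∃ r ∈ shS i j '' Seg ρ, ∃ x ∈ L₁ r, x ∈ crr L₂ (shS a b '' Seg ρ)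
  base : Base M w s 𝒯 L₁ L₂ e₂ u η nT F a n el S Q ends BQ Bd τ m R q G P

/-- `ρr i j v` = a rung between the labels `i` and `j` in the window `v`, with its two nodes -/
def RungC {α : Type u} (L₁ : Bool × ℕ × ℕ → List α) (a n : ℕ) (el : SegR n → ℕ → α) (S : Set α)
    (ends : α → Sym2 (Nd (WV n) (SegR n))) (nT : ℕ) (R : ℕ → SegR n) (q : ℕ → ℕ → ℕ)
    (G : ℕ → ℕ → Prop) (P : Finset ℕ) (ρr : ℕ → ℕ → ℕ → α × ℕ × ℕ) : Prop :=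
  ∀ i ∈ P, ∀ j ∈ P, (G i j ∨ G j i) → ∀ v, 3 * v + 2 < nT →
    Btw (q i (3 * v + 1)) (q i (3 * v + 2)) (ρr i j v).2.1 ∧
    Btw (q j (3 * v + 1)) (q j (3 * v + 2)) (ρr i j v).2.2 ∧
    (ρr i j v).1 ∈ S ∧ Rung L₁ a n el (ρr i j v).1 ∧
    ends (ρr i j v).1 = s((inW L₁ a n).nd (R i) (ρr i j v).2.1, (inW L₁ a n).nd (R j) (ρr i j v).2.2)

/-- the 4-cycle of the rungs in the windows `v` and `v'` is balanced over `Q` -/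
def Bal {α : Type u} (M : Matroid α) {n : ℕ} (el : SegR n → ℕ → α) (Q : Set α) (R : ℕ → SegR n)
    (ρr : ℕ → ℕ → ℕ → α × ℕ × ℕ) (i j v v' : ℕ) : Prop :=
  (ρr i j v').1 ∈ (M ／ Q).closure (pcE el (R i) (ρr i j v).2.1 (ρr i j v').2.1 ∪
    pcE el (R j) (ρr i j v).2.2 (ρr i j v').2.2 ∪ {(ρr i j v).1})

/-- **Choice of columns and windows.** -/
structure Sel {α : Type u} (L₁ : Bool × ℕ × ℕ → List α) (a n : ℕ) (BQ : Finset (SegR n))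
    (nT m : ℕ) (R : ℕ → SegR n) (q : ℕ → ℕ → ℕ) (G : ℕ → ℕ → Prop) (P : Finset ℕ) {σ : Type}
    (ln : σ → ℕ) (N : ℕ) (f : ℕ → ℕ) (lbl : CI ln → ℕ) (Ed : CI ln → CI ln → Prop)
    (Lost : Set (SegR n)) : Prop where
  N1 : 1 ≤ N
  f_lt : ∀ a b, a < b → b ≤ 2 * N → f a < f b
  f_one : 1 ≤ f 0
  f_nT : 3 * f (2 * N) + 5 < nT
  mem : ∀ i, lbl i ∈ P
  inj : Function.Injective lbl
  ed : ∀ i j, Ed i j → i ≠ j ∧ (G (lbl i) (lbl j) ∨ G (lbl j) (lbl i))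
  lost : ∀ r ∉ Lost, (∀ i' < m, R i' = r → ∃ i, R (lbl i) = r ∧ RamP.Near nT (q i') (q (lbl i))) ∧
    (inW L₁ a n).nd r 0 ∉ rowV (inW L₁ a n) BQ ∧
    (inW L₁ a n).nd r ((inW L₁ a n).len r) ∉ rowV (inW L₁ a n) BQ

/-- the chosen rungs -/
def RgS {α : Type u} {σ : Type} {ln : σ → ℕ} (ρr : ℕ → ℕ → ℕ → α × ℕ × ℕ) (N : ℕ) (f : ℕ → ℕ)
    (lbl : CI ln → ℕ) (Ed : CI ln → CI ln → Prop) : Set α :=
  {e | ∃ i j, ∃ b : ℤ, Ed i j ∧ -(N : ℤ) ≤ b ∧ b ≤ N ∧ b ≠ 0 ∧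
    e = (ρr (lbl i) (lbl j) (f (b + N).toNat)).1}

/-- **The strip over `Base`.**  `K` = kept positions, the tile of the host is `3 * f N + 1`. -/
structure SGOut {α : Type u} (M : Matroid α) (s : ℕ) (L₁ L₂ : Bool × ℕ × ℕ → List α)
    (e₂ : Bool × ℕ × ℕ → α) (u a n : ℕ) (el : SegR n → ℕ → α) (S Q : Set α)
    (ends : α → Sym2 (Nd (WV n) (SegR n))) (BQ : Finset (SegR n)) (τ : ℕ → ℕ × ℕ)
    (R : ℕ → SegR n) (q : ℕ → ℕ → ℕ)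
    (ρr : ℕ → ℕ → ℕ → α × ℕ × ℕ) {σ : Type} {ln : σ → ℕ} (N : ℕ) (f : ℕ → ℕ) (lbl : CI ln → ℕ)
    (Ed : CI ln → CI ln → Prop) (Lost : Set (SegR n)) (K : SegR n → Finset ℕ)
    (T : Strip ((inW L₁ a n).shrink K) (CI ln) N) (Lm : ℕ)
    (eL : α → Sym2 (HV (OV (WV n) (SegR n) Lm) σ)) : Prop where
  Klt : ∀ r, ∀ p ∈ K r, p < (inW L₁ a n).len r
  Kne : ∀ r, (K r).Nonempty
  TR : ∀ i, T.R i = R (lbl i)
  /-- nodes of the windows -/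
  win : ∀ i (b : ℤ) p, -(N : ℤ) ≤ b → b ≤ N → b ≠ 0 →
    Btw (q (lbl i) (3 * f (b + N).toNat + 1)) (q (lbl i) (3 * f (b + N).toNat + 2)) p →
    cnt K (R (lbl i)) p = T.idx i b
  rung : ∀ i j, Ed i j → ∀ b : ℤ, -(N : ℤ) ≤ b → b ≤ N → b ≠ 0 →
    eL (ρr (lbl i) (lbl j) (f (b + N).toNat)).1 = s(cv i b, cv j b)
  /-- the tile -/
  cel_tile : Disjoint (cel (inW L₁ a n) K el)
    (crr L₂ (shS (τ (3 * f N + 1)).1 (τ (3 * f N + 1)).2 '' Seg s))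
  sh_tile : Disjoint (Sh ((inW L₁ a n).shrink K) (els K el) T Lost (RgS ρr N f lbl Ed) eL)
    (crr L₂ (shS (τ (3 * f N + 1)).1 (τ (3 * f N + 1)).2 '' Seg s))
  sf_anchor : Disjoint (SfQ T Lm BQ (kel K el ∪ RgS ρr N f lbl Ed) eL)
    (e₂ '' (shS (τ (3 * f N + 1)).1 (τ (3 * f N + 1)).2 '' Seg s))
  /-- nodes between columns -/
  port : ∀ r ∉ Lost, ∀ k, 0 < k → k < ((inW L₁ a n).shrink K).len r →
    (∀ i, T.R i = r → k < T.a i ∨ T.a i + 2 * N + T.m i < k) →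
    (∃ i, T.R i = r ∧ k + 1 = T.a i) ∧ ∃ i, T.R i = r ∧ k = T.a i + 2 * N + T.m i + 1
  ind : ∀ B : Finset (SegR n), (∀ r ∈ B, r ∉ Lost) →
    (∀ A ⊆ B, A.card ≤ {x | ∃ r ∈ A, segHd r = x ∨ segTl r = x}.ncard) →
    ((M ／ cel (inW L₁ a n) K el) ／ (Q \ cel (inW L₁ a n) K el)).Indep
      (rowE ((inW L₁ a n).shrink K) (els K el) (B : Set (SegR n)))
  /-- balanced and unbalanced lines -/
  bal : ∀ i j, Ed i j → ∀ b b' : ℤ, -(N : ℤ) ≤ b → b ≤ N → b ≠ 0 → -(N : ℤ) ≤ b' → b' ≤ N →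
    b' ≠ 0 → Bal M el Q R ρr (lbl i) (lbl j) (f (b + N).toNat) (f (b' + N).toNat) →
    (ρr (lbl i) (lbl j) (f (b' + N).toNat)).1 ∈
      ((M ／ cel (inW L₁ a n) K el) ／ (Q \ cel (inW L₁ a n) K el)).closure
        (ColE ((inW L₁ a n).shrink K) (els K el) T i ∪ ColE ((inW L₁ a n).shrink K) (els K el) T j ∪
          {(ρr (lbl i) (lbl j) (f (b + N).toNat)).1})
  unb : ∀ i j, Ed i j → ∀ b b' : ℤ, -(N : ℤ) ≤ b → b ≤ N → b ≠ 0 → -(N : ℤ) ≤ b' → b' ≤ N →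
    b' ≠ 0 → ¬ Bal M el Q R ρr (lbl i) (lbl j) (f (b + N).toNat) (f (b' + N).toNat) →
    (ρr (lbl i) (lbl j) (f (b' + N).toNat)).1 ∉
      ((M ／ cel (inW L₁ a n) K el) ／ (Q \ cel (inW L₁ a n) K el)).closure
        (ColE ((inW L₁ a n).shrink K) (els K el) T i ∪ ColE ((inW L₁ a n).shrink K) (els K el) T j ∪
          {(ρr (lbl i) (lbl j) (f (b + N).toNat)).1})
  sg : SG (M ／ cel (inW L₁ a n) K el) ((inW L₁ a n).shrink K) (els K el) T Lm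
    (kel K el ∪ RgS ρr N f lbl Ed) eL (Q \ cel (inW L₁ a n) K el) BQ u Ed (RgS ρr N f lbl Ed)

end TSH
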