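import Pool.Agent.TST.CompDef

/-!
# T-star: the strip over `Base` (`exists_rungC`, `Ctx.sgOut`)
-/

open Set BIC BICS CWL
open scoped Matroid

namespace TSH

universe u

open Mdl Mdj EN Gad TST EN.Wall

section

variable {α : Type u} {κ ρ : ℕ} {M : Matroid α} {w s : ℕ}
    {𝒯 : Finset (ℕ × ℕ)} {L₁ : Bool × ℕ × ℕ → List α} {f₁ : α → Sym2 ((ℕ × ℕ) ⊕ α)}
    {e₁ : Bool × ℕ × ℕ → α} {u₁ : ℕ} {L₂ : Bool × ℕ × ℕ → List α} {f₂ : α → Sym2 ((ℕ × ℕ) ⊕ α)}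
    {e₂ : Bool × ℕ × ℕ → α} {u₂ u η nT : ℕ} {F : ℕ → ℕ} {a n : ℕ} {el : SegR n → ℕ → α}
    {S Q : Set α} {ends : α → Sym2 (Nd (WV n) (SegR n))} {BQ Bd : Finset (SegR n)}
    {τ : ℕ → ℕ × ℕ} {m : ℕ} {R : ℕ → SegR n} {q : ℕ → ℕ → ℕ} {G : ℕ → ℕ → Prop} {P : Finset ℕ}

/-- a rung for every honest pair and every window -/
theorem exists_rungC
    (h : Ctx κ ρ M w s 𝒯 L₁ f₁ e₁ u₁ L₂ f₂ e₂ u₂ u η nT F a n el S Q ends BQ Bd τ m R q G P) :
    ∃ ρr, RungC L₁ a n el S ends nT R q G P ρr := by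
  classical
  obtain ⟨r₀, -⟩ := h.base.Q_ne
  have hne : Nonempty (α × ℕ × ℕ) := ⟨(el r₀ 0, 0, 0)⟩
  have key : ∀ i j v, ∃ x : α × ℕ × ℕ, i ∈ P → j ∈ P → (G i j ∨ G j i) → 3 * v + 2 < nT →
      Btw (q i (3 * v + 1)) (q i (3 * v + 2)) x.2.1 ∧
      Btw (q j (3 * v + 1)) (q j (3 * v + 2)) x.2.2 ∧
      x.1 ∈ S ∧ Rung L₁ a n el x.1 ∧
      ends x.1 = s((inW L₁ a n).nd (R i) x.2.1, (inW L₁ a n).nd (R j) x.2.2) := by
    intro i j v
    by_cases hc : i ∈ P ∧ j ∈ P ∧ (G i j ∨ G j i) ∧ 3 * v + 2 < nT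
    · obtain ⟨hi, hj, hG, hv⟩ := hc
      rcases hG with hG | hG
      · obtain ⟨p, p', h1, h2, h3⟩ := (h.base.units.hon i (h.base.P_lt i hi).1 j
          (h.base.P_lt j hj).1 (3 * v + 1) (3 * v + 2) (by omega) hv).1 hG
        obtain ⟨_, _, _, _, e, he, hr, hee⟩ := h3
        exact ⟨(e, p, p'), fun _ _ _ _ => ⟨h1, h2, he, hr, hee⟩⟩
      · obtain ⟨p, p', h1, h2, h3⟩ := (h.base.units.hon j (h.base.P_lt j hj).1 i
          (h.base.P_lt i hi).1 (3 * v + 1) (3 * v + 2) (by omega) hv).1 hG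
        obtain ⟨_, _, _, _, e, he, hr, hee⟩ := h3
        refine ⟨(e, p', p), fun _ _ _ _ => ⟨h2, h1, he, hr, ?_⟩⟩
        rw [hee]
        exact Sym2.eq_swap
    · exact ⟨hne.some, fun hi hj hG hv => absurd ⟨hi, hj, hG, hv⟩ hc⟩
  choose ρr hρ using key
  exact ⟨ρr, fun i hi j hj hG v hv => hρ i j v hi hj hG hv⟩

/-- the base frame -/
theorem Ctx.bf
    (h : Ctx κ ρ M w s 𝒯 L₁ f₁ e₁ u₁ L₂ f₂ e₂ u₂ u η nT F a n el S Q ends BQ Bd τ m R q G P) :
    BF M (inW L₁ a n) S ends el BQ Q u := by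
  have hB := h.base
  have hrowE : ∀ r p, p < (inW L₁ a n).len r → el r p ∈ M.E := by
    intro r p hp
    rw [hB.el_eq r p hp]
    refine h.pair.s₁.sub_ground ⟨shS a a r.1, ?_, List.getElem_mem _⟩
    exact shS_mem (by have := hB.wall.2.2.1; omega) hB.wall.2.2.1 hB.wall.2.2.1 r.2
  refine ⟨hB.row, fun r => (seg_adj r).ne, fun e he => ?_, hB.frm, hB.frmQ, hB.Q_sub, hB.Q_row,
    hB.Q_S, hB.node⟩
  by_cases hr : Rung L₁ a n el e
  · obtain ⟨_, r, p, r', p', h1, h2, h3, h4, h5, h6, h7⟩ := hB.rung e he hr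
    have h8 : e ∈ SQ (rowV (inW L₁ a n) BQ) S ends := by
      refine ⟨he, (inW L₁ a n).nd r p, by rw [h7]; exact Sym2.mem_mk_left _ _, ?_⟩
      exact inner_notQ (by exact_mod_cast h1) h3 h4
    exact (hB.frmQ.sub h8).1
  · unfold Rung at hr
    push Not at hr
    obtain ⟨r, p, hp, rfl⟩ := hr
    exact hrowE r p hp

open Classical in
/-- kept positions outside of the columns -/
noncomputable def exC {α : Type u} (L₁ : Bool × ℕ × ℕ → List α) (a n nT m : ℕ) (R : ℕ → SegR n)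
    (q : ℕ → ℕ → ℕ) {σ : Type} {ln : σ → ℕ} (b₀ : ℕ) (lbl : CI ln → ℕ) (Lost : Set (SegR n))
    (r : SegR n) : Finset ℕ :=
  if r ∈ Lost then {0, (inW L₁ a n).len r - 1} ∪ ((Finset.range m).filter fun i' =>
    R i' = r ∧ ∀ i, R (lbl i) = r → ¬ RamP.Near nT (q i') (q (lbl i))).image (fun i' => q i' b₀)
  else if ∃ i, R (lbl i) = r then ∅ else {0}

/-- **The strip over `Base`.** -/
theorem Ctx.sgOut [M.Finite]
    (h : Ctx κ ρ M w s 𝒯 L₁ f₁ e₁ u₁ L₂ f₂ e₂ u₂ u η nT F a n el S Q ends BQ Bd τ m R q G P)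
    {ρr : ℕ → ℕ → ℕ → α × ℕ × ℕ} (hρ : RungC L₁ a n el S ends nT R q G P ρr)
    {σ : Type} {ln : σ → ℕ} [Fintype (CI ln)] {N : ℕ} {f : ℕ → ℕ} {lbl : CI ln → ℕ}
    {Ed : CI ln → CI ln → Prop} {Lost : Set (SegR n)}
    (hS : Sel L₁ a n BQ nT m R q G P ln N f lbl Ed Lost) :
    ∃ (K : SegR n → Finset ℕ) (T : Strip ((inW L₁ a n).shrink K) (CI ln) N) (Lm : ℕ)
      (eL : α → Sym2 (HV (OV (WV n) (SegR n) Lm) σ)),
      SGOut M s L₁ L₂ e₂ u a n el S Q ends BQ τ R q ρr N f lbl Ed Lost K T Lm eL := by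
  classical
  have hB := h.base
  obtain ⟨W, hW⟩ : ∃ W : RW (WV n) (SegR n), W = inW L₁ a n := ⟨_, rfl⟩
  have hlm : ∀ i, lbl i < m := fun i => (hB.P_lt _ (hS.mem i)).1
  have hlQ : ∀ i, R (lbl i) ∉ BQ := fun i => (hB.P_lt _ (hS.mem i)).2
  have hsep : ∀ i j, i ≠ j → R (lbl i) = R (lbl j) → RamP.Sep nT (q (lbl i)) (q (lbl j)) :=
    fun i j hij hR => hB.P_sep _ (hS.mem i) _ (hS.mem j) (fun h1 => hij (hS.inj h1)) hR
  obtain ⟨C, c1, c2, c3, c4, c5, c6, c7⟩ := cols_of_units (W := inW L₁ a n) hB.units hB.lab hS.f_lt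
    hS.f_one hS.f_nT lbl hlm hsep
  obtain ⟨b₀, hb₀⟩ : ∃ b₀, b₀ = 3 * f N + 1 := ⟨_, rfl⟩
  rw [← hb₀] at c5
  have hfN : f N ≤ f (2 * N) := (hS.f_lt N (2 * N) (by have := hS.N1; omega) le_rfl).le
  have hb₀n : b₀ < nT := by
    have := hS.f_nT
    omega
  obtain ⟨ex, hex⟩ : ∃ ex, ex = exC (σ := σ) L₁ a n nT m R q b₀ lbl Lost := ⟨_, rfl⟩
  have hexL : ∀ r ∈ Lost, ∀ p, p ∈ ex r ↔ p = 0 ∨ p = (inW L₁ a n).len r - 1 ∨ ∃ i' < m, R i' = r ∧
      (∀ i, R (lbl i) = r → ¬ RamP.Near nT (q i') (q (lbl i))) ∧ q i' b₀ = p := by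
    intro r hr p
    rw [hex]
    unfold exC
    rw [if_pos hr]
    simp only [Finset.mem_union, Finset.mem_insert, Finset.mem_singleton, Finset.mem_image,
      Finset.mem_filter, Finset.mem_range]
    constructor
    · rintro ((h1 | h1) | ⟨i', ⟨h1, h2, h3⟩, h4⟩)
      · exact Or.inl h1
      · exact Or.inr (Or.inl h1)
      · exact Or.inr (Or.inr ⟨i', h1, h2, h3, h4⟩)
    · rintro (h1 | h1 | ⟨i', h1, h2, h3, h4⟩)
      · exact Or.inl (Or.inl h1)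
      · exact Or.inl (Or.inr h1)
      · exact Or.inr ⟨i', ⟨h1, h2, h3⟩, h4⟩
  have hexC : ∀ r ∉ Lost, (∃ i, R (lbl i) = r) → ex r = ∅ := by
    intro r hr hi
    rw [hex]
    unfold exC
    rw [if_neg hr, if_pos hi]
  have hex0 : ∀ r ∉ Lost, (¬ ∃ i, R (lbl i) = r) → ex r = {0} := by
    intro r hr hi
    rw [hex]
    unfold exC
    rw [if_neg hr, if_neg hi]
  have hpos := hB.row.pos
  have hJ : ∀ i j, Ed i j → ∀ b : ℤ, -(N : ℤ) ≤ b → b ≤ N → b ≠ 0 →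
      C.Win i b (ρr (lbl i) (lbl j) (f (b + N).toNat)).2.1 ∧
      C.Win j b (ρr (lbl i) (lbl j) (f (b + N).toNat)).2.2 ∧
      (ρr (lbl i) (lbl j) (f (b + N).toNat)).1 ∈ S ∧
      Rung L₁ a n el (ρr (lbl i) (lbl j) (f (b + N).toNat)).1 ∧
      ends (ρr (lbl i) (lbl j) (f (b + N).toNat)).1 =
        s((inW L₁ a n).nd (C.R i) (ρr (lbl i) (lbl j) (f (b + N).toNat)).2.1,
          (inW L₁ a n).nd (C.R j) (ρr (lbl i) (lbl j) (f (b + N).toNat)).2.2) := by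
    intro i j hij b h1 h2 _
    have hle : f (b + N).toNat ≤ f (2 * N) := by
      rcases Nat.lt_or_ge (b + N).toNat (2 * N) with h3 | h3
      · exact (hS.f_lt _ _ h3 le_rfl).le
      · have : (b + N).toNat = 2 * N := by omega
        rw [this]
    obtain ⟨g1, g2, g3, g4, g5⟩ := hρ (lbl i) (hS.mem i) (lbl j) (hS.mem j) (hS.ed i j hij).2
      (f (b + N).toNat) (by have := hS.f_nT; omega)
    refine ⟨c7 i b _ h1 h2 g1, c7 j b _ h1 h2 g2, g3, g4, ?_⟩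
    rw [c1 i, c1 j]
    exact g5
  have hJoin : ∀ i j, Ed i j → ∀ b : ℤ, -(N : ℤ) ≤ b → b ≤ N → b ≠ 0 →
      Joins C ends i j b (ρr (lbl i) (lbl j) (f (b + N).toNat)).1 := by
    intro i j hij b h1 h2 h3
    obtain ⟨g1, g2, _, _, g5⟩ := hJ i j hij b h1 h2 h3
    exact ⟨_, _, g1, g2, g5⟩
  have hstr : StripS M (inW L₁ a n) S ends el BQ Q u ln N C ex Lost Ed (RgS ρr N f lbl Ed) := by
    refine ⟨h.bf, hS.N1, ?_, ?_, ?_, fun i => ?_, fun i j hij => (hS.ed i j hij).1, ?_, ?_⟩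
    · intro r p hp
      by_cases hr : r ∈ Lost
      · rcases (hexL r hr p).1 hp with rfl | rfl | ⟨i', h1, h2, h3, rfl⟩
        · exact ⟨hpos r, fun i hi => Or.inl fun b hb => (c4 i b hb).1⟩
        · refine ⟨by have := hpos r; omega, fun i hi => Or.inr fun b hb => ?_⟩
          have h5 := (c4 i b hb).2
          rw [← c1 i, hi] at h5
          omega
        · refine ⟨?_, fun i hi => ?_⟩
          · rw [← h2]
            exact hB.lab i' h1 b₀ hb₀n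
          · rw [c1 i] at hi
            exact c6 i' h1 i (h2.trans hi.symm) (h3 i hi) b₀ hb₀n
      · by_cases hi : ∃ i, R (lbl i) = r
        · rw [hexC r hr hi] at hp
          exact absurd hp (Finset.notMem_empty _)
        · rw [hex0 r hr hi, Finset.mem_singleton] at hp
          subst hp
          refine ⟨hpos r, fun i h1 => absurd ⟨i, ?_⟩ hi⟩
          rw [← c1 i]
          exact h1
    · intro r hr
      exact ⟨(hexL r hr 0).2 (Or.inl rfl), (hexL r hr _).2 (Or.inr (Or.inl rfl))⟩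
    · intro r hr
      refine ⟨?_, (hS.lost r hr).2⟩
      by_cases hi : ∃ i, R (lbl i) = r
      · obtain ⟨i, h1⟩ := hi
        exact Or.inl ⟨hexC r hr ⟨i, h1⟩, i, by rw [c1 i]; exact h1⟩
      · refine Or.inr ⟨hex0 r hr hi, fun i h1 => hi ⟨i, ?_⟩⟩
        rw [← c1 i]
        exact h1
    · rw [c1 i]
      exact fun h1 => hlQ i (by exact_mod_cast h1)
    · rintro e ⟨i, j, b, h1, h2, h3, h4, rfl⟩
      exact ⟨(hJ i j h1 b h2 h3 h4).2.2.1, i, j, b, h1, h2, h3, h4, hJoin i j h1 b h2 h3 h4⟩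
    · intro i j hij b h2 h3 h4
      exact ⟨_, ⟨i, j, b, hij, h2, h3, h4, rfl⟩, hJoin i j hij b h2 h3 h4⟩
  obtain ⟨T, Lm, eL, t1, t2, t3, t4, t5, t6, t7, t8, t9, t10, hSG⟩ := hstr.sg
  have hK : ∀ r, ∀ p ∈ C.K ex r, p < (inW L₁ a n).len r := by
    intro r p hp
    rcases (C.mem_K ex).1 hp with h1 | ⟨i, rfl, h1 | ⟨b, hb, rfl⟩⟩
    · exact (hstr.exs r p h1).1
    · have h2 := C.yin i p h1
      have h3 := C.lt i N (by omega)
      have h4 := C.lt i (N + 1) (by have := hS.N1; omega)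
      omega
    · exact C.lt i b hb
  have hKn : ∀ r, (C.K ex r).Nonempty := by
    intro r
    by_cases hr : r ∈ Lost
    · exact ⟨0, (C.mem_K ex).2 (Or.inl (hstr.lost r hr).1)⟩
    · rcases (hstr.good r hr).1 with ⟨_, i, rfl⟩ | ⟨h1, _⟩
      · exact ⟨_, (C.mem_K ex).2 (Or.inr ⟨i, rfl, Or.inr ⟨0, by omega, rfl⟩⟩)⟩
      · exact ⟨0, (C.mem_K ex).2 (Or.inl (by rw [h1]; simp))⟩
  -- conflicts of the tile are kept
  have htile : ∀ r p, p < (inW L₁ a n).len r →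
      el r p ∈ crr L₂ (shS (τ b₀).1 (τ b₀).2 '' Seg s) →
      ∃ i' < m, R i' = r ∧ q i' b₀ = p ∧ ((∃ i, C.R i = r ∧ p ∈ C.y i) ∨
        (r ∈ Lost ∧ p ∈ ex r ∧ ∀ i, C.R i = r → ¬ RamP.Near nT (q i') (q (lbl i)))) := by
    intro r p hp he
    obtain ⟨i', h1, h2, h3⟩ := hB.all b₀ hb₀n r p hp he
    refine ⟨i', h1, h2, h3, ?_⟩
    by_cases hn : ∃ i, R (lbl i) = r ∧ RamP.Near nT (q i') (q (lbl i))
    · obtain ⟨i, h4, h5⟩ := hn
      exact Or.inl ⟨i, by rw [c1 i]; exact h4,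
        (c5 i p).2 ⟨i', h1, h2.trans h4.symm, h5, h3.symm⟩⟩
    · push Not at hn
      have hr : r ∈ Lost := by
        by_contra hr
        obtain ⟨i, h4, h5⟩ := (hS.lost r hr).1 i' h1 h2
        exact hn i h4 h5
      refine Or.inr ⟨hr, (hexL r hr p).2 (Or.inr (Or.inr ⟨i', h1, h2, hn, h3⟩)), fun i hi => ?_⟩
      exact hn i (by rw [← c1 i]; exact hi)
  have htileK : ∀ r p, p < (inW L₁ a n).len r →
      el r p ∈ crr L₂ (shS (τ b₀).1 (τ b₀).2 '' Seg s) → p ∈ C.K ex r := by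
    intro r p hp he
    obtain ⟨i', _, _, _, ⟨i, h1, h2⟩ | ⟨_, h1, _⟩⟩ := htile r p hp he
    · exact (C.mem_K ex).2 (Or.inr ⟨i, h1, Or.inl h2⟩)
    · exact (C.mem_K ex).2 (Or.inl h1)
  have htl : shS (τ b₀).1 (τ b₀).2 '' Seg s ⊆ tiles s 𝒯 := fun σ' hσ =>
    ⟨τ b₀, hB.tau b₀ hb₀n, hσ⟩
  have hrgT : ∀ e ∈ RgS ρr N f lbl Ed, e ∉ crr L₂ (tiles s 𝒯) := by
    rintro e ⟨i, j, b, h1, h2, h3, h4, rfl⟩
    obtain ⟨_, _, g3, g4, _⟩ := hJ i j h1 b h2 h3 h4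
    exact (hB.rung _ g3 g4).1
  -- kept elements with an end in the middle window
  have hmidv : ∀ r p, p ∈ C.K ex r → ∃ v ∈ eL (el r p), True := by
    intro r p _
    obtain ⟨v, hv⟩ := exists_mem_ends eL (el r p)
    exact ⟨v, hv, trivial⟩
  have hzx : ∀ i, (∃ c ≤ 2 * N + 1, C.z i 0 = C.x i c) ∧ ∃ c ≤ 2 * N + 1, C.z i (2 * N + 1) = C.x i c :=
    fun i => ⟨C.exists_z i (by omega), C.exists_z i le_rfl⟩
  have hshT : Disjoint (Sh ((inW L₁ a n).shrink (C.K ex)) (els (C.K ex) el) T Lost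
      (RgS ρr N f lbl Ed) eL) (crr L₂ (shS (τ b₀).1 (τ b₀).2 '' Seg s)) := by
    rw [Set.disjoint_left]
    rintro e ⟨he, hmid⟩ heT
    rcases he with (⟨r, k, hk, hr, rfl⟩ | ⟨i, k, k1, k2, rfl⟩) | he
    · have hkm : kth (C.K ex) r k ∈ C.K ex r := kth_mem hk
      obtain ⟨i', h1, h2, h3, ⟨i, h4, h5⟩ | ⟨h4, _⟩⟩ := htile r _ (hK r _ hkm) heT
      · subst h4
        obtain ⟨v, hv⟩ := exists_mem_ends eL (els (C.K ex) el (C.R i) k)
        exact hmid v hv i (t6 i _ h5 v hv)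
      · exact hr h4
    · rw [t1] at heT
      have hlt := T.lt i
      rw [t1] at hlt
      have hk : k < (C.K ex (C.R i)).card := by
        have : ((inW L₁ a n).shrink (C.K ex)).len (C.R i) = (C.K ex (C.R i)).card := rfl
        omega
      have hkm : kth (C.K ex) (C.R i) k ∈ C.K ex (C.R i) := kth_mem hk
      have hkc := cnt_kth (K := C.K ex) hk
      obtain ⟨i', h1, h2, h3, h6⟩ := htile (C.R i) _ (hK _ _ hkm) heT
      by_cases hn : RamP.Near nT (q i') (q (lbl i))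
      · have h5 : kth (C.K ex) (C.R i) k ∈ C.y i := (c5 i _).2 ⟨i', h1, by rw [h2, c1 i], hn, h3.symm⟩
        obtain ⟨v, hv⟩ := exists_mem_ends eL (els (C.K ex) el (T.R i) k)
        refine hmid v hv i (t6 i _ h5 v ?_)
        rw [t1] at hv
        exact hv
      · have h7 := c6 i' h1 i (by rw [h2, c1 i]) hn b₀ hb₀n
        rw [h3] at h7
        obtain ⟨⟨x0, hx0, hz0⟩, x1, hx1, hz1⟩ := hzx i
        have hz0' : C.z i 0 < kth (C.K ex) (C.R i) k := by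
          by_contra hcon
          have := cnt_mono (C.K ex) (C.R i) (not_lt.1 hcon)
          have := (t9 i).1
          omega
        have hz1' : kth (C.K ex) (C.R i) k < C.z i (2 * N + 1) := by
          by_contra hcon
          have := cnt_mono (C.K ex) (C.R i) (not_lt.1 hcon)
          have := (t9 i).2
          omega
        rcases h7 with h7 | h7
        · have := h7 x0 hx0
          omega
        · have := h7 x1 hx1
          omega
    · exact hrgT e he (crr_mono htl heT)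
  have hzwin : ∀ i (b : ℤ) p, -(N : ℤ) ≤ b → b ≤ N → C.Win i b p →
      C.z i 0 < p ∧ p ≤ C.z i (2 * N + 1) := fun i b p h1 h2 h3 => C.win_z h1 h2 h3
  have hcolE : ∀ i, ColE ((inW L₁ a n).shrink (C.K ex)) (els (C.K ex) el) T i =
      passE C el i \ cel (inW L₁ a n) (C.K ex) el := fun i =>
    colE_eq hB.row hK t1 (t9 i).1 (t9 i).2
  refine ⟨C.K ex, T, Lm, eL, hK, hKn, fun i => by rw [t1, c1 i], ?_, ?_, ?_, ?_, ?_, ?_, ?_, ?_, ?_,
    hSG⟩
  · intro i b p h1 h2 h3 h4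
    rw [← c1 i]
    exact t8 i b p h1 h2 h3 (c7 i b p h1 h2 h4)
  · intro i j hij b h1 h2 h3
    exact t4 _ i j b (hJoin i j hij b h1 h2 h3) h1 h2 h3
  · rw [← hb₀, Set.disjoint_left]
    rintro e ⟨r, p, hp, hpK, rfl⟩ heT
    exact hpK (htileK r p hp heT)
  · rw [← hb₀]
    exact hshT
  · rw [← hb₀, Set.disjoint_left]
    rintro e ⟨he, hav⟩ ⟨σ', hσ', hee⟩
    rcases he with ⟨r, p, hp, rfl⟩ | he
    · by_cases hr : r ∈ BQ
      · have h1 := hSG.row r (cnt (C.K ex) r p) (cnt_lt hp)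
        have h2 : els (C.K ex) el r (cnt (C.K ex) r p) = el r p := by
          unfold els
          rw [kth_cnt hp]
        rw [h2] at h1
        refine hav (lab T Lm (((inW L₁ a n).shrink (C.K ex)).nd r (cnt (C.K ex) r p))) ?_ ?_
        · rw [h1.2]
          exact Sym2.mem_mk_left _ _
        · exact ⟨_, ⟨r, by exact_mod_cast hr, _, (cnt_lt hp).le, rfl⟩, rfl⟩
      · obtain ⟨σ'', hσ'', rfl⟩ := hσ'
        exact hB.anchor b₀ hb₀n σ'' hσ'' r hr p (hK r p hp) hee.symm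
    · refine hrgT e he ⟨σ', htl hσ', ?_⟩
      rw [← hee]
      exact List.mem_of_getLast? (h.pair.s₂.last σ' (htl hσ'))
  · intro r hr k h0 hk hout
    refine port_of_ends t1 t9 ?_ h0 hk hout
    rcases (hstr.good r hr).1 with ⟨h1, _⟩ | ⟨h1, h2⟩
    · exact Or.inl h1
    · right
      have h3 : C.K ex r ⊆ {0} := by
        intro p hp
        rcases (C.mem_K ex).1 hp with h4 | ⟨i, h4, _⟩
        · rw [h1] at h4
          exact h4
        · exact absurd h4 (h2 i)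
      exact (Finset.card_le_card h3).trans (by simp)
  · intro B hBL hA
    refine t10 (B : Set (SegR n)) ?_ (hB.indep B ?_ hA)
    · rw [Set.disjoint_left]
      exact fun r hr hrl => hBL r (by exact_mod_cast hr) hrl
    · intro r hr p hp
      obtain ⟨h1, h2⟩ := (hS.lost r (hBL r hr)).2
      rcases Nat.eq_zero_or_pos p with rfl | h0
      · exact h1
      rcases hp.lt_or_eq with h3 | rfl
      · exact inner_notQ (fun h4 => h1 ⟨r, h4, 0, Nat.zero_le _, rfl⟩) h0 h3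
      · exact h2
  · intro i j hij b b' h1 h2 h3 h1' h2' h3' hbal
    obtain ⟨g1, g2, g3, g4, g5⟩ := hJ i j hij b h1 h2 h3
    obtain ⟨g1', g2', g3', g4', g5'⟩ := hJ i j hij b' h1' h2' h3'
    rw [hcolE i, hcolE j]
    refine line_bal hB.row (hS.ed i j hij).1 (hzwin i b _ h1 h2 g1) (hzwin j b _ h1 h2 g2)
      (hzwin i b' _ h1' h2' g1') (hzwin j b' _ h1' h2' g2') g5' ?_
    rw [c1 i, c1 j]
    exact hbal
  · intro i j hij b b' h1 h2 h3 h1' h2' h3' hbal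
    obtain ⟨g1, g2, g3, g4, g5⟩ := hJ i j hij b h1 h2 h3
    obtain ⟨g1', g2', g3', g4', g5'⟩ := hJ i j hij b' h1' h2' h3'
    rw [hcolE i, hcolE j]
    refine line_unb hB.row hB.frmQ hB.Q_row hB.Q_S hstr.colQ hK hKn (hS.ed i j hij).1
      (hzwin i b _ h1 h2 g1) (hzwin j b _ h1 h2 g2)
      (hzwin i b' _ h1' h2' g1') (hzwin j b' _ h1' h2' g2') g3 g5 g3' g5' ?_
    rw [c1 i, c1 j]
    exact hbal

end

end TSH
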