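import Pool.Agent.TST.OutDef

/-!
# T-star: the rest of the wall is connected (`con_of_geo`, helper46)

The geometry of `Zq` (`GeoZ`) gives the connectedness of the nodes outside of `Zq`.
-/

open Set BIC BICS CWL
open scoped Matroid

namespace TSH

universe u

open Mdl Mdj EN Gad TST EN.Wall

section

variable {α : Type u} {M : Matroid α} {w u₁ : ℕ} {L₁ : Bool × ℕ × ℕ → List α}
  {f₁ : α → Sym2 ((ℕ × ℕ) ⊕ α)} {e₁ : Bool × ℕ × ℕ → α} {Zq : Set (Bool × ℕ × ℕ)}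

/-- the branch vertices among the nodes -/
lemma inl_LV (hG : GSide M (Seg w) L₁ f₁ e₁ u₁) {A : Set (Bool × ℕ × ℕ)} (hA : A ⊆ Seg w)
    {p : ℕ × ℕ} : (Sum.inl p : (ℕ × ℕ) ⊕ α) ∈ LV L₁ f₁ A ↔ p ∈ VV A := by
  rw [mem_LV hG hA]
  constructor
  · rintro ⟨r, hr, i, hi, h⟩
    rcases node_cases' r hi rfl with ⟨_, h3⟩ | ⟨_, h3⟩ | ⟨_, _, h3⟩
    · rw [h3] at h
      exact ⟨r, hr, Or.inl (Sum.inl.inj h)⟩
    · rw [h3] at h
      exact ⟨r, hr, Or.inr (Sum.inl.inj h)⟩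
    · rw [h3] at h
      simp at h
  · rintro ⟨r, hr, h | h⟩
    · exact ⟨r, hr, 0, Nat.zero_le _, by rw [CWL.node_zero, h]⟩
    · exact ⟨r, hr, _, le_rfl, by rw [node_last _ (gs_ne hG r (hA hr)), h]⟩

/-- the inner nodes of a row outside of `Zq` are no nodes of `Zq` -/
lemma inner_LV (hG : GSide M (Seg w) L₁ f₁ e₁ u₁) (hZ : Zq ⊆ Seg w) {r : Bool × ℕ × ℕ}
    (hr : r ∈ Seg w) (hrZ : r ∉ Zq) {i : ℕ} (h0 : 0 < i) (h1 : i < (L₁ r).length) :
    node r (L₁ r) i ∉ LV L₁ f₁ Zq := by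
  rw [mem_LV hG hZ]
  rintro ⟨r', hr', i', hi', h⟩
  rw [node_mid r h0 h1] at h
  rcases node_cases' r' hi' rfl with ⟨_, h3⟩ | ⟨_, h3⟩ | ⟨_, h4, h3⟩
  · rw [h3] at h
    simp at h
  · rw [h3] at h
    simp at h
  · rw [h3] at h
    have h5 := Sum.inr.inj h
    refine hrZ ?_
    have h6 : r = r' := row_uniq hG.disj hr (hZ hr') (x := (L₁ r)[i - 1]'(by omega))
      (List.getElem_mem _) (by rw [← h5]; exact List.getElem_mem _)
    rw [h6]
    exact hr'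

/-- a walk on a row outside of `Zq` -/
lemma row_walk (hG : GSide M (Seg w) L₁ f₁ e₁ u₁) {r : Bool × ℕ × ℕ}
    (hr : r ∈ Seg w) {i j : ℕ} (hij : i ≤ j) (hj : j ≤ (L₁ r).length)
    (hn : ∀ l, i ≤ l → l ≤ j → node r (L₁ r) l ∉ LV L₁ f₁ Zq) :
    Relation.ReflTransGen (fun x y => GAdj (SA L₁ f₁ w Zq) f₁ x y ∧
      x ∈ LV L₁ f₁ (Seg w) \ LV L₁ f₁ Zq ∧ y ∈ LV L₁ f₁ (Seg w) \ LV L₁ f₁ Zq)
      (node r (L₁ r) i) (node r (L₁ r) j) := by
  have hin : ∀ l ≤ (L₁ r).length, node r (L₁ r) l ∈ LV L₁ f₁ (Seg w) := fun l hl =>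
    (mem_LV hG subset_rfl).2 ⟨r, hr, l, hl, rfl⟩
  induction j, hij using Nat.le_induction with
  | base => exact Relation.ReflTransGen.refl
  | succ l hil ih =>
    refine (ih (by omega) fun l' h1 h2 => hn l' h1 (by omega)).tail ?_
    have h1 := hn l hil (by omega)
    have h2 := hn (l + 1) (by omega) le_rfl
    have h3 := hG.end_eq r hr l (by omega)
    refine ⟨⟨(L₁ r)[l], ⟨⟨r, hr, List.getElem_mem _⟩, ?_⟩, h3⟩, ⟨hin l (by omega), h1⟩,
      ⟨hin (l + 1) (by omega), h2⟩⟩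
    rw [h3]
    intro v hv
    rcases Sym2.mem_iff.1 hv with rfl | rfl
    · exact h1
    · exact h2

/-- **The rest of the wall is connected.** -/
theorem con_of_geo [M.Finite] (hG : GSide M (Seg w) L₁ f₁ e₁ u₁) (hZ : Zq ⊆ Seg w)
    (h : GeoZ w Zq) :
    VConn (SA L₁ f₁ w Zq) f₁ (LV L₁ f₁ (Seg w) \ LV L₁ f₁ Zq) := by
  set Rel : (ℕ × ℕ) ⊕ α → (ℕ × ℕ) ⊕ α → Prop := fun x y => GAdj (SA L₁ f₁ w Zq) f₁ x y ∧
    x ∈ LV L₁ f₁ (Seg w) \ LV L₁ f₁ Zq ∧ y ∈ LV L₁ f₁ (Seg w) \ LV L₁ f₁ Zq with hRel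
  have hsym : ∀ {x y}, Rel x y → Rel y x := fun hxy => ⟨hxy.1.symm, hxy.2.2, hxy.2.1⟩
  have hsymm : ∀ {x y}, Relation.ReflTransGen Rel x y → Relation.ReflTransGen Rel y x := by
    intro x y hxy
    induction hxy with
    | refl => exact Relation.ReflTransGen.refl
    | tail _ hbc ih => exact (Relation.ReflTransGen.single (hsym hbc)).trans ih
  -- from a node to a branch vertex
  have h1 : ∀ v ∈ LV L₁ f₁ (Seg w) \ LV L₁ f₁ Zq, ∃ p, p ∈ VV (Seg w) ∧ p ∉ VV Zq ∧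
      Relation.ReflTransGen Rel v (Sum.inl p) := by
    rintro v ⟨hv, hvZ⟩
    obtain ⟨r, hr, i, hi, rfl⟩ := (mem_LV hG subset_rfl).1 hv
    rcases node_cases' r hi rfl with ⟨_, h3⟩ | ⟨_, h3⟩ | ⟨h4, h5, h3⟩
    · rw [h3] at hvZ ⊢
      rw [inl_LV hG hZ] at hvZ
      exact ⟨_, ⟨r, hr, Or.inl rfl⟩, hvZ, Relation.ReflTransGen.refl⟩
    · rw [h3] at hvZ ⊢
      rw [inl_LV hG hZ] at hvZ
      exact ⟨_, ⟨r, hr, Or.inr rfl⟩, hvZ, Relation.ReflTransGen.refl⟩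
    · have hrZ : r ∉ Zq := fun hrZ => hvZ ((mem_LV hG hZ).2 ⟨r, hrZ, i, hi, rfl⟩)
      rcases h.row r hr hrZ with h6 | h6
      · refine ⟨segNear r, ⟨r, hr, Or.inl rfl⟩, h6, ?_⟩
        have h7 := row_walk (Zq := Zq) hG hr (i := 0) (j := i) (Nat.zero_le _) hi (by
          intro l _ hl
          rcases Nat.eq_zero_or_pos l with h0 | h0
          · subst h0
            rw [CWL.node_zero, inl_LV hG hZ]
            exact h6
          · exact inner_LV hG hZ hr hrZ h0 (by omega))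
        rw [CWL.node_zero] at h7
        exact hsymm h7
      · refine ⟨segFar r, ⟨r, hr, Or.inr rfl⟩, h6, ?_⟩
        have h7 := row_walk (Zq := Zq) hG hr (i := i) (j := (L₁ r).length) hi le_rfl (by
          intro l hl hl'
          rcases hl'.lt_or_eq with h0 | h0
          · exact inner_LV hG hZ hr hrZ (by omega) h0
          · subst h0
            rw [node_last _ (gs_ne hG r hr), inl_LV hG hZ]
            exact h6)
        rw [node_last _ (gs_ne hG r hr)] at h7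
        exact h7
  -- a whole row
  have h2 : ∀ r ∈ Seg w, segNear r ∉ VV Zq → segFar r ∉ VV Zq →
      Relation.ReflTransGen Rel (Sum.inl (segNear r)) (Sum.inl (segFar r)) := by
    intro r hr h3 h4
    have hrZ : r ∉ Zq := fun hrZ => h3 ⟨r, hrZ, Or.inl rfl⟩
    have h7 := row_walk (Zq := Zq) hG hr (i := 0) (j := (L₁ r).length) (Nat.zero_le _) le_rfl (by
      intro l _ hl'
      rcases Nat.eq_zero_or_pos l with h0 | h0
      · subst h0
        rw [CWL.node_zero, inl_LV hG hZ]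
        exact h3
      · rcases hl'.lt_or_eq with h1 | h1
        · exact inner_LV hG hZ hr hrZ h0 h1
        · subst h1
          rw [node_last _ (gs_ne hG r hr), inl_LV hG hZ]
          exact h4)
    rw [CWL.node_zero, node_last _ (gs_ne hG r hr)] at h7
    exact h7
  have h3 : ∀ p ∈ VV (Seg w), p ∉ VV Zq → ∀ p' ∈ VV (Seg w), p' ∉ VV Zq →
      Relation.ReflTransGen Rel (Sum.inl p) (Sum.inl p') := by
    intro p hp hpZ p' hp' hpZ'
    have h4 := h.con p hp hpZ p' hp' hpZ'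
    clear hp' hpZ'
    induction h4 with
    | refl => exact Relation.ReflTransGen.refl
    | tail _ hbc ih =>
      refine ih.trans ?_
      obtain ⟨k1, k2, r, hr, ⟨rfl, rfl⟩ | ⟨rfl, rfl⟩⟩ := hbc
      · exact h2 r hr k1 k2
      · exact hsymm (h2 r hr k2 k1)
  intro u hu v hv
  obtain ⟨p, hp, hpZ, hpu⟩ := h1 u hu
  obtain ⟨p', hp', hpZ', hpv⟩ := h1 v hv
  exact hpu.trans ((h3 p hp hpZ p' hp' hpZ').trans (hsymm hpv))

end

end TSH
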