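import Mathlib.Data.Set.Basic
import Mathlib.Tactic

/-!
# One-place elements and the core of a star (T-star, helper77)
-/

open Set

namespace TST

/-- **One-place elements.**  `C` = core, `pa z` = places of the rungs, every element outside of `C` is
separated from `C` by a place.  A set `A` which is comparable with all places and cuts `C` is on
`X \ C` the fixed set `{x | some place contains x and is disjoint from C}`. -/
theorem core_one {α ι : Type*} {X C A : Set α} {Z : Set ι} {pa : ι → Set α} (hCX : C ⊆ X)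
    (hout : ∀ x ∈ X, x ∉ C → ∃ z ∈ Z, ∀ y ∈ C, ¬ (x ∈ pa z ↔ y ∈ pa z))
    (hn : ∀ z ∈ Z, (∀ x ∈ X, x ∈ pa z → x ∈ A) ∨ ∀ x ∈ X, x ∈ A → x ∈ pa z)
    {x₀ y₀ : α} (hx₀ : x₀ ∈ C) (hx₀A : x₀ ∈ A) (hy₀ : y₀ ∈ C) (hy₀A : y₀ ∉ A) {x : α}
    (hx : x ∈ X) (hxC : x ∉ C) : x ∈ A ↔ ∃ z ∈ Z, x ∈ pa z ∧ ∀ y ∈ C, y ∉ pa z := by
  constructor
  · intro hxA
    obtain ⟨z, hz, h1⟩ := hout x hx hxC
    have h2 : x ∈ pa z := by
      by_contra h2
      have h3 : ∀ y ∈ C, y ∈ pa z := fun y hy => by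
        by_contra h4
        exact h1 y hy ⟨fun h5 => absurd h5 h2, fun h5 => absurd h5 h4⟩
      rcases hn z hz with h4 | h4
      · exact hy₀A (h4 y₀ (hCX hy₀) (h3 y₀ hy₀))
      · exact h2 (h4 x hx hxA)
    exact ⟨z, hz, h2, fun y hy h3 => h1 y hy ⟨fun _ => h3, fun _ => h2⟩⟩
  · rintro ⟨z, hz, h1, h2⟩
    rcases hn z hz with h4 | h4
    · exact h4 x hx h1
    · exact absurd (h4 x₀ (hCX hx₀) hx₀A) (h2 x₀ hx₀)

end TST
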