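import Pool.Agent.TST.BaseDef
import Pool.Agent.CW.CoverF

/-!
# T-star: the world with two thresholds (helper34)
-/

open Set BIC BICS CWL
open scoped Matroid

namespace TSH

universe u

/-- **A1 + A2 + COVERING**, two thresholds. -/
theorem coverE2 (k K : ℕ) (hk : 1 ≤ k) : CoverE2.{u} k K := coverExistsF.{u} k K hk

end TSH
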