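import Pool.Agent.CW.Side
import Pool.Agent.DA.GlB

/-!
# Row B3 (part 1): crossing pairs of elements on one row

`x` is the inner vertex of a row `u - c - x - c' - v`.  `t` and `t'` are located at `x`.  After the
contraction of `t` and the deletion of `c`, `c'` the element `t'` is located at the symmetric
difference of the two sets of locations.
-/

open Set BIC BICS
open scoped Matroid

namespace TST

open Gad

variable {α V ι : Type*}

section one

variable {P : Matroid α} {S : Set α} {ends : α → Sym2 V}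

lemma mem_loc {z : α} {v : V} :
    v ∈ CWL.Loc P S ends z ↔ z ∉ P.closure (ins S ends {v}ᶜ) := Iff.rfl

lemma not_mem_loc {z : α} {v : V} :
    v ∉ CWL.Loc P S ends z ↔ z ∈ P.closure (ins S ends {v}ᶜ) := by
  rw [mem_loc, not_not]

/-- exchange: an element of `cl (X + t)` which lies in a flat `cl Y ⊇ X` without `t` is in `cl X` -/
lemma cl_drop {X Y : Set α} {t z : α} (hXY : X ⊆ P.closure Y) (ht : t ∉ P.closure Y)
    (hz : z ∈ P.closure (insert t X)) (hzY : z ∈ P.closure Y) : z ∈ P.closure X := by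
  by_contra hn
  have h1 := (P.closure_exchange ⟨hz, hn⟩).1
  refine ht ?_
  have h2 : insert z X ⊆ P.closure Y := insert_subset hzY hXY
  have h3 := P.closure_subset_closure h2 h1
  rwa [P.closure_closure] at h3

/-- exchange: replace `c` by `t` -/
lemma cl_swap {X : Set α} (hX : X ⊆ P.E) {c t : α} (ht : t ∈ P.closure (insert c X))
    (htX : t ∉ P.closure X) : P.closure (insert c X) ⊆ P.closure (insert t X) := by
  have h1 := (P.closure_exchange ⟨ht, htX⟩).1
  have htE : t ∈ P.E := P.closure_subset_ground _ ht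
  refine P.closure_subset_closure_of_subset_closure ?_
  refine insert_subset h1 ?_
  exact (P.subset_closure X hX).trans (P.closure_subset_closure (subset_insert _ _))

/-- the rank in a contraction is at most the rank -/
lemma eRk_con_le [P.Finite] {F X : Set α} (hF : P.Indep F) (hX : X ⊆ P.E \ F) :
    (P ／ F).eRk X ≤ P.eRk X := by
  have h4 := BQ.rk_con (M := P) hF.subset_ground hX
  have h5 := rk_union_le P (X := X) (Y := F) (P.ground_finite.subset hF.subset_ground)
  have h6 := rk_indep hF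
  have h7 : rk (P ／ F) X ≤ rk P X := by omega
  have : (P ／ F).Finite := BQ.fin_contract F
  rw [← cast_rk (P ／ F), ← cast_rk P]
  exact_mod_cast h7

/-- one crossing pair; `ρ` is the rest of the wall -/
structure CrossOne (P : Matroid α) (S : Set α) (ends : α → Sym2 V) (u x v : V) (c c' : α)
    (S' : Set α) : Prop where
  hc : c ∈ S
  hc' : c' ∈ S
  ec : ends c = s(u, x)
  ec' : ends c' = s(x, v)
  ux : u ≠ x
  vx : v ≠ x
  at_x : ∀ f ∈ S, x ∈ ends f → f = c ∨ f = c'
  eqS : S' = S \ {c, c'}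
  full : S ⊆ P.closure (insert c S')
  full1 : ∀ w, w ≠ u → w ≠ v → w ≠ x → c' ∈ P.closure (insert c (ins S' ends {w}ᶜ))

namespace CrossOne

variable {u x v : V} {c c' : α} {S' : Set α}

lemma insx (h : CrossOne P S ends u x v c c' S') : ins S ends {x}ᶜ = S' := by
  rw [h.eqS]
  ext f
  constructor
  · rintro ⟨h1, h2⟩
    refine ⟨h1, ?_⟩
    rintro (rfl | h3)
    · exact h2 x (by rw [h.ec]; simp) rfl
    · rw [mem_singleton_iff] at h3
      subst h3
      exact h2 x (by rw [h.ec']; simp) rfl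
  · rintro ⟨h1, h2⟩
    refine ⟨h1, fun y hy hyx => ?_⟩
    rw [mem_singleton_iff] at hyx
    subst hyx
    rcases h.at_x f h1 hy with h3 | h3
    · exact h2 (Or.inl h3)
    · exact h2 (Or.inr h3)

lemma sub (h : CrossOne P S ends u x v c c' S') : S' ⊆ S := by
  rw [h.eqS]; exact sdiff_subset

lemma ins_sub (h : CrossOne P S ends u x v c c' S') (W : Set V) :
    ins S' ends W ⊆ ins S ends W := fun _ he => ⟨h.sub he.1, he.2⟩

lemma ins_sup (h : CrossOne P S ends u x v c c' S') {W : Set V} {f : α} (hf : f ∈ ins S ends W) :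
    f ∈ ins S' ends W ∨ f = c ∨ f = c' := by
  by_cases h1 : f = c ∨ f = c'
  · exact Or.inr h1
  · refine Or.inl ⟨?_, hf.2⟩
    rw [h.eqS]
    exact ⟨hf.1, fun h2 => h1 (by simpa using h2)⟩

/-- an element `c₀` of the pair which avoids `w` -/
lemma exists_c₀ (h : CrossOne P S ends u x v c c' S') (huv : u ≠ v) {w : V} (hw : w ≠ x) :
    ∃ c₀, c₀ ∈ ins S ends {w}ᶜ ∧ (c₀ = c ∨ c₀ = c') ∧
      ins S ends {w}ᶜ ⊆ P.closure (insert c₀ (ins S' ends {w}ᶜ)) ∪ P.Eᶜ := by
  by_cases hu : w = u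
  · refine ⟨c', ⟨h.hc', ?_⟩, Or.inr rfl, ?_⟩
    · intro y hy hyw
      rw [mem_singleton_iff] at hyw
      rw [h.ec', Sym2.mem_iff] at hy
      rcases hy with rfl | rfl
      · exact hw hyw.symm
      · exact huv (by rw [← hu, hyw])
    · intro f hf
      by_cases hfE : f ∈ P.E
      · left
        rcases h.ins_sup hf with h1 | rfl | rfl
        · exact P.mem_closure_of_mem' (Or.inr h1) hfE
        · exact absurd (hf.2 u (by rw [h.ec]; simp)) (by rw [← hu]; simp)
        · exact P.mem_closure_of_mem' (Or.inl rfl) hfE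
      · exact Or.inr hfE
  · refine ⟨c, ⟨h.hc, ?_⟩, Or.inl rfl, ?_⟩
    · intro y hy hyw
      rw [mem_singleton_iff] at hyw
      rw [h.ec, Sym2.mem_iff] at hy
      rcases hy with rfl | rfl
      · exact hu hyw.symm
      · exact hw hyw.symm
    · intro f hf
      by_cases hfE : f ∈ P.E
      · left
        rcases h.ins_sup hf with h1 | rfl | rfl
        · exact P.mem_closure_of_mem' (Or.inr h1) hfE
        · exact P.mem_closure_of_mem' (Or.inl rfl) hfE
        · by_cases hv : w = v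
          · exact absurd (hf.2 v (by rw [h.ec']; simp)) (by rw [← hv]; simp)
          · exact h.full1 w hu hv hw
      · exact Or.inr hfE

/-- `c₀` is not in the closure of the rest of the wall -/
lemma not_mem (hB : Bic P S ends) (h : CrossOne P S ends u x v c c' S') {c₀ : α}
    (h0 : c₀ = c ∨ c₀ = c') : c₀ ∉ P.closure S' := by
  rw [← h.insx]
  rcases h0 with rfl | rfl
  · exact not_mem_Hx' hB h.hc (by rw [h.ec]; simp)
  · exact not_mem_Hx' hB h.hc' (by rw [h.ec']; simp)

lemma insE (hB : Bic P S ends) (h : CrossOne P S ends u x v c c' S') (W : Set V) :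
    ins S' ends W ⊆ P.E := fun _ he => hB.sub (h.sub he.1)

/-- the flat of the elements which avoid `w` -/
lemma cl_w (hB : Bic P S ends) (h : CrossOne P S ends u x v c c' S') (huv : u ≠ v) {w : V}
    (hw : w ≠ x) {t : α} (hxt : t ∉ P.closure S') (hwt : t ∈ P.closure (ins S ends {w}ᶜ)) :
    P.closure (ins S ends {w}ᶜ) ⊆ P.closure (insert t (ins S' ends {w}ᶜ)) := by
  obtain ⟨c₀, h1, h2, h3⟩ := h.exists_c₀ huv hw
  have h4 : ins S ends {w}ᶜ ⊆ P.closure (insert c₀ (ins S' ends {w}ᶜ)) := by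
    intro f hf
    rcases h3 hf with h5 | h5
    · exact h5
    · exact absurd (hB.sub hf.1) h5
  have h5 : P.closure (ins S ends {w}ᶜ) ⊆ P.closure (insert c₀ (ins S' ends {w}ᶜ)) :=
    P.closure_subset_closure_of_subset_closure h4
  refine h5.trans (cl_swap (h.insE hB _) (h5 hwt) ?_)
  intro h6
  exact hxt (P.closure_subset_closure (fun a ha => ha.1) h6)

/-- elements of the closure of the rest keep their non-locations -/
lemma rest_w (hB : Bic P S ends) (h : CrossOne P S ends u x v c c' S') (huv : u ≠ v) {w : V}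
    (hw : w ≠ x) {z : α} (hz : z ∈ P.closure S') (hwz : z ∈ P.closure (ins S ends {w}ᶜ)) :
    z ∈ P.closure (ins S' ends {w}ᶜ) := by
  obtain ⟨c₀, h1, h2, h3⟩ := h.exists_c₀ huv hw
  have h4 : ins S ends {w}ᶜ ⊆ P.closure (insert c₀ (ins S' ends {w}ᶜ)) := by
    intro f hf
    rcases h3 hf with h5 | h5
    · exact h5
    · exact absurd (hB.sub hf.1) h5
  have h5 : z ∈ P.closure (insert c₀ (ins S' ends {w}ᶜ)) :=
    P.closure_subset_closure_of_subset_closure h4 hwz
  exact cl_drop (Y := S') (fun a ha => P.mem_closure_of_mem' ha.1 (h.insE hB _ ha))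
    (h.not_mem hB h2) h5 hz

lemma con_loc {t z : α} (hzt : z ≠ t) (w : V) :
    w ∈ CWL.Loc (P ／ {t}) S' ends z ↔ z ∉ P.closure (insert t (ins S' ends {w}ᶜ)) := by
  rw [mem_loc, Matroid.contract_closure_eq, union_singleton]
  simp [hzt]

/-- **(a)** -/
theorem bic [P.Finite] (hB : Bic P S ends) (h : CrossOne P S ends u x v c c' S') {t : α}
    (ht : t ∈ P.closure S) (hxt : x ∈ CWL.Loc P S ends t) : Bic (P ／ {t}) S' ends := by
  rw [mem_loc, h.insx] at hxt
  have htE : t ∈ P.E := P.closure_subset_ground _ ht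
  have hI : P.Indep {t} := by
    rw [Matroid.indep_singleton, ← Matroid.not_isLoop_iff htE]
    intro hl
    exact hxt (P.closure_subset_closure (empty_subset _) hl)
  have hS'E : S' ⊆ P.E := h.sub.trans hB.sub
  refine ⟨?_, ?_, ?_⟩
  · intro e he
    refine ⟨hS'E he, ?_⟩
    rintro rfl
    exact hxt (P.mem_closure_of_mem' he (hS'E he))
  · intro F φ hF h1 h2
    rw [hI.contract_indep_iff]
    have hF' : P.Indep F := hB.ind F φ (hF.trans h.sub) h1 h2
    have htF : t ∉ P.closure F := fun h3 => hxt (P.closure_subset_closure hF h3)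
    refine ⟨disjoint_singleton_right.2 fun h3 => htF (P.mem_closure_of_mem' h3 htE), ?_⟩
    rw [union_singleton]
    exact (hF'.notMem_closure_iff_of_notMem (fun h3 => htF (P.mem_closure_of_mem' h3 htE)) htE).1
      htF
  · intro W
    refine le_trans ?_ (hB.rk W)
    refine le_trans ?_ (P.eRk_mono (h.ins_sub W))
    refine eRk_con_le hI fun a ha => ⟨hS'E ha.1, ?_⟩
    rintro rfl
    exact hxt (P.mem_closure_of_mem' ha.1 (hS'E ha.1))

/-- **(b)** -/
theorem mem_cl (hB : Bic P S ends) (h : CrossOne P S ends u x v c c' S') {t z : α}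
    (ht : t ∈ P.closure S) (hxt : x ∈ CWL.Loc P S ends t) (hz : z ∈ P.closure S) (hzt : z ≠ t) :
    z ∈ (P ／ {t}).closure S' := by
  rw [mem_loc, h.insx] at hxt
  rw [Matroid.contract_closure_eq, union_singleton]
  refine ⟨?_, hzt⟩
  have h1 : P.closure S ⊆ P.closure (insert c S') :=
    P.closure_subset_closure_of_subset_closure h.full
  exact cl_swap (h.sub.trans hB.sub) (h1 ht) hxt (h1 hz)

/-- **(c)** -/
theorem loc_rest (hB : Bic P S ends) (h : CrossOne P S ends u x v c c' S') (huv : u ≠ v)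
    {t z : α} (hxt : x ∈ CWL.Loc P S ends t) (hxz : x ∉ CWL.Loc P S ends z) {w : V}
    (hw : w ≠ x) :
    w ∈ CWL.Loc (P ／ {t}) S' ends z ↔ w ∈ CWL.Loc P S ends z := by
  rw [mem_loc, h.insx] at hxt
  rw [not_mem_loc, h.insx] at hxz
  have hzt : z ≠ t := by
    rintro rfl
    exact hxt hxz
  rw [con_loc hzt, mem_loc, not_iff_not]
  constructor
  · intro h1
    have h2 := cl_drop (Y := S') (fun a ha => P.mem_closure_of_mem' ha.1 (h.insE hB _ ha)) hxt
      h1 hxz
    exact P.closure_subset_closure (h.ins_sub _) h2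
  · intro h1
    exact P.closure_subset_closure (subset_insert _ _) (h.rest_w hB huv hw hxz h1)

/-- **(d)** the symmetric difference -/
theorem loc_sym (hB : Bic P S ends) (h : CrossOne P S ends u x v c c' S') {t z : α}
    (hxz : x ∈ CWL.Loc P S ends z) (hzt : z ≠ t) {w : V}
    (hw : ¬ (w ∈ CWL.Loc P S ends z ↔ w ∈ CWL.Loc P S ends t)) :
    w ∈ CWL.Loc (P ／ {t}) S' ends z := by
  rw [mem_loc, h.insx] at hxz
  rw [con_loc hzt]
  intro h1
  by_cases hwt : w ∈ CWL.Loc P S ends t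
  · have hwz : w ∉ CWL.Loc P S ends z := fun h2 => hw ⟨fun _ => hwt, fun _ => h2⟩
    rw [not_mem_loc] at hwz
    have h2 := (P.closure_exchange ⟨h1, fun h3 => hxz
      (P.closure_subset_closure (fun a ha => ha.1) h3)⟩).1
    refine hwt ?_
    have h3 : insert z (ins S' ends {w}ᶜ) ⊆ P.closure (ins S ends {w}ᶜ) := by
      refine insert_subset hwz fun a ha => ?_
      exact P.mem_closure_of_mem' (h.ins_sub _ ha) (h.insE hB _ ha)
    exact P.closure_subset_closure_of_subset_closure h3 h2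
  · have hwz : w ∈ CWL.Loc P S ends z := by
      by_contra h2
      exact hw ⟨fun h3 => absurd h3 h2, fun h3 => absurd h3 hwt⟩
    rw [not_mem_loc] at hwt
    refine hwz ?_
    have h3 : insert t (ins S' ends {w}ᶜ) ⊆ P.closure (ins S ends {w}ᶜ) := by
      refine insert_subset hwt fun a ha => ?_
      exact P.mem_closure_of_mem' (h.ins_sub _ ha) (h.insE hB _ ha)
    exact P.closure_subset_closure_of_subset_closure h3 h1

/-- **(e)** the union -/
theorem loc_union (hB : Bic P S ends) (h : CrossOne P S ends u x v c c' S') (huv : u ≠ v)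
    {t z : α} (hxt : x ∈ CWL.Loc P S ends t) (hzt : z ≠ t) {w : V} (hw : w ≠ x)
    (hwl : w ∈ CWL.Loc (P ／ {t}) S' ends z) :
    w ∈ CWL.Loc P S ends z ∨ w ∈ CWL.Loc P S ends t := by
  by_contra hn
  push Not at hn
  rw [mem_loc, h.insx] at hxt
  rw [not_mem_loc, not_mem_loc] at hn
  rw [con_loc hzt] at hwl
  exact hwl (h.cl_w hB huv hw hxt hn.2 hn.1)

/-- the inner vertex is lost -/
theorem loc_x (h : CrossOne P S ends u x v c c' S') {t z : α}
    (hz : z ∈ (P ／ {t}).closure S') : x ∉ CWL.Loc (P ／ {t}) S' ends z := by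
  rw [not_mem_loc]
  have h1 : ins S' ends {x}ᶜ = S' := by
    ext f
    refine ⟨fun hf => hf.1, fun hf => ⟨hf, ?_⟩⟩
    have h2 := hf
    rw [← h.insx] at h2
    exact h2.2
  rwa [h1]

end CrossOne

end one

/-- a family of crossing pairs `t j`, `z j` on different rows `u j - c j - x j - c' j - v j` -/
structure CrossFam (P : Matroid α) (S : Set α) (ends : α → Sym2 V) (J : Finset ι) (u x v : ι → V)
    (c c' t z : ι → α) (S' : Set α) : Prop where
  hc : ∀ j ∈ J, c j ∈ S ∧ c' j ∈ S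
  ec : ∀ j ∈ J, ends (c j) = s(u j, x j) ∧ ends (c' j) = s(x j, v j)
  uv : ∀ j ∈ J, u j ≠ v j
  ux : ∀ j ∈ J, ∀ i ∈ J, u j ≠ x i ∧ v j ≠ x i
  xx : ∀ j ∈ J, ∀ i ∈ J, x j = x i → j = i
  at_x : ∀ j ∈ J, ∀ f ∈ S, x j ∈ ends f → f = c j ∨ f = c' j
  eqS : S' = S \ ⋃ j ∈ J, {c j, c' j}
  full : ∀ j ∈ J, c' j ∈ P.closure (insert (c j) S')
  full1 : ∀ j ∈ J, ∀ w, w ≠ u j → w ≠ v j → w ≠ x j →
    c' j ∈ P.closure (insert (c j) (ins S' ends {w}ᶜ))
  tc : ∀ j ∈ J, t j ∈ P.closure S ∧ z j ∈ P.closure S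
  tz : ∀ j ∈ J, z j ≠ t j
  tx : ∀ j ∈ J, ∀ i ∈ J, x i ∈ CWL.Loc P S ends (t j) ↔ i = j
  zx : ∀ j ∈ J, ∀ i ∈ J, x i ∈ CWL.Loc P S ends (z j) ↔ i = j

/-- **Crossing pairs, all at the same time.** -/
theorem CrossFam.main [DecidableEq ι] (J : Finset ι) {u x v : ι → V} {c c' t z : ι → α}
    {ends : α → Sym2 V} {S' : Set α} :
    ∀ {P : Matroid α} [P.Finite] {S : Set α}, Bic P S ends →
      CrossFam P S ends J u x v c c' t z S' →
      Bic (P ／ (t '' (J : Set ι))) S' ends ∧
      (∀ y ∈ P.closure S, (∀ i ∈ J, x i ∉ CWL.Loc P S ends y) →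
        y ∈ (P ／ (t '' (J : Set ι))).closure S' ∧ ∀ w, (∀ i ∈ J, w ≠ x i) →
          (w ∈ CWL.Loc (P ／ (t '' (J : Set ι))) S' ends y ↔ w ∈ CWL.Loc P S ends y)) ∧
      ∀ j ∈ J, z j ∈ (P ／ (t '' (J : Set ι))).closure S' ∧
        (∀ w, (∀ i ∈ J, w ≠ x i) →
          (¬ (w ∈ CWL.Loc P S ends (z j) ↔ w ∈ CWL.Loc P S ends (t j)) →
            w ∈ CWL.Loc (P ／ (t '' (J : Set ι))) S' ends (z j)) ∧
          (w ∈ CWL.Loc (P ／ (t '' (J : Set ι))) S' ends (z j) →
            w ∈ CWL.Loc P S ends (z j) ∨ w ∈ CWL.Loc P S ends (t j))) := by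
  induction J using Finset.induction_on with
  | empty =>
    intro P _ S hB h
    have e1 : S' = S := by
      rw [h.eqS]; simp
    subst e1
    have e2 : P ／ (t '' ((∅ : Finset ι) : Set ι)) = P := by
      rw [Finset.coe_empty, image_empty, Matroid.contract_empty]
    rw [e2]
    exact ⟨hB, fun y hy _ => ⟨hy, fun w _ => Iff.rfl⟩,
      fun j hj => absurd hj (Finset.notMem_empty j)⟩
  | insert j₀ J hj₀ ih =>
    intro P _ S hB h
    have h0 := Finset.mem_insert_self j₀ J
    have hJ : ∀ {j}, j ∈ J → j ∈ insert j₀ J := fun hj => Finset.mem_insert_of_mem hj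
    have hne : ∀ {j}, j ∈ J → j ≠ j₀ := fun hj h' => hj₀ (h' ▸ hj)
    set S1 : Set α := S \ {c j₀, c' j₀} with hS1
    have hSS1 : S' ⊆ S1 := by
      rw [h.eqS]
      refine sdiff_subset_sdiff_right ?_
      exact subset_biUnion_of_mem (u := fun j => ({c j, c' j} : Set α)) (show j₀ ∈
        (insert j₀ J : Finset ι) from h0)
    have hone : CrossOne P S ends (u j₀) (x j₀) (v j₀) (c j₀) (c' j₀) S1 := by
      refine ⟨(h.hc _ h0).1, (h.hc _ h0).2, (h.ec _ h0).1, (h.ec _ h0).2, (h.ux _ h0 _ h0).1,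
        (h.ux _ h0 _ h0).2, h.at_x _ h0, rfl, ?_, ?_⟩
      · intro f hf
        by_cases h1 : f = c' j₀
        · rw [h1]
          exact P.closure_subset_closure (insert_subset_insert hSS1) (h.full _ h0)
        · refine P.mem_closure_of_mem' ?_ (hB.sub hf)
          by_cases h2 : f = c j₀
          · exact Or.inl h2
          · exact Or.inr ⟨hf, by
              rintro (h3 | h3)
              · exact h2 h3
              · exact h1 h3⟩
      · intro w h1 h2 h3
        have h4 : ins S' ends {w}ᶜ ⊆ ins S1 ends {w}ᶜ := fun a ha => ⟨hSS1 ha.1, ha.2⟩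
        exact P.closure_subset_closure (insert_subset_insert h4) (h.full1 _ h0 w h1 h2 h3)
    have hx0 : x j₀ ∈ CWL.Loc P S ends (t j₀) := (h.tx _ h0 _ h0).2 rfl
    have hz0 : x j₀ ∈ CWL.Loc P S ends (z j₀) := (h.zx _ h0 _ h0).2 rfl
    have ht0 := (h.tc _ h0).1
    have hB1 : Bic (P ／ {t j₀}) S1 ends := hone.bic hB ht0 hx0
    have hfin : (P ／ {t j₀}).Finite := BQ.fin_contract _
    have hcl1 : ∀ {X : Set α} {a : α}, a ∈ P.closure X → a ≠ t j₀ →
        a ∈ (P ／ {t j₀}).closure X := by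
      intro X a ha hat
      rw [Matroid.contract_closure_eq]
      exact ⟨P.closure_subset_closure subset_union_left ha, hat⟩
    -- a general element
    have hy1 : ∀ y ∈ P.closure S, x j₀ ∉ CWL.Loc P S ends y → y ≠ t j₀ := by
      rintro y _ h1 rfl
      exact h1 hx0
    have hcne : ∀ j ∈ J, c j ∈ S1 ∧ c' j ∈ S1 := by
      intro j hj
      have h1 := h.ec _ (hJ hj)
      have h2 := h.ec _ h0
      have h3 := h.ux _ (hJ hj) _ h0
      have h4 := h.ux _ h0 _ (hJ hj)
      have h5 : x j ≠ x j₀ := fun h' => hne hj (h.xx _ (hJ hj) _ h0 h')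
      constructor
      · refine ⟨(h.hc _ (hJ hj)).1, ?_⟩
        rintro (h6 | h6)
        · have h7 := h1.1
          rw [h6, h2.1, Sym2.eq_iff] at h7
          rcases h7 with ⟨_, h8⟩ | ⟨h8, _⟩
          · exact h5 h8.symm
          · exact h4.1 h8
        · rw [mem_singleton_iff] at h6
          have h7 := h1.1
          rw [h6, h2.2, Sym2.eq_iff] at h7
          rcases h7 with ⟨h8, _⟩ | ⟨h8, _⟩
          · exact h3.1 h8.symm
          · exact h5 h8.symm
      · refine ⟨(h.hc _ (hJ hj)).2, ?_⟩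
        rintro (h6 | h6)
        · have h7 := h1.2
          rw [h6, h2.1, Sym2.eq_iff] at h7
          rcases h7 with ⟨_, h8⟩ | ⟨_, h8⟩
          · exact h3.2 h8.symm
          · exact h5 h8.symm
        · rw [mem_singleton_iff] at h6
          have h7 := h1.2
          rw [h6, h2.2, Sym2.eq_iff] at h7
          rcases h7 with ⟨h8, _⟩ | ⟨_, h8⟩
          · exact h5 h8.symm
          · exact h4.2 h8
    have hS1t : t j₀ ∉ P.closure S1 := by
      have h1 := hx0
      rw [mem_loc, hone.insx] at h1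
      exact h1
    have hcf : CrossFam (P ／ {t j₀}) S1 ends J u x v c c' t z S' := by
      refine ⟨hcne, fun j hj => h.ec _ (hJ hj), fun j hj => h.uv _ (hJ hj),
        fun j hj i hi => h.ux _ (hJ hj) _ (hJ hi), fun j hj i hi => h.xx _ (hJ hj) _ (hJ hi),
        fun j hj f hf => h.at_x _ (hJ hj) f hf.1, ?_, ?_, ?_, ?_, fun j hj => h.tz _ (hJ hj), ?_, ?_⟩
      · rw [h.eqS, hS1, Finset.set_biUnion_insert, Set.sdiff_sdiff]
      · intro j hj
        refine hcl1 (h.full _ (hJ hj)) ?_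
        intro h1
        exact hS1t (P.mem_closure_of_mem' (h1 ▸ (hcne j hj).2) (hB.sub (h1 ▸ (h.hc _ (hJ hj)).2)))
      · intro j hj w h1 h2 h3
        refine hcl1 (h.full1 _ (hJ hj) w h1 h2 h3) ?_
        intro h1
        exact hS1t (P.mem_closure_of_mem' (h1 ▸ (hcne j hj).2) (hB.sub (h1 ▸ (h.hc _ (hJ hj)).2)))
      · intro j hj
        have h1 : x j₀ ∉ CWL.Loc P S ends (t j) := fun h' =>
          hne hj (((h.tx _ (hJ hj) _ h0).1 h').symm)
        have h2 : x j₀ ∉ CWL.Loc P S ends (z j) := fun h' =>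
          hne hj (((h.zx _ (hJ hj) _ h0).1 h').symm)
        have h3 := h.tc _ (hJ hj)
        exact ⟨hone.mem_cl hB ht0 hx0 h3.1 (hy1 _ h3.1 h1),
          hone.mem_cl hB ht0 hx0 h3.2 (hy1 _ h3.2 h2)⟩
      · intro j hj i hi
        have h1 : x j₀ ∉ CWL.Loc P S ends (t j) := fun h' =>
          hne hj (((h.tx _ (hJ hj) _ h0).1 h').symm)
        rw [hone.loc_rest hB (h.uv _ h0) hx0 h1
          (fun h' => hne hi (h.xx _ (hJ hi) _ h0 h'))]
        exact h.tx _ (hJ hj) _ (hJ hi)
      · intro j hj i hi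
        have h1 : x j₀ ∉ CWL.Loc P S ends (z j) := fun h' =>
          hne hj (((h.zx _ (hJ hj) _ h0).1 h').symm)
        rw [hone.loc_rest hB (h.uv _ h0) hx0 h1
          (fun h' => hne hi (h.xx _ (hJ hi) _ h0 h'))]
        exact h.zx _ (hJ hj) _ (hJ hi)
    obtain ⟨i1, i2, i3⟩ := ih hB1 hcf
    have eC : P ／ {t j₀} ／ (t '' (J : Set ι)) = P ／ (t '' ((insert j₀ J : Finset ι) : Set ι)) := by
      rw [Matroid.contract_contract, Finset.coe_insert, image_insert_eq, ← singleton_union]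
    rw [eC] at i1 i2 i3
    refine ⟨i1, ?_, ?_⟩
    · intro y hy hxy
      have h1 := hxy _ h0
      have h2 := hone.mem_cl hB ht0 hx0 hy (hy1 y hy h1)
      obtain ⟨h3, h4⟩ := i2 y h2 (by
        intro i hi
        rw [hone.loc_rest hB (h.uv _ h0) hx0 h1 (fun h' => hne hi (h.xx _ (hJ hi) _ h0 h'))]
        exact hxy i (hJ hi))
      refine ⟨h3, fun w hw => ?_⟩
      rw [h4 w (fun i hi => hw i (hJ hi))]
      exact hone.loc_rest hB (h.uv _ h0) hx0 h1 (hw _ h0)
    · intro j hj
      rcases Finset.mem_insert.1 hj with rfl | hj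
      · have h2 := hone.mem_cl hB ht0 hx0 (h.tc _ h0).2 (h.tz _ h0)
        obtain ⟨h3, h4⟩ := i2 (z j) h2 (by
          intro i hi hcon
          rcases hone.loc_union hB (h.uv _ h0) hx0 (h.tz _ h0)
            (fun h' => hne hi (h.xx _ (hJ hi) _ h0 h')) hcon with h5 | h5
          · exact hne hi ((h.zx _ h0 _ (hJ hi)).1 h5)
          · exact hne hi ((h.tx _ h0 _ (hJ hi)).1 h5))
        refine ⟨h3, fun w hw => ?_⟩
        rw [h4 w (fun i hi => hw i (hJ hi))]
        refine ⟨fun h5 => hone.loc_sym hB hz0 (h.tz _ h0) h5, fun h5 => ?_⟩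
        exact hone.loc_union hB (h.uv _ h0) hx0 (h.tz _ h0) (hw _ h0) h5
      · obtain ⟨h3, h4⟩ := i3 j hj
        have h1 : x j₀ ∉ CWL.Loc P S ends (t j) := fun h' =>
          hne hj (((h.tx _ (hJ hj) _ h0).1 h').symm)
        have h2 : x j₀ ∉ CWL.Loc P S ends (z j) := fun h' =>
          hne hj (((h.zx _ (hJ hj) _ h0).1 h').symm)
        refine ⟨h3, fun w hw => ?_⟩
        have h5 := h4 w (fun i hi => hw i (hJ hi))
        rw [hone.loc_rest hB (h.uv _ h0) hx0 h1 (hw _ h0),
          hone.loc_rest hB (h.uv _ h0) hx0 h2 (hw _ h0)] at h5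
        exact h5

end TST
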