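import Pool.Agent.TST.DualK

/-!
# The crossing lemmas [CR'] and [CRh] (CLAIM A of T-star; pure matroid theory, helper33)
-/

open Set
open scoped Matroid

namespace TST

variable {α : Type*} {N : Matroid α} {K : Set α} {t t' z h x y p q A C : α}

/-- **[CR']** (crossing lemma on a path).  `z` has the cut between `x`, `y`, `p` and `A`, `q`; `t`
separates `{y, p}`, `x`, `{A, q}`; `t'` separates `{x, p}`, `{y, A}`, and `A` from `q`.  Then there is
a circuit through `z`, `p` and `q`. -/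
theorem crossP (hK : N.IsCircuit K) (hz : z ∈ N.closure K) (ht : t ∈ N.closure K)
    (ht' : t' ∈ N.closure K) (hzK : z ∉ K) (htK : t ∉ K) (htK' : t' ∉ K) (hzt : z ≠ t)
    (hzt' : z ≠ t') (htt' : t ≠ t') (hx : x ∈ K) (hy : y ∈ K) (hA : A ∈ K) (hp : p ∈ K) (hq : q ∈ K)
    (z1 : Eqv N K z x p) (z2 : Eqv N K z y p) (z3 : Eqv N K z A q) (z4 : ¬ Eqv N K z p q)
    (t1 : Eqv N K t y p) (t2 : ¬ Eqv N K t x p) (t3 : Eqv N K t A q) (t4 : ¬ Eqv N K t p q)
    (s1 : Eqv N K t' x p) (s2 : ¬ Eqv N K t' y p) (s3 : Eqv N K t' A y)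
    (s4 : ¬ Eqv N K t' A q) :
    ∃ C ⊆ K ∪ {z, t, t'}, N.IsCircuit C ∧ z ∈ C ∧ p ∈ C ∧ q ∈ C := by
  set Z : Set α := {z, t, t'} with hZ
  have H : Chart N K Z := by
    refine ⟨hK, ?_, ?_⟩
    · rintro w (rfl | rfl | rfl)
      exacts [hz, ht, ht']
    · rw [disjoint_right]
      rintro w (rfl | rfl | rfl)
      exacts [hzK, htK, htK']
  have mz : z ∈ Z := Or.inl rfl
  have mt : t ∈ Z := Or.inr (Or.inl rfl)
  have mt' : t' ∈ Z := Or.inr (Or.inr rfl)
  have hZf : Z.Finite := by rw [hZ]; simp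
  have hZc : Z.ncard = 3 := ncard_eq_three.2 ⟨z, t, t', hzt, hzt', htt', rfl⟩
  have zAx : ¬ Eqv N K z x A := fun h => z4 ((z1.symm.trans hK hx h).trans hK hA z3)
  have txy : ¬ Eqv N K t x y := fun h => t2 (h.trans hK hy t1)
  have tyA : ¬ Eqv N K t y A := fun h => t4 ((t1.symm.trans hK hy h).trans hK hA t3)
  set I : Set α := {A, y, x} with hIdef
  have hxy : y ≠ x := fun h => txy (Or.inl h.symm)
  have hAx : A ≠ x := fun h => zAx (Or.inl h.symm)
  have hAy : A ≠ y := fun h => tyA (Or.inl h.symm)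
  have hIf : I.Finite := by rw [hIdef]; simp
  have hIc : I.ncard = 3 := ncard_eq_three.2 ⟨A, y, x, hAy, hAx, hxy, rfl⟩
  have hI : (dk N K Z).Indep I := by
    refine H.indep_insert (H.indep_insert (H.indep_one hx) hy ?_) hA ?_
    · refine H.notMem_of hx hy mt txy ?_
      rintro c rfl
      exact ⟨hx, Eqv.refl⟩
    · refine H.notMem_of hx hA mz zAx ?_
      rintro c (rfl | rfl)
      · exact ⟨hy, z1.trans hK hp z2.symm⟩
      · exact ⟨hx, Eqv.refl⟩
  have hIE := (dk N K Z).subset_closure I hI.subset_ground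
  have ix : x ∈ (dk N K Z).closure I := hIE (Or.inr (Or.inr rfl))
  have iy : y ∈ (dk N K Z).closure I := hIE (Or.inr (Or.inl rfl))
  have iA : A ∈ (dk N K Z).closure I := hIE (Or.inl rfl)
  have np : p ∉ (dk N K Z).closure I := by
    intro ip
    have it : t ∈ (dk N K Z).closure I := by
      refine H.axis_mem hx hp ix ip mt t2 ?_
      rintro r (rfl | rfl | rfl)
      exacts [Or.inr (Or.inr z1), Or.inl rfl, Or.inr (Or.inr s1)]
    have it' : t' ∈ (dk N K Z).closure I := by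
      refine H.axis_mem hy hp iy ip mt' s2 ?_
      rintro r (rfl | rfl | rfl)
      exacts [Or.inr (Or.inr z2), Or.inr (Or.inl it), Or.inl rfl]
    have iz : z ∈ (dk N K Z).closure I := by
      refine H.axis_mem hA hp iA ip mz (fun h => z4 (h.symm.trans hK hA z3)) ?_
      rintro r (rfl | rfl | rfl)
      exacts [Or.inl rfl, Or.inr (Or.inl it), Or.inr (Or.inl it')]
    refine H.rank hZf (by omega) hIf hp ip ?_
    rintro r (rfl | rfl | rfl)
    exacts [iz, it, it']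
  have nz : z ∉ (dk N K Z).closure I := by
    intro iz
    have it : t ∈ (dk N K Z).closure I := by
      refine H.axis_mem hy hA iy iA mt tyA ?_
      rintro r (rfl | rfl | rfl)
      exacts [Or.inr (Or.inl iz), Or.inl rfl, Or.inr (Or.inr s3.symm)]
    refine np (H.mem_of hx hp ix ?_)
    rintro r (rfl | rfl | rfl)
    exacts [Or.inl iz, Or.inl it, Or.inr s1]
  have nq : q ∉ (dk N K Z).closure I := by
    intro iq
    have it' : t' ∈ (dk N K Z).closure I := by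
      refine H.axis_mem hA hq iA iq mt' s4 ?_
      rintro r (rfl | rfl | rfl)
      exacts [Or.inr (Or.inr z3), Or.inr (Or.inr t3), Or.inl rfl]
    refine np (H.mem_of hy hp iy ?_)
    rintro r (rfl | rfl | rfl)
    exacts [Or.inr z2, Or.inr t1, Or.inl it']
  have hC := H.circuit hZf hI (hIc.trans hZc.symm) hIf ⟨x, hx⟩
  exact ⟨_, sdiff_subset, hC, ⟨Or.inr mz, nz⟩, ⟨Or.inl hp, np⟩, ⟨Or.inl hq, nq⟩⟩

/-- **[CRh]** (crossing lemma on a pair of legs).  `h` is the chord of the third leg: `x`, `y`, `p` on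
one side, `C`, `A`, `q` on the other side; `z` has the cut between `x`, `y`, `p`, `C` and `A`, `q`;
`t` separates `{x, C}` from `{y, A, p, q}`; `t'` separates `{x, p}` from `{y, C, A}` and `A` from
`q`. -/
theorem crossH (hK : N.IsCircuit K) (hz : z ∈ N.closure K) (hh : h ∈ N.closure K)
    (ht : t ∈ N.closure K) (ht' : t' ∈ N.closure K) (hzK : z ∉ K) (hhK : h ∉ K) (htK : t ∉ K)
    (htK' : t' ∉ K) (hzh : z ≠ h) (hzt : z ≠ t) (hzt' : z ≠ t') (hht : h ≠ t) (hht' : h ≠ t')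
    (htt' : t ≠ t') (hx : x ∈ K) (hy : y ∈ K) (hC : C ∈ K) (hA : A ∈ K) (hp : p ∈ K) (hq : q ∈ K)
    (h1 : Eqv N K h x p) (h2 : Eqv N K h y p) (h3 : Eqv N K h C q) (h4 : Eqv N K h A q)
    (h5 : ¬ Eqv N K h p q)
    (z1 : Eqv N K z x p) (z2 : Eqv N K z y p) (z3 : Eqv N K z C p) (z4 : Eqv N K z A q)
    (z5 : ¬ Eqv N K z p q)
    (t1 : Eqv N K t x C) (t2 : Eqv N K t y p) (t3 : Eqv N K t A p) (t4 : Eqv N K t q p)
    (t5 : ¬ Eqv N K t x p)
    (s1 : Eqv N K t' x p) (s2 : ¬ Eqv N K t' y p) (s3 : Eqv N K t' y A) (s4 : Eqv N K t' C A)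
    (s5 : ¬ Eqv N K t' A q) :
    ∃ D ⊆ K ∪ {z, h, t, t'}, N.IsCircuit D ∧ z ∈ D ∧ h ∈ D ∧ p ∈ D ∧ q ∈ D := by
  set Z : Set α := {z, h, t, t'} with hZ
  have H : Chart N K Z := by
    refine ⟨hK, ?_, ?_⟩
    · rintro w (rfl | rfl | rfl | rfl)
      exacts [hz, hh, ht, ht']
    · rw [disjoint_right]
      rintro w (rfl | rfl | rfl | rfl)
      exacts [hzK, hhK, htK, htK']
  have mz : z ∈ Z := Or.inl rfl
  have mh : h ∈ Z := Or.inr (Or.inl rfl)
  have mt : t ∈ Z := Or.inr (Or.inr (Or.inl rfl))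
  have mt' : t' ∈ Z := Or.inr (Or.inr (Or.inr rfl))
  have hZf : Z.Finite := by rw [hZ]; simp
  have hZc : Z.ncard = 4 := by
    rw [hZ, ncard_insert_of_notMem (by simp [hzh, hzt, hzt']),
      ncard_eq_three.2 ⟨h, t, t', hht, hht', htt', rfl⟩]
  have zAx : ¬ Eqv N K z x A := fun h => z5 ((z1.symm.trans hK hx h).trans hK hA z4)
  have hCx : ¬ Eqv N K h x C := fun h' => h5 ((h1.symm.trans hK hx h').trans hK hC h3)
  have txy : ¬ Eqv N K t x y := fun h => t5 (h.trans hK hy t2)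
  have tCA : ¬ Eqv N K t C A := fun h => t5 ((t1.trans hK hC h).trans hK hA t3)
  set I : Set α := {A, C, y, x} with hIdef
  have e1 : y ≠ x := fun h => txy (Or.inl h.symm)
  have e2 : A ≠ x := fun h => zAx (Or.inl h.symm)
  have e3 : C ≠ x := fun h => hCx (Or.inl h.symm)
  have e4 : A ≠ C := fun h => tCA (Or.inl h.symm)
  have e5 : C ≠ y := by
    rintro rfl
    exact h5 (h2.symm.trans hK hC h3)
  have e6 : A ≠ y := by
    rintro rfl
    exact z5 (z2.symm.trans hK hA z4)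
  have hIf : I.Finite := by rw [hIdef]; simp
  have hIc : I.ncard = 4 := by
    rw [hIdef, ncard_insert_of_notMem (by simp [e4, e6, e2]),
      ncard_eq_three.2 ⟨C, y, x, e5, e3, e1, rfl⟩]
  have hI : (dk N K Z).Indep I := by
    refine H.indep_insert (H.indep_insert (H.indep_insert (H.indep_one hx) hy ?_) hC ?_) hA ?_
    · refine H.notMem_of hx hy mt txy ?_
      rintro c rfl
      exact ⟨hx, Eqv.refl⟩
    · refine H.notMem_of hx hC mh hCx ?_
      rintro c (rfl | rfl)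
      · exact ⟨hy, h1.trans hK hp h2.symm⟩
      · exact ⟨hx, Eqv.refl⟩
    · refine H.notMem_of hx hA mz zAx ?_
      rintro c (rfl | rfl | rfl)
      · exact ⟨hC, z1.trans hK hp z3.symm⟩
      · exact ⟨hy, z1.trans hK hp z2.symm⟩
      · exact ⟨hx, Eqv.refl⟩
  have hIE := (dk N K Z).subset_closure I hI.subset_ground
  have ix : x ∈ (dk N K Z).closure I := hIE (Or.inr (Or.inr (Or.inr rfl)))
  have iy : y ∈ (dk N K Z).closure I := hIE (Or.inr (Or.inr (Or.inl rfl)))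
  have iC : C ∈ (dk N K Z).closure I := hIE (Or.inr (Or.inl rfl))
  have iA : A ∈ (dk N K Z).closure I := hIE (Or.inl rfl)
  have np : p ∉ (dk N K Z).closure I := by
    intro ip
    have it : t ∈ (dk N K Z).closure I := by
      refine H.axis_mem hx hp ix ip mt t5 ?_
      rintro r (rfl | rfl | rfl | rfl)
      exacts [Or.inr (Or.inr z1), Or.inr (Or.inr h1), Or.inl rfl, Or.inr (Or.inr s1)]
    have it' : t' ∈ (dk N K Z).closure I := by
      refine H.axis_mem hy hp iy ip mt' s2 ?_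
      rintro r (rfl | rfl | rfl | rfl)
      exacts [Or.inr (Or.inr z2), Or.inr (Or.inr h2), Or.inr (Or.inl it), Or.inl rfl]
    have ih : h ∈ (dk N K Z).closure I := by
      refine H.axis_mem hC hp iC ip mh (fun h' => h5 (h'.symm.trans hK hC h3)) ?_
      rintro r (rfl | rfl | rfl | rfl)
      exacts [Or.inr (Or.inr z3), Or.inl rfl, Or.inr (Or.inl it), Or.inr (Or.inl it')]
    have iz : z ∈ (dk N K Z).closure I := by
      refine H.axis_mem hA hp iA ip mz (fun h => z5 (h.symm.trans hK hA z4)) ?_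
      rintro r (rfl | rfl | rfl | rfl)
      exacts [Or.inl rfl, Or.inr (Or.inl ih), Or.inr (Or.inl it), Or.inr (Or.inl it')]
    refine H.rank hZf (by omega) hIf hp ip ?_
    rintro r (rfl | rfl | rfl | rfl)
    exacts [iz, ih, it, it']
  have nz : z ∉ (dk N K Z).closure I := by
    intro iz
    have it : t ∈ (dk N K Z).closure I := by
      refine H.axis_mem hC hA iC iA mt tCA ?_
      rintro r (rfl | rfl | rfl | rfl)
      exacts [Or.inr (Or.inl iz), Or.inr (Or.inr (h3.trans hK hq h4.symm)), Or.inl rfl,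
        Or.inr (Or.inr s4)]
    refine np (H.mem_of hx hp ix ?_)
    rintro r (rfl | rfl | rfl | rfl)
    exacts [Or.inl iz, Or.inr h1, Or.inl it, Or.inr s1]
  have nh : h ∉ (dk N K Z).closure I := by
    intro ih
    have it : t ∈ (dk N K Z).closure I := by
      refine H.axis_mem hC hy iC iy mt (fun h => txy (t1.trans hK hC h)) ?_
      rintro r (rfl | rfl | rfl | rfl)
      exacts [Or.inr (Or.inr (z3.trans hK hp z2.symm)), Or.inr (Or.inl ih), Or.inl rfl,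
        Or.inr (Or.inr (s4.trans hK hA s3.symm))]
    refine np (H.mem_of hx hp ix ?_)
    rintro r (rfl | rfl | rfl | rfl)
    exacts [Or.inr z1, Or.inl ih, Or.inl it, Or.inr s1]
  have nq : q ∉ (dk N K Z).closure I := by
    intro iq
    have it' : t' ∈ (dk N K Z).closure I := by
      refine H.axis_mem hA hq iA iq mt' s5 ?_
      rintro r (rfl | rfl | rfl | rfl)
      exacts [Or.inr (Or.inr z4), Or.inr (Or.inr h4), Or.inr (Or.inr (t3.trans hK hp t4.symm)),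
        Or.inl rfl]
    refine np (H.mem_of hy hp iy ?_)
    rintro r (rfl | rfl | rfl | rfl)
    exacts [Or.inr z2, Or.inr h2, Or.inr t2, Or.inl it']
  have hC' := H.circuit hZf hI (hIc.trans hZc.symm) hIf ⟨x, hx⟩
  exact ⟨_, sdiff_subset, hC', ⟨Or.inr mz, nz⟩, ⟨Or.inr mh, nh⟩, ⟨Or.inl hp, np⟩, ⟨Or.inl hq, nq⟩⟩

/-! ### General forms -/

/-- `t` crosses the exit `z`: the class of `p` on the side of `p`, the class of `q` on the side of
`q`, one third class. -/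
structure CrossU (N : Matroid α) (K : Set α) (z p q t : α) : Prop where
  pq : ¬ Eqv N K t p q
  sp : ∀ x ∈ K, Eqv N K t x p → Eqv N K z x p
  sq : ∀ x ∈ K, Eqv N K t x q → Eqv N K z x q
  thd : ∀ x ∈ K, ∀ y ∈ K, ¬ Eqv N K t x p → ¬ Eqv N K t x q → ¬ Eqv N K t y p → ¬ Eqv N K t y q →
    Eqv N K t x y

lemma CrossU.swap (h : CrossU N K z p q t) : CrossU N K z q p t :=
  ⟨fun h1 => h.pq h1.symm, h.sq, h.sp, fun x hx y hy h1 h2 h3 h4 => h.thd x hx y hy h2 h1 h4 h3⟩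

/-- **[CRG] on a path.**  `t`, `t'` cross `z`: the traces on the side of `p` are comparable, or the
traces on the side of `q` are equal. -/
theorem crossG (hK : N.IsCircuit K) (hz : z ∈ N.closure K) (ht : t ∈ N.closure K)
    (ht' : t' ∈ N.closure K) (hzK : z ∉ K) (htK : t ∉ K) (htK' : t' ∉ K) (hzt : z ≠ t)
    (hzt' : z ≠ t') (htt' : t ≠ t') (hp : p ∈ K) (hq : q ∈ K) (hzpq : ¬ Eqv N K z p q)
    (hno : ∀ C ⊆ K ∪ {z, t, t'}, N.IsCircuit C → z ∈ C → p ∈ C → q ∈ C → False)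
    (h1 : CrossU N K z p q t) (h2 : CrossU N K z p q t') :
    (∀ x ∈ K, Eqv N K t x p → Eqv N K t' x p) ∨ (∀ x ∈ K, Eqv N K t' x p → Eqv N K t x p) ∨
      ∀ x ∈ K, (Eqv N K t x q ↔ Eqv N K t' x q) := by
  by_contra hcon
  push Not at hcon
  obtain ⟨⟨y, hy, y1, y2⟩, ⟨x, hx, x1, x2⟩, A, hA, hA2⟩ := hcon
  rcases hA2 with ⟨a1, a2⟩ | ⟨a1, a2⟩
  · obtain ⟨C, c1, c2, c3, c4, c5⟩ := crossP hK hz ht ht' hzK htK htK' hzt hzt' htt' hx hy hA hp hq
      (h2.sp x hx x1) (h1.sp y hy y1) (h1.sq A hA a1) hzpq y1 x2 a1 h1.pq x1 y2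
      (h2.thd A hA y hy (fun h => hzpq ((h2.sp A hA h).symm.trans hK hA (h1.sq A hA a1))) a2 y2
        (fun h => hzpq ((h1.sp y hy y1).symm.trans hK hy (h2.sq y hy h)))) a2
    exact hno C c1 c2 c3 c4 c5
  · obtain ⟨C, c1, c2, c3, c4, c5⟩ := crossP hK hz ht' ht hzK htK' htK hzt' hzt htt'.symm hy hx hA hp
      hq (h1.sp y hy y1) (h2.sp x hx x1) (h2.sq A hA a2) hzpq x1 y2 a2 h2.pq y1 x2
      (h1.thd A hA x hx (fun h => hzpq ((h1.sp A hA h).symm.trans hK hA (h2.sq A hA a2))) a1 x2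
        (fun h => hzpq ((h2.sp x hx x1).symm.trans hK hx (h1.sq x hx h)))) a1
    refine hno C (c1.trans ?_) c2 c3 c4 c5
    rintro w (hw | hw | hw | hw)
    exacts [Or.inl hw, Or.inr (Or.inl hw), Or.inr (Or.inr (Or.inr hw)), Or.inr (Or.inr (Or.inl hw))]

/-- `t` crosses the two nested exits `h`, `z` (the side of `p` of `h` is contained in that of `z`):
unbalanced, or balanced with the two classes of `p`, `q` and of the middle part. -/
structure Cross2 (N : Matroid α) (K : Set α) (h z p q t : α) : Prop where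
  sp : ∀ x ∈ K, Eqv N K z x p → ¬ Eqv N K h x p → ¬ Eqv N K t x p ∧ ¬ Eqv N K t x q
  un : ¬ Eqv N K t p q → (∀ x ∈ K, Eqv N K t x p → Eqv N K h x p) ∧
    ∀ x ∈ K, Eqv N K t x q → Eqv N K z x q
  thd : ∀ x ∈ K, ∀ y ∈ K, ¬ Eqv N K t x p → ¬ Eqv N K t x q → ¬ Eqv N K t y p → ¬ Eqv N K t y q →
    Eqv N K t x y

/-- one half of `crossG2` -/
theorem crossG2_half (hK : N.IsCircuit K) (hz : z ∈ N.closure K) (hh : h ∈ N.closure K)
    (ht : t ∈ N.closure K) (ht' : t' ∈ N.closure K) (hzK : z ∉ K) (hhK : h ∉ K) (htK : t ∉ K)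
    (htK' : t' ∉ K) (hzh : z ≠ h) (hzt : z ≠ t) (hzt' : z ≠ t') (hht : h ≠ t) (hht' : h ≠ t')
    (htt' : t ≠ t') (hC : C ∈ K) (hp : p ∈ K) (hq : q ∈ K)
    (h2c : ∀ x ∈ K, Eqv N K h x p ∨ Eqv N K h x q) (hpq : ¬ Eqv N K h p q)
    (zpq : ¬ Eqv N K z p q) (nest : ∀ x ∈ K, Eqv N K h x p → Eqv N K z x p)
    (mh : Eqv N K h C q) (mz : Eqv N K z C p)
    (hno : ∀ D ⊆ K ∪ {z, h, t, t'}, N.IsCircuit D → z ∈ D → p ∈ D → q ∈ D → False)
    (h1 : Cross2 N K h z p q t) (h2 : Cross2 N K h z p q t')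
    (hx : x ∈ K) (hy : y ∈ K) (hA : A ∈ K) (x0 : Eqv N K h x p) (y0 : Eqv N K h y p)
    (a0 : Eqv N K z A q) (x1 : Eqv N K t' x p) (x2 : ¬ Eqv N K t x p) (y1 : Eqv N K t y p)
    (y2 : ¬ Eqv N K t' y p) (a1 : Eqv N K t A q) (a2 : ¬ Eqv N K t' A q) : False := by
  have zx := nest x hx x0
  have zy := nest y hy y0
  have hA1 : Eqv N K h A q := (h2c A hA).resolve_left fun h3 =>
    zpq ((nest A hA h3).symm.trans hK hA a0)
  -- `y` is in the third class of `t'`, and so is `A`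
  have yq : ¬ Eqv N K t' y q := by
    intro h3
    by_cases h4 : Eqv N K t' p q
    · exact y2 (h3.trans hK hq h4.symm)
    · exact zpq (zy.symm.trans hK hy ((h2.un h4).2 y hy h3))
  have ap : ¬ Eqv N K t' A p := by
    intro h3
    by_cases h4 : Eqv N K t' p q
    · exact a2 (h3.trans hK hp h4)
    · exact hpq (((h2.un h4).1 A hA h3).symm.trans hK hA hA1)
  have ay := h2.thd A hA y hy ap a2 y2 yq
  have hno' : ∀ D ⊆ K ∪ {z, t, t'}, N.IsCircuit D → z ∈ D → p ∈ D → q ∈ D → False := by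
    intro D hD
    refine hno D (hD.trans ?_)
    rintro w (hw | hw | hw | hw)
    exacts [Or.inl hw, Or.inr (Or.inl hw), Or.inr (Or.inr (Or.inr (Or.inl hw))),
      Or.inr (Or.inr (Or.inr (Or.inr hw)))]
  by_cases hb : Eqv N K t p q
  · have hCp : ¬ Eqv N K h C p := fun h3 => hpq (h3.symm.trans hK hC mh)
    obtain ⟨c1, c2⟩ := h1.sp C hC mz hCp
    obtain ⟨c3, c4⟩ := h2.sp C hC mz hCp
    have xq : ¬ Eqv N K t x q := fun h3 => x2 (h3.trans hK hq hb.symm)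
    obtain ⟨D, d1, d2, d3, d4, d5, d6⟩ := crossH hK hz hh ht ht' hzK hhK htK htK' hzh hzt hzt' hht
      hht' htt' hx hy hC hA hp hq x0 y0 mh hA1 hpq zx zy mz a0 zpq
      (h1.thd x hx C hC x2 xq c1 c2) y1 (a1.trans hK hq hb.symm) hb.symm x2 x1 y2 ay.symm
      (h2.thd C hC A hA c3 c4 ap a2) a2
    exact hno D d1 d2 d3 d5 d6
  · obtain ⟨D, d1, d2, d3, d4, d5⟩ := crossP hK hz ht ht' hzK htK htK' hzt hzt' htt' hx hy hA hp hq
      zx zy a0 zpq y1 x2 a1 hb x1 y2 ay a2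
    exact hno' D d1 d2 d3 d4 d5

lemma Cross2.swap (hK : N.IsCircuit K) (hpq : ¬ Eqv N K h p q)
    (z2c : ∀ x ∈ K, Eqv N K z x p ∨ Eqv N K z x q) (H : Cross2 N K h z p q t) :
    Cross2 N K z h q p t := by
  refine ⟨fun x hx h1 h2 => ?_, fun h1 => ?_, fun x hx y hy h1 h2 h3 h4 => H.thd x hx y hy h2 h1 h4 h3⟩
  · have h3 := H.sp x hx ((z2c x hx).resolve_right h2) (fun h4 => hpq (h4.symm.trans hK hx h1))
    exact ⟨h3.2, h3.1⟩
  · exact (H.un fun h2 => h1 h2.symm).symm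

/-- **[CRG] on a pair of legs.**  `h` = chord of the third leg, `z` = exit.  The traces of `t`, `t'` on
the side of `p` of `h` are comparable, or those on the side of `q` of `z` are equal; and the same with
exchanged sides. -/
theorem crossG2 (hK : N.IsCircuit K) (hz : z ∈ N.closure K) (hh : h ∈ N.closure K)
    (ht : t ∈ N.closure K) (ht' : t' ∈ N.closure K) (hzK : z ∉ K) (hhK : h ∉ K) (htK : t ∉ K)
    (htK' : t' ∉ K) (hzh : z ≠ h) (hzt : z ≠ t) (hzt' : z ≠ t') (hht : h ≠ t) (hht' : h ≠ t')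
    (htt' : t ≠ t') (hC : C ∈ K) (hp : p ∈ K) (hq : q ∈ K)
    (h2c : ∀ x ∈ K, Eqv N K h x p ∨ Eqv N K h x q) (hpq : ¬ Eqv N K h p q)
    (z2c : ∀ x ∈ K, Eqv N K z x p ∨ Eqv N K z x q) (zpq : ¬ Eqv N K z p q)
    (nest : ∀ x ∈ K, Eqv N K h x p → Eqv N K z x p)
    (mh : Eqv N K h C q) (mz : Eqv N K z C p)
    (hno : ∀ D ⊆ K ∪ {z, h, t, t'}, N.IsCircuit D → z ∈ D ∨ h ∈ D → p ∈ D → q ∈ D → False)
    (h1 : Cross2 N K h z p q t) (h2 : Cross2 N K h z p q t') :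
    ((∀ x ∈ K, Eqv N K h x p → Eqv N K t x p → Eqv N K t' x p) ∨
      (∀ x ∈ K, Eqv N K h x p → Eqv N K t' x p → Eqv N K t x p) ∨
      ∀ x ∈ K, Eqv N K z x q → (Eqv N K t x q ↔ Eqv N K t' x q)) ∧
    ((∀ x ∈ K, Eqv N K z x q → Eqv N K t x q → Eqv N K t' x q) ∨
      (∀ x ∈ K, Eqv N K z x q → Eqv N K t' x q → Eqv N K t x q) ∨
      ∀ x ∈ K, Eqv N K h x p → (Eqv N K t x p ↔ Eqv N K t' x p)) := by
  have nest' : ∀ x ∈ K, Eqv N K z x q → Eqv N K h x q := fun x hx h3 =>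
    (h2c x hx).resolve_left fun h4 => zpq ((nest x hx h4).symm.trans hK hx h3)
  have s1 := h1.swap hK hpq z2c
  have s2 := h2.swap hK hpq z2c
  have n1 : ∀ D ⊆ K ∪ {z, h, t, t'}, N.IsCircuit D → z ∈ D → p ∈ D → q ∈ D → False :=
    fun D hD h3 h4 => hno D hD h3 (Or.inl h4)
  have perm : ∀ D : Set α, D ⊆ K ∪ {z, h, t', t} → D ⊆ K ∪ {z, h, t, t'} := by
    intro D hD
    refine hD.trans ?_
    rintro w (hw | hw | hw | hw | hw)
    exacts [Or.inl hw, Or.inr (Or.inl hw), Or.inr (Or.inr (Or.inl hw)),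
      Or.inr (Or.inr (Or.inr (Or.inr hw))), Or.inr (Or.inr (Or.inr (Or.inl hw)))]
  have perm' : ∀ D : Set α, D ⊆ K ∪ {h, z, t, t'} → D ⊆ K ∪ {z, h, t, t'} := by
    intro D hD
    refine hD.trans ?_
    rintro w (hw | hw | hw | hw | hw)
    exacts [Or.inl hw, Or.inr (Or.inr (Or.inl hw)), Or.inr (Or.inl hw),
      Or.inr (Or.inr (Or.inr (Or.inl hw))), Or.inr (Or.inr (Or.inr (Or.inr hw)))]
  have perm'' : ∀ D : Set α, D ⊆ K ∪ {h, z, t', t} → D ⊆ K ∪ {z, h, t, t'} := by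
    intro D hD
    refine hD.trans ?_
    rintro w (hw | hw | hw | hw | hw)
    exacts [Or.inl hw, Or.inr (Or.inr (Or.inl hw)), Or.inr (Or.inl hw),
      Or.inr (Or.inr (Or.inr (Or.inr hw))), Or.inr (Or.inr (Or.inr (Or.inl hw)))]
  constructor
  · by_contra hcon
    push Not at hcon
    obtain ⟨⟨y, hy, y0, y1, y2⟩, ⟨x, hx, x0, x1, x2⟩, A, hA, a0, hA2⟩ := hcon
    rcases hA2 with ⟨a1, a2⟩ | ⟨a1, a2⟩
    · exact crossG2_half hK hz hh ht ht' hzK hhK htK htK' hzh hzt hzt' hht hht' htt' hC hp hq h2c hpq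
        zpq nest mh mz n1 h1 h2 hx hy hA x0 y0 a0 x1 x2 y1 y2 a1 a2
    · exact crossG2_half hK hz hh ht' ht hzK hhK htK' htK hzh hzt' hzt hht' hht htt'.symm hC hp hq h2c
        hpq zpq nest mh mz (fun D hD => n1 D (perm D hD)) h2 h1 hy hx hA y0 x0 a0 y1 y2 x1 x2 a2 a1
  · by_contra hcon
    push Not at hcon
    obtain ⟨⟨y, hy, y0, y1, y2⟩, ⟨x, hx, x0, x1, x2⟩, A, hA, a0, hA2⟩ := hcon
    have m1 : ∀ x ∈ K, Eqv N K z x q ∨ Eqv N K z x p := fun x hx => (z2c x hx).symm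
    rcases hA2 with ⟨a1, a2⟩ | ⟨a1, a2⟩
    · exact crossG2_half hK hh hz ht ht' hhK hzK htK htK' hzh.symm hht hht' hzt hzt' htt' hC hq hp
        m1 (fun h3 => zpq h3.symm) (fun h3 => hpq h3.symm) nest' mz mh
        (fun D hD h3 h4 h5 h6 => hno D (perm' D hD) h3 (Or.inr h4) h6 h5) s1 s2 hx hy hA x0 y0 a0 x1
        x2 y1 y2 a1 a2
    · exact crossG2_half hK hh hz ht' ht hhK hzK htK' htK hzh.symm hht' hht hzt' hzt htt'.symm hC hq hp
        m1 (fun h3 => zpq h3.symm) (fun h3 => hpq h3.symm) nest' mz mh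
        (fun D hD h3 h4 h5 h6 => hno D (perm'' D hD) h3 (Or.inr h4) h6 h5) s2 s1 hy hx hA y0 x0 a0 y1
        y2 x1 x2 a2 a1

end TST
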