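import Pool.Agent.TST.MaxPriv

/-!
# Maximal list of references (label level of T*, helper88)

Abstract state machine: a state `σ` has the set `Cs σ` of its cut labels; the three rules of helper47
(far family, same-row step, near step with a path to an exit of the star) insert a new reference.  A
maximal state satisfies `C1`, .., `C4` of `max_priv`, so every class is cut completely or lives at two
vertices.
-/

set_option autoImplicit false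

open Set

namespace TST

universe v w s

/-- two labels which are split by one family -/
def PairG (K : ℕ → Prop) (Spl : ℕ → ℕ → Prop) (i j : ℕ) : Prop := ∃ e, K e ∧ Spl e i ∧ Spl e j

/-- two labels on one row which are split by one same-row family -/
def SameG {β : Type v} (R : ℕ → β) (K : ℕ → Prop) (Spl : ℕ → ℕ → Prop) (i j : ℕ) : Prop :=
  R i = R j ∧ ∃ e, K e ∧ Spl e i ∧ Spl e j

/-- (I_v) for families -/
abbrev InvF {β : Type v} {ν : Type w} (nd₁ nd₂ : β → ν) (R : ℕ → β) (FarF SameF : ℕ → Prop)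
    (NearF : ν → ℕ → Prop) (Spl : ℕ → ℕ → Prop) (Cut : Set ℕ) : Prop :=
  InvP nd₁ nd₂ R (PairG FarF Spl) (SameG R SameF Spl) (fun y => PairG (NearF y) Spl) Cut

/-- **Maximal list.**  `FarF`, `SameF`, `NearF y` = kinds of the families, `Spl e i` = the family `e` splits
the label `i`. -/
theorem cut_list {β : Type v} {ν : Type w} {St : Type s} {nd₁ nd₂ : β → ν} {R : ℕ → β} {m : ℕ}
    {FarF SameF : ℕ → Prop} {NearF : ν → ℕ → Prop} {Spl Adj : ℕ → ℕ → Prop}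
    (hNr : ∀ y e i, NearF y e → Spl e i → At nd₁ nd₂ (R i) y)
    (Inv : St → Prop) (Cs : St → Set ℕ) (hCs : ∀ σ, Inv σ → ∀ i ∈ Cs σ, i < m)
    (σ₀ : St) (h0 : Inv σ₀) (hC0 : Cs σ₀ = ∅)
    -- the rules
    (stepF : ∀ σ, Inv σ → ∀ e a j, FarF e → Spl e a → Spl e j → R a ≠ R j → a ∉ Cs σ →
      ∃ σ', Inv σ' ∧ Cs σ ⊆ Cs σ' ∧ a ∈ Cs σ' ∧ ∀ i ∈ Cs σ', i ∈ Cs σ ∨ (R i = R a ∧ Spl e i))
    (stepS : ∀ σ, Inv σ → ∀ e i₀ a, SameF e → Spl e i₀ → Spl e a → R i₀ = R a → i₀ ∈ Cs σ →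
      a ∉ Cs σ → InvF nd₁ nd₂ R FarF SameF NearF Spl (Cs σ) →
      ∃ σ', Inv σ' ∧ Cs σ ⊆ Cs σ' ∧ a ∈ Cs σ' ∧ ∀ i ∈ Cs σ', i ∈ Cs σ ∨ (R i = R a ∧ Spl e i))
    (stepN : ∀ σ, Inv σ → ∀ y e a b p, NearF y e → Spl e a → Spl e b → R a ≠ R b → a ∉ Cs σ →
      InvF nd₁ nd₂ R FarF SameF NearF Spl (Cs σ) →
      ExG nd₁ nd₂ R (PairG FarF Spl) (fun y => PairG (NearF y) Spl) y p →
      PathG nd₁ nd₂ R (SameG R SameF Spl) (fun y => PairG (NearF y) Spl) (Cs σ) (R a) y p b →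
      ∃ σ', Inv σ' ∧ Cs σ ⊆ Cs σ' ∧ a ∈ Cs σ' ∧ ∀ i ∈ Cs σ', i ∈ Cs σ ∨ (R i = R a ∧ Spl e i))
    -- rungs do not join a cut and an uncut label of one row
    (one : ∀ σ, Inv σ → ∀ e i j, (FarF e ∨ ∃ y, NearF y e) → Spl e i → Spl e j → R i = R j →
      InvF nd₁ nd₂ R FarF SameF NearF Spl (Cs σ) → i ∈ Cs σ → j ∈ Cs σ)
    (hAs : ∀ i j, Adj i j → Adj j i)
    (hA : ∀ i j, Adj i j → ∃ e, Spl e i ∧ Spl e j ∧
      ((SameF e ∧ R i = R j) ∨ FarF e ∨ ∃ y, NearF y e)) :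
    ∃ σ, Inv σ ∧ InvF nd₁ nd₂ R FarF SameF NearF Spl (Cs σ) ∧
      ∀ i, (∀ j, Relation.ReflTransGen Adj i j → j ∈ Cs σ) ∨
        ∃ v v' : ν, ∀ j, Relation.ReflTransGen Adj i j →
          At nd₁ nd₂ (R j) v ∨ At nd₁ nd₂ (R j) v' := by
  classical
  obtain ⟨Far, hFar⟩ : ∃ Far : ℕ → ℕ → Prop, Far = PairG FarF Spl := ⟨_, rfl⟩
  obtain ⟨Near, hNear⟩ : ∃ Near : ν → ℕ → ℕ → Prop, Near = fun y => PairG (NearF y) Spl := ⟨_, rfl⟩
  obtain ⟨Same, hSame⟩ : ∃ Same : ℕ → ℕ → Prop, Same = SameG R SameF Spl := ⟨_, rfl⟩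
  unfold InvF at stepS stepN one ⊢
  rw [← hFar, ← hNear, ← hSame] at stepS stepN one ⊢
  have Farv : ∀ i j, Far i j ↔ ∃ e, FarF e ∧ Spl e i ∧ Spl e j := fun i j => by
    rw [hFar]; rfl
  have Nearv : ∀ y i j, Near y i j ↔ ∃ e, NearF y e ∧ Spl e i ∧ Spl e j :=
    fun y i j => by rw [hNear]; rfl
  have Samev : ∀ i j, Same i j ↔ R i = R j ∧ ∃ e, SameF e ∧ Spl e i ∧ Spl e j := fun i j => by
    rw [hSame]; rfl
  have hSs : ∀ i j, Same i j → Same j i := by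
    intro i j h
    rw [Samev] at h ⊢
    obtain ⟨h1, e, h0, h2, h3⟩ := h
    exact ⟨h1.symm, e, h0, h3, h2⟩
  have hSr : ∀ i j, Same i j → R i = R j := fun i j h => ((Samev i j).1 h).1
  have hFs : ∀ i j, Far i j → Far j i := by
    intro i j h
    rw [Farv] at h ⊢
    obtain ⟨e, h2, h3, h4⟩ := h
    exact ⟨e, h2, h4, h3⟩
  have hNs : ∀ y i j, Near y i j → Near y j i := by
    intro y i j h
    rw [Nearv] at h ⊢
    obtain ⟨e, h2, h3, h4⟩ := h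
    exact ⟨e, h2, h4, h3⟩
  have hNat : ∀ y i j, Near y i j → At nd₁ nd₂ (R i) y ∧ At nd₁ nd₂ (R j) y := by
    intro y i j h
    rw [Nearv] at h
    obtain ⟨e, h2, h3, h4⟩ := h
    exact ⟨hNr y e i h2 h3, hNr y e j h2 h4⟩
  -- a maximal state
  obtain ⟨σ, hσ, hσ4, hmax⟩ : ∃ σ, Inv σ ∧ InvP nd₁ nd₂ R Far Same Near (Cs σ) ∧
      ∀ σ', Inv σ' → InvP nd₁ nd₂ R Far Same Near (Cs σ') → Cs σ ⊆ Cs σ' → Cs σ' ⊆ Cs σ := by
    have hfin : ∀ σ, Inv σ → (Cs σ).Finite ∧ (Cs σ).ncard ≤ m := by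
      intro σ hσ
      have h1 : Cs σ ⊆ ((Finset.range m : Finset ℕ) : Set ℕ) := fun i hi =>
        Finset.mem_coe.2 (Finset.mem_range.2 (hCs σ hσ i hi))
      refine ⟨(Finset.finite_toSet _).subset h1, ?_⟩
      have h2 := Set.ncard_le_ncard h1 (Finset.finite_toSet _)
      rwa [Set.ncard_coe_finset, Finset.card_range] at h2
    have key : ∀ k, ∀ σ, Inv σ → InvP nd₁ nd₂ R Far Same Near (Cs σ) → m - (Cs σ).ncard = k →
        ∃ σ, Inv σ ∧ InvP nd₁ nd₂ R Far Same Near (Cs σ) ∧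
          ∀ σ', Inv σ' → InvP nd₁ nd₂ R Far Same Near (Cs σ') → Cs σ ⊆ Cs σ' → Cs σ' ⊆ Cs σ := by
      intro k
      induction k using Nat.strong_induction_on with
      | _ k ih =>
        intro σ hσ hσ4 hk
        by_cases hm : ∀ σ', Inv σ' → InvP nd₁ nd₂ R Far Same Near (Cs σ') → Cs σ ⊆ Cs σ' →
            Cs σ' ⊆ Cs σ
        · exact ⟨σ, hσ, hσ4, hm⟩
        · push Not at hm
          obtain ⟨σ', h1, h2, h3, h4⟩ := hm
          have h5 := Set.ncard_lt_ncard (ssubset_iff_subset_not_subset.2 ⟨h3, h4⟩) (hfin σ' h1).1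
          have h6 := (hfin σ' h1).2
          exact ih (m - (Cs σ').ncard) (by omega) σ' h1 h2 rfl
    refine key _ σ₀ h0 ?_ rfl
    intro y i _ hi
    rw [hC0] at hi
    exact absurd hi (notMem_empty i)
  -- the rules cannot be applied to a maximal state
  have C1 : ∀ i j, Far i j → R i ≠ R j → i ∈ Cs σ := by
    intro a j haj h1
    by_contra ha
    have haj' := haj
    rw [Farv] at haj'
    obtain ⟨e, h2, h3, h4⟩ := haj'
    obtain ⟨σ', g1, g2, g3, g4⟩ := stepF σ hσ e a j h2 h3 h4 h1 ha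
    refine ha (hmax σ' g1 ?_ g2 g3)
    intro y i hat hi
    rcases g4 i hi with h5 | ⟨h5, h6⟩
    · obtain ⟨p, hp, hpi⟩ := hσ4 y i hat h5
      exact ⟨p, hp, hpi.mono g2⟩
    · exact ⟨i, ⟨hat, Or.inl ⟨j, (Farv i j).2 ⟨e, h2, h6, h4⟩⟩⟩, PathG.refl fun _ => hi⟩
  have C2 : ∀ i j, Same i j → i ∈ Cs σ → j ∈ Cs σ := by
    intro i₀ a hia hi₀
    by_contra ha
    rw [Samev] at hia
    obtain ⟨h1, e, hS, h2, h3⟩ := hia
    obtain ⟨σ', g1, g2, g3, g4⟩ := stepS σ hσ e i₀ a hS h2 h3 h1 hi₀ ha hσ4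
    refine ha (hmax σ' g1 ?_ g2 g3)
    intro y i hat hi
    rcases g4 i hi with h5 | ⟨h5, h6⟩
    · obtain ⟨p, hp, hpi⟩ := hσ4 y i hat h5
      exact ⟨p, hp, hpi.mono g2⟩
    · have hR : R i₀ = R i := h1.trans h5.symm
      obtain ⟨p, hp, hpi⟩ := hσ4 y i₀ (by rw [hR]; exact hat) hi₀
      rw [hR] at hpi
      refine ⟨p, hp, (hpi.mono g2).tail (Or.inl ⟨?_, by rw [hR]; exact hat⟩) fun _ => hi⟩
      rw [Samev]
      exact ⟨hR, e, hS, h2, h6⟩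
  have C3 : ∀ y a b, Near y a b → R a ≠ R b → a ∉ Cs σ → ∀ p, ExG nd₁ nd₂ R Far Near y p →
      ¬ PathG nd₁ nd₂ R Same Near (Cs σ) (R a) y p b := by
    intro y₀ a b hab h1 ha p hp hpb
    rw [Nearv] at hab
    obtain ⟨e, h2, h3, h4⟩ := hab
    obtain ⟨σ', g1, g2, g3, g4⟩ := stepN σ hσ y₀ e a b p h2 h3 h4 h1 ha hσ4 hp hpb
    refine ha (hmax σ' g1 ?_ g2 g3)
    intro y i hat hi
    rcases g4 i hi with h5 | ⟨h5, h6⟩
    · obtain ⟨p', hp', hpi⟩ := hσ4 y i hat h5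
      exact ⟨p', hp', hpi.mono g2⟩
    · have hib : Near y₀ i b := (Nearv y₀ i b).2 ⟨e, h2, h6, h4⟩
      by_cases hy : y₀ = y
      · subst hy
        rw [← h5] at hpb
        exact ⟨p, hp, (hpb.mono g2).tail (Or.inr (hNs _ _ _ hib)) fun _ => hi⟩
      · exact ⟨i, ⟨hat, Or.inr ⟨y₀, hy, b, hib⟩⟩, PathG.refl fun _ => hi⟩
  have hsym : ∀ {i j}, Relation.ReflTransGen Adj i j → Relation.ReflTransGen Adj j i := by
    intro i j hij
    induction hij with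
    | refl => exact Relation.ReflTransGen.refl
    | tail _ h5 ih => exact Relation.ReflTransGen.head (hAs _ _ h5) ih
  refine ⟨σ, hσ, hσ4, fun i => ?_⟩
  by_cases hall : ∀ j, Relation.ReflTransGen Adj i j → j ∈ Cs σ
  · exact Or.inl hall
  right
  push Not at hall
  obtain ⟨a, hia, ha⟩ := hall
  refine ⟨nd₁ (R a), nd₂ (R a), fun j hij => ?_⟩
  refine max_priv (Adj := Adj) hSs hSr hNs hFs hNat ?_ C1 ?_ C2 ?_ C3 hσ4 ha j ((hsym hia).trans hij)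
  · intro i j hij
    obtain ⟨e, h1, h2, h3⟩ := hA i j hij
    rcases h3 with ⟨h3, h4⟩ | h4 | ⟨y, h4⟩
    · exact Or.inl ((Samev i j).2 ⟨h4, e, h3, h1, h2⟩)
    · exact Or.inr (Or.inr ((Farv i j).2 ⟨e, h4, h1, h2⟩))
    · exact Or.inr (Or.inl ⟨y, (Nearv y i j).2 ⟨e, h4, h1, h2⟩⟩)
  · intro i j hij hR hi
    rw [Farv] at hij
    obtain ⟨e, h1, h2, h3⟩ := hij
    exact one σ hσ e i j (Or.inl h1) h2 h3 hR hσ4 hi
  · intro y i j hij hR hi
    rw [Nearv] at hij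
    obtain ⟨e, h1, h2, h3⟩ := hij
    exact one σ hσ e i j (Or.inr ⟨y, h1⟩) h2 h3 hR hσ4 hi

end TST
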