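import Pool.Agent.TST.SheetsR

/-!
# Cutting sheets at bad lines and dropping poor sheets (row B7 of T-star, helper14)
-/

open Set

namespace TST

variable {J β : Type*}

/-- the initial part of a monotone function -/
lemma card_filter_lt {f : ℕ → ℕ} (hf : Monotone f) (n p : ℕ) {c : ℕ} (hc : c < n) :
    c < ((Finset.range n).filter fun x => f x < p).card ↔ f c < p := by
  constructor
  · intro h
    by_contra hcon
    have h1 : ((Finset.range n).filter fun x => f x < p) ⊆ Finset.range c := by
      intro x hx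
      obtain ⟨_, hx2⟩ := Finset.mem_filter.1 hx
      rw [Finset.mem_range]
      by_contra hxc
      have := hf (by omega : c ≤ x)
      omega
    have h2 := Finset.card_le_card h1
    rw [Finset.card_range] at h2
    omega
  · intro h
    have h1 : Finset.range (c + 1) ⊆ ((Finset.range n).filter fun x => f x < p) := by
      intro x hx
      rw [Finset.mem_range] at hx
      have := hf (by omega : x ≤ c)
      exact Finset.mem_filter.2 ⟨Finset.mem_range.2 (by omega), by omega⟩
    have h2 := Finset.card_le_card h1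
    rw [Finset.card_range] at h2
    omega

open Classical in
/-- number of bad lines before `c` -/
noncomputable def nbad {G : SimpleGraph J} {σ : Type*} (P : PSh G σ) (Bal : J → J → Prop) (s : σ)
    (c : ℕ) : ℕ := ((Finset.range c).filter fun x => ¬ Bal (P.col s x) (P.col s (x + 1))).card

lemma nbad_mono {G : SimpleGraph J} {σ : Type*} (P : PSh G σ) (Bal : J → J → Prop) (s : σ) :
    Monotone (nbad P Bal s) := by
  classical
  intro a b hab
  unfold nbad
  refine Finset.card_le_card fun x hx => ?_
  obtain ⟨h1, h2⟩ := Finset.mem_filter.1 hx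
  exact Finset.mem_filter.2 ⟨Finset.mem_range.2 (by have := Finset.mem_range.1 h1; omega), h2⟩

lemma nbad_succ {G : SimpleGraph J} {σ : Type*} (P : PSh G σ) (Bal : J → J → Prop) (s : σ) {c : ℕ}
    (h : nbad P Bal s (c + 1) = nbad P Bal s c) : Bal (P.col s c) (P.col s (c + 1)) := by
  classical
  by_contra hcon
  unfold nbad at h
  rw [Finset.range_add_one, Finset.filter_insert, if_pos hcon, Finset.card_insert_of_notMem] at h
  · omega
  · intro h1
    exact absurd (Finset.mem_range.1 (Finset.mem_filter.1 h1).1) (lt_irrefl c)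

/-- **Cutting the sheets at the bad lines.** -/
theorem cut_sheets {G : SimpleGraph J} {n K : ℕ} (P : PSh G (Fin n)) (Bal : J → J → Prop)
    (hK : ∀ s, {c | c + 1 < P.len s ∧ ¬ Bal (P.col s c) (P.col s (c + 1))}.ncard < K) :
    ∃ P' : PSh G (Fin (n * K)),
      (∀ s c, c + 1 < P'.len s → Bal (P'.col s c) (P'.col s (c + 1))) ∧
      ∀ j, P'.Cov j ↔ P.Cov j := by
  classical
  set a : Fin n → ℕ → ℕ := fun s p =>
    ((Finset.range (P.len s)).filter fun x => nbad P Bal s x < p).card with ha
  have hale : ∀ s p, a s p ≤ P.len s := by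
    intro s p
    rw [ha]
    refine (Finset.card_filter_le _ _).trans ?_
    rw [Finset.card_range]
  have hlt : ∀ s p c, c < P.len s → (c < a s p ↔ nbad P Bal s c < p) := fun s p c hc =>
    card_filter_lt (nbad_mono P Bal s) _ _ hc
  have hamono : ∀ s p, a s p ≤ a s (p + 1) := by
    intro s p
    rw [ha]
    refine Finset.card_le_card fun x hx => ?_
    obtain ⟨h1, h2⟩ := Finset.mem_filter.1 hx
    exact Finset.mem_filter.2 ⟨h1, by omega⟩
  -- number of the piece
  have hpc : ∀ s p c, c < a s (p + 1) - a s p → a s p + c < P.len s ∧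
      nbad P Bal s (a s p + c) = p := by
    intro s p c hc
    have h1 := hale s (p + 1)
    have h2 : a s p + c < P.len s := by omega
    have h3 := (hlt s (p + 1) _ h2).1 (by omega)
    have h4 := (hlt s p _ h2).not.1 (by omega)
    exact ⟨h2, by omega⟩
  have hnK : ∀ s c, c < P.len s → nbad P Bal s c < K := by
    intro s c hc
    refine lt_of_le_of_lt ?_ (hK s)
    unfold nbad
    rw [← ncard_coe_finset]
    refine ncard_le_ncard ?_ ?_
    · intro x hx
      obtain ⟨h1, h2⟩ := Finset.mem_filter.1 (Finset.mem_coe.1 hx)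
      have h3 := Finset.mem_range.1 h1
      exact ⟨by omega, h2⟩
    · refine (finite_lt_nat (P.len s)).subset fun x hx => ?_
      have h3 : x + 1 < P.len s := hx.1
      show x < P.len s
      omega
  set e : Fin (n * K) ≃ Fin n × Fin K := finProdFinEquiv.symm with he
  refine ⟨⟨fun s => a (e s).1 ((e s).2 + 1) - a (e s).1 (e s).2,
    fun s c => P.col (e s).1 (a (e s).1 (e s).2 + c), ?_, ?_⟩, ?_, ?_⟩
  · intro s c hc
    have h1 := hpc (e s).1 (e s).2 (c + 1) hc
    exact P.adj _ _ (by have := h1.1; omega)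
  · intro s c s' c' hc hc' hcc
    have h1 := hpc (e s).1 (e s).2 c hc
    have h2 := hpc (e s').1 (e s').2 c' hc'
    obtain ⟨h3, h4⟩ := P.inj _ _ _ _ h1.1 h2.1 hcc
    have h5 := h1.2
    have h6 := h2.2
    rw [← h4, ← h3, h5] at h6
    have h7 : e s = e s' := Prod.ext h3 (Fin.ext h6)
    refine ⟨e.injective h7, ?_⟩
    rw [h7] at h4
    omega
  · intro s c hc
    have h1 := hpc (e s).1 (e s).2 (c + 1) hc
    have h2 := hpc (e s).1 (e s).2 c (by
      have : c + 1 < a (e s).1 ((e s).2 + 1) - a (e s).1 (e s).2 := hc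
      omega)
    exact nbad_succ P Bal (e s).1 (c := a (e s).1 (e s).2 + c) (h1.2.trans h2.2.symm)
  · intro j
    constructor
    · rintro ⟨s, c, hc, rfl⟩
      have h1 := hpc (e s).1 (e s).2 c hc
      exact ⟨_, _, h1.1, rfl⟩
    · rintro ⟨s, c, hc, rfl⟩
      set p := nbad P Bal s c with hp
      have hpK := hnK s c hc
      have h1 := (hlt s (p + 1) c hc).2 (by omega)
      have h2 := (hlt s p c hc).not.2 (by omega)
      refine ⟨e.symm (s, ⟨p, hpK⟩), c - a s p, ?_, ?_⟩
      · show c - a s p < a (e (e.symm (s, ⟨p, hpK⟩))).1 ((e (e.symm (s, ⟨p, hpK⟩))).2 + 1) -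
          a (e (e.symm (s, ⟨p, hpK⟩))).1 (e (e.symm (s, ⟨p, hpK⟩))).2
        rw [e.apply_symm_apply]
        show c - a s p < a s (p + 1) - a s p
        omega
      · show P.col (e (e.symm (s, ⟨p, hpK⟩))).1 (a (e (e.symm (s, ⟨p, hpK⟩))).1
          (e (e.symm (s, ⟨p, hpK⟩))).2 + (c - a s p)) = _
        rw [e.apply_symm_apply]
        show P.col s (a s p + (c - a s p)) = _
        congr 1
        omega

open Classical in
/-- only the sheets with `q` -/
noncomputable def PSh.keep {G : SimpleGraph J} {σ : Type*} (P : PSh G σ) (q : σ → Prop) :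
    PSh G σ where
  len s := if q s then P.len s else 0
  col := P.col
  adj s c hc := by
    split_ifs at hc with h
    · exact P.adj s c hc
    · omega
  inj s c s' c' hc hc' hcc := by
    have h1 : c < P.len s := by
      split_ifs at hc with h
      · exact hc
      · omega
    have h2 : c' < P.len s' := by
      split_ifs at hc' with h
      · exact hc'
      · omega
    exact P.inj s c s' c' h1 h2 hcc

/-- **Dropping poor sheets**: sheets with at most `X` different good rows get the length `0`. -/
theorem drop_poor [Finite β] {G : SimpleGraph J} {n : ℕ} (P : PSh G (Fin n)) (R : J → β)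
    (Gd : Set β) (X : ℕ) :
    ∃ P' : PSh G (Fin n), (∀ s, P'.len s = P.len s ∨ P'.len s = 0) ∧ P'.col = P.col ∧
      (∀ s, 0 < P'.len s → X < {r | r ∈ Gd ∧ ∃ c, c < P'.len s ∧ R (P'.col s c) = r}.ncard) ∧
      {r | r ∈ Gd ∧ ∃ j, R j = r ∧ P.Cov j ∧ ¬ P'.Cov j}.ncard ≤ n * X := by
  classical
  set rich : Fin n → Prop := fun s =>
    X < {r | r ∈ Gd ∧ ∃ c, c < P.len s ∧ R (P.col s c) = r}.ncard with hrich
  have hlen1 : ∀ s, rich s → (P.keep rich).len s = P.len s := fun s h => if_pos h
  have hlen0 : ∀ s, ¬ rich s → (P.keep rich).len s = 0 := fun s h => if_neg h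
  refine ⟨P.keep rich, ?_, rfl, ?_, ?_⟩
  · intro s
    by_cases h : rich s
    · exact Or.inl (hlen1 s h)
    · exact Or.inr (hlen0 s h)
  · intro s hs
    by_cases h : rich s
    · rw [hlen1 s h]
      exact h
    · rw [hlen0 s h] at hs
      omega
  · have hsub : {r | r ∈ Gd ∧ ∃ j, R j = r ∧ P.Cov j ∧ ¬ (P.keep rich).Cov j} ⊆
        ⋃ s ∈ (Finset.univ.filter fun s => ¬ rich s),
          {r | r ∈ Gd ∧ ∃ c, c < P.len s ∧ R (P.col s c) = r} := by
      rintro r ⟨hr, j, rfl, ⟨s, c, hc, rfl⟩, hn⟩
      refine mem_iUnion₂.2 ⟨s, ?_, hr, c, hc, rfl⟩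
      rw [Finset.mem_filter]
      refine ⟨Finset.mem_univ _, fun h => hn ⟨s, c, ?_, rfl⟩⟩
      rw [hlen1 s h]
      exact hc
    refine (ncard_le_ncard hsub (Set.toFinite _)).trans ?_
    have key : ∀ t : Finset (Fin n), (∀ s ∈ t, ¬ rich s) →
        (⋃ s ∈ t, {r | r ∈ Gd ∧ ∃ c, c < P.len s ∧ R (P.col s c) = r}).ncard ≤ t.card * X := by
      intro t
      induction t using Finset.induction_on with
      | empty => simp
      | insert s t hs ih =>
        intro ht
        rw [Finset.set_biUnion_insert, Finset.card_insert_of_notMem hs]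
        refine (ncard_union_le _ _).trans ?_
        have h1 := ih fun s' hs' => ht s' (Finset.mem_insert_of_mem hs')
        have h2 : ¬ X < _ := ht s (Finset.mem_insert_self _ _)
        have h3 : (t.card + 1) * X = t.card * X + X := by ring
        omega
    refine (key _ fun s hs => (Finset.mem_filter.1 hs).2).trans ?_
    refine Nat.mul_le_mul_right _ ?_
    exact (Finset.card_le_univ _).trans (by rw [Fintype.card_fin])

end TST
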