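import Pool.Agent.TST.Top

/-!
# T-star in the form of the problem (MP_5165fa_co)
-/

open Set BIC BICS
open scoped Matroid

namespace TSK

universe u

variable {α : Type u}

/-- The contracted set may be chosen independent. -/
lemma exists_indep_rep (M : Matroid α) [M.Finite] {C D : Set α} (hC : C ⊆ M.E) (hD : D ⊆ M.E)
    (hCD : Disjoint C D) : ∃ C' D' : Set α, C' ⊆ C ∧ C' ⊆ M.E ∧ D' ⊆ M.E ∧ Disjoint C' D' ∧
      C' ∪ D' = C ∪ D ∧ M ／ C ＼ D = M ／ C' ＼ D' ∧ C'.ncard ≤ rk M M.E := by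
  obtain ⟨I, hI⟩ := M.exists_isBasis C hC
  refine ⟨I, (C \ I) ∪ D, hI.subset, hI.subset.trans hC, union_subset (sdiff_subset.trans hC) hD,
    ?_, ?_, ?_, ?_⟩
  · rw [Set.disjoint_union_right]
    exact ⟨disjoint_sdiff_right, hCD.mono_left hI.subset⟩
  · rw [← union_assoc, union_sdiff_cancel hI.subset]
  · rw [hI.contract_eq_contract_delete, Matroid.delete_delete]
  · have h1 : (I.ncard : ℕ∞) = M.eRk I := by
      rw [hI.indep.eRk_eq_encard]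
      exact (M.ground_finite.subset (hI.subset.trans hC)).cast_ncard_eq
    have h2 : M.eRk I ≤ M.eRk M.E := M.eRk_mono (hI.subset.trans hC)
    rw [← h1, ← cast_rk] at h2
    exact_mod_cast h2

lemma hasUniformMinor_zero (M : Matroid α) : HasUniformMinor M 0 := by
  refine ⟨M ／ (∅ : Set α) ＼ M.E, M.contract_delete_isMinor _ _, ?_, ?_⟩
  · simp
  · intro B
    have h : M ／ (∅ : Set α) ＼ M.E = Matroid.emptyOn α := by
      rw [← Matroid.ground_eq_empty_iff]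
      simp
    rw [h, Matroid.emptyOn_isBase_iff, Matroid.emptyOn_ground, subset_empty_iff]
    constructor
    · rintro rfl
      exact ⟨rfl, ncard_empty _⟩
    · exact fun h => h.1

/-- Few conflicts of one kind, or small rank or corank: any constant. -/
theorem few_conflictsK (hT : ∀ k K : ℕ, 1 ≤ k → TStar.{u} k K) (k K : ℕ) :
    ∃ N : ℕ, ∀ n ≥ N, ∀ (α : Type u) (M : Matroid α), M.Finite → ∀ C₁ D₁ C₂ D₂ : Set α,
    C₁ ⊆ M.E → D₁ ⊆ M.E → C₂ ⊆ M.E → D₂ ⊆ M.E → Disjoint C₁ D₁ → Disjoint C₂ D₂ →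
    Disjoint (M ／ C₁ ＼ D₁).E (M ／ C₂ ＼ D₂).E →
    IsBicircular (M ／ C₁ ＼ D₁) (GPlus n) →
    IsBicircular (M ／ C₂ ＼ D₂)✶ (GPlus n) →
    (∀ X : Set α, (M ／ C₁ ＼ D₁).E ⊆ X → X ⊆ M.E \ (M ／ C₂ ＼ D₂).E →
      (N : ℕ∞) + M.eRk M.E ≤ M.eRk X + M.eRk (M.E \ X)) →
    (C₁ ∩ D₂).ncard ≤ K * n ^ 4 ∨ (D₁ ∩ C₂).ncard ≤ K * n ^ 4 ∨
      M.eRank ≤ K * n ^ 4 ∨ M✶.eRank ≤ K * n ^ 4 →
    ∃ U : Matroid α, U ≤m M ∧ U.E.ncard = 2 * k ∧ ∀ B, U.IsBase B ↔ B ⊆ U.E ∧ B.ncard = k := by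
  rcases Nat.eq_zero_or_pos k with rfl | hk
  · exact ⟨0, fun n _ α M _ C₁ D₁ C₂ D₂ _ _ _ _ _ _ _ _ _ _ _ => hasUniformMinor_zero M⟩
  obtain ⟨N, hN⟩ := hT k K hk
  refine ⟨N, ?_⟩
  intro n hn α M hM C₁ D₁ C₂ D₂ hC₁ hD₁ hC₂ hD₂ hCD₁ hCD₂ hdis hb₁ hb₂ hκ hdef
  have g₁ : (M ／ C₁ ＼ D₁).E = M.E \ (C₁ ∪ D₁) := by
    rw [Matroid.delete_ground, Matroid.contract_ground, sdiff_sdiff]
  have g₂ : (M ／ C₂ ＼ D₂).E = M.E \ (C₂ ∪ D₂) := by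
    rw [Matroid.delete_ground, Matroid.contract_ground, sdiff_sdiff]
  have hd : (M ／ C₂ ＼ D₂)✶ = M✶ ／ D₂ ＼ C₂ := by
    rw [Matroid.dual_delete, Matroid.dual_contract, Matroid.contract_delete_comm _ hCD₂.symm]
  rw [g₁, g₂] at hdis hκ
  rw [hd] at hb₂
  have hK : KGe M (M.E \ (C₁ ∪ D₁)) (M.E \ (C₂ ∪ D₂)) N := by
    intro X h1 h2
    have h3 := hκ X h1 h2
    rw [← cast_rk, ← cast_rk, ← cast_rk] at h3
    exact_mod_cast h3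
  rcases hdef with h | h | h | h
  · exact hN n hn M C₁ D₁ C₂ D₂ hC₁ hD₁ hC₂ hD₂ hCD₁ hCD₂ hdis hb₁ hb₂ (Or.inl h) hK
  · exact hN n hn M C₁ D₁ C₂ D₂ hC₁ hD₁ hC₂ hD₂ hCD₁ hCD₂ hdis hb₁ hb₂ (Or.inr h) hK
  · obtain ⟨C', D', c1, c2, c3, c4, c5, c6, c7⟩ := exists_indep_rep M hC₁ hD₁ hCD₁
    rw [← Matroid.eRk_ground, ← cast_rk] at h
    have h1 : rk M M.E ≤ K * n ^ 4 := by exact_mod_cast h
    rw [c6] at hb₁
    rw [← c5] at hdis hK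
    refine hN n hn M C' D' C₂ D₂ c2 c3 hC₂ hD₂ c4 hCD₂ hdis hb₁ hb₂ (Or.inl ?_) hK
    exact (ncard_le_ncard inter_subset_left (M.ground_finite.subset c2)).trans (c7.trans h1)
  · obtain ⟨C', D', c1, c2, c3, c4, c5, c6, c7⟩ := exists_indep_rep M✶ (C := D₂) (D := C₂)
      hD₂ hC₂ hCD₂.symm
    rw [← Matroid.eRk_ground, ← cast_rk] at h
    have h1 : rk M✶ M✶.E ≤ K * n ^ 4 := by exact_mod_cast h
    rw [c6] at hb₂
    have c5' : D' ∪ C' = C₂ ∪ D₂ := by rw [union_comm D', c5, union_comm]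
    rw [← c5'] at hdis hK
    refine hN n hn M C₁ D₁ D' C' hC₁ hD₁ c3 c2 hCD₁ c4.symm hdis hb₁ hb₂ (Or.inl ?_) hK
    exact (ncard_le_ncard inter_subset_right (M.ground_finite.subset c2)).trans (c7.trans h1)

end TSK
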