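import Pool.Agent.TST.TopD
import Pool.Agent.TST.FinalStar
import Pool.Agent.Helper74.DST.V2

/-!
# T-star in the form of the problem (MP_5165fa_co), from the version for plain grids
-/

open Set BIC BICS
open scoped Matroid

namespace TSK

universe u

open BICS.DST

/-- A plain grid can be moved to the origin. -/
lemma grd_origin {α : Type*} {N : Matroid α} {S : Set α} {ends : α → Sym2 (ℕ × ℕ)} {a a' m : ℕ}
    (hB : Bic N S ends) (hG : Grd S ends a a' m m) :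
    ∃ g : α → Sym2 (ℕ × ℕ), Bic N S g ∧ Grd S g 0 0 m m := by
  classical
  obtain ⟨f, hf⟩ : ∃ f : ℕ × ℕ → ℕ × ℕ, ∀ p, f p = (p.1 - a, p.2 - a') := ⟨_, fun _ => rfl⟩
  have hv : ∀ e ∈ S, ∀ v ∈ ends e, v ∈ rect a a' m m := by
    intro e he v hv
    obtain ⟨p, q, h1, _, h3, h4⟩ := hG.mem e he
    rw [h1, Sym2.mem_iff] at hv
    rcases hv with rfl | rfl <;> assumption
  have hinj : ∀ v ∈ rect a a' m m, ∀ w ∈ rect a a' m m, f v = f w → v = w := by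
    rintro ⟨x, y⟩ ⟨h1, h2, h3, h4⟩ ⟨x', y'⟩ ⟨h5, h6, h7, h8⟩ h
    simp only [hf, Prod.mk.injEq] at h h1 h2 h3 h4 h5 h6 h7 h8 ⊢
    omega
  refine ⟨fun e => (ends e).map f, ?_, ?_, ?_, ?_⟩
  · refine Bic_map hB f ?_
    rintro v ⟨e, he, hv1⟩ w ⟨e', he', hw⟩ h
    exact hinj v (hv e he v hv1) w (hv e' he' w hw) h
  · intro e he e' he' h
    apply hG.inj he he'
    obtain ⟨p, q, h1, _, hp, hq⟩ := hG.mem e he
    obtain ⟨p', q', h1', _, hp', hq'⟩ := hG.mem e' he'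
    simp only [h1, h1', Sym2.map_mk, Sym2.eq_iff] at h
    rw [h1, h1', Sym2.eq_iff]
    rcases h with ⟨h2, h3⟩ | ⟨h2, h3⟩
    · exact Or.inl ⟨hinj _ hp _ hp' h2, hinj _ hq _ hq' h3⟩
    · exact Or.inr ⟨hinj _ hp _ hq' h2, hinj _ hq _ hp' h3⟩
  · intro e he
    obtain ⟨p, q, h1, h2, h3, h4⟩ := hG.mem e he
    obtain ⟨p1, p2, p3, p4⟩ := h3
    obtain ⟨q1, q2, q3, q4⟩ := h4
    refine ⟨f p, f q, by simp only [h1, Sym2.map_mk], ?_, ?_, ?_⟩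
    · unfold BICS.adj at h2 ⊢
      simp only [hf]
      omega
    · simp only [hf, rect, mem_ofPred_eq]
      omega
    · simp only [hf, rect, mem_ofPred_eq]
      omega
  · rintro p q hpq ⟨p1, p2, p3, p4⟩ ⟨q1, q2, q3, q4⟩
    have hp : ((p.1 + a, p.2 + a') : ℕ × ℕ) ∈ rect a a' m m := by
      simp only [rect, mem_ofPred_eq]; omega
    have hq : ((q.1 + a, q.2 + a') : ℕ × ℕ) ∈ rect a a' m m := by
      simp only [rect, mem_ofPred_eq]; omega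
    obtain ⟨e, he, he'⟩ := hG.surj (p.1 + a, p.2 + a') (q.1 + a, q.2 + a') (by
      unfold BICS.adj at hpq ⊢
      simp only
      omega) hp hq
    refine ⟨e, he, ?_⟩
    simp only [he', Sym2.map_mk, hf, Nat.add_sub_cancel]

/-- T-star for blocks of plain grids. -/
theorem TStarD.blocks {k K : ℕ} (hT : TStarD.{u} k K) : ∃ N₁ : ℕ, ∀ n ≥ N₁, ∀ {α : Type u}
    (M : Matroid α) [M.Finite] (E₁ E₂ C₁ D₂ : Set α) (e₁ e₂ : α → Sym2 (ℕ × ℕ))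
    (x y x' y' : ℕ), E₁ ⊆ M.E → E₂ ⊆ M.E → Disjoint E₁ E₂ → C₁ ⊆ M.E \ E₁ → D₂ ⊆ M.E \ E₂ →
    Bic (M ／ C₁) E₁ e₁ → Grd E₁ e₁ x y n n → Bic (M✶ ／ D₂) E₂ e₂ → Grd E₂ e₂ x' y' n n →
    ((C₁ ∩ D₂).ncard ≤ K * n ^ 4 ∨ (M.E \ (E₁ ∪ E₂ ∪ C₁ ∪ D₂)).ncard ≤ K * n ^ 4) →
    KGe M E₁ E₂ N₁ → HasUniformMinor M k := by
  obtain ⟨N₁, hN⟩ := hT
  refine ⟨N₁, ?_⟩
  intro n hn α M _ E₁ E₂ C₁ D₂ e₁ e₂ x y x' y' h1 h2 h3 h4 h5 b₁ g₁ b₂ g₂ hc hK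
  obtain ⟨f₁, p1, p2⟩ := grd_origin b₁ g₁
  obtain ⟨f₂, p3, p4⟩ := grd_origin b₂ g₂
  exact hN n hn M E₁ E₂ C₁ D₂ f₁ f₂ ⟨h1, h2, h3, h4, h5, p1, p2, p3, p4⟩ hc hK

open BICS.WPP in
/-- The other kind of conflicting elements, with a trade-off, any constant. -/
theorem topDkK_of {k K : ℕ} (hD : TStarD.{u} k (64 * K + 1)) : ∃ N : ℕ, ∀ n ≥ N,
    ∀ {α : Type u} (M : Matroid α) [M.Finite] (C₁ D₁ C₂ D₂ F G H : Set α) (q : ℕ),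
    C₁ ⊆ M.E → D₁ ⊆ M.E → C₂ ⊆ M.E → D₂ ⊆ M.E → Disjoint (M.E \ (C₁ ∪ D₁)) (M.E \ (C₂ ∪ D₂)) →
    IsBicircular (M ／ C₁ ＼ D₁) (GPlus n) → IsBicircular (M✶ ／ D₂ ＼ C₂) (GPlus n) →
    D₁ ∩ C₂ = F ∪ G ∪ H →
    rk (M ／ C₁) (M.E \ (C₁ ∪ D₁)) ≤ rk (M ／ (C₁ ∪ F)) (M.E \ (C₁ ∪ D₁)) + q →
    rk (M✶ ／ D₂) (M.E \ (C₂ ∪ D₂)) ≤ rk (M✶ ／ (D₂ ∪ G)) (M.E \ (C₂ ∪ D₂)) + q →
    N * (q + 1) ≤ n → (q + 1) ^ 2 * H.ncard ≤ K * n ^ 4 →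
    KGe M (M.E \ (C₁ ∪ D₁)) (M.E \ (C₂ ∪ D₂)) N → HasUniformMinor M k := by
  obtain ⟨n₀, h₀⟩ := hD.blocks
  set t2 := n₀ with ht2
  set t1 := t2 + 32 * (t2 + 1) ^ 2 + 1 with ht1
  set T := t1 + 32 * (t1 + 1) ^ 2 + 1 with hT
  set N := 128 * n₀ + 32 * n₀ + 4 * T + 8 * (n₀ + 4 * (t1 + t2 + 2) + 2) + 32 with hN
  refine ⟨N, ?_⟩
  intro n hn α M _ C₁ D₁ C₂ D₂ F G H q hC₁ hD₁ hC₂ hD₂ hdis hb₁ hb₂ hFGH hdef₁ hdef₂ hqn hH hK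
  have hn2 : 2 ≤ n := by omega
  obtain ⟨S₁, e₁, hS₁, hB₁, hG₁, hc₁, hk₁⟩ := split1 hn2 hC₁ hb₁
  obtain ⟨S₂, e₂, hS₂, hB₂, hG₂, hc₂, hk₂⟩ := split1 (M := M✶) hn2 hD₂ hb₂
  rw [Matroid.dual_ground, union_comm D₂ C₂] at hS₂ hk₂ hc₂
  have hE₁ : M.E \ (C₁ ∪ D₁) ⊆ M.E := sdiff_subset
  have hE₂ : M.E \ (C₂ ∪ D₂) ⊆ M.E := sdiff_subset
  have hS₁E : S₁ ⊆ M.E := hS₁.trans hE₁
  have hS₂E : S₂ ⊆ M.E := hS₂.trans hE₂
  have hFD : F ⊆ D₁ ∩ C₂ := by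
    rw [hFGH]; exact subset_union_left.trans subset_union_left
  have hGD : G ⊆ D₁ ∩ C₂ := by
    rw [hFGH]; exact subset_union_right.trans subset_union_left
  have hHD : H ⊆ D₁ ∩ C₂ := by
    rw [hFGH]; exact subset_union_right
  have hFE : F ⊆ M.E := fun z hz => hD₁ (hFD hz).1
  have hGE : G ⊆ M.E := fun z hz => hD₁ (hGD hz).1
  have k1 : KGe M S₁ (M.E \ (C₂ ∪ D₂)) (2 * T) := by
    refine hk₁ _ _ hdis ?_
    intro X h1 h2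
    have := hK X h1 h2
    omega
  have k2 : KGe M✶ S₂ S₁ T := by
    refine hk₂ _ _ (hdis.symm.mono_right hS₁) ?_
    exact k1.dual (hS₁.trans hE₁)
  have k3 : KGe M S₁ S₂ T := by
    have := k2.dual (M := M✶) (hS₂.trans hE₂)
    rwa [Matroid.dual_dual] at this
  have hSd : Disjoint S₁ S₂ := hdis.mono hS₁ hS₂
  have fC : ∀ B : Set α, (M ／ B).Finite := fun B => BQ.fin_contract B
  have fD : ∀ B : Set α, (M✶ ／ B).Finite := fun B => BQ.fin_contract B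
  have dS₁ : S₁ ⊆ M.E \ (C₁ ∪ F) := fun z hz =>
    ⟨hS₁E hz, fun h => (hS₁ hz).2 (h.imp id fun h => (hFD h).1)⟩
  have dS₂ : S₂ ⊆ M✶.E \ (D₂ ∪ G) := fun z hz =>
    ⟨hS₂E hz, fun h => (hS₂ hz).2 (h.elim Or.inr fun h => Or.inl (hGD h).2)⟩
  have hdS₁ : rk (M ／ C₁) S₁ ≤ rk (M ／ (C₁ ∪ F)) S₁ + q := by
    have := quo_mono (M := M) (A := C₁) (B := C₁ ∪ F) (E := M.E \ (C₁ ∪ D₁)) subset_union_left
      (union_subset hC₁ hFE)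
      (fun z hz => ⟨hz.1, fun h => hz.2 (h.imp id fun h => (hFD h).1)⟩) S₁ _ hS₁ (Subset.refl _)
    omega
  have hdS₂ : rk (M✶ ／ D₂) S₂ ≤ rk (M✶ ／ (D₂ ∪ G)) S₂ + q := by
    have := quo_mono (M := M✶) (A := D₂) (B := D₂ ∪ G) (E := M.E \ (C₂ ∪ D₂)) subset_union_left
      (union_subset hD₂ hGE)
      (fun z hz => ⟨hz.1, fun h => hz.2 (h.elim Or.inr fun h => Or.inl (hGD h).2)⟩)
      S₂ _ hS₂ (Subset.refl _)
    omega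
  -- the number of blocks
  set b := Nat.sqrt q + 1 with hb
  have hb1 : q < b * b := Nat.sqrt_lt.1 (Nat.lt_succ_self _)
  have hb2 : b * b ≤ 2 * (q + 1) := by
    have h1 : Nat.sqrt q * Nat.sqrt q ≤ q := Nat.sqrt_le q
    rw [hb]
    nlinarith [sq_nonneg ((Nat.sqrt q : ℤ) - 1)]
  have hbq : b ≤ q + 1 := by
    rw [hb]
    exact Nat.succ_le_succ (Nat.sqrt_le_self q)
  have hbn : N * b ≤ n := (Nat.mul_le_mul_left _ hbq).trans hqn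
  have hb0 : 0 < b := Nat.succ_pos _
  set m := n / b with hm
  have hm1 : b * m ≤ n := Nat.mul_div_le n b
  have hm2 : n < b * (m + 1) := Nat.lt_mul_div_succ n hb0
  have hNm : N ≤ m := by
    rw [hm, Nat.le_div_iff_mul_le hb0]
    exact hbn
  have hnA : n ≤ 2 * b * m := by
    have h1 : b * (m + 1) ≤ 2 * b * m := by
      have : m + 1 ≤ 2 * m := by omega
      calc b * (m + 1) ≤ b * (2 * m) := Nat.mul_le_mul_left _ this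
        _ = 2 * b * m := by ring
    omega
  obtain ⟨a₁, a₁', hr₁, hBX⟩ := exact_block2 hC₁ hFE dS₁ hB₁ hdS₁ hb1 hm1
  obtain ⟨a₂, a₂', hr₂, hBY⟩ := exact_block2 (M := M✶) (by exact hD₂) (by exact hGE) dS₂ hB₂
    hdS₂ hb1 hm1
  set X := blk S₁ e₁ a₁ a₁' m with hX
  set Y := blk S₂ e₂ a₂ a₂' m with hY
  have hXS : X ⊆ S₁ := blk_sub
  have hYS : Y ⊆ S₂ := blk_sub
  have c1 : KGe M X S₂ (t1 + 1) := BQ.kge_blk (C := C₁)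
    (fun z hz => ⟨hC₁ hz, fun h => (dS₁ h).2 (Or.inl hz)⟩) hS₁E hSd hB₁ hG₁ hr₁ (by omega) k3
  have c2 : KGe M✶ Y X (t2 + 1) := BQ.kge_blk (M := M✶) (C := D₂)
    (fun z hz => ⟨hD₂ hz, fun h => (dS₂ h).2 (Or.inl hz)⟩) (by exact hS₂E)
    (hSd.symm.mono_right hXS) hB₂ hG₂ hr₂ (by omega)
    (BQ.KGe.mono_n (c1.dual (hXS.trans hS₁E)) (by omega))
  have c3 : KGe M X Y n₀ := by
    have := c2.dual (M := M✶) (hYS.trans hS₂E)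
    rw [Matroid.dual_dual] at this
    exact BQ.KGe.mono_n this (by omega)
  refine h₀ m (by omega) M X Y (C₁ ∪ F) (D₂ ∪ G) e₁ e₂ a₁ a₁' a₂ a₂' (hXS.trans hS₁E)
    (hYS.trans hS₂E) (hSd.mono hXS hYS) ?_ ?_ hBX (Grd_sub hG₁ hr₁) hBY (Grd_sub hG₂ hr₂) ?_ c3
  · exact fun z hz => ⟨(union_subset hC₁ hFE) hz, fun h => (dS₁ (hXS h)).2 hz⟩
  · exact fun z hz => ⟨(union_subset hD₂ hGE) hz, fun h => (dS₂ (hYS h)).2 hz⟩
  · right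
    have hfin : M.E.Finite := M.ground_finite
    have g1 := grd_ncard_le hG₁
    have g2 := grd_ncard_le hG₂
    have h1 : (M.E \ (X ∪ Y ∪ (C₁ ∪ F) ∪ (D₂ ∪ G))).ncard ≤
        H.ncard + S₁.ncard + ((M.E \ (C₁ ∪ D₁)) \ S₁).ncard + S₂.ncard +
          ((M.E \ (C₂ ∪ D₂)) \ S₂).ncard := by
      have hsub : M.E \ (X ∪ Y ∪ (C₁ ∪ F) ∪ (D₂ ∪ G)) ⊆
          H ∪ S₁ ∪ ((M.E \ (C₁ ∪ D₁)) \ S₁) ∪ S₂ ∪ ((M.E \ (C₂ ∪ D₂)) \ S₂) := by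
        rintro e ⟨he, h2⟩
        have n1 : e ∉ C₁ := fun h => h2 (Or.inl (Or.inr (Or.inl h)))
        have n2 : e ∉ F := fun h => h2 (Or.inl (Or.inr (Or.inr h)))
        have n3 : e ∉ D₂ := fun h => h2 (Or.inr (Or.inl h))
        have n4 : e ∉ G := fun h => h2 (Or.inr (Or.inr h))
        by_cases s1 : e ∈ S₁
        · exact Or.inl (Or.inl (Or.inl (Or.inr s1)))
        by_cases s2 : e ∈ S₂
        · exact Or.inl (Or.inr s2)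
        by_cases hd1 : e ∈ D₁
        · by_cases hc2 : e ∈ C₂
          · have : e ∈ F ∪ G ∪ H := by rw [← hFGH]; exact ⟨hd1, hc2⟩
            rcases this with (h | h) | h
            · exact absurd h n2
            · exact absurd h n4
            · exact Or.inl (Or.inl (Or.inl (Or.inl h)))
          · exact Or.inr ⟨⟨he, fun h => h.elim hc2 n3⟩, s2⟩
        · exact Or.inl (Or.inl (Or.inr ⟨⟨he, fun h => h.elim n1 hd1⟩, s1⟩))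
      refine (Set.ncard_le_ncard hsub (hfin.subset ?_)).trans ?_
      · rintro e ((((h | h) | h) | h) | h)
        · exact hD₁ (hHD h).1
        · exact hS₁E h
        · exact h.1.1
        · exact hS₂E h
        · exact h.1.1
      · refine (Set.ncard_union_le _ _).trans (Nat.add_le_add_right ?_ _)
        refine (Set.ncard_union_le _ _).trans (Nat.add_le_add_right ?_ _)
        refine (Set.ncard_union_le _ _).trans (Nat.add_le_add_right ?_ _)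
        exact Set.ncard_union_le _ _
    have h2 : (M.E \ (X ∪ Y ∪ (C₁ ∪ F) ∪ (D₂ ∪ G))).ncard ≤ H.ncard + 8 * (n * n) := by
      have : 1 ≤ n * n := Nat.mul_pos (by omega) (by omega)
      omega
    have hb4 : b ^ 4 ≤ 4 * (q + 1) ^ 2 := by
      have := Nat.mul_le_mul hb2 hb2
      calc b ^ 4 = b * b * (b * b) := by ring
        _ ≤ 2 * (q + 1) * (2 * (q + 1)) := this
        _ = 4 * (q + 1) ^ 2 := by ring
    have hn4 : n ^ 4 ≤ 64 * (q + 1) ^ 2 * m ^ 4 := by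
      calc n ^ 4 ≤ (2 * b * m) ^ 4 := Nat.pow_le_pow_left hnA 4
        _ = 16 * b ^ 4 * m ^ 4 := by ring
        _ ≤ 16 * (4 * (q + 1) ^ 2) * m ^ 4 :=
          Nat.mul_le_mul_right _ (Nat.mul_le_mul_left _ hb4)
        _ = 64 * (q + 1) ^ 2 * m ^ 4 := by ring
    have h3 : H.ncard ≤ 64 * K * m ^ 4 := by
      have h4 : (q + 1) ^ 2 * H.ncard ≤ (q + 1) ^ 2 * (64 * K * m ^ 4) := by
        calc (q + 1) ^ 2 * H.ncard ≤ K * n ^ 4 := hH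
          _ ≤ K * (64 * (q + 1) ^ 2 * m ^ 4) := Nat.mul_le_mul_left _ hn4
          _ = (q + 1) ^ 2 * (64 * K * m ^ 4) := by ring
      exact Nat.le_of_mul_le_mul_left h4 (by positivity)
    have h5 : 8 * (n * n) ≤ m ^ 4 := by
      have h6 : n * n ≤ 8 * (q + 1) * (m * m) := by
        calc n * n ≤ (2 * b * m) * (2 * b * m) := Nat.mul_le_mul hnA hnA
          _ = 4 * (b * b) * (m * m) := by ring
          _ ≤ 4 * (2 * (q + 1)) * (m * m) :=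
            Nat.mul_le_mul_right _ (Nat.mul_le_mul_left _ hb2)
          _ = 8 * (q + 1) * (m * m) := by ring
      have h7 : 64 * (q + 1) ≤ m * m := by
        have g : N * (q + 1) * (N * (q + 1)) ≤ 8 * (q + 1) * (m * m) :=
          (Nat.mul_le_mul hqn hqn).trans h6
        have g2 : 8 * (q + 1) * (64 * (q + 1)) ≤ N * (q + 1) * (N * (q + 1)) := by
          have g3 : 512 ≤ N * N := by
            have a1 : 32 ≤ N := by omega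
            calc 512 ≤ 32 * 32 := by norm_num
              _ ≤ N * N := Nat.mul_le_mul a1 a1
          calc 8 * (q + 1) * (64 * (q + 1)) = 512 * ((q + 1) * (q + 1)) := by ring
            _ ≤ N * N * ((q + 1) * (q + 1)) := Nat.mul_le_mul_right _ g3
            _ = N * (q + 1) * (N * (q + 1)) := by ring
        exact Nat.le_of_mul_le_mul_left (g2.trans g) (by positivity)
      calc 8 * (n * n) ≤ 8 * (8 * (q + 1) * (m * m)) := Nat.mul_le_mul_left _ h6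
        _ = (64 * (q + 1)) * (m * m) := by ring
        _ ≤ (m * m) * (m * m) := Nat.mul_le_mul_right _ h7
        _ = m ^ 4 := by ring
    calc (M.E \ (X ∪ Y ∪ (C₁ ∪ F) ∪ (D₂ ∪ G))).ncard ≤ H.ncard + 8 * (n * n) := h2
      _ ≤ 64 * K * m ^ 4 + m ^ 4 := Nat.add_le_add h3 h5
      _ = (64 * K + 1) * m ^ 4 := by ring

/-- Few conflicts of the first kind. -/
theorem topCK_of {k K : ℕ} (hT : TStarD.{u} k K) : ∃ N : ℕ, ∀ n ≥ N,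
    ∀ {α : Type u} (M : Matroid α) [M.Finite] (C₁ D₁ C₂ D₂ : Set α),
    C₁ ⊆ M.E → D₂ ⊆ M.E → Disjoint (M.E \ (C₁ ∪ D₁)) (M.E \ (C₂ ∪ D₂)) →
    IsBicircular (M ／ C₁ ＼ D₁) (GPlus n) → IsBicircular (M✶ ／ D₂ ＼ C₂) (GPlus n) →
    (C₁ ∩ D₂).ncard ≤ K * n ^ 4 →
    KGe M (M.E \ (C₁ ∪ D₁)) (M.E \ (C₂ ∪ D₂)) N → HasUniformMinor M k := by
  obtain ⟨n₀, h₀⟩ := hT.blocks
  refine ⟨4 * n₀ + 2, ?_⟩
  intro n hn α M _ C₁ D₁ C₂ D₂ hC₁ hD₂ hdis hb₁ hb₂ hr hK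
  obtain ⟨S₁, e₁, hS₁, hB₁, hG₁, -, hk₁⟩ := split1 (by omega) hC₁ hb₁
  obtain ⟨S₂, e₂, hS₂, hB₂, hG₂, -, hk₂⟩ := split1 (M := M✶) (by omega) hD₂ hb₂
  rw [Matroid.dual_ground, union_comm D₂ C₂] at hS₂ hk₂
  have hE₁ : M.E \ (C₁ ∪ D₁) ⊆ M.E := sdiff_subset
  have hE₂ : M.E \ (C₂ ∪ D₂) ⊆ M.E := sdiff_subset
  have k1 : KGe M S₁ (M.E \ (C₂ ∪ D₂)) (2 * n₀) := by
    refine hk₁ _ _ hdis ?_
    intro X h1 h2
    have := hK X h1 h2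
    omega
  have k2 : KGe M✶ S₂ S₁ n₀ := by
    refine hk₂ _ _ (hdis.symm.mono_right hS₁) ?_
    exact k1.dual (hS₁.trans hE₁)
  have k3 : KGe M S₁ S₂ n₀ := by
    have := k2.dual (M := M✶) (hS₂.trans hE₂)
    rwa [Matroid.dual_dual] at this
  exact h₀ n (by omega) M S₁ S₂ C₁ D₂ e₁ e₂ 0 0 0 0 (hS₁.trans hE₁) (hS₂.trans hE₂)
    (hdis.mono hS₁ hS₂) (fun c hc => ⟨hC₁ hc, fun h => (hS₁ h).2 (Or.inl hc)⟩)
    (fun d hd => ⟨hD₂ hd, fun h => (hS₂ h).2 (Or.inr hd)⟩) hB₁ hG₁ hB₂ hG₂ (Or.inl hr) k3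

/-- Few conflicts of one kind, or small rank or corank: any constant. -/
theorem few_conflictsKD (hT : ∀ k K : ℕ, 1 ≤ k → TStarD.{u} k K) (k K : ℕ) :
    ∃ N : ℕ, ∀ n ≥ N, ∀ (α : Type u) (M : Matroid α), M.Finite → ∀ C₁ D₁ C₂ D₂ : Set α,
    C₁ ⊆ M.E → D₁ ⊆ M.E → C₂ ⊆ M.E → D₂ ⊆ M.E → Disjoint C₁ D₁ → Disjoint C₂ D₂ →
    Disjoint (M ／ C₁ ＼ D₁).E (M ／ C₂ ＼ D₂).E →
    IsBicircular (M ／ C₁ ＼ D₁) (GPlus n) →
    IsBicircular (M ／ C₂ ＼ D₂)✶ (GPlus n) →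
    (∀ X : Set α, (M ／ C₁ ＼ D₁).E ⊆ X → X ⊆ M.E \ (M ／ C₂ ＼ D₂).E →
      (N : ℕ∞) + M.eRk M.E ≤ M.eRk X + M.eRk (M.E \ X)) →
    (C₁ ∩ D₂).ncard ≤ K * n ^ 4 ∨
      (∃ (F G H : Set α) (q : ℕ), D₁ ∩ C₂ = F ∪ G ∪ H ∧ N * (q + 1) ≤ n ∧
        (q + 1) ^ 2 * H.ncard ≤ K * n ^ 4 ∧
        (M ／ C₁).eRk (M ／ C₁ ＼ D₁).E ≤ (M ／ (C₁ ∪ F)).eRk (M ／ C₁ ＼ D₁).E + q ∧
        (M✶ ／ D₂).eRk (M ／ C₂ ＼ D₂).E ≤ (M✶ ／ (D₂ ∪ G)).eRk (M ／ C₂ ＼ D₂).E + q) ∨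
      M.eRank ≤ K * n ^ 4 ∨ M✶.eRank ≤ K * n ^ 4 →
    ∃ U : Matroid α, U ≤m M ∧ U.E.ncard = 2 * k ∧ ∀ B, U.IsBase B ↔ B ⊆ U.E ∧ B.ncard = k := by
  rcases Nat.eq_zero_or_pos k with rfl | hk
  · exact ⟨0, fun n _ α M _ C₁ D₁ C₂ D₂ _ _ _ _ _ _ _ _ _ _ _ => hasUniformMinor_zero M⟩
  obtain ⟨n₁, h₁⟩ := topCK_of.{u} (hT k K hk)
  obtain ⟨n₂, h₂⟩ := topDkK_of.{u} (K := K) (hT k (64 * K + 1) hk)
  refine ⟨n₁ + n₂, ?_⟩
  intro n hn α M hM C₁ D₁ C₂ D₂ hC₁ hD₁ hC₂ hD₂ hCD₁ hCD₂ hdis hb₁ hb₂ hκ hdef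
  have g₁ : (M ／ C₁ ＼ D₁).E = M.E \ (C₁ ∪ D₁) := by
    rw [Matroid.delete_ground, Matroid.contract_ground, sdiff_sdiff]
  have g₂ : (M ／ C₂ ＼ D₂).E = M.E \ (C₂ ∪ D₂) := by
    rw [Matroid.delete_ground, Matroid.contract_ground, sdiff_sdiff]
  have hd : (M ／ C₂ ＼ D₂)✶ = M✶ ／ D₂ ＼ C₂ := by
    rw [Matroid.dual_delete, Matroid.dual_contract, Matroid.contract_delete_comm _ hCD₂.symm]
  rw [g₁, g₂] at hdis hκ hdef
  rw [hd] at hb₂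
  have fC : ∀ A : Set α, (M ／ A).Finite := fun A => ⟨M.ground_finite.subset sdiff_subset⟩
  have fD : ∀ A : Set α, (M✶ ／ A).Finite := fun A => ⟨M✶.ground_finite.subset sdiff_subset⟩
  have hK : KGe M (M.E \ (C₁ ∪ D₁)) (M.E \ (C₂ ∪ D₂)) (n₁ + n₂) := by
    intro X h1 h2
    have h3 := hκ X h1 h2
    rw [← cast_rk, ← cast_rk, ← cast_rk] at h3
    exact_mod_cast h3
  rcases hdef with h | ⟨F, G, H, q, hFG, hqn, hH, hdef₁, hdef₂⟩ | h | h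
  · exact h₁ n (by omega) M C₁ D₁ C₂ D₂ hC₁ hD₂ hdis hb₁ hb₂ h (BQ.KGe.mono_n hK (by omega))
  · have f1 := fC (C₁ ∪ F)
    have f2 := fC C₁
    have f3 := fD (D₂ ∪ G)
    have f4 := fD D₂
    refine h₂ n (by omega) M C₁ D₁ C₂ D₂ F G H q hC₁ hD₁ hC₂ hD₂ hdis hb₁ hb₂ hFG
      ?_ ?_ ?_ hH (BQ.KGe.mono_n hK (by omega))
    · rw [← cast_rk, ← cast_rk] at hdef₁
      exact_mod_cast hdef₁
    · rw [← cast_rk, ← cast_rk] at hdef₂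
      exact_mod_cast hdef₂
    · exact (Nat.mul_le_mul_right _ (by omega)).trans hqn
  · obtain ⟨C', D', c1, c2, c3, c4, c5, c6, c7⟩ := exists_indep_rep M hC₁ hD₁ hCD₁
    rw [← Matroid.eRk_ground, ← cast_rk] at h
    have hr : rk M M.E ≤ K * n ^ 4 := by exact_mod_cast h
    rw [c6] at hb₁
    rw [← c5] at hdis hK
    refine h₁ n (by omega) M C' D' C₂ D₂ c2 hD₂ hdis hb₁ hb₂ ?_ (BQ.KGe.mono_n hK (by omega))
    exact (ncard_le_ncard inter_subset_left (M.ground_finite.subset c2)).trans (c7.trans hr)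
  · obtain ⟨C', D', c1, c2, c3, c4, c5, c6, c7⟩ := exists_indep_rep M✶ (C := D₂) (D := C₂)
      hD₂ hC₂ hCD₂.symm
    rw [← Matroid.eRk_ground, ← cast_rk] at h
    have hr : rk M✶ M✶.E ≤ K * n ^ 4 := by exact_mod_cast h
    rw [c6] at hb₂
    have c5' : D' ∪ C' = C₂ ∪ D₂ := by rw [union_comm D', c5, union_comm]
    rw [← c5'] at hdis hK
    refine h₁ n (by omega) M C₁ D₁ D' C' hC₁ c2 hdis hb₁ hb₂ ?_ (BQ.KGe.mono_n hK (by omega))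
    exact (ncard_le_ncard inter_subset_right (M.ground_finite.subset c2)).trans (c7.trans hr)

/-- From T-star for plain grids to T-star. -/
theorem TStarD.tstar {k K : ℕ} (hT : ∀ K : ℕ, TStarD.{u} k K) : TStar.{u} k K := by
  obtain ⟨n₁, h₁⟩ := topCK_of.{u} (hT K)
  obtain ⟨n₂, h₂⟩ := topDkK_of.{u} (K := K) (hT (64 * K + 1))
  refine ⟨n₁ + n₂, ?_⟩
  intro n hn α M _ C₁ D₁ C₂ D₂ b1 b2 b3 b4 b5 b6 b7 b8 b9 b10 b11
  rcases b10 with h | h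
  · exact h₁ n (by omega) M C₁ D₁ C₂ D₂ b1 b4 b7 b8 b9 h (BQ.KGe.mono_n b11 (by omega))
  · refine h₂ n (by omega) M C₁ D₁ C₂ D₂ ∅ ∅ (D₁ ∩ C₂) 0 b1 b2 b3 b4 b7 b8 b9 (by simp)
      ?_ ?_ (by omega) (by simpa using h) (BQ.KGe.mono_n b11 (by omega))
    · rw [union_empty]
      omega
    · rw [union_empty]
      omega

end TSK
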