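import Pool.Agent.Helper74.WPP.Side

/-!
# Killing a bounded defect (helper34)

`kill_defect`: if not contracting `F` changes the rank of a grid `X` by at most `q`, then there are
a part `Z` of `X` and a square of side `m`, `(q + 1) m ≤ s`, away from `Z`, such that the contraction
of `(C \ F) ∪ Z` shows the square exactly.
-/

set_option autoImplicit false

open Set BIC
open scoped Matroid

namespace BICS

universe u

open WPP in
/-- **Killing a bounded defect.** -/
theorem kill_defect {α : Type u} {M : Matroid α} [M.Finite] {C F X : Set α}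
    {e : α → Sym2 (ℕ × ℕ)} {x y s q m : ℕ} (hC : C ⊆ M.E) (hX : X ⊆ M.E \ C)
    (hB : Bic (M ／ C) X e) (hm : (q + 1) * m ≤ s)
    (hdef : rk (M ／ (C \ F)) X ≤ rk (M ／ C) X + q) :
    ∃ (a a' : ℕ) (Z : Set α), rect a a' m m ⊆ rect x y s s ∧ Z ⊆ X ∧
      Disjoint Z (ins X e (rect a a' m m)) ∧
      Bic (M ／ ((C \ F) ∪ Z)) (ins X e (rect a a' m m)) e := by
  classical
  have fL : (M ／ (C \ F)).Finite := BQ.fin_contract _
  have fN : (M ／ C).Finite := BQ.fin_contract _
  obtain ⟨L, hL⟩ : ∃ L, L = M ／ (C \ F) := ⟨_, rfl⟩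
  obtain ⟨N, hN⟩ : ∃ N, N = M ／ C := ⟨_, rfl⟩
  have hQ : Quo L N X := by
    rw [hL, hN]
    exact quo_mono sdiff_subset hC hX
  rw [← hL, ← hN] at hdef
  rw [← hN] at hB
  rw [← hL] at fL
  rw [← hN] at fN
  -- the blocks
  obtain ⟨V, hV⟩ : ∃ V : ℕ → Set (ℕ × ℕ), ∀ i, V i = rect (x + i * m) y m m := ⟨_, fun _ => rfl⟩
  obtain ⟨W, hW⟩ : ∃ W : ℕ → Set (ℕ × ℕ), ∀ i, W i = {v | ∃ j < i, v ∈ V j} := ⟨_, fun _ => rfl⟩
  obtain ⟨Z, hZ⟩ : ∃ Z : ℕ → Set α, ∀ i, Z i = {z | ∃ j < i, z ∈ ins X e (V j)} :=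
    ⟨_, fun _ => rfl⟩
  have hVd : ∀ i, Disjoint (W i) (V i) := by
    intro i
    rw [Set.disjoint_left]
    intro v hv hv'
    rw [hW] at hv
    obtain ⟨j, hj, hvj⟩ := hv
    rw [hV] at hv' hvj
    obtain ⟨h1, h2, _, _⟩ := hv'
    obtain ⟨h3, h4, _, _⟩ := hvj
    have h5 : (j + 1) * m ≤ i * m := Nat.mul_le_mul_right _ hj
    rw [Nat.add_mul, Nat.one_mul] at h5
    omega
  have hZX : ∀ i, Z i ⊆ X := by
    intro i z hz
    rw [hZ] at hz
    obtain ⟨j, _, hz⟩ := hz
    exact hz.1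
  have hZW : ∀ i, Z i ⊆ ins X e (W i) := by
    intro i z hz
    have hz' := hz
    rw [hZ] at hz
    obtain ⟨j, hj, hz⟩ := hz
    refine ⟨hz.1, fun v hv => ?_⟩
    rw [hW]
    exact ⟨j, hj, hz.2 v hv⟩
  have hZs : ∀ i, Z (i + 1) = Z i ∪ ins X e (V i) := by
    intro i
    ext z
    rw [mem_union, hZ, hZ]
    constructor
    · rintro ⟨j, hj, hz⟩
      rcases Nat.lt_succ_iff_lt_or_eq.1 hj with h | rfl
      · exact Or.inl ⟨j, h, hz⟩
      · exact Or.inr hz
    · rintro (⟨j, hj, hz⟩ | hz)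
      · exact ⟨j, Nat.lt_succ_of_lt hj, hz⟩
      · exact ⟨i, Nat.lt_succ_self _, hz⟩
  have hXi : ∀ i, ins X e (V i) ⊆ X := fun i z hz => hz.1
  -- a block which does not increase the defect
  obtain ⟨i, hi, hdi⟩ : ∃ i ≤ q, rk L (Z (i + 1)) + rk N (Z i) ≤ rk L (Z i) + rk N (Z (i + 1)) := by
    by_contra hcon
    push Not at hcon
    have h1 : ∀ i ≤ q + 1, rk N (Z i) + i ≤ rk L (Z i) := by
      intro i
      induction i with
      | zero =>
        intro _
        have h0 : Z 0 = ∅ := by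
          rw [hZ]
          ext z
          simp
        have := hQ ∅ (Z 0) (empty_subset _) (hZX 0)
        rw [h0] at this ⊢
        have h2 : rk N (∅ : Set α) = 0 := by
          have := rk_le_ncard N (X := (∅ : Set α)) Set.finite_empty
          simpa using this
        omega
      | succ i ih =>
        intro hi
        have h2 := ih (by omega)
        have h3 := hcon i (by omega)
        omega
    have h2 := h1 (q + 1) le_rfl
    have h3 := hQ (Z (q + 1)) X (hZX _) Subset.rfl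
    omega
  have hrect : rect (x + i * m) y m m ⊆ rect x y s s := by
    have h1 : (i + 1) * m ≤ (q + 1) * m := Nat.mul_le_mul_right _ (by omega)
    rw [Nat.add_mul, Nat.one_mul] at h1
    have h2 : m ≤ (q + 1) * m := Nat.le_mul_of_pos_left _ (Nat.succ_pos _)
    exact rect_sub (by omega) (by omega) le_rfl (by omega)
  have hZE : Z i ⊆ L.E := by
    rw [hL]
    exact fun z hz => ⟨(hX (hZX i hz)).1, fun h => (hX (hZX i hz)).2 h.1⟩
  have hdisj : Disjoint (Z i) (ins X e (V i)) := by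
    rw [Set.disjoint_left]
    intro z hz hz'
    obtain ⟨v, hv⟩ : ∃ v, v ∈ e z := by
      induction e z using Sym2.ind with
      | _ p p' => exact ⟨p, Sym2.mem_mk_left _ _⟩
    exact Set.disjoint_left.1 (hVd i) ((hZW i hz).2 v hv) (hz'.2 v hv)
  refine ⟨x + i * m, y, Z i, hrect, hZX i, ?_, ?_⟩
  · rw [← hV]
    exact hdisj
  · rw [← hV, ← Matroid.contract_contract, ← hL]
    have fLZ : (L ／ Z i).Finite := BQ.fin_contract _
    refine Bic_of_rk (Bic_sub hB (hXi i)) ?_ ?_
    · intro z hz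
      refine ⟨?_, fun h => Set.disjoint_left.1 hdisj h hz⟩
      rw [hL]
      exact ⟨(hX hz.1).1, fun h => (hX hz.1).2 h.1⟩
    · intro A hA
      have hAE : A ⊆ L.E \ Z i := by
        intro z hz
        refine ⟨?_, fun h => Set.disjoint_left.1 hdisj h (hA hz)⟩
        rw [hL]
        exact ⟨(hX (hA hz).1).1, fun h => (hX (hA hz).1).2 h.1⟩
      have h1 := BQ.rk_con (M := L) hZE hAE
      have h2 : rk N (Z i ∪ A) = rk N (Z i) + rk N A :=
        rk_skew hB (hVd i) (hZW i) (hA.trans Subset.rfl)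
      have h3 : rk N (Z i ∪ ins X e (V i)) = rk N (Z i) + rk N (ins X e (V i)) :=
        rk_skew hB (hVd i) (hZW i) Subset.rfl
      have h4 := hQ (Z i) (Z i ∪ A) subset_union_left
        (union_subset (hZX i) (hA.trans (hXi i)))
      have h5 := hQ (Z i ∪ A) (Z i ∪ ins X e (V i)) (union_subset_union_right _ hA)
        (union_subset (hZX i) (hXi i))
      rw [hZs i] at hdi
      rw [union_comm A] at h1
      omega

end BICS
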