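import Pool.Agent.Helper34.DS.Scat

/-!
# Theorem SCAT with explicit numbers (helper34)

`scatW`: the numbers `w` and `β` of `ScatStmt`: `w ≤ 5 s + c` and `β` depends on `k` only.
The proofs are those of `cellStmt`, `lanes_of`, `scat_of`.
-/

set_option autoImplicit false

open Set BIC
open scoped Matroid

namespace BICS

universe u

/-- `CellStmt` with explicit numbers -/
def CellW (k q s w o o' : ℕ) : Prop :=
  w = 2 * o + s ∧ o' + s ≤ w ∧ 2 * k ≤ w ∧ 1 ≤ w ∧
    ∀ g : Option (Fin k), ∃ l : Fin k → List (ℕ × ℕ),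
      (∀ h, IsPth (l h) ∧ (l h).head? = some (0, (h : ℕ)) ∧
        (l h).getLast? = some (w - 1, (h : ℕ)) ∧ ∀ v ∈ l h, v ∈ rect 0 0 w w) ∧
      (∀ h h', h ≠ h' → (l h).Disjoint (l h')) ∧
      (∀ h, g ≠ some h → ∀ v ∈ l h, v ∉ rect o o' s s) ∧
      ∀ h, g = some h → ∃ p z p', l h = p ++ z ++ p' ∧ Zone q z (rect o o' s s)

/-- `LanesStmt` with explicit numbers -/
def LanesW (k q s w o o' : ℕ) : Prop :=
  s < w ∧ o + s ≤ 2 * w ∧ o' + s ≤ 2 * w ∧
    ∀ {α : Type u} {S : Set α} {ends : α → Sym2 (ℕ × ℕ)} {x y m T : ℕ},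
      Grd S ends x y m m → (T + 1) * w ≤ m → ∀ g : ℕ × ℕ → Option (Fin k),
      ∃ W : Fin k → Set (ℕ × ℕ),
        (∀ i j, i ≠ j → Disjoint (W i) (W j)) ∧
        (∀ c ∈ cells T, g c = none → ∀ i, Disjoint (tl x y w o o' s c) (W i)) ∧
        ∀ i, ∃ (N : ℕ) (c : ℕ → ℕ × ℕ),
          BijOn c (Iio N) {c | c ∈ cells T ∧ g c = some i} ∧
          ∀ N', N = N' + 1 → Lane S ends (W i) q N' (fun t => tl x y w o o' s (c t))

/-- `ScatStmt` with explicit numbers -/
def ScatW (k s w o o' β : ℕ) : Prop :=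
  s < w ∧ o + s ≤ 2 * w ∧ o' + s ≤ 2 * w ∧
    ∀ {α : Type u} (L N : Matroid α) [L.Finite] [N.Finite] (S : Set α)
      (ends : α → Sym2 (ℕ × ℕ)) (x y m T : ℕ), S ⊆ L.E → Bic N S ends → Grd S ends x y m m →
      Quo L N S → (T + 1) * w ≤ m → rk L S ≤ rk N S + k →
      (∀ A ⊆ cells T, A.card ≤ β →
        rk N (⋃ c ∈ cells T \ A, ins S ends (tl x y w o o' s c)) + k ≤
          rk L (⋃ c ∈ cells T \ A, ins S ends (tl x y w o o' s c))) →
      HasUniformMinor L k

lemma ScatW.stmt {k s w o o' β : ℕ} (h : ScatW.{u} k s w o o' β) : ScatStmt.{u} k s :=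
  ⟨w, o, o', β, h.1, h.2.1, h.2.2.1, h.2.2.2⟩

section

open C79

/-- `cellStmt` -/
theorem cellW {k q s : ℕ} (hq : 2 ≤ q) (hs : 1 ≤ s) (hkq : k + s ≤ q) :
    CellW k q s (2 * (q + s + k + 2) + s) (q + s + k + 2) k := by
  refine ⟨rfl, by omega, by omega, by omega, ?_⟩
  set w := 2 * (q + s + k + 2) + s with hw
  rintro (_ | g)
  · refine ⟨fun h => pth (str h) w, fun h => ⟨str_pth, ?_, ?_, ?_⟩, ?_, ?_, ?_⟩
    · rw [head_pth (by omega)]
      rfl
    · rw [last_pth (by omega)]
      rfl
    · intro v hv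
      have := str_mem hv
      have := h.2
      unfold rect
      simp only [mem_ofPred_eq]
      omega
    · intro h h' hh v h1 h2
      have e1 := str_mem h1
      have e2 := str_mem h2
      apply hh
      ext
      omega
    · intro h _ v hv hr
      have e1 := str_mem hv
      have := h.2
      obtain ⟨r1, r2, r3, r4⟩ := hr
      omega
    · intro h hh
      exact absurd hh (by simp)
  · have hg := g.2
    let l : Fin k → List (ℕ × ℕ) := fun h => if (h : ℕ) < g then pth (str h) w else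
      if (h : ℕ) = g then mid q s (q + s + k) w h else pth (upp q w (k - 1 - h) h) (w + 2 * q)
    have hl1 : ∀ h : Fin k, (h : ℕ) < g → l h = pth (str h) w := fun h hh => if_pos hh
    have hl2 : ∀ h : Fin k, (h : ℕ) = g → l h = mid q s (q + s + k) w h := fun h hh => by
      simp only [l]
      rw [if_neg (by omega), if_pos hh]
    have hl3 : ∀ h : Fin k, (g : ℕ) < h → l h = pth (upp q w (k - 1 - h) h) (w + 2 * q) :=
      fun h hh => by
        simp only [l]
        rw [if_neg (by omega), if_neg (by omega)]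
    have hmem : ∀ (h : Fin k) (v : ℕ × ℕ), v ∈ l h →
        ((h : ℕ) < g ∧ v.2 = h ∧ v.1 < w) ∨
        ((h : ℕ) = g ∧ v.1 < w ∧ h ≤ v.2 ∧ v.2 < h + q ∧
          (v.2 = h ∨ (q + s + k ≤ v.1 ∧ v.1 < q + s + k + (2 * s + 2)))) ∨
        ((g : ℕ) < h ∧ v.1 < w ∧ h ≤ v.2 ∧ v.2 ≤ h + q ∧
          ((v.2 = h ∧ (v.1 ≤ (k - 1 - h) ∨ w ≤ v.1 + (k - 1 - h) + 1)) ∨
          (v.1 = (k - 1 - h) ∨ v.1 + (k - 1 - h) + 1 = w) ∨
          (v.2 = h + q ∧ (k - 1 - h) ≤ v.1 ∧ v.1 + (k - 1 - h) + 1 ≤ w))) := by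
      intro h v hv
      have hh := h.2
      rcases lt_trichotomy (h : ℕ) g with h1 | h1 | h1
      · rw [hl1 h h1] at hv
        exact Or.inl ⟨h1, str_mem hv⟩
      · rw [hl2 h h1] at hv
        exact Or.inr (Or.inl ⟨h1, mid_mem (by omega) (by omega) hv⟩)
      · rw [hl3 h h1] at hv
        exact Or.inr (Or.inr ⟨h1, upp_mem (by omega) hv⟩)
    refine ⟨l, fun h => ⟨?_, ?_, ?_, ?_⟩, ?_, ?_, ?_⟩
    · have hh := h.2
      rcases lt_trichotomy (h : ℕ) g with h1 | h1 | h1
      · rw [hl1 h h1]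
        exact str_pth
      · rw [hl2 h h1]
        exact mid_pth (by omega) (by omega) (by omega)
      · rw [hl3 h h1]
        exact upp_pth (by omega)
    · have hh := h.2
      rcases lt_trichotomy (h : ℕ) g with h1 | h1 | h1
      · rw [hl1 h h1, head_pth (by omega)]
        rfl
      · rw [hl2 h h1]
        exact mid_head (by omega)
      · rw [hl3 h h1, head_pth (by omega)]
        unfold upp
        congr 1
        split_ifs <;> ext <;> simp only <;> omega
    · have hh := h.2
      rcases lt_trichotomy (h : ℕ) g with h1 | h1 | h1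
      · rw [hl1 h h1, last_pth (by omega)]
        rfl
      · rw [hl2 h h1]
        exact mid_last (by omega)
      · rw [hl3 h h1, last_pth (by omega)]
        unfold upp
        congr 1
        split_ifs <;> ext <;> simp only <;> omega
    · intro v hv
      have hh := h.2
      have := hmem h v hv
      unfold rect
      simp only [mem_ofPred_eq]
      omega
    · intro h h' hne v h1 h2
      have hh := h.2
      have hh' := h'.2
      have e1 := hmem h v h1
      have e2 := hmem h' v h2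
      have e3 : (h : ℕ) ≠ h' := fun he => hne (Fin.ext he)
      omega
    · intro h hne v hv hr
      have hh := h.2
      have e1 := hmem h v hv
      have e3 : (h : ℕ) ≠ g := fun he => hne (by rw [Fin.ext he])
      obtain ⟨r1, r2, r3, r4⟩ := hr
      omega
    · intro h he
      have hh := h.2
      have e1 : g = h := Option.some.inj he
      have e2 : (h : ℕ) = g := by rw [e1]
      rw [hl2 h e2]
      refine ⟨_, _, _, rfl, ?_⟩
      exact zon_zone (X := q + s + k) (W := 2 * s + 2) hq (by omega) (by omega) (by omega)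
        (by omega)

end

/-- `lanes_of` -/
theorem lanesW_of {k q s w o o' : ℕ} (hk : 1 ≤ k) (hq : 1 ≤ q) (hc : CellW k q s w o o')
    (ht : ∀ w, k ≤ w → 1 ≤ w → TurnStmt k w) (hl : ListStmt.{u}) : LanesW.{u} k q s w (k + o) o' := by
  classical
  obtain ⟨ho, ho', hkw, hw, hcell⟩ := hc
  choose lc hlc hlcd hlc1 hlc2 using hcell
  obtain ⟨lt, hlt, hltd⟩ := ht w (by omega) hw
  have hsw : s < w := by
    by_contra hcon
    have h1 : o = 0 := by omega
    have h2 : o' = 0 := by omega
    have h3 : s = w := by omega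
    obtain ⟨p, z, p', h4, h5⟩ := hlc2 (some ⟨0, hk⟩) ⟨0, hk⟩ rfl
    have hz : z ≠ [] := by
      rintro rfl
      have := h5.2.1
      simp at this
    obtain ⟨v, z', rfl⟩ := List.exists_cons_of_ne_nil hz
    have h6 : v ∈ lc (some ⟨0, hk⟩) ⟨0, hk⟩ := by
      rw [h4]
      simp
    have h7 := (hlc (some ⟨0, hk⟩) ⟨0, hk⟩).2.2.2 v h6
    have h8 : v ∈ (v :: z').drop (2 * q) := h5.2.2 v (by rw [h1, h2, h3]; exact h7)
    have h9 : v ∈ z' := by
      obtain ⟨r, hr⟩ : ∃ r, 2 * q = r + 1 := ⟨2 * q - 1, by omega⟩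
      rw [hr, List.drop_succ_cons] at h8
      exact List.mem_of_mem_drop h8
    have h10 := (hlc (some ⟨0, hk⟩) ⟨0, hk⟩).1.2
    rw [h4] at h10
    have h11 : (v :: z').Nodup := by
      rw [List.nodup_append] at h10
      have := h10.1
      rw [List.nodup_append] at this
      exact this.2.1
    exact (List.nodup_cons.1 h11).1 h9
  refine ⟨hsw, by omega, by omega, ?_⟩
  intro α S ends x y m T hG hm g
  set B := rect x y m m with hB
  set τ := tl x y w (k + o) o' s with hτ
  -- the even bands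
  have even : ∀ Y < T, Sta k q B τ g (Re x y k w (Y * w) 0) (Pe T 0 Y)
      (fun h => (x + k, y + Y * w + (h : ℕ))) → ∀ X ≤ T,
      Sta k q B τ g (Re x y k w (Y * w) (X * w)) (Pe T X Y)
      (fun h => (x + k + X * w, y + Y * w + (h : ℕ))) := by
    intro Y hY h0 X
    induction X with
    | zero =>
      intro _
      simp only [Nat.zero_mul, Nat.add_zero]
      exact h0
    | succ X ih =>
      intro hX
      exact cell_even (hlc (g (X, Y))) (hlcd (g (X, Y))) (hlc1 (g (X, Y))) (hlc2 (g (X, Y)))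
        hk hkw ho ho' hm hX hY (ih (by omega))
  have odd : ∀ Y < T, Sta k q B τ g (Ro x y k w (T * w) (Y * w) 0) (Po T 0 Y)
      (fun h => (x + k + T * w - 1, y + Y * w + (k - 1 - (h : ℕ)))) → ∀ X ≤ T,
      Sta k q B τ g (Ro x y k w (T * w) (Y * w) (X * w)) (Po T X Y)
      (fun h => (x + k + (T - X) * w - 1, y + Y * w + (k - 1 - (h : ℕ)))) := by
    intro Y hY h0 X
    induction X with
    | zero =>
      intro _
      simp only [Nat.zero_mul, Nat.sub_zero]
      exact h0
    | succ X ih =>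
      intro hX
      exact cell_odd (hlc _) (hlcd _) (hlc1 ((g (T - 1 - X, Y)).map Fin.rev))
        (hlc2 ((g (T - 1 - X, Y)).map Fin.rev)) hk hkw ho ho' hm hX hY (ih (by omega))
  have main : ∀ Y < T, (Y % 2 = 0 → Sta k q B τ g (Re x y k w (Y * w) 0) (Pe T 0 Y)
      (fun h => (x + k, y + Y * w + (h : ℕ)))) ∧
      (Y % 2 = 1 → Sta k q B τ g (Ro x y k w (T * w) (Y * w) 0) (Po T 0 Y)
      (fun h => (x + k + T * w - 1, y + Y * w + (k - 1 - (h : ℕ))))) := by
    intro Y
    induction Y with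
    | zero =>
      intro _
      refine ⟨fun _ => ?_, fun h => by omega⟩
      have hP : ∀ c ∈ Pe T 0 0, False := by
        rintro ⟨c1, c2⟩ hc'
        simp only [Pe, Set.mem_ofPred_eq] at hc'
        omega
      refine ⟨fun c hc' => (hP c hc').elim, fun _ => [], fun _ => [], ?_, ?_, ?_, ?_, ?_, ?_, ?_⟩
      · intro h
        exact ⟨List.isChain_nil, List.nodup_nil⟩
      · intro h v hv
        exact absurd hv (by simp)
      · intro h v hv
        exact absurd hv (by simp)
      · intro h h' _ v hv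
        exact absurd hv (by simp)
      · intro h
        exact LaneL.nil _
      · intro h
        refine ⟨List.nodup_nil, fun c => ⟨fun hc' => absurd hc' (by simp), fun hc' => ?_⟩⟩
        exact (hP c hc'.1).elim
      · intro c hc'
        exact (hP c hc').elim
    | succ Y ih =>
      intro hY
      obtain ⟨h1, h2⟩ := ih (by omega)
      refine ⟨fun h => ?_, fun h => ?_⟩
      · have h3 := odd Y (by omega) (h2 (by omega)) T (le_refl _)
        simp only [Nat.sub_self, Nat.zero_mul, Nat.add_zero] at h3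
        exact turn_left hlt hltd hk hkw hm (by omega) h3
      · have h3 := even Y (by omega) (h1 (by omega)) T (le_refl _)
        exact turn_right hlt hltd hk hkw hm (by omega) h3
  have fin : ∃ (R : Set (ℕ × ℕ)) (E : Fin k → ℕ × ℕ),
      Sta k q B τ g R {c | c ∈ cells T} E := by
    have hcells : ∀ c : ℕ × ℕ, c ∈ cells T ↔ c.1 < T ∧ c.2 < T := by
      intro c
      unfold cells
      rw [Finset.mem_product, Finset.mem_range, Finset.mem_range]
    rcases Nat.eq_zero_or_pos T with hT | hT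
    · have hP : ∀ c ∈ ({c | c ∈ cells T} : Set (ℕ × ℕ)), False := by
        rintro c hc'
        have := (hcells c).1 hc'
        omega
      refine ⟨∅, fun _ => (0, 0), fun c hc' => (hP c hc').elim, fun _ => [], fun _ => [],
        ?_, ?_, ?_, ?_, ?_, ?_, ?_⟩
      · intro h
        exact ⟨List.isChain_nil, List.nodup_nil⟩
      · intro h v hv
        exact absurd hv (by simp)
      · intro h v hv
        exact absurd hv (by simp)
      · intro h h' _ v hv
        exact absurd hv (by simp)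
      · intro h
        exact LaneL.nil _
      · intro h
        refine ⟨List.nodup_nil, fun c => ⟨fun hc' => absurd hc' (by simp), fun hc' => ?_⟩⟩
        exact (hP c hc'.1).elim
      · intro c hc'
        exact (hP c hc').elim
    · obtain ⟨Y, hY⟩ : ∃ Y, T = Y + 1 := ⟨T - 1, by omega⟩
      obtain ⟨h1, h2⟩ := main Y (by omega)
      rcases Nat.mod_two_eq_zero_or_one Y with h3 | h3
      · refine ⟨_, _, (even Y (by omega) (h1 h3) T (le_refl _)).congr ?_ (fun _ => rfl)⟩
        ext ⟨c1, c2⟩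
        simp only [Pe, Set.mem_ofPred_eq, hcells]
        omega
      · refine ⟨_, _, (odd Y (by omega) (h2 h3) T (le_refl _)).congr ?_ (fun _ => rfl)⟩
        ext ⟨c1, c2⟩
        simp only [Po, Set.mem_ofPred_eq, hcells]
        omega
  obtain ⟨R, E, _, l, cs, h1, h2, h3, h4, h5, h6, h7⟩ := fin
  refine ⟨fun i => {v | v ∈ l i}, ?_, ?_, ?_⟩
  · intro i j hij
    rw [Set.disjoint_left]
    intro v hv hv'
    exact h4 i j hij hv hv'
  · intro c hc' hg i
    rw [Set.disjoint_left]
    intro v hv hv'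
    exact h7 c hc' hg i v hv' hv
  · intro i
    obtain ⟨h8, h9⟩ := h6 i
    refine ⟨(cs i).length, fun t => (cs i).getD t (0, 0), ⟨?_, ?_, ?_⟩, ?_⟩
    · intro t ht'
      have ht'' : t < (cs i).length := ht'
      simp only
      rw [List.getD_eq_getElem _ _ ht'']
      exact (h9 _).1 (List.getElem_mem ht'')
    · intro t ht' t' ht2 htt
      have ht'' : t < (cs i).length := ht'
      have ht3 : t' < (cs i).length := ht2
      simp only at htt
      rw [List.getD_eq_getElem _ _ ht'', List.getD_eq_getElem _ _ ht3] at htt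
      exact (List.Nodup.getElem_inj_iff h8).1 htt
    · intro c hc'
      obtain ⟨t, ht', hte⟩ := List.getElem_of_mem ((h9 c).2 hc')
      refine ⟨t, ht', ?_⟩
      simp only
      rw [List.getD_eq_getElem _ _ ht', hte]
    · intro N' hN'
      have h10 := hl hG (h1 i) (fun v hv => (h2 i v hv).2) hq (h5 i)
        (N' := N') (by rw [List.length_map]; exact hN')
      refine h10.congr_tiles ?_
      intro t ht'
      have ht'' : t < (cs i).length := by omega
      simp only
      rw [List.getD_eq_getElem _ _ (by rw [List.length_map]; exact ht''),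
        List.getD_eq_getElem _ _ ht'', List.getElem_map]

open Scat in
/-- `scat_of` -/
theorem scatW_of {k s q w o o' : ℕ} (hk : 1 ≤ k) (hq : C1Q.Q0 (2 ^ (2 * k)) ≤ q)
    (hlanes : LanesW.{u} k q s w o o') (hSt : StStmt.{u}) :
    ScatW.{u} k s w o o' (k * (1 + k * (2 ^ (2 * k) + 2))) := by
  classical
  obtain ⟨hsw, ho, ho', hlan⟩ := hlanes
  have hpw : 1 ≤ 2 ^ (2 * k) := Nat.one_le_two_pow
  set P := 2 ^ (2 * k) + 2 with hP
  refine ⟨hsw, ho, ho', ?_⟩
  intro α L N _ _ S ends x y m T hSL hB hG hQ hTm hu hdef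
  obtain ⟨gp, hg1, hg2⟩ := groups (L := L) (N := N) (x := x) (y := y) (o := o) (o' := o') (k := k)
    hB hsw (G := 1 + k * P) (I := cells T) (fun A hA hAc => hdef A hA hAc) (1 + k * P) le_rfl
  have hidx : ∀ i : Fin k, ∀ r < P, 1 + (i : ℕ) * P + r < 1 + k * P := by
    intro i r hr
    have h1 : ((i : ℕ) + 1) * P ≤ k * P := Nat.mul_le_mul_right _ i.2
    rw [Nat.add_mul, Nat.one_mul] at h1
    omega
  have h00 : ∀ (M : Matroid α) [M.Finite], rk M (∅ : Set α) = 0 := by
    intro M _
    have := rk_le_ncard M (X := (∅ : Set α)) Set.finite_empty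
    simpa using this
  have hne : ∀ j < 1 + k * P, (gp j).Nonempty := by
    intro j hj
    rw [Finset.nonempty_iff_ne_empty]
    intro h
    have h1 := (hg1 j hj).2.2
    rw [h, un_empty, h00, h00] at h1
    omega
  -- indices of the groups of the lanes
  have hij : ∀ (i i' : Fin k) (r r' : ℕ), r < P → r' < P → ∀ c, c ∈ gp (1 + (i : ℕ) * P + r) →
      c ∈ gp (1 + (i' : ℕ) * P + r') → i = i' ∧ r = r' := by
    intro i i' r r' hr hr' c hc hc'
    have h1 : 1 + (i : ℕ) * P + r = 1 + (i' : ℕ) * P + r' := by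
      by_contra h
      exact Finset.disjoint_left.1 (hg2 _ (hidx i r hr) _ (hidx i' r' hr') h) hc hc'
    have h2 : (i : ℕ) = i' := by
      by_contra h
      rcases Nat.lt_or_gt_of_ne h with h3 | h3
      · have h4 : ((i : ℕ) + 1) * P ≤ i' * P := Nat.mul_le_mul_right _ h3
        rw [Nat.add_mul, Nat.one_mul] at h4
        omega
      · have h4 : ((i' : ℕ) + 1) * P ≤ i * P := Nat.mul_le_mul_right _ h3
        rw [Nat.add_mul, Nat.one_mul] at h4
        omega
    refine ⟨Fin.ext h2, ?_⟩
    rw [h2] at h1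
    omega
  set g : ℕ × ℕ → Option (Fin k) := fun c =>
    if h : ∃ i : Fin k, ∃ r < P, c ∈ gp (1 + (i : ℕ) * P + r) then some h.choose else none with hg
  have hgs : ∀ c i, g c = some i ↔ ∃ r < P, c ∈ gp (1 + (i : ℕ) * P + r) := by
    intro c i
    constructor
    · intro h
      by_cases hex : ∃ i : Fin k, ∃ r < P, c ∈ gp (1 + (i : ℕ) * P + r)
      · rw [hg] at h
        simp only [dif_pos hex] at h
        have h1 := hex.choose_spec
        rw [Option.some.inj h] at h1
        exact h1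
      · rw [hg] at h
        simp only [dif_neg hex] at h
        exact absurd h (by simp)
    · rintro ⟨r, hr, hc⟩
      have hex : ∃ i : Fin k, ∃ r < P, c ∈ gp (1 + (i : ℕ) * P + r) := ⟨i, r, hr, hc⟩
      rw [hg]
      simp only [dif_pos hex]
      obtain ⟨r', hr', hc'⟩ := hex.choose_spec
      rw [(hij _ _ _ _ hr' hr c hc' hc).1]
  obtain ⟨W, hWd, hWn, hWl⟩ := hlan hG hTm g
  -- the initial state
  set W₀ : Set (ℕ × ℕ) := ⋃ c ∈ gp 0, tl x y w o o' s c with hW₀
  have hgp0 : ∀ c ∈ gp 0, g c = none := by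
    intro c hc
    rw [Option.eq_none_iff_forall_ne_some]
    intro i hi
    obtain ⟨r, hr, hc'⟩ := (hgs c i).1 hi
    exact Finset.disjoint_left.1 (hg2 0 (by omega) _ (hidx i r hr) (by omega)) hc hc'
  have hW₀d : ∀ i, Disjoint W₀ (W i) := by
    intro i
    rw [hW₀, Set.disjoint_left]
    intro p hp hp'
    simp only [mem_iUnion] at hp
    obtain ⟨c, hc, h1⟩ := hp
    exact Set.disjoint_left.1 (hWn c ((hg1 0 (by omega)).1 hc) (hgp0 c hc) i) h1 hp'
  have hW₀r : rk L (ins S ends W₀) = rk N (ins S ends W₀) + k := by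
    have h1 : un S ends x y w o o' s (gp 0) ⊆ ins S ends W₀ := by
      intro e he
      simp only [un, mem_iUnion] at he
      obtain ⟨c, hc, h⟩ := he
      refine ⟨h.1, fun v hv => ?_⟩
      rw [hW₀]
      simp only [mem_iUnion]
      exact ⟨c, hc, h.2 v hv⟩
    have h2 := hQ _ _ h1 (fun e he => he.1)
    have h3 := hQ (ins S ends W₀) S (fun e he => he.1) Subset.rfl
    have h4 := (hg1 0 (by omega)).2.2
    omega
  -- one lane
  have step : ∀ i : Fin k, ∀ (C E : Set α) (U : Set (ℕ × ℕ)), C1Q.St L N S ends k k C E U →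
      k ≤ E.ncard → E.ncard ≤ 2 * k → Disjoint U (W i) →
      ∃ C' E', C1Q.St L N S ends k k C' E' (U ∪ W i) ∧ E'.ncard = E.ncard + 1 := by
    intro i C E U hst hkE hEk hUW
    obtain ⟨n, c, hc, hlane⟩ := hWl i
    -- the cells of the groups of the lane
    have hsur : ∀ r < P, ∀ z ∈ gp (1 + (i : ℕ) * P + r), ∃ t < n, c t = z := by
      intro r hr z hz
      have h1 : z ∈ {z | z ∈ cells T ∧ g z = some i} :=
        ⟨(hg1 _ (hidx i r hr)).1 hz, (hgs z i).2 ⟨r, hr, hz⟩⟩
      obtain ⟨t, ht, h2⟩ := hc.surjOn h1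
      exact ⟨t, ht, h2⟩
    obtain ⟨n', hn'⟩ : ∃ n', n = n' + 1 := by
      obtain ⟨z, hz⟩ := hne _ (hidx i 0 (by omega))
      obtain ⟨t, ht, _⟩ := hsur 0 (by omega) z hz
      exact ⟨n - 1, by omega⟩
    set R : Finset ℕ := (Finset.range P).filter (fun r => c 0 ∉ gp (1 + (i : ℕ) * P + r) ∧
      c n' ∉ gp (1 + (i : ℕ) * P + r)) with hR
    have hRc : 2 ^ (2 * k) ≤ R.card := by
      have h1 : ∀ z : ℕ × ℕ, ((Finset.range P).filter (fun r =>
          z ∈ gp (1 + (i : ℕ) * P + r))).card ≤ 1 := by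
        intro z
        rw [Finset.card_le_one]
        intro a ha b hb
        rw [Finset.mem_filter, Finset.mem_range] at ha hb
        exact (hij i i a b ha.1 hb.1 z ha.2 hb.2).2
      have h2 : Finset.range P ⊆ R ∪ ((Finset.range P).filter (fun r =>
          c 0 ∈ gp (1 + (i : ℕ) * P + r)) ∪ (Finset.range P).filter (fun r =>
          c n' ∈ gp (1 + (i : ℕ) * P + r))) := by
        intro r hr
        simp only [hR, Finset.mem_union, Finset.mem_filter]
        by_cases h3 : c 0 ∈ gp (1 + (i : ℕ) * P + r)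
        · exact Or.inr (Or.inl ⟨hr, h3⟩)
        · by_cases h4 : c n' ∈ gp (1 + (i : ℕ) * P + r)
          · exact Or.inr (Or.inr ⟨hr, h4⟩)
          · exact Or.inl ⟨hr, h3, h4⟩
      have h3 := (Finset.card_le_card h2).trans ((Finset.card_union_le _ _).trans
        (Nat.add_le_add_left (Finset.card_union_le _ _) _))
      have h4 := h1 (c 0)
      have h5 := h1 (c n')
      rw [Finset.card_range] at h3
      omega
    obtain ⟨f, hf1, hf2⟩ : ∃ f : ℕ → ℕ, (∀ p < 2 ^ (2 * k), f p ∈ R) ∧
        ∀ p < 2 ^ (2 * k), ∀ p' < 2 ^ (2 * k), f p = f p' → p = p' := by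
      refine ⟨fun p => if h : p < R.card then (R.equivFin.symm ⟨p, h⟩ : ℕ) else 0, ?_, ?_⟩
      · intro p hp
        have h1 : p < R.card := by omega
        simp only [dif_pos h1]
        exact (R.equivFin.symm ⟨p, h1⟩).2
      · intro p hp p' hp' h
        have h1 : p < R.card := by omega
        have h2 : p' < R.card := by omega
        simp only [dif_pos h1, dif_pos h2] at h
        have h3 := R.equivFin.symm.injective (Subtype.ext h)
        exact congrArg Fin.val h3
    have hfR : ∀ p < 2 ^ (2 * k), f p < P ∧ c 0 ∉ gp (1 + (i : ℕ) * P + f p) ∧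
        c n' ∉ gp (1 + (i : ℕ) * P + f p) := by
      intro p hp
      have h1 := hf1 p hp
      rw [hR, Finset.mem_filter, Finset.mem_range] at h1
      exact ⟨h1.1, h1.2.1, h1.2.2⟩
    refine hSt hk hB hSL hQ hst hkE hEk hUW (hlane n' hn') hq
      (fun p => (Finset.range n).filter (fun t => c t ∈ gp (1 + (i : ℕ) * P + f p))) ?_ ?_ ?_
    · intro p hp t ht
      rw [Finset.mem_filter, Finset.mem_range] at ht
      obtain ⟨_, h2, h3⟩ := hfR p hp
      rw [Finset.mem_Ico]
      constructor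
      · by_contra h4
        have : t = 0 := by omega
        rw [this] at ht
        exact h2 ht.2
      · by_contra h4
        have : t = n' := by omega
        rw [this] at ht
        exact h3 ht.2
    · intro p hp p' hp' hpp
      rw [Finset.disjoint_left]
      intro t ht ht'
      rw [Finset.mem_filter] at ht ht'
      exact hpp (hf2 p hp p' hp' (hij i i _ _ (hfR p hp).1 (hfR p' hp').1 _ ht.2 ht'.2).2)
    · intro p hp
      have e1 : (⋃ t ∈ (Finset.range n).filter (fun t => c t ∈ gp (1 + (i : ℕ) * P + f p)),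
          ins S ends (tl x y w o o' s (c t))) =
          un S ends x y w o o' s (gp (1 + (i : ℕ) * P + f p)) := by
        ext e
        simp only [un, mem_iUnion, Finset.mem_filter, Finset.mem_range]
        constructor
        · rintro ⟨t, ⟨_, ht⟩, h⟩
          exact ⟨c t, ht, h⟩
        · rintro ⟨z, hz, h⟩
          obtain ⟨t, ht, rfl⟩ := hsur _ (hfR p hp).1 z hz
          exact ⟨t, ⟨ht, hz⟩, h⟩
      rw [e1]
      exact (hg1 _ (hidx i _ (hfR p hp).1)).2.2
  have main : ∀ j ≤ k, ∃ C E, C1Q.St L N S ends k k C E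
      (W₀ ∪ {p | ∃ i : Fin k, (i : ℕ) < j ∧ p ∈ W i}) ∧ E.ncard = k + j := by
    intro j
    induction j with
    | zero =>
      intro _
      obtain ⟨C, E, h1, h2⟩ := C1Q.st_init le_rfl hB hSL hQ hW₀r
      exact ⟨C, E, h1.mono subset_union_left, h2⟩
    | succ j ih =>
      intro hj
      obtain ⟨C, E, h1, h2⟩ := ih (by omega)
      obtain ⟨C', E', h3, h4⟩ := step ⟨j, by omega⟩ C E _ h1 (by omega) (by omega) (by
        rw [Set.disjoint_left]
        rintro p (hp | ⟨i, hi, hp⟩) hp'
        · exact Set.disjoint_left.1 (hW₀d _) hp hp'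
        · exact Set.disjoint_left.1 (hWd i ⟨j, by omega⟩ (fun h => by
            rw [h] at hi
            simp only at hi
            omega)) hp hp')
      refine ⟨C', E', h3.mono ?_, by omega⟩
      rintro p ((hp | ⟨i, hi, hp⟩) | hp)
      · exact Or.inl hp
      · exact Or.inr ⟨i, by omega, hp⟩
      · exact Or.inr ⟨⟨j, by omega⟩, by simp only; omega, hp⟩
  obtain ⟨C, E, h1, h2⟩ := main k le_rfl
  have hCE : C ∪ E ⊆ S := union_subset (fun e he => (h1.subC he).1) (fun e he => (h1.subE he).1)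
  refine C1Q.unif_end (C := C) (E := E) (fun e he => hSL (h1.subE he).1) h1.disj (by omega)
    h1.ind ?_
  have h3 := hQ (C ∪ E) S hCE Subset.rfl
  have h4 := h1.hi
  omega

/-- **SCAT with explicit numbers.** -/
theorem scatW (k : ℕ) (hk : 1 ≤ k) : ∃ c β : ℕ, ∀ s, 1 ≤ s → ∃ w o o' : ℕ, w ≤ 5 * s + c ∧
    ScatW.{u} k s w o o' β := by
  refine ⟨2 * C1Q.Q0 (2 ^ (2 * k)) + 4 * k + 8, k * (1 + k * (2 ^ (2 * k) + 2)), fun s hs => ?_⟩
  obtain ⟨q, hq⟩ : ∃ q, q = C1Q.Q0 (2 ^ (2 * k)) + k + s + 2 := ⟨_, rfl⟩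
  refine ⟨2 * (q + s + k + 2) + s, k + (q + s + k + 2), k, by omega, ?_⟩
  exact scatW_of (q := q) hk (by omega)
    (lanesW_of hk (by omega) (cellW (by omega) hs (by omega)) (fun w hw _ => turnStmt k w hw)
      listStmt) stStmt

end BICS
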