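import Pool.Agent.Helper29.DS.Dd
import Pool.Agent.TST.ScatW
import Pool.Agent.TST.KillDef34
import Pool.Agent.TST.FinalStarD

/-!
# Theorem DD with T-star in the place of W++ (helper74; page of helper34)

`ddStar`: two splitting classes with rank budgets `n ^ 2 / Λ`; of the other conflicts of the first
kind only the rank or the corank is bounded, by `K * n ^ 4`.
-/

set_option autoImplicit false

open Set BIC
open scoped Matroid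

namespace BICS

universe u

/-- the statement -/
def DdStarStmt (k K : ℕ) : Prop :=
  ∃ Λ : ℕ, ∀ n ≥ Λ, ∀ {α : Type u} (M : Matroid α) [M.Finite]
    (E₁ E₂ C₁ D₂ F G H : Set α) (e₁ e₂ : α → Sym2 (ℕ × ℕ)) (x y x' y' : ℕ),
    E₁ ⊆ M.E → E₂ ⊆ M.E → Disjoint E₁ E₂ → C₁ ⊆ M.E \ E₁ → D₂ ⊆ M.E \ E₂ →
    Bic (M ／ C₁) E₁ e₁ → Grd E₁ e₁ x y n n → Bic (M✶ ／ D₂) E₂ e₂ → Grd E₂ e₂ x' y' n n →
    C₁ ∩ D₂ ⊆ F ∪ G ∪ H →
    Λ * rk (M ／ (C₁ \ F)) E₁ ≤ Λ * rk (M ／ C₁) E₁ + n ^ 2 →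
    Λ * rk (M✶ ／ (D₂ \ G)) E₂ ≤ Λ * rk (M✶ ／ D₂) E₂ + n ^ 2 →
    (rk M (C₁ ∩ D₂ ∩ H) ≤ K * n ^ 4 ∨ rk M✶ (C₁ ∩ D₂ ∩ H) ≤ K * n ^ 4) →
    KGe M E₁ E₂ Λ → HasUniformMinor M k

namespace DdStar

/-- averaging over pairs of cells -/
lemma pair_avg {α : Type*} (I J : Finset (ℕ × ℕ)) (hI : I.Nonempty) (hJ : J.Nonempty)
    (Hc : Finset α) (Bc Bc' : α → Finset (ℕ × ℕ)) (β : ℕ) (h1 : ∀ c ∈ Hc, (Bc c).card ≤ β)
    (h2 : ∀ c ∈ Hc, (Bc' c).card ≤ β) :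
    ∃ i ∈ I, ∃ j ∈ J, {c | c ∈ Hc ∧ i ∈ Bc c ∧ j ∈ Bc' c}.ncard * (I.card * J.card) ≤
      β ^ 2 * Hc.card := by
  classical
  by_contra hcon
  push Not at hcon
  have hne : (I ×ˢ J).Nonempty := hI.product hJ
  have hset : ∀ i j, {c | c ∈ Hc ∧ i ∈ Bc c ∧ j ∈ Bc' c}.ncard =
      (Hc.filter fun c => i ∈ Bc c ∧ j ∈ Bc' c).card := by
    intro i j
    rw [← Set.ncard_coe_finset]
    congr 1
    ext c
    simp
  -- double counting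
  have h3 : ∑ p ∈ I ×ˢ J, (Hc.filter fun c => p.1 ∈ Bc c ∧ p.2 ∈ Bc' c).card ≤
      β ^ 2 * Hc.card := by
    have h4 : ∑ p ∈ I ×ˢ J, (Hc.filter fun c => p.1 ∈ Bc c ∧ p.2 ∈ Bc' c).card =
        ∑ c ∈ Hc, ((I ×ˢ J).filter fun p => p.1 ∈ Bc c ∧ p.2 ∈ Bc' c).card := by
      simp only [Finset.card_filter]
      rw [Finset.sum_comm]
    rw [h4]
    calc ∑ c ∈ Hc, ((I ×ˢ J).filter fun p => p.1 ∈ Bc c ∧ p.2 ∈ Bc' c).card
        ≤ ∑ _c ∈ Hc, β ^ 2 := by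
          refine Finset.sum_le_sum fun c hc => ?_
          have h5 : ((I ×ˢ J).filter fun p => p.1 ∈ Bc c ∧ p.2 ∈ Bc' c) ⊆ Bc c ×ˢ Bc' c := by
            intro p hp
            rw [Finset.mem_filter] at hp
            exact Finset.mem_product.2 hp.2
          refine (Finset.card_le_card h5).trans ?_
          rw [Finset.card_product, pow_two]
          exact Nat.mul_le_mul (h1 c hc) (h2 c hc)
      _ = β ^ 2 * Hc.card := by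
          rw [Finset.sum_const, smul_eq_mul, mul_comm]
  have h6 : ∑ _p ∈ I ×ˢ J, β ^ 2 * Hc.card <
      ∑ p ∈ I ×ˢ J, (Hc.filter fun c => p.1 ∈ Bc c ∧ p.2 ∈ Bc' c).card * (I.card * J.card) := by
    refine Finset.sum_lt_sum_of_nonempty hne fun p hp => ?_
    rw [Finset.mem_product] at hp
    have := hcon p.1 hp.1 p.2 hp.2
    rwa [hset] at this
  rw [Finset.sum_const, ← Finset.sum_mul, smul_eq_mul, Finset.card_product] at h6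
  have h7 := Nat.mul_le_mul_right (I.card * J.card) h3
  rw [mul_comm (I.card * J.card)] at h6
  omega

lemma ins_ins {α V : Type*} {E : Set α} {e : α → Sym2 V} {W W' : Set V} (h : W' ⊆ W) :
    ins (ins E e W) e W' = ins E e W' := by
  ext z
  exact ⟨fun hz => ⟨hz.1.1, hz.2⟩, fun hz => ⟨⟨hz.1, fun v hv => h (hz.2 v hv)⟩, hz.2⟩⟩

lemma num_avg {T w β K n h a b N' : ℕ} (hI₁ : 3 * (T * T) ≤ 4 * a) (hI₂ : 3 * (T * T) ≤ 4 * b)
    (hT : 0 < T * T) (hij : h * (a * b) ≤ β ^ 2 * N') (hN : N' ≤ K * n ^ 4)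
    (hn : n ≤ 2 * w * T) : h ≤ 32 * β ^ 2 * K * w ^ 4 := by
  have h0 : (T * T) ^ 2 ≤ 2 * (a * b) := by
    have := Nat.mul_le_mul hI₁ hI₂
    nlinarith
  have h1 : 0 < a * b := Nat.mul_pos (by omega) (by omega)
  refine Nat.le_of_mul_le_mul_right (c := a * b) (hij.trans ?_) h1
  have h2 : n ^ 4 ≤ 16 * w ^ 4 * (T * T) ^ 2 := by
    calc n ^ 4 ≤ (2 * w * T) ^ 4 := Nat.pow_le_pow_left hn 4
      _ = 16 * w ^ 4 * (T * T) ^ 2 := by ring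
  calc β ^ 2 * N' ≤ β ^ 2 * (K * (16 * w ^ 4 * (T * T) ^ 2)) :=
        Nat.mul_le_mul_left _ (hN.trans (Nat.mul_le_mul_left _ h2))
    _ = 16 * β ^ 2 * K * w ^ 4 * (T * T) ^ 2 := by ring
    _ ≤ 16 * β ^ 2 * K * w ^ 4 * (2 * (a * b)) := Nat.mul_le_mul_left _ h0
    _ = 32 * β ^ 2 * K * w ^ 4 * (a * b) := by ring

lemma num_fin {k K K' β a w m s : ℕ} (hK' : K' = 32 * β ^ 2 * K * a ^ 4 + 4 * (2 * k + 1) ^ 2)
    (hwa : w ≤ a * m) (hs : s = (2 * k + 1) * m) (hm : 1 ≤ m) :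
    32 * β ^ 2 * K * w ^ 4 + (2 * (s * s) + 2 * (s * s)) ≤ K' * m ^ 4 := by
  have h1 : w ^ 4 ≤ a ^ 4 * m ^ 4 := by
    calc w ^ 4 ≤ (a * m) ^ 4 := Nat.pow_le_pow_left hwa 4
      _ = a ^ 4 * m ^ 4 := by ring
  have h2 : m ^ 2 ≤ m ^ 4 := Nat.pow_le_pow_right hm (by norm_num)
  calc 32 * β ^ 2 * K * w ^ 4 + (2 * (s * s) + 2 * (s * s))
      ≤ 32 * β ^ 2 * K * (a ^ 4 * m ^ 4) + 4 * (2 * k + 1) ^ 2 * m ^ 4 := by
        refine Nat.add_le_add (Nat.mul_le_mul_left _ h1) ?_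
        calc 2 * (s * s) + 2 * (s * s) = 4 * (2 * k + 1) ^ 2 * m ^ 2 := by
              rw [hs]
              ring
          _ ≤ _ := Nat.mul_le_mul_left _ h2
    _ = K' * m ^ 4 := by
        rw [hK']
        ring

lemma num_bad {Λ w T n β b c : ℕ} (hn : n ≤ 2 * w * T) (hw : 0 < w)
    (hΛ : 4 * β * (2 * w) ^ 2 ≤ Λ) (h1 : Λ * c ≤ n ^ 2) (h2 : b ≤ c * β) : 4 * b ≤ T * T := by
  have h3 : n ^ 2 ≤ (2 * w) ^ 2 * (T * T) := by
    calc n ^ 2 ≤ (2 * w * T) ^ 2 := Nat.pow_le_pow_left hn 2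
      _ = (2 * w) ^ 2 * (T * T) := by ring
  have h4 : 4 * β * (2 * w) ^ 2 * c ≤ (2 * w) ^ 2 * (T * T) :=
    le_trans (le_trans (Nat.mul_le_mul_right _ hΛ) h1) h3
  have h5 : 0 < (2 * w) ^ 2 := by positivity
  have h6 : (2 * w) ^ 2 * (4 * (c * β)) ≤ (2 * w) ^ 2 * (T * T) := by
    calc (2 * w) ^ 2 * (4 * (c * β)) = 4 * β * (2 * w) ^ 2 * c := by ring
      _ ≤ _ := h4
  have h7 := Nat.le_of_mul_le_mul_left h6 h5
  omega

end DdStar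

open DSR WPP DST DdStar in
/-- **Theorem DD with T-star.** -/
theorem ddStar (k K : ℕ) (hT : 1 ≤ k → ∀ K' : ℕ, TSK.TStarD.{u} k K') : DdStarStmt.{u} k K := by
  classical
  rcases Nat.eq_zero_or_pos k with rfl | hk
  · exact ⟨0, fun n _ α M _ E₁ E₂ C₁ D₂ F G H e₁ e₂ x y x' y' _ _ _ _ _ _ _ _ _ _ _ _ _ _ =>
      hum_zero M⟩
  have hEss : EssStmt.{u} := essStmt
  have hAdd : AddStmt.{u} := addStmt
  have hBas : BasStmt.{u} := basStmt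
  obtain ⟨c₀, β, hScat⟩ := scatW.{u} k hk
  obtain ⟨a, ha⟩ : ∃ a, a = 5 * (2 * k + 1) + c₀ := ⟨_, rfl⟩
  obtain ⟨K', hK'⟩ : ∃ K', K' = 32 * β ^ 2 * K * a ^ 4 + 4 * (2 * k + 1) ^ 2 := ⟨_, rfl⟩
  obtain ⟨κ, hW⟩ := (hT hk K').blocks
  set t1 := κ + 32 * (κ + 1) ^ 2 + 1 with ht1
  obtain ⟨m, hm⟩ : ∃ m, m = κ + 4 * (t1 + 1) + 1 := ⟨_, rfl⟩
  obtain ⟨s, hs⟩ : ∃ s, s = (2 * k + 1) * m := ⟨_, rfl⟩
  have hm1 : 1 ≤ m := by omega
  have hms : m ≤ s := by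
    rw [hs]
    exact Nat.le_mul_of_pos_left _ (Nat.succ_pos _)
  obtain ⟨w, o, o', hwc, hsw, ho, ho', hSc⟩ := hScat s (by omega)
  have hwa : w ≤ a * m := by
    have h1 : c₀ ≤ c₀ * m := Nat.le_mul_of_pos_right _ hm1
    have h2 : a * m = 5 * ((2 * k + 1) * m) + c₀ * m := by
      rw [ha]
      ring
    rw [h2, ← hs]
    omega
  set Λ := t1 + 32 * (t1 + 1) ^ 2 + 1 + 3 * w + 4 * β * (2 * w) ^ 2 with hΛ
  refine ⟨Λ, ?_⟩
  intro n hn α M _ E₁ E₂ C₁ D₂ F G H e₁ e₂ x y x' y' hE₁ hE₂ hE hC₁ hD₂ hB₁ hG₁ hB₂ hG₂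
    hFG hq1 hq2 hH hK
  have hC₁E : C₁ ⊆ M.E := hC₁.trans sdiff_subset
  have hD₂E : D₂ ⊆ M.E := hD₂.trans sdiff_subset
  obtain ⟨C', hC', hCi, hCb, hCr, hCF⟩ := hBas M C₁ F hC₁E
  obtain ⟨D', hD', hDi, hDb, hDr, hDG⟩ := hBas M✶ D₂ G (by exact hD₂E)
  have finC : ∀ A : Set α, (M ／ A).Finite := fun A => BQ.fin_contract A
  have finD : ∀ A : Set α, (M✶ ／ A).Finite := fun A => BQ.fin_contract A
  set T := n / w - 1 with hTdef
  have hw : 0 < w := by omega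
  have hn3 : 3 * w ≤ n := by omega
  have hdiv : 3 ≤ n / w := (Nat.le_div_iff_mul_le hw).2 hn3
  have hT : (T + 1) * w ≤ n := by
    have : T + 1 = n / w := by omega
    rw [this]
    exact Nat.div_mul_le_self n w
  have hnT : n ≤ 2 * w * T := by
    have h1 : n < (n / w + 1) * w := by
      have := Nat.lt_div_mul_add (a := n) hw
      rw [add_mul, one_mul]
      exact this
    have h2 : n / w + 1 ≤ 2 * T := by omega
    calc n ≤ (n / w + 1) * w := h1.le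
      _ ≤ (2 * T) * w := Nat.mul_le_mul_right _ h2
      _ = 2 * w * T := by ring
  have hTpos : 0 < T := by omega
  have hC'E : C' ⊆ M.E \ E₁ := hC'.trans hC₁
  have hD'E : D' ⊆ M.E \ E₂ := hD'.trans hD₂
  have hE₁C : E₁ ⊆ M.E \ C₁ := fun z hz => ⟨hE₁ hz, fun h => (hC₁ h).2 hz⟩
  have hE₂D : E₂ ⊆ M.E \ D₂ := fun z hz => ⟨hE₂ hz, fun h => (hD₂ h).2 hz⟩
  have hE₁C' : E₁ ⊆ M.E \ C' := fun z hz => ⟨hE₁ hz, fun h => (hC'E h).2 hz⟩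
  have hE₂D' : E₂ ⊆ M✶.E \ D' := fun z hz => ⟨hE₂ hz, fun h => (hD'E h).2 hz⟩
  have hcut : ∀ A B : Set α, A \ (B ∩ A) = A \ B := by
    intro A B
    ext z
    simp only [mem_sdiff, mem_inter_iff]
    tauto
  -- bases of the two splitting classes
  obtain ⟨B₁, hB₁F, hB₁r, hB₁X⟩ := basis_cost M (C := C') (F := F ∩ C') (E := E₁) hCi
    inter_subset_right hE₁C'
  obtain ⟨B₂, hB₂G, hB₂r, hB₂X⟩ := basis_cost M✶ (C := D') (F := G ∩ D') (E := E₂) hDi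
    inter_subset_right hE₂D'
  rw [hcut] at hB₁X hB₂X
  have hB₁f : B₁.Finite :=
    M.ground_finite.subset (fun z hz => hC₁E (hC' (hB₁F hz).2))
  have hB₂f : B₂.Finite :=
    M.ground_finite.subset (fun z hz => hD₂E (hD' (hB₂G hz).2))
  have hB₁c : Λ * B₁.ncard ≤ n ^ 2 := by
    have h1 := hCF E₁ hE₁C
    have h2 := hCr E₁ hE₁C
    have h3 : rk (M ／ (C' \ B₁)) E₁ ≤ rk (M ／ (C' \ F)) E₁ :=
      Quo.le (quo_mono (M := M) (A := C' \ F) (B := C' \ B₁)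
        (sdiff_subset_sdiff_right (fun z hz => (hB₁F hz).1))
        (sdiff_subset.trans (hC'.trans hC₁E))
        (fun z hz => ⟨hE₁ hz, fun h => (hC'E h.1).2 hz⟩)) (subset_refl _)
    have h4 : rk (M ／ C₁) E₁ + B₁.ncard ≤ rk (M ／ (C₁ \ F)) E₁ := by omega
    have h5 := Nat.mul_le_mul_left Λ h4
    rw [mul_add] at h5
    omega
  have hB₂c : Λ * B₂.ncard ≤ n ^ 2 := by
    have h1 := hDG E₂ hE₂D
    have h2 := hDr E₂ hE₂D
    have h3 : rk (M✶ ／ (D' \ B₂)) E₂ ≤ rk (M✶ ／ (D' \ G)) E₂ :=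
      Quo.le (quo_mono (M := M✶) (A := D' \ G) (B := D' \ B₂)
        (sdiff_subset_sdiff_right (fun z hz => (hB₂G hz).1))
        (by exact sdiff_subset.trans (hD'.trans hD₂E))
        (fun z hz => ⟨hE₂ hz, fun h => (hD'E h.1).2 hz⟩)) (subset_refl _)
    have h4 : rk (M✶ ／ D₂) E₂ + B₂.ncard ≤ rk (M✶ ／ (D₂ \ G)) E₂ := by omega
    have h5 := Nat.mul_le_mul_left Λ h4
    rw [mul_add] at h5
    omega
  -- the exceptional tiles
  set H' := H ∩ (C' ∩ D') with hH'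
  have hH'f : H'.Finite := M.ground_finite.subset (fun z hz => hC₁E (hC' hz.2.1))
  have hH's : H' ⊆ C₁ ∩ D₂ ∩ H := fun z hz => ⟨⟨hC' hz.2.1, hD' hz.2.2⟩, hz.1⟩
  have hH'c : H'.ncard ≤ K * n ^ 4 := by
    rcases hH with h | h
    · have h1 : rk M H' = H'.ncard := rk_indep (hCi.subset fun z hz => hz.2.1)
      have h2 := rk_mono M hH's
      omega
    · have h1 : rk M✶ H' = H'.ncard := rk_indep (hDi.subset fun z hz => hz.2.2)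
      have h2 := rk_mono M✶ hH's
      omega
  rcases side hEss hk hSc M (H := H') hE₁ hC'E hCi (hCb _ _ hB₁) hG₁ hT
    (fun z hz => hz.2.1) with hU | ⟨Bc, hBc, hi⟩
  · exact hU
  rcases side hEss hk hSc M✶ (H := H') (by exact hE₂) (by exact hD'E) hDi (hDb _ _ hB₂) hG₂ hT
    (fun z hz => hz.2.2) with hU | ⟨Bc', hBc', hj⟩
  · exact hum_dual hU
  rcases side hEss hk hSc M (H := B₁) hE₁ hC'E hCi (hCb _ _ hB₁) hG₁ hT
    (fun z hz => (hB₁F hz).2) with hU | ⟨Bf, hBf, hfi⟩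
  · exact hU
  rcases side hEss hk hSc M✶ (H := B₂) (by exact hE₂) (by exact hD'E) hDi (hDb _ _ hB₂) hG₂ hT
    (fun z hz => (hB₂G hz).2) with hU | ⟨Bg, hBg, hgj⟩
  · exact hum_dual hU
  obtain ⟨bad₁, hbad₁, hgood₁⟩ := bad_card B₁ hB₁f Bf β (fun c => (hBf c).2)
  obtain ⟨bad₂, hbad₂, hgood₂⟩ := bad_card B₂ hB₂f Bg β (fun c => (hBg c).2)
  have hbig : ∀ b c : ℕ, Λ * c ≤ n ^ 2 → b ≤ c * β → 4 * b ≤ T * T := fun b c h1 h2 =>
    num_bad hnT hw (by omega) h1 h2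
  have hb1 := hbig _ _ hB₁c hbad₁
  have hb2 := hbig _ _ hB₂c hbad₂
  have hcT : (cells T).card = T * T := by simp [cells]
  have hI₁ : 3 * (T * T) ≤ 4 * (cells T \ bad₁).card := by
    have := Finset.le_card_sdiff bad₁ (cells T)
    omega
  have hI₂ : 3 * (T * T) ≤ 4 * (cells T \ bad₂).card := by
    have := Finset.le_card_sdiff bad₂ (cells T)
    omega
  have hTT : 0 < T * T := Nat.mul_pos hTpos hTpos
  -- the pair of cells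
  obtain ⟨i, hiI, j, hjI, hij⟩ := pair_avg (cells T \ bad₁) (cells T \ bad₂)
    (Finset.card_pos.1 (by omega)) (Finset.card_pos.1 (by omega)) hH'f.toFinset
    Bc Bc' β (fun c _ => (hBc c).2) (fun c _ => (hBc' c).2)
  rw [Finset.mem_sdiff] at hiI hjI
  obtain ⟨hiI, hi1⟩ := hiI
  obtain ⟨hjI, hj1⟩ := hjI
  obtain ⟨Hs, hHs⟩ : ∃ Hs : Set α, Hs = {c | c ∈ H' ∧ i ∈ Bc c ∧ j ∈ Bc' c} := ⟨_, rfl⟩
  have hHsc : Hs.ncard ≤ 32 * β ^ 2 * K * w ^ 4 := by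
    have hc1 : hH'f.toFinset.card = H'.ncard := (Set.ncard_eq_toFinset_card H' hH'f).symm
    have hc2 : {c | c ∈ hH'f.toFinset ∧ i ∈ Bc c ∧ j ∈ Bc' c} = Hs := by
      rw [hHs]
      ext c
      simp only [hH'f.mem_toFinset]
    rw [hc1, hc2] at hij
    exact num_avg hI₁ hI₂ hTT hij hH'c hnT
  specialize hi i hiI
  specialize hj j hjI
  specialize hfi i hiI
  specialize hgj j hjI
  have ef : {c | c ∈ B₁ ∧ i ∉ Bf c} = B₁ := by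
    ext c
    exact ⟨fun h => h.1, fun h => ⟨h, hgood₁ i hi1 c h⟩⟩
  have eg : {c | c ∈ B₂ ∧ j ∉ Bg c} = B₂ := by
    ext c
    exact ⟨fun h => h.1, fun h => ⟨h, hgood₂ j hj1 c h⟩⟩
  rw [ef] at hfi
  rw [eg] at hgj
  have hr₁ : tl x y w o o' s i ⊆ rect x y n n := tl_sub hiI ho ho' hT
  have hr₂ : tl x' y' w o o' s j ⊆ rect x' y' n n := tl_sub hjI ho ho' hT
  set X := ins E₁ e₁ (tl x y w o o' s i) with hX
  set Y := ins E₂ e₂ (tl x' y' w o o' s j) with hY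
  have hXE₁ : X ⊆ E₁ := fun z hz => hz.1
  have hYE₂ : Y ⊆ E₂ := fun z hz => hz.1
  have hXE : X ⊆ M.E := hXE₁.trans hE₁
  have hYE : Y ⊆ M.E := hYE₂.trans hE₂
  have hXc : X.ncard ≤ 2 * (s * s) := grd_ncard_le (Grd_sub hG₁ hr₁)
  have hYc : Y.ncard ≤ 2 * (s * s) := grd_ncard_le (Grd_sub hG₂ hr₂)
  -- defects
  have d1 : rk (M ／ (C' \ (F ∪ {c | c ∈ H' ∧ i ∉ Bc c}))) X ≤ rk (M ／ C') X + 2 * k := by
    have h1 := hAdd M C' F {c | c ∈ H' ∧ i ∉ Bc c} X hCi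
      (fun z hz => ⟨hXE hz, fun h => (hC'E h).2 (hXE₁ hz)⟩)
    have h2 := hB₁X X hXE₁
    omega
  have d2 : rk (M✶ ／ (D' \ (G ∪ {c | c ∈ H' ∧ j ∉ Bc' c}))) Y ≤ rk (M✶ ／ D') Y + 2 * k := by
    have h1 := hAdd M✶ D' G {c | c ∈ H' ∧ j ∉ Bc' c} Y hDi
      (fun z hz => ⟨hYE hz, fun h => (hD'E h).2 (hYE₂ hz)⟩)
    have h2 := hB₂X Y hYE₂
    omega
  -- the defects are killed
  obtain ⟨p, p', Z, hp1, hZX, hZd, hZb⟩ := kill_defect (M := M) (C := C')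
    (F := F ∪ {c | c ∈ H' ∧ i ∉ Bc c}) (X := X) (e := e₁) (x := x + i.1 * w + o)
    (y := y + i.2 * w + o') (s := s) (q := 2 * k) (m := m) (hC'E.trans sdiff_subset)
    (fun z hz => ⟨hXE hz, fun h => (hC'E h).2 (hXE₁ hz)⟩) (Bic_sub (hCb _ _ hB₁) hXE₁)
    (by rw [hs]) d1
  obtain ⟨r, r', Z', hr1, hZ'Y, hZ'd, hZ'b⟩ := kill_defect (M := M✶) (C := D')
    (F := G ∪ {c | c ∈ H' ∧ j ∉ Bc' c}) (X := Y) (e := e₂) (x := x' + j.1 * w + o)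
    (y := y' + j.2 * w + o') (s := s) (q := 2 * k) (m := m) (hD'E.trans sdiff_subset)
    (fun z hz => ⟨hYE hz, fun h => (hD'E h).2 (hYE₂ hz)⟩) (Bic_sub (hDb _ _ hB₂) hYE₂)
    (by rw [hs]) d2
  have hrr₁ : rect p p' m m ⊆ tl x y w o o' s i := hp1
  have hrr₂ : rect r r' m m ⊆ tl x' y' w o o' s j := hr1
  rw [hX, ins_ins hrr₁] at hZd hZb
  rw [hY, ins_ins hrr₂] at hZ'd hZ'b
  set X' := ins E₁ e₁ (rect p p' m m) with hX'
  set Y' := ins E₂ e₂ (rect r r' m m) with hY'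
  have hX'E₁ : X' ⊆ E₁ := fun z hz => hz.1
  have hY'E₂ : Y' ⊆ E₂ := fun z hz => hz.1
  have hX'E : X' ⊆ M.E := hX'E₁.trans hE₁
  have hY'E : Y' ⊆ M.E := hY'E₂.trans hE₂
  -- connectivity
  have k1 : KGe M X' E₂ (t1 + 1) :=
    BQ.kge_blk hC₁ hE₁ hE hB₁ hG₁ (hrr₁.trans hr₁) (by omega) (BQ.KGe.mono_n hK (by omega))
  have k2 : KGe M✶ Y' X' (κ + 1) := BQ.kge_blk (M := M✶) (by exact hD₂) (by exact hE₂)
    (hE.symm.mono_right hX'E₁) hB₂ hG₂ (hrr₂.trans hr₂) (by omega)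
    (BQ.KGe.mono_n (k1.dual hX'E) (by omega))
  have k3 : KGe M X' Y' κ := by
    have := k2.dual (by exact hY'E)
    rw [Matroid.dual_dual] at this
    exact BQ.KGe.mono_n this (by omega)
  refine hW m (by omega) M X' Y' ((C' \ (F ∪ {c | c ∈ H' ∧ i ∉ Bc c})) ∪ Z)
    ((D' \ (G ∪ {c | c ∈ H' ∧ j ∉ Bc' c})) ∪ Z') e₁ e₂ p p' r r' hX'E hY'E
    ((hE.mono_left hX'E₁).mono_right hY'E₂) ?_ ?_ hZb (Grd_sub hG₁ (hrr₁.trans hr₁)) hZ'b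
    (Grd_sub hG₂ (hrr₂.trans hr₂)) (Or.inl ?_) k3
  · rintro z (hz | hz)
    · exact ⟨(hC'E hz.1).1, fun h => (hC'E hz.1).2 (hX'E₁ h)⟩
    · exact ⟨hXE (hZX hz), fun h => Set.disjoint_left.1 hZd hz h⟩
  · rintro z (hz | hz)
    · exact ⟨(hD'E hz.1).1, fun h => (hD'E hz.1).2 (hY'E₂ h)⟩
    · exact ⟨hYE (hZ'Y hz), fun h => Set.disjoint_left.1 hZ'd hz h⟩
  · have hXf : X.Finite := M.ground_finite.subset hXE
    have hYf : Y.Finite := M.ground_finite.subset hYE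
    have hHsf : Hs.Finite := by
      rw [hHs]
      exact hH'f.subset fun c hc => hc.1
    have hsub : ((C' \ (F ∪ {c | c ∈ H' ∧ i ∉ Bc c})) ∪ Z) ∩
        ((D' \ (G ∪ {c | c ∈ H' ∧ j ∉ Bc' c})) ∪ Z') ⊆ Hs ∪ (X ∪ Y) := by
      rintro z ⟨hz1 | hz1, hz2 | hz2⟩
      · left
        have hzH : z ∈ H := by
          rcases hFG ⟨hC' hz1.1, hD' hz2.1⟩ with (h | h) | h
          · exact absurd (Or.inl h) hz1.2
          · exact absurd (Or.inl h) hz2.2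
          · exact h
        have hzH' : z ∈ H' := ⟨hzH, hz1.1, hz2.1⟩
        rw [hHs]
        refine ⟨hzH', ?_, ?_⟩
        · by_contra h
          exact hz1.2 (Or.inr ⟨hzH', h⟩)
        · by_contra h
          exact hz2.2 (Or.inr ⟨hzH', h⟩)
      · exact Or.inr (Or.inr (hZ'Y hz2))
      · exact Or.inr (Or.inl (hZX hz1))
      · exact Or.inr (Or.inl (hZX hz1))
    have c1 := Set.ncard_le_ncard hsub (hHsf.union (hXf.union hYf))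
    have c2 := Set.ncard_union_le Hs (X ∪ Y)
    have c3 := Set.ncard_union_le X Y
    have c4 := num_fin hK' hwa hs hm1
    omega

end BICS
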