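import Mathlib

/-!
# Descent (T*, Claim A, helper70's [DESC])

`State i n m`: in the situation `i` (all matroids, constants ...) there is a system with `n` tiles and
measure at most `m`.  `Good i n`: there is a good system with `n` tiles.  A bad system has a smaller
subsystem of smaller measure; the loss of tiles in one round is a function of `n` (Ramsey,
pigeonhole), the number of rounds is bounded by the measure.
-/

namespace TST

universe u

/-- **Descent.**  If every system of measure `m ≤ μ` with `n'` tiles, `n' = n'(n)` large, is good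
(has a good subsystem with `n` tiles) or has a system with `n` tiles of measure `< m`, then every
system of measure at most `μ` with sufficiently many tiles leads to a good one. -/
theorem desc {ι : Sort u} (μ : ℕ) (State : ι → ℕ → ℕ → Prop) (Good : ι → ℕ → Prop)
    (step : ∀ n, ∃ n', ∀ i, ∀ m ≤ μ, State i n' m → Good i n ∨ ∃ m' < m, State i n m')
    (sub : ∀ i n n' m, n ≤ n' → State i n' m → State i n m)
    (subG : ∀ i n n', n ≤ n' → Good i n' → Good i n) :
    ∀ n, ∃ N, ∀ i, ∀ m ≤ μ, State i N m → Good i n := by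
  intro n
  have key : ∀ d ≤ μ + 1, ∃ N, n ≤ N ∧ ∀ i, ∀ m < d, State i N m → Good i n := by
    intro d
    induction d with
    | zero => exact fun _ => ⟨n, le_rfl, fun i m hm => absurd hm (Nat.not_lt_zero m)⟩
    | succ d ih =>
      intro hd
      obtain ⟨N, hnN, hN⟩ := ih (by omega)
      obtain ⟨N', hN'⟩ := step N
      refine ⟨max N N', le_max_of_le_left hnN, fun i m hm hst => ?_⟩
      rcases hN' i m (by omega) (sub i N' _ m (le_max_right _ _) hst) with h | ⟨m', hm', h⟩
      · exact subG i n N hnN h
      · exact hN i m' (by omega) h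
  obtain ⟨N, -, hN⟩ := key (μ + 1) le_rfl
  exact ⟨N, fun i m hm => hN i m (by omega)⟩

/-- The number of rounds: a measure which drops by at least `δ` in every round and is at most
`c * δ` at the beginning. -/
theorem desc_mul {ι : Sort u} (c : ℕ) (δ : ι → ℕ) (hδ : ∀ i, 0 < δ i) (State : ι → ℕ → ℕ → Prop)
    (Good : ι → ℕ → Prop)
    (step : ∀ n, ∃ n', ∀ i, ∀ m ≤ c * δ i, State i n' m → Good i n ∨
      ∃ m', m' + δ i ≤ m ∧ State i n m')
    (sub : ∀ i n n' m, n ≤ n' → State i n' m → State i n m)
    (subG : ∀ i n n', n ≤ n' → Good i n' → Good i n) :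
    ∀ n, ∃ N, ∀ i, ∀ m ≤ c * δ i, State i N m → Good i n := by
  intro n
  obtain ⟨N, hN⟩ := desc (ι := ι) c (fun i a b => ∃ m, m ≤ c * δ i ∧ m / δ i ≤ b ∧ State i a m)
    Good (by
      intro n
      obtain ⟨n', hn'⟩ := step n
      refine ⟨n', ?_⟩
      rintro i b - ⟨m, h1, h2, h3⟩
      rcases hn' i m h1 h3 with h | ⟨m', h4, h5⟩
      · exact Or.inl h
      · right
        have h6 : m' / δ i + 1 ≤ m / δ i := by
          rw [← Nat.add_div_right _ (hδ i)]
          exact Nat.div_le_div_right h4
        exact ⟨m' / δ i, by omega, m', by omega, le_rfl, h5⟩)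
    (by
      rintro i n n' b h ⟨m, h1, h2, h3⟩
      exact ⟨m, h1, h2, sub i n n' m h h3⟩) subG n
  refine ⟨N, fun i m hm hst => hN i c le_rfl ⟨m, hm, ?_, hst⟩⟩
  exact Nat.div_le_of_le_mul (by rw [Nat.mul_comm]; exact hm)

end TST
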