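import Pool.Agent.TST.SplitDef

/-!
# The label level of CLAIM A (definitions, helper90)

Pure combinatorics of places on rows.  `rw r` = elements of the row `r`, `V` = visible rows (the rows of
the wall which are not light), `S d x y` = `d` separates `x` and `y` (two elements of one row).
Every good element which sees a label is a rung (`Rg`: two visible places), honest with one visible
place (`On`), local on one row (`Lo`) or near-local at a star (`NL`).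
-/

open Set

namespace TST

universe u v w

/-- the row `r` ends at `v` -/
def At {β : Type v} {ν : Type w} (nd₁ nd₂ : β → ν) (r : β) (v : ν) : Prop := nd₁ r = v ∨ nd₂ r = v

/-- `d` sees only rows at `v`, and on them it is constant outside of the core of `v` -/
def LocAt {α : Type u} {β : Type v} {ν : Type w} (rw : β → Set α) (V : Set β) (nd₁ nd₂ : β → ν)
    (S : α → α → α → Prop) (Core : ν → Set α) (d : α) (v : ν) : Prop :=
  ∀ r ∈ V, ∀ x ∈ rw r, ∀ y ∈ rw r, x ≠ y → S d x y → At nd₁ nd₂ r v ∧ (x ∈ Core v ∨ y ∈ Core v)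

/-- **Facts (G1) - (G4).** -/
structure LabFacts {α : Type u} {β : Type v} {ν : Type w} (rw : β → Set α) (V : Set β)
    (nd₁ nd₂ : β → ν) (S : α → α → α → Prop) (Dg Rg On Lo NL Dt : Set α) (pr : α → Bool → β)
    (pa : α → Bool → Set α) (r₀ : α → β) (A₀ : α → Set α) (rl : α → β) (vl ct : α → ν)
    (Core : ν → Set α) : Prop where
  /-- no loops and no parallel rows -/
  loopless : ∀ r ∈ V, nd₁ r ≠ nd₂ r
  simple : ∀ r ∈ V, ∀ r' ∈ V, ∀ u v, u ≠ v → At nd₁ nd₂ r u → At nd₁ nd₂ r v →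
    At nd₁ nd₂ r' u → At nd₁ nd₂ r' v → r = r'
  /-- (G1) -/
  kind : ∀ d ∈ Dg, d ∈ Rg ∨ d ∈ On ∨ d ∈ Lo ∨ d ∈ NL
  /-- rungs: `pr t i` = row of the place `i`, `pa t i` = elements on the near side of it -/
  vis : ∀ t ∈ Rg, ∀ i, pr t i ∈ V
  sub : ∀ t ∈ Rg, ∀ i, pa t i ⊆ rw (pr t i)
  sep : ∀ t ∈ Rg, ∀ r ∈ V, ∀ x ∈ rw r, ∀ y ∈ rw r, x ≠ y →
    (S t x y ↔ ∃ i, r = pr t i ∧ ¬ (x ∈ pa t i ↔ y ∈ pa t i))
  /-- (G2a) two rungs: crossing places on one row, then the other places are equal -/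
  nest : ∀ t ∈ Rg, ∀ t' ∈ Rg, ∀ i j, pr t i = pr t' j →
    (pa t i ⊆ pa t' j ∨ pa t' j ⊆ pa t i) ∨ (pr t (!i) = pr t' (!j) ∧ pa t (!i) = pa t' (!j))
  /-- elements with one visible place -/
  one : ∀ d ∈ On, ∀ r ∈ V, ∀ x ∈ rw r, ∀ y ∈ rw r, x ≠ y → S d x y →
    r = r₀ d ∧ ¬ (x ∈ A₀ d ↔ y ∈ A₀ d)
  /-- (G2b) -/
  nestOne : ∀ t ∈ Rg, ∀ d ∈ On, ∀ i, pr t i = r₀ d →
    (∀ x ∈ rw (r₀ d), x ∈ pa t i → x ∈ A₀ d) ∨ ∀ x ∈ rw (r₀ d), x ∈ A₀ d → x ∈ pa t i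
  /-- local elements of one row -/
  loc : ∀ d ∈ Lo, ∀ r ∈ V, ∀ x ∈ rw r, ∀ y ∈ rw r, x ≠ y → S d x y → r = rl d
  /-- (G3) -/
  locRg : ∀ t ∈ Rg, ∀ d ∈ Lo, ∀ i, pr t i = rl d →
    (∀ x ∈ rw (rl d), ∀ y ∈ rw (rl d), x ∈ pa t i → y ∈ pa t i → x ≠ y → ¬ S d x y) ∨
      ∀ x ∈ rw (rl d), ∀ y ∈ rw (rl d), x ∉ pa t i → y ∉ pa t i → x ≠ y → ¬ S d x y
  /-- (G4) near-local elements see only the core of their star; on a row they are constant on the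
  core of the other end -/
  nl : ∀ d ∈ NL, LocAt rw V nd₁ nd₂ S Core d (vl d)
  nlw : ∀ d ∈ NL, ∀ r ∈ V, At nd₁ nd₂ r (vl d) → ∀ v, v ≠ vl d → At nd₁ nd₂ r v → ∀ x ∈ rw r,
    ∀ y ∈ rw r, x ∈ Core v → y ∈ Core v → x ≠ y → ¬ S d x y
  /-- degenerate tripods with the centre `ct d`: they see only the row `r₀ d`, and the other rows at the
  centre are contained in the core -/
  tri_on : Dt ⊆ On
  tri_end : ∀ d ∈ Dt, At nd₁ nd₂ (r₀ d) (ct d)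
  tri_loc : ∀ d ∈ Dt, LocAt rw V nd₁ nd₂ S Core d (ct d)
  tri_full : ∀ d ∈ Dt, ∀ r ∈ V, r ≠ r₀ d → At nd₁ nd₂ r (ct d) → rw r ⊆ Core (ct d)
  /-- (G4) whatever separates two elements of the core of `v` on a row lives in this core, or it is a
  degenerate tripod at the other end of the row -/
  core : ∀ v, ∀ d ∈ Dg, ∀ r ∈ V, At nd₁ nd₂ r v → ∀ x ∈ rw r, ∀ y ∈ rw r, x ∈ Core v → y ∈ Core v →
    x ≠ y → S d x y → LocAt rw V nd₁ nd₂ S Core d v ∨ (d ∈ Dt ∧ r₀ d = r ∧ ct d ≠ v)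

/-- **Output of the label level.**  `κ` = the chosen tiles, `T` = the chosen rungs, `cls` = classes of
the labels on visible rows, `kc` = number of classes, `pv` = private classes. -/
structure LabOut {α : Type u} {β : Type v} {ν : Type w} (V : Set β)
    (nd₁ nd₂ : β → ν) (S : α → α → α → Prop) (Dg Rg : Set α) (pr : α → Bool → β)
    (pa : α → Bool → Set α) (m n N : ℕ) (R : ℕ → β) (c : ℕ → ℕ → α) (κ : ℕ → ℕ) (T : Set α)
    (kc : ℕ) (cls : ℕ → ℕ) (pv : Set ℕ) : Prop where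
  mono : ∀ a b, a < b → b < n → κ a < κ b
  lt : ∀ b < n, κ b < N
  sub : T ⊆ Rg
  chn : ∀ t ∈ T, ∀ t' ∈ T, ∀ i j, pr t i = pr t' j → pa t i ⊆ pa t' j ∨ pa t' j ⊆ pa t i
  cls_lt : ∀ i < m, R i ∈ V → cls i < kc
  sur : ∀ k < kc, ∃ i < m, R i ∈ V ∧ cls i = k
  /-- labels which are seen by one good element are in one class (input of `hyper_card`) -/
  see : ∀ d ∈ Dg, ∀ i < m, ∀ j < m, R i ∈ V → R j ∈ V →
    (∃ a < n, ∃ b < n, a ≠ b ∧ S d (c i (κ a)) (c i (κ b))) →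
    (∃ a < n, ∃ b < n, a ≠ b ∧ S d (c j (κ a)) (c j (κ b))) → cls i = cls j
  /-- a private class lives in two stars -/
  priv : ∀ k ∈ pv, ∃ v v' : ν, ∀ i < m, R i ∈ V → cls i = k →
    At nd₁ nd₂ (R i) v ∨ At nd₁ nd₂ (R i) v'
  conn : ∀ i < m, ∀ j < m, R i ∈ V → R j ∈ V → cls i = cls j → cls i ∉ pv →
    Relation.ReflTransGen (fun x y => (x < m ∧ R x ∈ V) ∧ (y < m ∧ R y ∈ V) ∧ cls x = cls y ∧
      ∀ a b, a < b → b < n → ∃ t ∈ T, S t (c x (κ a)) (c x (κ b)) ∧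
        S t (c y (κ a)) (c y (κ b))) i j

/-- **LABEL LEVEL.** -/
def LabelStmt : Prop :=
  ∀ m n : ℕ, ∃ N : ℕ, ∀ {α : Type u} {β : Type v} {ν : Type w} (rw : β → Set α) (V : Set β)
    (nd₁ nd₂ : β → ν) (S : α → α → α → Prop) (Dg Rg On Lo NL Dt : Set α) (pr : α → Bool → β)
    (pa : α → Bool → Set α) (r₀ : α → β) (A₀ : α → Set α) (rl : α → β) (vl ct : α → ν)
    (Core : ν → Set α) (R : ℕ → β) (c : ℕ → ℕ → α),
    LabFacts rw V nd₁ nd₂ S Dg Rg On Lo NL Dt pr pa r₀ A₀ rl vl ct Core →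
    (∀ i < m, R i ∈ V → ∀ a < N, c i a ∈ rw (R i)) →
    (∀ i < m, ∀ a < N, ∀ j < m, ∀ b < N, c i a = c j b → i = j ∧ a = b) →
    ∃ (κ : ℕ → ℕ) (T : Set α) (kc : ℕ) (cls : ℕ → ℕ) (pv : Set ℕ),
      LabOut V nd₁ nd₂ S Dg Rg pr pa m n N R c κ T kc cls pv

end TST
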