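import Pool.Agent.TST.SplitDef2
import Pool.Agent.TST.LabDef

/-!
# The label level of T-star, version 3 (definitions, helper35)

`rw r` = elements of the row `r`, `V` = visible rows, `S d x y` = `d` separates `x` and `y`,
`Lv v t` = class of the vertex `v` for the element `t` (as a set of row elements).
Kinds of the good elements: far rungs `Fr` (two visible rows without common end are seen), near
elements `Nr u` (all elements of the star of `u` which see at least one visible row, except the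
same-row elements and the degenerate tripods), same-row elements `Tr r`, one-place elements `On` (in
no star), degenerate tripods `Dt`.
The facts are the witnesses `PWitB`, `PWitD` (rows) and `TWit` (stars).
-/

set_option autoImplicit false

open Set

namespace TST

universe u v w

/-- `d` sees the row `r` -/
def SeeR {α : Type u} {β : Type v} (rw : β → Set α) (S : α → α → α → Prop) (d : α) (r : β) : Prop :=
  ∃ x ∈ rw r, ∃ y ∈ rw r, x ≠ y ∧ S d x y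

/-- `t` does not separate `x` and `y` -/
def ES {α : Type u} (S : α → α → α → Prop) (t x y : α) : Prop := x = y ∨ ¬ S t x y

/-- the legs of the star of `u`: `lg u i` = rows at `u` (visible or not), `oe u i` = the other end -/
structure Legs {α : Type u} {β : Type v} {ν : Type w} (rw : β → Set α) (V : Set β)
    (nd₁ nd₂ : β → ν) (lg : ν → Fin 3 → β) (oe : ν → Fin 3 → ν) (u : ν) : Prop where
  at' : ∀ i, At nd₁ nd₂ (lg u i) u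
  oe_at : ∀ i, At nd₁ nd₂ (lg u i) (oe u i)
  oe_ne : ∀ i, oe u i ≠ u
  inj : ∀ i j, lg u i = lg u j → i = j
  all : ∀ r ∈ V, At nd₁ nd₂ r u → ∃ i, lg u i = r
  fin : ∀ i, (rw (lg u i)).Finite
  ne : ∀ i, (rw (lg u i)).Nonempty
  dis : ∀ i j, i ≠ j → Disjoint (rw (lg u i)) (rw (lg u j))

/-- **Facts of the label level, version 3.**  `Aw r z` = class of the end `nd₁ r` for an exit `z` of the
row `r`; `Au u z i` = class of the far end of the leg `i` for an exit `z` of the star of `u`. -/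
structure LabFacts3 {α : Type u} {β : Type v} {ν : Type w} (rw : β → Set α) (V : Set β)
    (nd₁ nd₂ : β → ν) (S : α → α → α → Prop) (Dg Fr On Dt : Set α) (Nr : ν → Set α)
    (Tr : β → Set α) (Tu : ν → Set α) (Lv : ν → α → Set α) (Aw : β → α → Set α)
    (Au : ν → α → Fin 3 → Set α) (B : α → α → α → α → Prop) (lg : ν → Fin 3 → β)
    (oe : ν → Fin 3 → ν) (fr : α → Bool → β) (r₀ : α → β) (ct : α → ν) : Prop where
  /-- rows -/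
  loopless : ∀ r ∈ V, nd₁ r ≠ nd₂ r
  simple : ∀ r ∈ V, ∀ r' ∈ V, ∀ u v, u ≠ v → At nd₁ nd₂ r u → At nd₁ nd₂ r v →
    At nd₁ nd₂ r' u → At nd₁ nd₂ r' v → r = r'
  fin : ∀ r ∈ V, (rw r).Finite
  dis : ∀ r ∈ V, ∀ r' ∈ V, r ≠ r' → Disjoint (rw r) (rw r')
  legs : ∀ r ∈ V, ∀ u, At nd₁ nd₂ r u → Legs rw V nd₁ nd₂ lg oe u
  /-- kinds -/
  kind : ∀ d ∈ Dg, ∀ r ∈ V, SeeR rw S d r →
    d ∈ Fr ∨ (∃ u, d ∈ Nr u) ∨ d ∈ Tr r ∨ d ∈ On ∨ d ∈ Dt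
  /-- far rungs see exactly two rows, without common end -/
  far_V : ∀ z ∈ Fr, ∀ i, fr z i ∈ V ∧ SeeR rw S z (fr z i)
  far_dis : ∀ z ∈ Fr, ∀ v, At nd₁ nd₂ (fr z false) v → ¬ At nd₁ nd₂ (fr z true) v
  far_see : ∀ z ∈ Fr, ∀ r ∈ V, SeeR rw S z r → ∃ i, r = fr z i
  /-- near elements see only rows at `u`, at least one of them visible; they are local in the star of
  `u` -/
  near_one : ∀ u, ∀ z ∈ Nr u, ∃ r ∈ V, At nd₁ nd₂ r u ∧ SeeR rw S z r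
  near_see : ∀ u, ∀ z ∈ Nr u, ∀ r ∈ V, SeeR rw S z r → At nd₁ nd₂ r u
  /-- the second place of a near element, seen or hidden -/
  near_hid : ∀ u, ∀ z ∈ Nr u, ∀ r ∈ V, SeeR rw S z r → ∀ i, lg u i = r →
    ∃ j, j ≠ i ∧ ∃ x ∈ rw (lg u j), x ∉ Lv (oe u j) z
  /-- a near element which sees only one leg has its second place hidden at the end of another leg -/
  near_one_hid : ∀ u, ∀ z ∈ Nr u, ∀ r ∈ V, SeeR rw S z r → ∀ i, lg u i = r →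
    (∀ j, j ≠ i → ¬ SeeR rw S z (lg u j)) →
    ∃ j k, j ≠ i ∧ k ≠ i ∧ j ≠ k ∧ (∀ x ∈ rw (lg u j), x ∉ Lv (oe u j) z) ∧
      ∀ x ∈ rw (lg u k), x ∈ Lv (oe u k) z
  near_ne : ∀ u v, ∀ z, z ∈ Nr u → z ∈ Nr v → u = v
  near_T : ∀ u, ∀ z ∈ Nr u, z ∈ Tu u
  /-- same-row elements see only their row; they are local in the stars of both ends -/
  same_see : ∀ r ∈ V, ∀ t ∈ Tr r, ∀ r' ∈ V, SeeR rw S t r' → r' = r
  same_T : ∀ r ∈ V, ∀ t ∈ Tr r, ∀ u, At nd₁ nd₂ r u → t ∈ Tu u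
  /-- one-place elements and degenerate tripods see only the row `r₀` -/
  one_see : ∀ d ∈ On ∪ Dt, ∀ r ∈ V, SeeR rw S d r → r = r₀ d
  /-- **row witnesses** of the rungs -/
  wB : ∀ r ∈ V, ∀ z, (z ∈ Fr ∨ ∃ u, z ∈ Nr u) → SeeR rw S z r →
    PWitB (ES S) (Lv (nd₁ r)) (Lv (nd₂ r)) (Aw r) (rw r) (Tr r) z
  wD : ∀ r ∈ V, ∀ z, (z ∈ Fr ∨ ∃ u, z ∈ Nr u) → ∀ z', (z' ∈ Fr ∨ ∃ u, z' ∈ Nr u) → z ≠ z' →
    SeeR rw S z r → SeeR rw S z' r → (∀ u, At nd₁ nd₂ r u → z ∈ Nr u → z' ∉ Nr u) →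
    (∀ i j, z ∈ Fr → z' ∈ Fr → r = fr z i → r = fr z' j → fr z (!i) = fr z' (!j) →
      ¬ EqOn (rw (fr z (!i))) (Aw (fr z (!i)) z) (Aw (fr z (!i)) z')) →
    PWitD (ES S) (Lv (nd₁ r)) (Lv (nd₂ r)) (Aw r) (rw r) (Tr r) z z'
  /-- **star witnesses** of the exits of the star of `u` (all rungs which see a row at `u` and are not
  near rungs of `u`); the three legs are rows, visible or not -/
  wS : ∀ r ∈ V, ∀ u, At nd₁ nd₂ r u → ∀ z, (z ∈ Fr ∨ ∃ v, z ∈ Nr v) → z ∉ Nr u →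
    SeeR rw S z r → TWit (ES S) (fun t i => Lv (oe u i) t) (Au u) B (fun i => rw (lg u i)) (Tu u) z
  /-- the node of a star: for an element of `Tr`, representatives on the other legs do not matter -/
  node : ∀ r ∈ V, ∀ u, At nd₁ nd₂ r u → ∀ i, lg u i = r → ∀ t ∈ Tr r, ∀ f : Fin 3 → α,
    (∀ l, f l ∈ rw (lg u l)) → (f i ∈ Lv u t ↔ B t (f 0) (f 1) (f 2))
  /-- the other legs do not see an element of `Tr` -/
  same_O : ∀ r ∈ V, ∀ u, At nd₁ nd₂ r u → ∀ t ∈ Tr r, ∀ j, lg u j ≠ r → ∀ x ∈ rw (lg u j),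
    x ∈ Lv (oe u j) t
  /-- classes of the exits on a row and in the star -/
  awE : ∀ r ∈ V, ∀ u, At nd₁ nd₂ r u → ∀ i, lg u i = r → ∀ z, (z ∈ Fr ∨ ∃ v, z ∈ Nr v) → z ∉ Nr u →
    SeeR rw S z r → ∀ x ∈ rw r, (x ∈ Aw r z ↔ (nd₁ r = u ∧ x ∉ Au u z i) ∨
      (nd₁ r ≠ u ∧ x ∈ Au u z i))
  awN : ∀ r ∈ V, ∀ u, At nd₁ nd₂ r u → ∀ i, lg u i = r → ∀ z ∈ Nr u, SeeR rw S z r →
    ∀ x ∈ rw r, (x ∈ Aw r z ↔ (nd₁ r = u ∧ x ∉ Lv (oe u i) z) ∨ (nd₁ r ≠ u ∧ x ∈ Lv (oe u i) z))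
  /-- **one-place elements** -/
  one_cls : ∀ d ∈ On, ∀ r ∈ V, SeeR rw S d r → ∀ x ∈ rw r, ∀ y ∈ rw r,
    (ES S d x y ↔ (x ∈ Aw r d ↔ y ∈ Aw r d))
  /-- (alpha) `d` is an exit of its row together with `Tr`, or (beta) it can be added to `Tr` and `Tu` -/
  one_wit : ∀ d ∈ On, ∀ r ∈ V, SeeR rw S d r →
    (PWitB (ES S) (Lv (nd₁ r)) (Lv (nd₂ r)) (Aw r) (rw r) (Tr r) d ∧
      ∀ z, (z ∈ Fr ∨ ∃ u, z ∈ Nr u) → SeeR rw S z r →
        PWitD (ES S) (Lv (nd₁ r)) (Lv (nd₂ r)) (Aw r) (rw r) (Tr r) z d) ∨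
    ((∀ z, (z ∈ Fr ∨ ∃ u, z ∈ Nr u) → SeeR rw S z r →
        PWitB (ES S) (Lv (nd₁ r)) (Lv (nd₂ r)) (Aw r) (rw r) (insert d (Tr r)) z) ∧
      (∀ z, (z ∈ Fr ∨ ∃ u, z ∈ Nr u) → ∀ z', (z' ∈ Fr ∨ ∃ u, z' ∈ Nr u) → z ≠ z' →
        SeeR rw S z r → SeeR rw S z' r → (∀ u, At nd₁ nd₂ r u → z ∈ Nr u → z' ∉ Nr u) →
        (∀ i j, z ∈ Fr → z' ∈ Fr → r = fr z i → r = fr z' j → fr z (!i) = fr z' (!j) →
          ¬ EqOn (rw (fr z (!i))) (Aw (fr z (!i)) z) (Aw (fr z (!i)) z')) →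
        PWitD (ES S) (Lv (nd₁ r)) (Lv (nd₂ r)) (Aw r) (rw r) (insert d (Tr r)) z z') ∧
      ∀ x ∈ rw r, (x ∈ Lv (nd₁ r) d ↔ x ∈ Aw r d) ∧ (x ∈ Lv (nd₂ r) d ↔ x ∉ Aw r d))
  /-- one-place elements in the stars of their ends: exit, or they can be added -/
  one_star : ∀ d ∈ On, ∀ r ∈ V, SeeR rw S d r → ∀ u, At nd₁ nd₂ r u →
    TWit (ES S) (fun t i => Lv (oe u i) t) (Au u) B (fun i => rw (lg u i)) (Tu u) d ∨
    ∀ z, (z ∈ Fr ∨ ∃ v, z ∈ Nr v) → z ∉ Nr u → (∃ r' ∈ V, At nd₁ nd₂ r' u ∧ SeeR rw S z r') →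
      TWit (ES S) (fun t i => Lv (oe u i) t) (Au u) B (fun i => rw (lg u i)) (insert d (Tu u)) z
  /-- **degenerate tripods**: local in the star of `ct`, two classes on the row, the classes of the two
  ends are equal; no near rung at `ct`, no exit of the other legs -/
  dt_at : ∀ d ∈ Dt, r₀ d ∈ V → At nd₁ nd₂ (r₀ d) (ct d)
  dt_T : ∀ d ∈ Dt, r₀ d ∈ V → d ∈ Tu (ct d)
  dt_cls : ∀ d ∈ Dt, r₀ d ∈ V → ∀ x ∈ rw (r₀ d), ∀ y ∈ rw (r₀ d),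
    (ES S d x y ↔ (x ∈ Lv (nd₁ (r₀ d)) d ↔ y ∈ Lv (nd₁ (r₀ d)) d))
  /-- on the other legs the place of a degenerate tripod is hidden (at the far end) -/
  dt_hid : ∀ d ∈ Dt, r₀ d ∈ V → ∀ k, lg (ct d) k ≠ r₀ d → ∀ x ∈ rw (lg (ct d) k),
    x ∉ Lv (oe (ct d) k) d

/-- **The two places of a chosen element on one row**: `P₁` = left of both places, `P₂ \ P₁` = between
them (one class), outside of `P₂` = right of both places.  `t` may be balanced. -/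
structure PlSame {α : Type u} (E : α → α → α → Prop) (X L R : Set α) (t : α) (P₁ P₂ : Set α) :
    Prop where
  sub : P₂ ⊆ X
  le : P₁ ⊆ P₂
  lft : ∀ x ∈ P₁, x ∈ L
  rgt : ∀ x ∈ X, x ∉ P₂ → x ∈ R
  mid : ∀ x ∈ P₂, x ∉ P₁ → x ∉ L ∧ x ∉ R
  cls : ∀ x ∈ P₂, x ∉ P₁ → ∀ y ∈ P₂, y ∉ P₁ → E t x y
  ne₁ : P₁.Nonempty
  ne : ∃ x ∈ P₂, x ∉ P₁
  ne₂ : ∃ x ∈ X, x ∉ P₂

/-- **The chosen elements and their places** `pr t i`, `pa t i` -/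
def TPl {α : Type u} {β : Type v} {ν : Type w} (rw : β → Set α) (V : Set β) (nd₁ nd₂ : β → ν)
    (S : α → α → α → Prop) (Fr : Set α) (Nr : ν → Set α) (Tr : β → Set α) (Lv : ν → α → Set α)
    (Aw : β → α → Set α) (B : α → α → α → α → Prop) (lg : ν → Fin 3 → β) (oe : ν → Fin 3 → ν)
    (fr : α → Bool → β) (pr : α → Bool → β) (pa : α → Bool → Set α) (t : α) : Prop :=
  (∀ i, pr t i ∈ V) ∧
  ((t ∈ Fr ∧ ∀ i, pr t i = fr t i ∧ pa t i = {x | x ∈ rw (fr t i) ∧ x ∈ Aw (fr t i) t}) ∨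
   (∃ u, ∃ i j k : Fin 3, t ∈ Nr u ∧ i ≠ j ∧ i ≠ k ∧ j ≠ k ∧ pr t false = lg u i ∧
      pr t true = lg u j ∧ SeeR rw S t (lg u i) ∧ SeeR rw S t (lg u j) ∧
      (∀ q, pa t q = {x | x ∈ rw (pr t q) ∧ x ∈ Aw (pr t q) t}) ∧
      (∃ x ∈ rw (lg u i), x ∉ Lv (oe u i) t) ∧ (∃ x ∈ rw (lg u j), x ∉ Lv (oe u j) t) ∧
      (∀ x ∈ rw (lg u k), x ∈ Lv (oe u k) t) ∧
      (∀ l, ∀ x ∈ rw (lg u l), ∀ y ∈ rw (lg u l),
        (ES S t x y ↔ (x ∈ Lv (oe u l) t ↔ y ∈ Lv (oe u l) t))) ∧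
      ∀ x ∈ rw (lg u 0), ∀ y ∈ rw (lg u 1), ∀ w ∈ rw (lg u 2), (k ≠ 0 → x ∉ Lv (oe u 0) t) →
        (k ≠ 1 → y ∉ Lv (oe u 1) t) → (k ≠ 2 → w ∉ Lv (oe u 2) t) → B t x y w) ∨
   (∃ r ∈ V, t ∈ Tr r ∧ (∀ i, pr t i = r) ∧
      PlSame (ES S) (rw r) (Lv (nd₁ r) t) (Lv (nd₂ r) t) t (pa t false) (pa t true)))

/-- **LABEL LEVEL, version 3.** -/
def LabelStmt3 : Prop :=
  ∀ m n : ℕ, ∃ N : ℕ, ∀ {α : Type u} {β : Type v} {ν : Type w} (rw : β → Set α) (V : Set β)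
    (nd₁ nd₂ : β → ν) (S : α → α → α → Prop) (Dg Fr On Dt : Set α) (Nr : ν → Set α)
    (Tr : β → Set α) (Tu : ν → Set α) (Lv : ν → α → Set α) (Aw : β → α → Set α)
    (Au : ν → α → Fin 3 → Set α) (B : α → α → α → α → Prop) (lg : ν → Fin 3 → β)
    (oe : ν → Fin 3 → ν) (fr : α → Bool → β) (r₀ : α → β) (ct : α → ν) (R : ℕ → β)
    (c : ℕ → ℕ → α),
    LabFacts3 rw V nd₁ nd₂ S Dg Fr On Dt Nr Tr Tu Lv Aw Au B lg oe fr r₀ ct →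
    (∀ i < m, R i ∈ V → ∀ a < N, c i a ∈ rw (R i)) →
    (∀ i < m, ∀ a < N, ∀ j < m, ∀ b < N, c i a = c j b → i = j ∧ a = b) →
    ∃ (κ : ℕ → ℕ) (T : Set α) (pr : α → Bool → β) (pa : α → Bool → Set α) (kc : ℕ) (cls : ℕ → ℕ)
      (pv : Set ℕ),
      LabOut V nd₁ nd₂ S Dg T pr pa m n N R c κ T kc cls pv ∧ T ⊆ Dg ∧
      ∀ t ∈ T, TPl rw V nd₁ nd₂ S Fr Nr Tr Lv Aw B lg oe fr pr pa t

end TST
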