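import Pool.Agent.TST.LayerStar
import Pool.Agent.TST.LabDef3

/-!
# The stars of the label level (CLAIM A of T-star, adapter; helper64)

From `LabFacts3`: the root state of the star of `u`, the elements of a row at `u`, and the pairs of
near rungs of `u` on a part `g` of a row at `u`, in the classes of the row.
-/

set_option autoImplicit false

open Set

namespace TST

universe u v w

variable {α : Type u} {β : Type v} {ν : Type w} {rw : β → Set α} {V : Set β} {nd₁ nd₂ : β → ν}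
  {S : α → α → α → Prop} {Dg Fr On Dt : Set α} {Nr : ν → Set α} {Tr : β → Set α}
  {Tu : ν → Set α} {Lv : ν → α → Set α} {Aw : β → α → Set α} {Au : ν → α → Fin 3 → Set α}
  {B : α → α → α → α → Prop} {lg : ν → Fin 3 → β} {oe : ν → Fin 3 → ν} {fr : α → Bool → β}
  {r₀ : α → β} {ct : α → ν}

/-- the legs of the star of `c` -/
abbrev starX (rw : β → Set α) (lg : ν → Fin 3 → β) (c : ν) : Fin 3 → Set α := fun i => rw (lg c i)

/-- the classes of the far ends -/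
abbrev starO (Lv : ν → α → Set α) (oe : ν → Fin 3 → ν) (c : ν) : α → Fin 3 → Set α :=
  fun t i => Lv (oe c i) t

/-- the exits of the star of `c` -/
def starW (rw : β → Set α) (V : Set β) (nd₁ nd₂ : β → ν) (S : α → α → α → Prop) (Fr : Set α)
    (Nr : ν → Set α) (c : ν) : Set α :=
  {z | (z ∈ Fr ∨ ∃ v, z ∈ Nr v) ∧ z ∉ Nr c ∧ ∃ r ∈ V, At nd₁ nd₂ r c ∧ SeeR rw S z r}

/-- `z` is constant on some leg (in the class of the far end) -/
def TwoL (rw : β → Set α) (Lv : ν → α → Set α) (lg : ν → Fin 3 → β) (oe : ν → Fin 3 → ν) (c : ν)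
    (z : α) : Prop := ∃ k, ∀ x ∈ rw (lg c k), x ∈ Lv (oe c k) z

/-- the class of the row and the class of the far end, as for a near rung of `c` -/
def AwC (nd₁ : β → ν) (Lv : ν → α → Set α) (Aw : β → α → Set α) (oe : ν → Fin 3 → ν) (r : β)
    (c : ν) (l : Fin 3) (g : Set α) (d : α) : Prop :=
  ∀ x ∈ g, (x ∈ Aw r d ↔ (nd₁ r = c ∧ x ∉ Lv (oe c l) d) ∨ (nd₁ r ≠ c ∧ x ∈ Lv (oe c l) d))

lemma TWit.notMem {E : α → α → α → Prop} {O A : α → Fin 3 → Set α} {X : Fin 3 → Set α}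
    {T : Set α} {z : α} (h : TWit E O A B X T z) : z ∉ T := by
  obtain ⟨N, o, h⟩ := h.wd
  exact h.hs.zT

lemma RowEl.subset {O : α → Fin 3 → Set α} {X : Fin 3 → Set α} {T T' T'' : Set α} {l : Fin 3}
    {L R : α → Set α} (hr : RowEl O B X T l L R T') (hT : T'' ⊆ T') :
    RowEl O B X T l L R T'' :=
  ⟨hT.trans hr.sub, fun s hs => hr.oth s (hT hs), fun s hs => hr.lft s (hT hs),
    fun s hs => hr.rgt s (hT hs)⟩

/-- the history is not empty only if there is an exit -/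
lemma StarReach.root_or {E : α → α → α → Prop} {O A A' : α → Fin 3 → Set α}
    {X₀ X : Fin 3 → Set α} {T₀ W₀ : Set α} (h : StarReach E O A B X₀ T₀ W₀ X A') :
    (X = X₀ ∧ A' = A) ∨ ∃ z, z ∈ W₀ := by
  induction h with
  | root => exact Or.inl ⟨rfl, rfl⟩
  | step X A' z i A₁ h1 h2 hz hzT hcut h3 h4 ih =>
    rcases ih with ⟨rfl, rfl⟩ | h5
    · rw [sigT_self] at hzT
      rcases hz with hz | hz
      · exact absurd hz hzT
      · exact Or.inr ⟨z, hz⟩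
    · exact Or.inr h5

namespace LabFacts3

variable (h : LabFacts3 rw V nd₁ nd₂ S Dg Fr On Dt Nr Tr Tu Lv Aw Au B lg oe fr r₀ ct)

include h

/-- the exits of the star -/
lemma starWit {c : ν} {z : α} (hz : z ∈ starW rw V nd₁ nd₂ S Fr Nr c) :
    TWit (ES S) (starO Lv oe c) (Au c) B (starX rw lg c) (Tu c) z := by
  obtain ⟨h1, h2, r, hr, hu, h3⟩ := hz
  exact h.wS r hr c hu z h1 h2 h3

/-- **The root state of the star.** -/
theorem starRun (c : ν) : StarRun (ES S) (starO Lv oe c) (Au c) B (starX rw lg c) (Tu c)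
    (starW rw V nd₁ nd₂ S Fr Nr c) (starX rw lg c) (Au c) := by
  refine StarRun.root ?_ fun z hz => h.starWit hz
  rw [disjoint_left]
  exact fun z hzT hz => (h.starWit hz).notMem hzT

variable {r : β} {c : ν} (hr : r ∈ V) (hc : At nd₁ nd₂ r c)

include hr hc

lemma starX_ne (j : Fin 3) : (starX rw lg c j).Nonempty := (h.legs r hr c hc).ne j

lemma starX_fin (j : Fin 3) : (starX rw lg c j).Finite := (h.legs r hr c hc).fin j

/-- the other end -/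
lemma oe_eq {l : Fin 3} (hl : lg c l = r) (hn : nd₁ r ≠ c) : oe c l = nd₁ r ∧ c = nd₂ r := by
  have h1 := (h.legs r hr c hc).oe_at l
  have h2 := (h.legs r hr c hc).oe_ne l
  rw [hl] at h1
  have h3 : nd₂ r = c := hc.resolve_left hn
  rcases h1 with h1 | h1
  · exact ⟨h1.symm, h3.symm⟩
  · exact absurd (h1.symm.trans h3) h2

lemma oe_eq' {l : Fin 3} (hl : lg c l = r) (hn : nd₁ r = c) : oe c l = nd₂ r := by
  have h1 := (h.legs r hr c hc).oe_at l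
  have h2 := (h.legs r hr c hc).oe_ne l
  rw [hl] at h1
  rcases h1 with h1 | h1
  · exact absurd (h1.symm.trans hn) h2
  · exact h1.symm

/-- the same-row elements of the row, in the star -/
lemma rowEl {l : Fin 3} (hl : lg c l = r) :
    RowEl (starO Lv oe c) B (starX rw lg c) (Tu c) l (Lv (oe c l)) (Lv c) (Tr r) where
  sub := fun s hs => h.same_T r hr s hs c hc
  oth := fun s hs j hj x hx => h.same_O r hr c hc s hs j
    (fun h1 => hj ((h.legs r hr c hc).inj j l (h1.trans hl.symm))) x hx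
  lft := fun _ _ _ _ => Iff.rfl
  rgt := fun s hs v hv => h.node r hr c hc l hl s hs v hv

omit hr hc in
/-- an element of the star which separates two elements of a leg is not constant there -/
lemma not_cst {z₀ : α} (hz₀ : z₀ ∈ starW rw V nd₁ nd₂ S Fr Nr c) {e : α} (he : e ∈ Tu c)
    {j : Fin 3} {P : Set α} (hP : P ⊆ starX rw lg c j)
    (hs : ∃ x ∈ P, ∃ y ∈ P, x ≠ y ∧ S e x y) : ∃ x ∈ P, x ∉ Lv (oe c j) e := by
  obtain ⟨x, hx, y, hy, hxy, h1⟩ := hs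
  by_contra hcon
  push Not at hcon
  have h2 := ((h.starWit hz₀).facts.rel e he j x (hP hx) y (hP hy) (hcon x hx)).2 (hcon y hy)
  rcases h2 with h2 | h2
  · exact hxy h2
  · exact h2 h1

/-- **A near rung of `c`**, on a part `g` of the row. -/
theorem nearG {z₀ : α} (hz₀ : z₀ ∈ starW rw V nd₁ nd₂ S Fr Nr c) {l : Fin 3} (hl : lg c l = r)
    {g : Set α} (hg : g ⊆ rw r) {e : α} (he : e ∈ Nr c)
    (hs : ∃ x ∈ g, ∃ y ∈ g, x ≠ y ∧ S e x y) (h2 : TwoL rw Lv lg oe c e) :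
    NearG (ES S) (starO Lv oe c) (starX rw lg c) (Tu c) l g e := by
  have hT := h.near_T c e he
  have hL := h.legs r hr c hc
  have hgl : g ⊆ starX rw lg c l := by
    show g ⊆ rw (lg c l)
    rw [hl]
    exact hg
  have pl := h.not_cst hz₀ hT hgl hs
  refine ⟨hT, ?_, ?_, ?_⟩
  · obtain ⟨x, hx, y, hy, hxy, h1⟩ := hs
    exact ⟨x, hx, y, hy, fun h3 => h3.elim hxy fun h4 => h4 h1⟩
  · obtain ⟨x, hx, y, hy, hxy, h1⟩ := hs
    obtain ⟨j, hj, h3⟩ := h.near_hid c e he r hr ⟨x, hg hx, y, hg hy, hxy, h1⟩ l hl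
    exact ⟨j, hj, h3⟩
  · obtain ⟨k, hk⟩ := h2
    intro j hj ⟨x, hx, hxO⟩ m hm hmj y hy
    obtain ⟨x', hx', hxO'⟩ := pl
    have hkl : k ≠ l := fun h3 => hxO' (h3 ▸ hk x' (h3.symm ▸ hgl hx'))
    have hkj : k ≠ j := fun h3 => hxO (h3 ▸ hk x (h3.symm ▸ hx))
    have hkm : k = m := by
      have h3 : ∀ l j m k : Fin 3, j ≠ l → m ≠ l → m ≠ j → k ≠ l → k ≠ j → k = m := by decide
      exact h3 l j m k hj hm hmj hkl hkj
    subst hkm
    exact hk y hy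

/-- from the classes of the star to the classes of the row -/
theorem toRowG {l : Fin 3} (hl : lg c l = r) {g T' : Set α} {e d : α}
    (hse : ∃ x ∈ g, ∃ y ∈ g, ¬ ES S e x y) (hsd : ∃ x ∈ g, ∃ y ∈ g, ¬ ES S d x y)
    (hAe : AwC nd₁ Lv Aw oe r c l g e) (hAd : AwC nd₁ Lv Aw oe r c l g d)
    (hp : PWitD (ES S) (Lv (oe c l)) (Lv c) (Lv (oe c l)) g T' e d) :
    PWitD (ES S) (Lv (nd₁ r)) (Lv (nd₂ r)) (Aw r) g T' e d := by
  by_cases hn : nd₁ r = c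
  · have e1 : oe c l = nd₂ r := h.oe_eq' hr hc hl hn
    have key : ∀ {d}, AwC nd₁ Lv Aw oe r c l g d → ∀ x ∈ g, (x ∈ Aw r d ↔ x ∉ Lv (nd₂ r) d) := by
      intro d hd x hx
      rw [hd x hx, e1]
      constructor
      · rintro (h1 | h1)
        · exact h1.2
        · exact absurd hn h1.1
      · exact fun h1 => Or.inl ⟨hn, h1⟩
    rw [e1] at hp
    have h3 := hp.swap (A' := Aw r) hse hsd (key hAe) (key hAd)
    rw [hn]
    exact h3
  · obtain ⟨e1, e2⟩ := h.oe_eq hr hc hl hn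
    have key : ∀ {d}, AwC nd₁ Lv Aw oe r c l g d → ∀ x ∈ g, (x ∈ Aw r d ↔ x ∈ Lv (nd₁ r) d) := by
      intro d hd x hx
      rw [hd x hx, e1]
      constructor
      · rintro (h1 | h1)
        · exact absurd h1.1 hn
        · exact h1.2
      · exact fun h1 => Or.inr ⟨hn, h1⟩
    rw [e1] at hp
    have h3 := hp.congrA (A' := Aw r) (key hAe) (key hAd)
    rw [← e2]
    exact h3

/-- near rungs -/
lemma awC {l : Fin 3} (hl : lg c l = r) {g : Set α} (hg : g ⊆ rw r) {d : α} (hd : d ∈ Nr c)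
    (hsd : ∃ x ∈ g, ∃ y ∈ g, x ≠ y ∧ S d x y) : AwC nd₁ Lv Aw oe r c l g d := by
  obtain ⟨x, hx, y, hy, h1⟩ := hsd
  exact fun z hz => h.awN r hr c hc l hl d hd ⟨x, hg hx, y, hg hy, h1⟩ z (hg hz)

/-- from the classes of the star to the classes of the row -/
theorem toRow {l : Fin 3} (hl : lg c l = r) {g T' : Set α} (hg : g ⊆ rw r) {e d : α}
    (he : e ∈ Nr c) (hd : d ∈ Nr c) (hse : ∃ x ∈ g, ∃ y ∈ g, x ≠ y ∧ S e x y)
    (hsd : ∃ x ∈ g, ∃ y ∈ g, x ≠ y ∧ S d x y)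
    (hp : PWitD (ES S) (Lv (oe c l)) (Lv c) (Lv (oe c l)) g T' e d) :
    PWitD (ES S) (Lv (nd₁ r)) (Lv (nd₂ r)) (Aw r) g T' e d := by
  have sp : ∀ {d}, (∃ x ∈ g, ∃ y ∈ g, x ≠ y ∧ S d x y) → ∃ x ∈ g, ∃ y ∈ g, ¬ ES S d x y :=
    fun ⟨x, hx, y, hy, hxy, h1⟩ => ⟨x, hx, y, hy, fun h3 => h3.elim hxy fun h4 => h4 h1⟩
  exact h.toRowG hr hc hl (sp hse) (sp hsd) (h.awC hr hc hl hg he hse) (h.awC hr hc hl hg hd hsd) hp

/-- **(NS), a pair of near elements of the star**, on a part `g` of the row. -/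
theorem pairG {l : Fin 3} (hl : lg c l = r) {X : Fin 3 → Set α} {A' : α → Fin 3 → Set α}
    (hreach : StarReach (ES S) (starO Lv oe c) (Au c) B (starX rw lg c) (Tu c)
      (starW rw V nd₁ nd₂ S Fr Nr c) X A') {g T' : Set α} (hg : g ⊆ X l) (hTr : T' ⊆ Tr r)
    (hT' : T' ⊆ SigT (starO Lv oe c) (starX rw lg c) (Tu c) X) {e d : α}
    (he : NearG (ES S) (starO Lv oe c) (starX rw lg c) (Tu c) l g e)
    (hd : NearG (ES S) (starO Lv oe c) (starX rw lg c) (Tu c) l g d)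
    (hAe : AwC nd₁ Lv Aw oe r c l g e) (hAd : AwC nd₁ Lv Aw oe r c l g d)
    (hle : e ∉ SigT (starO Lv oe c) (starX rw lg c) (Tu c) X ∨
      d ∉ SigT (starO Lv oe c) (starX rw lg c) (Tu c) X) :
    (∀ j, j ≠ l → ∀ x ∈ rw (lg c j), (x ∈ Lv (oe c j) e ↔ x ∈ Lv (oe c j) d)) ∨
      PWitD (ES S) (Lv (nd₁ r)) (Lv (nd₂ r)) (Aw r) g T' e d := by
  rcases hreach.pair (A'' := Lv (oe c l)) (h.starRun c) (h.starX_ne hr hc) hg
      ((h.rowEl hr hc hl).subset hTr) hT' he hd hle (fun _ _ => Iff.rfl) (fun _ _ => Iff.rfl) with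
    h1 | h1
  · exact Or.inl h1
  · exact Or.inr (h.toRowG hr hc hl he.two hd.two hAe hAd h1)

/-- **(NS), a pair of near rungs of `c` on a part `g` of a row at `c`**: one of them has left the
star. -/
theorem pair {l : Fin 3} (hl : lg c l = r) {X : Fin 3 → Set α} {A' : α → Fin 3 → Set α}
    (hreach : StarReach (ES S) (starO Lv oe c) (Au c) B (starX rw lg c) (Tu c)
      (starW rw V nd₁ nd₂ S Fr Nr c) X A') {g T' : Set α} (hg : g ⊆ X l) (hTr : T' ⊆ Tr r)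
    (hT' : T' ⊆ SigT (starO Lv oe c) (starX rw lg c) (Tu c) X) {e d : α}
    (he : e ∈ Nr c) (hd : d ∈ Nr c) (hse : ∃ x ∈ g, ∃ y ∈ g, x ≠ y ∧ S e x y)
    (hsd : ∃ x ∈ g, ∃ y ∈ g, x ≠ y ∧ S d x y) (h2e : TwoL rw Lv lg oe c e)
    (h2d : TwoL rw Lv lg oe c d)
    (hle : e ∉ SigT (starO Lv oe c) (starX rw lg c) (Tu c) X ∨
      d ∉ SigT (starO Lv oe c) (starX rw lg c) (Tu c) X) :
    (∀ j, j ≠ l → ∀ x ∈ rw (lg c j), (x ∈ Lv (oe c j) e ↔ x ∈ Lv (oe c j) d)) ∨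
      PWitD (ES S) (Lv (nd₁ r)) (Lv (nd₂ r)) (Aw r) g T' e d := by
  have hgr : g ⊆ rw r := by
    rw [← hl]
    exact hg.trans (hreach.sub l)
  rcases hreach.root_or with ⟨rfl, rfl⟩ | ⟨z₀, hz₀⟩
  · rw [sigT_self] at hle
    rcases hle with h1 | h1
    exacts [absurd (h.near_T c e he) h1, absurd (h.near_T c d hd) h1]
  exact h.pairG hr hc hl hreach hg hTr hT' (h.nearG hr hc hz₀ hl hgr he hse h2e)
    (h.nearG hr hc hz₀ hl hgr hd hsd h2d) (h.awC hr hc hl hgr he hse) (h.awC hr hc hl hgr hd hsd) hle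

/-- **(NS), a pair of near elements, outer cell**: `z` = exit of the state, `g` is in its outer
part. -/
theorem pair_outG {l : Fin 3} (hl : lg c l = r) {X : Fin 3 → Set α} {A' : α → Fin 3 → Set α}
    (hreach : StarReach (ES S) (starO Lv oe c) (Au c) B (starX rw lg c) (Tu c)
      (starW rw V nd₁ nd₂ S Fr Nr c) X A') {g T' : Set α} {z f : α}
    (hz : z ∈ Tu c ∪ starW rw V nd₁ nd₂ S Fr Nr c)
    (hzT : z ∉ SigT (starO Lv oe c) (starX rw lg c) (Tu c) X) (hf : f ∈ X l) (hfA : f ∉ A' z l)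
    (hg : ∀ x ∈ g, x ∈ X l ∧ x ∈ A' z l) (hTr : T' ⊆ Tr r)
    (hT' : T' ⊆ SigT (starO Lv oe c) (starX rw lg c) (Tu c) X)
    (hcR : ∀ s ∈ T', ∀ x ∈ X l, x ∉ A' z l → x ∈ Lv c s) {e d : α}
    (he : NearG (ES S) (starO Lv oe c) (starX rw lg c) (Tu c) l g e)
    (hd : NearG (ES S) (starO Lv oe c) (starX rw lg c) (Tu c) l g d)
    (hAe : AwC nd₁ Lv Aw oe r c l g e) (hAd : AwC nd₁ Lv Aw oe r c l g d)
    (hb : ∀ j k, j ≠ l → k ≠ l → j ≠ k → (∃ x ∈ X j, x ∉ Lv (oe c j) e) →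
      (∃ x ∈ X k, x ∉ Lv (oe c k) d) →
      (∃ b ∈ X j, b ∈ Lv (oe c j) e) ∨ ∃ b ∈ X k, b ∈ Lv (oe c k) d) :
    (∀ j, j ≠ l → ∀ x ∈ rw (lg c j), (x ∈ Lv (oe c j) e ↔ x ∈ Lv (oe c j) d)) ∨
      PWitD (ES S) (Lv (nd₁ r)) (Lv (nd₂ r)) (Aw r) g T' e d := by
  rcases hreach.pair_out (A'' := Lv (oe c l)) (h.starRun c) (h.starX_ne hr hc) hz hzT hf hfA hg
      ((h.rowEl hr hc hl).subset hTr) hT' hcR he hd hb (fun _ _ => Iff.rfl)
      (fun _ _ => Iff.rfl) with h1 | h1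
  · exact Or.inl h1
  · exact Or.inr (h.toRowG hr hc hl he.two hd.two hAe hAd h1)

/-- **(NS), a pair of near rungs, outer cell**: `z` = exit of the state, `g` is in its outer part. -/
theorem pair_out {l : Fin 3} (hl : lg c l = r) {X : Fin 3 → Set α} {A' : α → Fin 3 → Set α}
    (hreach : StarReach (ES S) (starO Lv oe c) (Au c) B (starX rw lg c) (Tu c)
      (starW rw V nd₁ nd₂ S Fr Nr c) X A') {g T' : Set α} {z f : α}
    (hz : z ∈ Tu c ∪ starW rw V nd₁ nd₂ S Fr Nr c)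
    (hzT : z ∉ SigT (starO Lv oe c) (starX rw lg c) (Tu c) X) (hf : f ∈ X l) (hfA : f ∉ A' z l)
    (hg : ∀ x ∈ g, x ∈ X l ∧ x ∈ A' z l) (hTr : T' ⊆ Tr r)
    (hT' : T' ⊆ SigT (starO Lv oe c) (starX rw lg c) (Tu c) X)
    (hcR : ∀ s ∈ T', ∀ x ∈ X l, x ∉ A' z l → x ∈ Lv c s) {e d : α}
    (he : e ∈ Nr c) (hd : d ∈ Nr c) (hse : ∃ x ∈ g, ∃ y ∈ g, x ≠ y ∧ S e x y)
    (hsd : ∃ x ∈ g, ∃ y ∈ g, x ≠ y ∧ S d x y) (h2e : TwoL rw Lv lg oe c e)
    (h2d : TwoL rw Lv lg oe c d)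
    (hb : ∀ j k, j ≠ l → k ≠ l → j ≠ k → (∃ x ∈ X j, x ∉ Lv (oe c j) e) →
      (∃ x ∈ X k, x ∉ Lv (oe c k) d) →
      (∃ b ∈ X j, b ∈ Lv (oe c j) e) ∨ ∃ b ∈ X k, b ∈ Lv (oe c k) d) :
    (∀ j, j ≠ l → ∀ x ∈ rw (lg c j), (x ∈ Lv (oe c j) e ↔ x ∈ Lv (oe c j) d)) ∨
      PWitD (ES S) (Lv (nd₁ r)) (Lv (nd₂ r)) (Aw r) g T' e d := by
  have hgX : g ⊆ X l := fun x hx => (hg x hx).1
  have hgr : g ⊆ rw r := by
    rw [← hl]
    exact hgX.trans (hreach.sub l)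
  have hz₀ : ∃ z₀, z₀ ∈ starW rw V nd₁ nd₂ S Fr Nr c := by
    rcases hreach.root_or with ⟨rfl, rfl⟩ | h1
    · rw [sigT_self] at hzT
      exact ⟨z, hz.resolve_left hzT⟩
    · exact h1
  obtain ⟨z₀, hz₀⟩ := hz₀
  exact h.pair_outG hr hc hl hreach hz hzT hf hfA hg hTr hT' hcR
    (h.nearG hr hc hz₀ hl hgr he hse h2e) (h.nearG hr hc hz₀ hl hgr hd hsd h2d)
    (h.awC hr hc hl hgr he hse) (h.awC hr hc hl hgr hd hsd) hb

/-! ### the classes of the exits of a state, on the row -/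

/-- real exits -/
theorem exitA_real {l : Fin 3} (hl : lg c l = r) {X : Fin 3 → Set α} {A' : α → Fin 3 → Set α}
    (hrun : StarRun (ES S) (starO Lv oe c) (Au c) B (starX rw lg c) (Tu c)
      (starW rw V nd₁ nd₂ S Fr Nr c) X A') {z : α} (hz : z ∈ starW rw V nd₁ nd₂ S Fr Nr c)
    (hs : SeeR rw S z r) {x : α} (hx : x ∈ rw r) :
    x ∈ Aw r z ↔ (nd₁ r = c ∧ x ∉ A' z l) ∨ (nd₁ r ≠ c ∧ x ∈ A' z l) := by
  rw [hrun.A'W z hz]
  exact h.awE r hr c hc l hl z hz.1 hz.2.1 hs x hx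

/-- near rungs of `c` which have left -/
theorem exitA_near {l : Fin 3} (hl : lg c l = r) {X : Fin 3 → Set α} {A' : α → Fin 3 → Set α}
    (hreach : StarReach (ES S) (starO Lv oe c) (Au c) B (starX rw lg c) (Tu c)
      (starW rw V nd₁ nd₂ S Fr Nr c) X A') {g : Set α} (hg : g ⊆ X l) {e : α} (he : e ∈ Nr c)
    (hse : ∃ x ∈ g, ∃ y ∈ g, x ≠ y ∧ S e x y) (h2e : TwoL rw Lv lg oe c e)
    (hle : e ∉ SigT (starO Lv oe c) (starX rw lg c) (Tu c) X) {x : α} (hx : x ∈ rw r) :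
    x ∈ Aw r e ↔ (nd₁ r = c ∧ x ∉ A' e l) ∨ (nd₁ r ≠ c ∧ x ∈ A' e l) := by
  have hgr : g ⊆ rw r := by
    rw [← hl]
    exact hg.trans (hreach.sub l)
  rcases hreach.root_or with ⟨rfl, rfl⟩ | ⟨z₀, hz₀⟩
  · rw [sigT_self] at hle
    exact absurd (h.near_T c e he) hle
  rw [hreach.near_exit hg (h.nearG hr hc hz₀ hl hgr he hse h2e) hle]
  obtain ⟨a, ha, b, hb, h1⟩ := hse
  exact h.awN r hr c hc l hl e he ⟨a, hgr ha, b, hgr hb, h1⟩ x hx

/-- same-row elements which have left -/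
theorem exitA_same {l : Fin 3} (hl : lg c l = r) {X : Fin 3 → Set α} {A' : α → Fin 3 → Set α}
    (hreach : StarReach (ES S) (starO Lv oe c) (Au c) B (starX rw lg c) (Tu c)
      (starW rw V nd₁ nd₂ S Fr Nr c) X A') {t : α} (ht : t ∈ Tr r)
    (hle : t ∉ SigT (starO Lv oe c) (starX rw lg c) (Tu c) X) (hpl : ∃ x ∈ X l, x ∉ A' t l)
    {x : α} (hx : x ∈ X l) : x ∈ A' t l ↔ x ∉ Lv c t := by
  have hrun := hreach.run (h.starRun c)
  have hne := fun j => hreach.nonempty (h.starX_ne hr hc) j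
  choose f hf using hne
  have hv : ∀ j, Function.update f l x j ∈ X j := by
    intro j
    by_cases hj : j = l
    · subst hj
      rw [Function.update_self]
      exact hx
    · rw [Function.update_of_ne hj]
      exact hf j
  have h1 := hrun.exit_centre (h.same_T r hr t ht c hc) hle hpl hv
  have h2 := (h.rowEl hr hc hl).rgt t ht _ (fun j => hreach.sub j (hv j))
  rw [Function.update_self] at h1 h2
  rw [h1, ← h2]

end LabFacts3

end TST
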