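import Pool.Agent.TST.StarCell
import Pool.Agent.TST.StarLab
import Pool.Agent.TST.LayState

/-!
# Swallowed labels of the label level (CLAIM A of T-star, near step; helper63)

A reachable state of the star of `c`, whose exits are constant on the legs other than `l`; the cut labels of
the row `lg c l` have no active tile in the state.  A label which is joined to a label touched by real
exits, by a path in the star of `c` which avoids the uncut labels of the row, is swallowed: its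
active tiles outside of a bounded set `D` are not in the state, and the members of its families at the
sets of six tiles outside of `D` are no elements of the state.
-/

set_option autoImplicit false

open Set

namespace TST

universe u v w

/-! ### six positions -/

/-- the inner tiles -/
def innQ (I : Finset ℕ) : Finset ℕ := I.filter fun a => (∃ b ∈ I, b < a) ∧ ∃ b ∈ I, a < b

/-- the window `x` with the two neighbouring positions -/
def Iw (x : ℕ) : Finset ℕ := Finset.Icc (5 * x) (5 * x + 5)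

lemma mem_Iw {x p : ℕ} : p ∈ Iw x ↔ 5 * x ≤ p ∧ p ≤ 5 * x + 5 := Finset.mem_Icc

lemma Iw_card (x : ℕ) : (Iw x).card = 6 := by
  unfold Iw
  rw [Nat.card_Icc]
  omega

lemma Iw_sub {x K : ℕ} (h : 5 * x + 5 < K) : Iw x ⊆ Finset.range K := by
  intro p hp
  rw [mem_Iw] at hp
  rw [Finset.mem_range]
  omega

lemma innQ_Iw (x : ℕ) : innQ (Iw x) = Qw x := by
  ext a
  unfold innQ
  rw [Finset.mem_filter, mem_Qw, mem_Iw]
  constructor
  · rintro ⟨h1, ⟨b, hb, hb'⟩, b', hb1, hb1'⟩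
    rw [mem_Iw] at hb hb1
    omega
  · intro h1
    exact ⟨by omega, ⟨5 * x, mem_Iw.2 (by omega), by omega⟩, 5 * x + 5, mem_Iw.2 (by omega),
      by omega⟩

lemma innQ_sub (I : Finset ℕ) : innQ I ⊆ I := Finset.filter_subset _ _

/-- the six tiles of `I` have the same places as the six positions of a window -/
lemma six_match {I : Finset ℕ} (hI : I.card = 6) (x : ℕ) : (innQ I).card = 4 ∧
    ∃ f : ℕ → ℕ, ∀ p, 5 * x ≤ p → p ≤ 5 * x + 5 →
      f p ∈ I ∧ qloc (innQ I) (f p) = qloc (Qw x) p ∧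
      ∀ q, 5 * x ≤ q → q ≤ 5 * x + 5 → (p < q ↔ f p < f q) := by
  classical
  obtain ⟨g, hg⟩ : ∃ g : Fin 6 ↪o ℕ, g = I.orderEmbOfFin hI := ⟨_, rfl⟩
  have gI : ∀ i, g i ∈ I := fun i => by rw [hg]; exact Finset.orderEmbOfFin_mem _ _ _
  have gr : ∀ a ∈ I, ∃ i, g i = a := by
    intro a ha
    have h1 : a ∈ Set.range (I.orderEmbOfFin hI) := by
      rw [Finset.range_orderEmbOfFin]
      exact ha
    rw [hg]
    exact h1
  have hin : innQ I = (Finset.univ.filter fun i : Fin 6 => 0 < i.val ∧ i.val < 5).map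
      g.toEmbedding := by
    ext a
    rw [innQ, Finset.mem_filter, Finset.mem_map]
    constructor
    · rintro ⟨h1, ⟨b, hb, hb'⟩, b', hb1, hb1'⟩
      obtain ⟨i, rfl⟩ := gr a h1
      obtain ⟨j, rfl⟩ := gr b hb
      obtain ⟨k, rfl⟩ := gr b' hb1
      rw [g.lt_iff_lt, Fin.lt_def] at hb' hb1'
      refine ⟨i, Finset.mem_filter.2 ⟨Finset.mem_univ _, ?_⟩, rfl⟩
      have := k.2
      omega
    · rintro ⟨i, hi, rfl⟩
      rw [Finset.mem_filter] at hi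
      refine ⟨gI i, ⟨g 0, gI 0, ?_⟩, g 5, gI 5, ?_⟩
      · show g 0 < g i
        rw [g.lt_iff_lt, Fin.lt_def]
        exact hi.2.1
      · show g i < g 5
        rw [g.lt_iff_lt, Fin.lt_def]
        exact hi.2.2
  have hc4 : (innQ I).card = 4 := by
    rw [hin, Finset.card_map]
    decide
  have hq : ∀ i : Fin 6, qloc (innQ I) (g i) = if i.val = 0 then 0 else
      if i.val = 5 then 8 else 2 * i.val - 1 := by
    intro i
    unfold qloc
    have h1 : ∀ P : ℕ → Prop, ∀ [DecidablePred P], ((innQ I).filter P).card =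
        ((Finset.univ.filter fun j : Fin 6 => 0 < j.val ∧ j.val < 5).filter
          fun j => P (g j)).card := by
      intro P _
      rw [hin, Finset.filter_map, Finset.card_map]
      rfl
    rw [h1 (fun y => y < g i), h1 (fun y => y ≤ g i)]
    simp only [g.lt_iff_lt, g.le_iff_le]
    revert i
    decide
  refine ⟨hc4, fun p => if h : p - 5 * x < 6 then g ⟨p - 5 * x, h⟩ else 0, ?_⟩
  intro p hp hp5
  have hv : ∀ q, 5 * x ≤ q → q ≤ 5 * x + 5 → ∃ h : q - 5 * x < 6,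
      (if h : q - 5 * x < 6 then g ⟨q - 5 * x, h⟩ else 0) = g ⟨q - 5 * x, h⟩ := by
    intro q h1 h2
    have h3 : q - 5 * x < 6 := by omega
    exact ⟨h3, dif_pos h3⟩
  obtain ⟨h1, h2⟩ := hv p hp hp5
  simp only [h2]
  refine ⟨gI _, ?_, ?_⟩
  · rw [hq, qloc_Qw]
    simp only
    split_ifs <;> omega
  · intro q hq1 hq2
    obtain ⟨h3, h4⟩ := hv q hq1 hq2
    simp only [h4, g.lt_iff_lt, Fin.mk_lt_mk]
    omega

/-! ### the core -/

section

variable {α : Type u} {β : Type v} {ν : Type w} {rw : β → Set α} {V : Set β} {nd₁ nd₂ : β → ν}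
  {S : α → α → α → Prop} {Dg Fr On Dt : Set α} {Nr : ν → Set α} {Tr : β → Set α}
  {Tu : ν → Set α} {Lv : ν → α → Set α} {Aw : β → α → Set α} {Au : ν → α → Fin 3 → Set α}
  {B : α → α → α → α → Prop} {lg : ν → Fin 3 → β} {oe : ν → Fin 3 → ν} {fr : α → Bool → β}
  {r₀ : α → β} {ct : α → ν}

lemma swES {t x y : α} (h : ¬ ES S t x y) : x ≠ y ∧ S t x y :=
  ⟨fun h1 => h (Or.inl h1), by_contra fun h1 => h (Or.inr h1)⟩

/-- a member which splits a label sees its row -/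
lemma Spl.see {C : ℕ → ℕ → α} {J : Finset ℕ} {M i : ℕ} {φ : Finset ℕ → α} {r : β}
    (h : Spl (ES S) C J M φ i) (hC : ∀ a ∈ J, C i a ∈ rw r) : AllM J M fun I => SeeR rw S (φ I) r := by
  intro I hI hIM
  obtain ⟨a, ha, b, hb, hab⟩ := h I hI hIM
  obtain ⟨h1, h2⟩ := swES hab
  exact ⟨_, hC a (hI ha), _, hC b (hI hb), h1, h2⟩

/-- **Swallowed labels of the star of `c`.**  `Sp e i` = the family `e` splits the label `i`. -/
theorem LabFacts3.swallowG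
    (h : LabFacts3 rw V nd₁ nd₂ S Dg Fr On Dt Nr Tr Tu Lv Aw Au B lg oe fr r₀ ct)
    {r : β} {c : ν} (hr : r ∈ V) (hc : At nd₁ nd₂ r c) {X : Fin 3 → Set α}
    {m K : ℕ} (hK : 6 ≤ K) {R : ℕ → β} {C : ℕ → ℕ → α}
    (hC : ∀ i < m, R i ∈ V → ∀ a < K, C i a ∈ rw (R i)) {J : Finset ℕ}
    (hJ : J ⊆ Finset.range K) {Cut : Set ℕ}
    (hfree : ∀ q < m, ∀ j, lg c j = R q → AvG R Cut r q →
      QtL (ES S) (starO Lv oe c) (starX rw lg c) (Tu c) (starW rw V nd₁ nd₂ S Fr Nr c) X j ∨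
      ∀ a ∈ J, C q a ∉ X j)
    {FarF SameF : ℕ → Prop} {NearF : ν → ℕ → Prop} {Sp : ℕ → ℕ → Prop} {F : ℕ → Finset ℕ → α}
    (hlab : ∀ e i, Sp e i → i < m ∧ R i ∈ V)
    (hSp : ∀ e i, (FarF e ∨ SameF e ∨ ∃ y, NearF y e) → Sp e i →
      Spl (ES S) C (Finset.range K) 6 (F e) i)
    (hNr : ∀ e i, NearF c e → Sp e i → At nd₁ nd₂ (R i) c)
    (gW : ∀ e i, (FarF e ∨ ∃ y, y ≠ c ∧ NearF y e) → Sp e i → At nd₁ nd₂ (R i) c →
      AllM (Finset.range K) 6 fun I => F e I ∈ starW rw V nd₁ nd₂ S Fr Nr c)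
    (gT : ∀ e i, (NearF c e ∨ SameF e) → Sp e i → At nd₁ nd₂ (R i) c →
      AllM (Finset.range K) 6 fun I => F e I ∈ Tu c) :
    ∃ D : Finset ℕ, D.card ≤ 5 * m ∧ D ⊆ J ∧ ∀ p b,
      ExG nd₁ nd₂ R (PairG FarF Sp) (fun y => PairG (NearF y) Sp) c p →
      PathG nd₁ nd₂ R (SameG R SameF Sp) (fun y => PairG (NearF y) Sp) Cut r c p b →
      (b < m ∧ R b ∈ V ∧ At nd₁ nd₂ (R b) c) ∧
      (∀ j, lg c j = R b → ∀ a ∈ J, a ∉ D → C b a ∉ X j) ∧
      ∀ φ : Finset ℕ → α, Spl (ES S) C J 6 φ b → AllM J 6 fun I => Disjoint I D →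
        φ I ∉ SigT (starO Lv oe c) (starX rw lg c) (Tu c) X := by
  classical
  by_cases hz : ∃ z, z ∈ starW rw V nd₁ nd₂ S Fr Nr c
  swap
  · -- no exits
    refine ⟨∅, by simp, Finset.empty_subset _, ?_⟩
    rintro p b ⟨hat, hp⟩ -
    exfalso
    have h6 : (Finset.range 6) ⊆ Finset.range K := Finset.range_subset_range.2 hK
    rcases hp with ⟨j, e, h1, h2, -⟩ | ⟨y, hy, j, e, h1, h2, -⟩
    · exact hz ⟨_, gW e p (Or.inl h1) h2 hat _ h6 (Finset.card_range 6)⟩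
    · exact hz ⟨_, gW e p (Or.inr ⟨y, hy, h1⟩) h2 hat _ h6 (Finset.card_range 6)⟩
  obtain ⟨z₀, hz₀⟩ := hz
  have hrun := h.starRun c
  have hrel := rel_of_root (h.starWit hz₀)
  have hleg : ∀ q, R q ∈ V → At nd₁ nd₂ (R q) c → ∃ j, lg c j = R q := fun q h1 h2 =>
    (h.legs r hr c hc).all _ h1 h2
  obtain ⟨L, hL⟩ : ∃ L : ℕ → Fin 3, ∀ q, R q ∈ V → At nd₁ nd₂ (R q) c → lg c (L q) = R q := by
    have h1 : ∀ q, ∃ j, (R q ∈ V → At nd₁ nd₂ (R q) c → lg c j = R q) := by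
      intro q
      by_cases h2 : R q ∈ V ∧ At nd₁ nd₂ (R q) c
      · obtain ⟨j, hj⟩ := hleg q h2.1 h2.2
        exact ⟨j, fun _ _ => hj⟩
      · exact ⟨0, fun h3 h4 => absurd ⟨h3, h4⟩ h2⟩
    choose L hL using h1
    exact ⟨L, hL⟩
  obtain ⟨St, hSt⟩ : ∃ St : Finset ℕ, St = (Finset.range m).filter fun q => R q ∈ V ∧
      At nd₁ nd₂ (R q) c := ⟨_, rfl⟩
  have memSt : ∀ q, q ∈ St ↔ q < m ∧ R q ∈ V ∧ At nd₁ nd₂ (R q) c := by
    intro q
    rw [hSt, Finset.mem_filter, Finset.mem_range]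
  have hcX : ∀ q ∈ St, ∀ a ∈ J, C q a ∈ starX rw lg c (L q) := by
    intro q hq a ha
    obtain ⟨h1, h2, h3⟩ := (memSt q).1 hq
    show C q a ∈ rw (lg c (L q))
    rw [hL q h2 h3]
    exact hC q h1 h2 a (Finset.mem_range.1 (hJ ha))
  -- a label which avoids the uncut labels of the row
  have hav : ∀ q ∈ St, AvG R Cut r q → QtL (ES S) (starO Lv oe c) (starX rw lg c) (Tu c)
      (starW rw V nd₁ nd₂ S Fr Nr c) X (L q) ∨ ∀ a ∈ J, C q a ∉ X (L q) := by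
    intro q hqS hq'
    obtain ⟨h1, h2, h3⟩ := (memSt q).1 hqS
    exact hfree q h1 _ (hL q h2 h3) hq'
  have hBa : ∀ p, ExG nd₁ nd₂ R (PairG FarF Sp) (fun y => PairG (NearF y) Sp) c p ∧
      AvG R Cut r p → p ∈ St ∧ (QtL (ES S) (starO Lv oe c) (starX rw lg c) (Tu c)
        (starW rw V nd₁ nd₂ S Fr Nr c) X (L p) ∨ ∀ a ∈ J, C p a ∉ X (L p)) ∧
      ∃ φ : Finset ℕ → α, (AllM J 6 fun I => φ I ∈ starW rw V nd₁ nd₂ S Fr Nr c) ∧
        Spl (ES S) C J 6 φ p := by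
    rintro p ⟨⟨hat, hp⟩, hpav⟩
    have key : ∃ e, (FarF e ∨ ∃ y, y ≠ c ∧ NearF y e) ∧ Sp e p := by
      rcases hp with ⟨j, e, h1, h2, -⟩ | ⟨y, hy, j, e, h1, h2, -⟩
      · exact ⟨e, Or.inl h1, h2⟩
      · exact ⟨e, Or.inr ⟨y, hy, h1⟩, h2⟩
    obtain ⟨e, h1, h2⟩ := key
    obtain ⟨h3, h4⟩ := hlab e p h2
    have hpS : p ∈ St := (memSt p).2 ⟨h3, h4, hat⟩
    have h5 : FarF e ∨ SameF e ∨ ∃ y, NearF y e := by
      rcases h1 with h1 | ⟨y, -, h1⟩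
      exacts [Or.inl h1, Or.inr (Or.inr ⟨y, h1⟩)]
    exact ⟨hpS, hav p hpS hpav, F e, (gW e p h1 h2 hat).mono hJ, (hSp e p h5 h2).mono hJ⟩
  have hEd : ∀ p q, (At nd₁ nd₂ (R p) c ∧
      StG nd₁ nd₂ R (SameG R SameF Sp) (fun y => PairG (NearF y) Sp) c p q ∧ AvG R Cut r p ∧
      AvG R Cut r q) → q ∈ St ∧ (QtL (ES S) (starO Lv oe c) (starX rw lg c) (Tu c)
        (starW rw V nd₁ nd₂ S Fr Nr c) X (L q) ∨ ∀ a ∈ J, C q a ∉ X (L q)) ∧
      ∃ φ : Finset ℕ → α, (AllM J 6 fun I => φ I ∈ Tu c ∪ starW rw V nd₁ nd₂ S Fr Nr c) ∧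
        Spl (ES S) C J 6 φ p ∧ Spl (ES S) C J 6 φ q := by
    rintro p q ⟨hat, hst, -, hqav⟩
    have key : ∃ e, (NearF c e ∨ SameF e) ∧ Sp e p ∧ Sp e q ∧ At nd₁ nd₂ (R q) c := by
      rcases hst with ⟨⟨h1, e, h2, h3, h4⟩, h5⟩ | ⟨e, h2, h3, h4⟩
      · exact ⟨e, Or.inr h2, h3, h4, by rw [← h1]; exact hat⟩
      · exact ⟨e, Or.inl h2, h3, h4, hNr e q h2 h4⟩
    obtain ⟨e, h1, h2, h3, h4⟩ := key
    obtain ⟨h5, h6⟩ := hlab e q h3
    have hqS : q ∈ St := (memSt q).2 ⟨h5, h6, h4⟩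
    have h7 : FarF e ∨ SameF e ∨ ∃ y, NearF y e := by
      rcases h1 with h1 | h1
      exacts [Or.inr (Or.inr ⟨c, h1⟩), Or.inr (Or.inl h1)]
    refine ⟨hqS, hav q hqS hqav, F e, ?_, (hSp e p h7 h2).mono hJ, (hSp e q h7 h3).mono hJ⟩
    exact fun I hI hI6 => Or.inl (gT e p h1 h2 hat I (hI.trans hJ) hI6)

  obtain ⟨D, hD, hDJ, hsw⟩ := swallow hrun.dis hrel (by norm_num) hcX hBa hEd
  refine ⟨D, hD.trans ?_, hDJ, ?_⟩
  · have h1 : St.card ≤ m := by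
      rw [hSt]
      exact (Finset.card_filter_le _ _).trans (Finset.card_range m).le
    exact Nat.mul_le_mul_left 5 h1
  · intro p b hp hpb
    have hpath : Relation.ReflTransGen (fun p q => At nd₁ nd₂ (R p) c ∧
        StG nd₁ nd₂ R (SameG R SameF Sp) (fun y => PairG (NearF y) Sp) c p q ∧ AvG R Cut r p ∧
        AvG R Cut r q) p b ∧ At nd₁ nd₂ (R b) c := by
      have h1 := hpb.2
      induction h1 with
      | refl => exact ⟨Relation.ReflTransGen.refl, hp.1⟩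
      | @tail x y h2 h3 ih =>
        obtain ⟨h4, h5⟩ := ih ⟨hpb.1, h2⟩
        refine ⟨h4.tail ⟨h5, h3⟩, ?_⟩
        rcases h3.1 with ⟨⟨h6, -⟩, -⟩ | ⟨e, h6, h7, h8⟩
        · rw [← h6]
          exact h5
        · exact hNr e y h6 h8
    obtain ⟨hbS, hbX⟩ := hsw p b ⟨hp, hpb.1⟩ hpath.1
    obtain ⟨h1, h2, h3⟩ := (memSt b).1 hbS
    refine ⟨⟨h1, h2, h3⟩, ?_, ?_⟩
    · intro j hj a ha haD
      have h4 : j = L b := (h.legs r hr c hc).inj _ _ (hj.trans (hL b h2 h3).symm)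
      rw [h4]
      exact hbX a ha haD
    · intro φ hφ I hI hI6 hID
      exact not_sigT hrel (hcX b hbS) hbX hφ hI hI6 hID
/-! ### the families -/

/-- an exit of the star of `c` is no near rung of `c`: far rungs -/
lemma LabFacts3.far_starW
    (h : LabFacts3 rw V nd₁ nd₂ S Dg Fr On Dt Nr Tr Tu Lv Aw Au B lg oe fr r₀ ct) {c : ν} {z : α}
    {r : β} (hr : r ∈ V) (hc : At nd₁ nd₂ r c) (hz : z ∈ Fr) (hs : SeeR rw S z r) :
    z ∈ starW rw V nd₁ nd₂ S Fr Nr c := by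
  refine ⟨Or.inl hz, fun h1 => ?_, r, hr, hc, hs⟩
  have h2 := fun i => h.near_see c z h1 _ (h.far_V z hz i).1 (h.far_V z hz i).2
  exact h.far_dis z hz c (h2 false) (h2 true)

/-- an exit of the star of `c` is no near rung of `c`: near rungs of another vertex -/
lemma LabFacts3.near_starW
    (h : LabFacts3 rw V nd₁ nd₂ S Dg Fr On Dt Nr Tr Tu Lv Aw Au B lg oe fr r₀ ct) {c y : ν} {z : α}
    {r : β} (hr : r ∈ V) (hc : At nd₁ nd₂ r c) (hz : z ∈ Nr y) (hy : y ≠ c) (hs : SeeR rw S z r) :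
    z ∈ starW rw V nd₁ nd₂ S Fr Nr c := by
  exact ⟨Or.inr ⟨y, hz⟩, fun h1 => hy (h.near_ne y c z hz h1), r, hr, hc, hs⟩

variable {m K : ℕ} {R : ℕ → β} {C : ℕ → ℕ → α} {γ : Set ℕ} {w : ℕ → Finset ℕ → α}
  {ki kj kk : ℕ → ℕ}

/-- one window is enough, for all sets of six tiles -/
theorem LabFam.spl6 (hf : LabFam V nd₁ nd₂ S Dg Fr On Dt Nr Tr Lv Aw ct m K R C γ w ki kj kk)
    {e k x : ℕ} (he : e ∈ γ) (hk : k < m) (hx : 5 * x + 5 < K)
    (hs : SeeW (ES S) C (w e (Qw x)) k x)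
    (hinj : ∀ a < K, ∀ b < K, C k a = C k b → a = b) :
    Spl (ES S) C (Finset.range K) 6 (fun I => w e (innQ I)) k := by
  intro I hI hI6
  obtain ⟨p, q, hp1, hp2, hq1, hq2, hpq⟩ := hs
  obtain ⟨h4, f, hf6⟩ := six_match hI6 x
  obtain ⟨a1, a2, a3⟩ := hf6 p hp1 hp2
  obtain ⟨b1, b2, b3⟩ := hf6 q hq1 hq2
  have hK : ∀ a ∈ I, a < K := fun a ha => Finset.mem_range.1 (hI ha)
  refine ⟨f p, a1, f q, b1, ?_⟩
  obtain ⟨h1, h2⟩ := swES hpq
  rintro (h5 | h5)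
  · have h6 := hinj _ (hK _ a1) _ (hK _ b1) h5
    have h7 := a3 q hq1 hq2
    have h8 := b3 p hp1 hp2
    rw [h6] at h7 h8
    have h9 : p = q := by omega
    exact h1 (by rw [h9])
  · exact h5 ((hf.hom e he k hk (Qw x) (Qw_sub hx) (Qw_card x) (innQ I)
      ((innQ_sub I).trans hI) h4 p (by omega) q (by omega) (f p) (hK _ a1) (f q) (hK _ b1)
      a2.symm b2.symm (a3 q hq1 hq2) (b3 p hp1 hp2)).1 h2)

/-- the split labels of a family of tiles in `Q` -/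
theorem LabFam.splF_ki (hf : LabFam V nd₁ nd₂ S Dg Fr On Dt Nr Tr Lv Aw ct m K R C γ w ki kj kk)
    {e : ℕ} (he : e ∈ γ) (hinj : ∀ k < m, ∀ a < K, ∀ b < K, C k a = C k b → a = b) :
    SplF V S m K R C w e (ki e) ∧ SplF V S m K R C w e (kj e) := by
  obtain ⟨-, hi, hj⟩ := hf.ran e he
  have key : ∀ k, k < m → R k ∈ V → (∀ Q ⊆ Finset.range K, Q.card = 4 → SnQ S C Q (w e Q) k) →
      SplF V S m K R C w e k := by
    intro k hk hkV h1
    refine ⟨⟨hk, hkV⟩, fun x hx => ?_⟩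
    obtain ⟨a, ha, b, hb, hab, h2⟩ := h1 (Qw x) (Qw_sub hx) (Qw_card x)
    rw [mem_Qw] at ha hb
    refine ⟨a, b, by omega, by omega, by omega, by omega, ?_⟩
    rintro (h3 | h3)
    · exact hab (hinj k hk a (by omega) b (by omega) h3)
    · exact h3 h2
  exact ⟨key _ hi.1 hi.2 fun Q hQ hQc => (hf.wit e he Q hQ hQc).2.2.1,
    key _ hj.1 hj.2 fun Q hQ hQc => (hf.wit e he Q hQ hQc).2.2.2⟩

/-- members of the far families -/
lemma LabFam.farK_mem (hf : LabFam V nd₁ nd₂ S Dg Fr On Dt Nr Tr Lv Aw ct m K R C γ w ki kj kk)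
    {e : ℕ} (he : FarK γ kk e) {Q : Finset ℕ} (hQ : Q ⊆ Finset.range K) (hQc : Q.card = 4) :
    w e Q ∈ Fr := by
  obtain ⟨he, hk⟩ := he
  obtain ⟨-, h1, -⟩ := hf.wit e he Q hQ hQc
  rw [hk] at h1
  rcases h1 with h1 | h1 | h1 | h1 | h1 | h1 | h1
  · exact h1.2
  all_goals exact absurd h1.1 (by norm_num)

/-- members of the same-row families -/
lemma LabFam.sameK_mem (hf : LabFam V nd₁ nd₂ S Dg Fr On Dt Nr Tr Lv Aw ct m K R C γ w ki kj kk)
    {e : ℕ} (he : SameK γ kk e) {Q : Finset ℕ} (hQ : Q ⊆ Finset.range K) (hQc : Q.card = 4) :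
    w e Q ∈ Tr (R (ki e)) := by
  obtain ⟨he, hk⟩ := he
  obtain ⟨-, h1, -⟩ := hf.wit e he Q hQ hQc
  rw [hk] at h1
  rcases h1 with h1 | h1 | h1 | h1 | h1 | h1 | h1
  · exact absurd h1.1 (by norm_num)
  · exact absurd h1.1 (by norm_num)
  · exact absurd h1.1 (by norm_num)
  · exact h1.2
  all_goals exact absurd h1.1 (by norm_num)

/-- members of the near families -/
lemma LabFam.nearK_mem (hf : LabFam V nd₁ nd₂ S Dg Fr On Dt Nr Tr Lv Aw ct m K R C γ w ki kj kk)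
    {y : ν} {e : ℕ} (he : NearK nd₁ nd₂ R γ ki kk y e) {Q : Finset ℕ} (hQ : Q ⊆ Finset.range K)
    (hQc : Q.card = 4) : w e Q ∈ Nr y := by
  obtain ⟨he, hk⟩ := he
  obtain ⟨-, h1, -⟩ := hf.wit e he Q hQ hQc
  rcases hk with ⟨hk, rfl⟩ | ⟨hk, rfl⟩
  · rw [hk] at h1
    rcases h1 with h1 | h1 | h1 | h1 | h1 | h1 | h1
    · exact absurd h1.1 (by norm_num)
    · exact h1.2
    all_goals exact absurd h1.1 (by norm_num)
  · rw [hk] at h1
    rcases h1 with h1 | h1 | h1 | h1 | h1 | h1 | h1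
    · exact absurd h1.1 (by norm_num)
    · exact absurd h1.1 (by norm_num)
    · exact h1.2
    all_goals exact absurd h1.1 (by norm_num)

/-- a member which splits a label sees its row -/
lemma SplF.see {e k x : ℕ} (hs : SplF V S m K R C w e k)
    (hC : ∀ i < m, R i ∈ V → ∀ a < K, C i a ∈ rw (R i)) (hx : 5 * x + 5 < K) :
    SeeR rw S (w e (Qw x)) (R k) := by
  obtain ⟨p, q, hp1, hp2, hq1, hq2, hpq⟩ := hs.2 x hx
  obtain ⟨h1, h2⟩ := swES hpq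
  exact ⟨_, hC k hs.1.1 hs.1.2 p (by omega), _, hC k hs.1.1 hs.1.2 q (by omega), h1, h2⟩

/-- **Swallowed labels of the star of `c`, for the Ramsey families**; `J` = active tiles, `x` is a window
of active tiles outside of `D`. -/
theorem LabFacts3.swallowF
    (h : LabFacts3 rw V nd₁ nd₂ S Dg Fr On Dt Nr Tr Tu Lv Aw Au B lg oe fr r₀ ct)
    (hf : LabFam V nd₁ nd₂ S Dg Fr On Dt Nr Tr Lv Aw ct m K R C γ w ki kj kk) (hK : 6 ≤ K)
    (hC : ∀ i < m, R i ∈ V → ∀ a < K, C i a ∈ rw (R i))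
    (hinj : ∀ k < m, ∀ a < K, ∀ b < K, C k a = C k b → a = b)
    {r : β} {c : ν} (hr : r ∈ V) (hc : At nd₁ nd₂ r c) {Y : Fin 3 → Set α}
    {J : Finset ℕ} (hJ : J ⊆ Finset.range K) {Cut : Set ℕ}
    (hfree : ∀ q < m, ∀ j, lg c j = R q → AvG R Cut r q →
      QtL (ES S) (starO Lv oe c) (starX rw lg c) (Tu c) (starW rw V nd₁ nd₂ S Fr Nr c) Y j ∨
      ∀ a ∈ J, C q a ∉ Y j) :
    ∃ D : Finset ℕ, D.card ≤ 5 * m ∧ D ⊆ J ∧ ∀ p b,
      ExG nd₁ nd₂ R (PairG (FarK γ kk) (SplF V S m K R C w))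
        (fun y => PairG (NearK nd₁ nd₂ R γ ki kk y) (SplF V S m K R C w)) c p →
      PathG nd₁ nd₂ R (SameG R (SameK γ kk) (SplF V S m K R C w))
        (fun y => PairG (NearK nd₁ nd₂ R γ ki kk y) (SplF V S m K R C w)) Cut r c p b →
      (b < m ∧ R b ∈ V ∧ At nd₁ nd₂ (R b) c) ∧
      (∀ j, lg c j = R b → ∀ a ∈ J, a ∉ D → C b a ∉ Y j) ∧
      (∀ φ : Finset ℕ → α, Spl (ES S) C J 6 φ b → AllM J 6 fun I => Disjoint I D →
        φ I ∉ SigT (starO Lv oe c) (starX rw lg c) (Tu c) Y) ∧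
      ∀ e ∈ γ, SplF V S m K R C w e b → ∀ x, (∀ a, 5 * x ≤ a → a ≤ 5 * x + 5 → a ∈ J ∧ a ∉ D) →
        w e (Qw x) ∉ SigT (starO Lv oe c) (starX rw lg c) (Tu c) Y := by
  classical
  -- the members of the families
  have inn4 : ∀ I ⊆ Finset.range K, I.card = 6 → innQ I ⊆ Finset.range K ∧ (innQ I).card = 4 :=
    fun I hI hI6 => ⟨(innQ_sub I).trans hI, (six_match hI6 0).1⟩
  have spl : ∀ e i, e ∈ γ → SplF V S m K R C w e i →
      Spl (ES S) C (Finset.range K) 6 (fun I => w e (innQ I)) i := fun e i he hs =>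
    hf.spl6 he hs.1.1 (show 5 * 0 + 5 < K by omega) (hs.2 0 (by omega)) (hinj i hs.1.1)
  have see : ∀ e i, e ∈ γ → SplF V S m K R C w e i →
      AllM (Finset.range K) 6 fun I => SeeR rw S (w e (innQ I)) (R i) := fun e i he hs =>
    (spl e i he hs).see fun a ha => hC i hs.1.1 hs.1.2 a (Finset.mem_range.1 ha)
  obtain ⟨D, hD, hDJ, key⟩ := h.swallowG hr hc hK hC hJ hfree (FarF := FarK γ kk) (SameF := SameK γ kk)
    (NearF := NearK nd₁ nd₂ R γ ki kk) (Sp := SplF V S m K R C w)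
    (F := fun e I => w e (innQ I)) (fun e i hs => hs.1)
    (by
      rintro e i (h1 | h1 | ⟨y, h1⟩) hs
      exacts [spl e i h1.1 hs, spl e i h1.1 hs, spl e i h1.1 hs])
    (by
      intro e i h1 hs
      have h6 : (Finset.range 6) ⊆ Finset.range K := Finset.range_subset_range.2 hK
      obtain ⟨h2, h3⟩ := inn4 _ h6 (Finset.card_range 6)
      exact h.near_see c _ (hf.nearK_mem h1 h2 h3) _ hs.1.2
        (see e i h1.1 hs _ h6 (Finset.card_range 6)))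
    (by
      rintro e i h1 hs hat I hI hI6
      obtain ⟨h2, h3⟩ := inn4 I hI hI6
      rcases h1 with h1 | ⟨y, hy, h1⟩
      · exact h.far_starW hs.1.2 hat (hf.farK_mem h1 h2 h3) (see e i h1.1 hs I hI hI6)
      · exact h.near_starW hs.1.2 hat (hf.nearK_mem h1 h2 h3) hy (see e i h1.1 hs I hI hI6))
    (by
      rintro e i h1 hs hat I hI hI6
      obtain ⟨h2, h3⟩ := inn4 I hI hI6
      rcases h1 with h1 | h1
      · exact h.near_T c _ (hf.nearK_mem h1 h2 h3)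
      · have h4 := hf.sameK_mem h1 h2 h3
        have h5 := (hf.ran e h1.1).2.1
        have h6 := h.same_see _ h5.2 _ h4 _ hs.1.2 (see e i h1.1 hs I hI hI6)
        exact h.same_T _ h5.2 _ h4 c (by rw [← h6]; exact hat))
  refine ⟨D, hD, hDJ, ?_⟩
  intro p b hp hpb
  obtain ⟨h1, h2, h3⟩ := key p b hp hpb
  refine ⟨h1, h2, h3, ?_⟩
  intro e he hs x hx
  have h4 : Iw x ⊆ J := fun a ha => (hx a (mem_Iw.1 ha).1 (mem_Iw.1 ha).2).1
  have h5 : Disjoint (Iw x) D := by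
    rw [Finset.disjoint_left]
    exact fun a ha => (hx a (mem_Iw.1 ha).1 (mem_Iw.1 ha).2).2
  have h6 := h3 (fun I => w e (innQ I)) ((spl e b he hs).mono hJ) (Iw x) h4 (Iw_card x) h5
  rwa [innQ_Iw] at h6

/-- **Swallowed labels for an innermost cell** `X` of the leg `l` of the star of `c`; `J` = active tiles.
`x` is a window of active tiles outside of `D`. -/
theorem LabFacts3.swallowIn
    (h : LabFacts3 rw V nd₁ nd₂ S Dg Fr On Dt Nr Tr Tu Lv Aw Au B lg oe fr r₀ ct)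
    (hf : LabFam V nd₁ nd₂ S Dg Fr On Dt Nr Tr Lv Aw ct m K R C γ w ki kj kk) (hK : 6 ≤ K)
    (hC : ∀ i < m, R i ∈ V → ∀ a < K, C i a ∈ rw (R i))
    (hinj : ∀ k < m, ∀ a < K, ∀ b < K, C k a = C k b → a = b)
    {r : β} {c : ν} (hr : r ∈ V) (hc : At nd₁ nd₂ r c) {l : Fin 3} (hl : lg c l = r)
    {X : Set α} {Y : Fin 3 → Set α} {A' : α → Fin 3 → Set α}
    (hst : StIn (ES S) (starO Lv oe c) (Au c) B (starX rw lg c) (Tu c)
      (starW rw V nd₁ nd₂ S Fr Nr c) l X Y A')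
    {J : Finset ℕ} (hJ : J ⊆ Finset.range K) {Cut : Set ℕ}
    (hcut : ∀ k ∈ Cut, k < m → R k = r → ∀ a ∈ J, C k a ∉ X) :
    ∃ D : Finset ℕ, D.card ≤ 5 * m ∧ D ⊆ J ∧ ∀ p b,
      ExG nd₁ nd₂ R (PairG (FarK γ kk) (SplF V S m K R C w))
        (fun y => PairG (NearK nd₁ nd₂ R γ ki kk y) (SplF V S m K R C w)) c p →
      PathG nd₁ nd₂ R (SameG R (SameK γ kk) (SplF V S m K R C w))
        (fun y => PairG (NearK nd₁ nd₂ R γ ki kk y) (SplF V S m K R C w)) Cut r c p b →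
      (b < m ∧ R b ∈ V ∧ At nd₁ nd₂ (R b) c) ∧
      (∀ j, lg c j = R b → ∀ a ∈ J, a ∉ D → C b a ∉ Y j) ∧
      (∀ φ : Finset ℕ → α, Spl (ES S) C J 6 φ b → AllM J 6 fun I => Disjoint I D →
        φ I ∉ SigT (starO Lv oe c) (starX rw lg c) (Tu c) Y) ∧
      ∀ e ∈ γ, SplF V S m K R C w e b → ∀ x, (∀ a, 5 * x ≤ a → a ≤ 5 * x + 5 → a ∈ J ∧ a ∉ D) →
        w e (Qw x) ∉ SigT (starO Lv oe c) (starX rw lg c) (Tu c) Y := by
  refine h.swallowF hf hK hC hinj hr hc hJ ?_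
  intro q hq j hj hav
  by_cases h1 : j = l
  · right
    subst h1
    have h2 : R q = r := by rw [← hj, hl]
    rw [hst.leg]
    exact hcut q (hav h2) hq h2
  · exact Or.inl fun v hv => hst.oth v hv j h1

/-- **The elements of a star which split a label reachable from the real exits have at most two
places** (unrestricted form, for the near rungs of the reference list and for degenerate tripods). -/
theorem LabFacts3.swallowNear
    (h : LabFacts3 rw V nd₁ nd₂ S Dg Fr On Dt Nr Tr Tu Lv Aw Au B lg oe fr r₀ ct)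
    (hf : LabFam V nd₁ nd₂ S Dg Fr On Dt Nr Tr Lv Aw ct m K R C γ w ki kj kk) (hK : 6 ≤ K)
    (hC : ∀ i < m, R i ∈ V → ∀ a < K, C i a ∈ rw (R i))
    (hinj : ∀ k < m, ∀ a < K, ∀ b < K, C k a = C k b → a = b)
    {r : β} {c : ν} (hr : r ∈ V) (hc : At nd₁ nd₂ r c) {J : Finset ℕ} (hJ : J ⊆ Finset.range K) :
    ∃ D : Finset ℕ, D.card ≤ 5 * m ∧ D ⊆ J ∧ ∀ p b,
      ExG nd₁ nd₂ R (PairG (FarK γ kk) (SplF V S m K R C w))
        (fun y => PairG (NearK nd₁ nd₂ R γ ki kk y) (SplF V S m K R C w)) c p →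
      Relation.ReflTransGen (StG nd₁ nd₂ R (SameG R (SameK γ kk) (SplF V S m K R C w))
        (fun y => PairG (NearK nd₁ nd₂ R γ ki kk y) (SplF V S m K R C w)) c) p b →
      (b < m ∧ R b ∈ V ∧ At nd₁ nd₂ (R b) c) ∧
      ∀ e ∈ γ, SplF V S m K R C w e b → ∀ x, (∀ a, 5 * x ≤ a → a ≤ 5 * x + 5 → a ∈ J ∧ a ∉ D) →
        w e (Qw x) ∈ Tu c → NearT (starO Lv oe c) (starX rw lg c) (w e (Qw x)) →
        Near2 (ES S) (starO Lv oe c) B (starX rw lg c) (w e (Qw x)) := by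
  obtain ⟨Y, A', hreach, hquiet⟩ := exists_quiet (h.starRun c) (h.starX_fin hr hc)
  obtain ⟨D, hD, hDJ, key⟩ := h.swallowF hf hK hC hinj hr hc hJ (Y := Y) (Cut := univ)
    fun q _ j _ _ => Or.inl (hquiet j)
  refine ⟨D, hD, hDJ, ?_⟩
  intro p b hp hpb
  have hav : ∀ q, AvG R univ r q := fun q _ => mem_univ q
  obtain ⟨h1, -, -, h4⟩ := key p b hp ⟨hav p, Relation.ReflTransGen.mono
    (fun x y h5 => ⟨h5, hav x, hav y⟩) _ _ hpb⟩
  refine ⟨h1, ?_⟩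
  intro e he hs x hx hT hn
  have h5 := h4 e he hs x hx
  have hz : ∃ z, z ∈ starW rw V nd₁ nd₂ S Fr Nr c := by
    rcases hreach.root_or with ⟨rfl, -⟩ | h6
    · rw [sigT_self] at h5
      exact absurd hT h5
    · exact h6
  obtain ⟨z, hz⟩ := hz
  exact hreach.near2 (h.starWit hz) (h.starX_ne hr hc) hT h5 hn

/-- **Near families which split a label reachable from the real exits have exactly two places.** -/
theorem LabFacts3.swallowTwo
    (h : LabFacts3 rw V nd₁ nd₂ S Dg Fr On Dt Nr Tr Tu Lv Aw Au B lg oe fr r₀ ct)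
    (hf : LabFam V nd₁ nd₂ S Dg Fr On Dt Nr Tr Lv Aw ct m K R C γ w ki kj kk) (hK : 6 ≤ K)
    (hC : ∀ i < m, R i ∈ V → ∀ a < K, C i a ∈ rw (R i))
    (hinj : ∀ k < m, ∀ a < K, ∀ b < K, C k a = C k b → a = b)
    {r : β} {c : ν} (hr : r ∈ V) (hc : At nd₁ nd₂ r c) {J : Finset ℕ} (hJ : J ⊆ Finset.range K) :
    ∃ D : Finset ℕ, D.card ≤ 5 * m ∧ D ⊆ J ∧ ∀ p b,
      ExG nd₁ nd₂ R (PairG (FarK γ kk) (SplF V S m K R C w))
        (fun y => PairG (NearK nd₁ nd₂ R γ ki kk y) (SplF V S m K R C w)) c p →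
      Relation.ReflTransGen (StG nd₁ nd₂ R (SameG R (SameK γ kk) (SplF V S m K R C w))
        (fun y => PairG (NearK nd₁ nd₂ R γ ki kk y) (SplF V S m K R C w)) c) p b →
      ∀ e, NearK nd₁ nd₂ R γ ki kk c e → SplF V S m K R C w e b →
        ∀ x, (∀ a, 5 * x ≤ a → a ≤ 5 * x + 5 → a ∈ J ∧ a ∉ D) →
        Near2 (ES S) (starO Lv oe c) B (starX rw lg c) (w e (Qw x)) ∧
          TwoL rw Lv lg oe c (w e (Qw x)) := by
  obtain ⟨D, hD, hDJ, key⟩ := h.swallowNear hf hK hC hinj hr hc hJ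
  refine ⟨D, hD, hDJ, ?_⟩
  intro p b hp hpb e he hs x hx
  obtain ⟨h1, h2⟩ := key p b hp hpb
  have hx5 : 5 * x + 5 < K := Finset.mem_range.1 (hJ (hx (5 * x + 5) (by omega) le_rfl).1)
  have hN := hf.nearK_mem he (Qw_sub hx5) (Qw_card x)
  have hT := h.near_T c _ hN
  have hsee : SeeR rw S (w e (Qw x)) (R b) := hs.see hC hx5
  obtain ⟨l, hl⟩ := (h.legs r hr c hc).all _ h1.2.1 h1.2.2
  -- an exit
  have hz : ∃ z, z ∈ starW rw V nd₁ nd₂ S Fr Nr c := by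
    have h3 : ∃ e', e' ∈ γ ∧ SplF V S m K R C w e' p ∧
        (FarK γ kk e' ∨ ∃ y, y ≠ c ∧ NearK nd₁ nd₂ R γ ki kk y e') := by
      rcases hp.2 with ⟨j, e', g1, g2, -⟩ | ⟨y, hy, j, e', g1, g2, -⟩
      · exact ⟨e', g1.1, g2, Or.inl g1⟩
      · exact ⟨e', g1.1, g2, Or.inr ⟨y, hy, g1⟩⟩
    obtain ⟨e', g1, g2, g3⟩ := h3
    rcases g3 with g3 | ⟨y, hy, g3⟩
    · exact ⟨_, h.far_starW g2.1.2 hp.1 (hf.farK_mem g3 (Qw_sub hx5) (Qw_card x)) (g2.see hC hx5)⟩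
    · exact ⟨_, h.near_starW g2.1.2 hp.1 (hf.nearK_mem g3 (Qw_sub hx5) (Qw_card x)) hy
        (g2.see hC hx5)⟩
  obtain ⟨z, hz⟩ := hz
  have hn : NearT (starO Lv oe c) (starX rw lg c) (w e (Qw x)) := by
    obtain ⟨j, hj, x', hx', hxO⟩ := h.near_hid c _ hN _ h1.2.1 hsee l hl
    refine ⟨l, j, Ne.symm hj, h.not_cst hz hT (Subset.refl _) ?_, x', hx', hxO⟩
    show ∃ v ∈ rw (lg c l), ∃ y ∈ rw (lg c l), v ≠ y ∧ S (w e (Qw x)) v y
    rw [hl]
    exact hsee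
  have h3 := h2 e he.1 hs x hx hT hn
  refine ⟨h3, ?_⟩
  obtain ⟨-, -, k, -, -, -, -, -, h4, -⟩ := h3
  exact ⟨k, h4⟩

end

end TST
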