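import Pool.Agent.TST.OneDt
import Pool.Agent.TST.SwallowLab

/-!
# Degenerate tripods and near families of the label level (T-star, row R5; helper35)

* `LabFacts3.dt_exit`: an exit of the star of `ct d` sees only the row of the degenerate tripod `d`;
* `LabFacts3.near2_at`, `near2_all`: the members of a near family which splits a label joined to an exit
  of the star have exactly two places (up to a bounded set of tiles);
* `LabFacts3.dt_free`, `dt_one` = the hypotheses `hD`, `hD2` of `one_dt`.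
-/

set_option autoImplicit false

open Set

namespace TST

universe u v w

section

variable {α : Type u} {β : Type v} {ν : Type w} {rw : β → Set α} {V : Set β} {nd₁ nd₂ : β → ν}
  {S : α → α → α → Prop} {Dg Fr On Dt : Set α} {Nr : ν → Set α} {Tr : β → Set α}
  {Tu : ν → Set α} {Lv : ν → α → Set α} {Aw : β → α → Set α} {Au : ν → α → Fin 3 → Set α}
  {B : α → α → α → α → Prop} {lg : ν → Fin 3 → β} {oe : ν → Fin 3 → ν} {fr : α → Bool → β}
  {r₀ : α → β} {ct : α → ν}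

/-! ### single elements -/

/-- the place of a degenerate tripod on its row -/
lemma LabFacts3.dt_place
    (h : LabFacts3 rw V nd₁ nd₂ S Dg Fr On Dt Nr Tr Tu Lv Aw Au B lg oe fr r₀ ct) {d z : α}
    (hd : d ∈ Dt) (hr : r₀ d ∈ V) (hz : z ∈ starW rw V nd₁ nd₂ S Fr Nr (ct d)) {l : Fin 3}
    (hl : lg (ct d) l = r₀ d) (hs : SeeR rw S d (r₀ d)) :
    ∃ y ∈ rw (lg (ct d) l), y ∉ Lv (oe (ct d) l) d := by
  refine h.not_cst hz (h.dt_T d hd hr) (j := l) (Subset.refl _) ?_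
  show ∃ x ∈ rw (lg (ct d) l), ∃ y ∈ rw (lg (ct d) l), x ≠ y ∧ S d x y
  rw [hl]
  exact hs

/-- the legs of a degenerate tripod -/
lemma LabFacts3.dt_legs
    (h : LabFacts3 rw V nd₁ nd₂ S Dg Fr On Dt Nr Tr Tu Lv Aw Au B lg oe fr r₀ ct) {d : α}
    (hd : d ∈ Dt) (hr : r₀ d ∈ V) : ∃ l, lg (ct d) l = r₀ d ∧
      ∀ k, k ≠ l → (∃ x, x ∈ rw (lg (ct d) k)) ∧ ∀ x ∈ rw (lg (ct d) k), x ∉ Lv (oe (ct d) k) d := by
  have hL := h.legs _ hr _ (h.dt_at d hd hr)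
  obtain ⟨l, hl⟩ := hL.all _ hr (h.dt_at d hd hr)
  refine ⟨l, hl, fun k hk => ⟨hL.ne k, fun x hx => h.dt_hid d hd hr k ?_ x hx⟩⟩
  exact fun h1 => hk (hL.inj k l (h1.trans hl.symm))

/-- **A degenerate tripod has not exactly two places.** -/
lemma LabFacts3.dt_not2
    (h : LabFacts3 rw V nd₁ nd₂ S Dg Fr On Dt Nr Tr Tu Lv Aw Au B lg oe fr r₀ ct) {d z : α}
    (hd : d ∈ Dt) (hr : r₀ d ∈ V) (hz : z ∈ starW rw V nd₁ nd₂ S Fr Nr (ct d))
    (hs : SeeR rw S d (r₀ d)) : ¬ Near2 (ES S) (starO Lv oe (ct d)) B (starX rw lg (ct d)) d := by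
  rintro ⟨i, j, k, -, -, -, -, -, h3, -⟩
  obtain ⟨l, hl, hk⟩ := h.dt_legs hd hr
  by_cases hkl : k = l
  · subst hkl
    obtain ⟨y, hy, hyO⟩ := h.dt_place hd hr hz hl hs
    exact hyO (h3 y hy)
  · obtain ⟨⟨x, hx⟩, h4⟩ := hk k hkl
    exact h4 x hx (h3 x hx)

/-- a degenerate tripod is near in its star -/
lemma LabFacts3.dt_near
    (h : LabFacts3 rw V nd₁ nd₂ S Dg Fr On Dt Nr Tr Tu Lv Aw Au B lg oe fr r₀ ct) {d : α}
    (hd : d ∈ Dt) (hr : r₀ d ∈ V) : NearT (starO Lv oe (ct d)) (starX rw lg (ct d)) d := by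
  obtain ⟨l, -, hk⟩ := h.dt_legs hd hr
  have key : ∀ l : Fin 3, ∃ i j, i ≠ j ∧ i ≠ l ∧ j ≠ l := by decide
  obtain ⟨i, j, hij, hil, hjl⟩ := key l
  obtain ⟨⟨x, hx⟩, h1⟩ := hk i hil
  obtain ⟨⟨y, hy⟩, h2⟩ := hk j hjl
  exact ⟨i, j, hij, ⟨x, hx, h1 x hx⟩, y, hy, h2 y hy⟩

/-- **An exit of the star of a degenerate tripod sees only its row.** -/
theorem LabFacts3.dt_exit
    (h : LabFacts3 rw V nd₁ nd₂ S Dg Fr On Dt Nr Tr Tu Lv Aw Au B lg oe fr r₀ ct) {d z : α}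
    (hd : d ∈ Dt) (hr : r₀ d ∈ V) (hs : SeeR rw S d (r₀ d))
    (hz : z ∈ starW rw V nd₁ nd₂ S Fr Nr (ct d)) {r : β} (hrV : r ∈ V) (hat : At nd₁ nd₂ r (ct d))
    (hsz : SeeR rw S z r) : r = r₀ d := by
  by_contra hne
  obtain ⟨l, hl, hk⟩ := h.dt_legs hd hr
  have hL := h.legs _ hr _ (h.dt_at d hd hr)
  obtain ⟨m, hm⟩ := hL.all r hrV hat
  have hml : m ≠ l := fun h1 => hne (by rw [← hm, h1, hl])
  obtain ⟨k, hmk, hlk⟩ : ∃ k : Fin 3, m ≠ k ∧ l ≠ k := by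
    have h1 : ∀ a b : Fin 3, ∃ k, a ≠ k ∧ b ≠ k := by decide
    exact h1 m l
  have hT := h.starWit hz
  -- the two sides of `z` on the leg `m`
  have hab : ∃ a ∈ starX rw lg (ct d) m, a ∈ Au (ct d) z m ∧
      ∃ b ∈ starX rw lg (ct d) m, b ∉ Au (ct d) z m := by
    rw [← hm] at hsz
    obtain ⟨x, hx, y, hy, hxy, h1⟩ := hsz
    have h2 := hT.facts.one.1 m x hx y hy
    have h3 : ¬ ES S z x y := fun h4 => h4.elim hxy fun h5 => h5 h1
    rw [h2] at h3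
    by_cases hxA : x ∈ Au (ct d) z m
    · exact ⟨x, hx, hxA, y, hy, fun h4 => h3 ⟨fun _ => h4, fun _ => hxA⟩⟩
    · refine ⟨y, hy, ?_, x, hx, hxA⟩
      by_contra h4
      exact h3 ⟨fun h5 => absurd h5 hxA, fun h5 => absurd h5 h4⟩
  obtain ⟨a, ha, haA, b, hb, hbA⟩ := hab
  obtain ⟨y, hy, hyO⟩ := h.dt_place hd hr hz hl hs
  obtain ⟨-, h2, -⟩ := hT.near_il ⟨b, hb, hbA⟩ hml hmk hlk (h.dt_T d hd hr) ha haA
    ((hk m hml).2 a ha) hy hyO
  obtain ⟨⟨x, hx⟩, h4⟩ := hk k hlk.symm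
  exact h4 x hx (h2 x hx)

/-! ### kinds of the families -/

variable {m K : ℕ} {R : ℕ → β} {C : ℕ → ℕ → α} {γ : Set ℕ} {w : ℕ → Finset ℕ → α}
  {ki kj kk : ℕ → ℕ}

/-- degenerate tripod families with the centre `y` -/
def DtK (nd₁ nd₂ : β → ν) (R : ℕ → β) (γ : Set ℕ) (ki kk : ℕ → ℕ) (y : ν) (e : ℕ) : Prop :=
  e ∈ γ ∧ ((kk e = 5 ∧ y = nd₁ (R (ki e))) ∨ (kk e = 6 ∧ y = nd₂ (R (ki e))))

section kinds

variable (hf : LabFam V nd₁ nd₂ S Dg Fr On Dt Nr Tr Lv Aw ct m K R C γ w ki kj kk)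

include hf

lemma LabFam.mem_far {e : ℕ} (he : FarK γ kk e) {Q : Finset ℕ} (hQ : Q ⊆ Finset.range K)
    (hQc : Q.card = 4) : w e Q ∈ Fr := by
  obtain ⟨he, hk⟩ := he
  obtain ⟨-, h1, -⟩ := hf.wit e he Q hQ hQc
  rw [hk] at h1
  rcases h1 with h1 | h1 | h1 | h1 | h1 | h1 | h1
  · exact h1.2
  all_goals exact absurd h1.1 (by norm_num)

lemma LabFam.mem_same {e : ℕ} (he : SameK γ kk e) {Q : Finset ℕ} (hQ : Q ⊆ Finset.range K)
    (hQc : Q.card = 4) : w e Q ∈ Tr (R (ki e)) := by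
  obtain ⟨he, hk⟩ := he
  obtain ⟨-, h1, -⟩ := hf.wit e he Q hQ hQc
  rw [hk] at h1
  rcases h1 with h1 | h1 | h1 | h1 | h1 | h1 | h1
  · exact absurd h1.1 (by norm_num)
  · exact absurd h1.1 (by norm_num)
  · exact absurd h1.1 (by norm_num)
  · exact h1.2
  all_goals exact absurd h1.1 (by norm_num)

lemma LabFam.mem_near {y : ν} {e : ℕ} (he : NearK nd₁ nd₂ R γ ki kk y e) {Q : Finset ℕ}
    (hQ : Q ⊆ Finset.range K) (hQc : Q.card = 4) : w e Q ∈ Nr y := by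
  obtain ⟨he, hk⟩ := he
  obtain ⟨-, h1, -⟩ := hf.wit e he Q hQ hQc
  rcases hk with ⟨hk, rfl⟩ | ⟨hk, rfl⟩
  · rw [hk] at h1
    rcases h1 with h1 | h1 | h1 | h1 | h1 | h1 | h1
    · exact absurd h1.1 (by norm_num)
    · exact h1.2
    all_goals exact absurd h1.1 (by norm_num)
  · rw [hk] at h1
    rcases h1 with h1 | h1 | h1 | h1 | h1 | h1 | h1
    · exact absurd h1.1 (by norm_num)
    · exact absurd h1.1 (by norm_num)
    · exact h1.2
    all_goals exact absurd h1.1 (by norm_num)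

lemma LabFam.mem_dt {y : ν} {e : ℕ} (he : DtK nd₁ nd₂ R γ ki kk y e) {Q : Finset ℕ}
    (hQ : Q ⊆ Finset.range K) (hQc : Q.card = 4) : w e Q ∈ Dt ∧ ct (w e Q) = y := by
  obtain ⟨he, hk⟩ := he
  obtain ⟨-, h1, -⟩ := hf.wit e he Q hQ hQc
  rcases hk with ⟨hk, rfl⟩ | ⟨hk, rfl⟩
  · rw [hk] at h1
    rcases h1 with h1 | h1 | h1 | h1 | h1 | h1 | h1
    · exact absurd h1.1 (by norm_num)
    · exact absurd h1.1 (by norm_num)
    · exact absurd h1.1 (by norm_num)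
    · exact absurd h1.1 (by norm_num)
    · exact absurd h1.1 (by norm_num)
    · exact h1.2
    all_goals exact absurd h1.1 (by norm_num)
  · rw [hk] at h1
    rcases h1 with h1 | h1 | h1 | h1 | h1 | h1 | h1
    · exact absurd h1.1 (by norm_num)
    · exact absurd h1.1 (by norm_num)
    · exact absurd h1.1 (by norm_num)
    · exact absurd h1.1 (by norm_num)
    · exact absurd h1.1 (by norm_num)
    · exact absurd h1.1 (by norm_num)
    · exact h1.2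

end kinds

lemma innQ_ok {I : Finset ℕ} (hI : I ⊆ Finset.range K) (hI6 : I.card = 6) :
    innQ I ⊆ Finset.range K ∧ (innQ I).card = 4 :=
  ⟨(innQ_sub I).trans hI, (six_match hI6 0).1⟩

section fam

variable (hf : LabFam V nd₁ nd₂ S Dg Fr On Dt Nr Tr Lv Aw ct m K R C γ w ki kj kk) (hK : 6 ≤ K)
  (hC : ∀ i < m, R i ∈ V → ∀ a < K, C i a ∈ rw (R i))
  (hinj : ∀ k < m, ∀ a < K, ∀ b < K, C k a = C k b → a = b)

include hf hK hinj

lemma LabFam.spl {e i : ℕ} (he : e ∈ γ) (hs : SplF V S m K R C w e i) :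
    Spl (ES S) C (Finset.range K) 6 (fun I => w e (innQ I)) i :=
  hf.spl6 he hs.1.1 (show 5 * 0 + 5 < K by omega) (hs.2 0 (by omega)) (hinj i hs.1.1)

include hC

lemma LabFam.see6 {e i : ℕ} (he : e ∈ γ) (hs : SplF V S m K R C w e i) :
    AllM (Finset.range K) 6 fun I => SeeR rw S (w e (innQ I)) (R i) :=
  (hf.spl hK hinj he hs).see fun a ha => hC i hs.1.1 hs.1.2 a (Finset.mem_range.1 ha)

variable (h : LabFacts3 rw V nd₁ nd₂ S Dg Fr On Dt Nr Tr Tu Lv Aw Au B lg oe fr r₀ ct)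

include h

/-- the real exits of the star at a label -/
lemma LabFam.ex6 {y : ν} {p : ℕ} (hp : ExG nd₁ nd₂ R (PairG (FarK γ kk) (SplF V S m K R C w))
    (fun y => PairG (NearK nd₁ nd₂ R γ ki kk y) (SplF V S m K R C w)) y p) :
    ∃ e ∈ γ, SplF V S m K R C w e p ∧
      AllM (Finset.range K) 6 fun I => w e (innQ I) ∈ starW rw V nd₁ nd₂ S Fr Nr y := by
  obtain ⟨hat, ⟨j, e, h1, h2, -⟩ | ⟨y', hy, j, e, h1, h2, -⟩⟩ := hp
  · refine ⟨e, h1.1, h2, fun I hI hI6 => ?_⟩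
    obtain ⟨h3, h4⟩ := innQ_ok hI hI6
    exact h.far_starW h2.1.2 hat (hf.mem_far h1 h3 h4) (hf.see6 hK hC hinj h1.1 h2 I hI hI6)
  · refine ⟨e, h1.1, h2, fun I hI hI6 => ?_⟩
    obtain ⟨h3, h4⟩ := innQ_ok hI hI6
    exact h.near_starW h2.1.2 hat (hf.mem_near h1 h3 h4) hy (hf.see6 hK hC hinj h1.1 h2 I hI hI6)

/-- **Near families which split a label joined to the exits of the star of `y` have exactly two
places**, up to `5 * m` tiles. -/
theorem LabFam.near2_at (y : ν) : ∃ D : Finset ℕ, D.card ≤ 5 * m ∧ D ⊆ Finset.range K ∧ ∀ p q,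
      ExG nd₁ nd₂ R (PairG (FarK γ kk) (SplF V S m K R C w))
        (fun y => PairG (NearK nd₁ nd₂ R γ ki kk y) (SplF V S m K R C w)) y p →
      Relation.ReflTransGen (StG nd₁ nd₂ R (SameG R (SameK γ kk) (SplF V S m K R C w))
        (fun y => PairG (NearK nd₁ nd₂ R γ ki kk y) (SplF V S m K R C w)) y) p q →
      At nd₁ nd₂ (R q) y ∧
      ∀ φ : Finset ℕ → α, Spl (ES S) C (Finset.range K) 6 φ q → AllM (Finset.range K) 6 fun I =>
        Disjoint I D → φ I ∈ Tu y → NearT (starO Lv oe y) (starX rw lg y) (φ I) →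
          Near2 (ES S) (starO Lv oe y) B (starX rw lg y) (φ I) := by
  classical
  obtain ⟨Ex, hEx⟩ : ∃ Ex : ℕ → Prop, Ex = ExG nd₁ nd₂ R (PairG (FarK γ kk) (SplF V S m K R C w))
    (fun y => PairG (NearK nd₁ nd₂ R γ ki kk y) (SplF V S m K R C w)) y := ⟨_, rfl⟩
  obtain ⟨Sg, hSg⟩ : ∃ Sg : ℕ → ℕ → Prop, Sg = StG nd₁ nd₂ R
    (SameG R (SameK γ kk) (SplF V S m K R C w))
    (fun y => PairG (NearK nd₁ nd₂ R γ ki kk y) (SplF V S m K R C w)) y := ⟨_, rfl⟩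
  by_cases hex : ∃ p₁, Ex p₁
  swap
  · refine ⟨∅, by simp, Finset.empty_subset _, fun p q hp _ => ?_⟩
    rw [← hEx] at hp
    exact absurd ⟨p, hp⟩ hex
  obtain ⟨p₁, hp₁⟩ := hex
  rw [hEx] at hp₁
  obtain ⟨e₁, he₁, hs₁, hw₁⟩ := hf.ex6 hK hC hinj h hp₁
  have hr : R p₁ ∈ V := hs₁.1.2
  have hc : At nd₁ nd₂ (R p₁) y := hp₁.1
  have h6 : (Finset.range 6) ⊆ Finset.range K := Finset.range_subset_range.2 hK
  have hz₀ := hw₁ _ h6 (Finset.card_range 6)
  have hrun := h.starRun y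
  have hL := h.legs _ hr y hc
  obtain ⟨L, hLg⟩ : ∃ L : ℕ → Fin 3, ∀ q, R q ∈ V → At nd₁ nd₂ (R q) y → lg y (L q) = R q := by
    have h1 : ∀ q, ∃ j, (R q ∈ V → At nd₁ nd₂ (R q) y → lg y j = R q) := by
      intro q
      by_cases h2 : R q ∈ V ∧ At nd₁ nd₂ (R q) y
      · obtain ⟨j, hj⟩ := hL.all _ h2.1 h2.2
        exact ⟨j, fun _ _ => hj⟩
      · exact ⟨0, fun h3 h4 => absurd ⟨h3, h4⟩ h2⟩
    choose L hL using h1
    exact ⟨L, hL⟩
  obtain ⟨St, hSt⟩ : ∃ St : Finset ℕ, St = (Finset.range m).filter fun q => R q ∈ V ∧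
      At nd₁ nd₂ (R q) y := ⟨_, rfl⟩
  have memSt : ∀ q, q ∈ St ↔ q < m ∧ R q ∈ V ∧ At nd₁ nd₂ (R q) y := by
    intro q
    rw [hSt, Finset.mem_filter, Finset.mem_range]
  have hcX : ∀ q ∈ St, ∀ a ∈ Finset.range K, C q a ∈ starX rw lg y (L q) := by
    intro q hq a ha
    obtain ⟨h1, h2, h3⟩ := (memSt q).1 hq
    show C q a ∈ rw (lg y (L q))
    rw [hLg q h2 h3]
    exact hC q h1 h2 a (Finset.mem_range.1 ha)
  have hBa : ∀ p, Ex p → p ∈ St ∧ ∃ φ : Finset ℕ → α,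
      (AllM (Finset.range K) 6 fun I => φ I ∈ starW rw V nd₁ nd₂ S Fr Nr y) ∧
        Spl (ES S) C (Finset.range K) 6 φ p := by
    intro p hp
    rw [hEx] at hp
    obtain ⟨e, he, hs, hw⟩ := hf.ex6 hK hC hinj h hp
    exact ⟨(memSt p).2 ⟨hs.1.1, hs.1.2, hp.1⟩, _, hw, hf.spl hK hinj he hs⟩
  have hstep : ∀ p q, Sg p q → At nd₁ nd₂ (R p) y → ∃ e ∈ γ, SplF V S m K R C w e p ∧
      SplF V S m K R C w e q ∧ At nd₁ nd₂ (R q) y ∧
      AllM (Finset.range K) 6 fun I => w e (innQ I) ∈ Tu y := by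
    intro p q hpq hat
    rw [hSg] at hpq
    rcases hpq with ⟨⟨h1, e, h2, h3, h4⟩, -⟩ | ⟨e, h2, h3, h4⟩
    · refine ⟨e, h2.1, h3, h4, by rw [← h1]; exact hat, fun I hI hI6 => ?_⟩
      obtain ⟨h5, h7⟩ := innQ_ok hI hI6
      have h8 := hf.mem_same h2 h5 h7
      have h9 := (hf.ran e h2.1).2.1
      have h10 := h.same_see _ h9.2 _ h8 _ h3.1.2 (hf.see6 hK hC hinj h2.1 h3 I hI hI6)
      exact h.same_T _ h9.2 _ h8 y (by rw [← h10]; exact hat)
    · refine ⟨e, h2.1, h3, h4, ?_, fun I hI hI6 => ?_⟩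
      · obtain ⟨h5, h7⟩ := innQ_ok h6 (Finset.card_range 6)
        exact h.near_see y _ (hf.mem_near h2 h5 h7) _ h4.1.2
          (hf.see6 hK hC hinj h2.1 h4 _ h6 (Finset.card_range 6))
      · obtain ⟨h5, h7⟩ := innQ_ok hI hI6
        exact h.near_T y _ (hf.mem_near h2 h5 h7)
  have hEd : ∀ p q, (At nd₁ nd₂ (R p) y ∧ Sg p q) → q ∈ St ∧ ∃ φ : Finset ℕ → α,
      (AllM (Finset.range K) 6 fun I => φ I ∈ Tu y ∪ starW rw V nd₁ nd₂ S Fr Nr y) ∧
        Spl (ES S) C (Finset.range K) 6 φ p ∧ Spl (ES S) C (Finset.range K) 6 φ q := by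
    rintro p q ⟨hat, hpq⟩
    obtain ⟨e, he, h1, h2, h3, h4⟩ := hstep p q hpq hat
    exact ⟨(memSt q).2 ⟨h2.1.1, h2.1.2, h3⟩, _, fun I hI hI6 => Or.inl (h4 I hI hI6),
      hf.spl hK hinj he h1, hf.spl hK hinj he h2⟩
  obtain ⟨D, hD, hDJ, key⟩ := hrun.swallow_near (h.starWit hz₀) (h.starX_fin hr hc)
    (h.starX_ne hr hc) (by norm_num) hcX hBa hEd
  refine ⟨D, hD.trans ?_, hDJ, ?_⟩
  · have h1 : St.card ≤ m := by
      rw [hSt]
      exact (Finset.card_filter_le _ _).trans (Finset.card_range m).le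
    exact Nat.mul_le_mul_left 5 h1
  · intro p q hp hpq
    rw [← hEx] at hp
    rw [← hSg] at hpq
    have hpath : Relation.ReflTransGen (fun p q => At nd₁ nd₂ (R p) y ∧ Sg p q) p q ∧
        At nd₁ nd₂ (R q) y := by
      induction hpq with
      | refl =>
        rw [hEx] at hp
        exact ⟨Relation.ReflTransGen.refl, hp.1⟩
      | @tail a b _ h3 ih =>
        obtain ⟨e, -, -, -, h4, -⟩ := hstep a b h3 ih.2
        exact ⟨ih.1.tail ⟨ih.2, h3⟩, h4⟩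
    exact ⟨hpath.2, fun φ hφ => key p q hp hpath.1 φ hφ⟩

/-- **`hD` of `one_dt`**: a degenerate tripod family splits no label which is joined to an exit of the
star of its centre. -/
theorem LabFam.dt_free (hK5 : 5 * m + 6 ≤ K) {y : ν} {e i p : ℕ}
    (he : DtK nd₁ nd₂ R γ ki kk y e) (hs : SplF V S m K R C w e i)
    (hp : ExG nd₁ nd₂ R (PairG (FarK γ kk) (SplF V S m K R C w))
      (fun y => PairG (NearK nd₁ nd₂ R γ ki kk y) (SplF V S m K R C w)) y p) :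
    ¬ Relation.ReflTransGen (StG nd₁ nd₂ R (SameG R (SameK γ kk) (SplF V S m K R C w))
        (fun y => PairG (NearK nd₁ nd₂ R γ ki kk y) (SplF V S m K R C w)) y) p i := by
  intro hpi
  obtain ⟨D, hD, hDK, key⟩ := hf.near2_at hK hC hinj h y
  obtain ⟨-, key⟩ := key p i hp hpi
  obtain ⟨I, hI, hI6⟩ := Finset.exists_subset_card_eq
    (show 6 ≤ (Finset.range K \ D).card by
      rw [Finset.card_sdiff_of_subset hDK, Finset.card_range]
      omega)
  have hIK : I ⊆ Finset.range K := hI.trans Finset.sdiff_subset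
  have hID : Disjoint I D := by
    rw [Finset.disjoint_left]
    exact fun a ha => (Finset.mem_sdiff.1 (hI ha)).2
  obtain ⟨h1, h2⟩ := innQ_ok hIK hI6
  obtain ⟨hd, hct⟩ := hf.mem_dt he h1 h2
  have hsee := hf.see6 hK hC hinj he.1 hs I hIK hI6
  have hr : R i = r₀ (w e (innQ I)) := h.one_see _ (Or.inr hd) _ hs.1.2 hsee
  have hrV : r₀ (w e (innQ I)) ∈ V := by
    rw [← hr]
    exact hs.1.2
  obtain ⟨e₁, -, -, hw₁⟩ := hf.ex6 hK hC hinj h hp
  have hz := hw₁ I hIK hI6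
  rw [← hct] at key hz
  exact h.dt_not2 hd hrV hz (by rw [← hr]; exact hsee)
    (key (fun I => w e (innQ I)) (hf.spl hK hinj he.1 hs) I hIK hI6 hID (h.dt_T _ hd hrV)
      (h.dt_near hd hrV))

/-- **`hD2` of `one_dt`** -/
theorem LabFam.dt_one {y : ν} {e i p : ℕ}
    (he : DtK nd₁ nd₂ R γ ki kk y e) (hs : SplF V S m K R C w e i)
    (hp : ExG nd₁ nd₂ R (PairG (FarK γ kk) (SplF V S m K R C w))
      (fun y => PairG (NearK nd₁ nd₂ R γ ki kk y) (SplF V S m K R C w)) y p) : R p = R i := by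
  have h6 : (Finset.range 6) ⊆ Finset.range K := Finset.range_subset_range.2 hK
  obtain ⟨h1, h2⟩ := innQ_ok h6 (Finset.card_range 6)
  obtain ⟨hd, hct⟩ := hf.mem_dt he h1 h2
  have hsee := hf.see6 hK hC hinj he.1 hs _ h6 (Finset.card_range 6)
  have hr : R i = r₀ (w e (innQ (Finset.range 6))) := h.one_see _ (Or.inr hd) _ hs.1.2 hsee
  have hrV : r₀ (w e (innQ (Finset.range 6))) ∈ V := by
    rw [← hr]
    exact hs.1.2
  obtain ⟨e₁, he₁, hs₁, hw₁⟩ := hf.ex6 hK hC hinj h hp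
  have hz := hw₁ _ h6 (Finset.card_range 6)
  have hat := hp.1
  rw [← hct] at hz hat
  rw [hr]
  exact h.dt_exit hd hrV (by rw [← hr]; exact hsee) hz hs₁.1.2 hat
    (hf.see6 hK hC hinj he₁ hs₁ _ h6 (Finset.card_range 6))

/-- **`hDr` of `one_dt`** -/
theorem LabFam.dt_row {y : ν} {e i : ℕ} (he : DtK nd₁ nd₂ R γ ki kk y e)
    (hs : SplF V S m K R C w e i) : At nd₁ nd₂ (R i) y ∧
      ∀ j, SplF V S m K R C w e j → R i = R j := by
  have h6 : (Finset.range 6) ⊆ Finset.range K := Finset.range_subset_range.2 hK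
  obtain ⟨h1, h2⟩ := innQ_ok h6 (Finset.card_range 6)
  obtain ⟨hd, hct⟩ := hf.mem_dt he h1 h2
  have hr := fun j (hs : SplF V S m K R C w e j) => h.one_see _ (Or.inr hd) _ hs.1.2
    (hf.see6 hK hC hinj he.1 hs _ h6 (Finset.card_range 6))
  have hat := h.dt_at _ hd (by rw [← hr i hs]; exact hs.1.2)
  rw [hct, ← hr i hs] at hat
  exact ⟨hat, fun j hj => (hr i hs).trans (hr j hj).symm⟩

/-- **Near families have exactly two places**, at all windows outside of a bounded set of tiles, if they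
split a label which is joined to an exit of the star. -/
theorem LabFam.near2_win : ∃ D : Finset ℕ, D.card ≤ 2 * m * (5 * m) ∧ D ⊆ Finset.range K ∧
    ∀ y p q, ExG nd₁ nd₂ R (PairG (FarK γ kk) (SplF V S m K R C w))
        (fun y => PairG (NearK nd₁ nd₂ R γ ki kk y) (SplF V S m K R C w)) y p →
      Relation.ReflTransGen (StG nd₁ nd₂ R (SameG R (SameK γ kk) (SplF V S m K R C w))
        (fun y => PairG (NearK nd₁ nd₂ R γ ki kk y) (SplF V S m K R C w)) y) p q →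
      ∀ e, NearK nd₁ nd₂ R γ ki kk y e → SplF V S m K R C w e q → ∀ x, 5 * x + 5 < K →
        (∀ a, 5 * x ≤ a → a ≤ 5 * x + 5 → a ∉ D) →
        Near2 (ES S) (starO Lv oe y) B (starX rw lg y) (w e (Qw x)) := by
  classical
  choose Dy hD hDK key using fun y => hf.near2_at hK hC hinj h y
  refine ⟨(Finset.range m).biUnion fun i => Dy (nd₁ (R i)) ∪ Dy (nd₂ (R i)), ?_, ?_, ?_⟩
  · calc _ ≤ (Finset.range m).card * (5 * m + 5 * m) := by
          refine Finset.card_biUnion_le_card_mul _ _ _ fun i _ => ?_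
          exact (Finset.card_union_le _ _).trans (Nat.add_le_add (hD _) (hD _))
      _ = 2 * m * (5 * m) := by
          rw [Finset.card_range]
          ring
  · intro a ha
    obtain ⟨i, -, h1⟩ := Finset.mem_biUnion.1 ha
    rcases Finset.mem_union.1 h1 with h2 | h2
    exacts [hDK _ h2, hDK _ h2]
  · intro y p q hp hpq e he hs x hx hxD
    obtain ⟨e₁, he₁, hs₁, hw₁⟩ := hf.ex6 hK hC hinj h hp
    have hsub : Dy y ⊆ (Finset.range m).biUnion fun i => Dy (nd₁ (R i)) ∪ Dy (nd₂ (R i)) := by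
      intro a ha
      refine Finset.mem_biUnion.2 ⟨p, Finset.mem_range.2 hs₁.1.1, Finset.mem_union.2 ?_⟩
      rcases hp.1 with h1 | h1
      · exact Or.inl (by rw [h1]; exact ha)
      · exact Or.inr (by rw [h1]; exact ha)
    obtain ⟨hat, key⟩ := key y p q hp hpq
    have hI6 := Iw_card x
    have hIK : Iw x ⊆ Finset.range K := Iw_sub hx
    have hID : Disjoint (Iw x) (Dy y) := by
      rw [Finset.disjoint_left]
      intro a ha ha'
      rw [mem_Iw] at ha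
      exact hxD a ha.1 ha.2 (hsub ha')
    have hNr : w e (Qw x) ∈ Nr y := hf.mem_near he (Qw_sub hx) (Qw_card x)
    have hsee : SeeR rw S (w e (Qw x)) (R q) := by
      have h1 := hf.see6 hK hC hinj he.1 hs (Iw x) hIK hI6
      simp only [innQ_Iw] at h1
      exact h1
    have hz := hw₁ (Iw x) hIK hI6
    obtain ⟨l, hl⟩ := (h.legs _ hs.1.2 y hat).all _ hs.1.2 hat
    obtain ⟨j, hj, x', hx', hx'O⟩ := h.near_hid y _ hNr _ hs.1.2 hsee l hl
    obtain ⟨y', hy', hy'O⟩ := h.not_cst hz (h.near_T y _ hNr) (j := l) (Subset.refl _) (by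
      show ∃ x ∈ rw (lg y l), ∃ y' ∈ rw (lg y l), x ≠ y' ∧ S (w e (Qw _)) x y'
      rw [hl]
      exact hsee)
    have h1 := key (fun I => w e (innQ I)) (hf.spl hK hinj he.1 hs) (Iw x) hIK hI6 hID
    simp only [innQ_Iw] at h1
    exact h1 (h.near_T y _ hNr) ⟨j, l, hj, ⟨x', hx', hx'O⟩, y', hy', hy'O⟩

end fam

/-! ### the chosen near elements -/

/-- **The near clause of `TPl`.** -/
theorem LabFacts3.near_tpl
    (h : LabFacts3 rw V nd₁ nd₂ S Dg Fr On Dt Nr Tr Tu Lv Aw Au B lg oe fr r₀ ct) {u : ν} {t : α}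
    {r r' : β} (ht : t ∈ Nr u) (hr : r ∈ V) (hr' : r' ∈ V) (hne : r ≠ r') (hs : SeeR rw S t r)
    (hs' : SeeR rw S t r') (h2 : Near2 (ES S) (starO Lv oe u) B (starX rw lg u) t)
    {pr : α → Bool → β} {pa : α → Bool → Set α} (hp : pr t false = r) (hp' : pr t true = r')
    (hpa : ∀ q, pa t q = {x | x ∈ rw (pr t q) ∧ x ∈ Aw (pr t q) t}) :
    TPl rw V nd₁ nd₂ S Fr Nr Tr Lv Aw B lg oe fr pr pa t := by
  have hat := h.near_see u t ht r hr hs
  have hat' := h.near_see u t ht r' hr' hs'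
  have hL := h.legs r hr u hat
  obtain ⟨i, hi⟩ := hL.all r hr hat
  obtain ⟨j, hj⟩ := hL.all r' hr' hat'
  have hij : i ≠ j := fun h1 => hne (by rw [← hi, ← hj, h1])
  obtain ⟨i₀, j₀, k, hij₀, hik₀, hjk₀, -, -, h3, h4, h5⟩ := h2
  have hsee : ∀ l, SeeR rw S t (lg u l) → ∃ x ∈ rw (lg u l), x ∉ Lv (oe u l) t := by
    rintro l ⟨x, hx, y, hy, hxy, h6⟩
    by_contra hcon
    push Not at hcon
    rcases (h4 l x hx y hy).2 ⟨fun _ => hcon y hy, fun _ => hcon x hx⟩ with h7 | h7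
    · exact hxy h7
    · exact h7 h6
  have hk : ∀ l, SeeR rw S t (lg u l) → l ≠ k := by
    rintro l hl rfl
    obtain ⟨x, hx, h6⟩ := hsee l hl
    exact h6 (h3 x hx)
  rw [← hi] at hs hp
  rw [← hj] at hs' hp'
  refine ⟨?_, Or.inr (Or.inl ⟨u, i, j, k, ht, hij, hk i hs, hk j hs', hp, hp', hs, hs', hpa,
    hsee i hs, hsee j hs', h3, h4, h5⟩)⟩
  rintro (_ | _)
  · rw [hp, hi]
    exact hr
  · rw [hp', hj]
    exact hr'

end

end TST
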