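import Pool.Agent.TST.RowStar

/-!
# The dual chart of a circuit (CLAIM A of T-star; pure matroid theory, helper33)

`K` is a circuit, `Z` are further elements in its closure.  In the dual of `N ↾ (K ∪ Z)` the elements
of `Z` are the axes, and two elements of `K` agree in the coordinate `z` iff they are in the same
class of `z`.  A circuit is the complement of a hyperplane.
-/

open Set
open scoped Matroid

namespace TST

variable {α : Type*} {N : Matroid α} {K Z : Set α} {a b c s t t' z h x y p q A C : α}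

/-- the dual chart -/
def dk (N : Matroid α) (K Z : Set α) : Matroid α := (N ↾ (K ∪ Z))✶

/-- a circuit with further elements in its closure -/
structure Chart (N : Matroid α) (K Z : Set α) : Prop where
  cir : N.IsCircuit K
  cl : Z ⊆ N.closure K
  dis : Disjoint K Z

namespace Chart

lemma sub (H : Chart N K Z) : K ∪ Z ⊆ N.E :=
  union_subset H.cir.subset_ground (H.cl.trans (N.closure_subset_ground K))

lemma ground : (dk N K Z).E = K ∪ Z := rfl

lemma base (H : Chart N K Z) (ha : a ∈ K) : (dk N K Z).IsBase (insert a Z) := by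
  have h1 : insert a Z ⊆ (N ↾ (K ∪ Z)).E := insert_subset (Or.inl ha) subset_union_right
  unfold dk
  rw [Matroid.dual_isBase_iff h1, Matroid.isBase_restrict_iff H.sub]
  have h2 : (N ↾ (K ∪ Z)).E \ insert a Z = K \ {a} := by
    ext w
    simp only [Matroid.restrict_ground_eq, mem_sdiff, mem_union, mem_insert_iff, not_or,
      mem_singleton_iff]
    constructor
    · rintro ⟨h3 | h3, h4, h5⟩
      · exact ⟨h3, h4⟩
      · exact absurd h3 h5
    · rintro ⟨h3, h4⟩
      exact ⟨Or.inl h3, h4, fun h5 => disjoint_left.1 H.dis h3 h5⟩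
  rw [h2]
  refine (H.cir.sdiff_singleton_indep ha).isBasis_of_subset_of_subset_closure
    (sdiff_subset.trans subset_union_left) ?_
  rw [H.cir.closure_sdiff_singleton_eq a]
  exact union_subset (N.subset_closure K H.cir.subset_ground) H.cl

lemma spans (H : Chart N K Z) (ha : a ∈ K) : (dk N K Z).closure (insert a Z) = K ∪ Z :=
  (H.base ha).closure_eq

/-- different classes -/
lemma of_not (H : Chart N K Z) (ht : t ∈ Z) (ha : a ∈ K) (hb : b ∈ K) (h : ¬ Eqv N K t a b) :
    b ∉ (dk N K Z).closure (insert a (Z \ {t})) := by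
  have hne : a ≠ b := fun h1 => h (Or.inl h1)
  have htK : t ∉ K := fun h1 => disjoint_left.1 H.dis h1 ht
  obtain ⟨h1, h2⟩ := basis_two H.cir (H.cl ht) ha hb h
  have hI : (dk N K Z).Indep (insert b (insert a (Z \ {t}))) := by
    have h3 : insert b (insert a (Z \ {t})) ⊆ (N ↾ (K ∪ Z)).E :=
      insert_subset (Or.inl hb) (insert_subset (Or.inl ha) (sdiff_subset.trans subset_union_right))
    have h4 : (N ↾ (K ∪ Z)).E \ insert b (insert a (Z \ {t})) = insert t (K \ {a, b}) := by
      ext w
      simp only [Matroid.restrict_ground_eq, mem_sdiff, mem_union, mem_insert_iff, not_or,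
        mem_singleton_iff, not_and, not_not]
      constructor
      · rintro ⟨h4 | h4, h5, h6, h7⟩
        · exact Or.inr ⟨h4, h6, h5⟩
        · exact Or.inl (h7 h4)
      · rintro (rfl | ⟨h4, h5, h6⟩)
        · exact ⟨Or.inr ht, fun h5 => htK (h5 ▸ hb), fun h5 => htK (h5 ▸ ha), fun _ => rfl⟩
        · exact ⟨Or.inl h4, h6, h5, fun h7 => absurd h7 (disjoint_left.1 H.dis h4)⟩
    have h5 : (dk N K Z).IsBase (insert b (insert a (Z \ {t}))) := by
      unfold dk
      rw [Matroid.dual_isBase_iff h3, Matroid.isBase_restrict_iff H.sub, h4]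
      refine h1.isBasis_of_subset_of_subset_closure ?_ ?_
      · exact insert_subset (Or.inr ht) (sdiff_subset.trans subset_union_left)
      · exact (union_subset (N.subset_closure K H.cir.subset_ground) H.cl).trans h2
    exact h5.indep
  have hn : b ∉ insert a (Z \ {t}) := by
    rintro (h3 | h3)
    · exact hne h3.symm
    · exact disjoint_left.1 H.dis hb h3.1
  have hJ := hI.subset (subset_insert b _)
  exact (hJ.notMem_closure_iff_of_notMem hn (Or.inl hb)).2 hI

/-- the same class -/
lemma of_eqv (H : Chart N K Z) (ht : t ∈ Z) (ha : a ∈ K) (hb : b ∈ K) (h : Eqv N K t a b) :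
    b ∈ (dk N K Z).closure (insert a (Z \ {t})) := by
  have haE : insert a (Z \ {t}) ⊆ (dk N K Z).E :=
    insert_subset (Or.inl ha) (sdiff_subset.trans subset_union_right)
  rcases h with h | h
  · exact h ▸ (dk N K Z).subset_closure _ haE (Or.inl rfl)
  by_contra hcon
  have hne : a ≠ b := by
    rintro rfl
    exact hcon ((dk N K Z).subset_closure _ haE (Or.inl rfl))
  have htK : t ∉ K := fun h1 => disjoint_left.1 H.dis h1 ht
  have hn : b ∉ insert a (Z \ {t}) := by
    rintro (h3 | h3)
    · exact hne h3.symm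
    · exact disjoint_left.1 H.dis hb h3.1
  have hJ := (H.base ha).indep.subset (insert_subset_insert (sdiff_subset (s := Z) (t := {t})))
  have hI := (hJ.notMem_closure_iff_of_notMem hn (Or.inl hb)).1 hcon
  -- the complement spans
  have h3 : (N ↾ (K ∪ Z)).Coindep (insert b (insert a (Z \ {t}))) := hI
  have h4 := h3.compl_spanning
  have h5 : (N ↾ (K ∪ Z)).E \ insert b (insert a (Z \ {t})) = insert t (K \ {a, b}) := by
    ext w
    simp only [Matroid.restrict_ground_eq, mem_sdiff, mem_union, mem_insert_iff, not_or,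
      mem_singleton_iff, not_and, not_not]
    constructor
    · rintro ⟨h4 | h4, h5, h6, h7⟩
      · exact Or.inr ⟨h4, h6, h5⟩
      · exact Or.inl (h7 h4)
    · rintro (rfl | ⟨h4, h5, h6⟩)
      · exact ⟨Or.inr ht, fun h5 => htK (h5 ▸ hb), fun h5 => htK (h5 ▸ ha), fun _ => rfl⟩
      · exact ⟨Or.inl h4, h6, h5, fun h7 => absurd h7 (disjoint_left.1 H.dis h4)⟩
  rw [h5] at h4
  have h6 : a ∈ (N ↾ (K ∪ Z)).closure (insert t (K \ {a, b})) := by
    rw [h4.closure_eq]
    exact Or.inl ha
  have h7 : insert t (K \ {a, b}) ⊆ K ∪ Z :=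
    insert_subset (Or.inr ht) (sdiff_subset.trans subset_union_left)
  rw [Matroid.restrict_closure_eq N h7 H.sub] at h6
  have h8 : N.closure (insert t (K \ {a, b})) = N.closure (K \ {a, b}) :=
    Matroid.closure_insert_eq_of_mem_closure h
  rw [h8] at h6
  refine (H.cir.sdiff_singleton_indep hb).notMem_closure_sdiff_of_mem (⟨ha, hne⟩ : a ∈ K \ {b}) ?_
  refine N.closure_subset_closure ?_ h6.1
  rintro w ⟨hw, hw2⟩
  exact ⟨⟨hw, fun h => hw2 (Or.inr h)⟩, fun h => hw2 (Or.inl h)⟩

/-- `a` and `b` agree outside of `S`. -/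
lemma agree (H : Chart N K Z) {S : Set α} (hS : S ⊆ Z) (ha : a ∈ K) (hb : b ∈ K)
    (h : ∀ t ∈ Z, t ∉ S → Eqv N K t a b) : b ∈ (dk N K Z).closure (insert a S) := by
  by_cases hZ : Z ⊆ S
  · rw [subset_antisymm hS hZ, H.spans ha]
    exact Or.inl hb
  obtain ⟨t₀, ht₀, ht₀S⟩ := not_subset.1 hZ
  have hne : Nonempty {t // t ∈ Z ∧ t ∉ S} := ⟨⟨t₀, ht₀, ht₀S⟩⟩
  have h1 := (H.base ha).indep.closure_iInter_eq_biInter_closure_of_forall_subset
    (Js := fun t : {t // t ∈ Z ∧ t ∉ S} => insert a (Z \ {t.1}))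
    (fun t => insert_subset_insert sdiff_subset)
  have h2 : b ∈ ⋂ t : {t // t ∈ Z ∧ t ∉ S}, (dk N K Z).closure (insert a (Z \ {t.1})) := by
    rw [mem_iInter]
    rintro ⟨t, ht, htS⟩
    exact H.of_eqv ht ha hb (h t ht htS)
  rw [← h1] at h2
  refine (dk N K Z).closure_subset_closure ?_ h2
  intro w hw
  rw [mem_iInter] at hw
  rcases hw ⟨t₀, ht₀, ht₀S⟩ with h3 | h3
  · exact Or.inl h3
  · by_cases h4 : w ∈ S
    · exact Or.inr h4
    · rcases hw ⟨w, h3.1, h4⟩ with h5 | h5
      · exact Or.inl h5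
      · exact absurd rfl h5.2

/-- **Rule 1**: `a` in the flat, `a` and `b` agree outside of the flat: `b` is in the flat. -/
lemma mem_of (H : Chart N K Z) {I : Set α} (ha : a ∈ K) (hb : b ∈ K)
    (haI : a ∈ (dk N K Z).closure I)
    (h : ∀ t ∈ Z, t ∈ (dk N K Z).closure I ∨ Eqv N K t a b) : b ∈ (dk N K Z).closure I := by
  have h1 := H.agree (S := {t ∈ Z | t ∈ (dk N K Z).closure I}) (fun t ht => ht.1) ha hb
    (fun t ht htS => (h t ht).resolve_left fun h2 => htS ⟨ht, h2⟩)
  exact (dk N K Z).closure_subset_closure_of_subset_closure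
    (insert_subset haI fun t ht => ht.2) h1

/-- **Rule 2**: `a`, `b` in the flat, they agree outside of the flat except for `s`: `s` is in it. -/
lemma axis_mem (H : Chart N K Z) {I : Set α} (ha : a ∈ K) (hb : b ∈ K)
    (haI : a ∈ (dk N K Z).closure I) (hbI : b ∈ (dk N K Z).closure I) (hs : s ∈ Z)
    (hd : ¬ Eqv N K s a b)
    (h : ∀ t ∈ Z, t = s ∨ t ∈ (dk N K Z).closure I ∨ Eqv N K t a b) :
    s ∈ (dk N K Z).closure I := by
  by_contra hcon
  set S := {t ∈ Z | t ∈ (dk N K Z).closure I} with hSdef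
  have h1 := H.agree (S := insert s S) (insert_subset hs fun t ht => ht.1) ha hb
    (fun t ht htS => by
      rcases h t ht with h2 | h2 | h2
      · exact absurd (Or.inl h2) htS
      · exact absurd (Or.inr ⟨ht, h2⟩) htS
      · exact h2)
  have h2 : b ∉ (dk N K Z).closure (insert a S) := by
    intro h3
    refine H.of_not hs ha hb hd ((dk N K Z).closure_subset_closure ?_ h3)
    refine insert_subset_insert ?_
    intro t ht
    exact ⟨ht.1, fun h4 => hcon ((mem_singleton_iff.1 h4) ▸ ht.2)⟩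
  rw [insert_comm] at h1
  have h3 := (Matroid.closure_exchange ⟨h1, h2⟩).1
  exact hcon ((dk N K Z).closure_subset_closure_of_subset_closure
    (insert_subset hbI (insert_subset haI fun t ht => ht.2)) h3)

/-- **Rule 3**: a new class. -/
lemma notMem_of (H : Chart N K Z) {I : Set α} (ha : a ∈ K) (hb : b ∈ K) (hs : s ∈ Z)
    (hd : ¬ Eqv N K s a b) (hI : ∀ c ∈ I, c ∈ K ∧ Eqv N K s a c) :
    b ∉ (dk N K Z).closure I := by
  intro h1
  refine H.of_not hs ha hb hd ((dk N K Z).closure_subset_closure_of_subset_closure ?_ h1)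
  intro c hc
  exact H.of_eqv hs ha (hI c hc).1 (hI c hc).2

/-- **Rule 4**: rank. -/
lemma rank (H : Chart N K Z) {I : Set α} (hZ : Z.Finite) (hI : I.ncard ≤ Z.ncard) (hIf : I.Finite)
    (ha : a ∈ K) (haI : a ∈ (dk N K Z).closure I) (hZI : Z ⊆ (dk N K Z).closure I) : False := by
  have hB := H.base ha
  have haZ : a ∉ Z := disjoint_left.1 H.dis ha
  have h1 : (dk N K Z).Indep (insert a Z) := hB.indep
  have h2 : insert a Z ⊆ (dk N K Z).closure I := insert_subset haI hZI
  obtain ⟨J, hJ⟩ := (dk N K Z).exists_isBasis' I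
  rw [← hJ.closure_eq_closure] at h2
  have h3 : (dk N K Z).IsBase J := by
    refine hJ.indep.isBase_of_ground_subset_closure ?_
    rw [← hB.closure_eq]
    exact (dk N K Z).closure_subset_closure_of_subset_closure h2
  have h4 : J.ncard = (insert a Z).ncard := h3.ncard_eq_ncard_of_isBase hB
  rw [ncard_insert_of_notMem haZ hZ] at h4
  have h5 := ncard_le_ncard hJ.subset hIf
  omega

/-- **Circuits** are complements of hyperplanes. -/
lemma circuit (H : Chart N K Z) {I : Set α} (hZ : Z.Finite) (hI : (dk N K Z).Indep I)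
    (hn : I.ncard = Z.ncard) (hIf : I.Finite) (hK : K.Nonempty) :
    N.IsCircuit ((K ∪ Z) \ (dk N K Z).closure I) := by
  obtain ⟨a, ha⟩ := hK
  have hB := H.base ha
  have haZ : a ∉ Z := disjoint_left.1 H.dis ha
  obtain ⟨B, hB', hIB⟩ := hI.exists_isBase_superset
  have h4 : B.ncard = (insert a Z).ncard := hB'.ncard_eq_ncard_of_isBase hB
  rw [ncard_insert_of_notMem haZ hZ] at h4
  have hBf : B.Finite := finite_of_ncard_pos (by omega)
  obtain ⟨e, he, heI⟩ : ∃ e ∈ B, e ∉ I := by
    by_contra hcon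
    push Not at hcon
    have h5 := ncard_le_ncard hcon hIf
    omega
  have h5 : B \ {e} = I := by
    have h6 : I ⊆ B \ {e} := fun w hw => ⟨hIB hw, fun h => heI (h ▸ hw)⟩
    refine (eq_of_subset_of_ncard_le h6 ?_ (hBf.subset sdiff_subset)).symm
    rw [ncard_sdiff_singleton_of_mem he]
    omega
  have h6 := hB'.compl_closure_sdiff_singleton_isCocircuit he
  rw [h5] at h6
  have h7 : (dk N K Z)✶ = N ↾ (K ∪ Z) := Matroid.dual_dual _
  rw [Matroid.isCocircuit_def, h7, Matroid.restrict_isCircuit_iff H.sub] at h6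
  exact h6.1

lemma indep_one (H : Chart N K Z) (ha : a ∈ K) : (dk N K Z).Indep {a} :=
  (H.base ha).indep.subset (singleton_subset_iff.2 (Or.inl rfl))

lemma indep_insert (_ : Chart N K Z) {I : Set α} (hI : (dk N K Z).Indep I) (hb : b ∈ K)
    (hn : b ∉ (dk N K Z).closure I) : (dk N K Z).Indep (insert b I) := by
  have h1 : b ∉ I := fun h => hn ((dk N K Z).subset_closure I hI.subset_ground h)
  exact (hI.notMem_closure_iff_of_notMem h1 (Or.inl hb)).1 hn

end Chart

end TST
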