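import Pool.Agent.TST.FNode

/-!
# T-star, row Fin: elements and ends
-/

open Set BIC BICS CWL
open scoped Matroid

namespace TSH

universe u

open Mdl Mdj EN Gad TST EN.Wall

open Classical in
/-- the two nodes of the elements of `T`, the ends of the others -/
noncomputable def fT {α V : Type*} (f₁ gT : α → Sym2 V) (T : Set α) (x : α) : Sym2 V :=
  if x ∈ T then gT x else f₁ x

section

variable {α : Type u} {M : Matroid α} {n₀ a w u₁ : ℕ} {L₁ : Bool × ℕ × ℕ → List α}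
  {f₁ gT : α → Sym2 ((ℕ × ℕ) ⊕ α)} {e₁ : Bool × ℕ × ℕ → α} {Zq LR : Set (Bool × ℕ × ℕ)}
  {T : Set α}

/-- the elements of the rows of the inner wall -/
def elN (L₁ : Bool × ℕ × ℕ → List α) (e₁ : Bool × ℕ × ℕ → α) (a : ℕ) {n₀ : ℕ} (r : SegR n₀)
    (p : ℕ) : α := (L₁ (iR a r)).getD p (e₁ (iR a r))

lemma elN_eq {r : SegR n₀} {p : ℕ} (h : p < (L₁ (iR a r)).length) :
    elN L₁ e₁ a r p = (L₁ (iR a r))[p] := by
  unfold elN
  rw [List.getD_eq_getElem _ _ h]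

lemma elN_mem {r : SegR n₀} {p : ℕ} (h : p < (L₁ (iR a r)).length) :
    elN L₁ e₁ a r p ∈ L₁ (iR a r) := by
  rw [elN_eq h]
  exact List.getElem_mem _

/-- the elements of the rows of the inner wall and the rungs -/
def SN (L₁ : Bool × ℕ × ℕ → List α) (e₁ : Bool × ℕ × ℕ → α) (a n₀ : ℕ) (T : Set α) : Set α :=
  rowE (inW L₁ a n₀) (elN L₁ e₁ a) univ ∪ T

lemma crr_iR (B : Set (SegR n₀)) :
    crr L₁ (iR a '' B) = rowE (inW L₁ a n₀) (elN L₁ e₁ a) B := by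
  ext x
  constructor
  · rintro ⟨_, ⟨r, hr, rfl⟩, hx⟩
    obtain ⟨p, hp, rfl⟩ := List.mem_iff_getElem.1 hx
    exact ⟨r, hr, p, hp, elN_eq hp⟩
  · rintro ⟨r, hr, p, hp, rfl⟩
    exact ⟨_, ⟨r, hr, rfl⟩, elN_mem hp⟩

lemma elN_crr (ha : a + (2 * n₀ - 1) ≤ w) {r : SegR n₀} {p : ℕ}
    (h : p < (L₁ (iR a r)).length) : elN L₁ e₁ a r p ∈ crr L₁ (Seg w) :=
  ⟨_, iR_mem ha r, elN_mem h⟩

lemma elN_inj (hG : GSide M (Seg w) L₁ f₁ e₁ u₁) (ha : a + (2 * n₀ - 1) ≤ w) {r r' : SegR n₀}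
    {p p' : ℕ} (h : p < (L₁ (iR a r)).length) (h' : p' < (L₁ (iR a r')).length)
    (he : elN L₁ e₁ a r p = elN L₁ e₁ a r' p') : r = r' ∧ p = p' := by
  have h1 : iR a r = iR a r' := row_uniq hG.disj (iR_mem ha r) (iR_mem ha r')
    (elN_mem (e₁ := e₁) h) (by rw [he]; exact elN_mem h')
  have h2 := iR_inj h1
  subst h2
  rw [elN_eq h, elN_eq h'] at he
  exact ⟨rfl, (List.Nodup.getElem_inj_iff (hG.nodup _ (iR_mem ha r))).1 he⟩

/-- the nodes of the rungs are in the inner wall -/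
lemma rung_iR (hring : ∀ r ∈ Seg w,
      ¬ (segNear r ∈ Box a n₀ ∧ segFar r ∈ Box a n₀) → r ∈ LR)
    {t : α} (ht : ∃ r ∈ Seg w, r ∉ LR ∧ ∃ r' ∈ Seg w, r' ∉ LR ∧ ∃ p p', 0 < p ∧
      p < (L₁ r).length ∧ 0 < p' ∧ p' < (L₁ r').length ∧
      gT t = s(node r (L₁ r) p, node r' (L₁ r') p')) :
    ∃ (r r' : SegR n₀) (p p' : ℕ), iR a r ∉ LR ∧ iR a r' ∉ LR ∧ 0 < p ∧
      p < (inW L₁ a n₀).len r ∧ 0 < p' ∧ p' < (inW L₁ a n₀).len r' ∧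
      gT t = s(node (iR a r) (L₁ (iR a r)) p, node (iR a r') (L₁ (iR a r')) p') := by
  obtain ⟨r, hr, hr1, r', hr', hr1', p, p', h1, h2, h3, h4, h5⟩ := ht
  have key : ∀ r ∈ Seg w, r ∉ LR → ∃ r₀ : SegR n₀, iR a r₀ = r := by
    intro r hr hr1
    have h : segNear r ∈ Box a n₀ ∧ segFar r ∈ Box a n₀ := by
      by_contra h
      exact hr1 (hring r hr h)
    exact exists_iR hr h.1 h.2
  obtain ⟨r₀, rfl⟩ := key r hr hr1
  obtain ⟨r₁, rfl⟩ := key r' hr' hr1'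
  exact ⟨r₀, r₁, p, p', hr1, hr1', h1, h2, h3, h4, h5⟩

/-- the ends exist -/
lemma exists_ends (hG : GSide M (Seg w) L₁ f₁ e₁ u₁) (ha : a + (2 * n₀ - 1) ≤ w) (hn4 : 4 ≤ n₀)
    (T₁ : Disjoint T (crr L₁ (Seg w)))
    (hT : ∀ t ∈ T, ∃ (r r' : SegR n₀) (p p' : ℕ), iR a r ∉ LR ∧ iR a r' ∉ LR ∧ 0 < p ∧
      p < (inW L₁ a n₀).len r ∧ 0 < p' ∧ p' < (inW L₁ a n₀).len r' ∧
      gT t = s(node (iR a r) (L₁ (iR a r)) p, node (iR a r') (L₁ (iR a r')) p')) :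
    ∃ ends : α → Sym2 (Nd (WV n₀) (SegR n₀)),
      (∀ x ∈ SN L₁ e₁ a n₀ T, (∀ v ∈ ends x, v ∈ NW L₁ a n₀) ∧
        (ends x).map (gN L₁ a) = fT f₁ gT T x) ∧
      (∀ (r : SegR n₀) (p : ℕ), p < (inW L₁ a n₀).len r →
        ends (elN L₁ e₁ a r p) = s((inW L₁ a n₀).nd r p, (inW L₁ a n₀).nd r (p + 1))) ∧
      ∀ t ∈ T, ∀ (r r' : SegR n₀) (p p' : ℕ), p ≤ (inW L₁ a n₀).len r →
        p' ≤ (inW L₁ a n₀).len r' →
        gT t = s(node (iR a r) (L₁ (iR a r)) p, node (iR a r') (L₁ (iR a r')) p') →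
        ends t = s((inW L₁ a n₀).nd r p, (inW L₁ a n₀).nd r' p') := by
  classical
  have hne := gs_ne hG
  have hinj : ∀ v ∈ NW L₁ a n₀, ∀ v' ∈ NW L₁ a n₀, gN L₁ a v = gN L₁ a v' → v = v' :=
    fun v hv v' hv' h => gN_inj hne hG.nodup hG.disj ha hv hv' h
  have hf : ∀ (r : SegR n₀) (p : ℕ), p < (inW L₁ a n₀).len r →
      fT f₁ gT T (elN L₁ e₁ a r p) =
        s(gN L₁ a ((inW L₁ a n₀).nd r p), gN L₁ a ((inW L₁ a n₀).nd r (p + 1))) := by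
    intro r p hp
    have h1 : elN L₁ e₁ a r p ∉ T := fun h => Set.disjoint_left.1 T₁ h (elN_crr ha hp)
    unfold fT
    rw [if_neg h1, gN_nd (hne _ (iR_mem ha r)), gN_nd (hne _ (iR_mem ha r)), elN_eq hp]
    exact hG.end_eq _ (iR_mem ha r) p hp
  have hex : ∀ x ∈ SN L₁ e₁ a n₀ T, ∃ z : Sym2 (Nd (WV n₀) (SegR n₀)),
      (∀ v ∈ z, v ∈ NW L₁ a n₀) ∧ z.map (gN L₁ a) = fT f₁ gT T x := by
    rintro x (⟨r, _, p, hp, rfl⟩ | hx)
    · refine ⟨s((inW L₁ a n₀).nd r p, (inW L₁ a n₀).nd r (p + 1)), ?_, ?_⟩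
      · intro v hv
        rcases Sym2.mem_iff.1 hv with rfl | rfl
        · exact ⟨r, p, hp.le, rfl⟩
        · exact ⟨r, p + 1, hp, rfl⟩
      · rw [hf r p hp]
        rfl
    · obtain ⟨r, r', p, p', _, _, _, h2, _, h4, h5⟩ := hT x hx
      refine ⟨s((inW L₁ a n₀).nd r p, (inW L₁ a n₀).nd r' p'), ?_, ?_⟩
      · intro v hv
        rcases Sym2.mem_iff.1 hv with rfl | rfl
        · exact ⟨r, p, h2.le, rfl⟩
        · exact ⟨r', p', h4.le, rfl⟩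
      · unfold fT
        rw [if_pos hx, h5, Sym2.map_mk, gN_nd (hne _ (iR_mem ha r)),
          gN_nd (hne _ (iR_mem ha r'))]
  have hnon : Nonempty (Sym2 (Nd (WV n₀) (SegR n₀))) :=
    ⟨s(Sum.inl (⟨0, by omega⟩, ⟨0, by omega⟩), Sum.inl (⟨0, by omega⟩, ⟨0, by omega⟩))⟩
  choose! ends hends using hex
  refine ⟨ends, hends, ?_, ?_⟩
  · intro r p hp
    have h1 := hends (elN L₁ e₁ a r p) (Or.inl ⟨r, mem_univ _, p, hp, rfl⟩)
    refine sym2_map_inj hinj h1.1 ?_ ?_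
    · intro v hv
      rcases Sym2.mem_iff.1 hv with rfl | rfl
      · exact ⟨r, p, hp.le, rfl⟩
      · exact ⟨r, p + 1, hp, rfl⟩
    · rw [h1.2, hf r p hp]
      rfl
  · intro t ht r r' p p' h2 h4 h5
    have h1 := hends t (Or.inr ht)
    refine sym2_map_inj hinj h1.1 ?_ ?_
    · intro v hv
      rcases Sym2.mem_iff.1 hv with rfl | rfl
      · exact ⟨r, p, h2, rfl⟩
      · exact ⟨r', p', h4, rfl⟩
    · rw [h1.2]
      unfold fT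
      rw [if_pos ht, h5, Sym2.map_mk, gN_nd (hne _ (iR_mem ha r)),
        gN_nd (hne _ (iR_mem ha r'))]

end

end TSH
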