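import Pool.Agent.TST.FDef

/-!
# T-star, row Fin: the nodes of the inner wall in the big wall
-/

open Set BIC BICS CWL
open scoped Matroid

namespace TSH

universe u

open Mdl Mdj EN Gad TST EN.Wall

section

variable {α : Type u} {n₀ a w : ℕ} {L₁ : Bool × ℕ × ℕ → List α}

/-- the row of the big wall -/
def iR (a : ℕ) (r : SegR n₀) : Bool × ℕ × ℕ := shS a a r.1

/-- the node in the big wall -/
def gN (L₁ : Bool × ℕ × ℕ → List α) (a : ℕ) : Nd (WV n₀) (SegR n₀) → (ℕ × ℕ) ⊕ α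
  | Sum.inl x => Sum.inl (x.1.val + a, x.2.val + a)
  | Sum.inr rp => node (iR a rp.1) (L₁ (iR a rp.1)) rp.2

lemma iR_inj : Function.Injective (iR a : SegR n₀ → Bool × ℕ × ℕ) := fun _ _ h =>
  Subtype.ext (shS_inj a a h)

lemma near_iR (r : SegR n₀) :
    segNear (iR a r) = ((segHd r).1.val + a, (segHd r).2.val + a) := rfl

lemma far_iR (r : SegR n₀) :
    segFar (iR a r) = ((segTl r).1.val + a, (segTl r).2.val + a) := by
  unfold iR
  rw [segFar_shS]
  cases hs : r.1.1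
  · have h := vl_segTl_false hs
    unfold vl at h
    rw [Prod.mk.injEq] at h
    rw [h.1, h.2]
    simp [segFar, hs]
  · have h := vl_segTl_true hs
    unfold vl at h
    rw [Prod.mk.injEq] at h
    rw [h.1, h.2]
    simp [segFar, hs]

lemma add_inj {x y : WV n₀} (h : (x.1.val + a, x.2.val + a) = (y.1.val + a, y.2.val + a)) :
    x = y := by
  rw [Prod.mk.injEq] at h
  exact vl_inj (Prod.ext (show x.1.val = y.1.val by omega) (show x.2.val = y.2.val by omega))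

lemma mem_Box (x : WV n₀) : (x.1.val + a, x.2.val + a) ∈ Box a n₀ := by
  have h1 := x.1.2
  have h2 := x.2.2
  refine ⟨by dsimp only; omega, by dsimp only; omega, by dsimp only; omega, by dsimp only; omega⟩

lemma near_Box (r : SegR n₀) : segNear (iR a r) ∈ Box a n₀ := by
  rw [near_iR]
  exact mem_Box _

lemma far_Box (r : SegR n₀) : segFar (iR a r) ∈ Box a n₀ := by
  rw [far_iR]
  exact mem_Box _

lemma iR_mem (ha : a + (2 * n₀ - 1) ≤ w) (r : SegR n₀) : iR a r ∈ Seg w :=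
  shS_mem (by omega) ha ha r.2

lemma exists_iR {r : Bool × ℕ × ℕ} (hr : r ∈ Seg w) (h1 : segNear r ∈ Box a n₀)
    (h2 : segFar r ∈ Box a n₀) : ∃ r₀ : SegR n₀, iR a r₀ = r := by
  obtain ⟨b, x, y⟩ := r
  obtain ⟨c1, c2, c3, c4⟩ := h1
  simp only [segNear] at c1 c2 c3 c4
  simp only [Seg, mem_ofPred_eq] at hr
  rcases hr with ⟨h1, h3, h4⟩ | ⟨h1, h3, h4, h5⟩
  · subst h1
    have hf : segFar (true, x, y) = (x + 1, y) := rfl
    rw [hf] at h2
    obtain ⟨d1, d2, d3, d4⟩ := h2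
    dsimp only at d1 d2 d3 d4
    refine ⟨⟨(true, x - a, y - a), Or.inl ⟨rfl, by dsimp only; omega, by dsimp only; omega⟩⟩, ?_⟩
    simp only [iR, shS, Prod.mk.injEq, true_and]
    omega
  · subst h1
    have hf : segFar (false, x, y) = (x, y + 1) := rfl
    rw [hf] at h2
    obtain ⟨d1, d2, d3, d4⟩ := h2
    dsimp only at d1 d2 d3 d4
    refine ⟨⟨(false, x - a, y - a), Or.inr ⟨rfl, by dsimp only; omega, by dsimp only; omega,
      by dsimp only; omega⟩⟩, ?_⟩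
    simp only [iR, shS, Prod.mk.injEq, true_and]
    omega

/-- the nodes of the inner wall -/
def NW (L₁ : Bool × ℕ × ℕ → List α) (a n₀ : ℕ) : Set (Nd (WV n₀) (SegR n₀)) :=
  {v | ∃ r, ∃ p ≤ (inW L₁ a n₀).len r, (inW L₁ a n₀).nd r p = v}

lemma len_eq (r : SegR n₀) : (inW L₁ a n₀).len r = (L₁ (iR a r)).length := rfl

lemma gN_nd {r : SegR n₀} (hne : L₁ (iR a r) ≠ []) {p : ℕ} :
    gN L₁ a ((inW L₁ a n₀).nd r p) = node (iR a r) (L₁ (iR a r)) p := by
  have hl := List.length_pos_iff.2 hne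
  unfold RW.nd
  split
  · next h =>
    subst h
    rw [CWL.node_zero]
    rfl
  · split
    · next h0 h =>
      subst h
      rw [len_eq, CWL.node_last _ hne, far_iR]
      rfl
    · rfl

variable (hne : ∀ r ∈ Seg w, L₁ r ≠ []) (hnd : ∀ r ∈ Seg w, (L₁ r).Nodup)
  (hdisj : ∀ r ∈ Seg w, ∀ r' ∈ Seg w, r ≠ r' → (L₁ r).Disjoint (L₁ r'))

include hdisj in
lemma row_uniq {r r' : Bool × ℕ × ℕ} (hr : r ∈ Seg w) (hr' : r' ∈ Seg w) {x : α}
    (hx : x ∈ L₁ r) (hx' : x ∈ L₁ r') : r = r' := by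
  by_contra h
  exact hdisj r hr r' hr' h hx hx'

include hne hnd hdisj in
lemma gN_inj (ha : a + (2 * n₀ - 1) ≤ w) {v v' : Nd (WV n₀) (SegR n₀)} (hv : v ∈ NW L₁ a n₀)
    (hv' : v' ∈ NW L₁ a n₀) (h : gN L₁ a v = gN L₁ a v') : v = v' := by
  obtain ⟨r, p, hp, rfl⟩ := hv
  obtain ⟨r', p', hp', rfl⟩ := hv'
  have hr := iR_mem ha r
  have hr' := iR_mem ha r'
  rw [gN_nd (hne _ hr), gN_nd (hne _ hr')] at h
  rw [len_eq] at hp hp'
  have hl := List.length_pos_iff.2 (hne _ hr)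
  have hl' := List.length_pos_iff.2 (hne _ hr')
  have key : ∀ (r : SegR n₀) (p : ℕ), 1 ≤ (L₁ (iR a r)).length → p ≤ (L₁ (iR a r)).length →
      (∃ x : WV n₀, node (iR a r) (L₁ (iR a r)) p = Sum.inl (x.1.val + a, x.2.val + a) ∧
        (inW L₁ a n₀).nd r p = Sum.inl x) ∨
      ∃ (h0 : 0 < p) (h1 : p < (L₁ (iR a r)).length), node (iR a r) (L₁ (iR a r)) p =
        Sum.inr ((L₁ (iR a r))[p - 1]'(by omega)) ∧ (inW L₁ a n₀).nd r p = Sum.inr (r, p) := by
    intro r p hl hp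
    rcases Nat.eq_zero_or_pos p with h0 | h0
    · subst h0
      exact Or.inl ⟨segHd r, by rw [CWL.node_zero, near_iR], by rw [RW.nd_zero]; rfl⟩
    · rcases hp.lt_or_eq with h1 | h1
      · exact Or.inr ⟨h0, h1, CWL.node_mid _ h0 h1, RW.nd_mid _ h0 h1⟩
      · refine Or.inl ⟨segTl r, ?_, ?_⟩
        · rw [h1, CWL.node_last _ (List.length_pos_iff.1 hl), far_iR]
        · rw [h1]
          exact RW.nd_len (inW L₁ a n₀) (r := r) hl
  rcases key r p hl hp with ⟨x, h1, h2⟩ | ⟨h0, h1, h2, h3⟩ <;>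
    rcases key r' p' hl' hp' with ⟨x', h1', h2'⟩ | ⟨h0', h1', h2', h3'⟩
  · rw [h1, h1'] at h
    rw [h2, h2', add_inj (Sum.inl.inj h)]
  · rw [h1, h2'] at h
    simp at h
  · rw [h2, h1'] at h
    simp at h
  · rw [h2, h2'] at h
    have h4 := Sum.inr.inj h
    have h5 : iR a r = iR a r' := row_uniq hdisj hr hr' (x := (L₁ (iR a r))[p - 1]'(by omega))
      (List.getElem_mem _) (by rw [h4]; exact List.getElem_mem _)
    have h6 := iR_inj h5
    subst h6
    have h7 := (List.Nodup.getElem_inj_iff (hnd _ hr)).1 h4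
    rw [h3, h3']
    congr 2
    omega

end

lemma sym2_map_inj {V V' : Type*} {g : V → V'} {A : Set V}
    (hg : ∀ v ∈ A, ∀ v' ∈ A, g v = g v' → v = v') {z z' : Sym2 V} (hz : ∀ v ∈ z, v ∈ A)
    (hz' : ∀ v ∈ z', v ∈ A) (h : z.map g = z'.map g) : z = z' := by
  induction z using Sym2.ind with
  | _ x y =>
    induction z' using Sym2.ind with
    | _ x' y' =>
      have hx := hz x (by simp)
      have hy := hz y (by simp)
      have hx' := hz' x' (by simp)
      have hy' := hz' y' (by simp)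
      simp only [Sym2.map_mk] at h
      rcases Sym2.eq_iff.1 h with ⟨h1, h2⟩ | ⟨h1, h2⟩
      · rw [hg _ hx _ hx' h1, hg _ hy _ hy' h2]
      · rw [hg _ hx _ hy' h1, hg _ hy _ hx' h2, Sym2.eq_swap]

section

variable {α : Type u} {M : Matroid α} {n₀ a w u₁ : ℕ} {L₁ : Bool × ℕ × ℕ → List α}
  {f₁ : α → Sym2 ((ℕ × ℕ) ⊕ α)} {e₁ : Bool × ℕ × ℕ → α} {Zq : Set (Bool × ℕ × ℕ)}

lemma gs_ne (hG : GSide M (Seg w) L₁ f₁ e₁ u₁) : ∀ r ∈ Seg w, L₁ r ≠ [] := by
  intro r hr h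
  have := hG.last r hr
  rw [h] at this
  simp at this

/-- nodes of the rows in `A` -/
lemma mem_LV (hG : GSide M (Seg w) L₁ f₁ e₁ u₁) {A : Set (Bool × ℕ × ℕ)} (hA : A ⊆ Seg w)
    {v : (ℕ × ℕ) ⊕ α} :
    v ∈ LV L₁ f₁ A ↔ ∃ r ∈ A, ∃ p ≤ (L₁ r).length, node r (L₁ r) p = v := by
  constructor
  · rintro ⟨x, ⟨r, hr, hx⟩, hv⟩
    obtain ⟨i, hi, rfl⟩ := List.mem_iff_getElem.1 hx
    rw [hG.end_eq r (hA hr) i hi] at hv
    rcases Sym2.mem_iff.1 hv with h | h
    · exact ⟨r, hr, i, hi.le, h.symm⟩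
    · exact ⟨r, hr, i + 1, hi, h.symm⟩
  · rintro ⟨r, hr, p, hp, rfl⟩
    have hl := List.length_pos_iff.2 (gs_ne hG r (hA hr))
    rcases hp.lt_or_eq with h | h
    · refine ⟨(L₁ r)[p], ⟨r, hr, List.getElem_mem h⟩, ?_⟩
      rw [hG.end_eq r (hA hr) p h]
      simp
    · refine ⟨(L₁ r)[p - 1]'(by omega), ⟨r, hr, List.getElem_mem _⟩, ?_⟩
      rw [hG.end_eq r (hA hr) (p - 1) (by omega)]
      rw [show p - 1 + 1 = p by omega]
      simp

/-- the nodes of `Zq` in the inner wall are the nodes of the rows of `BQ` -/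
lemma nodeZ (hG : GSide M (Seg w) L₁ f₁ e₁ u₁) (ha : a + (2 * n₀ - 1) ≤ w) (hZ : Zq ⊆ Seg w)
    (hbox : ∀ r ∈ Zq, segNear r ∈ Box a n₀ ↔ segFar r ∈ Box a n₀) {BQ : Set (SegR n₀)}
    (hBQ : ∀ r, r ∈ BQ ↔ iR a r ∈ Zq) {v : Nd (WV n₀) (SegR n₀)} (hv : v ∈ NW L₁ a n₀) :
    gN L₁ a v ∈ LV L₁ f₁ Zq ↔ v ∈ rowV (inW L₁ a n₀) BQ := by
  have hne := gs_ne hG
  rw [mem_LV hG hZ]
  constructor
  · rintro ⟨r', hr', p', hp', h⟩
    have key : ∃ r₀ : SegR n₀, iR a r₀ = r' := by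
      obtain ⟨r, p, hp, rfl⟩ := hv
      have hr := iR_mem ha r
      rw [gN_nd (hne _ hr)] at h
      have hp2 : p ≤ (L₁ (iR a r)).length := hp
      rcases node_cases' (iR a r) hp2 rfl with ⟨_, h1⟩ | ⟨_, h1⟩ | ⟨h0, h1, h2⟩
      · rw [h1] at h
        rcases node_cases' r' hp' rfl with ⟨_, h3⟩ | ⟨_, h3⟩ | ⟨_, _, h3⟩
        · rw [h3] at h
          have h4 : segNear r' ∈ Box a n₀ := by
            rw [Sum.inl.inj h]
            exact near_Box r
          exact exists_iR (hZ hr') h4 ((hbox r' hr').1 h4)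
        · rw [h3] at h
          have h4 : segFar r' ∈ Box a n₀ := by
            rw [Sum.inl.inj h]
            exact near_Box r
          exact exists_iR (hZ hr') ((hbox r' hr').2 h4) h4
        · rw [h3] at h
          simp at h
      · rw [h1] at h
        rcases node_cases' r' hp' rfl with ⟨_, h3⟩ | ⟨_, h3⟩ | ⟨_, _, h3⟩
        · rw [h3] at h
          have h4 : segNear r' ∈ Box a n₀ := by
            rw [Sum.inl.inj h]
            exact far_Box r
          exact exists_iR (hZ hr') h4 ((hbox r' hr').1 h4)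
        · rw [h3] at h
          have h4 : segFar r' ∈ Box a n₀ := by
            rw [Sum.inl.inj h]
            exact far_Box r
          exact exists_iR (hZ hr') ((hbox r' hr').2 h4) h4
        · rw [h3] at h
          simp at h
      · rw [h2] at h
        rcases node_cases' r' hp' rfl with ⟨_, h3⟩ | ⟨_, h3⟩ | ⟨_, h5, h3⟩
        · rw [h3] at h
          simp at h
        · rw [h3] at h
          simp at h
        · rw [h3] at h
          refine ⟨r, ?_⟩
          refine row_uniq hG.disj hr (hZ hr') (x := (L₁ (iR a r))[p - 1]'(by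
            omega)) (List.getElem_mem _) ?_
          rw [← Sum.inr.inj h]
          exact List.getElem_mem _
    obtain ⟨r₀, rfl⟩ := key
    refine ⟨r₀, (hBQ r₀).2 hr', p', hp', ?_⟩
    refine gN_inj hne hG.nodup hG.disj ha ⟨r₀, p', hp', rfl⟩ hv ?_
    rw [gN_nd (hne _ (iR_mem ha r₀)), h]
  · rintro ⟨r, hr, p, hp, rfl⟩
    exact ⟨iR a r, (hBQ r).1 hr, p, hp, (gN_nd (hne _ (iR_mem ha r))).symm⟩

end

end TSH
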