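import Pool.Agent.TST.FEnds
import Pool.Agent.TST.Loc
import Pool.Agent.TST.HostFrames

/-!
# T-star, frames of the final system (rows FU, FT, F1, F2 of RowFin)
-/

open Set BIC BICS CWL
open scoped Matroid

namespace TSH

universe u

open Mdl Mdj EN Gad TST EN.Wall

lemma fT_mem {α V : Type*} {f₁ gT : α → Sym2 V} {T : Set α} {x : α} (h : x ∈ T) :
    fT f₁ gT T x = gT x := if_pos h

lemma fT_not {α V : Type*} {f₁ gT : α → Sym2 V} {T : Set α} {x : α} (h : x ∉ T) :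
    fT f₁ gT T x = f₁ x := if_neg h

/-- (FU) a connected graph with the star rule and few elements too much is a frame -/
theorem frmU_of_con {α V : Type*} {M : Matroid α} [M.Finite] {X : Set α} {f : α → Sym2 V} {U : Set V}
    {u : ℕ} (hU : U.Finite) (hX : X ⊆ M.E) (hXU : ∀ e ∈ X, ∀ v ∈ f e, v ∈ U)
    (hcon : VConn X f U) (hstar : ∀ e ∈ X, ∀ v ∈ f e, e ∉ M.closure (ins X f {v}ᶜ))
    (hr : rk M X ≤ U.ncard + u) : FrmU M X f u := by
  have hHv : ∀ v, Hv M X f v = M.closure (ins X f {v}ᶜ) := by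
    intro v
    unfold Hv
    congr 1
    ext e
    constructor
    · rintro ⟨h1, h2⟩
      exact ⟨h1, fun w hw hwv => h2 (by rwa [← show w = v from hwv])⟩
    · rintro ⟨h1, h2⟩
      exact ⟨h1, fun hv => h2 v hv rfl⟩
  have h := frm_loc (M := M) (R := X) (S := X) (Q := ∅) (ends := f) (endsR := f) (Vs := U)
    (VQ := ∅) (u := u) hU hX hX (empty_subset _) (by simp) (empty_subset _)
    (fun e he => absurd he (Set.notMem_empty e)) hcon
    (fun e he v hv _ => by rw [hHv]; exact hstar e he v hv)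
    (fun e he v hv => ⟨hXU e he v hv, Set.notMem_empty v⟩)
    (fun e he => M.subset_closure X hX he)
    (fun e he v hv => by rw [hHv]; exact hstar e he v hv)
    (fun e he v _ _ hv => M.subset_closure _ (fun x hx => hX hx.1) ⟨he, hv⟩)
    (by rw [ncard_empty]; omega)
  rwa [Matroid.contract_empty] at h

/-- (FT) transport of the nodes -/
theorem FrmU.comap {α V V' : Type*} {M : Matroid α} [M.Finite] {X : Set α} {f : α → Sym2 V}
    {f' : α → Sym2 V'} {u : ℕ} (g : V' → V) (h : FrmU M X f u)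
    (hf : ∀ e ∈ X, f e = (f' e).map g)
    (hg : ∀ e ∈ X, ∀ e' ∈ X, ∀ v ∈ f' e, ∀ v' ∈ f' e', g v = g v' → v = v') : FrmU M X f' u := by
  refine ⟨h.sub, ?_, ?_⟩
  · intro v e he hv hcl
    refine h.star (g v) e he ?_ (M.closure_subset_closure ?_ hcl)
    · rw [hf e he, Sym2.mem_map]
      exact ⟨v, hv, rfl⟩
    · rintro x ⟨hx, hxv⟩
      refine ⟨hx, fun w hw hwv => ?_⟩
      rw [hf x hx, Sym2.mem_map] at hw
      obtain ⟨v', hv', rfl⟩ := hw
      exact hxv v' hv' (hg x hx e he v' hv' v hv hwv)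
  · intro W hW
    have h1 : ins X f' W ⊆ ins X f (g '' W) := by
      rintro x ⟨hx, hxW⟩
      refine ⟨hx, fun w hw => ?_⟩
      rw [hf x hx, Sym2.mem_map] at hw
      obtain ⟨v', hv', rfl⟩ := hw
      exact ⟨v', hxW v' hv', rfl⟩
    have h2 := h.rk (g '' W) (hW.image g)
    have h5 := rk_mono M h1
    have h6 := Set.ncard_image_le (f := g) hW
    omega

lemma LV_finite {α : Type u} {M : Matroid α} [M.Finite] {L₁ : Bool × ℕ × ℕ → List α}
    {f₁ : α → Sym2 ((ℕ × ℕ) ⊕ α)} {A : Set (Bool × ℕ × ℕ)} (h : crr L₁ A ⊆ M.E) :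
    (LV L₁ f₁ A).Finite := by
  have h1 : LV L₁ f₁ A = ⋃ x ∈ crr L₁ A, {v | v ∈ f₁ x} := by
    ext v
    simp [LV]
  rw [h1]
  refine (M.ground_finite.subset h).biUnion fun x _ => ?_
  induction f₁ x using Sym2.ind with
  | _ a b =>
    refine ((Set.finite_singleton a).union (Set.finite_singleton b)).subset fun v hv => ?_
    rcases Sym2.mem_iff.1 hv with rfl | rfl
    · exact Or.inl rfl
    · exact Or.inr rfl

/-- (F1) the frame in `M`, only the elements which avoid `Zq` -/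
theorem frm_M {α : Type u} {M : Matroid α} [M.Finite] {w : ℕ} {L₁ : Bool × ℕ × ℕ → List α}
    {f₁ : α → Sym2 ((ℕ × ℕ) ⊕ α)} {e₁ : Bool × ℕ × ℕ → α} {u₁ ρ : ℕ} {Zq : Set (Bool × ℕ × ℕ)}
    {T : Set α} {gT : α → Sym2 ((ℕ × ℕ) ⊕ α)} (hG : GSide M (Seg w) L₁ f₁ e₁ u₁)
    (con : VConn (SA L₁ f₁ w Zq) f₁ (LV L₁ f₁ (Seg w) \ LV L₁ f₁ Zq))
    (T_cl : T ⊆ M.closure (crr L₁ (Seg w))) (T₁ : Disjoint T (crr L₁ (Seg w)))
    (hT : ∀ t ∈ T, ∀ v ∈ gT t, v ∈ LV L₁ f₁ (Seg w) ∧ v ∉ LV L₁ f₁ Zq)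
    (hon : ∀ t ∈ T, ∀ v ∈ LV L₁ f₁ (Seg w), v ∉ LV L₁ f₁ Zq →
      (v ∈ gT t ↔ t ∉ M.closure {x | x ∈ crr L₁ (Seg w) ∧ v ∉ f₁ x}))
    (lift : rk M (T ∪ SA L₁ f₁ w Zq) ≤ rk M (SA L₁ f₁ w Zq) + ρ) :
    FrmU M (T ∪ SA L₁ f₁ w Zq) (fT f₁ gT T) (u₁ + ρ) := by
  have hE : crr L₁ (Seg w) ⊆ M.E := hG.lift.sub
  have hSc : SA L₁ f₁ w Zq ⊆ crr L₁ (Seg w) := fun x hx => hx.1
  have hST : ∀ x ∈ SA L₁ f₁ w Zq, x ∉ T := fun x hx hxT =>
    Set.disjoint_left.1 T₁ hxT (hSc hx)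
  have hTE : T ⊆ M.E := T_cl.trans (M.closure_subset_ground _)
  set U : Set ((ℕ × ℕ) ⊕ α) := LV L₁ f₁ (Seg w) \ LV L₁ f₁ Zq with hU
  have hUf : U.Finite := (LV_finite hE).subset sdiff_subset
  have hends : ∀ e ∈ T ∪ SA L₁ f₁ w Zq, ∀ v ∈ fT f₁ gT T e, v ∈ U := by
    rintro e (he | he) v hv
    · rw [fT_mem he] at hv
      exact hT e he v hv
    · rw [fT_not (hST e he)] at hv
      exact ⟨⟨e, hSc he, hv⟩, he.2 v hv⟩
  refine frmU_of_con hUf (union_subset hTE (hSc.trans hE)) hends ?_ ?_ ?_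
  · -- connectivity
    intro a ha b hb
    refine Relation.ReflTransGen.mono ?_ _ _ (con a ha b hb)
    rintro x y ⟨⟨e, he, hxy⟩, hx, hy⟩
    exact ⟨⟨e, Or.inr he, by rw [fT_not (hST e he)]; exact hxy⟩, hx, hy⟩
  · -- the star rule
    intro e he v hv hcl
    have hvU := hends e he v hv
    have hins : ins (T ∪ SA L₁ f₁ w Zq) (fT f₁ gT T) {v}ᶜ ⊆
        M.closure {x | x ∈ crr L₁ (Seg w) ∧ v ∉ f₁ x} := by
      rintro x ⟨hx, hxv⟩
      have hxv' : v ∉ fT f₁ gT T x := fun h => hxv v h rfl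
      rcases hx with hx | hx
      · rw [fT_mem hx] at hxv'
        by_contra hc
        exact hxv' ((hon x hx v hvU.1 hvU.2).2 hc)
      · rw [fT_not (hST x hx)] at hxv'
        exact M.subset_closure _ (fun y hy => hE hy.1) ⟨hSc hx, hxv'⟩
    have h1 : e ∈ M.closure {x | x ∈ crr L₁ (Seg w) ∧ v ∉ f₁ x} := by
      have := M.closure_subset_closure hins hcl
      rwa [M.closure_closure] at this
    rcases he with he | he
    · rw [fT_mem he] at hv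
      exact (hon e he v hvU.1 hvU.2).1 hv h1
    · rw [fT_not (hST e he)] at hv
      refine hG.lift.star v e (hSc he) hv (M.closure_subset_closure ?_ h1)
      rintro x ⟨hx, hxv⟩
      exact ⟨hx, fun w hw hwv => hxv (by rwa [← show w = v from hwv])⟩
  · -- the rank
    have h1 := hG.bic.rk U
    rw [← cast_rk, ← hUf.cast_ncard_eq] at h1
    have h2 : rk M (ins (crr L₁ (Seg w)) f₁ U) ≤ U.ncard + u₁ := by exact_mod_cast h1
    have h3 : SA L₁ f₁ w Zq ⊆ ins (crr L₁ (Seg w)) f₁ U := by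
      intro x hx
      exact ⟨hSc hx, fun v hv => ⟨⟨x, hSc hx, hv⟩, hx.2 v hv⟩⟩
    have h4 := rk_mono M h3
    omega

/-- `frm_loc` when only the part outside of `VQ` is connected -/
theorem frm_loc' {α V : Type*} {M : Matroid α} [M.Finite] {R S Q : Set α} {ends endsR : α → Sym2 V}
    {Vs VQ : Set V} {u : ℕ} (hVs : Vs.Finite) (hRE : R ⊆ M.E) (hSE : S ⊆ M.E) (hQR : Q ⊆ R)
    (hSQ : Disjoint S Q)
    (hVQ : VQ ⊆ Vs) (hQV : ∀ e ∈ Q, ∀ v ∈ endsR e, v ∈ VQ)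
    (hcon : VConn R endsR (Vs \ VQ))
    (hstarR : ∀ e ∈ R, ∀ v ∈ endsR e, v ∉ VQ → e ∉ Hv M R endsR v)
    (hSV : ∀ e ∈ S, ∀ v ∈ ends e, v ∈ Vs ∧ v ∉ VQ)
    (hSclo : ∀ e ∈ S, e ∈ M.closure R)
    (hstar : ∀ e ∈ S, ∀ v ∈ ends e, e ∉ Hv M R endsR v)
    (hloc : ∀ e ∈ S, ∀ v ∈ Vs, v ∉ VQ → v ∉ ends e → e ∈ Hv M R endsR v)
    (hr : rk M R + VQ.ncard ≤ Vs.ncard + rk M Q + u) :
    FrmU (M ／ Q) S ends u := by
  classical
  have hQE : Q ⊆ M.E := hQR.trans hRE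
  refine ⟨?_, ?_, ?_⟩
  · rw [Matroid.contract_ground]
    exact fun e he => ⟨hSE he, Set.disjoint_left.1 hSQ he⟩
  · intro v e he hve hcl
    rw [Matroid.contract_closure_eq] at hcl
    refine hstar e he v hve ?_
    have h1 : ins S ends {v}ᶜ ∪ Q ⊆ Hv M R endsR v := by
      rintro x (hx | hx)
      · refine hloc x hx.1 v (hSV e he v hve).1 (hSV e he v hve).2 fun h => ?_
        exact hx.2 v h rfl
      · refine M.subset_closure _ (fun y hy => hRE hy.1) ⟨hQR hx, fun h => ?_⟩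
        exact (hSV e he v hve).2 (hQV x hx v h)
    have h2 := M.closure_subset_closure h1 hcl.1
    unfold Hv at h2
    rw [M.closure_closure] at h2
    exact h2
  · intro W hW
    have hX : ins S ends W ⊆ M.E \ Q := fun e he =>
      ⟨hSE he.1, Set.disjoint_left.1 hSQ he.1⟩
    have h1 := rk_contract_set (M := M) (C := Q) hQE hX
    rcases (ins S ends W).eq_empty_or_nonempty with h0 | ⟨e₀, he₀⟩
    · rw [h0]
      have := rk_le_ncard (M := M ／ Q) (X := ∅) (by simp)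
      simp only [ncard_empty] at this
      omega
    obtain ⟨w₀, hw₀⟩ := exists_mem_ends ends e₀
    have hw₀W : w₀ ∈ W := he₀.2 w₀ hw₀
    have hw₀V := hSV e₀ he₀.1 w₀ hw₀
    set U : Set V := (Vs \ VQ) \ W with hU
    have hUf : U.Finite := hVs.subset (sdiff_subset.trans sdiff_subset)
    -- distances to `w₀`
    have hcon' : ∀ v ∈ Vs \ VQ, Relation.ReflTransGen
        (fun x y => GAdj R endsR x y ∧ x ∈ Vs \ VQ ∧ y ∈ Vs \ VQ) w₀ v :=
      fun v hv => hcon w₀ hw₀V v hv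
    let step : ℕ → Set V := fun n => Nat.rec {w₀} (fun _ A =>
      {v | ∃ x ∈ A, GAdj R endsR x v}) n
    have hstep0 : step 0 = {w₀} := rfl
    have hstepS : ∀ n, step (n + 1) = {v | ∃ x ∈ step n, GAdj R endsR x v} := fun n => rfl
    have hex : ∀ v ∈ Vs \ VQ, ∃ n, v ∈ step n := by
      intro v hv
      have h := hcon' v hv
      clear hv
      induction h with
      | refl => exact ⟨0, rfl⟩
      | tail _ hyz ih =>
        obtain ⟨n, hn⟩ := ih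
        exact ⟨n + 1, _, hn, hyz.1⟩
    let ρ : V → ℕ := fun v => sInf {n | v ∈ step n}
    have hρ : ∀ v ∈ U, ∃ e ∈ R, v ∈ endsR e ∧ ∀ w ∈ endsR e, w = v ∨ w ∉ U ∨ ρ w < ρ v := by
      intro v hv
      have hex' : {n | v ∈ step n}.Nonempty := hex v hv.1
      have hsp : v ∈ step (ρ v) := Nat.sInf_mem hex'
      have hv0 : v ≠ w₀ := by
        rintro rfl
        exact hv.2 hw₀W
      rcases hk : ρ v with _ | k
      · rw [hk] at hsp
        exact absurd hsp hv0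
      · rw [hk, hstepS] at hsp
        obtain ⟨x, hx, e, he, hee⟩ := hsp
        refine ⟨e, he, by rw [hee]; simp, fun w hw => ?_⟩
        rw [hee] at hw
        rcases Sym2.mem_iff.1 hw with rfl | rfl
        · right; right
          have h3 : ρ w ≤ k := Nat.sInf_le hx
          omega
        · exact Or.inl rfl
    have h2 := rk_FU (VQ := VQ) hRE hstarR hUf (by
      rw [Set.disjoint_left]
      exact fun v hv => hv.1.2) ρ hρ
    have h3 : ins S ends W ∪ Q ⊆ FU M R endsR U := by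
      rintro e (he | he)
      · refine ⟨hSclo e he.1, fun v hv => hloc e he.1 v hv.1.1 hv.1.2 fun h => ?_⟩
        exact hv.2 (he.2 v h)
      · refine ⟨M.subset_closure R hRE (hQR he), fun v hv => ?_⟩
        exact M.subset_closure _ (fun y hy => hRE hy.1) ⟨hQR he, fun h => hv.1.2 (hQV e he v h)⟩
    have h4 := rk_mono M h3
    have h5 : Vs.ncard ≤ VQ.ncard + W.ncard + U.ncard := by
      have h6 : Vs ⊆ VQ ∪ W ∪ U := by
        intro v hv
        by_cases hq : v ∈ VQ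
        · exact Or.inl (Or.inl hq)
        by_cases hw : v ∈ W
        · exact Or.inl (Or.inr hw)
        · exact Or.inr ⟨⟨hv, hq⟩, hw⟩
      have hVQf := hVs.subset hVQ
      calc Vs.ncard ≤ (VQ ∪ W ∪ U).ncard :=
            Set.ncard_le_ncard h6 ((hVQf.union hW).union hUf)
        _ ≤ (VQ ∪ W).ncard + U.ncard := Set.ncard_union_le _ _
        _ ≤ _ := by
          have := Set.ncard_union_le VQ W
          omega
    omega

/-- (F2) the exact frame in `M ／ crr L₁ Zq`, with loops -/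
theorem frm_Q {α : Type u} {M : Matroid α} [M.Finite] {w : ℕ} {L₁ : Bool × ℕ × ℕ → List α}
    {f₁ : α → Sym2 ((ℕ × ℕ) ⊕ α)} {e₁ : Bool × ℕ × ℕ → α} {u₁ : ℕ} {Zq : Set (Bool × ℕ × ℕ)}
    {T : Set α} {gT : α → Sym2 ((ℕ × ℕ) ⊕ α)} (hG : GSide M (Seg w) L₁ f₁ e₁ u₁)
    (hZ : Zq ⊆ Seg w)
    (con : VConn (SA L₁ f₁ w Zq) f₁ (LV L₁ f₁ (Seg w) \ LV L₁ f₁ Zq))
    (kill : ∃ N : Matroid α, N.Finite ∧ Bic N (crr L₁ (Seg w)) f₁ ∧
      rk N (crr L₁ Zq) = (LV L₁ f₁ Zq).ncard ∧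
      ∀ X ⊆ crr L₁ (Seg w), rk M (X ∪ crr L₁ Zq) + rk N (crr L₁ Zq) =
        rk N (X ∪ crr L₁ Zq) + rk M (crr L₁ Zq))
    (T_cl : T ⊆ M.closure (crr L₁ (Seg w))) (T₁ : Disjoint T (crr L₁ (Seg w)))
    (hT : ∀ t ∈ T, ∀ v ∈ gT t, v ∈ LV L₁ f₁ (Seg w) ∧ v ∉ LV L₁ f₁ Zq)
    (hon : ∀ t ∈ T, ∀ v ∈ LV L₁ f₁ (Seg w), v ∉ LV L₁ f₁ Zq →
      (v ∈ gT t ↔ t ∉ M.closure {x | x ∈ crr L₁ (Seg w) ∧ v ∉ f₁ x})) :
    FrmU (M ／ crr L₁ Zq) (SQ (LV L₁ f₁ Zq) (T ∪ crr L₁ (Seg w)) (fT f₁ gT T))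
      (eQ (LV L₁ f₁ Zq) (fT f₁ gT T)) 0 := by
  have hE : crr L₁ (Seg w) ⊆ M.E := hG.lift.sub
  have hZc : crr L₁ Zq ⊆ crr L₁ (Seg w) := crr_mono hZ
  have hTE : T ⊆ M.E := T_cl.trans (M.closure_subset_ground _)
  have hCT : ∀ x ∈ crr L₁ (Seg w), x ∉ T := fun x hx hxT => Set.disjoint_left.1 T₁ hxT hx
  have hLf : (LV L₁ f₁ (Seg w)).Finite := LV_finite hE
  have hLV : LV L₁ f₁ Zq ⊆ LV L₁ f₁ (Seg w) := by
    rintro v ⟨x, hx, hv⟩
    exact ⟨x, hZc hx, hv⟩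
  have hends : ∀ e ∈ T ∪ crr L₁ (Seg w), ∀ v ∈ fT f₁ gT T e, v ∈ LV L₁ f₁ (Seg w) := by
    rintro e (he | he) v hv
    · rw [fT_mem he] at hv
      exact (hT e he v hv).1
    · rw [fT_not (hCT e he)] at hv
      exact ⟨e, he, hv⟩
  have hcl : T ∪ crr L₁ (Seg w) ⊆ M.closure (crr L₁ (Seg w)) :=
    union_subset T_cl (M.subset_closure _ hE)
  -- the nodes outside of `Zq` are the locations
  have hlocs : ∀ e ∈ T ∪ crr L₁ (Seg w), ∀ v ∈ LV L₁ f₁ (Seg w), v ∉ LV L₁ f₁ Zq →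
      (v ∈ fT f₁ gT T e ↔ e ∉ Hv M (crr L₁ (Seg w)) f₁ v) := by
    rintro e (he | he) v hv hv'
    · rw [fT_mem he]
      exact hon e he v hv hv'
    · rw [fT_not (hCT e he)]
      constructor
      · intro hve h1
        refine hG.lift.star v e he hve (M.closure_subset_closure ?_ h1)
        rintro x ⟨hx, hxv⟩
        exact ⟨hx, fun w hw hwv => hxv (by rwa [← show w = v from hwv])⟩
      · intro h1
        by_contra h2
        exact h1 (M.subset_closure _ (fun y hy => hE hy.1) ⟨he, h2⟩)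
  -- the ends in `eQ`
  have heQ : ∀ e ∈ SQ (LV L₁ f₁ Zq) (T ∪ crr L₁ (Seg w)) (fT f₁ gT T), ∀ v,
      v ∈ eQ (LV L₁ f₁ Zq) (fT f₁ gT T) e ↔ v ∈ fT f₁ gT T e ∧ v ∉ LV L₁ f₁ Zq := by
    rintro e ⟨_, v₀, hv₀, hv₀'⟩ v
    obtain ⟨w₀, hw₀⟩ := Sym2.mem_iff_exists.1 hv₀
    by_cases hw : w₀ ∈ LV L₁ f₁ Zq
    · rw [eQ_mix hw₀ hv₀' hw, hw₀, Sym2.mem_iff, Sym2.mem_iff, or_self]
      constructor
      · rintro rfl
        exact ⟨Or.inl rfl, hv₀'⟩
      · rintro ⟨h | h, h'⟩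
        · exact h
        · rw [h] at h'
          exact absurd hw h'
    · have hout : ∀ v ∈ fT f₁ gT T e, v ∉ LV L₁ f₁ Zq := by
        intro v hv
        rw [hw₀] at hv
        rcases Sym2.mem_iff.1 hv with rfl | rfl
        · exact hv₀'
        · exact hw
      rw [eQ_out hout]
      exact ⟨fun h => ⟨h, hout v h⟩, fun h => h.1⟩
  refine frm_loc' (R := crr L₁ (Seg w)) (endsR := f₁) (Vs := LV L₁ f₁ (Seg w))
    (VQ := LV L₁ f₁ Zq) hLf hE ?_ hZc ?_ hLV ?_ ?_ ?_ ?_ ?_ ?_ ?_ ?_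
  · rintro e ⟨he, _⟩
    exact (union_subset hTE hE) he
  · rw [Set.disjoint_left]
    rintro e ⟨_, v, hv, hv'⟩ he
    rw [fT_not (hCT e (hZc he))] at hv
    exact hv' ⟨e, he, hv⟩
  · exact fun e he v hv => ⟨e, he, hv⟩
  · intro a ha b hb
    refine Relation.ReflTransGen.mono ?_ _ _ (con a ha b hb)
    rintro x y ⟨⟨e, he, hxy⟩, hx, hy⟩
    exact ⟨⟨e, he.1, hxy⟩, hx, hy⟩
  · intro e he v hv hv'
    have h1 := (hlocs e (Or.inr he) v ⟨e, he, hv⟩ hv').1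
    rw [fT_not (hCT e he)] at h1
    exact h1 hv
  · intro e he v hv
    have h1 := (heQ e he v).1 hv
    exact ⟨hends e he.1 v h1.1, h1.2⟩
  · exact fun e he => hcl he.1
  · intro e he v hv
    have h1 := (heQ e he v).1 hv
    exact (hlocs e he.1 v (hends e he.1 v h1.1) h1.2).1 h1.1
  · intro e he v hv hv' hve
    by_contra h1
    exact hve ((heQ e he v).2 ⟨(hlocs e he.1 v hv hv').2 h1, hv'⟩)
  · obtain ⟨N, fN, hN, hrN, hk⟩ := kill
    have h1 := hk (crr L₁ (Seg w)) (subset_refl _)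
    rw [union_eq_self_of_subset_right hZc, hrN] at h1
    have h2 := hN.rk (LV L₁ f₁ (Seg w))
    have h3 : ins (crr L₁ (Seg w)) f₁ (LV L₁ f₁ (Seg w)) = crr L₁ (Seg w) := by
      ext x
      exact ⟨fun h => h.1, fun h => ⟨h, fun v hv => ⟨x, h, hv⟩⟩⟩
    rw [h3, ← cast_rk, ← hLf.cast_ncard_eq] at h2
    have h4 : rk N (crr L₁ (Seg w)) ≤ (LV L₁ f₁ (Seg w)).ncard := by exact_mod_cast h2
    omega

end TSH
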