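import Pool.Agent.TST.FDef
import Pool.Agent.CW.Kill

/-!
# T-star, row ZQ: the field `kill` (helper88)

A set of rows `Zq` which contains the windows of `GSide.kill` and in which every vertex has a
neighbour function without 2-cycles (`NB`) kills the lift.
-/

open Set BIC BICS CWL
open scoped Matroid

namespace TSH

universe u

variable {α : Type u} {M : Matroid α} {w u₁ : ℕ} {L₁ : Bool × ℕ × ℕ → List α}
  {f₁ : α → Sym2 ((ℕ × ℕ) ⊕ α)} {e₁ : Bool × ℕ × ℕ → α}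

/-- **The field `kill`.** -/
theorem kill_of [M.Finite] (hG : GSide M (Seg w) L₁ f₁ e₁ u₁) {N : Matroid α} (hNf : N.Finite)
    (hN : Bic N (crr L₁ (Seg w)) f₁) {W₀ Zq : Set (Bool × ℕ × ℕ)}
    (hB : ∀ B, crr L₁ W₀ ⊆ B → B ⊆ crr L₁ (Seg w) → ∀ X ⊆ crr L₁ (Seg w),
      rk M (X ∪ B) + rk N B = rk N (X ∪ B) + rk M B)
    (hW : W₀ ⊆ Zq) (hZ : Zq ⊆ Seg w) (hnb : NB Zq (VS Zq)) :
    ∃ N : Matroid α, N.Finite ∧ Bic N (crr L₁ (Seg w)) f₁ ∧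
      rk N (crr L₁ Zq) = (LV L₁ f₁ Zq).ncard ∧
      ∀ X ⊆ crr L₁ (Seg w), rk M (X ∪ crr L₁ Zq) + rk N (crr L₁ Zq) =
        rk N (X ∪ crr L₁ Zq) + rk M (crr L₁ Zq) :=
  ⟨N, hNf, hN, hG.rk_nodes hN hZ hnb, hB _ (crr_mono hW) (crr_mono hZ)⟩

/-- the windows of `GSide.kill` -/
theorem exists_kill [M.Finite] (hG : GSide M (Seg w) L₁ f₁ e₁ u₁) (hw : 4 ≤ w) :
    ∃ J : Finset (ℕ × ℕ), J.card ≤ u₁ ∧ (∀ j ∈ J, j.1 + 4 ≤ w ∧ j.2 + 4 ≤ w) ∧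
      ∀ Zq ⊆ Seg w, Wn J ⊆ Zq → NB Zq (VS Zq) →
        ∃ N : Matroid α, N.Finite ∧ Bic N (crr L₁ (Seg w)) f₁ ∧
          rk N (crr L₁ Zq) = (LV L₁ f₁ Zq).ncard ∧
          ∀ X ⊆ crr L₁ (Seg w), rk M (X ∪ crr L₁ Zq) + rk N (crr L₁ Zq) =
            rk N (X ∪ crr L₁ Zq) + rk M (crr L₁ Zq) := by
  obtain ⟨N, J, hNf, hN, _, hJ, hJw, hB⟩ := hG.kill hw
  exact ⟨J, hJ, hJw, fun Zq hZ hW hnb => kill_of hG hNf hN hB hW hZ hnb⟩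

end TSH
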