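import Pool.Agent.TST.Order
import Pool.Agent.CW.GSide

/-!
# T-star: the rows of a side may be put in any order (with new anchors = last elements)
-/

open Set BIC BICS
open scoped Matroid

namespace TST

open CWL

variable {α : Type*} {M : Matroid α} {y u : ℕ} {L L' : Bool × ℕ × ℕ → List α}
  {f : α → Sym2 ((ℕ × ℕ) ⊕ α)} {e e' : Bool × ℕ × ℕ → α}

lemma crr_perm (hp : ∀ s ∈ Seg y, (L' s).Perm (L s)) : crr L' (Seg y) = crr L (Seg y) := by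
  ext x
  constructor
  · rintro ⟨s, hs, hx⟩
    exact ⟨s, hs, (hp s hs).mem_iff.1 hx⟩
  · rintro ⟨s, hs, hx⟩
    exact ⟨s, hs, (hp s hs).mem_iff.2 hx⟩

/-- **Reordering of a side.** -/
theorem _root_.CWL.GSide.reord [M.Finite] (h : GSide M (Seg y) L f e u)
    (hp : ∀ s ∈ Seg y, (L' s).Perm (L s)) (hl : ∀ s ∈ Seg y, (L' s).getLast? = some (e' s)) :
    ∃ f', GSide M (Seg y) L' f' e' u := by
  obtain ⟨N, fN, hB, hQ, hr⟩ := h.lift.ex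
  have hW := h.side.sw
  obtain ⟨f', hW', hB'⟩ := TST.reorder hW (lift_of_bic hB).bicU hp
  refine ⟨f', hW'.nodup, hW'.disj, hW'.end_eq, ?_, hl⟩
  rw [crr_perm hp]
  exact ⟨h.lift.sub, N, fN, hB'.bic, hQ, hr⟩

/-- **Reordering of the row side of a pair.** -/
theorem _root_.CWL.Pair.reord [M.Finite] {S₂ : Set (Bool × ℕ × ℕ)}
    {L₂ : Bool × ℕ × ℕ → List α} {f₂ : α → Sym2 ((ℕ × ℕ) ⊕ α)} {e₂ : Bool × ℕ × ℕ → α} {u₂ : ℕ}
    (h : Pair M (Seg y) L f e u S₂ L₂ f₂ e₂ u₂)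
    (hp : ∀ s ∈ Seg y, (L' s).Perm (L s)) (hl : ∀ s ∈ Seg y, (L' s).getLast? = some (e' s))
    (hd : ∀ s ∈ Seg y, ∀ σ ∈ S₂, e' s ≠ e₂ σ) :
    ∃ f', Pair M (Seg y) L' f' e' u S₂ L₂ f₂ e₂ u₂ := by
  obtain ⟨f', h1⟩ := h.s₁.reord hp hl
  refine ⟨f', h1, h.s₂, ?_⟩
  rw [Set.disjoint_left]
  rintro _ ⟨s, hs, rfl⟩ ⟨σ, hσ, h2⟩
  exact hd s hs σ hσ h2.symm

end TST
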