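import Pool.Agent.TST.FEnds
import Pool.Agent.TST.GSReord

/-!
# T-star, P6: the output of the label level without order (`HonOut`)

Rows are sets of elements here (the lists `L₁` give only the elements).  `HonOut` gives `FSys` for a
new order of the rows (`Out.lean`).
-/

open Set BIC BICS CWL
open scoped Matroid

namespace TSH

universe u

open Mdl Mdj EN Gad TST EN.Wall

/-- the branch vertices of the rows in `A` -/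
def VV (A : Set (Bool × ℕ × ℕ)) : Set (ℕ × ℕ) := {p | ∃ r ∈ A, segNear r = p ∨ segFar r = p}

/-- `t` separates `x` and `y` on the rows -/
def Sees {α : Type u} (M : Matroid α) (S : Set α) (t x y : α) : Prop := t ∉ M.closure (S \ {x, y})

/-- **The places of the rungs.**  The rung `t` has the places `A₁ t` on the row `r₁ t` and `A₂ t` on
the row `r₂ t` (`A` = the elements of the row on the near side of the place). -/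
structure Plc {α : Type u} (M : Matroid α) (w : ℕ) (L₁ : Bool × ℕ × ℕ → List α)
    (Zq LR : Set (Bool × ℕ × ℕ)) (T : Set α) (r₁ r₂ : α → Bool × ℕ × ℕ) (A₁ A₂ : α → Set α) :
    Prop where
  row₁ : ∀ t ∈ T, r₁ t ∈ Seg w ∧ r₁ t ∉ LR
  row₂ : ∀ t ∈ T, r₂ t ∈ Seg w ∧ r₂ t ∉ LR
  sub₁ : ∀ t ∈ T, A₁ t ⊆ {x | x ∈ L₁ (r₁ t)}
  sub₂ : ∀ t ∈ T, A₂ t ⊆ {x | x ∈ L₁ (r₂ t)}
  ne₁ : ∀ t ∈ T, (∃ x ∈ L₁ (r₁ t), x ∈ A₁ t) ∧ ∃ x ∈ L₁ (r₁ t), x ∉ A₁ t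
  ne₂ : ∀ t ∈ T, (∃ x ∈ L₁ (r₂ t), x ∈ A₂ t) ∧ ∃ x ∈ L₁ (r₂ t), x ∉ A₂ t
  /-- the places inside of the rows: a place is between `x` and `y` if `t` separates them -/
  sep : ∀ t ∈ T, ∀ r ∈ Seg w, r ∉ Zq → ∀ x ∈ L₁ r, ∀ y ∈ L₁ r, x ≠ y →
    Sees M (crr L₁ (Seg w)) t x y →
      (r = r₁ t ∧ ¬ (x ∈ A₁ t ↔ y ∈ A₁ t)) ∨ (r = r₂ t ∧ ¬ (x ∈ A₂ t ↔ y ∈ A₂ t))
  /-- `t` separates `x` and `y` if exactly one of its places is between them (a balanced rung has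
  both places on one row and does not separate the outer parts) -/
  sep' : ∀ t ∈ T, ∀ r ∈ Seg w, r ∉ Zq → ∀ x ∈ L₁ r, ∀ y ∈ L₁ r, x ≠ y →
    ¬ ((r = r₁ t ∧ ¬ (x ∈ A₁ t ↔ y ∈ A₁ t)) ↔ (r = r₂ t ∧ ¬ (x ∈ A₂ t ↔ y ∈ A₂ t))) →
      Sees M (crr L₁ (Seg w)) t x y
  dif : ∀ t ∈ T, r₁ t = r₂ t → ∃ x ∈ L₁ (r₁ t), ¬ (x ∈ A₁ t ↔ x ∈ A₂ t)
  /-- no place at the branch vertices: for representatives `C r` of the rows at `p` on the side of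
  `p` of all places of `t` -/
  brn : ∀ t ∈ T, ∀ p ∈ VV (Seg w), p ∉ VV Zq → ∀ C : Bool × ℕ × ℕ → α,
    (∀ r ∈ Seg w, segNear r = p → C r ∈ L₁ r ∧ (r = r₁ t → C r ∈ A₁ t) ∧ (r = r₂ t → C r ∈ A₂ t)) →
    (∀ r ∈ Seg w, segFar r = p → C r ∈ L₁ r ∧ (r = r₁ t → C r ∉ A₁ t) ∧ (r = r₂ t → C r ∉ A₂ t)) →
    t ∈ M.closure (crr L₁ (Seg w) \ {x | ∃ r ∈ Seg w, (segNear r = p ∨ segFar r = p) ∧ x = C r})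
  /-- all places on one row are nested -/
  chn : ∀ t ∈ T, ∀ t' ∈ T, (r₁ t = r₁ t' → A₁ t ⊆ A₁ t' ∨ A₁ t' ⊆ A₁ t) ∧
    (r₂ t = r₂ t' → A₂ t ⊆ A₂ t' ∨ A₂ t' ⊆ A₂ t) ∧ (r₁ t = r₂ t' → A₁ t ⊆ A₂ t' ∨ A₂ t' ⊆ A₁ t)

/-- the geometry of `Zq`: the vertices outside of `Zq` are connected by rows outside, and every other
row has an end outside -/
structure GeoZ (w : ℕ) (Zq : Set (Bool × ℕ × ℕ)) : Prop where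
  row : ∀ r ∈ Seg w, r ∉ Zq → segNear r ∉ VV Zq ∨ segFar r ∉ VV Zq
  con : ∀ p ∈ VV (Seg w), p ∉ VV Zq → ∀ p' ∈ VV (Seg w), p' ∉ VV Zq →
    Relation.ReflTransGen (fun x y => x ∉ VV Zq ∧ y ∉ VV Zq ∧ ∃ r ∈ Seg w,
      (segNear r = x ∧ segFar r = y) ∨ (segNear r = y ∧ segFar r = x)) p p'

/-- **Output of the label level, LIFT and the count, without order.** -/
structure HonOut {α : Type u} (M : Matroid α) (w s : ℕ) (𝒯 : Finset (ℕ × ℕ))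
    (L₁ : Bool × ℕ × ℕ → List α) (f₁ : α → Sym2 ((ℕ × ℕ) ⊕ α)) (e₁ : Bool × ℕ × ℕ → α) (u₁ : ℕ)
    (L₂ : Bool × ℕ × ℕ → List α) (f₂ : α → Sym2 ((ℕ × ℕ) ⊕ α)) (e₂ : Bool × ℕ × ℕ → α) (u₂ : ℕ)
    (n m : ℕ) (τ : ℕ → ℕ × ℕ) (R : ℕ → Bool × ℕ × ℕ) (c : ℕ → ℕ → α)
    (a n₀ ρ η : ℕ) (F : ℕ → ℕ) (Zq LR : Set (Bool × ℕ × ℕ)) (T : Set α)
    (r₁ r₂ : α → Bool × ℕ × ℕ) (A₁ A₂ : α → Set α) (kc : ℕ) (cls : ℕ → ℕ) (pv : Set ℕ) :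
    Prop where
  pair : Pair M (Seg w) L₁ f₁ e₁ u₁ (tiles s 𝒯) L₂ f₂ e₂ u₂
  tau : ∀ b < n, τ b ∈ 𝒯
  row : ∀ i < m, R i ∈ Seg w
  lab : ∀ i < m, ∀ b < n, c i b ∈ L₁ (R i)
  inj : ∀ i < m, ∀ b < n, ∀ j < m, ∀ a < n, c i b = c j a → i = j ∧ b = a
  tile : ∀ b < n, ∀ r ∈ Seg w, ∀ x ∈ L₁ r, x ∈ crr L₂ (shS (τ b).1 (τ b).2 '' Seg s) →
    ∃ i < m, x = c i b
  anchor : ∀ b < n, ∀ σ ∈ Seg s, ∀ r ∈ Seg w, e₂ (shS (τ b).1 (τ b).2 σ) ∈ L₁ r → r ∈ Zq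
  /-- all anchors of columns on rows are on rows of `LR` (these rows keep their order) -/
  anchor' : ∀ σ ∈ tiles s 𝒯, ∀ r ∈ Seg w, e₂ σ ∈ L₁ r → r ∈ LR
  wall : 2 ∣ a ∧ 4 ∣ n₀ ∧ 4 ≤ n₀ ∧ a + (2 * n₀ - 1) ≤ w ∧ w ≤ 4 * n₀
  Zq_sub : Zq ⊆ LR
  LR_sub : LR ⊆ Seg w
  Zq_box : ∀ r ∈ Zq, segNear r ∈ Box a n₀ ↔ segFar r ∈ Box a n₀
  ring : ∀ r ∈ Seg w, ¬ (segNear r ∈ Box a n₀ ∧ segFar r ∈ Box a n₀) → r ∈ LR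
  ne : ∃ r ∈ Zq, segNear r ∈ Box a n₀
  big : 55 ≤ {v | v ∈ Box a n₀ ∧ ∃ r ∈ Zq, segNear r = v ∨ segFar r = v}.ncard
  few : F {r | r ∈ Zq ∧ segNear r ∈ Box a n₀}.ncard ≤ w
  light : η * LR.ncard ≤ w ^ 2
  geo : GeoZ w Zq
  kill : ∃ N : Matroid α, N.Finite ∧ Bic N (crr L₁ (Seg w)) f₁ ∧
    rk N (crr L₁ Zq) = (LV L₁ f₁ Zq).ncard ∧
    ∀ X ⊆ crr L₁ (Seg w), rk M (X ∪ crr L₁ Zq) + rk N (crr L₁ Zq) =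
      rk N (X ∪ crr L₁ Zq) + rk M (crr L₁ Zq)
  T_cl : T ⊆ M.closure (crr L₁ (Seg w))
  T₁ : Disjoint T (crr L₁ (Seg w))
  T₂ : Disjoint T (crr L₂ (tiles s 𝒯))
  plc : Plc M w L₁ Zq LR T r₁ r₂ A₁ A₂
  /-- LIFT, for every order of the rows -/
  lift : ∀ (L : Bool × ℕ × ℕ → List α) (f : α → Sym2 ((ℕ × ℕ) ⊕ α)) (e : Bool × ℕ × ℕ → α),
    (∀ r ∈ Seg w, (L r).Perm (L₁ r)) → GSide M (Seg w) L f e u₁ →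
    rk M (T ∪ SA L f w Zq) ≤ rk M (SA L f w Zq) + ρ
  kc_le : η * kc ≤ w ^ 2
  cls_lt : ∀ i < m, R i ∉ LR → cls i < kc
  priv : ∀ k ∈ pv, ∃ v v' : ℕ × ℕ, ∀ i < m, R i ∉ LR → cls i = k →
    (segNear (R i) = v ∨ segFar (R i) = v) ∨ (segNear (R i) = v' ∨ segFar (R i) = v')
  /-- the labels of the other classes are connected by rungs which see two labels at all pairs of
  tiles -/
  conn : ∀ i < m, ∀ j < m, R i ∉ LR → R j ∉ LR → cls i = cls j → cls i ∉ pv →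
    Relation.ReflTransGen (fun x y => (x < m ∧ R x ∉ LR) ∧ (y < m ∧ R y ∉ LR) ∧ cls x = cls y ∧
      ∀ a b, a < b → b < n → ∃ t ∈ T, Sees M (crr L₁ (Seg w)) t (c x a) (c x b) ∧
        Sees M (crr L₁ (Seg w)) t (c y a) (c y b)) i j

/-- **Row P6.** -/
def RowOut : Prop :=
  ∀ (κ₀ wmax n' : ℕ), ∃ n : ℕ, ∀ {α : Type u} (M : Matroid α) [M.Finite] (w s : ℕ)
    (𝒯 : Finset (ℕ × ℕ))
    (L₁ : Bool × ℕ × ℕ → List α) (f₁ : α → Sym2 ((ℕ × ℕ) ⊕ α)) (e₁ : Bool × ℕ × ℕ → α) (u₁ : ℕ)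
    (L₂ : Bool × ℕ × ℕ → List α) (f₂ : α → Sym2 ((ℕ × ℕ) ⊕ α)) (e₂ : Bool × ℕ × ℕ → α) (u₂ : ℕ)
    (m : ℕ) (τ : ℕ → ℕ × ℕ) (R : ℕ → Bool × ℕ × ℕ) (c : ℕ → ℕ → α)
    (a n₀ ρ η : ℕ) (F : ℕ → ℕ) (Zq LR : Set (Bool × ℕ × ℕ)) (T : Set α)
    (r₁ r₂ : α → Bool × ℕ × ℕ) (A₁ A₂ : α → Set α) (kc : ℕ) (cls : ℕ → ℕ) (pv : Set ℕ),
    w ≤ wmax → m ≤ κ₀ →
    HonOut M w s 𝒯 L₁ f₁ e₁ u₁ L₂ f₂ e₂ u₂ n m τ R c a n₀ ρ η F Zq LR T r₁ r₂ A₁ A₂ kc cls pv →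
    ∃ (L₁' : Bool × ℕ × ℕ → List α) (f₁' : α → Sym2 ((ℕ × ℕ) ⊕ α)) (e₁' : Bool × ℕ × ℕ → α)
      (τ' : ℕ → ℕ × ℕ) (q' : ℕ → ℕ → ℕ) (c'' : ℕ → ℕ → α) (gT : α → Sym2 ((ℕ × ℕ) ⊕ α)),
      (∀ r ∈ Seg w, (L₁' r).Perm (L₁ r)) ∧ (∀ r ∈ Seg w, e₁' r ∈ L₁ r) ∧
      FSys M w s 𝒯 L₁' f₁' e₁' u₁ L₂ f₂ e₂ u₂ n' m τ' R c'' q' a n₀ ρ η F Zq LR T gT kc cls pv

end TSH
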