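import Pool.Agent.TST.ZqGeo
import Pool.Agent.TST.KillZ
import Pool.Agent.TST.LCore
import Pool.Agent.TST.OutDef

/-!
# Geometry of `HonOut` (helper14)

One statement for the composition: the inner square, the rows `Zq` (outer ring and squares around
finitely many points) and the light rows `LR`, with all geometric fields of `HonOut`.
-/

open Set BIC BICS CWL
open scoped Matroid

namespace TSH

universe u

open Mdl Mdj EN Gad TST EN.Wall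

/-- **Geometry of `HonOut`.**  The first fields are literally those of `HonOut`; the fields after
`anchor'` are for the glue: `P` = the exceptional points, `r` = radius, `Za` = rows of anchors,
`LR₀` = given light rows. -/
structure GeoH {α : Type u} (M : Matroid α) (w s : ℕ) (𝒯 : Finset (ℕ × ℕ))
    (L₁ : Bool × ℕ × ℕ → List α) (f₁ : α → Sym2 ((ℕ × ℕ) ⊕ α)) (e₂ : Bool × ℕ × ℕ → α)
    (n : ℕ) (τ : ℕ → ℕ × ℕ) (r C η : ℕ) (F : ℕ → ℕ) (P : Finset (ℕ × ℕ))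
    (Za : Finset (Bool × ℕ × ℕ)) (LR₀ : Set (Bool × ℕ × ℕ)) (a n₀ : ℕ)
    (Zq LR : Set (Bool × ℕ × ℕ)) : Prop where
  wall : 2 ∣ a ∧ 4 ∣ n₀ ∧ 4 ≤ n₀ ∧ a + (2 * n₀ - 1) ≤ w ∧ w ≤ 4 * n₀
  Zq_sub : Zq ⊆ LR
  LR_sub : LR ⊆ Seg w
  Zq_box : ∀ r ∈ Zq, segNear r ∈ Box a n₀ ↔ segFar r ∈ Box a n₀
  ring : ∀ r ∈ Seg w, ¬ (segNear r ∈ Box a n₀ ∧ segFar r ∈ Box a n₀) → r ∈ LR
  ne : ∃ r ∈ Zq, segNear r ∈ Box a n₀
  big : 55 ≤ {v | v ∈ Box a n₀ ∧ ∃ r ∈ Zq, segNear r = v ∨ segFar r = v}.ncard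
  few : F {r | r ∈ Zq ∧ segNear r ∈ Box a n₀}.ncard ≤ w
  light : η * LR.ncard ≤ w ^ 2
  geo : GeoZ w Zq
  kill : ∃ N : Matroid α, N.Finite ∧ Bic N (crr L₁ (Seg w)) f₁ ∧
    rk N (crr L₁ Zq) = (LV L₁ f₁ Zq).ncard ∧
    ∀ X ⊆ crr L₁ (Seg w), rk M (X ∪ crr L₁ Zq) + rk N (crr L₁ Zq) =
      rk N (X ∪ crr L₁ Zq) + rk M (crr L₁ Zq)
  anchor : ∀ b < n, ∀ σ ∈ Seg s, ∀ r ∈ Seg w, e₂ (shS (τ b).1 (τ b).2 σ) ∈ L₁ r → r ∈ Zq
  anchor' : ∀ σ ∈ tiles s 𝒯, ∀ r ∈ Seg w, e₂ σ ∈ L₁ r → r ∈ LR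
  /-- the given light rows -/
  LR₀_sub : LR₀ ⊆ LR
  le_a : r ≤ a
  le_w : a + 2 * n₀ + r ≤ w
  /-- the number of rows of `Zq` inside of the square -/
  few' : {s | s ∈ Zq ∧ segNear s ∈ Box a n₀}.ncard ≤ C
  /-- the rows near to the points of `P` -/
  near : ∀ v ∈ P, ∀ s ∈ Seg w, SqN r v (segNear s) ∨ SqN r v (segFar s) → s ∈ Zq
  /-- the outer ring -/
  out : ∀ s ∈ Seg w, segNear s ∉ Box a n₀ → segFar s ∉ Box a n₀ → s ∈ Zq
  nb : NB Zq (VS Zq)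
  Za_sub : ∀ r ∈ Za, r ∈ Seg w → r ∈ Zq
  /-- the ring is contained in a layer of width `C` -/
  lay : ∀ s ∈ Seg w, ¬ (segNear s ∈ Box a n₀ ∧ segFar s ∈ Box a n₀) → s ∈ layer w C
  /-- `Zq` = ring and squares; the squares are deep and far apart -/
  sq : ∃ (Q : Finset (ℕ × ℕ)) (rZ : ℕ), SqZ w r C a n₀ rZ Q Zq

lemma tiles_le_coresH {s : ℕ} {𝒯 : Finset (ℕ × ℕ)} : tiles s 𝒯 ⊆ cores s 𝒯 := by
  rintro σ ⟨t, ht, σ', hσ', rfl⟩
  refine ⟨t, ht, σ', ?_, rfl⟩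
  revert hσ'
  rcases σ' with ⟨b, i, j⟩
  intro h
  cases b
  · rw [mem_core_f]
    simp [Seg] at h
    omega
  · rw [mem_core_t]
    simp [Seg] at h
    omega

/-- **The geometry.** -/
theorem exists_geoH (p r κ : ℕ) : ∃ C : ℕ, ∀ (η : ℕ) (F : ℕ → ℕ), ∃ w₁ : ℕ,
    ∀ {α : Type u} (M : Matroid α) [M.Finite] (w s : ℕ) (𝒯 : Finset (ℕ × ℕ))
    (L₁ : Bool × ℕ × ℕ → List α) (f₁ : α → Sym2 ((ℕ × ℕ) ⊕ α)) (e₁ : Bool × ℕ × ℕ → α) (u₁ : ℕ)
    (e₂ : Bool × ℕ × ℕ → α) (n : ℕ) (τ : ℕ → ℕ × ℕ) (P : Finset (ℕ × ℕ))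
    (Za : Finset (Bool × ℕ × ℕ)) (LR₀ : Set (Bool × ℕ × ℕ)),
    w₁ ≤ w → u₁ ≤ κ → GSide M (Seg w) L₁ f₁ e₁ u₁ → P.card + Za.card ≤ p → LR₀ ⊆ Seg w →
    2 * η * LR₀.ncard ≤ w ^ 2 → (∀ b < n, τ b ∈ 𝒯) →
    (∀ σ ∈ cores s 𝒯, ∀ r ∈ Seg w, e₂ σ ∈ L₁ r → r ∈ Za) →
    ∃ (a n₀ : ℕ) (Zq LR : Set (Bool × ℕ × ℕ)),
      GeoH M w s 𝒯 L₁ f₁ e₂ n τ r C η F P Za LR₀ a n₀ Zq LR := by
  classical
  obtain ⟨C, hC⟩ := exists_zq (p + κ) (r + 8)
  refine ⟨C, fun η F => ?_⟩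
  obtain ⟨w₁, hw₁⟩ := hC η F
  refine ⟨w₁ + 4, ?_⟩
  intro α M _ w s 𝒯 L₁ f₁ e₁ u₁ e₂ n τ P Za LR₀ hw hu hG hP hLR₀ hLRc hτ hanc
  obtain ⟨J, hJ, hJw, hkill⟩ := exists_kill hG (by omega)
  obtain ⟨P', hP'⟩ : ∃ P' : Finset (ℕ × ℕ), P' = P ∪ J ∪ Za.image segNear := ⟨_, rfl⟩
  have hPc : P'.card ≤ p + κ := by
    have h1 : P'.card ≤ (P.card + J.card) + Za.card := by
      rw [hP']
      refine (Finset.card_union_le _ _).trans ?_
      have h2 := Finset.card_union_le P J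
      have h3 := Finset.card_image_le (s := Za) (f := segNear)
      omega
    omega
  obtain ⟨a, n₀, Zq, LR, h⟩ := hw₁ w (by omega) P' hPc LR₀ hLR₀ hLRc
  have hZa : ∀ r ∈ Za, r ∈ Seg w → r ∈ Zq := by
    intro s hs hsw
    refine h.near (segNear s) ?_ s hsw (Or.inl ⟨?_, ?_, ?_, ?_⟩)
    · rw [hP']
      exact Finset.mem_union_right _ (Finset.mem_image_of_mem _ hs)
    all_goals omega
  have hZw : Zq ⊆ Seg w := h.Zq_sub.trans h.LR_sub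
  have hWn : Wn J ⊆ Zq := by
    rintro s ⟨j, hj, hs⟩
    have hjw := hJw j hj
    have hsw : s ∈ Seg w := by
      rw [← rg_full]
      revert hs
      rcases s with ⟨t, x, y⟩
      cases t
      · simp only [Rg]
        intro hs
        simp at hs ⊢
        omega
      · simp only [Rg]
        intro hs
        simp at hs ⊢
        omega
    refine h.near j ?_ s hsw (Or.inl ?_)
    · rw [hP']
      exact Finset.mem_union_left _ (Finset.mem_union_right _ hj)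
    · revert hs
      rcases s with ⟨t, x, y⟩
      cases t
      · simp only [Rg, segNear, SqN]
        intro hs
        simp at hs ⊢
        omega
      · simp only [Rg, segNear, SqN]
        intro hs
        simp at hs ⊢
        omega
  have hcz : ∀ σ ∈ cores s 𝒯, ∀ r ∈ Seg w, e₂ σ ∈ L₁ r → r ∈ Zq := fun σ hσ r hr hx =>
    hZa r (hanc σ hσ r hr hx) hr
  refine ⟨a, n₀, Zq, LR, ?_⟩
  refine
    { wall := h.wall
      Zq_sub := h.Zq_sub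
      LR_sub := h.LR_sub
      Zq_box := h.Zq_box
      ring := h.ring
      ne := h.ne
      big := h.big
      few := h.few
      light := h.light
      geo := h.geo
      kill := hkill Zq hZw hWn h.nb
      anchor := ?_
      anchor' := ?_
      LR₀_sub := h.LR₀_sub
      le_a := by have := h.le_a; omega
      le_w := by have := h.le_w; omega
      few' := h.few'
      near := ?_
      out := h.out
      nb := h.nb
      Za_sub := hZa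
      lay := h.lay
      sq := by
        obtain ⟨Q, rZ, hQ⟩ := h.sq
        exact ⟨Q, rZ, hQ.mono_r (by omega)⟩ }
  · intro b hb σ hσ r hr hx
    exact hcz _ (tiles_le_coresH ⟨τ b, hτ b hb, σ, hσ, rfl⟩) r hr hx
  · intro σ hσ r hr hx
    exact h.Zq_sub (hcz _ (tiles_le_coresH hσ) r hr hx)
  · intro v hv s hs hn
    refine h.near v ?_ s hs ?_
    · rw [hP']
      exact Finset.mem_union_left _ (Finset.mem_union_left _ hv)
    · rcases hn with hn | hn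
      · exact Or.inl (hn.mono (by omega))
      · exact Or.inr (hn.mono (by omega))

/-- **More light rows** (they may be found after `Zq`): `LR ∪ LR'`.  Take `exists_geoH` with `2 * η`. -/
theorem GeoH.addLR {α : Type u} {M : Matroid α} {w s : ℕ} {𝒯 : Finset (ℕ × ℕ)}
    {L₁ : Bool × ℕ × ℕ → List α} {f₁ : α → Sym2 ((ℕ × ℕ) ⊕ α)} {e₂ : Bool × ℕ × ℕ → α}
    {n : ℕ} {τ : ℕ → ℕ × ℕ} {r C η : ℕ} {F : ℕ → ℕ} {P : Finset (ℕ × ℕ)}
    {Za : Finset (Bool × ℕ × ℕ)} {LR₀ : Set (Bool × ℕ × ℕ)} {a n₀ : ℕ}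
    {Zq LR LR' : Set (Bool × ℕ × ℕ)}
    (hG : GeoH M w s 𝒯 L₁ f₁ e₂ n τ r C (2 * η) F P Za LR₀ a n₀ Zq LR)
    (hLR' : LR' ⊆ Seg w) (hc : 2 * η * LR'.ncard ≤ w ^ 2) :
    GeoH M w s 𝒯 L₁ f₁ e₂ n τ r C η F P Za (LR₀ ∪ LR') a n₀ Zq (LR ∪ LR') := by
  refine
    { wall := hG.wall
      Zq_sub := hG.Zq_sub.trans subset_union_left
      LR_sub := union_subset hG.LR_sub hLR'
      Zq_box := hG.Zq_box
      ring := fun r hr h => Or.inl (hG.ring r hr h)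
      ne := hG.ne
      big := hG.big
      few := hG.few
      light := ?_
      geo := hG.geo
      kill := hG.kill
      anchor := hG.anchor
      anchor' := fun σ hσ r hr hx => Or.inl (hG.anchor' σ hσ r hr hx)
      LR₀_sub := union_subset_union_left _ hG.LR₀_sub
      le_a := hG.le_a
      le_w := hG.le_w
      few' := hG.few'
      near := hG.near
      out := hG.out
      nb := hG.nb
      Za_sub := hG.Za_sub
      lay := hG.lay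
      sq := hG.sq }
  have h1 := hG.light
  have h2 : (LR ∪ LR').ncard ≤ LR.ncard + LR'.ncard := Set.ncard_union_le _ _
  have h3 : η * (LR ∪ LR').ncard ≤ η * (LR.ncard + LR'.ncard) := Nat.mul_le_mul_left _ h2
  have h4 : 2 * (η * (LR.ncard + LR'.ncard)) = 2 * η * LR.ncard + 2 * η * LR'.ncard := by ring
  omega

/-- The geometry for fewer tiles and for a larger matroid of the same rows is the same: only `kill`,
`anchor` and `anchor'` mention the data. -/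
theorem GeoH.change {α : Type u} {M M' : Matroid α} {w s : ℕ} {𝒯 𝒯' : Finset (ℕ × ℕ)}
    {L₁ L₁' : Bool × ℕ × ℕ → List α} {f₁ f₁' : α → Sym2 ((ℕ × ℕ) ⊕ α)}
    {e₂ : Bool × ℕ × ℕ → α} {n n' : ℕ} {τ τ' : ℕ → ℕ × ℕ} {r C η : ℕ} {F : ℕ → ℕ}
    {P : Finset (ℕ × ℕ)} {Za : Finset (Bool × ℕ × ℕ)} {LR₀ : Set (Bool × ℕ × ℕ)} {a n₀ : ℕ}
    {Zq LR : Set (Bool × ℕ × ℕ)}
    (hG : GeoH M w s 𝒯 L₁ f₁ e₂ n τ r C η F P Za LR₀ a n₀ Zq LR)
    (hL : ∀ r ∈ Seg w, ∀ x ∈ L₁' r, x ∈ L₁ r)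
    (hT : tiles s 𝒯' ⊆ tiles s 𝒯) (hτ : ∀ b < n', ∃ b' < n, τ' b = τ b')
    (hkill : ∃ N : Matroid α, N.Finite ∧ Bic N (crr L₁' (Seg w)) f₁' ∧
      rk N (crr L₁' Zq) = (LV L₁' f₁' Zq).ncard ∧
      ∀ X ⊆ crr L₁' (Seg w), rk M' (X ∪ crr L₁' Zq) + rk N (crr L₁' Zq) =
        rk N (X ∪ crr L₁' Zq) + rk M' (crr L₁' Zq)) :
    GeoH M' w s 𝒯' L₁' f₁' e₂ n' τ' r C η F P Za LR₀ a n₀ Zq LR := by
  refine
    { wall := hG.wall
      Zq_sub := hG.Zq_sub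
      LR_sub := hG.LR_sub
      Zq_box := hG.Zq_box
      ring := hG.ring
      ne := hG.ne
      big := hG.big
      few := hG.few
      light := hG.light
      geo := hG.geo
      kill := hkill
      anchor := ?_
      anchor' := fun σ hσ r hr hx => hG.anchor' σ (hT hσ) r hr (hL r hr _ hx)
      LR₀_sub := hG.LR₀_sub
      le_a := hG.le_a
      le_w := hG.le_w
      few' := hG.few'
      near := hG.near
      out := hG.out
      nb := hG.nb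
      Za_sub := hG.Za_sub
      lay := hG.lay
      sq := hG.sq }
  intro b hb σ hσ r hr hx
  obtain ⟨b', hb', he⟩ := hτ b hb
  rw [he] at hx
  exact hG.anchor b' hb' σ hσ r hr (hL r hr _ hx)

/-! ### Numerics: the labels on `Zq`, on the ring and on heavy rows -/

lemma layer_mono {w K K' : ℕ} (h : K ≤ K') : layer w K ⊆ layer w K' := by
  rintro r ⟨h1, h2⟩
  exact ⟨h1, by omega⟩

section

variable {α : Type u} {M : Matroid α} {w s : ℕ} {𝒯 : Finset (ℕ × ℕ)}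
  {L₁ : Bool × ℕ × ℕ → List α} {f₁ : α → Sym2 ((ℕ × ℕ) ⊕ α)} {e₂ : Bool × ℕ × ℕ → α}
  {n : ℕ} {τ : ℕ → ℕ × ℕ} {r C η : ℕ} {F : ℕ → ℕ} {P : Finset (ℕ × ℕ)}
  {Za : Finset (Bool × ℕ × ℕ)} {LR₀ : Set (Bool × ℕ × ℕ)} {a n₀ : ℕ}
  {Zq LR : Set (Bool × ℕ × ℕ)} {d L h K₀ m : ℕ} {R : ℕ → Bool × ℕ × ℕ}

/-- labels on boundedly many rows (`hD` = density (a)) -/
lemma labels_rows (hD : ∀ r ∈ Seg w, d * {i | i < m ∧ R i = r}.ncard < w ^ 2)
    {Q : Set (Bool × ℕ × ℕ)} (hQ : Q ⊆ Seg w)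
    (fQ : Q.Finite) : d * {i | i < m ∧ R i ∈ Q}.ncard ≤ Q.ncard * w ^ 2 := by
  classical
  have h1 : {i | i < m ∧ R i ∈ Q} ⊆ ⋃ s ∈ fQ.toFinset, {i | i < m ∧ R i = s} := by
    rintro i ⟨hi, hR⟩
    simp only [mem_iUnion]
    exact ⟨R i, fQ.mem_toFinset.2 hR, hi, rfl⟩
  have hf : ∀ s, {i | i < m ∧ R i = s}.Finite := fun s =>
    (Set.finite_Iio m).subset fun i hi => hi.1
  have h2 : {i | i < m ∧ R i ∈ Q}.ncard ≤ ∑ s ∈ fQ.toFinset, {i | i < m ∧ R i = s}.ncard := by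
    refine (Set.ncard_le_ncard h1 (Set.Finite.biUnion (Finset.finite_toSet _) fun s _ =>
      hf s)).trans ?_
    exact Finset.set_ncard_biUnion_le _ _
  calc d * {i | i < m ∧ R i ∈ Q}.ncard
      ≤ d * ∑ s ∈ fQ.toFinset, {i | i < m ∧ R i = s}.ncard := Nat.mul_le_mul_left _ h2
    _ = ∑ s ∈ fQ.toFinset, d * {i | i < m ∧ R i = s}.ncard := Finset.mul_sum _ _ _
    _ ≤ ∑ s ∈ fQ.toFinset, w ^ 2 := by
        refine Finset.sum_le_sum fun s hs => ?_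
        exact (hD s (hQ (fQ.mem_toFinset.1 hs))).le
    _ = Q.ncard * w ^ 2 := by
        rw [Finset.sum_const, smul_eq_mul, Set.ncard_eq_toFinset_card Q fQ]

/-- **The labels on `Zq` and on the ring are few** (`hD` = density (a), `hc` = density (c)). -/
theorem GeoH.labels (hG : GeoH M w s 𝒯 L₁ f₁ e₂ n τ r C η F P Za LR₀ a n₀ Zq LR)
    (hD : ∀ r ∈ Seg w, d * {i | i < m ∧ R i = r}.ncard < w ^ 2)
    (hc : d * {i | i < m ∧ R i ∈ layer w K₀}.ncard ≤ w ^ 2) (hK : C ≤ K₀) :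
    d * {i | i < m ∧ R i ∈ Seg w ∧
      (R i ∈ Zq ∨ ¬ (segNear (R i) ∈ Box a n₀ ∧ segFar (R i) ∈ Box a n₀))}.ncard ≤
        (C + 1) * w ^ 2 := by
  classical
  obtain ⟨Q, hQ⟩ : ∃ Q : Set (Bool × ℕ × ℕ), Q = {s | s ∈ Zq ∧ segNear s ∈ Box a n₀} := ⟨_, rfl⟩
  have hZw : Zq ⊆ Seg w := hG.Zq_sub.trans hG.LR_sub
  have hQw : Q ⊆ Seg w := by
    rw [hQ]
    exact fun x hx => hZw hx.1
  have fQ : Q.Finite := (Seg_finite w).subset hQw
  have h1 : {i | i < m ∧ R i ∈ Seg w ∧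
      (R i ∈ Zq ∨ ¬ (segNear (R i) ∈ Box a n₀ ∧ segFar (R i) ∈ Box a n₀))} ⊆
      {i | i < m ∧ R i ∈ Q} ∪ {i | i < m ∧ R i ∈ layer w K₀} := by
    rintro i ⟨hi, hw, hR⟩
    by_cases h2 : segNear (R i) ∈ Box a n₀ ∧ segFar (R i) ∈ Box a n₀
    · rcases hR with hR | hR
      · left
        rw [hQ]
        exact ⟨hi, hR, h2.1⟩
      · exact absurd h2 hR
    · right
      exact ⟨hi, layer_mono hK (hG.lay _ hw h2)⟩
  have fA : ∀ p : ℕ → Prop, {i | i < m ∧ p i}.Finite := fun p =>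
    (Set.finite_Iio m).subset fun i hi => hi.1
  have h2 := (Set.ncard_le_ncard h1 ((fA _).union (fA _))).trans (Set.ncard_union_le _ _)
  have h3 := labels_rows hD hQw fQ
  have h4 : Q.ncard ≤ C := by
    rw [hQ]
    exact hG.few'
  have h6 : Q.ncard * w ^ 2 ≤ C * w ^ 2 := Nat.mul_le_mul_right _ h4
  have h7 := Nat.mul_le_mul_left d h2
  have h8 : (C + 1) * w ^ 2 = C * w ^ 2 + w ^ 2 := by ring
  rw [Nat.mul_add] at h7
  omega

/-- **There are few heavy rows** (`hD` = density (d)). -/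
theorem heavy_rows (hD : h * {i | i < m ∧ L < {j | j < m ∧ R j = R i}.ncard}.ncard ≤ w ^ 2) :
    h * {s | s ∈ Seg w ∧ L < {i | i < m ∧ R i = s}.ncard}.ncard ≤ w ^ 2 := by
  classical
  obtain ⟨H, hH⟩ : ∃ H : Set (Bool × ℕ × ℕ), H = {s | s ∈ Seg w ∧ L < {i | i < m ∧ R i = s}.ncard} :=
    ⟨_, rfl⟩
  have fH : H.Finite := by
    rw [hH]
    exact (Seg_finite w).subset fun s hs => hs.1
  have fB : {i | i < m ∧ L < {j | j < m ∧ R j = R i}.ncard}.Finite :=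
    (Set.finite_Iio m).subset fun i hi => hi.1
  have h1 : H ⊆ R '' {i | i < m ∧ L < {j | j < m ∧ R j = R i}.ncard} := by
    intro s hs
    rw [hH] at hs
    have h2 : {i | i < m ∧ R i = s}.Nonempty := by
      by_contra hcon
      rw [Set.not_nonempty_iff_eq_empty] at hcon
      have h3 := hs.2
      rw [hcon, Set.ncard_empty] at h3
      omega
    obtain ⟨i, hi, hR⟩ := h2
    refine ⟨i, ⟨hi, ?_⟩, hR⟩
    rw [hR]
    exact hs.2
  rw [← hH]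
  have h2 : H.ncard ≤ {i | i < m ∧ L < {j | j < m ∧ R j = R i}.ncard}.ncard :=
    (Set.ncard_le_ncard h1 (fB.image _)).trans (Set.ncard_image_le fB)
  exact (Nat.mul_le_mul_left _ h2).trans hD

end

end TSH
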