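import Pool.Agent.TST.FDef
import Pool.Agent.CW.Kill

/-!
# T-star: the field `kill` after the contraction of conflicts

`kill_con`: if the rows `Zq` kill the lift of `M`, then they kill the lift of `M ／ Z` (`Z` = some
conflicts on rows).
-/

open Set BIC BICS CWL
open scoped Matroid

namespace TSH

universe u

variable {α : Type u} {M N : Matroid α} {w u₁ : ℕ} {S : Set (Bool × ℕ × ℕ)}
  {L : Bool × ℕ × ℕ → List α} {f f' : α → Sym2 ((ℕ × ℕ) ⊕ α)} {e : Bool × ℕ × ℕ → α}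

lemma end_eq_congr {f g : α → Sym2 ((ℕ × ℕ) ⊕ α)}
    (hf : ∀ s ∈ S, ∀ (i : ℕ) (h : i < (L s).length),
      f ((L s)[i]) = s(node s (L s) i, node s (L s) (i + 1)))
    (hg : ∀ s ∈ S, ∀ (i : ℕ) (h : i < (L s).length),
      g ((L s)[i]) = s(node s (L s) i, node s (L s) (i + 1))) : ∀ x ∈ crr L S, f x = g x := by
  rintro x ⟨s, hs, hx⟩
  obtain ⟨i, hi, rfl⟩ := List.mem_iff_getElem.1 hx
  rw [hf s hs i hi, hg s hs i hi]

/-- the bicircular matroid after the contraction of conflicts -/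
theorem bic_con [M.Finite] [N.Finite] (hG : GSide M S L f e u₁) (hN : Bic N (crr L S) f)
    {Z : Set α} (hZ : Z ⊆ crr L S) (hZe : ∀ s ∈ S, e s ∉ Z)
    (hG' : GSide (M ／ Z) S (lrem L Z) f' e u₁) : Bic (N ／ Z) (crr (lrem L Z) S) f' := by
  have hGN : GSide N S L f e 0 := ⟨hG.nodup, hG.disj, hG.end_eq, lift_of_bic hN, hG.last⟩
  obtain ⟨g, hg⟩ := hGN.contract hZ hZe
  have hfin : (N ／ Z).Finite := BQ.fin_contract Z
  obtain ⟨h0, N', h1, h2, h3, h4⟩ := hg.lift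
  have hr : ∀ X ⊆ crr (lrem L Z) S, rk (N ／ Z) X = rk N' X := by
    intro X hX
    have a1 := h4 X hX
    have a2 := h3 ∅ X (empty_subset _) hX
    rw [rk_empty, rk_empty] at a2
    omega
  have h5 : Bic (N ／ Z) (crr (lrem L Z) S) g := by
    refine Bic_of_rk h2 h0 fun X hX => ?_
    exact hr X hX
  have h6 : ∀ x ∈ crr (lrem L Z) S, f' x = g x := end_eq_congr hG'.end_eq hg.end_eq
  exact ((bicU_zero h5).congr h6).bic

/-- **The field `kill` after the contraction of conflicts.** -/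
theorem kill_con [M.Finite] (hG : GSide M (Seg w) L f e u₁) {Zq : Set (Bool × ℕ × ℕ)}
    (hZq : Zq ⊆ Seg w) (hnb : NB Zq (VS Zq))
    (hk : ∃ N : Matroid α, N.Finite ∧ Bic N (crr L (Seg w)) f ∧
      rk N (crr L Zq) = (LV L f Zq).ncard ∧
      ∀ X ⊆ crr L (Seg w), rk M (X ∪ crr L Zq) + rk N (crr L Zq) =
        rk N (X ∪ crr L Zq) + rk M (crr L Zq))
    {Z : Set α} (hZ : Z ⊆ crr L (Seg w)) (hZe : ∀ s ∈ Seg w, e s ∉ Z)
    (hG' : GSide (M ／ Z) (Seg w) (lrem L Z) f' e u₁) :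
    ∃ N : Matroid α, N.Finite ∧ Bic N (crr (lrem L Z) (Seg w)) f' ∧
      rk N (crr (lrem L Z) Zq) = (LV (lrem L Z) f' Zq).ncard ∧
      ∀ X ⊆ crr (lrem L Z) (Seg w), rk (M ／ Z) (X ∪ crr (lrem L Z) Zq) + rk N (crr (lrem L Z) Zq) =
        rk N (X ∪ crr (lrem L Z) Zq) + rk (M ／ Z) (crr (lrem L Z) Zq) := by
  obtain ⟨N, hNf, hN, _, hk⟩ := hk
  have hfN : (N ／ Z).Finite := BQ.fin_contract Z
  have hfM : (M ／ Z).Finite := BQ.fin_contract Z
  have hN' := bic_con hG hN hZ hZe hG'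
  refine ⟨N ／ Z, hfN, hN', hG'.rk_nodes hN' hZq hnb, ?_⟩
  intro X hX
  have hSE : crr L (Seg w) ⊆ M.E := hG.sub_ground
  have hSN : crr L (Seg w) ⊆ N.E := hN.sub
  rw [crr_lrem] at hX ⊢
  have hQ : crr L Zq ⊆ crr L (Seg w) := crr_mono hZq
  have e1 : X ∪ crr L Zq \ Z ⊆ crr L (Seg w) \ Z :=
    union_subset hX (sdiff_subset_sdiff_left hQ)
  have e2 : crr L Zq \ Z ⊆ crr L (Seg w) \ Z := sdiff_subset_sdiff_left hQ
  have e3 : (X ∪ crr L Zq \ Z) ∪ Z = (X ∪ Z) ∪ crr L Zq := by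
    ext a
    simp only [mem_union, mem_sdiff]
    tauto
  have e4 : (crr L Zq \ Z) ∪ Z = Z ∪ crr L Zq := by
    ext a
    simp only [mem_union, mem_sdiff]
    tauto
  have m1 := rk_contract_set (M := M) (C := Z) (hZ.trans hSE) (e1.trans (sdiff_subset_sdiff_left hSE))
  have m2 := rk_contract_set (M := M) (C := Z) (hZ.trans hSE) (e2.trans (sdiff_subset_sdiff_left hSE))
  have n1 := rk_contract_set (M := N) (C := Z) (hZ.trans hSN) (e1.trans (sdiff_subset_sdiff_left hSN))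
  have n2 := rk_contract_set (M := N) (C := Z) (hZ.trans hSN) (e2.trans (sdiff_subset_sdiff_left hSN))
  rw [e3] at m1 n1
  rw [e4] at m2 n2
  have k1 := hk (X ∪ Z) (union_subset (hX.trans sdiff_subset) hZ)
  have k2 := hk Z hZ
  omega

end TSH
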