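import Pool.Agent.TST.HonMake
import Pool.Agent.TST.BCon
import Pool.Agent.TST.KillCon
import Pool.Agent.TST.GeoH

/-!
# T-star: `HonOut` after the contraction of the unused conflicts

`honOut_con`: as `honOut_of`, for the matroid `M ／ unus m N n R c κ Q` (`Q` = rows of `LR`, for example
`Zq` and the ring); all facts about the rungs are facts about `M`, only LIFT is asked for the minor.
-/

open Set BIC BICS CWL
open scoped Matroid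

namespace TSH

universe u

open Mdl Mdj EN Gad TST EN.Wall

/-- fewer tiles -/
lemma HonOut.fewer {α : Type u} {M : Matroid α} {w s : ℕ} {𝒯 : Finset (ℕ × ℕ)}
    {L₁ : Bool × ℕ × ℕ → List α} {f₁ : α → Sym2 ((ℕ × ℕ) ⊕ α)} {e₁ : Bool × ℕ × ℕ → α} {u₁ : ℕ}
    {L₂ : Bool × ℕ × ℕ → List α} {f₂ : α → Sym2 ((ℕ × ℕ) ⊕ α)} {e₂ : Bool × ℕ × ℕ → α} {u₂ : ℕ}
    {n n' m : ℕ} {τ : ℕ → ℕ × ℕ} {R : ℕ → Bool × ℕ × ℕ} {c : ℕ → ℕ → α}
    {a n₀ ρ η : ℕ} {F : ℕ → ℕ} {Zq LR : Set (Bool × ℕ × ℕ)} {T : Set α}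
    {r₁ r₂ : α → Bool × ℕ × ℕ} {A₁ A₂ : α → Set α} {kc : ℕ} {cls : ℕ → ℕ} {pv : Set ℕ}
    (h : HonOut M w s 𝒯 L₁ f₁ e₁ u₁ L₂ f₂ e₂ u₂ n m τ R c a n₀ ρ η F Zq LR T r₁ r₂ A₁ A₂ kc cls pv)
    (hn : n' ≤ n) :
    HonOut M w s 𝒯 L₁ f₁ e₁ u₁ L₂ f₂ e₂ u₂ n' m τ R c a n₀ ρ η F Zq LR T r₁ r₂ A₁ A₂ kc cls pv :=
  { h with
    tau := fun b hb => h.tau b (hb.trans_le hn)
    lab := fun i hi b hb => h.lab i hi b (hb.trans_le hn)
    inj := fun i hi b hb j hj b' hb' => h.inj i hi b (hb.trans_le hn) j hj b' (hb'.trans_le hn)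
    tile := fun b hb => h.tile b (hb.trans_le hn)
    anchor := fun b hb => h.anchor b (hb.trans_le hn)
    conn := by
      intro i hi j hj h1 h2 h3 h4
      refine Relation.ReflTransGen.mono ?_ _ _ (h.conn i hi j hj h1 h2 h3 h4)
      rintro x y ⟨h5, h6, h7, h8⟩
      exact ⟨h5, h6, h7, fun a b hab hb => h8 a b hab (hb.trans_le hn)⟩ }

/-- fewer rungs -/
lemma RgFacts.mono {α : Type u} {M : Matroid α} {w : ℕ} {L₁ : Bool × ℕ × ℕ → List α}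
    {Zq LR : Set (Bool × ℕ × ℕ)} {Rg T : Set α} {pr : α → Bool → Bool × ℕ × ℕ}
    {pa : α → Bool → Set α} (h : RgFacts M w L₁ Zq LR Rg pr pa) (hT : T ⊆ Rg) :
    RgFacts M w L₁ Zq LR T pr pa where
  row := fun t ht => h.row t (hT ht)
  sub := fun t ht => h.sub t (hT ht)
  ne := fun t ht => h.ne t (hT ht)
  sep := fun t ht => h.sep t (hT ht)
  sep' := fun t ht => h.sep' t (hT ht)
  dif := fun t ht => h.dif t (hT ht)
  brn := fun t ht => h.brn t (hT ht)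

/-- the facts on the rungs after the contraction of elements on rows of `LR` -/
lemma RgFacts.con {α : Type u} {M : Matroid α} {w : ℕ} {L₁ : Bool × ℕ × ℕ → List α}
    {Zq LR : Set (Bool × ℕ × ℕ)} {Rg : Set α} {pr : α → Bool → Bool × ℕ × ℕ}
    {pa : α → Bool → Set α} (h : RgFacts M w L₁ Zq LR Rg pr pa) {Z : Set α}
    (hZ : Z ⊆ crr L₁ (Seg w)) (hZL : ∀ r ∈ Seg w, r ∉ LR → ∀ x ∈ L₁ r, x ∉ Z)
    (hRZ : ∀ t ∈ Rg, t ∉ Z) : RgFacts (M ／ Z) w (lrem L₁ Z) Zq LR Rg pr pa := by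
  have hL : ∀ t ∈ Rg, ∀ i, ∀ x, x ∈ lrem L₁ Z (pr t i) ↔ x ∈ L₁ (pr t i) := by
    intro t ht i x
    rw [mem_lrem]
    exact ⟨fun h' => h'.1, fun h' => ⟨h', hZL _ (h.row t ht i).1 (h.row t ht i).2 x h'⟩⟩
  have hS : ∀ t ∈ Rg, ∀ r, ∀ x ∈ lrem L₁ Z r, ∀ y ∈ lrem L₁ Z r,
      (Sees (M ／ Z) (crr (lrem L₁ Z) (Seg w)) t x y ↔ Sees M (crr L₁ (Seg w)) t x y) := by
    intro t ht r x hx y hy
    rw [crr_lrem]
    exact sees_con hZ (hRZ t ht) (mem_lrem.1 hx).2 (mem_lrem.1 hy).2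
  refine
    { row := h.row
      sub := ?_
      ne := ?_
      sep := ?_
      sep' := ?_
      dif := ?_
      brn := ?_ }
  · intro t ht i x hx
    exact (hL t ht i x).2 (h.sub t ht i hx)
  · intro t ht i
    obtain ⟨⟨x, h1, h2⟩, y, h3, h4⟩ := h.ne t ht i
    exact ⟨⟨x, (hL t ht i x).2 h1, h2⟩, y, (hL t ht i y).2 h3, h4⟩
  · intro t ht r hr hrZ x hx y hy hxy hs
    exact h.sep t ht r hr hrZ x (mem_lrem.1 hx).1 y (mem_lrem.1 hy).1 hxy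
      ((hS t ht r x hx y hy).1 hs)
  · intro t ht r hr hrZ x hx y hy hxy hs
    exact (hS t ht r x hx y hy).2 (h.sep' t ht r hr hrZ x (mem_lrem.1 hx).1 y (mem_lrem.1 hy).1 hxy
      hs)
  · intro t ht htt
    obtain ⟨x, hx, hx'⟩ := h.dif t ht htt
    exact ⟨x, (hL t ht false x).2 hx, hx'⟩
  · intro t ht p hp hpZ C h1 h2
    have h3 := h.brn t ht p hp hpZ C (fun r hr hrp => ⟨(mem_lrem.1 (h1 r hr hrp).1).1, (h1 r hr hrp).2⟩)
      (fun r hr hrp => ⟨(mem_lrem.1 (h2 r hr hrp).1).1, (h2 r hr hrp).2⟩)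
    rw [crr_lrem, Matroid.contract_closure_eq]
    refine ⟨M.closure_subset_closure ?_ h3, hRZ t ht⟩
    rintro x ⟨hx, hx'⟩
    by_cases hxZ : x ∈ Z
    · exact Or.inr hxZ
    · exact Or.inl ⟨⟨hx, hxZ⟩, hx'⟩

/-- **Assembly of `HonOut` after the contraction of the unused conflicts on the rows of `Q`**; the
rungs `T` with their places are given directly. -/
theorem honOut_conT {α : Type u} {M : Matroid α} [M.Finite] {w s : ℕ} {𝒯 : Finset (ℕ × ℕ)}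
    {L₁ : Bool × ℕ × ℕ → List α} {f₁ : α → Sym2 ((ℕ × ℕ) ⊕ α)} {e₁ : Bool × ℕ × ℕ → α} {u₁ : ℕ}
    {L₂ : Bool × ℕ × ℕ → List α} {f₂ : α → Sym2 ((ℕ × ℕ) ⊕ α)} {e₂ : Bool × ℕ × ℕ → α} {u₂ : ℕ}
    {D : Set α} {σ N m : ℕ} {τ : ℕ → ℕ × ℕ} {R : ℕ → Bool × ℕ × ℕ} {c : ℕ → ℕ → α}
    {Za : Finset (Bool × ℕ × ℕ)} (hB : BSys M w s 𝒯 L₁ f₁ e₁ u₁ L₂ f₂ e₂ u₂ D σ N m τ R c Za)
    -- the geometry
    {a n₀ r C η n₁ : ℕ} {F : ℕ → ℕ} {P : Finset (ℕ × ℕ)} {LR₀ Zq LR : Set (Bool × ℕ × ℕ)}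
    (hZ : GeoH M w s 𝒯 L₁ f₁ e₂ n₁ τ r C η F P Za LR₀ a n₀ Zq LR)
    -- the tiles, the rungs with their places
    {n : ℕ} {κ : ℕ → ℕ} (hmono : ∀ a b, a < b → b < n → κ a < κ b) (hκ : ∀ b < n, κ b < N)
    {T : Set α} {pr : α → Bool → Bool × ℕ × ℕ} {pa : α → Bool → Set α} (hTD : T ⊆ D)
    (hRg : RgFacts M w L₁ Zq LR T pr pa)
    (hch : ∀ t ∈ T, ∀ t' ∈ T, ∀ i j, pr t i = pr t' j → pa t i ⊆ pa t' j ∨ pa t' j ⊆ pa t i)
    -- the classes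
    {kc : ℕ} {cls : ℕ → ℕ} {pv : Set ℕ} (hcls : ∀ i < m, R i ∉ LR → cls i < kc)
    (hpv : ∀ k ∈ pv, ∃ v v' : ℕ × ℕ, ∀ i < m, R i ∉ LR → cls i = k →
      (segNear (R i) = v ∨ segFar (R i) = v) ∨ (segNear (R i) = v' ∨ segFar (R i) = v'))
    (hconn : ∀ i < m, ∀ j < m, R i ∉ LR → R j ∉ LR → cls i = cls j → cls i ∉ pv →
      Relation.ReflTransGen (fun x y => (x < m ∧ R x ∉ LR) ∧ (y < m ∧ R y ∉ LR) ∧ cls x = cls y ∧
        ∀ a b, a < b → b < n → ∃ t ∈ T, Sees M (crr L₁ (Seg w)) t (c x (κ a)) (c x (κ b)) ∧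
          Sees M (crr L₁ (Seg w)) t (c y (κ a)) (c y (κ b))) i j)
    -- the contracted rows
    {Q : Set (Bool × ℕ × ℕ)} (hQ : Q ⊆ LR)
    -- LIFT and the count
    {ρ : ℕ} (lift : ∀ (L : Bool × ℕ × ℕ → List α) (f : α → Sym2 ((ℕ × ℕ) ⊕ α))
      (e : Bool × ℕ × ℕ → α), (∀ r ∈ Seg w, (L r).Perm (lrem L₁ (unus m N n R c κ Q) r)) →
      GSide (M ／ unus m N n R c κ Q) (Seg w) L f e u₁ →
      rk (M ／ unus m N n R c κ Q) (T ∪ SA L f w Zq) ≤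
        rk (M ／ unus m N n R c κ Q) (SA L f w Zq) + ρ)
    (hkc : η * kc ≤ w ^ 2) :
    ∃ f₁' : α → Sym2 ((ℕ × ℕ) ⊕ α),
      HonOut (M ／ unus m N n R c κ Q) w s ((Finset.range n).image fun b => τ (κ b))
        (lrem L₁ (unus m N n R c κ Q)) f₁' e₁ u₁ L₂ f₂ e₂ u₂ n m (fun b => τ (κ b)) R
        (fun i b => c i (κ b)) a n₀ ρ η F Zq LR T (fun t => pr t false) (fun t => pr t true)
        (fun t => pa t false) (fun t => pa t true) kc cls pv := by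
  classical
  obtain ⟨f₁', hP⟩ := hB.con_pair (Q := Q) hκ
  obtain ⟨Z, hZd⟩ : ∃ Z, Z = unus m N n R c κ Q := ⟨_, rfl⟩
  have hZS : Z ⊆ crr L₁ (Seg w) := by rw [hZd]; exact hB.unus_sub
  have hSE : crr L₁ (Seg w) ⊆ M.E := hB.pair.s₁.sub_ground
  have hDZ : Disjoint D Z := by rw [hZd]; exact hB.unus_D
  have hZe : ∀ r ∈ Seg w, e₁ r ∉ Z := by rw [hZd]; exact hB.unus_anc
  have hused : ∀ i < m, ∀ b < n, c i (κ b) ∉ Z := fun i hi b hb => by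
    rw [hZd]
    exact hB.used hκ hi hb
  have hfM : (M ／ Z).Finite := BQ.fin_contract _
  rw [← hZd] at hP lift ⊢
  have hTZ : Disjoint T Z := hDZ.mono_left hTD
  have htc : ∀ t : ℕ × ℕ, shS t.1 t.2 '' Seg s ⊆ shS t.1 t.2 '' core (s + 2) :=
    fun t => image_mono seg_sub_core
  have hZL : ∀ r ∈ Seg w, r ∉ LR → ∀ x ∈ L₁ r, x ∉ Z := by
    intro r hr hrL x hx hxZ
    rw [hZd] at hxZ
    obtain ⟨i, hi, hiQ, b, hb, _, rfl⟩ := hxZ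
    have h1 := hB.pair.s₁.uniq hr (hB.row i hi) hx (hB.mem i hi b hb)
    rw [h1] at hrL
    exact hrL (hQ hiQ)
  have hRg' := hRg.con hZS hZL fun t ht htZ => Set.disjoint_left.1 hTZ ht htZ
  have hsees : ∀ t ∈ T, ∀ i < m, ∀ a < n, ∀ b < n,
      Sees M (crr L₁ (Seg w)) t (c i (κ a)) (c i (κ b)) →
      Sees (M ／ Z) (crr (lrem L₁ Z) (Seg w)) t (c i (κ a)) (c i (κ b)) := by
    intro t ht i hi a ha b hb h
    rw [crr_lrem]
    exact (sees_con hZS (fun h' => Set.disjoint_left.1 hTZ ht h') (hused i hi a ha)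
      (hused i hi b hb)).2 h
  have hT𝒯 : tiles s ((Finset.range n).image fun b => τ (κ b)) ⊆ tiles s 𝒯 := by
    rintro σ' ⟨t, ht, hσ⟩
    rw [Finset.mem_image] at ht
    obtain ⟨b, hb, rfl⟩ := ht
    exact ⟨_, hB.tau _ (hκ b (Finset.mem_range.1 hb)), hσ⟩
  have hTcl : T ⊆ (M ／ Z).closure (crr (lrem L₁ Z) (Seg w)) := by
    intro t ht
    rw [crr_lrem, Matroid.contract_closure_eq, sdiff_union_of_subset hZS]
    exact ⟨hB.D_cl (hTD ht), fun h' => Set.disjoint_left.1 hTZ ht h'⟩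
  refine ⟨f₁', ?_⟩
  refine
    { pair := hP.subset₂ tiles_sub_cores
      tau := fun b hb => Finset.mem_image_of_mem _ (Finset.mem_range.2 hb)
      row := hB.row
      lab := fun i hi b hb => mem_lrem.2 ⟨hB.mem i hi _ (hκ b hb), hused i hi b hb⟩
      inj := ?_
      tile := ?_
      anchor := ?_
      anchor' := ?_
      wall := hZ.wall
      Zq_sub := hZ.Zq_sub
      LR_sub := hZ.LR_sub
      Zq_box := hZ.Zq_box
      ring := hZ.ring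
      ne := hZ.ne
      big := hZ.big
      few := hZ.few
      light := hZ.light
      geo := hZ.geo
      kill := kill_con hB.pair.s₁ (hZ.Zq_sub.trans hZ.LR_sub) hZ.nb hZ.kill hZS hZe hP.s₁
      T_cl := hTcl
      T₁ := ?_
      T₂ := ?_
      plc := hRg'.plc subset_rfl hch
      lift := lift
      kc_le := hkc
      cls_lt := hcls
      priv := hpv
      conn := ?_ }
  · intro i hi b hb j hj b' hb' hcc
    obtain ⟨h1, h2⟩ := hB.inj i hi _ (hκ b hb) j hj _ (hκ b' hb') hcc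
    refine ⟨h1, ?_⟩
    rcases Nat.lt_trichotomy b b' with h3 | h3 | h3
    · have := hmono b b' h3 hb'
      omega
    · exact h3
    · have := hmono b' b h3 hb
      omega
  · intro b hb r hr x hx hx'
    exact hB.tile _ (hκ b hb) x ⟨r, hr, (mem_lrem.1 hx).1⟩ (crr_mono (htc _) hx')
  · intro b hb σ' hσ r hr hx
    exact hZ.Za_sub _ (hB.anchor _ (tile_sub_cores (hB.tau _ (hκ b hb))
      ⟨σ', seg_sub_core hσ, rfl⟩) r hr (mem_lrem.1 hx).1) hr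
  · intro σ' hσ r hr hx
    exact hZ.Zq_sub (hZ.Za_sub _ (hB.anchor _ (tiles_sub_cores (hT𝒯 hσ)) r hr
      (mem_lrem.1 hx).1) hr)
  · rw [crr_lrem]
    exact (hB.D₁.mono_left hTD).mono_right sdiff_subset
  · exact (hB.D₂.mono_left hTD).mono_right (crr_mono (hT𝒯.trans tiles_sub_cores))
  · intro i hi j hj h1 h2 h3 h4
    refine (Relation.ReflTransGen.mono ?_) _ _ (hconn i hi j hj h1 h2 h3 h4)
    rintro x y ⟨hx, hy, hxy, hseen⟩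
    refine ⟨hx, hy, hxy, ?_⟩
    intro a' b' hab hb'
    obtain ⟨t, ht, h5, h6⟩ := hseen a' b' hab hb'
    exact ⟨t, ht, hsees t ht x hx.1 a' (hab.trans hb') b' hb' h5,
      hsees t ht y hy.1 a' (hab.trans hb') b' hb' h6⟩

/-- **Assembly of `HonOut` after the contraction of the unused conflicts on the rows of `Q`.** -/
theorem honOut_con {α : Type u} {M : Matroid α} [M.Finite] {w s : ℕ} {𝒯 : Finset (ℕ × ℕ)}
    {L₁ : Bool × ℕ × ℕ → List α} {f₁ : α → Sym2 ((ℕ × ℕ) ⊕ α)} {e₁ : Bool × ℕ × ℕ → α} {u₁ : ℕ}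
    {L₂ : Bool × ℕ × ℕ → List α} {f₂ : α → Sym2 ((ℕ × ℕ) ⊕ α)} {e₂ : Bool × ℕ × ℕ → α} {u₂ : ℕ}
    {D : Set α} {σ N m : ℕ} {τ : ℕ → ℕ × ℕ} {R : ℕ → Bool × ℕ × ℕ} {c : ℕ → ℕ → α}
    {Za : Finset (Bool × ℕ × ℕ)} (hB : BSys M w s 𝒯 L₁ f₁ e₁ u₁ L₂ f₂ e₂ u₂ D σ N m τ R c Za)
    {a n₀ r C η n₁ : ℕ} {F : ℕ → ℕ} {P : Finset (ℕ × ℕ)} {LR₀ Zq LR : Set (Bool × ℕ × ℕ)}
    (hZ : GeoH M w s 𝒯 L₁ f₁ e₂ n₁ τ r C η F P Za LR₀ a n₀ Zq LR)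
    {Dg Rg : Set α} {pr : α → Bool → Bool × ℕ × ℕ} {pa : α → Bool → Set α} {n : ℕ} {κ : ℕ → ℕ}
    {T : Set α} {kc : ℕ} {cls : ℕ → ℕ} {pv : Set ℕ} (hRD : Rg ⊆ D)
    (hRg : RgFacts M w L₁ Zq LR Rg pr pa)
    (hL : LabOut (Seg w \ LR) segNear segFar (Sees M (crr L₁ (Seg w))) Dg Rg pr pa m n N R c κ T
      kc cls pv) {Q : Set (Bool × ℕ × ℕ)} (hQ : Q ⊆ LR)
    {ρ : ℕ} (lift : ∀ (L : Bool × ℕ × ℕ → List α) (f : α → Sym2 ((ℕ × ℕ) ⊕ α))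
      (e : Bool × ℕ × ℕ → α), (∀ r ∈ Seg w, (L r).Perm (lrem L₁ (unus m N n R c κ Q) r)) →
      GSide (M ／ unus m N n R c κ Q) (Seg w) L f e u₁ →
      rk (M ／ unus m N n R c κ Q) (T ∪ SA L f w Zq) ≤
        rk (M ／ unus m N n R c κ Q) (SA L f w Zq) + ρ)
    (hkc : η * kc ≤ w ^ 2) :
    ∃ f₁' : α → Sym2 ((ℕ × ℕ) ⊕ α),
      HonOut (M ／ unus m N n R c κ Q) w s ((Finset.range n).image fun b => τ (κ b))
        (lrem L₁ (unus m N n R c κ Q)) f₁' e₁ u₁ L₂ f₂ e₂ u₂ n m (fun b => τ (κ b)) R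
        (fun i b => c i (κ b)) a n₀ ρ η F Zq LR T (fun t => pr t false) (fun t => pr t true)
        (fun t => pa t false) (fun t => pa t true) kc cls pv := by
  have hV : ∀ i < m, R i ∉ LR → R i ∈ Seg w \ LR := fun i hi h => ⟨hB.row i hi, h⟩
  refine honOut_conT hB hZ hL.mono hL.lt (hL.sub.trans hRD) (hRg.mono hL.sub) hL.chn
    (fun i hi h => hL.cls_lt i hi (hV i hi h)) ?_ ?_ hQ lift hkc
  · intro k hk
    obtain ⟨v, v', h⟩ := hL.priv k hk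
    exact ⟨v, v', fun i hi h1 h2 => h i hi (hV i hi h1) h2⟩
  · intro i hi j hj h1 h2 h3 h4
    refine (Relation.ReflTransGen.mono ?_) _ _ (hL.conn i hi j hj (hV i hi h1) (hV j hj h2) h3 h4)
    rintro x y ⟨⟨hx, hxR⟩, ⟨hy, hyR⟩, hxy, hseen⟩
    exact ⟨⟨hx, hxR.2⟩, ⟨hy, hyR.2⟩, hxy, hseen⟩

end TSH
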