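import Pool.Agent.TST.KcLe

/-!
# T-star: LIFT for the count (R8 / R9 joint)

`lift_light`: LIFT over a set which avoids the kept conflicts on the rows of `Q` gives LIFT over the
set of all elements which are no kept conflicts on the rows of `LR ⊇ Q`, for elements which see no row
of `LR \ Q`.  The bound gets the number of labels in addition.
-/

open Set BIC BICS CWL
open scoped Matroid

namespace TSH

universe u

open Mdl Mdj EN Gad TST EN.Wall

lemma mem_LtL {m : ℕ} {R : ℕ → Bool × ℕ × ℕ} {A : Set (Bool × ℕ × ℕ)} {i : ℕ} :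
    i ∈ LtL m R A ↔ i < m ∧ R i ∈ A := by
  classical
  unfold LtL
  rw [Finset.mem_filter, Finset.mem_range]

/-- **LIFT for the count.** -/
theorem lift_light {α : Type u} {M : Matroid α} [M.Finite] {w u₁ N n m ρ : ℕ}
    {L₁ : Bool × ℕ × ℕ → List α} {f₁ : α → Sym2 ((ℕ × ℕ) ⊕ α)} {e₁ : Bool × ℕ × ℕ → α}
    {R : ℕ → Bool × ℕ × ℕ} {c : ℕ → ℕ → α} {κ : ℕ → ℕ} {Q LR : Set (Bool × ℕ × ℕ)} {T₂ X : Set α}
    (hG : GSide M (Seg w) L₁ f₁ e₁ u₁)
    (row : ∀ i < m, R i ∈ Seg w) (mem : ∀ i < m, ∀ b < N, c i b ∈ L₁ (R i))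
    (inj : ∀ i < m, ∀ b < N, ∀ j < m, ∀ a < N, c i b = c j a → i = j ∧ b = a)
    (hκ : ∀ b < n, κ b < N) (hκi : ∀ a < n, ∀ b < n, κ a = κ b → a = b) (hn : 2 ≤ n)
    (hQ : Q ⊆ LR) (hT : T₂ ⊆ M.closure (crr L₁ (Seg w)))
    (hX : X ⊆ crr L₁ (Seg w) \ KL m R c Q ((Finset.range n).image κ))
    (lift : rk M (T₂ ∪ X) ≤ rk M X + ρ)
    (hns : ∀ z ∈ T₂, ∀ r ∈ Seg w, r ∈ LR → r ∉ Q → ∀ x ∈ L₁ r, ∀ y ∈ L₁ r, x ≠ y →
      ¬ Sees M (crr L₁ (Seg w)) z x y) :
    rk M (T₂ ∪ (crr L₁ (Seg w) \ KL m R c LR ((Finset.range n).image κ))) ≤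
      rk M (crr L₁ (Seg w) \ KL m R c LR ((Finset.range n).image κ)) + (ρ + m) := by
  classical
  obtain ⟨S, hS⟩ : ∃ S, S = crr L₁ (Seg w) := ⟨_, rfl⟩
  obtain ⟨K, hK⟩ : ∃ K : ℕ → Finset α, K = fun i => (Finset.range n).image fun b => c i (κ b) :=
    ⟨_, rfl⟩
  have memK : ∀ i x, x ∈ K i ↔ ∃ b < n, x = c i (κ b) := by
    intro i x
    rw [hK]
    simp only [Finset.mem_image, Finset.mem_range]
    constructor
    · rintro ⟨b, hb, rfl⟩
      exact ⟨b, hb, rfl⟩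
    · rintro ⟨b, hb, rfl⟩
      exact ⟨b, hb, rfl⟩
  have hKU : ∀ A : Set (Bool × ℕ × ℕ),
      TST.KU K (LtL m R A) = KL m R c A ((Finset.range n).image κ) := by
    intro A
    ext x
    rw [TST.mem_KU]
    unfold KL
    simp only [mem_LtL, mem_ofPred_eq]
    constructor
    · rintro ⟨i, ⟨hi, hiA⟩, hx⟩
      obtain ⟨b, hb, rfl⟩ := (memK i x).1 hx
      exact ⟨i, hi, hiA, κ b, Finset.mem_image_of_mem κ (Finset.mem_range.2 hb), rfl⟩
    · rintro ⟨i, hi, hiA, b, hb, rfl⟩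
      obtain ⟨a, ha, rfl⟩ := Finset.mem_image.1 hb
      exact ⟨i, ⟨hi, hiA⟩, (memK i _).2 ⟨a, Finset.mem_range.1 ha, rfl⟩⟩
  have hcard : ∀ i ∈ Finset.range m, (K i).card = n := by
    intro i hi
    rw [Finset.mem_range] at hi
    rw [hK]
    rw [Finset.card_image_of_injOn, Finset.card_range]
    intro a ha b hb hab
    rw [Finset.mem_coe, Finset.mem_range] at ha hb
    exact hκi a ha b hb (inj i hi _ (hκ a ha) i hi _ (hκ b hb) hab).2
  have hsub : ∀ i ∈ Finset.range m, (K i : Set α) ⊆ {x | x ∈ L₁ (R i)} := by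
    intro i hi x hx
    rw [Finset.mem_range] at hi
    obtain ⟨b, hb, rfl⟩ := (memK i x).1 (Finset.mem_coe.1 hx)
    exact mem i hi _ (hκ b hb)
  have hSE : S ⊆ M.E := by rw [hS]; exact hG.sub_ground
  have hloss : ∀ i ∈ Finset.range m, rk M (S \ K i) + n ≤ rk M S + 1 := by
    intro i hi
    have him := Finset.mem_range.1 hi
    have h1 := hG.cut (Q := (K i : Set α)) (fun x hx => ⟨R i, row i him, hsub i hi hx⟩)
    rw [Set.ncard_coe_finset, hcard i hi] at h1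
    have h2 : {r | r ∈ Seg w ∧ ∃ x ∈ (K i : Set α), x ∈ L₁ r} ⊆ {R i} := by
      rintro r ⟨hr, x, hx, hxr⟩
      exact hG.uniq hr (row i him) hxr (hsub i hi hx)
    have h3 := Set.ncard_le_ncard h2
    rw [Set.ncard_singleton] at h3
    rw [hS]
    omega
  have hdis : ∀ i ∈ Finset.range m, ∀ j ∈ Finset.range m, i ≠ j → Disjoint (K i) (K j) := by
    intro i hi j hj hij
    rw [Finset.mem_range] at hi hj
    rw [Finset.disjoint_left]
    intro x hx hx'
    obtain ⟨a, ha, rfl⟩ := (memK i x).1 hx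
    obtain ⟨b, hb, hab⟩ := (memK j _).1 hx'
    exact hij (inj i hi _ (hκ a ha) j hj _ (hκ b hb) hab).1
  have hunseen : ∀ i ∈ LtL m R (LR \ Q), T₂ ⊆ M.closure (S \ K i) := by
    intro i hi z hz
    obtain ⟨him, hiL, hiQ⟩ := mem_LtL.1 hi
    by_contra hcon
    have h1 : c i (κ 0) ∈ K i := (memK i _).2 ⟨0, by omega, rfl⟩
    have h2 : c i (κ 1) ∈ K i := (memK i _).2 ⟨1, by omega, rfl⟩
    have h3 : c i (κ 0) ≠ c i (κ 1) := by
      intro h
      have h4 := hκi 0 (by omega) 1 (by omega)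
        (inj i him _ (hκ 0 (by omega)) i him _ (hκ 1 (by omega)) h).2
      omega
    rw [hS] at hcon
    obtain ⟨a, ha, b, hb, hab, hs⟩ := see_pair hG (row i him) (K := (K i : Set α))
      (hsub i (Finset.mem_range.2 him)) (Finset.mem_coe.2 h1) (Finset.mem_coe.2 h2) h3 hcon
    exact hns z hz (R i) (row i him) hiL hiQ a (hsub i (Finset.mem_range.2 him) ha) b
      (hsub i (Finset.mem_range.2 him) hb) hab hs
  have hLr : ∀ A : Set (Bool × ℕ × ℕ), LtL m R A ⊆ Finset.range m := by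
    intro A i hi
    exact Finset.mem_range.2 (mem_LtL.1 hi).1
  have hf : rk M (T₂ ∪ (S \ TST.KU K (LtL m R Q))) ≤ rk M (S \ TST.KU K (LtL m R Q)) + ρ := by
    rw [hKU, hS]
    have h1 : rk M X + rk M (T₂ ∪ (crr L₁ (Seg w) \ KL m R c Q ((Finset.range n).image κ))) ≤
        rk M (T₂ ∪ X) + rk M (crr L₁ (Seg w) \ KL m R c Q ((Finset.range n).image κ)) := by
      refine rk_sub' (subset_inter subset_union_right hX) ?_
      rintro x (hx | hx)
      · exact Or.inl (Or.inl hx)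
      · exact Or.inr hx
    omega
  have hdJ : Disjoint (LtL m R Q) (LtL m R (LR \ Q)) := by
    rw [Finset.disjoint_left]
    intro i h1 h2
    exact (mem_LtL.1 h2).2.2 (mem_LtL.1 h1).2
  have key := TST.rk_light_add (M := M) (S := S) (G := T₂) (I := Finset.range m)
    (L₀ := LtL m R Q) (J := LtL m R (LR \ Q)) (K := K) (n := n) (p₀ := 1) (f := ρ) hSE hdis hcard
    hloss (by rw [hS]; exact hT) (hLr _) (hLr _) hdJ hunseen hf
  have hU : LtL m R Q ∪ LtL m R (LR \ Q) = LtL m R LR := by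
    ext i
    rw [Finset.mem_union, mem_LtL, mem_LtL, mem_LtL]
    simp only [mem_sdiff]
    constructor
    · rintro (⟨h1, h2⟩ | ⟨h1, h2, h3⟩)
      · exact ⟨h1, hQ h2⟩
      · exact ⟨h1, h2⟩
    · rintro ⟨h1, h2⟩
      by_cases h3 : R i ∈ Q
      · exact Or.inl ⟨h1, h3⟩
      · exact Or.inr ⟨h1, h2, h3⟩
  rw [hU, hKU, hS] at key
  have hJm : (LtL m R (LR \ Q)).card ≤ m := by
    have h1 := Finset.card_le_card (hLr (LR \ Q))
    rwa [Finset.card_range] at h1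
  rw [Nat.mul_one] at key
  omega

end TSH
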