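import Pool.Agent.TST.GDef
import Pool.Agent.TST.HonCon
import Pool.Agent.TST.LiftKc
import Pool.Agent.TST.ConGeo

/-!
# T-star: lemmas for the composition of Claim F
-/

open Set BIC BICS CWL
open scoped Matroid

namespace TSH

universe u

open Mdl Mdj EN Gad TST EN.Wall

section

variable {α : Type u} {M : Matroid α} {w u₁ : ℕ} {L : Bool × ℕ × ℕ → List α}
  {f : α → Sym2 ((ℕ × ℕ) ⊕ α)} {e : Bool × ℕ × ℕ → α} {Zq : Set (Bool × ℕ × ℕ)}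

/-- an element of a row outside of `Zq` which is not in `SA` is at an end of the row -/
lemma sa_end (hG : GSide M (Seg w) L f e u₁) (hZ : Zq ⊆ Seg w) {r : Bool × ℕ × ℕ}
    (hr : r ∈ Seg w) (hrZ : r ∉ Zq) {i : ℕ} (hi : i < (L r).length)
    (hx : (L r)[i] ∉ SA L f w Zq) :
    (i = 0 ∧ segNear r ∈ VV Zq) ∨ (i + 1 = (L r).length ∧ segFar r ∈ VV Zq) := by
  by_contra hcon
  push Not at hcon
  refine hx ⟨⟨r, hr, List.getElem_mem hi⟩, ?_⟩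
  intro v hv
  rw [hG.end_eq r hr i hi, Sym2.mem_iff] at hv
  rcases hv with rfl | rfl
  · rcases Nat.eq_zero_or_pos i with h0 | h0
    · subst h0
      rw [CWL.node_zero, inl_LV hG hZ]
      exact hcon.1 rfl
    · exact inner_LV hG hZ hr hrZ h0 hi
  · rcases Nat.lt_or_ge (i + 1) (L r).length with h1 | h1
    · exact inner_LV hG hZ hr hrZ (by omega) h1
    · have h2 : i + 1 = (L r).length := by omega
      rw [h2, node_last _ (gs_ne hG r hr), inl_LV hG hZ]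
      exact hcon.2 h2

/-- **The elements of a row outside of `Zq` which are not in `SA`**: at most one. -/
lemma sa_miss (hG : GSide M (Seg w) L f e u₁) (hZ : Zq ⊆ Seg w) (geo : GeoZ w Zq)
    {r : Bool × ℕ × ℕ} (hr : r ∈ Seg w) (hrZ : r ∉ Zq) {x : α} (hx : x ∈ L r)
    (hxS : x ∉ SA L f w Zq) :
    (segNear r ∈ VV Zq ∨ segFar r ∈ VV Zq) ∧ ∀ y ∈ L r, y ∉ SA L f w Zq → y = x := by
  obtain ⟨i, hi, rfl⟩ := List.mem_iff_getElem.1 hx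
  have h1 := sa_end hG hZ hr hrZ hi hxS
  refine ⟨?_, ?_⟩
  · rcases h1 with h1 | h1
    · exact Or.inl h1.2
    · exact Or.inr h1.2
  intro y hy hyS
  obtain ⟨j, hj, rfl⟩ := List.mem_iff_getElem.1 hy
  have h2 := sa_end hG hZ hr hrZ hj hyS
  have h3 := geo.row r hr hrZ
  have h4 : j = i := by
    rcases h1 with ⟨a1, a2⟩ | ⟨a1, a2⟩ <;> rcases h2 with ⟨b1, b2⟩ | ⟨b1, b2⟩
    · omega
    · rcases h3 with h3 | h3
      · exact absurd a2 h3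
      · exact absurd b2 h3
    · rcases h3 with h3 | h3
      · exact absurd b2 h3
      · exact absurd a2 h3
    · omega
  subst h4
  rfl

end

section

variable {α : Type u} {M : Matroid α} {w s : ℕ} {𝒯 : Finset (ℕ × ℕ)}
  {L₁ : Bool × ℕ × ℕ → List α} {f₁ : α → Sym2 ((ℕ × ℕ) ⊕ α)} {e₁ : Bool × ℕ × ℕ → α} {u₁ : ℕ}
  {L₂ : Bool × ℕ × ℕ → List α} {f₂ : α → Sym2 ((ℕ × ℕ) ⊕ α)} {e₂ : Bool × ℕ × ℕ → α} {u₂ : ℕ}
  {D : Set α} {σ N m n : ℕ} {τ : ℕ → ℕ × ℕ} {R : ℕ → Bool × ℕ × ℕ} {c : ℕ → ℕ → α}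
  {Za : Finset (Bool × ℕ × ℕ)} {κ : ℕ → ℕ} {Zq Zr : Set (Bool × ℕ × ℕ)}
  {row : α → Sym2 (ℕ × ℕ)} {D₀ : ℕ} {Hs₀ : Finset (ℕ × ℕ)} {I : Finset ℕ} {Bd : Set (ℕ × ℕ)}
  {ρ : ℕ} {T : Set α}

/-- **The field `lift` of `HonOut`** from the conclusion of LIFT. -/
theorem LiftI.lift [M.Finite] (h : LiftI M w L₁ D N m R c row D₀ Hs₀ Zr I Bd ρ)
    (hB : BSys M w s 𝒯 L₁ f₁ e₁ u₁ L₂ f₂ e₂ u₂ D σ N m τ R c Za) (hZq : Zq ⊆ Seg w)
    (hZr : Zq ⊆ Zr) (hZt : ∀ r ∈ Seg w, segNear r ∈ VV Zq ∨ segFar r ∈ VV Zq → r ∈ Zr)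
    (hκI : ∀ b < n, κ b ∈ I) (hTD : T ⊆ D)
    (hT : ∀ z ∈ T, TwoB M (crr L₁ (Seg w)) row w D₀ Hs₀ Bd z)
    (L : Bool × ℕ × ℕ → List α) (f : α → Sym2 ((ℕ × ℕ) ⊕ α)) (e : Bool × ℕ × ℕ → α)
    (hp : ∀ r ∈ Seg w, (L r).Perm (lrem L₁ (unus m N n R c κ Zr) r))
    (hL : GSide (M ／ unus m N n R c κ Zr) (Seg w) L f e u₁) :
    rk (M ／ unus m N n R c κ Zr) (T ∪ SA L f w Zq) ≤
      rk (M ／ unus m N n R c κ Zr) (SA L f w Zq) + ρ := by
  classical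
  obtain ⟨Z, hZd⟩ : ∃ Z, Z = unus m N n R c κ Zr := ⟨_, rfl⟩
  have hZS : Z ⊆ crr L₁ (Seg w) := by rw [hZd]; exact hB.unus_sub
  have hSE : crr L₁ (Seg w) ⊆ M.E := hB.pair.s₁.sub_ground
  have hDZ : Disjoint D Z := by rw [hZd]; exact hB.unus_D
  have hDE : D ⊆ M.E := hB.D_cl.trans (M.closure_subset_ground _)
  have hUn : UnI m N R c I Zr ⊆ Z := by
    rw [hZd]
    rintro x ⟨i, hi, hiZ, b, hb, hbI, rfl⟩
    exact ⟨i, hi, hiZ, b, hb, fun b' hb' h' => hbI (h' ▸ hκI b' hb'), rfl⟩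
  rw [← hZd] at hp hL ⊢
  have hcrr : crr L (Seg w) = crr L₁ (Seg w) \ Z := by
    rw [← crr_lrem]
    ext x
    constructor
    · rintro ⟨r, hr, hx⟩
      exact ⟨r, hr, (hp r hr).mem_iff.1 hx⟩
    · rintro ⟨r, hr, hx⟩
      exact ⟨r, hr, (hp r hr).mem_iff.2 hx⟩
  have hSA : SA L f w Zq ⊆ crr L₁ (Seg w) \ Z := by
    rw [← hcrr]
    exact fun x hx => hx.1
  have hX : SA L f w Zq ∪ Z ⊆ crr L₁ (Seg w) := union_subset (hSA.trans sdiff_subset) hZS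
  have key := h (SA L f w Zq ∪ Z) hX (hUn.trans subset_union_right) (by
    intro r hr hrZ x hx
    by_cases h1 : x ∈ Z
    · exact Or.inr h1
    left
    by_contra hcon
    obtain ⟨i, hi, rfl⟩ := List.mem_iff_getElem.1 ((hp r hr).mem_iff.2 (mem_lrem.2 ⟨hx, h1⟩))
    rcases sa_end hL hZq hr (fun h' => hrZ (hZr h')) hi hcon with h2 | h2
    · exact hrZ (hZt r hr (Or.inl h2.2))
    · exact hrZ (hZt r hr (Or.inr h2.2))) T hTD hT
  have e1 : T ∪ SA L f w Zq ⊆ M.E \ Z := by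
    refine union_subset ?_ (hSA.trans (sdiff_subset_sdiff_left hSE))
    exact fun x hx => ⟨hDE (hTD hx), fun h' => Set.disjoint_left.1 hDZ (hTD hx) h'⟩
  have r1 := rk_contract_set (M := M) (C := Z) (hZS.trans hSE) e1
  have r2 := rk_contract_set (M := M) (C := Z) (hZS.trans hSE)
    (subset_union_right.trans e1 : SA L f w Zq ⊆ M.E \ Z)
  rw [union_assoc] at r1
  omega

/-- **LIFT for the count.** -/
theorem LiftI.cnt [M.Finite] (h : LiftI M w L₁ D N m R c row D₀ Hs₀ Zr I Bd ρ)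
    (hB : BSys M w s 𝒯 L₁ f₁ e₁ u₁ L₂ f₂ e₂ u₂ D σ N m τ R c Za) (hI : I ⊆ Finset.range N)
    (hTD : T ⊆ D) (hT : ∀ z ∈ T, TwoB M (crr L₁ (Seg w)) row w D₀ Hs₀ Bd z) :
    rk M (T ∪ (crr L₁ (Seg w) \ KL m R c Zr I)) ≤ rk M (crr L₁ (Seg w) \ KL m R c Zr I) + ρ := by
  refine h _ sdiff_subset ?_ ?_ T hTD hT
  · rintro x ⟨i, hi, hiZ, b, hb, hbI, rfl⟩
    refine ⟨⟨R i, hB.row i hi, hB.mem i hi b hb⟩, ?_⟩
    rintro ⟨j, hj, hjZ, b', hb', h'⟩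
    have h1 := (hB.inj i hi b hb j hj b' (Finset.mem_range.1 (hI hb')) h').2
    subst h1
    exact hbI hb'
  · intro r hr hrZ x hx
    refine ⟨⟨r, hr, hx⟩, ?_⟩
    rintro ⟨j, hj, hjZ, b', hb', rfl⟩
    have h1 := hB.pair.s₁.uniq hr (hB.row j hj) hx
      (hB.mem j hj b' (Finset.mem_range.1 (hI hb')))
    rw [h1] at hrZ
    exact hrZ hjZ

/-- the rows outside of `Zq` are deep and far from the exceptional points -/
theorem GeoH.outW {r C η : ℕ} {F : ℕ → ℕ} {P : Finset (ℕ × ℕ)} {LR₀ LR : Set (Bool × ℕ × ℕ)}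
    {a n₀ δ : ℕ} (hZ : GeoH M w s 𝒯 L₁ f₁ e₂ N τ r C η F P Za LR₀ a n₀ Zq LR)
    {Om : Finset (ℕ × ℕ)} (hOm : Om ⊆ P) (hδ : δ + 2 ≤ r) :
    ∀ q ∈ Seg w, q ∉ Zq → DA.OutW δ w Om (segNear q) ∧ DA.OutW δ w Om (segFar q) := by
  intro q hq hqZ
  have h1 : segNear q ∈ Box a n₀ ∨ segFar q ∈ Box a n₀ := by
    by_contra hcon
    push Not at hcon
    exact hqZ (hZ.out q hq hcon.1 hcon.2)
  have ha := hZ.le_a
  have hw := hZ.le_w
  have hfar : (segFar q).1 ≤ (segNear q).1 + 1 ∧ (segNear q).1 ≤ (segFar q).1 ∧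
      (segFar q).2 ≤ (segNear q).2 + 1 ∧ (segNear q).2 ≤ (segFar q).2 := by
    rcases q with ⟨b, i, j⟩
    cases b <;> simp [segNear, segFar]
  have hap : ∀ p, (∀ v ∈ P, ¬ SqN r v p) → ∀ q ∈ Om, DA.Apart δ p q := by
    intro p hp v hv
    have h2 := hp v (hOm hv)
    unfold SqN at h2
    unfold DA.Apart
    omega
  have hn1 : ∀ v ∈ P, ¬ SqN r v (segNear q) := fun v hv h' => hqZ (hZ.near v hv q hq (Or.inl h'))
  have hn2 : ∀ v ∈ P, ¬ SqN r v (segFar q) := fun v hv h' => hqZ (hZ.near v hv q hq (Or.inr h'))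
  have hd : DA.DeepR (0, 0) (w + 1) (w + 1) δ (segNear q) ∧
      DA.DeepR (0, 0) (w + 1) (w + 1) δ (segFar q) := by
    unfold DA.DeepR
    simp only
    rcases h1 with h1 | h1
    · obtain ⟨b1, b2, b3, b4⟩ := h1
      refine ⟨⟨?_, ?_, ?_, ?_⟩, ?_, ?_, ?_, ?_⟩ <;> omega
    · obtain ⟨b1, b2, b3, b4⟩ := h1
      refine ⟨⟨?_, ?_, ?_, ?_⟩, ?_, ?_, ?_, ?_⟩ <;> omega
  exact ⟨⟨hd.1, hap _ hn1⟩, hd.2, hap _ hn2⟩

/-- the kept conflicts of fewer tiles -/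
lemma KL_mono {LR : Set (Bool × ℕ × ℕ)} {B B' : Finset ℕ} (h : B ⊆ B') :
    KL m R c LR B ⊆ KL m R c LR B' := by
  rintro x ⟨i, hi, hR, b, hb, rfl⟩
  exact ⟨i, hi, hR, b, h hb, rfl⟩

/-- a rank inequality passes to a larger set -/
lemma rk_lift_mono [M.Finite] {X Y : Set α} (hXY : X ⊆ Y) {g : ℕ}
    (h : rk M (T ∪ X) ≤ rk M X + g) : rk M (T ∪ Y) ≤ rk M Y + g := by
  have h1 : rk M X + rk M (T ∪ Y) ≤ rk M (T ∪ X) + rk M Y := by
    refine rk_sub' (subset_inter subset_union_right hXY) ?_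
    rintro x (hx | hx)
    · exact Or.inl (Or.inl hx)
    · exact Or.inr hx
  omega

/-- the rows with an end in a finite set of vertices -/
lemma rows_at_card (Bd : Finset (ℕ × ℕ)) :
    {r | r ∈ Seg w ∧ (segNear r ∈ (Bd : Set (ℕ × ℕ)) ∨ segFar r ∈ (Bd : Set (ℕ × ℕ)))}.Finite ∧
    {r | r ∈ Seg w ∧ (segNear r ∈ (Bd : Set (ℕ × ℕ)) ∨ segFar r ∈ (Bd : Set (ℕ × ℕ)))}.ncard ≤
      4 * Bd.card := by
  classical
  obtain ⟨Q, hQ⟩ : ∃ Q : Finset (Bool × ℕ × ℕ), Q = Bd.biUnion fun v =>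
      {(true, v.1, v.2), (false, v.1, v.2), (true, v.1 - 1, v.2), (false, v.1, v.2 - 1)} :=
    ⟨_, rfl⟩
  have hQc : Q.card ≤ 4 * Bd.card := by
    rw [hQ, Nat.mul_comm]
    exact Finset.card_biUnion_le_card_mul _ _ _ fun v _ => Finset.card_le_four
  have hsub : {r | r ∈ Seg w ∧ (segNear r ∈ (Bd : Set (ℕ × ℕ)) ∨
      segFar r ∈ (Bd : Set (ℕ × ℕ)))} ⊆ (Q : Set (Bool × ℕ × ℕ)) := by
    rintro ⟨b, i, j⟩ ⟨-, h | h⟩
    · rw [Finset.mem_coe, hQ, Finset.mem_biUnion]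
      refine ⟨_, Finset.mem_coe.1 h, ?_⟩
      cases b <;> simp [segNear]
    · rw [Finset.mem_coe, hQ, Finset.mem_biUnion]
      refine ⟨_, Finset.mem_coe.1 h, ?_⟩
      cases b <;> simp [segFar]
  refine ⟨(Finset.finite_toSet Q).subset hsub, ?_⟩
  refine (Set.ncard_le_ncard hsub (Finset.finite_toSet Q)).trans ?_
  rw [Set.ncard_coe_finset]
  exact hQc

/-- the rows near a finite set of vertices -/
def NrB (w : ℕ) (Bd : Finset (ℕ × ℕ)) : Set (Bool × ℕ × ℕ) :=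
  {r | r ∈ Seg w ∧ ∃ v ∈ Bd, DA.sd (segNear r) v ≤ 3 ∨ DA.sd (segFar r) v ≤ 3}

lemma NrB_card (Bd : Finset (ℕ × ℕ)) : (NrB w Bd).Finite ∧ (NrB w Bd).ncard ≤ 196 * Bd.card := by
  classical
  obtain ⟨Q, hQ⟩ : ∃ Q : Finset (ℕ × ℕ), Q = Bd.biUnion fun v =>
      (Finset.Icc (v.1 - 3) (v.1 + 3)) ×ˢ (Finset.Icc (v.2 - 3) (v.2 + 3)) := ⟨_, rfl⟩
  have hQc : Q.card ≤ 49 * Bd.card := by
    rw [hQ, Nat.mul_comm]
    refine Finset.card_biUnion_le_card_mul _ _ _ fun v _ => ?_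
    rw [Finset.card_product, Nat.card_Icc, Nat.card_Icc]
    exact (Nat.mul_le_mul (show v.1 + 3 + 1 - (v.1 - 3) ≤ 7 by omega)
      (show v.2 + 3 + 1 - (v.2 - 3) ≤ 7 by omega)).trans (by norm_num)
  have hsub : NrB w Bd ⊆ {r | r ∈ Seg w ∧ (segNear r ∈ (Q : Set (ℕ × ℕ)) ∨
      segFar r ∈ (Q : Set (ℕ × ℕ)))} := by
    rintro r ⟨hr, v, hv, h⟩
    have key : ∀ p : ℕ × ℕ, DA.sd p v ≤ 3 → p ∈ (Q : Set (ℕ × ℕ)) := by
      intro p hp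
      rw [Finset.mem_coe, hQ, Finset.mem_biUnion]
      refine ⟨v, hv, ?_⟩
      unfold DA.sd at hp
      rw [Finset.mem_product, Finset.mem_Icc, Finset.mem_Icc]
      omega
    exact ⟨hr, h.imp (key _) (key _)⟩
  obtain ⟨h1, h2⟩ := rows_at_card (w := w) Q
  refine ⟨h1.subset hsub, (Set.ncard_le_ncard hsub h1).trans (h2.trans ?_)⟩
  omega

/-- the labels on `ZT` are few -/
theorem GeoH.zt {r C η h K₀ L L' Cb A : ℕ} {F Df h' : ℕ → ℕ} {P : Finset (ℕ × ℕ)}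
    {LR₀ LR : Set (Bool × ℕ × ℕ)} {a n₀ : ℕ}
    (hG : GeoH M w s 𝒯 L₁ f₁ e₂ N τ r C η F P Za LR₀ a n₀ Zq LR)
    (hD : Dens w L L' Cb h h' K₀ Df m R) (hK : C ≤ K₀) (hA : 9 * C + 1 ≤ A) :
    Df L' * (LtL m R (ZT w a n₀ Zq)).card ≤ A * w ^ 2 := by
  classical
  have hZw : Zq ⊆ Seg w := hG.Zq_sub.trans hG.LR_sub
  obtain ⟨Q, hQ⟩ : ∃ Q : Set (Bool × ℕ × ℕ), Q = {s | s ∈ Zq ∧ segNear s ∈ Box a n₀} := ⟨_, rfl⟩
  have fQ : Q.Finite := by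
    rw [hQ]
    exact (Seg_finite w).subset fun x hx => hZw hx.1
  have hQc : Q.ncard ≤ C := by
    rw [hQ]
    exact hG.few'
  obtain ⟨B, hB⟩ : ∃ B : Finset (ℕ × ℕ), B = fQ.toFinset.image segNear ∪ fQ.toFinset.image segFar :=
    ⟨_, rfl⟩
  have hBc : B.card ≤ 2 * C := by
    rw [hB]
    refine (Finset.card_union_le _ _).trans ?_
    have h1 := Finset.card_image_le (s := fQ.toFinset) (f := segNear)
    have h2 := Finset.card_image_le (s := fQ.toFinset) (f := segFar)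
    rw [← Set.ncard_eq_toFinset_card Q fQ] at h1 h2
    omega
  obtain ⟨fE, hE⟩ := rows_at_card (w := w) B
  obtain ⟨E, hEd⟩ : ∃ E, E = {r | r ∈ Seg w ∧ (segNear r ∈ (B : Set (ℕ × ℕ)) ∨
      segFar r ∈ (B : Set (ℕ × ℕ)))} := ⟨_, rfl⟩
  rw [← hEd] at fE hE
  have hEw : E ⊆ Seg w := by
    rw [hEd]
    exact fun x hx => hx.1
  have hsub : ZT w a n₀ Zq ⊆ ZR w a n₀ Zq ∪ E := by
    rintro q (hq | ⟨hq, hv⟩)
    · exact Or.inl hq
    by_cases hbox : segNear q ∈ Box a n₀ ∧ segFar q ∈ Box a n₀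
    · right
      have key : ∀ v ∈ VV Zq, v ∈ Box a n₀ → v ∈ (B : Set (ℕ × ℕ)) := by
        rintro v ⟨q', hq', hv'⟩ hvB
        have hin : q' ∈ Q := by
          rw [hQ]
          refine ⟨hq', ?_⟩
          rcases hv' with h1 | h1
          · rw [h1]
            exact hvB
          · rw [hG.Zq_box q' hq', h1]
            exact hvB
        rw [Finset.mem_coe, hB]
        rcases hv' with h1 | h1
        · rw [← h1]
          exact Finset.mem_union_left _ (Finset.mem_image_of_mem _ (fQ.mem_toFinset.2 hin))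
        · rw [← h1]
          exact Finset.mem_union_right _ (Finset.mem_image_of_mem _ (fQ.mem_toFinset.2 hin))
      rw [hEd]
      rcases hv with h1 | h1
      · exact ⟨hq, Or.inl (key _ h1 hbox.1)⟩
      · exact ⟨hq, Or.inr (key _ h1 hbox.2)⟩
    · exact Or.inl ⟨hq, Or.inr hbox⟩
  have h1 := hG.zr hD hK (le_refl (C + 1))
  have h2 := labels_rows (d := Df L') (m := m) (R := R) hD.a hEw fE
  have h3 : (LtL m R (ZT w a n₀ Zq)).card ≤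
      (LtL m R (ZR w a n₀ Zq)).card + (LtL m R E).card :=
    (ltl_mono hsub).trans (ltl_union _ _)
  rw [ltl_card E] at h3
  have h4 : E.ncard * w ^ 2 ≤ 8 * C * w ^ 2 := Nat.mul_le_mul_right _ (by omega)
  calc Df L' * (LtL m R (ZT w a n₀ Zq)).card
      ≤ Df L' * ((LtL m R (ZR w a n₀ Zq)).card + {i | i < m ∧ R i ∈ E}.ncard) :=
        Nat.mul_le_mul_left _ h3
    _ = Df L' * (LtL m R (ZR w a n₀ Zq)).card + Df L' * {i | i < m ∧ R i ∈ E}.ncard := by ring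
    _ ≤ (C + 1) * w ^ 2 + 8 * C * w ^ 2 := by omega
    _ = (9 * C + 1) * w ^ 2 := by ring
    _ ≤ A * w ^ 2 := Nat.mul_le_mul_right _ hA

end

end TSH
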