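import Pool.Agent.TST.BaseDef

/-!
# T-star, row LAB: the labels of the final system (helper46)

Reindexing, homogeneous units, representatives of the passes, number of components.
-/

set_option autoImplicit false

open Set BIC BICS CWL
open scoped Matroid

namespace TSH

lemma huMono {β : Type*} {J : β × ℕ → β × ℕ → Prop} {n n' m : ℕ} {R : ℕ → β} {q : ℕ → ℕ → ℕ}
    {G : ℕ → ℕ → Prop} (h : HUnits J n m R q G) (hn : n' ≤ n) : HUnits J n' m R q G :=
  ⟨fun i hi => (h.mon i hi).mono hn,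
    fun i hi i' hi' hR => (h.near i hi i' hi' hR).imp (fun h => h.mono hn) (fun h => h.mono hn),
    fun b hb i hi i' hi' hii hR => h.inj b (by omega) i hi i' hi' hii hR,
    fun i hi i' hi' a b hab hb => h.hon i hi i' hi' a b hab (by omega)⟩

lemma huCongr {β : Type*} {J : β × ℕ → β × ℕ → Prop} {n m : ℕ} {R R' : ℕ → β} {q : ℕ → ℕ → ℕ}
    {G : ℕ → ℕ → Prop} (h : HUnits J n m R q G) (hR : ∀ i < m, R' i = R i) :
    HUnits J n m R' q G := by
  refine ⟨h.mon, fun i hi i' hi' he => ?_, fun b hb i hi i' hi' hii he => ?_,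
    fun i hi i' hi' a b hab hb => ?_⟩
  · rw [hR i hi, hR i' hi'] at he
    exact h.near i hi i' hi' he
  · rw [hR i hi, hR i' hi'] at he
    exact h.inj b hb i hi i' hi' hii he
  · rw [hR i hi, hR i' hi']
    exact h.hon i hi i' hi' a b hab hb

lemma mon_of_nearSep {n : ℕ} (hn : 1 ≤ n) {y : ℕ → ℕ} (h : RamP.Near n y y ∨ RamP.Sep n y y) :
    RamP.Mon n y := by
  rcases h with h | h
  · rcases h with h | h
    · exact Or.inl fun r s h1 h2 => (h r s h1 h2).1
    · exact Or.inr fun r s h1 h2 => (h r s h1 h2).1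
  · exfalso
    rcases h with h | h
    · exact lt_irrefl _ (h 0 0 (by omega) (by omega))
    · exact lt_irrefl _ (h 0 0 (by omega) (by omega))

lemma btw_mon {n : ℕ} {y : ℕ → ℕ} (h : RamP.Mon n y) {a b c p : ℕ} (hab : a ≤ b) (hbc : b + 1 ≤ c)
    (hc : c < n) (hp : Btw (y b) (y (b + 1)) p) : Btw (y a) (y c) p := by
  rcases h with h | h
  · have h1 : y a ≤ y b := by
      rcases Nat.lt_or_ge a b with h2 | h2
      · exact (h a b h2 (by omega)).le
      · rw [show a = b by omega]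
    have h2 : y (b + 1) ≤ y c := by
      rcases Nat.lt_or_ge (b + 1) c with h2 | h2
      · exact (h (b + 1) c h2 hc).le
      · rw [show c = b + 1 by omega]
    have h3 := h b (b + 1) (by omega) (by omega)
    rcases hp with ⟨h4, h5⟩ | ⟨h4, h5⟩
    · exact Or.inl ⟨by omega, by omega⟩
    · omega
  · have h1 : y b ≤ y a := by
      rcases Nat.lt_or_ge a b with h2 | h2
      · exact (h a b h2 (by omega)).le
      · rw [show a = b by omega]
    have h2 : y c ≤ y (b + 1) := by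
      rcases Nat.lt_or_ge (b + 1) c with h2 | h2
      · exact (h (b + 1) c h2 hc).le
      · rw [show c = b + 1 by omega]
    have h3 := h b (b + 1) (by omega) (by omega)
    rcases hp with ⟨h4, h5⟩ | ⟨h4, h5⟩
    · omega
    · exact Or.inr ⟨by omega, by omega⟩

lemma btw_near {N : ℕ} {y z : ℕ → ℕ} (h : RamP.Near N y z) (hN : 4 ≤ N) {p : ℕ}
    (hp : Btw (y 1) (y 2) p) : Btw (z 0) (z 3) p := by
  rcases h with h | h
  · have h1 := (h 0 1 (by omega) (by omega)).2.2.1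
    have h2 := (h 2 3 (by omega) (by omega)).2.1
    have h3 := (h 1 2 (by omega) (by omega)).1
    rcases hp with ⟨h4, h5⟩ | ⟨h4, h5⟩
    · exact Or.inl ⟨by omega, by omega⟩
    · omega
  · have h1 := (h 0 1 (by omega) (by omega)).2.2.1
    have h2 := (h 2 3 (by omega) (by omega)).2.1
    have h3 := (h 1 2 (by omega) (by omega)).1
    rcases hp with ⟨h4, h5⟩ | ⟨h4, h5⟩
    · omega
    · exact Or.inr ⟨by omega, by omega⟩

/-- (FL) labels: reindexing, homogeneous units, representatives, number of components (pure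
combinatorics; `exists_units`) -/
theorem fin_labels (κ₀ nT : ℕ) (β : Type) [Fintype β] [Nonempty β] : ∃ n₁ : ℕ, ∀ n ≥ n₁,
    ∀ {γ : Type} (ι : β → γ)
    (_ : Function.Injective ι) (m : ℕ) (_ : m ≤ κ₀) (R : ℕ → γ) (q : ℕ → ℕ → ℕ)
    (J : β × ℕ → β × ℕ → Prop)
    (_ : ∀ b < n, ∀ b' < n, ∀ i < m, ∀ i' < m, R i = R i' → q i b = q i' b' → b = b' ∧ i = i')
    (_ : ∀ i < m, ∀ j < m, R i = R j → RamP.Near n (q i) (q j) ∨ RamP.Sep n (q i) (q j))
    (LR : Set γ) (pv : Set ℕ) (cls : ℕ → ℕ) (kc : ℕ)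
    (_ : ∀ i < m, R i ∉ LR → ∃ r, ι r = R i)
    (_ : ∀ i < m, R i ∉ LR → cls i < kc)
    (_ : ∀ i < m, ∀ j < m, R i ∉ LR → R j ∉ LR → cls i = cls j → cls i ∉ pv →
      Relation.ReflTransGen (fun x y => (x < m ∧ R x ∉ LR) ∧ (y < m ∧ R y ∉ LR) ∧ cls x = cls y ∧
        (((R x = R y ∧ RamP.Near n (q x) (q y)) ∨ ∀ b, b + 1 < n → ∃ r r' p p', ι r = R x ∧
          ι r' = R y ∧ Btw (q x b) (q x (b + 1)) p ∧ Btw (q y b) (q y (b + 1)) p' ∧
          J (r, p) (r', p')) ∨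
        ((R y = R x ∧ RamP.Near n (q y) (q x)) ∨ ∀ b, b + 1 < n → ∃ r r' p p', ι r = R y ∧
          ι r' = R x ∧ Btw (q y b) (q y (b + 1)) p ∧ Btw (q x b) (q x (b + 1)) p' ∧
          J (r, p) (r', p')))) i j)
    (Bd : Finset β) (_ : ∀ i < m, ∀ r, ι r = R i → R i ∉ LR → cls i ∈ pv → r ∈ Bd)
    (_ : ∀ r, ι r ∈ LR → r ∈ Bd),
    ∃ (f lab : ℕ → ℕ) (m' : ℕ) (R' : ℕ → β) (G : ℕ → ℕ → Prop) (P : Finset ℕ), m' ≤ m ∧
      (∀ b < nT, f b < n) ∧ (∀ a b, a < b → b < nT → f a < f b) ∧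
      (∀ i < m', lab i < m ∧ ι (R' i) = R (lab i)) ∧
      (∀ i < m, (∃ r, ι r = R i) → ∃ j < m', lab j = i) ∧
      HUnits J nT m' R' (fun i b => q (lab i) (f b)) G ∧
      (∀ i ∈ P, i < m' ∧ ι (R' i) ∉ LR) ∧
      (∀ i ∈ P, ∀ j ∈ P, i ≠ j → R' i = R' j →
        RamP.Sep nT (fun b => q (lab i) (f b)) (fun b => q (lab j) (f b))) ∧
      (∀ i < m', R' i ∉ Bd → ∃ j ∈ P, R' j = R' i ∧
        RamP.Near nT (fun b => q (lab i) (f b)) (fun b => q (lab j) (f b))) ∧
      Nat.card (PG G P).ConnectedComponent ≤ kc := by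
  classical
  obtain ⟨N, hN⟩ := exists_units κ₀ (nT + 4) β
  refine ⟨max N 1, ?_⟩
  intro n hn γ ι hι m hm R q J hinj hns LR pv cls kc hrow hcls hconn Bd hBd hLR
  have hnN : N ≤ n := (le_max_left _ _).trans hn
  have hn1 : 1 ≤ n := (le_max_right _ _).trans hn
  set A : Finset ℕ := (Finset.range m).filter (fun i => ∃ r, ι r = R i) with hA
  have hAm : A.card ≤ m := by
    refine (Finset.card_filter_le _ _).trans ?_
    rw [Finset.card_range]
  have hmemA : ∀ x, x ∈ A ↔ x < m ∧ ∃ r, ι r = R x := by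
    intro x
    rw [hA, Finset.mem_filter, Finset.mem_range]
  -- the enumeration
  obtain ⟨lab, hl1, hl2, hl3⟩ : ∃ lab : ℕ → ℕ, (∀ i < A.card, lab i ∈ A) ∧
      (∀ i < A.card, ∀ j < A.card, lab i = lab j → i = j) ∧ ∀ x ∈ A, ∃ i < A.card, lab i = x := by
    let e := A.equivFin
    refine ⟨fun i => if h : i < A.card then (e.symm ⟨i, h⟩ : ℕ) else 0, ?_, ?_, ?_⟩
    · intro i hi
      simp only [dif_pos hi]
      exact (e.symm ⟨i, hi⟩).2
    · intro i hi j hj h
      simp only [dif_pos hi, dif_pos hj] at h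
      have h1 := e.symm.injective (Subtype.ext h)
      exact congrArg Fin.val h1
    · intro x hx
      refine ⟨e ⟨x, hx⟩, (e ⟨x, hx⟩).2, ?_⟩
      simp only [Fin.is_lt, dif_pos, Fin.eta, Equiv.symm_apply_apply]
  have hR0 : ∀ i, ∃ r : β, i < A.card → ι r = R (lab i) := by
    intro i
    by_cases h : i < A.card
    · obtain ⟨r, hr⟩ := ((hmemA _).1 (hl1 i h)).2
      exact ⟨r, fun _ => hr⟩
    · exact ⟨Classical.arbitrary β, fun h' => absurd h' h⟩
  choose R' hR' using hR0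
  have hlm : ∀ i < A.card, lab i < m := fun i hi => ((hmemA _).1 (hl1 i hi)).1
  obtain ⟨f, m₀, R₀, G, a1, a2, a3, a4, a5, a6⟩ := hN (fun _ => A.card) (fun _ i => R' i)
    (fun b i => q (lab i) b) J (fun b _ => hAm.trans hm) (by
      intro b hb b' hb' i hi i' hi' h1 h2
      have h3 : R (lab i) = R (lab i') := by rw [← hR' i hi, ← hR' i' hi', h1]
      obtain ⟨h4, h5⟩ := hinj b (by omega) b' (by omega) (lab i) (hlm i hi) (lab i') (hlm i' hi')
        h3 h2
      exact ⟨h4, hl2 i hi i' hi' h5⟩)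
  have hm0 : A.card = m₀ := a4 0 (by omega)
  subst hm0
  have hU : HUnits J (nT + 4) A.card R' (fun i b => q (lab i) (f b)) G :=
    huCongr a6 fun i hi => a5 0 (by omega) i hi
  have hmon : ∀ x < m, RamP.Mon n (q x) := fun x hx => mon_of_nearSep hn1 (hns x hx x hx rfl)
  -- near labels
  let nr : ℕ → ℕ → Prop := fun i j => R' i = R' j ∧
    RamP.Near (nT + 4) (fun b => q (lab i) (f b)) (fun b => q (lab j) (f b))
  have nr_refl : ∀ i < A.card, nr i i := fun i hi => ⟨rfl, (hU.mon i hi).near⟩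
  have nr_symm : ∀ {i j}, nr i j → nr j i := fun h => ⟨h.1.symm, h.2.symm⟩
  have nr_trans : ∀ i < A.card, ∀ j < A.card, ∀ k < A.card, nr i j → nr j k → nr i k := by
    intro i hi j hj k hk h1 h2
    exact ⟨h1.1.trans h2.1, h1.2.trans (by omega) h2.2 (hU.near i hi k hk (h1.1.trans h2.1))⟩
  let Q : Finset ℕ := (Finset.range A.card).filter (fun i => R (lab i) ∉ LR ∧ cls (lab i) ∉ pv)
  have memQ : ∀ i, i ∈ Q ↔ i < A.card ∧ R (lab i) ∉ LR ∧ cls (lab i) ∉ pv := by
    intro i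
    simp only [Q, Finset.mem_filter, Finset.mem_range]
  let rep : ℕ → ℕ := fun i => if h : (Q.filter (nr i)).Nonempty then (Q.filter (nr i)).min' h else 0
  have rep_mem : ∀ i ∈ Q, rep i ∈ Q ∧ nr i (rep i) := by
    intro i hi
    have h : (Q.filter (nr i)).Nonempty := ⟨i, Finset.mem_filter.2 ⟨hi, nr_refl i ((memQ i).1 hi).1⟩⟩
    have h1 : rep i ∈ Q.filter (nr i) := by
      simp only [rep, dif_pos h]
      exact Finset.min'_mem _ h
    exact Finset.mem_filter.1 h1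
  have rep_eq : ∀ i ∈ Q, ∀ j ∈ Q, nr i j → rep i = rep j := by
    intro i hi j hj hij
    have h : Q.filter (nr i) = Q.filter (nr j) := by
      ext k
      simp only [Finset.mem_filter]
      constructor
      · rintro ⟨h1, h2⟩
        exact ⟨h1, nr_trans j ((memQ j).1 hj).1 i ((memQ i).1 hi).1 k ((memQ k).1 h1).1
          (nr_symm hij) h2⟩
      · rintro ⟨h1, h2⟩
        exact ⟨h1, nr_trans i ((memQ i).1 hi).1 j ((memQ j).1 hj).1 k ((memQ k).1 h1).1 hij h2⟩
    simp only [rep, h]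
  let P : Finset ℕ := Q.image rep
  have rep_P : ∀ i ∈ Q, rep i ∈ P := fun i hi => Finset.mem_image.2 ⟨i, hi, rfl⟩
  have P_Q : ∀ i ∈ P, i ∈ Q ∧ rep i = i := by
    intro i hi
    obtain ⟨j, hj, rfl⟩ := Finset.mem_image.1 hi
    obtain ⟨h1, h2⟩ := rep_mem j hj
    exact ⟨h1, (rep_eq j hj _ h1 h2).symm⟩
  -- honest pairs pass to the representatives
  have hG : ∀ i < A.card, ∀ j < A.card, ∀ i₁ < A.card, ∀ j₁ < A.card, nr i i₁ → nr j j₁ →
      (∀ b, b + 1 < n → ∃ r r' p p', ι r = R (lab i) ∧ ι r' = R (lab j) ∧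
        Btw (q (lab i) b) (q (lab i) (b + 1)) p ∧ Btw (q (lab j) b) (q (lab j) (b + 1)) p' ∧
        J (r, p) (r', p')) → G i₁ j₁ := by
    intro i hi j hj i₁ hi₁ j₁ hj₁ h1 h2 h3
    have b1 := a3 1 2 (by omega) (by omega)
    have b2 := a2 2 (by omega)
    obtain ⟨r, r', p, p', c1, c2, c3, c4, c5⟩ := h3 (f 1) (by omega)
    refine (hU.hon i₁ hi₁ j₁ hj₁ 0 3 (by omega) (by omega)).2 ⟨p, p', ?_, ?_, ?_⟩
    · exact btw_near h1.2 (by omega)
        (btw_mon (hmon _ (hlm i hi)) le_rfl (by omega) (by omega) c3)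
    · exact btw_near h2.2 (by omega)
        (btw_mon (hmon _ (hlm j hj)) le_rfl (by omega) (by omega) c4)
    · have d1 : r = R' i₁ := by rw [← h1.1]; exact hι (c1.trans (hR' i hi).symm)
      have d2 : r' = R' j₁ := by rw [← h2.1]; exact hι (c2.trans (hR' j hj).symm)
      rw [← d1, ← d2]
      exact c5
  have hnear : ∀ i < A.card, ∀ j < A.card, R (lab i) = R (lab j) →
      RamP.Near n (q (lab i)) (q (lab j)) → nr i j := by
    intro i hi j hj h1 h2
    refine ⟨hι ?_, ?_⟩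
    · rw [hR' i hi, hR' j hj, h1]
    · exact near_comp (h2.mono hnN) (fun b hb => a2 b hb) a3
  -- connected
  have hreach : ∀ i (hi : i ∈ P) (y : ℕ), Relation.ReflTransGen (fun x y =>
        (x < m ∧ R x ∉ LR) ∧ (y < m ∧ R y ∉ LR) ∧ cls x = cls y ∧
        (((R x = R y ∧ RamP.Near n (q x) (q y)) ∨ ∀ b, b + 1 < n → ∃ r r' p p', ι r = R x ∧
          ι r' = R y ∧ Btw (q x b) (q x (b + 1)) p ∧ Btw (q y b) (q y (b + 1)) p' ∧
          J (r, p) (r', p')) ∨
        ((R y = R x ∧ RamP.Near n (q y) (q x)) ∨ ∀ b, b + 1 < n → ∃ r r' p p', ι r = R y ∧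
          ι r' = R x ∧ Btw (q y b) (q y (b + 1)) p ∧ Btw (q x b) (q x (b + 1)) p' ∧
          J (r, p) (r', p')))) (lab i) y → cls y = cls (lab i) ∧
      ∀ y' < A.card, lab y' = y → y' ∈ Q ∧ ∀ h : rep y' ∈ P,
        (PG G P).Reachable ⟨i, hi⟩ ⟨rep y', h⟩ := by
    intro i hi y hy
    obtain ⟨hiQ, hir⟩ := P_Q i hi
    have hi' := (memQ i).1 hiQ
    induction hy with
    | refl =>
      refine ⟨rfl, fun y' hy' h => ?_⟩
      have h1 := hl2 y' hy' i hi'.1 h
      subst h1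
      refine ⟨hiQ, fun h2 => ?_⟩
      have h3 : (⟨rep y', h2⟩ : {i // i ∈ P}) = ⟨y', hi⟩ := Subtype.ext hir
      rw [h3]
    | @tail y z hyz hz ih =>
      obtain ⟨ih1, ih2⟩ := ih
      obtain ⟨⟨e1, e2⟩, ⟨e3, e4⟩, e5, e6⟩ := hz
      refine ⟨by rw [← e5, ih1], fun z' hz' hzz => ?_⟩
      subst hzz
      have hzQ : z' ∈ Q := (memQ z').2 ⟨hz', e4, by rw [← e5, ih1]; exact hi'.2.2⟩
      refine ⟨hzQ, fun h2 => ?_⟩
      obtain ⟨y', hy', hyy⟩ := hl3 y ((hmemA y).2 ⟨e1, hrow y e1 e2⟩)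
      subst hyy
      obtain ⟨hyQ, hyR⟩ := ih2 y' hy' rfl
      have hyR := hyR (rep_P y' hyQ)
      refine hyR.trans ?_
      obtain ⟨g1, g2⟩ := rep_mem y' hyQ
      obtain ⟨g3, g4⟩ := rep_mem z' hzQ
      have key : ∀ (h : rep y' = rep z' ∨ G (rep y') (rep z') ∨ G (rep z') (rep y')),
          (PG G P).Reachable ⟨rep y', rep_P y' hyQ⟩ ⟨rep z', h2⟩ := by
        intro h
        by_cases heq : rep y' = rep z'
        · have h3 : (⟨rep y', rep_P y' hyQ⟩ : {i // i ∈ P}) = ⟨rep z', h2⟩ := Subtype.ext heq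
          rw [h3]
        · refine SimpleGraph.Adj.reachable ?_
          rw [PG, SimpleGraph.fromRel_adj]
          refine ⟨fun h3 => heq (congrArg Subtype.val h3), ?_⟩
          rcases h with h | h | h
          · exact absurd h heq
          · exact Or.inl h
          · exact Or.inr h
      apply key
      have q1 := ((memQ _).1 g1).1
      have q3 := ((memQ _).1 g3).1
      rcases e6 with (⟨e7, e8⟩ | e7) | (⟨e7, e8⟩ | e7)
      · exact Or.inl (rep_eq y' hyQ z' hzQ (hnear y' hy' z' hz' e7 e8))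
      · exact Or.inr (Or.inl (hG y' hy' z' hz' _ q1 _ q3 g2 g4 e7))
      · exact Or.inl (rep_eq z' hzQ y' hyQ (hnear z' hz' y' hy' e7 e8)).symm
      · exact Or.inr (Or.inr (hG z' hz' y' hy' _ q3 _ q1 g4 g2 e7))
  refine ⟨f, lab, A.card, R', G, P, hAm, fun b hb => (a2 b (by omega)).trans_le hnN,
    fun a b hab hb => a3 a b hab (by omega), fun i hi => ⟨hlm i hi, hR' i hi⟩, ?_,
    huMono hU (by omega), ?_, ?_, ?_, ?_⟩
  · intro i hi hr
    exact hl3 i ((hmemA i).2 ⟨hi, hr⟩)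
  · intro i hi
    obtain ⟨h1, h2, h3⟩ := (memQ i).1 (P_Q i hi).1
    exact ⟨h1, by rw [hR' i h1]; exact h2⟩
  · intro i hi j hj hij hR
    obtain ⟨h1, h2⟩ := P_Q i hi
    obtain ⟨h3, h4⟩ := P_Q j hj
    rcases hU.near i ((memQ i).1 h1).1 j ((memQ j).1 h3).1 hR with h5 | h5
    · exact absurd (by rw [← h2, ← h4]; exact rep_eq i h1 j h3 ⟨hR, h5⟩) hij
    · exact h5.mono (by omega)
  · intro i hi hB
    have h1 : R (lab i) ∉ LR := by
      rw [← hR' i hi]
      exact fun h => hB (hLR _ h)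
    have h2 : cls (lab i) ∉ pv := fun h => hB (hBd (lab i) (hlm i hi) _ (hR' i hi) h1 h)
    have h3 : i ∈ Q := (memQ i).2 ⟨hi, h1, h2⟩
    obtain ⟨h4, h5⟩ := rep_mem i h3
    exact ⟨rep i, rep_P i h3, h5.1.symm, h5.2.mono (by omega)⟩
  · -- the number of components
    have hout : ∀ C : (PG G P).ConnectedComponent, ∃ v, (PG G P).connectedComponentMk v = C :=
      fun C => C.exists_rep
    choose out hout using hout
    have hlt : ∀ v : {i // i ∈ P}, cls (lab v.1) < kc := by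
      intro v
      obtain ⟨h1, h2, h3⟩ := (memQ v.1).1 (P_Q v.1 v.2).1
      exact hcls _ (hlm _ h1) h2
    have hinj' : Function.Injective
        (fun C : (PG G P).ConnectedComponent => (⟨cls (lab (out C).1), hlt _⟩ : Fin kc)) := by
      intro C C' h
      have h1 : cls (lab (out C).1) = cls (lab (out C').1) := congrArg Fin.val h
      obtain ⟨p1, p2⟩ := P_Q (out C).1 (out C).2
      obtain ⟨p3, p4⟩ := P_Q (out C').1 (out C').2
      obtain ⟨s1, s2, s3⟩ := (memQ _).1 p1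
      obtain ⟨s4, s5, s6⟩ := (memQ _).1 p3
      have h2 := hconn _ (hlm _ s1) _ (hlm _ s4) s2 s5 h1 s3
      obtain ⟨_, h3⟩ := hreach (out C).1 (out C).2 _ h2
      obtain ⟨_, h4⟩ := h3 _ s4 rfl
      have h5 := h4 (by rw [p4]; exact (out C').2)
      have h6 : (⟨rep (out C').1, by rw [p4]; exact (out C').2⟩ : {i // i ∈ P}) = out C' :=
        Subtype.ext p4
      rw [h6] at h5
      rw [← hout C, ← hout C']
      exact SimpleGraph.ConnectedComponent.sound h5
    have := Nat.card_le_card_of_injective _ hinj'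
    rwa [Nat.card_fin] at this

end TSH
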