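import Pool.Agent.TST.FinalStarD
import Pool.Agent.Helper74.DST.Final2

/-!
# The final statement for MP_5165fa_co, from T-star for plain grids
-/

open Set BIC BICS
open scoped Matroid

namespace TSK

universe u

/-- Few conflicts of one kind, or small rank or corank. -/
theorem few_conflicts_all (hT : ∀ k K : ℕ, 1 ≤ k → TStarD.{u} k K) (k K : ℕ) :
    ∃ N : ℕ, ∀ n ≥ N, ∀ (α : Type u) (M : Matroid α), M.Finite → ∀ C₁ D₁ C₂ D₂ : Set α,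
    C₁ ⊆ M.E → D₁ ⊆ M.E → C₂ ⊆ M.E → D₂ ⊆ M.E → Disjoint C₁ D₁ → Disjoint C₂ D₂ →
    Disjoint (M ／ C₁ ＼ D₁).E (M ／ C₂ ＼ D₂).E →
    IsBicircular (M ／ C₁ ＼ D₁) (GPlus n) →
    IsBicircular (M ／ C₂ ＼ D₂)✶ (GPlus n) →
    (∀ X : Set α, (M ／ C₁ ＼ D₁).E ⊆ X → X ⊆ M.E \ (M ／ C₂ ＼ D₂).E →
      (N : ℕ∞) + M.eRk M.E ≤ M.eRk X + M.eRk (M.E \ X)) →
    (C₁ ∩ D₂).ncard ≤ K * n ^ 4 ∨
      (∃ F G H : Set α, C₁ ∩ D₂ = F ∪ G ∪ H ∧ N * H.ncard ≤ n ^ 4 ∧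
        N * (M ／ (C₁ \ F)).eRk (M ／ C₁ ＼ D₁).E ≤ N * (M ／ C₁).eRk (M ／ C₁ ＼ D₁).E + n ^ 2 ∧
        N * (M✶ ／ (D₂ \ G)).eRk (M ／ C₂ ＼ D₂).E ≤
          N * (M✶ ／ D₂).eRk (M ／ C₂ ＼ D₂).E + n ^ 2) ∨
      (∃ (F G H : Set α) (q : ℕ), D₁ ∩ C₂ = F ∪ G ∪ H ∧ N * (q + 1) ≤ n ∧
        (q + 1) ^ 2 * H.ncard ≤ K * n ^ 4 ∧
        (M ／ C₁).eRk (M ／ C₁ ＼ D₁).E ≤ (M ／ (C₁ ∪ F)).eRk (M ／ C₁ ＼ D₁).E + q ∧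
        (M✶ ／ D₂).eRk (M ／ C₂ ＼ D₂).E ≤ (M✶ ／ (D₂ ∪ G)).eRk (M ／ C₂ ＼ D₂).E + q) ∨
      M.eRank ≤ K * n ^ 4 ∨ M✶.eRank ≤ K * n ^ 4 →
    ∃ U : Matroid α, U ≤m M ∧ U.E.ncard = 2 * k ∧ ∀ B, U.IsBase B ↔ B ⊆ U.E ∧ B.ncard = k := by
  obtain ⟨N₁, h₁⟩ := few_conflictsKD.{u} hT k K
  obtain ⟨N₂, h₂⟩ := few_conflicts2.{u} k
  refine ⟨N₁ + N₂, ?_⟩
  intro n hn α M hM C₁ D₁ C₂ D₂ hC₁ hD₁ hC₂ hD₂ hCD₁ hCD₂ hdis hb₁ hb₂ hκ hdef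
  have hκ₁ : ∀ X : Set α, (M ／ C₁ ＼ D₁).E ⊆ X → X ⊆ M.E \ (M ／ C₂ ＼ D₂).E →
      (N₁ : ℕ∞) + M.eRk M.E ≤ M.eRk X + M.eRk (M.E \ X) := fun X h1 h2 =>
    le_trans (add_le_add_left (by exact_mod_cast Nat.le_add_right N₁ N₂) _) (hκ X h1 h2)
  have hκ₂ : ∀ X : Set α, (M ／ C₁ ＼ D₁).E ⊆ X → X ⊆ M.E \ (M ／ C₂ ＼ D₂).E →
      (N₂ : ℕ∞) + M.eRk M.E ≤ M.eRk X + M.eRk (M.E \ X) := fun X h1 h2 =>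
    le_trans (add_le_add_left (by exact_mod_cast Nat.le_add_left N₂ N₁) _) (hκ X h1 h2)
  have fC : ∀ A : Set α, (M ／ A).Finite := fun A => ⟨M.ground_finite.subset sdiff_subset⟩
  have fD : ∀ A : Set α, (M✶ ／ A).Finite := fun A => ⟨M✶.ground_finite.subset sdiff_subset⟩
  have num : ∀ a b : ℕ, (N₁ + N₂) * a ≤ (N₁ + N₂) * b + n ^ 2 → N₂ * a ≤ N₂ * b + n ^ 2 := by
    intro a b h1
    rcases Nat.le_total a b with h | h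
    · exact (Nat.mul_le_mul_left _ h).trans (Nat.le_add_right _ _)
    · obtain ⟨c, rfl⟩ := Nat.exists_eq_add_of_le h
      rw [Nat.mul_add] at h1 ⊢
      have : N₂ * c ≤ (N₁ + N₂) * c := Nat.mul_le_mul_right _ (Nat.le_add_left _ _)
      omega
  rcases hdef with h | ⟨F, G, H, hFG, hH, hdef₁, hdef₂⟩ | ⟨F, G, H, q, hFG, hqn, hH, hdef₁, hdef₂⟩ |
    h | h
  · exact h₁ n (by omega) α M hM C₁ D₁ C₂ D₂ hC₁ hD₁ hC₂ hD₂ hCD₁ hCD₂ hdis hb₁ hb₂ hκ₁ (Or.inl h)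
  · have f1 := fC (C₁ \ F)
    have f2 := fC C₁
    have f3 := fD (D₂ \ G)
    have f4 := fD D₂
    refine h₂ n (by omega) α M hM C₁ D₁ C₂ D₂ hC₁ hD₁ hC₂ hD₂ hCD₁ hCD₂ hdis hb₁ hb₂ hκ₂
      (Or.inl ⟨F, G, H, hFG, ?_, ?_, ?_⟩)
    · exact (Nat.mul_le_mul_right _ (Nat.le_add_left _ _)).trans hH
    · rw [← cast_rk, ← cast_rk] at hdef₁ ⊢
      exact_mod_cast num _ _ (by exact_mod_cast hdef₁)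
    · rw [← cast_rk, ← cast_rk] at hdef₂ ⊢
      exact_mod_cast num _ _ (by exact_mod_cast hdef₂)
  · exact h₁ n (by omega) α M hM C₁ D₁ C₂ D₂ hC₁ hD₁ hC₂ hD₂ hCD₁ hCD₂ hdis hb₁ hb₂ hκ₁
      (Or.inr (Or.inl ⟨F, G, H, q, hFG,
        (Nat.mul_le_mul_right _ (Nat.le_add_right _ _)).trans hqn, hH, hdef₁, hdef₂⟩))
  · exact h₁ n (by omega) α M hM C₁ D₁ C₂ D₂ hC₁ hD₁ hC₂ hD₂ hCD₁ hCD₂ hdis hb₁ hb₂ hκ₁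
      (Or.inr (Or.inr (Or.inl h)))
  · exact h₁ n (by omega) α M hM C₁ D₁ C₂ D₂ hC₁ hD₁ hC₂ hD₂ hCD₁ hCD₂ hdis hb₁ hb₂ hκ₁
      (Or.inr (Or.inr (Or.inr h)))

end TSK
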