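import Pool.Agent.TST.TstarR

/-!
# The final statement for MP_5165fa_co in rank form, from T-star for plain grids (helper34)
-/

set_option autoImplicit false

open Set BIC BICS
open scoped Matroid

namespace TSK

universe u

/-- Item (A): elements which are contracted for the first and deleted for the second minor. -/
def TopAR (k K : ℕ) : Prop :=
  ∃ N : ℕ, ∀ n ≥ N, ∀ {α : Type u} (M : Matroid α) [M.Finite] (C₁ D₁ C₂ D₂ F G H : Set α),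
    C₁ ⊆ M.E → D₂ ⊆ M.E → Disjoint (M.E \ (C₁ ∪ D₁)) (M.E \ (C₂ ∪ D₂)) →
    IsBicircular (M ／ C₁ ＼ D₁) (GPlus n) → IsBicircular (M✶ ／ D₂ ＼ C₂) (GPlus n) →
    C₁ ∩ D₂ ⊆ F ∪ G ∪ H →
    N * rk (M ／ (C₁ \ F)) (M.E \ (C₁ ∪ D₁)) ≤ N * rk (M ／ C₁) (M.E \ (C₁ ∪ D₁)) + n ^ 2 →
    N * rk (M✶ ／ (D₂ \ G)) (M.E \ (C₂ ∪ D₂)) ≤ N * rk (M✶ ／ D₂) (M.E \ (C₂ ∪ D₂)) + n ^ 2 →
    (rk M H ≤ K * n ^ 4 ∨ rk M✶ H ≤ K * n ^ 4) →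
    KGe M (M.E \ (C₁ ∪ D₁)) (M.E \ (C₂ ∪ D₂)) N → HasUniformMinor M k

/-- **The conflicts of one kind have small rank or corank.** -/
theorem few_conflicts_rank (hT : ∀ k K : ℕ, 1 ≤ k → TStarD.{u} k K)
    (hA : ∀ k K : ℕ, 1 ≤ k → TopAR.{u} k K) (k K : ℕ) :
    ∃ N : ℕ, ∀ n ≥ N, ∀ (α : Type u) (M : Matroid α), M.Finite → ∀ C₁ D₁ C₂ D₂ : Set α,
    C₁ ⊆ M.E → D₁ ⊆ M.E → C₂ ⊆ M.E → D₂ ⊆ M.E → Disjoint C₁ D₁ → Disjoint C₂ D₂ →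
    Disjoint (M ／ C₁ ＼ D₁).E (M ／ C₂ ＼ D₂).E →
    IsBicircular (M ／ C₁ ＼ D₁) (GPlus n) →
    IsBicircular (M ／ C₂ ＼ D₂)✶ (GPlus n) →
    (∀ X : Set α, (M ／ C₁ ＼ D₁).E ⊆ X → X ⊆ M.E \ (M ／ C₂ ＼ D₂).E →
      (N : ℕ∞) + M.eRk M.E ≤ M.eRk X + M.eRk (M.E \ X)) →
    (∃ F G H : Set α, C₁ ∩ D₂ = F ∪ G ∪ H ∧
        (M.eRk H ≤ K * n ^ 4 ∨ M✶.eRk H ≤ K * n ^ 4) ∧
        N * (M ／ (C₁ \ F)).eRk (M ／ C₁ ＼ D₁).E ≤ N * (M ／ C₁).eRk (M ／ C₁ ＼ D₁).E + n ^ 2 ∧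
        N * (M✶ ／ (D₂ \ G)).eRk (M ／ C₂ ＼ D₂).E ≤
          N * (M✶ ／ D₂).eRk (M ／ C₂ ＼ D₂).E + n ^ 2) ∨
      (∃ (F G H : Set α) (q : ℕ), D₁ ∩ C₂ = F ∪ G ∪ H ∧ N * (q + 1) ≤ n ∧
        ((q + 1) ^ 2 * M.eRk H ≤ K * n ^ 4 ∨ (q + 1) ^ 2 * M✶.eRk H ≤ K * n ^ 4) ∧
        (M ／ C₁).eRk (M ／ C₁ ＼ D₁).E ≤ (M ／ (C₁ ∪ F)).eRk (M ／ C₁ ＼ D₁).E + q ∧
        (M✶ ／ D₂).eRk (M ／ C₂ ＼ D₂).E ≤ (M✶ ／ (D₂ ∪ G)).eRk (M ／ C₂ ＼ D₂).E + q) →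
    ∃ U : Matroid α, U ≤m M ∧ U.E.ncard = 2 * k ∧ ∀ B, U.IsBase B ↔ B ⊆ U.E ∧ B.ncard = k := by
  rcases Nat.eq_zero_or_pos k with rfl | hk
  · exact ⟨0, fun n _ α M _ C₁ D₁ C₂ D₂ _ _ _ _ _ _ _ _ _ _ _ => hasUniformMinor_zero M⟩
  obtain ⟨n₁, h₁⟩ := hA k K hk
  obtain ⟨n₂, h₂⟩ := topDkR_of.{u} (K := K) (hT k (64 * K + 1) hk)
  refine ⟨n₁ + n₂, ?_⟩
  intro n hn α M hM C₁ D₁ C₂ D₂ hC₁ hD₁ hC₂ hD₂ hCD₁ hCD₂ hdis hb₁ hb₂ hκ hdef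
  have g₁ : (M ／ C₁ ＼ D₁).E = M.E \ (C₁ ∪ D₁) := by
    rw [Matroid.delete_ground, Matroid.contract_ground, sdiff_sdiff]
  have g₂ : (M ／ C₂ ＼ D₂).E = M.E \ (C₂ ∪ D₂) := by
    rw [Matroid.delete_ground, Matroid.contract_ground, sdiff_sdiff]
  have hd : (M ／ C₂ ＼ D₂)✶ = M✶ ／ D₂ ＼ C₂ := by
    rw [Matroid.dual_delete, Matroid.dual_contract, Matroid.contract_delete_comm _ hCD₂.symm]
  rw [g₁, g₂] at hdis hκ hdef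
  rw [hd] at hb₂
  have fC : ∀ A : Set α, (M ／ A).Finite := fun A => ⟨M.ground_finite.subset sdiff_subset⟩
  have fD : ∀ A : Set α, (M✶ ／ A).Finite := fun A => ⟨M✶.ground_finite.subset sdiff_subset⟩
  have hK : KGe M (M.E \ (C₁ ∪ D₁)) (M.E \ (C₂ ∪ D₂)) (n₁ + n₂) := by
    intro X h1 h2
    have h3 := hκ X h1 h2
    rw [← cast_rk, ← cast_rk, ← cast_rk] at h3
    exact_mod_cast h3
  have num : ∀ a b N' : ℕ, n₁ ≤ N' → N' * a ≤ N' * b + n ^ 2 → n₁ * a ≤ n₁ * b + n ^ 2 := by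
    intro a b N' hN' h1
    rcases Nat.le_total a b with h | h
    · exact (Nat.mul_le_mul_left _ h).trans (Nat.le_add_right _ _)
    · obtain ⟨c, rfl⟩ := Nat.exists_eq_add_of_le h
      rw [Nat.mul_add] at h1 ⊢
      have : n₁ * c ≤ N' * c := Nat.mul_le_mul_right _ hN'
      omega
  rcases hdef with ⟨F, G, H, hFG, hH, hdef₁, hdef₂⟩ | ⟨F, G, H, q, hFG, hqn, hH, hdef₁, hdef₂⟩
  · have f1 := fC (C₁ \ F)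
    have f2 := fC C₁
    have f3 := fD (D₂ \ G)
    have f4 := fD D₂
    refine h₁ n (by omega) M C₁ D₁ C₂ D₂ F G H hC₁ hD₂ hdis hb₁ hb₂ hFG.subset ?_ ?_ ?_
      (BQ.KGe.mono_n hK (by omega))
    · rw [← cast_rk, ← cast_rk] at hdef₁
      exact num _ _ (n₁ + n₂) (by omega) (by exact_mod_cast hdef₁)
    · rw [← cast_rk, ← cast_rk] at hdef₂
      exact num _ _ (n₁ + n₂) (by omega) (by exact_mod_cast hdef₂)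
    · rw [← cast_rk, ← cast_rk] at hH
      exact_mod_cast hH
  · have f1 := fC (C₁ ∪ F)
    have f2 := fC C₁
    have f3 := fD (D₂ ∪ G)
    have f4 := fD D₂
    refine h₂ n (by omega) M C₁ D₁ C₂ D₂ F G H q hC₁ hD₁ hC₂ hD₂ hdis hb₁ hb₂ hFG
      ?_ ?_ ?_ ?_ (BQ.KGe.mono_n hK (by omega))
    · rw [← cast_rk, ← cast_rk] at hdef₁
      exact_mod_cast hdef₁
    · rw [← cast_rk, ← cast_rk] at hdef₂
      exact_mod_cast hdef₂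
    · exact (Nat.mul_le_mul_right _ (by omega)).trans hqn
    · rw [← cast_rk, ← cast_rk] at hH
      exact_mod_cast hH

end TSK
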