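import Pool.Agent.TST.OutDef
import Pool.Agent.CW.Kill

/-!
# T-star, row ZQ: ring and squares (helper46)

Given finitely many points `P` and a radius `r`: an inner box of the wall, the rows `Zq` = all rows
outside of the box and the rows of few squares inside, which contain all rows near to the points of
`P`, such that the rest of the wall is connected, and every component of `Zq` is full.
`exists_zq`.
-/

set_option autoImplicit false

open Set CWL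

namespace TSH

/-! ### Nets and scales -/

/-- square neighbourhoods -/
def SqN (R : ℕ) (u v : ℕ × ℕ) : Prop :=
  u.1 ≤ v.1 + R ∧ v.1 ≤ u.1 + R ∧ u.2 ≤ v.2 + R ∧ v.2 ≤ u.2 + R

lemma SqN.symm {R : ℕ} {u v : ℕ × ℕ} (h : SqN R u v) : SqN R v u := ⟨h.2.1, h.1, h.2.2.2, h.2.2.1⟩

lemma SqN.mono {R R' : ℕ} (hR : R ≤ R') {u v : ℕ × ℕ} (h : SqN R u v) : SqN R' u v := by
  obtain ⟨h1, h2, h3, h4⟩ := h
  exact ⟨by omega, by omega, by omega, by omega⟩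

lemma exists_net (R : ℕ) (P : Finset (ℕ × ℕ)) : ∃ Q ⊆ P,
    (∀ u ∈ Q, ∀ v ∈ Q, u ≠ v → ¬ SqN R u v) ∧ ∀ v ∈ P, ∃ u ∈ Q, SqN R v u := by
  classical
  induction P using Finset.induction_on with
  | empty => exact ⟨∅, by simp, by simp, by simp⟩
  | insert x P hx ih =>
    obtain ⟨Q, h1, h2, h3⟩ := ih
    by_cases h : ∃ u ∈ Q, SqN R x u
    · refine ⟨Q, h1.trans (Finset.subset_insert _ _), h2, fun v hv => ?_⟩
      rcases Finset.mem_insert.1 hv with rfl | hv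
      · exact h
      · exact h3 v hv
    · push Not at h
      refine ⟨insert x Q, Finset.insert_subset_insert _ h1, ?_, ?_⟩
      · intro u hu v hv huv
        rcases Finset.mem_insert.1 hu with rfl | hu' <;>
          rcases Finset.mem_insert.1 hv with rfl | hv'
        · exact absurd rfl huv
        · exact h v hv'
        · exact fun h' => h u hu' h'.symm
        · exact h2 u hu' v hv' huv
      · intro v hv
        rcases Finset.mem_insert.1 hv with rfl | hv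
        · exact ⟨v, Finset.mem_insert_self _ _, by omega, by omega, by omega, by omega⟩
        · obtain ⟨u, hu, hu'⟩ := h3 v hv
          exact ⟨u, Finset.mem_insert_of_mem hu, hu'⟩

lemma exists_scale (K R₀ m : ℕ) (hK : 1 ≤ K) (P : Finset (ℕ × ℕ)) (hP : P.card * P.card ≤ m) :
    ∃ j ≤ m, ∀ u ∈ P, ∀ v ∈ P, SqN (R₀ * K ^ (j + 1)) u v → SqN (R₀ * K ^ j) u v := by
  classical
  by_contra hcon
  push Not at hcon
  choose! fu h1 fv h2 h3 h4 using hcon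
  have hinj : Set.InjOn (fun j => (fu j, fv j)) (Finset.range (m + 1) : Finset ℕ) := by
    have key : ∀ j j', j ≤ m → j' ≤ m → j < j' → (fu j, fv j) = (fu j', fv j') → False := by
      intro j j' hj hj' hjj he
      rw [Prod.mk.injEq] at he
      have h5 := h3 j hj
      rw [he.1, he.2] at h5
      refine h4 j' hj' (h5.mono ?_)
      exact Nat.mul_le_mul_left _ (Nat.pow_le_pow_right hK hjj)
    intro j hj j' hj' he
    rw [Finset.mem_coe, Finset.mem_range] at hj hj'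
    rcases lt_trichotomy j j' with h | h | h
    · exact absurd he (fun he => key j j' (by omega) (by omega) h he)
    · exact h
    · exact absurd he (fun he => key j' j (by omega) (by omega) h he.symm)
  have hcard := Finset.card_le_card_of_injOn (s := Finset.range (m + 1)) (t := P ×ˢ P)
    (fun j => (fu j, fv j)) (by
      intro j hj
      rw [Finset.mem_coe, Finset.mem_range] at hj
      rw [Finset.mem_coe, Finset.mem_product]
      exact ⟨h1 j (by omega), h2 j (by omega)⟩) hinj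
  rw [Finset.card_range, Finset.card_product] at hcard
  omega

lemma exists_ringA (M Λ p w : ℕ) (hΛ : M + 5 ≤ Λ) (Q : Finset (ℕ × ℕ)) (hQ : Q.card ≤ p)
    (hw : 4 * Λ * (4 * p + 1) + 16 ≤ w) :
    ∃ a, 2 ∣ a ∧ 2 * Λ ≤ a ∧ a ≤ 2 * Λ * (4 * p + 1) ∧ ∀ v ∈ Q,
      ¬ (v.1 ≤ a + M ∧ a ≤ v.1 + M) ∧
      ¬ (v.1 ≤ a + 8 * ((w - 2 * a) / 8) - 1 + M ∧ a + 8 * ((w - 2 * a) / 8) - 1 ≤ v.1 + M) ∧
      ¬ (v.2 ≤ a + M ∧ a ≤ v.2 + M) ∧
      ¬ (v.2 ≤ a + 8 * ((w - 2 * a) / 8) - 1 + M ∧ a + 8 * ((w - 2 * a) / 8) - 1 ≤ v.2 + M) := by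
  classical
  by_contra hcon
  push Not at hcon
  set A : ℕ → ℕ := fun j => 2 * Λ * (j + 1) with hA
  set B : ℕ → ℕ := fun j => A j + 8 * ((w - 2 * A j) / 8) - 1 with hB
  have hA1 : ∀ j j', j < j' → A j + 2 * Λ ≤ A j' := by
    intro j j' h
    have h1 : 2 * Λ * (j + 1) + 2 * Λ * 1 = 2 * Λ * (j + 1 + 1) := by ring
    have h2 : 2 * Λ * (j + 1 + 1) ≤ 2 * Λ * (j' + 1) := Nat.mul_le_mul_left _ (by omega)
    simp only [hA]
    omega
  have hA2 : ∀ j ≤ 4 * p, A j ≤ 2 * Λ * (4 * p + 1) := fun j hj =>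
    Nat.mul_le_mul_left _ (by omega)
  have hw' : ∀ j ≤ 4 * p, 2 * A j + 16 ≤ w := by
    intro j hj
    have h1 := hA2 j hj
    have h2 : 2 * (2 * Λ * (4 * p + 1)) = 4 * Λ * (4 * p + 1) := by ring
    omega
  have hbad : ∀ j, ∃ vt : (ℕ × ℕ) × (Bool × Bool), j ≤ 4 * p → vt.1 ∈ Q ∧
      cond vt.2.1 vt.1.1 vt.1.2 ≤ cond vt.2.2 (A j) (B j) + M ∧
      cond vt.2.2 (A j) (B j) ≤ cond vt.2.1 vt.1.1 vt.1.2 + M := by
    intro j
    by_cases hj : j ≤ 4 * p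
    · have h2 : 2 * Λ ≤ A j := by
        have : 2 * Λ * 1 ≤ 2 * Λ * (j + 1) := Nat.mul_le_mul_left _ (by omega)
        simp only [hA]
        omega
      obtain ⟨v, hv, hv'⟩ := hcon (A j) ⟨Λ * (j + 1), by simp only [hA]; ring⟩ h2 (hA2 j hj)
      by_cases c1 : v.1 ≤ A j + M ∧ A j ≤ v.1 + M
      · exact ⟨(v, (true, true)), fun _ => ⟨hv, c1.1, c1.2⟩⟩
      by_cases c2 : v.1 ≤ B j + M ∧ B j ≤ v.1 + M
      · exact ⟨(v, (true, false)), fun _ => ⟨hv, c2.1, c2.2⟩⟩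
      by_cases c3 : v.2 ≤ A j + M ∧ A j ≤ v.2 + M
      · exact ⟨(v, (false, true)), fun _ => ⟨hv, c3.1, c3.2⟩⟩
      · push Not at c1 c2 c3
        have c4 := hv' c1 c2 c3
        exact ⟨(v, (false, false)), fun _ => ⟨hv, c4.1, c4.2⟩⟩
    · exact ⟨((0, 0), (true, true)), fun h => absurd h hj⟩
  choose g hg using hbad
  have hinj : Set.InjOn g (Finset.range (4 * p + 1) : Finset ℕ) := by
    have key : ∀ j j', j ≤ 4 * p → j' ≤ 4 * p → j < j' → g j = g j' → False := by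
      intro j j' hj hj' hjj he
      obtain ⟨_, b1, b2⟩ := hg j hj
      obtain ⟨_, b3, b4⟩ := hg j' hj'
      rw [he] at b1 b2
      have e1 := hA1 j j' hjj
      have e2 := hw' j hj
      have e3 := hw' j' hj'
      rcases hgj : (g j').2.2 with _ | _
      · rw [hgj] at b1 b2 b3 b4
        simp only [cond_false, hB] at b1 b2 b3 b4
        omega
      · rw [hgj] at b1 b2 b3 b4
        simp only [cond_true] at b1 b2 b3 b4
        omega
    intro j hj j' hj' he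
    rw [Finset.mem_coe, Finset.mem_range] at hj hj'
    rcases lt_trichotomy j j' with h | h | h
    · exact absurd he (fun he => key j j' (by omega) (by omega) h he)
    · exact h
    · exact absurd he (fun he => key j' j (by omega) (by omega) h he.symm)
  have hcard := Finset.card_le_card_of_injOn (s := Finset.range (4 * p + 1))
    (t := Q ×ˢ (Finset.univ : Finset (Bool × Bool))) g (by
      intro j hj
      rw [Finset.mem_coe, Finset.mem_range] at hj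
      rw [Finset.mem_coe, Finset.mem_product]
      exact ⟨(hg j (by omega)).1, Finset.mem_univ _⟩) hinj
  rw [Finset.card_range, Finset.card_product, Finset.card_univ, Fintype.card_prod,
    Fintype.card_bool] at hcard
  omega

/-! ### Ring and squares -/

/-- the rows of the ring (outside of the box) and of the squares with the centres in `Q` -/
def ZQ (w a n₀ ρ : ℕ) (Q : Finset (ℕ × ℕ)) : Set (Bool × ℕ × ℕ) :=
  {s | s ∈ Seg w ∧ ((segNear s ∉ Box a n₀ ∧ segFar s ∉ Box a n₀) ∨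
    ∃ v ∈ Q, SqN ρ v (segNear s) ∧ SqN ρ v (segFar s))}

/-- the squares are deep inside of the box and far apart -/
structure ZH (w a n₀ ρ : ℕ) (Q : Finset (ℕ × ℕ)) : Prop where
  a4 : 4 ≤ a
  n4 : 4 ≤ n₀
  wR : a + 2 * n₀ + 3 ≤ w
  r2 : 2 ≤ ρ
  deep : ∀ v ∈ Q, a + ρ + 3 ≤ v.1 ∧ v.1 + ρ + 3 ≤ a + (2 * n₀ - 1) ∧
    a + ρ + 3 ≤ v.2 ∧ v.2 + ρ + 3 ≤ a + (2 * n₀ - 1)
  far : ∀ u ∈ Q, ∀ v ∈ Q, u ≠ v → ¬ SqN (2 * ρ + 4) u v

lemma seg_far (s : Bool × ℕ × ℕ) : (s.1 = true ∧ segFar s = (s.2.1 + 1, s.2.2)) ∨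
    (s.1 = false ∧ segFar s = (s.2.1, s.2.2 + 1)) := by
  unfold segFar
  rcases h : s.1 with _ | _
  · exact Or.inr ⟨rfl, by simp⟩
  · exact Or.inl ⟨rfl, by simp⟩

lemma not_mem_Box {a n₀ : ℕ} {v : ℕ × ℕ} (hn : 4 ≤ n₀) : v ∉ Box a n₀ ↔
    v.1 < a ∨ a + 2 * n₀ ≤ v.1 ∨ v.2 < a ∨ a + 2 * n₀ ≤ v.2 := by
  unfold Box
  rw [mem_ofPred_eq]
  omega

lemma rg_sub_ZQ {w a n₀ ρ x₀ x₁ y₀ y₁ : ℕ} {Q : Finset (ℕ × ℕ)} (hx : x₁ ≤ w) (hy : y₁ ≤ w)
    (h : (∀ v : ℕ × ℕ, x₀ ≤ v.1 → v.1 ≤ x₁ → y₀ ≤ v.2 → v.2 ≤ y₁ → v ∉ Box a n₀) ∨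
      ∃ u ∈ Q, ∀ v : ℕ × ℕ, x₀ ≤ v.1 → v.1 ≤ x₁ → y₀ ≤ v.2 → v.2 ≤ y₁ → SqN ρ u v) :
    Rg x₀ x₁ y₀ y₁ ⊆ ZQ w a n₀ ρ Q := by
  rintro ⟨b, x, y⟩ hs
  have key : (b, x, y) ∈ Seg w ∧ (x₀ ≤ x ∧ x ≤ x₁ ∧ y₀ ≤ y ∧ y ≤ y₁) ∧
      (x₀ ≤ (segFar (b, x, y)).1 ∧ (segFar (b, x, y)).1 ≤ x₁ ∧ y₀ ≤ (segFar (b, x, y)).2 ∧
        (segFar (b, x, y)).2 ≤ y₁) := by
    rcases hs with ⟨h1, h2, h3, h4, h5⟩ | ⟨h1, h2, h3, h4, h5, h6⟩
    · dsimp only at h1 h2 h3 h4 h5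
      subst h1
      refine ⟨Or.inl ⟨rfl, by dsimp only; omega, by dsimp only; omega⟩, by omega, ?_⟩
      rw [show segFar (true, x, y) = (x + 1, y) from rfl]
      dsimp only
      omega
    · dsimp only at h1 h2 h3 h4 h5 h6
      subst h1
      refine ⟨Or.inr ⟨rfl, by dsimp only; omega, by dsimp only; omega, by dsimp only; omega⟩,
        by omega, ?_⟩
      rw [show segFar (false, x, y) = (x, y + 1) from rfl]
      dsimp only
      omega
  obtain ⟨k1, k2, k3⟩ := key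
  refine ⟨k1, ?_⟩
  rcases h with h | ⟨u, hu, h⟩
  · exact Or.inl ⟨h _ k2.1 k2.2.1 k2.2.2.1 k2.2.2.2, h _ k3.1 k3.2.1 k3.2.2.1 k3.2.2.2⟩
  · exact Or.inr ⟨u, hu, h _ k2.1 k2.2.1 k2.2.2.1 k2.2.2.2, h _ k3.1 k3.2.1 k3.2.2.1 k3.2.2.2⟩

section

variable {w a n₀ ρ : ℕ} {Q : Finset (ℕ × ℕ)}

/-- the vertices of the ring are the vertices of four rectangles -/
lemma ZH.ring_eq (h : ZH w a n₀ ρ Q) : {v : ℕ × ℕ | v.1 ≤ w ∧ v.2 ≤ w ∧ v ∉ Box a n₀} =
    (VS (Rg 0 w 0 (a - 1)) ∪ VS (Rg 0 w (a + 2 * n₀) w)) ∪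
      (VS (Rg 0 (a - 1) a (a + (2 * n₀ - 1))) ∪ VS (Rg (a + 2 * n₀) w a (a + (2 * n₀ - 1)))) := by
  obtain ⟨h1, h2, h3, h4, -, -⟩ := h
  rw [vs_rg (by omega), vs_rg (by omega), vs_rg (by omega), vs_rg (by omega)]
  ext v
  simp only [mem_union, mem_ofPred_eq, not_mem_Box h2]
  omega

/-- the vertices of the squares -/
lemma ZH.sq_eq (h : ZH w a n₀ ρ Q) {u : ℕ × ℕ} (hu : u ∈ Q) :
    VS (Rg (u.1 - ρ) (u.1 + ρ) (u.2 - ρ) (u.2 + ρ)) = {v | SqN ρ u v} := by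
  obtain ⟨h1, h2, h3, h4, h5, -⟩ := h
  have := h5 u hu
  rw [vs_rg (by omega)]
  ext v
  simp only [mem_ofPred_eq, SqN]
  omega

lemma ZH.sq_sub (h : ZH w a n₀ ρ Q) {u : ℕ × ℕ} (hu : u ∈ Q) :
    Rg (u.1 - ρ) (u.1 + ρ) (u.2 - ρ) (u.2 + ρ) ⊆ ZQ w a n₀ ρ Q := by
  obtain ⟨h1, h2, h3, h4, h5, -⟩ := h
  have := h5 u hu
  refine rg_sub_ZQ (by omega) (by omega) (Or.inr ⟨u, hu, fun v q1 q2 q3 q4 => ?_⟩)
  exact ⟨by omega, by omega, by omega, by omega⟩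

lemma VS_eq_VV (S : Set (Bool × ℕ × ℕ)) : VS S = VV S := by
  ext v
  constructor
  · rintro ⟨s, hs, h | h⟩
    · exact ⟨s, hs, Or.inl h.symm⟩
    · exact ⟨s, hs, Or.inr h.symm⟩
  · rintro ⟨s, hs, h | h⟩
    · exact ⟨s, hs, Or.inl h.symm⟩
    · exact ⟨s, hs, Or.inr h.symm⟩

lemma VS_mono {S S' : Set (Bool × ℕ × ℕ)} (h : S ⊆ S') : VS S ⊆ VS S' := by
  rintro v ⟨s, hs, hv⟩
  exact ⟨s, h hs, hv⟩

lemma seg_le {s : Bool × ℕ × ℕ} (hs : s ∈ Seg w) : (segNear s).1 ≤ w ∧ (segNear s).2 ≤ w ∧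
    (segFar s).1 ≤ w ∧ (segFar s).2 ≤ w := by
  obtain ⟨b, x, y⟩ := s
  rcases hs with ⟨h1, h2, h3⟩ | ⟨h1, h2, h3, h4⟩
  · dsimp only at h1 h2 h3
    subst h1
    rw [show segFar (true, x, y) = (x + 1, y) from rfl]
    simp only [segNear]
    omega
  · dsimp only at h1 h2 h3
    subst h1
    rw [show segFar (false, x, y) = (x, y + 1) from rfl]
    simp only [segNear]
    omega

/-- the branch vertices of `ZQ` -/
lemma ZH.mem_VS (h : ZH w a n₀ ρ Q) {v : ℕ × ℕ} : v ∈ VS (ZQ w a n₀ ρ Q) ↔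
    v.1 ≤ w ∧ v.2 ≤ w ∧ (v ∉ Box a n₀ ∨ ∃ u ∈ Q, SqN ρ u v) := by
  constructor
  · rintro ⟨s, ⟨hs, hs'⟩, hv⟩
    obtain ⟨k1, k2, k3, k4⟩ := seg_le hs
    rcases hv with rfl | rfl
    · refine ⟨k1, k2, ?_⟩
      rcases hs' with h1 | ⟨u, hu, h1⟩
      · exact Or.inl h1.1
      · exact Or.inr ⟨u, hu, h1.1⟩
    · refine ⟨k3, k4, ?_⟩
      rcases hs' with h1 | ⟨u, hu, h1⟩
      · exact Or.inl h1.2
      · exact Or.inr ⟨u, hu, h1.2⟩
  · rintro ⟨h1, h2, h3 | ⟨u, hu, h3⟩⟩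
    · have h4 : v ∈ {v : ℕ × ℕ | v.1 ≤ w ∧ v.2 ≤ w ∧ v ∉ Box a n₀} := ⟨h1, h2, h3⟩
      rw [h.ring_eq] at h4
      obtain ⟨a4, n4, wR, r2, -, -⟩ := h
      rcases h4 with (h4 | h4) | (h4 | h4)
      · refine VS_mono (rg_sub_ZQ (by omega) (by omega) (Or.inl fun v q1 q2 q3 q4 => ?_)) h4
        rw [not_mem_Box n4]; omega
      · refine VS_mono (rg_sub_ZQ (by omega) (by omega) (Or.inl fun v q1 q2 q3 q4 => ?_)) h4
        rw [not_mem_Box n4]; omega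
      · refine VS_mono (rg_sub_ZQ (by omega) (by omega) (Or.inl fun v q1 q2 q3 q4 => ?_)) h4
        rw [not_mem_Box n4]; omega
      · refine VS_mono (rg_sub_ZQ (by omega) (by omega) (Or.inl fun v q1 q2 q3 q4 => ?_)) h4
        rw [not_mem_Box n4]; omega
    · refine VS_mono (h.sq_sub hu) ?_
      rw [h.sq_eq hu]
      exact h3

/-- **`ZQ` is full.** -/
lemma ZH.nb (h : ZH w a n₀ ρ Q) : NB (ZQ w a n₀ ρ Q) (VS (ZQ w a n₀ ρ Q)) := by
  classical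
  have h1 : VS (ZQ w a n₀ ρ Q) = {v : ℕ × ℕ | v.1 ≤ w ∧ v.2 ≤ w ∧ v ∉ Box a n₀} ∪
      {v | ∃ u ∈ Q, SqN ρ u v} := by
    ext v
    rw [h.mem_VS]
    constructor
    · rintro ⟨h1, h2, h3 | h3⟩
      · exact Or.inl ⟨h1, h2, h3⟩
      · exact Or.inr h3
    · rintro (⟨h1, h2, h3⟩ | ⟨u, hu, h3⟩)
      · exact ⟨h1, h2, Or.inl h3⟩
      · obtain ⟨a4, n4, wR, r2, hd, -⟩ := h
        have := hd u hu
        obtain ⟨q1, q2, q3, q4⟩ := h3
        exact ⟨by omega, by omega, Or.inr ⟨u, hu, q1, q2, q3, q4⟩⟩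
  rw [h1]
  refine NB.union ?_ ?_
  · rw [h.ring_eq]
    obtain ⟨a4, n4, wR, r2, -, -⟩ := h
    refine NB.union (NB.union ?_ ?_) (NB.union ?_ ?_)
    · refine (nb_rg (by omega) (by omega)).mono (rg_sub_ZQ (by omega) (by omega)
        (Or.inl fun v q1 q2 q3 q4 => ?_))
      rw [not_mem_Box n4]; omega
    · refine (nb_rg (by omega) (by omega)).mono (rg_sub_ZQ (by omega) (by omega)
        (Or.inl fun v q1 q2 q3 q4 => ?_))
      rw [not_mem_Box n4]; omega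
    · refine (nb_rg (by omega) (by omega)).mono (rg_sub_ZQ (by omega) (by omega)
        (Or.inl fun v q1 q2 q3 q4 => ?_))
      rw [not_mem_Box n4]; omega
    · refine (nb_rg (by omega) (by omega)).mono (rg_sub_ZQ (by omega) (by omega)
        (Or.inl fun v q1 q2 q3 q4 => ?_))
      rw [not_mem_Box n4]; omega
  · have key : ∀ S : Finset (ℕ × ℕ), S ⊆ Q → NB (ZQ w a n₀ ρ Q) {v | ∃ u ∈ S, SqN ρ u v} := by
      intro S
      induction S using Finset.induction_on with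
      | empty =>
        intro _
        have : {v : ℕ × ℕ | ∃ u ∈ (∅ : Finset (ℕ × ℕ)), SqN ρ u v} = ∅ := by
          ext v; simp
        rw [this]
        exact nb_empty _
      | insert x S hx ih =>
        intro hS
        have h2 : {v : ℕ × ℕ | ∃ u ∈ insert x S, SqN ρ u v} =
            {v | SqN ρ x v} ∪ {v | ∃ u ∈ S, SqN ρ u v} := by
          ext v
          simp only [Finset.mem_insert, exists_eq_or_imp, mem_union, mem_ofPred_eq]
        rw [h2]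
        have hxQ : x ∈ Q := hS (Finset.mem_insert_self _ _)
        refine NB.union ?_ (ih ((Finset.subset_insert _ _).trans hS))
        rw [← h.sq_eq hxQ]
        refine (nb_rg ?_ ?_).mono (h.sq_sub hxQ)
        · have := h.deep x hxQ
          have := h.r2
          omega
        · have := h.deep x hxQ
          have := h.r2
          omega
    exact key Q subset_rfl

/-- every other row has a vertex outside -/
lemma ZH.row (h : ZH w a n₀ ρ Q) : ∀ r ∈ Seg w, r ∉ ZQ w a n₀ ρ Q →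
    segNear r ∉ VS (ZQ w a n₀ ρ Q) ∨ segFar r ∉ VS (ZQ w a n₀ ρ Q) := by
  intro r hr hrZ
  by_contra hcon
  push Not at hcon
  obtain ⟨h1, h2⟩ := hcon
  rw [h.mem_VS] at h1 h2
  obtain ⟨-, -, h1⟩ := h1
  obtain ⟨-, -, h2⟩ := h2
  have hadj : (segNear r).1 ≤ (segFar r).1 ∧ (segFar r).1 ≤ (segNear r).1 + 1 ∧
      (segNear r).2 ≤ (segFar r).2 ∧ (segFar r).2 ≤ (segNear r).2 + 1 := by
    rcases seg_far r with ⟨_, k⟩ | ⟨_, k⟩ <;> rw [k] <;> simp only [segNear] <;> omega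
  obtain ⟨a4, n4, wR, r2, hd, hf⟩ := h
  rcases h1 with h1 | ⟨u, hu, h1⟩ <;> rcases h2 with h2 | ⟨u', hu', h2⟩
  · exact hrZ ⟨hr, Or.inl ⟨h1, h2⟩⟩
  · rw [not_mem_Box n4] at h1
    have := hd u' hu'
    obtain ⟨q1, q2, q3, q4⟩ := h2
    omega
  · rw [not_mem_Box n4] at h2
    have := hd u hu
    obtain ⟨q1, q2, q3, q4⟩ := h1
    omega
  · by_cases huu : u = u'
    · subst huu
      exact hrZ ⟨hr, Or.inr ⟨u, hu, h1, h2⟩⟩
    · refine hf u hu u' hu' huu ?_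
      obtain ⟨q1, q2, q3, q4⟩ := h1
      obtain ⟨q5, q6, q7, q8⟩ := h2
      exact ⟨by omega, by omega, by omega, by omega⟩

/-- the rows of `ZQ` are inside or outside of the box -/
lemma ZH.box (h : ZH w a n₀ ρ Q) : ∀ r ∈ ZQ w a n₀ ρ Q,
    segNear r ∈ Box a n₀ ↔ segFar r ∈ Box a n₀ := by
  rintro r ⟨hr, h1 | ⟨u, hu, h1, h2⟩⟩
  · exact ⟨fun h => absurd h h1.1, fun h => absurd h h1.2⟩
  · have h3 : ∀ v, SqN ρ u v → v ∈ Box a n₀ := by
      intro v hv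
      by_contra hcon
      rw [not_mem_Box h.n4] at hcon
      have := h.deep u hu
      obtain ⟨q1, q2, q3, q4⟩ := hv
      omega
    exact ⟨fun _ => h3 _ h2, fun _ => h3 _ h1⟩

/-- the free vertices -/
def FrQ (a n₀ ρ : ℕ) (Q : Finset (ℕ × ℕ)) (z : ℕ × ℕ) : Prop :=
  (a ≤ z.1 ∧ z.1 < a + 2 * n₀ ∧ a ≤ z.2 ∧ z.2 < a + 2 * n₀) ∧ ∀ u ∈ Q, ¬ SqN ρ u z

/-- connected outside of `ZQ` -/
def RTz (w a n₀ ρ : ℕ) (Q : Finset (ℕ × ℕ)) : ℕ × ℕ → ℕ × ℕ → Prop :=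
  Relation.ReflTransGen (fun x y => x ∉ VV (ZQ w a n₀ ρ Q) ∧ y ∉ VV (ZQ w a n₀ ρ Q) ∧
    ∃ r ∈ Seg w, (segNear r = x ∧ segFar r = y) ∨ (segNear r = y ∧ segFar r = x))

lemma RTz.symm {x y : ℕ × ℕ} (h : RTz w a n₀ ρ Q x y) : RTz w a n₀ ρ Q y x := by
  unfold RTz at h ⊢
  induction h with
  | refl => exact Relation.ReflTransGen.refl
  | tail _ hbc ih =>
    obtain ⟨h1, h2, r, hr, h3⟩ := hbc
    exact (Relation.ReflTransGen.single ⟨h2, h1, r, hr, h3.symm⟩).trans ih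

lemma RTz.trans {x y z : ℕ × ℕ} (h : RTz w a n₀ ρ Q x y) (h' : RTz w a n₀ ρ Q y z) :
    RTz w a n₀ ρ Q x z := Relation.ReflTransGen.trans h h'

lemma ZH.fr_iff (h : ZH w a n₀ ρ Q) {z : ℕ × ℕ} :
    FrQ a n₀ ρ Q z ↔ z.1 ≤ w ∧ z.2 ≤ w ∧ z ∉ VV (ZQ w a n₀ ρ Q) := by
  rw [← VS_eq_VV, h.mem_VS]
  have h1 := h.n4
  have h2 := h.wR
  have h3 := not_mem_Box (a := a) (v := z) h.n4
  constructor
  · rintro ⟨h4, h5⟩
    refine ⟨by omega, by omega, ?_⟩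
    rintro ⟨_, _, h6 | ⟨u, hu, h6⟩⟩
    · rw [h3] at h6
      omega
    · exact h5 u hu h6
  · rintro ⟨h4, h5, h6⟩
    have h7 : ¬ (z ∉ Box a n₀) := fun h => h6 ⟨h4, h5, Or.inl h⟩
    rw [h3] at h7
    exact ⟨by omega, fun u hu hz => h6 ⟨h4, h5, Or.inr ⟨u, hu, hz⟩⟩⟩

lemma ZH.hstep (h : ZH w a n₀ ρ Q) {x y : ℕ} (h1 : FrQ a n₀ ρ Q (x, y))
    (h2 : FrQ a n₀ ρ Q (x + 1, y)) : RTz w a n₀ ρ Q (x, y) (x + 1, y) := by
  have h3 := h.fr_iff.1 h1
  have h4 := h.fr_iff.1 h2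
  refine Relation.ReflTransGen.single ⟨h3.2.2, h4.2.2, (true, x, y), Or.inl ⟨rfl, ?_, ?_⟩,
    Or.inl ⟨rfl, rfl⟩⟩
  · dsimp only at h4 ⊢; omega
  · exact h3.2.1

lemma ZH.vstep (h : ZH w a n₀ ρ Q) {x y : ℕ} (hp : (x + y) % 2 = 0) (h1 : FrQ a n₀ ρ Q (x, y))
    (h2 : FrQ a n₀ ρ Q (x, y + 1)) : RTz w a n₀ ρ Q (x, y) (x, y + 1) := by
  have h3 := h.fr_iff.1 h1
  have h4 := h.fr_iff.1 h2
  refine Relation.ReflTransGen.single ⟨h3.2.2, h4.2.2, (false, x, y), Or.inr ⟨rfl, h3.1, ?_, hp⟩,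
    Or.inl ⟨rfl, rfl⟩⟩
  dsimp only at h4 ⊢; omega

lemma ZH.hwalk (h : ZH w a n₀ ρ Q) {x x' y : ℕ} (hx : x ≤ x')
    (hF : ∀ t, x ≤ t → t ≤ x' → FrQ a n₀ ρ Q (t, y)) : RTz w a n₀ ρ Q (x, y) (x', y) := by
  induction x', hx using Nat.le_induction with
  | base => exact Relation.ReflTransGen.refl
  | succ l hl ih =>
    exact (ih fun t h1 h2 => hF t h1 (by omega)).trans
      (h.hstep (hF l hl (by omega)) (hF (l + 1) (by omega) le_rfl))

lemma ZH.vwalk (h : ZH w a n₀ ρ Q) {c y y' : ℕ} (hy : y ≤ y')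
    (hF : ∀ t, y ≤ t → t ≤ y' → FrQ a n₀ ρ Q (c, t) ∧ FrQ a n₀ ρ Q (c + 1, t)) :
    RTz w a n₀ ρ Q (c, y) (c, y') := by
  induction y', hy using Nat.le_induction with
  | base => exact Relation.ReflTransGen.refl
  | succ l hl ih =>
    refine (ih fun t h1 h2 => hF t h1 (by omega)).trans ?_
    obtain ⟨h1, h2⟩ := hF l hl (by omega)
    obtain ⟨h3, h4⟩ := hF (l + 1) (by omega) le_rfl
    rcases Nat.mod_two_eq_zero_or_one (c + l) with hp | hp
    · exact h.vstep hp h1 h3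
    · exact (h.hstep h1 h2).trans ((h.vstep (by omega) h2 h4).trans (h.hstep h3 h4).symm)

lemma ZH.fr_near (h : ZH w a n₀ ρ Q) {u z : ℕ × ℕ} (hu : u ∈ Q) (h1 : SqN (ρ + 2) u z)
    (h2 : ¬ SqN ρ u z) : FrQ a n₀ ρ Q z := by
  have h3 := h.deep u hu
  have h4 := h.n4
  obtain ⟨q1, q2, q3, q4⟩ := h1
  refine ⟨⟨by omega, by omega, by omega, by omega⟩, fun v hv hvz => ?_⟩
  by_cases huv : u = v
  · subst huv
    exact h2 hvz
  · refine h.far u hu v hv huv ?_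
    obtain ⟨q5, q6, q7, q8⟩ := hvz
    exact ⟨by omega, by omega, by omega, by omega⟩

/-- around a square -/
lemma ZH.around (h : ZH w a n₀ ρ Q) {u : ℕ × ℕ} (hu : u ∈ Q) {y : ℕ} (h1 : u.2 ≤ y + ρ)
    (h2 : y ≤ u.2 + ρ) : RTz w a n₀ ρ Q (u.1 + ρ + 1, y) (u.1 - ρ - 1, y) := by
  have hd := h.deep u hu
  have ha := h.a4
  -- right side
  have r1 : RTz w a n₀ ρ Q (u.1 + ρ + 1, y) (u.1 + ρ + 1, u.2 + ρ + 1) := by
    refine h.vwalk (by omega) fun t t1 t2 => ⟨h.fr_near hu ?_ ?_, h.fr_near hu ?_ ?_⟩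
    · exact ⟨by dsimp only; omega, by dsimp only; omega, by dsimp only; omega,
        by dsimp only; omega⟩
    · intro hn
      have := hn.2.1
      dsimp only at this
      omega
    · exact ⟨by dsimp only; omega, by dsimp only; omega, by dsimp only; omega,
        by dsimp only; omega⟩
    · intro hn
      have := hn.2.1
      dsimp only at this
      omega
  -- top
  have r2 : RTz w a n₀ ρ Q (u.1 - ρ - 2, u.2 + ρ + 1) (u.1 + ρ + 1, u.2 + ρ + 1) := by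
    refine h.hwalk (by omega) fun t t1 t2 => h.fr_near hu ?_ ?_
    · exact ⟨by dsimp only; omega, by dsimp only; omega, by dsimp only; omega,
        by dsimp only; omega⟩
    · intro hn
      have := hn.2.2.2
      dsimp only at this
      omega
  -- left side
  have r3 : RTz w a n₀ ρ Q (u.1 - ρ - 2, y) (u.1 - ρ - 2, u.2 + ρ + 1) := by
    refine h.vwalk (by omega) fun t t1 t2 => ⟨h.fr_near hu ?_ ?_, h.fr_near hu ?_ ?_⟩
    · exact ⟨by dsimp only; omega, by dsimp only; omega, by dsimp only; omega,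
        by dsimp only; omega⟩
    · intro hn
      have := hn.1
      dsimp only at this
      omega
    · exact ⟨by dsimp only; omega, by dsimp only; omega, by dsimp only; omega,
        by dsimp only; omega⟩
    · intro hn
      have := hn.1
      dsimp only at this
      omega
  have r4 : RTz w a n₀ ρ Q (u.1 - ρ - 2, y) (u.1 - ρ - 1, y) := by
    refine h.hwalk (by omega) fun t t1 t2 => h.fr_near hu ?_ ?_
    · exact ⟨by dsimp only; omega, by dsimp only; omega, by dsimp only; omega,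
        by dsimp only; omega⟩
    · intro hn
      have := hn.1
      dsimp only at this
      omega
  exact r1.trans (r2.symm.trans (r3.symm.trans r4))

/-- to the left border of the box -/
lemma ZH.left (h : ZH w a n₀ ρ Q) : ∀ x y : ℕ, FrQ a n₀ ρ Q (x, y) →
    ∃ y', a ≤ y' ∧ y' < a + 2 * n₀ ∧ RTz w a n₀ ρ Q (x, y) (a, y') := by
  intro x
  induction x using Nat.strong_induction_on with
  | _ x ih =>
    intro y hF
    have h1 := hF.1
    dsimp only at h1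
    rcases Nat.lt_or_ge a x with hx | hx
    · by_cases hF' : FrQ a n₀ ρ Q (x - 1, y)
      · obtain ⟨y', h2, h3, h4⟩ := ih (x - 1) (by omega) y hF'
        refine ⟨y', h2, h3, ?_⟩
        have h5 := h.hstep hF' (by rw [show x - 1 + 1 = x by omega]; exact hF)
        rw [show x - 1 + 1 = x by omega] at h5
        exact h5.symm.trans h4
      · have h2 : ∃ u ∈ Q, SqN ρ u (x - 1, y) := by
          by_contra hcon
          push Not at hcon
          exact hF' ⟨⟨by dsimp only; omega, by dsimp only; omega, by dsimp only; omega,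
            by dsimp only; omega⟩, hcon⟩
        obtain ⟨u, hu, q1, q2, q3, q4⟩ := h2
        have h3 := hF.2 u hu
        dsimp only at q1 q2 q3 q4
        have h4 : x = u.1 + ρ + 1 := by
          by_contra hne
          exact h3 ⟨by dsimp only; omega, by dsimp only; omega, by dsimp only; omega,
            by dsimp only; omega⟩
        have h5 := h.around hu (y := y) (by omega) (by omega)
        have hd := h.deep u hu
        have h6 : FrQ a n₀ ρ Q (u.1 - ρ - 1, y) := by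
          refine h.fr_near hu ?_ ?_
          · exact ⟨by dsimp only; omega, by dsimp only; omega, by dsimp only; omega,
              by dsimp only; omega⟩
          · intro hn
            have := hn.1
            dsimp only at this
            omega
        obtain ⟨y', h7, h8, h9⟩ := ih (u.1 - ρ - 1) (by omega) y h6
        refine ⟨y', h7, h8, ?_⟩
        rw [h4]
        exact h5.trans h9
    · have h2 : x = a := by omega
      subst h2
      exact ⟨y, h1.2.2.1, h1.2.2.2, Relation.ReflTransGen.refl⟩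

/-- **The rest is connected.** -/
lemma ZH.geo (h : ZH w a n₀ ρ Q) : GeoZ w (ZQ w a n₀ ρ Q) := by
  refine ⟨fun r hr hrZ => by rw [← VS_eq_VV]; exact h.row r hr hrZ, ?_⟩
  have hle : ∀ p ∈ VV (Seg w), p.1 ≤ w ∧ p.2 ≤ w := by
    rintro p ⟨r, hr, rfl | rfl⟩
    · exact ⟨(seg_le hr).1, (seg_le hr).2.1⟩
    · exact ⟨(seg_le hr).2.2.1, (seg_le hr).2.2.2⟩
  have hn := h.n4
  have hcol : ∀ t, a ≤ t → t < a + 2 * n₀ → FrQ a n₀ ρ Q (a, t) ∧ FrQ a n₀ ρ Q (a + 1, t) := by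
    intro t h1 h2
    refine ⟨⟨⟨by dsimp only; omega, by dsimp only; omega, by dsimp only; omega,
      by dsimp only; omega⟩, fun u hu hn => ?_⟩, ⟨⟨by dsimp only; omega, by dsimp only; omega,
      by dsimp only; omega, by dsimp only; omega⟩, fun u hu hn => ?_⟩⟩
    · have := h.deep u hu
      have := hn.1
      dsimp only at this
      omega
    · have := h.deep u hu
      have := hn.1
      dsimp only at this
      omega
  intro p hp hpZ p' hp' hpZ'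
  change RTz w a n₀ ρ Q p p'
  have h1 : FrQ a n₀ ρ Q (p.1, p.2) := h.fr_iff.2 ⟨(hle p hp).1, (hle p hp).2, hpZ⟩
  have h2 : FrQ a n₀ ρ Q (p'.1, p'.2) := h.fr_iff.2 ⟨(hle p' hp').1, (hle p' hp').2, hpZ'⟩
  obtain ⟨y, k1, k2, k3⟩ := h.left _ _ h1
  obtain ⟨y', k4, k5, k6⟩ := h.left _ _ h2
  refine k3.trans (RTz.trans ?_ k6.symm)
  rcases Nat.le_total y y' with hy | hy
  · exact h.vwalk hy fun t t1 t2 => hcol t (by omega) (by omega)
  · exact (h.vwalk hy fun t t1 t2 => hcol t (by omega) (by omega)).symm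

end

/-! ### Counting -/

section

variable {w a n₀ ρ : ℕ} {Q : Finset (ℕ × ℕ)}

lemma ZQ_in_card : {r | r ∈ ZQ w a n₀ ρ Q ∧ segNear r ∈ Box a n₀}.ncard ≤
    Q.card * (2 * ((2 * ρ + 1) * (2 * ρ + 1))) := by
  classical
  set T : Finset (Bool × ℕ × ℕ) := Q.biUnion fun v => (Finset.univ : Finset Bool) ×ˢ
    (Finset.Icc (v.1 - ρ) (v.1 + ρ) ×ˢ Finset.Icc (v.2 - ρ) (v.2 + ρ)) with hT
  have h1 : {r | r ∈ ZQ w a n₀ ρ Q ∧ segNear r ∈ Box a n₀} ⊆ (T : Set (Bool × ℕ × ℕ)) := by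
    rintro ⟨b, x, y⟩ ⟨⟨hr, h1 | ⟨u, hu, ⟨q1, q2, q3, q4⟩, -⟩⟩, h2⟩
    · exact absurd h2 h1.1
    · simp only [segNear] at q1 q2 q3 q4
      rw [hT, Finset.mem_coe, Finset.mem_biUnion]
      refine ⟨u, hu, ?_⟩
      simp only [Finset.mem_product, Finset.mem_univ, Finset.mem_Icc, true_and]
      omega
  have h2 : T.card ≤ ∑ v ∈ Q, (2 * ((2 * ρ + 1) * (2 * ρ + 1))) := by
    refine Finset.card_biUnion_le.trans (Finset.sum_le_sum fun v _ => ?_)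
    rw [Finset.card_product, Finset.card_product, Finset.card_univ, Fintype.card_bool,
      Nat.card_Icc, Nat.card_Icc]
    exact Nat.mul_le_mul_left _ (Nat.mul_le_mul (by omega) (by omega))
  rw [Finset.sum_const, smul_eq_mul] at h2
  refine (Set.ncard_le_ncard h1 T.finite_toSet).trans ?_
  rw [Set.ncard_coe_finset]
  exact h2

lemma out_card (hn : 4 ≤ n₀) : {s | s ∈ Seg w ∧ ¬ (segNear s ∈ Box a n₀ ∧ segFar s ∈ Box a n₀)}.ncard ≤
    4 * ((w + 1) * (a + (w + 2 - (a + 2 * n₀)))) := by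
  classical
  set X : Finset ℕ := Finset.range a ∪ Finset.Icc (a + 2 * n₀ - 1) w with hX
  set T : Finset (Bool × ℕ × ℕ) := ((Finset.univ : Finset Bool) ×ˢ (X ×ˢ Finset.range (w + 1))) ∪
    ((Finset.univ : Finset Bool) ×ˢ (Finset.range (w + 1) ×ˢ X)) with hT
  have hXc : X.card ≤ a + (w + 2 - (a + 2 * n₀)) := by
    refine (Finset.card_union_le _ _).trans ?_
    rw [Finset.card_range, Nat.card_Icc]
    omega
  have h1 : {s | s ∈ Seg w ∧ ¬ (segNear s ∈ Box a n₀ ∧ segFar s ∈ Box a n₀)} ⊆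
      (T : Set (Bool × ℕ × ℕ)) := by
    rintro ⟨b, x, y⟩ ⟨hs, h2⟩
    have k1 := seg_le hs
    have k2 : x < a ∨ a + 2 * n₀ - 1 ≤ x ∨ y < a ∨ a + 2 * n₀ - 1 ≤ y := by
      rw [not_and_or, not_mem_Box hn, not_mem_Box hn] at h2
      rcases seg_far (b, x, y) with ⟨_, k⟩ | ⟨_, k⟩ <;> rw [k] at h2 <;>
        simp only [segNear] at h2 <;> omega
    simp only [segNear] at k1
    rw [hT, Finset.mem_coe, Finset.mem_union]
    simp only [Finset.mem_product, Finset.mem_univ, true_and, hX, Finset.mem_union,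
      Finset.mem_range, Finset.mem_Icc]
    omega
  have h2 : T.card ≤ 4 * ((w + 1) * (a + (w + 2 - (a + 2 * n₀)))) := by
    refine (Finset.card_union_le _ _).trans ?_
    rw [Finset.card_product, Finset.card_product, Finset.card_product, Finset.card_product,
      Finset.card_univ, Fintype.card_bool, Finset.card_range]
    have h3 : (w + 1) * X.card ≤ (w + 1) * (a + (w + 2 - (a + 2 * n₀))) :=
      Nat.mul_le_mul_left _ hXc
    have h4 : X.card * (w + 1) = (w + 1) * X.card := Nat.mul_comm _ _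
    rw [h4]
    omega
  refine (Set.ncard_le_ncard h1 T.finite_toSet).trans ?_
  rw [Set.ncard_coe_finset]
  exact h2

lemma ZH.big (h : ZH w a n₀ ρ Q) (hρ : 4 ≤ ρ) {u : ℕ × ℕ} (hu : u ∈ Q) :
    55 ≤ {v | v ∈ Box a n₀ ∧ ∃ r ∈ ZQ w a n₀ ρ Q, segNear r = v ∨ segFar r = v}.ncard := by
  classical
  set T : Finset (ℕ × ℕ) := Finset.Icc (u.1 - ρ) (u.1 + ρ) ×ˢ Finset.Icc (u.2 - ρ) (u.2 + ρ) with hT
  have hd := h.deep u hu
  have ha := h.a4
  have hn := h.n4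
  have h1 : (T : Set (ℕ × ℕ)) ⊆
      {v | v ∈ Box a n₀ ∧ ∃ r ∈ ZQ w a n₀ ρ Q, segNear r = v ∨ segFar r = v} := by
    rintro ⟨x, y⟩ hv
    rw [hT, Finset.mem_coe, Finset.mem_product, Finset.mem_Icc, Finset.mem_Icc] at hv
    dsimp only at hv
    have h2 : (x, y) ∈ VS (ZQ w a n₀ ρ Q) := by
      rw [h.mem_VS]
      have := h.wR
      refine ⟨by dsimp only; omega, by dsimp only; omega, Or.inr ⟨u, hu, ?_⟩⟩
      exact ⟨by dsimp only; omega, by dsimp only; omega, by dsimp only; omega,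
        by dsimp only; omega⟩
    rw [VS_eq_VV] at h2
    refine ⟨?_, h2⟩
    exact ⟨by dsimp only; omega, by dsimp only; omega, by dsimp only; omega,
      by dsimp only; omega⟩
  have h2 : 55 ≤ T.card := by
    rw [hT, Finset.card_product, Nat.card_Icc, Nat.card_Icc]
    have : 9 * 9 ≤ (u.1 + ρ + 1 - (u.1 - ρ)) * (u.2 + ρ + 1 - (u.2 - ρ)) :=
      Nat.mul_le_mul (by omega) (by omega)
    omega
  have hfin : {v | v ∈ Box a n₀ ∧ ∃ r ∈ ZQ w a n₀ ρ Q, segNear r = v ∨ segFar r = v}.Finite := by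
    refine ((Finset.range (a + 2 * n₀) ×ˢ Finset.range (a + 2 * n₀)).finite_toSet).subset ?_
    rintro ⟨x, y⟩ ⟨⟨h1, h2, h3, h4⟩, -⟩
    dsimp only at h1 h2 h3 h4
    rw [Finset.mem_coe, Finset.mem_product, Finset.mem_range, Finset.mem_range]
    dsimp only
    omega
  have h3 := Set.ncard_le_ncard h1 hfin
  rw [Set.ncard_coe_finset] at h3
  omega

end

/-! ### The row ZQ -/

/-- `Zq` = the ring and the squares of radius `rZ` around the points of `Q`; the squares are deep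
inside of the box and far apart. -/
structure SqZ (w r C a n₀ rZ : ℕ) (Q : Finset (ℕ × ℕ)) (Zq : Set (Bool × ℕ × ℕ)) : Prop where
  Q_le : Q.card ≤ C
  rZ_le : rZ ≤ C
  le_rZ : 2 * r + 20 ≤ rZ
  eq : Zq = ZQ w a n₀ rZ Q
  zh : ZH w a n₀ rZ Q
  deep : ∀ c ∈ Q, a + 2 * rZ ≤ c.1 ∧ c.1 + 2 * rZ ≤ a + (2 * n₀ - 1) ∧
    a + 2 * rZ ≤ c.2 ∧ c.2 + 2 * rZ ≤ a + (2 * n₀ - 1)
  far : ∀ c ∈ Q, ∀ c' ∈ Q, c ≠ c' → 4 * rZ ≤ DA.sd c c'

lemma SqZ.mono_r {w r r' C a n₀ rZ : ℕ} {Q : Finset (ℕ × ℕ)} {Zq : Set (Bool × ℕ × ℕ)}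
    (h : SqZ w r C a n₀ rZ Q Zq) (hr : r' ≤ r) : SqZ w r' C a n₀ rZ Q Zq :=
  { h with le_rZ := by have := h.le_rZ; omega }

lemma SqZ.deep16 {w r C a n₀ rZ : ℕ} {Q : Finset (ℕ × ℕ)} {Zq : Set (Bool × ℕ × ℕ)}
    (h : SqZ w r C a n₀ rZ Q Zq) : ∀ c ∈ Q, a + rZ + 16 ≤ c.1 ∧ c.1 + rZ + 16 ≤ a + (2 * n₀ - 1) ∧
    a + rZ + 16 ≤ c.2 ∧ c.2 + rZ + 16 ≤ a + (2 * n₀ - 1) := by
  intro c hc
  have h1 := h.deep c hc
  have h2 := h.le_rZ
  omega

lemma SqZ.far24 {w r C a n₀ rZ : ℕ} {Q : Finset (ℕ × ℕ)} {Zq : Set (Bool × ℕ × ℕ)}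
    (h : SqZ w r C a n₀ rZ Q Zq) : ∀ c ∈ Q, ∀ c' ∈ Q, c ≠ c' → 2 * rZ + 24 ≤ DA.sd c c' := by
  intro c hc c' hc' hcc
  have h1 := h.far c hc c' hc' hcc
  have h2 := h.le_rZ
  omega

/-- **Output of the row ZQ.** -/
structure ZqOut (w r C η : ℕ) (F : ℕ → ℕ) (P : Finset (ℕ × ℕ)) (LR₀ : Set (Bool × ℕ × ℕ))
    (a n₀ : ℕ) (Zq LR : Set (Bool × ℕ × ℕ)) : Prop where
  wall : 2 ∣ a ∧ 4 ∣ n₀ ∧ 4 ≤ n₀ ∧ a + (2 * n₀ - 1) ≤ w ∧ w ≤ 4 * n₀
  le_a : r ≤ a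
  le_w : a + 2 * n₀ + r ≤ w
  Zq_sub : Zq ⊆ LR
  LR_sub : LR ⊆ Seg w
  LR₀_sub : LR₀ ⊆ LR
  Zq_box : ∀ s ∈ Zq, segNear s ∈ Box a n₀ ↔ segFar s ∈ Box a n₀
  ring : ∀ s ∈ Seg w, ¬ (segNear s ∈ Box a n₀ ∧ segFar s ∈ Box a n₀) → s ∈ LR
  ne : ∃ s ∈ Zq, segNear s ∈ Box a n₀
  few : F {s | s ∈ Zq ∧ segNear s ∈ Box a n₀}.ncard ≤ w
  few' : {s | s ∈ Zq ∧ segNear s ∈ Box a n₀}.ncard ≤ C
  light : η * LR.ncard ≤ w ^ 2
  geo : GeoZ w Zq
  big : 55 ≤ {v | v ∈ Box a n₀ ∧ ∃ s ∈ Zq, segNear s = v ∨ segFar s = v}.ncard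
  /-- the rows near to the points of `P` -/
  near : ∀ v ∈ P, ∀ s ∈ Seg w, SqN r v (segNear s) ∨ SqN r v (segFar s) → s ∈ Zq
  /-- the outer ring -/
  out : ∀ s ∈ Seg w, segNear s ∉ Box a n₀ → segFar s ∉ Box a n₀ → s ∈ Zq
  nb : NB Zq (VS Zq)
  /-- the ring is contained in a layer of width `C` -/
  lay : ∀ s ∈ Seg w, ¬ (segNear s ∈ Box a n₀ ∧ segFar s ∈ Box a n₀) → s ∈ layer w C
  /-- `Zq` = ring and squares; the squares are deep and far apart -/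
  sq : ∃ (Q : Finset (ℕ × ℕ)) (rZ : ℕ), SqZ w r C a n₀ rZ Q Zq

/-- **Row ZQ.**  Finitely many points `P`, radius `r`, wishes `η`, `F`, light rows `LR₀`. -/
theorem exists_zq (p r : ℕ) : ∃ C : ℕ, ∀ (η : ℕ) (F : ℕ → ℕ), ∃ w₁ : ℕ, ∀ w ≥ w₁,
    ∀ P : Finset (ℕ × ℕ), P.card ≤ p → ∀ LR₀ : Set (Bool × ℕ × ℕ), LR₀ ⊆ Seg w →
      2 * η * LR₀.ncard ≤ w ^ 2 →
      ∃ (a n₀ : ℕ) (Zq LR : Set (Bool × ℕ × ℕ)), ZqOut w r C η F P LR₀ a n₀ Zq LR := by
  classical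
  obtain ⟨m, hm⟩ : ∃ m : ℕ, m = (p + 1) * (p + 1) := ⟨_, rfl⟩
  obtain ⟨Rm, hRm⟩ : ∃ Rm : ℕ, Rm = (r + 10) * 8 ^ m := ⟨_, rfl⟩
  obtain ⟨Λ, hΛ⟩ : ∃ Λ : ℕ, Λ = 4 * Rm + 5 := ⟨_, rfl⟩
  obtain ⟨A, hA⟩ : ∃ A : ℕ, A = 2 * Λ * (4 * (p + 1) + 1) := ⟨_, rfl⟩
  obtain ⟨C₀, hC₀⟩ : ∃ C₀ : ℕ, C₀ = (p + 1) * (2 * ((4 * Rm + 1) * (4 * Rm + 1))) := ⟨_, rfl⟩
  obtain ⟨C, hC⟩ : ∃ C : ℕ, C = C₀ + (A + 10) := ⟨_, rfl⟩
  refine ⟨C, fun η F => ?_⟩
  refine ⟨4 * A + 16 * Rm + 100 + (Finset.range (C + 1)).sup F +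
    2 * η * (C + 8 * (2 * A + 10)), ?_⟩
  intro w hw P hP LR₀ hLR₀ hLRc
  -- the scale
  obtain ⟨P', hP'⟩ : ∃ P' : Finset (ℕ × ℕ), P' = insert (w / 2, w / 2) P := ⟨_, rfl⟩
  have hPc : P'.card ≤ p + 1 := by
    rw [hP']
    exact (Finset.card_insert_le _ _).trans (by omega)
  obtain ⟨j, hj, hsc⟩ := exists_scale 8 (r + 10) m (by omega) P' (by
    rw [hm]; exact Nat.mul_le_mul hPc hPc)
  obtain ⟨R, hR⟩ : ∃ R : ℕ, R = (r + 10) * 8 ^ j := ⟨_, rfl⟩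
  have hRr : r + 10 ≤ R := by
    rw [hR]
    exact Nat.le_mul_of_pos_right _ (by positivity)
  have hRR : R ≤ Rm := by
    rw [hR, hRm]
    exact Nat.mul_le_mul_left _ (Nat.pow_le_pow_right (by omega) hj)
  have hR8 : (r + 10) * 8 ^ (j + 1) = 8 * R := by
    rw [hR, pow_succ]; ring
  rw [← hR, hR8] at hsc
  obtain ⟨N, hN1, hN2, hN3⟩ := exists_net R P'
  have hNc : N.card ≤ p + 1 := (Finset.card_le_card hN1).trans hPc
  -- the ring
  have hAw : 4 * Λ * (4 * (p + 1) + 1) = 2 * A := by rw [hA]; ring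
  obtain ⟨a, ha1, ha2, ha3, ha4⟩ := exists_ringA (4 * R) Λ (p + 1) w (by omega) N hNc (by omega)
  rw [← hA] at ha3
  obtain ⟨q, hq⟩ : ∃ q : ℕ, q = (w - 2 * a) / 8 := ⟨_, rfl⟩
  rw [← hq] at ha4
  have hq1 : 8 * q ≤ w - 2 * a := by rw [hq]; omega
  have hq2 : w - 2 * a < 8 * q + 8 := by rw [hq]; omega
  obtain ⟨n₀, hn₀⟩ : ∃ n₀ : ℕ, n₀ = 4 * q := ⟨_, rfl⟩
  have hnn : 4 ≤ n₀ := by omega
  have hbox : ∀ v : ℕ × ℕ, v ∉ Box a n₀ ↔
      v.1 < a ∨ a + 2 * n₀ ≤ v.1 ∨ v.2 < a ∨ a + 2 * n₀ ≤ v.2 := fun v => not_mem_Box hnn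
  obtain ⟨Q, hQ⟩ : ∃ Q : Finset (ℕ × ℕ), Q = N.filter (fun v => v ∈ Box a n₀) := ⟨_, rfl⟩
  have hQm : ∀ v, v ∈ Q ↔ v ∈ N ∧ v ∈ Box a n₀ := by
    intro v
    rw [hQ, Finset.mem_filter]
  -- the points outside of the box
  have hoff : ∀ v ∈ N, v ∉ Box a n₀ → ∀ z, SqN (2 * R) v z → z ∉ Box a n₀ := by
    intro v hv hvB z hz
    have h1 := ha4 v hv
    rw [hbox] at hvB ⊢
    obtain ⟨q1, q2, q3, q4⟩ := hz
    omega
  have hZH : ZH w a n₀ (2 * R) Q := by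
    refine ⟨by omega, hnn, by omega, by omega, ?_, ?_⟩
    · intro v hv
      obtain ⟨h1, h2⟩ := (hQm v).1 hv
      have h3 := ha4 v h1
      obtain ⟨q1, q2, q3, q4⟩ := h2
      omega
    · intro u hu v hv huv hn
      refine hN2 u ((hQm u).1 hu).1 v ((hQm v).1 hv).1 huv ?_
      exact hsc u (hN1 ((hQm u).1 hu).1) v (hN1 ((hQm v).1 hv).1) (hn.mono (by omega))
  -- the centre
  obtain ⟨u₀, hu₀, hu₀'⟩ := hN3 (w / 2, w / 2) (by rw [hP']; exact Finset.mem_insert_self _ _)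
  have hu₀Q : u₀ ∈ Q := by
    refine (hQm u₀).2 ⟨hu₀, ?_⟩
    by_contra hcon
    rw [hbox] at hcon
    obtain ⟨q1, q2, q3, q4⟩ := hu₀'
    dsimp only at q1 q2 q3 q4
    omega
  have hbig := hZH.big (by omega) hu₀Q
  have hQc : Q.card ≤ p + 1 := by
    rw [hQ]
    exact (Finset.card_filter_le _ _).trans hNc
  have hin : {s | s ∈ ZQ w a n₀ (2 * R) Q ∧ segNear s ∈ Box a n₀}.ncard ≤ C := by
    refine ZQ_in_card.trans ?_
    have h1 : Q.card * (2 * ((2 * (2 * R) + 1) * (2 * (2 * R) + 1))) ≤ C₀ := by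
      rw [hC₀]
      exact Nat.mul_le_mul hQc (Nat.mul_le_mul_left _ (Nat.mul_le_mul (by omega) (by omega)))
    omega
  have hSf : (Seg w).Finite := by
    refine (((Finset.univ : Finset Bool) ×ˢ
      (Finset.range (w + 1) ×ˢ Finset.range (w + 1))).finite_toSet).subset ?_
    rintro ⟨b, x, y⟩ hs
    have h1 := seg_le hs
    simp only [segNear] at h1
    rw [Finset.mem_coe]
    simp only [Finset.mem_product, Finset.mem_univ, Finset.mem_range, true_and]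
    omega
  set Zq := ZQ w a n₀ (2 * R) Q with hZq
  set O : Set (Bool × ℕ × ℕ) :=
    {s | s ∈ Seg w ∧ ¬ (segNear s ∈ Box a n₀ ∧ segFar s ∈ Box a n₀)} with hO
  set I : Set (Bool × ℕ × ℕ) := {s | s ∈ Zq ∧ segNear s ∈ Box a n₀} with hI
  refine ⟨a, n₀, Zq, LR₀ ∪ (O ∪ I), ?_⟩
  refine { wall := ⟨ha1, ⟨q, hn₀⟩, hnn, by omega, by omega⟩, le_a := by omega,
           le_w := by omega, Zq_sub := ?_, LR_sub := ?_, LR₀_sub := subset_union_left,
           Zq_box := hZH.box, ring := fun s hs h => Or.inr (Or.inl ⟨hs, h⟩), ne := ?_,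
           few := ?_, few' := hin, light := ?_, geo := hZH.geo, big := hbig, near := ?_,
           out := fun s hs h1 h2 => ⟨hs, Or.inl ⟨h1, h2⟩⟩, nb := hZH.nb, lay := ?_,
           sq := ⟨Q, 2 * R, ?_, ?_, by omega, rfl, hZH, ?_, ?_⟩ }
  · intro s hs
    by_cases h : segNear s ∈ Box a n₀
    · exact Or.inr (Or.inr ⟨hs, h⟩)
    · exact Or.inr (Or.inl ⟨hs.1, fun h' => h h'.1⟩)
  · rintro s (h | h | h)
    · exact hLR₀ h
    · exact h.1
    · exact h.1.1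
  · -- a row of the square around the centre
    have h1 : {v | v ∈ Box a n₀ ∧ ∃ s ∈ Zq, segNear s = v ∨ segFar s = v}.Nonempty := by
      by_contra hcon
      rw [Set.not_nonempty_iff_eq_empty] at hcon
      rw [hcon, Set.ncard_empty] at hbig
      omega
    obtain ⟨v, hv, s, hs, h2 | h2⟩ := h1
    · exact ⟨s, hs, by rw [h2]; exact hv⟩
    · exact ⟨s, hs, (hZH.box s hs).2 (by rw [h2]; exact hv)⟩
  · have h1 : F I.ncard ≤ (Finset.range (C + 1)).sup F :=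
      Finset.le_sup (f := F) (Finset.mem_range.2 (by omega))
    change F I.ncard ≤ w
    omega
  · have h1 : (LR₀ ∪ (O ∪ I)).ncard ≤ LR₀.ncard + (O.ncard + I.ncard) :=
      (Set.ncard_union_le _ _).trans (Nat.add_le_add_left (Set.ncard_union_le _ _) _)
    have h2 : O.ncard ≤ 4 * ((w + 1) * (2 * A + 10)) := by
      refine (out_card hnn).trans (Nat.mul_le_mul_left _ (Nat.mul_le_mul_left _ ?_))
      omega
    have h3 : (w + 1) * (2 * A + 10) ≤ (2 * w) * (2 * A + 10) :=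
      Nat.mul_le_mul_right _ (by omega)
    have h4 : O.ncard + I.ncard ≤ w * (C + 8 * (2 * A + 10)) := by
      have h5 : C ≤ w * C := Nat.le_mul_of_pos_left _ (by omega)
      have h6 : w * (C + 8 * (2 * A + 10)) = w * C + 4 * ((2 * w) * (2 * A + 10)) := by ring
      rw [h6]
      omega
    have h5 : 2 * η * (O.ncard + I.ncard) ≤ w ^ 2 := by
      calc 2 * η * (O.ncard + I.ncard) ≤ 2 * η * (w * (C + 8 * (2 * A + 10))) :=
            Nat.mul_le_mul_left _ h4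
        _ = w * (2 * η * (C + 8 * (2 * A + 10))) := by ring
        _ ≤ w * w := Nat.mul_le_mul_left _ (by omega)
        _ = w ^ 2 := by ring
    have h6 : η * (LR₀ ∪ (O ∪ I)).ncard ≤ η * (LR₀.ncard + (O.ncard + I.ncard)) :=
      Nat.mul_le_mul_left _ h1
    have h7 : 2 * (η * (LR₀.ncard + (O.ncard + I.ncard))) =
        2 * η * LR₀.ncard + 2 * η * (O.ncard + I.ncard) := by ring
    omega
  · -- near
    intro v hv s hs hn
    obtain ⟨u, hu, hu'⟩ := hN3 v (by rw [hP']; exact Finset.mem_insert_of_mem hv)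
    have hadj : (segNear s).1 ≤ (segFar s).1 ∧ (segFar s).1 ≤ (segNear s).1 + 1 ∧
        (segNear s).2 ≤ (segFar s).2 ∧ (segFar s).2 ≤ (segNear s).2 + 1 := by
      rcases seg_far s with ⟨_, k⟩ | ⟨_, k⟩ <;> rw [k] <;> simp only [segNear] <;> omega
    obtain ⟨a1, a2, a3, a4⟩ := hu'
    have h1 : SqN (2 * R) u (segNear s) ∧ SqN (2 * R) u (segFar s) := by
      rcases hn with ⟨q1, q2, q3, q4⟩ | ⟨q1, q2, q3, q4⟩
      · exact ⟨⟨by omega, by omega, by omega, by omega⟩, ⟨by omega, by omega, by omega, by omega⟩⟩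
      · exact ⟨⟨by omega, by omega, by omega, by omega⟩, ⟨by omega, by omega, by omega, by omega⟩⟩
    by_cases huB : u ∈ Box a n₀
    · exact ⟨hs, Or.inr ⟨u, (hQm u).2 ⟨hu, huB⟩, h1⟩⟩
    · exact ⟨hs, Or.inl ⟨hoff u hu huB _ h1.1, hoff u hu huB _ h1.2⟩⟩
  · -- the layer
    intro s hs hn
    have hadj : (segNear s).1 ≤ (segFar s).1 ∧ (segFar s).1 ≤ (segNear s).1 + 1 ∧
        (segNear s).2 ≤ (segFar s).2 ∧ (segFar s).2 ≤ (segNear s).2 + 1 := by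
      rcases seg_far s with ⟨_, k⟩ | ⟨_, k⟩ <;> rw [k] <;> simp only [segNear] <;> omega
    have e1 : (segNear s).1 = s.2.1 := rfl
    have e2 : (segNear s).2 = s.2.2 := rfl
    refine ⟨hs, ?_⟩
    by_cases h1 : segNear s ∈ Box a n₀
    · have h2 : segFar s ∉ Box a n₀ := fun h2 => hn ⟨h1, h2⟩
      rw [hbox] at h2
      omega
    · rw [hbox] at h1
      omega
  · -- few squares
    have h1 : p + 1 ≤ C₀ := by
      rw [hC₀]
      exact Nat.le_mul_of_pos_right _ (by positivity)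
    omega
  · have h1 : 4 * Rm + 1 ≤ C₀ := by
      have h2 : 4 * Rm + 1 ≤ 2 * ((4 * Rm + 1) * (4 * Rm + 1)) := by
        have h3 : 4 * Rm + 1 ≤ (4 * Rm + 1) * (4 * Rm + 1) :=
          Nat.le_mul_of_pos_right _ (by omega)
        omega
      rw [hC₀]
      exact h2.trans (Nat.le_mul_of_pos_left _ (by omega))
    omega
  · intro c hc
    obtain ⟨h1, h2⟩ := (hQm c).1 hc
    have h3 := ha4 c h1
    obtain ⟨q1, q2, q3, q4⟩ := h2
    omega
  · intro c hc c' hc' hcc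
    by_contra hcon
    push Not at hcon
    have h1 : SqN (8 * R) c c' := by
      have h4 : DA.sd c c' ≤ 8 * R := by omega
      rw [DA.sd_le] at h4
      exact ⟨h4.1, h4.2.1, h4.2.2.1, h4.2.2.2⟩
    refine hN2 c ((hQm c).1 hc).1 c' ((hQm c').1 hc').1 hcc ?_
    exact hsc c (hN1 ((hQm c).1 hc).1) c' (hN1 ((hQm c').1 hc').1) h1

end TSH
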