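import Pool.Agent.TST.OutDef
import Pool.Agent.TST.LCore
import Pool.Agent.TST.LabDef
import Pool.Agent.TST.ZqGeo
import Pool.Agent.TST.KillZ

/-!
# T-star: assembly of `HonOut`

From the system after P0 (`BSys`), the output of the label level (`LabOut`), the geometry (`ZqOut`),
the facts on the places of the rungs (`RgFacts`), LIFT and the count.
-/

open Set BIC BICS CWL
open scoped Matroid

namespace TSH

universe u

open Mdl Mdj EN Gad TST EN.Wall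

/-- **Facts on the places of all rungs** (`Plc` without `chn`).  `pr t i` = row of the place `i`,
`pa t i` = elements of this row on the near side of it. -/
structure RgFacts {α : Type u} (M : Matroid α) (w : ℕ) (L₁ : Bool × ℕ × ℕ → List α)
    (Zq LR : Set (Bool × ℕ × ℕ)) (Rg : Set α) (pr : α → Bool → Bool × ℕ × ℕ)
    (pa : α → Bool → Set α) : Prop where
  row : ∀ t ∈ Rg, ∀ i, pr t i ∈ Seg w ∧ pr t i ∉ LR
  sub : ∀ t ∈ Rg, ∀ i, pa t i ⊆ {x | x ∈ L₁ (pr t i)}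
  ne : ∀ t ∈ Rg, ∀ i, (∃ x ∈ L₁ (pr t i), x ∈ pa t i) ∧ ∃ x ∈ L₁ (pr t i), x ∉ pa t i
  sep : ∀ t ∈ Rg, ∀ r ∈ Seg w, r ∉ Zq → ∀ x ∈ L₁ r, ∀ y ∈ L₁ r, x ≠ y →
    Sees M (crr L₁ (Seg w)) t x y → ∃ i, r = pr t i ∧ ¬ (x ∈ pa t i ↔ y ∈ pa t i)
  sep' : ∀ t ∈ Rg, ∀ r ∈ Seg w, r ∉ Zq → ∀ x ∈ L₁ r, ∀ y ∈ L₁ r, x ≠ y →
    ¬ ((r = pr t false ∧ ¬ (x ∈ pa t false ↔ y ∈ pa t false)) ↔
      (r = pr t true ∧ ¬ (x ∈ pa t true ↔ y ∈ pa t true))) → Sees M (crr L₁ (Seg w)) t x y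
  dif : ∀ t ∈ Rg, pr t false = pr t true →
    ∃ x ∈ L₁ (pr t false), ¬ (x ∈ pa t false ↔ x ∈ pa t true)
  brn : ∀ t ∈ Rg, ∀ p ∈ VV (Seg w), p ∉ VV Zq → ∀ C : Bool × ℕ × ℕ → α,
    (∀ r ∈ Seg w, segNear r = p → C r ∈ L₁ r ∧ ∀ i, r = pr t i → C r ∈ pa t i) →
    (∀ r ∈ Seg w, segFar r = p → C r ∈ L₁ r ∧ ∀ i, r = pr t i → C r ∉ pa t i) →
    t ∈ M.closure (crr L₁ (Seg w) \ {x | ∃ r ∈ Seg w, (segNear r = p ∨ segFar r = p) ∧ x = C r})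

/-- the places of the chosen rungs -/
lemma RgFacts.plc {α : Type u} {M : Matroid α} {w : ℕ} {L₁ : Bool × ℕ × ℕ → List α}
    {Zq LR : Set (Bool × ℕ × ℕ)} {Rg : Set α} {pr : α → Bool → Bool × ℕ × ℕ}
    {pa : α → Bool → Set α} (h : RgFacts M w L₁ Zq LR Rg pr pa) {T : Set α} (hT : T ⊆ Rg)
    (hch : ∀ t ∈ T, ∀ t' ∈ T, ∀ i j, pr t i = pr t' j → pa t i ⊆ pa t' j ∨ pa t' j ⊆ pa t i) :
    Plc M w L₁ Zq LR T (fun t => pr t false) (fun t => pr t true) (fun t => pa t false)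
      (fun t => pa t true) where
  row₁ := fun t ht => h.row t (hT ht) false
  row₂ := fun t ht => h.row t (hT ht) true
  sub₁ := fun t ht => h.sub t (hT ht) false
  sub₂ := fun t ht => h.sub t (hT ht) true
  ne₁ := fun t ht => h.ne t (hT ht) false
  ne₂ := fun t ht => h.ne t (hT ht) true
  sep := by
    intro t ht r hr hrZ x hx y hy hxy hs
    obtain ⟨i, hi⟩ := h.sep t (hT ht) r hr hrZ x hx y hy hxy hs
    cases i
    · exact Or.inl hi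
    · exact Or.inr hi
  sep' := fun t ht => h.sep' t (hT ht)
  dif := fun t ht => h.dif t (hT ht)
  brn := by
    intro t ht p hp hpZ C h1 h2
    refine h.brn t (hT ht) p hp hpZ C (fun r hr hrp => ?_) (fun r hr hrp => ?_)
    · obtain ⟨a1, a2, a3⟩ := h1 r hr hrp
      exact ⟨a1, fun i => by cases i <;> assumption⟩
    · obtain ⟨a1, a2, a3⟩ := h2 r hr hrp
      exact ⟨a1, fun i => by cases i <;> assumption⟩
  chn := fun t ht t' ht' => ⟨hch t ht t' ht' false false, hch t ht t' ht' true true,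
    hch t ht t' ht' false true⟩

lemma seg_sub_core {s : ℕ} : Seg s ⊆ core (s + 2) := by
  rintro ⟨a, i, j⟩ h
  refine ⟨?_, ?_⟩
  · rcases h with ⟨h1, h2, h3⟩ | ⟨h1, h2, h3, h4⟩
    · exact Or.inl ⟨h1, by omega, by omega⟩
    · exact Or.inr ⟨h1, by omega, by omega, h4⟩
  · rintro (h5 | h5)
    · simp only [Prod.mk.injEq] at h5
      rcases h with ⟨h1, h2, h3⟩ | ⟨h1, h2, h3, h4⟩
      · simp only at h3
        omega
      · simp only at h3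
        omega
    · simp only [mem_singleton_iff, Prod.mk.injEq] at h5
      rcases h with ⟨h1, h2, h3⟩ | ⟨h1, h2, h3, h4⟩
      · simp only at h3
        omega
      · simp only at h3
        omega

lemma tiles_sub_cores {s : ℕ} {𝒯 : Finset (ℕ × ℕ)} : tiles s 𝒯 ⊆ cores s 𝒯 := by
  rintro σ ⟨t, ht, σ', hσ', rfl⟩
  exact ⟨t, ht, σ', seg_sub_core hσ', rfl⟩

lemma tile_sub_cores {s : ℕ} {𝒯 : Finset (ℕ × ℕ)} {t : ℕ × ℕ} (ht : t ∈ 𝒯) :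
    shS t.1 t.2 '' core (s + 2) ⊆ cores s 𝒯 := by
  rintro _ ⟨σ, hσ, rfl⟩
  exact ⟨t, ht, σ, hσ, rfl⟩

/-- the windows at the points of `P` are contained in `Zq` -/
lemma ZqOut.wn {w r C η : ℕ} {F : ℕ → ℕ} {P : Finset (ℕ × ℕ)} {LR₀ : Set (Bool × ℕ × ℕ)}
    {a n₀ : ℕ} {Zq LR : Set (Bool × ℕ × ℕ)} (h : ZqOut w r C η F P LR₀ a n₀ Zq LR) (hr : 4 ≤ r)
    {J : Finset (ℕ × ℕ)} (hJ : J ⊆ P) (hw : ∀ j ∈ J, j.1 + 4 ≤ w ∧ j.2 + 4 ≤ w) : Wn J ⊆ Zq := by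
  rintro s ⟨j, hj, hs⟩
  obtain ⟨h1, h2⟩ := hw j hj
  refine h.near j (hJ hj) s ?_ (Or.inl ?_)
  · rcases hs with ⟨a1, a2, a3, a4, a5⟩ | ⟨a1, a2, a3, a4, a5, a6⟩
    · exact Or.inl ⟨a1, by omega, by omega⟩
    · exact Or.inr ⟨a1, by omega, by omega, a6⟩
  · unfold SqN segNear
    rcases hs with ⟨a1, a2, a3, a4, a5⟩ | ⟨a1, a2, a3, a4, a5, a6⟩
    · refine ⟨?_, ?_, ?_, ?_⟩ <;> simp only <;> omega
    · refine ⟨?_, ?_, ?_, ?_⟩ <;> simp only <;> omega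

/-- **Assembly of `HonOut`.** -/
theorem honOut_of {α : Type u} {M : Matroid α} [M.Finite] {w s : ℕ} {𝒯 : Finset (ℕ × ℕ)}
    {L₁ : Bool × ℕ × ℕ → List α} {f₁ : α → Sym2 ((ℕ × ℕ) ⊕ α)} {e₁ : Bool × ℕ × ℕ → α} {u₁ : ℕ}
    {L₂ : Bool × ℕ × ℕ → List α} {f₂ : α → Sym2 ((ℕ × ℕ) ⊕ α)} {e₂ : Bool × ℕ × ℕ → α} {u₂ : ℕ}
    {D : Set α} {σ N m : ℕ} {τ : ℕ → ℕ × ℕ} {R : ℕ → Bool × ℕ × ℕ} {c : ℕ → ℕ → α}
    {Za : Finset (Bool × ℕ × ℕ)} (hB : BSys M w s 𝒯 L₁ f₁ e₁ u₁ L₂ f₂ e₂ u₂ D σ N m τ R c Za)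
    -- the geometry
    {a n₀ r C η : ℕ} {F : ℕ → ℕ} {P : Finset (ℕ × ℕ)} {LR₀ Zq LR : Set (Bool × ℕ × ℕ)}
    (hZ : ZqOut w r C η F P LR₀ a n₀ Zq LR) (hZa : ∀ x ∈ Za, x ∈ Zq)
    (kill : ∃ N : Matroid α, N.Finite ∧ Bic N (crr L₁ (Seg w)) f₁ ∧
      rk N (crr L₁ Zq) = (LV L₁ f₁ Zq).ncard ∧
      ∀ X ⊆ crr L₁ (Seg w), rk M (X ∪ crr L₁ Zq) + rk N (crr L₁ Zq) =
        rk N (X ∪ crr L₁ Zq) + rk M (crr L₁ Zq))
    -- the rungs and the label level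
    {Dg Rg : Set α} {pr : α → Bool → Bool × ℕ × ℕ} {pa : α → Bool → Set α} {n : ℕ} {κ : ℕ → ℕ}
    {T : Set α} {kc : ℕ} {cls : ℕ → ℕ} {pv : Set ℕ} (hRD : Rg ⊆ D)
    (hRg : RgFacts M w L₁ Zq LR Rg pr pa)
    (hL : LabOut (Seg w \ LR) segNear segFar (Sees M (crr L₁ (Seg w))) Dg Rg pr pa m n N R c κ T
      kc cls pv)
    -- LIFT and the count
    {ρ : ℕ} (lift : ∀ (L : Bool × ℕ × ℕ → List α) (f : α → Sym2 ((ℕ × ℕ) ⊕ α))
      (e : Bool × ℕ × ℕ → α), (∀ r ∈ Seg w, (L r).Perm (L₁ r)) → GSide M (Seg w) L f e u₁ →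
      rk M (T ∪ SA L f w Zq) ≤ rk M (SA L f w Zq) + ρ)
    (hkc : η * kc ≤ w ^ 2) :
    HonOut M w s 𝒯 L₁ f₁ e₁ u₁ L₂ f₂ e₂ u₂ n m (fun b => τ (κ b)) R (fun i b => c i (κ b))
      a n₀ ρ η F Zq LR T (fun t => pr t false) (fun t => pr t true) (fun t => pa t false)
      (fun t => pa t true) kc cls pv := by
  have hV : ∀ i < m, R i ∉ LR → R i ∈ Seg w \ LR := fun i hi h => ⟨hB.row i hi, h⟩
  have hTD : T ⊆ D := hL.sub.trans hRD
  have htc : ∀ b < n, shS (τ (κ b)).1 (τ (κ b)).2 '' Seg s ⊆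
      shS (τ (κ b)).1 (τ (κ b)).2 '' core (s + 2) := fun b _ => image_mono seg_sub_core
  refine
    { pair := hB.pair.subset₂ tiles_sub_cores
      tau := fun b hb => hB.tau _ (hL.lt b hb)
      row := hB.row
      lab := fun i hi b hb => hB.mem i hi _ (hL.lt b hb)
      inj := ?_
      tile := ?_
      anchor := ?_
      anchor' := ?_
      wall := hZ.wall
      Zq_sub := hZ.Zq_sub
      LR_sub := hZ.LR_sub
      Zq_box := hZ.Zq_box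
      ring := hZ.ring
      ne := hZ.ne
      big := hZ.big
      few := hZ.few
      light := hZ.light
      geo := hZ.geo
      kill := kill
      T_cl := hTD.trans hB.D_cl
      T₁ := hB.D₁.mono_left hTD
      T₂ := (hB.D₂.mono_left hTD).mono_right (crr_mono tiles_sub_cores)
      plc := hRg.plc hL.sub hL.chn
      lift := lift
      kc_le := hkc
      cls_lt := fun i hi h => hL.cls_lt i hi (hV i hi h)
      priv := ?_
      conn := ?_ }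
  · intro i hi b hb j hj b' hb' hcc
    obtain ⟨h1, h2⟩ := hB.inj i hi _ (hL.lt b hb) j hj _ (hL.lt b' hb') hcc
    refine ⟨h1, ?_⟩
    rcases Nat.lt_trichotomy b b' with h3 | h3 | h3
    · have := hL.mono b b' h3 hb'
      omega
    · exact h3
    · have := hL.mono b' b h3 hb
      omega
  · intro b hb r hr x hx hx'
    exact hB.tile _ (hL.lt b hb) x ⟨r, hr, hx⟩ (crr_mono (htc b hb) hx')
  · intro b hb σ' hσ r hr hx
    exact hZa _ (hB.anchor _ (tile_sub_cores (hB.tau _ (hL.lt b hb))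
      ⟨σ', seg_sub_core hσ, rfl⟩) r hr hx)
  · intro σ' hσ r hr hx
    exact hZ.Zq_sub (hZa _ (hB.anchor _ (tiles_sub_cores hσ) r hr hx))
  · intro k hk
    obtain ⟨v, v', h⟩ := hL.priv k hk
    exact ⟨v, v', fun i hi h1 h2 => h i hi (hV i hi h1) h2⟩
  · intro i hi j hj h1 h2 h3 h4
    refine (Relation.ReflTransGen.mono ?_) _ _ (hL.conn i hi j hj (hV i hi h1) (hV j hj h2) h3 h4)
    rintro x y ⟨⟨hx, hxR⟩, ⟨hy, hyR⟩, hxy, hseen⟩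
    exact ⟨⟨hx, hxR.2⟩, ⟨hy, hyR.2⟩, hxy, hseen⟩

end TSH
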