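import Pool.Agent.TST.HyperCountL
import Pool.Agent.TST.LCore

/-!
# The count of the hyper-components with special classes (claim A of T*, helper88)

Proof of helper74.  `L₁` = light labels and labels of the special classes.  Nothing is asked of the
elements which see no label outside of `L₁`; the rank condition is asked only of the other elements.
The classes which are not special are at most `σ`.
-/

set_option autoImplicit false

open Set BIC BICS
open scoped Matroid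

namespace TST

variable {α ι κ : Type*} {M : Matroid α}

/-- the elements which see a label outside of `L₁` -/
def SeeA (M : Matroid α) (S D : Set α) (I L₁ : Finset ι) (K : ι → Finset α) : Set α :=
  {d | d ∈ D ∧ ∃ i ∈ I, i ∉ L₁ ∧ d ∉ M.closure (S \ K i)}

lemma rk_sdiff_KU [M.Finite] [DecidableEq ι] {S : Set α} {I J : Finset ι} {K : ι → Finset α}
    {n : ℕ} (hKn : ∀ i ∈ I, (K i).card = n) (hJ : J ⊆ I) :
    rk M S ≤ rk M (S \ KU K J) + J.card * n := by
  have h8 : S ⊆ (S \ KU K J) ∪ KU K J := by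
    intro x hx
    by_cases h : x ∈ KU K J
    · exact Or.inr h
    · exact Or.inl ⟨hx, h⟩
  have h9 := rk_union_le M (X := S \ KU K J) (KU_finite K J)
  have h10 := rk_mono M h8
  have h11 := KU_ncard_le (K := K) fun i hi => hKn i (hJ hi)
  omega

/-- the rank condition with the labels of `J`, which are not seen -/
lemma rk_light_add [M.Finite] [DecidableEq ι] {S G : Set α} {I L₀ J : Finset ι}
    {K : ι → Finset α} {n p₀ f : ℕ} (hS : S ⊆ M.E)
    (hKd : ∀ i ∈ I, ∀ j ∈ I, i ≠ j → Disjoint (K i) (K j)) (hKn : ∀ i ∈ I, (K i).card = n)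
    (hp : ∀ i ∈ I, rk M (S \ K i) + n ≤ rk M S + p₀) (hG : G ⊆ M.closure S) (hL : L₀ ⊆ I)
    (hJ : J ⊆ I) (hd : Disjoint L₀ J) (hGJ : ∀ i ∈ J, G ⊆ M.closure (S \ K i))
    (hf : rk M (G ∪ (S \ KU K L₀)) ≤ rk M (S \ KU K L₀) + f) :
    rk M (G ∪ (S \ KU K (L₀ ∪ J))) ≤ rk M (S \ KU K (L₀ ∪ J)) + (f + J.card * p₀) := by
  have h1 : rk M (G ∪ (S \ KU K (L₀ ∪ J))) + rk M S ≤
      rk M (G ∪ (S \ KU K L₀)) + rk M (G ∪ (S \ KU K J)) := by
    refine rk_sub' (subset_inter ?_ ?_) ?_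
    · exact union_subset_union_right _ fun x hx =>
        ⟨hx.1, fun h => hx.2 (KU_mono Finset.subset_union_left h)⟩
    · exact union_subset_union_right _ fun x hx =>
        ⟨hx.1, fun h => hx.2 (KU_mono Finset.subset_union_right h)⟩
    · intro x hx
      by_cases h : x ∈ KU K J
      · refine Or.inl (Or.inr ⟨hx, fun h' => ?_⟩)
        rw [mem_KU] at h h'
        obtain ⟨j, hj, hxj⟩ := h
        obtain ⟨i, hi, hxi⟩ := h'
        have hne : i ≠ j := by
          rintro rfl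
          exact Finset.disjoint_left.1 hd hi hj
        exact Finset.disjoint_left.1 (hKd i (hL hi) j (hJ hj) hne) hxi hxj
      · exact Or.inr (Or.inr ⟨hx, h⟩)
  have h2 := rk_unseen (M := M) (n := n) (p₀ := p₀) hS hKd hp hG hJ hGJ
  have h3 : rk M (S \ KU K L₀) ≤ rk M (S \ KU K (L₀ ∪ J)) + J.card * n := by
    have h8 : S \ KU K L₀ ⊆ (S \ KU K (L₀ ∪ J)) ∪ KU K J := by
      intro x hx
      by_cases h : x ∈ KU K J
      · exact Or.inr h
      · refine Or.inl ⟨hx.1, fun h' => ?_⟩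
        rw [mem_KU] at h'
        obtain ⟨i, hi, hxi⟩ := h'
        rcases Finset.mem_union.1 hi with hi | hi
        · exact hx.2 (mem_KU.2 ⟨i, hi, hxi⟩)
        · exact h (mem_KU.2 ⟨i, hi, hxi⟩)
    have h9 := rk_union_le M (X := S \ KU K (L₀ ∪ J)) (KU_finite K J)
    have h10 := rk_mono M h8
    have h11 := KU_ncard_le (K := K) fun i hi => hKn i (hJ hi)
    omega
  omega

/-- **Count of the classes which are not special.** -/
theorem hyper_count_sp [M.Finite] [Fintype κ] [DecidableEq ι] {S D : Set α} {I L₁ : Finset ι}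
    {K : ι → Finset α} {cls : ι → κ} {n q p₀ f u₂ : ℕ} (hS : S ⊆ M.E)
    (hKS : ∀ i ∈ I, (K i : Set α) ⊆ S)
    (hKd : ∀ i ∈ I, ∀ j ∈ I, i ≠ j → Disjoint (K i) (K j)) (hKn : ∀ i ∈ I, (K i).card = n)
    (hp : ∀ i ∈ I, rk M (S \ K i) + n ≤ rk M S + p₀) (hL : L₁ ⊆ I)
    (hDS : D ⊆ M.closure S)
    (hcls : ∀ d ∈ D, ∀ i ∈ I, ∀ j ∈ I, i ∉ L₁ → j ∉ L₁ → d ∉ M.closure (S \ K i) →
      d ∉ M.closure (S \ K j) → cls i = cls j)
    (hsur : ∀ k, ∃ i ∈ I, i ∉ L₁ ∧ cls i = k)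
    (hf : rk M (SeeA M S D I L₁ K ∪ (S \ KU K L₁)) ≤ rk M (S \ KU K L₁) + f)
    (V1 : ∀ i ∈ I, i ∉ L₁ → rk M (D ∪ (S \ KU K I)) + n ≤
      rk M (K i ∪ (D ∪ (S \ KU K I))) + u₂)
    (V2 : rk M S ≤ rk M (D ∪ (S \ KU K I)) + q) :
    Fintype.card κ * n ≤ q + 2 * (I.card * p₀) +
      Fintype.card κ * (f + u₂ + 2 * (I.card * p₀)) := by
  classical
  obtain ⟨DA, hDA⟩ : ∃ DA, DA = SeeA M S D I L₁ K := ⟨_, rfl⟩
  obtain ⟨A, hA⟩ : ∃ A, A = I \ L₁ := ⟨_, rfl⟩
  rw [← hDA] at hf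
  have hAI : A ⊆ I := by rw [hA]; exact Finset.sdiff_subset
  have hDAD : DA ⊆ D := by
    rw [hDA]
    exact fun d hd => hd.1
  have hcard : A.card + L₁.card = I.card := by
    rw [hA, Finset.card_sdiff_of_subset hL]
    have := Finset.card_le_card hL
    omega
  -- the elements which see no label of `A`
  have hun : rk M ((D \ DA) ∪ (S \ KU K A)) + A.card * n ≤ rk M S + A.card * p₀ := by
    refine rk_unseen (M := M) hS hKd hp (sdiff_subset.trans hDS) hAI ?_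
    intro i hi d hd
    by_contra hcon
    refine hd.2 ?_
    rw [hA, Finset.mem_sdiff] at hi
    rw [hDA]
    exact ⟨hd.1, i, hi.1, hi.2, hcon⟩
  have hA1 : rk M (S \ KU K A) + A.card * n ≤ rk M S + A.card * p₀ := by
    have h1 := rk_unseen (M := M) (G := ∅) (S := S) hS hKd hp (empty_subset _) hAI
      fun i _ => empty_subset _
    rwa [empty_union] at h1
  have hL1 : rk M (S \ KU K L₁) + L₁.card * n ≤ rk M S + L₁.card * p₀ := by
    have h1 := rk_unseen (M := M) (G := ∅) (S := S) hS hKd hp (empty_subset _) hL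
      fun i _ => empty_subset _
    rwa [empty_union] at h1
  have hA2 : rk M S ≤ rk M (S \ KU K A) + A.card * n := rk_sdiff_KU hKn hAI
  have hI2 : rk M S ≤ rk M (S \ KU K I) + I.card * n := rk_sdiff_KU hKn (Finset.Subset.refl I)
  have hAp : A.card * p₀ + L₁.card * p₀ = I.card * p₀ := by rw [← Nat.add_mul, hcard]
  have hAn : A.card * n + L₁.card * n = I.card * n := by rw [← Nat.add_mul, hcard]
  have hAS : S \ KU K I ⊆ S \ KU K A := fun x hx => ⟨hx.1, fun h => hx.2 (KU_mono hAI h)⟩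
  have hLS : S \ KU K I ⊆ S \ KU K L₁ := fun x hx => ⟨hx.1, fun h => hx.2 (KU_mono hL h)⟩
  -- V2 for the labels of `A`
  have V2' : rk M S ≤ rk M (DA ∪ (S \ KU K A)) + (q + I.card * p₀) := by
    have h1 : rk M (D ∪ (S \ KU K I)) ≤ rk M (D ∪ (S \ KU K A)) :=
      rk_mono M (union_subset_union_right _ hAS)
    have h2 : rk M (S \ KU K A) + rk M (D ∪ (S \ KU K A)) ≤
        rk M (DA ∪ (S \ KU K A)) + rk M ((D \ DA) ∪ (S \ KU K A)) := by
      refine rk_sub' (subset_inter subset_union_right subset_union_right) ?_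
      rintro x (hx | hx)
      · by_cases h : x ∈ DA
        · exact Or.inl (Or.inl h)
        · exact Or.inr (Or.inl ⟨hx, h⟩)
      · exact Or.inl (Or.inr hx)
    omega
  -- V1 for the labels of `A`
  have V1' : ∀ i ∈ A, i ∉ (∅ : Finset ι) → rk M (DA ∪ (S \ KU K A)) + n ≤
      rk M (K i ∪ (DA ∪ (S \ KU K A))) + (f + u₂ + I.card * p₀) := by
    intro i hi _
    have hiI := hAI hi
    have hiL : i ∉ L₁ := by
      rw [hA, Finset.mem_sdiff] at hi
      exact hi.2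
    have h0 := V1 i hiI hiL
    -- (1)
    have h1 : rk M (DA ∪ (S \ KU K I)) + rk M (K i ∪ (D ∪ (S \ KU K I))) ≤
        rk M (K i ∪ (DA ∪ (S \ KU K I))) + rk M (D ∪ (S \ KU K I)) := by
      refine rk_sub' (subset_inter subset_union_right (union_subset_union_left _ hDAD)) ?_
      rintro x (hx | hx)
      · exact Or.inl (Or.inl hx)
      · exact Or.inr hx
    -- (2)
    have h2 : rk M (K i ∪ (DA ∪ (S \ KU K I))) + rk M S ≤
        rk M (K i ∪ (DA ∪ (S \ KU K A))) + rk M (DA ∪ (S \ KU K L₁)) := by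
      refine rk_sub' (subset_inter ?_ ?_) ?_
      · exact union_subset_union_right _ (union_subset_union_right _ hAS)
      · refine union_subset ?_ (union_subset_union_right _ hLS)
        intro x hx
        refine Or.inr ⟨hKS i hiI hx, fun h => ?_⟩
        rw [mem_KU] at h
        obtain ⟨j, hj, hxj⟩ := h
        have hne : i ≠ j := by
          rintro rfl
          exact hiL hj
        exact Finset.disjoint_left.1 (hKd i hiI j (hL hj) hne) hx hxj
      · intro x hx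
        by_cases h : x ∈ KU K A
        · refine Or.inr (Or.inr ⟨hx, fun h' => ?_⟩)
          rw [mem_KU] at h h'
          obtain ⟨j, hj, hxj⟩ := h
          obtain ⟨l, hl, hxl⟩ := h'
          have hne : j ≠ l := by
            rintro rfl
            rw [hA, Finset.mem_sdiff] at hj
            exact hj.2 hl
          exact Finset.disjoint_left.1 (hKd j (hAI hj) l (hL hl) hne) hxj hxl
        · exact Or.inl (Or.inr (Or.inr ⟨hx, h⟩))
    -- (3)
    have h3 : rk M (S \ KU K I) + rk M (DA ∪ (S \ KU K A)) ≤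
        rk M (DA ∪ (S \ KU K I)) + rk M (S \ KU K A) := by
      refine rk_sub' (subset_inter subset_union_right hAS) ?_
      rintro x (hx | hx)
      · exact Or.inl (Or.inl hx)
      · exact Or.inr hx
    omega
  have key := hyper_count (M := M) (S := S) (D := DA) (Dg := DA) (I := A) (L₀ := ∅) (K := K)
    (cls := cls) (n := n) (q := q + I.card * p₀) (r := 0) (p₀ := p₀) (f := 0)
    (u₂ := f + u₂ + I.card * p₀) hS (fun i hi => hKS i (hAI hi))
    (fun i hi j hj => hKd i (hAI hi) j (hAI hj)) (fun i hi => hKn i (hAI hi))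
    (fun i hi => hp i (hAI hi)) (Finset.empty_subset _) (Subset.refl _) (hDAD.trans hDS)
    (fun d hd i hi j hj _ _ h1 h2 => by
      rw [hA, Finset.mem_sdiff] at hi hj
      exact hcls d (hDAD hd) i hi.1 j hj.1 hi.2 hj.2 h1 h2)
    (fun k => by
      obtain ⟨i, hi, h1, h2⟩ := hsur k
      exact ⟨i, by rw [hA, Finset.mem_sdiff]; exact ⟨hi, h1⟩, Finset.notMem_empty _, h2⟩)
    (by
      have h1 : S \ KU K (∅ : Finset ι) = S := by
        ext x
        simp [mem_KU]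
      rw [h1, Nat.add_zero, ← rk_closure (M := M) S]
      exact rk_mono M (union_subset (hDAD.trans hDS) (M.subset_closure S hS)))
    V1' V2' (by omega)
  have h1 : Fintype.card κ * (0 + A.card * p₀ + (f + u₂ + I.card * p₀)) ≤
      Fintype.card κ * (f + u₂ + 2 * (I.card * p₀)) := Nat.mul_le_mul_left _ (by omega)
  omega

end TST

namespace TSH

open CWL

universe u

section

variable {α : Type u} [DecidableEq α] {M : Matroid α} {w s : ℕ} {𝒯 : Finset (ℕ × ℕ)}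
  {L₁ L₂ : Bool × ℕ × ℕ → List α} {f₁ f₂ : α → Sym2 ((ℕ × ℕ) ⊕ α)} {e₁ e₂ : Bool × ℕ × ℕ → α}
  {u₁ u₂ : ℕ} {D : Set α} {σ n m : ℕ} {τ : ℕ → ℕ × ℕ} {R : ℕ → Bool × ℕ × ℕ} {c : ℕ → ℕ → α}
  {q : ℕ → ℕ → ℕ} {Za : Finset (Bool × ℕ × ℕ)}

/-- **At most `σ` classes which are not special**, from the bare facts.  `Lx` = light labels and labels
of the special classes. -/
theorem card_sp {κ : Type*} [Fintype κ] [M.Finite] (hG : GSide M (Seg w) L₁ f₁ e₁ u₁)
    (row : ∀ i < m, R i ∈ Seg w) (mem : ∀ i < m, ∀ b < n, c i b ∈ L₁ (R i))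
    (inj : ∀ i < m, ∀ b < n, ∀ j < m, ∀ a < n, c i b = c j a → i = j ∧ b = a)
    (D_cl : D ⊆ M.closure (crr L₁ (Seg w)))
    (V1 : ∀ (B : Finset ℕ) (I : ℕ → ℕ), (∀ b ∈ B, b < n ∧ I b < m) →
      rk M (D ∪ (crr L₁ (Seg w) \ KB m c B)) + B.card ≤
        rk M ((fun b => c (I b) b) '' (B : Set ℕ) ∪ (D ∪ (crr L₁ (Seg w) \ KB m c B))) + u₂)
    (V2 : rk M (crr L₁ (Seg w)) ≤ rk M (D ∪ (crr L₁ (Seg w) \ KB m c (Iio n))) + σ * n)
    {Lx : Finset ℕ} {cls : ℕ → κ} {f : ℕ} (hL : ∀ i ∈ Lx, i < m)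
    (hcls : ∀ d ∈ D, ∀ i < m, ∀ j < m, i ∉ Lx → j ∉ Lx →
      d ∉ M.closure (crr L₁ (Seg w) \ KF c n i) → d ∉ M.closure (crr L₁ (Seg w) \ KF c n j) →
      cls i = cls j)
    (hsur : ∀ k, ∃ i < m, i ∉ Lx ∧ cls i = k)
    (hf : rk M ({d | d ∈ D ∧ ∃ i < m, i ∉ Lx ∧ d ∉ M.closure (crr L₁ (Seg w) \ KF c n i)} ∪
        (crr L₁ (Seg w) \ TST.KU (KF c n) Lx)) ≤
      rk M (crr L₁ (Seg w) \ TST.KU (KF c n) Lx) + f)
    (hn : 2 * m + m * (f + u₂ + 2 * m) < n) :
    Fintype.card κ ≤ σ := by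
  classical
  have hcard : ∀ i < m, (KF c n i).card = n := by
    intro i hi
    unfold KF
    rw [Finset.card_image_of_injOn, Finset.card_range]
    intro a ha b hb hab
    rw [Finset.mem_coe, Finset.mem_range] at ha hb
    exact (inj i hi a ha i hi b hb hab).2
  have hsub : ∀ i < m, (KF c n i : Set α) ⊆ crr L₁ (Seg w) := by
    intro i hi x hx
    obtain ⟨b, hb, rfl⟩ := mem_KF.1 (Finset.mem_coe.1 hx)
    exact ⟨R i, row i hi, mem i hi b hb⟩
  have hloss : ∀ i < m, rk M (crr L₁ (Seg w) \ KF c n i) + n ≤ rk M (crr L₁ (Seg w)) + 1 := by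
    intro i hi
    have h1 := hG.cut (hsub i hi)
    rw [Set.ncard_coe_finset, hcard i hi] at h1
    have h2 : {r | r ∈ Seg w ∧ ∃ x ∈ (KF c n i : Set α), x ∈ L₁ r} ⊆ {R i} := by
      rintro r ⟨hr, x, hx, hxr⟩
      obtain ⟨b, hb, rfl⟩ := mem_KF.1 (Finset.mem_coe.1 hx)
      exact hG.uniq hr (row i hi) hxr (mem i hi b hb)
    have h3 := Set.ncard_le_ncard h2
    rw [Set.ncard_singleton] at h3
    omega
  have h1 := TST.hyper_count_sp (M := M) (S := crr L₁ (Seg w)) (D := D)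
    (I := Finset.range m) (L₁ := Lx) (K := KF c n) (cls := cls) (n := n) (q := σ * n)
    (p₀ := 1) (f := f) (u₂ := u₂) hG.sub_ground (fun i hi => hsub i (Finset.mem_range.1 hi))
    (fun i hi j hj hij => by
      rw [Finset.disjoint_left]
      intro x hx hx'
      obtain ⟨a, ha, rfl⟩ := mem_KF.1 hx
      obtain ⟨b, hb, hab⟩ := mem_KF.1 hx'
      exact hij (inj i (Finset.mem_range.1 hi) a ha j (Finset.mem_range.1 hj) b hb hab).1)
    (fun i hi => hcard i (Finset.mem_range.1 hi)) (fun i hi => hloss i (Finset.mem_range.1 hi))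
    (fun i hi => Finset.mem_range.2 (hL i hi)) D_cl
    (fun d hd i hi j hj h1 h2 h3 h4 => hcls d hd i (Finset.mem_range.1 hi) j
      (Finset.mem_range.1 hj) h1 h2 h3 h4)
    (fun k => by
      obtain ⟨i, hi, h1, h2⟩ := hsur k
      exact ⟨i, Finset.mem_range.2 hi, h1, h2⟩)
    (by
      have h2 : TST.SeeA M (crr L₁ (Seg w)) D (Finset.range m) Lx (KF c n) =
          {d | d ∈ D ∧ ∃ i < m, i ∉ Lx ∧ d ∉ M.closure (crr L₁ (Seg w) \ KF c n i)} := by
        simp only [TST.SeeA, Finset.mem_range]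
      rw [h2]
      exact hf)
    (by
      intro i hi _
      have h2 := V1 (Finset.range n) (fun _ => i) fun b hb =>
        ⟨Finset.mem_range.1 hb, Finset.mem_range.1 hi⟩
      rw [Finset.card_range, Finset.coe_range] at h2
      rw [KU_KF]
      have h3 : ((KF c n i : Finset α) : Set α) = (fun b => c i b) '' Iio n := by
        unfold KF
        rw [Finset.coe_image, Finset.coe_range]
      rw [h3]
      exact h2)
    (by
      rw [KU_KF]
      exact V2)
  rw [Finset.card_range, Nat.mul_one] at h1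
  -- at most `m` classes
  have h2 : Fintype.card κ ≤ m := by
    choose g hg1 hg2 hg3 using hsur
    have h3 : Fintype.card κ ≤ Fintype.card (Fin m) := by
      refine Fintype.card_le_of_injective (fun k => (⟨g k, hg1 k⟩ : Fin m)) ?_
      intro k k' hkk
      have h4 : g k = g k' := by simpa using hkk
      rw [← hg3 k, ← hg3 k', h4]
    rwa [Fintype.card_fin] at h3
  have h3 : Fintype.card κ * (f + u₂ + 2 * m) ≤ m * (f + u₂ + 2 * m) :=
    Nat.mul_le_mul_right _ h2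
  by_contra hlt
  push Not at hlt
  have h4 : (σ + 1) * n ≤ Fintype.card κ * n := Nat.mul_le_mul_right _ hlt
  have h5 : (σ + 1) * n = σ * n + n := by ring
  omega

/-- for the systems of P0 -/
theorem BSys.card_sp {κ : Type*} [Fintype κ] [M.Finite]
    (h : BSys M w s 𝒯 L₁ f₁ e₁ u₁ L₂ f₂ e₂ u₂ D σ n m τ R c Za)
    {Lx : Finset ℕ} {cls : ℕ → κ} {f : ℕ} (hL : ∀ i ∈ Lx, i < m)
    (hcls : ∀ d ∈ D, ∀ i < m, ∀ j < m, i ∉ Lx → j ∉ Lx →
      d ∉ M.closure (crr L₁ (Seg w) \ KF c n i) → d ∉ M.closure (crr L₁ (Seg w) \ KF c n j) →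
      cls i = cls j)
    (hsur : ∀ k, ∃ i < m, i ∉ Lx ∧ cls i = k)
    (hf : rk M ({d | d ∈ D ∧ ∃ i < m, i ∉ Lx ∧ d ∉ M.closure (crr L₁ (Seg w) \ KF c n i)} ∪
        (crr L₁ (Seg w) \ TST.KU (KF c n) Lx)) ≤
      rk M (crr L₁ (Seg w) \ TST.KU (KF c n) Lx) + f)
    (hn : 2 * m + m * (f + u₂ + 2 * m) < n) :
    Fintype.card κ ≤ σ :=
  TSH.card_sp h.pair.s₁ h.row h.mem h.inj h.D_cl h.V1 h.V2 hL hcls hsur hf hn

/-- for the minimal systems -/
theorem MSys.card_sp {κ : Type*} [Fintype κ] [M.Finite]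
    (h : MSys M w s 𝒯 L₁ f₁ e₁ u₁ L₂ f₂ e₂ u₂ D σ n m τ R c Za)
    {Lx : Finset ℕ} {cls : ℕ → κ} {f : ℕ} (hL : ∀ i ∈ Lx, i < m)
    (hcls : ∀ d ∈ D, ∀ i < m, ∀ j < m, i ∉ Lx → j ∉ Lx →
      d ∉ M.closure (crr L₁ (Seg w) \ KF c n i) → d ∉ M.closure (crr L₁ (Seg w) \ KF c n j) →
      cls i = cls j)
    (hsur : ∀ k, ∃ i < m, i ∉ Lx ∧ cls i = k)
    (hf : rk M ({d | d ∈ D ∧ ∃ i < m, i ∉ Lx ∧ d ∉ M.closure (crr L₁ (Seg w) \ KF c n i)} ∪
        (crr L₁ (Seg w) \ TST.KU (KF c n) Lx)) ≤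
      rk M (crr L₁ (Seg w) \ TST.KU (KF c n) Lx) + f)
    (hn : 2 * m + m * (f + u₂ + 2 * m) < n) :
    Fintype.card κ ≤ σ :=
  TSH.card_sp h.pair.s₁ h.row h.mem h.inj h.D_cl h.V1 h.V2 hL hcls hsur hf hn

/-- for the label systems -/
theorem LSys.card_sp {κ : Type*} [Fintype κ] [M.Finite]
    (h : LSys M w s σ 𝒯 L₁ f₁ e₁ u₁ L₂ f₂ e₂ u₂ D n m τ R c q Za)
    {Lx : Finset ℕ} {cls : ℕ → κ} {f : ℕ} (hL : ∀ i ∈ Lx, i < m)
    (hcls : ∀ d ∈ D, ∀ i < m, ∀ j < m, i ∉ Lx → j ∉ Lx →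
      d ∉ M.closure (crr L₁ (Seg w) \ KF c n i) → d ∉ M.closure (crr L₁ (Seg w) \ KF c n j) →
      cls i = cls j)
    (hsur : ∀ k, ∃ i < m, i ∉ Lx ∧ cls i = k)
    (hf : rk M ({d | d ∈ D ∧ ∃ i < m, i ∉ Lx ∧ d ∉ M.closure (crr L₁ (Seg w) \ KF c n i)} ∪
        (crr L₁ (Seg w) \ TST.KU (KF c n) Lx)) ≤
      rk M (crr L₁ (Seg w) \ TST.KU (KF c n) Lx) + f)
    (hn : 2 * m + m * (f + u₂ + 2 * m) < n) :
    Fintype.card κ ≤ σ :=
  TSH.card_sp h.pair.s₁ h.row (fun _ hi _ hb => h.mem_row hi hb) h.inj h.D_cl h.V1 (by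
    have h2 := h.V2 (Finset.range n) fun b hb => Finset.mem_range.1 hb
    rw [Finset.card_range, Finset.coe_range] at h2
    exact h2) hL hcls hsur hf hn

end

end TSH
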