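import Pool.Agent.TST.LDef

/-!
# V2 for the set of all tiles, and thinning (T-star)

`g T = rk S - rk (D ∪ (S \ labels of the tiles in T))` is supermodular.  If every set of `R₀` tiles
contains a good set of `n'` tiles, then a good set of `n'` tiles inherits `V2` with `σ + 1`.
-/

set_option autoImplicit false

open Set BIC BICS CWL
open scoped Matroid

namespace TSH

universe u

/-- **Thinning.** -/
theorem thin (σ R₀ n' : ℕ) (hn' : 1 ≤ n') {N : ℕ} (hN : (σ + 1) * R₀ < N) (g : Finset ℕ → ℕ)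
    (hg : ∀ T T' : Finset ℕ, T ⊆ Finset.range N → T' ⊆ Finset.range N → Disjoint T T' →
      g T + g T' ≤ g (T ∪ T')) (hgN : g (Finset.range N) ≤ σ * N) (good : Finset ℕ → Prop)
    (hgood : ∀ T ⊆ Finset.range N, R₀ ≤ T.card → ∃ T' ⊆ T, T'.card = n' ∧ good T') :
    ∃ T ⊆ Finset.range N, T.card = n' ∧ good T ∧ g T ≤ (σ + 1) * n' := by
  classical
  by_contra hcon
  push Not at hcon
  have key : ∀ k, ∀ U ⊆ Finset.range N, U.card = k → (σ + 1) * (k - R₀) ≤ g U := by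
    intro k
    induction k using Nat.strong_induction_on with
    | _ k ih =>
      intro U hU hUk
      rcases Nat.lt_or_ge k R₀ with h1 | h1
      · rw [Nat.sub_eq_zero_of_le h1.le, Nat.mul_zero]
        exact Nat.zero_le _
      · obtain ⟨T', hT', hc, hgd⟩ := hgood U hU (by omega)
        have h2 := hcon T' (hT'.trans hU) hc hgd
        have h3 : (U \ T').card = k - n' := by
          rw [Finset.card_sdiff_of_subset hT', hUk, hc]
        have h4 := Finset.card_le_card hT'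
        have h5 := ih (k - n') (by omega) (U \ T') (Finset.sdiff_subset.trans hU) h3
        have h6 := hg T' (U \ T') (hT'.trans hU) (Finset.sdiff_subset.trans hU)
          Finset.disjoint_sdiff
        rw [Finset.union_sdiff_of_subset hT'] at h6
        have h7 : (σ + 1) * (k - R₀) ≤ (σ + 1) * n' + (σ + 1) * (k - n' - R₀) := by
          rw [← Nat.mul_add]
          exact Nat.mul_le_mul_left _ (by omega)
        omega
  have h1 := key N (Finset.range N) (Finset.Subset.refl _) (Finset.card_range N)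
  rw [Nat.mul_sub] at h1
  have h2 : (σ + 1) * N = σ * N + N := by ring
  omega

variable {α : Type u} {M : Matroid α} {S D : Set α} {m : ℕ} {c : ℕ → ℕ → α}

lemma KB_union (B B' : Set ℕ) : KB m c (B ∪ B') = KB m c B ∪ KB m c B' := by
  ext x
  constructor
  · rintro ⟨i, hi, b, hb | hb, rfl⟩
    · exact Or.inl ⟨i, hi, b, hb, rfl⟩
    · exact Or.inr ⟨i, hi, b, hb, rfl⟩
  · rintro (⟨i, hi, b, hb, rfl⟩ | ⟨i, hi, b, hb, rfl⟩)
    · exact ⟨i, hi, b, Or.inl hb, rfl⟩
    · exact ⟨i, hi, b, Or.inr hb, rfl⟩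

/-- the cost of the tiles in `T` is supermodular -/
lemma cost_super [M.Finite] {N : ℕ}
    (hinj : ∀ i < m, ∀ b < N, ∀ j < m, ∀ a < N, c i b = c j a → b = a) (T T' : Finset ℕ)
    (hT : T ⊆ Finset.range N) (hT' : T' ⊆ Finset.range N) (hd : Disjoint T T') :
    (rk M (D ∪ S) - rk M (D ∪ (S \ KB m c T))) + (rk M (D ∪ S) - rk M (D ∪ (S \ KB m c T'))) ≤
      rk M (D ∪ S) - rk M (D ∪ (S \ KB m c ((T ∪ T' : Finset ℕ) : Set ℕ))) := by
  have h1 := rk_submod M (D ∪ (S \ KB m c T)) (D ∪ (S \ KB m c T'))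
  have hKK : ∀ x, x ∈ KB m c (T : Set ℕ) → x ∉ KB m c (T' : Set ℕ) := by
    rintro x ⟨i, hi, b, hb, rfl⟩ ⟨j, hj, a, ha, h2⟩
    have h3 := hinj i hi b (Finset.mem_range.1 (hT hb)) j hj a (Finset.mem_range.1 (hT' ha)) h2
    subst h3
    exact Finset.disjoint_left.1 hd hb ha
  have h2 : rk M (D ∪ S) ≤ rk M ((D ∪ (S \ KB m c T)) ∪ (D ∪ (S \ KB m c T'))) := by
    refine rk_mono M ?_
    rintro x (hx | hx)
    · exact Or.inl (Or.inl hx)
    · by_cases h3 : x ∈ KB m c (T : Set ℕ)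
      · exact Or.inr (Or.inr ⟨hx, hKK x h3⟩)
      · exact Or.inl (Or.inr ⟨hx, h3⟩)
  have h3 : rk M (D ∪ (S \ KB m c ((T ∪ T' : Finset ℕ) : Set ℕ))) ≤
      rk M ((D ∪ (S \ KB m c T)) ∩ (D ∪ (S \ KB m c T'))) := by
    refine rk_mono M ?_
    rw [Finset.coe_union, KB_union]
    rintro x (hx | hx)
    · exact ⟨Or.inl hx, Or.inl hx⟩
    · exact ⟨Or.inr ⟨hx.1, fun h4 => hx.2 (Or.inl h4)⟩, Or.inr ⟨hx.1, fun h4 => hx.2 (Or.inr h4)⟩⟩
  have h4 : rk M (D ∪ (S \ KB m c T)) ≤ rk M (D ∪ S) :=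
    rk_mono M (union_subset_union_right _ sdiff_subset)
  have h5 : rk M (D ∪ (S \ KB m c T')) ≤ rk M (D ∪ S) :=
    rk_mono M (union_subset_union_right _ sdiff_subset)
  omega

/-- **V2 for a good set of tiles.** -/
theorem v2_thin [M.Finite] {N : ℕ} (σ R₀ n' : ℕ) (hn' : 1 ≤ n') (hN : (σ + 1) * R₀ < N)
    (hS : S ⊆ M.E) (hD : D ⊆ M.closure S)
    (hinj : ∀ i < m, ∀ b < N, ∀ j < m, ∀ a < N, c i b = c j a → b = a)
    (hV : rk M S ≤ rk M (D ∪ (S \ KB m c (Iio N))) + σ * N) (good : Finset ℕ → Prop)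
    (hgood : ∀ T ⊆ Finset.range N, R₀ ≤ T.card → ∃ T' ⊆ T, T'.card = n' ∧ good T') :
    ∃ T ⊆ Finset.range N, T.card = n' ∧ good T ∧
      rk M S ≤ rk M (D ∪ (S \ KB m c T)) + (σ + 1) * n' := by
  have h0 : rk M (D ∪ S) = rk M S := by
    refine le_antisymm ?_ (rk_mono M subset_union_right)
    rw [← rk_closure (M := M) S]
    exact rk_mono M (union_subset hD (M.subset_closure S hS))
  obtain ⟨T, h1, h2, h3, h4⟩ := thin σ R₀ n' hn' hN
    (fun T => rk M (D ∪ S) - rk M (D ∪ (S \ KB m c T)))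
    (fun T T' hT hT' hd => cost_super hinj T T' hT hT' hd) (by
      show rk M (D ∪ S) - rk M (D ∪ (S \ KB m c ((Finset.range N : Finset ℕ) : Set ℕ))) ≤ σ * N
      rw [Finset.coe_range, h0]
      omega) good hgood
  refine ⟨T, h1, h2, h3, ?_⟩
  rw [← h0]
  have h5 : rk M (D ∪ S) - rk M (D ∪ (S \ KB m c T)) ≤ (σ + 1) * n' := h4
  omega

end TSH
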