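import Pool.Agent.TST.GamS74
import Pool.Agent.TST.LabDef
import Pool.Agent.TST.HyperSp
import Pool.Agent.TST.V2Thin

/-!
# The number of classes (row R9 of Claim F, helper88)

`kc_count`: the count for one choice of tiles.  `gamLab`: gamma elements, then the label level, for one
set of tiles.  `kc_le`: both, with the thinning of `V2`.  `kc_num`: the numbers.
-/

set_option autoImplicit false

open Set BIC BICS CWL
open scoped Matroid

namespace TSH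

open TST

universe u

open Classical in
/-- the labels on the rows of `LR` -/
noncomputable def LtL (m : ℕ) (R : ℕ → Bool × ℕ × ℕ) (LR : Set (Bool × ℕ × ℕ)) : Finset ℕ :=
  (Finset.range m).filter fun i => R i ∈ LR

open Classical in
/-- the special labels: on rows `∉ LR` which have an end in `W` -/
noncomputable def SpL (m : ℕ) (R : ℕ → Bool × ℕ × ℕ) (LR : Set (Bool × ℕ × ℕ)) (W : Set (ℕ × ℕ)) :
    Finset ℕ :=
  (Finset.range m).filter fun i => R i ∉ LR ∧ (segNear (R i) ∈ W ∨ segFar (R i) ∈ W)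

section

variable {α : Type u} {M : Matroid α} {w u₁ : ℕ} {L₁ : Bool × ℕ × ℕ → List α}
  {f₁ : α → Sym2 ((ℕ × ℕ) ⊕ α)} {e₁ : Bool × ℕ × ℕ → α} {D Gf T₂ Y : Set α} {σ N n m u₂ ρ g : ℕ}
  {R : ℕ → Bool × ℕ × ℕ} {c : ℕ → ℕ → α} {LR : Set (Bool × ℕ × ℕ)} {W : Set (ℕ × ℕ)}
  {Dg Rg : Set α} {pr : α → Bool → Bool × ℕ × ℕ} {pa : α → Bool → Set α} {κ : ℕ → ℕ} {T : Set α}
  {kc : ℕ} {cls : ℕ → ℕ} {pv : Set ℕ}

/-- **The count for one choice of tiles.**  `W` = vertices at which the one-place elements may move,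
`T₂` = elements with LIFT (`Y` avoids only the kept conflicts on the rows of `LR`), `Gf` = fixed gamma
elements. -/
theorem kc_count [M.Finite] (hG : GSide M (Seg w) L₁ f₁ e₁ u₁)
    (row : ∀ i < m, R i ∈ Seg w) (mem : ∀ i < m, ∀ b < N, c i b ∈ L₁ (R i))
    (inj : ∀ i < m, ∀ b < N, ∀ j < m, ∀ a < N, c i b = c j a → i = j ∧ b = a)
    (D_cl : D ⊆ M.closure (crr L₁ (Seg w)))
    (V1 : ∀ (B : Finset ℕ) (I : ℕ → ℕ), (∀ b ∈ B, b < N ∧ I b < m) →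
      rk M (D ∪ (crr L₁ (Seg w) \ KB m c B)) + B.card ≤
        rk M ((fun b => c (I b) b) '' (B : Set ℕ) ∪ (D ∪ (crr L₁ (Seg w) \ KB m c B))) + u₂)
    (hL : LabOut (Seg w \ LR) segNear segFar (Sees M (crr L₁ (Seg w))) Dg Rg pr pa m n N R c κ T
      kc cls pv)
    (V2 : rk M (crr L₁ (Seg w)) ≤
      rk M (D ∪ (crr L₁ (Seg w) \ KB m c ((Finset.range n).image κ : Finset ℕ))) + σ * n)
    (kind : ∀ d ∈ D, ∀ i < m, R i ∉ LR → segNear (R i) ∉ W → segFar (R i) ∉ W →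
      (∃ a < n, ∃ b < n, a ≠ b ∧ Sees M (crr L₁ (Seg w)) d (c i (κ a)) (c i (κ b))) →
      d ∈ Dg ∧ (d ∈ T₂ ∨ d ∈ Gf))
    (hY : Y ⊆ crr L₁ (Seg w) \ KL m R c LR ((Finset.range n).image κ))
    (lift : rk M (T₂ ∪ Y) ≤ rk M Y + ρ)
    (gam : rk M (Gf ∪ (crr L₁ (Seg w) \ KL m R c LR ((Finset.range n).image κ))) ≤
      rk M (crr L₁ (Seg w) \ KL m R c LR ((Finset.range n).image κ)) + g)
    (hn : 2 * m + m * (ρ + g + m + u₂ + 2 * m) < n) (hn2 : 2 ≤ n) :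
    kc ≤ σ + (SpL m R LR W).card := by
  classical
  obtain ⟨c', hc'⟩ : ∃ c' : ℕ → ℕ → α, c' = fun i b => c i (κ b) := ⟨_, rfl⟩
  have hc'e : ∀ i b, c' i b = c i (κ b) := fun i b => by rw [hc']
  obtain ⟨Tn, hTn⟩ : ∃ Tn : Finset ℕ, Tn = (Finset.range n).image κ := ⟨_, rfl⟩
  rw [← hTn] at V2 hY gam
  have hκ : ∀ a < n, ∀ b < n, κ a = κ b → a = b := by
    intro a ha b hb hab
    rcases Nat.lt_trichotomy a b with h | h | h
    · have := hL.mono a b h hb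
      omega
    · exact h
    · have := hL.mono b a h ha
      omega
  have mem' : ∀ i < m, ∀ b < n, c' i b ∈ L₁ (R i) := fun i hi b hb => by
    rw [hc'e]
    exact mem i hi _ (hL.lt b hb)
  have inj' : ∀ i < m, ∀ b < n, ∀ j < m, ∀ a < n, c' i b = c' j a → i = j ∧ b = a := by
    intro i hi b hb j hj a ha h
    rw [hc'e, hc'e] at h
    obtain ⟨h1, h2⟩ := inj i hi _ (hL.lt b hb) j hj _ (hL.lt a ha) h
    exact ⟨h1, hκ b hb a ha h2⟩
  have KBe : ∀ B : Finset ℕ, KB m c' B = KB m c (B.image κ : Finset ℕ) := by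
    intro B
    ext x
    constructor
    · rintro ⟨i, hi, b, hb, rfl⟩
      exact ⟨i, hi, κ b, Finset.mem_coe.2 (Finset.mem_image_of_mem κ hb), hc'e i b⟩
    · rintro ⟨i, hi, b, hb, rfl⟩
      obtain ⟨a, ha, rfl⟩ := Finset.mem_image.1 (Finset.mem_coe.1 hb)
      exact ⟨i, hi, a, ha, (hc'e i a).symm⟩
  have V1' : ∀ (B : Finset ℕ) (I : ℕ → ℕ), (∀ b ∈ B, b < n ∧ I b < m) →
      rk M (D ∪ (crr L₁ (Seg w) \ KB m c' B)) + B.card ≤
        rk M ((fun b => c' (I b) b) '' (B : Set ℕ) ∪ (D ∪ (crr L₁ (Seg w) \ KB m c' B))) + u₂ := by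
    intro B I hB
    have hi : Set.InjOn κ (B : Set ℕ) := fun a ha b hb h => hκ a (hB a ha).1 b (hB b hb).1 h
    obtain ⟨gi, hgi⟩ : ∃ gi : ℕ → ℕ, ∀ b ∈ B, gi (κ b) = b :=
      ⟨Function.invFunOn κ (B : Set ℕ), fun b hb => hi.leftInvOn_invFunOn hb⟩
    have h := V1 (B.image κ) (fun b => I (gi b)) (by
      intro b hb
      obtain ⟨a, ha, rfl⟩ := Finset.mem_image.1 hb
      refine ⟨hL.lt a (hB a ha).1, ?_⟩
      show I (gi (κ a)) < m
      rw [hgi a ha]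
      exact (hB a ha).2)
    have e : (fun b => c (I (gi b)) b) '' ((B.image κ : Finset ℕ) : Set ℕ) =
        (fun b => c' (I b) b) '' (B : Set ℕ) := by
      ext x
      constructor
      · rintro ⟨b, hb, rfl⟩
        obtain ⟨a, ha, rfl⟩ := Finset.mem_image.1 (Finset.mem_coe.1 hb)
        refine ⟨a, ha, ?_⟩
        show c' (I a) a = c (I (gi (κ a))) (κ a)
        rw [hgi a ha, hc'e]
      · rintro ⟨a, ha, rfl⟩
        refine ⟨κ a, Finset.mem_coe.2 (Finset.mem_image_of_mem κ ha), ?_⟩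
        show c (I (gi (κ a))) (κ a) = c' (I a) a
        rw [hgi a ha, hc'e]
    rw [Finset.card_image_of_injOn hi, ← KBe, e] at h
    exact h
  have V2' : rk M (crr L₁ (Seg w)) ≤
      rk M (D ∪ (crr L₁ (Seg w) \ KB m c' (Iio n))) + σ * n := by
    have h := KBe (Finset.range n)
    rw [Finset.coe_range, ← hTn] at h
    rw [h]
    exact V2
  obtain ⟨Ksp, hKsp⟩ : ∃ Ksp : Finset ℕ, Ksp = (SpL m R LR W).image cls := ⟨_, rfl⟩
  have hKc : Ksp.card ≤ (SpL m R LR W).card := by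
    rw [hKsp]
    exact Finset.card_image_le
  obtain ⟨Kn, hKn⟩ : ∃ Kn, Kn = Finset.range kc \ Ksp := ⟨_, rfl⟩
  have h1 : kc ≤ Kn.card + Ksp.card := by
    have h := Finset.card_le_card_sdiff_add_card (s := Finset.range kc) (t := Ksp)
    rw [Finset.card_range, ← hKn] at h
    exact h
  suffices h : Kn.card ≤ σ by omega
  by_cases hne : Kn.Nonempty
  swap
  · rw [Finset.not_nonempty_iff_eq_empty.1 hne]
    exact Nat.zero_le _
  obtain ⟨k₀, hk₀⟩ := hne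
  obtain ⟨cl, hcl⟩ : ∃ cl : ℕ → {x // x ∈ Kn},
      cl = fun i => if h : cls i ∈ Kn then ⟨cls i, h⟩ else ⟨k₀, hk₀⟩ := ⟨_, rfl⟩
  have hcle : ∀ i (h : cls i ∈ Kn), cl i = ⟨cls i, h⟩ := by
    intro i h
    rw [hcl]
    simp only [h, dif_pos]
  obtain ⟨J, hJ⟩ : ∃ J : Finset ℕ,
      J = (Finset.range m).filter (fun i => R i ∉ LR ∧ cls i ∈ Ksp) := ⟨_, rfl⟩
  have memJ : ∀ i, i ∈ J ↔ i < m ∧ R i ∉ LR ∧ cls i ∈ Ksp := by
    intro i
    rw [hJ, Finset.mem_filter, Finset.mem_range]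
  have memL : ∀ i, i ∈ LtL m R LR ↔ i < m ∧ R i ∈ LR := by
    intro i
    unfold LtL
    rw [Finset.mem_filter, Finset.mem_range]
  have memS : ∀ i, i ∈ SpL m R LR W ↔
      i < m ∧ R i ∉ LR ∧ (segNear (R i) ∈ W ∨ segFar (R i) ∈ W) := by
    intro i
    unfold SpL
    rw [Finset.mem_filter, Finset.mem_range]
  have hout : ∀ i < m, i ∉ LtL m R LR ∪ J → R i ∉ LR ∧ cls i ∉ Ksp ∧ cls i ∈ Kn ∧
      segNear (R i) ∉ W ∧ segFar (R i) ∉ W := by
    intro i hi h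
    rw [Finset.mem_union, not_or, memL, memJ] at h
    have h2 : R i ∉ LR := fun h3 => h.1 ⟨hi, h3⟩
    have h3 : cls i ∉ Ksp := fun h3 => h.2 ⟨hi, h2, h3⟩
    have h4 : ¬ (segNear (R i) ∈ W ∨ segFar (R i) ∈ W) := by
      intro h5
      apply h3
      rw [hKsp]
      exact Finset.mem_image_of_mem cls ((memS i).2 ⟨hi, h2, h5⟩)
    rw [not_or] at h4
    refine ⟨h2, h3, ?_, h4⟩
    rw [hKn, Finset.mem_sdiff, Finset.mem_range]
    exact ⟨hL.cls_lt i hi ⟨row i hi, h2⟩, h3⟩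
  -- seeing a label
  have hsee : ∀ d, ∀ i < m, d ∉ M.closure (crr L₁ (Seg w) \ KF c' n i) →
      ∃ a < n, ∃ b < n, a ≠ b ∧ Sees M (crr L₁ (Seg w)) d (c i (κ a)) (c i (κ b)) := by
    intro d i hi hd
    obtain ⟨x, hx, y, hy, hxy, h⟩ := see_pair hG (row i hi) (K := (KF c' n i : Set α)) (by
      intro x hx
      obtain ⟨b, hb, rfl⟩ := mem_KF.1 (Finset.mem_coe.1 hx)
      exact mem' i hi b hb) (x₁ := c' i 0) (x₂ := c' i 1)
      (Finset.mem_coe.2 (mem_KF.2 ⟨0, by omega, rfl⟩))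
      (Finset.mem_coe.2 (mem_KF.2 ⟨1, by omega, rfl⟩)) (by
        intro h
        have := (inj' i hi 0 (by omega) i hi 1 (by omega) h).2
        omega) hd
    obtain ⟨a, ha, rfl⟩ := mem_KF.1 (Finset.mem_coe.1 hx)
    obtain ⟨b, hb, rfl⟩ := mem_KF.1 (Finset.mem_coe.1 hy)
    refine ⟨a, ha, b, hb, ?_, ?_⟩
    · rintro rfl
      exact hxy rfl
    · rw [← hc'e, ← hc'e]
      exact h
  have hKcard : ∀ i ∈ Finset.range m, (KF c' n i).card = n := by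
    intro i hi
    rw [Finset.mem_range] at hi
    unfold KF
    rw [Finset.card_image_of_injOn, Finset.card_range]
    intro a ha b hb hab
    rw [Finset.mem_coe, Finset.mem_range] at ha hb
    exact (inj' i hi a ha i hi b hb hab).2
  have hKd : ∀ i ∈ Finset.range m, ∀ j ∈ Finset.range m, i ≠ j →
      Disjoint (KF c' n i) (KF c' n j) := by
    intro i hi j hj hij
    rw [Finset.mem_range] at hi hj
    rw [Finset.disjoint_left]
    intro x hx hx'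
    obtain ⟨a, ha, rfl⟩ := mem_KF.1 hx
    obtain ⟨b, hb, h⟩ := mem_KF.1 hx'
    exact hij (inj' i hi a ha j hj b hb h).1
  have hKsub : ∀ i < m, (KF c' n i : Set α) ⊆ crr L₁ (Seg w) := by
    intro i hi x hx
    obtain ⟨b, hb, rfl⟩ := mem_KF.1 (Finset.mem_coe.1 hx)
    exact ⟨R i, row i hi, mem' i hi b hb⟩
  have hloss : ∀ i ∈ Finset.range m,
      rk M (crr L₁ (Seg w) \ KF c' n i) + n ≤ rk M (crr L₁ (Seg w)) + 1 := by
    intro i hi
    have hcd := hKcard i hi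
    rw [Finset.mem_range] at hi
    have h1 := hG.cut (hKsub i hi)
    rw [Set.ncard_coe_finset, hcd] at h1
    have h2 : {r | r ∈ Seg w ∧ ∃ x ∈ (KF c' n i : Set α), x ∈ L₁ r} ⊆ {R i} := by
      rintro r ⟨hr, x, hx, hxr⟩
      obtain ⟨b, hb, rfl⟩ := mem_KF.1 (Finset.mem_coe.1 hx)
      exact hG.uniq hr (row i hi) hxr (mem' i hi b hb)
    have h3 := Set.ncard_le_ncard h2
    rw [Set.ncard_singleton] at h3
    omega
  have hKLe : TST.KU (KF c' n) (LtL m R LR) = KL m R c LR Tn := by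
    ext x
    rw [TST.mem_KU]
    constructor
    · rintro ⟨i, hi, hx⟩
      obtain ⟨b, hb, rfl⟩ := mem_KF.1 hx
      rw [memL] at hi
      refine ⟨i, hi.1, hi.2, κ b, ?_, hc'e i b⟩
      rw [hTn]
      exact Finset.mem_image_of_mem κ (Finset.mem_range.2 hb)
    · rintro ⟨i, hi, hiL, b, hb, rfl⟩
      rw [hTn] at hb
      obtain ⟨a, ha, rfl⟩ := Finset.mem_image.1 hb
      exact ⟨i, (memL i).2 ⟨hi, hiL⟩, mem_KF.2 ⟨a, Finset.mem_range.1 ha, (hc'e i a).symm⟩⟩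
  obtain ⟨DA, hDA⟩ : ∃ DA : Set α, DA = {d | d ∈ D ∧ ∃ i < m, i ∉ LtL m R LR ∪ J ∧
      d ∉ M.closure (crr L₁ (Seg w) \ KF c' n i)} := ⟨_, rfl⟩
  have hDAk : ∀ d ∈ DA, d ∈ Dg ∧ (d ∈ T₂ ∨ d ∈ Gf) := by
    rw [hDA]
    rintro d ⟨hd, i, hi, hiL, hs⟩
    obtain ⟨h2, h3, h4, h5, h6⟩ := hout i hi hiL
    exact kind d hd i hi h2 h5 h6 (hsee d i hi hs)
  -- LIFT and gamma, outside of the light labels
  have hf₀ : rk M (DA ∪ (crr L₁ (Seg w) \ TST.KU (KF c' n) (LtL m R LR))) ≤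
      rk M (crr L₁ (Seg w) \ TST.KU (KF c' n) (LtL m R LR)) + (ρ + g) := by
    rw [hKLe]
    have h2 : rk M Y + rk M (T₂ ∪ (crr L₁ (Seg w) \ KL m R c LR Tn)) ≤
        rk M (crr L₁ (Seg w) \ KL m R c LR Tn) + rk M (T₂ ∪ Y) := by
      refine rk_sub' (subset_inter hY subset_union_right) ?_
      rintro x (hx | hx)
      · exact Or.inr (Or.inl hx)
      · exact Or.inl hx
    have h3 : rk M (crr L₁ (Seg w) \ KL m R c LR Tn) +
        rk M (T₂ ∪ (Gf ∪ (crr L₁ (Seg w) \ KL m R c LR Tn))) ≤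
        rk M (T₂ ∪ (crr L₁ (Seg w) \ KL m R c LR Tn)) +
          rk M (Gf ∪ (crr L₁ (Seg w) \ KL m R c LR Tn)) := by
      refine rk_sub' (subset_inter subset_union_right subset_union_right) ?_
      rintro x (hx | hx | hx)
      · exact Or.inl (Or.inl hx)
      · exact Or.inr (Or.inl hx)
      · exact Or.inl (Or.inr hx)
    have h4 : rk M (DA ∪ (crr L₁ (Seg w) \ KL m R c LR Tn)) ≤
        rk M (T₂ ∪ (Gf ∪ (crr L₁ (Seg w) \ KL m R c LR Tn))) := by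
      refine rk_mono M ?_
      rintro x (hx | hx)
      · rcases (hDAk x hx).2 with h5 | h5
        · exact Or.inl h5
        · exact Or.inr (Or.inl h5)
      · exact Or.inr (Or.inr hx)
    omega
  have hL0 : LtL m R LR ⊆ Finset.range m := by
    unfold LtL
    exact Finset.filter_subset _ _
  have hJ0 : J ⊆ Finset.range m := by
    rw [hJ]
    exact Finset.filter_subset _ _
  have hJm : J.card ≤ m := by
    have := Finset.card_le_card hJ0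
    rwa [Finset.card_range] at this
  have hf₁ := TST.rk_light_add (M := M) (S := crr L₁ (Seg w)) (G := DA) (I := Finset.range m)
    (L₀ := LtL m R LR) (J := J) (K := KF c' n) (n := n) (p₀ := 1) (f := ρ + g) hG.sub_ground hKd
    hKcard hloss (by
      rw [hDA]
      exact fun d hd => D_cl hd.1) hL0 hJ0 (by
      rw [Finset.disjoint_left]
      intro i hi hi'
      exact ((memJ i).1 hi').2.1 ((memL i).1 hi).2) (by
      intro j hj d hd
      by_contra hcon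
      have hdg := (hDAk d hd).1
      rw [hDA] at hd
      obtain ⟨_, i, hi, hiL, hs⟩ := hd
      obtain ⟨hj1, hj2, hj3⟩ := (memJ j).1 hj
      obtain ⟨h2, h3, -⟩ := hout i hi hiL
      have h4 := hL.see d hdg i hi j hj1 ⟨row i hi, h2⟩ ⟨row j hj1, hj2⟩ (hsee d i hi hs)
        (hsee d j hj1 hcon)
      rw [h4] at h3
      exact h3 hj3) hf₀
  have hcard := TSH.card_sp (κ := {x // x ∈ Kn}) (M := M) (D := D) (σ := σ) (u₂ := u₂) (n := n)
    (m := m) (R := R) (c := c') (Lx := LtL m R LR ∪ J) (cls := cl) (f := ρ + g + J.card * 1) hG row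
    mem' inj' D_cl V1' V2' (by
      intro i hi
      rcases Finset.mem_union.1 hi with h | h
      · exact ((memL i).1 h).1
      · exact ((memJ i).1 h).1) (by
      intro d hd i hi j hj hiL hjL hsi hsj
      obtain ⟨a2, a3, a4, a5, a6⟩ := hout i hi hiL
      obtain ⟨b2, b3, b4, b5, b6⟩ := hout j hj hjL
      have hdg := (kind d hd i hi a2 a5 a6 (hsee d i hi hsi)).1
      have h4 := hL.see d hdg i hi j hj ⟨row i hi, a2⟩ ⟨row j hj, b2⟩ (hsee d i hi hsi)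
        (hsee d j hj hsj)
      rw [hcle i a4, hcle j b4]
      exact Subtype.ext h4) (by
      rintro ⟨k, hk⟩
      have hk' := hk
      rw [hKn, Finset.mem_sdiff, Finset.mem_range] at hk'
      obtain ⟨i, hi, hiV, hik⟩ := hL.sur k hk'.1
      have h5 : i ∉ LtL m R LR ∪ J := by
        rw [Finset.mem_union, not_or, memL, memJ]
        refine ⟨fun h => hiV.2 h.2, fun h => ?_⟩
        rw [hik] at h
        exact hk'.2 h.2.2
      refine ⟨i, hi, h5, ?_⟩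
      subst hik
      exact hcle i hk) (by
      rw [← hDA]
      exact hf₁) (by
      have h6 : m * (ρ + g + J.card * 1 + u₂ + 2 * m) ≤ m * (ρ + g + m + u₂ + 2 * m) :=
        Nat.mul_le_mul_left _ (by omega)
      omega)
  rw [Fintype.card_coe] at hcard
  exact hcard

end

lemma seg_core88 {s : ℕ} : Seg s ⊆ core (s + 2) := by
  rintro ⟨a, i, j⟩ h
  refine ⟨?_, ?_⟩
  · rcases h with ⟨h1, h2, h3⟩ | ⟨h1, h2, h3, h4⟩
    · exact Or.inl ⟨h1, by omega, by omega⟩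
    · exact Or.inr ⟨h1, by omega, by omega, h4⟩
  · rintro (h5 | h5)
    · simp only [Prod.mk.injEq] at h5
      rcases h with ⟨h1, h2, h3⟩ | ⟨h1, h2, h3, h4⟩
      · simp only at h3
        omega
      · simp only at h3
        omega
    · simp only [mem_singleton_iff, Prod.mk.injEq] at h5
      rcases h with ⟨h1, h2, h3⟩ | ⟨h1, h2, h3, h4⟩
      · simp only at h3
        omega
      · simp only at h3
        omega

/-- the branch vertices at which gamma elements may move -/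
def GV (LR : Set (Bool × ℕ × ℕ)) (Mv : Finset (Bool × ℕ × ℕ)) : Set (ℕ × ℕ) :=
  VV LR ∪ VV (Mv : Set (Bool × ℕ × ℕ))

/-- the output for one set of tiles: tiles `κ b` for the label level, and fixed gamma elements -/
structure GamL {α : Type u} (M : Matroid α) (w : ℕ) (L₁ : Bool × ℕ × ℕ → List α)
    (C k m n N : ℕ) (R : ℕ → Bool × ℕ × ℕ) (c : ℕ → ℕ → α) (LR : Set (Bool × ℕ × ℕ))
    (G : Set α) (r₀ : α → Bool × ℕ × ℕ) (Dg Rg : Set α) (pr : α → Bool → Bool × ℕ × ℕ)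
    (pa : α → Bool → Set α) (Mv : Finset (Bool × ℕ × ℕ)) (κ : ℕ → ℕ) (T : Set α) (kc : ℕ)
    (cls : ℕ → ℕ) (pv : Set ℕ) : Prop where
  lab : LabOut (Seg w \ LR) segNear segFar (Sees M (crr L₁ (Seg w))) Dg Rg pr pa m n N R c κ T
    kc cls pv
  Mv_sub : (Mv : Set (Bool × ℕ × ℕ)) ⊆ Seg w \ LR
  Mv_card : Mv.card ≤ C * (LtL m R LR).card
  gam : rk M ({z | z ∈ G ∧ segNear (r₀ z) ∉ GV LR Mv ∧ segFar (r₀ z) ∉ GV LR Mv} ∪
      (crr L₁ (Seg w) \ KL m R c LR ((Finset.range n).image κ))) ≤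
    rk M (crr L₁ (Seg w) \ KL m R c LR ((Finset.range n).image κ)) +
      (LtL m R LR).card * (2 * k)

/-- **Gamma elements and label level for one set `Tl` of tiles.** -/
theorem gamLab (k : ℕ) (hk : 2 ≤ k) (κ₀ : ℕ) : ∃ C : ℕ, ∀ ρh : ℕ, ∃ w₁ s₁ : ℕ,
    ∀ wmax mmax R₁ : ℕ, ∃ R₀ : ℕ, ∀ {α : Type u} (M : Matroid α) [M.Finite] (w s : ℕ)
    (𝒯 : Finset (ℕ × ℕ)) (L₁ : Bool × ℕ × ℕ → List α) (f₁ : α → Sym2 ((ℕ × ℕ) ⊕ α))
    (e₁ : Bool × ℕ × ℕ → α) (u₁ : ℕ) (L₂ : Bool × ℕ × ℕ → List α)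
    (f₂ : α → Sym2 ((ℕ × ℕ) ⊕ α)) (e₂ : Bool × ℕ × ℕ → α) (u₂ : ℕ) (D : Set α) (σ N m : ℕ)
    (τ : ℕ → ℕ × ℕ) (R : ℕ → Bool × ℕ × ℕ) (c : ℕ → ℕ → α) (Za : Finset (Bool × ℕ × ℕ))
    (LR : Set (Bool × ℕ × ℕ)) (G : Set α) (r₀ : α → Bool × ℕ × ℕ) (A₀ : α → Set α)
    (Dg Rg : Set α) (pr : α → Bool → Bool × ℕ × ℕ) (pa : α → Bool → Set α) (n : ℕ)
    (Tl : Finset ℕ),
    w₁ ≤ w → w ≤ wmax → s₁ ≤ s → m ≤ mmax → u₁ ≤ κ₀ → u₂ ≤ κ₀ →
    BSys M w s 𝒯 L₁ f₁ e₁ u₁ L₂ f₂ e₂ u₂ D σ N m τ R c Za → HotT κ₀ ρh M w s 𝒯 L₁ e₂ →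
    LR ⊆ Seg w → (∀ r ∈ Seg w, r ∉ LR → ∃ y ∈ L₁ r, y ≠ e₁ r) → G ⊆ D →
    (∀ z ∈ G, OnP M w L₁ LR z (r₀ z) (A₀ z)) → Tl ⊆ Finset.range N → R₀ ≤ Tl.card →
    -- the label level
    (∀ T' ⊆ Tl, R₁ ≤ T'.card → ∃ (κ : ℕ → ℕ) (T : Set α) (kc : ℕ) (cls : ℕ → ℕ) (pv : Set ℕ),
      (∀ b < n, κ b ∈ T') ∧ LabOut (Seg w \ LR) segNear segFar (Sees M (crr L₁ (Seg w))) Dg Rg pr
        pa m n N R c κ T kc cls pv) →
    HasUniformMinor M k ∨
    ∃ (Mv : Finset (Bool × ℕ × ℕ)) (κ : ℕ → ℕ) (T : Set α) (kc : ℕ) (cls : ℕ → ℕ) (pv : Set ℕ),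
      (∀ b < n, κ b ∈ Tl) ∧
      GamL M w L₁ C k m n N R c LR G r₀ Dg Rg pr pa Mv κ T kc cls pv := by
  classical
  obtain ⟨C, hC⟩ := gammaS.{u} k hk κ₀
  refine ⟨C, fun ρh => ?_⟩
  obtain ⟨w₁, s₁, h1⟩ := hC ρh
  refine ⟨w₁, s₁, fun wmax mmax R₁ => ?_⟩
  obtain ⟨R₀, h2⟩ := h1 wmax mmax R₁
  refine ⟨R₀, ?_⟩
  intro α M _ w s 𝒯 L₁ f₁ e₁ u₁ L₂ f₂ e₂ u₂ D σ N m τ R c Za LR G r₀ A₀ Dg Rg pr pa n Tl hw hwm hs
    hm hu₁ hu₂ hB hHot hLR hrow2 hGD hOn hTl hTlc hlab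
  have hlt : ∀ b ∈ Tl, b < N := fun b hb => Finset.mem_range.1 (hTl hb)
  have hts : tiles s 𝒯 ⊆ cores s 𝒯 := by
    rintro _ ⟨t, ht, σ', hσ', rfl⟩
    exact ⟨t, ht, σ', seg_core88 hσ', rfl⟩
  rcases h2 M w s 𝒯 L₁ f₁ e₁ u₁ L₂ f₂ e₂ u₂ m τ R c LR G r₀ A₀ Tl hw hwm hs hm hu₁ hu₂ hTlc
    (hB.pair.subset₂ hts) hHot (fun b hb => hB.tau b (hlt b hb)) hB.row
    (fun i hi b hb => hB.mem i hi b (hlt b hb))
    (fun i hi b hb j hj a ha => hB.inj i hi b (hlt b hb) j hj a (hlt a ha))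
    (fun i hi b hb => hB.anc i hi b (hlt b hb))
    (fun b hb x hx hx' => hB.tile b (hlt b hb) x hx
      (crr_mono (image_mono seg_core88) hx')) hLR hrow2 (hGD.trans hB.D_cl)
    (hB.D₁.mono_left hGD) ((hB.D₂.mono_left hGD).mono_right (crr_mono hts)) hOn with hU | hU
  · exact Or.inl hU
  right
  obtain ⟨B, hBT, hBc, Mv, hMv, hMvc, hrk⟩ := hU
  obtain ⟨κ, T, kc, cls, pv, hκ, hL⟩ := hlab B hBT hBc.ge
  have hL0 : {i | i < m ∧ R i ∈ LR}.ncard = (LtL m R LR).card := by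
    rw [← Set.ncard_coe_finset]
    congr 1
    ext i
    unfold LtL
    rw [Finset.mem_coe, Finset.mem_filter, Finset.mem_range]
    rfl
  rw [hL0] at hMvc hrk
  refine ⟨Mv, κ, T, kc, cls, pv, fun b hb => hBT (hκ b hb), ⟨hL, hMv, hMvc, ?_⟩⟩
  obtain ⟨Tn, hTn⟩ : ∃ Tn : Finset ℕ, Tn = (Finset.range n).image κ := ⟨_, rfl⟩
  obtain ⟨F, hF⟩ : ∃ F : Set α, F = {z | z ∈ G ∧ segNear (r₀ z) ∉ GV LR Mv ∧
    segFar (r₀ z) ∉ GV LR Mv} := ⟨_, rfl⟩
  rw [← hTn, ← hF]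
  have hsub : ∀ x, x ∈ KL m R c LR Tn → x ∈ KL m R c LR B := by
    rintro x ⟨i, hi, hiL, b, hb, rfl⟩
    refine ⟨i, hi, hiL, b, ?_, rfl⟩
    rw [hTn] at hb
    obtain ⟨a, ha, rfl⟩ := Finset.mem_image.1 hb
    exact hκ a (Finset.mem_range.1 ha)
  have h3 : rk M (crr L₁ (Seg w) \ KL m R c LR B) +
      rk M (F ∪ (crr L₁ (Seg w) \ KL m R c LR Tn)) ≤
      rk M (F ∪ (crr L₁ (Seg w) \ KL m R c LR B)) +
        rk M (crr L₁ (Seg w) \ KL m R c LR Tn) := by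
    refine rk_sub' (subset_inter subset_union_right ?_) ?_
    · exact fun x hx => ⟨hx.1, fun h => hx.2 (hsub x h)⟩
    · rintro x (hx | hx)
      · exact Or.inl (Or.inl hx)
      · exact Or.inr hx
  have h4 : rk M (F ∪ (crr L₁ (Seg w) \ KL m R c LR B)) ≤
      rk M (crr L₁ (Seg w) \ KL m R c LR B) + (LtL m R LR).card * (2 * k) := by
    refine le_trans (rk_mono M (union_subset_union_left _ ?_)) hrk
    rw [hF]
    rintro z ⟨hz, hz1, hz2⟩
    refine ⟨hz, ?_⟩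
    rintro v (rfl | rfl)
    · exact ⟨fun h => hz1 (Or.inl h), fun h => hz1 (Or.inr h)⟩
    · exact ⟨fun h => hz2 (Or.inl h), fun h => hz2 (Or.inr h)⟩
  omega

/-- the label level on a subset of the tiles -/
theorem labOut_sub {α : Type u} {β ν : Type*} {V : Set β} {nd₁ nd₂ : β → ν} {S : α → α → α → Prop}
    {Dg Rg : Set α} {pr : α → Bool → β} {pa : α → Bool → Set α} {m n N R₁ : ℕ} {R : ℕ → β}
    {c : ℕ → ℕ → α} {T' : Finset ℕ} (hT : T' ⊆ Finset.range N) (hc : R₁ ≤ T'.card)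
    (h : ∀ ι : ℕ → ℕ, (∀ b < R₁, ι b ∈ T') → (∀ a b, a < b → b < R₁ → ι a < ι b) →
      ∃ (κ : ℕ → ℕ) (T : Set α) (kc : ℕ) (cls : ℕ → ℕ) (pv : Set ℕ),
        LabOut V nd₁ nd₂ S Dg Rg pr pa m n R₁ R (fun i b => c i (ι b)) κ T kc cls pv) :
    ∃ (κ : ℕ → ℕ) (T : Set α) (kc : ℕ) (cls : ℕ → ℕ) (pv : Set ℕ),
      (∀ b < n, κ b ∈ T') ∧ LabOut V nd₁ nd₂ S Dg Rg pr pa m n N R c κ T kc cls pv := by
  classical
  obtain ⟨ι, hι⟩ : ∃ ι : ℕ → ℕ,
      ι = fun b => if h : b < T'.card then T'.orderEmbOfFin rfl ⟨b, h⟩ else 0 := ⟨_, rfl⟩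
  have e : ∀ b (h : b < T'.card), ι b = T'.orderEmbOfFin rfl ⟨b, h⟩ := by
    intro b h
    rw [hι]
    simp only [h, dif_pos]
  have h1 : ∀ b < R₁, ι b ∈ T' := by
    intro b hb
    rw [e b (hb.trans_le hc)]
    exact Finset.orderEmbOfFin_mem _ _ _
  have h2 : ∀ a b, a < b → b < R₁ → ι a < ι b := by
    intro a b hab hb
    rw [e a (hab.trans (hb.trans_le hc)), e b (hb.trans_le hc)]
    exact (T'.orderEmbOfFin rfl).strictMono hab
  obtain ⟨κ, T, kc, cls, pv, hL⟩ := h ι h1 h2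
  refine ⟨fun b => ι (κ b), T, kc, cls, pv, fun b hb => h1 _ (hL.lt b hb), ?_⟩
  exact
    { mono := fun a b hab hb => h2 _ _ (hL.mono a b hab hb) (hL.lt b hb)
      lt := fun b hb => Finset.mem_range.1 (hT (h1 _ (hL.lt b hb)))
      sub := hL.sub
      chn := hL.chn
      cls_lt := hL.cls_lt
      sur := hL.sur
      see := hL.see
      priv := hL.priv
      conn := hL.conn }

/-- fewer tiles -/
theorem labOut_mono {α : Type u} {β ν : Type*} {V : Set β} {nd₁ nd₂ : β → ν}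
    {S : α → α → α → Prop} {Dg Rg : Set α} {pr : α → Bool → β} {pa : α → Bool → Set α}
    {m n n' N : ℕ} {R : ℕ → β} {c : ℕ → ℕ → α} {κ : ℕ → ℕ} {T : Set α} {kc : ℕ} {cls : ℕ → ℕ}
    {pv : Set ℕ} (h : LabOut V nd₁ nd₂ S Dg Rg pr pa m n N R c κ T kc cls pv) (hn : n' ≤ n) :
    LabOut V nd₁ nd₂ S Dg Rg pr pa m n' N R c κ T kc cls pv := by
  exact
    { mono := fun a b hab hb => h.mono a b hab (hb.trans_le hn)
      lt := fun b hb => h.lt b (hb.trans_le hn)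
      sub := h.sub
      chn := h.chn
      cls_lt := h.cls_lt
      sur := h.sur
      see := by
        rintro d hd i hi j hj hi' hj' ⟨a, ha, b, hb, h1⟩ ⟨a', ha', b', hb', h2⟩
        exact h.see d hd i hi j hj hi' hj' ⟨a, ha.trans_le hn, b, hb.trans_le hn, h1⟩
          ⟨a', ha'.trans_le hn, b', hb'.trans_le hn, h2⟩
      priv := h.priv
      conn := by
        intro i hi j hj hi' hj' h1 h2
        refine Relation.ReflTransGen.mono ?_ _ _ (h.conn i hi j hj hi' hj' h1 h2)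
        rintro x y ⟨h3, h4, h5, h6⟩
        exact ⟨h3, h4, h5, fun a b hab hb => h6 a b hab (hb.trans_le hn)⟩ }

/-- **Thinning for a choice of tiles with any additional data** (`P κ` = there are `LR`, `Mv`, ..).  The
last clause is the hypothesis `V2` of `kc_count`. -/
theorem BSys.thinK {α : Type u} {M : Matroid α} [M.Finite] {w s : ℕ} {𝒯 : Finset (ℕ × ℕ)}
    {L₁ : Bool × ℕ × ℕ → List α} {f₁ : α → Sym2 ((ℕ × ℕ) ⊕ α)} {e₁ : Bool × ℕ × ℕ → α} {u₁ : ℕ}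
    {L₂ : Bool × ℕ × ℕ → List α} {f₂ : α → Sym2 ((ℕ × ℕ) ⊕ α)} {e₂ : Bool × ℕ × ℕ → α} {u₂ : ℕ}
    {D : Set α} {σ N m : ℕ} {τ : ℕ → ℕ × ℕ} {R : ℕ → Bool × ℕ × ℕ} {c : ℕ → ℕ → α}
    {Za : Finset (Bool × ℕ × ℕ)} (hB : BSys M w s 𝒯 L₁ f₁ e₁ u₁ L₂ f₂ e₂ u₂ D σ N m τ R c Za)
    {R₀ n : ℕ} (hn : 1 ≤ n) (hN : (σ + 1) * R₀ < N) (P : (ℕ → ℕ) → Prop)
    (hgood : ∀ Tl ⊆ Finset.range N, R₀ ≤ Tl.card → ∃ κ : ℕ → ℕ, (∀ b < n, κ b ∈ Tl) ∧
      (∀ a b, a < b → b < n → κ a < κ b) ∧ P κ) :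
    ∃ κ : ℕ → ℕ, (∀ b < n, κ b < N) ∧ (∀ a b, a < b → b < n → κ a < κ b) ∧ P κ ∧
      rk M (crr L₁ (Seg w)) ≤
        rk M (D ∪ (crr L₁ (Seg w) \ KB m c ((Finset.range n).image κ : Finset ℕ))) +
          (σ + 1) * n := by
  classical
  obtain ⟨Tn, hTn, hTnc, ⟨κ, hTe, h1, h2⟩, hV⟩ := v2_thin (M := M)
    (S := crr L₁ (Seg w)) (D := D) (m := m) (c := c) σ R₀ n hn hN
    hB.pair.s₁.sub_ground hB.D_cl (fun i hi b hb j hj a ha h => (hB.inj i hi b hb j hj a ha h).2)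
    hB.V2 (fun T' => ∃ κ : ℕ → ℕ, T' = (Finset.range n).image κ ∧
      (∀ a b, a < b → b < n → κ a < κ b) ∧ P κ) (by
      intro Tl hTl hTlc
      obtain ⟨κ, h3, h4, h5⟩ := hgood Tl hTl hTlc
      refine ⟨(Finset.range n).image κ, ?_, ?_, κ, rfl, h4, h5⟩
      · intro b hb
        obtain ⟨a, ha, rfl⟩ := Finset.mem_image.1 hb
        exact h3 a (Finset.mem_range.1 ha)
      · rw [Finset.card_image_of_injOn, Finset.card_range]
        intro a ha b hb hab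
        rw [Finset.mem_coe, Finset.mem_range] at ha hb
        rcases Nat.lt_trichotomy a b with h | h | h
        · have := h4 a b h hb
          omega
        · exact h
        · have := h4 b a h ha
          omega)
  subst hTe
  exact ⟨κ, fun b hb => Finset.mem_range.1
    (hTn (Finset.mem_image_of_mem κ (Finset.mem_range.2 hb))), h1, h2, hV⟩

/-- **R9 for a fixed set `LR`.** -/
theorem kc_le (k : ℕ) (hk : 2 ≤ k) (κ₀ : ℕ) : ∃ C : ℕ, ∀ ρh : ℕ, ∃ w₁ s₁ : ℕ,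
    ∀ wmax mmax σ ρ n' : ℕ, ∃ n ≥ n', ∀ R₁ : ℕ, ∃ N₀ : ℕ, ∀ {α : Type u} (M : Matroid α) [M.Finite]
    (w s : ℕ) (𝒯 : Finset (ℕ × ℕ)) (L₁ : Bool × ℕ × ℕ → List α) (f₁ : α → Sym2 ((ℕ × ℕ) ⊕ α))
    (e₁ : Bool × ℕ × ℕ → α) (u₁ : ℕ) (L₂ : Bool × ℕ × ℕ → List α)
    (f₂ : α → Sym2 ((ℕ × ℕ) ⊕ α)) (e₂ : Bool × ℕ × ℕ → α) (u₂ : ℕ) (D : Set α) (N m : ℕ)
    (τ : ℕ → ℕ × ℕ) (R : ℕ → Bool × ℕ × ℕ) (c : ℕ → ℕ → α) (Za : Finset (Bool × ℕ × ℕ))
    (LR : Set (Bool × ℕ × ℕ)) (G T₂ Y : Set α) (r₀ : α → Bool × ℕ × ℕ) (A₀ : α → Set α)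
    (Dg Rg : Set α) (pr : α → Bool → Bool × ℕ × ℕ) (pa : α → Bool → Set α),
    w₁ ≤ w → w ≤ wmax → s₁ ≤ s → m ≤ mmax → u₁ ≤ κ₀ → u₂ ≤ κ₀ → N₀ ≤ N →
    BSys M w s 𝒯 L₁ f₁ e₁ u₁ L₂ f₂ e₂ u₂ D σ N m τ R c Za → HotT κ₀ ρh M w s 𝒯 L₁ e₂ →
    LR ⊆ Seg w → (∀ r ∈ Seg w, r ∉ LR → ∃ y ∈ L₁ r, y ≠ e₁ r) → G ⊆ D →
    (∀ z ∈ G, OnP M w L₁ LR z (r₀ z) (A₀ z)) →
    -- every element which sees a visible row is good, and it is a rung or `OnP`
    (∀ d ∈ D, ∀ r ∈ Seg w, r ∉ LR → ∀ x ∈ L₁ r, ∀ y ∈ L₁ r, x ≠ y →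
      Sees M (crr L₁ (Seg w)) d x y → d ∈ Dg ∧ (d ∈ T₂ ∨ d ∈ G)) →
    -- LIFT
    Y ⊆ crr L₁ (Seg w) → (∀ r ∈ LR, ∀ x ∈ L₁ r, x ∉ Y) → rk M (T₂ ∪ Y) ≤ rk M Y + ρ →
    -- the label level
    (∀ T' ⊆ Finset.range N, R₁ ≤ T'.card → ∃ (κ : ℕ → ℕ) (T : Set α) (kc : ℕ) (cls : ℕ → ℕ)
      (pv : Set ℕ), (∀ b < n, κ b ∈ T') ∧ LabOut (Seg w \ LR) segNear segFar
        (Sees M (crr L₁ (Seg w))) Dg Rg pr pa m n N R c κ T kc cls pv) →
    HasUniformMinor M k ∨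
    ∃ (Mv : Finset (Bool × ℕ × ℕ)) (κ : ℕ → ℕ) (T : Set α) (kc : ℕ) (cls : ℕ → ℕ) (pv : Set ℕ),
      GamL M w L₁ C k m n N R c LR G r₀ Dg Rg pr pa Mv κ T kc cls pv ∧
      kc ≤ σ + 1 + (SpL m R LR (GV LR Mv)).card := by
  classical
  obtain ⟨C, hC⟩ := gamLab.{u} k hk κ₀
  refine ⟨C, fun ρh => ?_⟩
  obtain ⟨w₁, s₁, h1⟩ := hC ρh
  refine ⟨w₁, s₁, fun wmax mmax σ ρ n' => ?_⟩
  obtain ⟨n, hn⟩ : ∃ n, n = max n'
    (2 * mmax + mmax * (ρ + mmax * (2 * k) + mmax + κ₀ + 2 * mmax) + 2) := ⟨_, rfl⟩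
  refine ⟨n, by rw [hn]; exact le_max_left _ _, fun R₁ => ?_⟩
  obtain ⟨R₀, h2⟩ := h1 wmax mmax R₁
  refine ⟨(σ + 1) * R₀ + 1, ?_⟩
  intro α M _ w s 𝒯 L₁ f₁ e₁ u₁ L₂ f₂ e₂ u₂ D N m τ R c Za LR G T₂ Y r₀ A₀ Dg Rg pr pa hw hwm hs
    hm hu₁ hu₂ hN hB hHot hLR hrow2 hGD hOn hkind hY hYL hlift hlab
  by_cases hU : HasUniformMinor M k
  · exact Or.inl hU
  right
  have hn2 : 2 * mmax + mmax * (ρ + mmax * (2 * k) + mmax + κ₀ + 2 * mmax) + 2 ≤ n := by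
    rw [hn]
    exact le_max_right _ _
  obtain ⟨Tn, hTn, hTnc, ⟨Mv, κ, T, kc, cls, pv, hTe, hGL⟩, hV⟩ := v2_thin (M := M)
    (S := crr L₁ (Seg w)) (D := D) (m := m) (c := c) σ R₀ n (by omega) (by omega)
    hB.pair.s₁.sub_ground hB.D_cl (fun i hi b hb j hj a ha h => (hB.inj i hi b hb j hj a ha h).2)
    hB.V2 (fun T' => ∃ (Mv : Finset (Bool × ℕ × ℕ)) (κ : ℕ → ℕ) (T : Set α) (kc : ℕ)
      (cls : ℕ → ℕ) (pv : Set ℕ), T' = (Finset.range n).image κ ∧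
      GamL M w L₁ C k m n N R c LR G r₀ Dg Rg pr pa Mv κ T kc cls pv) (by
      intro Tl hTl hTlc
      rcases h2 M w s 𝒯 L₁ f₁ e₁ u₁ L₂ f₂ e₂ u₂ D σ N m τ R c Za LR G r₀ A₀ Dg Rg pr pa n Tl hw hwm
        hs hm hu₁ hu₂ hB hHot hLR hrow2 hGD hOn hTl hTlc
        (fun T' hT' hc => hlab T' (hT'.trans hTl) hc) with h | ⟨Mv, κ, T, kc, cls, pv, h3, h4⟩
      · exact absurd h hU
      refine ⟨(Finset.range n).image κ, ?_, ?_, Mv, κ, T, kc, cls, pv, rfl, h4⟩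
      · intro b hb
        obtain ⟨a, ha, rfl⟩ := Finset.mem_image.1 hb
        exact h3 a (Finset.mem_range.1 ha)
      · rw [Finset.card_image_of_injOn, Finset.card_range]
        intro a ha b hb hab
        rw [Finset.mem_coe, Finset.mem_range] at ha hb
        rcases Nat.lt_trichotomy a b with h | h | h
        · have := h4.lab.mono a b h hb
          omega
        · exact h
        · have := h4.lab.mono b a h ha
          omega)
  refine ⟨Mv, κ, T, kc, cls, pv, hGL, ?_⟩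
  rw [hTe] at hV
  have hLm : (LtL m R LR).card ≤ m := by
    unfold LtL
    have h := Finset.card_filter_le (Finset.range m) fun i => R i ∈ LR
    rwa [Finset.card_range] at h
  refine kc_count (W := GV LR Mv) (Gf := {z | z ∈ G ∧ segNear (r₀ z) ∉ GV LR Mv ∧
    segFar (r₀ z) ∉ GV LR Mv}) (T₂ := T₂) (Y := Y) (ρ := ρ) (g := (LtL m R LR).card * (2 * k))
    (u₂ := u₂) hB.pair.s₁ hB.row hB.mem hB.inj hB.D_cl hB.V1 hGL.lab hV ?_ ?_ hlift hGL.gam ?_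
    (by omega)
  · rintro d hd i hi hiL hiW hiW' ⟨a, ha, b, hb, hab, hsee⟩
    have hne : c i (κ a) ≠ c i (κ b) := by
      intro h
      have h3 := (hB.inj i hi _ (hGL.lab.lt a ha) i hi _ (hGL.lab.lt b hb) h).2
      rcases Nat.lt_trichotomy a b with h | h | h
      · have := hGL.lab.mono a b h hb
        omega
      · exact hab h
      · have := hGL.lab.mono b a h ha
        omega
    have hma := hB.mem i hi _ (hGL.lab.lt a ha)
    have hmb := hB.mem i hi _ (hGL.lab.lt b hb)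
    obtain ⟨h3, h4⟩ := hkind d hd (R i) (hB.row i hi) hiL _ hma _ hmb hne hsee
    refine ⟨h3, h4.imp_right fun h5 => ?_⟩
    have h6 := (((hOn d h5).sep (R i) (hB.row i hi) hiL _ hma _ hmb hne).1 hsee).1
    refine ⟨h5, ?_, ?_⟩
    · rw [← h6]
      exact hiW
    · rw [← h6]
      exact hiW'
  · intro x hx
    refine ⟨hY hx, ?_⟩
    rintro ⟨i, hi, hiL, b, hb, rfl⟩
    obtain ⟨a, ha, rfl⟩ := Finset.mem_image.1 hb
    exact hYL _ hiL _ (hB.mem i hi _ (hGL.lab.lt a (Finset.mem_range.1 ha))) hx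
  · have h3 : m * (ρ + (LtL m R LR).card * (2 * k) + m + u₂ + 2 * m) ≤
        mmax * (ρ + mmax * (2 * k) + mmax + κ₀ + 2 * mmax) := by
      refine Nat.mul_le_mul hm ?_
      have h4 : (LtL m R LR).card * (2 * k) ≤ mmax * (2 * k) :=
        Nat.mul_le_mul_right _ (hLm.trans hm)
      omega
    omega

/-- **The numbers.** -/
theorem kc_num {w m C L h η σ kc : ℕ} {R : ℕ → Bool × ℕ × ℕ} {LR : Set (Bool × ℕ × ℕ)}
    {Mv : Finset (Bool × ℕ × ℕ)} (hLR : LR ⊆ Seg w) (hMv : Mv.card ≤ C * (LtL m R LR).card)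
    (hkc : kc ≤ σ + (SpL m R LR (GV LR Mv)).card) (h₁ : 4 * η * σ ≤ w ^ 2)
    (h₂ : 32 * η * L * (LR.ncard + C * (LtL m R LR).card) ≤ w ^ 2) (h₃ : 4 * η ≤ h)
    (h₄ : h * {i | i < m ∧ L < {j | j < m ∧ R j = R i}.ncard}.ncard ≤ w ^ 2) :
    η * kc ≤ w ^ 2 := by
  classical
  have hfin : LR.Finite := (seg_finite w).subset hLR
  obtain ⟨A, hA⟩ : ∃ A : Finset (Bool × ℕ × ℕ), A = hfin.toFinset ∪ Mv := ⟨_, rfl⟩
  have hAc : A.card ≤ LR.ncard + C * (LtL m R LR).card := by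
    rw [hA]
    refine (Finset.card_union_le _ _).trans ?_
    rw [← Set.ncard_eq_toFinset_card LR hfin]
    omega
  obtain ⟨Vt, hVt⟩ : ∃ Vt : Finset (ℕ × ℕ), Vt = A.image segNear ∪ A.image segFar := ⟨_, rfl⟩
  have hVc : Vt.card ≤ 2 * A.card := by
    rw [hVt]
    refine (Finset.card_union_le _ _).trans ?_
    have h1 := Finset.card_image_le (s := A) (f := segNear)
    have h2 := Finset.card_image_le (s := A) (f := segFar)
    omega
  obtain ⟨Q, hQ⟩ : ∃ Q : Finset (Bool × ℕ × ℕ), Q = Vt.biUnion fun v =>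
      {(true, v.1, v.2), (false, v.1, v.2), (true, v.1 - 1, v.2), (false, v.1, v.2 - 1)} :=
    ⟨_, rfl⟩
  have hQc : Q.card ≤ 4 * Vt.card := by
    rw [hQ, Nat.mul_comm]
    exact Finset.card_biUnion_le_card_mul _ _ _ fun v _ => Finset.card_le_four
  have hQm : ∀ r, segNear r ∈ GV LR Mv ∨ segFar r ∈ GV LR Mv → r ∈ Q := by
    have hV : ∀ v ∈ GV LR Mv, v ∈ Vt := by
      rintro v (⟨r, hr, h⟩ | ⟨r, hr, h⟩)
      · have h3 : r ∈ A := by
          rw [hA]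
          exact Finset.mem_union_left _ (hfin.mem_toFinset.2 hr)
        rw [hVt]
        rcases h with rfl | rfl
        · exact Finset.mem_union_left _ (Finset.mem_image_of_mem _ h3)
        · exact Finset.mem_union_right _ (Finset.mem_image_of_mem _ h3)
      · have h3 : r ∈ A := by
          rw [hA]
          exact Finset.mem_union_right _ (Finset.mem_coe.1 hr)
        rw [hVt]
        rcases h with rfl | rfl
        · exact Finset.mem_union_left _ (Finset.mem_image_of_mem _ h3)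
        · exact Finset.mem_union_right _ (Finset.mem_image_of_mem _ h3)
    rintro ⟨b, i, j⟩ (h | h)
    · rw [hQ, Finset.mem_biUnion]
      refine ⟨_, hV _ h, ?_⟩
      cases b <;> simp [segNear]
    · rw [hQ, Finset.mem_biUnion]
      refine ⟨_, hV _ h, ?_⟩
      cases b <;> simp [segFar]
  -- labels on rows with at most `L` labels, and the others
  obtain ⟨X, hX⟩ : ∃ X : Finset ℕ, X = (SpL m R LR (GV LR Mv)).filter
      fun i => ¬ L < {j | j < m ∧ R j = R i}.ncard := ⟨_, rfl⟩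
  obtain ⟨Z, hZ⟩ : ∃ Z : Finset ℕ, Z = (SpL m R LR (GV LR Mv)).filter
      fun i => L < {j | j < m ∧ R j = R i}.ncard := ⟨_, rfl⟩
  have hXZ : (SpL m R LR (GV LR Mv)).card = Z.card + X.card := by
    rw [hX, hZ, Finset.card_filter_add_card_filter_not]
  have memS : ∀ i, i ∈ SpL m R LR (GV LR Mv) ↔
      i < m ∧ R i ∉ LR ∧ (segNear (R i) ∈ GV LR Mv ∨ segFar (R i) ∈ GV LR Mv) := by
    intro i
    unfold SpL
    rw [Finset.mem_filter, Finset.mem_range]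
  have hXc : X.card ≤ L * Q.card := by
    refine (Finset.card_le_mul_card_image (f := R) X L ?_).trans
      (Nat.mul_le_mul_left _ (Finset.card_le_card ?_))
    · intro r hr
      obtain ⟨i, hi, rfl⟩ := Finset.mem_image.1 hr
      rw [hX, Finset.mem_filter, not_lt] at hi
      refine le_trans ?_ hi.2
      rw [← Set.ncard_coe_finset]
      refine Set.ncard_le_ncard ?_ ((finite_lt_nat m).subset fun j hj => hj.1)
      intro j hj
      rw [Finset.mem_coe, Finset.mem_filter, hX, Finset.mem_filter, memS] at hj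
      exact ⟨hj.1.1.1, hj.2⟩
    · intro r hr
      obtain ⟨i, hi, rfl⟩ := Finset.mem_image.1 hr
      rw [hX, Finset.mem_filter, memS] at hi
      exact hQm _ hi.1.2.2
  have hZc : Z.card ≤ {i | i < m ∧ L < {j | j < m ∧ R j = R i}.ncard}.ncard := by
    rw [← Set.ncard_coe_finset]
    refine Set.ncard_le_ncard ?_ ((finite_lt_nat m).subset fun j hj => hj.1)
    intro i hi
    rw [hZ, Finset.mem_coe, Finset.mem_filter, memS] at hi
    exact ⟨hi.1.1, hi.2⟩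
  have e1 : 4 * η * Z.card ≤ w ^ 2 :=
    (Nat.mul_le_mul h₃ hZc).trans h₄
  have e2 : 4 * η * X.card ≤ w ^ 2 := by
    have h5 : X.card ≤ L * (8 * (LR.ncard + C * (LtL m R LR).card)) :=
      hXc.trans (Nat.mul_le_mul_left _ (by omega))
    calc 4 * η * X.card ≤ 4 * η * (L * (8 * (LR.ncard + C * (LtL m R LR).card))) :=
          Nat.mul_le_mul_left _ h5
      _ = 32 * η * L * (LR.ncard + C * (LtL m R LR).card) := by ring
      _ ≤ w ^ 2 := h₂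
  have e3 : 4 * η * kc ≤ 4 * η * (σ + (Z.card + X.card)) := by
    rw [← hXZ]
    exact Nat.mul_le_mul_left _ hkc
  have e4 : 4 * η * (σ + (Z.card + X.card)) = 4 * η * σ + 4 * η * Z.card + 4 * η * X.card := by
    ring
  have e5 : 4 * η * kc = 4 * (η * kc) := by ring
  omega

end TSH
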