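import Pool.Agent.TST.GeoH
import Pool.Agent.TST.KcLe

/-!
# T-star: the numbers of the composition of `ClaimF` (helper95)

`numH`: for wishes `η`, `Cb`, `A`, `B`, `p` there are `Df`, `h'`, `h`, `w₁` such that every system of
labels with these densities has all inequalities `NumH`: the side is larger than every polynomial in
the threshold `L'` (`pol`), the number `σ` of `pZero` is small (`sig`), the labels on `Zq` and on the
ring are few (`low`), and every set `LR` of rows which consists of these rows and of few other rows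
(of any weight) is light, with its labels (`lr`).
-/

open Set BIC BICS CWL
open scoped Matroid

namespace TSH

universe u

open Mdl Mdj EN Gad TST EN.Wall

variable {w L L' Cb h K₀ m : ℕ} {h' Df : ℕ → ℕ} {R : ℕ → Bool × ℕ × ℕ}

lemma ltl_card (Q : Set (Bool × ℕ × ℕ)) : (LtL m R Q).card = {i | i < m ∧ R i ∈ Q}.ncard := by
  classical
  rw [← Set.ncard_coe_finset]
  congr 1
  ext i
  simp [LtL]

lemma ltl_mono {Q Q' : Set (Bool × ℕ × ℕ)} (h : Q ⊆ Q') :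
    (LtL m R Q).card ≤ (LtL m R Q').card := by
  classical
  refine Finset.card_le_card fun i hi => ?_
  simp only [LtL, Finset.mem_filter] at hi ⊢
  exact ⟨hi.1, h hi.2⟩

lemma ltl_union (Q Q' : Set (Bool × ℕ × ℕ)) :
    (LtL m R (Q ∪ Q')).card ≤ (LtL m R Q).card + (LtL m R Q').card := by
  classical
  refine (Finset.card_le_card (t := LtL m R Q ∪ LtL m R Q') fun i hi => ?_).trans
    (Finset.card_union_le _ _)
  simp only [LtL, Finset.mem_filter, Finset.mem_union] at hi ⊢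
  rcases hi.2 with h1 | h1
  · exact Or.inl ⟨hi.1, h1⟩
  · exact Or.inr ⟨hi.1, h1⟩

/-- weaker densities -/
lemma Dens.mono {h₀ K : ℕ} {h₀' Df₀ : ℕ → ℕ} (hD : Dens w L L' Cb h h' K₀ Df m R) (h1 : h₀ ≤ h)
    (h2 : ∀ x, h₀' x ≤ h' x) (h3 : K ≤ K₀) (h4 : ∀ x, Df₀ x ≤ Df x) :
    Dens w L L' Cb h₀ h₀' K Df₀ m R where
  a := fun r hr => lt_of_le_of_lt (Nat.mul_le_mul_right _ (h4 _)) (hD.a r hr)
  b := hD.b
  c := by
    refine le_trans (Nat.mul_le_mul (h4 _) ?_) hD.c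
    exact Set.ncard_le_ncard (fun i hi => ⟨hi.1, layer_mono h3 hi.2⟩)
      ((Set.finite_Iio m).subset fun i hi => hi.1)
  d := le_trans (Nat.mul_le_mul_right _ h1) hD.d
  d2 := le_trans (Nat.mul_le_mul_right _ (h2 _)) hD.d2

/-- every row has a label: there are at most as many rows as labels -/
lemma rows_le_labels (cov : ∀ r ∈ Seg w, ∃ i < m, R i = r) {Q : Set (Bool × ℕ × ℕ)}
    (hQ : Q ⊆ Seg w) : Q.ncard ≤ (LtL m R Q).card := by
  classical
  have h1 : Q ⊆ (((LtL m R Q).image R : Finset (Bool × ℕ × ℕ)) : Set (Bool × ℕ × ℕ)) := by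
    intro r hr
    obtain ⟨i, hi, hR⟩ := cov r (hQ hr)
    rw [Finset.coe_image]
    refine ⟨i, ?_, hR⟩
    simp only [LtL, Finset.coe_filter, Finset.mem_range, Set.mem_ofPred_eq]
    exact ⟨hi, hR ▸ hr⟩
  refine (Set.ncard_le_ncard h1 (Finset.finite_toSet _)).trans ?_
  rw [Set.ncard_coe_finset]
  exact Finset.card_image_le

/-- the side is larger than every wished function of `L'` -/
lemma Dens.lt_sq (hD : Dens w L L' Cb h h' K₀ Df m R) (cov : ∀ r ∈ Seg w, ∃ i < m, R i = r)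
    (hw : 1 ≤ w) : Df L' < w ^ 2 := by
  have hr : ((false, 0, 0) : Bool × ℕ × ℕ) ∈ Seg w := Or.inr ⟨rfl, Nat.zero_le _, hw, rfl⟩
  obtain ⟨i, hi, hR⟩ := cov _ hr
  refine lt_of_le_of_lt ?_ (hD.a _ hr)
  refine Nat.le_mul_of_pos_right _ ?_
  rw [Set.ncard_pos ((Set.finite_Iio m).subset fun i hi => hi.1)]
  exact ⟨i, hi, hR⟩

/-- the labels on few rows of any weight -/
lemma Dens.labels_any (hD : Dens w L L' Cb h h' K₀ Df m R) {E : Set (Bool × ℕ × ℕ)}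
    (fE : E.Finite) : h' L * (LtL m R E).card ≤ h' L * (L' * E.ncard) + w ^ 2 := by
  classical
  obtain ⟨V, hV⟩ : ∃ V : Set ℕ, V = {i | i < m ∧ L' < {j | j < m ∧ R j = R i}.ncard} := ⟨_, rfl⟩
  have fV : V.Finite := by
    rw [hV]
    exact (Set.finite_Iio m).subset fun i hi => hi.1
  obtain ⟨E', hE'⟩ : ∃ E' : Set (Bool × ℕ × ℕ),
      E' = {r | r ∈ E ∧ {j | j < m ∧ R j = r}.ncard ≤ L'} := ⟨_, rfl⟩
  have fE' : E'.Finite := by
    rw [hE']
    exact fE.subset fun r hr => hr.1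
  have hf : ∀ s, {i | i < m ∧ R i = s}.Finite := fun s =>
    (Set.finite_Iio m).subset fun i hi => hi.1
  have h1 : {i | i < m ∧ R i ∈ E} ⊆ V ∪ ⋃ s ∈ fE'.toFinset, {i | i < m ∧ R i = s} := by
    rintro i ⟨hi, hR⟩
    by_cases h2 : L' < {j | j < m ∧ R j = R i}.ncard
    · left
      rw [hV]
      exact ⟨hi, h2⟩
    · right
      simp only [mem_iUnion]
      refine ⟨R i, ?_, hi, rfl⟩
      rw [fE'.mem_toFinset, hE']
      exact ⟨hR, not_lt.1 h2⟩
  have fU : (⋃ s ∈ fE'.toFinset, {i | i < m ∧ R i = s}).Finite :=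
    Set.Finite.biUnion (Finset.finite_toSet _) fun s _ => hf s
  have h2 : (⋃ s ∈ fE'.toFinset, {i | i < m ∧ R i = s}).ncard ≤ L' * E.ncard := by
    refine (Finset.set_ncard_biUnion_le _ _).trans ?_
    have h3 : ∑ s ∈ fE'.toFinset, {i | i < m ∧ R i = s}.ncard ≤ ∑ s ∈ fE'.toFinset, L' := by
      refine Finset.sum_le_sum fun s hs => ?_
      rw [fE'.mem_toFinset, hE'] at hs
      exact hs.2
    refine h3.trans ?_
    rw [Finset.sum_const, smul_eq_mul, mul_comm, ← Set.ncard_eq_toFinset_card E' fE']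
    refine Nat.mul_le_mul_left _ (Set.ncard_le_ncard ?_ fE)
    rw [hE']
    exact fun r hr => hr.1
  have h3 : (LtL m R E).card ≤ V.ncard + L' * E.ncard := by
    rw [ltl_card]
    refine (Set.ncard_le_ncard h1 (fV.union fU)).trans ((Set.ncard_union_le _ _).trans ?_)
    omega
  have h4 : h' L * V.ncard ≤ w ^ 2 := by
    rw [hV]
    exact hD.d2
  calc h' L * (LtL m R E).card ≤ h' L * (V.ncard + L' * E.ncard) := Nat.mul_le_mul_left _ h3
    _ = h' L * V.ncard + h' L * (L' * E.ncard) := by ring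
    _ ≤ h' L * (L' * E.ncard) + w ^ 2 := by omega

/-- **The numbers.**  `d` = `Df L'`; `A`, `B`, `p` at wish. -/
structure NumH (η Cb A B p w L L' h d m : ℕ) (R : ℕ → Bool × ℕ × ℕ) : Prop where
  /-- the side is large -/
  pol : B * (L' + 1) ^ p ≤ w
  hh : 4 * η ≤ h
  /-- `σ` of `pZero` (with additive constants in `A`) -/
  sig : ∀ t, 1 ≤ t → 16 * η * Cb ≤ t → 4 * η * (A + 2 * (m / t)) ≤ w ^ 2
  /-- the labels on `Zq` and on the ring -/
  low : ∀ Q : Set (Bool × ℕ × ℕ), d * (LtL m R Q).card ≤ A * w ^ 2 →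
    B * (L' + 1) ^ p * (LtL m R Q).card ≤ w ^ 2
  /-- the rows of `LR`, and their labels: `Q` = `Zq` and the ring, `E` = few other rows, of any
  weight -/
  lr : ∀ Q : Set (Bool × ℕ × ℕ), d * (LtL m R Q).card ≤ A * w ^ 2 →
    ∀ E : Set (Bool × ℕ × ℕ), E.Finite → E.ncard ≤ A * (L' + 1) ^ p * (w + (LtL m R Q).card) →
    ∀ LR : Set (Bool × ℕ × ℕ), LR ⊆ Seg w → LR ⊆ Q ∪ E →
      B * (L + 1) * (LR.ncard + (LtL m R LR).card) ≤ w ^ 2

/-- **The choice of the constants.** -/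
theorem numH (η Cb A B p : ℕ) : ∃ (Df h' : ℕ → ℕ) (h w₁ : ℕ), ∀ (w L L' K₀ m : ℕ)
    (R : ℕ → Bool × ℕ × ℕ), w₁ ≤ w → L ≤ L' → (∀ r ∈ Seg w, ∃ i < m, R i = r) →
    Dens w L L' Cb h h' K₀ Df m R → NumH η Cb A B p w L L' h (Df L') m R := by
  refine ⟨fun x => (A + 1) * (8 * (A + 1) * (B + 1) * (x + 1) ^ (p + 2)) ^ 2,
    fun x => 8 * B * (x + 1), 4 * η, 8 * η * A + 1, ?_⟩
  intro w L L' K₀ m R hw hL cov hD
  obtain ⟨G, hG⟩ : ∃ G : ℕ, G = 8 * (A + 1) * (B + 1) * (L' + 1) ^ (p + 2) := ⟨_, rfl⟩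
  have hy : 1 ≤ (L' + 1) ^ (p + 2) := Nat.one_le_pow _ _ (by omega)
  have hpp : (L' + 1) ^ p ≤ (L' + 1) ^ (p + 2) := Nat.pow_le_pow_right (by omega) (by omega)
  have hG1 : 1 ≤ G := by
    rw [hG]
    exact Nat.mul_pos (Nat.mul_pos (by omega) (by omega)) hy
  have hDf : (A + 1) * G ^ 2 < w ^ 2 := by
    have h1 := hD.lt_sq cov (by omega)
    rw [hG]
    exact h1
  have hGw : G < w := by
    have h1 : G ^ 2 < w ^ 2 := lt_of_le_of_lt (Nat.le_mul_of_pos_left _ (by omega)) hDf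
    exact lt_of_pow_lt_pow_left₀ 2 (by omega) h1
  have hBG : ∀ q ≤ p + 2, 8 * (A + 1) * B * (L' + 1) ^ q ≤ G := by
    intro q hq
    rw [hG]
    refine Nat.mul_le_mul (Nat.mul_le_mul_left _ (by omega)) ?_
    exact Nat.pow_le_pow_right (by omega) hq
  have hlow : ∀ Q : Set (Bool × ℕ × ℕ), (A + 1) * G ^ 2 * (LtL m R Q).card ≤ A * w ^ 2 →
      G * (LtL m R Q).card ≤ w ^ 2 := by
    intro Q hQ
    have h1 : (A + 1) * (G ^ 2 * (LtL m R Q).card) ≤ (A + 1) * w ^ 2 := by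
      rw [← mul_assoc]
      exact hQ.trans (Nat.mul_le_mul_right _ (by omega))
    have h2 : G ^ 2 * (LtL m R Q).card ≤ w ^ 2 := Nat.le_of_mul_le_mul_left h1 (by omega)
    refine le_trans (Nat.mul_le_mul_right _ ?_) h2
    rw [pow_two]
    exact Nat.le_mul_of_pos_left _ hG1
  refine ⟨?_, le_rfl, ?_, ?_, ?_⟩
  · refine le_trans ?_ hGw.le
    refine le_trans ?_ (hBG p (by omega))
    rw [mul_assoc (8 * (A + 1))]
    exact Nat.le_mul_of_pos_left _ (by omega)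
  · intro t ht1 ht
    have hw2 : w ≤ w ^ 2 := Nat.le_self_pow (by omega) w
    have h1 : 16 * η * (m / t) ≤ w ^ 2 := by
      rcases Nat.eq_zero_or_pos Cb with hC | hC
      · have h2 := hD.b
        rw [hC, Nat.zero_mul] at h2
        have h3 : m = 0 := by omega
        rw [h3]
        simp
      · have h2 : t * (m / t) ≤ m := Nat.mul_div_le m t
        have h3 : Cb * (16 * η * (m / t)) ≤ Cb * w ^ 2 := by
          calc Cb * (16 * η * (m / t)) = 16 * η * Cb * (m / t) := by ring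
            _ ≤ t * (m / t) := Nat.mul_le_mul_right _ ht
            _ ≤ m := h2
            _ ≤ Cb * w ^ 2 := hD.b
        exact Nat.le_of_mul_le_mul_left h3 hC
    have h2 : 2 * (4 * η * (A + 2 * (m / t))) = 8 * η * A + 16 * η * (m / t) := by ring
    omega
  · intro Q hQ
    replace hQ : (A + 1) * G ^ 2 * (LtL m R Q).card ≤ A * w ^ 2 := by rw [hG]; exact hQ
    refine le_trans (Nat.mul_le_mul_right _ ?_) (hlow Q hQ)
    refine le_trans ?_ (hBG p (by omega))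
    rw [mul_assoc (8 * (A + 1))]
    exact Nat.le_mul_of_pos_left _ (by omega)
  · intro Q hQ E fE hE LR hLw hLR
    replace hQ : (A + 1) * G ^ 2 * (LtL m R Q).card ≤ A * w ^ 2 := by rw [hG]; exact hQ
    obtain ⟨X, hX⟩ : ∃ X : ℕ, X = (LtL m R Q).card := ⟨_, rfl⟩
    obtain ⟨XE, hXE⟩ : ∃ XE : ℕ, XE = (LtL m R E).card := ⟨_, rfl⟩
    obtain ⟨XL, hXL⟩ : ∃ XL : ℕ, XL = (LtL m R LR).card := ⟨_, rfl⟩
    have h0 : G * X ≤ w ^ 2 := by
      rw [hX]
      exact hlow Q hQ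
    have h1 : XL ≤ X + XE := by
      rw [hX, hXE, hXL]
      exact (ltl_mono hLR).trans (ltl_union _ _)
    have h2 : LR.ncard ≤ XL := by
      rw [hXL]
      exact rows_le_labels cov hLw
    have h3 : 8 * B * (L + 1) * XE ≤ 8 * B * (L + 1) * (L' * E.ncard) + w ^ 2 := by
      rw [hXE]
      exact hD.labels_any fE
    have h4 : 8 * B * (L + 1) * (L' * E.ncard) ≤
        8 * B * (L' + 1) * ((L' + 1) * (A * (L' + 1) ^ p * (w + X))) := by
      refine Nat.mul_le_mul (Nat.mul_le_mul_left _ (by omega)) (Nat.mul_le_mul (by omega) ?_)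
      rw [hX]
      exact hE
    have h5 : 8 * B * (L' + 1) * ((L' + 1) * (A * (L' + 1) ^ p * (w + X))) =
        8 * A * B * (L' + 1) ^ (p + 2) * w + 8 * A * B * (L' + 1) ^ (p + 2) * X := by
      ring
    have h6 : 8 * A * B * (L' + 1) ^ (p + 2) * w ≤ w ^ 2 := by
      rw [pow_two]
      refine Nat.mul_le_mul_right _ (le_trans ?_ hGw.le)
      refine le_trans ?_ (hBG (p + 2) le_rfl)
      refine Nat.mul_le_mul_right _ (Nat.mul_le_mul_right _ (by omega))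
    have h7 : 8 * B * (L + 1) * X + 8 * A * B * (L' + 1) ^ (p + 2) * X ≤ w ^ 2 := by
      refine le_trans ?_ h0
      rw [← Nat.add_mul]
      refine Nat.mul_le_mul_right _ ?_
      refine le_trans ?_ (hBG (p + 2) le_rfl)
      have h8 : 8 * B * (L + 1) ≤ 8 * B * (L' + 1) ^ (p + 2) := by
        refine Nat.mul_le_mul_left _ (le_trans (by omega : L + 1 ≤ L' + 1) ?_)
        exact Nat.le_self_pow (by omega) _
      calc 8 * B * (L + 1) + 8 * A * B * (L' + 1) ^ (p + 2)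
          ≤ 8 * B * (L' + 1) ^ (p + 2) + 8 * A * B * (L' + 1) ^ (p + 2) := by omega
        _ = 8 * (A + 1) * B * (L' + 1) ^ (p + 2) := by ring
    have h8 : 8 * B * (L + 1) * XL ≤ 8 * B * (L + 1) * X + 8 * B * (L + 1) * XE := by
      rw [← Nat.mul_add]
      exact Nat.mul_le_mul_left _ h1
    have h9 : 4 * (B * (L + 1) * (LR.ncard + XL)) ≤ 8 * B * (L + 1) * XL := by
      calc 4 * (B * (L + 1) * (LR.ncard + XL)) ≤ 4 * (B * (L + 1) * (XL + XL)) :=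
            Nat.mul_le_mul_left _ (Nat.mul_le_mul_left _ (by omega))
        _ = 8 * B * (L + 1) * XL := by ring
    rw [← hXL]
    omega

section

variable {η A B p d C r n a n₀ s : ℕ} {F : ℕ → ℕ}

/-- the light rows of `HonOut` -/
theorem NumH.light (hN : NumH η Cb A B p w L L' h d m R) (hB : η ≤ B)
    {Q E LR : Set (Bool × ℕ × ℕ)} (hQ : d * (LtL m R Q).card ≤ A * w ^ 2) (fE : E.Finite)
    (hE : E.ncard ≤ A * (L' + 1) ^ p * (w + (LtL m R Q).card)) (hLw : LR ⊆ Seg w)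
    (hLR : LR ⊆ Q ∪ E) : η * LR.ncard ≤ w ^ 2 := by
  refine le_trans ?_ (hN.lr Q hQ E fE hE LR hLw hLR)
  refine Nat.mul_le_mul (hB.trans (Nat.le_mul_of_pos_right _ (by omega))) (by omega)

/-- **The number of classes** (`kc_le` of `KcLe` with `σ` of `pZero`). -/
theorem NumH.kc (hN : NumH η Cb A B p w L L' h d m R) (hB : 32 * η * (C + 1) ≤ B)
    (hd : h * {i | i < m ∧ L < {j | j < m ∧ R j = R i}.ncard}.ncard ≤ w ^ 2)
    {Q E LR : Set (Bool × ℕ × ℕ)} (hQ : d * (LtL m R Q).card ≤ A * w ^ 2) (fE : E.Finite)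
    (hE : E.ncard ≤ A * (L' + 1) ^ p * (w + (LtL m R Q).card)) (hLw : LR ⊆ Seg w)
    (hLR : LR ⊆ Q ∪ E) {t σ₂ kc : ℕ} {Mv : Finset (Bool × ℕ × ℕ)} (ht : 1 ≤ t)
    (ht' : 16 * η * Cb ≤ t) (hσ : 2 * σ₂ + 4 ≤ A) (hMv : Mv.card ≤ C * (LtL m R LR).card)
    (hkc : kc ≤ 2 * σ₂ + 2 * (m / t) + 3 + 1 + (SpL m R LR (GV LR Mv)).card) :
    η * kc ≤ w ^ 2 := by
  refine kc_num (C := C) (L := L) (h := h) hLw hMv hkc ?_ ?_ hN.hh hd
  · refine le_trans ?_ (hN.sig t ht ht')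
    exact Nat.mul_le_mul_left _ (by omega)
  · refine le_trans ?_ (hN.lr Q hQ E fE hE LR hLw hLR)
    obtain ⟨x, hx⟩ : ∃ x : ℕ, x = LR.ncard := ⟨_, rfl⟩
    obtain ⟨y, hy⟩ : ∃ y : ℕ, y = (LtL m R LR).card := ⟨_, rfl⟩
    rw [← hx, ← hy]
    calc 32 * η * L * (x + C * y) ≤ 32 * η * L * ((C + 1) * (x + y)) := by
          refine Nat.mul_le_mul_left _ ?_
          nlinarith [Nat.zero_le (C * x), Nat.zero_le y]
      _ = 32 * η * (C + 1) * L * (x + y) := by ring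
      _ ≤ B * (L + 1) * (x + y) :=
          Nat.mul_le_mul_right _ (Nat.mul_le_mul hB (by omega))

end

section

variable {η r C n a n₀ s d : ℕ} {F : ℕ → ℕ} {P : Finset (ℕ × ℕ)} {LR₀ Zq LR : Set (Bool × ℕ × ℕ)}

private lemma tiles_sub_cores95 {s : ℕ} {𝒯 : Finset (ℕ × ℕ)} : tiles s 𝒯 ⊆ cores s 𝒯 := by
  rintro σ ⟨t, ht, σ', hσ', rfl⟩
  refine ⟨t, ht, σ', ?_, rfl⟩
  revert hσ'
  rcases σ' with ⟨b, i, j⟩
  intro h
  cases b
  · rw [mem_core_f]
    simp [Seg] at h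
    omega
  · rw [mem_core_t]
    simp [Seg] at h
    omega

/-- the rows of `Zq` and of the ring -/
def ZR (w a n₀ : ℕ) (Zq : Set (Bool × ℕ × ℕ)) : Set (Bool × ℕ × ℕ) :=
  {s | s ∈ Seg w ∧ (s ∈ Zq ∨ ¬ (segNear s ∈ Box a n₀ ∧ segFar s ∈ Box a n₀))}

/-- other light rows `E` in the place of `LR₀` -/
theorem ZqOut.enlarge (hZ : ZqOut w r C η F P LR₀ a n₀ Zq LR) {E : Set (Bool × ℕ × ℕ)}
    (hE : E ⊆ Seg w) (hl : η * (ZR w a n₀ Zq ∪ E).ncard ≤ w ^ 2) :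
    ZqOut w r C η F P E a n₀ Zq (ZR w a n₀ Zq ∪ E) where
  wall := hZ.wall
  le_a := hZ.le_a
  le_w := hZ.le_w
  Zq_sub := fun _ hs => Or.inl ⟨hZ.LR_sub (hZ.Zq_sub hs), Or.inl hs⟩
  LR_sub := union_subset (fun _ hs => hs.1) hE
  LR₀_sub := subset_union_right
  Zq_box := hZ.Zq_box
  ring := fun _ hs h => Or.inl ⟨hs, Or.inr h⟩
  ne := hZ.ne
  few := hZ.few
  few' := hZ.few'
  light := hl
  geo := hZ.geo
  big := hZ.big
  near := hZ.near
  out := hZ.out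
  nb := hZ.nb
  lay := hZ.lay
  sq := hZ.sq

/-- other light rows `E` in the place of `LR₀` -/
theorem GeoH.enlarge {α : Type u} {M : Matroid α} {𝒯 : Finset (ℕ × ℕ)}
    {L₁ : Bool × ℕ × ℕ → List α} {f₁ : α → Sym2 ((ℕ × ℕ) ⊕ α)} {e₂ : Bool × ℕ × ℕ → α}
    {τ : ℕ → ℕ × ℕ} {Za : Finset (Bool × ℕ × ℕ)}
    (hG : GeoH M w s 𝒯 L₁ f₁ e₂ n τ r C η F P Za LR₀ a n₀ Zq LR)
    (hanc : ∀ σ ∈ cores s 𝒯, ∀ r ∈ Seg w, e₂ σ ∈ L₁ r → r ∈ Za) {E : Set (Bool × ℕ × ℕ)}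
    (hE : E ⊆ Seg w) (hl : η * (ZR w a n₀ Zq ∪ E).ncard ≤ w ^ 2) :
    GeoH M w s 𝒯 L₁ f₁ e₂ n τ r C η F P Za E a n₀ Zq (ZR w a n₀ Zq ∪ E) where
  wall := hG.wall
  le_a := hG.le_a
  le_w := hG.le_w
  Zq_sub := fun _ hs => Or.inl ⟨hG.LR_sub (hG.Zq_sub hs), Or.inl hs⟩
  LR_sub := union_subset (fun _ hs => hs.1) hE
  LR₀_sub := subset_union_right
  Zq_box := hG.Zq_box
  ring := fun _ hs h => Or.inl ⟨hs, Or.inr h⟩
  ne := hG.ne
  few := hG.few
  few' := hG.few'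
  light := hl
  geo := hG.geo
  kill := hG.kill
  big := hG.big
  anchor := hG.anchor
  anchor' := by
    intro σ hσ r hr hx
    exact Or.inl ⟨hr, Or.inl (hG.Za_sub r (hanc σ (tiles_sub_cores95 hσ) r hr hx) hr)⟩
  near := hG.near
  out := hG.out
  nb := hG.nb
  Za_sub := hG.Za_sub
  lay := hG.lay
  sq := hG.sq

/-- the labels on `Zq` and on the ring: hypothesis `hQ` of `NumH.lr` for `Q = ZR w a n₀ Zq` -/
theorem GeoH.zr {α : Type u} {M : Matroid α} {𝒯 : Finset (ℕ × ℕ)}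
    {L₁ : Bool × ℕ × ℕ → List α} {f₁ : α → Sym2 ((ℕ × ℕ) ⊕ α)} {e₂ : Bool × ℕ × ℕ → α}
    {τ : ℕ → ℕ × ℕ} {Za : Finset (Bool × ℕ × ℕ)}
    (hG : GeoH M w s 𝒯 L₁ f₁ e₂ n τ r C η F P Za LR₀ a n₀ Zq LR)
    (hD : Dens w L L' Cb h h' K₀ Df m R) (hK : C ≤ K₀) {A : ℕ} (hA : C + 1 ≤ A) :
    Df L' * (LtL m R (ZR w a n₀ Zq)).card ≤ A * w ^ 2 := by
  rw [ltl_card]
  exact (hG.labels hD.a hD.c hK).trans (Nat.mul_le_mul_right _ hA)

end

end TSH
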