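import Pool.Agent.TST.PZero
import Pool.Agent.TST.HonMake
import Pool.Agent.TST.KcLe
import Pool.Agent.TST.NumH95
import Pool.Agent.DA.Geo2

/-!
# T-star: the composition of Claim F (definitions)

`GSys`: the system after P0 and after the two rounds of IN0, IN1, IN2.  `gSys`: from a label system.
`LabRow`: facts for the label level and the label level (rows R5, R6).  `LiftRow`: LIFT (row R8).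
-/

open Set BIC BICS CWL
open scoped Matroid

namespace TSH

universe u

open Mdl Mdj EN Gad TST EN.Wall

/-- **System after P0 and the two rounds.** -/
structure GSys {α : Type u} (M : Matroid α) (w s : ℕ) (𝒯 : Finset (ℕ × ℕ))
    (L₁ : Bool × ℕ × ℕ → List α) (f₁ : α → Sym2 ((ℕ × ℕ) ⊕ α)) (e₁ : Bool × ℕ × ℕ → α) (u₁ : ℕ)
    (L₂ : Bool × ℕ × ℕ → List α) (f₂ : α → Sym2 ((ℕ × ℕ) ⊕ α)) (e₂ : Bool × ℕ × ℕ → α) (u₂ : ℕ)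
    (D : Set α) (σ n m : ℕ) (τ : ℕ → ℕ × ℕ) (R : ℕ → Bool × ℕ × ℕ) (c : ℕ → ℕ → α)
    (Za : Finset (Bool × ℕ × ℕ)) (row : α → Sym2 (ℕ × ℕ)) (β D₀ δ₀ D₁ δ₁ : ℕ)
    (Hm Hs₀ Om₁ Hs₁ Om₂ : Finset (ℕ × ℕ)) : Prop where
  b : BSys M w s 𝒯 L₁ f₁ e₁ u₁ L₂ f₂ e₂ u₂ D σ n m τ R c Za
  /-- every row has a label -/
  cov : ∀ r ∈ Seg w, ∃ i < m, R i = r
  /-- all rows (also the rows of `Za`) consist of the anchor and of labels -/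
  all : ∀ r ∈ Seg w, ∀ x ∈ L₁ r, x = e₁ r ∨ ∃ i < m, ∃ b < n, R i = r ∧ x = c i b
  rw : ∀ r ∈ Seg w, ∀ x ∈ L₁ r, row x = DA.srow r
  supp : DA.Supp M (crr L₁ (Seg w)) row w β D₀ D
  rnd : DA.Rnd M (crr L₁ (Seg w)) row w D β D₀ δ₀ D₁ δ₁ Hm Hs₀ Om₁ Hs₁ Om₂
  hβ : 4 ≤ β

/-- **Two own vertices**: all regular locations of `z` are in a set `N` of at most 8 vertices which
avoids `Bd`, and for one choice of representatives there are two of them. -/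
def TwoB {α : Type u} (M : Matroid α) (S : Set α) (row : α → Sym2 (ℕ × ℕ)) (w D₀ : ℕ)
    (Hs₀ : Finset (ℕ × ℕ)) (Bd : Set (ℕ × ℕ)) (z : α) : Prop :=
  (∃ N : Finset (ℕ × ℕ), N.card ≤ 8 ∧ (∀ v ∈ N, v ∉ Bd) ∧ ∀ c₀, c₀ ⊆ S → DA.WallE c₀ row w ∅ →
    ∀ v ∈ DA.LocR M S row c₀ z, DA.RegV w D₀ Hs₀ v → v ∈ N) ∧
  ∃ c₀, c₀ ⊆ S ∧ DA.WallE c₀ row w ∅ ∧ ∃ v v', v ≠ v' ∧
    v ∈ DA.LocR M S row c₀ z ∧ DA.RegV w D₀ Hs₀ v ∧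
    v' ∈ DA.LocR M S row c₀ z ∧ DA.RegV w D₀ Hs₀ v'

/-- **The kinds of the elements of `D`** for a set `LR` of light rows (`Zr` = rows near the exceptional
points, outer ring and the rows which leave the inner square or touch `Zq`, `Bd` = bad vertices):
`G` = elements with exactly one visible place, `Dg` = good elements. -/
structure LabM {α : Type u} (M : Matroid α) (w : ℕ) (L₁ : Bool × ℕ × ℕ → List α) (D : Set α)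
    (row : α → Sym2 (ℕ × ℕ)) (D₀ : ℕ) (Hs₀ : Finset (ℕ × ℕ)) (Bd : Set (ℕ × ℕ))
    (Zr LR : Set (Bool × ℕ × ℕ)) (Dg G : Set α) (r₀ : α → Bool × ℕ × ℕ) (A₀ : α → Set α) :
    Prop where
  G_D : G ⊆ D
  /-- one visible place -/
  one : ∀ z ∈ G, OnP M w L₁ LR z (r₀ z) (A₀ z)
  /-- every element which sees a visible row far from the rows of `LR` is good, and it has two own
  vertices and sees no row of `LR` outside of `Zr`, or it has exactly one visible place -/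
  kind : ∀ d ∈ D, ∀ r ∈ Seg w, r ∉ LR → segNear r ∉ VV LR → segFar r ∉ VV LR →
    ∀ x ∈ L₁ r, ∀ y ∈ L₁ r, x ≠ y → Sees M (crr L₁ (Seg w)) d x y →
      d ∈ Dg ∧ ((TwoB M (crr L₁ (Seg w)) row w D₀ Hs₀ Bd d ∧
        ∀ r' ∈ LR, r' ∉ Zr → ∀ x' ∈ L₁ r', ∀ y' ∈ L₁ r', x' ≠ y' →
          ¬ Sees M (crr L₁ (Seg w)) d x' y') ∨ d ∈ G)

/-- **Output of the label level in `M`**: the chosen rungs `T` come with their places `pr`, `pa`. -/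
structure LabT {α : Type u} (M : Matroid α) (w : ℕ) (L₁ : Bool × ℕ × ℕ → List α) (D : Set α)
    (row : α → Sym2 (ℕ × ℕ)) (D₀ : ℕ) (Hs₀ : Finset (ℕ × ℕ)) (Bd : Set (ℕ × ℕ))
    (Zq LR : Set (Bool × ℕ × ℕ)) (Dg : Set α) (m n N : ℕ) (R : ℕ → Bool × ℕ × ℕ) (c : ℕ → ℕ → α)
    (κ : ℕ → ℕ) (T : Set α) (pr : α → Bool → Bool × ℕ × ℕ) (pa : α → Bool → Set α)
    (kc : ℕ) (cls : ℕ → ℕ) (pv : Set ℕ) : Prop where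
  T_D : T ⊆ D
  /-- rungs have two own vertices -/
  two : ∀ t ∈ T, TwoB M (crr L₁ (Seg w)) row w D₀ Hs₀ Bd t
  /-- the places of the rungs -/
  rg : RgFacts M w L₁ Zq LR T pr pa
  lab : LabOut (Seg w \ LR) segNear segFar (Sees M (crr L₁ (Seg w))) Dg T pr pa m n N R c κ T
    kc cls pv

/-- **Rows R5, R6: the label level of a system.** -/
def LabRow (β D₀ δ₀ D₁ δ₁ : ℕ) : Prop :=
  ∀ mmax n : ℕ, ∃ R₁ : ℕ, ∀ {α : Type u} (M : Matroid α) [M.Finite] (w s : ℕ)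
    (𝒯 : Finset (ℕ × ℕ)) (L₁ : Bool × ℕ × ℕ → List α) (f₁ : α → Sym2 ((ℕ × ℕ) ⊕ α))
    (e₁ : Bool × ℕ × ℕ → α) (u₁ : ℕ) (L₂ : Bool × ℕ × ℕ → List α)
    (f₂ : α → Sym2 ((ℕ × ℕ) ⊕ α)) (e₂ : Bool × ℕ × ℕ → α) (u₂ : ℕ) (D : Set α) (σ N m : ℕ)
    (τ : ℕ → ℕ × ℕ) (R : ℕ → Bool × ℕ × ℕ) (c : ℕ → ℕ → α) (Za : Finset (Bool × ℕ × ℕ))
    (row : α → Sym2 (ℕ × ℕ)) (Hm Hs₀ Om₁ Hs₁ Om₂ : Finset (ℕ × ℕ)),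
    m ≤ mmax →
    GSys M w s 𝒯 L₁ f₁ e₁ u₁ L₂ f₂ e₂ u₂ D σ N m τ R c Za row β D₀ δ₀ D₁ δ₁ Hm Hs₀ Om₁ Hs₁ Om₂ →
    ∀ (Bd : Set (ℕ × ℕ)) (Zq Zr LR : Set (Bool × ℕ × ℕ)), Zq ⊆ Zr → Zr ⊆ LR → LR ⊆ Seg w →
    GeoZ w Zq →
    -- all rows outside of `Zq` are far from the exceptional points and deep
    (∀ r ∈ Seg w, r ∉ Zq →
      DA.OutW (δ₁ + 60) w Om₂ (segNear r) ∧ DA.OutW (δ₁ + 60) w Om₂ (segFar r)) →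
    -- the rows which touch `Zq`
    (∀ r ∈ Seg w, segNear r ∈ VV Zq ∨ segFar r ∈ VV Zq → r ∈ Zr) →
    (∀ r ∈ Seg w, ∀ v ∈ Bd, DA.sd (segNear r) v ≤ 3 ∨ DA.sd (segFar r) v ≤ 3 → r ∈ LR) →
    ∃ (Dg G : Set α) (r₀ : α → Bool × ℕ × ℕ) (A₀ : α → Set α),
      LabM M w L₁ D row D₀ Hs₀ Bd Zr LR Dg G r₀ A₀ ∧
      ∀ T' ⊆ Finset.range N, R₁ ≤ T'.card →
        ∃ (κ : ℕ → ℕ) (T : Set α) (pr : α → Bool → Bool × ℕ × ℕ) (pa : α → Bool → Set α) (kc : ℕ)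
          (cls : ℕ → ℕ) (pv : Set ℕ), (∀ b < n, κ b ∈ T') ∧
          LabT M w L₁ D row D₀ Hs₀ Bd Zq LR Dg m n N R c κ T pr pa kc cls pv

/-- the conflicts of the tiles which are not in `I` on the rows of `Q` -/
def UnI {α : Type u} (m N : ℕ) (R : ℕ → Bool × ℕ × ℕ) (c : ℕ → ℕ → α) (I : Finset ℕ)
    (Q : Set (Bool × ℕ × ℕ)) : Set α :=
  {x | ∃ i < m, R i ∈ Q ∧ ∃ b < N, b ∉ I ∧ x = c i b}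

/-- the rows of `Zq` and of the ring, and the rows which touch `Zq` -/
def ZT (w a n₀ : ℕ) (Zq : Set (Bool × ℕ × ℕ)) : Set (Bool × ℕ × ℕ) :=
  ZR w a n₀ Zq ∪ {r | r ∈ Seg w ∧ (segNear r ∈ VV Zq ∨ segFar r ∈ VV Zq)}

/-- **Conclusion of LIFT** for the tiles `I` and the bad vertices `Bd`: `X` contains the conflicts of the
tiles which are not in `I` on the rows of `Zr` (= `ZT`), and all rows outside of `Zr`.  Both uses are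
of this form: `X` = `SA` and unused conflicts (field `lift` of `HonOut`), and `X` = the rows without the
conflicts of the tiles `I` on the rows of `Zr` (count). -/
def LiftI {α : Type u} (M : Matroid α) (w : ℕ) (L₁ : Bool × ℕ × ℕ → List α) (D : Set α)
    (N m : ℕ) (R : ℕ → Bool × ℕ × ℕ) (c : ℕ → ℕ → α) (row : α → Sym2 (ℕ × ℕ)) (D₀ : ℕ)
    (Hs₀ : Finset (ℕ × ℕ)) (Zr : Set (Bool × ℕ × ℕ)) (I : Finset ℕ) (Bd : Set (ℕ × ℕ))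
    (ρ : ℕ) : Prop :=
  ∀ X ⊆ crr L₁ (Seg w), UnI m N R c I Zr ⊆ X →
    (∀ r ∈ Seg w, r ∉ Zr → ∀ x ∈ L₁ r, x ∈ X) →
    ∀ T ⊆ D, (∀ z ∈ T, TwoB M (crr L₁ (Seg w)) row w D₀ Hs₀ Bd z) →
      rk M (T ∪ X) ≤ rk M X + ρ

/-- **Row R8: LIFT.**  `ρ` is absolute; `p` = number of points, `r` = radius, `C` = constant of the
geometry; `A` bounds the number of bad vertices. -/
def LiftRow (k κ ρ : ℕ) : Prop :=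
  ∀ (β D₀ δ₀ D₁ δ₁ p : ℕ), ∃ r₀ : ℕ, ∀ r ≥ r₀, ∀ C : ℕ, ∃ A w₁ : ℕ, ∀ wmax mmax n : ℕ, ∃ R₀ : ℕ,
    ∀ {α : Type u} (M : Matroid α) [M.Finite] (w s : ℕ)
    (𝒯 : Finset (ℕ × ℕ)) (L₁ : Bool × ℕ × ℕ → List α) (f₁ : α → Sym2 ((ℕ × ℕ) ⊕ α))
    (e₁ : Bool × ℕ × ℕ → α) (u₁ : ℕ) (L₂ : Bool × ℕ × ℕ → List α)
    (f₂ : α → Sym2 ((ℕ × ℕ) ⊕ α)) (e₂ : Bool × ℕ × ℕ → α) (u₂ : ℕ) (D : Set α) (σ N m : ℕ)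
    (τ : ℕ → ℕ × ℕ) (R : ℕ → Bool × ℕ × ℕ) (c : ℕ → ℕ → α) (Za : Finset (Bool × ℕ × ℕ))
    (row : α → Sym2 (ℕ × ℕ)) (Hm Hs₀ Om₁ Hs₁ Om₂ : Finset (ℕ × ℕ)) (η : ℕ) (F : ℕ → ℕ)
    (P : Finset (ℕ × ℕ)) (LR₀ : Set (Bool × ℕ × ℕ)) (a n₀ : ℕ) (Zq LR : Set (Bool × ℕ × ℕ)),
    w₁ ≤ w → w ≤ wmax → m ≤ mmax → u₁ ≤ κ → Om₂.card ≤ p → P.card ≤ p → Om₂ ⊆ P →
    GSys M w s 𝒯 L₁ f₁ e₁ u₁ L₂ f₂ e₂ u₂ D σ N m τ R c Za row β D₀ δ₀ D₁ δ₁ Hm Hs₀ Om₁ Hs₁ Om₂ →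
    GeoH M w s 𝒯 L₁ f₁ e₂ N τ r C η F P Za LR₀ a n₀ Zq LR →
    ∀ Tl ⊆ Finset.range N, R₀ ≤ Tl.card →
    HasUniformMinor M k ∨ ∃ (I : Finset ℕ) (Bd : Finset (ℕ × ℕ)), I ⊆ Tl ∧ I.card = n ∧
      Bd.card ≤ A * (w + (LtL m R (ZT w a n₀ Zq)).card) ∧
      LiftI M w L₁ D N m R c row D₀ Hs₀ (ZT w a n₀ Zq) I (Bd : Set (ℕ × ℕ)) ρ

/-- **Row R2: from a label system to `GSys`.** -/
theorem gSys (k κ : ℕ) : ∃ K : ℕ, ∀ t, 1 ≤ t → ∃ β D₀ δ₀ D₁ δ₁ ρ w₁ : ℕ,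
    ∀ {α : Type u} (M : Matroid α) [M.Finite] (w s σ₂ : ℕ) (𝒯 : Finset (ℕ × ℕ))
    (L₁ : Bool × ℕ × ℕ → List α) (f₁ : α → Sym2 ((ℕ × ℕ) ⊕ α)) (e₁ : Bool × ℕ × ℕ → α) (u₁ : ℕ)
    (L₂ : Bool × ℕ × ℕ → List α) (f₂ : α → Sym2 ((ℕ × ℕ) ⊕ α)) (e₂ : Bool × ℕ × ℕ → α) (u₂ : ℕ)
    (D : Set α) (n m : ℕ) (τ : ℕ → ℕ × ℕ) (R : ℕ → Bool × ℕ × ℕ) (c : ℕ → ℕ → α)
    (q : ℕ → ℕ → ℕ) (Za : Finset (Bool × ℕ × ℕ)) (n' : ℕ),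
    w₁ ≤ w → u₁ ≤ κ → 3 * K + 1 ≤ n' → n = n' + (3 * K + 1) →
    LSys M w s σ₂ 𝒯 L₁ f₁ e₁ u₁ L₂ f₂ e₂ u₂ D n m τ R c q Za →
    LCore M w s 𝒯 L₁ f₁ e₁ u₁ L₂ f₂ e₂ u₂ D n m τ c Za →
    HasUniformMinor M k ∨ ∃ (M' : Matroid α) (𝒯' : Finset (ℕ × ℕ)) (L₁' : Bool × ℕ × ℕ → List α)
      (f₁' : α → Sym2 ((ℕ × ℕ) ⊕ α)) (e₁' : Bool × ℕ × ℕ → α) (D' : Set α) (ι : ℕ → ℕ)
      (row : α → Sym2 (ℕ × ℕ)) (Hm Hs₀ Om₁ Hs₁ Om₂ : Finset (ℕ × ℕ)),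
      M' ≤m M ∧ 𝒯' ⊆ 𝒯 ∧ (∀ r ∈ Seg w, ∀ x ∈ L₁' r, x ∈ L₁ r) ∧ (∀ r ∈ Seg w, e₁' r ∈ L₁ r) ∧
      D' ⊆ D ∧ (∀ a < n', ∀ b < n', a < b → ι a < ι b) ∧ (∀ b < n', ι b < n) ∧ Om₂.card ≤ ρ ∧
      GSys M' w s 𝒯' L₁' f₁' e₁' (u₁ + 3 * K) L₂ f₂ e₂ u₂ D' (2 * σ₂ + 2 * (m / t) + 3) n' m
        (fun b => τ (ι b)) R (fun i b => c i (ι b)) Za row β D₀ δ₀ D₁ δ₁ Hm Hs₀ Om₁ Hs₁ Om₂ := by
  obtain ⟨K, dp, hP⟩ := pZero.{u} k κ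
  refine ⟨K, fun t ht => ?_⟩
  obtain ⟨β₀, w₁, hP⟩ := hP t ht
  obtain ⟨β, hβ₀, hβ⟩ : ∃ β, β₀ ≤ β ∧ 4 ≤ β := ⟨max β₀ 4, le_max_left _ _, le_max_right _ _⟩
  obtain ⟨D₀, δ₀, D₁, δ₁, ρ, w₂, hdp, hG⟩ := DA.geo2.{u} k (κ + 3 * K) β dp
  refine ⟨β, D₀, δ₀, D₁, δ₁, ρ, max w₁ w₂, ?_⟩
  intro α M _ w s σ₂ 𝒯 L₁ f₁ e₁ u₁ L₂ f₂ e₂ u₂ D n m τ R c q Za n' hw hu hn' hn hL hC
  obtain ⟨row, hrow⟩ := DA.GSide.exists_row hL.pair.s₁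
  rcases hP M w s σ₂ 𝒯 L₁ f₁ e₁ u₁ L₂ f₂ e₂ u₂ D n m τ R c q Za n' row
    ((le_max_left _ _).trans hw) hu hn' hn hrow hL hC with hU | ⟨C, 𝒯', L₁', f₁', e₁', D', ι, hCE,
      h𝒯, hL', he, hD, hι, hιn, hall, hB, hs⟩
  · exact Or.inl hU
  have hM' : M ／ C ≤m M := con_minor M C
  have fM' : (M ／ C).Finite := BQ.fin_contract _
  have hrow' : ∀ r ∈ Seg w, ∀ x ∈ L₁' r, row x = DA.srow r := fun r hr x hx =>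
    hrow r hr x (hL' r hr x hx)
  have hsupp : DA.Supp (M ／ C) (crr L₁' (Seg w)) row w β dp D' := by
    intro z hz
    obtain ⟨N, hN, h1⟩ := hs z hz
    exact ⟨N, hN.trans hβ₀, fun c₀ hc hW v hv hvd => h1 c₀ hc hW v hvd hv⟩
  rcases hG (M ／ C) w (u₁ + 3 * K) L₁' f₁' e₁' row D' ((le_max_right _ _).trans hw) (by omega)
    hB.pair.s₁ hrow' hB.D_cl hB.D₁ hsupp with hU | ⟨Hm, Hs₀, Om₁, Hs₁, Om₂, hO, hR⟩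
  · exact Or.inl (HasUniformMinor_mono hU hM')
  refine Or.inr ⟨M ／ C, 𝒯', L₁', f₁', e₁', D', ι, row, Hm, Hs₀, Om₁, Hs₁, Om₂, hM', h𝒯, hL', he,
    hD, hι, hιn, hO, hB, hL.cov, hall, hrow', ?_, hR, hβ⟩
  intro z hz
  obtain ⟨N, hN, h1⟩ := hsupp z hz
  refine ⟨N, hN, fun c₀ hc hW v hv hvd => h1 c₀ hc hW v hv ?_⟩
  unfold DA.DeepR at hvd ⊢
  simp only at hvd ⊢
  omega

end TSH
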