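import Pool.Agent.CW.Side

/-!
# Row B3 (part 2): the elements of a row may be put in any order

A row of a subdivided wall is a series class: every order of its elements gives the same
bicircular matroid.
-/

open Set BIC BICS
open scoped Matroid

namespace TST

open CWL

section swap

variable {α V : Type*} {M : Matroid α} {S : Set α} {ends : α → Sym2 V} {u : ℕ}

/-- Exchange the places of two consecutive elements of a row. -/
theorem swap_bicU [DecidableEq α] (hB : BicU M S ends u) {a x b : V} {c c' : α}
    (ec : ends c = s(a, x)) (ec' : ends c' = s(x, b))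
    (hx : ∀ f ∈ S, x ∈ ends f → f = c ∨ f = c') :
    BicU M S (fun e => ends (Equiv.swap c c' e)) u := by
  classical
  have hcx : x ∈ ends c := by rw [ec]; exact Sym2.mem_mk_right _ _
  have hcx' : x ∈ ends c' := by rw [ec']; exact Sym2.mem_mk_left _ _
  have hss : ∀ e, Equiv.swap c c' (Equiv.swap c c' e) = e := fun e => Equiv.swap_apply_self _ _ _
  have hmove : ∀ e, e ≠ c → e ≠ c' → Equiv.swap c c' e = e := fun e h1 h2 =>
    Equiv.swap_apply_of_ne_of_ne h1 h2
  refine ⟨hB.sub, ?_, ?_⟩
  · intro F φ hF h1 h2
    have key : ∀ e ∈ F, Equiv.swap c c' e ∉ F → e = c ∨ e = c' := by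
      intro e he hn
      by_contra hcon
      push Not at hcon
      rw [hmove e hcon.1 hcon.2] at hn
      exact hn he
    have key2 : ∀ e ∈ F, ∀ e' ∈ F, (e = c ∨ e = c') → (e' = c ∨ e' = c') →
        Equiv.swap c c' e ∉ F → e = e' := by
      rintro e he e' he' (rfl | rfl) (rfl | rfl) hn
      · rfl
      · rw [Equiv.swap_apply_left] at hn
        exact absurd he' hn
      · rw [Equiv.swap_apply_right] at hn
        exact absurd he' hn
      · rfl
    refine hB.ind F (fun e => if Equiv.swap c c' e ∈ F then φ (Equiv.swap c c' e) else x) hF ?_ ?_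
    · intro e he e' he' hee
      simp only at hee
      by_cases g1 : Equiv.swap c c' e ∈ F
      · by_cases g2 : Equiv.swap c c' e' ∈ F
        · rw [if_pos g1, if_pos g2] at hee
          exact (Equiv.swap c c').injective (h1 g1 g2 hee)
        · rw [if_pos g1, if_neg g2] at hee
          have h3 := h2 _ g1
          simp only [hss] at h3
          rw [hee] at h3
          exact (key2 e' he' e he (key e' he' g2) (hx e (hF he) h3) g2).symm
      · by_cases g2 : Equiv.swap c c' e' ∈ F
        · rw [if_neg g1, if_pos g2] at hee
          have h3 := h2 _ g2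
          simp only [hss] at h3
          rw [← hee] at h3
          exact key2 e he e' he' (key e he g1) (hx e' (hF he') h3) g1
        · exact key2 e he e' he' (key e he g1) (key e' he' g2) g1
    · intro e he
      by_cases g1 : Equiv.swap c c' e ∈ F
      · rw [if_pos g1]
        have h3 := h2 _ g1
        simp only [hss] at h3
        exact h3
      · rw [if_neg g1]
        rcases key e he g1 with rfl | rfl
        · exact hcx
        · exact hcx'
  · intro W
    by_cases hxW : x ∈ W
    · by_cases hab : a ∈ W ∧ b ∈ W
      · refine (M.eRk_mono ?_).trans (hB.rk W)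
        rintro e ⟨he, he'⟩
        refine ⟨he, ?_⟩
        by_cases g1 : e = c
        · rw [g1, ec]
          intro v hv
          rcases Sym2.mem_iff.1 hv with rfl | rfl
          · exact hab.1
          · exact hxW
        · by_cases g2 : e = c'
          · rw [g2, ec']
            intro v hv
            rcases Sym2.mem_iff.1 hv with rfl | rfl
            · exact hxW
            · exact hab.2
          · simp only [hmove e g1 g2] at he'
            exact he'
      · have hsub : ∃ f, ins S (fun e => ends (Equiv.swap c c' e)) W ⊆
            insert f (ins S ends (W \ {x})) := by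
          have hrest : ∀ e ∈ S, (∀ v ∈ ends (Equiv.swap c c' e), v ∈ W) → e ≠ c → e ≠ c' →
              e ∈ ins S ends (W \ {x}) := by
            intro e he he' g1 g2
            rw [hmove e g1 g2] at he'
            refine ⟨he, fun v hv => ⟨he' v hv, ?_⟩⟩
            rintro rfl
            rcases hx e he hv with h | h
            · exact g1 h
            · exact g2 h
          by_cases haW : a ∈ W
          · refine ⟨c', ?_⟩
            rintro e ⟨he, he'⟩
            simp only at he'
            by_cases g2 : e = c'
            · exact Or.inl g2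
            · right
              refine hrest e he he' ?_ g2
              rintro rfl
              rw [Equiv.swap_apply_left, ec'] at he'
              exact hab ⟨haW, he' b (Sym2.mem_mk_right _ _)⟩
          · refine ⟨c, ?_⟩
            rintro e ⟨he, he'⟩
            simp only at he'
            by_cases g1 : e = c
            · exact Or.inl g1
            · right
              refine hrest e he he' g1 ?_
              rintro rfl
              rw [Equiv.swap_apply_right, ec] at he'
              exact haW (he' a (Sym2.mem_mk_left _ _))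
        obtain ⟨f, hf⟩ := hsub
        refine (M.eRk_mono hf).trans ((M.eRk_insert_le_add_one _ _).trans ?_)
        refine (add_le_add (hB.rk _) le_rfl).trans ?_
        rw [← encard_sdiff_singleton_add_one hxW, add_right_comm]
    · refine (M.eRk_mono ?_).trans (hB.rk W)
      rintro e ⟨he, he'⟩
      simp only at he'
      refine ⟨he, ?_⟩
      have g1 : e ≠ c := by
        rintro rfl
        rw [Equiv.swap_apply_left] at he'
        exact hxW (he' x hcx')
      have g2 : e ≠ c' := by
        rintro rfl
        rw [Equiv.swap_apply_right] at he'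
        exact hxW (he' x hcx)
      rw [hmove e g1 g2] at he'
      exact he'

end swap

section wall

variable {α : Type*} {M : Matroid α} {R : Set α} {ends : α → Sym2 ((ℕ × ℕ) ⊕ α)}
  {L L' : Bool × ℕ × ℕ → List α} {y u : ℕ}

lemma node_map (σ : α → α) (s : Bool × ℕ × ℕ) (l : List α) (i : ℕ) :
    node s (l.map σ) i = Sum.map id σ (node s l i) := by
  unfold node
  rw [List.length_map, List.getElem?_map]
  by_cases h0 : i = 0
  · simp [h0]
  · by_cases h1 : i = l.length
    · rw [if_neg h0, if_pos h1, if_neg h0, if_pos h1]
      rfl
    · rw [if_neg h0, if_neg h1, if_neg h0, if_neg h1]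
      cases l[i - 1]? <;> simp

/-- only the lists of the segments matter -/
lemma subWall_congr (hW : SubWall R ends L y) (h : ∀ s ∈ Seg y, L' s = L s) :
    SubWall R ends L' y := by
  constructor
  · intro s hs; rw [h s hs]; exact hW.ne s hs
  · intro s hs; rw [h s hs]; exact hW.nodup s hs
  · intro s hs s' hs' hne; rw [h s hs, h s' hs']; exact hW.disj s hs s' hs' hne
  · intro x
    rw [hW.mem x]
    constructor
    · rintro ⟨s, hs, hx⟩
      exact ⟨s, hs, by rw [h s hs]; exact hx⟩
    · rintro ⟨s, hs, hx⟩
      exact ⟨s, hs, by rw [← h s hs]; exact hx⟩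
  · intro s hs i hi
    have h1 := h s hs
    have h2 : i < (L s).length := by rw [← h1]; exact hi
    have h3 := hW.end_eq s hs i h2
    simp only [h1]
    exact h3

/-- relabelling by a permutation of the elements -/
lemma subWall_map (hW : SubWall R ends L y) (σ : Equiv.Perm α) :
    SubWall (σ '' R) (fun e => (ends (σ.symm e)).map (Sum.map id σ)) (fun s => (L s).map σ) y := by
  constructor
  · intro s hs h
    exact hW.ne s hs (List.map_eq_nil_iff.1 h)
  · intro s hs
    exact (hW.nodup s hs).map σ.injective
  · intro s hs s' hs' hne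
    have h1 := hW.disj s hs s' hs' hne
    intro x hx hx'
    simp only [List.mem_map] at hx hx'
    obtain ⟨a, ha, rfl⟩ := hx
    obtain ⟨b, hb, hab⟩ := hx'
    have := σ.injective hab
    subst this
    exact h1 ha hb
  · intro x
    constructor
    · rintro ⟨a, ha, rfl⟩
      obtain ⟨s, hs, has⟩ := (hW.mem a).1 ha
      exact ⟨s, hs, List.mem_map.2 ⟨a, has, rfl⟩⟩
    · rintro ⟨s, hs, hx⟩
      obtain ⟨a, ha, rfl⟩ := List.mem_map.1 hx
      exact ⟨a, (hW.mem a).2 ⟨s, hs, ha⟩, rfl⟩
  · intro s hs i hi
    have hi' : i < (L s).length := by simpa using hi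
    simp only [List.getElem_map, Equiv.symm_apply_apply, node_map]
    rw [hW.end_eq s hs i hi', Sym2.map_mk]

/-- the neighbours of an inner vertex of a row -/
lemma inner_mem (hW : SubWall R ends L y) {s : Bool × ℕ × ℕ} (hs : s ∈ Seg y) {c : α}
    {i : ℕ} (hi : i + 1 < (L s).length) (hc : (L s)[i]'(by omega) = c) {f : α} (hf : f ∈ R)
    (hfc : Sum.inr c ∈ ends f) : f = c ∨ f = (L s)[i + 1] := by
  obtain ⟨s', hs', hfs⟩ := (hW.mem f).1 hf
  obtain ⟨j, hj, rfl⟩ := List.getElem_of_mem hfs
  rw [hW.end_eq s' hs' j hj, Sym2.mem_iff] at hfc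
  have key : ∀ k, k ≤ (L s').length → (Sum.inr c : (ℕ × ℕ) ⊕ α) = node s' (L s') k →
      s' = s ∧ k = i + 1 := by
    intro k hk h
    unfold node at h
    by_cases h0 : k = 0
    · simp [h0] at h
    · by_cases h1 : k = (L s').length
      · rw [if_neg h0, if_pos h1] at h
        exact absurd h (by simp)
      · rw [if_neg h0, if_neg h1] at h
        have h2 : k - 1 < (L s').length := by omega
        rw [List.getElem?_eq_getElem h2] at h
        simp only [Sum.inr.injEq] at h
        have h3 : s' = s := by
          by_contra hne
          refine hW.disj s' hs' s hs hne (a := c) ?_ ?_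
          · rw [h]; exact List.getElem_mem _
          · rw [← hc]; exact List.getElem_mem _
        subst h3
        rw [← hc] at h
        have h4 := (hW.nodup s' hs').getElem_inj_iff.1 h
        exact ⟨rfl, by omega⟩
  rcases hfc with h | h
  · obtain ⟨rfl, h2⟩ := key j (by omega) h
    right
    subst h2
    rfl
  · obtain ⟨rfl, h2⟩ := key (j + 1) (by omega) h
    left
    have : j = i := by omega
    subst this
    exact hc

/-- **Two consecutive elements of a row are exchanged.** -/
theorem swap_adj (hW : SubWall R ends L y) (hB : BicU M R ends u) {s : Bool × ℕ × ℕ}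
    (hs : s ∈ Seg y) {pre l : List α} {c c' : α} (hL : L s = pre ++ c :: c' :: l) :
    ∃ ends', SubWall R ends' (Function.update L s (pre ++ c' :: c :: l)) y ∧
      BicU M R ends' u := by
  classical
  have hnd := hW.nodup s hs
  have hcc : c ≠ c' := by
    rw [hL] at hnd
    have := (List.nodup_append.1 hnd).2.1
    simp only [List.nodup_cons, List.mem_cons, not_or] at this
    exact this.1.1
  have hlen : (L s).length = pre.length + (l.length + 2) := by rw [hL]; simp
  have g1 : (L s)[pre.length]'(by omega) = c := by simp [hL]
  have g2 : (L s)[pre.length + 1]'(by omega) = c' := by simp [hL]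
  have hcR : c ∈ R := (hW.mem c).2 ⟨s, hs, by rw [hL]; simp⟩
  have hcR' : c' ∈ R := (hW.mem c').2 ⟨s, hs, by rw [hL]; simp⟩
  have n1 : node s (L s) (pre.length + 1) = Sum.inr c := by
    unfold node
    rw [if_neg (by omega), if_neg (by omega), List.getElem?_eq_getElem (by omega)]
    simp only [Nat.add_sub_cancel, g1]
  have e1 : ends c = s(node s (L s) pre.length, Sum.inr c) := by
    have := hW.end_eq s hs pre.length (by omega)
    rwa [g1, n1] at this
  have e2 : ends c' = s(Sum.inr c, node s (L s) (pre.length + 2)) := by
    have := hW.end_eq s hs (pre.length + 1) (by omega)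
    rwa [g2, n1] at this
  have hx : ∀ f ∈ R, Sum.inr c ∈ ends f → f = c ∨ f = c' := by
    intro f hf hfc
    have := inner_mem hW hs (i := pre.length) (by omega) g1 hf hfc
    rwa [g2] at this
  have hsw := swap_bicU hB e1 e2 hx
  set σ : Equiv.Perm α := Equiv.swap c c' with hσ
  have hσs : σ.symm = σ := Equiv.symm_swap _ _
  have hR : σ '' R = R := by
    ext a
    constructor
    · rintro ⟨b, hb, rfl⟩
      by_cases k1 : b = c
      · subst k1; rw [hσ, Equiv.swap_apply_left]; exact hcR'
      · by_cases k2 : b = c'
        · subst k2; rw [hσ, Equiv.swap_apply_right]; exact hcR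
        · rw [hσ, Equiv.swap_apply_of_ne_of_ne k1 k2]; exact hb
    · intro ha
      by_cases k1 : a = c
      · subst k1; exact ⟨c', hcR', by rw [hσ, Equiv.swap_apply_right]⟩
      · by_cases k2 : a = c'
        · subst k2; exact ⟨c, hcR, by rw [hσ, Equiv.swap_apply_left]⟩
        · exact ⟨a, ha, by rw [hσ, Equiv.swap_apply_of_ne_of_ne k1 k2]⟩
  have hid : ∀ (l₀ : List α), c ∉ l₀ → c' ∉ l₀ → l₀.map σ = l₀ := by
    intro l₀ h1 h2
    have : l₀.map σ = l₀.map id := List.map_congr_left fun a ha => by
      rw [hσ, Equiv.swap_apply_of_ne_of_ne]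
      · rfl
      · rintro rfl; exact h1 ha
      · rintro rfl; exact h2 ha
    rw [this, List.map_id]
  refine ⟨fun e => (ends (σ.symm e)).map (Sum.map id σ), ?_, ?_⟩
  · have h1 := subWall_map hW σ
    rw [hR] at h1
    refine subWall_congr h1 ?_
    intro s' hs'
    by_cases hss : s' = s
    · subst hss
      rw [Function.update_self, hL]
      rw [hL] at hnd
      have h2 := List.nodup_append.1 hnd
      have h3 : c ∉ pre := fun h => h2.2.2 c h c (by simp) rfl
      have h4 : c' ∉ pre := fun h => h2.2.2 c' h c' (by simp) rfl
      have h5 := h2.2.1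
      simp only [List.nodup_cons, List.mem_cons, not_or] at h5
      rw [List.map_append, List.map_cons, List.map_cons, hid pre h3 h4, hid l h5.1.2 h5.2.1]
      rw [hσ, Equiv.swap_apply_left, Equiv.swap_apply_right]
    · rw [Function.update_of_ne hss]
      have h2 := hW.disj s hs s' hs' (Ne.symm hss)
      exact (hid _ (fun h => h2 (a := c) (by rw [hL]; simp) h)
        (fun h => h2 (a := c') (by rw [hL]; simp) h)).symm
  · have h2 : BicU M R (fun e => ends (σ.symm e)) u := by
      rw [hσs]
      exact hsw
    exact h2.map (Sum.map id σ) (fun a _ b _ h => by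
      rcases a with a | a <;> rcases b with b | b <;> simp at h ⊢ <;> exact h)

/-- one row in a new order -/
theorem perm_row {s : Bool × ℕ × ℕ} (hs : s ∈ Seg y) {l l' : List α} (hp : l.Perm l') :
    ∀ (pre : List α) (L : Bool × ℕ × ℕ → List α) (ends : α → Sym2 ((ℕ × ℕ) ⊕ α)),
      L s = pre ++ l → SubWall R ends L y → BicU M R ends u →
      ∃ ends', SubWall R ends' (Function.update L s (pre ++ l')) y ∧ BicU M R ends' u := by
  classical
  induction hp with
  | nil =>
    intro pre L ends hL hW hB
    refine ⟨ends, ?_, hB⟩
    rw [← hL, Function.update_eq_self]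
    exact hW
  | @cons x l₁ l₂ _ ih =>
    intro pre L ends hL hW hB
    have := ih (pre ++ [x]) L ends (by rw [hL]; simp) hW hB
    simpa using this
  | swap x z l =>
    intro pre L ends hL hW hB
    exact swap_adj hW hB hs hL
  | @trans l₁ l₂ l₃ _ _ ih1 ih2 =>
    intro pre L ends hL hW hB
    obtain ⟨e1, h1, h2⟩ := ih1 pre L ends hL hW hB
    obtain ⟨e2, h3, h4⟩ := ih2 pre (Function.update L s (pre ++ l₂)) e1
      (by rw [Function.update_self]) h1 h2
    refine ⟨e2, ?_, h4⟩
    rwa [Function.update_idem] at h3

/-- **REORDER.** The elements of every row may be put in any order. -/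
theorem reorder (hW : SubWall R ends L y) (hB : BicU M R ends u)
    (hp : ∀ s ∈ Seg y, (L' s).Perm (L s)) :
    ∃ ends', SubWall R ends' L' y ∧ BicU M R ends' u := by
  classical
  have key : ∀ T : Finset (Bool × ℕ × ℕ), (T : Set (Bool × ℕ × ℕ)) ⊆ Seg y →
      ∃ ends', SubWall R ends' (fun s => if s ∈ T then L' s else L s) y ∧
        BicU M R ends' u := by
    intro T
    induction T using Finset.induction_on with
    | empty =>
      intro _
      exact ⟨ends, by simpa using hW, hB⟩
    | insert s T hsT ih =>
      intro hT
      have hs : s ∈ Seg y := hT (by simp)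
      obtain ⟨e1, h1, h2⟩ := ih (fun a ha => hT (by simp only [Finset.coe_insert]; exact Or.inr ha))
      obtain ⟨e2, h3, h4⟩ := perm_row hs (hp s hs).symm [] _ e1 (by simp [hsT]) h1 h2
      refine ⟨e2, subWall_congr h3 ?_, h4⟩
      intro s' hs'
      by_cases hss : s' = s
      · subst hss
        simp
      · rw [Function.update_of_ne hss]
        simp [hss]
  obtain ⟨e, h1, h2⟩ := key (seg_finite y).toFinset (by simp)
  refine ⟨e, subWall_congr h1 ?_, h2⟩
  intro s hs
  simp [hs]

end wall

end TST
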