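import Pool.Agent.CW.World
import Pool.Agent.TST.Move
import Pool.Agent.TST.Reord

/-!
# Rows of a side: ranks, any order, sublists (row P1 of T-star)

For a side (`GSide`) the rank of a set `X` of elements of the rows depends only on the number of its
elements and on the set of the rows which are contained in `X`.  So the elements of a row may be put
in any order, and a matroid in which some rows have become shorter (with the same nullities) is again
a side.
-/

open Set BIC BICS CWL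
open scoped Matroid

namespace TST

section ser

variable {α : Type*} {M : Matroid α} {R : Set α} {x y z : α}

/-- series elements: transitivity -/
lemma ser_trans (hx : x ∈ R) (hxy : x ≠ y) (hxz : x ≠ z) (h1 : x ∉ M.closure (R \ {x, y}))
    (h2 : y ∉ M.closure (R \ {y, z})) : x ∉ M.closure (R \ {x, z}) := by
  intro h3
  have h4 : x ∉ M.closure (R \ {x, y, z}) := by
    intro h5
    refine h1 (M.closure_subset_closure ?_ h5)
    rintro w ⟨hw, hw'⟩
    refine ⟨hw, ?_⟩
    rintro (h6 | h6)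
    · exact hw' (Or.inl h6)
    · exact hw' (Or.inr (Or.inl h6))
  have h5 : x ∈ M.closure (insert y (R \ {x, y, z})) := by
    refine M.closure_subset_closure ?_ h3
    rintro w ⟨hw, hw'⟩
    by_cases h6 : w = y
    · exact Or.inl h6
    · refine Or.inr ⟨hw, ?_⟩
      rintro (h7 | h7 | h7)
      · exact hw' (Or.inl h7)
      · exact h6 h7
      · exact hw' (Or.inr h7)
  refine h2 (M.closure_subset_closure ?_ (Matroid.mem_closure_insert h4 h5))
  rintro w (hw | ⟨hw, hw'⟩)
  · rw [hw]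
    refine ⟨hx, ?_⟩
    rintro (h8 | h8)
    · exact hxy h8
    · exact hxz h8
  · exact ⟨hw, fun h8 => hw' (Or.inr h8)⟩

end ser

section

variable {α : Type*} {M : Matroid α} {S : Set (Bool × ℕ × ℕ)} {L L' : Bool × ℕ × ℕ → List α}
  {f : α → Sym2 ((ℕ × ℕ) ⊕ α)} {e : Bool × ℕ × ℕ → α} {u : ℕ}

/-- two elements of a row are in series -/
theorem gside_ser [M.Finite] (h : GSide M S L f e u) {s : Bool × ℕ × ℕ} (hs : s ∈ S) {x y : α}
    (hx : x ∈ L s) (hy : y ∈ L s) (hxy : x ≠ y) : x ∉ M.closure (crr L S \ {x, y}) := by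
  have hmemR : ∀ t (ht : t < (L s).length), (L s)[t] ∈ crr L S :=
    fun t ht => ⟨s, hs, List.getElem_mem _⟩
  have hne : ∀ t t' (ht : t < (L s).length) (ht' : t' < (L s).length), t ≠ t' →
      (L s)[t] ≠ (L s)[t'] := fun t t' ht ht' h' h'' =>
    h' ((List.Nodup.getElem_inj_iff (h.nodup s hs)).1 h'')
  have hst := h.star
  -- consecutive elements
  have hcons : ∀ i (hi : i + 1 < (L s).length), ∀ z, z = (L s)[i]'(by omega) ∨ z = (L s)[i + 1] →
      z ∉ M.closure (crr L S \ {(L s)[i]'(by omega), (L s)[i + 1]}) := by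
    intro i hi z hz hcl
    have hzR : z ∈ crr L S := by
      rcases hz with rfl | rfl
      · exact hmemR _ _
      · exact hmemR _ _
    have hvz : node s (L s) (i + 1) ∈ f z := by
      rcases hz with rfl | rfl
      · rw [h.end_eq s hs _ (by omega)]
        exact Sym2.mem_mk_right _ _
      · rw [h.end_eq s hs _ hi]
        exact Sym2.mem_mk_left _ _
    refine hst (node s (L s) (i + 1)) z hzR hvz (M.closure_subset_closure ?_ hcl)
    rintro w ⟨hw, hw'⟩
    refine ⟨hw, fun v hv => ?_⟩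
    rw [mem_compl_iff, mem_singleton_iff]
    rintro rfl
    obtain ⟨s', hs', hws⟩ := hw
    obtain ⟨t, ht, rfl⟩ := List.mem_iff_getElem.1 hws
    obtain ⟨h2, h3⟩ := h.at_inner hs hs' (by omega) (by omega) ht hv
    subst h2
    rcases h3 with h3 | h3
    · subst h3
      exact hw' (Or.inr rfl)
    · have h4 : t = i := by omega
      subst h4
      exact hw' (Or.inl rfl)
  have hup : ∀ d i (hi : i + d + 1 < (L s).length), (L s)[i]'(by omega) ∉
      M.closure (crr L S \ {(L s)[i]'(by omega), (L s)[i + d + 1]}) := by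
    intro d
    induction d with
    | zero => exact fun i hi => hcons i hi _ (Or.inl rfl)
    | succ d ih =>
      intro i hi
      refine ser_trans (hmemR i (by omega)) (hne _ _ _ _ (by omega)) (hne _ _ _ _ (by omega))
        (ih i (by omega)) ?_
      exact hcons (i + d + 1) hi _ (Or.inl rfl)
  have hdown : ∀ d i (hi : i + d + 1 < (L s).length), (L s)[i + d + 1] ∉
      M.closure (crr L S \ {(L s)[i + d + 1], (L s)[i]'(by omega)}) := by
    intro d
    induction d with
    | zero =>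
      intro i hi
      have h1 := hcons i hi _ (Or.inr rfl)
      rwa [pair_comm] at h1
    | succ d ih =>
      intro i hi
      have h1 := hcons (i + d + 1) hi _ (Or.inr rfl)
      rw [pair_comm] at h1
      exact ser_trans (hmemR _ hi) (hne _ _ _ _ (by omega)) (hne _ _ _ _ (by omega)) h1
        (ih i (by omega))
  obtain ⟨i, hi, rfl⟩ := List.mem_iff_getElem.1 hx
  obtain ⟨j, hj, rfl⟩ := List.mem_iff_getElem.1 hy
  have hij : i ≠ j := by
    rintro rfl
    exact hxy rfl
  rcases Nat.lt_or_gt_of_ne hij with h1 | h1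
  · obtain ⟨d, rfl⟩ := Nat.exists_eq_add_of_lt h1
    exact hup d i hj
  · obtain ⟨d, rfl⟩ := Nat.exists_eq_add_of_lt h1
    exact hdown d j hi

/-- the full rows in `X` -/
def fp (L : Bool × ℕ × ℕ → List α) (S : Set (Bool × ℕ × ℕ)) (X : Set α) : Set α :=
  {x | ∃ s ∈ S, x ∈ L s ∧ ∀ y ∈ L s, y ∈ X}

lemma fp_sub {X : Set α} : fp L S X ⊆ X := by
  rintro x ⟨s, _, hx, h⟩
  exact h x hx

/-- **Ranks.** -/
theorem gside_rk [M.Finite] (h : GSide M S L f e u) {X : Set α} (hX : X ⊆ crr L S) :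
    rk M X + (fp L S X).ncard = rk M (fp L S X) + X.ncard := by
  classical
  have hXf : X.Finite := M.ground_finite.subset (hX.trans h.sub_ground)
  have hGf : (X \ fp L S X).Finite := hXf.subset sdiff_subset
  have h1 := ess_coloops (M := M) (W := X) hGf.toFinset (by
    intro x hx
    rw [Set.Finite.mem_toFinset] at hx
    obtain ⟨s, hs, hxs⟩ := hX hx.1
    have hy : ∃ y ∈ L s, y ∉ X := by
      by_contra hcon
      push Not at hcon
      exact hx.2 ⟨s, hs, hxs, hcon⟩
    obtain ⟨y, hys, hyX⟩ := hy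
    have hxy : x ≠ y := by
      rintro rfl
      exact hyX hx.1
    have h2 : x ∉ M.closure (X \ {x}) := by
      intro hcl
      refine gside_ser h hs hxs hys hxy (M.closure_subset_closure ?_ hcl)
      rintro w ⟨hw, hw'⟩
      refine ⟨hX hw, ?_⟩
      rintro (h3 | h3)
      · exact hw' h3
      · exact hyX ((mem_singleton_iff.1 h3) ▸ hw)
    have h3 := rk_insert_ge (h.sub_ground (hX hx.1)) h2
    rwa [insert_sdiff_self_of_mem hx.1] at h3)
  rw [Set.Finite.coe_toFinset, ← Set.ncard_eq_toFinset_card _ hGf,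
    sdiff_sdiff_cancel_left fp_sub] at h1
  have h2 := Set.ncard_sdiff_add_ncard_of_subset (fp_sub (L := L) (S := S) (X := X)) hXf
  have h3 : rk M X ≤ rk M (fp L S X) + (X \ fp L S X).ncard := by
    have h4 := rk_union_le M (X := fp L S X) hGf
    rwa [union_sdiff_cancel fp_sub] at h4
  omega

/-- the nullity of the union of the rows in `F` -/
noncomputable def nuG (M : Matroid α) (S : Set (Bool × ℕ × ℕ)) (L : Bool × ℕ × ℕ → List α)
    (F : Set {s // s ∈ S}) : ℕ :=
  {x | ∃ s ∈ F, x ∈ L s.1}.ncard - rk M {x | ∃ s ∈ F, x ∈ L s.1}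

lemma crr_iUnion : crr L S = ⋃ s : {s // s ∈ S}, {x | x ∈ L s.1} := by
  ext x
  simp only [mem_iUnion, mem_ofPred_eq]
  constructor
  · rintro ⟨s, hs, hx⟩
    exact ⟨⟨s, hs⟩, hx⟩
  · rintro ⟨s, hx⟩
    exact ⟨s.1, s.2, hx⟩

/-- **The rows of a side are exact rows.** -/
theorem gside_rowF [M.Finite] (h : GSide M S L f e u) :
    RowF M (fun s : {s // s ∈ S} => {x | x ∈ L s.1}) (nuG M S L) where
  sub := fun s x hx => h.sub_ground ⟨s.1, s.2, hx⟩
  ne := fun s => ⟨e s.1, h.mem_last s.2⟩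
  dis := fun s s' hne => by
    rw [Set.disjoint_left]
    intro x hx hx'
    exact hne (Subtype.ext (h.uniq s.2 s'.2 hx hx'))
  rk := fun X hX => by
    rw [← crr_iUnion] at hX
    have h1 := gside_rk h hX
    have h2 : {x | ∃ s ∈ {s : {s // s ∈ S} | {x | x ∈ L s.1} ⊆ X}, x ∈ L s.1} = fp L S X := by
      ext x
      constructor
      · rintro ⟨s, hs, hx⟩
        exact ⟨s.1, s.2, hx, fun y hy => hs hy⟩
      · rintro ⟨s, hs, hx, h3⟩
        exact ⟨⟨s, hs⟩, fun y hy => h3 y hy, hx⟩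
    unfold nuG
    rw [h2]
    have h3 : rk M (fp L S X) ≤ (fp L S X).ncard :=
      rk_le_ncard M (M.ground_finite.subset (fp_sub.trans (hX.trans h.sub_ground)))
    omega

/-! ### Permutations inside of the rows -/

/-- ranks are not changed by a permutation inside of the rows -/
lemma gside_rk_perm [M.Finite] (h : GSide M S L f e u) (σ : Equiv.Perm α)
    (hσ : ∀ s ∈ S, ∀ x, σ x ∈ L s ↔ x ∈ L s) {X : Set α} (hX : X ⊆ crr L S) :
    rk M (σ '' X) = rk M X := by
  have h1 := gside_rk h hX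
  have hX' : σ '' X ⊆ crr L S := by
    rintro _ ⟨x, hx, rfl⟩
    obtain ⟨s, hs, hxs⟩ := hX hx
    exact ⟨s, hs, (hσ s hs x).2 hxs⟩
  have h2 := gside_rk h hX'
  have h3 : fp L S (σ '' X) = fp L S X := by
    ext x
    constructor
    · rintro ⟨s, hs, hx, h4⟩
      refine ⟨s, hs, hx, fun y hy => ?_⟩
      obtain ⟨z, hz, hzy⟩ := h4 (σ y) ((hσ s hs y).2 hy)
      rwa [← σ.injective hzy]
    · rintro ⟨s, hs, hx, h4⟩
      refine ⟨s, hs, hx, fun y hy => ?_⟩
      refine ⟨σ.symm y, h4 _ ?_, σ.apply_symm_apply y⟩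
      rw [← hσ s hs, σ.apply_symm_apply]
      exact hy
  rw [h3, ncard_image_of_injective _ σ.injective] at h2
  omega

/-- the bicircular matroid after a permutation inside of the rows -/
lemma bic_perm [M.Finite] {R : Set α} (hN : Bic M R f) (σ : Equiv.Perm α)
    (hR : ∀ x, σ x ∈ R ↔ x ∈ R) (hrk : ∀ X ⊆ R, rk M (σ '' X) = rk M X) :
    Bic M R (fun x => f (σ.symm x)) := by
  have hsymm : ∀ x, σ.symm x ∈ R ↔ x ∈ R := by
    intro x
    rw [← hR, σ.apply_symm_apply]
  have himg : ∀ X : Set α, σ '' (σ.symm '' X) = X := by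
    intro X
    ext x
    constructor
    · rintro ⟨_, ⟨y, hy, rfl⟩, rfl⟩
      rwa [σ.apply_symm_apply]
    · intro hx
      exact ⟨σ.symm x, ⟨x, hx, rfl⟩, σ.apply_symm_apply x⟩
  refine ⟨hN.sub, ?_, ?_⟩
  · intro F φ hF hφ hφe
    have hF' : σ.symm '' F ⊆ R := by
      rintro _ ⟨x, hx, rfl⟩
      exact (hsymm x).2 (hF hx)
    have h1 : M.Indep (σ.symm '' F) := by
      refine hN.ind _ (fun x => φ (σ x)) hF' ?_ ?_
      · rintro _ ⟨x, hx, rfl⟩ _ ⟨y, hy, rfl⟩ hxy
        simp only [σ.apply_symm_apply] at hxy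
        rw [hφ hx hy hxy]
      · rintro _ ⟨x, hx, rfl⟩
        have := hφe x hx
        simpa using this
    have h2 := hrk _ hF'
    rw [himg, rk_indep h1, ncard_image_of_injective _ σ.symm.injective] at h2
    exact indep_of_rk (hF.trans hN.sub) h2.ge
  · intro W
    have h1 : ins R f W ⊆ R := fun x hx => hx.1
    have h2 : ins R (fun x => f (σ.symm x)) W = σ '' (ins R f W) := by
      ext x
      constructor
      · rintro ⟨hx, hv⟩
        exact ⟨σ.symm x, ⟨(hsymm x).2 hx, hv⟩, σ.apply_symm_apply x⟩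
      · rintro ⟨y, ⟨hy, hv⟩, rfl⟩
        refine ⟨(hR y).2 hy, ?_⟩
        simpa using hv
    rw [h2, ← cast_rk, hrk _ h1, cast_rk]
    exact hN.rk W

/-- **Any order of the rows.** -/
theorem gside_perm [M.Finite] (h : GSide M S L f e u) (σ : Equiv.Perm α)
    (hσ : ∀ s ∈ S, ∀ x, σ x ∈ L s ↔ x ∈ L s) (hL : ∀ s ∈ S, L' s = (L s).map σ) :
    ∃ f', GSide M S L' f' (fun s => σ (e s)) u := by
  have hmem : ∀ s ∈ S, ∀ x, x ∈ L' s ↔ x ∈ L s := by
    intro s hs x
    rw [hL s hs, List.mem_map]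
    constructor
    · rintro ⟨y, hy, rfl⟩
      exact (hσ s hs y).2 hy
    · intro hx
      refine ⟨σ.symm x, ?_, σ.apply_symm_apply x⟩
      rw [← hσ s hs, σ.apply_symm_apply]
      exact hx
  have hcrr : crr L' S = crr L S := by
    ext x
    constructor
    · rintro ⟨s, hs, hx⟩
      exact ⟨s, hs, (hmem s hs x).1 hx⟩
    · rintro ⟨s, hs, hx⟩
      exact ⟨s, hs, (hmem s hs x).2 hx⟩
  have hR : ∀ x, σ x ∈ crr L S ↔ x ∈ crr L S := by
    intro x
    constructor
    · rintro ⟨s, hs, hx⟩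
      exact ⟨s, hs, (hσ s hs x).1 hx⟩
    · rintro ⟨s, hs, hx⟩
      exact ⟨s, hs, (hσ s hs x).2 hx⟩
  refine ⟨fun x => (f (σ.symm x)).map (Sum.map id σ), ?_, ?_, ?_, ?_, ?_⟩
  · intro s hs
    rw [hL s hs]
    exact (h.nodup s hs).map σ.injective
  · intro s hs s' hs' hne x hx hx'
    exact h.disj s hs s' hs' hne ((hmem s hs x).1 hx) ((hmem s' hs' x).1 hx')
  · intro s hs i hi
    have hLs := hL s hs
    have hi' : i < (L s).length := by
      rw [hLs, List.length_map] at hi
      exact hi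
    have h1 : (L' s)[i] = σ ((L s)[i]) := by
      simp only [hLs, List.getElem_map]
    simp only [h1, σ.symm_apply_apply]
    rw [h.end_eq s hs i hi', Sym2.map_mk, hLs, node_map, node_map]
  · rw [hcrr]
    obtain ⟨h0, N, h1, h2, h3, h4⟩ := h.lift
    have hGN : GSide N S L f e 0 := ⟨h.nodup, h.disj, h.end_eq, lift_of_bic h2, h.last⟩
    have h5 := bic_perm h2 σ hR fun X hX => gside_rk_perm hGN σ hσ hX
    refine Lift.map (u := u) (f := fun x => f (σ.symm x)) ⟨h0, N, h1, h5, h3, h4⟩ (Sum.map id σ) ?_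
    rintro (v | v) _ (w | w) _ hvw
    · simpa using hvw
    · simp at hvw
    · simp at hvw
    · simpa using hvw
  · intro s hs
    rw [hL s hs, List.getLast?_map, h.last s hs]
    rfl

/-- lists with the same elements are exchanged by a permutation -/
theorem exists_perm (hnd : ∀ s ∈ S, (L s).Nodup)
    (hdj : ∀ s ∈ S, ∀ s' ∈ S, s ≠ s' → (L s).Disjoint (L s'))
    (hnd' : ∀ s ∈ S, (L' s).Nodup) (hm : ∀ s ∈ S, ∀ x, x ∈ L' s ↔ x ∈ L s) :
    ∃ σ : Equiv.Perm α, (∀ s ∈ S, ∀ x, σ x ∈ L s ↔ x ∈ L s) ∧ ∀ s ∈ S, L' s = (L s).map σ := by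
  classical
  have hlen : ∀ s ∈ S, (L' s).length = (L s).length := fun s hs =>
    (List.perm_ext_iff_of_nodup (hnd' s hs) (hnd s hs)).2 (fun x => hm s hs x) |>.length_eq
  -- general construction
  have key : ∀ (A B : Bool × ℕ × ℕ → List α), (∀ s ∈ S, (A s).Nodup) →
      (∀ s ∈ S, ∀ s' ∈ S, s ≠ s' → (A s).Disjoint (A s')) →
      (∀ s ∈ S, (B s).length = (A s).length) → ∃ g : α → α,
      (∀ s ∈ S, ∀ (i : ℕ) (h : i < (A s).length) (h' : i < (B s).length),
        g ((A s)[i]) = (B s)[i]) ∧ ∀ x, (∀ s ∈ S, x ∉ A s) → g x = x := by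
    intro A B hA hAd hl
    have h1 : ∀ x, ∃ y, (∀ s ∈ S, ∀ (i : ℕ) (h : i < (A s).length) (h' : i < (B s).length),
        x = (A s)[i] → y = (B s)[i]) ∧ ((∀ s ∈ S, x ∉ A s) → y = x) := by
      intro x
      by_cases hx : ∃ s ∈ S, x ∈ A s
      · obtain ⟨s, hs, hxs⟩ := hx
        obtain ⟨i, hi, rfl⟩ := List.mem_iff_getElem.1 hxs
        have hi' : i < (B s).length := by rw [hl s hs]; exact hi
        refine ⟨(B s)[i], ?_, fun hn => absurd hxs (hn s hs)⟩
        intro s' hs' j hj hj' hxj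
        have h2 : s = s' := by
          by_contra hne
          exact hAd s hs s' hs' hne hxs (by rw [hxj]; exact List.getElem_mem _)
        subst h2
        have h3 : i = j := (List.Nodup.getElem_inj_iff (hA s hs)).1 hxj
        subst h3
        rfl
      · push Not at hx
        refine ⟨x, ?_, fun _ => rfl⟩
        intro s hs i hi _ hxi
        exact absurd (by rw [hxi]; exact List.getElem_mem _) (hx s hs)
    choose g hg1 hg2 using h1
    exact ⟨g, fun s hs i hi hi' => hg1 _ s hs i hi hi' rfl, fun x hx => hg2 x hx⟩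
  have hdj' : ∀ s ∈ S, ∀ s' ∈ S, s ≠ s' → (L' s).Disjoint (L' s') := by
    intro s hs s' hs' hne x hx hx'
    exact hdj s hs s' hs' hne ((hm s hs x).1 hx) ((hm s' hs' x).1 hx')
  obtain ⟨g, hg1, hg2⟩ := key L L' hnd hdj hlen
  obtain ⟨k, hk1, hk2⟩ := key L' L hnd' hdj' fun s hs => (hlen s hs).symm
  have hkg : ∀ x, k (g x) = x := by
    intro x
    by_cases hx : ∃ s ∈ S, x ∈ L s
    · obtain ⟨s, hs, hxs⟩ := hx
      obtain ⟨i, hi, rfl⟩ := List.mem_iff_getElem.1 hxs
      have hi' : i < (L' s).length := by rw [hlen s hs]; exact hi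
      rw [hg1 s hs i hi hi', hk1 s hs i hi' hi]
    · push Not at hx
      rw [hg2 x hx, hk2 x fun s hs hxs => hx s hs ((hm s hs x).1 hxs)]
  have hgk : ∀ x, g (k x) = x := by
    intro x
    by_cases hx : ∃ s ∈ S, x ∈ L' s
    · obtain ⟨s, hs, hxs⟩ := hx
      obtain ⟨i, hi, rfl⟩ := List.mem_iff_getElem.1 hxs
      have hi' : i < (L s).length := by rw [← hlen s hs]; exact hi
      rw [hk1 s hs i hi hi', hg1 s hs i hi' hi]
    · push Not at hx
      rw [hk2 x hx, hg2 x fun s hs hxs => hx s hs ((hm s hs x).2 hxs)]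
  have hmap : ∀ s ∈ S, L' s = (L s).map g := by
    intro s hs
    refine List.ext_getElem (by rw [List.length_map, hlen s hs]) ?_
    intro i hi hi'
    rw [List.getElem_map, hg1 s hs i (by rw [← hlen s hs]; exact hi) hi]
  refine ⟨⟨g, k, hkg, hgk⟩, ?_, hmap⟩
  intro s hs x
  change g x ∈ L s ↔ x ∈ L s
  rw [← hm s hs, hmap s hs, List.mem_map]
  constructor
  · rintro ⟨y, hy, hyx⟩
    have : y = x := by rw [← hkg y, hyx, hkg]
    rwa [← this]
  · exact fun hx => ⟨x, hx, rfl⟩

/-- **Any order of the rows**, for lists with the same elements. -/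
theorem gside_reord [M.Finite] (h : GSide M S L f e u) (hnd' : ∀ s ∈ S, (L' s).Nodup)
    (hm : ∀ s ∈ S, ∀ x, x ∈ L' s ↔ x ∈ L s) {e' : Bool × ℕ × ℕ → α}
    (he' : ∀ s ∈ S, (L' s).getLast? = some (e' s)) : ∃ f', GSide M S L' f' e' u := by
  obtain ⟨σ, h1, h2⟩ := exists_perm h.nodup h.disj hnd' hm
  obtain ⟨f', h3⟩ := gside_perm h σ h1 h2
  exact ⟨f', h3.nodup, h3.disj, h3.end_eq, h3.lift, he'⟩

/-- **Shorter rows.**  `M'` has on the remaining elements the ranks of the contraction of the other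
elements of the rows. -/
theorem gside_rows [M.Finite] (h : GSide M S L f e u) (hnd' : ∀ s ∈ S, (L' s).Nodup)
    (hm : ∀ s ∈ S, ∀ x, x ∈ L' s → x ∈ L s) {e' : Bool × ℕ × ℕ → α}
    (he' : ∀ s ∈ S, (L' s).getLast? = some (e' s)) {M' : Matroid α} (hE : crr L' S ⊆ M'.E)
    (hr : ∀ X ⊆ crr L' S, rk M' X = rk (M ／ (crr L S \ crr L' S)) X) :
    ∃ f', GSide M' S L' f' e' u := by
  classical
  set Z := crr L S \ crr L' S with hZ
  have hne : ∀ s ∈ S, L' s ≠ [] := by
    intro s hs h0
    have := he' s hs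
    rw [h0] at this
    simp at this
  have hdisj' : ∀ s ∈ S, ∀ x ∈ L s, (x ∈ crr L' S ↔ x ∈ L' s) := by
    intro s hs x hx
    constructor
    · rintro ⟨s', hs', hx'⟩
      have h1 := h.uniq hs hs' hx (hm s' hs' x hx')
      subst h1
      exact hx'
    · exact fun hx' => ⟨s, hs, hx'⟩
  -- the old rows, first the lost elements
  obtain ⟨L'', hL''⟩ : ∃ L'' : Bool × ℕ × ℕ → List α, ∀ s, L'' s =
      (L s).filter (fun x => x ∈ Z) ++ L' s := ⟨_, fun _ => rfl⟩
  have hmem'' : ∀ s ∈ S, ∀ x, x ∈ L'' s ↔ x ∈ L s := by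
    intro s hs x
    rw [hL'', List.mem_append, List.mem_filter]
    constructor
    · rintro (h1 | h1)
      · exact h1.1
      · exact hm s hs x h1
    · intro h1
      by_cases h2 : x ∈ L' s
      · exact Or.inr h2
      · refine Or.inl ⟨h1, ?_⟩
        simp only [decide_eq_true_eq]
        exact ⟨⟨s, hs, h1⟩, fun h3 => h2 ((hdisj' s hs x h1).1 h3)⟩
  have hnd'' : ∀ s ∈ S, (L'' s).Nodup := by
    intro s hs
    rw [hL'']
    refine List.nodup_append.2 ⟨(h.nodup s hs).filter _, hnd' s hs, ?_⟩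
    intro x hx y hy hxy
    subst hxy
    rw [List.mem_filter] at hx
    simp only [decide_eq_true_eq] at hx
    exact hx.2.2 ⟨s, hs, hy⟩
  have hlast'' : ∀ s ∈ S, (L'' s).getLast? = some (e' s) := by
    intro s hs
    rw [hL'', List.getLast?_append_of_ne_nil _ (hne s hs)]
    exact he' s hs
  obtain ⟨f₁, h₁⟩ := gside_reord h hnd'' hmem'' hlast''
  have hcrr'' : crr L'' S = crr L S := by
    ext x
    constructor
    · rintro ⟨s, hs, hx⟩
      exact ⟨s, hs, (hmem'' s hs x).1 hx⟩
    · rintro ⟨s, hs, hx⟩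
      exact ⟨s, hs, (hmem'' s hs x).2 hx⟩
  have heL' : ∀ s ∈ S, e' s ∈ L' s := by
    intro s hs
    have := he' s hs
    exact List.mem_of_getLast? this
  obtain ⟨f₂, h₂⟩ := h₁.contract (Z := Z) (by rw [hcrr'']; exact sdiff_subset)
    fun s hs hz => hz.2 ⟨s, hs, heL' s hs⟩
  -- the lists
  have hfil : ∀ (p : α → Bool) (l₁ l₂ : List α), (∀ x ∈ l₁, p x = false) →
      (∀ x ∈ l₂, p x = true) → (l₁ ++ l₂).filter p = l₂ := by
    intro p l₁ l₂ h1 h2
    rw [List.filter_append, List.filter_eq_nil_iff.2 fun x hx => by rw [h1 x hx]; simp,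
      List.filter_eq_self.2 h2, List.nil_append]
  have hlrem : ∀ s ∈ S, lrem L'' Z s = L' s := by
    intro s hs
    unfold lrem
    rw [hL'']
    refine hfil _ _ _ ?_ ?_
    · intro x hx
      rw [List.mem_filter] at hx
      simp only [decide_eq_true_eq] at hx
      simp only [decide_eq_false_iff_not, not_not]
      exact hx.2
    · intro x hx
      simp only [decide_eq_true_eq]
      exact fun h5 => h5.2 ⟨s, hs, hx⟩
  have h₃ : GSide (M ／ Z) S L' f₂ e' u := by
    have hc : crr (lrem L'' Z) S = crr L' S := by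
      ext x
      constructor
      · rintro ⟨s, hs, hx⟩
        exact ⟨s, hs, by rw [← hlrem s hs]; exact hx⟩
      · rintro ⟨s, hs, hx⟩
        exact ⟨s, hs, by rw [hlrem s hs]; exact hx⟩
    refine ⟨hnd', ?_, ?_, ?_, he'⟩
    · intro s hs s' hs' hne x hx hx'
      exact h.disj s hs s' hs' hne (hm s hs x hx) (hm s' hs' x hx')
    · intro s hs i hi
      have h6 := hlrem s hs
      have hi' : i < (lrem L'' Z s).length := by rw [h6]; exact hi
      have h7 := h₂.end_eq s hs i hi'
      simp only [h6] at h7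
      exact h7
    · rw [← hc]
      exact h₂.lift
  exact ⟨f₂, h₃.of_rk hE hr⟩

/-- contraction of parts of the rows -/
theorem rowF_con_sub [M.Finite] {ι : Type*} {Rw Rw' : ι → Set α} {ν : Set ι → ℕ}
    (h : RowF M Rw ν) (hsub : ∀ s, Rw' s ⊆ Rw s) (hne : ∀ s, (Rw' s).Nonempty) :
    RowF (M ／ ((⋃ s, Rw s) \ ⋃ s, Rw' s)) Rw' ν where
  sub := fun s x hx => ⟨h.sub s (hsub s hx), fun h1 => h1.2 (mem_iUnion.2 ⟨s, hx⟩)⟩
  ne := hne
  dis := fun s s' hs => (h.dis s s' hs).mono (hsub s) (hsub s')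
  rk := fun X hX => by
    set A : Set α := (⋃ s, Rw s) \ ⋃ s, Rw' s with hA
    have hAE : A ⊆ M.E := sdiff_subset.trans h.sub'
    have hXA : Disjoint X A := by
      rw [Set.disjoint_left]
      exact fun x hx hx' => hx'.2 (hX hx)
    have hXE : X ⊆ M.E := hX.trans ((iUnion_mono hsub).trans h.sub')
    have hAf : A.Finite := M.ground_finite.subset hAE
    have hXf : X.Finite := M.ground_finite.subset hXE
    have h1 := h.rk (X ∪ A) (union_subset (hX.trans (iUnion_mono hsub)) sdiff_subset)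
    have h2 := h.rk A sdiff_subset
    have h3 := h.rk ∅ (empty_subset _)
    have e1 : {s | Rw s ⊆ X ∪ A} = {s | Rw' s ⊆ X} := by
      ext s
      constructor
      · intro hs x hx
        rcases hs (hsub s hx) with h4 | h4
        · exact h4
        · exact absurd (mem_iUnion.2 ⟨s, hx⟩) h4.2
      · intro hs x hx
        by_cases h4 : x ∈ Rw' s
        · exact Or.inl (hs h4)
        · refine Or.inr ⟨mem_iUnion.2 ⟨s, hx⟩, fun h5 => ?_⟩
          obtain ⟨s', hs'⟩ := mem_iUnion.1 h5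
          have h6 : s = s' := h.uniq hx (hsub s' hs')
          exact h4 (h6 ▸ hs')
    have e2 : {s | Rw s ⊆ A} = {s | Rw s ⊆ ∅} := by
      ext s
      constructor
      · intro hs
        obtain ⟨x, hx⟩ := hne s
        exact absurd (mem_iUnion.2 ⟨s, hx⟩) (hs (hsub s hx)).2
      · intro hs x hx
        exact absurd (hs hx) (notMem_empty x)
    rw [e1, ncard_union_eq hXA hXf hAf] at h1
    rw [e2] at h2
    rw [ncard_empty] at h3
    have h4 := rk_contract_set (M := M) hAE (X := X) (fun x hx => ⟨hXE hx, fun hx' =>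
      Set.disjoint_left.1 hXA hx hx'⟩)
    have h5 : rk M A ≤ rk M (X ∪ A) := rk_mono M subset_union_right
    omega

/-- **Rows of a minimal system**: `M'` has exact rows `{x | x ∈ L' s}` with the same nullities. -/
theorem gside_of_rowF [M.Finite] (h : GSide M S L f e u) (hnd' : ∀ s ∈ S, (L' s).Nodup)
    (hm : ∀ s ∈ S, ∀ x, x ∈ L' s → x ∈ L s) {e' : Bool × ℕ × ℕ → α}
    (he' : ∀ s ∈ S, (L' s).getLast? = some (e' s)) {M' : Matroid α}
    (hF : RowF M' (fun s : {s // s ∈ S} => {x | x ∈ L' s.1}) (nuG M S L)) :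
    ∃ f', GSide M' S L' f' e' u := by
  have h1 := rowF_con_sub (Rw' := fun s : {s // s ∈ S} => {x | x ∈ L' s.1}) (gside_rowF h)
    (fun s x hx => hm s.1 s.2 x hx) hF.ne
  rw [← crr_iUnion, ← crr_iUnion] at h1
  refine gside_rows h hnd' hm he' ?_ ?_
  · rw [crr_iUnion]
    exact hF.sub'
  · intro X hX
    rw [crr_iUnion] at hX
    have h2 := h1.rk X hX
    have h3 := hF.rk X hX
    omega

end

end TST
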