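import Pool.Agent.DA.GamC74
import Pool.Agent.TST.OutDef
import Pool.Agent.TST.RowsRe

/-!
# Gamma elements: elements with at most one place outside of the light rows (row P5 of Claim F)

`gamma3`: `DA.Gam.gamma2` for a set `G` of elements without labels: every element of `G` sees at most
one row of `Λ` outside of the light rows, with at most two classes, or at most one vertex.
-/

open Set BIC BICS CWL
open scoped Matroid

namespace TSH

universe u v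

section row

variable {α : Type*} {M : Matroid α} {S₀ : Set (Bool × ℕ × ℕ)} {L : Bool × ℕ × ℕ → List α}
  {f : α → Sym2 ((ℕ × ℕ) ⊕ α)} {e : Bool × ℕ × ℕ → α} {u : ℕ}

/-- **The classes of a row**: an element which does not separate `x` from any `y ∈ Z` is spanned
without `x` and `Z`. -/
theorem row_inter [M.Finite] (h : GSide M S₀ L f e u) {s : Bool × ℕ × ℕ} (hs : s ∈ S₀) {z x : α}
    (hx : x ∈ L s) (Z : Finset α) (hZ : ∀ y ∈ Z, y ∈ L s ∧ y ≠ x) (hne : Z.Nonempty)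
    (hz : ∀ y ∈ Z, z ∈ M.closure (crr L S₀ \ {x, y})) :
    z ∈ M.closure (crr L S₀ \ insert x (Z : Set α)) := by
  classical
  have hSE : crr L S₀ ⊆ M.E := h.sub_ground
  induction Z using Finset.induction_on with
  | empty => exact absurd hne Finset.not_nonempty_empty
  | insert y Z hy ih =>
    rcases Z.eq_empty_or_nonempty with h0 | h0
    · subst h0
      have := hz y (Finset.mem_insert_self _ _)
      simpa using this
    · have h1 := ih (fun y' hy' => hZ y' (Finset.mem_insert_of_mem hy')) h0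
        (fun y' hy' => hz y' (Finset.mem_insert_of_mem hy'))
      have h2 := hz y (Finset.mem_insert_self _ _)
      obtain ⟨hyL, hyx⟩ := hZ y (Finset.mem_insert_self _ _)
      obtain ⟨S, hS⟩ : ∃ S, S = crr L S₀ := ⟨_, rfl⟩
      rw [← hS] at h1 h2 hSE ⊢
      have hyS : y ∈ S := by rw [hS]; exact ⟨s, hs, hyL⟩
      have hxS : x ∈ S := by rw [hS]; exact ⟨s, hs, hx⟩
      have h3 := TST.gside_ser h hs hyL hx hyx
      rw [← hS] at h3
      -- ranks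
      have hzE : z ∈ M.E := M.closure_subset_ground _ h2
      have r1 := DA.rk_ins_mem h1
      have r2 := DA.rk_ins_mem h2
      have r3 := DA.rk_ins_not (hSE hyS) h3
      have e3 : insert y (S \ {y, x}) = S \ {x} := by
        ext t
        simp only [mem_insert_iff, mem_sdiff, mem_singleton_iff, not_or]
        constructor
        · rintro (rfl | ⟨ht, h4, h5⟩)
          · exact ⟨hyS, hyx⟩
          · exact ⟨ht, h5⟩
        · rintro ⟨ht, h4⟩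
          by_cases h5 : t = y
          · exact Or.inl h5
          · exact Or.inr ⟨ht, h5, h4⟩
      rw [e3, pair_comm y x] at r3
      have r4 : rk M (insert z (S \ insert x ((insert y Z : Finset α) : Set α))) +
          rk M (S \ {x}) ≤ rk M (insert z (S \ insert x (Z : Set α))) +
          rk M (insert z (S \ {x, y})) := by
        rw [add_comm (rk M (insert z (S \ insert x (Z : Set α))))]
        rw [add_comm]
        rw [add_comm (rk M (insert z (S \ {x, y})))]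
        rw [add_comm]
        refine rk_sub' (subset_inter ?_ ?_) ?_
        · refine insert_subset_insert ?_
          intro t ht
          refine ⟨ht.1, fun h5 => ht.2 ?_⟩
          rcases h5 with h5 | h5
          · exact Or.inl h5
          · exact Or.inr (by
              rw [Finset.coe_insert]
              exact Or.inr h5)
        · refine insert_subset_insert ?_
          intro t ht
          refine ⟨ht.1, fun h5 => ht.2 ?_⟩
          rcases h5 with h5 | h5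
          · exact Or.inl h5
          · exact Or.inr (by
              rw [Finset.coe_insert]
              exact Or.inl h5)
        · rintro t ⟨ht, htx⟩
          by_cases h5 : t = y
          · subst h5
            refine Or.inl (Or.inr ⟨ht, ?_⟩)
            rintro (h6 | h6)
            · exact htx h6
            · exact hy (Finset.mem_coe.1 h6)
          · refine Or.inr (Or.inr ⟨ht, ?_⟩)
            rintro (h6 | h6)
            · exact htx h6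
            · exact h5 h6
      have r5 : rk M (S \ insert x (Z : Set α)) ≤
          rk M (S \ insert x ((insert y Z : Finset α) : Set α)) + 1 := by
        refine (rk_mono M ?_).trans (rk_insert_le y _)
        rintro t ⟨ht, h5⟩
        by_cases h6 : t = y
        · exact Or.inl h6
        · refine Or.inr ⟨ht, ?_⟩
          rintro (h7 | h7)
          · exact h5 (Or.inl h7)
          · rw [Finset.coe_insert] at h7
            rcases h7 with h7 | h7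
            · exact h6 h7
            · exact h5 (Or.inr h7)
      by_contra hcon
      have r6 := DA.rk_ins_not hzE hcon
      omega

/-- a part of one row: cutting costs one -/
lemma cut_row' [M.Finite] (h : GSide M S₀ L f e u) {s : Bool × ℕ × ℕ} (hs : s ∈ S₀) {Z : Set α}
    (hZ : Z ⊆ {x | x ∈ L s}) : rk M (crr L S₀ \ Z) + Z.ncard ≤ rk M (crr L S₀) + 1 := by
  have h3 := h.cut (fun x hx => ⟨s, hs, hZ hx⟩ : Z ⊆ crr L S₀)
  have h4 : {r | r ∈ S₀ ∧ ∃ x ∈ Z, x ∈ L r} ⊆ {s} := by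
    rintro r ⟨hr, x, hx, hxs⟩
    exact mem_singleton_iff.2 (h.uniq hr hs hxs (hZ hx))
  have h5 := Set.ncard_le_ncard h4 (Set.finite_singleton s)
  rw [Set.ncard_singleton] at h5
  omega

/-- the flat of one class -/
lemma row_class [M.Finite] (h : GSide M S₀ L f e u) {s : Bool × ℕ × ℕ} (hs : s ∈ S₀) {A : Set α}
    (hA : A ⊆ {x | x ∈ L s}) {E : Set α} (hE : E ⊆ M.closure (crr L S₀))
    {g : α} (hg : g ∈ A) (h1 : ∀ z ∈ E, ∀ x ∈ A, x ≠ g → z ∈ M.closure (crr L S₀ \ {g, x})) :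
    ∃ P ⊆ crr L S₀, crr L S₀ \ A ⊆ P ∧ E ⊆ M.closure P ∧
      rk M P + A.ncard ≤ rk M (crr L S₀) + 1 := by
  classical
  have hAS : A ⊆ crr L S₀ := fun x hx => ⟨s, hs, hA hx⟩
  have hAf : A.Finite := M.ground_finite.subset (hAS.trans h.sub_ground)
  by_cases hc : ∃ x ∈ A, x ≠ g
  · obtain ⟨x₀, hx₀, hx₀g⟩ := hc
    refine ⟨crr L S₀ \ A, sdiff_subset, subset_rfl, ?_, cut_row' h hs hA⟩
    intro z hz
    have h3 := row_inter h hs (z := z) (x := g) (hA hg) (hAf.toFinset.erase g) (by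
      intro y hy
      obtain ⟨h4, h5⟩ := Finset.mem_erase.1 hy
      exact ⟨hA ((Set.Finite.mem_toFinset _).1 h5), h4⟩)
      ⟨x₀, Finset.mem_erase.2 ⟨hx₀g, (Set.Finite.mem_toFinset _).2 hx₀⟩⟩ (by
      intro y hy
      obtain ⟨h4, h5⟩ := Finset.mem_erase.1 hy
      exact h1 z hz y ((Set.Finite.mem_toFinset _).1 h5) h4)
    have h4 : insert g ((hAf.toFinset.erase g : Finset α) : Set α) = A := by
      ext y
      simp only [Finset.coe_erase, Set.Finite.coe_toFinset, mem_insert_iff, mem_sdiff,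
        mem_singleton_iff]
      constructor
      · rintro (rfl | h5)
        · exact hg
        · exact h5.1
      · intro h5
        by_cases h6 : y = g
        · exact Or.inl h6
        · exact Or.inr ⟨h5, h6⟩
    rwa [h4] at h3
  · push Not at hc
    refine ⟨crr L S₀, subset_rfl, sdiff_subset, hE, ?_⟩
    have h3 : A ⊆ {g} := fun x hx => mem_singleton_iff.2 (hc x hx)
    have h4 := Set.ncard_le_ncard h3 (Set.finite_singleton g)
    rw [Set.ncard_singleton] at h4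
    omega

/-- **Elements with the same two classes on a row** add rank at most two. -/
theorem row_two [M.Finite] (h : GSide M S₀ L f e u) {s : Bool × ℕ × ℕ} (hs : s ∈ S₀) {Y : Set α}
    (hY : Y ⊆ {x | x ∈ L s}) {g : α} (hg : g ∈ Y) {A : Set α} (hA : A ⊆ Y) {E : Set α}
    (hE : E ⊆ M.closure (crr L S₀))
    (h1 : ∀ z ∈ E, ∀ x ∈ A, x ≠ g → z ∈ M.closure (crr L S₀ \ {g, x}))
    (h2 : ∀ z ∈ E, ∀ x ∈ Y, ∀ y ∈ Y, x ∉ insert g A → y ∉ insert g A → x ≠ y →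
      z ∈ M.closure (crr L S₀ \ {x, y})) :
    rk M (E ∪ (crr L S₀ \ Y)) ≤ rk M (crr L S₀ \ Y) + 2 := by
  classical
  have hSE : crr L S₀ ⊆ M.E := h.sub_ground
  have hYS : Y ⊆ crr L S₀ := fun x hx => ⟨s, hs, hY hx⟩
  have hYf : Y.Finite := M.ground_finite.subset (hYS.trans hSE)
  have hA' : insert g A ⊆ Y := insert_subset hg hA
  obtain ⟨P, hP1, hP2, hP3, hP4⟩ := row_class h hs (hA'.trans hY) hE (g := g) (mem_insert _ _) (by
    intro z hz x hx hxg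
    rcases hx with hx | hx
    · exact absurd hx hxg
    · exact h1 z hz x hx hxg)
  obtain ⟨Q, hQ1, hQ2, hQ3, hQ4⟩ : ∃ Q ⊆ crr L S₀, crr L S₀ \ (Y \ insert g A) ⊆ Q ∧
      E ⊆ M.closure Q ∧ rk M Q + (Y \ insert g A).ncard ≤ rk M (crr L S₀) + 1 := by
    rcases (Y \ insert g A).eq_empty_or_nonempty with h0 | ⟨y, hy⟩
    · refine ⟨crr L S₀, subset_rfl, sdiff_subset, hE, ?_⟩
      rw [h0, Set.ncard_empty]
      omega
    · exact row_class h hs (sdiff_subset.trans hY) hE (g := y) hy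
        (fun z hz x hx hxy => h2 z hz y hy.1 x hx.1 hy.2 hx.2 (Ne.symm hxy))
  have h3 : (insert g A).ncard + (Y \ insert g A).ncard = Y.ncard := by
    rw [add_comm]
    exact Set.ncard_sdiff_add_ncard_of_subset hA' hYf
  have h4 : rk M (E ∪ (crr L S₀ \ Y)) + rk M (crr L S₀) ≤ rk M (M.closure P) +
      rk M (M.closure Q) := by
    have hPE := hP1.trans hSE
    have hQE := hQ1.trans hSE
    refine rk_sub' ?_ ?_
    · refine union_subset (subset_inter hP3 hQ3) (subset_inter ?_ ?_)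
      · refine Subset.trans ?_ (M.subset_closure P hPE)
        exact (sdiff_subset_sdiff_right hA').trans hP2
      · refine Subset.trans ?_ (M.subset_closure Q hQE)
        exact (sdiff_subset_sdiff_right sdiff_subset).trans hQ2
    · intro x hx
      by_cases h5 : x ∈ insert g A
      · exact Or.inr (M.subset_closure Q hQE (hQ2 ⟨hx, fun h6 => h6.2 h5⟩))
      · exact Or.inl (M.subset_closure P hPE (hP2 ⟨hx, h5⟩))
  rw [rk_closure, rk_closure] at h4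
  have h5 : rk M (crr L S₀) ≤ rk M (crr L S₀ \ Y) + Y.ncard := by
    refine (rk_mono M ?_).trans (rk_union_le M hYf)
    intro x hx
    by_cases h6 : x ∈ Y
    · exact Or.inr h6
    · exact Or.inl ⟨hx, h6⟩
  omega

end row

/-- the representatives of the rows at `v` -/
def stg {α : Type*} (w : ℕ) (g : Bool × ℕ × ℕ → α) (v : ℕ × ℕ) : Set α :=
  {x | ∃ r ∈ Seg w, (segNear r = v ∨ segFar r = v) ∧ x = g r}

/-- no row of `Λ` outside of `LR` is seen -/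
def NoRow {α : Type*} (M : Matroid α) (w : ℕ) (L₁ : Bool × ℕ × ℕ → List α) (Λ : Set α)
    (LR : Set (Bool × ℕ × ℕ)) (z : α) : Prop :=
  ∀ r ∈ Seg w, r ∉ LR → z ∈ M.closure (crr L₁ (Seg w) \ DA.Gam.rowΛ L₁ Λ r)

/-- **Elements with at most one place outside of `LR`** (for the wall `Λ`, representatives `g`). -/
structure OneP {α : Type*} (M : Matroid α) (w : ℕ) (L₁ : Bool × ℕ × ℕ → List α) (Λ : Set α)
    (g : Bool × ℕ × ℕ → α) (LR : Set (Bool × ℕ × ℕ)) (z : α) : Prop where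
  one : ∀ r ∈ Seg w, r ∉ LR → ∀ r' ∈ Seg w, r' ∉ LR →
    z ∉ M.closure (crr L₁ (Seg w) \ DA.Gam.rowΛ L₁ Λ r) →
    z ∉ M.closure (crr L₁ (Seg w) \ DA.Gam.rowΛ L₁ Λ r') → r = r'
  two : ∀ r ∈ Seg w, r ∉ LR → ∀ x ∈ DA.Gam.rowΛ L₁ Λ r, ∀ y ∈ DA.Gam.rowΛ L₁ Λ r,
    ∀ y' ∈ DA.Gam.rowΛ L₁ Λ r, x ≠ y → x ≠ y' → y ≠ y' →
    z ∈ M.closure (crr L₁ (Seg w) \ {x, y}) ∨ z ∈ M.closure (crr L₁ (Seg w) \ {x, y'}) ∨
      z ∈ M.closure (crr L₁ (Seg w) \ {y, y'})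
  ver : NoRow M w L₁ Λ LR z → ∀ v, v ∉ VV LR → ∀ v', v' ∉ VV LR →
    z ∉ M.closure (crr L₁ (Seg w) \ stg w g v) →
    z ∉ M.closure (crr L₁ (Seg w) \ stg w g v') → v = v'

/-- the elements of `G` with a place outside of `LR` which is not at the rows `Mv` -/
def Fx {α : Type*} (M : Matroid α) (w : ℕ) (L₁ : Bool × ℕ × ℕ → List α) (Λ : Set α)
    (g : Bool × ℕ × ℕ → α) (LR : Set (Bool × ℕ × ℕ)) (G : Set α) (Mv : Set (Bool × ℕ × ℕ)) :
    Set α :=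
  {z | z ∈ G ∧ ((∃ r ∈ Seg w, r ∉ LR ∧ r ∉ Mv ∧
      z ∉ M.closure (crr L₁ (Seg w) \ DA.Gam.rowΛ L₁ Λ r)) ∨
    (NoRow M w L₁ Λ LR z ∧ ∃ v ∈ VV (Seg w), v ∉ VV LR ∧ v ∉ VV Mv ∧
      z ∉ M.closure (crr L₁ (Seg w) \ stg w g v)))}

lemma rk_sub_strand {α : Type*} {M : Matroid α} [M.Finite] {S Z Z' F : Set α} {q : ℕ}
    (hZ : Z' ⊆ Z) (h : rk M (F ∪ (S \ Z)) ≤ rk M (S \ Z) + q) :
    rk M (F ∪ (S \ Z')) ≤ rk M (S \ Z') + q := by
  have h1 : rk M (S \ Z) + rk M (F ∪ (S \ Z')) ≤ rk M (F ∪ (S \ Z)) + rk M (S \ Z') := by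
    refine rk_sub' (subset_inter subset_union_right (sdiff_subset_sdiff_right hZ)) ?_
    rintro x (hx | hx)
    · exact Or.inl (Or.inl hx)
    · exact Or.inr hx
  omega

lemma rk_union_strand {α : Type*} {M : Matroid α} [M.Finite] {X F F' : Set α} {q q' : ℕ}
    (h : rk M (F ∪ X) ≤ rk M X + q) (h' : rk M (F' ∪ X) ≤ rk M X + q') :
    rk M ((F ∪ F') ∪ X) ≤ rk M X + (q + q') := by
  have h1 := DA.rk_rel (M := M) X F F'
  rw [union_comm X F, union_comm X F', union_comm X] at h1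
  omega

lemma seg_ncard_mono {w w' : ℕ} (h : w ≤ w') : (Seg w).ncard ≤ (Seg w').ncard :=
  Set.ncard_le_ncard (Seg_mono' h) (seg_finite w')

/-- **Gamma elements without labels.** -/
theorem gamma3 (k : ℕ) (hk : 2 ≤ k) (κ : ℕ) : ∃ C : ℕ, ∀ ρh : ℕ, ∃ w₁ s₁ : ℕ,
    ∀ h wmax R n' : ℕ, ∃ n : ℕ, ∀ {α : Type u} {σ : Type v} (M : Matroid α) [M.Finite]
    (w s : ℕ) (L₁ L₂ : Bool × ℕ × ℕ → List α) (f₁ f₂ : α → Sym2 ((ℕ × ℕ) ⊕ α))
    (e₁ e₂ : Bool × ℕ × ℕ → α) (Λ : Set α) (g : Bool × ℕ × ℕ → α) (H : Finset σ)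
    (c : σ → ℕ → α) (rr : σ → Bool × ℕ × ℕ) (LR : Set (Bool × ℕ × ℕ)) (G : Set α),
    w₁ ≤ w → w ≤ wmax → s₁ ≤ s →
    GSide M (Seg w) L₁ f₁ e₁ κ → GSide M✶ (Seg s) L₂ f₂ e₂ κ →
    (∀ i j a b : ℕ, shS i j '' Seg ρh ⊆ Seg w → shS a b '' Seg ρh ⊆ Seg s →
      ∃ r ∈ shS i j '' Seg ρh, ∃ x ∈ L₁ r, x ∈ crr L₂ (shS a b '' Seg ρh)) →
    Λ ⊆ crr L₁ (Seg w) → Λ.ncard ≤ R → (∀ r ∈ Seg w, g r ∈ L₁ r ∧ g r ∈ Λ) →
    crr L₁ (Seg w) ∩ crr L₂ (Seg s) ⊆ Λ → LR ⊆ Seg w → H.card ≤ h →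
    (∀ y ∈ H, rr y ∈ Seg w ∧ ∀ i ≤ n, c y i ∈ L₁ (rr y) ∧ c y i ∉ Λ) →
    (∀ y ∈ H, ∀ y' ∈ H, ∀ i ≤ n, ∀ j ≤ n, c y i = c y' j → y = y' ∧ i = j) →
    G ⊆ M.closure (crr L₁ (Seg w)) → Disjoint G (crr L₁ (Seg w)) →
    Disjoint G (crr L₂ (Seg s)) → (∀ z ∈ G, OneP M w L₁ Λ g LR z) →
    HasUniformMinor M k ∨
    ∃ B ⊆ Finset.Icc 1 n, B.card = n' ∧ ∃ Mv : Finset (Bool × ℕ × ℕ),
      (Mv : Set (Bool × ℕ × ℕ)) ⊆ Seg w \ LR ∧ Mv.card ≤ C * H.card ∧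
      rk M (Fx M w L₁ Λ g LR G Mv ∪ (crr L₁ (Seg w) \ DA.Gam.ZH H c B)) ≤
        rk M (crr L₁ (Seg w) \ DA.Gam.ZH H c B) + H.card * (2 * k) := by
  classical
  obtain ⟨C, hC⟩ := DA.Gam.gamma2.{u, v, u} k hk κ 2
  obtain ⟨C', hC'⟩ := DA.Gam.gamma2.{u, v, 0} k hk κ 2
  refine ⟨C + C', ?_⟩
  intro ρh
  obtain ⟨w₁, s₁, h1⟩ := hC ρh
  obtain ⟨w₂, s₂, h2⟩ := hC' ρh
  refine ⟨max w₁ w₂, max s₁ s₂, ?_⟩
  intro h wmax R n'
  obtain ⟨n₂, hn₂⟩ := h2 h (2 * (Seg wmax).ncard) R n'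
  obtain ⟨n, hn⟩ := h1 h ((Seg wmax).ncard * 2 ^ R) R (n₂ + 1)
  refine ⟨n, ?_⟩
  intro α σ M _ w s L₁ L₂ f₁ f₂ e₁ e₂ Λ g H c rr LR G hw hwm hs hg₁ hg₂ hhot hΛS hΛR hg hΛc hLR hH
    hstr hinj hG₀ hG₁ hG₂ hone
  obtain ⟨S, hS⟩ : ∃ S, S = crr L₁ (Seg w) := ⟨_, rfl⟩
  have hSE : S ⊆ M.E := by rw [hS]; exact hg₁.sub_ground
  have hΛf : Λ.Finite := M.ground_finite.subset (hΛS.trans hg₁.sub_ground)
  have hsf := seg_finite w
  have hΛrk : rk M Λ ≤ R := (rk_le_ncard M hΛf).trans hΛR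
  have hstar : ∀ y ∈ H, ∀ i ≤ n, ∀ j ≤ n, i ≠ j →
      c y i ∉ M.closure (crr L₁ (Seg w) \ {c y i, c y j}) := by
    intro y hy i hi j hj hij
    exact TST.gside_ser hg₁ (hstr y hy).1 ((hstr y hy).2 i hi).1 ((hstr y hy).2 j hj).1
      (fun h' => hij (hinj y hy y hy i hi j hj h').2)
  have hΛr : ∀ r ∈ Seg w, ∃ x ∈ L₁ r, x ∈ Λ := fun r hr => ⟨g r, (hg r hr).1, (hg r hr).2⟩
  have hdLR : ∀ r ∈ Seg w, r ∉ LR → ∀ x ∈ L₁ r, x ∉ crr L₁ LR := by
    rintro r hr hrL x hx ⟨r', hr', hx'⟩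
    exact hrL (by rw [hg₁.uniq hr (hLR hr') hx hx']; exact hr')
  -- first application: the elements which see a row
  obtain ⟨Lab₁, hLab₁⟩ : ∃ Lab₁ : Finset ((Bool × ℕ × ℕ) × Finset α),
      Lab₁ = (hsf.toFinset.filter (fun r => r ∉ LR)) ×ˢ hΛf.toFinset.powerset := ⟨_, rfl⟩
  have hmL₁ : ∀ a ∈ Lab₁, a.1 ∈ Seg w ∧ a.1 ∉ LR := by
    intro a ha
    rw [hLab₁, Finset.mem_product, Finset.mem_filter, Set.Finite.mem_toFinset] at ha
    exact ha.1
  obtain ⟨E₁, hE₁⟩ : ∃ E₁ : (Bool × ℕ × ℕ) × Finset α → Set α, E₁ = fun a =>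
      {z | z ∈ G ∧ z ∉ M.closure (crr L₁ (Seg w) \ DA.Gam.rowΛ L₁ Λ a.1) ∧
        ∀ x ∈ DA.Gam.rowΛ L₁ Λ a.1, x ≠ g a.1 →
          (x ∈ a.2 ↔ z ∈ M.closure (crr L₁ (Seg w) \ {g a.1, x}))} := ⟨_, rfl⟩
  have hE₁G : ∀ a, E₁ a ⊆ G := by
    intro a z hz
    rw [hE₁] at hz
    exact hz.1
  have hown₁ : ∀ a ∈ Lab₁, ∀ r ∈ Seg w, r ∉ LR → a.1 ≠ r →
      E₁ a ⊆ M.closure (crr L₁ (Seg w) \ DA.Gam.rowΛ L₁ Λ r) := by
    intro a ha r hr hrL hne z hz
    rw [hE₁] at hz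
    by_contra hcon
    exact hne ((hone z hz.1).one a.1 (hmL₁ a ha).1 (hmL₁ a ha).2 r hr hrL hz.2.1 hcon)
  have hgm₁ : DA.Gam.GmR M (crr L₁ (Seg w)) Λ H c n Lab₁ E₁
      (fun a => DA.Gam.rowΛ L₁ Λ a.1) (fun a => a.1) := by
    refine ⟨hg₁.sub_ground, hΛS, ?_, hinj, hstar, ?_, ?_, ?_, ?_⟩
    · intro y hy i hi
      exact ⟨⟨rr y, (hstr y hy).1, ((hstr y hy).2 i hi).1⟩, ((hstr y hy).2 i hi).2⟩
    · exact fun a _ => (hE₁G a).trans hG₀
    · exact fun a _ => inter_subset_right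
    · intro a _ z hz
      rw [hE₁] at hz
      exact hz.2.1
    · intro a ha a' ha' hne
      exact hown₁ a' ha' a.1 (hmL₁ a ha).1 (hmL₁ a ha).2 (Ne.symm hne)
  have hcard₁ : Lab₁.card ≤ (Seg wmax).ncard * 2 ^ R := by
    rw [hLab₁, Finset.card_product, Finset.card_powerset]
    refine Nat.mul_le_mul ?_ (Nat.pow_le_pow_right (by norm_num) ?_)
    · refine (Finset.card_filter_le _ _).trans ?_
      rw [← Set.ncard_eq_toFinset_card _ hsf]
      exact seg_ncard_mono hwm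
    · rw [← Set.ncard_eq_toFinset_card _ hΛf]
      exact hΛR
  rcases hn M w s L₁ L₂ f₁ f₂ e₁ e₂ Λ H c Lab₁ E₁ (fun a => DA.Gam.rowΛ L₁ Λ a.1) rr
      (fun a => a.1) LR ((le_max_left _ _).trans hw) ((le_max_left _ _).trans hs) hg₁ hg₂ hhot hgm₁
      hΛrk hH hcard₁ hΛr hΛc
      (fun y hy => ⟨(hstr y hy).1, fun i hi => ((hstr y hy).2 i hi).1⟩)
      (fun a _ => hG₁.mono_left (hE₁G a)) (fun a _ => hG₂.mono_left (hE₁G a))
      (by
        intro a ha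
        rw [Set.disjoint_left]
        exact fun x hx => hdLR a.1 (hmL₁ a ha).1 (hmL₁ a ha).2 x hx.1) hown₁ (by
        intro a ha r hr hrL hρ
        have hρ' : a.1 = r := hρ
        subst hρ'
        refine row_two hg₁ hr (Y := DA.Gam.rowΛ L₁ Λ a.1) inter_subset_left (g := g a.1)
          ⟨(hg _ hr).1, (hg _ hr).2⟩ (A := {x | x ∈ DA.Gam.rowΛ L₁ Λ a.1 ∧ x ∈ a.2})
          (fun x hx => hx.1) ((hE₁G a).trans hG₀) ?_ ?_
        · intro z hz x hx hxg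
          rw [hE₁] at hz
          exact (hz.2.2 x hx.1 hxg).1 hx.2
        · intro z hz x hx y hy hx' hy' hxy
          rw [hE₁] at hz
          have hxg : x ≠ g a.1 := fun h' => hx' (Or.inl h')
          have hyg : y ≠ g a.1 := fun h' => hy' (Or.inl h')
          rcases (hone z hz.1).two a.1 hr hrL (g a.1) ⟨(hg _ hr).1, (hg _ hr).2⟩ x hx y hy
            (Ne.symm hxg) (Ne.symm hyg) hxy with h5 | h5 | h5
          · exact absurd (Or.inr ⟨hx, (hz.2.2 x hx hxg).2 h5⟩) hx'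
          · exact absurd (Or.inr ⟨hy, (hz.2.2 y hy hyg).2 h5⟩) hy'
          · exact h5) with hU | ⟨B₁, hB₁, hB₁c, Mv₁, hMv₁, hF₁, -⟩
  · exact Or.inl hU
  -- the tiles of the first choice
  obtain ⟨ψ, hψ1, hψ2⟩ : ∃ ψ : ℕ → ℕ, (∀ i ≤ n₂, ψ i ∈ B₁) ∧
      ∀ i ≤ n₂, ∀ j ≤ n₂, ψ i = ψ j → i = j := by
    have eq := (Finset.equivFinOfCardEq hB₁c).symm
    refine ⟨fun i => if h' : i < n₂ + 1 then (eq ⟨i, h'⟩ : ℕ) else 0, ?_, ?_⟩
    · intro i hi
      have h' : i < n₂ + 1 := by omega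
      simp only [h', dif_pos]
      exact (eq ⟨i, h'⟩).2
    · intro i hi j hj hij
      have h' : i < n₂ + 1 := by omega
      have h'' : j < n₂ + 1 := by omega
      simp only [h', h'', dif_pos] at hij
      have := eq.injective (Subtype.ext hij)
      simpa using this
  have hψn : ∀ i ≤ n₂, ψ i ≤ n := fun i hi => (Finset.mem_Icc.1 (hB₁ (hψ1 i hi))).2
  -- second application: the elements at the vertices
  obtain ⟨Lab₂, hLab₂⟩ : ∃ Lab₂ : Finset (ℕ × ℕ), Lab₂ =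
      ((hsf.toFinset.image segNear) ∪ (hsf.toFinset.image segFar)).filter (fun v => v ∉ VV LR) :=
    ⟨_, rfl⟩
  have hmL₂ : ∀ v, v ∈ Lab₂ ↔ v ∈ VV (Seg w) ∧ v ∉ VV LR := by
    intro v
    rw [hLab₂, Finset.mem_filter, Finset.mem_union, Finset.mem_image, Finset.mem_image]
    refine and_congr_left fun _ => ?_
    constructor
    · rintro (⟨r, hr, rfl⟩ | ⟨r, hr, rfl⟩)
      · exact ⟨r, (Set.Finite.mem_toFinset _).1 hr, Or.inl rfl⟩
      · exact ⟨r, (Set.Finite.mem_toFinset _).1 hr, Or.inr rfl⟩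
    · rintro ⟨r, hr, h' | h'⟩
      · exact Or.inl ⟨r, (Set.Finite.mem_toFinset _).2 hr, h'⟩
      · exact Or.inr ⟨r, (Set.Finite.mem_toFinset _).2 hr, h'⟩
  obtain ⟨ρ₂, hρ₂⟩ : ∃ ρ₂ : ℕ × ℕ → Bool × ℕ × ℕ, ∀ v ∈ Lab₂, ρ₂ v ∈ Seg w ∧
      (segNear (ρ₂ v) = v ∨ segFar (ρ₂ v) = v) := by
    have hex : ∀ v, ∃ r : Bool × ℕ × ℕ, v ∈ Lab₂ → r ∈ Seg w ∧ (segNear r = v ∨ segFar r = v) := by
      intro v
      by_cases hv : v ∈ Lab₂
      · obtain ⟨r, hr, h'⟩ := ((hmL₂ v).1 hv).1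
        exact ⟨r, fun _ => ⟨hr, h'⟩⟩
      · exact ⟨(true, 0, 0), fun h' => absurd h' hv⟩
    choose ρ₂ h' using hex
    exact ⟨ρ₂, h'⟩
  obtain ⟨E₂, hE₂⟩ : ∃ E₂ : ℕ × ℕ → Set α, E₂ = fun v => {z | z ∈ G ∧ NoRow M w L₁ Λ LR z ∧
      z ∉ M.closure (crr L₁ (Seg w) \ stg w g v)} := ⟨_, rfl⟩
  have hE₂G : ∀ a, E₂ a ⊆ G := by
    intro a z hz
    rw [hE₂] at hz
    exact hz.1
  have hstg : ∀ v, stg w g v ⊆ Λ := by
    rintro v _ ⟨r, hr, _, rfl⟩
    exact (hg r hr).2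
  have hown₂ : ∀ v ∈ Lab₂, ∀ r ∈ Seg w, r ∉ LR →
      E₂ v ⊆ M.closure (crr L₁ (Seg w) \ DA.Gam.rowΛ L₁ Λ r) := by
    intro v _ r hr hrL z hz
    rw [hE₂] at hz
    exact hz.2.1 r hr hrL
  have hgm₂ : DA.Gam.GmR M (crr L₁ (Seg w)) Λ H (fun y i => c y (ψ i)) n₂ Lab₂ E₂
      (stg w g) ρ₂ := by
    refine ⟨hg₁.sub_ground, hΛS, ?_, ?_, ?_, ?_, ?_, ?_, ?_⟩
    · intro y hy i hi
      exact hgm₁.memc y hy (ψ i) (hψn i hi)
    · intro y hy y' hy' i hi j hj hij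
      obtain ⟨h5, h6⟩ := hinj y hy y' hy' (ψ i) (hψn i hi) (ψ j) (hψn j hj) hij
      exact ⟨h5, hψ2 i hi j hj h6⟩
    · intro y hy i hi j hj hij
      exact hstar y hy (ψ i) (hψn i hi) (ψ j) (hψn j hj) fun h' => hij (hψ2 i hi j hj h')
    · exact fun a _ => (hE₂G a).trans hG₀
    · exact fun v _ => hstg v
    · intro a _ z hz
      rw [hE₂] at hz
      exact hz.2.2
    · intro v hv v' hv' hne z hz
      rw [hE₂] at hz
      by_contra hcon
      refine hne ?_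
      rw [(hone z hz.1).ver hz.2.1 v ((hmL₂ v).1 hv).2 v' ((hmL₂ v').1 hv').2 hcon hz.2.2]
  have hcard₂ : Lab₂.card ≤ 2 * (Seg wmax).ncard := by
    rw [hLab₂]
    refine (Finset.card_filter_le _ _).trans ((Finset.card_union_le _ _).trans ?_)
    have h5 : hsf.toFinset.card ≤ (Seg wmax).ncard := by
      rw [← Set.ncard_eq_toFinset_card _ hsf]
      exact seg_ncard_mono hwm
    have h6 := Finset.card_image_le (s := hsf.toFinset) (f := segNear)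
    have h7 := Finset.card_image_le (s := hsf.toFinset) (f := segFar)
    omega
  rcases hn₂ M w s L₁ L₂ f₁ f₂ e₁ e₂ Λ H (fun y i => c y (ψ i)) Lab₂ E₂ (stg w g) rr ρ₂ LR
      ((le_max_right _ _).trans hw) ((le_max_right _ _).trans hs) hg₁ hg₂ hhot hgm₂
      hΛrk hH hcard₂ hΛr hΛc
      (fun y hy => ⟨(hstr y hy).1, fun i hi => ((hstr y hy).2 (ψ i) (hψn i hi)).1⟩)
      (fun a _ => hG₁.mono_left (hE₂G a)) (fun a _ => hG₂.mono_left (hE₂G a))
      (by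
        intro v hv
        rw [Set.disjoint_left]
        rintro _ ⟨r, hr, hrv, rfl⟩
        have hrL : r ∉ LR := fun h' => ((hmL₂ v).1 hv).2 ⟨r, h', hrv⟩
        exact hdLR r hr hrL (g r) (hg r hr).1) (fun v hv r hr hrL _ => hown₂ v hv r hr hrL) (by
        intro v hv r hr hrL _
        have h5 : E₂ v ∪ (crr L₁ (Seg w) \ DA.Gam.rowΛ L₁ Λ r) ⊆
            M.closure (crr L₁ (Seg w) \ DA.Gam.rowΛ L₁ Λ r) := by
          refine union_subset (hown₂ v hv r hr hrL) (M.subset_closure _ ?_)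
          exact sdiff_subset.trans hg₁.sub_ground
        have h6 := DA.rk_le_cl (M := M) h5
        omega) with hU | ⟨B₂, hB₂, hB₂c, Mv₂, hMv₂, hF₂, -⟩
  · exact Or.inl hU
  right
  have hB₂n : ∀ i ∈ B₂, i ≤ n₂ := fun i hi => (Finset.mem_Icc.1 (hB₂ hi)).2
  have hBsub : B₂.image ψ ⊆ B₁ := by
    intro x hx
    obtain ⟨i, hi, rfl⟩ := Finset.mem_image.1 hx
    exact hψ1 i (hB₂n i hi)
  refine ⟨B₂.image ψ, hBsub.trans hB₁, ?_, (Mv₁ ∪ Mv₂).filter (fun r => r ∈ Seg w ∧ r ∉ LR), ?_, ?_,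
    ?_⟩
  · rw [Finset.card_image_of_injOn, hB₂c]
    intro i hi j hj hij
    exact hψ2 i (hB₂n i hi) j (hB₂n j hj) hij
  · intro r hr
    exact (Finset.mem_filter.1 (Finset.mem_coe.1 hr)).2
  · refine (Finset.card_filter_le _ _).trans ((Finset.card_union_le _ _).trans ?_)
    rw [Nat.add_mul]
    omega
  · obtain ⟨Mv, hMv⟩ : ∃ Mv, Mv = (Mv₁ ∪ Mv₂).filter (fun r => r ∈ Seg w ∧ r ∉ LR) := ⟨_, rfl⟩
    rw [← hMv]
    have hFsub : Fx M w L₁ Λ g LR G (Mv : Set (Bool × ℕ × ℕ)) ⊆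
        (⋃ a ∈ {a | a ∈ Lab₁ ∧ a.1 ∉ Mv₁}, E₁ a) ∪ ⋃ v ∈ {v | v ∈ Lab₂ ∧ ρ₂ v ∉ Mv₂}, E₂ v := by
      rintro z ⟨hz, ⟨r, hr, hrL, hrM, hzr⟩ | ⟨hno, v, hv, hvL, hvM, hzv⟩⟩
      · left
        refine mem_iUnion₂.2 ⟨(r, hΛf.toFinset.filter
          (fun x => z ∈ M.closure (crr L₁ (Seg w) \ {g r, x}))), ⟨?_, ?_⟩, ?_⟩
        · rw [hLab₁, Finset.mem_product, Finset.mem_filter, Set.Finite.mem_toFinset]
          exact ⟨⟨hr, hrL⟩, Finset.mem_powerset.2 (Finset.filter_subset _ _)⟩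
        · intro h5
          refine hrM (Finset.mem_coe.2 ?_)
          rw [hMv]
          exact Finset.mem_filter.2 ⟨Finset.mem_union_left _ h5, hr, hrL⟩
        · rw [hE₁]
          refine ⟨hz, hzr, ?_⟩
          intro x hx _
          rw [Finset.mem_filter, Set.Finite.mem_toFinset]
          exact ⟨fun h5 => h5.2, fun h5 => ⟨hx.2, h5⟩⟩
      · right
        have hvL₂ : v ∈ Lab₂ := (hmL₂ v).2 ⟨hv, hvL⟩
        refine mem_iUnion₂.2 ⟨v, ⟨hvL₂, ?_⟩, ?_⟩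
        · intro h5
          obtain ⟨h6, h7⟩ := hρ₂ v hvL₂
          refine hvM ⟨ρ₂ v, Finset.mem_coe.2 ?_, h7⟩
          rw [hMv]
          refine Finset.mem_filter.2 ⟨Finset.mem_union_right _ h5, h6, fun h8 => hvL ⟨_, h8, h7⟩⟩
        · rw [hE₂]
          exact ⟨hz, hno, hzv⟩
    have hper : ∀ y ∈ H, rk M (((⋃ a ∈ {a | a ∈ Lab₁ ∧ a.1 ∉ Mv₁}, E₁ a) ∪
        ⋃ v ∈ {v | v ∈ Lab₂ ∧ ρ₂ v ∉ Mv₂}, E₂ v) ∪
          (crr L₁ (Seg w) \ c y '' ((B₂.image ψ : Finset ℕ) : Set ℕ))) ≤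
        rk M (crr L₁ (Seg w) \ c y '' ((B₂.image ψ : Finset ℕ) : Set ℕ)) +
          ((k - 1) + (k - 1)) := by
      intro y hy
      refine rk_union_strand ?_ ?_
      · exact rk_sub_strand (image_mono (by exact_mod_cast hBsub)) (hF₁ y hy)
      · have h5 := hF₂ y hy
        have h6 : (fun i => c y (ψ i)) '' (B₂ : Set ℕ) =
            c y '' ((B₂.image ψ : Finset ℕ) : Set ℕ) := by
          rw [Finset.coe_image, image_image]
        rw [h6] at h5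
        exact h5
    have hBn : ∀ i ∈ B₂.image ψ, i ≤ n := fun i hi => (Finset.mem_Icc.1 (hB₁ (hBsub hi))).2
    have h7 := DA.Gam.sum_strands (M := M) hg₁.sub_ground
      (F := (⋃ a ∈ {a | a ∈ Lab₁ ∧ a.1 ∉ Mv₁}, E₁ a) ∪ ⋃ v ∈ {v | v ∈ Lab₂ ∧ ρ₂ v ∉ Mv₂}, E₂ v)
      (union_subset (iUnion₂_subset fun a _ => (hE₁G a).trans hG₀)
        (iUnion₂_subset fun a _ => (hE₂G a).trans hG₀)) H
      (fun y => c y '' ((B₂.image ψ : Finset ℕ) : Set ℕ)) (by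
        rintro y hy _ ⟨i, hi, rfl⟩
        exact (hgm₁.memc y hy i (hBn i hi)).1) (by
        intro y hy y' hy' hne
        rw [Set.disjoint_left]
        rintro _ ⟨i, hi, rfl⟩ ⟨i', hi', h'⟩
        exact hne (hinj y' hy' y hy i' (hBn i' hi') i (hBn i hi) h').1.symm) (by
        intro y hy
        refine cut_row' hg₁ (hstr y hy).1 ?_
        rintro _ ⟨i, hi, rfl⟩
        exact ((hstr y hy).2 i (hBn i hi)).1) _ hper
    have h8 : rk M (Fx M w L₁ Λ g LR G (Mv : Set (Bool × ℕ × ℕ)) ∪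
        (crr L₁ (Seg w) \ DA.Gam.ZH H c (B₂.image ψ))) ≤
        rk M (((⋃ a ∈ {a | a ∈ Lab₁ ∧ a.1 ∉ Mv₁}, E₁ a) ∪
          ⋃ v ∈ {v | v ∈ Lab₂ ∧ ρ₂ v ∉ Mv₂}, E₂ v) ∪
          (crr L₁ (Seg w) \ DA.Gam.ZH H c (B₂.image ψ))) :=
      rk_mono M (union_subset_union_left _ hFsub)
    have h9 : (k - 1) + (k - 1) + 1 ≤ 2 * k := by omega
    have h10 : H.card * ((k - 1) + (k - 1) + 1) ≤ H.card * (2 * k) := Nat.mul_le_mul_left _ h9
    unfold DA.Gam.ZH at h8 ⊢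
    omega

end TSH
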