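import Pool.Agent.TST.OutDef
import Pool.Agent.TST.ConGeo

/-!
# T-star, row P6: `HonOut` gives `FSys` for a new order of the rows
-/

open Set BIC BICS CWL
open scoped Matroid

namespace TSH

universe u

open Mdl Mdj EN Gad TST EN.Wall

section

variable {α : Type u} {M : Matroid α} {w u₁ : ℕ} {L₁ : Bool × ℕ × ℕ → List α}
  {f₁ : α → Sym2 ((ℕ × ℕ) ⊕ α)} {e₁ : Bool × ℕ × ℕ → α} {A : Set (Bool × ℕ × ℕ)}

/-- the elements at an inner node -/
lemma at_inner (hG : GSide M (Seg w) L₁ f₁ e₁ u₁) {r : Bool × ℕ × ℕ} (hr : r ∈ Seg w) {p : ℕ}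
    (h0 : 0 < p) (h1 : p < (L₁ r).length) :
    {x | x ∈ crr L₁ (Seg w) ∧ node r (L₁ r) p ∉ f₁ x} =
      crr L₁ (Seg w) \ {(L₁ r)[p - 1]'(by omega), (L₁ r)[p]} := by
  ext x
  constructor
  · rintro ⟨hx, hv⟩
    refine ⟨hx, ?_⟩
    rintro (rfl | hx')
    · apply hv
      rw [hG.end_eq r hr (p - 1) (by omega), show p - 1 + 1 = p by omega]
      simp
    · apply hv
      rw [mem_singleton_iff.1 hx', hG.end_eq r hr p h1]
      simp
  · rintro ⟨hx, hv⟩
    refine ⟨hx, fun h => hv ?_⟩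
    obtain ⟨r', hr', hx'⟩ := hx
    obtain ⟨i, hi, rfl⟩ := List.mem_iff_getElem.1 hx'
    rw [hG.end_eq r' hr' i hi] at h
    have key : ∀ j ≤ (L₁ r').length, node r (L₁ r) p = node r' (L₁ r') j → r = r' ∧ p = j := by
      intro j hj hn
      rw [CWL.node_mid r h0 h1] at hn
      rcases node_cases' r' hj rfl with ⟨_, h3⟩ | ⟨_, h3⟩ | ⟨h4, h5, h3⟩
      · rw [h3] at hn
        simp at hn
      · rw [h3] at hn
        simp at hn
      · rw [h3] at hn
        have h6 := Sum.inr.inj hn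
        have h7 : r = r' := row_uniq hG.disj hr hr' (x := (L₁ r)[p - 1]'(by omega))
          (List.getElem_mem _) (by rw [h6]; exact List.getElem_mem _)
        subst h7
        have h8 := (List.Nodup.getElem_inj_iff (hG.nodup r hr)).1 h6
        exact ⟨rfl, by omega⟩
    rcases Sym2.mem_iff.1 h with h2 | h2
    · obtain ⟨h3, h4⟩ := key i hi.le h2
      subst h3
      subst h4
      exact Or.inr rfl
    · obtain ⟨h3, h4⟩ := key (i + 1) hi h2
      subst h3
      subst h4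
      exact Or.inl rfl

/-- the elements at a branch vertex -/
lemma at_branch (hG : GSide M (Seg w) L₁ f₁ e₁ u₁) {p : ℕ × ℕ} {x : α}
    (hx : x ∈ crr L₁ (Seg w)) (h : Sum.inl p ∈ f₁ x) :
    ∃ r ∈ Seg w, ∃ h : L₁ r ≠ [], (segNear r = p ∧ x = (L₁ r).head h) ∨
      (segFar r = p ∧ x = (L₁ r).getLast h) := by
  obtain ⟨r, hr, hx⟩ := hx
  have hne := gs_ne hG r hr
  have hl := List.length_pos_iff.2 hne
  obtain ⟨i, hi, rfl⟩ := List.mem_iff_getElem.1 hx
  rw [hG.end_eq r hr i hi] at h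
  refine ⟨r, hr, hne, ?_⟩
  rcases Sym2.mem_iff.1 h with h2 | h2
  · rcases node_cases' r hi.le h2 with ⟨h3, h4⟩ | ⟨h3, h4⟩ | ⟨_, _, h4⟩
    · left
      subst h3
      exact ⟨(Sum.inl.inj h4).symm, (List.head_eq_getElem hne).symm⟩
    · omega
    · simp at h4
  · rcases node_cases' r (show i + 1 ≤ _ from hi) h2 with ⟨h3, h4⟩ | ⟨h3, h4⟩ | ⟨_, _, h4⟩
    · omega
    · right
      refine ⟨(Sum.inl.inj h4).symm, ?_⟩
      rw [List.getLast_eq_getElem]
      congr 1
      omega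
    · simp at h4

/-- number of nodes -/
lemma LV_card (hG : GSide M (Seg w) L₁ f₁ e₁ u₁) (hA : A ⊆ Seg w) :
    (LV L₁ f₁ A).ncard + A.ncard = (VV A).ncard + (crr L₁ A).ncard := by
  classical
  have hAf : A.Finite := (seg_finite w).subset hA
  have hcf : (crr L₁ A).Finite := by
    have h : crr L₁ A = ⋃ r ∈ A, {x | x ∈ L₁ r} := by
      ext x
      simp [crr]
    rw [h]
    exact hAf.biUnion fun r _ => List.finite_toSet _
  have hVf : (VV A).Finite := by
    refine ((hAf.image segNear).union (hAf.image segFar)).subset ?_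
    rintro p ⟨r, hr, h | h⟩
    · exact Or.inl ⟨r, hr, h⟩
    · exact Or.inr ⟨r, hr, h⟩
  have heq : LV L₁ f₁ A = Sum.inl '' VV A ∪ Sum.inr '' (crr L₁ A \ e₁ '' A) := by
    ext v
    rw [mem_LV hG hA]
    constructor
    · rintro ⟨r, hr, p, hp, rfl⟩
      rcases node_cases' r hp rfl with ⟨_, h⟩ | ⟨_, h⟩ | ⟨h0, h1, h⟩
      · exact Or.inl ⟨_, ⟨r, hr, Or.inl rfl⟩, h.symm⟩
      · exact Or.inl ⟨_, ⟨r, hr, Or.inr rfl⟩, h.symm⟩
      · refine Or.inr ⟨_, ⟨⟨r, hr, List.getElem_mem _⟩, ?_⟩, h.symm⟩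
        rintro ⟨r', hr', h2⟩
        have h3 := hG.mem_last (hA hr')
        rw [h2] at h3
        have h4 := hG.uniq (hA hr) (hA hr') (List.getElem_mem _) h3
        subst h4
        have h5 := hG.last r (hA hr)
        rw [List.getLast?_eq_getElem?, List.getElem?_eq_getElem (by omega)] at h5
        have h6 := Option.some.inj h5
        rw [h2] at h6
        have h7 := (List.Nodup.getElem_inj_iff (hG.nodup r (hA hr))).1 h6
        omega
    · rintro (⟨p, ⟨r, hr, h | h⟩, rfl⟩ | ⟨x, ⟨⟨r, hr, hx⟩, hx'⟩, rfl⟩)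
      · exact ⟨r, hr, 0, Nat.zero_le _, by rw [CWL.node_zero, h]⟩
      · exact ⟨r, hr, _, le_rfl, by rw [CWL.node_last r (gs_ne hG r (hA hr)), h]⟩
      · obtain ⟨i, hi, rfl⟩ := List.mem_iff_getElem.1 hx
        have h1 : i + 1 < (L₁ r).length := by
          by_contra hcon
          apply hx'
          refine ⟨r, hr, ?_⟩
          have h5 := hG.last r (hA hr)
          rw [List.getLast?_eq_getElem?, List.getElem?_eq_getElem (by omega)] at h5
          rw [← Option.some.inj h5]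
          congr 1
          omega
        exact ⟨r, hr, i + 1, h1.le, by rw [CWL.node_mid r (by omega) h1]; rfl⟩
  have hdj : Disjoint (Sum.inl '' VV A) (Sum.inr '' (crr L₁ A \ e₁ '' A) : Set ((ℕ × ℕ) ⊕ α)) := by
    rw [Set.disjoint_left]
    rintro _ ⟨p, _, rfl⟩ ⟨x, _, h⟩
    simp at h
  have he : e₁ '' A ⊆ crr L₁ A := by
    rintro _ ⟨r, hr, rfl⟩
    exact ⟨r, hr, hG.mem_last (hA hr)⟩
  have h1 : (e₁ '' A).ncard = A.ncard := (hG.e_inj.mono hA).ncard_image
  have h2 := ncard_sdiff_add_ncard_of_subset he hcf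
  rw [heq, ncard_union_eq hdj (hVf.image _) ((hcf.subset sdiff_subset).image _),
    ncard_image_of_injective _ Sum.inl_injective, ncard_image_of_injective _ Sum.inr_injective]
  omega

/-- one order of each row for all places -/
lemma exists_order {Zq LR : Set (Bool × ℕ × ℕ)} {T : Set α} {r₁ r₂ : α → Bool × ℕ × ℕ}
    {A₁ A₂ : α → Set α} (h : Plc M w L₁ Zq LR T r₁ r₂ A₁ A₂) :
    ∃ L : Bool × ℕ × ℕ → List α, (∀ r, (L r).Perm (L₁ r)) ∧ (∀ r ∈ LR, L r = L₁ r) ∧
      ∀ t ∈ T, (∃ p, 0 < p ∧ p < (L (r₁ t)).length ∧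
        ∀ (i : ℕ) (hi : i < (L (r₁ t)).length), (L (r₁ t))[i] ∈ A₁ t ↔ i < p) ∧
        ∃ p, 0 < p ∧ p < (L (r₂ t)).length ∧
        ∀ (i : ℕ) (hi : i < (L (r₂ t)).length), (L (r₂ t))[i] ∈ A₂ t ↔ i < p := by
  classical
  let CC : Bool × ℕ × ℕ → Set (Set α) := fun r =>
    {A | ∃ t ∈ T, (r₁ t = r ∧ A = A₁ t) ∨ (r₂ t = r ∧ A = A₂ t)}
  have hc : ∀ r, ∀ C ∈ CC r, ∀ C' ∈ CC r, C ⊆ C' ∨ C' ⊆ C := by
    rintro r C ⟨t, ht, hC⟩ C' ⟨t', ht', hC'⟩
    obtain ⟨h1, h2, h3⟩ := h.chn t ht t' ht'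
    obtain ⟨_, _, h3'⟩ := h.chn t' ht' t ht
    rcases hC with ⟨hr, rfl⟩ | ⟨hr, rfl⟩ <;> rcases hC' with ⟨hr', rfl⟩ | ⟨hr', rfl⟩
    · exact h1 (hr.trans hr'.symm)
    · exact h3 (hr.trans hr'.symm)
    · exact (h3' (hr'.trans hr.symm)).symm
    · exact h2 (hr.trans hr'.symm)
  choose l' hl1 hl2 using fun r => chain_order (L₁ r) (CC r) (hc r)
  let L : Bool × ℕ × ℕ → List α := fun r => if r ∈ LR then L₁ r else l' r
  have hLp : ∀ r, (L r).Perm (L₁ r) := by
    intro r
    simp only [L]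
    split
    · exact List.Perm.refl _
    · exact hl1 r
  have key : ∀ (r : Bool × ℕ × ℕ) (A : Set α), r ∉ LR → A ∈ CC r → (∃ x ∈ L₁ r, x ∈ A) →
      (∃ x ∈ L₁ r, x ∉ A) → ∃ p, 0 < p ∧ p < (L r).length ∧
        ∀ (i : ℕ) (hi : i < (L r).length), (L r)[i] ∈ A ↔ i < p := by
    intro r A hr hA hx hy
    have hLr : L r = l' r := by simp only [L, if_neg hr]
    obtain ⟨l₁, l₂, h1, h2, h3⟩ := hl2 r A hA
    obtain ⟨x, hx, hxA⟩ := hx
    obtain ⟨y, hy, hyA⟩ := hy
    have hx' : x ∈ l₁ := by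
      have := (hl1 r).mem_iff.2 hx
      rw [h1, List.mem_append] at this
      rcases this with h | h
      · exact h
      · exact absurd hxA (h3 x h)
    have hy' : y ∈ l₂ := by
      have := (hl1 r).mem_iff.2 hy
      rw [h1, List.mem_append] at this
      rcases this with h | h
      · exact absurd (h2 y h) hyA
      · exact h
    have e1 := List.length_pos_of_mem hx'
    have e2 := List.length_pos_of_mem hy'
    rw [hLr, h1]
    refine ⟨l₁.length, e1, by rw [List.length_append]; omega, ?_⟩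
    intro i hi
    constructor
    · intro h
      by_contra hcon
      rw [List.getElem_append_right (by omega)] at h
      exact h3 _ (List.getElem_mem _) h
    · intro h
      rw [List.getElem_append_left h]
      exact h2 _ (List.getElem_mem _)
  refine ⟨L, hLp, fun r hr => by simp only [L, if_pos hr], ?_⟩
  intro t ht
  exact ⟨key _ _ (h.row₁ t ht).2 ⟨t, ht, Or.inl ⟨rfl, rfl⟩⟩ (h.ne₁ t ht).1 (h.ne₁ t ht).2,
    key _ _ (h.row₂ t ht).2 ⟨t, ht, Or.inr ⟨rfl, rfl⟩⟩ (h.ne₂ t ht).1 (h.ne₂ t ht).2⟩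

/-- **The locations of the rungs in the new order.** -/
lemma hon_of_plc {Zq LR : Set (Bool × ℕ × ℕ)} {T : Set α} {r₁ r₂ : α → Bool × ℕ × ℕ}
    {A₁ A₂ : α → Set α} {L : Bool × ℕ × ℕ → List α} {f : α → Sym2 ((ℕ × ℕ) ⊕ α)}
    {e : Bool × ℕ × ℕ → α} (h : Plc M w L₁ Zq LR T r₁ r₂ A₁ A₂)
    (hp : ∀ r, (L r).Perm (L₁ r)) (hG : GSide M (Seg w) L f e u₁) (hZ : Zq ⊆ Seg w) {t : α}
    (ht : t ∈ T) {p₁ p₂ : ℕ}
    (h1 : 0 < p₁ ∧ p₁ < (L (r₁ t)).length ∧
        ∀ (i : ℕ) (hi : i < (L (r₁ t)).length), (L (r₁ t))[i] ∈ A₁ t ↔ i < p₁)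
    (h2 : 0 < p₂ ∧ p₂ < (L (r₂ t)).length ∧
        ∀ (i : ℕ) (hi : i < (L (r₂ t)).length), (L (r₂ t))[i] ∈ A₂ t ↔ i < p₂)
    {v : (ℕ × ℕ) ⊕ α} (hv : v ∈ LV L f (Seg w)) (hvZ : v ∉ LV L f Zq) :
    v ∈ s(node (r₁ t) (L (r₁ t)) p₁, node (r₂ t) (L (r₂ t)) p₂) ↔
      t ∉ M.closure {x | x ∈ crr L (Seg w) ∧ v ∉ f x} := by
  classical
  obtain ⟨h10, h11, h12⟩ := h1
  obtain ⟨h20, h21, h22⟩ := h2
  have hcr : crr L (Seg w) = crr L₁ (Seg w) := crr_perm fun r _ => hp r
  obtain ⟨r, hr, p, hpl, rfl⟩ := (mem_LV hG Subset.rfl).1 hv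
  have hr1 := (h.row₁ t ht).1
  have hr2 := (h.row₂ t ht).1
  have node_eq : ∀ (r r' : Bool × ℕ × ℕ) (p p' : ℕ), r ∈ Seg w → r' ∈ Seg w → 0 < p →
      p < (L r).length → 0 < p' → p' < (L r').length →
      node r (L r) p = node r' (L r') p' → r = r' ∧ p = p' := by
    intro r r' p p' hr hr' h0 h1 h0' h1' hn
    rw [CWL.node_mid r h0 h1, CWL.node_mid r' h0' h1'] at hn
    have h6 := Sum.inr.inj hn
    have h7 : r = r' := row_uniq hG.disj hr hr' (x := (L r)[p - 1]'(by omega))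
      (List.getElem_mem _) (by rw [h6]; exact List.getElem_mem _)
    subst h7
    have h8 := (List.Nodup.getElem_inj_iff (hG.nodup r hr)).1 h6
    exact ⟨rfl, by omega⟩
  have key : ∀ q, node r (L r) p = Sum.inl q → (node r (L r) p ∈
      s(node (r₁ t) (L (r₁ t)) p₁, node (r₂ t) (L (r₂ t)) p₂) ↔
      t ∉ M.closure {x | x ∈ crr L (Seg w) ∧ node r (L r) p ∉ f x}) := by
    intro q hq
    rw [hq] at hv hvZ ⊢
    have hqV : q ∈ VV (Seg w) := by
      rcases node_cases' r hpl rfl with ⟨_, h3⟩ | ⟨_, h3⟩ | ⟨_, _, h3⟩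
      · rw [hq] at h3
        exact ⟨r, hr, Or.inl (Sum.inl.inj h3).symm⟩
      · rw [hq] at h3
        exact ⟨r, hr, Or.inr (Sum.inl.inj h3).symm⟩
      · rw [hq] at h3
        simp at h3
    have hqZ : q ∉ VV Zq := by
      rintro ⟨r', hr', h3⟩
      apply hvZ
      rw [mem_LV hG hZ]
      rcases h3 with h3 | h3
      · exact ⟨r', hr', 0, Nat.zero_le _, by rw [CWL.node_zero, h3]⟩
      · exact ⟨r', hr', _, le_rfl, by rw [CWL.node_last r' (gs_ne hG r' (hZ hr')), h3]⟩
    constructor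
    · intro hm
      exfalso
      rcases Sym2.mem_iff.1 hm with h3 | h3
      · rw [CWL.node_mid _ h10 h11] at h3
        simp at h3
      · rw [CWL.node_mid _ h20 h21] at h3
        simp at h3
    · intro hm
      exfalso
      apply hm
      let C : Bool × ℕ × ℕ → α := fun r => if segNear r = q then (L r).getD 0 (e r)
        else (L r).getD ((L r).length - 1) (e r)
      have hhead : ∀ r ∈ Seg w, ∀ hne : L r ≠ [], (L r).getD 0 (e r) =
          (L r)[0]'(List.length_pos_iff.2 hne) := by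
        intro r _ hne
        rw [List.getD_eq_getElem]
      have hlast : ∀ r ∈ Seg w, ∀ hne : L r ≠ [], (L r).getD ((L r).length - 1) (e r) =
          (L r)[(L r).length - 1]'(by have := List.length_pos_iff.2 hne; omega) := by
        intro r _ hne
        rw [List.getD_eq_getElem]
      have h5 := h.brn t ht q hqV hqZ C ?_ ?_
      · refine M.closure_subset_closure ?_ h5
        rintro x ⟨hx, hxC⟩
        rw [← hcr] at hx
        refine ⟨hx, fun hqx => hxC ?_⟩
        obtain ⟨r', hr', hne, h6⟩ := at_branch hG hx hqx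
        refine ⟨r', hr', ?_⟩
        rcases h6 with ⟨h6, h7⟩ | ⟨h6, h7⟩
        · refine ⟨Or.inl h6, ?_⟩
          simp only [C, if_pos h6]
          rw [hhead r' hr' hne, h7, List.head_eq_getElem]
        · refine ⟨Or.inr h6, ?_⟩
          have h8 : segNear r' ≠ q := by
            rw [← h6]
            exact T2.near_ne_far r'
          simp only [C, if_neg h8]
          rw [hlast r' hr' hne, h7, List.getLast_eq_getElem]
      · intro r' hr' h6
        have hne := gs_ne hG r' hr'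
        have h8 : C r' = (L r')[0]'(List.length_pos_iff.2 hne) := by
          simp only [C, if_pos h6]
          exact hhead r' hr' hne
        rw [h8]
        refine ⟨(hp r').mem_iff.1 (List.getElem_mem _), ?_, ?_⟩
        · rintro rfl
          exact (h12 0 _).2 h10
        · rintro rfl
          exact (h22 0 _).2 h20
      · intro r' hr' h6
        have hne := gs_ne hG r' hr'
        have hl := List.length_pos_iff.2 hne
        have h7 : segNear r' ≠ q := by
          rw [← h6]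
          exact T2.near_ne_far r'
        have h8 : C r' = (L r')[(L r').length - 1]'(by omega) := by
          simp only [C, if_neg h7]
          exact hlast r' hr' hne
        rw [h8]
        refine ⟨(hp r').mem_iff.1 (List.getElem_mem _), ?_, ?_⟩
        · rintro rfl hA
          have := (h12 _ _).1 hA
          omega
        · rintro rfl hA
          have := (h22 _ _).1 hA
          omega
  rcases node_cases' r hpl rfl with ⟨_, h3⟩ | ⟨_, h3⟩ | ⟨h0, h1, h3⟩
  · exact key _ h3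
  · exact key _ h3
  · have hrZ : r ∉ Zq := fun hrZ => hvZ ((mem_LV hG hZ).2 ⟨r, hrZ, p, hpl, rfl⟩)
    rw [at_inner hG hr h0 h1, hcr]
    have hne : (L r)[p - 1]'(by omega) ≠ (L r)[p] := by
      intro h4
      have := (List.Nodup.getElem_inj_iff (hG.nodup r hr)).1 h4
      omega
    have h5 := h.sep t ht r hr hrZ _ ((hp r).mem_iff.1 (List.getElem_mem (by omega : p - 1 < _))) _
      ((hp r).mem_iff.1 (List.getElem_mem h1)) hne
    have h5' := h.sep' t ht r hr hrZ _
      ((hp r).mem_iff.1 (List.getElem_mem (by omega : p - 1 < _))) _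
      ((hp r).mem_iff.1 (List.getElem_mem h1)) hne
    unfold Sees at h5 h5'
    -- two places on one row are different
    have hdif : r₁ t = r₂ t → p₁ ≠ p₂ := by
      intro hrr hpp
      obtain ⟨x, hx, hxA⟩ := h.dif t ht hrr
      obtain ⟨i, hi, rfl⟩ := List.mem_iff_getElem.1 ((hp _).mem_iff.2 hx)
      apply hxA
      have z1 := h12 i hi
      have z2 := h22 i (by rw [← hrr]; exact hi)
      have z3 : (L (r₂ t))[i]'(by rw [← hrr]; exact hi) = (L (r₁ t))[i] := by
        congr 1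
        rw [hrr]
      rw [z3] at z2
      rw [z1, z2, hpp]
    constructor
    · intro hm
      apply h5'
      rcases Sym2.mem_iff.1 hm with h6 | h6
      · obtain ⟨h7, h8⟩ := node_eq _ _ _ _ hr hr1 h0 h1 h10 h11 h6
        subst h7
        subst h8
        intro h9
        have h10' := h9.1 ⟨rfl, by rw [h12 _ (by omega), h12 _ h1]; omega⟩
        obtain ⟨h13, h14⟩ := h10'
        have h15 := hdif h13
        have z2 := h22 (p - 1) (by rw [← h13]; omega)
        have z3 := h22 p (by rw [← h13]; exact h1)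
        have z4 : (L (r₂ t))[p - 1]'(by rw [← h13]; omega) = (L (r₁ t))[p - 1]'(by omega) := by
          congr 1
          rw [h13]
        have z5 : (L (r₂ t))[p]'(by rw [← h13]; exact h1) = (L (r₁ t))[p] := by
          congr 1
          rw [h13]
        rw [z4] at z2
        rw [z5] at z3
        rw [z2, z3] at h14
        omega
      · obtain ⟨h7, h8⟩ := node_eq _ _ _ _ hr hr2 h0 h1 h20 h21 h6
        subst h7
        subst h8
        intro h9
        have h10' := h9.2 ⟨rfl, by rw [h22 _ (by omega), h22 _ h1]; omega⟩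
        obtain ⟨h13, h14⟩ := h10'
        have h15 := hdif h13.symm
        have z2 := h12 (p - 1) (by rw [← h13]; omega)
        have z3 := h12 p (by rw [← h13]; exact h1)
        have z4 : (L (r₁ t))[p - 1]'(by rw [← h13]; omega) = (L (r₂ t))[p - 1]'(by omega) := by
          congr 1
          rw [h13]
        have z5 : (L (r₁ t))[p]'(by rw [← h13]; exact h1) = (L (r₂ t))[p] := by
          congr 1
          rw [h13]
        rw [z4] at z2
        rw [z5] at z3
        rw [z2, z3] at h14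
        omega
    · intro hm
      rcases h5 hm with ⟨h6, h7⟩ | ⟨h6, h7⟩
      · subst h6
        rw [h12 _ (by omega), h12 _ h1] at h7
        have h8 : p = p₁ := by omega
        subst h8
        simp
      · subst h6
        rw [h22 _ (by omega), h22 _ h1] at h7
        have h8 : p = p₂ := by omega
        subst h8
        simp

end

/-- `kill` for a new order -/
lemma kill_reord {α : Type u} {M : Matroid α} [M.Finite] {w u₁ : ℕ}
    {L₁ L : Bool × ℕ × ℕ → List α} {f₁ f : α → Sym2 ((ℕ × ℕ) ⊕ α)} {e₁ e : Bool × ℕ × ℕ → α}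
    {Zq : Set (Bool × ℕ × ℕ)} (hG₁ : GSide M (Seg w) L₁ f₁ e₁ u₁) (hG : GSide M (Seg w) L f e u₁)
    (hp : ∀ r, (L r).Perm (L₁ r)) (hZ : Zq ⊆ Seg w)
    (kill : ∃ N : Matroid α, N.Finite ∧ Bic N (crr L₁ (Seg w)) f₁ ∧
      rk N (crr L₁ Zq) = (LV L₁ f₁ Zq).ncard ∧
      ∀ X ⊆ crr L₁ (Seg w), rk M (X ∪ crr L₁ Zq) + rk N (crr L₁ Zq) =
        rk N (X ∪ crr L₁ Zq) + rk M (crr L₁ Zq)) :
    ∃ N : Matroid α, N.Finite ∧ Bic N (crr L (Seg w)) f ∧
      rk N (crr L Zq) = (LV L f Zq).ncard ∧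
      ∀ X ⊆ crr L (Seg w), rk M (X ∪ crr L Zq) + rk N (crr L Zq) =
        rk N (X ∪ crr L Zq) + rk M (crr L Zq) := by
  obtain ⟨N, fN, h1, h2, h3⟩ := kill
  have hcr : crr L (Seg w) = crr L₁ (Seg w) := crr_perm fun r _ => hp r
  have hcZ : crr L Zq = crr L₁ Zq := by
    ext x
    constructor
    · rintro ⟨s, hs, hx⟩
      exact ⟨s, hs, (hp s).mem_iff.1 hx⟩
    · rintro ⟨s, hs, hx⟩
      exact ⟨s, hs, (hp s).mem_iff.2 hx⟩
  refine ⟨N, fN, ?_, ?_, ?_⟩
  · obtain ⟨f', hW', hB'⟩ := TST.reorder hG₁.side.sw (lift_of_bic h1).bicU fun s _ => hp s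
    have h4 : Bic N (crr L₁ (Seg w)) f' := hB'.bic
    have h5 : ∀ x ∈ crr L₁ (Seg w), f x = f' x := by
      intro x hx
      rw [← hcr] at hx
      obtain ⟨r, hr, hx⟩ := hx
      obtain ⟨i, hi, rfl⟩ := List.mem_iff_getElem.1 hx
      rw [hG.end_eq r hr i hi, hW'.end_eq r hr i hi]
    rw [hcr]
    exact ((lift_of_bic h4).congr h5).bic
  · rw [hcZ, h2]
    have e1 := LV_card hG₁ hZ
    have e2 := LV_card hG hZ
    rw [hcZ] at e2
    omega
  · rw [hcr, hcZ]
    exact h3

/-- **Row P6.** -/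
theorem rowOut : RowOut.{u} := by
  classical
  intro κ₀ wmax n'
  have hfin : Finite {r : Bool × ℕ × ℕ // r ∈ Seg wmax} := (seg_finite wmax).to_subtype
  have hft := Fintype.ofFinite {r : Bool × ℕ × ℕ // r ∈ Seg wmax}
  obtain ⟨N, hN⟩ := homog_tiles κ₀ (n' + 1) (Option {r : Bool × ℕ × ℕ // r ∈ Seg wmax}) Unit
  refine ⟨N, ?_⟩
  intro α M _ w s 𝒯 L₁ f₁ e₁ u₁ L₂ f₂ e₂ u₂ m τ R c a n₀ ρ η F Zq LR T r₁ r₂ A₁ A₂ kc cls pv hw hm h
  obtain ⟨L, hp, hLR, hT⟩ := exists_order h.plc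
  have hG₁ := h.pair.s₁
  -- the new anchors
  let e : Bool × ℕ × ℕ → α := fun r => ((L r).getLast?).getD (e₁ r)
  have hLne : ∀ r ∈ Seg w, L r ≠ [] := by
    intro r hr hn
    have h1 := hp r
    rw [hn] at h1
    exact gs_ne hG₁ r hr (List.nil_perm.1 h1)
  have hlast : ∀ r ∈ Seg w, (L r).getLast? = some (e r) := by
    intro r hr
    simp only [e]
    rw [List.getLast?_eq_some_getLast (hLne r hr)]
    rfl
  have hmem : ∀ r ∈ Seg w, e r ∈ L₁ r := fun r hr =>
    (hp r).mem_iff.1 (List.mem_of_getLast? (hlast r hr))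
  have hZ : Zq ⊆ Seg w := h.Zq_sub.trans h.LR_sub
  obtain ⟨f, hP⟩ := h.pair.reord (fun r _ => hp r) hlast (by
    intro r hr σ hσ h1
    have h2 : e₂ σ ∈ L₁ r := by
      rw [← h1]
      exact hmem r hr
    have h3 := h.anchor' σ hσ r hr h2
    have h4 : e r = e₁ r := by
      have h5 := hlast r hr
      rw [hLR r h3, hG₁.last r hr] at h5
      exact (Option.some.inj h5).symm
    refine Set.disjoint_left.1 h.pair.dj ⟨r, hr, rfl⟩ ⟨σ, hσ, ?_⟩
    rw [← h1, h4])
  have hG := hP.s₁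
  have hcr : crr L (Seg w) = crr L₁ (Seg w) := crr_perm fun r _ => hp r
  -- the new positions
  let q₀ : ℕ → ℕ → ℕ := fun i b => (L (R i)).idxOf (c i b)
  have hlab : ∀ i < m, ∀ b < N, c i b ∈ L (R i) := fun i hi b hb =>
    (hp _).mem_iff.2 (h.lab i hi b hb)
  have hq : ∀ i < m, ∀ b < N, ∃ hh : q₀ i b < (L (R i)).length, (L (R i))[q₀ i b] = c i b :=
    fun i hi b hb => ⟨List.idxOf_lt_length_of_mem (hlab i hi b hb), List.getElem_idxOf _⟩
  have hRw : ∀ i < m, R i ∈ Seg wmax := fun i hi => Seg_mono' hw (h.row i hi)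
  let row : ℕ → ℕ → Option {r : Bool × ℕ × ℕ // r ∈ Seg wmax} := fun _ i =>
    if hh : R i ∈ Seg wmax then some ⟨R i, hh⟩ else none
  have hrow : ∀ i < m, ∀ j < m, ∀ b b', row b i = row b' j → R i = R j := by
    intro i hi j hj b b' hrr
    simp only [row, dif_pos (hRw i hi), dif_pos (hRw j hj)] at hrr
    exact congrArg Subtype.val (Option.some.inj hrr)
  obtain ⟨g, m₀, R', _, _, hg1, hg2, hg3, hg4, _, hns, _⟩ := hN (fun _ => m) row (fun b i => q₀ i b)
    (fun _ _ => ()) (fun _ _ => hm) (by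
      intro b hb b' hb' hbb i hi i' hi' hrr hqq
      obtain ⟨x1, x2⟩ := hq i hi b hb
      obtain ⟨y1, y2⟩ := hq i' hi' b' hb'
      have hRR := hrow i hi i' hi' b b' hrr
      have hcc : c i b = c i' b' := by
        rw [← x2, ← y2]
        have : ∀ (r r' : Bool × ℕ × ℕ) (p p' : ℕ) (hh : p < (L r).length)
            (hh' : p' < (L r').length), r = r' → p = p' → (L r)[p] = (L r')[p'] := by
          intro r r' p p' hh hh' h1 h2
          subst h1
          subst h2
          rfl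
        exact this _ _ _ _ x1 y1 hRR hqq
      exact hbb (h.inj i hi b hb i' hi' b' hb' hcc).2)
  have hm₀ : m = m₀ := hg3 0 (by omega)
  subst hm₀
  have hgl : ∀ b < n', g b < N := fun b hb => hg1 b (by omega)
  have hns' : ∀ i < m, ∀ j < m, R i = R j →
      RamP.Near n' (fun b => q₀ i (g b)) (fun b => q₀ j (g b)) ∨
      RamP.Sep n' (fun b => q₀ i (g b)) (fun b => q₀ j (g b)) := by
    intro i hi j hj hij
    have h1 : R' i = R' j := by
      rw [← hg4 0 (by omega) i hi, ← hg4 0 (by omega) j hj]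
      simp only [row, dif_pos (hRw i hi), dif_pos (hRw j hj), hij]
    rcases hns i hi j hj h1 with h2 | h2
    · exact Or.inl (h2.mono (by omega))
    · exact Or.inr (h2.mono (by omega))
  have hT1 : ∀ t ∈ T, ∃ p, 0 < p ∧ p < (L (r₁ t)).length ∧
      ∀ (i : ℕ) (hi : i < (L (r₁ t)).length), (L (r₁ t))[i] ∈ A₁ t ↔ i < p := fun t ht => (hT t ht).1
  have hT2 : ∀ t ∈ T, ∃ p, 0 < p ∧ p < (L (r₂ t)).length ∧
      ∀ (i : ℕ) (hi : i < (L (r₂ t)).length), (L (r₂ t))[i] ∈ A₂ t ↔ i < p := fun t ht => (hT t ht).2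
  choose! p₁ hp₁ using hT1
  choose! p₂ hp₂ using hT2
  let gT : α → Sym2 ((ℕ × ℕ) ⊕ α) := fun t =>
    s(node (r₁ t) (L (r₁ t)) (p₁ t), node (r₂ t) (L (r₂ t)) (p₂ t))
  -- a label which is seen by a rung
  have hsee : ∀ t ∈ T, ∀ i < m, R i ∉ LR → ∀ b < N, ∀ b' < N, b ≠ b' →
      Sees M (crr L₁ (Seg w)) t (c i b) (c i b') →
      (R i = r₁ t ∧ CWL.Btw (q₀ i b) (q₀ i b') (p₁ t)) ∨
        (R i = r₂ t ∧ CWL.Btw (q₀ i b) (q₀ i b') (p₂ t)) := by
    intro t ht i hi hiR b hb b' hb' hbb hs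
    have hne : c i b ≠ c i b' := fun hh => hbb (h.inj i hi b hb i hi b' hb' hh).2
    replace hs := h.plc.sep t ht (R i) (h.row i hi) (fun hh => hiR (h.Zq_sub hh)) _
      (h.lab i hi b hb) _ (h.lab i hi b' hb') hne hs
    obtain ⟨x1, x2⟩ := hq i hi b hb
    obtain ⟨y1, y2⟩ := hq i hi b' hb'
    rcases hs with ⟨hr, hs⟩ | ⟨hr, hs⟩
    · left
      refine ⟨hr, ?_⟩
      have h1 := (hp₁ t ht).2.2
      have z1 := h1 (q₀ i b) (by rw [← hr]; exact x1)
      have z2 := h1 (q₀ i b') (by rw [← hr]; exact y1)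
      have w1 : (L (r₁ t))[q₀ i b]'(by rw [← hr]; exact x1) = c i b := by
        rw [← x2]
        congr 1
        rw [hr]
      have w2 : (L (r₁ t))[q₀ i b']'(by rw [← hr]; exact y1) = c i b' := by
        rw [← y2]
        congr 1
        rw [hr]
      rw [w1] at z1
      rw [w2] at z2
      rw [z1, z2] at hs
      unfold CWL.Btw
      omega
    · right
      refine ⟨hr, ?_⟩
      have h1 := (hp₂ t ht).2.2
      have z1 := h1 (q₀ i b) (by rw [← hr]; exact x1)
      have z2 := h1 (q₀ i b') (by rw [← hr]; exact y1)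
      have w1 : (L (r₂ t))[q₀ i b]'(by rw [← hr]; exact x1) = c i b := by
        rw [← x2]
        congr 1
        rw [hr]
      have w2 : (L (r₂ t))[q₀ i b']'(by rw [← hr]; exact y1) = c i b' := by
        rw [← y2]
        congr 1
        rw [hr]
      rw [w1] at z1
      rw [w2] at z2
      rw [z1, z2] at hs
      unfold CWL.Btw
      omega
  refine ⟨L, f, e, fun b => τ (g b), fun i b => q₀ i (g b), fun i b => c i (g b), gT,
    fun r _ => hp r, hmem, ?_⟩
  refine
    { pair := hP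
      tau := fun b hb => h.tau _ (hgl b hb)
      row := h.row
      pos := fun i hi b hb => hq i hi _ (hgl b hb)
      ns := hns'
      inj := ?_
      tile := ?_
      anchor := ?_
      wall := h.wall
      Zq_sub := h.Zq_sub
      LR_sub := h.LR_sub
      Zq_box := h.Zq_box
      ring := h.ring
      ne := h.ne
      big := h.big
      few := h.few
      light := h.light
      con := con_of_geo hG hZ h.geo
      kill := kill_reord hG₁ hG hp hZ h.kill
      T_cl := by rw [hcr]; exact h.T_cl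
      T₁ := by rw [hcr]; exact h.T₁
      T₂ := h.T₂
      hon := ?_
      lift := h.lift L f e (fun r _ => hp r) hG
      kc_le := h.kc_le
      cls_lt := h.cls_lt
      priv := h.priv
      conn := ?_ }
  · intro i hi b hb j hj a' ha' hcc
    obtain ⟨h1, h2⟩ := h.inj i hi _ (hgl b hb) j hj _ (hgl a' ha') hcc
    refine ⟨h1, ?_⟩
    rcases Nat.lt_trichotomy b a' with h3 | h3 | h3
    · have := hg2 b a' h3 (by omega)
      omega
    · exact h3
    · have := hg2 a' b h3 (by omega)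
      omega
  · intro b hb r hr x hx hx'
    exact h.tile _ (hgl b hb) r hr x ((hp r).mem_iff.1 hx) hx'
  · intro b hb σ hσ r hr hx
    exact h.anchor _ (hgl b hb) σ hσ r hr ((hp r).mem_iff.1 hx)
  · intro t ht
    have g1 := hp₁ t ht
    have g2 := hp₂ t ht
    refine ⟨⟨r₁ t, (h.plc.row₁ t ht).1, (h.plc.row₁ t ht).2, r₂ t, (h.plc.row₂ t ht).1,
      (h.plc.row₂ t ht).2, p₁ t, p₂ t, g1.1, g1.2.1, g2.1, g2.2.1, rfl⟩, ?_⟩
    intro v hv hvZ
    exact hon_of_plc h.plc hp hG hZ ht g1 g2 hv hvZ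
  · intro i hi j hj hi' hj' hij hpv
    have hc := h.conn i hi j hj hi' hj' hij hpv
    refine (Relation.ReflTransGen.mono ?_) _ _ hc
    rintro x y ⟨⟨hx, hxR⟩, ⟨hy, hyR⟩, hxy, hseen⟩
    refine ⟨⟨hx, hxR⟩, ⟨hy, hyR⟩, hxy, Or.inl ?_⟩
    by_cases hnear : R x = R y ∧ RamP.Near n' (fun b => q₀ x (g b)) (fun b => q₀ y (g b))
    · exact Or.inl hnear
    right
    intro b hb
    have hbb := hg2 b (b + 1) (by omega) (by omega)
    obtain ⟨t, ht, hs1, hs2⟩ := hseen (g b) (g (b + 1)) hbb (hgl _ hb)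
    refine ⟨t, ht, ?_⟩
    have k1 := hsee t ht x hx hxR _ (hgl b (by omega)) _ (hgl (b + 1) hb) (by omega) hs1
    have k2 := hsee t ht y hy hyR _ (hgl b (by omega)) _ (hgl (b + 1) hb) (by omega) hs2
    -- the same place for both labels is impossible
    have hsame : ∀ p, R x = R y → CWL.Btw (q₀ x (g b)) (q₀ x (g (b + 1))) p →
        CWL.Btw (q₀ y (g b)) (q₀ y (g (b + 1))) p → False := by
      intro p hR h1 h2
      rcases hns' x hx y hy hR with h3 | h3
      · exact hnear ⟨hR, h3⟩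
      · unfold CWL.Btw at h1 h2
        rcases h3 with h3 | h3
        · have z1 := h3 b b (by omega) (by omega)
          have z2 := h3 b (b + 1) (by omega) (by omega)
          have z3 := h3 (b + 1) b (by omega) (by omega)
          have z4 := h3 (b + 1) (b + 1) (by omega) (by omega)
          simp only at z1 z2 z3 z4
          omega
        · have z1 := h3 b b (by omega) (by omega)
          have z2 := h3 b (b + 1) (by omega) (by omega)
          have z3 := h3 (b + 1) b (by omega) (by omega)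
          have z4 := h3 (b + 1) (b + 1) (by omega) (by omega)
          simp only at z1 z2 z3 z4
          omega
    rcases k1 with ⟨a1, a2⟩ | ⟨a1, a2⟩ <;> rcases k2 with ⟨b1, b2⟩ | ⟨b1, b2⟩
    · exact absurd (hsame _ (a1.trans b1.symm) a2 b2) id
    · refine ⟨p₁ t, p₂ t, a2, b2, ?_⟩
      simp only [gT]
      rw [a1, b1]
    · refine ⟨p₂ t, p₁ t, a2, b2, ?_⟩
      simp only [gT]
      rw [a1, b1, Sym2.eq_swap]
    · exact absurd (hsame _ (a1.trans b1.symm) a2 b2) id

end TSH
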