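import Pool.Agent.TST.LDef
import Pool.Agent.CW.World

/-!
# Seeing a label and seeing a pair of its conflicts (T-star, helper45)

An element `d` which is not spanned by the rows without `K` (`K` = at least two elements of one row)
separates two elements of `K`.
-/

open Set BIC BICS CWL
open scoped Matroid

namespace TSH

variable {α : Type*} {M : Matroid α} {S : Set (Bool × ℕ × ℕ)} {L : Bool × ℕ × ℕ → List α}
  {f : α → Sym2 ((ℕ × ℕ) ⊕ α)} {e : Bool × ℕ × ℕ → α} {u : ℕ}

/-- a later element of a row is a coloop after the deletion of an earlier one, in `M` -/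
lemma GSide.coloopM [M.Finite] (h : GSide M S L f e u) {s : Bool × ℕ × ℕ} (hs : s ∈ S) {j i : ℕ}
    (hji : j < i) (hi : i < (L s).length) :
    (L s)[i] ∉ M.closure (crr L S \ {(L s)[i], (L s)[j]'(by omega)}) := by
  obtain ⟨h0, N, hNf, hN, hquo, -⟩ := h.lift
  intro hcl
  have hz : (L s)[i] ∈ crr L S := ⟨s, hs, List.getElem_mem _⟩
  apply h.coloop hN hs hji hi
  by_contra hcl'
  have h1 := hquo (crr L S \ {(L s)[i], (L s)[j]'(by omega)})
    (insert ((L s)[i]) (crr L S \ {(L s)[i], (L s)[j]'(by omega)})) (subset_insert _ _)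
    (insert_subset hz sdiff_subset)
  have h2 := rk_insert_ge (hN.sub hz) hcl'
  have h3 : rk M (insert ((L s)[i]) (crr L S \ {(L s)[i], (L s)[j]'(by omega)})) ≤
      rk M (crr L S \ {(L s)[i], (L s)[j]'(by omega)}) := by
    rw [← rk_closure (M := M) (crr L S \ {(L s)[i], (L s)[j]'(by omega)})]
    exact rk_mono M (insert_subset hcl (M.subset_closure _ (sdiff_subset.trans h0)))
  omega

/-- **Pair lemma**, indices. -/
theorem see_pair_idx [M.Finite] (h : GSide M S L f e u) {s : Bool × ℕ × ℕ} (hs : s ∈ S) {d : α}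
    (J : Finset ℕ) (hJ : ∀ i ∈ J, i < (L s).length) (hJ2 : 2 ≤ J.card)
    (hd : ∀ i (hi : i < (L s).length) j (hj : j < (L s).length), i ∈ J → j ∈ J → j < i →
      d ∈ M.closure (crr L S \ {(L s)[i], (L s)[j]})) :
    d ∈ M.closure (crr L S \ {x | ∃ i, ∃ hi : i < (L s).length, i ∈ J ∧ x = (L s)[i]}) := by
  classical
  induction J using Finset.induction_on_max with
  | empty => simp at hJ2
  | insert a J hmax ih =>
    have haL : a < (L s).length := hJ a (Finset.mem_insert_self _ _)
    have haJ : a ∉ J := fun h1 => lt_irrefl a (hmax a h1)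
    rw [Finset.card_insert_of_notMem haJ] at hJ2
    have hJne : J.Nonempty := Finset.card_pos.1 (by omega)
    obtain ⟨b, hb⟩ := hJne
    have hbL : b < (L s).length := hJ b (Finset.mem_insert_of_mem hb)
    have hba := hmax b hb
    have hpair := hd a haL b hbL (Finset.mem_insert_self _ _) (Finset.mem_insert_of_mem hb) hba
    have hcol := GSide.coloopM h hs hba haL
    have hE : crr L S ⊆ M.E := h.sub_ground
    have hne : ∀ t t' (ht : t < (L s).length) (ht' : t' < (L s).length), (L s)[t] = (L s)[t'] →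
        t = t' := fun t t' ht ht' h' => (List.Nodup.getElem_inj_iff (h.nodup s hs)).1 h'
    by_cases hJ1 : J.card = 1
    · obtain ⟨b', rfl⟩ := Finset.card_eq_one.1 hJ1
      rw [Finset.mem_singleton] at hb
      subst hb
      refine M.closure_subset_closure ?_ hpair
      rintro x ⟨hx, hx2⟩
      refine ⟨hx, ?_⟩
      rintro ⟨i, hi, hiJ, rfl⟩
      apply hx2
      rw [Finset.mem_insert, Finset.mem_singleton] at hiJ
      rcases hiJ with rfl | rfl
      · exact Or.inl rfl
      · exact Or.inr rfl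
    · have ih := ih (fun i hi => hJ i (Finset.mem_insert_of_mem hi)) (by omega)
        (fun i hi j hj h1 h2 h3 => hd i hi j hj (Finset.mem_insert_of_mem h1)
          (Finset.mem_insert_of_mem h2) h3)
      obtain ⟨B, hB⟩ : ∃ B, B = crr L S \
        {x | ∃ i, ∃ hi : i < (L s).length, i ∈ insert a J ∧ x = (L s)[i]} := ⟨_, rfl⟩
      rw [← hB]
      have h1 : crr L S \ {x | ∃ i, ∃ hi : i < (L s).length, i ∈ J ∧ x = (L s)[i]} ⊆
          insert ((L s)[a]) B := by
        rintro x ⟨hx, hx2⟩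
        by_cases hxa : x = (L s)[a]
        · exact Or.inl hxa
        · right
          rw [hB]
          refine ⟨hx, ?_⟩
          rintro ⟨i, hi, hiJ, rfl⟩
          rw [Finset.mem_insert] at hiJ
          rcases hiJ with rfl | hiJ
          · exact hxa rfl
          · exact hx2 ⟨i, hi, hiJ, rfl⟩
      have h2 : B ⊆ crr L S \ {(L s)[a], (L s)[b]} := by
        rw [hB]
        rintro x ⟨hx, hx2⟩
        refine ⟨hx, ?_⟩
        rintro (rfl | h3)
        · exact hx2 ⟨a, haL, Finset.mem_insert_self _ _, rfl⟩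
        · rw [mem_singleton_iff] at h3
          exact hx2 ⟨b, hbL, Finset.mem_insert_of_mem hb, h3⟩
      by_contra hcon
      have h3 : d ∈ M.closure (insert ((L s)[a]) B) := M.closure_subset_closure h1 ih
      have h4 : (L s)[a] ∈ M.closure (insert d B) := by
        have := M.closure_exchange ⟨h3, hcon⟩
        exact this.1
      apply hcol
      have h5 : insert d B ⊆ M.closure (crr L S \ {(L s)[a], (L s)[b]}) :=
        insert_subset hpair (h2.trans (M.subset_closure _ (sdiff_subset.trans hE)))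
      have h6 := M.closure_subset_closure h5 h4
      rwa [M.closure_closure] at h6

/-- **Pair lemma.**  An element which sees the conflicts `c i b`, `b < n`, separates two of them. -/
theorem see_pair [M.Finite] (h : GSide M S L f e u) {s : Bool × ℕ × ℕ} (hs : s ∈ S) {d : α}
    {K : Set α} (hK : K ⊆ {x | x ∈ L s}) {x₁ x₂ : α} (hx₁ : x₁ ∈ K) (hx₂ : x₂ ∈ K) (hne : x₁ ≠ x₂)
    (hd : d ∉ M.closure (crr L S \ K)) :
    ∃ x ∈ K, ∃ y ∈ K, x ≠ y ∧ d ∉ M.closure (crr L S \ {x, y}) := by
  classical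
  by_contra hcon
  push Not at hcon
  apply hd
  obtain ⟨J, hJ⟩ : ∃ J : Finset ℕ, J = (Finset.range (L s).length).filter fun i =>
    ∃ hi : i < (L s).length, (L s)[i] ∈ K := ⟨_, rfl⟩
  have memJ : ∀ i, i ∈ J ↔ ∃ hi : i < (L s).length, (L s)[i] ∈ K := by
    intro i
    rw [hJ, Finset.mem_filter, Finset.mem_range]
    exact ⟨fun h1 => h1.2, fun ⟨h1, h2⟩ => ⟨h1, h1, h2⟩⟩
  have hne' : ∀ t t' (ht : t < (L s).length) (ht' : t' < (L s).length), (L s)[t] = (L s)[t'] →
      t = t' := fun t t' ht ht' h' => (List.Nodup.getElem_inj_iff (h.nodup s hs)).1 h'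
  have h1 := see_pair_idx h hs (d := d) J (fun i hi => ((memJ i).1 hi).1) (by
    obtain ⟨i₁, hi₁, rfl⟩ := List.mem_iff_getElem.1 (hK hx₁)
    obtain ⟨i₂, hi₂, rfl⟩ := List.mem_iff_getElem.1 (hK hx₂)
    refine Finset.one_lt_card.2 ⟨i₁, (memJ _).2 ⟨hi₁, hx₁⟩, i₂, (memJ _).2 ⟨hi₂, hx₂⟩, ?_⟩
    rintro rfl
    exact hne rfl) (by
    intro i hi j hj hiJ hjJ hji
    refine hcon _ ((memJ i).1 hiJ).2 _ ((memJ j).1 hjJ).2 fun h2 => ?_
    exact absurd (hne' _ _ hi hj h2) (by omega))
  refine M.closure_subset_closure ?_ h1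
  rintro x ⟨hx, hx2⟩
  refine ⟨hx, fun hxK => hx2 ?_⟩
  obtain ⟨i, hi, rfl⟩ := List.mem_iff_getElem.1 (hK hxK)
  exact ⟨i, hi, (memJ i).2 ⟨hi, hxK⟩, rfl⟩

end TSH
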