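import Pool.Agent.TST.Gam74
import Pool.Agent.TST.Out
import Pool.Agent.TST.SeePair
import Pool.Agent.TST.GSReord

/-!
# Gamma elements of a label system (row P5 of Claim F)

`OnP`: an element with exactly one visible place (format of `Plc`).  `gammaS`: `gamma3` for the facts
of a label system.
-/

open Set BIC BICS CWL
open scoped Matroid

namespace TSH

universe u

section

variable {α : Type u} {M : Matroid α} {w u : ℕ} {L : Bool × ℕ × ℕ → List α}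
  {f : α → Sym2 ((ℕ × ℕ) ⊕ α)} {e : Bool × ℕ × ℕ → α}

/-- **Stars with any representatives.** -/
theorem star_col [M.Finite] (hG : GSide M (Seg w) L f e u) {p : ℕ × ℕ} (C : Bool × ℕ × ℕ → α)
    (hC : ∀ r ∈ Seg w, (segNear r = p ∨ segFar r = p) → C r ∈ L r) {r₀ : Bool × ℕ × ℕ}
    (hr₀ : r₀ ∈ Seg w) (h₀ : segNear r₀ = p ∨ segFar r₀ = p) :
    C r₀ ∉ M.closure (crr L (Seg w) \ stg w C p) := by
  classical
  obtain ⟨L', hL'⟩ : ∃ L' : Bool × ℕ × ℕ → List α, L' = fun r =>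
      if segNear r = p then C r :: (L r).erase (C r)
      else if segFar r = p then (L r).erase (C r) ++ [C r] else L r := ⟨_, rfl⟩
  have hLn : ∀ r, segNear r = p → L' r = C r :: (L r).erase (C r) := by
    intro r h
    rw [hL']
    simp only [h, if_true]
  have hLf : ∀ r, segFar r = p → L' r = (L r).erase (C r) ++ [C r] := by
    intro r h
    have h1 : segNear r ≠ p := by
      rw [← h]
      exact T2.near_ne_far r
    rw [hL']
    simp only [h, h1, if_true, if_false]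
  have hperm : ∀ s ∈ Seg w, (L' s).Perm (L s) := by
    intro s hs
    by_cases h1 : segNear s = p
    · rw [hLn s h1]
      exact (List.perm_cons_erase (hC s hs (Or.inl h1))).symm
    · by_cases h2 : segFar s = p
      · rw [hLf s h2]
        exact (List.perm_append_singleton _ _).trans
          (List.perm_cons_erase (hC s hs (Or.inr h2))).symm
      · rw [hL']
        simp only [h1, h2, if_false]
        exact List.Perm.refl _
  have hne : ∀ s ∈ Seg w, L' s ≠ [] := by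
    intro s hs h1
    have h2 := (hperm s hs).length_eq
    rw [h1] at h2
    have h3 := gs_ne hG s hs
    exact h3 (List.length_eq_zero_iff.1 h2.symm)
  obtain ⟨f', hG'⟩ := hG.reord (L' := L') (e' := fun s => ((L' s).getLast?).getD (e s)) hperm (by
    intro s hs
    rw [List.getLast?_eq_some_getLast (hne s hs)]
    rfl)
  have hcr : crr L' (Seg w) = crr L (Seg w) := TST.crr_perm hperm
  have hmem : C r₀ ∈ crr L' (Seg w) := by
    rw [hcr]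
    exact ⟨r₀, hr₀, hC r₀ hr₀ h₀⟩
  have hin : Sum.inl p ∈ f' (C r₀) := by
    rcases h₀ with h₀ | h₀
    · have h1 := hLn r₀ h₀
      have h2 : 0 < (L' r₀).length := by rw [h1]; simp
      have h3 := hG'.end_eq r₀ hr₀ 0 h2
      have h4 : (L' r₀)[0] = C r₀ := by simp only [h1, List.getElem_cons_zero]
      rw [h4, CWL.node_zero, h₀] at h3
      rw [h3]
      exact Sym2.mem_mk_left _ _
    · have h1 := hLf r₀ h₀
      have h5 : (L' r₀).length = ((L r₀).erase (C r₀)).length + 1 := by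
        rw [h1, List.length_append]
        rfl
      have h3 := hG'.end_eq r₀ hr₀ ((L r₀).erase (C r₀)).length (by omega)
      have h4 : (L' r₀)[((L r₀).erase (C r₀)).length]'(by omega) = C r₀ := by
        simp only [h1, List.getElem_append_right le_rfl, Nat.sub_self, List.getElem_cons_zero]
      rw [h4, ← h5, CWL.node_last r₀ (hne r₀ hr₀), h₀] at h3
      rw [h3]
      exact Sym2.mem_mk_right _ _
  intro hcl
  refine hG'.star (Sum.inl p) (C r₀) hmem hin (M.closure_subset_closure ?_ hcl)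
  rintro x ⟨hx, hx'⟩
  rw [← hcr] at hx
  refine ⟨hx, ?_⟩
  rintro v hv rfl
  apply hx'
  obtain ⟨r, hr, hn, h1 | h1⟩ := at_branch hG' hx hv
  · refine ⟨r, hr, Or.inl h1.1, ?_⟩
    rw [h1.2]
    simp only [hLn r h1.1, List.head_cons]
  · refine ⟨r, hr, Or.inr h1.1, ?_⟩
    rw [h1.2]
    simp only [hLf r h1.1, List.getLast_append_singleton]

/-- Two choices of representatives which differ on one row. -/
theorem star_pair [M.Finite] (hG : GSide M (Seg w) L f e u) {p : ℕ × ℕ}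
    {C : Bool × ℕ × ℕ → α} (hC : ∀ r ∈ Seg w, (segNear r = p ∨ segFar r = p) → C r ∈ L r)
    {r₀ : Bool × ℕ × ℕ} (hr₀ : r₀ ∈ Seg w) (h₀ : segNear r₀ = p ∨ segFar r₀ = p) {y z : α}
    (hy : y ∈ L r₀) (hxy : y ≠ C r₀) (h1 : z ∈ M.closure (crr L (Seg w) \ stg w C p))
    (h2 : z ∈ M.closure (crr L (Seg w) \ stg w (Function.update C r₀ y) p)) :
    z ∈ M.closure (crr L (Seg w) \ {C r₀, y}) := by
  classical
  obtain ⟨S, hS⟩ : ∃ S, S = crr L (Seg w) := ⟨_, rfl⟩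
  have hSE : S ⊆ M.E := by rw [hS]; exact hG.sub_ground
  have hyS : y ∈ S := by rw [hS]; exact ⟨r₀, hr₀, hy⟩
  have hC' : ∀ r ∈ Seg w, (segNear r = p ∨ segFar r = p) → Function.update C r₀ y r ∈ L r := by
    intro r hr h
    by_cases h3 : r = r₀
    · subst h3
      rw [Function.update_self]
      exact hy
    · rw [Function.update_of_ne h3]
      exact hC r hr h
  have h3 := star_col hG (Function.update C r₀ y) hC' hr₀ h₀
  rw [Function.update_self] at h3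
  obtain ⟨B, hB⟩ : ∃ B, B = stg w (Function.update C r₀ y) p := ⟨_, rfl⟩
  obtain ⟨A, hA⟩ : ∃ A, A = stg w C p := ⟨_, rfl⟩
  rw [← hS, ← hA] at h1
  rw [← hS, ← hB] at h2 h3
  rw [← hS]
  have hyA : y ∉ A := by
    rw [hA]
    rintro ⟨r, hr, hrp, h4⟩
    have h5 := hG.uniq hr₀ hr hy (by rw [h4]; exact hC r hr hrp)
    subst h5
    exact hxy h4
  have hyB : y ∈ B := by
    rw [hB]
    exact ⟨r₀, hr₀, h₀, by rw [Function.update_self]⟩
  -- `B \ {y} ⊆ A`, `A \ {C r₀} ⊆ B`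
  have hBA : ∀ x ∈ B, x ≠ y → x ∈ A := by
    rw [hA, hB]
    rintro x ⟨r, hr, hrp, rfl⟩ hx
    by_cases h4 : r = r₀
    · subst h4
      rw [Function.update_self] at hx
      exact absurd rfl hx
    · rw [Function.update_of_ne h4]
      exact ⟨r, hr, hrp, rfl⟩
  have hAB : ∀ x ∈ A, x ≠ C r₀ → x ∈ B := by
    rw [hA, hB]
    rintro x ⟨r, hr, hrp, rfl⟩ hx
    by_cases h4 : r = r₀
    · subst h4
      exact absurd rfl hx
    · exact ⟨r, hr, hrp, by rw [Function.update_of_ne h4]⟩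
  have hzE : z ∈ M.E := M.closure_subset_ground _ h1
  have r1 := DA.rk_ins_mem h1
  have r2 := DA.rk_ins_mem h2
  have r3 := DA.rk_ins_not (hSE hyS) h3
  have r4 : rk M (insert z (S \ insert y A)) + rk M (insert y (S \ B)) ≤
      rk M (insert z (S \ A)) + rk M (insert z (S \ B)) := by
    refine rk_sub' (subset_inter ?_ ?_) ?_
    · refine insert_subset_insert ?_
      exact fun x hx => ⟨hx.1, fun h4 => hx.2 (Or.inr h4)⟩
    · refine insert_subset_insert ?_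
      refine fun x hx => ⟨hx.1, fun h4 => ?_⟩
      by_cases h5 : x = y
      · exact hx.2 (Or.inl h5)
      · exact hx.2 (Or.inr (hBA x h4 h5))
    · rintro x (rfl | hx)
      · exact Or.inl (Or.inr ⟨hyS, hyA⟩)
      · exact Or.inr (Or.inr hx)
  have r5 : rk M (S \ A) ≤ rk M (S \ insert y A) + 1 := by
    refine (rk_mono M ?_).trans (rk_insert_le y _)
    rintro x ⟨hx, hx'⟩
    by_cases h5 : x = y
    · exact Or.inl h5
    · exact Or.inr ⟨hx, fun h6 => h6.elim h5 hx'⟩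
  have h6 : z ∈ M.closure (S \ insert y A) := by
    by_contra hcon
    have r6 := DA.rk_ins_not hzE hcon
    omega
  refine M.closure_subset_closure ?_ h6
  rintro x ⟨hx, hx'⟩
  refine ⟨hx, ?_⟩
  rintro (h7 | h7)
  · refine hx' (Or.inr ?_)
    rw [h7, hA]
    exact ⟨r₀, hr₀, h₀, rfl⟩
  · exact hx' (Or.inl h7)

end

/-- **One visible place**: `A₀` = the elements of the row `r₀` on the near side of the place. -/
structure OnP {α : Type u} (M : Matroid α) (w : ℕ) (L₁ : Bool × ℕ × ℕ → List α)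
    (LR : Set (Bool × ℕ × ℕ)) (z : α) (r₀ : Bool × ℕ × ℕ) (A₀ : Set α) : Prop where
  row : r₀ ∈ Seg w ∧ r₀ ∉ LR
  ne : (∃ x ∈ L₁ r₀, x ∈ A₀) ∧ ∃ x ∈ L₁ r₀, x ∉ A₀
  sep : ∀ r ∈ Seg w, r ∉ LR → ∀ x ∈ L₁ r, ∀ y ∈ L₁ r, x ≠ y →
    (Sees M (crr L₁ (Seg w)) z x y ↔ r = r₀ ∧ ¬ (x ∈ A₀ ↔ y ∈ A₀))
  brn : ∀ p ∈ VV (Seg w), p ∉ VV LR → ∀ C : Bool × ℕ × ℕ → α,
    (∀ r ∈ Seg w, segNear r = p → C r ∈ L₁ r ∧ (r = r₀ → C r ∈ A₀)) →
    (∀ r ∈ Seg w, segFar r = p → C r ∈ L₁ r ∧ (r = r₀ → C r ∉ A₀)) →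
    z ∈ M.closure (crr L₁ (Seg w) \ {x | ∃ r ∈ Seg w, (segNear r = p ∨ segFar r = p) ∧ x = C r})

section

variable {α : Type u} {M : Matroid α} {w u : ℕ} {L₁ : Bool × ℕ × ℕ → List α}
  {f₁ : α → Sym2 ((ℕ × ℕ) ⊕ α)} {e₁ g : Bool × ℕ × ℕ → α} {LR Mv : Set (Bool × ℕ × ℕ)} {z : α}
  {r₀ : Bool × ℕ × ℕ} {A₀ Λ G : Set α}

/-- a row of `Λ` which is seen is the row of the place -/
lemma OnP.row_eq [M.Finite] (h : OnP M w L₁ LR z r₀ A₀) (hG : GSide M (Seg w) L₁ f₁ e₁ u)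
    (hg : ∀ r ∈ Seg w, g r ∈ L₁ r ∧ g r ∈ Λ) (h2 : ∀ r ∈ Seg w, r ∉ LR → ∃ y ∈ L₁ r, y ≠ g r)
    {r : Bool × ℕ × ℕ} (hr : r ∈ Seg w) (hrL : r ∉ LR)
    (hz : z ∉ M.closure (crr L₁ (Seg w) \ DA.Gam.rowΛ L₁ Λ r)) : r = r₀ := by
  by_cases hc : ∃ x ∈ DA.Gam.rowΛ L₁ Λ r, x ≠ g r
  · obtain ⟨x, hx, hxg⟩ := hc
    obtain ⟨a, ha, b, hb, hab, hS⟩ := see_pair hG hr (K := DA.Gam.rowΛ L₁ Λ r) inter_subset_left
      (x₁ := x) (x₂ := g r) hx ⟨(hg r hr).1, (hg r hr).2⟩ hxg hz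
    exact ((h.sep r hr hrL a ha.1 b hb.1 hab).1 hS).1
  · push Not at hc
    obtain ⟨y, hy, hyg⟩ := h2 r hr hrL
    have h3 : Sees M (crr L₁ (Seg w)) z (g r) y := by
      intro h4
      refine hz (M.closure_subset_closure ?_ h4)
      refine sdiff_subset_sdiff_right ?_
      intro x hx
      exact Or.inl (hc x hx)
    exact ((h.sep r hr hrL (g r) (hg r hr).1 y hy (Ne.symm hyg)).1 h3).1

/-- the vertices which are seen with the representatives `g` -/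
lemma OnP.ver_eq (h : OnP M w L₁ LR z r₀ A₀) (hz : z ∈ M.closure (crr L₁ (Seg w)))
    (hg : ∀ r ∈ Seg w, g r ∈ L₁ r) {v : ℕ × ℕ} (hv : v ∉ VV LR)
    (hs : z ∉ M.closure (crr L₁ (Seg w) \ stg w g v)) :
    (segNear r₀ = v ∧ g r₀ ∉ A₀) ∨ (segFar r₀ = v ∧ g r₀ ∈ A₀) := by
  by_contra hcon
  push Not at hcon
  apply hs
  by_cases hvw : v ∈ VV (Seg w)
  · refine h.brn v hvw hv g ?_ ?_
    · intro r hr hrv
      refine ⟨hg r hr, ?_⟩
      rintro rfl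
      exact hcon.1 hrv
    · intro r hr hrv
      refine ⟨hg r hr, ?_⟩
      rintro rfl
      exact hcon.2 hrv
  · have h3 : stg w g v = ∅ := by
      rw [Set.eq_empty_iff_forall_notMem]
      rintro x ⟨r, hr, hrv, _⟩
      exact hvw ⟨r, hr, hrv⟩
    rw [h3, sdiff_empty]
    exact hz

/-- **`OnP` gives `OneP`.** -/
theorem OnP.oneP [M.Finite] (h : OnP M w L₁ LR z r₀ A₀) (hG : GSide M (Seg w) L₁ f₁ e₁ u)
    (hz : z ∈ M.closure (crr L₁ (Seg w))) (hg : ∀ r ∈ Seg w, g r ∈ L₁ r ∧ g r ∈ Λ)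
    (h2 : ∀ r ∈ Seg w, r ∉ LR → ∃ y ∈ L₁ r, y ≠ g r) : OneP M w L₁ Λ g LR z := by
  refine ⟨?_, ?_, ?_⟩
  · intro r hr hrL r' hr' hrL' hz hz'
    rw [h.row_eq hG hg h2 hr hrL hz, h.row_eq hG hg h2 hr' hrL' hz']
  · intro r hr hrL x hx y hy y' hy' hxy hxy' hyy'
    by_contra hcon
    push Not at hcon
    obtain ⟨h3, h4, h5⟩ := hcon
    have k1 := ((h.sep r hr hrL x hx.1 y hy.1 hxy).1 h3).2
    have k2 := ((h.sep r hr hrL x hx.1 y' hy'.1 hxy').1 h4).2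
    have k3 := ((h.sep r hr hrL y hy.1 y' hy'.1 hyy').1 h5).2
    tauto
  · intro _ v hv v' hv' hs hs'
    have hg' : ∀ r ∈ Seg w, g r ∈ L₁ r := fun r hr => (hg r hr).1
    rcases h.ver_eq hz hg' hv hs with ⟨h3, h4⟩ | ⟨h3, h4⟩ <;>
      rcases h.ver_eq hz hg' hv' hs' with ⟨h5, h6⟩ | ⟨h5, h6⟩
    · exact h3.symm.trans h5
    · exact absurd h6 h4
    · exact absurd h4 h6
    · exact h3.symm.trans h5

/-- the place is outside of `LR` and `Mv` -/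
theorem OnP.fx [M.Finite] (h : OnP M w L₁ LR z r₀ A₀) (hG : GSide M (Seg w) L₁ f₁ e₁ u)
    (hg : ∀ r ∈ Seg w, g r ∈ L₁ r ∧ g r ∈ Λ)
    (h2 : ∀ r ∈ Seg w, r ∉ LR → ∃ y ∈ L₁ r, y ≠ g r) (hzG : z ∈ G)
    (hv : ∀ v, (segNear r₀ = v ∨ segFar r₀ = v) → v ∉ VV LR ∧ v ∉ VV Mv) :
    z ∈ Fx M w L₁ Λ g LR G Mv := by
  classical
  refine ⟨hzG, ?_⟩
  by_cases hc : z ∈ M.closure (crr L₁ (Seg w) \ DA.Gam.rowΛ L₁ Λ r₀)
  swap
  · refine Or.inl ⟨r₀, h.row.1, h.row.2, ?_, hc⟩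
    intro h3
    exact (hv _ (Or.inl rfl)).2 ⟨r₀, h3, Or.inl rfl⟩
  right
  refine ⟨?_, ?_⟩
  · intro r hr hrL
    by_contra hcon
    rw [h.row_eq hG hg h2 hr hrL hcon] at hcon
    exact hcon hc
  · have key : ∀ v, (segNear r₀ = v ∧ g r₀ ∉ A₀) ∨ (segFar r₀ = v ∧ g r₀ ∈ A₀) →
        z ∉ M.closure (crr L₁ (Seg w) \ stg w g v) := by
      intro v hvv hcl
      have hat : segNear r₀ = v ∨ segFar r₀ = v := hvv.imp (fun h3 => h3.1) (fun h3 => h3.1)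
      have hvL := (hv v hat).1
      -- a representative on the other side of the place
      obtain ⟨y, hy, hyA⟩ : ∃ y ∈ L₁ r₀, (y ∈ A₀ ↔ g r₀ ∉ A₀) := by
        rcases hvv with ⟨_, h3⟩ | ⟨_, h3⟩
        · obtain ⟨y, hy, hy'⟩ := h.ne.1
          exact ⟨y, hy, by tauto⟩
        · obtain ⟨y, hy, hy'⟩ := h.ne.2
          exact ⟨y, hy, by tauto⟩
      have hne : y ≠ g r₀ := by
        rintro rfl
        tauto
      have h3 : z ∈ M.closure (crr L₁ (Seg w) \ stg w (Function.update g r₀ y) v) := by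
        refine h.brn v ⟨r₀, h.row.1, hat⟩ hvL _ ?_ ?_
        · intro r hr hrv
          by_cases h4 : r = r₀
          · subst h4
            rw [Function.update_self]
            refine ⟨hy, fun _ => ?_⟩
            rcases hvv with ⟨_, h5⟩ | ⟨h5, _⟩
            · exact hyA.2 h5
            · exact absurd (hrv.trans h5.symm) (T2.near_ne_far r)
          · rw [Function.update_of_ne h4]
            exact ⟨(hg r hr).1, fun h5 => absurd h5 h4⟩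
        · intro r hr hrv
          by_cases h4 : r = r₀
          · subst h4
            rw [Function.update_self]
            refine ⟨hy, fun _ => ?_⟩
            rcases hvv with ⟨h5, _⟩ | ⟨_, h5⟩
            · exact absurd (h5.trans hrv.symm) (T2.near_ne_far r)
            · exact fun h6 => hyA.1 h6 h5
          · rw [Function.update_of_ne h4]
            exact ⟨(hg r hr).1, fun h5 => absurd h5 h4⟩
      have h4 := star_pair hG (fun r hr _ => (hg r hr).1) h.row.1 hat hy hne hcl h3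
      refine (h.sep r₀ h.row.1 h.row.2 (g r₀) (hg r₀ h.row.1).1 y hy (Ne.symm hne)).2
        ⟨rfl, ?_⟩ h4
      tauto
    by_cases h3 : g r₀ ∈ A₀
    · obtain ⟨h4, h5⟩ := hv (segFar r₀) (Or.inr rfl)
      exact ⟨segFar r₀, ⟨r₀, h.row.1, Or.inr rfl⟩, h4, h5, key _ (Or.inr ⟨rfl, h3⟩)⟩
    · obtain ⟨h4, h5⟩ := hv (segNear r₀) (Or.inl rfl)
      exact ⟨segNear r₀, ⟨r₀, h.row.1, Or.inl rfl⟩, h4, h5, key _ (Or.inl ⟨rfl, h3⟩)⟩

end

/-- the conflicts of the light labels in the tiles `B` -/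
def KL {α : Type u} (m : ℕ) (R : ℕ → Bool × ℕ × ℕ) (c : ℕ → ℕ → α) (LR : Set (Bool × ℕ × ℕ))
    (B : Finset ℕ) : Set α := {x | ∃ i < m, R i ∈ LR ∧ ∃ b ∈ B, x = c i b}

lemma exists_idx (T : Finset ℕ) {n : ℕ} (h : n + 1 ≤ T.card) : ∃ ψ : ℕ → ℕ,
    (∀ i ≤ n, ψ i ∈ T) ∧ ∀ i ≤ n, ∀ j ≤ n, ψ i = ψ j → i = j := by
  obtain ⟨T', hT', hc⟩ := Finset.exists_subset_card_eq h
  have eq := (Finset.equivFinOfCardEq hc).symm
  refine ⟨fun i => if h' : i < n + 1 then (eq ⟨i, h'⟩ : ℕ) else 0, ?_, ?_⟩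
  · intro i hi
    have h' : i < n + 1 := by omega
    simp only [h', dif_pos]
    exact hT' (eq ⟨i, h'⟩).2
  · intro i hi j hj hij
    have h' : i < n + 1 := by omega
    have h'' : j < n + 1 := by omega
    simp only [h', h'', dif_pos] at hij
    have := eq.injective (Subtype.ext hij)
    simpa using this

/-- **Gamma elements of a label system.** -/
theorem gammaS (k : ℕ) (hk : 2 ≤ k) (κ : ℕ) : ∃ C : ℕ, ∀ ρh : ℕ, ∃ w₁ s₁ : ℕ,
    ∀ wmax mmax n' : ℕ, ∃ n : ℕ, ∀ {α : Type u} (M : Matroid α) [M.Finite] (w s : ℕ)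
    (𝒯 : Finset (ℕ × ℕ)) (L₁ : Bool × ℕ × ℕ → List α) (f₁ : α → Sym2 ((ℕ × ℕ) ⊕ α))
    (e₁ : Bool × ℕ × ℕ → α) (u₁ : ℕ) (L₂ : Bool × ℕ × ℕ → List α)
    (f₂ : α → Sym2 ((ℕ × ℕ) ⊕ α)) (e₂ : Bool × ℕ × ℕ → α) (u₂ m : ℕ) (τ : ℕ → ℕ × ℕ)
    (R : ℕ → Bool × ℕ × ℕ) (c : ℕ → ℕ → α) (LR : Set (Bool × ℕ × ℕ)) (G : Set α)
    (r₀ : α → Bool × ℕ × ℕ) (A₀ : α → Set α) (Tl : Finset ℕ),
    w₁ ≤ w → w ≤ wmax → s₁ ≤ s → m ≤ mmax → u₁ ≤ κ → u₂ ≤ κ → n ≤ Tl.card →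
    Pair M (Seg w) L₁ f₁ e₁ u₁ (tiles s 𝒯) L₂ f₂ e₂ u₂ → HotT κ ρh M w s 𝒯 L₁ e₂ →
    (∀ b ∈ Tl, τ b ∈ 𝒯) → (∀ i < m, R i ∈ Seg w) → (∀ i < m, ∀ b ∈ Tl, c i b ∈ L₁ (R i)) →
    (∀ i < m, ∀ b ∈ Tl, ∀ j < m, ∀ a ∈ Tl, c i b = c j a → i = j ∧ b = a) →
    (∀ i < m, ∀ b ∈ Tl, ∀ r ∈ Seg w, c i b ≠ e₁ r) →
    (∀ b ∈ Tl, ∀ x ∈ crr L₁ (Seg w), x ∈ crr L₂ (shS (τ b).1 (τ b).2 '' Seg s) →
      ∃ i < m, x = c i b) →
    LR ⊆ Seg w → (∀ r ∈ Seg w, r ∉ LR → ∃ y ∈ L₁ r, y ≠ e₁ r) →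
    G ⊆ M.closure (crr L₁ (Seg w)) → Disjoint G (crr L₁ (Seg w)) →
    Disjoint G (crr L₂ (tiles s 𝒯)) → (∀ z ∈ G, OnP M w L₁ LR z (r₀ z) (A₀ z)) →
    HasUniformMinor M k ∨
    ∃ B ⊆ Tl, B.card = n' ∧ ∃ Mv : Finset (Bool × ℕ × ℕ),
      (Mv : Set (Bool × ℕ × ℕ)) ⊆ Seg w \ LR ∧ Mv.card ≤ C * {i | i < m ∧ R i ∈ LR}.ncard ∧
      rk M ({z | z ∈ G ∧ ∀ v, (segNear (r₀ z) = v ∨ segFar (r₀ z) = v) → v ∉ VV LR ∧
          v ∉ VV (Mv : Set (Bool × ℕ × ℕ))} ∪ (crr L₁ (Seg w) \ KL m R c LR B)) ≤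
        rk M (crr L₁ (Seg w) \ KL m R c LR B) + {i | i < m ∧ R i ∈ LR}.ncard * (2 * k) := by
  classical
  obtain ⟨C, hC⟩ := gamma3.{u, 0} k hk κ
  refine ⟨C, ?_⟩
  intro ρh
  obtain ⟨w₁, s₁, h1⟩ := hC ρh
  refine ⟨w₁, s₁, ?_⟩
  intro wmax mmax n'
  obtain ⟨n, hn⟩ := h1 mmax wmax ((Seg wmax).ncard + mmax) n'
  refine ⟨n + 2, ?_⟩
  intro α M _ w s 𝒯 L₁ f₁ e₁ u₁ L₂ f₂ e₂ u₂ m τ R c LR G r₀ A₀ Tl hw hwm hs hm hu₁ hu₂ hTl hP hHot
    htau hrow hmem hinj hanc htile hLR h2 hG₀ hG₁ hG₂ hOn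
  obtain ⟨t, ht⟩ : Tl.Nonempty := Finset.card_pos.1 (by omega)
  obtain ⟨ψ, hψ1, hψ2⟩ := exists_idx (Tl.erase t) (n := n) (by
    rw [Finset.card_erase_of_mem ht]
    omega)
  have hψT : ∀ i ≤ n, ψ i ∈ Tl := fun i hi => Finset.mem_of_mem_erase (hψ1 i hi)
  have hψt : ∀ i ≤ n, ψ i ≠ t := fun i hi => Finset.ne_of_mem_erase (hψ1 i hi)
  have hsub : shS (τ t).1 (τ t).2 '' Seg s ⊆ tiles s 𝒯 := fun σ hσ => ⟨τ t, htau t ht, hσ⟩
  obtain ⟨f₂', hg₂⟩ := (hP.s₂.mono hu₂).shift (i := (τ t).1) (j := (τ t).2) (S' := Seg s) hsub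
  have hg₁ := hP.s₁.mono hu₁
  obtain ⟨H, hH⟩ : ∃ H : Finset ℕ, H = (Finset.range m).filter (fun i => R i ∈ LR) := ⟨_, rfl⟩
  have hHm : ∀ i, i ∈ H ↔ i < m ∧ R i ∈ LR := by
    intro i
    rw [hH, Finset.mem_filter, Finset.mem_range]
  have hHc : {i | i < m ∧ R i ∈ LR}.ncard = H.card := by
    rw [← Set.ncard_coe_finset]
    congr 1
    ext i
    simp [hHm]
  have hHm' : H.card ≤ mmax := by
    rw [hH]
    refine (Finset.card_filter_le _ _).trans ?_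
    rw [Finset.card_range]
    exact hm
  obtain ⟨Λ, hΛ⟩ : ∃ Λ : Set α, Λ = e₁ '' Seg w ∪ (fun i => c i t) '' (Finset.range m : Set ℕ) :=
    ⟨_, rfl⟩
  have hΛS : Λ ⊆ crr L₁ (Seg w) := by
    rw [hΛ]
    rintro x (⟨r, hr, rfl⟩ | ⟨i, hi, rfl⟩)
    · exact ⟨r, hr, hg₁.mem_last hr⟩
    · have hi' := Finset.mem_range.1 (Finset.mem_coe.1 hi)
      exact ⟨R i, hrow i hi', hmem i hi' t ht⟩
  have hΛc : Λ.ncard ≤ (Seg wmax).ncard + mmax := by
    rw [hΛ]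
    refine (Set.ncard_union_le _ _).trans (Nat.add_le_add ?_ ?_)
    · exact (Set.ncard_image_le (seg_finite w)).trans (seg_ncard_mono hwm)
    · refine (Set.ncard_image_le (Finset.range m).finite_toSet).trans ?_
      rw [Set.ncard_coe_finset, Finset.card_range]
      exact hm
  have hgΛ : ∀ r ∈ Seg w, e₁ r ∈ L₁ r ∧ e₁ r ∈ Λ := by
    intro r hr
    refine ⟨hg₁.mem_last hr, ?_⟩
    rw [hΛ]
    exact Or.inl ⟨r, hr, rfl⟩
  rcases hn M w s L₁ (fun σ => L₂ (shS (τ t).1 (τ t).2 σ)) f₁ f₂' e₁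
      (fun σ => e₂ (shS (τ t).1 (τ t).2 σ)) Λ e₁ H (fun i j => c i (ψ j)) R LR G hw hwm hs hg₁ hg₂
      (by
        intro i j a b hij hab
        have h5 : shS ((τ t).1 + a) ((τ t).2 + b) '' Seg ρh =
            shS (τ t).1 (τ t).2 '' (shS a b '' Seg ρh) := by
          rw [image_image]
          refine image_congr fun σ _ => ?_
          rw [shS_add]
        obtain ⟨r, hr, x, hx, hx'⟩ := hHot M 𝒯 L₁ f₁ e₁ u₁ L₂ f₂ u₂ Matroid.IsMinor.refl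
          subset_rfl hu₁ hu₂ (fun r hr => hg₁.mem_last hr) hP i j ((τ t).1 + a) ((τ t).2 + b) hij (by
            rw [h5]
            exact (image_mono hab).trans hsub)
        refine ⟨r, hr, x, hx, ?_⟩
        rw [crr_shift, ← h5]
        exact hx') hΛS hΛc hgΛ (by
        rintro x ⟨hx, hx'⟩
        rw [crr_shift] at hx'
        obtain ⟨i, hi, rfl⟩ := htile t ht x hx hx'
        rw [hΛ]
        exact Or.inr ⟨i, Finset.mem_coe.2 (Finset.mem_range.2 hi), rfl⟩) hLR hHm' (by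
        intro i hi
        obtain ⟨hi', _⟩ := (hHm i).1 hi
        refine ⟨hrow i hi', fun j hj => ⟨hmem i hi' _ (hψT j hj), ?_⟩⟩
        rw [hΛ]
        rintro (⟨r, hr, h5⟩ | ⟨i', hi'', h5⟩)
        · exact hanc i hi' _ (hψT j hj) r hr h5.symm
        · have h6 := hinj i' (Finset.mem_range.1 (Finset.mem_coe.1 hi'')) t ht i hi' _ (hψT j hj) h5
          exact hψt j hj h6.2.symm) (by
        intro i hi i' hi' j hj j' hj' h5
        obtain ⟨h6, h7⟩ := hinj i ((hHm i).1 hi).1 _ (hψT j hj) i' ((hHm i').1 hi').1 _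
          (hψT j' hj') h5
        exact ⟨h6, hψ2 j hj j' hj' h7⟩) hG₀ hG₁ (by
        rw [crr_shift]
        exact hG₂.mono_right (crr_mono hsub))
      (fun z hz => (hOn z hz).oneP hg₁ (hG₀ hz) hgΛ h2) with hU | ⟨B₀, hB₀, hB₀c, Mv, hMv, hMvc, hrk⟩
  · exact Or.inl hU
  right
  have hB₀n : ∀ i ∈ B₀, i ≤ n := fun i hi => (Finset.mem_Icc.1 (hB₀ hi)).2
  refine ⟨B₀.image ψ, ?_, ?_, Mv, hMv, by rw [hHc]; exact hMvc, ?_⟩
  · intro x hx
    obtain ⟨i, hi, rfl⟩ := Finset.mem_image.1 hx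
    exact hψT i (hB₀n i hi)
  · rw [Finset.card_image_of_injOn, hB₀c]
    intro i hi j hj hij
    exact hψ2 i (hB₀n i hi) j (hB₀n j hj) hij
  · have h5 : KL m R c LR (B₀.image ψ) = DA.Gam.ZH H (fun i j => c i (ψ j)) B₀ := by
      ext x
      simp only [KL, DA.Gam.ZH, mem_iUnion, mem_image, exists_prop, mem_ofPred_eq]
      constructor
      · rintro ⟨i, hi, hiL, b, hb, rfl⟩
        obtain ⟨j, hj, rfl⟩ := Finset.mem_image.1 hb
        exact ⟨i, (hHm i).2 ⟨hi, hiL⟩, j, Finset.mem_coe.2 hj, rfl⟩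
      · rintro ⟨i, hi, j, hj, rfl⟩
        exact ⟨i, ((hHm i).1 hi).1, ((hHm i).1 hi).2, ψ j,
          Finset.mem_image_of_mem _ (Finset.mem_coe.1 hj), rfl⟩
    rw [h5, hHc]
    refine (rk_mono M (union_subset_union_left _ ?_)).trans hrk
    rintro z ⟨hz, hv⟩
    exact (hOn z hz).fx hg₁ hgΛ h2 hz hv

end TSH
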