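import Pool.Agent.EN.Joint

/-!
# Joint ground from loops (row HJ of T-star, helper11)
-/

open Set Relation
open scoped Matroid

namespace TST

open BIC Gad EN

variable {α V ι : Type*} {M : Matroid α} {S S₁ : Set α} {ends : α → Sym2 V}

/-- every vertex of `W` is connected inside of `W` to a loop -/
def Grnd (S₁ : Set α) (ends : α → Sym2 V) (W : Set V) : Prop :=
  ∀ w ∈ W, ∃ v ∈ W, (∃ h ∈ S₁, ends h = s(v, v)) ∧
    ReflTransGen (fun a b => GAdj S₁ ends a b ∧ a ∈ W ∧ b ∈ W) w v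

/-- The next element: a loop or an element from the rest of `W` to `P`. -/
lemma Grnd.next {W P : Set V} (hg : Grnd S₁ ends W) {w : V} (hw : w ∈ W) (hwP : w ∉ P) :
    ∃ x ∈ W, x ∉ P ∧ ∃ f ∈ S₁, x ∈ ends f ∧ ∀ v ∈ ends f, v ∈ insert x P := by
  obtain ⟨v, hv, ⟨h, hh, hhv⟩, hr⟩ := hg w hw
  have key : ∀ w, ReflTransGen (fun a b => GAdj S₁ ends a b ∧ a ∈ W ∧ b ∈ W) w v → w ∈ W →
      w ∉ P → ∃ x ∈ W, x ∉ P ∧ ∃ f ∈ S₁, x ∈ ends f ∧ ∀ v ∈ ends f, v ∈ insert x P := by
    intro w hr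
    induction hr using ReflTransGen.head_induction_on with
    | refl =>
      intro h1 h2
      refine ⟨v, h1, h2, h, hh, by rw [hhv]; simp, fun y hy => ?_⟩
      rw [hhv] at hy
      have : y = v := by simpa using hy
      rw [this]; exact mem_insert _ _
    | @head a b hab _ ih =>
      intro h1 h2
      by_cases hb : b ∈ P
      · obtain ⟨⟨f, hf, hfe⟩, _, _⟩ := hab
        refine ⟨a, h1, h2, f, hf, by rw [hfe]; simp, fun y hy => ?_⟩
        rw [hfe] at hy
        rcases Sym2.mem_iff.1 hy with rfl | rfl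
        · exact mem_insert _ _
        · exact mem_insert_of_mem _ hb
      · exact ih hab.2.2 hb
  exact key w hr hw hwP

lemma grnd_step [M.Finite] (hF : Frm M S₁ ends) {P A : Set V} {x : V} (hxP : x ∉ P) (hxA : x ∉ A)
    {f : α} (hf : f ∈ S₁) (hxf : x ∈ ends f) (hfP : ∀ v ∈ ends f, v ∈ insert x P) :
    rk M (ins S₁ ends P ∪ ins S₁ ends A) + 1 ≤
      rk M (ins S₁ ends (insert x P) ∪ ins S₁ ends A) := by
  have h1 : f ∉ M.closure (ins S₁ ends P ∪ ins S₁ ends A) := by
    intro h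
    refine hF.star x f hf hxf (M.closure_subset_closure ?_ h)
    rintro e (he | he)
    · refine ⟨he.1, fun v hv => ?_⟩
      rintro rfl
      exact hxP (he.2 _ hv)
    · refine ⟨he.1, fun v hv => ?_⟩
      rintro rfl
      exact hxA (he.2 _ hv)
  have h2 : M.eRk (insert f (ins S₁ ends P ∪ ins S₁ ends A)) =
      M.eRk (ins S₁ ends P ∪ ins S₁ ends A) + 1 :=
    Matroid.eRk_insert_eq_add_one ⟨hF.sub hf, h1⟩
  have h3 : rk M (insert f (ins S₁ ends P ∪ ins S₁ ends A)) =
      rk M (ins S₁ ends P ∪ ins S₁ ends A) + 1 := by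
    rw [← cast_rk, ← cast_rk] at h2
    exact_mod_cast h2
  rw [← h3]
  refine rk_mono M ?_
  rintro e (rfl | he | he)
  · exact Or.inl ⟨hf, hfP⟩
  · exact Or.inl (ins_mono (subset_insert _ _) he)
  · exact Or.inr he

/-- A grounded set has full rank over everything that avoids it. -/
theorem grnd_skew [M.Finite] (hF : Frm M S₁ ends) {W A : Set V} (hW : W.Finite)
    (hg : Grnd S₁ ends W) (hA : Disjoint A W) :
    rk M (ins S₁ ends A) + W.ncard ≤ rk M (ins S₁ ends W ∪ ins S₁ ends A) := by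
  have key : ∀ n ≤ W.ncard, ∃ P ⊆ W, P.ncard = n ∧
      rk M (ins S₁ ends A) + n ≤ rk M (ins S₁ ends P ∪ ins S₁ ends A) := by
    intro n
    induction n with
    | zero =>
      intro _
      exact ⟨∅, empty_subset _, ncard_empty _, rk_mono M subset_union_right⟩
    | succ n ih =>
      intro hn
      obtain ⟨P, hPW, hPn, hP⟩ := ih (by omega)
      have hne : ∃ w ∈ W, w ∉ P := by
        by_contra hcon
        have h0 : W ⊆ P := fun w hw => by_contra fun h => hcon ⟨w, hw, h⟩
        have h1 : W.ncard ≤ P.ncard := ncard_le_ncard h0 (hW.subset hPW)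
        omega
      obtain ⟨w, hw, hwP⟩ := hne
      obtain ⟨x, hx, hxP, f, hf, hxf, hfP⟩ := hg.next hw hwP
      refine ⟨insert x P, insert_subset hx hPW, ?_, ?_⟩
      · rw [ncard_insert_of_notMem hxP (hW.subset hPW), hPn]
      · have h1 := grnd_step hF hxP (fun h => Set.disjoint_left.1 hA h hx) hf hxf hfP
          (A := A)
        omega
  obtain ⟨P, hPW, hPn, hP⟩ := key _ le_rfl
  have h1 : P = W := eq_of_subset_of_ncard_le hPW hPn.ge hW
  rwa [h1] at hP

/-- Skew sets: subsets. -/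
lemma skew_sub [M.Finite] {X X' Y Y' : Set α} (hX : X ⊆ X') (hY : Y ⊆ Y')
    (h : rk M X' + rk M Y' ≤ rk M (X' ∪ Y')) : rk M X + rk M Y ≤ rk M (X ∪ Y) := by
  have h1 := rk_submod M (X ∪ Y') X'
  have h2 : rk M X ≤ rk M ((X ∪ Y') ∩ X') := rk_mono M (subset_inter subset_union_left hX)
  have h3 : rk M (X' ∪ Y') ≤ rk M ((X ∪ Y') ∪ X') := rk_mono M (by
    rintro e (he | he)
    · exact Or.inr he
    · exact Or.inl (Or.inr he))
  have h4 := rk_submod M (X ∪ Y) Y'
  have h5 : rk M Y ≤ rk M ((X ∪ Y) ∩ Y') := rk_mono M (subset_inter subset_union_right hY)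
  have h6 : rk M (X ∪ Y') ≤ rk M ((X ∪ Y) ∪ Y') := rk_mono M (by
    rintro e (he | he)
    · exact Or.inl (Or.inl he)
    · exact Or.inr he)
  omega

/-- Joint ground: every set avoids a grounded set which contains the other ones. -/
theorem ju_of_grnd [M.Finite] (hF : Frm M S₁ ends) (hS : S ⊆ S₁) (I : Finset ι) (U : ι → Set V)
    (hfull : ∀ i ∈ I, (U i).ncard ≤ rk M (ins S ends (U i)))
    (hW : ∀ i ∈ I, ∃ W : Set V, W.Finite ∧ Grnd S₁ ends W ∧ Disjoint (U i) W ∧
      ∀ j ∈ I, j ≠ i → U j ⊆ W) : JU M S ends I U := by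
  classical
  unfold JU
  have key : ∀ J : Finset ι, J ⊆ I → ∑ i ∈ J, (U i).ncard ≤ rk M (⋃ i ∈ J, ins S ends (U i)) := by
    intro J
    induction J using Finset.induction_on with
    | empty => intro _; simp
    | insert i J hi ih =>
      intro hJ
      have hiI : i ∈ I := hJ (Finset.mem_insert_self _ _)
      have hJI : J ⊆ I := fun j hj => hJ (Finset.mem_insert_of_mem hj)
      obtain ⟨W, hWf, hg, hd, hsub⟩ := hW i hiI
      have h1 := grnd_skew hF hWf hg hd
      have h2 := hF.rk_ins hWf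
      have h3 : rk M (⋃ j ∈ J, ins S ends (U j)) + rk M (ins S ends (U i)) ≤
          rk M ((⋃ j ∈ J, ins S ends (U j)) ∪ ins S ends (U i)) := by
        refine skew_sub (X' := ins S₁ ends W) (Y' := ins S₁ ends (U i)) ?_ ?_ (by omega)
        · refine iUnion₂_subset fun j hj e he => ⟨hS he.1, fun v hv => ?_⟩
          exact hsub j (hJI hj) (fun h => hi (h ▸ hj)) (he.2 v hv)
        · exact fun e he => ⟨hS he.1, he.2⟩
      have h4 := ih hJI
      have h5 := hfull i hiI
      rw [Finset.sum_insert hi, Finset.set_biUnion_insert, union_comm]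
      omega
  exact key I subset_rfl

end TST
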