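import Mathlib

/-!
# Closure of a relation on labels with a counter (T-star, helper33)
-/

set_option autoImplicit false

namespace TST

open Relation

/-- **Closure with a counter.**  `Hit s l` = the label `l` is hit within `s`. -/
theorem hit_closure {Adj : ℕ → ℕ → Prop} {Hit : ℕ → ℕ → Prop} {m a : ℕ}
    (mono : ∀ s s' l, s ≤ s' → Hit s l → Hit s' l)
    (step : ∀ s l l', l < m → l' < m → Adj l l' → Hit s l → Hit (s + a) l') {l q : ℕ}
    (hl : l < m) (h : ReflTransGen (fun x y => x < m ∧ y < m ∧ Adj x y) l q) (h₀ : Hit a l) :
    Hit (a * m + a) q := by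
  classical
  have hA : ∀ j, Hit (a * j + a) q ∨
      j + 1 ≤ ((Finset.range m).filter fun k => Hit (a * j + a) k).card := by
    intro j
    induction j with
    | zero =>
      right
      have h1 : l ∈ (Finset.range m).filter fun k => Hit (a * 0 + a) k := by
        rw [Finset.mem_filter, Finset.mem_range]
        exact ⟨hl, by simpa using h₀⟩
      exact Finset.card_pos.2 ⟨l, h1⟩
    | succ j ih =>
      have hle : a * j + a ≤ a * (j + 1) + a := by
        rw [Nat.mul_succ]
        omega
      rcases ih with h1 | h1
      · exact Or.inl (mono _ _ _ hle h1)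
      by_cases hq : Hit (a * j + a) q
      · exact Or.inl (mono _ _ _ hle hq)
      right
      -- an edge which leaves the set
      have hex : ∃ x y, (x < m ∧ y < m ∧ Adj x y) ∧ Hit (a * j + a) x ∧ ¬ Hit (a * j + a) y := by
        by_contra hcon
        push Not at hcon
        have h2 : Hit (a * j + a) l := mono _ _ _ (by omega) h₀
        have h3 : ∀ {y}, ReflTransGen (fun x y => x < m ∧ y < m ∧ Adj x y) l y →
            Hit (a * j + a) y := by
          intro y hy
          induction hy with
          | refl => exact h2
          | tail _ h5 h6 => exact hcon _ _ h5 h6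
        exact hq (h3 h)
      obtain ⟨x, y, ⟨hx, hy, hxy⟩, h3, h4⟩ := hex
      have h5 : insert y ((Finset.range m).filter fun k => Hit (a * j + a) k) ⊆
          (Finset.range m).filter fun k => Hit (a * (j + 1) + a) k := by
        intro k hk
        rw [Finset.mem_insert, Finset.mem_filter, Finset.mem_range] at hk
        rw [Finset.mem_filter, Finset.mem_range]
        rcases hk with rfl | ⟨hk, hk'⟩
        · refine ⟨hy, ?_⟩
          have h6 := step _ _ _ hx hy hxy h3
          rw [Nat.mul_succ]
          exact h6
        · exact ⟨hk, mono _ _ _ hle hk'⟩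
      have h6 := Finset.card_le_card h5
      rw [Finset.card_insert_of_notMem (by
        rw [Finset.mem_filter]
        exact fun h7 => h4 h7.2)] at h6
      omega
  rcases hA m with h1 | h1
  · exact h1
  · exfalso
    have h2 := Finset.card_filter_le (Finset.range m) fun k => Hit (a * m + a) k
    rw [Finset.card_range] at h2
    omega

end TST
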