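import Pool.Agent.TST.LinkFloat
import Pool.Agent.EN.PatEx

/-!
# T-star: the strip situation (definitions) and row D2, floats

`HostD`: the data of the strip situation.  `linkFloat`: a floating rectangle gives a uniform minor.
-/

open Set BIC BICS
open scoped Matroid

namespace TSK

universe u

open Mdl Mdj EN Gad

/-- The outside vertices of the graph of `S`. -/
def OutV {α V σ : Type*} (S : Set α) (ends : α → Sym2 (HV V σ)) : Set V :=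
  {v | ∃ e ∈ S, (Sum.inl v : HV V σ) ∈ ends e}

/-- The data of the strip situation: `Sf` all elements of the graph, `S` the cheap ones, `Q` is
contracted for the joint ground only, `E₂`, `D₂` the dual grid. -/
structure HostD {α : Type u} {V σ : Type} (M : Matroid α) (S Sf Q E₂ D₂ : Set α)
    (ends : α → Sym2 (HV V σ)) (H : Host V σ) (N : ℤ) (u k₁ e n' : ℕ) : Prop where
  sub : S ⊆ Sf
  frmU : FrmU M Sf ends u
  Q_sub : Q ⊆ M.E
  QS : Disjoint Q S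
  frm : Frm (M ／ Q) S ends
  gd : ∀ v, H.gd v
  emb : Emb S ends H N id
  /-- the columns, through the window `0` -/
  col : Col0 Sf ends H N
  SE : Disjoint Sf E₂
  SD : Disjoint S D₂
  E_sub : E₂ ⊆ M.E
  D_sub : D₂ ⊆ M.E \ E₂
  pg : PGrid (M✶ ／ D₂) E₂ n'
  alpha : AlphaA M E₂ Sf ends H N k₁ (OutV S ends) e

section

variable {α : Type u} {V σ : Type}

lemma HostD.mono [Finite V] {M : Matroid α} {S Sf Q E₂ D₂ : Set α} {ends : α → Sym2 (HV V σ)}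
    {H : Host V σ} {N : ℤ} {u k₁ k₂ e n' : ℕ} (h : HostD M S Sf Q E₂ D₂ ends H N u k₁ e n')
    (hk : k₂ ≤ k₁) : HostD M S Sf Q E₂ D₂ ends H N u k₂ e n' :=
  ⟨h.sub, h.frmU, h.Q_sub, h.QS, h.frm, h.gd, h.emb, h.col, h.SE, h.SD, h.E_sub, h.D_sub, h.pg,
    h.alpha.mono (Set.toFinite _) hk Set.Subset.rfl le_rfl⟩

end

/-- **Row D2, floats.** -/
theorem linkFloat (k u : ℕ) : ∃ k₁ : ℕ, ∀ e : ℕ, ∃ w y₀ : ℕ, ∀ {α : Type u} {V σ : Type}
    [Finite V] [Finite σ] (M : Matroid α) [M.Finite] (S Sf Q E₂ D₂ : Set α)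
    (ends : α → Sym2 (HV V σ)) (H : Host V σ) (N : ℤ) (n' : ℕ) {h : ℕ}
    (Z : Finset (EN.Wall.WV h)), HostD M S Sf Q E₂ D₂ ends H N u k₁ e n' → y₀ ≤ n' →
    FloatOut (M ／ Q) S Sf ends H N Z 1 w → HasUniformMinor M k := by
  classical
  obtain ⟨k₁, hk⟩ := float_wall.{u, 0} k u
  refine ⟨k₁, fun e => ?_⟩
  obtain ⟨w, y₀, hy⟩ := hk e
  refine ⟨w, y₀, ?_⟩
  intro α V σ _ _ M _ S Sf Q E₂ D₂ ends H N n' h Z hD hn' hF
  obtain ⟨h1, h2, h3, h4, h5, _, hE, _, h6, h7, h8, h9, h10, hal⟩ := hD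
  obtain ⟨B, a, f1, _, f3, f4, _, f6, f7, _, R, r1, r2, r3, r4⟩ := hF
  have hR : ∀ y, y ∈ R ↔ EN.Wall.vl y.1 ∈ Rct w (a 0).1 (a 0).2 := by
    intro y
    rw [r1]
    constructor
    · rintro ⟨i, hi, h⟩
      obtain rfl : i = 0 := by omega
      exact h
    · intro h
      exact ⟨0, by omega, h⟩
  obtain ⟨g1, g2⟩ := f7 0 (by omega)
  -- every block of the rectangle has an element at each of its vertices
  have htouch : ∀ y ∈ R, ∀ v ∈ B y, ∃ e ∈ S, v ∈ ends e := by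
    intro y hyR v hv
    obtain ⟨⟨⟨x, hx⟩, ⟨z, hz⟩⟩, hyZ⟩ := y
    have hm := (hR _).1 hyR
    have hm' : (a 0).1 ≤ x ∧ x < (a 0).1 + 2 * w ∧ (a 0).2 ≤ z ∧ z < (a 0).2 + w := hm
    obtain ⟨x', hx', hadj⟩ : ∃ x', ((a 0).1 ≤ x' ∧ x' < (a 0).1 + 2 * w) ∧
        (x + 1 = x' ∨ x' + 1 = x) := by
      by_cases hlt : x + 1 < (a 0).1 + 2 * w
      · exact ⟨x + 1, ⟨by omega, hlt⟩, Or.inl rfl⟩
      · exact ⟨x - 1, ⟨by omega, by omega⟩, Or.inr (by omega)⟩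
    have hz' : ((⟨x', by omega⟩, ⟨z, hz⟩) : EN.Wall.WV h) ∉ Z :=
      f6 0 (by omega) _ hx'.1 hx'.2 hm'.2.2.1 hm'.2.2.2
    have hzR : (⟨_, hz'⟩ : WZ Z) ∈ R := (hR _).2 ⟨hx'.1, hx'.2, hm'.2.2.1, hm'.2.2.2⟩
    exact touch_of (r2 _ hyR).1 (r3 _ hyR _ hzR (Or.inl ⟨rfl, hadj⟩)) hv
  refine hy n' hn' M Sf S Q E₂ D₂ ends Z B (a 0).1 (a 0).2 R h1 h2 h3 h4 h5 h8 h9 h10 ?_ ?_ g1 g2 hR
    (fun y hy => ⟨f1 y, ?_, (r2 y hy).1⟩) (fun y _ z _ hyz => f4 y z hyz) r3 r4 ?_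
  · rw [Set.disjoint_union_right]
    exact ⟨h6.mono_left h1, h7⟩
  · intro y hy
    exact f6 0 (by omega) y hy.1 hy.2.1 hy.2.2.1 hy.2.2.2
  · obtain ⟨v, hv⟩ := f3 y
    exact ⟨_, hv⟩
  · intro X hX hXE hXr
    obtain ⟨VB, B', v1, v2, v3, v4, v5, _, v8⟩ := hal X hX hXE hXr
    refine ⟨VB, B', v1, v4, v5, v3, le_trans ?_ v8⟩
    choose vy hvy using f3
    refine Set.ncard_le_ncard_of_injOn vy ?_ ?_ (Set.toFinite _)
    · rintro y ⟨hyR, hyd⟩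
      exact ⟨htouch y hyR _ (hvy y), Set.disjoint_left.1 hyd (hvy y)⟩
    · rintro y _ z _ hyz
      by_contra hne
      refine Set.disjoint_left.1 (f4 y z hne) (hvy y) ?_
      rw [hyz]
      exact hvy z

end TSK
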