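import Pool.Agent.TST.AlphaT

/-!
# Row HX of T-star: the hypothesis `hX` of `SG.hub_host`, from hot blocks
-/

set_option autoImplicit false

open Set BIC BICS CWL
open scoped Matroid

namespace TSH

universe u

open Mdl Mdj EN Gad TST EN.Wall

/-- **Row HX.** -/
theorem hub_hX (κ k₁ τ : ℕ) : ∃ c : ℕ, ∀ ρ : ℕ, ∃ w₀ s₁ : ℕ, ∀ w ≥ w₀, ∀ s ≥ s₁,
    ∀ {α : Type u} (M : Matroid α) [M.Finite] (S₂ : Set (Bool × ℕ × ℕ))
    (L₁ : Bool × ℕ × ℕ → List α) (f₁ : α → Sym2 ((ℕ × ℕ) ⊕ α)) (e₁ : Bool × ℕ × ℕ → α) (u₁ : ℕ)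
    (L₂ : Bool × ℕ × ℕ → List α) (f₂ : α → Sym2 ((ℕ × ℕ) ⊕ α)) (e₂ : Bool × ℕ × ℕ → α) (u₂ : ℕ),
    Pair M (Seg w) L₁ f₁ e₁ u₁ S₂ L₂ f₂ e₂ u₂ → u₁ ≤ κ → u₂ ≤ κ →
    (∀ i j a b : ℕ, shS i j '' Seg ρ ⊆ Seg w → shS a b '' Seg ρ ⊆ S₂ →
      ∃ r ∈ shS i j '' Seg ρ, ∃ x ∈ L₁ r, x ∈ crr L₂ (shS a b '' Seg ρ)) →
    ∀ i₀ j₀ : ℕ, shS i₀ j₀ '' Seg s ⊆ S₂ → ∀ (a n : ℕ) (el : SegR n → ℕ → α) (S : Set α)
    (ends : α → Sym2 (Nd (WV n) (SegR n))) (BQ : Set (SegR n)), a + (2 * n - 1) ≤ w →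
    (∀ (r : SegR n) (p : ℕ) (h : p < (L₁ (shS a a r.1)).length),
      el r p = (L₁ (shS a a r.1))[p]) →
    LocB M (inW L₁ a n) el S ends BQ (crr L₁ (Seg w)) →
    ∀ {σ : Type} {ln : σ → ℕ} {N : ℕ} {K : SegR n → Finset ℕ}
    {T : Strip ((inW L₁ a n).shrink K) (CI ln) N} {Lm : ℕ}
    {eL : α → Sym2 (HV (OV (WV n) (SegR n) Lm) σ)} {Rg : Set α},
    LabB (inW L₁ a n) el S ends BQ K T Lm eL Rg → ∀ {t₀ t₁ : σ},
    (∀ i j : CI ln, i.1.1 = t₀ → j.1.1 = t₁ → T.R i ≠ T.R j) →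
    (T.R '' {j | j.1.1 = t₁}).ncard ≤ τ →
    Disjoint (crr L₂ (shS i₀ j₀ '' Seg s)) (cel (inW L₁ a n) K el) →
    Disjoint (crr L₂ (shS i₀ j₀ '' Seg s)) (Sh ((inW L₁ a n).shrink K) (els K el) T univ Rg eL) →
    ∀ F Fr : Set α, HubF (els K el) T eL Rg t₀ t₁ F Fr →
    ∀ X ⊆ (M ／ cel (inW L₁ a n) K el ／ F).E, c < {σ ∈ Seg s | e₂ (shS i₀ j₀ σ) ∉ X}.ncard →
      BIC.rk (M ／ cel (inW L₁ a n) K el ／ F) X +
        BIC.rk (M ／ cel (inW L₁ a n) K el ／ F) ((M ／ cel (inW L₁ a n) K el ／ F).E \ X) <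
        BIC.rk (M ／ cel (inW L₁ a n) K el ／ F) (M ／ cel (inW L₁ a n) K el ／ F).E + k₁ →
      ∃ Bd : Finset (SegR n), Bd.card ≤ c ∧ ∀ r ∈ NH T t₁, r ∉ Bd →
        ∀ k < ((inW L₁ a n).shrink K).len r, els K el r k ∉ X := by
  classical
  obtain ⟨c, hc⟩ := alphaHotTE.{u} κ k₁ τ
  refine ⟨c, fun ρ => ?_⟩
  obtain ⟨w₀, s₁, h0⟩ := hc ρ
  refine ⟨w₀, s₁, ?_⟩
  intro w hw s hs α M _ S₂ L₁ f₁ e₁ u₁ L₂ f₂ e₂ u₂ hp hu₁ hu₂ hhot i₀ j₀ htile a n el S ends BQ haw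
    hel hL σ ln N K T Lm eL Rg hB t₀ t₁ hrow hτ hC hD F Fr hF X hX hXe hXr
  have hseg : ∀ r : SegR n, shS a a r.1 ∈ Seg w := fun r => shS_mem (by omega) haw haw r.2
  have hlen : ∀ r : SegR n, (inW L₁ a n).len r = (L₁ (shS a a r.1)).length := fun r => rfl
  have hmem : ∀ (r : SegR n) (p : ℕ), p < (inW L₁ a n).len r → el r p ∈ L₁ (shS a a r.1) := by
    intro r p hp
    rw [hel r p hp]
    exact List.getElem_mem _
  -- the missing rows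
  obtain ⟨Z₀, hZ₀⟩ : ∃ Z₀ : Set (Bool × ℕ × ℕ), Z₀ = (fun r : SegR n => shS a a r.1) ''
    {r | r ∉ NH T t₁} := ⟨_, rfl⟩
  have hNH : {r | r ∉ NH T t₁} = T.R '' {j | j.1.1 = t₁} := by
    ext r
    constructor
    · intro hr
      by_contra hcon
      exact hr fun j hj hjr => hcon ⟨j, hj, hjr⟩
    · rintro ⟨j, hj, rfl⟩ hr
      exact hr j hj rfl
  have hZf : Z₀.Finite := by
    rw [hZ₀]
    exact (Set.toFinite _).image _
  have hZc : Z₀.ncard ≤ τ := by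
    rw [hZ₀]
    exact (ncard_image_le (Set.toFinite _)).trans (hNH ▸ hτ)
  have hRn : Rn (inW L₁ a n) el T t₁ (crr L₁ (Seg w)) = crr L₁ (Seg w \ Z₀) := by
    ext x
    constructor
    · rintro ⟨⟨r, hr, hx⟩, h2⟩
      refine ⟨r, ⟨hr, fun h3 => ?_⟩, hx⟩
      rw [hZ₀] at h3
      obtain ⟨r', hr', rfl⟩ := h3
      obtain ⟨p, hp, rfl⟩ := List.mem_iff_getElem.1 hx
      exact h2 ⟨r', hr', p, hp, hel r' p hp⟩
    · rintro ⟨r, ⟨hr, hrZ⟩, hx⟩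
      refine ⟨⟨r, hr, hx⟩, ?_⟩
      rintro ⟨r', hr', p, hp', rfl⟩
      have h3 := hp.s₁.uniq (hseg r') hr (hmem r' p hp') hx
      apply hrZ
      rw [hZ₀, ← h3]
      exact ⟨r', hr', rfl⟩
  -- the skew part
  obtain ⟨hGE, hGr⟩ := hL.hub_skew hB hrow hF
  rw [hRn] at hGE hGr
  obtain ⟨C₀, hC₀⟩ : ∃ C₀, C₀ = cel (inW L₁ a n) K el := ⟨_, rfl⟩
  rw [← hC₀] at hGE hGr hX hXr hC
  obtain ⟨R', hR'⟩ : ∃ R', R' = crr L₁ (Seg w \ Z₀) := ⟨_, rfl⟩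
  rw [← hR'] at hGE hGr
  obtain ⟨G, hG⟩ : ∃ G, G = (C₀ ∪ F) \ R' := ⟨_, rfl⟩
  rw [← hG] at hGE hGr
  obtain ⟨F', hF'⟩ : ∃ F', F' = (C₀ ∪ F) ∩ R' := ⟨_, rfl⟩
  have hGF : C₀ ∪ F = G ∪ F' := by
    rw [hG, hF']
    ext x
    constructor
    · intro h1
      by_cases h2 : x ∈ R'
      · exact Or.inr ⟨h1, h2⟩
      · exact Or.inl ⟨h1, h2⟩
    · rintro (h1 | h1)
      · exact h1.1
      · exact h1.1
  have hMM : M ／ C₀ ／ F = M ／ G ／ F' := by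
    rw [Matroid.contract_contract, Matroid.contract_contract, hGF]
  have fG : (M ／ G).Finite := ⟨M.ground_finite.subset sdiff_subset⟩
  have hR'E : R' ⊆ M.E := by
    rw [hR']
    exact (crr_mono sdiff_subset).trans hp.s₁.sub_ground
  have hg₁ : GSide (M ／ G) (Seg w \ Z₀) L₁ f₁ e₁ u₁ := by
    refine (hp.s₁.subset sdiff_subset).of_rk ?_ fun Y hY => ?_
    · rw [← hR', Matroid.contract_ground]
      exact fun x hx => ⟨hR'E hx, fun h1 => (hGE h1).2 hx⟩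
    · rw [← hR'] at hY
      exact rk_contract_skew hR'E hGE hGr hY
  have hSwE : ∀ x ∈ F, x ∈ crr L₂ (shS i₀ j₀ '' Seg s) → False := fun x h1 h2 =>
    Set.disjoint_left.1 hD h2 (hF.sh h1)
  have hGd : Disjoint (crr L₂ (shS i₀ j₀ '' Seg s)) (C₀ ∪ F) := by
    rw [Set.disjoint_union_right]
    exact ⟨hC, Set.disjoint_left.2 fun x h1 h2 => hSwE x h2 h1⟩
  have hg₂ : GSide (M ／ G)✶ (shS i₀ j₀ '' Seg s) L₂ f₂ e₂ u₂ := by
    have fd : M✶.Finite := inferInstance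
    rw [Matroid.dual_contract]
    refine (hp.s₂.subset htile).delete (hGd.mono_right ?_)
    rw [hG]
    exact sdiff_subset
  -- elements of the rows
  have hFrow : ∀ x ∈ F, x ∈ crr L₁ (Seg w) → ∃ r p, p < (inW L₁ a n).len r ∧ el r p = x := by
    intro x hx hxR
    rcases hF.sw hx with (⟨r', k, hk, -, h3⟩ | ⟨i, k, g1, g2, h3⟩) | h3
    · exact ⟨r', kth K r' k, hB.K_lt _ _ (kth_mem hk), h3⟩
    · have h4 := T.lt i
      have h5 : ((inW L₁ a n).shrink K).len (T.R i) = (K (T.R i)).card := rfl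
      exact ⟨T.R i, kth K (T.R i) k, hB.K_lt _ _ (kth_mem (by omega)), h3⟩
    · obtain ⟨h4, i, i', b, p, q, g1, g2, g3, g4, h5, h6, h7, -⟩ := hB.rg x h3
      have h8 := (hL.loc (T.R i) (hB.colQ i) p h6 h7 x h4).1 (by rw [h5]; simp)
      by_cases h9 : x = el (T.R i) (p - 1)
      · exact ⟨T.R i, p - 1, by omega, h9.symm⟩
      · by_cases h10 : x = el (T.R i) p
        · exact ⟨T.R i, p, h7, h10.symm⟩
        · exact absurd (hL.mem_H hxR h9 h10) h8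
  have hkeep : ∀ r ∈ Seg w \ Z₀, ∃ x ∈ L₁ r, x ∉ F' := by
    intro r hr
    by_cases hin : ∃ r' : SegR n, shS a a r'.1 = r
    · obtain ⟨r', rfl⟩ := hin
      have h1 := hB.len r'
      have h2 : 0 < (K r').card := h1.1
      have h3 := hB.K_lt r' _ (kth_mem h2)
      refine ⟨els K el r' 0, hmem r' _ h3, ?_⟩
      rw [hF']
      rintro ⟨h4 | h4, -⟩
      · rw [hC₀] at h4
        obtain ⟨r'', p, g1, g2, g3⟩ := h4
        obtain ⟨rfl, rfl⟩ := hL.row.inj _ _ _ _ g1 h3 g3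
        exact g2 (kth_mem h2)
      · obtain ⟨i, b, g1, -⟩ := hF.win _ h4 (lab T Lm (((inW L₁ a n).shrink K).nd r' 0)) (by
          rw [hB.row r' 0 h2]
          simp)
        rw [RW.nd_zero] at g1
        rw [lab_inl] at g1
        exact absurd g1 (by unfold TST.cv; simp)
    · have h1 := hp.s₁.mem_last hr.1
      refine ⟨e₁ r, h1, ?_⟩
      rw [hF']
      rintro ⟨h4 | h4, -⟩
      · rw [hC₀] at h4
        obtain ⟨r'', p, g1, g2, g3⟩ := h4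
        have h5 := hmem r'' p g1
        rw [g3] at h5
        exact hin ⟨r'', hp.s₁.uniq (hseg r'') hr.1 h5 h1⟩
      · obtain ⟨r'', k, hk, g3⟩ := hFrow _ h4 ⟨r, hr.1, h1⟩
        have h5 := hmem r'' _ hk
        have h6 : e₁ r ∈ L₁ (shS a a r''.1) := by
          rw [← g3]
          exact h5
        exact hin ⟨r'', hp.s₁.uniq (hseg r'') hr.1 h6 h1⟩
  rw [hMM] at hX hXr
  have hfin : {r ∈ Seg w \ Z₀ | ∃ x ∈ L₁ r, x ∈ X}.Finite :=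
    (seg_finite w).subset fun r hr => hr.1.1
  have h1 := h0 w hw s hs (M ／ G) Z₀ L₁ f₁ e₁ u₁ L₂ f₂ e₂ u₂ F' i₀ j₀ hu₁ hu₂ hZf hZc hg₁ hg₂
    (fun i j a' b' g1 g2 => hhot i j a' b' g1 (g2.trans htile)) (by
      rw [← hR', hF']
      exact inter_subset_right) (hGd.mono_right (by
      rw [hF']
      exact inter_subset_left)) hkeep X hX hXe hXr.le
  have fR : Fintype (SegR n) := Fintype.ofFinite _
  refine ⟨Finset.univ.filter fun r : SegR n => shS a a r.1 ∈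
    {r ∈ Seg w \ Z₀ | ∃ x ∈ L₁ r, x ∈ X}, ?_, ?_⟩
  · refine le_trans ?_ h1
    rw [← ncard_coe_finset]
    refine ncard_le_ncard_of_injOn (fun r : SegR n => shS a a r.1) ?_ ?_ hfin
    · intro r hr
      exact (Finset.mem_filter.1 (Finset.mem_coe.1 hr)).2
    · intro r _ r' _ h2
      exact Subtype.ext (shS_inj a a h2)
  · intro r hr hrB k hk hkX
    apply hrB
    refine Finset.mem_filter.2 ⟨Finset.mem_univ _, ⟨hseg r, ?_⟩, _,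
      hmem r _ (hB.K_lt r _ (kth_mem hk)), hkX⟩
    rw [hZ₀]
    rintro ⟨r', hr', h2⟩
    have h3 : r' = r := Subtype.ext (shS_inj a a h2)
    exact hr' (h3 ▸ hr)

end TSH
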