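import Pool.Agent.TST.Quot
import Pool.Agent.EN.Spine
import Pool.Agent.EN.Joint

/-!
# Quotients by trees which are grown from paths (row HB of T-star)

The part `P` is grown from the connected set `Z P`.  The grown elements `E P` are skew to everything
which touches the part only in `Z P`.
-/

open Set Relation
open scoped Matroid

namespace TST

open BIC Gad EN BICS

variable {α V V' : Type*} {S S₀ S₁ : Set α} {ends : α → Sym2 V} {π : V → Option V'}

/-- `grow` as an induction principle. -/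
lemma growI {U Z : Set V} (hU : U.Finite) (hZU : Z ⊆ U) (hZ : Z.Nonempty)
    (hc : VConn S ends U) : ∃ E : Set α, E ⊆ ins S ends U ∧ Disjoint E (ins S ends Z) ∧
      (∀ τ, Arb S ends Z τ → Arb S ends U (τ ∪ E)) ∧
      ∀ I : Set α → Prop, (∀ (K : Set α) (f : α) (y : V), I K → f ∈ E → y ∈ ends f → y ∈ U →
        y ∉ Z → (∀ e ∈ K, y ∉ ends e) → I (insert f K)) →
        ∀ K : Set α, I K → (∀ e ∈ K, ∀ v ∈ ends e, v ∈ U → v ∈ Z) → I (K ∪ E) := by
  have key : ∀ n : ℕ, ∀ R, Z ⊆ R → R ⊆ U → (U \ R).ncard = n →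
      (∃ E : Set α, E ⊆ ins S ends R ∧ Disjoint E (ins S ends Z) ∧
        (∀ τ, Arb S ends Z τ → Arb S ends R (τ ∪ E)) ∧
        ∀ I : Set α → Prop, (∀ (K : Set α) (f : α) (y : V), I K → f ∈ E → y ∈ ends f → y ∈ R →
          y ∉ Z → (∀ e ∈ K, y ∉ ends e) → I (insert f K)) →
          ∀ K : Set α, I K → (∀ e ∈ K, ∀ v ∈ ends e, v ∈ R → v ∈ Z) → I (K ∪ E)) →
      (∃ E : Set α, E ⊆ ins S ends U ∧ Disjoint E (ins S ends Z) ∧
        (∀ τ, Arb S ends Z τ → Arb S ends U (τ ∪ E)) ∧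
        ∀ I : Set α → Prop, (∀ (K : Set α) (f : α) (y : V), I K → f ∈ E → y ∈ ends f → y ∈ U →
          y ∉ Z → (∀ e ∈ K, y ∉ ends e) → I (insert f K)) →
          ∀ K : Set α, I K → (∀ e ∈ K, ∀ v ∈ ends e, v ∈ U → v ∈ Z) → I (K ∪ E)) := by
    intro n
    induction n with
    | zero =>
      intro R hR1 hR2 hn hex
      have h1 : U \ R = ∅ := by
        rwa [Set.ncard_eq_zero (hU.subset sdiff_subset)] at hn
      have h2 : R = U := Subset.antisymm hR2 (sdiff_eq_empty.1 h1)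
      rw [← h2]
      exact hex
    | succ n ih =>
      rintro R hR1 hR2 hn ⟨E, h1, h2, h4, h5⟩
      obtain ⟨b, hb⟩ : (U \ R).Nonempty := by
        rw [Set.nonempty_iff_ne_empty]
        intro h
        rw [h, Set.ncard_empty] at hn
        omega
      obtain ⟨a, ha⟩ := hZ
      obtain ⟨x, hx, y, hy, ⟨f, hfS, hf⟩, hxU, hyU⟩ := exit (R := R) (hc a (hZU ha) b hb.1)
        (hR1 ha) hb.2
      have hRy : R ∪ {y} ⊆ U := union_subset hR2 (singleton_subset_iff.2 hyU)
      refine ih (R ∪ {y}) (hR1.trans subset_union_left) hRy ?_ ⟨insert f E, ?_, ?_, ?_, ?_⟩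
      · have h6 : U \ R = insert y (U \ (R ∪ {y})) := by
          ext c
          simp only [mem_sdiff, mem_insert_iff, mem_union, mem_singleton_iff]
          constructor
          · rintro ⟨h6, h7⟩
            by_cases h8 : c = y
            · exact Or.inl h8
            · exact Or.inr ⟨h6, fun h => h.elim h7 h8⟩
          · rintro (rfl | ⟨h6, h7⟩)
            · exact ⟨hyU, hy⟩
            · exact ⟨h6, fun h => h7 (Or.inl h)⟩
        rw [h6, Set.ncard_insert_of_notMem (by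
          rintro ⟨_, h⟩
          exact h (Or.inr rfl)) (hU.subset sdiff_subset)] at hn
        omega
      · refine insert_subset ⟨hfS, ?_⟩ (h1.trans (ins_mono subset_union_left))
        intro v hv
        rw [hf] at hv
        rcases Sym2.mem_iff.1 hv with rfl | rfl
        · exact Or.inl hx
        · exact Or.inr rfl
      · rw [Set.disjoint_insert_left]
        exact ⟨fun h => hy (hR1 (h.2 y (by rw [hf]; simp))), h2⟩
      · intro τ hτ
        have h6 := Arb.join (W₂ := {y}) (τ₂ := ∅) (by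
          rw [Set.disjoint_singleton_right]; exact hy) (h4 τ hτ) (Arb.single y) hfS hf hx rfl
        have e1 : τ ∪ insert f E = insert f (τ ∪ E ∪ ∅) := by
          rw [union_empty, union_insert]
        rw [e1]
        exact h6
      · intro I hI K hK hKU
        have h6 := h5 I (fun K' f' y' g1 g2 g3 g4 g5 g6 => hI K' f' y' g1 (Or.inr g2) g3
          (Or.inl g4) g5 g6) K hK (fun e he v hv hvR => hKU e he v hv (Or.inl hvR))
        rw [union_insert]
        refine hI _ f y h6 (Or.inl rfl) (by rw [hf]; simp) (Or.inr rfl) (fun h => hy (hR1 h)) ?_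
        rintro e (he | he) hye
        · exact hy (hR1 (hKU e he y hye (Or.inr rfl)))
        · exact hy ((h1 he).2 y hye)
  refine key _ Z (subset_refl _) hZU rfl ⟨∅, empty_subset _, disjoint_bot_left, ?_, ?_⟩
  · intro τ hτ
    rw [union_empty]
    exact hτ
  · intro I _ K hK _
    rw [union_empty]
    exact hK

/-- The trees of the parts. -/
structure Trees (S S₀ : Set α) (ends : α → Sym2 V) (π : V → Option V') (Z : V' → Set V)
    (τ E : V' → Set α) : Prop where
  tau : ∀ P, τ P ⊆ ins S₀ ends (Z P)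
  E_sub : ∀ P, E P ⊆ ins S ends (prt π P)
  E_dis : ∀ P, Disjoint (E P) (ins S ends (Z P))
  arb : ∀ P, (prt π P = ∅ ∧ τ P ∪ E P = ∅) ∨ Arb S ends (prt π P) (τ P ∪ E P)
  grow : ∀ P, ∀ I : Set α → Prop, (∀ (K : Set α) (f : α) (y : V), I K → f ∈ E P → y ∈ ends f →
    π y = some P → y ∉ Z P → (∀ e ∈ K, y ∉ ends e) → I (insert f K)) →
    ∀ K : Set α, I K → (∀ e ∈ K, ∀ v ∈ ends e, π v = some P → v ∈ Z P) → I (K ∪ E P)

theorem exists_trees (hS : S₀ ⊆ S) (hfin : ∀ P, (prt π P).Finite) {Z : V' → Set V}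
    (hZ : ∀ P, Z P ⊆ prt π P) (hne : ∀ P, (prt π P).Nonempty → (Z P).Nonempty)
    (hc₀ : ∀ P, VConn S₀ ends (Z P)) (hc : ∀ P, VConn S ends (prt π P)) :
    ∃ τ E : V' → Set α, Trees S S₀ ends π Z τ E := by
  have key : ∀ P, ∃ τ E : Set α, τ ⊆ ins S₀ ends (Z P) ∧ E ⊆ ins S ends (prt π P) ∧
      Disjoint E (ins S ends (Z P)) ∧
      ((prt π P = ∅ ∧ τ ∪ E = ∅) ∨ Arb S ends (prt π P) (τ ∪ E)) ∧
      ∀ I : Set α → Prop, (∀ (K : Set α) (f : α) (y : V), I K → f ∈ E → y ∈ ends f →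
        π y = some P → y ∉ Z P → (∀ e ∈ K, y ∉ ends e) → I (insert f K)) →
        ∀ K : Set α, I K → (∀ e ∈ K, ∀ v ∈ ends e, π v = some P → v ∈ Z P) → I (K ∪ E) := by
    intro P
    rcases (prt π P).eq_empty_or_nonempty with h0 | h0
    · refine ⟨∅, ∅, empty_subset _, empty_subset _, disjoint_bot_left, Or.inl ⟨h0, union_self _⟩, ?_⟩
      intro I _ K hK _
      rw [union_empty]
      exact hK
    · obtain ⟨τ, hτ⟩ := exists_arb ((hfin P).subset (hZ P)) (hne P h0) (hc₀ P)
      obtain ⟨E, h1, h2, h3, h4⟩ := growI (hfin P) (hZ P) (hne P h0) (hc P)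
      exact ⟨τ, E, hτ.1, h1, h2, Or.inr (h3 τ ⟨fun e he => ⟨hS (hτ.1 he).1, (hτ.1 he).2⟩, hτ.2⟩),
        h4⟩
  choose τ E h1 h2 h3 h4 h5 using key
  exact ⟨τ, E, h1, h2, h3, h4, h5⟩

section

variable {Z : V' → Set V} {τ E : V' → Set α}

lemma Trees.quo (h : Trees S S₀ ends π Z τ E) (hfin : ∀ P, (prt π P).Finite) (hS : S ⊆ S₁)
    {S' : Set α} {ends' : α → Sym2 V'} (hsub : S' ⊆ S₁)
    (hrel : ∀ e ∈ S', ∃ p q P Q, ends e = s(p, q) ∧ π p = some P ∧ π q = some Q ∧
      ends' e = s(P, Q) ∧ P ≠ Q) : Quo S₁ ends π (fun P => τ P ∪ E P) S' ends' where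
  fin := hfin
  tree P := by
    rcases h.arb P with h1 | h1
    · exact Or.inl h1
    · exact Or.inr ⟨fun e he => ⟨hS (h1.1 he).1, (h1.1 he).2⟩, h1.2⟩
  sub := hsub
  rel e he := by
    obtain ⟨p, q, P, Q, h1, h2, h3, h4, -⟩ := hrel e he
    exact ⟨p, q, P, Q, h1, h2, h3, h4⟩
  dis P := by
    rw [Set.disjoint_left]
    intro e he he'
    obtain ⟨p, q, P', Q', h1, h2, h3, -, h5⟩ := hrel e he
    rcases h.arb P with ⟨-, h6⟩ | h6
    · have h7 : e ∈ τ P ∪ E P := he'
      rw [h6] at h7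
      exact h7
    · have h7 := (h6.1 he').2
      have h8 : π p = some P := h7 p (by rw [h1]; simp)
      have h9 : π q = some P := h7 q (by rw [h1]; simp)
      rw [h2] at h8
      rw [h3] at h9
      exact h5 ((Option.some.inj h8).trans (Option.some.inj h9).symm)

/-- **The grown elements, one after the other**: every one has a new vertex outside of `Z`. -/
lemma Trees.grow_all (h : Trees S S₀ ends π Z τ E) (hfin : (⋃ P, E P).Finite)
    {I : Set α → Prop} (hI : ∀ (K : Set α) (f : α) (y : V) (P : V'), I K → f ∈ E P → y ∈ ends f →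
      π y = some P → y ∉ Z P → (∀ e ∈ K, y ∉ ends e) → I (insert f K)) {K : Set α} (hK : I K)
    (hKU : ∀ e ∈ K, ∀ v ∈ ends e, ∀ P, π v = some P → v ∈ Z P) : I (K ∪ ⋃ P, E P) := by
  classical
  have key : ∀ T : Finset V', I (K ∪ ⋃ P ∈ T, E P) := by
    intro T
    induction T using Finset.induction_on with
    | empty => simpa using hK
    | insert P T hP ih =>
      rw [Finset.set_biUnion_insert, union_comm (E P), ← union_assoc]
      refine h.grow P I (fun K' f y g1 g2 g3 g4 g5 g6 => hI K' f y P g1 g2 g3 g4 g5 g6) _ ih ?_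
      rintro e (he | he) v hv hvP
      · exact hKU e he v hv P hvP
      · obtain ⟨Q, hQ, he⟩ := mem_iUnion₂.1 he
        have h1 : π v = some Q := (h.E_sub Q he).2 v hv
        rw [hvP] at h1
        exact absurd (Option.some.inj h1 ▸ hQ) hP
  have : Fintype (⋃ P, E P) := hfin.fintype
  choose g hg using fun e : (⋃ P, E P) => mem_iUnion.1 e.2
  have e1 : (⋃ P, E P) = ⋃ P ∈ Finset.univ.image g, E P := by
    refine Subset.antisymm (fun e he => mem_iUnion₂.2 ⟨g ⟨e, he⟩, Finset.mem_image.2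
      ⟨⟨e, he⟩, Finset.mem_univ _, rfl⟩, hg ⟨e, he⟩⟩) ?_
    intro e he
    obtain ⟨P, -, he⟩ := mem_iUnion₂.1 he
    exact mem_iUnion.2 ⟨P, he⟩
  rw [e1]
  exact key _

end

end TST
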