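import Pool.Agent.TST.Shrink
import Pool.Agent.EN.WallRob

/-!
# The wall model in the host from its rows (row H6 of T-star, helper14)

`p r k` are the labels of the nodes of the row `r`.  The class of a vertex `a` of the fine wall
consists of the labels of the good rows which start at `a` (without their last nodes); the classes
of the blocks of side `L` give a wall model as soon as the blocks at bad rows are missing.
-/

open Set Relation
open scoped Matroid

namespace TST

open BIC Gad EN BICS Mdl EN.Wall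

/-- Good rows in the host of depth `d`. -/
structure RowsH {V σ X₀ β : Type*} (H : Host V σ) (d : ℤ) (W : RW X₀ β) (vx : X₀ → V)
    (p : β → ℕ → HV V σ) (Bd : Set β) : Prop where
  pos : ∀ r, r ∉ Bd → 1 ≤ W.len r
  zero : ∀ r, r ∉ Bd → p r 0 = Sum.inl (vx (W.hd r))
  last : ∀ r, r ∉ Bd → p r (W.len r) = Sum.inl (vx (W.tl r))
  adj : ∀ r, r ∉ Bd → ∀ k < W.len r, p r k = p r (k + 1) ∨ H.Adj d (p r k) (p r (k + 1))
  rng : ∀ r, r ∉ Bd → ∀ k ≤ W.len r, ∀ s c b, p r k = Sum.inr (s, c, b) →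
    c < H.len s ∧ -d ≤ b ∧ b ≤ d
  vinj : Function.Injective vx
  inn : ∀ r, r ∉ Bd → ∀ k, 0 < k → k < W.len r → ∀ x, p r k ≠ Sum.inl (vx x)
  inj : ∀ r, r ∉ Bd → ∀ r', r' ∉ Bd → ∀ k k', 0 < k → k < W.len r → 0 < k' → k' < W.len r' →
    p r k = p r' k' → r = r'

section

variable {V σ X₀ β : Type*} {H : Host V σ} {d : ℤ} {W : RW X₀ β} {vx : X₀ → V}
  {p : β → ℕ → HV V σ} {Bd : Set β} {L h : ℕ} {em : WV (L * h) → X₀}

/-- `u` belongs to the fine class of `a`. -/
def Fin0 (W : RW X₀ β) (vx : X₀ → V) (p : β → ℕ → HV V σ) (Bd : Set β) (em : WV (L * h) → X₀)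
    (u : HV V σ) (a : WV (L * h)) : Prop :=
  u = Sum.inl (vx (em a)) ∨ ∃ r, r ∉ Bd ∧ W.hd r = em a ∧ ∃ k < W.len r, u = p r k

lemma Fin0.uniq (hR : RowsH H d W vx p Bd) (hem : Function.Injective em) {u : HV V σ}
    {a a' : WV (L * h)} (h1 : Fin0 W vx p Bd em u a) (h2 : Fin0 W vx p Bd em u a') : a = a' := by
  have key : ∀ b, Fin0 W vx p Bd em u b → u = Sum.inl (vx (em b)) ∨
      ∃ r, r ∉ Bd ∧ W.hd r = em b ∧ ∃ k, 0 < k ∧ k < W.len r ∧ u = p r k := by
    rintro b (h | ⟨r, hr, hb, k, hk, hu⟩)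
    · exact Or.inl h
    · rcases Nat.eq_zero_or_pos k with rfl | h0
      · left
        rw [hu, hR.zero r hr, hb]
      · exact Or.inr ⟨r, hr, hb, k, h0, hk, hu⟩
  rcases key a h1 with g1 | ⟨r, hr, hb, k, h0, hk, g1⟩
  · rcases key a' h2 with g2 | ⟨r', hr', hb', k', h0', hk', g2⟩
    · exact hem (hR.vinj (Sum.inl.inj (g1.symm.trans g2)))
    · exact absurd (g2.symm.trans g1) (hR.inn r' hr' k' h0' hk' _)
  · rcases key a' h2 with g2 | ⟨r', hr', hb', k', h0', hk', g2⟩
    · exact absurd (g1.symm.trans g2) (hR.inn r hr k h0 hk _)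
    · have h3 := hR.inj r hr r' hr' k k' h0 hk h0' hk' (g1.symm.trans g2)
      subst h3
      exact hem (hb.symm.trans hb')

open Classical in
/-- the fine classes -/
noncomputable def fin0 (W : RW X₀ β) (vx : X₀ → V) (p : β → ℕ → HV V σ) (Bd : Set β)
    (em : WV (L * h) → X₀) (u : HV V σ) : Option (WV (L * h)) :=
  if hu : ∃ a, Fin0 W vx p Bd em u a then some hu.choose else none

lemma fin0_eq (hR : RowsH H d W vx p Bd) (hem : Function.Injective em) {u : HV V σ}
    {a : WV (L * h)} : fin0 W vx p Bd em u = some a ↔ Fin0 W vx p Bd em u a := by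
  unfold fin0
  constructor
  · intro h1
    split_ifs at h1 with h2
    have h3 := h2.choose_spec
    rwa [Option.some.inj h1] at h3
  · intro h1
    have h2 : ∃ a, Fin0 W vx p Bd em u a := ⟨a, h1⟩
    rw [dif_pos h2]
    exact congrArg some (Fin0.uniq hR hem h2.choose_spec h1)

/-- missing blocks: those with the first end of a bad row -/
noncomputable def ZBd (W : RW X₀ β) (Bd : Finset β) (em : WV (L * h) → X₀) : Finset (WV h) := by
  classical
  exact Bd.biUnion fun r => if hr : ∃ a, em a = W.hd r then {blk L h hr.choose} else ∅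

lemma card_ZBd (Bd : Finset β) : (ZBd W Bd em).card ≤ Bd.card := by
  classical
  unfold ZBd
  refine (Finset.card_biUnion_le_card_mul Bd _ 1 fun r _ => ?_).trans (by omega)
  split_ifs with h1
  · simp
  · simp

lemma mem_ZBd (hem : Function.Injective em) {Bd : Finset β} {r : β} (hr : r ∈ Bd)
    {a : WV (L * h)} (ha : W.hd r = em a) : blk L h a ∈ ZBd W Bd em := by
  classical
  unfold ZBd
  rw [Finset.mem_biUnion]
  refine ⟨r, hr, ?_⟩
  have h1 : ∃ a, em a = W.hd r := ⟨a, ha.symm⟩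
  rw [dif_pos h1, Finset.mem_singleton]
  rw [hem (h1.choose_spec.trans ha)]

/-- **The wall model from the rows, with prescribed missing blocks.** -/
theorem pre_fin0 [Finite V] [Finite β] (hL : 2 ≤ L) {Bd : Set β}
    (hR : RowsH H d W vx p Bd) (hem : Function.Injective em)
    (hrow : ∀ a b : WV (L * h), (Wl (L * h)).Adj a b →
      ∃ r, (W.hd r = em a ∧ W.tl r = em b) ∨ (W.hd r = em b ∧ W.tl r = em a))
    {Z : Finset (WV h)} (hZ : ∀ r ∈ Bd, ∀ a, W.hd r = em a → blk L h a ∈ Z) :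
    Pre (GZ Z) H d (fun u => (fin0 W vx p Bd em u).bind (bZ L h Z)) := by
  classical
  have hmemZ : ∀ {r a}, W.hd r = em a → blk L h a ∉ Z → r ∉ Bd := by
    intro r a hra ha hr
    exact ha (hZ r hr a hra)
  -- from the first node of a row to the others
  have hwalk : ∀ r, r ∉ Bd → ∀ a, W.hd r = em a → ∀ k < W.len r,
      Cn H d (fin0 W vx p Bd em) a (Sum.inl (vx (em a))) (p r k) := by
    intro r hr a ha k
    induction k with
    | zero =>
      intro _
      rw [hR.zero r hr, ha]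
      exact ReflTransGen.refl
    | succ k ih =>
      intro hk
      have h1 := ih (by omega)
      rcases hR.adj r hr k (by omega) with h2 | h2
      · rw [← h2]
        exact h1
      · exact h1.trans (Cn.one h2 ((fin0_eq hR hem).2 (Or.inr ⟨r, hr, ha, k, by omega, rfl⟩))
          ((fin0_eq hR hem).2 (Or.inr ⟨r, hr, ha, k + 1, hk, rfl⟩)))
  have hcon : ∀ a u, fin0 W vx p Bd em u = some a →
      Cn H d (fin0 W vx p Bd em) a (Sum.inl (vx (em a))) u := by
    intro a u hu
    rcases (fin0_eq hR hem).1 hu with h1 | ⟨r, hr, ha, k, hk, h1⟩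
    · rw [h1]
      exact ReflTransGen.refl
    · rw [h1]
      exact hwalk r hr a ha k hk
  refine Pre.blocks (Z := Z) hL (H := H) (d := d) (f₀ := fin0 W vx p Bd em) ?_ ?_ ?_ ?_
  · intro s c b x hx _
    rcases (fin0_eq hR hem).1 hx with h1 | ⟨r, hr, ha, k, hk, h1⟩
    · exact absurd h1 (by simp)
    · exact hR.rng r hr k (by omega) s c b h1.symm
  · have hfin : (range (fun v : V => (Sum.inl v : HV V σ)) ∪
        ⋃ r : β, (fun k => p r k) '' {k | k < W.len r}).Finite := by
      refine (finite_range _).union (finite_iUnion fun r => (finite_lt_nat _).image _)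
    refine hfin.subset ?_
    rintro u ⟨x, hx, _⟩
    rcases (fin0_eq hR hem).1 hx with h1 | ⟨r, hr, ha, k, hk, h1⟩
    · exact Or.inl ⟨_, h1.symm⟩
    · exact Or.inr (mem_iUnion.2 ⟨r, k, hk, h1.symm⟩)
  · intro x u v _ hu hv
    exact (Cn.symm (hcon x u hu)).trans (hcon x v hv)
  · intro a b hab ha hb
    -- the row between them
    have key : ∀ r a b, W.hd r = em a → W.tl r = em b → blk L h a ∉ Z → a ≠ b →
        ∃ u v, H.Adj d u v ∧ fin0 W vx p Bd em u = some a ∧ fin0 W vx p Bd em v = some b := by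
      intro r a b hra hrb haZ hab
      have hr := hmemZ hra haZ
      have hpos := hR.pos r hr
      have hu : fin0 W vx p Bd em (p r (W.len r - 1)) = some a :=
        (fin0_eq hR hem).2 (Or.inr ⟨r, hr, hra, W.len r - 1, by omega, rfl⟩)
      have hv : fin0 W vx p Bd em (p r (W.len r)) = some b :=
        (fin0_eq hR hem).2 (Or.inl (by rw [hR.last r hr, hrb]))
      have h1 := hR.adj r hr (W.len r - 1) (by omega)
      rw [Nat.sub_add_cancel hpos] at h1
      rcases h1 with h1 | h1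
      · rw [h1, hv] at hu
        exact absurd (Option.some.inj hu).symm hab
      · exact ⟨_, _, h1, hu, hv⟩
    have hne : a ≠ b := fun he => (Wl (L * h)).loopless.irrefl a (he ▸ hab)
    obtain ⟨r, ⟨h1, h2⟩ | ⟨h1, h2⟩⟩ := hrow a b hab
    · exact key r a b h1 h2 ha hne
    · obtain ⟨u, v, g1, g2, g3⟩ := key r b a h1 h2 hb hne.symm
      exact ⟨v, u, g1.symm, g3, g2⟩

/-- **The wall model from the rows.** -/
theorem pre_of_rows [Finite V] [Finite β] (hL : 2 ≤ L) {Bd : Finset β}
    (hR : RowsH H d W vx p (Bd : Set β)) (hem : Function.Injective em)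
    (hrow : ∀ a b : WV (L * h), (Wl (L * h)).Adj a b →
      ∃ r, (W.hd r = em a ∧ W.tl r = em b) ∨ (W.hd r = em b ∧ W.tl r = em a)) :
    ∃ f : HV V σ → Option (WZ (ZBd W Bd em)), Pre (GZ (ZBd W Bd em)) H d f ∧
      (∀ u y, f u = some y ↔ ∃ a, blk L h a = y.1 ∧ Fin0 W vx p Bd em u a) := by
  classical
  refine ⟨_, pre_fin0 hL hR hem hrow (Z := ZBd W Bd em) fun r hr a ha => mem_ZBd hem
    (Finset.mem_coe.1 hr) ha, ?_⟩
  intro u y
  rw [Option.bind_eq_some_iff]
  constructor
  · rintro ⟨a, h1, h2⟩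
    exact ⟨a, bZ_eq.1 h2, (fin0_eq hR hem).1 h1⟩
  · rintro ⟨a, h1, h2⟩
    exact ⟨a, (fin0_eq hR hem).2 h2, bZ_eq.2 h1⟩

end

end TST
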