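import Pool.Agent.TST.SGDefs
import Pool.Agent.TST.PreRows

/-!
# Row PR of the host of T-star: the wall model at depth `0` (helper14)
-/

open Set Relation
open scoped Matroid

namespace TST

open BIC Gad EN BICS Mdl

universe u

variable {α : Type u} {X₀ β σ : Type}

section idx

variable {W : RW X₀ β} {ι : Type*} {N : ℕ} {T : Strip W ι N}

lemma idx_mem (i : ι) {b : ℤ} (h1 : -(N : ℤ) ≤ b) (h2 : b ≤ N + T.m i) :
    T.a i ≤ T.idx i b ∧ T.idx i b ≤ T.a i + 2 * N + T.m i := by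
  unfold Strip.idx
  split_ifs <;> constructor <;> omega

lemma idx_surj (i : ι) {p : ℕ} (h1 : T.a i ≤ p) (h2 : p ≤ T.a i + 2 * N + T.m i) :
    ∃ b : ℤ, -(N : ℤ) ≤ b ∧ b ≤ N + T.m i ∧ T.idx i b = p := by
  by_cases hu : T.up i
  · by_cases h3 : p ≤ T.a i + N
    · refine ⟨(p : ℤ) - T.a i - N, by omega, by omega, ?_⟩
      unfold Strip.idx
      rw [if_pos hu, if_pos (by omega)]
      omega
    · by_cases h4 : p ≤ T.a i + N + T.m i
      · refine ⟨(p : ℤ) - T.a i, by omega, by omega, ?_⟩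
        unfold Strip.idx
        rw [if_pos hu, if_neg (by omega), if_neg (by omega)]
        omega
      · refine ⟨(p : ℤ) - T.a i - N - T.m i, by omega, by omega, ?_⟩
        unfold Strip.idx
        rw [if_pos hu, if_neg (by omega), if_pos (by omega)]
        omega
  · by_cases h3 : p ≤ T.a i + N
    · refine ⟨(T.a i : ℤ) + N - p, by omega, by omega, ?_⟩
      unfold Strip.idx
      rw [if_neg hu, if_neg (by omega), if_pos (by omega)]
      omega
    · by_cases h4 : p ≤ T.a i + N + T.m i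
      · refine ⟨(p : ℤ) - T.a i, by omega, by omega, ?_⟩
        unfold Strip.idx
        rw [if_neg hu, if_neg (by omega), if_neg (by omega)]
        omega
      · refine ⟨(T.a i : ℤ) + N + T.m i - p, by omega, by omega, ?_⟩
        unfold Strip.idx
        rw [if_neg hu, if_pos (by omega)]
        omega

lemma idx_first (hN : 1 ≤ N) (i : ι) {b : ℤ} (h1 : -(N : ℤ) ≤ b) (h2 : b ≤ N + T.m i)
    (h : T.idx i b = T.a i) : b = N ∨ b = -(N : ℤ) := by
  unfold Strip.idx at h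
  split_ifs at h <;> omega

lemma idx_last (hN : 1 ≤ N) (i : ι) {b : ℤ} (h1 : -(N : ℤ) ≤ b) (h2 : b ≤ N + T.m i)
    (h : T.idx i b = T.a i + 2 * N + T.m i) : b = N ∨ b = -(N : ℤ) := by
  unfold Strip.idx at h
  split_ifs at h <;> omega

end idx

section lab

variable {W : RW X₀ β} {ln : σ → ℕ} {N : ℕ} {T : Strip W (CI ln) N} {Lm : ℕ}

/-- the columns of one row are disjoint -/
lemma strip_col_uniq {i j : CI ln} {k : ℕ} (hR : T.R i = T.R j) (hi : T.a i ≤ k)
    (hi' : k ≤ T.a i + 2 * N + T.m i) (hj : T.a j ≤ k) (hj' : k ≤ T.a j + 2 * N + T.m j) :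
    i = j := by
  by_contra hne
  rcases T.dis i j hne hR with h | h <;> omega

lemma lab_inr_pos {r : β} {k : ℕ} (hex : ∃ q : CI ln × ℤ, T.R q.1 = r ∧ -(N : ℤ) ≤ q.2 ∧
    q.2 ≤ N + T.m q.1 ∧ T.idx q.1 q.2 = k) : ∃ q : CI ln × ℤ, (T.R q.1 = r ∧ -(N : ℤ) ≤ q.2 ∧
    q.2 ≤ N + T.m q.1 ∧ T.idx q.1 q.2 = k) ∧ lab T Lm (Sum.inr (r, k)) = cv q.1 q.2 := by
  refine ⟨hex.choose, hex.choose_spec, ?_⟩
  simp only [lab]
  rw [dif_pos hex]
  rfl

/-- a node of a column -/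
lemma lab_in {i : CI ln} {k : ℕ} (hi : T.a i ≤ k) (hi' : k ≤ T.a i + 2 * N + T.m i) :
    ∃ b : ℤ, -(N : ℤ) ≤ b ∧ b ≤ N + T.m i ∧ T.idx i b = k ∧
      lab T Lm (W.nd (T.R i) k) = cv i b := by
  have hpos := T.pos i
  have hlt := T.lt i
  rw [W.nd_mid (by omega) (by omega)]
  obtain ⟨b₀, h1, h2, h3⟩ := idx_surj (T := T) i hi hi'
  obtain ⟨⟨j, b⟩, ⟨g1, g2, g3, g4⟩, g5⟩ := lab_inr_pos (T := T) (Lm := Lm) (r := T.R i) (k := k)
    ⟨(i, b₀), rfl, h1, h2, h3⟩
  dsimp only at g1 g2 g3 g4 g5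
  have h5 := idx_mem (T := T) j g2 g3
  rw [g4] at h5
  have h6 : j = i := strip_col_uniq g1 h5.1 h5.2 hi hi'
  subst h6
  exact ⟨b, g2, g3, g4, g5⟩

/-- other nodes -/
lemma lab_not {r : β} {k : ℕ} (h0 : 0 < k) (hk : k < W.len r)
    (h : ∀ i, T.R i = r → k < T.a i ∨ T.a i + 2 * N + T.m i < k) :
    lab T Lm (W.nd r k) = Sum.inl (Sum.inr (r, Fin.ofNat (Lm + 1) k)) := by
  rw [W.nd_mid h0 hk]
  simp only [lab]
  rw [dif_neg]
  rintro ⟨q, g1, g2, g3, g4⟩
  have h5 := idx_mem (T := T) q.1 g2 g3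
  rw [g4] at h5
  rcases h q.1 g1 with h6 | h6 <;> omega

/-- the class of a node: outside, or a column -/
lemma lab_cases {r : β} {k : ℕ} (hk : k ≤ W.len r) (hl : 1 ≤ W.len r) :
    (∃ i, T.R i = r ∧ T.a i ≤ k ∧ k ≤ T.a i + 2 * N + T.m i) ∨
      ((∀ i, T.R i = r → k < T.a i ∨ T.a i + 2 * N + T.m i < k) ∧
        ∃ v, lab T Lm (W.nd r k) = Sum.inl v) := by
  by_cases hc : ∃ i, T.R i = r ∧ T.a i ≤ k ∧ k ≤ T.a i + 2 * N + T.m i
  · exact Or.inl hc
  · right
    push Not at hc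
    have h1 : ∀ i, T.R i = r → k < T.a i ∨ T.a i + 2 * N + T.m i < k := by
      intro i hi
      by_contra hcon
      rw [not_or, not_lt, not_lt] at hcon
      exact absurd (hc i hi hcon.1) (by omega)
    refine ⟨h1, ?_⟩
    rcases Nat.eq_zero_or_pos k with rfl | h0
    · rw [W.nd_zero]
      exact ⟨_, rfl⟩
    · rcases hk.lt_or_eq with h2 | rfl
      · exact ⟨_, lab_not h0 h2 h1⟩
      · rw [W.nd_len hl]
        exact ⟨_, rfl⟩

/-- columns are contracted -/
def cl0 {V : Type*} : HV V σ → HV V σ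
  | Sum.inl v => Sum.inl v
  | Sum.inr (s, c, _) => Sum.inr (s, c, 0)

/-- step between an outside node and a column -/
lemma lab_port (hN : 1 ≤ N) {r : β} {k : ℕ} (hk : k < W.len r) (hl : 1 ≤ W.len r) {v : OV X₀ β Lm}
    {i : CI ln} (hi : T.R i = r) :
    (lab T Lm (W.nd r k) = Sum.inl v → T.a i ≤ k + 1 → k + 1 ≤ T.a i + 2 * N + T.m i →
      lab T Lm (W.nd r (k + 1)) = cv i N ∨ lab T Lm (W.nd r (k + 1)) = cv i (-(N : ℤ))) ∧
    (lab T Lm (W.nd r (k + 1)) = Sum.inl v → T.a i ≤ k → k ≤ T.a i + 2 * N + T.m i →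
      lab T Lm (W.nd r k) = cv i N ∨ lab T Lm (W.nd r k) = cv i (-(N : ℤ))) := by
  subst hi
  constructor
  · intro h1 h2 h3
    obtain ⟨b, g1, g2, g3, g4⟩ := lab_in (Lm := Lm) h2 h3
    have h4 : ¬ (T.a i ≤ k) := by
      intro h5
      obtain ⟨b', _, _, _, g5⟩ := lab_in (Lm := Lm) h5 (by omega : k ≤ T.a i + 2 * N + T.m i)
      rw [h1] at g5
      exact absurd g5 (by simp [cv])
    have h5 : k + 1 = T.a i := by omega
    rw [h5] at g3
    rw [g4]
    rcases idx_first hN i g1 g2 g3 with rfl | rfl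
    · exact Or.inl rfl
    · exact Or.inr rfl
  · intro h1 h2 h3
    obtain ⟨b, g1, g2, g3, g4⟩ := lab_in (Lm := Lm) h2 h3
    have h4 : ¬ (k + 1 ≤ T.a i + 2 * N + T.m i) := by
      intro h5
      obtain ⟨b', _, _, _, g5⟩ := lab_in (Lm := Lm) (by omega : T.a i ≤ k + 1) h5
      rw [h1] at g5
      exact absurd g5 (by simp [cv])
    have h5 : k = T.a i + 2 * N + T.m i := by omega
    rw [h5] at g3
    rw [g4]
    rcases idx_last hN i g1 g2 g3 with rfl | rfl
    · exact Or.inl rfl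
    · exact Or.inr rfl

end lab

section pre

variable {M : Matroid α} {el : β → ℕ → α} {ln : σ → ℕ} {N : ℕ} {Lm : ℕ} {Sf : Set α} {Q : Set α}
  {BQ : Set β} {u : ℕ} {Ed : CI ln → CI ln → Prop} {Rg : Set α}

/-- the rows outside of `Lost` in the host of depth `0` -/
lemma SG.rowsH {W : RW X₀ β} {T : Strip W (CI ln) N} {eL : α → Sym2 (HV (OV X₀ β Lm) σ)}
    (h : SG M W el T Lm Sf eL Q BQ u Ed Rg) {Lost : Set β} {len : σ → ℕ}
    (hlen : ∀ s, len s = ln s ∨ len s = 0)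
    (hcov : ∀ r ∉ Lost, ∀ i, T.R i = r → len i.1.1 ≠ 0) :
    RowsH (hostL (Sh W el T Lost Rg eL) eL N len) 0 W (fun x => (Sum.inl x : OV X₀ β Lm))
      (fun r k => cl0 (lab T Lm (W.nd r k))) Lost := by
  have hlt : ∀ r, r ∉ Lost → ∀ i, T.R i = r → i.1.2 < len i.1.1 := by
    intro r hr i hi
    rcases hlen i.1.1 with h1 | h1
    · rw [h1]
      exact i.2
    · exact absurd h1 (hcov r hr i hi)
  have hmid : ∀ (i : CI ln) (b : ℤ), (b = N ∨ b = -(N : ℤ)) → ∀ j : CI ln,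
      (cv i b : HV (OV X₀ β Lm) σ) ∉ MidS N j.1.1 j.1.2 (T.m j) := by
    rintro i b hb j ⟨b', hb', h2⟩
    have h3 : b = b' := by
      simp only [cv, Sum.inr.injEq, Prod.mk.injEq] at hb'
      exact hb'.2.2
    have := h.N1
    omega
  have hinl : ∀ (v : OV X₀ β Lm) (j : CI ln),
      (Sum.inl v : HV (OV X₀ β Lm) σ) ∉ MidS N j.1.1 j.1.2 (T.m j) := by
    rintro v j ⟨b', hb', _⟩
    exact absurd hb' (by simp)
  refine ⟨fun r _ => (h.len r).1, ?_, ?_, ?_, ?_, Sum.inl_injective, ?_, ?_⟩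
  · intro r _
    rw [W.nd_zero]
    rfl
  · intro r _
    rw [W.nd_len (h.len r).1]
    rfl
  · intro r hr k hk
    have hl := (h.len r).1
    obtain ⟨hrow1, hrow2⟩ := h.row r k hk
    -- the element is cheap if its ends are not in the middle windows
    have hcheap : (∀ v ∈ eL (el r k), ∀ i : CI ln, v ∉ MidS N i.1.1 i.1.2 (T.m i)) →
        el r k ∈ Sh W el T Lost Rg eL := fun h1 =>
      ⟨Or.inl (Or.inl ⟨r, k, hk, hr, rfl⟩), h1⟩
    have hport : ∀ (v : OV X₀ β Lm) (i : CI ln), T.R i = r → ∀ b : ℤ, (b = N ∨ b = -(N : ℤ)) →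
        eL (el r k) = s(Sum.inl v, cv i b) →
        (hostL (Sh W el T Lost Rg eL) eL N len).Adj 0 (Sum.inl v) (Sum.inr (i.1.1, i.1.2, 0)) := by
      intro v i hi b hb he
      have h1 : GAdj (Sh W el T Lost Rg eL) eL (Sum.inl v) (cv i b) := by
        refine ⟨el r k, hcheap ?_, he⟩
        intro w hw j
        rw [he, Sym2.mem_iff] at hw
        rcases hw with rfl | rfl
        · exact hinl v j
        · exact hmid i b hb j
      left
      refine ⟨hlt r hr i hi, ?_⟩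
      rcases hb with rfl | rfl
      · exact Or.inr ⟨rfl, h1⟩
      · exact Or.inl ⟨by simp, h1⟩
    rcases lab_cases (T := T) (Lm := Lm) hk.le hl with ⟨i, hi, a1, a2⟩ | ⟨a1, v, a2⟩
    · rcases lab_cases (T := T) (Lm := Lm) (k := k + 1) hk hl with ⟨j, hj, b1, b2⟩ | ⟨b1, w, b2⟩
      · -- the same column
        have hij : i = j := by
          by_contra hne
          rcases h.strong i j hne (hi.trans hj.symm) with h1 | h1 <;> omega
        subst hij
        subst hi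
        obtain ⟨b, _, _, _, g1⟩ := lab_in (Lm := Lm) a1 a2
        obtain ⟨b', _, _, _, g2⟩ := lab_in (Lm := Lm) b1 b2
        left
        rw [g1, g2]
        rfl
      · right
        have h1 : ∃ b : ℤ, (b = N ∨ b = -(N : ℤ)) ∧ lab T Lm (W.nd r k) = cv i b := by
          rcases (lab_port h.N1 hk hl hi).2 b2 a1 a2 with g | g
          · exact ⟨_, Or.inl rfl, g⟩
          · exact ⟨_, Or.inr rfl, g⟩
        obtain ⟨b, hb, h1⟩ := h1
        have h2 := hport w i hi b hb (by rw [hrow2, h1, b2, Sym2.eq_swap])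
        rw [h1, b2]
        exact h2.symm
    · rcases lab_cases (T := T) (Lm := Lm) (k := k + 1) hk hl with ⟨j, hj, b1, b2⟩ | ⟨b1, w, b2⟩
      · right
        have h1 : ∃ b : ℤ, (b = N ∨ b = -(N : ℤ)) ∧ lab T Lm (W.nd r (k + 1)) = cv j b := by
          rcases (lab_port h.N1 hk hl hj).1 a2 b1 b2 with g | g
          · exact ⟨_, Or.inl rfl, g⟩
          · exact ⟨_, Or.inr rfl, g⟩
        obtain ⟨b, hb, h1⟩ := h1
        have h2 := hport v j hj b hb (by rw [hrow2, h1, a2])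
        rw [h1, a2]
        exact h2
      · right
        rw [a2, b2]
        left
        refine ⟨el r k, hcheap ?_, by rw [hrow2, a2, b2]⟩
        intro x hx j
        rw [hrow2, a2, b2, Sym2.mem_iff] at hx
        rcases hx with rfl | rfl
        · exact hinl v j
        · exact hinl w j
  · intro r hr k hk s c b hs
    rcases lab_cases (T := T) (Lm := Lm) hk (h.len r).1 with ⟨i, hi, a1, a2⟩ | ⟨a1, v, a2⟩
    · subst hi
      obtain ⟨b', _, _, _, g1⟩ := lab_in (Lm := Lm) a1 a2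
      rw [g1] at hs
      simp only [cv, cl0, Sum.inr.injEq, Prod.mk.injEq] at hs
      obtain ⟨rfl, rfl, rfl⟩ := hs
      exact ⟨hlt _ hr i rfl, by simp, le_rfl⟩
    · rw [a2] at hs
      exact absurd hs (by simp [cl0])
  · intro r hr k h0 hk x hx
    rcases lab_cases (T := T) (Lm := Lm) hk.le (h.len r).1 with ⟨i, hi, a1, a2⟩ | ⟨a1, v, a2⟩
    · subst hi
      obtain ⟨b', _, _, _, g1⟩ := lab_in (Lm := Lm) a1 a2
      rw [g1] at hx
      exact absurd hx (by simp [cv, cl0])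
    · rw [lab_not h0 hk a1] at hx
      exact absurd hx (by simp [cl0])
  · intro r hr r' hr' k k' h0 hk h0' hk' he
    rcases lab_cases (T := T) (Lm := Lm) hk.le (h.len r).1 with ⟨i, hi, a1, a2⟩ | ⟨a1, v, a2⟩
    · subst hi
      obtain ⟨b, _, _, _, g1⟩ := lab_in (Lm := Lm) a1 a2
      rw [g1] at he
      rcases lab_cases (T := T) (Lm := Lm) hk'.le (h.len r').1 with ⟨j, hj, b1, b2⟩ | ⟨b1, w, b2⟩
      · subst hj
        obtain ⟨b', _, _, _, g2⟩ := lab_in (Lm := Lm) b1 b2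
        rw [g2] at he
        simp only [cv, cl0, Sum.inr.injEq, Prod.mk.injEq] at he
        have hij : i = j := Subtype.ext (Prod.ext he.1 he.2.1)
        rw [hij]
      · rw [b2] at he
        exact absurd he (by simp [cv, cl0])
    · rw [lab_not h0 hk a1] at he
      rcases lab_cases (T := T) (Lm := Lm) hk'.le (h.len r').1 with ⟨j, hj, b1, b2⟩ | ⟨b1, w, b2⟩
      · subst hj
        obtain ⟨b', _, _, _, g2⟩ := lab_in (Lm := Lm) b1 b2
        rw [g2] at he
        exact absurd he (by simp [cv, cl0])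
      · rw [lab_not h0' hk' b1] at he
        simp only [cl0, Sum.inl.injEq, Sum.inr.injEq, Prod.mk.injEq] at he
        exact he.1

/-- **Row PR**: the wall model at depth `0`. -/
theorem SG.pre {L h₁ : ℕ} (hL2 : 2 ≤ L) {W : RW (EN.Wall.WV (L * h₁)) β} {T : Strip W (CI ln) N}
    {eL : α → Sym2 (HV (OV (EN.Wall.WV (L * h₁)) β Lm) σ)} [Finite β]
    (h : SG M W el T Lm Sf eL Q BQ u Ed Rg) {Lost : Set β} {len : σ → ℕ}
    (hlen : ∀ s, len s = ln s ∨ len s = 0) (hcov : ∀ r ∉ Lost, ∀ i, T.R i = r → len i.1.1 ≠ 0)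
    (hedge : ∀ a b, (EN.Wall.Wl (L * h₁)).Adj a b → ∃ r, (W.hd r = a ∧ W.tl r = b) ∨
      (W.hd r = b ∧ W.tl r = a))
    {Z : Finset (EN.Wall.WV h₁)} (hZ : ∀ r ∈ Lost, EN.Wall.blk L h₁ (W.hd r) ∈ Z) :
    ∃ f₀ : HV (OV (EN.Wall.WV (L * h₁)) β Lm) σ → Option (EN.Wall.WV (L * h₁)),
      (∀ x, f₀ (Sum.inl (Sum.inl x)) = some x) ∧
      (∀ r k, 0 < k → k < W.len r → r ∉ Lost → ∀ v, lab T Lm (W.nd r k) = Sum.inl v →
        f₀ (Sum.inl v) = some (W.hd r)) ∧
      (∀ i, T.R i ∉ Lost → f₀ (cv i 0) = some (W.hd (T.R i))) ∧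
      Pre (GZ Z) (hostL (Sh W el T Lost Rg eL) eL N len) 0
        (fun v => (f₀ v).bind (bZ L h₁ Z)) := by
  have hR := h.rowsH hlen hcov
  have hid : Function.Injective (id : EN.Wall.WV (L * h₁) → EN.Wall.WV (L * h₁)) :=
    Function.injective_id
  refine ⟨fin0 W (fun x => Sum.inl x) (fun r k => cl0 (lab T Lm (W.nd r k))) Lost id, ?_, ?_, ?_,
    ?_⟩
  · intro x
    exact (fin0_eq hR hid).2 (Or.inl rfl)
  · intro r k h0 hk hr v hv
    refine (fin0_eq hR hid).2 (Or.inr ⟨r, hr, rfl, k, hk, ?_⟩)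
    dsimp only
    rw [hv]
    rfl
  · intro i hi
    have h1 := idx_mem (T := T) i (b := 0) (by omega) (by omega)
    have h2 := T.lt i
    refine (fin0_eq hR hid).2 (Or.inr ⟨T.R i, hi, rfl, T.idx i 0, by omega, ?_⟩)
    dsimp only
    obtain ⟨b, _, _, _, g1⟩ := lab_in (Lm := Lm) h1.1 h1.2
    rw [g1]
    rfl
  · refine pre_fin0 hL2 hR hid hedge ?_
    intro r hr a ha
    have h1 := hZ r hr
    rwa [ha] at h1

end pre

end TST
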