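import Pool.Agent.TST.SGDefs
import Pool.Agent.TST.AlphaR
import Pool.Agent.TST.PreSG

/-!
# Row AL of the host of T-star: alpha of the host (helper8)
-/

open Set Relation
open scoped Matroid

namespace TST

open BIC Gad EN BICS Mdl

universe u

variable {α : Type u} {X₀ β σ : Type}

section host

variable {M : Matroid α} {W : RW X₀ β} {el : β → ℕ → α} {ln : σ → ℕ} {N : ℕ}
  {T : Strip W (CI ln) N} {Lm : ℕ} {Sf : Set α} {eL : α → Sym2 (HV (OV X₀ β Lm) σ)} {Q : Set α}
  {BQ : Set β} {u : ℕ} {Ed : CI ln → CI ln → Prop} {Rg : Set α}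

lemma sga_idx_inj (i : CI ln) {b b' : ℤ} (h1 : -(N : ℤ) ≤ b) (h2 : b ≤ N + T.m i)
    (h1' : -(N : ℤ) ≤ b') (h2' : b' ≤ N + T.m i) (h : T.idx i b = T.idx i b') : b = b' := by
  unfold Strip.idx at h
  split_ifs at h <;> omega

lemma sga_col (i : CI ln) (b : ℤ) (h1 : -(N : ℤ) ≤ b) (h2 : b ≤ N + T.m i) :
    lab T Lm (W.nd (T.R i) (T.idx i b)) = cv i b := by
  obtain ⟨g1, g2⟩ := idx_mem (T := T) i h1 h2
  obtain ⟨b', g3, g4, g5, g6⟩ := lab_in (T := T) (Lm := Lm) g1 g2
  rw [sga_idx_inj i g3 g4 h1 h2 g5] at g6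
  exact g6

lemma sga_step (i : CI ln) (b : ℤ) (h : (-(N : ℤ) ≤ b ∧ b < -1) ∨ (1 ≤ b ∧ b < N)) :
    ∃ k, T.a i ≤ k ∧ k < T.a i + 2 * N + T.m i ∧
      s(lab T Lm (W.nd (T.R i) k), lab T Lm (W.nd (T.R i) (k + 1))) = s(cv i b, cv i (b + 1)) := by
  have c1 := sga_col (T := T) (Lm := Lm) i b (by omega) (by omega)
  have c2 := sga_col (T := T) (Lm := Lm) i (b + 1) (by omega) (by omega)
  by_cases hu : T.up i
  · have h1 : T.idx i (b + 1) = T.idx i b + 1 := by
      unfold Strip.idx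
      rw [if_pos hu, if_pos hu]
      split_ifs <;> omega
    have h2 := idx_mem (T := T) i (b := b) (by omega) (by omega)
    have h3 := idx_mem (T := T) i (b := b + 1) (by omega) (by omega)
    refine ⟨T.idx i b, h2.1, by omega, ?_⟩
    rw [← h1, c1, c2]
  · have h1 : T.idx i b = T.idx i (b + 1) + 1 := by
      unfold Strip.idx
      rw [if_neg hu, if_neg hu]
      split_ifs <;> omega
    have h2 := idx_mem (T := T) i (b := b) (by omega) (by omega)
    have h3 := idx_mem (T := T) i (b := b + 1) (by omega) (by omega)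
    refine ⟨T.idx i (b + 1), h3.1, by omega, ?_⟩
    rw [← h1, c1, c2, Sym2.eq_swap]

/-- an inner node with an outside label -/
lemma sga_lab_inl {r : β} {k : ℕ} {v : OV X₀ β Lm}
    (h : lab T Lm (Sum.inr (r, k)) = Sum.inl v) :
    v = Sum.inr (r, Fin.ofNat (Lm + 1) k) ∧
      ∀ i, T.R i = r → k < T.a i ∨ T.a i + 2 * N + T.m i < k := by
  simp only [lab] at h
  by_cases hq : ∃ q : CI ln × ℤ, T.R q.1 = r ∧ -(N : ℤ) ≤ q.2 ∧ q.2 ≤ N + T.m q.1 ∧
      T.idx q.1 q.2 = k
  · rw [dif_pos hq] at h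
    exact absurd h (by simp)
  · rw [dif_neg hq] at h
    refine ⟨(Sum.inl_injective h).symm, fun i hi => ?_⟩
    by_contra hcon
    push Not at hcon
    obtain ⟨b, h1, h2, h3⟩ := idx_surj (T := T) i hcon.1 hcon.2
    exact hq ⟨(i, b), hi, h1, h2, h3⟩

lemma sga_nd (i : CI ln) {k : ℕ} (h1 : T.a i ≤ k) (h2 : k ≤ T.a i + 2 * N + T.m i) :
    W.nd (T.R i) k = Sum.inr (T.R i, k) :=
  W.nd_mid (by have := T.pos i; omega) (by have := T.lt i; omega)

lemma sga_not_inl (i : CI ln) {k : ℕ} (h1 : T.a i ≤ k) (h2 : k ≤ T.a i + 2 * N + T.m i)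
    {v : OV X₀ β Lm} : lab T Lm (W.nd (T.R i) k) ≠ Sum.inl v := by
  intro h
  rw [sga_nd i h1 h2] at h
  have := (sga_lab_inl h).2 i rfl
  omega

lemma sga_mid {i j : CI ln} {b : ℤ} (h0 : b ≠ 0) (hb : b ≤ N) :
    (cv i b : HV (OV X₀ β Lm) σ) ∉ MidS N j.1.1 j.1.2 (T.m j) := by
  rintro ⟨b', h1, h2⟩
  simp only [cv, Sum.inr.injEq, Prod.mk.injEq] at h1
  omega

lemma SG.emb_al (h : SG M W el T Lm Sf eL Q BQ u Ed Rg) {Lost : Set β} {len : σ → ℕ}
    (hlen : ∀ s, len s = ln s ∨ len s = 0)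
    (hEd : ∀ i j : CI ln, i.1.1 = j.1.1 → j.1.2 = i.1.2 + 1 → len i.1.1 ≠ 0 → Ed i j) :
    Emb (Sh W el T Lost Rg eL) eL (hostL (Sh W el T Lost Rg eL) eL N len) N id := by
  have key : ∀ x y, NZ (hostL (Sh W el T Lost Rg eL) eL N len) N x →
      NZ (hostL (Sh W el T Lost Rg eL) eL N len) N y →
      (hostL (Sh W el T Lost Rg eL) eL N len).E N x y → GAdj (Sh W el T Lost Rg eL) eL x y := by
    rintro (v | ⟨s, c, b⟩) (w | ⟨s', c', b'⟩) hx hy hE
    · exact hE
    · obtain ⟨_, ⟨rfl, h2⟩ | ⟨rfl, h2⟩⟩ := hE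
      · exact h2
      · exact h2
    · exact hE.elim
    · obtain ⟨rfl, h1, h2, h3, h4⟩ := hE
      obtain ⟨g1, g2, g3, g4⟩ := hx
      obtain ⟨g1', g2', g3', g4'⟩ := hy
      have hl : ∀ c, c < len s → c < ln s := by
        intro c hc
        rcases hlen s with h | h <;> omega
      have hc1 : c < len s := g1
      have hc2 : c' < len s := g1'
      rcases h4 with ⟨rfl, rfl⟩ | ⟨rfl, rfl, _⟩
      · set i : CI ln := ⟨(s, c), hl c hc1⟩ with hi
        obtain ⟨k, k1, k2, k3⟩ := sga_step (T := T) (Lm := Lm) i b (by omega)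
        have hk := T.lt i
        refine ⟨el (T.R i) k, ⟨Or.inl (Or.inr ⟨i, k, k1, k2, rfl⟩), ?_⟩, ?_⟩
        · intro v hv j
          rw [(h.row _ k (by omega)).2, k3, Sym2.mem_iff] at hv
          rcases hv with rfl | rfl
          · exact sga_mid (T := T) g4 g3
          · exact sga_mid (T := T) g4' g3'
        · rw [(h.row _ k (by omega)).2, k3]
          rfl
      · set i : CI ln := ⟨(s, c), hl c hc1⟩ with hi
        set j : CI ln := ⟨(s, c + 1), hl (c + 1) hc2⟩ with hj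
        obtain ⟨e, he, hee⟩ := h.rg_ex i j (hEd i j rfl rfl (by
          show len s ≠ 0
          omega)) _ g2 g3 g4
        refine ⟨e, ⟨Or.inr he, ?_⟩, ?_⟩
        · intro v hv j'
          rw [hee, Sym2.mem_iff] at hv
          rcases hv with rfl | rfl
          · exact sga_mid (T := T) g4 g3
          · exact sga_mid (T := T) g4 g3
        · rw [hee]
          rfl
  refine ⟨fun x y _ _ hxy => hxy, fun x y hx hy hA => ?_⟩
  rcases hA with hA | hA
  · exact key x y hx hy hA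
  · exact (key y x hy hx hA).symm

/-- first node of a column -/
lemma sga_first (i : CI ln) :
    (T.up i ∧ lab T Lm (W.nd (T.R i) (T.a i)) = cv i (-1 * N)) ∨
      (¬ T.up i ∧ lab T Lm (W.nd (T.R i) (T.a i)) = cv i (1 * N)) := by
  by_cases hu : T.up i
  · have h1 : T.idx i (-1 * N) = T.a i := by
      unfold Strip.idx
      rw [if_pos hu, if_pos (by omega)]
      omega
    have h2 := sga_col (T := T) (Lm := Lm) i (-1 * N) (by omega) (by omega)
    rw [h1] at h2
    exact Or.inl ⟨hu, h2⟩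
  · have h1 : T.idx i (1 * N) = T.a i := by
      unfold Strip.idx
      rw [if_neg hu, if_neg (by omega), if_pos (by omega)]
      omega
    have h2 := sga_col (T := T) (Lm := Lm) i (1 * N) (by omega) (by omega)
    rw [h1] at h2
    exact Or.inr ⟨hu, h2⟩

/-- last node of a column -/
lemma sga_last (hN : 1 ≤ N) (i : CI ln) :
    (T.up i ∧ lab T Lm (W.nd (T.R i) (T.a i + 2 * N + T.m i)) = cv i (1 * N)) ∨
      (¬ T.up i ∧ lab T Lm (W.nd (T.R i) (T.a i + 2 * N + T.m i)) = cv i (-1 * N)) := by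
  by_cases hu : T.up i
  · have h1 : T.idx i (1 * N) = T.a i + 2 * N + T.m i := by
      unfold Strip.idx
      rw [if_pos hu, if_neg (by omega), if_pos (by omega)]
      omega
    have h2 := sga_col (T := T) (Lm := Lm) i (1 * N) (by omega) (by omega)
    rw [h1] at h2
    exact Or.inl ⟨hu, h2⟩
  · have h1 : T.idx i (-1 * N) = T.a i + 2 * N + T.m i := by
      unfold Strip.idx
      rw [if_neg hu, if_pos (by omega)]
      omega
    have h2 := sga_col (T := T) (Lm := Lm) i (-1 * N) (by omega) (by omega)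
    rw [h1] at h2
    exact Or.inr ⟨hu, h2⟩

/-- Row AL: alpha of the host. -/
theorem SG.alpha [M.Finite] [Finite β] [Finite X₀] (h : SG M W el T Lm Sf eL Q BQ u Ed Rg)
    (hF : FrmU M Sf eL u)
    {Lost : Set β} (hL : ∀ r ∉ Lost, W.nd r 0 ∉ rowV W BQ ∧ W.nd r (W.len r) ∉ rowV W BQ)
    {len : σ → ℕ} (hlen : ∀ s, len s = ln s ∨ len s = 0)
    (hEd : ∀ i j : CI ln, i.1.1 = j.1.1 → j.1.2 = i.1.2 + 1 → len i.1.1 ≠ 0 → Ed i j)
    (hcov : ∀ r ∉ Lost, ∀ i, T.R i = r → len i.1.1 ≠ 0)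
    (hport : ∀ r ∉ Lost, ∀ k, 0 < k → k < W.len r →
      (∀ i, T.R i = r → k < T.a i ∨ T.a i + 2 * N + T.m i < k) →
      (∃ i, T.R i = r ∧ k + 1 = T.a i) ∧ ∃ i, T.R i = r ∧ k = T.a i + 2 * N + T.m i + 1)
    {E₂ : Set α} {k₁ c e₀ : ℕ} (hN : 2 * (k₁ + u + 1) ≤ N)
    (hX : ∀ X ⊆ M.E, Disjoint X E₂ → rk M X + rk M (M.E \ X) < rk M M.E + k₁ →
      ∃ Bd : Finset β, Bd.card ≤ c ∧ ∀ r ∉ Bd, ∀ k < W.len r, el r k ∉ X)
    (hwall : ∀ Bd : Finset β, Bd.card ≤ c → ∃ Y : Finset X₀, Y.Nonempty ∧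
      (∀ x ∈ Y, ∀ y ∈ Y, ReflTransGen (fun a b => a ∈ Y ∧ b ∈ Y ∧ ∃ r ∉ Bd,
        (W.hd r = a ∧ W.tl r = b) ∨ (W.hd r = b ∧ W.tl r = a)) x y) ∧
      {x | x ∉ Y}.ncard ≤ e₀)
    (hdeg : ∀ x, {r | W.hd r = x ∨ W.tl r = x}.ncard ≤ 3)
    (hcol : ∀ s, 0 < len s → ∃ Rs : Finset β, c + 3 * e₀ < Rs.card ∧ ∀ r ∈ Rs,
      ∃ i : CI ln, i.1.1 = s ∧ T.R i = r) :
    TSK.AlphaA M E₂ Sf eL (hostL (Sh W el T Lost Rg eL) eL N len) N k₁
      {v | ∃ e ∈ Sh W el T Lost Rg eL, Sum.inl v ∈ eL e} (e₀ + (k₁ + u)) := by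
  classical
  have hll : ∀ s c, c < len s → c < ln s := by
    intro s c hc
    rcases hlen s with h | h <;> omega
  have hShSf : Sh W el T Lost Rg eL ⊆ Sf := by
    rintro e ⟨(⟨r, k, hk, _, rfl⟩ | ⟨i, k, k1, k2, rfl⟩) | he, _⟩
    · exact (h.row r k hk).1
    · exact (h.row _ k (by have := T.lt i; omega)).1
    · exact (h.rg e he).1
  -- the wall vertices
  have hA0 := alphaA_of_rows W (fun r => (h.len r).1) M E₂ Sf eL
    (hostL (Sh W el T Lost Rg eL) eL N len) (N : ℤ) k₁ c e₀ (lab T Lm) el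
    (fun r k hk => Or.inr (h.row r k hk)) hX hwall hdeg (by
      intro s hs
      obtain ⟨Rs, h1, h2⟩ := hcol s hs
      refine ⟨Rs, h1, fun r hr => ?_⟩
      obtain ⟨i, rfl, rfl⟩ := h2 r hr
      have hi : i.1.2 < len i.1.1 := by
        have h3 := i.2
        have h4 : 0 < len i.1.1 := hs
        rcases hlen i.1.1 with h5 | h5 <;> omega
      refine ⟨i.1.2, hi, fun b b1 b2 b3 => ⟨T.idx i b, ?_, ?_⟩⟩
      · have h3 := idx_mem (T := T) i (b := b) (by omega) (by omega)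
        have h4 := T.lt i
        omega
      · exact sga_col i b (by omega) (by omega))
  -- the nodes between two columns
  set A₁ : Set (OV X₀ β Lm) := {v | ∃ r k, r ∉ Lost ∧ 0 < k ∧ k < W.len r ∧
    lab T Lm (Sum.inr (r, k)) = Sum.inl v} with hA₁
  have hsub : {v | ∃ e ∈ Sh W el T Lost Rg eL, Sum.inl v ∈ eL e} ⊆
      {v | ∃ x : X₀, lab T Lm (Sum.inl x) = Sum.inl v} ∪ A₁ := by
    rintro v ⟨e, ⟨(⟨r, k, hk, hr, rfl⟩ | ⟨i, k, k1, k2, rfl⟩) | he, _⟩, hv⟩
    · have key : ∀ k', k' ≤ W.len r → Sum.inl v = lab T Lm (W.nd r k') →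
          v ∈ {v | ∃ x : X₀, lab T Lm (Sum.inl x) = Sum.inl v} ∪ A₁ := by
        intro k' hk' hvk
        rcases Nat.eq_zero_or_pos k' with rfl | h0
        · rw [W.nd_zero] at hvk
          exact Or.inl ⟨_, hvk.symm⟩
        · rcases hk'.lt_or_eq with h1 | rfl
          · rw [W.nd_mid h0 h1] at hvk
            exact Or.inr ⟨r, k', hr, h0, h1, hvk.symm⟩
          · rw [W.nd_len (h.len r).1] at hvk
            exact Or.inl ⟨_, hvk.symm⟩
      rw [(h.row r k hk).2, Sym2.mem_iff] at hv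
      rcases hv with hv | hv
      · exact key k hk.le hv
      · exact key (k + 1) hk hv
    · rw [(h.row _ k (by have := T.lt i; omega)).2, Sym2.mem_iff] at hv
      rcases hv with hv | hv
      · exact absurd hv.symm (sga_not_inl i (by omega) (by omega))
      · exact absurd hv.symm (sga_not_inl i (by omega) (by omega))
    · obtain ⟨_, i, j, b, _, _, _, _, hee⟩ := h.rg e he
      rw [hee, Sym2.mem_iff] at hv
      rcases hv with hv | hv <;> exact absurd hv (by simp [cv])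
  have hA0f : {v : OV X₀ β Lm | ∃ x : X₀, lab T Lm (Sum.inl x) = Sum.inl v}.Finite :=
    toFinite _
  have hA1f : A₁.Finite := toFinite _
  rcases A₁.eq_empty_or_nonempty with hemp | ⟨v₀, hv₀⟩
  · rw [hemp, union_empty] at hsub
    exact hA0.mono hA0f le_rfl hsub (by omega)
  have hport' : ∀ v ∈ A₁, ∃ j j' : CI ln, ∃ r k, v = Sum.inr (r, Fin.ofNat (Lm + 1) k) ∧
      r ∉ Lost ∧ 0 < k ∧ k < W.len r ∧ lab T Lm (W.nd r k) = Sum.inl v ∧ T.R j = r ∧
      k + 1 = T.a j ∧ T.R j' = r ∧ k = T.a j' + 2 * N + T.m j' + 1 := by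
    rintro v ⟨r, k, hr, h0, hk, hl⟩
    obtain ⟨h1, h2⟩ := sga_lab_inl hl
    obtain ⟨⟨j, hj, hj2⟩, j', hj', hj2'⟩ := hport r hr k h0 hk h2
    rw [← W.nd_mid h0 hk] at hl
    exact ⟨j, j', r, k, h1, hr, h0, hk, hl, hj, hj2, hj', hj2'⟩
  have : Nonempty (CI ln) := ⟨(hport' v₀ hv₀).choose⟩
  have : Nonempty β := ⟨(hport' v₀ hv₀).choose_spec.choose_spec.choose⟩
  choose! cf cl rr kk p1 p2 p3 p4 p5 p6 p7 p8 p9 using hport'
  set pt : OV X₀ β Lm → Bool → σ × ℕ × ℤ := fun v t =>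
    bif t then ((cl v).1.1, (cl v).1.2, if T.up (cl v) then 1 else -1)
    else ((cf v).1.1, (cf v).1.2, if T.up (cf v) then -1 else 1) with hpt
  have hgadj : ∀ r k, k < W.len r → GAdj Sf eL (lab T Lm (W.nd r k)) (lab T Lm (W.nd r (k + 1))) :=
    fun r k hk => ⟨el r k, (h.row r k hk).1, (h.row r k hk).2⟩
  have hI : TSK.INL Sf eL (hostL (Sh W el T Lost Rg eL) eL N len) (N : ℤ) A₁ pt := by
    constructor
    · intro v hv t
      cases t
      · show (cf v).1.2 < len (cf v).1.1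
        have h1 := hcov (rr v) (p2 v hv) (cf v) (p6 v hv)
        have h2 := (cf v).2
        rcases hlen (cf v).1.1 with h3 | h3 <;> omega
      · show (cl v).1.2 < len (cl v).1.1
        have h1 := hcov (rr v) (p2 v hv) (cl v) (p8 v hv)
        have h2 := (cl v).2
        rcases hlen (cl v).1.1 with h3 | h3 <;> omega
    · intro v hv t
      cases t
      · show (if T.up (cf v) then (-1 : ℤ) else 1) = 1 ∨ (if T.up (cf v) then (-1 : ℤ) else 1) = -1
        split_ifs <;> simp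
      · show (if T.up (cl v) then (1 : ℤ) else -1) = 1 ∨ (if T.up (cl v) then (1 : ℤ) else -1) = -1
        split_ifs <;> simp
    · intro v hv t
      cases t
      · have h1 := hgadj (rr v) (kk v) (p4 v hv)
        rw [p5 v hv] at h1
        have h2 : W.nd (rr v) (kk v + 1) = W.nd (T.R (cf v)) (T.a (cf v)) := by
          rw [p6 v hv, p7 v hv]
        show GAdj Sf eL (Sum.inl v) (Sum.inr ((cf v).1.1, (cf v).1.2,
          (if T.up (cf v) then (-1 : ℤ) else 1) * N))
        rcases sga_first (T := T) (Lm := Lm) (cf v) with ⟨hu, hl⟩ | ⟨hu, hl⟩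
        · rw [h2, hl] at h1
          rw [if_pos hu]
          exact h1
        · rw [h2, hl] at h1
          rw [if_neg hu]
          exact h1
      · have h0 := p9 v hv
        have h4 := p4 v hv
        have h1 := hgadj (rr v) (kk v - 1) (by omega)
        have h2 : W.nd (rr v) (kk v - 1 + 1) = W.nd (rr v) (kk v) := by
          rw [show kk v - 1 + 1 = kk v by omega]
        have h3 : W.nd (rr v) (kk v - 1) =
            W.nd (T.R (cl v)) (T.a (cl v) + 2 * N + T.m (cl v)) := by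
          rw [p8 v hv, show kk v - 1 = T.a (cl v) + 2 * N + T.m (cl v) by omega]
        rw [h2, p5 v hv, h3] at h1
        show GAdj Sf eL (Sum.inl v) (Sum.inr ((cl v).1.1, (cl v).1.2,
          (if T.up (cl v) then (1 : ℤ) else -1) * N))
        rcases sga_last (T := T) (Lm := Lm) h.N1 (cl v) with ⟨hu, hl⟩ | ⟨hu, hl⟩
        · rw [hl] at h1
          rw [if_pos hu]
          exact h1.symm
        · rw [hl] at h1
          rw [if_neg hu]
          exact h1.symm
    · intro v hv w hw t t' he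
      have he1 : (pt v t).1 = (pt w t').1 := by rw [he]
      have he2 : (pt v t).2.1 = (pt w t').2.1 := by rw [he]
      have he3 : (pt v t).2.2 = (pt w t').2.2 := by rw [he]
      cases t <;> cases t'
      · have h1 : (cf v).1.1 = (cf w).1.1 := he1
        have h2 : (cf v).1.2 = (cf w).1.2 := he2
        have h3 : cf v = cf w := Subtype.ext (Prod.ext h1 h2)
        have h4 : rr v = rr w := by rw [← p6 v hv, ← p6 w hw, h3]
        have h5 : kk v = kk w := by
          have a1 := p7 v hv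
          have a2 := p7 w hw
          rw [h3] at a1
          omega
        exact ⟨by rw [p1 v hv, p1 w hw, h4, h5], rfl⟩
      · exfalso
        have h1 : (cf v).1.1 = (cl w).1.1 := he1
        have h2 : (cf v).1.2 = (cl w).1.2 := he2
        have h3 : cf v = cl w := Subtype.ext (Prod.ext h1 h2)
        have h4 : (if T.up (cf v) then (-1 : ℤ) else 1) = if T.up (cl w) then 1 else -1 := he3
        rw [h3] at h4
        split_ifs at h4
      · exfalso
        have h1 : (cl v).1.1 = (cf w).1.1 := he1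
        have h2 : (cl v).1.2 = (cf w).1.2 := he2
        have h3 : cl v = cf w := Subtype.ext (Prod.ext h1 h2)
        have h4 : (if T.up (cl v) then (1 : ℤ) else -1) = if T.up (cf w) then -1 else 1 := he3
        rw [h3] at h4
        split_ifs at h4
      · have h1 : (cl v).1.1 = (cl w).1.1 := he1
        have h2 : (cl v).1.2 = (cl w).1.2 := he2
        have h3 : cl v = cl w := Subtype.ext (Prod.ext h1 h2)
        have h4 : rr v = rr w := by rw [← p8 v hv, ← p8 w hw, h3]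
        have h5 : kk v = kk w := by
          have a1 := p9 v hv
          have a2 := p9 w hw
          rw [h3] at a1
          omega
        exact ⟨by rw [p1 v hv, p1 w hw, h4, h5], rfl⟩
  have hJ := hA0.join hF hShSf (h.emb_al hlen hEd) hA0f hA1f hI (by
    have : (2 * (k₁ + u + 1) : ℕ) ≤ N := hN
    omega)
  exact hJ.mono (hA0f.union hA1f) le_rfl hsub le_rfl

end host

end TST
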