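import Pool.Agent.EN.Emb
import Pool.Agent.EN.MatchU

/-!
# Row HA of T-star: many unbalanced lines of a sheet give the pattern (A)

`pa_of_lines`: nested arcs, and a grounded connector in every step.  The levels `0 ≤ b ≤ N - 1` of
the base page of the sheet `s` are the windows `-N ≤ b ≤ -1`; the arcs and the cells are below the
level `m₀ = 3 Nn + 2`, the page of the system is above it.
-/

set_option autoImplicit false

open Set

namespace TST

universe u

open BIC Gad EN Mdl

variable {α V σ : Type*}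

/-- four vertices of a cell -/
def cellV (s : σ) (c : ℕ) (b : ℤ) : Set (HV V σ) :=
  {Sum.inr (s, c, b), Sum.inr (s, c + 1, b), Sum.inr (s, c, b + 1), Sum.inr (s, c + 1, b + 1)}

/-- The base page of a sheet. -/
def bpg (s : σ) (N : ℤ) (c : ℕ × ℕ) : HV V σ := Sum.inr (s, c.1, -N + c.2)

lemma bpg_page {S : Set α} {ends : α → Sym2 (HV V σ)} {H : Host V σ} {N : ℤ}
    (hE : Emb S ends H N id) (s : σ) (hs : 0 < H.len s) {n : ℕ} (hn : (n : ℤ) + 1 ≤ N) :
    Page S ends (bpg s N) 0 (H.len s - 1) n where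
  inj := by
    rintro ⟨a, b⟩ ⟨a', b'⟩ h1 h2 h3 h1' h2' h3' h
    simp only [bpg, Sum.inr.injEq, Prod.mk.injEq, true_and] at h
    exact Prod.ext h.1 (by simp only; omega)
  ver := by
    intro x b h1 h2 h3
    have h4 := hE.adj (Sum.inr (s, x, -N + (b : ℤ))) (Sum.inr (s, x, -N + (b : ℤ) + 1))
      ⟨by omega, by omega, by omega, by omega⟩ ⟨by omega, by omega, by omega, by omega⟩
      (Emb.adj_ver (by omega) (by omega) (by omega))
    have e1 : -N + ((b + 1 : ℕ) : ℤ) = -N + (b : ℤ) + 1 := by push_cast; ring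
    simp only [bpg, e1]
    exact h4
  hor := by
    intro x b h1 h2 h3 h4
    exact hE.adj (Sum.inr (s, x, -N + (b : ℤ))) (Sum.inr (s, x + 1, -N + (b : ℤ)))
      ⟨by omega, by omega, by omega, by omega⟩ ⟨by omega, by omega, by omega, by omega⟩
      (Emb.adj_hor (by omega) (by omega) (by omega) (by omega))

/-! ### The system -/

/-- owner of a port -/
def ownA (Nn p : ℕ) : ℕ := if p < 2 * Nn then p else 2 * (3 * Nn - 1 - p)

/-- ports `0, …, 2 Nn - 1`: feet and grounded connectors alternate; then the other feet -/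
def YA (Nn : ℕ) : EN.Sys ℕ where
  L := 3 * Nn
  R := 1
  sh := fun _ => 0
  own := ownA Nn
  ct := fun _ _ => False
  gr := fun k => ∃ i < Nn, k = 2 * i + 1

lemma ownA_lt {Nn p : ℕ} (h : p < 2 * Nn) : ownA Nn p = p := if_pos h

lemma ownA_ge {Nn p : ℕ} (h : 2 * Nn ≤ p) : ownA Nn p = 2 * (3 * Nn - 1 - p) :=
  if_neg (by omega)

lemma YA_ax (Nn : ℕ) : (YA Nn).Ax 3 where
  mono := fun _ _ _ _ => le_rfl
  lt := fun _ _ => Nat.zero_lt_one
  symm := fun _ _ h => h
  irr := fun _ h => h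
  a1 := by
    intro x hx _ h
    have h1 : x + 1 < 3 * Nn := hx
    have h2 : ownA Nn x = ownA Nn (x + 1) := h
    rcases Nat.lt_or_ge (x + 1) (2 * Nn) with h3 | h3
    · rw [ownA_lt h3, ownA_lt (by omega)] at h2
      omega
    · rcases Nat.lt_or_ge x (2 * Nn) with h4 | h4
      · rw [ownA_lt h4, ownA_ge h3] at h2
        omega
      · rw [ownA_ge h4, ownA_ge h3] at h2
        omega
  a2 := by
    intro x hx hg hy
    exfalso
    have h1 : x < 3 * Nn := hx
    have hg' : ¬ ∃ i < Nn, ownA Nn x = 2 * i + 1 := hg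
    have hy' : ∀ y < 3 * Nn, ownA Nn y = ownA Nn x → y = x := hy
    rcases Nat.lt_or_ge x (2 * Nn) with h3 | h3
    · rw [ownA_lt h3] at hg' hy'
      rcases Nat.even_or_odd' x with ⟨i, hi | hi⟩
      · have h4 := hy' (3 * Nn - 1 - i) (by omega) (by
          rw [ownA_ge (by omega)]
          omega)
        omega
      · exact hg' ⟨i, by omega, hi⟩
    · rw [ownA_ge h3] at hy'
      have h4 := hy' (2 * (3 * Nn - 1 - x)) (by omega) (ownA_lt (by omega))
      omega
  a3 := fun _ _ _ h => False.elim h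
  a4 := fun _ _ h => False.elim h
  a5 := by
    intro k A hA
    have h1 : A ⊆ {k, 3 * Nn - 1 - k / 2} := by
      intro x hx
      obtain ⟨h2, h3⟩ := hA x hx
      have h2' : x < 3 * Nn := h2
      have h3' : ownA Nn x = k := h3
      rw [Finset.mem_insert, Finset.mem_singleton]
      rcases Nat.lt_or_ge x (2 * Nn) with h4 | h4
      · rw [ownA_lt h4] at h3'
        exact Or.inl h3'
      · rw [ownA_ge h4] at h3'
        right
        omega
    have h2 := Finset.card_le_card h1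
    have h3 := Finset.card_le_two (a := k) (b := 3 * Nn - 1 - k / 2)
    omega
  a6 := by
    intro k A hA
    rcases A.eq_empty_or_nonempty with h | ⟨x, hx⟩
    · rw [h, Finset.card_empty]
      exact Nat.zero_le _
    · exact False.elim (hA x hx)

lemma YA_pa (Nn : ℕ) : (YA Nn).PA Nn (fun i => 2 * i) (fun i => 3 * Nn - 1 - i)
    (fun i => 2 * i + 1) := by
  have o1 : ∀ i < Nn, ownA Nn (2 * i) = 2 * i := fun i hi => ownA_lt (by omega)
  have o2 : ∀ i < Nn, ownA Nn (2 * i + 1) = 2 * i + 1 := fun i hi => ownA_lt (by omega)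
  have o3 : ∀ i < Nn, ownA Nn (3 * Nn - 1 - i) = 2 * i := fun i hi => by
    rw [ownA_ge (by omega)]
    omega
  refine ⟨?_, ?_, ?_, ?_, ?_, ⟨0, ?_⟩, ⟨0, ?_⟩, ?_⟩
  · intro i hi
    refine ⟨show 2 * i < 3 * Nn by omega, show 3 * Nn - 1 - i < 3 * Nn by omega, ?_, Or.inl ?_⟩
    · show 2 * i ≠ 3 * Nn - 1 - i
      omega
    · exact (o1 i hi).trans (o3 i hi).symm
  · intro i hi
    exact ⟨i, hi, o2 i hi⟩
  · intro i j hij hj x hx y hy
    simp only [List.mem_cons, List.not_mem_nil, or_false] at hx hy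
    omega
  · right
    intro i j hij hj
    simp only
    omega
  · left
    intro i hi j hj x hx y hy
    simp only [List.mem_cons, List.not_mem_nil, or_false] at hx hy
    omega
  · intro i hi x hx
    simp only [List.mem_cons, List.not_mem_nil, or_false] at hx
    exact ⟨show x < 3 * Nn by omega, rfl⟩
  · intro i hi x hx
    simp only [List.mem_cons, List.not_mem_nil, or_false] at hx
    exact ⟨show x < 3 * Nn by omega, rfl⟩
  · intro i hi j hj hij x hx y hy h
    have h' : ownA Nn x = ownA Nn y := h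
    simp only [List.mem_cons, List.not_mem_nil, or_false] at hx hy
    rcases hx with rfl | rfl | rfl <;> rcases hy with rfl | rfl | rfl
    all_goals
      simp only [o1 i hi, o1 j hj, o2 i hi, o2 j hj, o3 i hi, o3 j hj] at h'
      omega

/-! ### The cells of the connectors -/

/-- arc `i`: down the column `a`, along the level `b`, up the column `c` -/
def arcA (a c b m : ℕ) : Set (ℕ × ℕ) := Vert a b m ∪ (HRow a c b ∪ Vert c b m)

/-- a cell at the levels `b, b + 1`, with its first column up to the level `m` -/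
def celA (g b m : ℕ) : Set (ℕ × ℕ) := Vert g b m ∪ (HRow g (g + 1) b ∪ HRow g (g + 1) (b + 1))

lemma mem_arcA {a c b m : ℕ} {p : ℕ × ℕ} : p ∈ arcA a c b m ↔ (p.1 = a ∧ b ≤ p.2 ∧ p.2 ≤ m) ∨
    (p.2 = b ∧ a ≤ p.1 ∧ p.1 ≤ c) ∨ (p.1 = c ∧ b ≤ p.2 ∧ p.2 ≤ m) := by
  unfold arcA
  rw [mem_union, mem_union, mem_Vert, mem_HRow, mem_Vert]

lemma mem_celA {g b m : ℕ} {p : ℕ × ℕ} : p ∈ celA g b m ↔ (p.1 = g ∧ b ≤ p.2 ∧ p.2 ≤ m) ∨
    (p.2 = b ∧ g ≤ p.1 ∧ p.1 ≤ g + 1) ∨ (p.2 = b + 1 ∧ g ≤ p.1 ∧ p.1 ≤ g + 1) := by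
  unfold celA
  rw [mem_union, mem_union, mem_Vert, mem_HRow, mem_HRow]

lemma arcA_fin (a c b m : ℕ) : (arcA a c b m).Finite :=
  (vert_finite _ _ _).union ((hrow_finite _ _ _).union (vert_finite _ _ _))

lemma celA_fin (g b m : ℕ) : (celA g b m).Finite :=
  (vert_finite _ _ _).union ((hrow_finite _ _ _).union (hrow_finite _ _ _))

section

variable {S : Set α} {W : Type*} {ends : α → Sym2 W} {P : ℕ × ℕ → W} {r n : ℕ}

lemma arcA_con (hP : Page S ends P 0 r n) {a c b m : ℕ} (hac : a ≤ c) (hc : c ≤ r) (hb : 1 ≤ b)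
    (hbm : b ≤ m) (hm' : m ≤ n) : VConn S ends (P '' arcA a c b m) := by
  unfold arcA
  rw [image_union, image_union]
  refine vc_union (hP.vconn_ver (Nat.zero_le _) (by omega) hm') ?_ (c := P (a, b))
    ⟨(a, b), vm le_rfl hbm, rfl⟩ (Or.inl ⟨(a, b), hm le_rfl hac, rfl⟩)
  exact vc_union (hP.vconn_hor (Nat.zero_le _) hc hb (by omega))
    (hP.vconn_ver (Nat.zero_le _) hc hm') (c := P (c, b)) ⟨(c, b), hm hac le_rfl, rfl⟩
    ⟨(c, b), vm le_rfl hbm, rfl⟩

lemma celA_con (hP : Page S ends P 0 r n) {g b m : ℕ} (hg : g + 1 ≤ r) (hb : 1 ≤ b)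
    (hbm : b + 1 ≤ m) (hm' : m ≤ n) : VConn S ends (P '' celA g b m) := by
  unfold celA
  rw [← union_assoc, image_union, image_union]
  refine vc_union (vc_union (hP.vconn_ver (Nat.zero_le _) (by omega) hm')
    (hP.vconn_hor (Nat.zero_le _) hg hb (by omega)) (c := P (g, b))
    ⟨(g, b), vm le_rfl (by omega), rfl⟩ ⟨(g, b), hm le_rfl (by omega), rfl⟩)
    (hP.vconn_hor (Nat.zero_le _) hg (by omega) (by omega)) (c := P (g, b + 1))
    (Or.inl ⟨(g, b + 1), vm (by omega) hbm, rfl⟩) ⟨(g, b + 1), hm le_rfl (by omega), rfl⟩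

end

/-- all connectors -/
def blk (l : ℕ → ℕ) (Nn k : ℕ) : Set (ℕ × ℕ) :=
  if k < 2 * Nn then
    (if k % 2 = 0 then arcA (l (k / 2) + 2) (l (2 * Nn - k / 2)) (3 * (k / 2) + 1) (3 * Nn + 1)
      else celA (l (k / 2 + 1)) (3 * (k / 2) + 2) (3 * Nn + 1))
  else ∅

/-- columns of the ports -/
def colA (l : ℕ → ℕ) (Nn p : ℕ) : ℕ :=
  if p < 2 * Nn then (if p % 2 = 0 then l (p / 2) + 2 else l (p / 2 + 1)) else l (p - Nn + 1)

lemma blk_even {l : ℕ → ℕ} {Nn i : ℕ} (h : i < Nn) : blk l Nn (2 * i) =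
    arcA (l i + 2) (l (2 * Nn - i)) (3 * i + 1) (3 * Nn + 1) := by
  unfold blk
  rw [if_pos (by omega), if_pos (by omega)]
  have e : 2 * i / 2 = i := by omega
  rw [e]

lemma blk_odd {l : ℕ → ℕ} {Nn i : ℕ} (h : i < Nn) : blk l Nn (2 * i + 1) =
    celA (l (i + 1)) (3 * i + 2) (3 * Nn + 1) := by
  unfold blk
  rw [if_pos (by omega), if_neg (by omega)]
  have e : (2 * i + 1) / 2 = i := by omega
  rw [e]

lemma blk_big {l : ℕ → ℕ} {Nn k : ℕ} (h : 2 * Nn ≤ k) : blk l Nn k = ∅ := by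
  unfold blk
  rw [if_neg (by omega)]

lemma blk_cases {Nn : ℕ} (k : ℕ) : (∃ i < Nn, k = 2 * i) ∨ (∃ i < Nn, k = 2 * i + 1) ∨
    2 * Nn ≤ k := by
  rcases Nat.lt_or_ge k (2 * Nn) with h | h
  · rcases Nat.even_or_odd' k with ⟨i, hi | hi⟩
    · exact Or.inl ⟨i, by omega, hi⟩
    · exact Or.inr (Or.inl ⟨i, by omega, hi⟩)
  · exact Or.inr (Or.inr h)

section

variable {l : ℕ → ℕ} {Nn : ℕ}

lemma l_mono (hl : ∀ i, i + 1 < 2 * Nn + 1 → l i + 2 < l (i + 1)) :
    ∀ i j, i < j → j < 2 * Nn + 1 → l i + 2 < l j := by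
  intro i j hij
  induction j with
  | zero => omega
  | succ j ih =>
    intro hj
    have h1 := hl j hj
    rcases Nat.lt_or_ge i j with h | h
    · have := ih h (by omega)
      omega
    · have : i = j := by omega
      rw [this]
      exact h1

lemma blk_sub (hl : ∀ i, i + 1 < 2 * Nn + 1 → l i + 2 < l (i + 1)) {r : ℕ}
    (hr : ∀ i < 2 * Nn + 1, l i + 1 ≤ r) (k : ℕ) : blk l Nn k ⊆ Reg 0 r (3 * Nn + 1) := by
  have hL := l_mono hl
  rintro ⟨a, b⟩ h
  rw [mem_Reg]
  simp only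
  rcases blk_cases (Nn := Nn) k with ⟨i, hi, rfl⟩ | ⟨i, hi, rfl⟩ | hk
  · rw [blk_even hi, mem_arcA] at h
    simp only at h
    have h1 := hL i (2 * Nn - i) (by omega) (by omega)
    have h2 := hr (2 * Nn - i) (by omega)
    omega
  · rw [blk_odd hi, mem_celA] at h
    simp only at h
    have h2 := hr (i + 1) (by omega)
    omega
  · rw [blk_big hk] at h
    exact False.elim h

lemma blk_disj (hl : ∀ i, i + 1 < 2 * Nn + 1 → l i + 2 < l (i + 1)) {k k' : ℕ} (hk : k ≠ k') :
    ∀ c ∈ blk l Nn k, c ∉ blk l Nn k' := by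
  have hL := l_mono hl
  have hL' : ∀ i j, i ≤ j → j < 2 * Nn + 1 → l i ≤ l j := by
    intro i j hij hj
    rcases Nat.lt_or_ge i j with h | h
    · have := hL i j h hj
      omega
    · have : i = j := by omega
      rw [this]
  -- arcs
  have hee : ∀ i j, i < j → j < Nn → ∀ c ∈ blk l Nn (2 * i), c ∉ blk l Nn (2 * j) := by
    rintro i j hij hj ⟨a, b⟩ h h'
    rw [blk_even (by omega), mem_arcA] at h
    rw [blk_even (by omega), mem_arcA] at h'
    simp only at h h'
    have h1 := hL i j hij (by omega)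
    have h2 := hL (2 * Nn - j) (2 * Nn - i) (by omega) (by omega)
    have h3 := hL j (2 * Nn - j) (by omega) (by omega)
    omega
  have hoo : ∀ i j, i < j → j < Nn → ∀ c ∈ blk l Nn (2 * i + 1), c ∉ blk l Nn (2 * j + 1) := by
    rintro i j hij hj ⟨a, b⟩ h h'
    rw [blk_odd (by omega), mem_celA] at h
    rw [blk_odd (by omega), mem_celA] at h'
    simp only at h h'
    have h1 := hL (i + 1) (j + 1) (by omega) (by omega)
    omega
  have heo : ∀ i j, i < Nn → j < Nn → ∀ c ∈ blk l Nn (2 * i), c ∉ blk l Nn (2 * j + 1) := by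
    rintro i j hi hj ⟨a, b⟩ h h'
    rw [blk_even (by omega), mem_arcA] at h
    rw [blk_odd (by omega), mem_celA] at h'
    simp only at h h'
    have h1 := hL (j + 1) (2 * Nn - i) (by omega) (by omega)
    rcases Nat.lt_or_ge j i with h2 | h2
    · have h3 := hL' (j + 1) i (by omega) (by omega)
      omega
    · have h3 := hL i (j + 1) (by omega) (by omega)
      omega
  intro c h h'
  rcases blk_cases (Nn := Nn) k with ⟨i, hi, rfl⟩ | ⟨i, hi, rfl⟩ | hk1
  · rcases blk_cases (Nn := Nn) k' with ⟨j, hj, rfl⟩ | ⟨j, hj, rfl⟩ | hk2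
    · rcases Nat.lt_trichotomy i j with h1 | h1 | h1
      · exact hee i j h1 hj c h h'
      · exact hk (by rw [h1])
      · exact hee j i h1 hi c h' h
    · exact heo i j hi hj c h h'
    · rw [blk_big hk2] at h'
      exact h'
  · rcases blk_cases (Nn := Nn) k' with ⟨j, hj, rfl⟩ | ⟨j, hj, rfl⟩ | hk2
    · exact heo j i hj hi c h' h
    · rcases Nat.lt_trichotomy i j with h1 | h1 | h1
      · exact hoo i j h1 hj c h h'
      · exact hk (by rw [h1])
      · exact hoo j i h1 hi c h' h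
    · rw [blk_big hk2] at h'
      exact h'
  · rw [blk_big hk1] at h
    exact h

lemma blk_fin (k : ℕ) : (blk l Nn k).Finite := by
  rcases blk_cases (Nn := Nn) k with ⟨i, hi, rfl⟩ | ⟨i, hi, rfl⟩ | hk
  · rw [blk_even hi]
    exact arcA_fin _ _ _ _
  · rw [blk_odd hi]
    exact celA_fin _ _ _
  · rw [blk_big hk]
    exact finite_empty

lemma blk_con {S : Set α} {W : Type*} {ends : α → Sym2 W} {P : ℕ × ℕ → W} {r n : ℕ}
    (hP : Page S ends P 0 r n)
    (hl : ∀ i, i + 1 < 2 * Nn + 1 → l i + 2 < l (i + 1))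
    (hr : ∀ i < 2 * Nn + 1, l i + 1 ≤ r) (hn : 3 * Nn + 1 ≤ n) (k : ℕ) :
    VConn S ends (P '' blk l Nn k) := by
  rcases blk_cases (Nn := Nn) k with ⟨i, hi, rfl⟩ | ⟨i, hi, rfl⟩ | hk
  · rw [blk_even hi]
    have h1 := l_mono hl i (2 * Nn - i) (by omega) (by omega)
    have h2 := hr (2 * Nn - i) (by omega)
    exact arcA_con hP (by omega) (by omega) (by omega) (by omega) hn
  · rw [blk_odd hi]
    have h2 := hr (i + 1) (by omega)
    exact celA_con hP h2 (by omega) (by omega) hn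
  · rw [blk_big hk, image_empty]
    exact vconn_empty

lemma colA_even {i : ℕ} (h : i < Nn) : colA l Nn (2 * i) = l i + 2 := by
  unfold colA
  rw [if_pos (by omega), if_pos (by omega)]
  have e : 2 * i / 2 = i := by omega
  rw [e]

lemma colA_odd {i : ℕ} (h : i < Nn) : colA l Nn (2 * i + 1) = l (i + 1) := by
  unfold colA
  rw [if_pos (by omega), if_neg (by omega)]
  have e : (2 * i + 1) / 2 = i := by omega
  rw [e]

lemma colA_big {p : ℕ} (h : 2 * Nn ≤ p) : colA l Nn p = l (p - Nn + 1) := by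
  unfold colA
  rw [if_neg (by omega)]

/-- the port column leaves the connector at the level `3 Nn + 1` -/
lemma colA_mem (hl : ∀ i, i + 1 < 2 * Nn + 1 → l i + 2 < l (i + 1)) {r : ℕ}
    (hr : ∀ i < 2 * Nn + 1, l i + 1 ≤ r) {p : ℕ} (hp : p < 3 * Nn) :
    colA l Nn p ≤ r ∧ (colA l Nn p, 3 * Nn + 1) ∈ blk l Nn (ownA Nn p) := by
  rcases blk_cases (Nn := Nn) p with ⟨i, hi, rfl⟩ | ⟨i, hi, rfl⟩ | hk
  · rw [colA_even hi, ownA_lt (by omega), blk_even hi, mem_arcA]
    have h1 := l_mono hl i (i + 1) (by omega) (by omega)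
    have h2 := hr (i + 1) (by omega)
    exact ⟨by omega, Or.inl ⟨rfl, by simp only; omega, le_rfl⟩⟩
  · rw [colA_odd hi, ownA_lt (by omega), blk_odd hi, mem_celA]
    have h2 := hr (i + 1) (by omega)
    exact ⟨by omega, Or.inl ⟨rfl, by simp only; omega, le_rfl⟩⟩
  · rw [colA_big hk, ownA_ge hk, blk_even (by omega), mem_arcA]
    have h2 := hr (p - Nn + 1) (by omega)
    have e : 2 * Nn - (3 * Nn - 1 - p) = p - Nn + 1 := by omega
    rw [e]
    exact ⟨by omega, Or.inr (Or.inr ⟨rfl, by simp only; omega, le_rfl⟩)⟩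

lemma colA_lt (hl : ∀ i, i + 1 < 2 * Nn + 1 → l i + 2 < l (i + 1)) {p q : ℕ} (hpq : p < q)
    (hq : q < 3 * Nn) : colA l Nn p < colA l Nn q := by
  have hL := l_mono hl
  rcases blk_cases (Nn := Nn) p with ⟨i, hi, rfl⟩ | ⟨i, hi, rfl⟩ | hk
  · rw [colA_even hi]
    rcases blk_cases (Nn := Nn) q with ⟨j, hj, rfl⟩ | ⟨j, hj, rfl⟩ | hk'
    · rw [colA_even hj]
      have := hL i j (by omega) (by omega)
      omega
    · rw [colA_odd hj]
      exact hL i (j + 1) (by omega) (by omega)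
    · rw [colA_big hk']
      exact hL i (q - Nn + 1) (by omega) (by omega)
  · rw [colA_odd hi]
    rcases blk_cases (Nn := Nn) q with ⟨j, hj, rfl⟩ | ⟨j, hj, rfl⟩ | hk'
    · rw [colA_even hj]
      rcases Nat.lt_or_ge (i + 1) j with h | h
      · have := hL (i + 1) j (by omega) (by omega)
        omega
      · have : i + 1 = j := by omega
        rw [this]
        omega
    · rw [colA_odd hj]
      have := hL (i + 1) (j + 1) (by omega) (by omega)
      omega
    · rw [colA_big hk']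
      have := hL (i + 1) (q - Nn + 1) (by omega) (by omega)
      omega
  · rw [colA_big hk, colA_big (by omega)]
    have := hL (p - Nn + 1) (q - Nn + 1) (by omega) (by omega)
    omega

end

/-! ### The theorem -/

/-- **Row HA.** Many unbalanced lines of a sheet: nested arcs with a grounded connector in every
step (pattern (A)). -/
theorem pa_of_lines (Nn n₁ : ℕ) : ∃ K N₀ : ℕ, ∀ {α : Type u} {V σ : Type} (M' : Matroid α)
    [M'.Finite] (S : Set α) (ends : α → Sym2 (HV V σ)) (H : Host V σ) (N : ℤ), N₀ ≤ N →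
    Frm M' S ends → Emb S ends H N id → ∀ (s : σ) (l : ℕ → ℕ),
    (∀ i < K, l i + 1 < H.len s) → (∀ i, i + 1 < K → l i + 2 < l (i + 1)) →
    (∀ lev : ℕ → ℤ, (∀ i < K, -N ≤ lev i ∧ lev i + 1 ≤ -1) →
      JU M' S ends (Finset.range K) (fun i => cellV s (l i) (lev i))) →
    ∃ (κ : Type) (Y : EN.Sys κ) (P : ℕ → ℕ × ℕ → HV V σ) (lo hi : ℕ → ℕ) (n : ℕ)
      (B : κ → Set (HV V σ)) (col : ℕ → ℕ) (x z q : ℕ → ℕ), Y.Ax 3 ∧
      RealU Y M' S ends P lo hi n B col ∧ n₁ ≤ n ∧
      (∀ j x, lo j ≤ x → x ≤ hi j → x < H.len s ∧ ∀ c < H.len s, lo j ≤ c ∧ c ≤ hi j ∧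
        ∀ b ≤ n, ∃ b' : ℤ, -N ≤ b' ∧ b' ≤ N ∧ b' ≠ 0 ∧ P j (c, b) = Sum.inr (s, c, b')) ∧
      Y.PA Nn x z q := by
  refine ⟨2 * Nn + 1, n₁ + 3 * Nn + 4, ?_⟩
  intro α V σ M' _ S ends H N hN hF hE s l hlen hl hJ
  obtain ⟨n, hn⟩ : ∃ n : ℕ, (n : ℤ) + (3 * Nn + 2) + 1 = N := ⟨(N - 1 - (3 * Nn + 2)).toNat, by
    omega⟩
  have hs : 0 < H.len s := by
    have := hlen 0 (by omega)
    omega
  have hP : Page S ends (bpg (V := V) s N) 0 (H.len s - 1) (n + (3 * Nn + 2)) :=
    bpg_page hE s hs (by push_cast; omega)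
  have hr : ∀ i < 2 * Nn + 1, l i + 1 ≤ H.len s - 1 := fun i hi => by
    have := hlen i hi
    omega
  have hsub := blk_sub hl hr
  have hR : Reg 0 (H.len s - 1) (3 * Nn + 1) ⊆ Reg 0 (H.len s - 1) (n + (3 * Nn + 2)) := by
    rintro ⟨a, b⟩ h
    rw [mem_Reg] at h ⊢
    simp only at h ⊢
    omega
  have hfin : ∀ k, (bpg (V := V) s N '' blk l Nn k).Finite := fun k => (blk_fin k).image _
  have hcon : ∀ k, VConn S ends (bpg (V := V) s N '' blk l Nn k) := fun k =>
    blk_con hP hl hr (by omega) k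
  have hdis : ∀ k k', k ≠ k' →
      Disjoint (bpg (V := V) s N '' blk l Nn k) (bpg (V := V) s N '' blk l Nn k') := fun k k' h =>
    hP.disj ((hsub k).trans hR) ((hsub k').trans hR) (blk_disj hl h)
  refine ⟨ℕ, YA Nn, fun j c => bpg s N (c.1, c.2 + (3 * Nn + 2)), fun j => if j = 0 then 0 else 1,
    fun j => if j = 0 then H.len s - 1 else 0, n, fun k => bpg s N '' blk l Nn k, colA l Nn,
    fun i => 2 * i, fun i => 3 * Nn - 1 - i, fun i => 2 * i + 1, YA_ax Nn, ?_, ?_, ?_, YA_pa Nn⟩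
  · refine ⟨⟨?_, ?_⟩, hfin, hcon, hdis, ?_, ?_, fun _ _ h => False.elim h, ?_, ?_⟩
    · intro j
      by_cases hj : j = 0
      · simp only [hj, if_true]
        refine ⟨?_, ?_, ?_⟩
        · rintro ⟨a, b⟩ ⟨a', b'⟩ h1 h2 h3 h1' h2' h3' h
          simp only at h1 h2 h3 h1' h2' h3' h
          have h4 := hP.inj (a, b + (3 * Nn + 2)) (a', b' + (3 * Nn + 2)) h1 h2
            (by simp only; omega) h1' h2' (by simp only; omega) h
          simp only [Prod.mk.injEq] at h4
          exact Prod.ext h4.1 (by simp only; omega)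
        · intro x b h1 h2 h3
          have h4 := hP.ver x (b + (3 * Nn + 2)) h1 h2 (by omega)
          have e : b + (3 * Nn + 2) + 1 = b + 1 + (3 * Nn + 2) := by omega
          rw [e] at h4
          exact h4
        · intro x b h1 h2 h3 h4
          exact hP.hor x (b + (3 * Nn + 2)) h1 h2 (by omega) (by omega)
      · simp only [hj, if_false]
        refine ⟨?_, ?_, ?_⟩
        · intro c c' h1 h2
          omega
        · intro x b h1 h2
          omega
        · intro x b h1 h2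
          omega
    · intro j j' hjj c hc c' hc' _
      rw [mem_Reg] at hc hc'
      by_cases hj : j = 0
      · have hj' : j' ≠ 0 := fun h => hjj (hj.trans h.symm)
        simp only [hj', if_false] at hc'
        omega
      · simp only [hj, if_false] at hc
        omega
    · rintro k j ⟨a, b⟩ hc ⟨c, hc', h⟩
      rw [mem_Reg] at hc
      by_cases hj : j = 0
      · simp only [hj, if_true] at hc
        have h1 := hsub k hc'
        rw [mem_Reg] at h1
        have h2 := hP.inj c (a, b + (3 * Nn + 2)) h1.1 h1.2.1 (by omega) (by simp only; omega)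
          (by simp only; omega) (by simp only; omega) h
        rw [h2] at h1
        simp only at h1
        omega
      · simp only [hj, if_false] at hc
        omega
    · intro x hx
      have h1 := colA_mem hl hr (p := x) hx
      refine ⟨Nat.zero_le _, ?_, ?_⟩
      · show colA l Nn x ≤ if (0 : ℕ) = 0 then H.len s - 1 else 0
        rw [if_pos rfl]
        exact h1.1
      · obtain ⟨e, he, h2⟩ := hP.ver (colA l Nn x) (3 * Nn + 1) (Nat.zero_le _) h1.1 (by omega)
        refine ⟨e, he, _, ⟨_, h1.2, rfl⟩, _, rfl, ?_⟩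
        rw [h2]
        have e3 : (0 : ℕ) + (3 * Nn + 2) = 3 * Nn + 1 + 1 := by omega
        simp only [e3]
    · intro x y hxy hy _
      exact colA_lt hl hxy hy
    · intro I hI
      have hN' : ((n₁ + 3 * Nn + 4 : ℕ) : ℤ) ≤ N := hN
      push_cast at hN'
      have hJ' := hJ (fun i => if 1 ≤ i ∧ i ≤ Nn then -N + (3 * (i : ℤ) - 1) else -N) (by
        intro i hi
        split_ifs with h
        · constructor <;> omega
        · constructor <;> omega)
      have hI' : I.image (fun k => (k + 1) / 2) ⊆ Finset.range (2 * Nn + 1) := by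
        intro i hi
        obtain ⟨k, hk, rfl⟩ := Finset.mem_image.1 hi
        obtain ⟨j, hj, rfl⟩ := hI k hk
        rw [Finset.mem_range]
        omega
      have hJ2 := hJ'.restr hF (fun i _ => by
        unfold cellV
        exact Set.toFinite _) hI'
      rw [JU.image] at hJ2
      · refine hJ2.mono_all hF (fun i _ => hfin i) ?_ ?_ (fun i _ => hcon i)
          (fun i _ j _ hij => hdis i j hij)
        · intro k hk
          obtain ⟨j, hj, rfl⟩ := hI k hk
          have e1 : (2 * j + 1 + 1) / 2 = j + 1 := by omega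
          rw [blk_odd hj]
          simp only [e1]
          rw [if_pos (by omega)]
          intro v hv
          have key : ∀ a b : ℕ, (a, b) ∈ celA (l (j + 1)) (3 * j + 2) (3 * Nn + 1) →
              v = Sum.inr (s, a, -N + (b : ℤ)) → v ∈ bpg s N ''
                celA (l (j + 1)) (3 * j + 2) (3 * Nn + 1) := by
            intro a b h1 h2
            exact ⟨(a, b), h1, h2.symm⟩
          have e2 : (-N + (3 * ((j + 1 : ℕ) : ℤ) - 1)) = -N + ((3 * j + 2 : ℕ) : ℤ) := by
            push_cast; ring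
          have e3 : (-N + ((3 * j + 2 : ℕ) : ℤ)) + 1 = -N + ((3 * j + 2 + 1 : ℕ) : ℤ) := by
            push_cast; ring
          rw [e2] at hv
          unfold cellV at hv
          rw [e3] at hv
          simp only [mem_insert_iff, mem_singleton_iff] at hv
          rcases hv with hv | hv | hv | hv
          · exact key _ _ (mem_celA.2 (Or.inr (Or.inl ⟨rfl, le_rfl, by simp only; omega⟩))) hv
          · exact key _ _ (mem_celA.2 (Or.inr (Or.inl ⟨rfl, by simp only; omega, le_rfl⟩))) hv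
          · exact key _ _ (mem_celA.2 (Or.inr (Or.inr ⟨rfl, le_rfl, by simp only; omega⟩))) hv
          · exact key _ _ (mem_celA.2 (Or.inr (Or.inr ⟨rfl, by simp only; omega, le_rfl⟩))) hv
        · intro k hk
          exact ⟨_, Or.inl rfl⟩
      · intro k hk k' hk' h
        obtain ⟨j, hj, rfl⟩ := hI k hk
        obtain ⟨j', hj', rfl⟩ := hI k' hk'
        simp only at h
        omega
  · have hN' : ((n₁ + 3 * Nn + 4 : ℕ) : ℤ) ≤ N := hN
    push_cast at hN'
    omega
  · intro j x h1 h2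
    by_cases hj : j = 0
    · simp only [hj, if_true] at h1 h2 ⊢
      refine ⟨by omega, fun c hc => ⟨Nat.zero_le _, by omega, fun b hb => ?_⟩⟩
      refine ⟨-N + ((b + (3 * Nn + 2) : ℕ) : ℤ), ?_, ?_, ?_, rfl⟩
      · omega
      · push_cast; omega
      · push_cast; omega
    · simp only [hj, if_false] at h1 h2
      omega

end TST
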