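import Pool.Agent.TST.Lab
import Pool.Agent.TST.LinesPA

/-!
# Row LN of the host of T-star: an unbalanced line has full cells
-/

open Set Relation
open scoped Matroid

namespace TST

open BIC Gad EN BICS Mdl

universe u

variable {α : Type u} {X₀ β σ : Type}

section eQ

variable {V : Type*} {VQ : Set V} {S : Set α} {ends : α → Sym2 V} {e : α}

/-- `eQ` does not change an element which avoids `VQ` -/
lemma eQ_off (h : ∀ v ∈ ends e, v ∉ VQ) : eQ VQ ends e = ends e := by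
  unfold eQ
  rw [dif_neg]
  rintro ⟨v, w, h1, _, h3⟩
  refine h w ?_ h3
  rw [h1]
  exact Sym2.mem_mk_right _ _

lemma mem_SQ_off (he : e ∈ S) (h : ∀ v ∈ ends e, v ∉ VQ) : e ∈ SQ VQ S ends := by
  refine ⟨he, ?_⟩
  induction hE : ends e using Sym2.ind with
  | _ a b =>
    exact ⟨a, by simp, h a (by rw [hE]; simp)⟩

end eQ

section

variable {M : Matroid α} {W : RW X₀ β} {el : β → ℕ → α} {ln : σ → ℕ} {N : ℕ}
  {T : Strip W (CI ln) N} {Lm : ℕ} {Sf : Set α} {eL : α → Sym2 (HV (OV X₀ β Lm) σ)} {Q : Set α}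
  {BQ : Set β} {u : ℕ} {Ed : CI ln → CI ln → Prop} {Rg : Set α}

lemma Strip.idx_mem (T : Strip W (CI ln) N) (i : CI ln) {b : ℤ} (h1 : -(N : ℤ) ≤ b)
    (h2 : b ≤ N + T.m i) : T.a i ≤ T.idx i b ∧ T.idx i b ≤ T.a i + 2 * N + T.m i := by
  unfold Strip.idx
  split_ifs <;> omega

lemma nd_inr {r r' : β} {p p' : ℕ} (h : W.nd r p = Sum.inr (r', p')) : r = r' ∧ p = p' := by
  unfold RW.nd at h
  split_ifs at h
  exact ⟨(Prod.mk.inj (Sum.inr_injective h)).1, (Prod.mk.inj (Sum.inr_injective h)).2⟩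

/-- the vertices of the columns are no nodes of the rows in `BQ` -/
lemma SG.cv_off (h : SG M W el T Lm Sf eL Q BQ u Ed Rg) (i : CI ln) {b : ℤ} (h1 : -(N : ℤ) ≤ b)
    (h2 : b ≤ N + T.m i) : (cv i b : HV (OV X₀ β Lm) σ) ∉ rowL T Lm BQ := by
  rintro ⟨v, ⟨r, hr, p, hp, rfl⟩, hv⟩
  obtain ⟨h3, h4⟩ := T.idx_mem i h1 h2
  have h5 := T.pos i
  have h6 := T.lt i
  have h7 : W.nd (T.R i) (T.idx i b) = Sum.inr (T.R i, T.idx i b) := by
    unfold RW.nd
    rw [if_neg (by omega), if_neg (by omega)]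
  have h8 := lab_col T (Lm := Lm) i b h1 h2
  rw [← h7] at h8
  have h9 := lab_inj T h.len hp (show T.idx i b ≤ W.len (T.R i) by omega) (hv.trans h8.symm)
  rw [h7] at h9
  exact h.colQ i ((nd_inr h9).1 ▸ hr)

/-- **Row LN.** -/
theorem SG.cell [M.Finite] (h : SG M W el T Lm Sf eL Q BQ u Ed Rg) {Lost : Set β} {i j : CI ln}
    (hs : i.1.1 = j.1.1) (hj : j.1.2 = i.1.2 + 1) (hEd : Ed i j) {b : ℤ} (h1 : -(N : ℤ) ≤ b)
    (h2 : b + 1 ≤ -1) {e e' : α} (he : e ∈ Rg) (he' : e' ∈ Rg) (hee : eL e = s(cv i b, cv j b))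
    (hee' : eL e' = s(cv i (b + 1), cv j (b + 1)))
    (hub : e' ∉ (M ／ Q).closure (ColE W el T i ∪ ColE W el T j ∪ {e})) :
    (cellV (V := OV X₀ β Lm) i.1.1 i.1.2 b).ncard ≤
      rk (M ／ Q) (ins (Sh W el T Lost Rg eL) eL (cellV i.1.1 i.1.2 b)) := by
  classical
  have hfin : (M ／ Q).Finite := ⟨M.ground_finite.subset sdiff_subset⟩
  have hij : i ≠ j := h.ed i j hEd
  -- the vertices
  have hcj : ∀ c : ℤ, (cv j c : HV (OV X₀ β Lm) σ) = Sum.inr (i.1.1, i.1.2 + 1, c) := by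
    intro c
    unfold cv
    rw [← hs, ← hj]
  have hne : ∀ c c' : ℤ, (cv i c : HV (OV X₀ β Lm) σ) ≠ cv j c' := by
    intro c c' h3
    rw [hcj] at h3
    unfold cv at h3
    simp at h3
  have hne' : ∀ (i : CI ln) {c c' : ℤ}, c ≠ c' → (cv i c : HV (OV X₀ β Lm) σ) ≠ cv i c' := by
    intro i c c' h3 h4
    unfold cv at h4
    simp only [Sum.inr.injEq, Prod.mk.injEq, true_and] at h4
    exact h3 h4
  have hN := h.N1
  -- the steps of the columns
  have hstep : ∀ i : CI ln, ∃ x, x ∈ Sf ∧ x ∈ ColE W el T i ∧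
      eL x = s(cv i b, cv i (b + 1)) := by
    intro i
    obtain ⟨k, k1, k2, k3⟩ := lab_step T (Lm := Lm) i b (Or.inl ⟨h1, by omega⟩)
    have h6 := T.lt i
    obtain ⟨g1, g2⟩ := h.row (T.R i) k (by omega)
    exact ⟨_, g1, ⟨k, k1, k2, rfl⟩, g2.trans k3⟩
  obtain ⟨xi, xi1, xi2, xi3⟩ := hstep i
  obtain ⟨xj, xj1, xj2, xj3⟩ := hstep j
  have heS := (h.rg e he).1
  have heS' := (h.rg e' he').1
  -- the frame
  have hoff : ∀ x, x ∈ Sf → (∀ v ∈ eL x, v = cv i b ∨ v = cv i (b + 1) ∨ v = cv j b ∨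
      v = cv j (b + 1)) → x ∈ SQ (rowL T Lm BQ) Sf eL ∧ eQ (rowL T Lm BQ) eL x = eL x := by
    intro x hx hv
    have h3 : ∀ v ∈ eL x, v ∉ rowL T Lm BQ := by
      intro v hv'
      rcases hv v hv' with rfl | rfl | rfl | rfl
      · exact h.cv_off i h1 (by omega)
      · exact h.cv_off i (by omega) (by omega)
      · exact h.cv_off j h1 (by omega)
      · exact h.cv_off j (by omega) (by omega)
    exact ⟨mem_SQ_off hx h3, eQ_off h3⟩
  have hxi := hoff xi xi1 (by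
    intro v hv
    rw [xi3, Sym2.mem_iff] at hv
    tauto)
  have hxj := hoff xj xj1 (by
    intro v hv
    rw [xj3, Sym2.mem_iff] at hv
    tauto)
  have hxe := hoff e heS (by
    intro v hv
    rw [hee, Sym2.mem_iff] at hv
    tauto)
  have hxe' := hoff e' heS' (by
    intro v hv
    rw [hee', Sym2.mem_iff] at hv
    tauto)
  have hE : ∀ x ∈ SQ (rowL T Lm BQ) Sf eL, x ∈ (M ／ Q).E := fun x hx => h.frm.sub hx
  -- independence
  have I1 : (M ／ Q).Indep {e} := by
    rw [Matroid.indep_singleton, ← Matroid.not_isLoop_iff (hE e hxe.1)]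
    intro hl
    refine h.frm.star (cv i b) e hxe.1 ?_ (hl.mem_closure _)
    rw [hxe.2, hee]
    exact Sym2.mem_mk_left _ _
  have hvi : (cv i (b + 1) : HV (OV X₀ β Lm) σ) ∈ eL xi := by
    rw [xi3]
    exact Sym2.mem_mk_right _ _
  have hvj : (cv j (b + 1) : HV (OV X₀ β Lm) σ) ∈ eL xj := by
    rw [xj3]
    exact Sym2.mem_mk_right _ _
  have I2 : xj ∉ (M ／ Q).closure {e} := by
    intro hl
    refine h.frm.star (cv j (b + 1)) xj hxj.1 (by rw [hxj.2]; exact hvj)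
      ((M ／ Q).closure_subset_closure (singleton_subset_iff.2 ?_) hl)
    refine ⟨hxe.1, ?_⟩
    intro v hv
    rw [hxe.2, hee, Sym2.mem_iff] at hv
    rcases hv with rfl | rfl
    · exact hne _ _
    · exact hne' j (by omega)
  have I3 : xi ∉ (M ／ Q).closure {xj, e} := by
    intro hl
    refine h.frm.star (cv i (b + 1)) xi hxi.1 (by rw [hxi.2]; exact hvi)
      ((M ／ Q).closure_subset_closure ?_ hl)
    rintro x (rfl | rfl)
    · refine ⟨hxj.1, ?_⟩
      intro v hv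
      rw [hxj.2, xj3, Sym2.mem_iff] at hv
      rcases hv with rfl | rfl
      · exact (hne _ _).symm
      · exact (hne _ _).symm
    · refine ⟨hxe.1, ?_⟩
      intro v hv
      rw [hxe.2, hee, Sym2.mem_iff] at hv
      rcases hv with rfl | rfl
      · exact hne' i (by omega)
      · exact (hne _ _).symm
  have hsub4 : ({xi, xj, e} : Set α) ⊆ ColE W el T i ∪ ColE W el T j ∪ {e} := by
    rintro x (rfl | rfl | rfl)
    · exact Or.inl (Or.inl xi2)
    · exact Or.inl (Or.inr xj2)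
    · exact Or.inr rfl
  have I4 : e' ∉ (M ／ Q).closure {xi, xj, e} := fun hl =>
    hub ((M ／ Q).closure_subset_closure hsub4 hl)
  have hI2 : (M ／ Q).Indep {xj, e} := (I1.notMem_closure_iff (hE _ hxj.1)).1 I2 |>.1
  have hI3 : (M ／ Q).Indep {xi, xj, e} := (hI2.notMem_closure_iff (hE _ hxi.1)).1 I3 |>.1
  have hI4 : (M ／ Q).Indep {e', xi, xj, e} := (hI3.notMem_closure_iff (hE _ hxe'.1)).1 I4 |>.1
  have n2 : xj ∉ ({e} : Set α) := ((I1.notMem_closure_iff (hE _ hxj.1)).1 I2).2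
  have n3 : xi ∉ ({xj, e} : Set α) := ((hI2.notMem_closure_iff (hE _ hxi.1)).1 I3).2
  have n4 : e' ∉ ({xi, xj, e} : Set α) := ((hI3.notMem_closure_iff (hE _ hxe'.1)).1 I4).2
  -- cheap elements
  have hcell : ∀ v : HV (OV X₀ β Lm) σ, (v = cv i b ∨ v = cv i (b + 1) ∨ v = cv j b ∨
      v = cv j (b + 1)) → v ∈ (cellV i.1.1 i.1.2 b : Set (HV (OV X₀ β Lm) σ)) ∧
      ∀ i' : CI ln, v ∉ (MidS N i'.1.1 i'.1.2 (T.m i') : Set (HV (OV X₀ β Lm) σ)) := by
    intro v hv
    rw [hcj, hcj] at hv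
    constructor
    · unfold cellV
      rcases hv with rfl | rfl | rfl | rfl
      · exact Or.inl rfl
      · exact Or.inr (Or.inr (Or.inl rfl))
      · exact Or.inr (Or.inl rfl)
      · exact Or.inr (Or.inr (Or.inr rfl))
    · rintro i' ⟨c, hc, hc'⟩
      rcases hv with rfl | rfl | rfl | rfl
      all_goals
        first
          | unfold cv at hc
          | skip
        simp only [Sum.inr.injEq, Prod.mk.injEq] at hc
        omega
  have hcheap : ({e', xi, xj, e} : Set α) ⊆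
      ins (Sh W el T Lost Rg eL) eL (cellV i.1.1 i.1.2 b) := by
    rintro x (rfl | rfl | rfl | rfl)
    · refine ⟨⟨Or.inr he', fun v hv => ?_⟩, fun v hv => ?_⟩
      · rw [hee', Sym2.mem_iff] at hv
        exact (hcell v (by tauto)).2
      · rw [hee', Sym2.mem_iff] at hv
        exact (hcell v (by tauto)).1
    · refine ⟨⟨Or.inl (Or.inr ⟨i, xi2⟩), fun v hv => ?_⟩, fun v hv => ?_⟩
      · rw [xi3, Sym2.mem_iff] at hv
        exact (hcell v (by tauto)).2
      · rw [xi3, Sym2.mem_iff] at hv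
        exact (hcell v (by tauto)).1
    · refine ⟨⟨Or.inl (Or.inr ⟨j, xj2⟩), fun v hv => ?_⟩, fun v hv => ?_⟩
      · rw [xj3, Sym2.mem_iff] at hv
        exact (hcell v (by tauto)).2
      · rw [xj3, Sym2.mem_iff] at hv
        exact (hcell v (by tauto)).1
    · refine ⟨⟨Or.inr he, fun v hv => ?_⟩, fun v hv => ?_⟩
      · rw [hee, Sym2.mem_iff] at hv
        exact (hcell v (by tauto)).2
      · rw [hee, Sym2.mem_iff] at hv
        exact (hcell v (by tauto)).1
  have h4 : ({e', xi, xj, e} : Set α).ncard = 4 := by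
    rw [ncard_insert_of_notMem n4, ncard_insert_of_notMem n3, ncard_insert_of_notMem n2,
      ncard_singleton]
  have h5 : (cellV (V := OV X₀ β Lm) i.1.1 i.1.2 b).ncard ≤ 4 := by
    unfold cellV
    refine (ncard_insert_le _ _).trans ?_
    refine (Nat.add_le_add_right (ncard_insert_le _ _) 1).trans ?_
    refine (Nat.add_le_add_right (Nat.add_le_add_right (ncard_insert_le _ _) 1) 1).trans ?_
    rw [ncard_singleton]
  calc _ ≤ 4 := h5
    _ = rk (M ／ Q) {e', xi, xj, e} := by rw [rk_indep hI4, h4]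
    _ ≤ _ := rk_mono _ hcheap

end

end TST
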