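import Pool.Agent.TST.AlphaM
import Pool.Agent.TST.SGAlpha
import Pool.Agent.TST.SGCell

/-!
# alpha of the host of T-star with missing rows (helper8)

The frame in `M` is only known for the elements which avoid the nodes of the rows `BQ`; `Miss` = rows
which touch these nodes; `Xg` = wall vertices far from the missing rows.
-/

open Set Relation
open scoped Matroid

namespace TST

open BIC Gad EN BICS Mdl

universe u

variable {α : Type u} {X₀ β σ : Type}

section host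

variable {M : Matroid α} {W : RW X₀ β} {el : β → ℕ → α} {ln : σ → ℕ} {N : ℕ}
  {T : Strip W (CI ln) N} {Lm : ℕ} {Sf : Set α} {eL : α → Sym2 (HV (OV X₀ β Lm) σ)} {Q : Set α}
  {BQ : Set β} {u : ℕ} {Ed : CI ln → CI ln → Prop} {Rg : Set α}

/-- nodes of a row outside of the nodes of `BQ` -/
lemma SG.nd_offQ (h : SG M W el T Lm Sf eL Q BQ u Ed Rg) {r : β}
    (h0 : W.nd r 0 ∉ rowV W BQ) (h1 : W.nd r (W.len r) ∉ rowV W BQ) {k : ℕ} (hk : k ≤ W.len r) :
    lab T Lm (W.nd r k) ∉ rowL T Lm BQ := by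
  rintro ⟨v, ⟨r', hr', p, hp, rfl⟩, hv⟩
  have h2 := lab_inj T h.len hp hk hv
  rcases Nat.eq_zero_or_pos k with rfl | hk0
  · exact h0 (h2 ▸ ⟨r', hr', p, hp, rfl⟩)
  rcases hk.lt_or_eq with h3 | rfl
  · rw [W.nd_mid hk0 h3] at h2
    have h4 := (nd_inr h2).1
    exact h0 ⟨r, h4 ▸ hr', 0, Nat.zero_le _, rfl⟩
  · exact h1 (h2 ▸ ⟨r', hr', p, hp, rfl⟩)

/-- elements of a row which does not touch `BQ` -/
lemma SG.el_offQ (h : SG M W el T Lm Sf eL Q BQ u Ed Rg) {r : β}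
    (h0 : W.nd r 0 ∉ rowV W BQ) (h1 : W.nd r (W.len r) ∉ rowV W BQ) {k : ℕ} (hk : k < W.len r) :
    el r k ∈ SfQ T Lm BQ Sf eL := by
  refine ⟨(h.row r k hk).1, fun v hv => ?_⟩
  rw [(h.row r k hk).2, Sym2.mem_iff] at hv
  rcases hv with rfl | rfl
  · exact h.nd_offQ h0 h1 hk.le
  · exact h.nd_offQ h0 h1 hk

/-- the cheap elements avoid the nodes of `BQ` -/
lemma SG.Sh_offQ (h : SG M W el T Lm Sf eL Q BQ u Ed Rg)
    {Lost : Set β} (hL : ∀ r ∉ Lost, W.nd r 0 ∉ rowV W BQ ∧ W.nd r (W.len r) ∉ rowV W BQ) :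
    Sw W el T Lost Rg ⊆ SfQ T Lm BQ Sf eL := by
  rintro e ((⟨r, k, hk, hr, rfl⟩ | ⟨i, k, k1, k2, rfl⟩) | he)
  · exact h.el_offQ (hL r hr).1 (hL r hr).2 hk
  · have h3 := T.lt i
    have h4 : k < W.len (T.R i) := by omega
    have key : ∀ k', T.a i ≤ k' → k' ≤ T.a i + 2 * N + T.m i →
        lab T Lm (W.nd (T.R i) k') ∉ rowL T Lm BQ := by
      rintro k' h1 h2 ⟨v, ⟨r', hr', p, hp, rfl⟩, hv⟩
      have h5 := lab_inj T h.len hp (by omega) hv
      rw [sga_nd i h1 h2] at h5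
      exact h.colQ i ((nd_inr h5).1 ▸ hr')
    refine ⟨(h.row _ k h4).1, fun v hv => ?_⟩
    rw [(h.row _ k h4).2, Sym2.mem_iff] at hv
    rcases hv with rfl | rfl
    · exact key k k1 (by omega)
    · exact key (k + 1) (by omega) (by omega)
  · obtain ⟨h1, i, j, b, _, h2, h3, _, hee⟩ := h.rg e he
    refine ⟨h1, fun v hv => ?_⟩
    rw [hee, Sym2.mem_iff] at hv
    rcases hv with rfl | rfl
    · exact h.cv_off i h2 (by omega)
    · exact h.cv_off j h2 (by omega)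

/-- **Row AL with missing rows**: alpha of the host. -/
theorem SG.alphaM [M.Finite] [Finite β] [Finite X₀] (h : SG M W el T Lm Sf eL Q BQ u Ed Rg)
    (hF : FrmU M (SfQ T Lm BQ Sf eL) eL u) {Miss : Set β} {Xg : Set X₀}
    (hM : ∀ r ∉ Miss, W.nd r 0 ∉ rowV W BQ ∧ W.nd r (W.len r) ∉ rowV W BQ)
    {Lost : Set β} (hL : ∀ r ∉ Lost, W.nd r 0 ∉ rowV W BQ ∧ W.nd r (W.len r) ∉ rowV W BQ)
    (hLg : ∀ r ∉ Lost, W.hd r ∈ Xg ∧ W.tl r ∈ Xg)
    {len : σ → ℕ} (hlen : ∀ s, len s = ln s ∨ len s = 0)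
    (hEd : ∀ i j : CI ln, i.1.1 = j.1.1 → j.1.2 = i.1.2 + 1 → len i.1.1 ≠ 0 → Ed i j)
    (hcov : ∀ r ∉ Lost, ∀ i, T.R i = r → len i.1.1 ≠ 0)
    (hport : ∀ r ∉ Lost, ∀ k, 0 < k → k < W.len r →
      (∀ i, T.R i = r → k < T.a i ∨ T.a i + 2 * N + T.m i < k) →
      (∃ i, T.R i = r ∧ k + 1 = T.a i) ∧ ∃ i, T.R i = r ∧ k = T.a i + 2 * N + T.m i + 1)
    {E₂ : Set α} {k₁ c e₀ : ℕ} (hN : 2 * (k₁ + u + 1) ≤ N)
    (hX : ∀ X ⊆ M.E, Disjoint X E₂ → rk M X + rk M (M.E \ X) < rk M M.E + k₁ →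
      ∃ Bd : Finset β, Bd.card ≤ c ∧ ∀ r ∉ Bd, r ∉ Miss → ∀ k < W.len r, el r k ∉ X)
    (hwall : ∀ Bd : Finset β, Bd.card ≤ c → ∃ Y : Finset X₀, Y.Nonempty ∧
      (∀ x ∈ Y, ∀ y ∈ Y, ReflTransGen (fun a b => a ∈ Y ∧ b ∈ Y ∧ ∃ r, r ∉ Bd ∧ r ∉ Miss ∧
        ((W.hd r = a ∧ W.tl r = b) ∨ (W.hd r = b ∧ W.tl r = a))) x y) ∧
      {x | x ∉ Y ∧ x ∈ Xg}.ncard ≤ e₀)
    (hdeg : ∀ x, {r | W.hd r = x ∨ W.tl r = x}.ncard ≤ 3)
    (hcol : ∀ s, 0 < len s → ∃ Rs : Finset β, c + 3 * e₀ < Rs.card ∧ ∀ r ∈ Rs,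
      (r ∉ Miss ∧ W.hd r ∈ Xg ∧ W.tl r ∈ Xg) ∧ ∃ i : CI ln, i.1.1 = s ∧ T.R i = r) :
    TSK.AlphaA M E₂ (SfQ T Lm BQ Sf eL) eL (hostL (Sh W el T Lost Rg eL) eL N len) N k₁
      {v | ∃ e ∈ Sh W el T Lost Rg eL, Sum.inl v ∈ eL e} (e₀ + (k₁ + u)) := by
  classical
  have hll : ∀ s c, c < len s → c < ln s := by
    intro s c hc
    rcases hlen s with h | h <;> omega
  have hShSf : Sh W el T Lost Rg eL ⊆ SfQ T Lm BQ Sf eL := fun e he => h.Sh_offQ hL he.1
  -- the wall vertices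
  have hA0 := alphaA_of_rowsM W (fun r => (h.len r).1) M E₂ (SfQ T Lm BQ Sf eL) eL
    (hostL (Sh W el T Lost Rg eL) eL N len) (N : ℤ) k₁ c e₀ (lab T Lm) el Miss Xg
    (fun r hr k hk => Or.inr ⟨h.el_offQ (hM r hr).1 (hM r hr).2 hk, (h.row r k hk).2⟩)
    hX hwall hdeg (by
      intro s hs
      obtain ⟨Rs, h1, h2⟩ := hcol s hs
      refine ⟨Rs, h1, fun r hr => ?_⟩
      obtain ⟨hr0, i, rfl, rfl⟩ := h2 r hr
      have hi : i.1.2 < len i.1.1 := by
        have h3 := i.2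
        have h4 : 0 < len i.1.1 := hs
        rcases hlen i.1.1 with h5 | h5 <;> omega
      refine ⟨hr0, i.1.2, hi, fun b b1 b2 b3 => ⟨T.idx i b, ?_, ?_⟩⟩
      · have h3 := idx_mem (T := T) i (b := b) (by omega) (by omega)
        have h4 := T.lt i
        omega
      · exact sga_col i b (by omega) (by omega))
  -- the nodes between two columns
  set A₁ : Set (OV X₀ β Lm) := {v | ∃ r k, r ∉ Lost ∧ 0 < k ∧ k < W.len r ∧
    lab T Lm (Sum.inr (r, k)) = Sum.inl v} with hA₁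
  have hsub : {v | ∃ e ∈ Sh W el T Lost Rg eL, Sum.inl v ∈ eL e} ⊆
      {v | ∃ x ∈ Xg, lab T Lm (Sum.inl x) = Sum.inl v} ∪ A₁ := by
    rintro v ⟨e, ⟨(⟨r, k, hk, hr, rfl⟩ | ⟨i, k, k1, k2, rfl⟩) | he, _⟩, hv⟩
    · have key : ∀ k', k' ≤ W.len r → Sum.inl v = lab T Lm (W.nd r k') →
          v ∈ {v | ∃ x ∈ Xg, lab T Lm (Sum.inl x) = Sum.inl v} ∪ A₁ := by
        intro k' hk' hvk
        rcases Nat.eq_zero_or_pos k' with rfl | h0
        · rw [W.nd_zero] at hvk
          exact Or.inl ⟨_, (hLg r hr).1, hvk.symm⟩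
        · rcases hk'.lt_or_eq with h1 | rfl
          · rw [W.nd_mid h0 h1] at hvk
            exact Or.inr ⟨r, k', hr, h0, h1, hvk.symm⟩
          · rw [W.nd_len (h.len r).1] at hvk
            exact Or.inl ⟨_, (hLg r hr).2, hvk.symm⟩
      rw [(h.row r k hk).2, Sym2.mem_iff] at hv
      rcases hv with hv | hv
      · exact key k hk.le hv
      · exact key (k + 1) hk hv
    · rw [(h.row _ k (by have := T.lt i; omega)).2, Sym2.mem_iff] at hv
      rcases hv with hv | hv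
      · exact absurd hv.symm (sga_not_inl i (by omega) (by omega))
      · exact absurd hv.symm (sga_not_inl i (by omega) (by omega))
    · obtain ⟨_, i, j, b, _, _, _, _, hee⟩ := h.rg e he
      rw [hee, Sym2.mem_iff] at hv
      rcases hv with hv | hv <;> exact absurd hv (by simp [cv])
  have hA0f : {v : OV X₀ β Lm | ∃ x ∈ Xg, lab T Lm (Sum.inl x) = Sum.inl v}.Finite :=
    toFinite _
  have hA1f : A₁.Finite := toFinite _
  rcases A₁.eq_empty_or_nonempty with hemp | ⟨v₀, hv₀⟩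
  · rw [hemp, union_empty] at hsub
    exact hA0.mono hA0f le_rfl hsub (by omega)
  have hport' : ∀ v ∈ A₁, ∃ j j' : CI ln, ∃ r k, v = Sum.inr (r, Fin.ofNat (Lm + 1) k) ∧
      r ∉ Lost ∧ 0 < k ∧ k < W.len r ∧ lab T Lm (W.nd r k) = Sum.inl v ∧ T.R j = r ∧
      k + 1 = T.a j ∧ T.R j' = r ∧ k = T.a j' + 2 * N + T.m j' + 1 := by
    rintro v ⟨r, k, hr, h0, hk, hl⟩
    obtain ⟨h1, h2⟩ := sga_lab_inl hl
    obtain ⟨⟨j, hj, hj2⟩, j', hj', hj2'⟩ := hport r hr k h0 hk h2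
    rw [← W.nd_mid h0 hk] at hl
    exact ⟨j, j', r, k, h1, hr, h0, hk, hl, hj, hj2, hj', hj2'⟩
  have : Nonempty (CI ln) := ⟨(hport' v₀ hv₀).choose⟩
  have : Nonempty β := ⟨(hport' v₀ hv₀).choose_spec.choose_spec.choose⟩
  choose! cf cl rr kk p1 p2 p3 p4 p5 p6 p7 p8 p9 using hport'
  set pt : OV X₀ β Lm → Bool → σ × ℕ × ℤ := fun v t =>
    bif t then ((cl v).1.1, (cl v).1.2, if T.up (cl v) then 1 else -1)
    else ((cf v).1.1, (cf v).1.2, if T.up (cf v) then -1 else 1) with hpt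
  have hgadj : ∀ r ∉ Lost, ∀ k, k < W.len r →
      GAdj (SfQ T Lm BQ Sf eL) eL (lab T Lm (W.nd r k)) (lab T Lm (W.nd r (k + 1))) :=
    fun r hr k hk => ⟨el r k, h.el_offQ (hL r hr).1 (hL r hr).2 hk, (h.row r k hk).2⟩
  have hI : TSK.INL (SfQ T Lm BQ Sf eL) eL (hostL (Sh W el T Lost Rg eL) eL N len) (N : ℤ) A₁ pt := by
    constructor
    · intro v hv t
      cases t
      · show (cf v).1.2 < len (cf v).1.1
        have h1 := hcov (rr v) (p2 v hv) (cf v) (p6 v hv)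
        have h2 := (cf v).2
        rcases hlen (cf v).1.1 with h3 | h3 <;> omega
      · show (cl v).1.2 < len (cl v).1.1
        have h1 := hcov (rr v) (p2 v hv) (cl v) (p8 v hv)
        have h2 := (cl v).2
        rcases hlen (cl v).1.1 with h3 | h3 <;> omega
    · intro v hv t
      cases t
      · show (if T.up (cf v) then (-1 : ℤ) else 1) = 1 ∨ (if T.up (cf v) then (-1 : ℤ) else 1) = -1
        split_ifs <;> simp
      · show (if T.up (cl v) then (1 : ℤ) else -1) = 1 ∨ (if T.up (cl v) then (1 : ℤ) else -1) = -1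
        split_ifs <;> simp
    · intro v hv t
      cases t
      · have h1 := hgadj (rr v) (p2 v hv) (kk v) (p4 v hv)
        rw [p5 v hv] at h1
        have h2 : W.nd (rr v) (kk v + 1) = W.nd (T.R (cf v)) (T.a (cf v)) := by
          rw [p6 v hv, p7 v hv]
        show GAdj (SfQ T Lm BQ Sf eL) eL (Sum.inl v) (Sum.inr ((cf v).1.1, (cf v).1.2,
          (if T.up (cf v) then (-1 : ℤ) else 1) * N))
        rcases sga_first (T := T) (Lm := Lm) (cf v) with ⟨hu, hl⟩ | ⟨hu, hl⟩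
        · rw [h2, hl] at h1
          rw [if_pos hu]
          exact h1
        · rw [h2, hl] at h1
          rw [if_neg hu]
          exact h1
      · have h0 := p9 v hv
        have h4 := p4 v hv
        have h1 := hgadj (rr v) (p2 v hv) (kk v - 1) (by omega)
        have h2 : W.nd (rr v) (kk v - 1 + 1) = W.nd (rr v) (kk v) := by
          rw [show kk v - 1 + 1 = kk v by omega]
        have h3 : W.nd (rr v) (kk v - 1) =
            W.nd (T.R (cl v)) (T.a (cl v) + 2 * N + T.m (cl v)) := by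
          rw [p8 v hv, show kk v - 1 = T.a (cl v) + 2 * N + T.m (cl v) by omega]
        rw [h2, p5 v hv, h3] at h1
        show GAdj (SfQ T Lm BQ Sf eL) eL (Sum.inl v) (Sum.inr ((cl v).1.1, (cl v).1.2,
          (if T.up (cl v) then (1 : ℤ) else -1) * N))
        rcases sga_last (T := T) (Lm := Lm) h.N1 (cl v) with ⟨hu, hl⟩ | ⟨hu, hl⟩
        · rw [hl] at h1
          rw [if_pos hu]
          exact h1.symm
        · rw [hl] at h1
          rw [if_neg hu]
          exact h1.symm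
    · intro v hv w hw t t' he
      have he1 : (pt v t).1 = (pt w t').1 := by rw [he]
      have he2 : (pt v t).2.1 = (pt w t').2.1 := by rw [he]
      have he3 : (pt v t).2.2 = (pt w t').2.2 := by rw [he]
      cases t <;> cases t'
      · have h1 : (cf v).1.1 = (cf w).1.1 := he1
        have h2 : (cf v).1.2 = (cf w).1.2 := he2
        have h3 : cf v = cf w := Subtype.ext (Prod.ext h1 h2)
        have h4 : rr v = rr w := by rw [← p6 v hv, ← p6 w hw, h3]
        have h5 : kk v = kk w := by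
          have a1 := p7 v hv
          have a2 := p7 w hw
          rw [h3] at a1
          omega
        exact ⟨by rw [p1 v hv, p1 w hw, h4, h5], rfl⟩
      · exfalso
        have h1 : (cf v).1.1 = (cl w).1.1 := he1
        have h2 : (cf v).1.2 = (cl w).1.2 := he2
        have h3 : cf v = cl w := Subtype.ext (Prod.ext h1 h2)
        have h4 : (if T.up (cf v) then (-1 : ℤ) else 1) = if T.up (cl w) then 1 else -1 := he3
        rw [h3] at h4
        split_ifs at h4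
      · exfalso
        have h1 : (cl v).1.1 = (cf w).1.1 := he1
        have h2 : (cl v).1.2 = (cf w).1.2 := he2
        have h3 : cl v = cf w := Subtype.ext (Prod.ext h1 h2)
        have h4 : (if T.up (cl v) then (1 : ℤ) else -1) = if T.up (cf w) then -1 else 1 := he3
        rw [h3] at h4
        split_ifs at h4
      · have h1 : (cl v).1.1 = (cl w).1.1 := he1
        have h2 : (cl v).1.2 = (cl w).1.2 := he2
        have h3 : cl v = cl w := Subtype.ext (Prod.ext h1 h2)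
        have h4 : rr v = rr w := by rw [← p8 v hv, ← p8 w hw, h3]
        have h5 : kk v = kk w := by
          have a1 := p9 v hv
          have a2 := p9 w hw
          rw [h3] at a1
          omega
        exact ⟨by rw [p1 v hv, p1 w hw, h4, h5], rfl⟩
  have hJ := hA0.join hF hShSf (h.emb_al hlen hEd) hA0f hA1f hI (by
    have : (2 * (k₁ + u + 1) : ℕ) ≤ N := hN
    omega)
  exact hJ.mono (hA0f.union hA1f) le_rfl hsub le_rfl

end host

end TST
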