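import Pool.Agent.TST.HubMap
import Pool.Agent.TST.HubTree
import Pool.Agent.TST.HostDef
import Pool.Agent.TST.SGAlphaM
import Pool.Agent.EN.LinkF0

/-!
# The hub host (row HB of T-star)
-/

set_option autoImplicit false

open Set Relation
open scoped Matroid

namespace TST

open BIC Gad EN BICS Mdl

universe u

/-! ### images of graphs -/

section maps

variable {α V V' : Type*} {S : Set α} {ends : α → Sym2 V} {π : V → Option V'}

/-- elements between different parts -/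
def Sbt (S : Set α) (ends : α → Sym2 V) (π : V → Option V') : Set α :=
  {e | e ∈ S ∧ ∃ u v P Q, ends e = s(u, v) ∧ π u = some P ∧ π v = some Q ∧ P ≠ Q}

/-- the ends after the contraction -/
noncomputable def emap (ends : α → Sym2 V) (π : V → Option V') (d : V') (e : α) : Sym2 V' :=
  (ends e).map fun w => (π w).getD d

lemma emap_of {d : V'} {e : α} {u v : V} {P Q : V'} (h : ends e = s(u, v)) (hu : π u = some P)
    (hv : π v = some Q) : emap ends π d e = s(P, Q) := by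
  unfold emap
  rw [h, Sym2.map_mk, hu, hv]
  rfl

lemma conn_map {d : V'} {A : Set V} (hA : ∀ v ∈ A, ∃ P, π v = some P) (hc : VConn S ends A) :
    VConn (Sbt S ends π) (emap ends π d) {P | ∃ v ∈ A, π v = some P} := by
  have key : ∀ x y, ReflTransGen (fun x y => GAdj S ends x y ∧ x ∈ A ∧ y ∈ A) x y → ∀ P Q,
      π x = some P → π y = some Q → x ∈ A → ReflTransGen (fun P Q => GAdj (Sbt S ends π)
        (emap ends π d) P Q ∧ P ∈ {P | ∃ v ∈ A, π v = some P} ∧ Q ∈ {P | ∃ v ∈ A, π v = some P})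
        P Q := by
    intro x y h
    induction h with
    | refl =>
      intro P Q hP hQ _
      rw [hP] at hQ
      rw [Option.some.inj hQ]
    | @tail y z _ h2 ih =>
      intro P Q hP hQ hx
      obtain ⟨R, hR⟩ := hA y h2.2.1
      have h3 := ih P R hP hR hx
      by_cases hRQ : R = Q
      · rw [← hRQ]
        exact h3
      · obtain ⟨⟨e, he, hee⟩, hy, hz⟩ := h2
        refine h3.tail ⟨⟨e, ⟨he, y, z, R, Q, hee, hR, hQ, hRQ⟩, emap_of hee hR hQ⟩,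
          ⟨y, hy, hR⟩, ⟨z, hz, hQ⟩⟩
  rintro P ⟨x, hx, hP⟩ Q ⟨y, hy, hQ⟩
  exact key x y (hc x hx y hy) P Q hP hQ hx

lemma vconn_subs {A : Set V} (h : ∀ u ∈ A, ∀ v ∈ A, u = v) : VConn S ends A := by
  intro u hu v hv
  rw [h u hu v hv]

lemma rtg_symmA {A : Set V} {u v : V}
    (h : ReflTransGen (fun x y => GAdj S ends x y ∧ x ∈ A ∧ y ∈ A) u v) :
    ReflTransGen (fun x y => GAdj S ends x y ∧ x ∈ A ∧ y ∈ A) v u := by
  induction h with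
  | refl => exact ReflTransGen.refl
  | tail _ h2 ih => exact ReflTransGen.head ⟨h2.1.symm, h2.2.2, h2.2.1⟩ ih

lemma vconn_base {A : Set V} {r : V}
    (h : ∀ u ∈ A, ReflTransGen (fun x y => GAdj S ends x y ∧ x ∈ A ∧ y ∈ A) u r) :
    VConn S ends A := fun u hu v hv => (h u hu).trans (rtg_symmA (h v hv))

lemma frm_congr {M : Matroid α} {ends₁ : α → Sym2 V} (h : Frm M S ends)
    (he : ∀ e ∈ S, ends₁ e = ends e) : Frm M S ends₁ := by
  have h1 : ∀ W : Set V, ins S ends₁ W = ins S ends W := by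
    intro W
    ext e
    constructor
    · exact fun h1 => ⟨h1.1, fun v hv => h1.2 v (by rw [he e h1.1]; exact hv)⟩
    · exact fun h1 => ⟨h1.1, fun v hv => h1.2 v (by rw [← he e h1.1]; exact hv)⟩
  refine ⟨h.sub, fun v e heS hv => ?_, fun W => ?_⟩
  · rw [h1]
    exact h.star v e heS (by rw [← he e heS]; exact hv)
  · rw [h1]
    exact h.rk W

end maps

/-! ### the hub -/

section hub

variable {α : Type u} {X₀ β σ : Type} {M : Matroid α} {W : RW X₀ β} {el : β → ℕ → α} {ln : σ → ℕ}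
  {N : ℕ} {T : Strip W (CI ln) N} {Lm : ℕ} {Sf : Set α} {eL : α → Sym2 (HV (OV X₀ β Lm) σ)}
  {Q : Set α} {BQ : Set β} {u : ℕ} {Ed : CI ln → CI ln → Prop} {Rg : Set α} {s₀ s₁ : σ} {N' : ℕ}

/-- The sheet `s₁` is a connected hub, every column of the sheet `s₀` is next to it. -/
structure HubS (T : Strip W (CI ln) N) (Ed : CI ln → CI ln → Prop) (s₀ s₁ : σ) : Prop where
  ne : s₁ ≠ s₀
  one : 1 ≤ ln s₁
  con : ∀ j j' : CI ln, j.1.1 = s₁ → j'.1.1 = s₁ →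
    ReflTransGen (fun a b => (Ed a b ∨ Ed b a) ∧ a.1.1 = s₁ ∧ b.1.1 = s₁) j j'
  att : ∀ i : CI ln, i.1.1 = s₀ → ∃ j, j.1.1 = s₁ ∧ (Ed i j ∨ Ed j i)
  inj : ∀ i i' : CI ln, i.1.1 = s₀ → i'.1.1 = s₀ → T.R i = T.R i' → i = i'
  row : ∀ i j : CI ln, i.1.1 = s₀ → j.1.1 = s₁ → T.R i ≠ T.R j

/-- rows without a strand of the hub -/
def NH (T : Strip W (CI ln) N) (s₁ : σ) : Set β := {r | ∀ j : CI ln, j.1.1 = s₁ → T.R j ≠ r}

open Classical in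
/-- sizes of the middle windows -/
noncomputable def mh (T : Strip W (CI ln) N) (s₀ : σ) (c : ℕ) : ℕ :=
  if h : c < ln s₀ then T.m ⟨(s₀, c), h⟩ else 0

lemma mh_eq {c : ℕ} (h : c < ln s₀) : mh T s₀ c = T.m ⟨(s₀, c), h⟩ := by
  unfold mh
  rw [dif_pos h]

/-- the quotient map -/
noncomputable abbrev pq (T : Strip W (CI ln) N) (s₀ s₁ : σ) (N' : ℕ) :
    HV (OV X₀ β Lm) σ → Option (HV Empty Unit) := hq s₀ s₁ (ln s₀) (ln s₁) N N' (mh T s₀)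

/-- elements between the vertices of the two sheets -/
def Scl (T : Strip W (CI ln) N) (Sf : Set α) (eL : α → Sym2 (HV (OV X₀ β Lm) σ)) (s₀ s₁ : σ)
    (N' : ℕ) : Set α := ins Sf eL {v | ∃ P, pq T s₀ s₁ N' v = some P}

/-- elements of the rows of the columns -/
def Sco (el : β → ℕ → α) (T : Strip W (CI ln) N) (Sf : Set α) (eL : α → Sym2 (HV (OV X₀ β Lm) σ))
    (s₀ s₁ : σ) (N' : ℕ) : Set α :=
  {e | e ∈ Scl T Sf eL s₀ s₁ N' ∧ ∃ i : CI ln, i.1.1 = s₀ ∧ e ∈ ColE W el T i}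

/-- the column vertices of a part -/
def Zh (T : Strip W (CI ln) N) (s₀ s₁ : σ) (N' : ℕ) (P : HV Empty Unit) :
    Set (HV (OV X₀ β Lm) σ) := {v | pq T s₀ s₁ N' v = some P ∧ ∃ c b, v = Sum.inr (s₀, c, b)}

lemma SG.colstep (h : SG M W el T Lm Sf eL Q BQ u Ed Rg) (i : CI ln) {ε : ℤ}
    (hε : ε = 1 ∨ ε = -1) {x : ℕ} (hx : 1 ≤ x) (hx' : x + 1 ≤ N) :
    ∃ e ∈ ColE W el T i, e ∈ Sf ∧ eL e = s(cv i (ε * x), cv i (ε * (x + 1 : ℕ))) := by
  have hlt := T.lt i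
  rcases hε with rfl | rfl
  · obtain ⟨k, h1, h2, h3⟩ := lab_step T (Lm := Lm) i (x : ℤ) (Or.inr ⟨by omega, by omega⟩)
    obtain ⟨h4, h5⟩ := h.row (T.R i) k (by omega)
    refine ⟨_, ⟨k, h1, h2, rfl⟩, h4, ?_⟩
    rw [h5, h3, one_mul, one_mul, Nat.cast_add, Nat.cast_one]
  · obtain ⟨k, h1, h2, h3⟩ := lab_step T (Lm := Lm) i (-(x + 1 : ℕ) : ℤ)
      (Or.inl ⟨by omega, by omega⟩)
    obtain ⟨h4, h5⟩ := h.row (T.R i) k (by omega)
    refine ⟨_, ⟨k, h1, h2, rfl⟩, h4, ?_⟩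
    have e1 : (-((x + 1 : ℕ) : ℤ)) + 1 = -x := by push_cast; ring
    rw [h5, h3, Sym2.eq_swap, neg_one_mul, neg_one_mul, e1]

lemma sign_eq {ε ε' : ℤ} {Y Y' : ℕ} (hε : ε = 1 ∨ ε = -1) (hε' : ε' = 1 ∨ ε' = -1) (hY : 1 ≤ Y)
    (hY' : 1 ≤ Y') (h : ε * Y = ε' * Y') : ε = ε' ∧ Y = Y' := by
  rcases hε with rfl | rfl <;> rcases hε' with rfl | rfl
  · exact ⟨rfl, by omega⟩
  · omega
  · omega
  · exact ⟨rfl, by omega⟩

lemma pos_l {K : ℕ} (hK : 1 ≤ K) : 0 < 2 * K * K := by positivity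

section facts

variable (hK : 1 ≤ ln s₀) (hN : N = 2 * ln s₀ * ln s₀ * N')

include hK hN

lemma pq_dom (i : CI ln) (hi : i.1.1 = s₀) {b : ℤ} (h1 : -(N : ℤ) ≤ b) (h2 : b ≤ N + T.m i) :
    ∃ P, pq T s₀ s₁ N' (cv (V := OV X₀ β Lm) i b) = some P := by
  obtain ⟨⟨s, c⟩, hc⟩ := i
  obtain rfl : s = s₀ := hi
  have hc' : c < ln s := hc
  by_cases h0 : b = 0
  · subst h0
    exact ⟨_, hq_zero hc'⟩
  · by_cases h3 : b.natAbs ≤ N
    · obtain ⟨ε, Y, p, e1, e2, e3, e4, rfl⟩ := exists_fw (pos_l hK) h0 (N' := N') (by omega)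
      exact ⟨_, hq_col hN hc' e1 e2 e3 e4⟩
    · exact ⟨_, hq_mid hc' (by omega) (by rw [mh_eq hc']; exact h2)⟩

lemma pq_col {v : HV (OV X₀ β Lm) σ} {P : HV Empty Unit} (h : pq T s₀ s₁ N' v = some P) :
    ∃ (i : CI ln) (b : ℤ), -(N : ℤ) ≤ b ∧ b ≤ N + T.m i ∧ v = cv i b ∧
      (i.1.1 = s₀ ∨ (i.1.1 = s₁ ∧ b ≠ 0 ∧ b.natAbs ≤ N)) := by
  rcases hq_some (pos_l hK) hN h with ⟨c, hc, rfl, -⟩ | ⟨c, hc, b, h1, h2, rfl, -⟩ |
    ⟨c, hc, ε, Y, p, h1, h2, h3, h4, rfl, -⟩ | ⟨c, hc, ε, Y, p, h1, h2, h3, h4, rfl, -⟩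
  · exact ⟨⟨(s₀, c), hc⟩, 0, by omega, by omega, rfl, Or.inl rfl⟩
  · rw [mh_eq hc] at h2
    exact ⟨⟨(s₀, c), hc⟩, b, by omega, by omega, rfl, Or.inl rfl⟩
  · have h5 := fw_bound h1 h2 h3 h4
    exact ⟨⟨(s₀, c), hc⟩, _, by omega, by omega, rfl, Or.inl rfl⟩
  · have h5 := fw_bound h1 h2 h3 h4
    exact ⟨⟨(s₁, c), hc⟩, _, by omega, by omega, rfl, Or.inr ⟨rfl, fw_ne h1, by omega⟩⟩

lemma SG.dom_VQ (h : SG M W el T Lm Sf eL Q BQ u Ed Rg) {v : HV (OV X₀ β Lm) σ}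
    {P : HV Empty Unit} (hv : pq T s₀ s₁ N' v = some P) : v ∉ rowL T Lm BQ := by
  obtain ⟨i, b, h1, h2, rfl, -⟩ := pq_col hK hN hv
  rintro ⟨w, ⟨r, hr, p, hp, rfl⟩, h3⟩
  have h4 := T.idx_range i b h1 h2
  have h5 := T.lt i
  rw [← lab_nd T i b h1 h2] at h3
  have h6 := lab_inj T h.len hp (by omega) h3
  rw [T.nd_col i h4.1 h4.2] at h6
  have h7 : r = T.R i := by
    unfold RW.nd at h6
    split_ifs at h6
    exact (Prod.mk.inj (Sum.inr.inj h6)).1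
  exact h.colQ i (h7 ▸ hr)

lemma SG.scl_Q (h : SG M W el T Lm Sf eL Q BQ u Ed Rg) {e : α} (he : e ∈ Scl T Sf eL s₀ s₁ N') :
    e ∉ Q := by
  intro heQ
  obtain ⟨r, hr, p, hp, rfl⟩ := h.Q_Sf ⟨heQ, he.1⟩
  obtain ⟨-, h1⟩ := h.row r p hp
  obtain ⟨P, hP⟩ := he.2 (lab T Lm (W.nd r p)) (by rw [h1]; simp)
  exact h.dom_VQ hK hN hP ⟨_, ⟨r, hr, p, hp.le, rfl⟩, rfl⟩

lemma SG.scl_offQ (h : SG M W el T Lm Sf eL Q BQ u Ed Rg) :
    Scl T Sf eL s₀ s₁ N' ⊆ SfQ T Lm BQ Sf eL := by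
  rintro e ⟨he, he2⟩
  refine ⟨he, fun v hv => ?_⟩
  obtain ⟨P, hP⟩ := he2 v hv
  exact h.dom_VQ hK hN hP

lemma SG.frmc [M.Finite] (h : SG M W el T Lm Sf eL Q BQ u Ed Rg) :
    Frm (M ／ Q) (Scl T Sf eL s₀ s₁ N') eL := by
  have h1 : Scl T Sf eL s₀ s₁ N' ⊆ SQ (rowL T Lm BQ) Sf eL := by
    rintro e ⟨he, he2⟩
    obtain ⟨v, hv⟩ := exists_mem_ends eL e
    obtain ⟨P, hP⟩ := he2 v hv
    exact ⟨he, v, hv, h.dom_VQ hK hN hP⟩
  refine frm_congr (h.frm.mono h1) ?_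
  intro e he
  unfold eQ
  rw [dif_neg]
  rintro ⟨v, w, h2, h3, h4⟩
  obtain ⟨P, hP⟩ := he.2 w (by rw [h2]; simp)
  exact h.dom_VQ hK hN hP h4

end facts

/-- vertices of a nonzero window -/
lemma SG.rung (h : SG M W el T Lm Sf eL Q BQ u Ed Rg) {i j : CI ln} (hij : Ed i j ∨ Ed j i) {b : ℤ}
    (hb : b ≠ 0) (hb' : b.natAbs ≤ N) {P P' : HV Empty Unit}
    (hi : pq T s₀ s₁ N' (cv (V := OV X₀ β Lm) i b) = some P)
    (hj : pq T s₀ s₁ N' (cv (V := OV X₀ β Lm) j b) = some P') :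
    GAdj (Scl T Sf eL s₀ s₁ N') eL (cv i b) (cv j b) := by
  rcases hij with hij | hij
  · obtain ⟨e, he, hee⟩ := h.rg_ex i j hij b (by omega) (by omega) hb
    refine ⟨e, ⟨(h.rg e he).1, ?_⟩, hee⟩
    intro v hv
    rw [hee] at hv
    rcases Sym2.mem_iff.1 hv with rfl | rfl
    · exact ⟨P, hi⟩
    · exact ⟨P', hj⟩
  · obtain ⟨e, he, hee⟩ := h.rg_ex j i hij b (by omega) (by omega) hb
    refine ⟨e, ⟨(h.rg e he).1, ?_⟩, by rw [hee, Sym2.eq_swap]⟩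
    intro v hv
    rw [hee] at hv
    rcases Sym2.mem_iff.1 hv with rfl | rfl
    · exact ⟨P', hj⟩
    · exact ⟨P, hi⟩

section conn

variable (hK : 1 ≤ ln s₀) (hN : N = 2 * ln s₀ * ln s₀ * N')

include hK hN

/-- the column vertices of a part are a path or one vertex -/
lemma SG.zh_conn (h : SG M W el T Lm Sf eL Q BQ u Ed Rg) (hne : s₁ ≠ s₀) (P : HV Empty Unit) :
    VConn (Sco el T Sf eL s₀ s₁ N') eL (Zh (Lm := Lm) T s₀ s₁ N' P) := by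
  have hl := pos_l hK
  by_cases hA : ∃ c < ln s₀, ∃ (ε : ℤ) (Y : ℕ), (ε = 1 ∨ ε = -1) ∧ 1 ≤ Y ∧ Y ≤ N' ∧
      P = Sum.inr ((), c, ε * Y)
  · obtain ⟨c, hc, ε, Y, hε, hY, hY', rfl⟩ := hA
    have h1 : Zh (Lm := Lm) T s₀ s₁ N' (Sum.inr ((), c, ε * (Y : ℤ))) =
        (fun p : ℕ => (Sum.inr (s₀, c, fw (2 * ln s₀ * ln s₀) ε Y p) : HV (OV X₀ β Lm) σ)) ''
          {p | p ≤ 2 * ln s₀ * ln s₀ - 1} := by
      ext v
      constructor
      · rintro ⟨hv, c', b', hvv⟩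
        rcases hq_some hl hN hv with ⟨c₁, hc₁, rfl, h2⟩ | ⟨c₁, hc₁, b, h3, h4, rfl, h2⟩ |
          ⟨c₁, hc₁, ε₁, Y₁, p, h3, h4, h5, h6, rfl, h2⟩ |
          ⟨c₁, hc₁, ε₁, Y₁, p, h3, h4, h5, h6, rfl, h2⟩
        · exfalso
          have h7 : ε * (Y : ℤ) = 0 := (Prod.mk.inj (Prod.mk.inj (Sum.inr.inj h2)).2).2
          rcases hε with rfl | rfl <;> omega
        · exfalso
          have h7 : ε * (Y : ℤ) = b - N + N' := (Prod.mk.inj (Prod.mk.inj (Sum.inr.inj h2)).2).2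
          rcases hε with rfl | rfl <;> omega
        · have h7 := (Prod.mk.inj (Prod.mk.inj (Sum.inr.inj h2)).2)
          obtain ⟨rfl, rfl⟩ := sign_eq hε h3 hY h4 h7.2
          refine ⟨p, by show p ≤ _; omega, ?_⟩
          rw [h7.1]
        · exact absurd (Prod.mk.inj (Sum.inr.inj hvv)).1 hne
      · rintro ⟨p, hp, rfl⟩
        have hp' : p ≤ 2 * ln s₀ * ln s₀ - 1 := hp
        exact ⟨hq_col hN hc hε hY hY' (by omega), c, _, rfl⟩
    rw [h1]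
    refine vconn_path _ _ ?_
    intro p hp
    have hb : (Y - 1) * (2 * ln s₀ * ln s₀) + p + 1 + 1 ≤ N := by
      have := fw_bound (l := 2 * ln s₀ * ln s₀) hε hY hY' (p := p + 1) (by omega)
      rw [fw_natAbs hε] at this
      omega
    obtain ⟨e, he1, he2, he3⟩ := h.colstep ⟨(s₀, c), hc⟩ hε
      (x := (Y - 1) * (2 * ln s₀ * ln s₀) + p + 1) (by omega) hb
    have he4 : eL e = s(Sum.inr (s₀, c, fw (2 * ln s₀ * ln s₀) ε Y p),
        Sum.inr (s₀, c, fw (2 * ln s₀ * ln s₀) ε Y (p + 1))) := by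
      rw [he3]
      unfold fw cv
      have e1 : (Y - 1) * (2 * ln s₀ * ln s₀) + p + 1 + 1 =
        (Y - 1) * (2 * ln s₀ * ln s₀) + (p + 1) + 1 := by ring
      rw [e1]
    refine ⟨e, ⟨⟨he2, ?_⟩, _, rfl, he1⟩, he4⟩
    intro v hv
    rw [he4] at hv
    rcases Sym2.mem_iff.1 hv with rfl | rfl
    · exact ⟨_, hq_col hN hc hε hY hY' (by omega)⟩
    · exact ⟨_, hq_col hN hc hε hY hY' (by omega)⟩
  · refine vconn_subs ?_
    have key : ∀ v ∈ Zh (Lm := Lm) T s₀ s₁ N' P, ∃ c b, v = Sum.inr (s₀, c, b) ∧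
        ((b = 0 ∧ P = Sum.inr ((), c, 0)) ∨ ((N : ℤ) < b ∧ P = Sum.inr ((), c, b - N + N'))) := by
      rintro v ⟨hv, c', b', hvv⟩
      rcases hq_some hl hN hv with ⟨c₁, hc₁, rfl, h2⟩ | ⟨c₁, hc₁, b, h3, h4, rfl, h2⟩ |
          ⟨c₁, hc₁, ε₁, Y₁, p, h3, h4, h5, h6, rfl, h2⟩ |
          ⟨c₁, hc₁, ε₁, Y₁, p, h3, h4, h5, h6, rfl, h2⟩
      · exact ⟨c₁, 0, rfl, Or.inl ⟨rfl, h2⟩⟩
      · exact ⟨c₁, b, rfl, Or.inr ⟨h3, h2⟩⟩
      · exact absurd ⟨c₁, hc₁, ε₁, Y₁, h3, h4, h5, h2⟩ hA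
      · exact absurd (Prod.mk.inj (Sum.inr.inj hvv)).1 hne
    intro v hv v' hv'
    obtain ⟨c, b, rfl, h1⟩ := key v hv
    obtain ⟨c', b', rfl, h2⟩ := key v' hv'
    rcases h1 with ⟨h1, h3⟩ | ⟨h1, h3⟩ <;> rcases h2 with ⟨h2, h4⟩ | ⟨h2, h4⟩ <;>
      rw [h3] at h4 <;> have h5 := (Prod.mk.inj (Prod.mk.inj (Sum.inr.inj h4)).2)
    · rw [h1, h2, h5.1]
    · have := h5.2
      omega
    · have := h5.2
      omega
    · have h6 : b = b' := by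
        have := h5.2
        omega
      rw [h6, h5.1]

/-- the parts are connected -/
lemma SG.part_conn (h : SG M W el T Lm Sf eL Q BQ u Ed Rg) (hs : HubS T Ed s₀ s₁)
    (P : HV Empty Unit) : VConn (Scl T Sf eL s₀ s₁ N') eL (prt (pq (Lm := Lm) T s₀ s₁ N') P) := by
  have hl := pos_l hK
  have hZ := h.zh_conn hK hN hs.ne P
  have hZ' : VConn (Scl T Sf eL s₀ s₁ N') eL (Zh (Lm := Lm) T s₀ s₁ N' P) := by
    intro v hv v' hv'
    refine ReflTransGen.mono ?_ _ _ (hZ v hv v' hv')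
    rintro x y ⟨⟨e, he, hee⟩, h1, h2⟩
    exact ⟨⟨e, he.1, hee⟩, h1, h2⟩
  have hsub : Zh (Lm := Lm) T s₀ s₁ N' P ⊆ prt (pq T s₀ s₁ N') P := fun v hv => hv.1
  by_cases hA : ∃ c < ln s₀, ∃ (ε : ℤ) (Y : ℕ), (ε = 1 ∨ ε = -1) ∧ 1 ≤ Y ∧ Y ≤ N' ∧
      P = Sum.inr ((), c, ε * Y)
  · obtain ⟨c, hc, ε, Y, hε, hY, hY', rfl⟩ := hA
    have hbase : (Sum.inr (s₀, c, fw (2 * ln s₀ * ln s₀) ε Y 0) : HV (OV X₀ β Lm) σ) ∈
        Zh (Lm := Lm) T s₀ s₁ N' (Sum.inr ((), c, ε * (Y : ℤ))) :=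
      ⟨hq_col hN hc hε hY hY' hl, c, _, rfl⟩
    refine vconn_base (r := Sum.inr (s₀, c, fw (2 * ln s₀ * ln s₀) ε Y 0)) ?_
    intro v hv
    by_cases hvZ : v ∈ Zh (Lm := Lm) T s₀ s₁ N' (Sum.inr ((), c, ε * (Y : ℤ)))
    · exact rtg_mono hsub (hZ' v hvZ _ hbase)
    · have hv' : pq T s₀ s₁ N' v = some (Sum.inr ((), c, ε * (Y : ℤ))) := hv
      rcases hq_some hl hN hv' with ⟨c₁, hc₁, rfl, h2⟩ | ⟨c₁, hc₁, b, h3, h4, rfl, h2⟩ |
          ⟨c₁, hc₁, ε₁, Y₁, p, h3, h4, h5, h6, rfl, h2⟩ |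
          ⟨j, hj, ε₁, Y₁, p, h3, h4, h5, h6, rfl, h2⟩
      · exact absurd ⟨hv', c₁, _, rfl⟩ hvZ
      · exact absurd ⟨hv', c₁, _, rfl⟩ hvZ
      · exact absurd ⟨hv', c₁, _, rfl⟩ hvZ
      · have h7 := (Prod.mk.inj (Prod.mk.inj (Sum.inr.inj h2)).2)
        obtain ⟨rfl, rfl⟩ := sign_eq hε h3 hY h4 h7.2
        have hac : asg (ln s₀) p = c := h7.1.symm
        obtain ⟨b, hb⟩ : ∃ b, b = fw (2 * ln s₀ * ln s₀) ε Y p := ⟨_, rfl⟩
        have hb0 : b ≠ 0 := by rw [hb]; exact fw_ne hε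
        have hbN : b.natAbs ≤ N := by
          rw [hb, hN]
          exact fw_bound hε hY hY' h6
        have hin : ∀ i : CI ln, i.1.1 = s₁ → pq T s₀ s₁ N' (cv (V := OV X₀ β Lm) i b) =
            some (Sum.inr ((), c, ε * (Y : ℤ))) := by
          intro i hi
          obtain ⟨⟨s, c'⟩, hc'⟩ := i
          obtain rfl : s = s₁ := hi
          rw [hb, ← hac]
          exact hq_hub hs.ne hN hc' hε hY hY' h6
        have hcol : pq T s₀ s₁ N' (cv (V := OV X₀ β Lm) (⟨(s₀, c), hc⟩ : CI ln) b) =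
            some (Sum.inr ((), c, ε * (Y : ℤ))) := by
          rw [hb]
          exact hq_col hN hc hε hY hY' h6
        obtain ⟨j', hj', hatt⟩ := hs.att ⟨(s₀, c), hc⟩ rfl
        have hpath := hs.con ⟨(s₁, j), hj⟩ j' rfl hj'
        have key : ∀ x : CI ln, ReflTransGen (fun a b => (Ed a b ∨ Ed b a) ∧ a.1.1 = s₁ ∧
            b.1.1 = s₁) ⟨(s₁, j), hj⟩ x → ReflTransGen (fun x y => GAdj (Scl T Sf eL s₀ s₁ N') eL x y ∧
              x ∈ prt (pq (Lm := Lm) T s₀ s₁ N') (Sum.inr ((), c, ε * (Y : ℤ))) ∧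
              y ∈ prt (pq (Lm := Lm) T s₀ s₁ N') (Sum.inr ((), c, ε * (Y : ℤ))))
              (cv ⟨(s₁, j), hj⟩ b) (cv x b) := by
          intro x hx
          induction hx with
          | refl => exact ReflTransGen.refl
          | tail _ h8 ih =>
            exact ih.tail ⟨h.rung h8.1 hb0 hbN (hin _ h8.2.1) (hin _ h8.2.2), hin _ h8.2.1,
              hin _ h8.2.2⟩
        have h8 := key j' hpath
        have h9 := h8.tail (c := cv (⟨(s₀, c), hc⟩ : CI ln) b) ⟨h.rung hatt.symm hb0 hbN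
          (hin _ hj') hcol, hin _ hj', hcol⟩
        have h10 := h9.trans (rtg_mono hsub (hZ' _ (show cv (⟨(s₀, c), hc⟩ : CI ln) b ∈ Zh (Lm := Lm) T s₀ s₁ N' (Sum.inr ((), c, ε * (Y : ℤ))) from
          ⟨hcol, c, b, rfl⟩) _ hbase))
        rw [← hb]
        exact h10
  · have h1 : prt (pq (Lm := Lm) T s₀ s₁ N') P ⊆ Zh (Lm := Lm) T s₀ s₁ N' P := by
      intro v hv
      have hv' : pq T s₀ s₁ N' v = some P := hv
      rcases hq_some hl hN hv' with ⟨c₁, hc₁, rfl, h2⟩ | ⟨c₁, hc₁, b, h3, h4, rfl, h2⟩ |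
          ⟨c₁, hc₁, ε₁, Y₁, p, h3, h4, h5, h6, rfl, h2⟩ |
          ⟨j, hj, ε₁, Y₁, p, h3, h4, h5, h6, rfl, h2⟩
      · exact ⟨hv', c₁, _, rfl⟩
      · exact ⟨hv', c₁, _, rfl⟩
      · exact ⟨hv', c₁, _, rfl⟩
      · exact absurd ⟨_, asg_lt h6, ε₁, Y₁, h3, h4, h5, h2⟩ hA
    rw [Subset.antisymm h1 hsub]
    exact hZ'

end conn

/-! ### the host -/

/-- the hub host -/
def Hh (K : ℕ) : Host Empty Unit where
  len _ := K
  A _ _ := False
  aL _ _ _ := False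
  aR _ _ _ := False
  gd _ := True

/-- all elements of the hub host -/
abbrev Shf (T : Strip W (CI ln) N) (Sf : Set α) (eL : α → Sym2 (HV (OV X₀ β Lm) σ)) (s₀ s₁ : σ)
    (N' : ℕ) : Set α := Sbt Sf eL (pq T s₀ s₁ N')

/-- the ends in the hub host -/
noncomputable abbrev ehh (T : Strip W (CI ln) N) (eL : α → Sym2 (HV (OV X₀ β Lm) σ)) (s₀ s₁ : σ)
    (N' : ℕ) : α → Sym2 (HV Empty Unit) := emap eL (pq T s₀ s₁ N') (Sum.inr ((), 0, 0))

/-- the cheap elements of the hub host -/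
def Shh (T : Strip W (CI ln) N) (Sf : Set α) (eL : α → Sym2 (HV (OV X₀ β Lm) σ)) (s₀ s₁ : σ)
    (N' : ℕ) : Set α :=
  {e | e ∈ Shf T Sf eL s₀ s₁ N' ∧ ∀ P ∈ ehh T eL s₀ s₁ N' e, NZ (Hh (ln s₀)) N' P}

lemma Shf_scl {e : α} (he : e ∈ Shf T Sf eL s₀ s₁ N') : e ∈ Scl T Sf eL s₀ s₁ N' := by
  obtain ⟨h1, u, v, P, P', h2, h3, h4, -⟩ := he
  refine ⟨h1, fun w hw => ?_⟩
  rw [h2] at hw
  rcases Sym2.mem_iff.1 hw with rfl | rfl
  · exact ⟨P, h3⟩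
  · exact ⟨P', h4⟩

section host2

variable (hK : 1 ≤ ln s₀) (hN : N = 2 * ln s₀ * ln s₀ * N')

include hK hN

omit hK hN in
lemma nz_fw {c : ℕ} (hc : c < ln s₀) {ε : ℤ} {Y : ℕ} (hε : ε = 1 ∨ ε = -1) (hY : 1 ≤ Y)
    (hY' : Y ≤ N') : NZ (Hh (ln s₀)) N' (Sum.inr ((), c, ε * (Y : ℤ)) : HV Empty Unit) := by
  refine ⟨hc, ?_, ?_, ?_⟩ <;> rcases hε with rfl | rfl <;> omega

/-- columns -/
lemma SG.adj_col (h : SG M W el T Lm Sf eL Q BQ u Ed Rg) {c : ℕ} (hc : c < ln s₀) {ε : ℤ} {Y : ℕ}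
    (hε : ε = 1 ∨ ε = -1) (hY : 1 ≤ Y) (hY' : Y + 1 ≤ N') :
    GAdj (Shh T Sf eL s₀ s₁ N') (ehh T eL s₀ s₁ N') (Sum.inr ((), c, ε * (Y : ℤ)))
      (Sum.inr ((), c, ε * ((Y + 1 : ℕ) : ℤ))) := by
  have hl := pos_l hK
  have e0 : (Y - 1) * (2 * ln s₀ * ln s₀) + (2 * ln s₀ * ln s₀ - 1) + 1 =
      Y * (2 * ln s₀ * ln s₀) := by
    obtain ⟨y, rfl⟩ : ∃ y, Y = y + 1 := ⟨Y - 1, by omega⟩
    rw [Nat.add_sub_cancel, add_mul, one_mul]
    omega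
  have hb : Y * (2 * ln s₀ * ln s₀) + 1 ≤ N := by
    have h1 : (Y + 1) * (2 * ln s₀ * ln s₀) ≤ N' * (2 * ln s₀ * ln s₀) :=
      Nat.mul_le_mul_right _ hY'
    rw [add_mul, one_mul] at h1
    have h2 : N' * (2 * ln s₀ * ln s₀) = N := by rw [hN]; ring
    omega
  have hY1 : 1 ≤ Y * (2 * ln s₀ * ln s₀) := Nat.mul_pos hY hl
  obtain ⟨e, he1, he2, he3⟩ := h.colstep ⟨(s₀, c), hc⟩ hε
    (x := Y * (2 * ln s₀ * ln s₀)) hY1 hb
  have he4 : eL e = s(Sum.inr (s₀, c, fw (2 * ln s₀ * ln s₀) ε Y (2 * ln s₀ * ln s₀ - 1)),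
      Sum.inr (s₀, c, fw (2 * ln s₀ * ln s₀) ε (Y + 1) 0)) := by
    rw [he3]
    unfold fw cv
    rw [e0, Nat.add_sub_cancel, add_zero]
  have h1 := hq_col (V := OV X₀ β Lm) (s₀ := s₀) (s₁ := s₁) (K₁ := ln s₁) (m := mh T s₀) hN hc hε hY
    (by omega) (show 2 * ln s₀ * ln s₀ - 1 < 2 * ln s₀ * ln s₀ by omega)
  have h2 := hq_col (V := OV X₀ β Lm) (s₀ := s₀) (s₁ := s₁) (K₁ := ln s₁) (m := mh T s₀) hN hc hε
    (show 1 ≤ Y + 1 by omega) hY' hl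
  have h3 : (Sum.inr ((), c, ε * (Y : ℤ)) : HV Empty Unit) ≠
      Sum.inr ((), c, ε * ((Y + 1 : ℕ) : ℤ)) := by
    intro h3
    have h4 := (Prod.mk.inj (Prod.mk.inj (Sum.inr.inj h3)).2).2
    rcases hε with rfl | rfl <;> omega
  have h5 := emap_of (d := (Sum.inr ((), 0, 0) : HV Empty Unit)) he4 h1 h2
  refine ⟨e, ⟨⟨he2, _, _, _, _, he4, h1, h2, h3⟩, ?_⟩, h5⟩
  intro P hP
  have hP' : P ∈ emap eL (pq T s₀ s₁ N') (Sum.inr ((), 0, 0)) e := hP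
  rw [h5] at hP'
  rcases Sym2.mem_iff.1 hP' with rfl | rfl
  · exact nz_fw hc hε hY (by omega)
  · exact nz_fw hc hε (by omega) hY'

/-- all columns are adjacent in every window -/
lemma SG.adj_hub (h : SG M W el T Lm Sf eL Q BQ u Ed Rg) (hs : HubS T Ed s₀ s₁) {c c' : ℕ}
    (hc : c < ln s₀) (hc' : c' < ln s₀) (hcc : c ≠ c') {ε : ℤ} {Y : ℕ}
    (hε : ε = 1 ∨ ε = -1) (hY : 1 ≤ Y) (hY' : Y ≤ N') :
    GAdj (Shh T Sf eL s₀ s₁ N') (ehh T eL s₀ s₁ N') (Sum.inr ((), c, ε * (Y : ℤ)))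
      (Sum.inr ((), c', ε * (Y : ℤ))) := by
  have hl := pos_l hK
  obtain ⟨p, hp, ha, ha'⟩ := asg_pair hc hc'
  have hb : (Y - 1) * (2 * ln s₀ * ln s₀) + p + 1 + 1 ≤ N := by
    have := fw_bound (l := 2 * ln s₀ * ln s₀) hε hY hY' (p := p + 1) hp
    rw [fw_natAbs hε] at this
    omega
  obtain ⟨e, he1, he2, he3⟩ := h.colstep ⟨(s₁, 0), hs.one⟩ hε
    (x := (Y - 1) * (2 * ln s₀ * ln s₀) + p + 1) (by omega) hb
  have he4 : eL e = s(Sum.inr (s₁, 0, fw (2 * ln s₀ * ln s₀) ε Y p),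
      Sum.inr (s₁, 0, fw (2 * ln s₀ * ln s₀) ε Y (p + 1))) := by
    rw [he3]
    unfold fw cv
    have e1 : (Y - 1) * (2 * ln s₀ * ln s₀) + p + 1 + 1 =
      (Y - 1) * (2 * ln s₀ * ln s₀) + (p + 1) + 1 := by ring
    rw [e1]
  have h1 := hq_hub (V := OV X₀ β Lm) (s₀ := s₀) (s₁ := s₁) (K₁ := ln s₁) (m := mh T s₀) hs.ne hN
    hs.one hε hY hY' (show p < 2 * ln s₀ * ln s₀ by omega)
  have h2 := hq_hub (V := OV X₀ β Lm) (s₀ := s₀) (s₁ := s₁) (K₁ := ln s₁) (m := mh T s₀) hs.ne hN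
    hs.one hε hY hY' hp
  rw [ha] at h1
  rw [ha'] at h2
  have h3 : (Sum.inr ((), c, ε * (Y : ℤ)) : HV Empty Unit) ≠ Sum.inr ((), c', ε * (Y : ℤ)) := by
    intro h3
    exact hcc (Prod.mk.inj (Prod.mk.inj (Sum.inr.inj h3)).2).1
  have h5 := emap_of (d := (Sum.inr ((), 0, 0) : HV Empty Unit)) he4 h1 h2
  refine ⟨e, ⟨⟨he2, _, _, _, _, he4, h1, h2, h3⟩, ?_⟩, h5⟩
  intro P hP
  have hP' : P ∈ emap eL (pq T s₀ s₁ N') (Sum.inr ((), 0, 0)) e := hP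
  rw [h5] at hP'
  rcases Sym2.mem_iff.1 hP' with rfl | rfl
  · exact nz_fw hc hε hY hY'
  · exact nz_fw hc' hε hY hY'

lemma SG.emb_hub (h : SG M W el T Lm Sf eL Q BQ u Ed Rg) (hs : HubS T Ed s₀ s₁) :
    Emb (Shh T Sf eL s₀ s₁ N') (ehh T eL s₀ s₁ N') (Hh (ln s₀)) N' id := by
  have key : ∀ P P' : HV Empty Unit, NZ (Hh (ln s₀)) N' P → NZ (Hh (ln s₀)) N' P' →
      (Hh (ln s₀)).E N' P P' → GAdj (Shh T Sf eL s₀ s₁ N') (ehh T eL s₀ s₁ N') P P' := by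
    rintro (P | ⟨⟨⟩, c, b⟩) (P' | ⟨⟨⟩, c', b'⟩) h1 h2 h3
    · exact P.elim
    · exact P.elim
    · exact P'.elim
    · obtain ⟨h4, h5, h6, h7⟩ := h1
      obtain ⟨h4', h5', h6', h7'⟩ := h2
      obtain ⟨-, -, -, -, h3⟩ := h3
      have hc : c < ln s₀ := h4
      have hc' : c' < ln s₀ := h4'
      rcases h3 with ⟨rfl, rfl⟩ | ⟨rfl, rfl, -⟩
      · rcases lt_or_gt_of_ne h7 with h8 | h8
        · have h9 := h.adj_col (s₁ := s₁) hK hN hc (ε := -1) (Y := (-(b + 1)).toNat) (Or.inr rfl)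
            (by omega) (by omega)
          have e1 : (-1 : ℤ) * (((-(b + 1)).toNat : ℕ) : ℤ) = b + 1 := by omega
          have e2 : (-1 : ℤ) * (((-(b + 1)).toNat + 1 : ℕ) : ℤ) = b := by push_cast; omega
          rw [e1, e2] at h9
          exact h9.symm
        · have h9 := h.adj_col (s₁ := s₁) hK hN hc (ε := 1) (Y := b.toNat) (Or.inl rfl)
            (by omega) (by omega)
          have e1 : (1 : ℤ) * ((b.toNat : ℕ) : ℤ) = b := by omega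
          have e2 : (1 : ℤ) * ((b.toNat + 1 : ℕ) : ℤ) = b + 1 := by push_cast; omega
          rw [e1, e2] at h9
          exact h9
      · rcases lt_or_gt_of_ne h7 with h8 | h8
        · have h9 := h.adj_hub hK hN hs hc hc' (by omega) (ε := -1) (Y := (-b').toNat) (Or.inr rfl)
            (by omega) (by omega)
          have e1 : (-1 : ℤ) * (((-b').toNat : ℕ) : ℤ) = b' := by omega
          rw [e1] at h9
          exact h9
        · have h9 := h.adj_hub hK hN hs hc hc' (by omega) (ε := 1) (Y := b'.toNat) (Or.inl rfl)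
            (by omega) (by omega)
          have e1 : (1 : ℤ) * ((b'.toNat : ℕ) : ℤ) = b' := by omega
          rw [e1] at h9
          exact h9
  refine ⟨fun _ _ _ _ h1 => h1, ?_⟩
  rintro P P' h1 h2 (h3 | h3)
  · exact key P P' h1 h2 h3
  · exact (key P' P h2 h1 h3).symm

lemma SG.col0_hub (h : SG M W el T Lm Sf eL Q BQ u Ed Rg) (hN' : 1 ≤ N') :
    TSK.Col0 (Shf T Sf eL s₀ s₁ N') (ehh T eL s₀ s₁ N') (Hh (ln s₀)) N' := by
  rintro ⟨⟩ c hc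
  have hc' : c < ln s₀ := hc
  have hl := pos_l hK
  have hlt := T.lt ⟨(s₀, c), hc'⟩
  obtain ⟨h1, h2, h3⟩ := lab_mid T (Lm := Lm) (S := Sf) (eL := eL) h.N1 ⟨(s₀, c), hc'⟩
    (fun k _ hk2 => h.row _ k (by omega))
  have hmid : ∀ b : ℤ, (b = 0 ∨ ((N : ℤ) < b ∧ b ≤ N + T.m ⟨(s₀, c), hc'⟩)) →
      pq T s₀ s₁ N' (Sum.inr (s₀, c, b) : HV (OV X₀ β Lm) σ) =
        some (Sum.inr ((), c, if b = 0 then 0 else b - N + N')) := by
    rintro b (rfl | ⟨g1, g2⟩)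
    · rw [if_pos rfl]
      exact hq_zero hc'
    · rw [if_neg (by omega)]
      exact hq_mid hc' g1 (by rw [mh_eq hc']; exact g2)
  have hset : {P | ∃ v ∈ MidS (V := OV X₀ β Lm) N s₀ c (T.m ⟨(s₀, c), hc'⟩),
      pq T s₀ s₁ N' v = some P} = TSK.Mid (N' : ℤ) () c (T.m ⟨(s₀, c), hc'⟩) := by
    ext P
    constructor
    · rintro ⟨_, ⟨b, rfl, hb⟩, hP⟩
      rw [hmid b hb] at hP
      rw [← Option.some.inj hP]
      refine ⟨_, rfl, ?_⟩
      rcases hb with rfl | hb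
      · rw [if_pos rfl]
        exact Or.inl rfl
      · rw [if_neg (by omega)]
        exact Or.inr ⟨by omega, by omega⟩
    · rintro ⟨b, rfl, hb⟩
      refine ⟨Sum.inr (s₀, c, if b = 0 then 0 else b - N' + N), ⟨_, rfl, ?_⟩, ?_⟩
      · split_ifs
        · exact Or.inl rfl
        · exact Or.inr ⟨by omega, by omega⟩
      · rw [hmid _ (by
          split_ifs
          · exact Or.inl rfl
          · exact Or.inr ⟨by omega, by omega⟩)]
        congr 4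
        split_ifs
        all_goals omega
  have hend : ∀ ε : ℤ, ε = 1 ∨ ε = -1 → pq T s₀ s₁ N' (Sum.inr (s₀, c, ε) : HV (OV X₀ β Lm) σ) =
      some (Sum.inr ((), c, ε)) := by
    intro ε hε
    have h4 := hq_col (V := OV X₀ β Lm) (s₀ := s₀) (s₁ := s₁) (K₁ := ln s₁) (m := mh T s₀) hN hc' hε
      (Y := 1) (p := 0) le_rfl hN' hl
    have e1 : fw (2 * ln s₀ * ln s₀) ε 1 0 = ε := by
      unfold fw
      simp
    rw [e1, Nat.cast_one, mul_one] at h4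
    exact h4
  refine ⟨T.m ⟨(s₀, c), hc'⟩, ?_, ?_, ?_⟩
  · have h4 := conn_map (π := pq (Lm := Lm) T s₀ s₁ N') (d := (Sum.inr ((), 0, 0) : HV Empty Unit))
      (A := MidS N s₀ c (T.m ⟨(s₀, c), hc'⟩)) (by
        rintro _ ⟨b, rfl, hb⟩
        exact ⟨_, hmid b hb⟩) h1
    rw [hset] at h4
    exact h4
  · obtain ⟨e, he, a, ha, _, ⟨b, rfl, hb⟩, hee⟩ := h2
    rw [mem_singleton_iff] at ha
    subst ha
    have g1 := hend (-1) (Or.inr rfl)
    have g2 := hmid b hb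
    have g3 := emap_of (d := (Sum.inr ((), 0, 0) : HV Empty Unit)) hee g1 g2
    refine ⟨e, ⟨he, _, _, _, _, hee, g1, g2, ?_⟩, _, rfl, _, ?_, g3⟩
    · intro g4
      have := (Prod.mk.inj (Prod.mk.inj (Sum.inr.inj g4)).2).2
      split_ifs at this <;> omega
    · rw [← hset]
      exact ⟨_, ⟨b, rfl, hb⟩, g2⟩
  · obtain ⟨e, he, _, ⟨b, rfl, hb⟩, a, ha, hee⟩ := h3
    rw [mem_singleton_iff] at ha
    subst ha
    have g1 := hend 1 (Or.inl rfl)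
    have g2 := hmid b hb
    have g3 := emap_of (d := (Sum.inr ((), 0, 0) : HV Empty Unit)) hee g2 g1
    refine ⟨e, ⟨he, _, _, _, _, hee, g2, g1, ?_⟩, _, ?_, _, rfl, g3⟩
    · intro g4
      have := (Prod.mk.inj (Prod.mk.inj (Sum.inr.inj g4)).2).2
      split_ifs at this <;> omega
    · rw [← hset]
      exact ⟨_, ⟨b, rfl, hb⟩, g2⟩

end host2

/-! ### alpha -/

/-- What is contracted for the hub host: `Fr` = elements of the columns; the other elements are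
added one after the other (`grow`), every one has a new vertex of the hub. -/
structure HubF (el : β → ℕ → α) (T : Strip W (CI ln) N) (eL : α → Sym2 (HV (OV X₀ β Lm) σ))
    (Rg : Set α) (s₀ s₁ : σ) (F Fr : Set α) : Prop where
  sub : Fr ⊆ F
  cols : ∀ e ∈ Fr, ∃ i : CI ln, i.1.1 = s₀ ∧ e ∈ ColE W el T i
  sw : F ⊆ Sw W el T univ Rg
  win : ∀ e ∈ F, ∀ v ∈ eL e, ∃ (i : CI ln) (b : ℤ), v = cv i b ∧ b ≠ 0 ∧ b.natAbs ≤ N ∧
    (i.1.1 = s₀ ∨ i.1.1 = s₁)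
  out : ∀ e ∈ F, e ∉ Fr → e ∉ rowE W el (NH T s₁)
  grow : ∀ I : Set α → Prop, I Fr → (∀ (K : Set α) (f : α) (y : HV (OV X₀ β Lm) σ), I K → f ∈ F →
    y ∈ eL f → (∃ (j : CI ln) (b : ℤ), j.1.1 = s₁ ∧ b ≠ 0 ∧ b.natAbs ≤ N ∧ y = cv j b) →
    (∀ e ∈ K, y ∉ eL e) → I (insert f K)) → I F

lemma HubF.sh {F Fr : Set α} (h : HubF el T eL Rg s₀ s₁ F Fr) : F ⊆ Sh W el T univ Rg eL := by
  intro e he
  refine ⟨h.sw he, ?_⟩
  rintro v hv i ⟨b, hvb, hb⟩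
  obtain ⟨i', b', rfl, h2, h3, -⟩ := h.win e he v hv
  have h4 : b' = b := (Prod.mk.inj (Prod.mk.inj (Sum.inr.inj hvb)).2).2
  omega

/-- vertices of a column -/
def Colv (T : Strip W (CI ln) N) (Lm : ℕ) (i : CI ln) : Set (HV (OV X₀ β Lm) σ) :=
  {v | ∃ b : ℤ, -(N : ℤ) ≤ b ∧ b ≤ N + T.m i ∧ v = cv i b}

lemma SG.col_conn (h : SG M W el T Lm Sf eL Q BQ u Ed Rg) (i : CI ln) :
    VConn (ColE W el T i) eL (Colv T Lm i) := by
  have hlt := T.lt i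
  have h1 : Colv T Lm i = (fun j => lab T Lm (W.nd (T.R i) (T.a i + j))) ''
      {j | j ≤ 2 * N + T.m i} := by
    ext v
    constructor
    · rintro ⟨b, h1, h2, rfl⟩
      have h3 := T.idx_range i b h1 h2
      refine ⟨T.idx i b - T.a i, by show T.idx i b - T.a i ≤ 2 * N + T.m i; omega, ?_⟩
      dsimp only
      rw [Nat.add_sub_cancel' h3.1, lab_nd T i b h1 h2]
    · rintro ⟨j, hj, rfl⟩
      have hj' : j ≤ 2 * N + T.m i := hj
      obtain ⟨b, h1, h2, h3⟩ := T.idx_surj i (k := T.a i + j) (by omega) (by omega)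
      refine ⟨b, h1, h2, ?_⟩
      dsimp only
      rw [← h3, lab_nd T i b h1 h2]
  rw [h1]
  refine vconn_path _ _ ?_
  intro j hj
  obtain ⟨-, h2⟩ := h.row (T.R i) (T.a i + j) (by omega)
  exact ⟨_, ⟨T.a i + j, by omega, by omega, rfl⟩, h2⟩

lemma SG.colE_ends (h : SG M W el T Lm Sf eL Q BQ u Ed Rg) {i : CI ln} {e : α}
    (he : e ∈ ColE W el T i) : e ∈ Sf ∧ ∀ v ∈ eL e, v ∈ Colv T Lm i := by
  have hlt := T.lt i
  obtain ⟨k, h1, h2, rfl⟩ := he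
  obtain ⟨h3, h4⟩ := h.row (T.R i) k (by omega)
  refine ⟨h3, fun v hv => ?_⟩
  rw [h4] at hv
  rcases Sym2.mem_iff.1 hv with rfl | rfl
  · obtain ⟨b, g1, g2, g3⟩ := T.idx_surj i (k := k) (by omega) (by omega)
    exact ⟨b, g1, g2, by rw [← g3, lab_nd T i b g1 g2]⟩
  · obtain ⟨b, g1, g2, g3⟩ := T.idx_surj i (k := k + 1) (by omega) (by omega)
    exact ⟨b, g1, g2, by rw [← g3, lab_nd T i b g1 g2]⟩

lemma sym2_pair {V : Type*} (z : Sym2 V) : ∃ u v, z = s(u, v) := by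
  induction z with
  | _ a b => exact ⟨a, b, rfl⟩

section host3

variable (hK : 1 ≤ ln s₀) (hN : N = 2 * ln s₀ * ln s₀ * N')

include hK hN

/-- node of a row with a label in the domain -/
lemma SG.dom_nd (h : SG M W el T Lm Sf eL Q BQ u Ed Rg) {r : β} {k : ℕ} (hk : k ≤ W.len r)
    {P : HV Empty Unit} (hP : pq T s₀ s₁ N' (lab T Lm (W.nd r k)) = some P) :
    ∃ (i : CI ln) (b : ℤ), T.R i = r ∧ T.a i ≤ k ∧ k ≤ T.a i + 2 * N + T.m i ∧
      lab T Lm (W.nd r k) = cv i b ∧ (i.1.1 = s₀ ∨ (i.1.1 = s₁ ∧ b ≠ 0 ∧ b.natAbs ≤ N)) := by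
  obtain ⟨i, b, h1, h2, h3, h4⟩ := pq_col hK hN hP
  have h5 := T.idx_range i b h1 h2
  have h6 := T.lt i
  have h7 := h3
  rw [← lab_nd T i b h1 h2] at h7
  have h8 := lab_inj T h.len hk (by omega) h7
  rw [T.nd_col i h5.1 h5.2] at h8
  have h9 : r = T.R i ∧ k = T.idx i b := by
    unfold RW.nd at h8
    split_ifs at h8
    have := Prod.mk.inj (Sum.inr.inj h8)
    exact this
  exact ⟨i, b, h9.1.symm, by omega, by omega, h3, h4⟩

lemma SG.scl_sw (h : SG M W el T Lm Sf eL Q BQ u Ed Rg) :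
    Scl T Sf eL s₀ s₁ N' ⊆ Sw W el T univ Rg := by
  rintro e ⟨he, he2⟩
  rcases h.Sf_sub e he with h1 | ⟨r, k, hk, rfl⟩
  · exact Or.inr h1
  · obtain ⟨-, h2⟩ := h.row r k hk
    obtain ⟨P, hP⟩ := he2 (lab T Lm (W.nd r k)) (by rw [h2]; simp)
    obtain ⟨P', hP'⟩ := he2 (lab T Lm (W.nd r (k + 1))) (by rw [h2]; simp)
    obtain ⟨i, b, g1, g2, g3, -, -⟩ := h.dom_nd hK hN hk.le hP
    obtain ⟨i', b', g1', g2', g3', -, -⟩ := h.dom_nd hK hN (show k + 1 ≤ W.len r from hk) hP'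
    by_cases hii : i = i'
    · subst hii
      exact Or.inl (Or.inr ⟨i, k, g2, by omega, by rw [g1]⟩)
    · exfalso
      rcases h.strong i i' hii (g1.trans g1'.symm) with h3 | h3
      · omega
      · omega

/-- elements of the other rows touch the parts in the columns only -/
lemma SG.nh_zh (h : SG M W el T Lm Sf eL Q BQ u Ed Rg) {e : α}
    (he : e ∈ rowE W el (NH T s₁)) : e ∈ Sf ∧ ∀ v ∈ eL e, ∀ P, pq T s₀ s₁ N' v = some P →
      v ∈ Zh T s₀ s₁ N' P := by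
  obtain ⟨r, hr, k, hk, rfl⟩ := he
  obtain ⟨h1, h2⟩ := h.row r k hk
  refine ⟨h1, fun v hv P hP => ⟨hP, ?_⟩⟩
  have key : ∀ k ≤ W.len r, pq T s₀ s₁ N' (lab T Lm (W.nd r k)) = some P →
      ∃ c b, lab T Lm (W.nd r k) = Sum.inr (s₀, c, b) := by
    intro k hk hP
    obtain ⟨i, b, g1, -, -, g2, g3⟩ := h.dom_nd hK hN hk hP
    rcases g3 with g3 | g3
    · refine ⟨i.1.2, b, ?_⟩
      rw [g2]
      unfold cv
      rw [g3]
    · exact absurd g1 (hr i g3.1)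
  rw [h2] at hv
  rcases Sym2.mem_iff.1 hv with rfl | rfl
  · exact key k hk.le hP
  · exact key (k + 1) hk hP

/-- the cheap elements of the hub host are cheap -/
lemma SG.shh_sh (h : SG M W el T Lm Sf eL Q BQ u Ed Rg) {e : α}
    (he : e ∈ Shh T Sf eL s₀ s₁ N') : e ∈ Sh W el T univ Rg eL := by
  refine ⟨h.scl_sw hK hN (Shf_scl he.1), ?_⟩
  rintro v hv i ⟨b, hvb, hb⟩
  obtain ⟨⟨-, x, y, P, P', h1, h2, h3, -⟩, hnz⟩ := he
  have h4 : ∀ P ∈ ehh T eL s₀ s₁ N' e, NZ (Hh (ln s₀)) N' P := hnz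
  have h5 : ehh T eL s₀ s₁ N' e = s(P, P') := emap_of h1 h2 h3
  rw [h5] at h4
  have key : ∀ P, NZ (Hh (ln s₀)) N' P → pq T s₀ s₁ N' v = some P → False := by
    intro P hP hvP
    rcases hq_some (pos_l hK) hN hvP with ⟨c₁, hc₁, g1, g2⟩ | ⟨c₁, hc₁, b₁, g3, g4, g1, g2⟩ |
      ⟨c₁, hc₁, ε₁, Y₁, p, g3, g4, g5, g6, g1, g2⟩ | ⟨j, hj, ε₁, Y₁, p, g3, g4, g5, g6, g1, g2⟩
    · rw [g2] at hP
      exact hP.2.2.2 rfl
    · rw [g2] at hP
      have := hP.2.2.1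
      omega
    · rw [hvb] at g1
      have g7 := (Prod.mk.inj (Prod.mk.inj (Sum.inr.inj g1)).2).2
      have g8 := fw_bound g3 g4 g5 g6
      have g9 := fw_ne (l := 2 * ln s₀ * ln s₀) (Y := Y₁) (p := p) g3
      rw [← g7] at g8 g9
      rcases hb with hb | hb
      · exact g9 hb
      · omega
    · rw [hvb] at g1
      have g7 := (Prod.mk.inj (Prod.mk.inj (Sum.inr.inj g1)).2).2
      have g8 := fw_bound g3 g4 g5 g6
      have g9 := fw_ne (l := 2 * ln s₀ * ln s₀) (Y := Y₁) (p := p) g3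
      rw [← g7] at g8 g9
      rcases hb with hb | hb
      · exact g9 hb
      · omega
  rw [h1, Sym2.mem_iff] at hv
  rcases hv with rfl | rfl
  · exact key P (h4 P (by simp)) h2
  · exact key P' (h4 P' (by simp)) h3

theorem SG.exists_F [M.Finite] (h : SG M W el T Lm Sf eL Q BQ u Ed Rg)
    (hE : SfQ T Lm BQ Sf eL ⊆ M.E) (hs : HubS T Ed s₀ s₁) :
    ∃ (G : HV Empty Unit → Set α) (Fr : Set α), HubF el T eL Rg s₀ s₁ (FO G univ) Fr ∧
      FO G univ ⊆ Scl T Sf eL s₀ s₁ N' ∧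
      Quo (SfQ T Lm BQ Sf eL) eL (pq T s₀ s₁ N') G (Shf T Sf eL s₀ s₁ N') (ehh T eL s₀ s₁ N') ∧
      Quo (Scl T Sf eL s₀ s₁ N') eL (pq T s₀ s₁ N') G (Shh T Sf eL s₀ s₁ N')
        (ehh T eL s₀ s₁ N') := by
  have hS₀ : Sco el T Sf eL s₀ s₁ N' ⊆ Scl T Sf eL s₀ s₁ N' := fun e he => he.1
  have hSS : Scl T Sf eL s₀ s₁ N' ⊆ SfQ T Lm BQ Sf eL := h.scl_offQ hK hN
  have hZ : ∀ P, Zh (Lm := Lm) T s₀ s₁ N' P ⊆ prt (pq T s₀ s₁ N') P := fun P v hv => hv.1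
  obtain ⟨τ, E, hT⟩ := exists_trees (Z := Zh (Lm := Lm) T s₀ s₁ N') hS₀ hq_finite hZ (by
      rintro P ⟨v, hv⟩
      have hv' : pq T s₀ s₁ N' v = some P := hv
      rcases hq_some (pos_l hK) hN hv' with ⟨c₁, hc₁, rfl, h2⟩ | ⟨c₁, hc₁, b, h3, h4, rfl, h2⟩ |
          ⟨c₁, hc₁, ε₁, Y₁, p, h3, h4, h5, h6, rfl, h2⟩ |
          ⟨j, hj, ε₁, Y₁, p, h3, h4, h5, h6, rfl, h2⟩
      · exact ⟨_, hv', c₁, _, rfl⟩
      · exact ⟨_, hv', c₁, _, rfl⟩
      · exact ⟨_, hv', c₁, _, rfl⟩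
      · refine ⟨Sum.inr (s₀, asg (ln s₀) p, fw (2 * ln s₀ * ln s₀) ε₁ Y₁ p), ?_, _, _, rfl⟩
        rw [h2]
        exact hq_col hN (asg_lt h6) h3 h4 h5 h6)
    (h.zh_conn hK hN hs.ne) (h.part_conn hK hN hs)
  have hFO : FO (fun P => τ P ∪ E P) univ = ⋃ P, τ P ∪ E P := by
    unfold FO
    simp
  have hFE : ∀ P, τ P ∪ E P ⊆ ins (Scl T Sf eL s₀ s₁ N') eL (prt (pq T s₀ s₁ N') P) := by
    rintro P e (he | he)
    · exact ⟨hS₀ (hT.tau P he).1, fun v hv => hZ P ((hT.tau P he).2 v hv)⟩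
    · exact hT.E_sub P he
  have hsub : FO (fun P => τ P ∪ E P) univ ⊆ Scl T Sf eL s₀ s₁ N' := by
    intro e he
    obtain ⟨P, -, he⟩ := mem_FO.1 he
    exact (hFE P he).1
  -- an element inside of one part
  have hin : ∀ e ∈ FO (fun P => τ P ∪ E P) univ, ∃ P, ∀ v ∈ eL e, pq T s₀ s₁ N' v = some P := by
    intro e he
    obtain ⟨P, -, he⟩ := mem_FO.1 he
    exact ⟨P, fun v hv => (hFE P he).2 v hv⟩
  refine ⟨fun P => τ P ∪ E P, ⋃ P, τ P, ⟨?_, ?_, ?_, ?_, ?_, ?_⟩, hsub, ?_, ?_⟩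
  · rw [hFO]
    exact iUnion_mono fun P => subset_union_left
  · intro e he
    obtain ⟨P, he⟩ := mem_iUnion.1 he
    exact (hT.tau P he).1.2
  · exact hsub.trans (h.scl_sw hK hN)
  · intro e he v hv
    obtain ⟨P, hP⟩ := hin e he
    have hl := pos_l hK
    obtain ⟨x, y, hxy⟩ := sym2_pair (eL e)
    -- an element between two vertices of one part: not in the middle window
    have hnl : ∀ c b, v = Sum.inr (s₀, c, b) → (b = 0 ∨ (N : ℤ) < b) → False := by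
      intro c b hvb hb
      have h1 := hP v hv
      -- the other end
      obtain ⟨w, hw⟩ : ∃ w, eL e = s(v, w) := by
        rw [hxy] at hv ⊢
        rcases Sym2.mem_iff.1 hv with rfl | rfl
        · exact ⟨y, rfl⟩
        · exact ⟨x, Sym2.eq_swap⟩
      have h2 := hP w (by rw [hw]; simp)
      have key : ∀ w, pq (Lm := Lm) T s₀ s₁ N' w = some P → w = v := by
        intro w h2
        rw [hvb] at h1
        rcases hq_some hl hN h1 with ⟨c₁, hc₁, g1, g2⟩ | ⟨c₁, hc₁, b₁, g3, g4, g1, g2⟩ |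
            ⟨c₁, hc₁, ε₁, Y₁, p, g3, g4, g5, g6, g1, g2⟩ |
            ⟨j, hj, ε₁, Y₁, p, g3, g4, g5, g6, g1, g2⟩
        · obtain ⟨rfl, rfl⟩ := Prod.mk.inj (Prod.mk.inj (Sum.inr.inj g1)).2
          subst g2
          rcases hq_some hl hN h2 with ⟨c₂, hc₂, k1, k2⟩ | ⟨c₂, hc₂, b₂, k3, k4, k1, k2⟩ |
            ⟨c₂, hc₂, ε₂, Y₂, p₂, k3, k4, k5, k6, k1, k2⟩ |
            ⟨j₂, hj₂, ε₂, Y₂, p₂, k3, k4, k5, k6, k1, k2⟩
          · rw [k1, hvb, (Prod.mk.inj (Prod.mk.inj (Sum.inr.inj k2)).2).1]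
          · have := (Prod.mk.inj (Prod.mk.inj (Sum.inr.inj k2)).2).2
            omega
          · have := (Prod.mk.inj (Prod.mk.inj (Sum.inr.inj k2)).2).2
            rcases k3 with rfl | rfl <;> omega
          · have := (Prod.mk.inj (Prod.mk.inj (Sum.inr.inj k2)).2).2
            rcases k3 with rfl | rfl <;> omega
        · obtain ⟨rfl, rfl⟩ := Prod.mk.inj (Prod.mk.inj (Sum.inr.inj g1)).2
          subst g2
          rcases hq_some hl hN h2 with ⟨c₂, hc₂, k1, k2⟩ | ⟨c₂, hc₂, b₂, k3, k4, k1, k2⟩ |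
            ⟨c₂, hc₂, ε₂, Y₂, p₂, k3, k4, k5, k6, k1, k2⟩ |
            ⟨j₂, hj₂, ε₂, Y₂, p₂, k3, k4, k5, k6, k1, k2⟩
          · have := (Prod.mk.inj (Prod.mk.inj (Sum.inr.inj k2)).2).2
            omega
          · have k7 := Prod.mk.inj (Prod.mk.inj (Sum.inr.inj k2)).2
            have k8 : b₂ = b := by
              have := k7.2
              omega
            rw [k1, hvb, k8, ← k7.1]
          · have := (Prod.mk.inj (Prod.mk.inj (Sum.inr.inj k2)).2).2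
            rcases k3 with rfl | rfl <;> omega
          · have := (Prod.mk.inj (Prod.mk.inj (Sum.inr.inj k2)).2).2
            rcases k3 with rfl | rfl <;> omega
        · obtain ⟨-, rfl⟩ := Prod.mk.inj (Prod.mk.inj (Sum.inr.inj g1)).2
          have k1 := fw_bound g3 g4 g5 g6
          have k2 := fw_ne (l := 2 * ln s₀ * ln s₀) (Y := Y₁) (p := p) g3
          rcases hb with hb | hb
          · exact absurd hb k2
          · omega
        · exact absurd (Prod.mk.inj (Sum.inr.inj g1)).1.symm hs.ne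
      have h3 := key w h2
      rw [h3] at hw
      -- a loop at a vertex of the middle window
      rcases (h.scl_sw hK hN) (hsub he) with (⟨r, k, hk, -, hke⟩ | ⟨i, hi⟩) | hR
      · obtain ⟨-, h4⟩ := h.row r k hk
        rw [hke, hw, Sym2.eq_iff] at h4
        have h5 : lab T Lm (W.nd r k) = lab T Lm (W.nd r (k + 1)) := by
          rcases h4 with ⟨h4, h5⟩ | ⟨h4, h5⟩
          · rw [← h4, ← h5]
          · rw [← h4, ← h5]
        have h6 := lab_inj T h.len hk.le (show k + 1 ≤ W.len r from hk) h5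
        obtain ⟨i, b', g1, g2, g3, g4, -⟩ := h.dom_nd hK hN (P := P) hk.le (by
          rw [show lab T Lm (W.nd r k) = v by
            rcases h4 with ⟨h4, -⟩ | ⟨-, h4⟩
            · exact h4.symm
            · exact h4.symm]
          exact h1)
        have g5 := T.pos i
        have g6 := T.lt i
        rw [W.nd_mid (by omega) (by rw [← g1]; omega)] at h6
        unfold RW.nd at h6
        split_ifs at h6
        all_goals
          have := (Prod.mk.inj (Sum.inr.inj h6)).2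
          omega
      · obtain ⟨k, g1, g2, hke⟩ := hi
        have g6 := T.lt i
        have g5 := T.pos i
        obtain ⟨-, h4⟩ := h.row (T.R i) k (by omega)
        rw [hke, hw, Sym2.eq_iff] at h4
        have h5 : lab T Lm (W.nd (T.R i) k) = lab T Lm (W.nd (T.R i) (k + 1)) := by
          rcases h4 with ⟨h4, h5⟩ | ⟨h4, h5⟩
          · rw [← h4, ← h5]
          · rw [← h4, ← h5]
        have h6 := lab_inj T h.len (show k ≤ W.len (T.R i) by omega)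
          (show k + 1 ≤ W.len (T.R i) by omega) h5
        rw [W.nd_mid (by omega) (by omega)] at h6
        unfold RW.nd at h6
        split_ifs at h6
        all_goals
          have := (Prod.mk.inj (Sum.inr.inj h6)).2
          omega
      · obtain ⟨-, i, j, b', -, g1, g2, g3, g4⟩ := h.rg e hR
        rw [hw, Sym2.eq_iff] at g4
        have g5 : v = cv i b' := by
          rcases g4 with ⟨g4, -⟩ | ⟨-, g4⟩
          · exact g4
          · exact g4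
        rw [hvb] at g5
        have g6 : b = b' := (Prod.mk.inj (Prod.mk.inj (Sum.inr.inj g5)).2).2
        omega
    obtain ⟨i, b, g1, g2, rfl, g4⟩ := pq_col hK hN (hP v hv)
    refine ⟨i, b, rfl, ?_⟩
    rcases g4 with g4 | g4
    · have g5 : (cv i b : HV (OV X₀ β Lm) σ) = Sum.inr (s₀, i.1.2, b) := by
        unfold cv
        rw [g4]
      have g6 : b ≠ 0 := fun g6 => hnl _ _ g5 (Or.inl g6)
      have g7 : ¬ (N : ℤ) < b := fun g7 => hnl _ _ g5 (Or.inr g7)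
      exact ⟨g6, by omega, Or.inl g4⟩
    · exact ⟨g4.2.1, g4.2.2, Or.inr g4.1⟩
  · intro e he heR heN
    obtain ⟨P, -, he⟩ := mem_FO.1 he
    rcases he with he | he
    · exact heR (mem_iUnion.2 ⟨P, he⟩)
    · have h1 := h.nh_zh (s₀ := s₀) (N' := N') hK hN heN
      exact Set.disjoint_left.1 (hT.E_dis P) he ⟨(hT.E_sub P he).1, fun v hv =>
        h1.2 v hv P ((hT.E_sub P he).2 v hv)⟩
  · intro I hI hstep
    have h1 : (⋃ P, E P).Finite := M.ground_finite.subset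
      (iUnion_subset fun P e he => hE (hSS (hT.E_sub P he).1))
    have h2 := hT.grow_all h1 (I := I) ?_ hI ?_
    · rw [hFO, iUnion_union_distrib]
      exact h2
    · intro K f y P g1 g2 g3 g4 g5 g6
      refine hstep K f y g1 ?_ g3 ?_ g6
      · rw [hFO]
        exact mem_iUnion.2 ⟨P, Or.inr g2⟩
      · obtain ⟨i, b, k1, k2, rfl, k3⟩ := pq_col hK hN g4
        rcases k3 with k3 | k3
        · exfalso
          refine g5 ⟨g4, i.1.2, b, ?_⟩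
          unfold cv
          rw [k3]
        · exact ⟨i, b, k3.1, k3.2.1, k3.2.2, rfl⟩
    · intro e he v hv P hP
      obtain ⟨P', he⟩ := mem_iUnion.1 he
      have h3 := (hT.tau P' he).2 v hv
      have h4 : pq T s₀ s₁ N' v = some P' := h3.1
      have h5 : P = P' := Option.some.inj (hP.symm.trans h4)
      rw [h5]
      exact h3
  · refine hT.quo hq_finite hSS (fun e he => hSS (Shf_scl he)) ?_
    rintro e ⟨he, x, y, P, P', h1, h2, h3, h4⟩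
    exact ⟨x, y, P, P', h1, h2, h3, emap_of h1 h2 h3, h4⟩
  · refine hT.quo hq_finite Subset.rfl (fun e he => Shf_scl he.1) ?_
    rintro e ⟨⟨he, x, y, P, P', h1, h2, h3, h4⟩, -⟩
    exact ⟨x, y, P, P', h1, h2, h3, emap_of h1 h2 h3, h4⟩

/-- **alpha of the hub host.**  Few rows without a strand of the hub meet `X`. -/
theorem SG.alpha_hub (h : SG M W el T Lm Sf eL Q BQ u Ed Rg) (hs : HubS T Ed s₀ s₁)
    {M' : Matroid α} {E₂ : Set α} {k₁ c : ℕ} (hc : c < ln s₀)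
    (hX : ∀ X ⊆ M'.E, Disjoint X E₂ → BIC.rk M' X + BIC.rk M' (M'.E \ X) < BIC.rk M' M'.E + k₁ →
      ∃ Bd : Finset β, Bd.card ≤ c ∧ ∀ r ∈ NH T s₁, r ∉ Bd → ∀ k < W.len r, el r k ∉ X)
    (A : Set Empty) : TSK.AlphaA M' E₂ (Shf T Sf eL s₀ s₁ N') (ehh T eL s₀ s₁ N') (Hh (ln s₀)) N'
      k₁ A 0 := by
  classical
  intro X hXE hXd hXr
  obtain ⟨Bd, hBd, hB⟩ := hX X hXE hXd hXr
  -- a column outside of `Bd`
  obtain ⟨c₀, hc₀, hcB⟩ : ∃ c₀, ∃ h : c₀ < ln s₀, T.R ⟨(s₀, c₀), h⟩ ∉ Bd := by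
    by_contra hcon
    push Not at hcon
    have h1 : (Finset.univ.image fun c : Fin (ln s₀) => T.R ⟨(s₀, c.1), c.2⟩).card ≤ Bd.card := by
      refine Finset.card_le_card ?_
      intro r hr
      obtain ⟨c, -, rfl⟩ := Finset.mem_image.1 hr
      exact hcon c.1 c.2
    rw [Finset.card_image_of_injective, Finset.card_univ, Fintype.card_fin] at h1
    · omega
    · intro c c' hcc
      have := hs.inj ⟨(s₀, c.1), c.2⟩ ⟨(s₀, c'.1), c'.2⟩ rfl rfl hcc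
      exact Fin.ext (Prod.mk.inj (Subtype.mk.inj this)).2
  obtain ⟨i, hi⟩ : ∃ i : CI ln, i = ⟨(s₀, c₀), hc₀⟩ := ⟨_, rfl⟩
  rw [← hi] at hcB
  have hi0 : i.1.1 = s₀ := by rw [hi]
  have hNH : T.R i ∈ NH T s₁ := fun j hj hR => hs.row i j hi0 hj hR.symm
  have hdom : ∀ v ∈ Colv T Lm i, ∃ P, pq T s₀ s₁ N' v = some P := by
    rintro _ ⟨b, h1, h2, rfl⟩
    exact pq_dom hK hN i hi0 h1 h2
  have hlt := T.lt i
  refine ⟨{P | ∃ v ∈ Colv T Lm i, pq T s₀ s₁ N' v = some P},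
    Sbt (ColE W el T i) eL (pq T s₀ s₁ N'), ?_, ?_, ?_, ?_, ?_, ?_, ?_⟩
  · have h1 : (Colv T Lm i).Finite := by
      refine ((Set.finite_Icc (-(N : ℤ)) (N + T.m i)).image fun b => (cv i b :
        HV (OV X₀ β Lm) σ)).subset ?_
      rintro _ ⟨b, h1, h2, rfl⟩
      exact ⟨b, ⟨h1, h2⟩, rfl⟩
    refine (h1.image fun v => (pq T s₀ s₁ N' v).getD (Sum.inr ((), 0, 0))).subset ?_
    rintro P ⟨v, hv, hP⟩
    exact ⟨v, hv, by dsimp only; rw [hP]; rfl⟩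
  · rintro e ⟨he, h1⟩
    exact ⟨(h.colE_ends he).1, h1⟩
  · rw [Set.disjoint_left]
    rintro e ⟨⟨k, h1, h2, rfl⟩, -⟩
    exact hB (T.R i) hNH hcB k (by omega)
  · rintro e ⟨he, x, y, P, P', h1, h2, h3, h4⟩
    have h5 := h.colE_ends he
    refine ⟨⟨h5.1, x, y, P, P', h1, h2, h3, h4⟩, ?_⟩
    intro R hR
    have hR : R ∈ emap eL (pq T s₀ s₁ N') (Sum.inr ((), 0, 0)) e := hR
    rw [emap_of h1 h2 h3] at hR
    rcases Sym2.mem_iff.1 hR with rfl | rfl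
    · exact ⟨x, h5.2 x (by rw [h1]; simp), h2⟩
    · exact ⟨y, h5.2 y (by rw [h1]; simp), h3⟩
  · exact conn_map hdom (h.col_conn i)
  · rintro ⟨⟩ -
    refine ⟨c₀, hc₀, ?_⟩
    intro b h1 h2 h3
    obtain ⟨ε, Y, hε, hY, hY', rfl⟩ : ∃ (ε : ℤ) (Y : ℕ), (ε = 1 ∨ ε = -1) ∧ 1 ≤ Y ∧ Y ≤ N' ∧
        b = ε * Y := by
      rcases lt_or_gt_of_ne h3 with h4 | h4
      · exact ⟨-1, b.natAbs, Or.inr rfl, by omega, by omega, by omega⟩
      · exact ⟨1, b.natAbs, Or.inl rfl, by omega, by omega, by omega⟩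
    have h4 := fw_bound (l := 2 * ln s₀ * ln s₀) hε hY hY' (pos_l hK)
    refine ⟨cv i (fw (2 * ln s₀ * ln s₀) ε Y 0), ⟨_, by omega, by omega, rfl⟩, ?_⟩
    rw [hi]
    exact hq_col hN hc₀ hε hY hY' (pos_l hK)
  · have h1 : {v ∈ A | (Sum.inl v : HV Empty Unit) ∉ {P | ∃ v ∈ Colv T Lm i,
        pq T s₀ s₁ N' v = some P}} = ∅ := by
      ext v
      exact v.elim
    rw [h1, ncard_empty]

end host3

end hub

/-- **Row HB: the hub host.** -/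
theorem SG.hub_host (t n₁ Nn mp : ℕ) : ∃ T₀ N₀ : ℕ, ∀ {α : Type u} {X₀ β σ : Type} {M : Matroid α}
    [M.Finite] {W : RW X₀ β} {el : β → ℕ → α} {ln : σ → ℕ} {N : ℕ} {T : Strip W (CI ln) N} {Lm : ℕ}
    {Sf : Set α} {eL : α → Sym2 (HV (OV X₀ β Lm) σ)} {Q : Set α} {BQ : Set β} {u : ℕ}
    {Ed : CI ln → CI ln → Prop} {Rg : Set α}, SG M W el T Lm Sf eL Q BQ u Ed Rg →
    FrmU M (SfQ T Lm BQ Sf eL) eL u →
    ∀ (s₀ s₁ : σ), HubS T Ed s₀ s₁ → T₀ ≤ ln s₀ → ∀ N' : ℕ, N₀ ≤ N' →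
    N = 2 * ln s₀ * ln s₀ * N' → ∀ (E₂ D₂ : Set α) (n' k₁ c : ℕ), c < ln s₀ →
    Disjoint (SfQ T Lm BQ Sf eL) E₂ →
    Disjoint (Sh W el T univ Rg eL) D₂ → E₂ ⊆ M.E → D₂ ⊆ M.E \ E₂ → PGrid (M✶ ／ D₂) E₂ n' →
    (∀ F Fr : Set α, HubF el T eL Rg s₀ s₁ F Fr → ∀ X ⊆ (M ／ F).E, Disjoint X E₂ →
      BIC.rk (M ／ F) X + BIC.rk (M ／ F) ((M ／ F).E \ X) < BIC.rk (M ／ F) (M ／ F).E + k₁ →
      ∃ Bd : Finset β, Bd.card ≤ c ∧ ∀ r ∈ NH T s₁, r ∉ Bd → ∀ k < W.len r, el r k ∉ X) →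
    ∃ (M' : Matroid α) (H : Host Empty Unit) (S Sf' : Set α) (ends : α → Sym2 (HV Empty Unit)),
      M' ≤m M ∧ TSK.HostD M' S Sf' Q E₂ D₂ ends H N' u k₁ 0 n' ∧
      TSK.PatOut (M' ／ Q) S ends H N' Nn mp t n₁ := by
  obtain ⟨T₀, N₀, hhub⟩ := kt_of_hub.{u} t n₁
  refine ⟨T₀ + 1, N₀ + 1, ?_⟩
  intro α X₀ β σ M _ W el ln N T Lm Sf eL Q BQ u Ed Rg h hFU s₀ s₁ hs hT N' hN' hN E₂ D₂ n' k₁ c hc
    hE hD hEE hDE hpg hX
  have hK : 1 ≤ ln s₀ := by omega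
  obtain ⟨G, Fr, hF, hGs, hq1, hq2⟩ := h.exists_F hK hN hFU.sub hs
  have hα := h.alpha_hub hK hN hs (E₂ := E₂) hc (hX _ _ hF)
  obtain ⟨F, hFdef⟩ : ∃ F, F = FO G univ := ⟨_, rfl⟩
  rw [← hFdef] at hGs hF hα
  have hFSf : F ⊆ SfQ T Lm BQ Sf eL := hGs.trans (h.scl_offQ hK hN)
  have hFE : F ⊆ M.E := hFSf.trans hFU.sub
  have hQF : Disjoint Q F := by
    rw [Set.disjoint_left]
    exact fun e he he' => h.scl_Q hK hN (hGs he') he
  have f1 : (M ／ F).Finite := ⟨M.ground_finite.subset sdiff_subset⟩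
  have f2 : (M ／ Q).Finite := ⟨M.ground_finite.subset sdiff_subset⟩
  have f3 : (M ／ F ／ Q).Finite := ⟨f1.ground_finite.subset sdiff_subset⟩
  -- the frames
  have hfr1 : FrmU (M ／ F) (Shf T Sf eL s₀ s₁ N') (ehh T eL s₀ s₁ N') u := by
    rw [hFdef]
    refine FrmU.quo hFU hq1 ?_
    rintro e ⟨-, x, y, P, P', h1, h2, h3, h4⟩ R hR
    exfalso
    have hR : emap eL (pq T s₀ s₁ N') (Sum.inr ((), 0, 0)) e = s(R, R) := hR
    rw [emap_of h1 h2 h3, Sym2.eq_iff] at hR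
    rcases hR with ⟨h5, h6⟩ | ⟨h5, h6⟩
    · exact h4 (h5.trans h6.symm)
    · exact h4 (h5.trans h6.symm)
  have hfr2 : Frm (M ／ F ／ Q) (Shh T Sf eL s₀ s₁ N') (ehh T eL s₀ s₁ N') := by
    have h1 : FrmU (M ／ Q ／ F) (Shh T Sf eL s₀ s₁ N') (ehh T eL s₀ s₁ N') 0 := by
      rw [hFdef]
      refine FrmU.quo (h.frmc hK hN).frmU hq2 ?_
      rintro e ⟨⟨-, x, y, P, P', h1, h2, h3, h4⟩, -⟩ R hR
      exfalso
      have hR : emap eL (pq T s₀ s₁ N') (Sum.inr ((), 0, 0)) e = s(R, R) := hR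
      rw [emap_of h1 h2 h3, Sym2.eq_iff] at hR
      rcases hR with ⟨h5, h6⟩ | ⟨h5, h6⟩
      · exact h4 (h5.trans h6.symm)
      · exact h4 (h5.trans h6.symm)
    rw [Matroid.contract_contract, union_comm, ← Matroid.contract_contract] at h1
    exact frm_of_frmU h1
  have hemb := h.emb_hub hK hN hs
  have hshf : Shf T Sf eL s₀ s₁ N' ⊆ SfQ T Lm BQ Sf eL := fun e he =>
    h.scl_offQ hK hN (Shf_scl he)
  have hshh : Shh T Sf eL s₀ s₁ N' ⊆ Shf T Sf eL s₀ s₁ N' := fun e he => he.1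
  have hmin : M ／ F ≤m M := by
    refine ⟨F, ∅, ?_⟩
    rw [Matroid.delete_empty]
  have hDF : Disjoint F D₂ := hD.mono_left hF.sh
  have hEF : Disjoint F E₂ := hE.mono_left hFSf
  refine ⟨M ／ F, Hh (ln s₀), Shh T Sf eL s₀ s₁ N', Shf T Sf eL s₀ s₁ N', ehh T eL s₀ s₁ N',
    hmin, ⟨hshh, hfr1, ?_, ?_, hfr2, fun v => v.elim, hemb,
      h.col0_hub hK hN (by omega), hE.mono_left hshf, ?_, ?_, ?_, ?_, hα _⟩, ?_⟩
  · rw [Matroid.contract_ground]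
    exact fun e he => ⟨h.Q_sub he, Set.disjoint_left.1 hQF he⟩
  · rw [Set.disjoint_left]
    exact fun e he he' => h.scl_Q hK hN (Shf_scl (hshh he')) he
  · exact hD.mono_left fun e he => h.shh_sh hK hN he
  · rw [Matroid.contract_ground]
    exact fun e he => ⟨hEE he, fun h1 => Set.disjoint_left.1 hEF h1 he⟩
  · rw [Matroid.contract_ground]
    exact fun e he => ⟨⟨(hDE he).1, fun h1 => Set.disjoint_left.1 hDF h1 he⟩, (hDE he).2⟩
  · exact EN.pgrid_contract hEE hDE (Set.disjoint_union_right.2 ⟨hEF, hDF⟩) hpg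
  · obtain ⟨κ, Y, P, lo, hi, n, B, col, h1, h2, h3, h4, h5⟩ := hhub (M ／ F ／ Q)
      (Shh T Sf eL s₀ s₁ N') (ehh T eL s₀ s₁ N') (Hh (ln s₀)) N' (by omega) hemb ()
      (show T₀ ≤ ln s₀ by omega) (by
        intro c c' hc hc' hcc
        have h6 := h.adj_hub hK hN hs (c := c) (c' := c') hc hc' hcc (ε := -1) (Y := N')
          (Or.inr rfl) (by omega) le_rfl
        rw [neg_one_mul] at h6
        exact h6)
    refine ⟨κ, Y, P, lo, hi, n, B, col, t + 3, h1, h2, h3, ?_, ?_⟩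
    · intro j x g1 g2
      obtain ⟨g3, g4⟩ := h4 j x g1 g2
      exact ⟨(), g3, g4⟩
    · exact Or.inr (Or.inr (Or.inr (Or.inr (Or.inr (Or.inr (Or.inr (Or.inr (Or.inr
        (Or.inr h5)))))))))

end TST
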