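import Pool.Agent.TST.HubC
import Pool.Agent.TST.HubHost

/-!
# Row HD of T-star: two sheets from a hub on few rows
-/

set_option autoImplicit false

open Set Relation

namespace TST

variable {J β : Type*}

/-- **The two sheets of a hub**: `false` = the neighbours, `true` = the hub. -/
theorem hub_select {G : SimpleGraph J} {R : J → β} {τ t : ℕ} (h : HubB G R τ t) :
    ∃ (ln : Bool → ℕ) (col : CI ln → J), ln false = t ∧ 1 ≤ ln true ∧ Function.Injective col ∧
      (∀ j j' : CI ln, j.1.1 = true → j'.1.1 = true →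
        ReflTransGen (fun a b => G.Adj (col a) (col b) ∧ a.1.1 = true ∧ b.1.1 = true) j j') ∧
      (∀ i : CI ln, i.1.1 = false → ∃ j, j.1.1 = true ∧ G.Adj (col i) (col j)) ∧
      (∀ i i' : CI ln, i.1.1 = false → i'.1.1 = false → R (col i) = R (col i') → i = i') ∧
      (∀ i j : CI ln, i.1.1 = false → j.1.1 = true → R (col i) ≠ R (col j)) ∧
      (R '' (col '' {j | j.1.1 = true})).ncard ≤ τ := by
  classical
  obtain ⟨T, v, hT, hτ, hv, hTv, hcon, hatt⟩ := h
  obtain ⟨e⟩ : Nonempty ({x // x ∈ T} ≃ Fin T.card) := ⟨T.equivFin⟩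
  obtain ⟨ln, hln⟩ : ∃ ln : Bool → ℕ, ln = fun b => if b then T.card else t := ⟨_, rfl⟩
  have hlt : ln true = T.card := by rw [hln]; rfl
  have hlf : ln false = t := by rw [hln]; rfl
  have hcol : ∀ i : CI ln, ∃ x : J, (∀ h1 : i.1.1 = true, ∃ h2 : i.1.2 < T.card,
      x = (e.symm ⟨i.1.2, h2⟩).1) ∧ ∀ h1 : i.1.1 = false, ∃ h2 : i.1.2 < t, x = v ⟨i.1.2, h2⟩ := by
    intro i
    have h2 := i.2
    by_cases h1 : i.1.1 = true
    · have h3 : i.1.2 < T.card := by rw [h1, hlt] at h2; exact h2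
      exact ⟨_, fun _ => ⟨h3, rfl⟩, fun h4 => absurd (h1.symm.trans h4) (by simp)⟩
    · have h1' : i.1.1 = false := by simpa using h1
      have h3 : i.1.2 < t := by rw [h1', hlf] at h2; exact h2
      exact ⟨_, fun h4 => absurd h4 h1, fun _ => ⟨h3, rfl⟩⟩
  choose col hc1 hc2 using hcol
  have hT1 : ∀ i, i.1.1 = true → col i ∈ T := by
    intro i hi
    obtain ⟨h2, h3⟩ := hc1 i hi
    rw [h3]
    exact (e.symm _).2
  have hsurj : ∀ x ∈ T, ∃ i : CI ln, i.1.1 = true ∧ col i = x := by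
    intro x hx
    have h2 : (e ⟨x, hx⟩).1 < ln true := by rw [hlt]; exact (e ⟨x, hx⟩).2
    refine ⟨⟨(true, (e ⟨x, hx⟩).1), h2⟩, rfl, ?_⟩
    obtain ⟨h3, h4⟩ := hc1 ⟨(true, (e ⟨x, hx⟩).1), h2⟩ rfl
    rw [h4]
    show (e.symm (e ⟨x, hx⟩)).1 = x
    rw [e.symm_apply_apply]
  have hrow : ∀ i j : CI ln, i.1.1 = false → j.1.1 = true → R (col i) ≠ R (col j) := by
    intro i j hi hj
    obtain ⟨h3, h4⟩ := hc2 i hi
    rw [h4]
    exact (hTv _ _ (hT1 j hj)).symm
  have hinjT : ∀ i i' : CI ln, i.1.1 = true → i'.1.1 = true → col i = col i' → i = i' := by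
    intro i i' hi hi' hii
    obtain ⟨h1, h2⟩ := hc1 i hi
    obtain ⟨h3, h4⟩ := hc1 i' hi'
    rw [h2, h4] at hii
    have h5 := e.symm.injective (Subtype.ext hii)
    exact Subtype.ext (Prod.ext (hi.trans hi'.symm) (Fin.mk.inj h5))
  have hinjF : ∀ i i' : CI ln, i.1.1 = false → i'.1.1 = false → R (col i) = R (col i') → i = i' := by
    intro i i' hi hi' hii
    obtain ⟨h1, h2⟩ := hc2 i hi
    obtain ⟨h3, h4⟩ := hc2 i' hi'
    rw [h2, h4] at hii
    exact Subtype.ext (Prod.ext (hi.trans hi'.symm) (Fin.mk.inj (hv hii)))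
  refine ⟨ln, col, hlf, ?_, ?_, ?_, ?_, hinjF, hrow, ?_⟩
  · rw [hlt]
    exact Finset.card_pos.2 hT
  · intro i i' hii
    rcases Bool.eq_false_or_eq_true i.1.1 with hi | hi <;>
      rcases Bool.eq_false_or_eq_true i'.1.1 with hi' | hi'
    · exact hinjT i i' hi hi' hii
    · exact absurd (congrArg R hii).symm (hrow i' i hi' hi)
    · exact absurd (congrArg R hii) (hrow i i' hi hi')
    · exact hinjF i i' hi hi' (congrArg R hii)
  · intro j j' hj hj'
    have h1 := hcon _ (hT1 j hj) _ (hT1 j' hj')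
    have key : ∀ x, ReflTransGen (fun a b => G.Adj a b ∧ a ∈ T ∧ b ∈ T) (col j) x →
        ∀ i : CI ln, i.1.1 = true → col i = x →
        ReflTransGen (fun a b => G.Adj (col a) (col b) ∧ a.1.1 = true ∧ b.1.1 = true) j i := by
      intro x hx
      induction hx with
      | refl =>
        intro i hi hix
        rw [hinjT i j hi hj hix]
      | tail _ h3 ih =>
        intro i hi hix
        obtain ⟨i', hi', hix'⟩ := hsurj _ h3.2.1
        refine (ih i' hi' hix').tail ⟨?_, hi', hi⟩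
        rw [hix', hix]
        exact h3.1
    exact key _ h1 j' hj' rfl
  · intro i hi
    obtain ⟨h1, h2⟩ := hc2 i hi
    obtain ⟨x, hx, hx'⟩ := hatt ⟨i.1.2, h1⟩
    obtain ⟨j, hj, rfl⟩ := hsurj x hx
    refine ⟨j, hj, ?_⟩
    rw [h2]
    exact hx'.symm
  · refine (ncard_le_ncard ?_ (T.finite_toSet.image R)).trans hτ
    rintro _ ⟨_, ⟨j, hj, rfl⟩, rfl⟩
    exact ⟨_, hT1 j hj, rfl⟩

end TST
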