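import Pool.Agent.TST.BaseStrip
import Pool.Agent.TST.HubHXT
import Pool.Agent.TST.HubSel
import Pool.Agent.TST.CompDef

/-!
# Row HD of T-star: the hub case of `HostOfBase`
-/

set_option autoImplicit false

open Set Relation BIC BICS CWL
open scoped Matroid

namespace TSH

universe u

open Mdl Mdj EN Gad TST EN.Wall

/-- **The hub case** (row D of `HostOfBase`): hubs on few rows. -/
theorem out_hub (κ k₁ N₀ y₀ Nn mp t n₁ τ₀ : ℕ) : ∃ t₁ : ℕ, ∀ ρ : ℕ, ∃ s₁ w₀ : ℕ, ∀ s ≥ s₁,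
    ∀ w ≥ w₀, ∃ n₀ : ℕ, ∀ {α : Type u} (M : Matroid α) [M.Finite]
    (𝒯 : Finset (ℕ × ℕ)) (L₁ : Bool × ℕ × ℕ → List α) (f₁ : α → Sym2 ((ℕ × ℕ) ⊕ α))
    (e₁ : Bool × ℕ × ℕ → α) (u₁ : ℕ) (L₂ : Bool × ℕ × ℕ → List α) (f₂ : α → Sym2 ((ℕ × ℕ) ⊕ α))
    (e₂ : Bool × ℕ × ℕ → α) (u₂ u η nT : ℕ) (F : ℕ → ℕ) (a n : ℕ) (el : SegR n → ℕ → α)
    (S Q : Set α) (ends : α → Sym2 (Nd (WV n) (SegR n))) (BQ Bd : Finset (SegR n))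
    (τ : ℕ → ℕ × ℕ) (m : ℕ) (R : ℕ → SegR n) (q : ℕ → ℕ → ℕ) (G : ℕ → ℕ → Prop) (P : Finset ℕ),
    n₀ ≤ nT →
    Ctx κ ρ M w s 𝒯 L₁ f₁ e₁ u₁ L₂ f₂ e₂ u₂ u η nT F a n el S Q ends BQ Bd τ m R q G P →
    HubB (PG G P) (fun i => R i.1) τ₀ t₁ → ∀ (e c h₀ : ℕ) (g : ℕ → ℕ),
      TSK.HostOut M u k₁ e N₀ y₀ c h₀ g Nn mp t n₁ := by
  classical
  obtain ⟨T₀, N₁, hhost⟩ := SG.hub_host.{u} t n₁ Nn mp
  obtain ⟨c₀, hc₀⟩ := hub_hX.{u} κ k₁ τ₀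
  obtain ⟨t₁, ht₁⟩ : ∃ t₁, t₁ = T₀ + c₀ + 1 := ⟨_, rfl⟩
  obtain ⟨N', hN'⟩ : ∃ N', N' = N₀ + N₁ + 1 := ⟨_, rfl⟩
  obtain ⟨N, hN⟩ : ∃ N, N = 2 * t₁ * t₁ * N' := ⟨_, rfl⟩
  have ht1 : 1 ≤ t₁ := by omega
  have hN1 : 1 ≤ N := by
    rw [hN]
    exact Nat.mul_pos (Nat.mul_pos (by omega) ht1) (by omega)
  refine ⟨t₁, fun ρ => ?_⟩
  obtain ⟨w₀, s₁, hX⟩ := hc₀ ρ
  obtain ⟨n', hn'⟩ : ∃ n', n' = y₀ + c₀ + 2 := ⟨_, rfl⟩
  refine ⟨s₁ + (κ + 1) * (2 * n' + 2), w₀, ?_⟩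
  intro s hs w hw
  refine ⟨6 * N + 9, ?_⟩
  intro α M _ 𝒯 L₁ f₁ e₁ u₁ L₂ f₂ e₂ u₂ u η nT Fw a n el S Q ends BQ Bd τs m R q G P hnT
    ⟨hu₁, hu₂, hp, hhot, h⟩ hHub e c h₀ g
  obtain ⟨ln, col, hlf, hlt, hcol, hcon, hatt, hinj, hrow, hfew⟩ := hub_select hHub
  have hF1 : Finite (CI ln) := by
    refine Finite.of_injective col hcol
  have hFt : Fintype (CI ln) := Fintype.ofFinite _
  -- the strip
  obtain ⟨C, ex, cR, cx, cx1, cy, crg, cst, cconf⟩ := h.strip hp.s₁ hN1 (f := fun b => b + 1)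
    (fun a b hab _ => by show a + 1 < b + 1; omega) (by show 1 ≤ 0 + 1; omega)
    (by show 3 * (2 * N + 1) + 5 < nT; omega) (fun i : CI ln => (col i).1) (fun i => (col i).2)
    (fun i j hij => hcol (Subtype.ext hij)) univ (fun r hr => absurd (mem_univ r) hr)
  obtain ⟨b₀, hb₀⟩ : ∃ b₀, b₀ = 3 * (N + 1) + 1 := ⟨_, rfl⟩
  have cconf : ∀ r p, p < (inW L₁ a n).len r →
        el r p ∈ crr L₂ (shS (τs b₀).1 (τs b₀).2 '' Seg s) →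
        p ∈ C.K ex r ∧ (r ∉ univ → ∃ i, C.R i = r ∧ p ∈ C.y i) ∧
        ∀ i, C.R i = r → C.z i 0 ≤ p → p ≤ C.z i (2 * N + 1) → p ∈ C.y i := by
    rw [hb₀]
    exact cconf
  obtain ⟨Ed, hEd⟩ : ∃ Ed : CI ln → CI ln → Prop, ∀ i j, Ed i j ↔ (PG G P).Adj (col i) (col j) :=
    ⟨_, fun _ _ => Iff.rfl⟩
  have hEdG : ∀ i j, Ed i j → i ≠ j ∧ (G (col i).1 (col j).1 ∨ G (col j).1 (col i).1) := by
    intro i j hij
    rw [hEd] at hij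
    obtain ⟨h1, h2⟩ := (SimpleGraph.fromRel_adj _ _ _).1 hij
    exact ⟨fun h3 => h1 (by rw [h3]), h2⟩
  obtain ⟨Rg, hRg⟩ : ∃ Rg : Set α, ∀ x, x ∈ Rg ↔ x ∈ S ∧ Rung L₁ a n el x ∧ ∃ i j b, Ed i j ∧
      -(N : ℤ) ≤ b ∧ b ≤ N ∧ b ≠ 0 ∧ Joins C ends i j b x := ⟨_, fun _ => Iff.rfl⟩
  have hS : StripS M (inW L₁ a n) S ends el BQ Q u ln N C ex univ Ed Rg := by
    refine cst Ed Rg (fun i j hij => (hEdG i j hij).1) (fun x hx => ?_) ?_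
    · obtain ⟨h1, -, h2⟩ := (hRg x).1 hx
      exact ⟨h1, h2⟩
    · intro i j hij b hb1 hb2 hb3
      obtain ⟨x, hx, hx2, p, p', -, -, h3, h4, h5⟩ := crg i j (hEdG i j hij).2 b hb1 hb2
      exact ⟨x, (hRg x).2 ⟨hx, hx2, i, j, b, hij, hb1, hb2, hb3, p, p', h3, h4, h5⟩, p, p', h3, h4,
        h5⟩
  obtain ⟨T, Lm, eL, hTR, -, -, hJ, -, hMid, -, hcnt0, hcnt, -, hSG⟩ := hS.sg
  have hB := hS.labB hTR hJ hcnt0 hSG
  -- the tile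
  have hb₀n : b₀ < nT := by omega
  have htile : shS (τs b₀).1 (τs b₀).2 '' Seg s ⊆ tiles s 𝒯 := by
    intro x hx
    exact ⟨τs b₀, h.tau b₀ hb₀n, hx⟩
  have hRgT : ∀ x ∈ Rg, x ∉ crr L₂ (shS (τs b₀).1 (τs b₀).2 '' Seg s) := by
    intro x hx hx2
    obtain ⟨h1, h2, -⟩ := (hRg x).1 hx
    exact (h.rung x h1 h2).1 (crr_mono htile hx2)
  have hcelT := tile_cel (B := crr L₂ (shS (τs b₀).1 (τs b₀).2 '' Seg s)) cconf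
  have hshT := tile_sh (B := crr L₂ (shS (τs b₀).1 (τs b₀).2 '' Seg s)) hB.K_lt cconf hTR hMid hcnt hRgT
  have hancT := h.tile_anchor hB.K_lt hSG hb₀n hRgT (hp.s₂.subset htile)
  obtain ⟨E₂, D₂, d1, d2, -, d3, d4, d5, d6⟩ := tileGrid hp htile hcelT (κ := κ)
    (n' := n') (c := c₀) hu₂ (by omega) (by omega) (by omega)
  have fM : (M ／ cel (inW L₁ a n) (C.K ex) el).Finite := ⟨M.ground_finite.subset sdiff_subset⟩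
  have hTcol : ∀ i, T.R i = R (col i).1 := fun i => by rw [hTR, cR]
  have hHS : HubS T Ed false true := by
    refine ⟨by simp, hlt, ?_, ?_, ?_, ?_⟩
    · intro j j' hj hj'
      refine ReflTransGen.mono ?_ _ _ (hcon j j' hj hj')
      rintro x y ⟨h1, h2, h3⟩
      exact ⟨Or.inl ((hEd x y).2 h1), h2, h3⟩
    · intro i hi
      obtain ⟨j, h1, h2⟩ := hatt i hi
      exact ⟨j, h1, Or.inl ((hEd i j).2 h2)⟩
    · intro i i' hi hi' hR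
      rw [hTcol, hTcol] at hR
      exact hinj i i' hi hi' hR
    · intro i j hi hj
      rw [hTcol, hTcol]
      exact hrow i j hi hj
  have hwall := h.wall
  obtain ⟨M', H, S', Sf', ends', g1, g2, g3⟩ := hhost hSG hSG.frmU false true hHS (by omega) N'
    (by omega) (by rw [hlf]; exact hN) E₂ D₂ n' k₁ c₀ (by omega) (hancT.mono_right d1)
    (hshT.symm.mono_right d2 |>.mono_left fun x hx => hx) d3 d4 d5 (by
      intro F' Fr hF X hX1 hX2 hX3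
      refine hX w hw s (by omega) M (tiles s 𝒯) L₁ f₁ e₁ u₁ L₂ f₂ e₂ u₂ hp hu₁ hu₂ hhot
        (τs b₀).1 (τs b₀).2 htile a n el S ends BQ hwall.2.2.1 h.el_eq (h.locB hp.s₁) hB
        hHS.row ?_ hcelT hshT F' Fr hF X hX1 (d6 X hX2) hX3
      refine (ncard_le_ncard ?_ (Set.toFinite _)).trans hfew
      rintro _ ⟨j, hj, rfl⟩
      exact ⟨col j, ⟨j, hj, rfl⟩, (hTcol j).symm⟩)
  have hmin : M ／ cel (inW L₁ a n) (C.K ex) el ≤m M := by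
    refine ⟨cel (inW L₁ a n) (C.K ex) el, ∅, ?_⟩
    rw [Matroid.delete_empty]
  refine ⟨M', Empty, Unit, inferInstance, inferInstance, H, N', S', Sf',
    Q \ cel (inW L₁ a n) (C.K ex) el, E₂, D₂, ends', n', g1.trans hmin, by omega,
    by exact_mod_cast (show N₀ ≤ N' by omega), ?_, Or.inl g3⟩
  obtain ⟨a1, a2, a3, a4, a5, a6, a7, a8, a9, a10, a11, a12, a13, a14⟩ := g2
  exact ⟨a1, a2, a3, a4, a5, a6, a7, a8, a9, a10, a11, a12, a13,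
    a14.mono (Set.toFinite _) le_rfl Set.Subset.rfl (Nat.zero_le _)⟩

end TSH
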