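import Pool.Agent.TST.LinesPA

/-!
# Row FN of T-star: fins next to one sheet give `K_t` (helper88)

`kt_of_fins`: the connector `i` is the fin `i` and an `L` of the sheet (the level `i + 1` from the
column `i` on, and the column `i` up to the level `T`); the `L`s are nested, and every fin is next
to all of them.
-/

set_option autoImplicit false

open Set

namespace TST

universe u

open BIC Gad EN Mdl

/-! ### The system -/

/-- `T` ports with one connector each, all in contact except the neighbours. -/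
def YF (T : ℕ) : EN.Sys ℕ where
  L := T
  R := 1
  sh := fun _ => 0
  own := fun x => x
  ct := fun k k' => k < T ∧ k' < T ∧ k ≠ k' ∧ k ≠ k' + 1 ∧ k' ≠ k + 1
  gr := fun _ => False

lemma YF_ax {T : ℕ} (hT : 5 ≤ T) : (YF T).Ax T where
  mono := fun _ _ _ _ => le_rfl
  lt := fun _ _ => Nat.zero_lt_one
  symm := fun _ _ h => ⟨h.2.1, h.1, h.2.2.1.symm, h.2.2.2.2, h.2.2.2.1⟩
  irr := fun _ h => h.2.2.1 rfl
  a1 := by
    intro x _ _ h
    have h' : x = x + 1 := h
    omega
  a2 := by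
    intro x hx _ _
    have hx' : x < T := hx
    left
    have key : ∀ k₁ k₂ : ℕ, k₁ ≠ k₂ → k₁ < T → k₂ < T → x ≠ k₁ → x ≠ k₁ + 1 → k₁ ≠ x + 1 →
        x ≠ k₂ → x ≠ k₂ + 1 → k₂ ≠ x + 1 →
        ∃ k₁ k₂, k₁ ≠ k₂ ∧ (YF T).ct ((YF T).own x) k₁ ∧ (YF T).ct ((YF T).own x) k₂ :=
      fun k₁ k₂ h0 h1 h2 h3 h4 h5 h6 h7 h8 =>
        ⟨k₁, k₂, h0, ⟨hx', h1, h3, h4, h5⟩, ⟨hx', h2, h6, h7, h8⟩⟩
    rcases Nat.lt_or_ge x 2 with h | h
    · exact key 3 4 (by omega) (by omega) (by omega) (by omega) (by omega) (by omega) (by omega)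
        (by omega) (by omega)
    · rcases Nat.lt_or_ge x 3 with h' | h'
      · exact key 0 4 (by omega) (by omega) (by omega) (by omega) (by omega) (by omega) (by omega)
          (by omega) (by omega)
      · exact key 0 1 (by omega) (by omega) (by omega) (by omega) (by omega) (by omega) (by omega)
          (by omega) (by omega)
  a3 := fun x _ _ h => False.elim (h.2.2.2.2 rfl)
  a4 := fun k k' h => ⟨k', h.2.1, rfl⟩
  a5 := by
    intro k A hA
    have h1 : A ⊆ {k} := by
      intro x hx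
      rw [Finset.mem_singleton]
      exact (hA x hx).2
    have h2 := Finset.card_le_card h1
    rw [Finset.card_singleton] at h2
    omega
  a6 := by
    intro k A hA
    have h1 : A ⊆ Finset.range T := by
      intro x hx
      rw [Finset.mem_range]
      exact (hA x hx).2.1
    have h2 := Finset.card_le_card h1
    rwa [Finset.card_range] at h2

lemma YF_kt {T t : ℕ} (hT : 2 * t ≤ T) : (YF T).KT t := by
  refine ⟨fun i => {Sum.inr (2 * i.1)}, fun i => @Mdr.Cn.single _ (_) _ _, fun i j hij => ?_,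
    fun i j hij => ?_, fun i x hx => ?_⟩
  · rw [Finset.disjoint_singleton]
    intro h
    exact hij (Fin.ext (by
      have := Sum.inr_injective h
      omega))
  · have h1 := i.2
    have h2 := j.2
    have h3 : i.1 ≠ j.1 := fun h => hij (Fin.ext h)
    exact ⟨_, Finset.mem_singleton_self _, _, Finset.mem_singleton_self _, by omega, by omega,
      by omega, by omega, by omega⟩
  · rw [Finset.mem_singleton] at hx
    exact absurd hx (by simp)

/-! ### The nested `L`s -/

/-- the `L` of the connector `k` -/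
def lsh (T r k : ℕ) : Set (ℕ × ℕ) := if k < T then HRow k r (k + 1) ∪ Vert k (k + 1) T else ∅

lemma lsh_lt {T r k : ℕ} (h : k < T) : lsh T r k = HRow k r (k + 1) ∪ Vert k (k + 1) T := if_pos h

lemma lsh_ge {T r k : ℕ} (h : T ≤ k) : lsh T r k = ∅ := if_neg (by omega)

lemma mem_lsh {T r k : ℕ} {p : ℕ × ℕ} : p ∈ lsh T r k ↔ k < T ∧
    ((p.2 = k + 1 ∧ k ≤ p.1 ∧ p.1 ≤ r) ∨ (p.1 = k ∧ k + 1 ≤ p.2 ∧ p.2 ≤ T)) := by
  rcases Nat.lt_or_ge k T with h | h
  · rw [lsh_lt h, mem_union, mem_HRow, mem_Vert]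
    exact ⟨fun h' => ⟨h, h'⟩, fun h' => h'.2⟩
  · rw [lsh_ge h]
    exact ⟨fun h' => False.elim h', fun h' => absurd h'.1 (by omega)⟩

lemma lsh_fin (T r k : ℕ) : (lsh T r k).Finite := by
  rcases Nat.lt_or_ge k T with h | h
  · rw [lsh_lt h]
    exact (hrow_finite _ _ _).union (vert_finite _ _ _)
  · rw [lsh_ge h]
    exact finite_empty

lemma lsh_sub {T r k : ℕ} (hT : T ≤ r) : lsh T r k ⊆ Reg 0 r T := by
  rintro ⟨a, b⟩ h
  rw [mem_lsh] at h
  rw [mem_Reg]
  simp only at h ⊢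
  omega

lemma lsh_disj {T r k k' : ℕ} (hk : k ≠ k') : ∀ c ∈ lsh T r k, c ∉ lsh T r k' := by
  rintro ⟨a, b⟩ h h'
  rw [mem_lsh] at h h'
  simp only at h h'
  omega

lemma lsh_con {α : Type*} {S : Set α} {W : Type*} {ends : α → Sym2 W} {P : ℕ × ℕ → W} {T r n k : ℕ}
    (hP : Page S ends P 0 r n) (hr : T ≤ r) (hn : T ≤ n) : VConn S ends (P '' lsh T r k) := by
  rcases Nat.lt_or_ge k T with h | h
  · rw [lsh_lt h, image_union]
    exact vc_union (hP.vconn_hor (Nat.zero_le _) le_rfl (by omega) (by omega))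
      (hP.vconn_ver (Nat.zero_le _) (by omega) hn) (c := P (k, k + 1))
      ⟨(k, k + 1), hm le_rfl (by omega), rfl⟩ ⟨(k, k + 1), vm le_rfl (by omega), rfl⟩
  · rw [lsh_ge h, image_empty]
    exact vconn_empty

/-! ### The theorem -/

/-- **Row FN.** Fins next to one sheet give `K_t`. -/
theorem kt_of_fins (t n₁ : ℕ) : ∃ T N₀ : ℕ, ∀ {α : Type u} {V σ : Type} (M' : Matroid α)
    (S : Set α) (ends : α → Sym2 (HV V σ)) (H : Host V σ) (N : ℤ), N₀ ≤ N →
    Emb S ends H N id → ∀ (s : σ) (a : Fin T → ℕ) (Φ : Fin T → Set (HV V σ)),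
    (∀ i, T ≤ a i ∧ a i < H.len s) → (∀ i, (Φ i).Finite) → (∀ i, VConn S ends (Φ i)) →
    (∀ i j, i ≠ j → Disjoint (Φ i) (Φ j)) →
    (∀ i, ∀ w ∈ Φ i, ∀ c < H.len s, ∀ b, w ≠ Sum.inr (s, c, b)) →
    (∀ i b, -N ≤ b → b ≤ -1 → Lnk S ends (Φ i) {Sum.inr (s, a i, b)}) →
    ∃ (κ : Type) (Y : EN.Sys κ) (P : ℕ → ℕ × ℕ → HV V σ) (lo hi : ℕ → ℕ) (n : ℕ)
      (B : κ → Set (HV V σ)) (col : ℕ → ℕ) (D : ℕ), Y.Ax D ∧
      RealU Y M' S ends P lo hi n B col ∧ n₁ ≤ n ∧
      (∀ j x, lo j ≤ x → x ≤ hi j → x < H.len s ∧ ∀ c < H.len s, lo j ≤ c ∧ c ≤ hi j ∧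
        ∀ b ≤ n, ∃ b' : ℤ, -N ≤ b' ∧ b' ≤ N ∧ b' ≠ 0 ∧ P j (c, b) = Sum.inr (s, c, b')) ∧
      Y.KT t := by
  refine ⟨2 * t + 5, n₁ + (2 * t + 5) + 2, ?_⟩
  obtain ⟨T, hT⟩ : ∃ T, T = 2 * t + 5 := ⟨_, rfl⟩
  rw [← hT]
  intro α V σ M' S ends H N hN hE s a Φ ha hfin hcon hdis hout hlnk
  have hN' : (n₁ : ℤ) + T + 2 ≤ N := by
    push_cast at hN
    exact hN
  obtain ⟨r, hr⟩ : ∃ r, r = H.len s - 1 := ⟨_, rfl⟩
  have ha0 := ha ⟨0, by omega⟩
  have hs : H.len s = r + 1 := by omega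
  have hTr : T ≤ r := by omega
  have hP : Page S ends (bpg (V := V) s N) 0 r (n₁ + (T + 1)) := by
    rw [hr]
    exact bpg_page hE s (by omega) (by push_cast; omega)
  have hR : Reg 0 r T ⊆ Reg 0 r (n₁ + (T + 1)) := by
    rintro ⟨a, b⟩ h
    rw [mem_Reg] at h ⊢
    simp only at h ⊢
    omega
  obtain ⟨Ψ, hΨ⟩ : ∃ Ψ : ℕ → Set (HV V σ), Ψ = fun k => if h : k < T then Φ ⟨k, h⟩ else ∅ :=
    ⟨_, rfl⟩
  have hΨ1 : ∀ k (h : k < T), Ψ k = Φ ⟨k, h⟩ := fun k h => by rw [hΨ]; simp only [h, dif_pos]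
  have hΨ2 : ∀ k, T ≤ k → Ψ k = ∅ := fun k h => by
    rw [hΨ]; simp only [show ¬ k < T by omega, dif_neg, not_false_eq_true]
  have hin : ∀ k, ∀ w ∈ bpg (V := V) s N '' lsh T r k, ∃ c < H.len s, ∃ b : ℤ,
      w = Sum.inr (s, c, b) := by
    rintro k _ ⟨⟨x, y⟩, hc, rfl⟩
    have h1 := lsh_sub hTr hc
    rw [mem_Reg] at h1
    simp only at h1
    exact ⟨x, by omega, _, rfl⟩
  have hΨout : ∀ k, ∀ w ∈ Ψ k, ∀ c < H.len s, ∀ b, w ≠ Sum.inr (s, c, b) := by
    intro k w hw
    rcases Nat.lt_or_ge k T with h | h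
    · rw [hΨ1 k h] at hw
      exact hout _ w hw
    · rw [hΨ2 k h] at hw
      exact False.elim hw
  have hΨL : ∀ k k', Disjoint (Ψ k) (bpg (V := V) s N '' lsh T r k') := by
    intro k k'
    rw [Set.disjoint_left]
    intro w hw hw'
    obtain ⟨c, hc, b, hb⟩ := hin k' w hw'
    exact hΨout k w hw c hc b hb
  -- a fin is next to all `L`s
  have hfl : ∀ k < T, ∀ k' < T, ∀ X : Set (HV V σ),
      Lnk S ends (Ψ k) (X ∪ bpg (V := V) s N '' lsh T r k') := by
    intro k hk k' hk' X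
    obtain ⟨h1, h2⟩ := ha ⟨k, hk⟩
    obtain ⟨e, he, x, hx, y, hy, hxy⟩ := hlnk ⟨k, hk⟩ (-N + ((k' + 1 : ℕ) : ℤ))
      (by push_cast; omega) (by push_cast; omega)
    refine ⟨e, he, x, by rw [hΨ1 k hk]; exact hx, y, Or.inr ?_, hxy⟩
    rw [mem_singleton_iff.1 hy]
    exact ⟨(a ⟨k, hk⟩, k' + 1), mem_lsh.2 ⟨hk', Or.inl ⟨rfl, by simp only; omega,
      by simp only; omega⟩⟩, rfl⟩
  refine ⟨ℕ, YF T, fun j c => bpg s N (c.1, c.2 + (T + 1)), fun j => if j = 0 then 0 else 1,
    fun j => if j = 0 then r else 0, n₁, fun k => Ψ k ∪ bpg s N '' lsh T r k, fun x => x, T,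
    YF_ax (by omega), ?_, le_rfl, ?_, YF_kt (by omega)⟩
  · refine ⟨⟨?_, ?_⟩, ?_, ?_, ?_, ?_, ?_, ?_, ?_, ?_⟩
    · intro j
      by_cases hj : j = 0
      · simp only [hj, if_true]
        refine ⟨?_, ?_, ?_⟩
        · rintro ⟨a, b⟩ ⟨a', b'⟩ h1 h2 h3 h1' h2' h3' h
          simp only at h1 h2 h3 h1' h2' h3' h
          have h4 := hP.inj (a, b + (T + 1)) (a', b' + (T + 1)) h1 h2
            (by simp only; omega) h1' h2' (by simp only; omega) h
          simp only [Prod.mk.injEq] at h4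
          exact Prod.ext h4.1 (by simp only; omega)
        · intro x b h1 h2 h3
          have h4 := hP.ver x (b + (T + 1)) h1 h2 (by omega)
          have e : b + (T + 1) + 1 = b + 1 + (T + 1) := by omega
          rw [e] at h4
          exact h4
        · intro x b h1 h2 h3 h4
          exact hP.hor x (b + (T + 1)) h1 h2 (by omega) (by omega)
      · simp only [hj, if_false]
        refine ⟨?_, ?_, ?_⟩
        · intro c c' h1 h2
          omega
        · intro x b h1 h2
          omega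
        · intro x b h1 h2
          omega
    · intro j j' hjj c hc c' hc' _
      rw [mem_Reg] at hc hc'
      by_cases hj : j = 0
      · have hj' : j' ≠ 0 := fun h => hjj (hj.trans h.symm)
        simp only [hj', if_false] at hc'
        omega
      · simp only [hj, if_false] at hc
        omega
    · intro k
      refine Set.Finite.union ?_ ((lsh_fin _ _ _).image _)
      rcases Nat.lt_or_ge k T with h | h
      · rw [hΨ1 k h]
        exact hfin _
      · rw [hΨ2 k h]
        exact finite_empty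
    · intro k
      rcases Nat.lt_or_ge k T with h | h
      · have h1 : VConn S ends (Ψ k) := by
          rw [hΨ1 k h]
          exact hcon _
        have h2 := hfl k h k h ∅
        rw [empty_union] at h2
        exact vc_lnk h1 (lsh_con hP hTr (by omega)) h2
      · rw [hΨ2 k h, empty_union]
        exact lsh_con hP hTr (by omega)
    · intro k k' hk
      rw [Set.disjoint_union_left, Set.disjoint_union_right, Set.disjoint_union_right]
      refine ⟨⟨?_, hΨL k k'⟩, (hΨL k' k).symm,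
        hP.disj ((lsh_sub hTr).trans hR) ((lsh_sub hTr).trans hR) (lsh_disj hk)⟩
      rcases Nat.lt_or_ge k T with h | h
      · rcases Nat.lt_or_ge k' T with h' | h'
        · rw [hΨ1 k h, hΨ1 k' h']
          exact hdis _ _ (fun e => hk (by simpa using e))
        · rw [hΨ2 k' h']
          exact disjoint_empty _
      · rw [hΨ2 k h]
        exact empty_disjoint _
    · rintro k j ⟨x, y⟩ hc hw
      rw [mem_Reg] at hc
      by_cases hj : j = 0
      · simp only [hj, if_true] at hc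
        rcases hw with hw | ⟨c, hc', h⟩
        · exact hΨout k _ hw x (by omega) _ rfl
        · have h1 := lsh_sub hTr hc'
          rw [mem_Reg] at h1
          have h2 := hP.inj c (x, y + (T + 1)) h1.1 h1.2.1 (by omega) (by simp only; omega)
            (by simp only; omega) (by simp only; omega) h
          rw [h2] at h1
          simp only at h1
          omega
      · simp only [hj, if_false] at hc
        omega
    · intro x hx
      have hx' : x < T := hx
      refine ⟨Nat.zero_le _, ?_, ?_⟩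
      · show x ≤ if (0 : ℕ) = 0 then r else 0
        rw [if_pos rfl]
        omega
      · obtain ⟨e, he, h2⟩ := hP.ver x T (Nat.zero_le _) (by omega) (by omega)
        have h3 : ((x, T) : ℕ × ℕ) ∈ lsh T r x :=
          mem_lsh.2 ⟨hx', Or.inr ⟨rfl, show x + 1 ≤ T by omega, le_rfl⟩⟩
        refine ⟨e, he, _, Or.inr ⟨_, h3, rfl⟩, _, rfl, ?_⟩
        rw [h2]
        have e3 : (0 : ℕ) + (T + 1) = T + 1 := by omega
        simp only [e3]
    · intro k k' hkk
      obtain ⟨e, he, x, hx, y, hy, hxy⟩ := hfl k hkk.1 k' hkk.2.1 (Ψ k')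
      exact ⟨e, he, x, Or.inl hx, y, hy, hxy⟩
    · intro x y hxy _ _
      exact hxy
    · intro I hI
      have : I = ∅ := by
        rw [Finset.eq_empty_iff_forall_notMem]
        intro x hx
        exact hI x hx
      rw [this]
      unfold JU
      rw [Finset.sum_empty]
      exact Nat.zero_le _
  · intro j x h1 h2
    by_cases hj : j = 0
    · simp only [hj, if_true] at h1 h2 ⊢
      refine ⟨by omega, fun c hc => ⟨Nat.zero_le _, by omega, fun b hb => ?_⟩⟩
      refine ⟨-N + ((b + (T + 1) : ℕ) : ℤ), ?_, ?_, ?_, rfl⟩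
      · omega
      · push_cast; omega
      · push_cast; omega
    · simp only [hj, if_false] at h1 h2
      omega

end TST
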