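import Pool.Agent.TST.SGAlpha
import Pool.Agent.EN.PatDefs
import Pool.Agent.TST.KtFins

/-!
# Row PF of T-star: fins of the strip give `K_t` (helper88)

The sheet `s₀` is the host; the fins are the columns of the sheet `s₁` in the windows `b < 0`.
-/

open Set Relation
open scoped Matroid

namespace TST

open BIC Gad EN BICS Mdl

universe u

section

variable {α : Type u} {X₀ β σ : Type} {M : Matroid α} {W : RW X₀ β} {el : β → ℕ → α} {ln : σ → ℕ}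
  {N : ℕ} {T : Strip W (CI ln) N} {Lm : ℕ} {Sf : Set α} {eL : α → Sym2 (HV (OV X₀ β Lm) σ)}
  {Q : Set α} {BQ : Set β} {u : ℕ} {Ed : CI ln → CI ln → Prop} {Rg : Set α}

lemma cv_notMid_pf (i : CI ln) {s : σ} {c m : ℕ} {b : ℤ} (h0 : b ≠ 0) (h1 : b ≤ N) :
    (cv i b : HV (OV X₀ β Lm) σ) ∉ MidS N s c m := by
  rintro ⟨b', h, h2⟩
  have h3 : b = b' := by
    have h4 := Sum.inr_injective h
    simp only [Prod.mk.injEq] at h4
    exact h4.2.2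
  omega

/-- the steps of a column are cheap -/
lemma SG.step_pf (h : SG M W el T Lm Sf eL Q BQ u Ed Rg) {Lost : Set β} (i : CI ln) {b : ℤ}
    (hb : (-(N : ℤ) ≤ b ∧ b < -1) ∨ (1 ≤ b ∧ b < N)) :
    GAdj (Sh W el T Lost Rg eL) eL (cv i b) (cv i (b + 1)) := by
  obtain ⟨k, h1, h2, h3⟩ := sga_step (T := T) (Lm := Lm) i b hb
  have h4 := h.row (T.R i) k (h2.trans (T.lt i))
  refine ⟨el (T.R i) k, ⟨Or.inl (Or.inr ⟨i, k, h1, h2, rfl⟩), ?_⟩, by rw [h4.2, h3]⟩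
  intro v hv j
  rw [h4.2, h3, Sym2.mem_iff] at hv
  rcases hv with rfl | rfl
  · exact cv_notMid_pf i (by omega) (by omega)
  · exact cv_notMid_pf i (by omega) (by omega)

/-- joined columns -/
lemma SG.rung_pf (h : SG M W el T Lm Sf eL Q BQ u Ed Rg) {Lost : Set β} {i j : CI ln}
    (hij : Ed i j) {b : ℤ} (h1 : -(N : ℤ) ≤ b) (h2 : b ≤ N) (h0 : b ≠ 0) :
    GAdj (Sh W el T Lost Rg eL) eL (cv i b) (cv j b) := by
  obtain ⟨e, he, hee⟩ := h.rg_ex i j hij b h1 h2 h0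
  refine ⟨e, ⟨Or.inr he, ?_⟩, hee⟩
  intro v hv j'
  rw [hee, Sym2.mem_iff] at hv
  rcases hv with rfl | rfl
  · exact cv_notMid_pf i h0 h2
  · exact cv_notMid_pf j h0 h2

/-- the host is in the graph -/
theorem SG.emb_pf (h : SG M W el T Lm Sf eL Q BQ u Ed Rg) {Lost : Set β} {len : σ → ℕ}
    (hlen : ∀ s, len s = ln s ∨ len s = 0)
    (hEd : ∀ i j : CI ln, i.1.1 = j.1.1 → j.1.2 = i.1.2 + 1 → len i.1.1 ≠ 0 → Ed i j) :
    Emb (Sh W el T Lost Rg eL) eL (hostL (Sh W el T Lost Rg eL) eL N len) N id where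
  inj := fun _ _ _ _ h => h
  adj := by
    have hln : ∀ (s : σ) (c : ℕ), c < len s → c < ln s ∧ len s ≠ 0 := by
      intro s c hc
      rcases hlen s with h1 | h1
      · rw [h1] at hc
        exact ⟨hc, by omega⟩
      · omega
    have key : ∀ u v : HV (OV X₀ β Lm) σ, NZ (hostL (Sh W el T Lost Rg eL) eL N len) N u →
        NZ (hostL (Sh W el T Lost Rg eL) eL N len) N v →
        (hostL (Sh W el T Lost Rg eL) eL N len).E N u v →
        GAdj (Sh W el T Lost Rg eL) eL u v := by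
      rintro (v | ⟨s, c, b⟩) (w | ⟨s', c', b'⟩) hu hv huv
      · exact huv
      · obtain ⟨_, ⟨rfl, h2⟩ | ⟨rfl, h2⟩⟩ := huv
        · exact h2
        · exact h2
      · exact False.elim huv
      · obtain ⟨rfl, h2, h3, h4, h5⟩ := huv
        obtain ⟨_, u2, u3, u4⟩ := hu
        obtain ⟨_, v2, v3, v4⟩ := hv
        obtain ⟨g1, g2⟩ := hln s c' h2
        rcases h5 with ⟨rfl, rfl⟩ | ⟨rfl, rfl, _⟩
        · exact h.step_pf ⟨(s, c), g1⟩ (b := b) (by omega)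
        · have g3 : c < ln s := (Nat.lt_succ_self c).trans g1
          exact h.rung_pf (i := ⟨(s, c), g3⟩) (j := ⟨(s, c + 1), g1⟩) (hEd _ _ rfl rfl g2) u2 u3 u4
    intro u v hu hv huv
    rcases huv with h1 | h1
    · exact key u v hu hv h1
    · exact (key v u hv hu h1).symm

end

/-- **Row PF.** -/
theorem SG.patFins (Nn mp t n₁ : ℕ) : ∃ Tn N₀ : ℕ, ∀ {α : Type u} {X₀ β σ : Type} {M : Matroid α}
    [M.Finite] {W : RW X₀ β} {el : β → ℕ → α} {ln : σ → ℕ} {N : ℕ} {T : Strip W (CI ln) N} {Lm : ℕ}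
    {Sf : Set α} {eL : α → Sym2 (HV (OV X₀ β Lm) σ)} {Q : Set α} {BQ : Set β} {u : ℕ}
    {Ed : CI ln → CI ln → Prop} {Rg : Set α}, SG M W el T Lm Sf eL Q BQ u Ed Rg → N₀ ≤ N →
    ∀ (s₀ s₁ : σ) (len : σ → ℕ), s₀ ≠ s₁ → len s₀ = ln s₀ → (∀ s ≠ s₀, len s = 0) →
    (∀ i j : CI ln, i.1.1 = s₀ → j.1.1 = s₀ → j.1.2 = i.1.2 + 1 → Ed i j) → ∀ a : Fin Tn → ℕ,
    (∀ x, Tn ≤ a x ∧ a x < ln s₀) → Tn ≤ ln s₁ →
    (∀ x : Fin Tn, ∀ i j : CI ln, i.1 = (s₁, (x : ℕ)) → j.1 = (s₀, a x) → Ed i j) →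
    TSK.PatOut (M ／ Q) (Sh W el T univ Rg eL) eL (hostL (Sh W el T univ Rg eL) eL N len) N
      Nn mp t n₁ := by
  classical
  obtain ⟨T₀, N₀, hk⟩ := kt_of_fins.{u} t n₁
  refine ⟨T₀, N₀, ?_⟩
  intro α X₀ β σ M _ W el ln N T Lm Sf eL Q BQ u Ed Rg h hN s₀ s₁ len hs hl0 hl hEd a ha hT hfin
  have hE := h.emb_pf (Lost := univ) (len := len) (fun s => by
    by_cases hs' : s = s₀
    · rw [hs']
      exact Or.inl hl0
    · exact Or.inr (hl s hs')) (fun i j hij hj hi => by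
      have hi0 : i.1.1 = s₀ := by
        by_contra hne
        exact hi (hl _ hne)
      exact hEd i j hi0 (hij ▸ hi0) hj)
  obtain ⟨fn, hfn⟩ : ∃ fn : Fin T₀ → CI ln, ∀ x, (fn x).1 = (s₁, (x : ℕ)) :=
    ⟨fun x => ⟨(s₁, (x : ℕ)), lt_of_lt_of_le x.2 hT⟩, fun _ => rfl⟩
  obtain ⟨Φ, hΦ⟩ : ∃ Φ : Fin T₀ → Set (HV (OV X₀ β Lm) σ), ∀ x, Φ x =
      (fun i : ℕ => (cv (fn x) (-(N : ℤ) + i) : HV (OV X₀ β Lm) σ)) '' {i | i ≤ N - 1} :=
    ⟨_, fun _ => rfl⟩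
  have c1 : ∀ x, (Φ x).Finite := fun x => by
    rw [hΦ]
    exact (finite_le_nat _).image _
  have c2 : ∀ x, VConn (Sh W el T univ Rg eL) eL (Φ x) := by
    intro x
    rw [hΦ]
    refine vconn_path _ _ fun i hi' => ?_
    have h6 := h.step_pf (Lost := univ) (fn x) (b := -(N : ℤ) + i) (Or.inl ⟨by omega, by omega⟩)
    have e : -(N : ℤ) + ((i + 1 : ℕ) : ℤ) = -(N : ℤ) + i + 1 := by push_cast; ring
    rw [e]
    exact h6
  have c3 : ∀ x y, x ≠ y → Disjoint (Φ x) (Φ y) := by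
    intro x y hxy
    rw [hΦ, hΦ, Set.disjoint_left]
    rintro _ ⟨i, _, rfl⟩ ⟨j, _, hj⟩
    have h6 := Sum.inr_injective hj
    simp only [Prod.mk.injEq] at h6
    rw [hfn, hfn] at h6
    exact hxy (Fin.ext h6.2.1.symm)
  have c4 : ∀ x, ∀ w ∈ Φ x, ∀ c < (hostL (Sh W el T univ Rg eL) eL N len).len s₀, ∀ b,
      w ≠ Sum.inr (s₀, c, b) := by
    intro x w hw c _ b hb
    rw [hΦ] at hw
    obtain ⟨i, _, rfl⟩ := hw
    have h6 := Sum.inr_injective hb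
    simp only [Prod.mk.injEq] at h6
    rw [hfn] at h6
    exact hs h6.1.symm
  have c5 : ∀ x (b : ℤ), -(N : ℤ) ≤ b → b ≤ -1 → Lnk (Sh W el T univ Rg eL) eL (Φ x)
      {Sum.inr (s₀, a x, b)} := by
    intro x b h6 h7
    obtain ⟨e, he, hee⟩ := h.rung_pf (Lost := univ) (hfin x (fn x) ⟨(s₀, a x), (ha x).2⟩ (hfn x)
      rfl) h6 (by omega) (by omega)
    refine ⟨e, he, cv (fn x) b, ?_, _, rfl, hee⟩
    rw [hΦ]
    refine ⟨(b + N).toNat, show (b + N).toNat ≤ N - 1 by omega, ?_⟩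
    have e2 : -(N : ℤ) + (((b + N).toNat : ℕ) : ℤ) = b := by omega
    simp only [e2]
  obtain ⟨κ, Y, P, lo, hi, n, B, col, D, h1, h2, h3, h4, h5⟩ := hk (M ／ Q)
    (Sh W el T univ Rg eL) eL (hostL (Sh W el T univ Rg eL) eL N len) N (by exact_mod_cast hN) hE
    s₀ a Φ (fun x => ⟨(ha x).1, by
      show a x < len s₀
      rw [hl0]
      exact (ha x).2⟩) c1 c2 c3 c4 c5
  exact ⟨κ, Y, P, lo, hi, n, B, col, D, h1, h2, h3, fun j x hx hx' => ⟨s₀, h4 j x hx hx'⟩,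
    Or.inr (Or.inr (Or.inr (Or.inr (Or.inr (Or.inr (Or.inr (Or.inr (Or.inr (Or.inr h5)))))))))⟩

end TST
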