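import Pool.Agent.TST.SGHost
import Pool.Agent.TST.SGAlphaM

/-!
# Row HS of the host of T-star, with the elements which avoid the nodes of the rows in `BQ`
-/

open Set Relation
open scoped Matroid

namespace TST

open BIC Gad EN BICS Mdl

universe u

variable {α : Type u} {X₀ β σ : Type}

section host

variable {M : Matroid α} {W : RW X₀ β} {el : β → ℕ → α} {ln : σ → ℕ} {N : ℕ}
  {T : Strip W (CI ln) N} {Lm : ℕ} {Sf : Set α} {eL : α → Sym2 (HV (OV X₀ β Lm) σ)} {Q : Set α}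
  {BQ : Set β} {u : ℕ} {Ed : CI ln → CI ln → Prop} {Rg : Set α}

/-- columns through the window `0` -/
lemma SG.col0Q (h : SG M W el T Lm Sf eL Q BQ u Ed Rg) {Lost : Set β}
    (hL : ∀ r ∉ Lost, W.nd r 0 ∉ rowV W BQ ∧ W.nd r (W.len r) ∉ rowV W BQ) {len : σ → ℕ}
    (hlen : ∀ s, len s = ln s ∨ len s = 0) :
    TSK.Col0 (SfQ T Lm BQ Sf eL) eL (hostL (Sh W el T Lost Rg eL) eL N len) N := by
  intro s c hc
  have hc' : c < ln s := by
    have h1 : c < len s := hc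
    rcases hlen s with h2 | h2 <;> omega
  have hlt := T.lt (⟨(s, c), hc'⟩ : CI ln)
  obtain ⟨h1, h2, h3⟩ := lab_mid T (S := SfQ T Lm BQ Sf eL) (el := el) (eL := eL) h.N1
    (⟨(s, c), hc'⟩ : CI ln) fun k k1 k2 => ⟨h.sw_off (Lost := Lost) hL
      (Or.inl (Or.inr ⟨_, k, k1, k2, rfl⟩)), (h.row _ k (by omega)).2⟩
  exact ⟨T.m ⟨(s, c), hc'⟩, h1, h2, h3⟩

/-- **Row HS**, for the elements which avoid the nodes of the rows in `BQ`. -/
theorem SG.hostQ [M.Finite] (h : SG M W el T Lm Sf eL Q BQ u Ed Rg) {Lost : Set β}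
    (hL : ∀ r ∉ Lost, W.nd r 0 ∉ rowV W BQ ∧ W.nd r (W.len r) ∉ rowV W BQ) {len : σ → ℕ}
    (hlen : ∀ s, len s = ln s ∨ len s = 0)
    (hEd : ∀ i j : CI ln, i.1.1 = j.1.1 → j.1.2 = i.1.2 + 1 → len i.1.1 ≠ 0 → Ed i j) :
    Sh W el T Lost Rg eL ⊆ SfQ T Lm BQ Sf eL ∧ Sw W el T Lost Rg ⊆ SfQ T Lm BQ Sf eL ∧
    Disjoint Q (Sw W el T Lost Rg) ∧
    Frm (M ／ Q) (Sw W el T Lost Rg) eL ∧ Frm (M ／ Q) (Sh W el T Lost Rg eL) eL ∧
    Emb (Sh W el T Lost Rg eL) eL (hostL (Sh W el T Lost Rg eL) eL N len) N id ∧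
    TSK.Col0 (SfQ T Lm BQ Sf eL) eL (hostL (Sh W el T Lost Rg eL) eL N len) N ∧
    ∀ A : Set (HV (OV X₀ β Lm) σ), (∀ w ∈ A, NZ (hostL (Sh W el T Lost Rg eL) eL N len) N w) →
      ins (Sw W el T Lost Rg) eL A ⊆ ins (Sh W el T Lost Rg eL) eL A := by
  obtain ⟨_, _, h3, h4, h5, h6, _, h8⟩ := h.host (Lost := Lost) hL hlen hEd
  exact ⟨fun _ he => h.sw_off hL he.1, fun _ he => h.sw_off hL he, h3, h4, h5, h6,
    h.col0Q hL hlen, h8⟩

end host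

end TST
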