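import Pool.Agent.TST.CompSG
import Pool.Agent.TST.PatFins
import Pool.Agent.TST.AlphaFin
import Pool.Agent.TST.AlphaT
import Pool.Agent.TST.SGHostQ

/-!
# T-star, row (C) of `HostOfBase`: fins
-/

open Set Relation BIC BICS CWL
open scoped Matroid

namespace TSH

universe u

open Mdl Mdj EN Gad TST EN.Wall

/-- **Fins** (row C of `HostOfBase`). -/
theorem out_fins (κ k₁ N₀ y₀ Nn mp t n₁ : ℕ) : ∃ t₂ c₀ : ℕ, ∀ ρ : ℕ, ∃ s₁ w₀ : ℕ, ∀ s ≥ s₁,
    ∀ w ≥ w₀, ∃ n₀ : ℕ, ∀ {α : Type u} (M : Matroid α) [M.Finite]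
    (𝒯 : Finset (ℕ × ℕ)) (L₁ : Bool × ℕ × ℕ → List α) (f₁ : α → Sym2 ((ℕ × ℕ) ⊕ α))
    (e₁ : Bool × ℕ × ℕ → α) (u₁ : ℕ) (L₂ : Bool × ℕ × ℕ → List α) (f₂ : α → Sym2 ((ℕ × ℕ) ⊕ α))
    (e₂ : Bool × ℕ × ℕ → α) (u₂ u η nT : ℕ) (F : ℕ → ℕ) (a n : ℕ) (el : SegR n → ℕ → α)
    (S Q : Set α) (ends : α → Sym2 (Nd (WV n) (SegR n))) (BQ Bd : Finset (SegR n))
    (τ : ℕ → ℕ × ℕ) (m : ℕ) (R : ℕ → SegR n) (q : ℕ → ℕ → ℕ) (G : ℕ → ℕ → Prop) (P : Finset ℕ),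
    n₀ ≤ nT →
    Ctx κ ρ M w s 𝒯 L₁ f₁ e₁ u₁ L₂ f₂ e₂ u₂ u η nT F a n el S Q ends BQ Bd τ m R q G P →
    ∀ τ₀ ≥ c₀, Fins (PG G P) (fun i => R i.1) τ₀ t₂ → ∀ (e c h₀ : ℕ) (g : ℕ → ℕ),
      TSK.HostOut M u k₁ e N₀ y₀ c h₀ g Nn mp t n₁ := by
  classical
  obtain ⟨Tn, N₁, hpat⟩ := SG.patFins.{u} Nn mp t n₁
  obtain ⟨c₀, hc₀⟩ := wall_hX.{u} κ k₁
  obtain ⟨N, hN⟩ : ∃ N, N = N₀ + N₁ + 1 := ⟨_, rfl⟩
  refine ⟨Tn, c₀, fun ρ => ?_⟩
  obtain ⟨w₀, s₁, hX⟩ := hc₀ ρ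
  obtain ⟨n', hn'⟩ : ∃ n', n' = y₀ + c₀ + 2 := ⟨_, rfl⟩
  refine ⟨s₁ + (κ + 1) * (2 * n' + 2), w₀, ?_⟩
  intro s hs w hw
  refine ⟨6 * N + 9, ?_⟩
  intro α M _ 𝒯 L₁ f₁ e₁ u₁ L₂ f₂ e₂ u₂ u η nT Fw a n el S Q ends BQ Bd τs m R q G P hnT hC
    τ₀ hτ₀ hF e c h₀ g
  obtain ⟨nn, p, wf, af, hp1, hp2, hp3, hp4, hp5, hp6⟩ := hF
  obtain ⟨ln, hln0, hln1⟩ : ∃ ln : Bool → ℕ, ln false = nn ∧ ln true = Tn :=
    ⟨fun b => if b then Tn else nn, by simp, by simp⟩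
  obtain ⟨col, hc0, hc1⟩ : ∃ col : CI ln → {i // i ∈ P}, (∀ i, i.1.1 = false → col i = p i.1.2) ∧
      ∀ i (x : Fin Tn), i.1 = (true, (x : ℕ)) → col i = wf x := by
    refine ⟨fun i => if i.1.1 = false then p i.1.2 else
      if h : i.1.2 < Tn then wf ⟨i.1.2, h⟩ else p 0, ?_, ?_⟩
    · intro i hi
      simp only [if_pos hi]
    · intro i x hx
      have h1 : ¬ (i.1.1 = false) := by rw [hx]; simp
      have h2 : i.1.2 < Tn := by rw [hx]; exact x.2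
      simp only [if_neg h1, dif_pos h2]
      congr 1
      apply Fin.ext
      show i.1.2 = x
      rw [hx]
  have hlt0 : ∀ i : CI ln, i.1.1 = false → i.1.2 < nn := fun i hi => by
    have h1 := i.2
    rw [hi, hln0] at h1
    exact h1
  have hcs : ∀ i : CI ln, i.1.1 = false ∨ ∃ x : Fin Tn, i.1 = (true, (x : ℕ)) := by
    intro i
    rcases hb : i.1.1 with _ | _
    · exact Or.inl rfl
    · right
      have h1 := i.2
      rw [hb, hln1] at h1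
      exact ⟨⟨i.1.2, h1⟩, Prod.ext hb rfl⟩
  have hcol : Function.Injective col := by
    intro i j hij
    apply Subtype.ext
    rcases hcs i with hi | ⟨x, hx⟩
    · rcases hcs j with hj | ⟨y, hy⟩
      · rw [hc0 i hi, hc0 j hj] at hij
        exact Prod.ext (hi.trans hj.symm) (hp2 _ _ (hlt0 i hi) (hlt0 j hj) hij)
      · rw [hc0 i hi, hc1 j y hy] at hij
        exact absurd hij.symm (hp5 y _ (hlt0 i hi))
    · rcases hcs j with hj | ⟨y, hy⟩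
      · rw [hc1 i x hx, hc0 j hj] at hij
        exact absurd hij (hp5 x _ (hlt0 j hj))
      · rw [hc1 i x hx, hc1 j y hy] at hij
        rw [hx, hy, hp4 hij]
  have hF1 : Finite (CI ln) := Finite.of_injective col hcol
  have hFt : Fintype (CI ln) := Fintype.ofFinite _
  obtain ⟨Ed, hEd⟩ : ∃ Ed : CI ln → CI ln → Prop, ∀ i j, Ed i j ↔ (PG G P).Adj (col i) (col j) :=
    ⟨_, fun _ _ => Iff.rfl⟩
  have hS : Sel L₁ a n BQ nT m R q G P ln N (fun b => b + 1) (fun i => (col i).1) Ed univ := by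
    refine ⟨by omega, fun a b hab _ => by show a + 1 < b + 1; omega, by show 1 ≤ 0 + 1; omega,
      by show 3 * (2 * N + 1) + 5 < nT; omega, fun i => (col i).2,
      fun i j hij => hcol (Subtype.ext hij), ?_, fun r hr => absurd (mem_univ r) hr⟩
    intro i j hij
    rw [hEd] at hij
    obtain ⟨h1, h2⟩ := (SimpleGraph.fromRel_adj _ _ _).1 hij
    exact ⟨fun h3 => h1 (by rw [h3]), h2⟩
  obtain ⟨ρr, hρ⟩ := exists_rungC hC
  obtain ⟨K, T, Lm, eL, ho⟩ := hC.sgOut hρ hS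
  have hp := hC.pair
  have h := hC.base
  have hwall := h.wall
  -- the tile
  obtain ⟨b₀, hb₀⟩ : ∃ b₀, b₀ = 3 * (N + 1) + 1 := ⟨_, rfl⟩
  have hcelT : Disjoint (crr L₂ (shS (τs b₀).1 (τs b₀).2 '' Seg s)) (cel (inW L₁ a n) K el) := by
    rw [hb₀]
    exact ho.cel_tile.symm
  have hshT : Disjoint (Sh ((inW L₁ a n).shrink K) (els K el) T univ
      (RgS ρr N (fun b => b + 1) (fun i => (col i).1) Ed) eL)
      (crr L₂ (shS (τs b₀).1 (τs b₀).2 '' Seg s)) := by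
    rw [hb₀]
    exact ho.sh_tile
  have hancT : Disjoint (SfQ T Lm BQ
      (kel K el ∪ RgS ρr N (fun b => b + 1) (fun i => (col i).1) Ed) eL)
      (e₂ '' (shS (τs b₀).1 (τs b₀).2 '' Seg s)) := by
    rw [hb₀]
    exact ho.sf_anchor
  have htile : shS (τs b₀).1 (τs b₀).2 '' Seg s ⊆ tiles s 𝒯 := by
    intro x hx
    exact ⟨τs b₀, h.tau b₀ (by omega), hx⟩
  obtain ⟨E₂, D₂, d1, d2, -, d3, d4, d5, d6⟩ := tileGrid hp htile hcelT (κ := κ)
    (n' := n') (c := c₀) hC.hu₂ (by omega) (by omega) (by omega)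
  have fM : (M ／ cel (inW L₁ a n) K el).Finite := ⟨M.ground_finite.subset sdiff_subset⟩
  obtain ⟨len, hl0, hl1⟩ : ∃ len : Bool → ℕ, len false = ln false ∧ len true = 0 :=
    ⟨fun b => if b then 0 else ln false, by simp, by simp⟩
  have hlen' : ∀ s, s ≠ false → len s = 0 := by
    intro s hs'
    rcases s with _ | _
    · exact absurd rfl hs'
    · exact hl1
  have hstep : ∀ i j : CI ln, i.1.1 = false → j.1.1 = false → j.1.2 = i.1.2 + 1 → Ed i j := by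
    intro i j hi hj hij
    rw [hEd, hc0 i hi, hc0 j hj, hij]
    refine hp1 _ ?_
    rw [← hij]
    exact hlt0 j hj
  obtain ⟨k1, _, k3, _, k5, k6, k7, _⟩ := ho.sg.hostQ (Lost := univ)
    (fun r hr => absurd (mem_univ r) hr) (len := len)
    (fun s => by
      rcases s with _ | _
      · exact Or.inl hl0
      · exact Or.inr hl1)
    (fun i j h1 h2 h3 => by
      have hi : i.1.1 = false := by
        by_contra hne
        exact h3 (hlen' _ hne)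
      exact hstep i j hi (h1 ▸ hi) h2)
  have hal := ho.sg.alphaFin (s₀ := false) (len := len) hl0 hlen' (E₂ := E₂) (k₁ := k₁) (c := c₀)
    (fun X hXE hXd hXr => hX w hw s (by omega) M (tiles s 𝒯) L₁ f₁ e₁ u₁ L₂ f₂ e₂ u₂ hp hC.hu₁
      hC.hu₂ hC.hot (τs b₀).1 (τs b₀).2 htile a n el hwall.2.2.1 h.el_eq K ho.Kne ho.Klt hcelT X
      hXE (d6 X hXd) hXr) (by
      obtain ⟨Rs, hRs⟩ : ∃ Rs : Finset (SegR n), ∀ r, r ∈ Rs ↔
          r ∈ (fun i : {i // i ∈ P} => R i.1) '' (p '' {i | i < nn}) :=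
        ⟨(Set.toFinite ((fun i : {i // i ∈ P} => R i.1) '' (p '' {i | i < nn}))).toFinset,
          fun r => Set.Finite.mem_toFinset _⟩
      refine ⟨Rs, ?_, ?_⟩
      · have h1 : (fun i : {i // i ∈ P} => R i.1) '' (p '' {i | i < nn}) = (Rs : Set (SegR n)) := by
          ext r
          rw [Finset.mem_coe, hRs]
        rw [h1, Set.ncard_coe_finset] at hp3
        omega
      · intro r hr
        obtain ⟨_, ⟨x, hx, rfl⟩, rfl⟩ := (hRs r).1 hr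
        have hx' : x < ln false := by
          rw [hln0]
          exact hx
        refine ⟨⟨(false, x), hx'⟩, rfl, ?_⟩
        rw [ho.TR, hc0 ⟨(false, x), hx'⟩ rfl]) e
  have hpt := hpat ho.sg (by omega) false true len (by simp) hl0 hlen' hstep af
    (fun x => ⟨(hp6 x).1, by rw [hln0]; exact (hp6 x).2.1⟩) (by rw [hln1]) (by
      intro x i j hi hj
      have hj0 : j.1.1 = false := by rw [hj]
      rw [hEd, hc1 i x hi, hc0 j hj0, hj]
      exact (hp6 x).2.2.symm)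
  have hmin : M ／ cel (inW L₁ a n) K el ≤m M := by
    refine ⟨cel (inW L₁ a n) K el, ∅, ?_⟩
    rw [Matroid.delete_empty]
  refine ⟨M ／ cel (inW L₁ a n) K el, _, Bool, inferInstance, inferInstance,
    _, N, _, SfQ T Lm BQ (kel K el ∪ RgS ρr N (fun b => b + 1) (fun i => (col i).1) Ed) eL,
    Q \ cel (inW L₁ a n) K el, E₂, D₂, eL, n', hmin, by omega,
    by exact_mod_cast (show N₀ ≤ N by omega), ⟨k1, ho.sg.frmU, ho.sg.Q_sub, ?_, k5,
      fun _ => trivial, k6, k7, hancT.mono_right d1, hshT.mono_right d2, d3, d4, d5, hal⟩,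
    Or.inl hpt⟩
  exact k3.mono_right fun e he => he.1

end TSH
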