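import Pool.Agent.TST.CompSG
import Pool.Agent.TST.AlphaFin
import Pool.Agent.TST.AlphaT
import Pool.Agent.TST.SGHostQ

/-!
# T-star, row (B) of `HostOfBase`: the host of a path of columns
-/

open Set Relation BIC BICS CWL
open scoped Matroid

namespace TSH

universe u

open Mdl Mdj EN Gad TST EN.Wall

/-- **(B), the host** of a path of columns with more than `c₀` rows. -/
theorem line_host (κ k₁ y₀ : ℕ) : ∃ c₀ : ℕ, ∀ ρ : ℕ, ∃ s₁ w₀ : ℕ, ∀ s ≥ s₁, ∀ w ≥ w₀,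
    ∀ {α : Type u} (M : Matroid α) [M.Finite]
    (𝒯 : Finset (ℕ × ℕ)) (L₁ : Bool × ℕ × ℕ → List α) (f₁ : α → Sym2 ((ℕ × ℕ) ⊕ α))
    (e₁ : Bool × ℕ × ℕ → α) (u₁ : ℕ) (L₂ : Bool × ℕ × ℕ → List α) (f₂ : α → Sym2 ((ℕ × ℕ) ⊕ α))
    (e₂ : Bool × ℕ × ℕ → α) (u₂ u η nT : ℕ) (F : ℕ → ℕ) (a n : ℕ) (el : SegR n → ℕ → α)
    (S Q : Set α) (ends : α → Sym2 (Nd (WV n) (SegR n))) (BQ Bd : Finset (SegR n))
    (τ : ℕ → ℕ × ℕ) (m : ℕ) (R : ℕ → SegR n) (q : ℕ → ℕ → ℕ) (G : ℕ → ℕ → Prop) (P : Finset ℕ)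
    (ρr : ℕ → ℕ → ℕ → α × ℕ × ℕ) (N : ℕ) (f : ℕ → ℕ),
    Ctx κ ρ M w s 𝒯 L₁ f₁ e₁ u₁ L₂ f₂ e₂ u₂ u η nT F a n el S Q ends BQ Bd τ m R q G P →
    3 * f N + 1 < nT →
    ∀ (len : ℕ) (lbl : CI (fun _ : Unit => len) → ℕ) (Ed : CI (fun _ : Unit => len) →
      CI (fun _ : Unit => len) → Prop) (K : SegR n → Finset ℕ)
      (T : Strip ((inW L₁ a n).shrink K) (CI (fun _ : Unit => len)) N) (Lm : ℕ)
      (eL : α → Sym2 (HV (OV (WV n) (SegR n) Lm) Unit)),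
    SGOut M s L₁ L₂ e₂ u a n el S Q ends BQ τ R q ρr N f lbl Ed univ K T Lm eL →
    (∀ i j : CI (fun _ : Unit => len), j.1.2 = i.1.2 + 1 → Ed i j) →
    c₀ < {r | ∃ i, R (lbl i) = r}.ncard →
    ∃ (E₂ D₂ : Set α) (n' : ℕ), y₀ ≤ n' ∧ ∀ e : ℕ,
      TSK.HostD (M ／ cel (inW L₁ a n) K el)
        (Sh ((inW L₁ a n).shrink K) (els K el) T univ (RgS ρr N f lbl Ed) eL)
        (SfQ T Lm BQ (kel K el ∪ RgS ρr N f lbl Ed) eL)
        (Q \ cel (inW L₁ a n) K el) E₂ D₂ eL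
        (hostL (Sh ((inW L₁ a n).shrink K) (els K el) T univ (RgS ρr N f lbl Ed) eL) eL N
          (fun _ : Unit => len)) N u k₁ e n' := by
  classical
  obtain ⟨c₀, hc₀⟩ := wall_hX.{u} κ k₁
  refine ⟨c₀, fun ρ => ?_⟩
  obtain ⟨w₀, s₁, hX⟩ := hc₀ ρ
  obtain ⟨n', hn'⟩ : ∃ n', n' = y₀ + c₀ + 2 := ⟨_, rfl⟩
  refine ⟨s₁ + (κ + 1) * (2 * n' + 2), w₀, ?_⟩
  intro s hs w hw α M _ 𝒯 L₁ f₁ e₁ u₁ L₂ f₂ e₂ u₂ u η nT Fw a n el S Q ends BQ Bd τs m R q G P ρr N f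
    hC hnT len lbl Ed K T Lm eL ho hstep hrows
  have hF1 : Finite (CI (fun _ : Unit => len)) := by
    refine Finite.of_injective (fun i : CI (fun _ : Unit => len) => (⟨i.1.2, i.2⟩ : Fin len)) ?_
    intro i j hij
    exact Subtype.ext (Prod.ext rfl (congrArg Fin.val hij))
  have hp := hC.pair
  have h := hC.base
  have hwall := h.wall
  obtain ⟨b₀, hb₀⟩ : ∃ b₀, b₀ = 3 * f N + 1 := ⟨_, rfl⟩
  have hcelT : Disjoint (crr L₂ (shS (τs b₀).1 (τs b₀).2 '' Seg s)) (cel (inW L₁ a n) K el) := by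
    rw [hb₀]
    exact ho.cel_tile.symm
  have hshT : Disjoint (Sh ((inW L₁ a n).shrink K) (els K el) T univ (RgS ρr N f lbl Ed) eL)
      (crr L₂ (shS (τs b₀).1 (τs b₀).2 '' Seg s)) := by
    rw [hb₀]
    exact ho.sh_tile
  have hancT : Disjoint (SfQ T Lm BQ (kel K el ∪ RgS ρr N f lbl Ed) eL)
      (e₂ '' (shS (τs b₀).1 (τs b₀).2 '' Seg s)) := by
    rw [hb₀]
    exact ho.sf_anchor
  have htile : shS (τs b₀).1 (τs b₀).2 '' Seg s ⊆ tiles s 𝒯 := by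
    intro x hx
    exact ⟨τs b₀, h.tau b₀ (by omega), hx⟩
  obtain ⟨E₂, D₂, d1, d2, -, d3, d4, d5, d6⟩ := tileGrid hp htile hcelT (κ := κ)
    (n' := n') (c := c₀) hC.hu₂ (by omega) (by omega) (by omega)
  have fM : (M ／ cel (inW L₁ a n) K el).Finite := ⟨M.ground_finite.subset sdiff_subset⟩
  obtain ⟨k1, _, k3, _, k5, k6, k7, _⟩ := ho.sg.hostQ (Lost := univ)
    (fun r hr => absurd (mem_univ r) hr) (len := fun _ : Unit => len)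
    (fun s => Or.inl rfl)
    (fun i j h1 h2 h3 => hstep i j h2)
  have hvac : ∀ s : Unit, s ≠ () → (fun _ : Unit => len) s = 0 := fun s hs' => absurd rfl hs'
  refine ⟨E₂, D₂, n', by omega, fun e => ?_⟩
  have hal := ho.sg.alphaFin (s₀ := ()) (len := fun _ : Unit => len) rfl hvac (E₂ := E₂) (k₁ := k₁)
    (c := c₀)
    (fun X hXE hXd hXr => hX w hw s (by omega) M (tiles s 𝒯) L₁ f₁ e₁ u₁ L₂ f₂ e₂ u₂ hp hC.hu₁
      hC.hu₂ hC.hot (τs b₀).1 (τs b₀).2 htile a n el hwall.2.2.1 h.el_eq K ho.Kne ho.Klt hcelT X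
      hXE (d6 X hXd) hXr) (by
      obtain ⟨Rs, hRs⟩ : ∃ Rs : Finset (SegR n), ∀ r, r ∈ Rs ↔ r ∈ {r | ∃ i, R (lbl i) = r} :=
        ⟨(Set.toFinite {r | ∃ i, R (lbl i) = r}).toFinset, fun r => Set.Finite.mem_toFinset _⟩
      refine ⟨Rs, ?_, ?_⟩
      · have h1 : {r | ∃ i, R (lbl i) = r} = (Rs : Set (SegR n)) := by
          ext r
          rw [Finset.mem_coe, hRs]
        rw [h1, Set.ncard_coe_finset] at hrows
        omega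
      · intro r hr
        obtain ⟨i, rfl⟩ := (hRs r).1 hr
        refine ⟨i, rfl, ?_⟩
        rw [ho.TR]) e
  refine ⟨k1, ho.sg.frmU, ho.sg.Q_sub, ?_, k5,
      fun _ => trivial, k6, k7, hancT.mono_right d1, hshT.mono_right d2, d3, d4, d5, hal⟩
  exact k3.mono_right fun e he => he.1

end TSH
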