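import Pool.Agent.TST.OutLineA
import Pool.Agent.TST.LineHost

/-!
# T-star, row (B) of `HostOfBase`: a path with many unbalanced lines
-/

open Set BIC BICS CWL Relation
open scoped Matroid

namespace TSH

universe u

open Mdl Mdj EN Gad TST EN.Wall

/-- **(B) `out_line`**: a path with `Kb` unbalanced lines. -/
theorem out_line (κ k₁ N₀ y₀ Nn mp t n₁ : ℕ) : ∃ Kb Xb Nb : ℕ, ∀ ρ : ℕ, ∃ s₁ w₀ : ℕ, ∀ s ≥ s₁,
    ∀ w ≥ w₀, ∀ {α : Type u} (M : Matroid α) [M.Finite]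
    (𝒯 : Finset (ℕ × ℕ)) (L₁ : Bool × ℕ × ℕ → List α) (f₁ : α → Sym2 ((ℕ × ℕ) ⊕ α))
    (e₁ : Bool × ℕ × ℕ → α) (u₁ : ℕ) (L₂ : Bool × ℕ × ℕ → List α) (f₂ : α → Sym2 ((ℕ × ℕ) ⊕ α))
    (e₂ : Bool × ℕ × ℕ → α) (u₂ u η nT : ℕ) (F : ℕ → ℕ) (a n : ℕ) (el : SegR n → ℕ → α)
    (S Q : Set α) (ends : α → Sym2 (Nd (WV n) (SegR n))) (BQ Bd : Finset (SegR n))
    (τ : ℕ → ℕ × ℕ) (m : ℕ) (R : ℕ → SegR n) (q : ℕ → ℕ → ℕ) (G : ℕ → ℕ → Prop) (P : Finset ℕ)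
    (ρr : ℕ → ℕ → ℕ → α × ℕ × ℕ) (N : ℕ) (f : ℕ → ℕ),
    Ctx κ ρ M w s 𝒯 L₁ f₁ e₁ u₁ L₂ f₂ e₂ u₂ u η nT F a n el S Q ends BQ Bd τ m R q G P →
    55 ≤ {x : WV n | Sum.inl x ∈ rowV (inW L₁ a n) (BQ : Set (SegR n))}.ncard →
    RungC L₁ a n el S ends nT R q G P ρr → Nb ≤ N →
    (∀ a b, a < b → b ≤ 2 * N → f a < f b) → 1 ≤ f 0 → 3 * f (2 * N) + 5 < nT →
    ∀ (len : ℕ) (p : ℕ → {i // i ∈ P}), (∀ c, c + 1 < len → (PG G P).Adj (p c) (p (c + 1))) →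
    (∀ c c', c < len → c' < len → p c = p c' → c = c') →
    Xb < {r | ∃ c < len, R (p c).1 = r}.ncard →
    ∀ l : ℕ → ℕ, (∀ k < Kb, l k + 1 < len ∧ ∀ v v', v < v' → v' ≤ 2 * N →
      ¬ Bal M el Q R ρr (p (l k)).1 (p (l k + 1)).1 (f v) (f v')) →
    (∀ k, k + 1 < Kb → l k + 2 < l (k + 1)) → ∀ (e c h₀ : ℕ) (g : ℕ → ℕ),
      TSK.HostOut M u k₁ e N₀ y₀ c h₀ g Nn mp t n₁ := by
  classical
  obtain ⟨Kb, Nb, hpat⟩ := SGOut.linePat.{u} Nn mp t n₁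
  obtain ⟨c₀, hc₀⟩ := line_host.{u} κ k₁ y₀
  refine ⟨Kb, max c₀ 164, N₀ + Nb + 1, fun ρ => ?_⟩
  obtain ⟨s₁, w₀, hhost⟩ := hc₀ ρ
  refine ⟨s₁, w₀, ?_⟩
  intro s hs w hw α M _ 𝒯 L₁ f₁ e₁ u₁ L₂ f₂ e₂ u₂ u η nT F a n el S Q ends BQ Bd τ m R q G P ρr N f
    hC h55 hρ hN hf hf1 hfT len p hadj hinj hX l hl hl2 e c h₀ g
  obtain ⟨lbl, hlbl⟩ : ∃ lbl : CI (fun _ : Unit => len) → ℕ, ∀ i, lbl i = (p i.1.2).1 :=
    ⟨_, fun _ => rfl⟩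
  have hS : Sel L₁ a n BQ nT m R q G P (fun _ : Unit => len) N f lbl
      (fun i j : CI (fun _ : Unit => len) => j.1.2 = i.1.2 + 1) univ := by
    refine ⟨by omega, hf, hf1, hfT, fun i => ?_, ?_, ?_, fun r hr => absurd (mem_univ r) hr⟩
    · rw [hlbl]
      exact (p i.1.2).2
    · intro i j hij
      rw [hlbl, hlbl] at hij
      have h1 := hinj _ _ i.2 j.2 (Subtype.ext hij)
      exact Subtype.ext (Prod.ext rfl h1)
    · intro i j hij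
      have h1 := hadj i.1.2 (by rw [← hij]; exact j.2)
      obtain ⟨_, h2⟩ := (SimpleGraph.fromRel_adj _ _ _).1 h1
      refine ⟨fun h3 => ?_, ?_⟩
      · rw [h3] at hij
        omega
      · rw [hlbl, hlbl, hij]
        exact h2
  have hfC : Finite (CI (fun _ : Unit => len)) := by
    refine Finite.of_injective (fun i : CI (fun _ : Unit => len) => (⟨i.1.2, i.2⟩ : Fin len)) ?_
    intro i j hij
    exact Subtype.ext (Prod.ext rfl (congrArg Fin.val hij))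
  have hFt : Fintype (CI (fun _ : Unit => len)) := Fintype.ofFinite _
  obtain ⟨K, T, Lm, eL, hG⟩ := hC.sgOut hρ hS
  have hrows : {r | ∃ i, R (lbl i) = r} = {r | ∃ c < len, R (p c).1 = r} := by
    ext r
    constructor
    · rintro ⟨i, hi⟩
      exact ⟨i.1.2, i.2, by rw [← hlbl]; exact hi⟩
    · rintro ⟨c, hc, hr⟩
      exact ⟨⟨((), c), hc⟩, by rw [hlbl]; exact hr⟩
  have hfN : f N ≤ f (2 * N) := (hf N (2 * N) (by omega) le_rfl).le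
  obtain ⟨E₂, D₂, n', hy, hD⟩ := hhost s hs w hw M 𝒯 L₁ f₁ e₁ u₁ L₂ f₂ e₂ u₂ u η nT F a n el S Q
    ends BQ Bd τ m R q G P ρr N f hC (by omega) len lbl _ K T Lm eL hG (fun _ _ h => h) (by
      rw [hrows]
      omega)
  have hwall := hC.base.wall
  have hn : 1 ≤ n := by
    by_contra hcon
    have hn0 : n = 0 := by omega
    subst hn0
    have h1 : {x : WV 0 | Sum.inl x ∈ rowV (inW L₁ a 0) (BQ : Set (SegR 0))} = ∅ := by
      ext x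
      exact (Nat.not_lt_zero _ x.1.2).elim
    rw [h1, Set.ncard_empty] at h55
    omega
  have hP := hpat hG hn (by omega) hC.base.row.pos h55 (by
      rw [hrows]
      omega) l (fun k hk => (hl k hk).1) hl2 (by
      intro k hk i j hi hj v v' h1 h2
      rw [hlbl, hlbl, hi, hj]
      exact (hl k hk).2 v v' h1 h2)
  refine ⟨M ／ cel (inW L₁ a n) K el, OV (WV n) (SegR n) Lm, Unit, inferInstance, inferInstance, _,
    N, _, _, _, E₂, D₂, eL, n', ?_, hy, by exact_mod_cast (show N₀ ≤ N by omega), hD e, Or.inl hP⟩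
  refine ⟨cel (inW L₁ a n) K el, ∅, ?_⟩
  rw [Matroid.delete_empty]

end TSH
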