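import Pool.Agent.GL.RamseyP

/-!
# Homogeneous windows (host of T-star)
-/

namespace TST

open RamP

/-- **Homogeneous windows.**  Any relation between pairs of windows and pairs of labels becomes
constant on suitable windows `f 0 < ⋯ < f (2 N)`. -/
theorem windows_hom (m N : ℕ) : ∃ n : ℕ, ∀ Bal : ℕ → ℕ → ℕ → ℕ → Prop, ∃ f : ℕ → ℕ,
    (∀ a b, a < b → b ≤ 2 * N → f a < f b) ∧ 1 ≤ f 0 ∧ 3 * f (2 * N) + 5 < n ∧
    ∀ i < m, ∀ j < m, (∀ a b, a < b → b ≤ 2 * N → Bal i j (f a) (f b)) ∨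
      ∀ a b, a < b → b ≤ 2 * N → ¬ Bal i j (f a) (f b) := by
  classical
  obtain ⟨N₁, h⟩ := ramsey_pairs (Fin m → Fin m → Bool) (2 * N + 1)
  refine ⟨3 * (N₁ + 1) + 6, fun Bal => ?_⟩
  obtain ⟨g, γ, h1, h2, h3⟩ := h (fun a b i j => decide (Bal i.1 j.1 (a + 1) (b + 1)))
  refine ⟨fun a => g a + 1, ?_, Nat.le_add_left _ _, ?_, ?_⟩
  · intro a b hab hb
    have := h2 a b hab (by omega)
    show g a + 1 < g b + 1
    omega
  · have := h1 (2 * N) (by omega)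
    show 3 * (g (2 * N) + 1) + 5 < 3 * (N₁ + 1) + 6
    omega
  · intro i hi j hj
    by_cases hγ : γ ⟨i, hi⟩ ⟨j, hj⟩ = true
    · refine Or.inl fun a b hab hb => ?_
      have h4 := congrFun (congrFun (h3 a b hab (by omega)) ⟨i, hi⟩) ⟨j, hj⟩
      rw [hγ] at h4
      exact of_decide_eq_true h4
    · refine Or.inr fun a b hab hb h5 => hγ ?_
      have h4 := congrFun (congrFun (h3 a b hab (by omega)) ⟨i, hi⟩) ⟨j, hj⟩
      rw [← h4]
      exact decide_eq_true h5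

end TST
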