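import Pool.Agent.TST.OutSheets
import Pool.Agent.TST.OutFins
import Pool.Agent.TST.OutLine
import Pool.Agent.TST.HubCase
import Pool.Agent.TST.Windows

/-!
# T-star, row (F): `HostOfBase`
-/

open Set BIC BICS CWL Relation
open scoped Matroid

namespace TSH

universe u

open Mdl Mdj EN Gad TST EN.Wall

/-- hubs with fewer neighbours -/
lemma HubR.mono {J β : Type*} {G : SimpleGraph J} {R : J → β} {t t' : ℕ} (h : HubR G R t')
    (ht : t ≤ t') : HubR G R t := by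
  obtain ⟨T, v, h1, h2, h3, h4, h5⟩ := h
  exact ⟨T, fun i => v (Fin.castLE ht i), fun i j hij => Fin.castLE_injective ht (h1 hij),
    fun i => h2 _, h3, h4, fun i => h5 _⟩

/-- every third element of a finite set -/
lemma exists_third {A : Set ℕ} {K : ℕ} (h : 3 * K < A.ncard) :
    ∃ l : ℕ → ℕ, (∀ k < K, l k ∈ A) ∧ ∀ k, k + 1 < K → l k + 2 < l (k + 1) := by
  classical
  have hA : A.Finite := Set.finite_of_ncard_pos (by omega)
  have hc : hA.toFinset.card = A.ncard := (Set.ncard_eq_toFinset_card A hA).symm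
  obtain ⟨e, he⟩ : ∃ e : Fin A.ncard ↪o ℕ, e = hA.toFinset.orderEmbOfFin hc := ⟨_, rfl⟩
  have hmem : ∀ i, e i ∈ A := fun i => by
    rw [he]
    exact hA.mem_toFinset.1 (Finset.orderEmbOfFin_mem _ hc i)
  have hlt : ∀ i j : Fin A.ncard, i < j → e i < e j := fun i j hij => e.strictMono hij
  refine ⟨fun k => if hk : 3 * k < A.ncard then e ⟨3 * k, hk⟩ else 0, ?_, ?_⟩
  · intro k hk
    have h1 : 3 * k < A.ncard := by omega
    show (if hk : 3 * k < A.ncard then e ⟨3 * k, hk⟩ else 0) ∈ A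
    rw [dif_pos h1]
    exact hmem _
  · intro k hk
    have h1 : 3 * k < A.ncard := by omega
    have h2 : 3 * (k + 1) < A.ncard := by omega
    show (if hk : 3 * k < A.ncard then e ⟨3 * k, hk⟩ else 0) + 2 <
      (if hk : 3 * (k + 1) < A.ncard then e ⟨3 * (k + 1), hk⟩ else 0)
    rw [dif_pos h1, dif_pos h2]
    have h3 := hlt ⟨3 * k, h1⟩ ⟨3 * k + 1, by omega⟩ (Fin.mk_lt_mk.2 (by omega))
    have h4 := hlt ⟨3 * k + 1, by omega⟩ ⟨3 * k + 2, by omega⟩ (Fin.mk_lt_mk.2 (by omega))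
    have h5 := hlt ⟨3 * k + 2, by omega⟩ ⟨3 * (k + 1), h2⟩ (Fin.mk_lt_mk.2 (by omega))
    omega

/-- the numbers of the host -/
lemma host_numbers {c A B comp bd w n4 σ L : ℕ} (h1 : (1024 * c * A + 1) * comp ≤ w ^ 2)
    (h2 : (1024 * c * A + 1) * bd ≤ w ^ 2) (h3 : 32 * c * B ≤ w) (hw : w ≤ 16 * n4)
    (hL : σ + L ≤ A * (comp + bd) + B) : c * (σ + L) ≤ n4 ^ 2 := by
  have h4 : w ^ 2 ≤ 256 * n4 ^ 2 := by nlinarith
  have h5 : 1024 * (c * (A * (comp + bd))) ≤ 512 * n4 ^ 2 := by nlinarith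
  have h6 : 2 * (c * B) ≤ n4 := by nlinarith
  have h7 : n4 ≤ n4 ^ 2 := by nlinarith [Nat.zero_le n4]
  have h8 : c * (σ + L) ≤ c * (A * (comp + bd) + B) := Nat.mul_le_mul_left _ hL
  have h9 : c * (A * (comp + bd) + B) = c * (A * (comp + bd)) + c * B := by ring
  omega

/-- the rows with an end at a node of `BQ` -/
lemma ncard_rowV {X₀ β : Type} [Finite X₀] [Finite β] {W : RW X₀ β} (hlen : ∀ r, 1 ≤ W.len r)
    (B : Finset β) : {x : X₀ | (Sum.inl x : Nd X₀ β) ∈ rowV W (B : Set β)}.ncard ≤ 2 * B.card := by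
  classical
  have hsub : {x : X₀ | (Sum.inl x : Nd X₀ β) ∈ rowV W (B : Set β)} ⊆
      W.hd '' (B : Set β) ∪ W.tl '' (B : Set β) := by
    intro x hx
    obtain ⟨r, hr, h | h⟩ := (inl_rowV hlen).1 hx
    · exact Or.inl ⟨r, hr, h⟩
    · exact Or.inr ⟨r, hr, h⟩
  have h1 := ncard_le_ncard hsub (Set.toFinite _)
  have h2 := ncard_union_le (W.hd '' (B : Set β)) (W.tl '' (B : Set β))
  have h3 := ncard_image_le (f := W.hd) (Set.toFinite (B : Set β))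
  have h4 := ncard_image_le (f := W.tl) (Set.toFinite (B : Set β))
  rw [ncard_coe_finset] at h3 h4
  omega

/-- **Row (F): the host from `Base`.** -/
theorem hostOfBase (k κ u : ℕ) : HostOfBase.{u} k κ u := by
  classical
  intro ρ
  choose c₀ hA using fun k₁ => out_sheets.{u} κ k₁
  refine ⟨fun k₁ => 6 * (c₀ k₁ + 1) ^ 2 + (k₁ + u), ?_⟩
  intro k₁ N₀ y₀ c h₀ g Nn mp t n₁
  obtain ⟨NA, hA⟩ := hA k₁ u
  obtain ⟨sA, wA, hA⟩ := hA ρ y₀
  obtain ⟨t₂, cf, hF⟩ := out_fins.{u} κ k₁ N₀ y₀ Nn mp t n₁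
  obtain ⟨sF, wF, hF⟩ := hF ρ
  obtain ⟨τ₀, hτ1, hτ2⟩ : ∃ τ₀, cf ≤ τ₀ ∧ 2 * t₂ ≤ τ₀ := ⟨max cf (2 * t₂), le_max_left _ _,
    le_max_right _ _⟩
  obtain ⟨t₁, hH⟩ := out_hub.{u} κ k₁ N₀ y₀ Nn mp t n₁ τ₀
  obtain ⟨sH, wH, hH⟩ := hH ρ
  obtain ⟨T₀, hT⟩ := hub_cases τ₀ t₁ t₂ hτ2
  obtain ⟨Kb, Xb, NB, hL⟩ := out_line.{u} κ k₁ N₀ y₀ Nn mp t n₁
  obtain ⟨sL, wL, hL⟩ := hL ρ
  obtain ⟨tt, htt⟩ : ∃ tt, tt = max T₀ 2 := ⟨_, rfl⟩
  obtain ⟨Kk, hKk⟩ : ∃ Kk, Kk = 3 * Kb + 1 := ⟨_, rfl⟩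
  obtain ⟨X, hX⟩ : ∃ X, X = c₀ k₁ + 3 * (6 * (c₀ k₁ + 1) ^ 2) := ⟨_, rfl⟩
  obtain ⟨A, hAdef⟩ : ∃ A, A = tt * Kk + tt ^ 2 + tt * Xb + tt * Kk * X + 1 := ⟨_, rfl⟩
  obtain ⟨Bf, hBf⟩ : ∃ Bf : ℕ → ℕ, ∀ b, Bf b = 6 * b +
      3 * (6 * b * (2 * (2 * (6 * (c₀ k₁ + 6 * b + 1) ^ 2) + 1) ^ 2)) := ⟨_, fun _ => rfl⟩
  refine ⟨sA + sF + sH + sL, ?_⟩
  intro s hs
  choose! nF hF using hF s (by omega)
  choose! nH hH using hH s (by omega)
  refine ⟨1024 * c * A + 1, wA + wF + wH + wL + 16 * h₀, fun b => 32 * c * Bf b, ?_⟩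
  intro wmax mmax
  obtain ⟨BF, hBF⟩ : ∃ B, ∀ w ≤ wmax, nF w ≤ B := ⟨(Finset.range (wmax + 1)).sup nF,
    fun w hw => Finset.le_sup (f := nF) (Finset.mem_range.2 (by omega))⟩
  obtain ⟨BH, hBH⟩ : ∃ B, ∀ w ≤ wmax, nH w ≤ B := ⟨(Finset.range (wmax + 1)).sup nH,
    fun w hw => Finset.le_sup (f := nH) (Finset.mem_range.2 (by omega))⟩
  obtain ⟨gm, hgm⟩ : ∃ B, ∀ j ≤ mmax, g j ≤ B := ⟨(Finset.range (mmax + 1)).sup g,
    fun j hj => Finset.le_sup (f := g) (Finset.mem_range.2 (by omega))⟩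
  obtain ⟨N, hN⟩ : ∃ N, N = N₀ + NA + NB + gm := ⟨_, rfl⟩
  obtain ⟨nW, hW⟩ := windows_hom mmax N
  refine ⟨nW + BF + BH, ?_⟩
  intro α M _ w 𝒯 L₁ f₁ e₁ u₁ L₂ f₂ e₂ u₂ a n el S Q ends BQ Bd τ m R q G P hw hwm hmm hu1 hu2 hp
    hhot hB
  right
  have hC : Ctx κ ρ M w s 𝒯 L₁ f₁ e₁ u₁ L₂ f₂ e₂ u₂ u (1024 * c * A + 1) (nW + BF + BH)
      (fun b => 32 * c * Bf b) a n el S Q ends BQ Bd τ m R q G P := ⟨hu1, hu2, hp, hhot, hB⟩
  obtain ⟨ρr, hρ⟩ := exists_rungC hC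
  obtain ⟨f, hf1, hf2, hf3, hf4⟩ := hW (fun i j a b => Bal M el Q R ρr i j a b)
  have hPm : P.card ≤ mmax := by
    have h1 : P ⊆ Finset.range m := fun i hi => Finset.mem_range.2 (hB.P_lt i hi).1
    have h2 := Finset.card_le_card h1
    rw [Finset.card_range] at h2
    omega
  have htt2 : 2 ≤ tt := by
    rw [htt]
    exact le_max_right _ _
  have htt1 : T₀ ≤ tt := by
    rw [htt]
    exact le_max_left _ _
  rcases sheetsR (PG G P) (fun i : {i // i ∈ P} => R i.1) htt2 with hHub | ⟨n₀, P1, hn₀, hun⟩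
  · -- hubs
    rcases hT (PG G P) (fun i : {i // i ∈ P} => R i.1) (HubR.mono hHub htt1) with hh | hh
    · exact hH w (by omega) M 𝒯 L₁ f₁ e₁ u₁ L₂ f₂ e₂ u₂ u _ _ _ a n el S Q ends BQ Bd τ m R q G P
        (by have := hBH w hwm; omega) hC hh _ c h₀ g
    · exact hF w (by omega) M 𝒯 L₁ f₁ e₁ u₁ L₂ f₂ e₂ u₂ u _ _ _ a n el S Q ends BQ Bd τ m R q G P
        (by have := hBF w hwm; omega) hC τ₀ hτ1 hh _ c h₀ g
  obtain ⟨P2, p21, p22, p23, p24⟩ := drop_poor P1 (fun i : {i // i ∈ P} => R i.1) univ Xb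
  obtain ⟨Bl, hBl⟩ : ∃ Bl : {i // i ∈ P} → {i // i ∈ P} → Prop, ∀ i j, Bl i j ↔
      ∀ v v', v < v' → v' ≤ 2 * N → Bal M el Q R ρr i.1 j.1 (f v) (f v') := ⟨_, fun _ _ => Iff.rfl⟩
  by_cases hbad : ∃ s, 3 * Kb <
      {c | c + 1 < P2.len s ∧ ¬ Bl (P2.col s c) (P2.col s (c + 1))}.ncard
  · -- unbalanced lines
    obtain ⟨s', hs'⟩ := hbad
    obtain ⟨l, hl1, hl2⟩ := exists_third hs'
    have hlen : 0 < P2.len s' := by
      obtain ⟨x, hx⟩ := Set.nonempty_of_ncard_ne_zero (s := {c | c + 1 < P2.len s' ∧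
        ¬ Bl (P2.col s' c) (P2.col s' (c + 1))}) (by omega)
      have := hx.1
      omega
    refine hL s (by omega) w (by omega) M 𝒯 L₁ f₁ e₁ u₁ L₂ f₂ e₂ u₂ u _ _ _ a n el S Q ends BQ Bd
      τ m R q G P ρr N f hC hB.Q_big hρ (by omega) hf1 hf2 (by omega) (P2.len s') (P2.col s')
      (fun c hc => P2.adj s' c hc) (fun c c' hc hc' h => (P2.inj s' c s' c' hc hc' h).2) ?_ l ?_ hl2
      _ c h₀ g
    · have h1 := p23 s' hlen
      have h2 : {r | r ∈ (univ : Set (SegR n)) ∧ ∃ c, c < P2.len s' ∧ R (P2.col s' c).1 = r} =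
          {r | ∃ c < P2.len s', R (P2.col s' c).1 = r} := by
        ext r
        simp
      rw [h2] at h1
      exact h1
    · intro k hk
      obtain ⟨h1, h2⟩ := hl1 k hk
      refine ⟨h1, ?_⟩
      have hi := (hB.P_lt _ (P2.col s' (l k)).2).1
      have hj := (hB.P_lt _ (P2.col s' (l k + 1)).2).1
      rcases hf4 _ (hi.trans_le hmm) _ (hj.trans_le hmm) with h3 | h3
      · exact absurd ((hBl _ _).2 h3) h2
      · exact h3
  -- balanced sheets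
  push Not at hbad
  obtain ⟨P3, p31, p32⟩ := cut_sheets P2 Bl (K := Kk) (fun s => by
    have := hbad s
    omega)
  have hlen : ∀ r, 1 ≤ (inW L₁ a n).len r := hB.row.pos
  obtain ⟨V, hV⟩ : ∃ V : Set (WV n), V = {x | (Sum.inl x : Nd (WV n) (SegR n)) ∈
      rowV (inW L₁ a n) (BQ : Set (SegR n))} := ⟨_, rfl⟩
  obtain ⟨Miss, hMiss⟩ : ∃ Miss : Finset (SegR n), ∀ r, r ∈ Miss ↔ segHd r ∈ V ∨ segTl r ∈ V :=
    ⟨(Set.toFinite {r | segHd r ∈ V ∨ segTl r ∈ V}).toFinset, fun r => Set.Finite.mem_toFinset _⟩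
  have hMc : Miss.card ≤ 6 * BQ.card := by
    have h1 := ncard_rows_at V
    have h2 : {r : SegR n | segHd r ∈ V ∨ segTl r ∈ V} = (Miss : Set (SegR n)) := by
      ext r
      exact (hMiss r).symm
    rw [h2, ncard_coe_finset] at h1
    have h3 := ncard_rowV hlen BQ
    rw [← hV] at h3
    omega
  obtain ⟨XG, hXG⟩ : ∃ XG : Set (WV n), XG = Xg (6 * (c₀ k₁ + Miss.card + 1) ^ 2) Miss := ⟨_, rfl⟩
  obtain ⟨Gd, hGd⟩ : ∃ Gd : Set (SegR n), ∀ r, r ∈ Gd ↔ r ∉ Miss ∧ segHd r ∈ XG ∧ segTl r ∈ XG :=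
    ⟨{r | r ∉ Miss ∧ segHd r ∈ XG ∧ segTl r ∈ XG}, fun _ => Iff.rfl⟩
  obtain ⟨P4, p41, p42, p43, p44⟩ := drop_poor P3 (fun i : {i // i ∈ P} => R i.1) Gd X
  obtain ⟨Lost, hLost⟩ : ∃ Lost : Finset (SegR n), ∀ r, r ∈ Lost ↔ r ∈ (Bd : Set (SegR n)) ∪
      ((Miss : Set (SegR n)) ∪ ({r | segHd r ∈ XGᶜ ∨ segTl r ∈ XGᶜ} ∪
      ({r | ∃ j : {i // i ∈ P}, R j.1 = r ∧ ¬ P1.Cov j} ∪
      ({r | r ∈ (univ : Set (SegR n)) ∧ ∃ j : {i // i ∈ P}, R j.1 = r ∧ P1.Cov j ∧ ¬ P2.Cov j} ∪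
      {r | r ∈ Gd ∧ ∃ j : {i // i ∈ P}, R j.1 = r ∧ P3.Cov j ∧ ¬ P4.Cov j})))) :=
    ⟨(Set.toFinite ((Bd : Set (SegR n)) ∪
      ((Miss : Set (SegR n)) ∪ ({r | segHd r ∈ XGᶜ ∨ segTl r ∈ XGᶜ} ∪
      ({r | ∃ j : {i // i ∈ P}, R j.1 = r ∧ ¬ P1.Cov j} ∪
      ({r | r ∈ (univ : Set (SegR n)) ∧ ∃ j : {i // i ∈ P}, R j.1 = r ∧ P1.Cov j ∧ ¬ P2.Cov j} ∪
      {r | r ∈ Gd ∧ ∃ j : {i // i ∈ P}, R j.1 = r ∧ P3.Cov j ∧ ¬ P4.Cov j})))))).toFinset,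
      fun r => Set.Finite.mem_toFinset _⟩
  have hLc : Lost.card ≤ Bd.card + (Miss.card + (3 * (Miss.card *
      (2 * (2 * (6 * (c₀ k₁ + Miss.card + 1) ^ 2) + 1) ^ 2)) +
      (tt ^ 2 * Nat.card (PG G P).ConnectedComponent + (n₀ * Xb + n₀ * Kk * X)))) := by
    have h1 : (Lost : Set (SegR n)) = (Bd : Set (SegR n)) ∪
      ((Miss : Set (SegR n)) ∪ ({r | segHd r ∈ XGᶜ ∨ segTl r ∈ XGᶜ} ∪
      ({r | ∃ j : {i // i ∈ P}, R j.1 = r ∧ ¬ P1.Cov j} ∪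
      ({r | r ∈ (univ : Set (SegR n)) ∧ ∃ j : {i // i ∈ P}, R j.1 = r ∧ P1.Cov j ∧ ¬ P2.Cov j} ∪
      {r | r ∈ Gd ∧ ∃ j : {i // i ∈ P}, R j.1 = r ∧ P3.Cov j ∧ ¬ P4.Cov j})))) := by
      ext r
      exact hLost r
    rw [← ncard_coe_finset Lost, h1]
    refine (ncard_union_le _ _).trans (Nat.add_le_add (by rw [ncard_coe_finset]) ?_)
    refine (ncard_union_le _ _).trans (Nat.add_le_add (by rw [ncard_coe_finset]) ?_)
    refine (ncard_union_le _ _).trans (Nat.add_le_add ?_ ?_)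
    · refine (ncard_rows_at XGᶜ).trans (Nat.mul_le_mul_left _ ?_)
      have h2 := ncard_not_Xg (6 * (c₀ k₁ + Miss.card + 1) ^ 2) Miss
      rw [hXG]
      exact h2
    refine (ncard_union_le _ _).trans (Nat.add_le_add hun ?_)
    exact (ncard_union_le _ _).trans (Nat.add_le_add p24 p44)
  obtain ⟨h4n, hwn⟩ : 4 ∣ n ∧ w ≤ 4 * n := ⟨hB.wall.2.1, hB.wall.2.2.2⟩
  obtain ⟨n4, rfl⟩ := h4n
  have hn4 : 4 * n4 / 4 = n4 := by omega
  refine hA s (by omega) w (by omega) M 𝒯 L₁ f₁ e₁ u₁ L₂ f₂ e₂ u₂ _ _ _ a (4 * n4) el S Q ends BQ Bd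
    τ m R q G P ρr N f hC hρ (by omega) hf1 hf2 (by omega) (n₀ * Kk) P4 ?_ Miss ?_ ?_ Lost ?_ N₀ c h₀
    g (by omega) (fun j hj => by have := hgm j (hj.trans hPm); omega) (by omega) ?_ Nn mp t n₁
  · intro s' c' hc'
    have h1 : c' + 1 < P3.len s' := by
      rcases p41 s' with h | h
      · rw [← h]
        exact hc'
      · omega
    rw [p42]
    exact (hBl _ _).1 (p31 s' c' h1)
  · intro r hr
    have h1 : ¬ (segHd r ∈ V ∨ segTl r ∈ V) := fun h => hr ((hMiss r).2 h)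
    rw [hV] at h1
    have h2 := hlen r
    constructor
    · intro h3
      refine h1 (Or.inl ?_)
      show (Sum.inl (segHd r) : Nd (WV (4 * n4)) (SegR (4 * n4))) ∈
        rowV (inW L₁ a (4 * n4)) (BQ : Set (SegR (4 * n4)))
      have h4 : (inW L₁ a (4 * n4)).nd r 0 = Sum.inl (segHd r) := by
        unfold RW.nd
        rw [if_pos rfl]
        rfl
      rw [← h4]
      exact h3
    · intro h3
      refine h1 (Or.inr ?_)
      show (Sum.inl (segTl r) : Nd (WV (4 * n4)) (SegR (4 * n4))) ∈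
        rowV (inW L₁ a (4 * n4)) (BQ : Set (SegR (4 * n4)))
      have h4 : (inW L₁ a (4 * n4)).nd r ((inW L₁ a (4 * n4)).len r) = Sum.inl (segTl r) := by
        unfold RW.nd
        rw [if_neg (by omega), if_pos rfl]
        rfl
      rw [← h4]
      exact h3
  · intro s' hs'
    have h1 := p43 s' hs'
    rw [← hXG, ← hX]
    refine lt_of_lt_of_eq h1 (congrArg Set.ncard ?_)
    ext r
    show (r ∈ Gd ∧ ∃ c, c < P4.len s' ∧ R (P4.col s' c).1 = r) ↔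
      ((r ∉ Miss ∧ segHd r ∈ XG ∧ segTl r ∈ XG) ∧ ∃ c < P4.len s', R (P4.col s' c).1 = r)
    rw [hGd]
  · intro r hr
    rw [hLost] at hr
    have r1 : r ∉ Bd := fun h => hr (Or.inl h)
    have r2 : r ∉ Miss := fun h => hr (Or.inr (Or.inl h))
    have r3 : segHd r ∈ XG := by
      by_contra h
      exact hr (Or.inr (Or.inr (Or.inl (Or.inl h))))
    have r4 : segTl r ∈ XG := by
      by_contra h
      exact hr (Or.inr (Or.inr (Or.inl (Or.inr h))))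
    rw [← hXG]
    refine ⟨r2, r3, r4, ?_⟩
    intro i' hi' hR'
    obtain ⟨j, hj, hjR, hnear⟩ := hB.P_cov i' hi' (by rw [hR']; exact r1)
    refine ⟨⟨j, hj⟩, ?_, hjR.trans hR', hnear⟩
    by_contra hcov
    have c1 : P1.Cov ⟨j, hj⟩ := by
      by_contra h
      exact hr (Or.inr (Or.inr (Or.inr (Or.inl ⟨⟨j, hj⟩, hjR.trans hR', h⟩))))
    have c2 : P2.Cov ⟨j, hj⟩ := by
      by_contra h
      exact hr (Or.inr (Or.inr (Or.inr (Or.inr (Or.inl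
        ⟨mem_univ _, ⟨j, hj⟩, hjR.trans hR', c1, h⟩)))))
    have c3 : P3.Cov ⟨j, hj⟩ := (p32 _).2 c2
    exact hr (Or.inr (Or.inr (Or.inr (Or.inr (Or.inr
      ⟨(hGd r).2 ⟨r2, r3, r4⟩, ⟨j, hj⟩, hjR.trans hR', c3, hcov⟩)))))
  · rw [hn4]
    refine host_numbers (A := A) (B := Bf BQ.card) (comp := Nat.card (PG G P).ConnectedComponent)
      (bd := Bd.card) hB.comp hB.bad hB.few (by omega) ?_
    have e1 : n₀ * Kk ≤ tt * Kk * Nat.card (PG G P).ConnectedComponent := by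
      calc n₀ * Kk ≤ tt * Nat.card (PG G P).ConnectedComponent * Kk := Nat.mul_le_mul_right _ hn₀
        _ = _ := by ring
    have e2 : n₀ * Xb ≤ tt * Xb * Nat.card (PG G P).ConnectedComponent := by
      calc n₀ * Xb ≤ tt * Nat.card (PG G P).ConnectedComponent * Xb := Nat.mul_le_mul_right _ hn₀
        _ = _ := by ring
    have e3 : n₀ * Kk * X ≤ tt * Kk * X * Nat.card (PG G P).ConnectedComponent := by
      calc n₀ * Kk * X ≤ tt * Kk * Nat.card (PG G P).ConnectedComponent * X :=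
            Nat.mul_le_mul_right _ e1
        _ = _ := by ring
    have e4 : Miss.card + 3 * (Miss.card *
        (2 * (2 * (6 * (c₀ k₁ + Miss.card + 1) ^ 2) + 1) ^ 2)) ≤ Bf BQ.card := by
      rw [hBf]
      gcongr
    have e5 : A * (Nat.card (PG G P).ConnectedComponent + Bd.card) =
        tt * Kk * Nat.card (PG G P).ConnectedComponent + tt ^ 2 *
        Nat.card (PG G P).ConnectedComponent + tt * Xb * Nat.card (PG G P).ConnectedComponent +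
        tt * Kk * X * Nat.card (PG G P).ConnectedComponent +
        Nat.card (PG G P).ConnectedComponent + A * Bd.card := by
      rw [hAdef]
      ring
    have e6 : Bd.card ≤ A * Bd.card := Nat.le_mul_of_pos_left _ (by omega)
    rw [e5]
    omega

end TSH
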