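import Pool.Agent.TST.FEnds
import Pool.Agent.TST.Loc

/-!
# T-star, row INDQ: rows which avoid `Zq` and satisfy Hall's condition are independent over `Zq`
(helper35)
-/

open Set BIC BICS CWL
open scoped Matroid

namespace TSH

universe u

open Mdl Mdj EN Gad TST EN.Wall

/-- Hall for the rows: an injective choice of branch ends -/
lemma rows_choice (B : Finset (Bool × ℕ × ℕ))
    (hHall : ∀ A ⊆ B, A.card ≤ {x : ℕ × ℕ | ∃ r ∈ A, segNear r = x ∨ segFar r = x}.ncard) :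
    ∃ h : Bool × ℕ × ℕ → ℕ × ℕ, (∀ r ∈ B, h r = segNear r ∨ h r = segFar r) ∧
      ∀ r ∈ B, ∀ r' ∈ B, h r = h r' → r = r' := by
  classical
  obtain ⟨f, hf1, hf2⟩ := (Finset.all_card_le_biUnion_card_iff_exists_injective
    (fun r : B => ({segNear r.1, segFar r.1} : Finset (ℕ × ℕ)))).1 (by
    intro s
    have h1 := hHall (s.map (Function.Embedding.subtype _)) (by
      intro r hr
      obtain ⟨r', _, rfl⟩ := Finset.mem_map.1 hr
      exact r'.2)
    have h2 : {x : ℕ × ℕ | ∃ r ∈ s.map (Function.Embedding.subtype (· ∈ B)),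
        segNear r = x ∨ segFar r = x} =
        ((s.biUnion fun r : B => ({segNear r.1, segFar r.1} : Finset (ℕ × ℕ)) :
          Finset (ℕ × ℕ)) : Set (ℕ × ℕ)) := by
      ext x
      simp only [Finset.mem_map, mem_ofPred_eq, Finset.coe_biUnion, mem_iUnion, Finset.mem_coe,
        Finset.mem_insert, Finset.mem_singleton]
      constructor
      · rintro ⟨_, ⟨r, hr, rfl⟩, h3⟩
        exact ⟨r, hr, h3.imp Eq.symm Eq.symm⟩
      · rintro ⟨r, hr, h3⟩
        exact ⟨r.1, ⟨r, hr, rfl⟩, h3.imp Eq.symm Eq.symm⟩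
    rw [h2, Set.ncard_coe_finset, Finset.card_map] at h1
    exact h1)
  refine ⟨fun r => if h : r ∈ B then f ⟨r, h⟩ else (0, 0), fun r hr => ?_, fun r hr r' hr' h => ?_⟩
  · simp only [dif_pos hr]
    have := hf2 ⟨r, hr⟩
    simpa only [Finset.mem_insert, Finset.mem_singleton] using this
  · simp only [dif_pos hr, dif_pos hr'] at h
    exact congrArg Subtype.val (hf1 h)

/-- (F3) rows which avoid `Zq` and satisfy Hall's condition are independent over `Zq` -/
theorem indep_Q {α : Type u} {M : Matroid α} [M.Finite] {w : ℕ} {L₁ : Bool × ℕ × ℕ → List α}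
    {f₁ : α → Sym2 ((ℕ × ℕ) ⊕ α)} {e₁ : Bool × ℕ × ℕ → α} {u₁ : ℕ} {Zq : Set (Bool × ℕ × ℕ)}
    (hG : GSide M (Seg w) L₁ f₁ e₁ u₁) (hZ : Zq ⊆ Seg w)
    (kill : ∃ N : Matroid α, N.Finite ∧ Bic N (crr L₁ (Seg w)) f₁ ∧
      rk N (crr L₁ Zq) = (LV L₁ f₁ Zq).ncard ∧
      ∀ X ⊆ crr L₁ (Seg w), rk M (X ∪ crr L₁ Zq) + rk N (crr L₁ Zq) =
        rk N (X ∪ crr L₁ Zq) + rk M (crr L₁ Zq))
    (B : Finset (Bool × ℕ × ℕ)) (hB : (B : Set (Bool × ℕ × ℕ)) ⊆ Seg w)
    (hBQ : ∀ x ∈ crr L₁ (B : Set (Bool × ℕ × ℕ)), ∀ v ∈ f₁ x, v ∉ LV L₁ f₁ Zq)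
    (hHall : ∀ A ⊆ B, A.card ≤ {x : ℕ × ℕ | ∃ r ∈ A, segNear r = x ∨ segFar r = x}.ncard) :
    (M ／ crr L₁ Zq).Indep (crr L₁ (B : Set (Bool × ℕ × ℕ))) := by
  classical
  obtain ⟨N, hNf, hN, -, hk⟩ := kill
  obtain ⟨h, h1, h2⟩ := rows_choice B hHall
  obtain ⟨X, hX⟩ : ∃ X : Set α, X = crr L₁ (B : Set (Bool × ℕ × ℕ)) := ⟨_, rfl⟩
  obtain ⟨Q, hQ⟩ : ∃ Q : Set α, Q = crr L₁ Zq := ⟨_, rfl⟩
  have hXR : X ⊆ crr L₁ (Seg w) := by
    rw [hX]
    exact crr_mono hB
  have hQR : Q ⊆ crr L₁ (Seg w) := by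
    rw [hQ]
    exact crr_mono hZ
  -- the choice of nodes
  have hcho : ∀ x ∈ X, ∃ v, v ∈ f₁ x ∧ ∃ s ∈ B, ∃ (i : ℕ) (hi : i < (L₁ s).length),
      x = (L₁ s)[i] ∧ v = node s (L₁ s) (if h s = segFar s then i + 1 else i) := by
    intro x hx
    rw [hX] at hx
    obtain ⟨s, hs, hxs⟩ := hx
    obtain ⟨i, hi, rfl⟩ := List.mem_iff_getElem.1 hxs
    refine ⟨_, ?_, s, hs, i, hi, rfl, rfl⟩
    rw [hG.end_eq s (hB hs) i hi]
    split_ifs <;> simp
  choose! φ hφ1 hφ2 using hcho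
  have hφv : ∀ x ∈ X, ∀ s ∈ B, x ∈ L₁ s → φ x = Sum.inl (h s) ∨ ∃ y ∈ L₁ s, φ x = Sum.inr y := by
    intro x hx s hs hxs
    obtain ⟨s', hs', i, hi, hxi, hv⟩ := hφ2 x hx
    have hss : s = s' := hG.uniq (hB hs) (hB hs') hxs (by rw [hxi]; exact List.getElem_mem _)
    subst hss
    rw [hv]
    split_ifs with h3
    · rcases node_cases' s (show i + 1 ≤ (L₁ s).length by omega) rfl with ⟨h4, _⟩ | ⟨_, h4⟩ |
        ⟨_, _, h4⟩
      · omega
      · exact Or.inl (by rw [h4, h3])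
      · exact Or.inr ⟨_, List.getElem_mem _, h4⟩
    · rcases node_cases' s (show i ≤ (L₁ s).length by omega) rfl with ⟨_, h4⟩ | ⟨h4, _⟩ |
        ⟨_, _, h4⟩
      · exact Or.inl (by rw [h4, (h1 s hs).resolve_right h3])
      · omega
      · exact Or.inr ⟨_, List.getElem_mem _, h4⟩
  have hφi : InjOn φ X := by
    intro x hx y hy hxy
    obtain ⟨s, hs, i, hi, hxi, hv⟩ := hφ2 x hx
    obtain ⟨s', hs', j, hj, hyj, hv'⟩ := hφ2 y hy
    have hxs : x ∈ L₁ s := by rw [hxi]; exact List.getElem_mem _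
    have hys : y ∈ L₁ s' := by rw [hyj]; exact List.getElem_mem _
    have hss : s = s' := by
      rcases hφv x hx s hs hxs with h3 | ⟨a, h3, h3'⟩
      · rcases hφv y hy s' hs' hys with h4 | ⟨b, h4, h4'⟩
        · rw [h3, h4, Sum.inl.injEq] at hxy
          exact h2 s hs s' hs' hxy
        · rw [h3, h4'] at hxy
          cases hxy
      · rcases hφv y hy s' hs' hys with h4 | ⟨b, h4, h4'⟩
        · rw [h3', h4] at hxy
          cases hxy
        · rw [h3', h4', Sum.inr.injEq] at hxy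
          subst hxy
          exact hG.uniq (hB hs) (hB hs') h3 h4
    subst hss
    rw [hv, hv'] at hxy
    have h5 := node_inj s (hG.nodup s (hB hs)) (by split_ifs <;> omega)
      (by split_ifs <;> omega) hxy
    have h6 : i = j := by
      split_ifs at h5 <;> omega
    subst h6
    rw [hxi, hyj]
  -- the basis of `Q`
  obtain ⟨I, hIQ, hI, hIc⟩ := exists_basis_rk (N := N) Q (hQR.trans hN.sub)
  have hIf : I.Finite := N.ground_finite.subset hI.subset_ground
  obtain ⟨ψ, hψ1, hψ2⟩ := Bic_choice hN hI (hIQ.trans hQR) hIf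
  have hXf : X.Finite := N.ground_finite.subset (hXR.trans hN.sub)
  have hψQ : ∀ e ∈ I, ψ e ∈ LV L₁ f₁ Zq := by
    intro e he
    refine ⟨e, ?_, hψ2 e he⟩
    rw [← hQ]
    exact hIQ he
  have hXQ : Disjoint X Q := by
    rw [Set.disjoint_left]
    intro e he he'
    refine hBQ e (hX ▸ he) (φ e) (hφ1 e he) ⟨e, ?_, hφ1 e he⟩
    rw [← hQ]
    exact he'
  have hXI : Disjoint I X := (hXQ.mono_right hIQ).symm
  have hind : N.Indep (I ∪ X) := by
    refine hN.ind _ (fun e => if e ∈ I then ψ e else φ e) (union_subset (hIQ.trans hQR) hXR) ?_ ?_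
    · intro a ha b hb hab
      have hX' : ∀ c ∈ I ∪ X, c ∉ I → c ∈ X := fun c hc h' => hc.resolve_left h'
      by_cases ha' : a ∈ I <;> by_cases hb' : b ∈ I
      · simp only [if_pos ha', if_pos hb'] at hab
        exact hψ1 ha' hb' hab
      · simp only [if_pos ha', if_neg hb'] at hab
        have h3 := hψQ a ha'
        rw [hab] at h3
        exact absurd h3 (hBQ b (hX ▸ hX' b hb hb') _ (hφ1 b (hX' b hb hb')))
      · simp only [if_neg ha', if_pos hb'] at hab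
        have h3 := hψQ b hb'
        rw [← hab] at h3
        exact absurd h3 (hBQ a (hX ▸ hX' a ha ha') _ (hφ1 a (hX' a ha ha')))
      · simp only [if_neg ha', if_neg hb'] at hab
        exact hφi (hX' a ha ha') (hX' b hb hb') hab
    · rintro e (he | he)
      · simp only [if_pos he]
        exact hψ2 e he
      · have he' : e ∉ I := fun h' => Set.disjoint_left.1 hXI h' he
        simp only [if_neg he']
        exact hφ1 e he
  have hr1 : I.ncard + X.ncard ≤ rk N (X ∪ Q) := by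
    rw [← Set.ncard_union_eq hXI hIf hXf, ← rk_indep hind]
    exact rk_mono N (by
      rintro e (he | he)
      · exact Or.inr (hIQ he)
      · exact Or.inl he)
  have hr2 := hk X hXR
  rw [← hQ] at hr2 ⊢
  rw [← hX]
  have hfc : (M ／ Q).Finite := BQ.fin_contract Q
  have hXE : X ⊆ M.E \ Q := fun e he =>
    ⟨hG.sub_ground (hXR he), fun h' => Set.disjoint_left.1 hXQ he h'⟩
  have hr3 := rk_contract_set (M := M) (hQR.trans hG.sub_ground) hXE
  refine indep_of_rk hXE ?_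
  omega

end TSH
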