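import Pool.Agent.TST.FRows95
import Pool.Agent.TST.IndQ
import Pool.Agent.TST.FinLabels

/-!
# T-star, third level: `RowFin` (helper88)

From the final system `FSys` to `Base`: the inner wall, its frames, the units.
-/

open Set BIC BICS CWL
open scoped Matroid

namespace TSH

universe u

open Mdl Mdj EN Gad TST EN.Wall

/-! ### loops at half elements -/

lemma eQ_half {α V : Type*} {VQ : Set V} {ends : α → Sym2 V} {e : α} {v w : V}
    (h : ends e = s(v, w)) (hv : v ∉ VQ) (hw : w ∈ VQ) : eQ VQ ends e = s(v, v) := by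
  unfold eQ
  have hex : ∃ v w, ends e = s(v, w) ∧ v ∉ VQ ∧ w ∈ VQ := ⟨v, w, h, hv, hw⟩
  rw [dif_pos hex]
  obtain ⟨w', h2, h3, h4⟩ := hex.choose_spec
  obtain ⟨z, hz⟩ : ∃ z, hex.choose = z := ⟨_, rfl⟩
  rw [hz] at h2 h3 ⊢
  rw [h] at h2
  rcases Sym2.eq_iff.1 h2 with ⟨h5, _⟩ | ⟨_, h6⟩
  · rw [h5]
  · rw [← h6] at h3
    exact absurd hw h3

lemma eQ_full {α V : Type*} {VQ : Set V} {ends : α → Sym2 V} {e : α}
    (h : ¬ ∃ v w, ends e = s(v, w) ∧ v ∉ VQ ∧ w ∈ VQ) : eQ VQ ends e = ends e := by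
  unfold eQ
  rw [dif_neg h]

lemma eQ_map {α V V' : Type*} {VQ : Set V} {VQ' : Set V'} {f : α → Sym2 V} {f' : α → Sym2 V'}
    {g : V' → V} {e : α} (h : f e = (f' e).map g) (hg : ∀ v ∈ f' e, g v ∈ VQ ↔ v ∈ VQ') :
    eQ VQ f e = (eQ VQ' f' e).map g := by
  obtain ⟨x, y, hxy⟩ : ∃ x y, f' e = s(x, y) := by
    induction h : f' e with
    | _ a b => exact ⟨a, b, rfl⟩
  have hx := hg x (by rw [hxy]; simp)
  have hy := hg y (by rw [hxy]; simp)
  have h1 : f e = s(g x, g y) := by rw [h, hxy, Sym2.map_mk]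
  by_cases h2 : x ∈ VQ' <;> by_cases h3 : y ∈ VQ'
  · rw [eQ_full, eQ_full, h]
    · rintro ⟨v, w, h4, h5, h6⟩
      rw [hxy] at h4
      rcases Sym2.eq_iff.1 h4 with ⟨rfl, _⟩ | ⟨_, rfl⟩
      · exact h5 h2
      · exact h5 h3
    · rintro ⟨v, w, h4, h5, h6⟩
      rw [h1] at h4
      rcases Sym2.eq_iff.1 h4 with ⟨rfl, _⟩ | ⟨_, rfl⟩
      · exact h5 (hx.2 h2)
      · exact h5 (hy.2 h3)
  · rw [eQ_half (hxy.trans Sym2.eq_swap) h3 h2,
      eQ_half (h1.trans Sym2.eq_swap) (fun h4 => h3 (hy.1 h4)) (hx.2 h2), Sym2.map_mk]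
  · rw [eQ_half hxy h2 h3, eQ_half h1 (fun h4 => h2 (hx.1 h4)) (hy.2 h3), Sym2.map_mk]
  · rw [eQ_full, eQ_full, h]
    · rintro ⟨v, w, h4, h5, h6⟩
      rw [hxy] at h4
      rcases Sym2.eq_iff.1 h4 with ⟨_, rfl⟩ | ⟨rfl, _⟩
      · exact h3 h6
      · exact h2 h6
    · rintro ⟨v, w, h4, h5, h6⟩
      rw [h1] at h4
      rcases Sym2.eq_iff.1 h4 with ⟨_, rfl⟩ | ⟨rfl, _⟩
      · exact h3 (hy.1 h6)
      · exact h2 (hx.1 h6)

lemma mem_eQ {α V : Type*} {VQ : Set V} {ends : α → Sym2 V} {e : α} {v : V}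
    (h : v ∈ eQ VQ ends e) : v ∈ ends e := by
  by_cases hex : ∃ v w, ends e = s(v, w) ∧ v ∉ VQ ∧ w ∈ VQ
  · obtain ⟨x, y, h1, h2, h3⟩ := hex
    rw [eQ_half h1 h2 h3] at h
    have : v = x := by simpa using h
    rw [this, h1]
    simp
  · rwa [eQ_full hex] at h

/-! ### number of bad rows -/

section

variable {n₀ a : ℕ}

/-- at most three rows at a vertex -/
lemma three_rows (v : ℕ × ℕ) :
    {r : SegR n₀ | segNear (iR a r) = v ∨ segFar (iR a r) = v}.ncard ≤ 3 := by
  rcases {r : SegR n₀ | segNear (iR a r) = v ∨ segFar (iR a r) = v}.eq_empty_or_nonempty with h | h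
  · rw [h]
    simp
  obtain ⟨r₀, hr₀⟩ := h
  obtain ⟨x, hx⟩ : ∃ x : WV n₀, v = (x.1.val + a, x.2.val + a) := by
    rcases hr₀ with h | h
    · exact ⟨segHd r₀, by rw [← h, near_iR]⟩
    · exact ⟨segTl r₀, by rw [← h, far_iR]⟩
  refine le_trans (Set.ncard_le_ncard ?_ (Set.toFinite _)) (seg_hdeg (fun _ => 0) x)
  rintro r (h | h)
  · left
    rw [near_iR, hx] at h
    exact add_inj h
  · right
    rw [far_iR, hx] at h
    exact add_inj h

/-- rows of private classes -/
lemma card_priv {m kc : ℕ} {R : ℕ → Bool × ℕ × ℕ} {LR : Set (Bool × ℕ × ℕ)} {cls : ℕ → ℕ}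
    {pv : Set ℕ} (hcls : ∀ i < m, R i ∉ LR → cls i < kc)
    (priv : ∀ k ∈ pv, ∃ v v' : ℕ × ℕ, ∀ i < m, R i ∉ LR → cls i = k →
      (segNear (R i) = v ∨ segFar (R i) = v) ∨ (segNear (R i) = v' ∨ segFar (R i) = v'))
    (A : Finset (SegR n₀))
    (hA : ∀ r ∈ A, ∃ i < m, R i = iR a r ∧ R i ∉ LR ∧ cls i ∈ pv) : A.card ≤ 6 * kc := by
  classical
  choose! v v' hv using priv
  have h1 : A ⊆ (Finset.range kc).biUnion fun k =>
      ({r : SegR n₀ | segNear (iR a r) = v k ∨ segFar (iR a r) = v k} :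
        Set (SegR n₀)).toFinite.toFinset ∪
      ({r : SegR n₀ | segNear (iR a r) = v' k ∨ segFar (iR a r) = v' k} :
        Set (SegR n₀)).toFinite.toFinset := by
    intro r hr
    obtain ⟨i, hi, h2, h3, h4⟩ := hA r hr
    refine Finset.mem_biUnion.2 ⟨cls i, Finset.mem_range.2 (hcls i hi h3), ?_⟩
    rw [Finset.mem_union, Set.Finite.mem_toFinset, Set.Finite.mem_toFinset]
    have h5 := hv (cls i) h4 i hi h3 rfl
    rw [h2] at h5
    exact h5
  refine (Finset.card_le_card h1).trans (Finset.card_biUnion_le.trans ?_)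
  have h2 : ∀ k ∈ Finset.range kc,
      (({r : SegR n₀ | segNear (iR a r) = v k ∨ segFar (iR a r) = v k} :
        Set (SegR n₀)).toFinite.toFinset ∪
      ({r : SegR n₀ | segNear (iR a r) = v' k ∨ segFar (iR a r) = v' k} :
        Set (SegR n₀)).toFinite.toFinset).card ≤ 6 := by
    intro k _
    refine (Finset.card_union_le _ _).trans ?_
    rw [← Set.ncard_eq_toFinset_card, ← Set.ncard_eq_toFinset_card]
    have h3 := three_rows (a := a) (n₀ := n₀) (v k)
    have h4 := three_rows (a := a) (n₀ := n₀) (v' k)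
    omega
  have h3 := Finset.sum_le_sum h2
  rw [Finset.sum_const, Finset.card_range, smul_eq_mul] at h3
  omega

end

/-! ### the row -/

open Classical in
/-- number of tiles for the labels -/
noncomputable def nLab (κ₀ nT n₀ : ℕ) : ℕ :=
  if h : Nonempty (SegR n₀) then
    Classical.choose (@fin_labels κ₀ nT (SegR n₀) (Fintype.ofFinite _) h) else 0

/-- **Row Fin.** -/
theorem rowFin (κ ρ : ℕ) : RowFin.{u} κ ρ := by
  classical
  intro Cb wmax nT
  refine ⟨(Finset.range (wmax + 1)).sup (nLab (Cb * wmax ^ 2) nT), ?_⟩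
  intro α M _ w s 𝒯 L₁ f₁ e₁ u₁ L₂ f₂ e₂ u₂ m τ R c q a n₀ η F Zq LR T gT kc cls pv hw hu hm h
  have hFin : Fintype (SegR n₀) := Fintype.ofFinite _
  obtain ⟨ha2, hn4, hn44, haw, hw4⟩ := h.wall
  have hG := h.pair.s₁
  have hne := gs_ne hG
  have hZS : Zq ⊆ Seg w := h.Zq_sub.trans h.LR_sub
  have hS : (Seg w).Finite := seg_finite w
  have hring := h.ring
  have hlen : ∀ r : SegR n₀, 1 ≤ (inW L₁ a n₀).len r := fun r =>
    List.length_pos_iff.2 (hne _ (iR_mem haw r))
  -- rungs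
  have hT : ∀ t ∈ T, ∃ (r r' : SegR n₀) (p p' : ℕ), iR a r ∉ LR ∧ iR a r' ∉ LR ∧ 0 < p ∧
      p < (inW L₁ a n₀).len r ∧ 0 < p' ∧ p' < (inW L₁ a n₀).len r' ∧
      gT t = s(node (iR a r) (L₁ (iR a r)) p, node (iR a r') (L₁ (iR a r')) p') :=
    fun t ht => rung_iR hring (h.hon t ht).1
  obtain ⟨ends, hends, hendE, hendT⟩ := exists_ends hG haw hn44 h.T₁ hT
  set W := inW L₁ a n₀ with hW
  set el : SegR n₀ → ℕ → α := elN L₁ e₁ a with hel
  set S : Set α := SN L₁ e₁ a n₀ T with hSd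
  set Q : Set α := crr L₁ Zq with hQ
  set BQ : Finset (SegR n₀) := Finset.univ.filter fun r => iR a r ∈ Zq with hBQ
  have memBQ : ∀ r, r ∈ (BQ : Set (SegR n₀)) ↔ iR a r ∈ Zq := by
    intro r
    simp [hBQ]
  have hnZ : ∀ {v : Nd (WV n₀) (SegR n₀)}, v ∈ NW L₁ a n₀ →
      (gN L₁ a v ∈ LV L₁ f₁ Zq ↔ v ∈ rowV W BQ) := fun hv =>
    nodeZ hG haw hZS h.Zq_box memBQ hv
  -- the elements
  have hSel : ∀ x ∈ S, (∃ r, ∃ p < W.len r, el r p = x) ∨ x ∈ T := by
    rintro x (⟨r, _, p, hp, rfl⟩ | hx)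
    · exact Or.inl ⟨r, p, hp, rfl⟩
    · exact Or.inr hx
  have hTel : ∀ t ∈ T, ∀ r, ∀ p < W.len r, el r p ≠ t := by
    rintro t ht r p hp rfl
    exact Set.disjoint_left.1 h.T₁ ht (elN_crr haw hp)
  have hRung : ∀ x ∈ S, Rung L₁ a n₀ el x → x ∈ T := by
    intro x hx hr
    rcases hSel x hx with ⟨r, p, hp, h1⟩ | h1
    · exact absurd h1 (hr r p hp)
    · exact h1
  have hrow : RowIn W S ends el := by
    refine ⟨hlen, fun r p hp => Or.inl ⟨r, mem_univ _, p, hp, rfl⟩, hendE, ?_⟩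
    intro r p r' p' hp hp' he
    exact elN_inj hG haw hp hp' he
  have hnode : ∀ e ∈ S, ∀ v ∈ ends e, ∃ r, ∃ p ≤ W.len r, W.nd r p = v := fun e he v hv =>
    (hends e he).1 v hv
  -- labels
  set n := (Finset.range (wmax + 1)).sup (nLab (Cb * wmax ^ 2) nT) with hn
  have hNon : Nonempty (SegR n₀) :=
    ⟨⟨(true, 0, 0), Or.inl ⟨rfl, by dsimp only; omega, by dsimp only; omega⟩⟩⟩
  have hn1 : nLab (Cb * wmax ^ 2) nT n₀ ≤ n :=
    Finset.le_sup (f := nLab (Cb * wmax ^ 2) nT) (Finset.mem_range.2 (by omega))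
  unfold nLab at hn1
  rw [dif_pos hNon] at hn1
  have hpos : ∀ i < m, ∀ b < n, ∃ h : q i b < (L₁ (R i)).length, (L₁ (R i))[q i b] = c i b := h.pos
  have hl1 : ∀ b < n, ∀ b' < n, ∀ i < m, ∀ i' < m, R i = R i' → q i b = q i' b' →
      b = b' ∧ i = i' := by
    intro b hb b' hb' i hi i' hi' hR hq
    obtain ⟨h1, h2⟩ := hpos i hi b hb
    obtain ⟨h3, h4⟩ := hpos i' hi' b' hb'
    have h5 : c i b = c i' b' := by
      rw [← h2, ← h4]
      congr 1
      rw [hR]
    exact (h.inj i hi b hb i' hi' b' hb' h5).symm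
  have hl3 : ∀ i < m, R i ∉ LR → ∃ r : SegR n₀, iR a r = R i := by
    intro i hi hR
    have h1 : segNear (R i) ∈ Box a n₀ ∧ segFar (R i) ∈ Box a n₀ := by
      by_contra h1
      exact hR (hring _ (h.row i hi) h1)
    exact exists_iR (h.row i hi) h1.1 h1.2
  have hJn : ∀ x < m, ∀ y < m, R x ∉ LR → R y ∉ LR → Jn L₁ gT T n R q x y →
      ((R x = R y ∧ RamP.Near n (q x) (q y)) ∨ ∀ b, b + 1 < n → ∃ (r r' : SegR n₀) (p p' : ℕ),
        iR a r = R x ∧ iR a r' = R y ∧ Btw (q x b) (q x (b + 1)) p ∧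
        Btw (q y b) (q y (b + 1)) p' ∧ Hon L₁ a n₀ el S ends (r, p) (r', p')) := by
    intro x hx y hy hRx hRy hj
    rcases hj with h1 | h1
    · exact Or.inl h1
    · right
      intro b hb
      obtain ⟨t, ht, p, p', h2, h3, h4⟩ := h1 b hb
      obtain ⟨r, hr⟩ := hl3 x hx hRx
      obtain ⟨r', hr'⟩ := hl3 y hy hRy
      have hgap : ∀ z < m, ∀ (r : SegR n₀) (p : ℕ), iR a r = R z → Gap q z b p →
          0 < p ∧ p < W.len r := by
        intro z hz r p hr hp
        obtain ⟨h5, -⟩ := hpos z hz b (by omega)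
        obtain ⟨h6, -⟩ := hpos z hz (b + 1) hb
        have h7 : W.len r = (L₁ (R z)).length := by rw [← hr]; rfl
        rw [h7]
        rcases hp with h8 | h8 <;> omega
      obtain ⟨a1, a2⟩ := hgap x hx r p hr h2
      obtain ⟨a3, a4⟩ := hgap y hy r' p' hr' h3
      refine ⟨r, r', p, p', hr, hr', h2, h3, a1, a2, a3, a4, t, Or.inr ht, ?_, ?_⟩
      · intro r p hp
        exact hTel t ht r p hp
      · refine hendT t ht r r' p p' a2.le a4.le ?_
        rw [hr, hr']
        exact h4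
  have hconn : ∀ i < m, ∀ j < m, R i ∉ LR → R j ∉ LR → cls i = cls j → cls i ∉ pv →
      Relation.ReflTransGen (fun x y => (x < m ∧ R x ∉ LR) ∧ (y < m ∧ R y ∉ LR) ∧ cls x = cls y ∧
        (((R x = R y ∧ RamP.Near n (q x) (q y)) ∨ ∀ b, b + 1 < n → ∃ (r r' : SegR n₀) (p p' : ℕ),
          iR a r = R x ∧
          iR a r' = R y ∧ Btw (q x b) (q x (b + 1)) p ∧ Btw (q y b) (q y (b + 1)) p' ∧
          Hon L₁ a n₀ el S ends (r, p) (r', p')) ∨
        ((R y = R x ∧ RamP.Near n (q y) (q x)) ∨ ∀ b, b + 1 < n → ∃ (r r' : SegR n₀) (p p' : ℕ),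
          iR a r = R y ∧
          iR a r' = R x ∧ Btw (q y b) (q y (b + 1)) p ∧ Btw (q x b) (q x (b + 1)) p' ∧
          Hon L₁ a n₀ el S ends (r, p) (r', p')))) i j := by
    intro i hi j hj hRi hRj hc hp
    refine Relation.ReflTransGen.mono ?_ _ _ (h.conn i hi j hj hRi hRj hc hp)
    rintro x y ⟨⟨b1, b2⟩, ⟨b3, b4⟩, b5, b6⟩
    refine ⟨⟨b1, b2⟩, ⟨b3, b4⟩, b5, ?_⟩
    rcases b6 with b6 | b6
    · exact Or.inl (hJn x b1 y b3 b2 b4 b6)
    · exact Or.inr (hJn y b3 x b1 b4 b2 b6)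
  set Bd₁ : Finset (SegR n₀) := Finset.univ.filter fun r => iR a r ∈ LR with hBd₁
  set Bd₂ : Finset (SegR n₀) := Finset.univ.filter fun r =>
    ∃ i < m, R i = iR a r ∧ R i ∉ LR ∧ cls i ∈ pv with hBd₂
  set Bd := Bd₁ ∪ Bd₂ with hBd
  have hmle : m ≤ Cb * wmax ^ 2 := hm.trans (Nat.mul_le_mul_left _ (Nat.pow_le_pow_left hw 2))
  obtain ⟨f, lab, m', R', G, P, k1, k2, k3, k4, k5, k6, k7, k8, k9, k10⟩ :=
    Classical.choose_spec (@fin_labels (Cb * wmax ^ 2) nT (SegR n₀)
    (Fintype.ofFinite _) hNon) n hn1 (iR a) iR_inj m hmle R q (Hon L₁ a n₀ el S ends) hl1 h.ns LR pv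
    cls kc hl3 h.cls_lt hconn Bd (by
      intro i hi r hr hR hc
      refine Finset.mem_union_right _ (Finset.mem_filter.2 ⟨Finset.mem_univ _, i, hi, hr.symm, hR, hc⟩))
    (by
      intro r hr
      exact Finset.mem_union_left _ (Finset.mem_filter.2 ⟨Finset.mem_univ _, hr⟩))
  refine ⟨el, S, Q, ends, BQ, Bd, fun b => τ (f b), m', R', fun i b => q (lab i) (f b), G, P, k1, ?_⟩
  have hposL : ∀ i < m', ∀ b < nT, q (lab i) (f b) < W.len (R' i) ∧
      el (R' i) (q (lab i) (f b)) = c (lab i) (f b) := by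
    intro i hi b hb
    obtain ⟨h1, h2⟩ := k4 i hi
    obtain ⟨h3, h4⟩ := hpos (lab i) h1 (f b) (k2 b hb)
    have h5 : q (lab i) (f b) < (L₁ (iR a (R' i))).length := by rw [h2]; exact h3
    refine ⟨h5, ?_⟩
    rw [← h4, hel, elN_eq h5]
    congr 1
    rw [h2]
  have hBQn : ∀ {r : SegR n₀}, iR a r ∉ LR → r ∉ BQ := by
    intro r hr hb
    exact hr (h.Zq_sub ((memBQ r).1 hb))
  have hBQn' : ∀ {r : SegR n₀}, r ∉ BQ → iR a r ∉ Zq := fun hr hb => hr ((memBQ _).2 hb)
  have hinner : ∀ {r : SegR n₀} {p : ℕ}, r ∉ BQ → 0 < p → p < W.len r →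
      W.nd r p ∉ rowV W (BQ : Set (SegR n₀)) := by
    rintro r p hr h0 hp ⟨r', hr', p', hp', he⟩
    rw [RW.nd_mid W h0 hp] at he
    rcases Nat.eq_zero_or_pos p' with h1 | h1
    · rw [h1, RW.nd_zero] at he
      simp at he
    · rcases hp'.lt_or_eq with h2 | h2
      · rw [RW.nd_mid W h1 h2] at he
        have h3 := Sum.inr.inj he
        rw [Prod.mk.injEq] at h3
        rw [h3.1] at hr'
        exact hr hr'
      · rw [h2, RW.nd_len W (hlen r')] at he
        simp at he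
  have hnd : ∀ {r : SegR n₀} {p : ℕ}, p ≤ W.len r → W.nd r p ∈ NW L₁ a n₀ :=
    fun {r p} hp => ⟨r, p, hp, rfl⟩
  have hgN : ∀ (r : SegR n₀) (p : ℕ), gN L₁ a (W.nd r p) = node (iR a r) (L₁ (iR a r)) p :=
    fun r p => gN_nd (hne _ (iR_mem haw r))
  have hTv : ∀ t ∈ T, ∀ v ∈ gT t, v ∈ LV L₁ f₁ (Seg w) ∧ v ∉ LV L₁ f₁ Zq := by
    intro t ht v hv
    obtain ⟨r, r', p, p', b1, b2, b3, b4, b5, b6, b7⟩ := hT t ht
    have key : ∀ (r : SegR n₀) (p : ℕ), iR a r ∉ LR → 0 < p → p < W.len r →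
        v = node (iR a r) (L₁ (iR a r)) p → v ∈ LV L₁ f₁ (Seg w) ∧ v ∉ LV L₁ f₁ Zq := by
      rintro r p hr h0 hp rfl
      refine ⟨(mem_LV hG (Subset.refl _)).2 ⟨_, iR_mem haw r, p, hp.le, rfl⟩, ?_⟩
      rw [← hgN r p, hnZ (hnd hp.le)]
      exact hinner (hBQn hr) h0 hp
    rw [b7] at hv
    rcases Sym2.mem_iff.1 hv with h1 | h1
    · exact key r p b1 b3 b4 h1
    · exact key r' p' b2 b5 b6 h1
  have hon2 : ∀ t ∈ T, ∀ v ∈ LV L₁ f₁ (Seg w), v ∉ LV L₁ f₁ Zq →
      (v ∈ gT t ↔ t ∉ M.closure {x | x ∈ crr L₁ (Seg w) ∧ v ∉ f₁ x}) := fun t ht => (h.hon t ht).2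
  have hSsub : S ⊆ T ∪ crr L₁ (Seg w) := by
    intro x hx
    rcases hSel x hx with ⟨r, p, hp, rfl⟩ | hx
    · exact Or.inr (elN_crr haw hp)
    · exact Or.inl hx
  have hmemE : ∀ x ∈ S, ∀ v ∈ fT f₁ gT T x, ∃ v' ∈ ends x, gN L₁ a v' = v := by
    intro x hx v hv
    rw [← (hends x hx).2] at hv
    exact Sym2.mem_map.1 hv
  have hginj : ∀ v ∈ NW L₁ a n₀, ∀ v' ∈ NW L₁ a n₀, gN L₁ a v = gN L₁ a v' → v = v' :=
    fun v hv v' hv' he => gN_inj hne hG.nodup hG.disj haw hv hv' he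
  have hE : crr L₁ (Seg w) ⊆ M.E := hG.sub_ground
  exact
  { wall := ⟨ha2, hn4, haw, hw4⟩
    el_eq := fun r p hp => elN_eq hp
    row := hrow
    node := hnode
    rung := by
      intro e he hr
      have ht := hRung e he hr
      obtain ⟨r, r', p, p', b1, b2, b3, b4, b5, b6, b7⟩ := hT e ht
      exact ⟨Set.disjoint_left.1 h.T₂ ht, r, p, r', p', hBQn b1, hBQn b2, b3, b4, b5, b6,
        hendT e ht r r' p p' b4.le b6.le b7⟩
    frm := by
      have h1 := frm_M hG h.con h.T_cl h.T₁ hTv hon2 h.lift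
      have h2 : ins S ends (rowV W (BQ : Set (SegR n₀)))ᶜ ⊆ T ∪ SA L₁ f₁ w Zq := by
        intro x hx
        by_cases hxT : x ∈ T
        · exact Or.inl hxT
        · right
          have h3 := (hSsub hx.1).resolve_left hxT
          refine ⟨h3, fun v hv => ?_⟩
          have h4 : v ∈ fT f₁ gT T x := by
            unfold fT
            rwa [if_neg hxT]
          obtain ⟨v', hv', rfl⟩ := hmemE x hx.1 v h4
          rw [hnZ ((hends x hx.1).1 v' hv')]
          exact hx.2 v' hv'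
      have h3 := FrmU.comap (gN L₁ a) (h1.subset h2) (fun e he => (hends e he.1).2.symm)
        (fun e he e' he' v hv v' hv' hvv => hginj v ((hends e he.1).1 v hv) v'
          ((hends e' he'.1).1 v' hv') hvv)
      exact ⟨h3.sub, h3.star, fun V hV => (h3.rk V hV).trans (by omega)⟩
    frmQ := by
      have h1 := frm_Q hG hZS h.con h.kill h.T_cl h.T₁ hTv hon2
      have h2 : SQ (rowV W (BQ : Set (SegR n₀))) S ends ⊆
          SQ (LV L₁ f₁ Zq) (T ∪ crr L₁ (Seg w)) (fT f₁ gT T) := by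
        rintro x ⟨hx, v, hv, hvQ⟩
        refine ⟨hSsub hx, gN L₁ a v, ?_, ?_⟩
        · rw [← (hends x hx).2]
          exact Sym2.mem_map.2 ⟨v, hv, rfl⟩
        · rw [hnZ ((hends x hx).1 v hv)]
          exact hvQ
      refine FrmU.comap (gN L₁ a) (h1.subset h2) (fun e he => ?_)
        (fun e he e' he' v hv v' hv' hvv => hginj v ((hends e he.1).1 v (mem_eQ hv)) v'
          ((hends e' he'.1).1 v' (mem_eQ hv')) hvv)
      exact eQ_map (hends e he.1).2.symm fun v hv => hnZ ((hends e he.1).1 v hv)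
    Q_sub := (crr_mono hZS).trans hE
    Q_row := by
      rw [← crr_iR]
      refine crr_mono ?_
      rintro _ ⟨r, hr, rfl⟩
      exact (memBQ r).1 hr
    Q_S := by
      rintro x ⟨hxQ, hx⟩
      rcases hSel x hx with ⟨r, p, hp, rfl⟩ | hxT
      · obtain ⟨r', hr', hx'⟩ := hxQ
        have h1 : iR a r = r' := row_uniq hG.disj (iR_mem haw r) (hZS hr') (elN_mem hp) hx'
        rw [← h1] at hr'
        exact ⟨r, (memBQ r).2 hr', p, hp, rfl⟩
      · exact absurd (crr_mono hZS hxQ) (Set.disjoint_left.1 h.T₁ hxT)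
    Q_ne := by
      obtain ⟨r, hr, h1⟩ := h.ne
      obtain ⟨r₀, rfl⟩ := exists_iR (hZS hr) h1 ((h.Zq_box r hr).1 h1)
      exact ⟨r₀, (memBQ r₀).2 hr⟩
    Q_big := by
      refine h.big.trans ?_
      have h1 : {v | v ∈ Box a n₀ ∧ ∃ r ∈ Zq, segNear r = v ∨ segFar r = v} ⊆
          (fun x : WV n₀ => (x.1.val + a, x.2.val + a)) ''
            {x | Sum.inl x ∈ rowV W (BQ : Set (SegR n₀))} := by
        rintro v ⟨hv, r, hr, h2 | h2⟩
        · subst h2
          obtain ⟨r₀, rfl⟩ := exists_iR (hZS hr) hv ((h.Zq_box r hr).1 hv)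
          refine ⟨segHd r₀, ⟨r₀, (memBQ r₀).2 hr, 0, Nat.zero_le _, RW.nd_zero W r₀⟩, ?_⟩
          exact (near_iR r₀).symm
        · subst h2
          obtain ⟨r₀, rfl⟩ := exists_iR (hZS hr) ((h.Zq_box r hr).2 hv) hv
          refine ⟨segTl r₀, ⟨r₀, (memBQ r₀).2 hr, W.len r₀, le_rfl, RW.nd_len W (hlen r₀)⟩, ?_⟩
          exact (far_iR r₀).symm
      exact (Set.ncard_le_ncard h1 (Set.toFinite _)).trans
        (Set.ncard_image_le (Set.toFinite _))
    BQ_Bd := by
      intro r hr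
      exact Finset.mem_union_left _ (Finset.mem_filter.2
        ⟨Finset.mem_univ _, h.Zq_sub ((memBQ r).1 hr)⟩)
    indep := by
      intro B hB1 hB2
      have h1 := indep_Q hG hZS h.kill (B.image (iR a)) (by
        rw [Finset.coe_image]
        rintro _ ⟨r, _, rfl⟩
        exact iR_mem haw r) (by
        rw [Finset.coe_image, crr_iR (e₁ := e₁)]
        rintro x ⟨r, hr, p, hp, rfl⟩ v hv
        rw [elN_eq hp, hG.end_eq _ (iR_mem haw r) p hp] at hv
        rcases Sym2.mem_iff.1 hv with h2 | h2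
        · rw [h2, ← hgN r p, hnZ (hnd hp.le)]
          exact hB1 r hr p hp.le
        · rw [h2, ← hgN r (p + 1), hnZ (hnd hp)]
          exact hB1 r hr (p + 1) hp) (by
        intro A hA
        obtain ⟨A', hA', rfl⟩ := Finset.subset_image_iff.1 hA
        rw [Finset.card_image_of_injective _ iR_inj]
        refine (hB2 A' (by exact_mod_cast hA')).trans ?_
        refine Set.ncard_le_ncard_of_injOn (fun x : WV n₀ => (x.1.val + a, x.2.val + a)) ?_
          (fun x _ y _ hxy => add_inj hxy) ?_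
        · rintro x ⟨r, hr, h2⟩
          refine ⟨iR a r, Finset.mem_image_of_mem _ hr, ?_⟩
          rw [near_iR, far_iR]
          rcases h2 with rfl | rfl
          · exact Or.inl rfl
          · exact Or.inr rfl
        · refine (((A'.image (iR a)).image segNear ∪
            (A'.image (iR a)).image segFar).finite_toSet).subset ?_
          rintro x ⟨r, hr, h2 | h2⟩
          · exact Finset.mem_coe.2 (Finset.mem_union_left _ (h2 ▸ Finset.mem_image_of_mem _ hr))
          · exact Finset.mem_coe.2 (Finset.mem_union_right _ (h2 ▸ Finset.mem_image_of_mem _ hr)))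
      rw [Finset.coe_image, crr_iR (e₁ := e₁)] at h1
      exact h1
    tau := fun b hb => h.tau _ (k2 b hb)
    anchor := by
      intro b hb σ hσ r hr p hp he
      refine hBQn' hr (h.anchor _ (k2 b hb) σ hσ _ (iR_mem haw r) ?_)
      rw [← he]
      exact elN_mem hp
    units := k6
    lab := fun i hi b hb => (hposL i hi b hb).1
    loc := by
      intro r hr p h0 hp e he
      have hv1 : gN L₁ a (W.nd r p) = Sum.inr ((L₁ (iR a r))[p - 1]'(by
          have : p < (L₁ (iR a r)).length := hp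
          omega)) := by
        rw [hgN r p]
        exact CWL.node_mid _ h0 hp
      have hvV : gN L₁ a (W.nd r p) ∈ LV L₁ f₁ (Seg w) := by
        rw [hgN r p]
        exact (mem_LV hG (Subset.refl _)).2 ⟨_, iR_mem haw r, p, hp.le, rfl⟩
      have hvZ : gN L₁ a (W.nd r p) ∉ LV L₁ f₁ Zq := by
        rw [hnZ (hnd hp.le)]
        exact hinner hr h0 hp
      have hkey : ∀ r' ∈ Seg w, ∀ j ≤ (L₁ r').length,
          node (iR a r) (L₁ (iR a r)) p = node r' (L₁ r') j → iR a r = r' ∧ p = j := by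
        intro r' hr' j hj he'
        have hpl : p < (L₁ (iR a r)).length := hp
        rw [CWL.node_mid _ h0 hpl] at he'
        rcases node_cases' r' hj rfl with ⟨_, h3⟩ | ⟨_, h3⟩ | ⟨h4, h5, h3⟩
        · rw [h3] at he'
          simp at he'
        · rw [h3] at he'
          simp at he'
        · rw [h3] at he'
          have h6 := Sum.inr.inj he'
          have h7 : iR a r = r' := row_uniq hG.disj (iR_mem haw r) hr' (List.getElem_mem _)
            (by rw [h6]; exact List.getElem_mem _)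
          subst h7
          have h8 := (List.Nodup.getElem_inj_iff (hG.nodup _ hr')).1 h6
          exact ⟨rfl, by omega⟩
      have hset : {x | x ∈ crr L₁ (Seg w) ∧ gN L₁ a (W.nd r p) ∉ f₁ x} =
          crr L₁ (Seg w) \ {el r (p - 1), el r p} := by
        ext x
        refine and_congr_right fun hx => not_congr ?_
        obtain ⟨r', hr', hx'⟩ := hx
        obtain ⟨j, hj, rfl⟩ := List.mem_iff_getElem.1 hx'
        have hpl : p < (L₁ (iR a r)).length := hp
        have hp1 : p - 1 < (L₁ (iR a r)).length := by omega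
        rw [hG.end_eq r' hr' j hj, Sym2.mem_iff, hel, mem_insert_iff, mem_singleton_iff,
          elN_eq hp1, elN_eq hpl, hgN r p]
        constructor
        · rintro (h1 | h1)
          · obtain ⟨rfl, rfl⟩ := hkey r' hr' j hj.le h1
            exact Or.inr rfl
          · obtain ⟨rfl, h2⟩ := hkey r' hr' (j + 1) hj h1
            left
            congr 1
            omega
        · rintro (h1 | h1)
          · have h2 : r' = iR a r := row_uniq hG.disj hr' (iR_mem haw r) (List.getElem_mem hj)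
              (by rw [h1]; exact List.getElem_mem _)
            subst h2
            have h3 := (List.Nodup.getElem_inj_iff (hG.nodup _ hr')).1 h1
            right
            congr 1
            omega
          · have h2 : r' = iR a r := row_uniq hG.disj hr' (iR_mem haw r) (List.getElem_mem hj)
              (by rw [h1]; exact List.getElem_mem _)
            subst h2
            have h3 := (List.Nodup.getElem_inj_iff (hG.nodup _ hr')).1 h1
            left
            congr 1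
            omega
      have hmem : W.nd r p ∈ ends e ↔ gN L₁ a (W.nd r p) ∈ fT f₁ gT T e := by
        rw [← (hends e he).2]
        constructor
        · intro h1
          exact Sym2.mem_map.2 ⟨_, h1, rfl⟩
        · intro h1
          obtain ⟨v', h2, h3⟩ := Sym2.mem_map.1 h1
          rw [← hginj v' ((hends e he).1 v' h2) _ (hnd hp.le) h3]
          exact h2
      rw [hmem, ← hset]
      by_cases heT : e ∈ T
      · have h1 := hon2 e heT _ hvV hvZ
        unfold fT
        rw [if_pos heT]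
        exact h1
      · have h1 : e ∈ crr L₁ (Seg w) := (hSsub he).resolve_left heT
        unfold fT
        rw [if_neg heT]
        constructor
        · intro h2 h3
          refine hG.star _ e h1 h2 (M.closure_subset_closure ?_ h3)
          rintro x ⟨hx1, hx2⟩
          refine ⟨hx1, fun v hv hvv => ?_⟩
          rw [mem_singleton_iff.1 hvv] at hv
          exact hx2 hv
        · intro h2
          by_contra h3
          exact h2 (M.subset_closure _ (fun x hx => hE hx.1) ⟨h1, h3⟩)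
    all := by
      intro b hb r p hp hx
      obtain ⟨i, hi, h1⟩ := h.tile _ (k2 b hb) _ (iR_mem haw r) _ (elN_mem hp) hx
      obtain ⟨h2, h3⟩ := hpos i hi _ (k2 b hb)
      have h4 : iR a r = R i := by
        refine row_uniq hG.disj (iR_mem haw r) (h.row i hi) (elN_mem (e₁ := e₁) hp) ?_
        rw [h1, ← h3]
        exact List.getElem_mem _
      obtain ⟨j, hj, rfl⟩ := k5 i hi ⟨r, h4⟩
      obtain ⟨h5, h6⟩ := hposL j hj b hb
      rw [← h1] at h6
      obtain ⟨h7, h8⟩ := elN_inj hG haw h5 hp h6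
      exact ⟨j, hj, h7, h8⟩
    P_lt := fun i hi => ⟨(k7 i hi).1, hBQn (k7 i hi).2⟩
    P_sep := k8
    P_cov := k9
    comp := by
      have h1 := h.kc_le
      have h2 := Nat.mul_le_mul_left η k10
      nlinarith
    bad := by
      have h1 : Bd₁.card ≤ LR.ncard := by
        have h2 := hS.subset h.LR_sub
        rw [Set.ncard_eq_toFinset_card LR h2]
        refine Finset.card_le_card_of_injOn (iR a) ?_ iR_inj.injOn
        intro r hr
        rw [Finset.mem_coe, Set.Finite.mem_toFinset]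
        exact (Finset.mem_filter.1 hr).2
      have h2 : Bd₂.card ≤ 6 * kc := card_priv h.cls_lt h.priv Bd₂ fun r hr =>
        (Finset.mem_filter.1 hr).2
      have h3 : Bd.card ≤ Bd₁.card + Bd₂.card := Finset.card_union_le _ _
      have h4 := h.light
      have h5 := h.kc_le
      have h6 : Bd.card ≤ LR.ncard + 6 * kc := by omega
      have h7 := Nat.mul_le_mul_left η h6
      nlinarith
    few := by
      have h1 : {r | r ∈ Zq ∧ segNear r ∈ Box a n₀} = iR a '' (BQ : Set (SegR n₀)) := by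
        ext r
        constructor
        · rintro ⟨hr, h2⟩
          obtain ⟨r₀, rfl⟩ := exists_iR (hZS hr) h2 ((h.Zq_box r hr).1 h2)
          exact ⟨r₀, (memBQ r₀).2 hr, rfl⟩
        · rintro ⟨r₀, hr₀, rfl⟩
          exact ⟨(memBQ r₀).1 hr₀, near_Box r₀⟩
      have h2 := h.few
      rw [h1, Set.ncard_image_of_injective _ iR_inj, Set.ncard_coe_finset] at h2
      exact h2 }

end TSH
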