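import Pool.Agent.TST.LDef
import Pool.Agent.CW.V1

/-!
# Row W0 of T-star: from the clean pair to a label system (helper11)
-/

open Set BIC BICS CWL
open scoped Matroid

namespace TSH

universe u

namespace W0

/-- enumeration of a finite set -/
lemma exists_enum {α : Type u} [Nonempty α] {K : Set α} (hK : K.Finite) : ∃ x : ℕ → α,
    (∀ i < K.ncard, x i ∈ K) ∧ (∀ i < K.ncard, ∀ j < K.ncard, x i = x j → i = j) ∧
      ∀ y ∈ K, ∃ i < K.ncard, x i = y := by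
  classical
  have hc : K.ncard = hK.toFinset.card := Set.ncard_eq_toFinset_card K hK
  rw [hc]
  let e := hK.toFinset.equivFin
  refine ⟨fun i => if h : i < hK.toFinset.card then (e.symm ⟨i, h⟩).1 else Classical.arbitrary α,
    ?_, ?_, ?_⟩
  · intro i hi
    simp only [dif_pos hi]
    exact hK.mem_toFinset.1 (e.symm ⟨i, hi⟩).2
  · intro i hi j hj hij
    simp only [dif_pos hi, dif_pos hj] at hij
    have h1 := e.symm.injective (Subtype.ext hij)
    exact congrArg Fin.val h1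
  · intro y hy
    refine ⟨(e ⟨y, hK.mem_toFinset.2 hy⟩).1, (e ⟨y, hK.mem_toFinset.2 hy⟩).2, ?_⟩
    simp

/-- positions after filtering -/
lemma idx_filter {α : Type u} [DecidableEq α] (p : α → Bool) {x y : α} (hpx : p x = true)
    (hpy : p y = true) : ∀ l : List α, l.idxOf x < l.idxOf y → x ∈ l →
    (l.filter p).idxOf x < (l.filter p).idxOf y := by
  intro l
  induction l with
  | nil => intro _ h; simp at h
  | cons a t ih =>
    intro h hx
    by_cases hax : a = x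
    · subst hax
      rw [List.filter_cons_of_pos hpx]
      by_cases hay : a = y
      · subst hay
        exact absurd h (lt_irrefl _)
      · rw [List.idxOf_cons_self, List.idxOf_cons_ne _ hay]
        exact Nat.succ_pos _
    · have hxt : x ∈ t := by
        rcases List.mem_cons.1 hx with h1 | h1
        · exact absurd h1.symm hax
        · exact h1
      by_cases hay : a = y
      · subst hay
        rw [List.idxOf_cons_self] at h
        exact absurd h (Nat.not_lt_zero _)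
      · rw [List.idxOf_cons_ne _ hax, List.idxOf_cons_ne _ hay] at h
        have h1 := ih (by omega) hxt
        by_cases hpa : p a = true
        · rw [List.filter_cons_of_pos hpa, List.idxOf_cons_ne _ hax, List.idxOf_cons_ne _ hay]
          omega
        · rw [List.filter_cons_of_neg hpa]
          exact h1

/-- different tiles are disjoint -/
lemma tile_eq {s : ℕ} {t t' : ℕ × ℕ} (ht : 2 * (s + 3) ∣ t.1 ∧ 2 * (s + 3) ∣ t.2)
    (ht' : 2 * (s + 3) ∣ t'.1 ∧ 2 * (s + 3) ∣ t'.2) {σ : Bool × ℕ × ℕ}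
    (h : σ ∈ shS t.1 t.2 '' Seg (s + 2)) (h' : σ ∈ shS t'.1 t'.2 '' Seg (s + 2)) : t = t' := by
  have key : ∀ a b i j : ℕ, 2 * (s + 3) ∣ a → 2 * (s + 3) ∣ b → i ≤ s + 2 → j ≤ s + 2 →
      i + a = j + b → a = b := by
    rintro _ _ i j ⟨a, rfl⟩ ⟨b, rfl⟩ hi hj hij
    rcases lt_trichotomy a b with h1 | h1 | h1
    · have h2 : 2 * (s + 3) * (a + 1) ≤ 2 * (s + 3) * b := Nat.mul_le_mul_left _ h1
      rw [Nat.mul_add] at h2
      omega
    · rw [h1]
    · have h2 : 2 * (s + 3) * (b + 1) ≤ 2 * (s + 3) * a := Nat.mul_le_mul_left _ h1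
      rw [Nat.mul_add] at h2
      omega
  obtain ⟨⟨b, i, j⟩, hq, rfl⟩ := h
  obtain ⟨⟨b', i', j'⟩, hq', heq⟩ := h'
  simp only [shS, Prod.mk.injEq] at heq
  simp only [Seg, mem_ofPred_eq] at hq hq'
  have h1 := key t.1 t'.1 i i' ht.1 ht'.1 (by omega) (by omega) heq.2.1.symm
  have h2 := key t.2 t'.2 j j' ht.2 ht'.2 (by omega) (by omega) heq.2.2.symm
  exact Prod.ext h1 h2

lemma seg_core {s : ℕ} : Seg s ⊆ core (s + 2) := by
  rintro ⟨b, i, j⟩ h
  cases b
  · rw [mem_core_f]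
    simp [Seg] at h
    omega
  · rw [mem_core_t]
    simp [Seg] at h
    omega

lemma seg_le {w : ℕ} {r : Bool × ℕ × ℕ} (h : r ∈ Seg w) : r.2.1 ≤ w ∧ r.2.2 ≤ w := by
  simp only [Seg, mem_ofPred_eq] at h
  omega

lemma seg_mono {w w' : ℕ} (h : w ≤ w') : Seg w ⊆ Seg w' := by
  rintro r (⟨h1, h2, h3⟩ | ⟨h1, h2, h3, h4⟩)
  · exact Or.inl ⟨h1, h2.trans_le h, h3.trans h⟩
  · exact Or.inr ⟨h1, h2.trans h, h3.trans_le h, h4⟩

/-- code of a row -/
def enc (W : ℕ) (r : Bool × ℕ × ℕ) : Bool × Fin (W + 1) × Fin (W + 1) :=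
  (r.1, Fin.ofNat (W + 1) r.2.1, Fin.ofNat (W + 1) r.2.2)

/-- the row with a given code -/
def dec (W : ℕ) (ρ : Bool × Fin (W + 1) × Fin (W + 1)) : Bool × ℕ × ℕ :=
  (ρ.1, ρ.2.1.val, ρ.2.2.val)

lemma dec_inj {W : ℕ} {ρ ρ' : Bool × Fin (W + 1) × Fin (W + 1)} (h : dec W ρ = dec W ρ') :
    ρ = ρ' := by
  obtain ⟨b, i, j⟩ := ρ
  obtain ⟨b', i', j'⟩ := ρ'
  simp only [dec, Prod.mk.injEq] at h
  rw [h.1, Fin.ext h.2.1, Fin.ext h.2.2]

lemma dec_enc {W : ℕ} {r : Bool × ℕ × ℕ} (h1 : r.2.1 ≤ W) (h2 : r.2.2 ≤ W) :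
    dec W (enc W r) = r := by
  obtain ⟨b, i, j⟩ := r
  simp only [dec, enc, Fin.val_ofNat, Prod.mk.injEq, true_and]
  simp only at h1 h2
  exact ⟨Nat.mod_eq_of_lt (by omega), Nat.mod_eq_of_lt (by omega)⟩

end W0

open W0 in
/-- **Row W0.** -/
theorem rowW0 (κ : ℕ) : RowW0.{u} κ := by
  classical
  intro Cb s wmax n hs hs2
  have : Fintype ↥(Seg (s + 2)) := (Seg_finite (s + 2)).fintype
  obtain ⟨N, hN⟩ := homog_tiles (Cb * wmax ^ 2) (n + 1) (Bool × Fin (wmax + 1) × Fin (wmax + 1))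
    (↥(Seg (s + 2)) → Option (Bool × Fin (wmax + 1) × Fin (wmax + 1)))
  refine ⟨N + (Seg wmax).ncard, ?_⟩
  intro α M _ w L L' h K₀ Df h' 𝒯 L₁ f₁ e₁ u₁ L₂ f₂ e₂ u₂ hw hu₁ hu₂ hm₀ hpos hW hcv hD
  have : Nonempty α := ⟨e₁ (true, 0, 0)⟩
  -- tiles are disjoint
  have hE₁ : crr L₁ (Seg w) ⊆ M.E := hW.pair.s₁.sub_ground
  have hdisj : ∀ t ∈ 𝒯, ∀ t' ∈ 𝒯, ∀ x, x ∈ crr L₂ (shS t.1 t.2 '' Seg (s + 2)) →
      x ∈ crr L₂ (shS t'.1 t'.2 '' Seg (s + 2)) → t = t' := by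
    rintro t ht t' ht' x ⟨σ, hσ, hx⟩ ⟨σ', hσ', hx'⟩
    have h1 : σ = σ' := hW.pair.s₂.uniq ⟨t, ht, hσ⟩ ⟨t', ht', hσ'⟩ hx hx'
    subst h1
    exact tile_eq (hpos t ht) (hpos t' ht') hσ hσ'
  have hcs : ∀ t : ℕ × ℕ, crr L₂ (shS t.1 t.2 '' core (s + 2)) ⊆
      crr L₂ (shS t.1 t.2 '' Seg (s + 2)) := fun t => crr_mono (image_mono sdiff_subset)
  -- good tiles
  set 𝒯₁ : Finset (ℕ × ℕ) :=
    𝒯.filter (fun t => ¬ ∃ r ∈ Seg w, e₁ r ∈ crr L₂ (shS t.1 t.2 '' Seg (s + 2))) with h𝒯₁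
  have hcard : N ≤ 𝒯₁.card := by
    have h1 : (𝒯.filter (fun t => ∃ r ∈ Seg w,
        e₁ r ∈ crr L₂ (shS t.1 t.2 '' Seg (s + 2)))).card ≤ (Seg wmax).ncard := by
      have h2 : ∀ t : ℕ × ℕ, ∃ r : Bool × ℕ × ℕ,
          (∃ r ∈ Seg w, e₁ r ∈ crr L₂ (shS t.1 t.2 '' Seg (s + 2))) →
          r ∈ Seg w ∧ e₁ r ∈ crr L₂ (shS t.1 t.2 '' Seg (s + 2)) := by
        intro t
        by_cases h3 : ∃ r ∈ Seg w, e₁ r ∈ crr L₂ (shS t.1 t.2 '' Seg (s + 2))
        · obtain ⟨r, hr⟩ := h3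
          exact ⟨r, fun _ => hr⟩
        · exact ⟨(true, 0, 0), fun h4 => absurd h4 h3⟩
      choose g hg using h2
      rw [Set.ncard_eq_toFinset_card _ (Seg_finite wmax)]
      refine Finset.card_le_card_of_injOn g ?_ ?_
      · intro t ht
        have ht' := (Finset.mem_filter.1 (Finset.mem_coe.1 ht)).2
        rw [Finset.mem_coe, Set.Finite.mem_toFinset]
        exact W0.seg_mono hw (hg t ht').1
      · intro t ht t' ht' heq
        have h3 := Finset.mem_filter.1 (Finset.mem_coe.1 ht)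
        have h3' := Finset.mem_filter.1 (Finset.mem_coe.1 ht')
        refine hdisj t h3.1 t' h3'.1 _ (hg t h3.2).2 ?_
        rw [heq]
        exact (hg t' h3'.2).2
    have h2 := Finset.card_filter_add_card_filter_not (s := 𝒯)
      (fun t => ∃ r ∈ Seg w, e₁ r ∈ crr L₂ (shS t.1 t.2 '' Seg (s + 2)))
    have h3 : (𝒯.filter (fun t => ¬ ∃ r ∈ Seg w,
        e₁ r ∈ crr L₂ (shS t.1 t.2 '' Seg (s + 2)))).card = 𝒯₁.card := rfl
    omega
  -- enumeration of the good tiles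
  obtain ⟨t, ht1, ht2, -⟩ := exists_enum (K := (𝒯₁ : Set (ℕ × ℕ))) 𝒯₁.finite_toSet
  rw [Set.ncard_coe_finset] at ht1 ht2
  have htT : ∀ b < N, t b ∈ 𝒯 := fun b hb =>
    (Finset.mem_filter.1 (Finset.mem_coe.1 (ht1 b (by omega)))).1
  have htA : ∀ b < N, ∀ r ∈ Seg w,
      e₁ r ∉ crr L₂ (shS (t b).1 (t b).2 '' Seg (s + 2)) := fun b hb r hr h1 =>
    (Finset.mem_filter.1 (Finset.mem_coe.1 (ht1 b (by omega)))).2 ⟨r, hr, h1⟩
  have htI : ∀ b < N, ∀ b' < N, t b = t b' → b = b' := fun b hb b' hb' =>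
    ht2 b (by omega) b' (by omega)
  -- enumeration of the conflicts
  have hKf : ∀ b, (crr L₁ (Seg w) ∩ crr L₂ (shS (t b).1 (t b).2 '' core (s + 2))).Finite :=
    fun b => (M.ground_finite.subset hE₁).subset inter_subset_left
  choose X hX1 hX2 hX3 using fun b => exists_enum (hKf b)
  -- rows of elements
  have hrw : ∀ y : α, ∃ r : Bool × ℕ × ℕ, y ∈ crr L₁ (Seg w) → r ∈ Seg w ∧ y ∈ L₁ r := by
    intro y
    by_cases h1 : y ∈ crr L₁ (Seg w)
    · obtain ⟨r, hr⟩ := h1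
      exact ⟨r, fun _ => hr⟩
    · exact ⟨(true, 0, 0), fun h2 => absurd h2 h1⟩
  choose rw hrw using hrw
  have hrwu : ∀ r ∈ Seg w, ∀ y ∈ L₁ r, rw y = r := fun r hr y hy =>
    hW.pair.s₁.uniq (hrw y ⟨r, hr, hy⟩).1 hr (hrw y ⟨r, hr, hy⟩).2 hy
  have hde : ∀ r ∈ Seg w, dec wmax (enc wmax r) = r := fun r hr =>
    dec_enc ((seg_le hr).1.trans hw) ((seg_le hr).2.trans hw)
  have hsz : ∀ b < N,
      (crr L₁ (Seg w) ∩ crr L₂ (shS (t b).1 (t b).2 '' core (s + 2))).ncard ≤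
        Cb * wmax ^ 2 := by
    intro b hb
    refine (Set.ncard_le_ncard (inter_subset_inter_right _ (hcs _))
      ((M.ground_finite.subset hE₁).subset inter_subset_left)).trans ?_
    exact (hD _ (htT b hb)).2.1.trans (Nat.mul_le_mul_left _ (Nat.pow_le_pow_left hw 2))
  obtain ⟨f, m, Rβ, γ, h1, h2, h3, h4, h5, h6, h7, h8⟩ := hN
    (fun b => (crr L₁ (Seg w) ∩ crr L₂ (shS (t b).1 (t b).2 '' core (s + 2))).ncard)
    (fun b i => enc wmax (rw (X b i))) (fun b i => (L₁ (rw (X b i))).idxOf (X b i))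
    (fun a _ σ => if h : ∃ r ∈ Seg w, e₂ (shS (t a).1 (t a).2 σ) ∈ L₁ r then
      some (enc wmax h.choose) else none) hsz (by
    intro b hb b' hb' hbb i hi i' hi' hr hp
    have a1 := hX1 b i hi
    have a2 := hX1 b' i' hi'
    have a3 : rw (X b i) = rw (X b' i') := by
      rw [← hde _ (hrw _ a1.1).1, ← hde _ (hrw _ a2.1).1, hr]
    rw [a3] at hp
    have a4 : X b i = X b' i' := by
      have a5 : X b i ∈ L₁ (rw (X b' i')) := by rw [← a3]; exact (hrw _ a1.1).2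
      exact (List.idxOf_inj a5).1 hp
    refine hbb (htI b hb b' hb' (hdisj _ (htT b hb) _ (htT b' hb') (X b i) (hcs _ a1.2) ?_))
    rw [a4]
    exact hcs _ a2.2)
  -- facts on the conflicts
  have hK : ∀ b < n + 1, ∀ i < m, X (f b) i ∈
      crr L₁ (Seg w) ∩ crr L₂ (shS (t (f b)).1 (t (f b)).2 '' core (s + 2)) := fun b hb i hi =>
    hX1 (f b) i (by rw [h4 b hb]; exact hi)
  have hR : ∀ b < n + 1, ∀ i < m, dec wmax (Rβ i) = rw (X (f b) i) := by
    intro b hb i hi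
    rw [← h5 b hb i hi]
    exact hde _ (hrw _ (hK b hb i hi).1).1
  have hRm : ∀ b < n + 1, ∀ i < m, X (f b) i ∈ L₁ (dec wmax (Rβ i)) := by
    intro b hb i hi
    rw [hR b hb i hi]
    exact (hrw _ (hK b hb i hi).1).2
  have hRS : ∀ i < m, dec wmax (Rβ i) ∈ Seg w := by
    intro i hi
    rw [hR 0 (Nat.succ_pos n) i hi]
    exact (hrw _ (hK 0 (Nat.succ_pos n) i hi).1).1
  have hfI : ∀ a < n + 1, ∀ b < n + 1, f a = f b → a = b := by
    intro a ha b hb hab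
    rcases lt_trichotomy a b with h9 | h9 | h9
    · have := h3 a b h9 hb
      omega
    · exact h9
    · have := h3 b a h9 ha
      omega
  have hinj : ∀ i < m, ∀ b < n + 1, ∀ j < m, ∀ a < n + 1, X (f b) i = X (f a) j →
      i = j ∧ b = a := by
    intro i hi b hb j hj a ha heq
    have a1 := hK b hb i hi
    have a2 := hK a ha j hj
    have a3 : t (f b) = t (f a) := by
      refine hdisj _ (htT _ (h2 b hb)) _ (htT _ (h2 a ha)) (X (f b) i) (hcs _ a1.2) ?_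
      rw [heq]
      exact hcs _ a2.2
    have a4 : f b = f a := htI _ (h2 b hb) _ (h2 a ha) a3
    have a5 : b = a := hfI b hb a ha a4
    subst a5
    exact ⟨hX2 (f b) i (by rw [h4 b hb]; exact hi) j (by rw [h4 b hb]; exact hj) heq, rfl⟩
  have hanc : ∀ i < m, ∀ b < n + 1, ∀ r ∈ Seg w, X (f b) i ≠ e₁ r := by
    intro i hi b hb r hr heq
    refine htA (f b) (h2 b hb) r hr ?_
    rw [← heq]
    exact hcs _ (hK b hb i hi).2
  -- the contraction
  set 𝒯' : Finset (ℕ × ℕ) := (Finset.range n).image (fun b => t (f b)) with h𝒯'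
  have h𝒯s : 𝒯' ⊆ 𝒯 := by
    intro x hx
    obtain ⟨b, hb, rfl⟩ := Finset.mem_image.1 hx
    exact htT _ (h2 b (by have := Finset.mem_range.1 hb; omega))
  have htile : ∀ b, shS (t (f b)).1 (t (f b)).2 '' Seg s ⊆
      shS (t (f b)).1 (t (f b)).2 '' core (s + 2) := fun b => image_mono seg_core
  have htc : tiles s 𝒯' ⊆ cores s 𝒯' := by
    rintro σ ⟨x, hx, hσ⟩
    exact ⟨x, hx, image_mono seg_core hσ⟩
  have hsub : cores s 𝒯' ⊆ tiles (s + 2) 𝒯 := by
    rintro σ ⟨x, hx, hσ⟩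
    exact ⟨x, h𝒯s hx, image_mono sdiff_subset hσ⟩
  obtain ⟨Z', hZ', hrZ', hmax⟩ := exists_maxskew (M := M) (S := crr L₁ (Seg w))
    (crr L₂ (cores s 𝒯'))
  have hP1 := (hW.pair.subset₂ hsub).skew hZ' hrZ'
  have hfin' : (M ／ Z').Finite := BQ.fin_contract Z'
  set Z : Set α := {x | x ∈ crr L₁ (Seg w) ∧ x ∉ e₁ '' Seg w ∧
    ∀ b < n, x ∉ crr L₂ (shS (t (f b)).1 (t (f b)).2 '' core (s + 2))} with hZ
  have hZ₁ : Z ⊆ crr L₁ (Seg w) := fun x hx => hx.1
  have hZ₂ : Disjoint (crr L₂ (cores s 𝒯')) Z := by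
    rw [Set.disjoint_left]
    rintro x ⟨σ, ⟨y, hy, hσ⟩, hx⟩ hz
    obtain ⟨b, hb, rfl⟩ := Finset.mem_image.1 hy
    exact hz.2.2 b (Finset.mem_range.1 hb) ⟨σ, hσ, hx⟩
  have hZe : ∀ r ∈ Seg w, e₁ r ∉ Z := fun r hr hz => hz.2.1 ⟨r, hr, rfl⟩
  obtain ⟨f₁', hP⟩ := hP1.contract hZ₁ hZ₂ hZe
  have hXZ : ∀ b < n, ∀ i < m, X (f b) i ∉ Z := fun b hb i hi hz =>
    hz.2.2 b hb (hK b (by omega) i hi).2
  have hZE : Z ⊆ M.E := hZ₁.trans hE₁
  have hZ'E : Z' ⊆ M.E := hZ'.trans sdiff_subset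
  have hZ'1 : Disjoint (crr L₁ (Seg w)) Z' := by
    rw [Set.disjoint_left]
    exact fun x hx hz => (hZ' hz).2 (Or.inl hx)
  have hZ'2 : Disjoint (crr L₂ (cores s 𝒯')) Z' := by
    rw [Set.disjoint_left]
    exact fun x hx hz => (hZ' hz).2 (Or.inr hx)
  set D : Set α := M.E \ (crr L₁ (Seg w) ∪ crr L₂ (cores s 𝒯') ∪ Z') with hDd
  have hcrr : crr (lrem L₁ Z) (Seg w) = crr L₁ (Seg w) \ Z := crr_lrem
  have hXC : ∀ b < n, ∀ i < m, X (f b) i ∈ crr L₂ (cores s 𝒯') := by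
    intro b hb i hi
    obtain ⟨σ, hσ, hx⟩ := (hK b (by omega) i hi).2
    exact ⟨σ, ⟨_, Finset.mem_image_of_mem _ (Finset.mem_range.2 hb), hσ⟩, hx⟩
  -- positions
  have hpos' : ∀ i < m, ∀ b < n, ∀ j < m, ∀ a < n, dec wmax (Rβ i) = dec wmax (Rβ j) →
      (L₁ (rw (X (f b) i))).idxOf (X (f b) i) < (L₁ (rw (X (f a) j))).idxOf (X (f a) j) →
      (lrem L₁ Z (dec wmax (Rβ i))).idxOf (X (f b) i) <
        (lrem L₁ Z (dec wmax (Rβ j))).idxOf (X (f a) j) := by
    intro i hi b hb j hj a ha hij hlt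
    rw [← hR b (by omega) i hi, ← hR a (by omega) j hj, hij] at hlt
    rw [hij]
    unfold lrem
    refine idx_filter _ ?_ ?_ _ hlt ?_
    · simpa using hXZ b hb i hi
    · simpa using hXZ a ha j hj
    · rw [← hij]
      exact hRm b (by omega) i hi
  have hKB : ∀ B : Finset ℕ, (∀ b ∈ B, b < n) → Disjoint (KB m (fun i b => X (f b) i) B) Z := by
    intro B hB
    rw [Set.disjoint_left]
    rintro x ⟨i, hi, b, hb, rfl⟩
    exact hXZ b (hB b hb) i hi
  have hKBR : ∀ B : Finset ℕ, (∀ b ∈ B, b < n) →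
      KB m (fun i b => X (f b) i) B ⊆ crr L₁ (Seg w) := by
    rintro B hB x ⟨i, hi, b, hb, rfl⟩
    exact (hK b (by have := hB b hb; omega) i hi).1
  -- the rank in the contraction
  have hfin : (M ／ Z' ／ Z).Finite := BQ.fin_contract Z
  have hZE' : Z ⊆ (M ／ Z').E := by
    rw [Matroid.contract_ground]
    exact fun x hx => ⟨hZE hx, fun hz => Set.disjoint_left.1 hZ'1 (hZ₁ hx) hz⟩
  have hun : ∀ B : Finset ℕ, (∀ b ∈ B, b < n) →
      (D ∪ (crr (lrem L₁ Z) (Seg w) \ KB m (fun i b => X (f b) i) B)) ∪ Z =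
        D ∪ (crr L₁ (Seg w) \ KB m (fun i b => X (f b) i) B) := by
    intro B hB
    rw [hcrr]
    ext x
    constructor
    · rintro ((h9 | h9) | h9)
      · exact Or.inl h9
      · exact Or.inr ⟨h9.1.1, h9.2⟩
      · exact Or.inr ⟨hZ₁ h9, fun h10 => Set.disjoint_left.1 (hKB B hB) h10 h9⟩
    · rintro (h9 | h9)
      · exact Or.inl (Or.inl h9)
      · by_cases h10 : x ∈ Z
        · exact Or.inr h10
        · exact Or.inl (Or.inr ⟨⟨h9.1, h10⟩, h9.2⟩)
  have hDZ : Disjoint D Z := by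
    rw [Set.disjoint_left]
    exact fun x hx hz => hx.2 (Or.inl (Or.inl (hZ₁ hz)))
  have hAE' : ∀ B : Finset ℕ,
      D ∪ (crr L₁ (Seg w) \ KB m (fun i b => X (f b) i) B) ⊆ M.E \ Z' := by
    intro B x hx
    rcases hx with h9 | h9
    · exact ⟨h9.1, fun hz => h9.2 (Or.inr hz)⟩
    · exact ⟨hE₁ h9.1, fun hz => Set.disjoint_left.1 hZ'1 h9.1 hz⟩
  have hAE : ∀ B : Finset ℕ,
      D ∪ (crr (lrem L₁ Z) (Seg w) \ KB m (fun i b => X (f b) i) B) ⊆ (M ／ Z').E \ Z := by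
    intro B x hx
    rw [Matroid.contract_ground]
    rcases hx with h9 | h9
    · exact ⟨⟨h9.1, fun hz => h9.2 (Or.inr hz)⟩, fun hz => Set.disjoint_left.1 hDZ h9 hz⟩
    · rw [hcrr] at h9
      exact ⟨⟨hE₁ h9.1.1, fun hz => Set.disjoint_left.1 hZ'1 h9.1.1 hz⟩, h9.1.2⟩
  have hV1 : ∀ (B : Finset ℕ) (I : ℕ → ℕ), (∀ b ∈ B, b < n ∧ I b < m) →
      rk (M ／ Z' ／ Z) (D ∪ (crr (lrem L₁ Z) (Seg w) \ KB m (fun i b => X (f b) i) B)) +
        B.card ≤ rk (M ／ Z' ／ Z) ((fun b => X (f b) (I b)) '' (B : Set ℕ) ∪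
          (D ∪ (crr (lrem L₁ Z) (Seg w) \ KB m (fun i b => X (f b) i) B))) + u₂ := by
    intro B I hB
    have hB' : ∀ b ∈ B, b < n := fun b hb => (hB b hb).1
    have hIE : (fun b => X (f b) (I b)) '' (B : Set ℕ) ⊆ M.E \ Z' := by
      rintro _ ⟨b, hb, rfl⟩
      have hb' := hB b hb
      have h9 := (hK b (by omega) _ hb'.2).1
      exact ⟨hE₁ h9, fun hz => Set.disjoint_left.1 hZ'1 h9 hz⟩
    have hIE' : (fun b => X (f b) (I b)) '' (B : Set ℕ) ⊆ (M ／ Z').E \ Z := by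
      rintro _ ⟨b, hb, rfl⟩
      have hb' := hB b hb
      exact ⟨hIE ⟨b, hb, rfl⟩, hXZ b hb'.1 _ hb'.2⟩
    have r1 := rk_contract_set (M := M ／ Z') hZE' (hAE B)
    have r2 := rk_contract_set (M := M ／ Z') hZE' (union_subset hIE' (hAE B))
    rw [hun B hB'] at r1
    rw [union_assoc, hun B hB'] at r2
    have r4 := rk_contract_set (M := M) hZ'E (hAE' B)
    have r5 := rk_contract_set (M := M) hZ'E (union_subset hIE (hAE' B))
    rw [union_assoc] at r5
    have hcI : ((fun b => X (f b) (I b)) '' (B : Set ℕ)).ncard = B.card := by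
      refine (Set.InjOn.ncard_image ?_).trans (Set.ncard_coe_finset B)
      intro b hb a ha heq
      have hb' := hB b hb
      have ha' := hB a ha
      exact (hinj _ hb'.2 b (by omega) _ ha'.2 a (by omega) heq).2
    have r3 := hW.pair.s₂.V1 (by omega) (by omega) (𝒜 := B.image (fun b => t (f b)))
      (X := D ∪ (crr L₁ (Seg w) \ KB m (fun i b => X (f b) i) B) ∪ Z')
      (I := (fun b => X (f b) (I b)) '' (B : Set ℕ))
      ?_ ?_ ?_ ?_ ?_
    · rw [hcI] at r3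
      omega
    · intro x hx
      obtain ⟨b, hb, rfl⟩ := Finset.mem_image.1 hx
      exact htT _ (h2 b (by have := hB' b hb; omega))
    · exact union_subset ((hAE' B).trans sdiff_subset) hZ'E
    · intro y hy
      obtain ⟨b, hb, rfl⟩ := Finset.mem_image.1 hy
      have hbn := hB' b hb
      rw [Set.disjoint_left]
      intro x hx
      have hxC : x ∈ crr L₂ (cores s 𝒯') := by
        obtain ⟨σ, hσ, hxσ⟩ := hx
        exact ⟨σ, ⟨_, Finset.mem_image_of_mem _ (Finset.mem_range.2 hbn), hσ⟩, hxσ⟩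
      rintro ((h9 | h9) | h9)
      · exact h9.2 (Or.inl (Or.inr hxC))
      · obtain ⟨i, hi, hxi⟩ := hX3 (f b) x ⟨h9.1, hx⟩
        have h4b := h4 b (by omega)
        exact h9.2 ⟨i, by omega, b, hb, hxi.symm⟩
      · exact Set.disjoint_left.1 hZ'2 hxC h9
    · rintro x ⟨b, hb, rfl⟩
      have hb' := hB b hb
      exact ⟨_, Finset.mem_image_of_mem _ hb, (hK b (by omega) _ hb'.2).2⟩
    · rintro y hy _ ⟨b, hb, rfl⟩ _ ⟨a, ha, rfl⟩ hx hx'
      have hb' := hB b hb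
      have ha' := hB a ha
      obtain ⟨d, hd, rfl⟩ := Finset.mem_image.1 hy
      have hd' := hB' d hd
      have e1 : t (f b) = t (f d) := hdisj _ (htT _ (h2 b (by omega))) _
        (htT _ (h2 d (by omega))) _ (hcs _ (hK b (by omega) _ hb'.2).2) (hcs _ hx)
      have e2 : t (f a) = t (f d) := hdisj _ (htT _ (h2 a (by omega))) _
        (htT _ (h2 d (by omega))) _ (hcs _ (hK a (by omega) _ ha'.2).2) (hcs _ hx')
      have e3 : b = a := hfI b (by omega) a (by omega)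
        (htI _ (h2 b (by omega)) _ (h2 a (by omega)) (e1.trans e2.symm))
      rw [e3]
  have hesub : (M ／ Z' ／ Z).E ⊆ crr (lrem L₁ Z) (Seg w) ∪ crr L₂ (cores s 𝒯') ∪ D := by
    intro x hx
    rw [Matroid.contract_ground, Matroid.contract_ground] at hx
    rw [hcrr]
    by_cases h9 : x ∈ crr L₁ (Seg w)
    · exact Or.inl (Or.inl ⟨h9, hx.2⟩)
    · by_cases h10 : x ∈ crr L₂ (cores s 𝒯')
      · exact Or.inl (Or.inr h10)
      · refine Or.inr ⟨hx.1.1, ?_⟩
        rintro ((h11 | h11) | h11)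
        · exact h9 h11
        · exact h10 h11
        · exact hx.1.2 h11
  have hV2 : ∀ B : Finset ℕ, (∀ b ∈ B, b < n) →
      rk (M ／ Z' ／ Z) (crr (lrem L₁ Z) (Seg w)) ≤
        rk (M ／ Z' ／ Z) (D ∪ (crr (lrem L₁ Z) (Seg w) \ KB m (fun i b => X (f b) i) B)) +
          (Seg (s + 2)).ncard * B.card := by
    intro B hB
    have r3 := hP.gain (Q := KB m (fun i b => X (f b) i) (B : Set ℕ)) (by
        rintro x ⟨i, hi, b, hb, rfl⟩
        exact hXC b (hB b hb) i hi) (by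
        rintro x ⟨i, hi, b, hb, rfl⟩
        have hb' := hB b hb
        rw [hcrr]
        exact ⟨(hK b (by omega) i hi).1, hXZ b hb' i hi⟩)
    have r4 : rk (M ／ Z' ／ Z) ((crr (lrem L₁ Z) (Seg w) ∪
        ((M ／ Z' ／ Z).E \ crr L₂ (cores s 𝒯'))) \ KB m (fun i b => X (f b) i) B) ≤
        rk (M ／ Z' ／ Z)
          (D ∪ (crr (lrem L₁ Z) (Seg w) \ KB m (fun i b => X (f b) i) B)) := by
      refine rk_mono _ ?_
      rintro x ⟨h9, h10⟩
      by_cases h11 : x ∈ crr (lrem L₁ Z) (Seg w)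
      · exact Or.inr ⟨h11, h10⟩
      · rcases h9 with h9 | h9
        · exact absurd h9 h11
        · rcases hesub h9.1 with (h12 | h12) | h12
          · exact absurd h12 h11
          · exact absurd h12 h9.2
          · exact Or.inl h12
    have r6 : rk (M ／ Z' ／ Z) (crr (lrem L₁ Z) (Seg w)) ≤ rk (M ／ Z' ／ Z)
        (crr (lrem L₁ Z) (Seg w) ∪ ((M ／ Z' ／ Z).E \ crr L₂ (cores s 𝒯'))) :=
      rk_mono _ subset_union_left
    have r5 : {σ | σ ∈ cores s 𝒯' ∧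
        ∃ x ∈ KB m (fun i b => X (f b) i) (B : Set ℕ), x ∈ L₂ σ}.ncard ≤
        (Seg (s + 2)).ncard * B.card := by
      have h9 : {σ | σ ∈ cores s 𝒯' ∧
          ∃ x ∈ KB m (fun i b => X (f b) i) (B : Set ℕ), x ∈ L₂ σ} ⊆
          ⋃ b ∈ B, shS (t (f b)).1 (t (f b)).2 '' Seg (s + 2) := by
        rintro σ ⟨hσ, x, ⟨i, hi, b, hb, rfl⟩, hx⟩
        have hb' := hB b hb
        obtain ⟨σ', hσ', hx'⟩ := hcs _ (hK b (by omega) i hi).2
        have h10 : σ = σ' :=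
          hW.pair.s₂.uniq (hsub hσ) ⟨_, htT _ (h2 b (by omega)), hσ'⟩ hx hx'
        subst h10
        exact mem_iUnion₂.2 ⟨b, hb, hσ'⟩
      have hfinS : (⋃ b ∈ B, shS (t (f b)).1 (t (f b)).2 '' Seg (s + 2)).Finite :=
        B.finite_toSet.biUnion fun b _ => (Seg_finite _).image _
      refine (Set.ncard_le_ncard h9 hfinS).trans ?_
      refine (Finset.set_ncard_biUnion_le B _).trans ?_
      rw [mul_comm]
      exact Finset.sum_le_card_nsmul _ _ _ fun b _ => Set.ncard_image_le (Seg_finite _)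
    omega
  -- the densities (tile number 0)
  have h0 : 0 < n + 1 := Nat.succ_pos n
  obtain ⟨d1, d2, d3, d4, d5⟩ := hD _ (htT _ (h2 0 h0))
  have hTf : (crr L₂ (shS (t (f 0)).1 (t (f 0)).2 '' Seg (s + 2))).Finite := by
    have h9 : (M✶).Finite := inferInstance
    refine (M✶).ground_finite.subset ((crr_mono ?_).trans hW.pair.s₂.sub_ground)
    exact fun σ hσ => ⟨_, htT _ (h2 0 h0), hσ⟩
  have hcnt : ∀ (P : Set ℕ) (Y : Set α), (∀ i ∈ P, i < m ∧ X (f 0) i ∈ Y) → Y.Finite →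
      P.ncard ≤ Y.ncard := by
    intro P Y hP hY
    refine Set.ncard_le_ncard_of_injOn (X (f 0)) (fun i hi => (hP i hi).2) ?_ hY
    intro i hi j hj hij
    exact (hinj i (hP i hi).1 0 h0 j (hP j hj).1 0 h0 hij).1
  have hrowle : ∀ r ∈ Seg w, {i | i < m ∧ dec wmax (Rβ i) = r}.ncard ≤
      ({x | x ∈ L₁ r} ∩ crr L₂ (shS (t (f 0)).1 (t (f 0)).2 '' Seg (s + 2))).ncard := by
    intro r _
    refine hcnt _ _ ?_ (hTf.subset inter_subset_right)
    rintro i ⟨hi, rfl⟩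
    exact ⟨hi, hRm 0 h0 i hi, hcs _ (hK 0 h0 i hi).2⟩
  have hDens : Dens w L L' Cb h h' K₀ Df m (fun i => dec wmax (Rβ i)) := by
    refine ⟨?_, ?_, ?_, ?_, ?_⟩
    · intro r hr
      exact lt_of_le_of_lt (Nat.mul_le_mul_left _ (hrowle r hr)) (d1 r hr)
    · have h9 := h4 0 h0
      have h10 : (crr L₁ (Seg w) ∩
          crr L₂ (shS (t (f 0)).1 (t (f 0)).2 '' core (s + 2))).ncard ≤
          (crr L₁ (Seg w) ∩ crr L₂ (shS (t (f 0)).1 (t (f 0)).2 '' Seg (s + 2))).ncard :=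
        Set.ncard_le_ncard (inter_subset_inter_right _ (hcs _)) (hTf.subset inter_subset_right)
      omega
    · refine le_trans (Nat.mul_le_mul_left _ (hcnt _ _ ?_ (hTf.subset inter_subset_right))) d3
      rintro i ⟨hi, hl⟩
      exact ⟨hi, ⟨_, hl, hRm 0 h0 i hi⟩, hcs _ (hK 0 h0 i hi).2⟩
    · refine le_trans (Nat.mul_le_mul_left _ (hcnt _ _ ?_ (hTf.subset inter_subset_right))) d4
      rintro i ⟨hi, hl⟩
      refine ⟨hi, ⟨_, ⟨hRS i hi, ?_⟩, hRm 0 h0 i hi⟩, hcs _ (hK 0 h0 i hi).2⟩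
      exact lt_of_lt_of_le hl (hrowle _ (hRS i hi))
    · refine le_trans (Nat.mul_le_mul_left _ (hcnt _ _ ?_ (hTf.subset inter_subset_right))) d5
      rintro i ⟨hi, hl⟩
      refine ⟨hi, ⟨_, ⟨hRS i hi, ?_⟩, hRm 0 h0 i hi⟩, hcs _ (hK 0 h0 i hi).2⟩
      exact lt_of_lt_of_le hl (hrowle _ (hRS i hi))
  have hanch : ∀ b < n, ∀ σ, ∀ hσ : σ ∈ Seg (s + 2), ∀ r ∈ Seg w,
      e₂ (shS (t (f b)).1 (t (f b)).2 σ) ∈ lrem L₁ Z r →
      r ∈ (Finset.univ : Finset ↥(Seg (s + 2))).image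
        (fun σ => ((γ σ).map (dec wmax)).getD (true, 0, 0)) := by
    intro b hb σ hσ r hr hx
    have hx' := (mem_lrem.1 hx).1
    have h9 := h8 b n hb (Nat.lt_succ_self n)
    have h10 : ∃ r ∈ Seg w, e₂ (shS (t (f b)).1 (t (f b)).2 σ) ∈ L₁ r := ⟨r, hr, hx'⟩
    have h11 : h10.choose = r :=
      hW.pair.s₁.uniq h10.choose_spec.1 hr h10.choose_spec.2 hx'
    refine Finset.mem_image.2 ⟨⟨σ, hσ⟩, Finset.mem_univ _, ?_⟩
    rw [← h9]
    simp only [dif_pos h10, Option.map_some, Option.getD_some]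
    rw [h11]
    exact hde r hr
  have hlabt : ∀ b < n, ∀ x ∈ crr (lrem L₁ Z) (Seg w),
      x ∈ crr L₂ (shS (t (f b)).1 (t (f b)).2 '' core (s + 2)) → ∃ i < m, x = X (f b) i := by
    intro b hb x hx hx2
    rw [hcrr] at hx
    obtain ⟨i, hi, hxi⟩ := hX3 (f b) x ⟨hx.1, hx2⟩
    have h4b := h4 b (by omega)
    exact ⟨i, by omega, hxi.symm⟩
  refine ⟨M ／ Z' ／ Z, 𝒯', lrem L₁ Z, f₁', u₁, L₂, f₂, u₂, D, m, fun b => t (f b),
    fun i => dec wmax (Rβ i), fun i b => X (f b) i,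
    fun i b => (lrem L₁ Z (dec wmax (Rβ i))).idxOf (X (f b) i),
    (Finset.univ : Finset ↥(Seg (s + 2))).image
      (fun σ => ((γ σ).map (dec wmax)).getD (true, 0, 0)),
    (con_minor _ _).trans (con_minor _ _), h𝒯s, hu₁, hu₂, ?_, ?_, ?_, ?_, hDens⟩
  · refine Finset.card_image_le.trans ?_
    rw [Finset.card_univ, Set.ncard_eq_toFinset_card', Set.toFinset_card]
  · exact fun r _ x hx => (mem_lrem.1 hx).1
  · refine
      { pair := hP.subset₂ htc
        tau := ?_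
        tinj := ?_
        row := hRS
        cov := ?_
        pos := ?_
        mon := ?_
        ns := ?_
        inj := ?_
        anc := ?_
        all := ?_
        tile := ?_
        anchor := ?_
        D_cl := ?_
        D₁ := ?_
        D₂ := ?_
        V1 := hV1
        V2 := hV2 }
    · exact fun b hb => Finset.mem_image_of_mem _ (Finset.mem_range.2 hb)
    · intro a ha b hb hab
      exact hfI a (by omega) b (by omega) (htI _ (h2 a (by omega)) _ (h2 b (by omega)) hab)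
    · intro r hr
      obtain ⟨x, hx, hx2⟩ := hcv _ (htT _ (h2 0 h0)) r hr
      obtain ⟨i, hi, hxi⟩ := hX3 (f 0) x ⟨⟨r, hr, hx⟩, crr_mono (htile 0) hx2⟩
      have h4b := h4 0 h0
      have hi' : i < m := by omega
      refine ⟨i, hi', ?_⟩
      rw [hR 0 h0 i hi', hxi]
      exact hrwu r hr x hx
    · intro i hi b hb
      have h9 : X (f b) i ∈ lrem L₁ Z (dec wmax (Rβ i)) :=
        mem_lrem.2 ⟨hRm b (by omega) i hi, hXZ b hb i hi⟩
      exact ⟨List.idxOf_lt_length_of_mem h9, List.getElem_idxOf _⟩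
    · intro i hi
      rcases (h6 i hi).mono (Nat.le_succ n) with h9 | h9
      · exact Or.inl fun r s' hrs hs' => hpos' i hi r (by omega) i hi s' hs' rfl (h9 r s' hrs hs')
      · exact Or.inr fun r s' hrs hs' => hpos' i hi s' hs' i hi r (by omega) rfl (h9 r s' hrs hs')
    · intro i hi j hj hij
      have hij' : Rβ i = Rβ j := dec_inj hij
      have hji : dec wmax (Rβ j) = dec wmax (Rβ i) := hij.symm
      rcases h7 i hi j hj hij' with h9 | h9
      · left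
        rcases h9.mono (Nat.le_succ n) with h9 | h9
        · refine Or.inl fun r s' hrs hs' => ?_
          obtain ⟨q1, q2, q3, q4⟩ := h9 r s' hrs hs'
          exact ⟨hpos' i hi r (by omega) i hi s' hs' rfl q1,
            hpos' i hi r (by omega) j hj s' hs' hij q2,
            hpos' j hj r (by omega) i hi s' hs' hji q3,
            hpos' j hj r (by omega) j hj s' hs' rfl q4⟩
        · refine Or.inr fun r s' hrs hs' => ?_
          obtain ⟨q1, q2, q3, q4⟩ := h9 r s' hrs hs'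
          exact ⟨hpos' i hi s' hs' i hi r (by omega) rfl q1,
            hpos' j hj s' hs' i hi r (by omega) hji q2,
            hpos' i hi s' hs' j hj r (by omega) hij q3,
            hpos' j hj s' hs' j hj r (by omega) rfl q4⟩
      · right
        rcases h9.mono (Nat.le_succ n) with h9 | h9
        · exact Or.inl fun r s' hr hs' => hpos' i hi r hr j hj s' hs' hij (h9 r s' hr hs')
        · exact Or.inr fun r s' hr hs' => hpos' j hj s' hs' i hi r hr hji (h9 r s' hr hs')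
    · exact fun i hi b hb j hj a ha heq => hinj i hi b (by omega) j hj a (by omega) heq
    · exact fun i hi b hb => hanc i hi b (by omega)
    · intro r hr x hx
      obtain ⟨h9, h10⟩ := mem_lrem.1 hx
      by_cases h11 : x ∈ e₁ '' Seg w
      · obtain ⟨r', hr', rfl⟩ := h11
        left
        rw [hW.pair.s₁.uniq hr' hr (hW.pair.s₁.mem_last hr') h9]
      · right
        have h12 : ∃ b < n, x ∈ crr L₂ (shS (t (f b)).1 (t (f b)).2 '' core (s + 2)) := by
          by_contra h13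
          exact h10 ⟨⟨r, hr, h9⟩, h11, fun b hb h14 => h13 ⟨b, hb, h14⟩⟩
        obtain ⟨b, hb, h13⟩ := h12
        obtain ⟨i, hi, hxi⟩ := hX3 (f b) x ⟨⟨r, hr, h9⟩, h13⟩
        have h4b := h4 b (by omega)
        have hi' : i < m := by omega
        refine ⟨i, hi', b, hb, ?_, hxi.symm⟩
        rw [hR b (by omega) i hi', hxi]
        exact hrwu r hr x h9
    · intro b hb x hx hx2
      exact hlabt b hb x hx (crr_mono (htile b) hx2)
    · intro b hb σ hσ r hr hx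
      exact hanch b hb σ (seg_core.trans sdiff_subset hσ) r hr hx
    · intro x hx
      rw [Matroid.contract_closure_eq, hcrr, sdiff_union_of_subset hZ₁]
      exact ⟨(hmax x hx).1, fun hz => Set.disjoint_left.1 hDZ hx hz⟩
    · rw [Set.disjoint_left]
      intro x hx hx'
      rw [hcrr] at hx'
      exact hx.2 (Or.inl (Or.inl hx'.1))
    · rw [Set.disjoint_left]
      intro x hx hx'
      exact hx.2 (Or.inl (Or.inr (crr_mono htc hx')))
  · refine ⟨hP, ?_, hlabt, ?_, ?_, ?_, ?_, hesub⟩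
    · exact fun i hi b hb => (hK b (by omega) i hi).2
    · intro b hb σ hσ r hr hx
      exact hanch b hb σ hσ.1 r hr hx
    · rintro r hr ⟨σ, ⟨y, hy, hσ⟩, hx⟩
      obtain ⟨b, hb, rfl⟩ := Finset.mem_image.1 hy
      have hbn := Finset.mem_range.1 hb
      exact htA (f b) (h2 b (by omega)) r hr ⟨σ, image_mono sdiff_subset hσ, hx⟩
    · rw [Set.disjoint_left]
      intro x hx hx'
      exact hx.2 (Or.inl (Or.inr hx'))
    · intro y hy
      obtain ⟨b, hb, rfl⟩ := Finset.mem_image.1 hy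
      exact ⟨b, Finset.mem_range.1 hb, rfl⟩

end TSH
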