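import Pool.Agent.TST.ClaimH
import Pool.Agent.TST.CoverE2
import Pool.Agent.TST.W0
import Pool.Agent.TST.RowFin
import Pool.Agent.TST.HostF
import Pool.Agent.TST.FinalAll

/-!
# T-star: `HostExistsD` from `ClaimH`
-/

open Set BIC BICS CWL
open scoped Matroid

namespace TSH

universe u

/-- a smaller uniform minor -/
lemma hum_pred {α : Type u} {M : Matroid α} {k : ℕ} (h : HasUniformMinor M (k + 1)) :
    HasUniformMinor M k := by
  obtain ⟨N, hN, hc, hb⟩ := h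
  have hfin : N.E.Finite := Set.finite_of_ncard_ne_zero (by omega)
  obtain ⟨e, he⟩ : N.E.Nonempty := Set.nonempty_of_ncard_ne_zero (by omega)
  obtain ⟨f, hf, hef⟩ : ∃ f ∈ N.E, f ≠ e := Set.exists_ne_of_one_lt_ncard (by omega) e
  have hsub : ∀ X ⊆ N.E, X.ncard ≤ k + 1 → N.Indep X := by
    intro X hX hXc
    obtain ⟨B, hXB, hBE, hBc⟩ := Set.exists_superset_subset_encard_eq (k := ((k + 1 : ℕ) : ℕ∞)) hX
      (by
        rw [← (hfin.subset hX).cast_ncard_eq]
        exact_mod_cast hXc)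
      (by
        rw [← hfin.cast_ncard_eq]
        exact_mod_cast (by omega))
    have hB : N.IsBase B := (hb B).2 ⟨hBE, by rw [Set.ncard, hBc]; rfl⟩
    exact hB.indep.subset hXB
  have hI : N.Indep {e} := hsub {e} (singleton_subset_iff.2 he) (by rw [ncard_singleton]; omega)
  have hcb : ∀ B, (N ／ {e}).IsBase B ↔ B ⊆ N.E \ {e} ∧ B.ncard = k := by
    intro B
    rw [hI.contract_isBase_iff, hb]
    constructor
    · rintro ⟨⟨h1, h2⟩, h3⟩
      have h4 : B ⊆ N.E := subset_union_left.trans h1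
      have h5 : e ∉ B := fun h => Set.disjoint_left.1 h3 h rfl
      rw [union_singleton, Set.ncard_insert_of_notMem h5 (hfin.subset h4)] at h2
      exact ⟨subset_sdiff.2 ⟨h4, h3⟩, by omega⟩
    · rintro ⟨h1, h2⟩
      have h4 : B ⊆ N.E := h1.trans sdiff_subset
      have h5 : e ∉ B := fun h => (h1 h).2 rfl
      refine ⟨⟨union_subset h4 (singleton_subset_iff.2 he), ?_⟩, (subset_sdiff.1 h1).2⟩
      rw [union_singleton, Set.ncard_insert_of_notMem h5 (hfin.subset h4)]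
      omega
  have hfe : f ∈ N.E \ {e} := ⟨hf, fun h => hef h⟩
  have hD : (N ／ {e}).Coindep {f} := by
    rw [Matroid.coindep_iff_exists]
    · obtain ⟨B, hBE, hBc⟩ := Set.exists_subset_card_eq (s := (N.E \ {e}) \ {f}) (n := k) (by
        rw [Set.ncard_sdiff_singleton_of_mem hfe, Set.ncard_sdiff_singleton_of_mem he]
        omega)
      refine ⟨B, (hcb B).2 ⟨hBE.trans sdiff_subset, hBc⟩, ?_⟩
      exact hBE
  refine ⟨N ／ {e} ＼ {f}, (Matroid.contract_delete_isMinor N {e} {f}).trans hN, ?_, fun B => ?_⟩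
  · rw [Matroid.delete_ground, Matroid.contract_ground, Set.ncard_sdiff_singleton_of_mem hfe,
      Set.ncard_sdiff_singleton_of_mem he]
    omega
  · rw [hD.delete_isBase_iff, hcb, Matroid.delete_ground, Matroid.contract_ground,
      subset_sdiff (s := B) (t := N.E \ {e})]
    tauto

lemma hum_le {α : Type u} {M : Matroid α} {k l : ℕ} (hkl : k ≤ l) (h : HasUniformMinor M l) :
    HasUniformMinor M k := by
  induction l, hkl using Nat.le_induction with
  | base => exact h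
  | succ l _ ih => exact ih (hum_pred h)

/-- **`HostExistsD` from `ClaimH`.** -/
theorem hostExists_of (k K : ℕ)
    (hF : ∀ l, 2 ≤ l → ∀ κ, ∃ κ', κ ≤ κ' ∧ ∀ ρh, ∃ ρ, ClaimH.{u} l κ κ' ρh ρ) :
    TSK.HostExistsD.{u} k K := by
  have key : TSK.HostExistsD.{u} (max k 2) K := by
    refine hostExistsD (max k 2) K (by omega) (coverE2.{u} _ K (by omega)) (fun κ => ?_)
      (fun κ u => hostOfBase _ κ u)
    obtain ⟨κ', hκ, h1⟩ := hF (max k 2) (by omega) κ
    refine ⟨κ', hκ, fun ρh => ?_⟩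
    obtain ⟨ρ, h2⟩ := h1 ρh
    exact ⟨κ' + ρ, claimA_of _ κ κ' ρh ρ hκ (rowW0 κ) (claimF_of_H _ κ κ' ρh ρ h2) (rowFin κ' ρ)⟩
  obtain ⟨u, E₁, h⟩ := key
  refine ⟨u, E₁, fun k₁ N₀ y₀ c h₀ g Nn mp t n₁ => ?_⟩
  obtain ⟨N₁, h⟩ := h k₁ N₀ y₀ c h₀ g Nn mp t n₁
  refine ⟨N₁, fun n hn {α} M _ S₁ S₂ C₁ D₂ g₁ g₂ a1 a2 a3 => ?_⟩
  rcases h n hn M S₁ S₂ C₁ D₂ g₁ g₂ a1 a2 a3 with h | h
  · exact Or.inl (hum_le (le_max_left _ _) h)
  · exact Or.inr h

end TSH
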