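import Pool.Agent.TST.LinesPA

/-!
# Row HK of T-star, abstract part: a sheet whose lowest windows are pairwise adjacent

`kt_of_hub`: the system has `T = t + 3` connectors in pairwise contact (one vertex each) and `T`
dummy connectors between them (so that the axiom `a3` holds): complete minor of order `t`.
-/

set_option autoImplicit false

open Set

namespace TST

universe u

open BIC Gad EN Mdl

/-- owner of a port: real connectors `k < T` at the ports `2 k`, dummies `T + j` at `2 j + 1` and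
`2 T + j` -/
def ownK (T p : ℕ) : ℕ := if p < 2 * T then (if p % 2 = 0 then p / 2 else T + p / 2) else p - T

/-- the system of the hub -/
def YK (T : ℕ) : EN.Sys ℕ where
  L := 3 * T
  R := 1
  sh := fun _ => 0
  own := ownK T
  ct := fun k k' => k ≠ k' ∧ k < T ∧ k' < T
  gr := fun _ => False

lemma ownK_cases {T : ℕ} (p : ℕ) (hp : p < 3 * T) : (∃ i < T, p = 2 * i ∧ ownK T p = i) ∨
    (∃ j < T, p = 2 * j + 1 ∧ ownK T p = T + j) ∨ (∃ j < T, p = 2 * T + j ∧ ownK T p = T + j) := by
  unfold ownK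
  rcases Nat.lt_or_ge p (2 * T) with h | h
  · rcases Nat.even_or_odd' p with ⟨i, hi | hi⟩
    · left
      refine ⟨i, by omega, hi, ?_⟩
      rw [if_pos h, if_pos (by omega)]
      omega
    · right; left
      refine ⟨i, by omega, hi, ?_⟩
      rw [if_pos h, if_neg (by omega)]
      omega
  · right; right
    refine ⟨p - 2 * T, by omega, by omega, ?_⟩
    rw [if_neg (by omega)]
    omega

lemma ownK_real {T i : ℕ} (h : i < T) : ownK T (2 * i) = i := by
  unfold ownK
  rw [if_pos (by omega), if_pos (by omega)]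
  omega

lemma ownK_odd {T j : ℕ} (h : j < T) : ownK T (2 * j + 1) = T + j := by
  unfold ownK
  rw [if_pos (by omega), if_neg (by omega)]
  omega

lemma ownK_big {T j : ℕ} : ownK T (2 * T + j) = T + j := by
  unfold ownK
  rw [if_neg (by omega)]
  omega

lemma YK_ax {T : ℕ} (hT : 3 ≤ T) : (YK T).Ax T where
  mono := fun _ _ _ _ => le_rfl
  lt := fun _ _ => Nat.zero_lt_one
  symm := fun _ _ h => ⟨fun h' => h.1 h'.symm, h.2.2, h.2.1⟩
  irr := fun _ h => h.1 rfl
  a1 := by
    intro x hx _ h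
    have h1 : x + 1 < 3 * T := hx
    have h2 : ownK T x = ownK T (x + 1) := h
    rcases ownK_cases (T := T) x (by omega) with ⟨i, _, _, e⟩ | ⟨i, _, _, e⟩ | ⟨i, _, _, e⟩ <;>
    rcases ownK_cases (x + 1) h1 with ⟨j, _, _, e'⟩ | ⟨j, _, _, e'⟩ | ⟨j, _, _, e'⟩ <;> omega
  a2 := by
    intro x hx _ hy
    have h1 : x < 3 * T := hx
    have hy' : ∀ y < 3 * T, ownK T y = ownK T x → y = x := hy
    rcases ownK_cases x h1 with ⟨i, hi, _, e⟩ | ⟨j, hj, hx1, e⟩ | ⟨j, hj, hx1, e⟩
    · left
      have key : ∀ a b : ℕ, a ≠ b → a < T → b < T → i ≠ a → i ≠ b → ∃ k₁ k₂, k₁ ≠ k₂ ∧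
          (YK T).ct ((YK T).own x) k₁ ∧ (YK T).ct ((YK T).own x) k₂ := by
        intro a b hab ha hb hia hib
        refine ⟨a, b, hab, ⟨?_, ?_, ha⟩, ⟨?_, ?_, hb⟩⟩
        · show ownK T x ≠ a
          omega
        · show ownK T x < T
          omega
        · show ownK T x ≠ b
          omega
        · show ownK T x < T
          omega
      rcases Nat.lt_or_ge i 1 with h2 | h2
      · exact key 1 2 (by omega) (by omega) (by omega) (by omega) (by omega)
      · rcases Nat.lt_or_ge i 2 with h3 | h3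
        · exact key 0 2 (by omega) (by omega) (by omega) (by omega) (by omega)
        · exact key 0 1 (by omega) (by omega) (by omega) (by omega) (by omega)
    · exfalso
      have := hy' (2 * T + j) (by omega) (by rw [e, ownK_big])
      omega
    · exfalso
      have := hy' (2 * j + 1) (by omega) (by rw [e, ownK_odd hj])
      omega
  a3 := by
    intro x hx _ h
    exfalso
    have h1 : x + 1 < 3 * T := hx
    obtain ⟨_, h2, h3⟩ : ownK T x ≠ ownK T (x + 1) ∧ ownK T x < T ∧ ownK T (x + 1) < T := h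
    rcases ownK_cases (T := T) x (by omega) with ⟨i, _, _, e⟩ | ⟨i, _, _, e⟩ | ⟨i, _, _, e⟩ <;>
    rcases ownK_cases (x + 1) h1 with ⟨j, _, _, e'⟩ | ⟨j, _, _, e'⟩ | ⟨j, _, _, e'⟩ <;> omega
  a4 := by
    intro k k' h
    have h1 := h.2.2
    exact ⟨2 * k', show 2 * k' < 3 * T by omega, ownK_real h1⟩
  a5 := by
    intro k A hA
    have h1 : A ⊆ {2 * k, 2 * (k - T) + 1, 2 * T + (k - T)} := by
      intro x hx
      obtain ⟨h2, h3⟩ := hA x hx
      have h2' : x < 3 * T := h2
      have h3' : ownK T x = k := h3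
      rw [Finset.mem_insert, Finset.mem_insert, Finset.mem_singleton]
      rcases ownK_cases x h2' with ⟨i, _, e0, e⟩ | ⟨i, _, e0, e⟩ | ⟨i, _, e0, e⟩
      · left
        omega
      · right; left
        omega
      · right; right
        omega
    have h2 := Finset.card_le_card h1
    have h3 := Finset.card_le_three (a := 2 * k) (b := 2 * (k - T) + 1) (c := 2 * T + (k - T))
    omega
  a6 := by
    intro k A hA
    have h1 : A ⊆ Finset.range T := fun x hx => Finset.mem_range.2 (hA x hx).2.2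
    have h2 := Finset.card_le_card h1
    rwa [Finset.card_range] at h2

lemma kt_of_ct {κ : Type*} (Y : EN.Sys κ) {t : ℕ} (v : Fin t → κ)
    (h : ∀ i j, i ≠ j → v i ≠ v j ∧ Y.ct (v i) (v j)) : Y.KT t := by
  classical
  refine ⟨fun i => {Sum.inr (v i)}, ?_, ?_, ?_, ?_⟩
  · intro i
    convert Mdr.Cn.single (r := Y.adj) (Sum.inr (v i) : ℕ ⊕ κ)
  · intro i j hij
    rw [Finset.disjoint_singleton]
    intro h1
    exact (h i j hij).1 (Sum.inr.inj h1)
  · intro i j hij
    exact ⟨_, Finset.mem_singleton_self _, _, Finset.mem_singleton_self _, (h i j hij).2⟩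
  · intro i x hx
    rw [Finset.mem_singleton] at hx
    exact absurd hx (by simp)

lemma YK_kt {T t : ℕ} (h : t ≤ T) : (YK T).KT t := by
  refine kt_of_ct _ (fun i => i.1) ?_
  intro i j hij
  have h1 := i.2
  have h2 := j.2
  have h3 : i.1 ≠ j.1 := fun h3 => hij (Fin.ext h3)
  exact ⟨h3, h3, by omega, by omega⟩

/-- **Row HK, abstract part.** -/
theorem kt_of_hub (t n₁ : ℕ) : ∃ T₀ N₀ : ℕ, ∀ {α : Type u} {V σ : Type} (M' : Matroid α)
    [M'.Finite] (S : Set α) (ends : α → Sym2 (HV V σ)) (H : Host V σ) (N : ℤ), N₀ ≤ N →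
    Emb S ends H N id → ∀ s : σ, T₀ ≤ H.len s →
    (∀ c c' : ℕ, c < H.len s → c' < H.len s → c ≠ c' →
      GAdj S ends (Sum.inr (s, c, -N)) (Sum.inr (s, c', -N))) →
    ∃ (κ : Type) (Y : EN.Sys κ) (P : ℕ → ℕ × ℕ → HV V σ) (lo hi : ℕ → ℕ) (n : ℕ)
      (B : κ → Set (HV V σ)) (col : ℕ → ℕ), Y.Ax (t + 3) ∧
      RealU Y M' S ends P lo hi n B col ∧ n₁ ≤ n ∧
      (∀ j x, lo j ≤ x → x ≤ hi j → x < H.len s ∧ ∀ c < H.len s, lo j ≤ c ∧ c ≤ hi j ∧
        ∀ b ≤ n, ∃ b' : ℤ, -N ≤ b' ∧ b' ≤ N ∧ b' ≠ 0 ∧ P j (c, b) = Sum.inr (s, c, b')) ∧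
      Y.KT t := by
  refine ⟨3 * (t + 3), n₁ + 2, ?_⟩
  intro α V σ M' _ S ends H N hN hE s hlen hK
  obtain ⟨T, hT⟩ : ∃ T, T = t + 3 := ⟨_, rfl⟩
  rw [← hT] at hlen
  have hN' : ((n₁ + 2 : ℕ) : ℤ) ≤ N := hN
  push_cast at hN'
  obtain ⟨n, hn⟩ : ∃ n : ℕ, (n : ℤ) + 2 = N := ⟨(N - 2).toNat, by omega⟩
  have hP : Page S ends (bpg (V := V) s N) 0 (H.len s - 1) (n + 1) :=
    bpg_page hE s (by omega) (by push_cast; omega)
  obtain ⟨Bs, hBs⟩ : ∃ Bs : ℕ → Set (ℕ × ℕ), Bs = fun k => {c | c.1 < 3 * T ∧ c.2 = 0 ∧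
    ownK T c.1 = k} := ⟨_, rfl⟩
  have hmem : ∀ k c, c ∈ Bs k ↔ c.1 < 3 * T ∧ c.2 = 0 ∧ ownK T c.1 = k := by
    intro k c
    rw [hBs]
    rfl
  have hsub : ∀ k, Bs k ⊆ Reg 0 (H.len s - 1) (n + 1) := by
    intro k c hc
    rw [hmem] at hc
    rw [mem_Reg]
    omega
  have hbot : ∀ x : ℕ, bpg (V := V) s N (x, 0) = Sum.inr (s, x, -N) := by
    intro x
    unfold bpg
    simp only [Nat.cast_zero, add_zero]
  have hadj : ∀ x x' : ℕ, x < 3 * T → x' < 3 * T → x ≠ x' →
      GAdj S ends (bpg s N (x, 0)) (bpg s N (x', 0)) := by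
    intro x x' h1 h2 h3
    rw [hbot, hbot]
    exact hK x x' (by omega) (by omega) h3
  refine ⟨ℕ, YK T, fun j c => bpg s N (c.1, c.2 + 1), fun j => if j = 0 then 0 else 1,
    fun j => if j = 0 then H.len s - 1 else 0, n, fun k => bpg s N '' Bs k, fun p => p, ?_, ?_,
    by omega, ?_, YK_kt (by omega)⟩
  · rw [← hT]
    exact YK_ax (by omega)
  · refine ⟨⟨?_, ?_⟩, ?_, ?_, ?_, ?_, ?_, ?_, ?_, ?_⟩
    · intro j
      by_cases hj : j = 0
      · simp only [hj, if_true]
        refine ⟨?_, ?_, ?_⟩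
        · rintro ⟨a, b⟩ ⟨a', b'⟩ h1 h2 h3 h1' h2' h3' h
          simp only at h1 h2 h3 h1' h2' h3' h
          have h4 := hP.inj (a, b + 1) (a', b' + 1) h1 h2
            (by simp only; omega) h1' h2' (by simp only; omega) h
          simp only [Prod.mk.injEq] at h4
          exact Prod.ext h4.1 (by simp only; omega)
        · intro x b h1 h2 h3
          exact hP.ver x (b + 1) h1 h2 (by omega)
        · intro x b h1 h2 h3 h4
          exact hP.hor x (b + 1) h1 h2 (by omega) (by omega)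
      · simp only [hj, if_false]
        refine ⟨?_, ?_, ?_⟩
        · intro c c' h1 h2
          omega
        · intro x b h1 h2
          omega
        · intro x b h1 h2
          omega
    · intro j j' hjj c hc c' hc' _
      rw [mem_Reg] at hc hc'
      by_cases hj : j = 0
      · have hj' : j' ≠ 0 := fun h => hjj (hj.trans h.symm)
        simp only [hj', if_false] at hc'
        omega
      · simp only [hj, if_false] at hc
        omega
    · intro k
      refine Set.Finite.image _ ?_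
      refine ((Finset.range (3 * T) ×ˢ {0}).finite_toSet).subset ?_
      intro c hc
      rw [hmem] at hc
      rw [Finset.mem_coe, Finset.mem_product, Finset.mem_range, Finset.mem_singleton]
      exact ⟨hc.1, hc.2.1⟩
    · rintro k _ ⟨⟨x, b⟩, hc, rfl⟩ _ ⟨⟨x', b'⟩, hc', rfl⟩
      have h1 := (hmem k _).1 hc
      have h2 := (hmem k _).1 hc'
      simp only at h1 h2
      obtain ⟨h3, rfl, h4⟩ := h1
      obtain ⟨h5, rfl, h6⟩ := h2
      by_cases hxx : x = x'
      · rw [hxx]
      · exact Relation.ReflTransGen.single ⟨hadj x x' h3 h5 hxx, ⟨_, hc, rfl⟩, ⟨_, hc', rfl⟩⟩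
    · intro k k' hkk
      refine hP.disj (hsub k) (hsub k') ?_
      intro c hc hc'
      rw [hmem] at hc hc'
      exact hkk (hc.2.2.symm.trans hc'.2.2)
    · rintro k j ⟨a, b⟩ hc ⟨c, hc', h⟩
      rw [mem_Reg] at hc
      by_cases hj : j = 0
      · simp only [hj, if_true] at hc
        rw [hmem] at hc'
        have h2 := hP.inj c (a, b + 1) (Nat.zero_le _) (by omega) (by omega) (by simp only; omega)
          (by simp only; omega) (by simp only; omega) h
        rw [h2] at hc'
        simp only at hc'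
        omega
      · simp only [hj, if_false] at hc
        omega
    · intro x hx
      have hx' : x < 3 * T := hx
      refine ⟨Nat.zero_le _, ?_, ?_⟩
      · show x ≤ if (0 : ℕ) = 0 then H.len s - 1 else 0
        rw [if_pos rfl]
        omega
      · obtain ⟨e, he, h2⟩ := hP.ver x 0 (Nat.zero_le _) (by omega) (by omega)
        exact ⟨e, he, _, ⟨(x, 0), (hmem _ _).2 ⟨hx', rfl, rfl⟩, rfl⟩, _, rfl, h2⟩
    · rintro k k' ⟨h1, h2, h3⟩
      obtain ⟨e, he, h4⟩ := hadj (2 * k) (2 * k') (by omega) (by omega) (by omega)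
      exact ⟨e, he, _, ⟨(2 * k, 0), (hmem _ _).2 ⟨by simp only; omega, rfl, ownK_real h2⟩, rfl⟩,
        _, ⟨(2 * k', 0), (hmem _ _).2 ⟨by simp only; omega, rfl, ownK_real h3⟩, rfl⟩, h4⟩
    · intro x y hxy hy _
      exact hxy
    · intro I hI
      have hI0 : I = ∅ := by
        rw [Finset.eq_empty_iff_forall_notMem]
        intro k hk
        exact hI k hk
      subst hI0
      unfold JU
      simp
  · intro j x h1 h2
    by_cases hj : j = 0
    · simp only [hj, if_true] at h1 h2 ⊢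
      refine ⟨by omega, fun c hc => ⟨Nat.zero_le _, by omega, fun b hb => ?_⟩⟩
      refine ⟨-N + ((b + 1 : ℕ) : ℤ), ?_, ?_, ?_, rfl⟩
      · omega
      · push_cast; omega
      · push_cast; omega
    · simp only [hj, if_false] at h1 h2
      omega

end TST
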