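import Pool.Agent.TST.SGDefs

/-!
# Row BL of the host (T-star): balanced sheets

In a balanced sheet all rungs between two neighbouring columns are in the closure of the two columns
and of one element; so the rank of the sheet is less than its number of vertices.
-/

open Set Relation
open scoped Matroid

namespace TST

open BIC Gad EN BICS Mdl

universe u

/-! ### Counting the vertices of a sheet -/

lemma ShV_eq {V σ : Type*} (H : Host V σ) (N : ℕ) (m : σ → ℕ → ℕ) (s : σ) :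
    ShV H (N : ℤ) m s = (fun p : (_ : ℕ) × ℤ => (Sum.inr (s, p.1, p.2) : HV V σ)) ''
      (((Finset.range (H.len s)).sigma fun c => Finset.Icc (-(N : ℤ)) (N + m s c) :
        Finset ((_ : ℕ) × ℤ)) : Set ((_ : ℕ) × ℤ)) := by
  ext v
  constructor
  · rintro ⟨c, b, rfl, hc, h1, h2⟩
    refine ⟨⟨c, b⟩, ?_, rfl⟩
    rw [Finset.mem_coe, Finset.mem_sigma, Finset.mem_range, Finset.mem_Icc]
    exact ⟨hc, h1, h2⟩
  · rintro ⟨⟨c, b⟩, h, rfl⟩
    rw [Finset.mem_coe, Finset.mem_sigma, Finset.mem_range, Finset.mem_Icc] at h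
    exact ⟨c, b, rfl, h.1, h.2.1, h.2.2⟩

lemma ShV_ncard {V σ : Type*} (H : Host V σ) (N : ℕ) (m : σ → ℕ → ℕ) (s : σ) :
    (ShV H (N : ℤ) m s).ncard = ∑ c ∈ Finset.range (H.len s), (2 * N + m s c + 1) := by
  rw [ShV_eq, ncard_image_of_injective, ncard_coe_finset, Finset.card_sigma]
  · refine Finset.sum_congr rfl fun c _ => ?_
    rw [Int.card_Icc]
    omega
  · rintro ⟨c, b⟩ ⟨c', b'⟩ h
    simp only [Sum.inr.injEq, Prod.mk.injEq, true_and] at h
    obtain ⟨rfl, rfl⟩ := h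
    rfl

section

variable {α : Type u} {X₀ β σ : Type}

variable {M : Matroid α} {W : RW X₀ β} {el : β → ℕ → α} {ln : σ → ℕ} {N : ℕ}
  {T : Strip W (CI ln) N} {Lm : ℕ} {Sf : Set α} {eL : α → Sym2 (HV (OV X₀ β Lm) σ)} {Q : Set α}
  {BQ : Set β} {u : ℕ} {Ed : CI ln → CI ln → Prop} {Rg : Set α}

lemma Strip.idx_bd {W : RW X₀ β} {ι : Type*} {N : ℕ} (T : Strip W ι N) (i : ι) {b : ℤ}
    (h1 : -(N : ℤ) ≤ b) (h2 : b ≤ N + T.m i) :
    T.a i ≤ T.idx i b ∧ T.idx i b ≤ T.a i + 2 * N + T.m i := by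
  classical
  unfold Strip.idx
  split_ifs <;> omega

/-- a label of a column -/
lemma lab_eq_inr {v : Nd X₀ β} {s : σ} {c : ℕ} {b : ℤ} (h : lab T Lm v = Sum.inr (s, c, b)) :
    ∃ i : CI ln, i.1.1 = s ∧ i.1.2 = c ∧ -(N : ℤ) ≤ b ∧ b ≤ N + T.m i ∧
      v = Sum.inr (T.R i, T.idx i b) := by
  classical
  rcases v with x | ⟨r, p⟩
  · simp [lab] at h
  · simp only [lab] at h
    split_ifs at h with h1
    have h2 := h1.choose_spec
    simp only [Sum.inr.injEq, Prod.mk.injEq] at h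
    obtain ⟨h3, h4, h5⟩ := h
    rw [h5] at h2
    exact ⟨h1.choose.1, h3, h4, h2.2.1, h2.2.2.1, by rw [h2.1, h2.2.2.2]⟩

lemma RW.nd_eq_inr {W : RW X₀ β} {r r' : β} {p p' : ℕ} (h : W.nd r p = Sum.inr (r', p')) :
    r' = r ∧ p' = p := by
  unfold RW.nd at h
  split_ifs at h
  simp only [Sum.inr.injEq, Prod.mk.injEq] at h
  exact ⟨h.1.symm, h.2.symm⟩

/-- a step of a row with both ends in columns of one sheet is a step of a column -/
lemma SG.step_col (h : SG M W el T Lm Sf eL Q BQ u Ed Rg) {r : β} {k : ℕ}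
    {s s' : σ} {c c' : ℕ} {b b' : ℤ} (h1 : lab T Lm (W.nd r k) = Sum.inr (s, c, b))
    (h2 : lab T Lm (W.nd r (k + 1)) = Sum.inr (s', c', b')) :
    ∃ i : CI ln, i.1.1 = s ∧ el r k ∈ ColE W el T i := by
  obtain ⟨i, hi1, hi2, hi3, hi4, hi5⟩ := lab_eq_inr h1
  obtain ⟨j, hj1, hj2, hj3, hj4, hj5⟩ := lab_eq_inr h2
  obtain ⟨hi6, hi7⟩ := RW.nd_eq_inr hi5
  obtain ⟨hj6, hj7⟩ := RW.nd_eq_inr hj5
  have bi := T.idx_bd i hi3 hi4
  have bj := T.idx_bd j hj3 hj4
  have hij : i = j := by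
    by_contra hne
    rcases h.strong i j hne (by rw [hi6, hj6]) with h3 | h3 <;> omega
  subst hij
  refine ⟨i, hi1, k, by omega, by omega, by rw [hi6]⟩

lemma ColE_eq (W : RW X₀ β) (el : β → ℕ → α) (T : Strip W (CI ln) N) (i : CI ln) :
    ColE W el T i = el (T.R i) ''
      ((Finset.Ico (T.a i) (T.a i + 2 * N + T.m i) : Finset ℕ) : Set ℕ) := by
  ext e
  constructor
  · rintro ⟨k, h1, h2, rfl⟩
    exact ⟨k, by rw [Finset.mem_coe, Finset.mem_Ico]; exact ⟨h1, h2⟩, rfl⟩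
  · rintro ⟨k, hk, rfl⟩
    rw [Finset.mem_coe, Finset.mem_Ico] at hk
    exact ⟨k, hk.1, hk.2, rfl⟩

lemma ColE_fin (W : RW X₀ β) (el : β → ℕ → α) (T : Strip W (CI ln) N) (i : CI ln) :
    (ColE W el T i).Finite := by
  rw [ColE_eq]
  exact (Finset.finite_toSet _).image _

lemma ColE_ncard (W : RW X₀ β) (el : β → ℕ → α) (T : Strip W (CI ln) N) (i : CI ln) :
    (ColE W el T i).ncard ≤ 2 * N + T.m i := by
  rw [ColE_eq]
  refine (ncard_image_le (Finset.finite_toSet _)).trans ?_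
  rw [ncard_coe_finset, Nat.card_Ico]
  omega

/-- **Row BL.** Balanced sheets. -/
theorem SG.bal [M.Finite] [Finite β] (h : SG M W el T Lm Sf eL Q BQ u Ed Rg) {Lost : Set β}
    (hL : ∀ r ∉ Lost, W.nd r 0 ∉ rowV W BQ ∧ W.nd r (W.len r) ∉ rowV W BQ)
    (hEd : ∀ i j : CI ln, Ed i j ↔ i.1.1 = j.1.1 ∧ j.1.2 = i.1.2 + 1) (g : CI ln → CI ln → α)
    (hb : ∀ i j, Ed i j → ∀ e ∈ Rg, ∀ b : ℤ, eL e = s(cv i b, cv j b) →
      e ∈ (M ／ Q).closure (ColE W el T i ∪ ColE W el T j ∪ {g i j})) (s : σ) (hs : 0 < ln s) :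
    rk (M ／ Q) (ins (Sw W el T Lost Rg) eL
      (ShV (hostL (Sh W el T Lost Rg eL) eL N ln) N (fun s c => by
        classical exact if hc : c < ln s then T.m ⟨(s, c), hc⟩ else 0) s)) <
      (ShV (V := OV X₀ β Lm) (hostL (Sh W el T Lost Rg eL) eL N ln) N (fun s c => by
        classical exact if hc : c < ln s then T.m ⟨(s, c), hc⟩ else 0) s).ncard := by
  classical
  rw [ShV_ncard]
  -- the generating set
  obtain ⟨G, hG⟩ : ∃ G : ℕ → Set α, ∀ c, G c = (if hc : c < ln s then ColE W el T ⟨(s, c), hc⟩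
      else ∅) := ⟨_, fun _ => rfl⟩
  obtain ⟨g', hg'⟩ : ∃ g' : ℕ → Set α, ∀ c, g' c = (if hc : c + 1 < ln s then
      {g ⟨(s, c), show c < ln s by omega⟩ ⟨(s, c + 1), hc⟩} else ∅) := ⟨_, fun _ => rfl⟩
  obtain ⟨X, hX⟩ : ∃ X : ℕ → Set α, ∀ n, X n = ⋃ c < n, (G c ∪ g' c) := ⟨_, fun _ => rfl⟩
  have hcard : ∀ n ≤ ln s, (X n).Finite ∧ (n < ln s ∨ n = 0 → (X n).ncard ≤
      ∑ c ∈ Finset.range n, (2 * N + (if hc : c < ln s then T.m ⟨(s, c), hc⟩ else 0) + 1)) ∧
      (n = ln s → (X n).ncard + 1 ≤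
      ∑ c ∈ Finset.range n, (2 * N + (if hc : c < ln s then T.m ⟨(s, c), hc⟩ else 0) + 1)) := by
    intro n
    induction n with
    | zero =>
      intro _
      have h0 : X 0 = ∅ := by rw [hX]; simp
      rw [h0]
      exact ⟨finite_empty, fun _ => by simp, fun h => by omega⟩
    | succ n ih =>
      intro hn
      obtain ⟨ih1, ih2, -⟩ := ih (by omega)
      have ih3 := ih2 (Or.inl (by omega))
      have hX1 : X (n + 1) = X n ∪ (G n ∪ g' n) := by
        rw [hX, hX]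
        ext e
        simp only [mem_iUnion, mem_union, exists_prop]
        constructor
        · rintro ⟨c, hc, he⟩
          rcases (Nat.lt_succ_iff_lt_or_eq.1 hc) with h1 | rfl
          · exact Or.inl ⟨c, h1, he⟩
          · exact Or.inr he
        · rintro (⟨c, hc, he⟩ | he)
          · exact ⟨c, by omega, he⟩
          · exact ⟨n, by omega, he⟩
      have hGn : G n = ColE W el T ⟨(s, n), show n < ln s by omega⟩ := by
        rw [hG, dif_pos (show n < ln s by omega)]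
      have hGf : (G n).Finite := by rw [hGn]; exact ColE_fin _ _ _ _
      have hGc : (G n).ncard ≤ 2 * N + T.m ⟨(s, n), show n < ln s by omega⟩ := by
        rw [hGn]; exact ColE_ncard _ _ _ _
      have hgf : (g' n).Finite := by
        rw [hg']
        split_ifs
        · exact finite_singleton _
        · exact finite_empty
      have hgc : (g' n).ncard ≤ 1 := by
        rw [hg']
        split_ifs
        · rw [ncard_singleton]
        · rw [ncard_empty]; omega
      have h1 := ncard_union_le (X n) (G n ∪ g' n)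
      have h2 := ncard_union_le (G n) (g' n)
      rw [hX1, Finset.sum_range_succ, dif_pos (show n < ln s by omega)]
      refine ⟨ih1.union (hGf.union hgf), fun _ => by omega, fun hns => ?_⟩
      have h3 : (g' n).ncard = 0 := by
        rw [hg', dif_neg (by omega), ncard_empty]
      omega
  obtain ⟨hf, -, hc⟩ := hcard (ln s) le_rfl
  have hc' := hc rfl
  -- the elements of the sheet
  have hcol : ∀ i : CI ln, i.1.1 = s → ColE W el T i ⊆ X (ln s) := by
    rintro ⟨⟨s', c⟩, hc1⟩ hs' e he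
    simp only at hs' hc1
    subst hs'
    rw [hX]
    simp only [mem_iUnion, exists_prop]
    refine ⟨c, hc1, Or.inl ?_⟩
    rw [hG, dif_pos hc1]
    exact he
  have hgg : ∀ i j : CI ln, i.1.1 = s → j.1.1 = s → j.1.2 = i.1.2 + 1 → g i j ∈ X (ln s) := by
    rintro ⟨⟨s', c⟩, hc1⟩ ⟨⟨s'', c'⟩, hc2⟩ hs' hs'' hcc
    simp only at hs' hs'' hc1 hc2 hcc
    subst hs' hs'' hcc
    rw [hX]
    simp only [mem_iUnion, exists_prop]
    refine ⟨c, hc1, Or.inr ?_⟩
    rw [hg', dif_pos hc2]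
    rfl
  have hsub : ins (Sw W el T Lost Rg) eL
      (ShV (hostL (Sh W el T Lost Rg eL) eL N ln) N (fun s c =>
        if hc : c < ln s then T.m ⟨(s, c), hc⟩ else 0) s) ⊆ (M ／ Q).closure (X (ln s)) ∪ X (ln s) := by
    intro e he
    obtain ⟨he1, he2⟩ := he
    have hrow : ∀ r k, k < W.len r → el r k = e → e ∈ X (ln s) := by
      rintro r k hk rfl
      have h1 := (h.row r k hk).2
      obtain ⟨c, b, h2, -⟩ := he2 (lab T Lm (W.nd r k)) (by rw [h1]; simp)
      obtain ⟨c', b', h3, -⟩ := he2 (lab T Lm (W.nd r (k + 1))) (by rw [h1]; simp)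
      obtain ⟨i, hi, hi'⟩ := h.step_col h2 h3
      exact hcol i hi hi'
    rcases he1 with (⟨r, k, hk, -, hek⟩ | ⟨i, hi⟩) | he1
    · exact Or.inr (hrow r k hk hek)
    · obtain ⟨k, h1, h2, h3⟩ := hi
      exact Or.inr (hrow (T.R i) k (by have := T.lt i; omega) h3)
    · obtain ⟨-, i, j, b, hij, -, -, -, heb⟩ := h.rg e he1
      obtain ⟨h1, h2⟩ := (hEd i j).1 hij
      obtain ⟨c, b', h3, -⟩ := he2 (cv i b) (by rw [heb]; simp)
      simp only [cv, Sum.inr.injEq, Prod.mk.injEq] at h3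
      refine Or.inl ((M ／ Q).closure_subset_closure ?_ (hb i j hij e he1 b heb))
      refine union_subset (union_subset (hcol i h3.1) (hcol j (by rw [← h1]; exact h3.1))) ?_
      rw [singleton_subset_iff]
      exact hgg i j h3.1 (by rw [← h1]; exact h3.1) h2
  have hrk : rk (M ／ Q) (ins (Sw W el T Lost Rg) eL
      (ShV (hostL (Sh W el T Lost Rg eL) eL N ln) N (fun s c =>
        if hc : c < ln s then T.m ⟨(s, c), hc⟩ else 0) s)) ≤ (X (ln s)).ncard := by
    refine le_trans ?_ (rk_le_ncard (M := M ／ Q) hf)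
    have h1 : rk (M ／ Q) ((M ／ Q).closure (X (ln s)) ∪ X (ln s)) = rk (M ／ Q) (X (ln s)) := by
      have h2 : rk (M ／ Q) ((M ／ Q).closure (X (ln s)) ∪ X (ln s)) ≤
          rk (M ／ Q) ((M ／ Q).closure (X (ln s))) := by
        unfold rk
        rw [← Matroid.eRk_inter_ground]
        refine ENat.toNat_le_toNat ((M ／ Q).eRk_mono ?_) ?_
        · rintro x ⟨hx | hx, hxE⟩
          · exact hx
          · exact (M ／ Q).mem_closure_of_mem' hx hxE
        · rw [← cast_rk]
          exact ENat.natCast_ne_top _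
      rw [rk_closure] at h2
      exact le_antisymm h2 (rk_mono _ subset_union_right)
    rw [← h1]
    exact rk_mono _ hsub
  have hlen : (hostL (Sh W el T Lost Rg eL) eL N ln : Host (OV X₀ β Lm) σ).len s = ln s := rfl
  rw [hlen]
  omega

end

end TST
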