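import Pool.Agent.TST.SGAlpha
import Pool.Agent.TST.SGMain
import Pool.Agent.TST.SGBal

/-!
# Row HG of the host (T-star): the structure `HostG`, from the frame
-/

open Set Relation
open scoped Matroid

namespace TST

open BIC Gad EN BICS Mdl

universe u

variable {α : Type u} {X₀ β σ : Type}

section host

variable {M : Matroid α} {W : RW X₀ β} {el : β → ℕ → α} {ln : σ → ℕ} {N : ℕ}
  {T : Strip W (CI ln) N} {Lm : ℕ} {Sf : Set α} {eL : α → Sym2 (HV (OV X₀ β Lm) σ)} {Q : Set α}
  {BQ : Set β} {u : ℕ} {Ed : CI ln → CI ln → Prop} {Rg : Set α}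

/-- a step with a label outside of the columns -/
lemma sg_step_out {Lost : Set β} {r : β} {k : ℕ} (hS : el r k ∈ Sw W el T Lost Rg) {x y : HV (OV X₀ β Lm) σ}
    (hxy : eL (el r k) = s(x, y)) (hx : ∀ i, x ∉ MidS N i.1.1 i.1.2 (T.m i))
    (hy : ∀ i, y ∉ MidS N i.1.1 i.1.2 (T.m i)) :
    GAdj (Sh W el T Lost Rg eL) eL x y := by
  refine ⟨el r k, ⟨hS, ?_⟩, hxy⟩
  intro v hv i
  rw [hxy, Sym2.mem_iff] at hv
  rcases hv with rfl | rfl
  · exact hx i
  · exact hy i

/-- the label of a node: a vertex of a column or an outside vertex -/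
lemma lab_nd_cases (T : Strip W (CI ln) N) (Lm : ℕ) (r : β) (p : ℕ) (hp : p ≤ W.len r)
    (hl : 1 ≤ W.len r) :
    (∃ i : CI ln, ∃ b : ℤ, T.R i = r ∧ -(N : ℤ) ≤ b ∧ b ≤ N + T.m i ∧ T.idx i b = p ∧
      lab T Lm (W.nd r p) = cv i b) ∨
    ((∀ i, T.R i = r → p < T.a i ∨ T.a i + 2 * N + T.m i < p) ∧
      ∃ v, lab T Lm (W.nd r p) = Sum.inl v) := by
  by_cases hex : ∃ i : CI ln, T.R i = r ∧ T.a i ≤ p ∧ p ≤ T.a i + 2 * N + T.m i
  · left
    obtain ⟨i, rfl, h1, h2⟩ := hex
    obtain ⟨b, hb1, hb2, hb3⟩ := T.idx_surj i h1 h2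
    refine ⟨i, b, rfl, hb1, hb2, hb3, ?_⟩
    rw [← hb3]
    exact lab_nd T i b hb1 hb2
  · right
    have h1 : ∀ i, T.R i = r → p < T.a i ∨ T.a i + 2 * N + T.m i < p := by
      intro i hi
      by_contra hcon
      exact hex ⟨i, hi, by omega, by omega⟩
    exact ⟨h1, lab_out T r p hp hl h1⟩

/-- a step of a row in no column: the ends are outside or ends of columns -/
lemma SG.step_ends (h : SG M W el T Lm Sf eL Q BQ u Ed Rg) {r : β} {k : ℕ} (hk : k < W.len r) :
    (∃ i, T.R i = r ∧ T.a i ≤ k ∧ k < T.a i + 2 * N + T.m i) ∨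
    (∃ v w, lab T Lm (W.nd r k) = Sum.inl v ∧ lab T Lm (W.nd r (k + 1)) = Sum.inl w) ∨
    (∃ (v : OV X₀ β Lm) (i : CI ln) (b : ℤ), (b = -(N : ℤ) ∨ b = N) ∧
      lab T Lm (W.nd r k) = Sum.inl v ∧ lab T Lm (W.nd r (k + 1)) = cv i b) ∨
    (∃ (v : OV X₀ β Lm) (i : CI ln) (b : ℤ), (b = -(N : ℤ) ∨ b = N) ∧
      lab T Lm (W.nd r k) = cv i b ∧ lab T Lm (W.nd r (k + 1)) = Sum.inl v) := by
  have hN := h.N1
  rcases lab_nd_cases T Lm r k hk.le (h.len r).1 with ⟨i, b, rfl, h1, h2, h3, h4⟩ | ⟨h1, v, h2⟩ <;>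
    rcases lab_nd_cases T Lm _ (k + 1) hk (h.len _).1 with
      ⟨j, b', g0, g1, g2, g3, g4⟩ | ⟨g1, w, g2⟩
  · left
    have h5 := T.idx_range i b h1 h2
    have h6 := T.idx_range j b' g1 g2
    have hij : i = j := by
      by_contra hne
      rcases h.strong i j hne g0.symm with h7 | h7 <;> omega
    subst hij
    exact ⟨i, rfl, by omega, by omega⟩
  · right; right; right
    have h5 := T.idx_range i b h1 h2
    have h6 := g1 i rfl
    refine ⟨w, i, b, ?_, h4, g2⟩
    have h7 : T.idx i b = T.a i + 2 * N + T.m i := by omega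
    unfold Strip.idx at h7
    split_ifs at h7 <;> omega
  · right; right; left
    subst g0
    have h5 := T.idx_range j b' g1 g2
    have h6 := h1 j rfl
    refine ⟨v, j, b', ?_, h2, g4⟩
    have h7 : T.idx j b' = T.a j := by omega
    unfold Strip.idx at h7
    split_ifs at h7 <;> omega
  · right; left
    exact ⟨v, w, h2, g2⟩

lemma inl_not_MidS {i : CI ln} {v : OV X₀ β Lm} :
    (Sum.inl v : HV (OV X₀ β Lm) σ) ∉ MidS N i.1.1 i.1.2 (T.m i) := by
  rintro ⟨b, hb, _⟩
  exact absurd hb (by simp)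

/-- **Row HG, from the frame.** -/
theorem SG.hostG_of [M.Finite] (h : SG M W el T Lm Sf eL Q BQ u Ed Rg) {Lost : Set β}
    (hfrm : Frm (M ／ Q) (Sw W el T Lost Rg) eL)
    (hEd : ∀ i j : CI ln, Ed i j ↔ i.1.1 = j.1.1 ∧ j.1.2 = i.1.2 + 1)
    (hbal : ∀ s, 0 < ln s → rk (M ／ Q) (ins (Sw W el T Lost Rg) eL
      (ShV (hostL (Sh W el T Lost Rg eL) eL N ln) N (fun s c => by
        classical exact if hc : c < ln s then T.m ⟨(s, c), hc⟩ else 0) s)) <
      (ShV (V := OV X₀ β Lm) (hostL (Sh W el T Lost Rg eL) eL N ln) N (fun s c => by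
        classical exact if hc : c < ln s then T.m ⟨(s, c), hc⟩ else 0) s).ncard) :
    HostG (hostL (Sh W el T Lost Rg eL) eL N ln) N (M ／ Q) (Sw W el T Lost Rg) eL
      (fun s c => by classical exact if hc : c < ln s then T.m ⟨(s, c), hc⟩ else 0) := by
  classical
  have hN := h.N1
  have hemb := h.emb_al (Lost := Lost) (len := ln) (fun _ => Or.inl rfl)
    (fun i j h1 h2 _ => (hEd i j).2 ⟨h1, h2⟩)
  have hmono : ∀ x y, GAdj (Sh W el T Lost Rg eL) eL x y → GAdj (Sw W el T Lost Rg) eL x y := by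
    rintro x y ⟨e, he, hxy⟩
    exact ⟨e, he.1, hxy⟩
  -- the image of a vertex of a column
  have hp0 : ∀ (i : CI ln) (b : ℤ), -(N : ℤ) ≤ b → b ≤ N + T.m i →
      p0 (hostL (Sh W el T Lost Rg eL) eL N ln) N
        (fun s c => by classical exact if hc : c < ln s then T.m ⟨(s, c), hc⟩ else 0) (cv i b) =
        some (cv i (if (N : ℤ) < b then 0 else b)) := by
    intro i b h1 h2
    have hm : (if hc : i.1.2 < ln i.1.1 then T.m ⟨(i.1.1, i.1.2), hc⟩ else 0) = T.m i := by
      rw [dif_pos i.2]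
    unfold cv
    simp only [p0]
    rw [if_pos ⟨i.2, h1, by rw [hm]; exact h2⟩]
  -- adjacency in a column
  have hcadj : ∀ (i : CI ln) (b : ℤ), -(N : ℤ) ≤ b → b + 1 ≤ N →
      (hostL (Sh W el T Lost Rg eL) eL N ln).Adj N (cv i b) (cv i (b + 1)) := by
    intro i b h1 h2
    exact Or.inl ⟨rfl, i.2, h1, h2, Or.inl ⟨rfl, rfl⟩⟩
  refine ⟨hfrm, fun x y hx hy hA => hmono _ _ (hemb.adj x y hx hy hA), ?_, ?_, ?_, hbal⟩
  · intro s c hc
    have h1 := lab_mid T (Lm := Lm) (S := Sw W el T Lost Rg) (el := el) (eL := eL) hN ⟨(s, c), hc⟩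
      (fun k k1 k2 => ⟨Or.inl (Or.inr ⟨_, k, k1, k2, rfl⟩), (h.row _ k (by
        have := T.lt ⟨(s, c), hc⟩
        omega)).2⟩)
    have hm : (if hc : c < ln s then T.m ⟨(s, c), hc⟩ else 0) = T.m ⟨(s, c), hc⟩ := dif_pos hc
    rw [hm]
    exact h1
  · -- symmetric form
    have key : ∀ e ∈ Sw W el T Lost Rg, ∃ x y x' y', eL e = s(x, y) ∧
        p0 (hostL (Sh W el T Lost Rg eL) eL N ln) N (fun s c => by
          classical exact if hc : c < ln s then T.m ⟨(s, c), hc⟩ else 0) x = some x' ∧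
        p0 (hostL (Sh W el T Lost Rg eL) eL N ln) N (fun s c => by
          classical exact if hc : c < ln s then T.m ⟨(s, c), hc⟩ else 0) y = some y' ∧
        (x' = y' ∨ (hostL (Sh W el T Lost Rg eL) eL N ln).Adj N x' y') := by
      have hcolumn : ∀ (i : CI ln) (k : ℕ), T.a i ≤ k → k < T.a i + 2 * N + T.m i →
          ∃ x y x' y', eL (el (T.R i) k) = s(x, y) ∧
          p0 (hostL (Sh W el T Lost Rg eL) eL N ln) N (fun s c => by
            classical exact if hc : c < ln s then T.m ⟨(s, c), hc⟩ else 0) x = some x' ∧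
          p0 (hostL (Sh W el T Lost Rg eL) eL N ln) N (fun s c => by
            classical exact if hc : c < ln s then T.m ⟨(s, c), hc⟩ else 0) y = some y' ∧
          (x' = y' ∨ (hostL (Sh W el T Lost Rg eL) eL N ln).Adj N x' y') := by
        intro i k k1 k2
        obtain ⟨b, b', hb, b1, b2, b3, b4, hcl⟩ := lab_cls T (Lm := Lm) hN i k k1 k2
        have hlt := T.lt i
        refine ⟨cv i b, cv i b', _, _, ((h.row _ k (by omega)).2.trans hb), hp0 i b b1 b2,
          hp0 i b' b3 b4, ?_⟩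
        rcases hcl with ⟨rfl, h3⟩ | ⟨h3, h4, h5⟩
        · right
          rw [if_neg (by omega), if_neg (by omega)]
          exact hcadj i b b1 (by omega)
        · by_cases hb0 : b = -1
          · right
            have h6 : b' = 0 ∨ N < b' := by omega
            subst hb0
            have h7 : (if (N : ℤ) < b' then 0 else b') = 0 := by
              split_ifs <;> omega
            rw [if_neg (by omega), h7]
            have h8 := hcadj i (-1) b1 (by omega)
            simpa using h8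
          · have h6 : (if (N : ℤ) < b then 0 else b) = 0 := by
              split_ifs <;> omega
            rw [h6]
            by_cases hb1 : b' = 1
            · right
              subst hb1
              rw [if_neg (by omega)]
              have h8 := hcadj i 0 (by omega) (by omega)
              simpa using h8
            · left
              have h7 : (if (N : ℤ) < b' then 0 else b') = 0 := by
                split_ifs <;> omega
              rw [h7]
      rintro e ((⟨r, k, hk, hr, rfl⟩ | ⟨i, k, k1, k2, rfl⟩) | he)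
      · have hS : el r k ∈ Sw W el T Lost Rg := Or.inl (Or.inl ⟨r, k, hk, hr, rfl⟩)
        have hrow := (h.row r k hk).2
        rcases h.step_ends hk with ⟨i, rfl, k1, k2⟩ | ⟨v, w, hv, hw⟩ | ⟨v, i, b, hb, hv, hw⟩ |
          ⟨v, i, b, hb, hv, hw⟩
        · exact hcolumn i k k1 k2
        · rw [hv, hw] at hrow
          refine ⟨_, _, Sum.inl v, Sum.inl w, hrow, rfl, rfl, Or.inr (Or.inl ?_)⟩
          exact sg_step_out hS hrow (fun i => inl_not_MidS) (fun i => inl_not_MidS)
        · rw [hv, hw] at hrow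
          have hmid : ∀ j, (cv i b : HV (OV X₀ β Lm) σ) ∉ MidS N j.1.1 j.1.2 (T.m j) := by
            intro j
            exact sga_mid (T := T) (by omega) (by omega)
          refine ⟨_, _, Sum.inl v, _, hrow, rfl, hp0 i b (by omega) (by omega),
            Or.inr (Or.inl ?_)⟩
          rw [if_neg (by omega)]
          refine ⟨i.2, ?_⟩
          have hG := sg_step_out hS hrow (fun i => inl_not_MidS) hmid
          rcases hb with rfl | rfl
          · exact Or.inl ⟨rfl, hG⟩
          · exact Or.inr ⟨rfl, hG⟩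
        · rw [hv, hw] at hrow
          have hmid : ∀ j, (cv i b : HV (OV X₀ β Lm) σ) ∉ MidS N j.1.1 j.1.2 (T.m j) := by
            intro j
            exact sga_mid (T := T) (by omega) (by omega)
          refine ⟨_, _, _, Sum.inl v, hrow, hp0 i b (by omega) (by omega), rfl,
            Or.inr (Or.inr ?_)⟩
          rw [if_neg (by omega)]
          refine ⟨i.2, ?_⟩
          have hG := sg_step_out hS (hrow.trans Sym2.eq_swap) (fun i => inl_not_MidS) hmid
          rcases hb with rfl | rfl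
          · exact Or.inl ⟨rfl, hG⟩
          · exact Or.inr ⟨rfl, hG⟩
      · exact hcolumn i k k1 k2
      · obtain ⟨_, i, j, b, hij, b1, b2, b3, heb⟩ := h.rg e he
        obtain ⟨g1, g2⟩ := (hEd i j).1 hij
        refine ⟨_, _, _, _, heb, hp0 i b b1 (by omega), hp0 j b b1 (by omega), Or.inr (Or.inl ?_)⟩
        rw [if_neg (by omega)]
        have g3 : j.1.2 < ln i.1.1 := by
          rw [g1]
          exact j.2
        exact ⟨g1, g3, b1, b2, Or.inr ⟨g2, rfl, b3⟩⟩
    intro e he x y hxy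
    obtain ⟨x₁, y₁, x', y', h1, h2, h3, h4⟩ := key e he
    rw [h1, Sym2.eq_iff] at hxy
    rcases hxy with ⟨rfl, rfl⟩ | ⟨rfl, rfl⟩
    · exact ⟨x', y', h2, h3, h4⟩
    · refine ⟨y', x', h3, h2, ?_⟩
      rcases h4 with h4 | h4
      · exact Or.inl h4.symm
      · exact Or.inr h4.symm
  · rintro v ⟨e, ⟨he, _⟩, hev⟩
    have hrow : ∀ r k, k < W.len r → eL (el r k) ≠ s(Sum.inl v, Sum.inl v) := by
      intro r k hk hh
      rw [(h.row r k hk).2, Sym2.eq_iff] at hh
      have h1 : lab T Lm (W.nd r k) = lab T Lm (W.nd r (k + 1)) := by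
        rcases hh with ⟨h1, h2⟩ | ⟨h1, h2⟩ <;> rw [h1, h2]
      exact nd_succ_ne (h.hdtl r) hk (lab_inj T h.len hk.le hk h1)
    rcases he with (⟨r, k, hk, hr, rfl⟩ | ⟨i, k, k1, k2, rfl⟩) | he
    · exact hrow r k hk hev
    · exact hrow _ k (by have := T.lt i; omega) hev
    · obtain ⟨_, i, j, b, _, _, _, _, heb⟩ := h.rg e he
      rw [heb, Sym2.eq_iff] at hev
      unfold cv at hev
      simp at hev

end host

end TST
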