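import Pool.Agent.TST.SGCell
import Pool.Agent.TST.SGHostG
import Pool.Agent.EN.PatEx

/-!
# Row HS of the host of T-star: the graph of the strip is a host (`SG.host`)
-/

open Set Relation
open scoped Matroid

namespace TST

open BIC Gad EN BICS Mdl

universe u

variable {α : Type u} {X₀ β σ : Type}

/-- frames of subsets with the same ends -/
lemma frm_sub_congr {V : Type*} {M : Matroid α} {S S' : Set α} {ends ends' : α → Sym2 V}
    (hF : Frm M S ends) (hS : S' ⊆ S) (he : ∀ e ∈ S', ends e = ends' e) : Frm M S' ends' := by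
  have hins : ∀ W : Set V, ins S' ends' W ⊆ ins S ends W := fun W x hx =>
    ⟨hS hx.1, fun v hv => hx.2 v (he x hx.1 ▸ hv)⟩
  refine ⟨hS.trans hF.sub, fun v e hes hv hcl => ?_, fun W => ?_⟩
  · exact hF.star v e (hS hes) (he e hes ▸ hv) (M.closure_subset_closure (hins _) hcl)
  · exact (M.eRk_mono (hins W)).trans (hF.rk W)

section host

variable {M : Matroid α} {W : RW X₀ β} {el : β → ℕ → α} {ln : σ → ℕ} {N : ℕ}
  {T : Strip W (CI ln) N} {Lm : ℕ} {Sf : Set α} {eL : α → Sym2 (HV (OV X₀ β Lm) σ)} {Q : Set α}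
  {BQ : Set β} {u : ℕ} {Ed : CI ln → CI ln → Prop} {Rg : Set α}

/-- nodes of rows outside of `BQ` which are not in `rowL` -/
lemma SG.nd_off (h : SG M W el T Lm Sf eL Q BQ u Ed Rg) {r : β} {p : ℕ} (hp : p ≤ W.len r)
    (hv : W.nd r p ∉ rowV W BQ) : lab T Lm (W.nd r p) ∉ rowL T Lm BQ := by
  rintro ⟨v, ⟨r', hr', p', hp', rfl⟩, hv'⟩
  have h1 := lab_inj T h.len hp' hp hv'
  exact hv ⟨r', hr', p', hp', h1⟩

lemma nd_inner_off {r : β} {p : ℕ} (h0 : 0 < p) (h1 : p < W.len r) (hr : r ∉ BQ) :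
    W.nd r p ∉ rowV W BQ := by
  rintro ⟨r', hr', p', _, h2⟩
  rw [W.nd_mid h0 h1] at h2
  exact hr ((nd_inr h2).1 ▸ hr')

/-- cheap elements have no end on the rows in `BQ` -/
lemma SG.sw_off (h : SG M W el T Lm Sf eL Q BQ u Ed Rg) {Lost : Set β}
    (hL : ∀ r ∉ Lost, W.nd r 0 ∉ rowV W BQ ∧ W.nd r (W.len r) ∉ rowV W BQ) {e : α}
    (he : e ∈ Sw W el T Lost Rg) : e ∈ Sf ∧ ∀ v ∈ eL e, v ∉ rowL T Lm BQ := by
  rcases he with (⟨r, k, hk, hr, rfl⟩ | ⟨i, k, k1, k2, rfl⟩) | he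
  · obtain ⟨h1, h2⟩ := h.row r k hk
    refine ⟨h1, fun v hv => ?_⟩
    have hrQ : r ∉ BQ := fun hrQ => (hL r hr).1 ⟨r, hrQ, 0, Nat.zero_le _, rfl⟩
    have key : ∀ p ≤ W.len r, W.nd r p ∉ rowV W BQ := by
      intro p hp
      rcases Nat.eq_zero_or_pos p with h0 | h0
      · subst h0
        exact (hL r hr).1
      · rcases hp.lt_or_eq with h3 | h3
        · exact nd_inner_off h0 h3 hrQ
        · subst h3
          exact (hL r hr).2
    rw [h2, Sym2.mem_iff] at hv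
    rcases hv with rfl | rfl
    · exact h.nd_off hk.le (key k hk.le)
    · exact h.nd_off hk (key (k + 1) hk)
  · have hpos := T.pos i
    have hlt := T.lt i
    obtain ⟨h1, h2⟩ := h.row (T.R i) k (by omega)
    refine ⟨h1, fun v hv => ?_⟩
    rw [h2, Sym2.mem_iff] at hv
    rcases hv with rfl | rfl
    · exact h.nd_off (by omega) (nd_inner_off (by omega) (by omega) (h.colQ i))
    · exact h.nd_off (by omega) (nd_inner_off (by omega) (by omega) (h.colQ i))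
  · obtain ⟨h1, i, j, b, _, h3, h4, _, h6⟩ := h.rg e he
    refine ⟨h1, fun v hv => ?_⟩
    rw [h6, Sym2.mem_iff] at hv
    rcases hv with rfl | rfl
    · exact h.cv_off i h3 (by omega)
    · exact h.cv_off j h3 (by omega)

/-- the frame of the cheap elements, with the middle windows -/
lemma SG.frm_sw (h : SG M W el T Lm Sf eL Q BQ u Ed Rg) {Lost : Set β}
    (hL : ∀ r ∉ Lost, W.nd r 0 ∉ rowV W BQ ∧ W.nd r (W.len r) ∉ rowV W BQ) :
    Frm (M ／ Q) (Sw W el T Lost Rg) eL :=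
  frm_sub_congr h.frm (fun _ he => mem_SQ_off (h.sw_off hL he).1 (h.sw_off hL he).2)
    fun _ he => eQ_off (h.sw_off hL he).2

/-- no cheap element is contracted -/
lemma SG.disj_sw (h : SG M W el T Lm Sf eL Q BQ u Ed Rg) {Lost : Set β}
    (hL : ∀ r ∉ Lost, W.nd r 0 ∉ rowV W BQ ∧ W.nd r (W.len r) ∉ rowV W BQ) :
    Disjoint Q (Sw W el T Lost Rg) := by
  rw [Set.disjoint_left]
  intro x hxQ hx
  obtain ⟨h1, h2⟩ := h.sw_off hL hx
  obtain ⟨r, hr, p, hp, rfl⟩ := h.Q_Sf ⟨hxQ, h1⟩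
  refine h2 (lab T Lm (W.nd r p)) ?_ ⟨_, ⟨r, hr, p, hp.le, rfl⟩, rfl⟩
  rw [(h.row r p hp).2]
  exact Sym2.mem_mk_left _ _

/-- columns through the window `0` -/
lemma SG.col0 (h : SG M W el T Lm Sf eL Q BQ u Ed Rg) {Lost : Set β} {len : σ → ℕ}
    (hlen : ∀ s, len s = ln s ∨ len s = 0) :
    TSK.Col0 Sf eL (hostL (Sh W el T Lost Rg eL) eL N len) N := by
  intro s c hc
  have hc' : c < ln s := by
    have h1 : c < len s := hc
    rcases hlen s with h2 | h2 <;> omega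
  have hlt := T.lt (⟨(s, c), hc'⟩ : CI ln)
  obtain ⟨h1, h2, h3⟩ := lab_mid T (S := Sf) (el := el) (eL := eL) h.N1 (⟨(s, c), hc'⟩ : CI ln)
    fun k _ k2 => h.row _ k (by omega)
  exact ⟨T.m ⟨(s, c), hc'⟩, h1, h2, h3⟩

/-- **Row HS.** -/
theorem SG.host [M.Finite] (h : SG M W el T Lm Sf eL Q BQ u Ed Rg) {Lost : Set β}
    (hL : ∀ r ∉ Lost, W.nd r 0 ∉ rowV W BQ ∧ W.nd r (W.len r) ∉ rowV W BQ) {len : σ → ℕ}
    (hlen : ∀ s, len s = ln s ∨ len s = 0)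
    (hEd : ∀ i j : CI ln, i.1.1 = j.1.1 → j.1.2 = i.1.2 + 1 → len i.1.1 ≠ 0 → Ed i j) :
    Sh W el T Lost Rg eL ⊆ Sf ∧ Sw W el T Lost Rg ⊆ Sf ∧ Disjoint Q (Sw W el T Lost Rg) ∧
    Frm (M ／ Q) (Sw W el T Lost Rg) eL ∧ Frm (M ／ Q) (Sh W el T Lost Rg eL) eL ∧
    Emb (Sh W el T Lost Rg eL) eL (hostL (Sh W el T Lost Rg eL) eL N len) N id ∧
    TSK.Col0 Sf eL (hostL (Sh W el T Lost Rg eL) eL N len) N ∧
    ∀ A : Set (HV (OV X₀ β Lm) σ), (∀ w ∈ A, NZ (hostL (Sh W el T Lost Rg eL) eL N len) N w) →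
      ins (Sw W el T Lost Rg) eL A ⊆ ins (Sh W el T Lost Rg eL) eL A := by
  have hF := h.frm_sw (Lost := Lost) hL
  refine ⟨fun e he => (h.sw_off hL he.1).1, fun e he => (h.sw_off hL he).1, h.disj_sw hL, hF,
    frm_sub_congr hF (fun _ he => he.1) fun _ _ => rfl, h.emb_al hlen hEd, h.col0 hlen, ?_⟩
  intro A hA e he
  refine ⟨⟨he.1, fun v hv i hvi => ?_⟩, he.2⟩
  have h1 := hA v (he.2 v hv)
  obtain ⟨b, rfl, hb⟩ := hvi
  obtain ⟨_, h2, h3, h4⟩ := h1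
  rcases hb with hb | hb
  · exact h4 hb
  · omega

/-- **Row HG.** -/
theorem SG.hostG [M.Finite] (h : SG M W el T Lm Sf eL Q BQ u Ed Rg) {Lost : Set β}
    (hL : ∀ r ∉ Lost, W.nd r 0 ∉ rowV W BQ ∧ W.nd r (W.len r) ∉ rowV W BQ)
    (hEd : ∀ i j : CI ln, Ed i j ↔ i.1.1 = j.1.1 ∧ j.1.2 = i.1.2 + 1)
    (hbal : ∀ s, 0 < ln s → rk (M ／ Q) (ins (Sw W el T Lost Rg) eL
      (ShV (hostL (Sh W el T Lost Rg eL) eL N ln) N (fun s c => by
        classical exact if hc : c < ln s then T.m ⟨(s, c), hc⟩ else 0) s)) <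
      (ShV (V := OV X₀ β Lm) (hostL (Sh W el T Lost Rg eL) eL N ln) N (fun s c => by
        classical exact if hc : c < ln s then T.m ⟨(s, c), hc⟩ else 0) s).ncard) :
    HostG (hostL (Sh W el T Lost Rg eL) eL N ln) N (M ／ Q) (Sw W el T Lost Rg) eL
      (fun s c => by classical exact if hc : c < ln s then T.m ⟨(s, c), hc⟩ else 0) :=
  h.hostG_of (h.frm_sw hL) hEd hbal

end host

end TST
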