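import Pool.Agent.TST.HubX
import Pool.Agent.TST.BaseDef
import Pool.Agent.TST.SGHost

/-!
# Row HX of T-star: `LocB` from `Base`
-/

set_option autoImplicit false

open Set BIC BICS CWL
open scoped Matroid

namespace TSH

universe u

open Mdl Mdj EN Gad TST EN.Wall

/-- `LocB` from `Base`. -/
theorem Base.locB {α : Type u} {M : Matroid α} {w s : ℕ} {𝒯 : Finset (ℕ × ℕ)}
    {L₁ L₂ : Bool × ℕ × ℕ → List α} {f₁ : α → Sym2 ((ℕ × ℕ) ⊕ α)} {e₁ e₂ : Bool × ℕ × ℕ → α}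
    {u₁ u η nT : ℕ} {F : ℕ → ℕ} {a n : ℕ} {el : SegR n → ℕ → α} {S Q : Set α}
    {ends : α → Sym2 (Nd (WV n) (SegR n))} {BQ Bd : Finset (SegR n)} {τ : ℕ → ℕ × ℕ} {m : ℕ}
    {R : ℕ → SegR n} {q : ℕ → ℕ → ℕ} {G : ℕ → ℕ → Prop} {P : Finset ℕ}
    (hg : GSide M (Seg w) L₁ f₁ e₁ u₁)
    (h : Base M w s 𝒯 L₁ L₂ e₂ u η nT F a n el S Q ends BQ Bd τ m R q G P) :
    LocB M (inW L₁ a n) el S ends (BQ : Set (SegR n)) (crr L₁ (Seg w)) where
  row := h.row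
  SE := by
    intro e he
    by_cases h1 : Rung L₁ a n el e
    · obtain ⟨-, r, p, r', p', h2, -, h3, h4, -, -, h5⟩ := h.rung e he h1
      have h6 : (inW L₁ a n).nd r p ∉ rowV (inW L₁ a n) BQ := nd_inner_off h3 h4 (by simpa using h2)
      exact (h.frmQ.sub ⟨he, _, by rw [h5]; simp, h6⟩).1
    · unfold Rung at h1
      push Not at h1
      obtain ⟨r, p, h2, rfl⟩ := h1
      refine hg.sub_ground ⟨shS a a r.1, shS_mem (by omega) h.wall.2.2.1 h.wall.2.2.1 r.2, ?_⟩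
      rw [h.el_eq r p h2]
      exact List.getElem_mem _
  rowRa := by
    rintro e ⟨r, -, p, h2, rfl⟩
    refine ⟨shS a a r.1, shS_mem (by omega) h.wall.2.2.1 h.wall.2.2.1 r.2, ?_⟩
    rw [h.el_eq r p h2]
    exact List.getElem_mem _
  RaE := hg.sub_ground
  loc := fun r hr => h.loc r (by simpa using hr)

end TSH
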