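import Pool.Agent.TST.Lab
import Pool.Agent.TST.Hub

/-!
# The quotient of the hub host (row HB of T-star)

The sheet `s₀` has the `K` columns next to the hub, the sheet `s₁` consists of the strands of the hub.
A big window has `2 K ^ 2` fine windows, the fine window `p` belongs to the column `asg K p`; the
nodes of the hub in this window are merged with the column.
-/

open Set Relation
open scoped Matroid

namespace TST

open BIC Gad EN BICS Mdl

/-! ### the assignment -/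

/-- the column which owns the fine window `p` -/
def asg (K p : ℕ) : ℕ := if p % 2 = 0 then p / 2 / K else p / 2 % K

lemma asg_lt {K p : ℕ} (h : p < 2 * K * K) : asg K p < K := by
  have hK : 0 < K := by
    rcases Nat.eq_zero_or_pos K with rfl | h1
    · simp at h
    · exact h1
  unfold asg
  split_ifs
  · rw [Nat.div_lt_iff_lt_mul hK]
    have : 2 * K * K = 2 * (K * K) := by ring
    omega
  · exact Nat.mod_lt _ hK

lemma asg_pair {K i j : ℕ} (hi : i < K) (hj : j < K) :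
    ∃ p, p + 1 < 2 * K * K ∧ asg K p = i ∧ asg K (p + 1) = j := by
  refine ⟨2 * (i * K + j), ?_, ?_, ?_⟩
  · have h1 : (i + 1) * K ≤ K * K := Nat.mul_le_mul_right _ hi
    have h2 : (i + 1) * K = i * K + K := by ring
    have h3 : 2 * K * K = 2 * (K * K) := by ring
    omega
  · unfold asg
    rw [if_pos (by omega)]
    have h1 : 2 * (i * K + j) / 2 = j + i * K := by omega
    rw [h1, Nat.add_mul_div_right _ _ (by omega), Nat.div_eq_of_lt hj]
    omega
  · unfold asg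
    rw [if_neg (by omega)]
    have h1 : (2 * (i * K + j) + 1) / 2 = j + i * K := by omega
    rw [h1, Nat.add_mul_mod_self_right, Nat.mod_eq_of_lt hj]

/-- big window of the fine window `b /= 0` -/
def bgw (l : ℕ) (b : ℤ) : ℤ :=
  if 0 < b then (((b.natAbs - 1) / l + 1 : ℕ) : ℤ) else -(((b.natAbs - 1) / l + 1 : ℕ) : ℤ)

/-- position of the fine window `b` in its big window -/
def psw (l : ℕ) (b : ℤ) : ℕ := (b.natAbs - 1) % l

/-- fine window number `p` of the big window `ε Y` -/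
def fw (l : ℕ) (ε : ℤ) (Y p : ℕ) : ℤ := ε * (((Y - 1) * l + p + 1 : ℕ) : ℤ)

section

variable {l : ℕ} {ε : ℤ} {Y p : ℕ}

lemma fw_natAbs (hε : ε = 1 ∨ ε = -1) : (fw l ε Y p).natAbs = (Y - 1) * l + p + 1 := by
  unfold fw
  rcases hε with rfl | rfl
  · rw [one_mul, Int.natAbs_natCast]
  · rw [neg_one_mul, Int.natAbs_neg, Int.natAbs_natCast]

lemma fw_ne (hε : ε = 1 ∨ ε = -1) : fw l ε Y p ≠ 0 := by
  intro h
  have h1 := fw_natAbs (l := l) (Y := Y) (p := p) hε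
  rw [h] at h1
  simp at h1

lemma psw_fw (hε : ε = 1 ∨ ε = -1) (hp : p < l) : psw l (fw l ε Y p) = p := by
  unfold psw
  rw [fw_natAbs hε]
  have h1 : (Y - 1) * l + p + 1 - 1 = p + (Y - 1) * l := by omega
  rw [h1, Nat.add_mul_mod_self_right, Nat.mod_eq_of_lt hp]

lemma bgw_fw (hε : ε = 1 ∨ ε = -1) (hY : 1 ≤ Y) (hp : p < l) : bgw l (fw l ε Y p) = ε * Y := by
  have h0 : ((fw l ε Y p).natAbs - 1) / l + 1 = Y := by
    rw [fw_natAbs hε]
    have h1 : (Y - 1) * l + p + 1 - 1 = p + (Y - 1) * l := by omega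
    rw [h1, Nat.add_mul_div_right _ _ (by omega), Nat.div_eq_of_lt hp]
    omega
  unfold bgw
  rw [h0]
  have h1 : fw l ε Y p = ε * (((Y - 1) * l + p + 1 : ℕ) : ℤ) := rfl
  rcases hε with rfl | rfl
  · rw [one_mul] at h1
    rw [if_pos (by omega), one_mul]
  · rw [neg_one_mul] at h1
    rw [if_neg (by omega), neg_one_mul]

/-- every window is a fine window of its big window -/
lemma exists_fw (hl : 0 < l) {b : ℤ} (hb : b ≠ 0) {N' : ℕ} (hN : b.natAbs ≤ l * N') :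
    ∃ (ε : ℤ) (Y p : ℕ), (ε = 1 ∨ ε = -1) ∧ 1 ≤ Y ∧ Y ≤ N' ∧ p < l ∧ b = fw l ε Y p := by
  refine ⟨if 0 < b then 1 else -1, (b.natAbs - 1) / l + 1, (b.natAbs - 1) % l, ?_,
    Nat.le_add_left _ _, ?_, Nat.mod_lt _ hl, ?_⟩
  · split_ifs
    · exact Or.inl rfl
    · exact Or.inr rfl
  · have h1 : b.natAbs - 1 < l * N' := by omega
    exact Nat.div_lt_of_lt_mul h1
  · unfold fw
    have h1 : ((b.natAbs - 1) / l + 1 - 1) * l + (b.natAbs - 1) % l + 1 = b.natAbs := by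
      have := Nat.div_add_mod (b.natAbs - 1) l
      have h2 : ((b.natAbs - 1) / l + 1 - 1) * l = l * ((b.natAbs - 1) / l) := by
        rw [Nat.add_sub_cancel, mul_comm]
      omega
    rw [h1]
    split_ifs <;> omega

lemma fw_bound (hε : ε = 1 ∨ ε = -1) {N' : ℕ} (hY : 1 ≤ Y) (hY' : Y ≤ N') (hp : p < l) :
    (fw l ε Y p).natAbs ≤ l * N' := by
  rw [fw_natAbs hε]
  have h1 : (Y - 1 + 1) * l ≤ N' * l := Nat.mul_le_mul_right _ (by omega)
  have h2 : (Y - 1 + 1) * l = (Y - 1) * l + l := by ring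
  rw [mul_comm N' l] at h1
  omega

end

/-! ### the map -/

section map

variable {V σ : Type*}

open Classical in
/-- the quotient map of the hub host -/
noncomputable def hq (s₀ s₁ : σ) (K K₁ N N' : ℕ) (m : ℕ → ℕ) : HV V σ → Option (HV Empty Unit)
  | Sum.inl _ => none
  | Sum.inr (s, c, b) =>
    if s = s₀ then
      (if c < K then
        (if b = 0 then some (Sum.inr ((), c, 0))
        else if b.natAbs ≤ N then some (Sum.inr ((), c, bgw (2 * K * K) b))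
        else if (N : ℤ) < b ∧ b ≤ N + m c then some (Sum.inr ((), c, b - N + N'))
        else none)
      else none)
    else if s = s₁ ∧ c < K₁ ∧ b ≠ 0 ∧ b.natAbs ≤ N then
      some (Sum.inr ((), asg K (psw (2 * K * K) b), bgw (2 * K * K) b))
    else none

variable {s₀ s₁ : σ} {K K₁ N N' : ℕ} {m : ℕ → ℕ}

lemma hq_zero {c : ℕ} (hc : c < K) :
    hq (V := V) s₀ s₁ K K₁ N N' m (Sum.inr (s₀, c, 0)) = some (Sum.inr ((), c, 0)) := by
  unfold hq
  dsimp only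
  rw [if_pos rfl, if_pos hc, if_pos rfl]

lemma hq_mid {c : ℕ} (hc : c < K) {b : ℤ} (h1 : (N : ℤ) < b) (h2 : b ≤ N + m c) :
    hq (V := V) s₀ s₁ K K₁ N N' m (Sum.inr (s₀, c, b)) = some (Sum.inr ((), c, b - N + N')) := by
  unfold hq
  dsimp only
  rw [if_pos rfl, if_pos hc, if_neg (by omega), if_neg (by omega), if_pos ⟨h1, h2⟩]

lemma hq_col (hN : N = 2 * K * K * N') {c : ℕ} (hc : c < K) {ε : ℤ} {Y p : ℕ}
    (hε : ε = 1 ∨ ε = -1) (hY : 1 ≤ Y) (hY' : Y ≤ N') (hp : p < 2 * K * K) :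
    hq (V := V) s₀ s₁ K K₁ N N' m (Sum.inr (s₀, c, fw (2 * K * K) ε Y p)) =
      some (Sum.inr ((), c, ε * Y)) := by
  have h1 := fw_bound (l := 2 * K * K) hε hY hY' hp
  unfold hq
  dsimp only
  rw [if_pos rfl, if_pos hc, if_neg (fw_ne hε), if_pos (by omega), bgw_fw hε hY hp]

lemma hq_hub (hs : s₁ ≠ s₀) (hN : N = 2 * K * K * N') {j : ℕ} (hj : j < K₁) {ε : ℤ} {Y p : ℕ}
    (hε : ε = 1 ∨ ε = -1) (hY : 1 ≤ Y) (hY' : Y ≤ N') (hp : p < 2 * K * K) :
    hq (V := V) s₀ s₁ K K₁ N N' m (Sum.inr (s₁, j, fw (2 * K * K) ε Y p)) =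
      some (Sum.inr ((), asg K p, ε * Y)) := by
  have h1 := fw_bound (l := 2 * K * K) hε hY hY' hp
  unfold hq
  dsimp only
  rw [if_neg hs, if_pos ⟨rfl, hj, fw_ne hε, by omega⟩, psw_fw hε hp, bgw_fw hε hY hp]

/-- the four kinds of vertices -/
lemma hq_some (hl : 0 < 2 * K * K) (hN : N = 2 * K * K * N') {v : HV V σ} {P : HV Empty Unit}
    (h : hq s₀ s₁ K K₁ N N' m v = some P) :
    (∃ c < K, v = Sum.inr (s₀, c, 0) ∧ P = Sum.inr ((), c, 0)) ∨
    (∃ c < K, ∃ b : ℤ, (N : ℤ) < b ∧ b ≤ N + m c ∧ v = Sum.inr (s₀, c, b) ∧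
      P = Sum.inr ((), c, b - N + N')) ∨
    (∃ c < K, ∃ (ε : ℤ) (Y p : ℕ), (ε = 1 ∨ ε = -1) ∧ 1 ≤ Y ∧ Y ≤ N' ∧ p < 2 * K * K ∧
      v = Sum.inr (s₀, c, fw (2 * K * K) ε Y p) ∧ P = Sum.inr ((), c, ε * Y)) ∨
    (∃ j < K₁, ∃ (ε : ℤ) (Y p : ℕ), (ε = 1 ∨ ε = -1) ∧ 1 ≤ Y ∧ Y ≤ N' ∧ p < 2 * K * K ∧
      v = Sum.inr (s₁, j, fw (2 * K * K) ε Y p) ∧ P = Sum.inr ((), asg K p, ε * Y)) := by
  rcases v with v | ⟨s, c, b⟩
  · simp [hq] at h
  · unfold hq at h
    dsimp only at h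
    split_ifs at h with h1 h2 h3 h4 h5 h6
    · subst h1 h3
      exact Or.inl ⟨c, h2, rfl, (Option.some.inj h).symm⟩
    · subst h1
      obtain ⟨ε, Y, p, e1, e2, e3, e4, rfl⟩ := exists_fw hl h3 (N' := N') (by omega)
      refine Or.inr (Or.inr (Or.inl ⟨c, h2, ε, Y, p, e1, e2, e3, e4, rfl, ?_⟩))
      rw [← Option.some.inj h, bgw_fw e1 e2 e4]
    · subst h1
      exact Or.inr (Or.inl ⟨c, h2, b, h5.1, h5.2, rfl, (Option.some.inj h).symm⟩)
    · obtain ⟨rfl, h7, h8, h9⟩ := h6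
      obtain ⟨ε, Y, p, e1, e2, e3, e4, rfl⟩ := exists_fw hl h8 (N' := N') (by omega)
      refine Or.inr (Or.inr (Or.inr ⟨c, h7, ε, Y, p, e1, e2, e3, e4, rfl, ?_⟩))
      rw [← Option.some.inj h, psw_fw e1 e4, bgw_fw e1 e2 e4]

lemma hq_finite (P : HV Empty Unit) : (prt (hq (V := V) s₀ s₁ K K₁ N N' m) P).Finite := by
  classical
  have h1 : (((({s₀, s₁} : Set σ) ×ˢ (Set.Iio (max K K₁) ×ˢ Set.Icc (-(N : ℤ))
      (N + (Finset.range K).sup m))) : Set (σ × ℕ × ℤ))).Finite :=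
    (Set.toFinite _).prod ((Set.finite_Iio _).prod (Set.finite_Icc _ _))
  refine (h1.image (Sum.inr : σ × ℕ × ℤ → HV V σ)).subset ?_
  rintro v hv
  have hv' : hq s₀ s₁ K K₁ N N' m v = some P := hv
  rcases v with v | ⟨s, c, b⟩
  · simp [hq] at hv'
  · refine ⟨(s, c, b), ?_, rfl⟩
    unfold hq at hv'
    dsimp only at hv'
    simp only [mem_prod, mem_insert_iff, mem_singleton_iff, mem_Iio, mem_Icc]
    split_ifs at hv' with h1 h2 h3 h4 h5 h6
    · refine ⟨Or.inl h1, by omega, by omega, by omega⟩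
    · refine ⟨Or.inl h1, by omega, by omega, by omega⟩
    · have h6 : m c ≤ (Finset.range K).sup m := Finset.le_sup (Finset.mem_range.2 h2)
      refine ⟨Or.inl h1, by omega, by omega, by omega⟩
    · refine ⟨Or.inr h6.1, by omega, by omega, by omega⟩

end map

end TST
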