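import Pool.Agent.TST.HubHost

/-!
# The hub of T-star is skew to all other rows (for `hX` of `SG.hub_host`)

`LocB`: star rule at the inner nodes of the rows outside of `BQ`, over all rows `Ra` of the wall.
-/

set_option autoImplicit false

open Set Relation
open scoped Matroid

namespace TST

open BIC Gad EN BICS Mdl

universe u

variable {α : Type u} {X₀ β : Type}

/-- **Locations at inner nodes** over all rows `Ra`. -/
structure LocB (M : Matroid α) (W : RW X₀ β) (el : β → ℕ → α) (S : Set α)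
    (ends : α → Sym2 (Nd X₀ β)) (BQ : Set β) (Ra : Set α) : Prop where
  row : RowIn W S ends el
  SE : S ⊆ M.E
  rowRa : rowE W el univ ⊆ Ra
  RaE : Ra ⊆ M.E
  loc : ∀ r ∉ BQ, ∀ p, 0 < p → p < W.len r → ∀ e ∈ S,
    (W.nd r p ∈ ends e ↔ e ∉ M.closure (Ra \ {el r (p - 1), el r p}))

lemma hx_exch {M : Matroid α} {H X : Set α} {e f : α} (hX : X ⊆ M.closure H)
    (hf : f ∈ M.closure H) (he : e ∉ M.closure H) (h : f ∈ M.closure (insert e X)) :
    f ∈ M.closure X := by
  by_contra hcon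
  have h1 := M.closure_exchange ⟨h, hcon⟩
  refine he ?_
  have h2 : M.closure (insert f X) ⊆ M.closure (M.closure H) :=
    M.closure_subset_closure (insert_subset hf hX)
  rw [Matroid.closure_closure] at h2
  exact h2 h1.1

section loc

variable {M : Matroid α} {W : RW X₀ β} {el : β → ℕ → α} {S : Set α} {ends : α → Sym2 (Nd X₀ β)}
  {BQ : Set β} {Ra : Set α}

lemma LocB.el_Ra (h : LocB M W el S ends BQ Ra) {r : β} {k : ℕ} (hk : k < W.len r) :
    el r k ∈ Ra := h.rowRa ⟨r, mem_univ _, k, hk, rfl⟩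

lemma LocB.el_ne (h : LocB M W el S ends BQ Ra) {r r' : β} {k k' : ℕ} (hk : k < W.len r)
    (hk' : k' < W.len r') (hne : r ≠ r' ∨ k ≠ k') : el r k ≠ el r' k' := by
  intro he
  obtain ⟨h1, h2⟩ := h.row.inj r k r' k' hk hk' he
  rcases hne with h3 | h3
  · exact h3 h1
  · exact h3 h2

/-- elements of `Ra` which are not at the node -/
lemma LocB.mem_H (h : LocB M W el S ends BQ Ra) {r : β} {p : ℕ} {e : α} (he : e ∈ Ra)
    (h1 : e ≠ el r (p - 1)) (h2 : e ≠ el r p) :
    e ∈ M.closure (Ra \ {el r (p - 1), el r p}) := by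
  refine M.subset_closure _ (sdiff_subset.trans h.RaE) ⟨he, ?_⟩
  rintro (h3 | h3)
  · exact h1 h3
  · exact h2 h3

lemma LocB.notMem_H (h : LocB M W el S ends BQ Ra) {r : β} (hr : r ∉ BQ) {p : ℕ} (h0 : 0 < p)
    (hp : p < W.len r) {k : ℕ} (hk : k = p ∨ k + 1 = p) :
    el r k ∉ M.closure (Ra \ {el r (p - 1), el r p}) := by
  have hk' : k < W.len r := by omega
  refine (h.loc r hr p h0 hp (el r k) (h.row.mem r k hk')).1 ?_
  rw [h.row.ends r k hk', Sym2.mem_iff]
  rcases hk with rfl | rfl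
  · exact Or.inl rfl
  · exact Or.inr rfl

/-- **Star rule at an interval of nodes.** -/
theorem LocB.interval (h : LocB M W el S ends BQ Ra) {r : β} (hr : r ∉ BQ) {lo hi p₀ : ℕ}
    (h1 : lo < p₀) (h2 : p₀ ≤ hi) (h3 : hi < W.len r) {f : α} (hf : f ∈ S)
    (hfp : W.nd r p₀ ∈ ends f) (hfo : ∀ p, lo < p → p ≤ hi → W.nd r p ∈ ends f → p = p₀)
    {A : Set α} (hA0 : ∀ e ∈ A, e ∈ Ra ∨ e ∈ S) (hA1 : ∀ e ∈ A, ∀ k, lo ≤ k → k ≤ hi → e ≠ el r k)
    (hA2 : ∀ e ∈ A, e ∈ S → ∀ p, lo < p → p ≤ hi → W.nd r p ∉ ends e) :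
    f ∉ M.closure (A ∪ {e | ∃ k, lo < k ∧ k < hi ∧ el r k = e}) := by
  intro hcl
  have hAH : ∀ p, lo < p → p ≤ hi → A ⊆ M.closure (Ra \ {el r (p - 1), el r p}) := by
    intro p g1 g2 e he
    rcases hA0 e he with h4 | h4
    · exact h.mem_H h4 (hA1 e he _ (by omega) (by omega)) (hA1 e he _ (by omega) (by omega))
    · by_contra hcon
      exact hA2 e he h4 p g1 g2 ((h.loc r hr p (by omega) (by omega) e h4).2 hcon)
  have hfH : ∀ p, lo < p → p ≤ hi → p ≠ p₀ → f ∈ M.closure (Ra \ {el r (p - 1), el r p}) := by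
    intro p g1 g2 g3
    by_contra hcon
    exact g3 (hfo p g1 g2 ((h.loc r hr p (by omega) (by omega) f hf).2 hcon))
  have hkH : ∀ p k, k < W.len r → 0 < p → p < W.len r → k ≠ p → k ≠ p - 1 →
      el r k ∈ M.closure (Ra \ {el r (p - 1), el r p}) := by
    intro p k g1 g2 g3 g4 g5
    exact h.mem_H (h.el_Ra g1) (h.el_ne g1 (by omega) (Or.inr g5)) (h.el_ne g1 g3 (Or.inr g4))
  -- from above
  have hD : ∀ j, p₀ + j ≤ hi →
      f ∈ M.closure (A ∪ {e | ∃ k, lo < k ∧ k < hi - j ∧ el r k = e}) := by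
    intro j
    induction j with
    | zero => exact fun _ => hcl
    | succ j ih =>
      intro hj
      have h4 := ih (by omega)
      have h5 : A ∪ {e | ∃ k, lo < k ∧ k < hi - j ∧ el r k = e} =
          insert (el r (hi - j - 1)) (A ∪ {e | ∃ k, lo < k ∧ k < hi - (j + 1) ∧ el r k = e}) := by
        ext e
        constructor
        · rintro (he | ⟨k, g1, g2, rfl⟩)
          · exact Or.inr (Or.inl he)
          · by_cases hk : k = hi - j - 1
            · exact Or.inl (by rw [hk])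
            · exact Or.inr (Or.inr ⟨k, g1, by omega, rfl⟩)
        · rintro (rfl | he | ⟨k, g1, g2, rfl⟩)
          · exact Or.inr ⟨_, by omega, by omega, rfl⟩
          · exact Or.inl he
          · exact Or.inr ⟨k, g1, by omega, rfl⟩
      rw [h5] at h4
      refine hx_exch (H := Ra \ {el r (hi - j - 1), el r (hi - j)}) ?_
        (hfH (hi - j) (by omega) (by omega) (by omega))
        (h.notMem_H hr (by omega) (by omega) (Or.inr (by omega))) h4
      rintro e (he | ⟨k, g1, g2, rfl⟩)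
      · exact hAH (hi - j) (by omega) (by omega) he
      · exact hkH (hi - j) k (by omega) (by omega) (by omega) (by omega) (by omega)
  have hU : ∀ j, lo + 1 + j ≤ p₀ →
      f ∈ M.closure (A ∪ {e | ∃ k, lo + 1 + j ≤ k ∧ k < p₀ ∧ el r k = e}) := by
    intro j
    induction j with
    | zero =>
      intro _
      have h4 := hD (hi - p₀) (by omega)
      have h5 : hi - (hi - p₀) = p₀ := by omega
      rw [h5] at h4
      have h6 : {e | ∃ k, lo + 1 + 0 ≤ k ∧ k < p₀ ∧ el r k = e} =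
          {e | ∃ k, lo < k ∧ k < p₀ ∧ el r k = e} := by
        ext e
        constructor
        · rintro ⟨k, g1, g2, g3⟩
          exact ⟨k, by omega, g2, g3⟩
        · rintro ⟨k, g1, g2, g3⟩
          exact ⟨k, by omega, g2, g3⟩
      rw [h6]
      exact h4
    | succ j ih =>
      intro hj
      have h4 := ih (by omega)
      have h5 : A ∪ {e | ∃ k, lo + 1 + j ≤ k ∧ k < p₀ ∧ el r k = e} =
          insert (el r (lo + 1 + j)) (A ∪ {e | ∃ k, lo + 1 + (j + 1) ≤ k ∧ k < p₀ ∧ el r k = e}) := by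
        ext e
        constructor
        · rintro (he | ⟨k, g1, g2, rfl⟩)
          · exact Or.inr (Or.inl he)
          · by_cases hk : k = lo + 1 + j
            · exact Or.inl (by rw [hk])
            · exact Or.inr (Or.inr ⟨k, by omega, g2, rfl⟩)
        · rintro (rfl | he | ⟨k, g1, g2, rfl⟩)
          · exact Or.inr ⟨_, le_rfl, by omega, rfl⟩
          · exact Or.inl he
          · exact Or.inr ⟨k, by omega, g2, rfl⟩
      rw [h5] at h4
      refine hx_exch (H := Ra \ {el r (lo + 1 + j - 1), el r (lo + 1 + j)}) ?_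
        (hfH (lo + 1 + j) (by omega) (by omega) (by omega))
        (h.notMem_H hr (by omega) (by omega) (Or.inl rfl)) h4
      rintro e (he | ⟨k, g1, g2, rfl⟩)
      · exact hAH (lo + 1 + j) (by omega) (by omega) he
      · exact hkH (lo + 1 + j) k (by omega) (by omega) (by omega) (by omega) (by omega)
  have h4 := hU (p₀ - (lo + 1)) (by omega)
  have h5 : A ∪ {e | ∃ k, lo + 1 + (p₀ - (lo + 1)) ≤ k ∧ k < p₀ ∧ el r k = e} = A := by
    ext e
    constructor
    · rintro (he | ⟨k, g1, g2, -⟩)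
      · exact he
      · omega
    · exact fun he => Or.inl he
  rw [h5] at h4
  refine (h.loc r hr p₀ (by omega) (by omega) f hf).1 hfp ?_
  have h6 : M.closure A ⊆ M.closure (M.closure (Ra \ {el r (p₀ - 1), el r p₀})) :=
    M.closure_subset_closure (hAH p₀ h1 h2)
  rw [Matroid.closure_closure] at h6
  exact h6 h4

/-- **Star rule at a label** (class between two kept positions `lo < hi`): all rows without the two
kept elements, and everything in `S` which avoids the class. -/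
theorem LocB.star_int (h : LocB M W el S ends BQ Ra) {r : β} (hr : r ∉ BQ) {lo hi p₀ : ℕ}
    (h1 : lo < p₀) (h2 : p₀ ≤ hi) (h3 : hi < W.len r) {f : α} (hf : f ∈ S)
    (hfp : W.nd r p₀ ∈ ends f) (hfo : ∀ p, lo < p → p ≤ hi → W.nd r p ∈ ends f → p = p₀) :
    f ∉ M.closure ((Ra \ {el r lo, el r hi}) ∪
      {e | e ∈ S ∧ ∀ p, lo < p → p ≤ hi → W.nd r p ∉ ends e}) := by
  intro hcl
  refine h.interval hr h1 h2 h3 hf hfp hfo (A := (Ra \ {e | ∃ k, lo ≤ k ∧ k ≤ hi ∧ el r k = e}) ∪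
    {e | e ∈ S ∧ ∀ p, lo < p → p ≤ hi → W.nd r p ∉ ends e}) ?_ ?_ ?_
    (M.closure_subset_closure ?_ hcl)
  · rintro e (he | he)
    · exact Or.inl he.1
    · exact Or.inr he.1
  · rintro e (he | he) k g1 g2 rfl
    · exact he.2 ⟨k, g1, g2, rfl⟩
    · have hk : k < W.len r := by omega
      rcases g1.lt_or_eq with g3 | rfl
      · exact he.2 k g3 g2 (by rw [h.row.ends r k hk]; simp)
      · exact he.2 (lo + 1) (by omega) (by omega) (by rw [h.row.ends r lo hk]; simp)
  · rintro e (he | he) heS p g1 g2 hp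
    · refine (h.loc r hr p (by omega) (by omega) e heS).1 hp ?_
      refine h.mem_H he.1 ?_ ?_
      · rintro rfl
        exact he.2 ⟨p - 1, by omega, by omega, rfl⟩
      · rintro rfl
        exact he.2 ⟨p, by omega, by omega, rfl⟩
    · exact he.2 p g1 g2 hp
  · rintro e (he | he)
    · by_cases h4 : ∃ k, lo ≤ k ∧ k ≤ hi ∧ el r k = e
      · right
        obtain ⟨k, g1, g2, rfl⟩ := h4
        refine ⟨k, ?_, ?_, rfl⟩
        · rcases g1.lt_or_eq with g3 | rfl
          · exact g3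
          · exact absurd (Or.inl rfl) he.2
        · rcases g2.lt_or_eq with g3 | rfl
          · exact g3
          · exact absurd (Or.inr rfl) he.2
      · exact Or.inl (Or.inl ⟨he.1, h4⟩)
    · exact Or.inl (Or.inr he)

lemma hx_rk_ins [M.Finite] {X : Set α} {x : α} (hxE : x ∈ M.E) (hx : x ∉ M.closure X) :
    BIC.rk M (insert x X) = BIC.rk M X + 1 := by
  have h1 := M.eRk_insert_eq_add_one (e := x) (X := X) ⟨hxE, hx⟩
  rw [← cast_rk, ← cast_rk] at h1
  exact_mod_cast h1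

/-- **Positions of some rows, not all of one row, are skew to everything else.** -/
theorem LocB.pos_skew [M.Finite] (h : LocB M W el S ends BQ Ra) {B : Set α} (hB : B ⊆ Ra) :
    ∀ P : Finset (β × ℕ), (∀ x ∈ P, x.1 ∉ BQ ∧ x.2 < W.len x.1 ∧
      (∃ k < W.len x.1, (x.1, k) ∉ P) ∧ ∀ k < W.len x.1, el x.1 k ∉ B) →
      BIC.rk M (B ∪ {e | ∃ x ∈ P, el x.1 x.2 = e}) = BIC.rk M B + P.card := by
  classical
  intro P
  induction hn : P.card generalizing P with
  | zero =>
    intro _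
    rw [Finset.card_eq_zero] at hn
    subst hn
    have h1 : B ∪ {e | ∃ x ∈ (∅ : Finset (β × ℕ)), el x.1 x.2 = e} = B := by
      ext e
      simp
    rw [h1, add_zero]
  | succ n ih =>
    intro hP
    obtain ⟨x₀, hx₀⟩ : P.Nonempty := by
      rw [← Finset.card_pos]
      omega
    obtain ⟨g1, g2, ⟨k₁, g3, g4⟩, g5⟩ := hP x₀ hx₀
    -- a position next to a gap
    obtain ⟨k, j, hk, hj, hkP, hjP, hkj⟩ : ∃ k j, k < W.len x₀.1 ∧ j < W.len x₀.1 ∧ (x₀.1, k) ∈ P ∧
        (x₀.1, j) ∉ P ∧ (j = k + 1 ∨ k = j + 1) := by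
      rcases lt_trichotomy x₀.2 k₁ with h1 | h1 | h1
      · -- last position of `P` before `k₁`
        have key : ∀ d k, x₀.2 = k → k + d = k₁ → ∃ k j, k < W.len x₀.1 ∧ j < W.len x₀.1 ∧
            (x₀.1, k) ∈ P ∧ (x₀.1, j) ∉ P ∧ (j = k + 1 ∨ k = j + 1) := by
          have key2 : ∀ d k, (x₀.1, k) ∈ P → k + d = k₁ → ∃ k j, k < W.len x₀.1 ∧ j < W.len x₀.1 ∧
            (x₀.1, k) ∈ P ∧ (x₀.1, j) ∉ P ∧ (j = k + 1 ∨ k = j + 1) := by
            intro d
            induction d with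
            | zero =>
              intro k h2 h3
              rw [add_zero] at h3
              rw [h3] at h2
              exact absurd h2 g4
            | succ d ih =>
              intro k h2 h3
              by_cases h4 : (x₀.1, k + 1) ∈ P
              · exact ih (k + 1) h4 (by omega)
              · exact ⟨k, k + 1, by omega, by omega, h2, h4, Or.inl rfl⟩
          intro d k h2 h3
          refine key2 d k ?_ h3
          rw [← h2]
          exact hx₀
        exact key (k₁ - x₀.2) x₀.2 rfl (by omega)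
      · exfalso
        apply g4
        rw [← h1]
        exact hx₀
      · have key2 : ∀ d k, (x₀.1, k) ∈ P → k < W.len x₀.1 → k₁ + d = k → ∃ k j, k < W.len x₀.1 ∧
            j < W.len x₀.1 ∧ (x₀.1, k) ∈ P ∧ (x₀.1, j) ∉ P ∧ (j = k + 1 ∨ k = j + 1) := by
          intro d
          induction d with
          | zero =>
            intro k h2 _ h3
            rw [add_zero] at h3
            rw [← h3] at h2
            exact absurd h2 g4
          | succ d ih =>
            intro k h2 h5 h3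
            by_cases h4 : (x₀.1, k - 1) ∈ P
            · exact ih (k - 1) h4 (by omega) (by omega)
            · exact ⟨k, k - 1, h5, by omega, h2, h4, Or.inr (by omega)⟩
        exact key2 (x₀.2 - k₁) x₀.2 hx₀ g2 (by omega)
    have hcard : (P.erase (x₀.1, k)).card = n := by
      rw [Finset.card_erase_of_mem hkP]
      omega
    have h6 := ih (P.erase (x₀.1, k)) hcard (by
      intro x hx
      have hx' := Finset.mem_of_mem_erase hx
      obtain ⟨c1, c2, ⟨c3, c4, c5⟩, c6⟩ := hP x hx'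
      exact ⟨c1, c2, ⟨c3, c4, fun hc => c5 (Finset.mem_of_mem_erase hc)⟩, c6⟩)
    have h7 : B ∪ {e | ∃ x ∈ P, el x.1 x.2 = e} =
        insert (el x₀.1 k) (B ∪ {e | ∃ x ∈ P.erase (x₀.1, k), el x.1 x.2 = e}) := by
      ext e
      constructor
      · rintro (he | ⟨x, hx, rfl⟩)
        · exact Or.inr (Or.inl he)
        · by_cases hxk : x = (x₀.1, k)
          · left
            rw [hxk]
          · exact Or.inr (Or.inr ⟨x, Finset.mem_erase.2 ⟨hxk, hx⟩, rfl⟩)
      · rintro (rfl | he | ⟨x, hx, rfl⟩)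
        · exact Or.inr ⟨_, hkP, rfl⟩
        · exact Or.inl he
        · exact Or.inr ⟨x, Finset.mem_of_mem_erase hx, rfl⟩
    -- the set avoids the node between `k` and `j`
    have h8 : el x₀.1 k ∉ M.closure (B ∪ {e | ∃ x ∈ P.erase (x₀.1, k), el x.1 x.2 = e}) := by
      have key : ∀ e ∈ B ∪ {e | ∃ x ∈ P.erase (x₀.1, k), el x.1 x.2 = e},
          e ∈ Ra ∧ e ≠ el x₀.1 k ∧ e ≠ el x₀.1 j := by
        rintro e (he | ⟨x, hx, rfl⟩)
        · refine ⟨hB he, ?_, ?_⟩
          · rintro rfl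
            exact g5 k hk he
          · rintro rfl
            exact g5 j hj he
        · have hx' := Finset.mem_of_mem_erase hx
          have hx2 := (hP x hx').2.1
          refine ⟨h.el_Ra hx2, ?_, ?_⟩
          · intro he
            obtain ⟨c1, c2⟩ := h.row.inj _ _ _ _ hx2 hk he
            exact (Finset.mem_erase.1 hx).1 (Prod.ext c1 c2)
          · intro he
            obtain ⟨c1, c2⟩ := h.row.inj _ _ _ _ hx2 hj he
            apply hjP
            rw [← c1, ← c2]
            exact hx'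
      rcases hkj with rfl | rfl
      · intro hcl
        refine h.notMem_H g1 (p := k + 1) (by omega) hj (Or.inr rfl)
          (M.closure_subset_closure ?_ hcl)
        intro e he
        obtain ⟨c1, c2, c3⟩ := key e he
        refine ⟨c1, ?_⟩
        rintro (c4 | c4)
        · exact c2 c4
        · exact c3 c4
      · intro hcl
        refine h.notMem_H g1 (p := j + 1) (by omega) hk (Or.inl rfl)
          (M.closure_subset_closure ?_ hcl)
        intro e he
        obtain ⟨c1, c2, c3⟩ := key e he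
        refine ⟨c1, ?_⟩
        rintro (c4 | c4)
        · exact c3 c4
        · exact c2 c4
    rw [h7, hx_rk_ins (h.RaE (h.el_Ra hk)) h8, h6]
    omega

end loc

section hub

variable {M : Matroid α} {W : RW X₀ β} {el : β → ℕ → α} {S : Set α} {ends : α → Sym2 (Nd X₀ β)}
  {BQ : Set β} {Ra : Set α} {σ : Type} {ln : σ → ℕ} {N : ℕ} {K : β → Finset ℕ}
  {T : Strip (W.shrink K) (CI ln) N} {Lm : ℕ} {eL : α → Sym2 (HV (OV X₀ β Lm) σ)} {Rg : Set α}

/-- **What is known about the labels at the base level.** -/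
structure LabB (W : RW X₀ β) (el : β → ℕ → α) (S : Set α) (ends : α → Sym2 (Nd X₀ β)) (BQ : Set β)
    (K : β → Finset ℕ) {ln : σ → ℕ} {N : ℕ} (T : Strip (W.shrink K) (CI ln) N) (Lm : ℕ)
    (eL : α → Sym2 (HV (OV X₀ β Lm) σ)) (Rg : Set α) : Prop where
  K_lt : ∀ r, ∀ x ∈ K r, x < W.len r
  len : ∀ r, 1 ≤ (K r).card ∧ (K r).card ≤ Lm
  colQ : ∀ i, T.R i ∉ BQ
  row : ∀ r k, k < (K r).card → eL (els K el r k) =
    s(lab T Lm ((W.shrink K).nd r k), lab T Lm ((W.shrink K).nd r (k + 1)))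
  rg : ∀ e ∈ Rg, e ∈ S ∧ ∃ (i j : CI ln) (b : ℤ) (p p' : ℕ), i ≠ j ∧ -(N : ℤ) ≤ b ∧ b ≤ N ∧
    b ≠ 0 ∧ ends e = s(W.nd (T.R i) p, W.nd (T.R j) p') ∧ 0 < p ∧ p < W.len (T.R i) ∧ 0 < p' ∧
    p' < W.len (T.R j) ∧ cnt K (T.R i) p = T.idx i b ∧ cnt K (T.R j) p' = T.idx j b ∧
    eL e = s(cv i b, cv j b)

lemma LabB.idx (_h : LabB W el S ends BQ K T Lm eL Rg) (j : CI ln) {b : ℤ} (h1 : -(N : ℤ) ≤ b)
    (h2 : b ≤ N) : 0 < T.idx j b ∧ T.idx j b < (K (T.R j)).card := by
  have h3 := T.idx_range j b h1 (by omega)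
  have h4 := T.pos j
  have h5 := T.lt j
  have h6 : (W.shrink K).len (T.R j) = (K (T.R j)).card := rfl
  omega

lemma hx_kth_lt {r : β} {t : ℕ} (h0 : 0 < t) (ht : t < (K r).card) : kth K r (t - 1) < kth K r t := by
  have h1 := cnt_kth (K := K) (r := r) (k := t) ht
  have h2 := cnt_kth (K := K) (r := r) (k := t - 1) (by omega)
  by_contra hcon
  have h3 := cnt_mono K r (show kth K r t ≤ kth K r (t - 1) by omega)
  omega

/-- the class between two kept positions -/
lemma hx_cls {r : β} {t : ℕ} (h0 : 0 < t) (ht : t < (K r).card) (p : ℕ) :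
    (kth K r (t - 1) < p ∧ p ≤ kth K r t) ↔ cnt K r p = t := by
  have h1 := cnt_kth (K := K) (r := r) (k := t) ht
  have h2 := cnt_kth (K := K) (r := r) (k := t - 1) (by omega)
  have m1 := kth_mem (K := K) (r := r) (k := t) ht
  have m2 := kth_mem (K := K) (r := r) (k := t - 1) (by omega)
  constructor
  · rintro ⟨h3, h4⟩
    have h5 := cnt_succ_of_mem m2
    have h6 := cnt_mono K r (show kth K r (t - 1) + 1 ≤ p by omega)
    have h7 := cnt_mono K r h4
    omega
  · intro h3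
    constructor
    · by_contra hcon
      have h4 := cnt_mono K r (show p ≤ kth K r (t - 1) by omega)
      omega
    · by_contra hcon
      have h5 := cnt_succ_of_mem m1
      have h6 := cnt_mono K r (show kth K r t + 1 ≤ p by omega)
      omega

/-- **Star rule at a label of a column.** -/
theorem LocB.star_lab (hL : LocB M W el S ends BQ Ra) (hB : LabB W el S ends BQ K T Lm eL Rg)
    {j : CI ln} {b : ℤ} (h1 : -(N : ℤ) ≤ b) (h2 : b ≤ N) {f : α}
    (hf : f ∈ Sw (W.shrink K) (els K el) T univ Rg) (hfy : cv j b ∈ eL f) {A : Set α}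
    (hA : ∀ e ∈ A, (e ∈ Ra ∧ ∀ r k, r = T.R j → k < (K r).card → els K el r k ≠ e) ∨
      (e ∈ Sw (W.shrink K) (els K el) T univ Rg ∧ cv j b ∉ eL e)) : f ∉ M.closure A := by
  classical
  obtain ⟨ht0, ht⟩ := hB.idx j h1 h2
  obtain ⟨t, htd⟩ : ∃ t, t = T.idx j b := ⟨_, rfl⟩
  obtain ⟨r, hrd⟩ : ∃ r, r = T.R j := ⟨_, rfl⟩
  rw [← htd, ← hrd] at ht
  rw [← htd] at ht0
  have hrQ : r ∉ BQ := by
    rw [hrd]
    exact hB.colQ j
  have hlh := hx_kth_lt (K := K) (r := r) ht0 ht
  have hhi : kth K r t < W.len r := hB.K_lt r _ (kth_mem ht)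
  have hcl := hx_cls (K := K) (r := r) ht0 ht
  have hy : lab T Lm ((W.shrink K).nd r t) = cv j b := by
    rw [hrd, htd]
    exact lab_nd T j b h1 (by omega)
  -- kept elements of rows
  have hrow : ∀ r' k, k < (K r').card → (cv j b ∈ eL (els K el r' k) ↔ r' = r ∧ (k = t ∨ k + 1 = t)) := by
    intro r' k hk
    rw [hB.row r' k hk, Sym2.mem_iff, ← hy]
    have hlen' : ∀ r, 1 ≤ (W.shrink K).len r ∧ (W.shrink K).len r ≤ Lm := hB.len
    have key : ∀ k', k' ≤ (K r').card → (lab T Lm ((W.shrink K).nd r t) =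
        lab T Lm ((W.shrink K).nd r' k') ↔ r' = r ∧ k' = t) := by
      intro k' hk'
      constructor
      · intro h3
        have h4 := lab_inj T hlen' (show t ≤ (W.shrink K).len r from ht.le)
          (show k' ≤ (W.shrink K).len r' from hk') h3
        rw [RW.nd_mid _ ht0 (show t < (W.shrink K).len r from ht)] at h4
        exact nd_inr h4.symm
      · rintro ⟨rfl, rfl⟩
        rfl
    rw [key k hk.le, key (k + 1) hk]
    constructor
    · rintro (h3 | h3)
      · exact ⟨h3.1, Or.inl h3.2⟩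
      · exact ⟨h3.1, Or.inr h3.2⟩
    · rintro ⟨h3, h4 | h4⟩
      · exact Or.inl ⟨h3, h4⟩
      · exact Or.inr ⟨h3, h4⟩
  -- ends of rungs in the class
  have hrg : ∀ e ∈ Rg, ∀ p, kth K r (t - 1) < p → p ≤ kth K r t → W.nd r p ∈ ends e →
      cv j b ∈ eL e ∧ ∀ p', kth K r (t - 1) < p' → p' ≤ kth K r t → W.nd r p' ∈ ends e → p' = p := by
    intro e he p g1 g2 hp
    obtain ⟨heS, i, i', b', q, q', c1, c2, c3, c4, c5, c6, c7, c8, c9, c10, c11, c12⟩ := hB.rg e he
    have key : ∀ (i : CI ln) (q p : ℕ), 0 < q → q < W.len (T.R i) → cnt K (T.R i) q = T.idx i b' →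
        kth K r (t - 1) < p → p ≤ kth K r t → W.nd r p = W.nd (T.R i) q →
        T.R i = r ∧ q = p ∧ cv (V := OV X₀ β Lm) i b' = cv j b := by
      intro i q p k1 k2 k3 k4 k5 k6
      rw [RW.nd_mid W (by omega) (by omega), RW.nd_mid W k1 k2] at k6
      have k7 := Sum.inr.inj k6
      have k8 : r = T.R i := (Prod.mk.inj k7).1
      have k9 : p = q := (Prod.mk.inj k7).2
      refine ⟨k8.symm, k9.symm, ?_⟩
      rw [← hy, ← lab_nd T i b' c2 (by omega), ← k3, ← k9, ← k8, (hcl p).1 ⟨k4, k5⟩]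
    have hone : ∀ i i' : CI ln, i ≠ i' → cv (V := OV X₀ β Lm) i b' = cv j b →
        cv (V := OV X₀ β Lm) i' b' = cv j b → False := by
      intro i i' k1 k2 k3
      have k4 := k2.trans k3.symm
      unfold cv at k4
      have k5 := Sum.inr.inj k4
      exact k1 (Subtype.ext (Prod.ext (Prod.mk.inj k5).1 (Prod.mk.inj (Prod.mk.inj k5).2).1))
    rw [c5, Sym2.mem_iff] at hp
    rcases hp with hp | hp
    · obtain ⟨k1, k2, k3⟩ := key i q p c6 c7 c10 g1 g2 hp
      refine ⟨?_, ?_⟩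
      · rw [c12, ← k3]
        simp
      · intro p' g1' g2' hp'
        rw [c5, Sym2.mem_iff] at hp'
        rcases hp' with hp' | hp'
        · exact (key i q p' c6 c7 c10 g1' g2' hp').2.1 ▸ k2
        · exact (hone i i' c1 k3 (key i' q' p' c8 c9 c11 g1' g2' hp').2.2).elim
    · obtain ⟨k1, k2, k3⟩ := key i' q' p c8 c9 c11 g1 g2 hp
      refine ⟨?_, ?_⟩
      · rw [c12, ← k3]
        simp
      · intro p' g1' g2' hp'
        rw [c5, Sym2.mem_iff] at hp'
        rcases hp' with hp' | hp'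
        · exact (hone i i' c1 (key i q p' c6 c7 c10 g1' g2' hp').2.2 k3).elim
        · exact (key i' q' p' c8 c9 c11 g1' g2' hp').2.1 ▸ k2
  -- the base node of `f`
  have hfS : f ∈ S ∧ ∃ p₀, kth K r (t - 1) < p₀ ∧ p₀ ≤ kth K r t ∧ W.nd r p₀ ∈ ends f ∧
      ∀ p, kth K r (t - 1) < p → p ≤ kth K r t → W.nd r p ∈ ends f → p = p₀ := by
    have hcase : (∃ r' k, k < (K r').card ∧ els K el r' k = f) ∨ f ∈ Rg := by
      rcases hf with (⟨r', k, hk, -, h3⟩ | ⟨i, k, g1, g2, h3⟩) | h3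
      · exact Or.inl ⟨r', k, hk, h3⟩
      · have h4 := T.lt i
        have h5 : (W.shrink K).len (T.R i) = (K (T.R i)).card := rfl
        exact Or.inl ⟨T.R i, k, by omega, h3⟩
      · exact Or.inr h3
    rcases hcase with ⟨r', k, hk, rfl⟩ | hfR
    · obtain ⟨rfl, h4⟩ := (hrow r' k hk).1 hfy
      have hkl : kth K r' k < W.len r' := hB.K_lt r' _ (kth_mem hk)
      refine ⟨hL.row.mem _ _ hkl, ?_⟩
      have hnd : ∀ a b, a ≤ W.len r' → b ≤ W.len r' → 0 < a → a < W.len r' →
          W.nd r' a = W.nd r' b → a = b := by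
        intro a b _ _ k3 k4 k5
        rw [RW.nd_mid W k3 k4] at k5
        exact (nd_inr k5.symm).2.symm
      have hends := hL.row.ends r' (kth K r' k) hkl
      rcases h4 with rfl | h4
      · refine ⟨kth K r' k, hlh, le_rfl, ?_, ?_⟩
        · show W.nd r' (kth K r' k) ∈ ends (el r' (kth K r' k))
          rw [hends]
          simp
        · intro p g1 g2 hp
          have hp' : W.nd r' p ∈ ends (el r' (kth K r' k)) := hp
          rw [hends, Sym2.mem_iff] at hp'
          rcases hp' with hp' | hp'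
          · exact hnd _ _ (by omega) (by omega) (by omega) (by omega) hp'
          · have := hnd _ _ (by omega) (by omega) (by omega) (by omega) hp'
            omega
      · have hkt : k = t - 1 := by omega
        subst hkt
        refine ⟨kth K r' (t - 1) + 1, by omega, by omega, ?_, ?_⟩
        · show W.nd r' (kth K r' (t - 1) + 1) ∈ ends (el r' (kth K r' (t - 1)))
          rw [hends]
          simp
        · intro p g1 g2 hp
          have hp' : W.nd r' p ∈ ends (el r' (kth K r' (t - 1))) := hp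
          rw [hends, Sym2.mem_iff] at hp'
          rcases hp' with hp' | hp'
          · have := hnd _ _ (by omega) (by omega) (by omega) (by omega) hp'
            omega
          · exact hnd _ _ (by omega) (by omega) (by omega) (by omega) hp'
    · refine ⟨(hB.rg f hfR).1, ?_⟩
      obtain ⟨heS, i, i', b', q, q', c1, c2, c3, c4, c5, c6, c7, c8, c9, c10, c11, c12⟩ :=
        hB.rg f hfR
      have hcv : ∀ i : CI ln, cv (V := OV X₀ β Lm) i b' = cv j b → T.R i = r ∧ T.idx i b' = t := by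
        intro i k2
        have k3 := Sum.inr.inj (show (Sum.inr (i.1.1, i.1.2, b') : HV (OV X₀ β Lm) σ) =
          Sum.inr (j.1.1, j.1.2, b) from k2)
        have k4 : i = j := Subtype.ext (Prod.ext (Prod.mk.inj k3).1
          (Prod.mk.inj (Prod.mk.inj k3).2).1)
        have k5 : b' = b := (Prod.mk.inj (Prod.mk.inj k3).2).2
        rw [k4, k5, hrd, htd]
        exact ⟨rfl, rfl⟩
      rw [c12, Sym2.mem_iff] at hfy
      rcases hfy with hfy | hfy
      · obtain ⟨k1, k2⟩ := hcv i hfy.symm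
        rw [k1] at c5 c10
        rw [k2] at c10
        obtain ⟨k3, k4⟩ := (hcl q).2 c10
        have k5 : W.nd r q ∈ ends f := by rw [c5]; simp
        exact ⟨q, k3, k4, k5, (hrg f hfR q k3 k4 k5).2⟩
      · obtain ⟨k1, k2⟩ := hcv i' hfy.symm
        rw [k1] at c5 c11
        rw [k2] at c11
        obtain ⟨k3, k4⟩ := (hcl q').2 c11
        have k5 : W.nd r q' ∈ ends f := by rw [c5]; simp
        exact ⟨q', k3, k4, k5, (hrg f hfR q' k3 k4 k5).2⟩
  obtain ⟨hfS, p₀, g1, g2, g3, g4⟩ := hfS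
  intro hcon
  refine hL.star_int hrQ g1 g2 hhi hfS g3 g4 (M.closure_subset_closure ?_ hcon)
  intro e he
  rcases hA e he with ⟨h3, h4⟩ | ⟨h3, h4⟩
  · left
    refine ⟨h3, ?_⟩
    rintro (h5 | h5)
    · exact h4 r (t - 1) hrd (by omega) h5.symm
    · exact h4 r t hrd ht h5.symm
  · have hcase : (∃ r' k, k < (K r').card ∧ els K el r' k = e) ∨ e ∈ Rg := by
      rcases h3 with (⟨r', k, hk, -, h5⟩ | ⟨i, k, k1, k2, h5⟩) | h5
      · exact Or.inl ⟨r', k, hk, h5⟩
      · have h6 := T.lt i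
        have h7 : (W.shrink K).len (T.R i) = (K (T.R i)).card := rfl
        exact Or.inl ⟨T.R i, k, by omega, h5⟩
      · exact Or.inr h5
    rcases hcase with ⟨r', k, hk, rfl⟩ | heR
    · left
      have hkl : kth K r' k < W.len r' := hB.K_lt r' _ (kth_mem hk)
      refine ⟨hL.el_Ra hkl, ?_⟩
      have key : ∀ k', k' < (K r).card → (k' = t ∨ k' + 1 = t) → els K el r' k ≠ el r (kth K r k') := by
        intro k' hk' h5 h6
        obtain ⟨h7, h8⟩ := hL.row.inj _ _ _ _ hkl (hB.K_lt r _ (kth_mem hk')) h6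
        subst h7
        have h9 := cnt_kth (K := K) (r := r') hk
        rw [h8, cnt_kth hk'] at h9
        subst h9
        exact h4 ((hrow r' k' hk).2 ⟨rfl, h5⟩)
      rintro (h5 | h5)
      · exact key (t - 1) (by omega) (Or.inr (by omega)) h5
      · exact key t ht (Or.inl rfl) h5
    · right
      exact ⟨(hB.rg e heR).1, fun p k1 k2 k3 => h4 (hrg e heR p k1 k2 k3).1⟩

/-- rows without a strand of the hub -/
def Rn (W : RW X₀ β) (el : β → ℕ → α) {ln : σ → ℕ} {N : ℕ} {W' : RW X₀ β}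
    (T : Strip W' (CI ln) N) (s₁ : σ) (Ra : Set α) : Set α := Ra \ rowE W el {r | r ∉ NH T s₁}

/-- **The contracted elements outside of the rows without a strand of the hub are skew to these
rows.** -/
theorem LocB.hub_skew [M.Finite] [Finite β] (hL : LocB M W el S ends BQ Ra)
    (hB : LabB W el S ends BQ K T Lm eL Rg) {s₀ s₁ : σ}
    (hrow : ∀ i j : CI ln, i.1.1 = s₀ → j.1.1 = s₁ → T.R i ≠ T.R j) {F Fr : Set α}
    (hF : HubF (els K el) T eL Rg s₀ s₁ F Fr) :
    (cel W K el ∪ F) \ Rn W el T s₁ Ra ⊆ M.E \ Rn W el T s₁ Ra ∧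
      BIC.rk M (Rn W el T s₁ Ra ∪ ((cel W K el ∪ F) \ Rn W el T s₁ Ra)) =
      BIC.rk M (Rn W el T s₁ Ra) + BIC.rk M ((cel W K el ∪ F) \ Rn W el T s₁ Ra) := by
  classical
  have hSw : ∀ e ∈ Sw (W.shrink K) (els K el) T univ Rg, (∃ r k, k < (K r).card ∧ els K el r k = e) ∨
      e ∈ Rg := by
    rintro e ((⟨r', k, hk, -, h3⟩ | ⟨i, k, g1, g2, h3⟩) | h3)
    · exact Or.inl ⟨r', k, hk, h3⟩
    · have h4 := T.lt i
      have h5 : (W.shrink K).len (T.R i) = (K (T.R i)).card := rfl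
      exact Or.inl ⟨T.R i, k, by omega, h3⟩
    · exact Or.inr h3
  have hFS : F ⊆ S := by
    intro e he
    rcases hSw e (hF.sw he) with ⟨r, k, hk, rfl⟩ | h1
    · exact hL.row.mem _ _ (hB.K_lt r _ (kth_mem hk))
    · exact (hB.rg e h1).1
  have hFE : F ⊆ M.E := hFS.trans hL.SE
  obtain ⟨R₀, hR₀⟩ : ∃ R₀ : Set α, R₀ = {e | e ∈ Ra ∧ ∀ r k, r ∉ NH T s₁ → k < (K r).card →
    els K el r k ≠ e} := ⟨_, rfl⟩
  have hR₀E : R₀ ⊆ M.E := by
    rw [hR₀]
    exact fun e he => hL.RaE he.1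
  obtain ⟨R', hR'⟩ : ∃ R' : Set α, R' = Rn W el T s₁ Ra := ⟨_, rfl⟩
  have hR'E : R' ⊆ M.E := by
    rw [hR']
    exact sdiff_subset.trans hL.RaE
  have hhub : ∀ r, r ∉ NH T s₁ → ∃ j : CI ln, j.1.1 = s₁ ∧ T.R j = r := by
    intro r hr
    by_contra hcon
    exact hr fun j hj hjr => hcon ⟨j, hj, hjr⟩
  -- the growth
  have h1 : F ⊆ F ∧ BIC.rk M (R₀ ∪ F) = BIC.rk M R₀ + (F \ R₀).ncard := by
    refine hF.grow (fun K₁ => K₁ ⊆ F ∧ BIC.rk M (R₀ ∪ K₁) = BIC.rk M R₀ + (K₁ \ R₀).ncard) ?_ ?_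
    · have h2 : Fr ⊆ R₀ := by
        intro e he
        obtain ⟨i, hi, k, k1, k2, hk⟩ := hF.cols e he
        have h3 := T.lt i
        have h5 : (W.shrink K).len (T.R i) = (K (T.R i)).card := rfl
        have h4 : k < (K (T.R i)).card := by omega
        have h6 := hB.K_lt _ _ (kth_mem h4)
        rw [hR₀]
        subst hk
        refine ⟨hL.el_Ra h6, ?_⟩
        intro r k' hr hk' heq
        obtain ⟨j, hj, rfl⟩ := hhub r hr
        exact hrow i j hi hj (hL.row.inj _ _ _ _ (hB.K_lt _ _ (kth_mem hk')) h6 heq).1.symm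
      refine ⟨hF.sub, ?_⟩
      have h3 : R₀ ∪ Fr = R₀ := union_eq_left.2 h2
      have h4 : Fr \ R₀ = ∅ := sdiff_eq_empty.2 h2
      rw [h3, h4, ncard_empty, add_zero]
    · rintro K₁ f y ⟨g1, g2⟩ g3 g4 ⟨j, b, hj, hb0, hbN, rfl⟩ g5
      have h2 : f ∉ M.closure (R₀ ∪ K₁) := by
        refine hL.star_lab hB (j := j) (b := b) (by omega) (by omega) (hF.sw g3) g4 ?_
        rintro e (he | he)
        · left
          rw [hR₀] at he
          exact ⟨he.1, fun r k hr hk => he.2 r k (fun h3 => h3 j hj hr.symm) hk⟩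
        · exact Or.inr ⟨hF.sw (g1 he), g5 e he⟩
      have h3 : f ∉ R₀ ∪ K₁ := fun h4 =>
        h2 (M.subset_closure _ (union_subset hR₀E (g1.trans hFE)) h4)
      refine ⟨insert_subset g3 g1, ?_⟩
      rw [union_insert, hx_rk_ins (hFE g3) h2, g2]
      have h4 : insert f K₁ \ R₀ = insert f (K₁ \ R₀) := by
        ext e
        constructor
        · rintro ⟨rfl | h5, h6⟩
          · exact Or.inl rfl
          · exact Or.inr ⟨h5, h6⟩
        · rintro (rfl | h5)
          · exact ⟨Or.inl rfl, fun h6 => h3 (Or.inl h6)⟩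
          · exact ⟨Or.inr h5.1, h5.2⟩
      rw [h4, ncard_insert_of_notMem (fun h5 => h3 (Or.inr h5.1))
        (M.ground_finite.subset (sdiff_subset.trans (g1.trans hFE)))]
      omega
  replace h1 := h1.2
  -- positions of the hub rows
  have hPf : {x : β × ℕ | x.1 ∉ NH T s₁ ∧ x.2 < W.len x.1 ∧ x.2 ∉ K x.1}.Finite := by
    refine Set.Finite.subset (Set.finite_iUnion fun r : β =>
      ((Set.finite_Iio (W.len r)).image fun k => (r, k))) ?_
    rintro ⟨r, k⟩ ⟨-, h2, -⟩
    exact mem_iUnion.2 ⟨r, k, h2, rfl⟩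
  obtain ⟨P, hP⟩ : ∃ P : Finset (β × ℕ), ∀ x, x ∈ P ↔ x.1 ∉ NH T s₁ ∧ x.2 < W.len x.1 ∧
    x.2 ∉ K x.1 := ⟨hPf.toFinset, fun x => hPf.mem_toFinset⟩
  have hkne : ∀ r, ∃ x, x ∈ K r := fun r => Finset.card_pos.1 (hB.len r).1
  have h2 := hL.pos_skew (B := R') (by rw [hR']; exact sdiff_subset) P (by
    intro x hx
    obtain ⟨c1, c2, c3⟩ := (hP x).1 hx
    obtain ⟨j, hj, hjr⟩ := hhub x.1 c1
    refine ⟨hjr ▸ hB.colQ j, c2, ?_, ?_⟩
    · obtain ⟨k, hk⟩ := hkne x.1
      exact ⟨k, hB.K_lt _ _ hk, fun h3 => ((hP _).1 h3).2.2 hk⟩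
    · intro k hk h3
      rw [hR'] at h3
      exact h3.2 ⟨x.1, c1, k, hk, rfl⟩)
  obtain ⟨C₁, hC₁⟩ : ∃ C₁ : Set α, C₁ = {e | ∃ x ∈ P, el x.1 x.2 = e} := ⟨_, rfl⟩
  rw [← hC₁] at h2
  have hC₁c : C₁.ncard ≤ P.card := by
    have h3 : C₁ = (fun x : β × ℕ => el x.1 x.2) '' (P : Set (β × ℕ)) := by
      rw [hC₁]
      rfl
    rw [h3]
    refine (ncard_image_le P.finite_toSet).trans ?_
    rw [ncard_coe_finset]
  have e1 : R₀ = R' ∪ C₁ := by
    rw [hR₀, hR', hC₁]
    ext e
    constructor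
    · rintro ⟨c1, c2⟩
      by_cases h3 : e ∈ rowE W el {r | r ∉ NH T s₁}
      · right
        obtain ⟨r, hr, k, hk, rfl⟩ := h3
        refine ⟨(r, k), (hP _).2 ⟨hr, hk, fun h4 => ?_⟩, rfl⟩
        refine c2 r (cnt K r k) hr (cnt_lt h4) ?_
        unfold els
        rw [kth_cnt h4]
      · exact Or.inl ⟨c1, h3⟩
    · rintro (⟨c1, c2⟩ | ⟨x, hx, rfl⟩)
      · refine ⟨c1, fun r k hr hk heq => c2 ⟨r, hr, kth K r k, hB.K_lt _ _ (kth_mem hk), heq⟩⟩
      · obtain ⟨c1, c2, c3⟩ := (hP x).1 hx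
        refine ⟨hL.el_Ra c2, fun r k hr hk heq => ?_⟩
        obtain ⟨c4, c5⟩ := hL.row.inj _ _ _ _ (hB.K_lt _ _ (kth_mem hk)) c2 heq
        have h3 := kth_mem hk
        rw [c5, c4] at h3
        exact c3 h3
  have hcel : cel W K el ⊆ R' ∪ C₁ := by
    rintro e ⟨r, p, hp, hpK, rfl⟩
    by_cases hr : r ∈ NH T s₁
    · left
      rw [hR']
      refine ⟨hL.el_Ra hp, ?_⟩
      rintro ⟨r', hr', k, hk, heq⟩
      exact hr' ((hL.row.inj _ _ _ _ hk hp heq).1 ▸ hr)
    · right
      rw [hC₁]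
      exact ⟨(r, p), (hP _).2 ⟨hr, hp, hpK⟩, rfl⟩
  have hC₁cel : C₁ ⊆ cel W K el := by
    rw [hC₁]
    rintro e ⟨x, hx, rfl⟩
    obtain ⟨c1, c2, c3⟩ := (hP x).1 hx
    exact ⟨x.1, x.2, c2, c3, rfl⟩
  obtain ⟨G, hG⟩ : ∃ G : Set α, G = (cel W K el ∪ F) \ R' := ⟨_, rfl⟩
  have hGE : G ⊆ M.E := by
    rw [hG]
    rintro e ⟨he | he, -⟩
    · rw [e1] at hR₀E
      exact hR₀E (hcel he)
    · exact hFE he
  have e2 : R' ∪ G = R₀ ∪ F := by
    rw [hG, e1]
    ext e
    constructor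
    · rintro (h3 | ⟨h3 | h3, -⟩)
      · exact Or.inl (Or.inl h3)
      · exact Or.inl (hcel h3)
      · exact Or.inr h3
    · rintro ((h3 | h3) | h3)
      · exact Or.inl h3
      · by_cases h4 : e ∈ R'
        · exact Or.inl h4
        · exact Or.inr ⟨Or.inl (hC₁cel h3), h4⟩
      · by_cases h4 : e ∈ R'
        · exact Or.inl h4
        · exact Or.inr ⟨Or.inr h3, h4⟩
  have hGc : G.ncard ≤ P.card + (F \ R₀).ncard := by
    have h3 : G ⊆ C₁ ∪ (F \ R₀) := by
      rw [hG, e1]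
      rintro e ⟨h3 | h3, h4⟩
      · rcases hcel h3 with h5 | h5
        · exact absurd h5 h4
        · exact Or.inl h5
      · by_cases h5 : e ∈ C₁
        · exact Or.inl h5
        · refine Or.inr ⟨h3, ?_⟩
          rintro (h6 | h6)
          · exact h4 h6
          · exact h5 h6
    have h4 : (C₁ ∪ (F \ R₀)).Finite := M.ground_finite.subset (union_subset
      (fun e he => hR₀E (by rw [e1]; exact Or.inr he)) (sdiff_subset.trans hFE))
    have h5 := ncard_le_ncard h3 h4
    have h6 := ncard_union_le C₁ (F \ R₀)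
    omega
  have h3 := rk_le_ncard M (M.ground_finite.subset hGE)
  have h4 := rk_union_two (M := M) R' G
  rw [← hR', ← hG]
  refine ⟨fun e he => ⟨hGE he, ?_⟩, ?_⟩
  · rw [hG] at he
    exact he.2
  · rw [← e1] at h2
    rw [← e2] at h1
    omega

end hub

section strip

variable {M : Matroid α} {W : RW X₀ β} {el : β → ℕ → α} {S : Set α} {ends : α → Sym2 (Nd X₀ β)}
  {BQ : Set β} {Q Q' : Set α} {u : ℕ} {σ : Type} {ln : σ → ℕ} [Fintype (CI ln)] {N : ℕ}
  {C : Cols W (CI ln) N} {ex : β → Finset ℕ} {Lost : Set β} {Ed : CI ln → CI ln → Prop}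
  {Rg : Set α} {M' : Matroid α} {T : Strip (W.shrink (C.K ex)) (CI ln) N} {Lm : ℕ}
  {Sf : Set α} {eL : α → Sym2 (HV (OV X₀ β Lm) σ)}

/-- The labels at the base level, from the strip. -/
theorem StripS.labB (h : StripS M W S ends el BQ Q u ln N C ex Lost Ed Rg) (hTR : T.R = C.R)
    (hJ : ∀ e i j b, Joins C ends i j b e → -(N : ℤ) ≤ b → b ≤ N → b ≠ 0 →
      eL e = s(cv i b, cv j b))
    (hw : ∀ i (b : ℤ) p, -(N : ℤ) ≤ b → b ≤ N → b ≠ 0 → C.Win i b p →
      cnt (C.K ex) (C.R i) p = T.idx i b)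
    (hG : SG M' (W.shrink (C.K ex)) (els (C.K ex) el) T Lm Sf eL Q' BQ u Ed Rg) :
    LabB W el S ends BQ (C.K ex) T Lm eL Rg where
  K_lt := by
    intro r x hx
    have hx' : x ∈ ex r ∨ ∃ i, C.R i = r ∧ ((∃ b < 2 * N + 2, C.x i b = x) ∨ x ∈ C.y i) := by
      unfold Cols.K at hx
      simpa only [Finset.mem_union, Finset.mem_biUnion, Finset.mem_filter, Finset.mem_univ,
        true_and, Finset.mem_image, Finset.mem_range] using hx
    rcases hx' with h1 | ⟨i, rfl, ⟨b, hb, rfl⟩ | h1⟩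
    · exact (h.exs r x h1).1
    · exact C.lt i b (by omega)
    · have h2 := C.yin i x h1
      have h3 := C.lt i N (by omega)
      have h4 := C.lt i (N + 1) (by omega)
      omega
  len := hG.len
  colQ := hG.colQ
  row := fun r k hk => (hG.row r k hk).2
  rg := by
    intro e he
    obtain ⟨h1, i, j, b, h2, h3, h4, h5, h6⟩ := h.rg e he
    have h7 := hJ e i j b h6 h3 h4 h5
    obtain ⟨p, p', g1, g2, g3⟩ := h6
    have l1 := C.lt i (b + N).toNat (by omega)
    have l2 := C.lt i (b + N + 1).toNat (by omega)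
    have l3 := C.lt j (b + N).toNat (by omega)
    have l4 := C.lt j (b + N + 1).toNat (by omega)
    refine ⟨h1, i, j, b, p, p', h.ed i j h2, h3, h4, h5, ?_, ?_, ?_, ?_, ?_, ?_, ?_, h7⟩
    · rw [hTR]
      exact g3
    · rcases g1 with g1 | g1 <;> omega
    · rw [hTR]
      rcases g1 with g1 | g1 <;> omega
    · rcases g2 with g2 | g2 <;> omega
    · rw [hTR]
      rcases g2 with g2 | g2 <;> omega
    · rw [hTR]
      exact hw i b p h3 h4 h5 g1
    · rw [hTR]
      exact hw j b p' h3 h4 h5 g2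

end strip

end TST
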