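import Pool.Agent.DA.Part74

/-!
# The count of the hyper-components (claim A of T*, helper45)

Label level.  `S` = elements of the rows, `K i` = the `n` conflicts of the label `i ∈ I`, `L₀ ⊆ I` =
light labels, `D` = other elements, `Dg ⊆ D` good elements.  `d` sees `i` if `d ∉ cl (S \ K i)`.
`cls` = hyper-components of the labels outside of `L₀`: labels which are seen by one good element are in
the same class.  Elements may have fixed places between the labels: this costs rank `1` for every
label only (`p₀`).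
-/

open Set BIC BICS
open scoped Matroid

namespace TST

variable {α ι κ : Type*} {M : Matroid α}

/-- union of the conflicts -/
def KU (K : ι → Finset α) (J : Finset ι) : Set α := ⋃ i ∈ J, (K i : Set α)

lemma mem_KU {K : ι → Finset α} {J : Finset ι} {x : α} : x ∈ KU K J ↔ ∃ i ∈ J, x ∈ K i := by
  simp [KU]

lemma KU_mono {K : ι → Finset α} {J J' : Finset ι} (h : J ⊆ J') : KU K J ⊆ KU K J' := by
  intro x hx
  rw [mem_KU] at hx ⊢
  obtain ⟨i, hi, hx⟩ := hx
  exact ⟨i, h hi, hx⟩

lemma KU_finite (K : ι → Finset α) (J : Finset ι) : (KU K J).Finite :=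
  Set.Finite.biUnion J.finite_toSet fun i _ => (K i).finite_toSet

lemma KU_ncard_le [DecidableEq ι] {K : ι → Finset α} {J : Finset ι} {n : ℕ}
    (h : ∀ i ∈ J, (K i).card = n) : (KU K J).ncard ≤ J.card * n := by
  classical
  have h1 : KU K J = ((J.biUnion K : Finset α) : Set α) := by
    ext x
    rw [mem_KU, Finset.mem_coe, Finset.mem_biUnion]
  rw [h1, Set.ncard_coe_finset]
  refine Finset.card_biUnion_le.trans ?_
  rw [Finset.sum_congr rfl h, Finset.sum_const, smul_eq_mul]

lemma KU_ncard [DecidableEq ι] {K : ι → Finset α} {J : Finset ι} {n : ℕ}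
    (h : ∀ i ∈ J, (K i).card = n) (hd : ∀ i ∈ J, ∀ j ∈ J, i ≠ j → Disjoint (K i) (K j)) :
    (KU K J).ncard = J.card * n := by
  classical
  have h1 : KU K J = ((J.biUnion K : Finset α) : Set α) := by
    ext x
    rw [mem_KU, Finset.mem_coe, Finset.mem_biUnion]
  rw [h1, Set.ncard_coe_finset, Finset.card_biUnion hd, Finset.sum_congr rfl h, Finset.sum_const,
    smul_eq_mul]

/-- Elements which do not see the labels in `J`: the loss is `p₀` for every label. -/
lemma rk_unseen [M.Finite] [DecidableEq ι] {S G : Set α} {I : Finset ι} {K : ι → Finset α}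
    {n p₀ : ℕ} (hS : S ⊆ M.E)
    (hKd : ∀ i ∈ I, ∀ j ∈ I, i ≠ j → Disjoint (K i) (K j))
    (hp : ∀ i ∈ I, rk M (S \ K i) + n ≤ rk M S + p₀) (hG : G ⊆ M.closure S) {J : Finset ι}
    (hJ : J ⊆ I) (hGJ : ∀ i ∈ J, G ⊆ M.closure (S \ K i)) :
    rk M (G ∪ (S \ KU K J)) + J.card * n ≤ rk M S + J.card * p₀ := by
  induction J using Finset.induction_on with
  | empty =>
    have h1 : rk M (G ∪ (S \ KU K ∅)) ≤ rk M S := by
      rw [← rk_closure (M := M) S]
      exact rk_mono M (union_subset hG (sdiff_subset.trans (M.subset_closure S hS)))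
    simpa using h1
  | insert i J hi ih =>
    have ih := ih ((Finset.subset_insert _ _).trans hJ) fun j hj =>
      hGJ j (Finset.mem_insert_of_mem hj)
    have hiI := hJ (Finset.mem_insert_self _ _)
    have h1 : rk M (G ∪ (S \ KU K (insert i J))) + rk M S ≤
        rk M (G ∪ (S \ KU K J)) + rk M (G ∪ (S \ K i)) := by
      refine rk_sub' (subset_inter ?_ ?_) ?_
      · refine union_subset_union_right _ fun x hx => ⟨hx.1, fun h => hx.2 ?_⟩
        exact KU_mono (Finset.subset_insert _ _) h
      · refine union_subset_union_right _ fun x hx => ⟨hx.1, fun h => hx.2 ?_⟩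
        rw [mem_KU]
        exact ⟨i, Finset.mem_insert_self _ _, h⟩
      · intro x hx
        by_cases h : x ∈ KU K J
        · right
          right
          refine ⟨hx, fun hxi => ?_⟩
          rw [mem_KU] at h
          obtain ⟨j, hj, hxj⟩ := h
          have hne : i ≠ j := by
            rintro rfl
            exact hi hj
          exact Finset.disjoint_left.1
            (hKd i hiI j (hJ (Finset.mem_insert_of_mem hj)) hne) hxi hxj
        · exact Or.inl (Or.inr ⟨hx, h⟩)
    have h2 : rk M (G ∪ (S \ K i)) ≤ rk M (S \ K i) := by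
      rw [← rk_closure (M := M) (S \ K i)]
      exact rk_mono M (union_subset (hGJ i (Finset.mem_insert_self _ _))
        (M.subset_closure _ (sdiff_subset.trans hS)))
    have h3 := hp i hiI
    rw [Finset.card_insert_of_notMem hi, Nat.add_mul, Nat.add_mul, Nat.one_mul, Nat.one_mul]
    omega

/-- **Count of the hyper-components.** -/
theorem hyper_count [M.Finite] [Fintype κ] [DecidableEq ι] {S D Dg : Set α} {I L₀ : Finset ι}
    {K : ι → Finset α} {cls : ι → κ} {n q r p₀ f u₂ : ℕ} (hS : S ⊆ M.E)
    (hKS : ∀ i ∈ I, (K i : Set α) ⊆ S)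
    (hKd : ∀ i ∈ I, ∀ j ∈ I, i ≠ j → Disjoint (K i) (K j)) (hKn : ∀ i ∈ I, (K i).card = n)
    (hp : ∀ i ∈ I, rk M (S \ K i) + n ≤ rk M S + p₀) (hL : L₀ ⊆ I) (hDg : Dg ⊆ D)
    (hDS : Dg ⊆ M.closure S)
    (hcls : ∀ d ∈ Dg, ∀ i ∈ I, ∀ j ∈ I, i ∉ L₀ → j ∉ L₀ → d ∉ M.closure (S \ K i) →
      d ∉ M.closure (S \ K j) → cls i = cls j)
    (hsur : ∀ k, ∃ i ∈ I, i ∉ L₀ ∧ cls i = k)
    (hf : rk M (Dg ∪ (S \ KU K L₀)) ≤ rk M (S \ KU K L₀) + f)
    (V1 : ∀ i ∈ I, i ∉ L₀ → rk M (D ∪ (S \ KU K I)) + n ≤
      rk M (K i ∪ (D ∪ (S \ KU K I))) + u₂)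
    (V2 : rk M S ≤ rk M (D ∪ (S \ KU K I)) + q)
    (bad : rk M (D ∪ (S \ KU K I)) ≤ rk M (Dg ∪ (S \ KU K I)) + r) :
    Fintype.card κ * n ≤ q + r + I.card * p₀ + Fintype.card κ * (f + I.card * p₀ + u₂) := by
  classical
  rcases isEmpty_or_nonempty κ with hκ | hκ
  · have h0 : Fintype.card κ = 0 := Fintype.card_eq_zero
    rw [h0]
    omega
  obtain ⟨X, hX⟩ : ∃ X, X = S \ KU K I := ⟨_, rfl⟩
  rw [← hX] at V1 V2 bad
  have hXS : X ⊆ S := by rw [hX]; exact sdiff_subset
  -- the classes
  let Ik : κ → Finset ι := fun k => I.filter fun i => i ∉ L₀ ∧ cls i = k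
  let G : κ → Set α := fun k => {d | d ∈ Dg ∧ ∀ i ∈ I, i ∉ L₀ → cls i ≠ k →
    d ∈ M.closure (S \ K i)}
  have hGU : Dg ⊆ ⋃ k, G k := by
    intro d hd
    by_cases h : ∃ i ∈ I, i ∉ L₀ ∧ d ∉ M.closure (S \ K i)
    · obtain ⟨i, hi, hi0, hdi⟩ := h
      rw [mem_iUnion]
      refine ⟨cls i, hd, fun j hj hj0 hij => ?_⟩
      by_contra hdj
      exact hij (hcls d hd j hj i hi hj0 hi0 hdj hdi)
    · push Not at h
      obtain ⟨k⟩ := hκ
      rw [mem_iUnion]
      exact ⟨k, hd, fun i hi hi0 _ => h i hi hi0⟩
  have hrk0 : rk M (S \ KU K L₀) + L₀.card * n ≤ rk M S + L₀.card * p₀ := by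
    have h1 := rk_unseen (M := M) (G := ∅) (S := S) hS hKd hp (empty_subset _) hL
      fun i _ => empty_subset _
    rwa [empty_union] at h1
  have hrkI : rk M X + I.card * n ≤ rk M S + I.card * p₀ := by
    have h1 := rk_unseen (M := M) (G := ∅) (S := S) hS hKd hp (empty_subset _)
      (Finset.Subset.refl I) fun i _ => empty_subset _
    rwa [empty_union, ← hX] at h1
  -- one class
  have hii : ∀ k, rk M (G k ∪ X) + n ≤
      rk M X + ((Ik k).card * n + (f + I.card * p₀ + u₂)) := by
    intro k
    obtain ⟨i₀, hi₀, hi₀L, hi₀k⟩ := hsur k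
    have hi₀m : i₀ ∈ Ik k := Finset.mem_filter.2 ⟨hi₀, hi₀L, hi₀k⟩
    have h1 : rk M (G k ∪ X) + rk M (K i₀ ∪ (D ∪ X)) ≤
        rk M (K i₀ ∪ (G k ∪ X)) + rk M (D ∪ X) := by
      refine rk_sub' (subset_inter subset_union_right (union_subset_union_left _
        (fun d hd => hDg hd.1))) ?_
      rintro x (hx | hx)
      · exact Or.inl (Or.inl hx)
      · exact Or.inr hx
    have h2 := V1 i₀ hi₀ hi₀L
    -- the labels outside of the class
    obtain ⟨J, hJ⟩ : ∃ J : Finset ι, J = I.filter fun i => i ∉ L₀ ∧ cls i ≠ k := ⟨_, rfl⟩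
    have h3 := rk_unseen (M := M) (G := G k) (S := S) (J := J) hS hKd hp
      (fun d hd => hDS hd.1) (by rw [hJ]; exact Finset.filter_subset _ _) (by
        intro i hi d hd
        rw [hJ, Finset.mem_filter] at hi
        exact hd.2 i hi.1 hi.2.1 hi.2.2)
    have hcard : J.card + L₀.card + (Ik k).card = I.card := by
      have e1 : J.card + (Ik k).card + L₀.card = I.card := by
        rw [hJ, ← Finset.card_union_of_disjoint, ← Finset.card_union_of_disjoint]
        · congr 1
          ext i
          simp only [Finset.mem_union, Finset.mem_filter, Ik]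
          constructor
          · rintro ((⟨h, _⟩ | ⟨h, _⟩) | h)
            · exact h
            · exact h
            · exact hL h
          · intro h
            by_cases h4 : i ∈ L₀
            · exact Or.inr h4
            · by_cases h5 : cls i = k
              · exact Or.inl (Or.inr ⟨h, h4, h5⟩)
              · exact Or.inl (Or.inl ⟨h, h4, h5⟩)
        · rw [Finset.disjoint_left]
          intro i hi
          simp only [Finset.mem_union, Finset.mem_filter, Ik] at hi
          rcases hi with hi | hi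
          · exact hi.2.1
          · exact hi.2.1
        · rw [Finset.disjoint_left]
          intro i hi hi'
          simp only [Finset.mem_filter, Ik] at hi hi'
          exact hi.2.2 hi'.2.2
      omega
    have h4 : rk M (G k ∪ (X ∪ KU K (Ik k))) + rk M S ≤
        rk M (G k ∪ (S \ KU K J)) + rk M (G k ∪ (S \ KU K L₀)) := by
      refine rk_sub' (subset_inter ?_ ?_) ?_
      · refine union_subset_union_right _ (union_subset ?_ ?_)
        · intro x hx
          rw [hX] at hx
          refine ⟨hx.1, fun h => hx.2 ?_⟩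
          refine KU_mono ?_ h
          rw [hJ]
          exact Finset.filter_subset _ _
        · intro x hx
          rw [mem_KU] at hx
          obtain ⟨i, hi, hxi⟩ := hx
          simp only [Finset.mem_filter, Ik] at hi
          refine ⟨hKS i hi.1 hxi, fun h => ?_⟩
          rw [mem_KU] at h
          obtain ⟨j, hj, hxj⟩ := h
          rw [hJ, Finset.mem_filter] at hj
          have hne : i ≠ j := by
            rintro rfl
            exact hj.2.2 hi.2.2
          exact Finset.disjoint_left.1 (hKd i hi.1 j hj.1 hne) hxi hxj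
      · refine union_subset_union_right _ (union_subset ?_ ?_)
        · intro x hx
          rw [hX] at hx
          exact ⟨hx.1, fun h => hx.2 (KU_mono hL h)⟩
        · intro x hx
          rw [mem_KU] at hx
          obtain ⟨i, hi, hxi⟩ := hx
          simp only [Finset.mem_filter, Ik] at hi
          refine ⟨hKS i hi.1 hxi, fun h => ?_⟩
          rw [mem_KU] at h
          obtain ⟨j, hj, hxj⟩ := h
          have hne : i ≠ j := by
            rintro rfl
            exact hi.2.1 hj
          exact Finset.disjoint_left.1 (hKd i hi.1 j (hL hj) hne) hxi hxj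
      · intro x hx
        by_cases h : x ∈ KU K J
        · right
          right
          refine ⟨hx, fun h5 => ?_⟩
          rw [mem_KU] at h h5
          obtain ⟨j, hj, hxj⟩ := h
          obtain ⟨l, hl, hxl⟩ := h5
          rw [hJ, Finset.mem_filter] at hj
          have hne : j ≠ l := by
            rintro rfl
            exact hj.2.1 hl
          exact Finset.disjoint_left.1 (hKd j hj.1 l (hL hl) hne) hxj hxl
        · exact Or.inl (Or.inr ⟨hx, h⟩)
    have h5 : rk M (G k ∪ (S \ KU K L₀)) ≤ rk M (Dg ∪ (S \ KU K L₀)) :=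
      rk_mono M (union_subset_union_left _ fun d hd => hd.1)
    have h6 : rk M (K i₀ ∪ (G k ∪ X)) ≤ rk M (G k ∪ (X ∪ KU K (Ik k))) := by
      refine rk_mono M ?_
      rintro x (hx | hx | hx)
      · refine Or.inr (Or.inr ?_)
        rw [mem_KU]
        exact ⟨i₀, hi₀m, hx⟩
      · exact Or.inl hx
      · exact Or.inr (Or.inl hx)
    -- everything is compared with the rank of `X`
    have h7 : rk M S ≤ rk M X + I.card * n := by
      have h8 : S ⊆ X ∪ KU K I := by
        intro x hx
        by_cases h : x ∈ KU K I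
        · exact Or.inr h
        · rw [hX]
          exact Or.inl ⟨hx, h⟩
      have h9 := rk_union_le M (X := X) (KU_finite K I)
      have h10 := rk_mono M h8
      have h11 := KU_ncard_le (K := K) hKn
      omega
    have h8 : J.card * n + L₀.card * n + (Ik k).card * n = I.card * n := by
      rw [← Nat.add_mul, ← Nat.add_mul, hcard]
    have h9 : J.card * p₀ + L₀.card * p₀ ≤ I.card * p₀ := by
      rw [← Nat.add_mul]
      exact Nat.mul_le_mul_right _ (by omega)
    omega
  have hiii := DA.Cnt.rk_biUnion_le M G X Finset.univ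
  have hU : (⋃ k ∈ (Finset.univ : Finset κ), G k) = ⋃ k, G k := by simp
  rw [hU, Finset.card_univ] at hiii
  have hbad : rk M (Dg ∪ X) ≤ rk M ((⋃ k, G k) ∪ X) := rk_mono M (union_subset_union_left _ hGU)
  have hsum : ∑ k, (Ik k).card ≤ I.card := by
    rw [← Finset.card_biUnion (fun k _ k' _ h => by
      show Disjoint (Ik k) (Ik k')
      rw [Finset.disjoint_left]
      intro i hi hi'
      simp only [Finset.mem_filter, Ik] at hi hi'
      exact h (hi.2.2.symm.trans hi'.2.2))]
    exact Finset.card_le_card (Finset.biUnion_subset.2 fun k _ => Finset.filter_subset _ _)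
  have hs2 : ∑ k : κ, (rk M (G k ∪ X) + n) ≤
      ∑ k : κ, (rk M X + ((Ik k).card * n + (f + I.card * p₀ + u₂))) :=
    Finset.sum_le_sum fun k _ => hii k
  rw [Finset.sum_add_distrib, Finset.sum_add_distrib, Finset.sum_add_distrib,
    Finset.sum_const, Finset.sum_const, Finset.sum_const, Finset.card_univ, smul_eq_mul,
    smul_eq_mul, smul_eq_mul, ← Finset.sum_mul] at hs2
  have hs3 : (∑ k, (Ik k).card) * n ≤ I.card * n := Nat.mul_le_mul_right _ hsum
  omega

end TST
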