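import Pool.Agent.TST.BaseDef
import Pool.Agent.CW.V1

/-!
# T-star, third level: label systems (definitions)

`LSys`: every row consists of its anchor and of the conflicts `c i b` with the labels `i < m` in the
tiles `b < n`.  `Dens`: the densities.  `World ==> LSys` is row `W0`.
-/

open Set BIC BICS CWL
open scoped Matroid

namespace TSH

universe u

/-- the kept conflicts of the tiles in `B` -/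
def KB {α : Type u} (m : ℕ) (c : ℕ → ℕ → α) (B : Set ℕ) : Set α :=
  {x | ∃ i < m, ∃ b ∈ B, x = c i b}

/-- **Label system.**  `s` = side of the tiles of the host, `σ₂` = number of columns of a tile for
V2, `u₂` = lift of the column side, `q i b` = position of `c i b` on its row, `Za` = rows which
contain anchors of the tiles. -/
structure LSys {α : Type u} (M : Matroid α) (w s σ₂ : ℕ) (𝒯 : Finset (ℕ × ℕ))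
    (L₁ : Bool × ℕ × ℕ → List α) (f₁ : α → Sym2 ((ℕ × ℕ) ⊕ α)) (e₁ : Bool × ℕ × ℕ → α) (u₁ : ℕ)
    (L₂ : Bool × ℕ × ℕ → List α) (f₂ : α → Sym2 ((ℕ × ℕ) ⊕ α)) (e₂ : Bool × ℕ × ℕ → α) (u₂ : ℕ)
    (D : Set α) (n m : ℕ) (τ : ℕ → ℕ × ℕ) (R : ℕ → Bool × ℕ × ℕ) (c : ℕ → ℕ → α)
    (q : ℕ → ℕ → ℕ) (Za : Finset (Bool × ℕ × ℕ)) : Prop where
  pair : Pair M (Seg w) L₁ f₁ e₁ u₁ (tiles s 𝒯) L₂ f₂ e₂ u₂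
  tau : ∀ b < n, τ b ∈ 𝒯
  tinj : ∀ a < n, ∀ b < n, τ a = τ b → a = b
  row : ∀ i < m, R i ∈ Seg w
  /-- every row has a label -/
  cov : ∀ r ∈ Seg w, ∃ i < m, R i = r
  pos : ∀ i < m, ∀ b < n, ∃ h : q i b < (L₁ (R i)).length, (L₁ (R i))[q i b] = c i b
  mon : ∀ i < m, RamP.Mon n (q i)
  ns : ∀ i < m, ∀ j < m, R i = R j → RamP.Near n (q i) (q j) ∨ RamP.Sep n (q i) (q j)
  inj : ∀ i < m, ∀ b < n, ∀ j < m, ∀ a < n, c i b = c j a → i = j ∧ b = a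
  anc : ∀ i < m, ∀ b < n, ∀ r ∈ Seg w, c i b ≠ e₁ r
  all : ∀ r ∈ Seg w, ∀ x ∈ L₁ r, x = e₁ r ∨ ∃ i < m, ∃ b < n, R i = r ∧ x = c i b
  tile : ∀ b < n, ∀ x ∈ crr L₁ (Seg w), x ∈ crr L₂ (shS (τ b).1 (τ b).2 '' Seg s) →
    ∃ i < m, x = c i b
  anchor : ∀ b < n, ∀ σ ∈ Seg s, ∀ r ∈ Seg w, e₂ (shS (τ b).1 (τ b).2 σ) ∈ L₁ r → r ∈ Za
  D_cl : D ⊆ M.closure (crr L₁ (Seg w))
  D₁ : Disjoint D (crr L₁ (Seg w))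
  D₂ : Disjoint D (crr L₂ (tiles s 𝒯))
  /-- (V1) one kept conflict in each tile of `B` -/
  V1 : ∀ (B : Finset ℕ) (I : ℕ → ℕ), (∀ b ∈ B, b < n ∧ I b < m) →
    rk M (D ∪ (crr L₁ (Seg w) \ KB m c B)) + B.card ≤
      rk M ((fun b => c (I b) b) '' (B : Set ℕ) ∪ (D ∪ (crr L₁ (Seg w) \ KB m c B))) + u₂
  /-- (V2) -/
  V2 : ∀ B : Finset ℕ, (∀ b ∈ B, b < n) →
    rk M (crr L₁ (Seg w)) ≤ rk M (D ∪ (crr L₁ (Seg w) \ KB m c B)) + σ₂ * B.card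

/-- **Densities** of the labels: two thresholds `L ≤ L'`; all rows with more than `L'` labels carry
at most `w ^ 2 / h' L` labels, where the function `h'` is at wish. -/
structure Dens (w L L' Cb h : ℕ) (h' : ℕ → ℕ) (K₀ : ℕ) (Df : ℕ → ℕ) (m : ℕ)
    (R : ℕ → Bool × ℕ × ℕ) : Prop where
  a : ∀ r ∈ Seg w, Df L' * {i | i < m ∧ R i = r}.ncard < w ^ 2
  b : m ≤ Cb * w ^ 2
  c : Df L' * {i | i < m ∧ R i ∈ layer w K₀}.ncard ≤ w ^ 2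
  d : h * {i | i < m ∧ L < {j | j < m ∧ R j = R i}.ncard}.ncard ≤ w ^ 2
  d2 : h' L * {i | i < m ∧ L' < {j | j < m ∧ R j = R i}.ncard}.ncard ≤ w ^ 2

/-- the columns of the cores of the tiles of side `s + 2` -/
def cores (s : ℕ) (𝒯 : Finset (ℕ × ℕ)) : Set (Bool × ℕ × ℕ) :=
  {σ | ∃ t ∈ 𝒯, σ ∈ shS t.1 t.2 '' core (s + 2)}

/-- **The cores of a label system**: the pair for the columns of the cores, all labels are on these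
columns, nothing else is in the matroid. -/
structure LCore {α : Type u} (M : Matroid α) (w s : ℕ) (𝒯 : Finset (ℕ × ℕ))
    (L₁ : Bool × ℕ × ℕ → List α) (f₁ : α → Sym2 ((ℕ × ℕ) ⊕ α)) (e₁ : Bool × ℕ × ℕ → α) (u₁ : ℕ)
    (L₂ : Bool × ℕ × ℕ → List α) (f₂ : α → Sym2 ((ℕ × ℕ) ⊕ α)) (e₂ : Bool × ℕ × ℕ → α) (u₂ : ℕ)
    (D : Set α) (n m : ℕ) (τ : ℕ → ℕ × ℕ) (c : ℕ → ℕ → α) (Za : Finset (Bool × ℕ × ℕ)) :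
    Prop where
  pair : Pair M (Seg w) L₁ f₁ e₁ u₁ (cores s 𝒯) L₂ f₂ e₂ u₂
  lab : ∀ i < m, ∀ b < n, c i b ∈ crr L₂ (shS (τ b).1 (τ b).2 '' core (s + 2))
  tile : ∀ b < n, ∀ x ∈ crr L₁ (Seg w), x ∈ crr L₂ (shS (τ b).1 (τ b).2 '' core (s + 2)) →
    ∃ i < m, x = c i b
  anchor : ∀ b < n, ∀ σ ∈ core (s + 2), ∀ r ∈ Seg w, e₂ (shS (τ b).1 (τ b).2 σ) ∈ L₁ r → r ∈ Za
  ze : ∀ r ∈ Seg w, e₁ r ∉ crr L₂ (cores s 𝒯)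
  D₂ : Disjoint D (crr L₂ (cores s 𝒯))
  tt : ∀ t ∈ 𝒯, ∃ b < n, τ b = t
  esub : M.E ⊆ crr L₁ (Seg w) ∪ crr L₂ (cores s 𝒯) ∪ D

/-- **Row W0.**  From the clean pair (tiles of side `s + 2`) to a label system with `n` tiles
(Ramsey for the positions, the rows with anchors, the labels; then all conflicts outside of the
chosen cores are contracted). -/
def RowW0 (κ : ℕ) : Prop :=
  ∀ (Cb s wmax n : ℕ), 2 ≤ s → 2 ∣ s → ∃ m₀ : ℕ, ∀ {α : Type u} (M : Matroid α) [M.Finite]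
    (w L L' h K₀ : ℕ) (Df h' : ℕ → ℕ) (𝒯 : Finset (ℕ × ℕ))
    (L₁ : Bool × ℕ × ℕ → List α) (f₁ : α → Sym2 ((ℕ × ℕ) ⊕ α)) (e₁ : Bool × ℕ × ℕ → α) (u₁ : ℕ)
    (L₂ : Bool × ℕ × ℕ → List α) (f₂ : α → Sym2 ((ℕ × ℕ) ⊕ α)) (e₂ : Bool × ℕ × ℕ → α) (u₂ : ℕ),
    w ≤ wmax → u₁ ≤ κ → u₂ ≤ κ → m₀ ≤ 𝒯.card →
    (∀ b ∈ 𝒯, 2 * (s + 3) ∣ b.1 ∧ 2 * (s + 3) ∣ b.2) →
    World M w (s + 2) 𝒯 L₁ f₁ e₁ u₁ L₂ f₂ e₂ u₂ →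
    (∀ b ∈ 𝒯, ∀ r ∈ Seg w, ∃ x ∈ L₁ r, x ∈ crr L₂ (shS b.1 b.2 '' Seg s)) →
    (∀ b ∈ 𝒯,
      (∀ r ∈ Seg w, Df L' *
        ({x | x ∈ L₁ r} ∩ crr L₂ (shS b.1 b.2 '' Seg (s + 2))).ncard < w ^ 2) ∧
      (crr L₁ (Seg w) ∩ crr L₂ (shS b.1 b.2 '' Seg (s + 2))).ncard ≤ Cb * w ^ 2 ∧
      Df L' * (crr L₁ (layer w K₀) ∩ crr L₂ (shS b.1 b.2 '' Seg (s + 2))).ncard ≤ w ^ 2 ∧
      h * (crr L₁ {r | r ∈ Seg w ∧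
            L < ({x | x ∈ L₁ r} ∩ crr L₂ (shS b.1 b.2 '' Seg (s + 2))).ncard} ∩
          crr L₂ (shS b.1 b.2 '' Seg (s + 2))).ncard ≤ w ^ 2 ∧
      h' L * (crr L₁ {r | r ∈ Seg w ∧
            L' < ({x | x ∈ L₁ r} ∩ crr L₂ (shS b.1 b.2 '' Seg (s + 2))).ncard} ∩
          crr L₂ (shS b.1 b.2 '' Seg (s + 2))).ncard ≤ w ^ 2) →
    ∃ (M₁ : Matroid α) (𝒯' : Finset (ℕ × ℕ)) (L₁' : Bool × ℕ × ℕ → List α)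
      (f₁' : α → Sym2 ((ℕ × ℕ) ⊕ α)) (u₁' : ℕ) (L₂' : Bool × ℕ × ℕ → List α)
      (f₂' : α → Sym2 ((ℕ × ℕ) ⊕ α)) (u₂' : ℕ) (D : Set α) (m : ℕ) (τ : ℕ → ℕ × ℕ)
      (R : ℕ → Bool × ℕ × ℕ) (c : ℕ → ℕ → α) (q : ℕ → ℕ → ℕ) (Za : Finset (Bool × ℕ × ℕ)),
      M₁ ≤m M ∧ 𝒯' ⊆ 𝒯 ∧ u₁' ≤ κ ∧ u₂' ≤ κ ∧ Za.card ≤ (Seg (s + 2)).ncard ∧
      (∀ r ∈ Seg w, ∀ x ∈ L₁' r, x ∈ L₁ r) ∧
      LSys M₁ w s (Seg (s + 2)).ncard 𝒯' L₁' f₁' e₁ u₁' L₂' f₂' e₂ u₂' D n m τ R c q Za ∧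
      LCore M₁ w s 𝒯' L₁' f₁' e₁ u₁' L₂' f₂' e₂ u₂' D n m τ c Za ∧
      Dens w L L' Cb h h' K₀ Df m R

end TSH
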