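import Pool.Agent.TST.HyperCount
import Pool.Agent.TST.LDef
import Pool.Agent.CW.World

/-!
# The count of the hyper-components for a label system (claim A of T*, helper45)

`LSys.row_loss`: the `n` conflicts of one label cost rank `n - 1` (exactness of the rows, no lift).
`LSys.hyper_count`: number of hyper-components `≤ σ₂ + ρ`, if `r ≤ ρ n + r₀` and `n` is large.
-/

open Set BIC BICS CWL
open scoped Matroid

namespace TSH

universe u

/-- the conflicts of the label `i` -/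
def KF {α : Type u} [DecidableEq α] (c : ℕ → ℕ → α) (n i : ℕ) : Finset α :=
  (Finset.range n).image (c i)

section

variable {α : Type u} [DecidableEq α] {M : Matroid α} {w s σ₂ : ℕ} {𝒯 : Finset (ℕ × ℕ)}
  {L₁ L₂ : Bool × ℕ × ℕ → List α} {f₁ f₂ : α → Sym2 ((ℕ × ℕ) ⊕ α)} {e₁ e₂ : Bool × ℕ × ℕ → α}
  {u₁ u₂ : ℕ} {D : Set α} {n m : ℕ} {τ : ℕ → ℕ × ℕ} {R : ℕ → Bool × ℕ × ℕ} {c : ℕ → ℕ → α}
  {q : ℕ → ℕ → ℕ} {Za : Finset (Bool × ℕ × ℕ)}

omit [DecidableEq α] in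
lemma LSys.mem_row (h : LSys M w s σ₂ 𝒯 L₁ f₁ e₁ u₁ L₂ f₂ e₂ u₂ D n m τ R c q Za) {i b : ℕ}
    (hi : i < m) (hb : b < n) : c i b ∈ L₁ (R i) := by
  obtain ⟨h1, h2⟩ := h.pos i hi b hb
  rw [← h2]
  exact List.getElem_mem _

lemma mem_KF {n i : ℕ} {c : ℕ → ℕ → α} {x : α} : x ∈ KF c n i ↔ ∃ b < n, x = c i b := by
  unfold KF
  rw [Finset.mem_image]
  constructor
  · rintro ⟨b, hb, rfl⟩
    exact ⟨b, Finset.mem_range.1 hb, rfl⟩
  · rintro ⟨b, hb, rfl⟩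
    exact ⟨b, Finset.mem_range.2 hb, rfl⟩

lemma KU_KF {n m : ℕ} {c : ℕ → ℕ → α} :
    TST.KU (KF c n) (Finset.range m) = KB m c (Iio n) := by
  ext x
  rw [TST.mem_KU]
  constructor
  · rintro ⟨i, hi, hx⟩
    obtain ⟨b, hb, rfl⟩ := mem_KF.1 hx
    exact ⟨i, Finset.mem_range.1 hi, b, hb, rfl⟩
  · rintro ⟨i, hi, b, hb, rfl⟩
    exact ⟨i, Finset.mem_range.2 hi, mem_KF.2 ⟨b, hb, rfl⟩⟩

lemma LSys.KF_sub (h : LSys M w s σ₂ 𝒯 L₁ f₁ e₁ u₁ L₂ f₂ e₂ u₂ D n m τ R c q Za) {i : ℕ}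
    (hi : i < m) : (KF c n i : Set α) ⊆ crr L₁ (Seg w) := by
  intro x hx
  obtain ⟨b, hb, rfl⟩ := mem_KF.1 (Finset.mem_coe.1 hx)
  exact ⟨R i, h.row i hi, h.mem_row hi hb⟩

lemma LSys.KF_card (h : LSys M w s σ₂ 𝒯 L₁ f₁ e₁ u₁ L₂ f₂ e₂ u₂ D n m τ R c q Za) {i : ℕ}
    (hi : i < m) : (KF c n i).card = n := by
  unfold KF
  rw [Finset.card_image_of_injOn, Finset.card_range]
  intro a ha b hb hab
  rw [Finset.mem_coe, Finset.mem_range] at ha hb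
  exact (h.inj i hi a ha i hi b hb hab).2

lemma LSys.KF_disj (h : LSys M w s σ₂ 𝒯 L₁ f₁ e₁ u₁ L₂ f₂ e₂ u₂ D n m τ R c q Za) {i j : ℕ}
    (hi : i < m) (hj : j < m) (hij : i ≠ j) : Disjoint (KF c n i) (KF c n j) := by
  rw [Finset.disjoint_left]
  intro x hx hx'
  obtain ⟨a, ha, rfl⟩ := mem_KF.1 hx
  obtain ⟨b, hb, hab⟩ := mem_KF.1 hx'
  exact hij (h.inj i hi a ha j hj b hb hab).1

/-- **The conflicts of one label**: the loss of rank is at least `n - 1`. -/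
theorem LSys.row_loss [M.Finite]
    (h : LSys M w s σ₂ 𝒯 L₁ f₁ e₁ u₁ L₂ f₂ e₂ u₂ D n m τ R c q Za) {i : ℕ} (hi : i < m) :
    rk M (crr L₁ (Seg w) \ KF c n i) + n ≤ rk M (crr L₁ (Seg w)) + 1 := by
  have h1 := h.pair.s₁.cut (h.KF_sub hi)
  rw [Set.ncard_coe_finset, h.KF_card hi] at h1
  have h2 : {r | r ∈ Seg w ∧ ∃ x ∈ (KF c n i : Set α), x ∈ L₁ r} ⊆ {R i} := by
    rintro r ⟨hr, x, hx, hxr⟩
    obtain ⟨b, hb, rfl⟩ := mem_KF.1 (Finset.mem_coe.1 hx)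
    exact h.pair.s₁.uniq hr (h.row i hi) hxr (h.mem_row hi hb)
  have h3 := Set.ncard_le_ncard h2
  rw [Set.ncard_singleton] at h3
  omega

/-- **Count of the hyper-components of a label system.** -/
theorem LSys.hyper_count {κ : Type*} [Fintype κ] [M.Finite]
    (h : LSys M w s σ₂ 𝒯 L₁ f₁ e₁ u₁ L₂ f₂ e₂ u₂ D n m τ R c q Za) {Dg : Set α} {L₀ : Finset ℕ}
    {cls : ℕ → κ} {r f : ℕ} (hL : ∀ i ∈ L₀, i < m) (hDg : Dg ⊆ D)
    (hcls : ∀ d ∈ Dg, ∀ i < m, ∀ j < m, i ∉ L₀ → j ∉ L₀ →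
      d ∉ M.closure (crr L₁ (Seg w) \ KF c n i) → d ∉ M.closure (crr L₁ (Seg w) \ KF c n j) →
      cls i = cls j)
    (hsur : ∀ k, ∃ i < m, i ∉ L₀ ∧ cls i = k)
    (hf : rk M (Dg ∪ (crr L₁ (Seg w) \ TST.KU (KF c n) L₀)) ≤
      rk M (crr L₁ (Seg w) \ TST.KU (KF c n) L₀) + f)
    (bad : rk M (D ∪ (crr L₁ (Seg w) \ KB m c (Iio n))) ≤
      rk M (Dg ∪ (crr L₁ (Seg w) \ KB m c (Iio n))) + r) :
    Fintype.card κ * n ≤ σ₂ * n + r + m + Fintype.card κ * (f + m + u₂) := by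
  have h1 := TST.hyper_count (M := M) (S := crr L₁ (Seg w)) (D := D) (Dg := Dg)
    (I := Finset.range m) (L₀ := L₀) (K := KF c n) (cls := cls) (n := n) (q := σ₂ * n) (r := r)
    (p₀ := 1) (f := f) (u₂ := u₂) h.pair.s₁.sub_ground (fun i hi => h.KF_sub (Finset.mem_range.1 hi))
    (fun i hi j hj hij => h.KF_disj (Finset.mem_range.1 hi) (Finset.mem_range.1 hj) hij)
    (fun i hi => h.KF_card (Finset.mem_range.1 hi)) (fun i hi => h.row_loss (Finset.mem_range.1 hi))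
    (fun i hi => Finset.mem_range.2 (hL i hi)) hDg (hDg.trans h.D_cl)
    (fun d hd i hi j hj h1 h2 h3 h4 => hcls d hd i (Finset.mem_range.1 hi) j
      (Finset.mem_range.1 hj) h1 h2 h3 h4)
    (fun k => by
      obtain ⟨i, hi, h1, h2⟩ := hsur k
      exact ⟨i, Finset.mem_range.2 hi, h1, h2⟩) hf
    (by
      intro i hi _
      have h2 := h.V1 (Finset.range n) (fun _ => i) fun b hb =>
        ⟨Finset.mem_range.1 hb, Finset.mem_range.1 hi⟩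
      rw [Finset.card_range, Finset.coe_range] at h2
      rw [KU_KF]
      have h3 : ((KF c n i : Finset α) : Set α) = (fun b => c i b) '' Iio n := by
        unfold KF
        rw [Finset.coe_image, Finset.coe_range]
      rw [h3]
      exact h2)
    (by
      have h2 := h.V2 (Finset.range n) fun b hb => Finset.mem_range.1 hb
      rw [Finset.card_range, Finset.coe_range] at h2
      rw [KU_KF]
      exact h2)
    (by
      rw [KU_KF]
      exact bad)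
  rw [Finset.card_range, Nat.mul_one] at h1
  exact h1

/-- **Number of the hyper-components**: at most `σ₂ + ρ`. -/
theorem LSys.hyper_card {κ : Type*} [Fintype κ] [M.Finite]
    (h : LSys M w s σ₂ 𝒯 L₁ f₁ e₁ u₁ L₂ f₂ e₂ u₂ D n m τ R c q Za) {Dg : Set α} {L₀ : Finset ℕ}
    {cls : ℕ → κ} {ρ r₀ f : ℕ} (hL : ∀ i ∈ L₀, i < m) (hDg : Dg ⊆ D)
    (hcls : ∀ d ∈ Dg, ∀ i < m, ∀ j < m, i ∉ L₀ → j ∉ L₀ →
      d ∉ M.closure (crr L₁ (Seg w) \ KF c n i) → d ∉ M.closure (crr L₁ (Seg w) \ KF c n j) →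
      cls i = cls j)
    (hsur : ∀ k, ∃ i < m, i ∉ L₀ ∧ cls i = k)
    (hf : rk M (Dg ∪ (crr L₁ (Seg w) \ TST.KU (KF c n) L₀)) ≤
      rk M (crr L₁ (Seg w) \ TST.KU (KF c n) L₀) + f)
    (bad : rk M (D ∪ (crr L₁ (Seg w) \ KB m c (Iio n))) ≤
      rk M (Dg ∪ (crr L₁ (Seg w) \ KB m c (Iio n))) + (ρ * n + r₀))
    (hn : r₀ + m + m * (f + m + u₂) < n) :
    Fintype.card κ ≤ σ₂ + ρ := by
  classical
  have h1 := h.hyper_count hL hDg hcls hsur hf bad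
  -- at most `m` classes
  have h2 : Fintype.card κ ≤ m := by
    choose g hg1 hg2 hg3 using hsur
    have h3 : Fintype.card κ ≤ Fintype.card (Fin m) := by
      refine Fintype.card_le_of_injective (fun k => (⟨g k, hg1 k⟩ : Fin m)) ?_
      intro k k' hkk
      have h4 : g k = g k' := by simpa using hkk
      rw [← hg3 k, ← hg3 k', h4]
    rwa [Fintype.card_fin] at h3
  have h3 : Fintype.card κ * (f + m + u₂) ≤ m * (f + m + u₂) := Nat.mul_le_mul_right _ h2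
  by_contra hlt
  push Not at hlt
  have h4 : (σ₂ + ρ + 1) * n ≤ Fintype.card κ * n := Nat.mul_le_mul_right _ hlt
  have h5 : (σ₂ + ρ + 1) * n = σ₂ * n + ρ * n + n := by ring
  omega

end

end TSH
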