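import Pool.Agent.TST.SGCell
import Pool.Agent.TST.GrndJ

/-!
# Row JC of the host of T-star: the cells of unbalanced lines are jointly full (helper35)
-/

open Set Relation
open scoped Matroid

namespace TST

open BIC Gad EN BICS Mdl

universe u

/-! ### The largest ground outside of a set of vertices -/

section gr

variable {α V : Type*}

/-- vertices outside of `A` which are connected outside of `A` to a loop -/
def Gr (S₁ : Set α) (ends : α → Sym2 V) (A : Set V) : Set V :=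
  {w | w ∉ A ∧ ∃ v ∉ A, (∃ h ∈ S₁, ends h = s(v, v)) ∧
    ReflTransGen (fun a b => GAdj S₁ ends a b ∧ a ∉ A ∧ b ∉ A) w v}

lemma Gr.grnd (S₁ : Set α) (ends : α → Sym2 V) (A : Set V) : Grnd S₁ ends (Gr S₁ ends A) := by
  rintro w ⟨h1, v, h2, h3, h4⟩
  refine ⟨v, ⟨h2, v, h2, h3, ReflTransGen.refl⟩, h3, ?_⟩
  induction h4 using ReflTransGen.head_induction_on with
  | refl => exact ReflTransGen.refl
  | head h5 h6 h7 =>
    exact ReflTransGen.head ⟨h5.1, ⟨h5.2.1, v, h2, h3, ReflTransGen.head h5 h6⟩,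
      ⟨h5.2.2, v, h2, h3, h6⟩⟩ (h7 h5.2.2)

lemma Gr.disj (S₁ : Set α) (ends : α → Sym2 V) (A : Set V) : Disjoint A (Gr S₁ ends A) := by
  rw [Set.disjoint_left]
  intro w h1 h2
  exact h2.1 h1

lemma Gr.finite {S₁ : Set α} (ends : α → Sym2 V) (A : Set V) (hS : S₁.Finite) :
    (Gr S₁ ends A).Finite := by
  classical
  have h1 : (⋃ e ∈ S₁, {w | w ∈ ends e}).Finite := by
    refine hS.biUnion fun e _ => ?_
    have h2 : {w | w ∈ ends e} = ((ends e).toFinset : Set V) := by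
      ext w
      simp
    rw [h2]
    exact Finset.finite_toSet _
  refine h1.subset ?_
  rintro w ⟨h2, v, h3, ⟨x, h4, h5⟩, h6⟩
  rcases ReflTransGen.cases_head h6 with rfl | ⟨y, ⟨⟨e, he, hey⟩, _⟩, _⟩
  · exact mem_iUnion₂.2 ⟨x, h4, by rw [mem_ofPred_eq, h5]; simp⟩
  · exact mem_iUnion₂.2 ⟨e, he, by rw [mem_ofPred_eq, hey]; simp⟩

/-- the ground spreads -/
lemma Gr.spread {VQ : Set V} {Sf : Set α} {eL : α → Sym2 V} {A : Set V} {a b : V} {e : α}
    (he : e ∈ Sf) (hab : eL e = s(a, b)) (ha : a ∉ A)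
    (hb : b ∈ VQ ∨ b ∈ Gr (SQ VQ Sf eL) (eQ VQ eL) A) :
    a ∈ VQ ∨ a ∈ Gr (SQ VQ Sf eL) (eQ VQ eL) A := by
  classical
  by_cases h1 : a ∈ VQ
  · exact Or.inl h1
  refine Or.inr ?_
  have h2 : e ∈ SQ VQ Sf eL := ⟨he, a, by rw [hab]; simp, h1⟩
  by_cases h3 : b ∈ VQ
  · refine ⟨ha, a, ha, ⟨e, h2, ?_⟩, ReflTransGen.refl⟩
    have h4 : ∃ v w, eL e = s(v, w) ∧ v ∉ VQ ∧ w ∈ VQ := ⟨a, b, hab, h1, h3⟩
    unfold eQ
    rw [dif_pos h4]
    obtain ⟨w, h5, h6, h7⟩ := h4.choose_spec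
    have h8 : h4.choose = a := by
      have h5' := hab.symm.trans h5
      rcases Sym2.eq_iff.1 h5' with ⟨g, _⟩ | ⟨g, g'⟩
      · exact g.symm
      · exact absurd (g' ▸ h3) h6
    rw [h8]
  · rcases hb with hb | ⟨h4, v, h5, h6, h7⟩
    · exact absurd hb h3
    · refine ⟨ha, v, h5, h6, ReflTransGen.head ⟨⟨e, h2, ?_⟩, ha, h4⟩ h7⟩
      rw [eQ_off, hab]
      intro w hw
      rw [hab, Sym2.mem_iff] at hw
      rcases hw with rfl | rfl
      · exact h1
      · exact h3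

end gr

section

variable {α : Type u} {X₀ β σ : Type} {M : Matroid α}
    {W : RW X₀ β} {el : β → ℕ → α} {ln : σ → ℕ} {N : ℕ} {T : Strip W (CI ln) N} {Lm : ℕ}
    {Sf : Set α} {eL : α → Sym2 (HV (OV X₀ β Lm) σ)} {Q : Set α} {BQ : Set β} {u : ℕ}
    {Ed : CI ln → CI ln → Prop} {Rg : Set α}

/-- `v` is in `VQ` or in the largest ground outside of `A` -/
abbrev Gd (W : RW X₀ β) (T : Strip W (CI ln) N) (Lm : ℕ) (Sf : Set α)
    (eL : α → Sym2 (HV (OV X₀ β Lm) σ)) (BQ : Set β) (A : Set (HV (OV X₀ β Lm) σ))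
    (v : HV (OV X₀ β Lm) σ) : Prop :=
  v ∈ rowL T Lm BQ ∨ v ∈ Gr (SQ (rowL T Lm BQ) Sf eL) (eQ (rowL T Lm BQ) eL) A

/-- the ground spreads along a row, downwards -/
lemma SG.row_down (h : SG M W el T Lm Sf eL Q BQ u Ed Rg) {A : Set (HV (OV X₀ β Lm) σ)} {r : β}
    (hA : ∀ p ≤ W.len r, lab T Lm (W.nd r p) ∉ A) {p : ℕ} (hp : p ≤ W.len r)
    (hg : Gd W T Lm Sf eL BQ A (lab T Lm (W.nd r p))) :
    ∀ q ≤ p, Gd W T Lm Sf eL BQ A (lab T Lm (W.nd r q)) := by
  intro q hq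
  induction hq using Nat.decreasingInduction with
  | self => exact hg
  | of_succ k hk ih =>
    obtain ⟨g1, g2⟩ := h.row r k (by omega)
    exact Gr.spread g1 g2 (hA k (by omega)) ih

/-- the ground spreads along a row, upwards -/
lemma SG.row_up (h : SG M W el T Lm Sf eL Q BQ u Ed Rg) {A : Set (HV (OV X₀ β Lm) σ)} {r : β}
    (hA : ∀ p ≤ W.len r, lab T Lm (W.nd r p) ∉ A) {p : ℕ}
    (hg : Gd W T Lm Sf eL BQ A (lab T Lm (W.nd r p))) :
    ∀ q, p ≤ q → q ≤ W.len r → Gd W T Lm Sf eL BQ A (lab T Lm (W.nd r q)) := by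
  intro q hq
  induction q, hq using Nat.le_induction with
  | base => exact fun _ => hg
  | succ k hk ih =>
    intro h1
    obtain ⟨g1, g2⟩ := h.row r k (by omega)
    exact Gr.spread g1 (by rw [g2, Sym2.eq_swap]) (hA _ h1) (ih (by omega))

/-- a row outside of the rows of a set of column vertices -/
lemma SG.row_off (h : SG M W el T Lm Sf eL Q BQ u Ed Rg) {r : β} {i : CI ln} (hr : r ≠ T.R i)
    {b : ℤ} (h1 : -(N : ℤ) ≤ b) (h2 : b ≤ N + T.m i) {p : ℕ} (hp : p ≤ W.len r) :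
    lab T Lm (W.nd r p) ≠ cv i b := by
  intro h3
  obtain ⟨h4, h5⟩ := T.idx_mem i h1 h2
  have h6 := T.pos i
  have h7 := T.lt i
  have h8 : W.nd (T.R i) (T.idx i b) = Sum.inr (T.R i, T.idx i b) := by
    unfold RW.nd
    rw [if_neg (by omega), if_neg (by omega)]
  have h9 := lab_col T (Lm := Lm) i b h1 h2
  rw [← h8] at h9
  have h10 := lab_inj T h.len hp (show T.idx i b ≤ W.len (T.R i) by omega) (h3.trans h9.symm)
  rw [h8] at h10
  exact hr (nd_inr h10).1

lemma mem_cellV {V : Type*} {s : σ} {c : ℕ} {b : ℤ} {v : HV V σ} :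
    v ∈ (cellV s c b : Set (HV V σ)) ↔ ∃ c' b', v = Sum.inr (s, c', b') ∧ (c' = c ∨ c' = c + 1) ∧
      (b' = b ∨ b' = b + 1) := by
  unfold cellV
  simp only [mem_insert_iff, mem_singleton_iff]
  constructor
  · rintro (rfl | rfl | rfl | rfl)
    · exact ⟨_, _, rfl, Or.inl rfl, Or.inl rfl⟩
    · exact ⟨_, _, rfl, Or.inr rfl, Or.inl rfl⟩
    · exact ⟨_, _, rfl, Or.inl rfl, Or.inr rfl⟩
    · exact ⟨_, _, rfl, Or.inr rfl, Or.inr rfl⟩
  · rintro ⟨c', b', rfl, rfl | rfl, rfl | rfl⟩ <;> simp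

end

/-- **Row JC.** -/
theorem SG.juCells {α : Type u} {X₀ β σ : Type} {M : Matroid α} [M.Finite] [Finite X₀] [Finite β]
    {W : RW X₀ β} {el : β → ℕ → α} {ln : σ → ℕ} {N : ℕ} {T : Strip W (CI ln) N} {Lm : ℕ}
    {Sf : Set α} {eL : α → Sym2 (HV (OV X₀ β Lm) σ)} {Q : Set α} {BQ : Set β} {u : ℕ}
    {Ed : CI ln → CI ln → Prop} {Rg : Set α} (h : SG M W el T Lm Sf eL Q BQ u Ed Rg)
    {Lost : Set β} (s : σ)
    (hEd : ∀ i j : CI ln, i.1.1 = s → j.1.1 = s → j.1.2 = i.1.2 + 1 → Ed i j) {e₂ K : ℕ}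
    (hQ2 : ∀ r₁ r₂, {x : X₀ | ¬ ∃ y, Sum.inl y ∈ rowV W BQ ∧ ReflTransGen (fun a b => ∃ r, r ≠ r₁ ∧
      r ≠ r₂ ∧ ((W.hd r = a ∧ W.tl r = b) ∨ (W.hd r = b ∧ W.tl r = a))) x y}.ncard ≤ e₂)
    (hdeg : ∀ x, {r | W.hd r = x ∨ W.tl r = x}.ncard ≤ 3)
    (hrows : ∃ Rs : Finset β, 3 * e₂ + 2 < Rs.card ∧ ∀ r ∈ Rs, ∃ i : CI ln, i.1.1 = s ∧ T.R i = r)
    (l : ℕ → ℕ) (lev : ℕ → ℤ) (hl : ∀ k < K, l k + 1 < ln s) (hl2 : ∀ k, k + 1 < K → l k + 2 < l (k + 1))
    (hlev : ∀ k < K, -(N : ℤ) ≤ lev k ∧ lev k + 1 ≤ -1) (hln : 4 ≤ ln s) (hN : 4 ≤ N)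
    (hfull : ∀ k < K, (cellV (V := OV X₀ β Lm) s (l k) (lev k)).ncard ≤
      rk (M ／ Q) (ins (Sh W el T Lost Rg eL) eL (cellV s (l k) (lev k)))) :
    JU (M ／ Q) (Sh W el T Lost Rg eL) eL (Finset.range K) (fun k => cellV s (l k) (lev k)) := by
  classical
  have hfin : (M ／ Q).Finite := ⟨M.ground_finite.subset sdiff_subset⟩
  set VQ := rowL T Lm BQ with hVQ
  set S₁ := SQ VQ Sf eL with hS₁
  set e₁ := eQ VQ eL with he₁
  -- increasing columns
  have hmono : ∀ k k', k < k' → k' < K → l k + 2 < l k' := by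
    intro k k' hk
    induction k', hk using Nat.le_induction with
    | base => exact fun h1 => hl2 k h1
    | succ m hm ih =>
      intro h1
      have h2 := ih (by omega)
      have h3 := hl2 m h1
      omega
  -- the column vertices
  have hcol : ∀ c (hc : c < ln s) (b : ℤ),
      (cv (⟨(s, c), hc⟩ : CI ln) b : HV (OV X₀ β Lm) σ) = Sum.inr (s, c, b) := fun _ _ _ => rfl
  have hcell : ∀ k < K, ∀ v ∈ (cellV s (l k) (lev k) : Set (HV (OV X₀ β Lm) σ)), v ∉ VQ := by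
    intro k hk v hv
    obtain ⟨c', b', rfl, h1, h2⟩ := mem_cellV.1 hv
    have h3 := hl k hk
    have h4 := hlev k hk
    have h5 : c' < ln s := by omega
    exact h.cv_off (⟨(s, c'), h5⟩ : CI ln) (b := b') (by omega) (by omega)
  -- the elements inside of the cells
  set S := {e | e ∈ Sh W el T Lost Rg eL ∧ e ∈ Sf ∧ ∀ v ∈ eL e, v ∉ VQ} with hS
  have hSf : ∀ e ∈ Sh W el T Lost Rg eL, e ∈ Sf := by
    rintro e ⟨h1, _⟩
    rcases h1 with (⟨r, k, h2, _, rfl⟩ | ⟨i, k, h2, h3, rfl⟩) | h2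
    · exact (h.row r k h2).1
    · exact (h.row _ k (h3.trans (T.lt i))).1
    · exact (h.rg e h2).1
  have hins : ∀ k < K, ins S e₁ (cellV s (l k) (lev k)) =
      ins (Sh W el T Lost Rg eL) eL (cellV s (l k) (lev k)) := by
    intro k hk
    ext e
    constructor
    · rintro ⟨⟨h1, h2, h3⟩, h4⟩
      refine ⟨h1, ?_⟩
      rw [he₁, eQ_off h3] at h4
      exact h4
    · rintro ⟨h1, h2⟩
      have h3 : ∀ v ∈ eL e, v ∉ VQ := fun v hv => hcell k hk v (h2 v hv)
      refine ⟨⟨h1, hSf e h1, h3⟩, ?_⟩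
      rw [he₁, eQ_off h3]
      exact h2
  have hJ : JU (M ／ Q) S e₁ (Finset.range K) (fun k => cellV s (l k) (lev k)) := by
    refine ju_of_grnd h.frm (fun e he => mem_SQ_off he.2.1 he.2.2) _ _ ?_ ?_
    · intro k hk
      rw [hins k (Finset.mem_range.1 hk)]
      exact hfull k (Finset.mem_range.1 hk)
    intro k hk
    rw [Finset.mem_range] at hk
    set A : Set (HV (OV X₀ β Lm) σ) := cellV s (l k) (lev k) with hA
    refine ⟨Gr S₁ e₁ A, Gr.finite _ _ ((M ／ Q).ground_finite.subset h.frm.sub), Gr.grnd _ _ _,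
      Gr.disj _ _ _, ?_⟩
    -- a third row
    have hlk := hl k hk
    set i₀ : CI ln := ⟨(s, l k), show l k < ln s by omega⟩ with hi₀
    set i₁ : CI ln := ⟨(s, l k + 1), hlk⟩ with hi₁
    obtain ⟨Rs, hRs, hRs'⟩ := hrows
    set Bad : Set X₀ := {x : X₀ | ¬ ∃ y, Sum.inl y ∈ rowV W BQ ∧ ReflTransGen (fun a b => ∃ r,
      r ≠ T.R i₀ ∧ r ≠ T.R i₁ ∧ ((W.hd r = a ∧ W.tl r = b) ∨ (W.hd r = b ∧ W.tl r = a))) x y}
      with hBad
    have hBadc : Bad.ncard ≤ e₂ := hQ2 _ _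
    obtain ⟨r₃, hr3, hr30, hr31, hr3b⟩ : ∃ r ∈ Rs, r ≠ T.R i₀ ∧ r ≠ T.R i₁ ∧ W.hd r ∉ Bad := by
      by_contra hcon
      push Not at hcon
      have h1 : (Rs : Set β) ⊆ (⋃ x ∈ Bad, {r | W.hd r = x ∨ W.tl r = x}) ∪ {T.R i₀, T.R i₁} := by
        intro r hr
        by_cases h2 : r = T.R i₀
        · exact Or.inr (Or.inl h2)
        by_cases h3 : r = T.R i₁
        · exact Or.inr (Or.inr h3)
        exact Or.inl (mem_iUnion₂.2 ⟨W.hd r, hcon r hr h2 h3, Or.inl rfl⟩)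
      have hBf : Bad.Finite := Set.toFinite _
      have h2 : (⋃ x ∈ Bad, {r | W.hd r = x ∨ W.tl r = x}).ncard ≤ 3 * e₂ := by
        have e1 : (⋃ x ∈ Bad, {r | W.hd r = x ∨ W.tl r = x}) =
            ⋃ x ∈ hBf.toFinset, {r | W.hd r = x ∨ W.tl r = x} := by
          simp
        rw [e1]
        calc (⋃ x ∈ hBf.toFinset, {r | W.hd r = x ∨ W.tl r = x}).ncard
            ≤ ∑ x ∈ hBf.toFinset, {r | W.hd r = x ∨ W.tl r = x}.ncard :=
              Finset.set_ncard_biUnion_le _ _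
          _ ≤ ∑ x ∈ hBf.toFinset, 3 := Finset.sum_le_sum fun x _ => hdeg x
          _ = 3 * Bad.ncard := by
            rw [Finset.sum_const, smul_eq_mul, Set.ncard_eq_toFinset_card _ hBf, mul_comm]
          _ ≤ 3 * e₂ := Nat.mul_le_mul_left _ hBadc
      have h3 : ({T.R i₀, T.R i₁} : Set β).ncard ≤ 2 :=
        (Set.ncard_insert_le _ _).trans (by simp)
      have h4 := (Set.ncard_le_ncard h1 (Set.toFinite _)).trans (Set.ncard_union_le _ _)
      rw [Set.ncard_coe_finset] at h4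
      omega
    obtain ⟨i₃, hi3, hi3r⟩ := hRs' r₃ hr3
    -- rows outside of the two rows avoid the cell
    have hoff : ∀ r, r ≠ T.R i₀ → r ≠ T.R i₁ → ∀ p ≤ W.len r, lab T Lm (W.nd r p) ∉ A := by
      intro r h1 h2 p hp h3
      obtain ⟨c', b', h4, h5, h6⟩ := mem_cellV.1 h3
      have h7 := hlev k hk
      rcases h5 with rfl | rfl
      · exact h.row_off h1 (b := b') (by omega) (by omega) hp h4
      · exact h.row_off h2 (b := b') (by omega) (by omega) hp h4
    -- the wall vertices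
    have hwall : ∀ x ∉ Bad, Gd W T Lm Sf eL BQ A (lab T Lm (Sum.inl x)) := by
      intro x hx
      rw [hBad, mem_ofPred_eq, not_not] at hx
      obtain ⟨y, hy, hxy⟩ := hx
      induction hxy using ReflTransGen.head_induction_on with
      | refl => exact Or.inl ⟨_, hy, rfl⟩
      | @head a b h1 _ ih =>
        obtain ⟨r, h2, h3, h4⟩ := h1
        have h5 := (h.len r).1
        rcases h4 with ⟨h4, h6⟩ | ⟨h4, h6⟩
        · have h7 := h.row_down (hoff r h2 h3) (p := W.len r) le_rfl (by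
            rw [W.nd_len h5, h6]; exact ih) 0 (Nat.zero_le _)
          rw [W.nd_zero, h4] at h7
          exact h7
        · have h7 := h.row_up (hoff r h2 h3) (p := 0) (by
            rw [W.nd_zero, h4]; exact ih) (W.len r) (Nat.zero_le _) le_rfl
          rw [W.nd_len h5, h6] at h7
          exact h7
    have hrow3 : ∀ p ≤ W.len r₃, Gd W T Lm Sf eL BQ A (lab T Lm (W.nd r₃ p)) := by
      intro p hp
      have h1 := hwall _ hr3b
      rw [← W.nd_zero] at h1
      exact h.row_up (hoff r₃ hr30 hr31) h1 p (Nat.zero_le _) hp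
    -- the column of the third row
    have hi3l : i₃.1.2 < ln s := by
      have := i₃.2
      rw [hi3] at this
      exact this
    have hi3e : i₃ = ⟨(s, i₃.1.2), hi3l⟩ := by
      apply Subtype.ext
      exact Prod.ext hi3 rfl
    have hc3 : i₃.1.2 ≠ l k ∧ i₃.1.2 ≠ l k + 1 := by
      constructor
      · intro h1
        refine hr30 ?_
        rw [← hi3r]
        congr 1
        exact Subtype.ext (Prod.ext hi3 h1)
      · intro h1
        refine hr31 ?_
        rw [← hi3r]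
        congr 1
        exact Subtype.ext (Prod.ext hi3 h1)
    have hcol3 : ∀ b : ℤ, -(N : ℤ) ≤ b → b ≤ -1 →
        Gd W T Lm Sf eL BQ A (Sum.inr (s, i₃.1.2, b)) := by
      intro b h1 h2
      have h3 := lab_nd T (Lm := Lm) i₃ b h1 (by omega)
      obtain ⟨h4, h5⟩ := T.idx_mem i₃ h1 (show b ≤ N + T.m i₃ by omega)
      have h6 := T.lt i₃
      have h7 := hrow3 (T.idx i₃ b) (by rw [← hi3r]; omega)
      rw [← hi3r, h3] at h7
      have h8 : (cv i₃ b : HV (OV X₀ β Lm) σ) = Sum.inr (s, i₃.1.2, b) := by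
        unfold cv
        rw [hi3]
      rw [h8] at h7
      exact h7
    -- vertices outside of the cell
    have hnA : ∀ (c : ℕ) (b : ℤ), ((c ≠ l k ∧ c ≠ l k + 1) ∨ (b ≠ lev k ∧ b ≠ lev k + 1)) →
        (Sum.inr (s, c, b) : HV (OV X₀ β Lm) σ) ∉ A := by
      intro c b h1 h2
      obtain ⟨c', b', h3, h4, h5⟩ := mem_cellV.1 h2
      simp only [Sum.inr.injEq, Prod.mk.injEq, true_and] at h3
      obtain ⟨rfl, rfl⟩ := h3
      rcases h1 with h1 | h1 <;> omega
    -- a level outside of the cell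
    obtain ⟨b₀, hb0, hb0', hb01, hb02⟩ : ∃ b₀ : ℤ, -(N : ℤ) ≤ b₀ ∧ b₀ ≤ -1 ∧ b₀ ≠ lev k ∧
        b₀ ≠ lev k + 1 := by
      by_cases h1 : (-1 : ℤ) ≠ lev k ∧ (-1 : ℤ) ≠ lev k + 1
      · exact ⟨-1, by omega, by omega, h1.1, h1.2⟩
      · refine ⟨-4, by omega, by omega, ?_, ?_⟩ <;>
        · have := hlev k hk
          omega
    -- the row of the page
    have hstep : ∀ c (hc : c + 1 < ln s), ∃ e ∈ Sf, eL e = s(Sum.inr (s, c, b₀),
        Sum.inr (s, c + 1, b₀)) := by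
      intro c hc
      obtain ⟨e, he, hee⟩ := h.rg_ex ⟨(s, c), show c < ln s by omega⟩ ⟨(s, c + 1), hc⟩ (hEd _ _ rfl rfl rfl) b₀
        hb0 (by omega) (by omega)
      exact ⟨e, (h.rg e he).1, hee⟩
    have hpage : ∀ c < ln s, Gd W T Lm Sf eL BQ A (Sum.inr (s, c, b₀)) := by
      have hup : ∀ c, i₃.1.2 ≤ c → c < ln s → Gd W T Lm Sf eL BQ A (Sum.inr (s, c, b₀)) := by
        intro c hc
        induction c, hc using Nat.le_induction with
        | base => exact fun _ => hcol3 b₀ hb0 hb0'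
        | succ m hm ih =>
          intro h1
          obtain ⟨e, he, hee⟩ := hstep m h1
          exact Gr.spread he (by rw [hee, Sym2.eq_swap]) (hnA _ _ (Or.inr ⟨hb01, hb02⟩))
            (ih (by omega))
      have hdn : ∀ c ≤ i₃.1.2, Gd W T Lm Sf eL BQ A (Sum.inr (s, c, b₀)) := by
        intro c hc
        induction hc using Nat.decreasingInduction with
        | self => exact hcol3 b₀ hb0 hb0'
        | of_succ m hm ih =>
          obtain ⟨e, he, hee⟩ := hstep m (by omega)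
          exact Gr.spread he hee (hnA _ _ (Or.inr ⟨hb01, hb02⟩)) ih
      intro c hc
      rcases le_total c i₃.1.2 with h1 | h1
      · exact hdn c h1
      · exact hup c h1 hc
    -- a column outside of the cell
    have hcolumn : ∀ c, c < ln s → c ≠ l k → c ≠ l k + 1 → ∀ b : ℤ, -(N : ℤ) ≤ b → b ≤ -1 →
        Gd W T Lm Sf eL BQ A (Sum.inr (s, c, b)) := by
      intro c hc h1 h2
      have hv : ∀ b : ℤ, -(N : ℤ) ≤ b → b < -1 → ∃ e ∈ Sf, eL e = s(Sum.inr (s, c, b),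
          Sum.inr (s, c, b + 1)) := by
        intro b h3 h4
        obtain ⟨q, q1, q2, q3⟩ := lab_step T (Lm := Lm) (⟨(s, c), hc⟩ : CI ln) b
          (Or.inl ⟨h3, h4⟩)
        have h6 := T.lt (⟨(s, c), hc⟩ : CI ln)
        obtain ⟨g1, g2⟩ := h.row (T.R ⟨(s, c), hc⟩) q (by omega)
        exact ⟨_, g1, g2.trans q3⟩
      have hup : ∀ n : ℕ, b₀ + n ≤ -1 → Gd W T Lm Sf eL BQ A (Sum.inr (s, c, b₀ + n)) := by
        intro n
        induction n with
        | zero =>
          intro _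
          simpa using hpage c hc
        | succ m ih =>
          intro h3
          push_cast at h3
          obtain ⟨e, he, hee⟩ := hv (b₀ + m) (by omega) (by omega)
          have h4 := Gr.spread (VQ := rowL T Lm BQ) (A := A) he
            (show eL e = s(Sum.inr (s, c, b₀ + m + 1), Sum.inr (s, c, b₀ + m)) by
              rw [hee, Sym2.eq_swap]) (hnA _ _ (Or.inl ⟨h1, h2⟩)) (ih (by omega))
          have e1 : b₀ + ((m + 1 : ℕ) : ℤ) = b₀ + m + 1 := by push_cast; ring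
          rw [e1]
          exact h4
      have hdn : ∀ n : ℕ, -(N : ℤ) ≤ b₀ - n → Gd W T Lm Sf eL BQ A (Sum.inr (s, c, b₀ - n)) := by
        intro n
        induction n with
        | zero =>
          intro _
          simpa using hpage c hc
        | succ m ih =>
          intro h3
          push_cast at h3
          obtain ⟨e, he, hee⟩ := hv (b₀ - m - 1) (by omega) (by omega)
          have e2 : b₀ - (m : ℤ) - 1 + 1 = b₀ - m := by ring
          rw [e2] at hee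
          have h4 := Gr.spread (VQ := rowL T Lm BQ) (A := A) he hee
            (hnA _ _ (Or.inl ⟨h1, h2⟩)) (ih (by omega))
          have e1 : b₀ - ((m + 1 : ℕ) : ℤ) = b₀ - m - 1 := by push_cast; ring
          rw [e1]
          exact h4
      intro b h3 h4
      rcases le_total b₀ b with h5 | h5
      · have h6 := hup (b - b₀).toNat (by omega)
        have e1 : b₀ + (((b - b₀).toNat : ℕ) : ℤ) = b := by omega
        rw [e1] at h6
        exact h6
      · have h6 := hdn (b₀ - b).toNat (by omega)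
        have e1 : b₀ - (((b₀ - b).toNat : ℕ) : ℤ) = b := by omega
        rw [e1] at h6
        exact h6
    -- the other cells
    intro j hj hjk v hv
    rw [Finset.mem_range] at hj
    obtain ⟨c, b, rfl, h1, h2⟩ := mem_cellV.1 hv
    have h3 := hl j hj
    have h4 := hlev j hj
    have h5 : c ≠ l k ∧ c ≠ l k + 1 := by
      rcases lt_or_gt_of_ne hjk with h6 | h6
      · have := hmono j k h6 hk
        omega
      · have := hmono k j h6 hj
        omega
    have h6 := hcolumn c (by omega) h5.1 h5.2 b (by omega) (by omega)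
    rcases h6 with h6 | h6
    · exact absurd h6 (hcell j hj _ hv)
    · exact h6
  -- back to `Sh`
  unfold JU at hJ ⊢
  refine hJ.trans (rk_mono _ ?_)
  refine iUnion₂_mono fun k hk => ?_
  exact (hins k (Finset.mem_range.1 hk)).le

end TST
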