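import Pool.Agent.TST.Reps

/-!
# Some elements of every row are kept, the other elements of the rows are contracted
-/

open Set BIC BICS
open scoped Matroid

namespace TST

open CWL

variable {α : Type*} {M : Matroid α} {R : Set α} {ends : α → Sym2 ((ℕ × ℕ) ⊕ α)}
  {L : Bool × ℕ × ℕ → List α} {y u : ℕ}

/-- one row: an initial part is contracted -/
theorem con_pre {s : Bool × ℕ × ℕ} (hs : s ∈ Seg y) {K : List α} (hK : K ≠ []) :
    ∀ (l : List α) (M : Matroid α) [M.Finite] (R : Set α) (ends : α → Sym2 ((ℕ × ℕ) ⊕ α))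
      (L : Bool × ℕ × ℕ → List α), L s = l ++ K → SubWall R ends L y → BicU M R ends u →
      ∃ ends', SubWall (R \ {x | x ∈ l}) ends' (Function.update L s K) y ∧
        BicU (M ／ {x | x ∈ l}) (R \ {x | x ∈ l}) ends' u := by
  classical
  intro l
  induction l with
  | nil =>
    intro M _ R ends L hL hW hB
    have e : ({x | x ∈ ([] : List α)} : Set α) = ∅ := by ext; simp
    refine ⟨ends, ?_, ?_⟩
    · rw [e, sdiff_empty]
      rw [List.nil_append] at hL
      rw [← hL, Function.update_eq_self]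
      exact hW
    · rw [e, sdiff_empty, Matroid.contract_empty]
      exact hB
  | cons c l ih =>
    intro M _ R ends L hL hW hB
    obtain ⟨e1, h1, h2⟩ := con_one hW hB hs (c := c) (l := l ++ K) (by rw [hL]; rfl)
      (by simp [hK])
    have hf : (M ／ {c}).Finite := BQ.fin_contract _
    obtain ⟨e2, h3, h4⟩ := ih (M ／ {c}) (R \ {c}) e1 (Function.update L s (l ++ K))
      (by rw [Function.update_self]) h1 h2
    have e : (R \ ({c} : Set α)) \ {x | x ∈ l} = R \ {x | x ∈ c :: l} := by
      ext x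
      simp only [mem_sdiff, mem_singleton_iff, mem_ofPred_eq, List.mem_cons, not_or]
      tauto
    have e' : M ／ ({c} : Set α) ／ {x | x ∈ l} = M ／ {x | x ∈ c :: l} := by
      rw [Matroid.contract_contract]
      congr 1
      ext x
      simp
    rw [Function.update_idem, e] at h3
    rw [e, e'] at h4
    exact ⟨e2, h3, h4⟩

/-- **KEEP.** The elements `K s` of the row `s` are kept (in this order), the others, `D s`, are
contracted. -/
theorem con_keep [M.Finite] (hW : SubWall R ends L y) (hB : BicU M R ends u)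
    {D K : Bool × ℕ × ℕ → List α} (h : ∀ s ∈ Seg y, (L s).Perm (D s ++ K s) ∧ K s ≠ []) :
    ∃ ends' : α → Sym2 ((ℕ × ℕ) ⊕ α),
      SubWall (R \ {x | ∃ s ∈ Seg y, x ∈ D s}) ends' K y ∧
      BicU (M ／ {x | ∃ s ∈ Seg y, x ∈ D s}) (R \ {x | ∃ s ∈ Seg y, x ∈ D s}) ends' u := by
  classical
  have key : ∀ T : Finset (Bool × ℕ × ℕ), (T : Set (Bool × ℕ × ℕ)) ⊆ Seg y →
      ∃ (ends' : α → Sym2 ((ℕ × ℕ) ⊕ α)),
        SubWall (R \ {x | ∃ s ∈ T, x ∈ D s}) ends' (fun s => if s ∈ T then K s else L s) y ∧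
        BicU (M ／ {x | ∃ s ∈ T, x ∈ D s}) (R \ {x | ∃ s ∈ T, x ∈ D s}) ends' u := by
    intro T
    induction T using Finset.induction_on with
    | empty =>
      intro _
      have e : ({x | ∃ s ∈ (∅ : Finset (Bool × ℕ × ℕ)), x ∈ D s} : Set α) = ∅ := by
        ext; simp
      refine ⟨ends, ?_, ?_⟩
      · rw [e, sdiff_empty]; simpa using hW
      · rw [e, sdiff_empty, Matroid.contract_empty]; exact hB
    | insert s T hsT ih =>
      intro hT
      have hs : s ∈ Seg y := hT (by simp)
      obtain ⟨e1, h1, h2⟩ := ih (fun a ha => hT (by simp only [Finset.coe_insert]; exact Or.inr ha))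
      have hf : (M ／ {x | ∃ s ∈ T, x ∈ D s}).Finite := BQ.fin_contract _
      obtain ⟨e2, h3, h4⟩ := perm_row hs (h s hs).1 [] _ e1 (by simp [hsT]) h1 h2
      obtain ⟨e3, h5, h6⟩ := con_pre hs (h s hs).2 (D s) _ _ e2 _
        (by rw [Function.update_self]; simp) h3 h4
      have eR : (R \ {x | ∃ s ∈ T, x ∈ D s}) \ {x | x ∈ D s} =
          R \ {x | ∃ s' ∈ (insert s T : Finset (Bool × ℕ × ℕ)), x ∈ D s'} := by
        ext x
        simp only [mem_sdiff, mem_ofPred_eq, Finset.mem_insert, exists_eq_or_imp]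
        rw [and_assoc]
        refine and_congr_right fun _ => ?_
        rw [not_or]
        exact and_comm
      have eM : M ／ {x | ∃ s ∈ T, x ∈ D s} ／ {x | x ∈ D s} =
          M ／ {x | ∃ s' ∈ (insert s T : Finset (Bool × ℕ × ℕ)), x ∈ D s'} := by
        rw [Matroid.contract_contract]
        congr 1
        ext x
        simp only [mem_union, mem_ofPred_eq, Finset.mem_insert, exists_eq_or_imp]
        exact or_comm
      rw [eR] at h5 h6
      rw [eM] at h6
      refine ⟨e3, subWall_congr h5 ?_, h6⟩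
      intro s' hs'
      by_cases hss : s' = s
      · subst hss
        simp
      · simp [hss]
  obtain ⟨e, h1, h2⟩ := key (seg_finite y).toFinset (by simp)
  have hset : {x | ∃ s ∈ (seg_finite y).toFinset, x ∈ D s} = {x | ∃ s ∈ Seg y, x ∈ D s} := by
    ext x
    simp
  rw [hset] at h1 h2
  refine ⟨e, subWall_congr h1 ?_, h2⟩
  intro s hs
  simp [hs]

/-- the set of all elements of the kept lists -/
lemma keep_set (hW : SubWall R ends L y) {D K : Bool × ℕ × ℕ → List α}
    (h : ∀ s ∈ Seg y, (L s).Perm (D s ++ K s) ∧ K s ≠ []) :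
    R \ {x | ∃ s ∈ Seg y, x ∈ D s} = {x | ∃ s ∈ Seg y, x ∈ K s} := by
  ext x
  constructor
  · rintro ⟨h1, h2⟩
    obtain ⟨s, hs, hx⟩ := (hW.mem x).1 h1
    have h3 := (h s hs).1.mem_iff.1 hx
    rcases List.mem_append.1 h3 with h4 | h4
    · exact absurd ⟨s, hs, h4⟩ h2
    · exact ⟨s, hs, h4⟩
  · rintro ⟨s, hs, hx⟩
    have h1 : x ∈ L s := (h s hs).1.mem_iff.2 (List.mem_append_right _ hx)
    refine ⟨(hW.mem x).2 ⟨s, hs, h1⟩, ?_⟩
    rintro ⟨s', hs', hx'⟩
    have h2 : x ∈ L s' := (h s' hs').1.mem_iff.2 (List.mem_append_left _ hx')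
    by_cases hss : s = s'
    · subst hss
      have h3 := (h s hs).1.nodup_iff.1 (hW.nodup s hs)
      exact (List.nodup_append.1 h3).2.2 x hx' x hx rfl
    · exact hW.disj s hs s' hs' hss h1 h2

/-- the elements of the wall which avoid an inner vertex of a row -/
lemma ins_inner (hW : SubWall R ends L y) {s : Bool × ℕ × ℕ} (hs : s ∈ Seg y) {i : ℕ}
    (hi : i + 1 < (L s).length) :
    ins R ends {node s (L s) (i + 1)}ᶜ = R \ {(L s)[i], (L s)[i + 1]} := by
  have n1 : node s (L s) (i + 1) = Sum.inr ((L s)[i]) := by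
    unfold node
    rw [if_neg (by omega), if_neg (by omega), List.getElem?_eq_getElem (by omega)]
    simp only [Nat.add_sub_cancel]
  have g1 : node s (L s) (i + 1) ∈ ends ((L s)[i]) := by
    rw [hW.end_eq s hs i (by omega)]
    exact Sym2.mem_mk_right _ _
  have g2 : node s (L s) (i + 1) ∈ ends ((L s)[i + 1]) := by
    rw [hW.end_eq s hs (i + 1) hi]
    exact Sym2.mem_mk_left _ _
  ext f
  constructor
  · rintro ⟨h1, h2⟩
    refine ⟨h1, ?_⟩
    rintro (rfl | h3)
    · exact h2 _ g1 rfl
    · rw [mem_singleton_iff] at h3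
      subst h3
      exact h2 _ g2 rfl
  · rintro ⟨h1, h2⟩
    refine ⟨h1, fun v hv hvx => h2 ?_⟩
    rw [mem_singleton_iff] at hvx
    rw [hvx, n1] at hv
    exact inner_mem hW hs hi rfl h1 hv

/-- the elements of the wall which avoid a branch vertex -/
lemma ins_branch (hW : SubWall R ends L y) (p : ℕ × ℕ) :
    ins R ends {Sum.inl p}ᶜ = R \ {x | ∃ s ∈ Seg y, (segNear s = p ∧ (L s).head? = some x) ∨
      (segFar s = p ∧ (L s).getLast? = some x)} := by
  ext f
  constructor
  · rintro ⟨h1, h2⟩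
    refine ⟨h1, ?_⟩
    rintro ⟨s, hs, ⟨h3, h4⟩ | ⟨h3, h4⟩⟩
    · obtain ⟨l, hl⟩ : ∃ l, L s = f :: l := by
        cases hL : L s with
        | nil => rw [hL] at h4; simp at h4
        | cons a l => rw [hL] at h4; simp at h4; exact ⟨l, by rw [h4]⟩
      have h5 := hW.end_eq s hs 0 (by rw [hl]; simp)
      rw [node_zero, h3] at h5
      have h6 : (L s)[0]'(by rw [hl]; simp) = f := by simp [hl]
      rw [h6] at h5
      exact h2 (Sum.inl p) (by rw [h5]; exact Sym2.mem_mk_left _ _) rfl
    · have hne := hW.ne s hs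
      have hlen : 0 < (L s).length := List.length_pos_iff.2 hne
      have h5 := hW.end_eq s hs ((L s).length - 1) (by omega)
      have h6 : (L s)[(L s).length - 1]'(by omega) = f := by
        rw [List.getLast?_eq_getLast_of_ne_nil hne, Option.some.injEq] at h4
        rw [← h4, List.getLast_eq_getElem]
      have h7 : (L s).length - 1 + 1 = (L s).length := by omega
      rw [h6, h7, node_len s hne, h3] at h5
      exact h2 (Sum.inl p) (by rw [h5]; exact Sym2.mem_mk_right _ _) rfl
  · rintro ⟨h1, h2⟩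
    refine ⟨h1, fun v hv hvx => h2 ?_⟩
    rw [mem_singleton_iff] at hvx
    subst hvx
    obtain ⟨s, hs, hfs⟩ := (hW.mem f).1 h1
    obtain ⟨j, hj, rfl⟩ := List.getElem_of_mem hfs
    rw [hW.end_eq s hs j hj, Sym2.mem_iff] at hv
    have key : ∀ k ≤ (L s).length, (Sum.inl p : (ℕ × ℕ) ⊕ α) = node s (L s) k →
        (k = 0 ∧ segNear s = p) ∨ (k = (L s).length ∧ segFar s = p) := by
      intro k hk h
      unfold node at h
      by_cases h0 : k = 0
      · rw [if_pos h0, Sum.inl.injEq] at h
        exact Or.inl ⟨h0, h.symm⟩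
      · by_cases h3 : k = (L s).length
        · rw [if_neg h0, if_pos h3, Sum.inl.injEq] at h
          exact Or.inr ⟨h3, h.symm⟩
        · rw [if_neg h0, if_neg h3, List.getElem?_eq_getElem (by omega)] at h
          simp at h
    refine ⟨s, hs, ?_⟩
    rcases hv with h | h
    · rcases key j (by omega) h with ⟨rfl, h4⟩ | ⟨h3, h4⟩
      · left
        refine ⟨h4, ?_⟩
        rw [List.head?_eq_getElem?, List.getElem?_eq_getElem hj]
      · omega
    · rcases key (j + 1) (by omega) h with ⟨h3, h4⟩ | ⟨h3, h4⟩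
      · omega
      · right
        refine ⟨h4, ?_⟩
        rw [List.getLast?_eq_getElem?]
        have : (L s).length - 1 = j := by omega
        rw [this, List.getElem?_eq_getElem hj]

end TST
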