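import Pool.Agent.TST.GamS74
import Pool.Agent.DA.GoodCls
import Pool.Agent.DA.Geo2

/-!
# Kinds of the elements which see a visible row (joint of R8 and R9, Claim F)

`onP_of_one`: an element which sees a row and has at most one own vertex for all representatives (off
an exceptional set) has exactly one visible place.  `sees_kind`: an element with at most two locations
either has two own vertices for some representatives, with a support of at most four vertices away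
from the bad vertices, or it has exactly one visible place.
-/

open Set BIC BICS CWL
open scoped Matroid

namespace TSH

universe u

open DA

/-- representatives of the rows -/
def Rp {α : Type*} (w : ℕ) (L₁ : Bool × ℕ × ℕ → List α) (C : Bool × ℕ × ℕ → α) : Prop :=
  ∀ r ∈ Seg w, C r ∈ L₁ r

/-- the vertex `p` is own for `z` and the representatives `C` -/
def Own {α : Type*} (M : Matroid α) (w : ℕ) (L₁ : Bool × ℕ × ℕ → List α)
    (C : Bool × ℕ × ℕ → α) (z : α) (p : ℕ × ℕ) : Prop :=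
  z ∉ M.closure (crr L₁ (Seg w) \ stg w C p)

section

variable {α : Type u} {M : Matroid α} {w u : ℕ} {L₁ : Bool × ℕ × ℕ → List α}
  {f₁ : α → Sym2 ((ℕ × ℕ) ⊕ α)} {e₁ C C' g : Bool × ℕ × ℕ → α} {row : α → Sym2 (ℕ × ℕ)}
  {z x y : α} {p : ℕ × ℕ} {r r₀ : Bool × ℕ × ℕ}

lemma row_eq {r r' : Bool × ℕ × ℕ} (h1 : segNear r' = segNear r ∨ segFar r' = segNear r)
    (h2 : segNear r' = segFar r ∨ segFar r' = segFar r) : r = r' := by
  have hnf := T2.near_ne_far r
  refine srow_inj ?_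
  unfold srow
  rw [Sym2.eq_iff]
  rcases h1 with h1 | h1 <;> rcases h2 with h2 | h2
  · exact absurd (h1.symm.trans h2) hnf
  · exact Or.inl ⟨h1.symm, h2.symm⟩
  · exact Or.inr ⟨h1.symm, h2.symm⟩
  · exact absurd (h1.symm.trans h2) hnf

lemma Rp.upd (hC : Rp w L₁ C) [DecidableEq (Bool × ℕ × ℕ)] (hy : y ∈ L₁ r) :
    Rp w L₁ (Function.update C r y) := by
  intro s hs
  by_cases h : s = r
  · subst h
    rw [Function.update_self]
    exact hy
  · rw [Function.update_of_ne h]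
    exact hC s hs

lemma stg_congr (h : ∀ s ∈ Seg w, (segNear s = p ∨ segFar s = p) → C s = C' s) :
    stg w C p = stg w C' p := by
  ext x
  constructor
  · rintro ⟨s, hs, h1, rfl⟩
    exact ⟨s, hs, h1, h s hs h1⟩
  · rintro ⟨s, hs, h1, rfl⟩
    exact ⟨s, hs, h1, (h s hs h1).symm⟩

lemma Own.congr (h : ∀ s ∈ Seg w, (segNear s = p ∨ segFar s = p) → C s = C' s) :
    Own M w L₁ C z p ↔ Own M w L₁ C' z p := by
  unfold Own
  rw [stg_congr h]

lemma own_upd [DecidableEq (Bool × ℕ × ℕ)] (h : ¬ (segNear r = p ∨ segFar r = p)) :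
    Own M w L₁ (Function.update C r y) z p ↔ Own M w L₁ C z p := by
  refine Own.congr fun s _ h1 => ?_
  have h2 : s ≠ r := by
    rintro rfl
    exact h h1
  rw [Function.update_of_ne h2]

variable (hrow : ∀ s ∈ Seg w, ∀ x ∈ L₁ s, row x = srow s)
include hrow

lemma wallE_of (hC : Rp w L₁ C) : C '' Seg w ⊆ crr L₁ (Seg w) ∧ WallE (C '' Seg w) row w ∅ := by
  refine ⟨?_, ?_, ?_, ?_⟩
  · rintro _ ⟨s, hs, rfl⟩
    exact ⟨s, hs, hC s hs⟩
  · rintro _ ⟨s, hs, rfl⟩ _ ⟨s', hs', rfl⟩ h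
    rw [hrow s hs _ (hC s hs), hrow s' hs' _ (hC s' hs')] at h
    rw [srow_inj h]
  · rintro _ ⟨s, hs, rfl⟩
    obtain ⟨h1, h2, h3⟩ := wadj_srow hs
    exact ⟨_, _, hrow s hs _ (hC s hs), h1, h2, h3⟩
  · intro p q hpq hp hq _
    obtain ⟨s, hs, h1⟩ := seg_of_wadj hpq hp hq
    exact ⟨_, ⟨s, hs, rfl⟩, by rw [hrow s hs _ (hC s hs), h1]⟩

omit hrow in
lemma mem_srow {s : Bool × ℕ × ℕ} : p ∈ srow s ↔ (segNear s = p ∨ segFar s = p) := by
  unfold srow
  rw [Sym2.mem_iff]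
  constructor
  · rintro (h | h)
    · exact Or.inl h.symm
    · exact Or.inr h.symm
  · rintro (h | h)
    · exact Or.inl h.symm
    · exact Or.inr h.symm

lemma star_of (hC : Rp w L₁ C) : {e | e ∈ C '' Seg w ∧ p ∈ row e} = stg w C p := by
  ext x
  constructor
  · rintro ⟨⟨s, hs, rfl⟩, h1⟩
    rw [hrow s hs _ (hC s hs), mem_srow] at h1
    exact ⟨s, hs, h1, rfl⟩
  · rintro ⟨s, hs, h1, rfl⟩
    refine ⟨⟨s, hs, rfl⟩, ?_⟩
    rw [hrow s hs _ (hC s hs), mem_srow]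
    exact h1

lemma own_iff (hC : Rp w L₁ C) :
    Own M w L₁ C z p ↔ p ∈ LocR M (crr L₁ (Seg w)) row (C '' Seg w) z := by
  unfold Own LocR
  rw [mem_ofPred_eq, star_of hrow hC]

lemma swp_of (hC : Rp w L₁ C) [DecidableEq (Bool × ℕ × ℕ)] (hr : r ∈ Seg w) (hy : y ∈ L₁ r) :
    swp row (C '' Seg w) y = (Function.update C r y) '' Seg w := by
  ext x
  constructor
  · rintro (⟨⟨s, hs, rfl⟩, h1⟩ | h1)
    · refine ⟨s, hs, ?_⟩
      have h2 : s ≠ r := by
        rintro rfl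
        exact h1 (by rw [hrow s hs _ (hC s hs), hrow s hs _ hy])
      rw [Function.update_of_ne h2]
    · rw [mem_singleton_iff] at h1
      subst h1
      exact ⟨r, hr, by rw [Function.update_self]⟩
  · rintro ⟨s, hs, rfl⟩
    by_cases h2 : s = r
    · subst h2
      rw [Function.update_self]
      exact Or.inr rfl
    · rw [Function.update_of_ne h2]
      refine Or.inl ⟨⟨s, hs, rfl⟩, fun h1 => h2 ?_⟩
      rw [hrow s hs _ (hC s hs), hrow r hr _ hy] at h1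
      exact srow_inj h1

/-- no own vertex before and after the change: not separated -/
lemma own_nsep [M.Finite] (hG : GSide M (Seg w) L₁ f₁ e₁ u) [DecidableEq (Bool × ℕ × ℕ)]
    (hv : VC M (crr L₁ (Seg w)) row w p) (hC : Rp w L₁ C) (hr : r ∈ Seg w)
    (hp : segNear r = p ∨ segFar r = p) (hy : y ∈ L₁ r) (h1 : ¬ Own M w L₁ C z p)
    (h2 : ¬ Own M w L₁ (Function.update C r y) z p) :
    z ∈ M.closure (crr L₁ (Seg w) \ {C r, y}) := by
  obtain ⟨hc, hW⟩ := wallE_of hrow hC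
  have h3 := hC r hr
  refine hv.nsep hG.sub_ground hc hW ⟨r, hr, rfl⟩ ⟨r, hr, hy⟩ ?_ ?_ ?_ ?_
  · rw [hrow r hr _ hy, hrow r hr _ h3]
  · rw [hrow r hr _ h3, mem_srow]
    exact hp
  · rw [star_of hrow hC]
    exact not_not.1 h1
  · rw [swp_of hrow hC hr hy, star_of hrow (hC.upd hy)]
    exact not_not.1 h2

/-- a change without separation does not make a vertex own -/
lemma own_swap [M.Finite] (hG : GSide M (Seg w) L₁ f₁ e₁ u) [DecidableEq (Bool × ℕ × ℕ)]
    (hv : VC M (crr L₁ (Seg w)) row w p) (hC : Rp w L₁ C) (hr : r ∈ Seg w)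
    (hp : segNear r = p ∨ segFar r = p) (hy : y ∈ L₁ r)
    (hs : y ≠ C r → z ∈ M.closure (crr L₁ (Seg w) \ {C r, y})) (h1 : ¬ Own M w L₁ C z p) :
    ¬ Own M w L₁ (Function.update C r y) z p := by
  by_cases hyr : y = C r
  · rwa [hyr, Function.update_eq_self]
  obtain ⟨hc, hW⟩ := wallE_of hrow hC
  have h3 := hC r hr
  have h4 := hv.swap hG.sub_ground hc hW ⟨r, hr, rfl⟩ ⟨r, hr, hy⟩
    (by rw [hrow r hr _ hy, hrow r hr _ h3]) (by rw [hrow r hr _ h3, mem_srow]; exact hp)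
    hyr (hs hyr) (by rw [star_of hrow hC]; exact not_not.1 h1)
  rw [swp_of hrow hC hr hy, star_of hrow (hC.upd hy)] at h4
  exact not_not.2 h4

/-- own vertices depend only on the rows which are seen -/
lemma own_indep [M.Finite] (hG : GSide M (Seg w) L₁ f₁ e₁ u)
    (hv : VC M (crr L₁ (Seg w)) row w p) (hC : Rp w L₁ C) (hC' : Rp w L₁ C')
    (h : ∀ s ∈ Seg w, (segNear s = p ∨ segFar s = p) → C s ≠ C' s →
      ∀ x ∈ L₁ s, ∀ y ∈ L₁ s, x ≠ y → z ∈ M.closure (crr L₁ (Seg w) \ {x, y}))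
    (h1 : ¬ Own M w L₁ C z p) : ¬ Own M w L₁ C' z p := by
  classical
  obtain ⟨F, hF⟩ : ∃ F : Finset (Bool × ℕ × ℕ), ∀ s, s ∈ F ↔ s ∈ Seg w :=
    ⟨(seg_finite w).toFinset, fun s => Set.Finite.mem_toFinset _⟩
  have key : ∀ A ⊆ F, Rp w L₁ (fun s => if s ∈ A then C' s else C s) ∧
      ¬ Own M w L₁ (fun s => if s ∈ A then C' s else C s) z p := by
    intro A
    induction A using Finset.induction_on with
    | empty =>
      intro _
      simp only [Finset.notMem_empty, if_false]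
      exact ⟨hC, h1⟩
    | insert s A hsA ih =>
      intro hA
      obtain ⟨i1, i2⟩ := ih ((Finset.subset_insert _ _).trans hA)
      have hs := (hF s).1 (hA (Finset.mem_insert_self _ _))
      have e1 : (fun t => if t ∈ insert s A then C' t else C t) =
          Function.update (fun t => if t ∈ A then C' t else C t) s (C' s) := by
        funext t
        by_cases ht : t = s
        · subst ht
          rw [Function.update_self, if_pos (Finset.mem_insert_self _ _)]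
        · rw [Function.update_of_ne ht]
          simp only [Finset.mem_insert, ht, false_or]
      rw [e1]
      refine ⟨i1.upd (hC' s hs), ?_⟩
      by_cases hp : segNear s = p ∨ segFar s = p
      · refine own_swap hrow hG hv i1 hs hp (hC' s hs) ?_ i2
        intro hne
        rw [if_neg hsA] at hne ⊢
        exact h s hs hp (Ne.symm hne) _ (hC s hs) _ (hC' s hs) (Ne.symm hne)
      · rw [own_upd hp]
        exact i2
  have h2 := (key F le_rfl).2
  rw [Own.congr (C' := C') (fun s hs _ => by simp only [(hF s).2 hs, if_true])] at h2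
  exact h2

/-- a seen pair makes the ends of the row own -/
lemma own_tog [M.Finite] (hG : GSide M (Seg w) L₁ f₁ e₁ u) [DecidableEq (Bool × ℕ × ℕ)]
    (hv : VC M (crr L₁ (Seg w)) row w p) (hr : r ∈ Seg w) (hx : x ∈ L₁ r) (hy : y ∈ L₁ r)
    (hsee : Sees M (crr L₁ (Seg w)) z x y) (hp : segNear r = p ∨ segFar r = p)
    (hC : Rp w L₁ C) : ∃ b ∈ L₁ r, Own M w L₁ (Function.update C r b) z p := by
  by_contra hcon
  push Not at hcon
  have h1 := own_nsep hrow hG hv (hC.upd hx) hr hp hy (hcon x hx) (by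
    rw [Function.update_idem]
    exact hcon y hy)
  rw [Function.update_self] at h1
  exact hsee h1

omit hrow in
lemma exists_rp (hG : GSide M (Seg w) L₁ f₁ e₁ u) : ∃ g, Rp w L₁ g := by
  classical
  have h1 : ∀ r, ∃ x, r ∈ Seg w → x ∈ L₁ r := by
    intro r
    by_cases hr : r ∈ Seg w
    · exact ⟨e₁ r, fun _ => hG.mem_last hr⟩
    · exact ⟨e₁ r, fun h => absurd h hr⟩
  choose g hg using h1
  exact ⟨g, fun r hr => hg r hr⟩

/-- with one own vertex no second row is seen -/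
lemma unseen_of_one [M.Finite] (hG : GSide M (Seg w) L₁ f₁ e₁ u) {Gd : Set (ℕ × ℕ)}
    (hvc : ∀ p ∈ Gd, VC M (crr L₁ (Seg w)) row w p)
    (hone : ∀ C, Rp w L₁ C → ∀ p ∈ Gd, ∀ p' ∈ Gd, Own M w L₁ C z p → Own M w L₁ C z p' → p = p')
    (hr₀ : r₀ ∈ Seg w) (hn₀ : segNear r₀ ∈ Gd) (hf₀ : segFar r₀ ∈ Gd) {x₀ y₀ : α}
    (hx₀ : x₀ ∈ L₁ r₀) (hy₀ : y₀ ∈ L₁ r₀)
    (hs : Sees M (crr L₁ (Seg w)) z x₀ y₀) :
    ∀ r ∈ Seg w, segNear r ∈ Gd → segFar r ∈ Gd → r ≠ r₀ → ∀ x ∈ L₁ r, ∀ y ∈ L₁ r,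
      x ≠ y → z ∈ M.closure (crr L₁ (Seg w) \ {x, y}) := by
  classical
  obtain ⟨g, hg⟩ := exists_rp hG
  intro r hr hnG hfG hne x hx y hy hxy'
  by_contra hcon
  obtain ⟨a, ha, haG, ha₀⟩ : ∃ a, (segNear r = a ∨ segFar r = a) ∧ a ∈ Gd ∧
      ¬ (segNear r₀ = a ∨ segFar r₀ = a) := by
    by_contra hcc
    push Not at hcc
    exact hne (row_eq (hcc (segNear r) (Or.inl rfl) hnG) (hcc (segFar r) (Or.inr rfl) hfG))
  obtain ⟨a₀, hb, hbG, hb₀⟩ : ∃ a₀, (segNear r₀ = a₀ ∨ segFar r₀ = a₀) ∧ a₀ ∈ Gd ∧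
      ¬ (segNear r = a₀ ∨ segFar r = a₀) := by
    by_contra hcc
    push Not at hcc
    exact hne (row_eq (hcc (segNear r₀) (Or.inl rfl) hn₀) (hcc (segFar r₀) (Or.inr rfl) hf₀)).symm
  obtain ⟨b, hb1, hb2⟩ := own_tog hrow hG (hvc a haG) hr hx hy hcon ha hg
  obtain ⟨b', hb3, hb4⟩ := own_tog hrow hG (hvc a₀ hbG) hr₀ hx₀ hy₀ hs hb (hg.upd hb1)
  have h5 : Own M w L₁ (Function.update (Function.update g r b) r₀ b') z a := by
    rw [own_upd ha₀]
    exact hb2
  have h6 := hone _ ((hg.upd hb1).upd hb3) a haG a₀ hbG h5 hb4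
  subst h6
  exact ha₀ hb

/-- **One visible place**, general form. -/
theorem onP_gen [M.Finite] (hG : GSide M (Seg w) L₁ f₁ e₁ u) {Gd : Set (ℕ × ℕ)}
    (hvc : ∀ p ∈ Gd, VC M (crr L₁ (Seg w)) row w p)
    (hone : ∀ C, Rp w L₁ C → ∀ p ∈ Gd, ∀ p' ∈ Gd, Own M w L₁ C z p → Own M w L₁ C z p' → p = p')
    {LR : Set (Bool × ℕ × ℕ)} (hr₀ : r₀ ∈ Seg w) (hr₀L : r₀ ∉ LR)
    (hnb : ∀ r ∈ Seg w, (segNear r = segNear r₀ ∨ segFar r = segNear r₀ ∨
      segNear r = segFar r₀ ∨ segFar r = segFar r₀) → r ≠ r₀ → ∀ x ∈ L₁ r, ∀ y ∈ L₁ r,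
      x ≠ y → z ∈ M.closure (crr L₁ (Seg w) \ {x, y}))
    (hn₀ : segNear r₀ ∈ Gd) (hf₀ : segFar r₀ ∈ Gd)
    (hun : ∀ r ∈ Seg w, r ∉ LR → r ≠ r₀ → ∀ x ∈ L₁ r, ∀ y ∈ L₁ r,
      x ≠ y → z ∈ M.closure (crr L₁ (Seg w) \ {x, y}))
    (hbr : ∀ p ∈ VV (Seg w), p ∉ VV LR → p ∈ Gd) {x₀ y₀ : α} (hx₀ : x₀ ∈ L₁ r₀)
    (hy₀ : y₀ ∈ L₁ r₀) (hxy : x₀ ≠ y₀) (hs : Sees M (crr L₁ (Seg w)) z x₀ y₀) :
    ∃ A₀, OnP M w L₁ LR z r₀ A₀ := by
  classical
  have hnf : ∀ r : Bool × ℕ × ℕ, segNear r ≠ segFar r := T2.near_ne_far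
  obtain ⟨g, hg⟩ := exists_rp hG
  obtain ⟨A₀, hA₀⟩ : ∃ A₀ : Set α, A₀ = {x | x ∈ L₁ r₀ ∧
      ¬ Own M w L₁ (Function.update g r₀ x) z (segNear r₀)} := ⟨_, rfl⟩
  have hmA : ∀ x ∈ L₁ r₀, (x ∈ A₀ ↔ ¬ Own M w L₁ (Function.update g r₀ x) z (segNear r₀)) := by
    intro x hx
    rw [hA₀]
    exact ⟨fun h => h.2, fun h => ⟨hx, h⟩⟩
  -- far side
  have hfar : ∀ x ∈ L₁ r₀, x ∉ A₀ → ¬ Own M w L₁ (Function.update g r₀ x) z (segFar r₀) := by
    intro x hx hxA h1
    rw [hmA x hx, not_not] at hxA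
    exact hnf r₀ (hone _ (hg.upd hx) _ hn₀ _ hf₀ hxA h1)
  -- the row `r₀`
  have hrow₀ : ∀ x ∈ L₁ r₀, ∀ y ∈ L₁ r₀, x ≠ y →
      (Sees M (crr L₁ (Seg w)) z x y ↔ ¬ (x ∈ A₀ ↔ y ∈ A₀)) := by
    intro x hx y hy hne
    have h1 : Function.update (Function.update g r₀ x) r₀ y = Function.update g r₀ y :=
      Function.update_idem _ _ _
    have h1' : Function.update (Function.update g r₀ y) r₀ x = Function.update g r₀ x :=
      Function.update_idem _ _ _
    constructor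
    · intro hsee hiff
      apply hsee
      by_cases hxA : x ∈ A₀
      · have hyA := hiff.1 hxA
        have h2 := own_nsep hrow hG (hvc _ hn₀) (hg.upd hx) hr₀ (Or.inl rfl) hy
          ((hmA x hx).1 hxA) (by rw [h1]; exact (hmA y hy).1 hyA)
        rwa [Function.update_self] at h2
      · have hyA : y ∉ A₀ := fun h => hxA (hiff.2 h)
        have h2 := own_nsep hrow hG (hvc _ hf₀) (hg.upd hx) hr₀ (Or.inr rfl) hy
          (hfar x hx hxA) (by rw [h1]; exact hfar y hy hyA)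
        rwa [Function.update_self] at h2
    · intro hiff hns
      by_cases hxA : x ∈ A₀
      · have hyA : y ∉ A₀ := fun h => hiff ⟨fun _ => h, fun _ => hxA⟩
        rw [hmA y hy, not_not] at hyA
        have h2 := own_swap hrow hG (hvc _ hn₀) (hg.upd hx) hr₀ (Or.inl rfl) hy (by
          intro _
          rw [Function.update_self]
          exact hns) ((hmA x hx).1 hxA)
        rw [h1] at h2
        exact h2 hyA
      · have hyA : y ∈ A₀ := by
          by_contra h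
          exact hiff ⟨fun h' => absurd h' hxA, fun h' => absurd h' h⟩
        rw [hmA x hx, not_not] at hxA
        have h2 := own_swap hrow hG (hvc _ hn₀) (hg.upd hy) hr₀ (Or.inl rfl) hx (by
          intro _
          rw [Function.update_self, pair_comm]
          exact hns) ((hmA y hy).1 hyA)
        rw [h1'] at h2
        exact h2 hxA
  refine ⟨A₀, ⟨hr₀, hr₀L⟩, ?_, ?_, ?_⟩
  · have h1 := (hrow₀ x₀ hx₀ y₀ hy₀ hxy).1 hs
    by_cases hxA : x₀ ∈ A₀
    · exact ⟨⟨x₀, hx₀, hxA⟩, y₀, hy₀, fun h => h1 ⟨fun _ => h, fun _ => hxA⟩⟩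
    · refine ⟨⟨y₀, hy₀, ?_⟩, x₀, hx₀, hxA⟩
      by_contra h
      exact h1 ⟨fun h' => absurd h' hxA, fun h' => absurd h' h⟩
  · intro r hr hrL x hx y hy hne
    by_cases hrr : r = r₀
    · subst hrr
      rw [hrow₀ x hx y hy hne]
      simp
    · exact ⟨fun hsee => absurd (hun r hr hrL hrr x hx y hy hne) hsee, fun h => absurd h.1 hrr⟩
  · intro p hp hpL C hCn hCf
    have hpG : p ∈ Gd := hbr p hp hpL
    obtain ⟨C₁, hC₁⟩ : ∃ C₁ : Bool × ℕ × ℕ → α, ∀ r, C₁ r =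
        if segNear r = p ∨ segFar r = p then C r else g r := ⟨_, fun _ => rfl⟩
    have hC₁r : Rp w L₁ C₁ := by
      intro r hr
      rw [hC₁]
      split_ifs with h1
      · rcases h1 with h1 | h1
        · exact (hCn r hr h1).1
        · exact (hCf r hr h1).1
      · exact hg r hr
    have hst : {x | ∃ r ∈ Seg w, (segNear r = p ∨ segFar r = p) ∧ x = C r} = stg w C₁ p := by
      ext x
      constructor
      · rintro ⟨r, hr, h1, rfl⟩
        exact ⟨r, hr, h1, by rw [hC₁, if_pos h1]⟩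
      · rintro ⟨r, hr, h1, rfl⟩
        exact ⟨r, hr, h1, by rw [hC₁, if_pos h1]⟩
    rw [hst]
    by_contra hcon
    have hown : Own M w L₁ C₁ z p := hcon
    by_cases hpr : segNear r₀ = p ∨ segFar r₀ = p
    · have hind : ∀ a, a = C₁ r₀ → a ∈ L₁ r₀ → ¬ Own M w L₁ (Function.update g r₀ a) z p →
          ¬ Own M w L₁ C₁ z p := by
        intro a ha haL h1
        refine own_indep hrow hG (hvc p hpG) (hg.upd haL) hC₁r ?_ h1
        intro s hs hsp' hne' x hx y hy hxy'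
        have hsr : s ≠ r₀ := by
          rintro rfl
          rw [Function.update_self] at hne'
          exact hne' ha
        exact hnb s hs (by
          rcases hpr with h3 | h3 <;> rcases hsp' with h4 | h4
          · exact Or.inl (h4.trans h3.symm)
          · exact Or.inr (Or.inl (h4.trans h3.symm))
          · exact Or.inr (Or.inr (Or.inl (h4.trans h3.symm)))
          · exact Or.inr (Or.inr (Or.inr (h4.trans h3.symm)))) hsr x hx y hy hxy'
      have hC₁0 : C₁ r₀ = C r₀ := by rw [hC₁, if_pos hpr]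
      rcases hpr with h1 | h1
      · obtain ⟨h2, h3⟩ := hCn r₀ hr₀ h1
        have h4 := (hmA _ h2).1 (h3 rfl)
        rw [h1] at h4
        exact hind _ hC₁0.symm h2 h4 hown
      · obtain ⟨h2, h3⟩ := hCf r₀ hr₀ h1
        have h4 := hfar _ h2 (h3 rfl)
        rw [h1] at h4
        exact hind _ hC₁0.symm h2 h4 hown
    · obtain ⟨b, hb1, hb2⟩ := own_tog hrow hG (hvc _ hn₀) hr₀ hx₀ hy₀ hs (Or.inl rfl) hC₁r
      have h5 : Own M w L₁ (Function.update C₁ r₀ b) z p := by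
        rw [own_upd hpr]
        exact hown
      exact hpr (Or.inl (hone _ (hC₁r.upd hb1) _ hn₀ _ hpG hb2 h5))

/-- **One visible place.** -/
theorem onP_of_one [M.Finite] (hG : GSide M (Seg w) L₁ f₁ e₁ u) {Gd : Set (ℕ × ℕ)}
    (hvc : ∀ p ∈ Gd, VC M (crr L₁ (Seg w)) row w p)
    (hone : ∀ C, Rp w L₁ C → ∀ p ∈ Gd, ∀ p' ∈ Gd, Own M w L₁ C z p → Own M w L₁ C z p' → p = p')
    {LR : Set (Bool × ℕ × ℕ)} (hr₀ : r₀ ∈ Seg w) (hr₀L : r₀ ∉ LR)
    (hnb : ∀ r ∈ Seg w, (segNear r = segNear r₀ ∨ segFar r = segNear r₀ ∨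
      segNear r = segFar r₀ ∨ segFar r = segFar r₀) → segNear r ∈ Gd ∧ segFar r ∈ Gd)
    (hLR : ∀ r ∈ Seg w, r ∉ LR → segNear r ∈ Gd ∧ segFar r ∈ Gd) {x₀ y₀ : α} (hx₀ : x₀ ∈ L₁ r₀)
    (hy₀ : y₀ ∈ L₁ r₀) (hxy : x₀ ≠ y₀) (hs : Sees M (crr L₁ (Seg w)) z x₀ y₀) :
    ∃ A₀, OnP M w L₁ LR z r₀ A₀ := by
  have hn₀ := hnb r₀ hr₀ (Or.inl rfl)
  have h1 := unseen_of_one hrow hG hvc hone hr₀ hn₀.1 hn₀.2 hx₀ hy₀ hs
  refine onP_gen hrow hG hvc hone hr₀ hr₀L ?_ hn₀.1 hn₀.2 ?_ ?_ hx₀ hy₀ hxy hs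
  · intro r hr h2 hne
    have h3 := hnb r hr h2
    exact h1 r hr h3.1 h3.2 hne
  · intro r hr hrL hne
    have h3 := hLR r hr hrL
    exact h1 r hr h3.1 h3.2 hne
  · rintro p ⟨s, hs', hsp⟩ hpL
    have h2 : s ∉ LR := fun h => hpL ⟨s, h, hsp⟩
    rcases hsp with h3 | h3
    · rw [← h3]; exact (hLR s hs' h2).1
    · rw [← h3]; exact (hLR s hs' h2).2

omit hrow in
lemma star_fin (v : ℕ × ℕ) : ∃ N : Finset (ℕ × ℕ), N.card ≤ 4 ∧ (N : Set (ℕ × ℕ)) = DA.star v := by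
  classical
  refine ⟨{v, (v.1 - 1, v.2), (v.1 + 1, v.2), vn v}, Finset.card_le_four, ?_⟩
  unfold DA.star
  simp

omit hrow in
lemma nst_star (v : ℕ × ℕ) : nst wadj v = DA.star v := by
  rw [star_eq_nst, insert_eq_of_mem (self_mem_star v)]

/-- **Kinds.**  `z` sees the row `r₀ ∉ LR` and has at most two locations (or a star).  Either its own
vertices are in a set `N` of at most four vertices off `Bad`, and for some representatives there are
two of them or a closed star, or `z` has exactly one visible place. -/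
theorem sees_kind [M.Finite] (hG : GSide M (Seg w) L₁ f₁ e₁ u) {Hm : Finset (ℕ × ℕ)}
    (hL : LWal M (crr L₁ (Seg w)) row w Hm) {D : ℕ} (hD : 1 ≤ D) {Hs : Finset (ℕ × ℕ)}
    (hvc : ∀ v, RegW w D Hs v → VC M (crr L₁ (Seg w)) row w v)
    (hz : z ∈ M.closure (crr L₁ (Seg w)))
    (htwo : ∀ c, c ⊆ crr L₁ (Seg w) → WallE c row w ∅ → ∀ A : Finset (ℕ × ℕ),
      (∀ v ∈ A, v ∈ LocR M (crr L₁ (Seg w)) row c z ∧ RegW w D Hs v) →
      A.card ≤ 2 ∨ ∃ v₀, (A : Set (ℕ × ℕ)) ⊆ DA.star v₀ ∧ DA.star v₀ ⊆ LocR M (crr L₁ (Seg w)) row c z)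
    {Bad : Set (ℕ × ℕ)} (hBad : ∀ v, v ∉ Bad → ∀ x, sd v x ≤ 6 → RegW w D Hs x)
    {LR : Set (Bool × ℕ × ℕ)} (hLR : ∀ r ∈ Seg w, r ∉ LR → ∀ a, (segNear r = a ∨ segFar r = a) →
      ∀ b ∈ Bad, 4 ≤ sd a b) (hr₀ : r₀ ∈ Seg w) (hr₀L : r₀ ∉ LR) {x₀ y₀ : α} (hx₀ : x₀ ∈ L₁ r₀)
    (hy₀ : y₀ ∈ L₁ r₀) (hxy : x₀ ≠ y₀) (hs : Sees M (crr L₁ (Seg w)) z x₀ y₀) :
    (∃ N : Finset (ℕ × ℕ), N.card ≤ 4 ∧ (∀ v ∈ N, v ∉ Bad) ∧
      (∀ c, c ⊆ crr L₁ (Seg w) → WallE c row w ∅ → ∀ v ∈ LocR M (crr L₁ (Seg w)) row c z,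
        RegW w D Hs v → v ∈ N) ∧
      ∃ c, c ⊆ crr L₁ (Seg w) ∧ WallE c row w ∅ ∧
        ((∃ a b, a ≠ b ∧ {v | v ∈ LocR M (crr L₁ (Seg w)) row c z ∧ RegW w D Hs v} = {a, b}) ∨
          ∃ v₀, {v | v ∈ LocR M (crr L₁ (Seg w)) row c z ∧ RegW w D Hs v} = DA.star v₀)) ∨
    ∃ A₀, OnP M w L₁ LR z r₀ A₀ := by
  classical
  obtain ⟨Vis, hVis⟩ : ∃ Vis : ℕ × ℕ → Prop, ∀ v, Vis v ↔ ∀ x, sd v x ≤ 6 → RegW w D Hs x :=
    ⟨_, fun _ => Iff.rfl⟩
  have hloc := locS_of hL hD hvc (Vis := Vis) (fun v hv => (hVis v).1 hv) hz htwo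
  have hselfB : ∀ r ∈ Seg w, r ∉ LR → ∀ a, (segNear r = a ∨ segFar r = a) → a ∉ Bad := by
    intro r hr hrL a ha hab
    have h1 := hLR r hr hrL a ha a hab
    rw [sd_self] at h1
    omega
  have hRV : ∀ a, a ∉ Bad → RegW w D Hs a := fun a ha => hBad a ha a (by rw [sd_self]; omega)
  obtain ⟨a₁, ha₁⟩ : ∃ a, a = segNear r₀ := ⟨_, rfl⟩
  obtain ⟨a₂, ha₂⟩ : ∃ a, a = segFar r₀ := ⟨_, rfl⟩
  have hB₁ : a₁ ∉ Bad := hselfB r₀ hr₀ hr₀L a₁ (Or.inl ha₁.symm)
  have hB₂ : a₂ ∉ Bad := hselfB r₀ hr₀ hr₀L a₂ (Or.inr ha₂.symm)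
  have hV₁ : Vis a₁ := (hVis _).2 (hBad a₁ hB₁)
  have hV₂ : Vis a₂ := (hVis _).2 (hBad a₂ hB₂)
  have hadj : wadj a₁ a₂ := by
    rw [ha₁, ha₂]
    exact (wadj_srow hr₀).1
  have hne12 : a₁ ≠ a₂ := by
    rw [ha₁, ha₂]
    exact T2.near_ne_far r₀
  have hfarB : ∀ b ∈ Bad, 4 ≤ sd a₁ b ∧ 4 ≤ sd a₂ b := fun b hb =>
    ⟨hLR r₀ hr₀ hr₀L a₁ (Or.inl ha₁.symm) b hb, hLR r₀ hr₀ hr₀L a₂ (Or.inr ha₂.symm) b hb⟩
  have hSn : SnW M (crr L₁ (Seg w)) row w D Hs z a₁ a₂ := by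
    refine ⟨?_, Or.inl (hRV a₁ hB₁)⟩
    intro h1
    refine hs (M.closure_subset_closure ?_ h1)
    rintro x ⟨hx, hx'⟩
    refine ⟨hx, ?_⟩
    rintro (rfl | h2)
    · exact hx' ⟨hx, by rw [hrow r₀ hr₀ _ hx₀, ha₁, ha₂]; rfl⟩
    · rw [mem_singleton_iff] at h2
      subst h2
      exact hx' ⟨hx, by rw [hrow r₀ hr₀ _ hy₀, ha₁, ha₂]; rfl⟩
  -- the case of one own vertex
  have hone : ∀ X : Set (ℕ × ℕ), (∀ x ∈ X, ∃ b ∈ Bad, sd x b ≤ 1) →
      (∀ c : ChW (crr L₁ (Seg w)) row w, ∀ a ∈ YW M (crr L₁ (Seg w)) row w D Hs z c, a ∉ X →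
        ∀ b ∈ YW M (crr L₁ (Seg w)) row w D Hs z c, b ∉ X → a = b) →
      ∃ A₀, OnP M w L₁ LR z r₀ A₀ := by
    intro X hX h1
    refine onP_of_one hrow hG (Gd := {a | RegW w D Hs a ∧ a ∉ X}) (fun p hp => hvc p hp.1) ?_ hr₀
      hr₀L ?_ ?_ hx₀ hy₀ hxy hs
    · intro C hC p hp p' hp' h2 h3
      obtain ⟨hc, hW⟩ := wallE_of hrow hC
      rw [own_iff hrow hC] at h2 h3
      exact h1 ⟨_, hc, hW⟩ p ⟨h2, hp.1⟩ hp.2 p' ⟨h3, hp'.1⟩ hp'.2
    · intro r hr h2
      have h3 := (wadj_sd (wadj_srow hr).1)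
      have key : ∀ a, (sd a₁ a ≤ 1 ∨ sd a₂ a ≤ 1) → RegW w D Hs a ∧ a ∉ X := by
        intro a h4
        refine ⟨?_, ?_⟩
        · rcases h4 with h4 | h4
          · exact hBad a₁ hB₁ a (by omega)
          · exact hBad a₂ hB₂ a (by omega)
        · intro h5
          obtain ⟨b, hb, h6⟩ := hX a h5
          have h7 := hfarB b hb
          have h8 : sd a₁ b ≤ sd a₁ a + sd a b := sd_tri
          have h9 : sd a₂ b ≤ sd a₂ a + sd a b := sd_tri
          omega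
      rw [← ha₁, ← ha₂] at h2
      rcases h2 with h2 | h2 | h2 | h2
      · rw [h2] at h3 ⊢
        exact ⟨key _ (Or.inl (by rw [sd_self]; omega)), key _ (Or.inl h3.1)⟩
      · rw [h2] at h3 ⊢
        exact ⟨key _ (Or.inl h3.2), key _ (Or.inl (by rw [sd_self]; omega))⟩
      · rw [h2] at h3 ⊢
        exact ⟨key _ (Or.inr (by rw [sd_self]; omega)), key _ (Or.inr h3.1)⟩
      · rw [h2] at h3 ⊢
        exact ⟨key _ (Or.inr h3.2), key _ (Or.inr (by rw [sd_self]; omega))⟩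
    · intro r hr hrL
      have key : ∀ a, (segNear r = a ∨ segFar r = a) → RegW w D Hs a ∧ a ∉ X := by
        intro a ha
        refine ⟨hRV a (hselfB r hr hrL a ha), fun h5 => ?_⟩
        obtain ⟨b, hb, h6⟩ := hX a h5
        have h7 := hLR r hr hrL a ha b hb
        omega
      exact ⟨key _ (Or.inl rfl), key _ (Or.inr rfl)⟩
  by_cases hbig : ∃ c, Big (YW M (crr L₁ (Seg w)) row w D Hs z c)
  swap
  · right
    refine hone ∅ (fun x hx => absurd hx (notMem_empty _)) ?_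
    intro c a ha _ b hb _
    by_contra hab
    exact hbig ⟨c, a, ha, b, hb, hab⟩
  obtain ⟨c₀, hc₀⟩ := hbig
  -- two own vertices
  have htw : ∀ N : Finset (ℕ × ℕ), N.card ≤ 4 → (∀ v ∈ N, v ∉ Bad) →
      (∀ c : ChW (crr L₁ (Seg w)) row w, YW M (crr L₁ (Seg w)) row w D Hs z c ⊆ N) →
      (∃ N : Finset (ℕ × ℕ), N.card ≤ 4 ∧ (∀ v ∈ N, v ∉ Bad) ∧
      (∀ c, c ⊆ crr L₁ (Seg w) → WallE c row w ∅ → ∀ v ∈ LocR M (crr L₁ (Seg w)) row c z,
        RegW w D Hs v → v ∈ N) ∧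
      ∃ c, c ⊆ crr L₁ (Seg w) ∧ WallE c row w ∅ ∧
        ((∃ a b, a ≠ b ∧ {v | v ∈ LocR M (crr L₁ (Seg w)) row c z ∧ RegW w D Hs v} = {a, b}) ∨
          ∃ v₀, {v | v ∈ LocR M (crr L₁ (Seg w)) row c z ∧ RegW w D Hs v} = DA.star v₀)) := by
    intro N hN1 hN2 hN3
    refine ⟨N, hN1, hN2, fun c hc hW v hv hvR => hN3 ⟨c, hc, hW⟩ ⟨hv, hvR⟩, c₀.1, c₀.2.1, c₀.2.2, ?_⟩
    obtain ⟨Yf, hYf⟩ : ∃ Yf : Finset (ℕ × ℕ), ∀ v, v ∈ Yf ↔
        (v ∈ LocR M (crr L₁ (Seg w)) row c₀.1 z ∧ RegW w D Hs v) := by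
      have hfin : (YW M (crr L₁ (Seg w)) row w D Hs z c₀).Finite :=
        N.finite_toSet.subset (hN3 c₀)
      exact ⟨hfin.toFinset, fun v => by rw [Set.Finite.mem_toFinset]; rfl⟩
    have hYc : {v | v ∈ LocR M (crr L₁ (Seg w)) row c₀.1 z ∧ RegW w D Hs v} =
        (Yf : Set (ℕ × ℕ)) := by
      ext v
      rw [Finset.mem_coe, hYf]
      rfl
    obtain ⟨a, ha, b, hb, hab⟩ := hc₀
    have haY : a ∈ Yf := (hYf a).2 ha
    have hbY : b ∈ Yf := (hYf b).2 hb
    rcases htwo c₀.1 c₀.2.1 c₀.2.2 Yf (fun v hv => (hYf v).1 hv) with h1 | ⟨v₀, h1, h2⟩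
    · left
      refine ⟨a, b, hab, ?_⟩
      rw [hYc]
      have h2 : ({a, b} : Finset (ℕ × ℕ)) = Yf := by
        refine Finset.eq_of_subset_of_card_le ?_ ?_
        · intro x hx
          rw [Finset.mem_insert, Finset.mem_singleton] at hx
          rcases hx with rfl | rfl
          · exact haY
          · exact hbY
        · rw [Finset.card_pair hab]
          exact h1
      rw [← h2, Finset.coe_pair]
    · right
      refine ⟨v₀, ?_⟩
      rw [hYc]
      refine Subset.antisymm h1 fun x hx => ?_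
      rw [Finset.mem_coe, hYf]
      refine ⟨h2 hx, ?_⟩
      have haB : a ∉ Bad := hN2 a (hN3 c₀ ha)
      have h3 := star_near hx (h1 (Finset.mem_coe.2 haY))
      exact hBad a haB x (by omega)
  -- the common part of the cases with one own vertex
  have hthree : ∀ c : ChW (crr L₁ (Seg w)) row w, ∀ t ∉ ({a₁, a₂} : Set (ℕ × ℕ)),
      a₁ ∈ YW M (crr L₁ (Seg w)) row w D Hs z c → a₂ ∈ YW M (crr L₁ (Seg w)) row w D Hs z c →
      t ∈ YW M (crr L₁ (Seg w)) row w D Hs z c → sd a₁ t ≤ 2 := by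
    intro c t ht h1 h2 h3
    simp only [mem_insert_iff, mem_singleton_iff, not_or] at ht
    rcases hloc.two c a₁ hV₁ h1 with h4 | ⟨v₀, h4⟩
    · exact absurd h4 (not_sub_two h1 h2 h3 hne12 (Ne.symm ht.1) (Ne.symm ht.2))
    · rw [h4, nst_star] at h1 h3
      exact star_near h3 h1
  rcases hloc.cls_supp hadj hV₁ hV₂ hSn with ⟨p, q, g1, g2, g3, g4, g5⟩ | g | g | ⟨y, g1, g2⟩
  · by_cases hpq : p ∈ Bad ∨ q ∈ Bad
    · right
      have hpq1 := wadj_sd g1
      refine hone {p, q} ?_ ?_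
      · rintro x (rfl | h1)
        · rcases hpq with h2 | h2
          · exact ⟨x, h2, by rw [sd_self]; omega⟩
          · exact ⟨q, h2, hpq1.1⟩
        · rw [mem_singleton_iff] at h1
          subst h1
          rcases hpq with h2 | h2
          · exact ⟨p, h2, hpq1.2⟩
          · exact ⟨x, h2, by rw [sd_self]; omega⟩
      · intro c a ha haX b hb hbX
        by_contra hab
        simp only [mem_insert_iff, mem_singleton_iff, not_or] at haX hbX g3 g4
        have h1 := g5 c ha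
        have h2 := g5 c hb
        simp only [mem_insert_iff, mem_singleton_iff] at h1 h2
        have h3 : a₁ ∈ YW M (crr L₁ (Seg w)) row w D Hs z c ∧
            a₂ ∈ YW M (crr L₁ (Seg w)) row w D Hs z c := by
          rcases h1 with rfl | rfl | h1 | h1
          · rcases h2 with rfl | rfl | h2 | h2
            · exact absurd rfl hab
            · exact ⟨ha, hb⟩
            · exact absurd h2 hbX.1
            · exact absurd h2 hbX.2
          · rcases h2 with rfl | rfl | h2 | h2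
            · exact ⟨hb, ha⟩
            · exact absurd rfl hab
            · exact absurd h2 hbX.1
            · exact absurd h2 hbX.2
          · exact absurd h1 haX.1
          · exact absurd h1 haX.2
        have key : ∀ p' q', wadj p' q' → SnW M (crr L₁ (Seg w)) row w D Hs z p' q' →
            RegW w D Hs p' → p' ∉ ({a₁, a₂} : Set (ℕ × ℕ)) → q' ∉ ({a₁, a₂} : Set (ℕ × ℕ)) →
            sd a₁ p' ≤ 2 := by
          intro p' q' k1 k2 k3 k4 k5
          obtain ⟨c', k6, k7⟩ := hloc.tog p' q' k1 k3 k2 c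
          have k4' := k4
          simp only [mem_insert_iff, mem_singleton_iff, not_or] at k4' k5
          exact hthree c' p' k4 ((k7 a₁ (Ne.symm k4'.1) (Ne.symm k5.1)).2 h3.1)
            ((k7 a₂ (Ne.symm k4'.2) (Ne.symm k5.2)).2 h3.2) k6
        have hpn : p ∉ ({a₁, a₂} : Set (ℕ × ℕ)) := by
          simp only [mem_insert_iff, mem_singleton_iff, not_or]
          exact g3
        have hqn : q ∉ ({a₁, a₂} : Set (ℕ × ℕ)) := by
          simp only [mem_insert_iff, mem_singleton_iff, not_or]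
          exact g4
        have h5 : sd a₁ p ≤ 3 ∧ sd a₁ q ≤ 3 := by
          rcases hloc.snreg p q g2 with h6 | h6
          · have h7 := key p q g1 g2 h6 hpn hqn
            have h8 : sd a₁ q ≤ sd a₁ p + sd p q := sd_tri
            omega
          · have h7 := key q p (hloc.symm _ _ g1) (hloc.snsymm _ _ g2) h6 hqn hpn
            have h8 : sd a₁ p ≤ sd a₁ q + sd q p := sd_tri
            omega
        rcases hpq with h6 | h6
        · have := (hfarB p h6).1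
          omega
        · have := (hfarB q h6).1
          omega
    · left
      push Not at hpq
      refine htw {a₁, a₂, p, q} Finset.card_le_four ?_ ?_
      · intro v hv
        simp only [Finset.mem_insert, Finset.mem_singleton] at hv
        rcases hv with rfl | rfl | rfl | rfl
        · exact hB₁
        · exact hB₂
        · exact hpq.1
        · exact hpq.2
      · intro c v hv
        have h1 := g5 c hv
        simp only [mem_insert_iff, mem_singleton_iff] at h1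
        simp only [Finset.coe_insert, Finset.coe_singleton, mem_insert_iff, mem_singleton_iff]
        exact h1
  · left
    obtain ⟨N, hN1, hN2⟩ := star_fin a₁
    refine htw N hN1 ?_ ?_
    · intro v hv hvB
      have h1 : v ∈ DA.star a₁ := by
        rw [← hN2]
        exact hv
      have h2 := star_near (self_mem_star a₁) h1
      have h3 := (hfarB v hvB).1
      rw [sd_comm] at h3
      omega
    · intro c
      rw [hN2, ← nst_star]
      exact g c
  · left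
    obtain ⟨N, hN1, hN2⟩ := star_fin a₂
    refine htw N hN1 ?_ ?_
    · intro v hv hvB
      have h1 : v ∈ DA.star a₂ := by
        rw [← hN2]
        exact hv
      have h2 := star_near (self_mem_star a₂) h1
      have h3 := (hfarB v hvB).2
      rw [sd_comm] at h3
      omega
    · intro c
      rw [hN2, ← nst_star]
      exact g c
  · have hsub : ∀ c : ChW (crr L₁ (Seg w)) row w, ∀ a ∈ YW M (crr L₁ (Seg w)) row w D Hs z c,
        a = a₁ ∨ a = a₂ ∨ a = y := by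
      intro c a ha
      by_cases h1 : a ∈ ({a₁, a₂} : Set (ℕ × ℕ))
      · simp only [mem_insert_iff, mem_singleton_iff] at h1
        exact h1.elim Or.inl fun h => Or.inr (Or.inl h)
      · have h2 : a ∈ YW M (crr L₁ (Seg w)) row w D Hs z c \ {a₁, a₂} := ⟨ha, h1⟩
        rw [g2 c, mem_singleton_iff] at h2
        exact Or.inr (Or.inr h2)
    by_cases hy : y ∈ Bad
    · right
      refine hone {y} ?_ ?_
      · intro x hx
        rw [mem_singleton_iff] at hx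
        subst hx
        exact ⟨x, hy, by rw [sd_self]; omega⟩
      · intro c a ha haX b hb hbX
        rw [mem_singleton_iff] at haX hbX
        by_contra hab
        have hyY : y ∈ YW M (crr L₁ (Seg w)) row w D Hs z c := by
          have h2 : y ∈ YW M (crr L₁ (Seg w)) row w D Hs z c \ {a₁, a₂} := by
            rw [g2 c]
            exact rfl
          exact h2.1
        have h3 : a₁ ∈ YW M (crr L₁ (Seg w)) row w D Hs z c ∧
            a₂ ∈ YW M (crr L₁ (Seg w)) row w D Hs z c := by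
          rcases hsub c a ha with rfl | rfl | h1
          · rcases hsub c b hb with rfl | rfl | h2
            · exact absurd rfl hab
            · exact ⟨ha, hb⟩
            · exact absurd h2 hbX
          · rcases hsub c b hb with rfl | rfl | h2
            · exact ⟨hb, ha⟩
            · exact absurd rfl hab
            · exact absurd h2 hbX
          · exact absurd h1 haX
        have h4 := hthree c y g1 h3.1 h3.2 hyY
        have h5 := (hfarB y hy).1
        omega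
    · left
      refine htw {a₁, a₂, y} (Finset.card_le_three.trans (by omega)) ?_ ?_
      · intro v hv
        simp only [Finset.mem_insert, Finset.mem_singleton] at hv
        rcases hv with rfl | rfl | rfl
        · exact hB₁
        · exact hB₂
        · exact hy
      · intro c v hv
        simp only [Finset.coe_insert, Finset.coe_singleton, mem_insert_iff, mem_singleton_iff]
        exact hsub c v hv

omit hrow in
lemma adj_star {a b v : ℕ × ℕ} (h : wadj a b) (ha : a ∈ DA.star v) (hb : b ∈ DA.star v) :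
    v = a ∨ v = b := by
  rw [← nst_star] at ha hb
  rcases ha with ha | ha
  · exact Or.inl ha.symm
  rcases hb with hb | hb
  · exact Or.inr hb.symm
  exact (wadj_tri ha h hb).elim

omit hrow in
lemma star_three {v a b c : ℕ × ℕ} (hv : 1 ≤ v.1 ∧ 1 ≤ v.2) (h : DA.star v ⊆ {a, b, c}) : False := by
  classical
  obtain ⟨x, y⟩ := v
  simp only at hv
  have h1 := vn_cases (x, y)
  have hcard : ({(x, y), (x - 1, y), (x + 1, y), vn (x, y)} : Finset (ℕ × ℕ)).card = 4 := by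
    rw [Finset.card_insert_of_notMem, Finset.card_insert_of_notMem, Finset.card_insert_of_notMem,
      Finset.card_singleton]
    · rw [Finset.mem_singleton]
      intro h2
      rcases h1 with ⟨_, h1⟩ | ⟨_, h1⟩ <;> rw [h1, Prod.mk.injEq] at h2 <;> simp only at h2 <;> omega
    · rw [Finset.mem_insert, Finset.mem_singleton]
      rintro (h2 | h2)
      · rw [Prod.mk.injEq] at h2
        omega
      · rcases h1 with ⟨_, h1⟩ | ⟨_, h1⟩ <;> rw [h1, Prod.mk.injEq] at h2 <;> simp only at h2 <;>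
          omega
    · rw [Finset.mem_insert, Finset.mem_insert, Finset.mem_singleton]
      rintro (h2 | h2 | h2)
      · rw [Prod.mk.injEq] at h2
        omega
      · rw [Prod.mk.injEq] at h2
        omega
      · rcases h1 with ⟨h3, h1⟩ | ⟨h3, h1⟩ <;> rw [h1, Prod.mk.injEq] at h2 <;>
          simp only at h2 h3 <;> omega
  have hsub : ({(x, y), (x - 1, y), (x + 1, y), vn (x, y)} : Finset (ℕ × ℕ)) ⊆ {a, b, c} := by
    intro t ht
    have h2 : t ∈ DA.star (x, y) := by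
      unfold DA.star
      simpa using ht
    have h3 := h h2
    simpa using h3
  have h4 := Finset.card_le_card hsub
  have h5 : ({a, b, c} : Finset (ℕ × ℕ)).card ≤ 3 := Finset.card_le_three
  omega

/-- Two disjoint rows are seen: one visible place if the second row is in `LR`. -/
theorem sees_far [M.Finite] (hG : GSide M (Seg w) L₁ f₁ e₁ u) {Hm : Finset (ℕ × ℕ)}
    (hL : LWal M (crr L₁ (Seg w)) row w Hm) {D : ℕ} (hD : 1 ≤ D) {Hs : Finset (ℕ × ℕ)}
    (hvc : ∀ v, RegW w D Hs v → VC M (crr L₁ (Seg w)) row w v)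
    (hz : z ∈ M.closure (crr L₁ (Seg w)))
    (htwo : ∀ c, c ⊆ crr L₁ (Seg w) → WallE c row w ∅ → ∀ A : Finset (ℕ × ℕ),
      (∀ v ∈ A, v ∈ LocR M (crr L₁ (Seg w)) row c z ∧ RegW w D Hs v) →
      A.card ≤ 2 ∨ ∃ v₀, (A : Set (ℕ × ℕ)) ⊆ DA.star v₀ ∧ DA.star v₀ ⊆ LocR M (crr L₁ (Seg w)) row c z)
    {LR : Set (Bool × ℕ × ℕ)}
    (hLR : ∀ r ∈ Seg w, r ∉ LR → RegW w D Hs (segNear r) ∧ RegW w D Hs (segFar r))
    {r₁ : Bool × ℕ × ℕ} (hr₀ : r₀ ∈ Seg w) (hr₀L : r₀ ∉ LR) (hr₁ : r₁ ∈ Seg w) (hr₁L : r₁ ∈ LR)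
    (hvis : ∀ a, (segNear r₀ = a ∨ segFar r₀ = a ∨ segNear r₁ = a ∨ segFar r₁ = a) →
      ∀ x, sd a x ≤ 6 → RegW w D Hs x)
    (hn : segNear r₀ ∉ VV LR) (hf : segFar r₀ ∉ VV LR) {x₀ y₀ x₁ y₁ : α} (hx₀ : x₀ ∈ L₁ r₀)
    (hy₀ : y₀ ∈ L₁ r₀) (hxy : x₀ ≠ y₀) (hs : Sees M (crr L₁ (Seg w)) z x₀ y₀) (hx₁ : x₁ ∈ L₁ r₁)
    (hy₁ : y₁ ∈ L₁ r₁) (hs₁ : Sees M (crr L₁ (Seg w)) z x₁ y₁) :
    ∃ A₀, OnP M w L₁ LR z r₀ A₀ := by
  classical
  obtain ⟨Vis, hVis⟩ : ∃ Vis : ℕ × ℕ → Prop, ∀ v, Vis v ↔ ∀ x, sd v x ≤ 6 → RegW w D Hs x :=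
    ⟨_, fun _ => Iff.rfl⟩
  have hloc := locS_of hL hD hvc (Vis := Vis) (fun v hv => (hVis v).1 hv) hz htwo
  obtain ⟨a₁, ha₁⟩ : ∃ a, a = segNear r₀ := ⟨_, rfl⟩
  obtain ⟨a₂, ha₂⟩ : ∃ a, a = segFar r₀ := ⟨_, rfl⟩
  obtain ⟨p, hp⟩ : ∃ a, a = segNear r₁ := ⟨_, rfl⟩
  obtain ⟨q, hq⟩ : ∃ a, a = segFar r₁ := ⟨_, rfl⟩
  have hV₁ : Vis a₁ := (hVis _).2 (hvis a₁ (Or.inl ha₁.symm))
  have hV₂ : Vis a₂ := (hVis _).2 (hvis a₂ (Or.inr (Or.inl ha₂.symm)))
  have hVp : Vis p := (hVis _).2 (hvis p (Or.inr (Or.inr (Or.inl hp.symm))))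
  have hVq : Vis q := (hVis _).2 (hvis q (Or.inr (Or.inr (Or.inr hq.symm))))
  have hVR : ∀ a, Vis a → RegW w D Hs a := fun a ha => (hVis a).1 ha a (by rw [sd_self]; omega)
  have hadj : wadj a₁ a₂ := by
    rw [ha₁, ha₂]
    exact (wadj_srow hr₀).1
  have hpq : wadj p q := by
    rw [hp, hq]
    exact (wadj_srow hr₁).1
  have hne12 : a₁ ≠ a₂ := by
    rw [ha₁, ha₂]
    exact T2.near_ne_far r₀
  have hpL : p ∈ VV LR := ⟨r₁, hr₁L, Or.inl hp.symm⟩
  have hqL : q ∈ VV LR := ⟨r₁, hr₁L, Or.inr hq.symm⟩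
  rw [← ha₁] at hn
  rw [← ha₂] at hf
  have n1 : p ≠ a₁ := fun h => hn (h ▸ hpL)
  have n2 : p ≠ a₂ := fun h => hf (h ▸ hpL)
  have n3 : q ≠ a₁ := fun h => hn (h ▸ hqL)
  have n4 : q ≠ a₂ := fun h => hf (h ▸ hqL)
  have hpn : p ∉ ({a₁, a₂} : Set (ℕ × ℕ)) := by
    simp only [mem_insert_iff, mem_singleton_iff, not_or]
    exact ⟨n1, n2⟩
  have hqn : q ∉ ({a₁, a₂} : Set (ℕ × ℕ)) := by
    simp only [mem_insert_iff, mem_singleton_iff, not_or]
    exact ⟨n3, n4⟩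
  -- seen rows
  have hSee : ∀ r ∈ Seg w, ∀ x ∈ L₁ r, ∀ y ∈ L₁ r, Sees M (crr L₁ (Seg w)) z x y →
      (RegW w D Hs (segNear r) ∨ RegW w D Hs (segFar r)) →
      SnW M (crr L₁ (Seg w)) row w D Hs z (segNear r) (segFar r) := by
    intro r hr x hx y hy hsee hreg
    refine ⟨?_, hreg⟩
    intro h1
    refine hsee (M.closure_subset_closure ?_ h1)
    rintro t ⟨ht, ht'⟩
    refine ⟨ht, ?_⟩
    rintro (rfl | h2)
    · exact ht' ⟨ht, by rw [hrow r hr _ hx]; rfl⟩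
    · rw [mem_singleton_iff] at h2
      subst h2
      exact ht' ⟨ht, by rw [hrow r hr _ hy]; rfl⟩
  have hSn : SnW M (crr L₁ (Seg w)) row w D Hs z a₁ a₂ := by
    have h1 := hSee r₀ hr₀ x₀ hx₀ y₀ hy₀ hs (by rw [← ha₁]; exact Or.inl (hVR _ hV₁))
    rwa [← ha₁, ← ha₂] at h1
  have hSp : SnW M (crr L₁ (Seg w)) row w D Hs z p q := by
    have h1 := hSee r₁ hr₁ x₁ hx₁ y₁ hy₁ hs₁ (by rw [← hp]; exact Or.inl (hVR _ hVp))
    rwa [← hp, ← hq] at h1
  have hsup := hloc.supp_far hadj hV₁ hV₂ hSn hpq hSp hpn hqn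
  -- not both ends of `r₀`
  have hno : ∀ c, ¬ (a₁ ∈ YW M (crr L₁ (Seg w)) row w D Hs z c ∧
      a₂ ∈ YW M (crr L₁ (Seg w)) row w D Hs z c) := by
    rintro c ⟨h1, h2⟩
    obtain ⟨c', h3, h4⟩ := hloc.tog p q hpq (hVR _ hVp) hSp c
    have h5 := (h4 a₁ n1.symm n3.symm).2 h1
    have h6 := (h4 a₂ n2.symm n4.symm).2 h2
    rcases hloc.two c' a₁ hV₁ h5 with h7 | ⟨v₀, h7⟩
    · exact absurd h7 (not_sub_two h5 h6 h3 hne12 n1.symm n2.symm)
    · rw [nst_star] at h7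
      have h8 : v₀ ∈ YW M (crr L₁ (Seg w)) row w D Hs z c' := by
        rw [h7]
        exact self_mem_star v₀
      have h9 : 1 ≤ v₀.1 ∧ 1 ≤ v₀.2 := by
        have h10 := h8.2.1
        unfold DeepR at h10
        simp only at h10
        omega
      have h11 := hsup c'
      have h12 : q ∈ DA.star v₀ := by
        by_contra h13
        refine star_three (a := a₁) (b := a₂) (c := p) h9 ?_
        intro t ht
        have h14 : t ∈ YW M (crr L₁ (Seg w)) row w D Hs z c' := by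
          rw [h7]
          exact ht
        have h15 := h11 h14
        simp only [mem_insert_iff, mem_singleton_iff] at h15 ⊢
        rcases h15 with h15 | h15 | h15 | h15
        · exact Or.inl h15
        · exact Or.inr (Or.inl h15)
        · exact Or.inr (Or.inr h15)
        · exact absurd (h15 ▸ ht) h13
      rw [h7] at h3 h5 h6
      rcases adj_star hadj h5 h6 with h13 | h13 <;> rcases adj_star hpq h3 h12 with h14 | h14
      · exact n1 (h14.symm.trans h13)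
      · exact n3 (h14.symm.trans h13)
      · exact n2 (h14.symm.trans h13)
      · exact n4 (h14.symm.trans h13)
  -- no third row
  have htog : ∀ t, (t = p ∨ t = q) → ∃ c, t ∈ YW M (crr L₁ (Seg w)) row w D Hs z c := by
    intro t ht
    obtain ⟨c⟩ := hloc.ne
    rcases ht with rfl | rfl
    · obtain ⟨c', h3, _⟩ := hloc.tog _ _ hpq (hVR _ hVp) hSp c
      exact ⟨c', h3⟩
    · obtain ⟨c', h3, _⟩ := hloc.tog _ _ (hloc.symm _ _ hpq) (hVR _ hVq) (hloc.snsymm _ _ hSp) c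
      exact ⟨c', h3⟩
  have hthird : ∀ r ∈ Seg w, r ≠ r₀ → r ≠ r₁ → (RegW w D Hs (segNear r) ∨ RegW w D Hs (segFar r)) →
      ∀ x ∈ L₁ r, ∀ y ∈ L₁ r, x ≠ y → z ∈ M.closure (crr L₁ (Seg w) \ {x, y}) := by
    intro r hr hne0 hne1 hreg x hx y hy _
    by_contra hcon
    have hS := hSee r hr x hx y hy hcon hreg
    have hadjr := (wadj_srow hr).1
    -- near a vertex of `r₀`
    have hnear : ∀ a a' b, wadj a a' → Vis a → Vis a' →
        SnW M (crr L₁ (Seg w)) row w D Hs z a a' → wadj a b →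
        SnW M (crr L₁ (Seg w)) row w D Hs z a b → a' ≠ b → a ≠ p → a ≠ q → False := by
      intro a a' b k1 k2 k3 k4 k5 k6 k7 k8 k9
      have k10 := hloc.near_of_two k1 k2 k3 k4 k5 k6 k7
      obtain ⟨c, k11⟩ := htog p (Or.inl rfl)
      obtain ⟨c', k12⟩ := htog q (Or.inr rfl)
      have k13 := k10 c k11
      have k14 := k10 c' k12
      rw [nst_star] at k13 k14
      rcases adj_star hpq k13 k14 with h | h
      · exact k8 h
      · exact k9 h
    have hSn' := hloc.snsymm _ _ hSn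
    have hadj' := hloc.symm _ _ hadj
    have hS' := hloc.snsymm _ _ hS
    have hadjr' := hloc.symm _ _ hadjr
    by_cases e1 : segNear r = a₁
    · by_cases e2 : segFar r = a₂
      · exact hne0 (row_eq (Or.inl (by rw [← ha₁, e1])) (Or.inr (by rw [← ha₂, e2])))
      · rw [e1] at hS hadjr
        exact hnear a₁ a₂ _ hadj hV₁ hV₂ hSn hadjr hS (Ne.symm e2) n1.symm n3.symm
    by_cases e2 : segNear r = a₂
    · by_cases e3 : segFar r = a₁
      · exact hne0 (row_eq (Or.inr (by rw [← ha₂, e2])) (Or.inl (by rw [← ha₁, e3])))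
      · rw [e2] at hS hadjr
        exact hnear a₂ a₁ _ hadj' hV₂ hV₁ hSn' hadjr hS (Ne.symm e3) n2.symm n4.symm
    by_cases e3 : segFar r = a₁
    · rw [e3] at hS' hadjr'
      exact hnear a₁ a₂ _ hadj hV₁ hV₂ hSn hadjr' hS' (Ne.symm e2) n1.symm n3.symm
    by_cases e4 : segFar r = a₂
    · rw [e4] at hS' hadjr'
      exact hnear a₂ a₁ _ hadj' hV₂ hV₁ hSn' hadjr' hS' (Ne.symm e1) n2.symm n4.symm
    -- both rows are far
    have hsup' := hloc.supp_far hadj hV₁ hV₂ hSn hadjr hS (by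
      simp only [mem_insert_iff, mem_singleton_iff, not_or]
      exact ⟨e1, e2⟩) (by
      simp only [mem_insert_iff, mem_singleton_iff, not_or]
      exact ⟨e3, e4⟩)
    obtain ⟨t, ht, ht'⟩ : ∃ t, (t = p ∨ t = q) ∧ ¬ (segNear r = t ∨ segFar r = t) := by
      by_contra hcc
      push Not at hcc
      have k1 := hcc p (Or.inl rfl)
      have k2 := hcc q (Or.inr rfl)
      rw [hp] at k1
      rw [hq] at k2
      exact hne1 (row_eq k1 k2).symm
    obtain ⟨c, hc⟩ := htog t ht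
    have h1 := hsup' c hc
    simp only [mem_insert_iff, mem_singleton_iff] at h1
    rcases h1 with h1 | h1 | h1 | h1
    · rcases ht with h2 | h2
      · exact n1 (h2.symm.trans h1)
      · exact n3 (h2.symm.trans h1)
    · rcases ht with h2 | h2
      · exact n2 (h2.symm.trans h1)
      · exact n4 (h2.symm.trans h1)
    · exact ht' (Or.inl h1.symm)
    · exact ht' (Or.inr h1.symm)
  refine onP_gen hrow hG (Gd := {a | RegW w D Hs a ∧ a ≠ p ∧ a ≠ q}) (fun a ha => hvc a ha.1) ?_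
    hr₀ hr₀L ?_ ?_ ?_ ?_ ?_ hx₀ hy₀ hxy hs
  · intro C hC b hb b' hb' h2 h3
    obtain ⟨hc, hW⟩ := wallE_of hrow hC
    rw [own_iff hrow hC] at h2 h3
    have h4 : b ∈ YW M (crr L₁ (Seg w)) row w D Hs z ⟨_, hc, hW⟩ := ⟨h2, hb.1⟩
    have h5 : b' ∈ YW M (crr L₁ (Seg w)) row w D Hs z ⟨_, hc, hW⟩ := ⟨h3, hb'.1⟩
    have h6 := hsup _ h4
    have h7 := hsup _ h5
    simp only [mem_insert_iff, mem_singleton_iff] at h6 h7
    by_contra hne
    rcases h6 with h6 | h6 | h6 | h6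
    · rcases h7 with h7 | h7 | h7 | h7
      · exact hne (h6.trans h7.symm)
      · exact hno _ ⟨h6 ▸ h4, h7 ▸ h5⟩
      · exact hb'.2.1 h7
      · exact hb'.2.2 h7
    · rcases h7 with h7 | h7 | h7 | h7
      · exact hno _ ⟨h7 ▸ h5, h6 ▸ h4⟩
      · exact hne (h6.trans h7.symm)
      · exact hb'.2.1 h7
      · exact hb'.2.2 h7
    · exact hb.2.1 h6
    · exact hb.2.2 h6
  · intro r hr htouch hne x hx y hy hxy'
    refine hthird r hr hne ?_ ?_ x hx y hy hxy'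
    · rintro rfl
      rw [← hp, ← hq, ← ha₁, ← ha₂] at htouch
      rcases htouch with h | h | h | h
      · exact n1 h
      · exact n3 h
      · exact n2 h
      · exact n4 h
    · rw [← ha₁, ← ha₂] at htouch
      rcases htouch with h | h | h | h
      · rw [h]; exact Or.inl (hVR _ hV₁)
      · rw [h]; exact Or.inr (hVR _ hV₁)
      · rw [h]; exact Or.inl (hVR _ hV₂)
      · rw [h]; exact Or.inr (hVR _ hV₂)
  · rw [← ha₁]
    exact ⟨hVR _ hV₁, n1.symm, n3.symm⟩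
  · rw [← ha₂]
    exact ⟨hVR _ hV₂, n2.symm, n4.symm⟩
  · intro r hr hrL hne x hx y hy hxy'
    refine hthird r hr hne ?_ (Or.inl (hLR r hr hrL).1) x hx y hy hxy'
    rintro rfl
    exact hrL hr₁L
  · rintro b ⟨s, hs', hsb⟩ hbL
    have h2 : s ∉ LR := fun h => hbL ⟨s, h, hsb⟩
    refine ⟨?_, ?_, ?_⟩
    · rcases hsb with h3 | h3
      · rw [← h3]; exact (hLR s hs' h2).1
      · rw [← h3]; exact (hLR s hs' h2).2
    · rintro rfl
      exact hbL hpL
    · rintro rfl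
      exact hbL hqL

end

end TSH
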