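import Pool.Agent.TST.Kind74
import Pool.Agent.TST.GDef

/-!
# Kinds of the elements of a system (`LabM.kind`, `LabM.one`)
-/

open Set BIC BICS CWL
open scoped Matroid

namespace TSH

universe u

open DA

section

variable {α : Type u} {M : Matroid α} {w s : ℕ} {𝒯 : Finset (ℕ × ℕ)}
  {L₁ : Bool × ℕ × ℕ → List α} {f₁ : α → Sym2 ((ℕ × ℕ) ⊕ α)} {e₁ : Bool × ℕ × ℕ → α} {u₁ : ℕ}
  {L₂ : Bool × ℕ × ℕ → List α} {f₂ : α → Sym2 ((ℕ × ℕ) ⊕ α)} {e₂ : Bool × ℕ × ℕ → α} {u₂ : ℕ}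
  {D : Set α} {σ N m : ℕ} {τ : ℕ → ℕ × ℕ} {R : ℕ → Bool × ℕ × ℕ} {c : ℕ → ℕ → α}
  {Za : Finset (Bool × ℕ × ℕ)} {row : α → Sym2 (ℕ × ℕ)} {β D₀ δ₀ D₁ δ₁ : ℕ}
  {Hm Hs₀ Om₁ Hs₁ Om₂ : Finset (ℕ × ℕ)}

/-- vertices far from the exceptional points are visible -/
lemma GSys.vis
    (h : GSys M w s 𝒯 L₁ f₁ e₁ u₁ L₂ f₂ e₂ u₂ D σ N m τ R c Za row β D₀ δ₀ D₁ δ₁ Hm Hs₀ Om₁ Hs₁ Om₂)
    {a : ℕ × ℕ} (ha : OutW (δ₁ + 60) w Om₂ a) : ∀ x, sd a x ≤ 9 → RegW w D₀ Hs₀ x := by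
  intro x hx
  obtain ⟨k1, k2, k3, k4⟩ := h.rnd.le
  have h1 := ha.1
  unfold DeepR at h1
  simp only at h1
  rw [sd_le] at hx
  refine ⟨?_, ?_⟩
  · unfold DeepR
    simp only
    omega
  · intro hxH
    have h2 := h.rnd.sub₁ (h.rnd.ball₁ x (h.rnd.sub₀ hxH) x (by omega) (by omega) (by
      rw [sd_self]
      omega))
    have h3 := ha.2 x h2
    rw [apart_iff] at h3
    have h4 := sd_le.2 hx
    omega

variable {Bd : Set (ℕ × ℕ)} {Zq LR : Set (Bool × ℕ × ℕ)}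

/-- the bad vertices and the vertices which are not visible -/
def BadV (w D₀ : ℕ) (Hs₀ : Finset (ℕ × ℕ)) (Bd : Set (ℕ × ℕ)) : Set (ℕ × ℕ) :=
  {v | v ∈ Bd ∨ ¬ ∀ x, sd v x ≤ 6 → RegW w D₀ Hs₀ x}

lemma GSys.far_bad
    (h : GSys M w s 𝒯 L₁ f₁ e₁ u₁ L₂ f₂ e₂ u₂ D σ N m τ R c Za row β D₀ δ₀ D₁ δ₁ Hm Hs₀ Om₁ Hs₁ Om₂)
    (hZL : Zq ⊆ LR) (hout : ∀ r ∈ Seg w, r ∉ Zq →
      OutW (δ₁ + 60) w Om₂ (segNear r) ∧ OutW (δ₁ + 60) w Om₂ (segFar r))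
    (hBd : ∀ r ∈ Seg w, ∀ v ∈ Bd, sd (segNear r) v ≤ 3 ∨ sd (segFar r) v ≤ 3 → r ∈ LR) :
    ∀ r ∈ Seg w, r ∉ LR → ∀ a, (segNear r = a ∨ segFar r = a) →
      ∀ b ∈ BadV w D₀ Hs₀ Bd, 4 ≤ sd a b := by
  intro r hr hrL a ha b hb
  by_contra hcon
  rcases hb with hb | hb
  · refine hrL (hBd r hr b hb ?_)
    rcases ha with rfl | rfl
    · exact Or.inl (by omega)
    · exact Or.inr (by omega)
  · push Not at hb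
    obtain ⟨x, hx, hx'⟩ := hb
    have h1 := hout r hr fun h => hrL (hZL h)
    have h2 : OutW (δ₁ + 60) w Om₂ a := by
      rcases ha with rfl | rfl
      · exact h1.1
      · exact h1.2
    have h3 : sd a x ≤ sd a b + sd b x := sd_tri
    exact hx' (h.vis h2 x (by omega))

/-- **Kinds**, first form: two own vertices or one visible place. -/
theorem GSys.kind₁ [M.Finite]
    (h : GSys M w s 𝒯 L₁ f₁ e₁ u₁ L₂ f₂ e₂ u₂ D σ N m τ R c Za row β D₀ δ₀ D₁ δ₁ Hm Hs₀ Om₁ Hs₁ Om₂)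
    (hZL : Zq ⊆ LR) (hout : ∀ r ∈ Seg w, r ∉ Zq →
      OutW (δ₁ + 60) w Om₂ (segNear r) ∧ OutW (δ₁ + 60) w Om₂ (segFar r))
    (hBd : ∀ r ∈ Seg w, ∀ v ∈ Bd, sd (segNear r) v ≤ 3 ∨ sd (segFar r) v ≤ 3 → r ∈ LR)
    {d : α} (hd : d ∈ D) {r : Bool × ℕ × ℕ} (hr : r ∈ Seg w) (hrL : r ∉ LR) {x y : α}
    (hx : x ∈ L₁ r) (hy : y ∈ L₁ r) (hxy : x ≠ y) (hs : Sees M (crr L₁ (Seg w)) d x y) :
    TwoB M (crr L₁ (Seg w)) row w D₀ Hs₀ Bd d ∨ ∃ A₀, OnP M w L₁ LR d r A₀ := by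
  have hG := h.b.pair.s₁
  rcases sees_kind h.rw hG h.rnd.wal (D := D₀) (Hs := Hs₀) (by have := h.rnd.le; omega)
    (fun v hv => h.rnd.vc v hv.1 hv.2) (h.b.D_cl hd) (fun c₀ hc hW A hA =>
      (h.rnd.two d hd).1 c₀ hc hW A fun v hv => ⟨(hA v hv).1, (hA v hv).2.1, (hA v hv).2.2⟩)
    (Bad := BadV w D₀ Hs₀ Bd) (by
      intro v hv
      by_contra hcon
      exact hv (Or.inr hcon)) (h.far_bad hZL hout hBd) hr hrL hx hy hxy hs with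
    ⟨A, h1, h2, h3, c₀, hc, hW, h4⟩ | h1
  · left
    refine ⟨⟨A, by omega, fun v hv hvB => h2 v hv (Or.inl hvB), fun c₁ hc₁ hW₁ v hv hvR =>
      h3 c₁ hc₁ hW₁ v hv hvR⟩, c₀, hc, hW, ?_⟩
    rcases h4 with ⟨a, b, hab, h5⟩ | ⟨v₀, h5⟩
    · have ha : a ∈ {v | v ∈ LocR M (crr L₁ (Seg w)) row c₀ d ∧ RegW w D₀ Hs₀ v} := by
        rw [h5]
        exact Or.inl rfl
      have hb : b ∈ {v | v ∈ LocR M (crr L₁ (Seg w)) row c₀ d ∧ RegW w D₀ Hs₀ v} := by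
        rw [h5]
        exact Or.inr rfl
      exact ⟨a, b, hab, ha.1, ha.2, hb.1, hb.2⟩
    · have ha : v₀ ∈ {v | v ∈ LocR M (crr L₁ (Seg w)) row c₀ d ∧ RegW w D₀ Hs₀ v} := by
        rw [h5]
        exact self_mem_star v₀
      have hb : (v₀.1 + 1, v₀.2) ∈ {v | v ∈ LocR M (crr L₁ (Seg w)) row c₀ d ∧ RegW w D₀ Hs₀ v} := by
        rw [h5]
        exact Or.inr (Or.inr (Or.inl rfl))
      refine ⟨v₀, (v₀.1 + 1, v₀.2), ?_, ha.1, ha.2, hb.1, hb.2⟩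
      intro h6
      have := congrArg Prod.fst h6
      simp at this
  · exact Or.inr h1

/-- **Kinds**, second form: away from `LR` the elements with two own vertices see no row of `LR`. -/
theorem GSys.kind₂ [M.Finite]
    (h : GSys M w s 𝒯 L₁ f₁ e₁ u₁ L₂ f₂ e₂ u₂ D σ N m τ R c Za row β D₀ δ₀ D₁ δ₁ Hm Hs₀ Om₁ Hs₁ Om₂)
    (hZL : Zq ⊆ LR) (hLS : LR ⊆ Seg w) (hout : ∀ r ∈ Seg w, r ∉ Zq →
      OutW (δ₁ + 60) w Om₂ (segNear r) ∧ OutW (δ₁ + 60) w Om₂ (segFar r))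
    (hBd : ∀ r ∈ Seg w, ∀ v ∈ Bd, sd (segNear r) v ≤ 3 ∨ sd (segFar r) v ≤ 3 → r ∈ LR)
    {d : α} (hd : d ∈ D) {r : Bool × ℕ × ℕ} (hr : r ∈ Seg w) (hrL : r ∉ LR)
    (hn : segNear r ∉ VV LR) (hf : segFar r ∉ VV LR) {x y : α}
    (hx : x ∈ L₁ r) (hy : y ∈ L₁ r) (hxy : x ≠ y) (hs : Sees M (crr L₁ (Seg w)) d x y) :
    (TwoB M (crr L₁ (Seg w)) row w D₀ Hs₀ Bd d ∧
      ∀ r' ∈ LR, r' ∉ Zq → ∀ x' ∈ L₁ r', ∀ y' ∈ L₁ r', x' ≠ y' →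
        ¬ Sees M (crr L₁ (Seg w)) d x' y') ∨ ∃ A₀, OnP M w L₁ LR d r A₀ := by
  by_cases hsee : ∃ r' ∈ LR, r' ∉ Zq ∧ ∃ x' ∈ L₁ r', ∃ y' ∈ L₁ r', x' ≠ y' ∧
      Sees M (crr L₁ (Seg w)) d x' y'
  · right
    obtain ⟨r', hr'L, hr'Z, x', hx', y', hy', _, hs'⟩ := hsee
    have hG := h.b.pair.s₁
    have hv1 := hout r hr fun h => hrL (hZL h)
    have hv2 := hout r' (hLS hr'L) hr'Z
    refine sees_far h.rw hG h.rnd.wal (D := D₀) (Hs := Hs₀) (by have := h.rnd.le; omega)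
      (fun v hv => h.rnd.vc v hv.1 hv.2) (h.b.D_cl hd) (fun c₀ hc hW A hA =>
        (h.rnd.two d hd).1 c₀ hc hW A fun v hv => ⟨(hA v hv).1, (hA v hv).2.1, (hA v hv).2.2⟩)
      ?_ hr hrL (hLS hr'L) hr'L ?_ hn hf hx hy hxy hs hx' hy' hs'
    · intro r'' hr'' hrL''
      have h1 := hout r'' hr'' fun h => hrL'' (hZL h)
      exact ⟨h.vis h1.1 _ (by rw [sd_self]; omega), h.vis h1.2 _ (by rw [sd_self]; omega)⟩
    · rintro a (rfl | rfl | rfl | rfl) t ht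
      · exact h.vis hv1.1 t (by omega)
      · exact h.vis hv1.2 t (by omega)
      · exact h.vis hv2.1 t (by omega)
      · exact h.vis hv2.2 t (by omega)
  · push Not at hsee
    rcases h.kind₁ hZL hout hBd hd hr hrL hx hy hxy hs with h1 | h1
    · exact Or.inl ⟨h1, hsee⟩
    · exact Or.inr h1

end

end TSH
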