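import Pool.Agent.TST.LabRowF

/-!
# All facts of the label level for `M` (row R6 of T-star)

`TSH.factsAll` and `TSH.labRow` are in TST/LabRowF.lean (helper57), the fields in TST/LabP51.lean (helper51),
TST/LabP33.lean, TST/LabP94.lean and TST/LabQ77.lean.
-/
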