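import Pool.Agent.TST.LabJoin

/-!
# From the maximal state to the output of the label level (T-star, row R5; helper88)
-/

set_option autoImplicit false

open Set

namespace TST

universe u v w

section

variable {α : Type u} {β : Type v} {ν : Type w} {rw : β → Set α} {V : Set β} {nd₁ nd₂ : β → ν}
  {S : α → α → α → Prop} {Dg Fr On Dt Dq : Set α} {Nr : ν → Set α} {Tr : β → Set α}
  {Tu : ν → Set α} {Lv : ν → α → Set α} {Aw : β → α → Set α} {Au : ν → α → Fin 3 → Set α}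
  {B : α → α → α → α → Prop} {lg : ν → Fin 3 → β} {oe : ν → Fin 3 → ν} {fr : α → Bool → β}
  {r₀ : α → β} {ct : α → ν} {m N K n : ℕ} {R : ℕ → β} {c : ℕ → ℕ → α} {h : ℕ → ℕ} {γ : Set ℕ}
  {w : ℕ → Finset ℕ → α} {ki kj kk : ℕ → ℕ} {Cs : Set ℕ} {D : Set (Cd α)} {W : Finset ℕ}

/-- **The output of the label level.**  `Cs` = the cut labels of the maximal state, `W` = usable windows. -/
theorem label_end
    (hF : LabFacts3 rw V nd₁ nd₂ S Dg Fr On Dt Nr Tr Tu Lv Aw Au B lg oe fr r₀ ct)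
    (hf : LabFam V nd₁ nd₂ S Dg Fr On Dt Nr Tr Lv Aw ct m K R (fun i b => c i (h b)) γ w ki kj kk)
    (hhN : ∀ b < K, h b < N) (hh : ∀ a b, a < b → b < K → h a < h b)
    (hC : ∀ i < m, R i ∈ V → ∀ a < K, c i (h a) ∈ rw (R i))
    (hinj : ∀ k < m, ∀ a < K, ∀ b < K, c k (h a) = c k (h b) → a = b)
    (hH : EndH rw V nd₁ nd₂ S Fr Nr Tr Lv Aw B lg oe fr m K R (fun i b => c i (h b)) γ
      (fun e x => w e (Qw x)) kk (W : Set ℕ) D)
    (hD : ∀ k ∈ Cs, k ∈ cutL D)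
    (hmax : ∀ i, (∀ j, Relation.ReflTransGen (AdjA V S m K R (fun i b => c i (h b)) γ w) i j →
          j ∈ Cs ∧ Relation.ReflTransGen
            (C0G (SameG R (SameK γ kk) (SplF V S m K R (fun i b => c i (h b)) w))
              (PairG (FarK γ kk) (SplF V S m K R (fun i b => c i (h b)) w))
              (fun y => PairG (NearK nd₁ nd₂ R γ ki kk y)
                (SplF V S m K R (fun i b => c i (h b)) w))) i j) ∨
        ∃ v v' : ν, ∀ j, Relation.ReflTransGen (AdjA V S m K R (fun i b => c i (h b)) γ w) i j →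
          At nd₁ nd₂ (R j) v ∨ At nd₁ nd₂ (R j) v')
    (hW : 2 * 3 + 4 + n * (8 * (7 * (m * m)) + 8) ≤ W.card) :
    ∃ (κ : ℕ → ℕ) (T : Set α) (pr : α → Bool → β) (pa : α → Bool → Set α) (kc : ℕ) (cls : ℕ → ℕ)
      (pv : Set ℕ),
      LabOut V nd₁ nd₂ S Dg T pr pa m n N R c κ T kc cls pv ∧ T ⊆ Dg ∧
      ∀ t ∈ T, TPl rw V nd₁ nd₂ S Fr Nr Tr Lv Aw B lg oe fr pr pa t := by
  classical
  obtain ⟨C, hCv⟩ : ∃ C : ℕ → ℕ → α, C = fun i b => c i (h b) := ⟨_, rfl⟩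
  rw [← hCv] at hf hH hmax
  have hC' : ∀ i < m, R i ∈ V → ∀ p < K, C i p ∈ rw (R i) := by
    intro i hi hiV p hp
    rw [hCv]
    exact hC i hi hiV p hp
  have hinj' : ∀ k < m, ∀ p < K, ∀ p' < K, C k p = C k p' → p = p' := by
    intro k hk p hp p' hp' h1
    rw [hCv] at h1
    exact hinj k hk p hp p' hp' h1
  have hwin : ∀ x ∈ (W : Set ℕ), 5 * x + 5 < K := hH.ord.win
  obtain ⟨x₀, hx₀⟩ := hH.wne
  -- the two forms of the splitting
  have toF : ∀ e ∈ γ, ∀ k, k < m → R k ∈ V →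
      SplW S C (W : Set ℕ) (fun e x => w e (Qw x)) e k → SplF V S m K R C w e k := by
    intro e he k hk hkV hs
    exact ⟨⟨hk, hkV⟩, fun y hy => hf.seeW hinj' he hk (hwin x₀ hx₀) hy (hs x₀ hx₀)⟩
  have toW : ∀ e k, SplF V S m K R C w e k →
      SplW S C (W : Set ℕ) (fun e x => w e (Qw x)) e k := fun e k hs x hx => hs.2 x (hwin x hx)
  have toA : ∀ i j, AdjF {i | i < m ∧ R i ∈ V} S C (W : Set ℕ) (fun e x => w e (Qw x)) γ i j →
      AdjA V S m K R C γ w i j := by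
    rintro i j ⟨⟨hi, hj⟩, e, he, hs, hs'⟩
    exact ⟨e, he, toF e he i hi.1 hi.2 hs, toF e he j hj.1 hj.2 hs'⟩
  have toAR : ∀ i j, Relation.ReflTransGen (AdjF {i | i < m ∧ R i ∈ V} S C (W : Set ℕ)
      (fun e x => w e (Qw x)) γ) i j → Relation.ReflTransGen (AdjA V S m K R C γ w) i j :=
    fun i j hij => Relation.ReflTransGen.mono toA _ _ hij
  have toF' : ∀ i j, AdjA V S m K R C γ w i j →
      AdjF {i | i < m ∧ R i ∈ V} S C (W : Set ℕ) (fun e x => w e (Qw x)) γ i j := by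
    rintro i j ⟨e, he, hs, hs'⟩
    exact ⟨⟨hs.1, hs'.1⟩, e, he, toW e i hs, toW e j hs'⟩
  have toFR : ∀ i j, Relation.ReflTransGen (AdjA V S m K R C γ w) i j →
      Relation.ReflTransGen (AdjF {i | i < m ∧ R i ∈ V} S C (W : Set ℕ)
        (fun e x => w e (Qw x)) γ) i j :=
    fun i j hij => Relation.ReflTransGen.mono toF' _ _ hij
  have toR : ∀ i j, C0G (SameG R (SameK γ kk) (SplF V S m K R C w))
      (PairG (FarK γ kk) (SplF V S m K R C w))
      (fun y => PairG (NearK nd₁ nd₂ R γ ki kk y) (SplF V S m K R C w)) i j →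
      AdjR {i | i < m ∧ R i ∈ V} S C (W : Set ℕ) (fun e x => w e (Qw x)) kk γ i j := by
    rintro i j (⟨-, e, h1, h2, h3⟩ | ⟨y, e, h1, h2, h3⟩ | ⟨e, h1, h2, h3⟩)
    · exact ⟨⟨h2.1, h3.1⟩, e, h1.1, by rw [h1.2], toW e i h2, toW e j h3⟩
    · refine ⟨⟨h2.1, h3.1⟩, e, h1.1, ?_, toW e i h2, toW e j h3⟩
      rcases h1.2 with h4 | h4
      · rw [h4.1]
        norm_num
      · rw [h4.1]
        norm_num
    · exact ⟨⟨h2.1, h3.1⟩, e, h1.1, by rw [h1.2]; norm_num, toW e i h2, toW e j h3⟩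
  -- the tiles
  obtain ⟨M, hM⟩ : ∃ M, M = 2 * 3 + 4 + n * (8 * (7 * (m * m)) + 8) := ⟨_, rfl⟩
  rw [← hM] at hW
  obtain ⟨Y, hY, hYm⟩ := exists_enum (W := (W : Set ℕ)) (M := M) (Finset.finite_toSet W)
    (by rw [Set.ncard_coe_finset]; exact hW)
  obtain ⟨γT, ρ, P, Cut, hO⟩ := EndH.layOut hF hf hC'
    (fun i hi _ p hp p' hp' h1 => hinj' i hi p hp p' hp' h1) hH hY hYm
    (by
      intro i
      rcases hmax i with h1 | ⟨v, v', h1⟩
      · exact Or.inl fun j hj => hD j (h1 j (toAR i j hj)).1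
      · exact Or.inr ⟨v, v', fun j hj => h1 j (toAR i j hj)⟩)
    (by
      intro e he hk hcut hnp
      have hsp := hf.splF_ki he hinj'
      rcases hmax (ki e) with h1 | ⟨v, v', h1⟩
      · have h2 := (h1 (kj e) (Relation.ReflTransGen.single ⟨e, he, hsp.1, hsp.2⟩)).2
        exact Relation.ReflTransGen.mono toR _ _ h2
      · exact absurd ⟨v, v', fun j hj => h1 j (toAR _ j hj)⟩ hnp)
  have hYK : ∀ b < M, 5 * Y b < K := by
    intro b hb
    have := hwin (Y b) (hY b hb)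
    omega
  rw [hCv] at hO
  obtain ⟨κ, T, pr, pa, kc, cls, pv, -, hT, hL⟩ := labFrame (n := n) (N := N) (c := c)
    (h := fun b => h (5 * Y b)) (fun t pr pa h1 => h1.1) (by rw [← hM]) (by
      intro a b hab hb
      have h1 := hYm a b hab hb
      exact hh _ _ (by omega) (hYK b hb)) (fun b hb => hhN _ (hYK b hb)) hO
  exact ⟨κ, T, pr, pa, kc, cls, pv, hL, fun t ht => (hT t ht).1, fun t ht => (hT t ht).2⟩

end

end TST
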