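import Pool.Agent.DA.Noise

/-!
# Ramsey for order types, and the Ramsey step of the label level for all sets of four tiles (helper88)

`ramsey_type`: finitely many properties of `r`-tuples depend only on the order type of the tuple.
`lab_ram4`: families of witnesses indexed by ALL sets of four chosen tiles; every relation between the
witness of `Q` and two tiles `a`, `b` depends only on the places of `a`, `b` relative to `Q` (nine places:
before, at and between the four tiles of `Q`, behind) and on the order of `a`, `b`.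
-/

set_option autoImplicit false

open Set

namespace TST

universe u

lemma card_image_ker {ι : Type*} (s : Finset ι) (f g : ι → ℕ)
    (h : ∀ a ∈ s, ∀ b ∈ s, (f a = f b ↔ g a = g b)) : (s.image f).card = (s.image g).card := by
  classical
  induction s using Finset.induction_on with
  | empty => rfl
  | insert a s ha ih =>
    have ih' := ih fun b hb c hc => h b (Finset.mem_insert_of_mem hb) c (Finset.mem_insert_of_mem hc)
    rw [Finset.image_insert, Finset.image_insert]
    by_cases h1 : f a ∈ s.image f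
    · obtain ⟨b, hb, hba⟩ := Finset.mem_image.1 h1
      have h2 : g a ∈ s.image g := by
        refine Finset.mem_image.2 ⟨b, hb, ?_⟩
        exact (h b (Finset.mem_insert_of_mem hb) a (Finset.mem_insert_self a s)).1 hba
      rw [Finset.insert_eq_of_mem h1, Finset.insert_eq_of_mem h2, ih']
    · have h2 : g a ∉ s.image g := by
        intro h3
        obtain ⟨b, hb, hba⟩ := Finset.mem_image.1 h3
        exact h1 (Finset.mem_image.2 ⟨b, hb,
          (h b (Finset.mem_insert_of_mem hb) a (Finset.mem_insert_self a s)).2 hba⟩)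
      rw [Finset.card_insert_of_notMem h1, Finset.card_insert_of_notMem h2, ih']

/-- the element at the position `#{y ∈ Y | y < x}` is `x` -/
lemma emb_rank {r : ℕ} {Y : Finset ℕ} (hY : Y.card = r) {x : ℕ} (hx : x ∈ Y) :
    ∃ hr : (Y.filter fun y => y < x).card < r,
      Y.orderEmbOfFin hY ⟨(Y.filter fun y => y < x).card, hr⟩ = x := by
  classical
  obtain ⟨i, hi⟩ : ∃ i : Fin r, Y.orderEmbOfFin hY i = x := by
    have h1 : x ∈ Set.range (Y.orderEmbOfFin hY) := by
      rw [Finset.range_orderEmbOfFin]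
      exact hx
    exact h1
  have h2 : (Y.filter fun y => y < x) = (Finset.univ.filter fun j : Fin r => j < i).image
      (Y.orderEmbOfFin hY) := by
    ext y
    rw [Finset.mem_filter, Finset.mem_image]
    constructor
    · rintro ⟨h3, h4⟩
      have h5 : y ∈ Set.range (Y.orderEmbOfFin hY) := by
        rw [Finset.range_orderEmbOfFin]
        exact h3
      obtain ⟨j, hj⟩ := h5
      refine ⟨j, ?_, hj⟩
      rw [Finset.mem_filter]
      refine ⟨Finset.mem_univ _, ?_⟩
      rw [← hj, ← hi] at h4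
      exact (Y.orderEmbOfFin hY).lt_iff_lt.1 h4
    · rintro ⟨j, hj, rfl⟩
      rw [Finset.mem_filter] at hj
      refine ⟨Finset.orderEmbOfFin_mem Y hY j, ?_⟩
      rw [← hi]
      exact (Y.orderEmbOfFin hY).strictMono hj.2
  have h3 : (Y.filter fun y => y < x).card = i.val := by
    rw [h2, Finset.card_image_of_injective _ (Y.orderEmbOfFin hY).injective]
    have h4 : (Finset.univ.filter fun j : Fin r => j < i) = Finset.Iio i := by
      ext j
      simp
    rw [h4, Fin.card_Iio]
  refine ⟨by rw [h3]; exact i.2, ?_⟩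
  have h4 : (⟨(Y.filter fun y => y < x).card, by rw [h3]; exact i.2⟩ : Fin r) = i := Fin.ext h3
  rw [h4, hi]

/-- **Ramsey for order types.** -/
theorem ramsey_type {J : Type} [DecidableEq J] (I : Finset J) (r K : ℕ) : ∃ N : ℕ,
    ∀ Q : J → (Fin r → ℕ) → Prop, ∃ h : ℕ → ℕ, (∀ b < K, h b < N) ∧
      (∀ a b, a < b → b < K → h a < h b) ∧
      ∀ j ∈ I, ∀ f f' : Fin r → ℕ, (∀ i, f i < K) → (∀ i, f' i < K) →
        (∀ i i', f i < f i' ↔ f' i < f' i') →
        (Q j (fun i => h (f i)) ↔ Q j (fun i => h (f' i))) := by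
  classical
  obtain ⟨N, hN⟩ := DA.ramseyT (J := J × (Fin r → Fin r)) (fun _ => r) (I ×ˢ Finset.univ) (K + r)
  refine ⟨N, ?_⟩
  intro Q
  obtain ⟨en, hen⟩ : ∃ en : Finset ℕ → Fin r → ℕ, ∀ X : Finset ℕ, ∀ hX : X.card = r,
      ∀ i, en X i = X.orderEmbOfFin hX i :=
    ⟨fun X i => if hX : X.card = r then X.orderEmbOfFin hX i else 0, fun X hX i => by
      simp only [hX, dif_pos]⟩
  obtain ⟨W, hWN, hWc, hW⟩ := hN (Finset.range N) (by rw [Finset.card_range])
    (fun j X => Q j.1 (fun i => en X (j.2 i)))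
  obtain ⟨h, hh⟩ : ∃ h : ℕ → ℕ, h = fun b => if hb : b < K + r then W.orderEmbOfFin hWc ⟨b, hb⟩
    else 0 := ⟨_, rfl⟩
  have hv : ∀ b (hb : b < K + r), h b = W.orderEmbOfFin hWc ⟨b, hb⟩ := by
    intro b hb
    rw [hh]
    simp only [hb, dif_pos]
  have hmem : ∀ b < K + r, h b ∈ W := by
    intro b hb
    rw [hv b hb]
    exact Finset.orderEmbOfFin_mem _ _ _
  have hinc : ∀ a b, a < b → b < K + r → h a < h b := by
    intro a b hab hb
    rw [hv a (by omega), hv b hb]
    exact (W.orderEmbOfFin hWc).strictMono hab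
  refine ⟨h, fun b hb => Finset.mem_range.1 (hWN (hmem b (by omega))),
    fun a b hab hb => hinc a b hab (by omega), ?_⟩
  intro j hj
  -- the value depends only on the ranks
  have key : ∀ f : Fin r → ℕ, (∀ i, f i < K) → ∃ φ : Fin r → Fin r,
      (∀ i, (φ i).val = ((Finset.univ.filter fun i' => f i' < f i).image f).card) ∧
      (Q j (fun i => h (f i)) ↔ ∀ X ⊆ W, X.card = r → Q j (fun i => en X (φ i))) := by
    intro f hf
    obtain ⟨Y₀, hY₀⟩ : ∃ Y₀ : Finset ℕ, Y₀ = Finset.univ.image f := ⟨_, rfl⟩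
    have hY₀c : Y₀.card ≤ r := by
      rw [hY₀]
      refine Finset.card_image_le.trans ?_
      rw [Finset.card_univ, Fintype.card_fin]
    have hY₀K : ∀ y ∈ Y₀, y < K := by
      intro y hy
      rw [hY₀] at hy
      obtain ⟨i, -, rfl⟩ := Finset.mem_image.1 hy
      exact hf i
    obtain ⟨Y, hY⟩ : ∃ Y : Finset ℕ, Y = Y₀ ∪ Finset.Ico K (K + (r - Y₀.card)) := ⟨_, rfl⟩
    have hYc : Y.card = r := by
      rw [hY, Finset.card_union_of_disjoint, Nat.card_Ico]
      · omega
      · rw [Finset.disjoint_left]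
        intro y hy hy'
        have h1 := hY₀K y hy
        rw [Finset.mem_Ico] at hy'
        omega
    have hYK : ∀ y ∈ Y, y < K + r := by
      intro y hy
      rw [hY] at hy
      rcases Finset.mem_union.1 hy with h1 | h1
      · have := hY₀K y h1
        omega
      · rw [Finset.mem_Ico] at h1
        omega
    have hfY : ∀ i, f i ∈ Y := by
      intro i
      rw [hY, hY₀]
      exact Finset.mem_union_left _ (Finset.mem_image_of_mem f (Finset.mem_univ i))
    have hrk : ∀ i, (Y.filter fun y => y < f i) =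
        (Finset.univ.filter fun i' => f i' < f i).image f := by
      intro i
      ext y
      rw [Finset.mem_filter, Finset.mem_image, hY]
      constructor
      · rintro ⟨h1, h2⟩
        rcases Finset.mem_union.1 h1 with h3 | h3
        · rw [hY₀] at h3
          obtain ⟨i', -, rfl⟩ := Finset.mem_image.1 h3
          exact ⟨i', Finset.mem_filter.2 ⟨Finset.mem_univ _, h2⟩, rfl⟩
        · rw [Finset.mem_Ico] at h3
          have := hf i
          omega
      · rintro ⟨i', h1, rfl⟩
        rw [Finset.mem_filter] at h1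
        refine ⟨Finset.mem_union_left _ ?_, h1.2⟩
        rw [hY₀]
        exact Finset.mem_image_of_mem f (Finset.mem_univ i')
    have hex : ∀ i, ∃ p : Fin r, p.val = ((Finset.univ.filter fun i' => f i' < f i).image f).card ∧
        Y.orderEmbOfFin hYc p = f i := by
      intro i
      obtain ⟨h1, h2⟩ := emb_rank hYc (hfY i)
      exact ⟨⟨_, h1⟩, by rw [← hrk i], h2⟩
    choose φ hφ1 hφ2 using hex
    refine ⟨φ, hφ1, ?_⟩
    obtain ⟨X, hX⟩ : ∃ X : Finset ℕ, X = Y.image h := ⟨_, rfl⟩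
    have hXW : X ⊆ W := by
      rw [hX]
      intro x hx
      obtain ⟨y, hy, rfl⟩ := Finset.mem_image.1 hx
      exact hmem y (hYK y hy)
    have hsm : StrictMono fun p : Fin r => h (Y.orderEmbOfFin hYc p) := by
      intro p p' hpp
      exact hinc _ _ ((Y.orderEmbOfFin hYc).strictMono hpp)
        (hYK _ (Finset.orderEmbOfFin_mem Y hYc p'))
    have hXc : X.card = r := by
      rw [hX, Finset.card_image_of_injOn, hYc]
      intro a ha b hb hab
      rcases Nat.lt_trichotomy a b with h1 | h1 | h1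
      · have := hinc a b h1 (hYK b hb)
        omega
      · exact h1
      · have := hinc b a h1 (hYK a ha)
        omega
    have hXe : ∀ p, X.orderEmbOfFin hXc p = h (Y.orderEmbOfFin hYc p) := by
      intro p
      have h1 := Finset.orderEmbOfFin_unique (s := X) hXc
        (f := fun p : Fin r => h (Y.orderEmbOfFin hYc p)) (by
          intro p
          rw [hX]
          exact Finset.mem_image_of_mem h (Finset.orderEmbOfFin_mem Y hYc p)) hsm
      exact (congrFun h1 p).symm
    have hQX : Q j (fun i => en X (φ i)) ↔ Q j (fun i => h (f i)) := by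
      have h1 : (fun i => en X (φ i)) = fun i => h (f i) := by
        funext i
        rw [hen X hXc, hXe, hφ2]
      rw [h1]
    rcases hW (j, φ) (by
      rw [Finset.mem_product]
      exact ⟨hj, Finset.mem_univ _⟩) with h1 | h1
    · exact iff_of_true (hQX.1 (h1 X hXW hXc)) fun Z hZ hZc => h1 Z hZ hZc
    · exact iff_of_false (fun h2 => h1 X hXW hXc (hQX.2 h2)) fun h2 => h1 X hXW hXc (h2 X hXW hXc)
  intro f f' hf hf' hff
  obtain ⟨φ, h1, h2⟩ := key f hf
  obtain ⟨φ', h1', h2'⟩ := key f' hf'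
  have hφ : φ = φ' := by
    funext i
    apply Fin.ext
    rw [h1 i, h1' i]
    have h3 : (Finset.univ.filter fun i' => f i' < f i) =
        Finset.univ.filter fun i' => f' i' < f' i := by
      ext i'
      rw [Finset.mem_filter, Finset.mem_filter, hff]
    rw [h3]
    refine card_image_ker _ _ _ ?_
    intro a _ b _
    have h4 := hff a b
    have h5 := hff b a
    omega
  rw [h2, h2', hφ]

/-- the place of `a` relative to the set `Q` of four tiles: `0` = before all, `1` = the first, `2` = between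
the first and the second, .., `7` = the fourth, `8` = behind all -/
def qloc (Q : Finset ℕ) (a : ℕ) : ℕ :=
  (Q.filter fun y => y < a).card + (Q.filter fun y => y ≤ a).card

lemma qloc_iff {Q : Finset ℕ} {r : ℕ} (hQ : Q.card = r) (a : ℕ) (i : Fin r) :
    (Q.orderEmbOfFin hQ i < a ↔ 2 * i.val + 1 < qloc Q a) ∧
      (a < Q.orderEmbOfFin hQ i ↔ qloc Q a < 2 * i.val + 1) := by
  classical
  have h1 : ∀ b, (Q.filter fun y => y < b) = (Finset.univ.filter fun j : Fin r =>
      Q.orderEmbOfFin hQ j < b).image (Q.orderEmbOfFin hQ) := by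
    intro b
    ext y
    rw [Finset.mem_filter, Finset.mem_image]
    constructor
    · rintro ⟨h3, h4⟩
      have h5 : y ∈ Set.range (Q.orderEmbOfFin hQ) := by
        rw [Finset.range_orderEmbOfFin]
        exact h3
      obtain ⟨j, hj⟩ := h5
      exact ⟨j, Finset.mem_filter.2 ⟨Finset.mem_univ _, by rw [hj]; exact h4⟩, hj⟩
    · rintro ⟨j, hj, rfl⟩
      rw [Finset.mem_filter] at hj
      exact ⟨Finset.orderEmbOfFin_mem Q hQ j, hj.2⟩
  have h2 : ∀ b, (Q.filter fun y => y < b).card = (Finset.univ.filter fun j : Fin r =>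
      Q.orderEmbOfFin hQ j < b).card := by
    intro b
    rw [h1 b, Finset.card_image_of_injective _ (Q.orderEmbOfFin hQ).injective]
  have h3 : (Q.filter fun y => y ≤ a).card = (Finset.univ.filter fun j : Fin r =>
      Q.orderEmbOfFin hQ j < a + 1).card := by
    rw [← h2 (a + 1)]
    congr 1
    ext y
    rw [Finset.mem_filter, Finset.mem_filter]
    exact and_congr_right fun _ => by omega
  -- the number of positions below a bound
  have h4 : ∀ b, (Q.orderEmbOfFin hQ i < b ↔
      i.val < (Finset.univ.filter fun j : Fin r => Q.orderEmbOfFin hQ j < b).card) := by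
    intro b
    constructor
    · intro h5
      have h6 : Finset.Iic i ⊆ Finset.univ.filter fun j : Fin r => Q.orderEmbOfFin hQ j < b := by
        intro j hj
        rw [Finset.mem_Iic] at hj
        rw [Finset.mem_filter]
        exact ⟨Finset.mem_univ _, ((Q.orderEmbOfFin hQ).monotone hj).trans_lt h5⟩
      have h7 := Finset.card_le_card h6
      rw [Fin.card_Iic] at h7
      omega
    · intro h5
      by_contra h6
      have h7 : (Finset.univ.filter fun j : Fin r => Q.orderEmbOfFin hQ j < b) ⊆ Finset.Iio i := by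
        intro j hj
        rw [Finset.mem_filter] at hj
        rw [Finset.mem_Iio]
        by_contra h8
        push Not at h8
        have h9 := (Q.orderEmbOfFin hQ).monotone h8
        omega
      have h8 := Finset.card_le_card h7
      rw [Fin.card_Iio] at h8
      omega
  have h5 := h4 a
  have h6 := h4 (a + 1)
  have h7 : (Finset.univ.filter fun j : Fin r => Q.orderEmbOfFin hQ j < a).card ≤
      (Finset.univ.filter fun j : Fin r => Q.orderEmbOfFin hQ j < a + 1).card := by
    refine Finset.card_le_card ?_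
    intro j hj
    rw [Finset.mem_filter] at hj ⊢
    exact ⟨hj.1, by omega⟩
  have h8 : (Finset.univ.filter fun j : Fin r => Q.orderEmbOfFin hQ j < a + 1).card ≤
      (Finset.univ.filter fun j : Fin r => Q.orderEmbOfFin hQ j < a).card + 1 := by
    rw [← h2 (a + 1), ← h2 a]
    have h9 : (Q.filter fun y => y < a + 1) ⊆ insert a (Q.filter fun y => y < a) := by
      intro y hy
      rw [Finset.mem_filter] at hy
      rw [Finset.mem_insert, Finset.mem_filter]
      by_cases h10 : y = a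
      · exact Or.inl h10
      · exact Or.inr ⟨hy.1, by omega⟩
    exact (Finset.card_le_card h9).trans (Finset.card_insert_le _ _)
  unfold qloc
  rw [h2 a, h3]
  constructor
  · rw [h5]
    omega
  · have h9 : a < Q.orderEmbOfFin hQ i ↔ ¬ Q.orderEmbOfFin hQ i < a + 1 := by omega
    rw [h9, h6]
    omega

/-- **Ramsey step of the label level for all sets of four tiles.** -/
theorem lab_ram4 (m E₁ G₁ K : ℕ) : ∃ N : ℕ, ∀ {α : Type u} [Nonempty α]
    (Wt : ℕ → Finset ℕ → α → Prop) (Sn : α → ℕ → ℕ → ℕ → Prop) (g : ℕ → ℕ → Prop),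
    ∃ (h : ℕ → ℕ) (γ : Set ℕ) (w : ℕ → Finset ℕ → α), (∀ b < K, h b < N) ∧
      (∀ a b, a < b → b < K → h a < h b) ∧
      (∀ i < G₁, ∀ a < K, ∀ b < K, g i (h a) → g i (h b)) ∧
      (∀ e < E₁, e ∈ γ → ∀ Q ⊆ Finset.range K, Q.card = 4 → Wt e (Q.image h) (w e Q)) ∧
      (∀ e < E₁, e ∉ γ → ∀ Q ⊆ Finset.range K, Q.card = 4 → ∀ d, ¬ Wt e (Q.image h) d) ∧
      ∀ e < E₁, ∀ k < m, ∀ Q ⊆ Finset.range K, Q.card = 4 → ∀ Q' ⊆ Finset.range K, Q'.card = 4 →
        ∀ a < K, ∀ b < K, ∀ a' < K, ∀ b' < K, qloc Q a = qloc Q' a' → qloc Q b = qloc Q' b' →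
        (a < b ↔ a' < b') → (b < a ↔ b' < a') →
        (Sn (w e Q) k (h a) (h b) ↔ Sn (w e Q') k (h a') (h b')) := by
  classical
  obtain ⟨I, hI⟩ : ∃ I : Finset ((ℕ × ℕ) ⊕ (ℕ ⊕ ℕ)),
      I = (Finset.range E₁ ×ˢ Finset.range m).disjSum
        ((Finset.range E₁).disjSum (Finset.range G₁)) := ⟨_, rfl⟩
  obtain ⟨N, hN⟩ := ramsey_type I 6 (K + 1)
  refine ⟨N, ?_⟩
  intro α _ Wt Sn g
  obtain ⟨ch, hch⟩ : ∃ ch : ℕ → Finset ℕ → α, ∀ e Q, (∃ d, Wt e Q d) → Wt e Q (ch e Q) :=
    ⟨fun e Q => Classical.epsilon fun d => Wt e Q d, fun e Q h => Classical.epsilon_spec h⟩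
  obtain ⟨h, hh1, hh2, hh3⟩ := hN (fun j t => Sum.elim
    (fun q => Sn (ch q.1 {t 0, t 1, t 2, t 3}) q.2 (t 4) (t 5))
    (fun z => Sum.elim (fun e => ∃ d, Wt e {t 0, t 1, t 2, t 3} d) (fun i => g i (t 0)) z) j)
  -- the enumeration of a set of four tiles
  have four : ∀ Q ⊆ Finset.range K, ∀ hQ : Q.card = 4, ∀ t : Fin 6 → ℕ,
      (∀ i : Fin 4, t ⟨i.val, by omega⟩ = Q.orderEmbOfFin hQ i) →
      ({h (t 0), h (t 1), h (t 2), h (t 3)} : Finset ℕ) = Q.image h := by
    intro Q hQK hQ t ht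
    have h0 := ht 0
    have h1 := ht 1
    have h2 := ht 2
    have h3 := ht 3
    have e0 : t 0 = Q.orderEmbOfFin hQ 0 := h0
    have e1 : t 1 = Q.orderEmbOfFin hQ 1 := h1
    have e2 : t 2 = Q.orderEmbOfFin hQ 2 := h2
    have e3 : t 3 = Q.orderEmbOfFin hQ 3 := h3
    have hQe : Q = Finset.univ.image (Q.orderEmbOfFin hQ) := by
      apply Finset.coe_injective
      rw [Finset.coe_image, Finset.coe_univ, Set.image_univ, Finset.range_orderEmbOfFin]
    rw [e0, e1, e2, e3]
    conv_rhs => rw [hQe]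
    ext y
    simp only [Finset.mem_insert, Finset.mem_singleton, Finset.mem_image, Finset.mem_univ,
      true_and]
    constructor
    · rintro (rfl | rfl | rfl | rfl)
      · exact ⟨_, ⟨0, rfl⟩, rfl⟩
      · exact ⟨_, ⟨1, rfl⟩, rfl⟩
      · exact ⟨_, ⟨2, rfl⟩, rfl⟩
      · exact ⟨_, ⟨3, rfl⟩, rfl⟩
    · rintro ⟨z, ⟨i, rfl⟩, rfl⟩
      fin_cases i
      · exact Or.inl rfl
      · exact Or.inr (Or.inl rfl)
      · exact Or.inr (Or.inr (Or.inl rfl))
      · exact Or.inr (Or.inr (Or.inr rfl))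
  -- the tuple of a set of four tiles and two tiles
  obtain ⟨tp, htp⟩ : ∃ tp : ∀ (Q : Finset ℕ) (_ : Q.card = 4) (_ _ : ℕ), Fin 6 → ℕ,
      tp = fun Q hQ a b i => if hi : i.val < 4 then Q.orderEmbOfFin hQ ⟨i.val, hi⟩ else
        if i.val = 4 then a else b := ⟨_, rfl⟩
  have tp4 : ∀ Q (hQ : Q.card = 4) a b (i : Fin 4),
      tp Q hQ a b ⟨i.val, by omega⟩ = Q.orderEmbOfFin hQ i := by
    intro Q hQ a b i
    rw [htp]
    simp only [i.2, dif_pos]
  have tpa : ∀ Q (hQ : Q.card = 4) a b, tp Q hQ a b 4 = a := by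
    intro Q hQ a b
    rw [htp]
    rfl
  have tpb : ∀ Q (hQ : Q.card = 4) a b, tp Q hQ a b 5 = b := by
    intro Q hQ a b
    rw [htp]
    rfl
  have cases6 : ∀ i : Fin 6, (∃ j : Fin 4, i = ⟨j.val, by omega⟩) ∨ i = 4 ∨ i = 5 := by
    intro i
    fin_cases i
    · exact Or.inl ⟨0, rfl⟩
    · exact Or.inl ⟨1, rfl⟩
    · exact Or.inl ⟨2, rfl⟩
    · exact Or.inl ⟨3, rfl⟩
    · exact Or.inr (Or.inl rfl)
    · exact Or.inr (Or.inr rfl)
  have tpK : ∀ Q ⊆ Finset.range K, ∀ (hQ : Q.card = 4) a b, a < K → b < K → ∀ i,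
      tp Q hQ a b i < K + 1 := by
    intro Q hQK hQ a b ha hb i
    rcases cases6 i with ⟨j, rfl⟩ | rfl | rfl
    · rw [tp4]
      have := Finset.mem_range.1 (hQK (Finset.orderEmbOfFin_mem Q hQ j))
      omega
    · rw [tpa]
      omega
    · rw [tpb]
      omega
  have tpo : ∀ Q (hQ : Q.card = 4) Q' (hQ' : Q'.card = 4) a b a' b', qloc Q a = qloc Q' a' →
      qloc Q b = qloc Q' b' → (a < b ↔ a' < b') → (b < a ↔ b' < a') →
      ∀ i i', tp Q hQ a b i < tp Q hQ a b i' ↔ tp Q' hQ' a' b' i < tp Q' hQ' a' b' i' := by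
    intro Q hQ Q' hQ' a b a' b' h1 h2 h3 h4 i i'
    rcases cases6 i with ⟨j, rfl⟩ | rfl | rfl <;> rcases cases6 i' with ⟨j', rfl⟩ | rfl | rfl <;>
      simp only [tp4, tpa, tpb]
    · rw [(Q.orderEmbOfFin hQ).lt_iff_lt, (Q'.orderEmbOfFin hQ').lt_iff_lt]
    · rw [(qloc_iff hQ a j).1, (qloc_iff hQ' a' j).1, h1]
    · rw [(qloc_iff hQ b j).1, (qloc_iff hQ' b' j).1, h2]
    · rw [(qloc_iff hQ a j').2, (qloc_iff hQ' a' j').2, h1]
    · omega
    · exact h3
    · rw [(qloc_iff hQ b j').2, (qloc_iff hQ' b' j').2, h2]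
    · exact h4
    · omega
  obtain ⟨γ, hγ⟩ : ∃ γ : Set ℕ, γ = {e | ∀ Q ⊆ Finset.range K, Q.card = 4 →
    ∃ d, Wt e (Q.image h) d} := ⟨_, rfl⟩
  refine ⟨h, γ, fun e Q => ch e (Q.image h), ?_, ?_, ?_, ?_, ?_, ?_⟩
  · exact fun b hb => hh1 b (by omega)
  · exact fun a b hab hb => hh2 a b hab (by omega)
  · intro i hi a ha b hb h1
    have h2 := hh3 (Sum.inr (Sum.inr i)) (by rw [hI]; simp [hi]) (fun _ => a) (fun _ => b)
      (fun _ => by omega) (fun _ => by omega) (fun _ _ => by simp)
    exact h2.1 h1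
  · intro e he heγ Q hQ hQc
    rw [hγ] at heγ
    exact hch e _ (heγ Q hQ hQc)
  · intro e he heγ Q hQ hQc d hd
    apply heγ
    rw [hγ]
    intro Q' hQ' hQc'
    have hK : 0 < K := by
      have h1 := Finset.card_le_card hQ
      rw [hQc, Finset.card_range] at h1
      omega
    -- both sets with the tile `K` twice
    have qK : ∀ Q₁ ⊆ Finset.range K, Q₁.card = 4 → qloc Q₁ K = 8 := by
      intro Q₁ hQ₁ hc
      unfold qloc
      have e1 : (Q₁.filter fun y => y < K) = Q₁ :=
        Finset.filter_true_of_mem fun y hy => Finset.mem_range.1 (hQ₁ hy)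
      have e2 : (Q₁.filter fun y => y ≤ K) = Q₁ :=
        Finset.filter_true_of_mem fun y hy => (Finset.mem_range.1 (hQ₁ hy)).le
      rw [e1, e2, hc]
    have tpK' : ∀ Q₁ ⊆ Finset.range K, ∀ (hc : Q₁.card = 4), ∀ i, tp Q₁ hc K K i < K + 1 := by
      intro Q₁ hQ₁ hc i
      rcases cases6 i with ⟨j, rfl⟩ | rfl | rfl
      · rw [tp4]
        have := Finset.mem_range.1 (hQ₁ (Finset.orderEmbOfFin_mem Q₁ hc j))
        omega
      · rw [tpa]
        omega
      · rw [tpb]
        omega
    have h2 := hh3 (Sum.inr (Sum.inl e)) (by rw [hI]; simp [he]) (tp Q hQc K K) (tp Q' hQc' K K)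
      (tpK' Q hQ hQc) (tpK' Q' hQ' hQc')
      (tpo Q hQc Q' hQc' K K K K (by rw [qK Q hQ hQc, qK Q' hQ' hQc'])
        (by rw [qK Q hQ hQc, qK Q' hQ' hQc']) Iff.rfl Iff.rfl)
    simp only [Sum.elim_inr, Sum.elim_inl] at h2
    rw [four Q hQ hQc _ (tp4 Q hQc K K), four Q' hQ' hQc' _ (tp4 Q' hQc' K K)] at h2
    exact h2.1 ⟨d, hd⟩
  · intro e he k hk Q hQ hQc Q' hQ' hQc' a ha b hb a' ha' b' hb' h1 h2 h3 h4
    have h5 := hh3 (Sum.inl (e, k)) (by rw [hI]; simp [he, hk]) (tp Q hQc a b) (tp Q' hQc' a' b')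
      (tpK Q hQ hQc a b ha hb) (tpK Q' hQ' hQc' a' b' ha' hb')
      (tpo Q hQc Q' hQc' a b a' b' h1 h2 h3 h4)
    simp only [Sum.elim_inl] at h5
    rw [four Q hQ hQc _ (tp4 Q hQc a b), four Q' hQ' hQc' _ (tp4 Q' hQc' a' b'), tpa, tpb, tpa,
      tpb] at h5
    exact h5

end TST
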