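import Pool.Agent.TST.LabFrame
import Pool.Agent.TST.LabRam4
import Pool.Agent.TST.LabDef3

/-!
# The Ramsey families of the label level (helper88)

`LabFam`: `C i a` = conflict of the label `i` in the tile `a < K`; families `e ∈ γ` with the members
`w e Q` for all sets `Q` of four tiles.  `ki e`, `kj e` = the two labels which are seen, `kk e` = kind.
-/

set_option autoImplicit false

open Set

namespace TST

universe u v w

section

variable {α : Type u} {β : Type v} {ν : Type w}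

/-- elements of the kind `k` for the row `r` -/
def KindS (nd₁ nd₂ : β → ν) (Fr On Dt : Set α) (Nr : ν → Set α) (Tr : β → Set α) (ct : α → ν)
    (r : β) (k : ℕ) : Set α :=
  {d | (k = 0 ∧ d ∈ Fr) ∨ (k = 1 ∧ d ∈ Nr (nd₁ r)) ∨ (k = 2 ∧ d ∈ Nr (nd₂ r)) ∨ (k = 3 ∧ d ∈ Tr r) ∨
    (k = 4 ∧ d ∈ On) ∨ (k = 5 ∧ d ∈ Dt ∧ ct d = nd₁ r) ∨ (k = 6 ∧ d ∈ Dt ∧ ct d = nd₂ r)}

/-- `d` separates two tiles of `Q` of the label `i` -/
def SnQ (S : α → α → α → Prop) (C : ℕ → ℕ → α) (Q : Finset ℕ) (d : α) (i : ℕ) : Prop :=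
  ∃ a ∈ Q, ∃ b ∈ Q, a ≠ b ∧ S d (C i a) (C i b)

/-- **The Ramsey families.** -/
structure LabFam (V : Set β) (nd₁ nd₂ : β → ν) (S : α → α → α → Prop) (Dg Fr On Dt : Set α)
    (Nr : ν → Set α) (Tr : β → Set α) (Lv : ν → α → Set α) (Aw : β → α → Set α) (ct : α → ν)
    (m K : ℕ) (R : ℕ → β) (C : ℕ → ℕ → α) (γ : Set ℕ) (w : ℕ → Finset ℕ → α) (ki kj kk : ℕ → ℕ) :
    Prop where
  ran : ∀ e ∈ γ, e < 7 * (m * m) ∧ (ki e < m ∧ R (ki e) ∈ V) ∧ (kj e < m ∧ R (kj e) ∈ V)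
  wit : ∀ e ∈ γ, ∀ Q ⊆ Finset.range K, Q.card = 4 → w e Q ∈ Dg ∧
    w e Q ∈ KindS nd₁ nd₂ Fr On Dt Nr Tr ct (R (ki e)) (kk e) ∧
    SnQ S C Q (w e Q) (ki e) ∧ SnQ S C Q (w e Q) (kj e)
  /-- every edge has a family -/
  all : ∀ i j, AdjK {i | i < m ∧ R i ∈ V} Dg S C K i j → ∃ e ∈ γ, ki e = i ∧ kj e = j
  hom : ∀ e ∈ γ, ∀ k < m, ∀ Q ⊆ Finset.range K, Q.card = 4 → ∀ Q' ⊆ Finset.range K, Q'.card = 4 →
    ∀ a < K, ∀ b < K, ∀ a' < K, ∀ b' < K, qloc Q a = qloc Q' a' → qloc Q b = qloc Q' b' →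
    (a < b ↔ a' < b') → (b < a ↔ b' < a') →
    (S (w e Q) (C k a) (C k b) ↔ S (w e Q') (C k a') (C k b'))
  /-- sides -/
  homA : ∀ e ∈ γ, ∀ k < m, ∀ Q ⊆ Finset.range K, Q.card = 4 → ∀ Q' ⊆ Finset.range K, Q'.card = 4 →
    ∀ a < K, ∀ a' < K, qloc Q a = qloc Q' a' →
    (C k a ∈ Aw (R k) (w e Q) ↔ C k a' ∈ Aw (R k) (w e Q')) ∧
    (C k a ∈ Lv (nd₁ (R k)) (w e Q) ↔ C k a' ∈ Lv (nd₁ (R k)) (w e Q')) ∧
    (C k a ∈ Lv (nd₂ (R k)) (w e Q) ↔ C k a' ∈ Lv (nd₂ (R k)) (w e Q'))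

/-- the rows of the far rungs of a family do not depend on the window -/
def HomFr (fr : α → Bool → β) (m K : ℕ) (R : ℕ → β) (γ : Set ℕ) (w : ℕ → Finset ℕ → α) : Prop :=
  ∀ e ∈ γ, ∀ k < m, ∀ Q ⊆ Finset.range K, Q.card = 4 → ∀ Q' ⊆ Finset.range K, Q'.card = 4 →
    ∀ q, fr (w e Q) q = R k → fr (w e Q') q = R k

/-- a set of four tiles which contains four given ones -/
lemma exists_four {K : ℕ} (hK : 4 ≤ K) {a b a' b' : ℕ} (ha : a < K) (hb : b < K) (ha' : a' < K)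
    (hb' : b' < K) : ∃ Q ⊆ Finset.range K, Q.card = 4 ∧ a ∈ Q ∧ b ∈ Q ∧ a' ∈ Q ∧ b' ∈ Q := by
  classical
  have h1 : ({a, b, a', b'} : Finset ℕ) ⊆ Finset.range K := by
    intro x hx
    simp only [Finset.mem_insert, Finset.mem_singleton] at hx
    rw [Finset.mem_range]
    rcases hx with rfl | rfl | rfl | rfl <;> assumption
  have h2 : ({a, b, a', b'} : Finset ℕ).card ≤ 4 := Finset.card_le_four
  obtain ⟨Q, hQ1, hQ2, hQ3⟩ := Finset.exists_subsuperset_card_eq h1 h2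
    (by rw [Finset.card_range]; exact hK)
  refine ⟨Q, hQ2, hQ3, hQ1 ?_, hQ1 ?_, hQ1 ?_, hQ1 ?_⟩ <;> simp

/-- **Existence of the families.** -/
theorem exists_labFam (m K : ℕ) (hK : 4 ≤ K) : ∃ N : ℕ, ∀ {α : Type u} {β : Type v} {ν : Type w}
    (rw : β → Set α) (V : Set β)
    (nd₁ nd₂ : β → ν) (S : α → α → α → Prop) (Dg Fr On Dt : Set α) (Nr : ν → Set α)
    (Tr : β → Set α) (Tu : ν → Set α) (Lv : ν → α → Set α) (Aw : β → α → Set α)
    (Au : ν → α → Fin 3 → Set α) (B : α → α → α → α → Prop) (lg : ν → Fin 3 → β)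
    (oe : ν → Fin 3 → ν) (fr : α → Bool → β) (r₀ : α → β) (ct : α → ν) (R : ℕ → β)
    (c : ℕ → ℕ → α),
    LabFacts3 rw V nd₁ nd₂ S Dg Fr On Dt Nr Tr Tu Lv Aw Au B lg oe fr r₀ ct →
    (∀ i < m, R i ∈ V → ∀ a < N, c i a ∈ rw (R i)) →
    (∀ i < m, ∀ a < N, ∀ j < m, ∀ b < N, c i a = c j b → i = j ∧ a = b) → Nonempty α →
    ∃ (h : ℕ → ℕ) (γ : Set ℕ) (w : ℕ → Finset ℕ → α) (ki kj kk : ℕ → ℕ), (∀ b < K, h b < N) ∧
      (∀ a b, a < b → b < K → h a < h b) ∧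
      LabFam V nd₁ nd₂ S Dg Fr On Dt Nr Tr Lv Aw ct m K R (fun i b => c i (h b)) γ w ki kj kk ∧
      HomFr fr m K R γ w := by
  classical
  obtain ⟨N, hN⟩ := lab_ram4 (m + m + m + m + m + m) (7 * (m * m)) 0 K
  refine ⟨N, ?_⟩
  intro α β ν rw V nd₁ nd₂ S Dg Fr On Dt Nr Tr Tu Lv Aw Au B lg oe fr r₀ ct R c hF hc hinj hne
  obtain ⟨Kd, hKd⟩ : ∃ Kd : β → ℕ → Set α, Kd = KindS nd₁ nd₂ Fr On Dt Nr Tr ct := ⟨_, rfl⟩
  obtain ⟨Wt, hWt⟩ : ∃ Wt : ℕ → Finset ℕ → α → Prop, Wt = fun e Q d => d ∈ Dg ∧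
    R (e / 7 / m) ∈ V ∧ R (e / 7 % m) ∈ V ∧ d ∈ Kd (R (e / 7 / m)) (e % 7) ∧
    SnQ S c Q d (e / 7 / m) ∧ SnQ S c Q d (e / 7 % m) := ⟨_, rfl⟩
  have Wtv : ∀ e Q d, Wt e Q d ↔ (d ∈ Dg ∧
      R (e / 7 / m) ∈ V ∧ R (e / 7 % m) ∈ V ∧ d ∈ Kd (R (e / 7 / m)) (e % 7) ∧
      SnQ S c Q d (e / 7 / m) ∧ SnQ S c Q d (e / 7 % m)) := fun e Q d => by rw [hWt]
  obtain ⟨Sn, hSn⟩ : ∃ Sn : α → ℕ → ℕ → ℕ → Prop, Sn = fun d k a b =>
    if k < m then S d (c k a) (c k b) else if k < m + m then c (k - m) a ∈ Aw (R (k - m)) d else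
    if k < m + m + m then c (k - m - m) a ∈ Lv (nd₁ (R (k - m - m))) d else
    if k < m + m + m + m then c (k - m - m - m) a ∈ Lv (nd₂ (R (k - m - m - m))) d else
    if k < m + m + m + m + m then fr d false = R (k - m - m - m - m) else
    fr d true = R (k - m - m - m - m - m) := ⟨_, rfl⟩
  have Sn0 : ∀ d a b, ∀ k < m, (Sn d k a b ↔ S d (c k a) (c k b)) := by
    intro d a b k hk
    rw [hSn]
    simp only [if_pos hk]
  have Sn1 : ∀ d a b, ∀ k < m, (Sn d (k + m) a b ↔ c k a ∈ Aw (R k) d) := by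
    intro d a b k hk
    rw [hSn]
    simp only [if_neg (show ¬ k + m < m by omega), if_pos (show k + m < m + m by omega),
      Nat.add_sub_cancel]
  have Sn2 : ∀ d a b, ∀ k < m, (Sn d (k + m + m) a b ↔ c k a ∈ Lv (nd₁ (R k)) d) := by
    intro d a b k hk
    rw [hSn]
    simp only [if_neg (show ¬ k + m + m < m by omega), if_neg (show ¬ k + m + m < m + m by omega),
      if_pos (show k + m + m < m + m + m by omega), Nat.add_sub_cancel]
  have Sn3 : ∀ d a b, ∀ k < m, (Sn d (k + m + m + m) a b ↔ c k a ∈ Lv (nd₂ (R k)) d) := by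
    intro d a b k hk
    rw [hSn]
    simp only [if_neg (show ¬ k + m + m + m < m by omega),
      if_neg (show ¬ k + m + m + m < m + m by omega),
      if_neg (show ¬ k + m + m + m < m + m + m by omega),
      if_pos (show k + m + m + m < m + m + m + m by omega), Nat.add_sub_cancel]
  have Sn4 : ∀ d a b, ∀ k < m, (Sn d (k + m + m + m + m) a b ↔ fr d false = R k) := by
    intro d a b k hk
    rw [hSn]
    simp only [if_neg (show ¬ k + m + m + m + m < m by omega),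
      if_neg (show ¬ k + m + m + m + m < m + m by omega),
      if_neg (show ¬ k + m + m + m + m < m + m + m by omega),
      if_neg (show ¬ k + m + m + m + m < m + m + m + m by omega),
      if_pos (show k + m + m + m + m < m + m + m + m + m by omega), Nat.add_sub_cancel]
  have Sn5 : ∀ d a b, ∀ k < m, (Sn d (k + m + m + m + m + m) a b ↔ fr d true = R k) := by
    intro d a b k hk
    rw [hSn]
    simp only [if_neg (show ¬ k + m + m + m + m + m < m by omega),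
      if_neg (show ¬ k + m + m + m + m + m < m + m by omega),
      if_neg (show ¬ k + m + m + m + m + m < m + m + m by omega),
      if_neg (show ¬ k + m + m + m + m + m < m + m + m + m by omega),
      if_neg (show ¬ k + m + m + m + m + m < m + m + m + m + m by omega), Nat.add_sub_cancel]
  obtain ⟨h, γ, w, h1, h2, -, h4, h5, h6⟩ := hN Wt Sn (fun _ _ => True)
  have memQ : ∀ Q : Finset ℕ, Q ⊆ Finset.range K → ∀ d i, SnQ S c (Q.image h) d i →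
      SnQ S (fun i b => c i (h b)) Q d i := by
    rintro Q hQ d i ⟨a, ha, b, hb, hab, h3⟩
    obtain ⟨a', ha', rfl⟩ := Finset.mem_image.1 ha
    obtain ⟨b', hb', rfl⟩ := Finset.mem_image.1 hb
    exact ⟨a', ha', b', hb', fun h6 => hab (by rw [h6]), h3⟩
  have ran : ∀ e ∈ γ, e < 7 * (m * m) → (e / 7 / m < m ∧ e / 7 % m < m) := by
    intro e he hlt
    have hm : 0 < m := by
      rcases Nat.eq_zero_or_pos m with h7 | h7
      · rw [h7] at hlt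
        simp at hlt
      · exact h7
    have h7 : e / 7 < m * m := Nat.div_lt_of_lt_mul hlt
    exact ⟨Nat.div_lt_of_lt_mul h7, Nat.mod_lt _ hm⟩
  obtain ⟨γ', hγ'⟩ : ∃ γ' : Set ℕ, γ' = {e | e ∈ γ ∧ e < 7 * (m * m)} := ⟨_, rfl⟩
  have memγ : ∀ e, e ∈ γ' ↔ e ∈ γ ∧ e < 7 * (m * m) := fun e => by rw [hγ']; rfl
  have fourK : ∃ Q ⊆ Finset.range K, Q.card = 4 := by
    obtain ⟨Q, hQ, hQ4, -⟩ := exists_four hK (a := 0) (b := 0) (a' := 0) (b' := 0) (by omega)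
      (by omega) (by omega) (by omega)
    exact ⟨Q, hQ, hQ4⟩
  have sym2 : ∀ i j, i < m → j < m → ∀ κ < 7, ((i * m + j) * 7 + κ) / 7 / m = i ∧
      ((i * m + j) * 7 + κ) / 7 % m = j ∧ ((i * m + j) * 7 + κ) % 7 = κ ∧
      (i * m + j) * 7 + κ < 7 * (m * m) := by
    intro i j hi hj κ hκ
    have hm : 0 < m := by omega
    have e1 : ((i * m + j) * 7 + κ) / 7 = i * m + j := by omega
    have e2 : (i * m + j) / m = i := by
      rw [Nat.mul_comm, Nat.mul_add_div hm, Nat.div_eq_of_lt hj, Nat.add_zero]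
    have e3 : (i * m + j) % m = j := by
      rw [Nat.mul_comm, Nat.mul_add_mod, Nat.mod_eq_of_lt hj]
    have e4 : i * m + j < m * m := by
      calc i * m + j < i * m + m := by omega
        _ = (i + 1) * m := by rw [Nat.add_mul, Nat.one_mul]
        _ ≤ m * m := Nat.mul_le_mul_right m hi
    refine ⟨by rw [e1, e2], by rw [e1, e3], by omega, by omega⟩
  refine ⟨h, γ', w, fun e => e / 7 / m, fun e => e / 7 % m, fun e => e % 7, h1, h2,
    ⟨?_, ?_, ?_, ?_, ?_⟩, ?_⟩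
  · intro e he
    obtain ⟨he1, he2⟩ := (memγ e).1 he
    obtain ⟨Q, hQ, hQ4⟩ := fourK
    have h7 := h4 e he2 he1 Q hQ hQ4
    rw [Wtv] at h7
    obtain ⟨-, h8, h9, -⟩ := h7
    obtain ⟨g1, g2⟩ := ran e he1 he2
    exact ⟨he2, ⟨g1, h8⟩, g2, h9⟩
  · intro e he Q hQ hQ4
    obtain ⟨he1, he2⟩ := (memγ e).1 he
    have h7 := h4 e he2 he1 Q hQ hQ4
    rw [Wtv, hKd] at h7
    obtain ⟨g1, -, -, g2, g3, g4⟩ := h7
    exact ⟨g1, g2, memQ Q hQ _ _ g3, memQ Q hQ _ _ g4⟩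
  · rintro i j ⟨⟨⟨hi, hiV⟩, hj, hjV⟩, d, hd, ⟨a, ha, b, hb, hab, hs⟩, a', ha', b', hb', hab', hs'⟩
    obtain ⟨Q, hQ, hQ4, q1, q2, q3, q4⟩ := exists_four hK ha hb ha' hb'
    have hne1 : ∀ a b, a < K → b < K → a ≠ b → h a ≠ h b := by
      intro a b ha hb hab
      rcases Nat.lt_or_gt_of_ne hab with h7 | h7
      · exact (h2 a b h7 hb).ne
      · exact (h2 b a h7 ha).ne'
    have see : ∀ k, k < m → R k ∈ V → ∀ a < K, ∀ b < K, a ≠ b → S d (c k (h a)) (c k (h b)) →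
        SeeR rw S d (R k) := by
      intro k hk hkV a ha b hb hab hs
      refine ⟨_, hc k hk hkV _ (h1 a ha), _, hc k hk hkV _ (h1 b hb), ?_, hs⟩
      intro h7
      exact hne1 a b ha hb hab (hinj k hk _ (h1 a ha) k hk _ (h1 b hb) h7).2
    have hsi := see i hi hiV a ha b hb hab hs
    have hsj := see j hj hjV a' ha' b' hb' hab' hs'
    have hk : ∃ κ < 7, d ∈ Kd (R i) κ := by
      have kv : ∀ κ, d ∈ Kd (R i) κ ↔ ((κ = 0 ∧ d ∈ Fr) ∨ (κ = 1 ∧ d ∈ Nr (nd₁ (R i))) ∨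
          (κ = 2 ∧ d ∈ Nr (nd₂ (R i))) ∨ (κ = 3 ∧ d ∈ Tr (R i)) ∨ (κ = 4 ∧ d ∈ On) ∨
          (κ = 5 ∧ d ∈ Dt ∧ ct d = nd₁ (R i)) ∨ (κ = 6 ∧ d ∈ Dt ∧ ct d = nd₂ (R i))) :=
        fun κ => by rw [hKd]; rfl
      rcases hF.kind d hd (R i) hiV hsi with h7 | ⟨u, h7⟩ | h7 | h7 | h7
      · exact ⟨0, by omega, by rw [kv]; exact Or.inl ⟨rfl, h7⟩⟩
      · rcases hF.near_see u d h7 (R i) hiV hsi with h8 | h8
        · exact ⟨1, by omega, by rw [kv, h8]; exact Or.inr (Or.inl ⟨rfl, h7⟩)⟩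
        · exact ⟨2, by omega, by rw [kv, h8]; exact Or.inr (Or.inr (Or.inl ⟨rfl, h7⟩))⟩
      · exact ⟨3, by omega, by rw [kv]; exact Or.inr (Or.inr (Or.inr (Or.inl ⟨rfl, h7⟩)))⟩
      · exact ⟨4, by omega, by
          rw [kv]; exact Or.inr (Or.inr (Or.inr (Or.inr (Or.inl ⟨rfl, h7⟩))))⟩
      · have h8 := hF.one_see d (Or.inr h7) (R i) hiV hsi
        have h9 := hF.dt_at d h7 (by rw [← h8]; exact hiV)
        rw [← h8] at h9
        rcases h9 with h9 | h9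
        · exact ⟨5, by omega, by
            rw [kv]; exact Or.inr (Or.inr (Or.inr (Or.inr (Or.inr (Or.inl ⟨rfl, h7, h9.symm⟩)))))⟩
        · exact ⟨6, by omega, by
            rw [kv]; exact Or.inr (Or.inr (Or.inr (Or.inr (Or.inr (Or.inr ⟨rfl, h7, h9.symm⟩)))))⟩
    obtain ⟨κ, hκ, hdκ⟩ := hk
    obtain ⟨e1, e2, e3, e4⟩ := sym2 i j hi hj κ hκ
    refine ⟨(i * m + j) * 7 + κ, (memγ _).2 ⟨?_, e4⟩, e1, e2⟩
    by_contra hcon
    refine h5 _ e4 hcon Q hQ hQ4 d ?_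
    rw [Wtv, e1, e2, e3]
    exact ⟨hd, hiV, hjV, hdκ, ⟨h a, Finset.mem_image_of_mem h q1, h b, Finset.mem_image_of_mem h q2,
      hne1 a b ha hb hab, hs⟩, h a', Finset.mem_image_of_mem h q3, h b',
      Finset.mem_image_of_mem h q4, hne1 a' b' ha' hb' hab', hs'⟩
  · intro e he k hk Q hQ hQ4 Q' hQ' hQ4' a ha b hb a' ha' b' hb' q1 q2 q3 q4
    obtain ⟨he1, he2⟩ := (memγ e).1 he
    have h7 := h6 e he2 k (by omega) Q hQ hQ4 Q' hQ' hQ4' a ha b hb a' ha' b' hb' q1 q2 q3 q4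
    rw [Sn0 _ _ _ k hk, Sn0 _ _ _ k hk] at h7
    exact h7
  · intro e he k hk Q hQ hQ4 Q' hQ' hQ4' a ha a' ha' q1
    obtain ⟨he1, he2⟩ := (memγ e).1 he
    have h7 := h6 e he2 (k + m) (by omega) Q hQ hQ4 Q' hQ' hQ4' a ha a ha a' ha' a' ha' q1 q1
      (by omega) (by omega)
    have h8 := h6 e he2 (k + m + m) (by omega) Q hQ hQ4 Q' hQ' hQ4' a ha a ha a' ha' a' ha' q1 q1
      (by omega) (by omega)
    have h9 := h6 e he2 (k + m + m + m) (by omega) Q hQ hQ4 Q' hQ' hQ4' a ha a ha a' ha' a' ha' q1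
      q1 (by omega) (by omega)
    rw [Sn1 _ _ _ k hk, Sn1 _ _ _ k hk] at h7
    rw [Sn2 _ _ _ k hk, Sn2 _ _ _ k hk] at h8
    rw [Sn3 _ _ _ k hk, Sn3 _ _ _ k hk] at h9
    exact ⟨h7, h8, h9⟩
  · intro e he k hk Q hQ hQ4 Q' hQ' hQ4' q hq
    obtain ⟨he1, he2⟩ := (memγ e).1 he
    obtain ⟨t, ht⟩ : ∃ t, t ∈ Q := Finset.card_pos.1 (by omega)
    obtain ⟨i, hi⟩ : ∃ i : Fin 4, Q.orderEmbOfFin hQ4 i = t := by
      have h7 : t ∈ Set.range (Q.orderEmbOfFin hQ4) := by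
        rw [Finset.range_orderEmbOfFin]
        exact ht
      exact h7
    have htK := Finset.mem_range.1 (hQ ht)
    obtain ⟨t', ht'⟩ : ∃ t', t' = Q'.orderEmbOfFin hQ4' i := ⟨_, rfl⟩
    have htQ' : t' ∈ Q' := by
      rw [ht']
      exact Finset.orderEmbOfFin_mem _ _ _
    have htK' := Finset.mem_range.1 (hQ' htQ')
    have hloc : qloc Q t = qloc Q' t' := by
      have a1 := qloc_iff hQ4 t i
      have a2 := qloc_iff hQ4' t' i
      rw [hi] at a1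
      rw [← ht'] at a2
      have b1 : ¬ 2 * i.val + 1 < qloc Q t := fun h => lt_irrefl _ (a1.1.2 h)
      have b2 : ¬ qloc Q t < 2 * i.val + 1 := fun h => lt_irrefl _ (a1.2.2 h)
      have b3 : ¬ 2 * i.val + 1 < qloc Q' t' := fun h => lt_irrefl _ (a2.1.2 h)
      have b4 : ¬ qloc Q' t' < 2 * i.val + 1 := fun h => lt_irrefl _ (a2.2.2 h)
      omega
    have g4 := h6 e he2 (k + m + m + m + m) (by omega) Q hQ hQ4 Q' hQ' hQ4' t htK t htK t' htK' t'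
      htK' hloc hloc (by omega) (by omega)
    have g5 := h6 e he2 (k + m + m + m + m + m) (by omega) Q hQ hQ4 Q' hQ' hQ4' t htK t htK t' htK'
      t' htK' hloc hloc (by omega) (by omega)
    rw [Sn4 _ _ _ k hk, Sn4 _ _ _ k hk] at g4
    rw [Sn5 _ _ _ k hk, Sn5 _ _ _ k hk] at g5
    cases q
    · exact g4.1 hq
    · exact g5.1 hq

end

end TST
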