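import Pool.Agent.TST.Classes
import Pool.Agent.TST.LabDef

/-!
# The frame of the label level (helper88)

`LayOut`: what the layers give for the families after Ramsey.  `labFrame`: the output of the label level
from it, with own places for the chosen rungs.  The facts of a rung with its places are an arbitrary
predicate `RgF`.
-/

set_option autoImplicit false

open Set

namespace TST

universe u v w

/-- `d` separates two of the tiles `a`, `b < K` of the label `i` -/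
def SnK {α : Type u} (S : α → α → α → Prop) (C : ℕ → ℕ → α) (K : ℕ) (d : α) (i : ℕ) : Prop :=
  ∃ a < K, ∃ b < K, a ≠ b ∧ S d (C i a) (C i b)

/-- the graph on the labels: one good element separates tiles of both -/
def AdjK {α : Type u} (Lb : Set ℕ) (Dg : Set α) (S : α → α → α → Prop) (C : ℕ → ℕ → α) (K : ℕ)
    (i j : ℕ) : Prop := (i ∈ Lb ∧ j ∈ Lb) ∧ ∃ d ∈ Dg, SnK S C K d i ∧ SnK S C K d j

/-- two labels which are split by one family for all windows -/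
def EdgK {α : Type u} (Lb : Set ℕ) (S : α → α → α → Prop) (C : ℕ → ℕ → α) (K g : ℕ) (γ : Set ℕ)
    (w : ℕ → ℕ → α) (i j : ℕ) : Prop := (i ∈ Lb ∧ j ∈ Lb) ∧ ∃ e ∈ γ, ∀ x, g ≤ x →
  x + 3 + g < K → ∀ a b, g ≤ a → a < x → x + 3 < b → b + g < K →
    S (w e x) (C i a) (C i b) ∧ S (w e x) (C j a) (C j b)

/-- **Interface between the layers and the label level.**  `C i b` = conflict of the label `i` in the
chosen tile `b < K`; families `e < E₁` in `γ` with the members `w e x` for the windows `x`, `x + 1`,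
`x + 2`, `x + 3` of tiles with `g ≤ x` and `x + 3 + g < K`; the member `w e x` has the places `P e q x` on the
rows `ρ e q`.  `Cut` = the labels of the classes which are not private. -/
structure LayOut {α : Type u} {β : Type v} {ν : Type w} (V : Set β) (nd₁ nd₂ : β → ν)
    (S : α → α → α → Prop) (Dg : Set α) (RgF : α → (Bool → β) → (Bool → Set α) → Prop)
    (m K E₁ g : ℕ) (R : ℕ → β) (C : ℕ → ℕ → α) (γ : Set ℕ) (w : ℕ → ℕ → α) (ρ : ℕ → Bool → β)
    (P : ℕ → Bool → ℕ → Set α) (Cut : Set ℕ) : Prop where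
  lt : ∀ e ∈ γ, e < E₁
  /-- (F1) facts of one member with its places -/
  fac : ∀ e ∈ γ, ∀ x, g ≤ x → x + 3 + g < K → RgF (w e x) (ρ e) (fun q => P e q x)
  /-- (F2) places on one row are nested -/
  nest : ∀ e ∈ γ, ∀ e' ∈ γ, ∀ x x', g ≤ x → x + 3 + g < K → g ≤ x' → x' + 3 + g < K →
    (x + 8 ≤ x' ∨ x' + 8 ≤ x ∨ (e = e' ∧ x = x')) → ∀ q q', ρ e q = ρ e' q' →
      P e q x ⊆ P e' q' x' ∨ P e' q' x' ⊆ P e q x
  /-- (F3) -/
  cut : ∀ i j, AdjK {i | i < m ∧ R i ∈ V} Dg S C K i j → (i ∈ Cut ↔ j ∈ Cut)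
  edge : ∀ i j, AdjK {i | i < m ∧ R i ∈ V} Dg S C K i j → i ∈ Cut →
    Relation.ReflTransGen (EdgK {i | i < m ∧ R i ∈ V} S C K g γ w) i j
  /-- (F4) the other classes live at two vertices -/
  priv : ∀ i < m, R i ∈ V → i ∉ Cut → ∃ v v' : ν, ∀ j,
    Relation.ReflTransGen (AdjK {i | i < m ∧ R i ∈ V} Dg S C K) i j →
      At nd₁ nd₂ (R j) v ∨ At nd₁ nd₂ (R j) v'

/-- **The frame of the label level.**  `h` = choice of `K` tiles, `K ≥ 2 g + 1 + n (8 E₁ + 8) + 3`. -/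
theorem labFrame {α : Type u} {β : Type v} {ν : Type w} {V : Set β} {nd₁ nd₂ : β → ν}
    {S : α → α → α → Prop} {Dg : Set α} {RgF : α → (Bool → β) → (Bool → Set α) → Prop}
    {m N K E₁ g n : ℕ} {R : ℕ → β} {c : ℕ → ℕ → α} {h : ℕ → ℕ} {γ : Set ℕ} {w : ℕ → ℕ → α}
    {ρ : ℕ → Bool → β} {P : ℕ → Bool → ℕ → Set α} {Cut : Set ℕ}
    (hRD : ∀ t pr pa, RgF t pr pa → t ∈ Dg) (hK : 2 * g + 4 + n * (8 * E₁ + 8) ≤ K) (hh : ∀ a b, a < b → b < K → h a < h b)
    (hN : ∀ b < K, h b < N)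
    (hO : LayOut V nd₁ nd₂ S Dg RgF m K E₁ g R (fun i b => c i (h b)) γ w ρ P Cut) :
    ∃ (κ : ℕ → ℕ) (T : Set α) (pr : α → Bool → β) (pa : α → Bool → Set α) (kc : ℕ) (cls : ℕ → ℕ)
      (pv : Set ℕ), (∀ b < n, ∃ b' < K, κ b = h b') ∧ (∀ t ∈ T, RgF t (pr t) (pa t)) ∧
      LabOut V nd₁ nd₂ S Dg T pr pa m n N R c κ T kc cls pv := by
  classical
  obtain ⟨Lb, hLb⟩ : ∃ Lb : Set ℕ, Lb = {i | i < m ∧ R i ∈ V} := ⟨_, rfl⟩
  have memL : ∀ i, i ∈ Lb ↔ i < m ∧ R i ∈ V := fun i => by rw [hLb]; rfl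
  obtain ⟨B, hB⟩ : ∃ B, B = 8 * E₁ + 8 := ⟨_, rfl⟩
  rw [← hB] at hK
  -- the tiles
  obtain ⟨f, hf⟩ : ∃ f : ℕ → ℕ, f = fun b => g + B * b := ⟨_, rfl⟩
  have fval : ∀ b, f b = g + B * b := fun b => by rw [hf]
  have fsucc : ∀ a b, a < b → f a + B ≤ f b := by
    intro a b hab
    rw [fval, fval]
    have h1 := Nat.mul_le_mul_left B (Nat.succ_le_of_lt hab)
    rw [Nat.succ_eq_add_one, Nat.mul_add, Nat.mul_one] at h1
    omega
  have fK : ∀ b < n, f b + B + g + 4 ≤ K := by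
    intro b hb
    have h1 := fsucc b n hb
    rw [fval n, Nat.mul_comm B n] at h1
    omega
  -- the windows
  obtain ⟨X, hX⟩ : ∃ X : ℕ → ℕ → ℕ, X = fun e a => f a + 1 + 8 * e := ⟨_, rfl⟩
  have Xv : ∀ e a, X e a = f a + 1 + 8 * e := fun e a => by rw [hX]
  have Xg : ∀ e ∈ γ, ∀ a < n, g ≤ X e a ∧ X e a + 3 + g < K ∧ f a < X e a ∧ X e a + 3 < f a + B := by
    intro e he a ha
    have h1 := hO.lt e he
    have h2 := fK a ha
    have h3 := fval a
    rw [Xv]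
    omega
  obtain ⟨T, hT⟩ : ∃ T : Set α, T = {t | ∃ e ∈ γ, ∃ a < n, t = w e (X e a)} := ⟨_, rfl⟩
  have memT : ∀ t, t ∈ T ↔ ∃ e ∈ γ, ∃ a < n, t = w e (X e a) := by
    intro t
    rw [hT]
    rfl
  have hTD : ∀ t ∈ T, t ∈ Dg := by
    intro t ht
    obtain ⟨e, he, a, ha, rfl⟩ := (memT t).1 ht
    obtain ⟨g1, g2, -⟩ := Xg e he a ha
    exact hRD _ _ _ (hO.fac e he _ g1 g2)
  -- the places of a rung
  have hrep : ∀ t, ∃ q : ℕ × ℕ, t ∈ T → q.1 ∈ γ ∧ q.2 < n ∧ t = w q.1 (X q.1 q.2) := by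
    intro t
    by_cases ht : t ∈ T
    · obtain ⟨e, he, a, ha, h1⟩ := (memT t).1 ht
      exact ⟨(e, a), fun _ => ⟨he, ha, h1⟩⟩
    · exact ⟨(0, 0), fun h1 => absurd h1 ht⟩
  choose rp hrp using hrep
  obtain ⟨Adj, hAdj⟩ : ∃ Adj : ℕ → ℕ → Prop,
      Adj = AdjK Lb Dg S (fun i b => c i (h (f b))) n := ⟨_, rfl⟩
  have fin : ∀ a < n, f a < K := fun a ha => by
    have := fK a ha
    omega
  have AdjT : ∀ i j, Adj i j → AdjK {i | i < m ∧ R i ∈ V} Dg S (fun i b => c i (h b)) K i j := by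
    intro i j hij
    rw [hAdj] at hij
    obtain ⟨h1, d, hd, ⟨a, ha, b, hb, hab, h2⟩, a', ha', b', hb', hab', h3⟩ := hij
    have fne : ∀ a b, a ≠ b → f a ≠ f b := by
      intro a b hab
      have hBp : 0 < B := by omega
      rw [fval, fval]
      intro h4
      exact hab (Nat.eq_of_mul_eq_mul_left hBp (Nat.add_left_cancel h4))
    rw [← hLb]
    exact ⟨h1, d, hd, ⟨f a, fin a ha, f b, fin b hb, fne a b hab, h2⟩,
      f a', fin a' ha', f b', fin b' hb', fne a' b' hab', h3⟩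
  have Adjs : ∀ i j, Adj i j → Adj j i := by
    intro i j hij
    rw [hAdj] at hij ⊢
    obtain ⟨⟨h1, h2⟩, d, hd, h3, h4⟩ := hij
    exact ⟨⟨h2, h1⟩, d, hd, h4, h3⟩
  obtain ⟨kc, cls, hk1, hk2, hk3⟩ := exists_classes (m := m) (Lb := Lb)
    (fun i hi => ((memL i).1 hi).1) Adjs
  have cutT : ∀ i j, Relation.ReflTransGen Adj i j → (i ∈ Cut ↔ j ∈ Cut) := by
    intro i j hij
    induction hij with
    | refl => exact Iff.rfl
    | tail _ h5 ih => exact ih.trans (hO.cut _ _ (AdjT _ _ h5))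
  refine ⟨fun b => h (f b), T, fun t => ρ (rp t).1, fun t q => P (rp t).1 q (X (rp t).1 (rp t).2),
    kc, cls, {k | ∃ i ∈ Lb, i ∉ Cut ∧ cls i = k}, ?_, ?_, ?_⟩
  · intro b hb
    exact ⟨f b, fin b hb, rfl⟩
  · intro t ht
    obtain ⟨h1, h2, h3⟩ := hrp t ht
    obtain ⟨g1, g2, -⟩ := Xg _ h1 _ h2
    have h4 := hO.fac _ h1 _ g1 g2
    rw [← h3] at h4
    exact h4
  refine ⟨?_, ?_, Subset.rfl, ?_, ?_, ?_, ?_, ?_, ?_⟩
  · -- mono
    intro a b hab hb
    have h4 := fsucc a b hab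
    exact hh _ _ (by omega) (fin b hb)
  · -- lt
    intro b hb
    exact hN _ (fin b hb)
  · -- chn
    intro t ht t' ht' i j hij
    obtain ⟨h1, h2, h3⟩ := hrp t ht
    obtain ⟨h1', h2', h3'⟩ := hrp t' ht'
    obtain ⟨g1, g2, g3, g4⟩ := Xg _ h1 _ h2
    obtain ⟨g1', g2', g3', g4'⟩ := Xg _ h1' _ h2'
    refine hO.nest _ h1 _ h1' _ _ g1 g2 g1' g2' ?_ i j hij
    rcases Nat.lt_trichotomy (rp t).2 (rp t').2 with h4 | h4 | h4
    · have h5 := fsucc _ _ h4
      have e1 := Xv (rp t).1 (rp t).2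
      have e2 := Xv (rp t').1 (rp t').2
      have e3 := hO.lt _ h1
      left
      omega
    · rcases Nat.lt_trichotomy (rp t).1 (rp t').1 with h5 | h5 | h5
      · left
        rw [Xv, Xv, h4]
        omega
      · right; right
        exact ⟨h5, by rw [h4, h5]⟩
      · right; left
        rw [Xv, Xv, h4]
        omega
    · have h5 := fsucc _ _ h4
      have e1 := Xv (rp t).1 (rp t).2
      have e2 := Xv (rp t').1 (rp t').2
      have e3 := hO.lt _ h1'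
      right; left
      omega
  · -- cls_lt
    intro i hi hV
    exact hk1 i ((memL i).2 ⟨hi, hV⟩)
  · -- sur
    intro k hk
    obtain ⟨i, hi, hik⟩ := hk2 k hk
    exact ⟨i, ((memL i).1 hi).1, ((memL i).1 hi).2, hik⟩
  · -- see
    intro d hd i hi j hj hiV hjV hsi hsj
    refine (hk3 i ((memL i).2 ⟨hi, hiV⟩) j ((memL j).2 ⟨hj, hjV⟩)).2
      (Relation.ReflTransGen.single ?_)
    rw [hAdj]
    exact ⟨⟨(memL i).2 ⟨hi, hiV⟩, (memL j).2 ⟨hj, hjV⟩⟩, d, hd, hsi, hsj⟩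
  · -- priv
    rintro k ⟨i, hi, hiC, rfl⟩
    obtain ⟨v, v', h1⟩ := hO.priv i ((memL i).1 hi).1 ((memL i).1 hi).2 hiC
    refine ⟨v, v', fun j hj hjV hij => h1 j ?_⟩
    have h2 := (hk3 i hi j ((memL j).2 ⟨hj, hjV⟩)).1 hij.symm
    exact Relation.ReflTransGen.mono AdjT _ _ h2
  · -- conn
    intro i hi j hj hiV hjV hij hpv
    have hiL : i ∈ Lb := (memL i).2 ⟨hi, hiV⟩
    have hjL : j ∈ Lb := (memL j).2 ⟨hj, hjV⟩
    have hiC : i ∈ Cut := by
      by_contra hcon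
      exact hpv ⟨i, hiL, hcon, rfl⟩
    have hC := (hk3 i hiL j hjL).1 hij
    clear hij hj hjV hjL
    induction hC with
    | refl => exact Relation.ReflTransGen.refl
    | @tail y z h5 h6 ih =>
      have h7 : y ∈ Lb ∧ z ∈ Lb := by
        have h8 := h6
        rw [hAdj] at h8
        exact h8.1
      have hyC : y ∈ Cut := (cutT i y h5).1 hiC
      have h9 := hO.edge y z (AdjT y z h6) hyC
      have hn : 2 ≤ n := by
        have h10 := h6
        rw [hAdj] at h10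
        obtain ⟨-, d, -, ⟨a, ha, b, hb, hab, -⟩, -⟩ := h10
        omega
      have hpath : ∀ z', Relation.ReflTransGen
          (EdgK {i | i < m ∧ R i ∈ V} S (fun i b => c i (h b)) K g γ w) y z' →
          Relation.ReflTransGen (fun x y => (x < m ∧ R x ∈ V) ∧ (y < m ∧ R y ∈ V) ∧ cls x = cls y ∧
            ∀ a b, a < b → b < n → ∃ t ∈ T, S t (c x (h (f a))) (c x (h (f b))) ∧
              S t (c y (h (f a))) (c y (h (f b)))) i z' := by
        intro z' hz'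
        induction hz' with
        | refl => exact ih
        | @tail y' z' _ h10 ih' =>
          obtain ⟨⟨k1, k2⟩, e, he, hs⟩ := h10
          have key : ∀ a b, a < b → b < n → ∃ t ∈ T, S t (c y' (h (f a))) (c y' (h (f b))) ∧
              S t (c z' (h (f a))) (c z' (h (f b))) := by
            intro a b hab hb
            have ha : a < n := by omega
            obtain ⟨g1, g2, g3, g4⟩ := Xg e he a ha
            have hfab := fsucc a b hab
            have hfb := fK b hb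
            have hfa := fval a
            exact ⟨w e (X e a), (memT _).2 ⟨e, he, a, ha, rfl⟩,
              hs _ g1 g2 (f a) (f b) (by omega) g3 (by omega) (by omega)⟩
          refine ih'.tail ⟨k1, k2, ?_, key⟩
          refine (hk3 y' ((memL y').2 k1) z' ((memL z').2 k2)).2 (Relation.ReflTransGen.single ?_)
          obtain ⟨t, ht, k3, k4⟩ := key 0 1 (by omega) (by omega)
          rw [hAdj]
          exact ⟨⟨(memL y').2 k1, (memL z').2 k2⟩, t, hTD t ht, ⟨0, by omega, 1, by omega,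
            by omega, k3⟩, 0, by omega, 1, by omega, by omega, k4⟩
      exact hpath z h9

/-- `LayOut` for the labels whose class does not live at two vertices: `Cut₀` = the cut labels of the
maximal list. -/
theorem layOut_of {α : Type u} {β : Type v} {ν : Type w} {V : Set β} {nd₁ nd₂ : β → ν}
    {S : α → α → α → Prop} {Dg : Set α} {RgF : α → (Bool → β) → (Bool → Set α) → Prop}
    {m K E₁ g : ℕ} {R : ℕ → β} {C : ℕ → ℕ → α} {γ : Set ℕ} {w : ℕ → ℕ → α}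
    {ρ : ℕ → Bool → β} {P : ℕ → Bool → ℕ → Set α} {Cut₀ : Set ℕ} (hlt : ∀ e ∈ γ, e < E₁)
    (hmax : ∀ i, (∀ j, Relation.ReflTransGen (AdjK {i | i < m ∧ R i ∈ V} Dg S C K) i j → j ∈ Cut₀) ∨
      ∃ v v' : ν, ∀ j, Relation.ReflTransGen (AdjK {i | i < m ∧ R i ∈ V} Dg S C K) i j →
        At nd₁ nd₂ (R j) v ∨ At nd₁ nd₂ (R j) v')
    (fac : ∀ e ∈ γ, ∀ x, g ≤ x → x + 3 + g < K → RgF (w e x) (ρ e) (fun q => P e q x))
    (nest : ∀ e ∈ γ, ∀ e' ∈ γ, ∀ x x', g ≤ x → x + 3 + g < K → g ≤ x' → x' + 3 + g < K →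
      (x + 8 ≤ x' ∨ x' + 8 ≤ x ∨ (e = e' ∧ x = x')) → ∀ q q', ρ e q = ρ e' q' →
        P e q x ⊆ P e' q' x' ∨ P e' q' x' ⊆ P e q x)
    (edge : ∀ i j, AdjK {i | i < m ∧ R i ∈ V} Dg S C K i j →
      (∀ k, Relation.ReflTransGen (AdjK {i | i < m ∧ R i ∈ V} Dg S C K) i k → k ∈ Cut₀) →
      (¬ ∃ v v' : ν, ∀ k, Relation.ReflTransGen (AdjK {i | i < m ∧ R i ∈ V} Dg S C K) i k →
        At nd₁ nd₂ (R k) v ∨ At nd₁ nd₂ (R k) v') →
      Relation.ReflTransGen (EdgK {i | i < m ∧ R i ∈ V} S C K g γ w) i j) :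
    LayOut V nd₁ nd₂ S Dg RgF m K E₁ g R C γ w ρ P
      {i | ¬ ∃ v v' : ν, ∀ j, Relation.ReflTransGen (AdjK {i | i < m ∧ R i ∈ V} Dg S C K) i j →
        At nd₁ nd₂ (R j) v ∨ At nd₁ nd₂ (R j) v'} := by
  obtain ⟨Adj, hAdj⟩ : ∃ Adj, Adj = AdjK {i | i < m ∧ R i ∈ V} Dg S C K := ⟨_, rfl⟩
  rw [← hAdj] at hmax edge ⊢
  have hs : ∀ i j, Adj i j → Adj j i := by
    intro i j hij
    rw [hAdj] at hij ⊢
    obtain ⟨⟨h1, h2⟩, d, hd, h3, h4⟩ := hij
    exact ⟨⟨h2, h1⟩, d, hd, h4, h3⟩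
  refine ⟨hlt, fac, nest, ?_, ?_, ?_⟩
  · intro i j hij
    rw [← hAdj] at hij
    refine not_congr ⟨?_, ?_⟩
    · rintro ⟨v, v', h⟩
      exact ⟨v, v', fun k hk => h k (Relation.ReflTransGen.head hij hk)⟩
    · rintro ⟨v, v', h⟩
      exact ⟨v, v', fun k hk => h k (Relation.ReflTransGen.head (hs i j hij) hk)⟩
  · intro i j hij hi
    rw [← hAdj] at hij
    rcases hmax i with h | h
    · exact edge i j hij h hi
    · exact absurd h hi
  · intro i hi hV hiC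
    have h1 := not_not.1 hiC
    rw [hAdj] at h1
    exact h1

end TST
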