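import Pool.Agent.TST.LabelRung

/-!
# LABEL LEVEL of CLAIM A (T-star), theorem `labelStmt : LabelStmt` (helper45)
-/

open Set

namespace TST

universe u v w

lemma bool_ne {p p' : Bool} (h : ¬ p = p') : p' = !p := by
  cases p <;> cases p' <;> simp_all

lemma pl_sur (s i : Bool) : ∃ q, pl s q = i := by
  cases s <;> cases i
  · exact ⟨false, rfl⟩
  · exact ⟨true, rfl⟩
  · exact ⟨true, rfl⟩
  · exact ⟨false, rfl⟩

/-- **Step (5).**  If a label of a class is seen by a near-local element, then the class lives in two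
stars. -/
lemma LabFacts.two_stars {α : Type u} {β : Type v} {ν : Type w} {rw' : β → Set α} {V : Set β}
    {nd₁ nd₂ : β → ν} {S : α → α → α → Prop} {Dg Rg On Lo NL Dt : Set α} {pr : α → Bool → β}
    {pa : α → Bool → Set α} {r₀ : α → β} {A₀ : α → Set α} {rl : α → β} {vl ct : α → ν}
    {Core : ν → Set α} (hG : LabFacts rw' V nd₁ nd₂ S Dg Rg On Lo NL Dt pr pa r₀ A₀ rl vl ct Core)
    {K : ℕ} {Lb : Set ℕ} {R : ℕ → β} {C : ℕ → ℕ → α} {Sn : α → ℕ → Prop} {Adj : ℕ → ℕ → Prop}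
    (hV : ∀ l ∈ Lb, R l ∈ V) (hC : ∀ l ∈ Lb, ∀ b < K, C l b ∈ rw' (R l))
    (col : ∀ l ∈ Lb, ∀ v, At nd₁ nd₂ (R l) v → (∃ b < K, C l b ∈ Core v) → ∀ b < K, C l b ∈ Core v)
    (hSn : ∀ l ∈ Lb, ∀ d, Sn d l → ∃ a < K, ∃ b < K, C l a ≠ C l b ∧ S d (C l a) (C l b))
    (hA : ∀ i j, Adj i j ↔ (i ∈ Lb ∧ j ∈ Lb) ∧ ∃ d ∈ Dg, Sn d i ∧ Sn d j)
    {i₀ : ℕ} (hi₀ : i₀ ∈ Lb) {d₀ : α} (hd₀ : d₀ ∈ NL) (hs₀ : Sn d₀ i₀) :
    ∃ v v' : ν, ∀ y, Relation.ReflTransGen Adj i₀ y → At nd₁ nd₂ (R y) v ∨ At nd₁ nd₂ (R y) v' := by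
  classical
  -- labels seen by an element which is local at `v`
  have loc : ∀ d v, LocAt rw' V nd₁ nd₂ S Core d v → ∀ l ∈ Lb, Sn d l →
      At nd₁ nd₂ (R l) v ∧ ∀ b < K, C l b ∈ Core v := by
    intro d v hd l hl hs
    obtain ⟨a, ha, b, hb, hab, hS⟩ := hSn l hl d hs
    obtain ⟨k1, k2⟩ := hd (R l) (hV l hl) _ (hC l hl a ha) _ (hC l hl b hb) hab hS
    refine ⟨k1, col l hl v k1 ?_⟩
    rcases k2 with k2 | k2
    · exact ⟨a, ha, k2⟩
    · exact ⟨b, hb, k2⟩
  -- general rule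
  have rule : ∀ v, ∀ l ∈ Lb, At nd₁ nd₂ (R l) v → (∀ b < K, C l b ∈ Core v) → ∀ d ∈ Dg, Sn d l →
      LocAt rw' V nd₁ nd₂ S Core d v ∨ (d ∈ Dt ∧ r₀ d = R l ∧ ct d ≠ v) := by
    intro v l hl hat hin d hd hs
    obtain ⟨a, ha, b, hb, hab, hS⟩ := hSn l hl d hs
    exact hG.core v d hd (R l) (hV l hl) hat _ (hC l hl a ha) _ (hC l hl b hb) (hin a ha) (hin b hb)
      hab hS
  -- degenerate tripods see one row
  have tri : ∀ d ∈ Dt, ∀ l ∈ Lb, Sn d l → R l = r₀ d := by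
    intro d hd l hl hs
    obtain ⟨a, ha, b, hb, hab, hS⟩ := hSn l hl d hs
    exact (hG.one d (hG.tri_on hd) (R l) (hV l hl) _ (hC l hl a ha) _ (hC l hl b hb) hab hS).1
  obtain ⟨u₀, hu₀⟩ : ∃ u₀, u₀ = vl d₀ := ⟨_, rfl⟩
  have hbase := loc d₀ u₀ (by rw [hu₀]; exact hG.nl d₀ hd₀) i₀ hi₀ hs₀
  obtain ⟨St, hSt⟩ : ∃ St : ℕ → ℕ → Prop, ∀ i j, St i j ↔ (i ∈ Lb ∧ j ∈ Lb) ∧
      ∃ d ∈ Dg, LocAt rw' V nd₁ nd₂ S Core d u₀ ∧ Sn d i ∧ Sn d j := ⟨_, fun _ _ => Iff.rfl⟩
  have hReach : ∀ k, Relation.ReflTransGen St i₀ k →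
      k ∈ Lb ∧ At nd₁ nd₂ (R k) u₀ ∧ ∀ b < K, C k b ∈ Core u₀ := by
    intro k hk
    induction hk with
    | refl => exact ⟨hi₀, hbase⟩
    | tail _ h5 _ =>
      rw [hSt] at h5
      obtain ⟨⟨_, h6⟩, d, _, h7, _, h8⟩ := h5
      exact ⟨h6, loc d u₀ h7 _ h6 h8⟩
  by_cases hcase : ∃ k, Relation.ReflTransGen St i₀ k ∧ ∃ d ∈ Dt, ct d ≠ u₀ ∧ Sn d k
  · -- Case 2
    obtain ⟨k, hk, d₂, hd₂, hct, hs₂⟩ := hcase
    obtain ⟨hkL, hku, hkc⟩ := hReach k hk
    have hrk := tri d₂ hd₂ k hkL hs₂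
    obtain ⟨hkv, hkcv⟩ := loc d₂ (ct d₂) (hG.tri_loc d₂ hd₂) k hkL hs₂
    obtain ⟨v₀, hv₀⟩ : ∃ v₀, v₀ = ct d₂ := ⟨_, rfl⟩
    obtain ⟨r, hr⟩ : ∃ r, r = R k := ⟨_, rfl⟩
    rw [← hv₀] at hkv hkcv hct
    rw [← hr] at hku hkv
    have hrV : r ∈ V := by rw [hr]; exact hV k hkL
    -- the label `i₀` is not on `r` and in the core of `v₀`
    have hi₀n : ¬ (R i₀ = r ∧ ∀ b < K, C i₀ b ∈ Core v₀) := by
      rintro ⟨e1, e2⟩
      obtain ⟨a, ha, b, hb, hab, hS⟩ := hSn i₀ hi₀ d₀ hs₀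
      refine hG.nlw d₀ hd₀ (R i₀) (hV i₀ hi₀) ?_ v₀ ?_ ?_ _ (hC i₀ hi₀ a ha) _ (hC i₀ hi₀ b hb)
        (e2 a ha) (e2 b hb) hab hS
      · rw [← hu₀]
        exact hbase.1
      · rw [← hu₀]
        exact hct
      · rw [e1]
        exact hkv
    -- the step into `r` and the core of `v₀`
    have hstep : ∃ k1 k2, (k1 ∈ Lb ∧ ¬ (R k1 = r ∧ ∀ b < K, C k1 b ∈ Core v₀)) ∧
        (R k2 = r ∧ ∀ b < K, C k2 b ∈ Core v₀) ∧ St k1 k2 := by
      by_contra hcon
      push Not at hcon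
      have hall : ∀ y, Relation.ReflTransGen St i₀ y →
          y ∈ Lb ∧ ¬ (R y = r ∧ ∀ b < K, C y b ∈ Core v₀) := by
        intro y hy
        induction hy with
        | refl => exact ⟨hi₀, hi₀n⟩
        | tail _ h5 ih =>
          have h6 := h5
          rw [hSt] at h6
          refine ⟨h6.1.2, fun h7 => hcon _ _ ⟨ih.1, fun h8 => ?_⟩ h7 h5⟩
          by_contra h9
          push Not at h9
          exact ih.2 ⟨h8, h9⟩
      exact (hall k hk).2 ⟨hr.symm, hkcv⟩
    obtain ⟨k1, k2, ⟨hk1L, hk1⟩, ⟨hk2r, hk2c⟩, hst⟩ := hstep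
    rw [hSt] at hst
    obtain ⟨⟨-, hk2L⟩, d₁, hd₁, hl₁, hs1, hs2⟩ := hst
    have hk1u := (loc d₁ u₀ hl₁ k1 hk1L hs1).1
    have ends : ∀ z, At nd₁ nd₂ r z → z = u₀ ∨ z = v₀ := by
      intro z hz
      unfold At at hz hku hkv
      rcases hku with h4 | h4
      · rcases hkv with h5 | h5
        · exact absurd (h5.symm.trans h4) hct
        · rcases hz with h6 | h6
          · exact Or.inl (h6.symm.trans h4)
          · exact Or.inr (h6.symm.trans h5)
      · rcases hkv with h5 | h5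
        · rcases hz with h6 | h6
          · exact Or.inr (h6.symm.trans h5)
          · exact Or.inl (h6.symm.trans h4)
        · exact absurd (h5.symm.trans h4) hct
    have hd₁t : d₁ ∈ Dt ∧ r₀ d₁ = r ∧ ct d₁ = u₀ := by
      rcases rule v₀ k2 hk2L (by rw [hk2r]; exact hkv) hk2c d₁ hd₁ hs2 with h4 | ⟨h4, h5, h6⟩
      · exfalso
        obtain ⟨h5, h6⟩ := loc d₁ v₀ h4 k1 hk1L hs1
        exact hk1 ⟨hG.simple _ (hV k1 hk1L) r hrV u₀ v₀ hct.symm hk1u h5 hku hkv, h6⟩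
      · rw [hk2r] at h5
        refine ⟨h4, h5, ?_⟩
        have h7 := hG.tri_end d₁ h4
        rw [h5] at h7
        rcases ends _ h7 with h8 | h8
        · exact h8
        · exact absurd h8 h6
    have fullu : ∀ r' ∈ V, r' ≠ r → At nd₁ nd₂ r' u₀ → rw' r' ⊆ Core u₀ := by
      intro r' hr' hne hat
      have := hG.tri_full d₁ hd₁t.1 r' hr' (by rw [hd₁t.2.1]; exact hne)
        (by rw [hd₁t.2.2]; exact hat)
      rwa [hd₁t.2.2] at this
    have fullv : ∀ r' ∈ V, r' ≠ r → At nd₁ nd₂ r' v₀ → rw' r' ⊆ Core v₀ := by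
      intro r' hr' hne hat
      have := hG.tri_full d₂ hd₂ r' hr' (by rw [← hrk, ← hr]; exact hne)
        (by rw [← hv₀]; exact hat)
      rwa [← hv₀] at this
    -- the closed set of labels
    have hY : ∀ y, Relation.ReflTransGen Adj i₀ y → y ∈ Lb ∧ ∃ x, (x = u₀ ∨ x = v₀) ∧
        At nd₁ nd₂ (R y) x ∧ ∀ b < K, C y b ∈ Core x := by
      intro y hy
      induction hy with
      | refl => exact ⟨hi₀, u₀, Or.inl rfl, hbase⟩
      | @tail y z _ h5 ih =>
        rw [hA] at h5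
        obtain ⟨⟨-, hzL⟩, d, hd, hsy, hsz⟩ := h5
        obtain ⟨hyL, x, hx, hyx, hyc⟩ := ih
        refine ⟨hzL, ?_⟩
        rcases rule x y hyL hyx hyc d hd hsy with h6 | ⟨h6, h7, h8⟩
        · exact ⟨x, hx, loc d x h6 z hzL hsz⟩
        · have hRz : R z = R y := (tri d h6 z hzL hsz).trans h7
          by_cases hyr : R y = r
          · -- on the row `r`
            obtain ⟨h9, h10⟩ := loc d (ct d) (hG.tri_loc d h6) z hzL hsz
            refine ⟨ct d, ends _ ?_, h9, h10⟩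
            rw [← hyr, ← hRz]
            exact h9
          · -- on another row at `x`
            refine ⟨x, hx, by rw [hRz]; exact hyx, fun b hb => ?_⟩
            have h9 := hC z hzL b hb
            rw [hRz] at h9
            rcases hx with rfl | rfl
            · exact fullu _ (hV y hyL) hyr hyx h9
            · exact fullv _ (hV y hyL) hyr hyx h9
    refine ⟨u₀, v₀, fun y hy => ?_⟩
    obtain ⟨-, x, hx, h4, -⟩ := hY y hy
    rcases hx with rfl | rfl
    · exact Or.inl h4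
    · exact Or.inr h4
  · -- Case 1
    push Not at hcase
    have hall : ∀ y, Relation.ReflTransGen Adj i₀ y → Relation.ReflTransGen St i₀ y := by
      intro y hy
      induction hy with
      | refl => exact Relation.ReflTransGen.refl
      | @tail y z _ h5 ih =>
        rw [hA] at h5
        obtain ⟨hL, d, hd, hsy, hsz⟩ := h5
        obtain ⟨hyL, hyu, hyc⟩ := hReach y ih
        rcases rule u₀ y hyL hyu hyc d hd hsy with h6 | ⟨h6, h7, h8⟩
        · exact ih.tail ((hSt y z).2 ⟨hL, d, hd, h6, hsy, hsz⟩)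
        · exact absurd hsy (hcase y ih d h6 h8)
    exact ⟨u₀, u₀, fun y hy => Or.inl (hReach y (hall y hy)).2.1⟩

/-- **LABEL LEVEL.** -/
theorem labelStmt : LabelStmt.{u, v, w} := by
  classical
  intro m n
  obtain ⟨N, hN⟩ := exists_fam m (8 + (4 * (m * m) + 1) * n + 8)
  refine ⟨N, ?_⟩
  intro α β ν rw' V nd₁ nd₂ S Dg Rg On Lo NL Dt pr pa r₀ A₀ rl vl ct Core R c hG hrow hinj
  obtain ⟨Lb, hLb⟩ : ∃ Lb : Set ℕ, Lb = {i | i < m ∧ R i ∈ V} := ⟨_, rfl⟩
  have memL : ∀ i, i ∈ Lb ↔ i < m ∧ R i ∈ V := fun i => by rw [hLb]; rfl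
  obtain ⟨h, γ, w, Lf, Rt, h1, h2, h3, hF⟩ := hN Rg pr pa R c Lb
    (fun e s => if s = true then nd₂ e else nd₁ e) (fun v _ => Core v) fun l hl => ((memL l).1 hl).1
  obtain ⟨B, hB⟩ : ∃ B, B = 4 * (m * m) + 1 := ⟨_, rfl⟩
  obtain ⟨K, hK⟩ : ∃ K, K = 8 + (4 * (m * m) + 1) * n + 8 := ⟨_, rfl⟩
  rw [← hK] at h1 h2 h3 hF
  rw [← hB] at hK
  -- the tiles
  obtain ⟨f, hf⟩ : ∃ f : ℕ → ℕ, f = fun b => 8 + B * b := ⟨_, rfl⟩
  have fval : ∀ b, f b = 8 + B * b := fun b => by rw [hf]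
  have fsucc : ∀ a b, a < b → f a + B ≤ f b := by
    intro a b hab
    rw [fval, fval]
    have := Nat.mul_le_mul_left B (Nat.succ_le_of_lt hab)
    rw [Nat.succ_eq_add_one, Nat.mul_add, Nat.mul_one] at this
    omega
  have fK : ∀ b < n, f b + B + 8 ≤ K := by
    intro b hb
    have := fsucc b n hb
    rw [fval n] at this
    omega
  have hB1 : 1 ≤ B := by omega
  have fr : ∀ b < n, 8 ≤ f b ∧ f b + 8 < K := by
    intro b hb
    have h4 := fK b hb
    have h5 := fval b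
    omega
  have hn16 : 0 < n → 16 ≤ K := by
    intro _
    rw [hK]
    omega
  have rowc : ∀ l ∈ Lb, ∀ b < K, c l (h b) ∈ rw' (R l) := fun l hl b hb =>
    hrow l ((memL l).1 hl).1 ((memL l).1 hl).2 _ (h1 b hb)
  have cne : ∀ l ∈ Lb, ∀ a < n, ∀ b < n, a ≠ b → c l (h (f a)) ≠ c l (h (f b)) := by
    intro l hl a ha b hb hab heq
    have h4 := (hinj l ((memL l).1 hl).1 _ (h1 (f a) (by have := fr a ha; omega)) l
      ((memL l).1 hl).1 _ (h1 (f b) (by have := fr b hb; omega)) heq).2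
    rcases lt_or_gt_of_ne hab with h5 | h5
    · have h6 := fsucc a b h5
      have h7 := h2 (f a) (f b) (by omega) (by have := fr b hb; omega)
      omega
    · have h6 := fsucc b a h5
      have h7 := h2 (f b) (f a) (by omega) (by have := fr a ha; omega)
      omega
  -- the windows
  have idx_lt : ∀ l l', l < m → l' < m → l * m + l' < m * m := by
    intro l l' hl hl'
    have h4 : (l + 1) * m ≤ m * m := Nat.mul_le_mul_right m hl
    rw [Nat.add_mul, Nat.one_mul] at h4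
    omega
  have idx_inj : ∀ l l' k k', l' < m → k' < m → l * m + l' = k * m + k' → l = k ∧ l' = k' := by
    intro l l' k k' hl' hk' heq
    have e1 : (l * m + l') / m = l := by
      rw [Nat.mul_comm, Nat.mul_add_div (by omega), Nat.div_eq_of_lt hl']
      rfl
    have e2 : (k * m + k') / m = k := by
      rw [Nat.mul_comm, Nat.mul_add_div (by omega), Nat.div_eq_of_lt hk']
      rfl
    have e3 : l = k := by rw [← e1, ← e2, heq]
    subst e3
    exact ⟨rfl, by omega⟩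
  have gm : ∀ l l', (l, l') ∈ γ → l < m ∧ l' < m := fun l l' hg =>
    ⟨((memL l).1 (hF.sub l l' hg).1).1, ((memL l').1 (hF.sub l l' hg).2).1⟩
  obtain ⟨X, hX⟩ : ∃ X : ℕ → ℕ → ℕ → ℕ, X = fun l l' g => f g + 1 + 4 * (l * m + l') := ⟨_, rfl⟩
  have Xv : ∀ l l' g, X l l' g = f g + 1 + 4 * (l * m + l') := fun l l' g => by rw [hX]
  have Xlt : ∀ l l' g, (l, l') ∈ γ → f g < X l l' g ∧ X l l' g + 3 < f g + B := by
    intro l l' g hg
    have h4 := idx_lt l l' (gm l l' hg).1 (gm l l' hg).2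
    rw [Xv, hB]
    omega
  have XK : ∀ l l' g, (l, l') ∈ γ → g < n → X l l' g + 3 < K := by
    intro l l' g hg hgn
    have h4 := Xlt l l' g hg
    have h5 := fK g hgn
    omega
  obtain ⟨T, hT⟩ : ∃ T : Set α, T = {t | ∃ l l', (l, l') ∈ γ ∧ ∃ g < n, t = (w l l' (X l l' g)).1} :=
    ⟨_, rfl⟩
  have memT : ∀ t, t ∈ T ↔ ∃ l l', (l, l') ∈ γ ∧ ∃ g < n, t = (w l l' (X l l' g)).1 := by
    intro t
    rw [hT]
    rfl
  -- the classes
  obtain ⟨Sn, hSn⟩ : ∃ Sn : α → ℕ → Prop, Sn = fun d i => ∃ a < n, ∃ b < n, a ≠ b ∧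
    S d (c i (h (f a))) (c i (h (f b))) := ⟨_, rfl⟩
  have Snv : ∀ d i, Sn d i ↔ ∃ a < n, ∃ b < n, a ≠ b ∧
      S d (c i (h (f a))) (c i (h (f b))) := fun d i => by rw [hSn]
  obtain ⟨Adj, hAdj⟩ : ∃ Adj : ℕ → ℕ → Prop, Adj = fun i j => (i ∈ Lb ∧ j ∈ Lb) ∧
    ∃ d ∈ Dg, Sn d i ∧ Sn d j := ⟨_, rfl⟩
  have Adjv : ∀ i j, Adj i j ↔ (i ∈ Lb ∧ j ∈ Lb) ∧ ∃ d ∈ Dg, Sn d i ∧ Sn d j := fun i j => by
    rw [hAdj]
  have Adjs : ∀ i j, Adj i j → Adj j i := by
    intro i j hij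
    rw [Adjv] at hij ⊢
    obtain ⟨⟨h4, h5⟩, d, hd, h6, h7⟩ := hij
    exact ⟨⟨h5, h4⟩, d, hd, h7, h6⟩
  obtain ⟨Cn, hCn⟩ : ∃ Cn : ℕ → ℕ → Prop, Cn = Relation.ReflTransGen Adj := ⟨_, rfl⟩
  have Cs : ∀ {i j}, Cn i j → Cn j i := by
    intro i j hij
    rw [hCn] at hij ⊢
    induction hij with
    | refl => exact Relation.ReflTransGen.refl
    | tail _ h5 ih => exact Relation.ReflTransGen.head (Adjs _ _ h5) ih
  have Ct : ∀ {i j k}, Cn i j → Cn j k → Cn i k := by
    intro i j k h4 h5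
    rw [hCn] at *
    exact h4.trans h5
  have Cr : ∀ i, Cn i i := fun i => by rw [hCn]
  have Ca : ∀ {i j k}, Cn i j → Adj j k → Cn i k := by
    intro i j k h4 h5
    rw [hCn] at *
    exact h4.tail h5
  obtain ⟨rep, hrep⟩ : ∃ rep : ℕ → ℕ, rep = fun i => sInf {j | j ∈ Lb ∧ Cn i j} := ⟨_, rfl⟩
  have rep_mem : ∀ i ∈ Lb, rep i ∈ Lb ∧ Cn i (rep i) := by
    intro i hi
    have h4 : sInf {j | j ∈ Lb ∧ Cn i j} ∈ {j | j ∈ Lb ∧ Cn i j} := Nat.sInf_mem ⟨i, hi, Cr i⟩
    rw [hrep]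
    exact h4
  have rep_eq : ∀ i j, Cn i j → rep i = rep j := by
    intro i j hij
    rw [hrep]
    have h4 : {k | k ∈ Lb ∧ Cn i k} = {k | k ∈ Lb ∧ Cn j k} := by
      ext k
      exact ⟨fun h5 => ⟨h5.1, Ct (Cs hij) h5.2⟩, fun h5 => ⟨h5.1, Ct hij h5.2⟩⟩
    show sInf {k | k ∈ Lb ∧ Cn i k} = sInf {k | k ∈ Lb ∧ Cn j k}
    rw [h4]
  obtain ⟨reps, hreps⟩ : ∃ reps : Finset ℕ, reps =
    ((Finset.range m).filter fun i => i ∈ Lb).image rep := ⟨_, rfl⟩
  have mreps : ∀ i ∈ Lb, rep i ∈ reps := by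
    intro i hi
    rw [hreps]
    exact Finset.mem_image_of_mem _ (Finset.mem_filter.2 ⟨Finset.mem_range.2 ((memL i).1 hi).1, hi⟩)
  have mreps' : ∀ x ∈ reps, ∃ i ∈ Lb, rep i = x := by
    intro x hx
    rw [hreps, Finset.mem_image] at hx
    obtain ⟨i, hi, hir⟩ := hx
    rw [Finset.mem_filter] at hi
    exact ⟨i, hi.2, hir⟩
  obtain ⟨F, hFd⟩ : ∃ F : ℕ → ℕ, F = fun r => if hh : r ∈ reps then (reps.equivFin ⟨r, hh⟩).val
    else 0 := ⟨_, rfl⟩
  have Fv : ∀ r (hr : r ∈ reps), F r = (reps.equivFin ⟨r, hr⟩).val := by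
    intro r hr
    rw [hFd]
    simp only [hr, dif_pos]
  have cls_iff : ∀ i ∈ Lb, ∀ j ∈ Lb, F (rep i) = F (rep j) → Cn i j := by
    intro i hi j hj heq
    rw [Fv _ (mreps i hi), Fv _ (mreps j hj)] at heq
    have h4 := reps.equivFin.injective (Fin.ext heq)
    have h5 : rep i = rep j := congrArg Subtype.val h4
    have h6 := (rep_mem i hi).2
    rw [h5] at h6
    exact Ct h6 (Cs (rep_mem j hj).2)
  obtain ⟨pv, hpvd⟩ : ∃ pv : Set ℕ, pv = {k | ∃ v v' : ν, ∀ i < m, R i ∈ V → F (rep i) = k →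
    At nd₁ nd₂ (R i) v ∨ At nd₁ nd₂ (R i) v'} := ⟨_, rfl⟩
  refine ⟨fun b => h (f b), T, reps.card, fun i => F (rep i), pv, ?_⟩
  refine ⟨?_, ?_, ?_, ?_, ?_, ?_, ?_, ?_, ?_⟩
  · -- mono
    intro a b hab hb
    have h4 := fsucc a b hab
    exact h2 _ _ (by omega) (by have := fr b hb; omega)
  · -- lt
    intro b hb
    exact h1 _ (by have := fr b hb; omega)
  · -- sub
    intro t ht
    rw [memT] at ht
    obtain ⟨l, l', hg, g, hgn, rfl⟩ := ht
    exact (hF.wit l l' hg _ (XK l l' g hg hgn)).1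
  · -- chn
    intro t ht t' ht' i j hij
    rw [memT] at ht ht'
    obtain ⟨l, l', hg, g, hgn, rfl⟩ := ht
    obtain ⟨k, k', hg', g', hgn', rfl⟩ := ht'
    have hx := XK l l' g hg hgn
    have hx' := XK k k' g' hg' hgn'
    have hw := hF.wit l l' hg _ hx
    have hw' := hF.wit k k' hg' _ hx'
    by_cases hsame : (l = k ∧ l' = k') ∧ g = g'
    · obtain ⟨⟨rfl, rfl⟩, rfl⟩ := hsame
      by_cases hij' : i = j
      · subst hij'
        exact Or.inl Subset.rfl
      · have h4 : j = !i := bool_ne hij'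
        subst h4
        rcases hG.nest _ hw.1 _ hw.1 i (!i) hij with h5 | ⟨-, h5⟩
        · exact h5
        · rw [Bool.not_not] at h5
          exact Or.inl h5.symm.subset
    · have hxx : X l l' g + 3 < X k k' g' ∨ X k k' g' + 3 < X l l' g := by
        have a1 := Xlt l l' g hg
        have a2 := Xlt k k' g' hg'
        rcases lt_trichotomy g g' with h4 | h4 | h4
        · have := fsucc g g' h4
          omega
        · subst h4
          have h5 : l * m + l' ≠ k * m + k' := fun h5 =>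
            hsame ⟨idx_inj l l' k k' (gm l l' hg).2 (gm k k' hg').2 h5, rfl⟩
          rw [Xv, Xv]
          omega
        · have := fsucc g' g h4
          omega
      obtain ⟨q, hq⟩ := pl_sur (w l l' (X l l' g)).2 i
      obtain ⟨q', hq'⟩ := pl_sur (w k k' (X k k' g')).2 j
      subst hq
      subst hq'
      exact hF.cmp hG.nest hg hg' hx hx' hxx q q' (by
        rw [← (hw.2 q).1, ← (hw'.2 q').1]
        exact hij)
  · -- cls_lt
    intro i hi hV
    have h4 := mreps i ((memL i).2 ⟨hi, hV⟩)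
    show F (rep i) < reps.card
    rw [Fv _ h4]
    exact (reps.equivFin ⟨rep i, h4⟩).isLt
  · -- sur
    intro k hk
    obtain ⟨r, hr⟩ : ∃ r, reps.equivFin r = ⟨k, hk⟩ := reps.equivFin.surjective _
    obtain ⟨i, hi, hir⟩ := mreps' r.1 r.2
    refine ⟨i, ((memL i).1 hi).1, ((memL i).1 hi).2, ?_⟩
    show F (rep i) = k
    rw [Fv _ (mreps i hi)]
    have h5 : (⟨rep i, mreps i hi⟩ : {x // x ∈ reps}) = r := Subtype.ext hir
    rw [h5, hr]
  · -- see
    intro d hd i hi j hj hiV hjV hsi hsj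
    show F (rep i) = F (rep j)
    rw [rep_eq i j]
    rw [hCn]
    refine Relation.ReflTransGen.single ?_
    rw [Adjv]
    exact ⟨⟨(memL i).2 ⟨hi, hiV⟩, (memL j).2 ⟨hj, hjV⟩⟩, d, hd, (Snv d i).2 hsi, (Snv d j).2 hsj⟩
  · -- priv
    intro k hk
    rw [hpvd] at hk
    exact hk
  · -- conn
    intro i hi j hj hiV hjV hij hpv
    have hiL : i ∈ Lb := (memL i).2 ⟨hi, hiV⟩
    have hjL : j ∈ Lb := (memL j).2 ⟨hj, hjV⟩
    have hCij : Cn i j := cls_iff i hiL j hjL hij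
    have hpv' : ¬ ∃ v v' : ν, ∀ y < m, R y ∈ V → F (rep y) = F (rep i) →
        At nd₁ nd₂ (R y) v ∨ At nd₁ nd₂ (R y) v' := by
      intro hc
      apply hpv
      rw [hpvd]
      exact hc
    -- all labels of the class are in `Lb`
    have inL : ∀ x, Cn i x → x ∈ Lb := by
      intro x hx
      rw [hCn] at hx
      rcases Relation.ReflTransGen.cases_tail hx with h4 | ⟨y, -, h4⟩
      · rw [h4]
        exact hiL
      · rw [Adjv] at h4
        exact h4.1.2
    -- the colours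
    have col : ∀ y ∈ Lb, ∀ v, At nd₁ nd₂ (R y) v → (∃ b < K, c y (h b) ∈ Core v) →
        ∀ b < K, c y (h b) ∈ Core v := by
      intro y hy v hv hb
      obtain ⟨b, hb, hbc⟩ := hb
      rcases hv with hv | hv
      · rcases h3 y hy false with h4 | h4
        · intro b' hb'
          have := h4 b' hb'
          simp only [Bool.false_eq_true, if_false] at this
          rwa [hv] at this
        · exfalso
          have := h4 b hb
          simp only [Bool.false_eq_true, if_false] at this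
          rw [hv] at this
          exact this hbc
      · rcases h3 y hy true with h4 | h4
        · intro b' hb'
          have := h4 b' hb'
          simp only [if_true] at this
          rwa [hv] at this
        · exfalso
          have := h4 b hb
          simp only [if_true] at this
          rw [hv] at this
          exact this hbc
    -- no label of the class is seen by a near-local element
    have noNL : ∀ x, Cn i x → ∀ d ∈ NL, ¬ Sn d x := by
      intro x hx d hd hs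
      have hxL := inL x hx
      apply hpv'
      obtain ⟨v, v', h4⟩ := hG.two_stars (Lb := Lb) (R := R) (K := K) (C := fun l b => c l (h b))
        (Sn := Sn) (Adj := Adj) (fun l hl => ((memL l).1 hl).2) rowc col (by
          intro l hl d' hs'
          rw [Snv] at hs'
          obtain ⟨a, ha, b, hb, hab, hsl⟩ := hs'
          have hfa := fr a ha
          have hfb := fr b hb
          exact ⟨f a, by omega, f b, by omega, cne l hl a ha b hb hab, hsl⟩) Adjv hxL hd hs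
      refine ⟨v, v', fun y hy hyV hyc => h4 y ?_⟩
      have hyL : y ∈ Lb := (memL y).2 ⟨hy, hyV⟩
      have h5 := Ct (Cs hx) (cls_iff i hiL y hyL hyc.symm)
      rw [hCn] at h5
      exact h5
    -- an edge between different rows
    have hdiff : ∃ x y, Cn i x ∧ Adj x y ∧ R x ≠ R y := by
      by_contra hcon
      push Not at hcon
      have all : ∀ y, Cn i y → R y = R i := by
        intro y hy
        have hy' := hy
        rw [hCn] at hy'
        clear hy
        induction hy' with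
        | refl => rfl
        | @tail y z h4 h5 ih =>
          have h6 : Cn i y := by
            rw [hCn]
            exact h4
          rw [← hcon y z h6 h5]
          exact ih
      apply hpv'
      refine ⟨nd₁ (R i), nd₁ (R i), fun y hy hyV hyc => Or.inl (Or.inl ?_)⟩
      rw [all y (cls_iff i hiL y ((memL y).2 ⟨hy, hyV⟩) hyc.symm)]
    obtain ⟨x₀, y₀, hx₀, hxy₀, hR₀⟩ := hdiff
    have hn0 : 0 < n := by
      rw [Adjv] at hxy₀
      obtain ⟨-, d, -, hs, -⟩ := hxy₀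
      rw [Snv] at hs
      obtain ⟨a, ha, -⟩ := hs
      omega
    have hK16 := hn16 hn0
    obtain ⟨Gd, hGd⟩ : ∃ Gd : ℕ → ℕ → Prop, Gd = fun x y => ∃ l l', (l, l') ∈ γ ∧ ∃ q q',
      (R x = R (lam l l' q) ∧ ¬ (Lf l l' x q ↔ Rt l l' x q)) ∧
      R y = R (lam l l' q') ∧ ¬ (Lf l l' y q' ↔ Rt l l' y q') := ⟨_, rfl⟩
    have Gdv : ∀ x y, Gd x y ↔ ∃ l l', (l, l') ∈ γ ∧ ∃ q q',
        (R x = R (lam l l' q) ∧ ¬ (Lf l l' x q ↔ Rt l l' x q)) ∧
        R y = R (lam l l' q') ∧ ¬ (Lf l l' y q' ↔ Rt l l' y q') := fun x y => by rw [hGd]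
    have edge : ∀ x y, (x, y) ∈ γ → Gd x y := by
      intro x y hg
      rw [Gdv]
      exact ⟨x, y, hg, false, true, ⟨rfl, hF.ne_val hG.nest (by omega) hg false⟩, rfl,
        hF.ne_val hG.nest (by omega) hg true⟩
    -- rungs which see two labels at different places
    have rg2 : ∀ x ∈ Lb, ∀ y ∈ Lb, ∀ d ∈ Rg, Sn d x → Sn d y → (x, y) ∈ γ ∨
        ∃ p, R x = pr d p ∧ R y = pr d p ∧
          (∃ a < n, ∃ b < n, ¬ (c x (h (f a)) ∈ pa d p ↔ c x (h (f b)) ∈ pa d p)) ∧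
          ∃ a < n, ∃ b < n, ¬ (c y (h (f a)) ∈ pa d p ↔ c y (h (f b)) ∈ pa d p) := by
      intro x hx y hy d hd hsx hsy
      rw [Snv] at hsx hsy
      obtain ⟨a1, ha1, b1, hb1, hab1, hs1⟩ := hsx
      obtain ⟨a2, ha2, b2, hb2, hab2, hs2⟩ := hsy
      have q1 := fr a1 ha1
      have q2 := fr b1 hb1
      have q3 := fr a2 ha2
      have q4 := fr b2 hb2
      rw [hG.sep d hd (R x) ((memL x).1 hx).2 _ (rowc x hx _ (by omega)) _
        (rowc x hx _ (by omega)) (cne x hx a1 ha1 b1 hb1 hab1)] at hs1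
      rw [hG.sep d hd (R y) ((memL y).1 hy).2 _ (rowc y hy _ (by omega)) _
        (rowc y hy _ (by omega)) (cne y hy a2 ha2 b2 hb2 hab2)] at hs2
      obtain ⟨p, hp1, hp2⟩ := hs1
      obtain ⟨p', hp1', hp2'⟩ := hs2
      by_cases hpp : p = p'
      · subst hpp
        exact Or.inr ⟨p, hp1, hp1', ⟨a1, ha1, b1, hb1, hp2⟩, a2, ha2, b2, hb2, hp2'⟩
      · have h4 : p' = !p := bool_ne hpp
        subst h4
        exact Or.inl (hF.edge (by omega) hx hy hd hp1.symm hp1'.symm (by omega) (by omega)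
          (by omega) (by omega) hp2 hp2')
    have hmain : ∀ x y, Cn i x → Adj x y →
        (∃ l l', (l, l') ∈ γ ∧ ∃ q, R x = R (lam l l' q) ∧ ¬ (Lf l l' x q ↔ Rt l l' x q)) →
        Gd x y := by
      intro x y hx hxy hRS
      obtain ⟨l, l', hg, q, hRx, hvx⟩ := hRS
      have hxL := inL x hx
      have hyL := inL y (Ca hx hxy)
      rw [Adjv] at hxy
      obtain ⟨-, d, hd, hsx, hsy⟩ := hxy
      -- conclusion from the values
      have concl : R y = R (lam l l' q) →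
          ((Lf l l' x q ↔ Lf l l' y q) ∧ (Rt l l' x q ↔ Rt l l' y q)) → Gd x y := by
        intro hRy hv
        rw [Gdv]
        exact ⟨l, l', hg, q, q, ⟨hRx, hvx⟩, hRy, fun h4 => hvx
          (hv.1.trans (h4.trans hv.2.symm))⟩
      rcases hG.kind d hd with hk | hk | hk | hk
      · rcases rg2 x hxL y hyL d hk hsx hsy with h4 | ⟨p, hp1, hp1', ⟨a1, ha1, b1, hb1, hp2⟩,
          a2, ha2, b2, hb2, hp2'⟩
        · exact edge x y h4
        · have hRy : R y = R (lam l l' q) := by rw [hp1', ← hp1, hRx]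
          refine concl hRy (hF.follow_place (rw' := rw') rowc hK16 hg hxL hyL hRx hRy
            (P := pa d p) ?_ (fr a1 ha1) (fr b1 hb1) (fr a2 ha2) (fr b2 hb2) hp2 hp2')
          intro x1 x2 h5 h6
          obtain ⟨z, hz, hcm⟩ := hF.cmp_one hG.nest hg (x := x1) (x' := x2) (by omega) h6 h5 hk
            (p := p) (q := q) (by rw [← hp1, hRx])
          refine ⟨z, hz, ?_⟩
          rcases hcm with hcm | hcm
          · exact Or.inl fun e _ he => hcm he
          · exact Or.inr fun e _ he => hcm he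
      · rw [Snv] at hsx hsy
        obtain ⟨a1, ha1, b1, hb1, hab1, hs1⟩ := hsx
        obtain ⟨a2, ha2, b2, hb2, hab2, hs2⟩ := hsy
        have q1 := fr a1 ha1
        have q2 := fr b1 hb1
        have q3 := fr a2 ha2
        have q4 := fr b2 hb2
        obtain ⟨e1, e2⟩ := hG.one d hk (R x) ((memL x).1 hxL).2 _ (rowc x hxL _ (by omega)) _
          (rowc x hxL _ (by omega)) (cne x hxL a1 ha1 b1 hb1 hab1) hs1
        obtain ⟨e3, e4⟩ := hG.one d hk (R y) ((memL y).1 hyL).2 _ (rowc y hyL _ (by omega)) _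
          (rowc y hyL _ (by omega)) (cne y hyL a2 ha2 b2 hb2 hab2) hs2
        have hRy : R y = R (lam l l' q) := by rw [e3, ← e1, hRx]
        refine concl hRy (hF.follow_place (rw' := rw') rowc hK16 hg hxL hyL hRx hRy (P := A₀ d) ?_
          q1 q2 q3 q4 e2 e4)
        intro x1 x2 h5 h6
        obtain ⟨g1, gw⟩ := hF.wit l l' hg x1 (by omega)
        have h7 := hG.nestOne _ g1 d hk (pl (w l l' x1).2 q) (by rw [(gw q).1, ← hRx, e1])
        rw [← e1, hRx] at h7
        exact ⟨x1, Or.inl rfl, h7.symm⟩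
      · rw [Snv] at hsx hsy
        obtain ⟨a1, ha1, b1, hb1, hab1, hs1⟩ := hsx
        obtain ⟨a2, ha2, b2, hb2, hab2, hs2⟩ := hsy
        have q1 := fr a1 ha1
        have q2 := fr b1 hb1
        have q3 := fr a2 ha2
        have q4 := fr b2 hb2
        have e1 := hG.loc d hk (R x) ((memL x).1 hxL).2 _ (rowc x hxL _ (by omega)) _
          (rowc x hxL _ (by omega)) (cne x hxL a1 ha1 b1 hb1 hab1) hs1
        have e3 := hG.loc d hk (R y) ((memL y).1 hyL).2 _ (rowc y hyL _ (by omega)) _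
          (rowc y hyL _ (by omega)) (cne y hyL a2 ha2 b2 hb2 hab2) hs2
        have hRy : R y = R (lam l l' q) := by rw [e3, ← e1, hRx]
        refine concl hRy (hF.follow_loc (rw' := rw') rowc hK16 hg hxL hyL hRx hRy (S := S d) ?_
          q1 q2 q3 q4 (cne x hxL a1 ha1 b1 hb1 hab1) (cne y hyL a2 ha2 b2 hb2 hab2) hs1 hs2)
        intro d' hd' p hp
        have h7 := hG.locRg d' hd' d hk p (by rw [hp, ← hRx, e1])
        rw [← e1, hRx] at h7
        exact h7
      · exact absurd hsx (noNL x hx d hk)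
    -- all labels of the class are seen by rung families
    have hRS0 : ∃ l l', (l, l') ∈ γ ∧ ∃ q, R x₀ = R (lam l l' q) ∧
        ¬ (Lf l l' x₀ q ↔ Rt l l' x₀ q) := by
      have hxL := inL x₀ hx₀
      have hyL := inL y₀ (Ca hx₀ hxy₀)
      have hxy' := hxy₀
      rw [Adjv] at hxy'
      obtain ⟨-, d, hd, hsx, hsy⟩ := hxy'
      have hedge : (x₀, y₀) ∈ γ := by
        rcases hG.kind d hd with hk | hk | hk | hk
        · rcases rg2 x₀ hxL y₀ hyL d hk hsx hsy with h4 | ⟨p, hp1, hp1', -⟩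
          · exact h4
          · exact absurd (hp1.trans hp1'.symm) hR₀
        · rw [Snv] at hsx hsy
          obtain ⟨a1, ha1, b1, hb1, hab1, hs1⟩ := hsx
          obtain ⟨a2, ha2, b2, hb2, hab2, hs2⟩ := hsy
          have q1 := fr a1 ha1
          have q2 := fr b1 hb1
          have q3 := fr a2 ha2
          have q4 := fr b2 hb2
          have e1 := (hG.one d hk (R x₀) ((memL x₀).1 hxL).2 _ (rowc x₀ hxL _ (by omega)) _
            (rowc x₀ hxL _ (by omega)) (cne x₀ hxL a1 ha1 b1 hb1 hab1) hs1).1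
          have e3 := (hG.one d hk (R y₀) ((memL y₀).1 hyL).2 _ (rowc y₀ hyL _ (by omega)) _
            (rowc y₀ hyL _ (by omega)) (cne y₀ hyL a2 ha2 b2 hb2 hab2) hs2).1
          exact absurd (e1.trans e3.symm) hR₀
        · rw [Snv] at hsx hsy
          obtain ⟨a1, ha1, b1, hb1, hab1, hs1⟩ := hsx
          obtain ⟨a2, ha2, b2, hb2, hab2, hs2⟩ := hsy
          have q1 := fr a1 ha1
          have q2 := fr b1 hb1
          have q3 := fr a2 ha2
          have q4 := fr b2 hb2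
          have e1 := hG.loc d hk (R x₀) ((memL x₀).1 hxL).2 _ (rowc x₀ hxL _ (by omega)) _
            (rowc x₀ hxL _ (by omega)) (cne x₀ hxL a1 ha1 b1 hb1 hab1) hs1
          have e3 := hG.loc d hk (R y₀) ((memL y₀).1 hyL).2 _ (rowc y₀ hyL _ (by omega)) _
            (rowc y₀ hyL _ (by omega)) (cne y₀ hyL a2 ha2 b2 hb2 hab2) hs2
          exact absurd (e1.trans e3.symm) hR₀
        · exact absurd hsx (noNL x₀ hx₀ d hk)
      exact ⟨x₀, y₀, hedge, false, rfl, hF.ne_val hG.nest (by omega) hedge false⟩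
    have hRS : ∀ x, Cn i x → ∃ l l', (l, l') ∈ γ ∧ ∃ q, R x = R (lam l l' q) ∧
        ¬ (Lf l l' x q ↔ Rt l l' x q) := by
      intro x hx
      have h4 : Cn x₀ x := Ct (Cs hx₀) hx
      rw [hCn] at h4
      clear hx
      induction h4 with
      | refl => exact hRS0
      | @tail y z h5 h6 ih =>
        have h7 : Cn x₀ y := by
          rw [hCn]
          exact h5
        have h8 := hmain y z (Ct hx₀ h7) h6 ih
        rw [Gdv] at h8
        obtain ⟨l, l', hg, q, q', -, h9⟩ := h8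
        exact ⟨l, l', hg, q', h9⟩
    -- rungs of the families in `T`
    have hTs : ∀ x y, x ∈ Lb → y ∈ Lb → Gd x y → ∀ a b, a < b → b < n → ∃ t ∈ T,
        S t (c x (h (f a))) (c x (h (f b))) ∧ S t (c y (h (f a))) (c y (h (f b))) := by
      intro x y hxL hyL hgd a b hab hb
      rw [Gdv] at hgd
      obtain ⟨l, l', hg, q, q', ⟨hx1, hx2⟩, hy1, hy2⟩ := hgd
      have ha : a < n := by omega
      have hxk := XK l l' a hg ha
      have hxl := Xlt l l' a hg
      have hfab := fsucc a b hab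
      have hfb := fr b hb
      have hw := hF.wit l l' hg _ hxk
      refine ⟨(w l l' (X l l' a)).1, (memT _).2 ⟨l, l', hg, a, ha, rfl⟩, ?_, ?_⟩
      · rw [hG.sep _ hw.1 (R x) ((memL x).1 hxL).2 _ (rowc x hxL _ (by omega)) _
          (rowc x hxL _ (by omega)) (cne x hxL a ha b hb hab.ne)]
        refine ⟨pl (w l l' (X l l' a)).2 q, by rw [(hw.2 q).1, hx1], ?_⟩
        rw [hF.left l l' hg x hxL q _ hxk (f a) (by omega),
          hF.right l l' hg x hxL q _ (f b) (by omega) (by omega)]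
        exact hx2
      · rw [hG.sep _ hw.1 (R y) ((memL y).1 hyL).2 _ (rowc y hyL _ (by omega)) _
          (rowc y hyL _ (by omega)) (cne y hyL a ha b hb hab.ne)]
        refine ⟨pl (w l l' (X l l' a)).2 q', by rw [(hw.2 q').1, hy1], ?_⟩
        rw [hF.left l l' hg y hyL q' _ hxk (f a) (by omega),
          hF.right l l' hg y hyL q' _ (f b) (by omega) (by omega)]
        exact hy2
    have hfin := hCij
    rw [hCn] at hfin
    clear hCij hij hj hjV hjL
    induction hfin with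
    | refl => exact Relation.ReflTransGen.refl
    | @tail y z h5 h6 ih =>
      have h7 : Cn i y := by
        rw [hCn]
        exact h5
      have h8 := Ca h7 h6
      have hxL := inL _ h7
      have hyL := inL _ h8
      refine ih.tail ⟨(memL _).1 hxL, (memL _).1 hyL, ?_, ?_⟩
      · show F (rep _) = F (rep _)
        rw [rep_eq _ _ (Ca (Cr _) h6)]
      · exact hTs _ _ hxL hyL (hmain _ _ h7 h6 (hRS _ h7))

end TST
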