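import Pool.Agent.TST.KindG74

/-!
# `LabM` of a system
-/

open Set BIC BICS CWL
open scoped Matroid

namespace TSH

universe u

open DA

section

variable {α : Type u} {M : Matroid α} {w s : ℕ} {𝒯 : Finset (ℕ × ℕ)}
  {L₁ : Bool × ℕ × ℕ → List α} {f₁ : α → Sym2 ((ℕ × ℕ) ⊕ α)} {e₁ : Bool × ℕ × ℕ → α} {u₁ : ℕ}
  {L₂ : Bool × ℕ × ℕ → List α} {f₂ : α → Sym2 ((ℕ × ℕ) ⊕ α)} {e₂ : Bool × ℕ × ℕ → α} {u₂ : ℕ}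
  {D : Set α} {σ N m : ℕ} {τ : ℕ → ℕ × ℕ} {R : ℕ → Bool × ℕ × ℕ} {c : ℕ → ℕ → α}
  {Za : Finset (Bool × ℕ × ℕ)} {row : α → Sym2 (ℕ × ℕ)} {β D₀ δ₀ D₁ δ₁ : ℕ}
  {Hm Hs₀ Om₁ Hs₁ Om₂ : Finset (ℕ × ℕ)}

/-- the elements of `D` with exactly one visible place -/
def GOne (M : Matroid α) (w : ℕ) (L₁ : Bool × ℕ × ℕ → List α) (D : Set α)
    (LR : Set (Bool × ℕ × ℕ)) : Set α :=
  {d | d ∈ D ∧ ∃ p : (Bool × ℕ × ℕ) × Set α, OnP M w L₁ LR d p.1 p.2}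

open Classical in
/-- the visible place of an element -/
noncomputable def pOne (M : Matroid α) (w : ℕ) (L₁ : Bool × ℕ × ℕ → List α)
    (LR : Set (Bool × ℕ × ℕ)) (d : α) : (Bool × ℕ × ℕ) × Set α :=
  if h : ∃ p : (Bool × ℕ × ℕ) × Set α, OnP M w L₁ LR d p.1 p.2 then h.choose
  else ((true, 0, 0), ∅)

lemma pOne_spec {L₁ : Bool × ℕ × ℕ → List α} {LR : Set (Bool × ℕ × ℕ)} {d : α}
    (h : d ∈ GOne M w L₁ D LR) :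
    OnP M w L₁ LR d (pOne M w L₁ LR d).1 (pOne M w L₁ LR d).2 := by
  have h1 := h.2
  unfold pOne
  rw [dif_pos h1]
  exact h1.choose_spec

/-- **`LabM` of a system**: the good elements can be any set which contains all elements of `D` which see
a visible row. -/
theorem GSys.labM [M.Finite]
    (h : GSys M w s 𝒯 L₁ f₁ e₁ u₁ L₂ f₂ e₂ u₂ D σ N m τ R c Za row β D₀ δ₀ D₁ δ₁ Hm Hs₀ Om₁ Hs₁ Om₂)
    {Bd : Set (ℕ × ℕ)} {Zq Zr LR : Set (Bool × ℕ × ℕ)}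
    (hqr : Zq ⊆ Zr) (hrL : Zr ⊆ LR) (hLS : LR ⊆ Seg w) (hout : ∀ r ∈ Seg w, r ∉ Zq →
      OutW (δ₁ + 60) w Om₂ (segNear r) ∧ OutW (δ₁ + 60) w Om₂ (segFar r))
    (hBd : ∀ r ∈ Seg w, ∀ v ∈ Bd, sd (segNear r) v ≤ 3 ∨ sd (segFar r) v ≤ 3 → r ∈ LR)
    {Dg : Set α} (hDg : ∀ d ∈ D, ∀ r ∈ Seg w, r ∉ LR → segNear r ∉ VV LR → segFar r ∉ VV LR →
      ∀ x ∈ L₁ r, ∀ y ∈ L₁ r, x ≠ y → Sees M (crr L₁ (Seg w)) d x y → d ∈ Dg) :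
    LabM M w L₁ D row D₀ Hs₀ Bd Zr LR Dg (GOne M w L₁ D LR) (fun z => (pOne M w L₁ LR z).1)
      (fun z => (pOne M w L₁ LR z).2) := by
  refine ⟨fun z hz => hz.1, fun z hz => pOne_spec hz, ?_⟩
  intro d hd r hr hrn hn hf x hx y hy hxy hs
  refine ⟨hDg d hd r hr hrn hn hf x hx y hy hxy hs, ?_⟩
  rcases h.kind₂ (hqr.trans hrL) hLS hout hBd hd hr hrn hn hf hx hy hxy hs with ⟨h1, h2⟩ | ⟨A, h1⟩
  · exact Or.inl ⟨h1, fun r' hr' hr'Z => h2 r' hr' fun hc => hr'Z (hqr hc)⟩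
  · exact Or.inr ⟨hd, (r, A), h1⟩

end

end TSH
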