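import Pool.Agent.TST.LabDef3
import Pool.Agent.TST.LabM74
import Pool.Agent.DA.RowX
import Pool.Agent.DA.PlF

/-!
# The language of rows for the label level of `M` (R6 of T-star, helper77)

Rows are segments of the wall, `RX S row u v` = the elements of the row of `u v`.  The sets of the
kinds: `frM` = far rungs, `nrM` = near rungs (they see at least one visible row), `trM` = same-row
elements, `tuM` = elements which are local in a star, `dtM` = degenerate tripods, `onM` = all other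
elements which see exactly one visible row.
-/

set_option autoImplicit false

open Set BIC BICS CWL
open scoped Matroid

namespace TSH

universe u

open DA TST

/-! ### Vertices and segments -/

open Classical in
/-- the neighbours of a vertex -/
noncomputable def nbV (u : ℕ × ℕ) : Fin 3 → ℕ × ℕ :=
  if h : 1 ≤ u.1 ∧ 1 ≤ u.2 then (exists_nb3 h).choose else fun _ => u

lemma nbV_spec {u : ℕ × ℕ} (h : 1 ≤ u.1 ∧ 1 ≤ u.2) : Nb3 u (nbV u 0) (nbV u 1) (nbV u 2) := by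
  unfold nbV
  rw [dif_pos h]
  exact (exists_nb3 h).choose_spec

open Classical in
/-- the segment of two neighbours -/
noncomputable def sgV (w : ℕ) (u v : ℕ × ℕ) : Bool × ℕ × ℕ :=
  if h : ∃ s ∈ Seg w, srow s = s(u, v) then h.choose else (true, 0, 0)

section seg

variable {w δ₁ : ℕ} {u v : ℕ × ℕ} {r : Bool × ℕ × ℕ} {Om₂ : Finset (ℕ × ℕ)} {i j : Fin 3}

lemma sgV_spec (h : wadj u v) (hu : u ∈ rect 0 0 (w + 1) (w + 1))
    (hv : v ∈ rect 0 0 (w + 1) (w + 1)) : sgV w u v ∈ Seg w ∧ srow (sgV w u v) = s(u, v) := by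
  have h1 : ∃ s ∈ Seg w, srow s = s(u, v) := seg_of_wadj h hu hv
  unfold sgV
  rw [dif_pos h1]
  exact ⟨h1.choose_spec.1, h1.choose_spec.2⟩

lemma sgV_row (hr : r ∈ Seg w) (h : srow r = s(u, v)) : sgV w u v = r := by
  have h1 : ∃ s ∈ Seg w, srow s = s(u, v) := ⟨r, hr, h⟩
  unfold sgV
  rw [dif_pos h1]
  exact srow_inj (h1.choose_spec.2.trans h.symm)

/-- a visible vertex is deep -/
lemma _root_.DA.VisR.one (h : VisR w δ₁ Om₂ u) : 1 ≤ u.1 ∧ 1 ≤ u.2 := by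
  have h1 := h.1
  unfold DeepR at h1
  simp only at h1
  omega

/-- the vertices at a visible vertex -/
lemma _root_.DA.VisR.rect (h : VisR w δ₁ Om₂ u) (hv : sd u v ≤ 1) : v ∈ rect 0 0 (w + 1) (w + 1) := by
  have h1 := h.1
  have h2 := sd_le.1 hv
  unfold DeepR at h1
  simp only at h1
  rw [Gad.mem_rct]
  omega

lemma _root_.DA.VisR.nb (h : VisR w δ₁ Om₂ u) : Nb3 u (nbV u 0) (nbV u 1) (nbV u 2) := nbV_spec h.one

lemma _root_.DA.VisR.nb_adj (h : VisR w δ₁ Om₂ u) (i : Fin 3) : wadj u (nbV u i) := nb3_adj h.nb i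

lemma _root_.DA.VisR.nb_ne (h : VisR w δ₁ Om₂ u) (hij : i ≠ j) : nbV u i ≠ nbV u j := nb3_inj h.nb hij

lemma _root_.DA.VisR.nb_all (h : VisR w δ₁ Om₂ u) (huv : wadj u v) : ∃ i, nbV u i = v := by
  rcases nb3_mem h.one h.nb huv with h1 | h1 | h1
  exacts [⟨0, h1.symm⟩, ⟨1, h1.symm⟩, ⟨2, h1.symm⟩]

lemma _root_.DA.VisR.sg (h : VisR w δ₁ Om₂ u) (huv : wadj u v) :
    sgV w u v ∈ Seg w ∧ srow (sgV w u v) = s(u, v) :=
  sgV_spec huv (h.rect (by rw [sd_self]; omega)) (h.rect (wadj_sd huv).1)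

lemma wadj_ne {u v : ℕ × ℕ} (h : wadj u v) : u ≠ v := by
  rintro rfl
  have := wadj_par' h
  omega

/-- the end of a row -/
lemma at_srow : TST.At segNear segFar r u ↔ u ∈ srow r := by
  unfold TST.At
  rw [mem_srow]

/-- the other end of a row -/
lemma _root_.TST.At.other (hr : r ∈ Seg w) (h : TST.At segNear segFar r u) :
    ∃ v, wadj u v ∧ srow r = s(u, v) ∧ TST.At segNear segFar r v := by
  obtain ⟨h1, _, _⟩ := wadj_srow hr
  rcases h with rfl | rfl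
  · exact ⟨segFar r, h1, rfl, Or.inr rfl⟩
  · exact ⟨segNear r, wadj_swap h1, Sym2.eq_swap, Or.inl rfl⟩

lemma at_of_srow (h : srow r = s(u, v)) : TST.At segNear segFar r u ∧ TST.At segNear segFar r v := by
  rw [at_srow, at_srow, h]
  exact ⟨Sym2.mem_mk_left _ _, Sym2.mem_mk_right _ _⟩

end seg

/-! ### Rows -/

section rows

variable {α : Type u} {M : Matroid α} {w : ℕ} {L₁ : Bool × ℕ × ℕ → List α}
  {row : α → Sym2 (ℕ × ℕ)} {z x y : α} {u v : ℕ × ℕ} {r : Bool × ℕ × ℕ}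

/-- the elements of a row -/
def rwM (L₁ : Bool × ℕ × ℕ → List α) (r : Bool × ℕ × ℕ) : Set α := {x | x ∈ L₁ r}

lemma es_sees (S : Set α) : ES (Sees M S) = Er M S := by
  funext t x y
  unfold ES Sees Er
  rw [not_not]

lemma rw_eq (hrow : ∀ s ∈ Seg w, ∀ x ∈ L₁ s, row x = srow s) (hr : r ∈ Seg w)
    (h : srow r = s(u, v)) : rwM L₁ r = RX (crr L₁ (Seg w)) row u v := by
  ext x
  constructor
  · intro hx
    exact ⟨⟨r, hr, hx⟩, by rw [hrow r hr x hx, h]⟩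
  · rintro ⟨⟨s, hs, hx⟩, h1⟩
    rw [hrow s hs x hx, ← h] at h1
    rw [← srow_inj h1]
    exact hx

lemma seeR_iff (hrow : ∀ s ∈ Seg w, ∀ x ∈ L₁ s, row x = srow s) (hr : r ∈ Seg w)
    (h : srow r = s(u, v)) :
    SeeR (rwM L₁) (Sees M (crr L₁ (Seg w))) z r ↔ SeeP M (crr L₁ (Seg w)) row z u v := by
  unfold SeeR SeeP
  rw [rw_eq hrow hr h]
  constructor
  · rintro ⟨x, hx, y, hy, hxy, hs⟩
    refine ⟨x, hx, y, hy, ?_⟩
    rintro (h1 | h1)
    exacts [hxy h1, hs h1]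
  · rintro ⟨x, hx, y, hy, hn⟩
    unfold Er at hn
    push Not at hn
    exact ⟨x, hx, y, hy, hn.1, hn.2⟩

end rows

/-! ### Visible rows -/

section vis

variable {α : Type u} {M : Matroid α} {w : ℕ} {L₁ : Bool × ℕ × ℕ → List α} {D : Set α}
  {row : α → Sym2 (ℕ × ℕ)} {D₀ δ₁ D₁ : ℕ} {Hs₀ Hs₁ Om₂ : Finset (ℕ × ℕ)} {z x y : α}
  {u v : ℕ × ℕ} {V : Set (Bool × ℕ × ℕ)} {r r' : Bool × ℕ × ℕ}

/-- **visible rows**: rows of the wall; all rows at their ends have visible ends -/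
def VisV (w δ₁ : ℕ) (Om₂ : Finset (ℕ × ℕ)) (V : Set (Bool × ℕ × ℕ)) : Prop :=
  ∀ r ∈ V, r ∈ Seg w ∧ ∀ v ∈ srow r, VisR w δ₁ Om₂ v ∧ ∀ b, wadj v b → VisR w δ₁ Om₂ b

variable (M L₁ row w D D₀ Hs₀ V)

/-- far rungs -/
def frM : Set α :=
  {z | z ∈ D ∧ ∃ r ∈ V, ∃ r' ∈ V, (∀ v, TST.At segNear segFar r v → ¬ TST.At segNear segFar r' v) ∧
    SeeR (rwM L₁) (Sees M (crr L₁ (Seg w))) z r ∧ SeeR (rwM L₁) (Sees M (crr L₁ (Seg w))) z r'}

/-- same-row elements -/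
def trM (r : Bool × ℕ × ℕ) : Set α :=
  {z | z ∈ D ∧ z ∈ TRow M (crr L₁ (Seg w)) row w D₀ Hs₀ (segNear r) (segFar r)}

/-- elements which are local in the star of `u` -/
def tuM (u : ℕ × ℕ) : Set α := {z | z ∈ D ∧ z ∈ TStar M (crr L₁ (Seg w)) row w D₀ Hs₀ u}

/-- all locations of `z` off `u`, `v` are the neighbours of `u` -/
def DtY (z : α) (u v : ℕ × ℕ) : Prop :=
  ∀ c, YW M (crr L₁ (Seg w)) row w D₀ Hs₀ z c \ {u, v} = nst wadj u \ {u, v}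

/-- near rungs at `u`: elements which are local in the star of `u`, see a visible row at `u`, are not
local on this row and not degenerate (they see one, two or three rows at `u`) -/
def nrM (u : ℕ × ℕ) : Set α :=
  {z | (z ∈ D ∧ z ∈ TStar M (crr L₁ (Seg w)) row w D₀ Hs₀ u) ∧ ∃ r ∈ V,
    TST.At segNear segFar r u ∧ SeeR (rwM L₁) (Sees M (crr L₁ (Seg w))) z r ∧
    z ∉ trM M w L₁ D row D₀ Hs₀ r ∧ ∀ a b, srow r = s(a, b) → ¬ DtY M w L₁ row D₀ Hs₀ z a b}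

/-- elements which see exactly one visible row `r` -/
def oneM (z : α) (r : Bool × ℕ × ℕ) : Prop :=
  z ∈ D ∧ r ∈ V ∧ SeeR (rwM L₁) (Sees M (crr L₁ (Seg w))) z r ∧
    ∀ r' ∈ V, SeeR (rwM L₁) (Sees M (crr L₁ (Seg w))) z r' → r' = r

/-- degenerate tripods -/
def dtM : Set α :=
  {z | ∃ r, oneM M w L₁ D V z r ∧ ∃ u v, srow r = s(u, v) ∧ DtY M w L₁ row D₀ Hs₀ z u v}

/-- one-place elements, not local in the stars of the ends of their row -/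
def onM : Set α :=
  {z | ∃ r, oneM M w L₁ D V z r ∧ z ∉ trM M w L₁ D row D₀ Hs₀ r ∧
    ∀ u v, srow r = s(u, v) → ¬ DtY M w L₁ row D₀ Hs₀ z u v ∧
      z ∉ TStar M (crr L₁ (Seg w)) row w D₀ Hs₀ u}

open Classical in
/-- the row of an element which sees exactly one visible row -/
noncomputable def roM (z : α) : Bool × ℕ × ℕ :=
  if h : ∃ r, oneM M w L₁ D V z r then h.choose else (true, 0, 0)

open Classical in
/-- the centre of a degenerate tripod -/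
noncomputable def ctM (z : α) : ℕ × ℕ :=
  if h : ∃ u v, srow (roM M w L₁ D V z) = s(u, v) ∧ DtY M w L₁ row D₀ Hs₀ z u v then h.choose
  else (0, 0)

open Classical in
/-- the two rows of a far rung -/
noncomputable def fxM (z : α) : (Bool × ℕ × ℕ) × (Bool × ℕ × ℕ) :=
  if h : ∃ p : (Bool × ℕ × ℕ) × (Bool × ℕ × ℕ), p.1 ∈ V ∧ p.2 ∈ V ∧
      (∀ v, TST.At segNear segFar p.1 v → ¬ TST.At segNear segFar p.2 v) ∧
      SeeR (rwM L₁) (Sees M (crr L₁ (Seg w))) z p.1 ∧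
      SeeR (rwM L₁) (Sees M (crr L₁ (Seg w))) z p.2 then h.choose
  else ((true, 0, 0), (true, 0, 0))

/-- the rows of a far rung -/
noncomputable def rfM (z : α) (i : Bool) : Bool × ℕ × ℕ :=
  if i then (fxM M w L₁ V z).2 else (fxM M w L₁ V z).1

end vis

/-! ### The context -/

/-- **The context of R6**: two rounds, rows, elements in the closure of the wall, visible rows. -/
structure CtxM {α : Type u} (M : Matroid α) (w : ℕ) (L₁ : Bool × ℕ × ℕ → List α) (D : Set α)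
    (row : α → Sym2 (ℕ × ℕ)) (β D₀ δ₀ D₁ δ₁ : ℕ) (Hm Hs₀ Om₁ Hs₁ Om₂ : Finset (ℕ × ℕ))
    (V : Set (Bool × ℕ × ℕ)) : Prop where
  rnd : Rnd M (crr L₁ (Seg w)) row w D β D₀ δ₀ D₁ δ₁ Hm Hs₀ Om₁ Hs₁ Om₂
  rw : ∀ s ∈ Seg w, ∀ x ∈ L₁ s, row x = srow s
  cl : ∀ z ∈ D, z ∈ M.closure (crr L₁ (Seg w)) ∧ z ∉ crr L₁ (Seg w)
  vis : VisV w δ₁ Om₂ V
  hβ : 4 ≤ β

/-- the facts of the label level for `M` -/
def LabFactsM {α : Type u} (M : Matroid α) (w : ℕ) (L₁ : Bool × ℕ × ℕ → List α) (D : Set α)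
    (row : α → Sym2 (ℕ × ℕ)) (D₀ : ℕ) (Hs₀ : Finset (ℕ × ℕ)) (V : Set (Bool × ℕ × ℕ)) : Prop :=
  LabFacts3 (rwM L₁) V segNear segFar (Sees M (crr L₁ (Seg w))) D (frM M w L₁ D V)
    (onM M w L₁ D row D₀ Hs₀ V) (dtM M w L₁ D row D₀ Hs₀ V) (nrM M w L₁ D row D₀ Hs₀ V)
    (trM M w L₁ D row D₀ Hs₀) (tuM M w L₁ D row D₀ Hs₀) (Lr M (crr L₁ (Seg w)) row w)
    (fun r => Arw M (crr L₁ (Seg w)) row w (segNear r) (segFar r))
    (fun u => ASt M (crr L₁ (Seg w)) row w u (nbV u))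
    (fun t x y v => t ∈ M.closure (crr L₁ (Seg w) \ {x, y, v}))
    (fun u i => sgV w u (nbV u i)) nbV (rfM M w L₁ V) (roM M w L₁ D V)
    (ctM M w L₁ D row D₀ Hs₀ V)

section ctx

variable {α : Type u} {M : Matroid α} {w : ℕ} {L₁ : Bool × ℕ × ℕ → List α} {D : Set α}
  {row : α → Sym2 (ℕ × ℕ)} {β D₀ δ₀ D₁ δ₁ : ℕ} {Hm Hs₀ Om₁ Hs₁ Om₂ : Finset (ℕ × ℕ)}
  {V : Set (Bool × ℕ × ℕ)} {z x y : α} {u v : ℕ × ℕ} {r r' : Bool × ℕ × ℕ} {i j : Fin 3}

variable (h : CtxM M w L₁ D row β D₀ δ₀ D₁ δ₁ Hm Hs₀ Om₁ Hs₁ Om₂ V)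
include h

/-- a visible row with one end: the other end, the leg, visible vertices -/
lemma CtxM.end_row (hr : r ∈ V) (hu : TST.At segNear segFar r u) :
    ∃ v i, wadj u v ∧ nbV u i = v ∧ srow r = s(u, v) ∧ sgV w u (nbV u i) = r ∧
      VisR w δ₁ Om₂ u ∧ VisR w δ₁ Om₂ v ∧ (∀ b, wadj u b → VisR w δ₁ Om₂ b) ∧
      ∀ b, wadj v b → VisR w δ₁ Om₂ b := by
  obtain ⟨hrS, h1⟩ := h.vis r hr
  obtain ⟨v, huv, hrow, hv⟩ := hu.other hrS
  have hu' := h1 u (at_srow.1 hu)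
  have hv' := h1 v (at_srow.1 hv)
  obtain ⟨i, hi⟩ := hu'.1.nb_all huv
  refine ⟨v, i, huv, hi, hrow, ?_, hu'.1, hv'.1, hu'.2, hv'.2⟩
  rw [hi]
  exact sgV_row hrS hrow

/-- the row of a leg -/
lemma CtxM.leg (hu : VisR w δ₁ Om₂ u) (i : Fin 3) :
    sgV w u (nbV u i) ∈ Seg w ∧ srow (sgV w u (nbV u i)) = s(u, nbV u i) ∧
      rwM L₁ (sgV w u (nbV u i)) = SX (crr L₁ (Seg w)) row u (nbV u) i := by
  obtain ⟨h1, h2⟩ := hu.sg (hu.nb_adj i)
  exact ⟨h1, h2, rw_eq h.rw h1 h2⟩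

/-- seen rows -/
lemma CtxM.see_iff (hr : r ∈ V) (hrow : srow r = s(u, v)) :
    SeeR (rwM L₁) (Sees M (crr L₁ (Seg w))) z r ↔ SeeP M (crr L₁ (Seg w)) row z u v :=
  seeR_iff h.rw (h.vis r hr).1 hrow

lemma CtxM.see_ends (hr : r ∈ V) :
    SeeR (rwM L₁) (Sees M (crr L₁ (Seg w))) z r ↔
      SeeP M (crr L₁ (Seg w)) row z (segNear r) (segFar r) := h.see_iff hr rfl

end ctx

end TSH
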