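import Pool.Agent.TST.GDef
import Pool.Agent.TST.Kind74

/-!
# The kinds of the elements of `D` (`LabM`) from a system (T-star, helper94)

`reg_ball`: everything within distance 20 of a visible vertex is regular.  `labM`: `LabM` for every set
`Dg` which contains the elements which see a visible row.
-/

set_option autoImplicit false

open Set BIC BICS CWL
open scoped Matroid

namespace TSH

universe u

open Mdl Mdj EN Gad TST EN.Wall DA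

/-- everything near a visible vertex is regular -/
lemma reg_ball {α : Type u} {M : Matroid α} {S : Set α} {row : α → Sym2 (ℕ × ℕ)} {w : ℕ}
    {D : Set α} {β D₀ δ₀ D₁ δ₁ : ℕ} {Hm Hs₀ Om₁ Hs₁ Om₂ : Finset (ℕ × ℕ)}
    (h : DA.Rnd M S row w D β D₀ δ₀ D₁ δ₁ Hm Hs₀ Om₁ Hs₁ Om₂) {a x : ℕ × ℕ}
    (ha : OutW (δ₁ + 60) w Om₂ a) (hx : sd a x ≤ 20) : RegW w D₀ Hs₀ x := by
  obtain ⟨l1, l2, l3, l4⟩ := h.le
  have hd := ha.1
  have hx' := sd_le.1 hx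
  have hxd : DeepR (0, 0) (w + 1) (w + 1) (δ₁ + 40) x := by
    unfold DeepR at hd ⊢
    simp only at hd ⊢
    omega
  refine ⟨?_, fun hxH => ?_⟩
  · unfold DeepR at hxd ⊢
    simp only at hxd ⊢
    omega
  · have h1 : x ∈ Hs₁ := by
      refine h.ball₁ x (h.sub₀ hxH) x ?_ ?_ (by rw [sd_self]; omega)
      · unfold DeepR at hxd
        simp only at hxd
        omega
      · unfold DeepR at hxd
        simp only at hxd
        omega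
    have h2 := apart_iff.1 (ha.2 x (h.sub₁ h1))
    omega

/-- **`LabM`.** -/
theorem labM {α : Type u} {M : Matroid α} [M.Finite] {w s : ℕ} {𝒯 : Finset (ℕ × ℕ)}
    {L₁ : Bool × ℕ × ℕ → List α} {f₁ : α → Sym2 ((ℕ × ℕ) ⊕ α)} {e₁ : Bool × ℕ × ℕ → α} {u₁ : ℕ}
    {L₂ : Bool × ℕ × ℕ → List α} {f₂ : α → Sym2 ((ℕ × ℕ) ⊕ α)} {e₂ : Bool × ℕ × ℕ → α} {u₂ : ℕ}
    {D : Set α} {σ N m : ℕ} {τ : ℕ → ℕ × ℕ} {R : ℕ → Bool × ℕ × ℕ} {c : ℕ → ℕ → α}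
    {Za : Finset (Bool × ℕ × ℕ)} {row : α → Sym2 (ℕ × ℕ)} {β D₀ δ₀ D₁ δ₁ : ℕ}
    {Hm Hs₀ Om₁ Hs₁ Om₂ : Finset (ℕ × ℕ)}
    (hG : GSys M w s 𝒯 L₁ f₁ e₁ u₁ L₂ f₂ e₂ u₂ D σ N m τ R c Za row β D₀ δ₀ D₁ δ₁ Hm Hs₀ Om₁ Hs₁ Om₂)
    {Bd : Set (ℕ × ℕ)} {Zq Zr LR : Set (Bool × ℕ × ℕ)} (hZ : Zq ⊆ Zr) (hZL : Zr ⊆ LR)
    (hLS : LR ⊆ Seg w)
    (hout : ∀ r ∈ Seg w, r ∉ Zq →
      DA.OutW (δ₁ + 60) w Om₂ (segNear r) ∧ DA.OutW (δ₁ + 60) w Om₂ (segFar r))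
    (hbd : ∀ r ∈ Seg w, ∀ v ∈ Bd, DA.sd (segNear r) v ≤ 3 ∨ DA.sd (segFar r) v ≤ 3 → r ∈ LR)
    {Dg : Set α} (hDg : ∀ d ∈ D, ∀ r ∈ Seg w, r ∉ LR → segNear r ∉ VV LR → segFar r ∉ VV LR →
      ∀ x ∈ L₁ r, ∀ y ∈ L₁ r, x ≠ y → Sees M (crr L₁ (Seg w)) d x y → d ∈ Dg) :
    ∃ (G : Set α) (r₀ : α → Bool × ℕ × ℕ) (A₀ : α → Set α),
      LabM M w L₁ D row D₀ Hs₀ Bd Zr LR Dg G r₀ A₀ := by
  classical
  have hS : GSide M (Seg w) L₁ f₁ e₁ u₁ := hG.b.pair.s₁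
  have hR := hG.rnd
  obtain ⟨l1, l2, l3, l4⟩ := hR.le
  obtain ⟨Bad, hBad⟩ : ∃ Bad : Set (ℕ × ℕ), Bad = Bd ∪ {v | ¬ ∀ x, sd v x ≤ 6 → RegW w D₀ Hs₀ x} :=
    ⟨_, rfl⟩
  have hBad1 : ∀ v, v ∉ Bad → ∀ x, sd v x ≤ 6 → RegW w D₀ Hs₀ x := by
    intro v hv
    by_contra hcon
    exact hv (by rw [hBad]; exact Or.inr hcon)
  have hfar : ∀ r ∈ Seg w, r ∉ Zq → ∀ a, (segNear r = a ∨ segFar r = a) →
      OutW (δ₁ + 60) w Om₂ a := by
    rintro r hr hrZ a (rfl | rfl)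
    exacts [(hout r hr hrZ).1, (hout r hr hrZ).2]
  have hLR1 : ∀ r ∈ Seg w, r ∉ LR → ∀ a, (segNear r = a ∨ segFar r = a) → ∀ b ∈ Bad,
      4 ≤ sd a b := by
    intro r hr hrL a ha b hb
    by_contra hcon
    rw [hBad] at hb
    rcases hb with hb | hb
    · refine hrL (hbd r hr b hb ?_)
      rcases ha with rfl | rfl
      · exact Or.inl (by omega)
      · exact Or.inr (by omega)
    · refine hb fun x hx => reg_ball hR (hfar r hr (fun h1 => hrL (hZL (hZ h1))) a ha) (x := x) ?_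
      have h2 : sd a x ≤ sd a b + sd b x := sd_tri
      omega
  have hvc : ∀ v, RegW w D₀ Hs₀ v → VC M (crr L₁ (Seg w)) row w v := fun v hv => hR.vc v hv.1 hv.2
  obtain ⟨G, hGd⟩ : ∃ G : Set α, G = {z | z ∈ D ∧ ∃ r A, OnP M w L₁ LR z r A} := ⟨_, rfl⟩
  have hch : ∀ z, ∃ (r : Bool × ℕ × ℕ) (A : Set α), z ∈ G → OnP M w L₁ LR z r A := by
    intro z
    by_cases hz : z ∈ G
    · have hz' := hz
      rw [hGd] at hz'
      obtain ⟨-, r, A, h1⟩ := hz'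
      exact ⟨r, A, fun _ => h1⟩
    · exact ⟨(true, 0, 0), ∅, fun h1 => absurd h1 hz⟩
  choose r₀ A₀ hA₀ using hch
  refine ⟨G, r₀, A₀, ⟨fun z hz => by rw [hGd] at hz; exact hz.1, hA₀, ?_⟩⟩
  intro d hd r hr hrL hn hf x hx y hy hxy hs
  refine ⟨hDg d hd r hr hrL hn hf x hx y hy hxy hs, ?_⟩
  have hdcl : d ∈ M.closure (crr L₁ (Seg w)) := hG.b.D_cl hd
  have hon : ∀ A, OnP M w L₁ LR d r A → d ∈ G := fun A h1 => by
    rw [hGd]
    exact ⟨hd, r, A, h1⟩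
  rcases sees_kind hG.rw hS hR.wal (by omega) hvc hdcl (hR.two d hd).1 hBad1 hLR1 hr hrL hx hy hxy
    hs with ⟨N', hN, hNB, hNs, c₀, hc₀, hW₀, htw⟩ | ⟨A, hA⟩
  · by_cases hsee : ∀ r' ∈ LR, r' ∉ Zr → ∀ x' ∈ L₁ r', ∀ y' ∈ L₁ r', x' ≠ y' →
        ¬ Sees M (crr L₁ (Seg w)) d x' y'
    · refine Or.inl ⟨⟨⟨N', by omega, fun v hv hvB => hNB v hv (by rw [hBad]; exact Or.inl hvB), ?_⟩,
        c₀, hc₀, hW₀, ?_⟩, hsee⟩
      · exact fun c hc hW v hv hvr => hNs c hc hW v hv hvr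
      · rcases htw with ⟨a, b, hab, hY⟩ | ⟨v₀, hY⟩
        · have ha : a ∈ {v | v ∈ LocR M (crr L₁ (Seg w)) row c₀ d ∧ RegW w D₀ Hs₀ v} := by
            rw [hY]
            exact Or.inl rfl
          have hb : b ∈ {v | v ∈ LocR M (crr L₁ (Seg w)) row c₀ d ∧ RegW w D₀ Hs₀ v} := by
            rw [hY]
            exact Or.inr rfl
          exact ⟨a, b, hab, ha.1, ha.2, hb.1, hb.2⟩
        · have ha : v₀ ∈ {v | v ∈ LocR M (crr L₁ (Seg w)) row c₀ d ∧ RegW w D₀ Hs₀ v} := by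
            rw [hY]
            exact self_mem_star v₀
          have hb : (v₀.1 + 1, v₀.2) ∈ {v | v ∈ LocR M (crr L₁ (Seg w)) row c₀ d ∧
              RegW w D₀ Hs₀ v} := by
            rw [hY]
            unfold DA.star
            simp
          refine ⟨v₀, (v₀.1 + 1, v₀.2), ?_, ha.1, ha.2, hb.1, hb.2⟩
          intro h1
          have := congrArg Prod.fst h1
          simp only at this
          omega
    · push Not at hsee
      obtain ⟨r', hr'L, hr'Z, x', hx', y', hy', _, hs'⟩ := hsee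
      have hr' := hLS hr'L
      obtain ⟨A, hA⟩ := sees_far hG.rw hS hR.wal (by omega) hvc hdcl (hR.two d hd).1
        (fun r'' h1 h2 => ⟨reg_ball hR (hfar r'' h1 (fun h3 => h2 (hZL (hZ h3))) _ (Or.inl rfl))
          (by rw [sd_self]; omega), reg_ball hR (hfar r'' h1 (fun h3 => h2 (hZL (hZ h3))) _
          (Or.inr rfl)) (by rw [sd_self]; omega)⟩) hr hrL hr' hr'L (by
          rintro a ha x hx
          refine reg_ball hR ?_ (hx.trans (by omega))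
          rcases ha with ha | ha | ha | ha
          · exact hfar r hr (fun h3 => hrL (hZL (hZ h3))) a (Or.inl ha)
          · exact hfar r hr (fun h3 => hrL (hZL (hZ h3))) a (Or.inr ha)
          · exact hfar r' hr' (fun h3 => hr'Z (hZ h3)) a (Or.inl ha)
          · exact hfar r' hr' (fun h3 => hr'Z (hZ h3)) a (Or.inr ha)) hn hf hx hy hxy hs hx' hy' hs'
      exact Or.inr (hon A hA)
  · exact Or.inr (hon A hA)

end TSH
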