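import Pool.Agent.TST.LabP77

/-!
# Facts of the label level for `M`: near rungs and one-place elements (R6 of T-star, helper77)
-/

set_option autoImplicit false
set_option linter.unusedSectionVars false

open Set BIC BICS CWL
open scoped Matroid

namespace TSH

universe u

open DA TST

section ctx

variable {α : Type u} {M : Matroid α} {w : ℕ} {L₁ : Bool × ℕ × ℕ → List α} {D : Set α}
  {row : α → Sym2 (ℕ × ℕ)} {β D₀ δ₀ D₁ δ₁ : ℕ} {Hm Hs₀ Om₁ Hs₁ Om₂ : Finset (ℕ × ℕ)}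
  {V : Set (Bool × ℕ × ℕ)} {z x y : α} {u v : ℕ × ℕ} {r r' : Bool × ℕ × ℕ} {i j : Fin 3}

variable (h : CtxM M w L₁ D row β D₀ δ₀ D₁ δ₁ Hm Hs₀ Om₁ Hs₁ Om₂ V) [M.Finite]
include h

/-- a (ONE) element -/
lemma CtxM.oneE_of (hzD : z ∈ D) (hr : r ∈ V) (hrow : srow r = s(u, v))
    (hs : SeeR (rwM L₁) (Sees M (crr L₁ (Seg w))) z r)
    (ho : ∀ p q, wadj p q → VisR w δ₁ Om₂ p → VisR w δ₁ Om₂ q →
      SeeP M (crr L₁ (Seg w)) row z p q → s(p, q) = s(u, v))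
    (h1 : z ∉ trM M w L₁ D row D₀ Hs₀ r)
    (h2 : ∀ p q, srow r = s(p, q) → ¬ DtY M w L₁ row D₀ Hs₀ z p q) :
    OneE M (crr L₁ (Seg w)) row w D₀ δ₁ Hs₀ Om₂ u v z := by
  refine ⟨h.cl z hzD, (h.see_iff hr hrow).1 hs, ho, h2 u v hrow, ?_, ?_⟩
  · have h3 := h2 v u (hrow.trans Sym2.eq_swap)
    unfold DtY at h3
    rwa [pair_comm] at h3
  · intro h3
    refine h1 ⟨hzD, (mem_TRow₀ _ _).2 ⟨h.cl z hzD, fun c x hx => ?_⟩⟩
    have h4 := h3 c hx
    have h5 : x ∈ srow r := by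
      rw [hrow]
      rcases h4 with h4 | h4
      · rw [h4]; exact Sym2.mem_mk_left _ _
      · rw [mem_singleton_iff.1 h4]; exact Sym2.mem_mk_right _ _
    unfold srow at h5
    rcases Sym2.mem_iff.1 h5 with h6 | h6
    · exact Or.inl h6
    · exact Or.inr h6

/-- the row of a leg -/
lemma CtxM.leg_row (hr : r ∈ V) (hu : TST.At segNear segFar r u) (hi : sgV w u (nbV u i) = r) :
    srow r = s(u, nbV u i) ∧ wadj u (nbV u i) ∧ VisR w δ₁ Om₂ u ∧ VisR w δ₁ Om₂ (nbV u i) ∧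
      ∀ b, wadj u b → VisR w δ₁ Om₂ b := by
  obtain ⟨v, i', huv, hi', hrow, hsg, hvu, hvv, hbu, -⟩ := h.end_row hr hu
  refine ⟨?_, hvu.nb_adj i, hvu, hbu _ (hvu.nb_adj i), hbu⟩
  rw [← hi]
  exact (h.leg hvu i).2.1

/-- **The classes of a near rung.** -/
theorem CtxM.awN : ∀ r ∈ V, ∀ u, TST.At segNear segFar r u → ∀ i, sgV w u (nbV u i) = r →
    ∀ z ∈ nrM M w L₁ D row D₀ Hs₀ V u, SeeR (rwM L₁) (Sees M (crr L₁ (Seg w))) z r →
    ∀ x ∈ rwM L₁ r, (x ∈ Arw M (crr L₁ (Seg w)) row w (segNear r) (segFar r) z ↔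
      (segNear r = u ∧ x ∉ Lr M (crr L₁ (Seg w)) row w (nbV u i) z) ∨
      (segNear r ≠ u ∧ x ∈ Lr M (crr L₁ (Seg w)) row w (nbV u i) z)) := by
  intro r hr u hu i hi z hz hs x hx
  obtain ⟨hrow, huv, hvu, hvv, hbu⟩ := h.leg_row hr hu hi
  have hzD : z ∈ D := hz.1.1
  have hcl := h.cl z hzD
  have hsee := (h.see_iff hr hrow).1 hs
  have key : (x ∈ Arw M (crr L₁ (Seg w)) row w u (nbV u i) z ↔
        x ∉ Lr M (crr L₁ (Seg w)) row w (nbV u i) z) ∧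
      (x ∈ Arw M (crr L₁ (Seg w)) row w (nbV u i) u z ↔
        x ∈ Lr M (crr L₁ (Seg w)) row w (nbV u i) z) := by
    by_cases hex : ∃ a, wadj u a ∧ a ≠ nbV u i ∧ SeeP M (crr L₁ (Seg w)) row z u a
    · obtain ⟨a, hua, hav, hsa⟩ := hex
      obtain ⟨_, _, h3, h4⟩ := h.rnd.awN51 hzD hcl huv hvu hvv hsee hua hav hsa
      exact ⟨h3 x, h4 x⟩
    · push Not at hex
      obtain ⟨h1, h2⟩ := h.near_row hz hr hs
      have hT := (h.rnd.locT hzD hcl.1).toLocS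
      have hE : OneE M (crr L₁ (Seg w)) row w D₀ δ₁ Hs₀ Om₂ u (nbV u i) z := by
        refine h.oneE_of hzD hr hrow hs (fun p q hpq hp hq hspq => ?_) h1 h2
        have key : ∀ q, wadj u q → SeeP M (crr L₁ (Seg w)) row z u q → s(u, q) = s(u, nbV u i) := by
          intro q h3 h4
          by_cases h5 : q = nbV u i
          · rw [h5]
          · exact absurd h4 (hex q h3 h5)
        rcases hT.star_rows51 hvu (mem_tStar₀.1 hz.1.2).2 hpq
          ((h.rnd.sn_iff hcl.1 (h.rnd.reg hp)).2 hspq) with rfl | rfl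
        · exact key q hpq hspq
        · rw [Sym2.eq_swap]
          exact key p (wadj_swap hpq) (seeP_symm hspq)
      obtain ⟨y, hL⟩ := h.rnd.likeE hzD huv hvu hvv hbu hE hz.1.2
      have h3 := h.rnd.like_cls hL hzD huv hvu hvv
      have hx' : x ∈ RX (crr L₁ (Seg w)) row u (nbV u i) := by
        rw [← rw_eq h.rw (h.vis r hr).1 hrow]
        exact hx
      refine ⟨by rw [(h3 x hx').2, not_not], ?_⟩
      have h4 := (h.rnd.like_quiet hL huv hvu hvv).2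
      rw [Arw, if_pos h4]
  have hne := wadj_ne huv
  unfold srow at hrow
  rcases Sym2.eq_iff.1 hrow with ⟨h3, h4⟩ | ⟨h3, h4⟩
  · rw [h3, h4, key.1]
    constructor
    · exact fun h5 => Or.inl ⟨rfl, h5⟩
    · rintro (h5 | h5)
      · exact h5.2
      · exact absurd rfl h5.1
  · rw [h3, h4, key.2]
    constructor
    · exact fun h5 => Or.inr ⟨hne.symm, h5⟩
    · rintro (h5 | h5)
      · exact absurd h5.1.symm hne
      · exact h5.2

/-- **Kinds of the one-place elements**: rungs whose other row is not in `V`, or (ONE) elements -/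
lemma CtxM.on_kind (hz : z ∈ onM M w L₁ D row D₀ Hs₀ V) (hr : r ∈ V)
    (hs : SeeR (rwM L₁) (Sees M (crr L₁ (Seg w))) z r) (hrow : srow r = s(u, v)) :
    z ∈ D ∧ z ∉ TStar M (crr L₁ (Seg w)) row w D₀ Hs₀ u ∧
      z ∉ TStar M (crr L₁ (Seg w)) row w D₀ Hs₀ v ∧
      (∀ r' ∈ V, SeeR (rwM L₁) (Sees M (crr L₁ (Seg w))) z r' → r' = r) ∧
      ((∃ p q, FarW M (crr L₁ (Seg w)) row w D₀ δ₁ Hs₀ Om₂ u v p q z) ∨
        OneE M (crr L₁ (Seg w)) row w D₀ δ₁ Hs₀ Om₂ u v z) := by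
  obtain ⟨r₁, h1, h2, h3⟩ := hz
  have e : r = r₁ := h1.2.2.2 r hr hs
  subst e
  obtain ⟨huv, ⟨hu, hu'⟩, ⟨hv, hv'⟩⟩ := h.vends hr hrow
  have hzD : z ∈ D := h1.1
  have hcl := h.cl z hzD
  have hsee := (h.see_iff hr hrow).1 hs
  have hTu := (h3 u v hrow).2
  have hTv := (h3 v u (hrow.trans Sym2.eq_swap)).2
  refine ⟨hzD, hTu, hTv, h1.2.2.2, ?_⟩
  by_cases hex : ∃ p q, wadj p q ∧ VisR w δ₁ Om₂ p ∧ VisR w δ₁ Om₂ q ∧
      SeeP M (crr L₁ (Seg w)) row z p q ∧ s(p, q) ≠ s(u, v)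
  · left
    obtain ⟨p, q, hpq, hp, hq, hsp, hne⟩ := hex
    rcases h.rnd.rungK_of hcl huv hu hv hpq hp hq hsp hne with h4 | ⟨a, h4⟩ | ⟨a, h4⟩
    · exact h4
    · exact absurd (h.rnd.nearW_tStar hzD hcl huv hu hv hsee h4) hTu
    · exact absurd (h.rnd.nearW_tStar hzD hcl (wadj_swap huv) hv hu (seeP_symm hsee) h4) hTv
  · right
    push Not at hex
    exact h.oneE_of hzD hr hrow hs hex h2 fun p q hpq => (h3 p q hpq).1

/-- **The classes of a one-place element.** -/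
theorem CtxM.one_cls : ∀ d ∈ onM M w L₁ D row D₀ Hs₀ V, ∀ r ∈ V,
    SeeR (rwM L₁) (Sees M (crr L₁ (Seg w))) d r → ∀ x ∈ rwM L₁ r, ∀ y ∈ rwM L₁ r,
      (ES (Sees M (crr L₁ (Seg w))) d x y ↔
        (x ∈ Arw M (crr L₁ (Seg w)) row w (segNear r) (segFar r) d ↔
          y ∈ Arw M (crr L₁ (Seg w)) row w (segNear r) (segFar r) d)) := by
  intro d hd r hr hs x hx y hy
  obtain ⟨huv, ⟨hu, -⟩, ⟨hv, -⟩⟩ := h.vends hr (u := segNear r) (v := segFar r) rfl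
  obtain ⟨hdD, -, -, -, hk⟩ := h.on_kind hd hr hs (u := segNear r) (v := segFar r) rfl
  have hsee := (h.see_ends hr).1 hs
  rw [rw_eq h.rw (h.vis r hr).1 (u := segNear r) (v := segFar r) rfl] at hx hy
  rw [es_sees]
  rcases hk with ⟨p, q, hF⟩ | hE
  · exact h.rnd.on2_cls hdD (h.cl d hdD).1 huv hu hv hsee (Or.inl ⟨p, q, hF⟩) x hx y hy
  · exact h.rnd.oneE_place hdD huv hu hv hE x hx y hy

end ctx

end TSH
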