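import Pool.Agent.TST.LabQ77
import Pool.Agent.DA.AwE33
import Pool.Agent.DA.NearOne

/-!
# Row fields of the label level for `M` (R6 of T-star, helper33)

`CtxM.wB`, `CtxM.wD` = the fields `wB`, `wD` of `LabFacts3` for `M`, literally; `CtxM.wB'`, `CtxM.wD'` = the
same with any set of elements which are local on the row in round 1; `CtxM.awE` = the field `awE`.
`CtxM.sex33` = the rungs which are not near at `u` are exits of the star of `u`.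
-/

set_option autoImplicit false

open Set BIC BICS CWL
open scoped Matroid

namespace DA

section

variable {α : Type*} {P : Matroid α} {S : Set α} {row : α → Sym2 (ℕ × ℕ)} {w : ℕ} {Dd : Set α}
  {β D₀ δ₀ D₁ δ₁ : ℕ} {Hm Hs₀ Om₁ Hs₁ Om₂ : Finset (ℕ × ℕ)} {u v : ℕ × ℕ} {z z' : α}
  {V : Fin 3 → ℕ × ℕ} {i : Fin 3}

/-- the two orientations of a row -/
theorem Rnd.arw_swap [P.Finite] (h : Rnd P S row w Dd β D₀ δ₀ D₁ δ₁ Hm Hs₀ Om₁ Hs₁ Om₂)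
    (hβ : 4 ≤ β) (hz : z ∈ Dd) (hcl : z ∈ P.closure S ∧ z ∉ S)
    (huv : wadj u v) (hu : VisR w δ₁ Om₂ u) (hv : VisR w δ₁ Om₂ v) (hsee : SeeP P S row z u v)
    (hx : RowX P S row w D₀ δ₁ Hs₀ Om₂ u v z) {x : α} (hxX : x ∈ RX S row u v) :
    x ∈ Arw P S row w v u z ↔ x ∉ Arw P S row w u v z := by
  by_cases q1 : Quiet P S row u v z
  · by_cases q2 : Quiet P S row v u z
    · rw [Arw, if_pos q2, Arw, if_pos q1]
      exact h.lr_compl hβ hz hcl.1 hcl.2 huv hu hv hsee hx q1 q2 hxX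
    · rw [Arw, if_neg q2, Arw, if_pos q1, mem_compl_iff]
  · have q2 : Quiet P S row v u z := hx.quiet.resolve_left q1
    rw [Arw, if_pos q2, Arw, if_neg q1, mem_compl_iff, not_not]

/-- exits of a row, the other orientation -/
lemma RowX.symm (hx : RowX P S row w D₀ δ₁ Hs₀ Om₂ u v z) :
    RowX P S row w D₀ δ₁ Hs₀ Om₂ v u z := by
  obtain ⟨h1, ⟨c, y, h2, h3, h4⟩, h5⟩ := hx
  refine ⟨h1, ⟨c, y, ?_, h3, ?_⟩, h5.symm⟩
  · rw [pair_comm]; exact h2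
  · rw [insert_comm]; exact h4

/-- **The classes of an exit of the star of `u` on the leg `i`.** -/
theorem Rnd.awX33 [P.Finite] (h : Rnd P S row w Dd β D₀ δ₀ D₁ δ₁ Hm Hs₀ Om₁ Hs₁ Om₂)
    (hβ : 4 ≤ β) (hz : z ∈ Dd) (hcl : z ∈ P.closure S ∧ z ∉ S) (hu : VisR w δ₁ Om₂ u)
    (hnb : Nb3 u (V 0) (V 1) (V 2)) (hw : SEx P S row w D₀ δ₁ Hs₀ Om₂ u z)
    (hs : SeeP P S row z u (V i)) :
    ∀ x ∈ SX S row u V i, (x ∈ Arw P S row w u (V i) z ↔ x ∉ ASt P S row w u V z i) ∧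
      (x ∈ Arw P S row w (V i) u z ↔ x ∈ ASt P S row w u V z i) := by
  have hu1 := h.w1.one_le hu
  have hT := (h.locT hz hcl.1).toLocS
  obtain ⟨-, hclean, v, huv, hv, hs', c, y, hy, hyc, hsub⟩ := hw
  have hex := h.exit1 hβ hz hcl.1 hcl.2 huv hu hv hs' hclean hy hyc hsub
  obtain ⟨hq, hzr, hsee, -⟩ := h.w1.exA hT (fun x hx => h.reg01 hx) hu hu hv huv hs' hnb hex hsub
  have hiv : V i = v := by
    by_contra hne
    exact hy (hT.near_of_two huv hu hv hs' (nb3_adj hnb i) ((h.sn_iff hcl.1 (h.reg hu)).2 hs)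
      (Ne.symm hne) c hyc)
  subst hiv
  intro x hx
  have h1 := (h.w1.ar_leg hu huv c.2.1 c.2.2 hzr hq hsee hx).2
  have h2 : x ∈ ASt P S row w u V z i ↔ x ∉ Lr P S row w u z := ⟨fun h3 => h3 hsee, fun h3 _ => h3⟩
  have h3 : x ∈ Arw P S row w u (V i) z ↔ x ∈ Lr P S row w u z := by rw [Arw, if_pos hq]
  refine ⟨?_, h1.trans h2.symm⟩
  rw [h3, h2, not_not]

end

/-- **The rungs of the visible row `u v`** in the big sense: also near-like elements -/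
def RungN {α : Type*} (P : Matroid α) (S : Set α) (row : α → Sym2 (ℕ × ℕ)) (w D₀ δ₁ : ℕ)
    (Hs₀ Om₂ : Finset (ℕ × ℕ)) (u v : ℕ × ℕ) (z : α) : Prop :=
  RungK P S row w D₀ δ₁ Hs₀ Om₂ u v z ∨ (∃ y, LikeE P S row w D₀ δ₁ Hs₀ Om₂ u v y z) ∨
    ∃ y, LikeE P S row w D₀ δ₁ Hs₀ Om₂ v u y z

/-- near at `u` -/
def NearN {α : Type*} (P : Matroid α) (S : Set α) (row : α → Sym2 (ℕ × ℕ)) (w D₀ δ₁ : ℕ)
    (Hs₀ Om₂ : Finset (ℕ × ℕ)) (u v : ℕ × ℕ) (z : α) : Prop :=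
  (∃ a, NearW P S row w D₀ δ₁ Hs₀ Om₂ u v a z) ∨ ∃ y, LikeE P S row w D₀ δ₁ Hs₀ Om₂ u v y z

section rnd

variable {α : Type*} {P : Matroid α} {S : Set α} {row : α → Sym2 (ℕ × ℕ)} {w : ℕ} {Dd : Set α}
  {β D₀ δ₀ D₁ δ₁ : ℕ} {Hm Hs₀ Om₁ Hs₁ Om₂ : Finset (ℕ × ℕ)} {u v : ℕ × ℕ} {z z' : α}
  {T : Set α}

variable [P.Finite] (h : Rnd P S row w Dd β D₀ δ₀ D₁ δ₁ Hm Hs₀ Om₁ Hs₁ Om₂)
include h

theorem Rnd.rungN_x (hz : z ∈ Dd) (hcl : z ∈ P.closure S) (huv : wadj u v)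
    (hu : VisR w δ₁ Om₂ u) (hv : VisR w δ₁ Om₂ v) (hsee : SeeP P S row z u v)
    (hk : RungN P S row w D₀ δ₁ Hs₀ Om₂ u v z) : RowX P S row w D₀ δ₁ Hs₀ Om₂ u v z := by
  rcases hk with hk | ⟨y, hl⟩ | ⟨y, hl⟩
  · exact h.rung_x hz hcl huv hu hv hsee hk
  · exact h.like_rowX hl huv hu hv
  · exact (h.like_rowX hl (wadj_swap huv) hv hu).symm

/-- a rung which is not near at `u` is an exit of the star of `u` -/
theorem Rnd.sexN (hz : z ∈ Dd) (hcl : z ∈ P.closure S ∧ z ∉ S) (huv : wadj u v)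
    (hu : VisR w δ₁ Om₂ u) (hv : VisR w δ₁ Om₂ v) (hsee : SeeP P S row z u v)
    (hk : RungN P S row w D₀ δ₁ Hs₀ Om₂ u v z) (hn : ¬ NearN P S row w D₀ δ₁ Hs₀ Om₂ u v z) :
    SEx P S row w D₀ δ₁ Hs₀ Om₂ u z := by
  rcases hk with (⟨p, q, hf⟩ | hf | ⟨a, hf⟩) | hl | ⟨y, hl⟩
  · exact h.sex_wu hz hcl hu ⟨v, Or.inl (h.farAt_of_farW hcl.1 huv hv hsee hf)⟩
  · exact absurd (Or.inl hf) hn
  · exact h.sex_wu hz hcl hu
      ⟨v, Or.inr (h.nearAt_of_nearW hcl.1 (wadj_swap huv) hv (seeP_symm hsee) hf)⟩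
  · exact absurd (Or.inr hl) hn
  · exact h.like_sex hl (wadj_swap huv) hv hu hz

omit h [P.Finite] in
lemma SEx.hex {δ : ℕ} (hx : SEx P S row w D₀ δ Hs₀ Om₂ u z) :
    ∃ (c : ChW S row w) (y : ℕ × ℕ), y ∉ nst wadj u ∧ y ∈ YW P S row w D₀ Hs₀ z c ∧
      YW P S row w D₀ Hs₀ z c ⊆ insert y (nst wadj u) := by
  obtain ⟨-, -, -, -, -, -, h1⟩ := hx
  exact h1

/-- **Pairs of rungs** in the big sense -/
theorem Rnd.rungN_pr (hβ : 4 ≤ β) (hz : z ∈ Dd) (hcl : z ∈ P.closure S ∧ z ∉ S)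
    (hz' : z' ∈ Dd) (hcl' : z' ∈ P.closure S ∧ z' ∉ S)
    (huv : wadj u v) (hu : VisR w δ₁ Om₂ u) (hv : VisR w δ₁ Om₂ v) (hsee : SeeP P S row z u v)
    (hsee' : SeeP P S row z' u v) (hk : RungN P S row w D₀ δ₁ Hs₀ Om₂ u v z)
    (hk' : RungN P S row w D₀ δ₁ Hs₀ Om₂ u v z')
    (nu : NearN P S row w D₀ δ₁ Hs₀ Om₂ u v z → NearN P S row w D₀ δ₁ Hs₀ Om₂ u v z' → False)
    (nv : NearN P S row w D₀ δ₁ Hs₀ Om₂ v u z → NearN P S row w D₀ δ₁ Hs₀ Om₂ v u z' → False)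
    (nf : ∀ p q, FarW P S row w D₀ δ₁ Hs₀ Om₂ u v p q z → FarW P S row w D₀ δ₁ Hs₀ Om₂ u v p q z' →
      ¬ TST.EqOn (RX S row p q) (Arw P S row w p q z) (Arw P S row w p q z')) :
    Pr2 wadj u v (YW P S row w D₀ Hs₀ z) (YW P S row w D₀ Hs₀ z') := by
  have hsv := seeP_symm hsee
  have hsv' := seeP_symm hsee'
  have sw : ∀ {z}, RungN P S row w D₀ δ₁ Hs₀ Om₂ u v z → RungN P S row w D₀ δ₁ Hs₀ Om₂ v u z := by
    rintro z ((⟨p, q, hf⟩ | hf | hf) | hl | hl)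
    · have e1 : ({v, u} : Set (ℕ × ℕ)) = {u, v} := pair_comm _ _
      exact Or.inl (Or.inl ⟨p, q, hf.adj, hf.vp, hf.vq, e1 ▸ hf.pn, e1 ▸ hf.qn, hf.sn⟩)
    · exact Or.inl (Or.inr (Or.inr hf))
    · exact Or.inl (Or.inr (Or.inl hf))
    · exact Or.inr (Or.inr hl)
    · exact Or.inr (Or.inl hl)
  -- a near-like element against a rung
  have keyu : ∀ {z z' y}, z ∈ Dd → z' ∈ Dd → z' ∈ P.closure S ∧ z' ∉ S → SeeP P S row z' u v →
      LikeE P S row w D₀ δ₁ Hs₀ Om₂ u v y z → RungN P S row w D₀ δ₁ Hs₀ Om₂ u v z' →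
      ¬ NearN P S row w D₀ δ₁ Hs₀ Om₂ u v z' →
      Pr2 wadj u v (YW P S row w D₀ Hs₀ z) (YW P S row w D₀ Hs₀ z') := by
    intro z z' y _ hz' hcl' hsee' hl hk' hn
    exact h.like_pr2 hl huv hu hz' hcl' hsee' (h.sexN hz' hcl' huv hu hv hsee' hk' hn).hex
  have keyv : ∀ {z z' y}, z ∈ Dd → z' ∈ Dd → z' ∈ P.closure S ∧ z' ∉ S → SeeP P S row z' u v →
      LikeE P S row w D₀ δ₁ Hs₀ Om₂ v u y z → RungN P S row w D₀ δ₁ Hs₀ Om₂ u v z' →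
      ¬ NearN P S row w D₀ δ₁ Hs₀ Om₂ v u z' →
      Pr2 wadj u v (YW P S row w D₀ Hs₀ z) (YW P S row w D₀ Hs₀ z') := by
    intro z z' y _ hz' hcl' hsee' hl hk' hn
    exact (h.like_pr2 hl (wadj_swap huv) hv hz' hcl' (seeP_symm hsee')
      (h.sexN hz' hcl' (wadj_swap huv) hv hu (seeP_symm hsee') (sw hk') hn).hex).flip
  rcases hk with hk | ⟨y, hl⟩ | ⟨y, hl⟩
  · rcases hk' with hk' | ⟨y', hl'⟩ | ⟨y', hl'⟩
    · exact h.rung_pr hβ hz hcl.1 hcl.2 hz' hcl'.1 hcl'.2 huv hu hv hsee hsee' hk hk'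
        (fun h1 => nu (Or.inl h1.1) (Or.inl h1.2)) (fun h1 => nv (Or.inl h1.1) (Or.inl h1.2)) nf
    · exact (keyu hz' hz hcl hsee hl' (Or.inl hk) fun h1 => nu h1 (Or.inr ⟨y', hl'⟩)).symm
    · exact (keyv hz' hz hcl hsee hl' (Or.inl hk) fun h1 => nv h1 (Or.inr ⟨y', hl'⟩)).symm
  · exact keyu hz hz' hcl' hsee' hl hk' fun h1 => nu (Or.inr ⟨y, hl⟩) h1
  · exact keyv hz hz' hcl' hsee' hl hk' fun h1 => nv (Or.inr ⟨y, hl⟩) h1

end rnd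

end DA

namespace TSH

universe u

open DA TST

section ctx

variable {α : Type u} {M : Matroid α} {w : ℕ} {L₁ : Bool × ℕ × ℕ → List α} {D : Set α}
  {row : α → Sym2 (ℕ × ℕ)} {β D₀ δ₀ D₁ δ₁ : ℕ} {Hm Hs₀ Om₁ Hs₁ Om₂ : Finset (ℕ × ℕ)}
  {V : Set (Bool × ℕ × ℕ)} {z z' x y : α} {u v : ℕ × ℕ} {r r' : Bool × ℕ × ℕ} {i j : Fin 3}
  {T : Set α}

lemma rung_D (hk : z ∈ frM M w L₁ D V ∨ ∃ u, z ∈ nrM M w L₁ D row D₀ Hs₀ V u) : z ∈ D := by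
  rcases hk with hk | ⟨u, hk⟩
  exacts [hk.1, hk.1.1]

variable (h : CtxM M w L₁ D row β D₀ δ₀ D₁ δ₁ Hm Hs₀ Om₁ Hs₁ Om₂ V)
include h

/-- the ends of a visible row -/
lemma CtxM.vends (hr : r ∈ V) (hrow : srow r = s(u, v)) :
    wadj u v ∧ (VisR w δ₁ Om₂ u ∧ ∀ b, wadj u b → VisR w δ₁ Om₂ b) ∧
      (VisR w δ₁ Om₂ v ∧ ∀ b, wadj v b → VisR w δ₁ Om₂ b) := by
  obtain ⟨hrS, h1⟩ := h.vis r hr
  refine ⟨?_, h1 u (by rw [hrow]; exact Sym2.mem_mk_left _ _),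
    h1 v (by rw [hrow]; exact Sym2.mem_mk_right _ _)⟩
  have h2 := (wadj_srow hrS).1
  have h3 : s(segNear r, segFar r) = s(u, v) := hrow
  rcases Sym2.eq_iff.1 h3 with ⟨h4, h5⟩ | ⟨h4, h5⟩
  · rw [← h4, ← h5]; exact h2
  · rw [← h4, ← h5]; exact wadj_swap h2

/-- near at `u` -/
lemma CtxM.nr_mem [M.Finite] (hz : z ∈ D) (hr : r ∈ V) (hrow : srow r = s(u, v))
    (hs : SeeR (rwM L₁) (Sees M (crr L₁ (Seg w))) z r)
    (hn : NearN M (crr L₁ (Seg w)) row w D₀ δ₁ Hs₀ Om₂ u v z) :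
    z ∈ nrM M w L₁ D row D₀ Hs₀ V u := by
  obtain ⟨huv, ⟨hu, hu'⟩, ⟨hv, hv'⟩⟩ := h.vends hr hrow
  have hcl := h.cl z hz
  have hs' := (h.see_iff hr hrow).1 hs
  rcases hn with ⟨a, hn⟩ | ⟨y, hl⟩
  · have h1 := (h.rnd.sn_iff hcl.1 (h.rnd.reg hu)).1 hn.sn
    obtain ⟨h2, h3⟩ := h.near_of_two hz hr hrow hs hn.adj hn.ne.symm h1
    exact ⟨⟨hz, h.rnd.nearW_tStar hz hcl huv hu hv hs' hn⟩, r, hr, (at_of_srow hrow).1, hs, h2, h3⟩
  · refine ⟨⟨hz, hl.star huv⟩, r, hr, (at_of_srow hrow).1, hs, ?_, ?_⟩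
    · rintro ⟨_, ht⟩
      have h4 : s(segNear r, segFar r) = s(u, v) := hrow
      have h5 := ((mem_TRow₀ _ _).1 ht).2
      refine hl.one.nloc fun c x hx => ?_
      have h6 := h5 c hx
      rcases Sym2.eq_iff.1 h4 with ⟨h7, h8⟩ | ⟨h7, h8⟩
      · rwa [h7, h8] at h6
      · rwa [h7, h8, pair_comm] at h6
    · intro a b hab hY
      rw [hrow] at hab
      rcases Sym2.eq_iff.1 hab with ⟨rfl, rfl⟩ | ⟨rfl, rfl⟩
      · exact hl.one.ndu hY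
      · refine hl.one.ndv fun c => ?_
        rw [pair_comm]
        exact hY c

/-- **Rungs in the language of locations.** -/
lemma CtxM.rungN [M.Finite] (hk : z ∈ frM M w L₁ D V ∨ ∃ u, z ∈ nrM M w L₁ D row D₀ Hs₀ V u)
    (hr : r ∈ V) (hrow : srow r = s(u, v))
    (hs : SeeR (rwM L₁) (Sees M (crr L₁ (Seg w))) z r) :
    RungN M (crr L₁ (Seg w)) row w D₀ δ₁ Hs₀ Om₂ u v z := by
  obtain ⟨huv, ⟨hu, hu'⟩, ⟨hv, hv'⟩⟩ := h.vends hr hrow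
  have hzD := rung_D hk
  have hcl := h.cl z hzD
  have hs' := (h.see_iff hr hrow).1 hs
  by_cases hex : ∃ p q, wadj p q ∧ VisR w δ₁ Om₂ p ∧ VisR w δ₁ Om₂ q ∧
      SeeP M (crr L₁ (Seg w)) row z p q ∧ s(p, q) ≠ s(u, v)
  · obtain ⟨p, q, hpq, hp, hq, hsp, hne⟩ := hex
    exact Or.inl (h.rnd.rungK_of hcl huv hu hv hpq hp hq hsp hne)
  have honly : ∀ p q, wadj p q → VisR w δ₁ Om₂ p → VisR w δ₁ Om₂ q →
      SeeP M (crr L₁ (Seg w)) row z p q → s(p, q) = s(u, v) := by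
    intro p q hpq hp hq hsp
    by_contra hne
    exact hex ⟨p, q, hpq, hp, hq, hsp, hne⟩
  rcases hk with hk | ⟨u', hk⟩
  · exfalso
    obtain ⟨_, a, ha, b, hb, hab, sa, sb⟩ := hk
    have key : ∀ {a}, a ∈ V → SeeR (rwM L₁) (Sees M (crr L₁ (Seg w))) z a → a = r := by
      intro a ha sa
      obtain ⟨h1, ⟨h2, _⟩, ⟨h3, _⟩⟩ := h.vends ha (u := segNear a) (v := segFar a) rfl
      exact srow_inj ((honly _ _ h1 h2 h3 ((h.see_ends ha).1 sa)).trans hrow.symm)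
    rw [key ha sa, key hb sb] at hab
    exact hab _ (Or.inl rfl) (Or.inl rfl)
  · have hat := h.near_see u' z hk r hr hs
    obtain ⟨h1, h2⟩ := h.near_row hk hr hs
    have ho : OneE M (crr L₁ (Seg w)) row w D₀ δ₁ Hs₀ Om₂ u v z := by
      refine ⟨hcl, hs', honly, h2 u v hrow, fun hY => h2 v u (hrow.trans Sym2.eq_swap) fun c => ?_,
        fun hY => h1 ⟨hzD, (mem_TRow₀ _ _).2 ⟨hcl, fun c x hx => ?_⟩⟩⟩
      · rw [pair_comm]
        exact hY c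
      · have h4 : s(segNear r, segFar r) = s(u, v) := hrow
        have h6 := hY c hx
        rcases Sym2.eq_iff.1 h4 with ⟨h7, h8⟩ | ⟨h7, h8⟩
        · rwa [h7, h8]
        · rwa [h7, h8, pair_comm]
    have hT := hk.1.2
    rw [at_srow, hrow, Sym2.mem_iff] at hat
    rcases hat with rfl | rfl
    · exact Or.inr (Or.inl (h.rnd.likeE hzD huv hu hv hu' ho hT))
    · exact Or.inr (Or.inr (h.rnd.likeE hzD (wadj_swap huv) hv hu hv' ho.symm hT))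

/-- **Exits of the star of `u`**: rungs which are not near at `u`. -/
lemma CtxM.sex33 [M.Finite] (hk : z ∈ frM M w L₁ D V ∨ ∃ u, z ∈ nrM M w L₁ D row D₀ Hs₀ V u)
    (hn : z ∉ nrM M w L₁ D row D₀ Hs₀ V u) (hr : r ∈ V) (hrow : srow r = s(u, v))
    (hs : SeeR (rwM L₁) (Sees M (crr L₁ (Seg w))) z r) :
    SEx M (crr L₁ (Seg w)) row w D₀ δ₁ Hs₀ Om₂ u z := by
  obtain ⟨huv, ⟨hu, _⟩, ⟨hv, _⟩⟩ := h.vends hr hrow
  have hzD := rung_D hk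
  exact h.rnd.sexN hzD (h.cl z hzD) huv hu hv ((h.see_iff hr hrow).1 hs) (h.rungN hk hr hrow hs)
    fun h1 => hn (h.nr_mem hzD hr hrow hs h1)

/-- same-row elements are local in round 1 -/
lemma CtxM.trM_sub : trM M w L₁ D row D₀ Hs₀ r ⊆
    TRow M (crr L₁ (Seg w)) row w D₁ Hs₁ (segNear r) (segFar r) :=
  fun _ ht => h.rnd.tRow01 ht.2

/-- **`wB` with any local elements** -/
theorem CtxM.wB' [M.Finite] : ∀ r ∈ V, ∀ T ⊆ TRow M (crr L₁ (Seg w)) row w D₁ Hs₁ (segNear r)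
    (segFar r), ∀ z, (z ∈ frM M w L₁ D V ∨ ∃ u, z ∈ nrM M w L₁ D row D₀ Hs₀ V u) →
    SeeR (rwM L₁) (Sees M (crr L₁ (Seg w))) z r →
    PWitB (ES (Sees M (crr L₁ (Seg w)))) (Lr M (crr L₁ (Seg w)) row w (segNear r))
      (Lr M (crr L₁ (Seg w)) row w (segFar r))
      (Arw M (crr L₁ (Seg w)) row w (segNear r) (segFar r)) (rwM L₁ r) T z := by
  intro r hr T hT z hk hs
  have hzD := rung_D hk
  have hcl := h.cl z hzD
  obtain ⟨huv, ⟨hu, _⟩, ⟨hv, _⟩⟩ := h.vends hr (u := segNear r) (v := segFar r) rfl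
  have hs' := (h.see_ends hr).1 hs
  rw [es_sees, rw_eq h.rw (h.vis r hr).1 (u := segNear r) (v := segFar r) rfl]
  exact h.rnd.rowB h.hβ hzD hcl.1 hcl.2 huv hu hv hs'
    (h.rnd.rungN_x hzD hcl.1 huv hu hv hs' (h.rungN hk hr rfl hs))
    fun t ht => (mem_TRow₁ _ _).1 (hT ht)

/-- **`wB`** -/
theorem CtxM.wB [M.Finite] : ∀ r ∈ V, ∀ z, (z ∈ frM M w L₁ D V ∨
      ∃ u, z ∈ nrM M w L₁ D row D₀ Hs₀ V u) →
    SeeR (rwM L₁) (Sees M (crr L₁ (Seg w))) z r →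
    PWitB (ES (Sees M (crr L₁ (Seg w)))) (Lr M (crr L₁ (Seg w)) row w (segNear r))
      (Lr M (crr L₁ (Seg w)) row w (segFar r))
      (Arw M (crr L₁ (Seg w)) row w (segNear r) (segFar r)) (rwM L₁ r)
      (trM M w L₁ D row D₀ Hs₀ r) z :=
  fun r hr z hk hs => h.wB' r hr _ h.trM_sub z hk hs

/-- a rung which sees a visible row `r` and a far row `p q` with visible ends is a far rung and `p q` is
its other row -/
lemma CtxM.far_of33 [M.Finite] (hk : z ∈ frM M w L₁ D V ∨ ∃ u, z ∈ nrM M w L₁ D row D₀ Hs₀ V u)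
    (hr : r ∈ V) (hrow : srow r = s(u, v))
    (hs : SeeR (rwM L₁) (Sees M (crr L₁ (Seg w))) z r) {p q : ℕ × ℕ} (hpq : wadj p q)
    (hp : VisR w δ₁ Om₂ p) (hq : VisR w δ₁ Om₂ q) (hpn : p ∉ ({u, v} : Set (ℕ × ℕ)))
    (hqn : q ∉ ({u, v} : Set (ℕ × ℕ))) (hsp : SeeP M (crr L₁ (Seg w)) row z p q) :
    z ∈ frM M w L₁ D V ∧ ∃ i, r = rfM M w L₁ V z i ∧ rfM M w L₁ V z (!i) ∈ V ∧
      srow (rfM M w L₁ V z (!i)) = s(p, q) := by
  obtain ⟨huv, ⟨hu, hu'⟩, ⟨hv, hv'⟩⟩ := h.vends hr hrow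
  have hzD := rung_D hk
  have hcl := h.cl z hzD
  have hs' := (h.see_iff hr hrow).1 hs
  have hF : z ∈ frM M w L₁ D V := by
    rcases hk with hk | ⟨u', hk⟩
    · exact hk
    · exfalso
      have hat := h.near_see u' z hk r hr hs
      have hT := (h.rnd.locT hzD hcl.1).toLocS
      rw [at_srow, hrow, Sym2.mem_iff] at hat
      have hu'v : VisR w δ₁ Om₂ u' := by
        rcases hat with rfl | rfl
        exacts [hu, hv]
      rcases hT.star_rows51 hu'v (mem_tStar₀.1 hk.1.2).2 hpq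
        ((h.rnd.sn_iff hcl.1 (h.rnd.reg hp)).2 hsp) with h3 | h3
      · exact hpn (h3 ▸ hat)
      · exact hqn (h3 ▸ hat)
  refine ⟨hF, ?_⟩
  obtain ⟨i, hi⟩ := h.far_see z hF r hr hs
  refine ⟨i, hi, (h.far_V z hF (!i)).1, ?_⟩
  obtain ⟨hV, hS⟩ := h.far_V z hF (!i)
  obtain ⟨hab, ⟨ha, _⟩, _⟩ := h.vends hV (u := segNear (rfM M w L₁ V z !i))
    (v := segFar (rfM M w L₁ V z !i)) rfl
  rcases h.rnd.far_only33 hzD hcl huv hu hv hs' hpq hp hq hsp hpn hqn hab (h.rnd.reg ha)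
    ((h.see_ends hV).1 hS) with h1 | h1
  · exfalso
    have h2 : rfM M w L₁ V z (!i) = rfM M w L₁ V z i := by
      rw [← hi]
      exact srow_inj (h1.trans hrow.symm)
    have h3 := h.far_dis z hF
    cases i
    · exact h3 _ (Or.inl rfl) (Or.inl (by rw [show rfM M w L₁ V z true = rfM M w L₁ V z false
        from h2]))
    · exact h3 _ (Or.inl rfl) (Or.inl (by rw [show rfM M w L₁ V z false = rfM M w L₁ V z true
        from h2]))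
  · exact h1

/-- **`wD` with any local elements** -/
theorem CtxM.wD' [M.Finite] : ∀ r ∈ V, ∀ T ⊆ TRow M (crr L₁ (Seg w)) row w D₁ Hs₁ (segNear r)
    (segFar r), ∀ z, (z ∈ frM M w L₁ D V ∨ ∃ u, z ∈ nrM M w L₁ D row D₀ Hs₀ V u) →
    ∀ z', (z' ∈ frM M w L₁ D V ∨ ∃ u, z' ∈ nrM M w L₁ D row D₀ Hs₀ V u) → z ≠ z' →
    SeeR (rwM L₁) (Sees M (crr L₁ (Seg w))) z r → SeeR (rwM L₁) (Sees M (crr L₁ (Seg w))) z' r →
    (∀ u, TST.At segNear segFar r u → z ∈ nrM M w L₁ D row D₀ Hs₀ V u →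
      z' ∉ nrM M w L₁ D row D₀ Hs₀ V u) →
    (∀ i j, z ∈ frM M w L₁ D V → z' ∈ frM M w L₁ D V → r = rfM M w L₁ V z i →
      r = rfM M w L₁ V z' j → rfM M w L₁ V z (!i) = rfM M w L₁ V z' (!j) →
      ¬ TST.EqOn (rwM L₁ (rfM M w L₁ V z (!i)))
        (Arw M (crr L₁ (Seg w)) row w (segNear (rfM M w L₁ V z (!i)))
          (segFar (rfM M w L₁ V z (!i))) z)
        (Arw M (crr L₁ (Seg w)) row w (segNear (rfM M w L₁ V z (!i)))
          (segFar (rfM M w L₁ V z (!i))) z')) →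
    PWitD (ES (Sees M (crr L₁ (Seg w)))) (Lr M (crr L₁ (Seg w)) row w (segNear r))
      (Lr M (crr L₁ (Seg w)) row w (segFar r))
      (Arw M (crr L₁ (Seg w)) row w (segNear r) (segFar r)) (rwM L₁ r) T z z' := by
  intro r hr T hT z hk z' hk' _ hs hs' hn hf
  have hzD := rung_D hk
  have hzD' := rung_D hk'
  have hc := h.cl z hzD
  have hc' := h.cl z' hzD'
  obtain ⟨huv, ⟨hu, _⟩, ⟨hv, _⟩⟩ := h.vends hr (u := segNear r) (v := segFar r) rfl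
  have see := (h.see_ends hr).1 hs
  have see' := (h.see_ends hr).1 hs'
  have hN := h.rungN hk hr rfl hs
  have hN' := h.rungN hk' hr rfl hs'
  have hswap : srow r = s(segFar r, segNear r) := Sym2.eq_swap
  rw [es_sees, rw_eq h.rw (h.vis r hr).1 (u := segNear r) (v := segFar r) rfl]
  refine h.rnd.rowD h.hβ hzD hc.1 hc.2 hzD' hc'.1 hc'.2 huv hu hv see see'
    (h.rnd.rungN_x hzD hc.1 huv hu hv see hN) (h.rnd.rungN_x hzD' hc'.1 huv hu hv see' hN') ?_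
    fun t ht => (mem_TRow₁ _ _).1 (hT ht)
  refine h.rnd.rungN_pr h.hβ hzD hc hzD' hc' huv hu hv see see' hN hN' ?_ ?_ ?_
  · exact fun h1 h2 => hn _ (Or.inl rfl) (h.nr_mem hzD hr rfl hs h1) (h.nr_mem hzD' hr rfl hs' h2)
  · exact fun h1 h2 => hn _ (Or.inr rfl) (h.nr_mem hzD hr hswap hs h1)
      (h.nr_mem hzD' hr hswap hs' h2)
  · intro p q hF hF' hEq
    have hpq := hF.adj
    have hp := hF.vp
    have hq := hF.vq
    have hspq := (h.rnd.sn_iff hc.1 (h.rnd.reg hp)).1 hF.sn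
    have hspq' := (h.rnd.sn_iff hc'.1 (h.rnd.reg hp)).1 hF'.sn
    obtain ⟨k1, i, hi, hiV, hi'⟩ := h.far_of33 hk hr rfl hs hpq hp hq hF.pn hF.qn hspq
    obtain ⟨k2, j, hj, hjV, hj'⟩ := h.far_of33 hk' hr rfl hs' hpq hp hq hF.pn hF.qn hspq'
    have e12 : rfM M w L₁ V z (!i) = rfM M w L₁ V z' (!j) := srow_inj (hi'.trans hj'.symm)
    refine hf i j k1 k2 hi hj e12 ?_
    have s3 : SeeR (rwM L₁) (Sees M (crr L₁ (Seg w))) z (rfM M w L₁ V z (!i)) :=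
      (h.far_V z k1 (!i)).2
    have s3' : SeeR (rwM L₁) (Sees M (crr L₁ (Seg w))) z' (rfM M w L₁ V z (!i)) := by
      rw [e12]
      exact (h.far_V z' k2 (!j)).2
    generalize rfM M w L₁ V z (!i) = r₃ at hiV hi' s3 s3' ⊢
    rw [rw_eq h.rw (h.vis r₃ hiV).1 hi']
    have h4 : s(segNear r₃, segFar r₃) = s(p, q) := hi'
    rcases Sym2.eq_iff.1 h4 with ⟨h5, h6⟩ | ⟨h5, h6⟩
    · rw [h5, h6]
      exact hEq
    · rw [h5, h6]
      intro x hx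
      rw [h.rnd.arw_swap h.hβ hzD hc hpq hp hq hspq
          (h.rnd.rungN_x hzD hc.1 hpq hp hq hspq (h.rungN hk hiV hi' s3)) hx,
        h.rnd.arw_swap h.hβ hzD' hc' hpq hp hq hspq'
          (h.rnd.rungN_x hzD' hc'.1 hpq hp hq hspq' (h.rungN hk' hiV hi' s3')) hx]
      exact not_congr (hEq x hx)

/-- **`wD`** -/
theorem CtxM.wD [M.Finite] : ∀ r ∈ V, ∀ z, (z ∈ frM M w L₁ D V ∨
      ∃ u, z ∈ nrM M w L₁ D row D₀ Hs₀ V u) →
    ∀ z', (z' ∈ frM M w L₁ D V ∨ ∃ u, z' ∈ nrM M w L₁ D row D₀ Hs₀ V u) → z ≠ z' →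
    SeeR (rwM L₁) (Sees M (crr L₁ (Seg w))) z r → SeeR (rwM L₁) (Sees M (crr L₁ (Seg w))) z' r →
    (∀ u, TST.At segNear segFar r u → z ∈ nrM M w L₁ D row D₀ Hs₀ V u →
      z' ∉ nrM M w L₁ D row D₀ Hs₀ V u) →
    (∀ i j, z ∈ frM M w L₁ D V → z' ∈ frM M w L₁ D V → r = rfM M w L₁ V z i →
      r = rfM M w L₁ V z' j → rfM M w L₁ V z (!i) = rfM M w L₁ V z' (!j) →
      ¬ TST.EqOn (rwM L₁ (rfM M w L₁ V z (!i)))
        (Arw M (crr L₁ (Seg w)) row w (segNear (rfM M w L₁ V z (!i)))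
          (segFar (rfM M w L₁ V z (!i))) z)
        (Arw M (crr L₁ (Seg w)) row w (segNear (rfM M w L₁ V z (!i)))
          (segFar (rfM M w L₁ V z (!i))) z')) →
    PWitD (ES (Sees M (crr L₁ (Seg w)))) (Lr M (crr L₁ (Seg w)) row w (segNear r))
      (Lr M (crr L₁ (Seg w)) row w (segFar r))
      (Arw M (crr L₁ (Seg w)) row w (segNear r) (segFar r)) (rwM L₁ r)
      (trM M w L₁ D row D₀ Hs₀ r) z z' :=
  fun r hr z hk z' hk' hne hs hs' hn hf => h.wD' r hr _ h.trM_sub z hk z' hk' hne hs hs' hn hf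

/-- **`awE`** -/
theorem CtxM.awE [M.Finite] : ∀ r ∈ V, ∀ u, TST.At segNear segFar r u →
    ∀ i, sgV w u (nbV u i) = r → ∀ z, (z ∈ frM M w L₁ D V ∨
      ∃ v, z ∈ nrM M w L₁ D row D₀ Hs₀ V v) →
    z ∉ nrM M w L₁ D row D₀ Hs₀ V u → SeeR (rwM L₁) (Sees M (crr L₁ (Seg w))) z r →
    ∀ x ∈ rwM L₁ r,
    (x ∈ Arw M (crr L₁ (Seg w)) row w (segNear r) (segFar r) z ↔
      (segNear r = u ∧ x ∉ ASt M (crr L₁ (Seg w)) row w u (nbV u) z i) ∨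
      (segNear r ≠ u ∧ x ∈ ASt M (crr L₁ (Seg w)) row w u (nbV u) z i)) := by
  intro r hr u hu i hi z hk hn hs x hx
  have hzD := rung_D hk
  obtain ⟨v, j, huv, hj, hrow, hsg, hvu, hvv, _, _⟩ := h.end_row hr hu
  have hij : i = j := by
    by_contra hij
    have h1 := (h.leg hvu i).2.1
    have h2 := (h.leg hvu j).2.1
    rw [hi] at h1
    rw [hsg] at h2
    have h3 : nbV u i = nbV u j := by
      have h4 : s(u, nbV u i) = s(u, nbV u j) := h1.symm.trans h2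
      rcases Sym2.eq_iff.1 h4 with ⟨_, h5⟩ | ⟨h5, h6⟩
      · exact h5
      · exact h6.trans h5
    exact hvu.nb_ne hij h3
  subst hij
  subst hj
  have hx' : x ∈ SX (crr L₁ (Seg w)) row u (nbV u) i := by
    have h1 := (h.leg hvu i).2.2
    rw [hi] at h1
    rw [← h1]
    exact hx
  obtain ⟨h1, h2⟩ := h.rnd.awX33 h.hβ hzD (h.cl z hzD) hvu hvu.nb (h.sex33 hk hn hr hrow hs)
    ((h.see_iff hr hrow).1 hs) x hx'
  have h4 : s(segNear r, segFar r) = s(u, nbV u i) := hrow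
  have hne : u ≠ nbV u i := wadj_ne huv
  rcases Sym2.eq_iff.1 h4 with ⟨h5, h6⟩ | ⟨h5, h6⟩
  · rw [h5, h6, h1]
    constructor
    · exact fun h7 => Or.inl ⟨rfl, h7⟩
    · rintro (h7 | h7)
      · exact h7.2
      · exact absurd rfl h7.1
  · rw [h5, h6, h2]
    constructor
    · exact fun h7 => Or.inr ⟨hne.symm, h7⟩
    · rintro (h7 | h7)
      · exact absurd h7.1 hne.symm
      · exact h7.2

end ctx

end TSH
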