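import Pool.Agent.TST.GDef
import Pool.Agent.DA.RowX
import Pool.Agent.DA.OnePl
import Pool.Agent.DA.StWit

/-!
# Two own vertices for the chosen rungs (T-star, helper94)

`TwoB` for far rungs, near rungs, and for elements which are local on one row and have a middle class.
-/

set_option autoImplicit false

open Set BIC BICS CWL
open scoped Matroid

namespace DA

open Gad TST

section pure

variable {V Ch : Type*} {adj : V → V → Prop} {Reg Vis : V → Prop} {Y : Ch → Set V}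
  {Sn : V → V → Prop}

/-- a location off a row which is seen: two locations for some representatives -/
lemma LocS.big_of_off (h : LocS adj Reg Vis Y Sn) {u v y : V} (huv : adj u v) (hu : Reg u)
    (hs : Sn u v) {c : Ch} (hy : y ∉ ({u, v} : Set V)) (hyc : y ∈ Y c) : ∃ c', Big (Y c') := by
  obtain ⟨c', h1, h2⟩ := h.tog u v huv hu hs c
  simp only [mem_insert_iff, mem_singleton_iff, not_or] at hy
  exact ⟨c', u, h1, y, (h2 y hy.1 hy.2).2 hyc, Ne.symm hy.1⟩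

/-- far rungs -/
lemma LocS.big_far (h : LocS adj Reg Vis Y Sn) {u v p q : V} (huv : adj u v) (hu : Vis u)
    (hs : Sn u v) (hpq : adj p q) (hp : Reg p) (hs' : Sn p q)
    (hpn : p ∉ ({u, v} : Set V)) : ∃ c', Big (Y c') := by
  obtain ⟨c₀⟩ := h.ne
  obtain ⟨c₁, h2, _⟩ := h.tog p q hpq hp hs' c₀
  exact h.big_of_off huv (h.vis u hu) hs hpn h2

/-- near rungs -/
lemma LocS.big_near (h : LocS adj Reg Vis Y Sn) {u v v' : V} (huv : adj u v) (hu : Vis u)
    (hs : Sn u v) (huv' : adj u v') (hs' : Sn u v') (hne : v ≠ v') : ∃ c', Big (Y c') := by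
  refine h.big_far huv hu hs (h.symm _ _ huv')
    (h.vis₂ u v' u hu huv' (h.symm _ _ huv')).1 (h.snsymm _ _ hs') ?_
  rintro (h1 | h1)
  · exact h.adj_ne huv' h1.symm
  · exact hne h1.symm

end pure

section

variable {α : Type*} {P : Matroid α} {S : Set α} {row : α → Sym2 (ℕ × ℕ)} {w : ℕ} {D : Set α}
  {β D₀ δ₀ D₁ δ₁ : ℕ} {Hm Hs₀ Om₁ Hs₁ Om₂ : Finset (ℕ × ℕ)} {u v p q v' : ℕ × ℕ} {t x : α}
  {Bd : Set (ℕ × ℕ)}

/-- the star of `u` as a finset -/
def fst4 (u : ℕ × ℕ) : Finset (ℕ × ℕ) := {u, (u.1 - 1, u.2), (u.1 + 1, u.2), vn u}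

lemma fst4_card (u : ℕ × ℕ) : (fst4 u).card ≤ 4 := Finset.card_le_four

lemma mem_fst4 {x : ℕ × ℕ} (h : x ∈ nst wadj u) : x ∈ fst4 u := by
  have h1 : x ∈ star u := by
    rcases h with rfl | h
    · exact self_mem_star x
    · exact mem_star_of_wadj h
  unfold star at h1
  unfold fst4
  simpa using h1

lemma fst4_sd {x : ℕ × ℕ} (h : x ∈ fst4 u) : sd u x ≤ 1 := by
  unfold fst4 vn at h
  simp only [Finset.mem_insert, Finset.mem_singleton] at h
  rw [sd_le]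
  rcases h with rfl | rfl | rfl | rfl
  · omega
  · simp only
    omega
  · simp only
    omega
  · split_ifs <;> simp only <;> omega

/-- two locations on the row: a middle element -/
theorem VC.mid_big [P.Finite] (h : VC P S row w u) (h' : VC P S row w v) (hS : S ⊆ P.E)
    (hmem : ∀ e ∈ S, ∃ p q, row e = s(p, q) ∧ wadj p q ∧
      p ∈ rect 0 0 (w + 1) (w + 1) ∧ q ∈ rect 0 0 (w + 1) (w + 1))
    (hq : Quiet P S row u v t) (hq' : Quiet P S row v u t) {c : Set α} (hc : c ⊆ S)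
    (hW : WallE c row w ∅) (hx : x ∈ RX S row u v) (hxu : x ∉ Lr P S row w u t)
    (hxv : x ∉ Lr P S row w v t) :
    u ∈ LocR P S row (swp row c x) t ∧ v ∈ LocR P S row (swp row c x) t := by
  have h1 := (h.mem_lr hS hmem hq hc hW hx).not.1 hxu
  have h2 := (h'.mem_lr hS hmem hq' hc hW (x := x)
    ⟨hx.1, by rw [hx.2, Sym2.eq_swap]⟩).not.1 hxv
  exact ⟨not_not.1 h1, not_not.1 h2⟩

end

end DA

namespace TSH

universe u

open Mdl Mdj EN Gad TST EN.Wall DA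

section

variable {α : Type u} {M : Matroid α} {S : Set α} {row : α → Sym2 (ℕ × ℕ)} {w : ℕ} {D : Set α}
  {β D₀ δ₀ D₁ δ₁ : ℕ} {Hm Hs₀ Om₁ Hs₁ Om₂ : Finset (ℕ × ℕ)} {a b p q b' : ℕ × ℕ} {t x : α}
  {Bd : Set (ℕ × ℕ)}

lemma twoB_of {N : Finset (ℕ × ℕ)} (hN : N.card ≤ 8) (hB : ∀ v ∈ N, v ∉ Bd)
    (hs : ∀ c, ∀ v ∈ YW M S row w D₀ Hs₀ t c, v ∈ N) (hb : ∃ c, Big (YW M S row w D₀ Hs₀ t c)) :
    TwoB M S row w D₀ Hs₀ Bd t := by
  refine ⟨⟨N, hN, hB, fun c₀ hc hW v hv hvr => hs ⟨c₀, hc, hW⟩ v ⟨hv, hvr⟩⟩, ?_⟩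
  obtain ⟨c, v, hv, v', hv', hne⟩ := hb
  exact ⟨c.1, c.2.1, c.2.2, v, v', hne, hv.1, hv.2, hv'.1, hv'.2⟩

variable [M.Finite] (h : Rnd M S row w D β D₀ δ₀ D₁ δ₁ Hm Hs₀ Om₁ Hs₁ Om₂)
include h

/-- **Far rungs have two own vertices.** -/
theorem twoB_far (ht : t ∈ D) (htcl : t ∈ M.closure S) (hab : wadj a b)
    (ha : VisR w δ₁ Om₂ a) (hb : VisR w δ₁ Om₂ b) (hs : SeeP M S row t a b) (hpq : wadj p q)
    (hp : VisR w δ₁ Om₂ p) (hs' : SeeP M S row t p q)
    (hpn : p ∉ ({a, b} : Set (ℕ × ℕ))) (hqn : q ∉ ({a, b} : Set (ℕ × ℕ)))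
    (hBa : a ∉ Bd) (hBb : b ∉ Bd) (hBp : p ∉ Bd) (hBq : q ∉ Bd) :
    TwoB M S row w D₀ Hs₀ Bd t := by
  classical
  have hT := h.locT ht htcl
  have k1 := (h.sn_iff htcl (h.reg ha)).2 hs
  have k2 := (h.sn_iff htcl (h.reg hp)).2 hs'
  have hc := Finset.card_le_four (a := a) (b := b) (c := p) (d := q)
  refine twoB_of (N := {a, b, p, q}) (by omega) ?_ ?_ ?_
  · intro v hv
    simp only [Finset.mem_insert, Finset.mem_singleton] at hv
    rcases hv with rfl | rfl | rfl | rfl <;> assumption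
  · intro c v hv
    have := hT.supp_far hab ha hb k1 hpq k2 hpn hqn c hv
    simpa using this
  · exact hT.big_far hab ha k1 hpq (h.reg hp) k2 hpn

/-- **Near rungs have two own vertices.** -/
theorem twoB_near (ht : t ∈ D) (htcl : t ∈ M.closure S) (hab : wadj a b)
    (ha : VisR w δ₁ Om₂ a) (hb : VisR w δ₁ Om₂ b) (hs : SeeP M S row t a b) (hab' : wadj a b')
    (hs' : SeeP M S row t a b') (hne : b ≠ b')
    (hB : ∀ x, sd a x ≤ 3 → x ∉ Bd) :
    TwoB M S row w D₀ Hs₀ Bd t := by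
  have hT := h.locT ht htcl
  have k1 := (h.sn_iff htcl (h.reg ha)).2 hs
  have k2 := (h.sn_iff htcl (h.reg ha)).2 hs'
  have hc := fst4_card a
  refine twoB_of (N := fst4 a) (by omega) (fun v hv => hB v (by have := fst4_sd hv; omega)) ?_ ?_
  · exact fun c v hv => mem_fst4 (hT.near_of_two hab ha hb k1 hab' k2 hne c hv)
  · exact hT.big_near hab ha k1 hab' k2 hne

/-- **Elements which are local in a star and not on the row which is seen have two own vertices.** -/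
theorem twoB_star (ht : t ∈ D) (htcl : t ∈ M.closure S) (hab : wadj a b)
    (ha : VisR w δ₁ Om₂ a) (hs : SeeP M S row t a b) (hst : t ∈ TStar M S row w D₀ Hs₀ a)
    (hn : t ∉ TRow M S row w D₀ Hs₀ a b) (hB : ∀ x, sd a x ≤ 3 → x ∉ Bd) :
    TwoB M S row w D₀ Hs₀ Bd t := by
  have hT := (h.locT ht htcl).toLocS
  have k1 := (h.sn_iff htcl (h.reg ha)).2 hs
  have hc := fst4_card a
  obtain ⟨c, y, hyc, hy⟩ : ∃ c y, y ∈ YW M S row w D₀ Hs₀ t c ∧ y ∉ ({a, b} : Set (ℕ × ℕ)) := by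
    by_contra hcon
    push Not at hcon
    exact hn ((mem_TRow₀ a b).2 ⟨hst.1, fun c y hy => hcon c y hy⟩)
  refine twoB_of (N := fst4 a) (by omega) (fun v hv => hB v (by have := fst4_sd hv; omega)) ?_
    (hT.big_of_off hab (hT.vis a ha) k1 hy hyc)
  exact fun c v hv => mem_fst4 (hst.2 c v hv.1 hv.2)

/-- **Elements which are local on one row and have a middle class have two own vertices.** -/
theorem twoB_row (hab : wadj a b) (ha : VisR w δ₁ Om₂ a) (hb : VisR w δ₁ Om₂ b)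
    (ht : t ∈ TRow M S row w D₀ Hs₀ a b) (hx : x ∈ RX S row a b) (hxa : x ∉ Lr M S row w a t)
    (hxb : x ∉ Lr M S row w b t) (hBa : a ∉ Bd) (hBb : b ∉ Bd) :
    TwoB M S row w D₀ Hs₀ Bd t := by
  classical
  have htR := (mem_TRow₀ a b).1 ht
  obtain ⟨hqa, hqb⟩ := h.w0.quiet_row (h.vis₀ ha) hab ht.2
  obtain ⟨c, hc, hW⟩ := h.rep
  obtain ⟨hc', hW'⟩ := swp_rep hc hW hx.1 (rep_of h.wal.mem hW hx.1)
  have ra := h.reg ha
  have rb := h.reg hb
  obtain ⟨k1, k2⟩ := (h.vc a ra.1 ra.2).mid_big (h.vc b rb.1 rb.2) h.wal.sub h.wal.mem hqa hqb hc hW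
    hx hxa hxb
  have hcd := Finset.card_le_two (a := a) (b := b)
  refine twoB_of (N := {a, b}) (by omega) ?_ ?_ ?_
  · intro v hv
    simp only [Finset.mem_insert, Finset.mem_singleton] at hv
    rcases hv with rfl | rfl <;> assumption
  · intro c' v hv
    have := htR.2 c' hv
    simpa using this
  · refine ⟨⟨swp row c x, hc', hW'⟩, a, ⟨k1, ra⟩, b, ⟨k2, rb⟩, ?_⟩
    rintro rfl
    have := wadj_par' hab
    omega

end

end TSH
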