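import Pool.Agent.TST.LabQ77
import Pool.Agent.TST.TwoRg
import Pool.Agent.DA.NearOne

/-!
# Star witnesses and two own vertices (T-star, helper94)

Field `wS` of `LabFacts3` for `M` (also for every `T` of elements which are local in the star in round
1), and `TwoB` for the chosen rungs (`TPl`).
-/

set_option autoImplicit false

open Set BIC BICS CWL
open scoped Matroid

namespace TSH

universe u

open DA TST

section ctx

variable {α : Type u} {M : Matroid α} {w : ℕ} {L₁ : Bool × ℕ × ℕ → List α} {D : Set α}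
  {row : α → Sym2 (ℕ × ℕ)} {β D₀ δ₀ D₁ δ₁ : ℕ} {Hm Hs₀ Om₁ Hs₁ Om₂ : Finset (ℕ × ℕ)}
  {V : Set (Bool × ℕ × ℕ)} {z x y t : α} {u v : ℕ × ℕ} {r r' : Bool × ℕ × ℕ} {i j : Fin 3}
  {T : Set α} {Bd : Set (ℕ × ℕ)}

variable (h : CtxM M w L₁ D row β D₀ δ₀ D₁ δ₁ Hm Hs₀ Om₁ Hs₁ Om₂ V)
include h

/-- a second visible row which is not at `u` -/
lemma CtxM.wuR_of (hr : r ∈ V) (hu : TST.At segNear segFar r u)
    (hs : SeeR (rwM L₁) (Sees M (crr L₁ (Seg w))) z r) (hr' : r' ∈ V)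
    (hu' : ¬ TST.At segNear segFar r' u)
    (hs' : SeeR (rwM L₁) (Sees M (crr L₁ (Seg w))) z r') :
    WuR M (crr L₁ (Seg w)) row w δ₁ Om₂ u z := by
  obtain ⟨v, i, huv, hi, hrow, hsg, hVu, hVv, -, -⟩ := h.end_row hr hu
  have k1 := (h.see_iff hr hrow).1 hs
  refine ⟨v, ?_⟩
  by_cases hv : TST.At segNear segFar r' v
  · right
    obtain ⟨a, j, hva, hj, hrow', -, -, hVa, -, -⟩ := h.end_row hr' hv
    refine ⟨huv, hVv, k1, a, hva, ?_, (h.see_iff hr' hrow').1 hs'⟩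
    rintro rfl
    exact hu' (at_of_srow hrow').2
  · left
    obtain ⟨q, j, hpq, hj, hrow', -, hVp, hVq, -, -⟩ := h.end_row hr' (Or.inl rfl)
    refine ⟨huv, hVv, k1, segNear r', q, hpq, hVp, hVq, (h.see_iff hr' hrow').1 hs', ?_, ?_⟩
    · rintro (h1 | h1)
      · exact hu' (Or.inl h1)
      · exact hv (Or.inl h1)
    · have h2 := (at_of_srow hrow').2
      rintro (h1 | h1)
      · exact hu' (h1 ▸ h2)
      · exact hv (h1 ▸ h2)

/-- far rungs are exits of the star -/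
lemma CtxM.wuR_fr (hr : r ∈ V) (hu : TST.At segNear segFar r u)
    (hz : z ∈ frM M w L₁ D V) (hs : SeeR (rwM L₁) (Sees M (crr L₁ (Seg w))) z r) :
    WuR M (crr L₁ (Seg w)) row w δ₁ Om₂ u z := by
  obtain ⟨hzD, r₁, h1, r₂, h2, h12, s1, s2⟩ := hz
  by_cases hc : TST.At segNear segFar r₁ u
  · exact h.wuR_of hr hu hs h2 (h12 u hc) s2
  · exact h.wuR_of hr hu hs h1 hc s1

omit h in
/-- the local elements of a row -/
lemma tr_row (hrow : srow r = s(u, v)) (hzD : z ∈ D)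
    (h1 : z ∈ TRow M (crr L₁ (Seg w)) row w D₀ Hs₀ u v) : z ∈ trM M w L₁ D row D₀ Hs₀ r := by
  refine ⟨hzD, ?_⟩
  unfold srow at hrow
  rcases Sym2.eq_iff.1 hrow with ⟨e1, e2⟩ | ⟨e1, e2⟩
  · rw [e1, e2]
    exact h1
  · rw [e1, e2]
    refine ⟨h1.1, ?_⟩
    rw [pair_comm v u]
    exact h1.2

/-- **The rungs which are not near rungs of `u` are exits of the star of `u`.** -/
theorem CtxM.sexM [M.Finite] (hr : r ∈ V) (hu : TST.At segNear segFar r u)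
    (hz : z ∈ frM M w L₁ D V ∨ ∃ v, z ∈ nrM M w L₁ D row D₀ Hs₀ V v)
    (hn : z ∉ nrM M w L₁ D row D₀ Hs₀ V u)
    (hs : SeeR (rwM L₁) (Sees M (crr L₁ (Seg w))) z r) :
    z ∈ D ∧ SEx M (crr L₁ (Seg w)) row w D₀ δ₁ Hs₀ Om₂ u z := by
  obtain ⟨v, i, huv, hi, hrow, hsg, hVu, hVv, -, -⟩ := h.end_row hr hu
  rcases hz with hz | ⟨v', hz⟩
  · exact ⟨hz.1, h.rnd.sex_wu hz.1 (h.cl z hz.1) hVu (h.wuR_fr hr hu hz hs)⟩
  · have hv' := h.near_see v' z hz r hr hs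
    have hne : v' ≠ u := by
      rintro rfl
      exact hn hz
    have hvv : v' = v := by
      rw [at_srow, hrow, Sym2.mem_iff] at hv'
      exact hv'.resolve_left hne
    subst hvv
    obtain ⟨k1, k2⟩ := h.near_row hz hr hs
    have hrow' : srow r = s(v', u) := by rw [hrow, Sym2.eq_swap]
    refine ⟨hz.1.1, h.rnd.sex_star hz.1.1 huv hVu hVv ((h.see_iff hr hrow).1 hs) hz.1.2
      (fun h1 => k1 (tr_row hrow hz.1.1 h1)) fun h1 => k2 v' u hrow' fun c => ?_⟩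
    rw [pair_comm v' u]
    exact h1 c

/-- **Star witnesses** for every set of elements which are local in the star in round 1. -/
theorem CtxM.wS' [M.Finite] (hr : r ∈ V) (hu : TST.At segNear segFar r u)
    (hT : T ⊆ TStar M (crr L₁ (Seg w)) row w D₁ Hs₁ u)
    (hz : z ∈ frM M w L₁ D V ∨ ∃ v, z ∈ nrM M w L₁ D row D₀ Hs₀ V v)
    (hn : z ∉ nrM M w L₁ D row D₀ Hs₀ V u)
    (hs : SeeR (rwM L₁) (Sees M (crr L₁ (Seg w))) z r) :
    TWit (ES (Sees M (crr L₁ (Seg w)))) (fun t i => Lr M (crr L₁ (Seg w)) row w (nbV u i) t)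
      (ASt M (crr L₁ (Seg w)) row w u (nbV u))
      (fun t x y v => t ∈ M.closure (crr L₁ (Seg w) \ {x, y, v}))
      (fun i => rwM L₁ (sgV w u (nbV u i))) T z := by
  obtain ⟨v, i, huv, hi, hrow, hsg, hVu, hVv, -, -⟩ := h.end_row hr hu
  obtain ⟨hzD, hsx⟩ := h.sexM hr hu hz hn hs
  have k1 := h.rnd.twit1 h.hβ hVu hVu.nb (T := T)
    (fun t ht => ⟨(hT ht).1.1, (hT ht).1.2, (hT ht).2⟩) hzD (fun h1 => hsx.notMem h.rnd (hT h1)) hsx
  have e1 : (fun i => rwM L₁ (sgV w u (nbV u i))) = SX (crr L₁ (Seg w)) row u (nbV u) := by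
    funext i
    exact (h.leg hVu i).2.2
  rw [es_sees, e1]
  exact k1

/-- the local elements of the star -/
lemma CtxM.tu_sub : tuM M w L₁ D row D₀ Hs₀ u ⊆ TStar M (crr L₁ (Seg w)) row w D₁ Hs₁ u :=
  fun _ ht => h.rnd.tStar01 ht.2

/-- **The field `wS`.** -/
theorem CtxM.wS [M.Finite] : ∀ r ∈ V, ∀ u, TST.At segNear segFar r u →
    ∀ z, (z ∈ frM M w L₁ D V ∨ ∃ v, z ∈ nrM M w L₁ D row D₀ Hs₀ V v) →
    z ∉ nrM M w L₁ D row D₀ Hs₀ V u →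
    SeeR (rwM L₁) (Sees M (crr L₁ (Seg w))) z r →
    TWit (ES (Sees M (crr L₁ (Seg w)))) (fun t i => Lr M (crr L₁ (Seg w)) row w (nbV u i) t)
      (ASt M (crr L₁ (Seg w)) row w u (nbV u))
      (fun t x y v => t ∈ M.closure (crr L₁ (Seg w) \ {x, y, v}))
      (fun i => rwM L₁ (sgV w u (nbV u i))) (tuM M w L₁ D row D₀ Hs₀ u) z :=
  fun _ hr _ hu _ hz hn hs => h.wS' hr hu h.tu_sub hz hn hs

/-! ### Two own vertices -/

/-- far rungs -/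
theorem CtxM.twoB_fr [M.Finite]
    (hBd : ∀ r ∈ V, ∀ v, TST.At segNear segFar r v → ∀ x, sd v x ≤ 3 → x ∉ Bd)
    (ht : t ∈ frM M w L₁ D V) : TwoB M (crr L₁ (Seg w)) row w D₀ Hs₀ Bd t := by
  obtain ⟨htD, r₁, h1, r₂, h2, h12, s1, s2⟩ := ht
  obtain ⟨b, i, hab, -, hrow, -, hVa, hVb, -, -⟩ := h.end_row h1 (Or.inl rfl)
  obtain ⟨q, j, hpq, -, hrow', -, hVp, hVq, -, -⟩ := h.end_row h2 (Or.inl rfl)
  have a1 := at_of_srow hrow
  have a2 := at_of_srow hrow'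
  have hself : ∀ v : ℕ × ℕ, sd v v ≤ 3 := fun v => by rw [sd_self]; omega
  refine twoB_far h.rnd htD (h.cl t htD).1 hab hVa hVb ((h.see_iff h1 hrow).1 s1) hpq hVp
    ((h.see_iff h2 hrow').1 s2) ?_ ?_ (hBd _ h1 _ a1.1 _ (hself _)) (hBd _ h1 _ a1.2 _ (hself _))
    (hBd _ h2 _ a2.1 _ (hself _)) (hBd _ h2 _ a2.2 _ (hself _))
  · rintro (h3 | h3)
    · exact h12 _ a1.1 (h3 ▸ a2.1)
    · exact h12 _ a1.2 ((mem_singleton_iff.1 h3) ▸ a2.1)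
  · rintro (h3 | h3)
    · exact h12 _ a1.1 (h3 ▸ a2.2)
    · exact h12 _ a1.2 ((mem_singleton_iff.1 h3) ▸ a2.2)

/-- near rungs -/
theorem CtxM.twoB_nr [M.Finite]
    (hBd : ∀ r ∈ V, ∀ v, TST.At segNear segFar r v → ∀ x, sd v x ≤ 3 → x ∉ Bd)
    (ht : t ∈ nrM M w L₁ D row D₀ Hs₀ V u) : TwoB M (crr L₁ (Seg w)) row w D₀ Hs₀ Bd t := by
  obtain ⟨r, h1, a1, s1⟩ := h.near_one u t ht
  obtain ⟨k1, -⟩ := h.near_row ht h1 s1
  obtain ⟨b, i, hab, -, hrow, -, hVa, hVb, -, -⟩ := h.end_row h1 a1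
  exact twoB_star h.rnd ht.1.1 (h.cl t ht.1.1).1 hab hVa ((h.see_iff h1 hrow).1 s1) ht.1.2
    (fun h2 => k1 (tr_row hrow ht.1.1 h2)) fun x hx => hBd _ h1 _ a1 x hx

/-- same-row elements with a middle element -/
theorem CtxM.twoB_tr [M.Finite]
    (hBd : ∀ r ∈ V, ∀ v, TST.At segNear segFar r v → ∀ x, sd v x ≤ 3 → x ∉ Bd)
    (hr : r ∈ V) (ht : t ∈ trM M w L₁ D row D₀ Hs₀ r) (hx : x ∈ rwM L₁ r)
    (h1 : x ∉ Lr M (crr L₁ (Seg w)) row w (segNear r) t)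
    (h2 : x ∉ Lr M (crr L₁ (Seg w)) row w (segFar r) t) :
    TwoB M (crr L₁ (Seg w)) row w D₀ Hs₀ Bd t := by
  have hself : ∀ v : ℕ × ℕ, sd v v ≤ 3 := fun v => by rw [sd_self]; omega
  obtain ⟨hrS, hvis⟩ := h.vis r hr
  obtain ⟨hab, -, -⟩ := wadj_srow hrS
  have a1 : TST.At segNear segFar r (segNear r) := Or.inl rfl
  have a2 : TST.At segNear segFar r (segFar r) := Or.inr rfl
  refine twoB_row h.rnd hab (hvis _ (at_srow.1 a1)).1 (hvis _ (at_srow.1 a2)).1 ht.2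
    (x := x) ?_ h1 h2 (hBd _ hr _ a1 _ (hself _)) (hBd _ hr _ a2 _ (hself _))
  rwa [← rw_eq h.rw hrS rfl]

/-- **The chosen elements have two own vertices.** -/
theorem CtxM.twoB_pl [M.Finite]
    (hBd : ∀ r ∈ V, ∀ v, TST.At segNear segFar r v → ∀ x, sd v x ≤ 3 → x ∉ Bd)
    {pr : α → Bool → Bool × ℕ × ℕ} {pa : α → Bool → Set α}
    (ht : TPl (rwM L₁) V segNear segFar (Sees M (crr L₁ (Seg w))) (frM M w L₁ D V)
      (nrM M w L₁ D row D₀ Hs₀ V) (trM M w L₁ D row D₀ Hs₀) (Lr M (crr L₁ (Seg w)) row w)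
      (fun r => Arw M (crr L₁ (Seg w)) row w (segNear r) (segFar r))
      (fun t x y v => t ∈ M.closure (crr L₁ (Seg w) \ {x, y, v}))
      (fun u i => sgV w u (nbV u i)) nbV (rfM M w L₁ V) pr pa t) :
    TwoB M (crr L₁ (Seg w)) row w D₀ Hs₀ Bd t := by
  rcases ht.2 with ⟨h1, -⟩ | ⟨u, i, j, k, h1, -⟩ | ⟨r, hr, h1, -, hp⟩
  · exact h.twoB_fr hBd h1
  · exact h.twoB_nr hBd h1
  · obtain ⟨x, hx, hx'⟩ := hp.ne
    obtain ⟨m1, m2⟩ := hp.mid x hx hx'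
    exact h.twoB_tr hBd hr h1 (hp.sub hx) m1 m2

end ctx

end TSH
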