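import Pool.Agent.TST.LabP33
import Pool.Agent.TST.LabP94

/-!
# One-place elements, degenerate tripods, nodes: fields of the label level for `M` (helper51)

`CtxM.one_see`, `one_cls`, `one_wit`, `one_star`, `dt_at`, `dt_T`, `dt_cls`, `dt_hid`, `node`, `same_O`, `awN` = the
fields of `LabFacts3` for the sets of `LabFactsM`, literally.  `CtxM.labFacts51` = all fields together.
-/

set_option autoImplicit false
set_option linter.unusedSectionVars false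

open Set BIC BICS CWL
open scoped Matroid

namespace TSH

universe u

open DA TST

section ctx

variable {α : Type u} {M : Matroid α} {w : ℕ} {L₁ : Bool × ℕ × ℕ → List α} {D : Set α}
  {row : α → Sym2 (ℕ × ℕ)} {β D₀ δ₀ D₁ δ₁ : ℕ} {Hm Hs₀ Om₁ Hs₁ Om₂ : Finset (ℕ × ℕ)}
  {V : Set (Bool × ℕ × ℕ)} {z z' d x y : α} {u v p q : ℕ × ℕ} {r r' : Bool × ℕ × ℕ} {i j : Fin 3}
  {T : Set α}

/-! ### Kinds -/

/-- the row of an element which sees exactly one visible row -/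
lemma ro_eq (hd : oneM M w L₁ D V d r) : roM M w L₁ D V d = r ∧
    oneM M w L₁ D V d (roM M w L₁ D V d) := by
  have h1 : ∃ r, oneM M w L₁ D V d r := ⟨r, hd⟩
  have h2 : oneM M w L₁ D V d (roM M w L₁ D V d) := by
    unfold roM
    rw [dif_pos h1]
    exact h1.choose_spec
  exact ⟨hd.2.2.2 _ h2.2.1 h2.2.2.1, h2⟩

/-- the row of a one-place element -/
lemma on_row (hd : d ∈ onM M w L₁ D row D₀ Hs₀ V) (hr : r ∈ V)
    (hs : SeeR (rwM L₁) (Sees M (crr L₁ (Seg w))) d r) : oneM M w L₁ D V d r ∧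
      d ∉ trM M w L₁ D row D₀ Hs₀ r ∧ ∀ u v, srow r = s(u, v) →
        ¬ DtY M w L₁ row D₀ Hs₀ d u v ∧ d ∉ TStar M (crr L₁ (Seg w)) row w D₀ Hs₀ u := by
  obtain ⟨r₁, h1, h2, h3⟩ := hd
  have h4 : r = r₁ := h1.2.2.2 r hr hs
  subst h4
  exact ⟨h1, h2, h3⟩

/-- the centre of a degenerate tripod -/
lemma ct_spec (hd : d ∈ dtM M w L₁ D row D₀ Hs₀ V) : ∃ v,
    srow (roM M w L₁ D V d) = s(ctM M w L₁ D row D₀ Hs₀ V d, v) ∧
      DtY M w L₁ row D₀ Hs₀ d (ctM M w L₁ D row D₀ Hs₀ V d) v := by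
  obtain ⟨r, h1, u, v, h2, h3⟩ := hd
  obtain ⟨h4, -⟩ := ro_eq h1
  have h5 : ∃ u v, srow (roM M w L₁ D V d) = s(u, v) ∧ DtY M w L₁ row D₀ Hs₀ d u v :=
    ⟨u, v, by rw [h4]; exact h2, h3⟩
  have e : ctM M w L₁ D row D₀ Hs₀ V d = h5.choose := by
    unfold ctM
    rw [dif_pos h5]
  rw [e]
  exact h5.choose_spec

/-- the data of a degenerate tripod -/
lemma dt_one (hd : d ∈ dtM M w L₁ D row D₀ Hs₀ V) :
    oneM M w L₁ D V d (roM M w L₁ D V d) := by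
  obtain ⟨r, h1, -⟩ := hd
  exact (ro_eq h1).2

lemma tRow_swap : TRow M (crr L₁ (Seg w)) row w D₀ Hs₀ u v =
    TRow M (crr L₁ (Seg w)) row w D₀ Hs₀ v u := by
  ext t
  rw [mem_TRow₀, mem_TRow₀, pair_comm u v]

lemma dtY_swap (hd : ∀ c, YW M (crr L₁ (Seg w)) row w D₀ Hs₀ d c \ {u, v} = nst wadj v \ {u, v}) :
    DtY M w L₁ row D₀ Hs₀ d v u := by
  intro c
  rw [pair_comm]
  exact hd c

/-- local on the row of `u v` -/
lemma mem_trM_iff (hrow : srow r = s(u, v)) :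
    d ∈ trM M w L₁ D row D₀ Hs₀ r ↔ d ∈ D ∧ d ∈ TRow M (crr L₁ (Seg w)) row w D₀ Hs₀ u v := by
  have h4 : s(segNear r, segFar r) = s(u, v) := hrow
  unfold trM
  rcases Sym2.eq_iff.1 h4 with ⟨h7, h8⟩ | ⟨h7, h8⟩
  · rw [h7, h8]; rfl
  · rw [h7, h8, tRow_swap]; rfl

variable (h : CtxM M w L₁ D row β D₀ δ₀ D₁ δ₁ Hm Hs₀ Om₁ Hs₁ Om₂ V)
include h

/-- **Kinds of the one-place elements.** -/
theorem CtxM.on_kind [M.Finite] (hd : d ∈ onM M w L₁ D row D₀ Hs₀ V) (hr : r ∈ V)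
    (hrow : srow r = s(u, v)) (hs : SeeR (rwM L₁) (Sees M (crr L₁ (Seg w))) d r) :
    (∃ p q, FarW M (crr L₁ (Seg w)) row w D₀ δ₁ Hs₀ Om₂ u v p q d) ∨
      OneE M (crr L₁ (Seg w)) row w D₀ δ₁ Hs₀ Om₂ u v d := by
  obtain ⟨h1, h2, h3⟩ := on_row hd hr hs
  obtain ⟨huv, ⟨hu, hu'⟩, ⟨hv, hv'⟩⟩ := h.vends hr hrow
  have hdD := h1.1
  have hcl := h.cl d hdD
  have hs' := (h.see_iff hr hrow).1 hs
  obtain ⟨n1, n2⟩ := h3 u v hrow
  obtain ⟨n3, n4⟩ := h3 v u (hrow.trans Sym2.eq_swap)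
  rcases kind51 D₀ Hs₀ hcl huv hv hs' with k | ⟨a, k1, k2, k3, k4⟩ | ⟨a, k1, k2, k3, k4⟩ | k | k |
    k | k
  · obtain ⟨-, -, -, p, q, hpq, hp, hq, hspq, hpn, hqn⟩ := k
    exact Or.inl ⟨p, q, h.rnd.farW_of hcl.1 hpq hp hq hspq hpn hqn⟩
  · exact absurd (h.rnd.nearW_tStar hdD hcl huv hu hv hs'
      (h.rnd.nearW_of_nearAt hcl hu huv k1 k2 k3 k4)) n2
  · exact absurd (h.rnd.nearW_tStar hdD hcl (wadj_swap huv) hv hu (seeP_symm hs')
      (h.rnd.nearW_of_nearAt hcl hv (wadj_swap huv) k1 k2 k3 k4)) n4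
  · exact absurd ((mem_trM_iff hrow).2 ⟨hdD, k.2⟩) h2
  · exact Or.inr k
  · exact absurd k.dt n1
  · exact absurd k.dt n3

/-- near at `u`: local in the star of `u` -/
lemma CtxM.nearN_star [M.Finite] (hz : z ∈ D) (huv : wadj u v) (hu : VisR w δ₁ Om₂ u)
    (hv : VisR w δ₁ Om₂ v) (hs : SeeP M (crr L₁ (Seg w)) row z u v)
    (hn : NearN M (crr L₁ (Seg w)) row w D₀ δ₁ Hs₀ Om₂ u v z) :
    z ∈ TStar M (crr L₁ (Seg w)) row w D₀ Hs₀ u := by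
  rcases hn with ⟨a, hn⟩ | ⟨y, hl⟩
  · exact h.rnd.nearW_tStar hz (h.cl z hz) huv hu hv hs hn
  · exact hl.star huv

/-! ### One-place elements -/

omit h in
theorem CtxM.one_see' : ∀ d ∈ onM M w L₁ D row D₀ Hs₀ V ∪ dtM M w L₁ D row D₀ Hs₀ V, ∀ r ∈ V,
    SeeR (rwM L₁) (Sees M (crr L₁ (Seg w))) d r → r = roM M w L₁ D V d := by
  intro d hd r hr hs
  have h1 : ∃ r₁, oneM M w L₁ D V d r₁ := by
    rcases hd with ⟨r₁, h1, -⟩ | ⟨r₁, h1, -⟩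
    exacts [⟨r₁, h1⟩, ⟨r₁, h1⟩]
  obtain ⟨r₁, h1⟩ := h1
  rw [(ro_eq h1).1]
  exact h1.2.2.2 r hr hs

/-- **`one_see`** -/
theorem CtxM.one_see : ∀ d ∈ onM M w L₁ D row D₀ Hs₀ V ∪ dtM M w L₁ D row D₀ Hs₀ V, ∀ r ∈ V,
    SeeR (rwM L₁) (Sees M (crr L₁ (Seg w))) d r → r = roM M w L₁ D V d := CtxM.one_see'

/-- **`one_cls`** -/
theorem CtxM.one_cls [M.Finite] : ∀ d ∈ onM M w L₁ D row D₀ Hs₀ V, ∀ r ∈ V,
    SeeR (rwM L₁) (Sees M (crr L₁ (Seg w))) d r → ∀ x ∈ rwM L₁ r, ∀ y ∈ rwM L₁ r,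
    (ES (Sees M (crr L₁ (Seg w))) d x y ↔
      (x ∈ Arw M (crr L₁ (Seg w)) row w (segNear r) (segFar r) d ↔
        y ∈ Arw M (crr L₁ (Seg w)) row w (segNear r) (segFar r) d)) := by
  intro d hd r hr hs
  have hdD := (on_row hd hr hs).1.1
  obtain ⟨huv, ⟨hu, _⟩, ⟨hv, _⟩⟩ := h.vends hr (u := segNear r) (v := segFar r) rfl
  have hs' := (h.see_ends hr).1 hs
  rw [es_sees, rw_eq h.rw (h.vis r hr).1 (u := segNear r) (v := segFar r) rfl]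
  rcases h.on_kind hd hr (u := segNear r) (v := segFar r) rfl hs with hk | hk
  · exact h.rnd.on2_cls hdD (h.cl d hdD).1 huv hu hv hs' (Or.inl hk)
  · exact h.rnd.oneE_place hdD huv hu hv hk

/-- **(alpha)** for a one-place element which sees another row with visible ends -/
theorem CtxM.one_far [M.Finite] (hd : d ∈ onM M w L₁ D row D₀ Hs₀ V) (hr : r ∈ V)
    (hs : SeeR (rwM L₁) (Sees M (crr L₁ (Seg w))) d r)
    (hk : ∃ p q, FarW M (crr L₁ (Seg w)) row w D₀ δ₁ Hs₀ Om₂ (segNear r) (segFar r) p q d) :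
    PWitB (ES (Sees M (crr L₁ (Seg w)))) (Lr M (crr L₁ (Seg w)) row w (segNear r))
        (Lr M (crr L₁ (Seg w)) row w (segFar r))
        (Arw M (crr L₁ (Seg w)) row w (segNear r) (segFar r)) (rwM L₁ r)
        (trM M w L₁ D row D₀ Hs₀ r) d ∧
      ∀ z, (z ∈ frM M w L₁ D V ∨ ∃ u, z ∈ nrM M w L₁ D row D₀ Hs₀ V u) →
        SeeR (rwM L₁) (Sees M (crr L₁ (Seg w))) z r →
        PWitD (ES (Sees M (crr L₁ (Seg w)))) (Lr M (crr L₁ (Seg w)) row w (segNear r))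
          (Lr M (crr L₁ (Seg w)) row w (segFar r))
          (Arw M (crr L₁ (Seg w)) row w (segNear r) (segFar r)) (rwM L₁ r)
          (trM M w L₁ D row D₀ Hs₀ r) z d := by
  obtain ⟨h1, h2, h3⟩ := on_row hd hr hs
  have hdD := h1.1
  have hcl := h.cl d hdD
  obtain ⟨huv, ⟨hu, _⟩, ⟨hv, _⟩⟩ := h.vends hr (u := segNear r) (v := segFar r) rfl
  have hs' := (h.see_ends hr).1 hs
  have hswap : srow r = s(segFar r, segNear r) := Sym2.eq_swap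
  have hN : RungN M (crr L₁ (Seg w)) row w D₀ δ₁ Hs₀ Om₂ (segNear r) (segFar r) d :=
    Or.inl (Or.inl hk)
  have hxd := h.rnd.rungN_x hdD hcl.1 huv hu hv hs' hN
  have hTT : ∀ t ∈ trM M w L₁ D row D₀ Hs₀ r, (t ∈ M.closure (crr L₁ (Seg w)) ∧
      t ∉ crr L₁ (Seg w)) ∧ ∀ c : ChW (crr L₁ (Seg w)) row w, ∀ x ∈ LocR M (crr L₁ (Seg w)) row c.1 t,
        RegW w D₁ Hs₁ x → x = segNear r ∨ x = segFar r :=
    fun t ht => (mem_TRow₁ _ _).1 (h.trM_sub ht)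
  rw [es_sees, rw_eq h.rw (h.vis r hr).1 (u := segNear r) (v := segFar r) rfl]
  refine ⟨h.rnd.rowB h.hβ hdD hcl.1 hcl.2 huv hu hv hs' hxd hTT, fun z hz hsz => ?_⟩
  have hzD := rung_D hz
  have hcz := h.cl z hzD
  have hsz' := (h.see_ends hr).1 hsz
  have hNz := h.rungN hz hr rfl hsz
  refine h.rnd.rowD h.hβ hzD hcz.1 hcz.2 hdD hcl.1 hcl.2 huv hu hv hsz' hs'
    (h.rnd.rungN_x hzD hcz.1 huv hu hv hsz' hNz) hxd ?_ hTT
  refine h.rnd.rungN_pr h.hβ hzD hcz hdD hcl huv hu hv hsz' hs' hNz hN ?_ ?_ ?_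
  · exact fun _ h5 => (h3 _ _ rfl).2 (h.nearN_star hdD huv hu hv hs' h5)
  · exact fun _ h5 => (h3 _ _ hswap).2 (h.nearN_star hdD (wadj_swap huv) hv hu (seeP_symm hs') h5)
  · intro p q hF hF'
    exfalso
    have hspq := (h.rnd.sn_iff hcz.1 (h.rnd.reg hF.vp)).1 hF.sn
    have hspq' := (h.rnd.sn_iff hcl.1 (h.rnd.reg hF.vp)).1 hF'.sn
    obtain ⟨-, i, -, hiV, hi'⟩ := h.far_of33 hz hr rfl hsz hF.adj hF.vp hF.vq hF.pn hF.qn hspq
    have h4 := h1.2.2.2 _ hiV ((h.see_iff hiV hi').2 hspq')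
    have h5 : p ∈ srow r := by
      rw [← h4, hi']
      exact Sym2.mem_mk_left _ _
    rcases mem_srow.1 h5 with h6 | h6
    · exact hF.pn (Or.inl h6.symm)
    · exact hF.pn (Or.inr h6.symm)

/-- **(alpha)** for a (ONE) element which is clean in round 0 -/
theorem CtxM.one_alpha [M.Finite] (hd : d ∈ onM M w L₁ D row D₀ Hs₀ V) (hr : r ∈ V)
    (hs : SeeR (rwM L₁) (Sees M (crr L₁ (Seg w))) d r)
    (ho : OneE M (crr L₁ (Seg w)) row w D₀ δ₁ Hs₀ Om₂ (segNear r) (segFar r) d)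
    (hcd : ∀ c, ∀ x ∈ YW M (crr L₁ (Seg w)) row w D₀ Hs₀ d c, OutW δ₀ w Om₁ x) :
    PWitB (ES (Sees M (crr L₁ (Seg w)))) (Lr M (crr L₁ (Seg w)) row w (segNear r))
        (Lr M (crr L₁ (Seg w)) row w (segFar r))
        (Arw M (crr L₁ (Seg w)) row w (segNear r) (segFar r)) (rwM L₁ r)
        (trM M w L₁ D row D₀ Hs₀ r) d ∧
      ∀ z, (z ∈ frM M w L₁ D V ∨ ∃ u, z ∈ nrM M w L₁ D row D₀ Hs₀ V u) →
        SeeR (rwM L₁) (Sees M (crr L₁ (Seg w))) z r →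
        PWitD (ES (Sees M (crr L₁ (Seg w)))) (Lr M (crr L₁ (Seg w)) row w (segNear r))
          (Lr M (crr L₁ (Seg w)) row w (segFar r))
          (Arw M (crr L₁ (Seg w)) row w (segNear r) (segFar r)) (rwM L₁ r)
          (trM M w L₁ D row D₀ Hs₀ r) z d := by
  obtain ⟨h1, h2, h3⟩ := on_row hd hr hs
  have hdD := h1.1
  obtain ⟨huv, ⟨hu, _⟩, ⟨hv, _⟩⟩ := h.vends hr (u := segNear r) (v := segFar r) rfl
  have hs' := (h.see_ends hr).1 hs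
  have hswap : srow r = s(segFar r, segNear r) := Sym2.eq_swap
  have nu := (h3 _ _ rfl).2
  have nv := (h3 _ _ hswap).2
  have hT : trM M w L₁ D row D₀ Hs₀ r ⊆
      TRow M (crr L₁ (Seg w)) row w D₀ Hs₀ (segNear r) (segFar r) := fun t ht => ht.2
  have qd := h.rnd.oneE_quiet hdD huv hu hv ho
  rw [es_sees, rw_eq h.rw (h.vis r hr).1 (u := segNear r) (v := segFar r) rfl]
  refine ⟨h.rnd.oneE_pwitB h.hβ hdD huv hu hv ho hcd hT, fun z hz hsz => ?_⟩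
  have hzD := rung_D hz
  have hcz := h.cl z hzD
  have hsz' := (h.see_ends hr).1 hsz
  rcases h.rungN hz hr rfl hsz with hk | ⟨y, hl⟩ | ⟨y, hl⟩
  · exact h.rnd.oneE_rungD h.hβ hdD hzD hcz huv hu hv ho hcd hT hsz' hk (fun _ => nu) fun _ => nv
  · exact (h.rnd.like_pwitD₀ hl h.hβ huv hu hv hzD hdD ho.cl hs' hcd qd
      (h.rnd.ex_one hdD huv hu hv ho nu) hT).1
  · have hp := (h.rnd.like_pr2 hl (wadj_swap huv) hv hdD ho.cl (seeP_symm hs')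
      (h.rnd.ex_one hdD (wadj_swap huv) hv hu ho.symm nv)).flip
    exact h.rnd.pwitD_pr2 h.hβ hzD hcz hdD ho.cl huv hu hv
      (fun c x hx => h.rnd.clean01 (h.rnd.like_clean hl (wadj_swap huv) hv c x hx)) hcd
      (Or.inr (h.rnd.like_quiet hl (wadj_swap huv) hv hu).1) qd hsz' hs' hT hp

/-- **`one_wit`** -/
theorem CtxM.one_wit [M.Finite] : ∀ d ∈ onM M w L₁ D row D₀ Hs₀ V, ∀ r ∈ V,
    SeeR (rwM L₁) (Sees M (crr L₁ (Seg w))) d r →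
    (PWitB (ES (Sees M (crr L₁ (Seg w)))) (Lr M (crr L₁ (Seg w)) row w (segNear r))
        (Lr M (crr L₁ (Seg w)) row w (segFar r))
        (Arw M (crr L₁ (Seg w)) row w (segNear r) (segFar r)) (rwM L₁ r)
        (trM M w L₁ D row D₀ Hs₀ r) d ∧
      ∀ z, (z ∈ frM M w L₁ D V ∨ ∃ u, z ∈ nrM M w L₁ D row D₀ Hs₀ V u) →
        SeeR (rwM L₁) (Sees M (crr L₁ (Seg w))) z r →
        PWitD (ES (Sees M (crr L₁ (Seg w)))) (Lr M (crr L₁ (Seg w)) row w (segNear r))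
          (Lr M (crr L₁ (Seg w)) row w (segFar r))
          (Arw M (crr L₁ (Seg w)) row w (segNear r) (segFar r)) (rwM L₁ r)
          (trM M w L₁ D row D₀ Hs₀ r) z d) ∨
    ((∀ z, (z ∈ frM M w L₁ D V ∨ ∃ u, z ∈ nrM M w L₁ D row D₀ Hs₀ V u) →
        SeeR (rwM L₁) (Sees M (crr L₁ (Seg w))) z r →
        PWitB (ES (Sees M (crr L₁ (Seg w)))) (Lr M (crr L₁ (Seg w)) row w (segNear r))
          (Lr M (crr L₁ (Seg w)) row w (segFar r))
          (Arw M (crr L₁ (Seg w)) row w (segNear r) (segFar r)) (rwM L₁ r)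
          (insert d (trM M w L₁ D row D₀ Hs₀ r)) z) ∧
      (∀ z, (z ∈ frM M w L₁ D V ∨ ∃ u, z ∈ nrM M w L₁ D row D₀ Hs₀ V u) →
        ∀ z', (z' ∈ frM M w L₁ D V ∨ ∃ u, z' ∈ nrM M w L₁ D row D₀ Hs₀ V u) → z ≠ z' →
        SeeR (rwM L₁) (Sees M (crr L₁ (Seg w))) z r →
        SeeR (rwM L₁) (Sees M (crr L₁ (Seg w))) z' r →
        (∀ u, TST.At segNear segFar r u → z ∈ nrM M w L₁ D row D₀ Hs₀ V u →
          z' ∉ nrM M w L₁ D row D₀ Hs₀ V u) →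
        (∀ i j, z ∈ frM M w L₁ D V → z' ∈ frM M w L₁ D V → r = rfM M w L₁ V z i →
          r = rfM M w L₁ V z' j → rfM M w L₁ V z (!i) = rfM M w L₁ V z' (!j) →
          ¬ TST.EqOn (rwM L₁ (rfM M w L₁ V z (!i)))
            (Arw M (crr L₁ (Seg w)) row w (segNear (rfM M w L₁ V z (!i)))
              (segFar (rfM M w L₁ V z (!i))) z)
            (Arw M (crr L₁ (Seg w)) row w (segNear (rfM M w L₁ V z (!i)))
              (segFar (rfM M w L₁ V z (!i))) z')) →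
        PWitD (ES (Sees M (crr L₁ (Seg w)))) (Lr M (crr L₁ (Seg w)) row w (segNear r))
          (Lr M (crr L₁ (Seg w)) row w (segFar r))
          (Arw M (crr L₁ (Seg w)) row w (segNear r) (segFar r)) (rwM L₁ r)
          (insert d (trM M w L₁ D row D₀ Hs₀ r)) z z') ∧
      ∀ x ∈ rwM L₁ r, (x ∈ Lr M (crr L₁ (Seg w)) row w (segNear r) d ↔
          x ∈ Arw M (crr L₁ (Seg w)) row w (segNear r) (segFar r) d) ∧
        (x ∈ Lr M (crr L₁ (Seg w)) row w (segFar r) d ↔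
          x ∉ Arw M (crr L₁ (Seg w)) row w (segNear r) (segFar r) d)) := by
  intro d hd r hr hs
  rcases h.on_kind hd hr (u := segNear r) (v := segFar r) rfl hs with hk | ho
  · exact Or.inl (h.one_far hd hr hs hk)
  have hdD := (on_row hd hr hs).1.1
  obtain ⟨huv, ⟨hu, _⟩, ⟨hv, _⟩⟩ := h.vends hr (u := segNear r) (v := segFar r) rfl
  rcases h.rnd.oneE_foot hdD huv hu hv ho with hcd | hb
  · exact Or.inl (h.one_alpha hd hr hs ho hcd)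
  · right
    have hT : insert d (trM M w L₁ D row D₀ Hs₀ r) ⊆
        TRow M (crr L₁ (Seg w)) row w D₁ Hs₁ (segNear r) (segFar r) := by
      rintro t (rfl | ht)
      · exact hb
      · exact h.trM_sub ht
    refine ⟨fun z hz hsz => h.wB' r hr _ hT z hz hsz,
      fun z hz z' hz' hne hsz hsz' hn hf => h.wD' r hr _ hT z hz z' hz' hne hsz hsz' hn hf, ?_⟩
    rw [rw_eq h.rw (h.vis r hr).1 (u := segNear r) (v := segFar r) rfl]
    exact h.rnd.oneE_compl hdD huv hu hv ho hb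

/-- **`one_star`** -/
theorem CtxM.one_star [M.Finite] : ∀ d ∈ onM M w L₁ D row D₀ Hs₀ V, ∀ r ∈ V,
    SeeR (rwM L₁) (Sees M (crr L₁ (Seg w))) d r → ∀ u, TST.At segNear segFar r u →
    TWit (ES (Sees M (crr L₁ (Seg w)))) (fun t i => Lr M (crr L₁ (Seg w)) row w (nbV u i) t)
      (ASt M (crr L₁ (Seg w)) row w u (nbV u))
      (fun t x y v => t ∈ M.closure (crr L₁ (Seg w) \ {x, y, v}))
      (fun i => rwM L₁ (sgV w u (nbV u i))) (tuM M w L₁ D row D₀ Hs₀ u) d ∨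
    ∀ z, (z ∈ frM M w L₁ D V ∨ ∃ v, z ∈ nrM M w L₁ D row D₀ Hs₀ V v) →
      z ∉ nrM M w L₁ D row D₀ Hs₀ V u →
      (∃ r' ∈ V, TST.At segNear segFar r' u ∧ SeeR (rwM L₁) (Sees M (crr L₁ (Seg w))) z r') →
      TWit (ES (Sees M (crr L₁ (Seg w)))) (fun t i => Lr M (crr L₁ (Seg w)) row w (nbV u i) t)
        (ASt M (crr L₁ (Seg w)) row w u (nbV u))
        (fun t x y v => t ∈ M.closure (crr L₁ (Seg w) \ {x, y, v}))
        (fun i => rwM L₁ (sgV w u (nbV u i))) (insert d (tuM M w L₁ D row D₀ Hs₀ u)) z := by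
  intro d hd r hr hs u hu
  obtain ⟨h1, h2, h3⟩ := on_row hd hr hs
  have hdD := h1.1
  have hcl := h.cl d hdD
  obtain ⟨v, i, huv, hi, hrow, hsg, hVu, hVv, -, -⟩ := h.end_row hr hu
  have hs' := (h.see_iff hr hrow).1 hs
  have hnu := (h3 u v hrow).2
  have e1 : (fun i => rwM L₁ (sgV w u (nbV u i))) = SX (crr L₁ (Seg w)) row u (nbV u) := by
    funext i
    exact (h.leg hVu i).2.2
  have hT : tuM M w L₁ D row D₀ Hs₀ u ⊆ TStar M (crr L₁ (Seg w)) row w D₀ Hs₀ u :=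
    fun t ht => ht.2
  rcases h.on_kind hd hr hrow hs with hk | ho
  · left
    rw [es_sees, e1]
    exact (h.rnd.on2_twit h.hβ hdD hcl huv hVu hVv hVu.nb hs' (Or.inl hk) hT).resolve_left hnu
  · rcases h.rnd.oneE_one_star h.hβ hdD huv hVu hVv hVu.nb ho hT with h4 | h4 | h4
    · left
      rw [es_sees, e1]
      exact h4
    · exact absurd h4 hnu
    · right
      rintro z hz hn ⟨r', hr', hu', hs1⟩
      exact h.wS' hr' hu' h4 hz hn hs1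

/-! ### Degenerate tripods -/

omit h in
/-- **`dt_at`** -/
theorem CtxM.dt_at' : ∀ d ∈ dtM M w L₁ D row D₀ Hs₀ V, roM M w L₁ D V d ∈ V →
    TST.At segNear segFar (roM M w L₁ D V d) (ctM M w L₁ D row D₀ Hs₀ V d) := by
  intro d hd _
  obtain ⟨v, h1, -⟩ := ct_spec hd
  exact (at_of_srow h1).1

/-- **`dt_at`** -/
theorem CtxM.dt_at : ∀ d ∈ dtM M w L₁ D row D₀ Hs₀ V, roM M w L₁ D V d ∈ V →
    TST.At segNear segFar (roM M w L₁ D V d) (ctM M w L₁ D row D₀ Hs₀ V d) := CtxM.dt_at'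

/-- degenerate tripods in the language of locations -/
theorem CtxM.dtE [M.Finite] (hd : d ∈ dtM M w L₁ D row D₀ Hs₀ V) :
    ∃ v, srow (roM M w L₁ D V d) = s(ctM M w L₁ D row D₀ Hs₀ V d, v) ∧
      wadj (ctM M w L₁ D row D₀ Hs₀ V d) v ∧ VisR w δ₁ Om₂ (ctM M w L₁ D row D₀ Hs₀ V d) ∧
      VisR w δ₁ Om₂ v ∧
      DtE M (crr L₁ (Seg w)) row w D₀ δ₁ Hs₀ Om₂ (ctM M w L₁ D row D₀ Hs₀ V d) v d := by
  obtain ⟨h1, h2, h3, h4⟩ := dt_one hd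
  obtain ⟨v, h5, h6⟩ := ct_spec hd
  obtain ⟨huv, ⟨hu, hu'⟩, ⟨hv, hv'⟩⟩ := h.vends h2 h5
  refine ⟨v, h5, huv, hu, hv, h.cl d h1, (h.see_iff h2 h5).1 h3, fun p q hpq hp hq hs => ?_, h6⟩
  exact h.rnd.dt_only51 h1 (h.cl d h1) huv hu h6 hpq (h.rnd.reg hp) hs

/-- **`dt_T`** -/
theorem CtxM.dt_T [M.Finite] : ∀ d ∈ dtM M w L₁ D row D₀ Hs₀ V, roM M w L₁ D V d ∈ V →
    d ∈ tuM M w L₁ D row D₀ Hs₀ (ctM M w L₁ D row D₀ Hs₀ V d) := by
  intro d hd _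
  obtain ⟨v, h1, h2, h3, h4, h5⟩ := h.dtE hd
  exact ⟨(dt_one hd).1, h5.star h2⟩

/-- **`dt_cls`** -/
theorem CtxM.dt_cls [M.Finite] : ∀ d ∈ dtM M w L₁ D row D₀ Hs₀ V, roM M w L₁ D V d ∈ V →
    ∀ x ∈ rwM L₁ (roM M w L₁ D V d), ∀ y ∈ rwM L₁ (roM M w L₁ D V d),
    (ES (Sees M (crr L₁ (Seg w))) d x y ↔
      (x ∈ Lr M (crr L₁ (Seg w)) row w (segNear (roM M w L₁ D V d)) d ↔
        y ∈ Lr M (crr L₁ (Seg w)) row w (segNear (roM M w L₁ D V d)) d)) := by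
  intro d hd hV
  obtain ⟨v, h1, h2, h3, h4, h5⟩ := h.dtE hd
  obtain ⟨k1, k2, -⟩ := h.rnd.dtE_cls (dt_one hd).1 h2 h3 h4 h5
  rw [es_sees, rw_eq h.rw (h.vis _ hV).1 h1]
  have h6 : s(segNear (roM M w L₁ D V d), segFar (roM M w L₁ D V d)) =
      s(ctM M w L₁ D row D₀ Hs₀ V d, v) := h1
  rcases Sym2.eq_iff.1 h6 with ⟨h7, -⟩ | ⟨h7, -⟩
  · rw [h7]
    exact k1
  · rw [h7]
    exact k2

/-- **`dt_hid`** -/
theorem CtxM.dt_hid [M.Finite] : ∀ d ∈ dtM M w L₁ D row D₀ Hs₀ V, roM M w L₁ D V d ∈ V →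
    ∀ k, sgV w (ctM M w L₁ D row D₀ Hs₀ V d) (nbV (ctM M w L₁ D row D₀ Hs₀ V d) k) ≠
      roM M w L₁ D V d →
    ∀ x ∈ rwM L₁ (sgV w (ctM M w L₁ D row D₀ Hs₀ V d) (nbV (ctM M w L₁ D row D₀ Hs₀ V d) k)),
      x ∉ Lr M (crr L₁ (Seg w)) row w (nbV (ctM M w L₁ D row D₀ Hs₀ V d) k) d := by
  intro d hd hV k hk
  obtain ⟨v, h1, h2, h3, h4, h5⟩ := h.dtE hd
  have hne : nbV (ctM M w L₁ D row D₀ Hs₀ V d) k ≠ v := by
    intro h6
    refine hk (srow_inj ?_)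
    rw [(h.leg h3 k).2.1, h1, h6]
  rw [(h.leg h3 k).2.2]
  exact (h.rnd.dt_hid51 h5.cl h3 h2 h5.dt (h3.nb_adj k) hne).2

/-! ### Nodes, same-row elements, near elements -/

/-- **`node`** -/
theorem CtxM.node [M.Finite] : ∀ r ∈ V, ∀ u, TST.At segNear segFar r u →
    ∀ i, sgV w u (nbV u i) = r → ∀ t ∈ trM M w L₁ D row D₀ Hs₀ r, ∀ f : Fin 3 → α,
    (∀ l, f l ∈ rwM L₁ (sgV w u (nbV u l))) → (f i ∈ Lr M (crr L₁ (Seg w)) row w u t ↔
      t ∈ M.closure (crr L₁ (Seg w) \ {f 0, f 1, f 2})) := by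
  intro r hr u hu i hi t ht f hf
  obtain ⟨v, j, huv, hj, hrow, hsg, hVu, hVv, hbu, -⟩ := h.end_row hr hu
  have hrow' : srow r = s(u, nbV u i) := by
    rw [← hi]
    exact (h.leg hVu i).2.1
  exact h.rnd.node51 hVu hVu.nb (hbu _ (hVu.nb_adj i)) ((mem_trM_iff hrow').1 ht).2
    (fun l => (h.leg hVu l).2.2 ▸ hf l)

/-- **`same_O`** -/
theorem CtxM.same_O [M.Finite] : ∀ r ∈ V, ∀ u, TST.At segNear segFar r u →
    ∀ t ∈ trM M w L₁ D row D₀ Hs₀ r, ∀ j, sgV w u (nbV u j) ≠ r →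
    ∀ x ∈ rwM L₁ (sgV w u (nbV u j)), x ∈ Lr M (crr L₁ (Seg w)) row w (nbV u j) t := by
  intro r hr u hu t ht j hj x _
  obtain ⟨v, i, huv, hi, hrow, hsg, hVu, hVv, -, -⟩ := h.end_row hr hu
  refine h.rnd.same_O51 hVu ((mem_trM_iff hrow).1 ht).2 (hVu.nb_adj j) (fun h1 => hj ?_) x
  exact srow_inj (((h.leg hVu j).2.1.trans (by rw [h1])).trans hrow.symm)

/-- the classes of a near element, in the language of locations -/
theorem CtxM.awN' [M.Finite] (hr : r ∈ V) (hrow : srow r = s(u, v))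
    (hz : z ∈ nrM M w L₁ D row D₀ Hs₀ V u) (hs : SeeR (rwM L₁) (Sees M (crr L₁ (Seg w))) z r) :
    ∀ x ∈ RX (crr L₁ (Seg w)) row u v,
      (x ∈ Arw M (crr L₁ (Seg w)) row w u v z ↔ x ∉ Lr M (crr L₁ (Seg w)) row w v z) ∧
      (x ∈ Arw M (crr L₁ (Seg w)) row w v u z ↔ x ∈ Lr M (crr L₁ (Seg w)) row w v z) := by
  obtain ⟨huv, ⟨hu, hu'⟩, ⟨hv, hv'⟩⟩ := h.vends hr hrow
  have hzD := hz.1.1
  have hcl := h.cl z hzD
  have hs' := (h.see_iff hr hrow).1 hs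
  obtain ⟨k1, k2⟩ := h.near_row hz hr hs
  by_cases hex : ∃ a, wadj u a ∧ a ≠ v ∧ SeeP M (crr L₁ (Seg w)) row z u a
  · obtain ⟨a, hua, hav, hsa⟩ := hex
    obtain ⟨-, -, h1, h2⟩ := h.rnd.awN51 hzD hcl huv hu hv hs' hua hav hsa
    exact fun x _ => ⟨h1 x, h2 x⟩
  push Not at hex
  have hT := (h.rnd.locT hzD hcl.1).toLocS
  have hsub := (mem_tStar₀.1 hz.1.2).2
  have ho : OneE M (crr L₁ (Seg w)) row w D₀ δ₁ Hs₀ Om₂ u v z := by
    refine ⟨hcl, hs', fun p q hpq hp hq hsp => ?_, k2 u v hrow,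
      fun hY => k2 v u (hrow.trans Sym2.eq_swap) (dtY_swap hY),
      fun hY => k1 ((mem_trM_iff hrow).2 ⟨hzD, (mem_TRow₀ _ _).2 ⟨hcl, hY⟩⟩)⟩
    have h1 := (h.rnd.sn_iff hcl.1 (h.rnd.reg hp)).2 hsp
    rcases hT.star_rows51 hu hsub hpq h1 with rfl | rfl
    · by_contra h2
      exact hex q hpq (fun h3 => h2 (by rw [h3])) hsp
    · by_contra h2
      exact hex p (wadj_swap hpq) (fun h3 => h2 (by rw [h3, Sym2.eq_swap])) (seeP_symm hsp)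
  obtain ⟨y, hl⟩ := h.rnd.likeE hzD huv hu hv hu' ho hz.1.2
  have h1 := h.rnd.like_cls hl hzD huv hu hv
  have q := (h.rnd.like_quiet hl huv hu hv).2
  intro x hx
  refine ⟨?_, ?_⟩
  · rw [(h1 x hx).2, not_not]
  · rw [Arw, if_pos q]

/-- **`awN`** -/
theorem CtxM.awN [M.Finite] : ∀ r ∈ V, ∀ u, TST.At segNear segFar r u →
    ∀ i, sgV w u (nbV u i) = r → ∀ z ∈ nrM M w L₁ D row D₀ Hs₀ V u,
    SeeR (rwM L₁) (Sees M (crr L₁ (Seg w))) z r → ∀ x ∈ rwM L₁ r,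
    (x ∈ Arw M (crr L₁ (Seg w)) row w (segNear r) (segFar r) z ↔
      (segNear r = u ∧ x ∉ Lr M (crr L₁ (Seg w)) row w (nbV u i) z) ∨
      (segNear r ≠ u ∧ x ∈ Lr M (crr L₁ (Seg w)) row w (nbV u i) z)) := by
  intro r hr u hu i hi z hz hs x hx
  obtain ⟨v, j, huv, hj, hrow, hsg, hVu, hVv, -, -⟩ := h.end_row hr hu
  have hrow' : srow r = s(u, nbV u i) := by
    rw [← hi]
    exact (h.leg hVu i).2.1
  rw [rw_eq h.rw (h.vis r hr).1 hrow'] at hx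
  obtain ⟨h1, h2⟩ := h.awN' hr hrow' hz hs x hx
  have h4 : s(segNear r, segFar r) = s(u, nbV u i) := hrow'
  have hne : u ≠ nbV u i := wadj_ne (hVu.nb_adj i)
  rcases Sym2.eq_iff.1 h4 with ⟨h5, h6⟩ | ⟨h5, h6⟩
  · rw [h5, h6, h1]
    constructor
    · exact fun h7 => Or.inl ⟨rfl, h7⟩
    · rintro (h7 | h7)
      · exact h7.2
      · exact absurd rfl h7.1
  · rw [h5, h6, h2]
    constructor
    · exact fun h7 => Or.inr ⟨hne.symm, h7⟩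
    · rintro (h7 | h7)
      · exact absurd h7.1 hne.symm
      · exact h7.2

/-! ### All facts -/

/-- **The facts of the label level for `M`.** -/
theorem CtxM.labFacts51 [M.Finite] : LabFactsM M w L₁ D row D₀ Hs₀ V where
  loopless := h.loopless
  simple := h.simple
  fin := h.fin
  dis := h.dis
  legs := h.legs
  kind := h.kind
  far_V := h.far_V
  far_dis := h.far_dis
  far_see := h.far_see
  near_one := h.near_one
  near_see := h.near_see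
  near_hid := h.near_hid
  near_one_hid := h.near_one_hid
  near_ne := h.near_ne
  near_T := h.near_T
  same_see := h.same_see
  same_T := h.same_T
  one_see := h.one_see
  wB := h.wB
  wD := h.wD
  wS := h.wS
  node := h.node
  same_O := h.same_O
  awE := h.awE
  awN := h.awN
  one_cls := h.one_cls
  one_wit := h.one_wit
  one_star := h.one_star
  dt_at := h.dt_at
  dt_T := h.dt_T
  dt_cls := h.dt_cls
  dt_hid := h.dt_hid

end ctx

end TSH
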