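import Pool.Agent.TST.LabP33

/-!
# Facts of the label level for `M`: degenerate tripods, nodes, near rungs (R6 of T-star, helper77)
-/

set_option autoImplicit false
set_option linter.unusedSectionVars false

open Set BIC BICS CWL
open scoped Matroid

namespace TSH

universe u

open DA TST

section ctx

variable {α : Type u} {M : Matroid α} {w : ℕ} {L₁ : Bool × ℕ × ℕ → List α} {D : Set α}
  {row : α → Sym2 (ℕ × ℕ)} {β D₀ δ₀ D₁ δ₁ : ℕ} {Hm Hs₀ Om₁ Hs₁ Om₂ : Finset (ℕ × ℕ)}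
  {V : Set (Bool × ℕ × ℕ)} {z x y : α} {u v : ℕ × ℕ} {r r' : Bool × ℕ × ℕ} {i j : Fin 3}

variable (h : CtxM M w L₁ D row β D₀ δ₀ D₁ δ₁ Hm Hs₀ Om₁ Hs₁ Om₂ V)
include h

omit h in
/-- the row of an element which sees exactly one visible row -/
lemma ro_eq (hz : oneM M w L₁ D V z r) : roM M w L₁ D V z = r := by
  have h1 : ∃ r, oneM M w L₁ D V z r := ⟨r, hz⟩
  unfold roM
  rw [dif_pos h1]
  exact hz.2.2.2 _ h1.choose_spec.2.1 h1.choose_spec.2.2.1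

omit h in
lemma one_mem (hd : z ∈ onM M w L₁ D row D₀ Hs₀ V ∪ dtM M w L₁ D row D₀ Hs₀ V) :
    oneM M w L₁ D V z (roM M w L₁ D V z) := by
  rcases hd with ⟨r, h1, _⟩ | ⟨r, h1, _⟩
  · rw [ro_eq h1]
    exact h1
  · rw [ro_eq h1]
    exact h1

theorem CtxM.one_see : ∀ d ∈ onM M w L₁ D row D₀ Hs₀ V ∪ dtM M w L₁ D row D₀ Hs₀ V, ∀ r ∈ V,
    SeeR (rwM L₁) (Sees M (crr L₁ (Seg w))) d r → r = roM M w L₁ D V d :=
  fun _ hd r hr hs => (one_mem hd).2.2.2 r hr hs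

omit h in
/-- the centre of a degenerate tripod -/
lemma ct_spec (hd : z ∈ dtM M w L₁ D row D₀ Hs₀ V) :
    ∃ v, srow (roM M w L₁ D V z) = s(ctM M w L₁ D row D₀ Hs₀ V z, v) ∧
      DtY M w L₁ row D₀ Hs₀ z (ctM M w L₁ D row D₀ Hs₀ V z) v := by
  have h1 : ∃ u v, srow (roM M w L₁ D V z) = s(u, v) ∧ DtY M w L₁ row D₀ Hs₀ z u v := by
    obtain ⟨r, h1, u, v, h2, h3⟩ := hd
    rw [ro_eq h1]
    exact ⟨u, v, h2, h3⟩
  have e : ctM M w L₁ D row D₀ Hs₀ V z = h1.choose := by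
    unfold ctM
    rw [dif_pos h1]
  rw [e]
  exact h1.choose_spec

variable [M.Finite]

/-- the data of a degenerate tripod -/
lemma CtxM.dt_data (hd : z ∈ dtM M w L₁ D row D₀ Hs₀ V) :
    ∃ v, srow (roM M w L₁ D V z) = s(ctM M w L₁ D row D₀ Hs₀ V z, v) ∧
      wadj (ctM M w L₁ D row D₀ Hs₀ V z) v ∧ VisR w δ₁ Om₂ (ctM M w L₁ D row D₀ Hs₀ V z) ∧
      VisR w δ₁ Om₂ v ∧
      DtE M (crr L₁ (Seg w)) row w D₀ δ₁ Hs₀ Om₂ (ctM M w L₁ D row D₀ Hs₀ V z) v z := by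
  obtain ⟨v, h1, h2⟩ := ct_spec hd
  have h3 := one_mem (Or.inr hd)
  have hr := h3.2.1
  obtain ⟨v', i, huv, _, hrow, _, hvu, hvv, _⟩ := h.end_row hr (at_of_srow h1).1
  have e : v' = v := by
    rw [h1] at hrow
    rcases Sym2.eq_iff.1 hrow with ⟨_, h2⟩ | ⟨h1, h2⟩
    · exact h2.symm
    · exact (h2.trans h1).symm
  subst e
  exact ⟨v', h1, huv, hvu, hvv, h.cl z h3.1, (h.see_iff hr h1).1 h3.2.2.1,
    fun p q hpq hp hq hs => h.rnd.dt_only51 h3.1 (h.cl z h3.1) huv hvu h2 hpq (h.rnd.reg hp) hs, h2⟩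

theorem CtxM.dt_at : ∀ d ∈ dtM M w L₁ D row D₀ Hs₀ V, roM M w L₁ D V d ∈ V →
    TST.At segNear segFar (roM M w L₁ D V d) (ctM M w L₁ D row D₀ Hs₀ V d) :=
  fun d hd _ => (at_of_srow (ct_spec hd).choose_spec.1).1

theorem CtxM.dt_T : ∀ d ∈ dtM M w L₁ D row D₀ Hs₀ V, roM M w L₁ D V d ∈ V →
    d ∈ tuM M w L₁ D row D₀ Hs₀ (ctM M w L₁ D row D₀ Hs₀ V d) := by
  intro d hd _
  obtain ⟨v, _, huv, _, _, hE⟩ := h.dt_data hd
  exact ⟨(one_mem (Or.inr hd)).1, hE.star huv⟩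

theorem CtxM.dt_cls : ∀ d ∈ dtM M w L₁ D row D₀ Hs₀ V, roM M w L₁ D V d ∈ V →
    ∀ x ∈ rwM L₁ (roM M w L₁ D V d), ∀ y ∈ rwM L₁ (roM M w L₁ D V d),
      (ES (Sees M (crr L₁ (Seg w))) d x y ↔
        (x ∈ Lr M (crr L₁ (Seg w)) row w (segNear (roM M w L₁ D V d)) d ↔
          y ∈ Lr M (crr L₁ (Seg w)) row w (segNear (roM M w L₁ D V d)) d)) := by
  intro d hd hr x hx y hy
  obtain ⟨v, h1, huv, hvu, hvv, hE⟩ := h.dt_data hd
  obtain ⟨k1, k2, k3⟩ := h.rnd.dtE_cls (one_mem (Or.inr hd)).1 huv hvu hvv hE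
  rw [rw_eq h.rw (h.vis _ hr).1 h1] at hx hy
  rw [es_sees]
  have h4 : segNear (roM M w L₁ D V d) ∈ srow (roM M w L₁ D V d) := Sym2.mem_mk_left _ _
  rw [h1] at h4
  rcases Sym2.mem_iff.1 h4 with h5 | h5
  · rw [h5]
    exact k1 x hx y hy
  · rw [h5]
    exact k2 x hx y hy

theorem CtxM.dt_hid : ∀ d ∈ dtM M w L₁ D row D₀ Hs₀ V, roM M w L₁ D V d ∈ V →
    ∀ k, sgV w (ctM M w L₁ D row D₀ Hs₀ V d) (nbV (ctM M w L₁ D row D₀ Hs₀ V d) k) ≠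
      roM M w L₁ D V d →
    ∀ x ∈ rwM L₁ (sgV w (ctM M w L₁ D row D₀ Hs₀ V d) (nbV (ctM M w L₁ D row D₀ Hs₀ V d) k)),
      x ∉ Lr M (crr L₁ (Seg w)) row w (nbV (ctM M w L₁ D row D₀ Hs₀ V d) k) d := by
  intro d hd hr k hk x hx
  obtain ⟨v, h1, huv, hvu, hvv, hE⟩ := h.dt_data hd
  rw [(h.leg hvu k).2.2] at hx
  refine (h.rnd.dt_hid51 hE.cl hvu huv hE.dt (hvu.nb_adj k) ?_).2 x hx
  rintro rfl
  exact hk (sgV_row (h.vis _ hr).1 h1)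

/-- **The node of a star.** -/
theorem CtxM.node : ∀ r ∈ V, ∀ u, TST.At segNear segFar r u → ∀ i, sgV w u (nbV u i) = r →
    ∀ t ∈ trM M w L₁ D row D₀ Hs₀ r, ∀ f : Fin 3 → α, (∀ l, f l ∈ rwM L₁ (sgV w u (nbV u l))) →
      (f i ∈ Lr M (crr L₁ (Seg w)) row w u t ↔
        t ∈ M.closure (crr L₁ (Seg w) \ {f 0, f 1, f 2})) := by
  intro r hr u hu i hi t ht f hf
  obtain ⟨v, i', huv, hi', hrow, hsg, hvu, hvv, hbu, -⟩ := h.end_row hr hu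
  have hrow' : srow r = s(u, nbV u i) := by
    rw [← hi]
    exact (h.leg hvu i).2.1
  refine h.rnd.node51 (V := nbV u) (i := i) hvu hvu.nb (hbu _ (hvu.nb_adj i)) ?_ fun l => ?_
  · have h2 := ht.2
    unfold srow at hrow'
    rcases Sym2.eq_iff.1 hrow' with ⟨h3, h4⟩ | ⟨h3, h4⟩
    · rw [h3, h4] at h2
      exact h2
    · rw [h3, h4, mem_TRow₀, pair_comm] at h2
      exact (mem_TRow₀ _ _).2 h2
  · rw [← (h.leg hvu l).2.2]
    exact hf l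

/-- **The other legs** -/
theorem CtxM.same_O : ∀ r ∈ V, ∀ u, TST.At segNear segFar r u →
    ∀ t ∈ trM M w L₁ D row D₀ Hs₀ r, ∀ j, sgV w u (nbV u j) ≠ r →
      ∀ x ∈ rwM L₁ (sgV w u (nbV u j)), x ∈ Lr M (crr L₁ (Seg w)) row w (nbV u j) t := by
  intro r hr u hu t ht j hj x _
  obtain ⟨v, i', huv, hi', hrow, hsg, hvu, hvv, hbu, -⟩ := h.end_row hr hu
  refine h.rnd.same_O51 (v := v) hvu ?_ (hvu.nb_adj j) ?_ x
  · have h2 := ht.2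
    have hrow' := hrow
    unfold srow at hrow'
    rcases Sym2.eq_iff.1 hrow' with ⟨h3, h4⟩ | ⟨h3, h4⟩
    · rw [h3, h4] at h2
      exact h2
    · rw [h3, h4, mem_TRow₀, pair_comm] at h2
      exact (mem_TRow₀ _ _).2 h2
  · rintro rfl
    exact hj (sgV_row (h.vis r hr).1 hrow)

end ctx

end TSH
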