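import Pool.Agent.TST.LabM77
import Pool.Agent.DA.NearH

/-!
# Facts of the label level for `M`: rows and kinds (R6 of T-star, helper77)
-/

set_option autoImplicit false
set_option linter.unusedSectionVars false
set_option linter.unusedVariables false

open Set BIC BICS CWL
open scoped Matroid

namespace TSH

universe u

open DA TST

section ctx

variable {α : Type u} {M : Matroid α} {w : ℕ} {L₁ : Bool × ℕ × ℕ → List α} {D : Set α}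
  {row : α → Sym2 (ℕ × ℕ)} {β D₀ δ₀ D₁ δ₁ : ℕ} {Hm Hs₀ Om₁ Hs₁ Om₂ : Finset (ℕ × ℕ)}
  {V : Set (Bool × ℕ × ℕ)} {z x y : α} {u v : ℕ × ℕ} {r r' : Bool × ℕ × ℕ} {i j : Fin 3}

variable (h : CtxM M w L₁ D row β D₀ δ₀ D₁ δ₁ Hm Hs₀ Om₁ Hs₁ Om₂ V)
include h

omit h in
lemma srow_of_at (huv : u ≠ v) (h1 : TST.At segNear segFar r u)
    (h2 : TST.At segNear segFar r v) : srow r = s(u, v) := by
  unfold srow
  rcases h1 with rfl | rfl <;> rcases h2 with rfl | rfl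
  · exact absurd rfl huv
  · rfl
  · exact Sym2.eq_swap
  · exact absurd rfl huv

theorem CtxM.loopless : ∀ r ∈ V, segNear r ≠ segFar r := fun r _ => T2.near_ne_far r

theorem CtxM.simple : ∀ r ∈ V, ∀ r' ∈ V, ∀ u v, u ≠ v → TST.At segNear segFar r u →
    TST.At segNear segFar r v → TST.At segNear segFar r' u → TST.At segNear segFar r' v → r = r' :=
  fun _ _ _ _ _ _ huv h1 h2 h3 h4 =>
    srow_inj ((srow_of_at huv h1 h2).trans (srow_of_at huv h3 h4).symm)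

theorem CtxM.fin : ∀ r ∈ V, (rwM L₁ r).Finite := fun r _ => (L₁ r).finite_toSet

lemma CtxM.dis' (hr : r ∈ Seg w) (hr' : r' ∈ Seg w) (hne : r ≠ r') :
    Disjoint (rwM L₁ r) (rwM L₁ r') := by
  rw [disjoint_left]
  intro x hx hx'
  exact hne (srow_inj ((h.rw r hr x hx).symm.trans (h.rw r' hr' x hx')))

theorem CtxM.dis : ∀ r ∈ V, ∀ r' ∈ V, r ≠ r' → Disjoint (rwM L₁ r) (rwM L₁ r') :=
  fun _ hr _ hr' hne => h.dis' (h.vis _ hr).1 (h.vis _ hr').1 hne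

lemma CtxM.leg_ne (hu : VisR w δ₁ Om₂ u) (hij : i ≠ j) :
    sgV w u (nbV u i) ≠ sgV w u (nbV u j) := by
  intro he
  have h1 := (h.leg hu i).2.1
  rw [he, (h.leg hu j).2.1] at h1
  rcases Sym2.eq_iff.1 h1 with ⟨_, h2⟩ | ⟨h2, _⟩
  · exact hu.nb_ne hij h2.symm
  · exact wadj_ne (hu.nb_adj i) h2

theorem CtxM.legs : ∀ r ∈ V, ∀ u, TST.At segNear segFar r u →
    Legs (rwM L₁) V segNear segFar (fun u i => sgV w u (nbV u i)) nbV u := by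
  intro r hr u hu
  obtain ⟨v, i₀, huv, hi, hrow, hsg, hvu, hvv, -, -⟩ := h.end_row hr hu
  obtain ⟨c, hc⟩ := h.rnd.rep
  refine ⟨fun i => (at_of_srow (h.leg hvu i).2.1).1, fun i => (at_of_srow (h.leg hvu i).2.1).2,
    fun i => (wadj_ne (hvu.nb_adj i)).symm, ?_, ?_, fun i => (L₁ _).finite_toSet, ?_, ?_⟩
  · intro i j he
    by_contra hij
    exact h.leg_ne hvu hij he
  · intro r' hr' hu'
    obtain ⟨v', i', _, _, _, hsg', _⟩ := h.end_row hr' hu'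
    exact ⟨i', hsg'⟩
  · intro i
    obtain ⟨x, _, hx⟩ := h.rnd.rep_row (hvu.nb_adj i) hvu ⟨c, hc⟩
    refine ⟨x, ?_⟩
    have h1 := (h.leg hvu i).2.2
    exact h1 ▸ hx
  · intro i j hij
    exact h.dis' (h.leg hvu i).1 (h.leg hvu j).1 (h.leg_ne hvu hij)

variable [M.Finite]

/-- a visible row is seen: in the language of the location system -/
lemma CtxM.sn (hz : z ∈ D) (hr : r ∈ V) (hrow : srow r = s(u, v)) :
    SeeR (rwM L₁) (Sees M (crr L₁ (Seg w))) z r ↔ SnW M (crr L₁ (Seg w)) row w D₀ Hs₀ z u v := by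
  have hu : VisR w δ₁ Om₂ u := ((h.vis r hr).2 u (by rw [hrow]; exact Sym2.mem_mk_left _ _)).1
  rw [h.see_iff hr hrow, h.rnd.sn_iff (h.cl z hz).1 (h.rnd.reg hu)]

/-- the data of a far rung -/
lemma CtxM.far_data (hr : r ∈ V) (hr' : r' ∈ V)
    (hd : ∀ v, TST.At segNear segFar r v → ¬ TST.At segNear segFar r' v) :
    segNear r' ∉ ({segNear r, segFar r} : Set (ℕ × ℕ)) ∧
      segFar r' ∉ ({segNear r, segFar r} : Set (ℕ × ℕ)) := by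
  constructor
  · rintro (h1 | h1)
    · exact hd _ (Or.inl h1.symm) (Or.inl rfl)
    · exact hd _ (Or.inr (mem_singleton_iff.1 h1).symm) (Or.inl rfl)
  · rintro (h1 | h1)
    · exact hd _ (Or.inl h1.symm) (Or.inr rfl)
    · exact hd _ (Or.inr (mem_singleton_iff.1 h1).symm) (Or.inr rfl)

/-- the ends of a visible row -/
lemma CtxM.ends (hr : r ∈ V) : wadj (segNear r) (segFar r) ∧ VisR w δ₁ Om₂ (segNear r) ∧
    VisR w δ₁ Om₂ (segFar r) :=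
  ⟨(wadj_srow (h.vis r hr).1).1, ((h.vis r hr).2 _ (Sym2.mem_mk_left _ _)).1,
    ((h.vis r hr).2 _ (Sym2.mem_mk_right _ _)).1⟩

omit [M.Finite] in
lemma CtxM.far_spec (hz : z ∈ frM M w L₁ D V) : rfM M w L₁ V z false ∈ V ∧
    rfM M w L₁ V z true ∈ V ∧
    (∀ v, TST.At segNear segFar (rfM M w L₁ V z false) v →
      ¬ TST.At segNear segFar (rfM M w L₁ V z true) v) ∧
    SeeR (rwM L₁) (Sees M (crr L₁ (Seg w))) z (rfM M w L₁ V z false) ∧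
    SeeR (rwM L₁) (Sees M (crr L₁ (Seg w))) z (rfM M w L₁ V z true) := by
  obtain ⟨_, r, hr, r', hr', h1, h2, h3⟩ := hz
  have h4 : ∃ p : (Bool × ℕ × ℕ) × (Bool × ℕ × ℕ), p.1 ∈ V ∧ p.2 ∈ V ∧
      (∀ v, TST.At segNear segFar p.1 v → ¬ TST.At segNear segFar p.2 v) ∧
      SeeR (rwM L₁) (Sees M (crr L₁ (Seg w))) z p.1 ∧
      SeeR (rwM L₁) (Sees M (crr L₁ (Seg w))) z p.2 := ⟨(r, r'), hr, hr', h1, h2, h3⟩
  have h5 := h4.choose_spec
  have e : fxM M w L₁ V z = h4.choose := by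
    unfold fxM
    rw [dif_pos h4]
  have e1 : rfM M w L₁ V z false = h4.choose.1 := by
    unfold rfM
    rw [e]
    simp
  have e2 : rfM M w L₁ V z true = h4.choose.2 := by
    unfold rfM
    rw [e]
    simp
  rw [e1, e2]
  exact h5

omit [M.Finite] in
theorem CtxM.far_V : ∀ z ∈ frM M w L₁ D V, ∀ i, rfM M w L₁ V z i ∈ V ∧
    SeeR (rwM L₁) (Sees M (crr L₁ (Seg w))) z (rfM M w L₁ V z i) := by
  intro z hz i
  obtain ⟨h1, h2, _, h4, h5⟩ := h.far_spec hz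
  cases i
  · exact ⟨h1, h4⟩
  · exact ⟨h2, h5⟩

omit [M.Finite] in
theorem CtxM.far_dis : ∀ z ∈ frM M w L₁ D V, ∀ v,
    TST.At segNear segFar (rfM M w L₁ V z false) v →
      ¬ TST.At segNear segFar (rfM M w L₁ V z true) v :=
  fun _ hz => (h.far_spec hz).2.2.1

theorem CtxM.far_see : ∀ z ∈ frM M w L₁ D V, ∀ r ∈ V,
    SeeR (rwM L₁) (Sees M (crr L₁ (Seg w))) z r → ∃ i, r = rfM M w L₁ V z i := by
  intro z hz r hr hs
  obtain ⟨h1, h2, h3, h4, h5⟩ := h.far_spec hz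
  have hzD : z ∈ D := hz.1
  have hT := h.rnd.locT hzD (h.cl z hzD).1
  obtain ⟨a1, a2, a3⟩ := h.ends h1
  obtain ⟨b1, b2, b3⟩ := h.ends h2
  obtain ⟨n1, n2⟩ := h.far_data h1 h2 h3
  rcases hT.far_rowsX a1 a2 a3 ((h.sn hzD h1 rfl).1 h4) b1 b2 b3 ((h.sn hzD h2 rfl).1 h5) n1 n2
    (h.ends hr).1 ((h.sn hzD hr rfl).1 hs) with h6 | h6
  · exact ⟨false, srow_inj h6⟩
  · exact ⟨true, srow_inj h6⟩

/-- near rungs see only rows at `u` -/
theorem CtxM.near_see : ∀ u, ∀ z ∈ nrM M w L₁ D row D₀ Hs₀ V u, ∀ r ∈ V,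
    SeeR (rwM L₁) (Sees M (crr L₁ (Seg w))) z r → TST.At segNear segFar r u := by
  intro u z hz r hr hs
  obtain ⟨⟨hzD, hzT⟩, r₁, hr₁, hu₁, _⟩ := hz
  have hvu := (h.end_row hr₁ hu₁).choose_spec.choose_spec.2.2.2.2.1
  have hT := h.rnd.locT hzD (h.cl z hzD).1
  rcases hT.toLocS.star_rows51 hvu (mem_tStar₀.1 hzT).2 (h.ends hr).1 ((h.sn hzD hr rfl).1 hs) with
    h3 | h3
  · exact Or.inl h3
  · exact Or.inr h3

omit [M.Finite] in
theorem CtxM.near_T : ∀ u, ∀ z ∈ nrM M w L₁ D row D₀ Hs₀ V u, z ∈ tuM M w L₁ D row D₀ Hs₀ u :=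
  fun _ _ hz => hz.1

omit [M.Finite] in
theorem CtxM.near_one : ∀ u, ∀ z ∈ nrM M w L₁ D row D₀ Hs₀ V u, ∃ r ∈ V,
    TST.At segNear segFar r u ∧ SeeR (rwM L₁) (Sees M (crr L₁ (Seg w))) z r := by
  rintro u z ⟨_, r, hr, hu, hs, _⟩
  exact ⟨r, hr, hu, hs⟩

/-- an element which is local in the star of `u` and sees two rows at `u`, one of them visible, is
neither local on the visible row nor degenerate -/
lemma CtxM.near_of_two (hzD : z ∈ D) (hr : r ∈ V) (hrow : srow r = s(u, v))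
    (hs : SeeR (rwM L₁) (Sees M (crr L₁ (Seg w))) z r) {a : ℕ × ℕ} (hua : wadj u a) (hav : a ≠ v)
    (hsa : SeeP M (crr L₁ (Seg w)) row z u a) :
    z ∉ trM M w L₁ D row D₀ Hs₀ r ∧ ∀ p q, srow r = s(p, q) → ¬ DtY M w L₁ row D₀ Hs₀ z p q := by
  obtain ⟨v', i, huv, hi, hrow', hsg, hvu, hvv, hbu, hbv⟩ := h.end_row hr (at_of_srow hrow).1
  have hv : v' = v := by
    rw [hrow] at hrow'
    rcases Sym2.eq_iff.1 hrow' with ⟨_, h2⟩ | ⟨h1, h2⟩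
    · exact h2.symm
    · exact (h2.trans h1).symm
  subst hv
  have hra := h.rnd.reg_nb hvu hua
  have hru := h.rnd.reg hvu
  refine ⟨fun ht => ?_, fun p q hpq hY => ?_⟩
  · obtain ⟨a1, a2, a3⟩ := h.ends hr
    have h1 := (h.rnd.same_row' ht.1 (h.cl z ht.1).1 a1 a2 a3 ((mem_TRow₀ _ _).1 ht.2).2).2
      u a hua hru hra hsa
    have h2 : s(u, a) = s(u, v') := h1.trans hrow
    rcases Sym2.eq_iff.1 h2 with ⟨_, h3⟩ | ⟨h3, h4⟩
    · exact hav h3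
    · exact hav (h4.trans h3)
  · have hp : VisR w δ₁ Om₂ p ∧ wadj p q := by
      rw [hrow] at hpq
      rcases Sym2.eq_iff.1 hpq with ⟨rfl, rfl⟩ | ⟨rfl, rfl⟩
      · exact ⟨hvu, huv⟩
      · exact ⟨hvv, wadj_swap huv⟩
    have h1 := h.rnd.dt_only51 hzD (h.cl z hzD) hp.2 hp.1 hY hua hru hsa
    rw [← hpq, hrow] at h1
    rcases Sym2.eq_iff.1 h1 with ⟨_, h3⟩ | ⟨h3, h4⟩
    · exact hav h3
    · exact hav (h4.trans h3)

/-- two visible rows at `u`: near rung -/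
lemma CtxM.near_mem (hzD : z ∈ D) (hr : r ∈ V) (hr' : r' ∈ V) (hne : r ≠ r')
    (hu : TST.At segNear segFar r u) (hu' : TST.At segNear segFar r' u)
    (hs : SeeR (rwM L₁) (Sees M (crr L₁ (Seg w))) z r)
    (hs' : SeeR (rwM L₁) (Sees M (crr L₁ (Seg w))) z r') : z ∈ nrM M w L₁ D row D₀ Hs₀ V u := by
  obtain ⟨v, i, huv, hi, hrow, hsg, hvu, hvv, -, -⟩ := h.end_row hr hu
  obtain ⟨v', i', huv', hi', hrow', hsg', _, hvv', -, -⟩ := h.end_row hr' hu'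
  have hvv1 : v ≠ v' := by
    rintro rfl
    exact hne (srow_inj (hrow.trans hrow'.symm))
  have hT := h.rnd.locT hzD (h.cl z hzD).1
  have h1 := hT.near_of_two huv hvu hvv ((h.sn hzD hr hrow).1 hs) huv'
    ((h.sn hzD hr' hrow').1 hs') hvv1
  obtain ⟨h2, h3⟩ := h.near_of_two hzD hr hrow hs huv' (Ne.symm hvv1) ((h.see_iff hr' hrow').1 hs')
  exact ⟨⟨hzD, mem_tStar₀.2 ⟨h.cl z hzD, h1⟩⟩, r, hr, hu, hs, h2, h3⟩

/-- every visible row which a near rung sees is as in the definition -/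
lemma CtxM.near_row (hz : z ∈ nrM M w L₁ D row D₀ Hs₀ V u) (hr : r ∈ V)
    (hs : SeeR (rwM L₁) (Sees M (crr L₁ (Seg w))) z r) :
    z ∉ trM M w L₁ D row D₀ Hs₀ r ∧ ∀ p q, srow r = s(p, q) → ¬ DtY M w L₁ row D₀ Hs₀ z p q := by
  have hu := h.near_see u z hz r hr hs
  obtain ⟨⟨hzD, hzT⟩, r₁, hr₁, hu₁, hs₁, h1, h2⟩ := hz
  by_cases hne : r₁ = r
  · rw [← hne]
    exact ⟨h1, h2⟩
  obtain ⟨v, i, huv, hi, hrow, hsg, hvu, hvv, -, -⟩ := h.end_row hr hu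
  obtain ⟨v', i', huv', hi', hrow', hsg', _, hvv', -, -⟩ := h.end_row hr₁ hu₁
  refine h.near_of_two hzD hr hrow hs huv' ?_ ((h.see_iff hr₁ hrow').1 hs₁)
  rintro rfl
  exact hne (srow_inj (hrow'.trans hrow.symm))

/-- **A second place**, seen or hidden -/
theorem CtxM.near_hid : ∀ u, ∀ z ∈ nrM M w L₁ D row D₀ Hs₀ V u, ∀ r ∈ V,
    SeeR (rwM L₁) (Sees M (crr L₁ (Seg w))) z r → ∀ i, sgV w u (nbV u i) = r →
      ∃ j, j ≠ i ∧ ∃ x ∈ rwM L₁ (sgV w u (nbV u j)), x ∉ Lr M (crr L₁ (Seg w)) row w (nbV u j) z := by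
  intro u z hz r hr hs i hi
  have hu := h.near_see u z hz r hr hs
  obtain ⟨h1, -⟩ := h.near_row hz hr hs
  obtain ⟨v, i', huv, hi', hrow, hsg, hvu, hvv, -, -⟩ := h.end_row hr hu
  have hrow' : srow r = s(u, nbV u i) := by
    rw [← hi]
    exact (h.leg hvu i).2.1
  obtain ⟨j, hj, x, hx, hxL⟩ := h.rnd.near_hid (i := i) hvu hvu.nb hz.1.2 (fun h2 => h1 ⟨hz.1.1, by
    unfold srow at hrow'
    rcases Sym2.eq_iff.1 hrow' with ⟨h3, h4⟩ | ⟨h3, h4⟩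
    · rw [h3, h4]
      exact h2
    · rw [h3, h4, mem_TRow₀, pair_comm]
      exact (mem_TRow₀ _ _).1 h2⟩)
  exact ⟨j, hj, x, by rw [(h.leg hvu j).2.2]; exact hx, hxL⟩

/-- **One hidden place** -/
theorem CtxM.near_one_hid : ∀ u, ∀ z ∈ nrM M w L₁ D row D₀ Hs₀ V u, ∀ r ∈ V,
    SeeR (rwM L₁) (Sees M (crr L₁ (Seg w))) z r → ∀ i, sgV w u (nbV u i) = r →
    (∀ j, j ≠ i → ¬ SeeR (rwM L₁) (Sees M (crr L₁ (Seg w))) z (sgV w u (nbV u j))) →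
      ∃ j k, j ≠ i ∧ k ≠ i ∧ j ≠ k ∧
        (∀ x ∈ rwM L₁ (sgV w u (nbV u j)), x ∉ Lr M (crr L₁ (Seg w)) row w (nbV u j) z) ∧
        ∀ x ∈ rwM L₁ (sgV w u (nbV u k)), x ∈ Lr M (crr L₁ (Seg w)) row w (nbV u k) z := by
  intro u z hz r hr hs i hi hno
  have hu := h.near_see u z hz r hr hs
  obtain ⟨h1, h1'⟩ := h.near_row hz hr hs
  obtain ⟨v, i', huv, hi', hrow, hsg, hvu, hvv, -, -⟩ := h.end_row hr hu
  have hrow' : srow r = s(u, nbV u i) := by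
    rw [← hi]
    exact (h.leg hvu i).2.1
  obtain ⟨j, k, hj, hk, hjk, hjL, hkL⟩ := h.rnd.near_one_hid (i := i) hvu hvu.nb hz.1.2
    (fun h2 => h1 ⟨hz.1.1, by
      unfold srow at hrow'
      rcases Sym2.eq_iff.1 hrow' with ⟨h3, h4⟩ | ⟨h3, h4⟩
      · rw [h3, h4]
        exact h2
      · rw [h3, h4, mem_TRow₀, pair_comm]
        exact (mem_TRow₀ _ _).1 h2⟩) (h1' _ _ hrow') (fun j hj h2 => hno j hj
      ((seeR_iff h.rw (h.leg hvu j).1 (h.leg hvu j).2.1).2 h2))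
  refine ⟨j, k, hj, hk, hjk, ?_, ?_⟩
  · rw [(h.leg hvu j).2.2]
    exact hjL
  · rw [(h.leg hvu k).2.2]
    exact hkL

/-- a near rung is near at one vertex -/
theorem CtxM.near_ne : ∀ u v, ∀ z, z ∈ nrM M w L₁ D row D₀ Hs₀ V u →
    z ∈ nrM M w L₁ D row D₀ Hs₀ V v → u = v := by
  intro u v z hz hz'
  by_contra huv
  obtain ⟨r, hr, hu, hs⟩ := h.near_one u z hz
  have hv := h.near_see v z hz' r hr hs
  have hrow := srow_of_at huv hu hv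
  obtain ⟨v', i, huv', _, hrow', _, _⟩ := h.end_row hr hu
  have hadj : wadj u v := by
    rw [hrow] at hrow'
    rcases Sym2.eq_iff.1 hrow' with ⟨_, h2⟩ | ⟨h1, h2⟩
    · exact h2 ▸ huv'
    · exact absurd h2.symm huv
  have hT := (h.rnd.locT hz.1.1 (h.cl z hz.1.1).1).toLocS
  refine (h.near_row hz hr hs).1 ⟨hz.1.1, (mem_TRow₀ _ _).2 ⟨h.cl z hz.1.1, fun c x hx => ?_⟩⟩
  have h1 := (mem_tStar₀.1 hz.1.2).2 c hx
  have h2 := (mem_tStar₀.1 hz'.1.2).2 c hx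
  have h3 : x = u ∨ x = v := by
    rcases h1 with h1 | h1
    · exact Or.inl h1
    rcases h2 with h2 | h2
    · exact Or.inr h2
    exact (hT.tri u v x hadj h2 h1).elim
  have h4 : x ∈ srow r := by
    rw [hrow]
    rcases h3 with rfl | rfl
    · exact Sym2.mem_mk_left _ _
    · exact Sym2.mem_mk_right _ _
  unfold srow at h4
  rcases Sym2.mem_iff.1 h4 with h5 | h5
  · exact Or.inl h5
  · exact Or.inr h5

theorem CtxM.same_see : ∀ r ∈ V, ∀ t ∈ trM M w L₁ D row D₀ Hs₀ r, ∀ r' ∈ V,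
    SeeR (rwM L₁) (Sees M (crr L₁ (Seg w))) t r' → r' = r := by
  intro r hr t ht r' hr' hs
  obtain ⟨a1, a2, a3⟩ := h.ends hr
  obtain ⟨b1, b2, b3⟩ := h.ends hr'
  have h1 := (h.rnd.same_row' ht.1 (h.cl t ht.1).1 a1 a2 a3 ((mem_TRow₀ _ _).1 ht.2).2).2
  exact srow_inj (h1 _ _ b1 (h.rnd.reg b2) (h.rnd.reg b3) ((h.see_ends hr').1 hs))

theorem CtxM.same_T : ∀ r ∈ V, ∀ t ∈ trM M w L₁ D row D₀ Hs₀ r, ∀ u,
    TST.At segNear segFar r u → t ∈ tuM M w L₁ D row D₀ Hs₀ u := by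
  intro r hr t ht u hu
  obtain ⟨a1, a2, a3⟩ := h.ends hr
  have h1 := tRow_tStar a1 ht.2
  rcases hu with rfl | rfl
  · exact ⟨ht.1, h1.1⟩
  · exact ⟨ht.1, h1.2⟩

theorem CtxM.kind : ∀ d ∈ D, ∀ r ∈ V, SeeR (rwM L₁) (Sees M (crr L₁ (Seg w))) d r →
    d ∈ frM M w L₁ D V ∨ (∃ u, d ∈ nrM M w L₁ D row D₀ Hs₀ V u) ∨ d ∈ trM M w L₁ D row D₀ Hs₀ r ∨
      d ∈ onM M w L₁ D row D₀ Hs₀ V ∨ d ∈ dtM M w L₁ D row D₀ Hs₀ V := by
  intro d hd r hr hs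
  by_cases h1 : ∃ r' ∈ V, r' ≠ r ∧ SeeR (rwM L₁) (Sees M (crr L₁ (Seg w))) d r'
  · obtain ⟨r', hr', hne, hs'⟩ := h1
    by_cases h2 : ∃ u, TST.At segNear segFar r u ∧ TST.At segNear segFar r' u
    · obtain ⟨u, h3, h4⟩ := h2
      exact Or.inr (Or.inl ⟨u, h.near_mem hd hr hr' hne.symm h3 h4 hs hs'⟩)
    · push Not at h2
      exact Or.inl ⟨hd, r, hr, r', hr', h2, hs, hs'⟩
  · push Not at h1
    have h2 : oneM M w L₁ D V d r := by
      refine ⟨hd, hr, hs, fun r' hr' hs' => ?_⟩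
      by_contra hne
      exact h1 r' hr' hne hs'
    by_cases h3 : d ∈ trM M w L₁ D row D₀ Hs₀ r
    · exact Or.inr (Or.inr (Or.inl h3))
    by_cases h4 : ∃ u v, srow r = s(u, v) ∧ DtY M w L₁ row D₀ Hs₀ d u v
    · obtain ⟨u, v, h5, h6⟩ := h4
      exact Or.inr (Or.inr (Or.inr (Or.inr ⟨r, h2, u, v, h5, h6⟩)))
    push Not at h4
    by_cases h5 : ∃ u v, srow r = s(u, v) ∧ d ∈ TStar M (crr L₁ (Seg w)) row w D₀ Hs₀ u
    · obtain ⟨u, v, h6, h7⟩ := h5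
      exact Or.inr (Or.inl ⟨u, ⟨hd, h7⟩, r, hr, (at_of_srow h6).1, hs, h3, h4⟩)
    · push Not at h5
      exact Or.inr (Or.inr (Or.inr (Or.inl ⟨r, h2, h3, fun u v h6 => ⟨h4 u v h6, h5 u v h6⟩⟩)))

end ctx

end TSH
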