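import Pool.Agent.DA.Noise

/-!
# The Ramsey step of the label level (helper11)

One application of Ramsey's theorem for the combos `e = (i, j, p)` (4-sets of tiles), the values of the
chosen elements `v e Q k b x` at a tile `x` on the left or on the right of the 4-set `Q`, and
finitely many properties `g i b` of single tiles.
-/

open Set

namespace TST

/-- **Ramsey step of the label level.** -/
theorem lab_ram (m M : ℕ) : ∃ N : ℕ, ∀ (χ : ℕ × ℕ × Bool → Finset ℕ → Prop)
    (v : ℕ × ℕ × Bool → Finset ℕ → ℕ → Bool → ℕ → Prop) (g : ℕ → Bool → ℕ → Prop),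
    ∃ W : Finset ℕ, W ⊆ Finset.range N ∧ W.card = M ∧
      (∀ i < m, ∀ j < m, ∀ p, (∀ Q ⊆ W, Q.card = 4 → χ (i, j, p) Q) ∨
        ∀ Q ⊆ W, Q.card = 4 → ¬ χ (i, j, p) Q) ∧
      (∀ i < m, ∀ b, (∀ a ∈ W, g i b a) ∨ ∀ a ∈ W, ¬ g i b a) ∧
      ∃ lam rho : ℕ × ℕ × Bool → ℕ → Bool → Prop, ∀ i < m, ∀ j < m, ∀ p, ∀ k < m, ∀ b,
        ∀ Q ⊆ W, Q.card = 4 → ∀ x ∈ W,
          ((∀ y ∈ Q, x < y) → (v (i, j, p) Q k b x ↔ lam (i, j, p) k b)) ∧
          ((∀ y ∈ Q, y < x) → (v (i, j, p) Q k b x ↔ rho (i, j, p) k b)) := by
  classical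
  set B2 : Finset Bool := Finset.univ with hB2
  set CM : Finset (ℕ × ℕ × Bool) := Finset.range m ×ˢ Finset.range m ×ˢ B2 with hCM
  set I : Finset (((ℕ × ℕ × Bool) ⊕ (ℕ × Bool)) ⊕ (Bool × (ℕ × ℕ × Bool) × ℕ × Bool)) :=
    ((CM.disjSum (Finset.range m ×ˢ B2)).disjSum
      (B2 ×ˢ CM ×ˢ Finset.range m ×ˢ B2)) with hI
  obtain ⟨N, hN⟩ := DA.ramseyT
    (J := ((ℕ × ℕ × Bool) ⊕ (ℕ × Bool)) ⊕ (Bool × (ℕ × ℕ × Bool) × ℕ × Bool))
    (fun j => Sum.elim (fun z => Sum.elim (fun _ => 4) (fun _ => 1) z) (fun _ => 5) j) I M
  refine ⟨N, fun χ v g => ?_⟩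
  -- the extreme element and the rest of a set
  let mn : Finset ℕ → ℕ := fun X => if h : X.Nonempty then X.min' h else 0
  let mx : Finset ℕ → ℕ := fun X => if h : X.Nonempty then X.max' h else 0
  obtain ⟨W, h1, h2, h3⟩ := hN (Finset.range N) (by rw [Finset.card_range])
    (fun j X => Sum.elim (fun z => Sum.elim (fun e => χ e X) (fun ib => ∀ a ∈ X, g ib.1 ib.2 a) z)
      (fun q => v q.2.1 (X.erase (if q.1 then mx X else mn X)) q.2.2.1 q.2.2.2
        (if q.1 then mx X else mn X)) j)
  refine ⟨W, h1, h2, ?_, ?_, ?_⟩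
  · intro i hi j hj p
    exact h3 (Sum.inl (Sum.inl (i, j, p))) (by simp [hI, hCM, hB2, hi, hj])
  · intro i hi b
    rcases h3 (Sum.inl (Sum.inr (i, b))) (by simp [hI, hCM, hB2, hi]) with h4 | h4
    · left
      intro a ha
      exact h4 {a} (Finset.singleton_subset_iff.2 ha) rfl a (Finset.mem_singleton_self a)
    · right
      intro a ha h5
      refine h4 {a} (Finset.singleton_subset_iff.2 ha) rfl ?_
      intro a' ha'
      rw [Finset.mem_singleton.1 ha']
      exact h5
  · refine ⟨fun e k b => ∀ X ⊆ W, X.card = 5 → v e (X.erase (mn X)) k b (mn X),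
      fun e k b => ∀ X ⊆ W, X.card = 5 → v e (X.erase (mx X)) k b (mx X), ?_⟩
    intro i hi j hj p k hk b Q hQ hQc x hx
    have hXW : insert x Q ⊆ W := Finset.insert_subset hx hQ
    constructor
    · intro hlt
      have hxQ : x ∉ Q := fun h => lt_irrefl x (hlt x h)
      have hXc : (insert x Q).card = 5 := by rw [Finset.card_insert_of_notMem hxQ, hQc]
      have hmn : mn (insert x Q) = x := by
        have hne : (insert x Q).Nonempty := Finset.insert_nonempty x Q
        simp only [mn, dif_pos hne]
        refine le_antisymm (Finset.min'_le _ _ (Finset.mem_insert_self x Q)) ?_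
        refine Finset.le_min' _ _ _ ?_
        intro y hy
        rcases Finset.mem_insert.1 hy with rfl | hy
        · exact le_rfl
        · exact (hlt y hy).le
      have her : (insert x Q).erase x = Q := Finset.erase_insert hxQ
      rcases h3 (Sum.inr (false, (i, j, p), k, b)) (by simp [hI, hCM, hB2, hi, hj, hk]) with
        h4 | h4
      · refine iff_of_true ?_ ?_
        · have h5 := h4 _ hXW hXc
          simp only [Sum.elim_inr, Bool.false_eq_true, if_false, hmn, her] at h5
          exact h5
        · intro X hX hXc'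
          have h5 := h4 X hX hXc'
          simp only [Sum.elim_inr, Bool.false_eq_true, if_false] at h5
          exact h5
      · refine iff_of_false ?_ ?_
        · have h5 := h4 _ hXW hXc
          simp only [Sum.elim_inr, Bool.false_eq_true, if_false, hmn, her] at h5
          exact h5
        · intro h6
          have h5 := h4 _ hXW hXc
          simp only [Sum.elim_inr, Bool.false_eq_true, if_false] at h5
          exact h5 (h6 _ hXW hXc)
    · intro hlt
      have hxQ : x ∉ Q := fun h => lt_irrefl x (hlt x h)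
      have hXc : (insert x Q).card = 5 := by rw [Finset.card_insert_of_notMem hxQ, hQc]
      have hmx : mx (insert x Q) = x := by
        have hne : (insert x Q).Nonempty := Finset.insert_nonempty x Q
        simp only [mx, dif_pos hne]
        refine le_antisymm ?_ (Finset.le_max' _ _ (Finset.mem_insert_self x Q))
        refine Finset.max'_le _ _ _ ?_
        intro y hy
        rcases Finset.mem_insert.1 hy with rfl | hy
        · exact le_rfl
        · exact (hlt y hy).le
      have her : (insert x Q).erase x = Q := Finset.erase_insert hxQ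
      rcases h3 (Sum.inr (true, (i, j, p), k, b)) (by simp [hI, hCM, hB2, hi, hj, hk]) with
        h4 | h4
      · refine iff_of_true ?_ ?_
        · have h5 := h4 _ hXW hXc
          simp only [Sum.elim_inr, if_true, hmx, her] at h5
          exact h5
        · intro X hX hXc'
          have h5 := h4 X hX hXc'
          simp only [Sum.elim_inr, if_true] at h5
          exact h5
      · refine iff_of_false ?_ ?_
        · have h5 := h4 _ hXW hXc
          simp only [Sum.elim_inr, if_true, hmx, her] at h5
          exact h5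
        · intro h6
          have h5 := h4 _ hXW hXc
          simp only [Sum.elim_inr, if_true] at h5
          exact h5 (h6 _ hXW hXc)

end TST
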