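import Pool.Agent.DA.Noise

/-!
# The Ramsey step of the label level, version 3 (helper88)

Windows of four consecutive tiles.  For finitely many kinds `e < E₁` of witnesses (`Wt e Q d` = `d` is a
witness of the kind `e` for the set `Q` of four tiles) either every window has a witness `w e x`, or no
set of four chosen tiles has one; and the relations `Sn (w e x) k` between two tiles depend only on the
places of the two tiles relative to the window.
-/

set_option autoImplicit false

open Set

namespace TST

universe u

/-- the window at `x` -/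
def win (h : ℕ → ℕ) (x : ℕ) : Finset ℕ := {h x, h (x + 1), h (x + 2), h (x + 3)}

/-- the place of a tile relative to the window at `x`: `0` = left of it, `1, .., 4` = inside, `5` =
right of it -/
def wloc (x a : ℕ) : ℕ := if a < x then 0 else if a ≤ x + 3 then a - x + 1 else 5

lemma inc_unique {t t' : ℕ → ℕ} {n : ℕ} (h : ∀ i j, i < j → j < n → t i < t j)
    (h' : ∀ i j, i < j → j < n → t' i < t' j)
    (he : (Finset.range n).image t = (Finset.range n).image t') : ∀ i < n, t i = t' i := by
  classical
  have hc : ∀ s : ℕ → ℕ, (∀ i j, i < j → j < n → s i < s j) →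
      ((Finset.range n).image s).card = n := by
    intro s hs
    rw [Finset.card_image_of_injOn, Finset.card_range]
    intro a ha b hb hab
    rw [Finset.mem_coe, Finset.mem_range] at ha hb
    rcases Nat.lt_trichotomy a b with h1 | h1 | h1
    · have := hs a b h1 hb
      omega
    · exact h1
    · have := hs b a h1 ha
      omega
  have key : ∀ s : ℕ → ℕ, (∀ i j, i < j → j < n → s i < s j) → ∀ X : Finset ℕ,
      ∀ hX : X = (Finset.range n).image s, ∀ hXc : X.card = n, ∀ i (hi : i < n),
        s i = X.orderEmbOfFin hXc ⟨i, hi⟩ := by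
    intro s hs X hX hXc i hi
    have h1 := Finset.orderEmbOfFin_unique (s := X) hXc (f := fun j : Fin n => s j.1) (by
      intro j
      rw [hX]
      exact Finset.mem_image_of_mem s (Finset.mem_range.2 j.2)) (by
      intro j j' hjj
      exact hs j.1 j'.1 hjj j'.2)
    have h2 := congrFun h1 ⟨i, hi⟩
    exact h2
  intro i hi
  rw [key t h _ rfl (hc t h) i hi, key t' h' _ he (hc t h) i hi]

/-- **Ramsey step, version 3.** -/
theorem lab_ram3 (m E₁ G₁ K : ℕ) : ∃ N : ℕ, ∀ {α : Type u} [Nonempty α]
    (Wt : ℕ → Finset ℕ → α → Prop) (Sn : α → ℕ → ℕ → ℕ → Prop) (g : ℕ → ℕ → Prop),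
    ∃ (h : ℕ → ℕ) (γ : Set ℕ) (w : ℕ → ℕ → α), (∀ b < K, h b < N) ∧
      (∀ a b, a < b → b < K → h a < h b) ∧
      (∀ i < G₁, (∀ b < K, g i (h b)) ∨ ∀ b < K, ¬ g i (h b)) ∧
      (∀ e < E₁, e ∈ γ → ∀ x, x + 3 < K → Wt e (win h x) (w e x)) ∧
      (∀ e < E₁, e ∉ γ → ∀ x₀ x₁ x₂ x₃, x₀ < x₁ → x₁ < x₂ → x₂ < x₃ → x₃ < K →
        ∀ d, ¬ Wt e {h x₀, h x₁, h x₂, h x₃} d) ∧
      ∀ e < E₁, ∀ k < m, ∃ val : ℕ → ℕ → Prop, ∀ x a b, x + 3 < K → a < b → b < K →
        (Sn (w e x) k (h a) (h b) ↔ val (wloc x a) (wloc x b)) := by
  classical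
  obtain ⟨I, hI⟩ : ∃ I : Finset ((ℕ × ℕ × ℕ × ℕ × ℕ) ⊕ (ℕ ⊕ ℕ)),
      I = (Finset.range E₁ ×ˢ Finset.range m ×ˢ Finset.range 3 ×ˢ Finset.range 6 ×ˢ
        Finset.range 6).disjSum ((Finset.range E₁).disjSum (Finset.range G₁)) := ⟨_, rfl⟩
  obtain ⟨N, hN⟩ := DA.ramseyT (J := (ℕ × ℕ × ℕ × ℕ × ℕ) ⊕ (ℕ ⊕ ℕ))
    (fun j => Sum.elim (fun _ => 6) (fun z => Sum.elim (fun _ => 4) (fun _ => 1) z) j) I (K + 2)
  refine ⟨N, ?_⟩
  intro α _ Wt Sn g
  -- the choice
  obtain ⟨ch, hch⟩ : ∃ ch : ℕ → Finset ℕ → α, ∀ e Q, (∃ d, Wt e Q d) → Wt e Q (ch e Q) :=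
    ⟨fun e Q => Classical.epsilon fun d => Wt e Q d, fun e Q h => Classical.epsilon_spec h⟩
  obtain ⟨Cl, hCl⟩ : ∃ Cl : ℕ × ℕ × ℕ × ℕ × ℕ → Finset ℕ → Prop, Cl = fun q X =>
      ∀ t : ℕ → ℕ, (∀ i j, i < j → j < 6 → t i < t j) → X = (Finset.range 6).image t →
        Sn (ch q.1 (win t q.2.2.1)) q.2.1 (t q.2.2.2.1) (t q.2.2.2.2) := ⟨_, rfl⟩
  obtain ⟨W, hWN, hWc, hW⟩ := hN (Finset.range N) (by rw [Finset.card_range])
    (fun j X => Sum.elim (fun q => Cl q X) (fun z => Sum.elim (fun e => ∃ d, Wt e X d)
      (fun i => ∀ a ∈ X, g i a) z) j)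
  obtain ⟨h, hh⟩ : ∃ h : ℕ → ℕ, h = fun b => if hb : b < K + 2 then W.orderEmbOfFin hWc ⟨b, hb⟩
    else 0 := ⟨_, rfl⟩
  have hv : ∀ b (hb : b < K + 2), h b = W.orderEmbOfFin hWc ⟨b, hb⟩ := by
    intro b hb
    rw [hh]
    simp only [hb, dif_pos]
  have hmem : ∀ b < K + 2, h b ∈ W := by
    intro b hb
    rw [hv b hb]
    exact Finset.orderEmbOfFin_mem _ _ _
  have hinc : ∀ a b, a < b → b < K + 2 → h a < h b := by
    intro a b hab hb
    rw [hv a (by omega), hv b hb]
    exact (W.orderEmbOfFin hWc).strictMono hab
  obtain ⟨γ, hγ⟩ : ∃ γ : Set ℕ, γ = {e | ∀ X ⊆ W, X.card = 4 → ∃ d, Wt e X d} := ⟨_, rfl⟩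
  have sub4 : ∀ x₀ x₁ x₂ x₃, x₀ < x₁ → x₁ < x₂ → x₂ < x₃ → x₃ < K + 2 →
      ({h x₀, h x₁, h x₂, h x₃} : Finset ℕ) ⊆ W ∧
        ({h x₀, h x₁, h x₂, h x₃} : Finset ℕ).card = 4 := by
    intro x₀ x₁ x₂ x₃ h1 h2 h3 h4
    refine ⟨?_, ?_⟩
    · intro y hy
      simp only [Finset.mem_insert, Finset.mem_singleton] at hy
      rcases hy with rfl | rfl | rfl | rfl
      · exact hmem _ (by omega)
      · exact hmem _ (by omega)
      · exact hmem _ (by omega)
      · exact hmem _ (by omega)
    · have e1 := hinc x₀ x₁ h1 (by omega)
      have e2 := hinc x₁ x₂ h2 (by omega)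
      have e3 := hinc x₂ x₃ h3 (by omega)
      rw [Finset.card_insert_of_notMem, Finset.card_insert_of_notMem,
        Finset.card_insert_of_notMem, Finset.card_singleton]
      · simp only [Finset.mem_singleton]
        omega
      · simp only [Finset.mem_insert, Finset.mem_singleton]
        omega
      · simp only [Finset.mem_insert, Finset.mem_singleton]
        omega
  refine ⟨h, γ, fun e x => ch e (win h x), ?_, ?_, ?_, ?_, ?_, ?_⟩
  · intro b hb
    exact Finset.mem_range.1 (hWN (hmem b (by omega)))
  · intro a b hab hb
    exact hinc a b hab (by omega)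
  · intro i hi
    rcases hW (Sum.inr (Sum.inr i)) (by
      rw [hI]
      simp [hi]) with h1 | h1
    · left
      intro b hb
      exact h1 {h b} (Finset.singleton_subset_iff.2 (hmem b (by omega))) rfl (h b)
        (Finset.mem_singleton_self _)
    · right
      intro b hb h2
      refine h1 {h b} (Finset.singleton_subset_iff.2 (hmem b (by omega))) rfl ?_
      intro a ha
      rw [Finset.mem_singleton.1 ha]
      exact h2
  · intro e he heγ x hx
    rw [hγ] at heγ
    obtain ⟨h1, h2⟩ := sub4 x (x + 1) (x + 2) (x + 3) (by omega) (by omega) (by omega) (by omega)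
    exact hch e _ (heγ _ h1 h2)
  · intro e he heγ x₀ x₁ x₂ x₃ g1 g2 g3 g4 d hd
    obtain ⟨h1, h2⟩ := sub4 x₀ x₁ x₂ x₃ g1 g2 g3 (by omega)
    rcases hW (Sum.inr (Sum.inl e)) (by
      rw [hI]
      simp [he]) with h3 | h3
    · apply heγ
      rw [hγ]
      exact fun X hX hXc => h3 X hX hXc
    · exact h3 _ h1 h2 ⟨d, hd⟩
  · intro e he k hk
    -- the value of a pattern
    have key : ∀ o p q, o < 3 → p < 6 → q < 6 → ∀ s : ℕ → ℕ, (∀ i j, i < j → j < 6 → s i < s j) →
        s 5 < K + 2 → (Sn (ch e (win (fun i => h (s i)) o)) k (h (s p)) (h (s q)) ↔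
          ∀ X ⊆ W, X.card = 6 → Cl (e, k, o, p, q) X) := by
      intro o p q ho hp hq s hs hs5
      have hsl : ∀ i < 6, s i < K + 2 := by
        intro i hi
        rcases Nat.lt_or_ge i 5 with h1 | h1
        · have := hs i 5 h1 (by omega)
          omega
        · have : i = 5 := by omega
          subst this
          exact hs5
      have ht : ∀ i j, i < j → j < 6 → h (s i) < h (s j) := fun i j hij hj =>
        hinc _ _ (hs i j hij hj) (hsl j hj)
      obtain ⟨X, hX⟩ : ∃ X : Finset ℕ, X = (Finset.range 6).image fun i => h (s i) := ⟨_, rfl⟩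
      have hXW : X ⊆ W := by
        rw [hX]
        intro y hy
        obtain ⟨i, hi, rfl⟩ := Finset.mem_image.1 hy
        exact hmem _ (hsl i (Finset.mem_range.1 hi))
      have hXc : X.card = 6 := by
        rw [hX, Finset.card_image_of_injOn, Finset.card_range]
        intro a ha b hb hab
        rw [Finset.mem_coe, Finset.mem_range] at ha hb
        simp only at hab
        rcases Nat.lt_trichotomy a b with h1 | h1 | h1
        · have := ht a b h1 hb
          omega
        · exact h1
        · have := ht b a h1 ha
          omega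
      have hCX : Cl (e, k, o, p, q) X ↔
          Sn (ch e (win (fun i => h (s i)) o)) k (h (s p)) (h (s q)) := by
        rw [hCl]
        constructor
        · intro h1
          exact h1 (fun i => h (s i)) ht hX
        · intro h1 t ht' hXt
          have h2 := inc_unique ht ht' (by rw [← hX, hXt])
          have h3 : win t o = win (fun i => h (s i)) o := by
            unfold win
            simp only
            rw [h2 o (by omega), h2 (o + 1) (by omega), h2 (o + 2) (by omega),
              h2 (o + 3) (by omega)]
          show Sn (ch e (win t o)) k (t p) (t q)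
          rw [h3, ← h2 p hp, ← h2 q hq]
          exact h1
      rcases hW (Sum.inl (e, k, o, p, q)) (by
        rw [hI]
        simp [he, hk, ho, hp, hq]) with h1 | h1
      · exact iff_of_true (hCX.1 (h1 X hXW hXc)) fun Y hY hYc => h1 Y hY hYc
      · exact iff_of_false (fun h2 => h1 X hXW hXc (hCX.2 h2)) fun h2 => h1 X hXW hXc
          (h2 X hXW hXc)
    refine ⟨fun u v => ∀ X ⊆ W, X.card = 6 → Cl (e, k,
      if u = 0 then (if v = 0 then 2 else 1) else 0,
      if u = 0 then 0 else (if u = 5 then 4 else u - 1),
      if u = 0 then (if v = 0 then 1 else v) else (if u = 5 then 5 else (if v = 5 then 4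
        else v - 1))) X, ?_⟩
    intro x a b hx hab hb
    -- windows given by a sequence
    have hwin : ∀ (s : ℕ → ℕ) (o : ℕ), s o = x → s (o + 1) = x + 1 → s (o + 2) = x + 2 →
        s (o + 3) = x + 3 → win (fun i => h (s i)) o = win h x := by
      intro s o h1 h2 h3 h4
      unfold win
      simp only
      rw [h1, h2, h3, h4]
    by_cases hax : a < x
    · have ea : wloc x a = 0 := by
        unfold wloc
        rw [if_pos hax]
      by_cases hbx : b < x
      · have eb : wloc x b = 0 := by
          unfold wloc
          rw [if_pos hbx]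
        have h1 := key 2 0 1 (by omega) (by omega) (by omega)
          (fun i => if i = 0 then a else if i = 1 then b else x + (i - 2)) (by
            intro i j hij hj
            split_ifs <;> omega) (by simp; omega)
        rw [hwin _ 2 (by simp) (by simp) (by simp) (by simp)] at h1
        simpa [ea, eb] using h1
      · by_cases hbx' : b ≤ x + 3
        · have eb : wloc x b = b - x + 1 := by
            unfold wloc
            rw [if_neg hbx, if_pos hbx']
          have h1 := key 1 0 (b - x + 1) (by omega) (by omega) (by omega)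
            (fun i => if i = 0 then a else if i = 5 then K else x + (i - 1)) (by
              intro i j hij hj
              split_ifs <;> omega) (by simp)
          rw [hwin _ 1 (by simp) (by simp) (by simp) (by simp)] at h1
          have h2 : (if b - x + 1 = 0 then a else if b - x + 1 = 5 then K else
              x + (b - x + 1 - 1)) = b := by
            rw [if_neg (by omega), if_neg (by omega)]
            omega
          simp only [h2, if_true] at h1
          have h3 : ¬ (b - x + 1 = 0) := by omega
          simpa [ea, eb, h3] using h1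
        · have eb : wloc x b = 5 := by
            unfold wloc
            rw [if_neg hbx, if_neg hbx']
          have h1 := key 1 0 5 (by omega) (by omega) (by omega)
            (fun i => if i = 0 then a else if i = 5 then b else x + (i - 1)) (by
              intro i j hij hj
              split_ifs <;> omega) (by simp; omega)
          rw [hwin _ 1 (by simp) (by simp) (by simp) (by simp)] at h1
          simpa [ea, eb] using h1
    · by_cases hax' : a ≤ x + 3
      · have ea : wloc x a = a - x + 1 := by
          unfold wloc
          rw [if_neg hax, if_pos hax']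
        by_cases hbx' : b ≤ x + 3
        · have eb : wloc x b = b - x + 1 := by
            unfold wloc
            rw [if_neg (by omega), if_pos hbx']
          have h1 := key 0 (a - x) (b - x) (by omega) (by omega) (by omega)
            (fun i => if i = 4 then K else if i = 5 then K + 1 else x + i) (by
              intro i j hij hj
              split_ifs <;> omega) (by simp)
          rw [hwin _ 0 (by simp) (by simp) (by simp) (by simp)] at h1
          have h2 : (if a - x = 4 then K else if a - x = 5 then K + 1 else x + (a - x)) = a := by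
            split_ifs <;> omega
          have h2' : (if b - x = 4 then K else if b - x = 5 then K + 1 else x + (b - x)) = b := by
            split_ifs <;> omega
          simp only [h2, h2'] at h1
          have h3 : ¬ (a - x + 1 = 0) := by omega
          have h4 : ¬ (a - x = 4) := by omega
          have h5 : ¬ (b - x = 4) := by omega
          simpa [ea, eb, h3, h4, h5] using h1
        · have eb : wloc x b = 5 := by
            unfold wloc
            rw [if_neg (by omega), if_neg hbx']
          have h1 := key 0 (a - x) 4 (by omega) (by omega) (by omega)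
            (fun i => if i = 4 then b else if i = 5 then K + 1 else x + i) (by
              intro i j hij hj
              split_ifs <;> omega) (by simp)
          rw [hwin _ 0 (by simp) (by simp) (by simp) (by simp)] at h1
          have h2 : (if a - x = 4 then b else if a - x = 5 then K + 1 else x + (a - x)) = a := by
            split_ifs <;> omega
          simp only [h2, if_true] at h1
          have h3 : ¬ (a - x + 1 = 0) := by omega
          have h4 : ¬ (a - x = 4) := by omega
          simpa [ea, eb, h3, h4] using h1
      · have ea : wloc x a = 5 := by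
          unfold wloc
          rw [if_neg hax, if_neg hax']
        have eb : wloc x b = 5 := by
          unfold wloc
          rw [if_neg (by omega), if_neg (by omega)]
        have h1 := key 0 4 5 (by omega) (by omega) (by omega)
          (fun i => if i = 4 then a else if i = 5 then b else x + i) (by
            intro i j hij hj
            split_ifs <;> omega) (by simp; omega)
        rw [hwin _ 0 (by simp) (by simp) (by simp) (by simp)] at h1
        simpa [ea, eb] using h1

end TST
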