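import Pool.Agent.TST.RgPl
import Pool.Agent.TST.LabM77

/-!
# R7 for `M`: `TPl` for the sets of `LabFactsM` gives `RgFacts` (helper78)
-/

set_option autoImplicit false

open Set BIC BICS CWL
open scoped Matroid

namespace TSH

universe u

open Mdl Mdj EN Gad DA TST EN.Wall

/-- **R7.**  `Zq` = exceptional rows, `LR` = light rows, `V = Seg w \ LR`. -/
theorem CtxM.rgFacts {α : Type u} {M : Matroid α} [M.Finite] {w u₁ : ℕ}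
    {L₁ : Bool × ℕ × ℕ → List α} {f₁ : α → Sym2 ((ℕ × ℕ) ⊕ α)} {e₁ : Bool × ℕ × ℕ → α}
    {D : Set α} {row : α → Sym2 (ℕ × ℕ)} {β D₀ δ₀ D₁ δ₁ : ℕ}
    {Hm Hs₀ Om₁ Hs₁ Om₂ : Finset (ℕ × ℕ)} {Zq LR : Set (Bool × ℕ × ℕ)}
    (h : CtxM M w L₁ D row β D₀ δ₀ D₁ δ₁ Hm Hs₀ Om₁ Hs₁ Om₂ (Seg w \ LR))
    (hF : LabFactsM M w L₁ D row D₀ Hs₀ (Seg w \ LR)) (hG : GSide M (Seg w) L₁ f₁ e₁ u₁)
    (hZL : Zq ⊆ LR)
    (hvis : ∀ r ∈ Seg w, r ∉ Zq →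
      OutW (δ₁ + 60) w Om₂ (segNear r) ∧ OutW (δ₁ + 60) w Om₂ (segFar r))
    {T : Set α} {pr : α → Bool → Bool × ℕ × ℕ} {pa : α → Bool → Set α} (hTD : T ⊆ D)
    (hT : ∀ t ∈ T, TPl (rwM L₁) (Seg w \ LR) segNear segFar (Sees M (crr L₁ (Seg w)))
      (frM M w L₁ D (Seg w \ LR)) (nrM M w L₁ D row D₀ Hs₀ (Seg w \ LR)) (trM M w L₁ D row D₀ Hs₀)
      (Lr M (crr L₁ (Seg w)) row w)
      (fun r => Arw M (crr L₁ (Seg w)) row w (segNear r) (segFar r))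
      (fun t x y v => t ∈ M.closure (crr L₁ (Seg w) \ {x, y, v}))
      (fun u i => sgV w u (nbV u i)) nbV (rfM M w L₁ (Seg w \ LR)) pr pa t) :
    RgFacts M w L₁ Zq LR T pr pa := by
  refine rgFacts_of_TPl (D := D) hG h.rw h.rnd (fun z hz => (h.cl z hz).1) hZL hvis hF ?_ ?_ hTD hT
  · intro r _ _ t ht
    exact ht.2
  · intro r hr hrL u hu
    have hu' : VisR w δ₁ Om₂ u := ((h.vis r ⟨hr, hrL⟩).2 u (at_srow.1 hu)).1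
    refine ⟨fun i => (h.leg hu' i).1, ?_⟩
    intro r' hr' hu''
    obtain ⟨v, huv, he, _⟩ := TST.At.other hr' hu''
    obtain ⟨i, hi⟩ := hu'.nb_all huv
    refine ⟨i, ?_⟩
    rw [hi]
    exact sgV_row hr' he

end TSH
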