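import Pool.Agent.TST.GDef
import Pool.Agent.TST.LabMK
import Pool.Agent.TST.LabP51
import Pool.Agent.TST.RgPlM

/-!
# The label level of a system (rows R5, R6, R7 of T-star)

`labRow_of`: `LabRow` from `LabelStmt3` (R5) and the facts of the label level for `M` (R6).
`factsAll`: R6.  `labRow`: both.
-/

set_option autoImplicit false

open Set BIC BICS CWL
open scoped Matroid

namespace TSH

universe u

open Mdl Mdj EN Gad TST EN.Wall DA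

/-- **R6**: the facts of the label level for `M` -/
def FactsAll : Prop :=
  ∀ {α : Type u} (M : Matroid α) [M.Finite] (w : ℕ) (L₁ : Bool × ℕ × ℕ → List α)
    (f₁ : α → Sym2 ((ℕ × ℕ) ⊕ α)) (e₁ : Bool × ℕ × ℕ → α) (u₁ : ℕ) (D : Set α)
    (row : α → Sym2 (ℕ × ℕ)) (β D₀ δ₀ D₁ δ₁ : ℕ) (Hm Hs₀ Om₁ Hs₁ Om₂ : Finset (ℕ × ℕ))
    (V : Set (Bool × ℕ × ℕ)), GSide M (Seg w) L₁ f₁ e₁ u₁ →
    CtxM M w L₁ D row β D₀ δ₀ D₁ δ₁ Hm Hs₀ Om₁ Hs₁ Om₂ V → LabFactsM M w L₁ D row D₀ Hs₀ V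

/-- the hypotheses of `LabRow` on the sets of rows -/
structure RowsM (w δ₁ : ℕ) (Om₂ : Finset (ℕ × ℕ)) (Bd : Set (ℕ × ℕ))
    (Zq Zr LR : Set (Bool × ℕ × ℕ)) : Prop where
  qr : Zq ⊆ Zr
  rL : Zr ⊆ LR
  LS : LR ⊆ Seg w
  geo : GeoZ w Zq
  out : ∀ r ∈ Seg w, r ∉ Zq →
    DA.OutW (δ₁ + 60) w Om₂ (segNear r) ∧ DA.OutW (δ₁ + 60) w Om₂ (segFar r)
  touch : ∀ r ∈ Seg w, segNear r ∈ VV Zq ∨ segFar r ∈ VV Zq → r ∈ Zr
  bd : ∀ r ∈ Seg w, ∀ v ∈ Bd, DA.sd (segNear r) v ≤ 3 ∨ DA.sd (segFar r) v ≤ 3 → r ∈ LR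

/-- **the context of R6 for a system** -/
theorem GSys.ctxM {α : Type u} {M : Matroid α} [M.Finite] {w s : ℕ} {𝒯 : Finset (ℕ × ℕ)}
    {L₁ : Bool × ℕ × ℕ → List α} {f₁ : α → Sym2 ((ℕ × ℕ) ⊕ α)} {e₁ : Bool × ℕ × ℕ → α} {u₁ : ℕ}
    {L₂ : Bool × ℕ × ℕ → List α} {f₂ : α → Sym2 ((ℕ × ℕ) ⊕ α)} {e₂ : Bool × ℕ × ℕ → α} {u₂ : ℕ}
    {D : Set α} {σ N m : ℕ} {τ : ℕ → ℕ × ℕ} {R : ℕ → Bool × ℕ × ℕ} {c : ℕ → ℕ → α}
    {Za : Finset (Bool × ℕ × ℕ)} {row : α → Sym2 (ℕ × ℕ)} {β D₀ δ₀ D₁ δ₁ : ℕ}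
    {Hm Hs₀ Om₁ Hs₁ Om₂ : Finset (ℕ × ℕ)}
    (hG : GSys M w s 𝒯 L₁ f₁ e₁ u₁ L₂ f₂ e₂ u₂ D σ N m τ R c Za row β D₀ δ₀ D₁ δ₁ Hm Hs₀ Om₁ Hs₁ Om₂)
    {Bd : Set (ℕ × ℕ)} {Zq Zr LR : Set (Bool × ℕ × ℕ)} (hZ : RowsM w δ₁ Om₂ Bd Zq Zr LR) :
    CtxM M w L₁ D row β D₀ δ₀ D₁ δ₁ Hm Hs₀ Om₁ Hs₁ Om₂ (Seg w \ LR) where
  rnd := hG.rnd
  rw := hG.rw
  cl := fun z hz => ⟨hG.b.D_cl hz, fun h => Set.disjoint_left.1 hG.b.D₁ hz h⟩
  hβ := hG.hβ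
  vis := by
    rintro r ⟨hr, hrL⟩
    have hrZ : r ∉ Zq := fun h => hrL (hZ.rL (hZ.qr h))
    refine ⟨hr, fun v hv => ?_⟩
    have hvr : segNear r = v ∨ segFar r = v := by
      have h1 := at_srow.2 hv
      exact h1
    have hvZ : v ∉ VV Zq := by
      intro h
      refine hrL (hZ.rL (hZ.touch r hr ?_))
      rcases hvr with rfl | rfl
      · exact Or.inl h
      · exact Or.inr h
    have hvis : VisR w δ₁ Om₂ v := by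
      rcases hvr with rfl | rfl
      · exact (hZ.out r hr hrZ).1
      · exact (hZ.out r hr hrZ).2
    refine ⟨hvis, fun b hb => ?_⟩
    obtain ⟨h1, h2⟩ := hvis.sg hb
    have h3 : sgV w v b ∉ Zq := by
      intro h
      refine hvZ ⟨sgV w v b, h, ?_⟩
      exact (at_of_srow h2).1
    have h4 := hZ.out _ h1 h3
    rcases (at_of_srow h2).2 with h5 | h5
    · rw [h5] at h4
      exact h4.1
    · rw [h5] at h4
      exact h4.2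

/-- other tiles -/
lemma _root_.TST.LabOut.reidx {α : Type u} {β ν : Type*} {V : Set β} {nd₁ nd₂ : β → ν}
    {S : α → α → α → Prop} {Dg Rg : Set α} {pr : α → Bool → β} {pa : α → Bool → Set α}
    {m n N R₁ : ℕ} {R : ℕ → β} {c : ℕ → ℕ → α} {κ ι : ℕ → ℕ} {T : Set α} {kc : ℕ} {cls : ℕ → ℕ}
    {pv : Set ℕ}
    (h : LabOut V nd₁ nd₂ S Dg Rg pr pa m n R₁ R (fun i b => c i (ι b)) κ T kc cls pv)
    (h1 : ∀ b < R₁, ι b < N) (h2 : ∀ a b, a < b → b < R₁ → ι a < ι b) :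
    LabOut V nd₁ nd₂ S Dg Rg pr pa m n N R c (fun b => ι (κ b)) T kc cls pv where
  mono := fun a b hab hb => h2 _ _ (h.mono a b hab hb) (h.lt b hb)
  lt := fun b hb => h1 _ (h.lt b hb)
  sub := h.sub
  chn := h.chn
  cls_lt := h.cls_lt
  sur := h.sur
  see := h.see
  priv := h.priv
  conn := h.conn

/-- **LABEL LEVEL FOR A SYSTEM.** -/
theorem labRow_of (h3 : LabelStmt3.{u, 0, 0}) (hF : FactsAll.{u}) (β D₀ δ₀ D₁ δ₁ : ℕ) :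
    LabRow.{u} β D₀ δ₀ D₁ δ₁ := by
  classical
  intro mmax n
  have h3' := fun m => h3 m n
  choose Nf hNf using h3'
  refine ⟨(Finset.range (mmax + 1)).sup Nf, ?_⟩
  intro α M _ w s 𝒯 L₁ f₁ e₁ u₁ L₂ f₂ e₂ u₂ D σ N m τ R c Za row Hm Hs₀ Om₁ Hs₁ Om₂ hm hG Bd Zq Zr LR
    hqr hrL hLS hgeo hout htouch hbd
  have hZ : RowsM w δ₁ Om₂ Bd Zq Zr LR := ⟨hqr, hrL, hLS, hgeo, hout, htouch, hbd⟩
  have hC := hG.ctxM hZ
  obtain ⟨G, r₀, A₀, hLM⟩ := labM hG hqr hrL hLS hout hbd (Dg := D)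
    (fun d hd _ _ _ _ _ _ _ _ _ _ _ => hd)
  refine ⟨D, G, r₀, A₀, hLM, ?_⟩
  intro T' hT' hc
  have hNm : Nf m ≤ T'.card :=
    (Finset.le_sup (f := Nf) (Finset.mem_range.2 (by omega : m < mmax + 1))).trans hc
  obtain ⟨ι, hι⟩ : ∃ ι : ℕ → ℕ,
      ι = fun b => if h : b < T'.card then T'.orderEmbOfFin rfl ⟨b, h⟩ else 0 := ⟨_, rfl⟩
  have e : ∀ b (h : b < T'.card), ι b = T'.orderEmbOfFin rfl ⟨b, h⟩ := by
    intro b h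
    rw [hι]
    simp only [h, dif_pos]
  have hιT : ∀ b < Nf m, ι b ∈ T' := by
    intro b hb
    rw [e b (hb.trans_le hNm)]
    exact Finset.orderEmbOfFin_mem _ _ _
  have hιm : ∀ a b, a < b → b < Nf m → ι a < ι b := by
    intro a b hab hb
    rw [e a (hab.trans (hb.trans_le hNm)), e b (hb.trans_le hNm)]
    exact (T'.orderEmbOfFin rfl).strictMono hab
  have hιN : ∀ b < Nf m, ι b < N := fun b hb => Finset.mem_range.1 (hT' (hιT b hb))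
  have hιi : ∀ a < Nf m, ∀ b < Nf m, ι a = ι b → a = b := by
    intro a ha b hb hab
    rcases Nat.lt_trichotomy a b with h | h | h
    · have := hιm a b h hb
      omega
    · exact h
    · have := hιm b a h ha
      omega
  have hFM := hF M w L₁ f₁ e₁ u₁ D row β D₀ δ₀ D₁ δ₁ Hm Hs₀ Om₁ Hs₁ Om₂ (Seg w \ LR)
    hG.b.pair.s₁ hC
  obtain ⟨κ, T, pr, pa, kc, cls, pv, hL, hTD, hTP⟩ := hNf m (rwM L₁) (Seg w \ LR) segNear segFar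
    (Sees M (crr L₁ (Seg w))) D (frM M w L₁ D (Seg w \ LR))
    (onM M w L₁ D row D₀ Hs₀ (Seg w \ LR)) (dtM M w L₁ D row D₀ Hs₀ (Seg w \ LR))
    (nrM M w L₁ D row D₀ Hs₀ (Seg w \ LR)) (trM M w L₁ D row D₀ Hs₀) (tuM M w L₁ D row D₀ Hs₀)
    (Lr M (crr L₁ (Seg w)) row w)
    (fun r => Arw M (crr L₁ (Seg w)) row w (segNear r) (segFar r))
    (fun u => ASt M (crr L₁ (Seg w)) row w u (nbV u))
    (fun t x y v => t ∈ M.closure (crr L₁ (Seg w) \ {x, y, v}))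
    (fun u i => sgV w u (nbV u i)) nbV (rfM M w L₁ (Seg w \ LR)) (roM M w L₁ D (Seg w \ LR))
    (ctM M w L₁ D row D₀ Hs₀ (Seg w \ LR)) R (fun i b => c i (ι b))
    hFM
    (fun i hi _ a ha => hG.b.mem i hi _ (hιN a ha))
    (fun i hi a ha j hj b hb h => by
      obtain ⟨h1, h2⟩ := hG.b.inj i hi _ (hιN a ha) j hj _ (hιN b hb) h
      exact ⟨h1, hιi a ha b hb h2⟩)
  have hRg := hC.rgFacts hFM hG.b.pair.s₁ (hqr.trans hrL) hout hTD hTP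
  have hTw : ∀ t ∈ T, TwoB M (crr L₁ (Seg w)) row w D₀ Hs₀ Bd t := by
    intro t ht
    refine hC.twoB_pl ?_ (hTP t ht)
    intro r hr v hv x hx hxB
    refine hr.2 (hbd r hr.1 x hxB ?_)
    rcases hv with rfl | rfl
    · exact Or.inl hx
    · exact Or.inr hx
  exact ⟨fun b => ι (κ b), T, pr, pa, kc, cls, pv, fun b hb => hιT _ (hL.lt b hb),
    { T_D := hTD
      two := hTw
      rg := hRg
      lab := hL.reidx hιN hιm }⟩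

/-- **R6** -/
theorem factsAll : FactsAll.{u} :=
  fun _ _ _ _ _ _ _ _ _ _ _ _ _ _ _ _ _ _ _ _ _ h => h.labFacts51

/-- **`LabRow` from `LabelStmt3`.** -/
theorem labRow (h3 : LabelStmt3.{u, 0, 0}) (β D₀ δ₀ D₁ δ₁ : ℕ) : LabRow.{u} β D₀ δ₀ D₁ δ₁ :=
  labRow_of h3 factsAll β D₀ δ₀ D₁ δ₁

end TSH
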