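import Mathlib

/-!
# Label mono (claim A of T*, helper70's [LM] and [LM2])

`D` = elements which see two labels, `i d` = far gap (the element splits the far label between the
tiles `i d - 1` and `i d`), `X d` = trace on the near label (`X d b`: the conflict of the tile `b` is
on the near side).  `HomS`: patterns of at most four tiles are homogeneous.  If the traces of elements
with different far gaps are comparable, then either no element splits the near label, or all traces are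
initial segments and every gap is realized, with the far gap in any window around it, or all traces are
final segments (same).
-/

open Set

namespace TST

variable {β : Type*} {D : Set β} {i : β → ℕ} {X : β → ℕ → Prop} {N : ℕ}

/-- **Homogeneity** of the patterns of at most four tiles. -/
def HomS (D : Set β) (i : β → ℕ) (X : β → ℕ → Prop) (N : ℕ) : Prop :=
  ∀ (S : Finset ℕ) (φ : ℕ → ℕ), S.card ≤ 4 → (∀ s ∈ S, ∀ t ∈ S, s < t → φ s < φ t) →
    (∀ s ∈ S, s < N) → (∀ s ∈ S, φ s < N) → ∀ d ∈ D, (∃ s ∈ S, s < i d) → (∃ s ∈ S, i d ≤ s) →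
    ∃ d' ∈ D, ∀ s ∈ S, (X d s ↔ X d' (φ s)) ∧ (s < i d ↔ φ s < i d')

/-- The tuple form of the homogeneity. -/
def HomP (D : Set β) (i : β → ℕ) (X : β → ℕ → Prop) (N : ℕ) : Prop :=
  ∀ r ≤ 4, ∀ a a' : Fin r → ℕ, StrictMono a → StrictMono a' → (∀ j, a j < N) → (∀ j, a' j < N) →
    ∀ d ∈ D, (∃ j, a j < i d) → (∃ j, i d ≤ a j) →
    ∃ d' ∈ D, ∀ j, (X d (a j) ↔ X d' (a' j)) ∧ (a j < i d ↔ a' j < i d')

lemma HomP.homS (h : HomP D i X N) : HomS D i X N := by
  intro S φ hS hφ hN hN' d hd h1 h2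
  have hmem : ∀ j, S.orderEmbOfFin rfl j ∈ S := fun j => Finset.orderEmbOfFin_mem S rfl j
  have hsur : ∀ s ∈ S, ∃ j, S.orderEmbOfFin rfl j = s := by
    intro s hs
    have h3 := Finset.range_orderEmbOfFin S rfl
    have h4 : s ∈ Set.range (S.orderEmbOfFin rfl) := by
      rw [h3]
      exact hs
    exact h4
  obtain ⟨s, hs, h1⟩ := h1
  obtain ⟨t, ht, h2⟩ := h2
  obtain ⟨j, rfl⟩ := hsur s hs
  obtain ⟨k, rfl⟩ := hsur t ht
  obtain ⟨d', hd', h3⟩ := h S.card hS (fun j => S.orderEmbOfFin rfl j)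
    (fun j => φ (S.orderEmbOfFin rfl j)) (S.orderEmbOfFin rfl).strictMono
    (fun j k hjk => hφ _ (hmem j) _ (hmem k) ((S.orderEmbOfFin rfl).strictMono hjk))
    (fun j => hN _ (hmem j)) (fun j => hN' _ (hmem j)) d hd ⟨j, h1⟩ ⟨k, h2⟩
  refine ⟨d', hd', fun s hs => ?_⟩
  obtain ⟨j, rfl⟩ := hsur s hs
  exact h3 j

/-- some element contains `p`, not `q`, and has its far gap in `(x, y]` -/
def Rlz (D : Set β) (i : β → ℕ) (X : β → ℕ → Prop) (p q x y : ℕ) : Prop :=
  ∃ d ∈ D, X d p ∧ ¬ X d q ∧ x < i d ∧ i d ≤ y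

lemma HomS.mv (h : HomS D i X N) {p q x y p' q' x' y' : ℕ} (hP : Rlz D i X p q x y)
    (hN : p < N ∧ q < N ∧ x < N ∧ y < N) (hN' : p' < N ∧ q' < N ∧ x' < N ∧ y' < N)
    (h1 : (p < q → p' < q') ∧ (q < p → q' < p') ∧ (p = q → p' = q'))
    (h2 : (p < x → p' < x') ∧ (x < p → x' < p') ∧ (p = x → p' = x'))
    (h3 : (p < y → p' < y') ∧ (y < p → y' < p') ∧ (p = y → p' = y'))
    (h4 : (q < x → q' < x') ∧ (x < q → x' < q') ∧ (q = x → q' = x'))
    (h5 : (q < y → q' < y') ∧ (y < q → y' < q') ∧ (q = y → q' = y'))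
    (h6 : (x < y → x' < y') ∧ (y < x → y' < x') ∧ (x = y → x' = y')) :
    Rlz D i X p' q' x' y' := by
  classical
  obtain ⟨φ, hφ⟩ : ∃ φ : ℕ → ℕ, φ = fun s => if s = p then p' else if s = q then q' else
    if s = x then x' else y' := ⟨_, rfl⟩
  have fp : φ p = p' := by rw [hφ]; simp
  have fq : φ q = q' := by
    rw [hφ]
    by_cases e : q = p
    · simp only [e, if_true]
      exact h1.2.2 e.symm
    · simp [e]
  have fx : φ x = x' := by
    rw [hφ]
    by_cases e : x = p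
    · simp only [e, if_true]
      exact h2.2.2 e.symm
    · by_cases e2 : x = q
      · simp only [e2, if_true]
        rw [if_neg (fun h => e (e2.trans h))]
        exact h4.2.2 e2.symm
      · simp [e, e2]
  have fy : φ y = y' := by
    rw [hφ]
    by_cases e : y = p
    · simp only [e, if_true]
      exact h3.2.2 e.symm
    · by_cases e2 : y = q
      · simp only [e2, if_true]
        rw [if_neg (fun h => e (e2.trans h))]
        exact h5.2.2 e2.symm
      · by_cases e3 : y = x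
        · simp only [e3, if_true]
          rw [if_neg (fun h => e (e3.trans h)), if_neg (fun h => e2 (e3.trans h))]
          exact h6.2.2 e3.symm
        · simp [e, e2, e3]
  obtain ⟨d, hd, k1, k2, k3, k4⟩ := hP
  have hmem : ∀ s ∈ ({p, q, x, y} : Finset ℕ), s = p ∨ s = q ∨ s = x ∨ s = y := by
    intro s hs
    simpa using hs
  obtain ⟨d', hd', hs⟩ := h {p, q, x, y} φ Finset.card_le_four (by
      intro s hs t ht hst
      rcases hmem s hs with rfl | rfl | rfl | rfl <;> rcases hmem t ht with rfl | rfl | rfl | rfl <;>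
        simp only [fp, fq, fx, fy] <;> omega) (by
      intro s hs
      rcases hmem s hs with rfl | rfl | rfl | rfl <;> omega) (by
      intro s hs
      rcases hmem s hs with rfl | rfl | rfl | rfl <;> simp only [fp, fq, fx, fy] <;> omega) d hd
      ⟨x, by simp, k3⟩ ⟨y, by simp, k4⟩
  have hp := hs p (by simp)
  have hq := hs q (by simp)
  have hx := hs x (by simp)
  have hy := hs y (by simp)
  rw [fp] at hp
  rw [fq] at hq
  rw [fx] at hx
  rw [fy] at hy
  exact ⟨d', hd', hp.1.1 k1, fun h => k2 (hq.1.2 h), hx.2.1 k3, by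
    by_contra hlt
    push Not at hlt
    exact absurd (hy.2.2 hlt) (by omega)⟩

/-- comparable traces -/
def CmpS (D : Set β) (i : β → ℕ) (X : β → ℕ → Prop) (N : ℕ) : Prop :=
  ∀ d ∈ D, ∀ d' ∈ D, i d ≠ i d' → (∀ b < N, X d b → X d' b) ∨ ∀ b < N, X d' b → X d b

lemma CmpS.inc (h : CmpS D i X N) {p q x y x' y' : ℕ} (hp : p < N) (hq : q < N)
    (h1 : Rlz D i X p q x y) (h2 : Rlz D i X q p x' y') (hd : y ≤ x' ∨ y' ≤ x) : False := by
  obtain ⟨d, hd1, a1, a2, a3, a4⟩ := h1
  obtain ⟨e, he1, b1, b2, b3, b4⟩ := h2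
  rcases h d hd1 e he1 (by omega) with h3 | h3
  · exact b2 (h3 p hp a1)
  · exact a2 (h3 q hq b1)

/-- A realization at a pair in any order is moved to the pair `4, 8`. -/
lemma HomS.norm (h : HomS D i X N) (hN : 13 ≤ N) {p q x : ℕ} (hp : p < N) (hq : q < N)
    (hpq : p < q) (hx : x + 1 < N) :
    (Rlz D i X p q x (x + 1) → ∃ x' ≤ 10, Rlz D i X 4 8 x' (x' + 1)) ∧
    (Rlz D i X q p x (x + 1) → ∃ x' ≤ 10, Rlz D i X 8 4 x' (x' + 1)) := by
  have key : ∃ x' y', x' < y' ∧ y' ≤ 11 ∧ (y' = x' + 1 ∨ (x' = 4 ∧ y' = 8)) ∧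
      ((p < x → 4 < x') ∧ (x < p → x' < 4) ∧ (p = x → 4 = x')) ∧
      ((p < x + 1 → 4 < y') ∧ (x + 1 < p → y' < 4) ∧ (p = x + 1 → 4 = y')) ∧
      ((q < x → 8 < x') ∧ (x < q → x' < 8) ∧ (q = x → 8 = x')) ∧
      ((q < x + 1 → 8 < y') ∧ (x + 1 < q → y' < 8) ∧ (q = x + 1 → 8 = y')) := by
    rcases lt_trichotomy (x + 1) p with h1 | h1 | h1
    · exact ⟨0, 1, by omega⟩
    · exact ⟨3, 4, by omega⟩
    · rcases lt_trichotomy (x + 1) q with h2 | h2 | h2
      · by_cases h3 : x = p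
        · exact ⟨4, 5, by omega⟩
        · exact ⟨5, 6, by omega⟩
      · by_cases h3 : x = p
        · exact ⟨4, 8, by omega⟩
        · exact ⟨7, 8, by omega⟩
      · by_cases h3 : x = q
        · exact ⟨8, 9, by omega⟩
        · exact ⟨9, 10, by omega⟩
  obtain ⟨x', y', k1, k2, k3, k4, k5, k6, k7⟩ := key
  have fin : ∀ p' q', Rlz D i X p' q' x' y' → ∃ x' ≤ 10, Rlz D i X p' q' x' (x' + 1) := by
    intro p' q' hR
    rcases k3 with rfl | ⟨rfl, rfl⟩
    · exact ⟨x', by omega, hR⟩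
    · obtain ⟨d, hd, a1, a2, a3, a4⟩ := hR
      exact ⟨i d - 1, by omega, d, hd, a1, a2, by omega, by omega⟩
  constructor
  · intro hR
    exact fin 4 8 (h.mv hR ⟨hp, hq, by omega, hx⟩ ⟨by omega, by omega, by omega, by omega⟩
      (by omega) k4 k5 k6 k7 (by omega))
  · intro hR
    exact fin 8 4 (h.mv hR ⟨hq, hp, by omega, hx⟩ ⟨by omega, by omega, by omega, by omega⟩
      (by omega) k6 k7 k4 k5 (by omega))

/-- **Not both orientations.** -/
theorem not_both (h : HomS D i X N) (hc : CmpS D i X N) (hN : 13 ≤ N)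
    (hi : ∀ d ∈ D, 0 < i d ∧ i d < N) {d e : β} (hd : d ∈ D) (he : e ∈ D) {a b a' b' : ℕ}
    (hab : a < b) (hb : b < N) (hab' : a' < b') (hb' : b' < N) (h1 : X d a) (h2 : ¬ X d b)
    (h3 : ¬ X e a') (h4 : X e b') : False := by
  obtain ⟨x, hx, hA⟩ := (h.norm hN (p := a) (q := b) (x := i d - 1) (by omega) hb hab
    (by have := hi d hd; omega)).1 ⟨d, hd, h1, h2, by have := hi d hd; omega, by omega⟩
  obtain ⟨y, hy, hB⟩ := (h.norm hN (p := a') (q := b') (x := i e - 1) (by omega) hb' hab'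
    (by have := hi e he; omega)).2 ⟨e, he, h4, h3, by have := hi e he; omega, by omega⟩
  -- different far gaps are impossible
  have un : ∀ x y, Rlz D i X 4 8 x (x + 1) → Rlz D i X 8 4 y (y + 1) → x = y := by
    intro x y k1 k2
    by_contra hxy
    exact hc.inc (by omega) (by omega) k1 k2 (by omega)
  obtain rfl : x = y := un x y hA hB
  -- moves
  have mvA : ∀ {p q x y p' q' x' y'}, Rlz D i X p q x y → p < 13 ∧ q < 13 ∧ x < 13 ∧ y < 13 →
      p' < 13 ∧ q' < 13 ∧ x' < 13 ∧ y' < 13 →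
      (((p < q → p' < q') ∧ (q < p → q' < p') ∧ (p = q → p' = q')) ∧
      ((p < x → p' < x') ∧ (x < p → x' < p') ∧ (p = x → p' = x')) ∧
      ((p < y → p' < y') ∧ (y < p → y' < p') ∧ (p = y → p' = y')) ∧
      ((q < x → q' < x') ∧ (x < q → x' < q') ∧ (q = x → q' = x')) ∧
      ((q < y → q' < y') ∧ (y < q → y' < q') ∧ (q = y → q' = y')) ∧
      ((x < y → x' < y') ∧ (y < x → y' < x') ∧ (x = y → x' = y'))) →
      Rlz D i X p' q' x' y' := by
    intro p q x y p' q' x' y' k1 k2 k3 k4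
    exact h.mv k1 (by omega) (by omega) k4.1 k4.2.1 k4.2.2.1 k4.2.2.2.1 k4.2.2.2.2.1
      k4.2.2.2.2.2
  -- no type with a choice
  have c : x = 3 ∨ x = 4 ∨ x = 7 ∨ x = 8 := by
    by_contra hx'
    have k1 : x ≤ 2 ∨ x = 5 ∨ x = 6 ∨ x = 9 ∨ x = 10 := by omega
    rcases k1 with k1 | rfl | rfl | rfl | rfl
    · rcases Nat.eq_zero_or_pos x with rfl | k2
      · have := un 1 0 (mvA hA (by omega) (by omega) (by omega)) hB
        omega
      · have := un 0 x (mvA hA (by omega) (by omega) (by omega)) hB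
        omega
    · have := un 6 5 (mvA hA (by omega) (by omega) (by omega)) hB
      omega
    · have := un 5 6 (mvA hA (by omega) (by omega) (by omega)) hB
      omega
    · have := un 10 9 (mvA hA (by omega) (by omega) (by omega)) hB
      omega
    · have := un 9 10 (mvA hA (by omega) (by omega) (by omega)) hB
      omega
  have uA : ∀ y, Rlz D i X 4 8 y (y + 1) → y = x := fun y hy => un y x hy hB
  have uB : ∀ y, Rlz D i X 8 4 y (y + 1) → y = x := fun y hy => (un x y hA hy).symm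
  rcases c with rfl | rfl | rfl | rfl
  · -- the far gap is right before `4`
    obtain ⟨d, hd, a1, a2, a3, a4⟩ := hA
    by_cases k : X d 3
    · have := uA 4 (mvA (p := 3) (q := 8) (x := 3) (y := 4) ⟨d, hd, k, a2, a3, a4⟩ (by omega)
        (by omega) (by omega))
      omega
    · obtain ⟨e, he, b1, b2, b3, b4⟩ := mvA (p := 4) (q := 3) (x := 3) (y := 4) (p' := 8)
        (q' := 4) (x' := 4) (y' := 8) ⟨d, hd, a1, k, a3, a4⟩ (by omega) (by omega) (by omega)
      have := uB (i e - 1) ⟨e, he, b1, b2, by omega, by omega⟩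
      omega
  · -- the far gap is right after `4`
    have hA' : Rlz D i X 0 12 4 5 := by
      obtain ⟨d, hd, a1, a2, a3, a4⟩ := hA
      refine ⟨d, hd, ?_, ?_, a3, a4⟩
      · by_contra k
        have := uB 8 (mvA (p := 4) (q := 0) (x := 4) (y := 5) ⟨d, hd, a1, k, a3, a4⟩ (by omega)
          (by omega) (by omega))
        omega
      · intro k
        have := uB 0 (mvA (p := 12) (q := 8) (x := 4) (y := 5) ⟨d, hd, k, a2, a3, a4⟩ (by omega)
          (by omega) (by omega))
        omega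
    have hB' : Rlz D i X 12 0 5 6 := by
      obtain ⟨e, he, b1, b2, b3, b4⟩ := mvA (p' := 9) (q' := 5) (x' := 5) (y' := 6) hB (by omega)
        (by omega) (by omega)
      refine ⟨e, he, ?_, ?_, b3, b4⟩
      · by_contra k
        have := uA 0 (mvA (p := 9) (q := 12) (x := 5) (y := 6) ⟨e, he, b1, k, b3, b4⟩ (by omega)
          (by omega) (by omega))
        omega
      · intro k
        have := uA 8 (mvA (p := 0) (q := 5) (x := 5) (y := 6) ⟨e, he, k, b2, b3, b4⟩ (by omega)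
          (by omega) (by omega))
        omega
    exact hc.inc (by omega) (by omega) hA' hB' (by omega)
  · -- the far gap is right before `8`
    have hA' : Rlz D i X 0 12 7 8 := by
      obtain ⟨d, hd, a1, a2, a3, a4⟩ := hA
      refine ⟨d, hd, ?_, ?_, a3, a4⟩
      · by_contra k
        have := uB 9 (mvA (p := 4) (q := 0) (x := 7) (y := 8) ⟨d, hd, a1, k, a3, a4⟩ (by omega)
          (by omega) (by omega))
        omega
      · intro k
        have := uB 3 (mvA (p := 12) (q := 8) (x := 7) (y := 8) ⟨d, hd, k, a2, a3, a4⟩ (by omega)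
          (by omega) (by omega))
        omega
    have hB' : Rlz D i X 12 0 8 9 := by
      obtain ⟨e, he, b1, b2, b3, b4⟩ := mvA (p' := 9) (q' := 5) (x' := 8) (y' := 9) hB (by omega)
        (by omega) (by omega)
      refine ⟨e, he, ?_, ?_, b3, b4⟩
      · by_contra k
        have := uA 3 (mvA (p := 9) (q := 12) (x := 8) (y := 9) ⟨e, he, b1, k, b3, b4⟩ (by omega)
          (by omega) (by omega))
        omega
      · intro k
        have := uA 9 (mvA (p := 0) (q := 5) (x := 8) (y := 9) ⟨e, he, k, b2, b3, b4⟩ (by omega)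
          (by omega) (by omega))
        omega
    exact hc.inc (by omega) (by omega) hA' hB' (by omega)
  · -- the far gap is right after `8`
    obtain ⟨d, hd, a1, a2, a3, a4⟩ := hA
    by_cases k : X d 9
    · obtain ⟨e, he, b1, b2, b3, b4⟩ := mvA (p := 9) (q := 8) (x := 8) (y := 9) (p' := 8)
        (q' := 4) (x' := 4) (y' := 8) ⟨d, hd, k, a2, a3, a4⟩ (by omega) (by omega) (by omega)
      have := uB (i e - 1) ⟨e, he, b1, b2, by omega, by omega⟩
      omega
    · have := uA 7 (mvA (p := 4) (q := 9) (x := 8) (y := 9) ⟨d, hd, a1, k, a3, a4⟩ (by omega)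
        (by omega) (by omega))
      omega

/-- One orientation: every gap is realized, with the far gap in any window around it. -/
theorem HomS.realize (h : HomS D i X N) (hi : ∀ d ∈ D, 0 < i d ∧ i d < N)
    (hini : ∀ d ∈ D, ∀ a b, a < b → b < N → X d b → X d a) {d : β} (hd : d ∈ D) {a b : ℕ}
    (ha : a < N) (hb : b < N) (h1 : X d a) (h2 : ¬ X d b) {lo hi' j : ℕ} (hlo : lo + 3 ≤ j)
    (hhi : j + 3 ≤ hi') (hN : hi' ≤ N) :
    ∃ e ∈ D, (∀ b < N, X e b ↔ b < j) ∧ lo < i e ∧ i e < hi' := by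
  classical
  have hi0 := hi d hd
  -- the gap of `d`
  have hex : ∃ c, ¬ X d c := ⟨b, h2⟩
  obtain ⟨c, hc, hcmin⟩ : ∃ c, ¬ X d c ∧ ∀ c' < c, X d c' :=
    ⟨Nat.find hex, Nat.find_spec hex, fun c' hc' => not_not.1 (Nat.find_min hex hc')⟩
  have hcN : c < N := by
    by_contra h3
    exact h2 (hcmin b (by omega))
  have hc0 : 0 < c := by
    rcases Nat.eq_zero_or_pos c with rfl | h3
    · exfalso
      rcases Nat.eq_zero_or_pos a with rfl | h4
      · exact hc h1
      · exact hc (hini d hd 0 a h4 ha h1)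
    · exact h3
  have hR : Rlz D i X (c - 1) c (i d - 1) (i d) :=
    ⟨d, hd, hcmin _ (by omega), hc, by omega, le_rfl⟩
  have key : ∃ x y, lo ≤ x ∧ x < y ∧ y < hi' ∧
      ((c - 1 < i d - 1 → j - 1 < x) ∧ (i d - 1 < c - 1 → x < j - 1) ∧
        (c - 1 = i d - 1 → j - 1 = x)) ∧
      ((c - 1 < i d → j - 1 < y) ∧ (i d < c - 1 → y < j - 1) ∧ (c - 1 = i d → j - 1 = y)) ∧
      ((c < i d - 1 → j < x) ∧ (i d - 1 < c → x < j) ∧ (c = i d - 1 → j = x)) ∧
      ((c < i d → j < y) ∧ (i d < c → y < j) ∧ (c = i d → j = y)) := by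
    rcases lt_trichotomy (i d) c with k1 | k1 | k1
    · by_cases k2 : i d = c - 1
      · exact ⟨lo, j - 1, by omega⟩
      · exact ⟨lo, lo + 1, by omega⟩
    · exact ⟨j - 1, j, by omega⟩
    · by_cases k2 : i d = c + 1
      · exact ⟨j, j + 1, by omega⟩
      · exact ⟨j + 1, j + 2, by omega⟩
  obtain ⟨x, y, k1, k2, k3, k4, k5, k6, k7⟩ := key
  obtain ⟨e, he, a1, a2, a3, a4⟩ := h.mv hR (p' := j - 1) (q' := j) (x' := x) (y' := y)
    (by omega) (by omega) (by omega) k4 k5 k6 k7 (by omega)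
  refine ⟨e, he, fun b hb => ⟨fun k => ?_, fun k => ?_⟩, by omega, by omega⟩
  · by_contra h3
    push Not at h3
    rcases h3.lt_or_eq with h4 | rfl
    · exact a2 (hini e he j b h4 hb k)
    · exact a2 k
  · rcases Nat.lt_or_ge b (j - 1) with h4 | h4
    · exact hini e he b (j - 1) h4 (by omega) a1
    · obtain rfl : b = j - 1 := by omega
      exact a1

lemma HomS.compl (h : HomS D i X N) : HomS D i (fun d b => ¬ X d b) N := by
  intro S φ hS hφ hN hN' d hd h1 h2
  obtain ⟨d', hd', h3⟩ := h S φ hS hφ hN hN' d hd h1 h2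
  exact ⟨d', hd', fun s hs => ⟨not_congr (h3 s hs).1, (h3 s hs).2⟩⟩

lemma CmpS.compl (h : CmpS D i X N) : CmpS D i (fun d b => ¬ X d b) N := by
  intro d hd d' hd' hne
  rcases h d hd d' hd' hne with h1 | h1
  · exact Or.inr fun b hb h2 h3 => h2 (h1 b hb h3)
  · exact Or.inl fun b hb h2 h3 => h2 (h1 b hb h3)

/-- **[LM].** -/
theorem label_mono (h : HomS D i X N) (hc : CmpS D i X N) (hN : 13 ≤ N)
    (hi : ∀ d ∈ D, 0 < i d ∧ i d < N) :
    (∀ d ∈ D, ∀ a < N, ∀ b < N, (X d a ↔ X d b)) ∨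
    ((∀ d ∈ D, ∀ a b, a < b → b < N → X d b → X d a) ∧
      ∀ lo hi' j, lo + 3 ≤ j → j + 3 ≤ hi' → hi' ≤ N →
        ∃ e ∈ D, (∀ b < N, X e b ↔ b < j) ∧ lo < i e ∧ i e < hi') ∨
    ((∀ d ∈ D, ∀ a b, a < b → b < N → X d a → X d b) ∧
      ∀ lo hi' j, lo + 3 ≤ j → j + 3 ≤ hi' → hi' ≤ N →
        ∃ e ∈ D, (∀ b < N, X e b ↔ j ≤ b) ∧ lo < i e ∧ i e < hi') := by
  classical
  by_cases hp : ∃ d ∈ D, ∃ a b, a < b ∧ b < N ∧ X d a ∧ ¬ X d b
  · obtain ⟨d, hd, a, b, hab, hb, h1, h2⟩ := hp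
    have hini : ∀ d ∈ D, ∀ a b, a < b → b < N → X d b → X d a := by
      intro e he a' b' hab' hb' h3
      by_contra h4
      exact not_both h hc hN hi hd he hab hb hab' hb' h1 h2 h4 h3
    refine Or.inr (Or.inl ⟨hini, fun lo hi' j k1 k2 k3 => ?_⟩)
    exact h.realize hi hini hd (by omega) hb h1 h2 k1 k2 k3
  · push Not at hp
    by_cases hm : ∃ d ∈ D, ∃ a b, a < b ∧ b < N ∧ ¬ X d a ∧ X d b
    · obtain ⟨d, hd, a, b, hab, hb, h1, h2⟩ := hm
      refine Or.inr (Or.inr ⟨hp, fun lo hi' j k1 k2 k3 => ?_⟩)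
      obtain ⟨e, he, h3, h4, h5⟩ := h.compl.realize hi
        (fun d hd a b hab hb h3 h4 => h3 (hp d hd a b hab hb h4)) hd (a := a) (b := b) (by omega)
        hb h1 (not_not.2 h2) k1 k2 k3
      refine ⟨e, he, fun b hb => ?_, h4, h5⟩
      have := h3 b hb
      constructor
      · intro h6
        by_contra h7
        exact this.2 (by omega) h6
      · intro h6
        by_contra h7
        have := this.1 h7
        omega
    · push Not at hm
      refine Or.inl fun d hd a ha b hb => ?_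
      rcases lt_trichotomy a b with k | rfl | k
      · exact ⟨hp d hd a b k hb, fun h3 => by
          by_contra h4
          exact hm d hd a b k hb h4 h3⟩
      · exact Iff.rfl
      · exact ⟨fun h3 => by
          by_contra h4
          exact hm d hd b a k ha h4 h3, hp d hd b a k ha⟩

/-! ### [LM2]: two kinds, comparable for all pairs -/

/-- homogeneity of the patterns of two tiles -/
def HomT (D : Set β) (X : β → ℕ → Prop) (N : ℕ) : Prop :=
  ∀ a b a' b', a < b → b < N → a' < b' → b' < N → ∀ d ∈ D, ∃ d' ∈ D,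
    (X d a ↔ X d' a') ∧ (X d b ↔ X d' b')

lemma HomT.compl (h : HomT D X N) : HomT D (fun d b => ¬ X d b) N := by
  intro a b a' b' h1 h2 h3 h4 d hd
  obtain ⟨d', hd', h5, h6⟩ := h a b a' b' h1 h2 h3 h4 d hd
  exact ⟨d', hd', not_congr h5, not_congr h6⟩

lemma HomT.realize (h : HomT D X N) (hini : ∀ d ∈ D, ∀ a b, a < b → b < N → X d b → X d a)
    {d : β} (hd : d ∈ D) {a b : ℕ} (hab : a < b) (hb : b < N) (h1 : X d a) (h2 : ¬ X d b) {j : ℕ}
    (hj : 0 < j) (hjN : j < N) : ∃ e ∈ D, ∀ b < N, X e b ↔ b < j := by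
  obtain ⟨e, he, h3, h4⟩ := h a b (j - 1) j hab hb (by omega) hjN d hd
  refine ⟨e, he, fun b hb => ⟨fun k => ?_, fun k => ?_⟩⟩
  · by_contra h5
    push Not at h5
    rcases h5.lt_or_eq with h6 | rfl
    · exact h2 (h4.2 (hini e he j b h6 hb k))
    · exact h2 (h4.2 k)
  · rcases Nat.lt_or_ge b (j - 1) with h6 | h6
    · exact hini e he b (j - 1) h6 (by omega) (h3.1 h1)
    · obtain rfl : b = j - 1 := by omega
      exact h3.1 h1

/-- **[LM2].** -/
theorem label_mono2 {β' : Type*} {D' : Set β'} {Y : β' → ℕ → Prop} (h : HomT D X N)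
    (h' : HomT D' Y N)
    (hc : ∀ d ∈ D, ∀ e ∈ D', (∀ b < N, X d b → Y e b) ∨ ∀ b < N, Y e b → X d b)
    (hs : ∃ d ∈ D, ∃ a < N, ∃ b < N, X d a ∧ ¬ X d b)
    (hs' : ∃ e ∈ D', ∃ a < N, ∃ b < N, Y e a ∧ ¬ Y e b) :
    ((∀ d ∈ D, ∀ a b, a < b → b < N → X d b → X d a) ∧
      (∀ e ∈ D', ∀ a b, a < b → b < N → Y e b → Y e a) ∧
      (∀ j, 0 < j → j < N → ∃ d ∈ D, ∀ b < N, X d b ↔ b < j) ∧
      ∀ j, 0 < j → j < N → ∃ e ∈ D', ∀ b < N, Y e b ↔ b < j) ∨
    ((∀ d ∈ D, ∀ a b, a < b → b < N → X d a → X d b) ∧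
      (∀ e ∈ D', ∀ a b, a < b → b < N → Y e a → Y e b) ∧
      (∀ j, 0 < j → j < N → ∃ d ∈ D, ∀ b < N, X d b ↔ j ≤ b) ∧
      ∀ j, 0 < j → j < N → ∃ e ∈ D', ∀ b < N, Y e b ↔ j ≤ b) := by
  classical
  -- opposite orientations are impossible
  have opp : ∀ d ∈ D, ∀ e ∈ D', ∀ a b a' b', a < b → b < N → a' < b' → b' < N →
      X d a → ¬ X d b → ¬ Y e a' → Y e b' → False := by
    intro d hd e he a b a' b' h1 h2 h3 h4 k1 k2 k3 k4
    obtain ⟨e', he', h5, h6⟩ := h' a' b' a b h3 h4 h1 h2 e he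
    rcases hc d hd e' he' with h7 | h7
    · exact k3 (h5.2 (h7 a (by omega) k1))
    · exact k2 (h7 b h2 (h6.1 k4))
  have opp' : ∀ d ∈ D, ∀ e ∈ D', ∀ a b a' b', a < b → b < N → a' < b' → b' < N →
      ¬ X d a → X d b → Y e a' → ¬ Y e b' → False := by
    intro d hd e he a b a' b' h1 h2 h3 h4 k1 k2 k3 k4
    obtain ⟨e', he', h5, h6⟩ := h' a' b' a b h3 h4 h1 h2 e he
    rcases hc d hd e' he' with h7 | h7
    · exact k4 (h6.2 (h7 b h2 k2))
    · exact k1 (h7 a (by omega) (h5.1 k3))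
  obtain ⟨d, hd, a, ha, b, hb, h1, h2⟩ := hs
  obtain ⟨e, he, a', ha', b', hb', h3, h4⟩ := hs'
  have hne : a ≠ b := by
    rintro rfl
    exact h2 h1
  have hne' : a' ≠ b' := by
    rintro rfl
    exact h4 h3
  rcases lt_or_gt_of_ne hne with hab | hab
  · have hY : ∀ e ∈ D', ∀ a b, a < b → b < N → Y e b → Y e a := by
      intro e he a' b' k1 k2 k3
      by_contra k4
      exact opp d hd e he a b a' b' hab hb k1 k2 h1 h2 k4 k3
    have hab' : a' < b' := by
      rcases lt_or_gt_of_ne hne' with k | k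
      · exact k
      · exact absurd (hY e he b' a' k ha' h3) h4
    have hX : ∀ d ∈ D, ∀ a b, a < b → b < N → X d b → X d a := by
      intro d hd a b k1 k2 k3
      by_contra k4
      exact opp' d hd e he a b a' b' k1 k2 hab' hb' k4 k3 h3 h4
    exact Or.inl ⟨hX, hY, fun j k1 k2 => h.realize hX hd hab hb h1 h2 k1 k2,
      fun j k1 k2 => h'.realize hY he hab' hb' h3 h4 k1 k2⟩
  · have hY : ∀ e ∈ D', ∀ a b, a < b → b < N → Y e a → Y e b := by
      intro e he a' b' k1 k2 k3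
      by_contra k4
      exact opp' d hd e he b a a' b' hab ha k1 k2 h2 h1 k3 k4
    have hab' : b' < a' := by
      rcases lt_or_gt_of_ne hne' with k | k
      · exact absurd (hY e he a' b' k hb' h3) h4
      · exact k
    have hX : ∀ d ∈ D, ∀ a b, a < b → b < N → X d a → X d b := by
      intro d hd a b k1 k2 k3
      by_contra k4
      exact opp d hd e he a b b' a' k1 k2 hab' ha' k3 k4 h4 h3
    refine Or.inr ⟨hX, hY, fun j k1 k2 => ?_, fun j k1 k2 => ?_⟩
    · obtain ⟨f, hf, h5⟩ := h.compl.realize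
        (fun d hd a b hab hb h3 h4 => h3 (hX d hd a b hab hb h4)) hd hab ha h2
        (not_not.2 h1) k1 k2
      refine ⟨f, hf, fun b hb => ?_⟩
      have := h5 b hb
      constructor
      · intro h6
        by_contra h7
        exact this.2 (by omega) h6
      · intro h6
        by_contra h7
        have := this.1 h7
        omega
    · obtain ⟨f, hf, h5⟩ := h'.compl.realize
        (fun d hd a b hab hb h3 h4 => h3 (hY d hd a b hab hb h4)) he hab' ha' h4
        (not_not.2 h3) k1 k2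
      refine ⟨f, hf, fun b hb => ?_⟩
      have := h5 b hb
      constructor
      · intro h6
        by_contra h7
        exact this.2 (by omega) h6
      · intro h6
        by_contra h7
        have := this.1 h7
        omega

end TST
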