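import Pool.Agent.DA.LiftW

/-!
# Ramsey for realized patterns of tuples (helper75)

`ramsey_tuple`: a colouring of increasing `r`-tuples by a finite type is constant on a large
subfamily. `ramsey_pattern`: the same for the SET of patterns realized by a tuple, for all
`r ≤ R` at once and finitely many kinds `d`.
-/

set_option autoImplicit false

namespace TST

/-- A colouring of the increasing `r`-tuples with finitely many colours is constant on a
subfamily of size `n`. -/
theorem ramsey_tuple (r n : ℕ) (Γ : Type*) [Finite Γ] [Nonempty Γ] : ∃ N : ℕ,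
    ∀ χ : (Fin r → ℕ) → Γ, ∃ (f : ℕ → ℕ) (γ : Γ), (∀ b < n, f b < N) ∧
      (∀ a b, a < b → b < n → f a < f b) ∧
      ∀ a : Fin r → ℕ, StrictMono a → (∀ i, a i < n) → χ (f ∘ a) = γ := by
  classical
  have hf := Fintype.ofFinite Γ
  obtain ⟨φ⟩ : Nonempty (Γ ≃ Fin (Nat.card Γ)) := ⟨Finite.equivFin Γ⟩
  obtain ⟨N, hN⟩ := DA.ramsey_col r (Nat.card Γ) n
  refine ⟨N, fun χ => ?_⟩
  obtain ⟨T, hT1, hT2, c, -, hc⟩ := hN (Finset.range N) (by simp)
    (fun e => if h : e.card = r then (φ (χ (e.orderEmbOfFin h))).val else 0)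
    (fun e _ he => by
      rw [dif_pos he]
      have := (φ (χ (e.orderEmbOfFin he))).isLt
      omega)
  set g := T.orderEmbOfFin hT2 with hg
  set f : ℕ → ℕ := fun b => if h : b < n then g ⟨b, h⟩ else 0 with hf'
  have hfv : ∀ b (h : b < n), f b = g ⟨b, h⟩ := fun b h => by rw [hf']; simp only [dif_pos h]
  have hfT : ∀ b, b < n → f b ∈ T := fun b h => by
    rw [hfv b h]; exact Finset.orderEmbOfFin_mem T hT2 _
  have hmono : ∀ a b, a < b → b < n → f a < f b := by
    intro a b hab hb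
    rw [hfv a (hab.trans hb), hfv b hb]
    exact g.strictMono (by simpa using hab)
  have key : ∀ a : Fin r → ℕ, StrictMono a → (∀ i, a i < n) → (φ (χ (f ∘ a))).val = c := by
    intro a ha han
    have hsm : StrictMono (f ∘ a) := fun i j hij => hmono _ _ (ha hij) (han j)
    set e : Finset ℕ := Finset.univ.image (f ∘ a) with he
    have hcard : e.card = r := by
      rw [he, Finset.card_image_of_injective _ hsm.injective, Finset.card_univ, Fintype.card_fin]
    have heT : e ⊆ T := by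
      intro x hx
      rw [he, Finset.mem_image] at hx
      obtain ⟨i, -, rfl⟩ := hx
      exact hfT _ (han i)
    have h1 := hc e heT hcard
    rw [dif_pos hcard] at h1
    have h2 : f ∘ a = e.orderEmbOfFin hcard :=
      Finset.orderEmbOfFin_unique hcard
        (fun i => by rw [he, Finset.mem_image]; exact ⟨i, Finset.mem_univ i, rfl⟩) hsm
    rw [h2]
    exact h1
  by_cases hex : ∃ a : Fin r → ℕ, StrictMono a ∧ ∀ i, a i < n
  · obtain ⟨a0, h0, h0'⟩ := hex
    refine ⟨f, χ (f ∘ a0), fun b hb => Finset.mem_range.1 (hT1 (hfT b hb)), hmono,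
      fun a ha han => φ.injective (Fin.ext ?_)⟩
    rw [key a ha han, key a0 h0 h0']
  · exact ⟨f, Classical.arbitrary Γ, fun b hb => Finset.mem_range.1 (hT1 (hfT b hb)), hmono,
      fun a ha han => absurd ⟨a, ha, han⟩ hex⟩

/-- All tuple lengths `r < R` at once. -/
theorem ramsey_tuple_lt (R n : ℕ) (Γ : Type*) [Finite Γ] [Nonempty Γ] : ∃ N : ℕ,
    ∀ χ : (r : ℕ) → (Fin r → ℕ) → Γ, ∃ (f : ℕ → ℕ) (γ : ℕ → Γ), (∀ b < n, f b < N) ∧
      (∀ a b, a < b → b < n → f a < f b) ∧
      ∀ r < R, ∀ a : Fin r → ℕ, StrictMono a → (∀ i, a i < n) → χ r (f ∘ a) = γ r := by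
  induction R generalizing n with
  | zero =>
    exact ⟨n, fun χ => ⟨id, fun _ => Classical.arbitrary Γ, fun b hb => hb,
      fun a b hab _ => hab, fun r hr => absurd hr (Nat.not_lt_zero r)⟩⟩
  | succ R ih =>
    obtain ⟨N1, h1⟩ := ramsey_tuple R n Γ
    obtain ⟨N, hN⟩ := ih N1
    refine ⟨N, fun χ => ?_⟩
    obtain ⟨f, γ, f1, f2, f3⟩ := hN χ
    obtain ⟨g, δ, g1, g2, g3⟩ := h1 fun a => χ R (f ∘ a)
    classical
    refine ⟨f ∘ g, fun r => if r = R then δ else γ r, fun b hb => f1 _ (g1 b hb),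
      fun a b hab hb => f2 _ _ (g2 a b hab hb) (g1 b hb), fun r hr a ha han => ?_⟩
    have hga : StrictMono (g ∘ a) := fun i j hij => g2 _ _ (ha hij) (han j)
    by_cases hrR : r = R
    · subst hrR
      simp only [if_true]
      exact g3 a ha han
    · simp only [if_neg hrR]
      exact f3 r (by omega) (g ∘ a) hga (fun i => g1 _ (han i))

/-- **Realized patterns**: for every kind `d` and every `r < R` the SET of patterns realized at an
increasing `r`-tuple of tiles is the same for all tuples of a subfamily of size `n`.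
`Rz d r a p` = some element of kind `d` has the pattern `p` at the tuple `a`. -/
theorem ramsey_pattern (R n : ℕ) (D K : Type*) [Finite D] [Finite K] : ∃ N : ℕ,
    ∀ Rz : D → (r : ℕ) → (Fin r → ℕ) → K → Prop, ∃ (f : ℕ → ℕ) (S : D → ℕ → Set K),
      (∀ b < n, f b < N) ∧ (∀ a b, a < b → b < n → f a < f b) ∧
      ∀ r < R, ∀ a : Fin r → ℕ, StrictMono a → (∀ i, a i < n) → ∀ d p,
        (Rz d r (f ∘ a) p ↔ p ∈ S d r) := by
  classical
  obtain ⟨N, hN⟩ := ramsey_tuple_lt R n (D → Set K)
  refine ⟨N, fun Rz => ?_⟩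
  obtain ⟨f, γ, h1, h2, h3⟩ := hN fun r a d => {p | Rz d r a p}
  refine ⟨f, fun d r => γ r d, h1, h2, fun r hr a ha han d p => ?_⟩
  have h4 : {p | Rz d r (f ∘ a) p} = γ r d := congrFun (h3 r hr a ha han) d
  change p ∈ {p | Rz d r (f ∘ a) p} ↔ p ∈ γ r d
  rw [h4]

end TST
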