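import Pool.Agent.TST.LabDef
import Pool.Agent.TST.RamseyPat

/-!
# Label level of CLAIM A (T-star): rung families (helper45, after helper90's page)

Ramsey families of rungs (`Fam`): one rung for every window of four tiles, with constant values on the
tiles on the left and on the right of the window, for all labels.  Two rungs with disjoint windows
have nested places (`Fam.cmp`), left value and right value are different (`Fam.ne_val`).
-/

open Set

namespace TST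

variable {α ρ υ : Type*}

/-- place `q` of the element `d` with the first place `p` -/
def pl (p q : Bool) : Bool := if q then !p else p

lemma not_pl (p q : Bool) : (!(pl p q)) = pl p (!q) := by
  cases p <;> cases q <;> rfl

/-- label number `q` -/
def lam (l l' : ℕ) (q : Bool) : ℕ := if q then l' else l

/-- `d` splits the label `l` inside of `t` by its place `p`, and `l'` by the other place -/
def Rung4 (Hon : Set α) (r : α → Bool → ρ) (A : α → Bool → Set α) (R : ℕ → ρ) (c : ℕ → ℕ → α)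
    (l l' : ℕ) (t : Fin 4 → ℕ) (d : α) (p : Bool) : Prop :=
  d ∈ Hon ∧ ∀ q, r d (pl p q) = R (lam l l' q) ∧
    ∃ i j, c (lam l l' q) (t i) ∈ A d (pl p q) ∧ c (lam l l' q) (t j) ∉ A d (pl p q)

/-- Ramsey for the three steps -/
lemma exists_hom (m n : ℕ) : ∃ N : ℕ, ∀ (χ₁ : ℕ → Set (Fin m × Bool))
    (χ₄ : (Fin 4 → ℕ) → Set (Fin m × Fin m))
    (χ₅ : (Fin 5 → ℕ) → Set (Fin m × Fin m × Fin m × Fin 5 × Bool)),
    ∃ (h : ℕ → ℕ) (γ₁ : Set (Fin m × Bool)) (γ₄ : Set (Fin m × Fin m))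
      (γ₅ : Set (Fin m × Fin m × Fin m × Fin 5 × Bool)),
      (∀ b < n, h b < N) ∧ (∀ a b, a < b → b < n → h a < h b) ∧ (∀ b < n, χ₁ (h b) = γ₁) ∧
      (∀ a : Fin 4 → ℕ, StrictMono a → (∀ i, a i < n) → χ₄ (h ∘ a) = γ₄) ∧
      ∀ a : Fin 5 → ℕ, StrictMono a → (∀ i, a i < n) → χ₅ (h ∘ a) = γ₅ := by
  obtain ⟨N₃, h₃⟩ := ramsey_tuple 5 n (Set (Fin m × Fin m × Fin m × Fin 5 × Bool))
  obtain ⟨N₂, h₂⟩ := ramsey_tuple 4 N₃ (Set (Fin m × Fin m))
  obtain ⟨N, h₁⟩ := ramsey_tuple 1 N₂ (Set (Fin m × Bool))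
  refine ⟨N, fun χ₁ χ₄ χ₅ => ?_⟩
  obtain ⟨f, γ₁, f1, f2, f3⟩ := h₁ fun a => χ₁ (a 0)
  obtain ⟨g, γ₄, g1, g2, g3⟩ := h₂ fun a => χ₄ (f ∘ a)
  obtain ⟨k, γ₅, k1, k2, k3⟩ := h₃ fun a => χ₅ ((f ∘ g) ∘ a)
  have gk : ∀ a b, a < b → b < n → g (k a) < g (k b) := fun a b hab hb =>
    g2 _ _ (k2 a b hab hb) (k1 b hb)
  have hmono : ∀ {r : ℕ} (a : Fin r → ℕ), StrictMono a → (∀ i, a i < n) → StrictMono (k ∘ a) := by
    intro r a ha han i j hij
    exact k2 _ _ (ha hij) (han j)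
  refine ⟨fun b => f (g (k b)), γ₁, γ₄, γ₅, fun b hb => f1 _ (g1 _ (k1 b hb)), ?_, ?_, ?_, ?_⟩
  · intro a b hab hb
    exact f2 _ _ (gk a b hab hb) (g1 _ (k1 b hb))
  · intro b hb
    have h := f3 (fun _ => g (k b)) (by
      intro i j hij
      exact absurd (Subsingleton.elim i j) hij.ne) fun _ => g1 _ (k1 b hb)
    exact h
  · intro a ha han
    exact g3 (k ∘ a) (hmono a ha han) fun i => k1 _ (han i)
  · intro a ha han
    exact k3 a ha han

/-- **Homogeneous rung families.**  `w l l' x` = element and first place, for the window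
`x, x + 1, x + 2, x + 3`. -/
structure Fam (Hon : Set α) (r : α → Bool → ρ) (A : α → Bool → Set α) (R : ℕ → ρ)
    (c : ℕ → ℕ → α) (Lb : Set ℕ) (n : ℕ) (γ : Set (ℕ × ℕ)) (w : ℕ → ℕ → ℕ → α × Bool)
    (Lf Rt : ℕ → ℕ → ℕ → Bool → Prop) : Prop where
  sub : ∀ l l', (l, l') ∈ γ → l ∈ Lb ∧ l' ∈ Lb
  wit : ∀ l l', (l, l') ∈ γ → ∀ x, x + 3 < n →
    Rung4 Hon r A R c l l' (fun i => x + i.val) (w l l' x).1 (w l l' x).2
  left : ∀ l l', (l, l') ∈ γ → ∀ k ∈ Lb, ∀ q, ∀ x, x + 3 < n → ∀ y < x,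
    (c k y ∈ A (w l l' x).1 (pl (w l l' x).2 q) ↔ Lf l l' k q)
  right : ∀ l l', (l, l') ∈ γ → ∀ k ∈ Lb, ∀ q, ∀ x y, x + 3 < y → y < n →
    (c k y ∈ A (w l l' x).1 (pl (w l l' x).2 q) ↔ Rt l l' k q)
  ex : ∀ l ∈ Lb, ∀ l' ∈ Lb, ∀ a : Fin 4 → ℕ, StrictMono a → (∀ i, a i < n) → ∀ d p,
    Rung4 Hon r A R c l l' a d p → (l, l') ∈ γ

/-- Ramsey gives rung families. -/
lemma exists_fam (m n : ℕ) : ∃ N : ℕ, ∀ {α ρ υ : Type*} (Hon : Set α) (r : α → Bool → ρ)
    (A : α → Bool → Set α) (R : ℕ → ρ) (c : ℕ → ℕ → α) (Lb : Set ℕ) (st : ρ → Bool → υ)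
    (C : υ → ρ → Set α), (∀ l ∈ Lb, l < m) →
    ∃ (h : ℕ → ℕ) (γ : Set (ℕ × ℕ)) (w : ℕ → ℕ → ℕ → α × Bool)
      (Lf Rt : ℕ → ℕ → ℕ → Bool → Prop), (∀ b < n, h b < N) ∧ (∀ a b, a < b → b < n → h a < h b) ∧
      (∀ l ∈ Lb, ∀ s, (∀ b < n, c l (h b) ∈ C (st (R l) s) (R l)) ∨
        ∀ b < n, c l (h b) ∉ C (st (R l) s) (R l)) ∧
      Fam Hon r A R (fun l b => c l (h b)) Lb n γ w Lf Rt := by
  classical
  obtain ⟨N, hN⟩ := exists_hom m n
  refine ⟨N, ?_⟩
  intro α ρ υ Hon r A R c Lb st C hL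
  have hne : Nonempty α := ⟨c 0 0⟩
  obtain ⟨W, hW⟩ : ∃ W : ℕ → ℕ → (Fin 4 → ℕ) → α × Bool, ∀ l l' t,
      (∃ d p, Rung4 Hon r A R c l l' t d p) →
        Rung4 Hon r A R c l l' t (W l l' t).1 (W l l' t).2 := by
    have h1 : ∀ l l' (t : Fin 4 → ℕ), ∃ w : α × Bool, (∃ d p, Rung4 Hon r A R c l l' t d p) →
        Rung4 Hon r A R c l l' t w.1 w.2 := by
      intro l l' t
      by_cases h : ∃ d p, Rung4 Hon r A R c l l' t d p
      · obtain ⟨d, p, h⟩ := h
        exact ⟨(d, p), fun _ => h⟩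
      · exact ⟨Classical.arbitrary _, fun h' => absurd h' h⟩
    choose W hW using h1
    exact ⟨W, hW⟩
  obtain ⟨h, γ₁, γ₄, γ₅, h1, h2, h3, h4, h5⟩ := hN
    (fun b => {x | c x.1.val b ∈ C (st (R x.1.val) x.2) (R x.1.val)})
    (fun t => {x | ∃ d p, Rung4 Hon r A R c x.1.val x.2.val t d p})
    (fun t => {x | c x.2.2.1.val (t x.2.2.2.1) ∈
      A (W x.1.val x.2.1.val (t ∘ x.2.2.2.1.succAbove)).1
        (pl (W x.1.val x.2.1.val (t ∘ x.2.2.2.1.succAbove)).2 x.2.2.2.2)})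
  refine ⟨h, {x | ∃ (a : x.1 ∈ Lb) (b : x.2 ∈ Lb),
      ((⟨x.1, hL _ a⟩, ⟨x.2, hL _ b⟩) : Fin m × Fin m) ∈ γ₄},
    fun l l' x => W l l' fun i => h (x + i.val),
    fun l l' k q => ∃ (a : l < m) (b : l' < m) (e : k < m),
      ((⟨l, a⟩, ⟨l', b⟩, ⟨k, e⟩, 0, q) : Fin m × Fin m × Fin m × Fin 5 × Bool) ∈ γ₅,
    fun l l' k q => ∃ (a : l < m) (b : l' < m) (e : k < m),
      ((⟨l, a⟩, ⟨l', b⟩, ⟨k, e⟩, 4, q) : Fin m × Fin m × Fin m × Fin 5 × Bool) ∈ γ₅,
    h1, h2, ?_, ?_⟩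
  · intro l hl s
    by_cases hg : ((⟨l, hL _ hl⟩, s) : Fin m × Bool) ∈ γ₁
    · refine Or.inl fun b hb => ?_
      have h6 := h3 b hb
      rw [← h6] at hg
      exact hg
    · refine Or.inr fun b hb hc => hg ?_
      rw [← h3 b hb]
      exact hc
  · have hbase : ∀ x, StrictMono fun i : Fin 4 => x + i.val := by
      intro x i j hij
      have : i.val < j.val := hij
      show x + i.val < x + j.val
      omega
    refine ⟨fun l l' hll => ⟨hll.1, hll.2.1⟩, ?_, ?_, ?_, ?_⟩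
    · rintro l l' ⟨hl, hl', hg⟩ x hx
      have h6 := h4 (fun i => x + i.val) (hbase x) fun i => by have := i.isLt; omega
      rw [← h6] at hg
      obtain ⟨k1, k2⟩ := hW l l' (fun i => h (x + i.val)) hg
      exact ⟨k1, k2⟩
    · rintro l l' ⟨hl, hl', hg⟩ k hk q x hx y hy
      have h6 := h5 (Fin.cons y fun i : Fin 4 => x + i.val) (by
        intro i j hij
        refine Fin.cases ?_ (fun j => ?_) j hij
        · intro h7
          exact absurd h7 (Fin.not_lt_zero i)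
        · refine Fin.cases ?_ (fun i => ?_) i
          · intro _
            simp only [Fin.cons_zero, Fin.cons_succ]
            omega
          · intro h7
            have h8 : i.val < j.val := by simpa using h7
            simp only [Fin.cons_succ]
            omega) (by
        intro i
        refine Fin.cases ?_ (fun i => ?_) i
        · simp only [Fin.cons_zero]
          omega
        · simp only [Fin.cons_succ]
          have := i.isLt
          omega)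
      have h7 : (h ∘ (Fin.cons y fun i : Fin 4 => x + i.val : Fin 5 → ℕ)) ∘ Fin.succAbove 0 =
          fun i : Fin 4 => h (x + i.val) := by
        funext i
        simp
      constructor
      · intro h8
        refine ⟨hL _ hl, hL _ hl', hL _ hk, ?_⟩
        rw [← h6]
        show c k _ ∈ A (W l l' _).1 (pl (W l l' _).2 q)
        rw [h7]
        exact h8
      · rintro ⟨_, _, _, h8⟩
        rw [← h6] at h8
        have h9 : c k ((h ∘ (Fin.cons y fun i : Fin 4 => x + i.val : Fin 5 → ℕ)) 0) ∈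
          A (W l l' ((h ∘ (Fin.cons y fun i : Fin 4 => x + i.val : Fin 5 → ℕ)) ∘
            Fin.succAbove 0)).1 (pl (W l l' ((h ∘ (Fin.cons y fun i : Fin 4 => x + i.val :
              Fin 5 → ℕ)) ∘ Fin.succAbove 0)).2 q) := h8
        rw [h7] at h9
        exact h9
    · rintro l l' ⟨hl, hl', hg⟩ k hk q x y hxy hy
      have h6 := h5 (Fin.snoc (fun i : Fin 4 => x + i.val) y) (by
        intro i j hij
        refine Fin.lastCases ?_ (fun i => ?_) i (motive := fun i => i < j →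
          (Fin.snoc (fun i : Fin 4 => x + i.val) y : Fin 5 → ℕ) i <
            (Fin.snoc (fun i : Fin 4 => x + i.val) y : Fin 5 → ℕ) j) hij
        · intro h7
          exact absurd (Fin.le_last j) (not_le.2 h7)
        · refine Fin.lastCases ?_ (fun j => ?_) j
          · intro _
            simp only [Fin.snoc_last, Fin.snoc_castSucc]
            have := i.isLt
            omega
          · intro h7
            have h8 : i.val < j.val := by simpa using h7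
            simp only [Fin.snoc_castSucc]
            omega) (by
        intro i
        refine Fin.lastCases ?_ (fun i => ?_) i
        · simp only [Fin.snoc_last]
          omega
        · simp only [Fin.snoc_castSucc]
          have := i.isLt
          omega)
      have h7 : (h ∘ (Fin.snoc (fun i : Fin 4 => x + i.val) y : Fin 5 → ℕ)) ∘
          Fin.succAbove 4 = fun i : Fin 4 => h (x + i.val) := by
        funext i
        have h8 : Fin.succAbove (4 : Fin 5) i = Fin.castSucc i := by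
          have : (4 : Fin 5) = Fin.last 4 := rfl
          rw [this, Fin.succAbove_last]
        simp only [Function.comp, h8, Fin.snoc_castSucc]
      have h10 : (Fin.snoc (fun i : Fin 4 => x + i.val) y : Fin 5 → ℕ) 4 = y := by
        have : (4 : Fin 5) = Fin.last 4 := rfl
        rw [this, Fin.snoc_last]
      constructor
      · intro h8
        refine ⟨hL _ hl, hL _ hl', hL _ hk, ?_⟩
        rw [← h6]
        show c k (h ((Fin.snoc (fun i : Fin 4 => x + i.val) y : Fin 5 → ℕ) 4)) ∈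
          A (W l l' _).1 (pl (W l l' _).2 q)
        rw [h7, h10]
        exact h8
      · rintro ⟨_, _, _, h8⟩
        rw [← h6] at h8
        have h9 : c k (h ((Fin.snoc (fun i : Fin 4 => x + i.val) y : Fin 5 → ℕ) 4)) ∈
          A (W l l' ((h ∘ (Fin.snoc (fun i : Fin 4 => x + i.val) y : Fin 5 → ℕ)) ∘
            Fin.succAbove 4)).1 (pl (W l l' ((h ∘ (Fin.snoc (fun i : Fin 4 => x + i.val) y :
              Fin 5 → ℕ)) ∘ Fin.succAbove 4)).2 q) := h8
        rw [h7, h10] at h9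
        exact h9
    · intro l hl l' hl' a ha han d p hd
      refine ⟨hl, hl', ?_⟩
      rw [← h4 a ha han]
      exact ⟨d, p, hd⟩

section

variable {Hon : Set α} {rw' : ρ → Set α} {r : α → Bool → ρ} {A : α → Bool → Set α} {R : ℕ → ρ}
  {c : ℕ → ℕ → α} {Lb : Set ℕ} {n : ℕ} {γ : Set (ℕ × ℕ)} {w : ℕ → ℕ → ℕ → α × Bool}
  {Lf Rt : ℕ → ℕ → ℕ → Bool → Prop}

lemma Fam.lam_mem (hF : Fam Hon r A R c Lb n γ w Lf Rt) {l l' : ℕ} (hg : (l, l') ∈ γ) (q : Bool) :
    lam l l' q ∈ Lb := by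
  cases q
  · exact (hF.sub l l' hg).1
  · exact (hF.sub l l' hg).2

/-- On the tiles of a disjoint window every place of `w l l' x'` is constant. -/
lemma Fam.const (hF : Fam Hon r A R c Lb n γ w Lf Rt) {l l' : ℕ} (hg : (l, l') ∈ γ) {k : ℕ}
    (hk : k ∈ Lb) (q : Bool) {x x' : ℕ} (hx : x + 3 < n) (hx' : x' + 3 < n)
    (hxx : x + 3 < x' ∨ x' + 3 < x) : ∃ v : Prop, ∀ i : Fin 4,
      (c k (x + i.val) ∈ A (w l l' x').1 (pl (w l l' x').2 q) ↔ v) := by
  rcases hxx with h | h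
  · refine ⟨Lf l l' k q, fun i => hF.left l l' hg k hk q x' hx' _ ?_⟩
    have := i.isLt
    omega
  · refine ⟨Rt l l' k q, fun i => hF.right l l' hg k hk q x' _ ?_ ?_⟩ <;>
    · have := i.isLt
      omega

/-- The other places of two rungs with disjoint windows are not equal. -/
lemma Fam.ne_other (hF : Fam Hon r A R c Lb n γ w Lf Rt) {l l' k k' : ℕ} (hg : (l, l') ∈ γ)
    (hg' : (k, k') ∈ γ) {x x' : ℕ} (hx : x + 3 < n) (hx' : x' + 3 < n)
    (hxx : x + 3 < x' ∨ x' + 3 < x) (q q' : Bool)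
    (h : A (w l l' x).1 (pl (w l l' x).2 q) = A (w k k' x').1 (pl (w k k' x').2 q')) : False := by
  obtain ⟨hd, hw⟩ := hF.wit l l' hg x hx
  obtain ⟨hr, i, j, h1, h2⟩ := hw q
  obtain ⟨v, hv⟩ := hF.const hg' (hF.lam_mem hg q) q' hx hx' hxx
  rw [h] at h1 h2
  exact h2 ((hv j).2 ((hv i).1 h1))

/-- **Rungs with disjoint windows have nested places.** -/
lemma Fam.cmp (hN : ∀ t ∈ Hon, ∀ t' ∈ Hon, ∀ i j, r t i = r t' j →
      (A t i ⊆ A t' j ∨ A t' j ⊆ A t i) ∨ (r t (!i) = r t' (!j) ∧ A t (!i) = A t' (!j)))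
    (hF : Fam Hon r A R c Lb n γ w Lf Rt) {l l' k k' : ℕ} (hg : (l, l') ∈ γ)
    (hg' : (k, k') ∈ γ) {x x' : ℕ} (hx : x + 3 < n) (hx' : x' + 3 < n)
    (hxx : x + 3 < x' ∨ x' + 3 < x) (q q' : Bool) (hr : R (lam l l' q) = R (lam k k' q')) :
    A (w l l' x).1 (pl (w l l' x).2 q) ⊆ A (w k k' x').1 (pl (w k k' x').2 q') ∨
      A (w k k' x').1 (pl (w k k' x').2 q') ⊆ A (w l l' x).1 (pl (w l l' x).2 q) := by
  obtain ⟨hd, hw⟩ := hF.wit l l' hg x hx
  obtain ⟨hd', hw'⟩ := hF.wit k k' hg' x' hx'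
  rcases hN _ hd _ hd' (pl (w l l' x).2 q) (pl (w k k' x').2 q')
    (by rw [(hw q).1, (hw' q').1, hr]) with h | ⟨h, h'⟩
  · exact h
  · exfalso
    rw [not_pl, not_pl] at h'
    exact hF.ne_other hg hg' hx hx' hxx (!q) (!q') h'

/-- **The values on the left and on the right are different.** -/
lemma Fam.ne_val (hN : ∀ t ∈ Hon, ∀ t' ∈ Hon, ∀ i j, r t i = r t' j →
      (A t i ⊆ A t' j ∨ A t' j ⊆ A t i) ∨ (r t (!i) = r t' (!j) ∧ A t (!i) = A t' (!j)))
    (hF : Fam Hon r A R c Lb n γ w Lf Rt) (hn : 8 ≤ n) {l l' : ℕ} (hg : (l, l') ∈ γ)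
    (q : Bool) : ¬ (Lf l l' (lam l l' q) q ↔ Rt l l' (lam l l' q) q) := by
  intro hv
  have hlb := hF.lam_mem hg q
  obtain ⟨hd, hw⟩ := hF.wit l l' hg 0 (by omega)
  obtain ⟨hd', hw'⟩ := hF.wit l l' hg 4 (by omega)
  obtain ⟨-, i, j, h1, h2⟩ := hw q
  obtain ⟨-, i', j', h1', h2'⟩ := hw' q
  beta_reduce at h1 h2 h1' h2'
  have hi := i.isLt
  have hj := j.isLt
  have hi' := i'.isLt
  have hj' := j'.isLt
  have vl : ∀ y < 4, (c (lam l l' q) y ∈ A (w l l' 4).1 (pl (w l l' 4).2 q) ↔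
      Lf l l' (lam l l' q) q) := fun y hy => hF.left l l' hg _ hlb q 4 (by omega) y hy
  have vr : ∀ y, 3 < y → y < 8 → (c (lam l l' q) y ∈ A (w l l' 0).1 (pl (w l l' 0).2 q) ↔
      Rt l l' (lam l l' q) q) := fun y hy hy' =>
    hF.right l l' hg _ hlb q 0 y (by omega) (by omega)
  rcases hF.cmp hN hg hg (x := 0) (x' := 4) (by omega) (by omega) (Or.inl (by omega)) q q rfl
    with h | h
  · by_cases hR : Rt l l' (lam l l' q) q
    · exact h2' (h ((vr _ (by omega) (by omega)).2 hR))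
    · exact hR (hv.1 ((vl _ (by omega)).1 (h h1)))
  · by_cases hR : Rt l l' (lam l l' q) q
    · exact h2 (h ((vl _ (by omega)).2 (hv.2 hR)))
    · exact hR ((vr _ (by omega) (by omega)).1 (h h1'))

/-- A rung is comparable with one of two rungs of a family. -/
lemma Fam.cmp_one (hN : ∀ t ∈ Hon, ∀ t' ∈ Hon, ∀ i j, r t i = r t' j →
      (A t i ⊆ A t' j ∨ A t' j ⊆ A t i) ∨ (r t (!i) = r t' (!j) ∧ A t (!i) = A t' (!j)))
    (hF : Fam Hon r A R c Lb n γ w Lf Rt) {l l' : ℕ} (hg : (l, l') ∈ γ) {x x' : ℕ}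
    (hx : x + 3 < n) (hx' : x' + 3 < n) (hxx : x + 3 < x') {d : α} (hd : d ∈ Hon) {p q : Bool}
    (hr : r d p = R (lam l l' q)) :
    ∃ y, (y = x ∨ y = x') ∧ (A d p ⊆ A (w l l' y).1 (pl (w l l' y).2 q) ∨
      A (w l l' y).1 (pl (w l l' y).2 q) ⊆ A d p) := by
  obtain ⟨h1, hw⟩ := hF.wit l l' hg x hx
  obtain ⟨h1', hw'⟩ := hF.wit l l' hg x' hx'
  rcases hN _ hd _ h1 p (pl (w l l' x).2 q) (by rw [(hw q).1, hr]) with h | ⟨h2, h3⟩
  · exact ⟨x, Or.inl rfl, h⟩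
  rcases hN _ hd _ h1' p (pl (w l l' x').2 q) (by rw [(hw' q).1, hr]) with h | ⟨h2', h3'⟩
  · exact ⟨x', Or.inr rfl, h⟩
  exfalso
  rw [not_pl] at h3 h3'
  exact hF.ne_other hg hg hx hx' (Or.inl hxx) (!q) (!q) (h3.symm.trans h3')

/-- The values of a label `k'` which is separated by the same place `P` of one element as `k`. -/
lemma Fam.follow_place (hF : Fam Hon r A R c Lb n γ w Lf Rt)
    (hc : ∀ l ∈ Lb, ∀ b < n, c l b ∈ rw' (R l)) (hn : 16 ≤ n) {l l' : ℕ} (hg : (l, l') ∈ γ)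
    {q : Bool} {k k' : ℕ} (hk : k ∈ Lb) (hk' : k' ∈ Lb) (hRk : R k = R (lam l l' q))
    (hRk' : R k' = R (lam l l' q)) {P : Set α}
    (hP : ∀ x x', x + 3 < x' → x' + 3 < n → ∃ y, (y = x ∨ y = x') ∧
      ((∀ z ∈ rw' (R (lam l l' q)), z ∈ P → z ∈ A (w l l' y).1 (pl (w l l' y).2 q)) ∨
        ∀ z ∈ rw' (R (lam l l' q)), z ∈ A (w l l' y).1 (pl (w l l' y).2 q) → z ∈ P))
    {a b a' b' : ℕ} (ha : 8 ≤ a ∧ a + 8 < n) (hb : 8 ≤ b ∧ b + 8 < n)
    (ha' : 8 ≤ a' ∧ a' + 8 < n) (hb' : 8 ≤ b' ∧ b' + 8 < n) (h1 : ¬ (c k a ∈ P ↔ c k b ∈ P))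
    (h2 : ¬ (c k' a' ∈ P ↔ c k' b' ∈ P)) :
    (Lf l l' k q ↔ Lf l l' k' q) ∧ (Rt l l' k q ↔ Rt l l' k' q) := by
  have m1 : c k a ∈ rw' (R (lam l l' q)) := by rw [← hRk]; exact hc k hk a (by omega)
  have m2 : c k b ∈ rw' (R (lam l l' q)) := by rw [← hRk]; exact hc k hk b (by omega)
  have m3 : c k' a' ∈ rw' (R (lam l l' q)) := by rw [← hRk']; exact hc k' hk' a' (by omega)
  have m4 : c k' b' ∈ rw' (R (lam l l' q)) := by rw [← hRk']; exact hc k' hk' b' (by omega)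
  -- one comparable rung with constant values
  have key : ∀ (y : ℕ) (V V' : Prop),
      ((∀ z ∈ rw' (R (lam l l' q)), z ∈ P → z ∈ A (w l l' y).1 (pl (w l l' y).2 q)) ∨
        ∀ z ∈ rw' (R (lam l l' q)), z ∈ A (w l l' y).1 (pl (w l l' y).2 q) → z ∈ P) →
      (c k a ∈ A (w l l' y).1 (pl (w l l' y).2 q) ↔ V) →
      (c k b ∈ A (w l l' y).1 (pl (w l l' y).2 q) ↔ V) →
      (c k' a' ∈ A (w l l' y).1 (pl (w l l' y).2 q) ↔ V') →
      (c k' b' ∈ A (w l l' y).1 (pl (w l l' y).2 q) ↔ V') → (V ↔ V') := by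
    intro y V V' hcm v1 v2 v3 v4
    rcases hcm with h | h
    · have k1 : V := by
        by_cases h3 : c k a ∈ P
        · exact v1.1 (h _ m1 h3)
        · have h4 : c k b ∈ P := by
            by_contra h5
            exact h1 ⟨fun h => absurd h h3, fun h => absurd h h5⟩
          exact v2.1 (h _ m2 h4)
      have k2 : V' := by
        by_cases h3 : c k' a' ∈ P
        · exact v3.1 (h _ m3 h3)
        · have h4 : c k' b' ∈ P := by
            by_contra h5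
            exact h2 ⟨fun h => absurd h h3, fun h => absurd h h5⟩
          exact v4.1 (h _ m4 h4)
      exact ⟨fun _ => k2, fun _ => k1⟩
    · have k1 : ¬ V := fun hV => h1 ⟨fun _ => h _ m2 (v2.2 hV), fun _ => h _ m1 (v1.2 hV)⟩
      have k2 : ¬ V' := fun hV => h2 ⟨fun _ => h _ m4 (v4.2 hV), fun _ => h _ m3 (v3.2 hV)⟩
      exact ⟨fun h => absurd h k1, fun h => absurd h k2⟩
  constructor
  · obtain ⟨y, hy, hcm⟩ := hP (n - 8) (n - 4) (by omega) (by omega)
    have hy1 : n - 8 ≤ y ∧ y + 3 < n := by omega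
    exact key y _ _ hcm (hF.left l l' hg k hk q y hy1.2 a (by omega))
      (hF.left l l' hg k hk q y hy1.2 b (by omega))
      (hF.left l l' hg k' hk' q y hy1.2 a' (by omega))
      (hF.left l l' hg k' hk' q y hy1.2 b' (by omega))
  · obtain ⟨y, hy, hcm⟩ := hP 0 4 (by omega) (by omega)
    have hy1 : y ≤ 4 := by omega
    exact key y _ _ hcm (hF.right l l' hg k hk q y a (by omega) (by omega))
      (hF.right l l' hg k hk q y b (by omega) (by omega))
      (hF.right l l' hg k' hk' q y a' (by omega) (by omega))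
      (hF.right l l' hg k' hk' q y b' (by omega) (by omega))

/-- the same for a local element of the row -/
lemma Fam.follow_loc (hF : Fam Hon r A R c Lb n γ w Lf Rt)
    (hc : ∀ l ∈ Lb, ∀ b < n, c l b ∈ rw' (R l)) (hn : 16 ≤ n) {l l' : ℕ} (hg : (l, l') ∈ γ)
    {q : Bool} {k k' : ℕ} (hk : k ∈ Lb) (hk' : k' ∈ Lb) (hRk : R k = R (lam l l' q))
    (hRk' : R k' = R (lam l l' q)) {S : α → α → Prop}
    (hd : ∀ d' ∈ Hon, ∀ p, r d' p = R (lam l l' q) →
      (∀ x ∈ rw' (R (lam l l' q)), ∀ y ∈ rw' (R (lam l l' q)), x ∈ A d' p → y ∈ A d' p → x ≠ y →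
        ¬ S x y) ∨
      ∀ x ∈ rw' (R (lam l l' q)), ∀ y ∈ rw' (R (lam l l' q)), x ∉ A d' p → y ∉ A d' p → x ≠ y →
        ¬ S x y)
    {a b a' b' : ℕ} (ha : 8 ≤ a ∧ a + 8 < n) (hb : 8 ≤ b ∧ b + 8 < n)
    (ha' : 8 ≤ a' ∧ a' + 8 < n) (hb' : 8 ≤ b' ∧ b' + 8 < n) (hne : c k a ≠ c k b)
    (hne' : c k' a' ≠ c k' b') (h1 : S (c k a) (c k b)) (h2 : S (c k' a') (c k' b')) :
    (Lf l l' k q ↔ Lf l l' k' q) ∧ (Rt l l' k q ↔ Rt l l' k' q) := by
  have m1 : c k a ∈ rw' (R (lam l l' q)) := by rw [← hRk]; exact hc k hk a (by omega)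
  have m2 : c k b ∈ rw' (R (lam l l' q)) := by rw [← hRk]; exact hc k hk b (by omega)
  have m3 : c k' a' ∈ rw' (R (lam l l' q)) := by rw [← hRk']; exact hc k' hk' a' (by omega)
  have m4 : c k' b' ∈ rw' (R (lam l l' q)) := by rw [← hRk']; exact hc k' hk' b' (by omega)
  have key : ∀ (y : ℕ) (V V' : Prop), y + 3 < n →
      (c k a ∈ A (w l l' y).1 (pl (w l l' y).2 q) ↔ V) →
      (c k b ∈ A (w l l' y).1 (pl (w l l' y).2 q) ↔ V) →
      (c k' a' ∈ A (w l l' y).1 (pl (w l l' y).2 q) ↔ V') →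
      (c k' b' ∈ A (w l l' y).1 (pl (w l l' y).2 q) ↔ V') → (V ↔ V') := by
    intro y V V' hy v1 v2 v3 v4
    obtain ⟨g1, gw⟩ := hF.wit l l' hg y hy
    rcases hd _ g1 (pl (w l l' y).2 q) (gw q).1 with h | h
    · have k1 : ¬ V := fun hV => h _ m1 _ m2 (v1.2 hV) (v2.2 hV) hne h1
      have k2 : ¬ V' := fun hV => h _ m3 _ m4 (v3.2 hV) (v4.2 hV) hne' h2
      exact ⟨fun h => absurd h k1, fun h => absurd h k2⟩
    · have k1 : V := by
        by_contra hV
        exact h _ m1 _ m2 (fun h => hV (v1.1 h)) (fun h => hV (v2.1 h)) hne h1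
      have k2 : V' := by
        by_contra hV
        exact h _ m3 _ m4 (fun h => hV (v3.1 h)) (fun h => hV (v4.1 h)) hne' h2
      exact ⟨fun _ => k2, fun _ => k1⟩
  constructor
  · exact key (n - 4) _ _ (by omega) (hF.left l l' hg k hk q _ (by omega) a (by omega))
      (hF.left l l' hg k hk q _ (by omega) b (by omega))
      (hF.left l l' hg k' hk' q _ (by omega) a' (by omega))
      (hF.left l l' hg k' hk' q _ (by omega) b' (by omega))
  · exact key 0 _ _ (by omega) (hF.right l l' hg k hk q 0 a (by omega) (by omega))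
      (hF.right l l' hg k hk q 0 b (by omega) (by omega))
      (hF.right l l' hg k' hk' q 0 a' (by omega) (by omega))
      (hF.right l l' hg k' hk' q 0 b' (by omega) (by omega))

/-- a rung with two labels at different places gives an edge of the family -/
lemma Fam.edge (hF : Fam Hon r A R c Lb n γ w Lf Rt) (hn : 4 ≤ n) {l l' : ℕ} (hl : l ∈ Lb)
    (hl' : l' ∈ Lb) {d : α} (hd : d ∈ Hon) {p : Bool} (hr : r d p = R l) (hr' : r d (!p) = R l')
    {a b a' b' : ℕ} (ha : a < n) (hb : b < n) (ha' : a' < n) (hb' : b' < n)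
    (h1 : ¬ (c l a ∈ A d p ↔ c l b ∈ A d p))
    (h2 : ¬ (c l' a' ∈ A d (!p) ↔ c l' b' ∈ A d (!p))) : (l, l') ∈ γ := by
  classical
  obtain ⟨S, hS1, hS2, hS3⟩ := Finset.exists_subsuperset_card_eq
    (s := ({a, b, a', b'} : Finset ℕ)) (t := Finset.range n) (n := 4) (by
      intro x hx
      simp only [Finset.mem_insert, Finset.mem_singleton] at hx
      rw [Finset.mem_range]
      omega) Finset.card_le_four (by rwa [Finset.card_range])
  have hsur : ∀ x ∈ S, ∃ i, S.orderEmbOfFin hS3 i = x := by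
    intro x hx
    have h5 := Finset.range_orderEmbOfFin S hS3
    have h6 : x ∈ Set.range (S.orderEmbOfFin hS3) := by
      rw [h5]
      exact hx
    exact h6
  obtain ⟨i1, e1⟩ := hsur a (hS1 (by simp))
  obtain ⟨i2, e2⟩ := hsur b (hS1 (by simp))
  obtain ⟨i3, e3⟩ := hsur a' (hS1 (by simp))
  obtain ⟨i4, e4⟩ := hsur b' (hS1 (by simp))
  have two : ∀ (P : Set α) (x y : α), ¬ (x ∈ P ↔ y ∈ P) → (x ∈ P ∧ y ∉ P) ∨ (y ∈ P ∧ x ∉ P) := by
    intro P x y h
    by_cases hx : x ∈ P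
    · exact Or.inl ⟨hx, fun hy => h ⟨fun _ => hy, fun _ => hx⟩⟩
    · by_cases hy : y ∈ P
      · exact Or.inr ⟨hy, hx⟩
      · exact absurd ⟨fun h => absurd h hx, fun h => absurd h hy⟩ h
  have ht : ∀ (k : ℕ) (P : Set α) (x y : ℕ) (i j : Fin 4), S.orderEmbOfFin hS3 i = x →
      S.orderEmbOfFin hS3 j = y → ¬ (c k x ∈ P ↔ c k y ∈ P) →
      ∃ i j : Fin 4, c k (S.orderEmbOfFin hS3 i) ∈ P ∧ c k (S.orderEmbOfFin hS3 j) ∉ P := by
    intro k P x y i j hi hj h
    rcases two P _ _ h with h3 | h3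
    · exact ⟨i, j, by rw [hi]; exact h3.1, by rw [hj]; exact h3.2⟩
    · exact ⟨j, i, by rw [hj]; exact h3.1, by rw [hi]; exact h3.2⟩
  refine hF.ex l hl l' hl' (fun i => S.orderEmbOfFin hS3 i) (S.orderEmbOfFin hS3).strictMono
    (fun i => Finset.mem_range.1 (hS2 (Finset.orderEmbOfFin_mem S hS3 i))) d p ⟨hd, ?_⟩
  intro q
  cases q
  · exact ⟨hr, ht l (A d p) a b i1 i2 e1 e2 h1⟩
  · exact ⟨hr', ht l' (A d (!p)) a' b' i3 i4 e3 e4 h2⟩

end

end TST
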