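import Pool.Agent.TST.LayStepR

/-!
# The facts about the maximal list, from the invariant (label level of T-star, helper45)

`InvS.endH`: a final state of the state machine gives `EndH` for all but `20 m ^ 2` usable windows.
-/

set_option autoImplicit false

open Set

namespace TST

universe u v w

section

variable {α : Type u} {β : Type v} {ν : Type w} {rw : β → Set α} {V : Set β}
    {nd₁ nd₂ : β → ν} {S : α → α → α → Prop} {Dg Fa On Dt : Set α} {Nr : ν → Set α}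
    {Tr : β → Set α} {Tu : ν → Set α} {Lv : ν → α → Set α} {Aw : β → α → Set α}
    {Au : ν → α → Fin 3 → Set α} {B : α → α → α → α → Prop} {lg : ν → Fin 3 → β}
    {oe : ν → Fin 3 → ν} {fr : α → Bool → β} {r₀ : α → β} {ct : α → ν}
    {m K c₀ W₀ : ℕ} {R : ℕ → β} {C : ℕ → ℕ → α} {γ : Set ℕ} {wf : ℕ → Finset ℕ → α}
    {ki kj kk : ℕ → ℕ} {Qr : β → Cell α → Prop} {σ : Sta α β}

/-- the data of all cut labels of a state -/
def dat (V : Set β) (m : ℕ) (R : ℕ → β) (σ : Sta α β) : Set (Cd α) :=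
  {q | (q.k < m ∧ R q.k ∈ V) ∧ q ∈ σ.D (R q.k)}

lemma cutL_dat : cutL (dat V m R σ) = csS V m R σ := by
  ext i
  constructor
  · rintro ⟨q, hq, rfl⟩
    exact ⟨hq.1, q, hq.2, rfl⟩
  · rintro ⟨h1, q, hq, rfl⟩
    exact ⟨q, ⟨h1, hq⟩, rfl⟩

/-- the data of the tree of a row belong to labels of this row -/
lemma InvS.mem_dat {Dq : Set α} (hσ : InvS rw V nd₁ nd₂ S Dq Tr Lv Aw Qr m K R C γ wf ki kk c₀ W₀ σ)
    {r : β} (hr : r ∈ V) {q : Cd α} (hq : q ∈ σ.D r) : q ∈ dat V m R σ ∧ R q.k = r := by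
  obtain ⟨h1, h2⟩ := (hσ.tr r hr).labk q hq
  exact ⟨⟨⟨h1, by rw [h2]; exact hr⟩, by rw [h2]; exact hq⟩, h2⟩

lemma SplF.toW {W : Set ℕ} (hW : ∀ x ∈ W, 5 * x + 5 < K) {e k : ℕ}
    (h : SplF V S m K R C wf e k) : SplW S C W (famF wf) e k := fun x hx => h.2 x (hW x hx)

/-- **`EndH` for a final state.** -/
theorem InvS.endH
    (h : LabFacts3 rw V nd₁ nd₂ S Dg Fa On Dt Nr Tr Tu Lv Aw Au B lg oe fr r₀ ct)
    (hf : LabFam V nd₁ nd₂ S Dg Fa On Dt Nr Tr Lv Aw ct m K R C γ wf ki kj kk)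
    (hfr : HomFr fr m K R γ wf) (hK : 6 ≤ K)
    (hC : ∀ i < m, R i ∈ V → ∀ a < K, C i a ∈ rw (R i))
    (hinj : ∀ k < m, ∀ a < K, ∀ b < K, C k a = C k b → a = b)
    (hσ : InvS rw V nd₁ nd₂ S (RowD rw V Dg Fa Nr Tr Lv lg oe) Tr Lv Aw Qr m K R C γ wf ki kk
      c₀ W₀ σ)
    (hI : InvF nd₁ nd₂ R (FarK γ kk) (SameK γ kk) (NearK nd₁ nd₂ R γ ki kk)
      (SplF V S m K R C wf) (csS V m R σ)) (hw : 20 * m * m < σ.W.card) :
    ∃ W : Finset ℕ, W ⊆ σ.W ∧ σ.W.card ≤ W.card + 20 * m * m ∧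
      EndH rw V nd₁ nd₂ S Fa Nr Tr Lv Aw B lg oe fr m K R C γ (famF wf) kk (W : Set ℕ)
        (dat V m R σ) := by
  classical
  obtain ⟨Bad, hB, key⟩ := hσ.endRung h hf hK hC hinj hI
  obtain ⟨W, hWd⟩ : ∃ W, W = σ.W \ Bad := ⟨_, rfl⟩
  have mem : ∀ x, x ∈ W ↔ x ∈ σ.W ∧ x ∉ Bad := by
    intro x
    rw [hWd, Finset.mem_sdiff]
  have hWs : W ⊆ σ.W := fun x hx => ((mem x).1 hx).1
  have hcard : σ.W.card ≤ W.card + 20 * m * m := by
    have h1 := Finset.card_le_card_sdiff_add_card (s := σ.W) (t := Bad)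
    rw [← hWd] at h1
    omega
  have hWc : (W : Set ℕ) ⊆ (σ.W : Set ℕ) := Finset.coe_subset.2 hWs
  have hwin : ∀ x ∈ (W : Set ℕ), 5 * x + 5 < K := fun x hx =>
    hσ.win x (hWs (Finset.mem_coe.1 hx))
  have hne : ∃ x, x ∈ (W : Set ℕ) := by
    obtain ⟨x, hx⟩ := Finset.card_pos.1 (show 0 < W.card by omega)
    exact ⟨x, Finset.mem_coe.2 hx⟩
  have hD : ∀ q ∈ dat V m R σ, (q.k < m ∧ R q.k ∈ V) ∧ q ∈ σ.D (R q.k) := fun q hq => hq
  have tree : ∀ r ∈ V, GT (ES S) (Lv (nd₁ r)) (Lv (nd₂ r)) (RowD rw V Dg Fa Nr Tr Lv lg oe)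
      (famF wf) γ K C (lbR m R r) (Qr r) (rootC rw Tr Aw r) (W : Set ℕ) (σ.D r) :=
    fun r hr => (hσ.tr r hr).monoW _ hWc
  obtain ⟨hrung, hrung2, hnear⟩ := key (W : Set ℕ) hWc
    (fun x hx => ((mem x).1 (Finset.mem_coe.1 hx)).2) hne (dat V m R σ) hD
  -- kinds of the references
  have kd : ∀ q ∈ dat V m R σ, q.z ∈ γ ∧ kk q.z ≤ 3 ∧ (kk q.z = 3 → SameK γ kk q.z) ∧
      (kk q.z ≤ 2 → ∃ j, SplF V S m K R C wf q.z j ∧ R j ≠ R q.k) := by
    intro q hq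
    rcases hσ.ref (R q.k) hq.1.2 q hq.2 with h1 | ⟨h1, h2⟩
    · exact ⟨h1.1, by rw [h1.2], fun _ => h1, fun h3 => by have := h1.2; omega⟩
    · have h3 : q.z ∈ γ ∧ kk q.z ≤ 2 := by
        rcases h1 with h1 | ⟨y, h1, h3⟩
        · exact ⟨h1.1, by rw [h1.2]; omega⟩
        · refine ⟨h1, ?_⟩
          rcases h3 with h3 | h3
          · omega
          · omega
      exact ⟨h3.1, by omega, fun h4 => by omega, fun _ => h2⟩
  refine ⟨W, hWs, hcard, ?_⟩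
  constructor
  · -- ord
    refine ⟨hwin, ?_, ?_, ?_⟩
    · intro q hq
      exact (tree _ hq.1.2).side_G (empty_disjoint _) q hq.2
    · intro q hq
      exact (tree _ hq.1.2).mono_G q hq.2
    · intro q hq q' hq' hr
      have h1 := hq'.2
      rw [← hr] at h1
      exact (tree _ hq.1.2).ord q hq.2 q' h1
  · exact hne
  · exact fun q hq => hq.1
  · -- z0
    intro q hq
    obtain ⟨h1, h2, -, -⟩ := kd q hq
    exact ⟨h1, h2, (hσ.refs _ hq.1.2 q hq.2).toW hwin⟩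
  · -- z1
    intro q hq
    exact h.rung_of_tree rowG_rowD hq.1.2 (tree _ hq.1.2) hq.2
  · -- z2
    intro q hq hk
    obtain ⟨-, -, -, h1⟩ := kd q hq
    obtain ⟨j, hj, hjr⟩ := h1 hk
    exact ⟨j, hj.1.1, hj.1.2, hjr, hj.toW hwin⟩
  · -- z3
    intro q hq hk
    obtain ⟨-, -, h1, -⟩ := kd q hq
    obtain ⟨q₀, hq₀, hz, hs⟩ := hσ.refS _ hq.1.2 q hq.2 (h1 hk)
    obtain ⟨h2, h3⟩ := hσ.mem_dat hq.1.2 hq₀
    exact ⟨q₀, h2, hz, h3, hs.toW hwin⟩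
  · exact hrung
  · exact hrung2
  · exact hσ.endSame h hf hC hWc hne hD
  · exact hnear
  · -- far
    intro e he _ k hk x hx y hy
    have hx' := hwin x hx
    have hy' := hwin y hy
    exact ⟨hfr e he k hk _ (Qw_sub hx') (Qw_card x) _ (Qw_sub hy') (Qw_card y) false,
      hfr e he k hk _ (Qw_sub hy') (Qw_card y) _ (Qw_sub hx') (Qw_card x) false⟩

end

end TST
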