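import Pool.Agent.TST.LayTree2
import Pool.Agent.TST.LayFar

/-!
# Insertion of references: windows as finite sets, far families (label level of T-star, helper45)
-/

set_option autoImplicit false

open Set

namespace TST

universe u v w

/-- four reserved windows out of a finite set -/
lemma exists_resv {Wf : Finset ℕ} (h4 : 4 ≤ Wf.card) : ∃ (W' : Finset ℕ) (l₁ l₂ h₂ h₁ : ℕ),
    W' ⊆ Wf ∧ Wf.card = W'.card + 4 ∧ Resv (Wf : Set ℕ) (W' : Set ℕ) l₁ l₂ h₂ h₁ := by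
  classical
  have n0 : Wf.Nonempty := Finset.card_pos.1 (by omega)
  obtain ⟨l₁, hl₁⟩ : ∃ l₁, l₁ = Wf.min' n0 := ⟨_, rfl⟩
  have ml₁ : l₁ ∈ Wf := by rw [hl₁]; exact Finset.min'_mem _ _
  obtain ⟨W1, hW1⟩ : ∃ W1, W1 = Wf.erase l₁ := ⟨_, rfl⟩
  have c1 : W1.card + 1 = Wf.card := by rw [hW1]; exact Finset.card_erase_add_one ml₁
  have n1 : W1.Nonempty := Finset.card_pos.1 (by omega)
  have b1 : ∀ x ∈ W1, x ∈ Wf ∧ l₁ < x := by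
    intro x hx
    rw [hW1, Finset.mem_erase] at hx
    refine ⟨hx.2, lt_of_le_of_ne ?_ (Ne.symm hx.1)⟩
    rw [hl₁]
    exact Finset.min'_le _ _ hx.2
  obtain ⟨l₂, hl₂⟩ : ∃ l₂, l₂ = W1.min' n1 := ⟨_, rfl⟩
  have ml₂ : l₂ ∈ W1 := by rw [hl₂]; exact Finset.min'_mem _ _
  obtain ⟨W2, hW2⟩ : ∃ W2, W2 = W1.erase l₂ := ⟨_, rfl⟩
  have c2 : W2.card + 1 = W1.card := by rw [hW2]; exact Finset.card_erase_add_one ml₂
  have n2 : W2.Nonempty := Finset.card_pos.1 (by omega)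
  have b2 : ∀ x ∈ W2, x ∈ W1 ∧ l₂ < x := by
    intro x hx
    rw [hW2, Finset.mem_erase] at hx
    refine ⟨hx.2, lt_of_le_of_ne ?_ (Ne.symm hx.1)⟩
    rw [hl₂]
    exact Finset.min'_le _ _ hx.2
  obtain ⟨h₁, hh₁⟩ : ∃ h₁, h₁ = W2.max' n2 := ⟨_, rfl⟩
  have mh₁ : h₁ ∈ W2 := by rw [hh₁]; exact Finset.max'_mem _ _
  obtain ⟨W3, hW3⟩ : ∃ W3, W3 = W2.erase h₁ := ⟨_, rfl⟩
  have c3 : W3.card + 1 = W2.card := by rw [hW3]; exact Finset.card_erase_add_one mh₁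
  have n3 : W3.Nonempty := Finset.card_pos.1 (by omega)
  have b3 : ∀ x ∈ W3, x ∈ W2 ∧ x < h₁ := by
    intro x hx
    rw [hW3, Finset.mem_erase] at hx
    refine ⟨hx.2, lt_of_le_of_ne ?_ hx.1⟩
    rw [hh₁]
    exact Finset.le_max' _ _ hx.2
  obtain ⟨h₂, hh₂⟩ : ∃ h₂, h₂ = W3.max' n3 := ⟨_, rfl⟩
  have mh₂ : h₂ ∈ W3 := by rw [hh₂]; exact Finset.max'_mem _ _
  obtain ⟨W4, hW4⟩ : ∃ W4, W4 = W3.erase h₂ := ⟨_, rfl⟩
  have c4 : W4.card + 1 = W3.card := by rw [hW4]; exact Finset.card_erase_add_one mh₂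
  have b4 : ∀ x ∈ W4, x ∈ W3 ∧ x < h₂ := by
    intro x hx
    rw [hW4, Finset.mem_erase] at hx
    refine ⟨hx.2, lt_of_le_of_ne ?_ hx.1⟩
    rw [hh₂]
    exact Finset.le_max' _ _ hx.2
  have sub : W4 ⊆ Wf := fun x hx => (b1 x (b2 x (b3 x (b4 x hx).1).1).1).1
  refine ⟨W4, l₁, l₂, h₂, h₁, sub, by omega, ?_⟩
  refine ⟨fun x hx => sub hx, ml₁, (b1 _ ml₂).1, (b1 _ (b2 _ (b3 _ mh₂).1).1).1,
    (b1 _ (b2 _ mh₁).1).1, (b1 _ ml₂).2, (b3 _ mh₂).2, (b2 _ (b3 _ mh₂).1).2, ?_, ?_⟩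
  · intro x hx
    exact (b2 x (b3 x (b4 x hx).1).1).2
  · intro x hx
    exact (b4 x hx).2

section

variable {α : Type u} {E : α → α → α → Prop} {L R : α → Set α} {Dg : Set α} {F : ℕ → ℕ → α}
  {γ : Set ℕ} {K : ℕ} {C : ℕ → ℕ → α} {Lb : Set ℕ} {Qc : Cell α → Prop} {c g : Cell α}
  {D : Set (Cd α)} {f j : ℕ}

/-- **Insertion at a leaf, finite sets of windows.** -/
theorem LeafAt.insertF {W Wf : Finset ℕ} (hL : LeafAt E L R Dg F γ K C Lb Qc c W D j g)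
    (hj : j ∈ Lb) (hf : f ∈ γ) (hWf : Wf ⊆ W) (h4 : 4 ≤ Wf.card) (hK : ∀ x ∈ Wf, 5 * x + 5 < K)
    (hF : Fr E L R g.A Dg g.X g.T (MbF F γ) univ Wf (F f))
    (hH : Hom K C Lb Wf (fun x => g.A (F f x))) (hs : ∀ x ∈ Wf, SeeW E C (F f x) j x)
    (hQ : ∀ x ∈ Wf, Qc (g.left L R (F f x)) ∧ Qc (g.right L R (F f x))) :
    ∃ W' ⊆ Wf, Wf.card = W'.card + 4 ∧ ∃ D', GT E L R Dg F γ K C Lb Qc c W' D' ∧ D ⊆ D' ∧
      j ∈ cutL D' ∧ ∀ q ∈ D', q ∈ D ∨ (q.z = f ∧ ∀ x ∈ Wf, SeeW E C (F f x) q.k x) := by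
  obtain ⟨W', l₁, l₂, h₂, h₁, hW', hc, hr⟩ := exists_resv h4
  obtain ⟨D', h1, h2, h3, h5⟩ := hL.insert hj hf (fun x hx => hWf hx) hr
    (fun x hx => hK x hx) hF hH (fun x hx => hs x hx)
    (fun d => ⟨(hQ _ hr.wl_mem).1, (hQ _ hr.wr_mem).2⟩)
  exact ⟨W', hW', hc, D', h1, h2, h3, h5⟩

/-- the root cell of a row -/
lemma Fr.subW {A : α → Set α} {X T : Set α} {W W' : Set ℕ}
    (h : Fr E L R A Dg X T (MbF F γ) univ W (F f)) (hW : W' ⊆ W) :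
    Fr E L R A Dg X T (MbF F γ) univ W' (F f) := h.mono hW (Subset.rfl)

end

section

variable {α : Type u} {β : Type v} {ν : Type w} {rw : β → Set α} {V : Set β}
    {nd₁ nd₂ : β → ν} {S : α → α → α → Prop} {Dg Fa On Dt : Set α} {Nr : ν → Set α}
    {Tr : β → Set α} {Tu : ν → Set α} {Lv : ν → α → Set α} {Aw : β → α → Set α}
    {Au : ν → α → Fin 3 → Set α} {B : α → α → α → α → Prop} {lg : ν → Fin 3 → β}
    {oe : ν → Fin 3 → ν} {fr : α → Bool → β} {r₀ : α → β} {ct : α → ν} {D' : Set α} {r : β}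
    {m K : ℕ} {R : ℕ → β} {C : ℕ → ℕ → α} {γ : Set ℕ} {wf : ℕ → Finset ℕ → α} {ki kj kk : ℕ → ℕ}
    {Qc : Cell α → Prop} {D : Set (Cd α)}

/-- **STEP F**: a far family which splits the uncut label `a` of the row `r` and a label `j` of another
row.  `hQ` = the children of the leaf are admissible for the windows outside of `D₀`. -/
theorem LabFam.stepF
    (h : LabFacts3 rw V nd₁ nd₂ S Dg Fa On Dt Nr Tr Tu Lv Aw Au B lg oe fr r₀ ct)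
    (hf : LabFam V nd₁ nd₂ S Dg Fa On Dt Nr Tr Lv Aw ct m K R C γ wf ki kj kk)
    (hC : ∀ i < m, R i ∈ V → ∀ p < K, C i p ∈ rw (R i))
    (hD : RowG V Dg Fa Nr Tr D') (hFD : ∀ z ∈ Dg, z ∈ Fa → z ∈ D')
    (hr : r ∈ V) {W : Finset ℕ} (hW : ∀ x ∈ W, 5 * x + 5 < K)
    (hG : GT (ES S) (Lv (nd₁ r)) (Lv (nd₂ r)) D' (fun e x => wf e (Qw x)) γ K C
      {k | k < m ∧ R k = r} Qc ⟨∅, rw r, Tr r, Aw r⟩ W D)
    {e a j : ℕ} (he : e ∈ γ) (hk : kk e = 0) (ham : a < m) (haR : R a = r) (hj : j < m)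
    (hjV : R j ∈ V) (hjr : R j ≠ r) (haD : a ∉ cutL D)
    (hsa : ∀ x ∈ W, SeeW (ES S) C (wf e (Qw x)) a x)
    (hsj : ∀ x ∈ W, SeeW (ES S) C (wf e (Qw x)) j x)
    {b : ℕ} (h4 : 4 + b ≤ W.card)
    (hQ : ∀ g, LeafAt (ES S) (Lv (nd₁ r)) (Lv (nd₂ r)) D' (fun e x => wf e (Qw x)) γ K C
      {k | k < m ∧ R k = r} Qc ⟨∅, rw r, Tr r, Aw r⟩ W D a g → ∃ D₀ : Finset ℕ, D₀.card ≤ b ∧
      ∀ x ∈ W, x ∉ D₀ → Qc (g.left (Lv (nd₁ r)) (Lv (nd₂ r)) (wf e (Qw x))) ∧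
        Qc (g.right (Lv (nd₁ r)) (Lv (nd₂ r)) (wf e (Qw x)))) :
    ∃ W' ⊆ W, W.card ≤ W'.card + (4 + b) ∧ ∃ D₁, GT (ES S) (Lv (nd₁ r)) (Lv (nd₂ r)) D'
      (fun e x => wf e (Qw x)) γ K C {k | k < m ∧ R k = r} Qc ⟨∅, rw r, Tr r, Aw r⟩ W' D₁ ∧
      D ⊆ D₁ ∧ a ∈ cutL D₁ ∧
      ∀ q ∈ D₁, q ∈ D ∨ (q.z = e ∧ ∃ x ∈ W, SeeW (ES S) C (wf e (Qw x)) q.k x) := by
  classical
  have haC : InC K C (⟨∅, rw r, Tr r, Aw r⟩ : Cell α) a := by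
    intro p hp
    have h1 := hC a ham (by rw [haR]; exact hr) p hp
    rw [haR] at h1
    exact h1
  obtain ⟨g, hL⟩ := hG.leaf_of (j := a) ⟨ham, haR⟩ haC haD
  obtain ⟨D₀, hD₀, hQD⟩ := hQ g hL
  have hsee : ∀ x ∈ W, SeeR rw S (wf e (Qw x)) r := by
    intro x hx
    obtain ⟨p, p', h1, h2, h3, h4, h5⟩ := hsa x hx
    have hw := hW x hx
    unfold ES at h5
    push Not at h5
    exact ⟨_, haC p (by omega), _, haC p' (by omega), h5.1, h5.2⟩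
  have hFa : ∀ x ∈ W, wf e (Qw x) ∈ Fa := by
    intro x hx
    rcases (hf.wit e he (Qw x) (Qw_sub (hW x hx)) (Qw_card x)).2.1 with h1 | h1 | h1 | h1 | h1 | h1 | h1
    · exact h1.2
    all_goals
      have h2 := h1.1
      omega
  have hDg : ∀ x ∈ W, wf e (Qw x) ∈ Dg := fun x hx =>
    (hf.wit e he (Qw x) (Qw_sub (hW x hx)) (Qw_card x)).1
  have hFr := LabFam.farFree (W := (W : Set ℕ)) h hf hC hD hr he hk hj hjV hjr (fun x hx => hW x hx)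
    (fun x hx => hFD _ (hDg x hx) (hFa x hx)) (fun x hx => hsee x hx) (fun x hx => hsj x hx)
  have hFg := hL.desc e he W Subset.rfl hFr
  obtain ⟨Wf, hWf⟩ : ∃ Wf, Wf = W \ D₀ := ⟨_, rfl⟩
  have hWfW : Wf ⊆ W := by rw [hWf]; exact Finset.sdiff_subset
  have hcard : W.card ≤ Wf.card + b := by
    have h1 := Finset.card_le_card_sdiff_add_card (s := W) (t := D₀)
    rw [← hWf] at h1
    omega
  have hHom : Hom K C {k | k < m ∧ R k = r} (Wf : Set ℕ) (fun x => g.A (wf e (Qw x))) := by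
    refine hL.hom (F := fun e x => wf e (Qw x)) (f := e) (Wf := (Wf : Set ℕ)) ?_ ?_
    · intro x hx
      exact (hFr.mem x (hWfW hx)).2.1
    · exact hf.homAw he (fun k hk => hk) (fun x hx => hW x (hWfW hx))
  obtain ⟨W', h1, h2, D₁, h3, h5, h6, h7⟩ := hL.insertF (Wf := Wf) ⟨ham, haR⟩ he hWfW (by omega)
    (fun x hx => hW x (hWfW hx)) (hFg.subW (fun x hx => hWfW hx)) hHom (fun x hx => hsa x (hWfW hx))
    (by
      intro x hx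
      rw [hWf, Finset.mem_sdiff] at hx
      exact hQD x hx.1 hx.2)
  have hne : ∃ x, x ∈ Wf := Finset.card_pos.1 (by omega)
  refine ⟨W', h1.trans hWfW, by omega, D₁, h3, h5, h6, fun q hq => ?_⟩
  rcases h7 q hq with h8 | ⟨h8, h9⟩
  · exact Or.inl h8
  · obtain ⟨x, hx⟩ := hne
    exact Or.inr ⟨h8, x, hWfW hx, h9 x hx⟩

end

end TST
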