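import Pool.Agent.TST.NearStep
import Pool.Agent.TST.SwallowLab
import Pool.Agent.TST.LayStep

/-!
# The near step of the reference list (T-star, row R5; helper53)

`LabFacts3.stepN`: a near family of `c` which splits an uncut label of the row `r` and a label `b` on
another row, where `b` is joined to the real exits of the star of `c` by a path which avoids the uncut
labels of `r`, can be inserted into the tree of `r`.  `LabFacts3.qcF`: children of a leaf, far families.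
-/

set_option autoImplicit false

open Set

namespace TST

universe u v w

/-- windows which meet a finite set of positions -/
lemma bad_windows (D : Finset ℕ) : ∃ D' : Finset ℕ, D'.card ≤ 2 * D.card ∧
    ∀ x, x ∉ D' → ∀ a, 5 * x ≤ a → a ≤ 5 * x + 5 → a ∉ D := by
  classical
  refine ⟨D.image (fun a => a / 5) ∪ D.image (fun a => (a - 5) / 5), ?_, ?_⟩
  · refine (Finset.card_union_le _ _).trans ?_
    have h1 := Finset.card_image_le (s := D) (f := fun a => a / 5)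
    have h2 := Finset.card_image_le (s := D) (f := fun a => (a - 5) / 5)
    omega
  · intro x hx a h1 h2 ha
    refine hx (Finset.mem_union.2 ?_)
    by_cases h3 : a = 5 * x + 5
    · exact Or.inr (Finset.mem_image.2 ⟨a, ha, by omega⟩)
    · exact Or.inl (Finset.mem_image.2 ⟨a, ha, by omega⟩)

section

variable {α : Type u} {β : Type v} {ν : Type w} {rw : β → Set α} {V : Set β} {nd₁ nd₂ : β → ν}
  {S : α → α → α → Prop} {Dg Fr On Dt : Set α} {Nr : ν → Set α} {Tr : β → Set α}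
  {Tu : ν → Set α} {Lv : ν → α → Set α} {Aw : β → α → Set α} {Au : ν → α → Fin 3 → Set α}
  {B : α → α → α → α → Prop} {lg : ν → Fin 3 → β} {oe : ν → Fin 3 → ν} {fr : α → Bool → β}
  {r₀ : α → β} {ct : α → ν} {D' : Set α} {r : β} {m K : ℕ} {R : ℕ → β} {C : ℕ → ℕ → α}
  {γ : Set ℕ} {wf : ℕ → Finset ℕ → α} {ki kj kk : ℕ → ℕ}

/-- a near element is no same-row element -/
lemma LabFacts3.near_notTr
    (h : LabFacts3 rw V nd₁ nd₂ S Dg Fr On Dt Nr Tr Tu Lv Aw Au B lg oe fr r₀ ct)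
    (hr : r ∈ V) {c : ν} {d : α} (hd : d ∈ Nr c) : d ∉ Tr r := by
  intro ht
  obtain ⟨r', hr', hc', hs⟩ := h.near_one c d hd
  have e1 := h.same_see r hr d ht r' hr' hs
  subst e1
  obtain ⟨i, hi⟩ := (h.legs _ hr' c hc').all _ hr' hc'
  obtain ⟨j, hj, x, hx, hxO⟩ := h.near_hid c d hd _ hr' hs i hi
  exact hxO (h.same_O _ hr' c hc' d ht j
    (fun h1 => hj ((h.legs _ hr' c hc').inj j i (h1.trans hi.symm))) x hx)

/-- members of the families of a far kind or a near kind at `c`: no two of them are near at `c` -/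
lemma LabFacts3.pair_notNear
    (h : LabFacts3 rw V nd₁ nd₂ S Dg Fr On Dt Nr Tr Tu Lv Aw Au B lg oe fr r₀ ct)
    (hD : RowG V Dg Fr Nr Tr D') (hr : r ∈ V) {c : ν} {d z : α}
    (hd : ExC (ES S) D' (rw r) (Tr r) d) (hdN : d ∉ Nr c) (hz : z ∈ Nr c) (hs : SeeR rw S z r) :
    PWitD (ES S) (Lv (nd₁ r)) (Lv (nd₂ r)) (Aw r) (rw r) (Tr r) d z := by
  obtain ⟨k1, s1⟩ := h.exC hD hr hd
  refine h.wD r hr d k1 z (Or.inr ⟨c, hz⟩) (fun h1 => hdN (h1 ▸ hz)) s1 hs ?_ ?_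
  · intro u _ h1 h2
    exact hdN (h.near_ne u c z h2 hz ▸ h1)
  · intro i j _ h1
    exact absurd hz (h.far_not_near h1 c)

/-- **Children of a leaf, far families.** -/
theorem LabFacts3.qcF
    (h : LabFacts3 rw V nd₁ nd₂ S Dg Fr On Dt Nr Tr Tu Lv Aw Au B lg oe fr r₀ ct)
    (hr : r ∈ V) {W : Set ℕ} {D : Set (Cd α)} {a : ℕ} {g : Cell α} {z : α} {x : ℕ}
    (hL : LeafAt (ES S) (Lv (nd₁ r)) (Lv (nd₂ r)) D' (famF wf) γ K C (lbR m R r)
      (QcN rw V nd₁ nd₂ S Fr Nr Tr Tu Lv Aw Au B lg oe r) (rootC rw Tr Aw r) W D a g)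
    (hx : 5 * x + 5 < K) (hz : z ∈ Fr) (hs : SeeW (ES S) C z a x) :
    QcN rw V nd₁ nd₂ S Fr Nr Tr Tu Lv Aw Au B lg oe r (g.left (Lv (nd₁ r)) (Lv (nd₂ r)) z) ∧
      QcN rw V nd₁ nd₂ S Fr Nr Tr Tu Lv Aw Au B lg oe r
        (g.right (Lv (nd₁ r)) (Lv (nd₂ r)) z) := by
  obtain ⟨p, p', h1, h2, h3, h4, h5⟩ := hs
  exact h.qc_far hr hL.qc hz ⟨_, hL.inC p (by omega), _, hL.inC p' (by omega), h5⟩

/-- **Children of a leaf, same-row families.** -/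
theorem LabFacts3.qcS
    (h : LabFacts3 rw V nd₁ nd₂ S Dg Fr On Dt Nr Tr Tu Lv Aw Au B lg oe fr r₀ ct)
    (hr : r ∈ V) {W : Set ℕ} {D : Set (Cd α)} {a : ℕ} {g : Cell α} {z : α} {x : ℕ}
    (hL : LeafAt (ES S) (Lv (nd₁ r)) (Lv (nd₂ r)) D' (famF wf) γ K C (lbR m R r)
      (QcN rw V nd₁ nd₂ S Fr Nr Tr Tu Lv Aw Au B lg oe r) (rootC rw Tr Aw r) W D a g)
    (hx : 5 * x + 5 < K) (hz : z ∈ Tr r) (hzT : z ∉ g.T) (hs : SeeW (ES S) C z a x) :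
    QcN rw V nd₁ nd₂ S Fr Nr Tr Tu Lv Aw Au B lg oe r (g.left (Lv (nd₁ r)) (Lv (nd₂ r)) z) ∧
      QcN rw V nd₁ nd₂ S Fr Nr Tr Tu Lv Aw Au B lg oe r
        (g.right (Lv (nd₁ r)) (Lv (nd₂ r)) z) := by
  obtain ⟨p, p', h1, h2, h3, h4, h5⟩ := hs
  exact h.qc_same hr hL.qc hz hzT ⟨_, hL.inC p (by omega), _, hL.inC p' (by omega), h5⟩

/-- **STEP N.**  `Cut` = cut labels (on all rows). -/
theorem LabFacts3.stepN
    (h : LabFacts3 rw V nd₁ nd₂ S Dg Fr On Dt Nr Tr Tu Lv Aw Au B lg oe fr r₀ ct)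
    (hf : LabFam V nd₁ nd₂ S Dg Fr On Dt Nr Tr Lv Aw ct m K R C γ wf ki kj kk)
    (hC : ∀ i < m, R i ∈ V → ∀ p < K, C i p ∈ rw (R i))
    (hinj : ∀ k < m, ∀ a < K, ∀ b < K, C k a = C k b → a = b)
    (hD : RowG V Dg Fr Nr Tr D')
    (hD2 : ∀ c, ∀ d ∈ D', d ∈ Nr c → TwoL rw Lv lg oe c d)
    (hDn : ∀ c, ∀ d ∈ Dg, d ∈ Nr c → TwoL rw Lv lg oe c d → d ∈ D')
    (hr : r ∈ V) {W : Finset ℕ} (hW : ∀ x ∈ W, 5 * x + 5 < K) {D : Set (Cd α)}
    (hG : GT (ES S) (Lv (nd₁ r)) (Lv (nd₂ r)) D' (famF wf) γ K C (lbR m R r)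
      (QcN rw V nd₁ nd₂ S Fr Nr Tr Tu Lv Aw Au B lg oe r) (rootC rw Tr Aw r) (W : Set ℕ) D)
    {c : ν} {e a b p : ℕ} (he : NearK nd₁ nd₂ R γ ki kk c e) (hsa : SplF V S m K R C wf e a)
    (hsb : SplF V S m K R C wf e b) (haR : R a = r) (hbR : R b ≠ r) (haD : a ∉ cutL D)
    {Cut : Set ℕ} (hcut : ∀ k ∈ Cut, k < m → R k = r → k ∈ cutL D)
    (hp : ExG nd₁ nd₂ R (PairG (FarK γ kk) (SplF V S m K R C wf))
      (fun y => PairG (NearK nd₁ nd₂ R γ ki kk y) (SplF V S m K R C wf)) c p)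
    (hpb : PathG nd₁ nd₂ R (SameG R (SameK γ kk) (SplF V S m K R C wf))
      (fun y => PairG (NearK nd₁ nd₂ R γ ki kk y) (SplF V S m K R C wf)) Cut r c p b)
    {c₀ : ℕ} (hc₀ : 20 * m + 5 ≤ c₀) (hcard : 20 * m + 6 ≤ W.card) :
    RowStep (ES S) (Lv (nd₁ r)) (Lv (nd₂ r)) D' (famF wf) γ K C (lbR m R r)
      (QcN rw V nd₁ nd₂ S Fr Nr Tr Tu Lv Aw Au B lg oe r) (rootC rw Tr Aw r) c₀ W D e a := by
  classical
  obtain ⟨x₀, hx₀⟩ : ∃ x, x ∈ W := Finset.card_pos.1 (by omega)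
  have hK : 6 ≤ K := by
    have := hW x₀ hx₀
    omega
  have ham := hsa.1.1
  have hbm := hsb.1.1
  have hbV := hsb.1.2
  have hN : ∀ x ∈ W, wf e (Qw x) ∈ Nr c := fun x hx =>
    hf.nearK_mem he (Qw_sub (hW x hx)) (Qw_card x)
  have hDgm : ∀ x ∈ W, wf e (Qw x) ∈ Dg := fun x hx =>
    (hf.wit e he.1 (Qw x) (Qw_sub (hW x hx)) (Qw_card x)).1
  have hseea : ∀ x ∈ W, SeeR rw S (wf e (Qw x)) r := by
    intro x hx
    have h1 := hsa.see hC (hW x hx)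
    rwa [haR] at h1
  have hseeb : ∀ x ∈ W, SeeR rw S (wf e (Qw x)) (R b) := fun x hx => hsb.see hC (hW x hx)
  have hat : At nd₁ nd₂ r c := h.near_see c _ (hN x₀ hx₀) r hr (hseea x₀ hx₀)
  have hbat : At nd₁ nd₂ (R b) c := h.near_see c _ (hN x₀ hx₀) _ hbV (hseeb x₀ hx₀)
  obtain ⟨l, hl⟩ := (h.legs r hr c hat).all r hr hat
  obtain ⟨j, hj⟩ := (h.legs r hr c hat).all (R b) hbV hbat
  have hjl : j ≠ l := fun h1 => hbR (by rw [← hj, h1, hl])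
  -- the leaf
  have haC : InC K C (rootC rw Tr Aw r) a := by
    intro p hp
    have h1 := hC a ham hsa.1.2 p hp
    rw [haR] at h1
    exact h1
  obtain ⟨g, hL⟩ := hG.leaf_of (j := a) ⟨ham, haR⟩ haC haD
  -- the active positions
  obtain ⟨J, hJ⟩ : ∃ J : Finset ℕ, J = (Finset.range K).filter
      (fun p => ∃ x ∈ W, ∃ y ∈ W, 5 * x ≤ p ∧ p ≤ 5 * y + 5) := ⟨_, rfl⟩
  have memJ : ∀ p, p ∈ J ↔ p < K ∧ ∃ x ∈ W, ∃ y ∈ W, 5 * x ≤ p ∧ p ≤ 5 * y + 5 := by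
    intro p
    rw [hJ, Finset.mem_filter, Finset.mem_range]
  have hJK : J ⊆ Finset.range K := fun p hp => Finset.mem_range.2 ((memJ p).1 hp).1
  have hJW : ∀ x ∈ W, ∀ a, 5 * x ≤ a → a ≤ 5 * x + 5 → a ∈ J := by
    intro x hx a h1 h2
    have h3 := hW x hx
    exact (memJ a).2 ⟨by omega, x, hx, x, hx, h1, h2⟩
  have hcutX : ∀ k ∈ Cut, k < m → R k = r → ∀ a ∈ J, C k a ∉ g.X := by
    intro k hk hkm hkR a ha
    obtain ⟨q, hq, rfl⟩ := hcut k hk hkm hkR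
    obtain ⟨h1, x, hx, y, hy, h2, h3⟩ := (memJ a).1 ha
    exact hL.cutp q hq x hx y hy a h1 h2 h3
  -- the members with exactly two places
  obtain ⟨D1, hD1, -, key1⟩ := h.swallowTwo hf hK hC hinj hr hat hJK
  obtain ⟨B1, hB1, hB1'⟩ := bad_windows D1
  have hpath : Relation.ReflTransGen (StG nd₁ nd₂ R (SameG R (SameK γ kk) (SplF V S m K R C wf))
      (fun y => PairG (NearK nd₁ nd₂ R γ ki kk y) (SplF V S m K R C wf)) c) p b :=
    Relation.ReflTransGen.mono (fun x y h5 => h5.1) _ _ hpb.2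
  have T2 : ∀ x ∈ W, x ∉ B1 → TwoL rw Lv lg oe c (wf e (Qw x)) := fun x hx hxB =>
    (key1 p b hp hpath e he hsb x
      (fun a h1 h2 => ⟨hJW x hx a h1 h2, hB1' x hxB a h1 h2⟩)).2
  obtain ⟨W₁, hW₁⟩ : ∃ W₁ : Set ℕ, W₁ = {x | x ∈ W ∧ x ∉ B1} := ⟨_, rfl⟩
  have memW₁ : ∀ x, x ∈ W₁ ↔ x ∈ W ∧ x ∉ B1 := fun x => by rw [hW₁]; rfl
  have hNT : ∀ x ∈ W, wf e (Qw x) ∉ Tr r := fun x hx => h.near_notTr hr (hN x hx)
  -- two positions of `b`
  have hex : ∀ x, ∃ pq : ℕ × ℕ, x ∈ W → (5 * x ≤ pq.1 ∧ pq.1 ≤ 5 * x + 5) ∧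
      (5 * x ≤ pq.2 ∧ pq.2 ≤ 5 * x + 5) ∧ ¬ ES S (wf e (Qw x)) (C b pq.1) (C b pq.2) := by
    intro x
    by_cases hx : x ∈ W
    · obtain ⟨p, q, h1, h2, h3, h4, h5⟩ := hsb.2 x (hW x hx)
      exact ⟨(p, q), fun _ => ⟨⟨h1, h2⟩, ⟨h3, h4⟩, h5⟩⟩
    · exact ⟨(0, 0), fun h1 => absurd h1 hx⟩
  choose pq hpq using hex
  have lt : ∀ x ∈ W, ∀ p, 5 * x ≤ p ∧ p ≤ 5 * x + 5 → p < K := fun x hx p hp => by
    have := hW x hx
    omega
  -- the near elements of `c`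
  obtain ⟨D3, hD3, hFrN, hQc⟩ := h.near_leaf (D' := D') (Mb := MbF (famF wf) γ) (W := W₁)
    (f := fun x => wf e (Qw x)) (M := 10 * m) hr hat hl hL.qc (hD2 c)
    (fun d _ hd => h.near_notTr hr hd)
    (fun x hx => ⟨hN x ((memW₁ x).1 hx).1, hDn c _ (hDgm x ((memW₁ x).1 hx).1)
      (hN x ((memW₁ x).1 hx).1) (T2 x ((memW₁ x).1 hx).1 ((memW₁ x).1 hx).2), e, he.1, rfl⟩)
    hjl (by rw [hj]; exact hbV) (p := fun x => C b (pq x).1) (q := fun x => C b (pq x).2)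
    (by
      intro x hx
      have hxW := ((memW₁ x).1 hx).1
      obtain ⟨h1, h2, h3⟩ := hpq x hxW
      rw [hj]
      exact ⟨hC b hbm hbV _ (lt x hxW _ h1), hC b hbm hbV _ (lt x hxW _ h2), h3⟩)
    (by
      rintro x hx y hy hxy _ ⟨e', he', rfl⟩ hd
      have hxW := ((memW₁ x).1 hx).1
      have hyW := ((memW₁ y).1 hy).1
      have p1 := (hpq x hxW).1
      have p2 := (hpq x hxW).2.1
      have l1 := lt x hxW _ p1
      have l2 := lt x hxW _ p2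
      by_contra hcon
      have hsee : SeeR rw S (wf e' (Qw y)) (R b) := by
        have h3 := hcon
        unfold ES at h3
        push Not at h3
        exact ⟨_, hC b hbm hbV _ l1, _, hC b hbm hbV _ l2, h3.1, h3.2⟩
      refine hcon ?_
      have h3 := (h.wB (R b) hbV _ (Or.inr ⟨c, hd⟩) hsee).one (hC b hbm hbV _ l1)
        (hC b hbm hbV _ l2)
      show ES S (wf e' (Qw y)) (C b (pq x).1) (C b (pq x).2)
      rw [h3]
      refine hf.side he' hbm (hW y hyW) l1 l2 ?_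
      rcases Nat.lt_or_gt_of_ne hxy with h4 | h4 <;> omega)
    (by
      intro Y A' hst
      obtain ⟨D2, hD2c, -, key2⟩ := h.swallowIn hf hK hC hinj hr hat hl hst hJK hcutX
      obtain ⟨B2, hB2, hB2'⟩ := bad_windows D2
      refine ⟨B2, by omega, fun x hx hxB => ?_⟩
      have hxW := ((memW₁ x).1 hx).1
      exact (key2 p b hp hpb).2.2.2 e he.1 hsb x
        (fun a h1 h2 => ⟨hJW x hxW a h1 h2, hB2' x hxB a h1 h2⟩))
  -- the usable windows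
  obtain ⟨Wf, hWf⟩ : ∃ Wf : Finset ℕ, Wf = (W \ B1) \ D3 := ⟨_, rfl⟩
  have memWf : ∀ x, x ∈ Wf ↔ (x ∈ W ∧ x ∉ B1) ∧ x ∉ D3 := by
    intro x
    rw [hWf, Finset.mem_sdiff, Finset.mem_sdiff]
  have hWfW : Wf ⊆ W := fun x hx => ((memWf x).1 hx).1.1
  have hcardf : W.card ≤ Wf.card + (20 * m + 1) := by
    have h1 := Finset.card_le_card_sdiff_add_card (s := W) (t := B1)
    have h2 := Finset.card_le_card_sdiff_add_card (s := W \ B1) (t := D3)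
    rw [← hWf] at h2
    omega
  -- other exits
  have hpairs : ∀ d, ExC (ES S) D' g.X g.T d → d ∉ Nr c → ∀ x ∈ W,
      ExC (ES S) D' g.X g.T (wf e (Qw x)) →
      PWitD (ES S) (Lv (nd₁ r)) (Lv (nd₂ r)) g.A g.X g.T d (wf e (Qw x)) := by
    intro d hd hdN x hx hEx
    by_cases hdT : d ∈ Tr r
    · exact hL.link d hdT hd x hx _ ⟨e, he.1, rfl⟩ (hNT x hx) hEx
    · have hd0 : ExC (ES S) D' (rw r) (Tr r) d := by
        obtain ⟨h1, -, u, hu, v, hv, h2⟩ := hd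
        exact ⟨h1, hdT, u, hL.X hu, v, hL.X hv, h2⟩
      have h1 := h.pair_notNear hD hr hd0 hdN (hN x hx) (hseea x hx)
      refine h1.old hL.X hL.T (fun y _ => ?_) (fun y _ => ?_)
      · rw [hL.A d hdT]
      · rw [hL.A _ (hNT x hx)]
  have hF : TST.Fr (ES S) (Lv (nd₁ r)) (Lv (nd₂ r)) g.A D' g.X g.T (MbF (famF wf) γ) univ
      (Wf : Set ℕ) (famF wf e) := by
    have sub : ∀ x ∈ (Wf : Set ℕ), x ∈ {x | x ∈ W₁ ∧ x ∉ D3} := by
      intro x hx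
      have h1 := (memWf x).1 hx
      exact ⟨(memW₁ x).2 h1.1, h1.2⟩
    refine ⟨fun x hx => hFrN.mem x (sub x hx), fun d _ hd => ?_, fun y hy d hdy _ hd x hx hxy hEx => ?_⟩
    · by_cases hdN : d ∈ Nr c
      · obtain ⟨b', hb'⟩ := hFrN.w2 d hdN hd
        exact ⟨b', fun x hx hxb hEx => hb' x (sub x hx) hxb hEx⟩
      · exact ⟨0, fun x hx _ hEx => hpairs d hd hdN x (hWfW hx) hEx⟩
    · by_cases hdN : d ∈ Nr c
      · exact hFrN.w2f y (sub y hy) d hdy hdN hd x (sub x hx) hxy hEx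
      · exact hpairs d hd hdN x (hWfW hx) hEx
  have hHom : Hom K C (lbR m R r) (Wf : Set ℕ) (fun x => g.A (famF wf e x)) := by
    refine hL.hom (F := famF wf) (f := e) (Wf := (Wf : Set ℕ)) ?_ ?_
    · intro x hx
      exact hNT x (hWfW hx)
    · exact hf.homAw he.1 (fun k hk => hk) (fun x hx => hW x (hWfW hx))
  have hseeW : ∀ x ∈ Wf, SeeW (ES S) C (famF wf e x) a x := fun x hx => hsa.2 x (hW x (hWfW hx))
  obtain ⟨W', h1, h2, D₁, h3, h5, h6, h7⟩ := hL.insertF (Wf := Wf) ⟨ham, haR⟩ he.1 hWfW (by omega)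
    (fun x hx => hW x (hWfW hx)) hF hHom hseeW
    (by
      intro x hx
      have hx1 := (memWf x).1 hx
      refine hQc x ((memW₁ x).2 hx1.1) hx1.2 ?_
      obtain ⟨p, p', q1, q2, q3, q4, q5⟩ := hseeW x hx
      have hxK := hW x (hWfW hx)
      exact ⟨(hF.mem x hx).1, (hF.mem x hx).2.1, _, hL.inC p (by omega), _,
        hL.inC p' (by omega), q5⟩)
  obtain ⟨x₁, hx₁⟩ : ∃ x, x ∈ W' := Finset.card_pos.1 (by omega)
  refine ⟨W', h1.trans hWfW, by omega, D₁, h5, h3, h6, fun q hq => ?_⟩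
  rcases h7 q hq with h8 | ⟨h8, h9⟩
  · exact Or.inl h8
  · exact Or.inr ⟨h8, x₁, hx₁, h9 x₁ (h1 hx₁)⟩

end

end TST
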