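import Pool.Agent.TST.LayTree3
import Pool.Agent.TST.LayFar

/-!
# Homogeneous patterns of all families on a cut label (label level of T-star, helper45)

A same-row element may have many classes on its row, but on a label which is cut by the tree it is
constant on each side of its window.
-/

set_option autoImplicit false

open Set

namespace TST

universe u v w

section

variable {α : Type u} {E : α → α → α → Prop} {L R : α → Set α} {Dg : Set α} {F : ℕ → ℕ → α}
  {γ : Set ℕ} {K : ℕ} {C : ℕ → ℕ → α} {Lb : Set ℕ} {Qc : Cell α → Prop} {c : Cell α}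
  {W : Set ℕ} {D : Set (Cd α)}

/-- two positions on one side of the window `y` -/
def Gap (y p p' : ℕ) : Prop := (p ≤ 5 * y ∧ p' ≤ 5 * y) ∨ (5 * y + 5 ≤ p ∧ 5 * y + 5 ≤ p')

/-- the relation of an element of `T` is symmetric -/
lemma PWitB.symm_E {A : α → Set α} {X T : Set α} {z₀ s u v : α} (h : PWitB E L R A X T z₀)
    (hs : s ∈ T) (hu : u ∈ X) (hv : v ∈ X) (hE : E s u v) : E s v u := by
  obtain ⟨N, p, q, hS, hr⟩ := h
  rw [← hr.rE s (Or.inl hs) v hv u hu]
  exact ((hr.rE s (Or.inl hs) u hu v hv).2 hE).symm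

/-- **A same-row element in `T` is constant on the sides of its window on every cut label.** -/
theorem GT.homE_same (h : GT E L R Dg F γ K C Lb Qc c W D) {e y : ℕ} (hy : y ∈ W)
    (hT : F e y ∈ c.T)
    (hE0 : ∀ k ∈ Lb, ∀ p < K, ∀ p' < K, ∀ r < K, ∀ r' < K, r ≠ r' →
      ((p ≤ 5 * y ∧ p' ≤ 5 * y ∧ r ≤ 5 * y ∧ r' ≤ 5 * y) ∨
        (5 * y + 5 ≤ p ∧ 5 * y + 5 ≤ p' ∧ 5 * y + 5 ≤ r ∧ 5 * y + 5 ≤ r')) →
      E (F e y) (C k r) (C k r') → E (F e y) (C k p) (C k p'))
    (hL0 : ∀ k ∈ Lb, ∀ p < K, ∀ p' < K, Gap y p p' → (C k p ∈ L (F e y) ↔ C k p' ∈ L (F e y)))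
    (hR0 : ∀ k ∈ Lb, ∀ p < K, ∀ p' < K, Gap y p p' → (C k p ∈ R (F e y) ↔ C k p' ∈ R (F e y))) :
    ∀ q ∈ D, ∀ p < K, ∀ p' < K, Gap y p p' → E (F e y) (C q.k p) (C q.k p') := by
  induction h with
  | leaf c W hS hQ => exact fun q hq => absurd hq (notMem_empty q)
  | node c W z d Wz Cz D₁ D₂ l₁ l₂ h₂ h₁ hS hQ hN hR h₁' h₂' ih₁ ih₂ =>
    have wit : ∀ x ∈ Wz, PWitB E L R c.A c.X c.T (F z x) := fun x hx => hS _ (hN.exc x hx)
    rintro q ((hq | hq) | hq) p hp p' hp' hg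
    · -- the label is cut here
      obtain ⟨hkb, hkc⟩ := hN.lb q.k hq.1
      have y1 := hR.lo y hy
      have y2 := hR.hi y hy
      have r1 := hR.ll
      have r2 := hR.hh
      by_contra hcon
      -- the member is in no class of the ends on this side
      have nL : C q.k p ∉ L (F e y) := fun h1 => hcon
        ((wit _ hR.ml₁).lcls hT (hkc p hp) (hkc p' hp') h1 ((hL0 _ hkb p hp p' hp' hg).1 h1))
      have nR : C q.k p ∉ R (F e y) := fun h1 => hcon
        ((wit _ hR.ml₁).rcls hT (hkc p hp) (hkc p' hp') h1 ((hR0 _ hkb p hp p' hp' hg).1 h1))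
      rcases hg with ⟨g1, g2⟩ | ⟨g1, g2⟩
      · have hK : 5 * h₁ + 5 < K := hN.win _ hR.mh₁
        have mL : ∀ r ≤ 5 * y, C q.k r ∉ L (F e y) := fun r hr h1 =>
          nL ((hL0 _ hkb r (by omega) p hp (Or.inl ⟨hr, g1⟩)).1 h1)
        have mR : ∀ r ≤ 5 * y, C q.k r ∉ R (F e y) := fun r hr h1 =>
          nR ((hR0 _ hkb r (by omega) p hp (Or.inl ⟨hr, g1⟩)).1 h1)
        have key : E (F e y) (C q.k (5 * l₁ + 5)) (C q.k (5 * l₁ + 6)) := by
          cases d
          · have a1 : C q.k (5 * l₁ + 5) ∈ c.A (F z l₁) :=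
              hN.cut_in hq.1 hR.ml₁ (by omega) (fun h => by cases h) (fun _ => le_rfl)
            have a2 : C q.k (5 * l₁ + 6) ∈ c.A (F z l₁) :=
              hN.cut_in hq.1 hR.ml₁ (by omega) (fun h => by cases h) (fun _ => by omega)
            have a3 : C q.k 0 ∉ c.A (F z l₁) :=
              hN.cut_out hq.1 hR.ml₁ (by omega) (fun h => by cases h) (fun _ => Nat.zero_le _)
            exact ((wit _ hR.ml₁).link_lo hT (hkc _ (by omega)) a1 (mL _ (by omega))
              (hkc 0 (by omega)) a3 (mR 0 (by omega)) (hkc _ (by omega)) a1 (hkc _ (by omega)) a2).2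
              ⟨fun h1 => absurd h1 (mL _ (by omega)), fun h1 => absurd h1 (mL _ (by omega))⟩
          · have a1 : C q.k (5 * l₁ + 5) ∉ c.A (F z l₁) :=
              hN.cut_out hq.1 hR.ml₁ (by omega) (fun _ => le_rfl) (fun h => by cases h)
            have a2 : C q.k (5 * l₁ + 6) ∉ c.A (F z l₁) :=
              hN.cut_out hq.1 hR.ml₁ (by omega) (fun _ => by omega) (fun h => by cases h)
            have a3 : C q.k 0 ∈ c.A (F z l₁) :=
              hN.cut_in hq.1 hR.ml₁ (by omega) (fun _ => Nat.zero_le _) (fun h => by cases h)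
            exact ((wit _ hR.ml₁).link_hi hT (hkc 0 (by omega)) a3 (mL 0 (by omega))
              (hkc _ (by omega)) a1 (mR _ (by omega)) (hkc _ (by omega)) a1 (hkc _ (by omega)) a2).2
              ⟨fun h1 => absurd h1 (mR _ (by omega)), fun h1 => absurd h1 (mR _ (by omega))⟩
        exact hcon (hE0 _ hkb p hp p' hp' (5 * l₁ + 5) (by omega) (5 * l₁ + 6) (by omega)
          (by omega) (Or.inl ⟨g1, g2, by omega, by omega⟩) key)
      · have hK : 5 * h₁ + 5 < K := hN.win _ hR.mh₁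
        have mL : ∀ r < K, 5 * y + 5 ≤ r → C q.k r ∉ L (F e y) := fun r hrK hr h1 =>
          nL ((hL0 _ hkb r hrK p hp (Or.inr ⟨hr, g1⟩)).1 h1)
        have mR : ∀ r < K, 5 * y + 5 ≤ r → C q.k r ∉ R (F e y) := fun r hrK hr h1 =>
          nR ((hR0 _ hkb r hrK p hp (Or.inr ⟨hr, g1⟩)).1 h1)
        have key : E (F e y) (C q.k (5 * y + 5)) (C q.k (5 * y + 6)) := by
          cases d
          · have a1 : C q.k (5 * y + 5) ∉ c.A (F z h₁) :=
              hN.cut_out hq.1 hR.mh₁ (by omega) (fun h => by cases h) (fun _ => by omega)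
            have a2 : C q.k (5 * y + 6) ∉ c.A (F z h₁) :=
              hN.cut_out hq.1 hR.mh₁ (by omega) (fun h => by cases h) (fun _ => by omega)
            have a3 : C q.k (5 * h₁ + 5) ∈ c.A (F z h₁) :=
              hN.cut_in hq.1 hR.mh₁ (by omega) (fun h => by cases h) (fun _ => le_rfl)
            exact ((wit _ hR.mh₁).link_hi hT (hkc _ hK) a3 (mL _ hK (by omega))
              (hkc _ (by omega)) a1 (mR _ (by omega) (by omega)) (hkc _ (by omega)) a1
              (hkc _ (by omega)) a2).2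
              ⟨fun h1 => absurd h1 (mR _ (by omega) (by omega)),
                fun h1 => absurd h1 (mR _ (by omega) (by omega))⟩
          · have a1 : C q.k (5 * y + 5) ∈ c.A (F z h₁) :=
              hN.cut_in hq.1 hR.mh₁ (by omega) (fun _ => by omega) (fun h => by cases h)
            have a2 : C q.k (5 * y + 6) ∈ c.A (F z h₁) :=
              hN.cut_in hq.1 hR.mh₁ (by omega) (fun _ => by omega) (fun h => by cases h)
            have a3 : C q.k (5 * h₁ + 5) ∉ c.A (F z h₁) :=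
              hN.cut_out hq.1 hR.mh₁ (by omega) (fun _ => le_rfl) (fun h => by cases h)
            exact ((wit _ hR.mh₁).link_lo hT (hkc _ (by omega)) a1 (mL _ (by omega) (by omega))
              (hkc _ hK) a3 (mR _ hK (by omega)) (hkc _ (by omega)) a1
              (hkc _ (by omega)) a2).2
              ⟨fun h1 => absurd h1 (mL _ (by omega) (by omega)),
                fun h1 => absurd h1 (mL _ (by omega) (by omega))⟩
        exact hcon (hE0 _ hkb p hp p' hp' (5 * y + 5) (by omega) (5 * y + 6) (by omega)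
          (by omega) (Or.inr ⟨g1, g2, by omega, by omega⟩) key)
    · -- the label lies in the left child
      obtain ⟨hkb, hkc, -⟩ := h₁'.lb q hq
      by_cases hc : F e y ∈ (c.left L R (F z (wl d l₁ h₁))).T
      · exact ih₁ hy hc q hq p hp p' hp' hg
      · obtain ⟨b, hb, hbA, hbR⟩ := cross_of hT hc
        have i1 := hkc p hp
        have i2 := hkc p' hp'
        have hl := hL0 _ hkb p hp p' hp' hg
        by_cases hpL : C q.k p ∈ L (F e y)
        · exact (wit _ hR.ml₁).lcls hT i1.1 i2.1 hpL (hl.1 hpL)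
        · exact ((wit _ hR.wl_mem).link_lo hT i1.1 i1.2 hpL hb hbA hbR i1.1 i1.2 i2.1 i2.2).2 hl
    · -- the label lies in the right child
      obtain ⟨hkb, hkc, -⟩ := h₂'.lb q hq
      by_cases hc : F e y ∈ (c.right L R (F z (wr d l₁ h₁))).T
      · exact ih₂ hy hc q hq p hp p' hp' hg
      · obtain ⟨b, hb, hbA, hbR⟩ := cross_of (R := L) hT hc
        have i1 := hkc p hp
        have i2 := hkc p' hp'
        have hr := hR0 _ hkb p hp p' hp' hg
        have hbA' : b ∈ c.A (F z (wr d l₁ h₁)) := by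
          by_contra h1
          exact hbA h1
        by_cases hpR : C q.k p ∈ R (F e y)
        · exact (wit _ hR.ml₁).rcls hT i1.1 i2.1 hpR (hr.1 hpR)
        · exact ((wit _ hR.wr_mem).link_hi hT hb hbA' hbR i1.1 i1.2 hpR i1.1 i1.2 i2.1 i2.2).2 hr

end

section

variable {α : Type u} {β : Type v} {ν : Type w} {rw : β → Set α} {V : Set β}
    {nd₁ nd₂ : β → ν} {S : α → α → α → Prop} {Dg Fa On Dt : Set α} {Nr : ν → Set α}
    {Tr : β → Set α} {Tu : ν → Set α} {Lv : ν → α → Set α} {Aw : β → α → Set α}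
    {Au : ν → α → Fin 3 → Set α} {B : α → α → α → α → Prop} {lg : ν → Fin 3 → β}
    {oe : ν → Fin 3 → ν} {fr : α → Bool → β} {r₀ : α → β} {ct : α → ν} {D' : Set α} {r : β}
    {m K : ℕ} {R : ℕ → β} {C : ℕ → ℕ → α} {γ : Set ℕ} {wf : ℕ → Finset ℕ → α} {ki kj kk : ℕ → ℕ}
    {Qc : Cell α → Prop} {D : Set (Cd α)} {W : Set ℕ}

/-- a row with a cut label is seen by a rung -/
theorem LabFacts3.rung_of_tree
    (h : LabFacts3 rw V nd₁ nd₂ S Dg Fa On Dt Nr Tr Tu Lv Aw Au B lg oe fr r₀ ct)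
    (hD : RowG V Dg Fa Nr Tr D') (hr : r ∈ V) {F : ℕ → ℕ → α} {Lb : Set ℕ}
    (hG : GT (ES S) (Lv (nd₁ r)) (Lv (nd₂ r)) D' F γ K C Lb Qc ⟨∅, rw r, Tr r, Aw r⟩ W D)
    {q : Cd α} (hq : q ∈ D) : ∃ z, (z ∈ Fa ∨ ∃ u, z ∈ Nr u) ∧ SeeR rw S z r := by
  cases hG with
  | leaf => exact absurd hq (notMem_empty q)
  | node _ _ z d Wz Cz D₁ D₂ l₁ l₂ h₂ h₁ hS hQ hN hR _ _ =>
    exact ⟨F z l₁, h.exC hD hr (hN.exc l₁ hR.ml₁)⟩

/-- **All families are constant on the sides of their windows on a cut label.** -/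
theorem LabFam.homE
    (h : LabFacts3 rw V nd₁ nd₂ S Dg Fa On Dt Nr Tr Tu Lv Aw Au B lg oe fr r₀ ct)
    (hf : LabFam V nd₁ nd₂ S Dg Fa On Dt Nr Tr Lv Aw ct m K R C γ wf ki kj kk)
    (hC : ∀ i < m, R i ∈ V → ∀ p < K, C i p ∈ rw (R i))
    (hinj : ∀ k < m, ∀ p < K, ∀ p' < K, C k p = C k p' → p = p')
    (hD : RowG V Dg Fa Nr Tr D') (hr : r ∈ V) (hW : ∀ x ∈ W, 5 * x + 5 < K)
    (hG : GT (ES S) (Lv (nd₁ r)) (Lv (nd₂ r)) D' (fun e x => wf e (Qw x)) γ K C
      {k | k < m ∧ R k = r} Qc ⟨∅, rw r, Tr r, Aw r⟩ W D) {q : Cd α} (hq : q ∈ D) :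
    HomE (ES S) (fun e x => wf e (Qw x)) γ K C W q.k := by
  obtain ⟨⟨hkm, hkr⟩, -, -⟩ := hG.lb q hq
  have hkV : R q.k ∈ V := by rw [hkr]; exact hr
  intro e he y hy p hp p' hp' hg
  have hyK := hW y hy
  have row : ∀ p < K, C q.k p ∈ rw r := by
    intro p hp
    have h1 := hC q.k hkm hkV p hp
    rwa [hkr] at h1
  show ES S (wf e (Qw y)) (C q.k p) (C q.k p')
  by_contra hcon
  have hS : SeeR rw S (wf e (Qw y)) r := by
    have h1 := hcon
    unfold ES at h1
    push Not at h1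
    exact ⟨_, row p hp, _, row p' hp', h1.1, h1.2⟩
  have hA : C q.k p ∈ Aw r (wf e (Qw y)) ↔ C q.k p' ∈ Aw r (wf e (Qw y)) := by
    have h1 := hf.side he hkm hyK hp hp' hg
    rwa [hkr] at h1
  have qeq : ∀ a b, ((a ≤ 5 * y ∧ b ≤ 5 * y) ∨ (5 * y + 5 ≤ a ∧ 5 * y + 5 ≤ b)) →
      qloc (Qw y) a = qloc (Qw y) b := by
    intro a b hab
    refine qloc_of_wpos ?_
    unfold wpos
    split_ifs <;> omega
  have hLR : ∀ k, k < m → R k = r → ∀ a < K, ∀ b < K,
      ((a ≤ 5 * y ∧ b ≤ 5 * y) ∨ (5 * y + 5 ≤ a ∧ 5 * y + 5 ≤ b)) →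
      (C k a ∈ Lv (nd₁ r) (wf e (Qw y)) ↔ C k b ∈ Lv (nd₁ r) (wf e (Qw y))) ∧
      (C k a ∈ Lv (nd₂ r) (wf e (Qw y)) ↔ C k b ∈ Lv (nd₂ r) (wf e (Qw y))) := by
    intro k hk hkr' a ha b hb hab
    have h1 := (hf.homA e he k hk (Qw y) (Qw_sub hyK) (Qw_card y) (Qw y) (Qw_sub hyK) (Qw_card y)
      a ha b hb (qeq a b hab)).2
    rwa [hkr'] at h1
  have rung : ∀ z, (z = wf e (Qw y)) → (z ∈ Fa ∨ ∃ u, z ∈ Nr u) → False := by
    intro z hz hk
    rw [hz] at hk
    have h1 := (h.wB r hr _ hk hS).one (row p hp) (row p' hp')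
    exact hcon (h1.2 hA)
  have dt : wf e (Qw y) ∈ Dt → False := by
    intro hd
    have h1 := h.one_see _ (Or.inr hd) r hr hS
    have h2 := h.dt_cls _ hd (by rw [← h1]; exact hr) (C q.k p) (by rw [← h1]; exact row p hp)
      (C q.k p') (by rw [← h1]; exact row p' hp')
    rw [← h1] at h2
    exact hcon (h2.2 (hLR q.k hkm hkr p hp p' hp' hg).1)
  rcases (hf.wit e he (Qw y) (Qw_sub hyK) (Qw_card y)).2.1 with h1 | h1 | h1 | h1 | h1 | h1 | h1
  · exact rung _ rfl (Or.inl h1.2)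
  · exact rung _ rfl (Or.inr ⟨_, h1.2⟩)
  · exact rung _ rfl (Or.inr ⟨_, h1.2⟩)
  · -- same-row elements
    have hiV := (hf.ran e he).2.1.2
    have h2 := h.same_see _ hiV _ h1.2 r hr hS
    have hT : wf e (Qw y) ∈ Tr r := by rw [h2]; exact h1.2
    obtain ⟨z, hz, hzs⟩ := h.rung_of_tree hD hr hG hq
    have hwB := h.wB r hr z hz hzs
    refine hcon (hG.homE_same (F := fun e x => wf e (Qw x)) (e := e) hy hT ?_ ?_ ?_ q hq p hp p' hp'
      hg)
    · rintro k ⟨hk, hkr'⟩ a ha a' ha' b hb b' hb' hbb hg' hE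
      have rowk : ∀ p < K, C k p ∈ rw r := by
        intro p hp
        have h1 := hC k hk (by rw [hkr']; exact hr) p hp
        rwa [hkr'] at h1
      have hom : ∀ a < K, ∀ a' < K, ∀ b < K, ∀ b' < K, a ≠ a' → b ≠ b' →
          (a < a' ↔ b < b') → ((a ≤ 5 * y ∧ a' ≤ 5 * y ∧ b ≤ 5 * y ∧ b' ≤ 5 * y) ∨
          (5 * y + 5 ≤ a ∧ 5 * y + 5 ≤ a' ∧ 5 * y + 5 ≤ b ∧ 5 * y + 5 ≤ b')) →
          ES S (wf e (Qw y)) (C k b) (C k b') → ES S (wf e (Qw y)) (C k a) (C k a') := by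
        intro a ha a' ha' b hb b' hb' h3 h4 h5 h6 h7
        rcases h7 with h7 | h7
        · exact absurd (hinj k hk b hb b' hb' h7) h4
        · refine Or.inr fun h8 => h7 ?_
          exact (hf.hom e he k hk (Qw y) (Qw_sub hyK) (Qw_card y) (Qw y) (Qw_sub hyK) (Qw_card y)
            a ha a' ha' b hb b' hb' (qeq a b (by omega)) (qeq a' b' (by omega)) h5 (by omega)).1 h8
      by_cases haa : a = a'
      · exact Or.inl (by rw [haa])
      · by_cases hord : a < a' ↔ b < b'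
        · exact hom a ha a' ha' b hb b' hb' haa hbb hord hg' hE
        · exact hwB.symm_E hT (rowk a' ha') (rowk a ha)
            (hom a' ha' a ha b hb b' hb' (Ne.symm haa) hbb (by omega) (by omega) hE)
    · exact fun k hk a ha b hb hab => (hLR k hk.1 hk.2 a ha b hb hab).1
    · exact fun k hk a ha b hb hab => (hLR k hk.1 hk.2 a ha b hb hab).2
  · -- one-place elements
    have h2 := h.one_cls _ h1.2 r hr hS _ (row p hp) _ (row p' hp')
    exact hcon (h2.2 hA)
  · exact dt h1.2.1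
  · exact dt h1.2.1

end

end TST
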