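import Pool.Agent.TST.LayPl

/-!
# One node of the tree of cells (T-star, row R5, helper11)

`z`, `z₀`, `z₁` = walls (members of the reference of the node).  `exit_wall`: an exit does not see
something on both sides of a wall (T3).  `link_sand_lo`, `link_sand_hi` and mirror images: the places of
a same-row element which crosses the node are sandwiched by the walls (T4).
-/

set_option autoImplicit false

open Set
open scoped Matroid

namespace TST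

section

variable {α ι : Type*} {E : α → α → α → Prop} {L R A A' : α → Set α} {Dg X T P Q Q' : Set α}
  {Mb : ι → Set α} {W W' : Set ι} {f t : ι → α} {d e z z₀ z₁ s a a' b b' y : α}

/-- **(T3)** an exit does not see something on both sides of a wall -/
lemma PWitD.exit_wall (h : PWitD E L R A X T z d) (ha : a ∈ X) (ha' : a' ∈ X) (hE : ¬ E d a a')
    (a1 : a ∈ A z) (a1' : a' ∈ A z) (hb : b ∈ X) (hb' : b' ∈ X) (hE' : ¬ E d b b')
    (b1 : b ∉ A z) (b1' : b' ∉ A z) : False := by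
  have h1 := h.sand_hi ha ha' hE a1 a1'
  rw [h.right.one hb hb'] at hE'
  exact hE' ⟨fun h2 => absurd (h1 b hb h2) b1, fun h2 => absurd (h1 b' hb' h2) b1'⟩

/-- two walls: the exit has a pair witness with one of them -/
lemma exit_walls (h : PWitD E L R A X T z₀ d ∨ PWitD E L R A X T z₁ d)
    (inc : ∀ a ∈ X, a ∈ A z₀ → a ∈ A z₁) (ha : a ∈ X) (ha' : a' ∈ X) (hE : ¬ E d a a')
    (a1 : a ∈ A z₀) (a1' : a' ∈ A z₀) (hb : b ∈ X) (hb' : b' ∈ X) (hE' : ¬ E d b b')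
    (b1 : b ∉ A z₁) (b1' : b' ∉ A z₁) : False := by
  rcases h with h | h
  · exact h.exit_wall ha ha' hE a1 a1' hb hb' hE' (fun h1 => b1 (inc b hb h1))
      (fun h1 => b1' (inc b' hb' h1))
  · exact h.exit_wall ha ha' hE (inc a ha a1) (inc a' ha' a1') hb hb' hE' b1 b1'

/-- a family with pair witnesses up to one index gives one of two walls -/
lemma Fr.wall_or {z : ι → α} (hz : Fr E L R A Dg X T Mb Q W z) (hd : d ∈ Q) (hdx : ExC E Dg X T d)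
    {r r' : ι} (hr : r ∈ W) (hr' : r' ∈ W) (hne : r ≠ r') (hzr : ExC E Dg X T (z r))
    (hzr' : ExC E Dg X T (z r')) :
    PWitD E L R A X T (z r) d ∨ PWitD E L R A X T (z r') d := by
  obtain ⟨b, hb⟩ := hz.w2 d hd hdx
  by_cases h : r = b
  · exact Or.inr (hb r' hr' (fun h1 => hne (h.trans h1.symm)) hzr').symm
  · exact Or.inl (hb r hr h hzr).symm

/-- two members of one family -/
lemma Fr.walls {z : ι → α} (hz : Fr E L R A Dg X T Mb Q W z) {r r' : ι} (hr : r ∈ W) (hr' : r' ∈ W)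
    (hne : r ≠ r') (hQ : z r ∈ Q) (hzr : ExC E Dg X T (z r)) (hzr' : ExC E Dg X T (z r')) :
    PWitD E L R A X T (z r) (z r') :=
  hz.w2f r hr (z r) (hz.mem r hr).2.2 hQ hzr r' hr' hne.symm hzr'

/-- an element of `T` which separates two elements behind a wall crosses the wall -/
lemma PWitB.cr_of (h : PWitB E L R A X T z) (hs : s ∈ T) (ha : a ∈ X) (ha' : a' ∈ X)
    (hE : ¬ E s a a') (a1 : a ∉ A z₁) (a1' : a' ∉ A z₁) : ∃ y ∈ X, y ∉ A z₁ ∧ y ∉ R s := by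
  by_contra hcon
  push Not at hcon
  exact hE (h.rcls hs ha ha' (hcon a ha a1) (hcon a' ha' a1'))

/-- an element of `T` which separates two elements before a wall leaves the left class there -/
lemma PWitB.cl_of (h : PWitB E L R A X T z) (hs : s ∈ T) (ha : a ∈ X) (ha' : a' ∈ X)
    (hE : ¬ E s a a') (a1 : a ∈ A z₁) (a1' : a' ∈ A z₁) : ∃ y ∈ X, y ∈ A z₁ ∧ y ∉ L s := by
  by_contra hcon
  push Not at hcon
  exact hE (h.lcls hs ha ha' (hcon a ha a1) (hcon a' ha' a1'))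

/-- **(T4)** the right place `{x | x ∈ A z₀ ∨ x ∉ R s}` of a link through `z₀` contains the wall `z₁` if
the link separates two elements behind `z₁` -/
lemma PWitD.link_sand_lo (h : PWitD E L R A X T z₀ z₁) (hs : s ∈ T)
    (hl : ∃ y ∈ X, y ∈ A z₀ ∧ y ∉ L s) (ha : a ∈ X) (ha' : a' ∈ X) (hE : ¬ E s a a')
    (a1 : a ∉ A z₁) (a1' : a' ∉ A z₁) : ∀ x ∈ X, x ∈ A z₁ → x ∈ A z₀ ∨ x ∉ R s := by
  obtain ⟨u, hu, huA, huL⟩ := hl
  obtain ⟨y, hy, hyA, hyR⟩ := h.left.cr_of hs ha ha' hE a1 a1'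
  exact h.rplace_lo hs hu huA huL hy hyA hyR

/-- **(T4)** the right place is contained in the wall `z₁` if the link separates two elements between
the walls -/
lemma PWitD.link_sand_hi (h : PWitD E L R A X T z₀ z₁) (inc : ∀ a ∈ X, a ∈ A z₀ → a ∈ A z₁)
    (hs : s ∈ T) (hl : ∃ y ∈ X, y ∈ A z₀ ∧ y ∉ L s) (ha : a ∈ X) (ha' : a' ∈ X) (hE : ¬ E s a a')
    (a0 : a ∉ A z₀) (a0' : a' ∉ A z₀) (a1 : a ∈ A z₁) (a1' : a' ∈ A z₁) :
    ∀ x ∈ X, (x ∈ A z₀ ∨ x ∉ R s) → x ∈ A z₁ := by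
  obtain ⟨u, hu, huA, huL⟩ := hl
  refine rplace_hi inc ?_
  rintro ⟨y, hy, hyA, hyR⟩
  have m1 := h.zig hs hu huA huL ha a0 a1 hy hyA hyR
  have m2 := h.zig hs hu huA huL ha' a0' a1' hy hyA hyR
  exact hE (h.left.mid hs hu huA huL hy (fun h1 => hyA (inc y hy h1)) hyR ha a0 m1.2 ha' a0' m2.2)

/-- mirror image: the left place `{x | x ∈ A z₀ ∧ x ∈ L s}` of a link through `z₀` is contained in the
wall `z₁` if the link separates two elements before `z₁` -/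
lemma PWitD.link_sand_hi' (h : PWitD E L R A X T z₀ z₁) (h0 : ∃ x ∈ X, ∃ y ∈ X, ¬ E z₀ x y)
    (h1 : ∃ x ∈ X, ∃ y ∈ X, ¬ E z₁ x y) (hs : s ∈ T) (hl : ∃ y ∈ X, y ∉ A z₀ ∧ y ∉ R s) (ha : a ∈ X)
    (ha' : a' ∈ X) (hE : ¬ E s a a') (a1 : a ∈ A z₁) (a1' : a' ∈ A z₁) :
    ∀ x ∈ X, x ∈ A z₀ → x ∈ L s → x ∈ A z₁ := by
  have h2 := (h.swap (A' := fun w => (A w)ᶜ) h0 h1 (fun _ _ => Iff.rfl)
    (fun _ _ => Iff.rfl)).link_sand_lo hs hl ha ha' hE (not_not.2 a1) (not_not.2 a1')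
  intro x hx hx0 hxL
  by_contra h3
  rcases h2 x hx h3 with h4 | h4
  · exact h4 hx0
  · exact h4 hxL

/-- mirror image: the left place contains the wall `z₁` if the link separates two elements between
the walls -/
lemma PWitD.link_sand_lo' (h : PWitD E L R A X T z₀ z₁) (h0 : ∃ x ∈ X, ∃ y ∈ X, ¬ E z₀ x y)
    (h1 : ∃ x ∈ X, ∃ y ∈ X, ¬ E z₁ x y) (inc : ∀ a ∈ X, a ∈ A z₁ → a ∈ A z₀) (hs : s ∈ T)
    (hl : ∃ y ∈ X, y ∉ A z₀ ∧ y ∉ R s) (ha : a ∈ X) (ha' : a' ∈ X) (hE : ¬ E s a a')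
    (a0 : a ∈ A z₀) (a0' : a' ∈ A z₀) (a1 : a ∉ A z₁) (a1' : a' ∉ A z₁) :
    ∀ x ∈ X, x ∈ A z₁ → x ∈ A z₀ ∧ x ∈ L s := by
  have h2 := (h.swap (A' := fun w => (A w)ᶜ) h0 h1 (fun _ _ => Iff.rfl)
    (fun _ _ => Iff.rfl)).link_sand_hi (fun x hx h3 h4 => h3 (inc x hx h4)) hs hl ha ha' hE
    (not_not.2 a0) (not_not.2 a0') a1 a1'
  intro x hx hx1
  refine ⟨inc x hx hx1, ?_⟩
  by_contra h3
  exact h2 x hx (Or.inr h3) hx1

/-! ### Global places -/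

/-- the global place of an exit of the cell `(Lf, X, T, A)` -/
def gPl (A : α → Set α) (Lf X : Set α) (e : α) : Set α := {x | x ∈ Lf ∨ (x ∈ X ∧ x ∈ A e)}

variable {Lf : Set α}

lemma gPl_mono (h : ∀ x ∈ X, x ∈ A z → x ∈ A e) : gPl A Lf X z ⊆ gPl A Lf X e := by
  rintro x (hx | hx)
  exacts [Or.inl hx, Or.inr ⟨hx.1, h x hx.1 hx.2⟩]

/-- an old exit which sees the left child has the same global place there -/
lemma PWitD.gPl_left {A₁ : α → Set α} (h : PWitD E L R A X T z d)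
    (hd : ∃ x ∈ cX X (A z), ∃ y ∈ cX X (A z), ¬ E d x y)
    (hA : ∀ x ∈ cX X (A z), (x ∈ A₁ d ↔ x ∈ A d)) :
    gPl A₁ Lf (cX X (A z)) d = gPl A Lf X d := by
  have h1 := h.sub_of hd
  ext x
  constructor
  · rintro (hx | hx)
    exacts [Or.inl hx, Or.inr ⟨hx.1.1, (hA x hx.1).1 hx.2⟩]
  · rintro (hx | hx)
    · exact Or.inl hx
    · have h2 : x ∈ cX X (A z) := ⟨hx.1, h1 x hx.1 hx.2⟩
      exact Or.inr ⟨h2, (hA x h2).2 hx.2⟩

/-- an old exit which sees the right child contains the wall -/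
lemma PWitD.sup_of (h : PWitD E L R A X T z d)
    (hd : ∃ x ∈ cX X (A z)ᶜ, ∃ y ∈ cX X (A z)ᶜ, ¬ E d x y) : ∀ x ∈ X, x ∈ A z → x ∈ A d := by
  obtain ⟨x, hx, y, hy, hE⟩ := hd
  exact h.sand_lo hx.1 hy.1 hE hx.2 hy.2

/-- an old exit which sees the right child has the same global place there -/
lemma PWitD.gPl_right {A₁ : α → Set α} (h : PWitD E L R A X T z d)
    (hd : ∃ x ∈ cX X (A z)ᶜ, ∃ y ∈ cX X (A z)ᶜ, ¬ E d x y)
    (hA : ∀ x ∈ cX X (A z)ᶜ, (x ∈ A₁ d ↔ x ∈ A d)) :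
    gPl A₁ (Lf ∪ cX X (A z)) (cX X (A z)ᶜ) d = gPl A Lf X d := by
  have h1 := h.sup_of hd
  ext x
  constructor
  · rintro ((hx | hx) | hx)
    exacts [Or.inl hx, Or.inr ⟨hx.1, h1 x hx.1 hx.2⟩, Or.inr ⟨hx.1.1, (hA x hx.1).1 hx.2⟩]
  · rintro (hx | hx)
    · exact Or.inl (Or.inl hx)
    · by_cases h2 : x ∈ A z
      · exact Or.inl (Or.inr ⟨hx.1, h2⟩)
      · have h3 : x ∈ cX X (A z)ᶜ := ⟨hx.1, h2⟩
        exact Or.inr ⟨h3, (hA x h3).2 hx.2⟩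

/-- the global place of a link on the left child = its left place -/
lemma gPl_linkL {A₁ : α → Set α} (hA : ∀ x ∈ cX X (A z), (x ∈ A₁ s ↔ x ∈ L s)) :
    gPl A₁ Lf (cX X (A z)) s = lPl L A Lf X z s := by
  ext x
  constructor
  · rintro (hx | hx)
    exacts [Or.inl hx, Or.inr ⟨hx.1.1, hx.1.2, (hA x hx.1).1 hx.2⟩]
  · rintro (hx | hx)
    · exact Or.inl hx
    · have h2 : x ∈ cX X (A z) := ⟨hx.1, hx.2.1⟩
      exact Or.inr ⟨h2, (hA x h2).2 hx.2.2⟩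

/-- the global place of a link on the right child = its right place -/
lemma gPl_linkR {A₁ : α → Set α} (hA : ∀ x ∈ cX X (A z)ᶜ, (x ∈ A₁ s ↔ x ∉ R s)) :
    gPl A₁ (Lf ∪ cX X (A z)) (cX X (A z)ᶜ) s = rPl R A Lf X z s := by
  ext x
  constructor
  · rintro ((hx | hx) | hx)
    exacts [Or.inl hx, Or.inr ⟨hx.1, Or.inl hx.2⟩, Or.inr ⟨hx.1.1, Or.inr ((hA x hx.1).1 hx.2)⟩]
  · rintro (hx | ⟨hx, h2⟩)
    · exact Or.inl (Or.inl hx)
    · by_cases h3 : x ∈ A z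
      · exact Or.inl (Or.inr ⟨hx, h3⟩)
      · have h4 : x ∈ cX X (A z)ᶜ := ⟨hx, h3⟩
        exact Or.inr ⟨h4, (hA x h4).2 (h2.resolve_left h3)⟩

/-- **(T4)** the right place of a link contains every wall behind which the link separates something -/
lemma PWitD.rPl_lo (h : PWitD E L R A X T z₀ z₁) (hs : s ∈ T) (hl : ∃ y ∈ X, y ∈ A z₀ ∧ y ∉ L s)
    (ha : a ∈ X) (ha' : a' ∈ X) (hE : ¬ E s a a') (a1 : a ∉ A z₁) (a1' : a' ∉ A z₁) :
    gPl A Lf X z₁ ⊆ rPl R A Lf X z₀ s := by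
  rintro x (hx | hx)
  exacts [Or.inl hx, Or.inr ⟨hx.1, h.link_sand_lo hs hl ha ha' hE a1 a1' x hx.1 hx.2⟩]

/-- **(T4)** the right place of a link is contained in every wall `z₁` such that the link separates
something between `z₀` and `z₁` -/
lemma PWitD.rPl_hi (h : PWitD E L R A X T z₀ z₁) (inc : ∀ a ∈ X, a ∈ A z₀ → a ∈ A z₁) (hs : s ∈ T)
    (hl : ∃ y ∈ X, y ∈ A z₀ ∧ y ∉ L s) (ha : a ∈ X) (ha' : a' ∈ X) (hE : ¬ E s a a')
    (a0 : a ∉ A z₀) (a0' : a' ∉ A z₀) (a1 : a ∈ A z₁) (a1' : a' ∈ A z₁) :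
    rPl R A Lf X z₀ s ⊆ gPl A Lf X z₁ := by
  rintro x (hx | hx)
  exacts [Or.inl hx, Or.inr ⟨hx.1, h.link_sand_hi inc hs hl ha ha' hE a0 a0' a1 a1' x hx.1 hx.2⟩]

/-- **(T4)** the left place of a link is contained in every wall before which the link separates
something -/
lemma PWitD.lPl_hi (h : PWitD E L R A X T z₀ z₁) (h0 : ∃ x ∈ X, ∃ y ∈ X, ¬ E z₀ x y)
    (h1 : ∃ x ∈ X, ∃ y ∈ X, ¬ E z₁ x y) (hs : s ∈ T) (hl : ∃ y ∈ X, y ∉ A z₀ ∧ y ∉ R s) (ha : a ∈ X)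
    (ha' : a' ∈ X) (hE : ¬ E s a a') (a1 : a ∈ A z₁) (a1' : a' ∈ A z₁) :
    lPl L A Lf X z₀ s ⊆ gPl A Lf X z₁ := by
  rintro x (hx | hx)
  exacts [Or.inl hx,
    Or.inr ⟨hx.1, h.link_sand_hi' h0 h1 hs hl ha ha' hE a1 a1' x hx.1 hx.2.1 hx.2.2⟩]

/-- **(T4)** the left place of a link contains every wall `z₁` such that the link separates something
between `z₁` and `z₀` -/
lemma PWitD.lPl_lo (h : PWitD E L R A X T z₀ z₁) (h0 : ∃ x ∈ X, ∃ y ∈ X, ¬ E z₀ x y)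
    (h1 : ∃ x ∈ X, ∃ y ∈ X, ¬ E z₁ x y) (inc : ∀ a ∈ X, a ∈ A z₁ → a ∈ A z₀) (hs : s ∈ T)
    (hl : ∃ y ∈ X, y ∉ A z₀ ∧ y ∉ R s) (ha : a ∈ X) (ha' : a' ∈ X) (hE : ¬ E s a a')
    (a0 : a ∈ A z₀) (a0' : a' ∈ A z₀) (a1 : a ∉ A z₁) (a1' : a' ∉ A z₁) :
    gPl A Lf X z₁ ⊆ lPl L A Lf X z₀ s := by
  rintro x (hx | hx)
  exacts [Or.inl hx,
    Or.inr ⟨hx.1, h.link_sand_lo' h0 h1 inc hs hl ha ha' hE a0 a0' a1 a1' x hx.1 hx.2⟩]

end

end TST
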