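import Pool.Agent.TST.LayDef
import Pool.Agent.TST.LayNode

/-!
# The same-row step and the places at a node of the tree of cells (T-star, row R5, helper11)

`Node.frL`, `Node.frR`: a same-row family which is in `T` of the cell and sees a cut label, or a label on
the other side, is free on the child (all four cases).  `Node.rLo`, `Node.rHi`, `Node.lLo`, `Node.lHi`:
its place at a cut label is sandwiched by the walls.
-/

set_option autoImplicit false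

open Set

namespace TST

universe u

section

variable {α : Type u} {E : α → α → α → Prop} {L R : α → Set α} {Dg : Set α} {F : ℕ → ℕ → α}
  {γ : Set ℕ} {K : ℕ} {C : ℕ → ℕ → α} {Lb : Set ℕ} {c : Cell α} {z : ℕ} {d : Bool} {Wz Cz W : Set ℕ}
  {l₁ l₂ h₂ h₁ t i x y : ℕ}

lemma Cell.gp_eq (c : Cell α) (e : α) : c.gp e = gPl c.A c.Lf c.X e := rfl

/-- the families have one pattern on each side of the window on the label `i` -/
def HomE (E : α → α → α → Prop) (F : ℕ → ℕ → α) (γ : Set ℕ) (K : ℕ) (C : ℕ → ℕ → α) (W : Set ℕ)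
    (i : ℕ) : Prop :=
  ∀ e ∈ γ, ∀ y ∈ W, ∀ p < K, ∀ p' < K,
    (p ≤ 5 * y ∧ p' ≤ 5 * y ∨ 5 * y + 5 ≤ p ∧ 5 * y + 5 ≤ p') → E (F e y) (C i p) (C i p')

lemma HomE.other (h : HomE E F γ K C W i) (hx : 5 * x + 5 < K) (hy : y ∈ W) (hxy : x ≠ y) {e : α}
    (he : e ∈ MbF F γ y) {p p' : ℕ} (h1 : 5 * x ≤ p) (h2 : p ≤ 5 * x + 5) (h3 : 5 * x ≤ p')
    (h4 : p' ≤ 5 * x + 5) : E e (C i p) (C i p') := by
  obtain ⟨e', he', rfl⟩ := he
  refine h e' he' y hy p (by omega) p' (by omega) ?_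
  rcases Nat.lt_or_gt_of_ne hxy with h5 | h5
  · left; omega
  · right; omega

/-- the members of the reference of a node: order of the places -/
lemma Node.side (h : Node E L R Dg F γ K C Lb c z d Wz Cz) (hi : i ∈ Cz) {p : ℕ} (hx : x ∈ Wz)
    (hp : p < K) : (p ≤ 5 * x → (C i p ∈ c.A (F z x) ↔ d = true)) ∧
      (5 * x + 5 ≤ p → (C i p ∈ c.A (F z x) ↔ d = false)) :=
  ⟨fun h1 => (h.cut i hi x hx).1 p hp h1, fun h1 => (h.cut i hi x hx).2 p hp h1⟩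

lemma Node.pair (h : Node E L R Dg F γ K C Lb c z d Wz Cz) (hx : x ∈ Wz) (hy : y ∈ Wz)
    (hxy : x ≠ y) : PWitD E L R c.A c.X c.T (F z x) (F z y) :=
  h.fr.walls hx hy hxy trivial (h.exc x hx) (h.exc y hy)

/-- `x` before `y` in the direction `d` -/
def Bef (d : Bool) (x y : ℕ) : Prop := if d = true then x < y else y < x

lemma Bef.ne (h : Bef d x y) : x ≠ y := by
  unfold Bef at h
  split_ifs at h <;> omega

/-- a position of a cut label before / behind a wall -/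
lemma Node.beh (h : Node E L R Dg F γ K C Lb c z d Wz Cz) (hi : i ∈ Cz) (hy : y ∈ Wz)
    (hxK : 5 * x + 5 < K) (hyx : Bef d y x) {p : ℕ} (h1 : 5 * x ≤ p) (h2 : p ≤ 5 * x + 5) :
    C i p ∉ c.A (F z y) := by
  have h3 := h.side hi hy (p := p) (by omega)
  unfold Bef at hyx
  split_ifs at hyx with hd
  · rw [h3.2 (by omega), hd]; simp
  · rw [h3.1 (by omega)]; exact hd

lemma Node.bfr (h : Node E L R Dg F γ K C Lb c z d Wz Cz) (hi : i ∈ Cz) (hy : y ∈ Wz)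
    (hxK : 5 * x + 5 < K) (hxy : Bef d x y) {p : ℕ} (h1 : 5 * x ≤ p) (h2 : p ≤ 5 * x + 5) :
    C i p ∈ c.A (F z y) := by
  have h3 := h.side hi hy (p := p) (by omega)
  unfold Bef at hxy
  split_ifs at hxy with hd
  · rw [h3.1 (by omega), hd]
  · rw [h3.2 (by omega)]; simpa using hd

/-- the walls are nested -/
lemma Node.inc (h : Node E L R Dg F γ K C Lb c z d Wz Cz) (hx : x ∈ Wz) (hy : y ∈ Wz)
    (hxy : Bef d x y) : (∀ a ∈ c.X, a ∈ c.A (F z x) → a ∈ c.A (F z y)) ∧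
      ∃ k ∈ c.X, k ∉ c.A (F z x) ∧ k ∈ c.A (F z y) := by
  obtain ⟨k, hk⟩ := h.ne
  have hwx := h.win x hx
  have hwy := h.win y hy
  have hk2 : ∃ p < K, C k p ∉ c.A (F z x) ∧ C k p ∈ c.A (F z y) := by
    unfold Bef at hxy
    split_ifs at hxy with hd
    · refine ⟨5 * y, by omega, ?_, ?_⟩
      · rw [(h.side hk hx (by omega)).2 (by omega), hd]; simp
      · rw [(h.side hk hy (by omega)).1 (by omega), hd]
    · refine ⟨5 * x, by omega, ?_, ?_⟩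
      · rw [(h.side hk hx (by omega)).1 (by omega)]; exact hd
      · rw [(h.side hk hy (by omega)).2 (by omega)]; simpa using hd
  obtain ⟨p, hp, h1, h2⟩ := hk2
  have hX := (h.lb k hk).2 p hp
  refine ⟨?_, C k p, hX, h1, h2⟩
  rcases (h.pair hx hy hxy.ne).chain with h3 | h3
  · exact h3
  · exact absurd (h3 _ hX h2) h1

lemma Resv.befL (h : Resv Wz W l₁ l₂ h₂ h₁) : Bef d (wl d l₁ h₁) (wl d l₂ h₂) := by
  unfold Bef wl
  split_ifs
  exacts [h.ll, h.hh]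

lemma Resv.befR (h : Resv Wz W l₁ l₂ h₂ h₁) : Bef d (wr d l₂ h₂) (wr d l₁ h₁) := by
  unfold Bef wr
  split_ifs
  exacts [h.hh, h.ll]

lemma Resv.befL1 (h : Resv Wz W l₁ l₂ h₂ h₁) (hx : x ∈ W) : Bef d (wl d l₁ h₁) x := by
  have h1 := h.lo x hx
  have h2 := h.hi x hx
  have h3 := h.ll
  have h4 := h.hh
  unfold Bef wl
  split_ifs <;> omega

lemma Resv.befL2 (h : Resv Wz W l₁ l₂ h₂ h₁) (hx : x ∈ W) : Bef d (wl d l₂ h₂) x := by
  have h1 := h.lo x hx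
  have h2 := h.hi x hx
  unfold Bef wl
  split_ifs <;> omega

lemma Resv.befR1 (h : Resv Wz W l₁ l₂ h₂ h₁) (hx : x ∈ W) : Bef d x (wr d l₁ h₁) := by
  have h1 := h.lo x hx
  have h2 := h.hi x hx
  have h3 := h.ll
  have h4 := h.hh
  unfold Bef wr
  split_ifs <;> omega

lemma Resv.befR2 (h : Resv Wz W l₁ l₂ h₂ h₁) (hx : x ∈ W) : Bef d x (wr d l₂ h₂) := by
  have h1 := h.lo x hx
  have h2 := h.hi x hx
  unfold Bef wr
  split_ifs <;> omega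

lemma Resv.wl₁ (h : Resv Wz W l₁ l₂ h₂ h₁) : wl d l₁ h₁ ∈ Wz := by
  unfold wl
  split_ifs
  exacts [h.ml₁, h.mh₁]

lemma Resv.wl₂ (h : Resv Wz W l₁ l₂ h₂ h₁) : wl d l₂ h₂ ∈ Wz := by
  unfold wl
  split_ifs
  exacts [h.ml₂, h.mh₂]

lemma Resv.wr₁ (h : Resv Wz W l₁ l₂ h₂ h₁) : wr d l₁ h₁ ∈ Wz := by
  unfold wr
  split_ifs
  exacts [h.mh₁, h.ml₁]

lemma Resv.wr₂ (h : Resv Wz W l₁ l₂ h₂ h₁) : wr d l₂ h₂ ∈ Wz := by
  unfold wr
  split_ifs
  exacts [h.mh₂, h.ml₂]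

/-- **Same-row step at a node, left child.** -/
theorem Node.frL (h : Node E L R Dg F γ K C Lb c z d Wz Cz) (hR : Resv Wz W l₁ l₂ h₂ h₁)
    (ht : t ∈ γ) (hT : ∀ x ∈ W, F t x ∈ c.T) (hD : ∀ x ∈ W, F t x ∈ Dg) (hi : InC K C c i)
    (hic : i ∈ Cz ∨ ∀ x ∈ Wz, ∀ p < K, C i p ∉ c.A (F z x)) (hM : HomE E F γ K C W i)
    (hS : ∀ x ∈ W, SeeW E C (F t x) i x) :
    Fr E L R (c.left L R (F z (wl d l₁ h₁))).A Dg (c.left L R (F z (wl d l₁ h₁))).X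
      (c.left L R (F z (wl d l₁ h₁))).T (MbF F γ) univ W (F t) := by
  have hinc := h.inc (d := d) hR.wl₁ hR.wl₂ hR.befL
  have beh : ∀ x ∈ W, ∀ p, 5 * x ≤ p → p ≤ 5 * x + 5 → C i p ∉ c.A (F z (wl d l₂ h₂)) := by
    intro x hx p h1 h2
    have h3 := h.win x (hR.sub hx)
    rcases hic with hic | hic
    · exact h.beh hic hR.wl₂ h3 (hR.befL2 hx) h1 h2
    · exact hic _ hR.wl₂ p (by omega)
  refine (Fr.sameL (Q := univ) (h.pair hR.wl₁ hR.wl₂ hR.befL.ne) hinc.1 hinc.2 ?_ ?_ ?_ ?_).mono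
    (Subset.refl _) (fun x _ => Or.inl trivial)
  · intro e _ he
    exact h.fr.wall_or trivial he hR.wl₁ hR.wl₂ hR.befL.ne (h.exc _ hR.wl₁) (h.exc _ hR.wl₂)
  · exact fun x hx => ⟨hD x hx, hT x hx, t, ht, rfl⟩
  · intro x hx
    obtain ⟨p, p', h1, h2, h3, h4, h5⟩ := hS x hx
    have h6 := h.win x (hR.sub hx)
    exact ⟨C i p, hi p (by omega), C i p', hi p' (by omega), beh x hx p h1 h2, beh x hx p' h3 h4, h5⟩
  · intro x hx y hy hxy
    obtain ⟨p, p', h1, h2, h3, h4, h5⟩ := hS x hx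
    have h6 := h.win x (hR.sub hx)
    exact ⟨C i p, hi p (by omega), C i p', hi p' (by omega), beh x hx p h1 h2, beh x hx p' h3 h4, h5,
      fun e he => hM.other h6 hy hxy he h1 h2 h3 h4⟩

/-- **Same-row step at a node, right child.** -/
theorem Node.frR (h : Node E L R Dg F γ K C Lb c z d Wz Cz) (hR : Resv Wz W l₁ l₂ h₂ h₁)
    (ht : t ∈ γ) (hT : ∀ x ∈ W, F t x ∈ c.T) (hD : ∀ x ∈ W, F t x ∈ Dg) (hi : InC K C c i)
    (hic : i ∈ Cz ∨ ∀ x ∈ Wz, ∀ p < K, C i p ∈ c.A (F z x)) (hM : HomE E F γ K C W i)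
    (hS : ∀ x ∈ W, SeeW E C (F t x) i x) :
    Fr E L R (c.right L R (F z (wr d l₁ h₁))).A Dg (c.right L R (F z (wr d l₁ h₁))).X
      (c.right L R (F z (wr d l₁ h₁))).T (MbF F γ) univ W (F t) := by
  have hinc := h.inc (d := d) hR.wr₂ hR.wr₁ hR.befR
  have bfr : ∀ x ∈ W, ∀ p, 5 * x ≤ p → p ≤ 5 * x + 5 → C i p ∈ c.A (F z (wr d l₂ h₂)) := by
    intro x hx p h1 h2
    have h3 := h.win x (hR.sub hx)
    rcases hic with hic | hic
    · exact h.bfr hic hR.wr₂ h3 (hR.befR2 hx) h1 h2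
    · exact hic _ hR.wr₂ p (by omega)
  obtain ⟨k, hk, hk1, hk2⟩ := hinc.2
  refine (Fr.sameR (Q := univ) (h.pair hR.wr₁ hR.wr₂ hR.befR.ne.symm) (h.exc _ hR.wr₁).2.2
    (h.exc _ hR.wr₂).2.2 hinc.1 ⟨k, hk, hk2, hk1⟩ ?_ ?_ ?_ ?_).mono
    (Subset.refl _) (fun x _ => Or.inl trivial)
  · intro e _ he
    exact h.fr.wall_or trivial he hR.wr₁ hR.wr₂ hR.befR.ne.symm (h.exc _ hR.wr₁) (h.exc _ hR.wr₂)
  · exact fun x hx => ⟨hD x hx, hT x hx, t, ht, rfl⟩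
  · intro x hx
    obtain ⟨p, p', h1, h2, h3, h4, h5⟩ := hS x hx
    have h6 := h.win x (hR.sub hx)
    exact ⟨C i p, hi p (by omega), C i p', hi p' (by omega), bfr x hx p h1 h2, bfr x hx p' h3 h4, h5⟩
  · intro x hx y hy hxy
    obtain ⟨p, p', h1, h2, h3, h4, h5⟩ := hS x hx
    have h6 := h.win x (hR.sub hx)
    exact ⟨C i p, hi p (by omega), C i p', hi p' (by omega), bfr x hx p h1 h2, bfr x hx p' h3 h4, h5,
      fun e he => hM.other h6 hy hxy he h1 h2 h3 h4⟩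

/-! ### The places of a same-row element at a node (T4) -/

/-- `s` leaves the left class in the left child -/
lemma Node.clL (h : Node E L R Dg F γ K C Lb c z d Wz Cz) (hR : Resv Wz W l₁ l₂ h₂ h₁) {s : α}
    (hs : s ∈ c.T) (hl : ∃ a ∈ (c.left L R (F z (wl d l₁ h₁))).X,
      ∃ a' ∈ (c.left L R (F z (wl d l₁ h₁))).X, ¬ E s a a') :
    ∃ y ∈ c.X, y ∈ c.A (F z (wl d l₁ h₁)) ∧ y ∉ L s := by
  obtain ⟨a, ha, a', ha', hE⟩ := hl
  exact (h.pair hR.wl₁ hR.wl₂ (hR.befL (d := d)).ne).left.cl_of hs ha.1 ha'.1 hE ha.2 ha'.2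

/-- `s` leaves the right class in the right child -/
lemma Node.clR (h : Node E L R Dg F γ K C Lb c z d Wz Cz) (hR : Resv Wz W l₁ l₂ h₂ h₁) {s : α}
    (hs : s ∈ c.T) (hl : ∃ a ∈ (c.right L R (F z (wr d l₁ h₁))).X,
      ∃ a' ∈ (c.right L R (F z (wr d l₁ h₁))).X, ¬ E s a a') :
    ∃ y ∈ c.X, y ∉ c.A (F z (wr d l₁ h₁)) ∧ y ∉ R s := by
  obtain ⟨a, ha, a', ha', hE⟩ := hl
  exact (h.pair hR.wr₂ hR.wr₁ (hR.befR (d := d)).ne).left.cr_of hs ha.1 ha'.1 hE ha.2 ha'.2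

/-- the right place of `s` contains the walls before the window `x` -/
theorem Node.rLo (h : Node E L R Dg F γ K C Lb c z d Wz Cz) (hR : Resv Wz W l₁ l₂ h₂ h₁) {s : α}
    (hs : s ∈ c.T) (hl : ∃ a ∈ (c.left L R (F z (wl d l₁ h₁))).X,
      ∃ a' ∈ (c.left L R (F z (wl d l₁ h₁))).X, ¬ E s a a') (hi : i ∈ Cz) (hx : x ∈ W)
    (hS : SeeW E C s i x) (hy : y ∈ W) (hyx : Bef d y x) :
    c.gp (F z y) ⊆ rPl R c.A c.Lf c.X (F z (wl d l₁ h₁)) s := by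
  obtain ⟨p, p', h1, h2, h3, h4, h5⟩ := hS
  have h6 := h.win x (hR.sub hx)
  have hX := (h.lb i hi).2
  exact (h.pair hR.wl₁ (hR.sub hy) (hR.befL1 hy).ne).rPl_lo hs (h.clL hR hs hl) (hX p (by omega))
    (hX p' (by omega)) h5 (h.beh hi (hR.sub hy) h6 hyx h1 h2) (h.beh hi (hR.sub hy) h6 hyx h3 h4)

/-- the right place of `s` is contained in the walls behind the window `x` -/
theorem Node.rHi (h : Node E L R Dg F γ K C Lb c z d Wz Cz) (hR : Resv Wz W l₁ l₂ h₂ h₁) {s : α}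
    (hs : s ∈ c.T) (hl : ∃ a ∈ (c.left L R (F z (wl d l₁ h₁))).X,
      ∃ a' ∈ (c.left L R (F z (wl d l₁ h₁))).X, ¬ E s a a') (hi : i ∈ Cz) (hx : x ∈ W)
    (hS : SeeW E C s i x) (hy : y ∈ W) (hxy : Bef d x y) :
    rPl R c.A c.Lf c.X (F z (wl d l₁ h₁)) s ⊆ c.gp (F z y) := by
  obtain ⟨p, p', h1, h2, h3, h4, h5⟩ := hS
  have h6 := h.win x (hR.sub hx)
  have hX := (h.lb i hi).2
  exact (h.pair hR.wl₁ (hR.sub hy) (hR.befL1 hy).ne).rPl_hi
    (h.inc hR.wl₁ (hR.sub hy) (hR.befL1 hy)).1 hs (h.clL hR hs hl) (hX p (by omega))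
    (hX p' (by omega)) h5 (h.beh hi hR.wl₁ h6 (hR.befL1 hx) h1 h2)
    (h.beh hi hR.wl₁ h6 (hR.befL1 hx) h3 h4) (h.bfr hi (hR.sub hy) h6 hxy h1 h2)
    (h.bfr hi (hR.sub hy) h6 hxy h3 h4)

/-- the left place of `s` contains the walls before the window `x` -/
theorem Node.lLo (h : Node E L R Dg F γ K C Lb c z d Wz Cz) (hR : Resv Wz W l₁ l₂ h₂ h₁) {s : α}
    (hs : s ∈ c.T) (hl : ∃ a ∈ (c.right L R (F z (wr d l₁ h₁))).X,
      ∃ a' ∈ (c.right L R (F z (wr d l₁ h₁))).X, ¬ E s a a') (hi : i ∈ Cz) (hx : x ∈ W)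
    (hS : SeeW E C s i x) (hy : y ∈ W) (hyx : Bef d y x) :
    c.gp (F z y) ⊆ lPl L c.A c.Lf c.X (F z (wr d l₁ h₁)) s := by
  obtain ⟨p, p', h1, h2, h3, h4, h5⟩ := hS
  have h6 := h.win x (hR.sub hx)
  have hX := (h.lb i hi).2
  exact (h.pair (hR.sub hy) hR.wr₁ (hR.befR1 hy).ne).symm.lPl_lo (h.exc _ hR.wr₁).2.2
    (h.exc _ (hR.sub hy)).2.2 (h.inc (hR.sub hy) hR.wr₁ (hR.befR1 hy)).1 hs (h.clR hR hs hl)
    (hX p (by omega)) (hX p' (by omega)) h5 (h.bfr hi hR.wr₁ h6 (hR.befR1 hx) h1 h2)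
    (h.bfr hi hR.wr₁ h6 (hR.befR1 hx) h3 h4) (h.beh hi (hR.sub hy) h6 hyx h1 h2)
    (h.beh hi (hR.sub hy) h6 hyx h3 h4)

/-- the left place of `s` is contained in the walls behind the window `x` -/
theorem Node.lHi (h : Node E L R Dg F γ K C Lb c z d Wz Cz) (hR : Resv Wz W l₁ l₂ h₂ h₁) {s : α}
    (hs : s ∈ c.T) (hl : ∃ a ∈ (c.right L R (F z (wr d l₁ h₁))).X,
      ∃ a' ∈ (c.right L R (F z (wr d l₁ h₁))).X, ¬ E s a a') (hi : i ∈ Cz) (hx : x ∈ W)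
    (hS : SeeW E C s i x) (hy : y ∈ W) (hxy : Bef d x y) :
    lPl L c.A c.Lf c.X (F z (wr d l₁ h₁)) s ⊆ c.gp (F z y) := by
  obtain ⟨p, p', h1, h2, h3, h4, h5⟩ := hS
  have h6 := h.win x (hR.sub hx)
  have hX := (h.lb i hi).2
  exact (h.pair (hR.sub hy) hR.wr₁ (hR.befR1 hy).ne).symm.lPl_hi (h.exc _ hR.wr₁).2.2
    (h.exc _ (hR.sub hy)).2.2 hs (h.clR hR hs hl) (hX p (by omega)) (hX p' (by omega)) h5
    (h.bfr hi (hR.sub hy) h6 hxy h1 h2) (h.bfr hi (hR.sub hy) h6 hxy h3 h4)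

/-- the global place of a link on the left child -/
lemma Cell.gp_linkL (c : Cell α) {w s : α} (hs : s ∈ c.T) :
    (c.left L R w).gp s = lPl L c.A c.Lf c.X w s :=
  gPl_linkL (fun _ _ => mem_cA_T hs)

/-- the global place of a link on the right child -/
lemma Cell.gp_linkR (c : Cell α) {w s : α} (hs : s ∈ c.T) :
    (c.right L R w).gp s = rPl R c.A c.Lf c.X w s :=
  gPl_linkR (fun _ _ => mem_cB_T hs)

/-- the global place of an old exit does not change -/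
lemma Cell.gp_left (c : Cell α) {w e : α} (h : PWitD E L R c.A c.X c.T w e) (he : e ∉ c.T)
    (hd : ∃ x ∈ (c.left L R w).X, ∃ y ∈ (c.left L R w).X, ¬ E e x y) :
    (c.left L R w).gp e = c.gp e :=
  h.gPl_left hd (fun _ _ => mem_cA_n he)

lemma Cell.gp_right (c : Cell α) {w e : α} (h : PWitD E L R c.A c.X c.T w e) (he : e ∉ c.T)
    (hd : ∃ x ∈ (c.right L R w).X, ∃ y ∈ (c.right L R w).X, ¬ E e x y) :
    (c.right L R w).gp e = c.gp e :=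
  h.gPl_right hd (fun _ _ => mem_cB_n he)

/-! ### Cells on the full row -/

/-- invariants of a cell of the row `row` -/
structure CInv (L R : α → Set α) (row : Set α) (c : Cell α) : Prop where
  Lf_sub : c.Lf ⊆ row
  X_sub : c.X ⊆ row
  dis : Disjoint c.Lf c.X
  tl : ∀ s ∈ c.T, ∀ x ∈ c.Lf, x ∈ L s
  tr : ∀ s ∈ c.T, ∀ x ∈ row, x ∉ c.Lf → x ∉ c.X → x ∈ R s

lemma CInv.root {row T : Set α} {A : α → Set α} : CInv L R row ⟨∅, row, T, A⟩ where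
  Lf_sub := empty_subset _
  X_sub := Subset.refl _
  dis := empty_disjoint _
  tl := fun _ _ _ h => absurd h (notMem_empty _)
  tr := fun _ _ _ hx _ hn => absurd hx hn

lemma CInv.left {row : Set α} (h : CInv L R row c) (w : α) : CInv L R row (c.left L R w) where
  Lf_sub := h.Lf_sub
  X_sub := fun _ hx => h.X_sub hx.1
  dis := h.dis.mono_right fun _ hx => hx.1
  tl := fun s hs => h.tl s hs.1
  tr := by
    intro s hs x hx h1 h2
    by_cases h3 : x ∈ c.X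
    · exact hs.2 x h3 fun h4 => h2 ⟨h3, h4⟩
    · exact h.tr s hs.1 x hx h1 h3

lemma CInv.right {row : Set α} (h : CInv L R row c) (w : α) : CInv L R row (c.right L R w) where
  Lf_sub := by
    rintro x (hx | hx)
    exacts [h.Lf_sub hx, h.X_sub hx.1]
  X_sub := fun _ hx => h.X_sub hx.1
  dis := by
    rw [disjoint_left]
    rintro x (hx | hx) hx'
    · exact disjoint_left.1 h.dis hx hx'.1
    · exact hx'.2 hx.2
  tl := by
    rintro s hs x (hx | hx)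
    · exact h.tl s hs.1 x hx
    · exact hs.2 x hx.1 fun h1 => h1 hx.2
  tr := by
    intro s hs x hx h1 h2
    refine h.tr s hs.1 x hx (fun h3 => h1 (Or.inl h3)) fun h3 => ?_
    by_cases h4 : x ∈ c.A w
    · exact h1 (Or.inr ⟨h3, h4⟩)
    · exact h2 ⟨h3, h4⟩

/-! ### `PlSame` at a node -/

/-- `PlSame` for an element of `T` which separates something on both sides of an exit `w` -/
lemma CInv.plSame {row : Set α} (hc : CInv L R row c) {w s a a' b b' : α}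
    (h : PWitB E L R c.A c.X c.T w) (hs : s ∈ c.T) (ha : a ∈ c.X) (ha' : a' ∈ c.X)
    (hE : ¬ E s a a') (a1 : a ∈ c.A w) (a1' : a' ∈ c.A w) (hb : b ∈ c.X) (hb' : b' ∈ c.X)
    (hE' : ¬ E s b b') (b1 : b ∉ c.A w) (b1' : b' ∉ c.A w) :
    PlSame E row (L s) (R s) s (lPl L c.A c.Lf c.X w s) (rPl R c.A c.Lf c.X w s) := by
  obtain ⟨u, hu, huA, huL⟩ := h.cl_of hs ha ha' hE a1 a1'
  obtain ⟨y, hy, hyA, hyR⟩ := h.cr_of hs hb hb' hE' b1 b1'
  refine h.plSame hs hu huA huL hy hyA hyR hc.Lf_sub hc.X_sub hc.dis (hc.tl s hs) (hc.tr s hs) ?_ ?_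
  · rw [h.link_lo hs hu huA huL hy hyA hyR ha a1 ha' a1'] at hE
    by_cases h1 : a ∈ L s
    · exact ⟨a, Or.inr ⟨ha, a1, h1⟩⟩
    · refine ⟨a', Or.inr ⟨ha', a1', ?_⟩⟩
      by_contra h2
      exact hE ⟨fun h3 => absurd h3 h1, fun h3 => absurd h3 h2⟩
  · rw [h.link_hi hs hu huA huL hy hyA hyR hb b1 hb' b1'] at hE'
    have key : ∀ x ∈ c.X, x ∉ c.A w → x ∈ R s → ∃ x ∈ row, x ∉ rPl R c.A c.Lf c.X w s := by
      intro x hx hxA hxR
      refine ⟨x, hc.X_sub hx, ?_⟩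
      rintro (h1 | ⟨h1, h2 | h2⟩)
      exacts [disjoint_left.1 hc.dis h1 hx, hxA h2, h2 hxR]
    by_cases h1 : b ∈ R s
    · exact key b hb b1 h1
    · refine key b' hb' b1' ?_
      by_contra h2
      exact hE' ⟨fun h3 => absurd h3 h1, fun h3 => absurd h3 h2⟩

/-- `s` sees the left child and a cut label -/
theorem Node.plL {row : Set α} (h : Node E L R Dg F γ K C Lb c z d Wz Cz)
    (hR : Resv Wz W l₁ l₂ h₂ h₁) (hc : CInv L R row c) {s : α} (hs : s ∈ c.T)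
    (hl : ∃ a ∈ (c.left L R (F z (wl d l₁ h₁))).X,
      ∃ a' ∈ (c.left L R (F z (wl d l₁ h₁))).X, ¬ E s a a') (hi : i ∈ Cz) (hx : x ∈ W)
    (hS : SeeW E C s i x) :
    PlSame E row (L s) (R s) s (lPl L c.A c.Lf c.X (F z (wl d l₁ h₁)) s)
      (rPl R c.A c.Lf c.X (F z (wl d l₁ h₁)) s) := by
  obtain ⟨p, p', h1, h2, h3, h4, h5⟩ := hS
  obtain ⟨a, ha, a', ha', hE⟩ := hl
  have h6 := h.win x (hR.sub hx)
  have hX := (h.lb i hi).2
  exact hc.plSame (h.pair hR.wl₁ hR.wl₂ (hR.befL (d := d)).ne).left hs ha.1 ha'.1 hE ha.2 ha'.2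
    (hX p (by omega)) (hX p' (by omega)) h5 (h.beh hi hR.wl₁ h6 (hR.befL1 hx) h1 h2)
    (h.beh hi hR.wl₁ h6 (hR.befL1 hx) h3 h4)

/-- `s` sees the right child and a cut label -/
theorem Node.plR {row : Set α} (h : Node E L R Dg F γ K C Lb c z d Wz Cz)
    (hR : Resv Wz W l₁ l₂ h₂ h₁) (hc : CInv L R row c) {s : α} (hs : s ∈ c.T)
    (hl : ∃ a ∈ (c.right L R (F z (wr d l₁ h₁))).X,
      ∃ a' ∈ (c.right L R (F z (wr d l₁ h₁))).X, ¬ E s a a') (hi : i ∈ Cz) (hx : x ∈ W)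
    (hS : SeeW E C s i x) :
    PlSame E row (L s) (R s) s (lPl L c.A c.Lf c.X (F z (wr d l₁ h₁)) s)
      (rPl R c.A c.Lf c.X (F z (wr d l₁ h₁)) s) := by
  obtain ⟨p, p', h1, h2, h3, h4, h5⟩ := hS
  obtain ⟨a, ha, a', ha', hE⟩ := hl
  have h6 := h.win x (hR.sub hx)
  have hX := (h.lb i hi).2
  exact hc.plSame (h.pair hR.wr₂ hR.wr₁ (hR.befR (d := d)).ne).right hs (hX p (by omega))
    (hX p' (by omega)) h5 (h.bfr hi hR.wr₁ h6 (hR.befR1 hx) h1 h2)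
    (h.bfr hi hR.wr₁ h6 (hR.befR1 hx) h3 h4) ha.1 ha'.1 hE ha.2 ha'.2

lemma Resv.befLR (h : Resv Wz W l₁ l₂ h₂ h₁) : Bef d (wl d l₁ h₁) (wr d l₁ h₁) := by
  have h1 := h.ll
  have h2 := h.hh
  have h3 := h.lh
  unfold Bef wl wr
  split_ifs <;> omega

/-- `s` sees both children -/
theorem Node.plLR {row : Set α} (h : Node E L R Dg F γ K C Lb c z d Wz Cz)
    (hR : Resv Wz W l₁ l₂ h₂ h₁) (hc : CInv L R row c) {s : α} (hs : s ∈ c.T)
    (hl : ∃ a ∈ (c.left L R (F z (wl d l₁ h₁))).X,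
      ∃ a' ∈ (c.left L R (F z (wl d l₁ h₁))).X, ¬ E s a a')
    (hr : ∃ a ∈ (c.right L R (F z (wr d l₁ h₁))).X,
      ∃ a' ∈ (c.right L R (F z (wr d l₁ h₁))).X, ¬ E s a a') :
    PlSame E row (L s) (R s) s (lPl L c.A c.Lf c.X (F z (wl d l₁ h₁)) s)
      (rPl R c.A c.Lf c.X (F z (wr d l₁ h₁)) s) := by
  obtain ⟨u, hu, huA, huL⟩ := h.clL hR hs hl
  obtain ⟨y, hy, hyA, hyR⟩ := h.clR hR hs hr
  obtain ⟨a, ha, a', ha', hE⟩ := hl
  obtain ⟨b, hb, b', hb', hE'⟩ := hr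
  have hp := h.pair hR.wl₁ hR.wr₁ (hR.befLR (d := d)).ne
  have inc := (h.inc hR.wl₁ hR.wr₁ (hR.befLR (d := d))).1
  rw [← hp.rPl_eq inc hs hu huA huL hy hyA hyR]
  exact hc.plSame hp.left hs ha.1 ha'.1 hE ha.2 ha'.2 hb.1 hb'.1 hE'
    (fun h1 => hb.2 (inc b hb.1 h1)) (fun h1 => hb'.2 (inc b' hb'.1 h1))

end

end TST
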