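import Pool.Agent.TST.LayFar

/-!
# Nested places and separation of tiles (label level of T-star, helper45)

`RefOrd`: the order of the references of all cut labels (facts T5 of the trees).  `SandP W d G P`: the
places `P x` of a family are sandwiched by the reference places `G y` of a cut label.
-/

set_option autoImplicit false

open Set

namespace TST

universe u v w

section

variable {α : Type u} {β : Type v}

/-- **Order of the references**: `D` = the data of the cut labels of all rows. -/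
structure RefOrd (K : ℕ) (C : ℕ → ℕ → α) (R : ℕ → β) (W : Set ℕ) (D : Set (Cd α)) : Prop where
  win : ∀ x ∈ W, 5 * x + 5 < K
  side : ∀ q ∈ D, ∀ x ∈ W, SideW K C q.d (q.G x) q.k x
  mono : ∀ q ∈ D, ∀ x ∈ W, ∀ y ∈ W, x < y →
    (q.d = true → q.G x ⊆ q.G y) ∧ (q.d = false → q.G y ⊆ q.G x)
  ord : ∀ q ∈ D, ∀ q' ∈ D, R q.k = R q'.k → (q.z = q'.z ∧ q.d = q'.d ∧ q.G = q'.G) ∨
    (∀ x ∈ W, ∀ y ∈ W, q.G x ⊆ q'.G y) ∨ ∀ x ∈ W, ∀ y ∈ W, q'.G y ⊆ q.G x

/-- **Sandwich**: the places `P x` are between the reference places of the neighbouring windows. -/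
structure SandP (W : Set ℕ) (d : Bool) (G P : ℕ → Set α) : Prop where
  lo : ∀ x ∈ W, ∀ y ∈ W, y < x → (d = true → G y ⊆ P x) ∧ (d = false → P x ⊆ G y)
  hi : ∀ x ∈ W, ∀ y ∈ W, x < y → (d = true → P x ⊆ G y) ∧ (d = false → G y ⊆ P x)

variable {K : ℕ} {C : ℕ → ℕ → α} {R : ℕ → β} {W : Set ℕ} {D : Set (Cd α)} {q q' : Cd α}
  {P P' : ℕ → Set α}

/-- below the place there is a reference place -/
lemma SandP.below {d : Bool} {G : ℕ → Set α} (h : SandP W d G P) {x a b : ℕ} (hx : x ∈ W)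
    (ha : a ∈ W) (hb : b ∈ W) (hax : a < x) (hxb : x < b) : ∃ y, (y = a ∨ y = b) ∧ G y ⊆ P x := by
  cases d
  · exact ⟨b, Or.inr rfl, (h.hi x hx b hb hxb).2 rfl⟩
  · exact ⟨a, Or.inl rfl, (h.lo x hx a ha hax).1 rfl⟩

/-- above the place there is a reference place -/
lemma SandP.above {d : Bool} {G : ℕ → Set α} (h : SandP W d G P) {x a b : ℕ} (hx : x ∈ W)
    (ha : a ∈ W) (hb : b ∈ W) (hax : a < x) (hxb : x < b) : ∃ y, (y = a ∨ y = b) ∧ P x ⊆ G y := by
  cases d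
  · exact ⟨a, Or.inl rfl, (h.lo x hx a ha hax).2 rfl⟩
  · exact ⟨b, Or.inr rfl, (h.hi x hx b hb hxb).1 rfl⟩

/-- **Places on one row are nested** (windows `a < x < y < x' < b`). -/
theorem RefOrd.nest (hO : RefOrd K C R W D) (hq : q ∈ D) (hq' : q' ∈ D) (hr : R q.k = R q'.k)
    (hP : SandP W q.d q.G P) (hP' : SandP W q'.d q'.G P') {a x y x' b : ℕ} (ha : a ∈ W)
    (hx : x ∈ W) (hy : y ∈ W) (hx' : x' ∈ W) (hb : b ∈ W) (h1 : a < x) (h2 : x < y) (h3 : y < x')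
    (h4 : x' < b) : P x ⊆ P' x' ∨ P' x' ⊆ P x := by
  rcases hO.ord q hq q' hq' hr with ⟨-, hd, hG⟩ | h5 | h5
  · rw [← hG, ← hd] at hP'
    cases hqd : q.d
    · right
      exact ((hP'.lo x' hx' y hy h3).2 hqd).trans ((hP.hi x hx y hy h2).2 hqd)
    · left
      exact ((hP.hi x hx y hy h2).1 hqd).trans ((hP'.lo x' hx' y hy h3).1 hqd)
  · left
    obtain ⟨u, hu, h6⟩ := hP.above hx ha hy h1 h2
    obtain ⟨v, hv, h7⟩ := hP'.below hx' hy hb h3 h4
    have huW : u ∈ W := by rcases hu with rfl | rfl <;> assumption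
    have hvW : v ∈ W := by rcases hv with rfl | rfl <;> assumption
    exact h6.trans ((h5 u huW v hvW).trans h7)
  · right
    obtain ⟨u, hu, h6⟩ := hP.below hx ha hy h1 h2
    obtain ⟨v, hv, h7⟩ := hP'.above hx' hy hb h3 h4
    have huW : u ∈ W := by rcases hu with rfl | rfl <;> assumption
    have hvW : v ∈ W := by rcases hv with rfl | rfl <;> assumption
    exact h7.trans ((h5 u huW v hvW).trans h6)

/-- **A place separates the tiles before the window from the tiles behind the window.** -/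
theorem RefOrd.split (hO : RefOrd K C R W D) (hq : q ∈ D) (hP : SandP W q.d q.G P)
    {a x b p p' : ℕ} (ha : a ∈ W) (hx : x ∈ W) (hb : b ∈ W) (h1 : a < x) (h2 : x < b)
    (hp : p < K) (hp' : p' < K) (h3 : p ≤ 5 * a) (h4 : 5 * b + 5 ≤ p') :
    (C q.k p ∈ P x ↔ q.d = true) ∧ (C q.k p' ∈ P x ↔ q.d = false) := by
  have s1 := (hO.side q hq a ha).1 p hp h3
  have s2 := (hO.side q hq b hb).2 p' hp' h4
  cases hd : q.d
  · rw [hd] at s1 s2
    refine ⟨⟨fun h => ?_, fun h => absurd h (by simp)⟩, ⟨fun _ => rfl, fun _ => ?_⟩⟩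
    · exact absurd (s1.1 ((hP.lo x hx a ha h1).2 hd h)) (by simp)
    · exact (hP.hi x hx b hb h2).2 hd (s2.2 rfl)
  · rw [hd] at s1 s2
    refine ⟨⟨fun _ => rfl, fun _ => ?_⟩, ⟨fun h => ?_, fun h => absurd h (by simp)⟩⟩
    · exact (hP.lo x hx a ha h1).1 hd (s1.2 rfl)
    · exact absurd (s2.1 ((hP.hi x hx b hb h2).1 hd h)) (by simp)

/-- the two places of a same-row family which are sandwiched by different references: the reference
places of the first label are contained in the ones of the second label -/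
theorem RefOrd.two (hO : RefOrd K C R W D) (hq : q ∈ D) (hq' : q' ∈ D) (hr : R q.k = R q'.k)
    (hne : q.z ≠ q'.z) (hP : SandP W q.d q.G P) (hP' : SandP W q'.d q'.G P')
    {a₀ a x b b₀ : ℕ} (hle : P x ⊆ P' x) (ha₀ : a₀ ∈ W) (ha : a ∈ W) (hx : x ∈ W) (hb : b ∈ W)
    (hb₀ : b₀ ∈ W) (h0 : a₀ < a) (h1 : a < x) (h2 : x < b) (h3 : b < b₀) :
    ∀ y ∈ W, ∀ y' ∈ W, q.G y ⊆ q'.G y' := by
  rcases hO.ord q hq q' hq' hr with ⟨h4, -⟩ | h4 | h4
  · exact absurd h4 hne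
  · exact h4
  · exfalso
    obtain ⟨v, hv, h5⟩ := hP'.above hx ha hb h1 h2
    have hvW : v ∈ W := by rcases hv with rfl | rfl <;> assumption
    have wa := hO.win a ha
    have wb := hO.win b hb
    cases hd : q.d
    · have h6 : q.G b ⊆ q.G b₀ :=
        ((hP.hi x hx b hb h2).2 hd).trans (hle.trans (h5.trans (h4 b₀ hb₀ v hvW)))
      have t1 := (hO.side q hq b hb).2 (5 * b + 5) wb le_rfl
      have t2 := (hO.side q hq b₀ hb₀).1 (5 * b + 5) wb (by omega)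
      rw [hd] at t1 t2
      exact absurd (t2.1 (h6 (t1.2 rfl))) (by simp)
    · have h6 : q.G a ⊆ q.G a₀ :=
        ((hP.lo x hx a ha h1).1 hd).trans (hle.trans (h5.trans (h4 a₀ ha₀ v hvW)))
      have t1 := (hO.side q hq a ha).1 (5 * a) (by omega) le_rfl
      have t2 := (hO.side q hq a₀ ha₀).2 (5 * a) (by omega) (by omega)
      rw [hd] at t1 t2
      exact absurd (t2.1 (h6 (t1.2 rfl))) (by simp)

/-- the tiles of the first label are inside of the second place -/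
theorem RefOrd.inside (hO : RefOrd K C R W D) (hq : q ∈ D)
    (hle : ∀ y ∈ W, ∀ y' ∈ W, q.G y ⊆ q'.G y') (hP' : SandP W q'.d q'.G P')
    {a₀ a x b b₀ p : ℕ} (ha₀ : a₀ ∈ W) (ha : a ∈ W) (hx : x ∈ W) (hb : b ∈ W) (hb₀ : b₀ ∈ W)
    (h1 : a < x) (h2 : x < b) (hp : p < K) (h3 : 5 * a₀ + 5 ≤ p) (h4 : p ≤ 5 * b₀) :
    C q.k p ∈ P' x := by
  obtain ⟨v, hv, h5⟩ := hP'.below hx ha hb h1 h2
  have hvW : v ∈ W := by rcases hv with rfl | rfl <;> assumption
  refine h5 ?_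
  cases hd : q.d
  · have t1 := (hO.side q hq a₀ ha₀).2 p hp h3
    exact hle a₀ ha₀ v hvW (t1.2 hd)
  · have t1 := (hO.side q hq b₀ hb₀).1 p hp h4
    exact hle b₀ hb₀ v hvW (t1.2 hd)

/-- the tiles of the second label are outside of the first place -/
theorem RefOrd.outside (hO : RefOrd K C R W D) (hq' : q' ∈ D)
    (hle : ∀ y ∈ W, ∀ y' ∈ W, q.G y ⊆ q'.G y') (hP : SandP W q.d q.G P)
    {a₀ a x b b₀ p : ℕ} (ha₀ : a₀ ∈ W) (ha : a ∈ W) (hx : x ∈ W) (hb : b ∈ W) (hb₀ : b₀ ∈ W)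
    (h1 : a < x) (h2 : x < b) (hp : p < K) (h3 : 5 * a₀ + 5 ≤ p) (h4 : p ≤ 5 * b₀) :
    C q'.k p ∉ P x := by
  intro hmem
  obtain ⟨v, hv, h5⟩ := hP.above hx ha hb h1 h2
  have hvW : v ∈ W := by rcases hv with rfl | rfl <;> assumption
  have h6 := h5 hmem
  cases hd : q'.d
  · have t1 := (hO.side q' hq' b₀ hb₀).1 p hp h4
    exact absurd (t1.1 (hle v hvW b₀ hb₀ h6)) (by rw [hd]; simp)
  · have t1 := (hO.side q' hq' a₀ ha₀).2 p hp h3
    exact absurd (t1.1 (hle v hvW a₀ ha₀ h6)) (by rw [hd]; simp)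

end

section

variable {α : Type u} {E : α → α → α → Prop} {X L R' P₁ P₂ : Set α} {t a b : α}

/-- a same-row element separates elements on different sides of its first place (inside of the second) -/
lemma PlSame.sep₁ (h : PlSame E X L R' t P₁ P₂) (hL : ∀ x ∈ X, ∀ y ∈ X, E t x y → (x ∈ L ↔ y ∈ L))
    (ha : a ∈ P₁) (hb : b ∈ P₂) (hb' : b ∉ P₁) : ¬ E t a b ∧ ¬ E t b a := by
  have haX := h.sub (h.le ha)
  have hbX := h.sub hb
  refine ⟨fun h1 => (h.mid b hb hb').1 ((hL a haX b hbX h1).1 (h.lft a ha)), fun h1 =>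
    (h.mid b hb hb').1 ((hL b hbX a haX h1).2 (h.lft a ha))⟩

/-- .. or of its second place (outside of the first) -/
lemma PlSame.sep₂ (h : PlSame E X L R' t P₁ P₂) (hR : ∀ x ∈ X, ∀ y ∈ X, E t x y → (x ∈ R' ↔ y ∈ R'))
    (ha : a ∈ P₂) (ha' : a ∉ P₁) (hbX : b ∈ X) (hb : b ∉ P₂) : ¬ E t a b ∧ ¬ E t b a := by
  have haX := h.sub ha
  refine ⟨fun h1 => (h.mid a ha ha').2 ((hR a haX b hbX h1).2 (h.rgt b hbX hb)), fun h1 =>
    (h.mid a ha ha').2 ((hR b hbX a haX h1).1 (h.rgt b hbX hb))⟩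

end

end TST
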