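import Pool.Agent.TST.LayTree
import Pool.Agent.TST.LayNd
import Pool.Agent.TST.LayNest

/-!
# Sandwiches over the tree of cells (T-star, row R5: T3, T4; helper11)

`GT.exit_sand` (T4a): the global place of an exit family is sandwiched by the reference of every cut
label which it sees.  `GT.exit_same` (T3): an exit which sees two labels of the cell, one of them cut:
both are cut by the same reference.  `GT.same_sand` (T4): a same-row family which sees two cut labels.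
-/

set_option autoImplicit false

open Set

namespace TST

universe u

section

variable {α : Type u} {E : α → α → α → Prop} {L R : α → Set α} {Dg : Set α} {F : ℕ → ℕ → α}
  {γ : Set ℕ} {K : ℕ} {C : ℕ → ℕ → α} {Lb : Set ℕ} {Qc : Cell α → Prop} {c : Cell α}
  {W W' Wz Cz : Set ℕ} {D D₁ D₂ : Set (Cd α)} {z t j k i x y : ℕ} {d : Bool} {e s : α}
  {l₁ l₂ h₂ h₁ : ℕ} {q q' : Cd α}

lemma bef_bf : Bef d x y ↔ Bf d x y := by
  unfold Bef Bf
  cases d <;> simp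

lemma SandP.congr {G P P' : ℕ → Set α} (h : SandP W d G P) (hP : ∀ x ∈ W, P' x = P x) :
    SandP W d G P' := by
  refine ⟨fun x hx y hy hyx => ?_, fun x hx y hy hxy => ?_⟩
  · rw [hP x hx]; exact h.lo x hx y hy hyx
  · rw [hP x hx]; exact h.hi x hx y hy hxy

lemma SandP.of {G P : ℕ → Set α} (h1 : ∀ x ∈ W, ∀ y ∈ W, Bef d y x → G y ⊆ P x)
    (h2 : ∀ x ∈ W, ∀ y ∈ W, Bef d x y → P x ⊆ G y) : SandP W d G P := by
  refine ⟨fun x hx y hy hyx => ⟨fun hd => h1 x hx y hy ?_, fun hd => h2 x hx y hy ?_⟩,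
    fun x hx y hy hxy => ⟨fun hd => h2 x hx y hy ?_, fun hd => h1 x hx y hy ?_⟩⟩
  all_goals (unfold Bef; simp [hd]; omega)

/-- the exit sees the child -/
lemma ExC.leftC {w : α} (h : ExC E Dg c.X c.T e)
    (hs : ∃ a ∈ (c.left L R w).X, ∃ a' ∈ (c.left L R w).X, ¬ E e a a') :
    ExC E Dg (c.left L R w).X (c.left L R w).T e := ⟨h.1, fun h1 => h.2.1 h1.1, hs⟩

lemma ExC.rightC {w : α} (h : ExC E Dg c.X c.T e)
    (hs : ∃ a ∈ (c.right L R w).X, ∃ a' ∈ (c.right L R w).X, ¬ E e a a') :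
    ExC E Dg (c.right L R w).X (c.right L R w).T e := ⟨h.1, fun h1 => h.2.1 h1.1, hs⟩

lemma SeeW.sees (h : SeeW E C e k x) (hk : InC K C c k) (hx : 5 * x + 5 < K) :
    ∃ a ∈ c.X, ∃ a' ∈ c.X, ¬ E e a a' := by
  obtain ⟨p, p', h1, h2, h3, h4, h5⟩ := h
  exact ⟨C k p, hk p (by omega), C k p', hk p' (by omega), h5⟩

/-- **(T4a)** -/
theorem GT.exit_sand (h : GT E L R Dg F γ K C Lb Qc c W D) (ht : t ∈ γ)
    (he : ∀ x ∈ W, ExC E Dg c.X c.T (F t x)) (hq : q ∈ D)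
    (hS : ∀ x ∈ W, SeeW E C (F t x) q.k x) : SandP W q.d q.G (fun x => c.gp (F t x)) := by
  induction h with
  | leaf c W hS hQ => exact absurd hq (notMem_empty q)
  | node c W z d Wz Cz D₁ D₂ l₁ l₂ h₂ h₁ hcS hQ hN hR h₁' h₂' ih₁ ih₂ =>
    have hM : ∀ x, F t x ∈ MbF F γ x := fun x => ⟨t, ht, rfl⟩
    rcases hq with (hq | hq) | hq
    · obtain ⟨q1, q2, q3, q4⟩ := hq
      rw [q3, q4]
      have hX := (hN.lb _ q1).2
      refine SandP.of (fun x hx y hy hyx => ?_) (fun x hx y hy hxy => ?_)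
      · obtain ⟨p, p', h1, h2, h3, h4, h5⟩ := hS x hx
        have h6 := hN.win x (hR.sub hx)
        exact gPl_mono ((hN.pwM (hR.sub hx) (hM x) (he x hx) (hR.sub hy) hyx.ne.symm).sand_lo
          (hX p (by omega)) (hX p' (by omega)) h5 (hN.beh q1 (hR.sub hy) h6 hyx h1 h2)
          (hN.beh q1 (hR.sub hy) h6 hyx h3 h4))
      · obtain ⟨p, p', h1, h2, h3, h4, h5⟩ := hS x hx
        have h6 := hN.win x (hR.sub hx)
        exact gPl_mono ((hN.pwM (hR.sub hx) (hM x) (he x hx) (hR.sub hy) hxy.ne).sand_hi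
          (hX p (by omega)) (hX p' (by omega)) h5 (hN.bfr q1 (hR.sub hy) h6 hxy h1 h2)
          (hN.bfr q1 (hR.sub hy) h6 hxy h3 h4))
    · have hX := (h₁'.lb q hq).2.1
      have hs : ∀ x ∈ W, ∃ a ∈ (c.left L R (F z (wl d l₁ h₁))).X,
          ∃ a' ∈ (c.left L R (F z (wl d l₁ h₁))).X, ¬ E (F t x) a a' := fun x hx =>
        (hS x hx).sees hX (hN.win x (hR.sub hx))
      refine (ih₁ (fun x hx => (he x hx).leftC (hs x hx)) hq hS).congr fun x hx => ?_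
      exact (c.gp_left (hN.pwM (hR.sub hx) (hM x) (he x hx) hR.wl₁ (hR.befL1 hx).ne.symm)
        (he x hx).2.1 (hs x hx)).symm
    · have hX := (h₂'.lb q hq).2.1
      have hs : ∀ x ∈ W, ∃ a ∈ (c.right L R (F z (wr d l₁ h₁))).X,
          ∃ a' ∈ (c.right L R (F z (wr d l₁ h₁))).X, ¬ E (F t x) a a' := fun x hx =>
        (hS x hx).sees hX (hN.win x (hR.sub hx))
      refine (ih₂ (fun x hx => (he x hx).rightC (hs x hx)) hq hS).congr fun x hx => ?_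
      exact (c.gp_right (hN.pwM (hR.sub hx) (hM x) (he x hx) hR.wr₁ (hR.befR1 hx).ne)
        (he x hx).2.1 (hs x hx)).symm

/-- two positions of a label of the cell which are separated -/
lemma SeeB.sees (h : SeeB E C W e k) (hk : InC K C c k) (hW : ∀ x ∈ W, 5 * x + 5 < K) :
    ∃ a ∈ c.X, ∃ a' ∈ c.X, ¬ E e a a' := by
  obtain ⟨x, hx, y, hy, p, p', h1, h2, h3, h4, h5⟩ := h
  have h6 := hW y hy
  exact ⟨C k p, hk p (by omega), C k p', hk p' (by omega), h5⟩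

lemma SeeB.outL (h : SeeB E C W e k) (hN : Node E L R Dg F γ K C Lb c z d Wz Cz)
    (hR : Resv Wz W l₁ l₂ h₂ h₁) (hk : k ∈ Cz) : ∃ a ∈ c.X, ∃ a' ∈ c.X, ¬ E e a a' ∧
      a ∉ c.A (F z (wl d l₂ h₂)) ∧ a' ∉ c.A (F z (wl d l₂ h₂)) := by
  obtain ⟨x, hx, y, hy, p, p', h1, h2, h3, h4, h5⟩ := h
  have h6 := hN.win y (hR.sub hy)
  have hX := (hN.lb k hk).2
  exact ⟨C k p, hX p (by omega), C k p', hX p' (by omega), h5,
    hN.cut_out' hk hR.wl_mem' (hR.bl' hx) (hR.bl' hy) (by omega) h1 h2,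
    hN.cut_out' hk hR.wl_mem' (hR.bl' hx) (hR.bl' hy) (by omega) h3 h4⟩

lemma SeeB.inR (h : SeeB E C W e k) (hN : Node E L R Dg F γ K C Lb c z d Wz Cz)
    (hR : Resv Wz W l₁ l₂ h₂ h₁) (hk : k ∈ Cz) : ∃ a ∈ c.X, ∃ a' ∈ c.X, ¬ E e a a' ∧
      a ∈ c.A (F z (wr d l₂ h₂)) ∧ a' ∈ c.A (F z (wr d l₂ h₂)) := by
  obtain ⟨x, hx, y, hy, p, p', h1, h2, h3, h4, h5⟩ := h
  have h6 := hN.win y (hR.sub hy)
  have hX := (hN.lb k hk).2
  exact ⟨C k p, hX p (by omega), C k p', hX p' (by omega), h5,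
    hN.cut_in' hk hR.wr_mem' (hR.br' hx) (hR.br' hy) (by omega) h1 h2,
    hN.cut_in' hk hR.wr_mem' (hR.br' hx) (hR.br' hy) (by omega) h3 h4⟩

/-- an exit which sees the left child does not see anything behind the walls -/
lemma Node.noL (hN : Node E L R Dg F γ K C Lb c z d Wz Cz) (hR : Resv Wz W l₁ l₂ h₂ h₁)
    (he : ExC E Dg c.X c.T e) (h1 : ∃ a ∈ (c.left L R (F z (wl d l₁ h₁))).X,
      ∃ a' ∈ (c.left L R (F z (wl d l₁ h₁))).X, ¬ E e a a')
    (h2 : ∃ a ∈ c.X, ∃ a' ∈ c.X, ¬ E e a a' ∧ a ∉ c.A (F z (wl d l₂ h₂)) ∧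
      a' ∉ c.A (F z (wl d l₂ h₂))) : False := by
  obtain ⟨a, ha, a', ha', hE⟩ := h1
  obtain ⟨b, hb, b', hb', hE', b1, b1'⟩ := h2
  exact exit_walls (hN.fr.wall_or trivial he hR.wl₁ hR.wl₂ (hR.befL (d := d)).ne
    (hN.exc _ hR.wl₁) (hN.exc _ hR.wl₂)) (hN.inc hR.wl₁ hR.wl₂ (hR.befL (d := d))).1
    ha.1 ha'.1 hE ha.2 ha'.2 hb hb' hE' b1 b1'

/-- an exit which sees the right child does not see anything before the walls -/
lemma Node.noR (hN : Node E L R Dg F γ K C Lb c z d Wz Cz) (hR : Resv Wz W l₁ l₂ h₂ h₁)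
    (he : ExC E Dg c.X c.T e) (h1 : ∃ a ∈ (c.right L R (F z (wr d l₁ h₁))).X,
      ∃ a' ∈ (c.right L R (F z (wr d l₁ h₁))).X, ¬ E e a a')
    (h2 : ∃ a ∈ c.X, ∃ a' ∈ c.X, ¬ E e a a' ∧ a ∈ c.A (F z (wr d l₂ h₂)) ∧
      a' ∈ c.A (F z (wr d l₂ h₂))) : False := by
  obtain ⟨a, ha, a', ha', hE⟩ := h1
  obtain ⟨b, hb, b', hb', hE', b1, b1'⟩ := h2
  exact exit_walls (hN.fr.wall_or trivial he hR.wr₂ hR.wr₁ (hR.befR (d := d)).ne
    (hN.exc _ hR.wr₂) (hN.exc _ hR.wr₁)) (hN.inc hR.wr₂ hR.wr₁ (hR.befR (d := d))).1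
    hb hb' hE' b1 b1' ha.1 ha'.1 hE ha.2 ha'.2

/-- the right child is behind the walls of the left child -/
lemma Node.right_out (hN : Node E L R Dg F γ K C Lb c z d Wz Cz) (hR : Resv Wz W l₁ l₂ h₂ h₁)
    {a : α} (ha : a ∈ (c.right L R (F z (wr d l₁ h₁))).X) : a ∉ c.A (F z (wl d l₂ h₂)) := by
  have h2 : Bef d (wl d l₂ h₂) (wr d l₁ h₁) := by
    have h1 := hR.ll
    have h2 := hR.hh
    have h3 := hR.lh
    unfold Bef wl wr
    split_ifs <;> omega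
  exact fun h1 => ha.2 ((hN.inc hR.wl₂ hR.wr₁ h2).1 a ha.1 h1)

/-- **(T3)** -/
theorem GT.exit_same (h : GT E L R Dg F γ K C Lb Qc c W D) (he : ExC E Dg c.X c.T e)
    (hq : q ∈ D) (hS : SeeB E C W e q.k) (hk : k ∈ Lb) (hkc : InC K C c k)
    (hSk : SeeB E C W e k) : ∃ q' ∈ D, q'.k = k ∧ q'.z = q.z ∧ q'.d = q.d ∧ q'.G = q.G := by
  induction h with
  | leaf c W hS hQ => exact absurd hq (notMem_empty q)
  | node c W z d Wz Cz D₁ D₂ l₁ l₂ h₂ h₁ hcS hQ hN hR h₁' h₂' ih₁ ih₂ =>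
    have hWK : ∀ x ∈ W, 5 * x + 5 < K := fun x hx => hN.win x (hR.sub hx)
    -- the child of an uncut label
    have side : k ∉ Cz → InC K C (c.left L R (F z (wl d l₁ h₁))) k ∨
        InC K C (c.right L R (F z (wr d l₁ h₁))) k := fun h1 => hN.side0 hR hk hkc h1
    have LR : (∃ a ∈ (c.left L R (F z (wl d l₁ h₁))).X,
        ∃ a' ∈ (c.left L R (F z (wl d l₁ h₁))).X, ¬ E e a a') →
        (∃ a ∈ (c.right L R (F z (wr d l₁ h₁))).X,
          ∃ a' ∈ (c.right L R (F z (wr d l₁ h₁))).X, ¬ E e a a') → False := by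
      rintro h1 ⟨a, ha, a', ha', hE⟩
      exact hN.noL hR he h1 ⟨a, ha.1, a', ha'.1, hE, hN.right_out hR ha, hN.right_out hR ha'⟩
    rcases hq with (hq | hq) | hq
    · by_cases hkC : k ∈ Cz
      · exact ⟨⟨k, z, d, fun x => c.gp (F z x)⟩, Or.inl (Or.inl ⟨hkC, rfl, rfl, rfl⟩), rfl,
          hq.2.1.symm, hq.2.2.1.symm, hq.2.2.2.symm⟩
      · rcases side hkC with h1 | h1
        · exact (hN.noL hR he (hSk.sees h1 hWK) (hS.outL hN hR hq.1)).elim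
        · exact (hN.noR hR he (hSk.sees h1 hWK) (hS.inR hN hR hq.1)).elim
    · have hs := hS.sees (h₁'.lb q hq).2.1 hWK
      by_cases hkC : k ∈ Cz
      · exact (hN.noL hR he hs (hSk.outL hN hR hkC)).elim
      · rcases side hkC with h1 | h1
        · obtain ⟨q', hq', h2⟩ := ih₁ (he.leftC hs) hq hS h1 hSk
          exact ⟨q', Or.inl (Or.inr hq'), h2⟩
        · exact (LR hs (hSk.sees h1 hWK)).elim
    · have hs := hS.sees (h₂'.lb q hq).2.1 hWK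
      by_cases hkC : k ∈ Cz
      · exact (hN.noR hR he hs (hSk.inR hN hR hkC)).elim
      · rcases side hkC with h1 | h1
        · exact (LR (hSk.sees h1 hWK) hs).elim
        · obtain ⟨q', hq', h2⟩ := ih₂ (he.rightC hs) hq hS h1 hSk
          exact ⟨q', Or.inr hq', h2⟩

/-- **(T3)**, two data: an exit which sees two cut labels -/
theorem GT.exit_same2 (h : GT E L R Dg F γ K C Lb Qc c W D) (he : ExC E Dg c.X c.T e)
    (hq : q ∈ D) (hS : SeeB E C W e q.k) (hq' : q' ∈ D) (hS' : SeeB E C W e q'.k) :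
    q'.z = q.z ∧ q'.d = q.d ∧ q'.G = q.G := by
  induction h with
  | leaf c W hS hQ => exact absurd hq (notMem_empty q)
  | node c W z d Wz Cz D₁ D₂ l₁ l₂ h₂ h₁ hcS hQ hN hR h₁' h₂' ih₁ ih₂ =>
    have hWK : ∀ x ∈ W, 5 * x + 5 < K := fun x hx => hN.win x (hR.sub hx)
    have LR : (∃ a ∈ (c.left L R (F z (wl d l₁ h₁))).X,
        ∃ a' ∈ (c.left L R (F z (wl d l₁ h₁))).X, ¬ E e a a') →
        (∃ a ∈ (c.right L R (F z (wr d l₁ h₁))).X,
          ∃ a' ∈ (c.right L R (F z (wr d l₁ h₁))).X, ¬ E e a a') → False := by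
      rintro h1 ⟨a, ha, a', ha', hE⟩
      exact hN.noL hR he h1 ⟨a, ha.1, a', ha'.1, hE, hN.right_out hR ha, hN.right_out hR ha'⟩
    have s1 : ∀ q ∈ D₁, SeeB E C W e q.k → ∃ a ∈ (c.left L R (F z (wl d l₁ h₁))).X,
        ∃ a' ∈ (c.left L R (F z (wl d l₁ h₁))).X, ¬ E e a a' :=
      fun q hq hS => hS.sees (h₁'.lb q hq).2.1 hWK
    have s2 : ∀ q ∈ D₂, SeeB E C W e q.k → ∃ a ∈ (c.right L R (F z (wr d l₁ h₁))).X,
        ∃ a' ∈ (c.right L R (F z (wr d l₁ h₁))).X, ¬ E e a a' :=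
      fun q hq hS => hS.sees (h₂'.lb q hq).2.1 hWK
    rcases hq with (hq | hq) | hq <;> rcases hq' with (hq' | hq') | hq'
    · obtain ⟨-, a1, a2, a3⟩ := hq
      obtain ⟨-, b1, b2, b3⟩ := hq'
      rw [a1, a2, a3, b1, b2, b3]
      exact ⟨rfl, rfl, rfl⟩
    · exact (hN.noL hR he (s1 q' hq' hS') (hS.outL hN hR hq.1)).elim
    · exact (hN.noR hR he (s2 q' hq' hS') (hS.inR hN hR hq.1)).elim
    · exact (hN.noL hR he (s1 q hq hS) (hS'.outL hN hR hq'.1)).elim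
    · exact ih₁ (he.leftC (s1 q hq hS)) hq hS hq' hS'
    · exact (LR (s1 q hq hS) (s2 q' hq' hS')).elim
    · exact (hN.noR hR he (s2 q hq hS) (hS'.inR hN hR hq'.1)).elim
    · exact (LR (s1 q' hq' hS') (s2 q hq hS)).elim
    · exact ih₂ (he.rightC (s2 q hq hS)) hq hS hq' hS'

/-! ### Same-row families (T4) -/

lemma SeeW.toB' (h : SeeW E C e k x) (hx : x ∈ W) : SeeB E C W e k := by
  obtain ⟨p, p', h1, h2, h3, h4, h5⟩ := h
  exact ⟨x, hx, x, hx, p, p', h1, h2, h3, h4, h5⟩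

/-- a same-row element which sees the left child and something behind the walls is an exit of the left
child -/
lemma Node.exL (hN : Node E L R Dg F γ K C Lb c z d Wz Cz) (hR : Resv Wz W l₁ l₂ h₂ h₁)
    (hs : s ∈ c.T) (hD : s ∈ Dg) (h1 : ∃ a ∈ (c.left L R (F z (wl d l₁ h₁))).X,
      ∃ a' ∈ (c.left L R (F z (wl d l₁ h₁))).X, ¬ E s a a')
    (h2 : ∃ a ∈ c.X, ∃ a' ∈ c.X, ¬ E s a a' ∧ a ∉ c.A (F z (wl d l₂ h₂)) ∧
      a' ∉ c.A (F z (wl d l₂ h₂))) :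
    ExC E Dg (c.left L R (F z (wl d l₁ h₁))).X (c.left L R (F z (wl d l₁ h₁))).T s := by
  refine ⟨hD, fun h3 => ?_, h1⟩
  obtain ⟨b, hb, b', hb', hE', b1, b1'⟩ := h2
  have inc := (hN.inc hR.wl₁ hR.wl₂ (hR.befL (d := d))).1
  obtain ⟨y, hy, hyA, hyR⟩ := (hN.pair hR.wl₁ hR.wl₂ (hR.befL (d := d)).ne).left.cr_of hs hb hb' hE'
    (fun h4 => b1 (inc b hb h4)) (fun h4 => b1' (inc b' hb' h4))
  exact hyR (h3.2 y hy hyA)

lemma Node.exR (hN : Node E L R Dg F γ K C Lb c z d Wz Cz) (hR : Resv Wz W l₁ l₂ h₂ h₁)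
    (hs : s ∈ c.T) (hD : s ∈ Dg) (h1 : ∃ a ∈ (c.right L R (F z (wr d l₁ h₁))).X,
      ∃ a' ∈ (c.right L R (F z (wr d l₁ h₁))).X, ¬ E s a a')
    (h2 : ∃ a ∈ c.X, ∃ a' ∈ c.X, ¬ E s a a' ∧ a ∈ c.A (F z (wr d l₂ h₂)) ∧
      a' ∈ c.A (F z (wr d l₂ h₂))) :
    ExC E Dg (c.right L R (F z (wr d l₁ h₁))).X (c.right L R (F z (wr d l₁ h₁))).T s := by
  refine ⟨hD, fun h3 => ?_, h1⟩
  obtain ⟨b, hb, b', hb', hE', b1, b1'⟩ := h2
  have inc := (hN.inc hR.wr₂ hR.wr₁ (hR.befR (d := d))).1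
  obtain ⟨y, hy, hyA, hyL⟩ := (hN.pair hR.wr₂ hR.wr₁ (hR.befR (d := d)).ne).left.cl_of hs hb hb' hE'
    (inc b hb b1) (inc b' hb' b1')
  exact hyL (h3.2 y hy fun h4 => h4 hyA)

/-- two places of a same-row family -/
def Sand2 (E : α → α → α → Prop) (L R : α → Set α) (F : ℕ → ℕ → α) (row : Set α) (W : Set ℕ)
    (t : ℕ) (q q' : Cd α) : Prop :=
  ∃ P₁ P₂ : ℕ → Set α, (∀ x ∈ W, PlSame E row (L (F t x)) (R (F t x)) (F t x) (P₁ x) (P₂ x)) ∧
    SandP W q.d q.G P₁ ∧ SandP W q'.d q'.G P₂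

/-- **(T4)** a same-row family which sees two cut labels: they are cut by one reference, or its two
places are sandwiched by the two references. -/
theorem GT.same_sand (h : GT E L R Dg F γ K C Lb Qc c W D) {row : Set α} (hc : CInv L R row c)
    (ht : t ∈ γ) (hT : ∀ x ∈ W, F t x ∈ c.T) (hD : ∀ x ∈ W, F t x ∈ Dg) (hq : q ∈ D)
    (hq' : q' ∈ D) (hS : ∀ x ∈ W, SeeW E C (F t x) q.k x)
    (hS' : ∀ x ∈ W, SeeW E C (F t x) q'.k x) :
    (q'.z = q.z ∧ q'.d = q.d ∧ q'.G = q.G) ∨ Sand2 E L R F row W t q q' ∨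
      Sand2 E L R F row W t q' q := by
  induction h with
  | leaf c W hS hQ => exact absurd hq (notMem_empty q)
  | node c W z d Wz Cz D₁ D₂ l₁ l₂ h₂ h₁ hcS hQ hN hR h₁' h₂' ih₁ ih₂ =>
    have hWK : ∀ x ∈ W, 5 * x + 5 < K := fun x hx => hN.win x (hR.sub hx)
    have s1 : ∀ q ∈ D₁, (∀ x ∈ W, SeeW E C (F t x) q.k x) → ∀ x ∈ W,
        ∃ a ∈ (c.left L R (F z (wl d l₁ h₁))).X,
        ∃ a' ∈ (c.left L R (F z (wl d l₁ h₁))).X, ¬ E (F t x) a a' :=
      fun q hq hS x hx => (hS x hx).sees (h₁'.lb q hq).2.1 (hWK x hx)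
    have s2 : ∀ q ∈ D₂, (∀ x ∈ W, SeeW E C (F t x) q.k x) → ∀ x ∈ W,
        ∃ a ∈ (c.right L R (F z (wr d l₁ h₁))).X,
        ∃ a' ∈ (c.right L R (F z (wr d l₁ h₁))).X, ¬ E (F t x) a a' :=
      fun q hq hS x hx => (hS x hx).sees (h₂'.lb q hq).2.1 (hWK x hx)
    -- cut label and left child
    have c1 : ∀ q ∈ ndD F c z d Cz, ∀ q' ∈ D₁, (∀ x ∈ W, SeeW E C (F t x) q.k x) →
        (∀ x ∈ W, SeeW E C (F t x) q'.k x) → Sand2 E L R F row W t q' q := by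
      intro q hq q' hq' hS hS'
      obtain ⟨q1, q2, q3, q4⟩ := hq
      have hex : ∀ x ∈ W, ExC E Dg (c.left L R (F z (wl d l₁ h₁))).X
          (c.left L R (F z (wl d l₁ h₁))).T (F t x) := fun x hx =>
        hN.exL hR (hT x hx) (hD x hx) (s1 q' hq' hS' x hx) (((hS x hx).toB' hx).outL hN hR q1)
      refine ⟨fun x => lPl L c.A c.Lf c.X (F z (wl d l₁ h₁)) (F t x),
        fun x => rPl R c.A c.Lf c.X (F z (wl d l₁ h₁)) (F t x), fun x hx => ?_, ?_, ?_⟩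
      · exact hN.plL hR hc (hT x hx) (s1 q' hq' hS' x hx) q1 hx (hS x hx)
      · exact (h₁'.exit_sand ht hex hq' hS').congr fun x hx => (c.gp_linkL (hT x hx)).symm
      · rw [q3, q4]
        exact SandP.of
          (fun x hx y hy hyx => hN.rLo hR (hT x hx) (s1 q' hq' hS' x hx) q1 hx (hS x hx) hy hyx)
          (fun x hx y hy hxy => hN.rHi hR (hT x hx) (s1 q' hq' hS' x hx) q1 hx (hS x hx) hy hxy)
    -- cut label and right child
    have c2 : ∀ q ∈ ndD F c z d Cz, ∀ q' ∈ D₂, (∀ x ∈ W, SeeW E C (F t x) q.k x) →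
        (∀ x ∈ W, SeeW E C (F t x) q'.k x) → Sand2 E L R F row W t q q' := by
      intro q hq q' hq' hS hS'
      obtain ⟨q1, q2, q3, q4⟩ := hq
      have hex : ∀ x ∈ W, ExC E Dg (c.right L R (F z (wr d l₁ h₁))).X
          (c.right L R (F z (wr d l₁ h₁))).T (F t x) := fun x hx =>
        hN.exR hR (hT x hx) (hD x hx) (s2 q' hq' hS' x hx) (((hS x hx).toB' hx).inR hN hR q1)
      refine ⟨fun x => lPl L c.A c.Lf c.X (F z (wr d l₁ h₁)) (F t x),
        fun x => rPl R c.A c.Lf c.X (F z (wr d l₁ h₁)) (F t x), fun x hx => ?_, ?_, ?_⟩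
      · exact hN.plR hR hc (hT x hx) (s2 q' hq' hS' x hx) q1 hx (hS x hx)
      · rw [q3, q4]
        exact SandP.of
          (fun x hx y hy hyx => hN.lLo hR (hT x hx) (s2 q' hq' hS' x hx) q1 hx (hS x hx) hy hyx)
          (fun x hx y hy hxy => hN.lHi hR (hT x hx) (s2 q' hq' hS' x hx) q1 hx (hS x hx) hy hxy)
      · exact (h₂'.exit_sand ht hex hq' hS').congr fun x hx => (c.gp_linkR (hT x hx)).symm
    -- both children
    have c3 : ∀ q ∈ D₁, ∀ q' ∈ D₂, (∀ x ∈ W, SeeW E C (F t x) q.k x) →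
        (∀ x ∈ W, SeeW E C (F t x) q'.k x) → Sand2 E L R F row W t q q' := by
      intro q hq q' hq' hS hS'
      have hex1 : ∀ x ∈ W, ExC E Dg (c.left L R (F z (wl d l₁ h₁))).X
          (c.left L R (F z (wl d l₁ h₁))).T (F t x) := by
        intro x hx
        obtain ⟨a, ha, a', ha', hE⟩ := s2 q' hq' hS' x hx
        exact hN.exL hR (hT x hx) (hD x hx) (s1 q hq hS x hx)
          ⟨a, ha.1, a', ha'.1, hE, hN.right_out hR ha, hN.right_out hR ha'⟩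
      have hex2 : ∀ x ∈ W, ExC E Dg (c.right L R (F z (wr d l₁ h₁))).X
          (c.right L R (F z (wr d l₁ h₁))).T (F t x) := by
        intro x hx
        obtain ⟨a, ha, a', ha', hE⟩ := s1 q hq hS x hx
        have h3 : Bef d (wl d l₁ h₁) (wr d l₂ h₂) := by
          have h1 := hR.ll
          have h2 := hR.hh
          have h3 := hR.lh
          unfold Bef wl wr
          split_ifs <;> omega
        have inc := (hN.inc hR.wl₁ hR.wr₂ h3).1
        exact hN.exR hR (hT x hx) (hD x hx) (s2 q' hq' hS' x hx)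
          ⟨a, ha.1, a', ha'.1, hE, inc a ha.1 ha.2, inc a' ha'.1 ha'.2⟩
      refine ⟨fun x => lPl L c.A c.Lf c.X (F z (wl d l₁ h₁)) (F t x),
        fun x => rPl R c.A c.Lf c.X (F z (wr d l₁ h₁)) (F t x), fun x hx => ?_, ?_, ?_⟩
      · exact hN.plLR hR hc (hT x hx) (s1 q hq hS x hx) (s2 q' hq' hS' x hx)
      · exact (h₁'.exit_sand ht hex1 hq hS).congr fun x hx => (c.gp_linkL (hT x hx)).symm
      · exact (h₂'.exit_sand ht hex2 hq' hS').congr fun x hx => (c.gp_linkR (hT x hx)).symm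
    rcases hq with (hq | hq) | hq <;> rcases hq' with (hq' | hq') | hq'
    · left
      obtain ⟨-, a1, a2, a3⟩ := hq
      obtain ⟨-, b1, b2, b3⟩ := hq'
      rw [a1, a2, a3, b1, b2, b3]
      exact ⟨rfl, rfl, rfl⟩
    · exact Or.inr (Or.inr (c1 q hq q' hq' hS hS'))
    · exact Or.inr (Or.inl (c2 q hq q' hq' hS hS'))
    · exact Or.inr (Or.inl (c1 q' hq' q hq hS' hS))
    · by_cases hall : ∀ x ∈ W, F t x ∈ (c.left L R (F z (wl d l₁ h₁))).T
      · exact ih₁ (hc.left _) hall hD hq hq' hS hS'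
      · left
        push Not at hall
        obtain ⟨x, hx, hx2⟩ := hall
        exact h₁'.exit_same2 ⟨hD x hx, hx2, s1 q hq hS x hx⟩ hq ((hS x hx).toB' hx) hq'
          ((hS' x hx).toB' hx)
    · exact Or.inr (Or.inl (c3 q hq q' hq' hS hS'))
    · exact Or.inr (Or.inr (c2 q' hq' q hq hS' hS))
    · exact Or.inr (Or.inr (c3 q' hq' q hq hS' hS))
    · by_cases hall : ∀ x ∈ W, F t x ∈ (c.right L R (F z (wr d l₁ h₁))).T
      · exact ih₂ (hc.right _) hall hD hq hq' hS hS'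
      · left
        push Not at hall
        obtain ⟨x, hx, hx2⟩ := hall
        exact h₂'.exit_same2 ⟨hD x hx, hx2, s2 q hq hS x hx⟩ hq ((hS x hx).toB' hx) hq'
          ((hS' x hx).toB' hx)

end

end TST
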