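import Pool.Agent.TST.LayTree
import Pool.Agent.TST.LayNd

/-!
# The tree of cells of one row, second part (T-star, row R5, helper79)

`Node.of_free`: a free family which sees a label of the cell makes a node.  `LeafAt.insert`: insertion of
a reference at a leaf.  `GT.same_cut` (T3), `GT.same_step` (T2), `GT.mono_G`, `GT.side_G`, `GT.ord` (T5),
`GT.sand` (T4, exits).
-/

set_option autoImplicit false

open Set

namespace TST

universe u

section

variable {α : Type u} {E : α → α → α → Prop} {L R : α → Set α} {Dg : Set α} {F : ℕ → ℕ → α}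
  {γ : Set ℕ} {K : ℕ} {C : ℕ → ℕ → α} {Lb : Set ℕ} {Qc : Cell α → Prop} {c g : Cell α}
  {W W' Wz Wf Cz : Set ℕ} {D D₁ D₂ D' : Set (Cd α)} {z f t j k i x y : ℕ} {d : Bool} {e s : α}
  {l₁ l₂ h₂ h₁ : ℕ}

/-! ### positions -/

lemma wpos_lo {p : ℕ} (h : p ≤ 5 * x) : wpos x p = 0 := if_pos h

lemma wpos_hi {p : ℕ} (h : 5 * x + 5 ≤ p) : wpos x p = 5 := by
  unfold wpos
  rw [if_neg (by omega), if_pos h]

lemma wpos_in {q : ℕ} (h1 : 1 ≤ q) (h2 : q ≤ 4) : wpos x (5 * x + q) = q := by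
  unfold wpos
  rw [if_neg (by omega), if_neg (by omega)]
  omega

lemma wpos_le (x p : ℕ) : wpos x p ≤ 5 := by
  unfold wpos
  split_ifs <;> omega

/-! ### a free family makes a node -/

/-- pairs of members of a free family -/
lemma Fr.pw {A : α → Set α} {X T : Set α} (hf : f ∈ γ)
    (hF : Fr E L R A Dg X T (MbF F γ) univ Wf (F f)) (hex : ∀ x ∈ Wf, ExC E Dg X T (F f x))
    (hx : x ∈ Wf) (hy : y ∈ Wf) (hxy : x ≠ y) : PWitD E L R A X T (F f x) (F f y) :=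
  hF.w2f x hx (F f x) ⟨f, hf, rfl⟩ (mem_univ _) (hex x hx) y hy (Ne.symm hxy) (hex y hy)

/-- the pattern of a free family on a label of the cell: constant, or two sides -/
lemma pattern {A : α → Set α} {X T : Set α} (hf : f ∈ γ)
    (hF : Fr E L R A Dg X T (MbF F γ) univ Wf (F f)) (hex : ∀ x ∈ Wf, ExC E Dg X T (F f x))
    (hx : x ∈ Wf) (hy : y ∈ Wf) (hxy : x < y) (hKy : 5 * y + 5 < K) {v : ℕ → Prop}
    (hX : ∀ p < K, C k p ∈ X)
    (hv : ∀ x ∈ Wf, ∀ p < K, (C k p ∈ A (F f x) ↔ v (wpos x p))) :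
    (∀ q ≤ 5, (v q ↔ v 0)) ∨ (v 0 ↔ ¬ v 5) := by
  by_cases h05 : v 0 ↔ v 5
  swap
  · right
    tauto
  left
  intro q hq
  rcases Nat.eq_zero_or_pos q with rfl | hq0
  · exact Iff.rfl
  rcases Nat.lt_or_ge q 5 with hq5 | hq5
  swap
  · have : q = 5 := by omega
    rw [this]
    exact h05.symm
  by_contra hne
  have a1 := hv x hx (5 * x + q) (by omega)
  have a2 := hv x hx (5 * y + q) (by omega)
  have a3 := hv y hy (5 * x + q) (by omega)
  have a4 := hv y hy (5 * y + q) (by omega)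
  rw [wpos_in (by omega) (by omega)] at a1 a4
  rw [wpos_hi (by omega)] at a2
  rw [wpos_lo (by omega)] at a3
  have m1 := hX (5 * x + q) (by omega)
  have m2 := hX (5 * y + q) (by omega)
  rcases (hF.pw hf hex hx hy hxy.ne).chain with h1 | h1
  · have b1 := h1 _ m1
    have b2 := h1 _ m2
    tauto
  · have b1 := h1 _ m1
    have b2 := h1 _ m2
    tauto

/-- two labels which are cut by a free family are cut in the same direction -/
lemma pattern_dir {A : α → Set α} {X T : Set α} (hf : f ∈ γ)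
    (hF : Fr E L R A Dg X T (MbF F γ) univ Wf (F f)) (hex : ∀ x ∈ Wf, ExC E Dg X T (F f x))
    (hx : x ∈ Wf) (hy : y ∈ Wf) (hxy : x < y) (hKy : 5 * y + 5 < K) {v w : ℕ → Prop}
    (hX : ∀ p < K, C k p ∈ X) (hX' : ∀ p < K, C j p ∈ X)
    (hv : ∀ x ∈ Wf, ∀ p < K, (C k p ∈ A (F f x) ↔ v (wpos x p)))
    (hw : ∀ x ∈ Wf, ∀ p < K, (C j p ∈ A (F f x) ↔ w (wpos x p)))
    (hv5 : v 0 ↔ ¬ v 5) (hw5 : w 0 ↔ ¬ w 5) : v 0 ↔ w 0 := by
  by_contra hne
  have a1 := hv x hx (5 * y) (by omega)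
  have a2 := hv y hy (5 * y) (by omega)
  have a3 := hw x hx (5 * y) (by omega)
  have a4 := hw y hy (5 * y) (by omega)
  rw [wpos_hi (by omega)] at a1 a3
  rw [wpos_lo (by omega)] at a2 a4
  have m1 := hX (5 * y) (by omega)
  have m2 := hX' (5 * y) (by omega)
  rcases (hF.pw hf hex hx hy hxy.ne).chain with h1 | h1
  · have b1 := h1 _ m1
    have b2 := h1 _ m2
    tauto
  · have b1 := h1 _ m1
    have b2 := h1 _ m2
    tauto

/-- **A free family which sees the label `j` makes a node.** -/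
theorem Node.of_free (hS : CellS E L R c.A Dg c.X c.T) (hf : f ∈ γ)
    (hF : Fr E L R c.A Dg c.X c.T (MbF F γ) univ Wf (F f)) (hx : x ∈ Wf) (hy : y ∈ Wf)
    (hxy : x < y) (hK : ∀ x ∈ Wf, 5 * x + 5 < K) (hH : Hom K C Lb Wf (fun x => c.A (F f x)))
    (hj : j ∈ Lb) (hjc : InC K C c j) (hs : ∀ x ∈ Wf, SeeW E C (F f x) j x) :
    ∃ d Cz, j ∈ Cz ∧ Node E L R Dg F γ K C Lb c f d Wf Cz ∧
      ∀ k ∈ Cz, ∀ x ∈ Wf, SeeW E C (F f x) k x := by
  have hex : ∀ x ∈ Wf, ExC E Dg c.X c.T (F f x) := by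
    intro x hx
    obtain ⟨p, p', h1, h2, h3, h4, h5⟩ := hs x hx
    have h6 := hK x hx
    exact ⟨(hF.mem x hx).1, (hF.mem x hx).2.1, C j p, hjc p (by omega), C j p', hjc p' (by omega), h5⟩
  obtain ⟨vj, hvj⟩ := hH j hj
  have hone : ∀ x ∈ Wf, ∀ a ∈ c.X, ∀ b ∈ c.X,
      (E (F f x) a b ↔ (a ∈ c.A (F f x) ↔ b ∈ c.A (F f x))) :=
    fun x hx a ha b hb => (hS _ (hex x hx)).one ha hb
  have hj5 : vj 0 ↔ ¬ vj 5 := by
    rcases pattern hf hF hex hx hy hxy (hK y hy) hjc hvj with h1 | h1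
    · exfalso
      obtain ⟨p, p', h2, h3, h4, h5, h6⟩ := hs x hx
      have h7 := hK x hx
      apply h6
      rw [hone x hx _ (hjc p (by omega)) _ (hjc p' (by omega))]
      have h8 := hvj x hx p (by omega)
      have h9 := hvj x hx p' (by omega)
      have h10 := h1 _ (wpos_le x p)
      have h11 := h1 _ (wpos_le x p')
      simp only at h8 h9
      rw [h8, h9, h10, h11]
    · exact h1
  obtain ⟨d, hd⟩ : ∃ d : Bool, (d = true ↔ vj 0) := by
    by_cases h : vj 0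
    · exact ⟨true, by simp [h]⟩
    · exact ⟨false, by simp [h]⟩
  have hd' : d = false ↔ vj 5 := by
    cases d
    · simp only [true_iff]
      by_contra h
      have := hj5.2 h
      simp [this] at hd
    · simp only [Bool.true_eq_false, false_iff]
      exact fun h => hj5.1 (hd.1 rfl) h
  have hside : ∀ k, (∃ v : ℕ → Prop, (∀ x ∈ Wf, ∀ p < K, (C k p ∈ c.A (F f x) ↔ v (wpos x p))) ∧
      (v 0 ↔ vj 0) ∧ (v 5 ↔ vj 5)) → ∀ x ∈ Wf, SideW K C d (c.A (F f x)) k x := by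
    rintro k ⟨v, hv, h0, h5⟩ x hx
    constructor
    · intro p hp hpx
      rw [hv x hx p hp, wpos_lo hpx, h0, hd]
    · intro p hp hpx
      rw [hv x hx p hp, wpos_hi hpx, h5, hd']
  refine ⟨d, {k | k ∈ Lb ∧ InC K C c k ∧ ∀ x ∈ Wf, SideW K C d (c.A (F f x)) k x}, ?_, ?_, ?_⟩
  · exact ⟨hj, hjc, hside j ⟨vj, hvj, Iff.rfl, Iff.rfl⟩⟩
  · refine ⟨hf, hF, hex, ⟨j, hj, hjc, hside j ⟨vj, hvj, Iff.rfl, Iff.rfl⟩⟩,
      fun k hk => ⟨hk.1, hk.2.1⟩, hK, fun k hk => hk.2.2, ?_⟩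
    intro k hk hkc hkn
    obtain ⟨v, hv⟩ := hH k hk
    rcases pattern hf hF hex hx hy hxy (hK y hy) hkc hv with h1 | h1
    · by_cases h0 : v 0
      · left
        intro x hx p hp
        exact (hv x hx p hp).2 ((h1 _ (wpos_le x p)).2 h0)
      · right
        intro x hx p hp h2
        exact h0 ((h1 _ (wpos_le x p)).1 ((hv x hx p hp).1 h2))
    · exfalso
      have h2 := pattern_dir hf hF hex hx hy hxy (hK y hy) hkc hjc hv hvj h1 hj5
      exact hkn ⟨hk, hkc, hside k ⟨v, hv, h2, by tauto⟩⟩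
  · rintro k ⟨hk, hkc, hks⟩ x hx
    have h1 := hK x hx
    refine ⟨5 * x, 5 * x + 5, le_rfl, by omega, by omega, le_rfl, ?_⟩
    rw [hone x hx _ (hkc _ (by omega)) _ (hkc _ (by omega)),
      (hks x hx).1 (5 * x) (by omega) le_rfl, (hks x hx).2 (5 * x + 5) (by omega) le_rfl]
    cases d <;> simp

/-- **INSERTION of a free family at a leaf.** -/
theorem LeafAt.insert (hL : LeafAt E L R Dg F γ K C Lb Qc c W D j g) (hj : j ∈ Lb) (hf : f ∈ γ)
    (hWf : Wf ⊆ W) (hr : Resv Wf W' l₁ l₂ h₂ h₁) (hK : ∀ x ∈ Wf, 5 * x + 5 < K)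
    (hF : Fr E L R g.A Dg g.X g.T (MbF F γ) univ Wf (F f))
    (hH : Hom K C Lb Wf (fun x => g.A (F f x))) (hs : ∀ x ∈ Wf, SeeW E C (F f x) j x)
    (hQ : ∀ d, Qc (g.left L R (F f (wl d l₁ h₁))) ∧ Qc (g.right L R (F f (wr d l₁ h₁)))) :
    ∃ D', GT E L R Dg F γ K C Lb Qc c W' D' ∧ D ⊆ D' ∧ j ∈ cutL D' ∧
      ∀ q ∈ D', q ∈ D ∨ (q.z = f ∧ ∀ x ∈ Wf, SeeW E C (F f x) q.k x) := by
  have hlt : l₁ < h₁ := by have := hr.ll; have := hr.hh; have := hr.lh; omega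
  obtain ⟨d, Cz, hjz, hN, hsee⟩ := Node.of_free hL.cs hf hF hr.ml₁ hr.mh₁ hlt hK hH hj hL.inC hs
  have hB : ∀ w ∈ Wf, PWitB E L R g.A g.X g.T (F f w) := fun w hw => hL.cs _ (hN.exc w hw)
  have hG : GT E L R Dg F γ K C Lb Qc g W' (ndD F g f d Cz ∪ ∅ ∪ ∅) :=
    .node g W' f d Wf Cz ∅ ∅ l₁ l₂ h₂ h₁ hL.cs hL.qc hN hr
      (.leaf _ _ (hL.cs.left (hB _ hr.wl_mem)) (hQ d).1)
      (.leaf _ _ (hL.cs.right (hB _ hr.wr_mem) (hN.exc _ hr.wr_mem).2.2) (hQ d).2)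
  refine ⟨D ∪ (ndD F g f d Cz ∪ ∅ ∪ ∅), hL.app W' (hr.sub.trans hWf) _ hG, subset_union_left, ?_, ?_⟩
  · exact ⟨⟨j, f, d, fun x => g.gp (F f x)⟩, Or.inr (Or.inl (Or.inl ⟨hjz, rfl, rfl, rfl⟩)), rfl⟩
  · rintro q (hq | (hq | hq) | hq)
    · exact Or.inl hq
    · exact Or.inr ⟨hq.2.1, fun x hx => hsee _ hq.1 x hx⟩
    · exact absurd hq (notMem_empty q)
    · exact absurd hq (notMem_empty q)

/-- the patterns of a family do not change on the way to the leaf -/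
lemma LeafAt.hom (hL : LeafAt E L R Dg F γ K C Lb Qc c W D j g) (hT : ∀ x ∈ Wf, F f x ∉ c.T)
    (hH : Hom K C Lb Wf (fun x => c.A (F f x))) : Hom K C Lb Wf (fun x => g.A (F f x)) := by
  intro k hk
  obtain ⟨v, hv⟩ := hH k hk
  refine ⟨v, fun x hx p hp => ?_⟩
  simp only
  rw [hL.A _ (hT x hx)]
  exact hv x hx p hp

/-! ### T3: an exit does not join a cut and an uncut label -/

lemma SeeW.toB (h : SeeW E C e k x) (hx : x ∈ W) : SeeB E C W e k := by
  obtain ⟨p, p', h1, h2, h3, h4, h5⟩ := h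
  exact ⟨x, hx, x, hx, p, p', h1, h2, h3, h4, h5⟩

/-- **(T3).**  The reference which cuts a label seen by an exit cuts every label of the cell seen by it. -/
theorem GT.same_cut (h : GT E L R Dg F γ K C Lb Qc c W D) (hK : ∀ x ∈ W, 5 * x + 5 < K)
    (he : ExC E Dg c.X c.T e) {q : Cd α}
    (hq : q ∈ D) (hi : SeeB E C W e q.k) (hj : SeeB E C W e j) (hjb : j ∈ Lb)
    (hjc : InC K C c j) : ∃ q' ∈ D, q'.k = j ∧ q'.z = q.z ∧ q'.d = q.d ∧ q'.G = q.G := by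
  induction h with
  | leaf c W hS hQ => exact absurd hq (notMem_empty q)
  | node c W z d Wz Cz D₁ D₂ l₁ l₂ h₂ h₁ hS hQ hN hR h₁' h₂' ih₁ ih₂ =>
    obtain ⟨x, hx, y, hy, p, p', p1, p2, p3, p4, hE⟩ := hi
    obtain ⟨x', hx', y', hy', r, r', r1, r2, r3, r4, hE'⟩ := id hj
    have hKy := hK y hy
    have hKy' := hK y' hy'
    obtain ⟨b, hb⟩ := hN.fr.w2 e (mem_univ _) he
    obtain ⟨u, hu, hub, huW, huw⟩ := hR.pickL d b
    obtain ⟨v, hv, hvb, hvW, hvw⟩ := hR.pickR d b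
    have hPu := hb u hu hub (hN.exc u hu)
    have hPv := hb v hv hvb (hN.exc v hv)
    have one : ∀ a ∈ c.X, ∀ b ∈ c.X, (E e a b ↔ (a ∈ c.A e ↔ b ∈ c.A e)) :=
      fun a ha b hb => (hS e he).one ha hb
    have hqc := (GT.lb (.node c W z d Wz Cz D₁ D₂ l₁ l₂ h₂ h₁ hS hQ hN hR h₁' h₂') q hq).2.1
    have jr := hjc r (by omega)
    have jr' := hjc r' (by omega)
    have ip := hqc p (by omega)
    have ip' := hqc p' (by omega)
    -- `j` is not inside of the place, not outside of it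
    have nin : ¬ (C j r ∈ c.A e ∧ C j r' ∈ c.A e) := fun h1 =>
      hE' ((one _ jr _ jr').2 ⟨fun _ => h1.2, fun _ => h1.1⟩)
    have nout : ¬ (C j r ∉ c.A e ∧ C j r' ∉ c.A e) := fun h1 =>
      hE' ((one _ jr _ jr').2 ⟨fun h2 => absurd h2 h1.1, fun h2 => absurd h2 h1.2⟩)
    have incu : ∀ a ∈ c.X, a ∈ c.A (F z (wl d l₁ h₁)) → a ∈ c.A (F z u) := by
      rcases huw with rfl | h1
      · exact fun _ _ h => h
      · exact hN.inc0 hR.wl_mem hu h1
    have incv : ∀ a ∈ c.X, a ∈ c.A (F z v) → a ∈ c.A (F z (wr d l₁ h₁)) := by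
      rcases hvw with rfl | h1
      · exact fun _ _ h => h
      · exact hN.inc0 hv hR.wr_mem h1
    rcases hq with (hq | hq) | hq
    · -- `q.k` is cut by `z`
      have s1 := hPu.symm.sand_lo ip ip' hE
        (hN.cut_out' hq.1 hu (huW x hx) (huW y hy) (by omega) p1 p2)
        (hN.cut_out' hq.1 hu (huW x hx) (huW y hy) (by omega) p3 p4)
      have s2 := hPv.symm.sand_hi ip ip' hE
        (hN.cut_in' hq.1 hv (hvW x hx) (hvW y hy) (by omega) p1 p2)
        (hN.cut_in' hq.1 hv (hvW x hx) (hvW y hy) (by omega) p3 p4)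
      by_cases hjC : j ∈ Cz
      · exact ⟨⟨j, z, d, fun x => c.gp (F z x)⟩, Or.inl (Or.inl ⟨hjC, rfl, rfl, rfl⟩), rfl,
          hq.2.1.symm, hq.2.2.1.symm, hq.2.2.2.symm⟩
      · exfalso
        rcases hN.con j hjb hjc hjC with h1 | h1
        · exact nin ⟨s1 _ jr (h1 u hu r (by omega)), s1 _ jr' (h1 u hu r' (by omega))⟩
        · exact nout ⟨fun h2 => h1 v hv r (by omega) (s2 _ jr h2),
            fun h2 => h1 v hv r' (by omega) (s2 _ jr' h2)⟩
    · -- `q.k` in the left child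
      have hql := (h₁'.lb q hq).2.1
      have s2 := hPu.symm.sand_hi ip ip' hE (incu _ ip (hql p (by omega)).2)
        (incu _ ip' (hql p' (by omega)).2)
      have hjC : j ∉ Cz := fun h1 => nout
        ⟨fun h2 => hN.cut_out' h1 hu (huW x' hx') (huW y' hy') (by omega) r1 r2 (s2 _ jr h2),
          fun h2 => hN.cut_out' h1 hu (huW x' hx') (huW y' hy') (by omega) r3 r4 (s2 _ jr' h2)⟩
      rcases hN.con j hjb hjc hjC with h1 | h1
      · have hjl : InC K C (c.left L R (F z (wl d l₁ h₁))) j :=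
          fun p hp => ⟨hjc p hp, h1 _ hR.wl_mem p hp⟩
        obtain ⟨q', hq', h3⟩ := ih₁ hK ⟨he.1, fun h2 => he.2.1 (left_T h2), _, hql p (by omega), _,
          hql p' (by omega), hE⟩ hq ⟨x, hx, y, hy, p, p', p1, p2, p3, p4, hE⟩ hj hjl
        exact ⟨q', Or.inl (Or.inr hq'), h3⟩
      · exact absurd ⟨fun h2 => h1 u hu r (by omega) (s2 _ jr h2),
          fun h2 => h1 u hu r' (by omega) (s2 _ jr' h2)⟩ nout
    · -- `q.k` in the right child
      have hqr := (h₂'.lb q hq).2.1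
      have s1 := hPv.symm.sand_lo ip ip' hE (fun h2 => (hqr p (by omega)).2 (incv _ ip h2))
        (fun h2 => (hqr p' (by omega)).2 (incv _ ip' h2))
      have hjC : j ∉ Cz := fun h1 => nin
        ⟨s1 _ jr (hN.cut_in' h1 hv (hvW x' hx') (hvW y' hy') (by omega) r1 r2),
          s1 _ jr' (hN.cut_in' h1 hv (hvW x' hx') (hvW y' hy') (by omega) r3 r4)⟩
      rcases hN.con j hjb hjc hjC with h1 | h1
      · exact absurd ⟨s1 _ jr (h1 v hv r (by omega)), s1 _ jr' (h1 v hv r' (by omega))⟩ nin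
      · have hjl : InC K C (c.right L R (F z (wr d l₁ h₁))) j :=
          fun p hp => ⟨hjc p hp, h1 _ hR.wr_mem p hp⟩
        obtain ⟨q', hq', h3⟩ := ih₂ hK ⟨he.1, fun h2 => he.2.1 (right_T h2), _, hqr p (by omega), _,
          hqr p' (by omega), hE⟩ hq ⟨x, hx, y, hy, p, p', p1, p2, p3, p4, hE⟩ hj hjl
        exact ⟨q', Or.inr hq', h3⟩

end

end TST
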