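import Pool.Agent.TST.LayState
import Pool.Agent.TST.LayTree2
import Pool.Agent.TST.LayT4
import Pool.Agent.TST.LayEnd
import Pool.Agent.TST.SwallowLab

/-!
# Rungs and cut labels (label level of T-star; helper70)

`RowD` = the good elements of the rows: far rungs, near elements with (at most) two places, same-row
elements.  A rung family which splits a cut label consists of such elements, up to a bounded number
of windows.  Consequences: the rule `one` of `cut_list`, and the fields `rung`, `rung2`, `near` of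
`EndH`.
-/

set_option autoImplicit false

open Set

namespace TST

universe u v w

/-- **The good elements of the rows.** -/
def RowD {α : Type u} {β : Type v} {ν : Type w} (rw : β → Set α) (V : Set β) (Dg Fr : Set α)
    (Nr : ν → Set α) (Tr : β → Set α) (Lv : ν → α → Set α) (lg : ν → Fin 3 → β)
    (oe : ν → Fin 3 → ν) : Set α :=
  {d | d ∈ Dg ∧ (d ∈ Fr ∨ (∃ u, d ∈ Nr u ∧ TwoL rw Lv lg oe u d) ∨ ∃ r ∈ V, d ∈ Tr r)}

/-- the windows which meet `D` -/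
def badW (D : Finset ℕ) : Finset ℕ := D.image (fun a => a / 5) ∪ D.image (fun a => (a - 1) / 5)

lemma badW_card (D : Finset ℕ) : (badW D).card ≤ 2 * D.card := by
  have h1 := Finset.card_union_le (D.image fun a => a / 5) (D.image fun a => (a - 1) / 5)
  have h2 : (D.image fun a => a / 5).card ≤ D.card := Finset.card_image_le
  have h3 : (D.image fun a => (a - 1) / 5).card ≤ D.card := Finset.card_image_le
  unfold badW
  omega

lemma badW_off {D : Finset ℕ} {x a : ℕ} (hx : x ∉ badW D) (h1 : 5 * x ≤ a) (h2 : a ≤ 5 * x + 5) :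
    a ∉ D := by
  intro ha
  apply hx
  unfold badW
  rw [Finset.mem_union, Finset.mem_image, Finset.mem_image]
  by_cases h3 : a = 5 * x + 5
  · exact Or.inr ⟨a, ha, by omega⟩
  · exact Or.inl ⟨a, ha, by omega⟩

section

variable {α : Type u} {β : Type v} {ν : Type w} {rw : β → Set α} {V : Set β} {nd₁ nd₂ : β → ν}
  {S : α → α → α → Prop} {Dg Fa On Dt : Set α} {Nr : ν → Set α} {Tr : β → Set α}
  {Tu : ν → Set α} {Lv : ν → α → Set α} {Aw : β → α → Set α} {Au : ν → α → Fin 3 → Set α}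
  {B : α → α → α → α → Prop} {lg : ν → Fin 3 → β} {oe : ν → Fin 3 → ν} {fr : α → Bool → β}
  {r₀ : α → β} {ct : α → ν}

lemma rowG_rowD : RowG V Dg Fa Nr Tr (RowD rw V Dg Fa Nr Tr Lv lg oe) := by
  rintro d ⟨h1, h2 | ⟨u, h2, -⟩ | h2⟩
  exacts [⟨h1, Or.inl h2⟩, ⟨h1, Or.inr (Or.inl ⟨u, h2⟩)⟩, ⟨h1, Or.inr (Or.inr h2)⟩]

namespace LabFacts3

variable (h : LabFacts3 rw V nd₁ nd₂ S Dg Fa On Dt Nr Tr Tu Lv Aw Au B lg oe fr r₀ ct)

include h

/-- rungs are no same-row elements -/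
lemma rung_notTr {z : α} (hz : z ∈ Fa ∨ ∃ u, z ∈ Nr u) {r : β} (hr : r ∈ V) : z ∉ Tr r := by
  intro hT
  obtain ⟨r', hr', hs⟩ : ∃ r' ∈ V, SeeR rw S z r' := by
    rcases hz with hz | ⟨u, hz⟩
    · exact ⟨_, (h.far_V z hz false).1, (h.far_V z hz false).2⟩
    · obtain ⟨r', h1, -, h2⟩ := h.near_one u z hz
      exact ⟨r', h1, h2⟩
  have h1 := h.same_see r hr z hT r' hr' hs
  subst h1
  obtain ⟨N, p, q, hP, -⟩ := h.wB r' hr' z hz hs
  exact hP.zT hT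

lemma far_notNr {z : α} (hz : z ∈ Fa) {u : ν} : z ∉ Nr u := fun h1 =>
  h.far_dis z hz u (h.near_see u z h1 _ (h.far_V z hz false).1 (h.far_V z hz false).2)
    (h.near_see u z h1 _ (h.far_V z hz true).1 (h.far_V z hz true).2)

/-- near elements of `RowD` are constant on some leg -/
lemma rowD_two {c : ν} {d : α} (hd : d ∈ RowD rw V Dg Fa Nr Tr Lv lg oe) (hn : d ∈ Nr c) :
    TwoL rw Lv lg oe c d := by
  rcases hd.2 with h1 | ⟨u, h1, h2⟩ | ⟨r, hr, h1⟩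
  · exact absurd hn (h.far_notNr h1)
  · rw [← h.near_ne u c d h1 hn]
    exact h2
  · exact absurd h1 (h.rung_notTr (Or.inr ⟨c, hn⟩) hr)

/-- a near element has a place on the leg which it sees -/
lemma near_place {c : ν} {z : α} (hz : z ∈ Nr c) {r : β} (hr : r ∈ V) (hs : SeeR rw S z r)
    {i : Fin 3} (hi : lg c i = r) : ∃ x ∈ rw (lg c i), x ∉ Lv (oe c i) z := by
  have hat := h.near_see c z hz r hr hs
  obtain ⟨x, hx, y, hy, hxy, h1⟩ := hs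
  have hn : ¬ ES S z x y := by
    rintro (h2 | h2)
    exacts [hxy h2, h2 h1]
  have hs' : SeeR rw S z r := ⟨x, hx, y, hy, hxy, h1⟩
  rw [(h.wB r hr z (Or.inr ⟨c, hz⟩) hs').one hx hy] at hn
  have a1 := h.awN r hr c hat i hi z hz hs' x hx
  have a2 := h.awN r hr c hat i hi z hz hs' y hy
  rw [hi]
  by_contra hcon
  push Not at hcon
  have b1 := hcon x hx
  have b2 := hcon y hy
  apply hn
  rw [a1, a2]
  tauto

lemma near_nearT {c : ν} {z : α} (hz : z ∈ Nr c) {r : β} (hr : r ∈ V) (hs : SeeR rw S z r) :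
    NearT (starO Lv oe c) (starX rw lg c) z := by
  have hat := h.near_see c z hz r hr hs
  obtain ⟨i, hi⟩ := (h.legs r hr c hat).all r hr hat
  obtain ⟨j, hj, h1⟩ := h.near_hid c z hz r hr hs i hi
  exact ⟨j, i, hj, h1, h.near_place hz hr hs hi⟩

end LabFacts3

/-- **The places of a near rung which sees two rows and has exactly two places.** -/
theorem LabFacts3.tplNear
    (h : LabFacts3 rw V nd₁ nd₂ S Dg Fa On Dt Nr Tr Tu Lv Aw Au B lg oe fr r₀ ct)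
    {c : ν} {t : α} (ht : t ∈ Nr c) (h2 : Near2 (ES S) (starO Lv oe c) B (starX rw lg c) t)
    {r₁ r₂ : β} (hr₁ : r₁ ∈ V) (hr₂ : r₂ ∈ V) (hne : r₁ ≠ r₂) (hs₁ : SeeR rw S t r₁)
    (hs₂ : SeeR rw S t r₂) :
    TPl rw V nd₁ nd₂ S Fa Nr Tr Lv Aw B lg oe fr (fun _ c => cond c r₂ r₁)
      (fun _ c => {p | p ∈ rw (cond c r₂ r₁) ∧ p ∈ Aw (cond c r₂ r₁) t}) t := by
  have hat₁ := h.near_see c t ht r₁ hr₁ hs₁
  have hat₂ := h.near_see c t ht r₂ hr₂ hs₂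
  obtain ⟨a, ha⟩ := (h.legs r₁ hr₁ c hat₁).all r₁ hr₁ hat₁
  obtain ⟨b, hb⟩ := (h.legs r₁ hr₁ c hat₁).all r₂ hr₂ hat₂
  have hab : a ≠ b := fun h1 => hne (by rw [← ha, ← hb, h1])
  obtain ⟨i, j, k, hij, hik, hjk, hi, hj, hk, hcl, hB⟩ := h2
  have pa := h.near_place ht hr₁ hs₁ ha
  have pb := h.near_place ht hr₂ hs₂ hb
  have hak : a ≠ k := by
    rintro rfl
    obtain ⟨x, hx, hx'⟩ := pa
    exact hx' (hk x hx)
  have hbk : b ≠ k := by
    rintro rfl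
    obtain ⟨x, hx, hx'⟩ := pb
    exact hx' (hk x hx)
  refine ⟨?_, Or.inr (Or.inl ⟨c, a, b, k, ht, hab, hak, hbk, ha.symm, hb.symm, ?_, ?_,
    fun _ => rfl, pa, pb, hk, hcl, hB⟩)⟩
  · intro c
    cases c
    exacts [hr₁, hr₂]
  · rw [ha]
    exact hs₁
  · rw [hb]
    exact hs₂

/-! ### the families -/

variable {m K c₀ W₀ : ℕ} {R : ℕ → β} {C : ℕ → ℕ → α} {γ : Set ℕ} {wf : ℕ → Finset ℕ → α}
  {ki kj kk : ℕ → ℕ} {Qr : β → Cell α → Prop} {σ : Sta α β}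

/-- **Near families at `y` which split a cut label have exactly two places**, off a bounded set of
windows. -/
theorem LabFacts3.badAt
    (h : LabFacts3 rw V nd₁ nd₂ S Dg Fa On Dt Nr Tr Tu Lv Aw Au B lg oe fr r₀ ct)
    (hf : LabFam V nd₁ nd₂ S Dg Fa On Dt Nr Tr Lv Aw ct m K R C γ wf ki kj kk) (hK : 6 ≤ K)
    (hC : ∀ i < m, R i ∈ V → ∀ a < K, C i a ∈ rw (R i))
    (hinj : ∀ k < m, ∀ a < K, ∀ b < K, C k a = C k b → a = b) (y : ν) :
    ∃ Bad : Finset ℕ, Bad.card ≤ 10 * m ∧ ∀ Cut : Set ℕ,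
      InvF nd₁ nd₂ R (FarK γ kk) (SameK γ kk) (NearK nd₁ nd₂ R γ ki kk)
        (SplF V S m K R C wf) Cut →
      ∀ i ∈ Cut, ∀ e, NearK nd₁ nd₂ R γ ki kk y e → SplF V S m K R C wf e i →
      ∀ x, 5 * x + 5 < K → x ∉ Bad →
        Near2 (ES S) (starO Lv oe y) B (starX rw lg y) (wf e (Qw x)) ∧
          TwoL rw Lv lg oe y (wf e (Qw x)) := by
  classical
  by_cases hex : ∃ r ∈ V, At nd₁ nd₂ r y
  swap
  · refine ⟨∅, by simp, ?_⟩
    intro Cut _ i _ e he hs x hx _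
    exfalso
    refine hex ⟨R i, hs.1.2, ?_⟩
    exact h.near_see y _ (hf.nearK_mem he (Qw_sub hx) (Qw_card x)) _ hs.1.2 (hs.see hC hx)
  obtain ⟨r, hr, hc⟩ := hex
  obtain ⟨D, hD, -, key⟩ := h.swallowTwo hf hK hC hinj hr hc (Finset.Subset.refl _)
  refine ⟨badW D, (badW_card D).trans (by omega), ?_⟩
  intro Cut hI i hi e he hs x hx hxb
  have hat : At nd₁ nd₂ (R i) y :=
    h.near_see y _ (hf.nearK_mem he (Qw_sub hx) (Qw_card x)) _ hs.1.2 (hs.see hC hx)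
  obtain ⟨p, hp, hpi⟩ := hI y i hat hi
  refine key p i hp (Relation.ReflTransGen.mono (fun _ _ h1 => h1.1) _ _ hpi.2) e he hs x ?_
  intro a ha ha'
  exact ⟨Finset.mem_range.2 (by omega), badW_off hxb ha ha'⟩

/-- .. for all vertices together -/
theorem LabFacts3.badAll
    (h : LabFacts3 rw V nd₁ nd₂ S Dg Fa On Dt Nr Tr Tu Lv Aw Au B lg oe fr r₀ ct)
    (hf : LabFam V nd₁ nd₂ S Dg Fa On Dt Nr Tr Lv Aw ct m K R C γ wf ki kj kk) (hK : 6 ≤ K)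
    (hC : ∀ i < m, R i ∈ V → ∀ a < K, C i a ∈ rw (R i))
    (hinj : ∀ k < m, ∀ a < K, ∀ b < K, C k a = C k b → a = b) :
    ∃ Bad : Finset ℕ, Bad.card ≤ 20 * m * m ∧ ∀ Cut : Set ℕ,
      InvF nd₁ nd₂ R (FarK γ kk) (SameK γ kk) (NearK nd₁ nd₂ R γ ki kk)
        (SplF V S m K R C wf) Cut →
      ∀ y, ∀ i ∈ Cut, ∀ e, NearK nd₁ nd₂ R γ ki kk y e → SplF V S m K R C wf e i →
      ∀ x, 5 * x + 5 < K → x ∉ Bad →
        Near2 (ES S) (starO Lv oe y) B (starX rw lg y) (wf e (Qw x)) ∧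
          TwoL rw Lv lg oe y (wf e (Qw x)) := by
  classical
  choose Bad hBad hkey using fun y => h.badAt hf hK hC hinj y
  refine ⟨(Finset.range m).biUnion fun k => Bad (nd₁ (R k)) ∪ Bad (nd₂ (R k)), ?_, ?_⟩
  · refine (Finset.card_biUnion_le).trans ?_
    refine (Finset.sum_le_card_nsmul _ _ (20 * m) fun k _ => ?_).trans ?_
    · have h1 := Finset.card_union_le (Bad (nd₁ (R k))) (Bad (nd₂ (R k)))
      have h2 := hBad (nd₁ (R k))
      have h3 := hBad (nd₂ (R k))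
      omega
    · rw [Finset.card_range, smul_eq_mul]
      have : m * (20 * m) = 20 * m * m := by ring
      omega
  · intro Cut hI y i hi e he hs x hx hxb
    refine hkey y Cut hI i hi e he hs x hx fun hx' => hxb ?_
    have hkm := (hf.ran e he.1).2.1.1
    rw [Finset.mem_biUnion]
    refine ⟨ki e, Finset.mem_range.2 hkm, ?_⟩
    rw [Finset.mem_union]
    rcases he.2 with ⟨-, h1⟩ | ⟨-, h1⟩
    · exact Or.inl (h1 ▸ hx')
    · exact Or.inr (h1 ▸ hx')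

/-- **Members of rung families which split a cut label are exits of the root cell.** -/
theorem LabFacts3.rungEx
    (h : LabFacts3 rw V nd₁ nd₂ S Dg Fa On Dt Nr Tr Tu Lv Aw Au B lg oe fr r₀ ct)
    (hf : LabFam V nd₁ nd₂ S Dg Fa On Dt Nr Tr Lv Aw ct m K R C γ wf ki kj kk)
    (hC : ∀ i < m, R i ∈ V → ∀ a < K, C i a ∈ rw (R i)) {e i x : ℕ}
    (he : FarK γ kk e ∨ ∃ y, NearK nd₁ nd₂ R γ ki kk y e ∧ TwoL rw Lv lg oe y (wf e (Qw x)))
    (hs : SplF V S m K R C wf e i) (hx : 5 * x + 5 < K) :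
    ExC (ES S) (RowD rw V Dg Fa Nr Tr Lv lg oe) (rw (R i)) (Tr (R i)) (wf e (Qw x)) := by
  have heγ : e ∈ γ := by
    rcases he with he | ⟨y, he, -⟩
    exacts [he.1, he.1]
  have hDg := (hf.wit e heγ (Qw x) (Qw_sub hx) (Qw_card x)).1
  have hk : wf e (Qw x) ∈ Fa ∨ ∃ u, wf e (Qw x) ∈ Nr u := by
    rcases he with he | ⟨y, he, -⟩
    · exact Or.inl (hf.farK_mem he (Qw_sub hx) (Qw_card x))
    · exact Or.inr ⟨y, hf.nearK_mem he (Qw_sub hx) (Qw_card x)⟩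
  obtain ⟨p, q, hp1, hp2, hq1, hq2, hpq⟩ := hs.2 x hx
  refine ⟨⟨hDg, ?_⟩, h.rung_notTr hk hs.1.2, C i p, hC i hs.1.1 hs.1.2 p (by omega), C i q,
    hC i hs.1.1 hs.1.2 q (by omega), hpq⟩
  rcases he with he | ⟨y, he, h2⟩
  · exact Or.inl (hf.farK_mem he (Qw_sub hx) (Qw_card x))
  · exact Or.inr (Or.inl ⟨y, hf.nearK_mem he (Qw_sub hx) (Qw_card x), h2⟩)

/-- **The rule `one` of `cut_list`**: a rung family does not join a cut and an uncut label of one row. -/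
theorem InvS.one
    (h : LabFacts3 rw V nd₁ nd₂ S Dg Fa On Dt Nr Tr Tu Lv Aw Au B lg oe fr r₀ ct)
    (hf : LabFam V nd₁ nd₂ S Dg Fa On Dt Nr Tr Lv Aw ct m K R C γ wf ki kj kk) (hK : 6 ≤ K)
    (hC : ∀ i < m, R i ∈ V → ∀ a < K, C i a ∈ rw (R i))
    (hinj : ∀ k < m, ∀ a < K, ∀ b < K, C k a = C k b → a = b)
    (hσ : InvS rw V nd₁ nd₂ S (RowD rw V Dg Fa Nr Tr Lv lg oe) Tr Lv Aw Qr m K R C γ wf ki kk
      c₀ W₀ σ) (hW : 10 * m + c₀ * m < W₀)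
    (hI : InvF nd₁ nd₂ R (FarK γ kk) (SameK γ kk) (NearK nd₁ nd₂ R γ ki kk)
      (SplF V S m K R C wf) (csS V m R σ)) {e i j : ℕ}
    (he : FarK γ kk e ∨ ∃ y, NearK nd₁ nd₂ R γ ki kk y e) (hi : SplF V S m K R C wf e i)
    (hj : SplF V S m K R C wf e j) (hij : R i = R j) (hic : i ∈ csS V m R σ) :
    j ∈ csS V m R σ := by
  classical
  have hcard : 10 * m < σ.W.card := by
    have h1 := hσ.card
    have h2 := Nat.mul_le_mul_left c₀ (csS_fin (V := V) (m := m) (R := R) (σ := σ)).2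
    omega
  obtain ⟨x, hx, hex⟩ : ∃ x ∈ σ.W, FarK γ kk e ∨
      ∃ y, NearK nd₁ nd₂ R γ ki kk y e ∧ TwoL rw Lv lg oe y (wf e (Qw x)) := by
    rcases he with he | ⟨y, he⟩
    · obtain ⟨x, hx⟩ := Finset.card_pos.1 (show 0 < σ.W.card by omega)
      exact ⟨x, hx, Or.inl he⟩
    · obtain ⟨Bad, hB, key⟩ := h.badAt hf hK hC hinj y
      obtain ⟨x, hx, hxb⟩ := Finset.exists_mem_notMem_of_card_lt_card
        (show Bad.card < σ.W.card by omega)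
      exact ⟨x, hx, Or.inr ⟨y, he, (key _ hI i hic e he hi x (hσ.win x hx) hxb).2⟩⟩
  have hxK := hσ.win x hx
  have hEx := h.rungEx hf hC hex hi hxK
  obtain ⟨-, q, hq, hqk⟩ := hic
  have h1 : SeeB (ES S) C (σ.W : Set ℕ) (wf e (Qw x)) q.k := by
    rw [hqk]
    exact (hi.2 x hxK).toB hx
  have h2 : SeeB (ES S) C (σ.W : Set ℕ) (wf e (Qw x)) j := (hj.2 x hxK).toB hx
  obtain ⟨q', hq', hk', -⟩ := (hσ.tr (R i) hi.1.2).same_cut (fun x hx => hσ.win x hx) hEx hq h1 h2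
    ⟨hj.1.1, hij.symm⟩ (fun p hp => by
      show C j p ∈ rw (R i)
      rw [hij]
      exact hC j hj.1.1 hj.1.2 p hp)
  refine ⟨hj.1, q', ?_, hk'⟩
  rw [← hij]
  exact hq'

/-- one usable window is enough -/
lemma SplW.toF (hf : LabFam V nd₁ nd₂ S Dg Fa On Dt Nr Tr Lv Aw ct m K R C γ wf ki kj kk)
    (hinj : ∀ k < m, ∀ a < K, ∀ b < K, C k a = C k b → a = b) {W : Set ℕ} {e k : ℕ} (he : e ∈ γ)
    (hk : k < m) (hkV : R k ∈ V) (hne : ∃ x, x ∈ W) (hW : ∀ x ∈ W, 5 * x + 5 < K)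
    (hs : SplW S C W (famF wf) e k) : SplF V S m K R C wf e k := by
  obtain ⟨x, hx⟩ := hne
  exact ⟨⟨hk, hkV⟩, fun y hy => hf.seeW hinj he hk (hW x hx) hy (hs x hx)⟩

/-- **The fields `rung`, `rung2`, `near` of `EndH`**, for the windows off `Bad`. -/
theorem InvS.endRung
    (h : LabFacts3 rw V nd₁ nd₂ S Dg Fa On Dt Nr Tr Tu Lv Aw Au B lg oe fr r₀ ct)
    (hf : LabFam V nd₁ nd₂ S Dg Fa On Dt Nr Tr Lv Aw ct m K R C γ wf ki kj kk) (hK : 6 ≤ K)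
    (hC : ∀ i < m, R i ∈ V → ∀ a < K, C i a ∈ rw (R i))
    (hinj : ∀ k < m, ∀ a < K, ∀ b < K, C k a = C k b → a = b)
    (hσ : InvS rw V nd₁ nd₂ S (RowD rw V Dg Fa Nr Tr Lv lg oe) Tr Lv Aw Qr m K R C γ wf ki kk
      c₀ W₀ σ)
    (hI : InvF nd₁ nd₂ R (FarK γ kk) (SameK γ kk) (NearK nd₁ nd₂ R γ ki kk)
      (SplF V S m K R C wf) (csS V m R σ)) :
    ∃ Bad : Finset ℕ, Bad.card ≤ 20 * m * m ∧ ∀ W : Set ℕ, W ⊆ (σ.W : Set ℕ) →
      (∀ x ∈ W, x ∉ Bad) → (∃ x, x ∈ W) → ∀ D : Set (Cd α),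
      (∀ q ∈ D, (q.k < m ∧ R q.k ∈ V) ∧ q ∈ σ.D (R q.k)) →
      (∀ e ∈ γ, kk e ≤ 2 → ∀ q ∈ D, SplW S C W (famF wf) e q.k →
        SandP W q.d q.G (fun x => {p | p ∈ rw (R q.k) ∧ p ∈ Aw (R q.k) (famF wf e x)})) ∧
      (∀ e ∈ γ, kk e ≤ 2 → ∀ q ∈ D, ∀ q' ∈ D, R q.k = R q'.k → SplW S C W (famF wf) e q.k →
        SplW S C W (famF wf) e q'.k → q.z = q'.z) ∧
      ∀ e ∈ γ, kk e = 1 ∨ kk e = 2 → ∀ q ∈ D, ∀ q' ∈ D, R q.k ≠ R q'.k →
        SplW S C W (famF wf) e q.k → SplW S C W (famF wf) e q'.k → ∀ x ∈ W,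
        TPl rw V nd₁ nd₂ S Fa Nr Tr Lv Aw B lg oe fr (fun _ c => cond c (R q'.k) (R q.k))
          (fun _ c => {p | p ∈ rw (cond c (R q'.k) (R q.k)) ∧
            p ∈ Aw (cond c (R q'.k) (R q.k)) (famF wf e x)}) (famF wf e x) := by
  classical
  obtain ⟨Bad, hB, key⟩ := h.badAll hf hK hC hinj
  refine ⟨Bad, hB, ?_⟩
  intro W hW hWb hne D hD
  have hwin : ∀ x ∈ W, 5 * x + 5 < K := fun x hx => hσ.win x (Finset.mem_coe.1 (hW hx))
  have cut : ∀ q ∈ D, q.k ∈ csS V m R σ := fun q hq => ⟨(hD q hq).1, q, (hD q hq).2, rfl⟩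
  -- the kind of a rung family
  have kind : ∀ e ∈ γ, kk e ≤ 2 → FarK γ kk e ∨ ∃ y, NearK nd₁ nd₂ R γ ki kk y e := by
    intro e he hk
    rcases Nat.eq_zero_or_pos (kk e) with h0 | h0
    · exact Or.inl ⟨he, h0⟩
    · right
      by_cases h1 : kk e = 1
      · exact ⟨_, he, Or.inl ⟨h1, rfl⟩⟩
      · exact ⟨_, he, Or.inr ⟨by omega, rfl⟩⟩
  have ex : ∀ e ∈ γ, kk e ≤ 2 → ∀ q ∈ D, SplW S C W (famF wf) e q.k → ∀ x ∈ W,
      ExC (ES S) (RowD rw V Dg Fa Nr Tr Lv lg oe) (rw (R q.k)) (Tr (R q.k)) (wf e (Qw x)) := by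
    intro e he hk q hq hs x hx
    have hsF := SplW.toF hf hinj he (hD q hq).1.1 (hD q hq).1.2 hne hwin hs
    refine h.rungEx hf hC ?_ hsF (hwin x hx)
    rcases kind e he hk with h1 | ⟨y, h1⟩
    · exact Or.inl h1
    · exact Or.inr ⟨y, h1, (key _ hI y q.k (cut q hq) e h1 hsF x (hwin x hx) (hWb x hx)).2⟩
  refine ⟨?_, ?_, ?_⟩
  · intro e he hk q hq hs
    have hT := (hσ.tr (R q.k) (hD q hq).1.2).monoW W hW
    refine (hT.exit_sand he (fun x hx => ex e he hk q hq hs x hx) (hD q hq).2 hs).congr ?_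
    intro x _
    ext a
    show (a ∈ rw (R q.k) ∧ a ∈ Aw (R q.k) (famF wf e x)) ↔ (a ∈ (∅ : Set α) ∪
      cX (rw (R q.k)) (Aw (R q.k) (famF wf e x)))
    rw [empty_union]
    exact Iff.rfl
  · intro e he hk q hq q' hq' hr hs hs'
    have hT := (hσ.tr (R q.k) (hD q hq).1.2).monoW W hW
    obtain ⟨x, hx⟩ := hne
    have hq2 : q' ∈ σ.D (R q.k) := by
      rw [hr]
      exact (hD q' hq').2
    exact (hT.exit_same2 (ex e he hk q hq hs x hx) (hD q hq).2 ((hs x hx).toB hx) hq2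
      ((hs' x hx).toB hx)).1.symm
  · intro e he hk q hq q' hq' hr hs hs' x hx
    have hk2 : kk e ≤ 2 := by omega
    have hsF := SplW.toF hf hinj he (hD q hq).1.1 (hD q hq).1.2 hne hwin hs
    have hsF' := SplW.toF hf hinj he (hD q' hq').1.1 (hD q' hq').1.2 hne hwin hs'
    obtain ⟨y, h1⟩ : ∃ y, NearK nd₁ nd₂ R γ ki kk y e := by
      rcases kind e he hk2 with h1 | h1
      · have := h1.2
        omega
      · exact h1
    exact h.tplNear (hf.nearK_mem h1 (Qw_sub (hwin x hx)) (Qw_card x))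
      (key _ hI y q.k (cut q hq) e h1 hsF x (hwin x hx) (hWb x hx)).1 (hD q hq).1.2
      (hD q' hq').1.2 hr (hsF.see hC (hwin x hx)) (hsF'.see hC (hwin x hx))

/-- **The field `same` of `EndH`.** -/
theorem InvS.endSame
    (h : LabFacts3 rw V nd₁ nd₂ S Dg Fa On Dt Nr Tr Tu Lv Aw Au B lg oe fr r₀ ct)
    (hf : LabFam V nd₁ nd₂ S Dg Fa On Dt Nr Tr Lv Aw ct m K R C γ wf ki kj kk)
    (hC : ∀ i < m, R i ∈ V → ∀ a < K, C i a ∈ rw (R i))
    (hσ : InvS rw V nd₁ nd₂ S (RowD rw V Dg Fa Nr Tr Lv lg oe) Tr Lv Aw Qr m K R C γ wf ki kk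
      c₀ W₀ σ) {W : Set ℕ} (hW : W ⊆ (σ.W : Set ℕ)) (hne : ∃ x, x ∈ W) {D : Set (Cd α)}
    (hD : ∀ q ∈ D, (q.k < m ∧ R q.k ∈ V) ∧ q ∈ σ.D (R q.k)) :
    ∀ e ∈ γ, kk e = 3 → ∀ q ∈ D, ∀ q' ∈ D, R q.k = R q'.k → q.z ≠ q'.z →
      SplW S C W (famF wf) e q.k → SplW S C W (famF wf) e q'.k → ∃ P₁ P₂ : ℕ → Set α,
      (∀ x ∈ W, PlSame (ES S) (rw (R q.k)) (Lv (nd₁ (R q.k)) (famF wf e x))
        (Lv (nd₂ (R q.k)) (famF wf e x)) (famF wf e x) (P₁ x) (P₂ x)) ∧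
      ((SandP W q.d q.G P₁ ∧ SandP W q'.d q'.G P₂) ∨
        (SandP W q'.d q'.G P₁ ∧ SandP W q.d q.G P₂)) := by
  intro e he hk q hq q' hq' hr hz hs hs'
  have hwin : ∀ x ∈ W, 5 * x + 5 < K := fun x hx => hσ.win x (Finset.mem_coe.1 (hW hx))
  obtain ⟨⟨hkm, hkV⟩, hqD⟩ := hD q hq
  have hq'D : q' ∈ σ.D (R q.k) := by
    rw [hr]
    exact (hD q' hq').2
  have hmem : ∀ x ∈ W, wf e (Qw x) ∈ Tr (R (ki e)) := fun x hx =>
    hf.sameK_mem ⟨he, hk⟩ (Qw_sub (hwin x hx)) (Qw_card x)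
  have hki : R q.k = R (ki e) := by
    obtain ⟨x, hx⟩ := hne
    exact h.same_see _ (hf.ran e he).2.1.2 _ (hmem x hx) _ hkV (hs.see hC hwin hkm hkV hx)
  have hT : ∀ x ∈ W, wf e (Qw x) ∈ Tr (R q.k) := fun x hx => by
    rw [hki]
    exact hmem x hx
  have hRD : ∀ x ∈ W, wf e (Qw x) ∈ RowD rw V Dg Fa Nr Tr Lv lg oe := fun x hx =>
    ⟨(hf.wit e he (Qw x) (Qw_sub (hwin x hx)) (Qw_card x)).1, Or.inr (Or.inr ⟨_, hkV, hT x hx⟩)⟩
  rcases ((hσ.tr (R q.k) hkV).monoW W hW).same_sand (row := rw (R q.k)) CInv.root he hT hRD hqD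
    hq'D hs hs' with h1 | ⟨P₁, P₂, h1, h2, h3⟩ | ⟨P₁, P₂, h1, h2, h3⟩
  · exact absurd h1.1.symm hz
  · exact ⟨P₁, P₂, h1, Or.inl ⟨h2, h3⟩⟩
  · exact ⟨P₁, P₂, h1, Or.inr ⟨h2, h3⟩⟩

end

end TST
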