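import Pool.Agent.TST.StarCell
import Pool.Agent.TST.StarLab
import Pool.Agent.TST.LayDef

/-!
# Cells of a row seen from an end (T-star, near step; helper53)

`InnC`, `OutC`: the two kinds of cells of a row seen from an end `c`: innermost cells (with a state
`StIn` of the star of `c`), and cells in the outer part of an exit of a state.  Children of such cells
are such cells (`QcN`).  Families of near rungs of `c` are free with respect to the near rungs of `c`,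
on an outer cell always, on an innermost cell if their members have left the star (`near_leaf`).
-/

set_option autoImplicit false

open Set

namespace TST

universe u v w

variable {α : Type u} {β : Type v} {ν : Type w} {rw : β → Set α} {V : Set β} {nd₁ nd₂ : β → ν}
  {S : α → α → α → Prop} {Dg Fr On Dt : Set α} {Nr : ν → Set α} {Tr : β → Set α}
  {Tu : ν → Set α} {Lv : ν → α → Set α} {Aw : β → α → Set α} {Au : ν → α → Fin 3 → Set α}
  {B : α → α → α → α → Prop} {lg : ν → Fin 3 → β} {oe : ν → Fin 3 → ν} {fr : α → Bool → β}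
  {r₀ : α → β} {ct : α → ν}

/-- **An innermost cell at the end `c` of the row `r`**, with its state of the star of `c` -/
structure InnC (rw : β → Set α) (V : Set β) (nd₁ nd₂ : β → ν) (S : α → α → α → Prop) (Fr : Set α)
    (Nr : ν → Set α) (Tr : β → Set α) (Tu : ν → Set α) (Lv : ν → α → Set α)
    (Au : ν → α → Fin 3 → Set α) (B : α → α → α → α → Prop) (lg : ν → Fin 3 → β)
    (oe : ν → Fin 3 → ν) (r : β) (c : ν) (l : Fin 3) (g : Cell α) (Y : Fin 3 → Set α)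
    (A' : α → Fin 3 → Set α) : Prop where
  st : StIn (ES S) (starO Lv oe c) (Au c) B (starX rw lg c) (Tu c)
    (starW rw V nd₁ nd₂ S Fr Nr c) l g.X Y A'
  hT : ∀ s, s ∈ g.T ↔ s ∈ Tr r ∧ ∀ x ∈ rw r, x ∉ g.X → x ∈ Lv (oe c l) s
  hA : ∀ s ∈ Tr r, s ∉ g.T → (∃ x ∈ g.X, ∃ y ∈ g.X, ¬ ES S s x y) → ∀ x ∈ g.X,
    (x ∈ g.A s ↔ (nd₁ r = c ∧ x ∈ Lv c s) ∨ (nd₁ r ≠ c ∧ x ∉ Lv c s))

/-- **A cell in the outer part of an exit of a state of the star of `c`** -/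
def OutC (rw : β → Set α) (V : Set β) (nd₁ nd₂ : β → ν) (S : α → α → α → Prop) (Fr : Set α)
    (Nr : ν → Set α) (Tr : β → Set α) (Tu : ν → Set α) (Lv : ν → α → Set α)
    (Au : ν → α → Fin 3 → Set α) (B : α → α → α → α → Prop) (lg : ν → Fin 3 → β)
    (oe : ν → Fin 3 → ν) (r : β) (c : ν) (l : Fin 3) (g : Cell α) : Prop :=
  ∃ (Y : Fin 3 → Set α) (A' : α → Fin 3 → Set α) (z f : α),
    StarReach (ES S) (starO Lv oe c) (Au c) B (starX rw lg c) (Tu c)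
      (starW rw V nd₁ nd₂ S Fr Nr c) Y A' ∧
    z ∈ Tu c ∪ starW rw V nd₁ nd₂ S Fr Nr c ∧
    z ∉ SigT (starO Lv oe c) (starX rw lg c) (Tu c) Y ∧ f ∈ Y l ∧ f ∉ A' z l ∧
    (∀ x ∈ g.X, x ∈ Y l ∧ x ∈ A' z l) ∧ g.T ⊆ Tr r ∧
    g.T ⊆ SigT (starO Lv oe c) (starX rw lg c) (Tu c) Y ∧
    ∀ s ∈ g.T, ∀ x ∈ Y l, x ∉ A' z l → x ∈ Lv c s

/-- a wall at an innermost cell: an exit of the state, with the same classes -/
structure WallC (rw : β → Set α) (V : Set β) (nd₁ nd₂ : β → ν) (S : α → α → α → Prop)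
    (Fr : Set α) (Nr : ν → Set α) (Tu : ν → Set α) (Lv : ν → α → Set α) (lg : ν → Fin 3 → β)
    (oe : ν → Fin 3 → ν) (r : β) (c : ν) (l : Fin 3) (g : Cell α) (Y : Fin 3 → Set α)
    (A' : α → Fin 3 → Set α) (z : α) : Prop where
  ex : z ∈ Tu c ∪ starW rw V nd₁ nd₂ S Fr Nr c
  nT : z ∉ SigT (starO Lv oe c) (starX rw lg c) (Tu c) Y
  spl : ∃ x ∈ g.X, ∃ y ∈ g.X, ¬ ES S z x y
  agr : ∀ x ∈ g.X, (x ∈ g.A z ↔ (nd₁ r = c ∧ x ∉ A' z l) ∨ (nd₁ r ≠ c ∧ x ∈ A' z l))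

/-- **The kinds of the cells of the row `r`** -/
structure QcN (rw : β → Set α) (V : Set β) (nd₁ nd₂ : β → ν) (S : α → α → α → Prop) (Fr : Set α)
    (Nr : ν → Set α) (Tr : β → Set α) (Tu : ν → Set α) (Lv : ν → α → Set α) (Aw : β → α → Set α)
    (Au : ν → α → Fin 3 → Set α) (B : α → α → α → α → Prop) (lg : ν → Fin 3 → β)
    (oe : ν → Fin 3 → ν) (r : β) (g : Cell α) : Prop where
  sX : g.X ⊆ rw r
  sT : g.T ⊆ Tr r
  root : ∀ e, e ∉ Tr r → g.A e = Aw r e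
  kind : ∀ c, At nd₁ nd₂ r c → ∀ l, lg c l = r →
    (∃ Y A', InnC rw V nd₁ nd₂ S Fr Nr Tr Tu Lv Au B lg oe r c l g Y A') ∨
      OutC rw V nd₁ nd₂ S Fr Nr Tr Tu Lv Au B lg oe r c l g

lemma fin3_two (a b c d : Fin 3) (h1 : a ≠ b) (h2 : a ≠ c) (h3 : a ≠ d) (h4 : c ≠ b) (h5 : d ≠ b) :
    c = d := by
  rw [ne_eq, Fin.ext_iff] at h1 h2 h3 h4 h5
  rw [Fin.ext_iff]
  omega

lemma OutC.mono {r : β} {c : ν} {l : Fin 3} {g g' : Cell α}
    (h : OutC rw V nd₁ nd₂ S Fr Nr Tr Tu Lv Au B lg oe r c l g) (hX : g'.X ⊆ g.X)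
    (hT : g'.T ⊆ g.T) : OutC rw V nd₁ nd₂ S Fr Nr Tr Tu Lv Au B lg oe r c l g' := by
  obtain ⟨Y, A', z, f, h1, h2, h3, h4, h5, h6, h7, h8, h9⟩ := h
  exact ⟨Y, A', z, f, h1, h2, h3, h4, h5, fun x hx => h6 x (hX hx), hT.trans h7, hT.trans h8,
    fun s hs => h9 s (hT hs)⟩

lemma sp_of {S : α → α → α → Prop} {z : α} {X : Set α} (h : ∃ x ∈ X, ∃ y ∈ X, ¬ ES S z x y) :
    ∃ x ∈ X, ∃ y ∈ X, x ≠ y ∧ S z x y := by
  obtain ⟨x, hx, y, hy, h1⟩ := h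
  refine ⟨x, hx, y, hy, fun h2 => h1 (Or.inl h2), ?_⟩
  by_contra h2
  exact h1 (Or.inr h2)

lemma see_of {S : α → α → α → Prop} {z : α} {X : Set α} {r : β}
    (h : ∃ x ∈ X, ∃ y ∈ X, ¬ ES S z x y) (hX : X ⊆ rw r) : SeeR rw S z r := by
  obtain ⟨x, hx, y, hy, h1⟩ := sp_of h
  exact ⟨x, hX hx, y, hX hy, h1⟩

namespace LabFacts3

variable (h : LabFacts3 rw V nd₁ nd₂ S Dg Fr On Dt Nr Tr Tu Lv Aw Au B lg oe fr r₀ ct)
  {r : β} {c : ν} {l : Fin 3} {g : Cell α} {Y : Fin 3 → Set α} {A' : α → Fin 3 → Set α} {z : α}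

include h

/-- the elements of an innermost cell are in the state -/
lemma inn_sig (hr : r ∈ V) (hc : At nd₁ nd₂ r c) (hl : lg c l = r)
    (hI : InnC rw V nd₁ nd₂ S Fr Nr Tr Tu Lv Au B lg oe r c l g Y A') :
    g.T ⊆ SigT (starO Lv oe c) (starX rw lg c) (Tu c) Y := by
  intro s hs
  obtain ⟨h1, h2⟩ := (hI.hT s).1 hs
  refine ⟨h.same_T r hr s h1 c hc, fun i x hx hxY => ?_⟩
  by_cases hi : i = l
  · subst hi
    rw [hI.st.leg] at hxY
    refine h2 x ?_ hxY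
    rw [← hl]
    exact hx
  · exact h.same_O r hr c hc s h1 i
      (fun h3 => hi ((h.legs r hr c hc).inj i l (h3.trans hl.symm))) x hx

/-- both classes of a wall -/
lemma wall_two (_hr : r ∈ V) (_hc : At nd₁ nd₂ r c)
    (hI : InnC rw V nd₁ nd₂ S Fr Nr Tr Tu Lv Au B lg oe r c l g Y A')
    (hz : WallC rw V nd₁ nd₂ S Fr Nr Tu Lv lg oe r c l g Y A' z) :
    (∃ x ∈ g.X, x ∈ A' z l) ∧ ∃ x ∈ g.X, x ∉ A' z l := by
  obtain ⟨x, hx, y, hy, h1⟩ := hz.spl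
  have hrun := hI.st.reach.run (h.starRun c)
  have hxY : x ∈ Y l := by rw [hI.st.leg]; exact hx
  have hyY : y ∈ Y l := by rw [hI.st.leg]; exact hy
  rw [(hrun.one hz.ex hz.nT).1 l x hxY y hyY] at h1
  by_cases h2 : x ∈ A' z l
  · exact ⟨⟨x, hx, h2⟩, y, hy, fun h3 => h1 ⟨fun _ => h3, fun _ => h2⟩⟩
  · refine ⟨⟨y, hy, ?_⟩, x, hx, h2⟩
    by_contra h3
    exact h1 ⟨fun h4 => absurd h4 h2, fun h4 => absurd h4 h3⟩

/-- **The children of an innermost cell at a wall**, seen from `c`. -/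
theorem inn_child (hr : r ∈ V) (hc : At nd₁ nd₂ r c) (hl : lg c l = r)
    (hI : InnC rw V nd₁ nd₂ S Fr Nr Tr Tu Lv Au B lg oe r c l g Y A')
    (hz : WallC rw V nd₁ nd₂ S Fr Nr Tu Lv lg oe r c l g Y A' z) :
    ((∃ Z A₂, InnC rw V nd₁ nd₂ S Fr Nr Tr Tu Lv Au B lg oe r c l
        (g.left (Lv (nd₁ r)) (Lv (nd₂ r)) z) Z A₂) ∨
      OutC rw V nd₁ nd₂ S Fr Nr Tr Tu Lv Au B lg oe r c l
        (g.left (Lv (nd₁ r)) (Lv (nd₂ r)) z)) ∧
    ((∃ Z A₂, InnC rw V nd₁ nd₂ S Fr Nr Tr Tu Lv Au B lg oe r c l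
        (g.right (Lv (nd₁ r)) (Lv (nd₂ r)) z) Z A₂) ∨
      OutC rw V nd₁ nd₂ S Fr Nr Tr Tu Lv Au B lg oe r c l
        (g.right (Lv (nd₁ r)) (Lv (nd₂ r)) z)) := by
  obtain ⟨⟨a, ha, haA⟩, b, hb, hbA⟩ := h.wall_two hr hc hI hz
  have hsig := h.inn_sig hr hc hl hI
  have hTr : g.T ⊆ Tr r := fun s hs => ((hI.hT s).1 hs).1
  obtain ⟨Z, A₂, hZ⟩ := hI.st.next (h.starRun c) (h.starX_fin hr hc) ⟨hz.ex, hz.nT⟩ ⟨b, hb, hbA⟩
  have leg := hI.st.leg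
  by_cases hn : nd₁ r = c
  · have e1 : oe c l = nd₂ r := h.oe_eq' hr hc hl hn
    have ag : ∀ x ∈ g.X, (x ∈ g.A z ↔ x ∉ A' z l) := by
      intro x hx
      rw [hz.agr x hx]
      constructor
      · rintro (h1 | h1)
        · exact h1.2
        · exact absurd hn h1.1
      · exact fun h1 => Or.inl ⟨hn, h1⟩
    refine ⟨Or.inl ⟨Z, A₂, ?_, ?_, ?_⟩, Or.inr ?_⟩
    · have e2 : (g.left (Lv (nd₁ r)) (Lv (nd₂ r)) z).X = g.X \ A' z l := by
        ext x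
        show (x ∈ g.X ∧ x ∈ g.A z) ↔ _
        constructor
        · rintro ⟨h1, h2⟩
          exact ⟨h1, (ag x h1).1 h2⟩
        · rintro ⟨h1, h2⟩
          exact ⟨h1, (ag x h1).2 h2⟩
      rw [e2]
      exact hZ
    · intro s
      show (s ∈ g.T ∧ ∀ y ∈ g.X, y ∉ g.A z → y ∈ Lv (nd₂ r) s) ↔ _
      rw [hI.hT s, e1]
      constructor
      · rintro ⟨⟨h1, h2⟩, h3⟩
        refine ⟨h1, fun x hx hxn => ?_⟩
        by_cases hxX : x ∈ g.X
        · exact h3 x hxX fun h4 => hxn ⟨hxX, h4⟩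
        · exact h2 x hx hxX
      · rintro ⟨h1, h2⟩
        refine ⟨⟨h1, fun x hx hxn => h2 x hx fun h4 => hxn h4.1⟩, fun y hy hyn => h2 y ?_
          fun h4 => hyn h4.2⟩
        have h5 := hI.st.reach.sub l
        rw [leg] at h5
        have h6 := h5 hy
        rw [← hl]
        exact h6
    · rintro s hs hsT ⟨x₁, hx₁, x₂, hx₂, h12⟩ x hx
      show x ∈ cA (Lv (nd₁ r)) g.A g.T s ↔ _
      by_cases hsg : s ∈ g.T
      · rw [mem_cA_T hsg, hn]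
        simp only [true_and, ne_eq, not_true_eq_false, false_and, or_false]
      · rw [mem_cA_n hsg]
        exact hI.hA s hs hsg ⟨x₁, hx₁.1, x₂, hx₂.1, h12⟩ x hx.1
    · refine ⟨Y, A', z, b, hI.st.reach, hz.ex, hz.nT, by rw [leg]; exact hb, hbA, ?_, ?_, ?_, ?_⟩
      · rintro x ⟨hx, hxA⟩
        rw [leg]
        refine ⟨hx, ?_⟩
        by_contra h1
        exact hxA ((ag x hx).2 h1)
      · exact fun s hs => hTr hs.1
      · exact fun s hs => hsig hs.1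
      · intro s hs x hx hxA
        rw [leg] at hx
        have h1 := hs.2 x hx (fun h2 => h2 ((ag x hx).2 hxA))
        rw [hn] at h1
        exact h1
  · obtain ⟨e1, e2⟩ := h.oe_eq hr hc hl hn
    have ag : ∀ x ∈ g.X, (x ∈ g.A z ↔ x ∈ A' z l) := by
      intro x hx
      rw [hz.agr x hx]
      constructor
      · rintro (h1 | h1)
        · exact absurd h1.1 hn
        · exact h1.2
      · exact fun h1 => Or.inr ⟨hn, h1⟩
    refine ⟨Or.inr ?_, Or.inl ⟨Z, A₂, ?_, ?_, ?_⟩⟩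
    · refine ⟨Y, A', z, b, hI.st.reach, hz.ex, hz.nT, by rw [leg]; exact hb, hbA, ?_, ?_, ?_, ?_⟩
      · rintro x ⟨hx, hxA⟩
        rw [leg]
        exact ⟨hx, (ag x hx).1 hxA⟩
      · exact fun s hs => hTr hs.1
      · exact fun s hs => hsig hs.1
      · intro s hs x hx hxA
        rw [leg] at hx
        have h1 := hs.2 x hx (fun h2 => hxA ((ag x hx).1 h2))
        rw [← e2] at h1
        exact h1
    · have e3 : (g.right (Lv (nd₁ r)) (Lv (nd₂ r)) z).X = g.X \ A' z l := by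
        ext x
        show (x ∈ g.X ∧ x ∈ (g.A z)ᶜ) ↔ _
        constructor
        · rintro ⟨h1, h2⟩
          exact ⟨h1, fun h3 => h2 ((ag x h1).2 h3)⟩
        · rintro ⟨h1, h2⟩
          exact ⟨h1, fun h3 => h2 ((ag x h1).1 h3)⟩
      rw [e3]
      exact hZ
    · intro s
      show (s ∈ g.T ∧ ∀ y ∈ g.X, y ∉ (g.A z)ᶜ → y ∈ Lv (nd₁ r) s) ↔ _
      rw [hI.hT s, e1]
      constructor
      · rintro ⟨⟨h1, h2⟩, h3⟩
        refine ⟨h1, fun x hx hxn => ?_⟩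
        by_cases hxX : x ∈ g.X
        · exact h3 x hxX fun h4 => hxn ⟨hxX, h4⟩
        · exact h2 x hx hxX
      · rintro ⟨h1, h2⟩
        refine ⟨⟨h1, fun x hx hxn => h2 x hx fun h4 => hxn h4.1⟩, fun y hy hyn => h2 y ?_
          fun h4 => hyn h4.2⟩
        have h5 := hI.st.reach.sub l
        rw [leg] at h5
        have h6 := h5 hy
        rw [← hl]
        exact h6
    · rintro s hs hsT ⟨x₁, hx₁, x₂, hx₂, h12⟩ x hx
      show x ∈ cB (Lv (nd₂ r)) g.A g.T s ↔ _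
      by_cases hsg : s ∈ g.T
      · rw [mem_cB_T hsg, ← e2]
        constructor
        · exact fun h1 => Or.inr ⟨hn, h1⟩
        · rintro (h1 | h1)
          · exact absurd h1.1 hn
          · exact h1.2
      · rw [mem_cB_n hsg]
        exact hI.hA s hs hsg ⟨x₁, hx₁.1, x₂, hx₂.1, h12⟩ x hx.1

/-- real exits are walls -/
theorem wall_real (hr : r ∈ V) (hc : At nd₁ nd₂ r c) (hl : lg c l = r)
    (hI : InnC rw V nd₁ nd₂ S Fr Nr Tr Tu Lv Au B lg oe r c l g Y A') (hX : g.X ⊆ rw r)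
    (hroot : ∀ e, e ∉ Tr r → g.A e = Aw r e) (hzr : z ∉ Tr r)
    (hz : z ∈ starW rw V nd₁ nd₂ S Fr Nr c) (hs : ∃ x ∈ g.X, ∃ y ∈ g.X, ¬ ES S z x y) :
    WallC rw V nd₁ nd₂ S Fr Nr Tu Lv lg oe r c l g Y A' z := by
  have hrun := hI.st.reach.run (h.starRun c)
  refine ⟨Or.inr hz, fun h1 => disjoint_left.1 hrun.dis (sigT_sub h1) hz, hs, fun x hx => ?_⟩
  rw [hroot z hzr]
  exact h.exitA_real hr hc hl hrun hz (see_of hs hX) (hX hx)

/-- near rungs of `c` which have left the state are walls -/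
theorem wall_near (hr : r ∈ V) (hc : At nd₁ nd₂ r c) (hl : lg c l = r)
    (hI : InnC rw V nd₁ nd₂ S Fr Nr Tr Tu Lv Au B lg oe r c l g Y A') (hX : g.X ⊆ rw r)
    (hroot : ∀ e, e ∉ Tr r → g.A e = Aw r e) (hzr : z ∉ Tr r) (hz : z ∈ Nr c)
    (h2 : TwoL rw Lv lg oe c z) (hs : ∃ x ∈ g.X, ∃ y ∈ g.X, ¬ ES S z x y)
    (hle : z ∉ SigT (starO Lv oe c) (starX rw lg c) (Tu c) Y) :
    WallC rw V nd₁ nd₂ S Fr Nr Tu Lv lg oe r c l g Y A' z := by
  refine ⟨Or.inl (h.near_T c z hz), hle, hs, fun x hx => ?_⟩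
  rw [hroot z hzr]
  exact h.exitA_near hr hc hl hI.st.reach (g := g.X) (by rw [hI.st.leg]) hz (sp_of hs) h2 hle
    (hX hx)

/-- same-row links are walls -/
theorem wall_same (hr : r ∈ V) (hc : At nd₁ nd₂ r c) (hl : lg c l = r)
    (hI : InnC rw V nd₁ nd₂ S Fr Nr Tr Tu Lv Au B lg oe r c l g Y A') (hz : z ∈ Tr r)
    (hzT : z ∉ g.T) (hs : ∃ x ∈ g.X, ∃ y ∈ g.X, ¬ ES S z x y) :
    WallC rw V nd₁ nd₂ S Fr Nr Tu Lv lg oe r c l g Y A' z := by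
  have hT := h.same_T r hr z hz c hc
  have hle : z ∉ SigT (starO Lv oe c) (starX rw lg c) (Tu c) Y := by
    rintro ⟨-, h1⟩
    refine hzT ((hI.hT z).2 ⟨hz, fun x hx hxX => h1 l x ?_ ?_⟩)
    · show x ∈ rw (lg c l)
      rw [hl]
      exact hx
    · rw [hI.st.leg]
      exact hxX
  refine ⟨Or.inl hT, hle, hs, fun x hx => ?_⟩
  have hrun := hI.st.reach.run (h.starRun c)
  have leg := hI.st.leg
  have hpl : ∃ x ∈ Y l, x ∉ A' z l := by
    obtain ⟨x, hx, y, hy, h1⟩ := hs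
    have hxY : x ∈ Y l := by rw [leg]; exact hx
    have hyY : y ∈ Y l := by rw [leg]; exact hy
    rw [(hrun.one (Or.inl hT) hle).1 l x hxY y hyY] at h1
    by_cases h2 : x ∈ A' z l
    · exact ⟨y, hyY, fun h3 => h1 ⟨fun _ => h3, fun _ => h2⟩⟩
    · exact ⟨x, hxY, h2⟩
  have h1 := h.exitA_same hr hc hl hI.st.reach hz hle hpl (x := x) (by rw [leg]; exact hx)
  rw [hI.hA z hz hzT hs x hx]
  tauto

omit h in
/-- the children of an outer cell -/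
lemma out_child (r : β) (c : ν) (l : Fin 3) {L R : α → Set α}
    (hO : OutC rw V nd₁ nd₂ S Fr Nr Tr Tu Lv Au B lg oe r c l g) (z : α) :
    OutC rw V nd₁ nd₂ S Fr Nr Tr Tu Lv Au B lg oe r c l (g.left L R z) ∧
      OutC rw V nd₁ nd₂ S Fr Nr Tr Tu Lv Au B lg oe r c l (g.right L R z) :=
  ⟨hO.mono (fun _ hx => hx.1) (fun _ hs => hs.1), hO.mono (fun _ hx => hx.1) (fun _ hs => hs.1)⟩

/-- **The root cell.** -/
theorem qcRoot (hr : r ∈ V) :
    QcN rw V nd₁ nd₂ S Fr Nr Tr Tu Lv Aw Au B lg oe r ⟨∅, rw r, Tr r, Aw r⟩ where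
  sX := Subset.rfl
  sT := Subset.rfl
  root := fun _ _ => rfl
  kind := by
    intro c hc l hl
    obtain ⟨Z, A₂, hZ⟩ := StIn.root (h.starRun c) (h.starX_fin hr hc) l
    refine Or.inl ⟨Z, A₂, ?_, ?_, ?_⟩
    · have e1 : starX rw lg c l = rw r := by
        show rw (lg c l) = rw r
        rw [hl]
      rw [e1] at hZ
      exact hZ
    · exact fun s => ⟨fun h1 => ⟨h1, fun x hx hxn => absurd hx hxn⟩, fun h1 => h1.1⟩
    · exact fun s hs hsT => absurd hs hsT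

/-- **The children of a cell at a wall**: at every end where the cell is innermost, the wall is an exit
of the state (for one state of this end). -/
theorem qc_child (hr : r ∈ V)
    (hQ : QcN rw V nd₁ nd₂ S Fr Nr Tr Tu Lv Aw Au B lg oe r g)
    (hw : ∀ c, At nd₁ nd₂ r c → ∀ l, lg c l = r →
      (∃ Y A', InnC rw V nd₁ nd₂ S Fr Nr Tr Tu Lv Au B lg oe r c l g Y A' ∧
        WallC rw V nd₁ nd₂ S Fr Nr Tu Lv lg oe r c l g Y A' z) ∨
      OutC rw V nd₁ nd₂ S Fr Nr Tr Tu Lv Au B lg oe r c l g) :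
    QcN rw V nd₁ nd₂ S Fr Nr Tr Tu Lv Aw Au B lg oe r
        (g.left (Lv (nd₁ r)) (Lv (nd₂ r)) z) ∧
      QcN rw V nd₁ nd₂ S Fr Nr Tr Tu Lv Aw Au B lg oe r
        (g.right (Lv (nd₁ r)) (Lv (nd₂ r)) z) := by
  have key : ∀ c, At nd₁ nd₂ r c → ∀ l, lg c l = r →
      ((∃ Z A₂, InnC rw V nd₁ nd₂ S Fr Nr Tr Tu Lv Au B lg oe r c l
          (g.left (Lv (nd₁ r)) (Lv (nd₂ r)) z) Z A₂) ∨
        OutC rw V nd₁ nd₂ S Fr Nr Tr Tu Lv Au B lg oe r c l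
          (g.left (Lv (nd₁ r)) (Lv (nd₂ r)) z)) ∧
      ((∃ Z A₂, InnC rw V nd₁ nd₂ S Fr Nr Tr Tu Lv Au B lg oe r c l
          (g.right (Lv (nd₁ r)) (Lv (nd₂ r)) z) Z A₂) ∨
        OutC rw V nd₁ nd₂ S Fr Nr Tr Tu Lv Au B lg oe r c l
          (g.right (Lv (nd₁ r)) (Lv (nd₂ r)) z)) := by
    intro c hc l hl
    rcases hw c hc l hl with ⟨Y, A', h2, h3⟩ | h1
    · exact h.inn_child hr hc hl h2 h3
    · have h2 := out_child r c l (L := Lv (nd₁ r)) (R := Lv (nd₂ r)) h1 z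
      exact ⟨Or.inr h2.1, Or.inr h2.2⟩
  refine ⟨⟨fun x hx => hQ.sX hx.1, fun s hs => hQ.sT hs.1, fun e he => ?_,
    fun c hc l hl => (key c hc l hl).1⟩, ⟨fun x hx => hQ.sX hx.1, fun s hs => hQ.sT hs.1,
    fun e he => ?_, fun c hc l hl => (key c hc l hl).2⟩⟩
  · rw [← hQ.root e he]
    have heT : e ∉ g.T := fun h1 => he (hQ.sT h1)
    ext x
    exact mem_cA_n heT
  · rw [← hQ.root e he]
    have heT : e ∉ g.T := fun h1 => he (hQ.sT h1)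
    ext x
    exact mem_cB_n heT

/-- a rung does not see only one row like an element of `Tr` -/
lemma far_notTr (hr : r ∈ V) (hz : z ∈ Fr) : z ∉ Tr r := by
  intro h1
  obtain ⟨v1, s1⟩ := h.far_V z hz false
  obtain ⟨v2, s2⟩ := h.far_V z hz true
  have e1 := h.same_see r hr z h1 _ v1 s1
  have e2 := h.same_see r hr z h1 _ v2 s2
  exact h.far_dis z hz (nd₁ (fr z false)) (Or.inl rfl) (by rw [e2, e1]; exact Or.inl rfl)

/-- far rungs are exits of both stars -/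
lemma far_exN (hr : r ∈ V) (hc : At nd₁ nd₂ r c) (hz : z ∈ Fr) (hs : SeeR rw S z r) :
    z ∈ starW rw V nd₁ nd₂ S Fr Nr c := by
  refine ⟨Or.inl hz, fun h1 => ?_, r, hr, hc, hs⟩
  obtain ⟨v1, s1⟩ := h.far_V z hz false
  obtain ⟨v2, s2⟩ := h.far_V z hz true
  exact h.far_dis z hz c (h.near_see c z h1 _ v1 s1) (h.near_see c z h1 _ v2 s2)

/-- **Far rungs are good walls.** -/
theorem qc_far (hr : r ∈ V) (hQ : QcN rw V nd₁ nd₂ S Fr Nr Tr Tu Lv Aw Au B lg oe r g)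
    (hz : z ∈ Fr) (hs : ∃ x ∈ g.X, ∃ y ∈ g.X, ¬ ES S z x y) :
    QcN rw V nd₁ nd₂ S Fr Nr Tr Tu Lv Aw Au B lg oe r
        (g.left (Lv (nd₁ r)) (Lv (nd₂ r)) z) ∧
      QcN rw V nd₁ nd₂ S Fr Nr Tr Tu Lv Aw Au B lg oe r
        (g.right (Lv (nd₁ r)) (Lv (nd₂ r)) z) := by
  refine h.qc_child hr hQ fun c hc l hl => ?_
  rcases hQ.kind c hc l hl with ⟨Y, A', hI⟩ | hO
  · exact Or.inl ⟨Y, A', hI, h.wall_real hr hc hl hI hQ.sX hQ.root (h.far_notTr hr hz)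
      (h.far_exN hr hc hz (see_of hs hQ.sX)) hs⟩
  · exact Or.inr hO

/-- **Same-row links are good walls.** -/
theorem qc_same (hr : r ∈ V) (hQ : QcN rw V nd₁ nd₂ S Fr Nr Tr Tu Lv Aw Au B lg oe r g)
    (hz : z ∈ Tr r) (hzT : z ∉ g.T) (hs : ∃ x ∈ g.X, ∃ y ∈ g.X, ¬ ES S z x y) :
    QcN rw V nd₁ nd₂ S Fr Nr Tr Tu Lv Aw Au B lg oe r
        (g.left (Lv (nd₁ r)) (Lv (nd₂ r)) z) ∧
      QcN rw V nd₁ nd₂ S Fr Nr Tr Tu Lv Aw Au B lg oe r
        (g.right (Lv (nd₁ r)) (Lv (nd₂ r)) z) := by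
  refine h.qc_child hr hQ fun c hc l hl => ?_
  rcases hQ.kind c hc l hl with ⟨Y, A', hI⟩ | hO
  · exact Or.inl ⟨Y, A', hI, h.wall_same hr hc hl hI hz hzT hs⟩
  · exact Or.inr hO

/-- a near rung of `c` is a real exit at the other ends of its rows -/
lemma near_exN (hr : r ∈ V) {c' : ν} (hc' : At nd₁ nd₂ r c') (hcc : c ≠ c') (hz : z ∈ Nr c)
    (hs : SeeR rw S z r) : z ∈ starW rw V nd₁ nd₂ S Fr Nr c' :=
  ⟨Or.inr ⟨c, hz⟩, fun h1 => hcc (h.near_ne c c' z hz h1), r, hr, hc', hs⟩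

/-- two classes of a near rung -/
lemma near_cls {j : Fin 3} (hjV : lg c j ∈ V) (hz : z ∈ Nr c) (hs : SeeR rw S z (lg c j))
    {x y : α} (hx : x ∈ rw (lg c j)) (hy : y ∈ rw (lg c j)) :
    ES S z x y ↔ (x ∈ Lv (oe c j) z ↔ y ∈ Lv (oe c j) z) := by
  have hc := h.near_see c z hz _ hjV hs
  rw [(h.wB _ hjV z (Or.inr ⟨c, hz⟩) hs).one hx hy, h.awN _ hjV c hc j rfl z hz hs x hx,
    h.awN _ hjV c hc j rfl z hz hs y hy]
  tauto

/-- elements of the star in different classes of the far end are separated -/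
lemma sep_cls {z₀ : α} (hz₀ : z₀ ∈ starW rw V nd₁ nd₂ S Fr Nr c) {d : α} (hd : d ∈ Tu c)
    {j : Fin 3} {x y : α} (hx : x ∈ rw (lg c j)) (hy : y ∈ rw (lg c j))
    (h1 : ¬ (x ∈ Lv (oe c j) d ↔ y ∈ Lv (oe c j) d)) : ¬ ES S d x y := by
  intro h2
  have rel := (h.starWit hz₀).facts.rel d hd j
  by_cases hxO : x ∈ Lv (oe c j) d
  · exact h1 ⟨fun _ => (rel x hx y hy hxO).1 h2, fun _ => hxO⟩
  · by_cases hyO : y ∈ Lv (oe c j) d
    · refine hxO ((rel y hy x hx hyO).1 ?_)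
      exact (h.starWit hz₀).facts.symm d hd j x hx y hy h2
    · exact h1 ⟨fun h3 => absurd h3 hxO, fun h3 => absurd h3 hyO⟩

/-- **From pairs to a family which is free with respect to the near rungs of `c`.** -/
theorem near_fr {D' : Set α} {Mb : ℕ → Set α} {W : Set ℕ} {f : ℕ → α}
    (hsT : g.T ⊆ Tr r) (hroot : ∀ e, e ∉ Tr r → g.A e = Aw r e) (hNT : ∀ d ∈ D', d ∈ Nr c → d ∉ Tr r)
    (hf : ∀ x ∈ W, f x ∈ Nr c ∧ f x ∈ D' ∧ f x ∈ Mb x) {j : Fin 3} (hj : j ≠ l)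
    (hjV : lg c j ∈ V) {p q : ℕ → α}
    (hp : ∀ x ∈ W, p x ∈ rw (lg c j) ∧ q x ∈ rw (lg c j) ∧ ¬ ES S (f x) (p x) (q x))
    (hpq : ∀ x ∈ W, ∀ y ∈ W, x ≠ y → ∀ d ∈ Mb y, d ∈ Nr c → ES S d (p x) (q x))
    (hz₀ : ∀ x ∈ W, ExC (ES S) D' g.X g.T (f x) → ∃ z₀, z₀ ∈ starW rw V nd₁ nd₂ S Fr Nr c)
    (hpair : ∀ x ∈ W, ExC (ES S) D' g.X g.T (f x) → ∀ d ∈ Nr c, ExC (ES S) D' g.X g.T d →
      (∀ i, i ≠ l → ∀ x' ∈ rw (lg c i), (x' ∈ Lv (oe c i) d ↔ x' ∈ Lv (oe c i) (f x))) ∨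
        PWitD (ES S) (Lv (nd₁ r)) (Lv (nd₂ r)) (Aw r) g.X g.T d (f x)) :
    TST.Fr (ES S) (Lv (nd₁ r)) (Lv (nd₂ r)) g.A D' g.X g.T Mb (Nr c) W f := by
  -- a near rung with the same classes separates the same elements
  have same : ∀ x ∈ W, ExC (ES S) D' g.X g.T (f x) → ∀ d ∈ Nr c,
      (∀ i, i ≠ l → ∀ x' ∈ rw (lg c i), (x' ∈ Lv (oe c i) d ↔ x' ∈ Lv (oe c i) (f x))) →
      ¬ ES S d (p x) (q x) := by
    intro x hx hfx d hd h1
    obtain ⟨z₀, hz₀⟩ := hz₀ x hx hfx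
    obtain ⟨h2, h3, h4⟩ := hp x hx
    have hsee : SeeR rw S (f x) (lg c j) := by
      refine ⟨p x, h2, q x, h3, fun h5 => h4 (Or.inl h5), ?_⟩
      by_contra h5
      exact h4 (Or.inr h5)
    refine h.sep_cls hz₀ (h.near_T c d hd) h2 h3 ?_
    rw [h1 j hj _ h2, h1 j hj _ h3, ← h.near_cls hjV (hf x hx).1 hsee h2 h3]
    exact h4
  have conv : ∀ x ∈ W, ∀ d ∈ Nr c, ExC (ES S) D' g.X g.T d →
      PWitD (ES S) (Lv (nd₁ r)) (Lv (nd₂ r)) (Aw r) g.X g.T d (f x) →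
      PWitD (ES S) (Lv (nd₁ r)) (Lv (nd₂ r)) g.A g.X g.T d (f x) := by
    intro x hx d hd hdE h1
    have e1 := hroot d (hNT d hdE.1 hd)
    have e2 := hroot (f x) (hNT _ (hf x hx).2.1 (hf x hx).1)
    exact h1.congrA (fun _ _ => by rw [e1]) (fun _ _ => by rw [e2])
  classical
  refine ⟨fun x hx => ⟨(hf x hx).2.1, fun h1 => hNT _ (hf x hx).2.1 (hf x hx).1 (hsT h1),
    (hf x hx).2.2⟩, fun d hd hdE => ?_, fun y hy d hdy hd hdE x hx hxy hfx => ?_⟩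
  · by_cases hb : ∃ b ∈ W, ExC (ES S) D' g.X g.T (f b) ∧
        ∀ i, i ≠ l → ∀ x' ∈ rw (lg c i), (x' ∈ Lv (oe c i) d ↔ x' ∈ Lv (oe c i) (f b))
    · obtain ⟨b, hbW, hbE, hb⟩ := hb
      refine ⟨b, fun x hx hxb hfx => ?_⟩
      rcases hpair x hx hfx d hd hdE with h1 | h1
      · exfalso
        refine same x hx hfx (f b) (hf b hbW).1 (fun i hi x' hx' => ?_)
          (hpq x hx b hbW hxb _ (hf b hbW).2.2 (hf b hbW).1)
        rw [← hb i hi x' hx', h1 i hi x' hx']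
      · exact conv x hx d hd hdE h1
    · refine ⟨0, fun x hx _ hfx => ?_⟩
      rcases hpair x hx hfx d hd hdE with h1 | h1
      · exact absurd ⟨x, hx, hfx, h1⟩ hb
      · exact conv x hx d hd hdE h1
  · rcases hpair x hx hfx d hd hdE with h1 | h1
    · exact absurd (hpq x hx y hy hxy d hdy hd) (same x hx hfx d hd h1)
    · exact conv x hx d hd hdE h1

/-- **(NS) on a leaf.**  `f` = near family of `c`, its members separate `p x`, `q x` on the leg `j`.  If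
the members have left every state of the star of the innermost cell (for the windows off a small set),
the family is free with respect to the near rungs of `c`, and its members are good walls, off a small
set of windows. -/
theorem near_leaf {D' : Set α} {Mb : ℕ → Set α} {W : Set ℕ} {f : ℕ → α} {M : ℕ}
    (hr : r ∈ V) (hc : At nd₁ nd₂ r c) (hl : lg c l = r)
    (hQ : QcN rw V nd₁ nd₂ S Fr Nr Tr Tu Lv Aw Au B lg oe r g)
    (hD2 : ∀ d ∈ D', d ∈ Nr c → TwoL rw Lv lg oe c d) (hNT : ∀ d ∈ D', d ∈ Nr c → d ∉ Tr r)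
    (hf : ∀ x ∈ W, f x ∈ Nr c ∧ f x ∈ D' ∧ f x ∈ Mb x) {j : Fin 3} (hj : j ≠ l)
    (hjV : lg c j ∈ V) {p q : ℕ → α}
    (hp : ∀ x ∈ W, p x ∈ rw (lg c j) ∧ q x ∈ rw (lg c j) ∧ ¬ ES S (f x) (p x) (q x))
    (hpq : ∀ x ∈ W, ∀ y ∈ W, x ≠ y → ∀ d ∈ Mb y, d ∈ Nr c → ES S d (p x) (q x))
    (hsw : ∀ Y A', StIn (ES S) (starO Lv oe c) (Au c) B (starX rw lg c) (Tu c)
      (starW rw V nd₁ nd₂ S Fr Nr c) l g.X Y A' → ∃ D : Finset ℕ, D.card ≤ M ∧
      ∀ x ∈ W, x ∉ D → f x ∉ SigT (starO Lv oe c) (starX rw lg c) (Tu c) Y) :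
    ∃ D : Finset ℕ, D.card ≤ M + 1 ∧
      TST.Fr (ES S) (Lv (nd₁ r)) (Lv (nd₂ r)) g.A D' g.X g.T Mb (Nr c) {x | x ∈ W ∧ x ∉ D} f ∧
      ∀ x ∈ W, x ∉ D → ExC (ES S) D' g.X g.T (f x) →
        QcN rw V nd₁ nd₂ S Fr Nr Tr Tu Lv Aw Au B lg oe r
            (g.left (Lv (nd₁ r)) (Lv (nd₂ r)) (f x)) ∧
          QcN rw V nd₁ nd₂ S Fr Nr Tr Tu Lv Aw Au B lg oe r
            (g.right (Lv (nd₁ r)) (Lv (nd₂ r)) (f x)) := by
  classical
  have hsee : ∀ x ∈ W, SeeR rw S (f x) (lg c j) := by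
    intro x hx
    obtain ⟨h2, h3, h4⟩ := hp x hx
    refine ⟨p x, h2, q x, h3, fun h5 => h4 (Or.inl h5), ?_⟩
    by_contra h5
    exact h4 (Or.inr h5)
  -- the walls
  have walls : ∀ x ∈ W, ExC (ES S) D' g.X g.T (f x) →
      ((∃ Y A', InnC rw V nd₁ nd₂ S Fr Nr Tr Tu Lv Au B lg oe r c l g Y A' ∧
          f x ∉ SigT (starO Lv oe c) (starX rw lg c) (Tu c) Y) ∨
        OutC rw V nd₁ nd₂ S Fr Nr Tr Tu Lv Au B lg oe r c l g) →
      QcN rw V nd₁ nd₂ S Fr Nr Tr Tu Lv Aw Au B lg oe r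
          (g.left (Lv (nd₁ r)) (Lv (nd₂ r)) (f x)) ∧
        QcN rw V nd₁ nd₂ S Fr Nr Tr Tu Lv Aw Au B lg oe r
          (g.right (Lv (nd₁ r)) (Lv (nd₂ r)) (f x)) := by
    intro x hx hfx hYs
    have hfN := (hf x hx).1
    have hfT := hNT _ (hf x hx).2.1 hfN
    refine h.qc_child hr hQ fun c' hc' l' hl' => ?_
    by_cases hcc : c = c'
    · subst hcc
      have e1 : l' = l := (h.legs r hr c hc).inj l' l (hl'.trans hl.symm)
      subst e1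
      rcases hYs with ⟨Y, A', hI', hn⟩ | hO
      · exact Or.inl ⟨Y, A', hI', h.wall_near hr hc hl' hI' hQ.sX hQ.root hfT hfN
          (hD2 _ (hf x hx).2.1 hfN) hfx.2.2 hn⟩
      · exact Or.inr hO
    · rcases hQ.kind c' hc' l' hl' with ⟨Y, A', hI⟩ | hO
      · exact Or.inl ⟨Y, A', hI, h.wall_real hr hc' hl' hI hQ.sX hQ.root hfT
          (h.near_exN hr hc' hcc hfN (see_of hfx.2.2 hQ.sX)) hfx.2.2⟩
      · exact Or.inr hO
  rcases hQ.kind c hc l hl with ⟨Y, A', hI⟩ | hO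
  · -- innermost cell
    obtain ⟨D, hDM, hD⟩ := hsw Y A' hI.st
    have hz₀ : ∀ x ∈ W, x ∉ D → ∃ z₀, z₀ ∈ starW rw V nd₁ nd₂ S Fr Nr c := by
      intro x hx hxD
      rcases hI.st.reach.root_or with ⟨h1, -⟩ | h1
      · have h2 := hD x hx hxD
        rw [h1, sigT_self] at h2
        exact absurd (h.near_T c _ (hf x hx).1) h2
      · exact h1
    refine ⟨D, by omega, ?_, ?_⟩
    · refine h.near_fr hQ.sT hQ.root hNT (fun x hx => hf x hx.1) hj hjV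
        (fun x hx => hp x hx.1) (fun x hx y hy => hpq x hx.1 y hy.1)
        (fun x hx _ => hz₀ x hx.1 hx.2) ?_
      intro x hx hfx d hd hdE
      exact h.pair hr hc hl hI.st.reach (by rw [hI.st.leg]) hQ.sT (h.inn_sig hr hc hl hI) hd
        (hf x hx.1).1 (sp_of hdE.2.2) (sp_of hfx.2.2) (hD2 d hdE.1 hd)
        (hD2 _ (hf x hx.1).2.1 (hf x hx.1).1) (Or.inr (hD x hx.1 hx.2))
    · exact fun x hx hxD hfx => walls x hx hfx (Or.inl ⟨Y, A', hI, hD x hx hxD⟩)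
  · -- outer cell
    obtain ⟨Y, A', z, f₀, o1, o2, o3, o4, o5, o6, o7, o8, o9⟩ := id hO
    have hz₀ : ∃ z₀, z₀ ∈ starW rw V nd₁ nd₂ S Fr Nr c := by
      rcases o1.root_or with ⟨h1, -⟩ | h1
      · rw [h1, sigT_self] at o3
        exact ⟨z, o2.resolve_left o3⟩
      · exact h1
    -- the exceptional window
    obtain ⟨Bd, hBd⟩ : ∃ Bd : ℕ → Prop, Bd = fun x => x ∈ W ∧
        f x ∈ SigT (starO Lv oe c) (starX rw lg c) (Tu c) Y ∧
        ∀ b ∈ Y j, b ∉ Lv (oe c j) (f x) := ⟨_, rfl⟩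
    have memB : ∀ x, Bd x ↔ x ∈ W ∧ f x ∈ SigT (starO Lv oe c) (starX rw lg c) (Tu c) Y ∧
        ∀ b ∈ Y j, b ∉ Lv (oe c j) (f x) := fun x => by rw [hBd]
    have one : ∀ x y, Bd x → Bd y → x = y := by
      intro x y hx hy
      obtain ⟨x1, x2, x3⟩ := (memB x).1 hx
      obtain ⟨y1, y2, y3⟩ := (memB y).1 hy
      by_contra hxy
      obtain ⟨h2, h3, h4⟩ := hp x x1
      rw [h.near_cls hjV (hf x x1).1 (hsee x x1) h2 h3] at h4
      have eq : ∀ v ∈ rw (lg c j), (v ∈ Lv (oe c j) (f y) ↔ v ∈ Lv (oe c j) (f x)) := by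
        intro v hv
        by_cases hvY : v ∈ Y j
        · exact ⟨fun h5 => absurd h5 (y3 v hvY), fun h5 => absurd h5 (x3 v hvY)⟩
        · exact ⟨fun _ => x2.2 j v hv hvY, fun _ => y2.2 j v hv hvY⟩
      obtain ⟨z₀, hz₀⟩ := hz₀
      rw [← eq _ h2, ← eq _ h3] at h4
      exact h.sep_cls hz₀ (h.near_T c _ (hf y y1).1) h2 h3 h4
        (hpq x x1 y y1 hxy _ (hf y y1).2.2 (hf y y1).1)
    obtain ⟨D, hD1, hD⟩ : ∃ D : Finset ℕ, D.card ≤ 1 ∧ ∀ x, Bd x → x ∈ D := by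
      by_cases hb : ∃ b, Bd b
      · obtain ⟨b, hb⟩ := hb
        exact ⟨{b}, by simp, fun x hx => by rw [one x b hx hb]; simp⟩
      · exact ⟨∅, by simp, fun x hx => absurd ⟨x, hx⟩ hb⟩
    refine ⟨D, by omega, ?_, ?_⟩
    · refine h.near_fr hQ.sT hQ.root hNT (fun x hx => hf x hx.1) hj hjV
        (fun x hx => hp x hx.1) (fun x hx y hy => hpq x hx.1 y hy.1) (fun _ _ _ => hz₀) ?_
      intro x hx hfx d hd hdE
      have hgY : g.X ⊆ Y l := fun v hv => (o6 v hv).1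
      have T2d := hD2 d hdE.1 hd
      have T2f := hD2 _ (hf x hx.1).2.1 (hf x hx.1).1
      by_cases hfS : f x ∈ SigT (starO Lv oe c) (starX rw lg c) (Tu c) Y
      · refine h.pair_out hr hc hl o1 o2 o3 o4 o5 o6 hQ.sT o8 o9 hd (hf x hx.1).1
          (sp_of hdE.2.2) (sp_of hfx.2.2) T2d T2f ?_
        intro j' k hj' hk hjk _ ⟨y, hy, hyO⟩
        right
        -- the second leg of `f x` is `j`
        have hjk2 : k = j := by
          by_contra hkj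
          obtain ⟨k', hk'⟩ := T2f
          obtain ⟨z₀, hz₀⟩ := hz₀
          obtain ⟨v, hv, hvO⟩ := h.not_cst hz₀ (h.near_T c _ (hf x hx.1).1) (P := g.X)
            (fun v hv => by
              show v ∈ rw (lg c l)
              rw [hl]
              exact hQ.sX hv) (sp_of hfx.2.2)
          have hk1 : k' ≠ l := fun h5 => hvO (h5 ▸ hk' v (by rw [h5, hl]; exact hQ.sX hv))
          have hk2 : k' ≠ k := fun h5 => hyO (h5 ▸ hk' y (h5 ▸ o1.sub k hy))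
          have hk3 : k' ≠ j := by
            intro h5
            obtain ⟨h2, h3, h4⟩ := hp x hx.1
            rw [h.near_cls hjV (hf x hx.1).1 (hsee x hx.1) h2 h3] at h4
            exact h4 ⟨fun _ => h5 ▸ hk' (q x) (h5 ▸ h3), fun _ => h5 ▸ hk' (p x) (h5 ▸ h2)⟩
          exact hkj (fin3_two k' l k j hk1 hk2 hk3 hk hj)
        subst hjk2
        by_contra hcon
        push Not at hcon
        exact hx.2 (hD x ((memB x).2 ⟨hx.1, hfS, hcon⟩))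
      · exact h.pair hr hc hl o1 hgY hQ.sT o8 hd (hf x hx.1).1 (sp_of hdE.2.2) (sp_of hfx.2.2)
          T2d T2f (Or.inr hfS)
    · exact fun x hx _ hfx => walls x hx hfx (Or.inr hO)

end LabFacts3

end TST
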