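import Pool.Agent.TST.LayStep
import Pool.Agent.TST.LayHomE
import Pool.Agent.TST.LayOne
import Pool.Agent.TST.NearStep

/-!
# The far step and the same-row step of the state machine (label level of T-star, helper45)

`rowStep_of_leaf`: insertion at a leaf as `RowStep`.  `InvS.stepF`, `InvS.stepS`: the steps with a far
family and with a same-row family.
-/

set_option autoImplicit false

open Set

namespace TST

universe u v w

section

variable {α : Type u} {E : α → α → α → Prop} {L R : α → Set α} {Dg : Set α} {F : ℕ → ℕ → α}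
  {γ : Set ℕ} {K : ℕ} {C : ℕ → ℕ → α} {Lb : Set ℕ} {Qc : Cell α → Prop} {c g : Cell α}
  {D : Set (Cd α)} {e a : ℕ}

/-- **A free family at the leaf of `a` gives a row step**; at most `b` windows are bad. -/
theorem rowStep_of_leaf {W : Finset ℕ}
    (hL : LeafAt E L R Dg F γ K C Lb Qc c (W : Set ℕ) D a g) (ha : a ∈ Lb) (he : e ∈ γ)
    {D₀ : Finset ℕ} {b : ℕ} (hb : D₀.card ≤ b) (hc : b + 5 ≤ W.card)
    (hK : ∀ x ∈ W, 5 * x + 5 < K)
    (hF : Fr E L R g.A Dg g.X g.T (MbF F γ) univ {x | x ∈ W ∧ x ∉ D₀} (F e))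
    (hH : Hom K C Lb {x | x ∈ W ∧ x ∉ D₀} (fun x => g.A (F e x)))
    (hs : ∀ x ∈ W, x ∉ D₀ → SeeW E C (F e x) a x)
    (hQ : ∀ x ∈ W, x ∉ D₀ → Qc (g.left L R (F e x)) ∧ Qc (g.right L R (F e x))) :
    RowStep E L R Dg F γ K C Lb Qc c (b + 4) W D e a := by
  classical
  obtain ⟨Wf, hWf⟩ : ∃ Wf, Wf = W \ D₀ := ⟨_, rfl⟩
  have mem : ∀ x, x ∈ Wf ↔ x ∈ W ∧ x ∉ D₀ := by
    intro x
    rw [hWf, Finset.mem_sdiff]
  have hWfW : Wf ⊆ W := fun x hx => ((mem x).1 hx).1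
  have hset : (Wf : Set ℕ) = {x | x ∈ W ∧ x ∉ D₀} := by
    ext x
    rw [Finset.mem_coe, mem]
    exact Iff.rfl
  have hcard : W.card ≤ Wf.card + b := by
    have h1 := Finset.card_le_card_sdiff_add_card (s := W) (t := D₀)
    rw [← hWf] at h1
    omega
  obtain ⟨W', h1, h2, D₁, h3, h5, h6, h7⟩ := hL.insertF (Wf := Wf) ha he hWfW (by omega)
    (fun x hx => hK x (hWfW hx)) (by rw [hset]; exact hF) (by rw [hset]; exact hH)
    (fun x hx => hs x ((mem x).1 hx).1 ((mem x).1 hx).2)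
    (fun x hx => hQ x ((mem x).1 hx).1 ((mem x).1 hx).2)
  have hne : ∃ x, x ∈ W' := Finset.card_pos.1 (by omega)
  refine ⟨W', h1.trans hWfW, by omega, D₁, h5, h3, h6, fun q hq => ?_⟩
  rcases h7 q hq with h8 | ⟨h8, h9⟩
  · exact Or.inl h8
  · obtain ⟨x, hx⟩ := hne
    exact Or.inr ⟨h8, x, hx, h9 x (h1 hx)⟩

lemma RowStep.mono {c₀ c₁ : ℕ} {W : Finset ℕ} (h : RowStep E L R Dg F γ K C Lb Qc c c₀ W D e a)
    (hc : c₀ ≤ c₁) : RowStep E L R Dg F γ K C Lb Qc c c₁ W D e a := by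
  obtain ⟨W', h1, h2, h3⟩ := h
  exact ⟨W', h1, by omega, h3⟩

end

section

variable {α : Type u} {β : Type v} {ν : Type w} {rw : β → Set α} {V : Set β}
    {nd₁ nd₂ : β → ν} {S : α → α → α → Prop} {Dg Fa On Dt : Set α} {Nr : ν → Set α}
    {Tr : β → Set α} {Tu : ν → Set α} {Lv : ν → α → Set α} {Aw : β → α → Set α}
    {Au : ν → α → Fin 3 → Set α} {B : α → α → α → α → Prop} {lg : ν → Fin 3 → β}
    {oe : ν → Fin 3 → ν} {fr : α → Bool → β} {r₀ : α → β} {ct : α → ν} {Dq : Set α}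
    {m K c₀ W₀ : ℕ} {R : ℕ → β} {C : ℕ → ℕ → α} {γ : Set ℕ} {wf : ℕ → Finset ℕ → α}
    {ki kj kk : ℕ → ℕ} {σ : Sta α β}

/-- the labels of a row lie in its root cell -/
lemma inC_root (hC : ∀ i < m, R i ∈ V → ∀ p < K, C i p ∈ rw (R i)) {a : ℕ} (ham : a < m)
    (haV : R a ∈ V) : InC K C (rootC rw Tr Aw (R a)) a := fun p hp => hC a ham haV p hp

/-- **STEP F**: a far family which splits the uncut label `a` and a label of another row. -/
theorem InvS.stepF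
    (h : LabFacts3 rw V nd₁ nd₂ S Dg Fa On Dt Nr Tr Tu Lv Aw Au B lg oe fr r₀ ct)
    (hf : LabFam V nd₁ nd₂ S Dg Fa On Dt Nr Tr Lv Aw ct m K R C γ wf ki kj kk)
    (hC : ∀ i < m, R i ∈ V → ∀ p < K, C i p ∈ rw (R i))
    (hD : RowG V Dg Fa Nr Tr Dq) (hFD : ∀ z ∈ Dg, z ∈ Fa → z ∈ Dq)
    (hσ : InvS rw V nd₁ nd₂ S Dq Tr Lv Aw
      (QcN rw V nd₁ nd₂ S Fa Nr Tr Tu Lv Aw Au B lg oe) m K R C γ wf ki kk c₀ W₀ σ)
    {e a j : ℕ} (he : FarK γ kk e) (hea : SplF V S m K R C wf e a)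
    (hej : SplF V S m K R C wf e j) (hja : R j ≠ R a) (hac : a ∉ csS V m R σ)
    (hW : 5 ≤ σ.W.card) :
    RowStep (ES S) (Lv (nd₁ (R a))) (Lv (nd₂ (R a))) Dq (famF wf) γ K C (lbR m R (R a))
      (QcN rw V nd₁ nd₂ S Fa Nr Tr Tu Lv Aw Au B lg oe (R a)) (rootC rw Tr Aw (R a)) 4 σ.W
      (σ.D (R a)) e a := by
  classical
  obtain ⟨⟨ham, haV⟩, hsa⟩ := id hea
  obtain ⟨⟨hjm, hjV⟩, hsj⟩ := id hej
  have hG := hσ.tr (R a) haV
  have hwin : ∀ x ∈ (σ.W : Set ℕ), 5 * x + 5 < K := fun x hx => hσ.win x (Finset.mem_coe.1 hx)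
  have haD : a ∉ cutL (σ.D (R a)) := fun h1 => hac ⟨⟨ham, haV⟩, h1⟩
  have haC : InC K C (rootC rw Tr Aw (R a)) a := inC_root hC ham haV
  obtain ⟨g, hL⟩ := hG.leaf_of (j := a) ⟨ham, rfl⟩ haC haD
  have hFr := LabFam.farFree (W := (σ.W : Set ℕ)) h hf hC hD haV he.1 he.2 hjm hjV hja hwin
    (fun x hx => hFD _ (hf.wit e he.1 (Qw x) (Qw_sub (hwin x hx)) (Qw_card x)).1
      (hf.farK_mem he (Qw_sub (hwin x hx)) (Qw_card x)))
    (fun x hx => hea.see hC (hwin x hx)) (fun x hx => hsj x (hwin x hx))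
  have hFg := hL.desc e he.1 _ Subset.rfl hFr
  have hHom : Hom K C (lbR m R (R a)) (σ.W : Set ℕ) (fun x => g.A (famF wf e x)) := by
    refine hL.hom (F := famF wf) (f := e) (Wf := (σ.W : Set ℕ)) ?_ ?_
    · intro x hx
      exact (hFr.mem x hx).2.1
    · exact hf.homAw he.1 (fun k hk => hk) hwin
  have hset : {x | x ∈ σ.W ∧ x ∉ (∅ : Finset ℕ)} = (σ.W : Set ℕ) := by
    ext x
    simp
  refine rowStep_of_leaf (b := 0) (D₀ := ∅) hL ⟨ham, rfl⟩ he.1 (by simp) (by omega)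
    (fun x hx => hσ.win x hx) (by rw [hset]; exact hFg) (by rw [hset]; exact hHom)
    (fun x hx _ => hsa x (hσ.win x hx)) (fun x hx _ => ?_)
  exact h.qc_far haV hL.qc (hf.farK_mem he (Qw_sub (hσ.win x hx)) (Qw_card x))
    ((hsa x (hσ.win x hx)).sees hL.inC (hσ.win x hx))

/-- **STEP S**: a same-row family which splits the uncut label `a` and a cut label of the row. -/
theorem InvS.stepS
    (h : LabFacts3 rw V nd₁ nd₂ S Dg Fa On Dt Nr Tr Tu Lv Aw Au B lg oe fr r₀ ct)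
    (hf : LabFam V nd₁ nd₂ S Dg Fa On Dt Nr Tr Lv Aw ct m K R C γ wf ki kj kk)
    (hC : ∀ i < m, R i ∈ V → ∀ p < K, C i p ∈ rw (R i))
    (hinj : ∀ k < m, ∀ p < K, ∀ p' < K, C k p = C k p' → p = p')
    (hD : RowG V Dg Fa Nr Tr Dq) (hSD : ∀ r ∈ V, ∀ z ∈ Dg, z ∈ Tr r → z ∈ Dq)
    (hσ : InvS rw V nd₁ nd₂ S Dq Tr Lv Aw
      (QcN rw V nd₁ nd₂ S Fa Nr Tr Tu Lv Aw Au B lg oe) m K R C γ wf ki kk c₀ W₀ σ)
    {e a i : ℕ} (he : SameK γ kk e) (hea : SplF V S m K R C wf e a)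
    (hei : SplF V S m K R C wf e i) (hia : R i = R a) (hic : i ∈ csS V m R σ)
    (hac : a ∉ csS V m R σ) (hW : 5 ≤ σ.W.card) :
    RowStep (ES S) (Lv (nd₁ (R a))) (Lv (nd₂ (R a))) Dq (famF wf) γ K C (lbR m R (R a))
      (QcN rw V nd₁ nd₂ S Fa Nr Tr Tu Lv Aw Au B lg oe (R a)) (rootC rw Tr Aw (R a)) 4 σ.W
      (σ.D (R a)) e a := by
  classical
  obtain ⟨⟨ham, haV⟩, hsa⟩ := id hea
  obtain ⟨⟨him, hiV⟩, hsi⟩ := id hei
  have hG := hσ.tr (R a) haV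
  have hwin : ∀ x ∈ (σ.W : Set ℕ), 5 * x + 5 < K := fun x hx => hσ.win x (Finset.mem_coe.1 hx)
  have haD : a ∉ cutL (σ.D (R a)) := fun h1 => hac ⟨⟨ham, haV⟩, h1⟩
  have haC : InC K C (rootC rw Tr Aw (R a)) a := inC_root hC ham haV
  obtain ⟨q, hq, hqk⟩ := hic.2
  rw [hia] at hq
  -- the members are same-row elements of the row
  have hT : ∀ x, 5 * x + 5 < K → famF wf e x ∈ Tr (R a) := by
    intro x hx
    have h1 := hf.sameK_mem he (Qw_sub hx) (Qw_card x)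
    have h2 := h.same_see _ (hf.ran e he.1).2.1.2 _ h1 (R a) haV (hea.see hC hx)
    rw [← h2] at h1
    exact h1
  have hDq : ∀ x, 5 * x + 5 < K → famF wf e x ∈ Dq := fun x hx =>
    hSD _ haV _ (hf.wit e he.1 (Qw x) (Qw_sub hx) (Qw_card x)).1 (hT x hx)
  obtain ⟨g, hL, hFg, hHom⟩ := hG.same_step hwin he.1 (fun x hx => hT x (hwin x hx))
    (fun x hx => hDq x (hwin x hx)) hq (LabFam.homE h hf hC hinj hD haV hwin hG hq)
    (fun x hx => by rw [hqk]; exact hsi x (hwin x hx)) (j := a) ⟨ham, rfl⟩ haC haD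
    (fun x hx => hsa x (hwin x hx)) (hf.homL he.1 (fun k hk => hk) hwin)
    (hf.homR he.1 (fun k hk => hk) hwin)
  have hset : {x | x ∈ σ.W ∧ x ∉ (∅ : Finset ℕ)} = (σ.W : Set ℕ) := by
    ext x
    simp
  refine rowStep_of_leaf (b := 0) (D₀ := ∅) hL ⟨ham, rfl⟩ he.1 (by simp) (by omega)
    (fun x hx => hσ.win x hx) (by rw [hset]; exact hFg) (by rw [hset]; exact hHom)
    (fun x hx _ => hsa x (hσ.win x hx)) (fun x hx _ => ?_)
  exact h.qc_same haV hL.qc (hT x (hσ.win x hx)) (hFg.mem x (Finset.mem_coe.2 hx)).2.1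
    ((hsa x (hσ.win x hx)).sees hL.inC (hσ.win x hx))

end

end TST
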