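import Pool.Agent.TST.LabEnd88
import Pool.Agent.TST.LayStepR
import Pool.Agent.TST.LayN
import Pool.Agent.TST.LayFin

/-!
# The label level (T-star, row R5; helper88)

`labelStmt3_of`: `LabelStmt3` from the statement `OneStmt` on one-place families.
-/

set_option autoImplicit false

open Set

namespace TST

universe u v w

/-- **One-place families** (LEMMA ONE of helper39): a one-place family whose label is joined to a rung family
splits only labels of one component. -/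
def OneStmt : Prop :=
  ∀ m : ℕ, ∃ K₀ : ℕ, ∀ K, K₀ ≤ K → ∀ {α : Type u} {β : Type v} {ν : Type w} (rw : β → Set α)
    (V : Set β) (nd₁ nd₂ : β → ν) (S : α → α → α → Prop) (Dg Fr On Dt : Set α) (Nr : ν → Set α)
    (Tr : β → Set α) (Tu : ν → Set α) (Lv : ν → α → Set α) (Aw : β → α → Set α)
    (Au : ν → α → Fin 3 → Set α) (B : α → α → α → α → Prop) (lg : ν → Fin 3 → β)
    (oe : ν → Fin 3 → ν) (fr : α → Bool → β) (r₀ : α → β) (ct : α → ν) (R : ℕ → β)
    (C : ℕ → ℕ → α) (γ : Set ℕ) (w : ℕ → Finset ℕ → α) (ki kj kk : ℕ → ℕ),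
    LabFacts3 rw V nd₁ nd₂ S Dg Fr On Dt Nr Tr Tu Lv Aw Au B lg oe fr r₀ ct →
    LabFam V nd₁ nd₂ S Dg Fr On Dt Nr Tr Lv Aw ct m K R C γ w ki kj kk →
    (∀ i < m, R i ∈ V → ∀ a < K, C i a ∈ rw (R i)) →
    (∀ k < m, ∀ a < K, ∀ b < K, C k a = C k b → a = b) →
    ∀ q p, OneR V S m K R C γ w kk q p →
      (∃ c, Relation.ReflTransGen (C0G (SameG R (SameK γ kk) (SplF V S m K R C w))
        (PairG (FarK γ kk) (SplF V S m K R C w))
        (fun y => PairG (NearK nd₁ nd₂ R γ ki kk y) (SplF V S m K R C w))) q c ∧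
        TouG (PairG (FarK γ kk) (SplF V S m K R C w))
          (fun y => PairG (NearK nd₁ nd₂ R γ ki kk y) (SplF V S m K R C w)) c) →
      Relation.ReflTransGen (C0G (SameG R (SameK γ kk) (SplF V S m K R C w))
        (PairG (FarK γ kk) (SplF V S m K R C w))
        (fun y => PairG (NearK nd₁ nd₂ R γ ki kk y) (SplF V S m K R C w))) q p

/-- **THE LABEL LEVEL.** -/
theorem labelStmt3_of (hOne : OneStmt.{u, v, w}) : LabelStmt3.{u, v, w} := by
  intro m n
  obtain ⟨K₀, hK₀⟩ := hOne m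
  obtain ⟨M, hM⟩ : ∃ M, M = 2 * 3 + 4 + n * (8 * (7 * (m * m)) + 8) := ⟨_, rfl⟩
  obtain ⟨W₀, hW₀⟩ : ∃ W₀, W₀ = (20 * m + 5) * m + 20 * m * m + 20 * m + 10 * m + 10 + M :=
    ⟨_, rfl⟩
  obtain ⟨K, hK⟩ : ∃ K, K = 5 * W₀ + 5 * m + 6 + K₀ := ⟨_, rfl⟩
  obtain ⟨N, hN⟩ := exists_labFam.{u, v, w} m K (by omega)
  refine ⟨N, ?_⟩
  intro α β ν rw V nd₁ nd₂ S Dg Fr On Dt Nr Tr Tu Lv Aw Au B lg oe fr r₀ ct R c hF hc hinj
  obtain ⟨h, γ, w, ki, kj, kk, hhN, hh, hf, hfr⟩ := hN rw V nd₁ nd₂ S Dg Fr On Dt Nr Tr Tu Lv Aw Au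
    B lg oe fr r₀ ct R c hF hc hinj ⟨c 0 0⟩
  have hhne : ∀ a b, a < K → b < K → h a = h b → a = b := by
    intro a b ha hb hab
    rcases Nat.lt_trichotomy a b with h1 | h1 | h1
    · have := hh a b h1 hb
      omega
    · exact h1
    · have := hh b a h1 ha
      omega
  obtain ⟨C, hCv⟩ : ∃ C : ℕ → ℕ → α, C = fun i b => c i (h b) := ⟨_, rfl⟩
  rw [← hCv] at hf
  have hC : ∀ i < m, R i ∈ V → ∀ a < K, C i a ∈ rw (R i) := by
    intro i hi hiV a ha
    rw [hCv]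
    exact hc i hi hiV _ (hhN a ha)
  have hinj' : ∀ k < m, ∀ a < K, ∀ b < K, C k a = C k b → a = b := by
    intro k hk a ha b hb hab
    rw [hCv] at hab
    exact hhne a b ha hb (hinj k hk _ (hhN a ha) k hk _ (hhN b hb) hab).2
  have hD : RowG V Dg Fr Nr Tr (RowD rw V Dg Fr Nr Tr Lv lg oe) := rowG_rowD
  -- the state at the start
  obtain ⟨σ₀, hσ₀⟩ : ∃ σ₀ : Sta α β, σ₀ = ⟨Finset.range W₀, fun _ => ∅⟩ := ⟨_, rfl⟩
  have hcs : csS V m R σ₀ = ∅ := by
    rw [hσ₀]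
    ext i
    constructor
    · rintro ⟨-, q, hq, -⟩
      exact hq
    · exact fun hi => absurd hi (notMem_empty i)
  have h0 : InvS rw V nd₁ nd₂ S (RowD rw V Dg Fr Nr Tr Lv lg oe) Tr Lv Aw
      (QcN rw V nd₁ nd₂ S Fr Nr Tr Tu Lv Aw Au B lg oe) m K R C γ w ki kk (20 * m + 5) W₀ σ₀ := by
    refine ⟨?_, ?_, ?_, ?_, ?_, ?_⟩
    · intro x hx
      rw [hσ₀] at hx
      have := Finset.mem_range.1 hx
      omega
    · intro r hr
      rw [hσ₀]
      exact GT.leaf _ _ (hF.cellS hD hr) (hF.qcRoot hr)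
    · rw [hσ₀]
      show W₀ ≤ (Finset.range W₀).card + _
      rw [Finset.card_range]
      omega
    · intro r hr q hq
      rw [hσ₀] at hq
      exact absurd hq (notMem_empty q)
    · intro r hr q hq
      rw [hσ₀] at hq
      exact absurd hq (notMem_empty q)
    · intro r hr q hq
      rw [hσ₀] at hq
      exact absurd hq (notMem_empty q)
  have hcard : ∀ σ, InvS rw V nd₁ nd₂ S (RowD rw V Dg Fr Nr Tr Lv lg oe) Tr Lv Aw
      (QcN rw V nd₁ nd₂ S Fr Nr Tr Tu Lv Aw Au B lg oe) m K R C γ w ki kk (20 * m + 5) W₀ σ →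
      20 * m * m + 20 * m + 10 * m + 10 + M ≤ σ.W.card := by
    intro σ hσ
    have h1 := hσ.card
    have h2 := Nat.mul_le_mul_left (20 * m + 5) (csS_fin (V := V) (m := m) (R := R) (σ := σ)).2
    omega
  obtain ⟨σ, hσ, hI, hmax⟩ := hf.maximal (by omega) hC hinj' hF h0 hcs
    (by
      intro σ hσ e a j he ha hj hR haC
      have h1 := hcard σ hσ
      exact (hσ.stepF hF hf hC hD (fun z hz h1 => ⟨hz, Or.inl h1⟩) he ha hj (fun h2 => hR h2.symm)
        haC (by omega)).mono (by omega))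
    (by
      intro σ hσ e i₀ a he hi ha hR hiC haC _
      have h1 := hcard σ hσ
      exact (hσ.stepS hF hf hC hinj' hD (fun r hr z hz h1 => ⟨hz, Or.inr (Or.inr ⟨r, hr, h1⟩)⟩)
        he ha hi hR hiC haC (by omega)).mono (by omega))
    (by
      intro σ hσ y e a b p he ha hb hR haC _ hp hpb
      have h1 := hcard σ hσ
      have haV := ha.1.2
      exact hF.stepN hf hC hinj' hD (fun c d hd hn => hF.rowD_two hd hn)
        (fun c d hd hn h2 => ⟨hd, Or.inr (Or.inl ⟨c, hn, h2⟩)⟩) haV hσ.win (hσ.tr (R a) haV) he ha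
        hb rfl (fun h2 => hR h2.symm) (fun h2 => haC ⟨ha.1, h2⟩)
        (fun k hk _ hkR => by
          have h3 := hk.2
          rw [hkR] at h3
          exact h3) hp hpb le_rfl (by omega))
    (by
      intro σ hσ e i j he hi hj hR hI hic
      exact hσ.one hF hf (by omega) hC hinj' (by omega) hI he hi hj hR hic)
    (hK₀ K (by omega) rw V nd₁ nd₂ S Dg Fr On Dt Nr Tr Tu Lv Aw Au B lg oe fr r₀ ct R C γ w ki kj
      kk hF hf hC hinj')
  have h1 := hcard σ hσ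
  obtain ⟨W, -, hW, hH⟩ := hσ.endH hF hf hfr (by omega) hC hinj' hI (by omega)
  rw [hCv] at hf hH hmax hC hinj'
  exact label_end hF hf hhN hh hC hinj' hH (Cs := csS V m R σ) (fun k hk => by
    rw [cutL_dat]
    exact hk) hmax (by omega)

end TST
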