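import Pool.Agent.TST.LabDef
import Pool.Agent.TST.OutDef
import Pool.Agent.DA.Kinds
import Pool.Agent.DA.DegRnd

/-!
# T-star, R6: language of the label level and language of the wall (helper14)

Rows of the wall as elements of `Seg w` (lists `L r`) and as pairs of vertices (`RX`, `SX`); `Sees` and
`Er`, `SeeP`; the three rows at a vertex.
-/

open Set BIC BICS CWL
open scoped Matroid

namespace TSH

universe u

open DA Gad TST

/-- `Sees` and `Er` -/
lemma sees_iff {α : Type u} {M : Matroid α} {S : Set α} {d x y : α} (h : x ≠ y) :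
    Sees M S d x y ↔ ¬ Er M S d x y := by
  unfold Sees Er
  constructor
  · rintro h1 (h2 | h2)
    · exact h h2
    · exact h1 h2
  · intro h1 h2
    exact h1 (Or.inr h2)

lemma not_er_iff {α : Type u} {M : Matroid α} {S : Set α} {d x y : α} :
    ¬ Er M S d x y ↔ x ≠ y ∧ Sees M S d x y := by
  constructor
  · intro h
    have h1 : x ≠ y := fun h1 => h (Or.inl h1)
    exact ⟨h1, (sees_iff h1).2 h⟩
  · rintro ⟨h1, h2⟩
    exact (sees_iff h1).1 h2

lemma er_of_not_sees {α : Type u} {M : Matroid α} {S : Set α} {d x y : α}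
    (h : x ≠ y → ¬ Sees M S d x y) : Er M S d x y := by
  by_contra h1
  obtain ⟨h2, h3⟩ := not_er_iff.1 h1
  exact h h2 h3

section

variable {α : Type u} {M : Matroid α} {w u₁ : ℕ} {L : Bool × ℕ × ℕ → List α}
  {row : α → Sym2 (ℕ × ℕ)} {r : Bool × ℕ × ℕ} {d : α}

/-- **The elements of a row.** -/
lemma rx_of_row (hrow : ∀ r ∈ Seg w, ∀ x ∈ L r, row x = srow r) (hr : r ∈ Seg w) {p q : ℕ × ℕ}
    (h : srow r = s(p, q)) : RX (crr L (Seg w)) row p q = {x | x ∈ L r} := by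
  ext x
  constructor
  · rintro ⟨⟨r', hr', hx⟩, h1⟩
    have h2 : srow r' = srow r := by rw [← hrow r' hr' x hx, h1, h]
    rw [srow_inj h2] at hx
    exact hx
  · intro hx
    exact ⟨⟨r, hr, hx⟩, by rw [hrow r hr x hx, h]⟩

lemma rx_seg (hrow : ∀ r ∈ Seg w, ∀ x ∈ L r, row x = srow r) (hr : r ∈ Seg w) :
    RX (crr L (Seg w)) row (segNear r) (segFar r) = {x | x ∈ L r} := rx_of_row hrow hr rfl

lemma rx_seg' (hrow : ∀ r ∈ Seg w, ∀ x ∈ L r, row x = srow r) (hr : r ∈ Seg w) :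
    RX (crr L (Seg w)) row (segFar r) (segNear r) = {x | x ∈ L r} :=
  rx_of_row hrow hr Sym2.eq_swap

/-- the row of an element -/
lemma exists_seg (hrow : ∀ r ∈ Seg w, ∀ x ∈ L r, row x = srow r) {x : α}
    (hx : x ∈ crr L (Seg w)) : ∃ r ∈ Seg w, x ∈ L r ∧ row x = s(segNear r, segFar r) := by
  obtain ⟨r, hr, h⟩ := hx
  exact ⟨r, hr, h, hrow r hr x h⟩

/-- a row of the wall is a row of `Seg w` -/
lemma exists_seg_wadj {p q : ℕ × ℕ} (h : wadj p q) (hp : p ∈ rect 0 0 (w + 1) (w + 1))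
    (hq : q ∈ rect 0 0 (w + 1) (w + 1)) : ∃ r ∈ Seg w, srow r = s(p, q) := seg_of_wadj h hp hq

lemma seg_wadj (hr : r ∈ Seg w) : wadj (segNear r) (segFar r) := (wadj_srow hr).1

/-- **A seen pair on a row.** -/
lemma seeP_of_row (hrow : ∀ r ∈ Seg w, ∀ x ∈ L r, row x = srow r) (hr : r ∈ Seg w) {p q : ℕ × ℕ}
    (h : srow r = s(p, q)) : SeeP M (crr L (Seg w)) row d p q ↔
      ∃ x ∈ L r, ∃ y ∈ L r, x ≠ y ∧ Sees M (crr L (Seg w)) d x y := by
  unfold SeeP
  rw [rx_of_row hrow hr h]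
  constructor
  · rintro ⟨x, hx, y, hy, h1⟩
    exact ⟨x, hx, y, hy, not_er_iff.1 h1⟩
  · rintro ⟨x, hx, y, hy, h1⟩
    exact ⟨x, hx, y, hy, not_er_iff.2 h1⟩

lemma seeP_seg (hrow : ∀ r ∈ Seg w, ∀ x ∈ L r, row x = srow r) (hr : r ∈ Seg w) :
    SeeP M (crr L (Seg w)) row d (segNear r) (segFar r) ↔
      ∃ x ∈ L r, ∃ y ∈ L r, x ≠ y ∧ Sees M (crr L (Seg w)) d x y := seeP_of_row hrow hr rfl

/-- the ends of a row -/
lemma mem_srowL {p : ℕ × ℕ} : p ∈ srow r ↔ segNear r = p ∨ segFar r = p := by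
  unfold srow
  rw [Sym2.mem_iff]
  constructor
  · rintro (h | h)
    · exact Or.inl h.symm
    · exact Or.inr h.symm
  · rintro (h | h)
    · exact Or.inl h.symm
    · exact Or.inr h.symm

lemma at_iff {p : ℕ × ℕ} : At segNear segFar r p ↔ p ∈ srow r := by
  unfold TST.At
  rw [mem_srowL]

/-- no loops -/
lemma seg_loopless (hr : r ∈ Seg w) : segNear r ≠ segFar r := by
  intro h
  have h1 := seg_wadj hr
  rw [h] at h1
  unfold wadj at h1
  omega

/-- no parallel rows -/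
lemma seg_simple {r' : Bool × ℕ × ℕ} {p q : ℕ × ℕ} (hpq : p ≠ q) (h1 : At segNear segFar r p)
    (h2 : At segNear segFar r q) (h3 : At segNear segFar r' p) (h4 : At segNear segFar r' q) :
    r = r' := by
  rw [at_iff] at h1 h2 h3 h4
  apply srow_inj
  have h5 := (Sym2.mem_and_mem_iff hpq).1 ⟨h1, h2⟩
  have h6 := (Sym2.mem_and_mem_iff hpq).1 ⟨h3, h4⟩
  rw [h5, h6]

/-- **The three rows at a vertex** `p` with the neighbours `V`. -/
theorem legs_of (hrow : ∀ r ∈ Seg w, ∀ x ∈ L r, row x = srow r) {p : ℕ × ℕ}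
    (hp : DeepR (0, 0) (w + 1) (w + 1) 2 p) {V : Fin 3 → ℕ × ℕ} (hV : Nb3 p (V 0) (V 1) (V 2)) :
    ∃ rr : Fin 3 → Bool × ℕ × ℕ, (∀ i, rr i ∈ Seg w) ∧ (∀ i, srow (rr i) = s(p, V i)) ∧
      (∀ i, RX (crr L (Seg w)) row p (V i) = {x | x ∈ L (rr i)}) ∧
      (∀ r ∈ Seg w, At segNear segFar r p ↔ ∃ i, r = rr i) ∧ Function.Injective rr := by
  have hadj : ∀ i, wadj p (V i) := fun i => nb3_adj hV i
  have hpr : p ∈ rect 0 0 (w + 1) (w + 1) := by
    unfold DeepR at hp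
    simp only at hp
    rw [Gad.mem_rct]
    omega
  have hVr : ∀ i, V i ∈ rect 0 0 (w + 1) (w + 1) := by
    intro i
    have h1 := hadj i
    unfold DeepR at hp
    simp only at hp
    unfold wadj at h1
    rw [Gad.mem_rct]
    omega
  have hr : ∀ i, ∃ r ∈ Seg w, srow r = s(p, V i) := fun i => seg_of_wadj (hadj i) hpr (hVr i)
  choose rr h1 h2 using hr
  refine ⟨rr, h1, h2, fun i => rx_of_row hrow (h1 i) (h2 i), ?_, ?_⟩
  · intro r hr
    rw [at_iff]
    constructor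
    · intro hpr'
      obtain ⟨h3, -, -⟩ := wadj_srow hr
      -- the other end is a neighbour
      obtain ⟨q, hq⟩ : ∃ q, srow r = s(p, q) := by
        obtain ⟨q, hq⟩ := Sym2.mem_iff_exists.1 hpr'
        exact ⟨q, hq⟩
      have h4 : wadj p q := by
        have h5 : s(segNear r, segFar r) = s(p, q) := hq
        rw [Sym2.eq_iff] at h5
        rcases h5 with ⟨h5, h6⟩ | ⟨h5, h6⟩
        · rw [← h5, ← h6]
          exact h3
        · rw [← h5, ← h6]
          unfold wadj at h3 ⊢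
          omega
      have h5 : q ∈ nst wadj p := by
        unfold nst
        exact Or.inr h4
      rw [nst_nb3 hV] at h5
      simp only [mem_insert_iff, mem_singleton_iff] at h5
      rcases h5 with h5 | h5 | h5 | h5
      · exfalso
        rw [h5] at h4
        unfold wadj at h4
        omega
      · exact ⟨0, srow_inj (by rw [hq, h2, h5])⟩
      · exact ⟨1, srow_inj (by rw [hq, h2, h5])⟩
      · exact ⟨2, srow_inj (by rw [hq, h2, h5])⟩
    · rintro ⟨i, rfl⟩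
      rw [h2]
      exact Sym2.mem_mk_left _ _
  · intro i j hij
    have h3 : s(p, V i) = s(p, V j) := by rw [← h2, ← h2, hij]
    have h4 : V i = V j := by
      rw [Sym2.eq_iff] at h3
      rcases h3 with ⟨_, h3⟩ | ⟨h3, h4⟩
      · exact h3
      · rw [h4, h3]
    by_contra hne
    exact nb3_inj hV hne h4

/-- the three rows at a vertex -/
theorem exists_legs (hrow : ∀ r ∈ Seg w, ∀ x ∈ L r, row x = srow r) {p : ℕ × ℕ}
    (hp : DeepR (0, 0) (w + 1) (w + 1) 2 p) : ∃ (V : Fin 3 → ℕ × ℕ) (rr : Fin 3 → Bool × ℕ × ℕ),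
      Nb3 p (V 0) (V 1) (V 2) ∧ (∀ i, rr i ∈ Seg w) ∧ (∀ i, srow (rr i) = s(p, V i)) ∧
      (∀ i, RX (crr L (Seg w)) row p (V i) = {x | x ∈ L (rr i)}) ∧
      (∀ r ∈ Seg w, At segNear segFar r p ↔ ∃ i, r = rr i) ∧ Function.Injective rr := by
  have hp1 : 1 ≤ p.1 ∧ 1 ≤ p.2 := by
    unfold DeepR at hp
    simp only at hp
    omega
  obtain ⟨V, hV⟩ := exists_nb3 hp1
  obtain ⟨rr, h⟩ := legs_of hrow hp hV
  exact ⟨V, rr, hV, h⟩

/-- a visible vertex is deep -/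
lemma deep_of_visR {δ₁ : ℕ} {Om₂ : Finset (ℕ × ℕ)} {p : ℕ × ℕ} (h : VisR w δ₁ Om₂ p) :
    DeepR (0, 0) (w + 1) (w + 1) 2 p := by
  have h1 := h.1
  unfold DeepR at h1 ⊢
  simp only at h1 ⊢
  omega

/-- the row of an element with an end `p` -/
lemma exists_seg_at (hrow : ∀ r ∈ Seg w, ∀ x ∈ L r, row x = srow r) {p : ℕ × ℕ} {x : α}
    (hx : x ∈ crr L (Seg w)) (hp : p ∈ row x) :
    ∃ r ∈ Seg w, x ∈ L r ∧ At segNear segFar r p := by
  obtain ⟨r, hr, h⟩ := hx
  exact ⟨r, hr, h, at_iff.2 (by rw [← hrow r hr x h]; exact hp)⟩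

end

end TSH
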