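import Pool.Agent.TST.LayNest

/-!
# The choice of the tiles at the end (label level of T-star, helper45)

`W` = usable windows of the maximal list, `Y b` = the `b`-th usable window; the chosen tile `b` is the
position `5 * Y b`, the member of a family at the window `x` of chosen tiles is its member at the window
`Y (x + 1)`.
-/

set_option autoImplicit false

open Set

namespace TST

universe u v w

section

variable {α : Type u} {β : Type v} {S : α → α → α → Prop} {K : ℕ} {C : ℕ → ℕ → α} {R : ℕ → β}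
  {W : Set ℕ} {D : Set (Cd α)} {q q' : Cd α} {P P' : ℕ → Set α} {F : ℕ → α}

/-- the members of the family separate the tiles before the window from the tiles behind the window -/
def SepF (S : α → α → α → Prop) (C : ℕ → ℕ → α) (W : Set ℕ) (F : ℕ → α) (k : ℕ) : Prop :=
  ∀ a₀ ∈ W, ∀ a ∈ W, ∀ x ∈ W, ∀ b ∈ W, ∀ b₀ ∈ W, a₀ < a → a < x → x < b → b < b₀ →
    ∀ p p', 5 * a₀ + 5 ≤ p → p ≤ 5 * a → 5 * b + 5 ≤ p' → p' ≤ 5 * b₀ → S (F x) (C k p) (C k p')

/-- a family with one place on the row -/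
theorem RefOrd.sepF (hO : RefOrd K C R W D) (hq : q ∈ D) (hP : SandP W q.d q.G P)
    (hE : ∀ x ∈ W, ∀ p < K, ∀ p' < K, ¬ (C q.k p ∈ P x ↔ C q.k p' ∈ P x) →
      S (F x) (C q.k p) (C q.k p')) : SepF S C W F q.k := by
  intro a₀ ha₀ a ha x hx b hb b₀ hb₀ h0 h1 h2 h3 p p' h4 h5 h6 h7
  have w0 := hO.win b₀ hb₀
  have hp : p < K := by omega
  have hp' : p' < K := by omega
  obtain ⟨s1, s2⟩ := hO.split hq hP ha hx hb h1 h2 hp hp' h5 h6
  refine hE x hx p hp p' hp' ?_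
  rw [s1, s2]
  cases q.d <;> simp

/-- a same-row family with two places; its first place is sandwiched by `q`, the second by `q'` -/
theorem RefOrd.sepF₂ (hO : RefOrd K C R W D) (hq : q ∈ D) (hq' : q' ∈ D) (hr : R q.k = R q'.k)
    (hne : q.z ≠ q'.z) (hP : SandP W q.d q.G P) (hP' : SandP W q'.d q'.G P') {X : Set α}
    {L R' : α → Set α} (hC' : ∀ p < K, C q'.k p ∈ X)
    (hS : ∀ x ∈ W, PlSame (ES S) X (L (F x)) (R' (F x)) (F x) (P x) (P' x))
    (hL : ∀ x ∈ W, ∀ y ∈ X, ∀ z ∈ X, ES S (F x) y z → (y ∈ L (F x) ↔ z ∈ L (F x)))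
    (hR : ∀ x ∈ W, ∀ y ∈ X, ∀ z ∈ X, ES S (F x) y z → (y ∈ R' (F x) ↔ z ∈ R' (F x))) :
    SepF S C W F q.k ∧ SepF S C W F q'.k := by
  have toS : ∀ {t a b : α}, ¬ ES S t a b → S t a b := by
    intro t a b h
    unfold ES at h
    push Not at h
    exact h.2
  constructor
  · intro a₀ ha₀ a ha x hx b hb b₀ hb₀ h0 h1 h2 h3 p p' h4 h5 h6 h7
    have w0 := hO.win b₀ hb₀
    have hp : p < K := by omega
    have hp' : p' < K := by omega
    have hle := hO.two hq hq' hr hne hP hP' (hS x hx).le ha₀ ha hx hb hb₀ h0 h1 h2 h3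
    have i1 := hO.inside hq hle hP' ha₀ ha hx hb hb₀ h1 h2 hp (by omega) (by omega)
    have i2 := hO.inside hq hle hP' ha₀ ha hx hb hb₀ h1 h2 hp' (by omega) (by omega)
    obtain ⟨s1, s2⟩ := hO.split hq hP ha hx hb h1 h2 hp hp' h5 h6
    cases hd : q.d
    · rw [hd] at s1 s2
      exact toS ((hS x hx).sep₁ (hL x hx) (s2.2 rfl) i1 (fun h8 => absurd (s1.1 h8) (by simp))).2
    · rw [hd] at s1 s2
      exact toS ((hS x hx).sep₁ (hL x hx) (s1.2 rfl) i2 (fun h8 => absurd (s2.1 h8) (by simp))).1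
  · intro a₀ ha₀ a ha x hx b hb b₀ hb₀ h0 h1 h2 h3 p p' h4 h5 h6 h7
    have w0 := hO.win b₀ hb₀
    have hp : p < K := by omega
    have hp' : p' < K := by omega
    have hle := hO.two hq hq' hr hne hP hP' (hS x hx).le ha₀ ha hx hb hb₀ h0 h1 h2 h3
    have i1 := hO.outside hq' hle hP ha₀ ha hx hb hb₀ h1 h2 hp (by omega) (by omega)
    have i2 := hO.outside hq' hle hP ha₀ ha hx hb hb₀ h1 h2 hp' (by omega) (by omega)
    obtain ⟨s1, s2⟩ := hO.split hq' hP' ha hx hb h1 h2 hp hp' h5 h6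
    cases hd : q'.d
    · rw [hd] at s1 s2
      exact toS ((hS x hx).sep₂ (hR x hx) (s2.2 rfl) i2 (hC' p hp)
        (fun h8 => absurd (s1.1 h8) (by simp))).2
    · rw [hd] at s1 s2
      exact toS ((hS x hx).sep₂ (hR x hx) (s1.2 rfl) i1 (hC' p' hp')
        (fun h8 => absurd (s2.1 h8) (by simp))).1

/-- an enumeration of the usable windows -/
lemma exists_enum {W : Set ℕ} {M : ℕ} (hfin : W.Finite) (hM : M ≤ W.ncard) :
    ∃ Y : ℕ → ℕ, (∀ b < M, Y b ∈ W) ∧ ∀ a b, a < b → b < M → Y a < Y b := by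
  classical
  obtain ⟨s, hs, hsM⟩ := Finset.exists_subset_card_eq (s := hfin.toFinset) (n := M)
    (by rwa [Set.ncard_eq_toFinset_card W hfin] at hM)
  refine ⟨fun b => if hb : b < M then s.orderEmbOfFin hsM ⟨b, hb⟩ else 0, ?_, ?_⟩
  · intro b hb
    have h1 := Finset.orderEmbOfFin_mem s hsM ⟨b, hb⟩
    simp only [dif_pos hb]
    exact hfin.mem_toFinset.1 (hs h1)
  · intro a b hab hb
    have h1 := (s.orderEmbOfFin hsM).strictMono (show (⟨a, lt_trans hab hb⟩ : Fin M) < ⟨b, hb⟩ from hab)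
    simp only [dif_pos (lt_trans hab hb), dif_pos hb]
    exact h1

end

section

variable {α : Type u} {β : Type v} {ν : Type w} {V : Set β} {nd₁ nd₂ : β → ν}
  {S : α → α → α → Prop} {Dg : Set α} {RgF : α → (Bool → β) → (Bool → Set α) → Prop}
  {m K E₁ M : ℕ} {R : ℕ → β} {C : ℕ → ℕ → α} {γ : Set ℕ} {F : ℕ → ℕ → α}
  {ρ : ℕ → Bool → β} {P : ℕ → Bool → ℕ → Set α} {W : Set ℕ} {D : Set (Cd α)} {Y : ℕ → ℕ}

/-- (F2) for the chosen tiles -/
theorem RefOrd.nestY (hO : RefOrd K C R W D) (hY : ∀ b < M, Y b ∈ W)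
    (hYm : ∀ a b, a < b → b < M → Y a < Y b)
    (lab : ∀ e ∈ γ, ∀ c, ∃ q ∈ D, R q.k = ρ e c ∧ SandP W q.d q.G (P e c))
    (self : ∀ e ∈ γ, ∀ x ∈ W, ρ e false = ρ e true → P e false x ⊆ P e true x) :
    ∀ e ∈ γ, ∀ e' ∈ γ, ∀ x x', 3 ≤ x → x + 3 + 3 < M → 3 ≤ x' → x' + 3 + 3 < M →
      (x + 8 ≤ x' ∨ x' + 8 ≤ x ∨ (e = e' ∧ x = x')) → ∀ c c', ρ e c = ρ e' c' →
        P e c (Y (x + 1)) ⊆ P e' c' (Y (x' + 1)) ∨ P e' c' (Y (x' + 1)) ⊆ P e c (Y (x + 1)) := by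
  intro e he e' he' x x' h1 h2 h3 h4 h5 c c' hρ
  obtain ⟨q, hq, hqr, hP⟩ := lab e he c
  obtain ⟨q', hq', hqr', hP'⟩ := lab e' he' c'
  have hr : R q.k = R q'.k := by rw [hqr, hqr', hρ]
  rcases h5 with h5 | h5 | ⟨rfl, rfl⟩
  · exact hO.nest hq hq' hr hP hP' (hY x (by omega)) (hY (x + 1) (by omega)) (hY (x + 2) (by omega))
      (hY (x' + 1) (by omega)) (hY (x' + 2) (by omega)) (hYm _ _ (by omega) (by omega))
      (hYm _ _ (by omega) (by omega)) (hYm _ _ (by omega) (by omega)) (hYm _ _ (by omega) (by omega))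
  · exact (hO.nest hq' hq hr.symm hP' hP (hY x' (by omega)) (hY (x' + 1) (by omega))
      (hY (x' + 2) (by omega)) (hY (x + 1) (by omega)) (hY (x + 2) (by omega))
      (hYm _ _ (by omega) (by omega)) (hYm _ _ (by omega) (by omega))
      (hYm _ _ (by omega) (by omega)) (hYm _ _ (by omega) (by omega))).symm
  · have hx := hY (x + 1) (by omega)
    cases c <;> cases c'
    · exact Or.inl Subset.rfl
    · exact Or.inl (self e he _ hx hρ)
    · exact Or.inr (self e he _ hx hρ.symm)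
    · exact Or.inl Subset.rfl

/-- (F3) for the chosen tiles -/
theorem SepF.chosen {k : ℕ} {f : ℕ → α} (h : SepF S C W f k) (hY : ∀ b < M, Y b ∈ W)
    (hYm : ∀ a b, a < b → b < M → Y a < Y b) {x a b : ℕ} (h2 : x + 3 + 3 < M)
    (ha : 3 ≤ a) (hax : a < x) (hb : x + 3 < b) (hbM : b + 3 < M) :
    S (f (Y (x + 1))) (C k (5 * Y a)) (C k (5 * Y b)) := by
  have e1 : Y (a - 1) < Y a := hYm _ _ (by omega) (by omega)
  have e2 : Y a < Y (x + 1) := hYm _ _ (by omega) (by omega)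
  have e3 : Y (x + 1) < Y (b - 1) := hYm _ _ (by omega) (by omega)
  have e4 : Y (b - 1) < Y b := hYm _ _ (by omega) (by omega)
  exact h (Y (a - 1)) (hY _ (by omega)) (Y a) (hY _ (by omega)) (Y (x + 1)) (hY _ (by omega))
    (Y (b - 1)) (hY _ (by omega)) (Y b) (hY _ (by omega)) e1 e2 e3 e4 _ _ (by omega) le_rfl
    (by omega) le_rfl

/-- one edge of the chosen system -/
theorem SepF.edgK {Lb : Set ℕ} {i j e : ℕ} (hi : i ∈ Lb) (hj : j ∈ Lb) (he : e ∈ γ)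
    (h1 : SepF S C W (F e) i) (h2 : SepF S C W (F e) j) (hY : ∀ b < M, Y b ∈ W)
    (hYm : ∀ a b, a < b → b < M → Y a < Y b) :
    EdgK Lb S (fun i b => C i (5 * Y b)) M 3 γ (fun e x => F e (Y (x + 1))) i j :=
  ⟨⟨hi, hj⟩, e, he, fun _ _ hx _ _ ha hax hb hbM =>
    ⟨h1.chosen hY hYm hx ha hax hb hbM, h2.chosen hY hYm hx ha hax hb hbM⟩⟩

/-- (F1) for the chosen tiles -/
theorem fac_chosen (hY : ∀ b < M, Y b ∈ W)
    (fac : ∀ e ∈ γ, ∀ x ∈ W, RgF (F e x) (ρ e) (fun c => P e c x)) :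
    ∀ e ∈ γ, ∀ x, 3 ≤ x → x + 3 + 3 < M →
      RgF (F e (Y (x + 1))) (ρ e) (fun c => P e c (Y (x + 1))) :=
  fun e he x _ hx => fac e he _ (hY (x + 1) (by omega))

/-- **`LayOut` from the maximal list.**  `Cut₀` = the cut labels; the edges of the classes which are cut
completely are joined by chosen families. -/
theorem RefOrd.layOut (hO : RefOrd K C R W D) (hY : ∀ b < M, Y b ∈ W)
    (hYm : ∀ a b, a < b → b < M → Y a < Y b) (hlt : ∀ e ∈ γ, e < E₁) {Cut₀ : Set ℕ}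
    (fac : ∀ e ∈ γ, ∀ x ∈ W, RgF (F e x) (ρ e) (fun c => P e c x))
    (lab : ∀ e ∈ γ, ∀ c, ∃ q ∈ D, R q.k = ρ e c ∧ SandP W q.d q.G (P e c))
    (self : ∀ e ∈ γ, ∀ x ∈ W, ρ e false = ρ e true → P e false x ⊆ P e true x)
    (hmax : ∀ i, (∀ j, Relation.ReflTransGen (AdjK {i | i < m ∧ R i ∈ V} Dg S
        (fun i b => C i (5 * Y b)) M) i j → j ∈ Cut₀) ∨
      ∃ v v' : ν, ∀ j, Relation.ReflTransGen (AdjK {i | i < m ∧ R i ∈ V} Dg S
        (fun i b => C i (5 * Y b)) M) i j → At nd₁ nd₂ (R j) v ∨ At nd₁ nd₂ (R j) v')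
    (edge : ∀ i j, AdjK {i | i < m ∧ R i ∈ V} Dg S (fun i b => C i (5 * Y b)) M i j →
      (∀ k, Relation.ReflTransGen (AdjK {i | i < m ∧ R i ∈ V} Dg S
        (fun i b => C i (5 * Y b)) M) i k → k ∈ Cut₀) →
      (¬ ∃ v v' : ν, ∀ k, Relation.ReflTransGen (AdjK {i | i < m ∧ R i ∈ V} Dg S
        (fun i b => C i (5 * Y b)) M) i k → At nd₁ nd₂ (R k) v ∨ At nd₁ nd₂ (R k) v') →
      Relation.ReflTransGen (fun i j => (i < m ∧ R i ∈ V) ∧ (j < m ∧ R j ∈ V) ∧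
        ∃ e ∈ γ, SepF S C W (F e) i ∧ SepF S C W (F e) j) i j) :
    LayOut V nd₁ nd₂ S Dg RgF m M E₁ 3 R (fun i b => C i (5 * Y b)) γ
      (fun e x => F e (Y (x + 1))) ρ (fun e c x => P e c (Y (x + 1)))
      {i | ¬ ∃ v v' : ν, ∀ j, Relation.ReflTransGen (AdjK {i | i < m ∧ R i ∈ V} Dg S
        (fun i b => C i (5 * Y b)) M) i j → At nd₁ nd₂ (R j) v ∨ At nd₁ nd₂ (R j) v'} := by
  refine layOut_of (Cut₀ := Cut₀) hlt hmax (fac_chosen hY fac) (hO.nestY hY hYm lab self) ?_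
  intro i j hij h1 h2
  have h3 := edge i j hij h1 h2
  clear hij h1 h2
  induction h3 with
  | refl => exact Relation.ReflTransGen.refl
  | tail _ h4 ih =>
    obtain ⟨ha, hb, e, he, s1, s2⟩ := h4
    exact ih.tail (SepF.edgK ha hb he s1 s2 hY hYm)

end

end TST
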