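import Pool.Agent.TST.LayRow
import Pool.Agent.TST.LabDef3

/-!
# The places of a same-row reference on the full row (T-star, row R5, helper35)

`Lf` = elements of the row left of the cell `(X, T)`.  An element `s ∈ T` which crosses the exit `z` of
the cell has the left place `Lf ∪ (X ∩ A z ∩ L s)` and the right place
`Lf ∪ (X ∩ A z) ∪ (X \ A z \ R s)`.
-/

set_option autoImplicit false

open Set
open scoped Matroid

namespace TST

section

variable {α : Type*} {E : α → α → α → Prop} {L R A : α → Set α} {X T Lf row : Set α}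
  {z z' s a y : α}

/-- the left place of a link -/
def lPl (L A : α → Set α) (Lf X : Set α) (z s : α) : Set α := {x | x ∈ Lf ∨ (x ∈ X ∧ x ∈ A z ∧ x ∈ L s)}

/-- the right place of a link -/
def rPl (R A : α → Set α) (Lf X : Set α) (z s : α) : Set α := {x | x ∈ Lf ∨ (x ∈ X ∧ (x ∈ A z ∨ x ∉ R s))}

/-- the middle class of a link is neither left nor right -/
lemma PWitB.mid_notLR (h : PWitB E L R A X T z) (hs : s ∈ T) (ha : a ∈ X) (haA : a ∈ A z)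
    (haL : a ∉ L s) (hy : y ∈ X) (hyA : y ∉ A z) (hyR : y ∉ R s) {x : α} (hx : x ∈ X)
    (h1 : x ∈ A z → x ∉ L s) (h2 : x ∉ A z → x ∉ R s) : x ∉ L s ∧ x ∉ R s := by
  rcases h.link hs ha haA haL hy hyA hyR with ⟨-, k2, k3⟩ | k
  · by_cases hxA : x ∈ A z
    · exact ⟨h1 hxA, fun h3 => k3 x hx h3 hxA⟩
    · exact ⟨fun h3 => hxA (k2 x hx h3), h2 hxA⟩
  · by_cases hxA : x ∈ A z
    · exact ⟨h1 hxA, fun h3 => h1 hxA ((k.bal x hx).2 h3)⟩
    · exact ⟨fun h3 => h2 hxA ((k.bal x hx).1 h3), h2 hxA⟩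

/-- the middle class of a link is one class -/
lemma PWitB.mid_E (h : PWitB E L R A X T z) (hs : s ∈ T) (ha : a ∈ X) (haA : a ∈ A z)
    (haL : a ∉ L s) (hy : y ∈ X) (hyA : y ∉ A z) (hyR : y ∉ R s) {u v : α} (hu : u ∈ X) (hv : v ∈ X)
    (u1 : u ∉ L s) (u2 : u ∉ R s) (v1 : v ∉ L s) (v2 : v ∉ R s) : E s u v := by
  rcases h.link hs ha haA haL hy hyA hyR with ⟨k1, -, -⟩ | k
  · rw [k1.cls u hu v hv]
    exact ⟨⟨fun h => absurd h u1, fun h => absurd h v1⟩, ⟨fun h => absurd h u2, fun h => absurd h v2⟩⟩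
  · rw [k.cls u hu v hv]
    exact ⟨fun h => absurd h u1, fun h => absurd h v1⟩

/-- **`PlSame` for a link.** -/
theorem PWitB.plSame (h : PWitB E L R A X T z) (hs : s ∈ T) (ha : a ∈ X) (haA : a ∈ A z)
    (haL : a ∉ L s) (hy : y ∈ X) (hyA : y ∉ A z) (hyR : y ∉ R s) (hLf : Lf ⊆ row) (hX : X ⊆ row)
    (hd : Disjoint Lf X) (hl : ∀ x ∈ Lf, x ∈ L s) (hr : ∀ x ∈ row, x ∉ Lf → x ∉ X → x ∈ R s)
    (n₁ : (lPl L A Lf X z s).Nonempty) (n₂ : ∃ x ∈ row, x ∉ rPl R A Lf X z s) :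
    PlSame E row (L s) (R s) s (lPl L A Lf X z s) (rPl R A Lf X z s) where
  sub := by
    rintro x (hx | hx)
    exacts [hLf hx, hX hx.1]
  le := by
    rintro x (hx | hx)
    exacts [Or.inl hx, Or.inr ⟨hx.1, Or.inl hx.2.1⟩]
  lft := by
    rintro x (hx | hx)
    exacts [hl x hx, hx.2.2]
  rgt := by
    intro x hx hn
    have h1 : x ∉ Lf := fun h2 => hn (Or.inl h2)
    by_cases h2 : x ∈ X
    · by_contra h3
      exact hn (Or.inr ⟨h2, Or.inr h3⟩)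
    · exact hr x hx h1 h2
  mid := by
    intro x hx hn
    rcases hx with hx | hx
    · exact absurd (Or.inl hx) hn
    · refine h.mid_notLR hs ha haA haL hy hyA hyR hx.1 (fun h1 h2 => hn (Or.inr ⟨hx.1, h1, h2⟩)) ?_
      exact fun h1 => hx.2.resolve_left h1
  cls := by
    have key : ∀ x ∈ rPl R A Lf X z s, x ∉ lPl L A Lf X z s → x ∈ X ∧ x ∉ L s ∧ x ∉ R s := by
      intro x hx hn
      rcases hx with hx | hx
      · exact absurd (Or.inl hx) hn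
      · exact ⟨hx.1, h.mid_notLR hs ha haA haL hy hyA hyR hx.1
          (fun h1 h2 => hn (Or.inr ⟨hx.1, h1, h2⟩)) (fun h1 => hx.2.resolve_left h1)⟩
    intro x hx hxn w hw hwn
    obtain ⟨x1, x2, x3⟩ := key x hx hxn
    obtain ⟨w1, w2, w3⟩ := key w hw hwn
    exact h.mid_E hs ha haA haL hy hyA hyR x1 w1 x2 x3 w2 w3
  ne₁ := n₁
  ne := by
    refine ⟨a, Or.inr ⟨ha, Or.inl haA⟩, ?_⟩
    rintro (h1 | h1)
    · exact disjoint_left.1 hd h1 ha
    · exact haL h1.2.2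
  ne₂ := n₂

/-- the places do not depend on the wall -/
lemma PWitD.lPl_eq (h : PWitD E L R A X T z z') (inc : ∀ x ∈ X, x ∈ A z → x ∈ A z') (hs : s ∈ T)
    (ha : a ∈ X) (haA : a ∈ A z) (haL : a ∉ L s) (hy : y ∈ X) (hyA : y ∉ A z') (hyR : y ∉ R s) :
    lPl L A Lf X z s = lPl L A Lf X z' s := by
  ext x
  constructor
  · rintro (h1 | h1)
    exacts [Or.inl h1, Or.inr ⟨h1.1, inc x h1.1 h1.2.1, h1.2.2⟩]
  · rintro (h1 | h1)
    · exact Or.inl h1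
    · by_cases h2 : x ∈ A z
      · exact Or.inr ⟨h1.1, h2, h1.2.2⟩
      · exact absurd h1.2.2 (h.zig hs ha haA haL h1.1 h2 h1.2.1 hy hyA hyR).1

lemma PWitD.rPl_eq (h : PWitD E L R A X T z z') (inc : ∀ x ∈ X, x ∈ A z → x ∈ A z') (hs : s ∈ T)
    (ha : a ∈ X) (haA : a ∈ A z) (haL : a ∉ L s) (hy : y ∈ X) (hyA : y ∉ A z') (hyR : y ∉ R s) :
    rPl R A Lf X z s = rPl R A Lf X z' s := by
  ext x
  constructor
  · rintro (h1 | ⟨h1, h2 | h2⟩)
    exacts [Or.inl h1, Or.inr ⟨h1, Or.inl (inc x h1 h2)⟩, Or.inr ⟨h1, Or.inr h2⟩]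
  · rintro (h1 | ⟨h1, h2 | h2⟩)
    · exact Or.inl h1
    · by_cases h3 : x ∈ A z
      · exact Or.inr ⟨h1, Or.inl h3⟩
      · exact Or.inr ⟨h1, Or.inr (h.zig hs ha haA haL h1 h3 h2 hy hyA hyR).2⟩
    · exact Or.inr ⟨h1, Or.inr h2⟩

end

end TST
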