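import Pool.Agent.TST.LayN
import Pool.Agent.TST.LayStepR

/-!
# The near step of the state machine (label level of T-star, helper53)
-/

set_option autoImplicit false

open Set

namespace TST

universe u v w

section

variable {α : Type u} {β : Type v} {ν : Type w} {rw : β → Set α} {V : Set β}
    {nd₁ nd₂ : β → ν} {S : α → α → α → Prop} {Dg Fa On Dt : Set α} {Nr : ν → Set α}
    {Tr : β → Set α} {Tu : ν → Set α} {Lv : ν → α → Set α} {Aw : β → α → Set α}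
    {Au : ν → α → Fin 3 → Set α} {B : α → α → α → α → Prop} {lg : ν → Fin 3 → β}
    {oe : ν → Fin 3 → ν} {fr : α → Bool → β} {r₀ : α → β} {ct : α → ν}
    {m K c₀ W₀ : ℕ} {R : ℕ → β} {C : ℕ → ℕ → α} {γ : Set ℕ} {wf : ℕ → Finset ℕ → α}
    {ki kj kk : ℕ → ℕ} {σ : Sta α β}

/-- **STEP N**: a near family of `y` which splits the uncut label `a` and a label `b` of another row;
`b` is joined to a label touched by a real exit of the star of `y` by a path which avoids the uncut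
labels of the row `R a`. -/
theorem InvS.stepN
    (h : LabFacts3 rw V nd₁ nd₂ S Dg Fa On Dt Nr Tr Tu Lv Aw Au B lg oe fr r₀ ct)
    (hf : LabFam V nd₁ nd₂ S Dg Fa On Dt Nr Tr Lv Aw ct m K R C γ wf ki kj kk)
    (hC : ∀ i < m, R i ∈ V → ∀ p < K, C i p ∈ rw (R i))
    (hinj : ∀ k < m, ∀ p < K, ∀ p' < K, C k p = C k p' → p = p')
    (hσ : InvS rw V nd₁ nd₂ S (RowD rw V Dg Fa Nr Tr Lv lg oe) Tr Lv Aw
      (QcN rw V nd₁ nd₂ S Fa Nr Tr Tu Lv Aw Au B lg oe) m K R C γ wf ki kk c₀ W₀ σ)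
    {y : ν} {e a b p : ℕ} (he : NearK nd₁ nd₂ R γ ki kk y e) (hea : SplF V S m K R C wf e a)
    (heb : SplF V S m K R C wf e b) (hab : R a ≠ R b) (hac : a ∉ csS V m R σ)
    (hp : ExG nd₁ nd₂ R (PairG (FarK γ kk) (SplF V S m K R C wf))
      (fun y => PairG (NearK nd₁ nd₂ R γ ki kk y) (SplF V S m K R C wf)) y p)
    (hpb : PathG nd₁ nd₂ R (SameG R (SameK γ kk) (SplF V S m K R C wf))
      (fun y => PairG (NearK nd₁ nd₂ R γ ki kk y) (SplF V S m K R C wf)) (csS V m R σ) (R a) y p b)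
    (hW : 20 * m + 6 ≤ σ.W.card) :
    RowStep (ES S) (Lv (nd₁ (R a))) (Lv (nd₂ (R a))) (RowD rw V Dg Fa Nr Tr Lv lg oe) (famF wf) γ
      K C (lbR m R (R a)) (QcN rw V nd₁ nd₂ S Fa Nr Tr Tu Lv Aw Au B lg oe (R a))
      (rootC rw Tr Aw (R a)) (20 * m + 5) σ.W (σ.D (R a)) e a := by
  have haV := hea.1.2
  refine h.stepN hf hC hinj rowG_rowD (fun c d hd hn => h.rowD_two hd hn)
    (fun c d hd hn h2 => ⟨hd, Or.inr (Or.inl ⟨c, hn, h2⟩)⟩) haV hσ.win (hσ.tr (R a) haV) he hea heb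
    rfl (Ne.symm hab) (fun h1 => hac ⟨hea.1, h1⟩) (Cut := csS V m R σ) ?_ hp hpb le_rfl hW
  rintro k ⟨-, hk⟩ _ hkR
  rwa [hkR] at hk

end

end TST
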