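import Pool.Agent.TST.LayDef
import Pool.Agent.TST.WitFacts

/-!
# The tree of cells of one row (T-star, row R5, helper79)

Monotonicity, labels, walls, the leaf of an uncut label (`GT.leaf_of`), descent of free families.
-/

set_option autoImplicit false

open Set

namespace TST

universe u

section

variable {α : Type u} {E : α → α → α → Prop} {L R : α → Set α} {Dg : Set α} {F : ℕ → ℕ → α}
  {γ : Set ℕ} {K : ℕ} {C : ℕ → ℕ → α} {Lb : Set ℕ} {Qc : Cell α → Prop} {c g : Cell α}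
  {W W' Wz Wf Cz : Set ℕ} {D D₁ D₂ D' : Set (Cd α)} {z f j k i x y : ℕ} {d : Bool} {e s : α}
  {l₁ l₂ h₂ h₁ : ℕ}

/-! ### cells -/

lemma left_X {z : α} : (c.left L R z).X ⊆ c.X := fun _ h => h.1

lemma right_X {z : α} : (c.right L R z).X ⊆ c.X := fun _ h => h.1

lemma left_T {z : α} : (c.left L R z).T ⊆ c.T := fun _ h => h.1

lemma right_T {z : α} : (c.right L R z).T ⊆ c.T := fun _ h => h.1

lemma left_A {z : α} (he : e ∉ c.T) : (c.left L R z).A e = c.A e := by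
  ext x
  exact mem_cA_n he

lemma right_A {z : α} (he : e ∉ c.T) : (c.right L R z).A e = c.A e := by
  ext x
  exact mem_cB_n he

lemma InC.left {z : α} (h : InC K C (c.left L R z) k) : InC K C c k := fun p hp => (h p hp).1

lemma InC.right {z : α} (h : InC K C (c.right L R z) k) : InC K C c k := fun p hp => (h p hp).1

lemma left_disj {z : α} (h : Disjoint c.Lf c.X) :
    Disjoint (c.left L R z).Lf (c.left L R z).X := h.mono_right left_X

lemma right_disj {z : α} (h : Disjoint c.Lf c.X) :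
    Disjoint (c.right L R z).Lf (c.right L R z).X := by
  rw [disjoint_left]
  rintro x (h1 | h1) h2
  · exact disjoint_left.1 h h1 h2.1
  · exact h2.2 h1.2

/-! ### the mirror image of `linkC` -/

lemma PWitD.linkCR {X T : Set α} {A : α → Set α} {z₀ e d : α} (h : PWitD E L R A X T z₀ d)
    (hz : ∃ x ∈ X, ∃ y ∈ X, ¬ E z₀ x y) (hdT : d ∉ T)
    (hd : ∃ x ∈ cX X (A z₀)ᶜ, ∃ y ∈ cX X (A z₀)ᶜ, ¬ E d x y) (he : e ∈ T)
    (hen : e ∉ cT L X T (A z₀)ᶜ)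
    (hex : ∃ x ∈ cX X (A z₀)ᶜ, ∃ y ∈ cX X (A z₀)ᶜ, ¬ E e x y) :
    PWitD E L R (cB R A T) (cX X (A z₀)ᶜ) (cT L X T (A z₀)ᶜ) e d := by
  have hd' : ∃ x ∈ X, ∃ y ∈ X, ¬ E d x y := by
    obtain ⟨x, hx, y, hy, h1⟩ := hd
    exact ⟨x, hx.1, y, hy.1, h1⟩
  have h1 : PWitD E R L (fun s => (A s)ᶜ) X T z₀ d :=
    h.swap hz hd' (fun _ _ => Iff.rfl) (fun _ _ => Iff.rfl)
  have h2 := h1.linkC hdT hd he hen
  exact h2.swap hex hd (fun x _ => Iff.rfl) (fun x _ => Iff.rfl)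

/-! ### order of the windows -/

/-- the member at `x` is left of the member at `y` -/
def Bf (d : Bool) (x y : ℕ) : Prop := (d = true ∧ x < y) ∨ (d = false ∧ y < x)

lemma Bf.ne (h : Bf d x y) : x ≠ y := by
  rcases h with ⟨-, h⟩ | ⟨-, h⟩ <;> omega

lemma Bf.total (d : Bool) (h : x ≠ y) : Bf d x y ∨ Bf d y x := by
  cases d
  · rcases lt_or_gt_of_ne h with h1 | h1
    · exact Or.inr (Or.inr ⟨rfl, h1⟩)
    · exact Or.inl (Or.inr ⟨rfl, h1⟩)
  · rcases lt_or_gt_of_ne h with h1 | h1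
    · exact Or.inl (Or.inl ⟨rfl, h1⟩)
    · exact Or.inr (Or.inl ⟨rfl, h1⟩)

namespace Resv

lemma wl_mem (h : Resv Wz W l₁ l₂ h₂ h₁) : wl d l₁ h₁ ∈ Wz := by
  unfold wl
  split_ifs
  exacts [h.ml₁, h.mh₁]

lemma wr_mem (h : Resv Wz W l₁ l₂ h₂ h₁) : wr d l₁ h₁ ∈ Wz := by
  unfold wr
  split_ifs
  exacts [h.mh₁, h.ml₁]

lemma wl_mem' (h : Resv Wz W l₁ l₂ h₂ h₁) : wl d l₂ h₂ ∈ Wz := by
  unfold wl
  split_ifs
  exacts [h.ml₂, h.mh₂]

lemma wr_mem' (h : Resv Wz W l₁ l₂ h₂ h₁) : wr d l₂ h₂ ∈ Wz := by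
  unfold wr
  split_ifs
  exacts [h.mh₂, h.ml₂]

lemma bl (h : Resv Wz W l₁ l₂ h₂ h₁) (hx : x ∈ W) : Bf d (wl d l₁ h₁) x := by
  have h1 := h.ll
  have h2 := h.hh
  have h3 := h.lo x hx
  have h4 := h.hi x hx
  cases d
  · right; exact ⟨rfl, by simp only [wl]; simp; omega⟩
  · left; exact ⟨rfl, by simp only [wl]; simp; omega⟩

lemma br (h : Resv Wz W l₁ l₂ h₂ h₁) (hx : x ∈ W) : Bf d x (wr d l₁ h₁) := by
  have h1 := h.ll
  have h2 := h.hh
  have h3 := h.lo x hx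
  have h4 := h.hi x hx
  cases d
  · right; exact ⟨rfl, by simp only [wr]; simp; omega⟩
  · left; exact ⟨rfl, by simp only [wr]; simp; omega⟩

lemma bl' (h : Resv Wz W l₁ l₂ h₂ h₁) (hx : x ∈ W) : Bf d (wl d l₂ h₂) x := by
  have h3 := h.lo x hx
  have h4 := h.hi x hx
  cases d
  · right; exact ⟨rfl, by simp only [wl]; simp; omega⟩
  · left; exact ⟨rfl, by simp only [wl]; simp; omega⟩

lemma br' (h : Resv Wz W l₁ l₂ h₂ h₁) (hx : x ∈ W) : Bf d x (wr d l₂ h₂) := by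
  have h3 := h.lo x hx
  have h4 := h.hi x hx
  cases d
  · right; exact ⟨rfl, by simp only [wr]; simp; omega⟩
  · left; exact ⟨rfl, by simp only [wr]; simp; omega⟩

lemma bll (h : Resv Wz W l₁ l₂ h₂ h₁) : Bf d (wl d l₁ h₁) (wl d l₂ h₂) := by
  have h1 := h.ll
  have h2 := h.hh
  cases d
  · right; exact ⟨rfl, by simp only [wl]; simp; omega⟩
  · left; exact ⟨rfl, by simp only [wl]; simp; omega⟩

lemma brr (h : Resv Wz W l₁ l₂ h₂ h₁) : Bf d (wr d l₂ h₂) (wr d l₁ h₁) := by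
  have h1 := h.ll
  have h2 := h.hh
  cases d
  · right; exact ⟨rfl, by simp only [wr]; simp; omega⟩
  · left; exact ⟨rfl, by simp only [wr]; simp; omega⟩

lemma blr (h : Resv Wz W l₁ l₂ h₂ h₁) : Bf d (wl d l₁ h₁) (wr d l₁ h₁) := by
  have h1 := h.ll
  have h2 := h.hh
  have h3 := h.lh
  cases d
  · right; exact ⟨rfl, by simp only [wl, wr]; simp; omega⟩
  · left; exact ⟨rfl, by simp only [wl, wr]; simp; omega⟩

lemma mono (h : Resv Wz W l₁ l₂ h₂ h₁) (hW : W' ⊆ W) : Resv Wz W' l₁ l₂ h₂ h₁ :=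
  ⟨hW.trans h.sub, h.ml₁, h.ml₂, h.mh₂, h.mh₁, h.ll, h.hh, h.lh, fun x hx => h.lo x (hW hx),
    fun x hx => h.hi x (hW hx)⟩

/-- a wall left of all usable windows and different from `b` -/
lemma pickL (h : Resv Wz W l₁ l₂ h₂ h₁) (d : Bool) (b : ℕ) : ∃ u ∈ Wz, u ≠ b ∧
    (∀ x ∈ W, Bf d u x) ∧ (u = wl d l₁ h₁ ∨ Bf d (wl d l₁ h₁) u) := by
  by_cases hb : wl d l₁ h₁ = b
  · refine ⟨wl d l₂ h₂, h.wl_mem', ?_, fun x hx => h.bl' hx, Or.inr h.bll⟩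
    rw [← hb]
    exact (h.bll (d := d)).ne.symm
  · exact ⟨wl d l₁ h₁, h.wl_mem, hb, fun x hx => h.bl hx, Or.inl rfl⟩

lemma pickR (h : Resv Wz W l₁ l₂ h₂ h₁) (d : Bool) (b : ℕ) : ∃ u ∈ Wz, u ≠ b ∧
    (∀ x ∈ W, Bf d x u) ∧ (u = wr d l₁ h₁ ∨ Bf d u (wr d l₁ h₁)) := by
  by_cases hb : wr d l₁ h₁ = b
  · refine ⟨wr d l₂ h₂, h.wr_mem', ?_, fun x hx => h.br' hx, Or.inr h.brr⟩
    rw [← hb]
    exact (h.brr (d := d)).ne
  · exact ⟨wr d l₁ h₁, h.wr_mem, hb, fun x hx => h.br hx, Or.inl rfl⟩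

end Resv

/-! ### nodes -/

namespace Node

/-- two members are a pair -/
lemma pw (h : Node E L R Dg F γ K C Lb c z d Wz Cz) (hx : x ∈ Wz) (hy : y ∈ Wz) (hxy : x ≠ y) :
    PWitD E L R c.A c.X c.T (F z x) (F z y) :=
  h.fr.w2f x hx (F z x) ⟨z, h.mem, rfl⟩ (mem_univ _) (h.exc x hx) y hy (Ne.symm hxy) (h.exc y hy)

/-- a member and an exit which is a member of a family at another window -/
lemma pwM (h : Node E L R Dg F γ K C Lb c z d Wz Cz) (hx : x ∈ Wz) (he : e ∈ MbF F γ x)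
    (hex : ExC E Dg c.X c.T e) (hy : y ∈ Wz) (hxy : x ≠ y) :
    PWitD E L R c.A c.X c.T (F z y) e :=
  (h.fr.w2f x hx e he (mem_univ _) hex y hy (Ne.symm hxy) (h.exc y hy)).symm

lemma notT (h : Node E L R Dg F γ K C Lb c z d Wz Cz) (hx : x ∈ Wz) : F z x ∉ c.T :=
  (h.fr.mem x hx).2.1

/-- the members are nested -/
lemma inc0 (h : Node E L R Dg F γ K C Lb c z d Wz Cz) (hx : x ∈ Wz) (hy : y ∈ Wz)
    (hxy : Bf d x y) : ∀ a ∈ c.X, a ∈ c.A (F z x) → a ∈ c.A (F z y) := by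
  obtain ⟨k, hk⟩ := h.ne
  have hkc := (h.lb k hk).2
  have h1 := h.cut k hk x hx
  have h2 := h.cut k hk y hy
  have hKx := h.win x hx
  have hKy := h.win y hy
  rcases (h.pw hx hy hxy.ne).chain with h3 | h3
  · exact h3
  exfalso
  rcases hxy with ⟨rfl, hxy⟩ | ⟨rfl, hxy⟩
  · have a1 := (h2.1 (5 * y) (by omega) le_rfl).2 rfl
    have a2 := h3 _ (hkc _ (by omega)) a1
    have a3 := (h1.2 (5 * y) (by omega) (by omega)).1 a2
    exact absurd a3 (by simp)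
  · have a1 := (h2.2 (5 * x) (by omega) (by omega)).2 rfl
    have a2 := h3 _ (hkc _ (by omega)) a1
    have a3 := (h1.1 (5 * x) (by omega) le_rfl).1 a2
    exact absurd a3 (by simp)

/-- positions of a cut label behind a member -/
lemma cut_out (h : Node E L R Dg F γ K C Lb c z d Wz Cz) (hk : k ∈ Cz) (hx : x ∈ Wz) {p : ℕ}
    (hp : p < K) (h1 : d = true → 5 * x + 5 ≤ p) (h2 : d = false → p ≤ 5 * x) :
    C k p ∉ c.A (F z x) := by
  have h3 := h.cut k hk x hx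
  cases d
  · intro h4
    exact absurd ((h3.1 p hp (h2 rfl)).1 h4) (by simp)
  · intro h4
    exact absurd ((h3.2 p hp (h1 rfl)).1 h4) (by simp)

/-- positions of a cut label before a member -/
lemma cut_in (h : Node E L R Dg F γ K C Lb c z d Wz Cz) (hk : k ∈ Cz) (hx : x ∈ Wz) {p : ℕ}
    (hp : p < K) (h1 : d = true → p ≤ 5 * x) (h2 : d = false → 5 * x + 5 ≤ p) :
    C k p ∈ c.A (F z x) := by
  have h3 := h.cut k hk x hx
  cases d
  · exact (h3.2 p hp (h2 rfl)).2 rfl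
  · exact (h3.1 p hp (h1 rfl)).2 rfl

/-- positions of a cut label between usable windows are behind every wall on the left -/
lemma cut_out' (h : Node E L R Dg F γ K C Lb c z d Wz Cz) (hk : k ∈ Cz) {u : ℕ} (hu : u ∈ Wz)
    (hux : Bf d u x) (huy : Bf d u y) {p : ℕ} (hp : p < K) (h1 : 5 * x ≤ p) (h2 : p ≤ 5 * y + 5) :
    C k p ∉ c.A (F z u) := by
  refine h.cut_out hk hu hp (fun hd => ?_) (fun hd => ?_)
  · rcases hux with ⟨-, h3⟩ | ⟨h3, -⟩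
    · omega
    · rw [hd] at h3; cases h3
  · rcases huy with ⟨h3, -⟩ | ⟨-, h3⟩
    · rw [hd] at h3; cases h3
    · omega

lemma cut_in' (h : Node E L R Dg F γ K C Lb c z d Wz Cz) (hk : k ∈ Cz) {u : ℕ} (hu : u ∈ Wz)
    (hux : Bf d x u) (huy : Bf d y u) {p : ℕ} (hp : p < K) (h1 : 5 * x ≤ p) (h2 : p ≤ 5 * y + 5) :
    C k p ∈ c.A (F z u) := by
  refine h.cut_in hk hu hp (fun hd => ?_) (fun hd => ?_)
  · rcases huy with ⟨-, h3⟩ | ⟨h3, -⟩
    · omega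
    · rw [hd] at h3; cases h3
  · rcases hux with ⟨h3, -⟩ | ⟨-, h3⟩
    · rw [hd] at h3; cases h3
    · omega

/-- an uncut label of the cell lies in one of the children -/
lemma side0 (h : Node E L R Dg F γ K C Lb c z d Wz Cz) (hr : Resv Wz W l₁ l₂ h₂ h₁) (hk : k ∈ Lb)
    (hkc : InC K C c k) (hkC : k ∉ Cz) :
    InC K C (c.left L R (F z (wl d l₁ h₁))) k ∨ InC K C (c.right L R (F z (wr d l₁ h₁))) k := by
  rcases h.con k hk hkc hkC with h1 | h1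
  · exact Or.inl fun p hp => ⟨hkc p hp, h1 _ hr.wl_mem p hp⟩
  · exact Or.inr fun p hp => ⟨hkc p hp, h1 _ hr.wr_mem p hp⟩

end Node

/-! ### the tree -/

/-- the relevant parameters -/
lemma mem_cutL_nd : k ∈ cutL (ndD F c z d Cz ∪ D₁ ∪ D₂) ↔ k ∈ Cz ∨ k ∈ cutL D₁ ∨ k ∈ cutL D₂ := by
  constructor
  · rintro ⟨q, (hq | hq) | hq, rfl⟩
    exacts [Or.inl hq.1, Or.inr (Or.inl ⟨q, hq, rfl⟩), Or.inr (Or.inr ⟨q, hq, rfl⟩)]
  · rintro (hk | ⟨q, hq, rfl⟩ | ⟨q, hq, rfl⟩)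
    · exact ⟨⟨k, z, d, fun x => c.gp (F z x)⟩, Or.inl (Or.inl ⟨hk, rfl, rfl, rfl⟩), rfl⟩
    · exact ⟨q, Or.inl (Or.inr hq), rfl⟩
    · exact ⟨q, Or.inr hq, rfl⟩

namespace GT

lemma mono (h : GT E L R Dg F γ K C Lb Qc c W D) (hW : W' ⊆ W) :
    GT E L R Dg F γ K C Lb Qc c W' D := by
  induction h with
  | leaf c W hS hQ => exact .leaf c W' hS hQ
  | node c W z d Wz Cz D₁ D₂ l₁ l₂ h₂ h₁ hS hQ hN hR _ _ ih₁ ih₂ =>
    exact .node c W' z d Wz Cz D₁ D₂ l₁ l₂ h₂ h₁ hS hQ hN (hR.mono hW) (ih₁ hW) (ih₂ hW)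

lemma cellS (h : GT E L R Dg F γ K C Lb Qc c W D) : CellS E L R c.A Dg c.X c.T := by
  cases h with
  | leaf c W hS hQ => exact hS
  | node c W z d Wz Cz D₁ D₂ l₁ l₂ h₂ h₁ hS hQ hN hR _ _ => exact hS

lemma qc (h : GT E L R Dg F γ K C Lb Qc c W D) : Qc c := by
  cases h with
  | leaf c W hS hQ => exact hQ
  | node c W z d Wz Cz D₁ D₂ l₁ l₂ h₂ h₁ hS hQ hN hR _ _ => exact hQ

/-- the cut labels are labels of the cell -/
lemma lb (h : GT E L R Dg F γ K C Lb Qc c W D) : ∀ q ∈ D, q.k ∈ Lb ∧ InC K C c q.k ∧ q.z ∈ γ := by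
  induction h with
  | leaf c W hS hQ => exact fun q hq => absurd hq (notMem_empty q)
  | node c W z d Wz Cz D₁ D₂ l₁ l₂ h₂ h₁ hS hQ hN hR _ _ ih₁ ih₂ =>
    rintro q ((hq | hq) | hq)
    · obtain ⟨h1, h2⟩ := hN.lb _ hq.1
      exact ⟨h1, h2, hq.2.1 ▸ hN.mem⟩
    · obtain ⟨h1, h2, h3⟩ := ih₁ q hq
      exact ⟨h1, h2.left, h3⟩
    · obtain ⟨h1, h2, h3⟩ := ih₂ q hq
      exact ⟨h1, h2.right, h3⟩

/-- the members of a reference at the usable windows -/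
lemma memDg (h : GT E L R Dg F γ K C Lb Qc c W D) : ∀ q ∈ D, ∀ x ∈ W, F q.z x ∈ Dg := by
  induction h with
  | leaf c W hS hQ => exact fun q hq => absurd hq (notMem_empty q)
  | node c W z d Wz Cz D₁ D₂ l₁ l₂ h₂ h₁ hS hQ hN hR _ _ ih₁ ih₂ =>
    rintro q ((hq | hq) | hq) x hx
    · rw [hq.2.1]
      exact (hN.fr.mem x (hR.sub hx)).1
    · exact ih₁ q hq x hx
    · exact ih₂ q hq x hx

end GT

/-! ### the leaf of an uncut label -/

/-- the leaf itself -/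
lemma LeafAt.self (hS : CellS E L R c.A Dg c.X c.T) (hQ : Qc c) (hj : InC K C c j) :
    LeafAt E L R Dg F γ K C Lb Qc c W ∅ j c where
  cs := hS
  qc := hQ
  inC := hj
  X := Subset.rfl
  T := Subset.rfl
  A := fun _ _ => rfl
  cutp := fun q hq => absurd hq (notMem_empty q)
  link := fun s hs h => absurd hs h.2.1
  desc := fun _ _ _ _ h => h
  app := fun W' _ D' h => by rw [empty_union]; exact h

/-- the leaf lies in the left child -/
lemma LeafAt.ofLeft (hS : CellS E L R c.A Dg c.X c.T) (hQ : Qc c)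
    (hN : Node E L R Dg F γ K C Lb c z d Wz Cz) (hR : Resv Wz W l₁ l₂ h₂ h₁)
    (h₂' : GT E L R Dg F γ K C Lb Qc (c.right L R (F z (wr d l₁ h₁))) W D₂)
    (h : LeafAt E L R Dg F γ K C Lb Qc (c.left L R (F z (wl d l₁ h₁))) W D₁ j g) :
    LeafAt E L R Dg F γ K C Lb Qc c W (ndD F c z d Cz ∪ D₁ ∪ D₂) j g where
  cs := h.cs
  qc := h.qc
  inC := h.inC
  X := h.X.trans left_X
  T := h.T.trans left_T
  A := by
    intro e he
    rw [h.A e fun h1 => he (left_T h1), left_A he]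
  cutp := by
    rintro q ((hq | hq) | hq) x hx y hy p hp h1 h2 h3
    · exact hN.cut_out' hq.1 hR.wl_mem (hR.bl hx) (hR.bl hy) hp h1 h2 (h.X h3).2
    · exact h.cutp q hq x hx y hy p hp h1 h2 h3
    · have h4 := ((h₂'.lb q hq).2.1 p hp).2
      exact h4 (hN.inc0 hR.wl_mem hR.wr_mem hR.blr _ ((h₂'.lb q hq).2.1 p hp).1 (h.X h3).2)
  link := by
    intro s hs hsg x hx y hy hyT hyg
    by_cases h1 : s ∈ (c.left L R (F z (wl d l₁ h₁))).T
    · exact h.link s h1 hsg x hx y hy (fun h2 => hyT (left_T h2)) hyg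
    · have hyc : ExC E Dg c.X c.T y := hyg.up (h.X.trans left_X) hyT
      have h2 := hN.pwM (hR.sub hx) hy hyc hR.wl_mem (hR.bl (d := d) hx).ne.symm
      have hy' : ∃ a ∈ cX c.X (c.A (F z (wl d l₁ h₁))), ∃ b ∈ cX c.X (c.A (F z (wl d l₁ h₁))),
          ¬ E y a b := by
        obtain ⟨a, ha, b, hb, h3⟩ := hyg.2.2
        exact ⟨a, h.X ha, b, h.X hb, h3⟩
      have h3 := h2.linkC hyT hy' hs h1
      refine h3.old h.X h.T (fun a _ => ?_) (fun a _ => ?_)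
      · rw [h.A s h1]
        exact Iff.rfl
      · rw [h.A y fun h4 => hyT (left_T h4)]
        exact Iff.rfl
  desc := by
    intro f hf Wf hWf hF
    refine h.desc f hf Wf hWf ?_
    refine (hF.left (z₀ := F z (wl d l₁ h₁)) Subset.rfl fun x hx hex => ?_).mono Subset.rfl
      (fun _ _ => Or.inl trivial)
    exact hN.pwM (hR.sub (hWf hx)) ⟨f, hf, rfl⟩ hex hR.wl_mem (hR.bl (d := d) (hWf hx)).ne.symm
  app := by
    intro W' hW D' hD'
    have e : ndD F c z d Cz ∪ D₁ ∪ D₂ ∪ D' = ndD F c z d Cz ∪ (D₁ ∪ D') ∪ D₂ := by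
      ext q
      simp only [mem_union]
      tauto
    rw [e]
    exact .node c W' z d Wz Cz (D₁ ∪ D') D₂ l₁ l₂ h₂ h₁ hS hQ hN (hR.mono hW) (h.app W' hW D' hD')
      (h₂'.mono hW)

/-- the leaf lies in the right child -/
lemma LeafAt.ofRight (hS : CellS E L R c.A Dg c.X c.T) (hQ : Qc c)
    (hN : Node E L R Dg F γ K C Lb c z d Wz Cz) (hR : Resv Wz W l₁ l₂ h₂ h₁)
    (h₁' : GT E L R Dg F γ K C Lb Qc (c.left L R (F z (wl d l₁ h₁))) W D₁)
    (h : LeafAt E L R Dg F γ K C Lb Qc (c.right L R (F z (wr d l₁ h₁))) W D₂ j g) :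
    LeafAt E L R Dg F γ K C Lb Qc c W (ndD F c z d Cz ∪ D₁ ∪ D₂) j g where
  cs := h.cs
  qc := h.qc
  inC := h.inC
  X := h.X.trans right_X
  T := h.T.trans right_T
  A := by
    intro e he
    rw [h.A e fun h1 => he (right_T h1), right_A he]
  cutp := by
    rintro q ((hq | hq) | hq) x hx y hy p hp h1 h2 h3
    · exact (h.X h3).2 (hN.cut_in' hq.1 hR.wr_mem (hR.br hx) (hR.br hy) hp h1 h2)
    · have h4 := (h₁'.lb q hq).2.1 p hp
      exact (h.X h3).2 (hN.inc0 hR.wl_mem hR.wr_mem hR.blr _ h4.1 h4.2)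
    · exact h.cutp q hq x hx y hy p hp h1 h2 h3
  link := by
    intro s hs hsg x hx y hy hyT hyg
    by_cases h1 : s ∈ (c.right L R (F z (wr d l₁ h₁))).T
    · exact h.link s h1 hsg x hx y hy (fun h2 => hyT (right_T h2)) hyg
    · have hyc : ExC E Dg c.X c.T y := hyg.up (h.X.trans right_X) hyT
      have h2 := hN.pwM (hR.sub hx) hy hyc hR.wr_mem (hR.br (d := d) hx).ne
      have up : ∀ t, ExC E Dg g.X g.T t → ∃ a ∈ cX c.X (c.A (F z (wr d l₁ h₁)))ᶜ,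
          ∃ b ∈ cX c.X (c.A (F z (wr d l₁ h₁)))ᶜ, ¬ E t a b := by
        intro t ht
        obtain ⟨a, ha, b, hb, h3⟩ := ht.2.2
        exact ⟨a, h.X ha, b, h.X hb, h3⟩
      have h3 := h2.linkCR (hN.exc _ hR.wr_mem).2.2 hyT (up y hyg) hs h1 (up s hsg)
      refine h3.old h.X h.T (fun a _ => ?_) (fun a _ => ?_)
      · rw [h.A s h1]
        exact Iff.rfl
      · rw [h.A y fun h4 => hyT (right_T h4)]
        exact Iff.rfl
  desc := by
    intro f hf Wf hWf hF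
    refine h.desc f hf Wf hWf ?_
    refine (hF.right (z₀ := F z (wr d l₁ h₁)) Subset.rfl (hN.exc _ hR.wr_mem).2.2
      fun x hx hex => ?_).mono Subset.rfl (fun _ _ => Or.inl trivial)
    exact hN.pwM (hR.sub (hWf hx)) ⟨f, hf, rfl⟩ hex hR.wr_mem (hR.br (d := d) (hWf hx)).ne
  app := by
    intro W' hW D' hD'
    rw [union_assoc]
    exact .node c W' z d Wz Cz D₁ (D₂ ∪ D') l₁ l₂ h₂ h₁ hS hQ hN (hR.mono hW) (h₁'.mono hW)
      (h.app W' hW D' hD')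

/-- **The leaf of an uncut label.** -/
theorem GT.leaf_of (h : GT E L R Dg F γ K C Lb Qc c W D) (hj : j ∈ Lb) (hjc : InC K C c j)
    (hjD : j ∉ cutL D) : ∃ g, LeafAt E L R Dg F γ K C Lb Qc c W D j g := by
  induction h with
  | leaf c W hS hQ => exact ⟨c, LeafAt.self hS hQ hjc⟩
  | node c W z d Wz Cz D₁ D₂ l₁ l₂ h₂ h₁ hS hQ hN hR h₁' h₂' ih₁ ih₂ =>
    rw [mem_cutL_nd] at hjD
    push Not at hjD
    rcases hN.side0 hR hj hjc hjD.1 with h1 | h1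
    · obtain ⟨g, hg⟩ := ih₁ h1 hjD.2.1
      exact ⟨g, hg.ofLeft hS hQ hN hR h₂'⟩
    · obtain ⟨g, hg⟩ := ih₂ h1 hjD.2.2
      exact ⟨g, hg.ofRight hS hQ hN hR h₁'⟩

end

end TST
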