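import Pool.Agent.TST.LayTree2
import Pool.Agent.TST.LayNest

/-!
# The tree of cells of one row, third part (T-star, row R5, helper79)

`GT.same_step` (T2): the same-row step.  `GT.bound`, `GT.mono_G`, `GT.side_G`, `GT.ord` (T5): the
places of the references; `GT.refOrd`: the fields of `RefOrd` for one row.
-/

set_option autoImplicit false

open Set

namespace TST

universe u

section

variable {α : Type u} {E : α → α → α → Prop} {L R : α → Set α} {Dg : Set α} {F : ℕ → ℕ → α}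
  {γ : Set ℕ} {K : ℕ} {C : ℕ → ℕ → α} {Lb : Set ℕ} {Qc : Cell α → Prop} {c g : Cell α}
  {W W' Wz Wf Cz : Set ℕ} {D D₁ D₂ D' : Set (Cd α)} {z f t j k i x y : ℕ} {d : Bool} {e s : α}
  {l₁ l₂ h₂ h₁ : ℕ}

/-! ### T2: the same-row step -/

/-- a label of the right child is right of all members -/
lemma Node.right_all (h : Node E L R Dg F γ K C Lb c z d Wz Cz) (hR : Resv Wz W l₁ l₂ h₂ h₁)
    (hk : k ∈ Lb) (hkr : InC K C (c.right L R (F z (wr d l₁ h₁))) k) :
    ∀ x ∈ Wz, ∀ p < K, C k p ∉ c.A (F z x) := by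
  have hw := h.win _ (hR.wr_mem (d := d))
  have hkC : k ∉ Cz := by
    intro hkC
    cases hd : d
    · rw [hd] at hkr hw h
      exact (hkr (5 * wr false l₁ h₁ + 5) hw).2 ((h.cut k hkC _ hR.wr_mem).2 _ hw le_rfl |>.2 rfl)
    · rw [hd] at hkr hw h
      exact (hkr (5 * wr true l₁ h₁) (by omega)).2
        ((h.cut k hkC _ hR.wr_mem).1 _ (by omega) le_rfl |>.2 rfl)
  rcases h.con k hk hkr.right hkC with h1 | h1
  · exact absurd (h1 _ hR.wr_mem 0 (by omega)) (hkr 0 (by omega)).2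
  · exact h1

/-- a label of the left child is left of all members -/
lemma Node.left_all (h : Node E L R Dg F γ K C Lb c z d Wz Cz) (hR : Resv Wz W l₁ l₂ h₂ h₁)
    (hk : k ∈ Lb) (hkl : InC K C (c.left L R (F z (wl d l₁ h₁))) k) :
    ∀ x ∈ Wz, ∀ p < K, C k p ∈ c.A (F z x) := by
  have hw := h.win _ (hR.wl_mem (d := d))
  have hkC : k ∉ Cz := by
    intro hkC
    cases hd : d
    · rw [hd] at hkl hw h
      exact absurd ((h.cut k hkC _ hR.wl_mem).1 (5 * wl false l₁ h₁) (by omega) le_rfl |>.1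
        (hkl (5 * wl false l₁ h₁) (by omega)).2) (by simp)
    · rw [hd] at hkl hw h
      exact absurd ((h.cut k hkC _ hR.wl_mem).2 (5 * wl true l₁ h₁ + 5) hw le_rfl |>.1
        (hkl (5 * wl true l₁ h₁ + 5) hw).2) (by simp)
  rcases h.con k hk hkl.left hkC with h1 | h1
  · exact h1
  · exact absurd (hkl 0 (by omega)).2 (h1 _ hR.wl_mem 0 (by omega))

/-- **(T2) Same-row step.**  A family of same-row elements of `T` which sees a cut label and an uncut
label is free on the leaf of the uncut label. -/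
theorem GT.same_step (h : GT E L R Dg F γ K C Lb Qc c W D) (hK : ∀ x ∈ W, 5 * x + 5 < K)
    (ht : t ∈ γ) (hT : ∀ x ∈ W, F t x ∈ c.T) (hD : ∀ x ∈ W, F t x ∈ Dg) {q : Cd α} (hq : q ∈ D)
    (hM : HomE E F γ K C W q.k) (hSi : ∀ x ∈ W, SeeW E C (F t x) q.k x) (hj : j ∈ Lb)
    (hjc : InC K C c j) (hjD : j ∉ cutL D) (hSj : ∀ x ∈ W, SeeW E C (F t x) j x)
    (hL : Hom K C Lb W (fun x => L (F t x))) (hRR : Hom K C Lb W (fun x => R (F t x))) :
    ∃ g, LeafAt E L R Dg F γ K C Lb Qc c W D j g ∧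
      Fr E L R g.A Dg g.X g.T (MbF F γ) univ W (F t) ∧ Hom K C Lb W (fun x => g.A (F t x)) := by
  induction h with
  | leaf c W hS hQ => exact absurd hq (notMem_empty q)
  | node c W z d Wz Cz D₁ D₂ l₁ l₂ h₂ h₁ hS hQ hN hR h₁' h₂' ih₁ ih₂ =>
    have hqc := GT.lb (.node c W z d Wz Cz D₁ D₂ l₁ l₂ h₂ h₁ hS hQ hN hR h₁' h₂') q hq
    rw [mem_cutL_nd] at hjD
    push Not at hjD
    obtain ⟨hj0, hj1, hj2⟩ := hjD
    rcases hN.side0 hR hj hjc hj0 with hjl | hjr
    · -- the label `j` lies in the left child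
      have key : (q.k ∈ Cz ∨ ∀ x ∈ Wz, ∀ p < K, C q.k p ∉ c.A (F z x)) →
          ∃ g, LeafAt E L R Dg F γ K C Lb Qc (c.left L R (F z (wl d l₁ h₁))) W D₁ j g ∧
            Fr E L R g.A Dg g.X g.T (MbF F γ) univ W (F t) ∧
            Hom K C Lb W (fun x => g.A (F t x)) := by
        intro hic
        have hF := hN.frL hR ht hT hD hqc.2.1 hic hM hSi
        obtain ⟨g, hg⟩ := h₁'.leaf_of hj hjl hj1
        refine ⟨g, hg, hg.desc t ht W Subset.rfl hF, hg.hom (fun x hx => (hF.mem x hx).2.1) ?_⟩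
        intro k hk
        obtain ⟨v, hv⟩ := hL k hk
        refine ⟨v, fun x hx p hp => ?_⟩
        have h1 : C k p ∈ (c.left L R (F z (wl d l₁ h₁))).A (F t x) ↔ C k p ∈ L (F t x) :=
          mem_cA_T (hT x hx)
        simp only
        rw [h1]
        exact hv x hx p hp
      have fin : (∃ g, LeafAt E L R Dg F γ K C Lb Qc (c.left L R (F z (wl d l₁ h₁))) W D₁ j g ∧
            Fr E L R g.A Dg g.X g.T (MbF F γ) univ W (F t) ∧
            Hom K C Lb W (fun x => g.A (F t x))) →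
          ∃ g, LeafAt E L R Dg F γ K C Lb Qc c W (ndD F c z d Cz ∪ D₁ ∪ D₂) j g ∧
            Fr E L R g.A Dg g.X g.T (MbF F γ) univ W (F t) ∧
            Hom K C Lb W (fun x => g.A (F t x)) := by
        rintro ⟨g, h1, h2, h3⟩
        exact ⟨g, h1.ofLeft hS hQ hN hR h₂', h2, h3⟩
      apply fin
      rcases hq with (hq | hq) | hq
      · exact key (Or.inl hq.1)
      · have hql := (h₁'.lb q hq).2.1
        by_cases hall : ∀ x ∈ W, F t x ∈ (c.left L R (F z (wl d l₁ h₁))).T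
        · exact ih₁ hK hall hD hq hM hSi hjl hj1 hSj hL hRR
        · exfalso
          push Not at hall
          obtain ⟨x, hx, hxT⟩ := hall
          obtain ⟨p, p', a1, a2, a3, a4, a5⟩ := hSi x hx
          have hKx := hK x hx
          have hex : ExC E Dg (c.left L R (F z (wl d l₁ h₁))).X
              (c.left L R (F z (wl d l₁ h₁))).T (F t x) :=
            ⟨hD x hx, hxT, _, hql p (by omega), _, hql p' (by omega), a5⟩
          obtain ⟨q', hq', h3, -⟩ := h₁'.same_cut hK hex hq ((hSi x hx).toB hx)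
            ((hSj x hx).toB hx) hj hjl
          exact hj1 ⟨q', hq', h3⟩
      · exact key (Or.inr (hN.right_all hR hqc.1 (h₂'.lb q hq).2.1))
    · -- the label `j` lies in the right child
      have key : (q.k ∈ Cz ∨ ∀ x ∈ Wz, ∀ p < K, C q.k p ∈ c.A (F z x)) →
          ∃ g, LeafAt E L R Dg F γ K C Lb Qc (c.right L R (F z (wr d l₁ h₁))) W D₂ j g ∧
            Fr E L R g.A Dg g.X g.T (MbF F γ) univ W (F t) ∧
            Hom K C Lb W (fun x => g.A (F t x)) := by
        intro hic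
        have hF := hN.frR hR ht hT hD hqc.2.1 hic hM hSi
        obtain ⟨g, hg⟩ := h₂'.leaf_of hj hjr hj2
        refine ⟨g, hg, hg.desc t ht W Subset.rfl hF, hg.hom (fun x hx => (hF.mem x hx).2.1) ?_⟩
        intro k hk
        obtain ⟨v, hv⟩ := hRR k hk
        refine ⟨fun n => ¬ v n, fun x hx p hp => ?_⟩
        have h1 : C k p ∈ (c.right L R (F z (wr d l₁ h₁))).A (F t x) ↔ C k p ∉ R (F t x) :=
          mem_cB_T (hT x hx)
        simp only
        rw [h1]
        exact not_congr (hv x hx p hp)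
      have fin : (∃ g, LeafAt E L R Dg F γ K C Lb Qc (c.right L R (F z (wr d l₁ h₁))) W D₂ j g ∧
            Fr E L R g.A Dg g.X g.T (MbF F γ) univ W (F t) ∧
            Hom K C Lb W (fun x => g.A (F t x))) →
          ∃ g, LeafAt E L R Dg F γ K C Lb Qc c W (ndD F c z d Cz ∪ D₁ ∪ D₂) j g ∧
            Fr E L R g.A Dg g.X g.T (MbF F γ) univ W (F t) ∧
            Hom K C Lb W (fun x => g.A (F t x)) := by
        rintro ⟨g, h1, h2, h3⟩
        exact ⟨g, h1.ofRight hS hQ hN hR h₁', h2, h3⟩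
      apply fin
      rcases hq with (hq | hq) | hq
      · exact key (Or.inl hq.1)
      · exact key (Or.inr (hN.left_all hR hqc.1 (h₁'.lb q hq).2.1))
      · have hqr := (h₂'.lb q hq).2.1
        by_cases hall : ∀ x ∈ W, F t x ∈ (c.right L R (F z (wr d l₁ h₁))).T
        · exact ih₂ hK hall hD hq hM hSi hjr hj2 hSj hL hRR
        · exfalso
          push Not at hall
          obtain ⟨x, hx, hxT⟩ := hall
          obtain ⟨p, p', a1, a2, a3, a4, a5⟩ := hSi x hx
          have hKx := hK x hx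
          have hex : ExC E Dg (c.right L R (F z (wr d l₁ h₁))).X
              (c.right L R (F z (wr d l₁ h₁))).T (F t x) :=
            ⟨hD x hx, hxT, _, hqr p (by omega), _, hqr p' (by omega), a5⟩
          obtain ⟨q', hq', h3, -⟩ := h₂'.same_cut hK hex hq ((hSi x hx).toB hx)
            ((hSj x hx).toB hx) hj hjr
          exact hj2 ⟨q', hq', h3⟩

/-! ### T5: the places of the references -/

/-- the places of the references of a tree lie between the two sides of the cell -/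
theorem GT.bound (h : GT E L R Dg F γ K C Lb Qc c W D) :
    ∀ q ∈ D, ∀ x ∈ W, c.Lf ⊆ q.G x ∧ q.G x ⊆ c.Lf ∪ c.X := by
  induction h with
  | leaf c W hS hQ => exact fun q hq => absurd hq (notMem_empty q)
  | node c W z d Wz Cz D₁ D₂ l₁ l₂ h₂ h₁ hS hQ hN hR _ _ ih₁ ih₂ =>
    rintro q ((hq | hq) | hq) x hx
    · rw [hq.2.2.2]
      exact ⟨subset_union_left, union_subset_union_right _ fun a ha => ha.1⟩
    · obtain ⟨h1, h2⟩ := ih₁ q hq x hx
      exact ⟨h1, h2.trans (union_subset_union_right _ left_X)⟩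
    · obtain ⟨h1, h2⟩ := ih₂ q hq x hx
      refine ⟨subset_union_left.trans h1, h2.trans ?_⟩
      rintro a ((ha | ha) | ha)
      · exact Or.inl ha
      · exact Or.inr ha.1
      · exact Or.inr ha.1

/-- the place of a member of the reference of the node -/
lemma Node.gp_mono (hN : Node E L R Dg F γ K C Lb c z d Wz Cz) (hx : x ∈ Wz) (hy : y ∈ Wz)
    (hxy : Bf d x y) : c.gp (F z x) ⊆ c.gp (F z y) :=
  union_subset_union_right _ fun a ha => ⟨ha.1, hN.inc0 hx hy hxy a ha.1 ha.2⟩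

/-- the places of a reference are nested -/
theorem GT.mono_G (h : GT E L R Dg F γ K C Lb Qc c W D) : ∀ q ∈ D, ∀ x ∈ W, ∀ y ∈ W, x < y →
    (q.d = true → q.G x ⊆ q.G y) ∧ (q.d = false → q.G y ⊆ q.G x) := by
  induction h with
  | leaf c W hS hQ => exact fun q hq => absurd hq (notMem_empty q)
  | node c W z d Wz Cz D₁ D₂ l₁ l₂ h₂ h₁ hS hQ hN hR _ _ ih₁ ih₂ =>
    rintro q ((hq | hq) | hq) x hx y hy hxy
    · rw [hq.2.2.2, hq.2.2.1]
      exact ⟨fun hd => hN.gp_mono (hR.sub hx) (hR.sub hy) (Or.inl ⟨hd, hxy⟩),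
        fun hd => hN.gp_mono (hR.sub hy) (hR.sub hx) (Or.inr ⟨hd, hxy⟩)⟩
    · exact ih₁ q hq x hx y hy hxy
    · exact ih₂ q hq x hx y hy hxy

/-- the references cut their labels: global form -/
theorem GT.side_G (h : GT E L R Dg F γ K C Lb Qc c W D) (hdj : Disjoint c.Lf c.X) :
    ∀ q ∈ D, ∀ x ∈ W, SideW K C q.d (q.G x) q.k x := by
  induction h with
  | leaf c W hS hQ => exact fun q hq => absurd hq (notMem_empty q)
  | node c W z d Wz Cz D₁ D₂ l₁ l₂ h₂ h₁ hS hQ hN hR _ _ ih₁ ih₂ =>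
    rintro q ((hq | hq) | hq) x hx
    · have hk := (hN.lb q.k hq.1).2
      have hc := hN.cut q.k hq.1 x (hR.sub hx)
      rw [hq.2.2.2, hq.2.2.1]
      have key : ∀ p < K, (C q.k p ∈ c.gp (F z x) ↔ C q.k p ∈ c.A (F z x)) := by
        intro p hp
        constructor
        · rintro (h1 | h1)
          · exact absurd (hk p hp) (disjoint_left.1 hdj h1)
          · exact h1.2
        · exact fun h1 => Or.inr ⟨hk p hp, h1⟩
      exact ⟨fun p hp h1 => (key p hp).trans (hc.1 p hp h1),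
        fun p hp h1 => (key p hp).trans (hc.2 p hp h1)⟩
    · exact ih₁ (left_disj hdj) q hq x hx
    · exact ih₂ (right_disj hdj) q hq x hx

/-- **(T5)** the references of two cut labels are equal, or nested for all windows -/
theorem GT.ord (h : GT E L R Dg F γ K C Lb Qc c W D) : ∀ q ∈ D, ∀ q' ∈ D,
    (q.z = q'.z ∧ q.d = q'.d ∧ q.G = q'.G) ∨ (∀ x ∈ W, ∀ y ∈ W, q.G x ⊆ q'.G y) ∨
      ∀ x ∈ W, ∀ y ∈ W, q'.G y ⊆ q.G x := by
  induction h with
  | leaf c W hS hQ => exact fun q hq => absurd hq (notMem_empty q)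
  | node c W z d Wz Cz D₁ D₂ l₁ l₂ h₂ h₁ hS hQ hN hR h₁' h₂' ih₁ ih₂ =>
    -- node and left child
    have nl : ∀ q ∈ ndD F c z d Cz, ∀ q' ∈ D₁, ∀ x ∈ W, ∀ y ∈ W, q'.G y ⊆ q.G x := by
      intro q hq q' hq' x hx y hy
      rw [hq.2.2.2]
      refine (h₁'.bound q' hq' y hy).2.trans ?_
      rintro a (ha | ha)
      · exact Or.inl ha
      · exact Or.inr ⟨ha.1, hN.inc0 hR.wl_mem (hR.sub hx) (hR.bl hx) a ha.1 ha.2⟩
    -- node and right child
    have nr : ∀ q ∈ ndD F c z d Cz, ∀ q' ∈ D₂, ∀ x ∈ W, ∀ y ∈ W, q.G x ⊆ q'.G y := by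
      intro q hq q' hq' x hx y hy
      rw [hq.2.2.2]
      refine Subset.trans ?_ (h₂'.bound q' hq' y hy).1
      rintro a (ha | ha)
      · exact Or.inl ha
      · exact Or.inr ⟨ha.1, hN.inc0 (hR.sub hx) hR.wr_mem (hR.br hx) a ha.1 ha.2⟩
    -- left child and right child
    have lr : ∀ q ∈ D₁, ∀ q' ∈ D₂, ∀ x ∈ W, ∀ y ∈ W, q.G x ⊆ q'.G y := by
      intro q hq q' hq' x hx y hy
      refine (h₁'.bound q hq x hx).2.trans (Subset.trans ?_ (h₂'.bound q' hq' y hy).1)
      rintro a (ha | ha)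
      · exact Or.inl ha
      · exact Or.inr ⟨ha.1, hN.inc0 hR.wl_mem hR.wr_mem hR.blr a ha.1 ha.2⟩
    rintro q ((hq | hq) | hq) q' ((hq' | hq') | hq')
    · exact Or.inl ⟨hq.2.1.trans hq'.2.1.symm, hq.2.2.1.trans hq'.2.2.1.symm,
        hq.2.2.2.trans hq'.2.2.2.symm⟩
    · exact Or.inr (Or.inr fun x hx y hy => nl q hq q' hq' x hx y hy)
    · exact Or.inr (Or.inl fun x hx y hy => nr q hq q' hq' x hx y hy)
    · exact Or.inr (Or.inl fun x hx y hy => nl q' hq' q hq y hy x hx)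
    · exact ih₁ q hq q' hq'
    · exact Or.inr (Or.inl fun x hx y hy => lr q hq q' hq' x hx y hy)
    · exact Or.inr (Or.inr fun x hx y hy => nr q' hq' q hq y hy x hx)
    · exact Or.inr (Or.inr fun x hx y hy => lr q' hq' q hq y hy x hx)
    · exact ih₂ q hq q' hq'

/-- **The order of the references, all rows**: the data of a label of the row `ρ` belong to a tree of the
row `ρ`. -/
theorem RefOrd.of_trees {β : Type*} {Rw : ℕ → β} (hW : ∀ x ∈ W, 5 * x + 5 < K)
    {c : β → Cell α} {Er : β → α → α → α → Prop} {Lr Rr : β → α → Set α} {Dr : β → Set α}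
    {Lbr : β → Set ℕ} {Qr : β → Cell α → Prop} {Dd : β → Set (Cd α)}
    (h : ∀ ρ, GT (Er ρ) (Lr ρ) (Rr ρ) (Dr ρ) F γ K C (Lbr ρ) (Qr ρ) (c ρ) W (Dd ρ))
    (hdj : ∀ ρ, Disjoint (c ρ).Lf (c ρ).X) (hD : ∀ q ∈ D, q ∈ Dd (Rw q.k)) :
    RefOrd K C Rw W D where
  win := hW
  side := fun q hq => (h _).side_G (hdj _) q (hD q hq)
  mono := fun q hq => (h _).mono_G q (hD q hq)
  ord := by
    intro q hq q' hq' hr
    have h1 := hD q' hq'
    rw [← hr] at h1
    exact (h _).ord q (hD q hq) q' h1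

end

end TST
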