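import Pool.Agent.TST.SplitDef
import Pool.Agent.TST.Cross2

/-!
# Row split (CLAIM A of T-star, helper33)
-/

open Set
open scoped Matroid

namespace TST

variable {α : Type*} {N : Matroid α} {X P T T' W : Set α} {p q z t x y c d : α}

lemma mem_PK : x ∈ PK X p q ↔ x = p ∨ x = q ∨ x ∈ X := Iff.rfl

lemma PSys.tK (h : PSys N X p q T z) (ht : t ∈ T) : t ∉ PK X p q := disjoint_left.1 h.TK ht

/-- (EXIT2) -/
lemma PSys.exit2 (h : PSys N X p q T z) (hx : x ∈ PK X p q) :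
    Eqv N (PK X p q) z p x ∨ Eqv N (PK X p q) z q x := by
  by_contra hcon
  push Not at hcon
  have h1 := cls_circuit h.cir h.zcl h.zK hx
  refine h.pp _ ?_ h1 (mem_insert _ _) (Or.inr ⟨Or.inl rfl, fun h2 => hcon.1 h2.2.symm⟩)
    (Or.inr ⟨Or.inr (Or.inl rfl), fun h2 => hcon.2 h2.2.symm⟩)
  rintro w (hw | hw)
  · exact Or.inr hw
  · exact Or.inl (Or.inl hw.1)

/-- exchange of the ends -/
lemma PSys.swap (h : PSys N X p q T z) : PSys N X q p T z := by
  have e : PK X q p = PK X p q := insert_comm _ _ _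
  refine ⟨?_, h.qX, h.pX, h.pq.symm, ?_, ?_, ?_, ?_, h.zT, ?_, ?_⟩
  · rw [e]; exact h.cir
  · rw [e]; exact h.Tcl
  · rw [e]; exact h.TK
  · rw [e]; exact h.zcl
  · rw [e]; exact h.zK
  · rw [e]; exact fun t ht h1 => h.unb t ht h1.symm
  · rw [e]; exact fun C h1 h2 h3 h4 h5 => h.pp C h1 h2 h3 h5 h4

/-- the old exits of a half -/
lemma PSys.old (h : PSys N X p q T z) (hP : P ⊆ X) (hT : T' ⊆ T) :
    PSys (N ／ (X \ P)) P p q T' z ∧ ∀ t, t ∉ X \ P → ∀ x ∈ PK P p q, ∀ y ∈ PK P p q,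
      (Eqv (N ／ (X \ P)) (PK P p q) t x y ↔ Eqv N (PK X p q) t x y) := by
  have e : PK X p q = PK P p q ∪ (X \ P) := by
    ext w
    simp only [mem_union, mem_insert_iff, mem_sdiff]
    constructor
    · rintro (h1 | h1 | h1)
      · exact Or.inl (Or.inl h1)
      · exact Or.inl (Or.inr (Or.inl h1))
      · by_cases h2 : w ∈ P
        · exact Or.inl (Or.inr (Or.inr h2))
        · exact Or.inr ⟨h1, h2⟩
    · rintro ((h1 | h1 | h1) | h1)
      · exact Or.inl h1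
      · exact Or.inr (Or.inl h1)
      · exact Or.inr (Or.inr (hP h1))
      · exact Or.inr (Or.inr h1.1)
  have hd : Disjoint (PK P p q) (X \ P) := by
    rw [disjoint_left]
    rintro w (h1 | h1 | h1) h2
    · exact h.pX (h1 ▸ h2.1)
    · exact h.qX (h1 ▸ h2.1)
    · exact h2.2 h1
  have hrel : ∀ t, t ∉ X \ P → ∀ x ∈ PK P p q, ∀ y ∈ PK P p q,
      (Eqv (N ／ (X \ P)) (PK P p q) t x y ↔ Eqv N (PK X p q) t x y) :=
    fun t ht x hx y hy => con_eqv e hd hx hy ht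
  have hsub : PK P p q ⊆ PK X p q := by rw [e]; exact subset_union_left
  have hD : X \ P ⊆ PK X p q := by rw [e]; exact subset_union_right
  have hnt : ∀ t ∈ T', t ∉ X \ P := fun t ht h1 => h.tK (hT ht) (hD h1)
  have hnz : z ∉ X \ P := fun h1 => h.zK (hD h1)
  refine ⟨⟨?_, fun h1 => h.pX (hP h1), fun h1 => h.qX (hP h1), h.pq, ?_, ?_, ?_,
    fun h1 => h.zK (hsub h1), fun h1 => h.zT (hT h1), ?_, ?_⟩, hrel⟩
  · have h1 := h.cir.contract_isCircuit (C := X \ P) ⟨hD, fun h2 => h.pX (h2 (Or.inl rfl)).1⟩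
    have h2 : PK X p q \ (X \ P) = PK P p q := by
      rw [e]
      exact Disjoint.sup_sdiff_cancel_right hd
    rwa [h2] at h1
  · exact fun t ht => con_spans e.subset (h.Tcl (hT ht)) (hnt t ht)
  · exact h.TK.mono hT hsub
  · exact con_spans e.subset h.zcl hnz
  · intro t ht h1
    refine h.unb t (hT ht) ?_
    exact (hrel t (hnt t ht) p (Or.inl rfl) q (Or.inr (Or.inl rfl))).1 h1
  · intro C hC hcir hz hp hq
    obtain ⟨C', h1, h2, h3⟩ := hcir.exists_subset_isCircuit_of_contract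
    refine h.pp C' ?_ h1 (h2 hz) (h2 hp) (h2 hq)
    intro w hw
    rcases h3 hw with h4 | h4
    · rcases hC h4 with (h5 | h5) | h5
      · exact Or.inl (Or.inl (hsub h5))
      · exact Or.inl (Or.inr (hT h5))
      · exact Or.inr h5
    · exact Or.inl (Or.inl (hD h4))

/-- **the new exits of the left half**: `d` is a link, `c` on the right side is not in the class of
`q` for `d`, but for all elements of `T'`. -/
lemma PSys.new (h : PSys N X p q T z) {Q : Set α} (hPQ : X = P ∪ Q) (hdis : Disjoint P Q)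
    (hP : ∀ x ∈ P, Eqv N (PK X p q) z p x) (hQ : ∀ x ∈ Q, Eqv N (PK X p q) z q x)
    (hpq : ¬ Eqv N (PK X p q) z p q) (hT : T' ⊆ T) (hc : c ∈ Q)
    (hTc : ∀ t ∈ T', Eqv N (PK X p q) t q c) (hd : d ∈ T) (hdT : d ∉ T')
    (hdc : ¬ Eqv N (PK X p q) d q c) :
    PSys (N ／ (insert q Q \ {c})) P p c T' d ∧ ∀ t ∈ T, ∀ x ∈ PK P p c, ∀ y ∈ PK P p c,
      (Eqv (N ／ (insert q Q \ {c})) (PK P p c) t x y ↔ Eqv N (PK X p q) t x y) := by
  have hK := h.cir
  have hpK : p ∈ PK X p q := Or.inl rfl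
  have hqK : q ∈ PK X p q := Or.inr (Or.inl rfl)
  have hQX : Q ⊆ X := by rw [hPQ]; exact subset_union_right
  have hPX : P ⊆ X := by rw [hPQ]; exact subset_union_left
  have hcX : c ∈ X := hQX hc
  have hcK : c ∈ PK X p q := Or.inr (Or.inr hcX)
  have hcq : c ≠ q := fun h1 => h.qX (h1 ▸ hcX)
  have hcp : c ≠ p := fun h1 => h.pX (h1 ▸ hcX)
  have hcP : c ∉ P := fun h1 => disjoint_left.1 hdis h1 hc
  have hFo : insert q Q ⊆ PK X p q :=
    insert_subset hqK (fun x hx => Or.inr (Or.inr (hQX hx)))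
  have hpF : p ∉ insert q Q := by
    rintro (h1 | h1)
    · exact h.pq h1
    · exact h.pX (hQX h1)
  have e1 : PK X p q \ insert q Q = insert p P := by
    ext w
    simp only [mem_sdiff, mem_insert_iff, not_or]
    constructor
    · rintro ⟨h1 | h1 | h1, h2, h3⟩
      · exact Or.inl h1
      · exact absurd h1 h2
      · rw [hPQ] at h1
        exact Or.inr (h1.resolve_right h3)
    · rintro (h1 | h1)
      · exact ⟨Or.inl h1, fun h2 => h.pq (h1.symm.trans h2), fun h2 => h.pX (h1 ▸ hQX h2)⟩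
      · exact ⟨Or.inr (Or.inr (hPX h1)), fun h2 => h.qX (h2 ▸ hPX h1),
          fun h2 => disjoint_left.1 hdis h1 h2⟩
  have e2 : insert c (PK X p q \ insert q Q) = PK P p c := by
    rw [e1]
    exact insert_comm _ _ _
  have hEq : ∀ x ∈ insert q Q, Eqv N (PK X p q) z q x := by
    rintro x (h1 | h1)
    · exact Or.inl h1.symm
    · exact hQ x h1
  have e3 : PK X p q \ Cls N (PK X p q) z p = insert q Q := by
    ext w
    constructor
    · rintro ⟨h1, h2⟩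
      by_contra h3
      have h4 : w ∈ insert p P := by rw [← e1]; exact ⟨h1, h3⟩
      rcases h4 with h4 | h4
      · exact h2 ⟨h1, Or.inl h4.symm⟩
      · exact h2 ⟨h1, hP w h4⟩
    · intro h1
      refine ⟨hFo h1, fun h2 => hpq (h2.2.trans hK (hFo h1) (hEq w h1).symm)⟩
  have hcut : CutOff N (PK X p q) (insert q Q) z := by
    refine ⟨hFo, h.zK, ?_, ?_⟩
    · rw [← e3]
      exact cls_circuit hK h.zcl h.zK hpK
    · intro a ha b hb hab
      exact (((hEq a ha).symm.trans hK hqK (hEq b hb)).resolve_left hab)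
  have hD : insert q Q \ {c} ⊆ PK X p q := fun w hw => hFo hw.1
  have eK : PK X p q = PK P p c ∪ (insert q Q \ {c}) := by
    rw [← e2]
    ext w
    simp only [mem_union, mem_insert_iff, mem_sdiff, mem_singleton_iff, not_or]
    constructor
    · intro h1
      by_cases h2 : w = q ∨ w ∈ Q
      · by_cases h3 : w = c
        · exact Or.inl (Or.inl h3)
        · exact Or.inr ⟨h2, h3⟩
      · exact Or.inl (Or.inr ⟨h1, fun h3 => h2 (Or.inl h3), fun h3 => h2 (Or.inr h3)⟩)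
    · rintro ((h1 | h1) | h1)
      · rw [h1]
        exact hcK
      · exact h1.1
      · exact hFo h1.1
  have hdK : Disjoint (PK P p c) (insert q Q \ {c}) := by
    rw [← e2, disjoint_left]
    rintro w (h1 | h1) h2
    · exact h2.2 h1
    · exact h1.2 h2.1
  have hsub : PK P p c ⊆ PK X p q := by rw [eK]; exact subset_union_left
  have hrel : ∀ t ∈ T, ∀ x ∈ PK P p c, ∀ y ∈ PK P p c,
      (Eqv (N ／ (insert q Q \ {c})) (PK P p c) t x y ↔ Eqv N (PK X p q) t x y) :=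
    fun t ht x hx y hy => con_eqv eK hdK hx hy (fun h1 => h.tK ht (hD h1))
  have hcF : c ∈ insert q Q := Or.inr hc
  refine ⟨⟨?_, fun h1 => h.pX (hPX h1), hcP, hcp.symm, ?_, ?_, ?_, ?_, hdT, ?_, ?_⟩, hrel⟩
  · rw [← e2]
    exact cir_sub hK hFo hcF
  · exact fun t ht => con_spans eK.subset (h.Tcl (hT ht)) (fun h1 => h.tK (hT ht) (hD h1))
  · exact h.TK.mono hT hsub
  · exact con_spans eK.subset (h.Tcl hd) (fun h1 => h.tK hd (hD h1))
  · exact fun h1 => h.tK hd (hsub h1)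
  · intro t ht h1
    refine h.unb t (hT ht) ?_
    have h2 := (hrel t (hT ht) p (Or.inl rfl) c (Or.inr (Or.inl rfl))).1 h1
    exact h2.trans hK hcK (hTc t ht).symm
  · have h1 := sub_path (T' := T') (d := d) h.pp hcut hcF (Or.inl rfl) hcq hpF hT
      (fun t ht => (hTc t ht).symm.resolve_left hcq) h.zT hd (h.tK hd)
      (fun h2 => hdc (Eqv.symm (Or.inr h2))) h.cir.subset_ground
    rw [e2] at h1
    exact h1

/-- an element which sees something on both sides of the exit -/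
lemma PSys.crossU (h : PSys N X p q T z) (ht : t ∈ T) (hx : x ∈ PK X p q) (hy : y ∈ PK X p q)
    (x0 : Eqv N (PK X p q) z p x) (x1 : ¬ Eqv N (PK X p q) t p x) (y0 : ¬ Eqv N (PK X p q) z p y)
    (y1 : ¬ Eqv N (PK X p q) t q y) : ¬ Eqv N (PK X p q) z p q ∧ CrossU N (PK X p q) z p q t := by
  have hK := h.cir
  have hpK : p ∈ PK X p q := Or.inl rfl
  have hqK : q ∈ PK X p q := Or.inr (Or.inl rfl)
  have hpq : ¬ Eqv N (PK X p q) z p q := by
    intro h8
    rcases h.exit2 hy with h9 | h9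
    · exact y0 h9
    · exact y0 (h8.trans hK hqK h9)
  refine ⟨hpq, crossU_of hK (h.tK ht) h.zK (fun h8 => h.zT (h8 ▸ ht)) (h.Tcl ht) h.zcl hpK hqK
    (fun w hw => (h.exit2 hw).imp (fun h => h.symm) (fun h => h.symm)) hpq (by
      intro D h1 h2 h3 h4 h5
      refine h.pp D (h1.trans ?_) h2 h3 h4 h5
      rintro w (hw | hw | hw)
      · exact Or.inl (Or.inl hw)
      · exact Or.inr hw
      · exact Or.inl (Or.inr (hw ▸ ht))) hx hy x0.symm (fun h8 => x1 h8.symm)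
    ((h.exit2 hy).resolve_left y0).symm (fun h8 => y1 h8.symm) (h.unb t ht)⟩

section wit

variable {E : α → α → α → Prop} {L R A A' : α → Set α}

/-- old exits of a half -/
lemma PWit.old (h : PWit E L R A X T z) (hP : P ⊆ X) (hT : T' ⊆ T)
    (hA : ∀ x ∈ P, (x ∈ A' z ↔ x ∈ A z)) : PWit E L R A' P T' z := by
  obtain ⟨N, p, q, hS, h1, h2, h3, h4⟩ := h
  obtain ⟨hS', hr⟩ := hS.old hP hT
  have hn : ∀ t ∈ insert z T, t ∉ X \ P := by
    rintro t (ht | ht) h5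
    · exact hS.zK (Or.inr (Or.inr (ht ▸ h5.1)))
    · exact hS.tK ht (Or.inr (Or.inr h5.1))
  refine ⟨_, p, q, hS', ?_, ?_, ?_, ?_⟩
  · intro t ht x hx y hy
    have ht' := insert_subset_insert hT ht
    rw [hr t (hn t ht') x (Or.inr (Or.inr hx)) y (Or.inr (Or.inr hy))]
    exact h1 t ht' x (hP hx) y (hP hy)
  · intro t ht x hx
    rw [hr t (hn t (Or.inr (hT ht))) p (Or.inl rfl) x (Or.inr (Or.inr hx))]
    exact h2 t (hT ht) x (hP hx)
  · intro t ht x hx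
    rw [hr t (hn t (Or.inr (hT ht))) q (Or.inr (Or.inl rfl)) x (Or.inr (Or.inr hx))]
    exact h3 t (hT ht) x (hP hx)
  · intro x hx
    rw [hr z (hn z (Or.inl rfl)) p (Or.inl rfl) x (Or.inr (Or.inr hx)), hA x hx]
    exact h4 x (hP hx)

/-- new exits of the left half -/
lemma PWit.newL (h : PWit E L R A X T z) (hne : ∃ y ∈ X, y ∉ A z) (hd : d ∈ T) (hc : c ∈ X)
    (hcA : c ∉ A z) (hcd : c ∉ R d) (hA : ∀ x ∈ X, x ∈ A z → (x ∈ A' d ↔ x ∈ L d)) :
    PWit E L R A' {x ∈ X | x ∈ A z} {t ∈ T | ∀ x ∈ X, x ∉ A z → x ∈ R t} d := by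
  obtain ⟨N, p, q, hS, h1, h2, h3, h4⟩ := h
  have hK := hS.cir
  have hpK : p ∈ PK X p q := Or.inl rfl
  have hqK : q ∈ PK X p q := Or.inr (Or.inl rfl)
  have hXK : ∀ x ∈ X, x ∈ PK X p q := fun x hx => Or.inr (Or.inr hx)
  have hpq : ¬ Eqv N (PK X p q) z p q := by
    intro h5
    obtain ⟨y, hy, hyA⟩ := hne
    rcases hS.exit2 (hXK y hy) with h6 | h6
    · exact hyA ((h4 y hy).1 h6)
    · exact hyA ((h4 y hy).1 (h5.trans hK hqK h6))
  have hQ : ∀ x ∈ {x ∈ X | x ∉ A z}, Eqv N (PK X p q) z q x := by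
    rintro x ⟨hx, hxA⟩
    exact (hS.exit2 (hXK x hx)).resolve_left fun h5 => hxA ((h4 x hx).1 h5)
  obtain ⟨hS', hr⟩ := hS.new (P := {x ∈ X | x ∈ A z}) (Q := {x ∈ X | x ∉ A z})
    (T' := {t ∈ T | ∀ x ∈ X, x ∉ A z → x ∈ R t}) (c := c) (d := d) (by
      ext x
      simp only [mem_union, mem_ofPred_eq]
      tauto) (by
      rw [disjoint_left]
      exact fun x h5 h6 => h6.2 h5.2) (fun x hx => (h4 x hx.1).2 hx.2) hQ hpq (fun t ht => ht.1)
    ⟨hc, hcA⟩ (fun t ht => (h3 t ht.1 c hc).2 (ht.2 c hc hcA)) hd (fun h5 => hcd (h5.2 c hc hcA))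
    (fun h5 => hcd ((h3 d hd c hc).1 h5))
  refine ⟨_, p, c, hS', ?_, ?_, ?_, ?_⟩
  · intro t ht x hx y hy
    have htT : t ∈ T := by
      rcases ht with rfl | ht
      exacts [hd, ht.1]
    rw [hr t htT x (Or.inr (Or.inr hx)) y (Or.inr (Or.inr hy))]
    exact h1 t (Or.inr htT) x hx.1 y hy.1
  · intro t ht x hx
    rw [hr t ht.1 p (Or.inl rfl) x (Or.inr (Or.inr hx))]
    exact h2 t ht.1 x hx.1
  · intro t ht x hx
    rw [hr t ht.1 c (Or.inr (Or.inl rfl)) x (Or.inr (Or.inr hx)), ← h3 t ht.1 x hx.1]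
    have h5 := (h3 t ht.1 c hc).2 (ht.2 c hc hcA)
    exact ⟨fun h6 => h5.trans hK (hXK c hc) h6, fun h6 => h5.symm.trans hK hqK h6⟩
  · intro x hx
    rw [hr d hd p (Or.inl rfl) x (Or.inr (Or.inr hx)), hA x hx.1 hx.2]
    exact h2 d hd x hx.1

/-- new exits of the right half -/
lemma PWit.newR (h : PWit E L R A X T z) (hne : ∃ y ∈ X, y ∉ A z) (hd : d ∈ T) (hc : c ∈ X)
    (hcA : c ∈ A z) (hcd : c ∉ L d) (hcR : c ∉ R d)
    (hA : ∀ x ∈ X, x ∉ A z → (x ∈ A' d ↔ x ∉ R d)) :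
    PWit E L R A' {x ∈ X | x ∉ A z} {t ∈ T | ∀ x ∈ X, x ∈ A z → x ∈ L t} d := by
  obtain ⟨N, p, q, hS, h1, h2, h3, h4⟩ := h
  have hK := hS.cir
  have hpK : p ∈ PK X p q := Or.inl rfl
  have hqK : q ∈ PK X p q := Or.inr (Or.inl rfl)
  have hXK : ∀ x ∈ X, x ∈ PK X p q := fun x hx => Or.inr (Or.inr hx)
  have hpq : ¬ Eqv N (PK X p q) z p q := by
    intro h5
    obtain ⟨y, hy, hyA⟩ := hne
    rcases hS.exit2 (hXK y hy) with h6 | h6
    · exact hyA ((h4 y hy).1 h6)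
    · exact hyA ((h4 y hy).1 (h5.trans hK hqK h6))
  have hQ : ∀ x ∈ {x ∈ X | x ∉ A z}, Eqv N (PK X p q) z q x := by
    rintro x ⟨hx, hxA⟩
    exact (hS.exit2 (hXK x hx)).resolve_left fun h5 => hxA ((h4 x hx).1 h5)
  have e : PK X q p = PK X p q := insert_comm _ _ _
  obtain ⟨hS', hr⟩ := hS.swap.new (P := {x ∈ X | x ∉ A z}) (Q := {x ∈ X | x ∈ A z})
    (T' := {t ∈ T | ∀ x ∈ X, x ∈ A z → x ∈ L t}) (c := c) (d := d) (by
      ext x
      simp only [mem_union, mem_ofPred_eq]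
      tauto) (by
      rw [disjoint_left]
      exact fun x h5 h6 => h5.2 h6.2) (by rw [e]; exact hQ)
    (by rw [e]; exact fun x hx => (h4 x hx.1).2 hx.2) (by rw [e]; exact fun h5 => hpq h5.symm)
    (fun t ht => ht.1) ⟨hc, hcA⟩ (by rw [e]; exact fun t ht => (h2 t ht.1 c hc).2 (ht.2 c hc hcA))
    hd (fun h5 => hcd (h5.2 c hc hcA)) (by rw [e]; exact fun h5 => hcd ((h2 d hd c hc).1 h5))
  rw [e] at hr
  have hS2 := hS'.swap
  have e' : PK {x ∈ X | x ∉ A z} q c = PK {x ∈ X | x ∉ A z} c q := insert_comm _ _ _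
  rw [e'] at hr
  refine ⟨_, c, q, hS2, ?_, ?_, ?_, ?_⟩
  · intro t ht x hx y hy
    have htT : t ∈ T := by
      rcases ht with rfl | ht
      exacts [hd, ht.1]
    rw [hr t htT x (Or.inr (Or.inr hx)) y (Or.inr (Or.inr hy))]
    exact h1 t (Or.inr htT) x hx.1 y hy.1
  · intro t ht x hx
    rw [hr t ht.1 c (Or.inl rfl) x (Or.inr (Or.inr hx)), ← h2 t ht.1 x hx.1]
    have h5 := (h2 t ht.1 c hc).2 (ht.2 c hc hcA)
    exact ⟨fun h6 => h5.trans hK (hXK c hc) h6, fun h6 => h5.symm.trans hK hpK h6⟩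
  · intro t ht x hx
    rw [hr t ht.1 q (Or.inr (Or.inl rfl)) x (Or.inr (Or.inr hx))]
    exact h3 t ht.1 x hx.1
  · intro x hx
    rw [hA x hx.1 hx.2]
    have hcq : ¬ Eqv N (PK X p q) d c q := fun h5 => hcR ((h3 d hd c hc).1 h5.symm)
    constructor
    · intro h5 h6
      rw [hr d hd c (Or.inl rfl) x (Or.inr (Or.inr hx))] at h5
      exact hcq (h5.trans hK (hXK x hx.1) ((h3 d hd x hx.1).2 h6).symm)
    · intro h5
      refine (hS2.exit2 (x := x) (Or.inr (Or.inr hx))).resolve_right fun h6 => h5 ?_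
      rw [hr d hd q (Or.inr (Or.inl rfl)) x (Or.inr (Or.inr hx))] at h6
      exact (h3 d hd x hx.1).1 h6

/-- the classes of the ends are disjoint -/
lemma PWit.dis (h : PWit E L R A X T z) (ht : t ∈ T) (hx : x ∈ X) (h1 : x ∈ L t) : x ∉ R t := by
  obtain ⟨N, p, q, hS, -, h3, h4, -⟩ := h
  intro h5
  exact hS.unb t ht (((h3 t ht x hx).2 h1).trans hS.cir (Or.inr (Or.inr hx))
    ((h4 t ht x hx).2 h5).symm)

/-- three classes -/
lemma PWit.cls (h : PWit E L R A X T z) (ht : t ∈ T)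
    (h3 : ∀ x ∈ X, ∀ y ∈ X, x ∉ L t → x ∉ R t → y ∉ L t → y ∉ R t → E t x y) (hx : x ∈ X)
    (hy : y ∈ X) : E t x y ↔ (x ∈ L t ↔ y ∈ L t) ∧ (x ∈ R t ↔ y ∈ R t) := by
  obtain ⟨N, p, q, hS, h4, h5, h6, -⟩ := h
  have hK := hS.cir
  have hpK : p ∈ PK X p q := Or.inl rfl
  have hqK : q ∈ PK X p q := Or.inr (Or.inl rfl)
  have hXK : ∀ x ∈ X, x ∈ PK X p q := fun x hx => Or.inr (Or.inr hx)
  rw [← h4 t (Or.inr ht) x hx y hy, ← h5 t ht x hx, ← h5 t ht y hy, ← h6 t ht x hx, ← h6 t ht y hy]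
  constructor
  · intro h7
    exact ⟨⟨fun h8 => h8.trans hK (hXK x hx) h7, fun h8 => h8.trans hK (hXK y hy) h7.symm⟩,
      ⟨fun h8 => h8.trans hK (hXK x hx) h7, fun h8 => h8.trans hK (hXK y hy) h7.symm⟩⟩
  · rintro ⟨h7, h8⟩
    by_cases h9 : Eqv N (PK X p q) t p x
    · exact h9.symm.trans hK hpK (h7.1 h9)
    · by_cases h10 : Eqv N (PK X p q) t q x
      · exact h10.symm.trans hK hqK (h8.1 h10)
      · rw [h4 t (Or.inr ht) x hx y hy]
        refine h3 x hx y hy ?_ ?_ ?_ ?_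
        · rw [← h5 t ht x hx]; exact h9
        · rw [← h6 t ht x hx]; exact h10
        · rw [← h5 t ht y hy]; exact fun h11 => h9 (h7.2 h11)
        · rw [← h6 t ht y hy]; exact fun h11 => h10 (h8.2 h11)

/-- an exit has at most one place -/
lemma PWit.one (h : PWit E L R A X T z) (hx : x ∈ X) (hy : y ∈ X) :
    E z x y ↔ (x ∈ A z ↔ y ∈ A z) := by
  obtain ⟨N, p, q, hS, h4, -, -, h5⟩ := h
  have hK := hS.cir
  have hpK : p ∈ PK X p q := Or.inl rfl
  have hqK : q ∈ PK X p q := Or.inr (Or.inl rfl)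
  have hXK : ∀ x ∈ X, x ∈ PK X p q := fun x hx => Or.inr (Or.inr hx)
  rw [← h4 z (Or.inl rfl) x hx y hy, ← h5 x hx, ← h5 y hy]
  constructor
  · intro h7
    exact ⟨fun h8 => h8.trans hK (hXK x hx) h7, fun h8 => h8.trans hK (hXK y hy) h7.symm⟩
  · intro h7
    rcases hS.exit2 (hXK x hx) with h8 | h8
    · exact h8.symm.trans hK hpK (h7.1 h8)
    · rcases hS.exit2 (hXK y hy) with h9 | h9
      · exact (h7.2 h9).symm.trans hK hpK h9
      · exact h8.symm.trans hK hqK h9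

/-- crossing elements in the witness of `z` -/
lemma PWit.crs (h : PWit E L R A X T z) (ht : t ∈ T) (hx : x ∈ X) (hy : y ∈ X) (x0 : x ∈ A z)
    (x1 : x ∉ L t) (y0 : y ∉ A z) (y1 : y ∉ R t) :
    (∀ x ∈ X, x ∈ L t → x ∈ A z) ∧ (∀ x ∈ X, x ∈ R t → x ∉ A z) ∧
      ∀ x ∈ X, ∀ y ∈ X, x ∉ L t → x ∉ R t → y ∉ L t → y ∉ R t → E t x y := by
  obtain ⟨N, p, q, hS, h4, h5, h6, h7⟩ := h
  have hK := hS.cir
  have hpK : p ∈ PK X p q := Or.inl rfl
  have hqK : q ∈ PK X p q := Or.inr (Or.inl rfl)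
  have hXK : ∀ x ∈ X, x ∈ PK X p q := fun x hx => Or.inr (Or.inr hx)
  obtain ⟨hpq, hc⟩ := hS.crossU ht (hXK x hx) (hXK y hy) ((h7 x hx).2 x0)
    (fun h8 => x1 ((h5 t ht x hx).1 h8)) (fun h8 => y0 ((h7 y hy).1 h8))
    (fun h8 => y1 ((h6 t ht y hy).1 h8))
  refine ⟨?_, ?_, ?_⟩
  · intro w hw h8
    exact (h7 w hw).1 (hc.sp w (hXK w hw) ((h5 t ht w hw).2 h8).symm).symm
  · intro w hw h8 h9
    exact hpq (((h7 w hw).2 h9).trans hK (hXK w hw) (hc.sq w (hXK w hw) ((h6 t ht w hw).2 h8).symm))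
  · intro a ha b hb a1 a2 b1 b2
    rw [← h4 t (Or.inr ht) a ha b hb]
    exact hc.thd a (hXK a ha) b (hXK b hb) (fun h8 => a1 ((h5 t ht a ha).1 h8.symm))
      (fun h8 => a2 ((h6 t ht a ha).1 h8.symm)) (fun h8 => b1 ((h5 t ht b hb).1 h8.symm))
      (fun h8 => b2 ((h6 t ht b hb).1 h8.symm))

/-- two crossing elements in the witness of `z` -/
lemma PWit.crs2 (h : PWit E L R A X T z) {t' : α} (ht : t ∈ T) (ht' : t' ∈ T)
    (h1 : ∃ x ∈ X, x ∈ A z ∧ x ∉ L t) (h2 : ∃ y ∈ X, y ∉ A z ∧ y ∉ R t)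
    (h1' : ∃ x ∈ X, x ∈ A z ∧ x ∉ L t') (h2' : ∃ y ∈ X, y ∉ A z ∧ y ∉ R t') :
    (CmpOn X (L t) (L t') ∨ EqOn X (R t) (R t')) ∧ (CmpOn X (R t) (R t') ∨ EqOn X (L t) (L t')) := by
  by_cases htt : t = t'
  · subst htt
    exact ⟨Or.inl (Or.inl fun x _ h => h), Or.inl (Or.inl fun x _ h => h)⟩
  obtain ⟨N, p, q, hS, h4, h5, h6, h7⟩ := h
  obtain ⟨x, hx, x0, x1⟩ := h1
  obtain ⟨y, hy, y0, y1⟩ := h2
  obtain ⟨x', hx', x0', x1'⟩ := h1'
  obtain ⟨y', hy', y0', y1'⟩ := h2'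
  have hK := hS.cir
  have hpK : p ∈ PK X p q := Or.inl rfl
  have hqK : q ∈ PK X p q := Or.inr (Or.inl rfl)
  have hXK : ∀ x ∈ X, x ∈ PK X p q := fun x hx => Or.inr (Or.inr hx)
  obtain ⟨hpq, hc⟩ := hS.crossU ht (hXK x hx) (hXK y hy) ((h7 x hx).2 x0)
    (fun h8 => x1 ((h5 t ht x hx).1 h8)) (fun h8 => y0 ((h7 y hy).1 h8))
    (fun h8 => y1 ((h6 t ht y hy).1 h8))
  obtain ⟨-, hc'⟩ := hS.crossU ht' (hXK x' hx') (hXK y' hy') ((h7 x' hx').2 x0')
    (fun h8 => x1' ((h5 t' ht' x' hx').1 h8)) (fun h8 => y0' ((h7 y' hy').1 h8))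
    (fun h8 => y1' ((h6 t' ht' y' hy').1 h8))
  have hno : ∀ D ⊆ PK X p q ∪ {z, t, t'}, N.IsCircuit D → z ∈ D → p ∈ D → q ∈ D → False := by
    intro D h1 h2 h3 h4 h5
    refine hS.pp D (h1.trans ?_) h2 h3 h4 h5
    rintro w (hw | hw | hw | hw)
    · exact Or.inl (Or.inl hw)
    · exact Or.inr hw
    · exact Or.inl (Or.inr (hw ▸ ht))
    · exact Or.inl (Or.inr (hw ▸ ht'))
  have hzt : z ≠ t := fun h8 => hS.zT (h8 ▸ ht)
  have hzt' : z ≠ t' := fun h8 => hS.zT (h8 ▸ ht')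
  have g1 := crossG hK hS.zcl (hS.Tcl ht) (hS.Tcl ht') hS.zK (hS.tK ht) (hS.tK ht') hzt hzt' htt hpK
    hqK hpq hno hc hc'
  have g2 := crossG hK hS.zcl (hS.Tcl ht) (hS.Tcl ht') hS.zK (hS.tK ht) (hS.tK ht') hzt hzt' htt hqK
    hpK (fun h8 => hpq h8.symm) (fun D h1 h2 h3 h4 h5 => hno D h1 h2 h3 h5 h4) hc.swap hc'.swap
  have eL : ∀ s ∈ T, ∀ w ∈ X, (Eqv N (PK X p q) s w p ↔ w ∈ L s) := fun s hs w hw => by
    rw [← h5 s hs w hw]
    exact ⟨fun h => h.symm, fun h => h.symm⟩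
  have eR : ∀ s ∈ T, ∀ w ∈ X, (Eqv N (PK X p q) s w q ↔ w ∈ R s) := fun s hs w hw => by
    rw [← h6 s hs w hw]
    exact ⟨fun h => h.symm, fun h => h.symm⟩
  refine ⟨?_, ?_⟩
  · rcases g1 with g1 | g1 | g1
    · exact Or.inl (Or.inl fun w hw h => (eL t' ht' w hw).1 (g1 w (hXK w hw) ((eL t ht w hw).2 h)))
    · exact Or.inl (Or.inr fun w hw h => (eL t ht w hw).1 (g1 w (hXK w hw) ((eL t' ht' w hw).2 h)))
    · refine Or.inr fun w hw => ?_
      rw [← eR t ht w hw, ← eR t' ht' w hw]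
      exact g1 w (hXK w hw)
  · rcases g2 with g1 | g1 | g1
    · exact Or.inl (Or.inl fun w hw h => (eR t' ht' w hw).1 (g1 w (hXK w hw) ((eR t ht w hw).2 h)))
    · exact Or.inl (Or.inr fun w hw h => (eR t ht w hw).1 (g1 w (hXK w hw) ((eR t' ht' w hw).2 h)))
    · refine Or.inr fun w hw => ?_
      rw [← eL t ht w hw, ← eL t' ht' w hw]
      exact g1 w (hXK w hw)

end wit

/-- **ROW SPLIT.** -/
theorem rowSplit : RowSplitStmt α := by
  classical
  intro E L R A X T W hX hTW hW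
  obtain ⟨n, hn⟩ : ∃ n, X.ncard = n := ⟨_, rfl⟩
  induction n using Nat.strong_induction_on generalizing A X T W with
  | _ n ih =>
  by_cases hsep : ∃ z ∈ W, (∃ x ∈ X, x ∈ A z) ∧ ∃ y ∈ X, y ∉ A z
  swap
  · push Not at hsep
    refine ⟨∅, empty_subset _, fun t ht => absurd ht (notMem_empty t), fun t ht z hz => ?_,
      fun z hz x hx y hy => (hW z hz).one hx hy, fun t ht => absurd ht (notMem_empty t),
      fun t ht => absurd ht (notMem_empty t), fun t ht => absurd ht (notMem_empty t),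
      fun t _ _ t' ht' => absurd ht' (notMem_empty t'),
      fun t _ _ t' ht' => absurd ht' (notMem_empty t')⟩
    by_cases h1 : ∃ x ∈ X, x ∈ A z
    · exact Or.inr (Or.inl fun x hx hxA => absurd (hsep z hz h1 x hx) hxA)
    · exact Or.inl fun x hx hxA => absurd ⟨x, hx, hxA⟩ h1
  obtain ⟨z₀, hz₀, ⟨x₀, hx₀, hx₀A⟩, y₀, hy₀, hy₀A⟩ := hsep
  have w0 := hW z₀ hz₀
  obtain ⟨P, hP⟩ : ∃ P, P = {x ∈ X | x ∈ A z₀} := ⟨_, rfl⟩
  obtain ⟨Q, hQ⟩ : ∃ Q, Q = {x ∈ X | x ∉ A z₀} := ⟨_, rfl⟩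
  obtain ⟨TP, hTP⟩ : ∃ TP, TP = {t ∈ T | ∀ x ∈ X, x ∉ A z₀ → x ∈ R t} := ⟨_, rfl⟩
  obtain ⟨TQ₀, hTQ₀⟩ : ∃ TQ, TQ = {t ∈ T | ∀ x ∈ X, x ∈ A z₀ → x ∈ L t} := ⟨_, rfl⟩
  obtain ⟨Lk, hLk⟩ : ∃ Lk, Lk = T \ (TP ∪ TQ₀) := ⟨_, rfl⟩
  have hPX : P ⊆ X := by rw [hP]; exact fun x hx => hx.1
  have hQX : Q ⊆ X := by rw [hQ]; exact fun x hx => hx.1
  have mP : ∀ x ∈ X, x ∈ A z₀ → x ∈ P := fun x hx h => by rw [hP]; exact ⟨hx, h⟩
  have mQ : ∀ x ∈ X, x ∉ A z₀ → x ∈ Q := fun x hx h => by rw [hQ]; exact ⟨hx, h⟩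
  have mP' : ∀ x ∈ P, x ∈ A z₀ := fun x hx => by rw [hP] at hx; exact hx.2
  have mQ' : ∀ x ∈ Q, x ∉ A z₀ := fun x hx => by rw [hQ] at hx; exact hx.2
  have hTPT : TP ⊆ T := by rw [hTP]; exact fun x hx => hx.1
  have hTQT : TQ₀ \ TP ⊆ T := by rw [hTQ₀]; exact fun x hx => hx.1.1
  have hLkT : Lk ⊆ T := by rw [hLk]; exact sdiff_subset
  have dis : ∀ t ∈ T, ∀ x ∈ X, x ∈ L t → x ∉ R t := fun t ht x hx => w0.dis ht hx
  -- elements of the halves and links
  have pR : ∀ t ∈ TP, ∀ x ∈ X, x ∉ A z₀ → x ∈ R t := fun t ht => by rw [hTP] at ht; exact ht.2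
  have pL : ∀ t ∈ TP, ∀ x ∈ X, x ∈ L t → x ∈ A z₀ := by
    intro t ht x hx h1
    by_contra h2
    exact dis t (hTPT ht) x hx h1 (pR t ht x hx h2)
  have qL : ∀ t ∈ TQ₀ \ TP, ∀ x ∈ X, x ∈ A z₀ → x ∈ L t :=
    fun t ht => by rw [hTQ₀] at ht; exact ht.1.2
  have qR : ∀ t ∈ TQ₀ \ TP, ∀ x ∈ X, x ∈ R t → x ∉ A z₀ := by
    intro t ht x hx h1 h2
    exact dis t (hTQT ht) x hx (qL t ht x hx h2) h1
  have lky : ∀ d ∈ Lk, ∃ y ∈ X, y ∉ A z₀ ∧ y ∉ R d := by
    intro d hd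
    by_contra hcon
    push Not at hcon
    rw [hLk] at hd
    refine hd.2 (Or.inl ?_)
    rw [hTP]
    exact ⟨hd.1, fun x hx h1 => hcon x hx h1⟩
  have lkx : ∀ d ∈ Lk, ∃ x ∈ X, x ∈ A z₀ ∧ x ∉ L d := by
    intro d hd
    by_contra hcon
    push Not at hcon
    rw [hLk] at hd
    refine hd.2 (Or.inr ?_)
    rw [hTQ₀]
    exact ⟨hd.1, fun x hx h1 => hcon x hx h1⟩
  have lk3 : ∀ d ∈ Lk, (∀ x ∈ X, x ∈ L d → x ∈ A z₀) ∧ (∀ x ∈ X, x ∈ R d → x ∉ A z₀) ∧
      ∀ x ∈ X, ∀ y ∈ X, x ∉ L d → x ∉ R d → y ∉ L d → y ∉ R d → E d x y := by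
    intro d hd
    obtain ⟨y, hy, y1, y2⟩ := lky d hd
    obtain ⟨x, hx, x1, x2⟩ := lkx d hd
    exact w0.crs (hLkT hd) hx hy x1 x2 y1 y2
  have lL : ∀ d ∈ Lk, ∀ x ∈ X, x ∈ L d → x ∈ A z₀ := fun d hd => (lk3 d hd).1
  have lR : ∀ d ∈ Lk, ∀ x ∈ X, x ∈ R d → x ∉ A z₀ := fun d hd => (lk3 d hd).2.1
  have hWLk : ∀ z ∈ W, z ∉ Lk := fun z hz h => disjoint_left.1 hTW (hLkT h) hz
  -- the classes of the exits
  obtain ⟨AP, hAP⟩ : ∃ AP : α → Set α, AP = fun t => if t ∈ Lk then L t else A t := ⟨_, rfl⟩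
  obtain ⟨AQ, hAQ⟩ : ∃ AQ : α → Set α, AQ = fun t => if t ∈ Lk then (R t)ᶜ else A t := ⟨_, rfl⟩
  have aPl : ∀ d ∈ Lk, AP d = L d := fun d hd => by rw [hAP]; exact if_pos hd
  have aPw : ∀ z ∈ W, AP z = A z := fun z hz => by rw [hAP]; exact if_neg (hWLk z hz)
  have aQl : ∀ d ∈ Lk, AQ d = (R d)ᶜ := fun d hd => by rw [hAQ]; exact if_pos hd
  have aQw : ∀ z ∈ W, AQ z = A z := fun z hz => by rw [hAQ]; exact if_neg (hWLk z hz)
  -- the halves
  have hPlt : P.ncard < n := by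
    rw [← hn]
    exact ncard_lt_ncard ⟨hPX, fun h => hy₀A (mP' y₀ (h hy₀))⟩ hX
  have hQlt : Q.ncard < n := by
    rw [← hn]
    exact ncard_lt_ncard ⟨hQX, fun h => mQ' x₀ (h hx₀) hx₀A⟩ hX
  obtain ⟨ThP, hp⟩ := ih P.ncard hPlt (A := AP) (X := P) (T := TP) (W := W ∪ Lk) (hX.subset hPX) (by
      rw [disjoint_left]
      rintro t ht (h1 | h1)
      · exact disjoint_left.1 hTW (hTPT ht) h1
      · rw [hLk] at h1
        exact h1.2 (Or.inl ht)) (by
      rintro z (hz | hz)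
      · exact (hW z hz).old hPX hTPT fun x _ => by rw [aPw z hz]
      · obtain ⟨c, hc, c1, c2⟩ := lky z hz
        have h1 := w0.newL (A' := AP) ⟨y₀, hy₀, hy₀A⟩ (hLkT hz) hc c1 c2
          (fun x _ _ => by rw [aPl z hz])
        rw [← hP, ← hTP] at h1
        exact h1) rfl
  obtain ⟨ThQ, hq⟩ := ih Q.ncard hQlt (A := AQ) (X := Q) (T := TQ₀ \ TP) (W := W ∪ Lk)
    (hX.subset hQX) (by
      rw [disjoint_left]
      rintro t ht (h1 | h1)
      · exact disjoint_left.1 hTW (hTQT ht) h1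
      · rw [hLk] at h1
        exact h1.2 (Or.inr ht.1)) (by
      rintro z (hz | hz)
      · exact (hW z hz).old hQX hTQT fun x _ => by rw [aQw z hz]
      · obtain ⟨c, hc, c1, c2⟩ := lkx z hz
        have h1 := w0.newR (A' := AQ) ⟨y₀, hy₀, hy₀A⟩ (hLkT hz) hc c1 c2
          (fun h2 => lR z hz c hc h2 c1) (fun x _ _ => by rw [aQl z hz]; rfl)
        rw [← hQ, ← hTQ₀] at h1
        exact h1.old (Subset.refl _) sdiff_subset fun x _ => Iff.rfl) rfl
  have hThPT : ThP ⊆ TP := hp.sub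
  have hThQT : ThQ ⊆ TQ₀ \ TP := hq.sub
  -- exits in the halves
  have eP : ∀ t ∈ TP, ∀ d ∈ Lk, (∀ x ∈ X, x ∈ L d → x ∈ L t) ∨ (∀ x ∈ X, x ∉ L d → x ∈ R t) ∨
      (t ∈ ThP ∧ (∀ x ∈ X, x ∈ L t → x ∈ L d) ∧ ∀ x ∈ X, x ∈ R t → x ∉ L d) := by
    intro t ht d hd
    have h1 := hp.exi t ht d (Or.inr hd)
    rw [aPl d hd] at h1
    rcases h1 with h1 | h1 | ⟨h1, h2, h3⟩
    · exact Or.inl fun x hx h2 => h1 x (mP x hx (lL d hd x hx h2)) h2
    · refine Or.inr (Or.inl fun x hx h2 => ?_)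
      by_cases h3 : x ∈ A z₀
      · exact h1 x (mP x hx h3) h2
      · exact pR t ht x hx h3
    · refine Or.inr (Or.inr ⟨h1, fun x hx h4 => h2 x (mP x hx (pL t ht x hx h4)) h4,
        fun x hx h4 h5 => h3 x (mP x hx (lL d hd x hx h5)) h4 h5⟩)
  have eQ : ∀ t ∈ TQ₀ \ TP, ∀ d ∈ Lk, (∀ x ∈ X, x ∈ R d → x ∈ R t) ∨
      (∀ x ∈ X, x ∉ R d → x ∈ L t) ∨
      (t ∈ ThQ ∧ (∀ x ∈ X, x ∈ R t → x ∈ R d) ∧ ∀ x ∈ X, x ∈ L t → x ∉ R d) := by
    intro t ht d hd
    have h1 := hq.exi t ht d (Or.inr hd)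
    rw [aQl d hd] at h1
    rcases h1 with h1 | h1 | ⟨h1, h2, h3⟩
    · refine Or.inr (Or.inl fun x hx h2 => ?_)
      by_cases h3 : x ∈ A z₀
      · exact qL t ht x hx h3
      · exact h1 x (mQ x hx h3) h2
    · exact Or.inl fun x hx h2 => h1 x (mQ x hx (lR d hd x hx h2)) fun h3 => h3 h2
    · refine Or.inr (Or.inr ⟨h1, fun x hx h4 => ?_, fun x hx h4 h5 => ?_⟩)
      · by_contra h5
        exact h3 x (mQ x hx (qR t ht x hx h4)) h4 h5
      · exact h2 x (mQ x hx (lR d hd x hx h5)) h4 h5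
  refine ⟨ThP ∪ ThQ ∪ Lk, ?_, ?_, ?_, fun z hz x hx y hy => (hW z hz).one hx hy, ?_, ?_, ?_, ?_, ?_⟩
  · rintro t ((ht | ht) | ht)
    exacts [hTPT (hThPT ht), hTQT (hThQT ht), hLkT ht]
  · -- two
    rintro t ((ht | ht) | ht)
    · have h1 := hp.two t ht
      obtain ⟨x, hx, h2⟩ := h1.mid
      refine ⟨⟨x, hPX hx, h2⟩, dis t (hTPT (hThPT ht)), fun a ha b hb =>
        w0.cls (hTPT (hThPT ht)) (fun x hx y hy x1 x2 y1 y2 => ?_) ha hb⟩
      have hxP : x ∈ P := mP x hx (by by_contra h3; exact x2 (pR t (hThPT ht) x hx h3))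
      have hyP : y ∈ P := mP y hy (by by_contra h3; exact y2 (pR t (hThPT ht) y hy h3))
      exact (h1.cls x hxP y hyP).2 ⟨iff_of_false x1 y1, iff_of_false x2 y2⟩
    · have h1 := hq.two t ht
      obtain ⟨x, hx, h2⟩ := h1.mid
      refine ⟨⟨x, hQX hx, h2⟩, dis t (hTQT (hThQT ht)), fun a ha b hb =>
        w0.cls (hTQT (hThQT ht)) (fun x hx y hy x1 x2 y1 y2 => ?_) ha hb⟩
      have hxQ : x ∈ Q := mQ x hx (fun h3 => x1 (qL t (hThQT ht) x hx h3))
      have hyQ : y ∈ Q := mQ y hy (fun h3 => y1 (qL t (hThQT ht) y hy h3))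
      exact (h1.cls x hxQ y hyQ).2 ⟨iff_of_false x1 y1, iff_of_false x2 y2⟩
    · obtain ⟨x, hx, x1, x2⟩ := lkx t ht
      exact ⟨⟨x, hx, x2, fun h => lR t ht x hx h x1⟩, dis t (hLkT ht), fun a ha b hb =>
        w0.cls (hLkT ht) (lk3 t ht).2.2 ha hb⟩
  · -- exi
    intro t ht z hz
    by_cases a1 : ∀ x ∈ X, x ∈ A z → x ∈ L t
    · exact Or.inl a1
    by_cases a2 : ∀ x ∈ X, x ∉ A z → x ∈ R t
    · exact Or.inr (Or.inl a2)
    push Not at a1 a2
    obtain ⟨x, hx, x1, x2⟩ := a1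
    obtain ⟨y, hy, y1, y2⟩ := a2
    obtain ⟨b1, b2, -⟩ := (hW z hz).crs ht hx hy x1 x2 y1 y2
    refine Or.inr (Or.inr ⟨?_, b1, b2⟩)
    by_cases htP : t ∈ TP
    · left; left
      have h1 := hp.exi t htP z (Or.inl hz)
      rw [aPw z hz] at h1
      rcases h1 with h1 | h1 | h1
      · exfalso
        refine x2 (h1 x (mP x hx ?_) x1)
        by_contra h2
        exact b2 x hx (pR t htP x hx h2) x1
      · exfalso
        refine y2 (h1 y (mP y hy ?_) y1)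
        by_contra h2
        exact y2 (pR t htP y hy h2)
      · exact h1.1
    by_cases htQ : t ∈ TQ₀
    · left; right
      have h1 := hq.exi t ⟨htQ, htP⟩ z (Or.inl hz)
      rw [aQw z hz] at h1
      rcases h1 with h1 | h1 | h1
      · exfalso
        refine x2 (h1 x (mQ x hx fun h2 => ?_) x1)
        exact x2 (qL t ⟨htQ, htP⟩ x hx h2)
      · exfalso
        refine y2 (h1 y (mQ y hy fun h2 => ?_) y1)
        exact y1 (b1 y hy (qL t ⟨htQ, htP⟩ y hy h2))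
      · exact h1.1
    · right
      rw [hLk]
      exact ⟨ht, fun h => h.elim htP htQ⟩
  · -- LL
    rintro t ((ht | ht) | ht) t' ((ht' | ht') | ht')
    · rcases hp.LL t ht t' ht' with (h1 | h1) | h1
      · exact Or.inl (Or.inl fun x hx h2 => h1 x (mP x hx (pL t (hThPT ht) x hx h2)) h2)
      · exact Or.inl (Or.inr fun x hx h2 => h1 x (mP x hx (pL t' (hThPT ht') x hx h2)) h2)
      · refine Or.inr fun x hx => ?_
        by_cases h2 : x ∈ A z₀
        · exact h1 x (mP x hx h2)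
        · exact iff_of_true (pR t (hThPT ht) x hx h2) (pR t' (hThPT ht') x hx h2)
    · exact Or.inl (Or.inl fun x hx h2 => qL t' (hThQT ht') x hx (pL t (hThPT ht) x hx h2))
    · rcases eP t (hThPT ht) t' ht' with h1 | h1 | ⟨-, h1, -⟩
      · exact Or.inl (Or.inr h1)
      · refine Or.inl (Or.inl fun x hx h2 => ?_)
        by_contra h3
        exact dis t (hTPT (hThPT ht)) x hx h2 (h1 x hx h3)
      · exact Or.inl (Or.inl h1)
    · exact Or.inl (Or.inr fun x hx h2 => qL t (hThQT ht) x hx (pL t' (hThPT ht') x hx h2))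
    · rcases hq.LL t ht t' ht' with (h1 | h1) | h1
      · refine Or.inl (Or.inl fun x hx h2 => ?_)
        by_cases h3 : x ∈ A z₀
        · exact qL t' (hThQT ht') x hx h3
        · exact h1 x (mQ x hx h3) h2
      · refine Or.inl (Or.inr fun x hx h2 => ?_)
        by_cases h3 : x ∈ A z₀
        · exact qL t (hThQT ht) x hx h3
        · exact h1 x (mQ x hx h3) h2
      · refine Or.inr fun x hx => ?_
        by_cases h2 : x ∈ A z₀
        · exact iff_of_false (fun h => qR t (hThQT ht) x hx h h2)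
            (fun h => qR t' (hThQT ht') x hx h h2)
        · exact h1 x (mQ x hx h2)
    · exact Or.inl (Or.inr fun x hx h2 => qL t (hThQT ht) x hx (lL t' ht' x hx h2))
    · rcases eP t' (hThPT ht') t ht with h1 | h1 | ⟨-, h1, -⟩
      · exact Or.inl (Or.inl h1)
      · refine Or.inl (Or.inr fun x hx h2 => ?_)
        by_contra h3
        exact dis t' (hTPT (hThPT ht')) x hx h2 (h1 x hx h3)
      · exact Or.inl (Or.inr h1)
    · exact Or.inl (Or.inl fun x hx h2 => qL t' (hThQT ht') x hx (lL t ht x hx h2))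
    · exact (w0.crs2 (hLkT ht) (hLkT ht') (lkx t ht) (lky t ht) (lkx t' ht') (lky t' ht')).1
  · -- RR
    rintro t ((ht | ht) | ht) t' ((ht' | ht') | ht')
    · rcases hp.RR t ht t' ht' with (h1 | h1) | h1
      · refine Or.inl (Or.inl fun x hx h2 => ?_)
        by_cases h3 : x ∈ A z₀
        · exact h1 x (mP x hx h3) h2
        · exact pR t' (hThPT ht') x hx h3
      · refine Or.inl (Or.inr fun x hx h2 => ?_)
        by_cases h3 : x ∈ A z₀
        · exact h1 x (mP x hx h3) h2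
        · exact pR t (hThPT ht) x hx h3
      · refine Or.inr fun x hx => ?_
        by_cases h2 : x ∈ A z₀
        · exact h1 x (mP x hx h2)
        · exact iff_of_false (fun h => h2 (pL t (hThPT ht) x hx h))
            (fun h => h2 (pL t' (hThPT ht') x hx h))
    · exact Or.inl (Or.inr fun x hx h2 => pR t (hThPT ht) x hx (qR t' (hThQT ht') x hx h2))
    · exact Or.inl (Or.inr fun x hx h2 => pR t (hThPT ht) x hx (lR t' ht' x hx h2))
    · exact Or.inl (Or.inl fun x hx h2 => pR t' (hThPT ht') x hx (qR t (hThQT ht) x hx h2))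
    · rcases hq.RR t ht t' ht' with (h1 | h1) | h1
      · exact Or.inl (Or.inl fun x hx h2 => h1 x (mQ x hx (qR t (hThQT ht) x hx h2)) h2)
      · exact Or.inl (Or.inr fun x hx h2 => h1 x (mQ x hx (qR t' (hThQT ht') x hx h2)) h2)
      · refine Or.inr fun x hx => ?_
        by_cases h2 : x ∈ A z₀
        · exact iff_of_true (qL t (hThQT ht) x hx h2) (qL t' (hThQT ht') x hx h2)
        · exact h1 x (mQ x hx h2)
    · rcases eQ t (hThQT ht) t' ht' with h1 | h1 | ⟨-, h1, -⟩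
      · exact Or.inl (Or.inr h1)
      · refine Or.inl (Or.inl fun x hx h2 => ?_)
        by_contra h3
        exact dis t (hTQT (hThQT ht)) x hx (h1 x hx h3) h2
      · exact Or.inl (Or.inl h1)
    · exact Or.inl (Or.inl fun x hx h2 => pR t' (hThPT ht') x hx (lR t ht x hx h2))
    · rcases eQ t' (hThQT ht') t ht with h1 | h1 | ⟨-, h1, -⟩
      · exact Or.inl (Or.inl h1)
      · refine Or.inl (Or.inr fun x hx h2 => ?_)
        by_contra h3
        exact dis t' (hTQT (hThQT ht')) x hx (h1 x hx h3) h2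
      · exact Or.inl (Or.inr h1)
    · exact (w0.crs2 (hLkT ht) (hLkT ht') (lkx t ht) (lky t ht) (lkx t' ht') (lky t' ht')).2
  · -- LR
    rintro t ((ht | ht) | ht) t' ((ht' | ht') | ht')
    · rcases hp.LR t ht t' ht' with h1 | h1
      · exact Or.inl fun x hx h2 => h1 x (mP x hx (pL t (hThPT ht) x hx h2)) h2
      · refine Or.inr fun x hx h2 => h1 x (mP x hx ?_) h2
        by_contra h3
        exact h2 (pR t' (hThPT ht') x hx h3)
    · exact Or.inl fun x hx h2 h3 => qR t' (hThQT ht') x hx h3 (pL t (hThPT ht) x hx h2)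
    · exact Or.inl fun x hx h2 h3 => lR t' ht' x hx h3 (pL t (hThPT ht) x hx h2)
    · refine Or.inr fun x hx h2 => qL t (hThQT ht) x hx ?_
      by_contra h3
      exact h2 (pR t' (hThPT ht') x hx h3)
    · rcases hq.LR t ht t' ht' with h1 | h1
      · refine Or.inl fun x hx h2 h3 => ?_
        by_cases h4 : x ∈ A z₀
        · exact qR t' (hThQT ht') x hx h3 h4
        · exact h1 x (mQ x hx h4) h2 h3
      · refine Or.inr fun x hx h2 => ?_
        by_cases h4 : x ∈ A z₀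
        · exact qL t (hThQT ht) x hx h4
        · exact h1 x (mQ x hx h4) h2
    · rcases eQ t (hThQT ht) t' ht' with h1 | h1 | ⟨-, -, h1⟩
      · exact Or.inl fun x hx h2 h3 => dis t (hTQT (hThQT ht)) x hx h2 (h1 x hx h3)
      · exact Or.inr h1
      · exact Or.inl h1
    · rcases eP t' (hThPT ht') t ht with h1 | h1 | ⟨-, -, h1⟩
      · exact Or.inl fun x hx h2 h3 => dis t' (hTPT (hThPT ht')) x hx (h1 x hx h2) h3
      · refine Or.inr fun x hx h2 => ?_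
        by_contra h3
        exact h2 (h1 x hx h3)
      · exact Or.inl fun x hx h2 h3 => h1 x hx h3 h2
    · exact Or.inl fun x hx h2 h3 => qR t' (hThQT ht') x hx h3 (lL t ht x hx h2)
    · exact Or.inl fun x hx h2 h3 => lR t' ht' x hx h3 (lL t ht x hx h2)
  · -- locL
    intro t htT htn t' ht'
    have hnP : t ∉ ThP := fun h => htn (Or.inl (Or.inl h))
    have hnQ : t ∉ ThQ := fun h => htn (Or.inl (Or.inr h))
    have hcase : t ∈ TP ∨ t ∈ TQ₀ \ TP := by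
      by_contra hcon
      push Not at hcon
      refine htn (Or.inr ?_)
      rw [hLk]
      exact ⟨htT, fun h => h.elim hcon.1 fun h => hcon.2 ⟨h, hcon.1⟩⟩
    rcases hcase with ht | ht
    · rcases ht' with (ht' | ht') | ht'
      · rcases hp.locL t ht hnP t' ht' with h1 | h1
        · exact Or.inl fun x hx h2 => h1 x (mP x hx (pL t' (hThPT ht') x hx h2)) h2
        · refine Or.inr fun x hx h2 => ?_
          by_cases h3 : x ∈ A z₀
          · exact h1 x (mP x hx h3) h2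
          · exact pR t ht x hx h3
      · exact Or.inr fun x hx h2 => pR t ht x hx fun h3 => h2 (qL t' (hThQT ht') x hx h3)
      · rcases eP t ht t' ht' with h1 | h1 | ⟨h1, -⟩
        exacts [Or.inl h1, Or.inr h1, absurd h1 hnP]
    · rcases ht' with (ht' | ht') | ht'
      · exact Or.inl fun x hx h2 => qL t ht x hx (pL t' (hThPT ht') x hx h2)
      · rcases hq.locL t ht hnQ t' ht' with h1 | h1
        · refine Or.inl fun x hx h2 => ?_
          by_cases h3 : x ∈ A z₀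
          · exact qL t ht x hx h3
          · exact h1 x (mQ x hx h3) h2
        · exact Or.inr fun x hx h2 => h1 x (mQ x hx fun h3 => h2 (qL t' (hThQT ht') x hx h3)) h2
      · exact Or.inl fun x hx h2 => qL t ht x hx (lL t' ht' x hx h2)
  · -- locR
    intro t htT htn t' ht'
    have hnP : t ∉ ThP := fun h => htn (Or.inl (Or.inl h))
    have hnQ : t ∉ ThQ := fun h => htn (Or.inl (Or.inr h))
    have hcase : t ∈ TP ∨ t ∈ TQ₀ \ TP := by
      by_contra hcon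
      push Not at hcon
      refine htn (Or.inr ?_)
      rw [hLk]
      exact ⟨htT, fun h => h.elim hcon.1 fun h => hcon.2 ⟨h, hcon.1⟩⟩
    rcases hcase with ht | ht
    · rcases ht' with (ht' | ht') | ht'
      · rcases hp.locR t ht hnP t' ht' with h1 | h1
        · refine Or.inl fun x hx h2 => ?_
          by_cases h3 : x ∈ A z₀
          · exact h1 x (mP x hx h3) h2
          · exact pR t ht x hx h3
        · refine Or.inr fun x hx h2 => h1 x (mP x hx ?_) h2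
          by_contra h3
          exact h2 (pR t' (hThPT ht') x hx h3)
      · exact Or.inl fun x hx h2 => pR t ht x hx (qR t' (hThQT ht') x hx h2)
      · exact Or.inl fun x hx h2 => pR t ht x hx (lR t' ht' x hx h2)
    · rcases ht' with (ht' | ht') | ht'
      · refine Or.inr fun x hx h2 => qL t ht x hx ?_
        by_contra h3
        exact h2 (pR t' (hThPT ht') x hx h3)
      · rcases hq.locR t ht hnQ t' ht' with h1 | h1
        · exact Or.inl fun x hx h2 => h1 x (mQ x hx (qR t' (hThQT ht') x hx h2)) h2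
        · refine Or.inr fun x hx h2 => ?_
          by_cases h3 : x ∈ A z₀
          · exact qL t ht x hx h3
          · exact h1 x (mQ x hx h3) h2
      · rcases eQ t ht t' ht' with h1 | h1 | ⟨h1, -⟩
        exacts [Or.inl h1, Or.inr h1, absurd h1 hnQ]

end TST
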