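import Pool.Agent.TST.SplitDef2
import Pool.Agent.TST.RowSplit

/-!
# The split step in witness form, with balanced elements (CLAIM A of T-star, helper75)

`PWitB.old`, `PWitD.old`: restriction to a part of the row.  `PWitB.newL`, `PWitD.newL` (= SUB2),
`PWitD.linkL` (= SUB2'): the left half of the row at an exit `z₀`; the new exits are the links.
`c` is the new right end.  `newR`, `linkR`: mirror images.
-/

set_option autoImplicit false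

open Set
open scoped Matroid

namespace TST

variable {α : Type*} {N : Matroid α} {X P Q T T' W : Set α} {p q z z' z₀ z₁ t t' x y c d : α}

/-! ### Restriction -/

lemma pk_old (hP : P ⊆ X) : PK X p q = PK P p q ∪ (X \ P) := by
  ext w
  simp only [mem_union, mem_insert_iff, mem_sdiff]
  constructor
  · rintro (h1 | h1 | h1)
    · exact Or.inl (Or.inl h1)
    · exact Or.inl (Or.inr (Or.inl h1))
    · by_cases h2 : w ∈ P
      · exact Or.inl (Or.inr (Or.inr h2))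
      · exact Or.inr ⟨h1, h2⟩
  · rintro ((h1 | h1 | h1) | h1)
    · exact Or.inl h1
    · exact Or.inr (Or.inl h1)
    · exact Or.inr (Or.inr (hP h1))
    · exact Or.inr (Or.inr h1.1)

lemma pk_old_disj (hpX : p ∉ X) (hqX : q ∉ X) : Disjoint (PK P p q) (X \ P) := by
  rw [disjoint_left]
  rintro w (h1 | h1 | h1) h2
  · exact hpX (h1 ▸ h2.1)
  · exact hqX (h1 ▸ h2.1)
  · exact h2.2 h1

/-- the relations of a part of the row -/
lemma PSysB.relOld (h : PSysB N X p q T z) (hP : P ⊆ X) {s : α} (hs : s ∉ X \ P) :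
    ∀ x ∈ PK P p q, ∀ y ∈ PK P p q,
      (Eqv (N ／ (X \ P)) (PK P p q) s x y ↔ Eqv N (PK X p q) s x y) :=
  fun _ hx _ hy => con_eqv (pk_old hP) (pk_old_disj h.pX h.qX) hx hy hs

/-- a part of the row -/
lemma PSysB.old (h : PSysB N X p q T z) (hP : P ⊆ X) (hT : T' ⊆ T) :
    PSysB (N ／ (X \ P)) P p q T' z := by
  have e : PK X p q = PK P p q ∪ (X \ P) := pk_old hP
  have hd : Disjoint (PK P p q) (X \ P) := pk_old_disj h.pX h.qX
  have hsub : PK P p q ⊆ PK X p q := by rw [e]; exact subset_union_left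
  have hD : X \ P ⊆ PK X p q := by rw [e]; exact subset_union_right
  have hnt : ∀ t ∈ T', t ∉ X \ P := fun t ht h1 => h.tK (hT ht) (hD h1)
  have hnz : z ∉ X \ P := fun h1 => h.zK (hD h1)
  refine ⟨?_, fun h1 => h.pX (hP h1), fun h1 => h.qX (hP h1), h.pq, ?_, ?_, ?_,
    fun h1 => h.zK (hsub h1), fun h1 => h.zT (hT h1), h.pp.con hsub hD hT⟩
  · have h1 := h.cir.contract_isCircuit (C := X \ P) ⟨hD, fun h2 => h.pX (h2 (Or.inl rfl)).1⟩
    have h2 : PK X p q \ (X \ P) = PK P p q := by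
      rw [e]
      exact Disjoint.sup_sdiff_cancel_right hd
    rwa [h2] at h1
  · exact fun t ht => con_spans e.subset (h.Tcl (hT ht)) (hnt t ht)
  · exact h.TK.mono hT hsub
  · exact con_spans e.subset h.zcl hnz

/-! ### The half of a row -/

/-- the sets of the left half `P` with the new right end `c`; `Q` is the right half -/
structure HalfS (X P Q : Set α) (p q c : α) : Prop where
  eX : X = P ∪ Q
  dis : Disjoint P Q
  pX : p ∉ X
  qX : q ∉ X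
  pq : p ≠ q
  hc : c ∈ Q

namespace HalfS

lemma QX (h : HalfS X P Q p q c) : Q ⊆ X := by rw [h.eX]; exact subset_union_right

lemma PX (h : HalfS X P Q p q c) : P ⊆ X := by rw [h.eX]; exact subset_union_left

lemma cK (h : HalfS X P Q p q c) : c ∈ PK X p q := Or.inr (Or.inr (h.QX h.hc))

lemma cq (h : HalfS X P Q p q c) : c ≠ q := fun h1 => h.qX (h1 ▸ h.QX h.hc)

lemma cp (h : HalfS X P Q p q c) : c ≠ p := fun h1 => h.pX (h1 ▸ h.QX h.hc)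

lemma cP (h : HalfS X P Q p q c) : c ∉ P := fun h1 => disjoint_left.1 h.dis h1 h.hc

lemma Fo (h : HalfS X P Q p q c) : insert q Q ⊆ PK X p q :=
  insert_subset (Or.inr (Or.inl rfl)) (fun _ hx => Or.inr (Or.inr (h.QX hx)))

lemma pF (h : HalfS X P Q p q c) : p ∉ insert q Q := by
  rintro (h1 | h1)
  · exact h.pq h1
  · exact h.pX (h.QX h1)

lemma e1 (h : HalfS X P Q p q c) : PK X p q \ insert q Q = insert p P := by
  have hPX := h.PX
  have hQX := h.QX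
  have hPQ := h.eX
  ext w
  simp only [mem_sdiff, mem_insert_iff, not_or]
  constructor
  · rintro ⟨h1 | h1 | h1, h2, h3⟩
    · exact Or.inl h1
    · exact absurd h1 h2
    · rw [hPQ] at h1
      exact Or.inr (h1.resolve_right h3)
  · rintro (h1 | h1)
    · exact ⟨Or.inl h1, fun h2 => h.pq (h1.symm.trans h2), fun h2 => h.pX (h1 ▸ hQX h2)⟩
    · exact ⟨Or.inr (Or.inr (hPX h1)), fun h2 => h.qX (h2 ▸ hPX h1),
        fun h2 => disjoint_left.1 h.dis h1 h2⟩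

lemma e2 (h : HalfS X P Q p q c) : insert c (PK X p q \ insert q Q) = PK P p c := by
  rw [h.e1]
  exact insert_comm _ _ _

lemma D (h : HalfS X P Q p q c) : insert q Q \ {c} ⊆ PK X p q := fun _ hw => h.Fo hw.1

lemma eK (h : HalfS X P Q p q c) : PK X p q = PK P p c ∪ (insert q Q \ {c}) := by
  rw [← h.e2]
  ext w
  simp only [mem_union, mem_insert_iff, mem_sdiff, mem_singleton_iff, not_or]
  constructor
  · intro h1
    by_cases h2 : w = q ∨ w ∈ Q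
    · by_cases h3 : w = c
      · exact Or.inl (Or.inl h3)
      · exact Or.inr ⟨h2, h3⟩
    · exact Or.inl (Or.inr ⟨h1, fun h3 => h2 (Or.inl h3), fun h3 => h2 (Or.inr h3)⟩)
  · rintro ((h1 | h1) | h1)
    · rw [h1]
      exact h.cK
    · exact h1.1
    · exact h.Fo h1.1

lemma dK (h : HalfS X P Q p q c) : Disjoint (PK P p c) (insert q Q \ {c}) := by
  rw [← h.e2, disjoint_left]
  rintro w (h1 | h1) h2
  · exact h2.2 h1
  · exact h1.2 h2.1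

lemma sub (h : HalfS X P Q p q c) : PK P p c ⊆ PK X p q := by
  rw [h.eK]; exact subset_union_left

end HalfS

lemma PSysB.halfS (h : PSysB N X p q T z) (eX : X = P ∪ Q) (dis : Disjoint P Q) (hc : c ∈ Q) :
    HalfS X P Q p q c := ⟨eX, dis, h.pX, h.qX, h.pq, hc⟩

/-- the cut of the exit -/
lemma PSysB.cut (h : PSysB N X p q T z) (H : HalfS X P Q p q c)
    (hP : ∀ x ∈ P, Eqv N (PK X p q) z p x) (hQ : ∀ x ∈ Q, ¬ Eqv N (PK X p q) z p x) :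
    CutOff N (PK X p q) (insert q Q) z := by
  have hK := h.cir
  have hpK : p ∈ PK X p q := Or.inl rfl
  have hqK : q ∈ PK X p q := Or.inr (Or.inl rfl)
  have hQ' : ∀ x ∈ Q, Eqv N (PK X p q) z q x :=
    fun x hx => (h.exit2 (Or.inr (Or.inr (H.QX hx)))).resolve_left (hQ x hx)
  have hpq : ¬ Eqv N (PK X p q) z p q :=
    fun h1 => hQ c H.hc (h1.trans hK hqK (hQ' c H.hc))
  have hEq : ∀ x ∈ insert q Q, Eqv N (PK X p q) z q x := by
    rintro x (h1 | h1)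
    · exact Or.inl h1.symm
    · exact hQ' x h1
  have e3 : PK X p q \ Cls N (PK X p q) z p = insert q Q := by
    ext w
    constructor
    · rintro ⟨h1, h2⟩
      by_contra h3
      have h4 : w ∈ insert p P := by rw [← H.e1]; exact ⟨h1, h3⟩
      rcases h4 with h4 | h4
      · exact h2 ⟨h1, Or.inl h4.symm⟩
      · exact h2 ⟨h1, hP w h4⟩
    · intro h1
      refine ⟨H.Fo h1, fun h2 => hpq (h2.2.trans hK (H.Fo h1) (hEq w h1).symm)⟩
  refine ⟨H.Fo, h.zK, ?_, ?_⟩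
  · rw [← e3]
    exact cls_circuit hK h.zcl h.zK hpK
  · intro a ha b hb hab
    exact (((hEq a ha).symm.trans hK hqK (hEq b hb)).resolve_left hab)

/-- the relations of the half -/
lemma PSysB.relHalf (_ : PSysB N X p q T z) (H : HalfS X P Q p q c) {s : α} (hs : s ∉ PK X p q) :
    ∀ x ∈ PK P p c, ∀ y ∈ PK P p c,
      (Eqv (N ／ (insert q Q \ {c})) (PK P p c) s x y ↔ Eqv N (PK X p q) s x y) :=
  fun _ hx _ hy => con_eqv H.eK H.dK hx hy (fun h1 => hs (H.D h1))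

/-- the half as a path system, up to the property of the exit -/
lemma PSysB.half (h : PSysB N X p q T z) (H : HalfS X P Q p q c) (hT : T' ⊆ T)
    {d : α} (hd : d ∈ N.closure (PK X p q)) (hdK : d ∉ PK X p q) (hdT : d ∉ T')
    (hpp : PP (N ／ (insert q Q \ {c})) (PK P p c) T' p c d) :
    PSysB (N ／ (insert q Q \ {c})) P p c T' d := by
  have hcF : c ∈ insert q Q := Or.inr H.hc
  refine ⟨?_, fun h1 => h.pX (H.PX h1), H.cP, H.cp.symm, ?_, ?_, ?_, fun h1 => hdK (H.sub h1), hdT,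
    hpp⟩
  · rw [← H.e2]
    exact cir_sub h.cir H.Fo hcF
  · exact fun t ht => con_spans H.eK.subset (h.Tcl (hT ht)) (fun h1 => h.tK (hT ht) (H.D h1))
  · exact h.TK.mono hT H.sub
  · exact con_spans H.eK.subset hd (fun h1 => hdK (H.D h1))

/-- a link is an exit of the half -/
lemma PSysB.newHalf (h : PSysB N X p q T z) (H : HalfS X P Q p q c)
    (hP : ∀ x ∈ P, Eqv N (PK X p q) z p x) (hQ : ∀ x ∈ Q, ¬ Eqv N (PK X p q) z p x) (hT : T' ⊆ T)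
    (hTc : ∀ s ∈ T', Eqv N (PK X p q) s q c) (hd : d ∈ T) (hdc : ¬ Eqv N (PK X p q) d q c) :
    PSysB (N ／ (insert q Q \ {c})) P p c T' d := by
  have hdT : d ∉ T' := fun h1 => hdc (hTc d h1)
  refine h.half H hT (h.Tcl hd) (h.tK hd) hdT ?_
  have h1 := sub_path (T' := T') (d := d) h.pp (h.cut H hP hQ) (Or.inr H.hc) (Or.inl rfl) H.cq H.pF
    hT (fun s hs => (hTc s hs).symm.resolve_left H.cq) h.zT hd (h.tK hd)
    (fun h2 => hdc (Eqv.symm (Or.inr h2))) h.cir.subset_ground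
  rw [H.e2] at h1
  exact h1

/-- an old exit of the half, with the new right end -/
lemma PSysB.oldHalf (h : PSysB N X p q T z) (H : HalfS X P Q p q c) (hT : T' ⊆ T)
    (hTc : ∀ s ∈ T', Eqv N (PK X p q) s q c) (hzc : Eqv N (PK X p q) z q c) :
    PSysB (N ／ (insert q Q \ {c})) P p c T' z := by
  refine h.half H hT h.zcl h.zK (fun h1 => h.zT (hT h1)) ?_
  intro C hC hcir hzC hpC hcC
  obtain ⟨C', h1, h2, h3⟩ := hcir.exists_subset_isCircuit_of_contract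
  have hsubs : ∀ e ∈ C', e ∈ PK X p q ∨ e ∈ T' ∨ e = z := by
    intro e he
    rcases h3 he with h4 | h4
    · rcases hC h4 with (h5 | h5) | h5
      · exact Or.inl (H.sub h5)
      · exact Or.inr (Or.inl h5)
      · exact Or.inr (Or.inr h5)
    · exact Or.inl (H.D h4)
  have hcC' : c ∈ C' := h2 hcC
  by_cases hq : q ∈ C'
  · refine h.pp C' ?_ h1 (h2 hzC) (h2 hpC) hq
    intro e he
    rcases hsubs e he with h5 | h5 | h5
    · exact Or.inl (Or.inl h5)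
    · exact Or.inl (Or.inr (hT h5))
    · exact Or.inr h5
  · have h4 : c ∈ N.closure (PK X p q \ {c, q}) := by
      refine N.closure_subset_closure_of_subset_closure ?_
        (h1.mem_closure_sdiff_singleton_of_mem hcC')
      rintro e ⟨he, hec⟩
      have heq : e ≠ q := fun h5 => hq (h5 ▸ he)
      rcases hsubs e he with h5 | h5 | h5
      · exact N.mem_closure_of_mem' ⟨h5, fun h' => h'.elim hec heq⟩
          (h.cir.subset_ground h5)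
      · exact (hTc e h5).symm.resolve_left H.cq
      · rw [h5]
        exact hzc.symm.resolve_left H.cq
    have h5 := (h.cir.sdiff_singleton_indep (e := q) (Or.inr (Or.inl rfl))).notMem_closure_sdiff_of_mem
      (e := c) ⟨H.cK, H.cq⟩
    refine h5 (N.closure_subset_closure ?_ h4)
    rintro e ⟨he, he2⟩
    exact ⟨⟨he, fun h' => he2 (Or.inr h')⟩, fun h' => he2 (Or.inl h')⟩

/-! ### Witnesses -/

section wit

variable {E : α → α → α → Prop} {L R A A' : α → Set α}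

lemma PWitB.old (h : PWitB E L R A X T z) (hP : P ⊆ X) (hT : T' ⊆ T)
    (hA : ∀ x ∈ P, (x ∈ A' z ↔ x ∈ A z)) : PWitB E L R A' P T' z := by
  obtain ⟨N, p, q, hS, hr⟩ := h
  have hnT : ∀ t ∈ T', t ∉ X \ P := fun t ht h5 => hS.tK (hT ht) (Or.inr (Or.inr h5.1))
  have hnz : z ∉ X \ P := fun h5 => hS.zK (Or.inr (Or.inr h5.1))
  have hX : ∀ x ∈ P, x ∈ PK P p q := fun x hx => Or.inr (Or.inr hx)
  refine ⟨_, p, q, hS.old hP hT, ⟨?_, ?_, ?_, ?_⟩⟩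
  · rintro t (ht | ht) x hx y hy
    · rw [hS.relOld hP (hnT t ht) x (hX x hx) y (hX y hy)]
      exact hr.rE t (Or.inl (hT ht)) x (hP hx) y (hP hy)
    · rw [mem_singleton_iff] at ht
      subst ht
      rw [hS.relOld hP hnz x (hX x hx) y (hX y hy)]
      exact hr.rE t (Or.inr rfl) x (hP hx) y (hP hy)
  · intro t ht x hx
    rw [hS.relOld hP (hnT t ht) p (Or.inl rfl) x (hX x hx)]
    exact hr.rL t (hT ht) x (hP hx)
  · intro t ht x hx
    rw [hS.relOld hP (hnT t ht) q (Or.inr (Or.inl rfl)) x (hX x hx)]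
    exact hr.rR t (hT ht) x (hP hx)
  · intro t ht x hx
    rw [mem_singleton_iff] at ht
    subst ht
    rw [hS.relOld hP hnz p (Or.inl rfl) x (hX x hx), hA x hx]
    exact hr.rA t rfl x (hP hx)

lemma PWitD.old (h : PWitD E L R A X T z z') (hP : P ⊆ X) (hT : T' ⊆ T)
    (hA : ∀ x ∈ P, (x ∈ A' z ↔ x ∈ A z)) (hA2 : ∀ x ∈ P, (x ∈ A' z' ↔ x ∈ A z')) :
    PWitD E L R A' P T' z z' := by
  obtain ⟨N, p, q, hS, hS', hne, hpp, hr⟩ := h
  have hnT : ∀ t ∈ T', t ∉ X \ P := fun t ht h5 => hS.tK (hT ht) (Or.inr (Or.inr h5.1))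
  have hnW : ∀ w ∈ ({z, z'} : Set α), w ∉ X \ P := by
    rintro w (rfl | rfl) h5
    · exact hS.zK (Or.inr (Or.inr h5.1))
    · exact hS'.zK (Or.inr (Or.inr h5.1))
  have hX : ∀ x ∈ P, x ∈ PK P p q := fun x hx => Or.inr (Or.inr hx)
  have hsub : PK P p q ⊆ PK X p q := by rw [pk_old hP]; exact subset_union_left
  have hD : X \ P ⊆ PK X p q := by rw [pk_old hP]; exact subset_union_right
  refine ⟨_, p, q, hS.old hP hT, hS'.old hP hT, hne, hpp.con hsub hD hT, ⟨?_, ?_, ?_, ?_⟩⟩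
  · rintro t (ht | ht) x hx y hy
    · rw [hS.relOld hP (hnT t ht) x (hX x hx) y (hX y hy)]
      exact hr.rE t (Or.inl (hT ht)) x (hP hx) y (hP hy)
    · rw [hS.relOld hP (hnW t ht) x (hX x hx) y (hX y hy)]
      exact hr.rE t (Or.inr ht) x (hP hx) y (hP hy)
  · intro t ht x hx
    rw [hS.relOld hP (hnT t ht) p (Or.inl rfl) x (hX x hx)]
    exact hr.rL t (hT ht) x (hP hx)
  · intro t ht x hx
    rw [hS.relOld hP (hnT t ht) q (Or.inr (Or.inl rfl)) x (hX x hx)]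
    exact hr.rR t (hT ht) x (hP hx)
  · rintro t ht x hx
    rw [hS.relOld hP (hnW t ht) p (Or.inl rfl) x (hX x hx), hr.rA t ht x (hP hx)]
    rcases ht with rfl | rfl
    exacts [(hA x hx).symm, (hA2 x hx).symm]

/-- exchange of the ends -/
lemma PWitB.swap (h : PWitB E L R A X T z) (hz : ∃ x ∈ X, ∃ y ∈ X, ¬ E z x y)
    (hA : ∀ x ∈ X, (x ∈ A' z ↔ x ∉ A z)) : PWitB E R L A' X T z := by
  obtain ⟨N, p, q, hS, hr⟩ := h
  have e : PK X q p = PK X p q := insert_comm _ _ _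
  have hz' : ∃ x ∈ X, ∃ y ∈ X, ¬ Eqv N (PK X p q) z x y := by
    obtain ⟨x, hx, y, hy, h1⟩ := hz
    exact ⟨x, hx, y, hy, fun h2 => h1 ((hr.rE z (Or.inr rfl) x hx y hy).1 h2)⟩
  refine ⟨N, q, p, hS.swap, ⟨?_, ?_, ?_, ?_⟩⟩
  · rw [e]; exact hr.rE
  · rw [e]; exact hr.rR
  · rw [e]; exact hr.rL
  · rw [e]
    intro t ht x hx
    rw [mem_singleton_iff] at ht
    subst ht
    rw [hS.rR hz' hx, hA x hx, hr.rA t rfl x hx]

lemma PWitD.swap (h : PWitD E L R A X T z z') (hz : ∃ x ∈ X, ∃ y ∈ X, ¬ E z x y)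
    (hz' : ∃ x ∈ X, ∃ y ∈ X, ¬ E z' x y) (hA : ∀ x ∈ X, (x ∈ A' z ↔ x ∉ A z))
    (hA2 : ∀ x ∈ X, (x ∈ A' z' ↔ x ∉ A z')) : PWitD E R L A' X T z z' := by
  obtain ⟨N, p, q, hS, hS', hne, hpp, hr⟩ := h
  have e : PK X q p = PK X p q := insert_comm _ _ _
  have sees : ∀ s, (s = z ∨ s = z') → (∃ x ∈ X, ∃ y ∈ X, ¬ E s x y) →
      ∃ x ∈ X, ∃ y ∈ X, ¬ Eqv N (PK X p q) s x y := by
    rintro s hs ⟨x, hx, y, hy, h1⟩
    exact ⟨x, hx, y, hy, fun h2 => h1 ((hr.rE s (Or.inr hs) x hx y hy).1 h2)⟩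
  have g := sees z (Or.inl rfl) hz
  have g' := sees z' (Or.inr rfl) hz'
  refine ⟨N, q, p, hS.swap, hS'.swap, hne, ?_, ⟨?_, ?_, ?_, ?_⟩⟩
  · rw [e]; exact hpp.swap
  · rw [e]; exact hr.rE
  · rw [e]; exact hr.rR
  · rw [e]; exact hr.rL
  · rw [e]
    intro t ht x hx
    have h1 := hr.rA t ht x hx
    rcases ht with ht | ht
    · subst ht
      rw [hS.rR g hx, hA x hx, h1]
    · rw [mem_singleton_iff] at ht
      subst ht
      rw [hS'.rR g' hx, hA2 x hx, h1]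

lemma PWitB.congrA (h : PWitB E L R A X T z) (hA : ∀ x ∈ X, (x ∈ A' z ↔ x ∈ A z)) :
    PWitB E L R A' X T z := h.old (Subset.refl _) (Subset.refl _) hA

lemma PWitD.congrA (h : PWitD E L R A X T z z') (hA : ∀ x ∈ X, (x ∈ A' z ↔ x ∈ A z))
    (hA2 : ∀ x ∈ X, (x ∈ A' z' ↔ x ∈ A z')) : PWitD E L R A' X T z z' :=
  h.old (Subset.refl _) (Subset.refl _) hA hA2

/-- **The left half, one link.** -/
theorem PWitB.newL (h : PWitB E L R A X T z) (hT : T' ⊆ T)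
    (hR : ∀ s ∈ T', ∀ y ∈ X, y ∉ A z → y ∈ R s) (hc : c ∈ X) (hcA : c ∉ A z) (hd : d ∈ T)
    (hcd : c ∉ R d) (hA : ∀ x ∈ X, x ∈ A z → (x ∈ A' d ↔ x ∈ L d)) :
    PWitB E L R A' {x | x ∈ X ∧ x ∈ A z} T' d := by
  obtain ⟨N, p, q, hS, hr⟩ := h
  set P : Set α := {x | x ∈ X ∧ x ∈ A z} with hPdef
  set Q : Set α := {x | x ∈ X ∧ x ∉ A z} with hQdef
  have hPX : ∀ x ∈ P, x ∈ X := fun x hx => hx.1
  have H : HalfS X P Q p q c := by
    refine hS.halfS ?_ ?_ ⟨hc, hcA⟩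
    · ext x
      simp only [hPdef, hQdef, mem_union, mem_ofPred_eq]
      tauto
    · rw [disjoint_left]
      rintro x hx hx'
      exact hx'.2 hx.2
  have hP : ∀ x ∈ P, Eqv N (PK X p q) z p x := fun x hx => (hr.rA z rfl x hx.1).2 hx.2
  have hQ : ∀ x ∈ Q, ¬ Eqv N (PK X p q) z p x := fun x hx h1 => hx.2 ((hr.rA z rfl x hx.1).1 h1)
  have hTc : ∀ s ∈ T', Eqv N (PK X p q) s q c :=
    fun s hs => (hr.rR s (hT hs) c hc).2 (hR s hs c hc hcA)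
  have hdc : ¬ Eqv N (PK X p q) d q c := fun h1 => hcd ((hr.rR d hd c hc).1 h1)
  have hX : ∀ x ∈ P, x ∈ PK P p c := fun x hx => Or.inr (Or.inr hx)
  have hKX : ∀ x ∈ P, x ∈ PK X p q := fun x hx => Or.inr (Or.inr (hPX x hx))
  refine ⟨_, p, c, hS.newHalf H hP hQ hT hTc hd hdc, ⟨?_, ?_, ?_, ?_⟩⟩
  · rintro t ht x hx y hy
    have htT : t ∈ T := by
      rcases ht with ht | ht
      · exact hT ht
      · exact (mem_singleton_iff.1 ht) ▸ hd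
    rw [hS.relHalf H (hS.tK htT) x (hX x hx) y (hX y hy)]
    exact hr.rE t (Or.inl htT) x (hPX x hx) y (hPX y hy)
  · intro t ht x hx
    rw [hS.relHalf H (hS.tK (hT ht)) p (Or.inl rfl) x (hX x hx)]
    exact hr.rL t (hT ht) x (hPX x hx)
  · intro t ht x hx
    rw [hS.relHalf H (hS.tK (hT ht)) c (Or.inr (Or.inl rfl)) x (hX x hx)]
    rw [← hr.rR t (hT ht) x (hPX x hx)]
    exact ⟨fun h1 => (hTc t ht).trans hS.cir H.cK h1,
      fun h1 => (hTc t ht).symm.trans hS.cir (Or.inr (Or.inl rfl)) h1⟩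
  · intro t ht x hx
    rw [mem_singleton_iff] at ht
    subst ht
    rw [hS.relHalf H (hS.tK hd) p (Or.inl rfl) x (hX x hx), hA x hx.1 hx.2]
    exact hr.rL t hd x (hPX x hx)

/-- **The left half, two links (SUB2).** -/
theorem PWitD.newL (h : PWitD E L R A X T z₀ z₁) (h01 : ∀ x ∈ X, x ∈ A z₀ → x ∈ A z₁)
    (hT : T' ⊆ T) (hR : ∀ s ∈ T', ∀ y ∈ X, y ∉ A z₀ → y ∈ R s) (hc : c ∈ X) (hc0 : c ∉ A z₀)
    (hc1 : c ∈ A z₁) (hx : x ∈ X) (hx1 : x ∉ A z₁) (ht : t ∈ T) (ht' : t' ∈ T) (e1 : E t' c x)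
    (e2 : ¬ E t c x) (e3 : x ∈ R t) (e4 : x ∉ R t')
    (hA : ∀ x ∈ X, x ∈ A z₀ → (x ∈ A' t ↔ x ∈ L t))
    (hA2 : ∀ x ∈ X, x ∈ A z₀ → (x ∈ A' t' ↔ x ∈ L t')) :
    PWitD E L R A' {x | x ∈ X ∧ x ∈ A z₀} T' t t' := by
  obtain ⟨N, p, q, hS, hS', hne, hpp, hr⟩ := h
  set P : Set α := {x | x ∈ X ∧ x ∈ A z₀} with hPdef
  set Q : Set α := {x | x ∈ X ∧ x ∉ A z₀} with hQdef
  set P₁ : Set α := {x | x ∈ X ∧ x ∈ A z₁} with hP1def
  set Q₁ : Set α := {x | x ∈ X ∧ x ∉ A z₁} with hQ1def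
  have hPX : ∀ x ∈ P, x ∈ X := fun x hx => hx.1
  have hpK : p ∈ PK X p q := Or.inl rfl
  have hqK : q ∈ PK X p q := Or.inr (Or.inl rfl)
  have H : HalfS X P Q p q c := by
    refine hS.halfS ?_ ?_ ⟨hc, hc0⟩
    · ext x
      simp only [hPdef, hQdef, mem_union, mem_ofPred_eq]
      tauto
    · rw [disjoint_left]
      rintro x hx hx'
      exact hx'.2 hx.2
  have H₁ : HalfS X P₁ Q₁ p q x := by
    refine hS.halfS ?_ ?_ ⟨hx, hx1⟩
    · ext x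
      simp only [hP1def, hQ1def, mem_union, mem_ofPred_eq]
      tauto
    · rw [disjoint_left]
      rintro x hx hx'
      exact hx'.2 hx.2
  have z0 : z₀ ∈ ({z₀, z₁} : Set α) := Or.inl rfl
  have z1 : z₁ ∈ ({z₀, z₁} : Set α) := Or.inr rfl
  have hP : ∀ x ∈ P, Eqv N (PK X p q) z₀ p x := fun x hx => (hr.rA z₀ z0 x hx.1).2 hx.2
  have hQ : ∀ x ∈ Q, ¬ Eqv N (PK X p q) z₀ p x :=
    fun x hx h1 => hx.2 ((hr.rA z₀ z0 x hx.1).1 h1)
  have hP₁ : ∀ x ∈ P₁, Eqv N (PK X p q) z₁ p x := fun x hx => (hr.rA z₁ z1 x hx.1).2 hx.2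
  have hQ₁ : ∀ x ∈ Q₁, ¬ Eqv N (PK X p q) z₁ p x :=
    fun x hx h1 => hx.2 ((hr.rA z₁ z1 x hx.1).1 h1)
  have hTc : ∀ s ∈ T', Eqv N (PK X p q) s q c :=
    fun s hs => (hr.rR s (hT hs) c hc).2 (hR s hs c hc hc0)
  have hx0 : x ∉ A z₀ := fun h1 => hx1 (h01 x hx h1)
  have hTx : ∀ s ∈ T', Eqv N (PK X p q) s q x :=
    fun s hs => (hr.rR s (hT hs) x hx).2 (hR s hs x hx hx0)
  have hcx : c ≠ x := fun h1 => hx1 (h1 ▸ hc1)
  have hxq : x ≠ q := H₁.cq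
  have f1 : Eqv N (PK X p q) t' c x := (hr.rE t' (Or.inl ht') c hc x hx).2 e1
  have f2 : ¬ Eqv N (PK X p q) t c x := fun h1 => e2 ((hr.rE t (Or.inl ht) c hc x hx).1 h1)
  have f3 : Eqv N (PK X p q) t q x := (hr.rR t ht x hx).2 e3
  have f4 : ¬ Eqv N (PK X p q) t' q x := fun h1 => e4 ((hr.rR t' ht' x hx).1 h1)
  have hxK : x ∈ PK X p q := H₁.cK
  have g1 : ¬ Eqv N (PK X p q) t q c := fun h1 => f2 (h1.symm.trans hS.cir hqK f3)
  have g2 : ¬ Eqv N (PK X p q) t' q c := fun h1 => f4 (h1.trans hS.cir H.cK f1)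
  have hX : ∀ x ∈ P, x ∈ PK P p c := fun x hx => Or.inr (Or.inr hx)
  have htt : t ≠ t' := fun h1 => f2 (h1 ▸ f1)
  refine ⟨_, p, c, hS.newHalf H hP hQ hT hTc ht g1, hS.newHalf H hP hQ hT hTc ht' g2, htt, ?_,
    ⟨?_, ?_, ?_, ?_⟩⟩
  · have h1 := hpp.sub2 (T' := T') (c := c) (x := x) (t := t) (t' := t') (hS.cut H hP hQ)
      (hS'.cut H₁ hP₁ hQ₁) ?_ (Or.inr ⟨hc, hc0⟩) ?_ (Or.inr ⟨hx, hx1⟩) (Or.inl rfl) hxq H.pF hT ht
      ht' hS.zT hS'.zT hne (hS.tK ht) (hS.tK ht') hS.cir.subset_ground ?_ (f1.resolve_left hcx)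
      (fun h2 => f2 (Or.inr h2)) ?_ (f3.symm.resolve_left hxq)
      (fun h2 => f4 (Eqv.symm (Or.inr h2)))
    · rw [H.e2] at h1
      exact h1
    · exact insert_subset_insert fun y hy => ⟨hy.1, fun h2 => hy.2 (h01 y hy.1 h2)⟩
    · rintro (h2 | h2)
      · exact H.cq h2
      · exact h2.2 hc1
    · exact fun s hs => ((hTc s hs).symm.trans hS.cir hqK (hTx s hs)).resolve_left hcx
    · exact fun s hs => (hTx s hs).symm.resolve_left hxq
  · rintro s hs y hy w hw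
    have hsT : s ∈ T := by
      rcases hs with hs | hs | hs
      · exact hT hs
      · exact hs ▸ ht
      · exact (mem_singleton_iff.1 hs) ▸ ht'
    rw [hS.relHalf H (hS.tK hsT) y (hX y hy) w (hX w hw)]
    exact hr.rE s (Or.inl hsT) y (hPX y hy) w (hPX w hw)
  · intro s hs y hy
    rw [hS.relHalf H (hS.tK (hT hs)) p (Or.inl rfl) y (hX y hy)]
    exact hr.rL s (hT hs) y (hPX y hy)
  · intro s hs y hy
    rw [hS.relHalf H (hS.tK (hT hs)) c (Or.inr (Or.inl rfl)) y (hX y hy)]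
    rw [← hr.rR s (hT hs) y (hPX y hy)]
    exact ⟨fun h1 => (hTc s hs).trans hS.cir H.cK h1,
      fun h1 => (hTc s hs).symm.trans hS.cir (Or.inr (Or.inl rfl)) h1⟩
  · intro s hs y hy
    rcases hs with hs | hs
    · subst hs
      rw [hS.relHalf H (hS.tK ht) p (Or.inl rfl) y (hX y hy), hA y hy.1 hy.2]
      exact hr.rL s ht y (hPX y hy)
    · rw [mem_singleton_iff] at hs
      subst hs
      rw [hS.relHalf H (hS.tK ht') p (Or.inl rfl) y (hX y hy), hA2 y hy.1 hy.2]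
      exact hr.rL s ht' y (hPX y hy)

/-- **The left half, an old exit and a link (SUB2').** -/
theorem PWitD.linkL (h : PWitD E L R A X T z₀ z') (hT : T' ⊆ T)
    (hR : ∀ s ∈ T', ∀ y ∈ X, y ∉ A z₀ → y ∈ R s) (hc : c ∈ X) (hc0 : c ∉ A z₀) (hc1 : c ∉ A z')
    (ht : t ∈ T) (hct : c ∉ R t) (hA : ∀ x ∈ X, x ∈ A z₀ → (x ∈ A' z' ↔ x ∈ A z'))
    (hA2 : ∀ x ∈ X, x ∈ A z₀ → (x ∈ A' t ↔ x ∈ L t)) :
    PWitD E L R A' {x | x ∈ X ∧ x ∈ A z₀} T' z' t := by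
  obtain ⟨N, p, q, hS, hS', hne, hpp, hr⟩ := h
  set P : Set α := {x | x ∈ X ∧ x ∈ A z₀} with hPdef
  set Q : Set α := {x | x ∈ X ∧ x ∉ A z₀} with hQdef
  have hPX : ∀ x ∈ P, x ∈ X := fun x hx => hx.1
  have hpK : p ∈ PK X p q := Or.inl rfl
  have hqK : q ∈ PK X p q := Or.inr (Or.inl rfl)
  have H : HalfS X P Q p q c := by
    refine hS.halfS ?_ ?_ ⟨hc, hc0⟩
    · ext x
      simp only [hPdef, hQdef, mem_union, mem_ofPred_eq]
      tauto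
    · rw [disjoint_left]
      rintro x hx hx'
      exact hx'.2 hx.2
  have z0 : z₀ ∈ ({z₀, z'} : Set α) := Or.inl rfl
  have z1 : z' ∈ ({z₀, z'} : Set α) := Or.inr rfl
  have hP : ∀ x ∈ P, Eqv N (PK X p q) z₀ p x := fun x hx => (hr.rA z₀ z0 x hx.1).2 hx.2
  have hQ : ∀ x ∈ Q, ¬ Eqv N (PK X p q) z₀ p x :=
    fun x hx h1 => hx.2 ((hr.rA z₀ z0 x hx.1).1 h1)
  have hTc : ∀ s ∈ T', Eqv N (PK X p q) s q c :=
    fun s hs => (hr.rR s (hT hs) c hc).2 (hR s hs c hc hc0)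
  have hzc : Eqv N (PK X p q) z' q c :=
    (hS'.exit2 H.cK).resolve_left fun h1 => hc1 ((hr.rA z' z1 c hc).1 h1)
  have g1 : ¬ Eqv N (PK X p q) t q c := fun h1 => hct ((hr.rR t ht c hc).1 h1)
  have hX : ∀ x ∈ P, x ∈ PK P p c := fun x hx => Or.inr (Or.inr hx)
  have hzt : z' ≠ t := fun h1 => hS'.zT (h1 ▸ ht)
  refine ⟨_, p, c, hS'.oldHalf H hT hTc hzc, hS.newHalf H hP hQ hT hTc ht g1, hzt, ?_,
    ⟨?_, ?_, ?_, ?_⟩⟩
  · have h1 := hpp.sub2' (T' := T') (c := c) (t := t) (hS.cut H hP hQ) (Or.inr ⟨hc, hc0⟩)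
      (Or.inl rfl) H.cq H.pF hT ht hS.zT hS'.zK hne (hS.tK ht) hS.cir.subset_ground
      (fun s hs => (hTc s hs).symm.resolve_left H.cq) (hzc.symm.resolve_left H.cq)
      (fun h2 => g1 (Eqv.symm (Or.inr h2)))
    rw [H.e2] at h1
    exact h1
  · rintro s hs y hy w hw
    have hsK : s ∉ PK X p q := by
      rcases hs with hs | hs | hs
      · exact hS.tK (hT hs)
      · exact hs ▸ hS'.zK
      · exact (mem_singleton_iff.1 hs) ▸ hS.tK ht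
    rw [hS.relHalf H hsK y (hX y hy) w (hX w hw)]
    refine hr.rE s ?_ y (hPX y hy) w (hPX w hw)
    rcases hs with hs | hs | hs
    · exact Or.inl (hT hs)
    · exact Or.inr (hs ▸ z1)
    · exact Or.inl ((mem_singleton_iff.1 hs) ▸ ht)
  · intro s hs y hy
    rw [hS.relHalf H (hS.tK (hT hs)) p (Or.inl rfl) y (hX y hy)]
    exact hr.rL s (hT hs) y (hPX y hy)
  · intro s hs y hy
    rw [hS.relHalf H (hS.tK (hT hs)) c (Or.inr (Or.inl rfl)) y (hX y hy)]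
    rw [← hr.rR s (hT hs) y (hPX y hy)]
    exact ⟨fun h1 => (hTc s hs).trans hS.cir H.cK h1,
      fun h1 => (hTc s hs).symm.trans hS.cir (Or.inr (Or.inl rfl)) h1⟩
  · intro s hs y hy
    rcases hs with hs | hs
    · subst hs
      rw [hS.relHalf H hS'.zK p (Or.inl rfl) y (hX y hy), hA y hy.1 hy.2]
      exact hr.rA s z1 y (hPX y hy)
    · rw [mem_singleton_iff] at hs
      subst hs
      rw [hS.relHalf H (hS.tK ht) p (Or.inl rfl) y (hX y hy), hA2 y hy.1 hy.2]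
      exact hr.rL s ht y (hPX y hy)

/-! ### Mirror images -/

/-- **The right half, one link.** -/
theorem PWitB.newR (h : PWitB E L R A X T z) (hz : ∃ x ∈ X, ∃ y ∈ X, ¬ E z x y) (hT : T' ⊆ T)
    (hL : ∀ s ∈ T', ∀ y ∈ X, y ∈ A z → y ∈ L s) (hc : c ∈ X) (hcA : c ∈ A z) (hd : d ∈ T)
    (hcd : c ∉ L d) (hs : ∃ x ∈ X, x ∉ A z ∧ ∃ y ∈ X, y ∉ A z ∧ ¬ E d x y)
    (hA : ∀ x ∈ X, x ∉ A z → (x ∈ A' d ↔ x ∉ R d)) :
    PWitB E L R A' {x | x ∈ X ∧ x ∉ A z} T' d := by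
  have h1 := h.swap (A' := fun w => (A w)ᶜ) hz (fun x _ => Iff.rfl)
  have h2 := h1.newL (A' := R) hT (fun s hs y hy hyA => hL s hs y hy (not_not.1 hyA)) hc
    (not_not.2 hcA) hd hcd (fun x _ _ => Iff.rfl)
  have e : {x | x ∈ X ∧ x ∈ (A z)ᶜ} = {x | x ∈ X ∧ x ∉ A z} := rfl
  rw [e] at h2
  obtain ⟨x, hx, hxA, y, hy, hyA, hE⟩ := hs
  exact h2.swap ⟨x, ⟨hx, hxA⟩, y, ⟨hy, hyA⟩, hE⟩ (fun w hw => hA w hw.1 hw.2)

/-- **The right half, two links (SUB2).** -/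
theorem PWitD.newR (h : PWitD E L R A X T z₀ z₁) (hz : ∃ x ∈ X, ∃ y ∈ X, ¬ E z₀ x y)
    (hz' : ∃ x ∈ X, ∃ y ∈ X, ¬ E z₁ x y) (h01 : ∀ x ∈ X, x ∈ A z₁ → x ∈ A z₀)
    (hT : T' ⊆ T) (hL : ∀ s ∈ T', ∀ y ∈ X, y ∈ A z₀ → y ∈ L s) (hc : c ∈ X) (hc0 : c ∈ A z₀)
    (hc1 : c ∉ A z₁) (hx : x ∈ X) (hx1 : x ∈ A z₁) (ht : t ∈ T) (ht' : t' ∈ T) (e1 : E t' c x)
    (e2 : ¬ E t c x) (e3 : x ∈ L t) (e4 : x ∉ L t')
    (hs : ∃ x ∈ X, x ∉ A z₀ ∧ ∃ y ∈ X, y ∉ A z₀ ∧ ¬ E t x y)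
    (hs' : ∃ x ∈ X, x ∉ A z₀ ∧ ∃ y ∈ X, y ∉ A z₀ ∧ ¬ E t' x y)
    (hA : ∀ x ∈ X, x ∉ A z₀ → (x ∈ A' t ↔ x ∉ R t))
    (hA2 : ∀ x ∈ X, x ∉ A z₀ → (x ∈ A' t' ↔ x ∉ R t')) :
    PWitD E L R A' {x | x ∈ X ∧ x ∉ A z₀} T' t t' := by
  have h1 := h.swap (A' := fun w => (A w)ᶜ) hz hz' (fun x _ => Iff.rfl) (fun x _ => Iff.rfl)
  have h2 := h1.newL (A' := R) (fun x hx hxA hx2 => hxA (h01 x hx hx2)) hT
    (fun s hs y hy hyA => hL s hs y hy (not_not.1 hyA)) hc (not_not.2 hc0) hc1 hx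
    (not_not.2 hx1) ht ht' e1 e2 e3 e4 (fun x _ _ => Iff.rfl) (fun x _ _ => Iff.rfl)
  have e : {x | x ∈ X ∧ x ∈ (A z₀)ᶜ} = {x | x ∈ X ∧ x ∉ A z₀} := rfl
  rw [e] at h2
  obtain ⟨x, hx, hxA, y, hy, hyA, hE⟩ := hs
  obtain ⟨x', hx', hxA', y', hy', hyA', hE'⟩ := hs'
  exact h2.swap ⟨x, ⟨hx, hxA⟩, y, ⟨hy, hyA⟩, hE⟩ ⟨x', ⟨hx', hxA'⟩, y', ⟨hy', hyA'⟩, hE'⟩
    (fun w hw => hA w hw.1 hw.2) (fun w hw => hA2 w hw.1 hw.2)

/-- **The right half, an old exit and a link (SUB2').** -/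
theorem PWitD.linkR (h : PWitD E L R A X T z₀ z') (hz : ∃ x ∈ X, ∃ y ∈ X, ¬ E z₀ x y)
    (hz' : ∃ x ∈ X, ∃ y ∈ X, ¬ E z' x y) (hT : T' ⊆ T)
    (hL : ∀ s ∈ T', ∀ y ∈ X, y ∈ A z₀ → y ∈ L s) (hc : c ∈ X) (hc0 : c ∈ A z₀) (hc1 : c ∈ A z')
    (ht : t ∈ T) (hct : c ∉ L t)
    (hs : ∃ x ∈ X, x ∉ A z₀ ∧ ∃ y ∈ X, y ∉ A z₀ ∧ ¬ E z' x y)
    (hs' : ∃ x ∈ X, x ∉ A z₀ ∧ ∃ y ∈ X, y ∉ A z₀ ∧ ¬ E t x y)
    (hA : ∀ x ∈ X, x ∉ A z₀ → (x ∈ A' z' ↔ x ∈ A z'))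
    (hA2 : ∀ x ∈ X, x ∉ A z₀ → (x ∈ A' t ↔ x ∉ R t)) :
    PWitD E L R A' {x | x ∈ X ∧ x ∉ A z₀} T' z' t := by
  classical
  have hne : z' ≠ t := by
    obtain ⟨N, p, q, hS, hS', -⟩ := h
    exact fun h1 => hS'.zT (h1 ▸ ht)
  have h1 := h.swap (A' := fun w => (A w)ᶜ) hz hz' (fun x _ => Iff.rfl) (fun x _ => Iff.rfl)
  have h2 := h1.linkL (A' := fun w => if w = t then R t else (A w)ᶜ) hT
    (fun s hs y hy hyA => hL s hs y hy (not_not.1 hyA)) hc (not_not.2 hc0) (not_not.2 hc1) ht hct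
    (fun x _ _ => by rw [if_neg hne]) (fun x _ _ => by rw [if_pos rfl])
  have e : {x | x ∈ X ∧ x ∈ (A z₀)ᶜ} = {x | x ∈ X ∧ x ∉ A z₀} := rfl
  rw [e] at h2
  obtain ⟨x, hx, hxA, y, hy, hyA, hE⟩ := hs
  obtain ⟨x', hx', hxA', y', hy', hyA', hE'⟩ := hs'
  refine h2.swap ⟨x, ⟨hx, hxA⟩, y, ⟨hy, hyA⟩, hE⟩ ⟨x', ⟨hx', hxA'⟩, y', ⟨hy', hyA'⟩, hE'⟩ ?_ ?_
  · intro w hw
    rw [if_neg hne, hA w hw.1 hw.2]
    exact (not_not (a := w ∈ A z')).symm
  · intro w hw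
    rw [if_pos rfl]
    exact hA2 w hw.1 hw.2

end wit

end TST
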