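import Pool.Agent.TST.StarOut
import Pool.Agent.TST.StarStep

/-!
# Witnesses of pairs on a row, from the star (CLAIM A of T-star, near step; helper63)

Star system with the legs `X l`, exit `z` with its witness `TWit`.  The row of the leg `l`: the left
end is the far end of the leg, the right end is at the centre.  `RowEl` = elements of the row.

* `TWit.rowD_near`: two near elements `i` - `l` which differ at `c` in the part of the leg `i` cut
  off by `z`;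
* `TWit.rowD_mixed`: a near element `i` - `l` and a near element `k` - `l`;
* `TWit.rowD_exit`: the exit `z` and a near element;
* `TWit.outD`, `TWit.outD_near`: pairs of the outer cell of the leg `i`, behind `z`.
-/

set_option autoImplicit false

open Set
open scoped Matroid

namespace TST

variable {α : Type*} {N : Matroid α} {X : Fin 3 → Set α} {o : Fin 3 → α} {T T' W' : Set α}
  {E : α → α → α → Prop} {O A : α → Fin 3 → Set α} {B : α → α → α → α → Prop}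
  {L R A' : α → Set α} {z t t' c d f q x : α} {i k l : Fin 3}

/-- **The elements of the row `l`, in the star**: constant on the two other legs; `L` = class of the
far end, `R` = class of the end at the centre -/
structure RowEl (O : α → Fin 3 → Set α) (B : α → α → α → α → Prop) (X : Fin 3 → Set α)
    (T : Set α) (l : Fin 3) (L R : α → Set α) (T' : Set α) : Prop where
  sub : T' ⊆ T
  oth : ∀ s ∈ T', ∀ j, j ≠ l → ∀ x ∈ X j, x ∈ O s j
  lft : ∀ s ∈ T', ∀ x ∈ X l, (x ∈ L s ↔ x ∈ O s l)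
  rgt : ∀ s ∈ T', ∀ v : Fin 3 → α, (∀ j, v j ∈ X j) → (v l ∈ R s ↔ B s (v 0) (v 1) (v 2))

lemma ex_trip (hil : i ≠ l) (hik : i ≠ k) (hlk : l ≠ k) (hx : x ∈ X l) (hf : f ∈ X i)
    (hq : q ∈ X k) : ∃ v : Fin 3 → α, (∀ j, v j ∈ X j) ∧ v l = x ∧ v i = f ∧ v k = q := by
  refine ⟨fun j => if j = l then x else if j = i then f else q, ?_, if_pos rfl, ?_, ?_⟩
  · intro j
    rcases fin3 hil hik hlk j with rfl | rfl | rfl
    · simp only [if_neg hil, if_true]
      exact hf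
    · simp only [if_true]
      exact hx
    · simp only [if_neg hlk.symm, if_neg hik.symm]
      exact hq
  · simp only [if_neg hil, if_true]
  · simp only [if_neg hlk.symm, if_neg hik.symm]

namespace WD

lemma cl_iff (h : WD E O A B X T z N o) (ht : t ∈ T) (hil : i ≠ l) (hik : i ≠ k) (hlk : l ≠ k)
    {v : Fin 3 → α} (hv : ∀ j, v j ∈ X j) :
    t ∈ N.closure (TK X o \ {v l, v i, v k}) ↔ B t (v 0) (v 1) (v 2) := by
  rw [trip (f := v) hil.symm hlk hik rfl rfl rfl]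
  exact h.hB t ht _ (hv 0) _ (hv 1) _ (hv 2)

/-- relations of the row -/
lemma rowRel (h : WD E O A B X T z N o) (hr : RowEl O B X T l L R T') (hil : i ≠ l) (hik : i ≠ k)
    (hlk : l ≠ k) (hf : f ∈ X i) (hq : q ∈ X k)
    (hW : ∀ d ∈ W', (d ∈ T ∧ ∀ x ∈ X l, (x ∈ A' d ↔ x ∈ O d l)) ∨
      (d = z ∧ ∀ x ∈ X l, (x ∈ A' d ↔ x ∈ A z l))) :
    PRel E L R A' (N ／ rA (leg X o i) (leg X o k) f q) (X l) (o l) q T' W' := by
  have hT := h.hs.tri hil hik hlk
  have e : PK (X l) (o l) q = insert q (leg X o l) := insert_comm _ _ _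
  have nA : ∀ s, s ∉ TK X o → s ∉ rA (leg X o i) (leg X o k) f q :=
    fun s hs h1 => hs (hT.th.rA_sub h1)
  have fl : f ∈ leg X o i := Or.inr hf
  have ql : q ∈ leg X o k := Or.inr hq
  have hWK : ∀ d ∈ W', d ∉ TK X o := by
    intro d hd
    rcases hW d hd with h1 | h1
    · exact h.tK h1.1
    · rw [h1.1]; exact h.hs.zK
  refine ⟨?_, ?_, ?_, ?_⟩
  · rintro s (hs | hs) x hx y hy
    · rw [e, hT.th.rowEqv fl ql (Or.inr hx) (Or.inr hy) (nA s (h.tK (hr.sub hs)))]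
      exact h.hE s (Or.inr (hr.sub hs)) l x hx y hy
    · rw [e, hT.th.rowEqv fl ql (Or.inr hx) (Or.inr hy) (nA s (hWK s hs))]
      rcases hW s hs with h1 | h1
      · exact h.hE s (Or.inr h1.1) l x hx y hy
      · exact h.hE s (Or.inl h1.1) l x hx y hy
  · intro s hs x hx
    rw [e, hT.th.rowEqv fl ql (Or.inl rfl) (Or.inr hx) (nA s (h.tK (hr.sub hs))),
      h.hO s (hr.sub hs) l x hx]
    exact (hr.lft s hs x hx).symm
  · intro s hs x hx
    rw [e, hT.th.rowEqvQ fl ql (Or.inr hx) (nA s (h.tK (hr.sub hs)))]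
    obtain ⟨v, hv, h1, h2, h3⟩ := ex_trip hil hik hlk hx hf hq
    have h4 := h.cl_iff (hr.sub hs) hil hik hlk hv
    rw [h1, h2, h3] at h4
    rw [h4, ← hr.rgt s hs v hv, h1]
  · intro s hs x hx
    rw [e, hT.th.rowEqv fl ql (Or.inl rfl) (Or.inr hx) (nA s (hWK s hs))]
    rcases hW s hs with h1 | h1
    · rw [h.hO s h1.1 l x hx]
      exact (h1.2 x hx).symm
    · rw [h1.2 x hx, h1.1]
      exact h.hA l x hx

/-- the row as a path system -/
lemma rowSys (h : WD E O A B X T z N o) (hr : RowEl O B X T l L R T') (hil : i ≠ l) (hik : i ≠ k)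
    (hlk : l ≠ k) (hf : f ∈ X i) (hq : q ∈ X k) (hd : d ∈ N.closure (TK X o)) (hdK : d ∉ TK X o)
    (hdT : d ∉ T')
    (hpp : PP (N ／ rA (leg X o i) (leg X o k) f q) (insert q (leg X o l)) T' (o l) q d) :
    PSysB (N ／ rA (leg X o i) (leg X o k) f q) (X l) (o l) q T' d := by
  have hT := h.hs.tri hil hik hlk
  have e : PK (X l) (o l) q = insert q (leg X o l) := insert_comm _ _ _
  have fl : f ∈ leg X o i := Or.inr hf
  have ql : q ∈ leg X o k := Or.inr hq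
  have hql : q ∉ leg X o l := fun h1 => disjoint_left.1 hT.th.dGH h1 ql
  have hsub : insert q (leg X o l) ⊆ TK X o := by
    rintro v (hv | hv)
    · exact hv ▸ leg_sub k ql
    · exact leg_sub l hv
  have nA : ∀ s, s ∉ TK X o → s ∉ rA (leg X o i) (leg X o k) f q :=
    fun s hs h1 => hs (hT.th.rA_sub h1)
  refine ⟨?_, h.hs.oX l, fun h1 => hql (Or.inr h1), fun h1 => hql (Or.inl h1.symm), ?_, ?_, ?_, ?_,
    hdT, ?_⟩
  · rw [e]
    exact hT.th.rowCir fl ql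
  · intro s hs
    rw [e]
    exact hT.th.rowCl fl ql (h.hs.Tcl (hr.sub hs)) (nA s (h.tK (hr.sub hs)))
  · rw [e, disjoint_left]
    exact fun s hs h1 => h.tK (hr.sub hs) (hsub h1)
  · rw [e]
    exact hT.th.rowCl fl ql hd (nA d hdK)
  · rw [e]
    exact fun h1 => hdK (hsub h1)
  · rw [e]
    exact hpp

/-- class of the end, for the elements of the row -/
lemma oth (h : WD E O A B X T z N o) (hr : RowEl O B X T l L R T') {j : Fin 3} (hj : j ≠ l) {x s : α}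
    (hx : x ∈ X j) (hs : s ∈ T') : Eqv N (TK X o) s x (o j) :=
  (h.hO' (hr.sub hs) hx).2 (hr.oth s hs j hj x hx)

/-- PP for a near element with its other place in the leg `i` -/
lemma nearB (h : WD E O A B X T z N o) (hr : RowEl O B X T l L R T') (hil : i ≠ l) (hik : i ≠ k)
    (hlk : l ≠ k) (hf : f ∈ X i) (hq : q ∈ X k) (ht : t ∈ T) (htf : f ∉ O t i) (htq : q ∈ O t k) :
    PSysB (N ／ rA (leg X o i) (leg X o k) f q) (X l) (o l) q T' t := by
  have hT := h.hs.tri hil hik hlk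
  refine h.rowSys hr hil hik hlk hf hq (h.hs.Tcl ht) (h.tK ht) ?_ ?_
  · exact fun h1 => htf (hr.oth t h1 i hil f hf)
  · exact hT.rowPP (Or.inr hf) (Or.inr hq) ht (fun h1 => htf ((h.hO' ht hf).1 h1))
      ((h.hO' ht hq).2 htq) hr.sub (fun s hs => h.oth hr hil hf hs)
      (fun s hs => h.oth hr hlk.symm hq hs)

/-- PP for a near element with its other place in the leg `k`, the right end is still `q` -/
lemma nearB' (h : WD E O A B X T z N o) (hr : RowEl O B X T l L R T') (hil : i ≠ l) (hik : i ≠ k)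
    (hlk : l ≠ k) (hf : f ∈ X i) (hq : q ∈ X k) (ht : t ∈ T) (htf : f ∈ O t i) (htq : q ∉ O t k) :
    PSysB (N ／ rA (leg X o i) (leg X o k) f q) (X l) (o l) q T' t := by
  have hT := h.hs.tri hil hik hlk
  have hT2 := h.hs.tri hlk.symm hik.symm hil.symm
  have fl : f ∈ leg X o i := Or.inr hf
  have ql : q ∈ leg X o k := Or.inr hq
  refine h.rowSys hr hil hik hlk hf hq (h.hs.Tcl ht) (h.tK ht) ?_ ?_
  · exact fun h1 => htq (hr.oth t h1 k hlk.symm q hq)
  have h1 := hT2.rowPP ql fl ht (fun h1 => htq ((h.hO' ht hq).1 h1))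
      ((h.hO' ht hf).2 htf) hr.sub (fun s hs => h.oth hr hlk.symm hq hs)
      (fun s hs => h.oth hr hil hf hs)
  rw [rA_comm] at h1
  intro C hCs hC htC h2C hqC
  have hfK : f ∈ TK X o := leg_sub i fl
  have hqK : q ∈ TK X o := leg_sub k ql
  have hfC : f ∉ C := by
    intro h4
    rcases hCs h4 with ((h5 | h5) | h5) | h5
    · exact disjoint_left.1 hT.th.dFH fl (h5 ▸ ql)
    · exact disjoint_left.1 hT.th.dFG fl h5
    · exact h.tK (hr.sub h5) hfK
    · exact h.tK ht (h5 ▸ hfK)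
  have hC2 := hT.th.rowRepl fl ql hC hqC hfC
  have ho2q : o l ≠ q := fun h5 => disjoint_left.1 hT.th.dGH (Or.inl rfl) (h5.symm ▸ ql)
  refine h1 _ ?_ hC2 (Or.inr ⟨htC, ?_⟩) (Or.inr ⟨h2C, ho2q⟩) (Or.inl rfl)
  · rintro v (hv | ⟨hv, hvq⟩)
    · exact Or.inl (Or.inl (Or.inl hv))
    · rcases hCs hv with ((h5 | h5) | h5) | h5
      · exact absurd h5 hvq
      · exact Or.inl (Or.inl (Or.inr h5))
      · exact Or.inl (Or.inr h5)
      · exact Or.inr h5
  · exact fun h5 => h.tK ht (h5 ▸ hqK)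

/-- the exit as an exit of the row -/
lemma exitB (h : WD E O A B X T z N o) (hr : RowEl O B X T l L R T') (hil : i ≠ l) (hik : i ≠ k)
    (hlk : l ≠ k) (hf : f ∈ X i) (hq : q ∈ X k) (hzq : q ∈ A z k) :
    PSysB (N ／ rA (leg X o i) (leg X o k) f q) (X l) (o l) q T' z := by
  have hT := h.hs.tri hil hik hlk
  refine h.rowSys hr hil hik hlk hf hq h.hs.zcl h.hs.zK (fun h1 => h.hs.zT (hr.sub h1)) ?_
  exact hT.rowPP_exit (Or.inr hq) ((h.hA k q hq).2 hzq).symm hr.sub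
    (fun s hs => h.oth hr hlk.symm hq hs)

end WD

/-! ### inner cell -/

/-- **A near element**, alone. -/
theorem TWit.rowB_near (h : TWit E O A B X T z) (hr : RowEl O B X T l L R T') (hil : i ≠ l)
    (hik : i ≠ k) (hlk : l ≠ k) (hf : f ∈ X i) (hq : q ∈ X k) (ht : t ∈ T) (htf : f ∉ O t i)
    (htq : q ∈ O t k) (hA : ∀ x ∈ X l, (x ∈ A' t ↔ x ∈ O t l)) : PWitB E L R A' (X l) T' t := by
  obtain ⟨N, o, h⟩ := h.wd
  exact ⟨_, _, _, h.nearB hr hil hik hlk hf hq ht htf htq,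
    h.rowRel hr hil hik hlk hf hq fun d hd => Or.inl ⟨hd ▸ ht, hd ▸ hA⟩⟩

/-- **The exit**, alone. -/
theorem TWit.rowB_exit (h : TWit E O A B X T z) (hr : RowEl O B X T l L R T') (hil : i ≠ l)
    (hik : i ≠ k) (hlk : l ≠ k) (hf : f ∈ X i) (hq : q ∈ X k) (hzq : q ∈ A z k)
    (hA : ∀ x ∈ X l, (x ∈ A' z ↔ x ∈ A z l)) : PWitB E L R A' (X l) T' z := by
  obtain ⟨N, o, h⟩ := h.wd
  exact ⟨_, _, _, h.exitB hr hil hik hlk hf hq hzq,
    h.rowRel hr hil hik hlk hf hq fun d hd => Or.inr ⟨hd, hd ▸ hA⟩⟩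

/-- **The exit and a near element** (its other place is in the leg `i`). -/
theorem TWit.rowD_exit (h : TWit E O A B X T z) (hr : RowEl O B X T l L R T') (hil : i ≠ l)
    (hik : i ≠ k) (hlk : l ≠ k) (hf : f ∈ X i) (hq : q ∈ X k) (hzq : q ∈ A z k) (ht : t ∈ T)
    (htf : f ∉ O t i) (htq : q ∈ O t k) (hA : ∀ x ∈ X l, (x ∈ A' z ↔ x ∈ A z l))
    (hA2 : ∀ x ∈ X l, (x ∈ A' t ↔ x ∈ O t l)) : PWitD E L R A' (X l) T' z t := by
  obtain ⟨N, o, h⟩ := h.wd
  have hT := h.hs.tri hil hik hlk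
  have e : PK (X l) (o l) q = insert q (leg X o l) := insert_comm _ _ _
  refine ⟨_, _, _, h.exitB hr hil hik hlk hf hq hzq, h.nearB hr hil hik hlk hf hq ht htf htq,
    fun h1 => h.hs.zT (h1 ▸ ht), ?_, h.rowRel hr hil hik hlk hf hq ?_⟩
  · rw [e]
    exact hT.rowPP2_exit (Or.inr hq) ((h.hA k q hq).2 hzq).symm ht ((h.hO' ht hq).2 htq) hr.sub
      (fun s hs => h.oth hr hlk.symm hq hs)
  · rintro d (hd | hd)
    · exact Or.inr ⟨hd, hd ▸ hA⟩
    · exact Or.inl ⟨hd ▸ ht, hd ▸ hA2⟩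

/-- **Two near elements** `i` - `l`: `t` separates `c` from the end, `t'` does not. -/
theorem TWit.rowD_near (h : TWit E O A B X T z) (hr : RowEl O B X T l L R T') (hil : i ≠ l)
    (hik : i ≠ k) (hlk : l ≠ k) (hc : c ∈ X i) (hcA : c ∈ A z i) (hf : f ∈ X i) (hfA : f ∉ A z i)
    (hq : q ∈ X k) (ht : t ∈ T) (ht' : t' ∈ T) (htc : c ∉ O t i) (htc' : c ∈ O t' i)
    (htf : f ∉ O t i) (htf' : f ∉ O t' i) (htq : q ∈ O t k) (htq' : q ∈ O t' k)
    (hA : ∀ x ∈ X l, (x ∈ A' t ↔ x ∈ O t l)) (hA2 : ∀ x ∈ X l, (x ∈ A' t' ↔ x ∈ O t' l)) :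
    PWitD E L R A' (X l) T' t t' := by
  obtain ⟨N, o, h⟩ := h.wd
  have hT := h.hs.tri hil hik hlk
  have e : PK (X l) (o l) q = insert q (leg X o l) := insert_comm _ _ _
  have hz := h.cut ⟨f, hf, hfA⟩ hil hik hlk
  have hcF : c ∈ outP X o i (A z i) := (h.hA' hc).2 hcA
  refine ⟨_, _, _, h.nearB hr hil hik hlk hf hq ht htf htq,
    h.nearB hr hil hik hlk hf hq ht' htf' htq', fun h1 => htc (h1 ▸ htc'), ?_,
    h.rowRel hr hil hik hlk hf hq ?_⟩
  · rw [e]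
    refine hT.nearPP2 hz (Or.inl rfl) hcF ht (fun h1 => htc ((h.hO' ht hc).1 h1)) ht'
      ((h.hO' ht' hc).2 htc') hr.sub (fun s hs => h.oth hr hil hc hs) (Or.inr hq)
      ((h.hO' ht hq).2 htq) ((h.hO' ht' hq).2 htq') (fun s hs => h.oth hr hlk.symm hq hs) ?_
      hT.th.rA_sub
    intro v hv
    refine Or.inl ⟨outP_sub hv, fun h1 => ?_⟩
    rw [mem_singleton_iff] at h1
    subst h1
    exact hfA ((h.hA' hf).1 hv)
  · rintro d (hd | hd)
    · exact Or.inl ⟨hd ▸ ht, hd ▸ hA⟩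
    · exact Or.inl ⟨hd ▸ ht', hd ▸ hA2⟩

/-- **A near element** `i` - `l` which separates `c` from the end, **and a near element** `k` - `l`. -/
theorem TWit.rowD_mixed (h : TWit E O A B X T z) (hr : RowEl O B X T l L R T') (hil : i ≠ l)
    (hik : i ≠ k) (hlk : l ≠ k) (hc : c ∈ X i) (hcA : c ∈ A z i) (hf : f ∈ X i) (hfA : f ∉ A z i)
    (hq : q ∈ X k) (ht : t ∈ T) (ht' : t' ∈ T) (htc : c ∉ O t i) (htf : E t f c)
    (htq : q ∈ O t k) (htc' : c ∈ O t' i) (htf' : f ∈ O t' i) (htq' : q ∉ O t' k)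
    (hA : ∀ x ∈ X l, (x ∈ A' t ↔ x ∈ O t l)) (hA2 : ∀ x ∈ X l, (x ∈ A' t' ↔ x ∈ O t' l)) :
    PWitD E L R A' (X l) T' t t' := by
  obtain ⟨N, o, h⟩ := h.wd
  have hT := h.hs.tri hil hik hlk
  have e : PK (X l) (o l) q = insert q (leg X o l) := insert_comm _ _ _
  have hz := h.cut ⟨f, hf, hfA⟩ hil hik hlk
  have hcF : c ∈ outP X o i (A z i) := (h.hA' hc).2 hcA
  have hfF : f ∉ outP X o i (A z i) := fun h1 => hfA ((h.hA' hf).1 h1)
  have htf2 : f ∉ O t i := fun h1 => htc ((h.rel ht hf hc h1).1 htf)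
  refine ⟨_, _, _, h.nearB hr hil hik hlk hf hq ht htf2 htq,
    h.nearB' hr hil hik hlk hf hq ht' htf' htq', fun h1 => htc (h1 ▸ htc'), ?_,
    h.rowRel hr hil hik hlk hf hq ?_⟩
  · rw [e]
    refine hT.rowPP2_mixed hz (Or.inl rfl) hcF (Or.inr hf) hfF (Or.inr hq) ht
      (fun h1 => htc ((h.hO' ht hc).1 h1)) ((h.hE t (Or.inr ht) i f hf c hc).2 htf) ht'
      ((h.hO' ht' hc).2 htc') (h.same ht' hf hc htf' htc') hr.sub
      (fun s hs => h.oth hr hil hc hs)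
      (fun s hs => h.same (hr.sub hs) hf hc (hr.oth s hs i hil f hf) (hr.oth s hs i hil c hc))
  · rintro d (hd | hd)
    · exact Or.inl ⟨hd ▸ ht, hd ▸ hA⟩
    · exact Or.inl ⟨hd ▸ ht', hd ▸ hA2⟩

/-! ### outer cell -/

namespace WD

lemma set3 (a b e : α) : ({a, b, e} : Set α) = {e, a, b} := by
  ext v
  simp only [mem_insert_iff, mem_singleton_iff]
  tauto

/-- the element of the third leg may be replaced by the end -/
lemma cl_end (h : WD E O A B X T z N o) (ht : t ∈ T) (hil : i ≠ l) (hik : i ≠ k) (hlk : l ≠ k)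
    {v : Fin 3 → α} (hv : ∀ j, v j ∈ X j) (htq : v k ∈ O t k) :
    t ∈ N.closure (TK X o \ {v i, v l, o k}) ↔ B t (v 0) (v 1) (v 2) := by
  have hK := h.tK ht
  have hT := h.hs.tri hik.symm hlk.symm hil
  have e1 := (h.hO' ht (hv k)).2 htq
  have h1 : t ∈ N.closure (TK X o \ {v i, v l, v k}) ↔ B t (v 0) (v 1) (v 2) := by
    have h2 := h.cl_iff ht hil.symm hlk hik hv
    exact h2
  rw [← h1, set3 (v i) (v l) (o k), set3 (v i) (v l) (v k)]
  exact ⟨fun h2 => hT.th.move (Or.inl rfl) (Or.inr (hv k)) (Or.inr (hv i)) hK h2 e1,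
    fun h2 => hT.th.move (Or.inr (hv k)) (Or.inl rfl) (Or.inr (hv i)) hK h2 e1.symm⟩

/-- ... and also the element of the second leg -/
lemma cl_end2 (h : WD E O A B X T z N o) (ht : t ∈ T) (hil : i ≠ l) (hik : i ≠ k) (hlk : l ≠ k)
    {v : Fin 3 → α} (hv : ∀ j, v j ∈ X j) (htq : v k ∈ O t k) (htx : v l ∈ O t l) :
    t ∈ N.closure (TK X o \ {v i, o l, o k}) ↔ B t (v 0) (v 1) (v 2) := by
  have hK := h.tK ht
  have hT := h.hs.tri hil.symm hlk hik
  have e1 := (h.hO' ht (hv l)).2 htx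
  rw [← h.cl_end ht hil hik hlk hv htq, insert_comm (v i) (o l), insert_comm (v i) (v l)]
  exact ⟨fun h2 => hT.th.move (Or.inl rfl) (Or.inr (hv l)) (Or.inr (hv i)) hK h2 e1,
    fun h2 => hT.th.move (Or.inr (hv l)) (Or.inl rfl) (Or.inr (hv i)) hK h2 e1.symm⟩

/-- the class of the right end -/
lemma rgtE (h : WD E O A B X T z N o) (hr : RowEl O B X T i L R T') (hil : i ≠ l) (hik : i ≠ k)
    (hlk : l ≠ k) (hc : c ∈ X i) (hx : x ∈ X i) {g s : α} (hg : g ∈ X l) (hq : q ∈ X k)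
    (hs : s ∈ T') (hcR : c ∈ R s) : E s c x ↔ x ∈ R s := by
  have hT := h.hs.tri hil.symm hlk hik
  have e : PK (X i) (o i) q = insert q (leg X o i) := insert_comm _ _ _
  have h1 := h.rowRel (W' := ∅) (A' := fun _ => ∅) hr hil.symm hlk hik hg hq
    (fun d hd => absurd hd (notMem_empty _))
  have hcir := hT.th.rowCir (f := g) (q := q) (Or.inr hg) (Or.inr hq)
  rw [← e] at hcir
  have h2 := (h1.rR s hs c hc).2 hcR
  rw [← h1.rE s (Or.inl hs) c hc x hx, ← h1.rR s hs x hx]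
  exact ⟨fun h3 => h2.trans hcir (Or.inr (Or.inr hc)) h3,
    fun h3 => h2.symm.trans hcir (Or.inr (Or.inl rfl)) h3⟩

/-- the outer cell as a path system -/
lemma outSys (h : WD E O A B X T z N o) (hr : RowEl O B X T i L R T') (hil : i ≠ l) (hik : i ≠ k)
    (hlk : l ≠ k) (hc : c ∈ X i) (hcA : c ∉ A z i) (ht : t ∈ T) (htT : t ∉ T')
    (s3 : t ∉ N.closure (TK X o \ {c, o l, o k}))
    (s1 : ∀ s ∈ T', s ∈ N.closure (TK X o \ {c, o l, o k})) :
    PSysB (outM N (leg X o i) (leg X o l) (leg X o k) (outP X o i (A z i)) c (o k))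
      {x | x ∈ X i ∧ x ∈ A z i} (o i) c T' t := by
  have hT := h.hs.tri hil hik hlk
  have e : PK {x | x ∈ X i ∧ x ∈ A z i} (o i) c = insert c (outP X o i (A z i)) :=
    insert_comm _ _ _
  have hcF : c ∉ outP X o i (A z i) := fun h1 => hcA ((h.hA' hc).1 h1)
  have hz := h.cut ⟨c, hc, hcA⟩ hil hik hlk
  have hsub : insert c (outP X o i (A z i)) ⊆ TK X o := by
    rintro v (hv | hv)
    · exact hv ▸ leg_sub i (Or.inr hc)
    · exact leg_sub i (outP_sub hv)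
  have cl : ∀ s ∈ T, s ∈ (outM N (leg X o i) (leg X o l) (leg X o k) (outP X o i (A z i)) c
      (o k)).closure (insert c (outP X o i (A z i))) :=
    fun s hs => hT.outCl outP_sub (h.hs.Tcl hs) (h.tK hs)
  refine ⟨?_, fun h1 => h.hs.oX i h1.1, fun h1 => hcA h1.2, fun h1 => h.hs.oX i (h1 ▸ hc), ?_, ?_,
    ?_, ?_, htT, ?_⟩
  · rw [e]
    exact hT.th.outCir (Or.inl rfl) outP_sub (Or.inr hc) hcF
  · rw [e]
    exact fun s hs => cl s (hr.sub hs)
  · rw [e, disjoint_left]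
    exact fun s hs h1 => h.tK (hr.sub hs) (hsub h1)
  · rw [e]
    exact cl t ht
  · rw [e]
    exact fun h1 => h.tK ht (hsub h1)
  · rw [e]
    exact hT.outPP hz (Or.inl rfl) (Or.inr hc) hcF ht s3 hr.sub s1

/-- relations of the outer cell -/
lemma outRel (h : WD E O A B X T z N o) (hr : RowEl O B X T i L R T') (hil : i ≠ l) (hik : i ≠ k)
    (hlk : l ≠ k) (hc : c ∈ X i) (hcA : c ∉ A z i) (hcR : ∀ s ∈ T', c ∈ R s) {g : α} (hg : g ∈ X l)
    (hq : q ∈ X k)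
    (hW : ∀ d ∈ W', d ∈ T ∧ ∀ x ∈ X i, x ∈ A z i → (x ∈ A' d ↔ x ∈ O d i)) :
    PRel E L R A' (outM N (leg X o i) (leg X o l) (leg X o k) (outP X o i (A z i)) c (o k))
      {x | x ∈ X i ∧ x ∈ A z i} (o i) c T' W' := by
  have hT := h.hs.tri hil hik hlk
  have e : PK {x | x ∈ X i ∧ x ∈ A z i} (o i) c = insert c (outP X o i (A z i)) :=
    insert_comm _ _ _
  have hcF : c ∉ outP X o i (A z i) := fun h1 => hcA ((h.hA' hc).1 h1)
  have me : ∀ x, x ∈ X i ∧ x ∈ A z i → x ∈ insert c (outP X o i (A z i)) :=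
    fun x hx => Or.inr (Or.inr hx)
  have key : ∀ s ∈ T, ∀ x ∈ insert c (outP X o i (A z i)), ∀ y ∈ insert c (outP X o i (A z i)),
      (Eqv (outM N (leg X o i) (leg X o l) (leg X o k) (outP X o i (A z i)) c (o k))
        (insert c (outP X o i (A z i))) s x y ↔ Eqv N (TK X o) s x y) :=
    fun s hs x hx y hy => hT.th.outEqv (Or.inl rfl) outP_sub (Or.inr hc) hcF hx hy (h.tK hs)
  have inT : ∀ s, s ∈ T' ∨ s ∈ W' → s ∈ T := fun s hs => hs.elim (fun h1 => hr.sub h1)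
    (fun h1 => (hW s h1).1)
  refine ⟨?_, ?_, ?_, ?_⟩
  · intro s hs x hx y hy
    rw [e, key s (inT s hs) x (me x hx) y (me y hy)]
    exact h.hE s (Or.inr (inT s hs)) i x hx.1 y hy.1
  · intro s hs x hx
    rw [e, key s (hr.sub hs) (o i) (Or.inr (Or.inl rfl)) x (me x hx), h.hO s (hr.sub hs) i x hx.1]
    exact (hr.lft s hs x hx.1).symm
  · intro s hs x hx
    rw [e, key s (hr.sub hs) c (Or.inl rfl) x (me x hx),
      h.hE s (Or.inr (hr.sub hs)) i c hc x hx.1]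
    exact h.rgtE hr hil hik hlk hc hx.1 hg hq hs (hcR s hs)
  · intro s hs x hx
    rw [e, key s (hW s hs).1 (o i) (Or.inr (Or.inl rfl)) x (me x hx),
      h.hO s (hW s hs).1 i x hx.1]
    exact ((hW s hs).2 x hx.1 hx.2).symm

/-- a near link with the places in the legs `i`, `l` -/
lemma nearLk_il (h : WD E O A B X T z N o) (hcut : ∃ x ∈ X i, x ∉ A z i) (hil : i ≠ l)
    (hik : i ≠ k) (hlk : l ≠ k) (ht : t ∈ T) {a : α} (ha : a ∈ X i) (haA : a ∈ A z i)
    (hta : a ∉ O t i) (hx : x ∈ X l) (htx : x ∉ O t l) :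
    NearLk N (TK X o) (leg X o i) (leg X o l) (leg X o k) (outP X o i (A z i)) (o i) (o l)
      (o k) t := by
  rcases h.nearLk hcut ht (fun h1 => hta (h1.2 a ha haA)) ⟨i, l, hil, ⟨a, ha, hta⟩, ⟨x, hx, htx⟩⟩
    hil hik hlk with h1 | h1
  · exact h1
  · exact absurd ((h.hO' ht hx).1 (h1.b3 x (Or.inr hx))) htx

/-- a near link is not spanned without `c` -/
lemma near_a3 (h : WD E O A B X T z N o) (hil : i ≠ l) (hik : i ≠ k) (hlk : l ≠ k) (ht : t ∈ T)
    (hn : NearT O X t) {a : α} (ha : a ∈ X i) (haA : a ∈ A z i) (hta : a ∉ O t i) (hc : c ∈ X i)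
    (hcA : c ∉ A z i) : t ∉ N.closure (TK X o \ {c, o l, o k}) := by
  have hcF : c ∉ outP X o i (A z i) := fun h1 => hcA ((h.hA' hc).1 h1)
  rcases h.nearLk ⟨c, hc, hcA⟩ ht (fun h1 => hta (h1.2 a ha haA)) hn hil hik hlk with h1 | h1
  · exact h1.a3 c (Or.inr hc) hcF
  · have h2 := h1.a3 c (Or.inr hc) hcF
    rwa [pair_comm (o k) (o l)] at h2

end WD

/-- **A near link which ends before `x`** does not have the relation `B` -/
theorem TWit.near_notB (h : TWit E O A B X T z) (hil : i ≠ l) (hik : i ≠ k) (hlk : l ≠ k)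
    (ht : t ∈ T) (hn : NearT O X t) {a : α} (ha : a ∈ X i) (haA : a ∈ A z i) (hta : a ∉ O t i)
    {v : Fin 3 → α} (hv : ∀ j, v j ∈ X j) (hcA : v i ∉ A z i) (htx : v l ∈ O t l)
    (htq : v k ∈ O t k) : ¬ B t (v 0) (v 1) (v 2) := by
  obtain ⟨N, o, h⟩ := h.wd
  rw [← h.cl_end2 ht hil hik hlk hv htq htx]
  exact h.near_a3 hil hik hlk ht hn ha haA hta (hv i) hcA

/-- **Outer cell, a pair**: `t` ends before `x` (or does not go to the leg `l`), `t'` = near link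
`i` - `l` with its other place before `x`, seen from the centre: `x` is behind the place. -/
theorem TWit.outD (h : TWit E O A B X T z) (hr : RowEl O B X T i L R T') (hil : i ≠ l)
    (hik : i ≠ k) (hlk : l ≠ k) {v : Fin 3 → α} (hv : ∀ j, v j ∈ X j) (hcA : v i ∉ A z i)
    (hcR : ∀ s ∈ T', v i ∈ R s) (ht : t ∈ T) (htx : v l ∈ O t l) (htq : v k ∈ O t k)
    (htB : ¬ B t (v 0) (v 1) (v 2)) (ht' : t' ∈ T) (htx' : v l ∉ O t' l) {a : α} (ha : a ∈ X i)
    (haA : a ∈ A z i) (hta' : a ∉ O t' i)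
    (hA : ∀ x ∈ X i, x ∈ A z i → (x ∈ A' t ↔ x ∈ O t i))
    (hA2 : ∀ x ∈ X i, x ∈ A z i → (x ∈ A' t' ↔ x ∈ O t' i)) :
    PWitD E L R A' {x | x ∈ X i ∧ x ∈ A z i} T' t t' := by
  obtain ⟨N, o, h⟩ := h.wd
  have hT := h.hs.tri hil hik hlk
  have e : PK {x | x ∈ X i ∧ x ∈ A z i} (o i) (v i) = insert (v i) (outP X o i (A z i)) :=
    insert_comm _ _ _
  have hc := hv i
  have hx := hv l
  have hq := hv k
  have hcF : v i ∉ outP X o i (A z i) := fun h1 => hcA ((h.hA' hc).1 h1)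
  have hz := h.cut ⟨v i, hc, hcA⟩ hil hik hlk
  have hlk' := h.nearLk_il ⟨v i, hc, hcA⟩ hil hik hlk ht' ha haA hta' hx htx'
  have sq : ∀ s ∈ T', v k ∈ O s k := fun s hs => hr.oth s hs k hik.symm _ hq
  have sx : ∀ s ∈ T', v l ∈ O s l := fun s hs => hr.oth s hs l hil.symm _ hx
  have sB : ∀ s ∈ T', B s (v 0) (v 1) (v 2) := fun s hs => (hr.rgt s hs v hv).1 (hcR s hs)
  have s1 : ∀ s ∈ T', s ∈ N.closure (TK X o \ {v i, v l, o k}) :=
    fun s hs => (h.cl_end (hr.sub hs) hil hik hlk hv (sq s hs)).2 (sB s hs)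
  have s1' : ∀ s ∈ T', s ∈ N.closure (TK X o \ {v i, o l, o k}) :=
    fun s hs => (h.cl_end2 (hr.sub hs) hil hik hlk hv (sq s hs) (sx s hs)).2 (sB s hs)
  have tT : t ∉ T' := fun h1 => htB (sB t h1)
  have tT' : t' ∉ T' := fun h1 => htx' (sx t' h1)
  have s3 : t ∉ N.closure (TK X o \ {v i, v l, o k}) :=
    fun h1 => htB ((h.cl_end ht hil hik hlk hv htq).1 h1)
  have s3' : t ∉ N.closure (TK X o \ {v i, o l, o k}) :=
    fun h1 => htB ((h.cl_end2 ht hil hik hlk hv htq htx).1 h1)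
  have s4 : t' ∉ N.closure (TK X o \ {v i, o l, o k}) := hlk'.a3 _ (Or.inr hc) hcF
  have s2 : t' ∈ N.closure (TK X o \ {v i, v l, o k}) :=
    hlk'.b4 _ (Or.inr hc) _ (Or.inr hx) _ (Or.inl rfl)
      (fun h1 => hcF (hlk'.a1 _ (Or.inr hc) h1)) (fun h1 => htx' ((h.hO' ht' hx).1 h1))
  refine ⟨_, _, _, h.outSys hr hil hik hlk hc hcA ht tT s3' s1',
    h.outSys hr hil hik hlk hc hcA ht' tT' s4 s1', fun h1 => htx' (h1 ▸ htx), ?_,
    h.outRel hr hil hik hlk hc hcA hcR hx hq ?_⟩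
  · rw [e]
    exact hT.outPP2 hz (Or.inl rfl) (Or.inr hc) hcF (Or.inr hx) (fun h1 => h.hs.oX l (h1 ▸ hx)) ht
      ht' hr.sub s1 s2 s3 (fun s hs => (h.hO' (hr.sub hs) hx).2 (sx s hs))
      ((h.hO' ht hx).2 htx) (fun h1 => htx' ((h.hO' ht' hx).1 h1))
  · rintro d (hd | hd)
    · exact ⟨hd ▸ ht, hd ▸ hA⟩
    · exact ⟨hd ▸ ht', hd ▸ hA2⟩

end TST
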