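import Pool.Agent.TST.StarReach
import Pool.Agent.TST.StarWit
import Pool.Agent.TST.SplitD

/-!
# The near step (CLAIM A of T-star, insertion proof; helper64)

`StarRun.near_in`, `StarRun.near_out`: a near link `t` of the exit `z` is free on the cell of its
other place: every exit `e` of the cell is a pair with `t`, unless it has the same other place.
-/

set_option autoImplicit false

open Set
open scoped Matroid

namespace TST

variable {α : Type*} {N : Matroid α} {T T₀ W₀ T' : Set α} {z c d t w e f q a y b : α}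
  {o : Fin 3 → α} {X₀ X : Fin 3 → Set α} {i k l : Fin 3} {E : α → α → α → Prop}
  {O A A' : α → Fin 3 → Set α} {B : α → α → α → α → Prop} {L R A'' : α → Set α}

/-- a near link with places on the legs `i` and `l` -/
lemma TWit.near_il (h : TWit E O A B X T z) (hcut : ∃ x ∈ X i, x ∉ A z i) (hil : i ≠ l)
    (hik : i ≠ k) (hlk : l ≠ k) (ht : t ∈ T) (ha : a ∈ X i) (haA : a ∈ A z i) (hta : a ∉ O t i)
    (hy : y ∈ X l) (hty : y ∉ O t l) : (∀ x ∈ X i, x ∈ O t i → x ∈ A z i) ∧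
      (∀ x ∈ X k, x ∈ O t k) ∧
      ∀ m, ∀ x ∈ X m, ∀ y ∈ X m, (E t x y ↔ (x ∈ O t m ↔ y ∈ O t m)) := by
  obtain ⟨N, o, h⟩ := h.wd
  have hn : NearT O X t := ⟨i, l, hil, ⟨a, ha, hta⟩, y, hy, hty⟩
  have h1 := h.nearLk_il hcut hil hik hlk ht ha haA hta hy hty
  obtain ⟨h2, -, -, -, -, -, -, -, -, -, -, h3, -⟩ :=
    h.nearI hcut ht (fun h1 => hta (h1.2 a ha haA)) hn
  exact ⟨h2, fun x hx => (h.hO' ht hx).1 (h1.b3 x (Or.inr hx)), h3⟩

/-- a link which is not near has its places on the leg `i` only; a near one has a second leg -/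
lemma near_other (hn : ∃ j, j ≠ l ∧ ∃ x ∈ X j, x ∉ O e j) (hil : i ≠ l) (hik : i ≠ k)
    (hlk : l ≠ k) : (∃ x ∈ X i, x ∉ O e i) ∨ ∃ x ∈ X k, x ∉ O e k := by
  obtain ⟨j, hj, hx⟩ := hn
  rcases fin3 hil hik hlk j with rfl | rfl | rfl
  · exact Or.inl hx
  · exact absurd rfl hj
  · exact Or.inr hx

namespace StarRun

/-- an element of the star with two classes on a leg is not constant there -/
lemma ex_place (h : StarRun E O A B X₀ T₀ W₀ X A') (hz : z ∈ T₀ ∪ W₀)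
    (hzT : z ∉ SigT O X₀ T₀ X) (he : e ∈ SigT O X₀ T₀ X) {P : Set α} (hP : P ⊆ X l)
    (hex : ∃ x ∈ P, ∃ y ∈ P, ¬ E e x y) : ∃ x ∈ P, x ∉ O e l := by
  obtain ⟨x, hx, y, hy, h1⟩ := hex
  by_contra hcon
  push Not at hcon
  exact h1 (((h.wit z hz hzT).facts.rel e he l x (hP hx) y (hP hy) (hcon x hx)).2 (hcon y hy))

/-- an exit with two classes on a leg -/
lemma ex_placeA (h : StarRun E O A B X₀ T₀ W₀ X A') (he : e ∈ T₀ ∪ W₀)
    (heT : e ∉ SigT O X₀ T₀ X) {P : Set α} (hP : P ⊆ X l)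
    (hex : ∃ x ∈ P, ∃ y ∈ P, ¬ E e x y) : (∃ x ∈ P, x ∉ A' e l) ∧
      ∀ j, j ≠ l → ∀ y ∈ X j, y ∈ A' e j := by
  obtain ⟨x, hx, y, hy, h1⟩ := hex
  have h2 : ∃ x ∈ P, x ∉ A' e l := by
    by_contra hcon
    push Not at hcon
    exact h1 (((h.one he heT).1 l x (hP hx) y (hP hy)).2 ⟨fun _ => hcon y hy, fun _ => hcon x hx⟩)
  refine ⟨h2, fun j hj => (h.one he heT).2 l j hj.symm ?_⟩
  obtain ⟨x, hx, hxA⟩ := h2
  exact ⟨x, hP hx, hxA⟩

/-- **Near step, inner cell.**  `t` = near link at the exit `z`, which cuts the leg `i`; the cell is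
the leg `l` of the star.  An exit `e` of the cell and `t` are a pair, unless `e` is a near link at `z`
with the same place on the leg `i`. -/
theorem near_in' (h : StarRun E O A B X₀ T₀ W₀ X A') (hil : i ≠ l) (hik : i ≠ k) (hlk : l ≠ k)
    (hz : z ∈ T₀ ∪ W₀) (hzT : z ∉ SigT O X₀ T₀ X) (hf : f ∈ X i) (hfA : f ∉ A' z i)
    (hq : q ∈ X k) (hr : RowEl O B X (SigT O X₀ T₀ X) l L R T')
    (ht : t ∈ SigT O X₀ T₀ X) (ha : a ∈ X i) (haA : a ∈ A' z i) (hta : a ∉ O t i) (hy : y ∈ X l)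
    (hty : y ∉ O t l) (hAt : ∀ x ∈ X l, (x ∈ A'' t ↔ x ∈ O t l)) (he : e ∈ T₀ ∪ W₀)
    (hnl' : e ∈ SigT O X₀ T₀ X → ∃ j, j ≠ l ∧ ∃ x ∈ X j, x ∉ O e j) (hex : ∃ x ∈ X l, ∃ y ∈ X l, ¬ E e x y)
    (htwo : e ∈ SigT O X₀ T₀ X → ∀ j, j ≠ l → (∃ x ∈ X j, x ∉ O e j) → ∀ m, m ≠ l → m ≠ j →
      ∀ x ∈ X m, x ∈ O e m)
    (hAe1 : e ∉ SigT O X₀ T₀ X → ∀ x ∈ X l, (x ∈ A'' e ↔ x ∈ A' e l))
    (hAe2 : e ∈ SigT O X₀ T₀ X → ∀ x ∈ X l, (x ∈ A'' e ↔ x ∈ O e l)) :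
    (e ∈ SigT O X₀ T₀ X ∧ (∃ x ∈ X i, x ∈ A' z i ∧ x ∉ O e i) ∧ (∃ x ∈ X l, x ∉ O e l) ∧
      ∀ x ∈ X i, x ∈ A' z i → (x ∈ O e i ↔ x ∈ O t i)) ∨ PWitD E L R A'' (X l) T' e t := by
  have hcut : ∃ x ∈ X i, x ∉ A' z i := ⟨f, hf, hfA⟩
  have hwz := h.wit z hz hzT
  obtain ⟨t1, t2, t3⟩ := hwz.near_il hcut hil hik hlk ht ha haA hta hy hty
  by_cases heT : e ∈ SigT O X₀ T₀ X
  swap
  · -- an exit of the star
    right
    obtain ⟨-, h2⟩ := h.ex_placeA he heT (Subset.refl _) hex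
    exact (h.wit e he heT).rowD_exit hr hil hik hlk ha hq (h2 k hlk.symm q hq) ht hta (t2 q hq)
      (hAe1 heT) hAt
  have hel := h.ex_place hz hzT heT (Subset.refl _) hex
  have hnl := hnl' heT
  by_cases hlk' : ∃ x ∈ X i, x ∈ A' z i ∧ x ∉ O e i
  · -- a near link at `z`
    obtain ⟨a', ha', haA', hea⟩ := hlk'
    obtain ⟨y', hy', hey⟩ := hel
    obtain ⟨e1, e2, e3⟩ := hwz.near_il hcut hil hik hlk heT ha' haA' hea hy' hey
    have hfe : f ∉ O e i := fun h1 => hfA (e1 f hf h1)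
    have hft : f ∉ O t i := fun h1 => hfA (t1 f hf h1)
    by_cases hdiff : ∃ c ∈ X i, c ∈ A' z i ∧ ¬ (c ∈ O e i ↔ c ∈ O t i)
    · right
      obtain ⟨c, hc, hcA, hne⟩ := hdiff
      by_cases hce : c ∈ O e i
      · have hct : c ∉ O t i := fun h1 => hne ⟨fun _ => h1, fun _ => hce⟩
        exact (hwz.rowD_near hr hil hik hlk hc hcA hf hfA hq ht heT hct hce hft hfe (t2 q hq)
          (e2 q hq) hAt (hAe2 heT)).symm
      · have hct : c ∈ O t i := by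
          by_contra h1
          exact hne ⟨fun h2 => absurd h2 hce, fun h2 => absurd h2 h1⟩
        exact hwz.rowD_near hr hil hik hlk hc hcA hf hfA hq heT ht hce hct hfe hft (e2 q hq)
          (t2 q hq) (hAe2 heT) hAt
    · left
      push Not at hdiff
      exact ⟨heT, ⟨a', ha', haA', hea⟩, ⟨y', hy', hey⟩, hdiff⟩
  · -- an element of the next star
    right
    push Not at hlk'
    obtain ⟨A₁, h', -, hL⟩ := h.step hz hzT hcut
    have hXl : chX A' X z i l = X l := chX_ne hil.symm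
    have hXk : chX A' X z i k = X k := chX_ne hik.symm
    have hXi : chX A' X z i i = X i \ A' z i := chX_self
    have hsig := sigT_chX (O := O) (T₀ := T₀) (A' := A') (z := z) (i := i) h.sub
    have htn : t ∉ SigT O X₀ T₀ (chX A' X z i) := by
      rw [hsig]
      exact fun h1 => hta (h1.2 a ha haA)
    have hen : e ∈ SigT O X₀ T₀ (chX A' X z i) := by
      rw [hsig]
      exact ⟨heT, hlk'⟩
    have htT₀ : t ∈ T₀ := ht.1
    obtain ⟨g1, c, hc, hcA, hct, g2⟩ := hL t ht htn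
    have hr' : RowEl O B (chX A' X z i) (SigT O X₀ T₀ (chX A' X z i)) l L R T' := by
      refine ⟨?_, ?_, ?_, ?_⟩
      · intro s hs
        rw [hsig]
        exact ⟨hr.sub hs, fun x hx _ => hr.oth s hs i hil x hx⟩
      · exact fun s hs j hj x hx => hr.oth s hs j hj x (chX_le j hx)
      · intro s hs x hx
        rw [hXl] at hx
        exact hr.lft s hs x hx
      · exact fun s hs v hv => hr.rgt s hs v fun j => chX_le j (hv j)
    have hf' : f ∈ chX A' X z i i := by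
      rw [hXi]
      exact ⟨hf, hfA⟩
    have hft : f ∉ O t i := fun h1 => hfA (t1 f hf h1)
    have hq' : q ∈ chX A' X z i k := by rw [hXk]; exact hq
    have htq : q ∈ A₁ t k := by
      rw [g1 k hik.symm]
      exact t2 q hq
    have htf : f ∈ A₁ t i := (g2 f hf').2 ((t3 i c hc f hf).2 ⟨fun h1 => absurd h1 hct,
      fun h1 => absurd h1 hft⟩)
    have hAt' : ∀ x ∈ chX A' X z i l, (x ∈ A'' t ↔ x ∈ A₁ t l) := by
      intro x hx
      rw [g1 l hil.symm]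
      rw [hXl] at hx
      exact hAt x hx
    have hAe' : ∀ x ∈ chX A' X z i l, (x ∈ A'' e ↔ x ∈ O e l) := by
      intro x hx
      rw [hXl] at hx
      exact hAe2 heT x hx
    have hwt := h'.wit t (Or.inl htT₀) htn
    rw [← hXl]
    rcases near_other hnl hil hik hlk with ⟨f', hf', hef⟩ | ⟨f', hf', hef⟩
    · -- near `i` - `l`
      have h3 := htwo heT i hil ⟨f', hf', hef⟩ k hlk.symm hik.symm
      have h4 : f' ∈ chX A' X z i i := by
        rw [hXi]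
        exact ⟨hf', fun h5 => hef (hlk' f' hf' h5)⟩
      exact (hwt.rowD_exit hr' hil hik hlk h4 hq' htq hen hef (h3 q hq) hAt' hAe').symm
    · -- near `k` - `l`
      have h3 := htwo heT k hlk.symm ⟨f', hf', hef⟩ i hil hik
      have h4 : f' ∈ chX A' X z i k := by
        rw [hXk]
        exact hf'
      have h5 : f ∈ chX A' X z i i := by
        rw [hXi]
        exact ⟨hf, hfA⟩
      exact (hwt.rowD_exit hr' hlk.symm hik.symm hil.symm h4 h5 htf hen hef (h3 f hf) hAt'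
        hAe').symm

/-- **Near step, inner cell**, all same-row elements of the star are in `T'`. -/
theorem near_in (h : StarRun E O A B X₀ T₀ W₀ X A') (hil : i ≠ l) (hik : i ≠ k) (hlk : l ≠ k)
    (hz : z ∈ T₀ ∪ W₀) (hzT : z ∉ SigT O X₀ T₀ X) (hf : f ∈ X i) (hfA : f ∉ A' z i)
    (hq : q ∈ X k) (hr : RowEl O B X (SigT O X₀ T₀ X) l L R T')
    (hT' : ∀ s ∈ SigT O X₀ T₀ X, (∀ j, j ≠ l → ∀ x ∈ X j, x ∈ O s j) → s ∈ T')
    (ht : t ∈ SigT O X₀ T₀ X) (ha : a ∈ X i) (haA : a ∈ A' z i) (hta : a ∉ O t i) (hy : y ∈ X l)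
    (hty : y ∉ O t l) (hAt : ∀ x ∈ X l, (x ∈ A'' t ↔ x ∈ O t l)) (he : e ∈ T₀ ∪ W₀)
    (heT' : e ∉ T') (hex : ∃ x ∈ X l, ∃ y ∈ X l, ¬ E e x y)
    (htwo : e ∈ SigT O X₀ T₀ X → ∀ j, j ≠ l → (∃ x ∈ X j, x ∉ O e j) → ∀ m, m ≠ l → m ≠ j →
      ∀ x ∈ X m, x ∈ O e m)
    (hAe1 : e ∉ SigT O X₀ T₀ X → ∀ x ∈ X l, (x ∈ A'' e ↔ x ∈ A' e l))
    (hAe2 : e ∈ SigT O X₀ T₀ X → ∀ x ∈ X l, (x ∈ A'' e ↔ x ∈ O e l)) :
    (e ∈ SigT O X₀ T₀ X ∧ (∃ x ∈ X i, x ∈ A' z i ∧ x ∉ O e i) ∧ (∃ x ∈ X l, x ∉ O e l) ∧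
      ∀ x ∈ X i, x ∈ A' z i → (x ∈ O e i ↔ x ∈ O t i)) ∨ PWitD E L R A'' (X l) T' e t := by
  refine h.near_in' hil hik hlk hz hzT hf hfA hq hr ht ha haA hta hy hty hAt he ?_ hex htwo hAe1
    hAe2
  intro heT
  by_contra hcon
  push Not at hcon
  exact heT' (hT' e heT fun j hj x hx => hcon j hj x hx)

/-- **Near step, outer cell.**  `t` = near link `i` - `l` at the exit `z`, which cuts the leg `i`; the
cell is the outer part of the leg `i`.  An exit `e` of the cell and `t` are a pair, unless `e` is near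
with the same place on the leg `l`. -/
theorem near_out' (h : StarRun E O A B X₀ T₀ W₀ X A') (hil : i ≠ l) (hik : i ≠ k) (hlk : l ≠ k)
    (hz : z ∈ T₀ ∪ W₀) (hzT : z ∉ SigT O X₀ T₀ X) (hf : f ∈ X i) (hfA : f ∉ A' z i)
    (hq : q ∈ X k) (hr : RowEl O B X (SigT O X₀ T₀ X) i L R T')
    (hcR : ∀ s ∈ T', ∀ x ∈ X i, x ∉ A' z i → x ∈ R s)
    (ht : t ∈ SigT O X₀ T₀ X) (ha : a ∈ X i) (haA : a ∈ A' z i) (hta : a ∉ O t i) (hy : y ∈ X l)
    (hty : y ∉ O t l)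
    (hAt : ∀ x ∈ X i, x ∈ A' z i → (x ∈ A'' t ↔ x ∈ O t i)) (he : e ∈ T₀ ∪ W₀)
    (hnl : e ∈ SigT O X₀ T₀ X → (∃ x ∈ X l, x ∉ O e l) ∨
      (∃ x ∈ X k, x ∉ O e k) ∧ ((∃ b ∈ X l, b ∈ O t l) ∨ ∃ b ∈ X k, b ∈ O e k))
    (hex : ∃ x ∈ {x | x ∈ X i ∧ x ∈ A' z i}, ∃ y ∈ {x | x ∈ X i ∧ x ∈ A' z i}, ¬ E e x y)
    (hAe1 : e ∉ SigT O X₀ T₀ X → ∀ x ∈ X i, x ∈ A' z i → (x ∈ A'' e ↔ x ∈ A' e i))
    (hAe2 : e ∈ SigT O X₀ T₀ X → ∀ x ∈ X i, x ∈ A' z i → (x ∈ A'' e ↔ x ∈ O e i)) :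
    (e ∈ SigT O X₀ T₀ X ∧ (∃ x ∈ X i, x ∈ A' z i ∧ x ∉ O e i) ∧ (∃ x ∈ X l, x ∉ O e l) ∧
      ∀ x ∈ X l, (x ∈ O e l ↔ x ∈ O t l)) ∨
      PWitD E L R A'' {x | x ∈ X i ∧ x ∈ A' z i} T' e t := by
  classical
  have hcut : ∃ x ∈ X i, x ∉ A' z i := ⟨f, hf, hfA⟩
  have hwz := h.wit z hz hzT
  obtain ⟨t1, t2, t3⟩ := hwz.near_il hcut hil hik hlk ht ha haA hta hy hty
  have hPs : {x | x ∈ X i ∧ x ∈ A' z i} ⊆ X i := fun x hx => hx.1
  by_cases heT : e ∈ SigT O X₀ T₀ X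
  swap
  · -- an exit of the star
    right
    obtain ⟨-, h2⟩ := h.ex_placeA he heT hPs hex
    have h3 := (h.wit e he heT).rowD_exit (A' := fun s => if s ∈ SigT O X₀ T₀ X then O s i
      else A' s i) hr hil.symm hlk hik hy hq (h2 k hik.symm q hq) ht hty (t2 q hq)
      (fun x _ => by rw [if_neg heT]) (fun x _ => by rw [if_pos ht])
    refine h3.old hPs (Subset.refl _) ?_ ?_
    · rintro x ⟨hx, hxA⟩
      rw [if_neg heT]
      exact hAe1 heT x hx hxA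
    · rintro x ⟨hx, hxA⟩
      rw [if_pos ht]
      exact hAt x hx hxA
  obtain ⟨a', ⟨ha', haA'⟩, hea⟩ := h.ex_place hz hzT heT hPs hex
  by_cases hel : ∃ x ∈ X l, x ∉ O e l
  · -- near `i` - `l`
    obtain ⟨y', hy', hey⟩ := hel
    obtain ⟨e1, e2, e3⟩ := hwz.near_il hcut hil hik hlk heT ha' haA' hea hy' hey
    by_cases hdiff : ∃ c ∈ X l, ¬ (c ∈ O e l ↔ c ∈ O t l)
    · right
      obtain ⟨c, hc, hne⟩ := hdiff
      obtain ⟨v, hv, v1, v2, v3⟩ := ex_trip hil hik hlk hc hf hq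
      have hvA : v i ∉ A' z i := by rw [v2]; exact hfA
      have hvR : ∀ s ∈ T', v i ∈ R s := by
        intro s hs
        rw [v2]
        exact hcR s hs f hf hfA
      by_cases hce : c ∈ O e l
      · have hct : c ∉ O t l := fun h1 => hne ⟨fun _ => h1, fun _ => hce⟩
        refine hwz.outD hr hil hik hlk hv hvA hvR heT (by rw [v1]; exact hce)
          (by rw [v3]; exact e2 q hq) ?_ ht (by rw [v1]; exact hct) ha haA hta (hAe2 heT) hAt
        exact hwz.near_notB hil hik hlk heT ⟨i, l, hil, ⟨a', ha', hea⟩, y', hy', hey⟩ ha' haA' hea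
          hv hvA (by rw [v1]; exact hce) (by rw [v3]; exact e2 q hq)
      · have hct : c ∈ O t l := by
          by_contra h1
          exact hne ⟨fun h2 => absurd h2 hce, fun h2 => absurd h2 h1⟩
        refine (hwz.outD hr hil hik hlk hv hvA hvR ht (by rw [v1]; exact hct)
          (by rw [v3]; exact t2 q hq) ?_ heT (by rw [v1]; exact hce) ha' haA' hea hAt
          (hAe2 heT)).symm
        exact hwz.near_notB hil hik hlk ht ⟨i, l, hil, ⟨a, ha, hta⟩, y, hy, hty⟩ ha haA hta hv hvA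
          (by rw [v1]; exact hct) (by rw [v3]; exact t2 q hq)
    · left
      push Not at hdiff
      exact ⟨heT, ⟨a', ha', haA', hea⟩, ⟨y', hy', hey⟩, hdiff⟩
  right
  push Not at hel
  obtain ⟨⟨y', hy', hey⟩, hbb⟩ := (hnl heT).resolve_left fun ⟨x, hx, hxO⟩ => hxO (hel x hx)
  have hvR : ∀ s ∈ T', f ∈ R s := fun s hs => hcR s hs f hf hfA
  have hek := hwz.near_il hcut hik hil hlk.symm heT ha' haA' hea hy' hey
  have hne : NearT O X e := ⟨i, k, hik, ⟨a', ha', hea⟩, y', hy', hey⟩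
  have hnt : NearT O X t := ⟨i, l, hil, ⟨a, ha, hta⟩, y, hy, hty⟩
  rcases hbb with ⟨b, hb, htb⟩ | ⟨b, hb, heb⟩
  · obtain ⟨v, hv, v1, v2, v3⟩ := ex_trip hik hil hlk.symm hy' hf hb
    have hvA : v i ∉ A' z i := by rw [v2]; exact hfA
    refine (hwz.outD hr hik hil hlk.symm hv hvA (by rw [v2]; exact hvR) ht
      (by rw [v1]; exact t2 y' hy') (by rw [v3]; exact htb) ?_ heT (by rw [v1]; exact hey) ha' haA'
      hea hAt (hAe2 heT)).symm
    exact hwz.near_notB hil hik hlk ht hnt ha haA hta hv hvA (by rw [v3]; exact htb)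
      (by rw [v1]; exact t2 y' hy')
  · obtain ⟨v, hv, v1, v2, v3⟩ := ex_trip hil hik hlk hy hf hb
    have hvA : v i ∉ A' z i := by rw [v2]; exact hfA
    refine hwz.outD hr hil hik hlk hv hvA (by rw [v2]; exact hvR) heT
      (by rw [v1]; exact hel y hy) (by rw [v3]; exact heb) ?_ ht (by rw [v1]; exact hty) ha haA hta
      (hAe2 heT) hAt
    exact hwz.near_notB hil hik hlk heT hne ha' haA' hea hv hvA (by rw [v1]; exact hel y hy)
      (by rw [v3]; exact heb)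

/-- **Near step, outer cell**, with the same-row links.  `t` = near link `i` - `l` at the exit `z`, which cuts the leg `i`; the
cell is the outer part of the leg `i`.  An exit `e` of the cell and `t` are a pair, unless `e` is near
with the same place on the leg `l`. -/
theorem near_out (h : StarRun E O A B X₀ T₀ W₀ X A') (hil : i ≠ l) (hik : i ≠ k) (hlk : l ≠ k)
    (hz : z ∈ T₀ ∪ W₀) (hzT : z ∉ SigT O X₀ T₀ X) (hf : f ∈ X i) (hfA : f ∉ A' z i)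
    (hq : q ∈ X k) (hr : RowEl O B X (SigT O X₀ T₀ X) i L R T')
    (hcR : ∀ s ∈ T', ∀ x ∈ X i, x ∉ A' z i → x ∈ R s)
    (hR : ∀ s ∈ SigT O X₀ T₀ X, (∀ j, j ≠ i → ∀ x ∈ X j, x ∈ O s j) → ∀ v : Fin 3 → α,
      (∀ j, v j ∈ X j) → (v i ∈ R s ↔ B s (v 0) (v 1) (v 2)))
    (hT' : ∀ s ∈ SigT O X₀ T₀ X, (∀ j, j ≠ i → ∀ x ∈ X j, x ∈ O s j) →
      (∀ x ∈ X i, x ∉ A' z i → x ∈ R s) → s ∈ T')
    (ht : t ∈ SigT O X₀ T₀ X) (ha : a ∈ X i) (haA : a ∈ A' z i) (hta : a ∉ O t i) (hy : y ∈ X l)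
    (hty : y ∉ O t l) (hb : b ∈ X l) (htb : b ∈ O t l)
    (hAt : ∀ x ∈ X i, x ∈ A' z i → (x ∈ A'' t ↔ x ∈ O t i)) (he : e ∈ T₀ ∪ W₀) (heT' : e ∉ T')
    (hex : ∃ x ∈ {x | x ∈ X i ∧ x ∈ A' z i}, ∃ y ∈ {x | x ∈ X i ∧ x ∈ A' z i}, ¬ E e x y)
    (hAe1 : e ∉ SigT O X₀ T₀ X → ∀ x ∈ X i, x ∈ A' z i → (x ∈ A'' e ↔ x ∈ A' e i))
    (hAe2 : e ∈ SigT O X₀ T₀ X → ∀ x ∈ X i, x ∈ A' z i → (x ∈ A'' e ↔ x ∈ O e i)) :
    (e ∈ SigT O X₀ T₀ X ∧ (∃ x ∈ X i, x ∈ A' z i ∧ x ∉ O e i) ∧ (∃ x ∈ X l, x ∉ O e l) ∧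
      ∀ x ∈ X l, (x ∈ O e l ↔ x ∈ O t l)) ∨
      PWitD E L R A'' {x | x ∈ X i ∧ x ∈ A' z i} T' e t := by
  classical
  have hwz := h.wit z hz hzT
  by_cases hsr : e ∈ SigT O X₀ T₀ X ∧ ∀ j, j ≠ i → ∀ x ∈ X j, x ∈ O e j
  swap
  · refine h.near_out' hil hik hlk hz hzT hf hfA hq hr hcR ht ha haA hta hy hty hAt he ?_ hex hAe1
      hAe2
    intro heT
    by_cases h1 : ∃ x ∈ X l, x ∉ O e l
    · exact Or.inl h1
    push Not at h1
    right
    refine ⟨?_, Or.inl ⟨b, hb, htb⟩⟩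
    by_contra hcon
    push Not at hcon
    refine hsr ⟨heT, fun j hj => ?_⟩
    rcases fin3 hil hik hlk j with rfl | rfl | rfl
    · exact absurd rfl hj
    · exact h1
    · exact hcon
  · right
    obtain ⟨heT, hoth⟩ := hsr
    have hc : ∃ c ∈ X i, c ∉ A' z i ∧ c ∉ R e := by
      by_contra hcon
      push Not at hcon
      exact heT' (hT' e heT hoth hcon)
    obtain ⟨c, hc, hcA, hcR'⟩ := hc
    obtain ⟨v, hv, v1, v2, v3⟩ := ex_trip hil hik hlk hy hc hq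
    have hvA : v i ∉ A' z i := by rw [v2]; exact hcA
    have hvR : ∀ s ∈ T', v i ∈ R s := by
      intro s hs
      rw [v2]
      exact hcR s hs c hc hcA
    refine hwz.outD hr hil hik hlk hv hvA hvR heT (by rw [v1]; exact hoth l hil.symm y hy)
      (by rw [v3]; exact hoth k hik.symm q hq) ?_ ht (by rw [v1]; exact hty) ha haA hta (hAe2 heT)
      hAt
    rw [← hR e heT hoth v hv, v2]
    exact hcR'

end StarRun

/-! ### the history -/

lemma RowEl.mono (hr : RowEl O B X₀ T₀ l L R T') (hX : ∀ j, X j ⊆ X₀ j) (hT : T' ⊆ T) :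
    RowEl O B X T l L R T' where
  sub := hT
  oth := fun s hs j hj x hx => hr.oth s hs j hj x (hX j hx)
  lft := fun s hs x hx => hr.lft s hs x (hX l hx)
  rgt := fun s hs v hv => hr.rgt s hs v fun j => hX j (hv j)

/-- a near element of the star `T₀` with a place on the part `g` of the leg `l`, one place on one
other leg and constant on the third one -/
structure NearG (E : α → α → α → Prop) (O : α → Fin 3 → Set α) (X₀ : Fin 3 → Set α)
    (T₀ : Set α) (l : Fin 3) (g : Set α) (e : α) : Prop where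
  mem : e ∈ T₀
  two : ∃ x ∈ g, ∃ y ∈ g, ¬ E e x y
  oth : ∃ j, j ≠ l ∧ ∃ x ∈ X₀ j, x ∉ O e j
  cst : ∀ j, j ≠ l → (∃ x ∈ X₀ j, x ∉ O e j) → ∀ m, m ≠ l → m ≠ j → ∀ x ∈ X₀ m, x ∈ O e m

/-- the step of the history at which `e` leaves -/
lemma StarRun.leave (h : StarRun E O A B X₀ T₀ W₀ X A') (hz : z ∈ T₀ ∪ W₀)
    (hzT : z ∉ SigT O X₀ T₀ X) (hcut : ∃ x ∈ X i, x ∉ A' z i) (hXn : ∀ j, (X j).Nonempty)
    {g : Set α} (hg : g ⊆ chX A' X z i l) (hr : RowEl O B X (SigT O X₀ T₀ X) l L R T')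
    (he : NearG E O X₀ T₀ l g e) (hd : NearG E O X₀ T₀ l g d) (heT : e ∈ SigT O X₀ T₀ X)
    (hdT : d ∈ SigT O X₀ T₀ X) (hle : e ∉ SigT O X₀ T₀ (chX A' X z i))
    (hAe : ∀ x ∈ g, (x ∈ A'' e ↔ x ∈ O e l)) (hAd : ∀ x ∈ g, (x ∈ A'' d ↔ x ∈ O d l)) :
    (∀ j, j ≠ l → ∀ x ∈ X₀ j, (x ∈ O e j ↔ x ∈ O d j)) ∨ PWitD E L R A'' g T' e d := by
  have hgX : g ⊆ X l := hg.trans (chX_le l)
  have hsig := sigT_chX (O := O) (T₀ := T₀) (A' := A') (z := z) (i := i) h.sub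
  have ha : ∃ a ∈ X i, a ∈ A' z i ∧ a ∉ O e i := by
    by_contra hcon
    push Not at hcon
    rw [hsig] at hle
    exact hle ⟨heT, fun x hx hxA => hcon x hx hxA⟩
  obtain ⟨a, ha, haA, hae⟩ := ha
  have hwz := h.wit z hz hzT
  -- places in the present star
  have inX : ∀ {e j x}, e ∈ SigT O X₀ T₀ X → x ∈ X₀ j → x ∉ O e j → x ∈ X j := by
    intro e j x he hx hxO
    by_contra h1
    exact hxO (he.2 j x hx h1)
  have oth : ∀ {e}, NearG E O X₀ T₀ l g e → e ∈ SigT O X₀ T₀ X →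
      ∃ j, j ≠ l ∧ ∃ x ∈ X j, x ∉ O e j := by
    intro e he heT
    obtain ⟨j, hj, x, hx, hxO⟩ := he.oth
    exact ⟨j, hj, x, inX heT hx hxO, hxO⟩
  have pl : ∀ {e}, NearG E O X₀ T₀ l g e → e ∈ SigT O X₀ T₀ X → ∃ x ∈ g, x ∉ O e l :=
    fun he heT => h.ex_place hz hzT heT hgX he.two
  obtain ⟨f, hf, hfA⟩ := hcut
  by_cases hil : i = l
  · exfalso
    subst hil
    obtain ⟨j, hj, y, hy, hyO⟩ := oth he heT
    obtain ⟨k, hk1, hk2⟩ : ∃ k, i ≠ k ∧ j ≠ k := by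
      have h3 : ∀ i j : Fin 3, ∃ k, i ≠ k ∧ j ≠ k := by decide
      exact h3 i j
    obtain ⟨e1, -, e3⟩ := hwz.near_il ⟨f, hf, hfA⟩ hj.symm hk1 hk2 heT ha haA hae hy hyO
    obtain ⟨x, hx, y, hy, hE⟩ := he.two
    have key : ∀ x ∈ g, x ∉ O e i := by
      intro x hx hxO
      have h5 := hg hx
      rw [chX_self] at h5
      exact h5.2 (e1 x h5.1 hxO)
    exact hE ((e3 i x (hgX hx) y (hgX hy)).2 ⟨fun h5 => absurd h5 (key x hx),
      fun h5 => absurd h5 (key y hy)⟩)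
  obtain ⟨k, hik, hlk⟩ : ∃ k, i ≠ k ∧ l ≠ k := by
    have h3 : ∀ i j : Fin 3, ∃ k, i ≠ k ∧ j ≠ k := by decide
    exact h3 i l
  obtain ⟨q, hq⟩ := hXn k
  obtain ⟨y, hy, hye⟩ := pl he heT
  obtain ⟨e1, e2, -⟩ := hwz.near_il ⟨f, hf, hfA⟩ hil hik hlk heT ha haA hae (hgX hy) hye
  have hdx : ∃ x ∈ X l, ∃ y ∈ X l, ¬ E d x y := by
    obtain ⟨x, hx, y, hy, h1⟩ := hd.two
    exact ⟨x, hgX hx, y, hgX hy, h1⟩
  rcases h.near_in' (A'' := fun s => O s l) hil hik hlk hz hzT hf hfA hq hr heT ha haA hae (hgX hy)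
      hye (fun x _ => Iff.rfl) (Or.inl hd.mem) (fun _ => oth hd hdT) hdx
      (fun _ j hj ⟨x, hx, hxO⟩ m hm hmj x' hx' =>
        hd.cst j hj ⟨x, h.sub j hx, hxO⟩ m hm hmj x' (h.sub m hx'))
      (fun h1 => absurd hdT h1) (fun _ x _ => Iff.rfl) with ⟨-, ⟨a', ha', haA', had⟩, -, h2⟩ | h2
  · left
    obtain ⟨y', hy', hyd⟩ := pl hd hdT
    obtain ⟨d1, d2, -⟩ := hwz.near_il ⟨f, hf, hfA⟩ hil hik hlk hdT ha' haA' had (hgX hy') hyd
    intro j hj x hx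
    by_cases hxX : x ∈ X j
    · rcases fin3 hil hik hlk j with rfl | rfl | rfl
      · by_cases hxA : x ∈ A' z j
        · exact (h2 x hxX hxA).symm
        · exact ⟨fun h5 => absurd (e1 x hxX h5) hxA, fun h5 => absurd (d1 x hxX h5) hxA⟩
      · exact absurd rfl hj
      · exact ⟨fun _ => d2 x hxX, fun _ => e2 x hxX⟩
    · exact ⟨fun _ => hdT.2 j x hx hxX, fun _ => heT.2 j x hx hxX⟩
  · right
    exact h2.symm.old hgX (Subset.refl _) hAe hAd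

/-- **(NS), a pair of near elements.**  `g` = cell of the row `l`; one of the two near elements has
left the star.  Then they are a pair on `g`, or they have the same places on the two other legs. -/
theorem StarReach.pair (h : StarReach E O A B X₀ T₀ W₀ X A')
    (_h0 : StarRun E O A B X₀ T₀ W₀ X₀ A) (hX : ∀ j, (X₀ j).Nonempty) {g : Set α} (hg : g ⊆ X l)
    (hr : RowEl O B X₀ T₀ l L R T') (hT' : T' ⊆ SigT O X₀ T₀ X)
    (he : NearG E O X₀ T₀ l g e) (hd : NearG E O X₀ T₀ l g d)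
    (hle : e ∉ SigT O X₀ T₀ X ∨ d ∉ SigT O X₀ T₀ X)
    (hAe : ∀ x ∈ g, (x ∈ A'' e ↔ x ∈ O e l)) (hAd : ∀ x ∈ g, (x ∈ A'' d ↔ x ∈ O d l)) :
    (∀ j, j ≠ l → ∀ x ∈ X₀ j, (x ∈ O e j ↔ x ∈ O d j)) ∨ PWitD E L R A'' g T' e d := by
  induction h with
  | root =>
    rw [sigT_self] at hle
    rcases hle with h1 | h1
    exacts [absurd he.mem h1, absurd hd.mem h1]
  | step X A' z i A₁ h1 h2 hz hzT hcut h3 h4 ih =>
    have hgX : g ⊆ X l := hg.trans (chX_le l)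
    have hTX : T' ⊆ SigT O X₀ T₀ X := hT'.trans (StarReach.sig_mono h2)
    by_cases hle2 : e ∉ SigT O X₀ T₀ X ∨ d ∉ SigT O X₀ T₀ X
    · exact ih hgX hTX hle2
    · push Not at hle2
      have hr' : RowEl O B X (SigT O X₀ T₀ X) l L R T' := hr.mono h2.sub hTX
      have hXn := h1.nonempty hX
      rcases hle with h5 | h5
      · exact h2.leave hz hzT hcut hXn hg hr' he hd hle2.1 hle2.2 h5 hAe hAd
      · rcases h2.leave hz hzT hcut hXn hg hr' hd he hle2.2 hle2.1 h5 hAd hAe with h6 | h6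
        · exact Or.inl fun j hj x hx => (h6 j hj x hx).symm
        · exact Or.inr h6.symm

/-- **(NS), a pair of near elements, outer cell.**  `z` = exit of the state with the cell `g` in its
outer part. -/
theorem StarReach.pair_out (h : StarReach E O A B X₀ T₀ W₀ X A')
    (h0 : StarRun E O A B X₀ T₀ W₀ X₀ A) (hX : ∀ j, (X₀ j).Nonempty) {g : Set α}
    (hz : z ∈ T₀ ∪ W₀) (hzT : z ∉ SigT O X₀ T₀ X) (hf : f ∈ X l) (hfA : f ∉ A' z l)
    (hg : ∀ x ∈ g, x ∈ X l ∧ x ∈ A' z l) (hr : RowEl O B X₀ T₀ l L R T')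
    (hT' : T' ⊆ SigT O X₀ T₀ X) (hcR : ∀ s ∈ T', ∀ x ∈ X l, x ∉ A' z l → x ∈ R s)
    (he : NearG E O X₀ T₀ l g e) (hd : NearG E O X₀ T₀ l g d)
    (hb : ∀ j k, j ≠ l → k ≠ l → j ≠ k → (∃ x ∈ X j, x ∉ O e j) → (∃ x ∈ X k, x ∉ O d k) →
      (∃ b ∈ X j, b ∈ O e j) ∨ ∃ b ∈ X k, b ∈ O d k)
    (hAe : ∀ x ∈ g, (x ∈ A'' e ↔ x ∈ O e l)) (hAd : ∀ x ∈ g, (x ∈ A'' d ↔ x ∈ O d l)) :
    (∀ j, j ≠ l → ∀ x ∈ X₀ j, (x ∈ O e j ↔ x ∈ O d j)) ∨ PWitD E L R A'' g T' e d := by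
  have hgX : g ⊆ X l := fun x hx => (hg x hx).1
  by_cases hle : e ∉ SigT O X₀ T₀ X ∨ d ∉ SigT O X₀ T₀ X
  · exact h.pair h0 hX hgX hr hT' he hd hle hAe hAd
  push Not at hle
  obtain ⟨heT, hdT⟩ := hle
  have hrun := h.run h0
  have hwz := hrun.wit z hz hzT
  have inX : ∀ {e j x}, e ∈ SigT O X₀ T₀ X → x ∈ X₀ j → x ∉ O e j → x ∈ X j := by
    intro e j x he hx hxO
    by_contra h1
    exact hxO (he.2 j x hx h1)
  obtain ⟨j, hj, y, hy, hye⟩ := he.oth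
  have hyX := inX heT hy hye
  obtain ⟨k, hlk, hjk⟩ : ∃ k, l ≠ k ∧ j ≠ k := by
    have h3 : ∀ i j : Fin 3, ∃ k, i ≠ k ∧ j ≠ k := by decide
    exact h3 l j
  obtain ⟨q, hq⟩ := h.nonempty hX k
  obtain ⟨a, ha, hae⟩ := hrun.ex_place hz hzT heT hgX he.two
  obtain ⟨a', ha', had⟩ := hrun.ex_place hz hzT hdT hgX hd.two
  have hcut : ∃ x ∈ X l, x ∉ A' z l := ⟨f, hf, hfA⟩
  obtain ⟨-, e2, -⟩ := hwz.near_il hcut hj.symm hlk hjk heT (hgX ha) (hg a ha).2 hae hyX hye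
  have hdo : (∃ x ∈ X j, x ∉ O d j) ∨ ∃ x ∈ X k, x ∉ O d k := by
    obtain ⟨m, hm, x, hx, hxO⟩ := hd.oth
    rcases fin3 hj.symm hlk hjk m with rfl | rfl | rfl
    · exact absurd rfl hm
    · exact Or.inl ⟨x, inX hdT hx hxO, hxO⟩
    · exact Or.inr ⟨x, inX hdT hx hxO, hxO⟩
  have hex : ∃ x ∈ {x | x ∈ X l ∧ x ∈ A' z l}, ∃ y ∈ {x | x ∈ X l ∧ x ∈ A' z l}, ¬ E d x y := by
    obtain ⟨x, hx, y, hy, h1⟩ := hd.two
    exact ⟨x, hg x hx, y, hg y hy, h1⟩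
  rcases hrun.near_out' (A'' := fun s => O s l) hj.symm hlk hjk hz hzT hf hfA hq
      (hr.mono hrun.sub hT') hcR heT (hgX ha) (hg a ha).2 hae hyX hye (fun x _ _ => Iff.rfl)
      (Or.inl hd.mem) (fun _ => hdo.imp id fun h1 => ⟨h1, hb j k hj hlk.symm hjk
        ⟨y, hyX, hye⟩ h1⟩) hex (fun h1 => absurd hdT h1) (fun _ x _ _ => Iff.rfl) with
    ⟨-, -, ⟨y', hy', hyd⟩, h2⟩ | h2
  · left
    obtain ⟨-, d2, -⟩ := hwz.near_il hcut hj.symm hlk hjk hdT (hgX ha') (hg a' ha').2 had hy' hyd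
    intro m hm x hx
    by_cases hxX : x ∈ X m
    · rcases fin3 hj.symm hlk hjk m with rfl | rfl | rfl
      · exact absurd rfl hm
      · exact (h2 x hxX).symm
      · exact ⟨fun _ => d2 x hxX, fun _ => e2 x hxX⟩
    · exact ⟨fun _ => hdT.2 m x hx hxX, fun _ => heT.2 m x hx hxX⟩
  · right
    exact h2.symm.old (fun x hx => hg x hx) (Subset.refl _) hAe hAd

/-! ### the classes of the exits of a state -/

/-- **A near element which has left and splits `g`**: the class of the end is the old one. -/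
theorem StarReach.near_exit (h : StarReach E O A B X₀ T₀ W₀ X A') {g : Set α} (hg : g ⊆ X l)
    (he : NearG E O X₀ T₀ l g e) (hle : e ∉ SigT O X₀ T₀ X) : A' e l = O e l := by
  induction h with
  | root =>
    rw [sigT_self] at hle
    exact absurd he.mem hle
  | step X A' z i A₁ h1 h2 hz hzT hcut h3 h4 ih =>
    have hgX : g ⊆ X l := hg.trans (chX_le l)
    by_cases heT : e ∈ SigT O X₀ T₀ X
    · have hli : l ≠ i := by
        rintro rfl
        have hsig := sigT_chX (O := O) (T₀ := T₀) (A' := A') (z := z) (i := l) h2.sub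
        have ha : ∃ a ∈ X l, a ∈ A' z l ∧ a ∉ O e l := by
          by_contra hcon
          push Not at hcon
          rw [hsig] at hle
          exact hle ⟨heT, fun x hx hxA => hcon x hx hxA⟩
        obtain ⟨a, ha, haA, hae⟩ := ha
        obtain ⟨j, hj, y, hy, hyO⟩ := he.oth
        have hyX : y ∈ X j := by
          by_contra h5
          exact hyO (heT.2 j y hy h5)
        obtain ⟨k, hk1, hk2⟩ : ∃ k, l ≠ k ∧ j ≠ k := by
          have h3 : ∀ i j : Fin 3, ∃ k, i ≠ k ∧ j ≠ k := by decide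
          exact h3 l j
        obtain ⟨e1, -, e3⟩ := (h2.wit z hz hzT).near_il hcut hj.symm hk1 hk2 heT ha haA hae hyX hyO
        obtain ⟨x, hx, y, hy, hE⟩ := he.two
        have key : ∀ x ∈ g, x ∉ O e l := by
          intro x hx hxO
          have h5 := hg hx
          rw [chX_self] at h5
          exact h5.2 (e1 x h5.1 hxO)
        exact hE ((e3 l x (hgX hx) y (hgX hy)).2 ⟨fun h5 => absurd h5 (key x hx),
          fun h5 => absurd h5 (key y hy)⟩)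
      exact (h4.2 e heT hle).1 l hli
    · rw [h4.1 e (Or.inl he.mem) heT]
      exact ih hgX heT

/-- **An element of the star which has left**: the class of the end is the complement of the class of
the centre. -/
theorem StarRun.exit_centre (h : StarRun E O A B X₀ T₀ W₀ X A') (he : e ∈ T₀)
    (hle : e ∉ SigT O X₀ T₀ X) (hpl : ∃ x ∈ X l, x ∉ A' e l) {v : Fin 3 → α}
    (hv : ∀ j, v j ∈ X j) : v l ∈ A' e l ↔ ¬ B e (v 0) (v 1) (v 2) := by
  have h1 := h.B' e he hle ⟨l, hpl⟩ v hv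
  have h2 := (h.one (Or.inl he) hle).2 l
  rw [h1]
  constructor
  · rintro h3 ⟨j, hj⟩
    by_cases hjl : j = l
    · subst hjl
      exact hj h3
    · exact hj (h2 j (Ne.symm hjl) hpl _ (hv j))
  · intro h3
    by_contra h4
    exact h3 ⟨l, h4⟩

end TST
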