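import Pool.Agent.TST.JuCells
import Pool.Agent.TST.LinesPA
import Pool.Agent.TST.SGHostQ

/-!
# T-star, (B) lines: the pattern of a path with many unbalanced lines (helper35)
-/

open Set Relation
open scoped Matroid

namespace TST

open BIC Gad EN BICS Mdl

universe u

/-- **Row LP.** Many unbalanced lines of a sheet of the strip give a pattern. -/
theorem SG.patLine (Nn mp t n₁ : ℕ) : ∃ Kb Nb : ℕ, ∀ {α : Type u} {X₀ β σ : Type} {M : Matroid α}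
    [M.Finite] [Finite X₀] [Finite β] {W : RW X₀ β} {el : β → ℕ → α} {ln : σ → ℕ} {N : ℕ}
    {T : Strip W (CI ln) N} {Lm : ℕ} {Sf : Set α} {eL : α → Sym2 (HV (OV X₀ β Lm) σ)} {Q : Set α}
    {BQ : Set β} {u : ℕ} {Ed : CI ln → CI ln → Prop} {Rg : Set α},
    SG M W el T Lm Sf eL Q BQ u Ed Rg → Nb ≤ N → ∀ (s : σ) (len : σ → ℕ), len s = ln s →
    (∀ s', len s' = ln s' ∨ len s' = 0) →
    (∀ i j : CI ln, i.1.1 = j.1.1 → j.1.2 = i.1.2 + 1 → len i.1.1 ≠ 0 → Ed i j) → ∀ e₂ : ℕ,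
    (∀ r₁ r₂, {x : X₀ | ¬ ∃ y, Sum.inl y ∈ rowV W BQ ∧ ReflTransGen (fun a b => ∃ r, r ≠ r₁ ∧
      r ≠ r₂ ∧ ((W.hd r = a ∧ W.tl r = b) ∨ (W.hd r = b ∧ W.tl r = a))) x y}.ncard ≤ e₂) →
    (∀ x, {r | W.hd r = x ∨ W.tl r = x}.ncard ≤ 3) →
    (∃ Rs : Finset β, 3 * e₂ + 2 < Rs.card ∧ ∀ r ∈ Rs, ∃ i : CI ln, i.1.1 = s ∧ T.R i = r) →
    ∀ l : ℕ → ℕ, (∀ k < Kb, l k + 1 < ln s) → (∀ k, k + 1 < Kb → l k + 2 < l (k + 1)) →
    (∀ k < Kb, ∀ i j : CI ln, i.1 = (s, l k) → j.1 = (s, l k + 1) → ∀ b : ℤ, -(N : ℤ) ≤ b →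
      b + 1 ≤ -1 → ∃ e ∈ Rg, ∃ e' ∈ Rg, eL e = s(cv i b, cv j b) ∧
        eL e' = s(cv i (b + 1), cv j (b + 1)) ∧
        e' ∉ (M ／ Q).closure (ColE W el T i ∪ ColE W el T j ∪ {e})) →
    TSK.PatOut (M ／ Q) (Sh W el T univ Rg eL) eL (hostL (Sh W el T univ Rg eL) eL N len) N
      Nn mp t n₁ := by
  obtain ⟨K, N₀, hk⟩ := pa_of_lines.{u} Nn n₁
  refine ⟨K + 2, max N₀ 4, ?_⟩
  intro α X₀ β σ M _ _ _ W el ln N T Lm Sf eL Q BQ u Ed Rg h hN s len hs hlen hEd e₂ hQ2 hdeg hrows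
    l hl hl2 hub
  have hfin : (M ／ Q).Finite := ⟨M.ground_finite.subset sdiff_subset⟩
  have hl0 := hl2 0 (by omega)
  have hl1 := hl 1 (by omega)
  simp only [zero_add] at hl0
  have hs0 : len s ≠ 0 := by omega
  obtain ⟨_, _, _, _, hF, hE, _, _⟩ := h.hostQ (Lost := univ) (fun r hr => absurd trivial hr) hlen hEd
  obtain ⟨κ, Y, P, lo, hi, n, B, col, x, z, q, g1, g2, g3, g4, g5⟩ := hk (M ／ Q)
    (Sh W el T univ Rg eL) eL (hostL (Sh W el T univ Rg eL) eL N len) N (by omega) hF hE s l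
    (fun i hi => by
      have := hl i (by omega)
      show l i + 1 < len s
      omega)
    (fun i hi => hl2 i (by omega)) (fun lev hlev => by
      refine h.juCells (Lost := univ) s (fun i j hi hj hij => hEd i j (hi.trans hj.symm) hij ?_)
        hQ2 hdeg hrows l lev (fun k hk => hl k (by omega)) (fun k hk => hl2 k (by omega)) hlev
        (by omega) (by omega) fun k hk => ?_
      · rw [hi]
        exact hs0
      · have h1 := hl k (by omega)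
        obtain ⟨e, he, e', he', g1, g2, g3⟩ := hub k (by omega) ⟨(s, l k), show l k < ln s by omega⟩
          ⟨(s, l k + 1), h1⟩ rfl rfl (lev k) (hlev k hk).1 (hlev k hk).2
        exact h.cell (Lost := univ) (i := ⟨(s, l k), show l k < ln s by omega⟩)
          (j := ⟨(s, l k + 1), h1⟩) rfl rfl (hEd _ _ rfl rfl hs0) (hlev k hk).1 (hlev k hk).2
          he he' g1 g2 g3)
  exact ⟨κ, Y, P, lo, hi, n, B, col, 3, g1, g2, g3, fun j x hx hx' => ⟨s, g4 j x hx hx'⟩,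
    Or.inl ⟨x, z, q, g5⟩⟩

end TST
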