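import Pool.Agent.TST.LinkFloat

/-!
# T-star, row D2, floats, in terms of `AlphaA` (text of helper95's `linkFloat'`)
-/

open Set BIC BICS
open scoped Matroid

namespace TSK

universe u

open Mdl Mdj EN Gad

/-- **Row D2, floats, with any constant number `e` of exceptional vertices.** -/
theorem linkFloatA (k u : ℕ) : ∃ k₁ : ℕ, ∀ e : ℕ, ∃ w y₀ : ℕ, ∀ {α : Type u} {V σ : Type} (M : Matroid α)
    [M.Finite] (S Sf Q E₂ D₂ : Set α) (ends : α → Sym2 (HV V σ)) (H : Host V σ) (N : ℤ) (n' : ℕ)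
    {h : ℕ} (Z : Finset (EN.Wall.WV h)) (A : Set V),
    S ⊆ Sf → FrmU M Sf ends u → Q ⊆ M.E → Disjoint Q S → Frm (M ／ Q) S ends → Disjoint Sf E₂ → Disjoint S D₂ → E₂ ⊆ M.E → D₂ ⊆ M.E \ E₂ →
    PGrid (M✶ ／ D₂) E₂ n' → A.Finite → (∀ v, (∃ e ∈ S, (Sum.inl v : HV V σ) ∈ ends e) → v ∈ A) →
    AlphaA M E₂ Sf ends H N k₁ A e → y₀ ≤ n' →
    FloatOut (M ／ Q) S Sf ends H N Z 1 w → HasUniformMinor M k := by
  classical
  obtain ⟨k₁, hk⟩ := float_wall.{u, 0} k u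
  refine ⟨k₁, fun e => ?_⟩
  obtain ⟨w, y₀, hy⟩ := hk e
  refine ⟨w, y₀, ?_⟩
  intro α V σ M _ S Sf Q E₂ D₂ ends H N n' h Z A h1 h2 h3 h4 h5 h6 h7 h8 h9 h10 hA hAS hal hn' hF
  obtain ⟨B, a, f1, _, f3, f4, _, f6, f7, _, R, r1, r2, r3, r4⟩ := hF
  have hR : ∀ y, y ∈ R ↔ EN.Wall.vl y.1 ∈ Rct w (a 0).1 (a 0).2 := by
    intro y
    rw [r1]
    constructor
    · rintro ⟨i, hi, h⟩
      obtain rfl : i = 0 := by omega
      exact h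
    · intro h
      exact ⟨0, by omega, h⟩
  obtain ⟨g1, g2⟩ := f7 0 (by omega)
  -- every block of the rectangle has an element at each of its vertices
  have htouch : ∀ y ∈ R, ∀ v ∈ B y, ∃ e ∈ S, v ∈ ends e := by
    intro y hyR v hv
    obtain ⟨⟨⟨x, hx⟩, ⟨z, hz⟩⟩, hyZ⟩ := y
    have hm := (hR _).1 hyR
    have hm' : (a 0).1 ≤ x ∧ x < (a 0).1 + 2 * w ∧ (a 0).2 ≤ z ∧ z < (a 0).2 + w := hm
    obtain ⟨x', hx', hadj⟩ : ∃ x', ((a 0).1 ≤ x' ∧ x' < (a 0).1 + 2 * w) ∧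
        (x + 1 = x' ∨ x' + 1 = x) := by
      by_cases hlt : x + 1 < (a 0).1 + 2 * w
      · exact ⟨x + 1, ⟨by omega, hlt⟩, Or.inl rfl⟩
      · exact ⟨x - 1, ⟨by omega, by omega⟩, Or.inr (by omega)⟩
    have hz' : ((⟨x', by omega⟩, ⟨z, hz⟩) : EN.Wall.WV h) ∉ Z :=
      f6 0 (by omega) _ hx'.1 hx'.2 hm'.2.2.1 hm'.2.2.2
    have hzR : (⟨_, hz'⟩ : WZ Z) ∈ R := (hR _).2 ⟨hx'.1, hx'.2, hm'.2.2.1, hm'.2.2.2⟩
    exact touch_of (r2 _ hyR).1 (r3 _ hyR _ hzR (Or.inl ⟨rfl, hadj⟩)) hv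
  refine hy n' hn' M Sf S Q E₂ D₂ ends Z B (a 0).1 (a 0).2 R h1 h2 h3 h4 h5 h8 h9 h10 ?_ ?_ g1 g2 hR
    (fun y hy => ⟨f1 y, ?_, (r2 y hy).1⟩) (fun y _ z _ hyz => f4 y z hyz) r3 r4 ?_
  · rw [Set.disjoint_union_right]
    exact ⟨h6.mono_left h1, h7⟩
  · intro y hy
    exact f6 0 (by omega) y hy.1 hy.2.1 hy.2.2.1 hy.2.2.2
  · obtain ⟨v, hv⟩ := f3 y
    exact ⟨_, hv⟩
  · intro X hX hXE hXr
    obtain ⟨VB, B', v1, v2, v3, v4, v5, _, v8⟩ := hal X hX hXE hXr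
    refine ⟨VB, B', v1, v4, v5, v3, le_trans ?_ v8⟩
    choose vy hvy using f3
    refine Set.ncard_le_ncard_of_injOn vy ?_ ?_ (hA.subset fun v hv => hv.1)
    · rintro y ⟨hyR, hyd⟩
      exact ⟨hAS _ (htouch y hyR _ (hvy y)), Set.disjoint_left.1 hyd (hvy y)⟩
    · rintro y _ z _ hyz
      by_contra hne
      refine Set.disjoint_left.1 (f4 y z hne) (hvy y) ?_
      rw [hyz]
      exact hvy z

end TSK
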