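import Pool.Agent.EN.KtMain
import Pool.Agent.TST.HostDef

/-!
# T-star, row D2, the `K_t` branch in the host (helper88, MP_5165fa_co)
-/

open Set BIC BICS
open scoped Matroid

namespace TSK

universe u

open Mdl Mdj EN Gad

/-- A complete minor of the system with ports in every set, without the ground. -/
lemma ktp_ng {κ : Type*} {Y : EN.Sys κ} {t : ℕ} (h : Y.KTp t) : Y.ng.KTp t := h

/-- **Row D2, the `K_t` branch.** -/
theorem linkKt (k u : ℕ) : ∃ k₁ T n₁ y₀ : ℕ, ∀ {α : Type u} {V σ κ : Type} (M M' : Matroid α)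
    [M.Finite] (S Sf Q E₂ D₂ : Set α) (ends : α → Sym2 (HV V σ)) (H : Host V σ) (N : ℤ)
    (e n' : ℕ) (Y : EN.Sys κ) (P : ℕ → ℕ × ℕ → HV V σ) (lo hi : ℕ → ℕ) (n : ℕ)
    (B : κ → Set (HV V σ)) (col : ℕ → ℕ) (D : ℕ), HostD M S Sf Q E₂ D₂ ends H N u k₁ e n' →
    y₀ ≤ n' → Y.Ax D → RealU Y M' S ends P lo hi n B col → n₁ ≤ n → PgH H N P lo hi n →
    Y.KT T → HasUniformMinor M k := by
  classical
  obtain ⟨K₂, T, n₁, y₀, hk⟩ := kt_main.{u, 0} k u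
  refine ⟨K₂, 2 * (T + 1), n₁ + 1, y₀, ?_⟩
  intro α V σ κ M M' _ S Sf Q E₂ D₂ ends H N e n' Y P lo hi n B col D hD hn' hY hR hn hPg hKT
  obtain ⟨h1, h2, -, -, -, -, -, -, h3, h4, h5, h6, h7, hal⟩ := hD
  obtain ⟨X, sg, cx, hX⟩ := hR.real.ktR (by omega) (ktp_ng (hKT.ports hY (by omega)))
  refine hk n' hn' M S Sf ends E₂ D₂ P lo hi n X sg cx h1 h2 h5 h6 h7 ?_ (by omega) hR.pgs
    ⟨⟨fun i hi' => hX.low.fin i (by omega), fun i hi' => hX.low.con i (by omega),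
      fun i hi' j hj => hX.low.dis i (by omega) j (by omega),
      fun i hi' => hX.low.rng i (by omega), fun i hi' => hX.low.mem i (by omega),
      fun i hi' => hX.low.low i (by omega)⟩,
      fun i hi' j hj => hX.lnk i (by omega) j (by omega)⟩ ?_
  · rw [Set.disjoint_union_right]
    exact ⟨h3.mono_left h1, h4⟩
  · intro X' hX' hXE hXr
    obtain ⟨VB, B', v1, v2, v3, -, v4, v5, -⟩ := hal X' hX' hXE hXr
    refine ⟨VB, B', v1, v2, v3, v4, fun s x hx hx' => ?_⟩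
    obtain ⟨s', hs', hc⟩ := hPg s x hx hx'
    obtain ⟨c, hc1, hc2⟩ := v5 s' (by omega)
    obtain ⟨g1, g2, g3⟩ := hc c hc1
    refine ⟨c, g1, g2, fun b hb => ?_⟩
    obtain ⟨b', b1, b2, b3, b4⟩ := g3 b hb
    rw [b4]
    exact hc2 b' b1 b2 b3

end TSK
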