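import Pool.Agent.TST.Top
import Pool.Agent.EN.LinkPat
import Pool.Agent.EN.KtMain

/-!
# Row D2 of T-star, patterns: the case split
-/

open Set BIC BICS
open scoped Matroid

namespace TSK

universe u

open Mdl Mdj EN Gad

lemma _root_.EN.KtR.le {α V : Type*} {S : Set α} {ends : α → Sym2 V} {P : ℕ → ℕ × ℕ → V}
    {lo hi : ℕ → ℕ} {n t t' : ℕ} {X : ℕ → Set V} {sg cx : ℕ → ℕ}
    (h : KtR S ends P lo hi n t X sg cx) (ht : t' ≤ t) : KtR S ends P lo hi n t' X sg cx :=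
  ⟨⟨fun i hi => h.low.fin i (hi.trans_le ht), fun i hi => h.low.con i (hi.trans_le ht),
    fun i hi j hj => h.low.dis i (hi.trans_le ht) j (hj.trans_le ht),
    fun i hi => h.low.rng i (hi.trans_le ht), fun i hi => h.low.mem i (hi.trans_le ht),
    fun i hi => h.low.low i (hi.trans_le ht)⟩,
    fun i hi j hj => h.lnk i (hi.trans_le ht) j (hj.trans_le ht)⟩

/-- **Row D2, patterns.** -/
theorem linkPattern (k u : ℕ) : LinkPattern.{u} k u := by
  obtain ⟨k₁, Nn, mp, n₁, y₀, hP⟩ := linkPat0.{u} k u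
  obtain ⟨k₂, T, n₂, y₁, hK⟩ := kt_main.{u, 0} k u
  refine ⟨max k₁ k₂, fun e => ⟨0, Nn, mp, 2 * (T + 1), max (max n₁ n₂) 1, max y₀ y₁, ?_⟩⟩
  intro α V σ _ _ M _ S Sf Q E₂ D₂ ends H N n' hD _ hy hpat
  obtain ⟨κ, Y, P, lo, hi, n, B, col, D, hAx, hR, hn, hPg, hp⟩ := hpat
  have hy0 : y₀ ≤ n' := (le_max_left _ _).trans hy
  have hy1 : y₁ ≤ n' := (le_max_right _ _).trans hy
  have hn1 : n₁ ≤ n := ((le_max_left _ _).trans (le_max_left _ _)).trans hn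
  have hn2 : n₂ ≤ n := ((le_max_right _ _).trans (le_max_left _ _)).trans hn
  have hn3 : 1 ≤ n := (le_max_right _ _).trans hn
  have hal : ∀ k₃ ≤ max k₁ k₂, AlphaC M E₂ Sf ends H N k₃ := by
    intro k₃ hk₃ X hX hd hr
    obtain ⟨VB, B', h1, h2, h3, h4, h5, h6, _⟩ := hD.alpha X hX hd (by omega)
    exact ⟨VB, B', h1, h2, h3, h5, h6⟩
  rcases hP M S Sf Q E₂ D₂ ends H N n' (2 * (T + 1)) Y P lo hi n B col hD.sub hD.frmU hD.Q_sub
    hD.QS hD.SE hD.SD hD.E_sub hD.D_sub hD.pg (hal _ (le_max_left _ _)) hy0 hR hAx.mono hn1 hPg hp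
    with hKT | h
  · have hports : Y.KTp (T + 1) := Sys.KT.ports hAx (by omega) hKT
    obtain ⟨X, sg, cx, hX⟩ := hR.real.ktR hn3 (t := T + 1) hports
    have hX' : KtR S ends P lo hi n T X sg cx := hX.le (by omega)
    refine hK n' hy1 M S Sf ends E₂ D₂ P lo hi n X sg cx hD.sub hD.frmU hD.E_sub hD.D_sub hD.pg ?_
      hn2 hR.pgs hX' ?_
    · rw [Set.disjoint_union_right]
      exact ⟨hD.SE.mono_left hD.sub, hD.SD⟩
    · intro X hX hd hr
      obtain ⟨VB, B', h1, h2, h3, h4, h5⟩ := hal _ (le_max_right _ _) X hX hd hr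
      refine ⟨VB, B', h1, h2, h3, h4, ?_⟩
      intro j x hx hx'
      obtain ⟨s, hs1, hs2⟩ := hPg j x hx hx'
      obtain ⟨c, hc1, hc2⟩ := h5 s (by omega)
      obtain ⟨h6, h7, h8⟩ := hs2 c hc1
      refine ⟨c, h6, h7, ?_⟩
      intro b hb
      obtain ⟨b', g1, g2, g3, g4⟩ := h8 b hb
      rw [g4]
      exact hc2 b' g1 g2 g3
  · exact h

end TSK
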