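import Pool.Agent.TST.LabDef

/-!
# (MAX): the labels which are not cut by a maximal list are private (label level of T*, helper88)

Pure graph argument of helper47.  `Same` = two labels of one row which are split by one same-row family,
`Near v` = two labels which are split by one near family at `v`, `Far` = by one far family; `i = j` and
labels on one row are allowed.
-/

set_option autoImplicit false

open Set

namespace TST

universe v w

/-- the graph of the star at `v` -/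
def StG {β : Type v} {ν : Type w} (nd₁ nd₂ : β → ν) (R : ℕ → β) (Same : ℕ → ℕ → Prop)
    (Near : ν → ℕ → ℕ → Prop) (x : ν) (i j : ℕ) : Prop :=
  (Same i j ∧ At nd₁ nd₂ (R i) x) ∨ Near x i j

/-- a label at `v` which is split by a real exit of the star `v` -/
def ExG {β : Type v} {ν : Type w} (nd₁ nd₂ : β → ν) (R : ℕ → β) (Far : ℕ → ℕ → Prop)
    (Near : ν → ℕ → ℕ → Prop) (x : ν) (p : ℕ) : Prop :=
  At nd₁ nd₂ (R p) x ∧ ((∃ j, Far p j) ∨ ∃ y, y ≠ x ∧ ∃ j, Near y p j)

/-- `i` is no uncut label of the row `G` -/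
def AvG {β : Type v} (R : ℕ → β) (Cut : Set ℕ) (G : β) (i : ℕ) : Prop := R i = G → i ∈ Cut

/-- a path in the star `x` which avoids the uncut labels of the row `G` -/
def PathG {β : Type v} {ν : Type w} (nd₁ nd₂ : β → ν) (R : ℕ → β) (Same : ℕ → ℕ → Prop)
    (Near : ν → ℕ → ℕ → Prop) (Cut : Set ℕ) (G : β) (x : ν) (i j : ℕ) : Prop :=
  AvG R Cut G i ∧ Relation.ReflTransGen
    (fun a b => StG nd₁ nd₂ R Same Near x a b ∧ AvG R Cut G a ∧ AvG R Cut G b) i j

section

variable {β : Type v} {ν : Type w} {nd₁ nd₂ : β → ν} {R : ℕ → β} {Same Far Adj : ℕ → ℕ → Prop}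
  {Near : ν → ℕ → ℕ → Prop} {Cut Cut' : Set ℕ} {G : β} {x : ν} {i j k : ℕ}

lemma PathG.refl (h : AvG R Cut G i) : PathG nd₁ nd₂ R Same Near Cut G x i i :=
  ⟨h, Relation.ReflTransGen.refl⟩

lemma PathG.end (h : PathG nd₁ nd₂ R Same Near Cut G x i j) : AvG R Cut G j := by
  rcases Relation.ReflTransGen.cases_tail h.2 with h1 | ⟨y, -, h1⟩
  · rw [h1]
    exact h.1
  · exact h1.2.2

lemma PathG.tail (h : PathG nd₁ nd₂ R Same Near Cut G x i j)
    (h1 : StG nd₁ nd₂ R Same Near x j k) (h2 : AvG R Cut G k) :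
    PathG nd₁ nd₂ R Same Near Cut G x i k :=
  ⟨h.1, h.2.tail ⟨h1, h.end, h2⟩⟩

lemma PathG.trans (h : PathG nd₁ nd₂ R Same Near Cut G x i j)
    (h' : PathG nd₁ nd₂ R Same Near Cut G x j k) : PathG nd₁ nd₂ R Same Near Cut G x i k :=
  ⟨h.1, h.2.trans h'.2⟩

lemma StG.symm (hS : ∀ i j, Same i j → Same j i) (hSr : ∀ i j, Same i j → R i = R j)
    (hN : ∀ y i j, Near y i j → Near y j i) (h : StG nd₁ nd₂ R Same Near x i j) :
    StG nd₁ nd₂ R Same Near x j i := by
  rcases h with ⟨h1, h2⟩ | h1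
  · exact Or.inl ⟨hS _ _ h1, by rw [← hSr _ _ h1]; exact h2⟩
  · exact Or.inr (hN _ _ _ h1)

lemma PathG.symm (hS : ∀ i j, Same i j → Same j i) (hSr : ∀ i j, Same i j → R i = R j)
    (hN : ∀ y i j, Near y i j → Near y j i) (h : PathG nd₁ nd₂ R Same Near Cut G x i j) :
    PathG nd₁ nd₂ R Same Near Cut G x j i := by
  refine ⟨h.end, ?_⟩
  have h1 := h.2
  induction h1 with
  | refl => exact Relation.ReflTransGen.refl
  | tail h2 h3 ih =>
    exact Relation.ReflTransGen.head ⟨h3.1.symm hS hSr hN, h3.2.2, h3.2.1⟩ (ih ⟨h.1, h2⟩)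

/-- larger sets of cut labels -/
lemma PathG.mono (h : PathG nd₁ nd₂ R Same Near Cut G x i j) (hC : Cut ⊆ Cut') :
    PathG nd₁ nd₂ R Same Near Cut' G x i j :=
  ⟨fun h1 => hC (h.1 h1), Relation.ReflTransGen.mono (fun _ _ h1 =>
    ⟨h1.1, fun h2 => hC (h1.2.1 h2), fun h2 => hC (h1.2.2 h2)⟩) _ _ h.2⟩

/-- all labels of a path in the star `x` are at `x` -/
lemma PathG.at (hSr : ∀ i j, Same i j → R i = R j)
    (hNr : ∀ y i j, Near y i j → At nd₁ nd₂ (R i) y ∧ At nd₁ nd₂ (R j) y)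
    (h : PathG nd₁ nd₂ R Same Near Cut G x i j) (hi : At nd₁ nd₂ (R i) x) :
    At nd₁ nd₂ (R j) x := by
  have h1 := h.2
  clear h
  induction h1 with
  | refl => exact hi
  | tail _ h3 ih =>
    rcases h3.1 with ⟨h4, h5⟩ | h4
    · rw [← hSr _ _ h4]
      exact h5
    · exact (hNr _ _ _ h4).2

/-- (I_v) every cut label is joined to an exit of the star outside of the uncut labels of its row -/
def InvP {β : Type v} {ν : Type w} (nd₁ nd₂ : β → ν) (R : ℕ → β) (Far Same : ℕ → ℕ → Prop)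
    (Near : ν → ℕ → ℕ → Prop) (Cut : Set ℕ) : Prop := ∀ y i, At nd₁ nd₂ (R i) y → i ∈ Cut →
  ∃ p, ExG nd₁ nd₂ R Far Near y p ∧ PathG nd₁ nd₂ R Same Near Cut (R i) y p i

/-- **(MAX).**  `C1`: labels of far rungs are cut; `C1'`, `C2`, `C2'`: elements which see two labels of one
row do not join a cut and an uncut label.  `C3`: a near neighbour of an uncut label of `G` is separated
from the exits of the star by the uncut labels of `G`.  `C4` = (I_v).  `Far i j`, `Near y i j` also for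
`i = j` and for labels on one row. -/
theorem max_priv (hSs : ∀ i j, Same i j → Same j i) (hSr : ∀ i j, Same i j → R i = R j)
    (hNs : ∀ y i j, Near y i j → Near y j i) (hFs : ∀ i j, Far i j → Far j i)
    (hNr : ∀ y i j, Near y i j → At nd₁ nd₂ (R i) y ∧ At nd₁ nd₂ (R j) y)
    (hA : ∀ i j, Adj i j → Same i j ∨ (∃ y, Near y i j) ∨ Far i j)
    (C1 : ∀ i j, Far i j → R i ≠ R j → i ∈ Cut)
    (C1' : ∀ i j, Far i j → R i = R j → i ∈ Cut → j ∈ Cut)
    (C2 : ∀ i j, Same i j → i ∈ Cut → j ∈ Cut)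
    (C2' : ∀ y i j, Near y i j → R i = R j → i ∈ Cut → j ∈ Cut)
    (C3 : ∀ y a b, Near y a b → R a ≠ R b → a ∉ Cut → ∀ p, ExG nd₁ nd₂ R Far Near y p →
      ¬ PathG nd₁ nd₂ R Same Near Cut (R a) y p b)
    (C4 : InvP nd₁ nd₂ R Far Same Near Cut)
    {a : ℕ} (ha : a ∉ Cut) : ∀ j, Relation.ReflTransGen Adj a j →
      At nd₁ nd₂ (R j) (nd₁ (R a)) ∨ At nd₁ nd₂ (R j) (nd₂ (R a)) := by
  obtain ⟨G, hG⟩ : ∃ G, G = R a := ⟨_, rfl⟩
  obtain ⟨B, hB⟩ : ∃ B : ν → ℕ → Prop, B = fun y q => ∃ a' b, (R a' = G ∧ a' ∉ Cut) ∧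
    Near y a' b ∧ R b ≠ G ∧ PathG nd₁ nd₂ R Same Near Cut G y b q := ⟨_, rfl⟩
  have Bv : ∀ y q, B y q ↔ ∃ a' b, (R a' = G ∧ a' ∉ Cut) ∧ Near y a' b ∧ R b ≠ G ∧
      PathG nd₁ nd₂ R Same Near Cut G y b q := fun y q => by rw [hB]
  -- the labels of `B` are at the vertex, they are no exits, and they are on other rows
  have B1 : ∀ y q, B y q → At nd₁ nd₂ (R q) y ∧ ¬ ExG nd₁ nd₂ R Far Near y q ∧ R q ≠ G := by
    intro y q hq
    rw [Bv] at hq
    obtain ⟨a', b, ⟨h1, h2⟩, h3, hbG, h4⟩ := hq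
    have h5 := h4.symm hSs hSr hNs
    have hC3 := C3 y a' b h3 (fun h => hbG (h.symm.trans h1)) h2
    rw [h1] at hC3
    refine ⟨h4.at hSr hNr (hNr _ _ _ h3).2, fun h6 => hC3 q h6 h5, fun h6 => ?_⟩
    have h7 : q ∈ Cut := h4.end h6
    obtain ⟨p, hp, hpq⟩ := C4 y q (h4.at hSr hNr (hNr _ _ _ h3).2) h7
    rw [h6] at hpq
    exact hC3 p hp (hpq.trans h5)
  -- the closed set
  have key : ∀ q, Relation.ReflTransGen Adj a q →
      (R q = G ∧ q ∉ Cut) ∨ B (nd₁ G) q ∨ B (nd₂ G) q := by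
    intro q hq
    induction hq with
    | refl => exact Or.inl ⟨hG.symm, ha⟩
    | @tail q q' _ h2 ih =>
      -- a label of the star
      have hBstep : ∀ y, B y q → (R q' = G ∧ q' ∉ Cut) ∨ B y q' := by
        intro y hy
        obtain ⟨g1, g2, g3⟩ := B1 y q hy
        by_cases hu : R q' = G ∧ q' ∉ Cut
        · exact Or.inl hu
        right
        have hav : AvG R Cut G q' := by
          intro h4
          by_contra h5
          exact hu ⟨h4, h5⟩
        rw [Bv] at hy ⊢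
        obtain ⟨a', b, h3, h4, hbG, h5⟩ := hy
        rcases hA q q' h2 with h6 | ⟨y', h6⟩ | h6
        · exact ⟨a', b, h3, h4, hbG, h5.tail (Or.inl ⟨h6, g1⟩) hav⟩
        · by_cases hyy : y' = y
          · subst hyy
            exact ⟨a', b, h3, h4, hbG, h5.tail (Or.inr h6) hav⟩
          · exact absurd ⟨g1, Or.inr ⟨y', hyy, q', h6⟩⟩ g2
        · exact absurd ⟨g1, Or.inl ⟨q', h6⟩⟩ g2
      rcases ih with ⟨h3, h4⟩ | h3 | h3
      · rcases hA q q' h2 with h6 | ⟨y, h6⟩ | h6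
        · left
          refine ⟨by rw [← hSr _ _ h6, h3], fun h7 => h4 (C2 _ _ (hSs _ _ h6) h7)⟩
        · by_cases hR : R q' = G
          · left
            exact ⟨hR, fun h7 => h4 (C2' y _ _ (hNs _ _ _ h6) (hR.trans h3.symm) h7)⟩
          have h7 : B y q' := by
            rw [Bv]
            exact ⟨q, q', ⟨h3, h4⟩, h6, hR, PathG.refl fun h8 => absurd h8 hR⟩
          have h8 := (hNr _ _ _ h6).1
          rw [h3] at h8
          rcases h8 with h8 | h8
          · right; left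
            rw [h8]
            exact h7
          · right; right
            rw [h8]
            exact h7
        · by_cases hR : R q' = G
          · left
            exact ⟨hR, fun h7 => h4 (C1' _ _ (hFs _ _ h6) (hR.trans h3.symm) h7)⟩
          · exact absurd (C1 _ _ h6 fun h => hR (h.symm.trans h3)) h4
      · rcases hBstep _ h3 with h5 | h5
        · exact Or.inl h5
        · exact Or.inr (Or.inl h5)
      · rcases hBstep _ h3 with h5 | h5
        · exact Or.inl h5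
        · exact Or.inr (Or.inr h5)
  intro j hj
  rw [← hG]
  rcases key j hj with ⟨h1, -⟩ | h1 | h1
  · rw [h1]
    exact Or.inl (Or.inl rfl)
  · exact Or.inl (B1 _ _ h1).1
  · exact Or.inr (B1 _ _ h1).1

end

end TST
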