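import Pool.Agent.TST.RowStar

/-!
# Two crossing chords of a circuit

`K` is a circuit, `t` and `t'` have exactly two classes `A`, `K \ A` and `A'`, `K \ A'` on `K`.  If the
classes cross then `(A ∩ A') ∪ (K \ (A ∪ A'))` is a circuit of `N ／ {t, t'}`.  (For `A ⊆ A'` this is
false: `A`, `A' \ A`, `K \ A'` are three circuits of a direct sum.)
-/

open Set
open scoped Matroid

namespace TST

variable {α : Type*} {N : Matroid α} {K A A' : Set α} {t t' : α}

/-- `A` and `K \ A` are the two classes of `t` on `K` -/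
structure Chord (N : Matroid α) (K A : Set α) (t : α) : Prop where
  sub : A ⊆ K
  notMem : t ∉ K
  c1 : N.IsCircuit (insert t A)
  c2 : N.IsCircuit (insert t (K \ A))

lemma Chord.compl (h : Chord N K A t) : Chord N K (K \ A) t where
  sub := sdiff_subset
  notMem := h.notMem
  c1 := h.c2
  c2 := by
    rw [sdiff_sdiff_cancel_left h.sub]
    exact h.c1

lemma Chord.cl (h : Chord N K A t) : t ∈ N.closure A := by
  have h1 := h.c1.mem_closure_sdiff_singleton_of_mem (mem_insert t A)
  rwa [insert_sdiff_self_of_notMem (fun hx => h.notMem (h.sub hx))] at h1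

/-- a set which spans `t` contains one of the classes -/
lemma Chord.sub_of_mem (hK : N.IsCircuit K) (h : Chord N K A t) {G : Set α} (hG : G ⊆ K)
    (ht : t ∈ N.closure G) : A ⊆ G ∨ K \ A ⊆ G := by
  by_contra hcon
  push Not at hcon
  obtain ⟨a, ha, haG⟩ := Set.not_subset.1 hcon.1
  obtain ⟨b, hb, hbG⟩ := Set.not_subset.1 hcon.2
  have hab : a ≠ b := by
    rintro rfl
    exact hb.2 ha
  have h1 : t ∈ N.closure (K \ {a, b}) := by
    refine N.closure_subset_closure ?_ ht
    intro x hx
    refine ⟨hG hx, ?_⟩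
    rintro (h2 | h2)
    · exact haG (h2 ▸ hx)
    · exact hbG (h2 ▸ hx)
  have h2 : a ∈ N.closure (insert t A \ {a}) :=
    h.c1.mem_closure_sdiff_singleton_of_mem (Or.inr ha)
  have h3 : a ∈ N.closure (K \ {a, b}) := by
    refine N.closure_subset_closure_of_subset_closure ?_ h2
    rintro x ⟨hx | hx, hxa⟩
    · exact hx ▸ h1
    · refine N.mem_closure_of_mem' ⟨h.sub hx, ?_⟩ (hK.subset_ground (h.sub hx))
      rintro (h4 | h4)
      · exact hxa h4
      · exact hb.2 (h4 ▸ hx)
  have h4 := hK.sdiff_singleton_indep (e := b) hb.1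
  refine h4.notMem_closure_sdiff_of_mem (e := a) ⟨h.sub ha, hab⟩ ?_
  refine N.closure_subset_closure ?_ h3
  rintro x ⟨hx, hx'⟩
  exact ⟨⟨hx, fun h5 => hx' (Or.inr h5)⟩, fun h5 => hx' (Or.inl h5)⟩

/-- `t'` is no loop of `N ／ t` -/
lemma Chord.not_par (hK : N.IsCircuit K) (h : Chord N K A t) (h' : Chord N K A' t')
    (hx : (A \ A').Nonempty) (hx' : (A' \ A).Nonempty)
    (hne : (A ∩ A' ∪ K \ (A ∪ A')).Nonempty) : t' ∉ N.closure {t} := by
  intro ht
  obtain ⟨y, hy⟩ := hx
  obtain ⟨x, hx⟩ := hx'
  have h1 : t' ∈ N.closure A :=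
    N.closure_subset_closure_of_subset_closure (singleton_subset_iff.2 h.cl) ht
  have h2 : t' ∈ N.closure (K \ A) :=
    N.closure_subset_closure_of_subset_closure (singleton_subset_iff.2 h.compl.cl) ht
  rcases h'.sub_of_mem hK h.sub h1 with h3 | h3
  · exact hx.2 (h3 hx.1)
  rcases h'.sub_of_mem hK sdiff_subset h2 with h4 | h4
  · obtain ⟨z, hz | hz⟩ := hne
    · exact (h4 hz.2).2 hz.1
    · exact hz.2 (Or.inl (h3 ⟨hz.1, fun h5 => hz.2 (Or.inr h5)⟩))
  · exact (h4 ⟨h.sub hy.1, hy.2⟩).2 hy.1

/-- **Crossing chords.** -/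
theorem Chord.cross (hK : N.IsCircuit K) (h : Chord N K A t) (h' : Chord N K A' t')
    (htt : t ≠ t') (hx : (A \ A').Nonempty) (hx' : (A' \ A).Nonempty)
    (hne : (A ∩ A' ∪ K \ (A ∪ A')).Nonempty) :
    (N ／ {t, t'}).IsCircuit (A ∩ A' ∪ K \ (A ∪ A')) := by
  classical
  have hKE := hK.subset_ground
  have htE : t ∈ N.E := h.c1.subset_ground (mem_insert _ _)
  have htE' : t' ∈ N.E := h'.c1.subset_ground (mem_insert _ _)
  have hpar := h.not_par hK h' hx hx' hne
  obtain ⟨y, hy⟩ := hx
  obtain ⟨x, hx⟩ := hx'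
  have hyK := h.sub hy.1
  have hxK := h'.sub hx.1
  obtain ⟨Z, hZ⟩ : ∃ Z, Z = A ∩ A' ∪ K \ (A ∪ A') := ⟨_, rfl⟩
  rw [← hZ] at hne ⊢
  have hZK : Z ⊆ K := by
    rw [hZ]
    rintro z (hz | hz)
    · exact h.sub hz.1
    · exact hz.1
  have hyZ : y ∉ Z := by
    rw [hZ]
    rintro (h1 | h1)
    · exact hy.2 h1.2
    · exact h1.2 (Or.inl hy.1)
  have hxZ : x ∉ Z := by
    rw [hZ]
    rintro (h1 | h1)
    · exact hx.2 h1.1
    · exact h1.2 (Or.inr hx.1)
  have htZ : t ∉ Z := fun h1 => h.notMem (hZK h1)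
  have htZ' : t' ∉ Z := fun h1 => h'.notMem (hZK h1)
  -- `t` is no loop
  have htl : N.Indep {t} := by
    rw [Matroid.indep_singleton, ← N.not_isLoop_iff htE]
    intro hl
    have h1 : t ∈ N.closure (K \ {y, x}) := hl.mem_closure _
    rcases h.sub_of_mem hK sdiff_subset h1 with h2 | h2
    · exact (h2 hy.1).2 (Or.inl rfl)
    · exact (h2 ⟨hxK, hx.2⟩).2 (Or.inr rfl)
  have hind : N.Indep {t, t'} := by
    have h1 := (htl.notMem_closure_iff htE').1 hpar
    rw [pair_comm]
    exact h1.1
  -- the set `(A \ y) ∪ (B \ x)` is independent over `t`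
  have hI : N.Indep (insert t (K \ {y, x})) := by
    have h1 : N.Indep (K \ {y, x}) := by
      refine (hK.sdiff_singleton_indep hyK).subset ?_
      rintro z ⟨hz, hz'⟩
      exact ⟨hz, fun h2 => hz' (Or.inl h2)⟩
    refine ((h1.notMem_closure_iff htE).1 fun h2 => ?_).1
    rcases h.sub_of_mem hK sdiff_subset h2 with h3 | h3
    · exact (h3 hy.1).2 (Or.inl rfl)
    · exact (h3 ⟨hxK, hx.2⟩).2 (Or.inr rfl)
  -- `t'` is spanned by `t` and `Z`
  have hcl : t' ∈ N.closure (insert t Z) := by
    have e1 : t' ∈ N.closure (insert t ((K \ {y, x}) \ (A \ A'))) := by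
      refine N.closure_subset_closure_of_subset_closure ?_ h'.cl
      intro z hz
      by_cases hzx : z = x
      · -- `x ∈ cl (t ∪ (B \ x))`
        have h1 := h.c2.mem_closure_sdiff_singleton_of_mem (e := x) (Or.inr ⟨hxK, hx.2⟩)
        rw [hzx]
        refine N.closure_subset_closure ?_ h1
        rintro w ⟨hw | hw, hwx⟩
        · exact Or.inl hw
        · right
          refine ⟨⟨hw.1, ?_⟩, fun h2 => hw.2 h2.1⟩
          rintro (h2 | h2)
          · exact hw.2 (h2 ▸ hy.1)
          · exact hwx h2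
      · refine N.mem_closure_of_mem' (Or.inr ⟨⟨h'.sub hz, ?_⟩, fun h2 => h2.2 hz⟩)
          (hKE (h'.sub hz))
        rintro (h2 | h2)
        · exact hy.2 (h2 ▸ hz)
        · exact hzx h2
    have e2 : t' ∈ N.closure (insert t ((K \ {y, x}) \ (A' \ A))) := by
      refine N.closure_subset_closure_of_subset_closure ?_ h'.compl.cl
      rintro z ⟨hz, hz'⟩
      by_cases hzy : z = y
      · have h1 := h.c1.mem_closure_sdiff_singleton_of_mem (e := y) (Or.inr hy.1)
        rw [hzy]
        refine N.closure_subset_closure ?_ h1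
        rintro w ⟨hw | hw, hwy⟩
        · exact Or.inl hw
        · right
          refine ⟨⟨h.sub hw, ?_⟩, fun h2 => h2.2 hw⟩
          rintro (h2 | h2)
          · exact hwy h2
          · exact hx.2 (h2 ▸ hw)
      · refine N.mem_closure_of_mem' (Or.inr ⟨⟨hz, ?_⟩, fun h2 => hz' h2.1⟩) (hKE hz)
        rintro (h2 | h2)
        · exact hzy h2
        · exact hz' (h2 ▸ hx.1)
    have hs : insert t ((K \ {y, x}) \ (A \ A')) ∪ insert t ((K \ {y, x}) \ (A' \ A)) ⊆
        insert t (K \ {y, x}) := by
      rintro z ((hz | hz) | (hz | hz))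
      · exact Or.inl hz
      · exact Or.inr hz.1
      · exact Or.inl hz
      · exact Or.inr hz.1
    have h1 : t' ∈ N.closure (insert t ((K \ {y, x}) \ (A \ A')) ∩
        insert t ((K \ {y, x}) \ (A' \ A))) := by
      rw [(hI.subset hs).closure_inter_eq_inter_closure]
      exact ⟨e1, e2⟩
    refine N.closure_subset_closure ?_ h1
    rintro z ⟨hz, hz'⟩
    rcases hz with hz | hz
    · exact Or.inl hz
    rcases hz' with hz' | hz'
    · exact Or.inl hz'
    right
    rw [hZ]
    by_cases h2 : z ∈ A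
    · exact Or.inl ⟨h2, by by_contra h3; exact hz.2 ⟨h2, h3⟩⟩
    · refine Or.inr ⟨hz.1.1, ?_⟩
      rintro (h3 | h3)
      · exact h2 h3
      · exact hz'.2 ⟨h3, h2⟩
  rw [Matroid.isCircuit_iff_dep_forall_sdiff_singleton_indep]
  constructor
  · rw [hind.contract_dep_iff]
    refine ⟨?_, ?_⟩
    · rw [Set.disjoint_left]
      rintro z hz (h1 | h1)
      · exact htZ (h1 ▸ hz)
      · exact htZ' (h1 ▸ hz)
    · refine ⟨?_, ?_⟩
      · intro h1
        have h2 : N.Indep (insert t' (insert t Z)) := h1.subset (by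
          rintro z (hz | hz | hz)
          · exact Or.inr (Or.inr hz)
          · exact Or.inr (Or.inl hz)
          · exact Or.inl hz)
        have h3 : t' ∉ insert t Z := by
          rintro (h4 | h4)
          · exact htt h4.symm
          · exact htZ' h4
        have h4 : N.Indep (insert t Z) := h2.subset (subset_insert _ _)
        exact ((h4.notMem_closure_iff_of_notMem h3 htE').2 h2) hcl
      · refine union_subset (hZK.trans hKE) ?_
        rintro z (h1 | h1)
        · exact h1 ▸ htE
        · exact h1 ▸ htE'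
  · intro z hz
    rw [hind.contract_indep_iff]
    constructor
    · rw [Set.disjoint_left]
      rintro w hw (h1 | h1)
      · exact htZ (h1 ▸ hw.1)
      · exact htZ' (h1 ▸ hw.1)
    -- first `t`, then `t'`
    have i0 : N.Indep (insert t (Z \ {z})) := hI.subset (by
      rintro w (hw | hw)
      · exact Or.inl hw
      · refine Or.inr ⟨hZK hw.1, ?_⟩
        rintro (h1 | h1)
        · exact hyZ (h1 ▸ hw.1)
        · exact hxZ (h1 ▸ hw.1))
    have i1 : t' ∉ N.closure (insert t (Z \ {z})) := by
      intro h1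
      rw [hZ] at hz
      rcases hz with hz | hz
      · -- `z ∈ A ∩ A'`
        have h2 : t' ∈ N.closure ((K \ A) ∪ ((A ∩ A') \ {z})) := by
          refine N.closure_subset_closure_of_subset_closure ?_ h1
          rintro w (hw | hw)
          · rw [hw]
            exact N.closure_subset_closure subset_union_left h.compl.cl
          · refine N.mem_closure_of_mem' ?_ (hKE (hZK hw.1))
            have h3 := hw.1
            rw [hZ] at h3
            rcases h3 with h3 | h3
            · exact Or.inr ⟨h3, hw.2⟩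
            · exact Or.inl ⟨h3.1, fun h4 => h3.2 (Or.inl h4)⟩
        rcases h'.sub_of_mem hK (by
          rintro w (hw | hw)
          · exact hw.1
          · exact h.sub hw.1.1) h2 with h3 | h3
        · rcases h3 hz.2 with h4 | h4
          · exact h4.2 hz.1
          · exact h4.2 rfl
        · rcases h3 ⟨hyK, hy.2⟩ with h4 | h4
          · exact h4.2 hy.1
          · exact hy.2 h4.1.2
      · have h2 : t' ∈ N.closure (A ∪ ((K \ (A ∪ A')) \ {z})) := by
          refine N.closure_subset_closure_of_subset_closure ?_ h1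
          rintro w (hw | hw)
          · rw [hw]
            exact N.closure_subset_closure subset_union_left h.cl
          · refine N.mem_closure_of_mem' ?_ (hKE (hZK hw.1))
            have h3 := hw.1
            rw [hZ] at h3
            rcases h3 with h3 | h3
            · exact Or.inl h3.1
            · exact Or.inr ⟨h3, hw.2⟩
        rcases h'.sub_of_mem hK (by
          rintro w (hw | hw)
          · exact h.sub hw
          · exact hw.1.1) h2 with h3 | h3
        · rcases h3 hx.1 with h4 | h4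
          · exact hx.2 h4
          · exact h4.1.2 (Or.inr hx.1)
        · rcases h3 ⟨hz.1, fun h5 => hz.2 (Or.inr h5)⟩ with h4 | h4
          · exact hz.2 (Or.inl h4)
          · exact h4.2 rfl
    have i2 := ((i0.notMem_closure_iff htE').1 i1).1
    refine i2.subset ?_
    rintro w (hw | hw | hw)
    · exact Or.inr (Or.inr hw)
    · exact Or.inr (Or.inl hw)
    · exact Or.inl hw

end TST
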