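import Mathlib

/-!
# Monotone zones (claim A of T*, helper70's MONO lemma)

`X i` = cut of the element of the gap `i` (between the tiles `i` and `i + 1`) on the tiles
`0, …, n - 1` of one label.  `Hom n X L A R`: homogeneous.  If two homogeneous families are
comparable at all gaps, then both are monotone in the same direction.
-/

open Set

namespace TST

/-- Homogeneous family of cuts: `a < i` in `X i` iff `L`, `i` iff `A`, `i + 1` iff not `A`, `a > i + 1`
iff `R`. -/
def HomC (n : ℕ) (X : ℕ → Set ℕ) (L A R : Prop) : Prop :=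
  ∀ i, i + 1 < n → (∀ a < i, (a ∈ X i ↔ L)) ∧ (i ∈ X i ↔ A) ∧ (i + 1 ∈ X i ↔ ¬ A) ∧
    ∀ a, i + 1 < a → a < n → (a ∈ X i ↔ R)

/-- Comparable on `0, …, n - 1`. -/
def CmpC (n : ℕ) (X Y : Set ℕ) : Prop :=
  (∀ a < n, a ∈ X → a ∈ Y) ∨ ∀ a < n, a ∈ Y → a ∈ X

lemma CmpC.symm {n : ℕ} {X Y : Set ℕ} (h : CmpC n X Y) : CmpC n Y X := Or.symm h

lemma CmpC.not {n : ℕ} {X Y : Set ℕ} (h : CmpC n X Y) {a b : ℕ} (ha : a < n) (hb : b < n)
    (h1 : a ∈ X) (h2 : a ∉ Y) (h3 : b ∉ X) (h4 : b ∈ Y) : False := by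
  rcases h with h | h
  · exact h2 (h a ha h1)
  · exact h3 (h b hb h4)

/-- forward -/
def FwdC (n : ℕ) (X : ℕ → Set ℕ) : Prop := ∀ i, i + 1 < n → ∀ a < n, (a ∈ X i ↔ a ≤ i)

/-- backward -/
def BwdC (n : ℕ) (X : ℕ → Set ℕ) : Prop := ∀ i, i + 1 < n → ∀ a < n, (a ∈ X i ↔ i < a)

lemma HomC.fwd {n : ℕ} {X : ℕ → Set ℕ} {L A R : Prop} (h : HomC n X L A R) (hL : L) (hA : A)
    (hR : ¬ R) : FwdC n X := by
  intro i hi a ha
  obtain ⟨h1, h2, h3, h4⟩ := h i hi
  rcases lt_trichotomy a i with h5 | rfl | h5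
  · rw [h1 a h5]
    exact ⟨fun _ => h5.le, fun _ => hL⟩
  · rw [h2]
    exact ⟨fun _ => le_rfl, fun _ => hA⟩
  · rcases Nat.lt_or_ge (i + 1) a with h6 | h6
    · rw [h4 a h6 ha]
      exact ⟨fun h => absurd h hR, fun h => by omega⟩
    · obtain rfl : a = i + 1 := by omega
      rw [h3]
      exact ⟨fun h => absurd hA h, fun h => by omega⟩

lemma HomC.bwd {n : ℕ} {X : ℕ → Set ℕ} {L A R : Prop} (h : HomC n X L A R) (hL : ¬ L) (hA : ¬ A)
    (hR : R) : BwdC n X := by
  intro i hi a ha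
  obtain ⟨h1, h2, h3, h4⟩ := h i hi
  rcases lt_trichotomy a i with h5 | rfl | h5
  · rw [h1 a h5]
    exact ⟨fun h => absurd h hL, fun h => by omega⟩
  · rw [h2]
    exact ⟨fun h => absurd h hA, fun h => by omega⟩
  · rcases Nat.lt_or_ge (i + 1) a with h6 | h6
    · rw [h4 a h6 ha]
      exact ⟨fun _ => by omega, fun _ => hR⟩
    · obtain rfl : a = i + 1 := by omega
      rw [h3]
      exact ⟨fun _ => by omega, fun _ => hA⟩

/-- **MONO lemma.** -/
theorem mono_hom {n : ℕ} (hn : 6 ≤ n) {X Y : ℕ → Set ℕ} {L A R L' A' R' : Prop}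
    (hX : HomC n X L A R) (hY : HomC n Y L' A' R')
    (hc : ∀ i k, i + 1 < n → k + 1 < n → CmpC n (X i) (Y k)) :
    (FwdC n X ∧ FwdC n Y) ∨ (BwdC n X ∧ BwdC n Y) := by
  -- the values at small gaps
  obtain ⟨x1, x2, x3, x4⟩ := hX 1 (by omega)
  obtain ⟨x1', x2', x3', x4'⟩ := hX 4 (by omega)
  obtain ⟨x1o, x2o, x3o, x4o⟩ := hX 2 (by omega)
  obtain ⟨y1, y2, y3, y4⟩ := hY 1 (by omega)
  obtain ⟨y1', y2', y3', y4'⟩ := hY 4 (by omega)
  obtain ⟨y1o, y2o, y3o, y4o⟩ := hY 2 (by omega)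
  have c14 := hc 1 4 (by omega) (by omega)
  have c41 := hc 4 1 (by omega) (by omega)
  have c11 := hc 1 1 (by omega) (by omega)
  have c12 := hc 1 2 (by omega) (by omega)
  have c21 := hc 2 1 (by omega) (by omega)
  have d0 := x1 0 (by omega)
  have d3 := x4 3 (by omega) (by omega)
  have d4 := x4 4 (by omega) (by omega)
  have d5 := x4 5 (by omega) (by omega)
  have e0 := y1 0 (by omega)
  have e3 := y4 3 (by omega) (by omega)
  have e4 := y4 4 (by omega) (by omega)
  have e5 := y4 5 (by omega) (by omega)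
  have d0' := x1' 0 (by omega)
  have d1' := x1' 1 (by omega)
  have d2' := x1' 2 (by omega)
  have d3' := x1' 3 (by omega)
  have e0' := y1' 0 (by omega)
  have e1' := y1' 1 (by omega)
  have e2' := y1' 2 (by omega)
  have e3' := y1' 3 (by omega)
  have f0 := x1o 0 (by omega)
  have f1 := x1o 1 (by omega)
  have g0 := y1o 0 (by omega)
  have g1 := y1o 1 (by omega)
  have hn1 : 1 < n := by omega
  have hn2 : 2 < n := by omega
  have hn3 : 3 < n := by omega
  have hn4 : 4 < n := by omega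
  have hn5 : 5 < n := by omega
  have hn0 : 0 < n := by omega
  norm_num at x3 x3' x3o y3 y3' y3o
  -- `R = ¬ L'` and `R' = ¬ L`
  have k1 : R ↔ ¬ L' := by
    constructor
    · intro hR hL'
      by_cases hA' : A'
      · -- at `1, 2`: one of them is not in `X 1`; at `5`: `5 ∉ Y 4`
        by_cases hA : A
        · exact c14.not hn5 hn2 (d5.2 hR) (fun h => (y3'.1 h) hA') (fun h => (x3.1 h) hA)
            (e2'.2 hL')
        · exact c14.not hn5 hn1 (d5.2 hR) (fun h => (y3'.1 h) hA') (fun h => hA (x2.1 h))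
            (e1'.2 hL')
      · by_cases hA : A
        · exact c14.not hn4 hn2 (d4.2 hR) (fun h => hA' (y2'.1 h)) (fun h => (x3.1 h) hA)
            (e2'.2 hL')
        · exact c14.not hn4 hn1 (d4.2 hR) (fun h => hA' (y2'.1 h)) (fun h => hA (x2.1 h))
            (e1'.2 hL')
    · intro hL'
      by_contra hR
      by_cases hA' : A'
      · by_cases hA : A
        · exact c14.not hn1 hn4 (x2.2 hA) (fun h => hL' (e1'.1 h)) (fun h => hR (d4.1 h))
            (y2'.2 hA')
        · exact c14.not hn2 hn4 (x3.2 hA) (fun h => hL' (e2'.1 h)) (fun h => hR (d4.1 h))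
            (y2'.2 hA')
      · by_cases hA : A
        · exact c14.not hn1 hn5 (x2.2 hA) (fun h => hL' (e1'.1 h)) (fun h => hR (d5.1 h))
            (y3'.2 hA')
        · exact c14.not hn2 hn5 (x3.2 hA) (fun h => hL' (e2'.1 h)) (fun h => hR (d5.1 h))
            (y3'.2 hA')
  have k2 : R' ↔ ¬ L := by
    constructor
    · intro hR hL'
      by_cases hA' : A
      · by_cases hA : A'
        · exact c41.symm.not hn5 hn2 (e5.2 hR) (fun h => (x3'.1 h) hA') (fun h => (y3.1 h) hA)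
            (d2'.2 hL')
        · exact c41.symm.not hn5 hn1 (e5.2 hR) (fun h => (x3'.1 h) hA') (fun h => hA (y2.1 h))
            (d1'.2 hL')
      · by_cases hA : A'
        · exact c41.symm.not hn4 hn2 (e4.2 hR) (fun h => hA' (x2'.1 h)) (fun h => (y3.1 h) hA)
            (d2'.2 hL')
        · exact c41.symm.not hn4 hn1 (e4.2 hR) (fun h => hA' (x2'.1 h)) (fun h => hA (y2.1 h))
            (d1'.2 hL')
    · intro hL'
      by_contra hR
      by_cases hA' : A
      · by_cases hA : A'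
        · exact c41.symm.not hn1 hn4 (y2.2 hA) (fun h => hL' (d1'.1 h)) (fun h => hR (e4.1 h))
            (x2'.2 hA')
        · exact c41.symm.not hn2 hn4 (y3.2 hA) (fun h => hL' (d2'.1 h)) (fun h => hR (e4.1 h))
            (x2'.2 hA')
      · by_cases hA : A'
        · exact c41.symm.not hn1 hn5 (y2.2 hA) (fun h => hL' (d1'.1 h)) (fun h => hR (e5.1 h))
            (x3'.2 hA')
        · exact c41.symm.not hn2 hn5 (y3.2 hA) (fun h => hL' (d2'.1 h)) (fun h => hR (e5.1 h))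
            (x3'.2 hA')
  -- `A = A'`
  have k3 : A ↔ A' := by
    constructor
    · intro hA
      by_contra hA'
      exact c11.not hn1 hn2 (x2.2 hA) (fun h => hA' (y2.1 h)) (fun h => (x3.1 h) hA) (y3.2 hA')
    · intro hA'
      by_contra hA
      exact c11.not hn2 hn1 (x3.2 hA) (fun h => (y3.1 h) hA') (fun h => hA (x2.1 h)) (y2.2 hA')
  -- `A = L` and `A = L'`
  have k4 : A ↔ L' := by
    constructor
    · intro hA
      by_contra hL'
      -- `X 1 ∋ 1`, `1 ∉ Y 2`; `Y 2 ∋ 2`, `2 ∉ X 1`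
      exact c12.not hn1 hn2 (x2.2 hA) (fun h => hL' (g1.1 h)) (fun h => (x3.1 h) hA)
        (y2o.2 (k3.1 hA))
    · intro hL'
      by_contra hA
      exact c12.not hn2 hn1 (x3.2 hA) (fun h => hA (k3.2 (y2o.1 h))) (fun h => hA (x2.1 h))
        (g1.2 hL')
  have k5 : A ↔ L := by
    constructor
    · intro hA
      by_contra hL
      exact c21.symm.not hn1 hn2 (y2.2 (k3.1 hA)) (fun h => hL (f1.1 h))
        (fun h => (y3.1 h) (k3.1 hA)) (x2o.2 hA)
    · intro hL
      by_contra hA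
      exact c21.symm.not hn2 hn1 (y3.2 fun h => hA (k3.2 h)) (fun h => hA (x2o.1 h))
        (fun h => hA (k3.2 (y2.1 h))) (f1.2 hL)
  by_cases hA : A
  · left
    exact ⟨hX.fwd (k5.1 hA) hA fun h => (k1.1 h) (k4.1 hA),
      hY.fwd (k4.1 hA) (k3.1 hA) fun h => (k2.1 h) (k5.1 hA)⟩
  · right
    exact ⟨hX.bwd (fun h => hA (k5.2 h)) hA (k1.2 fun h => hA (k4.2 h)),
      hY.bwd (fun h => hA (k4.2 h)) (fun h => hA (k3.2 h)) (k2.2 fun h => hA (k5.2 h))⟩

/-- MONO lemma, one family, comparable at different gaps. -/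
theorem mono_self {n : ℕ} (hn : 6 ≤ n) {X : ℕ → Set ℕ} {L A R : Prop} (hX : HomC n X L A R)
    (hc : ∀ i k, i + 1 < n → k + 1 < n → i ≠ k → CmpC n (X i) (X k)) : FwdC n X ∨ BwdC n X := by
  rcases mono_hom hn hX hX (fun i k hi hk => by
    by_cases h : i = k
    · subst h
      exact Or.inl fun a _ h => h
    · exact hc i k hi hk h) with h | h
  · exact Or.inl h.1
  · exact Or.inr h.1

end TST
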