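import Pool.Agent.TST.VSys

/-!
# The move of a corner (row MV of T-star, (R-c))

Three rows `e`, `f`, `g` meet in a vertex of degree three (`hst`).  `E ⊆ Rw e` and `F ⊆ Rw f` are
the parts next to the vertex, `t` closes them (`t ∈ cl (E ∪ F)`), `E` and `F` are classes of `t`
and `t` is not located at the vertex (`hstar`).  `E` is replaced by `t`, the part `F` is moved from
the row `f` to the row `g`.
-/

set_option autoImplicit false

open Set BIC BICS
open scoped Matroid

namespace TST

variable {α ι κ τ : Type*} {M : Matroid α} {Rw : ι → Set α} {ν : Set ι → ℕ}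

/-- three rows at a vertex of degree three -/
def Star3 (ν : Set ι → ℕ) (e f g : ι) : Prop :=
  ∀ F : Set ι, e ∉ F → f ∉ F → g ∉ F → ν (insert e F) = ν F ∧ ν (insert f F) = ν F ∧
    ν (insert g F) = ν F

lemma Star3.eq {e f g : ι} (h : Star3 ν e f g) {P G : Set ι}
    (hPG : ∀ s, s ≠ e → s ≠ f → s ≠ g → (s ∈ P ↔ s ∈ G)) (he : e ∉ G) (hf : f ∉ G) (hg : g ∉ G)
    (hP : (f ∉ P ∧ g ∉ P) ∨ (e ∉ P ∧ g ∉ P) ∨ (e ∉ P ∧ f ∉ P)) : ν P = ν G := by
  have key : ∀ x, (x = e ∨ x = f ∨ x = g) → (∀ y, (y = e ∨ y = f ∨ y = g) → y ∈ P → y = x) →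
      ν (insert x G) = ν G → ν P = ν G := by
    intro x hx hy hν
    by_cases hxP : x ∈ P
    · have h1 : P = insert x G := by
        ext s
        by_cases hs : s = e ∨ s = f ∨ s = g
        · constructor
          · exact fun h1 => Or.inl (hy s hs h1)
          · rintro (h1 | h1)
            · exact h1 ▸ hxP
            · rcases hs with rfl | rfl | rfl
              · exact absurd h1 he
              · exact absurd h1 hf
              · exact absurd h1 hg
        · push Not at hs
          rw [hPG s hs.1 hs.2.1 hs.2.2]
          constructor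
          · exact Or.inr
          · rintro (h1 | h1)
            · exfalso
              rcases hx with h2 | h2 | h2
              · exact hs.1 (h1.trans h2)
              · exact hs.2.1 (h1.trans h2)
              · exact hs.2.2 (h1.trans h2)
            · exact h1
      rw [h1, hν]
    · have h1 : P = G := by
        ext s
        by_cases hs : s = e ∨ s = f ∨ s = g
        · constructor
          · intro h1
            exact absurd (hy s hs h1 ▸ h1) hxP
          · intro h1
            rcases hs with rfl | rfl | rfl
            · exact absurd h1 he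
            · exact absurd h1 hf
            · exact absurd h1 hg
        · push Not at hs
          exact hPG s hs.1 hs.2.1 hs.2.2
      rw [h1]
  obtain ⟨h1, h2, h3⟩ := h G he hf hg
  rcases hP with ⟨h4, h5⟩ | ⟨h4, h5⟩ | ⟨h4, h5⟩
  · refine key e (Or.inl rfl) ?_ h1
    rintro y (rfl | rfl | rfl) hy
    · rfl
    · exact absurd hy h4
    · exact absurd hy h5
  · refine key f (Or.inr (Or.inl rfl)) ?_ h2
    rintro y (rfl | rfl | rfl) hy
    · exact absurd hy h4
    · rfl
    · exact absurd hy h5
  · refine key g (Or.inr (Or.inr rfl)) ?_ h3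
    rintro y (rfl | rfl | rfl) hy
    · exact absurd hy h4
    · exact absurd hy h5
    · rfl

/-- the new rows -/
def rowC [DecidableEq ι] (Rw : ι → Set α) (e f g : ι) (t : α) (E F : Set α) (s : ι) : Set α :=
  if s = e then insert t (Rw e \ E) else if s = f then Rw f \ F else
    if s = g then Rw g ∪ F else Rw s

/-- `x` is not in the closure of the rest when two other rows at the vertex are broken. -/
lemma RowF.star_notMem [M.Finite] (h : RowF M Rw ν) {e f g : ι} (hef : e ≠ f) (heg : e ≠ g)
    (hfg : f ≠ g) (hst : Star3 ν e f g) {a b c : α} (ha : a ∈ Rw e) (hb : b ∈ Rw f)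
    (hc : c ∈ Rw g) :
    b ∉ M.closure ((⋃ s, Rw s) \ {a, b, c}) ∧ c ∉ M.closure ((⋃ s, Rw s) \ {a, b, c}) := by
  have hSi : ∀ s, ∀ x ∈ Rw s, x ∈ ⋃ s, Rw s := fun s x hx => mem_iUnion.2 ⟨s, hx⟩
  have hG : ∀ s, s ∈ full Rw ((⋃ s, Rw s) \ {a, b, c}) ↔ s ≠ e ∧ s ≠ f ∧ s ≠ g := by
    intro s
    rw [mem_full]
    constructor
    · intro h1
      refine ⟨?_, ?_, ?_⟩
      · rintro rfl
        exact (h1 ha).2 (Or.inl rfl)
      · rintro rfl
        exact (h1 hb).2 (Or.inr (Or.inl rfl))
      · rintro rfl
        exact (h1 hc).2 (Or.inr (Or.inr rfl))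
    · rintro ⟨h1, h2, h3⟩ x hx
      refine ⟨hSi s x hx, ?_⟩
      rintro (h4 | h4 | h4)
      · exact h1 (h.uniq hx (h4 ▸ ha))
      · exact h2 (h.uniq hx (h4 ▸ hb))
      · exact h3 (h.uniq hx ((show x = c from h4) ▸ hc))
  have hGe : e ∉ full Rw ((⋃ s, Rw s) \ {a, b, c}) := fun h1 => ((hG e).1 h1).1 rfl
  have hGf : f ∉ full Rw ((⋃ s, Rw s) \ {a, b, c}) := fun h1 => ((hG f).1 h1).2.1 rfl
  have hGg : g ∉ full Rw ((⋃ s, Rw s) \ {a, b, c}) := fun h1 => ((hG g).1 h1).2.2 rfl
  have hab : a ≠ b := fun h1 => hef (h.uniq ha (h1 ▸ hb))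
  have hac : a ≠ c := fun h1 => heg (h.uniq ha (h1 ▸ hc))
  have hbc : b ≠ c := fun h1 => hfg (h.uniq hb (h1 ▸ hc))
  constructor
  · refine h.notMem sdiff_subset hb (fun h1 => h1.2 (Or.inr (Or.inl rfl))) (le_of_eq ?_)
    refine hst.eq ?_ hGe hGf hGg (Or.inr (Or.inl ⟨?_, ?_⟩))
    · intro s h1 h2 h3
      rw [hG s]
      refine ⟨fun _ => ⟨h1, h2, h3⟩, fun _ => ?_⟩
      exact ((hG s).2 ⟨h1, h2, h3⟩).trans (subset_insert _ _)
    · intro h1
      rcases h1 ha with h2 | h2
      · exact hab h2
      · exact h2.2 (Or.inl rfl)
    · intro h1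
      rcases h1 hc with h2 | h2
      · exact hbc h2.symm
      · exact h2.2 (Or.inr (Or.inr rfl))
  · refine h.notMem sdiff_subset hc (fun h1 => h1.2 (Or.inr (Or.inr rfl))) (le_of_eq ?_)
    refine hst.eq ?_ hGe hGf hGg (Or.inr (Or.inr ⟨?_, ?_⟩))
    · intro s h1 h2 h3
      rw [hG s]
      refine ⟨fun _ => ⟨h1, h2, h3⟩, fun _ => ?_⟩
      exact ((hG s).2 ⟨h1, h2, h3⟩).trans (subset_insert _ _)
    · intro h1
      rcases h1 ha with h2 | h2
      · exact hac h2
      · exact h2.2 (Or.inl rfl)
    · intro h1
      rcases h1 hb with h2 | h2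
      · exact hbc h2
      · exact h2.2 (Or.inr (Or.inl rfl))

set_option maxHeartbeats 1000000 in
/-- **Move (R-c).** -/
theorem RowF.moveC [M.Finite] [DecidableEq ι] (h : RowF M Rw ν) {e f g : ι} (hef : e ≠ f)
    (heg : e ≠ g) (hfg : f ≠ g) (hst : Star3 ν e f g) {t : α} {E F : Set α} (hE : E ⊆ Rw e)
    (hEne : E.Nonempty) (hF : F ⊆ Rw f) (hF1 : ¬ Rw f ⊆ F)
    (htS : ∀ s, t ∉ Rw s) (ht : t ∈ M.closure (E ∪ F))
    (hbal : ∀ a ∈ E, t ∉ M.closure ((E ∪ F) \ {a}))
    (hclE : ∀ a ∈ E, ∀ a' ∈ E, a ≠ a' → t ∈ M.closure ((⋃ s, Rw s) \ {a, a'}))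
    (hclF : ∀ b ∈ F, ∀ b' ∈ F, b ≠ b' → t ∈ M.closure ((⋃ s, Rw s) \ {b, b'}))
    (hsepE : ∀ a ∈ E, ∀ c ∈ Rw e, c ∉ E → t ∉ M.closure ((⋃ s, Rw s) \ {a, c}))
    (hsepF : ∀ b ∈ F, ∀ c ∈ Rw f, c ∉ F → t ∉ M.closure ((⋃ s, Rw s) \ {b, c}))
    (hstar : ∀ a ∈ E, ∀ b ∈ F, ∀ c ∈ Rw g, t ∈ M.closure ((⋃ s, Rw s) \ {a, b, c})) :
    RowF M (rowC Rw e f g t E F) ν := by
  have htE : t ∈ M.E := M.closure_subset_ground _ ht
  obtain ⟨R', hR'⟩ : ∃ R', R' = rowC Rw e f g t E F := ⟨_, rfl⟩
  have re : R' e = insert t (Rw e \ E) := by
    rw [hR']; unfold rowC; rw [if_pos rfl]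
  have rf : R' f = Rw f \ F := by
    rw [hR']; unfold rowC; rw [if_neg hef.symm, if_pos rfl]
  have rg : R' g = Rw g ∪ F := by
    rw [hR']; unfold rowC; rw [if_neg heg.symm, if_neg hfg.symm, if_pos rfl]
  have ro : ∀ s, s ≠ e → s ≠ f → s ≠ g → R' s = Rw s := by
    intro s h1 h2 h3
    rw [hR']; unfold rowC; rw [if_neg h1, if_neg h2, if_neg h3]
  rw [← hR']
  obtain ⟨a, ha⟩ := hEne
  have hSE := h.sub'
  have hEf : E.Finite := M.ground_finite.subset (hE.trans (h.sub e))
  have hFf : F.Finite := M.ground_finite.subset (hF.trans (h.sub f))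
  have hSi : ∀ s, ∀ x ∈ Rw s, x ∈ ⋃ s, Rw s := fun s x hx => mem_iUnion.2 ⟨s, hx⟩
  -- where the elements of the new rows come from
  have old : ∀ s, ∀ x ∈ R' s, x ≠ t → ∃ s', x ∈ Rw s' ∧ x ∉ E ∧
      ((x ∈ F ∧ s = g) ∨ (x ∉ F ∧ s' = s)) := by
    intro s x hx hxt
    by_cases h1 : s = e
    · rw [h1, re] at hx
      have h2 := hx.resolve_left hxt
      refine ⟨e, h2.1, h2.2, Or.inr ⟨fun h3 => ?_, h1.symm⟩⟩
      exact hef (h.uniq h2.1 (hF h3))
    · by_cases h2 : s = f
      · rw [h2, rf] at hx
        refine ⟨f, hx.1, fun h3 => h1 (h2.trans ?_), Or.inr ⟨hx.2, h2.symm⟩⟩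
        exact h.uniq hx.1 (hE h3)
      · by_cases h3 : s = g
        · rw [h3, rg] at hx
          rcases hx with hx | hx
          · refine ⟨g, hx, fun h4 => h1 (h3.trans (h.uniq hx (hE h4))), Or.inr ⟨fun h4 => ?_,
              h3.symm⟩⟩
            exact hfg (h.uniq (hF h4) hx)
          · refine ⟨f, hF hx, fun h4 => hef (h.uniq (hE h4) (hF hx)), Or.inl ⟨hx, h3⟩⟩
        · rw [ro s h1 h2 h3] at hx
          refine ⟨s, hx, fun h4 => h1 (h.uniq hx (hE h4)), Or.inr ⟨fun h4 => ?_, rfl⟩⟩
          exact h2 (h.uniq hx (hF h4))
  have hts : ∀ s, t ∈ R' s → s = e := by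
    intro s hs
    by_contra h1
    by_cases h2 : s = f
    · rw [h2, rf] at hs
      exact htS f hs.1
    · by_cases h3 : s = g
      · rw [h3, rg] at hs
        rcases hs with hs | hs
        · exact htS g hs
        · exact htS f (hF hs)
      · rw [ro s h1 h2 h3] at hs
        exact htS s hs
  refine ⟨?_, ?_, ?_, ?_⟩
  · intro s x hx
    by_cases hxt : x = t
    · exact hxt ▸ htE
    · obtain ⟨s', hs', _⟩ := old s x hx hxt
      exact h.sub s' hs'
  · intro s
    by_cases h1 : s = e
    · rw [h1, re]
      exact ⟨t, Or.inl rfl⟩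
    · by_cases h2 : s = f
      · rw [h2, rf]
        obtain ⟨x, hx, hxF⟩ := not_subset.1 hF1
        exact ⟨x, hx, hxF⟩
      · by_cases h3 : s = g
        · rw [h3, rg]
          exact (h.ne g).mono subset_union_left
        · rw [ro s h1 h2 h3]
          exact h.ne s
  · intro s s' hss
    rw [Set.disjoint_left]
    intro x hx hx'
    by_cases hxt : x = t
    · exact hss ((hts s (hxt ▸ hx)).trans (hts s' (hxt ▸ hx')).symm)
    · obtain ⟨u, hu, _, hu2⟩ := old s x hx hxt
      obtain ⟨u', hu', _, hu2'⟩ := old s' x hx' hxt
      have huu := h.uniq hu hu'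
      rcases hu2 with ⟨h1, h2⟩ | ⟨h1, h2⟩ <;> rcases hu2' with ⟨h3, h4⟩ | ⟨h3, h4⟩
      · exact hss (h2.trans h4.symm)
      · exact h3 h1
      · exact h1 h3
      · exact hss (h2.symm.trans (huu.trans h4))
  · intro X hX
    change BIC.rk M X + ν (full R' X) = X.ncard
    obtain ⟨X₀, hX₀d⟩ : ∃ X₀, X₀ = X \ {t} := ⟨_, rfl⟩
    have hX₀ : X₀ ⊆ ⋃ s, Rw s := by
      rw [hX₀d]
      rintro x ⟨hx, hxt⟩
      obtain ⟨s, hs⟩ := mem_iUnion.1 (hX hx)
      obtain ⟨s', hs', _⟩ := old s x hs hxt
      exact hSi s' x hs'
    have hXE : ∀ x ∈ X₀, x ∉ E := by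
      rw [hX₀d]
      rintro x ⟨hx, hxt⟩
      obtain ⟨s, hs⟩ := mem_iUnion.1 (hX hx)
      obtain ⟨s', _, hs', _⟩ := old s x hs hxt
      exact hs'
    have hX₀f : X₀.Finite := M.ground_finite.subset (hX₀.trans hSE)
    have htX₀ : t ∉ X₀ := by
      rw [hX₀d]
      exact fun h1 => h1.2 rfl
    have hXX : ∀ Q : Set α, t ∉ Q → (Q ⊆ X ↔ Q ⊆ X₀) := by
      intro Q hQ
      rw [hX₀d]
      constructor
      · exact fun h1 x hx => ⟨h1 hx, fun h2 => hQ ((show x = t from h2) ▸ hx)⟩
      · exact fun h1 => h1.trans sdiff_subset
    -- the full rows of the new system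
    have fe : e ∈ full R' X ↔ t ∈ X ∧ Rw e \ E ⊆ X₀ := by
      rw [mem_full, re, insert_subset_iff, hXX _ (fun h1 => htS e h1.1)]
    have ff : f ∈ full R' X ↔ Rw f \ F ⊆ X₀ := by
      rw [mem_full, rf, hXX _ (fun h1 => htS f h1.1)]
    have fg : g ∈ full R' X ↔ Rw g ∪ F ⊆ X₀ := by
      rw [mem_full, rg, hXX _ (fun h1 => h1.elim (htS g) (fun h2 => htS f (hF h2)))]
    have fo : ∀ s, s ≠ e → s ≠ f → s ≠ g → (s ∈ full R' X ↔ Rw s ⊆ X₀) := by
      intro s h1 h2 h3
      rw [mem_full, ro s h1 h2 h3, hXX _ (htS s)]
    have he₀ : ∀ Q : Set α, a ∉ Q → e ∉ full Rw Q := fun Q hQ h1 => hQ (h1 (hE ha))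
    have haX₀ : a ∉ X₀ := fun h1 => hXE a h1 ha
    have hgE : ∀ x ∈ Rw g, x ∉ E := fun x hx hxE => heg (h.uniq (hE hxE) hx)
    have hgF : ∀ x ∈ Rw g, x ∉ F := fun x hx hxF => hfg (h.uniq (hF hxF) hx)
    have hEF : ∀ x ∈ E, x ∉ F := fun x hx hxF => hef (h.uniq (hE hx) (hF hxF))
    -- rows other than `e`, `f`, `g` do not meet `E`, `F`, `Rw g`
    have hoE : ∀ s, s ≠ e → ∀ x ∈ Rw s, x ∉ E := fun s hs x hx hxE => hs (h.uniq hx (hE hxE))
    have hoF : ∀ s, s ≠ f → ∀ x ∈ Rw s, x ∉ F := fun s hs x hx hxF => hs (h.uniq hx (hF hxF))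
    have hog : ∀ s, s ≠ g → ∀ x ∈ Rw s, x ∉ Rw g := fun s hs x hx hxg => hs (h.uniq hx hxg)
    have haE : a ∈ M.E := h.sub e (hE ha)
    have h0 := h.rkf hX₀
    by_cases hFX : F ⊆ X₀
    · by_cases htX : t ∈ X
      · have hXe : X = insert t X₀ := by
          rw [hX₀d, insert_sdiff_singleton, insert_eq_of_mem htX]
        have hcard : X.ncard = X₀.ncard + 1 := by
          rw [hXe, ncard_insert_of_notMem htX₀ hX₀f]
        have hu : X₀ ∪ E ⊆ ⋃ s, Rw s := union_subset hX₀ (hE.trans (subset_iUnion Rw e))
        have hfe : full R' X = full Rw (X₀ ∪ E) := by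
          ext s
          by_cases h1 : s = e
          · rw [h1, fe, mem_full]
            constructor
            · rintro ⟨_, h2⟩ x hx
              by_cases hxE : x ∈ E
              · exact Or.inr hxE
              · exact Or.inl (h2 ⟨hx, hxE⟩)
            · exact fun h2 => ⟨htX, fun x hx => (h2 hx.1).resolve_right hx.2⟩
          by_cases h2 : s = f
          · rw [h2, ff, mem_full]
            constructor
            · intro h3 x hx
              by_cases hxF : x ∈ F
              · exact Or.inl (hFX hxF)
              · exact Or.inl (h3 ⟨hx, hxF⟩)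
            · exact fun h3 x hx => (h3 hx.1).resolve_right (hoE f hef.symm x hx.1)
          by_cases h3 : s = g
          · rw [h3, fg, mem_full]
            constructor
            · exact fun h4 x hx => Or.inl (h4 (Or.inl hx))
            · rintro h4 x (hx | hx)
              · exact (h4 hx).resolve_right (hoE g heg.symm x hx)
              · exact hFX hx
          rw [fo s h1 h2 h3, mem_full]
          constructor
          · exact fun h4 => h4.trans subset_union_left
          · exact fun h4 x hx => (h4 hx).resolve_right (hoE s h1 x hx)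
        have hdj : Disjoint X₀ E := Set.disjoint_left.2 hXE
        have h1 := h.rkf hu
        rw [ncard_union_eq hdj hX₀f hEf] at h1
        have hu' : X₀ ∪ (E \ {a}) ⊆ ⋃ s, Rw s :=
          (union_subset_union_right _ sdiff_subset).trans hu
        have hfe' : full Rw (X₀ ∪ (E \ {a})) = full Rw X₀ := by
          ext s
          rw [mem_full, mem_full]
          constructor
          · intro h3 x hx
            refine (h3 hx).resolve_right fun hxA => ?_
            rw [h.uniq hx (hE hxA.1)] at h3
            rcases h3 (hE ha) with h4 | h4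
            · exact haX₀ h4
            · exact h4.2 rfl
          · exact fun h3 => h3.trans subset_union_left
        have h3 := h.rkf hu'
        have hdj' : Disjoint X₀ (E \ {a}) := hdj.mono_right sdiff_subset
        have hca : (E \ {a}).ncard + 1 = E.ncard := ncard_sdiff_singleton_add_one ha hEf
        rw [hfe', ncard_union_eq hdj' hX₀f (hEf.subset sdiff_subset)] at h3
        have hins : insert a (X₀ ∪ (E \ {a})) = X₀ ∪ E := by
          rw [← union_insert, insert_sdiff_singleton, insert_eq_of_mem ha]
        rw [hfe]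
        by_cases hac : a ∈ M.closure (X₀ ∪ (E \ {a}))
        · have h4 := rk_ins_mem hac
          rw [hins] at h4
          have h5 : t ∈ M.closure (X₀ ∪ (E \ {a})) := by
            have h6 : M.closure (X₀ ∪ E) = M.closure (X₀ ∪ (E \ {a})) := by
              rw [← hins]
              exact Matroid.closure_insert_eq_of_mem_closure hac
            rw [← h6]
            refine M.closure_subset_closure ?_ ht
            rintro x (hx | hx)
            · exact Or.inr hx
            · exact Or.inl (hFX hx)
          have h6 : t ∈ M.closure X₀ := by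
            refine drops (hEf.subset sdiff_subset) ?_ h5
            rintro x ⟨hx, hxa⟩
            have hxa' : x ≠ a := hxa
            refine ⟨(⋃ s, Rw s) \ {a, x}, ?_, sdiff_subset.trans hSE,
              hclE a ha x hx (Ne.symm hxa'), ?_⟩
            · rintro z (hz | hz)
              · refine ⟨hX₀ hz, ?_⟩
                rintro (hz1 | hz1)
                · exact haX₀ (hz1 ▸ hz)
                · have hz1' : z = x := hz1
                  exact hXE z hz (hz1' ▸ hx)
              · refine ⟨hu' (Or.inr hz.1), ?_⟩
                rintro (hz1 | hz1)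
                · exact hz.1.2 hz1
                · exact hz.2 hz1
            · refine h.series sdiff_subset (hE hx) (fun h7 => h7.2 (Or.inr rfl)) (hE ha)
                (fun h7 => h7.2 (Or.inl rfl)) hxa'
          have h7 := rk_ins_mem h6
          rw [← hXe] at h7
          omega
        · have h4 := rk_ins haE hac
          rw [hins] at h4
          have h6 : t ∉ M.closure X₀ := by
            intro h6
            apply hac
            have h7 : t ∈ M.closure (insert a ((E ∪ F) \ {a})) \ M.closure ((E ∪ F) \ {a}) := by
              refine ⟨?_, hbal a ha⟩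
              rwa [insert_sdiff_singleton, insert_eq_of_mem (show a ∈ E ∪ F from Or.inl ha)]
            have h8 := (M.closure_exchange h7).1
            refine M.closure_subset_closure_of_subset_closure ?_ h8
            have hu'' : X₀ ∪ (E \ {a}) ⊆ M.E := hu'.trans hSE
            refine insert_subset (M.closure_subset_closure subset_union_left h6) ?_
            refine Subset.trans ?_ (M.subset_closure _ hu'')
            rintro x ⟨hx | hx, hxa⟩
            · exact Or.inr ⟨hx, hxa⟩
            · exact Or.inl (hFX hx)
          have h7 := rk_ins htE h6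
          rw [← hXe] at h7
          omega
      · have hXe : X = X₀ := by
          rw [hX₀d, sdiff_singleton_eq_self htX]
        have hfe : full R' X = full Rw X₀ := by
          ext s
          by_cases h1 : s = e
          · rw [h1, fe]
            constructor
            · exact fun h2 => absurd h2.1 htX
            · exact fun h2 => absurd h2 (he₀ _ haX₀)
          by_cases h2 : s = f
          · rw [h2, ff, mem_full]
            constructor
            · intro h3 x hx
              by_cases hxF : x ∈ F
              · exact hFX hxF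
              · exact h3 ⟨hx, hxF⟩
            · exact fun h3 x hx => h3 hx.1
          by_cases h3 : s = g
          · rw [h3, fg, mem_full]
            constructor
            · exact fun h4 x hx => h4 (Or.inl hx)
            · rintro h4 x (hx | hx)
              · exact h4 hx
              · exact hFX hx
          rw [fo s h1 h2 h3, mem_full]
        rw [hfe, hXe]
        exact h0
    · -- `F` is broken
      obtain ⟨b, hb, hbX⟩ := not_subset.1 hFX
      have hf₀ : f ∉ full Rw X₀ := fun h1 => hbX (h1 (hF hb))
      have hg' : g ∉ full R' X := fun h1 => hbX (fg.1 h1 (Or.inr hb))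
      -- the other full rows
      obtain ⟨X₁, hX₁⟩ : ∃ X₁, X₁ = X₀ \ (Rw g ∪ F) := ⟨_, rfl⟩
      have hX₁s : X₁ ⊆ X₀ := by
        rw [hX₁]
        exact sdiff_subset
      have hX₁S := hX₁s.trans hX₀
      have hX₁f := hX₀f.subset hX₁s
      have haX₁ : a ∉ X₁ := fun h1 => haX₀ (hX₁s h1)
      have g0e : e ∉ full Rw X₁ := he₀ _ haX₁
      have g0f : f ∉ full Rw X₁ := fun h1 => hbX (hX₁s (h1 (hF hb)))
      have g0g : g ∉ full Rw X₁ := by
        intro h1
        obtain ⟨c, hc⟩ := h.ne g
        have h2 := h1 hc
        rw [hX₁] at h2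
        exact h2.2 (Or.inl hc)
      have g0o : ∀ s, s ≠ e → s ≠ f → s ≠ g → (s ∈ full Rw X₁ ↔ Rw s ⊆ X₀) := by
        intro s h1 h2 h3
        rw [mem_full, hX₁]
        constructor
        · exact fun h4 => h4.trans sdiff_subset
        · intro h4 x hx
          refine ⟨h4 hx, ?_⟩
          rintro (h5 | h5)
          · exact hog s h3 x hx h5
          · exact hoF s h2 x hx h5
      have hν0 : ν (full Rw X₀) = ν (full Rw X₁) := by
        refine hst.eq ?_ g0e g0f g0g (Or.inr (Or.inr ⟨he₀ _ haX₀, hf₀⟩))
        intro s h1 h2 h3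
        rw [g0o s h1 h2 h3, mem_full]
      have hoo : ∀ s, s ≠ e → s ≠ f → s ≠ g → (s ∈ full R' X ↔ s ∈ full Rw X₁) := by
        intro s h1 h2 h3
        rw [g0o s h1 h2 h3, fo s h1 h2 h3]
      by_cases htX : t ∈ X
      · have hXe : X = insert t X₀ := by
          rw [hX₀d, insert_sdiff_singleton, insert_eq_of_mem htX]
        have hcard : X.ncard = X₀.ncard + 1 := by
          rw [hXe, ncard_insert_of_notMem htX₀ hX₀f]
        by_cases hEX : Rw e \ E ⊆ X₀
        · by_cases hFX' : Rw f \ F ⊆ X₀
          · -- `G₂ = G₀ ∪ {e, f}`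
            have h1 := h.rkf hX₁S
            -- the union with `E` and `F`
            have hEF' : Disjoint E F := Set.disjoint_left.2 hEF
            have hd1 : Disjoint X₁ (E ∪ F) := by
              rw [Set.disjoint_left]
              rintro x hx (hx' | hx')
              · exact hXE x (hX₁s hx) hx'
              · rw [hX₁] at hx
                exact hx.2 (Or.inr hx')
            have hu : X₁ ∪ (E ∪ F) ⊆ ⋃ s, Rw s := union_subset hX₁S (union_subset
              (hE.trans (subset_iUnion Rw e)) (hF.trans (subset_iUnion Rw f)))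
            have h2 := h.rkf hu
            rw [ncard_union_eq hd1 hX₁f (hEf.union hFf), ncard_union_eq hEF' hEf hFf] at h2
            have hfe : full R' X = full Rw (X₁ ∪ (E ∪ F)) := by
              ext s
              by_cases s1 : s = e
              · rw [s1, fe, mem_full]
                refine ⟨fun _ x hx => ?_, fun _ => ⟨htX, hEX⟩⟩
                by_cases hxE : x ∈ E
                · exact Or.inr (Or.inl hxE)
                · left
                  rw [hX₁]
                  refine ⟨hEX ⟨hx, hxE⟩, ?_⟩
                  rintro (h5 | h5)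
                  · exact heg (h.uniq hx h5)
                  · exact hef (h.uniq hx (hF h5))
              by_cases s2 : s = f
              · rw [s2, ff, mem_full]
                refine ⟨fun _ x hx => ?_, fun _ => hFX'⟩
                by_cases hxF : x ∈ F
                · exact Or.inr (Or.inr hxF)
                · left
                  rw [hX₁]
                  refine ⟨hFX' ⟨hx, hxF⟩, ?_⟩
                  rintro (h5 | h5)
                  · exact hfg (h.uniq hx h5)
                  · exact hxF h5
              by_cases s3 : s = g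
              · rw [s3, mem_full]
                refine ⟨fun h5 => absurd h5 hg', fun h5 => ?_⟩
                exfalso
                obtain ⟨c, hc⟩ := h.ne g
                rcases h5 hc with h6 | h6 | h6
                · rw [hX₁] at h6
                  exact h6.2 (Or.inl hc)
                · exact hgE c hc h6
                · exact hgF c hc h6
              rw [hoo s s1 s2 s3, mem_full, mem_full]
              constructor
              · exact fun h5 => h5.trans subset_union_left
              · intro h5 x hx
                refine (h5 hx).resolve_right ?_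
                rintro (h6 | h6)
                · exact hoE s s1 x hx h6
                · exact hoF s s2 x hx h6
            -- without `a`
            have hQs : (E \ {a}) ∪ F ⊆ E ∪ F := union_subset_union_left _ sdiff_subset
            have hu' : X₁ ∪ ((E \ {a}) ∪ F) ⊆ ⋃ s, Rw s :=
              (union_subset_union_right _ hQs).trans hu
            have h3 := h.rkf hu'
            have hd2 : Disjoint (E \ {a}) F := hEF'.mono_left sdiff_subset
            have hca : (E \ {a}).ncard + 1 = E.ncard := ncard_sdiff_singleton_add_one ha hEf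
            rw [ncard_union_eq (hd1.mono_right hQs) hX₁f ((hEf.union hFf).subset hQs),
              ncard_union_eq hd2 (hEf.subset sdiff_subset) hFf] at h3
            have haQ : a ∉ X₁ ∪ ((E \ {a}) ∪ F) := by
              rintro (h5 | h5 | h5)
              · exact haX₁ h5
              · exact h5.2 rfl
              · exact hEF a ha h5
            have hν1 : ν (full Rw (X₁ ∪ ((E \ {a}) ∪ F))) = ν (full Rw X₁) := by
              refine hst.eq ?_ g0e g0f g0g (Or.inr (Or.inl ⟨he₀ _ haQ, ?_⟩))
              · intro s s1 s2 s3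
                rw [mem_full, mem_full]
                constructor
                · intro h5 x hx
                  refine (h5 hx).resolve_right ?_
                  rintro (h6 | h6)
                  · exact hoE s s1 x hx h6.1
                  · exact hoF s s2 x hx h6
                · exact fun h5 => h5.trans subset_union_left
              · intro h5
                obtain ⟨c, hc⟩ := h.ne g
                rcases h5 hc with h6 | h6 | h6
                · rw [hX₁] at h6
                  exact h6.2 (Or.inl hc)
                · exact hgE c hc h6.1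
                · exact hgF c hc h6
            rw [hν1] at h3
            have hins : insert a (X₁ ∪ ((E \ {a}) ∪ F)) = X₁ ∪ (E ∪ F) := by
              rw [← union_insert, ← insert_union, insert_sdiff_singleton,
                insert_eq_of_mem ha]
            rw [hfe]
            by_cases hac : a ∈ M.closure (X₁ ∪ ((E \ {a}) ∪ F))
            · have h4 := rk_ins_mem hac
              rw [hins] at h4
              have h5 : t ∈ M.closure (X₁ ∪ ((E \ {a}) ∪ F)) := by
                have h6 : M.closure (X₁ ∪ (E ∪ F)) = M.closure (X₁ ∪ ((E \ {a}) ∪ F)) := by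
                  rw [← hins]
                  exact Matroid.closure_insert_eq_of_mem_closure hac
                rw [← h6]
                exact M.closure_subset_closure subset_union_right ht
              have h6 : t ∈ M.closure X₁ := by
                obtain ⟨c, hc⟩ := h.ne g
                have hcX₁ : c ∉ X₁ := by
                  rw [hX₁]
                  exact fun h7 => h7.2 (Or.inl hc)
                refine drops ((hEf.union hFf).subset hQs) ?_ h5
                rintro x (⟨hx, hxa⟩ | hx)
                · have hxa' : x ≠ a := hxa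
                  refine ⟨(⋃ s, Rw s) \ {a, x}, ?_, sdiff_subset.trans hSE,
                    hclE a ha x hx (Ne.symm hxa'), ?_⟩
                  · rintro z (hz | hz)
                    · refine ⟨hX₁S hz, ?_⟩
                      rintro (hz1 | hz1)
                      · exact haX₁ (hz1 ▸ hz)
                      · have hz1' : z = x := hz1
                        exact hXE z (hX₁s hz) (hz1' ▸ hx)
                    · refine ⟨hu' (Or.inr hz.1), ?_⟩
                      rintro (hz1 | hz1)
                      · have hz1' : z = a := hz1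
                        rw [hz1'] at hz
                        exact haQ (Or.inr hz.1)
                      · exact hz.2 hz1
                  · refine h.series sdiff_subset (hE hx) (fun h7 => h7.2 (Or.inr rfl)) (hE ha)
                      (fun h7 => h7.2 (Or.inl rfl)) hxa'
                · refine ⟨(⋃ s, Rw s) \ {a, x, c}, ?_, sdiff_subset.trans hSE,
                    hstar a ha x hx c hc, ?_⟩
                  · rintro z (hz | hz)
                    · refine ⟨hX₁S hz, ?_⟩
                      rintro (hz1 | hz1 | hz1)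
                      · exact haX₁ (hz1 ▸ hz)
                      · rw [hX₁] at hz
                        exact hz.2 (Or.inr (hz1 ▸ hx))
                      · have hz1' : z = c := hz1
                        exact hcX₁ (hz1' ▸ hz)
                    · refine ⟨hu' (Or.inr hz.1), ?_⟩
                      rintro (hz1 | hz1 | hz1)
                      · have hz1' : z = a := hz1
                        rw [hz1'] at hz
                        exact haQ (Or.inr hz.1)
                      · exact hz.2 hz1
                      · have hz1' : z = c := hz1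
                        rw [hz1'] at hz
                        rcases hz.1 with h7 | h7
                        · exact hgE c hc h7.1
                        · exact hgF c hc h7
                  · exact (h.star_notMem hef heg hfg hst (hE ha) (hF hx) hc).1
              have h7 := rk_ins_mem (M.closure_subset_closure hX₁s h6)
              rw [← hXe] at h7
              omega
            · have h4 := rk_ins haE hac
              rw [hins] at h4
              have h6 : t ∉ M.closure X₀ := by
                intro h6
                -- `t` is in the closure of `X₁`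
                have h7 : t ∈ M.closure X₁ := by
                  have hXu : X₁ ∪ (X₀ ∩ (Rw g ∪ F)) = X₀ := by
                    rw [hX₁]
                    exact sdiff_union_inter _ _
                  have h8 : t ∈ M.closure (X₁ ∪ (X₀ ∩ (Rw g ∪ F))) := by
                    rwa [hXu]
                  refine drops (hX₀f.subset inter_subset_left) ?_ h8
                  rintro x ⟨hxX, hx⟩
                  have hsubW : ∀ z ∈ X₁ ∪ (X₀ ∩ (Rw g ∪ F)) \ {x}, z ∈ X₀ ∧ z ≠ x := by
                    rintro z (hz | hz)
                    · refine ⟨hX₁s hz, ?_⟩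
                      rintro rfl
                      rw [hX₁] at hz
                      exact hz.2 hx
                    · exact ⟨hz.1.1, hz.2⟩
                  rcases hx with hx | hx
                  · refine ⟨(⋃ s, Rw s) \ {a, b, x}, ?_, sdiff_subset.trans hSE,
                      hstar a ha b hb x hx, (h.star_notMem hef heg hfg hst (hE ha) (hF hb) hx).2⟩
                    intro z hz
                    obtain ⟨hz1, hz2⟩ := hsubW z hz
                    refine ⟨hX₀ hz1, ?_⟩
                    rintro (h9 | h9 | h9)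
                    · exact haX₀ (h9 ▸ hz1)
                    · exact hbX (h9 ▸ hz1)
                    · exact hz2 h9
                  · have hbx : b ≠ x := by
                      rintro rfl
                      exact hbX hxX
                    refine ⟨(⋃ s, Rw s) \ {b, x}, ?_, sdiff_subset.trans hSE,
                      hclF b hb x hx hbx, ?_⟩
                    · intro z hz
                      obtain ⟨hz1, hz2⟩ := hsubW z hz
                      refine ⟨hX₀ hz1, ?_⟩
                      rintro (h9 | h9)
                      · exact hbX (h9 ▸ hz1)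
                      · exact hz2 h9
                    · refine h.series sdiff_subset (hF hx) (fun h7 => h7.2 (Or.inr rfl)) (hF hb)
                        (fun h7 => h7.2 (Or.inl rfl)) (Ne.symm hbx)
                apply hac
                have h7' : t ∈ M.closure (insert a ((E ∪ F) \ {a})) \
                    M.closure ((E ∪ F) \ {a}) := by
                  refine ⟨?_, hbal a ha⟩
                  rwa [insert_sdiff_singleton, insert_eq_of_mem (show a ∈ E ∪ F from Or.inl ha)]
                have h8 := (M.closure_exchange h7').1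
                refine M.closure_subset_closure_of_subset_closure ?_ h8
                have hu'' : X₁ ∪ ((E \ {a}) ∪ F) ⊆ M.E := hu'.trans hSE
                refine insert_subset (M.closure_subset_closure subset_union_left h7) ?_
                refine Subset.trans ?_ (M.subset_closure _ hu'')
                rintro x ⟨hx | hx, hxa⟩
                · exact Or.inr (Or.inl ⟨hx, hxa⟩)
                · exact Or.inr (Or.inr hx)
              have h7 := rk_ins htE h6
              rw [← hXe] at h7
              omega
          · obtain ⟨c, hc, hcX⟩ := not_subset.1 hFX'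
            have h1 : t ∉ M.closure X₀ := by
              intro h1
              refine hsepF b hb c hc.1 hc.2 (M.closure_subset_closure ?_ h1)
              intro z hz
              refine ⟨hX₀ hz, ?_⟩
              rintro (hz1 | hz1)
              · exact hbX (hz1 ▸ hz)
              · have hz1' : z = c := hz1
                exact hcX (hz1' ▸ hz)
            have h2 := rk_ins htE h1
            rw [← hXe] at h2
            have h3 : ν (full R' X) = ν (full Rw X₁) :=
              hst.eq hoo g0e g0f g0g (Or.inl ⟨fun h4 => hFX' (ff.1 h4), hg'⟩)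
            omega
        · obtain ⟨c, hc, hcX⟩ := not_subset.1 hEX
          have h1 : t ∉ M.closure X₀ := by
            intro h1
            refine hsepE a ha c hc.1 hc.2 (M.closure_subset_closure ?_ h1)
            intro z hz
            refine ⟨hX₀ hz, ?_⟩
            rintro (hz1 | hz1)
            · exact haX₀ (hz1 ▸ hz)
            · have hz1' : z = c := hz1
              exact hcX (hz1' ▸ hz)
          have h2 := rk_ins htE h1
          rw [← hXe] at h2
          have h3 : ν (full R' X) = ν (full Rw X₁) :=
            hst.eq hoo g0e g0f g0g (Or.inr (Or.inl ⟨fun h4 => hEX (fe.1 h4).2, hg'⟩))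
          omega
      · have hXe : X = X₀ := by
          rw [hX₀d, sdiff_singleton_eq_self htX]
        have h3 : ν (full R' X) = ν (full Rw X₁) :=
          hst.eq hoo g0e g0f g0g (Or.inr (Or.inl ⟨fun h4 => htX (fe.1 h4).1, hg'⟩))
        rw [h3, ← hν0]
        rw [hXe]
        exact h0

/-- **Move (R-c) in a V-system.** -/
theorem VSys.moveC [M.Finite] [DecidableEq ι] {D : Set α} {Col : κ → Set α} {tb : κ → τ}
    (h : VSys M Rw ν D Col tb) {e f g : ι} (hef : e ≠ f)
    (heg : e ≠ g) (hfg : f ≠ g) (hst : Star3 ν e f g) {t : α} {E F : Set α} (hE : E ⊆ Rw e)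
    (hEne : E.Nonempty) (hF : F ⊆ Rw f) (hF1 : ¬ Rw f ⊆ F) (htD : t ∈ D)
    (htS : ∀ s, t ∉ Rw s) (ht : t ∈ M.closure (E ∪ F))
    (hbal : ∀ a ∈ E, t ∉ M.closure ((E ∪ F) \ {a}))
    (hclE : ∀ a ∈ E, ∀ a' ∈ E, a ≠ a' → t ∈ M.closure ((⋃ s, Rw s) \ {a, a'}))
    (hclF : ∀ b ∈ F, ∀ b' ∈ F, b ≠ b' → t ∈ M.closure ((⋃ s, Rw s) \ {b, b'}))
    (hsepE : ∀ a ∈ E, ∀ c ∈ Rw e, c ∉ E → t ∉ M.closure ((⋃ s, Rw s) \ {a, c}))
    (hsepF : ∀ b ∈ F, ∀ c ∈ Rw f, c ∉ F → t ∉ M.closure ((⋃ s, Rw s) \ {b, c}))
    (hstar : ∀ a ∈ E, ∀ b ∈ F, ∀ c ∈ Rw g, t ∈ M.closure ((⋃ s, Rw s) \ {a, b, c})) {D₁ : Set α}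
    (hD₁ : D₁ ⊆ D \ ⋃ s, rowC Rw e f g t E F s)
    (hD₁c : D ⊆ M.closure ((⋃ s, rowC Rw e f g t E F s) ∪ D₁)) :
    ∃ Z ⊆ D₁, BIC.rk M ((⋃ s, rowC Rw e f g t E F s) ∪ Z) =
        BIC.rk M (⋃ s, rowC Rw e f g t E F s) + Z.ncard ∧
      D₁ ⊆ M.closure ((⋃ s, rowC Rw e f g t E F s) ∪ Z) ∧
      VSys (M ／ Z) (rowC Rw e f g t E F) ν (D \ Z) Col tb := by
  have hR := h.rows.moveC hef heg hfg hst hE hEne hF hF1 htS ht hbal hclE hclF hsepE hsepF
    hstar
  refine h.step hR ?_ hD₁ hD₁c
  refine iUnion_subset fun s => ?_
  unfold rowC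
  split_ifs with h1 h2 h3
  · rintro x (hx | hx)
    · exact Or.inr (hx ▸ htD)
    · exact Or.inl (mem_iUnion.2 ⟨e, hx.1⟩)
  · rintro x hx
    exact Or.inl (mem_iUnion.2 ⟨f, hx.1⟩)
  · rintro x (hx | hx)
    · exact Or.inl (mem_iUnion.2 ⟨g, hx⟩)
    · exact Or.inl (mem_iUnion.2 ⟨f, hF hx⟩)
  · exact (subset_iUnion Rw s).trans subset_union_left

end TST
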