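import Pool.Agent.TST.StarNode
import Pool.Agent.TST.PP2

/-!
# Near pairs are pairs of exits of the other row (CLAIM A of T-star; helper63)

Star with the legs `F`, `G`, `H`, the exit `z` cuts the leg `F` at `Fo`.  Two near elements `t`, `t'`
between `F` and `G` with different places on `F` (the element `c` of `Fo` is separated from the end by
`t`, not by `t'`): no circuit of the row matroid of `G` contains `t` and both ends (`nearPair`), so
`t`, `t'` is a pair `PP2` of exits of the row `G` (`nearPP2`).  The elements of the row `G` may be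
balanced.
-/

set_option autoImplicit false

open Set
open scoped Matroid

namespace TST

variable {α : Type*} {N : Matroid α} {K F G H Fo A T T' : Set α} {z t t' c d q o₁ o₂ o₃ : α}

namespace Tri

/-- **A link** is an exit of the inner theta.  The other elements need not be constant on the outer
part, they only do not separate `c` and the end. -/
theorem link' (h : Tri N K F G H T o₁ o₂ o₃ z) (hz : ZCut N K z F Fo G H) (ho : o₁ ∈ Fo)
    (hc : c ∈ Fo) (hd : d ∈ T) (hco : ¬ Eqv N K d c o₁) (hT' : T' ⊆ T)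
    (hTc : ∀ t ∈ T', Eqv N K t c o₁) (hdT : d ∉ T') :
    Tri (N ／ (Fo \ {c})) (insert c (K \ Fo)) (insert c (F \ Fo)) G H T' c o₂ o₃ d := by
  have hcne : c ≠ o₁ := fun h1 => hco (Or.inl h1)
  have hcut := hz.cutOff h.th h.zK
  have hDK : Fo \ {c} ⊆ K := fun w hw => hcut.sub hw.1
  have hnF : ∀ g ∈ G ∪ H, g ∉ Fo := by
    rintro g (hg | hg) hgF
    · exact disjoint_left.1 h.th.dFG (hz.sub hgF) hg
    · exact disjoint_left.1 h.th.dFH (hz.sub hgF) hg
  have n2 := hnF _ (Or.inl h.h2)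
  have n3 := hnF _ (Or.inr h.h3)
  have hdK := h.TK d hd
  have hKK : K ⊆ insert c (K \ Fo) ∪ (Fo \ {c}) := by
    intro w hw
    by_cases hwF : w ∈ Fo
    · by_cases hwo : w = c
      · exact Or.inl (Or.inl hwo)
      · exact Or.inr ⟨hwF, hwo⟩
    · exact Or.inl (Or.inr ⟨hw, hwF⟩)
  have hK'K : insert c (K \ Fo) ⊆ K := insert_subset (hcut.sub hc) sdiff_subset
  have hTc' : ∀ t ∈ T', t ∈ N.closure (K \ {c, o₁}) := fun t ht => (hTc t ht).resolve_left hcne
  have hdc : d ∉ N.closure (K \ {c, o₁}) := fun h1 => hco (Or.inr h1)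
  refine ⟨h.th.sub_in hz.sub hc, Or.inl rfl, h.h2, h.h3, ?_, ?_, ?_, ?_, ?_, ?_, ?_⟩
  · exact sub_in_P1 h.p2 hcut hc n2 n3 hT' h.zT
  · exact sub_in_P2 h.p1 h.p2 hcut hc ho hcne n2 n3 hT' hTc' h.zT hd hdK hdc h.th.ground
  · exact con_spans hKK (h.Tc hd) (fun h1 => hdK (hDK h1))
  · exact fun h1 => hdK (hK'K h1)
  · exact hdT
  · intro t ht
    exact con_spans hKK (h.Tc (hT' ht)) (fun h1 => h.TK t (hT' ht) (hDK h1))
  · exact fun t ht h1 => h.TK t (hT' ht) (hK'K h1)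

/-- **Near pair.**  `A` = the contracted part of the star (all of `Fo`, nothing of `G`); `q` = the
representative of the row `H` at the centre. -/
theorem nearPair (h : Tri N K F G H T o₁ o₂ o₃ z) (hz : ZCut N K z F Fo G H) (ho : o₁ ∈ Fo)
    (hc : c ∈ Fo) (ht : t ∈ T) (hco : ¬ Eqv N K t c o₁) (hT' : T' ⊆ T)
    (hTc : ∀ s ∈ T', Eqv N K s c o₁) (htT : t ∉ T') (hq : q ∈ H)
    (hH : ∀ s ∈ insert t T', Eqv N K s q o₃) (hFA : Fo ⊆ A) (hAK : A ⊆ K) {C : Set α}
    (hC : (N ／ A).IsCircuit C) (hCs : C ⊆ G ∪ {q} ∪ T' ∪ {t}) (htC : t ∈ C) (h2C : o₂ ∈ C)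
    (hqC : q ∈ C) : False := by
  have hch := h.link' hz ho hc ht hco hT' hTc htT
  have hcK : c ∈ K := h.th.F_sub (hz.sub hc)
  have hnF : ∀ g ∈ G ∪ H, g ∉ Fo := by
    rintro g (hg | hg) hgF
    · exact disjoint_left.1 h.th.dFG (hz.sub hgF) hg
    · exact disjoint_left.1 h.th.dFH (hz.sub hgF) hg
  have e1 : (N ／ (Fo \ {c})) ／ (A \ (Fo \ {c})) = N ／ A := by
    rw [Matroid.contract_contract, union_sdiff_cancel (sdiff_subset.trans hFA)]
  rw [← e1] at hC
  obtain ⟨C', h1, h2, h3⟩ := hC.exists_subset_isCircuit_of_contract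
  -- the elements of the circuit
  have hel : ∀ w ∈ C', (w ∈ insert c (K \ Fo) ∧ (w ∈ H → w = q ∨ w ∈ A)) ∨
      w ∈ insert t T' := by
    intro w hw
    rcases h3 hw with h4 | h4
    · rcases hCs h4 with ((h5 | h5) | h5) | h5
      · exact Or.inl ⟨Or.inr ⟨h.th.G_sub h5, hnF w (Or.inl h5)⟩,
          fun h6 => absurd h6 (disjoint_left.1 h.th.dGH h5)⟩
      · rw [mem_singleton_iff.1 h5]
        exact Or.inl ⟨Or.inr ⟨h.th.H_sub hq, hnF q (Or.inr hq)⟩, fun _ => Or.inl rfl⟩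
      · exact Or.inr (Or.inr h5)
      · exact Or.inr (Or.inl h5)
    · refine Or.inl ⟨?_, fun _ => Or.inr h4.1⟩
      by_cases h5 : w ∈ Fo
      · by_cases h6 : w = c
        · exact Or.inl h6
        · exact absurd ⟨h5, h6⟩ h4.2
      · exact Or.inr ⟨hAK h4.1, h5⟩
  have h3C : o₃ ∈ C' := by
    by_contra h3C
    have hqo : q ≠ o₃ := fun h4 => h3C (h4 ▸ h2 hqC)
    have h5 := h1.mem_closure_sdiff_singleton_of_mem (h2 hqC)
    refine hch.th.swap.swap'.notMem_cl hq h.h3 hqo ?_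
    have hKE : insert c (K \ Fo) \ {q, o₃} ⊆ (N ／ (Fo \ {c})).E :=
      fun w hw => hch.th.ground hw.1
    refine (N ／ (Fo \ {c})).closure_subset_closure_of_subset_closure ?_ h5
    rintro w ⟨hw, hwq⟩
    rcases hel w hw with ⟨h6, h7⟩ | h6
    · refine (N ／ (Fo \ {c})).subset_closure _ hKE ⟨h6, ?_⟩
      rintro (h8 | h8)
      · exact hwq h8
      · exact h3C ((mem_singleton_iff.1 h8) ▸ hw)
    · have h7 := (hH w h6).resolve_left hqo
      have hwK : w ∉ K := by
        rcases h6 with h6 | h6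
        · exact h6 ▸ h.TK t ht
        · exact h.TK w (hT' h6)
      refine con_spans ?_ h7 (fun h8 => hwK (h.th.F_sub (hz.sub h8.1)))
      rintro v ⟨hv, hv2⟩
      by_cases h8 : v ∈ Fo
      · by_cases h9 : v = c
        · exact Or.inl ⟨Or.inl h9, hv2⟩
        · exact Or.inr ⟨h8, h9⟩
      · exact Or.inl ⟨Or.inr ⟨hv, h8⟩, hv2⟩
  refine hch.p2 C' ?_ h1 (h2 htC) (Or.inr (Or.inr ⟨h2 h2C, h3C⟩))
  intro w hw
  rcases hel w hw with h4 | h4 | h4
  · exact Or.inl (Or.inl h4.1)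
  · exact Or.inr h4
  · exact Or.inl (Or.inr h4)

/-- **Near pair**, as a pair of exits of the row `G` with the ends `o₂`, `q`; `Tg` = elements which
are constant on the legs `F` and `H` (the elements of the row `G`, balanced or not). -/
theorem nearPP2 (h : Tri N K F G H T o₁ o₂ o₃ z) (hz : ZCut N K z F Fo G H) (ho : o₁ ∈ Fo)
    (hc : c ∈ Fo) (ht : t ∈ T) (hco : ¬ Eqv N K t c o₁) (ht' : t' ∈ T) (hco' : Eqv N K t' c o₁)
    (hT' : T' ⊆ T) (hTc : ∀ s ∈ T', Eqv N K s c o₁) (hq : q ∈ H)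
    (hHt : Eqv N K t q o₃) (hHt' : Eqv N K t' q o₃) (hH : ∀ s ∈ T', Eqv N K s q o₃)
    (hFA : Fo ⊆ A) (hAK : A ⊆ K) : PP2 (N ／ A) (insert q G) T' o₂ q t t' := by
  intro C hCs hC htC ht'C h2C hqC
  refine h.nearPair hz ho hc ht hco (T' := insert t' T') (insert_subset ht' hT') ?_ ?_ hq ?_ hFA hAK
    hC ?_ htC h2C hqC
  · rintro s (hs | hs)
    · exact hs ▸ hco'
    · exact hTc s hs
  · rintro (h1 | h1)
    · exact hco (h1 ▸ hco')
    · exact hco (hTc t h1)
  · rintro s (hs | hs | hs)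
    · exact hs ▸ hHt
    · exact hs ▸ hHt'
    · exact hH s hs
  · intro w hw
    rcases hCs hw with ((h1 | h1) | h1) | h1
    · exact Or.inl (Or.inl (Or.inr h1))
    · exact Or.inl (Or.inl (Or.inl h1))
    · exact Or.inl (Or.inr (Or.inr h1))
    · rcases h1 with h1 | h1
      · exact Or.inr h1
      · exact Or.inl (Or.inr (Or.inl h1))

end Tri

end TST
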