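import Mathlib

/-!
# T-star: the numbers of the composition of `ClaimF`, as statements on natural numbers (helper95)
-/

namespace TSH

/-- the number `σ` of `pZero` -/
theorem num_sigma (η Cb σ₂ : ℕ) : ∃ t w₁ : ℕ, 1 ≤ t ∧ ∀ w m, w₁ ≤ w → m ≤ Cb * w ^ 2 →
    4 * η * (2 * σ₂ + 2 * (m / t) + 3 + 1) ≤ w ^ 2 := by
  refine ⟨16 * η * Cb + 1, 8 * η * (2 * σ₂ + 4), by omega, ?_⟩
  intro w m hw hm
  have hw2 : w ≤ w ^ 2 := Nat.le_self_pow (by omega) w
  have h1 : 16 * η * (m / (16 * η * Cb + 1)) ≤ w ^ 2 := by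
    rcases Nat.eq_zero_or_pos Cb with hC | hC
    · rw [hC, Nat.zero_mul] at hm
      have h3 : m = 0 := by omega
      rw [h3]
      simp
    · have h2 : (16 * η * Cb + 1) * (m / (16 * η * Cb + 1)) ≤ m := Nat.mul_div_le m _
      have h3 : Cb * (16 * η * (m / (16 * η * Cb + 1))) ≤ Cb * w ^ 2 := by
        calc Cb * (16 * η * (m / (16 * η * Cb + 1))) = 16 * η * Cb * (m / (16 * η * Cb + 1)) := by
              ring
          _ ≤ (16 * η * Cb + 1) * (m / (16 * η * Cb + 1)) := Nat.mul_le_mul_right _ (by omega)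
          _ ≤ m := h2
          _ ≤ Cb * w ^ 2 := hm
      exact Nat.le_of_mul_le_mul_left h3 hC
  have h2 : 2 * (4 * η * (2 * σ₂ + 2 * (m / (16 * η * Cb + 1)) + 3 + 1)) =
      8 * η * (2 * σ₂ + 4) + 16 * η * (m / (16 * η * Cb + 1)) := by ring
  omega

/-- the rows of `LR` and their labels -/
theorem num_light (A η : ℕ) : ∃ (Df h' : ℕ → ℕ) (h w₁ : ℕ), 4 * η ≤ h ∧
    ∀ w L L' lo v lr x l0 : ℕ, w₁ ≤ w → L ≤ L' → Df L' < w ^ 2 → Df L' * lo ≤ A * w ^ 2 →
      v ≤ A * (w + lo) → lr ≤ A * (w + v) → h' L * x ≤ w ^ 2 → l0 ≤ lo + L' * lr + x →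
      32 * η * L * (lr + A * l0) ≤ w ^ 2 ∧ 2 * η * lr ≤ w ^ 2 ∧ l0 ≤ w ^ 2 := by
  refine ⟨fun y => (A + 1) * (128 * (η + 1) * (A + 1) ^ 3 * (y + 1) ^ 2) ^ 2,
    fun y => 128 * (η + 1) * (A + 1) * (y + 1), 4 * η, 0, le_rfl, ?_⟩
  intro w L L' lo v lr x l0 _ hL hD hlo hv hlr hx hl0
  obtain ⟨G, hG⟩ : ∃ G : ℕ, G = 128 * (η + 1) * (A + 1) ^ 3 * (L' + 1) ^ 2 := ⟨_, rfl⟩
  replace hD : (A + 1) * G ^ 2 < w ^ 2 := by rw [hG]; exact hD
  replace hlo : (A + 1) * G ^ 2 * lo ≤ A * w ^ 2 := by rw [hG]; exact hlo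
  replace hx : 128 * (η + 1) * (A + 1) * (L + 1) * x ≤ w ^ 2 := hx
  have hG1 : 0 < G := by
    rw [hG]
    positivity
  have hGw : G < w := by
    have h1 : G ^ 2 < w ^ 2 := lt_of_le_of_lt (Nat.le_mul_of_pos_left _ (by omega)) hD
    exact lt_of_pow_lt_pow_left₀ 2 (by omega) h1
  have hGlo : G * lo ≤ w ^ 2 := by
    have h1 : (A + 1) * (G ^ 2 * lo) ≤ (A + 1) * w ^ 2 := by
      rw [← mul_assoc]
      exact hlo.trans (Nat.mul_le_mul_right _ (by omega))
    have h2 : G ^ 2 * lo ≤ w ^ 2 := Nat.le_of_mul_le_mul_left h1 (by omega)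
    refine le_trans (Nat.mul_le_mul_right _ ?_) h2
    rw [pow_two]
    exact Nat.le_mul_of_pos_left _ hG1
  have hGG : G * w ≤ w ^ 2 := by
    rw [pow_two]
    exact Nat.mul_le_mul_right _ hGw.le
  -- `lr ≤ (A + 1) ^ 2 * (w + lo)`
  have h1 : lr ≤ (A + 1) ^ 2 * (w + lo) := by
    calc lr ≤ A * (w + v) := hlr
      _ ≤ A * (w + A * (w + lo)) := Nat.mul_le_mul_left _ (by omega)
      _ ≤ (A + 1) ^ 2 * (w + lo) := by nlinarith [Nat.zero_le (A * w), Nat.zero_le (A * lo)]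
  have h2 : G * (w + lo) ≤ 2 * w ^ 2 := by
    rw [Nat.mul_add]
    omega
  have h3 : ∀ q, q * (A + 1) ^ 2 * 2 ≤ G → q * lr ≤ w ^ 2 := by
    intro q hq
    have h4 : 2 * (q * lr) ≤ G * (w + lo) := by
      calc 2 * (q * lr) ≤ 2 * (q * ((A + 1) ^ 2 * (w + lo))) :=
            Nat.mul_le_mul_left _ (Nat.mul_le_mul_left _ h1)
        _ = q * (A + 1) ^ 2 * 2 * (w + lo) := by ring
        _ ≤ G * (w + lo) := Nat.mul_le_mul_right _ hq
    omega
  have hLy : L ≤ L' + 1 := by omega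
  have hy1 : 1 ≤ L' + 1 := by omega
  have hA1 : 1 ≤ A + 1 := by omega
  refine ⟨?_, ?_, ?_⟩
  · -- the first one
    have e1 : 32 * η * L * (lr + A * l0) ≤ 32 * η * L * (lr + A * (lo + L' * lr + x)) :=
      Nat.mul_le_mul_left _ (Nat.add_le_add_left (Nat.mul_le_mul_left _ hl0) _)
    have e2 : 4 * (32 * η * L * (lr + A * (lo + L' * lr + x))) =
        128 * η * L * (1 + A * L') * lr + 128 * η * L * A * lo + 128 * η * A * L * x := by ring
    have e3 : 128 * η * L * (1 + A * L') * lr ≤ 2 * w ^ 2 := by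
      have e4 : 64 * η * L * (1 + A * L') * lr ≤ w ^ 2 := by
        refine h3 _ ?_
        rw [hG]
        have e5 : 1 + A * L' ≤ (A + 1) * (L' + 1) := by nlinarith
        calc 64 * η * L * (1 + A * L') * (A + 1) ^ 2 * 2
            ≤ 64 * (η + 1) * (L' + 1) * ((A + 1) * (L' + 1)) * (A + 1) ^ 2 * 2 := by
              refine Nat.mul_le_mul_right _ (Nat.mul_le_mul_right _ (Nat.mul_le_mul
                (Nat.mul_le_mul (Nat.mul_le_mul_left _ (by omega)) hLy) e5))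
          _ = 128 * (η + 1) * (A + 1) ^ 3 * (L' + 1) ^ 2 := by ring
      calc 128 * η * L * (1 + A * L') * lr = 2 * (64 * η * L * (1 + A * L') * lr) := by ring
        _ ≤ 2 * w ^ 2 := Nat.mul_le_mul_left _ e4
    have e6 : 128 * η * L * A * lo ≤ w ^ 2 := by
      refine le_trans (Nat.mul_le_mul_right _ ?_) hGlo
      rw [hG]
      calc 128 * η * L * A ≤ 128 * (η + 1) * (L' + 1) * (A + 1) :=
            Nat.mul_le_mul (Nat.mul_le_mul (Nat.mul_le_mul_left _ (by omega)) hLy) (by omega)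
        _ = 128 * (η + 1) * (A + 1) * (L' + 1) := by ring
        _ ≤ 128 * (η + 1) * (A + 1) ^ 3 * (L' + 1) ^ 2 :=
            Nat.mul_le_mul (Nat.mul_le_mul_left _ (Nat.le_self_pow (by omega) _))
              (Nat.le_self_pow (by omega) _)
    have e7 : 128 * η * A * L * x ≤ w ^ 2 := by
      refine le_trans (Nat.mul_le_mul_right _ ?_) hx
      exact Nat.mul_le_mul (Nat.mul_le_mul (Nat.mul_le_mul_left _ (by omega)) (by omega))
        (by omega)
    omega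
  · refine h3 _ ?_
    rw [hG]
    calc 2 * η * (A + 1) ^ 2 * 2 = 4 * η * (A + 1) ^ 2 := by ring
      _ ≤ 128 * (η + 1) * (A + 1) ^ 3 := Nat.mul_le_mul (Nat.mul_le_mul (by omega) (by omega))
          (Nat.pow_le_pow_right hA1 (by omega))
      _ ≤ 128 * (η + 1) * (A + 1) ^ 3 * (L' + 1) ^ 2 :=
          Nat.le_mul_of_pos_right _ (Nat.pow_pos (by omega))
  · have f1 : 4 * lo ≤ w ^ 2 := by
      refine le_trans (Nat.mul_le_mul_right _ ?_) hGlo
      rw [hG]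
      calc 4 ≤ 128 * 1 * 1 * 1 := by omega
        _ ≤ 128 * (η + 1) * (A + 1) ^ 3 * (L' + 1) ^ 2 :=
            Nat.mul_le_mul (Nat.mul_le_mul (Nat.mul_le_mul_left _ (by omega))
              (Nat.one_le_pow _ _ (by omega))) (Nat.one_le_pow _ _ (by omega))
    have f2 : 4 * L' * lr ≤ w ^ 2 := by
      refine h3 _ ?_
      rw [hG]
      calc 4 * L' * (A + 1) ^ 2 * 2 = 8 * (A + 1) ^ 2 * L' := by ring
        _ ≤ 128 * (η + 1) * (A + 1) ^ 3 * (L' + 1) ^ 2 := by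
            refine Nat.mul_le_mul (Nat.mul_le_mul (by omega) (Nat.pow_le_pow_right hA1 (by omega)))
              (le_trans (by omega : L' ≤ L' + 1) (Nat.le_self_pow (by omega) _))
    have f3 : 4 * x ≤ w ^ 2 := by
      refine le_trans (Nat.mul_le_mul_right _ ?_) hx
      calc 4 ≤ 128 * 1 * 1 * 1 := by omega
        _ ≤ 128 * (η + 1) * (A + 1) * (L + 1) :=
            Nat.mul_le_mul (Nat.mul_le_mul (Nat.mul_le_mul_left _ (by omega)) (by omega))
              (by omega)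
    have f4 : 4 * L' * lr = 4 * (L' * lr) := by ring
    omega

end TSH
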