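import Pool.Agent.TST.MaxPriv

/-!
# Classes with one-place edges and degenerate tripod edges (label level of T*, helper47)

Pure graph lemma.  `One` = edges of one-place families, `Dt v` = edges of the degenerate tripods with the
centre `v`; both join labels of one row.
-/

set_option autoImplicit false
set_option linter.unusedVariables false
set_option linter.unusedSectionVars false

open Set

namespace TST

universe v w

variable {β : Type v} {ν : Type w} {nd₁ nd₂ : β → ν} {R : ℕ → β} {Same Far One : ℕ → ℕ → Prop}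
  {Near Dt : ν → ℕ → ℕ → Prop}

/-- the edges of the rungs and of the same-row families -/
def C0G {ν : Type w} (Same Far : ℕ → ℕ → Prop) (Near : ν → ℕ → ℕ → Prop) (i j : ℕ) : Prop :=
  Same i j ∨ (∃ y, Near y i j) ∨ Far i j

/-- `c` is split by a rung family -/
def TouG {ν : Type w} (Far : ℕ → ℕ → Prop) (Near : ν → ℕ → ℕ → Prop) (c : ℕ) : Prop :=
  (∃ j, Far c j) ∨ ∃ y j, Near y c j

/-- the label `q` is at `x` and it is joined to no exit of the star `x` -/
def FreeG {β : Type v} {ν : Type w} (nd₁ nd₂ : β → ν) (R : ℕ → β) (Same Far : ℕ → ℕ → Prop)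
    (Near : ν → ℕ → ℕ → Prop) (x : ν) (q : ℕ) : Prop :=
  At nd₁ nd₂ (R q) x ∧ ∀ p, ExG nd₁ nd₂ R Far Near x p →
    ¬ Relation.ReflTransGen (StG nd₁ nd₂ R Same Near x) p q

/-- all edges -/
def AllG {ν : Type w} (Same Far One : ℕ → ℕ → Prop) (Near Dt : ν → ℕ → ℕ → Prop) (i j : ℕ) : Prop :=
  C0G Same Far Near i j ∨ One i j ∨ ∃ y, Dt y i j

lemma FreeG.stg {x : ν} {q q' : ℕ} (hSs : ∀ i j, Same i j → Same j i)
    (hSr : ∀ i j, Same i j → R i = R j)
    (hNs : ∀ y i j, Near y i j → Near y j i)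
    (hNr : ∀ y i j, Near y i j → At nd₁ nd₂ (R i) y ∧ At nd₁ nd₂ (R j) y)
    (h : FreeG nd₁ nd₂ R Same Far Near x q) (hs : StG nd₁ nd₂ R Same Near x q q') :
    FreeG nd₁ nd₂ R Same Far Near x q' := by
  refine ⟨?_, fun p hp hpq => h.2 p hp (hpq.tail (hs.symm hSs hSr hNs))⟩
  rcases hs with ⟨h1, h2⟩ | h1
  · rw [← hSr _ _ h1]
    exact h2
  · exact (hNr _ _ _ h1).2

/-- an edge of `C0G` at a free label stays in the star -/
lemma FreeG.stg_of {x : ν} {q q' : ℕ} (hNs : ∀ y i j, Near y i j → Near y j i)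
    (h : FreeG nd₁ nd₂ R Same Far Near x q) (hs : C0G Same Far Near q q') :
    StG nd₁ nd₂ R Same Near x q q' := by
  have hex : ¬ ExG nd₁ nd₂ R Far Near x q := fun h1 => h.2 q h1 Relation.ReflTransGen.refl
  rcases hs with h1 | ⟨y, h1⟩ | h1
  · exact Or.inl ⟨h1, h.1⟩
  · by_cases hy : y = x
    · rw [hy] at h1
      exact Or.inr h1
    · exact absurd ⟨h.1, Or.inr ⟨y, hy, q', h1⟩⟩ hex
  · exact absurd ⟨h.1, Or.inl ⟨q', h1⟩⟩ hex

section

variable (hSs : ∀ i j, Same i j → Same j i) (hSr : ∀ i j, Same i j → R i = R j)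
  (hNs : ∀ y i j, Near y i j → Near y j i)
  (hNr : ∀ y i j, Near y i j → At nd₁ nd₂ (R i) y ∧ At nd₁ nd₂ (R j) y)

include hSs hSr hNs hNr

lemma FreeG.c0 {x : ν} {q q' : ℕ} (h : FreeG nd₁ nd₂ R Same Far Near x q)
    (hs : Relation.ReflTransGen (C0G Same Far Near) q q') :
    FreeG nd₁ nd₂ R Same Far Near x q' := by
  induction hs with
  | refl => exact h
  | tail _ h2 ih => exact ih.stg hSs hSr hNs hNr (ih.stg_of hNs h2)

/-- a component which is not touched is on one row and free at both ends -/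
lemma untouched {q : ℕ}
    (hu : ∀ c, Relation.ReflTransGen (C0G Same Far Near) q c → ¬ TouG Far Near c) :
    ∀ q', Relation.ReflTransGen (C0G Same Far Near) q q' → R q' = R q := by
  intro q' h
  induction h with
  | refl => rfl
  | @tail b c h1 h2 ih =>
    rcases h2 with h3 | ⟨y, h3⟩ | h3
    · rw [← hSr _ _ h3]
      exact ih
    · exact absurd (Or.inr ⟨y, c, h3⟩) (hu b h1)
    · exact absurd (Or.inl ⟨c, h3⟩) (hu b h1)

lemma c0_symm (hFs : ∀ i j, Far i j → Far j i) {i j : ℕ}
    (h : Relation.ReflTransGen (C0G Same Far Near) i j) :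
    Relation.ReflTransGen (C0G Same Far Near) j i := by
  induction h with
  | refl => exact Relation.ReflTransGen.refl
  | tail _ h2 ih =>
    refine Relation.ReflTransGen.head ?_ ih
    rcases h2 with h3 | ⟨y, h3⟩ | h3
    · exact Or.inl (hSs _ _ h3)
    · exact Or.inr (Or.inl ⟨y, hNs _ _ _ h3⟩)
    · exact Or.inr (Or.inr (hFs _ _ h3))

lemma FreeG.of_untouched {x : ν} {q : ℕ} (hat : At nd₁ nd₂ (R q) x)
    (hFs : ∀ i j, Far i j → Far j i)
    (hu : ∀ c, Relation.ReflTransGen (C0G Same Far Near) q c → ¬ TouG Far Near c) :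
    FreeG nd₁ nd₂ R Same Far Near x q := by
  refine ⟨hat, fun p hp hpq => ?_⟩
  have h1 : Relation.ReflTransGen (C0G Same Far Near) p q := by
    refine Relation.ReflTransGen.mono ?_ _ _ hpq
    rintro a b (⟨h2, -⟩ | h2)
    · exact Or.inl h2
    · exact Or.inr (Or.inl ⟨x, h2⟩)
  refine hu p (c0_symm hSs hSr hNs hNr hFs h1) ?_
  rcases hp.2 with ⟨j, h2⟩ | ⟨y, -, j, h2⟩
  · exact Or.inl ⟨j, h2⟩
  · exact Or.inr ⟨y, j, h2⟩

/-- **Classes with one-place and degenerate tripod edges.** -/
theorem one_dt (hFs : ∀ i j, Far i j → Far j i)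
    (hOs : ∀ i j, One i j → One j i) (hOr : ∀ i j, One i j → R i = R j)
    (hDs : ∀ y i j, Dt y i j → Dt y j i)
    (hDr : ∀ y i j, Dt y i j → At nd₁ nd₂ (R i) y ∧ R i = R j)
    (hD : ∀ y i j, Dt y i j → ∀ p, ExG nd₁ nd₂ R Far Near y p →
      ¬ Relation.ReflTransGen (StG nd₁ nd₂ R Same Near y) p i)
    (hD2 : ∀ y i j, Dt y i j → ∀ p, ExG nd₁ nd₂ R Far Near y p → R p = R i)
    (hO : ∀ q p, One q p → (∃ c, Relation.ReflTransGen (C0G Same Far Near) q c ∧
      TouG Far Near c) → Relation.ReflTransGen (C0G Same Far Near) q p) (i : ℕ) :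
    (∀ j, Relation.ReflTransGen (AllG Same Far One Near Dt) i j →
      Relation.ReflTransGen (C0G Same Far Near) i j) ∨
    ∃ v v' : ν, ∀ j, Relation.ReflTransGen (AllG Same Far One Near Dt) i j →
      At nd₁ nd₂ (R j) v ∨ At nd₁ nd₂ (R j) v' := by
  have hsym : ∀ {i j}, Relation.ReflTransGen (AllG Same Far One Near Dt) i j →
      Relation.ReflTransGen (AllG Same Far One Near Dt) j i := by
    intro i j hij
    induction hij with
    | refl => exact Relation.ReflTransGen.refl
    | tail _ h5 ih =>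
      refine Relation.ReflTransGen.head ?_ ih
      rcases h5 with (h3 | ⟨y, h3⟩ | h3) | h3 | ⟨y, h3⟩
      · exact Or.inl (Or.inl (hSs _ _ h3))
      · exact Or.inl (Or.inr (Or.inl ⟨y, hNs _ _ _ h3⟩))
      · exact Or.inl (Or.inr (Or.inr (hFs _ _ h3)))
      · exact Or.inr (Or.inl (hOs _ _ h3))
      · exact Or.inr (Or.inr ⟨y, hDs _ _ _ h3⟩)
  -- one-place edges
  have hOne : ∀ x q q', FreeG nd₁ nd₂ R Same Far Near x q → One q q' →
      FreeG nd₁ nd₂ R Same Far Near x q' := by
    intro x q q' h h1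
    by_cases ht : ∃ c, Relation.ReflTransGen (C0G Same Far Near) q c ∧ TouG Far Near c
    · exact h.c0 hSs hSr hNs hNr (hO q q' h1 ht)
    refine FreeG.of_untouched hSs hSr hNs hNr (by rw [← hOr _ _ h1]; exact h.1) hFs ?_
    intro c hc hc'
    have h2 := hO q' q (hOs _ _ h1) ⟨c, hc, hc'⟩
    exact ht ⟨c, (c0_symm hSs hSr hNs hNr hFs h2).trans hc, hc'⟩
  by_cases hdt : ∃ j y k, Relation.ReflTransGen (AllG Same Far One Near Dt) i j ∧ Dt y j k
  · right
    obtain ⟨j, v, k, hij, hjk⟩ := hdt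
    obtain ⟨hrv, hrk⟩ := hDr _ _ _ hjk
    obtain ⟨r, hr⟩ : ∃ r, r = R j := ⟨_, rfl⟩
    obtain ⟨u, hu, huv⟩ : ∃ u, At nd₁ nd₂ r u ∧ ∀ y, At nd₁ nd₂ r y → y = v ∨ y = u := by
      rw [← hr] at hrv
      rcases hrv with h1 | h1
      · refine ⟨nd₂ r, Or.inr rfl, fun y hy => ?_⟩
        rcases hy with h2 | h2
        · exact Or.inl (h2.symm.trans h1)
        · exact Or.inr h2.symm
      · refine ⟨nd₁ r, Or.inl rfl, fun y hy => ?_⟩
        rcases hy with h2 | h2
        · exact Or.inr h2.symm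
        · exact Or.inl (h2.symm.trans h1)
    -- exits of the star of `x` are on `r`
    have key : ∀ x y q q', (∀ p, ExG nd₁ nd₂ R Far Near x p → R p = r) →
        FreeG nd₁ nd₂ R Same Far Near x q → Dt y q q' → y ≠ x → R q ≠ r →
        FreeG nd₁ nd₂ R Same Far Near x q' := by
      intro x y q q' hx hq hqq hyx hqr
      obtain ⟨hy, hR⟩ := hDr _ _ _ hqq
      refine ⟨by rw [← hR]; exact hq.1, fun p hp hpq => ?_⟩
      have hpr := hx p hp
      -- the last entry into the row of `q'`
      have h1 : ∀ b, Relation.ReflTransGen (StG nd₁ nd₂ R Same Near x) p b → R b = R q →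
          ∃ p', ExG nd₁ nd₂ R Far Near y p' ∧
            Relation.ReflTransGen (StG nd₁ nd₂ R Same Near y) p' b := by
        intro b hb
        induction hb with
        | refl => exact fun h2 => absurd (h2.symm.trans hpr) hqr
        | @tail b c _ h3 ih =>
          intro h2
          rcases h3 with ⟨h4, h5⟩ | h4
          · obtain ⟨p', g1, g2⟩ := ih ((hSr _ _ h4).trans h2)
            refine ⟨p', g1, g2.tail (Or.inl ⟨h4, ?_⟩)⟩
            rw [(hSr _ _ h4).trans h2]
            exact hy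
          · refine ⟨c, ⟨by rw [h2]; exact hy, Or.inr ⟨x, fun h => hyx h.symm, b, hNs _ _ _ h4⟩⟩,
              Relation.ReflTransGen.refl⟩
      obtain ⟨p', g1, g2⟩ := h1 q' hpq hR.symm
      exact hD _ _ _ (hDs _ _ _ hqq) p' g1 g2
    refine ⟨v, u, ?_⟩
    have h0 : ∀ q, Relation.ReflTransGen (AllG Same Far One Near Dt) j q →
        FreeG nd₁ nd₂ R Same Far Near v q ∨ ((∃ a b, Dt u a b ∧ R a = r) ∧
          FreeG nd₁ nd₂ R Same Far Near u q) := by
      intro q hq
      induction hq with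
      | refl => exact Or.inl ⟨hrv, hD _ _ _ hjk⟩
      | @tail q q' _ h2 ih =>
        have hv : ∀ p, ExG nd₁ nd₂ R Far Near v p → R p = r := fun p hp => by
          rw [hr]
          exact hD2 _ _ _ hjk p hp
        rcases ih with ih | ⟨hdu, ih⟩
        · rcases h2 with h3 | h3 | ⟨y, h3⟩
          · exact Or.inl (ih.stg hSs hSr hNs hNr (ih.stg_of hNs h3))
          · exact Or.inl (hOne _ _ _ ih h3)
          · obtain ⟨hy, hR⟩ := hDr _ _ _ h3
            by_cases hyv : y = v
            · subst hyv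
              exact Or.inl ⟨by rw [← hR]; exact hy, hD _ _ _ (hDs _ _ _ h3)⟩
            by_cases hqr : R q = r
            · have hyu : y = u := by
                rw [hqr] at hy
                exact (huv y hy).resolve_left hyv
              subst hyu
              exact Or.inr ⟨⟨q, q', h3, hqr⟩, by rw [← hR]; exact hy, hD _ _ _ (hDs _ _ _ h3)⟩
            · exact Or.inl (key v y q q' hv ih h3 hyv hqr)
        · have hu' : ∀ p, ExG nd₁ nd₂ R Far Near u p → R p = r := fun p hp => by
            obtain ⟨a, b, h4, h5⟩ := hdu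
            rw [← h5]
            exact hD2 _ _ _ h4 p hp
          rcases h2 with h3 | h3 | ⟨y, h3⟩
          · exact Or.inr ⟨hdu, ih.stg hSs hSr hNs hNr (ih.stg_of hNs h3)⟩
          · exact Or.inr ⟨hdu, hOne _ _ _ ih h3⟩
          · obtain ⟨hy, hR⟩ := hDr _ _ _ h3
            by_cases hyu : y = u
            · subst hyu
              exact Or.inr ⟨hdu, by rw [← hR]; exact hy, hD _ _ _ (hDs _ _ _ h3)⟩
            by_cases hqr : R q = r
            · have hyv : y = v := by
                rw [hqr] at hy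
                exact (huv y hy).resolve_right hyu
              subst hyv
              exact Or.inl ⟨by rw [← hR]; exact hy, hD _ _ _ (hDs _ _ _ h3)⟩
            · exact Or.inr ⟨hdu, key u y q q' hu' ih h3 hyu hqr⟩
    intro q hq
    rcases h0 q ((hsym hij).trans hq) with h1 | ⟨-, h1⟩
    · exact Or.inl h1.1
    · exact Or.inr h1.1
  -- no degenerate tripod edges
  have hstep : ∀ {j}, Relation.ReflTransGen (AllG Same Far One Near Dt) i j → ∀ {k},
      AllG Same Far One Near Dt j k → C0G Same Far Near j k ∨ One j k := by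
    intro j hij k hjk
    rcases hjk with h1 | h1 | ⟨y, h1⟩
    · exact Or.inl h1
    · exact Or.inr h1
    · exact absurd ⟨j, y, k, hij, h1⟩ hdt
  by_cases ht : ∃ c, Relation.ReflTransGen (C0G Same Far Near) i c ∧ TouG Far Near c
  · left
    intro j hij
    induction hij with
    | refl => exact Relation.ReflTransGen.refl
    | @tail b c h1 h2 ih =>
      rcases hstep h1 h2 with h3 | h3
      · exact ih.tail h3
      · obtain ⟨c', h4, h5⟩ := ht
        exact ih.trans (hO _ _ h3 ⟨c', (c0_symm hSs hSr hNs hNr hFs ih).trans h4, h5⟩)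
  · right
    refine ⟨nd₁ (R i), nd₁ (R i), fun j hij => Or.inl ?_⟩
    have h1 : R j = R i ∧
        ∀ c, Relation.ReflTransGen (C0G Same Far Near) j c → ¬ TouG Far Near c := by
      induction hij with
      | refl => exact ⟨rfl, fun c hc hc' => ht ⟨c, hc, hc'⟩⟩
      | @tail b c h1 h2 ih =>
        rcases hstep h1 h2 with h3 | h3
        · have h4 := Relation.ReflTransGen.single h3
          refine ⟨(untouched hSs hSr hNs hNr ih.2 c h4).trans ih.1, fun d hd => ih.2 d (h4.trans hd)⟩
        · refine ⟨(hOr _ _ h3).symm.trans ih.1, fun d hd hd' => ?_⟩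
          have h4 := hO _ _ (hOs _ _ h3) ⟨d, hd, hd'⟩
          exact ih.2 d ((c0_symm hSs hSr hNs hNr hFs h4).trans hd) hd'
    rw [h1.1]
    exact Or.inl rfl

end

end TST
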