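import Pool.Agent.TST.OneQ

/-!
# Members of a one-place family (T-star, row R5; helper70)

`LabFam.one_ne`: if a member of the family `e'` is a member of the one-place family `e`, then `e'` splits
every label which `e` splits.
-/

set_option autoImplicit false

open Set

namespace TST

universe u v w

section

variable {α : Type u} {β : Type v} {ν : Type w} {rw : β → Set α} {V : Set β} {nd₁ nd₂ : β → ν}
  {S : α → α → α → Prop} {Dg Fr On Dt : Set α} {Nr : ν → Set α} {Tr : β → Set α}
  {Tu : ν → Set α} {Lv : ν → α → Set α} {Aw : β → α → Set α} {Au : ν → α → Fin 3 → Set α}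
  {B : α → α → α → α → Prop} {lg : ν → Fin 3 → β} {oe : ν → Fin 3 → ν} {fr : α → Bool → β}
  {r₀ : α → β} {ct : α → ν} {m K : ℕ} {R : ℕ → β} {C : ℕ → ℕ → α} {γ : Set ℕ}
  {w : ℕ → Finset ℕ → α} {ki kj kk : ℕ → ℕ}

/-- members of kind 4 -/
lemma LabFam.one_mem (hf : LabFam V nd₁ nd₂ S Dg Fr On Dt Nr Tr Lv Aw ct m K R C γ w ki kj kk)
    {e : ℕ} (he : e ∈ γ) (hk : kk e = 4) {Q : Finset ℕ} (hQ : Q ⊆ Finset.range K)
    (hc : Q.card = 4) : w e Q ∈ On := by
  obtain ⟨-, h1, -⟩ := hf.wit e he Q hQ hc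
  rcases h1 with h1 | h1 | h1 | h1 | h1 | h1 | h1
  · have := h1.1
    omega
  · have := h1.1
    omega
  · have := h1.1
    omega
  · have := h1.1
    omega
  · exact h1.2
  · have := h1.1
    omega
  · have := h1.1
    omega

/-- **A member of a one-place family as member of another family.** -/
theorem LabFam.one_ne (hf : LabFam V nd₁ nd₂ S Dg Fr On Dt Nr Tr Lv Aw ct m K R C γ w ki kj kk)
    (hK : 6 ≤ K) (hC : ∀ i < m, R i ∈ V → ∀ a < K, C i a ∈ rw (R i))
    (hinj : ∀ k < m, ∀ a < K, ∀ b < K, C k a = C k b → a = b)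
    (h : LabFacts3 rw V nd₁ nd₂ S Dg Fr On Dt Nr Tr Tu Lv Aw Au B lg oe fr r₀ ct)
    {e e' q a b : ℕ} (he : e ∈ γ) (hk : kk e = 4) (he' : e' ∈ γ)
    (hs : SplF V S m K R C w e q) (ha : a + 5 < K) (hb : b + 5 < K)
    (heq : w e' (Qs a) = w e (Qs b)) : SplF V S m K R C w e' q := by
  by_contra hno
  obtain ⟨i, j, hi, hj, hij⟩ := hf.splS hK hinj he hs
  have h1 := hij b hb
  have hq := hs.1.1
  have hqV := hs.1.2
  have g1 : C q (b + i) ∈ rw (R q) := hC q hq hqV _ (by omega)
  have g2 : C q (b + j) ∈ rw (R q) := hC q hq hqV _ (by omega)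
  have hOn : w e (Qs b) ∈ On := hf.one_mem he hk (Qs_sub hb) (Qs_card b)
  have hne : b + i ≠ b + j := by
    intro h2
    rw [h2] at h1
    exact h1 (Or.inl rfl)
  have hS : S (w e (Qs b)) (C q (b + i)) (C q (b + j)) := by
    by_contra h2
    exact h1 (Or.inr h2)
  have hsee : SeeR rw S (w e (Qs b)) (R q) := by
    refine ⟨_, g1, _, g2, ?_, hS⟩
    intro h2
    exact hne (hinj q hq _ (by omega) _ (by omega) h2)
  have hcl := h.one_cls _ hOn _ hqV hsee _ g1 _ g2
  rw [← heq] at h1 hS hcl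
  by_cases hsp : spos a (b + i) = spos a (b + j)
  · obtain ⟨v, hv⟩ := (hf.homS he' hq).1
    apply h1
    rw [hcl]
    have e1 := hv a ha (b + i) (by omega)
    have e2 := hv a ha (b + j) (by omega)
    rw [hsp] at e1
    exact e1.trans e2.symm
  · have l1 := spos_le a (b + i)
    have l2 := spos_le a (b + j)
    have h2 : S (w e' (Qs a)) (C q (a + spos a (b + i))) (C q (a + spos a (b + j))) := by
      refine (hf.homE2 he' hq ha ha (by omega) (by omega) (by omega) (by omega) ?_ ?_ ?_ ?_).1 hS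
      · rw [spos_add l1]
      · rw [spos_add l2]
      · unfold spos at hsp ⊢
        split_ifs at hsp ⊢ <;> omega
      · unfold spos at hsp ⊢
        split_ifs at hsp ⊢ <;> omega
    rcases hf.conS hinj he' hq hqV hno ha l1 l2 with h3 | h3
    · have h4 := hinj q hq _ (by omega) _ (by omega) h3
      exact hsp (by omega)
    · exact h3 h2

end

end TST
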