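import Pool.Agent.TST.OneDt
import Pool.Agent.TST.DtRow

/-!
# Tools for the one-place families (T-star, row R5; helper35)

`Qs s` = the four positions behind `s`.  `qloc (Qs s) (s + j)`, `j ≤ 5`, takes all values.
* `nest_side`: an exit which is nested with all members of a one-place family, and is constant on one
  label of this family, is constant on the other label, on the same side;
* `c0_last`: the last touched label of a path of far, near and same-row edges.
-/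

set_option autoImplicit false

open Set

namespace TST

universe u v w

/-- four consecutive positions -/
def Qs (s : ℕ) : Finset ℕ := Finset.Ioo s (s + 5)

lemma mem_Qs {s p : ℕ} : p ∈ Qs s ↔ s < p ∧ p < s + 5 := Finset.mem_Ioo

lemma Qs_card (s : ℕ) : (Qs s).card = 4 := by
  unfold Qs
  rw [Nat.card_Ioo]
  omega

lemma Qs_sub {s K : ℕ} (h : s + 5 < K) : Qs s ⊆ Finset.range K := by
  intro p hp
  rw [mem_Qs] at hp
  rw [Finset.mem_range]
  omega

lemma Qs_win (x : ℕ) : Qs (5 * x) = Qw x := by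
  ext p
  rw [mem_Qs, mem_Qw]

/-- the place relative to `Qs s` -/
lemma qloc_Qs (s p : ℕ) : qloc (Qs s) p =
    if p ≤ s then 0 else if s + 5 ≤ p then 8 else 2 * (p - s) - 1 := by
  classical
  have h1 : (Qs s).filter (fun y => y < p) = (Finset.Ioo s (min p (s + 5))) := by
    ext y
    rw [Finset.mem_filter, mem_Qs, Finset.mem_Ioo]
    omega
  have h2 : (Qs s).filter (fun y => y ≤ p) = (Finset.Ioo s (min (p + 1) (s + 5))) := by
    ext y
    rw [Finset.mem_filter, mem_Qs, Finset.mem_Ioo]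
    omega
  unfold qloc
  rw [h1, h2, Nat.card_Ioo, Nat.card_Ioo]
  split_ifs with h3 h4
  · omega
  · omega
  · omega

/-- the place of a position, as one of six -/
def spos (s p : ℕ) : ℕ := if p ≤ s then 0 else if s + 5 ≤ p then 5 else p - s

lemma spos_le (s p : ℕ) : spos s p ≤ 5 := by
  unfold spos
  split_ifs <;> omega

lemma spos_add {s j : ℕ} (hj : j ≤ 5) : spos s (s + j) = j := by
  unfold spos
  split_ifs <;> omega

lemma spos_sub {b j : ℕ} (hj : j ≤ 5) (hb : j ≤ b) : spos (b - j) b = j := by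
  unfold spos
  split_ifs <;> omega

lemma qloc_of_spos {s s' p p' : ℕ} (h : spos s p = spos s' p') :
    qloc (Qs s) p = qloc (Qs s') p' := by
  rw [qloc_Qs, qloc_Qs]
  unfold spos at h
  split_ifs at h ⊢ <;> omega

/-- the sets `P s` have a fixed pattern on the label `c` -/
def HomS {α : Type u} (K : ℕ) (c : ℕ → α) (P : ℕ → Set α) : Prop :=
  ∃ v : ℕ → Prop, ∀ s, s + 5 < K → ∀ p < K, (c p ∈ P s ↔ v (spos s p))

section

variable {α : Type u} {K lo hi : ℕ} {c c' : ℕ → α} {P : ℕ → Set α} {X A : Set α}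

/-- **An exit which is nested with all members of the one-place family**: `c'` is a label which is
constant for the exit, `c` another label of the family. -/
theorem nest_side (hc : HomS K c P) (hc' : HomS K c' P)
    (hs : ∃ s, s + 5 < K ∧ ∃ a ≤ 5, ∃ b ≤ 5, c (s + a) ∈ P s ∧ c (s + b) ∉ P s)
    (hs' : ∃ s, s + 5 < K ∧ ∃ a ≤ 5, ∃ b ≤ 5, c' (s + a) ∈ P s ∧ c' (s + b) ∉ P s)
    (hn : ∀ s, s + 5 < K → (∀ x ∈ X, x ∈ A → x ∈ P s) ∨ ∀ x ∈ X, x ∈ P s → x ∈ A)
    {b : ℕ} (hb : 5 ≤ b) (hbK : b + 5 < K) (hbX : c b ∈ X)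
    (hX : ∀ a, b ≤ a + 5 → a ≤ b + 5 → c' a ∈ X)
    (hcon : ∀ a, b ≤ a + 5 → a ≤ b + 5 → (c' a ∈ A ↔ c' b ∈ A)) : c b ∈ A ↔ c' b ∈ A := by
  obtain ⟨v, hv⟩ := hc
  obtain ⟨v', hv'⟩ := hc'
  obtain ⟨s₁, hs₁, i, hi5, j, hj5, h1, h2⟩ := hs
  obtain ⟨s₂, hs₂, i', hi5', j', hj5', h1', h2'⟩ := hs'
  rw [hv s₁ hs₁ _ (by omega), spos_add hi5] at h1
  rw [hv s₁ hs₁ _ (by omega), spos_add hj5] at h2
  rw [hv' s₂ hs₂ _ (by omega), spos_add hi5'] at h1'
  rw [hv' s₂ hs₂ _ (by omega), spos_add hj5'] at h2'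
  by_cases hA : c' b ∈ A
  · -- the members are inside of `A`
    refine ⟨fun _ => hA, fun _ => ?_⟩
    have hs0 : b - i + 5 < K := by omega
    have h3 : c b ∈ P (b - i) := by
      rw [hv _ hs0 _ (by omega), spos_sub hi5 (by omega)]
      exact h1
    have h4 : c' (b - i + j') ∉ P (b - i) := by
      rw [hv' _ hs0 _ (by omega), spos_add hj5']
      exact h2'
    rcases hn _ hs0 with h5 | h5
    · exact absurd (h5 _ (hX _ (by omega) (by omega)) ((hcon _ (by omega) (by omega)).2 hA)) h4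
    · exact h5 _ hbX h3
  · refine ⟨fun h0 => ?_, fun h0 => absurd h0 hA⟩
    exfalso
    have hs0 : b - j + 5 < K := by omega
    have h3 : c b ∉ P (b - j) := by
      rw [hv _ hs0 _ (by omega), spos_sub hj5 (by omega)]
      exact h2
    have h4 : c' (b - j + i') ∈ P (b - j) := by
      rw [hv' _ hs0 _ (by omega), spos_add hi5']
      exact h1'
    rcases hn _ hs0 with h5 | h5
    · exact h3 (h5 _ hbX h0)
    · exact hA ((hcon _ (by omega) (by omega)).1 (h5 _ (hX _ (by omega) (by omega)) h4))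

end

section graph

variable {ν : Type w} {Same Far : ℕ → ℕ → Prop} {Near : ν → ℕ → ℕ → Prop}

/-- **the last touched label** -/
theorem c0_last {q c : ℕ} (h : Relation.ReflTransGen (C0G Same Far Near) q c)
    (hc : TouG Far Near c) (hSs : ∀ i j, Same i j → Same j i) :
    ∃ l, TouG Far Near l ∧ Relation.ReflTransGen Same l q := by
  induction h using Relation.ReflTransGen.head_induction_on with
  | refl => exact ⟨c, hc, Relation.ReflTransGen.refl⟩
  | @head a b hab _ ih =>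
    rcases hab with h1 | ⟨y, h1⟩ | h1
    · obtain ⟨l, h2, h3⟩ := ih
      exact ⟨l, h2, h3.tail (hSs _ _ h1)⟩
    · exact ⟨a, Or.inr ⟨y, b, h1⟩, Relation.ReflTransGen.refl⟩
    · exact ⟨a, Or.inl ⟨b, h1⟩, Relation.ReflTransGen.refl⟩

end graph

/-! ### the families -/

section

variable {α : Type u} {β : Type v} {ν : Type w} {rw : β → Set α} {V : Set β} {nd₁ nd₂ : β → ν}
  {S : α → α → α → Prop} {Dg Fr On Dt : Set α} {Nr : ν → Set α} {Tr : β → Set α}
  {Tu : ν → Set α} {Lv : ν → α → Set α} {Aw : β → α → Set α} {Au : ν → α → Fin 3 → Set α}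
  {B : α → α → α → α → Prop} {lg : ν → Fin 3 → β} {oe : ν → Fin 3 → ν} {fr : α → Bool → β}
  {r₀ : α → β} {ct : α → ν} {m K : ℕ} {R : ℕ → β} {C : ℕ → ℕ → α} {γ : Set ℕ}
  {w : ℕ → Finset ℕ → α} {ki kj kk : ℕ → ℕ}

lemma homS_of {c : ℕ → α} {P : ℕ → Set α}
    (h : ∀ s, s + 5 < K → ∀ s', s' + 5 < K → ∀ p < K, ∀ p' < K, spos s p = spos s' p' →
      (c p ∈ P s ↔ c p' ∈ P s')) : HomS K c P := by
  refine ⟨fun t => ∃ s, s + 5 < K ∧ ∃ p < K, spos s p = t ∧ c p ∈ P s, ?_⟩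
  intro s hs p hp
  refine ⟨fun h1 => ⟨s, hs, p, hp, rfl, h1⟩, ?_⟩
  rintro ⟨s', hs', p', hp', h1, h2⟩
  exact (h s' hs' s hs p' hp' p hp h1).1 h2

/-- **homogeneous memberships** -/
theorem LabFam.homS (hf : LabFam V nd₁ nd₂ S Dg Fr On Dt Nr Tr Lv Aw ct m K R C γ w ki kj kk)
    {e k : ℕ} (he : e ∈ γ) (hk : k < m) : HomS K (C k) (fun s => Aw (R k) (w e (Qs s))) ∧
      HomS K (C k) (fun s => Lv (nd₁ (R k)) (w e (Qs s))) ∧
      HomS K (C k) (fun s => Lv (nd₂ (R k)) (w e (Qs s))) := by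
  have key : ∀ s, s + 5 < K → ∀ s', s' + 5 < K → ∀ p < K, ∀ p' < K, spos s p = spos s' p' → _ :=
    fun s hs s' hs' p hp p' hp' h1 => hf.homA e he k hk (Qs s) (Qs_sub hs) (Qs_card s) (Qs s')
      (Qs_sub hs') (Qs_card s') p hp p' hp' (qloc_of_spos h1)
  exact ⟨homS_of fun s hs s' hs' p hp p' hp' h1 => (key s hs s' hs' p hp p' hp' h1).1,
    homS_of fun s hs s' hs' p hp p' hp' h1 => (key s hs s' hs' p hp p' hp' h1).2.1,
    homS_of fun s hs s' hs' p hp p' hp' h1 => (key s hs s' hs' p hp p' hp' h1).2.2⟩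

/-- **homogeneous separations** -/
theorem LabFam.homE2 (hf : LabFam V nd₁ nd₂ S Dg Fr On Dt Nr Tr Lv Aw ct m K R C γ w ki kj kk)
    {e k : ℕ} (he : e ∈ γ) (hk : k < m) {s s' p q p' q' : ℕ} (hs : s + 5 < K) (hs' : s' + 5 < K)
    (hp : p < K) (hq : q < K) (hp' : p' < K) (hq' : q' < K) (h1 : spos s p = spos s' p')
    (h2 : spos s q = spos s' q') (h3 : p < q ↔ p' < q') (h4 : q < p ↔ q' < p') :
    S (w e (Qs s)) (C k p) (C k q) ↔ S (w e (Qs s')) (C k p') (C k q') :=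
  hf.hom e he k hk (Qs s) (Qs_sub hs) (Qs_card s) (Qs s') (Qs_sub hs') (Qs_card s') p hp q hq p' hp'
    q' hq' (qloc_of_spos h1) (qloc_of_spos h2) h3 h4

/-- a family which splits a label, at `Qs s` -/
theorem LabFam.splS (hf : LabFam V nd₁ nd₂ S Dg Fr On Dt Nr Tr Lv Aw ct m K R C γ w ki kj kk)
    (hK : 6 ≤ K) (hinj : ∀ k < m, ∀ a < K, ∀ b < K, C k a = C k b → a = b) {e k : ℕ} (he : e ∈ γ)
    (hs : SplF V S m K R C w e k) : ∃ i j : ℕ, i ≤ 5 ∧ j ≤ 5 ∧ ∀ s, s + 5 < K →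
      ¬ ES S (w e (Qs s)) (C k (s + i)) (C k (s + j)) := by
  obtain ⟨p, q, hp1, hp2, hq1, hq2, hpq⟩ := hs.2 0 (by omega)
  refine ⟨p, q, by omega, by omega, fun s hs' => ?_⟩
  have h1 : S (w e (Qs 0)) (C k p) (C k q) := by
    have h2 : Qs 0 = Qw 0 := Qs_win 0
    rw [h2]
    by_contra h3
    exact hpq (Or.inr h3)
  have hne : p ≠ q := by
    rintro rfl
    exact hpq (Or.inl rfl)
  rintro (h2 | h2)
  · have h3 := hinj k hs.1.1 _ (by omega) _ (by omega) h2
    omega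
  · refine h2 ((hf.homE2 he hs.1.1 (by omega) hs' (by omega) (by omega) (by omega) (by omega)
      ?_ ?_ ?_ ?_).1 h1)
    · rw [spos_add (by omega)]
      unfold spos
      split_ifs <;> omega
    · rw [spos_add (by omega)]
      unfold spos
      split_ifs <;> omega
    · omega
    · omega

/-- a family which does not split a label is constant on six consecutive positions -/
theorem LabFam.conS (hf : LabFam V nd₁ nd₂ S Dg Fr On Dt Nr Tr Lv Aw ct m K R C γ w ki kj kk)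
    (hinj : ∀ k < m, ∀ a < K, ∀ b < K, C k a = C k b → a = b) {e k : ℕ} (he : e ∈ γ) (hk : k < m) (hkV : R k ∈ V) (hs : ¬ SplF V S m K R C w e k) {s : ℕ}
    (hsK : s + 5 < K) {i j : ℕ} (hi : i ≤ 5) (hj : j ≤ 5) :
    ES S (w e (Qs s)) (C k (s + i)) (C k (s + j)) := by
  have h1 : ∃ x, 5 * x + 5 < K ∧ ¬ SeeW (ES S) C (w e (Qw x)) k x := by
    by_contra hcon
    push Not at hcon
    exact hs ⟨⟨hk, hkV⟩, fun x hx => hcon x hx⟩
  obtain ⟨x, hx, hno⟩ := h1
  by_cases hij : i = j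
  · subst hij
    exact Or.inl rfl
  right
  intro h2
  refine hno ⟨5 * x + i, 5 * x + j, by omega, by omega, by omega, by omega, ?_⟩
  have h3 : S (w e (Qs (5 * x))) (C k (5 * x + i)) (C k (5 * x + j)) := by
    refine (hf.homE2 he hk hsK hx (by omega) (by omega) (by omega) (by omega) ?_ ?_ ?_ ?_).1 h2
    · rw [spos_add hi, spos_add hi]
    · rw [spos_add hj, spos_add hj]
    · omega
    · omega
  rw [Qs_win] at h3
  rintro (h4 | h4)
  · have h5 := hinj k hk _ (by omega) _ (by omega) h4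
    omega
  · exact h4 h3

end

end TST
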