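import Pool.Agent.TST.Reord

/-!
# Row B3 (part 3): nested cuts of a row give one order of its elements

`A i` is the set of the elements of the row on the near side of the node of the element `i`.
-/

open Set BIC BICS
open scoped Matroid

namespace TST

variable {α ι : Type*}

/-- A chain of sets: some order of the list makes every member of the chain an initial part. -/
theorem chain_order (l : List α) (𝒞 : Set (Set α))
    (hc : ∀ C ∈ 𝒞, ∀ C' ∈ 𝒞, C ⊆ C' ∨ C' ⊆ C) :
    ∃ l' : List α, l'.Perm l ∧ ∀ C ∈ 𝒞, ∃ l₁ l₂, l' = l₁ ++ l₂ ∧ (∀ x ∈ l₁, x ∈ C) ∧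
      ∀ x ∈ l₂, x ∉ C := by
  classical
  let r : α → α → Prop := fun x y => ∀ C ∈ 𝒞, y ∈ C → x ∈ C
  have htot : Std.Total r := ⟨by
    intro x y
    by_contra hcon
    push Not at hcon
    obtain ⟨h1, h2⟩ := hcon
    simp only [r, not_forall] at h1 h2
    obtain ⟨C, hC, hy, hx⟩ := h1
    obtain ⟨C', hC', hx', hy'⟩ := h2
    rcases hc C hC C' hC' with h | h
    · exact hy' (h hy)
    · exact hx (h hx')⟩
  have htr : IsTrans α r := ⟨fun x y z h1 h2 C hC hz => h1 C hC (h2 C hC hz)⟩
  refine ⟨l.insertionSort r, List.perm_insertionSort r l, ?_⟩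
  intro C hC
  have hs : (l.insertionSort r).Pairwise r := List.pairwise_insertionSort r l
  generalize l.insertionSort r = l' at hs
  induction l' with
  | nil => exact ⟨[], [], rfl, by simp, by simp⟩
  | cons a l' ih =>
    rw [List.pairwise_cons] at hs
    by_cases ha : a ∈ C
    · obtain ⟨l₁, l₂, h1, h2, h3⟩ := ih hs.2
      refine ⟨a :: l₁, l₂, by rw [h1]; rfl, ?_, h3⟩
      intro x hx
      rcases List.mem_cons.1 hx with rfl | hx
      · exact ha
      · exact h2 x hx
    · refine ⟨[], a :: l', rfl, by simp, ?_⟩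
      intro x hx
      rcases List.mem_cons.1 hx with rfl | hx
      · exact ha
      · exact fun h => ha (hs.1 x hx C hC h)

/-- `A i` and `A j` cross (as oriented cuts). -/
def Crs (A : ι → Set α) (i j : ι) : Prop := ¬ A i ⊆ A j ∧ ¬ A j ⊆ A i

lemma Crs.symm {A : ι → Set α} {i j : ι} (h : Crs A i j) : Crs A j i := ⟨h.2, h.1⟩

/-- the crossing components -/
def Cmp (A : ι → Set α) : ι → ι → Prop := Relation.ReflTransGen (Crs A)

lemma Cmp.symm {A : ι → Set α} {i j : ι} (h : Cmp A i j) : Cmp A j i := by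
  induction h with
  | refl => exact Relation.ReflTransGen.refl
  | tail _ h2 ih => exact Relation.ReflTransGen.head h2.symm ih

/-- the intersection of a component -/
def AI (A : ι → Set α) (i : ι) : Set α := {x | ∀ j, Cmp A i j → x ∈ A j}

/-- the union of a component -/
def AU (A : ι → Set α) (i : ι) : Set α := {x | ∃ j, Cmp A i j ∧ x ∈ A j}

lemma AI_sub (A : ι → Set α) (i : ι) : AI A i ⊆ A i := fun _ h => h i Relation.ReflTransGen.refl

lemma sub_AU (A : ι → Set α) (i : ι) : A i ⊆ AU A i := fun _ h =>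
  ⟨i, Relation.ReflTransGen.refl, h⟩

lemma AI_eq {A : ι → Set α} {i j : ι} (h : Cmp A i j) : AI A i = AI A j := by
  ext x
  exact ⟨fun hx k hk => hx k (h.trans hk), fun hx k hk => hx k (h.symm.trans hk)⟩

lemma AU_eq {A : ι → Set α} {i j : ι} (h : Cmp A i j) : AU A i = AU A j := by
  ext x
  exact ⟨fun ⟨k, hk, hx⟩ => ⟨k, h.symm.trans hk, hx⟩, fun ⟨k, hk, hx⟩ => ⟨k, h.trans hk, hx⟩⟩

/-- a cut which crosses nothing is its own component -/
lemma single {A : ι → Set α} {i : ι} (h : ∀ j, ¬ Crs A i j) : AI A i = A i ∧ AU A i = A i := by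
  have h1 : ∀ j, Cmp A i j → j = i := by
    intro j hj
    induction hj with
    | refl => rfl
    | tail _ h2 ih =>
      subst ih
      exact absurd h2 (h _)
  constructor
  · refine subset_antisymm (AI_sub A i) fun x hx j hj => ?_
    rw [h1 j hj]; exact hx
  · refine subset_antisymm ?_ (sub_AU A i)
    rintro x ⟨j, hj, hx⟩
    rw [← h1 j hj]; exact hx

/-- a cut outside of a component lies on one side of the whole component -/
lemma side {A : ι → Set α} {i j : ι} (h : ¬ Cmp A i j) :
    (∀ k, Cmp A j k → A i ⊆ A k) ∨ (∀ k, Cmp A j k → A k ⊆ A i) := by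
  have hnc : ∀ k, Cmp A j k → A i ⊆ A k ∨ A k ⊆ A i := by
    intro k hk
    by_contra hcon
    push Not at hcon
    have h1 : Crs A i k := hcon
    exact h ((Relation.ReflTransGen.single h1).trans hk.symm)
  rcases hnc j Relation.ReflTransGen.refl with h0 | h0
  · left
    intro k hk
    induction hk with
    | refl => exact h0
    | tail h1 h2 ih =>
      rcases hnc _ (h1.tail h2) with h3 | h3
      · exact h3
      · exact absurd (h3.trans ih) h2.2
  · right
    intro k hk
    induction hk with
    | refl => exact h0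
    | tail h1 h2 ih =>
      rcases hnc _ (h1.tail h2) with h3 | h3
      · exact absurd (ih.trans h3) h2.1
      · exact h3

/-- a component whose member is comparable to all members is a single cut -/
lemma only {A : ι → Set α} {i : ι} (h : (∀ k, Cmp A i k → A i ⊆ A k) ∨ ∀ k, Cmp A i k → A k ⊆ A i) :
    ∀ k, Cmp A i k → k = i := by
  intro k hk
  rcases Relation.ReflTransGen.cases_head hk with h1 | ⟨c, h1, _⟩
  · exact h1.symm
  · rcases h with h | h
    · exact absurd (h c (Relation.ReflTransGen.single h1)) h1.1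
    · exact absurd (h c (Relation.ReflTransGen.single h1)) h1.2

/-- **different components are nested** -/
theorem comp_nested {A : ι → Set α} {i j : ι} (h : ¬ Cmp A i j) :
    AU A i ⊆ AI A j ∨ AU A j ⊆ AI A i := by
  have hk : ∀ k, Cmp A j k → ¬ Cmp A k i := fun k hk h1 => h (Cmp.symm (hk.trans h1))
  have key : (∀ i', Cmp A i i' → ∀ k, Cmp A j k → A i' ⊆ A k) ∨
      (∀ i', Cmp A i i' → ∀ k, Cmp A j k → A k ⊆ A i') := by
    rcases side h with h1 | h1
    · left
      by_contra hcon
      push Not at hcon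
      obtain ⟨i', hi', k, hk', hn⟩ := hcon
      rcases side (hk k hk') with h2 | h2
      · have h3 := only (A := A) (i := i) (Or.inl fun c hc => (h1 k hk').trans (h2 c hc)) i' hi'
        rw [h3] at hn
        exact hn (h1 k hk')
      · exact hn (h2 i' hi')
    · right
      by_contra hcon
      push Not at hcon
      obtain ⟨i', hi', k, hk', hn⟩ := hcon
      rcases side (hk k hk') with h2 | h2
      · exact hn (h2 i' hi')
      · have h3 := only (A := A) (i := i) (Or.inr fun c hc => (h2 c hc).trans (h1 k hk')) i' hi'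
        rw [h3] at hn
        exact hn (h1 k hk')
  rcases key with h1 | h1
  · left
    rintro x ⟨i', hi', hx⟩ k hk'
    exact h1 i' hi' k hk' hx
  · right
    rintro x ⟨k, hk', hx⟩ i' hi'
    exact h1 i' hi' k hk' hx

/-- **ORDER.**  There is an order of the row in which for every crossing component the
intersection and the union are initial parts; a cut which crosses no other cut is an initial
part. -/
theorem cuts_order (l : List α) (A : ι → Set α) :
    ∃ l' : List α, l'.Perm l ∧ ∀ i, ∃ l₀ l₁ l₂, l' = l₀ ++ l₁ ++ l₂ ∧ (∀ x ∈ l₀, x ∈ AI A i) ∧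
      (∀ x ∈ l₁, x ∈ AU A i ∧ x ∉ AI A i) ∧ (∀ x ∈ l₂, x ∉ AU A i) ∧
      ((∀ j, ¬ Crs A i j) → l₁ = []) := by
  classical
  obtain ⟨l', h1, h2⟩ := chain_order l {C | ∃ i, C = AI A i ∨ C = AU A i} (by
    have hIU : ∀ i, AI A i ⊆ AU A i := fun i => (AI_sub A i).trans (sub_AU A i)
    rintro C ⟨i, hC⟩ C' ⟨j, hC'⟩
    by_cases hij : Cmp A i j
    · have e1 := AI_eq hij
      have e2 := AU_eq hij
      have e3 := hIU j
      rcases hC with rfl | rfl <;> rcases hC' with rfl | rfl
      · rw [e1]; exact Or.inl subset_rfl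
      · rw [e1]; exact Or.inl e3
      · rw [e2]; exact Or.inr e3
      · rw [e2]; exact Or.inl subset_rfl
    · have g1 := hIU i
      have g2 := hIU j
      rcases comp_nested hij with h | h
      · left
        rcases hC with rfl | rfl <;> rcases hC' with rfl | rfl
        · exact g1.trans h
        · exact (g1.trans h).trans g2
        · exact h
        · exact h.trans g2
      · right
        rcases hC with rfl | rfl <;> rcases hC' with rfl | rfl
        · exact g2.trans h
        · exact h
        · exact (g2.trans h).trans g1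
        · exact h.trans g1)
  refine ⟨l', h1, fun i => ?_⟩
  obtain ⟨a1, a2, ha, ha1, ha2⟩ := h2 (AI A i) ⟨i, Or.inl rfl⟩
  obtain ⟨b1, b2, hb, hb1, hb2⟩ := h2 (AU A i) ⟨i, Or.inr rfl⟩
  have hIU : AI A i ⊆ AU A i := (AI_sub A i).trans (sub_AU A i)
  have hle : a1 <+: b1 := by
    rcases List.append_eq_append_iff.1 (ha.symm.trans hb) with ⟨c, h3, h4⟩ | ⟨c, h3, h4⟩
    · exact ⟨c, h3.symm⟩
    · -- `a1 = b1 ++ c`, `b2 = c ++ a2`
      rcases c with _ | ⟨x, c⟩
      · rw [List.append_nil] at h3
        rw [h3]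
      · exact absurd (hIU (ha1 x (by rw [h3]; simp))) (hb2 x (by rw [h4]; simp))
  obtain ⟨c, hc⟩ := hle
  have hab : a2 = c ++ b2 := by
    have h3 := ha.symm.trans hb
    rw [← hc, List.append_assoc] at h3
    exact List.append_cancel_left h3
  refine ⟨a1, c, b2, by rw [hb, ← hc], ha1, ?_, hb2, ?_⟩
  · intro x hx
    exact ⟨hb1 x (by rw [← hc]; simp [hx]), ha2 x (by rw [hab]; simp [hx])⟩
  · intro hn
    obtain ⟨e1, e2⟩ := single hn
    rcases c with _ | ⟨x, c⟩
    · rfl
    · exfalso
      have h3 : x ∈ AU A i := hb1 x (by rw [← hc]; simp)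
      have h4 : x ∉ AI A i := ha2 x (by rw [hab]; simp)
      rw [e1] at h4
      rw [e2] at h3
      exact h4 h3

end TST
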