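import Pool.Agent.TST.WallRow

/-!
# The brick wall with missing rows (row B7 of T-star, helper14)

`wall_robust_miss`: after deletion of `c` edges and of the edges `Mi`, one component contains all but
`6 (c + 1) ^ 2` of the vertices which are far from `Mi`; the bound does not depend on `Mi`.
-/

open Set Relation
open scoped Matroid

namespace TST

open BIC Gad EN BICS Mdl EN.Wall

section

variable {n : ℕ}

/-- `x` and `y` are far in one of the coordinates -/
def FarV (R : ℕ) (x y : WV n) : Prop :=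
  x.1.val + R < y.1.val ∨ y.1.val + R < x.1.val ∨ x.2.val + R < y.2.val ∨ y.2.val + R < x.2.val

lemma wl_step {a b : WV n} (h : (Wl n).Adj a b) :
    (b.1.val ≤ a.1.val + 1 ∧ b.2.val ≤ a.2.val + 1) := by
  have h0 : Iso.WAdj (vl a) (vl b) := h
  unfold Iso.WAdj vl at h0
  dsimp only at h0
  omega

/-- a connected set is as large as its projections -/
lemma proj_card {D : Finset (WV n)} {E : Finset (Sym2 (WV n))} (g : WV n → ℕ)
    (hg : ∀ a b, (Wl n).Adj a b → g b ≤ g a + 1) {x : WV n}
    (hD : ∀ y, y ∈ D ↔ ReflTransGen (Ce E) x y) {z : WV n} (hz : z ∈ D) : g z < g x + D.card := by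
  classical
  have key : ∀ v, g x ≤ v → v ≤ g z → ∃ y ∈ D, g y = v := by
    have h1 := (hD z).1 hz
    clear hz
    induction h1 with
    | refl =>
      intro v h2 h3
      exact ⟨x, (hD x).2 ReflTransGen.refl, by omega⟩
    | @tail b z h4 h5 ih =>
      intro v h2 h3
      have h6 := hg b z h5.1
      by_cases h7 : v ≤ g b
      · exact ih v h2 h7
      · exact ⟨z, (hD z).2 (h4.tail h5), by omega⟩
  by_contra hcon
  have h1 : Finset.Icc (g x) (g z) ⊆ D.image g := by
    intro v hv
    obtain ⟨h2, h3⟩ := Finset.mem_Icc.1 hv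
    obtain ⟨y, hy, h4⟩ := key v h2 h3
    exact Finset.mem_image.2 ⟨y, hy, h4⟩
  have h2 := (Finset.card_le_card h1).trans Finset.card_image_le
  rw [Nat.card_Icc] at h2
  omega

open Classical in
/-- **The wall without a few edges and with missing edges.** -/
theorem wall_robust_miss (c : ℕ) {n : ℕ} (hn : 1 ≤ n) (E Mi : Finset (Sym2 (WV n)))
    (hE : E.card ≤ c) : ∃ Y : Finset (WV n), Y.Nonempty ∧
      (∀ x ∈ Y, ∀ y ∈ Y, ReflTransGen (fun a b => a ∈ Y ∧ b ∈ Y ∧ (Wl n).Adj a b ∧
        s(a, b) ∉ E ∪ Mi) x y) ∧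
      {x | x ∉ Y ∧ ∀ e ∈ Mi, ∀ y ∈ e, FarV (6 * (c + Mi.card + 1) ^ 2) x y}.ncard ≤
        6 * (c + 1) ^ 2 := by
  set R := 6 * (c + Mi.card + 1) ^ 2 with hR
  obtain ⟨Y₀, ⟨x₀, hx₀⟩, h2, h3⟩ := wall_robust (c + Mi.card) hn (E ∪ Mi)
    ((Finset.card_union_le _ _).trans (by omega))
  set cl : WV n → Finset (WV n) := fun x =>
    Finset.univ.filter fun y => ReflTransGen (Ce (E ∪ Mi)) x y with hcl
  have hmem : ∀ x y, y ∈ cl x ↔ ReflTransGen (Ce (E ∪ Mi)) x y := by
    intro x y
    rw [hcl]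
    simp
  have hconn : ∀ x, ∀ y ∈ cl x, ReflTransGen
      (fun a b => a ∈ cl x ∧ b ∈ cl x ∧ (Wl n).Adj a b ∧ s(a, b) ∉ E ∪ Mi) x y := by
    intro x y hy
    have h1 := (hmem x y).1 hy
    clear hy
    induction h1 with
    | refl => exact ReflTransGen.refl
    | tail h2 h3 ih => exact ih.tail ⟨(hmem _ _).2 h2, (hmem _ _).2 (h2.tail h3), h3⟩
  have hconn' : ∀ x, ∀ y ∈ cl x, ReflTransGen
      (fun a b => a ∈ cl x ∧ b ∈ cl x ∧ (Wl n).Adj a b ∧ s(a, b) ∉ E ∪ Mi) y x := by
    intro x y hy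
    have h1 := hconn x y hy
    clear hy
    induction h1 with
    | refl => exact ReflTransGen.refl
    | tail _ h3 ih =>
      refine ReflTransGen.head ⟨h3.2.1, h3.1, h3.2.2.1.symm, ?_⟩ ih
      rw [Sym2.eq_swap]
      exact h3.2.2.2
  set Y := cl x₀ with hY
  have hY0 : Y₀ ⊆ Y := by
    intro y hy
    rw [hY, hmem]
    have h1 := h2 x₀ hx₀ y hy
    clear hy
    induction h1 with
    | refl => exact ReflTransGen.refl
    | tail _ h4 ih => exact ih.tail ⟨h4.2.2.1, h4.2.2.2⟩
  have hYc : Yᶜ.card ≤ R := (Finset.card_le_card (Finset.compl_subset_compl.2 hY0)).trans h3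
  refine ⟨Y, ⟨x₀, hY0 hx₀⟩, fun y hy z hz => (hconn' x₀ y hy).trans (hconn x₀ z hz), ?_⟩
  set T : Set (WV n) := {x | x ∉ Y ∧ ∀ e ∈ Mi, ∀ y ∈ e, FarV R x y} with hT
  set A : Finset (WV n) := Yᶜ.filter fun x => ∀ z, ReflTransGen (Ce (E ∪ Mi)) x z →
    ∀ e ∈ Mi, z ∉ e with hA
  have hAY : A ⊆ Yᶜ := Finset.filter_subset _ _
  -- far vertices are in components which do not touch the missing edges
  have hTA : T ⊆ ↑A := by
    rintro x ⟨hx, hfar⟩
    rw [Finset.mem_coe, hA, Finset.mem_filter, Finset.mem_compl]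
    refine ⟨hx, fun z hz e he hze => ?_⟩
    have hDY : cl x ⊆ Yᶜ := by
      intro y hy
      rw [Finset.mem_compl]
      intro hyY
      refine hx ?_
      rw [hY, hmem]
      exact ((hmem _ _).1 hyY).trans (ce_symm ((hmem _ _).1 hy))
    have hDc : (cl x).card ≤ R := (Finset.card_le_card hDY).trans hYc
    have hzD : z ∈ cl x := (hmem x z).2 hz
    have hclz : cl z = cl x := by
      ext y
      rw [hmem, hmem]
      exact ⟨fun h => hz.trans h, fun h => (ce_symm hz).trans h⟩
    have hxz : x ∈ cl z := (hmem z x).2 (ce_symm hz)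
    have a1 := proj_card (fun a => a.1.val) (fun a b h => (wl_step h).1) (hmem x) hzD
    have a2 := proj_card (fun a => a.2.val) (fun a b h => (wl_step h).2) (hmem x) hzD
    have a3 := proj_card (fun a => a.1.val) (fun a b h => (wl_step h).1) (hmem z) hxz
    have a4 := proj_card (fun a => a.2.val) (fun a b h => (wl_step h).2) (hmem z) hxz
    rw [hclz] at a3 a4
    have h5 := hfar e he z hze
    unfold FarV at h5
    omega
  have hclosed : ∀ a b, Ce E a b → a ∈ A → b ∈ A := by
    intro a b hab ha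
    rw [hA, Finset.mem_filter, Finset.mem_compl] at ha ⊢
    have h4 : Ce (E ∪ Mi) a b := by
      refine ⟨hab.1, fun h5 => ?_⟩
      rcases Finset.mem_union.1 h5 with h5 | h5
      · exact hab.2 h5
      · exact ha.2 a ReflTransGen.refl _ h5 (Sym2.mem_mk_left _ _)
    refine ⟨fun hb => ha.1 ?_, fun z hz => ha.2 z (ReflTransGen.head h4 hz)⟩
    rw [hY, hmem]
    exact ((hmem _ _).1 hb).tail h4.symm
  have hTc : T.ncard ≤ A.card := by
    rw [← ncard_coe_finset]
    exact ncard_le_ncard hTA (Finset.finite_toSet _)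
  have hEc : 2 * (E.card + 1) ^ 2 ≤ 2 * (c + 1) ^ 2 := by gcongr
  rcases closed_small hclosed with h4 | h4
  · omega
  · rcases T.eq_empty_or_nonempty with h5 | ⟨x, hx⟩
    · rw [h5, ncard_empty]
      exact Nat.zero_le _
    rcases Mi.eq_empty_or_nonempty with h6 | ⟨e, he⟩
    · have h7 : R = 6 * (c + 1) ^ 2 := by
        rw [hR, h6, Finset.card_empty, Nat.add_zero]
      have := Finset.card_le_card hAY
      omega
    · exfalso
      obtain ⟨y, hy⟩ : ∃ y, y ∈ e := by
        induction e using Sym2.ind with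
        | _ a b => exact ⟨a, Sym2.mem_mk_left _ _⟩
      have h7 := hx.2 e he y hy
      have h8 : R + 1 < 2 * n := by
        unfold FarV at h7
        have b1 := x.1.2
        have b2 := x.2.2
        have b3 := y.1.2
        have b4 := y.2.2
        omega
      have h9 := Finset.card_add_card_compl A
      have h10 : Fintype.card (WV n) = (2 * n) * (2 * n) := by
        rw [Fintype.card_prod, Fintype.card_fin]
      have h11 := Finset.card_le_card hAY
      have h12 : 2 * (c + 1) ^ 2 ≤ R := by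
        have : (c + 1) ^ 2 ≤ (c + Mi.card + 1) ^ 2 := Nat.pow_le_pow_left (by omega) 2
        omega
      have h13 : (R + 2) * (R + 2) ≤ (2 * n) * (2 * n) := Nat.mul_le_mul h8 h8
      have h14 : (R + 2) * (R + 2) = R * R + 4 * R + 4 := by ring
      have h15 : 0 ≤ R * R := Nat.zero_le _
      omega

/-- vertices which are far from the missing rows -/
def Xg (R : ℕ) (Miss : Finset (SegR n)) : Set (WV n) :=
  {x | ∀ r ∈ Miss, FarV R x (segHd r) ∧ FarV R x (segTl r)}

/-- **`hwall'`**: `Bd` few bad rows, `Miss` missing rows. -/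
theorem seg_hwall_miss (c : ℕ) (hn : 1 ≤ n) (len : SegR n → ℕ) (Miss Bd : Finset (SegR n))
    (hBd : Bd.card ≤ c) : ∃ Y : Finset (WV n), Y.Nonempty ∧
      (∀ x ∈ Y, ∀ y ∈ Y, ReflTransGen (fun a b => a ∈ Y ∧ b ∈ Y ∧ ∃ r, r ∉ Bd ∧ r ∉ Miss ∧
        (((segRW n len).hd r = a ∧ (segRW n len).tl r = b) ∨
        ((segRW n len).hd r = b ∧ (segRW n len).tl r = a))) x y) ∧
      {x | x ∉ Y ∧ x ∈ Xg (6 * (c + Miss.card + 1) ^ 2) Miss}.ncard ≤ 6 * (c + 1) ^ 2 := by
  classical
  obtain ⟨Y, h1, h2, h3⟩ := wall_robust_miss c hn (Bd.image fun r => s(segHd r, segTl r))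
    (Miss.image fun r => s(segHd r, segTl r)) (Finset.card_image_le.trans hBd)
  refine ⟨Y, h1, ?_, ?_⟩
  · intro x hx y hy
    have h4 := h2 x hx y hy
    clear hy
    induction h4 with
    | refl => exact ReflTransGen.refl
    | @tail a b _ h5 ih =>
      obtain ⟨g1, g2, g3, g4⟩ := h5
      obtain ⟨r, hr⟩ := exists_seg g3
      have g5 : s(segHd r, segTl r) = s(a, b) := by
        rcases hr with ⟨h6, h7⟩ | ⟨h6, h7⟩
        · rw [h6, h7]
        · rw [h6, h7, Sym2.eq_swap]
      refine ih.tail ⟨g1, g2, r, fun hrB => g4 (Finset.mem_union_left _ ?_),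
        fun hrM => g4 (Finset.mem_union_right _ ?_), hr⟩
      · exact Finset.mem_image.2 ⟨r, hrB, g5⟩
      · exact Finset.mem_image.2 ⟨r, hrM, g5⟩
  · refine (ncard_le_ncard ?_ (Set.toFinite _)).trans h3
    rintro x ⟨hx, hxg⟩
    refine ⟨hx, fun e he y hy => ?_⟩
    obtain ⟨r, hr, rfl⟩ := Finset.mem_image.1 he
    have hle : 6 * (c + (Miss.image fun r => s(segHd r, segTl r)).card + 1) ^ 2 ≤
        6 * (c + Miss.card + 1) ^ 2 := by
      have : (Miss.image fun r => s(segHd r, segTl r)).card ≤ Miss.card := Finset.card_image_le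
      gcongr
    have key : ∀ y : WV n, FarV (6 * (c + Miss.card + 1) ^ 2) x y →
        FarV (6 * (c + (Miss.image fun r => s(segHd r, segTl r)).card + 1) ^ 2) x y := by
      intro y h
      unfold FarV at h ⊢
      omega
    rcases Sym2.mem_iff.1 hy with rfl | rfl
    · exact key _ (hxg r hr).1
    · exact key _ (hxg r hr).2

/-- few vertices are near the missing rows -/
theorem ncard_not_Xg (R : ℕ) (Miss : Finset (SegR n)) :
    {x : WV n | x ∉ Xg R Miss}.ncard ≤ Miss.card * (2 * (2 * R + 1) ^ 2) := by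
  classical
  have hball : ∀ y : WV n, {x : WV n | ¬ FarV R x y}.ncard ≤ (2 * R + 1) ^ 2 := by
    intro y
    have h1 : ((Finset.range (2 * R + 1)) ×ˢ (Finset.range (2 * R + 1))).card =
        (2 * R + 1) ^ 2 := by
      rw [Finset.card_product, Finset.card_range]
      ring
    rw [← h1, ← ncard_coe_finset]
    refine ncard_le_ncard_of_injOn (fun x => (x.1.val + R - y.1.val, x.2.val + R - y.2.val)) ?_ ?_
      (Finset.finite_toSet _)
    · intro x hx
      have hx' : ¬ FarV R x y := hx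
      unfold FarV at hx'
      rw [Finset.mem_coe, Finset.mem_product, Finset.mem_range, Finset.mem_range]
      dsimp only
      omega
    · intro x hx x' hx' he
      have hx1 : ¬ FarV R x y := hx
      have hx2 : ¬ FarV R x' y := hx'
      unfold FarV at hx1 hx2
      simp only [Prod.mk.injEq] at he
      exact Prod.ext (Fin.ext (by omega)) (Fin.ext (by omega))
  have hsub : {x : WV n | x ∉ Xg R Miss} ⊆
      ⋃ r ∈ Miss, ({x | ¬ FarV R x (segHd r)} ∪ {x | ¬ FarV R x (segTl r)}) := by
    intro x hx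
    have hx' : ¬ ∀ r ∈ Miss, FarV R x (segHd r) ∧ FarV R x (segTl r) := hx
    push Not at hx'
    obtain ⟨r, hr, h⟩ := hx'
    refine mem_iUnion₂.2 ⟨r, hr, ?_⟩
    by_cases h1 : FarV R x (segHd r)
    · exact Or.inr (h h1)
    · exact Or.inl h1
  refine (ncard_le_ncard hsub (Set.toFinite _)).trans ?_
  have key : ∀ t : Finset (SegR n),
      (⋃ r ∈ t, ({x | ¬ FarV R x (segHd r)} ∪ {x | ¬ FarV R x (segTl r)})).ncard ≤
        t.card * (2 * (2 * R + 1) ^ 2) := by
    intro t
    induction t using Finset.induction_on with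
    | empty => simp
    | insert r t hr ih =>
      rw [Finset.set_biUnion_insert, Finset.card_insert_of_notMem hr]
      refine (ncard_union_le _ _).trans ?_
      have h1 := ncard_union_le {x | ¬ FarV R x (segHd r)} {x | ¬ FarV R x (segTl r)}
      have h2 := hball (segHd r)
      have h3 := hball (segTl r)
      have h4 : (t.card + 1) * (2 * (2 * R + 1) ^ 2) =
          t.card * (2 * (2 * R + 1) ^ 2) + 2 * (2 * R + 1) ^ 2 := by ring
      omega
  exact key Miss

/-- few rows have an end in a small set -/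
theorem ncard_rows_at (V : Set (WV n)) :
    {r : SegR n | segHd r ∈ V ∨ segTl r ∈ V}.ncard ≤ 3 * V.ncard := by
  classical
  have hV : V.Finite := Set.toFinite _
  have hsub : {r : SegR n | segHd r ∈ V ∨ segTl r ∈ V} ⊆
      ⋃ x ∈ hV.toFinset, {r : SegR n | segHd r = x ∨ segTl r = x} := by
    rintro r (hr | hr)
    · exact mem_iUnion₂.2 ⟨_, hV.mem_toFinset.2 hr, Or.inl rfl⟩
    · exact mem_iUnion₂.2 ⟨_, hV.mem_toFinset.2 hr, Or.inr rfl⟩
  refine (ncard_le_ncard hsub (Set.toFinite _)).trans ?_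
  have h1 : V.ncard = hV.toFinset.card := ncard_eq_toFinset_card V hV
  rw [h1]
  have key : ∀ t : Finset (WV n),
      (⋃ x ∈ t, {r : SegR n | segHd r = x ∨ segTl r = x}).ncard ≤ 3 * t.card := by
    intro t
    induction t using Finset.induction_on with
    | empty => simp
    | insert x t hx ih =>
      rw [Finset.set_biUnion_insert, Finset.card_insert_of_notMem hx]
      refine (ncard_union_le _ _).trans ?_
      have h1 : {r : SegR n | segHd r = x ∨ segTl r = x}.ncard ≤ 3 := seg_hdeg (fun _ => 0) x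
      omega
  exact key _

end

end TST
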