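import Pool.Agent.TST.CompSG
import Pool.Agent.TST.LinePat
import Pool.Agent.TST.WallMiss

/-!
# T-star, (B) lines: the pattern of a path of labels with many unbalanced lines (helper35)
-/

open Set BIC BICS CWL Relation
open scoped Matroid

namespace TSH

universe u

open Mdl Mdj EN Gad TST EN.Wall

section wall

variable {n : ℕ}

lemma inl_rowVL {len : SegR n → ℕ} {BQ : Set (SegR n)} (hl : ∀ r ∈ BQ, 1 ≤ len r) {x : WV n} :
    Sum.inl x ∈ rowV (segRW n len) BQ ↔ ∃ r ∈ BQ, segHd r = x ∨ segTl r = x := by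
  constructor
  · rintro ⟨r, hr, p, hp, hx⟩
    refine ⟨r, hr, ?_⟩
    unfold RW.nd at hx
    split_ifs at hx with h1 h2
    · exact Or.inl (Sum.inl.inj hx)
    · exact Or.inr (Sum.inl.inj hx)
  · rintro ⟨r, hr, hx | hx⟩
    · refine ⟨r, hr, 0, Nat.zero_le _, ?_⟩
      rw [RW.nd_zero, ← hx]
      rfl
    · refine ⟨r, hr, (segRW n len).len r, le_rfl, ?_⟩
      rw [RW.nd_len _ (hl r hr), ← hx]
      rfl

/-- the wall without two rows: all vertices but 54 are connected to `BQ` -/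
lemma seg_hQ2 (hn : 1 ≤ n) (len : SegR n → ℕ) {BQ : Set (SegR n)}
    (h55 : 55 ≤ {x : WV n | Sum.inl x ∈ rowV (segRW n len) BQ}.ncard) (r₁ r₂ : SegR n) :
    {x : WV n | ¬ ∃ y, Sum.inl y ∈ rowV (segRW n len) BQ ∧ ReflTransGen (fun a b => ∃ r, r ≠ r₁ ∧
      r ≠ r₂ ∧ (((segRW n len).hd r = a ∧ (segRW n len).tl r = b) ∨
        ((segRW n len).hd r = b ∧ (segRW n len).tl r = a))) x y}.ncard ≤ 54 := by
  classical
  obtain ⟨Y, h1, h2, h3⟩ := seg_hwall 2 hn len {r₁, r₂} Finset.card_le_two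
  have h4 : {x | x ∉ Y}.ncard ≤ 54 := h3
  obtain ⟨y, hy, hyY⟩ : ∃ y, Sum.inl y ∈ rowV (segRW n len) BQ ∧ y ∈ Y := by
    by_contra hcon
    push Not at hcon
    have h5 : {x : WV n | Sum.inl x ∈ rowV (segRW n len) BQ} ⊆ {x | x ∉ Y} := fun x hx => hcon x hx
    have h6 := Set.ncard_le_ncard h5 (Set.toFinite _)
    omega
  refine (Set.ncard_le_ncard ?_ (Set.toFinite _)).trans h4
  intro x hx hxY
  refine hx ⟨y, hy, ?_⟩
  refine Relation.ReflTransGen.mono (fun a b hab => ?_) _ _ (h2 x hxY y hyY)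
  obtain ⟨_, _, r, hr, hab⟩ := hab
  rw [Finset.mem_insert, Finset.mem_singleton, not_or] at hr
  exact ⟨r, hr.1, hr.2, hab⟩

end wall

/-- **(B), the pattern.** -/
theorem SGOut.linePat (Nn mp t n₁ : ℕ) : ∃ Kb Nb : ℕ, ∀ {α : Type u} {M : Matroid α} [M.Finite]
    {s : ℕ} {L₁ L₂ : Bool × ℕ × ℕ → List α} {e₂ : Bool × ℕ × ℕ → α} {u a n : ℕ}
    {el : SegR n → ℕ → α} {S Q : Set α} {ends : α → Sym2 (Nd (WV n) (SegR n))}
    {BQ : Finset (SegR n)} {τ : ℕ → ℕ × ℕ} {R : ℕ → SegR n} {q : ℕ → ℕ → ℕ}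
    {ρr : ℕ → ℕ → ℕ → α × ℕ × ℕ} {len : ℕ} {N : ℕ} {f : ℕ → ℕ}
    {lbl : CI (fun _ : Unit => len) → ℕ} {K : SegR n → Finset ℕ}
    {T : Strip ((inW L₁ a n).shrink K) (CI (fun _ : Unit => len)) N} {Lm : ℕ}
    {eL : α → Sym2 (HV (OV (WV n) (SegR n) Lm) Unit)}
    (_ : SGOut M s L₁ L₂ e₂ u a n el S Q ends BQ τ R q ρr N f lbl
      (fun i j : CI (fun _ : Unit => len) => j.1.2 = i.1.2 + 1) univ K T Lm eL), 1 ≤ n → Nb ≤ N →
    (∀ r, 1 ≤ (inW L₁ a n).len r) →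
    55 ≤ {x : WV n | Sum.inl x ∈ rowV (inW L₁ a n) (BQ : Set (SegR n))}.ncard →
    164 < {r | ∃ i, R (lbl i) = r}.ncard →
    ∀ l : ℕ → ℕ, (∀ k < Kb, l k + 1 < len) → (∀ k, k + 1 < Kb → l k + 2 < l (k + 1)) →
    (∀ k < Kb, ∀ i j : CI (fun _ : Unit => len), i.1.2 = l k → j.1.2 = l k + 1 →
      ∀ v v', v < v' → v' ≤ 2 * N → ¬ Bal M el Q R ρr (lbl i) (lbl j) (f v) (f v')) →
    TSK.PatOut ((M ／ cel (inW L₁ a n) K el) ／ (Q \ cel (inW L₁ a n) K el))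
      (Sh ((inW L₁ a n).shrink K) (els K el) T univ (RgS ρr N f lbl
        (fun i j : CI (fun _ : Unit => len) => j.1.2 = i.1.2 + 1)) eL) eL
      (hostL (Sh ((inW L₁ a n).shrink K) (els K el) T univ (RgS ρr N f lbl
        (fun i j : CI (fun _ : Unit => len) => j.1.2 = i.1.2 + 1)) eL) eL N
        (fun _ : Unit => len)) N Nn mp t n₁ := by
  classical
  obtain ⟨Kb, Nb, hk⟩ := SG.patLine.{u} Nn mp t n₁
  refine ⟨Kb, Nb, ?_⟩
  intro α M _ s L₁ L₂ e₂ u a n el S Q ends BQ τ R q ρr len N f lbl K T Lm eL h hn hN hlen h55 hX l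
    hl hl2 hub
  have hfin : (M ／ cel (inW L₁ a n) K el).Finite :=
    ⟨M.ground_finite.subset sdiff_subset⟩
  have hpos : ∀ r ∈ (BQ : Set (SegR n)), 1 ≤ ((inW L₁ a n).shrink K).len r := fun r _ =>
    Finset.card_pos.2 (h.Kne r)
  have hrow : {x : WV n | Sum.inl x ∈ rowV ((inW L₁ a n).shrink K) (BQ : Set (SegR n))} =
      {x : WV n | Sum.inl x ∈ rowV (inW L₁ a n) (BQ : Set (SegR n))} := by
    ext x
    show Sum.inl x ∈ rowV (segRW n fun r => (K r).card) _ ↔ Sum.inl x ∈ rowV (segRW n _) _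
    rw [inl_rowVL (len := fun r => (K r).card) hpos,
      inl_rowVL (len := fun r => (L₁ (shS a a r.1)).length) fun r _ => hlen r]
  refine hk h.sg hN () (fun _ => len) rfl (fun _ => Or.inl rfl) (fun i j _ hij _ => hij) 54
    (fun r₁ r₂ => seg_hQ2 hn (fun r => (K r).card) (by rw [← hrow] at h55; exact h55) r₁ r₂)
    (fun x => seg_hdeg (fun r => (K r).card) x) ?_ l hl hl2 ?_
  · have hfi : {r | ∃ i, R (lbl i) = r}.Finite := Set.toFinite _
    refine ⟨hfi.toFinset, ?_, ?_⟩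
    · rw [← Set.ncard_eq_toFinset_card _ hfi]
      omega
    · intro r hr
      rw [Set.Finite.mem_toFinset] at hr
      obtain ⟨i, hi⟩ := hr
      exact ⟨i, rfl, (h.TR i).trans hi⟩
  · intro k hk i j hi hj b hb1 hb2
    have hij : j.1.2 = i.1.2 + 1 := by rw [hi, hj]
    refine ⟨_, ⟨i, j, b, hij, hb1, by omega, by omega, rfl⟩, _,
      ⟨i, j, b + 1, hij, by omega, by omega, by omega, rfl⟩,
      h.rung i j hij b hb1 (by omega) (by omega),
      h.rung i j hij (b + 1) (by omega) (by omega) (by omega),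
      h.unb i j hij b (b + 1) hb1 (by omega) (by omega) (by omega) (by omega) (by omega) ?_⟩
    exact hub k hk i j (by rw [hi]) (by rw [hj]) _ _ (by omega) (by omega)

end TSH
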