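import Pool.Agent.TST.SGHostQ
import Pool.Agent.TST.SGBal
import Pool.Agent.TST.BrickFam
import Pool.Agent.TST.HostDef

/-!
# The wall of the host (row B7 of T-star, helper14)

`SG.wallHost`: a strip all of whose lines are balanced gives `HostD` and `WallD`.
-/

open Set Relation
open scoped Matroid

namespace TST

open BIC Gad EN BICS Mdl Mdj Mdu

universe u

variable {α : Type u} {β σ : Type}

variable {M : Matroid α} {el : β → ℕ → α} {ln : σ → ℕ} {N : ℕ} {Lm : ℕ} {Sf : Set α} {Q : Set α}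
  {BQ : Set β} {u : ℕ} {Ed : CI ln → CI ln → Prop} {Rg : Set α}

/-- **The wall host.** -/
theorem SG.wallHost [M.Finite] [Finite β] [Finite σ] {L h₁ : ℕ} (hL4 : 4 ≤ L)
    {W : RW (EN.Wall.WV (L * h₁)) β} {T : Strip W (CI ln) N}
    {eL : α → Sym2 (HV (OV (EN.Wall.WV (L * h₁)) β Lm) σ)}
    (h : SG M W el T Lm Sf eL Q BQ u Ed Rg) (hF : FrmU M (SfQ T Lm BQ Sf eL) eL u)
    {Miss : Set β} {Xg : Set (EN.Wall.WV (L * h₁))}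
    (hM : ∀ r ∉ Miss, W.nd r 0 ∉ rowV W BQ ∧ W.nd r (W.len r) ∉ rowV W BQ)
    {Lost : Set β} (hL : ∀ r ∉ Lost, W.nd r 0 ∉ rowV W BQ ∧ W.nd r (W.len r) ∉ rowV W BQ)
    (hLg : ∀ r ∉ Lost, W.hd r ∈ Xg ∧ W.tl r ∈ Xg)
    -- balanced lines
    (hEd : ∀ i j : CI ln, Ed i j ↔ i.1.1 = j.1.1 ∧ j.1.2 = i.1.2 + 1) (g' : CI ln → CI ln → α)
    (hb : ∀ i j, Ed i j → ∀ e ∈ Rg, ∀ b : ℤ, eL e = s(cv i b, cv j b) →
      e ∈ (M ／ Q).closure (ColE W el T i ∪ ColE W el T j ∪ {g' i j}))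
    -- `alpha`
    (hport : ∀ r ∉ Lost, ∀ k, 0 < k → k < W.len r →
      (∀ i, T.R i = r → k < T.a i ∨ T.a i + 2 * N + T.m i < k) →
      (∃ i, T.R i = r ∧ k + 1 = T.a i) ∧ ∃ i, T.R i = r ∧ k = T.a i + 2 * N + T.m i + 1)
    {E₂ D₂ : Set α} {k₁ c e₀ n' : ℕ} (hN : 2 * (k₁ + u + 1) ≤ N)
    (hX : ∀ X ⊆ M.E, Disjoint X E₂ → rk M X + rk M (M.E \ X) < rk M M.E + k₁ →
      ∃ Bd : Finset β, Bd.card ≤ c ∧ ∀ r ∉ Bd, r ∉ Miss → ∀ k < W.len r, el r k ∉ X)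
    (hwall : ∀ Bd : Finset β, Bd.card ≤ c → ∃ Y : Finset (EN.Wall.WV (L * h₁)), Y.Nonempty ∧
      (∀ x ∈ Y, ∀ y ∈ Y, ReflTransGen (fun a b => a ∈ Y ∧ b ∈ Y ∧ ∃ r, r ∉ Bd ∧ r ∉ Miss ∧
        ((W.hd r = a ∧ W.tl r = b) ∨ (W.hd r = b ∧ W.tl r = a))) x y) ∧
      {x | x ∉ Y ∧ x ∈ Xg}.ncard ≤ e₀)
    (hdeg : ∀ x, {r | W.hd r = x ∨ W.tl r = x}.ncard ≤ 3)
    (hcol : ∀ s, 0 < ln s → ∃ Rs : Finset β, c + 3 * e₀ < Rs.card ∧ ∀ r ∈ Rs,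
      (r ∉ Miss ∧ W.hd r ∈ Xg ∧ W.tl r ∈ Xg) ∧ ∃ i : CI ln, i.1.1 = s ∧ T.R i = r)
    -- the dual grid
    (hSE : Disjoint (SfQ T Lm BQ Sf eL) E₂) (hSD : Disjoint (Sh W el T Lost Rg eL) D₂)
    (hE₂ : E₂ ⊆ M.E) (hD₂ : D₂ ⊆ M.E \ E₂) (hpg : PGrid (M✶ ／ D₂) E₂ n')
    -- the wall
    (hedge : ∀ a b, (EN.Wall.Wl (L * h₁)).Adj a b → ∃ r, (W.hd r = a ∧ W.tl r = b) ∨
      (W.hd r = b ∧ W.tl r = a))
    {Z : Finset (EN.Wall.WV h₁)} (hZ : ∀ r ∈ Lost, EN.Wall.blk L h₁ (W.hd r) ∈ Z)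
    (hind : ∀ B : Finset β, (∀ r ∈ B, r ∉ Lost) →
      (∀ A ⊆ B, A.card ≤ {x | ∃ r ∈ A, W.hd r = x ∨ W.tl r = x}.ncard) →
      (M ／ Q).Indep (rowE W el (B : Set β)))
    {g : ℕ → ℕ} (hg : ∀ j ≤ Nat.card (CI ln), (g j : ℤ) ≤ N) :
    TSK.HostD M (Sh W el T Lost Rg eL) (SfQ T Lm BQ Sf eL) Q E₂ D₂ eL
        (hostL (Sh W el T Lost Rg eL) eL N ln) N u k₁ (e₀ + (k₁ + u)) n' ∧
      ∃ f f' U, TSK.WallD (M ／ Q) (Sh W el T Lost Rg eL) eL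
        (hostL (Sh W el T Lost Rg eL) eL N ln) N 0 g Z f f' U := by
  classical
  have hfin : Finite (EN.Wall.WV (L * h₁)) := inferInstance
  have hEd' : ∀ i j : CI ln, i.1.1 = j.1.1 → j.1.2 = i.1.2 + 1 → ln i.1.1 ≠ 0 → Ed i j :=
    fun i j h1 h2 _ => (hEd i j).2 ⟨h1, h2⟩
  obtain ⟨k1, _, k3, _, k5, k6, k7, k8⟩ := h.hostQ (Lost := Lost) hL (len := ln)
    (fun _ => Or.inl rfl) hEd'
  have hal := h.alphaM hF hM hL hLg (len := ln) (fun _ => Or.inl rfl) hEd'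
    (fun r _ i _ hi => by have := i.2; omega) hport hN hX hwall hdeg hcol
  have hG := h.hostG (Lost := Lost) hL hEd (fun s hs => h.bal hL hEd g' hb s hs)
  obtain ⟨Br, st, d1, d2, d3, d4, d5, d6, d7⟩ := brick_family (W := W) hL4 hedge
  refine ⟨⟨k1, hF, h.Q_sub, ?_, k5, fun _ => trivial, k6, k7, hSE, hSD, hE₂, hD₂, hpg, hal⟩, ?_⟩
  · exact k3.mono_right fun e he => he.1
  refine h.wallD (by omega) hG (fun i => ?_) k8 hedge hZ (fun y => Br y.1) (fun y => d1 y.1)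
    (fun y => d2 y.1) (fun y => d3 y.1) (fun y => d4 y.1) ?_ hg
  · rw [dif_pos i.2]
  · -- independence
    have hfβ : {r : β | ∃ y : WZ Z, r ∈ Br y.1}.Finite := Set.toFinite _
    have h1 : rowE W el {r : β | ∃ y : WZ Z, r ∈ Br y.1} =
        rowE W el (hfβ.toFinset : Set β) := by rw [hfβ.coe_toFinset]
    rw [h1]
    refine hind _ ?_ ?_
    · intro r hr hrl
      obtain ⟨y, hy⟩ := hfβ.mem_toFinset.1 hr
      have h2 := hZ r hrl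
      rw [(d1 y.1 r hy).1] at h2
      exact y.2 h2
    · intro A hA
      refine d7 A fun r hr => ?_
      obtain ⟨y, hy⟩ := hfβ.mem_toFinset.1 (hA hr)
      exact ⟨y.1, hy⟩

end TST
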