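import Pool.Agent.TST.AlphaT
import Pool.Agent.TST.CompSG
import Pool.Agent.TST.CutSheets
import Pool.Agent.TST.WallMiss
import Pool.Agent.TST.WallHost

/-!
# The wall of the host from balanced sheets (row A of `HostOfBase`, helper14)
-/

open Set BIC BICS CWL Relation
open scoped Matroid

namespace TSH

universe u

open Mdl Mdj EN Gad TST EN.Wall

/-- a wall vertex is a node of a row of `B` iff it is one of its ends -/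
lemma inl_rowV {X₀ β : Type} {W : RW X₀ β} (hlen : ∀ r, 1 ≤ W.len r) {B : Set β} {x : X₀} :
    (Sum.inl x : Nd X₀ β) ∈ rowV W B ↔ ∃ r ∈ B, W.hd r = x ∨ W.tl r = x := by
  constructor
  · rintro ⟨r, hr, p, _, h⟩
    unfold RW.nd at h
    split_ifs at h with h1 h2
    · exact ⟨r, hr, Or.inl (Sum.inl.inj h)⟩
    · exact ⟨r, hr, Or.inr (Sum.inl.inj h)⟩
  · rintro ⟨r, hr, h | h⟩
    · refine ⟨r, hr, 0, Nat.zero_le _, ?_⟩
      unfold RW.nd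
      rw [if_pos rfl, h]
    · refine ⟨r, hr, W.len r, le_rfl, ?_⟩
      have := hlen r
      unfold RW.nd
      rw [if_neg (by omega), if_pos rfl, h]

/-- the ends of a row in the shrunk system -/
lemma shrink_ends {X₀ β : Type} {W : RW X₀ β} {K : β → Finset ℕ} (hlen : ∀ r, 1 ≤ W.len r)
    (hK : ∀ r, 1 ≤ (K r).card) {B : Set β} {r : β}
    (h : W.nd r 0 ∉ rowV W B ∧ W.nd r (W.len r) ∉ rowV W B) :
    (W.shrink K).nd r 0 ∉ rowV (W.shrink K) B ∧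
      (W.shrink K).nd r ((W.shrink K).len r) ∉ rowV (W.shrink K) B := by
  have h1 := hlen r
  have h2 : 1 ≤ (W.shrink K).len r := hK r
  have e1 : W.nd r 0 = Sum.inl (W.hd r) := by
    unfold RW.nd
    rw [if_pos rfl]
  have e2 : W.nd r (W.len r) = Sum.inl (W.tl r) := by
    unfold RW.nd
    rw [if_neg (by omega), if_pos rfl]
  have e3 : (W.shrink K).nd r 0 = Sum.inl (W.hd r) := by
    unfold RW.nd
    rw [if_pos rfl]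
    rfl
  have e4 : (W.shrink K).nd r ((W.shrink K).len r) = Sum.inl (W.tl r) := by
    unfold RW.nd
    rw [if_neg (by omega), if_pos rfl]
    rfl
  rw [e1, e2, inl_rowV hlen, inl_rowV hlen] at h
  rw [e3, e4, inl_rowV (W := W.shrink K) hK, inl_rowV (W := W.shrink K) hK]
  exact h

/-- columns of the sheets -/
def shLbl {J : Type} {G : SimpleGraph J} {σ : Type} (Ps : PSh G σ) (v : J → ℕ) (i : CI Ps.len) :
    ℕ := v (Ps.col i.1.1 i.1.2)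

/-- **Selection for sheets.** -/
theorem selSheets {α : Type u} {L₁ : Bool × ℕ × ℕ → List α} {a n : ℕ} {BQ : Finset (SegR n)}
    {nT m : ℕ} {R : ℕ → SegR n} {q : ℕ → ℕ → ℕ} {G : ℕ → ℕ → Prop} {P : Finset ℕ} {σ : Type}
    (Ps : PSh (PG G P) σ) {N : ℕ} {f : ℕ → ℕ} (hN : 1 ≤ N)
    (hf : ∀ a b, a < b → b ≤ 2 * N → f a < f b) (hf0 : 1 ≤ f 0) (hfn : 3 * f (2 * N) + 5 < nT)
    {Lost : Set (SegR n)}
    (hL : ∀ r ∉ Lost, (∀ i' < m, R i' = r → ∃ j, Ps.Cov j ∧ R j.1 = r ∧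
        RamP.Near nT (q i') (q j.1)) ∧
      (inW L₁ a n).nd r 0 ∉ rowV (inW L₁ a n) BQ ∧
      (inW L₁ a n).nd r ((inW L₁ a n).len r) ∉ rowV (inW L₁ a n) BQ) :
    Sel L₁ a n BQ nT m R q G P Ps.len N f (shLbl Ps fun j => j.1)
      (fun i j => i.1.1 = j.1.1 ∧ j.1.2 = i.1.2 + 1) Lost where
  N1 := hN
  f_lt := hf
  f_one := hf0
  f_nT := hfn
  mem i := (Ps.col i.1.1 i.1.2).2
  inj := by
    intro i j hij
    obtain ⟨h1, h2⟩ := Ps.inj _ _ _ _ i.2 j.2 (Subtype.ext hij)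
    exact Subtype.ext (Prod.ext h1 h2)
  ed := by
    rintro i j ⟨h1, h2⟩
    refine ⟨fun h => ?_, ?_⟩
    · rw [h] at h2
      omega
    · have h3 := Ps.adj i.1.1 i.1.2 (by
        have := j.2
        rw [← h1, h2] at this
        exact this)
      have h4 : shLbl Ps (fun j => j.1) j = (Ps.col i.1.1 (i.1.2 + 1)).1 := by
        unfold shLbl
        rw [← h1, h2]
      rw [h4]
      exact h3.2
  lost := by
    intro r hr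
    obtain ⟨h1, h2, h3⟩ := hL r hr
    refine ⟨fun i' hi' hR => ?_, h2, h3⟩
    obtain ⟨j, ⟨s, c, hc, rfl⟩, h5, h6⟩ := h1 i' hi' hR
    exact ⟨⟨(s, c), hc⟩, h5, h6⟩

/-- the wall host from `SGOut` -/
theorem sheets_host (κ k₁ : ℕ) : ∃ c₀ : ℕ, ∀ u : ℕ, ∃ Nb : ℕ, 1 ≤ Nb ∧ ∀ (ρ y₀ : ℕ), ∃ s₁ w₀ : ℕ,
    ∀ s ≥ s₁,
    ∀ w ≥ w₀, ∀ {α : Type u} (M : Matroid α) [M.Finite]
    (𝒯 : Finset (ℕ × ℕ)) (L₁ : Bool × ℕ × ℕ → List α) (f₁ : α → Sym2 ((ℕ × ℕ) ⊕ α))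
    (e₁ : Bool × ℕ × ℕ → α) (u₁ : ℕ) (L₂ : Bool × ℕ × ℕ → List α) (f₂ : α → Sym2 ((ℕ × ℕ) ⊕ α))
    (e₂ : Bool × ℕ × ℕ → α) (u₂ η nT : ℕ) (F : ℕ → ℕ) (a n : ℕ) (el : SegR n → ℕ → α)
    (S Q : Set α) (ends : α → Sym2 (Nd (WV n) (SegR n))) (BQ Bd : Finset (SegR n))
    (τ : ℕ → ℕ × ℕ) (m : ℕ) (R : ℕ → SegR n) (q : ℕ → ℕ → ℕ) (G : ℕ → ℕ → Prop) (P : Finset ℕ)
    (ρr : ℕ → ℕ → ℕ → α × ℕ × ℕ) (N : ℕ) (f : ℕ → ℕ),
    Ctx κ ρ M w s 𝒯 L₁ f₁ e₁ u₁ L₂ f₂ e₂ u₂ u η nT F a n el S Q ends BQ Bd τ m R q G P →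
    Nb ≤ N →
    (∀ a b, a < b → b ≤ 2 * N → f a < f b) → 3 * f (2 * N) + 5 < nT →
    ∀ (σ₀ : ℕ) (Ps : PSh (PG G P) (Fin σ₀)),
    (∀ s c, c + 1 < Ps.len s → ∀ v v', v < v' → v' ≤ 2 * N →
      Bal M el Q R ρr (Ps.col s c).1 (Ps.col s (c + 1)).1 (f v) (f v')) →
    ∀ Miss : Finset (SegR n), (∀ r ∉ Miss, (inW L₁ a n).nd r 0 ∉ rowV (inW L₁ a n) BQ ∧
      (inW L₁ a n).nd r ((inW L₁ a n).len r) ∉ rowV (inW L₁ a n) BQ) →
    (∀ s, 0 < Ps.len s → c₀ + 3 * (6 * (c₀ + 1) ^ 2) < {r | (r ∉ Miss ∧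
      segHd r ∈ Xg (6 * (c₀ + Miss.card + 1) ^ 2) Miss ∧
      segTl r ∈ Xg (6 * (c₀ + Miss.card + 1) ^ 2) Miss) ∧
      ∃ c < Ps.len s, R (Ps.col s c).1 = r}.ncard) →
    ∀ (Lost : Finset (SegR n)), (∀ r ∉ Lost, r ∉ Miss ∧
      segHd r ∈ Xg (6 * (c₀ + Miss.card + 1) ^ 2) Miss ∧
      segTl r ∈ Xg (6 * (c₀ + Miss.card + 1) ^ 2) Miss) →
    ∀ (N₀ c h₀ : ℕ) (g : ℕ → ℕ), N₀ ≤ N → (∀ j ≤ P.card, g j ≤ N) → h₀ ≤ n / 4 →
      c * (σ₀ + Lost.card) ≤ (n / 4) ^ 2 →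
    ∀ (K : SegR n → Finset ℕ) (T : Strip ((inW L₁ a n).shrink K) (CI Ps.len) N) (Lm : ℕ)
      (eL : α → Sym2 (HV (OV (WV n) (SegR n) Lm) (Fin σ₀))),
      SGOut M s L₁ L₂ e₂ u a n el S Q ends BQ τ R q ρr N f (shLbl Ps fun j => j.1)
        (fun i j => i.1.1 = j.1.1 ∧ j.1.2 = i.1.2 + 1) (Lost : Set (SegR n)) K T Lm eL →
    ∀ Nn mp t n₁ : ℕ,
      TSK.HostOut M u k₁ (6 * (c₀ + 1) ^ 2 + (k₁ + u)) N₀ y₀ c h₀ g Nn mp t n₁ := by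
  classical
  obtain ⟨c₀, hc⟩ := wall_hX.{u} κ k₁
  refine ⟨c₀, fun u => ⟨2 * (k₁ + u + 1), by omega, fun ρ y₀ => ?_⟩⟩
  obtain ⟨w₀, s₁, hc⟩ := hc ρ
  obtain ⟨n', hn'⟩ : ∃ n', n' = y₀ + c₀ + 2 := ⟨_, rfl⟩
  refine ⟨s₁ + (κ + 1) * (2 * n' + 2), w₀ + 1, ?_⟩
  intro s hs w hw α M _ 𝒯 L₁ f₁ e₁ u₁ L₂ f₂ e₂ u₂ η nT F a n el S Q ends BQ Bd τ m R q G P ρr N f
    hctx hNb hf hfn σ₀ Ps hBal Miss hMiss hrich Lost hLost N₀ c h₀ g hN₀ hg hh₀ hcnt K T Lm eL hO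
    Nn mp t n₁
  obtain ⟨hw1, hn4, hw2, hw3⟩ := hctx.base.wall
  obtain ⟨h₁, rfl⟩ := hn4
  have e4 : 4 * h₁ / 4 = h₁ := by omega
  rw [e4] at hcnt hh₀
  have hn1 : 1 ≤ 4 * h₁ := by omega
  have hb := hctx.base
  have hsg := hO.sg
  have hlen : ∀ r, 1 ≤ (inW L₁ a (4 * h₁)).len r := hb.row.pos
  have hK : ∀ r, 1 ≤ (K r).card := fun r => Finset.card_pos.2 (hO.Kne r)
  have fM' : (M ／ cel (inW L₁ a (4 * h₁)) K el).Finite := ⟨M.ground_finite.subset sdiff_subset⟩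
  obtain ⟨Ed, hEd⟩ : ∃ Ed : CI Ps.len → CI Ps.len → Prop,
    Ed = (fun i j => i.1.1 = j.1.1 ∧ j.1.2 = i.1.2 + 1) := ⟨_, rfl⟩
  have hEdi : ∀ i j, Ed i j ↔ i.1.1 = j.1.1 ∧ j.1.2 = i.1.2 + 1 := by
    intro i j
    rw [hEd]
  rw [← hEd] at hO hsg
  obtain ⟨tl, htl⟩ : ∃ tl, tl = τ (3 * f N + 1) := ⟨_, rfl⟩
  have hfN : f N ≤ f (2 * N) := (hf N (2 * N) (by omega) le_rfl).le
  have htile : shS tl.1 tl.2 '' Seg s ⊆ tiles s 𝒯 := by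
    rintro _ ⟨σ, hσ, rfl⟩
    exact ⟨tl, by rw [htl]; exact hb.tau _ (by omega), σ, hσ, rfl⟩
  have hcelT := hO.cel_tile
  have hshT := hO.sh_tile
  have hsfT := hO.sf_anchor
  rw [← htl] at hcelT hshT hsfT
  obtain ⟨E₂, D₂, hE₂e, hD₂c, -, hE₂E, hD₂E, hpg, hcount⟩ := tileGrid hctx.pair htile hcelT.symm
    hctx.hu₂ (n' := n') (c := c₀) (by omega) (by omega) (by omega)
  obtain ⟨W', hW'⟩ : ∃ W', W' = (inW L₁ a (4 * h₁)).shrink K := ⟨_, rfl⟩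
  have hfin : Fintype (SegR (4 * h₁)) := Fintype.ofFinite _
  -- wall vertices
  have hMM : ∀ r ∉ (Miss : Set (SegR (4 * h₁))), ((inW L₁ a (4 * h₁)).shrink K).nd r 0 ∉
      rowV ((inW L₁ a (4 * h₁)).shrink K) (BQ : Set (SegR (4 * h₁))) ∧
      ((inW L₁ a (4 * h₁)).shrink K).nd r (((inW L₁ a (4 * h₁)).shrink K).len r) ∉
      rowV ((inW L₁ a (4 * h₁)).shrink K) (BQ : Set (SegR (4 * h₁))) := fun r hr =>
    shrink_ends hlen hK (hMiss r (fun h => hr (Finset.mem_coe.2 h)))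
  have hLL : ∀ r ∉ (Lost : Set (SegR (4 * h₁))), ((inW L₁ a (4 * h₁)).shrink K).nd r 0 ∉
      rowV ((inW L₁ a (4 * h₁)).shrink K) (BQ : Set (SegR (4 * h₁))) ∧
      ((inW L₁ a (4 * h₁)).shrink K).nd r (((inW L₁ a (4 * h₁)).shrink K).len r) ∉
      rowV ((inW L₁ a (4 * h₁)).shrink K) (BQ : Set (SegR (4 * h₁))) := fun r hr =>
    hMM r fun h => (hLost r fun h' => hr (Finset.mem_coe.2 h')).1 (Finset.mem_coe.1 h)
  -- the ground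
  obtain ⟨_, _, hQSw, _⟩ := hsg.hostQ (Lost := (Lost : Set (SegR (4 * h₁)))) hLL (len := Ps.len)
    (fun _ => Or.inl rfl) fun i j h1 h2 _ => (hEdi i j).2 ⟨h1, h2⟩
  -- balanced lines
  obtain ⟨g', hg'⟩ : ∃ g' : CI Ps.len → CI Ps.len → α, g' = fun i j =>
    (ρr (shLbl Ps (fun j => j.1) i) (shLbl Ps (fun j => j.1) j) (f 0)).1 := ⟨_, rfl⟩
  have hbal : ∀ i j, Ed i j → ∀ e ∈ RgS ρr N f (shLbl Ps fun j => j.1) Ed, ∀ b : ℤ,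
      eL e = s(cv i b, cv j b) →
      e ∈ ((M ／ cel (inW L₁ a (4 * h₁)) K el) ／ (Q \ cel (inW L₁ a (4 * h₁)) K el)).closure
        (ColE ((inW L₁ a (4 * h₁)).shrink K) (els K el) T i ∪
          ColE ((inW L₁ a (4 * h₁)).shrink K) (els K el) T j ∪ {g' i j}) := by
    intro i j hij e he b heb
    have he0 := he
    obtain ⟨i', j', b', hij', hb1, hb2, hb0, rfl⟩ := he
    have h1 := hO.rung i' j' hij' b' hb1 hb2 hb0
    rw [h1] at heb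
    have hij2 := (hEdi _ _).1 hij
    have hij3 := (hEdi _ _).1 hij'
    have h2 : i' = i ∧ j' = j := by
      rcases Sym2.eq_iff.1 heb with ⟨g1, g2⟩ | ⟨g1, g2⟩
      · have g3 := Sum.inr.inj g1
        have g4 := Sum.inr.inj g2
        rw [Prod.mk.injEq, Prod.mk.injEq] at g3 g4
        exact ⟨Subtype.ext (Prod.ext g3.1 g3.2.1), Subtype.ext (Prod.ext g4.1 g4.2.1)⟩
      · exfalso
        have g3 := Sum.inr.inj g1
        have g4 := Sum.inr.inj g2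
        rw [Prod.mk.injEq, Prod.mk.injEq] at g3 g4
        have g5 := g3.2.1
        have g6 := g4.2.1
        omega
    obtain ⟨rfl, rfl⟩ := h2
    obtain ⟨v, hv⟩ : ∃ v, v = (b' + N).toNat := ⟨_, rfl⟩
    rcases Nat.eq_zero_or_pos v with hv0 | hv0
    · have h3 : (ρr (shLbl Ps (fun j => j.1) i') (shLbl Ps (fun j => j.1) j')
          (f (b' + N).toNat)).1 = g' i' j' := by
        rw [hg', ← hv, hv0]
      rw [h3]
      refine Matroid.mem_closure_of_mem' _ (Or.inr rfl) ?_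
      rw [← h3]
      have h4 := hsg.rg _ he0
      refine ⟨hsg.sub h4.1, fun h5 => ?_⟩
      exact Set.disjoint_left.1 hQSw h5 (Or.inr he0)
    · have h3 := hO.bal i' j' hij' (-(N : ℤ)) b' le_rfl (by omega) (by omega) hb1 hb2 hb0 (by
        have e1 : (-(N : ℤ) + N).toNat = 0 := by omega
        rw [e1]
        have h4 : shLbl Ps (fun j => j.1) j' = (Ps.col i'.1.1 (i'.1.2 + 1)).1 := by
          unfold shLbl
          rw [← hij3.1, hij3.2]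
        rw [h4]
        refine hBal i'.1.1 i'.1.2 ?_ 0 (b' + N).toNat (by omega) (by omega)
        have h5 := j'.2
        rw [← hij3.1, hij3.2] at h5
        exact h5)
      have e1 : (-(N : ℤ) + N).toNat = 0 := by omega
      rw [e1] at h3
      rw [hg']
      exact h3
  have hwl := @seg_hwall_miss (4 * h₁) c₀ hn1 (fun r => (K r).card) Miss
  have hmain := hsg.wallHost (L := 4) (h₁ := h₁) le_rfl hsg.frmU
    (Miss := (Miss : Set (SegR (4 * h₁)))) (Xg := Xg (6 * (c₀ + Miss.card + 1) ^ 2) Miss) hMM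
    (Lost := (Lost : Set (SegR (4 * h₁)))) hLL
    (fun r hr => (hLost r fun h => hr (Finset.mem_coe.2 h)).2) hEdi g' hbal hO.port
    (E₂ := E₂) (D₂ := D₂) (k₁ := k₁) (c := c₀) (e₀ := 6 * (c₀ + 1) ^ 2) (n' := n') hNb
    (by
      intro X hX hXd hXr
      obtain ⟨Bd', h1, h2⟩ := hc w (by omega) s (by omega) M (tiles s 𝒯) L₁ f₁ e₁ u₁ L₂ f₂ e₂ u₂
        hctx.pair hctx.hu₁ hctx.hu₂ hctx.hot tl.1 tl.2 htile a (4 * h₁) el hw2 hb.el_eq K hO.Kne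
        hO.Klt hcelT.symm X hX (hcount X hXd) hXr
      exact ⟨Bd', h1, fun r hr _ k hk => h2 r hr k hk⟩)
    (by
      intro Bd' hBd'
      obtain ⟨Y, h1, h2, h3⟩ := hwl Bd' hBd'
      exact ⟨Y, h1, h2, h3⟩)
    (seg_hdeg fun r => (K r).card)
    (by
      intro sh hsh
      refine ⟨(Set.toFinite {r | (r ∉ Miss ∧
        segHd r ∈ Xg (6 * (c₀ + Miss.card + 1) ^ 2) Miss ∧
        segTl r ∈ Xg (6 * (c₀ + Miss.card + 1) ^ 2) Miss) ∧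
        ∃ c < Ps.len sh, R (Ps.col sh c).1 = r}).toFinset, ?_, ?_⟩
      · rw [← ncard_eq_toFinset_card]
        exact hrich sh hsh
      · intro r hr
        obtain ⟨h1, c', hc', h2⟩ := (Set.Finite.mem_toFinset _).1 hr
        refine ⟨⟨fun h => h1.1 (Finset.mem_coe.1 h), h1.2⟩, ⟨(sh, c'), hc'⟩, rfl, ?_⟩
        rw [hO.TR]
        exact h2)
    (hsfT.mono_right hE₂e) (hshT.mono_right hD₂c) hE₂E hD₂E hpg
    (fun x y hxy => by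
      obtain ⟨r, hr⟩ := exists_seg hxy
      exact ⟨r, hr⟩)
    (Z := Lost.image fun r => EN.Wall.blk 4 h₁ (segHd r))
    (fun r hr => Finset.mem_image.2 ⟨r, Finset.mem_coe.1 hr, rfl⟩)
    (fun B hB hA => hO.ind B (fun r hr h => hB r hr h) hA)
    (g := g) (by
      intro j hj
      have h1 : Nat.card (CI Ps.len) ≤ P.card := by
        have h2 : Function.Injective (fun i : CI Ps.len => (Ps.col i.1.1 i.1.2 : {i // i ∈ P})) := by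
          intro i j hij
          obtain ⟨h1, h2⟩ := Ps.inj _ _ _ _ i.2 j.2 hij
          exact Subtype.ext (Prod.ext h1 h2)
        have h3 := Nat.card_le_card_of_injective _ h2
        have h4 : Nat.card {i // i ∈ P} = P.card := by
          rw [Nat.card_eq_fintype_card, Fintype.card_coe]
        rwa [h4] at h3
      have := hg j (hj.trans h1)
      omega)
  obtain ⟨hHD, f₀, f₀', U₀, hWD⟩ := hmain
  refine ⟨M ／ cel (inW L₁ a (4 * h₁)) K el, OV (WV (4 * h₁)) (SegR (4 * h₁)) Lm, Fin σ₀,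
    inferInstance, inferInstance, _, (N : ℤ), _, _, _, E₂, D₂, eL, n',
    (by
      have h1 := M.contract_delete_isMinor (cel (inW L₁ a (4 * h₁)) K el) ∅
      rwa [Matroid.delete_empty] at h1), by omega, by omega, hHD, Or.inr ⟨0, h₁, _, f₀, f₀', U₀, hh₀, ?_, hWD⟩⟩
  refine le_trans (Nat.mul_le_mul_left _ ?_) hcnt
  rw [Nat.card_eq_fintype_card, Fintype.card_fin]
  exact Nat.add_le_add_left Finset.card_image_le _

/-- **(A) Balanced sheets.**  `σ₀` = number of sheets, `Lost` = rows with an end in `VQ`, or an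
end outside of `Xg`, or with a label which is not on a sheet. -/
theorem out_sheets (κ k₁ : ℕ) : ∃ c₀ : ℕ, ∀ u : ℕ, ∃ Nb : ℕ, ∀ (ρ y₀ : ℕ), ∃ s₁ w₀ : ℕ, ∀ s ≥ s₁,
    ∀ w ≥ w₀, ∀ {α : Type u} (M : Matroid α) [M.Finite]
    (𝒯 : Finset (ℕ × ℕ)) (L₁ : Bool × ℕ × ℕ → List α) (f₁ : α → Sym2 ((ℕ × ℕ) ⊕ α))
    (e₁ : Bool × ℕ × ℕ → α) (u₁ : ℕ) (L₂ : Bool × ℕ × ℕ → List α) (f₂ : α → Sym2 ((ℕ × ℕ) ⊕ α))
    (e₂ : Bool × ℕ × ℕ → α) (u₂ η nT : ℕ) (F : ℕ → ℕ) (a n : ℕ) (el : SegR n → ℕ → α)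
    (S Q : Set α) (ends : α → Sym2 (Nd (WV n) (SegR n))) (BQ Bd : Finset (SegR n))
    (τ : ℕ → ℕ × ℕ) (m : ℕ) (R : ℕ → SegR n) (q : ℕ → ℕ → ℕ) (G : ℕ → ℕ → Prop) (P : Finset ℕ)
    (ρr : ℕ → ℕ → ℕ → α × ℕ × ℕ) (N : ℕ) (f : ℕ → ℕ),
    Ctx κ ρ M w s 𝒯 L₁ f₁ e₁ u₁ L₂ f₂ e₂ u₂ u η nT F a n el S Q ends BQ Bd τ m R q G P →
    RungC L₁ a n el S ends nT R q G P ρr → Nb ≤ N →
    (∀ a b, a < b → b ≤ 2 * N → f a < f b) → 1 ≤ f 0 → 3 * f (2 * N) + 5 < nT →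
    ∀ (σ₀ : ℕ) (Ps : PSh (PG G P) (Fin σ₀)),
    (∀ s c, c + 1 < Ps.len s → ∀ v v', v < v' → v' ≤ 2 * N →
      Bal M el Q R ρr (Ps.col s c).1 (Ps.col s (c + 1)).1 (f v) (f v')) →
    ∀ Miss : Finset (SegR n), (∀ r ∉ Miss, (inW L₁ a n).nd r 0 ∉ rowV (inW L₁ a n) BQ ∧
      (inW L₁ a n).nd r ((inW L₁ a n).len r) ∉ rowV (inW L₁ a n) BQ) →
    (∀ s, 0 < Ps.len s → c₀ + 3 * (6 * (c₀ + 1) ^ 2) < {r | (r ∉ Miss ∧
      segHd r ∈ Xg (6 * (c₀ + Miss.card + 1) ^ 2) Miss ∧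
      segTl r ∈ Xg (6 * (c₀ + Miss.card + 1) ^ 2) Miss) ∧
      ∃ c < Ps.len s, R (Ps.col s c).1 = r}.ncard) →
    ∀ (Lost : Finset (SegR n)), (∀ r ∉ Lost, r ∉ Miss ∧
      segHd r ∈ Xg (6 * (c₀ + Miss.card + 1) ^ 2) Miss ∧
      segTl r ∈ Xg (6 * (c₀ + Miss.card + 1) ^ 2) Miss ∧
      ∀ i' < m, R i' = r → ∃ j, Ps.Cov j ∧ R j.1 = r ∧ RamP.Near nT (q i') (q j.1)) →
    ∀ (N₀ c h₀ : ℕ) (g : ℕ → ℕ), N₀ ≤ N → (∀ j ≤ P.card, g j ≤ N) → h₀ ≤ n / 4 →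
      c * (σ₀ + Lost.card) ≤ (n / 4) ^ 2 → ∀ Nn mp t n₁ : ℕ,
      TSK.HostOut M u k₁ (6 * (c₀ + 1) ^ 2 + (k₁ + u)) N₀ y₀ c h₀ g Nn mp t n₁ := by
  classical
  obtain ⟨c₀, hc⟩ := sheets_host.{u} κ k₁
  refine ⟨c₀, fun u => ?_⟩
  obtain ⟨Nb, hNb1, hc⟩ := hc u
  refine ⟨Nb, fun ρ y₀ => ?_⟩
  obtain ⟨s₁, w₀, hc⟩ := hc ρ y₀
  refine ⟨s₁, w₀, ?_⟩
  intro s hs w hw α M _ 𝒯 L₁ f₁ e₁ u₁ L₂ f₂ e₂ u₂ η nT F a n el S Q ends BQ Bd τ m R q G P ρr N f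
    hctx hρ hNb hf hf0 hfn σ₀ Ps hBal Miss hMiss hrich Lost hLost N₀ c h₀ g hN₀ hg hh₀ hcnt
    Nn mp t n₁
  have hfin : Fintype (CI Ps.len) := by
    have h2 : Function.Injective (fun i : CI Ps.len => (Ps.col i.1.1 i.1.2 : {i // i ∈ P})) := by
      intro i j hij
      obtain ⟨h1, h2⟩ := Ps.inj _ _ _ _ i.2 j.2 hij
      exact Subtype.ext (Prod.ext h1 h2)
    exact Fintype.ofInjective _ h2
  obtain ⟨K, T, Lm, eL, hO⟩ := hctx.sgOut hρ (selSheets (L₁ := L₁) (a := a) (BQ := BQ) (m := m)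
    (R := R) (q := q) Ps (N := N) (f := f) (by omega) hf hf0 hfn
    (Lost := (Lost : Set (SegR n))) fun r hr => by
      obtain ⟨h1, _, _, h4⟩ := hLost r fun h => hr (Finset.mem_coe.2 h)
      exact ⟨h4, hMiss r h1⟩)
  exact hc s hs w hw M 𝒯 L₁ f₁ e₁ u₁ L₂ f₂ e₂ u₂ η nT F a n el S Q ends BQ Bd τ m R q G P ρr N f
    hctx hNb hf hfn σ₀ Ps hBal Miss hMiss hrich Lost (fun r hr => ⟨(hLost r hr).1,
      (hLost r hr).2.1, (hLost r hr).2.2.1⟩) N₀ c h₀ g hN₀ hg hh₀ hcnt K T Lm eL hO Nn mp t n₁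

end TSH
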