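import Pool.Agent.TST.RowsRe

/-!
# A few elements of the rows of a side are given up (T-star)
-/

open Set BIC BICS
open scoped Matroid

namespace TST

open CWL

variable {α : Type*} {M : Matroid α} {S : Set (Bool × ℕ × ℕ)} {L L' : Bool × ℕ × ℕ → List α}
  {f : α → Sym2 ((ℕ × ℕ) ⊕ α)} {e : Bool × ℕ × ℕ → α} {u : ℕ}

/-- **Shorter rows in the same matroid**: the lift grows by the number of the lost elements. -/
theorem gside_drop [M.Finite] (h : GSide M S L f e u) (hnd' : ∀ s ∈ S, (L' s).Nodup)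
    (hm : ∀ s ∈ S, ∀ x, x ∈ L' s → x ∈ L s) {e' : Bool × ℕ × ℕ → α}
    (he' : ∀ s ∈ S, (L' s).getLast? = some (e' s)) {n : ℕ}
    (hn : (crr L S \ crr L' S).ncard ≤ n) : ∃ f', GSide M S L' f' e' (u + n) := by
  obtain ⟨hsub, N, fN, hB, hQ, hr⟩ := h.lift
  have hN : GSide N S L f e 0 := ⟨h.nodup, h.disj, h.end_eq, lift_of_bic hB, h.last⟩
  obtain ⟨Z, hZ⟩ : ∃ Z, Z = crr L S \ crr L' S := ⟨_, rfl⟩
  rw [← hZ] at hn
  have hL' : crr L' S ⊆ crr L S := by
    rintro x ⟨s, hs, hx⟩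
    exact ⟨s, hs, hm s hs x hx⟩
  have hZR : Z ⊆ crr L S := by rw [hZ]; exact sdiff_subset
  have hZN : Z ⊆ N.E := hZR.trans hB.sub
  have fZ : Z.Finite := N.ground_finite.subset hZN
  have fNZ : (N ／ Z).Finite := BQ.fin_contract _
  have hd : ∀ X ⊆ crr L' S, X ⊆ N.E \ Z := by
    intro X hX x hx
    refine ⟨hB.sub (hL' (hX hx)), fun h1 => ?_⟩
    rw [hZ] at h1
    exact h1.2 (hX hx)
  obtain ⟨f', hf'⟩ := gside_rows hN hnd' hm he' (M' := N ／ Z) (hd _ Subset.rfl) (by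
    intro X _
    rw [hZ])
  refine ⟨f', hf'.nodup, hf'.disj, hf'.end_eq, ⟨hL'.trans hsub, N ／ Z, fNZ, hf'.lift.bic, ?_, ?_⟩,
    he'⟩
  · intro X Y hXY hY
    have h1 := BQ.rk_con hZN (hd X (hXY.trans hY))
    have h2 := BQ.rk_con hZN (hd Y hY)
    have h3 := hQ X Y hXY (hY.trans hL')
    have h4 := rk_submod N Y (X ∪ Z)
    have h5 : Y ∪ (X ∪ Z) = Y ∪ Z := by
      rw [← union_assoc, union_eq_self_of_subset_right hXY]
    have h6 : rk N X ≤ rk N (Y ∩ (X ∪ Z)) := rk_mono N (subset_inter hXY subset_union_left)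
    rw [h5] at h4
    omega
  · intro X hX
    have h1 := BQ.rk_con hZN (hd X hX)
    have h2 := hr X (hX.trans hL')
    have h3 : rk N Z ≤ Z.ncard := rk_le_ncard N fZ
    have h4 : rk N X ≤ rk N (X ∪ Z) := rk_mono N subset_union_left
    omega

end TST
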