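import Pool.Agent.TST.LCore
import Pool.Agent.TST.PDrop
import Pool.Agent.DA.B1L
import Pool.Agent.DA.HealXK

/-!
# P0 (T-star): bounded supports

`pZero`: from a label system to a system in which all elements of `D` have bounded supports.
-/

open Set BIC BICS CWL
open scoped Matroid

namespace TSH

universe u

/-- the average group -/
lemma good_group {α : Type*} {Q t : ℕ} (hQ : 0 < Q) (J : Finset α) (Bad : α → Finset (Fin Q))
    (h : ∀ z ∈ J, t * (Bad z).card ≤ Q) :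
    ∃ a : Fin Q, t * {z | z ∈ J ∧ a ∈ Bad z}.ncard ≤ J.card := by
  classical
  by_contra hcon
  push Not at hcon
  have e1 : ∀ a : Fin Q, {z | z ∈ J ∧ a ∈ Bad z}.ncard = ∑ z ∈ J, if a ∈ Bad z then 1 else 0 := by
    intro a
    rw [← Finset.card_filter, ← Set.ncard_coe_finset]
    congr 1
    ext z
    simp
  have h1 : ∑ a : Fin Q, J.card < ∑ a : Fin Q, t * {z | z ∈ J ∧ a ∈ Bad z}.ncard :=
    Finset.sum_lt_sum_of_nonempty ⟨⟨0, hQ⟩, Finset.mem_univ _⟩ fun a _ => hcon a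
  have h2 : ∑ a : Fin Q, t * {z | z ∈ J ∧ a ∈ Bad z}.ncard ≤ ∑ z ∈ J, Q := by
    rw [← Finset.mul_sum]
    simp only [e1]
    rw [Finset.sum_comm, Finset.mul_sum]
    refine Finset.sum_le_sum fun z hz => ?_
    have h3 : ∑ a : Fin Q, (if a ∈ Bad z then 1 else 0) = (Bad z).card := by
      rw [← Finset.card_filter]
      congr 1
      ext a
      simp
    rw [h3]
    exact h z hz
  rw [Finset.sum_const, Finset.card_univ, Fintype.card_fin, smul_eq_mul] at h1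
  rw [Finset.sum_const, smul_eq_mul] at h2
  rw [mul_comm] at h2
  exact absurd (lt_of_lt_of_le h1 h2) (lt_irrefl _)

lemma exists_deepN (N : Finset (ℕ × ℕ)) (D w : ℕ) (hw : 2 * D + N.card + 2 ≤ w) :
    ∃ v, DA.DeepR (0, 0) (w + 1) (w + 1) D v ∧ v ∉ N := by
  classical
  obtain ⟨F, hF⟩ : ∃ F : Finset (ℕ × ℕ),
      F = (Finset.range (N.card + 1)).image fun i => (D + i, D) := ⟨_, rfl⟩
  have hFc : F.card = N.card + 1 := by
    rw [hF, Finset.card_image_of_injective, Finset.card_range]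
    intro i j hij
    have := (Prod.mk.inj hij).1
    omega
  obtain ⟨v, hv, hvN⟩ := Finset.exists_mem_notMem_of_card_lt_card (s := N) (t := F) (by omega)
  refine ⟨v, ?_, hvN⟩
  rw [hF, Finset.mem_image] at hv
  obtain ⟨i, hi, rfl⟩ := hv
  rw [Finset.mem_range] at hi
  unfold DA.DeepR
  simp only
  omega

/-- a relative basis -/
lemma rel_basis {α : Type*} {M : Matroid α} [M.Finite] {X Y : Set α} (hX : X ⊆ M.E)
    (hY : Y ⊆ M.E) : ∃ J ⊆ X, rk M (J ∪ Y) = rk M (X ∪ Y) ∧ rk M Y + J.ncard = rk M (X ∪ Y) := by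
  obtain ⟨I, hI⟩ := M.exists_isBasis Y hY
  obtain ⟨I', hI', hII⟩ := hI.indep.subset_isBasis_of_subset
    (hI.subset.trans (subset_union_right : Y ⊆ X ∪ Y)) (union_subset hX hY)
  have hIY : I' ∩ Y = I := by
    refine (hI.eq_of_subset_indep (hI'.indep.subset inter_subset_left)
      (subset_inter hII hI.subset) inter_subset_right).symm
  have hJX : I' \ I ⊆ X := by
    intro x hx
    rcases hI'.subset hx.1 with h1 | h1
    · exact h1
    · exact absurd (hIY ▸ ⟨hx.1, h1⟩ : x ∈ I) hx.2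
  have fI' : I'.Finite := M.ground_finite.subset hI'.indep.subset_ground
  have r1 : rk M Y = I.ncard := by
    rw [← rk_indep hI.indep, ← rk_closure Y, ← hI.closure_eq_closure, rk_closure]
  have r2 : rk M (X ∪ Y) = I'.ncard := by
    rw [← rk_indep hI'.indep, ← rk_closure (X ∪ Y), ← hI'.closure_eq_closure, rk_closure]
  have r3 : (I' \ I).ncard + I.ncard = I'.ncard := Set.ncard_sdiff_add_ncard_of_subset hII fI'
  refine ⟨I' \ I, hJX, ?_, by omega⟩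
  refine le_antisymm (rk_mono M (union_subset_union_left _ hJX)) ?_
  rw [r2, ← rk_indep hI'.indep]
  refine rk_mono M ?_
  intro x hx
  by_cases h1 : x ∈ I
  · exact Or.inr (hI.subset h1)
  · exact Or.inl ⟨hx, h1⟩

lemma KB_ncard {α : Type*} (m n : ℕ) (c : ℕ → ℕ → α) : (KB m c (Iio n)).Finite ∧
    (KB m c (Iio n)).ncard ≤ m * n := by
  classical
  have h1 : KB m c (Iio n) ⊆
      (((Finset.range m ×ˢ Finset.range n).image fun p => c p.1 p.2 : Finset α) : Set α) := by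
    rintro x ⟨i, hi, b, hb, rfl⟩
    rw [Finset.coe_image]
    exact ⟨(i, b), by simpa using ⟨hi, hb⟩, rfl⟩
  refine ⟨(Finset.finite_toSet _).subset h1, ?_⟩
  refine (Set.ncard_le_ncard h1 (Finset.finite_toSet _)).trans ?_
  rw [Set.ncard_coe_finset]
  refine Finset.card_image_le.trans ?_
  rw [Finset.card_product, Finset.card_range, Finset.card_range]

/-- **P0.** -/
theorem pZero (k κ : ℕ) : ∃ K D : ℕ, ∀ t, 1 ≤ t → ∃ β w₁ : ℕ,
    ∀ {α : Type u} (M : Matroid α) [M.Finite] (w s σ₂ : ℕ) (𝒯 : Finset (ℕ × ℕ))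
    (L₁ : Bool × ℕ × ℕ → List α) (f₁ : α → Sym2 ((ℕ × ℕ) ⊕ α)) (e₁ : Bool × ℕ × ℕ → α) (u₁ : ℕ)
    (L₂ : Bool × ℕ × ℕ → List α) (f₂ : α → Sym2 ((ℕ × ℕ) ⊕ α)) (e₂ : Bool × ℕ × ℕ → α) (u₂ : ℕ)
    (D₀ : Set α) (n m : ℕ) (τ : ℕ → ℕ × ℕ) (R : ℕ → Bool × ℕ × ℕ) (c : ℕ → ℕ → α)
    (q : ℕ → ℕ → ℕ) (Za : Finset (Bool × ℕ × ℕ)) (n' : ℕ) (row : α → Sym2 (ℕ × ℕ)),
    w₁ ≤ w → u₁ ≤ κ → 3 * K + 1 ≤ n' → n = n' + (3 * K + 1) →
    (∀ r ∈ Seg w, ∀ x ∈ L₁ r, row x = DA.srow r) →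
    LSys M w s σ₂ 𝒯 L₁ f₁ e₁ u₁ L₂ f₂ e₂ u₂ D₀ n m τ R c q Za →
    LCore M w s 𝒯 L₁ f₁ e₁ u₁ L₂ f₂ e₂ u₂ D₀ n m τ c Za →
    HasUniformMinor M k ∨ ∃ (C : Set α) (𝒯' : Finset (ℕ × ℕ)) (L₁' : Bool × ℕ × ℕ → List α)
      (f₁' : α → Sym2 ((ℕ × ℕ) ⊕ α)) (e₁' : Bool × ℕ × ℕ → α) (D₁ : Set α) (ι : ℕ → ℕ),
      C ⊆ M.E ∧ 𝒯' ⊆ 𝒯 ∧ (∀ r ∈ Seg w, ∀ x ∈ L₁' r, x ∈ L₁ r) ∧ (∀ r ∈ Seg w, e₁' r ∈ L₁ r) ∧
      D₁ ⊆ D₀ ∧ (∀ a < n', ∀ b < n', a < b → ι a < ι b) ∧ (∀ b < n', ι b < n) ∧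
      (∀ r ∈ Seg w, ∀ x ∈ L₁' r, x = e₁' r ∨ ∃ i < m, ∃ b < n', R i = r ∧ x = c i (ι b)) ∧
      BSys (M ／ C) w s 𝒯' L₁' f₁' e₁' (u₁ + 3 * K) L₂ f₂ e₂ u₂ D₁ (2 * σ₂ + 2 * (m / t) + 3) n' m
        (fun b => τ (ι b)) R (fun i b => c i (ι b)) Za ∧
      ∀ z ∈ D₁, ∃ N : Finset (ℕ × ℕ), N.card ≤ β ∧ ∀ c₀, c₀ ⊆ crr L₁' (Seg w) →
        DA.WallE c₀ row w ∅ → ∀ v, DA.DeepR (0, 0) (w + 1) (w + 1) D v →
          v ∈ DA.LocR (M ／ C) (crr L₁' (Seg w)) row c₀ z → v ∈ N := by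
  classical
  obtain ⟨K, D, hD, hb⟩ := DA.b1L.{u} k (25 * κ)
  refine ⟨K, D, ?_⟩
  intro t ht
  obtain ⟨β, hb⟩ := hb t ht
  refine ⟨β, 5 * κ + 4 + 2 * D + β + 2, ?_⟩
  intro α M _ w s σ₂ 𝒯 L₁ f₁ e₁ u₁ L₂ f₂ e₂ u₂ D₀ n m τ R c q Za n' row hw hu hn' hn hrow hL hC
  have hG := hL.pair.s₁
  have hG₂ := hC.pair.s₂
  obtain ⟨S, hSd⟩ : ∃ S, S = crr L₁ (Seg w) := ⟨_, rfl⟩
  have hSE : S ⊆ M.E := by rw [hSd]; exact hG.sub_ground
  obtain ⟨Hs, hHs, hLW, _⟩ := DA.GSide.healX hG (by omega) hrow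
  have hDc := hL.D_cl
  have hDS := hL.D₁
  rw [← hSd] at hLW hDc hDS
  have hD₀E : D₀ ⊆ M.E := hDc.trans (M.closure_subset_ground _)
  rcases hb M S row w Hs D₀ (by omega) (hHs.trans (Nat.mul_le_mul_left _ hu)) hLW hDc hDS with
    hU | ⟨Q, B, St', hQ, hBD, hBK, hStS', hStc', hSti', _, hrk', hgood⟩
  · exact Or.inl hU
  right
  choose! Bad hBad hgood using hgood
  -- the basis and the group
  obtain ⟨Kn, hKn⟩ : ∃ Kn, Kn = KB m c (Iio n) := ⟨_, rfl⟩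
  obtain ⟨fKn, cKn⟩ := KB_ncard m n c
  rw [← hKn] at fKn cKn
  have hcS : ∀ i < m, ∀ b < n, c i b ∈ S := by
    intro i hi b hb
    obtain ⟨h1, h2⟩ := hL.pos i hi b hb
    rw [hSd]
    exact ⟨R i, hL.row i hi, by rw [← h2]; exact List.getElem_mem _⟩
  have hcR : ∀ i < m, ∀ b < n, c i b ∈ L₁ (R i) := by
    intro i hi b hb
    obtain ⟨h1, h2⟩ := hL.pos i hi b hb
    rw [← h2]
    exact List.getElem_mem _
  have hV2 := hL.V2 (Finset.range n) (by simp)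
  have e0 : ((Finset.range n : Finset ℕ) : Set ℕ) = Iio n := by
    ext b
    simp
  rw [e0, Finset.card_range, ← hSd, ← hKn] at hV2
  have fS : S.Finite := M.ground_finite.subset hSE
  have fD₀ : D₀.Finite := M.ground_finite.subset hD₀E
  obtain ⟨J, hJD, hJr, hJc⟩ := rel_basis (M := M) hD₀E (sdiff_subset.trans hSE : S \ Kn ⊆ M.E)
  have fJ : J.Finite := fD₀.subset hJD
  have hrS : rk M (D₀ ∪ (S \ Kn)) ≤ rk M S := by
    refine (rk_mono M (union_subset hDc (sdiff_subset.trans (M.subset_closure S hSE)))).trans ?_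
    rw [rk_closure]
  have hrK : rk M S ≤ rk M (S \ Kn) + Kn.ncard := by
    refine (rk_mono M (fun x hx => ?_ : S ⊆ (S \ Kn) ∪ Kn)).trans (BIC.rk_union_le (M := M) fKn)
    by_cases h1 : x ∈ Kn
    · exact Or.inr h1
    · exact Or.inl ⟨hx, h1⟩
  have hJn : J.ncard ≤ m * n := by omega
  obtain ⟨a, ha⟩ := good_group (by omega : 0 < Q) fJ.toFinset Bad (by
    intro z hz
    rw [Set.Finite.mem_toFinset] at hz
    exact hBad z (hJD hz))
  rw [← Set.ncard_eq_toFinset_card _ fJ] at ha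
  simp only [Set.Finite.mem_toFinset] at ha
  obtain ⟨St, hSt⟩ : ∃ St, St = St' a := ⟨_, rfl⟩
  have hStS : St ⊆ S := by rw [hSt]; exact hStS' a
  have hStc : St.ncard ≤ 3 * K := by rw [hSt]; exact hStc' a
  have hSti : InjOn row St := by rw [hSt]; exact hSti' a
  have hrk : rk M (S \ St ∪ B) = rk M (S \ St) + B.ncard := by rw [hSt]; exact hrk' a
  have fSt : St.Finite := fS.subset hStS
  -- the tiles
  obtain ⟨Bt, hBt⟩ : ∃ Bt : Finset ℕ, Bt = (Finset.range n).filter fun b =>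
      b = 0 ∨ ∃ i < m, c i b ∈ St := ⟨_, rfl⟩
  have hBtc : Bt.card ≤ 3 * K + 1 := by
    have h1 : Bt ⊆ insert 0 ((Finset.range n).filter fun b => ∃ i < m, c i b ∈ St) := by
      intro b hb
      rw [hBt, Finset.mem_filter] at hb
      rw [Finset.mem_insert, Finset.mem_filter]
      rcases hb.2 with h2 | h2
      · exact Or.inl h2
      · exact Or.inr ⟨hb.1, h2⟩
    refine (Finset.card_le_card h1).trans ((Finset.card_insert_le _ _).trans
      (Nat.add_le_add_right ?_ 1))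
    have h2 : ∀ b ∈ (Finset.range n).filter fun b => ∃ i < m, c i b ∈ St,
        ∃ i < m, c i b ∈ St := fun b hb => (Finset.mem_filter.1 hb).2
    choose! i hi him using h2
    refine le_trans ?_ hStc
    rw [← Set.ncard_coe_finset]
    refine Set.ncard_le_ncard_of_injOn (fun b => c (i b) b) (fun b hb => him b hb) ?_ fSt
    intro b hb b' hb' hbb
    exact (hL.inj (i b) (hi b hb) b (Finset.mem_range.1 (Finset.mem_filter.1 hb).1) (i b')
      (hi b' hb') b' (Finset.mem_range.1 (Finset.mem_filter.1 hb').1) hbb).2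
  obtain ⟨T, hTB, hTc⟩ : ∃ T ⊆ Finset.range n \ Bt, T.card = n' := by
    refine Finset.exists_subset_card_eq ?_
    have h1 : Bt ⊆ Finset.range n := by rw [hBt]; exact Finset.filter_subset _ _
    rw [Finset.card_sdiff_of_subset h1, Finset.card_range]
    omega
  have hTn : ∀ b ∈ T, b < n := fun b hb =>
    Finset.mem_range.1 (Finset.mem_sdiff.1 (hTB hb)).1
  have hT0 : ∀ b ∈ T, b ≠ 0 := by
    intro b hb h0
    refine (Finset.mem_sdiff.1 (hTB hb)).2 ?_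
    rw [hBt, Finset.mem_filter]
    exact ⟨(Finset.mem_sdiff.1 (hTB hb)).1, Or.inl h0⟩
  have hTSt : ∀ b ∈ T, ∀ i < m, c i b ∉ St := by
    intro b hb i hi h0
    refine (Finset.mem_sdiff.1 (hTB hb)).2 ?_
    rw [hBt, Finset.mem_filter]
    exact ⟨(Finset.mem_sdiff.1 (hTB hb)).1, Or.inr ⟨i, hi, h0⟩⟩
  obtain ⟨ι, hι⟩ : ∃ ι : ℕ → ℕ, ∀ b, ι b = if h : b < n' then T.orderEmbOfFin hTc ⟨b, h⟩ else 0 :=
    ⟨_, fun _ => rfl⟩
  have hιT : ∀ b < n', ι b ∈ T := by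
    intro b hb
    rw [hι, dif_pos hb]
    exact Finset.orderEmbOfFin_mem _ _ _
  have hιs : ∀ x ∈ T, ∃ b < n', ι b = x := by
    intro x hx
    have h1 : x ∈ Set.range (T.orderEmbOfFin hTc) := by
      rw [Finset.range_orderEmbOfFin]
      exact hx
    obtain ⟨b, hb⟩ := h1
    exact ⟨b.1, b.2, by rw [hι, dif_pos b.2]; exact hb⟩
  have hιm : ∀ a < n', ∀ b < n', a < b → ι a < ι b := by
    intro a' ha' b hb hab
    rw [hι, hι, dif_pos ha', dif_pos hb]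
    exact (T.orderEmbOfFin hTc).lt_iff_lt.2 hab
  have hιi : ∀ a < n', ∀ b < n', ι a = ι b → a = b := by
    intro a' ha' b hb hab
    rcases Nat.lt_trichotomy a' b with h1 | h1 | h1
    · have := hιm a' ha' b hb h1
      omega
    · exact h1
    · have := hιm b hb a' ha' h1
      omega
  have hn0 : 0 < n := by omega
  -- the anchors
  have hcov := hL.cov
  choose! lab hlab hlabR using hcov
  obtain ⟨e₁', he₁'⟩ : ∃ e₁' : Bool × ℕ × ℕ → α,
      ∀ r, e₁' r = if e₁ r ∈ St then c (lab r) 0 else e₁ r := ⟨_, fun _ => rfl⟩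
  have he1L : ∀ r ∈ Seg w, e₁ r ∈ L₁ r := fun r hr => hG.mem_last hr
  have hl0 : ∀ r ∈ Seg w, c (lab r) 0 ∈ L₁ r := by
    intro r hr
    have h3 := hcR (lab r) (hlab r hr) 0 hn0
    rwa [hlabR r hr] at h3
  have heL : ∀ r ∈ Seg w, e₁' r ∈ L₁ r := by
    intro r hr
    rw [he₁']
    split_ifs with h1
    · exact hl0 r hr
    · exact he1L r hr
  have heSt : ∀ r ∈ Seg w, e₁' r ∉ St := by
    intro r hr
    rw [he₁']
    split_ifs with h1
    · intro h2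
      have h4 := hSti h1 h2 (by rw [hrow r hr _ (he1L r hr), hrow r hr _ (hl0 r hr)])
      exact hL.anc (lab r) (hlab r hr) 0 hn0 r hr h4.symm
    · exact h1
  obtain ⟨A, hA⟩ : ∃ A, A = e₁' '' Seg w := ⟨_, rfl⟩
  obtain ⟨Zc, hZc⟩ : ∃ Zc, Zc = KB m c {b | b < n ∧ b ∉ T} \ (St ∪ A) := ⟨_, rfl⟩
  have hZK : Zc ⊆ KB m c {b | b < n ∧ b ∉ T} := by rw [hZc]; exact sdiff_subset
  have hKBS : ∀ X : Set ℕ, (∀ b ∈ X, b < n) → KB m c X ⊆ S := by
    rintro X hX x ⟨i, hi, b, hb, rfl⟩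
    exact hcS i hi b (hX b hb)
  have hZS : Zc ⊆ S \ St := by
    intro x hx
    refine ⟨hKBS _ (fun b hb => hb.1) (hZK hx), fun h1 => ?_⟩
    rw [hZc] at hx
    exact hx.2 (Or.inl h1)
  have hZe : ∀ r ∈ Seg w, e₁' r ∉ Zc := by
    intro r hr h1
    rw [hZc, hA] at h1
    exact h1.2 (Or.inr ⟨r, hr, rfl⟩)
  obtain ⟨C, hCd⟩ : ∃ C, C = B ∪ Zc := ⟨_, rfl⟩
  have hCE : C ⊆ M.E := by
    rw [hCd]
    exact union_subset (hBD.trans hD₀E) (hZS.trans (sdiff_subset.trans hSE))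
  -- the rows
  obtain ⟨Lm, hLm⟩ : ∃ Lm : Bool × ℕ × ℕ → List α, ∀ r, Lm r =
      (L₁ r).filter (fun x => x ∉ St ∧ x ≠ e₁' r) ++ [e₁' r] := ⟨_, fun _ => rfl⟩
  obtain ⟨L', hL'⟩ : ∃ L' : Bool × ℕ × ℕ → List α, ∀ r, L' r =
      (L₁ r).filter (fun x => x ∉ St ∧ x ∉ Zc ∧ x ≠ e₁' r) ++ [e₁' r] := ⟨_, fun _ => rfl⟩
  have mLm : ∀ r ∈ Seg w, ∀ x, x ∈ Lm r ↔ x ∈ L₁ r ∧ x ∉ St := by
    intro r hr x
    rw [hLm, List.mem_append, List.mem_filter, List.mem_singleton]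
    simp only [decide_eq_true_eq]
    constructor
    · rintro (h1 | rfl)
      · exact ⟨h1.1, h1.2.1⟩
      · exact ⟨heL r hr, heSt r hr⟩
    · intro h1
      by_cases h2 : x = e₁' r
      · exact Or.inr h2
      · exact Or.inl ⟨h1.1, h1.2, h2⟩
  have mL' : ∀ r ∈ Seg w, ∀ x, x ∈ L' r ↔ x ∈ L₁ r ∧ x ∉ St ∧ x ∉ Zc := by
    intro r hr x
    rw [hL', List.mem_append, List.mem_filter, List.mem_singleton]
    simp only [decide_eq_true_eq]
    constructor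
    · rintro (h1 | rfl)
      · exact ⟨h1.1, h1.2.1, h1.2.2.1⟩
      · exact ⟨heL r hr, heSt r hr, hZe r hr⟩
    · intro h1
      by_cases h2 : x = e₁' r
      · exact Or.inr h2
      · exact Or.inl ⟨h1.1, h1.2.1, h1.2.2, h2⟩
  have ndm : ∀ r ∈ Seg w, (Lm r).Nodup := by
    intro r hr
    rw [hLm]
    refine List.nodup_append.2 ⟨(hG.nodup r hr).filter _, List.nodup_singleton _, ?_⟩
    intro x hx y hy hxy
    rw [List.mem_filter] at hx
    rw [List.mem_singleton] at hy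
    simp only [decide_eq_true_eq] at hx
    exact hx.2.2 (hxy.trans hy)
  have nd' : ∀ r ∈ Seg w, (L' r).Nodup := by
    intro r hr
    rw [hL']
    refine List.nodup_append.2 ⟨(hG.nodup r hr).filter _, List.nodup_singleton _, ?_⟩
    intro x hx y hy hxy
    rw [List.mem_filter] at hx
    rw [List.mem_singleton] at hy
    simp only [decide_eq_true_eq] at hx
    exact hx.2.2.2 (hxy.trans hy)
  have cm : crr Lm (Seg w) = S \ St := by
    rw [hSd]
    ext x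
    constructor
    · rintro ⟨r, hr, hx⟩
      rw [mLm r hr] at hx
      exact ⟨⟨r, hr, hx.1⟩, hx.2⟩
    · rintro ⟨⟨r, hr, hx⟩, h1⟩
      exact ⟨r, hr, (mLm r hr x).2 ⟨hx, h1⟩⟩
  have c' : crr L' (Seg w) = (S \ St) \ Zc := by
    rw [hSd]
    ext x
    constructor
    · rintro ⟨r, hr, hx⟩
      rw [mL' r hr] at hx
      exact ⟨⟨⟨r, hr, hx.1⟩, hx.2.1⟩, hx.2.2⟩
    · rintro ⟨⟨⟨r, hr, hx⟩, h1⟩, h2⟩
      exact ⟨r, hr, (mL' r hr x).2 ⟨hx, h1, h2⟩⟩
  obtain ⟨f₁m, gm⟩ := TST.gside_drop hG ndm (fun r hr x hx => ((mLm r hr x).1 hx).1)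
    (e' := e₁') (fun r _ => by rw [hLm, List.getLast?_concat]) (n := 3 * K) (by
      rw [cm, ← hSd, Set.sdiff_sdiff_right_self]
      refine (Set.ncard_le_ncard inter_subset_right fSt).trans hStc)
  -- ranks
  have fB : B.Finite := fD₀.subset hBD
  have hskew : ∀ Y ⊆ S \ St, rk M (Y ∪ B) = rk M Y + B.ncard := by
    intro Y hY
    have h1 := rk_submod M (Y ∪ B) (S \ St)
    have h2 : (Y ∪ B) ∪ (S \ St) = S \ St ∪ B := by
      ext x
      simp only [mem_union]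
      constructor
      · rintro ((h1 | h1) | h1)
        · exact Or.inl (hY h1)
        · exact Or.inr h1
        · exact Or.inl h1
      · rintro (h1 | h1)
        · exact Or.inr h1
        · exact Or.inl (Or.inr h1)
    have h3 : rk M Y ≤ rk M ((Y ∪ B) ∩ (S \ St)) := rk_mono M (subset_inter subset_union_left hY)
    have h4 := BIC.rk_union_le (M := M) (X := Y) (Y := B) fB
    rw [h2] at h1
    omega
  have hXd : ∀ X ⊆ crr L' (Seg w), X ⊆ M.E \ C := by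
    intro X hX x hx
    have h1 := hX hx
    rw [c'] at h1
    refine ⟨hSE h1.1.1, fun h2 => ?_⟩
    rw [hCd] at h2
    rcases h2 with h2 | h2
    · exact Set.disjoint_left.1 hDS (hBD h2) h1.1.1
    · exact h1.2 h2
  have fMC : (M ／ C).Finite := BQ.fin_contract _
  obtain ⟨f₁', g'⟩ := TST.gside_rows gm nd' (fun r hr x hx => by
      have h1 := (mL' r hr x).1 hx
      exact (mLm r hr x).2 ⟨h1.1, h1.2.1⟩) (e' := e₁') (fun r _ => by
      rw [hL', List.getLast?_concat]) (M' := M ／ C) (hXd _ Subset.rfl) (by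
      intro X hX
      have h0 : crr Lm (Seg w) \ crr L' (Seg w) = Zc := by
        rw [cm, c', Set.sdiff_sdiff_right_self]
        exact inter_eq_self_of_subset_right hZS
      rw [h0]
      have hXS : X ⊆ S \ St := by
        rw [c'] at hX
        exact hX.trans sdiff_subset
      have h1 := BQ.rk_con hCE (hXd X hX)
      have h2 := BQ.rk_con (M := M) (C := Zc) (X := X) (hZS.trans (sdiff_subset.trans hSE)) (by
        intro x hx
        have h2 := hX hx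
        rw [c'] at h2
        exact ⟨hSE h2.1.1, h2.2⟩)
      have h3 := hskew Zc hZS
      have h4 := hskew (X ∪ Zc) (union_subset hXS hZS)
      have h5 : Zc ∪ B = C := by rw [hCd, union_comm]
      have h6 : X ∪ Zc ∪ B = X ∪ C := by rw [union_assoc, h5]
      rw [h5] at h3
      rw [h6] at h4
      omega)
  -- labels
  have hKT : ∀ Y : Finset ℕ, KB m (fun i b => c i (ι b)) (Y : Set ℕ) =
      KB m c ((Y.image ι : Finset ℕ) : Set ℕ) := by
    intro Y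
    ext x
    constructor
    · rintro ⟨i, hi, b, hb, rfl⟩
      exact ⟨i, hi, ι b, by rw [Finset.coe_image]; exact ⟨b, hb, rfl⟩, rfl⟩
    · rintro ⟨i, hi, b, hb, rfl⟩
      rw [Finset.coe_image] at hb
      obtain ⟨b', hb', rfl⟩ := hb
      exact ⟨i, hi, b', hb', rfl⟩
  have hTT : (Finset.range n').image ι = T := by
    ext x
    rw [Finset.mem_image]
    constructor
    · rintro ⟨b, hb, rfl⟩
      exact hιT b (Finset.mem_range.1 hb)
    · intro hx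
      obtain ⟨b, hb, hbx⟩ := hιs x hx
      exact ⟨b, Finset.mem_range.2 hb, hbx⟩
  have e0' : ((Finset.range n' : Finset ℕ) : Set ℕ) = Iio n' := by
    ext b
    simp
  have hKZ : ∀ Y : Set ℕ, Y ⊆ (T : Set ℕ) → ∀ x ∈ Zc, x ∉ KB m c Y := by
    rintro Y hY x hx ⟨i, hi, b, hb, rfl⟩
    obtain ⟨i', hi', b', hb', h1⟩ := hZK hx
    have h2 := (hL.inj i hi b (hTn b (hY hb)) i' hi' b' hb'.1 h1).2
    exact hb'.2 (h2 ▸ hY hb)
  have hKSt : ∀ Y : Set ℕ, Y ⊆ (T : Set ℕ) → ∀ x ∈ St, x ∉ KB m c Y := by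
    rintro Y hY x hx ⟨i, hi, b, hb, rfl⟩
    exact hTSt b (hY hb) i hi hx
  -- the elements of `D`
  obtain ⟨D₁, hD₁⟩ : ∃ D₁ : Set α, D₁ = {z | z ∈ D₀ ∧ z ∉ B ∧ a ∉ Bad z} := ⟨_, rfl⟩
  have hDD : D₁ ⊆ D₀ := by rw [hD₁]; exact fun z hz => hz.1
  have hDC : ∀ z ∈ D₁, z ∉ C := by
    intro z hz h1
    rw [hCd] at h1
    rcases h1 with h1 | h1
    · rw [hD₁] at hz
      exact hz.2.1 h1
    · exact Set.disjoint_left.1 hDS (hDD hz) (hZS h1).1
  have hsupp : ∀ z ∈ D₁, ∃ N : Finset (ℕ × ℕ), N.card ≤ β ∧ ∀ c₀, c₀ ⊆ S →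
      DA.WallE c₀ row w ∅ → ∀ v, DA.DeepR (0, 0) (w + 1) (w + 1) D v → v ∉ N →
        z ∈ (M ／ C).closure (crr L' (Seg w) \ {e | e ∈ c₀ ∧ v ∈ row e}) := by
    intro z hz
    have hz' := hz
    rw [hD₁] at hz'
    obtain ⟨N, hN, h1⟩ := hgood z hz'.1 a hz'.2.2
    refine ⟨N, hN, ?_⟩
    intro c₀ hc₀ hW v hv hvN
    have h2 := h1 c₀ hc₀ hW v hv hvN
    rw [Matroid.contract_closure_eq]
    refine ⟨M.closure_subset_closure ?_ h2, hDC z hz⟩
    rw [← hSt, c', hCd]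
    rintro x (hx | hx)
    · by_cases h3 : x ∈ Zc
      · exact Or.inr (Or.inr h3)
      · exact Or.inl ⟨⟨hx.1, h3⟩, hx.2⟩
    · exact Or.inr (Or.inl hx)
  obtain ⟨c₁, hc₁, hW₁⟩ := hLW.exists_rep
  have hDcl : D₁ ⊆ (M ／ C).closure (crr L' (Seg w)) := by
    intro z hz
    obtain ⟨N, hN, h1⟩ := hsupp z hz
    obtain ⟨v, hv, hvN⟩ := exists_deepN N D w (by omega)
    exact (M ／ C).closure_subset_closure sdiff_subset (h1 c₁ hc₁ hW₁ v hv hvN)
  have hD₁E : D₁ ⊆ M.E \ C := fun z hz => ⟨hD₀E (hDD hz), hDC z hz⟩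
  -- columns
  obtain ⟨𝒯', h𝒯'⟩ : ∃ 𝒯' : Finset (ℕ × ℕ), 𝒯' = (Finset.range n').image fun b => τ (ι b) :=
    ⟨_, rfl⟩
  have h𝒯s : 𝒯' ⊆ 𝒯 := by
    intro x hx
    rw [h𝒯', Finset.mem_image] at hx
    obtain ⟨b, hb, rfl⟩ := hx
    exact hL.tau _ (hTn _ (hιT b (Finset.mem_range.1 hb)))
  have hcore : ∀ σ ∈ cores s 𝒯', ∃ b ∈ T, σ ∈ shS (τ b).1 (τ b).2 '' core (s + 2) := by
    rintro σ ⟨t', ht', hσ⟩
    rw [h𝒯', Finset.mem_image] at ht'
    obtain ⟨b, hb, rfl⟩ := ht'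
    exact ⟨ι b, hιT b (Finset.mem_range.1 hb), hσ⟩
  have hcs : cores s 𝒯' ⊆ cores s 𝒯 := by
    rintro σ ⟨t', ht', hσ⟩
    exact ⟨t', h𝒯s ht', hσ⟩
  have hccol : ∀ x ∈ S, x ∈ crr L₂ (cores s 𝒯') → ∃ i < m, ∃ b ∈ T, x = c i b := by
    rintro x hxS ⟨σ, hσ, hx⟩
    obtain ⟨b, hb, hσb⟩ := hcore σ hσ
    obtain ⟨i, hi, h1⟩ := hC.tile b (hTn b hb) x (hSd ▸ hxS) ⟨σ, hσb, hx⟩
    exact ⟨i, hi, b, hb, h1⟩
  have hze : ∀ r ∈ Seg w, e₁' r ∉ crr L₂ (cores s 𝒯') := by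
    intro r hr h1
    rw [he₁'] at h1
    split_ifs at h1 with h2
    · obtain ⟨i, hi, b, hb, h3⟩ := hccol _ (hcS _ (hlab r hr) 0 hn0) h1
      have h4 := (hL.inj _ (hlab r hr) 0 hn0 i hi b (hTn b hb) h3).2
      exact hT0 b hb h4.symm
    · exact hC.ze r hr (crr_mono hcs h1)
  have hdC : Disjoint (crr L₂ (cores s 𝒯')) C := by
    rw [Set.disjoint_left]
    intro x hx h1
    rw [hCd] at h1
    rcases h1 with h1 | h1
    · exact Set.disjoint_left.1 hC.D₂ (hBD h1) (crr_mono hcs hx)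
    · obtain ⟨i, hi, b, hb, h2⟩ := hccol x (hZS h1).1 hx
      exact hKZ _ Subset.rfl x h1 ⟨i, hi, b, hb, h2⟩
  have hG₂' : GSide (M ／ C)✶ (cores s 𝒯') L₂ f₂ e₂ u₂ := by
    rw [Matroid.dual_contract]
    exact (hG₂.subset hcs).delete hdC
  refine ⟨C, 𝒯', L', f₁', e₁', D₁, ι, hCE, h𝒯s, fun r hr x hx => ((mL' r hr x).1 hx).1, heL, hDD,
    hιm, fun b hb => hTn _ (hιT b hb), ?_, ?_, ?_⟩
  · intro r hr x hx
    have h1 := (mL' r hr x).1 hx
    rcases hL.all r hr x h1.1 with h2 | ⟨i, hi, b, hb, h2, h3⟩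
    · left
      rw [he₁', if_neg (by rw [← h2]; exact h1.2.1)]
      exact h2
    · by_cases h4 : b ∈ T
      · obtain ⟨b', hb', h5⟩ := hιs b h4
        right
        exact ⟨i, hi, b', hb', h2, by rw [h5]; exact h3⟩
      · left
        by_contra h5
        apply h1.2.2
        rw [hZc]
        refine ⟨⟨i, hi, b, ⟨hb, h4⟩, h3⟩, ?_⟩
        rintro (h6 | h6)
        · exact h1.2.1 h6
        · rw [hA] at h6
          obtain ⟨r', hr', h7⟩ := h6
          have h8 : r = r' := hG.uniq hr hr' h1.1 (by rw [← h7]; exact heL r' hr')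
          rw [h8] at h5
          exact h5 h7.symm
  · refine ⟨⟨g', hG₂', ?_⟩, ?_, ?_, hL.row, ?_, ?_, ?_, ?_, ?_, ?_, ?_, hze, hDcl, ?_, ?_, ?_, ?_⟩
    · rw [Set.disjoint_left]
      rintro _ ⟨r, hr, rfl⟩ ⟨σ, hσ, h2⟩
      exact hze r hr (by rw [← h2]; exact hG₂'.e_sub ⟨σ, hσ, rfl⟩)
    · intro b hb
      rw [h𝒯', Finset.mem_image]
      exact ⟨b, Finset.mem_range.2 hb, rfl⟩
    · intro b hb b' hb' hbb
      exact hιi b hb b' hb' (hL.tinj _ (hTn _ (hιT b hb)) _ (hTn _ (hιT b' hb')) hbb)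
    · intro i hi b hb
      refine (mL' _ (hL.row i hi) _).2 ⟨hcR i hi _ (hTn _ (hιT b hb)),
        hTSt _ (hιT b hb) i hi, fun h1 => ?_⟩
      exact hKZ _ Subset.rfl _ h1 ⟨i, hi, ι b, hιT b hb, rfl⟩
    · intro i hi b hb
      exact hC.lab i hi _ (hTn _ (hιT b hb))
    · intro i hi b hb i' hi' b' hb' h1
      have h2 := hL.inj i hi _ (hTn _ (hιT b hb)) i' hi' _ (hTn _ (hιT b' hb')) h1
      exact ⟨h2.1, hιi b hb b' hb' h2.2⟩
    · intro i hi b hb r hr h1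
      rw [he₁'] at h1
      split_ifs at h1 with h2
      · have h3 := (hL.inj i hi _ (hTn _ (hιT b hb)) _ (hlab r hr) 0 hn0 h1).2
        exact hT0 _ (hιT b hb) h3
      · exact hL.anc i hi _ (hTn _ (hιT b hb)) r hr h1
    · intro r hr _ x hx
      have h1 := (mL' r hr x).1 hx
      rcases hL.all r hr x h1.1 with h2 | ⟨i, hi, b, hb, h2, h3⟩
      · left
        rw [he₁', if_neg (by rw [← h2]; exact h1.2.1)]
        exact h2
      · by_cases h4 : b ∈ T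
        · obtain ⟨b', hb', h5⟩ := hιs b h4
          right
          exact ⟨i, hi, b', hb', by rw [h5]; exact h3⟩
        · left
          by_contra h5
          apply h1.2.2
          rw [hZc]
          refine ⟨⟨i, hi, b, ⟨hb, h4⟩, h3⟩, ?_⟩
          rintro (h6 | h6)
          · exact h1.2.1 h6
          · rw [hA] at h6
            obtain ⟨r', hr', h7⟩ := h6
            have h8 : r = r' := hG.uniq hr hr' h1.1 (by rw [← h7]; exact heL r' hr')
            rw [h8] at h5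
            exact h5 h7.symm
    · intro b hb x hx hx'
      rw [c'] at hx
      exact hC.tile _ (hTn _ (hιT b hb)) x (hSd ▸ hx.1.1) hx'
    · intro σ hσ r hr h1
      obtain ⟨b, hb, σ', hσ', rfl⟩ := hcore σ hσ
      exact hC.anchor b (hTn b hb) σ' hσ' r hr ((mL' r hr _).1 h1).1
    · rw [c']
      exact (hDS.mono_left hDD).mono_right (sdiff_subset.trans sdiff_subset)
    · exact (hC.D₂.mono_left hDD).mono_right (crr_mono hcs)
    · -- V1
      intro Y I hY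
      obtain ⟨κi, hκ⟩ : ∃ g : ℕ → ℕ, ∀ b < n', g (ι b) = b := by
        refine ⟨fun x => if h : ∃ b < n', ι b = x then h.choose else 0, ?_⟩
        intro b hb
        have hex : ∃ b' < n', ι b' = ι b := ⟨b, hb, rfl⟩
        simp only [dif_pos hex]
        exact hιi _ hex.choose_spec.1 b hb hex.choose_spec.2
      have hYT : (((Y.image ι : Finset ℕ) : Set ℕ)) ⊆ (T : Set ℕ) := by
        intro x hx
        rw [Finset.coe_image] at hx
        obtain ⟨b, hb, rfl⟩ := hx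
        exact hιT b (hY b hb).1
      have h1 := hL.V1 (Y.image ι) (fun x => I (κi x)) (by
        intro x hx
        rw [Finset.mem_image] at hx
        obtain ⟨b, hb, rfl⟩ := hx
        refine ⟨hTn _ (hιT b (hY b hb).1), ?_⟩
        rw [hκ b (hY b hb).1]
        exact (hY b hb).2)
      rw [Finset.card_image_of_injOn (fun b hb b' hb' h => hιi b (hY b hb).1 b' (hY b' hb').1 h),
        ← hSd] at h1
      have e1 : (fun x => c (I (κi x)) x) '' ((Y.image ι : Finset ℕ) : Set ℕ) =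
          (fun b => c (I b) (ι b)) '' (Y : Set ℕ) := by
        rw [Finset.coe_image, image_image]
        refine image_congr fun b hb => ?_
        rw [hκ b (hY b hb).1]
      rw [e1] at h1
      rw [hKT]
      obtain ⟨W, hW⟩ : ∃ W, W = (fun b => c (I b) (ι b)) '' (Y : Set ℕ) := ⟨_, rfl⟩
      obtain ⟨K', hK'⟩ : ∃ K', K' = KB m c ((Y.image ι : Finset ℕ) : Set ℕ) := ⟨_, rfl⟩
      rw [← hW, ← hK'] at h1 ⊢
      have hKZ' : ∀ x ∈ Zc, x ∉ K' := by
        rw [hK']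
        exact hKZ _ hYT
      have hWl : W ⊆ crr L' (Seg w) := by
        rw [hW]
        rintro _ ⟨b, hb, rfl⟩
        refine ⟨R (I b), hL.row _ (hY b hb).2, (mL' _ (hL.row _ (hY b hb).2) _).2
          ⟨hcR _ (hY b hb).2 _ (hTn _ (hιT b (hY b hb).1)), hTSt _ (hιT b (hY b hb).1) _
            (hY b hb).2, fun h2 => ?_⟩⟩
        exact hKZ _ Subset.rfl _ h2 ⟨_, (hY b hb).2, _, hιT b (hY b hb).1, rfl⟩
      obtain ⟨X, hX⟩ : ∃ X, X = D₁ ∪ (crr L' (Seg w) \ K') := ⟨_, rfl⟩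
      have hXE : X ⊆ M.E \ C := by
        rw [hX]
        exact union_subset hD₁E (hXd _ sdiff_subset)
      rw [← hX]
      have h2 := BQ.rk_con hCE hXE
      have h3 := BQ.rk_con (M := M) hCE (X := W ∪ X) (union_subset (hXd _ hWl) hXE)
      obtain ⟨X₀, hX₀⟩ : ∃ X₀, X₀ = D₀ ∪ (S \ K') := ⟨_, rfl⟩
      rw [← hX₀] at h1
      have hXC : X ∪ C ⊆ X₀ := by
        rw [hX, hX₀, hCd, c']
        rintro x ((hx | hx) | (hx | hx))
        · exact Or.inl (hDD hx)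
        · exact Or.inr ⟨hx.1.1.1, hx.2⟩
        · exact Or.inl (hBD hx)
        · exact Or.inr ⟨(hZS hx).1, hKZ' x hx⟩
      have h4 := rk_submod M (W ∪ X ∪ C) X₀
      have h5 : W ∪ X ∪ C ∪ X₀ = W ∪ X₀ := by
        rw [union_assoc W, union_assoc W, union_eq_self_of_subset_left hXC]
      have h6 : rk M (X ∪ C) ≤ rk M ((W ∪ X ∪ C) ∩ X₀) := rk_mono M (subset_inter (by
        rw [union_assoc]
        exact subset_union_right) hXC)
      rw [h5] at h4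
      omega
    · -- V2
      rw [← e0', hKT, hTT]
      obtain ⟨K', hK'⟩ : ∃ K', K' = KB m c (T : Set ℕ) := ⟨_, rfl⟩
      rw [← hK']
      have hK'n : K' ⊆ Kn := by
        rw [hK', hKn]
        rintro x ⟨i, hi, b, hb, rfl⟩
        exact ⟨i, hi, b, hTn b hb, rfl⟩
      have h1 := BQ.rk_con hCE (hXd _ Subset.rfl)
      have hXE : D₁ ∪ (crr L' (Seg w) \ K') ⊆ M.E \ C := union_subset hD₁E (hXd _ sdiff_subset)
      have h2 := BQ.rk_con hCE hXE
      have h3 : rk M (crr L' (Seg w) ∪ C) ≤ rk M S := by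
        rw [← rk_closure (M := M) S]
        refine rk_mono M ?_
        rw [c', hCd]
        rintro x (hx | hx | hx)
        · exact M.subset_closure S hSE hx.1.1
        · exact hDc (hBD hx)
        · exact M.subset_closure S hSE (hZS hx).1
      obtain ⟨Jb, hJb⟩ : ∃ Jb, Jb = {z | z ∈ J ∧ a ∈ Bad z} := ⟨_, rfl⟩
      have fJb : Jb.Finite := fJ.subset (by rw [hJb]; exact fun z hz => hz.1)
      have h4 : J ∪ (S \ Kn) ⊆ (D₁ ∪ (crr L' (Seg w) \ K') ∪ C) ∪ (Jb ∪ St) := by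
        rw [c', hCd, hD₁, hJb]
        rintro x (hx | hx)
        · by_cases g1 : a ∈ Bad x
          · exact Or.inr (Or.inl ⟨hx, g1⟩)
          · by_cases g2 : x ∈ B
            · exact Or.inl (Or.inr (Or.inl g2))
            · exact Or.inl (Or.inl (Or.inl ⟨hJD hx, g2, g1⟩))
        · by_cases g1 : x ∈ St
          · exact Or.inr (Or.inr g1)
          · refine Or.inl (Or.inl (Or.inr ⟨⟨⟨hx.1, g1⟩, fun g2 => ?_⟩, fun g2 => hx.2 (hK'n g2)⟩))
            apply hx.2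
            rw [hKn]
            obtain ⟨i, hi, b, hb, g3⟩ := hZK g2
            exact ⟨i, hi, b, hb.1, g3⟩
      have h5 := (rk_mono M h4).trans (BIC.rk_union_le (M := M) (fJb.union fSt))
      have h6 : (Jb ∪ St).ncard ≤ Jb.ncard + St.ncard := Set.ncard_union_le _ _
      rw [← hJb] at ha
      have h7 : Jb.ncard ≤ (m / t + 1) * n := by
        have g1 : m < t * (m / t + 1) := by
          have := Nat.div_add_mod m t
          have := Nat.mod_lt m (show 0 < t by omega)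
          rw [Nat.mul_add]
          omega
        have g2 : t * Jb.ncard ≤ t * ((m / t + 1) * n) := by
          calc t * Jb.ncard ≤ m * n := ha.trans hJn
            _ ≤ t * (m / t + 1) * n := Nat.mul_le_mul_right _ g1.le
            _ = t * ((m / t + 1) * n) := by ring
        exact Nat.le_of_mul_le_mul_left g2 (by omega)
      obtain ⟨ρ, hρ⟩ : ∃ ρ, ρ = m / t := ⟨_, rfl⟩
      rw [← hρ] at h7 ⊢
      have h8 : (ρ + 1) * n + σ₂ * n ≤ (2 * σ₂ + 2 * ρ + 2) * n' := by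
        calc (ρ + 1) * n + σ₂ * n = (σ₂ + ρ + 1) * n := by ring
          _ ≤ (σ₂ + ρ + 1) * (2 * n') := Nat.mul_le_mul_left _ (by omega)
          _ = (2 * σ₂ + 2 * ρ + 2) * n' := by ring
      have h9 : (2 * σ₂ + 2 * ρ + 3) * n' = (2 * σ₂ + 2 * ρ + 2) * n' + n' := by ring
      rw [h9]
      omega
  · intro z hz
    obtain ⟨N, hN, h1⟩ := hsupp z hz
    refine ⟨N, hN, ?_⟩
    intro c₀ hc₀ hW v hv hvl
    by_contra hvN
    exact hvl (h1 c₀ (hc₀.trans (by rw [c']; exact sdiff_subset.trans sdiff_subset)) hW v hv hvN)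

end TSH
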