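import Pool.Agent.TST.PassDef54

/-!
# One pass of LIFT: the sets and the exactness (row R8 of T-star, helper54)
-/

set_option autoImplicit false

open Set BIC BICS CWL
open scoped Matroid

namespace TSH

universe u

open Mdl Mdj EN Gad TST EN.Wall DA

/-! ### Representatives of the rows inside of a region -/

section

variable {α : Type u} {M N : Matroid α} {w u : ℕ} {L : Bool × ℕ × ℕ → List α}
  {f : α → Sym2 ((ℕ × ℕ) ⊕ α)} {e : Bool × ℕ × ℕ → α} {row : α → Sym2 (ℕ × ℕ)}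

/-- the representatives `c'` of the rows inside of the region `Rg a w' Wd` in the exact wall -/
theorem bic_repA [N.Finite] (h : GSide M (Seg w) L f e u) (hN : Bic N (crr L (Seg w)) f)
    (hrow : ∀ s ∈ Seg w, ∀ x ∈ L s, row x = srow s) {a w' : ℕ} {Wd : Set (ℕ × ℕ)}
    {c' : Set α} (hc : c' ⊆ crr L (RA w (DA.Rg a w' Wd)))
    (hW : WallH c' (fun x => (row x).map (shp a)) w' Wd) :
    Bic (N ／ (crr L (RA w (DA.Rg a w' Wd)) \ c')) c' (fun x => (row x).map (shp a)) := by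
  classical
  obtain ⟨A, hA⟩ : ∃ A, A = DA.Rg a w' Wd := ⟨_, rfl⟩
  rw [← hA] at hc ⊢
  have hAS : RA w A ⊆ Seg w := fun s hs => hs.1
  have hle : ∀ v ∈ A, a ≤ v.1 ∧ a ≤ v.2 := fun v hv => by
    rw [hA] at hv
    exact Rg.le hv
  have hrA : ∀ s ∈ RA w A, ∀ v ∈ srow s, a ≤ v.1 ∧ a ≤ v.2 := by
    intro s hs v hv
    unfold srow at hv
    rcases Sym2.mem_iff.1 hv with rfl | rfl
    · exact hle _ hs.2.1
    · exact hle _ hs.2.2
  have hsw : SubW (crr L (RA w A)) f L (RA w A) := by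
    refine ⟨fun s hs hn => ?_, fun s hs => h.nodup s (hAS hs), fun s hs s' hs' =>
      h.disj s (hAS hs) s' (hAS hs'), fun x => Iff.rfl, fun s hs => h.end_eq s (hAS hs)⟩
    have := h.last s (hAS hs)
    rw [hn] at this
    simp at this
  have hrep : ∀ s, ∃ x, s ∈ RA w A → x ∈ c' ∧ x ∈ L s := by
    intro s
    by_cases hs : s ∈ RA w A
    · obtain ⟨h1, h2, h3⟩ := wadj_srow hs.1
      have g2 := hs.2.1
      have g3 := hs.2.2
      have l2 := hle _ g2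
      have l3 := hle _ g3
      rw [hA] at g2 g3
      obtain ⟨x, hx, hxr⟩ := hW.surj (shp a (segNear s)) (shp a (segFar s))
        ((shp_wadj l2 l3).2 h1) g2.2.2 g3.2.2
      obtain ⟨s', hs', hxs⟩ := hc hx
      have h4 : srow s' = srow s := by
        refine shp_map (a := a) (hrA s' hs') (hrA s hs) ?_
        rw [← hrow s' hs'.1 x hxs]
        rw [hxr]
        rfl
      refine ⟨x, fun _ => ⟨hx, ?_⟩⟩
      rw [← srow_inj h4]
      exact hxs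
    · exact ⟨e s, fun h' => absurd h' hs⟩
  choose r hr using hrep
  have hrc : r '' RA w A = c' := by
    ext x
    constructor
    · rintro ⟨s, hs, rfl⟩
      exact (hr s hs).1
    · intro hx
      obtain ⟨s, hs, hxs⟩ := hc hx
      refine ⟨s, hs, hW.inj (hr s hs).1 hx ?_⟩
      rw [hrow s hs.1 _ (hr s hs).2, hrow s hs.1 _ hxs]
  have hfin : (RA w A).Finite := (seg_finite w).subset hAS
  have hNA : Bic N (crr L (RA w A)) f := bic_mono hN (crr_mono hAS)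
  obtain ⟨g, hg1, hg2⟩ := con_repsS hfin hsw (bicU_zero hNA) (r := r) fun s hs => (hr s hs).2
  rw [hrc] at hg1
  have hB := hg1.bic
  have hgr : ∀ x ∈ c', g x = (row x).map Sum.inl := by
    intro x hx
    rw [← hrc] at hx
    obtain ⟨s, hs, rfl⟩ := hx
    rw [hg2 s hs, hrow s hs.1 _ (hr s hs).2]
    rfl
  have hrow' : ∀ x ∈ c', ∀ v ∈ row x, a ≤ v.1 ∧ a ≤ v.2 := by
    intro x hx v hv
    obtain ⟨s, hs, hxs⟩ := hc hx
    rw [hrow s hs.1 x hxs] at hv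
    exact hrA s hs v hv
  obtain ⟨ι, hι⟩ : ∃ ι : ℕ × ℕ → (ℕ × ℕ) ⊕ α, ι = fun p => Sum.inl (p.1 + a, p.2 + a) := ⟨_, rfl⟩
  have hιi : Function.Injective ι := by
    intro p q hpq
    rw [hι] at hpq
    have := Sum.inl_injective hpq
    rw [Prod.mk.injEq] at this
    ext <;> omega
  -- the vertices of an element
  have hv : ∀ x ∈ c', ∀ p, p ∈ (row x).map (shp a) ↔ ι p ∈ g x := by
    intro x hx p
    rw [hgr x hx, hι, Sym2.mem_map, Sym2.mem_map]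
    constructor
    · rintro ⟨v, hv, rfl⟩
      refine ⟨v, hv, ?_⟩
      have h1 := hrow' x hx v hv
      unfold shp
      simp only
      congr 1
      ext <;> simp only <;> omega
    · rintro ⟨v, hv, h1⟩
      have h2 := Sum.inl_injective h1
      refine ⟨v, hv, ?_⟩
      rw [h2]
      exact shp_add p
  refine ⟨hB.sub, fun F φ hF hφ hφe => ?_, fun W => ?_⟩
  · refine hB.ind F (fun x => ι (φ x)) hF ?_ ?_
    · intro x hx y hy hxy
      exact hφ hx hy (hιi hxy)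
    · intro x hx
      exact (hv x (hF hx) _).1 (hφe x hx)
  · have h1 := hB.rk (ι '' W)
    rw [hιi.encard_image] at h1
    refine le_trans (Matroid.eRk_mono _ ?_) h1
    rintro x ⟨hx, hxW⟩
    refine ⟨hx, fun v hv' => ?_⟩
    rw [hgr x hx, Sym2.mem_map] at hv'
    obtain ⟨v', hv'', rfl⟩ := hv'
    refine ⟨shp a v', hxW _ (Sym2.mem_map.2 ⟨v', hv'', rfl⟩), ?_⟩
    have h1 := hrow' x hx v' hv''
    rw [hι]
    unfold shp
    simp only
    congr 1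
    ext <;> simp only <;> omega

end

/-! ### The sets of one pass -/

/-- the rows which leave `A` -/
def LvR (w : ℕ) (A : Set (ℕ × ℕ)) : Set (Bool × ℕ × ℕ) :=
  {s | s ∈ Seg w ∧ (segNear s ∈ A ↔ segFar s ∉ A)}

section

variable {α : Type u}

/-- the last elements of the rows which leave `A` -/
def DrR (w : ℕ) (e : Bool × ℕ × ℕ → α) (A : Set (ℕ × ℕ)) : Set α := {x | ∃ s ∈ LvR w A, x = e s}

/-- the rows outside of `Z` and of `A`, without the last elements of the rows which leave `A` -/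
def FR (w : ℕ) (L : Bool × ℕ × ℕ → List α) (e : Bool × ℕ × ℕ → α) (Z : Set (Bool × ℕ × ℕ))
    (A : Set (ℕ × ℕ)) : Set α :=
  {x | ∃ s ∈ Seg w, s ∉ Z ∧ s ∉ RA w A ∧ x ∈ L s ∧ (s ∈ LvR w A → x ≠ e s)}

/-- the conflicts of the tile `b` on the rows of `Z` -/
def KR (m : ℕ) (R : ℕ → Bool × ℕ × ℕ) (c : ℕ → ℕ → α) (Z : Set (Bool × ℕ × ℕ)) (b : ℕ) : Set α :=
  {x | ∃ i < m, R i ∈ Z ∧ x = c i b}

/-- the last elements of the rows of `Z` -/
def YR (e : Bool × ℕ × ℕ → α) (Z : Set (Bool × ℕ × ℕ)) : Set α := {x | ∃ s ∈ Z, x = e s}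

/-- labels on the rows -/
structure LabD (w : ℕ) (L : Bool × ℕ × ℕ → List α) (e : Bool × ℕ × ℕ → α) (n m : ℕ)
    (R : ℕ → Bool × ℕ × ℕ) (c : ℕ → ℕ → α) : Prop where
  row : ∀ i < m, R i ∈ Seg w
  mem : ∀ i < m, ∀ b < n, c i b ∈ L (R i)
  inj : ∀ i < m, ∀ b < n, ∀ j < m, ∀ a < n, c i b = c j a → i = j ∧ b = a
  anc : ∀ i < m, ∀ b < n, ∀ r ∈ Seg w, c i b ≠ e r
  all : ∀ r ∈ Seg w, ∀ x ∈ L r, x = e r ∨ ∃ i < m, ∃ b < n, R i = r ∧ x = c i b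

end

section

variable {α : Type u} {M : Matroid α} {w u : ℕ} {L : Bool × ℕ × ℕ → List α}
  {f : α → Sym2 ((ℕ × ℕ) ⊕ α)} {e : Bool × ℕ × ℕ → α} {row : α → Sym2 (ℕ × ℕ)}
  {n m : ℕ} {R : ℕ → Bool × ℕ × ℕ} {c : ℕ → ℕ → α} {Z : Set (Bool × ℕ × ℕ)} {J : Finset ℕ}
  {A : Set (ℕ × ℕ)}

lemma mem_KUR {x : α} : x ∈ DA.KU (KR m R c Z) J ↔ ∃ b ∈ J, ∃ i < m, R i ∈ Z ∧ x = c i b := by
  rw [DA.mem_KU]
  exact Iff.rfl

/-- **The sets** of one pass. -/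
theorem otr_pass (h : GSide M (Seg w) L f e u) (hrow : ∀ s ∈ Seg w, ∀ x ∈ L s, row x = srow s)
    (hl : LabD w L e n m R c) (hZ : Z ⊆ Seg w) (hJ : J ⊆ Finset.range n) {a w' : ℕ}
    {Wd : Set (ℕ × ℕ)} (haw : a + w' ≤ w)
    (hZA : ∀ s ∈ Z, segNear s ∉ DA.Rg a w' Wd ∧ segFar s ∉ DA.Rg a w' Wd) :
    OTr M (crr L (Seg w)) (crr L (RA w (DA.Rg a w' Wd))) (YR e Z ∪ DA.KU (KR m R c Z) J)
      (FR w L e Z (DA.Rg a w' Wd) ∪ UnI m n R c J Z) (DrR w e (DA.Rg a w' Wd)) row w a w' Wd := by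
  classical
  obtain ⟨A, hA⟩ : ∃ A, A = DA.Rg a w' Wd := ⟨_, rfl⟩
  have hJn : ∀ b ∈ J, b < n := fun b hb => Finset.mem_range.1 (hJ hb)
  have hins : ∀ s ∈ Seg w, ∀ x ∈ L s, (x ∈ crr L (RA w A) ↔ s ∈ RA w A) := by
    intro s hs x hx
    constructor
    · rintro ⟨s', hs', hx'⟩
      rw [h.uniq hs hs'.1 hx hx']
      exact hs'
    · exact fun h1 => ⟨s, h1, hx⟩
  rw [← hA] at hZA
  have hZR : ∀ s ∈ Z, s ∉ RA w A := fun s hs h1 => (hZA s hs).1 h1.2.1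
  have hZL : ∀ s ∈ Z, s ∉ LvR w A := fun s hs h1 => (hZA s hs).1 (h1.2.2 (hZA s hs).2)
  have hLR : ∀ s ∈ LvR w A, s ∉ RA w A := fun s hs h1 => (hs.2.1 h1.2.1) h1.2.2
  have hKm : ∀ i < m, ∀ b < n, R i ∈ Z → c i b ∈ L (R i) ∧ R i ∈ Seg w := fun i hi b hb _ =>
    ⟨hl.mem i hi b hb, hl.row i hi⟩
  refine ⟨h.sub_ground, ⟨e '' Seg w, h.e_sub, ?_, ?_, ?_⟩, ?_, haw, ?_, ?_, ?_, ?_, ?_, ?_⟩
  · rintro _ ⟨s, hs, rfl⟩ _ ⟨s', hs', rfl⟩ hss
    rw [hrow s hs _ (h.mem_last hs), hrow s' hs' _ (h.mem_last hs')] at hss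
    rw [srow_inj hss]
  · rintro _ ⟨s, hs, rfl⟩
    obtain ⟨h1, h2, h3⟩ := wadj_srow hs
    exact ⟨_, _, hrow s hs _ (h.mem_last hs), h1, h2, h3⟩
  · intro p q hpq hp hq _
    obtain ⟨s, hs, h1⟩ := seg_of_wadj hpq hp hq
    exact ⟨e s, ⟨s, hs, rfl⟩, by rw [hrow s hs _ (h.mem_last hs), h1]⟩
  · rintro x ⟨s, hs, hx⟩
    obtain ⟨h1, h2, h3⟩ := wadj_srow hs
    exact ⟨_, _, hrow s hs x hx, h1, h2, h3⟩
  · rw [← hA]
    ext x
    constructor
    · rintro ⟨s, hs, hx⟩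
      by_cases hsZ : s ∈ Z
      · rcases hl.all s hs x hx with h1 | ⟨i, hi, b, hb, h1, h2⟩
        · exact Or.inl (Or.inl (Or.inr (Or.inl ⟨s, hsZ, h1⟩)))
        · by_cases hbJ : b ∈ J
          · exact Or.inl (Or.inl (Or.inr (Or.inr (mem_KUR.2 ⟨b, hbJ, i, hi, by rw [h1]; exact hsZ,
              h2⟩))))
          · exact Or.inl (Or.inr (Or.inr ⟨i, hi, by rw [h1]; exact hsZ, b, hb, hbJ, h2⟩))
      · by_cases hsR : s ∈ RA w A
        · exact Or.inl (Or.inl (Or.inl ⟨s, hsR, hx⟩))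
        · by_cases hsL : s ∈ LvR w A ∧ x = e s
          · exact Or.inr ⟨s, hsL.1, hsL.2⟩
          · exact Or.inl (Or.inr (Or.inl ⟨s, hs, hsZ, hsR, hx, fun h1 h2 => hsL ⟨h1, h2⟩⟩))
    · rintro (((⟨s, hs, hx⟩ | ⟨s, hs, rfl⟩ | hx) | ⟨s, hs, _, _, hx, _⟩ |
        ⟨i, hi, hiZ, b, hb, _, rfl⟩) | ⟨s, hs, rfl⟩)
      · exact ⟨s, hs.1, hx⟩
      · exact ⟨s, hZ hs, h.mem_last (hZ hs)⟩
      · obtain ⟨b, hb, i, hi, hiZ, rfl⟩ := mem_KUR.1 hx
        exact ⟨R i, hl.row i hi, hl.mem i hi b (hJn b hb)⟩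
      · exact ⟨s, hs, hx⟩
      · exact ⟨R i, hl.row i hi, hl.mem i hi b hb⟩
      · exact ⟨s, hs.1, h.mem_last hs.1⟩
  · rw [← hA, Set.disjoint_left]
    rintro x (⟨s, hs, hsZ, hsR, hx, hxe⟩ | ⟨i, hi, hiZ, b, hb, hbJ, rfl⟩) hx'
    · rcases hx' with (⟨s', hs', hx'⟩ | ⟨s', hs', rfl⟩ | hx') | ⟨s', hs', rfl⟩
      · rw [h.uniq hs hs'.1 hx hx'] at hsR
        exact hsR hs'
      · rw [h.uniq hs (hZ hs') hx (h.mem_last (hZ hs'))] at hsZ
        exact hsZ hs'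
      · obtain ⟨b, hb, i, hi, hiZ, rfl⟩ := mem_KUR.1 hx'
        rw [h.uniq hs (hl.row i hi) hx (hl.mem i hi b (hJn b hb))] at hsZ
        exact hsZ hiZ
      · have h1 := h.uniq hs hs'.1 hx (h.mem_last hs'.1)
        subst h1
        exact hxe hs' rfl
    · have hxL := hl.mem i hi b hb
      have hRi := hl.row i hi
      rcases hx' with (⟨s', hs', hx'⟩ | ⟨s', hs', hx'⟩ | hx') | ⟨s', hs', hx'⟩
      · have h1 := h.uniq hRi hs'.1 hxL hx'
        rw [← h1] at hs'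
        exact hZR _ hiZ hs'
      · exact hl.anc i hi b hb s' (hZ hs') hx'
      · obtain ⟨b', hb', i', hi', _, h1⟩ := mem_KUR.1 hx'
        have h2 := (hl.inj i hi b hb i' hi' b' (hJn b' hb') h1).2
        subst h2
        exact hbJ hb'
      · exact hl.anc i hi b hb s' hs'.1 hx'
  · rw [← hA, Set.disjoint_left]
    rintro x (⟨s, hs, rfl⟩ | hx) hx'
    · rcases hx' with ⟨s', hs', hx'⟩ | ⟨s', hs', hx'⟩
      · have h1 := h.uniq (hZ hs) hs'.1 (h.mem_last (hZ hs)) hx'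
        rw [← h1] at hs'
        exact hZR _ hs hs'
      · have h1 := h.e_inj (hZ hs) hs'.1 hx'
        rw [← h1] at hs'
        exact hZL _ hs hs'
    · obtain ⟨b, hb, i, hi, hiZ, rfl⟩ := mem_KUR.1 hx
      rcases hx' with ⟨s', hs', hx'⟩ | ⟨s', hs', hx'⟩
      · have h1 := h.uniq (hl.row i hi) hs'.1 (hl.mem i hi b (hJn b hb)) hx'
        rw [← h1] at hs'
        exact hZR _ hiZ hs'
      · exact hl.anc i hi b (hJn b hb) s' hs'.1 hx'
  · rintro x ⟨s, hs, hx⟩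
    rw [← hA, hins s hs x hx, hrow s hs x hx]
    unfold srow
    constructor
    · intro h1 v hv
      rcases Sym2.mem_iff.1 hv with rfl | rfl
      · exact h1.2.1
      · exact h1.2.2
    · exact fun h1 => ⟨hs, h1 _ (Sym2.mem_mk_left _ _), h1 _ (Sym2.mem_mk_right _ _)⟩
  · rintro _ ⟨s, hs, rfl⟩ _ ⟨s', hs', rfl⟩ hss
    rw [hrow s hs.1 _ (h.mem_last hs.1), hrow s' hs'.1 _ (h.mem_last hs'.1)] at hss
    rw [srow_inj hss]
  · rintro x ⟨s, hs, hx⟩ hxS ⟨v, hv, hvA⟩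
    rw [← hA] at hvA hxS ⊢
    rw [hins s hs x hx] at hxS
    rw [hrow s hs x hx] at hv
    unfold srow at hv
    refine ⟨e s, ⟨s, ⟨hs, ?_⟩, rfl⟩, by rw [hrow s hs x hx, hrow s hs _ (h.mem_last hs)]⟩
    rcases Sym2.mem_iff.1 hv with rfl | rfl
    · exact ⟨fun _ h2 => hxS ⟨hs, hvA, h2⟩, fun _ => hvA⟩
    · exact ⟨fun h1 _ => hxS ⟨hs, h1, hvA⟩, fun h1 => absurd hvA h1⟩

end

end TSH
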