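import Pool.Agent.TST.PassA54

/-!
# One pass of LIFT: exactness and skewness (row R8 of T-star, helper54)
-/

set_option autoImplicit false

open Set BIC BICS CWL
open scoped Matroid

namespace TSH

universe u

open Mdl Mdj EN Gad TST EN.Wall DA

section

variable {α : Type u} {M N : Matroid α} {w u : ℕ} {L : Bool × ℕ × ℕ → List α}
  {f : α → Sym2 ((ℕ × ℕ) ⊕ α)} {e : Bool × ℕ × ℕ → α} {row : α → Sym2 (ℕ × ℕ)}
  {n m : ℕ} {R : ℕ → Bool × ℕ × ℕ} {c : ℕ → ℕ → α} {Z : Set (Bool × ℕ × ℕ)} {J : Finset ℕ}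

/-- **Exactness** of one pass: the ranks in `M ／ F` over the rows inside of the region -/
theorem rhol_pass [M.Finite] [N.Finite] (h : GSide M (Seg w) L f e u)
    (hN : Bic N (crr L (Seg w)) f) (hrow : ∀ s ∈ Seg w, ∀ x ∈ L s, row x = srow s)
    {S' Y F Dr : Set α} {a w' : ℕ} {Wd : Set (ℕ × ℕ)}
    (ho : OTr M (crr L (Seg w)) S' Y F Dr row w a w' Wd)
    (hS' : S' = crr L (RA w (DA.Rg a w' Wd)))
    (hcore : ∀ G, G = F ∨ G = F ∪ Y → ∀ X ⊆ S', rk M (X ∪ G) = rk M G + rk N X) :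
    RHol (M ／ F) S' (fun x => (row x).map (shp a)) w' Wd ∧
      rk (M ／ F) (S' ∪ Y) = rk (M ／ F) S' + rk (M ／ F) Y := by
  classical
  have hSE := ho.SE
  have hF : F ⊆ M.E := ho.subF.trans hSE
  have hf : (M ／ F).Finite := BQ.fin_contract _
  have hS'F : S' ⊆ M.E \ F := fun x hx => ⟨hSE (ho.sub' hx), fun h1 =>
    Set.disjoint_left.1 ho.dF h1 (Or.inl (Or.inl hx))⟩
  have hYF : Y ⊆ M.E \ F := fun x hx => ⟨hSE (ho.subY hx), fun h1 =>
    Set.disjoint_left.1 ho.dF h1 (Or.inl (Or.inr hx))⟩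
  have hS'N : S' ⊆ N.E := ho.sub'.trans hN.sub
  -- ranks inside of `S'`
  have hr : ∀ X ⊆ S', rk (M ／ F) X = rk N X := by
    intro X hX
    have h1 := BQ.rk_con (M := M) hF (X := X) (hX.trans hS'F)
    have h2 := hcore F (Or.inl rfl) X hX
    omega
  refine ⟨⟨?_, ?_, ?_, ?_⟩, ?_⟩
  · rw [Matroid.contract_ground]
    exact hS'F
  · intro x hx
    obtain ⟨p, q, h1, h2, _, _⟩ := ho.mem x (ho.sub' hx)
    have h3 := (ho.ins x (ho.sub' hx)).1 hx
    have hp := h3 p (by rw [h1]; exact Sym2.mem_mk_left _ _)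
    have hq := h3 q (by rw [h1]; exact Sym2.mem_mk_right _ _)
    refine ⟨shp a p, shp a q, ?_, (shp_wadj (Rg.le hp) (Rg.le hq)).2 h2, hp.2.2, hq.2.2⟩
    rw [h1, Sym2.map_mk]
  · intro p q hpq hp hq
    have h1 := mem_Rg_of (a := a) hp
    have h2 := mem_Rg_of (a := a) hq
    have h3 : wadj (p.1 + a, p.2 + a) (q.1 + a, q.2 + a) := by
      rw [← shp_wadj (Rg.le h1) (Rg.le h2), shp_add, shp_add]
      exact hpq
    obtain ⟨c₀, hc₀, hW₀⟩ := ho.rep
    obtain ⟨x, hx, hxr⟩ := hW₀.surj _ _ h3 (Rg.rect h1 ho.aw) (Rg.rect h2 ho.aw) (notMem_empty _)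
    refine ⟨x, ?_, ?_⟩
    · rw [ho.ins x (hc₀ hx), hxr]
      intro v hv
      rcases Sym2.mem_iff.1 hv with rfl | rfl
      · exact h1
      · exact h2
    · rw [hxr, Sym2.map_mk, shp_add, shp_add]
  · intro c' hc' hW'
    have hB := bic_repA h hN hrow (hS' ▸ hc') hW'
    rw [← hS'] at hB
    have hf2 : (N ／ (S' \ c')).Finite := BQ.fin_contract _
    have hf3 : (M ／ F ／ (S' \ c')).Finite := BQ.fin_contract _
    refine Bic_of_rk hB ?_ ?_
    · rw [Matroid.contract_ground, Matroid.contract_ground]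
      exact fun x hx => ⟨hS'F (hc' hx), fun h1 => h1.2 hx⟩
    · intro X hX
      have h1 := BQ.rk_con (M := M ／ F) (C := S' \ c') (X := X)
        (fun x hx => by rw [Matroid.contract_ground]; exact hS'F hx.1)
        (fun x hx => ⟨by rw [Matroid.contract_ground]; exact hS'F (hc' (hX hx)),
          fun h1 => h1.2 (hX hx)⟩)
      have h2 := BQ.rk_con (M := N) (C := S' \ c') (X := X) (fun x hx => hS'N hx.1)
        (fun x hx => ⟨hS'N (hc' (hX hx)), fun h1 => h1.2 (hX hx)⟩)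
      have h3 := hr (S' \ c') sdiff_subset
      have h4 := hr (X ∪ S' \ c') (union_subset (hX.trans hc') sdiff_subset)
      omega
  · have h1 := BQ.rk_con (M := M) hF (X := S' ∪ Y) (union_subset hS'F hYF)
    have h2 := BQ.rk_con (M := M) hF (X := Y) hYF
    have h3 := hr S' Subset.rfl
    have h4 := hcore (F ∪ Y) (Or.inr rfl) S' Subset.rfl
    have e1 : S' ∪ Y ∪ F = S' ∪ (F ∪ Y) := by
      rw [union_assoc, union_comm Y F]
    rw [e1] at h1
    rw [union_comm Y F] at h2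
    omega

/-- the conflicts of the tiles `J` on the rows of `Z` are independent in `M ／ F` -/
theorem indep_pass [M.Finite] (h : GSide M (Seg w) L f e u)
    (hrow : ∀ s ∈ Seg w, ∀ x ∈ L s, row x = srow s) (hl : LabD w L e n m R c)
    (hJ : J ⊆ Finset.range n) {F : Set α} (hF : F ⊆ crr L (Seg w))
    (hdF : Disjoint (DA.KU (KR m R c Z) J) F) (hZF : ∀ s ∈ Z, e s ∉ F) :
    (M ／ F).Indep (DA.KU (KR m R c Z) J) := by
  classical
  have hJn : ∀ b ∈ J, b < n := fun b hb => Finset.mem_range.1 (hJ hb)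
  have hSE := h.sub_ground
  obtain ⟨K, hK⟩ : ∃ K, K = DA.KU (KR m R c Z) J := ⟨_, rfl⟩
  have mK : ∀ x, x ∈ K ↔ ∃ b ∈ J, ∃ i < m, R i ∈ Z ∧ x = c i b := by
    intro x
    rw [hK]
    exact mem_KUR
  have hKS : K ⊆ crr L (Seg w) := by
    intro x hx
    obtain ⟨b, hb, i, hi, _, rfl⟩ := (mK x).1 hx
    exact ⟨R i, hl.row i hi, hl.mem i hi b (hJn b hb)⟩
  rw [← hK] at hdF ⊢
  have hKE : K ⊆ (M ／ F).E := by
    rw [Matroid.contract_ground]
    exact fun x hx => ⟨hSE (hKS hx), Set.disjoint_left.1 hdF hx⟩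
  rw [Matroid.indep_iff_forall_notMem_closure_sdiff hKE]
  intro x hx hcl
  have hxF := Set.disjoint_left.1 hdF hx
  rw [con_cl hxF] at hcl
  obtain ⟨b, hb, i, hi, hiZ, rfl⟩ := (mK x).1 hx
  obtain ⟨C, hCs, hC, hxC⟩ := Matroid.exists_isCircuit_of_mem_closure hcl (by
    rintro (h1 | h1)
    · exact h1.2 rfl
    · exact hxF h1)
  have hCKF : C ⊆ K ∪ F := by
    intro y hy
    rcases hCs hy with rfl | h1 | h1
    · exact Or.inl hx
    · exact Or.inl h1.1
    · exact Or.inr h1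
  have hRi := hl.row i hi
  have hxL := hl.mem i hi b (hJn b hb)
  have h1 := GSide.serC h hrow C hC (hCKF.trans (union_subset hKS hF)) _ hxC (e (R i))
    ⟨R i, hRi, h.mem_last hRi⟩ (by rw [hrow _ hRi _ hxL, hrow _ hRi _ (h.mem_last hRi)])
  rcases hCKF h1 with h2 | h2
  · obtain ⟨b', hb', i', hi', _, h3⟩ := (mK _).1 h2
    exact hl.anc i' hi' b' (hJn b' hb') (R i) hRi h3.symm
  · exact hZF _ hiZ h2

end

end TSH
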