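import Pool.Agent.TST.PassB54

/-!
# One pass of LIFT: geometry of the region (row R8 of T-star, helper54)
-/

set_option autoImplicit false

open Set BIC BICS CWL
open scoped Matroid

namespace TSH

universe u

open Mdl Mdj EN Gad TST EN.Wall DA

/-- vertices outside of the inner square or in a square of `Zq` -/
def BdV (a n₀ rZ : ℕ) (Q : Finset (ℕ × ℕ)) (v : ℕ × ℕ) : Prop :=
  v ∉ Box a n₀ ∨ ∃ c ∈ Q, SqN rZ c v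

section

variable {w r Cg a n₀ rZ a₂ w₂ Λ q L i a' b' : ℕ} {Q Jk Om : Finset (ℕ × ℕ)}
  {Zq W : Set (Bool × ℕ × ℕ)} {Wd : Set (ℕ × ℕ)} {v x : ℕ × ℕ}

lemma bdV_zq (hs : Zq = ZQ w a n₀ rZ Q) (hv : v ∈ VV Zq) : BdV a n₀ rZ Q v := by
  obtain ⟨s, hs', hv⟩ := hv
  rw [hs] at hs'
  rcases hs'.2 with ⟨h1, h2⟩ | ⟨c, hc, h1, h2⟩
  · rcases hv with rfl | rfl
    · exact Or.inl h1
    · exact Or.inl h2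
  · rcases hv with rfl | rfl
    · exact Or.inr ⟨c, hc, h1⟩
    · exact Or.inr ⟨c, hc, h2⟩

lemma bdV_zt (hs : Zq = ZQ w a n₀ rZ Q) {s : Bool × ℕ × ℕ} (h : s ∈ ZT w a n₀ Zq) :
    BdV a n₀ rZ Q (segNear s) ∨ BdV a n₀ rZ Q (segFar s) := by
  rcases h with ⟨_, h1 | h1⟩ | ⟨_, h1 | h1⟩
  · exact Or.inl (bdV_zq hs ⟨s, h1, Or.inl rfl⟩)
  · by_cases h2 : segNear s ∈ Box a n₀
    · exact Or.inr (Or.inl fun h3 => h1 ⟨h2, h3⟩)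
    · exact Or.inl (Or.inl h2)
  · exact Or.inl (bdV_zq hs h1)
  · exact Or.inr (bdV_zq hs h1)

/-- the vertices of the region are far from the points -/
lemma rg_far (hB : SBox Λ a n₀ a₂ w₂ (Q ∪ Jk)) (hq : q < Λ)
    (hOm : ∀ x ∈ Q ∪ Jk, (a₂ + Λ ≤ x.1 ∧ x.1 + Λ ≤ a₂ + w₂ ∧ a₂ + Λ ≤ x.2 ∧
      x.2 + Λ ≤ a₂ + w₂) → shp a₂ x ∈ Om)
    (hwin : ∀ v, (∃ o ∈ Om, sd v o ≤ q) → v ∈ Wd) (hv : v ∈ DA.Rg a₂ w₂ Wd)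
    (hx : x ∈ Q ∪ Jk) : q < sd v x := by
  obtain ⟨h1, h2, h3, h4⟩ := hv
  rw [Gad.mem_rct] at h3
  unfold shp at h3
  simp only at h3
  rcases hB.pts x hx with h5 | h5
  · by_contra hcon
    push Not at hcon
    refine h4 (hwin _ ⟨_, hOm x hx h5, ?_⟩)
    rw [sd_le] at hcon ⊢
    unfold shp
    simp only
    omega
  · by_contra hcon
    push Not at hcon
    rw [sd_le] at hcon
    omega

lemma rg_box (hB : SBox Λ a n₀ a₂ w₂ (Q ∪ Jk)) (hv : v ∈ DA.Rg a₂ w₂ Wd) :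
    a + Λ ≤ v.1 ∧ v.1 + Λ ≤ a + (2 * n₀ - 1) ∧ a + Λ ≤ v.2 ∧ v.2 + Λ ≤ a + (2 * n₀ - 1) := by
  obtain ⟨h1, h2, h3, h4⟩ := hv
  rw [Gad.mem_rct] at h3
  unfold shp at h3
  simp only at h3
  have h5 := hB.lo
  have h6 := hB.hi
  omega

/-- vertices near to bad vertices are not in the region -/
lemma rg_bdV (hB : SBox Λ a n₀ a₂ w₂ (Q ∪ Jk)) (hq : q < Λ) (hqr : rZ + 1 ≤ q)
    (hOm : ∀ x ∈ Q ∪ Jk, (a₂ + Λ ≤ x.1 ∧ x.1 + Λ ≤ a₂ + w₂ ∧ a₂ + Λ ≤ x.2 ∧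
      x.2 + Λ ≤ a₂ + w₂) → shp a₂ x ∈ Om)
    (hwin : ∀ v, (∃ o ∈ Om, sd v o ≤ q) → v ∈ Wd) (hv : BdV a n₀ rZ Q v) (hx : sd x v ≤ 1) :
    x ∉ DA.Rg a₂ w₂ Wd := by
  intro h
  have h1 := rg_box hB h
  rw [sd_le] at hx
  rcases hv with h2 | ⟨c, hc, h2⟩
  · apply h2
    simp only [Box, mem_ofPred_eq]
    omega
  · have h3 := rg_far hB hq hOm hwin h (Finset.mem_union_left _ hc)
    have h4 : sd x c ≤ rZ + 1 := by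
      rw [sd_le]
      unfold SqN at h2
      omega
    omega

lemma sd_seg {s : Bool × ℕ × ℕ} : sd (segNear s) (segFar s) ≤ 1 ∧ sd (segFar s) (segNear s) ≤ 1 := by
  rw [sd_le, sd_le]
  obtain ⟨t, x, y⟩ := s
  cases t <;> simp only [segNear, segFar, Bool.false_eq_true, if_true, if_false] <;> omega

lemma rg_zt (hB : SBox Λ a n₀ a₂ w₂ (Q ∪ Jk)) (hq : q < Λ) (hqr : rZ + 1 ≤ q)
    (hOm : ∀ x ∈ Q ∪ Jk, (a₂ + Λ ≤ x.1 ∧ x.1 + Λ ≤ a₂ + w₂ ∧ a₂ + Λ ≤ x.2 ∧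
      x.2 + Λ ≤ a₂ + w₂) → shp a₂ x ∈ Om)
    (hwin : ∀ v, (∃ o ∈ Om, sd v o ≤ q) → v ∈ Wd) (hs : Zq = ZQ w a n₀ rZ Q)
    {s : Bool × ℕ × ℕ} (h : s ∈ ZT w a n₀ Zq) :
    segNear s ∉ DA.Rg a₂ w₂ Wd ∧ segFar s ∉ DA.Rg a₂ w₂ Wd := by
  have h0 : ∀ v : ℕ × ℕ, sd v v ≤ 1 := fun v => by rw [sd_le]; omega
  rcases bdV_zt hs h with h1 | h1
  · exact ⟨rg_bdV hB hq hqr hOm hwin h1 (h0 _), rg_bdV hB hq hqr hOm hwin h1 sd_seg.2⟩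
  · exact ⟨rg_bdV hB hq hqr hOm hwin h1 sd_seg.1, rg_bdV hB hq hqr hOm hwin h1 (h0 _)⟩

lemma W_zt (hs : Zq = ZQ w a n₀ rZ Q) (hW : W ⊆ DA.BR w a n₀ rZ Q) {s : Bool × ℕ × ℕ}
    (h : s ∈ W) : s ∉ ZT w a n₀ Zq := by
  intro h1
  obtain ⟨_, ⟨h2, h3⟩, h4⟩ := hW h
  have key : ∀ v, v ∈ Box a n₀ → (∀ c ∈ Q, rZ < sd v c) → ¬ BdV a n₀ rZ Q v := by
    rintro v h5 h6 (h7 | ⟨c, hc, h7⟩)
    · exact h7 h5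
    · have h8 := h6 c hc
      have h9 : sd v c ≤ rZ := by
        rw [sd_le]
        unfold SqN at h7
        omega
      omega
  rcases bdV_zt hs h1 with h5 | h5
  · exact key _ h2 (fun c hc => (h4 c hc).1) h5
  · exact key _ h3 (fun c hc => (h4 c hc).2) h5

lemma W_rg (hB : SBox Λ a n₀ a₂ w₂ (Q ∪ Jk)) (hq : q < Λ) (hqr : rZ + 10 ≤ q)
    (hOm : ∀ x ∈ Q ∪ Jk, (a₂ + Λ ≤ x.1 ∧ x.1 + Λ ≤ a₂ + w₂ ∧ a₂ + Λ ≤ x.2 ∧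
      x.2 + Λ ≤ a₂ + w₂) → shp a₂ x ∈ Om)
    (hwin : ∀ v, (∃ o ∈ Om, sd v o ≤ q) → v ∈ Wd)
    (hloc : ∀ s ∈ W, (∃ c ∈ Q, DA.sd (segNear s) c ≤ rZ + 8 ∧ DA.sd (segFar s) c ≤ rZ + 8) ∨
      ∃ j ∈ Jk, (j.1 ≤ (segNear s).1 ∧ (segNear s).1 ≤ j.1 + 4 ∧ j.2 ≤ (segNear s).2 ∧
        (segNear s).2 ≤ j.2 + 4) ∧ j.1 ≤ (segFar s).1 ∧ (segFar s).1 ≤ j.1 + 4 ∧
        j.2 ≤ (segFar s).2 ∧ (segFar s).2 ≤ j.2 + 4)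
    {s : Bool × ℕ × ℕ} (h : s ∈ W) :
    segNear s ∉ DA.Rg a₂ w₂ Wd ∧ segFar s ∉ DA.Rg a₂ w₂ Wd := by
  have key : ∀ v x, x ∈ Q ∪ Jk → sd v x ≤ rZ + 8 → v ∉ DA.Rg a₂ w₂ Wd := by
    intro v x hx h1 h2
    have := rg_far hB hq hOm hwin h2 hx
    omega
  rcases hloc s h with ⟨c, hc, h1, h2⟩ | ⟨j, hj, h1, h2⟩
  · exact ⟨key _ c (Finset.mem_union_left _ hc) h1, key _ c (Finset.mem_union_left _ hc) h2⟩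
  · refine ⟨key _ j (Finset.mem_union_right _ hj) ?_, key _ j (Finset.mem_union_right _ hj) ?_⟩
    · have : sd (segNear s) j ≤ 4 := by
        rw [sd_le]
        omega
      omega
    · have : sd (segFar s) j ≤ 4 := by
        rw [sd_le]
        omega
      omega

end

/-- the labels of `GSys` -/
lemma GSys.labD {α : Type u} {M : Matroid α} {w s : ℕ} {𝒯 : Finset (ℕ × ℕ)}
    {L₁ : Bool × ℕ × ℕ → List α} {f₁ : α → Sym2 ((ℕ × ℕ) ⊕ α)} {e₁ : Bool × ℕ × ℕ → α} {u₁ : ℕ}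
    {L₂ : Bool × ℕ × ℕ → List α} {f₂ : α → Sym2 ((ℕ × ℕ) ⊕ α)} {e₂ : Bool × ℕ × ℕ → α} {u₂ : ℕ}
    {D : Set α} {σ n m : ℕ} {τ : ℕ → ℕ × ℕ} {R : ℕ → Bool × ℕ × ℕ} {c : ℕ → ℕ → α}
    {Za : Finset (Bool × ℕ × ℕ)} {row : α → Sym2 (ℕ × ℕ)} {β D₀ δ₀ D₁ δ₁ : ℕ}
    {Hm Hs₀ Om₁ Hs₁ Om₂ : Finset (ℕ × ℕ)}
    (h : GSys M w s 𝒯 L₁ f₁ e₁ u₁ L₂ f₂ e₂ u₂ D σ n m τ R c Za row β D₀ δ₀ D₁ δ₁ Hm Hs₀ Om₁ Hs₁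
      Om₂) : LabD w L₁ e₁ n m R c :=
  ⟨h.b.row, h.b.mem, h.b.inj, h.b.anc, h.all⟩

/-- a row at a vertex -/
lemma row_at {w : ℕ} {v : ℕ × ℕ} (h1 : v.1 + 1 ≤ w) (h2 : v.2 ≤ w) :
    ∃ s ∈ Seg w, segNear s = v ∨ segFar s = v := by
  obtain ⟨s, hs, h3⟩ := seg_of_wadj (w := w) (p := v) (q := (v.1 + 1, v.2)) (Or.inl ⟨rfl, Or.inl rfl⟩)
    (by rw [Gad.mem_rct]; omega) (by rw [Gad.mem_rct]; simp only; omega)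
  refine ⟨s, hs, ?_⟩
  unfold srow at h3
  rw [Sym2.eq_iff] at h3
  rcases h3 with h3 | h3
  · exact Or.inl h3.1
  · exact Or.inr h3.2

/-- the vertices of `Hs₀` are bad -/
lemma hs_bdV {α : Type u} {M : Matroid α} {S : Set α} {row : α → Sym2 (ℕ × ℕ)}
    {w s n r Cg η a n₀ rZ β D₀ δ₀ D₁ δ₁ : ℕ} {𝒯 : Finset (ℕ × ℕ)} {D : Set α}
    {L₁ : Bool × ℕ × ℕ → List α} {f₁ : α → Sym2 ((ℕ × ℕ) ⊕ α)} {e₂ : Bool × ℕ × ℕ → α}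
    {τ : ℕ → ℕ × ℕ} {F : ℕ → ℕ} {P Q : Finset (ℕ × ℕ)} {Za : Finset (Bool × ℕ × ℕ)}
    {LR₀ Zq LR : Set (Bool × ℕ × ℕ)} {Hm Hs₀ Om₁ Hs₁ Om₂ : Finset (ℕ × ℕ)}
    (hg : GeoH M w s 𝒯 L₁ f₁ e₂ n τ r Cg η F P Za LR₀ a n₀ Zq LR)
    (hR : Rnd M S row w D β D₀ δ₀ D₁ δ₁ Hm Hs₀ Om₁ Hs₁ Om₂) (hP : Om₂ ⊆ P)
    (hs : Zq = ZQ w a n₀ rZ Q) {v : ℕ × ℕ} (hv : v ∈ Hs₀) (h1 : v.1 + 1 ≤ w) (h2 : v.2 ≤ w) :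
    BdV a n₀ rZ Q v := by
  have h3 := hR.sub₀ hv
  have h4 := hR.ball₁ v h3 v (by omega) h2 (by rw [sd_le]; omega)
  have h5 := hP (hR.sub₁ h4)
  obtain ⟨t, ht, h6⟩ := row_at h1 h2
  have h7 := hg.near v h5 t ht (by
    rcases h6 with h6 | h6
    · left
      rw [h6]
      unfold SqN
      omega
    · right
      rw [h6]
      unfold SqN
      omega)
  exact bdV_zq hs ⟨t, h7, h6⟩

end TSH
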