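import Pool.Agent.TST.PassC54

/-!
# One pass of LIFT (row R8 of T-star, helper54)
-/

set_option autoImplicit false

open Set BIC BICS CWL
open scoped Matroid

namespace TSH

universe u

open Mdl Mdj EN Gad TST EN.Wall DA

section

variable {α : Type u} {M : Matroid α} {S S' Y F Dr : Set α} {row : α → Sym2 (ℕ × ℕ)}
  {w a₂ w₂ i q L Λ δ D₀ a' b' : ℕ} {Wd : Set (ℕ × ℕ)} {Om Hs₀ Pt V : Finset (ℕ × ℕ)}
  {G : ℕ × ℕ → ℕ × ℕ} {Zt Kp : Set (Sym2 (ℕ × ℕ))} {z : α}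

open Classical in
/-- all regular locations in the region -/
noncomputable def NLp (M : Matroid α) (S : Set α) (row : α → Sym2 (ℕ × ℕ)) (w a₂ w₂ : ℕ)
    (Wd : Set (ℕ × ℕ)) (z : α) : Finset (ℕ × ℕ) :=
  (Finset.range (w + 1) ×ˢ Finset.range (w + 1)).filter fun v =>
    v ∈ DA.Rg a₂ w₂ Wd ∧ DeepR (0, 0) (w₂ + 1) (w₂ + 1) 4 (shp a₂ v) ∧
      ∃ c, c ⊆ S ∧ WallE c row w ∅ ∧ v ∈ LocR M S row c z

lemma mem_NLp {v : ℕ × ℕ} (haw : a₂ + w₂ ≤ w) : v ∈ NLp M S row w a₂ w₂ Wd z ↔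
    v ∈ DA.Rg a₂ w₂ Wd ∧ DeepR (0, 0) (w₂ + 1) (w₂ + 1) 4 (shp a₂ v) ∧
      ∃ c, c ⊆ S ∧ WallE c row w ∅ ∧ v ∈ LocR M S row c z := by
  classical
  unfold NLp
  rw [Finset.mem_filter]
  refine ⟨fun h => h.2, fun h => ⟨?_, h⟩⟩
  have h1 := Rg.rect h.1 haw
  rw [Gad.mem_rct] at h1
  rw [Finset.mem_product, Finset.mem_range, Finset.mem_range]
  omega

/-- **The data `TwoH`** for the elements of one pass. -/
theorem passT_twoH [M.Finite] (ho : OTr M S S' Y F Dr row w a₂ w₂ Wd)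
    (hP : RHol (M ／ F) S' (fun x => (row x).map (shp a₂)) w₂ Wd)
    (hsk : rk (M ／ F) (S' ∪ Y) = rk (M ／ F) S' + rk (M ／ F) Y)
    (hC : Crs.{u} w₂ i q L a' b' Om Wd G Zt Kp) (hi : i ≤ 1)
    (hΛ : L + 20 + δ ≤ Λ) (hΛw : Λ ≤ w₂)
    (hOmd : ∀ o ∈ Om, Λ ≤ o.1 ∧ Λ ≤ o.2 ∧ o.1 + Λ ≤ w₂ ∧ o.2 + Λ ≤ w₂)
    (hOm : ∀ o ∈ Om, ∃ x ∈ Pt, o = shp a₂ x ∧ a₂ ≤ x.1 ∧ a₂ ≤ x.2)
    (hvc : ∀ v ∈ DA.Rg a₂ w₂ Wd, VC M S row w v)
    (hreg : ∀ v ∈ DA.Rg a₂ w₂ Wd, RegV w D₀ Hs₀ v)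
    (hz : z ∈ M.closure (S' ∪ Y ∪ F)) (hzF : z ∉ F)
    (hT : PassT M S row w D₀ Hs₀ a₂ w₂ i Λ Λ Pt V z) :
    TwoH (M ／ F) S' Y (fun x => (row x).map (shp a₂)) w₂ i Wd Om L 8 4 δ z
      ((NLp M S row w a₂ w₂ Wd z).image (shp a₂)) ∧
      ∀ v ∈ NLp M S row w a₂ w₂ Wd z, ∀ v' ∈ V, Λ ≤ sd v v' := by
  classical
  have haw := ho.aw
  obtain ⟨N, hN8, hNg, hNs, hNK⟩ := hT
  -- the regular locations of the region are in `N`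
  have hsub : ∀ v ∈ NLp M S row w a₂ w₂ Wd z, v ∈ N := by
    intro v hv
    rw [mem_NLp haw] at hv
    obtain ⟨h1, h2, c, hc, hW, h3⟩ := hv
    exact hNs c hc hW v h3 (hreg v h1)
  -- no hole near to `N`
  have hoff : ∀ v ∈ N, (a₂ + Λ ≤ v.1 ∧ v.1 + Λ ≤ a₂ + w₂ ∧ a₂ + Λ ≤ v.2 ∧ v.2 + Λ ≤ a₂ + w₂) ∧
      OffL (L + 10) Om (shp a₂ v) := by
    intro v hv
    obtain ⟨h1, h2, _⟩ := hNg v hv
    refine ⟨h1, fun o ho' => ?_⟩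
    obtain ⟨x, hx, rfl, hx1, hx2⟩ := hOm o ho'
    have h3 := h2 x hx
    unfold shp
    simp only
    omega
  have hfree : ∀ v ∈ N, ∀ q' : ℕ × ℕ, sd q' (shp a₂ v) ≤ 4 → q' ∉ Wd := by
    intro v hv q' h1 h2
    obtain ⟨o, ho', h3⟩ := hC.win' q' h2
    have h4 := (hoff v hv).2 o ho'
    rw [sd_le] at h1 h3
    omega
  have hNR : ∀ v ∈ N, v ∈ DA.Rg a₂ w₂ Wd ∧ DeepR (0, 0) (w₂ + 1) (w₂ + 1) 8 (shp a₂ v) ∧
      DeepR (0, 0) (w₂ + 1) (w₂ + 1) δ (shp a₂ v) := by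
    intro v hv
    obtain ⟨h1, h2⟩ := hoff v hv
    have h3 := hfree v hv (shp a₂ v) (by rw [sd_le]; omega)
    refine ⟨⟨by omega, by omega, ?_, h3⟩, ?_, ?_⟩
    · rw [Gad.mem_rct]
      unfold shp
      simp only
      omega
    · unfold DeepR shp
      simp only
      omega
    · unfold DeepR shp
      simp only
      omega
  have h00 : ((0, 0) : ℕ × ℕ) ∈ rect 0 0 (w₂ + 1) (w₂ + 1) \ Wd := by
    refine ⟨by rw [Gad.mem_rct]; simp only; omega, fun h1 => ?_⟩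
    obtain ⟨o, ho', h3⟩ := hC.win' _ h1
    have h4 := hOmd o ho'
    rw [sd_le] at h3
    simp only at h3
    omega
  have hPf : (M ／ F).Finite := BQ.fin_contract _
  have hfull : ∀ p ∈ rect 0 0 (w₂ + 1) (w₂ + 1) \ Wd, DeepR (0, 0) (w₂ + 1) (w₂ + 1) 4 p →
      (∃ q ∈ rect 0 0 (w₂ + 1) (w₂ + 1) \ Wd, wadj p q) ∧
      ∀ c' ⊆ S', WallH c' (fun e => (row e).map (shp a₂)) w₂ Wd →
        rk (M ／ F) S' ≤ rk (M ／ F) (S' \ {e | e ∈ c' ∧ p ∈ (row e).map (shp a₂)}) + 1 := by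
    intro p hp hpd
    constructor
    · obtain ⟨c₀, hc₀, hW₀⟩ := ho.rep
      have hW := ho.trace hc₀ hW₀
      have hB := hP.bic (c₀ ∩ S') inter_subset_right hW
      have hf2 : (M ／ F ／ (S' \ (c₀ ∩ S'))).Finite := BQ.fin_contract _
      obtain ⟨_, _, _, hV, _⟩ := hC.quo _ _ _ hB hW
      refine hW.nbr hV hp h00 ?_
      rintro rfl
      unfold DeepR at hpd
      simp only at hpd
      omega
    · intro c' hc' hW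
      obtain ⟨Fb, hFb⟩ := hC.full1 c' _ hW p hpd
      exact hP.drop hc' hW hp hFb
  refine ⟨ho.twoH (i := i) (L := L) (β := 8) (D := 4) (δ := δ) (Om := Om) hP hsk hi hfull
    (by omega) (fun v hv _ => hvc v hv) hz hzF
    ((Finset.card_le_card fun v hv => hsub v hv).trans hN8) ?_ ?_ ?_, ?_⟩
  · intro v hv
    have h1 := hsub v hv
    obtain ⟨h2, h3, h4⟩ := hNR v h1
    refine ⟨(Rg.le h2).1, (Rg.le h2).2, h4, h3, ?_, hfree v h1⟩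
    intro o ho'
    have h5 := (hoff v h1).2 o ho'
    omega
  · intro c hc hW v hv hvR hvD
    rw [mem_NLp haw]
    exact ⟨hvR, hvD, c, hc, hW, hv⟩
  · obtain ⟨c, hc, hW, p₁, h1, p₂, h2, hne, o₁, o₂, hk⟩ := hNK
    have hmem : ∀ p ∈ N, p ∈ LocR M S row c z → p ∈ NLp M S row w a₂ w₂ Wd z := by
      intro p hp hpo
      obtain ⟨g1, g2, _⟩ := hNR p hp
      rw [mem_NLp haw]
      refine ⟨g1, ?_, c, hc, hW, hpo⟩
      unfold DeepR at g2 ⊢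
      simp only at g2 ⊢
      omega
    refine ⟨c, hc, hW, p₁, hmem _ h1 o₁, p₂, hmem _ h2 o₂, hne, o₁, o₂, ?_⟩
    rcases hk with ⟨h3, h4⟩ | ⟨h3, v₀, s1, s2, s3⟩
    · exact Or.inl ⟨h3, fun v hv hvl => h4 v (hsub v hv) hvl⟩
    · exact Or.inr ⟨h3, v₀, s1, s2, fun v hv hvl => s3 v (hsub v hv) hvl⟩
  · intro v hv v' hv'
    exact (hNg v (hsub v hv)).2.2 v' hv'

end

end TSH
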