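import Pool.Agent.TST.ZqGeo

/-!
# A small square inside of a square whose boundary is far from few points (row R8, helper34)
-/

set_option autoImplicit false

open Set CWL

namespace TSH

/-- **Small square.**  `A` = bound of the width of the ring between the squares. -/
theorem exists_small (p Λ : ℕ) : ∃ A w₁ : ℕ, ∀ (a b : ℕ) (P : Finset (ℕ × ℕ)), a + w₁ ≤ b →
    P.card ≤ p → (∀ v ∈ P, a ≤ v.1 ∧ a ≤ v.2) →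
    ∃ a₂ w₂ : ℕ, a + Λ ≤ a₂ ∧ a₂ + w₂ + Λ ≤ b ∧ a₂ ≤ a + A ∧ b ≤ a₂ + w₂ + A ∧
      (∀ k, b = a + k → 2 ∣ a₂ - a) ∧
      ∀ v ∈ P, (a₂ + Λ ≤ v.1 ∧ v.1 + Λ ≤ a₂ + w₂ ∧ a₂ + Λ ≤ v.2 ∧ v.2 + Λ ≤ a₂ + w₂) ∨
        (v.1 + Λ ≤ a₂ ∨ a₂ + w₂ + Λ ≤ v.1 ∨ v.2 + Λ ≤ a₂ ∨ a₂ + w₂ + Λ ≤ v.2) := by
  classical
  obtain ⟨A, hA⟩ : ∃ A : ℕ, A = 2 * (Λ + 5) * (4 * p + 1) := ⟨_, rfl⟩
  refine ⟨A + 10, 2 * A + 16 + 2 * Λ, ?_⟩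
  intro a b P hab hP hPa
  obtain ⟨k, rfl⟩ : ∃ k, b = a + k := ⟨b - a, by omega⟩
  obtain ⟨P', hP'⟩ : ∃ P' : Finset (ℕ × ℕ), P' = P.image fun v => (v.1 - a, v.2 - a) := ⟨_, rfl⟩
  have e1 : 4 * (Λ + 5) * (4 * p + 1) = 2 * A := by rw [hA]; ring
  obtain ⟨a', h1, h2, h3, h4⟩ := exists_ringA Λ (Λ + 5) p k le_rfl P'
    (by rw [hP']; exact Finset.card_image_le.trans hP) (by omega)
  rw [← hA] at h3
  obtain ⟨q, hq⟩ : ∃ q : ℕ, q = (k - 2 * a') / 8 := ⟨_, rfl⟩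
  rw [← hq] at h4
  have hq1 : 8 * q ≤ k - 2 * a' := by rw [hq]; omega
  have hq2 : k - 2 * a' < 8 * q + 8 := by rw [hq]; omega
  refine ⟨a + a', 8 * q - 1, by omega, by omega, by omega, by omega, fun _ _ => ?_, ?_⟩
  · rw [Nat.add_sub_cancel_left]
    exact h1
  · intro v hv
    have h5 := h4 (v.1 - a, v.2 - a) (by
      rw [hP']
      exact Finset.mem_image_of_mem _ hv)
    have h6 := hPa v hv
    simp only at h5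
    omega

end TSH
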