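import Pool.Agent.TST.GDef
import Pool.Agent.TST.SmallBox
import Pool.Agent.DA.OwnTr
import Pool.Agent.DA.HolK
import Pool.Agent.DA.LiftHW
import Pool.Agent.DA.Cross

/-!
# One pass of LIFT in the matching `i` (row R8 of T-star, definitions)
-/

set_option autoImplicit false

open Set BIC BICS CWL
open scoped Matroid

namespace TSH

universe u

open Mdl Mdj EN Gad TST EN.Wall

/-- the small square `[a₂, a₂ + w₂]²` is deep inside of the inner square, and every point of `Pt` is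
deep inside or far outside of it -/
structure SBox (Λ a n₀ a₂ w₂ : ℕ) (Pt : Finset (ℕ × ℕ)) : Prop where
  big : Λ ≤ w₂
  lo : a + Λ ≤ a₂
  hi : a₂ + w₂ + Λ ≤ a + (2 * n₀ - 1)
  pts : ∀ v ∈ Pt, (a₂ + Λ ≤ v.1 ∧ v.1 + Λ ≤ a₂ + w₂ ∧ a₂ + Λ ≤ v.2 ∧ v.2 + Λ ≤ a₂ + w₂) ∨
    (v.1 + Λ ≤ a₂ ∨ a₂ + w₂ + Λ ≤ v.1 ∨ v.2 + Λ ≤ a₂ ∨ a₂ + w₂ + Λ ≤ v.2)

/-- the output of `holK` -/
structure KDat {α : Type u} (M : Matroid α) (w : ℕ) (L : Bool × ℕ × ℕ → List α)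
    (f : α → Sym2 ((ℕ × ℕ) ⊕ α)) (u a n₀ r : ℕ) (Q : Finset (ℕ × ℕ)) (N : Matroid α)
    (J : Finset (ℕ × ℕ)) (W : Set (Bool × ℕ × ℕ)) : Prop where
  fin : N.Finite
  bic : Bic N (crr L (Seg w)) f
  quo : Quo M N (crr L (Seg w))
  J_le : J.card ≤ u
  W_sub : W ⊆ DA.BR w a n₀ r Q
  J_box : ∀ j ∈ J, a ≤ j.1 ∧ j.1 + 4 ≤ a + (2 * n₀ - 1) ∧ a ≤ j.2 ∧ j.2 + 4 ≤ a + (2 * n₀ - 1)
  W_loc : ∀ s ∈ W, (∃ c ∈ Q, DA.sd (segNear s) c ≤ r + 8 ∧ DA.sd (segFar s) c ≤ r + 8) ∨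
    ∃ j ∈ J, (j.1 ≤ (segNear s).1 ∧ (segNear s).1 ≤ j.1 + 4 ∧ j.2 ≤ (segNear s).2 ∧
      (segNear s).2 ≤ j.2 + 4) ∧ j.1 ≤ (segFar s).1 ∧ (segFar s).1 ≤ j.1 + 4 ∧
      j.2 ≤ (segFar s).2 ∧ (segFar s).2 ≤ j.2 + 4
  exact : ∀ B ⊆ crr L (DA.BR w a n₀ r Q), crr L W ⊆ B → ∀ X ⊆ crr L (DA.BR w a n₀ r Q),
    rk M (X ∪ B) + rk N B = rk N (X ∪ B) + rk M B
  core : ∀ A : Set (ℕ × ℕ), (∀ v ∈ A, v ∈ Box a n₀ ∧ ∀ c ∈ Q, r < DA.sd v c) →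
    ∀ G ⊆ crr L (Seg w), crr L W ⊆ G → Disjoint G (crr L (DA.RA w A)) →
    (∀ s ∈ Seg w, (segNear s ∈ A ↔ segFar s ∉ A) → ∃ x ∈ L s, x ∉ G) →
    ∀ X ⊆ crr L (DA.RA w A), rk M (X ∪ G) = rk M G + rk N X
  clo : ∀ B ⊆ crr L (DA.BR w a n₀ r Q), crr L W ⊆ B → ∀ x ∈ crr L (DA.BR w a n₀ r Q),
    x ∈ N.closure B → x ∈ M.closure B

/-- **The elements of one pass**: all regular locations of `z` are in a set `N` of at most 8 vertices,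
all of them deep inside of the small square, off the lines through the points of `Pt` and far from
`V`; and two of them are own vertices in different blobs of the matching `i`. -/
def PassT {α : Type u} (M : Matroid α) (S : Set α) (row : α → Sym2 (ℕ × ℕ)) (w D₀ : ℕ)
    (Hs₀ : Finset (ℕ × ℕ)) (a₂ w₂ i L δ : ℕ) (Pt V : Finset (ℕ × ℕ)) (z : α) : Prop :=
  ∃ N : Finset (ℕ × ℕ), N.card ≤ 8 ∧
    (∀ v ∈ N, (a₂ + δ ≤ v.1 ∧ v.1 + δ ≤ a₂ + w₂ ∧ a₂ + δ ≤ v.2 ∧ v.2 + δ ≤ a₂ + w₂) ∧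
      DA.OffL L Pt v ∧ ∀ v' ∈ V, δ ≤ DA.sd v v') ∧
    (∀ c₀, c₀ ⊆ S → DA.WallE c₀ row w ∅ → ∀ v ∈ DA.LocR M S row c₀ z,
      DA.RegV w D₀ Hs₀ v → v ∈ N) ∧
    DA.Kd M S row w a₂ i N z

end TSH
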