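import Pool.Agent.TST.PassS54

/-!
# One pass of LIFT: the theorem (row R8 of T-star, helper54)
-/

set_option autoImplicit false

open Set BIC BICS CWL
open scoped Matroid

namespace TSH

universe u

open Mdl Mdj EN Gad TST EN.Wall DA

section

variable {α : Type u} {M : Matroid α} {m : ℕ} {R : ℕ → Bool × ℕ × ℕ} {c : ℕ → ℕ → α}
  {Z : Set (Bool × ℕ × ℕ)} {e : Bool × ℕ × ℕ → α} {b : ℕ}

lemma ncard_KR : (KR m R c Z b).ncard ≤ (LtL m R Z).card := by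
  classical
  have h1 : KR m R c Z b ⊆ ((LtL m R Z).image fun i => c i b : Finset α) := by
    rintro x ⟨i, hi, hiZ, rfl⟩
    rw [Finset.coe_image]
    refine ⟨i, ?_, rfl⟩
    unfold LtL
    rw [Finset.mem_coe, Finset.mem_filter, Finset.mem_range]
    exact ⟨hi, hiZ⟩
  refine (Set.ncard_le_ncard h1 (Finset.finite_toSet _)).trans ?_
  rw [Set.ncard_coe_finset]
  exact Finset.card_image_le

lemma ncard_YR {w : ℕ} (hZ : Z ⊆ Seg w) (hcov : ∀ r ∈ Seg w, ∃ i < m, R i = r) :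
    (YR e Z).ncard ≤ (LtL m R Z).card := by
  classical
  have h1 : YR e Z ⊆ ((LtL m R Z).image fun i => e (R i) : Finset α) := by
    rintro x ⟨s, hs, rfl⟩
    obtain ⟨i, hi, rfl⟩ := hcov s (hZ hs)
    rw [Finset.coe_image]
    refine ⟨i, ?_, rfl⟩
    unfold LtL
    rw [Finset.mem_coe, Finset.mem_filter, Finset.mem_range]
    exact ⟨hi, hs⟩
  refine (Set.ncard_le_ncard h1 (Finset.finite_toSet _)).trans ?_
  rw [Set.ncard_coe_finset]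
  exact Finset.card_image_le

lemma zt_sub {w a n₀ : ℕ} {Zq : Set (Bool × ℕ × ℕ)} : ZT w a n₀ Zq ⊆ Seg w := by
  rintro s (h | h)
  · exact h.1
  · exact h.1

end

/-- **One pass of LIFT.** -/
theorem liftPass (k κ : ℕ) : ∃ ρ C : ℕ, ∀ Cg : ℕ, ∃ Λ : ℕ, ∀ wmax m' : ℕ, ρ + 1 ≤ m' →
    ∃ n' : ℕ, ∀ {α : Type u} (M : Matroid α) [M.Finite] (w s : ℕ)
    (𝒯 : Finset (ℕ × ℕ)) (L₁ : Bool × ℕ × ℕ → List α) (f₁ : α → Sym2 ((ℕ × ℕ) ⊕ α))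
    (e₁ : Bool × ℕ × ℕ → α) (u₁ : ℕ) (L₂ : Bool × ℕ × ℕ → List α)
    (f₂ : α → Sym2 ((ℕ × ℕ) ⊕ α)) (e₂ : Bool × ℕ × ℕ → α) (u₂ : ℕ) (D : Set α) (σ N m : ℕ)
    (τ : ℕ → ℕ × ℕ) (R : ℕ → Bool × ℕ × ℕ) (c : ℕ → ℕ → α) (Za : Finset (Bool × ℕ × ℕ))
    (row : α → Sym2 (ℕ × ℕ)) (β D₀ δ₀ D₁ δ₁ : ℕ) (Hm Hs₀ Om₁ Hs₁ Om₂ : Finset (ℕ × ℕ))
    (r η : ℕ) (F : ℕ → ℕ) (P : Finset (ℕ × ℕ)) (LR₀ : Set (Bool × ℕ × ℕ)) (a n₀ : ℕ)
    (Zq LR : Set (Bool × ℕ × ℕ)) (rZ : ℕ) (Q : Finset (ℕ × ℕ)) (Nk : Matroid α)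
    (Jk : Finset (ℕ × ℕ)) (W : Set (Bool × ℕ × ℕ)) (a₂ w₂ i : ℕ) (J : Finset ℕ),
    w ≤ wmax → u₁ ≤ κ → Om₂ ⊆ P → D₀ ≤ r →
    GSys M w s 𝒯 L₁ f₁ e₁ u₁ L₂ f₂ e₂ u₂ D σ N m τ R c Za row β D₀ δ₀ D₁ δ₁ Hm Hs₀ Om₁ Hs₁ Om₂ →
    GeoH M w s 𝒯 L₁ f₁ e₂ N τ r Cg η F P Za LR₀ a n₀ Zq LR →
    SqZ w r Cg a n₀ rZ Q Zq → KDat M w L₁ f₁ u₁ a n₀ rZ Q Nk Jk W →
    SBox Λ a n₀ a₂ w₂ (Q ∪ Jk) → i ≤ 1 → J ⊆ Finset.range N → n' ≤ J.card →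
    HasUniformMinor M k ∨ ∃ B ⊆ J, B.card = m' ∧ ∃ V : Finset (ℕ × ℕ),
      V.card ≤ C * (LtL m R (ZT w a n₀ Zq)).card ∧
      ∀ X ⊆ crr L₁ (Seg w), UnI m N R c B (ZT w a n₀ Zq) ⊆ X →
        (∀ r ∈ Seg w, r ∉ ZT w a n₀ Zq → ∀ x ∈ L₁ r, x ∈ X) → ∀ T ⊆ D,
        (∀ z ∈ T, PassT M (crr L₁ (Seg w)) row w D₀ Hs₀ a₂ w₂ i Λ Λ (Q ∪ Jk) V z) →
          rk M (T ∪ X) ≤ rk M X + ρ := by
  classical
  obtain ⟨ρ, C, hH⟩ := liftHW.{u} k 8 4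
  refine ⟨ρ, 2 * C, fun Cg => ?_⟩
  obtain ⟨q, hq⟩ : ∃ q, q = Cg + 20 := ⟨_, rfl⟩
  obtain ⟨L, hX⟩ := crossRow.{u} (Cg + κ) q
  obtain ⟨δ, hH⟩ := hH L
  obtain ⟨Λ, hΛ⟩ : ∃ Λ, Λ = L + δ + 3 * Cg + 100 := ⟨_, rfl⟩
  refine ⟨Λ, fun wmax m' hm' => ?_⟩
  obtain ⟨n', hH⟩ := hH wmax m' hm'
  refine ⟨n', ?_⟩
  intro α M _ w s 𝒯 L₁ f₁ e₁ u₁ L₂ f₂ e₂ u₂ D σ N m τ R c Za row β D₀ δ₀ D₁ δ₁ Hm Hs₀ Om₁ Hs₁ Om₂
    r η F P LR₀ a n₀ Zq LR rZ Q Nk Jk W a₂ w₂ i J hwm hu hOP hDr hS hG hSq hK hB hi hJ hJn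
  have hside := hS.b.pair.s₁
  have hrow := hS.rw
  have hl := hS.labD
  have hNf := hK.fin
  have hbig := hB.big
  have hlo := hB.lo
  have hhi := hB.hi
  have haw₀ := hG.wall.2.2.2.1
  have hra := hG.le_a
  have hrw := hG.le_w
  have hn₀ := hG.wall.2.2.1
  have haw : a₂ + w₂ ≤ w := by omega
  obtain ⟨Z, hZ⟩ : ∃ Z, Z = ZT w a n₀ Zq := ⟨_, rfl⟩
  have hZS : Z ⊆ Seg w := by rw [hZ]; exact zt_sub
  -- the points inside of the small square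
  obtain ⟨Om, hOm⟩ : ∃ Om : Finset (ℕ × ℕ), Om = ((Q ∪ Jk).filter fun x =>
    a₂ + Λ ≤ x.1 ∧ x.1 + Λ ≤ a₂ + w₂ ∧ a₂ + Λ ≤ x.2 ∧ x.2 + Λ ≤ a₂ + w₂).image (shp a₂) := ⟨_, rfl⟩
  have mOm : ∀ o, o ∈ Om ↔ ∃ x ∈ Q ∪ Jk, (a₂ + Λ ≤ x.1 ∧ x.1 + Λ ≤ a₂ + w₂ ∧ a₂ + Λ ≤ x.2 ∧
      x.2 + Λ ≤ a₂ + w₂) ∧ shp a₂ x = o := by
    intro o
    rw [hOm, Finset.mem_image]
    constructor
    · rintro ⟨x, hx, rfl⟩
      rw [Finset.mem_filter] at hx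
      exact ⟨x, hx.1, hx.2, rfl⟩
    · rintro ⟨x, hx, hx', rfl⟩
      exact ⟨x, Finset.mem_filter.2 ⟨hx, hx'⟩, rfl⟩
  have hOmc : Om.card ≤ Cg + κ := by
    rw [hOm]
    refine Finset.card_image_le.trans ((Finset.card_filter_le _ _).trans
      ((Finset.card_union_le _ _).trans ?_))
    have h1 := hSq.Q_le
    have h2 := hK.J_le
    omega
  have hOmd : ∀ o ∈ Om, Λ ≤ o.1 ∧ Λ ≤ o.2 ∧ o.1 + Λ ≤ w₂ ∧ o.2 + Λ ≤ w₂ := by
    intro o ho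
    obtain ⟨x, hx, h1, rfl⟩ := (mOm o).1 ho
    unfold shp
    simp only
    omega
  have hOm' : ∀ x ∈ Q ∪ Jk, (a₂ + Λ ≤ x.1 ∧ x.1 + Λ ≤ a₂ + w₂ ∧ a₂ + Λ ≤ x.2 ∧
      x.2 + Λ ≤ a₂ + w₂) → shp a₂ x ∈ Om := fun x hx h1 => (mOm _).2 ⟨x, hx, h1, rfl⟩
  obtain ⟨a', b', Wd, G, Zt, Kp, hC⟩ := hX w₂ i Om hi (by omega) hOmc (by
    intro o ho
    have := hOmd o ho
    unfold DeepR
    simp only
    omega)
  obtain ⟨A, hA⟩ : ∃ A, A = DA.Rg a₂ w₂ Wd := ⟨_, rfl⟩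
  have hrZ := hSq.rZ_le
  have hqΛ : q < Λ := by omega
  have hwin := hC.win
  have hZA : ∀ s ∈ Z, segNear s ∉ DA.Rg a₂ w₂ Wd ∧ segFar s ∉ DA.Rg a₂ w₂ Wd := by
    intro s hs
    rw [hZ] at hs
    exact rg_zt hB hqΛ (by omega) hOm' hwin hSq.eq hs
  have hWA : ∀ s ∈ W, s ∉ Z ∧ segNear s ∉ DA.Rg a₂ w₂ Wd ∧ segFar s ∉ DA.Rg a₂ w₂ Wd := by
    intro s hs
    refine ⟨?_, W_rg hB hqΛ (by omega) hOm' hwin hK.W_loc hs⟩
    rw [hZ]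
    exact W_zt hSq.eq hK.W_sub hs
  have hAbox : ∀ v ∈ DA.Rg a₂ w₂ Wd, v ∈ Box a n₀ ∧ ∀ c ∈ Q, rZ < sd v c := by
    intro v hv
    refine ⟨?_, fun c hc => ?_⟩
    · have h1 := rg_box hB hv
      simp only [Box, mem_ofPred_eq]
      omega
    · have h1 := rg_far hB hqΛ hOm' hwin hv (Finset.mem_union_left _ hc)
      omega
  -- the sets
  have ho := otr_pass hside hrow hl hZS hJ haw hZA
  obtain ⟨S', hS'⟩ : ∃ S', S' = crr L₁ (RA w (DA.Rg a₂ w₂ Wd)) := ⟨_, rfl⟩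
  obtain ⟨Y, hY⟩ : ∃ Y, Y = YR e₁ Z ∪ DA.KU (KR m R c Z) J := ⟨_, rfl⟩
  obtain ⟨FF, hFF⟩ : ∃ FF, FF = FR w L₁ e₁ Z (DA.Rg a₂ w₂ Wd) ∪ UnI m N R c J Z := ⟨_, rfl⟩
  obtain ⟨Dr, hDr'⟩ : ∃ Dr, Dr = DrR w e₁ (DA.Rg a₂ w₂ Wd) := ⟨_, rfl⟩
  rw [← hS', ← hY, ← hFF, ← hDr'] at ho
  have hSE := ho.SE
  have hFE : FF ⊆ M.E := ho.subF.trans hSE
  have hfP : (M ／ FF).Finite := BQ.fin_contract _
  -- exactness
  have hcore : ∀ G, G = FF ∨ G = FF ∪ Y → ∀ X ⊆ S', rk M (X ∪ G) = rk M G + rk Nk X := by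
    intro G hG' X hX
    have hGS : G ⊆ FF ∪ Y := by
      rcases hG' with rfl | rfl
      · exact subset_union_left
      · exact Subset.rfl
    have hFG : FF ⊆ G := by
      rcases hG' with rfl | rfl
      · exact Subset.rfl
      · exact subset_union_left
    refine hK.core (DA.Rg a₂ w₂ Wd) hAbox G (hGS.trans (union_subset ho.subF ho.subY)) ?_ ?_ ?_ X
      (hS' ▸ hX)
    · refine Subset.trans ?_ hFG
      rintro x ⟨t, ht, hx⟩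
      obtain ⟨h1, h2, h3⟩ := hWA t ht
      rw [hFF]
      exact Or.inl ⟨t, (hK.W_sub ht).1, h1, fun h4 => h2 h4.2.1, hx, fun h4 =>
        absurd (h4.2.2 h3) h2⟩
    · rw [← hS']
      refine Disjoint.mono_left hGS ?_
      rw [Set.disjoint_left]
      rintro x (h1 | h1) h2
      · exact Set.disjoint_left.1 ho.dF h1 (Or.inl (Or.inl h2))
      · exact Set.disjoint_left.1 ho.dY h1 (Or.inl h2)
    · intro t ht h1
      have h2 : e₁ t ∈ Dr := by rw [hDr']; exact ⟨t, ⟨ht, h1⟩, rfl⟩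
      refine ⟨e₁ t, hside.mem_last ht, fun h3 => ?_⟩
      rcases hGS h3 with h3 | h3
      · exact Set.disjoint_left.1 ho.dF h3 (Or.inr h2)
      · exact Set.disjoint_left.1 ho.dY h3 (Or.inr h2)
  obtain ⟨hRH, hsk⟩ := rhol_pass hside hK.bic hrow ho hS' hcore
  -- the kept elements
  have hYKU : DA.KU (KR m R c Z) J ⊆ Y := by rw [hY]; exact subset_union_right
  have hYY : YR e₁ Z ⊆ Y := by rw [hY]; exact subset_union_left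
  have hdYF : Disjoint Y FF := by
    rw [Set.disjoint_left]
    exact fun x hx h1 => Set.disjoint_left.1 ho.dF h1 (Or.inl (Or.inr hx))
  have hind : (M ／ FF).Indep (DA.KU (KR m R c Z) J) := by
    refine indep_pass hside hrow hl hJ ho.subF (Disjoint.mono_left hYKU hdYF) ?_
    intro t ht h1
    exact Set.disjoint_left.1 hdYF (hYY ⟨t, ht, rfl⟩) h1
  have hspan : Dr ⊆ M.closure (S' ∪ Y ∪ FF) := by
    rw [hDr']
    rintro x ⟨t, ht, rfl⟩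
    refine pass_span hside hrow hK hB (by omega) haw₀ hC (by omega)
      (fun v hv c hc => rg_far hB hqΛ hOm' hwin hv (Finset.mem_union_left _ hc))
      (fun t ht => (hWA t ht).2) ho hS' hRH (fun o ho' => by have := hOmd o ho'; omega) (by omega)
      ?_ t ht
    intro t' ht' y hy
    have h1 : y ∈ crr L₁ (Seg w) := ⟨t', ht'.1, hy⟩
    rw [ho.eq] at h1
    rcases h1 with h1 | h1
    · exact Or.inl h1
    · rw [hDr'] at h1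
      obtain ⟨t'', ht'', rfl⟩ := h1
      have h2 := hside.uniq ht'.1 ht''.1 hy (hside.mem_last ht''.1)
      subst h2
      exact Or.inr ⟨ht'', rfl⟩
  have hcl : ∀ z ∈ D, z ∈ M.closure (S' ∪ Y ∪ FF) ∧ z ∉ FF := by
    intro z hz
    constructor
    · have h1 := hS.b.D_cl hz
      rw [ho.eq] at h1
      refine M.closure_subset_closure_of_subset_closure ?_ h1
      exact union_subset (M.subset_closure _ (union_subset (union_subset (ho.sub'.trans hSE)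
        (ho.subY.trans hSE)) hFE)) hspan
    · exact fun h1 => Set.disjoint_left.1 hS.b.D₁ hz (ho.subF h1)
  -- the geometry of `M`
  have hdeep : ∀ v ∈ DA.Rg a₂ w₂ Wd, v.1 + r + 1 ≤ w ∧ v.2 + r + 1 ≤ w ∧ r ≤ v.1 ∧ r ≤ v.2 := by
    intro v hv
    have h1 := rg_box hB hv
    omega
  have hreg : ∀ v ∈ DA.Rg a₂ w₂ Wd, RegV w D₀ Hs₀ v := by
    intro v hv
    have h1 := hdeep v hv
    refine ⟨?_, fun h2 => ?_⟩
    · unfold DeepR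
      simp only
      omega
    · have h3 := hs_bdV hG hS.rnd hOP hSq.eq h2 (by omega) (by omega)
      exact rg_bdV hB hqΛ (by omega) hOm' hwin h3 (by rw [sd_le]; omega) hv
  have hvc : ∀ v ∈ DA.Rg a₂ w₂ Wd, VC M (crr L₁ (Seg w)) row w v := by
    intro v hv
    obtain ⟨h1, h2⟩ := hreg v hv
    exact hS.rnd.vc v h1 h2
  -- the call
  obtain ⟨T₀, hT₀⟩ : ∃ T₀ : Set α, T₀ = {z | z ∈ D ∧ TwoH (M ／ FF) S' Y
    (fun x => (row x).map (shp a₂)) w₂ i Wd Om L 8 4 δ z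
    ((NLp M (crr L₁ (Seg w)) row w a₂ w₂ Wd z).image (shp a₂))} := ⟨_, rfl⟩
  have hS'P : S' ⊆ (M ／ FF).E := by
    rw [Matroid.contract_ground]
    exact fun x hx => ⟨hSE (ho.sub' hx), fun h1 => Set.disjoint_left.1 ho.dF h1
      (Or.inl (Or.inl hx))⟩
  have hYP : Y ⊆ (M ／ FF).E := by
    rw [Matroid.contract_ground]
    exact fun x hx => ⟨hSE (ho.subY hx), Set.disjoint_left.1 hdYF hx⟩
  have hKb : ∀ b ∈ J, (KR m R c Z b).ncard ≤ (LtL m R Z).card := fun b _ => ncard_KR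
  have hKd : ∀ b ∈ J, ∀ b' ∈ J, b ≠ b' → Disjoint (KR m R c Z b) (KR m R c Z b') := by
    intro b hb b' hb' hne
    rw [Set.disjoint_left]
    rintro x ⟨j, hj, _, rfl⟩ ⟨j', hj', _, h1⟩
    exact hne (hl.inj j hj b (Finset.mem_range.1 (hJ hb)) j' hj' b'
      (Finset.mem_range.1 (hJ hb')) h1).2
  have hcall := hH (M ／ FF) S' (YR e₁ Z) (KR m R c Z) (fun x => (row x).map (shp a₂)) w₂ i q a' b'
    (LtL m R Z).card Om Wd G Zt Kp J (by omega) hC hi hRH hJn (hYY.trans hYP) (hYKU.trans hYP) hKb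
    hKd (by rw [← hY]; exact hsk) hind (by
      rw [← hY, Set.disjoint_left]
      exact fun x hx h1 => Set.disjoint_left.1 ho.dY h1 (Or.inl hx)) (by
      rw [Set.disjoint_left]
      rintro x ⟨t, ht, rfl⟩ hx
      obtain ⟨b, hb, j, hj, _, h1⟩ := mem_KUR.1 hx
      exact hl.anc j hj b (Finset.mem_range.1 (hJ hb)) t (hZS ht) h1.symm) T₀
    (fun z => (NLp M (crr L₁ (Seg w)) row w a₂ w₂ Wd z).image (shp a₂)) (by
      intro z hz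
      rw [hT₀] at hz
      rw [← hY, con_cl (hcl z hz.1).2]
      exact (hcl z hz.1).1) (by
      rw [← hY, Set.disjoint_left]
      intro z hz h1
      rw [hT₀] at hz
      refine Set.disjoint_left.1 hS.b.D₁ hz.1 ?_
      rcases h1 with h1 | h1
      · exact ho.sub' h1
      · exact ho.subY h1) (by
      intro z hz
      rw [hT₀] at hz
      rw [← hY]
      exact hz.2)
  rcases hcall with hU | ⟨B, hBJ, hBc, V', hV'c, hV'r, hrk⟩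
  · exact Or.inl (HasUniformMinor_mono hU (DA.con_minor M FF))
  refine Or.inr ⟨B, hBJ, hBc, V'.image fun v => (v.1 + a₂, v.2 + a₂), ?_, ?_⟩
  · rw [← hZ]
    refine Finset.card_image_le.trans (hV'c.trans ?_)
    have h1 : rk (M ／ FF) (YR e₁ Z) ≤ (LtL m R Z).card := by
      refine (rk_le_ncard (M := M ／ FF) (X := YR e₁ Z) ?_).trans (ncard_YR hZS hS.cov)
      exact (M ／ FF).ground_finite.subset (hYY.trans hYP)
    calc C * (rk (M ／ FF) (YR e₁ Z) + (LtL m R Z).card)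
        ≤ C * ((LtL m R Z).card + (LtL m R Z).card) :=
          Nat.mul_le_mul_left _ (Nat.add_le_add_right h1 _)
      _ = 2 * C * (LtL m R Z).card := by ring
  · intro X hXS hUX hrX T hTD hTP
    rw [← hZ] at hUX hrX
    -- `T` is a set of elements of the call
    have hTT : T ⊆ {z | z ∈ T₀ ∧ ∀ v ∈ (NLp M (crr L₁ (Seg w)) row w a₂ w₂ Wd z).image (shp a₂),
        ∀ v' ∈ V', δ ≤ sd v v'} := by
      intro z hz
      obtain ⟨h1, h2⟩ := passT_twoH (δ := δ) (Λ := Λ) (D₀ := D₀) (Hs₀ := Hs₀) ho hRH hsk hC hi (by omega) hbig hOmd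
        (fun o ho' => by
          obtain ⟨x, hx, h3, rfl⟩ := (mOm o).1 ho'
          exact ⟨x, hx, rfl, by omega, by omega⟩) hvc hreg (hcl z (hTD hz)).1 (hcl z (hTD hz)).2
        (hTP z hz)
      refine ⟨by rw [hT₀]; exact ⟨hTD hz, h1⟩, ?_⟩
      intro p hp v' hv'
      obtain ⟨v, hv, rfl⟩ := Finset.mem_image.1 hp
      have h3 := h2 v hv (v'.1 + a₂, v'.2 + a₂) (Finset.mem_image_of_mem _ hv')
      have h4 := Rg.le ((mem_NLp haw).1 hv).1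
      have h5 : sd v (v'.1 + a₂, v'.2 + a₂) = sd (shp a₂ v) v' := by
        unfold sd shp
        simp only
        omega
      omega
    obtain ⟨X₀, hX₀⟩ : ∃ X₀, X₀ = S' ∪ DA.KU (KR m R c Z) (J \ B) := ⟨_, rfl⟩
    rw [← hX₀] at hrk
    have hX₀P : X₀ ⊆ (M ／ FF).E := by
      rw [hX₀]
      refine union_subset hS'P (Subset.trans ?_ hYP)
      refine Subset.trans ?_ hYKU
      intro x hx
      obtain ⟨b, hb, h1⟩ := DA.mem_KU.1 hx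
      exact DA.mem_KU.2 ⟨b, (Finset.mem_sdiff.1 hb).1, h1⟩
    have hX₀X : X₀ ∪ FF ⊆ X := by
      rw [hX₀, hS', hFF]
      rintro x ((⟨t, ht, hx⟩ | hx) | ⟨t, ht, htZ, _, hx, _⟩ | ⟨j, hj, hjZ, b, hb, hbJ, rfl⟩)
      · exact hrX t ht.1 (fun h1 => (hZA t h1).1 ht.2.1) x hx
      · obtain ⟨b, hb, j, hj, hjZ, rfl⟩ := mem_KUR.1 hx
        rw [Finset.mem_sdiff] at hb
        exact hUX ⟨j, hj, hjZ, b, Finset.mem_range.1 (hJ hb.1), hb.2, rfl⟩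
      · exact hrX t ht htZ x hx
      · exact hUX ⟨j, hj, hjZ, b, hb, fun h1 => hbJ (hBJ h1), rfl⟩
    have hTE : T ⊆ M.E := fun z hz => M.closure_subset_ground _ (hcl z (hTD hz)).1
    have hTP' : T ⊆ M.E \ FF := fun z hz => ⟨hTE hz, (hcl z (hTD hz)).2⟩
    have hX₀P' : X₀ ⊆ M.E \ FF := by
      rw [← Matroid.contract_ground]
      exact hX₀P
    have h1 : rk (M ／ FF) (T ∪ X₀) ≤ rk (M ／ FF) X₀ + ρ :=
      (rk_mono _ (union_subset_union_left _ hTT)).trans hrk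
    have h2 := BQ.rk_con (M := M) hFE (X := T ∪ X₀) (union_subset hTP' hX₀P')
    have h3 := BQ.rk_con (M := M) hFE (X := X₀) hX₀P'
    have h4 := rk_submod M (T ∪ X₀ ∪ FF) X
    have h5 : rk M (T ∪ X) ≤ rk M ((T ∪ X₀ ∪ FF) ∪ X) := by
      refine rk_mono M ?_
      rintro x (hx | hx)
      · exact Or.inl (Or.inl (Or.inl hx))
      · exact Or.inr hx
    have h6 : rk M (X₀ ∪ FF) ≤ rk M ((T ∪ X₀ ∪ FF) ∩ X) := by
      refine rk_mono M (subset_inter ?_ hX₀X)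
      rintro x (hx | hx)
      · exact Or.inl (Or.inr hx)
      · exact Or.inr hx
    omega

end TSH
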