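import Pool.Agent.TST.PassD54

/-!
# One pass of LIFT: the rows which leave the region are spanned (row R8 of T-star, helper54)
-/

set_option autoImplicit false

open Set BIC BICS CWL
open scoped Matroid

namespace TSH

universe u

open Mdl Mdj EN Gad TST EN.Wall DA

section

variable {α : Type u} {M N : Matroid α} {w u : ℕ} {L : Bool × ℕ × ℕ → List α}
  {f : α → Sym2 ((ℕ × ℕ) ⊕ α)} {e : Bool × ℕ × ℕ → α} {row : α → Sym2 (ℕ × ℕ)}

/-- the rows inside of a full region -/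
lemma nb_of_full (hrow : ∀ s ∈ Seg w, ∀ x ∈ L s, row x = srow s) {a w' : ℕ} {Wd : Set (ℕ × ℕ)}
    {c' : Set α} (hc : c' ⊆ crr L (RA w (DA.Rg a w' Wd)))
    (hW : WallH c' (fun x => (row x).map (shp a)) w' Wd) {F : Set α}
    (hF : FullB c' (fun x => (row x).map (shp a)) (rect 0 0 (w' + 1) (w' + 1) \ Wd) F) :
    VS (RA w (DA.Rg a w' Wd)) = DA.Rg a w' Wd ∧
      NB (RA w (DA.Rg a w' Wd)) (DA.Rg a w' Wd) := by
  classical
  obtain ⟨A, hA⟩ : ∃ A, A = DA.Rg a w' Wd := ⟨_, rfl⟩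
  have hle : ∀ v ∈ A, a ≤ v.1 ∧ a ≤ v.2 := fun v hv => by
    rw [hA] at hv
    exact Rg.le hv
  rw [← hA] at hc ⊢
  obtain ⟨hF1, φ, hφ, hφe⟩ := hF
  have key : ∀ v, ∃ (x : Option α) (s : Bool × ℕ × ℕ) (v' : ℕ × ℕ), v ∈ A → ∃ x₀, x = some x₀ ∧
      x₀ ∈ F ∧ φ x₀ = shp a v ∧ s ∈ RA w A ∧ x₀ ∈ L s ∧ srow s = s(v, v') ∧ v' ∈ A := by
    intro v
    by_cases hv : v ∈ A
    · have hp : shp a v ∈ rect 0 0 (w' + 1) (w' + 1) \ Wd := by
        have := hv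
        rw [hA] at this
        exact this.2.2
      obtain ⟨x, hx, hxv⟩ := hφ.surjOn hp
      obtain ⟨s, hs, hxs⟩ := hc (hF1 hx).1
      have h1 := hφe x hx
      rw [hxv] at h1
      simp only at h1
      rw [hrow s hs.1 x hxs] at h1
      have h2 : v ∈ srow s := by
        rw [shp_mem ?_ (hle v hv)] at h1
        · exact h1
        · intro u hu
          unfold srow at hu
          rcases Sym2.mem_iff.1 hu with rfl | rfl
          · exact hle _ hs.2.1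
          · exact hle _ hs.2.2
      unfold srow at h2
      rcases Sym2.mem_iff.1 h2 with h3 | h3
      · exact ⟨some x, s, segFar s, fun _ => ⟨x, rfl, hx, hxv, hs, hxs, by
          unfold srow; rw [h3], hs.2.2⟩⟩
      · exact ⟨some x, s, segNear s, fun _ => ⟨x, rfl, hx, hxv, hs, hxs, by
          unfold srow; rw [h3]; exact Sym2.eq_swap, hs.2.1⟩⟩
    · exact ⟨none, (true, 0, 0), v, fun h => absurd h hv⟩
  choose X σ nb hnb using key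
  constructor
  · ext v
    constructor
    · rintro ⟨s, hs, rfl | rfl⟩
      · exact hs.2.1
      · exact hs.2.2
    · intro hv
      obtain ⟨x, _, _, _, hs, _, h1, _⟩ := hnb v hv
      unfold srow at h1
      rw [Sym2.eq_iff] at h1
      rcases h1 with h1 | h1
      · exact ⟨σ v, hs, Or.inl h1.1.symm⟩
      · exact ⟨σ v, hs, Or.inr h1.2.symm⟩
  · refine ⟨nb, fun v hv => ?_⟩
    obtain ⟨x, hx1, hx, hxv, hs, hxs, h1, h2⟩ := hnb v hv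
    refine ⟨h2, ⟨σ v, hs, h1⟩, fun h3 => ?_⟩
    obtain ⟨x', hx1', hx', hxv', hs', hxs', h1', h2'⟩ := hnb (nb v) h2
    rw [h3] at h1'
    have h4 : srow (σ v) = srow (σ (nb v)) := by
      rw [h1, h1']
      exact Sym2.eq_swap
    have h5 := srow_inj h4
    rw [← h5] at hxs'
    have h6 : x = x' := by
      refine hW.inj (hF1 hx).1 (hF1 hx').1 ?_
      rw [hrow _ hs.1 x hxs, hrow _ hs.1 x' hxs']
    subst h6
    rw [hxv] at hxv'
    have h7 := shp_inj (hle v hv) (hle _ h2) hxv'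
    rw [← h7] at h1
    have h8 := (wadj_srow hs.1).1
    unfold srow at h1
    rw [Sym2.eq_iff] at h1
    have h9 : segNear (σ v) = segFar (σ v) := by
      rcases h1 with h1 | h1 <;> rw [h1.1, h1.2]
    rw [h9] at h8
    unfold wadj at h8
    omega

/-- **Closure in the exact wall**: the last element of a row between two vertices of a full set of
rows -/
lemma row_cl [M.Finite] [N.Finite] (h : GSide M (Seg w) L f e u) (hN : Bic N (crr L (Seg w)) f)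
    {T : Set (Bool × ℕ × ℕ)} (hT : T ⊆ Seg w) (hnb : NB T (VS T)) {s : Bool × ℕ × ℕ}
    (hs : s ∈ Seg w) (hsT : s ∉ T) (h1 : segNear s ∈ VS T) (h2 : segFar s ∈ VS T) :
    e s ∈ N.closure (crr L T ∪ {x | x ∈ L s ∧ x ≠ e s}) := by
  classical
  obtain ⟨row, hrow⟩ := GSide.exists_row h
  have hlow := gside_low h hN
  have hser := GSide.serC hlow hrow
  obtain ⟨Z, hZ, hr⟩ := h.rk_fullS' (seg_finite w) hN
  obtain ⟨T', hT'⟩ : ∃ T', T' = insert s T := ⟨_, rfl⟩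
  have hT'S : T' ⊆ Seg w := by rw [hT']; exact insert_subset hs hT
  have hVS : VS T' = VS T := by
    rw [hT']
    ext v
    constructor
    · rintro ⟨t, rfl | ht, rfl | rfl⟩
      · exact h1
      · exact h2
      · exact ⟨t, ht, Or.inl rfl⟩
      · exact ⟨t, ht, Or.inr rfl⟩
    · rintro ⟨t, ht, hv⟩
      exact ⟨t, Or.inr ht, hv⟩
  have hnb' : NB T' (VS T') := by
    rw [hVS]
    exact hnb.mono (by rw [hT']; exact subset_insert _ _)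
  have r1 := hr T hT hnb
  have r2 := hr T' hT'S hnb'
  rw [hVS] at r2
  -- the elements of the row
  obtain ⟨Ls, hLs⟩ : ∃ Ls : Set α, Ls = {x | x ∈ L s} := ⟨_, rfl⟩
  have hcT' : crr L T' = crr L T ∪ Ls := by
    rw [hT', hLs]
    ext x
    constructor
    · rintro ⟨t, rfl | ht, hx⟩
      · exact Or.inr hx
      · exact Or.inl ⟨t, ht, hx⟩
    · rintro (⟨t, ht, hx⟩ | hx)
      · exact ⟨t, Or.inr ht, hx⟩
      · exact ⟨s, Or.inl rfl, hx⟩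
  have hLsf : Ls.Finite := by rw [hLs]; exact List.finite_toSet _
  have hd : Disjoint (crr L T) Ls := by
    rw [Set.disjoint_left]
    rintro x ⟨t, ht, hx⟩ hx'
    rw [hLs] at hx'
    have := h.uniq hs (hT ht) hx' hx
    subst this
    exact hsT ht
  have hTE : crr L T ⊆ N.E := (crr_mono hT).trans hN.sub
  have hTf : (crr L T).Finite := N.ground_finite.subset hTE
  have hLE : Ls ⊆ N.E := by
    rw [hLs]
    exact fun x hx => hN.sub ⟨s, hs, hx⟩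
  obtain ⟨a, ha, haZ⟩ := hZ s hs
  have e1 : Z ∩ Ls = Ls \ {a} := by
    ext x
    rw [hLs]
    constructor
    · rintro ⟨g1, g2⟩
      exact ⟨g2, (haZ x g2).1 g1⟩
    · rintro ⟨g1, g2⟩
      exact ⟨(haZ x g1).2 g2, g1⟩
  have e2 : (Z ∩ crr L T').ncard + 1 = (Z ∩ crr L T).ncard + Ls.ncard := by
    rw [hcT', inter_union_distrib_left, ncard_union_eq (hd.mono inter_subset_right
      inter_subset_right) (hTf.subset inter_subset_right) (hLsf.subset inter_subset_right), e1]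
    have : a ∈ Ls := by rw [hLs]; exact ha
    have := Set.ncard_sdiff_singleton_add_one this hLsf
    omega
  by_contra hcon
  -- a basis of the other rows together with the row is independent
  obtain ⟨I, hI, hIi, hIc⟩ := exists_basis_rk (N := N) (crr L T) hTE
  have hind : N.Indep (I ∪ Ls) := by
    by_contra hdep
    have hdep' : N.Dep (I ∪ Ls) := ⟨hdep, union_subset (hI.trans hTE) hLE⟩
    obtain ⟨C, hCs, hC⟩ := hdep'.exists_isCircuit_subset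
    have hCS : C ⊆ crr L (Seg w) := by
      refine hCs.trans (union_subset (hI.trans (crr_mono hT)) ?_)
      rw [hLs]
      exact fun x hx => ⟨s, hs, hx⟩
    have hex : ∃ x ∈ C, x ∈ Ls := by
      by_contra hno
      push Not at hno
      refine hC.not_indep (hIi.subset fun x hx => ?_)
      rcases hCs hx with g1 | g1
      · exact g1
      · exact absurd g1 (hno x hx)
    obtain ⟨x, hx, hxL⟩ := hex
    rw [hLs] at hxL
    have heC : e s ∈ C := hser C hC hCS x hx (e s) ⟨s, hs, h.mem_last hs⟩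
      (by rw [hrow s hs x hxL, hrow s hs _ (h.mem_last hs)])
    refine hcon (N.closure_subset_closure ?_ (hC.mem_closure_sdiff_singleton_of_mem heC))
    rintro y ⟨g1, g2⟩
    rcases hCs g1 with g3 | g3
    · exact Or.inl (hI g3)
    · rw [hLs] at g3
      exact Or.inr ⟨g3, g2⟩
  have hIf : I.Finite := hTf.subset hI
  have r3 : (I ∪ Ls).ncard = I.ncard + Ls.ncard :=
    ncard_union_eq (hd.mono_left hI) hIf hLsf
  have r4 : (I ∪ Ls).ncard ≤ rk N (crr L T') := by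
    rw [← rk_indep hind, hcT']
    exact rk_mono _ (union_subset_union_left _ hI)
  omega

/-- a window of side 4 outside of the region -/
lemma rg_win {a n₀ a₂ w₂ Λ q Lc i a' b' : ℕ} {Q Jk Om : Finset (ℕ × ℕ)} {Wd : Set (ℕ × ℕ)}
    {G : ℕ × ℕ → ℕ × ℕ} {Zt Kp : Set (Sym2 (ℕ × ℕ))}
    (hB : SBox Λ a n₀ a₂ w₂ (Q ∪ Jk)) (hΛ : 10 ≤ Λ) (hC : Crs.{u} w₂ i q Lc a' b' Om Wd G Zt Kp)
    (hq : 4 ≤ q) {v v' : ℕ × ℕ} (hv : v ∈ DA.Rg a₂ w₂ Wd) (hv' : v' ∉ DA.Rg a₂ w₂ Wd)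
    (hvv : sd v v' ≤ 1) :
    ∃ x y : ℕ, (x ≤ v'.1 ∧ v'.1 ≤ x + 4 ∧ y ≤ v'.2 ∧ v'.2 ≤ y + 4) ∧
      (v.1 ≤ x + 5 ∧ x ≤ v.1 + 1 ∧ v.2 ≤ y + 5 ∧ y ≤ v.2 + 1) ∧
      ∀ p : ℕ × ℕ, x ≤ p.1 → p.1 ≤ x + 4 → y ≤ p.2 → p.2 ≤ y + 4 → p ∉ DA.Rg a₂ w₂ Wd := by
  classical
  have h1 := hB.lo
  have h2 := hB.hi
  have h3 := rg_box hB hv
  have h4 : a₂ ≤ v.1 ∧ v.1 ≤ a₂ + w₂ ∧ a₂ ≤ v.2 ∧ v.2 ≤ a₂ + w₂ := by
    obtain ⟨g1, g2, g3, _⟩ := hv
    rw [Gad.mem_rct] at g3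
    unfold shp at g3
    simp only at g3
    omega
  have hout : ∀ p : ℕ × ℕ, (p.1 < a₂ ∨ p.2 < a₂ ∨ a₂ + w₂ < p.1 ∨ a₂ + w₂ < p.2) →
      p ∉ DA.Rg a₂ w₂ Wd := by
    rintro p hp ⟨g1, g2, g3, _⟩
    rw [Gad.mem_rct] at g3
    unfold shp at g3
    simp only at g3
    omega
  rw [sd_le] at hvv
  by_cases c1 : v'.1 < a₂
  · exact ⟨v'.1 - 4, v'.2, by omega, by omega, fun p _ g1 _ _ => hout p (by omega)⟩
  by_cases c2 : v'.2 < a₂
  · exact ⟨v'.1, v'.2 - 4, by omega, by omega, fun p _ _ _ g1 => hout p (by omega)⟩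
  by_cases c3 : a₂ + w₂ < v'.1
  · exact ⟨v'.1, v'.2, by omega, by omega, fun p g1 _ _ _ => hout p (by omega)⟩
  by_cases c4 : a₂ + w₂ < v'.2
  · exact ⟨v'.1, v'.2, by omega, by omega, fun p _ _ g1 _ => hout p (by omega)⟩
  have h5 : shp a₂ v' ∈ Wd := by
    by_contra hcon
    refine hv' ⟨by omega, by omega, ?_, hcon⟩
    rw [Gad.mem_rct]
    unfold shp
    simp only
    omega
  obtain ⟨x, y, h6, h7⟩ := hC.win4 hq _ h5
  unfold shp at h6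
  simp only at h6
  refine ⟨x + a₂, y + a₂, by omega, by omega, ?_⟩
  rintro p g1 g2 g3 g4 ⟨_, _, g5, g6⟩
  refine g6 (h7 _ ?_ ?_ ?_ ?_) <;> unfold shp <;> simp only <;> omega

/-- **Span**: the last elements of the rows which leave the region are spanned. -/
theorem pass_span [M.Finite] {a n₀ rZ a₂ w₂ Λ q Lc i a' b' : ℕ} {Q Jk Om : Finset (ℕ × ℕ)}
    {Wd : Set (ℕ × ℕ)} {G : ℕ × ℕ → ℕ × ℕ} {Zt Kp : Set (Sym2 (ℕ × ℕ))}
    {Nk : Matroid α} {W : Set (Bool × ℕ × ℕ)}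
    (h : GSide M (Seg w) L f e u) (hrow : ∀ s ∈ Seg w, ∀ x ∈ L s, row x = srow s)
    (hK : KDat M w L f u a n₀ rZ Q Nk Jk W) (hB : SBox Λ a n₀ a₂ w₂ (Q ∪ Jk)) (hΛ : 10 ≤ Λ)
    (haw : a + (2 * n₀ - 1) ≤ w)
    (hC : Crs.{u} w₂ i q Lc a' b' Om Wd G Zt Kp) (hq : rZ + 10 ≤ q)
    (hfar : ∀ v ∈ DA.Rg a₂ w₂ Wd, ∀ c ∈ Q, q < sd v c)
    (hWA : ∀ s ∈ W, segNear s ∉ DA.Rg a₂ w₂ Wd ∧ segFar s ∉ DA.Rg a₂ w₂ Wd)
    {S' Y F Dr : Set α} (ho : OTr M (crr L (Seg w)) S' Y F Dr row w a₂ w₂ Wd)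
    (hS' : S' = crr L (RA w (DA.Rg a₂ w₂ Wd)))
    (hRH : RHol (M ／ F) S' (fun x => (row x).map (shp a₂)) w₂ Wd)
    (hOmd : ∀ o ∈ Om, Lc + 10 ≤ o.1) (hw₂ : 20 ≤ w₂)
    {G' : Set α}
    (hG' : ∀ s ∈ DA.BR w a n₀ rZ Q, ∀ x ∈ L s, x ∈ G' ∨ (s ∈ LvR w (DA.Rg a₂ w₂ Wd) ∧ x = e s)) :
    ∀ s ∈ LvR w (DA.Rg a₂ w₂ Wd), e s ∈ M.closure G' := by
  classical
  have hNf := hK.fin
  have hwlo := hB.lo
  have hwhi := hB.hi
  obtain ⟨A, hA⟩ : ∃ A, A = DA.Rg a₂ w₂ Wd := ⟨_, rfl⟩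
  -- the region is full
  obtain ⟨c₀, hc₀, hW₀⟩ := ho.rep
  have hW := ho.trace hc₀ hW₀
  have hBc := hRH.bic (c₀ ∩ S') inter_subset_right hW
  have hfP : (M ／ F ／ (S' \ (c₀ ∩ S'))).Finite := BQ.fin_contract _
  obtain ⟨_, _, _, hV, _⟩ := hC.quo _ _ _ hBc hW
  have hAf : (rect 0 0 (w₂ + 1) (w₂ + 1) \ Wd).Finite := (Gad.rect_finite _ _ _ _).subset sdiff_subset
  have h00 : ((0, 0) : ℕ × ℕ) ∈ rect 0 0 (w₂ + 1) (w₂ + 1) \ Wd := by
    refine ⟨by rw [Gad.mem_rct]; simp only; omega, fun h1 => ?_⟩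
    obtain ⟨o, ho', h3⟩ := hC.win' _ h1
    have h4 := hOmd o ho'
    rw [sd_le] at h3
    simp only at h3
    omega
  obtain ⟨v₀, hv₀, hv₀d⟩ : ∃ v, v ∈ rect 0 0 (w₂ + 1) (w₂ + 1) \ Wd ∧
      DeepR (0, 0) (w₂ + 1) (w₂ + 1) 4 v := by
    refine ⟨(4, 4), ⟨by rw [Gad.mem_rct]; simp only; omega, fun h1 => ?_⟩, ?_⟩
    · obtain ⟨o, ho', h3⟩ := hC.win' _ h1
      have h4 := hOmd o ho'
      rw [sd_le] at h3
      simp only at h3
      omega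
    · unfold DeepR
      simp only
      omega
  have hv₀0 : ((0, 0) : ℕ × ℕ) ≠ v₀ := by
    rintro rfl
    unfold DeepR at hv₀d
    simp only at hv₀d
    omega
  obtain ⟨F₁, hF₁⟩ := hC.full1 (c₀ ∩ S') _ hW v₀ hv₀d
  obtain ⟨F₂, hF₂⟩ := full_ext hAf (U₀ := (rect 0 0 (w₂ + 1) (w₂ + 1) \ Wd) \ {v₀})
    sdiff_subset hF₁ (fun v hv => ⟨(0, 0), ⟨h00, hv₀0⟩, hV v hv _ h00⟩)
  obtain ⟨hVA, hnA⟩ := nb_of_full hrow (c' := c₀ ∩ S') (by
    rw [← hS']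
    exact inter_subset_right) hW hF₂
  intro s hs
  -- the vertex in the region and the other one
  obtain ⟨v, v', hvA, hv'A, hvv, hvs⟩ : ∃ v v', v ∈ DA.Rg a₂ w₂ Wd ∧ v' ∉ DA.Rg a₂ w₂ Wd ∧
      sd v v' ≤ 1 ∧ ((segNear s = v ∧ segFar s = v') ∨ (segNear s = v' ∧ segFar s = v)) := by
    by_cases h1 : segNear s ∈ DA.Rg a₂ w₂ Wd
    · exact ⟨_, _, h1, hs.2.1 h1, sd_seg.1, Or.inl ⟨rfl, rfl⟩⟩
    · have h2 : segFar s ∈ DA.Rg a₂ w₂ Wd := by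
        by_contra h2
        exact h1 (hs.2.2 h2)
      exact ⟨_, _, h2, h1, sd_seg.2, Or.inr ⟨rfl, rfl⟩⟩
  obtain ⟨x, y, hxy, hxv, hwn⟩ := rg_win hB hΛ hC (by omega) hvA hv'A hvv
  have hvb := rg_box hB hvA
  -- the rows
  obtain ⟨T₂, hT₂⟩ : ∃ T₂, T₂ = CWL.Rg x (x + 4) y (y + 4) := ⟨_, rfl⟩
  have hV₂ : VS T₂ = {p | x ≤ p.1 ∧ p.1 ≤ x + 4 ∧ y ≤ p.2 ∧ p.2 ≤ y + 4} := by
    rw [hT₂]
    exact vs_rg (by omega)
  have hT₂S : T₂ ⊆ Seg w := by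
    rw [hT₂]
    exact rg_sub (by omega) (by omega)
  have hR₁S : RA w (DA.Rg a₂ w₂ Wd) ⊆ Seg w := fun t ht => ht.1
  obtain ⟨T, hT⟩ : ∃ T, T = RA w (DA.Rg a₂ w₂ Wd) ∪ T₂ := ⟨_, rfl⟩
  have hTS : T ⊆ Seg w := by rw [hT]; exact union_subset hR₁S hT₂S
  have hnT : NB T (VS T) := by
    rw [hT, vs_union]
    refine NB.union (NB.mono ?_ subset_union_left) (NB.mono ?_ subset_union_right)
    · rw [hVA]
      exact hnA
    · rw [hT₂]
      exact nb_rg (by omega) (by omega)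
  have hvT : v ∈ VS T := by
    rw [hT, vs_union, hVA]
    exact Or.inl hvA
  have hv'T : v' ∈ VS T := by
    rw [hT, vs_union, hV₂]
    exact Or.inr ⟨hxy.1, hxy.2.1, hxy.2.2.1, hxy.2.2.2⟩
  have hends : ∀ t ∈ T₂, segNear t ∉ DA.Rg a₂ w₂ Wd ∧ segFar t ∉ DA.Rg a₂ w₂ Wd := by
    intro t ht
    have g1 : segNear t ∈ VS T₂ := ⟨t, ht, Or.inl rfl⟩
    have g2 : segFar t ∈ VS T₂ := ⟨t, ht, Or.inr rfl⟩
    rw [hV₂] at g1 g2
    exact ⟨hwn _ g1.1 g1.2.1 g1.2.2.1 g1.2.2.2, hwn _ g2.1 g2.2.1 g2.2.2.1 g2.2.2.2⟩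
  have hsT : s ∉ T := by
    rw [hT]
    rintro (g1 | g1)
    · exact (hs.2.1 g1.2.1) g1.2.2
    · have g2 := hends s g1
      exact g2.1 (hs.2.2 g2.2)
  have hcl := row_cl h hK.bic hTS hnT hs.1 hsT (by
    rcases hvs with g | g <;> rw [g.1] <;> assumption) (by
    rcases hvs with g | g <;> rw [g.2] <;> assumption)
  -- the rows are rows of the square off the squares of `Zq`
  have hnear : ∀ p : ℕ × ℕ, sd p v ≤ 6 → p ∈ Box a n₀ ∧ ∀ c ∈ Q, rZ < sd p c := by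
    intro p hp
    have hp' := hp
    rw [sd_le] at hp
    refine ⟨?_, fun c hc => ?_⟩
    · simp only [Box, mem_ofPred_eq]
      omega
    · have g1 := hfar v hvA c hc
      by_contra g2
      push Not at g2
      have g3 : sd v c ≤ rZ + 6 := by
        rw [sd_le] at g2 ⊢
        omega
      omega
  have hbr : ∀ t ∈ Seg w, (segNear t ∈ Box a n₀ ∧ ∀ c ∈ Q, rZ < sd (segNear t) c) →
      (segFar t ∈ Box a n₀ ∧ ∀ c ∈ Q, rZ < sd (segFar t) c) → t ∈ DA.BR w a n₀ rZ Q :=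
    fun t ht g1 g2 => ⟨ht, ⟨g1.1, g2.1⟩, fun c hc => ⟨g1.2 c hc, g2.2 c hc⟩⟩
  have hin : ∀ p ∈ DA.Rg a₂ w₂ Wd, p ∈ Box a n₀ ∧ ∀ c ∈ Q, rZ < sd p c := by
    intro p hp
    refine ⟨?_, fun c hc => ?_⟩
    · have g1 := rg_box hB hp
      simp only [Box, mem_ofPred_eq]
      omega
    · have g1 := hfar p hp c hc
      omega
  have hsBR : s ∈ DA.BR w a n₀ rZ Q := by
    have g1 := hin v hvA
    have g2 := hnear v' (by rw [sd_le] at hvv ⊢; omega)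
    rcases hvs with g | g
    · exact hbr s hs.1 (by rw [g.1]; exact g1) (by rw [g.2]; exact g2)
    · exact hbr s hs.1 (by rw [g.1]; exact g2) (by rw [g.2]; exact g1)
  have hTBR : ∀ t ∈ T, t ∈ DA.BR w a n₀ rZ Q ∧ t ∉ LvR w (DA.Rg a₂ w₂ Wd) := by
    intro t ht
    rw [hT] at ht
    rcases ht with ht | ht
    · exact ⟨hbr t ht.1 (hin _ ht.2.1) (hin _ ht.2.2), fun g1 => (g1.2.1 ht.2.1) ht.2.2⟩
    · have g1 : segNear t ∈ VS T₂ := ⟨t, ht, Or.inl rfl⟩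
      have g2 : segFar t ∈ VS T₂ := ⟨t, ht, Or.inr rfl⟩
      rw [hV₂] at g1 g2
      simp only [mem_ofPred_eq] at g1 g2
      refine ⟨hbr t (hT₂S ht) (hnear _ ?_) (hnear _ ?_), fun g3 => ?_⟩
      · rw [sd_le]
        omega
      · rw [sd_le]
        omega
      · exact (hends t ht).1 (g3.2.2 (hends t ht).2)
  obtain ⟨B, hBd⟩ : ∃ B : Set α, B = {x | ∃ t ∈ DA.BR w a n₀ rZ Q, x ∈ L t ∧
    (t ∈ LvR w (DA.Rg a₂ w₂ Wd) → x ≠ e t)} := ⟨_, rfl⟩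
  have hBG : B ⊆ G' := by
    rw [hBd]
    rintro z ⟨t, ht, hz, hzt⟩
    rcases hG' t ht z hz with g1 | g1
    · exact g1
    · exact absurd g1.2 (hzt g1.1)
  refine M.closure_subset_closure hBG (hK.clo B ?_ ?_ (e s) ⟨s, hsBR, h.mem_last hs.1⟩ ?_)
  · rw [hBd]
    rintro z ⟨t, ht, hz, _⟩
    exact ⟨t, ht, hz⟩
  · rw [hBd]
    rintro z ⟨t, ht, hz⟩
    exact ⟨t, hK.W_sub ht, hz, fun g1 => absurd (g1.2.2 (hWA t ht).2) (hWA t ht).1⟩
  · refine Nk.closure_subset_closure ?_ hcl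
    rw [hBd]
    rintro z (⟨t, ht, hz⟩ | ⟨hz, hz'⟩)
    · exact ⟨t, (hTBR t ht).1, hz, fun g1 => absurd g1 (hTBR t ht).2⟩
    · exact ⟨s, hsBR, hz, fun _ => hz'⟩

end

end TSH
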