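import Pool.Agent.TST.Quot
import Pool.Agent.EN.KPath

/-!
# Disjoint connected sets in a quotient of a frame (row QT2 of T*, helper85)

The disjoint finite sets `U i` with spanning trees `τ i` are contracted.  `K + u + 2` disjoint
connected sets of the original graph, which start in different parts and end in a connected piece,
and no two of which meet the same part, give connectivity `K` in the contraction.
-/

open Set Relation
open scoped Matroid

namespace TST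

open BIC Gad EN BICS

universe uV uI

variable {α : Type*} {V : Type uV} {ι : Type uI}

open Classical in
/-- The vertex of the quotient. -/
noncomputable def qv (U : ι → Set V) (v : V) : V ⊕ ι :=
  if h : ∃ i, v ∈ U i then Sum.inr h.choose else Sum.inl v

lemma qv_mem {U : ι → Set V} (hU : ∀ i j, i ≠ j → Disjoint (U i) (U j)) {v : V} {i : ι}
    (hv : v ∈ U i) : qv U v = Sum.inr i := by
  classical
  have h : ∃ i, v ∈ U i := ⟨i, hv⟩
  rw [qv, dif_pos h]
  have h1 : v ∈ U h.choose := h.choose_spec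
  by_contra hcon
  have hne : h.choose ≠ i := fun hh => hcon (by rw [hh])
  exact Set.disjoint_left.1 (hU _ _ hne) h1 hv

lemma qv_not {U : ι → Set V} {v : V} (hv : ∀ i, v ∉ U i) : qv U v = Sum.inl v := by
  classical
  rw [qv, dif_neg (by rintro ⟨i, hi⟩; exact hv i hi)]

lemma qv_inr {U : ι → Set V} {v : V} {i : ι} (h : qv U v = Sum.inr i) : v ∈ U i := by
  classical
  by_cases hv : ∃ i, v ∈ U i
  · rw [qv, dif_pos hv] at h
    have h1 : v ∈ U hv.choose := hv.choose_spec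
    rwa [Sum.inr.inj h] at h1
  · rw [qv, dif_neg hv] at h
    exact absurd h (by simp)

lemma qv_inl {U : ι → Set V} {v w : V} (h : qv U v = Sum.inl w) : v = w ∧ ∀ i, v ∉ U i := by
  classical
  by_cases hv : ∃ i, v ∈ U i
  · rw [qv, dif_pos hv] at h
    exact absurd h (by simp)
  · rw [qv, dif_neg hv] at h
    exact ⟨Sum.inl.inj h, fun i hi => hv ⟨i, hi⟩⟩

/-- Ends in the quotient. -/
noncomputable def qe (U : ι → Set V) (ends : α → Sym2 V) (e : α) : Sym2 (V ⊕ ι) :=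
  (ends e).map (qv U)

/-- The elements between different parts. -/
def qS (U : ι → Set V) (ends : α → Sym2 V) (S : Set α) : Set α :=
  {e | e ∈ S ∧ ¬ (qe U ends e).IsDiag}

/-- The trees of the quotient. -/
def qF (τ : ι → Set α) : V ⊕ ι → Set α
  | Sum.inl _ => ∅
  | Sum.inr i => τ i

section

variable {M : Matroid α} {S : Set α} {ends : α → Sym2 V} {u : ℕ} {U : ι → Set V} {τ : ι → Set α}

lemma qF_FO : FO (qF (V := V) τ) univ = ⋃ i, τ i := by
  ext e
  rw [mem_FO]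
  constructor
  · rintro ⟨P, _, he⟩
    cases P with
    | inl v => exact absurd he (Set.notMem_empty e)
    | inr i => exact mem_iUnion.2 ⟨i, he⟩
  · intro he
    obtain ⟨i, hi⟩ := mem_iUnion.1 he
    exact ⟨Sum.inr i, trivial, hi⟩

lemma quo_mk (hUf : ∀ i, (U i).Finite) (hτ : ∀ i, Arb S ends (U i) (τ i))
    (hUd : ∀ i j, i ≠ j → Disjoint (U i) (U j)) :
    Quo S ends (fun v => some (qv U v)) (qF τ) (qS U ends S) (qe U ends) := by
  classical
  have hprt : ∀ i, prt (fun v => some (qv U v)) (Sum.inr i) = U i := by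
    intro i
    ext v
    constructor
    · intro hv
      exact qv_inr (Option.some.inj hv)
    · intro hv
      show some (qv U v) = some (Sum.inr i)
      rw [qv_mem hUd hv]
  have hprt' : ∀ v, prt (fun v => some (qv U v)) (Sum.inl v) ⊆ {v} := by
    intro v w hw
    exact (qv_inl (Option.some.inj hw)).1
  refine ⟨?_, ?_, fun e he => he.1, ?_, ?_⟩
  · rintro (v | i)
    · exact (finite_singleton v).subset (hprt' v)
    · rw [hprt i]
      exact hUf i
  · rintro (v | i)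
    · by_cases hv : ∃ i, v ∈ U i
      · left
        refine ⟨?_, rfl⟩
        rw [eq_empty_iff_forall_notMem]
        intro w hw
        have h1 := hprt' v hw
        rw [mem_singleton_iff] at h1
        subst h1
        obtain ⟨i, hi⟩ := hv
        exact (qv_inl (Option.some.inj hw)).2 i hi
      · right
        have : prt (fun v => some (qv U v)) (Sum.inl v) = {v} := by
          refine subset_antisymm (hprt' v) ?_
          rintro w rfl
          show some (qv U w) = some (Sum.inl w)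
          rw [qv_not (fun i hi => hv ⟨i, hi⟩)]
        rw [this]
        exact Arb.single v
    · right
      rw [hprt i]
      exact hτ i
  · intro e he
    induction h : ends e with
    | _ p q =>
      refine ⟨p, q, qv U p, qv U q, rfl, rfl, rfl, ?_⟩
      rw [qe, h, Sym2.map_mk]
  · rintro (v | i)
    · exact disjoint_bot_right
    · rw [Set.disjoint_left]
      intro e he he'
      apply he.2
      have h1 := (hτ i).1 he'
      induction h : ends e with
      | _ p q =>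
        rw [qe, h, Sym2.map_mk, Sym2.mk_isDiag_iff]
        have hp : p ∈ U i := h1.2 p (by rw [h]; simp)
        have hq : q ∈ U i := h1.2 q (by rw [h]; simp)
        rw [qv_mem hUd hp, qv_mem hUd hq]

/-- The contraction is a frame of the same excess. -/
lemma frmU_quot [M.Finite] (hF : FrmU M S ends u) (hUf : ∀ i, (U i).Finite)
    (hτ : ∀ i, Arb S ends (U i) (τ i)) (hUd : ∀ i j, i ≠ j → Disjoint (U i) (U j)) :
    FrmU (M ／ (⋃ i, τ i)) (qS U ends S) (qe U ends) u := by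
  have h := FrmU.quo hF (quo_mk hUf hτ hUd) (by
    intro e he P hP
    exact absurd (by rw [hP]; simp) he.2)
  rwa [qF_FO] at h

/-- Images of connected sets. -/
lemma vconn_qv {B : Set α} {W : Set V} (h : VConn B ends W) :
    VConn (B ∩ ins (qS U ends B) (qe U ends) (qv U '' W)) (qe U ends) (qv U '' W) := by
  rintro _ ⟨a, ha, rfl⟩ _ ⟨b, hb, rfl⟩
  have h1 := h a ha b hb
  clear hb
  induction h1 with
  | refl => exact ReflTransGen.refl
  | @tail c d hac hcd ih =>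
    obtain ⟨⟨e, heB, hee⟩, hc, hd⟩ := hcd
    by_cases hq : qv U c = qv U d
    · rw [← hq]; exact ih
    · refine ih.tail ⟨⟨e, ⟨heB, ⟨heB, ?_⟩, ?_⟩, ?_⟩, ⟨c, hc, rfl⟩, ⟨d, hd, rfl⟩⟩
      · rw [qe, hee, Sym2.map_mk, Sym2.mk_isDiag_iff]
        exact hq
      · intro x hx
        rw [qe, hee, Sym2.map_mk] at hx
        rcases Sym2.mem_iff.1 hx with rfl | rfl
        · exact ⟨c, hc, rfl⟩
        · exact ⟨d, hd, rfl⟩
      · rw [qe, hee, Sym2.map_mk]

lemma vconn_mono {B B' : Set α} {W : Set V} (h : VConn B ends W) (hB : B ⊆ B') :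
    VConn B' ends W := by
  intro a ha b hb
  refine ReflTransGen.mono ?_ a b (h a ha b hb)
  rintro x y ⟨⟨e, he, hee⟩, hx, hy⟩
  exact ⟨⟨e, hB he, hee⟩, hx, hy⟩

/-- **Row QT2.** -/
theorem FrmU.kge_quot [M.Finite] (hF : FrmU M S ends u) (hUf : ∀ i, (U i).Finite)
    (hτ : ∀ i, Arb S ends (U i) (τ i)) (hUd : ∀ i j, i ≠ j → Disjoint (U i) (U j))
    {A B : Set α} {VB : Set V} {I : Set ι} (hIf : I.Finite)
    (hI : ∀ i ∈ I, ∀ j ∈ I, ReflTransGen (fun x y =>
      (∃ e ∈ A, e ∈ S ∧ ∃ p ∈ U x, ∃ q ∈ U y, ends e = s(p, q)) ∧ x ∈ I ∧ y ∈ I) i j)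
    (hBf : VB.Finite) (hB : B ⊆ ins S ends VB) (hcB : VConn B ends VB) {K : ℕ}
    (Q : Fin (K + u + 2) → Set V) (hQf : ∀ k, (Q k).Finite) (hQ : ∀ k, VConn S ends (Q k))
    (hQd : ∀ k l, k ≠ l → Disjoint (Q k) (Q l))
    (hsep : ∀ k l, k ≠ l → ∀ i, ∀ v ∈ Q k, v ∈ U i → ∀ w ∈ Q l, w ∉ U i)
    (hQA : ∀ k, ∃ i ∈ I, (Q k ∩ U i).Nonempty)
    (hQB : ∀ k, ∃ w ∈ Q k, w ∈ VB ∨ ∃ i, w ∈ U i ∧ (U i ∩ VB).Nonempty) :
    KGe (M ／ (⋃ i, τ i)) A B K := by
  classical
  have hF' := frmU_quot hF hUf hτ hUd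
  have hfin : (M ／ (⋃ i, τ i)).Finite := inferInstance
  set S' := qS U ends S with hS'
  set e' := qe U ends with he'
  set VA' : Set (V ⊕ ι) := Sum.inr '' I with hVA'
  set VB' : Set (V ⊕ ι) := qv U '' VB with hVB'
  set A' : Set α := A ∩ ins S' e' VA' with hA'
  set B' : Set α := B ∩ ins (qS U ends B) e' VB' with hB'
  have hBS : B' ⊆ ins S' e' VB' := by
    rintro e ⟨he, h1, h2⟩
    exact ⟨⟨(hB he).1, h1.2⟩, h2⟩
  have hcA' : VConn A' e' VA' := by
    rintro _ ⟨i, hi, rfl⟩ _ ⟨j, hj, rfl⟩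
    have h1 := hI i hi j hj
    clear hj
    induction h1 with
    | refl => exact ReflTransGen.refl
    | @tail x y hix hxy ih =>
      obtain ⟨⟨e, heA, heS, p, hp, q, hq, hee⟩, hx, hy⟩ := hxy
      by_cases hxy : x = y
      · rw [← hxy]; exact ih
      · have h2 : e' e = s(Sum.inr x, Sum.inr y) := by
          rw [he', qe, hee, Sym2.map_mk, qv_mem hUd hp, qv_mem hUd hq]
        refine ih.tail ⟨⟨e, ⟨heA, ⟨heS, ?_⟩, ?_⟩, h2⟩, ⟨x, hx, rfl⟩, ⟨y, hy, rfl⟩⟩
        · rw [← he', h2, Sym2.mk_isDiag_iff]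
          intro h3
          exact hxy (Sum.inr.inj h3)
        · intro z hz
          rw [h2] at hz
          rcases Sym2.mem_iff.1 hz with rfl | rfl
          · exact ⟨x, hx, rfl⟩
          · exact ⟨y, hy, rfl⟩
  have hcB' : VConn B' e' VB' := vconn_qv hcB
  have key : KGe (M ／ (⋃ i, τ i)) A' B' K := by
    refine EN.FrmU.kge hF' (VA := VA') (VB := VB') (hIf.image _) (hBf.image _)
      (fun e he => he.2) hBS hcA' hcB' (fun k => qv U '' Q k) (fun k => (hQf k).image _) ?_ ?_ ?_ ?_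
    · intro k
      refine vconn_mono (vconn_qv (U := U) (hQ k)) ?_
      exact fun e he => he.2.1
    · intro k l hkl
      rw [Set.disjoint_left]
      rintro _ ⟨v, hv, rfl⟩ ⟨w, hw, hwv⟩
      by_cases h1 : ∃ i, v ∈ U i
      · obtain ⟨i, hi⟩ := h1
        rw [qv_mem hUd hi] at hwv
        exact hsep k l hkl i v hv hi w hw (qv_inr hwv)
      · rw [qv_not (fun i hi => h1 ⟨i, hi⟩)] at hwv
        have h2 := (qv_inl hwv).1
        rw [h2] at hw
        exact Set.disjoint_left.1 (hQd k l hkl) hv hw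
    · intro k
      obtain ⟨i, hi, v, hv, hvi⟩ := hQA k
      exact ⟨Sum.inr i, ⟨v, hv, qv_mem hUd hvi⟩, ⟨i, hi, rfl⟩⟩
    · intro k
      obtain ⟨w, hw, h1 | ⟨i, hi, v, hvi, hvB⟩⟩ := hQB k
      · exact ⟨qv U w, ⟨w, hw, rfl⟩, ⟨w, h1, rfl⟩⟩
      · refine ⟨Sum.inr i, ⟨w, hw, qv_mem hUd hi⟩, ⟨v, hvB, qv_mem hUd hvi⟩⟩
  exact BQ.KGe.mono_right (BQ.KGe.mono_left key inter_subset_left) inter_subset_left

/-- Cells of a grid: the parts `U c`, `c` in the `t × t` array, joined by the elements of `A`. -/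
theorem FrmU.kge_cells [M.Finite] (hF : FrmU M S ends u) (hUf : ∀ i, (U i).Finite)
    (hτ : ∀ i, Arb S ends (U i) (τ i)) (hUd : ∀ i j, i ≠ j → Disjoint (U i) (U j))
    {A B : Set α} {VB : Set V} {t : ℕ} (cell : ℕ × ℕ → ι)
    (hedge : ∀ c c', Nb t c c' → ∃ e ∈ A, e ∈ S ∧ ∃ p ∈ U (cell c), ∃ q ∈ U (cell c'),
      ends e = s(p, q))
    (hBf : VB.Finite) (hB : B ⊆ ins S ends VB) (hcB : VConn B ends VB) {K : ℕ}
    (Q : Fin (K + u + 2) → Set V) (hQf : ∀ k, (Q k).Finite) (hQ : ∀ k, VConn S ends (Q k))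
    (hQd : ∀ k l, k ≠ l → Disjoint (Q k) (Q l))
    (hsep : ∀ k l, k ≠ l → ∀ i, ∀ v ∈ Q k, v ∈ U i → ∀ w ∈ Q l, w ∉ U i)
    (hQA : ∀ k, ∃ c ∈ Cl t, (Q k ∩ U (cell c)).Nonempty)
    (hQB : ∀ k, ∃ w ∈ Q k, w ∈ VB ∨ ∃ i, w ∈ U i ∧ (U i ∩ VB).Nonempty) :
    KGe (M ／ (⋃ i, τ i)) A B K := by
  classical
  have hfin : (Cl t).Finite := by
    refine (((Set.finite_Iio t).prod (Set.finite_Iio t))).subset ?_
    rintro ⟨a, b⟩ ⟨h1, h2⟩
    exact ⟨h1, h2⟩
  -- steps of the grid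
  set R : ι → ι → Prop := fun x y =>
    (∃ e ∈ A, e ∈ S ∧ ∃ p ∈ U x, ∃ q ∈ U y, ends e = s(p, q)) ∧ x ∈ cell '' Cl t ∧
      y ∈ cell '' Cl t with hR
  have hstep : ∀ c c', Nb t c c' → R (cell c) (cell c') := by
    intro c c' hn
    exact ⟨hedge c c' hn, ⟨c, hn.1, rfl⟩, ⟨c', hn.2.1, rfl⟩⟩
  -- every cell is joined to `(0, 0)` in both directions
  have hrow : ∀ a b, a < t → b < t → ReflTransGen R (cell (a, 0)) (cell (a, b)) ∧
      ReflTransGen R (cell (a, b)) (cell (a, 0)) := by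
    intro a b ha
    induction b with
    | zero => intro _; exact ⟨ReflTransGen.refl, ReflTransGen.refl⟩
    | succ b ih =>
      intro hb
      obtain ⟨h1, h2⟩ := ih (by omega)
      have hb' : b < t := by omega
      exact ⟨h1.tail (hstep (a, b) (a, b + 1) ⟨⟨ha, hb'⟩, ⟨ha, hb⟩, Or.inl ⟨rfl, Or.inl rfl⟩⟩),
        ReflTransGen.head (hstep (a, b + 1) (a, b)
          ⟨⟨ha, hb⟩, ⟨ha, hb'⟩, Or.inl ⟨rfl, Or.inr rfl⟩⟩) h2⟩
  have hcol : ∀ a, a < t → ReflTransGen R (cell (0, 0)) (cell (a, 0)) ∧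
      ReflTransGen R (cell (a, 0)) (cell (0, 0)) := by
    intro a
    induction a with
    | zero => intro _; exact ⟨ReflTransGen.refl, ReflTransGen.refl⟩
    | succ a ih =>
      intro ha
      obtain ⟨h1, h2⟩ := ih (by omega)
      have ha' : a < t := by omega
      have h0 : 0 < t := by omega
      exact ⟨h1.tail (hstep (a, 0) (a + 1, 0) ⟨⟨ha', h0⟩, ⟨ha, h0⟩, Or.inr ⟨rfl, Or.inl rfl⟩⟩),
        ReflTransGen.head (hstep (a + 1, 0) (a, 0)
          ⟨⟨ha, h0⟩, ⟨ha', h0⟩, Or.inr ⟨rfl, Or.inr rfl⟩⟩) h2⟩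
  refine FrmU.kge_quot hF hUf hτ hUd (I := cell '' Cl t) (hfin.image _) ?_ hBf hB hcB Q hQf hQ
    hQd hsep ?_ hQB
  · rintro _ ⟨⟨a, b⟩, ⟨ha, hb⟩, rfl⟩ _ ⟨⟨a', b'⟩, ⟨ha', hb'⟩, rfl⟩
    simp only at ha hb ha' hb'
    exact ((hrow a b ha hb).2.trans (hcol a ha).2).trans
      ((hcol a' ha').1.trans (hrow a' b' ha' hb').1)
  · intro k
    obtain ⟨c, hc, h1⟩ := hQA k
    exact ⟨cell c, ⟨c, hc, rfl⟩, h1⟩

end

end TST
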