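import Pool.Agent.TST.LabRam4

/-!
# Places relative to a set of four tiles (helper12)

Numerical lemmas on `qloc`: tiles of the same gap have the same place, and every gap (and every pair of
different gaps) is realised with several tiles by a set of four tiles below `8`.
-/

set_option autoImplicit false

namespace TST

/-- the place of a tile outside of `Q` is twice the number of elements of `Q` below it -/
lemma qloc_of_not_mem {Q : Finset ℕ} {a : ℕ} (ha : a ∉ Q) :
    qloc Q a = 2 * (Q.filter fun y => y < a).card := by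
  have h1 : (Q.filter fun y => y ≤ a) = Q.filter fun y => y < a := by
    ext y
    rw [Finset.mem_filter, Finset.mem_filter]
    constructor
    · rintro ⟨h2, h3⟩
      refine ⟨h2, lt_of_le_of_ne h3 ?_⟩
      rintro rfl
      exact ha h2
    · rintro ⟨h2, h3⟩
      exact ⟨h2, h3.le⟩
  unfold qloc
  rw [h1]
  omega

/-- the place of a tile in `Q` is odd -/
lemma qloc_of_mem {Q : Finset ℕ} {a : ℕ} (ha : a ∈ Q) :
    qloc Q a = 2 * (Q.filter fun y => y < a).card + 1 := by
  classical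
  have h1 : (Q.filter fun y => y ≤ a) = insert a (Q.filter fun y => y < a) := by
    ext y
    rw [Finset.mem_insert, Finset.mem_filter, Finset.mem_filter]
    constructor
    · rintro ⟨h2, h3⟩
      rcases h3.eq_or_lt with h4 | h4
      · exact Or.inl h4
      · exact Or.inr ⟨h2, h4⟩
    · rintro (rfl | ⟨h2, h3⟩)
      · exact ⟨ha, le_rfl⟩
      · exact ⟨h2, h3.le⟩
  have h2 : a ∉ Q.filter fun y => y < a := by
    rw [Finset.mem_filter]
    exact fun h => lt_irrefl _ h.2
  unfold qloc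
  rw [h1, Finset.card_insert_of_notMem h2]
  omega

/-- the place is monotone in the tile -/
lemma qloc_mono (Q : Finset ℕ) {a b : ℕ} (hab : a ≤ b) : qloc Q a ≤ qloc Q b := by
  unfold qloc
  refine Nat.add_le_add (Finset.card_le_card ?_) (Finset.card_le_card ?_)
  · intro y hy
    rw [Finset.mem_filter] at hy ⊢
    exact ⟨hy.1, by omega⟩
  · intro y hy
    rw [Finset.mem_filter] at hy ⊢
    exact ⟨hy.1, by omega⟩

/-- two tiles `a ≤ b` without an element of `Q` in `[a, b]` have the same place -/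
lemma qloc_eq_of_le {Q : Finset ℕ} {a b : ℕ} (hab : a ≤ b) (h : ∀ y ∈ Q, ¬ (a ≤ y ∧ y ≤ b)) :
    qloc Q a = qloc Q b := by
  have h1 : (Q.filter fun y => y < a) = Q.filter fun y => y < b := by
    ext y
    rw [Finset.mem_filter, Finset.mem_filter]
    refine and_congr_right fun hy => ?_
    have h2 := h y hy
    omega
  have h2 : (Q.filter fun y => y ≤ a) = Q.filter fun y => y ≤ b := by
    ext y
    rw [Finset.mem_filter, Finset.mem_filter]
    refine and_congr_right fun hy => ?_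
    have h3 := h y hy
    omega
  unfold qloc
  rw [h1, h2]

/-- **(a)** two tiles without an element of `Q` between them have the same place -/
lemma qloc_eq_of_gap {Q : Finset ℕ} {a b : ℕ} (h : ∀ y ∈ Q, ¬ (min a b ≤ y ∧ y ≤ max a b)) :
    qloc Q a = qloc Q b := by
  rcases le_total a b with hab | hab
  · rw [min_eq_left hab, max_eq_right hab] at h
    exact qloc_eq_of_le hab h
  · rw [min_eq_right hab, max_eq_left hab] at h
    exact (qloc_eq_of_le hab h).symm

/-- tiles outside of `Q` with different places have an element of `Q` between them -/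
lemma qloc_lt_iff {Q : Finset ℕ} {a b : ℕ} (ha : a ∉ Q) (hb : b ∉ Q) :
    qloc Q a < qloc Q b ↔ ∃ y ∈ Q, a < y ∧ y < b := by
  constructor
  · intro h
    by_contra h1
    push Not at h1
    have hab : a ≤ b := by
      by_contra h2
      have h3 := qloc_mono Q (show b ≤ a by omega)
      omega
    have h2 := qloc_eq_of_le hab (Q := Q) (fun y hy h3 => by
      have h4 : a ≠ y := fun h5 => ha (h5 ▸ hy)
      have h5 : y ≠ b := fun h6 => hb (h6 ▸ hy)
      have h6 := h1 y hy (by omega)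
      omega)
    omega
  · rintro ⟨y, hy, h1, h2⟩
    rw [qloc_of_not_mem ha, qloc_of_not_mem hb]
    have h3 : (Q.filter fun z => z < a) ⊂ Q.filter fun z => z < b := by
      rw [Finset.ssubset_iff_of_subset]
      · exact ⟨y, Finset.mem_filter.2 ⟨hy, h2⟩, fun h4 => by
          have := (Finset.mem_filter.1 h4).2
          omega⟩
      · intro z hz
        rw [Finset.mem_filter] at hz ⊢
        exact ⟨hz.1, by omega⟩
    have h4 := Finset.card_lt_card h3
    omega

private lemma gap_three : ∀ k < 5, ∀ (S : Finset ℕ),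
    S = (Finset.range 7).filter (fun y => y < k ∨ k + 3 ≤ y) →
    S.card = 4 ∧ k ∉ S ∧ k + 1 ∉ S ∧ k + 2 ∉ S ∧
    qloc S k = 2 * k ∧ qloc S (k + 1) = 2 * k ∧ qloc S (k + 2) = 2 * k := by
  rintro k hk S rfl
  interval_cases k <;> decide

private lemma gap_two_two : ∀ k < 5, ∀ l < 5, k < l → ∀ (S : Finset ℕ),
    S = (Finset.range 8).filter (fun y => y < k ∨ (k + 2 ≤ y ∧ y < l + 2) ∨ l + 4 ≤ y) →
    S.card = 4 ∧ k ∉ S ∧ k + 1 ∉ S ∧ l + 2 ∉ S ∧ l + 3 ∉ S ∧
    qloc S k = 2 * k ∧ qloc S (k + 1) = 2 * k ∧ qloc S (l + 2) = 2 * l ∧ qloc S (l + 3) = 2 * l := by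
  rintro k hk l hl hkl S rfl
  interval_cases l <;> interval_cases k <;> decide

/-- **(b)** every gap is realised with three tiles -/
theorem exists_gap_three {K : ℕ} (hK : 7 ≤ K) {Q : Finset ℕ} (hc : Q.card = 4) {a : ℕ}
    (haQ : a ∉ Q) : ∃ Q' ⊆ Finset.range K, Q'.card = 4 ∧ ∃ a₁ a₂ a₃ : ℕ, a₁ < a₂ ∧ a₂ < a₃ ∧ a₃ < K ∧
      a₁ ∉ Q' ∧ a₂ ∉ Q' ∧ a₃ ∉ Q' ∧
      qloc Q' a₁ = qloc Q a ∧ qloc Q' a₂ = qloc Q a ∧ qloc Q' a₃ = qloc Q a := by
  have h1 := qloc_of_not_mem haQ
  have h2 : (Q.filter fun y => y < a).card ≤ 4 := (Finset.card_filter_le _ _).trans hc.le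
  obtain ⟨k, hk⟩ : ∃ k, k = (Q.filter fun y => y < a).card := ⟨_, rfl⟩
  rw [← hk] at h1 h2
  obtain ⟨h3, h4, h5, h6, h7, h8, h9⟩ := gap_three k (by omega) _ rfl
  refine ⟨_, ?_, h3, k, k + 1, k + 2, by omega, by omega, by omega, h4, h5, h6, ?_, ?_, ?_⟩
  · intro y hy
    rw [Finset.mem_filter, Finset.mem_range] at hy
    rw [Finset.mem_range]
    omega
  · rw [h7, h1]
  · rw [h8, h1]
  · rw [h9, h1]

/-- **(c)** every pair of different gaps is realised with two tiles in each of them -/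
theorem exists_gap_two_two {K : ℕ} (hK : 8 ≤ K) {Q : Finset ℕ} (hc : Q.card = 4) {a b : ℕ}
    (hab : a < b) (haQ : a ∉ Q) (hbQ : b ∉ Q) (hne : qloc Q a ≠ qloc Q b) :
    ∃ Q' ⊆ Finset.range K, Q'.card = 4 ∧ ∃ a₁ a₂ b₁ b₂ : ℕ, a₁ < a₂ ∧ a₂ < b₁ ∧ b₁ < b₂ ∧ b₂ < K ∧
      a₁ ∉ Q' ∧ a₂ ∉ Q' ∧ b₁ ∉ Q' ∧ b₂ ∉ Q' ∧
      qloc Q' a₁ = qloc Q a ∧ qloc Q' a₂ = qloc Q a ∧
      qloc Q' b₁ = qloc Q b ∧ qloc Q' b₂ = qloc Q b := by
  have h1 := qloc_of_not_mem haQ
  have h1' := qloc_of_not_mem hbQ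
  have h2 : (Q.filter fun y => y < b).card ≤ 4 := (Finset.card_filter_le _ _).trans hc.le
  have h0 := qloc_mono Q hab.le
  obtain ⟨k, hk⟩ : ∃ k, k = (Q.filter fun y => y < a).card := ⟨_, rfl⟩
  obtain ⟨l, hl⟩ : ∃ l, l = (Q.filter fun y => y < b).card := ⟨_, rfl⟩
  rw [← hk] at h1
  rw [← hl] at h1' h2
  have hkl : k < l := by omega
  obtain ⟨h3, h4, h5, h6, h7, h8, h9, h10, h11⟩ :=
    gap_two_two k (by omega) l (by omega) hkl _ rfl
  refine ⟨_, ?_, h3, k, k + 1, l + 2, l + 3, by omega, by omega, by omega, by omega, h4, h5, h6, h7,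
    ?_, ?_, ?_, ?_⟩
  · intro y hy
    rw [Finset.mem_filter, Finset.mem_range] at hy
    rw [Finset.mem_range]
    omega
  · rw [h8, h1]
  · rw [h9, h1]
  · rw [h10, h1']
  · rw [h11, h1']

end TST
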