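import Pool.Agent.TST.RowCls

/-!
# The lemma (R*) of helper47 (CLAIM A of T-star; pure matroid theory)

`K = S ∪ {p, q}` is a circuit, `J` a set of elements of `cl (S ∪ {p})` outside of `cl S`, `p, q ∈ J`
(ends and exits of a row), `T` arbitrary.  If `R ／ C`, `C ⊆ S ∪ T`, `p, q ∉ cl C`, has a circuit with
at least three elements inside of `J`, then some `R ／ C'`, `C' ⊆ S ∪ T`, has a circuit inside of `J`
with three or four elements through `p` and `q`.
-/

open Set
open scoped Matroid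

namespace TST

variable {α : Type*} {N R : Matroid α} {S T J C : Set α} {p q : α}

/-- All circuits inside of `J` have at most two elements. -/
def ParJ (N : Matroid α) (J : Set α) : Prop := ∀ Z ⊆ J, N.IsCircuit Z → Z.ncard ≤ 2

lemma fin_con [R.Finite] (C : Set α) : (R ／ C).Finite := ⟨R.ground_finite.subset sdiff_subset⟩

lemma ncard_cl_le_one [N.Finite] {D : Set α} (hD : N.Indep D) (p : α) :
    (D ∩ N.closure {p}).ncard ≤ 1 := by
  have h1 : (D ∩ N.closure {p}).encard ≤ 1 := by
    have h2 := (hD.subset (inter_subset_left (t := N.closure {p}))).encard_le_eRk_of_subset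
      (inter_subset_right (s := D) (t := N.closure {p}))
    rw [N.eRk_closure_eq] at h2
    exact h2.trans (N.eRk_singleton_le p)
  have h3 : (D ∩ N.closure {p}).Finite :=
    N.ground_finite.subset (inter_subset_left.trans hD.subset_ground)
  rw [← h3.cast_ncard_eq] at h1
  exact_mod_cast h1

/-- an independent set in the closure of two elements -/
lemma ncard_cl_two [N.Finite] {D : Set α} (hD : N.Indep D) (h : D ⊆ N.closure {p, q}) :
    D.ncard ≤ 2 := by
  have h1 : D.encard ≤ 2 := by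
    have h2 := hD.encard_le_eRk_of_subset h
    rw [N.eRk_closure_eq] at h2
    refine h2.trans ((N.eRk_le_encard _).trans ((encard_insert_le _ _).trans ?_))
    rw [encard_singleton]
    norm_num
  have h3 : D.Finite := N.ground_finite.subset hD.subset_ground
  rw [← h3.cast_ncard_eq] at h1
  exact_mod_cast h1

/-- Contraction of elements spanned by `p` and `q`. -/
lemma ParJ.contract [N.Finite] (hP : ParJ N J) (hp : p ∈ J) (hq : q ∈ J) {B : Set α}
    (hB : B ⊆ N.closure {p, q}) (hBJ : Disjoint B J) : ParJ (N ／ B) J := by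
  intro D hDJ hD
  have hDE : D ⊆ N.E := hD.subset_ground.trans sdiff_subset
  have hDf : D.Finite := N.ground_finite.subset hDE
  by_cases hI : N.Indep D
  · have key : ∀ d ∈ D, d ∈ N.closure {p} ∨ d ∈ N.closure {q} := by
      intro d hd
      have hdE := hDE hd
      by_contra hcon
      push Not at hcon
      have hdp : d ≠ p := by
        rintro rfl
        exact hcon.1 (N.mem_closure_of_mem' (mem_singleton _) hdE)
      have hdq : d ≠ q := by
        rintro rfl
        exact hcon.2 (N.mem_closure_of_mem' (mem_singleton _) hdE)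
      have h1 : d ∈ N.closure ((D \ {d}) ∪ {p, q}) := by
        have h2 := hD.mem_closure_sdiff_singleton_of_mem hd
        rw [Matroid.contract_closure_eq] at h2
        refine N.closure_subset_closure_of_subset_closure ?_ h2.1
        rintro x (hx | hx)
        · exact N.mem_closure_of_mem' (Or.inl hx) (hDE hx.1)
        · exact N.closure_subset_closure subset_union_right (hB hx)
      have h3 : d ∉ (D \ {d}) ∪ {p, q} := by
        rintro (h | h | h)
        · exact h.2 rfl
        · exact hdp h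
        · exact hdq h
      obtain ⟨C₀, c1, c2, c3⟩ := Matroid.exists_isCircuit_of_mem_closure h1 h3
      have hC₀J : C₀ ⊆ J := by
        intro x hx
        rcases c1 hx with rfl | hx | hx | hx
        · exact hDJ hd
        · exact hDJ hx.1
        · exact hx ▸ hp
        · exact (mem_singleton_iff.1 hx) ▸ hq
      have h4 := hP C₀ hC₀J c2
      have hC₀f : C₀.Finite := N.ground_finite.subset c2.subset_ground
      have h5 : (C₀ \ {d}).ncard ≤ 1 := by
        rw [ncard_sdiff_singleton_of_mem c3]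
        omega
      have h6 := c2.mem_closure_sdiff_singleton_of_mem c3
      rcases (C₀ \ {d}).eq_empty_or_nonempty with h7 | ⟨x, hx⟩
      · rw [h7] at h6
        exact hcon.1 (N.closure_subset_closure (empty_subset _) h6)
      · have h8 : C₀ \ {d} = {x} := by
          have := (ncard_le_one (hC₀f.subset sdiff_subset)).1 h5
          exact subset_antisymm (fun y hy => this y hy x hx) (singleton_subset_iff.2 hx)
        rw [h8] at h6
        rcases c1 hx.1 with h9 | h9 | h9 | h9
        · exact hx.2 h9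
        · exact hI.notMem_closure_sdiff_of_mem hd
            (N.closure_subset_closure (singleton_subset_iff.2 h9) h6)
        · exact hcon.1 (h9 ▸ h6)
        · exact hcon.2 ((mem_singleton_iff.1 h9) ▸ h6)
    have h1 : D ⊆ (D ∩ N.closure {p}) ∪ (D ∩ N.closure {q}) := by
      intro d hd
      rcases key d hd with h | h
      · exact Or.inl ⟨hd, h⟩
      · exact Or.inr ⟨hd, h⟩
    calc D.ncard ≤ _ := ncard_le_ncard h1 ((hDf.inter_of_left _).union (hDf.inter_of_left _))
      _ ≤ _ := ncard_union_le _ _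
      _ ≤ 1 + 1 := Nat.add_le_add (ncard_cl_le_one hI p) (ncard_cl_le_one hI q)
  · obtain ⟨D₀, d1, d2⟩ := ((Matroid.not_indep_iff hDE).1 hI).exists_isCircuit_subset
    have h1 : (N ／ B).Dep D₀ := d2.contract_dep (hBJ.mono_right (d1.trans hDJ))
    have h2 := hD.eq_of_dep_subset h1 d1
    rw [← h2]
    exact hP D₀ (d1.trans hDJ) d2

/-- a circuit which is not hit by `s` -/
lemma isCircuit_contract_of_notMem {Z : Set α} (hZ : N.IsCircuit Z) {s : α}
    (hs : s ∉ N.closure Z) (hsE : s ∈ N.E) : (N ／ {s}).IsCircuit Z := by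
  have hsZ : s ∉ Z := fun h => hs (N.mem_closure_of_mem h hZ.subset_ground)
  rw [Matroid.isCircuit_iff_dep_forall_sdiff_singleton_indep]
  refine ⟨hZ.contract_dep (disjoint_singleton_left.2 hsZ), ?_⟩
  intro z hz
  have h1 := hZ.sdiff_singleton_indep hz
  have hsn : N.IsNonloop s := by
    rw [← N.not_isLoop_iff hsE]
    exact fun h => hs (h.mem_closure _)
  rw [hsn.contractElem_indep_iff]
  refine ⟨fun h => hsZ h.1, ?_⟩
  exact (h1.notMem_closure_iff hsE).1 (fun h => hs (N.closure_subset_closure sdiff_subset h)) |>.1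

/-- The row situation. -/
structure RowJ (R : Matroid α) (S T J : Set α) (p q : α) : Prop where
  cir : R.IsCircuit (insert p (insert q S))
  pS : p ∉ S
  qS : q ∉ S
  pq : p ≠ q
  Jcl : J ⊆ R.closure (insert p S)
  Jn : Disjoint J (R.closure S)
  pJ : p ∈ J
  qJ : q ∈ J
  TJ : Disjoint T J
  TE : T ⊆ R.E

/-- The property of `C`. -/
def BadC (R : Matroid α) (S T J : Set α) (p q : α) (C : Set α) : Prop :=
  C ⊆ S ∪ T ∧ p ∉ R.closure C ∧ q ∉ R.closure C ∧ ∃ Z ⊆ J, (R ／ C).IsCircuit Z ∧ 3 ≤ Z.ncard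

/-- An extremal `C`. -/
structure ExtC (R : Matroid α) (S T J : Set α) (p q : α) (C : Set α) : Prop where
  bad : BadC R S T J p q C
  maxS : ∀ C', BadC R S T J p q C' → (C' ∩ S).ncard ≤ (C ∩ S).ncard
  minT : ∀ C', BadC R S T J p q C' → (C' ∩ S).ncard = (C ∩ S).ncard →
    (C \ S).ncard ≤ (C' \ S).ncard

section

variable (h : RowJ R S T J p q)

include h

lemma RowJ.SE : S ⊆ R.E := fun _ hx => h.cir.subset_ground (Or.inr (Or.inr hx))

lemma RowJ.ind : R.Indep (insert p S) := by
  have h1 := h.cir.sdiff_singleton_indep (e := q) (Or.inr (Or.inl rfl))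
  have h2 : (insert p (insert q S)) \ {q} = insert p S := by
    ext x
    simp only [mem_sdiff, mem_insert_iff, mem_singleton_iff]
    constructor
    · rintro ⟨h1 | h1 | h1, h2⟩
      · exact Or.inl h1
      · exact absurd h1 h2
      · exact Or.inr h1
    · rintro (h1 | h1)
      · exact ⟨Or.inl h1, h1 ▸ h.pq⟩
      · exact ⟨Or.inr (Or.inr h1), fun h3 => h.qS (h3 ▸ h1)⟩
  rwa [h2] at h1

lemma RowJ.SJ : Disjoint S J :=
  (h.Jn.mono_right (R.subset_closure S h.SE)).symm

lemma RowJ.CJ (hC : C ⊆ S ∪ T) : Disjoint C J := by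
  rw [Set.disjoint_left]
  intro x hx hxJ
  rcases hC hx with h1 | h1
  · exact Set.disjoint_left.1 h.SJ h1 hxJ
  · exact Set.disjoint_left.1 h.TJ h1 hxJ

lemma RowJ.CE (hC : C ⊆ S ∪ T) : C ⊆ R.E := hC.trans (union_subset h.SE h.TE)

lemma RowJ.exists_ext [R.Finite] (hC : BadC R S T J p q C) : ∃ C', ExtC R S T J p q C' := by
  have hf : {C' | BadC R S T J p q C'}.Finite :=
    R.ground_finite.finite_subsets.subset fun C' hC' => h.CE hC'.1
  obtain ⟨C₁, h1, h2⟩ := Set.exists_max_image _ (fun C' : Set α => (C' ∩ S).ncard) hf ⟨C, hC⟩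
  have hf' : {C' | BadC R S T J p q C' ∧ (C' ∩ S).ncard = (C₁ ∩ S).ncard}.Finite :=
    hf.subset fun C' hC' => hC'.1
  obtain ⟨C₂, h3, h4⟩ := Set.exists_min_image _ (fun C' : Set α => (C' \ S).ncard) hf'
    ⟨C₁, h1, rfl⟩
  refine ⟨C₂, h3.1, fun C' hC' => ?_, fun C' hC' he => ?_⟩
  · rw [h3.2]
    exact h2 C' hC'
  · exact h4 C' ⟨hC', he.trans h3.2⟩

/-- **(i)** -/
lemma RowJ.span [R.Finite] (hE : ExtC R S T J p q C) {Z : Set α} (hZJ : Z ⊆ J)
    (hZ : (R ／ C).IsCircuit Z) (h3 : 3 ≤ Z.ncard) {s : α} (hs : s ∈ S) (hsC : s ∉ C) :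
    s ∈ (R ／ C).closure Z := by
  classical
  by_contra hcl
  have hCE := h.CE hE.bad.1
  have hsE := h.SE hs
  have hfC : C.Finite := R.ground_finite.subset hCE
  have hpn : p ∉ R.closure S := ((h.ind.subset (subset_insert _ _)).notMem_closure_iff
    (h.cir.subset_ground (Or.inl rfl))).2 ⟨h.ind, h.pS⟩
  have hqn : q ∉ R.closure S := fun hq => Set.disjoint_left.1 h.Jn h.qJ hq
  obtain ⟨C₀, ⟨c1, c2, c3, c4⟩, c5⟩ := Set.exists_max_image
    {C₀ : Set α | C ∩ S ⊆ C₀ ∧ C₀ ⊆ C ∧ p ∉ R.closure (insert s C₀) ∧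
      q ∉ R.closure (insert s C₀)} (fun C₀ : Set α => C₀.ncard)
    (hfC.finite_subsets.subset fun C₀ hC₀ => hC₀.2.1) ⟨C ∩ S, subset_rfl, inter_subset_left,
      fun hp => hpn (R.closure_subset_closure (insert_subset hs inter_subset_right) hp),
      fun hq => hqn (R.closure_subset_closure (insert_subset hs inter_subset_right) hq)⟩
  have hfin : (R ／ insert s C₀).Finite := fin_con _
  have hsC₀ : s ∉ C₀ := fun hx => hsC (c2 hx)
  have hPar : ParJ (R ／ insert s C₀) J := by
    intro Z₀ hZ₀ hc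
    by_contra hlt
    have h1 : BadC R S T J p q (insert s C₀) :=
      ⟨insert_subset (Or.inl hs) (c2.trans hE.bad.1), c3, c4, Z₀, hZ₀, hc, by omega⟩
    have h2 := hE.maxS _ h1
    have h4 : C ∩ S ⊂ insert s C₀ ∩ S := by
      rw [Set.ssubset_iff_of_subset]
      · exact ⟨s, ⟨Or.inl rfl, hs⟩, fun hx => hsC hx.1⟩
      · exact fun x hx => ⟨Or.inr (c1 hx), hx.2⟩
    have h5 := ncard_lt_ncard h4 ((((hfC.subset c2).insert s)).inter_of_left _)
    omega
  have hB : C \ C₀ ⊆ (R ／ insert s C₀).closure {p, q} := by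
    rintro t ⟨ht, ht'⟩
    rw [Matroid.contract_closure_eq]
    have hts : t ∉ insert s C₀ := by
      rintro (h1 | h1)
      · exact hsC (h1 ▸ ht)
      · exact ht' h1
    refine ⟨?_, hts⟩
    have h1 : ¬ (C ∩ S ⊆ insert t C₀ ∧ insert t C₀ ⊆ C ∧ p ∉ R.closure (insert s (insert t C₀)) ∧
        q ∉ R.closure (insert s (insert t C₀))) := by
      intro h1
      have h2 : (insert t C₀).ncard ≤ C₀.ncard := c5 _ h1
      rw [ncard_insert_of_notMem ht' (hfC.subset c2)] at h2
      omega
    have h2 : p ∈ R.closure (insert s (insert t C₀)) ∨ q ∈ R.closure (insert s (insert t C₀)) := by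
      by_contra h2
      push Not at h2
      exact h1 ⟨c1.trans (subset_insert _ _), insert_subset ht c2, h2.1, h2.2⟩
    rcases h2 with h2 | h2
    · rw [insert_comm] at h2
      refine R.closure_subset_closure ?_ (Matroid.mem_closure_insert c3 h2)
      rintro x (hx | hx)
      · exact Or.inl (Or.inl hx)
      · exact Or.inr hx
    · rw [insert_comm] at h2
      refine R.closure_subset_closure ?_ (Matroid.mem_closure_insert c4 h2)
      rintro x (hx | hx)
      · exact Or.inl (Or.inr hx)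
      · exact Or.inr hx
  have hfin : (R ／ insert s C₀).Finite := fin_con _
  have h1 := hPar.contract h.pJ h.qJ hB ((h.CJ hE.bad.1).mono_left sdiff_subset)
  have h2 : R ／ insert s C₀ ／ (C \ C₀) = R ／ C ／ {s} := by
    rw [Matroid.contract_contract, Matroid.contract_contract]
    congr 1
    ext x
    simp only [mem_union, mem_insert_iff, mem_sdiff, mem_singleton_iff]
    have := @c2 x
    tauto
  rw [h2] at h1
  have h4 := h1 Z hZJ (isCircuit_contract_of_notMem hZ hcl ⟨hsE, hsC⟩)
  omega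

/-- all of `J` is spanned -/
lemma RowJ.spanJ [R.Finite] (hE : ExtC R S T J p q C) {Z : Set α} (hZJ : Z ⊆ J)
    (hZ : (R ／ C).IsCircuit Z) (h3 : 3 ≤ Z.ncard) : J ⊆ (R ／ C).closure Z := by
  have hCE := h.CE hE.bad.1
  have hZE : Z ⊆ R.E := hZ.subset_ground.trans sdiff_subset
  have h1 : S ⊆ R.closure (Z ∪ C) := by
    intro s hs
    by_cases hsC : s ∈ C
    · exact R.mem_closure_of_mem' (Or.inr hsC) (h.SE hs)
    · have h2 := h.span hE hZJ hZ h3 hs hsC
      rw [Matroid.contract_closure_eq] at h2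
      exact h2.1
  obtain ⟨z, hz⟩ := hZ.nonempty
  have h2 : p ∈ R.closure (insert z S) :=
    Matroid.mem_closure_insert (Set.disjoint_left.1 h.Jn (hZJ hz)) (h.Jcl (hZJ hz))
  have h4 : insert z S ⊆ R.closure (Z ∪ C) :=
    insert_subset (R.mem_closure_of_mem' (Or.inl hz) (hZE hz)) h1
  have h5 : insert p S ⊆ R.closure (Z ∪ C) :=
    insert_subset (R.closure_subset_closure_of_subset_closure h4 h2) h1
  intro x hx
  rw [Matroid.contract_closure_eq]
  exact ⟨R.closure_subset_closure_of_subset_closure h5 (h.Jcl hx),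
    fun hxC => Set.disjoint_left.1 (h.CJ hE.bad.1) hxC hx⟩

/-- `C` is independent -/
lemma RowJ.indC [R.Finite] (hE : ExtC R S T J p q C) : R.Indep C := by
  have hCE := h.CE hE.bad.1
  have hfC : C.Finite := R.ground_finite.subset hCE
  rw [Matroid.indep_iff_forall_subset_not_isCircuit hCE]
  intro D hD hc
  by_cases hDS : D ⊆ S
  · exact hc.not_indep (h.ind.subset (hDS.trans (subset_insert _ _)))
  · obtain ⟨t, htD, htS⟩ := Set.not_subset.1 hDS
    have htC := hD htD
    have h1 : t ∈ R.closure (C \ {t}) := R.closure_subset_closure (sdiff_subset_sdiff_left hD)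
      (hc.mem_closure_sdiff_singleton_of_mem htD)
    obtain ⟨b1, b2, b3, Z, hZJ, hZ, h3⟩ := hE.bad
    have h2 : R ／ (C \ {t}) ／ {t} = R ／ C := by
      rw [Matroid.contract_contract, sdiff_union_self,
        union_eq_self_of_subset_right (singleton_subset_iff.2 htC)]
    have h4 : {t} ⊆ (R ／ (C \ {t})).loops := by
      rw [Matroid.contract_loops_eq, singleton_subset_iff]
      exact ⟨h1, fun hx => hx.2 rfl⟩
    rw [← h2, Matroid.contract_eq_delete_of_subset_loops h4] at hZ
    have h5 : BadC R S T J p q (C \ {t}) := ⟨sdiff_subset.trans b1,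
      fun hx => b2 (R.closure_subset_closure sdiff_subset hx),
      fun hx => b3 (R.closure_subset_closure sdiff_subset hx), Z, hZJ, hZ.of_delete, h3⟩
    have h6 : (C \ {t}) ∩ S = C ∩ S := by
      ext x
      simp only [mem_inter_iff, mem_sdiff, mem_singleton_iff]
      constructor
      · rintro ⟨⟨g1, _⟩, g2⟩
        exact ⟨g1, g2⟩
      · rintro ⟨g1, g2⟩
        exact ⟨⟨g1, fun g3 => htS (g3 ▸ g2)⟩, g2⟩
    have h7 := hE.minT _ h5 (by rw [h6])
    have h8 : (C \ {t}) \ S ⊂ C \ S := by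
      rw [Set.ssubset_iff_of_subset (sdiff_subset_sdiff_left sdiff_subset)]
      exact ⟨t, ⟨htC, htS⟩, fun hx => hx.1.2 rfl⟩
    have h9 := ncard_lt_ncard h8 (hfC.subset sdiff_subset)
    omega

/-- **(ii)** -/
lemma RowJ.not_par [R.Finite] (hE : ExtC R S T J p q C) : q ∉ R.closure (insert p C) := by
  classical
  intro hq
  have hCE := h.CE hE.bad.1
  have hfC : C.Finite := R.ground_finite.subset hCE
  have hC := h.indC hE
  obtain ⟨b1, b2, b3, Z, hZJ, hZ, h3⟩ := hE.bad
  have hpE : p ∈ R.E := h.cir.subset_ground (Or.inl rfl)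
  have hqE : q ∈ R.E := h.cir.subset_ground (Or.inr (Or.inl rfl))
  have hpC : R.Indep (insert p C) := ((hC.notMem_closure_iff hpE).1 b2).1
  have hqp : q ∉ insert p C := by
    rintro (hx | hx)
    · exact h.pq hx.symm
    · exact b3 (R.mem_closure_of_mem hx hCE)
  have hΓ := hpC.fundCircuit_isCircuit hq hqp
  obtain ⟨Γ, hΓe⟩ : ∃ Γ, Γ = R.fundCircuit q (insert p C) := ⟨_, rfl⟩
  have hΓs : Γ ⊆ insert q (insert p C) := hΓe ▸ R.fundCircuit_subset_insert q _
  have hqΓ : q ∈ Γ := hΓe ▸ R.mem_fundCircuit q _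
  rw [← hΓe] at hΓ
  have hfN : (R ／ C).Finite := fin_con _
  by_cases hK : Γ ⊆ insert p (insert q S)
  · have h1 := h.cir.eq_of_superset_isCircuit hΓ hK
    have h2 : S ⊆ C := by
      intro s hs
      have h4 : s ∈ Γ := by
        rw [← h1]
        exact Or.inr (Or.inr hs)
      rcases hΓs h4 with h5 | h5 | h5
      · exact absurd (h5 ▸ hs) h.qS
      · exact absurd (h5 ▸ hs) h.pS
      · exact h5
    obtain ⟨z, hz⟩ := hZ.nonempty
    have h4 := hZ.sdiff_singleton_indep hz
    have h5 : Z \ {z} ⊆ (R ／ C).closure {p} := by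
      intro x hx
      rw [Matroid.contract_closure_eq]
      refine ⟨R.closure_subset_closure ?_ (h.Jcl (hZJ hx.1)),
        fun hxC => Set.disjoint_left.1 (h.CJ b1) hxC (hZJ hx.1)⟩
      rintro y (hy | hy)
      · exact Or.inl hy
      · exact Or.inr (h2 hy)
    have h6 := ncard_cl_le_one h4 p
    rw [inter_eq_self_of_subset_left h5, ncard_sdiff_singleton_of_mem hz] at h6
    omega
  · obtain ⟨t, htΓ, htK⟩ := Set.not_subset.1 hK
    have htC : t ∈ C := by
      rcases hΓs htΓ with h5 | h5 | h5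
      · exact absurd (Or.inr (Or.inl h5)) htK
      · exact absurd (Or.inl h5) htK
      · exact h5
    have htS : t ∉ S := fun hx => htK (Or.inr (Or.inr hx))
    have hfN' : (R ／ (C \ {t})).Finite := fin_con _
    have hPar : ParJ (R ／ (C \ {t})) J := by
      intro Z₀ hZ₀ hc
      by_contra hlt
      have h5 : BadC R S T J p q (C \ {t}) := ⟨sdiff_subset.trans b1,
        fun hx => b2 (R.closure_subset_closure sdiff_subset hx),
        fun hx => b3 (R.closure_subset_closure sdiff_subset hx), Z₀, hZ₀, hc, by omega⟩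
      have h6 : (C \ {t}) ∩ S = C ∩ S := by
        ext x
        simp only [mem_inter_iff, mem_sdiff, mem_singleton_iff]
        constructor
        · rintro ⟨⟨g1, _⟩, g2⟩
          exact ⟨g1, g2⟩
        · rintro ⟨g1, g2⟩
          exact ⟨⟨g1, fun g3 => htS (g3 ▸ g2)⟩, g2⟩
      have h7 := hE.minT _ h5 (by rw [h6])
      have h8 : (C \ {t}) \ S ⊂ C \ S := by
        rw [Set.ssubset_iff_of_subset (sdiff_subset_sdiff_left sdiff_subset)]
        exact ⟨t, ⟨htC, htS⟩, fun hx => hx.1.2 rfl⟩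
      have h9 := ncard_lt_ncard h8 (hfC.subset sdiff_subset)
      omega
    have hB : {t} ⊆ (R ／ (C \ {t})).closure {p, q} := by
      rw [singleton_subset_iff, Matroid.contract_closure_eq]
      refine ⟨R.closure_subset_closure ?_ (hΓ.mem_closure_sdiff_singleton_of_mem htΓ),
        fun hx => hx.2 rfl⟩
      rintro x ⟨hx, hxt⟩
      rcases hΓs hx with h5 | h5 | h5
      · exact Or.inl (Or.inr h5)
      · exact Or.inl (Or.inl h5)
      · exact Or.inr ⟨h5, hxt⟩
    have h1 := hPar.contract h.pJ h.qJ hB ((h.CJ b1).mono_left (singleton_subset_iff.2 htC))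
    have h2 : R ／ (C \ {t}) ／ {t} = R ／ C := by
      rw [Matroid.contract_contract, sdiff_union_self,
        union_eq_self_of_subset_right (singleton_subset_iff.2 htC)]
    rw [h2] at h1
    have := h1 Z hZJ hZ
    omega

/-- **(iii)** the bound -/
lemma RowJ.le_four [R.Finite] (hE : ExtC R S T J p q C) {Z : Set α} (hZJ : Z ⊆ J)
    (hZ : (R ／ C).IsCircuit Z) (h3 : 3 ≤ Z.ncard) : Z.ncard ≤ 4 := by
  classical
  have hCE := h.CE hE.bad.1
  have hfC : C.Finite := R.ground_finite.subset hCE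
  have hfN : (R ／ C).Finite := fin_con _
  have hfZ : Z.Finite := (R ／ C).ground_finite.subset hZ.subset_ground
  obtain ⟨b1, b2, b3, _⟩ := hE.bad
  by_cases hs : ∃ s ∈ S, s ∉ C ∧ s ∉ R.closure (insert p C) ∧ s ∉ R.closure (insert q C)
  · obtain ⟨s, hs, hsC, hsp, hsq⟩ := hs
    have hps : p ∉ R.closure (insert s C) := fun hx => hsp (Matroid.mem_closure_insert b2 hx)
    have hqs : q ∉ R.closure (insert s C) := fun hx => hsq (Matroid.mem_closure_insert b3 hx)
    have hPar : ParJ (R ／ C ／ {s}) J := by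
      intro Z₀ hZ₀ hc
      by_contra hlt
      rw [Matroid.contract_contract, union_singleton] at hc
      have h1 : BadC R S T J p q (insert s C) :=
        ⟨insert_subset (Or.inl hs) b1, hps, hqs, Z₀, hZ₀, hc, by omega⟩
      have h2 := hE.maxS _ h1
      have h4 : C ∩ S ⊂ insert s C ∩ S := by
        rw [Set.ssubset_iff_of_subset]
        · exact ⟨s, ⟨Or.inl rfl, hs⟩, fun hx => hsC hx.1⟩
        · exact fun x hx => ⟨Or.inr hx.1, hx.2⟩
      have h5 := ncard_lt_ncard h4 ((hfC.insert s).inter_of_left _)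
      omega
    have hsZ : s ∉ Z := fun hx => Set.disjoint_left.1 h.SJ hs (hZJ hx)
    have hscl := h.span hE hZJ hZ h3 hs hsC
    have hsE : s ∈ (R ／ C).E := ⟨h.SE hs, hsC⟩
    have hsn : ∀ X : Set α, (R ／ C).IsCircuit (insert s X) → X.Nonempty := by
      intro X hX
      by_contra hne
      rw [not_nonempty_iff_eq_empty] at hne
      rw [hne] at hX
      have h1 := hX.mem_closure_sdiff_singleton_of_mem (Or.inl rfl)
      have h2 : (insert s (∅ : Set α)) \ {s} = ∅ := by simp
      rw [h2, Matroid.contract_closure_eq] at h1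
      exact hsp (R.closure_subset_closure (by rw [empty_union]; exact subset_insert _ _) h1.1)
    -- circuits through `s`
    have key : ∀ z ∈ Z, ∃ D ⊆ Z \ {z}, (R ／ C).IsCircuit (insert s D) ∧ D.ncard ≤ 2 := by
      intro z hz
      have h1 := hZ.sdiff_singleton_indep hz
      have h2 : s ∈ (R ／ C).closure (Z \ {z}) := by
        rw [hZ.closure_sdiff_singleton_eq]
        exact hscl
      have hsZz : s ∉ Z \ {z} := fun hx => hsZ hx.1
      have h4 := h1.fundCircuit_isCircuit h2 hsZz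
      have h5 := (R ／ C).fundCircuit_subset_insert s (Z \ {z})
      have h6 := (R ／ C).mem_fundCircuit s (Z \ {z})
      obtain ⟨Γ, hΓ⟩ : ∃ Γ, Γ = (R ／ C).fundCircuit s (Z \ {z}) := ⟨_, rfl⟩
      rw [← hΓ] at h4 h5 h6
      have h7 : insert s (Γ \ {s}) = Γ := by
        rw [insert_sdiff_singleton, insert_eq_of_mem h6]
      have h8 : (R ／ C).IsCircuit (insert s (Γ \ {s})) := by rwa [h7]
      have h9 : Γ \ {s} ⊆ Z \ {z} := by
        rintro x ⟨hx, hx'⟩
        rcases h5 hx with h10 | h10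
        · exact absurd h10 hx'
        · exact h10
      refine ⟨Γ \ {s}, h9, h8, ?_⟩
      obtain ⟨y, hy⟩ := hsn _ h8
      have h10 : Γ.Nontrivial := ⟨s, h6, y, hy.1, fun e => hy.2 e.symm⟩
      exact hPar _ ((h9.trans sdiff_subset).trans hZJ) (h4.contractElem_isCircuit h10 h6)
    obtain ⟨z, hz⟩ := hZ.nonempty
    obtain ⟨D₀, d1, d2, d3⟩ := key z hz
    obtain ⟨z₁, hz₁⟩ := hsn D₀ d2
    obtain ⟨D₁, d4, d5, d6⟩ := key z₁ (d1 hz₁).1
    have hne : insert s D₀ ≠ insert s D₁ := by
      intro he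
      have h1 : z₁ ∈ insert s D₁ := he ▸ Or.inr hz₁
      rcases h1 with h1 | h1
      · exact hsZ (h1 ▸ (d1 hz₁).1)
      · exact (d4 h1).2 rfl
    obtain ⟨Γ, g1, g2⟩ := d2.elimination d5 hne s
    have g3 : Γ ⊆ D₀ ∪ D₁ := by
      intro x hx
      obtain ⟨g4, g5⟩ := g1 hx
      rcases g4 with (g4 | g4) | (g4 | g4)
      · exact absurd g4 g5
      · exact Or.inl g4
      · exact absurd g4 g5
      · exact Or.inr g4
    have g4 : Γ ⊆ Z := g3.trans (union_subset (d1.trans sdiff_subset) (d4.trans sdiff_subset))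
    have g5 := hZ.eq_of_superset_isCircuit g2 g4
    rw [g5]
    have hf0 : D₀.Finite := hfZ.subset (d1.trans sdiff_subset)
    have hf1 : D₁.Finite := hfZ.subset (d4.trans sdiff_subset)
    calc Γ.ncard ≤ (D₀ ∪ D₁).ncard := ncard_le_ncard g3 (hf0.union hf1)
      _ ≤ D₀.ncard + D₁.ncard := ncard_union_le _ _
      _ ≤ 4 := by omega
  · push Not at hs
    have h1 : insert p S ⊆ R.closure ({p, q} ∪ C) := by
      rintro x (hx | hx)
      · refine R.mem_closure_of_mem' (Or.inl (Or.inl hx)) ?_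
        rw [hx]
        exact h.cir.subset_ground (Or.inl rfl)
      · by_cases hxC : x ∈ C
        · exact R.mem_closure_of_mem' (Or.inr hxC) (h.SE hx)
        · by_cases hxp : x ∈ R.closure (insert p C)
          · refine R.closure_subset_closure ?_ hxp
            rintro y (hy | hy)
            · exact Or.inl (Or.inl hy)
            · exact Or.inr hy
          · refine R.closure_subset_closure ?_ (hs x hx hxC hxp)
            rintro y (hy | hy)
            · exact Or.inl (Or.inr hy)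
            · exact Or.inr hy
    obtain ⟨z, hz⟩ := hZ.nonempty
    have h2 := hZ.sdiff_singleton_indep hz
    have h4 : Z \ {z} ⊆ (R ／ C).closure {p, q} := by
      intro x hx
      rw [Matroid.contract_closure_eq]
      exact ⟨R.closure_subset_closure_of_subset_closure h1 (h.Jcl (hZJ hx.1)),
        fun hxC => Set.disjoint_left.1 (h.CJ b1) hxC (hZJ hx.1)⟩
    have h5 := ncard_cl_two h2 h4
    rw [ncard_sdiff_singleton_of_mem hz] at h5
    omega

/-- **(R*)** -/
theorem RowJ.rstar [R.Finite] (hB : BadC R S T J p q C) :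
    ∃ C' ⊆ S ∪ T, p ∉ R.closure C' ∧ q ∉ R.closure C' ∧ ∃ Z ⊆ J, (R ／ C').IsCircuit Z ∧ p ∈ Z ∧
      q ∈ Z ∧ 3 ≤ Z.ncard ∧ Z.ncard ≤ 4 := by
  classical
  obtain ⟨C, hE⟩ := h.exists_ext hB
  obtain ⟨b1, b2, b3, Z, hZJ, hZ, h3⟩ := hE.bad
  have hCE := h.CE b1
  have hfN : (R ／ C).Finite := fin_con _
  have hpq := h.not_par hE
  have hpC : p ∉ C := fun hx => b2 (R.mem_closure_of_mem hx hCE)
  have hqC : q ∉ C := fun hx => b3 (R.mem_closure_of_mem hx hCE)
  have hpl : ¬ (R ／ C).IsCircuit {p} := by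
    intro hc
    have h1 := hc.mem_closure_sdiff_singleton_of_mem (mem_singleton p)
    rw [sdiff_self, Matroid.contract_closure_eq] at h1
    exact b2 (by simpa using h1.1)
  have hql : ¬ (R ／ C).IsCircuit {q} := by
    intro hc
    have h1 := hc.mem_closure_sdiff_singleton_of_mem (mem_singleton q)
    rw [sdiff_self, Matroid.contract_closure_eq] at h1
    exact b3 (by simpa using h1.1)
  -- a circuit through `p`
  obtain ⟨Z₁, z1, z2, z3, z4⟩ : ∃ Z₁ ⊆ J, (R ／ C).IsCircuit Z₁ ∧ p ∈ Z₁ ∧ 3 ≤ Z₁.ncard := by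
    by_cases hpZ : p ∈ Z
    · exact ⟨Z, hZJ, hZ, hpZ, h3⟩
    · have hcl : p ∈ (R ／ C).closure Z := h.spanJ hE hZJ hZ h3 h.pJ
      have hfZ : Z.Finite := (R ／ C).ground_finite.subset hZ.subset_ground
      have key : ∀ x ∈ Z, 2 ≤ (Z \ Cls (R ／ C) Z p x).ncard →
          ∃ Z₁ ⊆ J, (R ／ C).IsCircuit Z₁ ∧ p ∈ Z₁ ∧ 3 ≤ Z₁.ncard := by
        intro x hx h2
        refine ⟨_, ?_, cls_circuit hZ hcl hpZ hx, Or.inl rfl, ?_⟩
        · exact insert_subset h.pJ (sdiff_subset.trans hZJ)
        · rw [ncard_insert_of_notMem (fun hx => hpZ hx.1) (hfZ.subset sdiff_subset)]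
          omega
      obtain ⟨x, hx⟩ := hZ.nonempty
      by_cases h2 : 2 ≤ (Z \ Cls (R ／ C) Z p x).ncard
      · exact key x hx h2
      · have h4 : (Z \ Cls (R ／ C) Z p x).Nonempty := by
          by_contra hne
          rw [not_nonempty_iff_eq_empty] at hne
          have h5 := cls_circuit hZ hcl hpZ hx
          rw [hne] at h5
          exact hpl (by simpa using h5)
        obtain ⟨y, hy⟩ := h4
        refine key y hy.1 ?_
        have h5 : Cls (R ／ C) Z p y ⊆ {y} := by
          intro w hw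
          have h6 : w ∉ Cls (R ／ C) Z p x := by
            intro hw'
            exact hy.2 (cls_trans hZ hw' (cls_comm hy.1 hw))
          have h7 := (ncard_le_one (hfZ.subset sdiff_subset)).1 (by omega) w ⟨hw.1, h6⟩ y hy
          exact h7
        have h6 : Z \ {y} ⊆ Z \ Cls (R ／ C) Z p y := fun w hw => ⟨hw.1, fun hw' => hw.2 (h5 hw')⟩
        have h7 := ncard_le_ncard h6 (hfZ.subset sdiff_subset)
        rw [ncard_sdiff_singleton_of_mem hy.1] at h7
        omega
  -- a circuit through `p` and `q`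
  obtain ⟨Z₂, w1, w2, w3, w4, w5⟩ : ∃ Z₂ ⊆ J, (R ／ C).IsCircuit Z₂ ∧ p ∈ Z₂ ∧ q ∈ Z₂ ∧
      3 ≤ Z₂.ncard := by
    by_cases hqZ : q ∈ Z₁
    · exact ⟨Z₁, z1, z2, z3, hqZ, z4⟩
    · have hcl : q ∈ (R ／ C).closure Z₁ := h.spanJ hE z1 z2 z4 h.qJ
      have hfZ : Z₁.Finite := (R ／ C).ground_finite.subset z2.subset_ground
      have h4 : (Z₁ \ Cls (R ／ C) Z₁ q p).Nonempty := by
        by_contra hne
        rw [not_nonempty_iff_eq_empty] at hne
        have h5 := cls_circuit z2 hcl hqZ z3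
        rw [hne] at h5
        exact hql (by simpa using h5)
      obtain ⟨x, hx⟩ := h4
      have h5 := cls_circuit z2 hcl hqZ hx.1
      have h6 : p ∈ insert q (Z₁ \ Cls (R ／ C) Z₁ q x) :=
        Or.inr ⟨z3, fun hp => hx.2 (cls_comm hx.1 hp)⟩
      refine ⟨_, insert_subset h.qJ (sdiff_subset.trans z1), h5, h6, Or.inl rfl, ?_⟩
      by_contra hlt
      have hfZ₂ : (insert q (Z₁ \ Cls (R ／ C) Z₁ q x)).Finite :=
        (hfZ.subset sdiff_subset).insert q
      have h7 : insert q (Z₁ \ Cls (R ／ C) Z₁ q x) = {p, q} := by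
        refine (eq_of_subset_of_ncard_le ?_ ?_ hfZ₂).symm
        · rintro y (rfl | hy)
          · exact h6
          · exact Or.inl hy
        · rw [ncard_pair h.pq]
          omega
      have h8 := h5.mem_closure_sdiff_singleton_of_mem (Or.inl rfl)
      rw [h7, Matroid.contract_closure_eq] at h8
      refine hpq (R.closure_subset_closure ?_ h8.1)
      rintro y (⟨hy | hy, hy'⟩ | hy)
      · exact Or.inl hy
      · exact absurd hy hy'
      · exact Or.inr hy
  exact ⟨C, b1, b2, b3, Z₂, w1, w2, w3, w4, w5, h.le_four hE w1 w2 w5⟩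

/-- **(R*)**, contrapositive: without circuits through `p`, `q` and one or two further elements all
circuits inside of `J` have at most two elements. -/
theorem RowJ.par [R.Finite]
    (hno : ∀ C' ⊆ S ∪ T, ∀ Z ⊆ J, (R ／ C').IsCircuit Z → p ∈ Z → q ∈ Z → 3 ≤ Z.ncard →
      Z.ncard ≤ 4 → False) (hC : C ⊆ S ∪ T) (hp : p ∉ R.closure C) (hq : q ∉ R.closure C) :
    ParJ (R ／ C) J := by
  intro Z hZJ hZ
  by_contra hlt
  obtain ⟨C', c1, _, _, Z', c2, c3, c4, c5, c6, c7⟩ :=
    h.rstar ⟨hC, hp, hq, Z, hZJ, hZ, by omega⟩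
  exact hno C' c1 Z' c2 c3 c4 c5 c6 c7

end

/-- **(R*)** in the form of helper47. -/
theorem rstar {α : Type*} (R : Matroid α) [R.Finite] (S T J : Set α) (p q : α)
    (_hJ : J ⊆ R.E) (hT : T ⊆ R.E) (_hdS : Disjoint J S) (hdT : Disjoint J T) (hp : p ∈ J)
    (hq : q ∈ J) (hpq : p ≠ q) (hK : R.IsCircuit (S ∪ {p, q}))
    (hJS : ∀ j ∈ J, j ∉ R.closure S) (hJp : J ⊆ R.closure (insert p S))
    (C : Set α) (hC : C ⊆ S ∪ T) (hpC : p ∉ R.closure C) (hqC : q ∉ R.closure C)
    (Z : Set α) (hZ : (R ／ C).IsCircuit Z) (hZJ : Z ⊆ J) (hZ3 : 3 ≤ Z.ncard) :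
    ∃ C' ⊆ S ∪ T, p ∉ R.closure C' ∧ q ∉ R.closure C' ∧ ∃ Z' ⊆ J, (R ／ C').IsCircuit Z' ∧
      p ∈ Z' ∧ q ∈ Z' ∧ 3 ≤ Z'.ncard ∧ Z'.ncard ≤ 4 := by
  have e : S ∪ {p, q} = insert p (insert q S) := by
    ext x
    simp only [mem_union, mem_insert_iff, mem_singleton_iff]
    tauto
  have hSE : S ⊆ R.E := fun x hx => hK.subset_ground (Or.inl hx)
  rw [e] at hK
  have h : RowJ R S T J p q := ⟨hK, fun hx => hJS p hp (R.mem_closure_of_mem hx hSE),
    fun hx => hJS q hq (R.mem_closure_of_mem hx hSE), hpq, hJp,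
    Set.disjoint_left.2 fun x hx => hJS x hx, hp, hq, hdT.symm, hT⟩
  exact h.rstar ⟨hC, hpC, hqC, Z, hZJ, hZ, hZ3⟩

end TST
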