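import Pool.Agent.TST.RStar

/-!
# (R*) from the two-exit circuits (CLAIM A of T-star)

If no circuit of the row matroid `R` contains both ends and one or two exits (and else only elements
of `S ∪ T`), then for every `C ⊆ S ∪ T` with `p, q ∉ cl C` all circuits of `R ／ C` inside of `J` have
at most two elements.
-/

open Set
open scoped Matroid

namespace TST

variable {α : Type*} {R : Matroid α} {S T J C : Set α} {p q : α}

/-- **(R*)**, hypothesis in circuits of `R` through both ends and one or two exits. -/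
theorem RowJ.par_circ [R.Finite] (h : RowJ R S T J p q)
    (hno : ∀ b ∈ J, ∀ b' ∈ J, b ≠ p → b ≠ q → b' ≠ p → b' ≠ q → ∀ Z ⊆ S ∪ T ∪ {p, q, b, b'},
      R.IsCircuit Z → p ∈ Z → q ∈ Z → b ∈ Z → b' ∈ Z → False) (hC : C ⊆ S ∪ T)
    (hp : p ∉ R.closure C) (hq : q ∉ R.closure C) : ParJ (R ／ C) J := by
  classical
  refine h.par ?_ hC hp hq
  intro C' hC' Z' hZ'J hZ' hpZ hqZ h3 h4
  have hfZ : Z'.Finite := R.ground_finite.subset (hZ'.subset_ground.trans sdiff_subset)
  obtain ⟨Z, hZ, h5, h6⟩ := hZ'.exists_subset_isCircuit_of_contract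
  have h7 : (Z' \ {p, q}).ncard + 2 = Z'.ncard := by
    have := ncard_sdiff_add_ncard_of_subset (s := {p, q}) (t := Z')
      (by
        rintro x (rfl | rfl)
        · exact hpZ
        · exact hqZ) hfZ
    rw [ncard_pair h.pq] at this
    exact this
  obtain ⟨b, b', hb, hb', hbb⟩ : ∃ b b', b ∈ Z' \ {p, q} ∧ b' ∈ Z' \ {p, q} ∧
      Z' \ {p, q} ⊆ {b, b'} := by
    rcases (show (Z' \ {p, q}).ncard = 1 ∨ (Z' \ {p, q}).ncard = 2 by omega) with h8 | h8
    · obtain ⟨b, hb⟩ := ncard_eq_one.1 h8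
      refine ⟨b, b, by rw [hb]; rfl, by rw [hb]; rfl, ?_⟩
      rw [hb]
      exact fun x hx => Or.inl hx
    · obtain ⟨b, b', _, hb⟩ := ncard_eq_two.1 h8
      exact ⟨b, b', by rw [hb]; exact Or.inl rfl, by rw [hb]; exact Or.inr rfl, hb.le⟩
  refine hno b (hZ'J hb.1) b' (hZ'J hb'.1) (fun hx => hb.2 (Or.inl hx))
    (fun hx => hb.2 (Or.inr hx)) (fun hx => hb'.2 (Or.inl hx)) (fun hx => hb'.2 (Or.inr hx)) Z ?_
    hZ (h5 hpZ) (h5 hqZ) (h5 hb.1) (h5 hb'.1)
  intro x hx
  rcases h6 hx with h8 | h8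
  · right
    by_cases h9 : x ∈ ({p, q} : Set α)
    · rcases h9 with h9 | h9
      · exact Or.inl h9
      · exact Or.inr (Or.inl h9)
    · rcases hbb ⟨h8, h9⟩ with h10 | h10
      · exact Or.inr (Or.inr (Or.inl h10))
      · exact Or.inr (Or.inr (Or.inr h10))
  · exact Or.inl (hC' h8)

end TST
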