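import Pool.Agent.TST.LabDef3
import Pool.Agent.TST.GDef
import Pool.Agent.DA.OnePl
import Pool.Agent.DA.RowRnd

/-!
# R7: the places of the chosen elements give `RgFacts` (helper78)

`rgFacts_of_TPl`: elements of `D` with the places `TPl` (LabDef3) satisfy `RgFacts`.
-/

set_option autoImplicit false

open Set BIC BICS CWL
open scoped Matroid

namespace TSH

universe u

open Mdl Mdj EN Gad TST EN.Wall

namespace RgPl

section lang

variable {α : Type u} {M : Matroid α} {w u₁ : ℕ} {L₁ : Bool × ℕ × ℕ → List α}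
  {f₁ : α → Sym2 ((ℕ × ℕ) ⊕ α)} {e₁ : Bool × ℕ × ℕ → α} {row : α → Sym2 (ℕ × ℕ)}
  {r r' : Bool × ℕ × ℕ} {x y t : α} {p u v : ℕ × ℕ} {S : Set α}

lemma mem_rx (hrw : ∀ r ∈ Seg w, ∀ x ∈ L₁ r, row x = DA.srow r) (hr : r ∈ Seg w)
    (he : DA.srow r = s(u, v)) :
    x ∈ DA.RX (crr L₁ (Seg w)) row u v ↔ x ∈ L₁ r := by
  constructor
  · rintro ⟨⟨r', hr', hx⟩, h1⟩
    have h2 : DA.srow r' = DA.srow r := by
      rw [← hrw r' hr' x hx, h1, he]
    rw [← DA.srow_inj h2]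
    exact hx
  · intro hx
    exact ⟨⟨r, hr, hx⟩, (hrw r hr x hx).trans he⟩

lemma es_iff : ES (Sees M S) t x y ↔ DA.Er M S t x y := by
  unfold ES Sees DA.Er
  rw [not_not]

lemma sees_iff (hxy : x ≠ y) : Sees M S t x y ↔ ¬ DA.Er M S t x y := by
  unfold Sees DA.Er
  constructor
  · intro h1 h2
    rcases h2 with h2 | h2
    · exact hxy h2
    · exact h1 h2
  · intro h1 h2
    exact h1 (Or.inr h2)

lemma seeP_iff (hrw : ∀ r ∈ Seg w, ∀ x ∈ L₁ r, row x = DA.srow r) (hr : r ∈ Seg w)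
    (he : DA.srow r = s(u, v)) :
    DA.SeeP M (crr L₁ (Seg w)) row t u v ↔
      SeeR (fun r => {x | x ∈ L₁ r}) (Sees M (crr L₁ (Seg w))) t r := by
  constructor
  · rintro ⟨x, hx, y, hy, h1⟩
    have hxy : x ≠ y := fun h2 => h1 (Or.inl h2)
    exact ⟨x, (mem_rx hrw hr he).1 hx, y, (mem_rx hrw hr he).1 hy, hxy, (sees_iff hxy).2 h1⟩
  · rintro ⟨x, hx, y, hy, hxy, h1⟩
    exact ⟨x, (mem_rx hrw hr he).2 hx, y, (mem_rx hrw hr he).2 hy, (sees_iff hxy).1 h1⟩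

/-- the other end -/
lemma oth (hr : r ∈ Seg w) (hA : segNear r = u ∨ segFar r = u) :
    ∃ v, DA.wadj u v ∧ DA.srow r = s(u, v) ∧ (segNear r = v ∨ segFar r = v) := by
  obtain ⟨h1, h2, h3⟩ := DA.wadj_srow hr
  rcases hA with hA | hA
  · refine ⟨segFar r, ?_, ?_, Or.inr rfl⟩
    · rw [← hA]
      exact h1
    · rw [← hA]
      rfl
  · refine ⟨segNear r, ?_, ?_, Or.inl rfl⟩
    · rw [← hA]
      exact DA.wadj_swap h1
    · rw [← hA]
      exact Sym2.eq_swap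

lemma ne_ends (hr : r ∈ Seg w) : segNear r ≠ segFar r := by
  intro h
  have h1 := DA.wadj_par' (DA.wadj_srow hr).1
  rw [h] at h1
  omega

/-- a wall with given representatives at `p` -/
lemma exists_wall (hG : GSide M (Seg w) L₁ f₁ e₁ u₁)
    (hrw : ∀ r ∈ Seg w, ∀ x ∈ L₁ r, row x = DA.srow r) (C : Bool × ℕ × ℕ → α) (p : ℕ × ℕ)
    (hC : ∀ r ∈ Seg w, (segNear r = p ∨ segFar r = p) → C r ∈ L₁ r) :
    ∃ c : DA.ChW (crr L₁ (Seg w)) row w,
      (∀ r ∈ Seg w, (segNear r = p ∨ segFar r = p) → C r ∈ c.1) ∧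
      {e | e ∈ c.1 ∧ p ∈ row e} =
        {x | ∃ r ∈ Seg w, (segNear r = p ∨ segFar r = p) ∧ x = C r} := by
  classical
  obtain ⟨g, hg⟩ : ∃ g : Bool × ℕ × ℕ → α,
    g = fun r => if segNear r = p ∨ segFar r = p then C r else e₁ r := ⟨_, rfl⟩
  have hgC : ∀ r, (segNear r = p ∨ segFar r = p) → g r = C r := by
    intro r hA
    rw [hg]
    simp only
    rw [if_pos hA]
  have hgL : ∀ r ∈ Seg w, g r ∈ L₁ r := by
    intro r hr
    by_cases hA : segNear r = p ∨ segFar r = p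
    · rw [hgC r hA]
      exact hC r hr hA
    · rw [hg]
      simp only
      rw [if_neg hA]
      exact List.mem_of_getLast? (hG.last r hr)
  have hgr : ∀ r ∈ Seg w, row (g r) = DA.srow r := fun r hr => hrw r hr _ (hgL r hr)
  refine ⟨⟨g '' Seg w, ?_, ?_, ?_, ?_⟩, ?_, ?_⟩
  · rintro _ ⟨r, hr, rfl⟩
    exact ⟨r, hr, hgL r hr⟩
  · rintro _ ⟨r, hr, rfl⟩ _ ⟨r', hr', rfl⟩ h1
    rw [hgr r hr, hgr r' hr'] at h1
    rw [DA.srow_inj h1]
  · rintro _ ⟨r, hr, rfl⟩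
    obtain ⟨h1, h2, h3⟩ := DA.wadj_srow hr
    exact ⟨_, _, hgr r hr, h1, h2, h3⟩
  · intro p' q hpq hp hq _
    obtain ⟨s, hs, h1⟩ := DA.seg_of_wadj hpq hp hq
    exact ⟨g s, ⟨s, hs, rfl⟩, (hgr s hs).trans h1⟩
  · intro r hr hA
    exact ⟨r, hr, hgC r hA⟩
  · ext e
    constructor
    · rintro ⟨⟨r, hr, rfl⟩, h1⟩
      rw [hgr r hr, DA.srow, Sym2.mem_iff] at h1
      have hA : segNear r = p ∨ segFar r = p := h1.imp Eq.symm Eq.symm
      exact ⟨r, hr, hA, hgC r hA⟩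
    · rintro ⟨r, hr, hA, rfl⟩
      refine ⟨⟨r, hr, hgC r hA⟩, ?_⟩
      rw [← hgC r hA, hgr r hr, DA.srow, Sym2.mem_iff]
      exact hA.imp Eq.symm Eq.symm

end lang

section kinds

variable {α : Type u} {M : Matroid α} [M.Finite] {w : ℕ} {L₁ : Bool × ℕ × ℕ → List α}
  {row : α → Sym2 (ℕ × ℕ)} {D : Set α} {β D₀ δ₀ D₁ δ₁ : ℕ} {Hm Hs₀ Om₁ Hs₁ Om₂ : Finset (ℕ × ℕ)}
  {r r' : Bool × ℕ × ℕ} {x y t : α} {p u v : ℕ × ℕ}

variable (hR : DA.Rnd M (crr L₁ (Seg w)) row w D β D₀ δ₀ D₁ δ₁ Hm Hs₀ Om₁ Hs₁ Om₂)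
  (hrw : ∀ r ∈ Seg w, ∀ x ∈ L₁ r, row x = DA.srow r)
include hR hrw

lemma snW_iff (hcl : t ∈ M.closure (crr L₁ (Seg w))) (hr : r ∈ Seg w)
    (he : DA.srow r = s(u, v)) (hu : DA.VisR w δ₁ Om₂ u) :
    DA.SnW M (crr L₁ (Seg w)) row w D₀ Hs₀ t u v ↔
      SeeR (fun r => {x | x ∈ L₁ r}) (Sees M (crr L₁ (Seg w))) t r := by
  rw [hR.sn_iff hcl (hR.reg hu)]
  exact seeP_iff hrw hr he

/-- **Far rungs.** -/
lemma far_facts (hz : t ∈ D) (hcl : t ∈ M.closure (crr L₁ (Seg w)))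
    (hr : r ∈ Seg w) (hr' : r' ∈ Seg w)
    (vu : DA.VisR w δ₁ Om₂ (segNear r)) (vv : DA.VisR w δ₁ Om₂ (segFar r))
    (vp : DA.VisR w δ₁ Om₂ (segNear r')) (vq : DA.VisR w δ₁ Om₂ (segFar r'))
    (hs : SeeR (fun r => {x | x ∈ L₁ r}) (Sees M (crr L₁ (Seg w))) t r)
    (hs' : SeeR (fun r => {x | x ∈ L₁ r}) (Sees M (crr L₁ (Seg w))) t r')
    (hd : ∀ v, (segNear r = v ∨ segFar r = v) → ¬ (segNear r' = v ∨ segFar r' = v)) :
    (∀ x ∈ L₁ r, ∀ y ∈ L₁ r, (DA.Er M (crr L₁ (Seg w)) t x y ↔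
      (x ∈ DA.Arw M (crr L₁ (Seg w)) row w (segNear r) (segFar r) t ↔
        y ∈ DA.Arw M (crr L₁ (Seg w)) row w (segNear r) (segFar r) t))) ∧
    (∀ c : DA.ChW (crr L₁ (Seg w)) row w, ∀ x ∈ L₁ r, x ∈ c.1 →
      (x ∈ DA.Arw M (crr L₁ (Seg w)) row w (segNear r) (segFar r) t ↔
        segNear r ∉ DA.YW M (crr L₁ (Seg w)) row w D₀ Hs₀ t c)) ∧
    (∀ c : DA.ChW (crr L₁ (Seg w)) row w, ∀ x ∈ L₁ r, x ∈ c.1 →
      (x ∈ DA.Arw M (crr L₁ (Seg w)) row w (segNear r) (segFar r) t ↔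
        segFar r ∈ DA.YW M (crr L₁ (Seg w)) row w D₀ Hs₀ t c)) ∧
    (∀ c : DA.ChW (crr L₁ (Seg w)) row w, DA.YW M (crr L₁ (Seg w)) row w D₀ Hs₀ t c ⊆
      {segNear r, segFar r, segNear r', segFar r'}) ∧
    (∀ r'' ∈ Seg w, DA.VisR w δ₁ Om₂ (segNear r'') → DA.VisR w δ₁ Om₂ (segFar r'') →
      SeeR (fun r => {x | x ∈ L₁ r}) (Sees M (crr L₁ (Seg w))) t r'' → r'' = r ∨ r'' = r') := by
  have hT := hR.locT hz hcl
  have huv := (DA.wadj_srow hr).1
  have hpq := (DA.wadj_srow hr').1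
  have hsn := (snW_iff hR hrw hcl hr rfl vu).2 hs
  have hsn' := (snW_iff hR hrw hcl hr' rfl vp).2 hs'
  have hpn : segNear r' ∉ ({segNear r, segFar r} : Set (ℕ × ℕ)) := by
    rintro (h1 | h1)
    · exact hd _ (Or.inl rfl) (Or.inl h1)
    · exact hd _ (Or.inr rfl) (Or.inl h1)
  have hqn : segFar r' ∉ ({segNear r, segFar r} : Set (ℕ × ℕ)) := by
    rintro (h1 | h1)
    · exact hd _ (Or.inl rfl) (Or.inr h1)
    · exact hd _ (Or.inr rfl) (Or.inr h1)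
  have q1 : DA.Quiet M (crr L₁ (Seg w)) row (segNear r) (segFar r) t :=
    hR.quiet_of_sn (hR.reg vu) fun b hub hbv =>
      hT.far_quiet huv vu vv hsn hpq (hR.reg vp) hsn' hpn hqn hub hbv
  have e1 : ({segFar r, segNear r} : Set (ℕ × ℕ)) = {segNear r, segFar r} := pair_comm _ _
  have q2 : DA.Quiet M (crr L₁ (Seg w)) row (segFar r) (segNear r) t :=
    hR.quiet_of_sn (hR.reg vv) fun b hub hbv =>
      hT.far_quiet (hT.symm _ _ huv) vv vu (hT.snsymm _ _ hsn) hpq (hR.reg vp) hsn'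
        (by rw [e1]; exact hpn) (by rw [e1]; exact hqn) hub hbv
  obtain ⟨c, y, h1, h2, h3⟩ := hT.exit_of_far huv vu vv hsn hpq (hR.reg vp) (hR.reg vq) hsn' hpn hqn
  obtain ⟨g1, g2, g3⟩ := hR.one_place hz hcl huv vu vv ((seeP_iff hrw hr rfl).2 hs) h1 h2 h3
    (Or.inl q1)
  have mx : ∀ {x : α}, x ∈ L₁ r → x ∈ DA.RX (crr L₁ (Seg w)) row (segNear r) (segFar r) :=
    fun hx => (mem_rx hrw hr rfl).2 hx
  refine ⟨fun x hx y hy => g1 x (mx hx) y (mx hy), fun c x hx hc => g2 q1 c x (mx hx) hc,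
    fun c x hx hc => g3 q2 c x (mx hx) hc, hT.supp_far huv vu vv hsn hpq hsn' hpn hqn, ?_⟩
  intro r'' hr'' va vb hs''
  have hab := (DA.wadj_srow hr'').1
  have hsn'' := (snW_iff hR hrw hcl hr'' rfl va).2 hs''
  have hne := ne_ends hr''
  rcases hT.far_other huv vu vv hsn hpq (hR.reg vp) hsn' hpn hqn hab (hR.reg va) (hR.reg vb)
    hsn'' with ⟨h4, h5⟩ | ⟨h4, h5⟩
  · left
    apply DA.srow_inj
    unfold DA.srow
    simp only [mem_insert_iff, mem_singleton_iff] at h4 h5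
    rcases h4 with h4 | h4 <;> rcases h5 with h5 | h5
    · exact absurd (h4.trans h5.symm) hne
    · rw [h4, h5]
    · rw [h4, h5]
      exact Sym2.eq_swap
    · exact absurd (h4.trans h5.symm) hne
  · right
    apply DA.srow_inj
    unfold DA.srow
    simp only [mem_insert_iff, mem_singleton_iff] at h4 h5
    rcases h4 with h4 | h4 <;> rcases h5 with h5 | h5
    · exact absurd (h4.trans h5.symm) hne
    · rw [h4, h5]
    · rw [h4, h5]
      exact Sym2.eq_swap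
    · exact absurd (h4.trans h5.symm) hne

/-- **Near rungs.** -/
lemma near_facts (hz : t ∈ D) (hcl : t ∈ M.closure (crr L₁ (Seg w)))
    (hr : r ∈ Seg w) (hr' : r' ∈ Seg w) (hne : r ≠ r')
    (hA : segNear r = u ∨ segFar r = u) (hA' : segNear r' = u ∨ segFar r' = u)
    (vn : DA.VisR w δ₁ Om₂ (segNear r)) (vf : DA.VisR w δ₁ Om₂ (segFar r))
    (hs : SeeR (fun r => {x | x ∈ L₁ r}) (Sees M (crr L₁ (Seg w))) t r)
    (hs' : SeeR (fun r => {x | x ∈ L₁ r}) (Sees M (crr L₁ (Seg w))) t r') :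
    (∀ c : DA.ChW (crr L₁ (Seg w)) row w, DA.YW M (crr L₁ (Seg w)) row w D₀ Hs₀ t c ⊆
      DA.nst DA.wadj u) ∧
    (∀ r'' ∈ Seg w, DA.VisR w δ₁ Om₂ (segNear r'') → DA.VisR w δ₁ Om₂ (segFar r'') →
      SeeR (fun r => {x | x ∈ L₁ r}) (Sees M (crr L₁ (Seg w))) t r'' →
      segNear r'' = u ∨ segFar r'' = u) := by
  have hT := hR.locT hz hcl
  obtain ⟨v, huv, he, hv⟩ := oth hr hA
  obtain ⟨v', huv', he', hv'⟩ := oth hr' hA'
  have vu : DA.VisR w δ₁ Om₂ u := by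
    rcases hA with h | h <;> rw [← h] <;> assumption
  have vv : DA.VisR w δ₁ Om₂ v := by
    rcases hv with h | h <;> rw [← h] <;> assumption
  have hvv : v ≠ v' := by
    rintro rfl
    exact hne (DA.srow_inj (he.trans he'.symm))
  have hsn := (snW_iff hR hrw hcl hr he vu).2 hs
  have hsn' := (snW_iff hR hrw hcl hr' he' vu).2 hs'
  refine ⟨hT.near_of_two huv vu vv hsn huv' hsn' hvv, ?_⟩
  intro r'' hr'' va vb hs''
  exact hT.near_other huv vu vv hsn huv' hsn' hvv (DA.wadj_srow hr'').1 (hR.reg va) (hR.reg vb)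
    ((snW_iff hR hrw hcl hr'' rfl va).2 hs'')

/-- **Same-row elements.** -/
lemma same_facts (hz : t ∈ D) (hr : r ∈ Seg w)
    (vu : DA.VisR w δ₁ Om₂ (segNear r)) (vv : DA.VisR w δ₁ Om₂ (segFar r))
    (ht : t ∈ DA.TRow M (crr L₁ (Seg w)) row w D₀ Hs₀ (segNear r) (segFar r)) :
    (∀ c : DA.ChW (crr L₁ (Seg w)) row w, DA.YW M (crr L₁ (Seg w)) row w D₀ Hs₀ t c ⊆
      {segNear r, segFar r}) ∧
    (∀ x ∈ L₁ r, ∀ y ∈ L₁ r,
      ((x ∈ DA.Lr M (crr L₁ (Seg w)) row w (segNear r) t →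
        y ∈ DA.Lr M (crr L₁ (Seg w)) row w (segNear r) t → DA.Er M (crr L₁ (Seg w)) t x y) ∧
      (DA.Er M (crr L₁ (Seg w)) t x y → x ∈ DA.Lr M (crr L₁ (Seg w)) row w (segNear r) t →
        y ∈ DA.Lr M (crr L₁ (Seg w)) row w (segNear r) t)) ∧
      ((x ∈ DA.Lr M (crr L₁ (Seg w)) row w (segFar r) t →
        y ∈ DA.Lr M (crr L₁ (Seg w)) row w (segFar r) t → DA.Er M (crr L₁ (Seg w)) t x y) ∧
      (DA.Er M (crr L₁ (Seg w)) t x y → x ∈ DA.Lr M (crr L₁ (Seg w)) row w (segFar r) t →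
        y ∈ DA.Lr M (crr L₁ (Seg w)) row w (segFar r) t))) ∧
    (∀ r'' ∈ Seg w, DA.VisR w δ₁ Om₂ (segNear r'') → DA.VisR w δ₁ Om₂ (segFar r'') →
      SeeR (fun r => {x | x ∈ L₁ r}) (Sees M (crr L₁ (Seg w))) t r'' → r'' = r) := by
  have hY := ((DA.mem_TRow₀ _ _).1 ht).2
  have hcl := ((DA.mem_TRow₀ _ _).1 ht).1.1
  have hT := hR.locT hz hcl
  obtain ⟨c₀, hc₀, hW₀⟩ := hR.rep
  obtain ⟨q1, q2⟩ := hR.w0.quietT (hR.vis₀ vu) (hR.vis₀ vv) ht
  refine ⟨hY, ?_, ?_⟩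
  · have key : ∀ u v : ℕ × ℕ, DA.srow r = s(u, v) → DA.VisR w δ₁ Om₂ u →
        DA.Quiet M (crr L₁ (Seg w)) row u v t → ∀ x ∈ L₁ r, ∀ y ∈ L₁ r,
        (x ∈ DA.Lr M (crr L₁ (Seg w)) row w u t →
          y ∈ DA.Lr M (crr L₁ (Seg w)) row w u t → DA.Er M (crr L₁ (Seg w)) t x y) ∧
        (DA.Er M (crr L₁ (Seg w)) t x y → x ∈ DA.Lr M (crr L₁ (Seg w)) row w u t →
          y ∈ DA.Lr M (crr L₁ (Seg w)) row w u t) := by
      intro u v he hu hq x hx y hy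
      have hru := hR.reg hu
      have cu := hR.vc u hru.1 hru.2
      have hx' := (mem_rx hrw hr he).2 hx
      have hy' := (mem_rx hrw hr he).2 hy
      rw [cu.mem_lr hR.wal.sub hR.wal.mem hq hc₀ hW₀ hx',
        cu.mem_lr hR.wal.sub hR.wal.mem hq hc₀ hW₀ hy']
      obtain ⟨k1, k2⟩ := cu.loc_er hR.wal.sub hc₀ hW₀ hx'.1 hy'.1 (hx'.2.trans hy'.2.symm)
        (by rw [hx'.2]; exact Sym2.mem_mk_left _ _) (DA.rep_of hR.wal.mem hW₀ hx'.1) (z := t)
      exact ⟨k2, k1⟩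
    intro x hx y hy
    exact ⟨key (segNear r) (segFar r) rfl vu q1 x hx y hy,
      key (segFar r) (segNear r) Sym2.eq_swap vv q2 x hx y hy⟩
  · intro r'' hr'' va vb hs''
    have hab := (DA.wadj_srow hr'').1
    have hsn := (snW_iff hR hrw hcl hr'' rfl va).2 hs''
    obtain ⟨c, h2, _⟩ := hT.tog _ _ hab (hR.reg va) hsn ⟨c₀, hc₀, hW₀⟩
    obtain ⟨c', h3, _⟩ := hT.tog _ _ (hT.symm _ _ hab) (hR.reg vb) (hT.snsymm _ _ hsn)
      ⟨c₀, hc₀, hW₀⟩
    have h4 := hY c h2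
    have h5 := hY c' h3
    have hne := ne_ends hr''
    apply DA.srow_inj
    unfold DA.srow
    simp only [mem_insert_iff, mem_singleton_iff] at h4 h5
    rcases h4 with h4 | h4 <;> rcases h5 with h5 | h5
    · exact absurd (h4.trans h5.symm) hne
    · rw [h4, h5]
    · rw [h4, h5]
      exact Sym2.eq_swap
    · exact absurd (h4.trans h5.symm) hne

end kinds

section one

variable {α : Type u} {M : Matroid α} {w : ℕ} {L₁ : Bool × ℕ × ℕ → List α}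
  {Zq LR : Set (Bool × ℕ × ℕ)} {T : Set α} {pr : α → Bool → Bool × ℕ × ℕ} {pa : α → Bool → Set α}

/-- all fields are about one element -/
lemma of_single (h : ∀ t ∈ T, RgFacts M w L₁ Zq LR {t} pr pa) : RgFacts M w L₁ Zq LR T pr pa where
  row := fun t ht => (h t ht).row t rfl
  sub := fun t ht => (h t ht).sub t rfl
  ne := fun t ht => (h t ht).ne t rfl
  sep := fun t ht => (h t ht).sep t rfl
  sep' := fun t ht => (h t ht).sep' t rfl
  dif := fun t ht => (h t ht).dif t rfl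
  brn := fun t ht => (h t ht).brn t rfl

end one

lemma fin3_rest : ∀ i j k l : Fin 3, i ≠ j → i ≠ k → j ≠ k → l ≠ k → l = i ∨ l = j := by
  decide

lemma fin3_all : ∀ l : Fin 3, l = 0 ∨ l = 1 ∨ l = 2 := by
  decide

section main

variable {α : Type u} {M : Matroid α} [M.Finite] {w u₁ : ℕ} {L₁ : Bool × ℕ × ℕ → List α}
  {f₁ : α → Sym2 ((ℕ × ℕ) ⊕ α)} {e₁ : Bool × ℕ × ℕ → α}
  {row : α → Sym2 (ℕ × ℕ)} {D : Set α} {β D₀ δ₀ D₁ δ₁ : ℕ} {Hm Hs₀ Om₁ Hs₁ Om₂ : Finset (ℕ × ℕ)}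
  {Zq LR : Set (Bool × ℕ × ℕ)} {t : α} {pr : α → Bool → Bool × ℕ × ℕ} {pa : α → Bool → Set α}

variable (hG : GSide M (Seg w) L₁ f₁ e₁ u₁)
  (hrw : ∀ r ∈ Seg w, ∀ x ∈ L₁ r, row x = DA.srow r)
  (hR : DA.Rnd M (crr L₁ (Seg w)) row w D β D₀ δ₀ D₁ δ₁ Hm Hs₀ Om₁ Hs₁ Om₂)
  (hvis : ∀ r ∈ Seg w, r ∉ Zq →
    DA.OutW (δ₁ + 60) w Om₂ (segNear r) ∧ DA.OutW (δ₁ + 60) w Om₂ (segFar r))

include hvis in
omit [M.Finite] in
lemma vis_of {p : ℕ × ℕ} (hp : p ∈ VV (Seg w)) (hpZ : p ∉ VV Zq) : DA.VisR w δ₁ Om₂ p := by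
  obtain ⟨r, hr, hA⟩ := hp
  have hrZ : r ∉ Zq := fun h1 => hpZ ⟨r, h1, hA⟩
  obtain ⟨h1, h2⟩ := hvis r hr hrZ
  rcases hA with h | h <;> rw [← h] <;> assumption

include hR in
omit [M.Finite] in
/-- no location at `p` -/
lemma brn_of {p : ℕ × ℕ} (hp : DA.VisR w δ₁ Om₂ p) {C : Bool × ℕ × ℕ → α}
    {c : DA.ChW (crr L₁ (Seg w)) row w}
    (hc : {e | e ∈ c.1 ∧ p ∈ row e} =
      {x | ∃ r ∈ Seg w, (segNear r = p ∨ segFar r = p) ∧ x = C r})
    (hn : p ∉ DA.YW M (crr L₁ (Seg w)) row w D₀ Hs₀ t c) :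
    t ∈ M.closure (crr L₁ (Seg w) \
      {x | ∃ r ∈ Seg w, (segNear r = p ∨ segFar r = p) ∧ x = C r}) := by
  rw [← hc]
  by_contra h1
  exact hn ⟨h1, hR.reg hp⟩

include hG hrw hR hvis in
/-- **Far rungs.** -/
theorem far_rg (htD : t ∈ D) (hcl : t ∈ M.closure (crr L₁ (Seg w))) (hZL : Zq ⊆ LR)
    (hV : ∀ i, pr t i ∈ Seg w ∧ pr t i ∉ LR)
    (hs : ∀ i, SeeR (fun r => {x | x ∈ L₁ r}) (Sees M (crr L₁ (Seg w))) t (pr t i))
    (hd : ∀ v, (segNear (pr t false) = v ∨ segFar (pr t false) = v) →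
      ¬ (segNear (pr t true) = v ∨ segFar (pr t true) = v))
    (hpa : ∀ i, pa t i = {x | x ∈ L₁ (pr t i) ∧
      x ∈ DA.Arw M (crr L₁ (Seg w)) row w (segNear (pr t i)) (segFar (pr t i)) t}) :
    RgFacts M w L₁ Zq LR {t} pr pa := by
  have hv : ∀ i, DA.VisR w δ₁ Om₂ (segNear (pr t i)) ∧ DA.VisR w δ₁ Om₂ (segFar (pr t i)) :=
    fun i => hvis _ (hV i).1 fun h1 => (hV i).2 (hZL h1)
  have hd' : ∀ i v, (segNear (pr t i) = v ∨ segFar (pr t i) = v) →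
      ¬ (segNear (pr t (!i)) = v ∨ segFar (pr t (!i)) = v) := by
    intro i v h1 h2
    cases i
    · exact hd v h1 h2
    · exact hd v h2 h1
  have F := fun i => far_facts hR hrw htD hcl (hV i).1 (hV (!i)).1 (hv i).1 (hv i).2 (hv (!i)).1
    (hv (!i)).2 (hs i) (hs (!i)) (hd' i)
  have hmem : ∀ i, ∀ x ∈ L₁ (pr t i), (x ∈ pa t i ↔
      x ∈ DA.Arw M (crr L₁ (Seg w)) row w (segNear (pr t i)) (segFar (pr t i)) t) := by
    intro i x hx
    rw [hpa i]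
    exact ⟨fun h1 => h1.2, fun h1 => ⟨hx, h1⟩⟩
  have hE : ∀ i, ∀ x ∈ L₁ (pr t i), ∀ y ∈ L₁ (pr t i),
      (DA.Er M (crr L₁ (Seg w)) t x y ↔ (x ∈ pa t i ↔ y ∈ pa t i)) := by
    intro i x hx y hy
    rw [(F i).1 x hx y hy, hmem i x hx, hmem i y hy]
  refine ⟨?_, ?_, ?_, ?_, ?_, ?_, ?_⟩
  · rintro t' ht'
    obtain rfl : t = t' := (mem_singleton_iff.1 ht').symm
    intro i
    exact hV i
  · rintro t' ht'
    obtain rfl : t = t' := (mem_singleton_iff.1 ht').symm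
    intro i
    rw [hpa i]
    exact fun x hx => hx.1
  · rintro t' ht'
    obtain rfl : t = t' := (mem_singleton_iff.1 ht').symm
    intro i
    obtain ⟨x, hx, y, hy, hxy, h1⟩ := hs i
    have h2 := (sees_iff hxy).1 h1
    rw [hE i x hx y hy] at h2
    by_cases h3 : x ∈ pa t i
    · exact ⟨⟨x, hx, h3⟩, y, hy, fun h4 => h2 ⟨fun _ => h4, fun _ => h3⟩⟩
    · refine ⟨⟨y, hy, ?_⟩, x, hx, h3⟩
      by_contra h4
      exact h2 ⟨fun h5 => absurd h5 h3, fun h5 => absurd h5 h4⟩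
  · rintro t' ht'
    obtain rfl : t = t' := (mem_singleton_iff.1 ht').symm
    intro r hr hrZ x hx y hy hxy h1
    obtain ⟨va, vb⟩ := hvis r hr hrZ
    have h2 := (sees_iff hxy).1 h1
    rcases (F false).2.2.2.2 r hr va vb ⟨x, hx, y, hy, hxy, h1⟩ with h3 | h3
    · subst h3
      exact ⟨false, rfl, fun h4 => h2 ((hE false x hx y hy).2 h4)⟩
    · subst h3
      exact ⟨true, rfl, fun h4 => h2 ((hE true x hx y hy).2 h4)⟩
  · rintro t' ht'
    obtain rfl : t = t' := (mem_singleton_iff.1 ht').symm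
    intro r hr hrZ x hx y hy hxy h1
    have h2 : ∃ i, r = pr t i ∧ ¬ (x ∈ pa t i ↔ y ∈ pa t i) := by
      by_contra h2
      push Not at h2
      refine h1 ⟨fun h3 => absurd (h2 false h3.1) h3.2, fun h3 => absurd (h2 true h3.1) h3.2⟩
    obtain ⟨i, rfl, h3⟩ := h2
    rw [sees_iff hxy, hE i x hx y hy]
    exact h3
  · rintro t' ht'
    obtain rfl : t = t' := (mem_singleton_iff.1 ht').symm
    intro h1
    exact absurd (Or.inl rfl : segNear (pr t false) = segNear (pr t false) ∨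
      segFar (pr t false) = segNear (pr t false))
      (by rw [h1]; exact fun _ => hd (segNear (pr t true)) (by rw [h1]; exact Or.inl rfl)
            (Or.inl rfl))
  · rintro t' ht'
    obtain rfl : t = t' := (mem_singleton_iff.1 ht').symm
    intro p hp hpZ C h1 h2
    have hvp := vis_of hvis hp hpZ
    have hC : ∀ r ∈ Seg w, (segNear r = p ∨ segFar r = p) → C r ∈ L₁ r := by
      intro r hr hA
      rcases hA with hA | hA
      · exact (h1 r hr hA).1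
      · exact (h2 r hr hA).1
    obtain ⟨c, hc1, hc2⟩ := exists_wall hG hrw C p hC
    refine brn_of hR hvp hc2 fun h3 => ?_
    have key : ∀ i, segNear (pr t i) ≠ p ∧ segFar (pr t i) ≠ p := by
      intro i
      constructor
      · intro h4
        obtain ⟨h5, h6⟩ := h1 _ (hV i).1 h4
        have h7 := ((F i).2.1 c _ h5 (hc1 _ (hV i).1 (Or.inl h4))).1 ((hmem i _ h5).1 (h6 i rfl))
        rw [h4] at h7
        exact h7 h3
      · intro h4
        obtain ⟨h5, h6⟩ := h2 _ (hV i).1 h4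
        refine h6 i rfl ((hmem i _ h5).2 ?_)
        rw [(F i).2.2.1 c _ h5 (hc1 _ (hV i).1 (Or.inr h4)), h4]
        exact h3
    have h4 := (F false).2.2.2.1 c h3
    simp only [mem_insert_iff, mem_singleton_iff, Bool.not_false] at h4
    rcases h4 with h4 | h4 | h4 | h4
    · exact (key false).1 h4.symm
    · exact (key false).2 h4.symm
    · exact (key true).1 h4.symm
    · exact (key true).2 h4.symm

include hG hrw hR hvis in
/-- **Same-row elements.** -/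
theorem same_rg {r : Bool × ℕ × ℕ} (htD : t ∈ D) (hZL : Zq ⊆ LR) (hr : r ∈ Seg w) (hrL : r ∉ LR)
    (hpr : ∀ i, pr t i = r)
    (ht : t ∈ DA.TRow M (crr L₁ (Seg w)) row w D₀ Hs₀ (segNear r) (segFar r))
    (hP : PlSame (ES (Sees M (crr L₁ (Seg w)))) {x | x ∈ L₁ r}
      (DA.Lr M (crr L₁ (Seg w)) row w (segNear r) t)
      (DA.Lr M (crr L₁ (Seg w)) row w (segFar r) t) t (pa t false) (pa t true)) :
    RgFacts M w L₁ Zq LR {t} pr pa := by
  obtain ⟨vu, vv⟩ := hvis r hr fun h1 => hrL (hZL h1)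
  obtain ⟨hY, hK, hO⟩ := same_facts hR hrw htD hr vu vv ht
  have hsub1 : ∀ x ∈ pa t false, x ∈ L₁ r := fun x hx => hP.sub (hP.le hx)
  have hsym : ∀ x y, DA.Er M (crr L₁ (Seg w)) t x y → DA.Er M (crr L₁ (Seg w)) t y x := by
    rintro x y (h1 | h1)
    · exact Or.inl h1.symm
    · right
      rwa [pair_comm]
  refine ⟨?_, ?_, ?_, ?_, ?_, ?_, ?_⟩
  · rintro t' ht'
    obtain rfl : t = t' := (mem_singleton_iff.1 ht').symm
    intro i
    rw [hpr i]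
    exact ⟨hr, hrL⟩
  · rintro t' ht'
    obtain rfl : t = t' := (mem_singleton_iff.1 ht').symm
    intro i
    rw [hpr i]
    cases i
    · exact fun x hx => hsub1 x hx
    · exact hP.sub
  · rintro t' ht'
    obtain rfl : t = t' := (mem_singleton_iff.1 ht').symm
    intro i
    rw [hpr i]
    obtain ⟨a, ha⟩ := hP.ne₁
    obtain ⟨b, hb, hb'⟩ := hP.ne
    obtain ⟨d, hd, hd'⟩ := hP.ne₂
    cases i
    · exact ⟨⟨a, hsub1 a ha, ha⟩, b, hP.sub hb, hb'⟩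
    · exact ⟨⟨b, hP.sub hb, hb⟩, d, hd, hd'⟩
  · rintro t' ht'
    obtain rfl : t = t' := (mem_singleton_iff.1 ht').symm
    intro r' hr' hrZ x hx y hy hxy h1
    obtain ⟨va, vb⟩ := hvis r' hr' hrZ
    have h2 := (sees_iff hxy).1 h1
    have h3 := hO r' hr' va vb ⟨x, hx, y, hy, hxy, h1⟩
    subst h3
    by_contra h4
    push Not at h4
    have h5 := h4 false (hpr false).symm
    have h6 := h4 true (hpr true).symm
    apply h2
    obtain ⟨⟨k1, _⟩, k2, _⟩ := hK x hx y hy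
    by_cases h7 : x ∈ pa t false
    · exact k1 (hP.lft x h7) (hP.lft y (h5.1 h7))
    · have h8 : y ∉ pa t false := fun h8 => h7 (h5.2 h8)
      by_cases h9 : x ∈ pa t true
      · exact es_iff.1 (hP.cls x h9 h7 y (h6.1 h9) h8)
      · exact k2 (hP.rgt x hx h9) (hP.rgt y hy fun h10 => h9 (h6.2 h10))
  · rintro t' ht'
    obtain rfl : t = t' := (mem_singleton_iff.1 ht').symm
    intro r' hr' hrZ x hx y hy hxy h1
    rw [hpr false, hpr true] at h1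
    by_cases h3 : r' = r
    swap
    · exact absurd ⟨fun h4 => absurd h4.1 h3, fun h4 => absurd h4.1 h3⟩ h1
    subst h3
    rw [sees_iff hxy]
    intro hEr
    have key : ∀ x ∈ L₁ r', ∀ y ∈ L₁ r', DA.Er M (crr L₁ (Seg w)) t x y →
        (x ∈ pa t false → y ∉ pa t false → y ∈ pa t true → False) ∧
        (x ∈ pa t true → x ∉ pa t false → y ∉ pa t true → False) := by
      intro x hx y hy he
      obtain ⟨⟨_, k1⟩, _, _⟩ := hK x hx y hy
      obtain ⟨_, _, k2⟩ := hK y hy x hx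
      constructor
      · intro a1 a2 a3
        exact (hP.mid y a3 a2).1 (k1 he (hP.lft x a1))
      · intro a1 a2 a3
        exact (hP.mid x a1 a2).2 (k2 (hsym _ _ he) (hP.rgt y hy a3))
    obtain ⟨g1, g2⟩ := key x hx y hy hEr
    obtain ⟨g3, g4⟩ := key y hy x hx (hsym _ _ hEr)
    have hle : ∀ z, z ∈ pa t false → z ∈ pa t true := fun z hz => hP.le hz
    have l1 := hle x
    have l2 := hle y
    by_cases a1 : x ∈ pa t false <;> by_cases a2 : y ∈ pa t false <;>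
      by_cases a3 : x ∈ pa t true <;> by_cases a4 : y ∈ pa t true <;>
      simp_all
  · rintro t' ht'
    obtain rfl : t = t' := (mem_singleton_iff.1 ht').symm
    intro _
    obtain ⟨b, hb, hb'⟩ := hP.ne
    rw [hpr false]
    exact ⟨b, hP.sub hb, fun h1 => hb' (h1.2 hb)⟩
  · rintro t' ht'
    obtain rfl : t = t' := (mem_singleton_iff.1 ht').symm
    intro p hp hpZ C h1 h2
    have hvp := vis_of hvis hp hpZ
    have hC : ∀ r ∈ Seg w, (segNear r = p ∨ segFar r = p) → C r ∈ L₁ r := by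
      intro r hr hA
      rcases hA with hA | hA
      · exact (h1 r hr hA).1
      · exact (h2 r hr hA).1
    obtain ⟨c, hc1, hc2⟩ := exists_wall hG hrw C p hC
    by_cases h3 : segNear r = p
    · obtain ⟨h5, h6⟩ := h1 r hr h3
      have h7 := hP.lft _ (h6 false (hpr false).symm) c.1 c.2.1 c.2.2 (hc1 r hr (Or.inl h3))
      rw [h3, hc2] at h7
      exact h7
    by_cases h4 : segFar r = p
    · obtain ⟨h5, h6⟩ := h2 r hr h4
      have h7 := hP.rgt _ h5 (h6 true (hpr true).symm) c.1 c.2.1 c.2.2 (hc1 r hr (Or.inr h4))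
      rw [h4, hc2] at h7
      exact h7
    refine brn_of hR hvp hc2 fun h5 => ?_
    rcases hY c h5 with h6 | h6
    · exact h3 h6.symm
    · exact h4 h6.symm

include hG hrw hR hvis in
/-- **Near rungs.** -/
theorem near_rg {u : ℕ × ℕ} {lgu : Fin 3 → Bool × ℕ × ℕ} {oeu : Fin 3 → ℕ × ℕ} {i j k : Fin 3}
    (htD : t ∈ D) (hcl : t ∈ M.closure (crr L₁ (Seg w))) (hZL : Zq ⊆ LR)
    (hlS : ∀ l, lgu l ∈ Seg w) (hlA : ∀ l, segNear (lgu l) = u ∨ segFar (lgu l) = u)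
    (hall : ∀ r' ∈ Seg w, (segNear r' = u ∨ segFar r' = u) → ∃ l, lgu l = r')
    (hinj : ∀ a b, lgu a = lgu b → a = b)
    (hoA : ∀ l, segNear (lgu l) = oeu l ∨ segFar (lgu l) = oeu l) (hon : ∀ l, oeu l ≠ u)
    (hij : i ≠ j) (hik : i ≠ k) (hjk : j ≠ k) (hVi : lgu i ∉ LR) (hVj : lgu j ∉ LR)
    (hpi : pr t false = lgu i) (hpj : pr t true = lgu j)
    (hpa : ∀ q, pa t q = {x | x ∈ L₁ (pr t q) ∧
      x ∈ DA.Arw M (crr L₁ (Seg w)) row w (segNear (pr t q)) (segFar (pr t q)) t})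
    (hsi : SeeR (fun r => {x | x ∈ L₁ r}) (Sees M (crr L₁ (Seg w))) t (lgu i))
    (hsj : SeeR (fun r => {x | x ∈ L₁ r}) (Sees M (crr L₁ (Seg w))) t (lgu j))
    (hAw : ∀ l, l ≠ k → ∀ x ∈ L₁ (lgu l),
      (x ∈ DA.Arw M (crr L₁ (Seg w)) row w (segNear (lgu l)) (segFar (lgu l)) t ↔
        (segNear (lgu l) = u ∧ x ∉ DA.Lr M (crr L₁ (Seg w)) row w (oeu l) t) ∨
        (segNear (lgu l) ≠ u ∧ x ∈ DA.Lr M (crr L₁ (Seg w)) row w (oeu l) t)))
    (hk : ∀ x ∈ L₁ (lgu k), x ∈ DA.Lr M (crr L₁ (Seg w)) row w (oeu k) t)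
    (hE : ∀ l, ∀ x ∈ L₁ (lgu l), ∀ y ∈ L₁ (lgu l), (DA.Er M (crr L₁ (Seg w)) t x y ↔
      (x ∈ DA.Lr M (crr L₁ (Seg w)) row w (oeu l) t ↔
        y ∈ DA.Lr M (crr L₁ (Seg w)) row w (oeu l) t)))
    (hB : ∀ x ∈ L₁ (lgu 0), ∀ y ∈ L₁ (lgu 1), ∀ z ∈ L₁ (lgu 2),
      (k ≠ 0 → x ∉ DA.Lr M (crr L₁ (Seg w)) row w (oeu 0) t) →
      (k ≠ 1 → y ∉ DA.Lr M (crr L₁ (Seg w)) row w (oeu 1) t) →
      (k ≠ 2 → z ∉ DA.Lr M (crr L₁ (Seg w)) row w (oeu 2) t) →
      t ∈ M.closure (crr L₁ (Seg w) \ {x, y, z})) :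
    RgFacts M w L₁ Zq LR {t} pr pa := by
  -- the legs of the places
  obtain ⟨lq, hlq⟩ : ∃ lq : Bool → Fin 3, lq = fun q => if q then j else i := ⟨_, rfl⟩
  have lf : lq false = i := by rw [hlq]; rfl
  have lt : lq true = j := by rw [hlq]; rfl
  have hpr : ∀ q, pr t q = lgu (lq q) := by
    intro q
    cases q
    · rw [lf, hpi]
    · rw [lt, hpj]
  have hqk : ∀ q, lq q ≠ k := by
    intro q
    cases q
    · rw [lf]; exact hik
    · rw [lt]; exact hjk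
  have hkq : ∀ l, l ≠ k → ∃ q, lq q = l := by
    intro l hl
    have h1 : l = i ∨ l = j := fin3_rest i j k l hij hik hjk hl
    rcases h1 with rfl | rfl
    · exact ⟨false, lf⟩
    · exact ⟨true, lt⟩
  have hV : ∀ q, pr t q ∈ Seg w ∧ pr t q ∉ LR := by
    intro q
    cases q
    · rw [hpi]; exact ⟨hlS i, hVi⟩
    · rw [hpj]; exact ⟨hlS j, hVj⟩
  have hs : ∀ q, SeeR (fun r => {x | x ∈ L₁ r}) (Sees M (crr L₁ (Seg w))) t (pr t q) := by
    intro q
    cases q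
    · rw [hpi]; exact hsi
    · rw [hpj]; exact hsj
  have hv : ∀ q, DA.VisR w δ₁ Om₂ (segNear (pr t q)) ∧ DA.VisR w δ₁ Om₂ (segFar (pr t q)) :=
    fun q => hvis _ (hV q).1 fun h1 => (hV q).2 (hZL h1)
  have hne : pr t false ≠ pr t true := by
    rw [hpi, hpj]
    exact fun h1 => hij (hinj _ _ h1)
  obtain ⟨hY, hO⟩ := near_facts hR hrw htD hcl (hV false).1 (hV true).1 hne
    (by rw [hpi]; exact hlA i) (by rw [hpj]; exact hlA j) (hv false).1 (hv false).2 (hs false)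
    (hs true)
  -- classes
  have hmem : ∀ q, ∀ x ∈ L₁ (pr t q), (x ∈ pa t q ↔
      (segNear (pr t q) = u ∧ x ∉ DA.Lr M (crr L₁ (Seg w)) row w (oeu (lq q)) t) ∨
        (segNear (pr t q) ≠ u ∧ x ∈ DA.Lr M (crr L₁ (Seg w)) row w (oeu (lq q)) t)) := by
    intro q x hx
    rw [hpa q, hpr q] at *
    rw [← hAw (lq q) (hqk q) x hx]
    exact ⟨fun h1 => h1.2, fun h1 => ⟨hx, h1⟩⟩
  have hEq : ∀ q, ∀ x ∈ L₁ (pr t q), ∀ y ∈ L₁ (pr t q),
      (DA.Er M (crr L₁ (Seg w)) t x y ↔ (x ∈ pa t q ↔ y ∈ pa t q)) := by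
    intro q x hx y hy
    rw [hmem q x hx, hmem q y hy]
    have hx' := hx
    have hy' := hy
    rw [hpr q] at hx' hy'
    rw [hE (lq q) x hx' y hy']
    by_cases h1 : segNear (pr t q) = u
    · by_cases h2 : x ∈ DA.Lr M (crr L₁ (Seg w)) row w (oeu (lq q)) t <;>
        by_cases h3 : y ∈ DA.Lr M (crr L₁ (Seg w)) row w (oeu (lq q)) t <;> simp [h1, h2, h3]
    · by_cases h2 : x ∈ DA.Lr M (crr L₁ (Seg w)) row w (oeu (lq q)) t <;>
        by_cases h3 : y ∈ DA.Lr M (crr L₁ (Seg w)) row w (oeu (lq q)) t <;> simp [h1, h2, h3]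
  refine ⟨?_, ?_, ?_, ?_, ?_, ?_, ?_⟩
  · rintro t' ht'
    obtain rfl : t = t' := (mem_singleton_iff.1 ht').symm
    exact hV
  · rintro t' ht'
    obtain rfl : t = t' := (mem_singleton_iff.1 ht').symm
    intro q
    rw [hpa q]
    exact fun x hx => hx.1
  · rintro t' ht'
    obtain rfl : t = t' := (mem_singleton_iff.1 ht').symm
    intro q
    obtain ⟨x, hx, y, hy, hxy, h1⟩ := hs q
    have h2 := (sees_iff hxy).1 h1
    rw [hEq q x hx y hy] at h2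
    by_cases h3 : x ∈ pa t q
    · exact ⟨⟨x, hx, h3⟩, y, hy, fun h4 => h2 ⟨fun _ => h4, fun _ => h3⟩⟩
    · refine ⟨⟨y, hy, ?_⟩, x, hx, h3⟩
      by_contra h4
      exact h2 ⟨fun h5 => absurd h5 h3, fun h5 => absurd h5 h4⟩
  · rintro t' ht'
    obtain rfl : t = t' := (mem_singleton_iff.1 ht').symm
    intro r hr hrZ x hx y hy hxy h1
    obtain ⟨va, vb⟩ := hvis r hr hrZ
    have h2 := (sees_iff hxy).1 h1
    have h3 := hO r hr va vb ⟨x, hx, y, hy, hxy, h1⟩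
    obtain ⟨l, rfl⟩ := hall r hr h3
    have hlk : l ≠ k := by
      rintro rfl
      exact h2 ((hE l x hx y hy).2 ⟨fun _ => hk y hy, fun _ => hk x hx⟩)
    obtain ⟨q, rfl⟩ := hkq l hlk
    refine ⟨q, (hpr q).symm, fun h4 => h2 ?_⟩
    rw [← hpr q] at hx hy
    exact (hEq q x hx y hy).2 h4
  · rintro t' ht'
    obtain rfl : t = t' := (mem_singleton_iff.1 ht').symm
    intro r hr hrZ x hx y hy hxy h1
    have h2 : ∃ i, r = pr t i ∧ ¬ (x ∈ pa t i ↔ y ∈ pa t i) := by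
      by_contra h2
      push Not at h2
      refine h1 ⟨fun h3 => absurd (h2 false h3.1) h3.2, fun h3 => absurd (h2 true h3.1) h3.2⟩
    obtain ⟨q, rfl, h3⟩ := h2
    rw [sees_iff hxy, hEq q x hx y hy]
    exact h3
  · rintro t' ht'
    obtain rfl : t = t' := (mem_singleton_iff.1 ht').symm
    exact fun h1 => absurd h1 hne
  · rintro t' ht'
    obtain rfl : t = t' := (mem_singleton_iff.1 ht').symm
    intro p hp hpZ C h1 h2
    have hvp := vis_of hvis hp hpZ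
    have hC : ∀ r ∈ Seg w, (segNear r = p ∨ segFar r = p) → C r ∈ L₁ r := by
      intro r hr hA
      rcases hA with hA | hA
      · exact (h1 r hr hA).1
      · exact (h2 r hr hA).1
    by_cases hpu : p = u
    · -- the centre
      subst hpu
      have hside : ∀ l, k ≠ l → C (lgu l) ∉ DA.Lr M (crr L₁ (Seg w)) row w (oeu l) t := by
        intro l hl
        obtain ⟨q, rfl⟩ := hkq l (Ne.symm hl)
        rw [← hpr q]
        have hrS := (hV q).1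
        have hA : segNear (pr t q) = p ∨ segFar (pr t q) = p := by
          rw [hpr q]
          exact hlA _
        by_cases h3 : segNear (pr t q) = p
        · obtain ⟨h5, h6⟩ := h1 _ hrS h3
          have h7 := (hmem q _ h5).1 (h6 q rfl)
          rcases h7 with h7 | h7
          · exact h7.2
          · exact absurd h3 h7.1
        · obtain ⟨h5, h6⟩ := h2 _ hrS (hA.resolve_left h3)
          intro h7
          exact h6 q rfl ((hmem q _ h5).2 (Or.inr ⟨h3, h7⟩))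
      have h3 := hB _ (hC _ (hlS 0) (hlA 0)) _ (hC _ (hlS 1) (hlA 1)) _ (hC _ (hlS 2) (hlA 2))
        (hside 0) (hside 1) (hside 2)
      refine M.closure_subset_closure ?_ h3
      refine sdiff_subset_sdiff_right ?_
      rintro x ⟨r, hr, hA, rfl⟩
      obtain ⟨l, rfl⟩ := hall r hr hA
      have h4 : l = 0 ∨ l = 1 ∨ l = 2 := fin3_all l
      rcases h4 with rfl | rfl | rfl
      · exact Or.inl rfl
      · exact Or.inr (Or.inl rfl)
      · exact Or.inr (Or.inr rfl)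
    · obtain ⟨c, hc1, hc2⟩ := exists_wall hG hrw C p hC
      by_cases h3 : p ∈ DA.YW M (crr L₁ (Seg w)) row w D₀ Hs₀ t c
      swap
      · exact brn_of hR hvp hc2 h3
      have h4 : DA.wadj u p := (hY c h3).resolve_left hpu
      have hur : u ∈ rect 0 0 (w + 1) (w + 1) := by
        obtain ⟨_, b1, b2⟩ := DA.wadj_srow (hlS i)
        rcases hlA i with h | h <;> rw [← h] <;> assumption
      have hpr' : p ∈ rect 0 0 (w + 1) (w + 1) := by
        obtain ⟨r, hr, hA⟩ := hp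
        obtain ⟨_, b1, b2⟩ := DA.wadj_srow hr
        rcases hA with h | h <;> rw [← h] <;> assumption
      obtain ⟨s, hsS, hse⟩ := DA.seg_of_wadj h4 hur hpr'
      have hends : (segNear s = u ∧ segFar s = p) ∨ (segNear s = p ∧ segFar s = u) := by
        unfold DA.srow at hse
        rwa [Sym2.eq_iff] at hse
      obtain ⟨l, hl⟩ := hall s hsS (by
        rcases hends with h5 | h5
        · exact Or.inl h5.1
        · exact Or.inr h5.2)
      have hol : oeu l = p := by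
        have h5 := hoA l
        have h6 := hon l
        rw [hl] at h5
        rcases hends with ⟨h7, h8⟩ | ⟨h7, h8⟩ <;> rcases h5 with h5 | h5
        · exact absurd (h5.symm.trans h7) h6
        · exact h5.symm.trans h8
        · exact h5.symm.trans h7
        · exact absurd (h5.symm.trans h8) h6
      have hAp : segNear s = p ∨ segFar s = p := by
        rcases hends with h5 | h5
        · exact Or.inr h5.2
        · exact Or.inl h5.1
      have hCs : C s ∈ DA.Lr M (crr L₁ (Seg w)) row w p t := by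
        by_cases hlk : l = k
        · subst hlk
          rw [← hol]
          refine hk _ ?_
          rw [hl]
          exact hC s hsS hAp
        · obtain ⟨q, rfl⟩ := hkq l hlk
          have hq : pr t q = s := (hpr q).trans hl
          rw [← hol, ← hq]
          rcases hends with ⟨h7, h8⟩ | ⟨h7, h8⟩
          · obtain ⟨h5, h6⟩ := h2 s hsS h8
            rw [← hq] at h5 h6 h7
            by_contra h9
            exact h6 q rfl ((hmem q _ h5).2 (Or.inl ⟨h7, h9⟩))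
          · obtain ⟨h5, h6⟩ := h1 s hsS h7
            have h10 : segNear s ≠ u := by
              rw [h7]
              exact hpu
            rw [← hq] at h5 h6 h10
            rcases (hmem q _ h5).1 (h6 q rfl) with h9 | h9
            · exact absurd h9.1 h10
            · exact h9.2
      have h7 := hCs c.1 c.2.1 c.2.2 (hc1 s hsS hAp)
      rw [hc2] at h7
      exact h7

end main

end RgPl

open RgPl in
/-- **R7: `TPl` gives `RgFacts`.**  `Lv v t` = `Lr .. v t`, `Aw r t` = `Arw .. (segNear r) (segFar r) t`,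
`B` = triples. -/
theorem rgFacts_of_TPl {α : Type u} {M : Matroid α} [M.Finite] {w u₁ : ℕ}
    {L₁ : Bool × ℕ × ℕ → List α} {f₁ : α → Sym2 ((ℕ × ℕ) ⊕ α)} {e₁ : Bool × ℕ × ℕ → α}
    {row : α → Sym2 (ℕ × ℕ)} {D : Set α} {β D₀ δ₀ D₁ δ₁ : ℕ}
    {Hm Hs₀ Om₁ Hs₁ Om₂ : Finset (ℕ × ℕ)} {Zq LR : Set (Bool × ℕ × ℕ)}
    (hG : GSide M (Seg w) L₁ f₁ e₁ u₁)
    (hrw : ∀ r ∈ Seg w, ∀ x ∈ L₁ r, row x = DA.srow r)
    (hR : DA.Rnd M (crr L₁ (Seg w)) row w D β D₀ δ₀ D₁ δ₁ Hm Hs₀ Om₁ Hs₁ Om₂)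
    (hcl : D ⊆ M.closure (crr L₁ (Seg w))) (hZL : Zq ⊆ LR)
    (hvis : ∀ r ∈ Seg w, r ∉ Zq →
      DA.OutW (δ₁ + 60) w Om₂ (segNear r) ∧ DA.OutW (δ₁ + 60) w Om₂ (segFar r))
    {Dg Fr On Dt : Set α} {Nr : ℕ × ℕ → Set α} {Tr : Bool × ℕ × ℕ → Set α}
    {Tu : ℕ × ℕ → Set α} {Au : ℕ × ℕ → α → Fin 3 → Set α} {lg : ℕ × ℕ → Fin 3 → Bool × ℕ × ℕ}
    {oe : ℕ × ℕ → Fin 3 → ℕ × ℕ} {fr : α → Bool → Bool × ℕ × ℕ} {r₀ : α → Bool × ℕ × ℕ}
    {ct : α → ℕ × ℕ}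
    (hF : LabFacts3 (fun r => {x | x ∈ L₁ r}) (Seg w \ LR) segNear segFar
      (Sees M (crr L₁ (Seg w))) Dg Fr On Dt Nr Tr Tu
      (fun v t => DA.Lr M (crr L₁ (Seg w)) row w v t)
      (fun r t => DA.Arw M (crr L₁ (Seg w)) row w (segNear r) (segFar r) t) Au
      (fun t x y z => t ∈ M.closure (crr L₁ (Seg w) \ {x, y, z})) lg oe fr r₀ ct)
    (hTr : ∀ r ∈ Seg w, r ∉ LR → ∀ t ∈ Tr r,
      t ∈ DA.TRow M (crr L₁ (Seg w)) row w D₀ Hs₀ (segNear r) (segFar r))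
    (hlg : ∀ r ∈ Seg w, r ∉ LR → ∀ u, (segNear r = u ∨ segFar r = u) →
      (∀ i, lg u i ∈ Seg w) ∧ ∀ r' ∈ Seg w, (segNear r' = u ∨ segFar r' = u) → ∃ i, lg u i = r')
    {T : Set α} {pr : α → Bool → Bool × ℕ × ℕ} {pa : α → Bool → Set α} (hTD : T ⊆ D)
    (hT : ∀ t ∈ T, TPl (fun r => {x | x ∈ L₁ r}) (Seg w \ LR) segNear segFar
      (Sees M (crr L₁ (Seg w))) Fr Nr Tr (fun v t => DA.Lr M (crr L₁ (Seg w)) row w v t)
      (fun r t => DA.Arw M (crr L₁ (Seg w)) row w (segNear r) (segFar r) t)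
      (fun t x y z => t ∈ M.closure (crr L₁ (Seg w) \ {x, y, z})) lg oe fr pr pa t) :
    RgFacts M w L₁ Zq LR T pr pa := by
  refine of_single fun t ht => ?_
  have htD := hTD ht
  obtain ⟨hV, h | h | h⟩ := hT t ht
  · -- far
    obtain ⟨hFr, hp⟩ := h
    refine far_rg hG hrw hR hvis htD (hcl htD) hZL hV ?_ ?_ ?_
    · intro i
      rw [(hp i).1]
      exact (hF.far_V t hFr i).2
    · intro v
      rw [(hp false).1, (hp true).1]
      exact hF.far_dis t hFr v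
    · intro i
      rw [(hp i).2, (hp i).1]
      rfl
  · -- near
    obtain ⟨u, i, j, k, hN, hij, hik, hjk, hpi, hpj, si, sj, hpa, hi, hj, hk, hE, hB⟩ := h
    obtain ⟨a, ha, ua, sa⟩ := hF.near_one u t hN
    have hLg := hF.legs a ha u ua
    obtain ⟨hlS, hall⟩ := hlg a ha.1 ha.2 u ua
    have hE' : ∀ l, ∀ x ∈ L₁ (lg u l), ∀ y ∈ L₁ (lg u l), (DA.Er M (crr L₁ (Seg w)) t x y ↔
        (x ∈ DA.Lr M (crr L₁ (Seg w)) row w (oe u l) t ↔
          y ∈ DA.Lr M (crr L₁ (Seg w)) row w (oe u l) t)) := by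
      intro l x hx y hy
      rw [← es_iff]
      exact hE l x hx y hy
    have hsee : ∀ l, l ≠ k →
        SeeR (fun r => {x | x ∈ L₁ r}) (Sees M (crr L₁ (Seg w))) t (lg u l) := by
      intro l hl
      rcases fin3_rest i j k l hij hik hjk hl with rfl | rfl
      exacts [si, sj]
    have hVi : lg u i ∈ Seg w \ LR := by
      rw [← hpi]
      exact hV false
    have hVj : lg u j ∈ Seg w \ LR := by
      rw [← hpj]
      exact hV true
    refine near_rg (u := u) (lgu := lg u) (oeu := oe u) (i := i) (j := j) (k := k) hG hrw hR hvis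
      htD (hcl htD) hZL hlS hLg.at' hall hLg.inj hLg.oe_at hLg.oe_ne hij hik hjk hVi.2 hVj.2 hpi hpj
      hpa (hsee i hik) (hsee j hjk) ?_ hk hE' hB
    intro l hl x hx
    have hlV : lg u l ∈ Seg w \ LR := by
      rcases fin3_rest i j k l hij hik hjk hl with rfl | rfl
      exacts [hVi, hVj]
    exact hF.awN (lg u l) hlV u (hLg.at' l) l rfl t hN (hsee l hl) x hx
  · -- same row
    obtain ⟨r, hr, htr, hpr, hP⟩ := h
    exact same_rg hG hrw hR hvis htD hZL hr.1 hr.2 hpr (hTr r hr.1 hr.2 t htr) hP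

end TSH
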