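import Mathlib

/-!
# Classes of an element on a circuit (pure matroid part of row B5 of T-star)

`K` is a circuit, `t` an element outside of `K`.  `x`, `y` in `K` are in the same class of `t` if
`t ∈ cl (K - {x, y})`.  Every class `A /= K` gives the circuit `(K - A) + t`.  If `p` and `q` are
not in a common circuit of `M / t` inside of `K` then `t` has exactly two classes, one of them
contains `p` and the other one `q`.  Two such elements with crossing classes can be contracted
together.
-/

set_option autoImplicit false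

open Set
open scoped Matroid

namespace TST

variable {α : Type*} {M : Matroid α} {K : Set α} {t t' x y z p q : α}

/-- `x` and `y` are in the same class of `t` -/
def Eqv (M : Matroid α) (K : Set α) (t x y : α) : Prop := x = y ∨ t ∈ M.closure (K \ {x, y})

/-- the class of `x` -/
def Cls (M : Matroid α) (K : Set α) (t x : α) : Set α := {y | y ∈ K ∧ Eqv M K t x y}

lemma Eqv.symm (h : Eqv M K t x y) : Eqv M K t y x := by
  rcases h with h | h
  · exact Or.inl h.symm
  · exact Or.inr (by rwa [Set.pair_comm])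

lemma Eqv.trans (hK : M.IsCircuit K) (hy : y ∈ K) (h : Eqv M K t x y) (h' : Eqv M K t y z) :
    Eqv M K t x z := by
  rcases h with rfl | h
  · exact h'
  rcases h' with rfl | h'
  · exact Or.inr h
  right
  have hI : M.Indep (K \ {x, y} ∪ K \ {y, z}) := by
    refine (hK.sdiff_singleton_indep hy).subset ?_
    rintro e (he | he)
    · exact ⟨he.1, fun h1 => he.2 (Or.inr h1)⟩
    · exact ⟨he.1, fun h1 => he.2 (Or.inl h1)⟩
  have h2 : t ∈ M.closure ((K \ {x, y}) ∩ (K \ {y, z})) := by
    rw [hI.closure_inter_eq_inter_closure]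
    exact ⟨h, h'⟩
  refine M.closure_subset_closure ?_ h2
  rintro e ⟨he, he'⟩
  refine ⟨he.1, ?_⟩
  rintro (h3 | h3)
  · exact he.2 (Or.inl h3)
  · exact he'.2 (Or.inr h3)

lemma mem_cls : y ∈ Cls M K t x ↔ y ∈ K ∧ Eqv M K t x y := Iff.rfl

lemma cls_self (hx : x ∈ K) : x ∈ Cls M K t x := ⟨hx, Or.inl rfl⟩

lemma cls_sub : Cls M K t x ⊆ K := fun _ h => h.1

lemma cls_comm (hx : x ∈ K) (h : y ∈ Cls M K t x) : x ∈ Cls M K t y := ⟨hx, h.2.symm⟩

lemma cls_trans (hK : M.IsCircuit K) (h : y ∈ Cls M K t x) (h' : z ∈ Cls M K t y) :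
    z ∈ Cls M K t x := ⟨h'.1, h.2.trans hK h.1 h'.2⟩

/-- **The circuit of a class.** -/
theorem cls_circuit (hK : M.IsCircuit K) (ht : t ∈ M.closure K) (htK : t ∉ K) (hx : x ∈ K) :
    M.IsCircuit (insert t (K \ Cls M K t x)) := by
  have hI := hK.sdiff_singleton_indep hx
  have htI : t ∈ M.closure (K \ {x}) := by
    rwa [hK.closure_sdiff_singleton_eq x]
  have htI' : t ∉ K \ {x} := fun h => htK h.1
  have h1 := hI.fundCircuit_isCircuit htI htI'
  have h2 : M.fundCircuit t (K \ {x}) = insert t (K \ Cls M K t x) := by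
    ext e
    rw [hI.mem_fundCircuit_iff htI htI']
    by_cases het : e = t
    · subst het
      constructor
      · intro _
        exact Or.inl rfl
      · intro _
        refine hI.subset ?_
        rintro f ⟨h3, h4⟩
        exact h3.resolve_left h4
    constructor
    · intro h3
      right
      have heK : e ∈ K \ {x} := by
        by_contra hne
        have h4 : insert t (K \ {x}) \ {e} = insert t (K \ {x}) := by
          refine Set.sdiff_singleton_eq_self ?_
          rintro (h5 | h5)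
          · exact het h5
          · exact hne h5
        rw [h4] at h3
        exact (h3.notMem_closure_sdiff_of_mem (mem_insert t _)) (by
          rwa [Set.insert_sdiff_self_of_notMem htI'])
      refine ⟨heK.1, ?_⟩
      rintro ⟨_, h5 | h5⟩
      · exact heK.2 h5.symm
      · have h6 : K \ {x, e} ⊆ (insert t (K \ {x}) \ {e}) \ {t} := by
          rintro f ⟨hf1, hf2⟩
          refine ⟨⟨Or.inr ⟨hf1, fun h => hf2 (Or.inl h)⟩, fun h => hf2 (Or.inr h)⟩, ?_⟩
          intro h
          exact htK (h ▸ hf1)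
        exact (h3.notMem_closure_sdiff_of_mem ⟨mem_insert t _, Ne.symm het⟩)
          (M.closure_subset_closure h6 h5)
    · rintro (h3 | ⟨heK, h3⟩)
      · exact absurd h3 het
      · have h4 : insert t (K \ {x}) \ {e} = insert t (K \ {x, e}) := by
          ext f
          constructor
          · rintro ⟨h5 | h5, h6⟩
            · exact Or.inl h5
            · refine Or.inr ⟨h5.1, ?_⟩
              rintro (h7 | h7)
              · exact h5.2 h7
              · exact h6 h7
          · rintro (h5 | ⟨h5, h6⟩)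
            · exact ⟨Or.inl h5, fun h7 => het (h7.symm.trans h5)⟩
            · exact ⟨Or.inr ⟨h5, fun h7 => h6 (Or.inl h7)⟩, fun h7 => h6 (Or.inr h7)⟩
        rw [h4]
        have h5 : M.Indep (K \ {x, e}) := by
          refine hI.subset ?_
          rintro f ⟨hf1, hf2⟩
          exact ⟨hf1, fun h => hf2 (Or.inl h)⟩
        have h6 : t ∉ M.closure (K \ {x, e}) := fun h => h3 ⟨heK, Or.inr h⟩
        exact (h5.notMem_closure_iff_of_notMem (fun h => htK h.1)
          (M.closure_subset_ground _ ht)).1 h6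
  rwa [h2] at h1

/-- The circuit of a class in the contraction. -/
theorem cls_con (hK : M.IsCircuit K) (ht : t ∈ M.closure K) (htK : t ∉ K) (hx : x ∈ K)
    (hne : ∃ y ∈ K, y ∉ Cls M K t x) : (M ／ {t}).IsCircuit (K \ Cls M K t x) := by
  have h1 := cls_circuit hK ht htK hx
  obtain ⟨y, hy, hyx⟩ := hne
  have h2 : ({t} : Set α) ⊂ insert t (K \ Cls M K t x) := by
    refine ⟨singleton_subset_iff.2 (mem_insert _ _), fun h => ?_⟩
    have h3 : y = t := h (Or.inr ⟨hy, hyx⟩)
    exact htK (h3 ▸ hy)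
  have h3 := h1.contract_isCircuit h2
  have h4 : insert t (K \ Cls M K t x) \ {t} = K \ Cls M K t x := by
    rw [Set.insert_sdiff_self_of_notMem (fun h => htK h.1)]
  rwa [h4] at h3

/-- An element outside of the closure, or a loop, does not destroy the circuit. -/
theorem con_circuit (hK : M.IsCircuit K) (htK : t ∉ K) (h : t ∉ M.closure K ∨ M.IsLoop t) :
    (M ／ {t}).IsCircuit K := by
  have h1 : (M ／ {t}).Dep K := hK.contract_dep (by
    rw [Set.disjoint_singleton_left]
    exact htK)
  obtain ⟨C, hCK, hC⟩ := h1.exists_isCircuit_subset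
  obtain ⟨C', hC', h2, h3⟩ := hC.exists_subset_isCircuit_of_contract
  have h4 : t ∉ C' := by
    intro h5
    rcases h with h | h
    · refine h ?_
      have h6 := hC'.mem_closure_sdiff_singleton_of_mem h5
      refine M.closure_subset_closure ?_ h6
      rintro e ⟨he, het⟩
      exact hCK ((h3 he).resolve_right het)
    · have h6 : C' = {t} := by
        refine (h.isCircuit.eq_of_subset_isCircuit hC' (singleton_subset_iff.2 h5)).symm
      obtain ⟨e, he⟩ := hC.nonempty
      have h7 : e ∈ ({t} : Set α) := h6 ▸ h2 he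
      exact htK (h7 ▸ hCK he)
  have h5 : C' ⊆ C := fun e he => (h3 he).resolve_right fun h6 => h4 (h6 ▸ he)
  have h6 : C' = K := hC'.eq_of_subset_isCircuit hK (h5.trans hCK)
  have h7 : C = K := Subset.antisymm hCK (h6 ▸ h5)
  rwa [h7] at hC

/-- **Two classes.**  If `p` and `q` are not in a common circuit of `M / t` inside of `K` then `t`
is in the closure of `K` and has exactly two classes, separated by `p` and `q`. -/
theorem two_cls (hK : M.IsCircuit K) (hp : p ∈ K) (hq : q ∈ K) (htK : t ∉ K)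
    (hno : ∀ C ⊆ K, p ∈ C → q ∈ C → ¬ (M ／ {t}).IsCircuit C) :
    t ∈ M.closure K ∧ (∀ x ∈ K, x ∈ Cls M K t p ↔ x ∉ Cls M K t q) ∧
      M.IsCircuit (insert t (Cls M K t p)) ∧ M.IsCircuit (insert t (Cls M K t q)) := by
  have h1 : t ∈ M.closure K := by
    by_contra h
    exact hno K Subset.rfl hp hq (con_circuit hK htK (Or.inl h))
  have h2 : ∀ x ∈ K, p ∉ Cls M K t x → q ∉ Cls M K t x → False := by
    intro x hx hpx hqx
    exact hno _ sdiff_subset ⟨hp, hpx⟩ ⟨hq, hqx⟩ (cls_con hK h1 htK hx ⟨p, hp, hpx⟩)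
  have h3 : q ∉ Cls M K t p := by
    intro hqp
    by_cases hall : ∀ x ∈ K, x ∈ Cls M K t p
    · have h4 : K \ Cls M K t p = ∅ := by
        rw [sdiff_eq_empty]
        exact hall
      have h5 := cls_circuit hK h1 htK hp
      rw [h4, insert_empty_eq] at h5
      exact hno K Subset.rfl hp hq (con_circuit hK htK (Or.inr
        (Matroid.singleton_isCircuit.1 h5)))
    · push Not at hall
      obtain ⟨x, hx, hxp⟩ := hall
      refine h2 x hx (fun h => hxp (cls_comm hx h)) (fun h => hxp ?_)
      exact cls_trans hK hqp (cls_comm hx h)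
  have h4 : ∀ x ∈ K, x ∈ Cls M K t p ↔ x ∉ Cls M K t q := by
    intro x hx
    constructor
    · intro hxp hxq
      exact h3 (cls_trans hK hxp (cls_comm hq hxq))
    · intro hxq
      by_contra hxp
      exact h2 x hx (fun h => hxp (cls_comm hx h)) (fun h => hxq (cls_comm hx h))
  have e1 : K \ Cls M K t p = Cls M K t q := by
    ext x
    constructor
    · rintro ⟨hx, hxp⟩
      by_contra hxq
      exact hxp ((h4 x hx).2 hxq)
    · intro hx
      exact ⟨hx.1, fun h => (h4 x hx.1).1 h hx⟩
  have e2 : K \ Cls M K t q = Cls M K t p := by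
    ext x
    constructor
    · rintro ⟨hx, hxq⟩
      exact (h4 x hx).2 hxq
    · intro hx
      exact ⟨hx.1, (h4 x hx.1).1 hx⟩
  refine ⟨h1, h4, ?_, ?_⟩
  · rw [← e2]
    exact cls_circuit hK h1 htK hq
  · rw [← e1]
    exact cls_circuit hK h1 htK hp

/-- **Crossing.**  Both elements can be contracted. -/
theorem cls_cross (hK : M.IsCircuit K) (htK : t ∉ K) (htK' : t' ∉ K) (htt : t ≠ t')
    (ht : t ∈ M.closure K) (ht' : t' ∈ M.closure K) (hx : x ∈ K) (hy : y ∈ K) (hp : p ∈ K)
    (hq : q ∈ K) (h1 : Eqv M K t p x) (h2 : ¬ Eqv M K t p y) (h3 : Eqv M K t q y)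
    (h4 : Eqv M K t' p y) (h5 : ¬ Eqv M K t' p x) (h6 : Eqv M K t' q x) :
    ∃ C ⊆ K, p ∈ C ∧ q ∈ C ∧ x ∉ C ∧ y ∉ C ∧ (M ／ {t, t'}).IsCircuit C := by
  have hxy : x ≠ y := fun h => h2 (h ▸ h1)
  have hpx : p ≠ x := fun h => h5 (Or.inl h)
  have hpy : p ≠ y := fun h => h2 (Or.inl h)
  have hqx : q ≠ x := by
    rintro rfl
    exact h2 (h1.trans hK hq h3)
  have hqy : q ≠ y := by
    rintro rfl
    exact h5 (h4.trans hK hq h6)
  -- `B + t` is independent
  have hB : M.Indep (K \ {x, y}) := (hK.sdiff_singleton_indep hx).subset (by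
    rintro e ⟨he1, he2⟩
    exact ⟨he1, fun h => he2 (Or.inl h)⟩)
  have hKE := hK.subset_ground
  have htE := M.closure_subset_ground _ ht
  have htB : t ∉ M.closure (K \ {x, y}) := by
    intro h
    exact h2 (h1.trans hK hx (Or.inr h))
  have htB' : t' ∉ M.closure (K \ {x, y}) := by
    intro h
    exact h5 (h4.trans hK hy (Or.inr (by rwa [Set.pair_comm])))
  have hBt : M.Indep (insert t (K \ {x, y})) :=
    (hB.notMem_closure_iff_of_notMem (fun h => htK h.1) htE).1 htB
  -- it spans
  have hyc : y ∈ M.closure (insert t (K \ {x, y})) := by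
    have h7 : t ∈ M.closure (insert y (K \ {x, y})) \ M.closure (K \ {x, y}) := by
      refine ⟨?_, htB⟩
      have e : insert y (K \ {x, y}) = K \ {x} := by
        ext f
        constructor
        · rintro (rfl | ⟨h8, h9⟩)
          · exact ⟨hy, fun h => hxy h.symm⟩
          · exact ⟨h8, fun h => h9 (Or.inl h)⟩
        · rintro ⟨h8, h9⟩
          by_cases hfy : f = y
          · exact Or.inl hfy
          · refine Or.inr ⟨h8, ?_⟩
            rintro (h | h)
            · exact h9 h
            · exact hfy h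
      rw [e, hK.closure_sdiff_singleton_eq]
      exact ht
    exact (M.closure_exchange h7).1
  have hspan : M.closure K ⊆ M.closure (insert t (K \ {x, y})) := by
    rw [← hK.closure_sdiff_singleton_eq x]
    refine M.closure_subset_closure_of_subset_closure ?_
    rintro e ⟨he, hex⟩
    by_cases hey : e = y
    · rw [hey]
      exact hyc
    · refine M.subset_closure _ (insert_subset htE (sdiff_subset.trans hKE)) ?_
      refine Or.inr ⟨he, ?_⟩
      rintro (h | h)
      · exact hex h
      · exact hey h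
  have ht'c := hspan ht'
  have ht'n : t' ∉ insert t (K \ {x, y}) := by
    rintro (h | h)
    · exact htt h.symm
    · exact htK' h.1
  have hC := hBt.fundCircuit_isCircuit ht'c ht'n
  obtain ⟨C, hCdef⟩ : ∃ C, C = M.fundCircuit t' (insert t (K \ {x, y})) := ⟨_, rfl⟩
  rw [← hCdef] at hC
  have hCsub : C ⊆ insert t' (insert t (K \ {x, y})) := by
    rw [hCdef]
    exact M.fundCircuit_subset_insert _ _
  have ht'C : t' ∈ C := by
    rw [hCdef]
    exact M.mem_fundCircuit _ _
  -- an element whose removal puts `t'` outside of the closure is in `C`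
  have key : ∀ F : Set α, t' ∉ M.closure F → ∀ e, insert t (K \ {x, y}) \ {e} ⊆ M.closure F →
      e ∈ C := by
    intro F hF e he
    by_contra heC
    apply hF
    have h8 := hC.mem_closure_sdiff_singleton_of_mem ht'C
    have h9 : C \ {t'} ⊆ M.closure F := by
      rintro f ⟨hf, hft⟩
      refine he ⟨(hCsub hf).resolve_left hft, ?_⟩
      intro hfe
      exact heC (hfe ▸ hf)
    exact M.closure_subset_closure_of_subset_closure h9 h8
  have htC : t ∈ C := by
    refine key _ htB' t ?_
    rintro f ⟨hf, hft⟩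
    exact M.subset_closure _ (sdiff_subset.trans hKE) (hf.resolve_left hft)
  have hpC : p ∈ C := by
    have h8 : t' ∉ M.closure (K \ {p, x}) := fun h => h5 (Or.inr h)
    refine key _ h8 p ?_
    rintro f ⟨hf, hfp⟩
    rcases hf with hf | hf
    · rw [hf]
      exact h1.resolve_left hpx
    · refine M.subset_closure _ (sdiff_subset.trans hKE) ⟨hf.1, ?_⟩
      rintro (h | h)
      · exact hfp h
      · exact hf.2 (Or.inl h)
  have hqC : q ∈ C := by
    have h8 : t' ∉ M.closure (K \ {q, y}) := by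
      intro h
      have h9 : Eqv M K t' q y := Or.inr h
      exact h5 ((h4.trans hK hy h9.symm).trans hK hq h6)
    refine key _ h8 q ?_
    rintro f ⟨hf, hfq⟩
    rcases hf with hf | hf
    · rw [hf]
      exact h3.resolve_left hqy
    · refine M.subset_closure _ (sdiff_subset.trans hKE) ⟨hf.1, ?_⟩
      rintro (h | h)
      · exact hfq h
      · exact hf.2 (Or.inr h)
  have hsub : ({t, t'} : Set α) ⊂ C := by
    refine ⟨?_, fun h => ?_⟩
    · rintro e (rfl | h)
      · exact htC
      · rw [mem_singleton_iff] at h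
        rw [h]
        exact ht'C
    · rcases h hpC with h8 | h8
      · exact htK (h8 ▸ hp)
      · exact htK' (h8 ▸ hp)
  refine ⟨C \ {t, t'}, ?_, ⟨hpC, ?_⟩, ⟨hqC, ?_⟩, ?_, ?_, hC.contract_isCircuit hsub⟩
  · rintro e ⟨he, het⟩
    rcases hCsub he with h8 | h8 | h8
    · exact absurd (Or.inr h8) het
    · exact absurd (Or.inl h8) het
    · exact h8.1
  · rintro (h8 | h8)
    · exact htK (h8 ▸ hp)
    · exact htK' (h8 ▸ hp)
  · rintro (h8 | h8)
    · exact htK (h8 ▸ hq)
    · exact htK' (h8 ▸ hq)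
  · rintro ⟨h8, h9⟩
    rcases hCsub h8 with h10 | h10 | h10
    · exact h9 (Or.inr h10)
    · exact h9 (Or.inl h10)
    · exact h10.2 (Or.inl rfl)
  · rintro ⟨h8, h9⟩
    rcases hCsub h8 with h10 | h10 | h10
    · exact h9 (Or.inr h10)
    · exact h9 (Or.inl h10)
    · exact h10.2 (Or.inr rfl)

/-- A row `C` with two ends `p`, `q`: as many elements `T` of `D` as possible are contracted such
that there is a circuit `K` through the ends. -/
structure RowMax (M : Matroid α) (C D : Set α) (p q : α) (T K : Set α) : Prop where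
  sub : T ⊆ D
  subK : K ⊆ C ∪ {p, q}
  cir : (M ／ T).IsCircuit K
  memp : p ∈ K
  memq : q ∈ K
  max : ∀ T₁ ⊆ D, ∀ K₁ ⊆ C ∪ {p, q}, (M ／ T₁).IsCircuit K₁ → p ∈ K₁ → q ∈ K₁ →
    T₁.ncard ≤ T.ncard

theorem exists_rowMax {C D : Set α} (hD : D.Finite) (h : M.IsCircuit (C ∪ {p, q})) :
    ∃ T K, RowMax M C D p q T K := by
  classical
  obtain ⟨P, hP⟩ : ∃ P : ℕ → Prop, P = fun n => ∃ T ⊆ D, ∃ K ⊆ C ∪ {p, q},
    (M ／ T).IsCircuit K ∧ p ∈ K ∧ q ∈ K ∧ T.ncard = n := ⟨_, rfl⟩
  have h0 : P 0 := by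
    rw [hP]
    refine ⟨∅, empty_subset _, _, Subset.rfl, ?_, Or.inr (Or.inl rfl), Or.inr (Or.inr rfl),
      ncard_empty _⟩
    rw [Matroid.contract_empty]
    exact h
  have hb : ∀ n, P n → n ≤ D.ncard := by
    intro n hn
    rw [hP] at hn
    obtain ⟨T, hT, _, _, _, _, _, rfl⟩ := hn
    exact ncard_le_ncard hT hD
  obtain ⟨m, hm, hmax⟩ : ∃ m, P m ∧ ∀ n, P n → n ≤ m :=
    ⟨Nat.findGreatest P D.ncard, Nat.findGreatest_spec (Nat.zero_le _) h0,
      fun n hn => Nat.le_findGreatest (hb n hn) hn⟩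
  rw [hP] at hm
  obtain ⟨T, hT, K, hK, h1, h2, h3, rfl⟩ := hm
  refine ⟨T, K, hT, hK, h1, h2, h3, ?_⟩
  intro T₁ hT₁ K₁ hK₁ h4 h5 h6
  refine hmax _ ?_
  rw [hP]
  exact ⟨T₁, hT₁, K₁, hK₁, h4, h5, h6, rfl⟩

section row

variable {C D T : Set α}

/-- **(a)** A remaining element has exactly two classes. -/
theorem RowMax.two (h : RowMax M C D p q T K) (hD : D.Finite) (hDC : Disjoint D (C ∪ {p, q}))
    (ht : t ∈ D) (htT : t ∉ T) :
    t ∈ (M ／ T).closure K ∧ (∀ x ∈ K, x ∈ Cls (M ／ T) K t p ↔ x ∉ Cls (M ／ T) K t q) ∧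
      (M ／ T).IsCircuit (insert t (Cls (M ／ T) K t p)) ∧
      (M ／ T).IsCircuit (insert t (Cls (M ／ T) K t q)) := by
  have htK : t ∉ K := fun h1 => Set.disjoint_left.1 hDC ht (h.subK h1)
  refine two_cls h.cir h.memp h.memq htK ?_
  intro C' hC' h1 h2 h3
  rw [Matroid.contract_contract] at h3
  have h4 := h.max (T ∪ {t}) (union_subset h.sub (singleton_subset_iff.2 ht)) C'
    (hC'.trans h.subK) h3 h1 h2
  rw [union_singleton, ncard_insert_of_notMem htT (hD.subset h.sub)] at h4
  omega

/-- **(a)** Two remaining elements are comparable. -/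
theorem RowMax.comp (h : RowMax M C D p q T K) (hD : D.Finite) (hDC : Disjoint D (C ∪ {p, q}))
    (ht : t ∈ D) (htT : t ∉ T) (ht' : t' ∈ D) (htT' : t' ∉ T) :
    Cls (M ／ T) K t p ⊆ Cls (M ／ T) K t' p ∨ Cls (M ／ T) K t' p ⊆ Cls (M ／ T) K t p := by
  by_cases htt : t = t'
  · rw [htt]
    exact Or.inl Subset.rfl
  by_contra hcon
  rw [not_or, not_subset, not_subset] at hcon
  obtain ⟨⟨x, hx, hx'⟩, ⟨y, hy', hy⟩⟩ := hcon
  obtain ⟨a1, a2, -, -⟩ := h.two hD hDC ht htT
  obtain ⟨b1, b2, -, -⟩ := h.two hD hDC ht' htT'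
  have htK : t ∉ K := fun h1 => Set.disjoint_left.1 hDC ht (h.subK h1)
  have htK' : t' ∉ K := fun h1 => Set.disjoint_left.1 hDC ht' (h.subK h1)
  have hyq : y ∈ Cls (M ／ T) K t q := by
    by_contra h1
    exact hy ((a2 y hy'.1).2 h1)
  have hxq : x ∈ Cls (M ／ T) K t' q := by
    by_contra h1
    exact hx' ((b2 x hx.1).2 h1)
  obtain ⟨C', hC', h1, h2, -, -, h3⟩ := cls_cross h.cir htK htK' htt a1 b1 hx.1 hy'.1 h.memp h.memq
    hx.2 (fun h1 => hy ⟨hy'.1, h1⟩) hyq.2 hy'.2 (fun h1 => hx' ⟨hx.1, h1⟩) hxq.2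
  rw [Matroid.contract_contract] at h3
  have h4 := h.max (T ∪ {t, t'}) (union_subset h.sub (by
    rintro e (rfl | h5)
    · exact ht
    · rw [mem_singleton_iff] at h5
      rw [h5]
      exact ht')) C' (hC'.trans h.subK) h3 h1 h2
  have h5 : (T ∪ {t, t'}).ncard = T.ncard + 2 := by
    rw [ncard_union_eq _ (hD.subset h.sub) (Set.toFinite _), ncard_pair htt]
    rw [Set.disjoint_left]
    rintro e he (rfl | h6)
    · exact htT he
    · rw [mem_singleton_iff] at h6
      exact htT' (h6 ▸ he)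
  omega

end row

end TST
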