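import Pool.Agent.TST.LCore
import Pool.Agent.TST.V2Thin

/-!
# Row P1 of T-star: from a label system to a minimal system
-/

set_option autoImplicit false

open Set BIC BICS CWL
open scoped Matroid

namespace TSH

universe u

section

variable {α : Type*} {M : Matroid α} {S : Set (Bool × ℕ × ℕ)} {L : Bool × ℕ × ℕ → List α}
  {f : α → Sym2 ((ℕ × ℕ) ⊕ α)} {e : Bool × ℕ × ℕ → α} {u : ℕ}

/-- a row is independent -/
lemma gside_row_indep [M.Finite] (h : GSide M S L f e u) {s : Bool × ℕ × ℕ} (hs : s ∈ S) :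
    M.Indep {x | x ∈ L s} := by
  classical
  refine h.bic.ind {x | x ∈ L s} (fun x => node s (L s) ((L s).idxOf x)) ?_ ?_ ?_
  · exact fun x hx => ⟨s, hs, hx⟩
  · intro x hx y hy hxy
    have h1 := List.idxOf_lt_length_of_mem (show x ∈ L s from hx)
    have h2 := List.idxOf_lt_length_of_mem (show y ∈ L s from hy)
    have h3 := node_inj s (h.nodup s hs) h1.le h2.le hxy
    have h4 : (L s)[(L s).idxOf x] = x := List.getElem_idxOf h1
    have h5 : (L s)[(L s).idxOf y] = y := List.getElem_idxOf h2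
    rw [← h4, ← h5]
    simp only [h3]
  · intro x hx
    have h1 := List.idxOf_lt_length_of_mem (show x ∈ L s from hx)
    have h4 : (L s)[(L s).idxOf x] = x := List.getElem_idxOf h1
    have h5 := h.end_eq s hs _ h1
    rw [h4] at h5
    rw [h5]
    exact Sym2.mem_mk_left _ _

lemma nuG_single [M.Finite] (h : GSide M S L f e u) (s : {s // s ∈ S}) :
    TST.nuG M S L {s} = 0 := by
  have h1 : {x | ∃ s' ∈ ({s} : Set {s // s ∈ S}), x ∈ L s'.1} = {x | x ∈ L s.1} := by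
    ext x
    constructor
    · rintro ⟨s', hs', hx⟩
      rw [mem_singleton_iff.1 hs'] at hx
      exact hx
    · exact fun hx => ⟨s, rfl, hx⟩
  unfold TST.nuG
  rw [h1, rk_indep (gside_row_indep h s.2)]
  exact Nat.sub_self _

end

/-- a smaller set of labels has the same densities -/
lemma Dens.sub {w L L' Cb h K₀ : ℕ} {h' Df : ℕ → ℕ} {m : ℕ} {R : ℕ → Bool × ℕ × ℕ}
    (hd : Dens w L L' Cb h h' K₀ Df m R) {m' : ℕ} {κ : ℕ → ℕ} (hκ : ∀ i < m', κ i < m)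
    (hinj : ∀ i < m', ∀ j < m', κ i = κ j → i = j) :
    Dens w L L' Cb h h' K₀ Df m' (fun i => R (κ i)) := by
  have key : ∀ P Q : ℕ → Prop, (∀ i < m', P i → Q (κ i)) →
      {i | i < m' ∧ P i}.ncard ≤ {i | i < m ∧ Q i}.ncard := by
    intro P Q hPQ
    refine Set.ncard_le_ncard_of_injOn κ ?_ ?_ ((Set.finite_Iio m).subset fun i hi => hi.1)
    · exact fun i hi => ⟨hκ i hi.1, hPQ i hi.1 hi.2⟩
    · exact fun i hi j hj hij => hinj i hi.1 j hj.1 hij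
  have hmm : m' ≤ m := by
    have h1 := key (fun _ => True) (fun _ => True) (fun _ _ _ => trivial)
    have h2 : ∀ a : ℕ, {i | i < a ∧ True}.ncard = a := by
      intro a
      have h3 : {i | i < a ∧ True} = (↑(Finset.range a) : Set ℕ) := by
        ext i
        simp
      rw [h3, Set.ncard_coe_finset, Finset.card_range]
    rwa [h2, h2] at h1
  refine ⟨?_, hmm.trans hd.b, ?_, ?_, ?_⟩
  · intro r hr
    exact lt_of_le_of_lt (Nat.mul_le_mul_left _ (key _ _ fun i _ hi => hi)) (hd.a r hr)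
  · exact le_trans (Nat.mul_le_mul_left _ (key _ _ fun i _ hi => hi)) hd.c
  · refine le_trans (Nat.mul_le_mul_left _ (key _ _ fun i hi hL => ?_)) hd.d
    exact lt_of_lt_of_le hL (key _ _ fun j _ hj => hj)
  · refine le_trans (Nat.mul_le_mul_left _ (key _ _ fun i hi hL => ?_)) hd.d2
    exact lt_of_lt_of_le hL (key _ _ fun j _ hj => hj)

variable {α : Type u} {M : Matroid α} {w s σ : ℕ} {𝒯 : Finset (ℕ × ℕ)}
  {L₁ : Bool × ℕ × ℕ → List α} {f₁ : α → Sym2 ((ℕ × ℕ) ⊕ α)} {e₁ : Bool × ℕ × ℕ → α} {u₁ : ℕ}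
  {L₂ : Bool × ℕ × ℕ → List α} {f₂ : α → Sym2 ((ℕ × ℕ) ⊕ α)} {e₂ : Bool × ℕ × ℕ → α} {u₂ : ℕ}
  {D : Set α} {n m : ℕ} {τ : ℕ → ℕ × ℕ} {R : ℕ → Bool × ℕ × ℕ} {c : ℕ → ℕ → α}
  {Za : Finset (Bool × ℕ × ℕ)}

/-- **The matroid part of P1.**  `P` is contracted, `Y` (lost labels) is deleted. -/
theorem rowmin_aux [M.Finite]
    (h : BSys M w s 𝒯 L₁ f₁ e₁ u₁ L₂ f₂ e₂ u₂ D σ n m τ R c Za) :
    ∃ (P Y D' : Set α) (L₁' : Bool × ℕ × ℕ → List α) (f₁' : α → Sym2 ((ℕ × ℕ) ⊕ α))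
      (e₁' : Bool × ℕ × ℕ → α) (f₂' : α → Sym2 ((ℕ × ℕ) ⊕ α)),
      (∀ r, (L₁' r).Sublist (L₁ r)) ∧
      Pair (M ／ P ＼ Y) (Seg w) L₁' f₁' e₁' u₁ (cores s 𝒯) (lrem L₂ Y) f₂' e₂ u₂ ∧
      Y ⊆ crr L₁ (Seg w) \ crr L₁' (Seg w) ∧ P ⊆ M.E ∧
      D' ⊆ D ∧ P ⊆ D ∪ e₁ '' Seg w ∧ Disjoint D' P ∧ Disjoint (crr L₁' (Seg w)) P ∧
      D' ⊆ (M ／ P ＼ Y).closure (crr L₁' (Seg w)) ∧
      Y ⊆ KB m c (Iio n) ∧ D ⊆ D' ∪ P ∧ crr L₁ (Seg w) ⊆ crr L₁' (Seg w) ∪ P ∪ Y ∧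
      ∀ r : {r // r ∈ Seg w}, r.1 ∉ Za → ∀ t ∈ D',
        t ∈ (M ／ P ＼ Y).closure {x | x ∈ L₁' r.1} →
        TST.Blind (M ／ P ＼ Y) (fun r : {r // r ∈ Seg w} => {x | x ∈ L₁' r.1}) r t := by
  classical
  have hg := h.pair.s₁
  have hfinι : Finite {r // r ∈ Seg w} := (Seg_finite w).to_subtype
  -- the last elements which are contracted
  obtain ⟨E, hE⟩ : ∃ E : Set α, E = {x | ∃ r ∈ Seg w, r ∉ Za ∧ x = e₁ r ∧
    ∃ i < m, ∃ b < n, c i b ∈ L₁ r} := ⟨_, rfl⟩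
  have hEe : E ⊆ e₁ '' Seg w := by
    rw [hE]
    rintro x ⟨r, hr, _, rfl, _⟩
    exact ⟨r, hr, rfl⟩
  have hErow : ∀ x ∈ E, ∀ r ∈ Seg w, x ∈ L₁ r → r ∉ Za ∧ x = e₁ r ∧
      ∃ i < m, ∃ b < n, c i b ∈ L₁ r := by
    intro x hx r hr hxr
    rw [hE] at hx
    obtain ⟨r', hr', h1, rfl, h2⟩ := hx
    have h3 := hg.uniq hr' hr (hg.mem_last hr') hxr
    subst h3
    exact ⟨h1, rfl, h2⟩
  have hEE : E ⊆ crr L₁ (Seg w) := hEe.trans hg.e_sub
  have hEcE : E ⊆ M.E := hEE.trans hg.sub_ground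
  have hDE : D ⊆ M.E := h.D_cl.trans (M.closure_subset_ground _)
  -- the rows
  obtain ⟨Rw, hRw⟩ : ∃ Rw : {r // r ∈ Seg w} → Set α, Rw = fun r => {x | x ∈ L₁ r.1} := ⟨_, rfl⟩
  obtain ⟨Rw₀, hRw₀⟩ : ∃ Rw₀ : {r // r ∈ Seg w} → Set α,
    Rw₀ = fun r => {x | x ∈ L₁ r.1 ∧ x ∉ E} := ⟨_, rfl⟩
  have hmem₀ : ∀ r x, x ∈ Rw₀ r ↔ x ∈ L₁ r.1 ∧ x ∉ E := by
    intro r x
    rw [hRw₀]
    rfl
  have hrowF : TST.RowF M Rw (TST.nuG M (Seg w) L₁) := by
    rw [hRw]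
    exact TST.gside_rowF hg
  have hne₀ : ∀ r, (Rw₀ r).Nonempty := by
    intro r
    by_cases h1 : e₁ r.1 ∈ E
    · obtain ⟨h2, _, i, hi, b, hb, hib⟩ := hErow _ h1 r.1 r.2 (hg.mem_last r.2)
      refine ⟨c i b, (hmem₀ r _).2 ⟨hib, fun h3 => ?_⟩⟩
      exact h.anc i hi b hb r.1 r.2 (hErow _ h3 r.1 r.2 hib).2.1
    · exact ⟨e₁ r.1, (hmem₀ r _).2 ⟨hg.mem_last r.2, h1⟩⟩
  have hUR : (⋃ r, Rw r) = crr L₁ (Seg w) := by
    rw [hRw]
    exact TST.crr_iUnion.symm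
  have hU₀ : (⋃ r, Rw₀ r) = crr L₁ (Seg w) \ E := by
    ext x
    rw [mem_iUnion]
    constructor
    · rintro ⟨r, hr⟩
      exact ⟨⟨r.1, r.2, ((hmem₀ r x).1 hr).1⟩, ((hmem₀ r x).1 hr).2⟩
    · rintro ⟨⟨r, hr, hx⟩, hxE⟩
      exact ⟨⟨r, hr⟩, (hmem₀ _ x).2 ⟨hx, hxE⟩⟩
  have hRwE : (⋃ r, Rw r) \ (⋃ r, Rw₀ r) = E := by
    rw [hUR, hU₀, sdiff_sdiff_right_self]
    exact inter_eq_right.2 hEE
  have hrowF₀ : TST.RowF (M ／ E) Rw₀ (TST.nuG M (Seg w) L₁) := by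
    have h1 := TST.rowF_con_sub (Rw' := Rw₀) hrowF (fun r x hx => by
      rw [hRw]
      exact ((hmem₀ r x).1 hx).1) hne₀
    rwa [hRwE] at h1
  have hfE : (M ／ E).Finite := BQ.fin_contract E
  have hDR : Disjoint D (crr L₁ (Seg w)) := h.D₁
  have hDcl₀ : D ⊆ (M ／ E).closure (⋃ r, Rw₀ r) := by
    rw [Matroid.contract_closure_eq, hU₀, sdiff_union_of_subset hEE]
    intro x hx
    exact ⟨h.D_cl hx, fun h1 => Set.disjoint_left.1 hDR hx (hEE h1)⟩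
  have hV : TST.VSys (M ／ E) Rw₀ (TST.nuG M (Seg w) L₁) D (fun f : Empty => (∅ : Set α))
      (fun f : Empty => (0 : ℕ)) := by
    refine ⟨hrowF₀, hDcl₀, fun f => f.elim, ?_, fun f => f.elim⟩
    intro B c' hB
    have h1 : B = ∅ := by
      rw [Finset.eq_empty_iff_forall_notMem]
      intro b hb
      obtain ⟨_, f, _⟩ := hB b hb
      exact f.elim
    subst h1
    simp
  obtain ⟨Z, Rw', hZD, hsub', hfz, hV', hmin⟩ := TST.VSys.exists_min
    (Col := fun f : Empty => (∅ : Set α)) (tb := fun f : Empty => (0 : ℕ))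
    {r : {r // r ∈ Seg w} | r.1 ∈ Za} (fun r _ => nuG_single hg r) (M ／ E) Rw₀ D hV
    (fun r => hDR.mono_right (show Rw₀ r ⊆ crr L₁ (Seg w) from
      fun x hx => ⟨r.1, r.2, ((hmem₀ r x).1 hx).1⟩))
  have hrF' := hV'.rows
  rw [Matroid.contract_contract] at hrF'
  -- the lost elements
  obtain ⟨Y, hY⟩ : ∃ Y : Set α, Y = (⋃ r, Rw₀ r) \ ⋃ r, Rw' r := ⟨_, rfl⟩
  have hsubU : (⋃ r, Rw' r) ⊆ ⋃ r, Rw₀ r := iUnion_mono hsub'
  obtain ⟨L', hL'⟩ : ∃ L', L' = lrem L₁ (E ∪ Y) := ⟨_, rfl⟩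
  have hmL' : ∀ r (hr : r ∈ Seg w) x, x ∈ L' r ↔ x ∈ Rw' ⟨r, hr⟩ := by
    intro r hr x
    rw [hL', mem_lrem]
    constructor
    · rintro ⟨h1, h2⟩
      have h3 : x ∈ ⋃ r, Rw₀ r :=
        mem_iUnion.2 ⟨⟨r, hr⟩, (hmem₀ ⟨r, hr⟩ x).2 ⟨h1, fun h4 => h2 (Or.inl h4)⟩⟩
      have h4 : x ∈ ⋃ r, Rw' r := by
        by_contra h5
        exact h2 (Or.inr (by rw [hY]; exact ⟨h3, h5⟩))
      obtain ⟨r', hr'⟩ := mem_iUnion.1 h4
      have h5 := hg.uniq r'.2 hr ((hmem₀ r' x).1 (hsub' r' hr')).1 h1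
      have h6 : r' = ⟨r, hr⟩ := Subtype.ext h5
      rwa [h6] at hr'
    · intro h1
      have h2 := (hmem₀ _ x).1 (hsub' _ h1)
      refine ⟨h2.1, ?_⟩
      rintro (h3 | h3)
      · exact h2.2 h3
      · rw [hY] at h3
        exact h3.2 (mem_iUnion.2 ⟨_, h1⟩)
  have hRwL : Rw' = fun r : {r // r ∈ Seg w} => {x | x ∈ L' r.1} := by
    funext r
    ext x
    exact (hmL' r.1 r.2 x).symm
  have hUL : (⋃ r, Rw' r) = crr L' (Seg w) := by
    rw [hRwL]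
    exact TST.crr_iUnion.symm
  -- lost elements are labels
  have hYl : ∀ x ∈ Y, ∃ r ∈ Seg w, x ∈ L₁ r ∧ r ∉ Za ∧ ∃ i < m, ∃ b < n, x = c i b := by
    intro x hx
    rw [hY] at hx
    obtain ⟨h1, h2⟩ := hx
    obtain ⟨r, hr⟩ := mem_iUnion.1 h1
    have h3 : x ∉ Rw' r := fun h4 => h2 (mem_iUnion.2 ⟨r, h4⟩)
    have hrZ : r.1 ∉ Za := by
      intro h4
      rw [hfz r h4] at h3
      exact h3 hr
    obtain ⟨hxr, hxE⟩ := (hmem₀ r x).1 hr
    refine ⟨r.1, r.2, hxr, hrZ, ?_⟩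
    rcases h.all r.1 r.2 hrZ x hxr with h4 | ⟨i, hi, b, hb, h5⟩
    · exfalso
      have hno : ∀ i < m, ∀ b < n, c i b ∉ L₁ r.1 := by
        intro i hi b hb h5
        apply hxE
        rw [hE]
        exact ⟨r.1, r.2, hrZ, h4, i, hi, b, hb, h5⟩
      obtain ⟨y, hy⟩ := hV'.rows.ne r
      have hy1 := ((hmem₀ r y).1 (hsub' r hy)).1
      rcases h.all r.1 r.2 hrZ y hy1 with h6 | ⟨i, hi, b, hb, h7⟩
      · rw [h6, ← h4] at hy
        exact h3 hy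
      · exact hno i hi b hb (h7 ▸ hy1)
    · exact ⟨i, hi, b, hb, h5⟩
  have hcore : ∀ i < m, ∀ b < n, c i b ∈ crr L₂ (cores s 𝒯) := by
    intro i hi b hb
    obtain ⟨σ, hσ, hx⟩ := h.lab i hi b hb
    exact ⟨σ, ⟨τ b, h.tau b hb, hσ⟩, hx⟩
  have hanc := h.anchor
  have hY₂ : Y ⊆ crr L₂ (cores s 𝒯) := by
    intro x hx
    obtain ⟨r, hr, _, _, i, hi, b, hb, rfl⟩ := hYl x hx
    exact hcore i hi b hb
  have hYe : ∀ σ ∈ cores s 𝒯, e₂ σ ∉ Y := by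
    intro σ hσ h1
    obtain ⟨r, hr, h2, h3, _⟩ := hYl _ h1
    exact h3 (hanc σ hσ r hr h2)
  have hYR : Y ⊆ crr L₁ (Seg w) := by
    intro x hx
    obtain ⟨r, hr, h2, _⟩ := hYl x hx
    exact ⟨r, hr, h2⟩
  have hYL : Disjoint (crr L' (Seg w)) Y := by
    rw [← hUL, Set.disjoint_left, hY]
    exact fun x hx hx2 => hx2.2 hx
  have hP₂ : Disjoint (crr L₂ (cores s 𝒯)) (E ∪ Z) := by
    rw [Set.disjoint_left]
    rintro x hx (h1 | h1)
    · obtain ⟨r, hr, rfl⟩ := hEe h1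
      exact h.ze r hr hx
    · exact Set.disjoint_left.1 h.D₂ (hZD h1) hx
  have hL'sub : ∀ r, (L' r).Sublist (L₁ r) := by
    intro r
    rw [hL']
    exact List.filter_sublist
  have hne' : ∀ r ∈ Seg w, L' r ≠ [] := by
    intro r hr h1
    obtain ⟨y, hy⟩ := hV'.rows.ne ⟨r, hr⟩
    have := (hmL' r hr y).2 hy
    rw [h1] at this
    simp at this
  obtain ⟨e', he'⟩ : ∃ e' : Bool × ℕ × ℕ → α, ∀ r ∈ Seg w, (L' r).getLast? = some (e' r) := by
    refine ⟨fun r => if hr : L' r ≠ [] then (L' r).getLast hr else e₁ r, fun r hr => ?_⟩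
    simp only [dif_pos (hne' r hr)]
    exact List.getLast?_eq_getLast_of_ne_nil (hne' r hr)
  have hdj : Disjoint (e' '' Seg w) (e₂ '' cores s 𝒯) := by
    rw [Set.disjoint_left]
    rintro _ ⟨r, hr, rfl⟩ ⟨σ, hσ, hσ2⟩
    have h1 : e' r ∈ L' r := List.mem_of_getLast? (he' r hr)
    have h2 : e' r ∈ L₁ r := (hL'sub r).subset h1
    have h3 : r ∈ Za := hanc σ hσ r hr (hσ2 ▸ h2)
    -- the row is the old one
    have h4 : L' r = L₁ r := by
      rw [hL']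
      unfold lrem
      rw [List.filter_eq_self]
      intro x hx
      simp only [decide_eq_true_eq]
      rintro (h5 | h5)
      · exact (hErow x h5 r hr hx).1 h3
      · rw [hY] at h5
        apply h5.2
        refine mem_iUnion.2 ⟨⟨r, hr⟩, ?_⟩
        rw [hfz ⟨r, hr⟩ h3]
        exact (hmem₀ _ x).2 ⟨hx, fun h6 => (hErow x h6 r hr hx).1 h3⟩
    have h5 := he' r hr
    rw [h4, hg.last r hr] at h5
    have h6 : e₁ r = e' r := Option.some.inj h5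
    refine Set.disjoint_left.1 h.pair.dj ⟨r, hr, rfl⟩ ⟨σ, hσ, ?_⟩
    rw [h6]
    exact hσ2
  rw [hRwL] at hrF'
  obtain ⟨f₁', f₂', hpair⟩ := TST.pair_min h.pair hP₂ hY₂ hYe
    (fun r hr => (hL'sub r).nodup (hg.nodup r hr))
    (fun r hr x hx => (hL'sub r).subset hx) he' hYL hrF' hdj
  have hPE : E ∪ Z ⊆ M.E := union_subset hEcE (hZD.trans hDE)
  have hL'R : crr L' (Seg w) ⊆ crr L₁ (Seg w) := by
    rintro x ⟨r, hr, hx⟩
    exact ⟨r, hr, (hL'sub r).subset hx⟩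
  have hcr' : crr L' (Seg w) = crr L₁ (Seg w) \ (E ∪ Y) := by
    rw [hL']
    exact crr_lrem
  have hDY : Disjoint D Y := hDR.mono_right hYR
  refine ⟨E ∪ Z, Y, D \ Z, L', f₁', e', f₂', hL'sub, hpair, ?_, hPE, sdiff_subset, ?_, ?_, ?_, ?_,
    ?_, ?_, ?_, ?_⟩
  · intro x hx
    exact ⟨hYR hx, fun h1 => Set.disjoint_left.1 hYL h1 hx⟩
  · rintro x (hx | hx)
    · exact Or.inr (hEe hx)
    · exact Or.inl (hZD hx)
  · rw [Set.disjoint_left]
    rintro x hx (h1 | h1)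
    · exact Set.disjoint_left.1 hDR hx.1 (hEE h1)
    · exact hx.2 h1
  · rw [Set.disjoint_left]
    rintro x hx (h1 | h1)
    · rw [hcr'] at hx
      exact hx.2 (Or.inl h1)
    · exact Set.disjoint_left.1 hDR (hZD h1) (hL'R hx)
  · have h1 := hV'.D_cl
    rw [Matroid.contract_contract, hUL] at h1
    rw [Matroid.delete_closure_eq, hYL.sdiff_eq_left]
    intro x hx
    exact ⟨h1 hx, fun h2 => Set.disjoint_left.1 hDY hx.1 h2⟩
  · intro x hx
    obtain ⟨r, hr, _, _, i, hi, b, hb, rfl⟩ := hYl x hx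
    exact ⟨i, hi, b, hb, rfl⟩
  · intro x hx
    by_cases h1 : x ∈ Z
    · exact Or.inr (Or.inr h1)
    · exact Or.inl ⟨hx, h1⟩
  · intro x hx
    by_cases h1 : x ∈ E
    · exact Or.inl (Or.inr (Or.inl h1))
    · by_cases h2 : x ∈ Y
      · exact Or.inr h2
      · left; left
        rw [hcr']
        refine ⟨hx, ?_⟩
        rintro (h3 | h3)
        · exact h1 h3
        · exact h2 h3
  · intro r hr t ht htc
    have hdr : ∀ X ⊆ crr L' (Seg w), (M ／ (E ∪ Z) ＼ Y).closure X = (M ／ (E ∪ Z)).closure X \ Y := by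
      intro X hX
      rw [Matroid.delete_closure_eq, (hYL.mono_left hX).sdiff_eq_left]
    have hrr : {x | x ∈ L' r.1} ⊆ crr L' (Seg w) := fun x hx => ⟨r.1, r.2, hx⟩
    have h1 := hmin r hr t ht
    rw [Matroid.contract_contract, hRwL] at h1
    rw [hdr _ hrr] at htc
    have htY : t ∉ Y := htc.2
    rcases h1 htc.1 with h2 | ⟨h2, h3⟩
    · left
      rw [hdr _ (empty_subset _)]
      exact ⟨h2, htY⟩
    · right
      refine ⟨fun a ha h4 => ?_, fun a ha a' ha' hne => ?_⟩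
      · rw [hdr _ (sdiff_subset.trans hrr)] at h4
        exact h2 a ha h4.1
      · rw [hdr]
        · exact ⟨h3 a ha a' ha' hne, htY⟩
        · rw [← TST.crr_iUnion]
          exact sdiff_subset

/-- a finite set of numbers in increasing order -/
lemma enum_fin (I : Finset ℕ) : ∃ κ : ℕ → ℕ, (∀ i < I.card, κ i ∈ I) ∧
    (∀ i < I.card, ∀ j < I.card, i < j → κ i < κ j) ∧ ∀ x ∈ I, ∃ i < I.card, x = κ i := by
  refine ⟨fun i => if h : i < I.card then I.orderEmbOfFin rfl ⟨i, h⟩ else 0, ?_, ?_, ?_⟩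
  · intro i hi
    simp only [dif_pos hi]
    exact Finset.orderEmbOfFin_mem I rfl _
  · intro i hi j hj hij
    simp only [dif_pos hi, dif_pos hj]
    exact (I.orderEmbOfFin rfl).strictMono (show (⟨i, hi⟩ : Fin I.card) < ⟨j, hj⟩ from hij)
  · intro x hx
    have h1 : x ∈ Set.range (I.orderEmbOfFin rfl) := by
      rw [Finset.range_orderEmbOfFin]
      exact hx
    obtain ⟨⟨i, hi⟩, rfl⟩ := h1
    refine ⟨i, hi, ?_⟩
    simp only [dif_pos hi]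

/-- the same surviving labels in many tiles -/
lemma pigeon (m mmax n' : ℕ) (hm : m ≤ mmax) (P : ℕ → ℕ → Prop) (T : Finset ℕ)
    (hT : 2 ^ mmax * n' ≤ T.card) :
    ∃ T' ⊆ T, T'.card = n' ∧ ∃ I ⊆ Finset.range m, ∀ b ∈ T', ∀ i < m, P i b ↔ i ∈ I := by
  classical
  obtain ⟨I, hI, hcard⟩ := Finset.exists_le_card_fiber_of_mul_le_card_of_maps_to
    (s := T) (t := (Finset.range m).powerset) (n := n')
    (f := fun b => (Finset.range m).filter (fun i => P i b))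
    (fun b _ => Finset.mem_powerset.2 (Finset.filter_subset _ _))
    ⟨∅, Finset.mem_powerset.2 (Finset.empty_subset _)⟩ (by
      rw [Finset.card_powerset, Finset.card_range]
      exact (Nat.mul_le_mul_right _ (Nat.pow_le_pow_right (by norm_num) hm)).trans hT)
  obtain ⟨T', hT', hc⟩ := Finset.exists_subset_card_eq hcard
  refine ⟨T', hT'.trans (Finset.filter_subset _ _), hc, I, Finset.mem_powerset.1 hI, ?_⟩
  intro b hb i hi
  have h1 := (Finset.mem_filter.1 (hT' hb)).2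
  rw [← h1, Finset.mem_filter, Finset.mem_range]
  exact ⟨fun h3 => ⟨hi, h3⟩, fun h3 => h3.2⟩

/-- **Row P1.**  A system with many tiles has a minor with a minimal system with `n'` tiles. -/
theorem row_min [M.Finite] {n' mmax : ℕ} (hn' : 1 ≤ n') (hm : m ≤ mmax)
    (hn : (σ + 1) * (2 ^ mmax * n') < n)
    (h : BSys M w s 𝒯 L₁ f₁ e₁ u₁ L₂ f₂ e₂ u₂ D σ n m τ R c Za) :
    ∃ (M₁ : Matroid α) (L₁' : Bool × ℕ × ℕ → List α) (f₁' : α → Sym2 ((ℕ × ℕ) ⊕ α))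
      (e₁' : Bool × ℕ × ℕ → α) (L₂' : Bool × ℕ × ℕ → List α) (f₂' : α → Sym2 ((ℕ × ℕ) ⊕ α))
      (D' : Set α) (m' : ℕ) (κ β : ℕ → ℕ),
      M₁ ≤m M ∧ (∀ r, (L₁' r).Sublist (L₁ r)) ∧ (∀ r, (L₂' r).Sublist (L₂ r)) ∧ D' ⊆ D ∧
      m' ≤ m ∧ (∀ i < m', κ i < m) ∧ (∀ i < m', ∀ j < m', i < j → κ i < κ j) ∧
      (∀ b < n', β b < n) ∧ (∀ a < n', ∀ b < n', a < b → β a < β b) ∧
      MSys M₁ w s 𝒯 L₁' f₁' e₁' u₁ L₂' f₂' e₂ u₂ D' (σ + 1) n' m' (fun b => τ (β b))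
        (fun i => R (κ i)) (fun i b => c (κ i) (β b)) Za ∧
      ∀ (L L' Cb h K₀ : ℕ) (h' Df : ℕ → ℕ), Dens w L L' Cb h h' K₀ Df m R →
        Dens w L L' Cb h h' K₀ Df m' (fun i => R (κ i)) := by
  classical
  obtain ⟨P, Y, D', L₁', f₁', e₁', f₂', hsub, hpair, hYR, hPE, hD'D, hPsub, hD'P, hL'P, hD'cl,
    hYK, hDsub, hLsub, hmin⟩ := rowmin_aux h
  have hg := h.pair.s₁
  have hDR : Disjoint D (crr L₁ (Seg w)) := h.D₁
  have hsubR : crr L₁' (Seg w) ⊆ crr L₁ (Seg w) := by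
    rintro x ⟨r, hr, hx⟩
    exact ⟨r, hr, (hsub r).subset hx⟩
  have hnY : ∀ x ∈ crr L₁' (Seg w), x ∉ Y := fun x hx hxY => (hYR hxY).2 hx
  have hDE : D ⊆ M.E := h.D_cl.trans (M.closure_subset_ground _)
  have hf1 : (M ／ P).Finite := BQ.fin_contract P
  have hf2 : (M ／ P ＼ Y).Finite := BQ.fin_delete Y
  -- ranks in the new matroid
  have hrk : ∀ X ⊆ D' ∪ crr L₁' (Seg w), rk (M ／ P ＼ Y) X + rk M P = rk M (X ∪ P) := by
    intro X hX
    have hXP : X ⊆ M.E \ P := by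
      intro x hx
      rcases hX hx with h1 | h1
      · exact ⟨hDE (hD'D h1), fun h2 => Set.disjoint_left.1 hD'P h1 h2⟩
      · exact ⟨hg.sub_ground (hsubR h1), fun h2 => Set.disjoint_left.1 hL'P h1 h2⟩
    have hXY : X ⊆ (M ／ P).E \ Y := by
      intro x hx
      refine ⟨hXP hx, fun h2 => ?_⟩
      rcases hX hx with h1 | h1
      · exact Set.disjoint_left.1 hDR (hD'D h1) (hYR h2).1
      · exact (hYR h2).2 h1
    rw [rk_delete hXY]
    exact rk_contract_set hPE hXP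
  -- V2 for all tiles
  have hPcl : P ⊆ M.closure (crr L₁ (Seg w)) := by
    intro x hx
    rcases hPsub hx with h1 | ⟨r, hr, rfl⟩
    · exact h.D_cl h1
    · exact M.subset_closure _ hg.sub_ground ⟨r, hr, hg.mem_last hr⟩
  have hV : rk (M ／ P ＼ Y) (crr L₁' (Seg w)) ≤
      rk (M ／ P ＼ Y) (D' ∪ (crr L₁' (Seg w) \ KB m c (Iio n))) + σ * n := by
    have e1 := hrk (crr L₁' (Seg w)) subset_union_right
    have e2 := hrk (D' ∪ (crr L₁' (Seg w) \ KB m c (Iio n)))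
      (union_subset_union_right _ sdiff_subset)
    have h1 : rk M (crr L₁' (Seg w) ∪ P) ≤ rk M (crr L₁ (Seg w)) := by
      rw [← rk_closure (M := M) (crr L₁ (Seg w))]
      exact rk_mono M (union_subset (hsubR.trans (M.subset_closure _ hg.sub_ground)) hPcl)
    have h2 : rk M (D ∪ (crr L₁ (Seg w) \ KB m c (Iio n))) ≤
        rk M (D' ∪ (crr L₁' (Seg w) \ KB m c (Iio n)) ∪ P) := by
      refine rk_mono M ?_
      rintro x (hx | hx)
      · rcases hDsub hx with h3 | h3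
        · exact Or.inl (Or.inl h3)
        · exact Or.inr h3
      · rcases hLsub hx.1 with (h3 | h3) | h3
        · exact Or.inl (Or.inr ⟨h3, hx.2⟩)
        · exact Or.inr h3
        · exact absurd (hYK h3) hx.2
    have h3 := h.V2
    omega
  obtain ⟨T, hT, hTc, ⟨I, hI, hTI⟩, hVT⟩ := v2_thin σ (2 ^ mmax * n') n' hn' hn
    hpair.s₁.sub_ground hD'cl (fun i hi b hb j hj a ha hij => (h.inj i hi b hb j hj a ha hij).2) hV
    (fun T' => ∃ I ⊆ Finset.range m, ∀ b ∈ T', ∀ i < m, c i b ∈ crr L₁' (Seg w) ↔ i ∈ I)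
    (fun T' _ hT' => pigeon m mmax n' hm (fun i b => c i b ∈ crr L₁' (Seg w)) T' hT')
  obtain ⟨κ, k1, k2, k3⟩ := enum_fin I
  obtain ⟨β, b1, b2, b3⟩ := enum_fin T
  rw [hTc] at b1 b2 b3
  obtain ⟨m', hm'⟩ : ∃ m', m' = I.card := ⟨_, rfl⟩
  rw [← hm'] at k1 k2 k3
  have hκ : ∀ i < m', κ i < m := fun i hi => Finset.mem_range.1 (hI (k1 i hi))
  have hβ : ∀ b < n', β b < n := fun b hb => Finset.mem_range.1 (hT (b1 b hb))
  have hκi : ∀ i < m', ∀ j < m', κ i = κ j → i = j := by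
    intro i hi j hj hij
    rcases Nat.lt_trichotomy i j with h1 | h1 | h1
    · exact absurd (k2 i hi j hj h1) (by omega)
    · exact h1
    · exact absurd (k2 j hj i hi h1) (by omega)
  have hβi : ∀ a < n', ∀ b < n', β a = β b → a = b := by
    intro i hi j hj hij
    rcases Nat.lt_trichotomy i j with h1 | h1 | h1
    · exact absurd (b2 i hi j hj h1) (by omega)
    · exact h1
    · exact absurd (b2 j hj i hi h1) (by omega)
  have hmm : m' ≤ m := by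
    rw [hm']
    have h1 := Finset.card_le_card hI
    rwa [Finset.card_range] at h1
  have hiff : ∀ b < n', ∀ i < m, c i (β b) ∈ crr L₁' (Seg w) ↔ ∃ j < m', i = κ j := by
    intro b hb i hi
    rw [hTI _ (b1 b hb) i hi]
    constructor
    · exact fun h3 => k3 i h3
    · rintro ⟨j, hj, rfl⟩
      exact k1 j hj
  have hsurv : ∀ i < m', ∀ b < n', c (κ i) (β b) ∈ crr L₁' (Seg w) := fun i hi b hb =>
    (hiff b hb (κ i) (hκ i hi)).2 ⟨i, hi, rfl⟩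
  refine ⟨M ／ P ＼ Y, L₁', f₁', e₁', lrem L₂ Y, f₂', D', m', κ, β,
    (del_minor _ _).trans (con_minor _ _), hsub, fun r => List.filter_sublist, hD'D, hmm, hκ, k2,
    hβ, b2, ?_, fun L L' Cb h₀ K₀ h' Df hd => hd.sub hκ hκi⟩
  -- the minimal system
  have hKB : ∀ B : Finset ℕ, (∀ b ∈ B, b < n') → ∀ x ∈ crr L₁' (Seg w),
      x ∉ KB m' (fun i b => c (κ i) (β b)) (B : Set ℕ) →
      x ∉ KB m c ((B.image β : Finset ℕ) : Set ℕ) := by
    rintro B hB x hx hx1 ⟨i, hi, b', hb', rfl⟩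
    rw [Finset.coe_image] at hb'
    obtain ⟨b, hb, rfl⟩ := hb'
    obtain ⟨j, hj, rfl⟩ := (hiff b (hB b hb) i hi).1 hx
    exact hx1 ⟨j, hj, b, hb, rfl⟩
  refine ⟨hpair, ?_, ?_, ?_, ?_, ?_, ?_, ?_, ?_, hD'cl, ?_, ?_, ?_, ?_, hmin⟩
  · exact fun b hb => h.tau _ (hβ b hb)
  · exact fun a ha b hb hab => hβi a ha b hb (h.tinj _ (hβ a ha) _ (hβ b hb) hab)
  · exact fun i hi => h.row _ (hκ i hi)
  · intro i hi b hb
    obtain ⟨r, hr, hx⟩ := hsurv i hi b hb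
    have h1 := hg.uniq hr (h.row _ (hκ i hi)) ((hsub r).subset hx)
      (h.mem _ (hκ i hi) _ (hβ b hb))
    rwa [h1] at hx
  · intro i hi b hb
    rw [crr_lrem]
    exact ⟨h.lab _ (hκ i hi) _ (hβ b hb), hnY _ (hsurv i hi b hb)⟩
  · intro i hi b hb j hj a ha hij
    obtain ⟨h1, h2⟩ := h.inj _ (hκ i hi) _ (hβ b hb) _ (hκ j hj) _ (hβ a ha) hij
    exact ⟨hκi i hi j hj h1, hβi b hb a ha h2⟩
  · intro b hb x hx hx2
    rw [crr_lrem] at hx2
    obtain ⟨i, hi, rfl⟩ := h.tile _ (hβ b hb) x (hsubR hx) hx2.1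
    obtain ⟨j, hj, rfl⟩ := (hiff b hb i hi).1 hx
    exact ⟨j, hj, rfl⟩
  · exact fun r' hr' r hr h1 => h.anchor r' hr' r hr ((hsub r).subset h1)
  · exact hDR.mono hD'D hsubR
  · refine h.D₂.mono hD'D ?_
    rw [crr_lrem]
    exact sdiff_subset
  · -- V1
    intro B I' hB
    obtain ⟨W', hW'⟩ : ∃ W' : Set α, W' = D' ∪ (crr L₁' (Seg w) \
      KB m' (fun i b => c (κ i) (β b)) (B : Set ℕ)) := ⟨_, rfl⟩
    obtain ⟨W, hW⟩ : ∃ W : Set α, W = D ∪ (crr L₁ (Seg w) \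
      KB m c ((B.image β : Finset ℕ) : Set ℕ)) := ⟨_, rfl⟩
    obtain ⟨C, hC⟩ : ∃ C : Set α, C = (fun b => c (κ (I' b)) (β b)) '' (B : Set ℕ) := ⟨_, rfl⟩
    show rk (M ／ P ＼ Y) (D' ∪ (crr L₁' (Seg w) \ KB m' (fun i b => c (κ i) (β b)) (B : Set ℕ))) +
      B.card ≤ rk (M ／ P ＼ Y) ((fun b => c (κ (I' b)) (β b)) '' (B : Set ℕ) ∪
        (D' ∪ (crr L₁' (Seg w) \ KB m' (fun i b => c (κ i) (β b)) (B : Set ℕ)))) + u₂
    rw [← hW', ← hC]
    have hWW : W' ⊆ W := by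
      rw [hW', hW]
      rintro x (hx | hx)
      · exact Or.inl (hD'D hx)
      · exact Or.inr ⟨hsubR hx.1, hKB B (fun b hb => (hB b hb).1) x hx.1 hx.2⟩
    have hPW : P ⊆ W := by
      rw [hW]
      intro x hx
      rcases hPsub hx with h1 | ⟨r, hr, rfl⟩
      · exact Or.inl h1
      · refine Or.inr ⟨⟨r, hr, hg.mem_last hr⟩, ?_⟩
        rintro ⟨i, hi, b', hb', h2⟩
        rw [Finset.coe_image] at hb'
        obtain ⟨b, hb, rfl⟩ := hb'
        exact h.anc i hi _ (hβ b (hB b hb).1) r hr h2.symm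
    have hCL : C ⊆ crr L₁' (Seg w) := by
      rw [hC]
      rintro _ ⟨b, hb, rfl⟩
      exact hsurv _ (hB b hb).2 b (hB b hb).1
    have hW'L : W' ⊆ D' ∪ crr L₁' (Seg w) := by
      rw [hW']
      exact union_subset_union_right _ sdiff_subset
    have e1 := hrk W' hW'L
    have e2 := hrk (C ∪ W') (union_subset (hCL.trans subset_union_right) hW'L)
    -- the old system
    obtain ⟨Iβ, hIβ⟩ : ∃ Iβ : ℕ → ℕ, ∀ b ∈ B, Iβ (β b) = κ (I' b) := by
      refine ⟨fun x => if hx : ∃ b ∈ B, β b = x then κ (I' hx.choose) else 0, fun b hb => ?_⟩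
      have hex : ∃ b' ∈ B, β b' = β b := ⟨b, hb, rfl⟩
      simp only [dif_pos hex]
      have h1 := hex.choose_spec
      rw [hβi _ (hB _ h1.1).1 b (hB b hb).1 h1.2]
    have hV1 := h.V1 (B.image β) Iβ (by
      intro x hx
      obtain ⟨b, hb, rfl⟩ := Finset.mem_image.1 hx
      refine ⟨hβ b (hB b hb).1, ?_⟩
      rw [hIβ b hb]
      exact hκ _ (hB b hb).2)
    have hBc : (B.image β).card = B.card := by
      refine Finset.card_image_of_injOn ?_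
      intro a ha b hb hab
      exact hβi a (hB a ha).1 b (hB b hb).1 hab
    have hCe : (fun b => c (Iβ b) b) '' ((B.image β : Finset ℕ) : Set ℕ) = C := by
      rw [hC, Finset.coe_image, image_image]
      refine image_congr fun b hb => ?_
      show c (Iβ (β b)) (β b) = _
      rw [hIβ b hb]
    rw [← hW, hCe, hBc] at hV1
    have h1 := rk_submod M (C ∪ W' ∪ P) W
    have h2 : rk M (W' ∪ P) ≤ rk M ((C ∪ W' ∪ P) ∩ W) := by
      refine rk_mono M ?_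
      rintro x (hx | hx)
      · exact ⟨Or.inl (Or.inr hx), hWW hx⟩
      · exact ⟨Or.inr hx, hPW hx⟩
    have h3 : rk M (C ∪ W) ≤ rk M ((C ∪ W' ∪ P) ∪ W) := by
      refine rk_mono M ?_
      rintro x (hx | hx)
      · exact Or.inl (Or.inl (Or.inl hx))
      · exact Or.inr hx
    omega
  · -- V2
    refine hVT.trans (Nat.add_le_add_right (rk_mono _ (union_subset_union_right _ ?_)) _)
    rintro x ⟨hx, hxT⟩
    refine ⟨hx, ?_⟩
    rintro ⟨i, hi, b, hb, rfl⟩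
    exact hxT ⟨κ i, hκ i hi, β b, b1 b hb, rfl⟩

end TSH
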