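import Pool.Agent.TST.RowCls

/-!
# An element and an exit on a circuit (pure matroid part of CLAIM A of T-star)

`K` is a circuit with the ends `p`, `q`; the exit `b` has the two classes of `p` and `q`.  `t` is
another element.  If no circuit goes through `p`, `q` and `b` then the changes of `t` are on one
side of the cut of `b`, up to the two exceptions of `star_cases`.
-/

set_option autoImplicit false

open Set
open scoped Matroid

namespace TST

variable {α : Type*} {M : Matroid α} {K : Set α} {t b b' x y z p q : α}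

lemma Eqv.refl : Eqv M K t x x := Or.inl rfl

/-- a circuit from a spanning independent set -/
lemma exists_circ {B : Set α} (hI : M.Indep B) (hb : b ∈ M.closure B) (hn : b ∉ B) :
    ∃ C ⊆ insert b B, M.IsCircuit C ∧ b ∈ C ∧ ∀ e, b ∉ M.closure (B \ {e}) → e ∈ C := by
  refine ⟨M.fundCircuit b B, M.fundCircuit_subset_insert _ _, hI.fundCircuit_isCircuit hb hn,
    M.mem_fundCircuit _ _, ?_⟩
  intro e he
  by_contra h
  have h1 := (hI.fundCircuit_isCircuit hb hn).mem_closure_sdiff_singleton_of_mem
    (M.mem_fundCircuit b B)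
  refine he (M.closure_subset_closure ?_ h1)
  rintro f ⟨hf, hfb⟩
  refine ⟨(M.fundCircuit_subset_insert b B hf).resolve_left hfb, ?_⟩
  intro h2
  exact h (h2 ▸ hf)

/-- If `x`, `y` are in different classes of `t` then `t` and `K - {x, y}` are a basis of `K`. -/
lemma basis_two (hK : M.IsCircuit K) (ht : t ∈ M.closure K) (hx : x ∈ K)
    (hy : y ∈ K) (hxy : ¬ Eqv M K t x y) : M.Indep (insert t (K \ {x, y})) ∧
      M.closure K ⊆ M.closure (insert t (K \ {x, y})) := by
  have hKE := hK.subset_ground
  have htE := M.closure_subset_ground _ ht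
  have hne : x ≠ y := fun h => hxy (Or.inl h)
  have h1 : t ∉ M.closure (K \ {x, y}) := fun h => hxy (Or.inr h)
  have hB : M.Indep (K \ {x, y}) := (hK.sdiff_singleton_indep hx).subset (by
    rintro e ⟨he1, he2⟩
    exact ⟨he1, fun h => he2 (Or.inl h)⟩)
  have hn : t ∉ K \ {x, y} := fun h => h1 (M.subset_closure _ (sdiff_subset.trans hKE) h)
  have hBt : M.Indep (insert t (K \ {x, y})) := (hB.notMem_closure_iff_of_notMem hn htE).1 h1
  refine ⟨hBt, ?_⟩
  have hyc : y ∈ M.closure (insert t (K \ {x, y})) := by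
    have h7 : t ∈ M.closure (insert y (K \ {x, y})) \ M.closure (K \ {x, y}) := by
      refine ⟨?_, h1⟩
      have e : insert y (K \ {x, y}) = K \ {x} := by
        ext f
        constructor
        · rintro (rfl | ⟨h8, h9⟩)
          · exact ⟨hy, fun h => hne h.symm⟩
          · exact ⟨h8, fun h => h9 (Or.inl h)⟩
        · rintro ⟨h8, h9⟩
          by_cases hfy : f = y
          · exact Or.inl hfy
          · refine Or.inr ⟨h8, ?_⟩
            rintro (h | h)
            · exact h9 h
            · exact hfy h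
      rw [e, hK.closure_sdiff_singleton_eq]
      exact ht
    exact (M.closure_exchange h7).1
  rw [← hK.closure_sdiff_singleton_eq x]
  refine M.closure_subset_closure_of_subset_closure ?_
  rintro e ⟨he, hex⟩
  by_cases hey : e = y
  · rw [hey]
    exact hyc
  · refine M.subset_closure _ (insert_subset htE (sdiff_subset.trans hKE)) ?_
    refine Or.inr ⟨he, ?_⟩
    rintro (h | h)
    · exact hex h
    · exact hey h

/-- **(star)** `x` is on the side of `p` and `y` on the side of `q` (for `b`); for `t` the elements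
`p`, `x` and `x`, `y` and `y`, `q` are in different classes.  Then `p`, `q`, `b` are in a circuit
without `x`, `y`. -/
theorem star_circ (hK : M.IsCircuit K) (htK : t ∉ K) (hbK : b ∉ K) (htb : t ≠ b)
    (ht : t ∈ M.closure K) (hb : b ∈ M.closure K) (hx : x ∈ K) (hy : y ∈ K)
    (hp : p ∈ K) (hq : q ∈ K) (h1 : Eqv M K b p x) (h2 : Eqv M K b y q)
    (h3 : ¬ Eqv M K b p q) (h4 : ¬ Eqv M K t p x) (h5 : ¬ Eqv M K t x y)
    (h6 : ¬ Eqv M K t y q) :
    ∃ C ⊆ insert b (insert t K), M.IsCircuit C ∧ b ∈ C ∧ p ∈ C ∧ q ∈ C ∧ x ∉ C ∧ y ∉ C := by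
  obtain ⟨hI, hS⟩ := basis_two hK ht hx hy h5
  have hpx : p ≠ x := fun h => h4 (Or.inl h)
  have hyq : y ≠ q := fun h => h6 (Or.inl h)
  have hpy : p ≠ y := fun h => h3 (h ▸ h2)
  have hxq : x ≠ q := fun h => h3 (h ▸ h1)
  have hbn : b ∉ insert t (K \ {x, y}) := by
    rintro (h | h)
    · exact htb h.symm
    · exact hbK h.1
  obtain ⟨C, hCs, hC, hbC, hCe⟩ := exists_circ hI (hS hb) hbn
  have hE : ∀ S ⊆ K, S ⊆ M.E := fun S hS => hS.trans hK.subset_ground
  refine ⟨C, ?_, hC, hbC, ?_, ?_, ?_, ?_⟩
  · intro e he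
    rcases hCs he with h | h | h
    · exact Or.inl h
    · exact Or.inr (Or.inl h)
    · exact Or.inr (Or.inr h.1)
  · refine hCe p fun h => ?_
    obtain ⟨F, hF⟩ : ∃ F, F = K \ {x, y, p} := ⟨_, rfl⟩
    have e1 : insert t (K \ {x, y}) \ {p} = insert t F := by
      rw [hF]
      ext e
      simp only [mem_sdiff, mem_insert_iff, mem_singleton_iff]
      constructor
      · rintro ⟨h7 | h7, h8⟩
        · exact Or.inl h7
        · refine Or.inr ⟨h7.1, ?_⟩
          rintro (h9 | h9 | h9)
          · exact h7.2 (Or.inl h9)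
          · exact h7.2 (Or.inr h9)
          · exact h8 h9
      · rintro (h7 | h7)
        · exact ⟨Or.inl h7, fun h8 => htK (by rw [← h7, h8]; exact hp)⟩
        · refine ⟨Or.inr ⟨h7.1, ?_⟩, fun h8 => h7.2 (Or.inr (Or.inr h8))⟩
          rintro (h9 | h9)
          · exact h7.2 (Or.inl h9)
          · exact h7.2 (Or.inr (Or.inl h9))
    rw [e1] at h
    have e2 : K \ {p, x} ⊆ M.closure (insert y F) := by
      refine Subset.trans ?_ (M.subset_closure _ (hE _ ?_))
      · rintro e ⟨he, hn⟩
        by_cases hey : e = y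
        · exact Or.inl hey
        · refine Or.inr ?_
          rw [hF]
          refine ⟨he, ?_⟩
          rintro (h9 | h9 | h9)
          · exact hn (Or.inr h9)
          · exact hey h9
          · exact hn (Or.inl h9)
      · rw [hF]
        exact insert_subset hy sdiff_subset
    have f1 : b ∈ M.closure (insert y F) := by
      rcases h1 with h1 | h1
      · exact absurd h1 hpx
      · exact M.closure_subset_closure_of_subset_closure e2 h1
    have f2 : b ∉ M.closure F := by
      intro h7
      have h8 : Eqv M K b p y := by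
        right
        refine M.closure_subset_closure ?_ h7
        rw [hF]
        rintro e ⟨he, hn⟩
        refine ⟨he, ?_⟩
        rintro (h9 | h9)
        · exact hn (Or.inr (Or.inr h9))
        · exact hn (Or.inr (Or.inl h9))
      exact h3 (h8.trans hK hy h2)
    have h7 := (M.closure_exchange ⟨h, f2⟩).1
    apply h4
    right
    have h8 : insert b F ⊆ M.closure (K \ {p, x}) := by
      have h9 : F ⊆ K \ {p, x} := by
        rw [hF]
        rintro e ⟨he, hn⟩
        refine ⟨he, ?_⟩
        rintro (h9 | h9)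
        · exact hn (Or.inr (Or.inr h9))
        · exact hn (Or.inl h9)
      refine insert_subset ?_ (h9.trans (M.subset_closure _ (hE _ sdiff_subset)))
      exact h1.resolve_left hpx
    exact M.closure_subset_closure_of_subset_closure h8 h7
  · refine hCe q fun h => ?_
    obtain ⟨F, hF⟩ : ∃ F, F = K \ {x, y, q} := ⟨_, rfl⟩
    have e1 : insert t (K \ {x, y}) \ {q} = insert t F := by
      rw [hF]
      ext e
      simp only [mem_sdiff, mem_insert_iff, mem_singleton_iff]
      constructor
      · rintro ⟨h7 | h7, h8⟩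
        · exact Or.inl h7
        · refine Or.inr ⟨h7.1, ?_⟩
          rintro (h9 | h9 | h9)
          · exact h7.2 (Or.inl h9)
          · exact h7.2 (Or.inr h9)
          · exact h8 h9
      · rintro (h7 | h7)
        · exact ⟨Or.inl h7, fun h8 => htK (by rw [← h7, h8]; exact hq)⟩
        · refine ⟨Or.inr ⟨h7.1, ?_⟩, fun h8 => h7.2 (Or.inr (Or.inr h8))⟩
          rintro (h9 | h9)
          · exact h7.2 (Or.inl h9)
          · exact h7.2 (Or.inr (Or.inl h9))
    rw [e1] at h
    have f2 : b ∉ M.closure F := by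
      intro h7
      have h8 : Eqv M K b x q := by
        right
        refine M.closure_subset_closure ?_ h7
        rw [hF]
        rintro e ⟨he, hn⟩
        refine ⟨he, ?_⟩
        rintro (h9 | h9)
        · exact hn (Or.inl h9)
        · exact hn (Or.inr (Or.inr h9))
      exact h3 (h1.trans hK hx h8)
    have h7 := (M.closure_exchange ⟨h, f2⟩).1
    apply h6
    right
    have h8 : insert b F ⊆ M.closure (K \ {y, q}) := by
      have h9 : F ⊆ K \ {y, q} := by
        rw [hF]
        rintro e ⟨he, hn⟩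
        refine ⟨he, ?_⟩
        rintro (h9 | h9)
        · exact hn (Or.inr (Or.inl h9))
        · exact hn (Or.inr (Or.inr h9))
      refine insert_subset ?_ (h9.trans (M.subset_closure _ (hE _ sdiff_subset)))
      exact h2.resolve_left hyq
    exact M.closure_subset_closure_of_subset_closure h8 h7
  · intro h
    rcases hCs h with h7 | h7 | h7
    · exact hbK (h7 ▸ hx)
    · exact htK (h7 ▸ hx)
    · exact h7.2 (Or.inl rfl)
  · intro h
    rcases hCs h with h7 | h7 | h7
    · exact hbK (h7 ▸ hy)
    · exact htK (h7 ▸ hy)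
    · exact h7.2 (Or.inr rfl)

/-- the other side of a class spans -/
lemma mem_cl_sdiff_cls (hK : M.IsCircuit K) (hbK : b ∉ K) (hb : b ∈ M.closure K) (hx : x ∈ K) :
    b ∈ M.closure (K \ Cls M K b x) := by
  have h1 := (cls_circuit hK hb hbK hx).mem_closure_sdiff_singleton_of_mem (mem_insert _ _)
  refine M.closure_subset_closure ?_ h1
  rintro e ⟨he, hne⟩
  exact he.resolve_left hne

/-- **(star), all cases.**  `b` has exactly the two classes of `p` and `q`.  Either the whole side
of `p` is in the class of `p` (for `t`), or the same for `q`, or `t` has one more class, and if `p`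
and `q` are in different classes of `t` then these classes stay on their sides. -/
theorem star_cases (hK : M.IsCircuit K) (htK : t ∉ K) (hbK : b ∉ K) (htb : t ≠ b)
    (ht : t ∈ M.closure K) (hb : b ∈ M.closure K) (hp : p ∈ K) (hq : q ∈ K)
    (h2 : ∀ x ∈ K, Eqv M K b p x ∨ Eqv M K b x q) (h3 : ¬ Eqv M K b p q)
    (hno : ∀ C ⊆ insert b (insert t K), M.IsCircuit C → b ∈ C → p ∈ C → q ∉ C) :
    (∀ x ∈ K, Eqv M K b p x → Eqv M K t p x) ∨ (∀ y ∈ K, Eqv M K b y q → Eqv M K t y q) ∨
    ∃ z ∈ K, ¬ Eqv M K t p z ∧ ¬ Eqv M K t z q ∧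
      (∀ x ∈ K, Eqv M K t p x ∨ Eqv M K t z x ∨ Eqv M K t x q) ∧
      (Eqv M K t p q ∨ ((∀ x ∈ K, Eqv M K t p x → Eqv M K b p x) ∧
        ∀ x ∈ K, Eqv M K t x q → Eqv M K b x q)) := by
  by_contra hcon
  push Not at hcon
  obtain ⟨⟨x, hx, hx1, hx2⟩, ⟨y, hy, hy1, hy2⟩, hcon⟩ := hcon
  have key : ∀ x ∈ K, ∀ y ∈ K, Eqv M K b p x → Eqv M K b y q → ¬ Eqv M K t p x →
      ¬ Eqv M K t y q → Eqv M K t x y := by
    intro x hx y hy h4 h5 h6 h7
    by_contra h8
    obtain ⟨C, hC, hC1, hC2, hC3, hC4, -⟩ := star_circ hK htK hbK htb ht hb hx hy hp hq h4 h5 h3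
      h6 h8 h7
    exact hno C hC hC1 hC2 hC3 hC4
  have hxy := key x hx y hy hx1 hy1 hx2 hy2
  have hxq : ¬ Eqv M K t x q := fun h => hy2 ((hxy.symm.trans hK hx h))
  have hpy : ¬ Eqv M K t p y := fun h => hx2 (h.trans hK hy hxy.symm)
  obtain ⟨h4, h6⟩ := hcon x hx hx2 hxq (fun w hw => by
    by_contra h7
    push Not at h7
    obtain ⟨h7, h8, h9⟩ := h7
    rcases h2 w hw with h10 | h10
    · exact h8 (hxy.trans hK hy (key w hw y hy h10 hy1 h7 hy2).symm)
    · exact h8 (key x hx w hw hx1 h10 hx2 h9))
  obtain ⟨w, hw, h7, h8⟩ := h6 (fun w hw h7 => by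
    by_contra h8
    have h9 := (h2 w hw).resolve_left h8
    have h10 : ¬ Eqv M K t w q := fun h => h4 (h7.trans hK hw h)
    have h11 := key x hx w hw hx1 h9 hx2 h10
    exact hx2 (h7.trans hK hw h11.symm))
  have h9 := (h2 w hw).resolve_right h8
  have h10 : ¬ Eqv M K t p w := fun h => h4 (h.trans hK hw h7)
  have h11 := key w hw y hy h9 hy1 h10 hy2
  exact hy2 (h11.symm.trans hK hw h7)

/-- **(pair cut)** Two exits `b`, `b'` with nested cuts; `x`, `y`, `z` are on the left of `b`, between
`b` and `b'`, on the right of `b'`.  If neighbours in `p`, `x`, `y`, `z`, `q` are in different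
classes of `t` then `p`, `q`, `b`, `b'` are in a circuit. -/
theorem pair_circ (hK : M.IsCircuit K) (htK : t ∉ K) (hbK : b ∉ K) (hbK' : b' ∉ K) (htb : t ≠ b)
    (htb' : t ≠ b') (hbb : b ≠ b') (ht : t ∈ M.closure K) (hb : b ∈ M.closure K)
    (hb' : b' ∈ M.closure K) (hx : x ∈ K) (hy : y ∈ K) (hz : z ∈ K) (hp : p ∈ K) (hq : q ∈ K)
    (b1 : Eqv M K b p x) (b2 : Eqv M K b y z) (b3 : Eqv M K b z q) (b4 : ¬ Eqv M K b p q)
    (c1 : Eqv M K b' p x) (c2 : Eqv M K b' x y) (c3 : Eqv M K b' z q) (c4 : ¬ Eqv M K b' p q)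
    (t1 : ¬ Eqv M K t p x) (t2 : ¬ Eqv M K t x y) (t3 : ¬ Eqv M K t y z) (t4 : ¬ Eqv M K t z q) :
    ∃ C ⊆ insert b' (insert b (insert t K)), M.IsCircuit C ∧ b' ∈ C ∧ b ∈ C ∧ p ∈ C ∧ q ∈ C ∧
      x ∉ C ∧ y ∉ C ∧ z ∉ C := by
  have hKE := hK.subset_ground
  -- the elements are different
  have hpx : p ≠ x := fun h => t1 (Or.inl h)
  have hxy : x ≠ y := fun h => t2 (Or.inl h)
  have hyz : y ≠ z := fun h => t3 (Or.inl h)
  have hzq : z ≠ q := fun h => t4 (Or.inl h)
  have hxz : x ≠ z := by
    rintro rfl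
    exact b4 (b1.trans hK hx b3)
  have hpy : p ≠ y := by
    rintro rfl
    exact b4 ((b2.trans hK hz b3))
  have hpz : p ≠ z := by
    rintro rfl
    exact b4 b3
  have hxq : x ≠ q := by
    rintro rfl
    exact b4 b1
  have hyq : y ≠ q := by
    rintro rfl
    exact c4 (c1.trans hK hx c2)
  -- `b` spans from both sides
  have bxy : ¬ Eqv M K b x y := fun h => b4 (((b1.trans hK hx h).trans hK hy b2).trans hK hz b3)
  have cyz : ¬ Eqv M K b' y z := fun h => c4 (((c1.trans hK hx c2).trans hK hy h).trans hK hz c3)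
  have inb : ∀ (w : α) (S : Set α), w ∈ K → (∀ e ∈ K, e ∉ S → Eqv M K b w e) →
      b ∈ M.closure S := by
    intro w S h2 h1
    refine M.closure_subset_closure ?_ (mem_cl_sdiff_cls hK hbK hb h2)
    rintro e ⟨he, hne⟩
    by_contra h3
    exact hne ⟨he, h1 e he h3⟩
  have inb' : ∀ (w : α) (S : Set α), w ∈ K → (∀ e ∈ K, e ∉ S → Eqv M K b' w e) →
      b' ∈ M.closure S := by
    intro w S h2 h1
    refine M.closure_subset_closure ?_ (mem_cl_sdiff_cls hK hbK' hb' h2)
    rintro e ⟨he, hne⟩
    by_contra h3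
    exact hne ⟨he, h1 e he h3⟩
  have hE : ∀ S ⊆ K, S ⊆ M.closure S := fun S hS => M.subset_closure _ (hS.trans hKE)
  have htE := M.closure_subset_ground _ ht
  have hbE := M.closure_subset_ground _ hb
  have hbE' := M.closure_subset_ground _ hb'
  obtain ⟨F, hF⟩ : ∃ F, F = K \ {x, y, z} := ⟨_, rfl⟩
  have hFK : F ⊆ K := by
    rw [hF]
    exact sdiff_subset
  have mF : ∀ e, e ∈ F ↔ e ∈ K ∧ e ≠ x ∧ e ≠ y ∧ e ≠ z := by
    intro e
    rw [hF]
    simp only [mem_sdiff, mem_insert_iff, mem_singleton_iff, not_or, ne_eq]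
  have mono : ∀ {a : α} {S T : Set α}, a ∈ M.closure S → (∀ e ∈ S, e ∈ T) → a ∈ M.closure T :=
    fun h1 h2 => M.closure_subset_closure h2 h1
  obtain ⟨hI, hS⟩ := basis_two hK ht hx hy t2
  -- `b` is independent of `t`, `F`
  have s2 : b ∉ M.closure (insert t F) := by
    intro h1
    have h2 : b ∉ M.closure F := fun h2 => bxy (Or.inr (mono h2 (fun e he => by
      obtain ⟨g1, g2, g3, g4⟩ := (mF e).1 he
      exact ⟨g1, by rintro (h | h); exacts [g2 h, g3 h]⟩)))
    have h3 := (M.closure_exchange ⟨h1, h2⟩).1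
    have h4 : b ∈ M.closure (insert x F) := inb y _ hy (fun e he hn => by
      have h5 : e = y ∨ e = z := by
        by_contra h6
        push Not at h6
        apply hn
        by_cases h7 : e = x
        · exact Or.inl h7
        · exact Or.inr ((mF e).2 ⟨he, h7, h6.1, h6.2⟩)
      rcases h5 with rfl | rfl
      · exact Or.inl rfl
      · exact b2)
    have h5 : insert b F ⊆ M.closure (insert x F) := insert_subset h4
      ((subset_insert _ _).trans (hE _ (insert_subset hx hFK)))
    have h6 := M.closure_subset_closure_of_subset_closure h5 h3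
    refine t3 (Or.inr (mono h6 ?_))
    rintro e (rfl | he)
    · exact ⟨hx, by rintro (h | h); exacts [hxy h, hxz h]⟩
    · obtain ⟨g1, g2, g3, g4⟩ := (mF e).1 he
      exact ⟨g1, by rintro (h | h); exacts [g3 h, g4 h]⟩
  have e1 : insert z (insert t F) = insert t (K \ {x, y}) := by
    ext e
    constructor
    · rintro (rfl | rfl | he)
      · exact Or.inr ⟨hz, by rintro (h | h); exacts [hxz h.symm, hyz h.symm]⟩
      · exact Or.inl rfl
      · obtain ⟨g1, g2, g3, g4⟩ := (mF e).1 he
        exact Or.inr ⟨g1, by rintro (h | h); exacts [g2 h, g3 h]⟩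
    · rintro (rfl | ⟨he, hn⟩)
      · exact Or.inr (Or.inl rfl)
      · by_cases h7 : e = z
        · exact Or.inl h7
        · exact Or.inr (Or.inr ((mF e).2 ⟨he, fun h => hn (Or.inl h), fun h => hn (Or.inr h), h7⟩))
  have hbn : b ∉ insert t F := by
    rintro (h | h)
    · exact htb h.symm
    · exact hbK (hFK h)
  have hI2 : M.Indep (insert b (insert t F)) :=
    ((hI.subset (by rw [← e1]; exact subset_insert _ _)).notMem_closure_iff_of_notMem hbn hbE).1 s2
  have hzc : z ∈ M.closure (insert b (insert t F)) := by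
    refine (M.closure_exchange ⟨?_, s2⟩).1
    rw [e1]
    exact hS hb
  have hS2 : M.closure K ⊆ M.closure (insert b (insert t F)) := by
    refine hS.trans (M.closure_subset_closure_of_subset_closure ?_)
    rw [← e1]
    refine insert_subset hzc ?_
    exact (subset_insert _ _).trans (M.subset_closure _ (insert_subset hbE (insert_subset htE
      (hFK.trans hKE))))
  have hbn' : b' ∉ insert b (insert t F) := by
    rintro (h | h | h)
    · exact hbb h.symm
    · exact htb' h.symm
    · exact hbK' (hFK h)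
  obtain ⟨C, hCs, hC, hbC, hCe⟩ := exists_circ hI2 (hS2 hb') hbn'
  refine ⟨C, ?_, hC, hbC, ?_, ?_, ?_, ?_, ?_, ?_⟩
  · intro e he
    rcases hCs he with h | h | h | h
    · exact Or.inl h
    · exact Or.inr (Or.inl h)
    · exact Or.inr (Or.inr (Or.inl h))
    · exact Or.inr (Or.inr (Or.inr (hFK h)))
  · -- `b ∈ C`
    refine hCe b fun h => ?_
    have h1 : b' ∈ M.closure (insert t F) := mono h (by
      rintro e ⟨h1 | h1, h2⟩
      · exact absurd h1 h2
      · exact h1)
    have h2 : b' ∉ M.closure F := fun h2 => cyz (Or.inr (mono h2 (fun e he => by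
      obtain ⟨g1, g2, g3, g4⟩ := (mF e).1 he
      exact ⟨g1, by rintro (h | h); exacts [g3 h, g4 h]⟩)))
    have h3 := (M.closure_exchange ⟨h1, h2⟩).1
    have h4 : b' ∈ M.closure (insert z F) := inb' x _ hx (fun e he hn => by
      have h5 : e = x ∨ e = y := by
        by_contra h6
        push Not at h6
        apply hn
        by_cases h7 : e = z
        · exact Or.inl h7
        · exact Or.inr ((mF e).2 ⟨he, h6.1, h6.2, h7⟩)
      rcases h5 with rfl | rfl
      · exact Or.inl rfl
      · exact c2)
    have h5 : insert b' F ⊆ M.closure (insert z F) := insert_subset h4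
      ((subset_insert _ _).trans (hE _ (insert_subset hz hFK)))
    have h6 := M.closure_subset_closure_of_subset_closure h5 h3
    refine t2 (Or.inr (mono h6 ?_))
    rintro e (rfl | he)
    · exact ⟨hz, by rintro (h | h); exacts [hxz h.symm, hyz h.symm]⟩
    · obtain ⟨g1, g2, g3, g4⟩ := (mF e).1 he
      exact ⟨g1, by rintro (h | h); exacts [g2 h, g3 h]⟩
  · -- `p ∈ C`
    refine hCe p fun h => ?_
    obtain ⟨G, hG⟩ : ∃ G, G = K \ {x, y, z, p} := ⟨_, rfl⟩
    have mG : ∀ e, e ∈ G ↔ e ∈ K ∧ e ≠ x ∧ e ≠ y ∧ e ≠ z ∧ e ≠ p := by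
      intro e
      rw [hG]
      simp only [mem_sdiff, mem_insert_iff, mem_singleton_iff, not_or, ne_eq]
    have hGK : G ⊆ K := by
      rw [hG]
      exact sdiff_subset
    have h1 : b' ∈ M.closure (insert b (insert t G)) := mono h (by
      rintro e ⟨h1 | h1 | h1, h2⟩
      · exact Or.inl h1
      · exact Or.inr (Or.inl h1)
      · obtain ⟨g1, g2, g3, g4⟩ := (mF e).1 h1
        exact Or.inr (Or.inr ((mG e).2 ⟨g1, g2, g3, g4, h2⟩)))
    have h2 : b' ∈ M.closure (insert z G) := inb' p _ hp (fun e he hn => by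
      have h5 : e = x ∨ e = y ∨ e = p := by
        by_contra h6
        push Not at h6
        apply hn
        by_cases h7 : e = z
        · exact Or.inl h7
        · exact Or.inr ((mG e).2 ⟨he, h6.1, h6.2.1, h7, h6.2.2⟩)
      rcases h5 with rfl | rfl | rfl
      · exact c1
      · exact c1.trans hK hx c2
      · exact Or.inl rfl)
    have h3 : b' ∉ M.closure G := fun h3 => cyz (Or.inr (mono h3 (fun e he => by
      obtain ⟨g1, g2, g3, g4, g5⟩ := (mG e).1 he
      exact ⟨g1, by rintro (h | h); exacts [g3 h, g4 h]⟩)))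
    have h4 : z ∈ M.closure (insert b' G) := (M.closure_exchange ⟨h2, h3⟩).1
    have hGE := hGK.trans hKE
    have h5 : z ∈ M.closure (insert b (insert t G)) := by
      refine M.closure_subset_closure_of_subset_closure (insert_subset h1 ?_) h4
      exact ((subset_insert _ _).trans (subset_insert _ _)).trans
        (M.subset_closure _ (insert_subset hbE (insert_subset htE hGE)))
    have h6 : b ∈ M.closure (insert x (insert p G)) := inb y _ hy (fun e he hn => by
      have h5 : e = y ∨ e = z := by
        by_contra h6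
        push Not at h6
        apply hn
        by_cases h7 : e = x
        · exact Or.inl h7
        · by_cases h8 : e = p
          · exact Or.inr (Or.inl h8)
          · exact Or.inr (Or.inr ((mG e).2 ⟨he, h7, h6.1, h6.2, h8⟩))
      rcases h5 with rfl | rfl
      · exact Or.inl rfl
      · exact b2)
    have h7 : z ∉ M.closure (insert b G) := by
      intro h7
      have h8 : insert b G ⊆ M.closure (insert x (insert p G)) := insert_subset h6
        (((subset_insert _ _).trans (subset_insert _ _)).trans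
          (hE _ (insert_subset hx (insert_subset hp hGK))))
      have h9 := M.closure_subset_closure_of_subset_closure h8 h7
      refine (hK.sdiff_singleton_indep hy).notMem_closure_sdiff_of_mem ⟨hz, fun h => hyz h.symm⟩
        (mono h9 ?_)
      rintro e (rfl | rfl | he)
      · exact ⟨⟨hx, hxy⟩, hxz⟩
      · exact ⟨⟨hp, hpy⟩, hpz⟩
      · obtain ⟨g1, g2, g3, g4, g5⟩ := (mG e).1 he
        exact ⟨⟨g1, g3⟩, g4⟩
    have h8 : t ∈ M.closure (insert z (insert b G)) := by
      refine (M.closure_exchange ⟨?_, h7⟩).1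
      rwa [insert_comm]
    have h9 : b ∈ M.closure (insert y (insert z G)) := inb p _ hp (fun e he hn => by
      have h5 : e = x ∨ e = p := by
        by_contra h6
        push Not at h6
        apply hn
        by_cases h7 : e = y
        · exact Or.inl h7
        · by_cases h8 : e = z
          · exact Or.inr (Or.inl h8)
          · exact Or.inr (Or.inr ((mG e).2 ⟨he, h6.1, h7, h8, h6.2⟩))
      rcases h5 with rfl | rfl
      · exact b1
      · exact Or.inl rfl)
    have h10 : insert z (insert b G) ⊆ M.closure (insert y (insert z G)) := by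
      have h11 := hE _ (insert_subset hy (insert_subset hz hGK))
      refine insert_subset (h11 (Or.inr (Or.inl rfl))) (insert_subset h9 ?_)
      exact ((subset_insert _ _).trans (subset_insert _ _)).trans h11
    have h11 := M.closure_subset_closure_of_subset_closure h10 h8
    refine t1 (Or.inr (mono h11 ?_))
    rintro e (rfl | rfl | he)
    · exact ⟨hy, by rintro (h | h); exacts [hpy h.symm, hxy h.symm]⟩
    · exact ⟨hz, by rintro (h | h); exacts [hpz h.symm, hxz h.symm]⟩
    · obtain ⟨g1, g2, g3, g4, g5⟩ := (mG e).1 he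
      exact ⟨g1, by rintro (h | h); exacts [g5 h, g2 h]⟩
  · -- `q ∈ C`
    refine hCe q fun h => ?_
    obtain ⟨G, hG⟩ : ∃ G, G = K \ {x, y, z, q} := ⟨_, rfl⟩
    have mG : ∀ e, e ∈ G ↔ e ∈ K ∧ e ≠ x ∧ e ≠ y ∧ e ≠ z ∧ e ≠ q := by
      intro e
      rw [hG]
      simp only [mem_sdiff, mem_insert_iff, mem_singleton_iff, not_or, ne_eq]
    have hGK : G ⊆ K := by
      rw [hG]
      exact sdiff_subset
    have h1 : b' ∈ M.closure (insert b (insert t G)) := mono h (by
      rintro e ⟨h1 | h1 | h1, h2⟩
      · exact Or.inl h1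
      · exact Or.inr (Or.inl h1)
      · obtain ⟨g1, g2, g3, g4⟩ := (mF e).1 h1
        exact Or.inr (Or.inr ((mG e).2 ⟨g1, g2, g3, g4, h2⟩)))
    have h2 : b ∈ M.closure (insert x G) := inb y _ hy (fun e he hn => by
      have h5 : e = y ∨ e = z ∨ e = q := by
        by_contra h6
        push Not at h6
        apply hn
        by_cases h7 : e = x
        · exact Or.inl h7
        · exact Or.inr ((mG e).2 ⟨he, h7, h6.1, h6.2.1, h6.2.2⟩)
      rcases h5 with rfl | rfl | rfl
      · exact Or.inl rfl
      · exact b2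
      · exact b2.trans hK hz b3)
    have h3 : b' ∈ M.closure (insert t (insert x G)) := by
      have h4 := M.subset_closure (insert t (insert x G)) (insert_subset htE
        (insert_subset (hKE hx) (hGK.trans hKE)))
      refine M.closure_subset_closure_of_subset_closure (insert_subset ?_ (insert_subset
        (h4 (Or.inl rfl)) (((subset_insert _ _).trans (subset_insert _ _)).trans h4))) h1
      exact M.closure_subset_closure (subset_insert _ _) h2
    have h4 : b' ∉ M.closure (insert x G) := fun h3 => cyz (Or.inr (mono h3 (by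
      rintro e (rfl | he)
      · exact ⟨hx, by rintro (h | h); exacts [hxy h, hxz h]⟩
      · obtain ⟨g1, g2, g3, g4, g5⟩ := (mG e).1 he
        exact ⟨g1, by rintro (h | h); exacts [g3 h, g4 h]⟩)))
    have h5 : t ∈ M.closure (insert b' (insert x G)) := (M.closure_exchange ⟨h3, h4⟩).1
    have h6 : b' ∈ M.closure (insert x (insert y G)) := inb' z _ hz (fun e he hn => by
      have h5 : e = z ∨ e = q := by
        by_contra h6
        push Not at h6
        apply hn
        by_cases h7 : e = x
        · exact Or.inl h7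
        · by_cases h8 : e = y
          · exact Or.inr (Or.inl h8)
          · exact Or.inr (Or.inr ((mG e).2 ⟨he, h7, h8, h6.1, h6.2⟩))
      rcases h5 with rfl | rfl
      · exact Or.inl rfl
      · exact c3)
    have h7 : insert b' (insert x G) ⊆ M.closure (insert x (insert y G)) := by
      have h11 := hE _ (insert_subset hx (insert_subset hy hGK))
      refine insert_subset h6 (insert_subset (h11 (Or.inl rfl)) ?_)
      exact ((subset_insert _ _).trans (subset_insert _ _)).trans h11
    have h8 := M.closure_subset_closure_of_subset_closure h7 h5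
    refine t4 (Or.inr (mono h8 ?_))
    rintro e (rfl | rfl | he)
    · exact ⟨hx, by rintro (h | h); exacts [hxz h, hxq h]⟩
    · exact ⟨hy, by rintro (h | h); exacts [hyz h, hyq h]⟩
    · obtain ⟨g1, g2, g3, g4, g5⟩ := (mG e).1 he
      exact ⟨g1, by rintro (h | h); exacts [g4 h, g5 h]⟩
  all_goals
    intro h
    rcases hCs h with h1 | h1 | h1 | h1
  · exact hbK' (h1 ▸ hx)
  · exact hbK (h1 ▸ hx)
  · exact htK (h1 ▸ hx)
  · exact ((mF x).1 h1).2.1 rfl
  · exact hbK' (h1 ▸ hy)
  · exact hbK (h1 ▸ hy)
  · exact htK (h1 ▸ hy)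
  · exact ((mF y).1 h1).2.2.1 rfl
  · exact hbK' (h1 ▸ hz)
  · exact hbK (h1 ▸ hz)
  · exact htK (h1 ▸ hz)
  · exact ((mF z).1 h1).2.2.2 rfl

end TST
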