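import Pool.Agent.TST.SGDefs

/-!
# Lemmas for the graph of the strip (host of T-star)

`cel_eq`: the spanning trees of the parts are all contracted elements.  `FrmU.relabel`: injective
renaming of the vertices.  `FrmU.indep_rank`: adding elements with vertices of their own.
-/

open Set Relation
open scoped Matroid

namespace TST

open BIC Gad EN BICS Mdl

section general

variable {α V V' : Type*} {M : Matroid α} {S : Set α} {ends : α → Sym2 V} {u : ℕ}

/-- Injective renaming of the vertices. -/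
theorem FrmU.relabel [M.Finite] (hF : FrmU M S ends u) {φ : V → V'} {ends' : α → Sym2 V'}
    (he : ∀ e ∈ S, ends' e = (ends e).map φ)
    (hinj : ∀ v w, (∃ e ∈ S, v ∈ ends e) → (∃ e ∈ S, w ∈ ends e) → φ v = φ w → v = w) :
    FrmU M S ends' u := by
  classical
  refine ⟨hF.sub, ?_, ?_⟩
  · intro v' e he' hv' hcl
    rw [he e he', Sym2.mem_map] at hv'
    obtain ⟨v, hv, rfl⟩ := hv'
    refine hF.star v e he' hv (M.closure_subset_closure ?_ hcl)
    rintro x ⟨hx, hx2⟩
    refine ⟨hx, fun w hw => ?_⟩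
    rintro rfl
    exact hx2 (φ w) (by rw [he x hx, Sym2.mem_map]; exact ⟨w, hw, rfl⟩) rfl
  · intro W hW
    set W₀ : Set V := {v | (∃ e ∈ S, v ∈ ends e) ∧ φ v ∈ W} with hW₀
    have hmap : φ '' W₀ ⊆ W := by
      rintro _ ⟨v, hv, rfl⟩
      exact hv.2
    have hio : InjOn φ W₀ := fun v hv w hw h => hinj v w hv.1 hw.1 h
    have hfin : W₀.Finite := Set.Finite.of_finite_image (hW.subset hmap) hio
    have h1 := hF.rk W₀ hfin
    have h2 : W₀.ncard ≤ W.ncard := by
      rw [← hio.ncard_image]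
      exact ncard_le_ncard hmap hW
    have h3 : ins S ends' W ⊆ ins S ends W₀ := by
      rintro x ⟨hx, hx2⟩
      refine ⟨hx, fun v hv => ⟨⟨x, hx, hv⟩, hx2 _ ?_⟩⟩
      rw [he x hx, Sym2.mem_map]
      exact ⟨v, hv, rfl⟩
    exact (BIC.rk_mono M h3).trans (by omega)

/-- Elements with vertices of their own, in the order of the ranks. -/
theorem FrmU.indep_rank [M.Finite] (hF : FrmU M S ends u) {I : Set α} (hI : M.Indep I)
    (hIS : I ⊆ S) (ν : α → V) (ρ : α → ℕ) (D : Set α) (hDS : D ⊆ S)
    (hν : ∀ e ∈ D, ν e ∈ ends e) (h1 : ∀ e ∈ D, ∀ e' ∈ I, ν e ∉ ends e')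
    (h2 : ∀ e ∈ D, ∀ e' ∈ D, e' ≠ e → ρ e' ≤ ρ e → ν e ∉ ends e') : M.Indep (I ∪ D) := by
  classical
  have hDf : D.Finite := M.ground_finite.subset (hDS.trans hF.sub)
  have key : ∀ n : ℕ, ∀ D' ⊆ D, D'.ncard = n → M.Indep (I ∪ D') := by
    intro n
    induction n with
    | zero =>
      intro D' hD' hn
      have h3 : D' = ∅ := (ncard_eq_zero (hDf.subset hD')).1 hn
      rw [h3, union_empty]
      exact hI
    | succ n ih =>
      intro D' hD' hn
      have hD'f := hDf.subset hD'
      have hne : D'.Nonempty := by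
        rw [← ncard_pos hD'f]; omega
      obtain ⟨e, he, hmax⟩ := Set.exists_max_image D' ρ hD'f hne
      have h3 : M.Indep (I ∪ (D' \ {e})) := by
        refine ih _ (sdiff_subset.trans hD') ?_
        rw [ncard_sdiff_singleton_of_mem he, hn]
        omega
      have h4 := hF.leaf h3 (union_subset hIS (sdiff_subset.trans (hD'.trans hDS))) (v := ν e) ?_
        (hDS (hD' he)) (hν e (hD' he))
      · have e1 : insert e (I ∪ (D' \ {e})) = I ∪ D' := by
          ext f
          simp only [mem_insert_iff, mem_union, mem_sdiff, mem_singleton_iff]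
          constructor
          · rintro (rfl | h | ⟨h, _⟩)
            · exact Or.inr he
            · exact Or.inl h
            · exact Or.inr h
          · rintro (h | h)
            · exact Or.inr (Or.inl h)
            · by_cases hfe : f = e
              · exact Or.inl hfe
              · exact Or.inr (Or.inr ⟨h, hfe⟩)
        rw [← e1]
        exact h4
      · rintro f (hf | ⟨hf, hfe⟩) hwf
        · exact h1 e (hD' he) f hf hwf
        · exact h2 e (hD' he) f (hD' hf) hfe (hmax f hf) hwf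
  exact key _ D (subset_refl _) rfl

/-! ### `eQ` -/

lemma eQ_loop {VQ : Set V} {e : α} {v w : V} (he : ends e = s(v, w)) (hv : v ∉ VQ)
    (hw : w ∈ VQ) : eQ VQ ends e = s(v, v) := by
  classical
  have h : ∃ v w, ends e = s(v, w) ∧ v ∉ VQ ∧ w ∈ VQ := ⟨v, w, he, hv, hw⟩
  unfold eQ
  rw [dif_pos h]
  obtain ⟨w', h1, h2, h3⟩ := h.choose_spec
  generalize h.choose = z at h1 h2 h3 ⊢
  have h1' := he.symm.trans h1
  have h4 : z = v := by
    rcases Sym2.eq_iff.1 h1' with ⟨h5, _⟩ | ⟨h5, h6⟩
    · exact h5.symm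
    · rw [← h6] at h2
      exact absurd hw h2
  rw [h4]

lemma eQ_of_notMem {VQ : Set V} {e : α} (he : ∀ v ∈ ends e, v ∉ VQ) : eQ VQ ends e = ends e := by
  classical
  unfold eQ
  rw [dif_neg]
  rintro ⟨v, w, h1, _, h3⟩
  exact he w (by rw [h1]; simp) h3

lemma mem_eQ {VQ : Set V} {e : α} {v : V} (h : v ∈ eQ VQ ends e) : v ∈ ends e := by
  classical
  unfold eQ at h
  split_ifs at h with h1
  · obtain ⟨w, h2, _, _⟩ := h1.choose_spec
    rw [Sym2.mem_iff] at h
    have h4 : v = h1.choose := by rcases h with h | h <;> exact h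
    generalize h1.choose = z at h2 h4
    rw [h4]
    rw [h2]
    simp
  · exact h

lemma eQ_notMem {VQ : Set V} {e : α} (he : e ∈ SQ VQ S ends) {v : V} (h : v ∈ eQ VQ ends e) :
    v ∉ VQ := by
  classical
  by_cases h1 : ∃ v w, ends e = s(v, w) ∧ v ∉ VQ ∧ w ∈ VQ
  · obtain ⟨v', w', h2, h3, h4⟩ := h1
    rw [eQ_loop h2 h3 h4, Sym2.mem_iff] at h
    rcases h with rfl | rfl <;> exact h3
  · intro hv
    obtain ⟨v₀, hv₀, hv₀Q⟩ := he.2
    have hv' := mem_eQ h
    apply h1
    refine ⟨v₀, v, ?_, hv₀Q, hv⟩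
    have hne : v₀ ≠ v := fun h => hv₀Q (h ▸ hv)
    exact ((Sym2.mem_and_mem_iff hne).1 ⟨hv₀, hv'⟩)

end general

section cel

variable {α X₀ β : Type*} {W : RW X₀ β} {K : β → Finset ℕ} {S : Set α}
  {ends : α → Sym2 (Nd X₀ β)} {el : β → ℕ → α}

/-- at an inner node there are two elements of the rows only -/
lemma mem_row_inner (hR : RowIn W S ends el) {r r' : β} {p q : ℕ} (h0 : 0 < p)
    (hp : p < W.len r) (hq : q < W.len r') (h : W.nd r p ∈ ends (el r' q)) :
    r' = r ∧ (q = p ∨ q + 1 = p) := by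
  rw [hR.ends r' q hq, W.nd_mid h0 hp] at h
  have key : ∀ t, (Sum.inr (r, p) : Nd X₀ β) = W.nd r' t → r' = r ∧ t = p := by
    intro t ht
    unfold RW.nd at ht
    split_ifs at ht with h1 h2
    simp only [Sum.inr.injEq, Prod.mk.injEq] at ht
    exact ⟨ht.1.symm, ht.2.symm⟩
  rcases Sym2.mem_iff.1 h with h | h
  · obtain ⟨h1, h2⟩ := key _ h
    exact ⟨h1, Or.inl h2⟩
  · obtain ⟨h1, h2⟩ := key _ h
    exact ⟨h1, Or.inr h2⟩

/-- **The trees are everything.** -/
theorem cel_eq (hR : RowIn W S ends el) (hK : ∀ r, ∀ x ∈ K r, x < W.len r)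
    (hne : ∀ r, (K r).Nonempty) {F : Nd X₀ β → Set α} (hF : ∀ P, F P ⊆ cel W K el)
    (htree : ∀ P, (prt (spi W K) P = ∅ ∧ F P = ∅) ∨ Arb S ends (prt (spi W K) P) (F P)) :
    FO F univ = cel W K el := by
  classical
  apply subset_antisymm
  · intro e he
    obtain ⟨P, _, he⟩ := mem_FO.1 he
    exact hF P he
  intro e he
  obtain ⟨P, hP⟩ := cel_part hR hK hne he
  by_contra hne'
  have heF : e ∉ F P := fun h => hne' (mem_FO.2 ⟨P, mem_univ _, h⟩)
  obtain ⟨r, p, hp, hpK, rfl⟩ := he
  have hu : spi W K (W.nd r p) = some P := hP _ (by rw [hR.ends r p hp]; simp)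
  have hv : spi W K (W.nd r (p + 1)) = some P := hP _ (by rw [hR.ends r p hp]; simp)
  have hA : Arb S ends (prt (spi W K) P) (F P) := by
    rcases htree P with ⟨h, _⟩ | h
    · have : W.nd r p ∈ prt (spi W K) P := hu
      rw [h] at this
      exact absurd this (Set.notMem_empty _)
    · exact h
  -- an interval `[a, b]` of inner nodes, closed under the other elements
  obtain ⟨a, b, ha0, hab, hb, hAP, hout, hcl⟩ : ∃ a b : ℕ, 0 < a ∧ a ≤ b ∧ b < W.len r ∧
      (∀ t, a ≤ t → t ≤ b → spi W K (W.nd r t) = some P) ∧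
      (∃ w, w ∈ prt (spi W K) P ∧ ∀ t, a ≤ t → t ≤ b → W.nd r t ≠ w) ∧
      (∀ q, q < W.len r → q ∉ K r → q ≠ p → (∃ t, a ≤ t ∧ t ≤ b ∧ (q = t ∨ q + 1 = t)) →
        a ≤ q ∧ q < b) := by
    by_cases hx : ∃ x ∈ K r, x < p
    · -- the last kept position before `p`
      obtain ⟨x, hx, hmax⟩ := Finset.exists_max_image ((K r).filter (· < p)) id
        (by obtain ⟨x, h1, h2⟩ := hx; exact ⟨x, Finset.mem_filter.2 ⟨h1, h2⟩⟩)
      rw [Finset.mem_filter] at hx
      have hmax' : ∀ y ∈ K r, y < p → y ≤ x := fun y hy hyp =>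
        hmax y (Finset.mem_filter.2 ⟨hy, hyp⟩)
      refine ⟨x + 1, p, by omega, by omega, hp, ?_, ⟨W.nd r (p + 1), hv, ?_⟩, ?_⟩
      · intro t h1 h2
        rw [spi_nd hK hne (by omega)] at hu ⊢
        rw [← hu]
        have h3 : cnt K r t = cnt K r p := by
          unfold cnt
          congr 1
          ext y
          simp only [Finset.mem_filter]
          constructor
          · rintro ⟨h4, h5⟩
            exact ⟨h4, by omega⟩
          · rintro ⟨h4, h5⟩
            have := hmax' y h4 h5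
            exact ⟨h4, by omega⟩
        rw [h3]
      · intro t h1 h2 h3
        rw [W.nd_mid (by omega) (by omega)] at h3
        unfold RW.nd at h3
        split_ifs at h3 with h4 h5
        all_goals
          have h7 := congrArg Prod.snd (Sum.inr.inj h3)
          simp only at h7
          omega
      · rintro q hq hqK hqp ⟨t, h1, h2, h3⟩
        have hqx : q ≠ x := fun h => hqK (h ▸ hx.1)
        omega
    · push Not at hx
      obtain ⟨y₀, hy₀⟩ := hne r
      obtain ⟨y, hy, hmin⟩ := Finset.exists_min_image (K r) id ⟨y₀, hy₀⟩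
      have hmin' : ∀ z ∈ K r, y ≤ z := fun z hz => hmin z hz
      have hyp : p < y := by
        have := hx y hy
        rcases this.lt_or_eq with h | h
        · exact h
        · exact absurd (h ▸ hy) hpK
      have hyl := hK r y hy
      refine ⟨p + 1, y, by omega, by omega, hyl, ?_, ⟨W.nd r p, hu, ?_⟩, ?_⟩
      · intro t h1 h2
        rw [spi_nd hK hne (by omega)] at hv ⊢
        rw [← hv]
        have h3 : cnt K r t = cnt K r (p + 1) := by
          unfold cnt
          congr 1
          ext z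
          simp only [Finset.mem_filter]
          constructor
          · rintro ⟨h4, h5⟩
            have := hmin' z h4
            omega
          · rintro ⟨h4, h5⟩
            have := hmin' z h4
            omega
        rw [h3]
      · intro t h1 h2 h3
        rw [W.nd_mid (by omega) (by omega)] at h3
        unfold RW.nd at h3
        split_ifs at h3 with h4 h5
        all_goals
          have h7 := congrArg Prod.snd (Sum.inr.inj h3)
          simp only at h7
          omega
      · rintro q hq hqK hqp ⟨t, h1, h2, h3⟩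
        have hqx : q ≠ y := fun h => hqK (h ▸ hy)
        omega
  -- count
  obtain ⟨w, hw, hwA⟩ := hout
  obtain ⟨φ, hφ, hφe⟩ := hA.2.2 w hw
  have h1 : ∀ t ∈ Finset.Icc a b, ∃ q ∈ Finset.Ico a b, el r q ∈ F P ∧ φ (el r q) = W.nd r t := by
    intro t ht
    rw [Finset.mem_Icc] at ht
    obtain ⟨e', he', hφe'⟩ := hφ.surjOn (show W.nd r t ∈ prt (spi W K) P \ {w} from
      ⟨hAP t ht.1 ht.2, hwA t ht.1 ht.2⟩)
    obtain ⟨r', q, hq, hqK, rfl⟩ := hF P he'
    have h2 : W.nd r t ∈ ends (el r' q) := by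
      rw [← hφe']
      exact hφe _ he'
    obtain ⟨rfl, h3⟩ := mem_row_inner hR (by omega) (by omega) hq h2
    have h4 : q ≠ p := by
      rintro rfl
      exact heF he'
    have h5 := hcl q hq hqK h4 ⟨t, ht.1, ht.2, h3⟩
    exact ⟨q, Finset.mem_Ico.2 h5, he', hφe'⟩
  choose! g hg1 hg2 hg3 using h1
  have h2 : (Finset.Icc a b).card ≤ (Finset.Ico a b).card := by
    refine Finset.card_le_card_of_injOn g (fun t ht => hg1 t ht) ?_
    intro t ht t' ht' h
    have h3 := hg3 t ht
    rw [h, hg3 t' ht'] at h3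
    rw [Finset.mem_coe, Finset.mem_Icc] at ht ht'
    rw [W.nd_mid (by omega) (by omega), W.nd_mid (by omega) (by omega)] at h3
    simp only [Sum.inr.injEq, Prod.mk.injEq, true_and] at h3
    exact h3.symm
  rw [Nat.card_Icc, Nat.card_Ico] at h2
  omega

end cel

end TST
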