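import Pool.Agent.TST.SGBase

/-!
# The graph of the strip exists (row LQ of the host of T-star)
-/

open Set Relation
open scoped Matroid

namespace TST

open BIC Gad EN BICS Mdl

universe u

section sat

variable {α : Type u} {X₀ β : Type} {W : RW X₀ β} {K : β → Finset ℕ} {S : Set α}
  {ends : α → Sym2 (Nd X₀ β)} {el : β → ℕ → α} {BQ Lost : Set β}

lemma nd_inner {r r' : β} {p t : ℕ} (h : (Sum.inr (r, p) : Nd X₀ β) = W.nd r' t) :
    r' = r ∧ t = p ∧ 0 < t ∧ t ≠ W.len r' := by
  unfold RW.nd at h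
  split_ifs at h with h1 h2
  have h3 := Sum.inr.inj h
  simp only [Prod.mk.injEq] at h3
  exact ⟨h3.1.symm, h3.2.symm, by omega, h2⟩

lemma inner_mem_rowV {r : β} {p : ℕ} (h : (Sum.inr (r, p) : Nd X₀ β) ∈ rowV W BQ) : r ∈ BQ := by
  obtain ⟨r', hr', p', hp', h1⟩ := h
  obtain ⟨h2, _⟩ := nd_inner h1.symm
  exact h2 ▸ hr'

lemma mem_rowV {r : β} {p : ℕ} (hr : r ∈ BQ) (hp : p ≤ W.len r) : W.nd r p ∈ rowV W BQ :=
  ⟨r, hr, p, hp, rfl⟩

/-- what is used about the kept positions -/
structure KQ (W : RW X₀ β) (K : β → Finset ℕ) (BQ Lost : Set β) : Prop where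
  len : ∀ r, 1 ≤ W.len r
  lt : ∀ r, ∀ x ∈ K r, x < W.len r
  ne : ∀ r, (K r).Nonempty
  lost : ∀ r ∈ Lost, 0 ∈ K r ∧ W.len r - 1 ∈ K r
  good : ∀ r ∉ Lost, W.nd r 0 ∉ rowV W BQ ∧ W.nd r (W.len r) ∉ rowV W BQ

lemma KQ.lost_of (h : KQ W K BQ Lost) {r : β} {x : X₀} (hx : (Sum.inl x : Nd X₀ β) ∈ rowV W BQ)
    (hr : W.hd r = x ∨ W.tl r = x) : r ∈ Lost := by
  by_contra hl
  obtain ⟨h1, h2⟩ := h.good r hl
  rcases hr with rfl | rfl
  · rw [W.nd_zero] at h1
    exact h1 hx
  · rw [W.nd_len (h.len r)] at h2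
    exact h2 hx

/-- a part which contains a wall vertex of `VQ` is this vertex -/
lemma KQ.spi_inl (h : KQ W K BQ Lost) {x : X₀} (hx : (Sum.inl x : Nd X₀ β) ∈ rowV W BQ)
    {w : Nd X₀ β} (hw : spi W K w = some (Sum.inl x)) : w = Sum.inl x ∨
      ∃ r p, w = Sum.inr (r, p) ∧ 0 < p ∧ p < W.len r ∧ r ∈ Lost ∧ False := by
  rcases w with y | ⟨r, p⟩
  · left
    simp only [spi, Option.some.injEq] at hw
    exact hw
  · exfalso
    simp only [spi] at hw
    split_ifs at hw with h1
    have h2 := Option.some.inj hw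
    have hc : 1 ≤ (K r).card := Finset.card_pos.2 (h.ne r)
    unfold RW.nd at h2
    split_ifs at h2 with h3 h4
    · have h5 := Sum.inl.inj h2
      have hl := h.lost_of (r := r) hx (Or.inl h5)
      have h6 : 0 ∈ (K r).filter (· < p) := Finset.mem_filter.2 ⟨(h.lost r hl).1, h1.1⟩
      have h7 : 0 < cnt K r p := Finset.card_pos.2 ⟨0, h6⟩
      omega
    · have h5 := Sum.inl.inj h2
      have hl := h.lost_of (r := r) hx (Or.inr h5)
      have h6 : (K r).filter (· < p) ⊂ K r := by
        refine (Finset.ssubset_iff_of_subset (Finset.filter_subset _ _)).2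
          ⟨W.len r - 1, (h.lost r hl).2, fun h7 => ?_⟩
        have := (Finset.mem_filter.1 h7).2
        omega
      have h7 := Finset.card_lt_card h6
      have h8 : cnt K r p = (K r).card := h4
      unfold cnt at h8
      omega

/-- **Saturation.** -/
lemma KQ.sat (h : KQ W K BQ Lost) {v w P : Nd X₀ β} (hv : v ∈ rowV W BQ)
    (hvP : spi W K v = some P) (hwP : spi W K w = some P) : w ∈ rowV W BQ := by
  rcases v with x | ⟨r, p⟩
  · simp only [spi, Option.some.injEq] at hvP
    subst hvP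
    rcases h.spi_inl hv hwP with rfl | ⟨_, _, _, _, _, _, h1⟩
    · exact hv
    · exact h1.elim
  · have hr := inner_mem_rowV hv
    simp only [spi] at hvP
    split_ifs at hvP with h1
    have h2 := Option.some.inj hvP
    have h3 : P ∈ ({Sum.inl (W.hd r), Sum.inl (W.tl r)} : Set (Nd X₀ β)) ∨
        P = Sum.inr (r, cnt K r p) := by
      rw [← h2]
      unfold RW.nd
      split_ifs
      · exact Or.inl (Or.inl rfl)
      · exact Or.inl (Or.inr rfl)
      · exact Or.inr rfl
    have hhd : (Sum.inl (W.hd r) : Nd X₀ β) ∈ rowV W BQ := by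
      rw [← W.nd_zero]
      exact mem_rowV hr (Nat.zero_le _)
    have htl : (Sum.inl (W.tl r) : Nd X₀ β) ∈ rowV W BQ := by
      rw [← W.nd_len (h.len r)]
      exact mem_rowV hr le_rfl
    rcases h3 with (h3 | h3) | h3
    · subst h3
      rcases h.spi_inl hhd hwP with rfl | ⟨_, _, _, _, _, _, h1⟩
      · exact hhd
      · exact h1.elim
    · have h3' : P = Sum.inl (W.tl r) := h3
      subst h3'
      rcases h.spi_inl htl hwP with rfl | ⟨_, _, _, _, _, _, h1⟩
      · exact htl
      · exact h1.elim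
    · subst h3
      rcases w with y | ⟨r', p'⟩
      · simp [spi] at hwP
      · simp only [spi] at hwP
        split_ifs at hwP with h4
        obtain ⟨h5, _⟩ := nd_inner (Option.some.inj hwP).symm
        have h6 : (W.shrink K).nd r' (cnt K r' p') = Sum.inr (r, cnt K r p) := Option.some.inj hwP
        subst h5
        rw [← W.nd_mid h4.1 h4.2]
        exact mem_rowV hr h4.2.le

lemma KQ.exists_pos (h : KQ W K BQ Lost) {r : β} {k : ℕ} (hk : k ≤ (K r).card) :
    ∃ p ≤ W.len r, cnt K r p = k := by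
  rcases Nat.eq_zero_or_pos k with rfl | h0
  · exact ⟨0, Nat.zero_le _, cnt_zero K r⟩
  · have h1 : k - 1 < (K r).card := by omega
    refine ⟨kth K r (k - 1) + 1, h.lt r _ (kth_mem h1), ?_⟩
    rw [cnt_succ_of_mem (kth_mem h1), cnt_kth h1]
    omega

/-- parts in `VQ` -/
lemma KQ.part_iff (h : KQ W K BQ Lost) {P : Nd X₀ β} (hP : (prt (spi W K) P).Nonempty) :
    prt (spi W K) P ⊆ rowV W BQ ↔ P ∈ rowV (W.shrink K) BQ := by
  constructor
  · intro hs
    obtain ⟨v, hv⟩ := hP
    obtain ⟨r, hr, p, hp, rfl⟩ := hs hv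
    have h1 : spi W K (W.nd r p) = some P := hv
    rw [spi_nd h.lt h.ne hp] at h1
    refine ⟨r, hr, cnt K r p, ?_, Option.some.inj h1⟩
    exact cnt_le
  · rintro ⟨r, hr, k, hk, rfl⟩ w hw
    obtain ⟨p, hp, rfl⟩ := h.exists_pos (r := r) (k := k) hk
    exact h.sat (mem_rowV hr hp) (spi_nd h.lt h.ne hp) hw

lemma KQ.disj (h : KQ W K BQ Lost) (P : Nd X₀ β) :
    prt (spi W K) P ⊆ rowV W BQ ∨ Disjoint (prt (spi W K) P) (rowV W BQ) := by
  by_cases hd : Disjoint (prt (spi W K) P) (rowV W BQ)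
  · exact Or.inr hd
  · left
    rw [Set.not_disjoint_iff] at hd
    obtain ⟨v, hv, hvQ⟩ := hd
    exact fun w hw => h.sat hvQ hv hw

lemma KQ.cel_Q (h : KQ W K BQ Lost) (hR : RowIn W S ends el) {P : Nd X₀ β}
    (hP : prt (spi W K) P ⊆ rowV W BQ) {e : α} (he : e ∈ cel W K el)
    (heP : ∀ v ∈ ends e, spi W K v = some P) : e ∈ rowE W el BQ := by
  obtain ⟨r, p, hp, hpK, rfl⟩ := he
  have hl : 2 ≤ W.len r := by
    by_contra hl
    obtain ⟨x, hx⟩ := h.ne r
    have h1 := h.lt r x hx
    have h2 : p = x := by omega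
    exact hpK (h2 ▸ hx)
  have key : ∀ t, (t = p ∨ t = p + 1) → 0 < t → t < W.len r → r ∈ BQ := by
    intro t ht h0 htl
    have h1 : W.nd r t ∈ ends (el r p) := by
      rw [hR.ends r p hp]
      rcases ht with rfl | rfl <;> simp
    have h2 : W.nd r t ∈ rowV W BQ := hP (heP _ h1)
    rw [W.nd_mid h0 htl] at h2
    exact inner_mem_rowV h2
  refine ⟨r, ?_, p, hp, rfl⟩
  rcases Nat.eq_zero_or_pos p with rfl | h0
  · exact key 1 (Or.inr rfl) (by omega) (by omega)
  · exact key p (Or.inl rfl) h0 hp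

/-- **Independence of whole rows survives the contraction.** -/
theorem KQ.indep {M : Matroid α} [M.Finite] {u : ℕ} {Q : Set α} (h : KQ W K BQ Lost) (hR : RowIn W S ends el)
    (hF : FrmU (M ／ Q) (SQ (rowV W BQ) S ends) (eQ (rowV W BQ) ends) u)
    {B : Set β} (hB : Disjoint B Lost)
    (hI : (M ／ Q).Indep (rowE W el B)) :
    (M ／ Q).Indep (rowE W el B ∪ (cel W K el \ rowE W el BQ)) := by
  classical
  have hfin : (M ／ Q).Finite := ⟨M.ground_finite.subset sdiff_subset⟩
  -- the elements outside of `Q` in good rows, and the contracted ones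
  have hin : ∀ r p, p < W.len r → r ∉ Lost → el r p ∈ SQ (rowV W BQ) S ends ∧
      eQ (rowV W BQ) ends (el r p) = s(W.nd r p, W.nd r (p + 1)) := by
    intro r p hp hr
    have h1 := h.good r hr
    have hrQ : r ∉ BQ := fun h2 => h1.1 (mem_rowV h2 (Nat.zero_le _))
    have hnot : ∀ t ≤ W.len r, W.nd r t ∉ rowV W BQ := by
      intro t ht
      rcases Nat.eq_zero_or_pos t with rfl | h0
      · exact h1.1
      · rcases ht.lt_or_eq with h3 | rfl
        · rw [W.nd_mid h0 h3]
          exact fun h4 => hrQ (inner_mem_rowV h4)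
        · exact h1.2
    have h2 : ∀ v ∈ ends (el r p), v ∉ rowV W BQ := by
      intro v hv
      rw [hR.ends r p hp] at hv
      rcases Sym2.mem_iff.1 hv with rfl | rfl
      · exact hnot _ hp.le
      · exact hnot _ hp
    refine ⟨⟨hR.mem r p hp, W.nd r p, by rw [hR.ends r p hp]; simp, hnot _ hp.le⟩, ?_⟩
    rw [eQ_of_notMem h2, hR.ends r p hp]
  have hcel : ∀ r p, p < W.len r → p ∉ K r → r ∉ BQ → el r p ∈ SQ (rowV W BQ) S ends ∧
      eQ (rowV W BQ) ends (el r p) = s(W.nd r p, W.nd r (p + 1)) := by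
    intro r p hp hpK hrQ
    by_cases hr : r ∈ Lost
    · have h1 := h.lost r hr
      have h2 : 0 < p := Nat.pos_of_ne_zero fun h3 => hpK (h3 ▸ h1.1)
      have h3 : p + 1 < W.len r := by
        rcases Nat.lt_or_ge (p + 1) (W.len r) with h4 | h4
        · exact h4
        · exact absurd (show p = W.len r - 1 by omega) fun h5 => hpK (h5 ▸ h1.2)
      have h4 : ∀ v ∈ ends (el r p), v ∉ rowV W BQ := by
        intro v hv
        rw [hR.ends r p hp] at hv
        rcases Sym2.mem_iff.1 hv with rfl | rfl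
        · rw [W.nd_mid h2 hp]
          exact fun h4 => hrQ (inner_mem_rowV h4)
        · rw [W.nd_mid (by omega) h3]
          exact fun h4 => hrQ (inner_mem_rowV h4)
      refine ⟨⟨hR.mem r p hp, W.nd r p, by rw [hR.ends r p hp]; simp, h4 _ ?_⟩, ?_⟩
      · rw [hR.ends r p hp]; simp
      · rw [eQ_of_notMem h4, hR.ends r p hp]
    · exact hin r p hp hr
  -- position and row of a contracted element
  set D : Set α := (cel W K el \ rowE W el BQ) \ rowE W el B with hD
  have hDe : ∀ e ∈ D, ∃ r p, el r p = e ∧ p < W.len r ∧ p ∉ K r ∧ r ∉ BQ ∧ r ∉ B := by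
    rintro e ⟨⟨⟨r, p, hp, hpK, rfl⟩, h1⟩, h2⟩
    exact ⟨r, p, rfl, hp, hpK, fun h3 => h1 ⟨r, h3, p, hp, rfl⟩,
      fun h3 => h2 ⟨r, h3, p, hp, rfl⟩⟩
  have e1 : rowE W el B ∪ (cel W K el \ rowE W el BQ) = rowE W el B ∪ D := by
    rw [hD, union_sdiff_self]
  rw [e1]
  rcases D.eq_empty_or_nonempty with h0 | ⟨e₀, he₀⟩
  · rw [h0, union_empty]
    exact hI
  obtain ⟨r₀, _⟩ := hDe e₀ he₀
  have : Nonempty β := ⟨r₀⟩
  choose! ro po he1 he2 he3 he4 he5 using hDe
  let up : α → Prop := fun e => ∃ x ∈ K (ro e), po e < x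
  refine TST.FrmU.indep_rank hF hI ?_ (fun e => if up e then W.nd (ro e) (po e + 1) else W.nd (ro e) (po e))
    (fun e => if up e then po e else W.len (ro e) - po e) D ?_ ?_ ?_ ?_
  · rintro e ⟨r, hr, p, hp, rfl⟩
    exact (hin r p hp fun h1 => Set.disjoint_left.1 hB hr h1).1
  · intro e he
    rw [← he1 e he]
    exact (hcel _ _ (he2 e he) (he3 e he) (he4 e he)).1
  · intro e he
    have h1 := (hcel _ _ (he2 e he) (he3 e he) (he4 e he)).2
    rw [he1 e he] at h1
    rw [h1]
    by_cases hu : up e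
    · simp only [if_pos hu]; simp
    · simp only [if_neg hu]; simp
  all_goals
    intro e he
    -- the own node is an inner node
    have hown : ∃ t, 0 < t ∧ t < W.len (ro e) ∧ (if up e then W.nd (ro e) (po e + 1) else
        W.nd (ro e) (po e)) = Sum.inr (ro e, t) ∧ (up e → t = po e + 1) ∧ (¬ up e → t = po e) := by
      have hp := he2 e he
      by_cases hu : up e
      · obtain ⟨x, hx, hxp⟩ := hu
        have h1 := h.lt _ x hx
        refine ⟨po e + 1, by omega, by omega, ?_, fun _ => rfl, fun h2 => absurd ⟨x, hx, hxp⟩ h2⟩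
        rw [if_pos ⟨x, hx, hxp⟩, W.nd_mid (by omega) (by omega)]
      · have h0 : 0 < po e := by
          by_contra h0
          obtain ⟨x, hx⟩ := h.ne (ro e)
          apply hu
          refine ⟨x, hx, ?_⟩
          rcases Nat.eq_zero_or_pos x with rfl | h1
          · exfalso
            have : po e = 0 := by omega
            exact he3 e he (this ▸ hx)
          · omega
        refine ⟨po e, h0, hp, ?_, fun h2 => absurd h2 hu, fun _ => rfl⟩
        rw [if_neg hu, W.nd_mid h0 hp]
    obtain ⟨t, ht0, htl, hteq, htu, htd⟩ := hown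
  · rintro _ ⟨r, hr, p, hp, rfl⟩ hmem
    rw [hteq] at hmem
    have h1 := mem_eQ hmem
    rw [← W.nd_mid ht0 htl] at h1
    have h2 := (mem_row_inner hR ht0 htl hp h1).1
    exact he5 e he (h2 ▸ hr)
  · intro e' he' hne hrank hmem
    rw [hteq] at hmem
    have h1 := mem_eQ hmem
    rw [← W.nd_mid ht0 htl, ← he1 e' he'] at h1
    obtain ⟨h2, h3⟩ := mem_row_inner hR ht0 htl (he2 e' he') h1
    have hne' : po e' ≠ po e := by
      intro h4
      apply hne
      rw [← he1 e' he', ← he1 e he, h2, h4]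
    have hb := he2 e he
    have hb' := he2 e' he'
    have hlen := congrArg W.len h2
    by_cases hu : up e
    · have ht := htu hu
      obtain ⟨x, hx, hxp⟩ := hu
      have hq : po e' = po e + 1 := by omega
      have hu' : up e' := by
        refine ⟨x, by rw [h2]; exact hx, ?_⟩
        rcases Nat.lt_or_ge (po e + 1) x with h4 | h4
        · omega
        · exfalso
          have h5 : x = po e' := by omega
          apply he3 e' he'
          rw [h2, ← h5]
          exact hx
      rw [if_pos hu', if_pos ⟨x, hx, hxp⟩] at hrank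
      omega
    · have ht := htd hu
      have hq : po e' + 1 = po e := by omega
      have hu' : ¬ up e' := by
        rintro ⟨x, hx, hxp⟩
        rw [h2] at hx
        apply hu
        refine ⟨x, hx, ?_⟩
        rcases Nat.lt_or_ge (po e) x with h4 | h4
        · exact h4
        · exfalso
          have h5 : x = po e := by omega
          exact he3 e he (h5 ▸ hx)
      rw [if_neg hu', if_neg hu] at hrank
      omega

end sat

end TST
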