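import Pool.Agent.TST.CutSheets

/-!
# Hub, path with bad lines, or balanced sheets (combinatorial part of the final step of T-star)
-/

open Set

namespace TST

variable {J β : Type*}

/-- every third element of a finite set of numbers -/
lemma third_of (A : Set ℕ) (hA : A.Finite) (K : ℕ) (h : 3 * K + 1 ≤ A.ncard) :
    ∃ l : ℕ → ℕ, (∀ k < K, l k ∈ A) ∧ ∀ k, k + 1 < K → l k + 2 < l (k + 1) := by
  classical
  obtain ⟨F, hF⟩ : ∃ F : Finset ℕ, F = hA.toFinset := ⟨_, rfl⟩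
  have hFA : ∀ x, x ∈ F ↔ x ∈ A := fun x => by rw [hF, Set.Finite.mem_toFinset]
  have hFc : F.card = A.ncard := by rw [hF, ← Set.ncard_eq_toFinset_card _ hA]
  obtain ⟨e, he⟩ : ∃ e : Fin F.card ↪o ℕ, ∀ i, e i ∈ F := ⟨F.orderEmbOfFin rfl, fun i =>
    Finset.orderEmbOfFin_mem F rfl i⟩
  have hlt : ∀ i j (hi : i < F.card) (hj : j < F.card), i < j → e ⟨i, hi⟩ < e ⟨j, hj⟩ :=
    fun i j hi hj hij => e.strictMono (show (⟨i, hi⟩ : Fin F.card) < ⟨j, hj⟩ from hij)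
  obtain ⟨l, hl⟩ : ∃ l : ℕ → ℕ, ∀ k (hk : 3 * k < F.card), l k = e ⟨3 * k, hk⟩ :=
    ⟨fun k => if hk : 3 * k < F.card then e ⟨3 * k, hk⟩ else 0, fun k hk => by
      simp only [dif_pos hk]⟩
  refine ⟨l, fun k hk => ?_, fun k hk => ?_⟩
  · rw [hl k (by omega), ← hFA]
    exact he _
  · rw [hl k (by omega), hl (k + 1) (by omega)]
    have h1 := hlt (3 * k) (3 * k + 1) (by omega) (by omega) (by omega)
    have h2 := hlt (3 * k + 1) (3 * k + 2) (by omega) (by omega) (by omega)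
    have h3 := hlt (3 * k + 2) (3 * (k + 1)) (by omega) (by omega) (by omega)
    omega

/-- **Hub, path with bad lines, or balanced sheets.** -/
theorem sheet_cases [Fintype J] [Finite β] (G : SimpleGraph J) (R : J → β) {t : ℕ} (ht : 2 ≤ t)
    (Bal : J → J → Prop) (Gd : Set β) (Xb Kb X : ℕ) :
    HubR G R t ∨
    (∃ (len : ℕ) (p : ℕ → J), (∀ c, c + 1 < len → G.Adj (p c) (p (c + 1))) ∧
      (∀ c c', c < len → c' < len → p c = p c' → c = c') ∧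
      Xb < {r | ∃ c < len, R (p c) = r}.ncard ∧
      ∃ l : ℕ → ℕ, (∀ k < Kb, l k + 1 < len ∧ ¬ Bal (p (l k)) (p (l k + 1))) ∧
        ∀ k, k + 1 < Kb → l k + 2 < l (k + 1)) ∨
    ∃ (σ₀ : ℕ) (P : PSh G (Fin σ₀)), σ₀ ≤ t * Nat.card G.ConnectedComponent * (3 * Kb + 1) ∧
      (∀ s c, c + 1 < P.len s → Bal (P.col s c) (P.col s (c + 1))) ∧
      (∀ s, 0 < P.len s → X < {r | r ∈ Gd ∧ ∃ c < P.len s, R (P.col s c) = r}.ncard) ∧
      {r | r ∈ Gd ∧ ∃ j, R j = r ∧ ¬ P.Cov j}.ncard ≤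
        t ^ 2 * Nat.card G.ConnectedComponent + t * Nat.card G.ConnectedComponent * Xb +
          σ₀ * X := by
  classical
  rcases sheetsR G R ht with hub | ⟨N, P₀, hN, hcov₀⟩
  · exact Or.inl hub
  right
  obtain ⟨P₁, _, _, hrich₁, hcov₁⟩ := drop_poor P₀ R univ Xb
  by_cases hbad : ∃ s, 3 * Kb + 1 ≤
      {c | c + 1 < P₁.len s ∧ ¬ Bal (P₁.col s c) (P₁.col s (c + 1))}.ncard
  · left
    obtain ⟨s, hs⟩ := hbad
    have hfin : {c | c + 1 < P₁.len s ∧ ¬ Bal (P₁.col s c) (P₁.col s (c + 1))}.Finite := by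
      refine (finite_lt_nat (P₁.len s)).subset fun c hc => ?_
      have h1 : c + 1 < P₁.len s := hc.1
      show c < P₁.len s
      omega
    obtain ⟨l, hl1, hl2⟩ := third_of _ hfin Kb hs
    have hpos : 0 < P₁.len s := by
      have h1 : {c | c + 1 < P₁.len s ∧ ¬ Bal (P₁.col s c) (P₁.col s (c + 1))}.Nonempty := by
        rw [← Set.ncard_pos hfin]
        omega
      obtain ⟨c, hc⟩ := h1
      have h2 : c + 1 < P₁.len s := hc.1
      omega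
    refine ⟨P₁.len s, P₁.col s, P₁.adj s, fun c c' hc hc' hcc => (P₁.inj s c s c' hc hc' hcc).2,
      ?_, l, fun k hk => hl1 k hk, hl2⟩
    have h1 := hrich₁ s hpos
    refine lt_of_lt_of_le h1 (ncard_le_ncard ?_ (Set.toFinite _))
    rintro r ⟨_, hr⟩
    exact hr
  · right
    push Not at hbad
    obtain ⟨P₂, hbal, hcov₂⟩ := cut_sheets (K := 3 * Kb + 1) P₁ Bal hbad
    obtain ⟨P₃, hlen₃, hcol₃, hrich₃, hcov₃⟩ := drop_poor P₂ R Gd X
    refine ⟨N * (3 * Kb + 1), P₃, Nat.mul_le_mul hN le_rfl, ?_, hrich₃, ?_⟩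
    · intro s c hc
      rcases hlen₃ s with h1 | h1
      · rw [h1] at hc
        rw [hcol₃]
        exact hbal s c hc
      · omega
    · have hsub : {r | r ∈ Gd ∧ ∃ j, R j = r ∧ ¬ P₃.Cov j} ⊆
          ({r | ∃ j, R j = r ∧ ¬ P₀.Cov j} ∪
            {r | r ∈ univ ∧ ∃ j, R j = r ∧ P₀.Cov j ∧ ¬ P₁.Cov j}) ∪
              {r | r ∈ Gd ∧ ∃ j, R j = r ∧ P₂.Cov j ∧ ¬ P₃.Cov j} := by
        rintro r ⟨hr, j, hj, hj3⟩
        by_cases h0 : P₀.Cov j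
        · by_cases h1 : P₁.Cov j
          · exact Or.inr ⟨hr, j, hj, (hcov₂ j).2 h1, hj3⟩
          · exact Or.inl (Or.inr ⟨mem_univ _, j, hj, h0, h1⟩)
        · exact Or.inl (Or.inl ⟨j, hj, h0⟩)
      have h1 := ncard_le_ncard hsub (Set.toFinite _)
      have h2 := ncard_union_le ({r | ∃ j, R j = r ∧ ¬ P₀.Cov j} ∪
        {r | r ∈ univ ∧ ∃ j, R j = r ∧ P₀.Cov j ∧ ¬ P₁.Cov j})
          {r | r ∈ Gd ∧ ∃ j, R j = r ∧ P₂.Cov j ∧ ¬ P₃.Cov j}
      have h3 := ncard_union_le {r | ∃ j, R j = r ∧ ¬ P₀.Cov j}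
        {r | r ∈ univ ∧ ∃ j, R j = r ∧ P₀.Cov j ∧ ¬ P₁.Cov j}
      have h4 : N * Xb ≤ t * Nat.card G.ConnectedComponent * Xb := Nat.mul_le_mul hN le_rfl
      omega

end TST
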