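import Mathlib

/-!
# Row B7 of T*, combinatorial part: from the graph of honest elements to sheets

A finite graph with few components is covered by few disjoint paths (sheets), or it contains a
connected set with `t` neighbours.
-/

namespace TST

open Relation

variable {J : Type*}

/-- A connected set of vertices with `t` different neighbours. -/
def Hub (G : SimpleGraph J) (t : ℕ) : Prop :=
  ∃ (T : Finset J) (v : Fin t → J), Function.Injective v ∧ (∀ i, v i ∉ T) ∧
    (∀ x ∈ T, ∀ y ∈ T, ReflTransGen (fun a b => G.Adj a b ∧ a ∈ T ∧ b ∈ T) x y) ∧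
    ∀ i, ∃ u ∈ T, G.Adj u (v i)

/-- Disjoint paths of `G` which cover all the vertices. -/
structure Sheets (G : SimpleGraph J) (σ : Type*) where
  len : σ → ℕ
  col : σ → ℕ → J
  adj : ∀ s c, c + 1 < len s → G.Adj (col s c) (col s (c + 1))
  inj : ∀ s c s' c', c < len s → c' < len s' → col s c = col s' c' → s = s' ∧ c = c'
  surj : ∀ v, ∃ s c, c < len s ∧ col s c = v

/-- Parents: a neighbour which is closer to the root. -/
lemma exists_par (G : SimpleGraph J) {r v : J} (h : G.Reachable r v) {n : ℕ}
    (hn : G.dist r v = n + 1) : ∃ u, G.Adj u v ∧ G.dist r u = n := by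
  obtain ⟨w, hw⟩ := h.symm.exists_walk_length_eq_dist
  rw [SimpleGraph.dist_comm, hn] at hw
  cases w with
  | nil => simp at hw
  | @cons _ u _ huv w =>
    rw [SimpleGraph.Walk.length_cons] at hw
    refine ⟨u, huv.symm, ?_⟩
    have h1 : G.dist u r ≤ n := (SimpleGraph.dist_le w).trans (by omega)
    obtain ⟨w', hw'⟩ := w.reachable.exists_walk_length_eq_dist
    have h2 : G.dist v r ≤ G.dist u r + 1 := by
      have := SimpleGraph.dist_le (SimpleGraph.Walk.cons huv w')
      rw [SimpleGraph.Walk.length_cons, hw'] at this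
      exact this
    rw [SimpleGraph.dist_comm, hn] at h2
    rw [SimpleGraph.dist_comm]
    omega

/-- The sheets of a rooted forest: parents `par`, depth `dep`, `f` chooses a child of every vertex
which is not a leaf. -/
theorem sheets_aux [Fintype J] (G : SimpleGraph J) (par f : J → J) (dep : J → ℕ)
    (leaf : J → Prop) (hpar : ∀ v, dep v ≠ 0 → G.Adj (par v) v) (hfl : ∀ v, leaf v → f v = v)
    (hfc : ∀ v, ¬ leaf v → dep (f v) = dep v + 1 ∧ par (f v) = v) :
    Nonempty (Sheets G {v : J // leaf v}) := by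
  classical
  obtain ⟨D, hD⟩ : ∃ D, ∀ v, dep v ≤ D :=
    ⟨Finset.univ.sup dep, fun v => Finset.le_sup (f := dep) (Finset.mem_univ v)⟩
  have hfix : ∀ n v, leaf v → f^[n] v = v := by
    intro n
    induction n with
    | zero => intro v _; rfl
    | succ n ih =>
      intro v hv
      rw [Function.iterate_succ_apply, hfl v hv, ih v hv]
  have hlf0 : ∀ n v, D < dep v + n → leaf (f^[n] v) := by
    intro n
    induction n with
    | zero =>
      intro v hv
      have := hD v
      omega
    | succ n ih =>
      intro v hv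
      by_cases h : leaf v
      · rw [hfix _ v h]; exact h
      · rw [Function.iterate_succ_apply]
        exact ih _ (by rw [(hfc v h).1]; omega)
  obtain ⟨lf, hlfd⟩ : ∃ lf : J → J, ∀ v, lf v = f^[D + 1] v := ⟨_, fun _ => rfl⟩
  have hlf : ∀ v, leaf (lf v) := fun v => by rw [hlfd]; exact hlf0 _ _ (by omega)
  have hlff : ∀ v, lf (f v) = lf v := by
    intro v
    rw [hlfd, ← Function.iterate_succ_apply, Function.iterate_succ_apply', ← hlfd,
      hfl _ (hlf v)]
  have hlfl : ∀ v, leaf v → lf v = v := fun v hv => by rw [hlfd]; exact hfix _ _ hv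
  have hlfi : ∀ i v, lf (f^[i] v) = lf v := by
    intro i
    induction i with
    | zero => intro v; rfl
    | succ i ih =>
      intro v
      rw [Function.iterate_succ_apply, ih, hlff]
  have h3 : ∀ n v, D - dep v = n → ∃ k, par^[k] (lf v) = v ∧ dep (lf v) = dep v + k := by
    intro n
    induction n with
    | zero =>
      intro v hv
      have hl : leaf v := by
        by_contra h
        have h1 := (hfc v h).1
        have h2 := hD (f v)
        omega
      exact ⟨0, hlfl v hl, by rw [hlfl v hl]; rfl⟩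
    | succ n ih =>
      intro v hv
      by_cases h : leaf v
      · exact ⟨0, hlfl v h, by rw [hlfl v h]; rfl⟩
      · obtain ⟨h1, h2⟩ := hfc v h
        obtain ⟨k, h4, h5⟩ := ih (f v) (by omega)
        rw [hlff] at h4 h5
        refine ⟨k + 1, ?_, by omega⟩
        rw [Function.iterate_succ_apply', h4, h2]
  obtain ⟨idx, hidx⟩ : ∃ idx : J → ℕ, ∀ v, idx v = dep (lf v) - dep v := ⟨_, fun _ => rfl⟩
  have hid : ∀ v, par^[idx v] (lf v) = v ∧ dep (lf v) = dep v + idx v := by
    intro v
    obtain ⟨k, h4, h5⟩ := h3 _ v rfl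
    have : idx v = k := by rw [hidx]; omega
    rw [this]
    exact ⟨h4, h5⟩
  have hstep : ∀ v, ∀ i ≤ idx v, dep (f^[i] v) = dep v + i := by
    intro v i
    induction i with
    | zero => intro _; rfl
    | succ i ih =>
      intro hi
      have h1 := ih (by omega)
      have h2 : ¬ leaf (f^[i] v) := by
        intro h
        have h4 := hlfl _ h
        rw [hlfi] at h4
        have h5 := (hid v).2
        rw [h4, h1] at h5
        omega
      rw [Function.iterate_succ_apply', (hfc _ h2).1, h1]
      omega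
  -- the columns
  have hcol : ∀ ℓ, leaf ℓ → ∀ c < (Finset.univ.filter fun v => lf v = ℓ).sup idx + 1,
      lf (par^[c] ℓ) = ℓ ∧ idx (par^[c] ℓ) = c ∧ dep ℓ = dep (par^[c] ℓ) + c := by
    intro ℓ hℓ c hc
    have hne : (Finset.univ.filter fun v => lf v = ℓ).Nonempty :=
      ⟨ℓ, Finset.mem_filter.2 ⟨Finset.mem_univ _, hlfl ℓ hℓ⟩⟩
    obtain ⟨v₀, hv₀, hv₀'⟩ := Finset.exists_mem_eq_sup _ hne idx
    rw [Finset.mem_filter] at hv₀
    have hc' : c ≤ idx v₀ := by omega
    have h1 : lf (f^[idx v₀ - c] v₀) = ℓ := by rw [hlfi]; exact hv₀.2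
    have h2 := hstep v₀ (idx v₀ - c) (by omega)
    have h4 := hid (f^[idx v₀ - c] v₀)
    have h5 := (hid v₀).2
    rw [h1] at h4
    rw [hv₀.2] at h5
    have h6 : idx (f^[idx v₀ - c] v₀) = c := by omega
    rw [h6] at h4
    rw [h4.1]
    exact ⟨h1, h6, h4.2⟩
  refine ⟨⟨fun s => (Finset.univ.filter fun v => lf v = s.1).sup idx + 1,
    fun s c => par^[c] s.1, ?_, ?_, ?_⟩⟩
  · rintro ⟨ℓ, hℓ⟩ c hc
    simp only at hc ⊢
    have h1 := (hcol ℓ hℓ c (by omega)).2.2
    have h2 := (hcol ℓ hℓ (c + 1) hc).2.2
    rw [Function.iterate_succ_apply'] at h2 ⊢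
    exact (hpar _ (by omega)).symm
  · rintro ⟨ℓ, hℓ⟩ c ⟨ℓ', hℓ'⟩ c' hc hc' h
    have h1 := hcol ℓ hℓ c hc
    have h2 := hcol ℓ' hℓ' c' hc'
    simp only at h
    rw [h] at h1
    exact ⟨Subtype.ext (h1.1.symm.trans h2.1), h1.2.1.symm.trans h2.2.1⟩
  · intro v
    refine ⟨⟨lf v, hlf v⟩, idx v, ?_, (hid v).1⟩
    have : idx v ≤ (Finset.univ.filter fun w => lf w = lf v).sup idx :=
      Finset.le_sup (f := idx) (Finset.mem_filter.2 ⟨Finset.mem_univ _, rfl⟩)
    exact Nat.lt_succ_of_le this

/-- Renaming the sheets. -/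
lemma Sheets.congr {G : SimpleGraph J} {σ τ : Type*} (S : Sheets G σ) (e : τ ≃ σ) :
    Nonempty (Sheets G τ) := by
  refine ⟨⟨fun s => S.len (e s), fun s => S.col (e s), fun s c h => S.adj _ _ h, ?_, ?_⟩⟩
  · intro s c s' c' h h' hh
    obtain ⟨h1, h2⟩ := S.inj _ _ _ _ h h' hh
    exact ⟨e.injective h1, h2⟩
  · intro v
    obtain ⟨s, c, h1, h2⟩ := S.surj v
    refine ⟨e.symm s, c, ?_, ?_⟩
    · rw [e.apply_symm_apply]; exact h1
    · rw [e.apply_symm_apply]; exact h2

/-- **Sheets.** -/
theorem sheets [Fintype J] (G : SimpleGraph J) {t : ℕ} (ht : 2 ≤ t) :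
    Hub G t ∨ ∃ N, N ≤ t * Nat.card G.ConnectedComponent ∧ Nonempty (Sheets G (Fin N)) := by
  classical
  by_cases hHub : Hub G t
  · exact Or.inl hHub
  right
  -- roots and depths
  obtain ⟨rt, hrt⟩ : ∃ rt : J → J, ∀ v, rt v = (G.connectedComponentMk v).out := ⟨_, fun _ => rfl⟩
  have hreach : ∀ v, G.Reachable (rt v) v := by
    intro v
    rw [hrt]
    exact SimpleGraph.ConnectedComponent.exact (Quot.out_eq _)
  have hrte : ∀ u v, G.Reachable u v → rt u = rt v := by
    intro u v h
    rw [hrt, hrt, SimpleGraph.ConnectedComponent.sound h]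
  obtain ⟨dep, hdep⟩ : ∃ dep : J → ℕ, ∀ v, dep v = G.dist (rt v) v := ⟨_, fun _ => rfl⟩
  have hd0 : ∀ v, dep v = 0 → rt v = v := by
    intro v h
    rw [hdep] at h
    exact ((hreach v).dist_eq_zero_iff).1 h
  have hpar : ∀ v, ∃ u, (dep v ≠ 0 → G.Adj u v ∧ dep u + 1 = dep v) := by
    intro v
    by_cases h : dep v = 0
    · exact ⟨v, fun h' => absurd h h'⟩
    · obtain ⟨n, hn⟩ := Nat.exists_eq_succ_of_ne_zero h
      rw [hdep] at hn
      obtain ⟨u, hu, hu'⟩ := exists_par G (hreach v) hn
      refine ⟨u, fun _ => ⟨hu, ?_⟩⟩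
      rw [hdep, hdep, hrte u v hu.reachable, hu', hn]
  choose par hpar using hpar
  set leaf : J → Prop := fun v => ∀ w, dep w ≠ 0 → par w ≠ v with hleaf
  have hch : ∀ v, ∃ w, (leaf v → w = v) ∧ (¬ leaf v → dep w = dep v + 1 ∧ par w = v) := by
    intro v
    by_cases h : leaf v
    · exact ⟨v, fun _ => rfl, fun h' => absurd h h'⟩
    · have h' := h
      simp only [hleaf, not_forall, not_not] at h'
      obtain ⟨w, hw, hwv⟩ := h'
      refine ⟨w, fun h'' => absurd h'' h, fun _ => ⟨?_, hwv⟩⟩
      have := (hpar w hw).2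
      rw [hwv] at this
      exact this.symm
  choose f hfl hfc using hch
  obtain ⟨S⟩ := sheets_aux G par f dep leaf (fun v hv => (hpar v hv).1) hfl hfc
  -- the root of a component with two vertices is no leaf
  have hroot : ∀ n v, dep v = n + 1 → ¬ leaf (rt v) := by
    intro n
    induction n with
    | zero =>
      intro v hv h
      obtain ⟨h1, h2⟩ := hpar v (by omega)
      have h3 := hd0 (par v) (by omega)
      rw [hrte _ _ h1.reachable] at h3
      exact h v (by omega) h3.symm
    | succ n ih =>
      intro v hv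
      obtain ⟨h1, h2⟩ := hpar v (by omega)
      rw [← hrte _ _ h1.reachable]
      exact ih _ (by omega)
  have hcomp : ∀ v w, G.connectedComponentMk v = G.connectedComponentMk w → rt v = rt w := by
    intro v w h
    rw [hrt, hrt, h]
  -- the number of leaves of a component
  have hcard : ∀ C : G.ConnectedComponent,
      ((Finset.univ.filter leaf).filter fun v => G.connectedComponentMk v = C).card ≤ t := by
    intro C
    by_contra hcon
    push Not at hcon
    apply hHub
    set L := (Finset.univ.filter leaf).filter fun v => G.connectedComponentMk v = C with hL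
    have hmem : ∀ v, v ∈ L ↔ leaf v ∧ G.connectedComponentMk v = C := by
      intro v
      simp only [hL, Finset.mem_filter, Finset.mem_univ, true_and]
    obtain ⟨e⟩ : Nonempty (Fin t ↪ L) := by
      apply Function.Embedding.nonempty_of_card_le
      rw [Fintype.card_fin, Fintype.card_coe]
      exact hcon.le
    have hdl : ∀ ℓ ∈ L, dep ℓ ≠ 0 := by
      intro ℓ hℓ h
      have h1 := hd0 ℓ h
      obtain ⟨ℓ', hℓ', hne⟩ := Finset.exists_mem_ne (by omega : 1 < L.card) ℓ
      rw [hmem] at hℓ hℓ'
      have h2 : rt ℓ' = ℓ := by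
        rw [← h1]
        exact hcomp _ _ (hℓ'.2.trans hℓ.2.symm)
      rcases Nat.eq_zero_or_pos (dep ℓ') with h3 | h3
      · exact hne ((hd0 ℓ' h3).symm.trans h2)
      · obtain ⟨n, hn⟩ := Nat.exists_eq_succ_of_ne_zero h3.ne'
        have h4 := hroot n ℓ' hn
        rw [h2] at h4
        exact h4 hℓ.1
    refine ⟨Finset.univ.filter fun v => ¬ leaf v ∧ G.connectedComponentMk v = C,
      fun i => (e i).1, ?_, ?_, ?_, ?_⟩
    · intro i j hij
      exact e.injective (Subtype.ext hij)
    · intro i h
      rw [Finset.mem_filter] at h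
      exact h.2.1 ((hmem _).1 (e i).2).1
    · -- connected
      set T := Finset.univ.filter fun v => ¬ leaf v ∧ G.connectedComponentMk v = C with hT
      have hmT : ∀ v, v ∈ T ↔ ¬ leaf v ∧ G.connectedComponentMk v = C := by
        intro v
        simp only [hT, Finset.mem_filter, Finset.mem_univ, true_and]
      have hto : ∀ n v, dep v = n → v ∈ T →
          ReflTransGen (fun a b => G.Adj a b ∧ a ∈ T ∧ b ∈ T) v (rt v) := by
        intro n
        induction n with
        | zero =>
          intro v hv _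
          rw [hd0 v hv]
        | succ n ih =>
          intro v hv hvT
          obtain ⟨h1, h2⟩ := hpar v (by omega)
          have h3 : par v ∈ T := by
            rw [hmT]
            refine ⟨fun h => h v (by omega) rfl, ?_⟩
            rw [SimpleGraph.ConnectedComponent.sound h1.reachable]
            exact ((hmT v).1 hvT).2
          have h4 := ih (par v) (by omega) h3
          rw [hrte _ _ h1.reachable] at h4
          exact ReflTransGen.head ⟨h1.symm, hvT, h3⟩ h4
      intro x hx y hy
      have h1 := hto _ x rfl hx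
      have h2 := hto _ y rfl hy
      have h3 : rt x = rt y := hcomp _ _ ((((hmT x).1 hx).2).trans ((hmT y).1 hy).2.symm)
      rw [h3] at h1
      refine h1.trans ?_
      clear h1 h3
      generalize rt y = z at h2
      induction h2 with
      | refl => exact ReflTransGen.refl
      | tail _ hbc ih => exact ReflTransGen.head ⟨hbc.1.symm, hbc.2.2, hbc.2.1⟩ ih
    · intro i
      obtain ⟨h1, h2⟩ := (hmem _).1 (e i).2
      have h3 := hdl _ (e i).2
      obtain ⟨h4, h5⟩ := hpar _ h3
      refine ⟨par (e i).1, ?_, h4⟩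
      rw [Finset.mem_filter]
      refine ⟨Finset.mem_univ _, fun h => h _ h3 rfl, ?_⟩
      rw [SimpleGraph.ConnectedComponent.sound h4.reachable, h2]
  have hfin : Fintype G.ConnectedComponent :=
    @Fintype.ofFinite _ (Finite.of_surjective G.connectedComponentMk (fun c => by
      induction c using SimpleGraph.ConnectedComponent.ind with
      | _ v => exact ⟨v, rfl⟩))
  have h1 : Fintype.card {v : J // leaf v} ≤ t * Nat.card G.ConnectedComponent := by
    rw [Fintype.card_subtype, Nat.card_eq_fintype_card, ← Finset.card_univ]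
    exact Finset.card_le_mul_card_image_of_maps_to
      (f := fun v => G.connectedComponentMk v) (fun _ _ => Finset.mem_univ _) t
      (fun C _ => hcard C)
  exact ⟨_, h1, S.congr (Fintype.equivFin {v : J // leaf v}).symm⟩

end TST
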