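import Pool.Agent.TST.Sheets

/-!
# Row SH of the host of T*: sheets which respect rows

The vertices of a finite graph are coloured with rows.  Either there is a connected set with `t`
neighbours on different rows, or few disjoint paths cover all the vertices of all rows but few.
-/

namespace TST

open Relation

variable {J β : Type*}

/-- A connected set with `t` neighbours on different rows. -/
def HubR (G : SimpleGraph J) (R : J → β) (t : ℕ) : Prop :=
  ∃ (T : Finset J) (v : Fin t → J), Function.Injective (fun i => R (v i)) ∧ (∀ i, v i ∉ T) ∧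
    T.Nonempty ∧ (∀ x ∈ T, ∀ y ∈ T, ReflTransGen (fun a b => G.Adj a b ∧ a ∈ T ∧ b ∈ T) x y) ∧
    ∀ i, ∃ u ∈ T, G.Adj u (v i)

/-- Disjoint paths of `G`. -/
structure PSh (G : SimpleGraph J) (σ : Type*) where
  len : σ → ℕ
  col : σ → ℕ → J
  adj : ∀ s c, c + 1 < len s → G.Adj (col s c) (col s (c + 1))
  inj : ∀ s c s' c', c < len s → c' < len s' → col s c = col s' c' → s = s' ∧ c = c'

/-- covered vertices -/
def PSh.Cov {G : SimpleGraph J} {σ : Type*} (P : PSh G σ) (j : J) : Prop :=
  ∃ s c, c < P.len s ∧ P.col s c = j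

/-- A rooted spanning forest. -/
structure Tre (G : SimpleGraph J) where
  par : J → J
  dep : J → ℕ
  adj : ∀ v, dep v ≠ 0 → G.Adj (par v) v
  dpar : ∀ v, dep v ≠ 0 → dep (par v) + 1 = dep v
  rfix : ∀ v, dep v = 0 → par v = v
  root : ∀ v w, dep v = 0 → dep w = 0 → G.Reachable v w → v = w

lemma exists_tre (G : SimpleGraph J) : Nonempty (Tre G) := by
  classical
  obtain ⟨rt, hrt⟩ : ∃ rt : J → J, ∀ v, rt v = (G.connectedComponentMk v).out := ⟨_, fun _ => rfl⟩
  have hreach : ∀ v, G.Reachable (rt v) v := by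
    intro v
    rw [hrt]
    exact SimpleGraph.ConnectedComponent.exact (Quot.out_eq _)
  have hrte : ∀ u v, G.Reachable u v → rt u = rt v := by
    intro u v h
    rw [hrt, hrt, SimpleGraph.ConnectedComponent.sound h]
  obtain ⟨dep, hdep⟩ : ∃ dep : J → ℕ, ∀ v, dep v = G.dist (rt v) v := ⟨_, fun _ => rfl⟩
  have hd0 : ∀ v, dep v = 0 → rt v = v := by
    intro v h
    rw [hdep] at h
    exact ((hreach v).dist_eq_zero_iff).1 h
  have hpar : ∀ v, ∃ u, (dep v ≠ 0 → G.Adj u v ∧ dep u + 1 = dep v) ∧ (dep v = 0 → u = v) := by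
    intro v
    by_cases h : dep v = 0
    · exact ⟨v, fun h' => absurd h h', fun _ => rfl⟩
    · obtain ⟨n, hn⟩ := Nat.exists_eq_succ_of_ne_zero h
      rw [hdep] at hn
      obtain ⟨u, hu, hu'⟩ := exists_par G (hreach v) hn
      refine ⟨u, fun _ => ⟨hu, ?_⟩, fun h' => absurd h' h⟩
      rw [hdep, hdep, hrte u v hu.reachable, hu', hn]
  choose par hpar hpar0 using hpar
  refine ⟨⟨par, dep, fun v hv => (hpar v hv).1, fun v hv => (hpar v hv).2, hpar0, ?_⟩⟩
  intro v w hv hw h
  rw [← hd0 v hv, ← hd0 w hw]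
  exact hrte _ _ h

namespace Tre

variable {G : SimpleGraph J} (F : Tre G)

/-- `a` is an ancestor of `v` -/
def Anc (a v : J) : Prop := ∃ k, F.par^[k] v = a

lemma anc_refl (v : J) : F.Anc v v := ⟨0, rfl⟩

lemma anc_trans {a b c : J} (h : F.Anc a b) (h' : F.Anc b c) : F.Anc a c := by
  obtain ⟨k, rfl⟩ := h
  obtain ⟨l, rfl⟩ := h'
  exact ⟨k + l, by rw [Function.iterate_add_apply]⟩

lemma anc_par (v : J) : F.Anc (F.par v) v := ⟨1, rfl⟩

lemma anc_total {a b x : J} (h : F.Anc a x) (h' : F.Anc b x) : F.Anc a b ∨ F.Anc b a := by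
  obtain ⟨k, rfl⟩ := h
  obtain ⟨l, rfl⟩ := h'
  rcases le_total k l with hkl | hkl
  · right
    refine ⟨l - k, ?_⟩
    rw [← Function.iterate_add_apply, Nat.sub_add_cancel hkl]
  · left
    refine ⟨k - l, ?_⟩
    rw [← Function.iterate_add_apply, Nat.sub_add_cancel hkl]

lemma dep_le {a v : J} (h : F.Anc a v) : F.dep a ≤ F.dep v := by
  obtain ⟨k, rfl⟩ := h
  induction k with
  | zero => exact le_rfl
  | succ k ih =>
    rw [Function.iterate_succ_apply']
    by_cases h : F.dep (F.par^[k] v) = 0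
    · rw [F.rfix _ h]; exact ih
    · have := F.dpar _ h
      omega

lemma anc_step {a v : J} (h : F.Anc a v) (hne : a ≠ v) : F.dep v ≠ 0 ∧ F.Anc a (F.par v) := by
  obtain ⟨k, hk⟩ := h
  cases k with
  | zero => exact absurd hk.symm hne
  | succ k =>
    rw [Function.iterate_succ_apply] at hk
    refine ⟨fun h0 => hne ?_, k, hk⟩
    have : ∀ k, F.par^[k] v = v := by
      intro k
      induction k with
      | zero => rfl
      | succ k ih => rw [Function.iterate_succ_apply, F.rfix _ h0, ih]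
    rw [F.rfix _ h0, this] at hk
    exact hk.symm

lemma dep_lt {a v : J} (h : F.Anc a v) (hne : a ≠ v) : F.dep a < F.dep v := by
  obtain ⟨h0, h1⟩ := F.anc_step h hne
  have h2 := F.dep_le h1
  have h3 := F.dpar v h0
  omega

lemma anc_antisymm {a v : J} (h : F.Anc a v) (h' : F.Anc v a) : a = v := by
  by_contra hne
  have h1 := F.dep_lt h hne
  have h2 := F.dep_le h'
  omega

lemma reach_par (v : J) : G.Reachable (F.par v) v := by
  by_cases h : F.dep v = 0
  · rw [F.rfix v h]
  · exact (F.adj v h).reachable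

lemma reach {a v : J} (h : F.Anc a v) : G.Reachable a v := by
  obtain ⟨k, rfl⟩ := h
  induction k with
  | zero => exact SimpleGraph.Reachable.refl _
  | succ k ih =>
    rw [Function.iterate_succ_apply']
    exact (F.reach_par _).trans ih

/-- the root above `v` -/
lemma exists_root (v : J) : ∃ r, F.dep r = 0 ∧ F.Anc r v := by
  have : ∀ n v, F.dep v = n → ∃ r, F.dep r = 0 ∧ F.Anc r v := by
    intro n
    induction n with
    | zero => exact fun v hv => ⟨v, hv, F.anc_refl v⟩
    | succ n ih =>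
      intro v hv
      obtain ⟨r, hr, hr'⟩ := ih (F.par v) (by have := F.dpar v (by omega); omega)
      exact ⟨r, hr, F.anc_trans hr' (F.anc_par v)⟩
  exact this _ v rfl

/-- **Antichains give hubs.** -/
theorem hub_of_antichain [Fintype J] (R : J → β) {t : ℕ} (ht : 2 ≤ t) (A : Fin t → J)
    (hA : Function.Injective fun i => R (A i)) (hanti : ∀ i j, i ≠ j → ¬ F.Anc (A i) (A j))
    (hconn : ∀ i j, G.Reachable (A i) (A j)) : HubR G R t := by
  classical
  obtain ⟨T, hT⟩ : ∃ T : Finset J, ∀ v, v ∈ T ↔ (G.Reachable v (A ⟨0, by omega⟩) ∧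
      ∀ i, ¬ F.Anc (A i) v) :=
    ⟨Finset.univ.filter fun v => G.Reachable v (A ⟨0, by omega⟩) ∧ ∀ i, ¬ F.Anc (A i) v,
      fun v => by simp⟩
  have hpar : ∀ v ∈ T, F.par v ∈ T := by
    intro v hv
    rw [hT] at hv ⊢
    exact ⟨(F.reach_par v).trans hv.1, fun i h => hv.2 i (F.anc_trans h (F.anc_par v))⟩
  have hother : ∀ i : Fin t, ∃ j : Fin t, j ≠ i := by
    intro i
    by_cases h : i = ⟨0, by omega⟩
    · exact ⟨⟨1, by omega⟩, by rw [h]; simp [Fin.ext_iff]⟩
    · exact ⟨⟨0, by omega⟩, fun h' => h h'.symm⟩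
  have hd : ∀ i, F.dep (A i) ≠ 0 := by
    intro i h0
    obtain ⟨j, hj⟩ := hother i
    obtain ⟨r, hr, hr'⟩ := F.exists_root (A j)
    have : r = A i := F.root _ _ hr h0 ((F.reach hr').trans (hconn j i))
    rw [this] at hr'
    exact hanti i j hj.symm hr'
  have hpA : ∀ i, F.par (A i) ∈ T := by
    intro i
    rw [hT]
    refine ⟨(F.reach_par _).trans (hconn _ _), fun j hj => ?_⟩
    by_cases hij : j = i
    · subst hij
      have h1 := F.dep_le hj
      have h2 := F.dpar _ (hd j)
      omega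
    · exact hanti j i hij (F.anc_trans hj (F.anc_par _))
  refine ⟨T, A, hA, ?_, ⟨_, hpA ⟨0, by omega⟩⟩, ?_, fun i => ⟨_, hpA i, F.adj _ (hd i)⟩⟩
  · intro i h
    rw [hT] at h
    exact h.2 i (F.anc_refl _)
  · have hup : ∀ n v, F.dep v = n → v ∈ T → ∀ r, F.dep r = 0 → G.Reachable r v →
        ReflTransGen (fun a b => G.Adj a b ∧ a ∈ T ∧ b ∈ T) v r := by
      intro n
      induction n with
      | zero =>
        intro v hv _ r hr hrv
        rw [F.root r v hr hv hrv]
      | succ n ih =>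
        intro v hv hvT r hr hrv
        have h0 : F.dep v ≠ 0 := by omega
        have h1 := F.dpar v h0
        refine ReflTransGen.head ⟨(F.adj v h0).symm, hvT, hpar v hvT⟩
          (ih (F.par v) (by omega) (hpar v hvT) r hr (hrv.trans (F.reach_par v).symm))
    intro x hx y hy
    obtain ⟨r, hr, hr'⟩ := F.exists_root x
    have hxy : G.Reachable x y := (((hT x).1 hx).1).trans (((hT y).1 hy).1).symm
    have h1 := hup _ x rfl hx r hr (F.reach hr')
    have h2 := hup _ y rfl hy r hr ((F.reach hr').trans hxy)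
    refine h1.trans ?_
    clear h1 hr hr'
    induction h2 with
    | refl => exact ReflTransGen.refl
    | tail _ hbc ih => exact ReflTransGen.head ⟨hbc.1.symm, hbc.2.2, hbc.2.1⟩ ih

open Classical in
/-- the vertices of the path from `a` down to `w` -/
noncomputable def seg [Fintype J] (a w : J) : Finset J :=
  Finset.univ.filter fun u => F.Anc a u ∧ F.Anc u w

lemma mem_seg [Fintype J] {a w u : J} : u ∈ F.seg a w ↔ F.Anc a u ∧ F.Anc u w := by
  classical
  simp [seg]

open Classical in
/-- rich vertices: a downward path has `t` different rows -/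
def Rich [Fintype J] (R : J → β) (t : ℕ) (a : J) : Prop :=
  ∃ w, F.Anc a w ∧ t ≤ ((F.seg a w).image R).card

lemma Rich.up [Fintype J] {R : J → β} {t : ℕ} {a b : J} (h : F.Rich R t b) (hab : F.Anc a b) :
    F.Rich R t a := by
  classical
  obtain ⟨w, hw, hw'⟩ := h
  refine ⟨w, F.anc_trans hab hw, hw'.trans (Finset.card_le_card (Finset.image_subset_image ?_))⟩
  intro u hu
  rw [mem_seg] at hu ⊢
  exact ⟨F.anc_trans hab hu.1, hu.2⟩

/-- Incomparable rich vertices give a hub. -/
theorem hub_of_rich [Fintype J] (R : J → β) {t : ℕ} (ht : 2 ≤ t) (A : Fin t → J)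
    (hrich : ∀ i, F.Rich R t (A i)) (hanti : ∀ i j, i ≠ j → ¬ F.Anc (A i) (A j))
    (hconn : ∀ i j, G.Reachable (A i) (A j)) : HubR G R t := by
  classical
  choose w hw hwt using hrich
  obtain ⟨f, hf, hf'⟩ := (Finset.all_card_le_biUnion_card_iff_exists_injective
    (fun i => (F.seg (A i) (w i)).image R)).1 (by
      intro s
      rcases s.eq_empty_or_nonempty with rfl | ⟨i, hi⟩
      · simp
      · refine (Finset.card_le_univ s).trans ?_
        rw [Fintype.card_fin]
        exact (hwt i).trans (Finset.card_le_card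
          (Finset.subset_biUnion_of_mem (fun i => (F.seg (A i) (w i)).image R) hi)))
  have hex : ∀ i, ∃ u, F.Anc (A i) u ∧ F.Anc u (w i) ∧ R u = f i := by
    intro i
    obtain ⟨u, hu, hu'⟩ := Finset.mem_image.1 (hf' i)
    rw [mem_seg] at hu
    exact ⟨u, hu.1, hu.2, hu'⟩
  choose u hu1 hu2 hu3 using hex
  refine F.hub_of_antichain R ht u ?_ ?_ ?_
  · intro i j hij
    simp only [hu3] at hij
    exact hf hij
  · intro i j hij h
    rcases F.anc_total (F.anc_trans (hu1 i) h) (hu1 j) with h1 | h1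
    · exact hanti i j hij h1
    · exact hanti j i (Ne.symm hij) h1
  · intro i j
    exact ((F.reach (hu1 i)).symm.trans (hconn i j)).trans (F.reach (hu1 j))

end Tre

open Classical in
/-- A large fibre contains a family indexed by `Fin t`. -/
private lemma exists_fam {γ : Type*} {L : Finset γ} {t : ℕ} (h : t ≤ L.card) :
    ∃ A : Fin t → γ, Function.Injective A ∧ ∀ i, A i ∈ L := by
  obtain ⟨e⟩ : Nonempty (Fin t ↪ L) := by
    apply Function.Embedding.nonempty_of_card_le
    rw [Fintype.card_fin, Fintype.card_coe]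
    exact h
  exact ⟨fun i => (e i).1, fun i j hij => e.injective (Subtype.ext hij), fun i => (e i).2⟩

/-- Counting with small fibres. -/
lemma card_le_fibre {γ δ : Type*} [Finite δ] (L : Finset γ) (f : γ → δ) {t : ℕ}
    (h : ∀ (A : Fin t → γ), Function.Injective A → (∀ i, A i ∈ L) → (∀ i j, f (A i) = f (A j)) →
      False) : L.card ≤ t * Nat.card δ := by
  classical
  have := Fintype.ofFinite δ
  rw [Nat.card_eq_fintype_card]
  have h1 : ∀ b ∈ (Finset.univ : Finset δ), (L.filter fun a => f a = b).card ≤ t := by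
    intro b _
    by_contra hcon
    push Not at hcon
    obtain ⟨A, hA, hA'⟩ := exists_fam hcon.le
    refine h A hA (fun i => (Finset.mem_filter.1 (hA' i)).1) fun i j => ?_
    rw [(Finset.mem_filter.1 (hA' i)).2, (Finset.mem_filter.1 (hA' j)).2]
  have h2 := Finset.card_le_mul_card_image_of_maps_to (s := L) (t := (Finset.univ : Finset δ))
    (f := f) (fun a _ => Finset.mem_univ _) t h1
  rw [Finset.card_univ] at h2
  exact h2

/-- **Sheets which respect rows.** -/
theorem sheetsR [Fintype J] (G : SimpleGraph J) (R : J → β) {t : ℕ} (ht : 2 ≤ t) :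
    HubR G R t ∨ ∃ (N : ℕ) (P : PSh G (Fin N)), N ≤ t * Nat.card G.ConnectedComponent ∧
      {r | ∃ j, R j = r ∧ ¬ P.Cov j}.ncard ≤ t ^ 2 * Nat.card G.ConnectedComponent := by
  classical
  by_cases hHub : HubR G R t
  · exact Or.inl hHub
  right
  obtain ⟨F⟩ := exists_tre G
  set rich : J → Prop := F.Rich R t with hrich
  -- the rich vertices without rich children
  set leaf : {v // rich v} → Prop := fun v => ∀ w, rich w → F.dep w ≠ 0 → F.par w ≠ v.1
    with hleaf
  have hch : ∀ v : {v // rich v}, ∃ w : {v // rich v}, (leaf v → w = v) ∧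
      (¬ leaf v → F.dep w.1 = F.dep v.1 + 1 ∧ F.par w.1 = v.1) := by
    intro v
    by_cases h : leaf v
    · exact ⟨v, fun _ => rfl, fun h' => absurd h h'⟩
    · have h' := h
      simp only [hleaf, not_forall, not_not] at h'
      obtain ⟨w, hw, hwd, hwv⟩ := h'
      refine ⟨⟨w, hw⟩, fun h'' => absurd h'' h, fun _ => ⟨?_, hwv⟩⟩
      have := F.dpar w hwd
      rw [hwv] at this
      exact this.symm
  choose f hfl hfc using hch
  have hpr : ∀ v, rich v → rich (F.par v) := fun v hv => Tre.Rich.up F hv (F.anc_par v)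
  obtain ⟨S⟩ := sheets_aux (G.induce {v | rich v}) (fun v => ⟨F.par v.1, hpr v.1 v.2⟩) f
    (fun v => F.dep v.1) leaf (fun v hv => F.adj v.1 hv) hfl
    (fun v hv => ⟨(hfc v hv).1, Subtype.ext (hfc v hv).2⟩)
  -- number of leaves
  have hfin : Finite G.ConnectedComponent := inferInstance
  have hleaves : Nat.card {v : {v // rich v} // leaf v} ≤ t * Nat.card G.ConnectedComponent := by
    rw [Nat.card_eq_fintype_card, ← Finset.card_univ]
    refine card_le_fibre _ (fun v => G.connectedComponentMk v.1.1) ?_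
    intro A hA _ hc
    apply hHub
    refine F.hub_of_rich R ht (fun i => (A i).1.1) (fun i => (A i).1.2) ?_
      (fun i j => SimpleGraph.ConnectedComponent.exact (hc i j))
    intro i j hij hanc
    -- the child of `A i` towards `A j`
    have hne : (A i).1.1 ≠ (A j).1.1 := fun h =>
      hij (hA (Subtype.ext (Subtype.ext h)))
    obtain ⟨k, hk⟩ := hanc
    have : ∀ k, F.par^[k] (A j).1.1 = (A i).1.1 → False := by
      intro k
      induction k with
      | zero => exact fun h => hne h.symm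
      | succ k ih =>
        intro h
        rw [Function.iterate_succ_apply'] at h
        by_cases h0 : F.dep (F.par^[k] (A j).1.1) = 0
        · rw [F.rfix _ h0] at h
          exact ih h
        · exact (A i).2 _ (Tre.Rich.up F (A j).1.2 ⟨k, rfl⟩) h0 h
    exact this k hk
  obtain ⟨N, hN⟩ : ∃ N, N = Nat.card {v : {v // rich v} // leaf v} := ⟨_, rfl⟩
  have e : Fin N ≃ {v : {v // rich v} // leaf v} := by
    rw [hN]
    exact (Finite.equivFin _).symm
  refine ⟨N, ⟨fun s => S.len (e s), fun s c => (S.col (e s) c).1, fun s c h => S.adj _ _ h, ?_⟩,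
    hN ▸ hleaves, ?_⟩
  · intro s c s' c' h h' hh
    obtain ⟨h1, h2⟩ := S.inj _ _ _ _ h h' (Subtype.ext hh)
    exact ⟨e.injective h1, h2⟩
  -- rows with an uncovered vertex
  have hunc : ∀ r ∈ {r | ∃ j, R j = r ∧ ¬ (PSh.Cov (G := G) (σ := Fin N)
      ⟨fun s => S.len (e s), fun s c => (S.col (e s) c).1, fun s c h => S.adj _ _ h, by
        intro s c s' c' h h' hh
        obtain ⟨h1, h2⟩ := S.inj _ _ _ _ h h' (Subtype.ext hh)
        exact ⟨e.injective h1, h2⟩⟩ j)}, ∃ j, R j = r ∧ ¬ rich j := by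
    rintro r ⟨j, hj, hj'⟩
    refine ⟨j, hj, fun hr => hj' ?_⟩
    obtain ⟨s, c, hc, hsc⟩ := S.surj ⟨j, hr⟩
    refine ⟨e.symm s, c, ?_, ?_⟩
    · simp only [e.apply_symm_apply]; exact hc
    · simp only [e.apply_symm_apply, hsc]
  generalize hRw : {r | ∃ j, R j = r ∧ ¬ (PSh.Cov (G := G) (σ := Fin N)
      ⟨fun s => S.len (e s), fun s c => (S.col (e s) c).1, fun s c h => S.adj _ _ h, by
        intro s c s' c' h h' hh
        obtain ⟨h1, h2⟩ := S.inj _ _ _ _ h h' (Subtype.ext hh)
        exact ⟨e.injective h1, h2⟩⟩ j)} = Rw at hunc ⊢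
  have hRf : Rw.Finite := by
    refine Set.Finite.subset (Set.finite_range R) ?_
    intro r hr
    obtain ⟨j, hj, _⟩ := hunc r hr
    exact ⟨j, hj⟩
  have hgex : ∀ r : β, ∃ j : Option J, r ∈ Rw → ∃ j', j = some j' ∧ R j' = r ∧ ¬ rich j' := by
    intro r
    by_cases h : r ∈ Rw
    · obtain ⟨j, h1, h2⟩ := hunc r h
      exact ⟨some j, fun _ => ⟨j, rfl, h1, h2⟩⟩
    · exact ⟨none, fun h' => absurd h' h⟩
  choose g hg using hgex
  obtain ⟨Y, hY⟩ : ∃ Y : Finset J, ∀ j, j ∈ Y ↔ ∃ r ∈ Rw, g r = some j :=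
    ⟨Finset.univ.filter fun j => ∃ r ∈ Rw, g r = some j, fun j => by simp⟩
  have hYR : ∀ j ∈ Y, ∀ j' ∈ Y, R j = R j' → j = j' := by
    intro j hj j' hj' h
    obtain ⟨r, hr, hgr⟩ := (hY j).1 hj
    obtain ⟨r', hr', hgr'⟩ := (hY j').1 hj'
    obtain ⟨x, h1, h2, _⟩ := hg r hr
    obtain ⟨x', h1', h2', _⟩ := hg r' hr'
    rw [hgr] at h1
    rw [hgr'] at h1'
    have e1 := Option.some.inj h1
    have e1' := Option.some.inj h1'
    subst e1 e1'
    rw [h2, h2'] at h
    subst h
    rw [hgr] at hgr'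
    exact Option.some.inj hgr'
  have hYn : ∀ j ∈ Y, ¬ rich j := by
    intro j hj
    obtain ⟨r, hr, hgr⟩ := (hY j).1 hj
    obtain ⟨x, h1, _, h3⟩ := hg r hr
    rw [hgr] at h1
    rw [Option.some.inj h1]
    exact h3
  have hcard : Rw.ncard ≤ Y.card := by
    rw [Set.ncard_eq_toFinset_card _ hRf]
    refine (Finset.card_le_card (t := Y.image R) ?_).trans Finset.card_image_le
    intro r hr
    rw [Set.Finite.mem_toFinset] at hr
    obtain ⟨j, h1, h2, _⟩ := hg r hr
    rw [Finset.mem_image]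
    exact ⟨j, (hY j).2 ⟨r, hr, h1⟩, h2⟩
  refine hcard.trans ?_
  -- heights
  obtain ⟨ht', hht⟩ : ∃ h : J → ℕ, ∀ x, h x = (Y.filter fun u => F.Anc u x).card :=
    ⟨_, fun _ => rfl⟩
  have hlt : ∀ x ∈ Y, ht' x < t := by
    intro x hx
    by_contra hcon
    push Not at hcon
    have hxm : x ∈ Y.filter fun u => F.Anc u x := Finset.mem_filter.2 ⟨hx, F.anc_refl x⟩
    obtain ⟨a, ha, hamin⟩ := Finset.exists_min_image (Y.filter fun u => F.Anc u x) F.dep ⟨x, hxm⟩
    rw [Finset.mem_filter] at ha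
    refine hYn a ha.1 ⟨x, ha.2, hcon.trans ?_⟩
    rw [hht, ← Finset.card_image_of_injOn (f := R) (s := Y.filter fun u => F.Anc u x) (by
      intro u hu v hv huv
      rw [Finset.mem_coe, Finset.mem_filter] at hu hv
      exact hYR u hu.1 v hv.1 huv)]
    refine Finset.card_le_card (Finset.image_subset_image ?_)
    intro u hu
    have hum := hamin u hu
    rw [Finset.mem_filter] at hu
    rw [Tre.mem_seg]
    refine ⟨?_, hu.2⟩
    rcases F.anc_total ha.2 hu.2 with h | h
    · exact h
    · by_cases hua : u = a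
      · rw [hua]; exact F.anc_refl a
      · have := F.dep_lt h hua
        omega
  have hinc : ∀ x ∈ Y, ∀ y ∈ Y, x ≠ y → ht' x = ht' y → ¬ F.Anc x y := by
    intro x hx y hy hxy he hanc
    have h1 : (Y.filter fun u => F.Anc u x) ⊂ (Y.filter fun u => F.Anc u y) := by
      rw [Finset.ssubset_iff_of_subset]
      · refine ⟨y, Finset.mem_filter.2 ⟨hy, F.anc_refl y⟩, fun h => ?_⟩
        rw [Finset.mem_filter] at h
        exact hxy (F.anc_antisymm hanc h.2)
      · intro u hu
        rw [Finset.mem_filter] at hu ⊢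
        exact ⟨hu.1, F.anc_trans hu.2 hanc⟩
    have h2 := Finset.card_lt_card h1
    rw [← hht, ← hht] at h2
    omega
  have hfinal := card_le_fibre Y
    (fun x => ((⟨ht' x % t, Nat.mod_lt _ (by omega)⟩ : Fin t), G.connectedComponentMk x))
    (t := t) (by
      intro A hA hAY hc
      apply hHub
      have hc' : ∀ i j, ht' (A i) = ht' (A j) := by
        intro i j
        have h1 := congrArg Prod.fst (hc i j)
        simp only [Fin.mk.injEq] at h1
        rwa [Nat.mod_eq_of_lt (hlt _ (hAY i)), Nat.mod_eq_of_lt (hlt _ (hAY j))] at h1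
      refine F.hub_of_antichain R ht A ?_ ?_ ?_
      · intro i j hij
        exact hA (hYR _ (hAY i) _ (hAY j) hij)
      · intro i j hij
        exact hinc _ (hAY i) _ (hAY j) (fun h => hij (hA h)) (hc' i j)
      · intro i j
        exact SimpleGraph.ConnectedComponent.exact (congrArg Prod.snd (hc i j)))
  refine hfinal.trans ?_
  rw [Nat.card_prod, Nat.card_fin, pow_two, Nat.mul_assoc]

end TST
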