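import Mathlib

/-!
# Short paths in a relation on labels (T-star, helper33)
-/

set_option autoImplicit false

namespace TST

open Relation

/-- **A short path.** -/
theorem short_path {r : ℕ → ℕ → Prop} {m a b : ℕ}
    (h : ReflTransGen (fun x y => x < m ∧ y < m ∧ r x y) a b) :
    ∃ n ≤ m, ∃ l : ℕ → ℕ, l 0 = a ∧ l n = b ∧
      ∀ k < n, l k < m ∧ l (k + 1) < m ∧ r (l k) (l (k + 1)) := by
  classical
  have hex : ∃ n, ∃ l : ℕ → ℕ, l 0 = a ∧ l n = b ∧
      ∀ k < n, l k < m ∧ l (k + 1) < m ∧ r (l k) (l (k + 1)) := by
    induction h with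
    | refl => exact ⟨0, fun _ => a, rfl, rfl, fun k hk => absurd hk (Nat.not_lt_zero k)⟩
    | @tail y z _ hyz ih =>
      obtain ⟨n, l, h1, h2, h3⟩ := ih
      refine ⟨n + 1, fun k => if k ≤ n then l k else z, ?_, ?_, ?_⟩
      · simp [h1]
      · simp
      · intro k hk
        by_cases hkn : k < n
        · have e1 : k ≤ n := by omega
          have e2 : k + 1 ≤ n := by omega
          simp only [e1, e2, if_true]
          exact h3 k hkn
        · have e0 : k = n := by omega
          subst e0
          have e1 : k ≤ k := le_rfl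
          have e2 : ¬ k + 1 ≤ k := by omega
          simp only [e1, e2, if_true, if_false]
          rw [h2]
          exact hyz
  obtain ⟨l, h1, h2, h3⟩ := Nat.find_spec hex
  have hmin : ∀ k < Nat.find hex, ¬ ∃ l : ℕ → ℕ, l 0 = a ∧ l k = b ∧
      ∀ j < k, l j < m ∧ l (j + 1) < m ∧ r (l j) (l (j + 1)) := fun k hk => Nat.find_min hex hk
  generalize Nat.find hex = n at h1 h2 h3 hmin
  refine ⟨n, ?_, l, h1, h2, h3⟩
  by_contra hnm
  push Not at hnm
  -- two equal vertices
  obtain ⟨i, hi, j, hj, hij, hl⟩ : ∃ i ∈ Finset.range n, ∃ j ∈ Finset.range n, i ≠ j ∧ l i = l j := by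
    refine Finset.exists_ne_map_eq_of_card_lt_of_maps_to (t := Finset.range m) ?_ ?_
    · rw [Finset.card_range, Finset.card_range]
      exact hnm
    · intro k hk
      rw [Finset.mem_coe, Finset.mem_range] at hk ⊢
      exact (h3 k hk).1
  rw [Finset.mem_range] at hi hj
  have key : ∀ i j, i < j → j < n → l i = l j → False := by
    intro i j hij hj hl
    refine hmin (n - (j - i)) (by omega) ⟨fun k => if k ≤ i then l k else l (k + (j - i)), ?_, ?_, ?_⟩
    · simp [h1]
    · have e1 : ¬ n - (j - i) ≤ i := by omega
      simp only [e1, if_false]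
      rw [show n - (j - i) + (j - i) = n by omega]
      exact h2
    · intro k hk
      by_cases hk1 : k + 1 ≤ i
      · have e1 : k ≤ i := by omega
        simp only [hk1, e1, if_true]
        exact h3 k (by omega)
      by_cases hk2 : k = i
      · subst hk2
        have e2 : ¬ k + 1 ≤ k := by omega
        simp only [le_refl, e2, if_true, if_false]
        rw [hl, show k + 1 + (j - k) = j + 1 by omega]
        exact h3 j hj
      · have e1 : ¬ k ≤ i := by omega
        have e2 : ¬ k + 1 ≤ i := by omega
        simp only [e1, e2, if_false]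
        rw [show k + 1 + (j - i) = k + (j - i) + 1 by omega]
        exact h3 (k + (j - i)) (by omega)
  rcases lt_or_gt_of_ne hij with h4 | h4
  · exact key i j h4 hj hl
  · exact key j i h4 hi hl.symm

end TST
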