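import Pool.Agent.TST.Quot
import Pool.Agent.EN.Joint

/-!
# Subdivided graphs and their contractions (row B7 of T*, helper57)

A subdivided graph `W` has vertices `X₀` and rows `r : β` of length `len r` from `hd r` to `tl r`;
`nd r p` are its nodes.  Keeping the elements at the positions `K r` of every row and contracting all
the others gives a subdivided graph with rows of length `|K r|`.
-/

open Set Relation
open scoped Matroid

namespace TST

open BIC Gad EN BICS

/-- Subdivided graphs. -/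
structure RW (X₀ β : Type*) where
  hd : β → X₀
  tl : β → X₀
  len : β → ℕ

/-- nodes: the vertices and the inner nodes of the rows -/
abbrev Nd (X₀ β : Type*) := X₀ ⊕ (β × ℕ)

section

variable {α X₀ β : Type*}

/-- the node `p` of the row `r` -/
def RW.nd (W : RW X₀ β) (r : β) (p : ℕ) : Nd X₀ β :=
  if p = 0 then Sum.inl (W.hd r) else if p = W.len r then Sum.inl (W.tl r) else Sum.inr (r, p)

/-- The rows are in the graph. -/
structure RowIn (W : RW X₀ β) (S : Set α) (ends : α → Sym2 (Nd X₀ β)) (el : β → ℕ → α) : Prop where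
  pos : ∀ r, 1 ≤ W.len r
  mem : ∀ r p, p < W.len r → el r p ∈ S
  ends : ∀ r p, p < W.len r → ends (el r p) = s(W.nd r p, W.nd r (p + 1))
  inj : ∀ r p r' p', p < W.len r → p' < W.len r' → el r p = el r' p' → r = r' ∧ p = p'

lemma RW.nd_zero (W : RW X₀ β) (r : β) : W.nd r 0 = Sum.inl (W.hd r) := by simp [RW.nd]

lemma RW.nd_len (W : RW X₀ β) {r : β} (h : 1 ≤ W.len r) : W.nd r (W.len r) = Sum.inl (W.tl r) := by
  unfold RW.nd
  rw [if_neg (by omega), if_pos rfl]

lemma RW.nd_mid (W : RW X₀ β) {r : β} {p : ℕ} (h0 : 0 < p) (h : p < W.len r) :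
    W.nd r p = Sum.inr (r, p) := by
  unfold RW.nd
  rw [if_neg (by omega), if_neg (by omega)]

/-- number of kept positions below `p` -/
def cnt (K : β → Finset ℕ) (r : β) (p : ℕ) : ℕ := ((K r).filter (· < p)).card

/-- the graph after contraction -/
def RW.shrink (W : RW X₀ β) (K : β → Finset ℕ) : RW X₀ β := ⟨W.hd, W.tl, fun r => (K r).card⟩

lemma cnt_zero (K : β → Finset ℕ) (r : β) : cnt K r 0 = 0 := by simp [cnt]

lemma cnt_mono (K : β → Finset ℕ) (r : β) {p q : ℕ} (h : p ≤ q) : cnt K r p ≤ cnt K r q := by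
  refine Finset.card_le_card fun x hx => ?_
  rw [Finset.mem_filter] at hx ⊢
  exact ⟨hx.1, by omega⟩

lemma cnt_succ_of_notMem {K : β → Finset ℕ} {r : β} {p : ℕ} (h : p ∉ K r) :
    cnt K r (p + 1) = cnt K r p := by
  unfold cnt
  congr 1
  ext x
  rw [Finset.mem_filter, Finset.mem_filter]
  constructor
  · rintro ⟨h1, h2⟩
    refine ⟨h1, ?_⟩
    rcases Nat.lt_or_ge x p with h3 | h3
    · exact h3
    · have : x = p := by omega
      subst this
      exact absurd h1 h
  · rintro ⟨h1, h2⟩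
    exact ⟨h1, by omega⟩

lemma cnt_succ_of_mem {K : β → Finset ℕ} {r : β} {p : ℕ} (h : p ∈ K r) :
    cnt K r (p + 1) = cnt K r p + 1 := by
  classical
  unfold cnt
  have : (K r).filter (· < p + 1) = insert p ((K r).filter (· < p)) := by
    ext x
    rw [Finset.mem_insert, Finset.mem_filter, Finset.mem_filter]
    constructor
    · rintro ⟨h1, h2⟩
      rcases Nat.lt_or_ge x p with h3 | h3
      · exact Or.inr ⟨h1, h3⟩
      · left; omega
    · rintro (rfl | ⟨h1, h2⟩)
      · exact ⟨h, by omega⟩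
      · exact ⟨h1, by omega⟩
  rw [this, Finset.card_insert_of_notMem (by simp)]

lemma cnt_len {W : RW X₀ β} {K : β → Finset ℕ} {r : β} (hK : ∀ x ∈ K r, x < W.len r) :
    cnt K r (W.len r) = (K r).card := by
  unfold cnt
  rw [Finset.filter_true_of_mem hK]

lemma cnt_le {K : β → Finset ℕ} {r : β} {p : ℕ} : cnt K r p ≤ (K r).card :=
  Finset.card_le_card (Finset.filter_subset _ _)

lemma cnt_eq_notMem {K : β → Finset ℕ} {r : β} {p q t : ℕ} (h : cnt K r p = cnt K r q)
    (h1 : p ≤ t) (h2 : t < q) : t ∉ K r ∧ cnt K r t = cnt K r p ∧ cnt K r (t + 1) = cnt K r p := by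
  have h3 := cnt_mono K r h1
  have h4 := cnt_mono K r (show t ≤ t + 1 by omega)
  have h5 := cnt_mono K r (show t + 1 ≤ q by omega)
  refine ⟨fun h6 => ?_, by omega, by omega⟩
  have := cnt_succ_of_mem h6
  omega

/-- the part of a node -/
def spi (W : RW X₀ β) (K : β → Finset ℕ) : Nd X₀ β → Option (Nd X₀ β)
  | Sum.inl y => some (Sum.inl y)
  | Sum.inr (r, p) => if 0 < p ∧ p < W.len r then some ((W.shrink K).nd r (cnt K r p)) else none

variable {W : RW X₀ β} {K : β → Finset ℕ}

lemma spi_nd (hK : ∀ r, ∀ x ∈ K r, x < W.len r) (hne : ∀ r, (K r).Nonempty) {r : β} {p : ℕ}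
    (hp : p ≤ W.len r) : spi W K (W.nd r p) = some ((W.shrink K).nd r (cnt K r p)) := by
  obtain ⟨x, hx⟩ := hne r
  have hx' := hK r x hx
  have hc : 1 ≤ (K r).card := Finset.card_pos.2 ⟨x, hx⟩
  rcases Nat.eq_zero_or_pos p with rfl | h0
  · rw [W.nd_zero, cnt_zero, RW.nd_zero]
    rfl
  · rcases hp.lt_or_eq with h1 | rfl
    · rw [W.nd_mid h0 h1]
      simp only [spi]
      rw [if_pos ⟨h0, h1⟩]
    · rw [W.nd_len (by omega), cnt_len (hK r)]
      have : (K r).card = (W.shrink K).len r := rfl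
      rw [this, RW.nd_len _ (by exact hc)]
      rfl

/-- elements which are contracted -/
def cel (W : RW X₀ β) (K : β → Finset ℕ) (el : β → ℕ → α) : Set α :=
  {e | ∃ r p, p < W.len r ∧ p ∉ K r ∧ el r p = e}

/-- steps inside of a part -/
def Stp (W : RW X₀ β) (K : β → Finset ℕ) (el : β → ℕ → α) (ends : α → Sym2 (Nd X₀ β))
    (P : Nd X₀ β) : Nd X₀ β → Nd X₀ β → Prop :=
  ReflTransGen fun a b => GAdj (cel W K el) ends a b ∧ a ∈ prt (spi W K) P ∧ b ∈ prt (spi W K) P

lemma Stp.symm {el : β → ℕ → α} {ends : α → Sym2 (Nd X₀ β)} {P a b : Nd X₀ β}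
    (h : Stp W K el ends P a b) : Stp W K el ends P b a := by
  unfold Stp at h ⊢
  induction h with
  | refl => exact ReflTransGen.refl
  | tail _ h2 ih => exact (ReflTransGen.single ⟨h2.1.symm, h2.2.2, h2.2.1⟩).trans ih

variable {S : Set α} {ends : α → Sym2 (Nd X₀ β)} {el : β → ℕ → α}

lemma stp_row (hR : RowIn W S ends el) (hK : ∀ r, ∀ x ∈ K r, x < W.len r)
    (hne : ∀ r, (K r).Nonempty) {r : β} {p q : ℕ} (hpq : p ≤ q) (hq : q ≤ W.len r)
    (h : cnt K r p = cnt K r q) :
    Stp W K el ends ((W.shrink K).nd r (cnt K r p)) (W.nd r p) (W.nd r q) := by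
  induction q, hpq using Nat.le_induction with
  | base => exact ReflTransGen.refl
  | succ q hpq ih =>
    have h1 := cnt_eq_notMem h hpq (show q < q + 1 by omega)
    have h2 := ih (by omega) (by omega)
    refine ReflTransGen.tail h2 ⟨⟨el r q, ⟨r, q, by omega, h1.1, rfl⟩, hR.ends r q (by omega)⟩,
      ?_, ?_⟩
    · change spi W K _ = _
      rw [spi_nd hK hne (by omega), h1.2.1]
    · change spi W K _ = _
      rw [spi_nd hK hne hq, h]

/-- **The parts are connected.** -/
lemma vconn_part (hR : RowIn W S ends el) (hK : ∀ r, ∀ x ∈ K r, x < W.len r)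
    (hne : ∀ r, (K r).Nonempty) (P : Nd X₀ β) :
    VConn (cel W K el) ends (prt (spi W K) P) := by
  have hsl : ∀ r, (W.shrink K).len r = (K r).card := fun r => rfl
  have hc : ∀ r, 1 ≤ (K r).card := fun r => Finset.card_pos.2 (hne r)
  rcases P with y | ⟨r₀, k⟩
  · -- everything is connected to `inl y`
    have key : ∀ v ∈ prt (spi W K) (Sum.inl y), Stp W K el ends (Sum.inl y) (Sum.inl y) v := by
      rintro (z | ⟨r, p⟩) hv
      · have : z = y := by
          have h1 : spi W K (Sum.inl z) = some (Sum.inl y) := hv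
          simpa [spi] using h1
        rw [this]
        exact ReflTransGen.refl
      · have h1 : spi W K (Sum.inr (r, p)) = some (Sum.inl y) := hv
        simp only [spi] at h1
        split_ifs at h1 with h2
        have h3 : (W.shrink K).nd r (cnt K r p) = Sum.inl y := Option.some.inj h1
        have h4 := W.nd_mid h2.1 h2.2
        unfold RW.nd at h3
        split_ifs at h3 with h5 h6
        · have h7 : W.hd r = y := Sum.inl.inj h3
          have h8 := stp_row hR hK hne (r := r) (p := 0) (q := p) (by omega) h2.2.le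
            (by rw [cnt_zero, h5])
          rw [cnt_zero, RW.nd_zero, W.nd_zero, h4] at h8
          have h9 : (W.shrink K).hd r = y := h7
          rw [h9] at h8
          rw [← h7] at h8 ⊢
          exact h8
        · have h7 : W.tl r = y := Sum.inl.inj h3
          have h8 := stp_row hR hK hne (r := r) (p := p) (q := W.len r) h2.2.le le_rfl
            (by rw [h6, cnt_len (hK r)]; rfl)
          rw [h6, RW.nd_len _ (hc r), W.nd_len (hR.pos r), h4] at h8
          have h9 : (W.shrink K).tl r = y := h7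
          rw [h9, h7] at h8
          exact h8.symm
    intro u hu v hv
    exact ((key u hu).symm).trans (key v hv)
  · -- the nodes of a part inside of a row
    have key : ∀ v ∈ prt (spi W K) (Sum.inr (r₀, k)), ∃ p, 0 < p ∧ p < W.len r₀ ∧
        cnt K r₀ p = k ∧ 0 < k ∧ k < (K r₀).card ∧ v = W.nd r₀ p := by
      rintro (z | ⟨r, p⟩) hv
      · have h1 : spi W K (Sum.inl z) = some (Sum.inr (r₀, k)) := hv
        simp [spi] at h1
      · have h1 : spi W K (Sum.inr (r, p)) = some (Sum.inr (r₀, k)) := hv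
        simp only [spi] at h1
        split_ifs at h1 with h2
        have h3 : (W.shrink K).nd r (cnt K r p) = Sum.inr (r₀, k) := Option.some.inj h1
        unfold RW.nd at h3
        split_ifs at h3 with h5 h6
        have h7 := Sum.inr.inj h3
        simp only [Prod.mk.injEq] at h7
        obtain ⟨rfl, h8⟩ := h7
        refine ⟨p, h2.1, h2.2, h8, by omega, ?_, (W.nd_mid h2.1 h2.2).symm⟩
        have h9 : cnt K r p ≤ (K r).card := cnt_le
        have h10 := hsl r
        omega
    intro u hu v hv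
    obtain ⟨p, hp0, hp, hpk, hk0, hk, rfl⟩ := key u hu
    obtain ⟨q, hq0, hq, hqk, _, _, rfl⟩ := key v hv
    have hnd : (W.shrink K).nd r₀ k = Sum.inr (r₀, k) := RW.nd_mid _ hk0 hk
    rcases le_total p q with h | h
    · have h1 := stp_row hR hK hne h hq.le (by rw [hpk, hqk])
      rw [hpk, hnd] at h1
      exact h1
    · have h1 := stp_row hR hK hne h hp.le (by rw [hpk, hqk])
      rw [hqk, hnd] at h1
      exact h1.symm

lemma finite_part [Finite β] (P : Nd X₀ β) : (prt (spi W K) P).Finite := by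
  have h1 : prt (spi W K) P ⊆ {P} ∪ ⋃ r : β, (fun p => (Sum.inr (r, p) : Nd X₀ β)) ''
      (Set.Iio (W.len r)) := by
    rintro (z | ⟨r, p⟩) hv
    · left
      have h2 : spi W K (Sum.inl z) = some P := hv
      simp only [spi, Option.some.injEq] at h2
      exact h2
    · right
      have h2 : spi W K (Sum.inr (r, p)) = some P := hv
      simp only [spi] at h2
      split_ifs at h2 with h3
      rw [Set.mem_iUnion]
      exact ⟨r, p, h3.2, rfl⟩
  refine Set.Finite.subset ?_ h1
  exact (Set.finite_singleton _).union (Set.finite_iUnion fun r => (Set.finite_Iio _).image _)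

lemma cnt_inj {r : β} {x y : ℕ} (hx : x ∈ K r) (hy : y ∈ K r) (h : cnt K r x = cnt K r y) :
    x = y := by
  rcases lt_trichotomy x y with h1 | h1 | h1
  · have h2 := cnt_succ_of_mem hx
    have h3 := cnt_mono K r (show x + 1 ≤ y by omega)
    omega
  · exact h1
  · have h2 := cnt_succ_of_mem hy
    have h3 := cnt_mono K r (show y + 1 ≤ x by omega)
    omega

lemma exists_kth (K : β → Finset ℕ) (r : β) {k : ℕ} (hk : k < (K r).card) :
    ∃ x ∈ K r, cnt K r x = k := by
  classical
  have hex : ∃ p, k < cnt K r p := by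
    refine ⟨(K r).sup id + 1, ?_⟩
    unfold cnt
    rw [Finset.filter_true_of_mem]
    · exact hk
    · intro x hx
      have := Finset.le_sup (f := id) hx
      simp only [id] at this
      omega
  obtain ⟨p, hp, hmin⟩ : ∃ p, k < cnt K r p ∧ ∀ q < p, cnt K r q ≤ k := by
    refine ⟨Nat.find hex, Nat.find_spec hex, fun q hq => ?_⟩
    have := Nat.find_min hex hq
    omega
  rcases p with _ | q
  · rw [cnt_zero] at hp
    omega
  · have h1 := hmin q (by omega)
    by_cases hq : q ∈ K r
    · have h2 := cnt_succ_of_mem hq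
      exact ⟨q, hq, by omega⟩
    · have h2 := cnt_succ_of_notMem hq
      omega

open Classical in
/-- the `k`-th kept position -/
noncomputable def kth (K : β → Finset ℕ) (r : β) (k : ℕ) : ℕ :=
  if hk : k < (K r).card then (exists_kth K r hk).choose else 0

lemma kth_mem {r : β} {k : ℕ} (hk : k < (K r).card) : kth K r k ∈ K r := by
  unfold kth
  rw [dif_pos hk]
  exact (exists_kth K r hk).choose_spec.1

lemma cnt_kth {r : β} {k : ℕ} (hk : k < (K r).card) : cnt K r (kth K r k) = k := by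
  unfold kth
  rw [dif_pos hk]
  exact (exists_kth K r hk).choose_spec.2

lemma cnt_lt {r : β} {x : ℕ} (hx : x ∈ K r) : cnt K r x < (K r).card := by
  have h1 := cnt_succ_of_mem hx
  have h2 : cnt K r (x + 1) ≤ (K r).card := cnt_le
  omega

lemma kth_cnt {r : β} {x : ℕ} (hx : x ∈ K r) : kth K r (cnt K r x) = x :=
  cnt_inj (kth_mem (cnt_lt hx)) hx (cnt_kth (cnt_lt hx))

/-- the part of a node (total version) -/
def spg (W : RW X₀ β) (K : β → Finset ℕ) (v : Nd X₀ β) : Nd X₀ β := (spi W K v).getD v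

/-- ends after contraction -/
def ens (W : RW X₀ β) (K : β → Finset ℕ) (ends : α → Sym2 (Nd X₀ β)) (e : α) : Sym2 (Nd X₀ β) :=
  (ends e).map (spg W K)

/-- elements of the rows after contraction -/
noncomputable def els (K : β → Finset ℕ) (el : β → ℕ → α) (r : β) (k : ℕ) : α := el r (kth K r k)

/-- kept elements of the rows -/
def kel (K : β → Finset ℕ) (el : β → ℕ → α) : Set α := {e | ∃ r, ∃ x ∈ K r, el r x = e}

lemma spg_nd (hK : ∀ r, ∀ x ∈ K r, x < W.len r) (hne : ∀ r, (K r).Nonempty) {r : β} {p : ℕ}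
    (hp : p ≤ W.len r) : spg W K (W.nd r p) = (W.shrink K).nd r (cnt K r p) := by
  unfold spg
  rw [spi_nd hK hne hp]
  rfl

lemma cel_part (hR : RowIn W S ends el) (hK : ∀ r, ∀ x ∈ K r, x < W.len r)
    (hne : ∀ r, (K r).Nonempty) {e : α} (he : e ∈ cel W K el) : ∃ P, ∀ v ∈ ends e,
      spi W K v = some P := by
  obtain ⟨r, p, hp, hpK, rfl⟩ := he
  refine ⟨(W.shrink K).nd r (cnt K r p), fun v hv => ?_⟩
  rw [hR.ends r p hp] at hv
  rcases Sym2.mem_iff.1 hv with rfl | rfl
  · exact spi_nd hK hne hp.le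
  · rw [spi_nd hK hne (by omega), cnt_succ_of_notMem hpK]

lemma cel_sub (hR : RowIn W S ends el) : cel W K el ⊆ S := by
  rintro e ⟨r, p, hp, _, rfl⟩
  exact hR.mem r p hp

/-- **Contraction of a subdivided graph.** -/
theorem shrink [Finite β] (hR : RowIn W S ends el) (hK : ∀ r, ∀ x ∈ K r, x < W.len r)
    (hne : ∀ r, (K r).Nonempty) {T : Set α} (hTS : T ⊆ S)
    (hT : ∀ e ∈ T, ∃ p q P Q, ends e = s(p, q) ∧ spi W K p = some P ∧ spi W K q = some Q ∧
      P ≠ Q) :
    ∃ F : Nd X₀ β → Set α, (∀ P, F P ⊆ cel W K el) ∧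
      Quo S ends (spi W K) F (kel K el ∪ T) (ens W K ends) ∧
      RowIn (W.shrink K) (kel K el ∪ T) (ens W K ends) (els K el) := by
  classical
  have hcS := cel_sub (K := K) hR
  have htree : ∀ P, ∃ F : Set α, F ⊆ cel W K el ∧ ((prt (spi W K) P = ∅ ∧ F = ∅) ∨
      Arb S ends (prt (spi W K) P) F) := by
    intro P
    rcases (prt (spi W K) P).eq_empty_or_nonempty with h | h
    · exact ⟨∅, empty_subset _, Or.inl ⟨h, rfl⟩⟩
    · obtain ⟨τ, hτ⟩ := exists_arb (finite_part (W := W) (K := K) P) h (vconn_part hR hK hne P)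
      refine ⟨τ, fun e he => (hτ.1 he).1, Or.inr ⟨fun e he => ⟨hcS (hτ.1 he).1, (hτ.1 he).2⟩,
        hτ.2⟩⟩
  choose F hF1 hF2 using htree
  have hne' : ∀ e, e ∈ T → e ∉ cel W K el := by
    intro e he hc
    obtain ⟨p, q, P, Q, h1, h2, h3, h4⟩ := hT e he
    obtain ⟨P', hP'⟩ := cel_part hR hK hne hc
    have h5 := hP' p (by rw [h1]; simp)
    have h6 := hP' q (by rw [h1]; simp)
    rw [h2] at h5
    rw [h3] at h6
    exact h4 ((Option.some.inj h5).trans (Option.some.inj h6).symm)
  have hkel : ∀ e, e ∈ kel K el → e ∉ cel W K el := by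
    rintro e ⟨r, x, hx, rfl⟩ ⟨r', p, hp, hpK, h1⟩
    obtain ⟨rfl, rfl⟩ := hR.inj r' p r x hp (hK r x hx) h1
    exact hpK hx
  refine ⟨F, hF1, ⟨finite_part, hF2, ?_, ?_, ?_⟩, ⟨?_, ?_, ?_, ?_⟩⟩
  · rintro e (⟨r, x, hx, rfl⟩ | he)
    · exact hR.mem r x (hK r x hx)
    · exact hTS he
  · rintro e (⟨r, x, hx, rfl⟩ | he)
    · refine ⟨W.nd r x, W.nd r (x + 1), _, _, hR.ends r x (hK r x hx),
        spi_nd hK hne (hK r x hx).le, spi_nd hK hne (hK r x hx), ?_⟩
      unfold ens
      rw [hR.ends r x (hK r x hx), Sym2.map_mk, spg_nd hK hne (hK r x hx).le,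
        spg_nd hK hne (hK r x hx)]
    · obtain ⟨p, q, P, Q, h1, h2, h3, _⟩ := hT e he
      refine ⟨p, q, P, Q, h1, h2, h3, ?_⟩
      unfold ens
      rw [h1, Sym2.map_mk]
      unfold spg
      rw [h2, h3]
      rfl
  · intro P
    rw [Set.disjoint_left]
    rintro e (he | he) hF
    · exact hkel e he (hF1 P hF)
    · exact hne' e he (hF1 P hF)
  · intro r
    exact Finset.card_pos.2 (hne r)
  · intro r k hk
    exact Or.inl ⟨r, _, kth_mem hk, rfl⟩
  · intro r k hk
    have h1 := hK r _ (kth_mem (K := K) hk)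
    unfold ens els
    rw [hR.ends r _ h1, Sym2.map_mk, spg_nd hK hne h1.le, spg_nd hK hne h1, cnt_kth hk,
      cnt_succ_of_mem (kth_mem hk), cnt_kth hk]
  · intro r k r' k' hk hk' h
    obtain ⟨rfl, h1⟩ := hR.inj r _ r' _ (hK r _ (kth_mem hk)) (hK r' _ (kth_mem hk')) h
    refine ⟨rfl, ?_⟩
    have h2 := cnt_kth (K := K) hk
    rw [h1, cnt_kth hk'] at h2
    exact h2.symm

end

end TST
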