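import Pool.Agent.TST.PassDef54
import Pool.Agent.DA.Span95

/-!
# Span for one pass of LIFT (row R8 of T-star, helper95)

`A := DA.Rg a₂ w₂ Wd` = vertices of the small square without the holes.  `Crs.span`: the elements of
`Dr` (one on every row which leaves `A`) are in the closure of all other elements.
-/

set_option autoImplicit false

open Set BIC BICS CWL
open scoped Matroid

namespace TSH

universe u

open Mdl Mdj EN Gad TST EN.Wall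

section

variable {α : Type u} {M N : Matroid α} {w u a n₀ rZ a₂ w₂ i q L' a' b' Λ : ℕ}
  {Q J Om : Finset (ℕ × ℕ)} {W : Set (Bool × ℕ × ℕ)} {Wd : Set (ℕ × ℕ)} {G : ℕ × ℕ → ℕ × ℕ}
  {Zt Kp : Set (Sym2 (ℕ × ℕ))} {L : Bool × ℕ × ℕ → List α} {f : α → Sym2 ((ℕ × ℕ) ⊕ α)}
  {e : Bool × ℕ × ℕ → α} {row : α → Sym2 (ℕ × ℕ)}

/-- the points `Pt` in the small square are in `Om` (in its coordinates), and `Om` is deep -/
structure OmOf (Λ a₂ w₂ : ℕ) (Pt Om : Finset (ℕ × ℕ)) : Prop where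
  mem : ∀ v ∈ Pt, a₂ ≤ v.1 → v.1 ≤ a₂ + w₂ → a₂ ≤ v.2 → v.2 ≤ a₂ + w₂ → DA.shp a₂ v ∈ Om
  deep : ∀ o ∈ Om, DA.DeepR (0, 0) (w₂ + 1) (w₂ + 1) Λ o

lemma mem_rg95 {v : ℕ × ℕ} : v ∈ DA.Rg a₂ w₂ Wd ↔ (a₂ ≤ v.1 ∧ v.1 ≤ a₂ + w₂ ∧ a₂ ≤ v.2 ∧
    v.2 ≤ a₂ + w₂) ∧ DA.shp a₂ v ∉ Wd := by
  unfold DA.Rg
  simp only [mem_ofPred_eq, mem_sdiff]
  rw [Gad.mem_rct]
  unfold DA.shp
  dsimp only
  constructor
  · rintro ⟨h1, h2, h3, h4⟩
    exact ⟨by omega, h4⟩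
  · rintro ⟨h1, h2⟩
    exact ⟨by omega, by omega, by omega, h2⟩

lemma rg_finite95 : (DA.Rg a₂ w₂ Wd).Finite := by
  refine (Gad.rect_finite a₂ a₂ (w₂ + 1) (w₂ + 1)).subset fun v hv => ?_
  rw [mem_rg95] at hv
  rw [Gad.mem_rct]
  omega

/-- **The region is far from the points.** -/
lemma rg_far95 (hB : SBox Λ a n₀ a₂ w₂ (Q ∪ J)) (hO : OmOf Λ a₂ w₂ (Q ∪ J) Om)
    (hC : DA.Crs.{u} w₂ i q L' a' b' Om Wd G Zt Kp) (hq : q < Λ) {v p : ℕ × ℕ}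
    (hv : v ∈ DA.Rg a₂ w₂ Wd) (hp : p ∈ Q ∪ J) : q < DA.sd v p := by
  rw [mem_rg95] at hv
  obtain ⟨h1, h2⟩ := hv
  by_contra hcon
  have h3 : DA.sd v p ≤ q := by omega
  rw [DA.sd_le] at h3
  rcases hB.pts p hp with h4 | h4
  · refine h2 (hC.win _ ⟨_, hO.mem p hp (by omega) (by omega) (by omega) (by omega), ?_⟩)
    rw [DA.sd_le]
    unfold DA.shp
    dsimp only
    omega
  · omega

/-- the vertices of the region are in the inner square off the squares -/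
lemma rg_core95 (hB : SBox Λ a n₀ a₂ w₂ (Q ∪ J)) (hO : OmOf Λ a₂ w₂ (Q ∪ J) Om)
    (hC : DA.Crs.{u} w₂ i q L' a' b' Om Wd G Zt Kp) (hq : q < Λ) (hr : rZ ≤ q) {v : ℕ × ℕ}
    (hv : v ∈ DA.Rg a₂ w₂ Wd) : v ∈ Box a n₀ ∧ ∀ c ∈ Q, rZ < DA.sd v c := by
  classical
  refine ⟨?_, fun c hc => ?_⟩
  · rw [mem_rg95] at hv
    have h1 := hB.lo
    have h2 := hB.hi
    simp only [Box, mem_ofPred_eq]
    omega
  · have := rg_far95 hB hO hC hq hv (Finset.mem_union_left J hc)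
    omega

/-- the vertices near the region are in the inner square off the squares -/
lemma rg_near95 (hB : SBox Λ a n₀ a₂ w₂ (Q ∪ J)) (hO : OmOf Λ a₂ w₂ (Q ∪ J) Om)
    (hC : DA.Crs.{u} w₂ i q L' a' b' Om Wd G Zt Kp) (hq : q < Λ) (hr : rZ + 6 ≤ q) {v p : ℕ × ℕ}
    (hv : v ∈ DA.Rg a₂ w₂ Wd) (hvp : DA.sd v p ≤ 5) : p ∈ Box a n₀ ∧ ∀ c ∈ Q, rZ < DA.sd p c := by
  classical
  rw [DA.sd_le] at hvp
  refine ⟨?_, fun c hc => ?_⟩
  · rw [mem_rg95] at hv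
    have h1 := hB.lo
    have h2 := hB.hi
    simp only [Box, mem_ofPred_eq]
    omega
  · have h1 := rg_far95 hB hO hC hq hv (Finset.mem_union_left J hc)
    by_contra hcon
    have h2 : DA.sd p c ≤ rZ := by omega
    rw [DA.sd_le] at h2
    have h3 : DA.sd v c ≤ q := by
      rw [DA.sd_le]
      omega
    omega

/-- the kill rows have no end in the region -/
lemma rg_W95 (hK : KDat M w L f u a n₀ rZ Q N J W) (hB : SBox Λ a n₀ a₂ w₂ (Q ∪ J))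
    (hO : OmOf Λ a₂ w₂ (Q ∪ J) Om) (hC : DA.Crs.{u} w₂ i q L' a' b' Om Wd G Zt Kp) (hq : q < Λ)
    (hr : rZ + 8 ≤ q) {s : Bool × ℕ × ℕ} (hs : s ∈ W) :
    s ∈ DA.BR w a n₀ rZ Q ∧ segNear s ∉ DA.Rg a₂ w₂ Wd ∧ segFar s ∉ DA.Rg a₂ w₂ Wd := by
  classical
  refine ⟨hK.W_sub hs, ?_⟩
  rcases hK.W_loc s hs with ⟨c, hc, h1, h2⟩ | ⟨j, hj, h1, h2⟩
  · have h3 := fun v (hv : v ∈ DA.Rg a₂ w₂ Wd) =>
      rg_far95 hB hO hC hq hv (Finset.mem_union_left J hc)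
    constructor
    · intro h4
      have := h3 _ h4
      omega
    · intro h4
      have := h3 _ h4
      omega
  · have h3 := fun v (hv : v ∈ DA.Rg a₂ w₂ Wd) =>
      rg_far95 hB hO hC hq hv (Finset.mem_union_right Q hj)
    constructor
    · intro h4
      have h5 := h3 _ h4
      have h6 : DA.sd (segNear s) j ≤ 4 := by
        rw [DA.sd_le]
        omega
      omega
    · intro h4
      have h5 := h3 _ h4
      have h6 : DA.sd (segFar s) j ≤ 4 := by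
        rw [DA.sd_le]
        omega
      omega

/-- rows inside of the inner square off the squares -/
lemma mem_br95 (haw : a + (2 * n₀ - 1) ≤ w) {s : Bool × ℕ × ℕ} {x y : ℕ}
    (hs : s ∈ CWL.Rg x (x + 4) y (y + 4))
    (h : ∀ p : ℕ × ℕ, x ≤ p.1 → p.1 ≤ x + 4 → y ≤ p.2 → p.2 ≤ y + 4 →
      p ∈ Box a n₀ ∧ ∀ c ∈ Q, rZ < DA.sd p c) : s ∈ DA.BR w a n₀ rZ Q := by
  have hN : ∀ p : ℕ × ℕ, (p = segNear s ∨ p = segFar s) →
      p ∈ Box a n₀ ∧ ∀ c ∈ Q, rZ < DA.sd p c := by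
    intro p hp
    have h1 : p ∈ VS (CWL.Rg x (x + 4) y (y + 4)) := ⟨s, hs, hp⟩
    rw [vs_rg (by omega)] at h1
    obtain ⟨k1, k2, k3, k4⟩ := h1
    exact h p k1 k2 k3 k4
  have h1 := hN _ (Or.inl rfl)
  have h2 := hN _ (Or.inr rfl)
  refine ⟨?_, ⟨h1.1, h2.1⟩, fun c hc => ⟨h1.2 c hc, h2.2 c hc⟩⟩
  obtain ⟨t, p1, p2⟩ := s
  have h3 := h1.1
  have h4 := h2.1
  cases t <;> simp only [Box, segNear, segFar, CWL.Rg, Seg, mem_ofPred_eq, Bool.false_eq_true,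
    false_and, true_and, or_false, false_or, reduceCtorEq, if_true, if_false] at h3 h4 hs ⊢ <;> omega

/-- representatives of the rows inside of the region -/
lemma rg_wallH95 (hwin : a₂ + w₂ ≤ w) (hrow : ∀ s ∈ Seg w, ∀ x ∈ L s, row x = DA.srow s) {c : Set α}
    (hc : c ⊆ crr L (DA.RA w (DA.Rg a₂ w₂ Wd))) (hinj : InjOn row c)
    (hex : ∀ s ∈ DA.RA w (DA.Rg a₂ w₂ Wd), ∃ x ∈ c, x ∈ L s) :
    DA.WallH c (fun x => (row x).map (DA.shp a₂)) w₂ Wd := by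
  have hle : ∀ x ∈ c, ∀ v ∈ row x, v ∈ DA.Rg a₂ w₂ Wd := by
    intro x hx v hv
    obtain ⟨s, hs, hxs⟩ := hc hx
    rw [hrow s hs.1 x hxs] at hv
    rcases Sym2.mem_iff.1 hv with rfl | rfl
    · exact hs.2.1
    · exact hs.2.2
  refine ⟨?_, ?_, ?_⟩
  · intro x hx y hy hxy
    exact hinj hx hy (DA.shp_map (fun v hv => DA.Rg.le (hle x hx v hv))
      (fun v hv => DA.Rg.le (hle y hy v hv)) hxy)
  · intro x hx
    obtain ⟨s, hs, hxs⟩ := hc hx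
    obtain ⟨h1, _, _⟩ := DA.wadj_srow hs.1
    refine ⟨DA.shp a₂ (segNear s), DA.shp a₂ (segFar s), ?_,
      (DA.shp_wadj (DA.Rg.le hs.2.1) (DA.Rg.le hs.2.2)).2 h1, hs.2.1.2.2, hs.2.2.2.2⟩
    rw [hrow s hs.1 x hxs]
    rfl
  · intro p p' hpp hp hp'
    have h1 := DA.mem_Rg_of (a := a₂) hp
    have h2 := DA.mem_Rg_of (a := a₂) hp'
    have h3 : DA.wadj (p.1 + a₂, p.2 + a₂) (p'.1 + a₂, p'.2 + a₂) := by
      rw [← DA.shp_wadj (DA.Rg.le h1) (DA.Rg.le h2), DA.shp_add, DA.shp_add]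
      exact hpp
    obtain ⟨s, hs, hss⟩ := DA.seg_of_wadj h3 (DA.Rg.rect h1 hwin) (DA.Rg.rect h2 hwin)
    have hsA : s ∈ DA.RA w (DA.Rg a₂ w₂ Wd) := by
      have hm : ∀ v ∈ DA.srow s, v ∈ DA.Rg a₂ w₂ Wd := by
        intro v hv
        rw [hss, Sym2.mem_iff] at hv
        rcases hv with rfl | rfl
        · exact h1
        · exact h2
      exact ⟨hs, hm _ (Sym2.mem_mk_left _ _), hm _ (Sym2.mem_mk_right _ _)⟩
    obtain ⟨x, hx, hxs⟩ := hex s hsA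
    refine ⟨x, hx, ?_⟩
    rw [hrow s hs x hxs, hss, Sym2.map_mk, DA.shp_add, DA.shp_add]

/-- full sets in the coordinates of the wall -/
lemma rg_full95 {c : Set α} (hle : ∀ x ∈ c, ∀ v ∈ row x, v ∈ DA.Rg a₂ w₂ Wd) {U : Set (ℕ × ℕ)}
    {F : Set α} (hF : FullB c (fun x => (row x).map (DA.shp a₂)) U F) :
    FullB c row {v | v ∈ DA.Rg a₂ w₂ Wd ∧ DA.shp a₂ v ∈ U} F := by
  obtain ⟨h1, φ, h2, h3⟩ := hF
  have h4 : ∀ x ∈ F, (((φ x).1 + a₂, (φ x).2 + a₂) : ℕ × ℕ) ∈ row x := by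
    intro x hx
    have h5 := h3 x hx
    simp only at h5
    rw [Sym2.mem_map] at h5
    obtain ⟨v, hv, hvx⟩ := h5
    have h6 := DA.Rg.le (hle x (h1 hx).1 v hv)
    rw [← hvx]
    have h7 : (((DA.shp a₂ v).1 + a₂, (DA.shp a₂ v).2 + a₂) : ℕ × ℕ) = v := by
      unfold DA.shp
      dsimp only
      ext
      · exact Nat.sub_add_cancel h6.1
      · exact Nat.sub_add_cancel h6.2
    rw [h7]
    exact hv
  refine ⟨fun x hx => ⟨(h1 hx).1, fun v hv => ⟨hle x (h1 hx).1 v hv, ?_⟩⟩,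
    fun x => ((φ x).1 + a₂, (φ x).2 + a₂), ⟨?_, ?_, ?_⟩, h4⟩
  · exact (h1 hx).2 _ (Sym2.mem_map.2 ⟨v, hv, rfl⟩)
  · intro x hx
    refine ⟨hle x (h1 hx).1 _ (h4 x hx), ?_⟩
    rw [DA.shp_add]
    exact h2.mapsTo hx
  · intro x hx y hy hxy
    refine h2.injOn hx hy ?_
    simp only [Prod.mk.injEq, Nat.add_right_cancel_iff] at hxy
    ext
    · exact hxy.1
    · exact hxy.2
  · rintro v ⟨hv, hvU⟩
    obtain ⟨x, hx, hxv⟩ := h2.surjOn hvU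
    refine ⟨x, hx, ?_⟩
    simp only
    rw [hxv]
    have h6 := DA.Rg.le hv
    unfold DA.shp
    dsimp only
    ext
    · exact Nat.sub_add_cancel h6.1
    · exact Nat.sub_add_cancel h6.2

/-- **Span for one pass.** -/
theorem crs_span (h : GSide M (Seg w) L f e u) (hrow : ∀ s ∈ Seg w, ∀ x ∈ L s, row x = DA.srow s)
    (hK : KDat M w L f u a n₀ rZ Q N J W) (hB : SBox Λ a n₀ a₂ w₂ (Q ∪ J))
    (hO : OmOf Λ a₂ w₂ (Q ∪ J) Om) (hC : DA.Crs.{u} w₂ i q L' a' b' Om Wd G Zt Kp)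
    (hq : rZ + 8 ≤ q) (hΛ : q + 16 ≤ Λ) (hL : L' + 8 ≤ Λ) (haw : a + (2 * n₀ - 1) ≤ w)
    {Gm Dr : Set α} (hG : ∀ s ∈ Seg w, ∀ x ∈ L s, x ∈ Gm ∨ x ∈ Dr)
    (hDr : ∀ x ∈ Dr, ∃ s ∈ Seg w, x ∈ L s ∧
      (segNear s ∈ DA.Rg a₂ w₂ Wd ↔ segFar s ∉ DA.Rg a₂ w₂ Wd))
    (hinj : InjOn row Dr) : Dr ⊆ M.closure Gm := by
  classical
  have hNf := hK.fin
  have hqΛ : q < Λ := by omega
  have hb1 := hB.big
  have hb2 := hB.lo
  have hb3 := hB.hi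
  have hWr : ∀ v ∈ Wd, DA.DeepR (0, 0) (w₂ + 1) (w₂ + 1) 8 v := by
    intro v hv
    obtain ⟨o, ho, h1⟩ := hC.win' v hv
    have h2 := hO.deep o ho
    unfold DA.DeepR at h2 ⊢
    rw [DA.sd_le] at h1
    dsimp only at h2 ⊢
    omega
  refine DA.hol_span (w := w) (a := a) (n₀ := n₀) (r := rZ) (Q := Q) h hK.bic hrow
    (W := W) hK.clo (A := DA.Rg a₂ w₂ Wd) rg_finite95 ?_ (fun s hs => rg_W95 hK hB hO hC hqΛ hq hs)
    ?_ ?_ (fun s hs => hG s hs.1) hDr hinj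
  · -- rows with an end in the region
    intro s hs hsA
    have h1 : DA.sd (segNear s) (segFar s) ≤ 1 := by
      rw [DA.sd_le]
      obtain ⟨t, p1, p2⟩ := s
      cases t <;> simp [segNear, segFar] <;> omega
    obtain ⟨v, hv, hv1, hv2⟩ : ∃ v ∈ DA.Rg a₂ w₂ Wd, DA.sd v (segNear s) ≤ 5 ∧
        DA.sd v (segFar s) ≤ 5 := by
      rw [DA.sd_le] at h1
      rcases hsA with h2 | h2
      · refine ⟨_, h2, ?_, ?_⟩ <;> rw [DA.sd_le] <;> omega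
      · refine ⟨_, h2, ?_, ?_⟩ <;> rw [DA.sd_le] <;> omega
    have h3 := rg_near95 (rZ := rZ) hB hO hC hqΛ (by omega) hv hv1
    have h4 := rg_near95 (rZ := rZ) hB hO hC hqΛ (by omega) hv hv2
    exact ⟨hs, ⟨h3.1, h4.1⟩, fun c hc => ⟨h3.2 c hc, h4.2 c hc⟩⟩
  · -- the windows
    intro s hs v v' hvv hv hv'
    have hadj : DA.sd v v' ≤ 1 := by
      have h1 : DA.sd (segNear s) (segFar s) ≤ 1 := by
        rw [DA.sd_le]
        obtain ⟨t, p1, p2⟩ := s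
        cases t <;> simp [segNear, segFar] <;> omega
      unfold DA.srow at hvv
      rw [Sym2.eq_iff] at hvv
      rcases hvv with ⟨rfl, rfl⟩ | ⟨rfl, rfl⟩
      · exact h1
      · rw [DA.sd_le] at h1 ⊢
        omega
    have hadj' := hadj
    rw [DA.sd_le] at hadj'
    have hfin : ∀ x y : ℕ, (x ≤ v'.1 ∧ v'.1 ≤ x + 4 ∧ y ≤ v'.2 ∧ v'.2 ≤ y + 4) →
        (∀ p : ℕ × ℕ, x ≤ p.1 → p.1 ≤ x + 4 → y ≤ p.2 → p.2 ≤ y + 4 → p ∉ DA.Rg a₂ w₂ Wd) →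
        ∀ s' ∈ CWL.Rg x (x + 4) y (y + 4), s' ∈ DA.BR w a n₀ rZ Q ∧
          segNear s' ∉ DA.Rg a₂ w₂ Wd ∧ segFar s' ∉ DA.Rg a₂ w₂ Wd := by
      intro x y hxy hno s' hs'
      have hm : ∀ p : ℕ × ℕ, (p = segNear s' ∨ p = segFar s') → p ∉ DA.Rg a₂ w₂ Wd := by
        intro p hp
        have h1 : p ∈ VS (CWL.Rg x (x + 4) y (y + 4)) := ⟨s', hs', hp⟩
        rw [vs_rg (by omega)] at h1
        obtain ⟨k1, k2, k3, k4⟩ := h1
        exact hno p k1 k2 k3 k4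
      refine ⟨mem_br95 haw hs' ?_, hm _ (Or.inl rfl), hm _ (Or.inr rfl)⟩
      intro p h1 h2 h3 h4
      exact rg_near95 hB hO hC hqΛ (by omega) hv (by rw [DA.sd_le]; omega)
    have hvm := (mem_rg95.1 hv).1
    by_cases hin : a₂ ≤ v'.1 ∧ v'.1 ≤ a₂ + w₂ ∧ a₂ ≤ v'.2 ∧ v'.2 ≤ a₂ + w₂
    · -- in a hole
      have hvW : DA.shp a₂ v' ∈ Wd := by
        by_contra h1
        exact hv' (mem_rg95.2 ⟨hin, h1⟩)
      obtain ⟨x, y, h1, h2⟩ := hC.win4 (by omega) _ hvW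
      have h3 : x ≤ v'.1 - a₂ ∧ v'.1 - a₂ ≤ x + 4 ∧ y ≤ v'.2 - a₂ ∧ v'.2 - a₂ ≤ y + 4 := h1
      refine ⟨x + a₂, y + a₂, by omega, hfin _ _ (by omega) ?_⟩
      intro p k1 k2 k3 k4 hp
      refine (mem_rg95.1 hp).2 (h2 _ ?_ ?_ ?_ ?_) <;> unfold DA.shp <;> dsimp only <;> omega
    · by_cases c1 : v'.1 < a₂
      · refine ⟨v'.1 - 4, v'.2, by omega, hfin _ _ (by omega) ?_⟩
        intro p k1 k2 k3 k4 hp
        have := (mem_rg95.1 hp).1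
        omega
      · by_cases c2 : a₂ + w₂ < v'.1
        · refine ⟨v'.1, v'.2, by omega, hfin _ _ (by omega) ?_⟩
          intro p k1 k2 k3 k4 hp
          have := (mem_rg95.1 hp).1
          omega
        · by_cases c3 : v'.2 < a₂
          · refine ⟨v'.1, v'.2 - 4, by omega, hfin _ _ (by omega) ?_⟩
            intro p k1 k2 k3 k4 hp
            have := (mem_rg95.1 hp).1
            omega
          · refine ⟨v'.1, v'.2, by omega, hfin _ _ (by omega) ?_⟩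
            intro p k1 k2 k3 k4 hp
            have := (mem_rg95.1 hp).1
            omega
  · -- the region is full
    intro c hc hcinj hcex v hv
    have hW := rg_wallH95 (row := row) (w := w) (L := L) (a₂ := a₂) (w₂ := w₂) (Wd := Wd) (by omega)
      hrow hc hcinj hcex
    obtain ⟨v₁, hv₁, hne⟩ : ∃ v₁, DA.DeepR (0, 0) (w₂ + 1) (w₂ + 1) 4 v₁ ∧ DA.shp a₂ v ≠ v₁ := by
      by_cases h1 : DA.shp a₂ v = (4, 4)
      · refine ⟨(5, 4), ?_, ?_⟩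
        · unfold DA.DeepR
          dsimp only
          omega
        · rw [h1]
          simp
      · refine ⟨(4, 4), ?_, h1⟩
        unfold DA.DeepR
        dsimp only
        omega
    obtain ⟨F, hF⟩ := hC.full1 c _ hW v₁ hv₁
    have hle : ∀ x ∈ c, ∀ v ∈ row x, v ∈ DA.Rg a₂ w₂ Wd := by
      intro x hx v hv
      obtain ⟨s, hs, hxs⟩ := hc hx
      rw [hrow s hs.1 x hxs] at hv
      rcases Sym2.mem_iff.1 hv with rfl | rfl
      · exact hs.2.1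
      · exact hs.2.2
    exact ⟨{p | p ∈ DA.Rg a₂ w₂ Wd ∧ DA.shp a₂ p ∈ (rect 0 0 (w₂ + 1) (w₂ + 1) \ Wd) \ {v₁}}, F,
      ⟨hv, hv.2.2, hne⟩, fun p hp => hp.1, rg_full95 hle hF⟩

end

end TSH
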