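import Pool.Agent.TST.Swallow

/-!
# The star state of an innermost cell (T-star, near step; helper53)

`StIn`: a reachable state of the star whose leg `l` is exactly the cell `X` and whose exits are constant
on the two other legs; `StIn.root`, `StIn.next` (the inner child at an exit of the state).
Swallowed labels: `SwallowLab`.
-/

set_option autoImplicit false

open Set
open scoped Matroid

namespace TST

section star

variable {α : Type*} {T₀ W₀ X : Set α} {z d w : α} {X₀ Y : Fin 3 → Set α} {i l : Fin 3}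
  {E : α → α → α → Prop} {O A A' : α → Fin 3 → Set α} {B : α → α → α → α → Prop}

/-- a minimal state below a given state -/
theorem StarReach.min_from (h0 : StarRun E O A B X₀ T₀ W₀ X₀ A) (hX : ∀ l, (X₀ l).Finite)
    (P : (Fin 3 → Set α) → Prop) (hR : StarReach E O A B X₀ T₀ W₀ Y A') (hP : P Y) :
    ∃ Z A₂, StarReach E O A B X₀ T₀ W₀ Z A₂ ∧ P Z ∧
      ∀ z ∈ T₀ ∪ W₀, z ∉ SigT O X₀ T₀ Z → ∀ i, (∃ x ∈ Z i, x ∉ A₂ z i) →
        (∃ x ∈ Z i, x ∈ A₂ z i) → ¬ P (chX A₂ Z z i) := by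
  have key : ∀ n : ℕ, ∀ X A', StarReach E O A B X₀ T₀ W₀ X A' → P X →
      (X 0).ncard + (X 1).ncard + (X 2).ncard = n →
      ∃ X A', StarReach E O A B X₀ T₀ W₀ X A' ∧ P X ∧
      ∀ z ∈ T₀ ∪ W₀, z ∉ SigT O X₀ T₀ X → ∀ i, (∃ x ∈ X i, x ∉ A' z i) →
        (∃ x ∈ X i, x ∈ A' z i) → ¬ P (chX A' X z i) := by
    intro n
    induction n using Nat.strong_induction_on with
    | _ n ih =>
      intro X A' h1 h2 h3
      by_cases hcon : ∀ z ∈ T₀ ∪ W₀, z ∉ SigT O X₀ T₀ X → ∀ i, (∃ x ∈ X i, x ∉ A' z i) →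
          (∃ x ∈ X i, x ∈ A' z i) → ¬ P (chX A' X z i)
      · exact ⟨X, A', h1, h2, hcon⟩
      push Not at hcon
      obtain ⟨z, hz, hzT, i, hcut, ⟨y, hy, hyA⟩, hPc⟩ := hcon
      obtain ⟨A₁, h4, -, -⟩ := h1.next h0 hz hzT hcut
      refine ih _ ?_ (chX A' X z i) A₁ h4 hPc rfl
      rw [← h3]
      have fin : ∀ l, (X l).Finite := fun l => (hX l).subset (h1.sub l)
      have le : ∀ l, (chX A' X z i l).ncard ≤ (X l).ncard := fun l =>
        ncard_le_ncard (chX_le l) (fin l)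
      have lt : (chX A' X z i i).ncard < (X i).ncard := by
        refine ncard_lt_ncard ⟨chX_le i, fun h5 => ?_⟩ (fin i)
        have h6 := h5 hy
        rw [chX_self] at h6
        exact h6.2 hyA
      have l0 := le 0
      have l1 := le 1
      have l2 := le 2
      rcases (by decide : ∀ i : Fin 3, i = 0 ∨ i = 1 ∨ i = 2) i with rfl | rfl | rfl <;> omega
  exact key _ Y A' hR hP rfl

/-- **The state of an innermost cell `X` of the leg `l`.** -/
structure StIn (E : α → α → α → Prop) (O A : α → Fin 3 → Set α) (B : α → α → α → α → Prop)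
    (X₀ : Fin 3 → Set α) (T₀ W₀ : Set α) (l : Fin 3) (X : Set α) (Y : Fin 3 → Set α)
    (A' : α → Fin 3 → Set α) : Prop where
  reach : StarReach E O A B X₀ T₀ W₀ Y A'
  leg : Y l = X
  oth : ∀ w, ExR O X₀ T₀ W₀ Y w → ∀ j, j ≠ l → ∀ x ∈ Y j, ∀ y ∈ Y j, E w x y

/-- minimize the other legs -/
theorem StIn.of_reach (h0 : StarRun E O A B X₀ T₀ W₀ X₀ A) (hX : ∀ l, (X₀ l).Finite)
    (hR : StarReach E O A B X₀ T₀ W₀ Y A') (hl : Y l = X) :
    ∃ Z A₂, StIn E O A B X₀ T₀ W₀ l X Z A₂ := by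
  obtain ⟨Z, A₂, h1, h2, h3⟩ := StarReach.min_from h0 hX (fun Z => Z l = X) hR hl
  refine ⟨Z, A₂, h1, h2, fun w hw j hj x hx y hy => ?_⟩
  have hrun := h1.run h0
  rw [(hrun.one hw.1 hw.2).1 j x hx y hy]
  have key : ∀ x ∈ Z j, ∀ y ∈ Z j, x ∈ A₂ w j → y ∈ A₂ w j := by
    intro x hx y hy h4
    by_contra h5
    exact h3 w hw.1 hw.2 j ⟨y, hy, h5⟩ ⟨x, hx, h4⟩ (by rw [chX_ne (Ne.symm hj), h2])
  exact ⟨key x hx y hy, key y hy x hx⟩

/-- the root -/
theorem StIn.root (h0 : StarRun E O A B X₀ T₀ W₀ X₀ A) (hX : ∀ l, (X₀ l).Finite) (l : Fin 3) :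
    ∃ Z A₂, StIn E O A B X₀ T₀ W₀ l (X₀ l) Z A₂ :=
  StIn.of_reach h0 hX .root rfl

/-- the inner child at the exit `z` -/
theorem StIn.next (h : StIn E O A B X₀ T₀ W₀ l X Y A') (h0 : StarRun E O A B X₀ T₀ W₀ X₀ A)
    (hX : ∀ l, (X₀ l).Finite) (hz : ExR O X₀ T₀ W₀ Y z) (hcut : ∃ x ∈ X, x ∉ A' z l) :
    ∃ Z A₂, StIn E O A B X₀ T₀ W₀ l (X \ A' z l) Z A₂ := by
  obtain ⟨A₁, h1, -, -⟩ := h.reach.next h0 hz.1 hz.2 (i := l) (by rw [h.leg]; exact hcut)
  exact StIn.of_reach h0 hX h1 (by rw [chX_self, h.leg])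

end star

end TST
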