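import Pool.Agent.TST.StarPair
import Pool.Agent.TST.StarCross

/-!
# The long row of a star and its outer cells (CLAIM A of T-star; helper63)

`N ／ (H \ {o₃})` with the circuit `F ∪ G` = the long row.  Exits: every exit `z` of the star with a
place on `F` or `G`, and `o₃` (place at the centre).  `P2` of `z` is the pair `PP2` of `z` and `o₃`.
Outer cells of the leg `F` (behind an exit `z` with the outer part `Fo`): `outM`, ends `o₁` and
`c ∈ F \ Fo`.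
-/

set_option autoImplicit false

open Set
open scoped Matroid

namespace TST

variable {α : Type*} {N : Matroid α} {K F G H Fo P A T T' : Set α}
  {z t t' s x y c d f g q o₁ o₂ o₃ : α}

/-- a cut from the classes of the exit -/
lemma cutOff_of_cls (hK : N.IsCircuit K) (hz : z ∈ N.closure K) (hzK : z ∉ K) (hx : x ∈ K)
    (hP : P ⊆ K) (h1 : ∀ y ∈ K, (y ∉ P ↔ Eqv N K z x y))
    (h2 : ∀ c ∈ P, ∀ c' ∈ P, Eqv N K z c c') : CutOff N K P z := by
  refine ⟨hP, hzK, ?_, fun c hc c' hc' hcc => (h2 c hc c' hc').resolve_left hcc⟩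
  have h3 := cls_circuit hK hz hzK hx
  have h4 : K \ Cls N K z x = P := by
    ext v
    constructor
    · rintro ⟨hv, hv2⟩
      by_contra hvP
      exact hv2 ⟨hv, (h1 v hv).1 hvP⟩
    · intro hv
      exact ⟨hP hv, fun h5 => (h1 v (hP hv)).2 h5.2 hv⟩
  rwa [h4] at h3

namespace Tri

/-- the rest of the long row -/
lemma long_sub (_ : Fo ⊆ F) : (F \ Fo) ∪ G ⊆ F ∪ G := by
  rintro v (hv | hv)
  · exact Or.inl hv.1
  · exact Or.inr hv

lemma long_sdiff (h : Theta N K F G H) (hFo : Fo ⊆ F) : (F ∪ G) \ ((F \ Fo) ∪ G) = Fo := by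
  ext v
  constructor
  · rintro ⟨hv | hv, hv2⟩
    · by_contra hvF
      exact hv2 (Or.inl ⟨hv, hvF⟩)
    · exact absurd (Or.inr hv) hv2
  · intro hv
    refine ⟨Or.inl (hFo hv), ?_⟩
    rintro (h1 | h1)
    · exact h1.2 hv
    · exact disjoint_left.1 h.dFG (hFo hv) h1

/-- the exit separates the outer part of `F` from `G` in the long row -/
lemma long_sep (h : Tri N K F G H T o₁ o₂ o₃ z) (hz : ZCut N K z F Fo G H) (hx : x ∈ Fo)
    (hy : y ∈ G) : ¬ Eqv (N ／ (H \ {o₃})) (F ∪ G) z x y := by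
  have hxF := hz.sub hx
  rw [h.th.pair_eqv' h.h3 (Or.inl hxF) (Or.inr hy) (fun h1 => h.zK (h.th.H_sub h1))]
  rintro (h1 | h1)
  · exact disjoint_left.1 h.th.dFG hxF (h1 ▸ hy)
  · obtain ⟨C, c1, c2, c3⟩ := exists_cir_of_cl h1 (fun h2 => h.zK h2.1)
    have key : ∀ v ∈ ({x, y, o₃} : Set α), v ∈ K → v ∉ C := by
      intro v hv hvK hvC
      rcases c1 hvC with h2 | h2
      · exact h.zK (h2 ▸ hvK)
      · exact h2.2 hv
    rcases hz.all C (c1.trans (insert_subset_insert sdiff_subset)) c2 c3 with h2 | h2 | h2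
    · exact key x (Or.inl rfl) (h.th.F_sub hxF) (h2 ▸ Or.inr hx)
    · exact key y (Or.inr (Or.inl rfl)) (h.th.G_sub hy) (h2 ▸ Or.inr (Or.inr hy))
    · exact key o₃ (Or.inr (Or.inr rfl)) (h.th.H_sub h.h3) (h2 ▸ Or.inr (Or.inr h.h3))

/-- ... and only the outer part -/
lemma long_eqv (h : Tri N K F G H T o₁ o₂ o₃ z) (hz : ZCut N K z F Fo G H)
    (hx : x ∈ (F \ Fo) ∪ G) (hy : y ∈ (F \ Fo) ∪ G) :
    Eqv (N ／ (H \ {o₃})) (F ∪ G) z x y := by
  have hn : ∀ v ∈ (F \ Fo) ∪ G, v ∈ F ∪ G ∧ v ∉ Fo := by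
    rintro v (hv | hv)
    · exact ⟨Or.inl hv.1, hv.2⟩
    · exact ⟨Or.inr hv, fun h1 => disjoint_left.1 h.th.dFG (hz.sub h1) hv⟩
  rw [h.th.pair_eqv' h.h3 (hn x hx).1 (hn y hy).1 (fun h1 => h.zK (h.th.H_sub h1))]
  right
  refine N.closure_subset_closure ?_ (hz.c1.mem_closure_sdiff_singleton_of_mem (Or.inl rfl))
  rintro v ⟨hv | hv, hvz⟩
  · exact absurd hv hvz
  · refine ⟨h.th.F_sub (hz.sub hv), ?_⟩
    rintro (h3 | h3 | h3)
    · exact (hn x hx).2 (h3 ▸ hv)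
    · exact (hn y hy).2 (h3 ▸ hv)
    · exact disjoint_left.1 h.th.dFH (hz.sub hv) ((mem_singleton_iff.1 h3) ▸ h.h3)

lemma long_eqv' (h : Tri N K F G H T o₁ o₂ o₃ z) (hz : ZCut N K z F Fo G H)
    (hx : x ∈ Fo) (hy : y ∈ Fo) : Eqv (N ／ (H \ {o₃})) (F ∪ G) z x y := by
  rw [h.th.pair_eqv h.h3 (hz.sub hx) (hz.sub hy) (fun h1 => h.zK (h.th.H_sub h1)),
    hz.cls_X h.th h.zK (hz.sub hx) (hz.sub hy)]
  exact ⟨fun _ => hy, fun _ => hx⟩

/-- **the cut of `z` in the long row**, the side of `G` -/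
theorem long_cutQ (h : Tri N K F G H T o₁ o₂ o₃ z) (hz : ZCut N K z F Fo G H) (ho : o₁ ∈ Fo) :
    CutOff (N ／ (H \ {o₃})) (F ∪ G) ((F \ Fo) ∪ G) z := by
  refine cutOff_of_cls (x := o₁) (h.th.pair h.h3) (h.pair_mem h.zc h.zK) ?_ (Or.inl h.h1)
    (long_sub hz.sub) ?_ (fun c hc c' hc' => h.long_eqv hz hc hc')
  · rintro (h1 | h1)
    · exact h.zK (h.th.F_sub h1)
    · exact h.zK (h.th.G_sub h1)
  · intro y hy
    constructor
    · intro h1
      rcases hy with hy | hy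
      · refine h.long_eqv' hz ho ?_
        by_contra h2
        exact h1 (Or.inl ⟨hy, h2⟩)
      · exact absurd (Or.inr hy) h1
    · intro h1 h2
      have h3 : Eqv (N ／ (H \ {o₃})) (F ∪ G) z y o₂ := h.long_eqv hz h2 (Or.inr h.h2)
      exact h.long_sep hz ho h.h2 (h1.trans (h.th.pair h.h3) hy h3)

/-- **the cut of `o₃` in the long row**, the side of `G` -/
theorem long_cutG (h : Tri N K F G H T o₁ o₂ o₃ z) :
    CutOff (N ／ (H \ {o₃})) (F ∪ G) G o₃ := by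
  refine ⟨subset_union_right, ?_, h.th.swap'.pair_chord h.h3, ?_⟩
  · rintro (h1 | h1)
    · exact disjoint_left.1 h.th.dFH h1 h.h3
    · exact disjoint_left.1 h.th.dGH h1 h.h3
  · intro c hc c' hc' _
    refine (N ／ (H \ {o₃})).closure_subset_closure ?_
      ((h.th.pair_chord h.h3).mem_closure_sdiff_singleton_of_mem (Or.inl rfl))
    rintro v ⟨hv | hv, hv2⟩
    · exact absurd hv hv2
    · refine ⟨Or.inl hv, ?_⟩
      rintro (h3 | h3)
      · exact disjoint_left.1 h.th.dFG hv (h3 ▸ hc)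
      · exact disjoint_left.1 h.th.dFG hv ((mem_singleton_iff.1 h3) ▸ hc')

/-- P2 in the long row, one exit -/
theorem long_PP (h : Tri N K F G H T o₁ o₂ o₃ z) : PP (N ／ (H \ {o₃})) (F ∪ G) T o₁ o₂ z := by
  intro C hCs hC hzC h1C h2C
  refine h.p2.pair h.th h.h3 C ?_ hC hzC (Or.inl ⟨h1C, h2C⟩)
  intro v hv
  rcases hCs hv with (h1 | h1) | h1
  · exact Or.inl (Or.inl h1)
  · exact Or.inl (Or.inr (Or.inr h1))
  · exact Or.inr h1

/-- P1 in the long row: `o₃` is an exit -/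
theorem long_PPo (h : Tri N K F G H T o₁ o₂ o₃ z) : PP (N ／ (H \ {o₃})) (F ∪ G) T o₁ o₂ o₃ := by
  intro C hCs hC hzC h1C h2C
  refine h.p1.pair h.th h.h3 C ?_ hC h1C h2C hzC
  intro v hv
  rcases hCs hv with (h1 | h1) | h1
  · exact Or.inl h1
  · exact Or.inr (Or.inr h1)
  · exact Or.inr (Or.inl h1)

/-- **P2 in the long row**: `z` and `o₃` are a pair -/
theorem long_PP2 (h : Tri N K F G H T o₁ o₂ o₃ z) :
    PP2 (N ／ (H \ {o₃})) (F ∪ G) T o₁ o₂ z o₃ := by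
  intro C hCs hC hzC _ h1C h2C
  refine h.p2.pair h.th h.h3 C ?_ hC hzC (Or.inl ⟨h1C, h2C⟩)
  intro v hv
  rcases hCs hv with (h1 | h1) | h1 | h1
  · exact Or.inl (Or.inl h1)
  · exact Or.inl (Or.inr (Or.inr h1))
  · exact Or.inr h1
  · exact Or.inl (Or.inr (Or.inl h1))

end Tri

/-! ### the outer cell -/

/-- the matroid of the outer cell -/
def outM (N : Matroid α) (F G H Fo : Set α) (c o₃ : α) : Matroid α :=
  (N ／ (H \ {o₃})) ／ (((F \ Fo) ∪ G) \ {c})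

lemma Theta.nFG (h : Theta N K F G H) (ht : t ∉ K) : t ∉ F ∪ G := by
  rintro (h1 | h1)
  · exact ht (h.F_sub h1)
  · exact ht (h.G_sub h1)

lemma Theta.nH (h : Theta N K F G H) (ht : t ∉ K) : t ∉ H := fun h1 => ht (h.H_sub h1)

/-- the circuit of the outer cell -/
theorem Theta.outCir (h : Theta N K F G H) (h3 : o₃ ∈ H) (hFo : Fo ⊆ F) (hc : c ∈ F)
    (hcF : c ∉ Fo) : (outM N F G H Fo c o₃).IsCircuit (insert c Fo) := by
  have h1 := cir_sub (h.pair h3) (Tri.long_sub (G := G) hFo) (c := c) (Or.inl ⟨hc, hcF⟩)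
  rwa [Tri.long_sdiff h hFo] at h1

/-- classes in the outer cell -/
theorem Theta.outEqv (h : Theta N K F G H) (h3 : o₃ ∈ H) (hFo : Fo ⊆ F) (hc : c ∈ F)
    (hcF : c ∉ Fo) (hx : x ∈ insert c Fo) (hy : y ∈ insert c Fo) (ht : t ∉ K) :
    Eqv (outM N F G H Fo c o₃) (insert c Fo) t x y ↔ Eqv N K t x y := by
  have e1 := Tri.long_sdiff h hFo
  have hF : ∀ v ∈ insert c Fo, v ∈ F := by
    rintro v (hv | hv)
    · exact hv ▸ hc
    · exact hFo hv
  have h1 := sub_eqv (N := N ／ (H \ {o₃})) (Tri.long_sub (G := G) hFo) (c := c)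
    (Or.inl ⟨hc, hcF⟩) (t := t) (x := x) (y := y)
    (fun h2 => h.nFG ht (Tri.long_sub hFo h2)) (by rwa [e1]) (by rwa [e1])
  rw [e1] at h1
  rw [← h.pair_eqv h3 (hF x hx) (hF y hy) (h.nH ht)]
  exact h1

/-- closure in the outer cell -/
theorem Tri.outCl (h : Tri N K F G H T o₁ o₂ o₃ z) (hFo : Fo ⊆ F) (hs : s ∈ N.closure K)
    (hsK : s ∉ K) : s ∈ (outM N F G H Fo c o₃).closure (insert c Fo) := by
  refine con_spans ?_ (h.pair_mem hs hsK) (fun h1 => h.th.nFG hsK (Tri.long_sub hFo h1.1))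
  rintro v hv
  by_cases hvc : v = c
  · exact Or.inl (Or.inl hvc)
  by_cases hvF : v ∈ Fo
  · exact Or.inl (Or.inr hvF)
  · refine Or.inr ⟨?_, hvc⟩
    rcases hv with hv | hv
    · exact Or.inl ⟨hv, hvF⟩
    · exact Or.inr hv

namespace Tri

/-- **One exit of the outer cell**: an element which leaves it through `z`. -/
theorem outPP (h : Tri N K F G H T o₁ o₂ o₃ z) (hz : ZCut N K z F Fo G H) (ho : o₁ ∈ Fo)
    (hc : c ∈ F) (hcF : c ∉ Fo) (ht : t ∈ T) (s3 : t ∉ N.closure (K \ {c, o₂, o₃})) (hT' : T' ⊆ T)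
    (s1 : ∀ s ∈ T', s ∈ N.closure (K \ {c, o₂, o₃})) :
    PP (outM N F G H Fo c o₃) (insert c Fo) T' o₁ c t := by
  have hcG : c ∉ G := fun h1 => disjoint_left.1 h.th.dFG hc h1
  have hco : c ≠ o₂ := fun h1 => hcG (h1 ▸ h.h2)
  have hoQ : o₁ ∉ (F \ Fo) ∪ G := by
    rintro (h1 | h1)
    · exact h1.2 ho
    · exact disjoint_left.1 h.th.dFG h.h1 h1
  have key : ∀ s ∈ T, (s ∈ (N ／ (H \ {o₃})).closure ((F ∪ G) \ {c, o₂}) ↔
      s ∈ N.closure (K \ {c, o₂, o₃})) := by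
    intro s hs
    have h1 := h.th.pair_eqv' h.h3 (Or.inl hc) (Or.inr h.h2) (h.th.nH (h.TK s hs))
    constructor
    · intro h2
      exact (h1.1 (Or.inr h2)).resolve_left hco
    · intro h2
      exact (h1.2 (Or.inr h2)).resolve_left hco
  have h1 := sub_path h.long_PP (h.long_cutQ hz ho) (c := c) (Or.inl ⟨hc, hcF⟩) (Or.inr h.h2) hco
    hoQ hT' (fun s hs => (key s (hT' hs)).2 (s1 s hs)) h.zT ht (h.th.nFG (h.TK t ht))
    (fun h2 => s3 ((key t ht).1 h2)) (h.th.pair h.h3).subset_ground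
  rwa [long_sdiff h.th hz.sub] at h1

/-- **Two exits of the outer cell** which leave it through `z` and end at different places beyond
the centre, the first one before `x`, the second one behind `x`. -/
theorem outPP2 (h : Tri N K F G H T o₁ o₂ o₃ z) (hz : ZCut N K z F Fo G H) (ho : o₁ ∈ Fo)
    (hc : c ∈ F) (hcF : c ∉ Fo) (hx : x ∈ G) (hxo : x ≠ o₂) (ht : t ∈ T) (ht' : t' ∈ T)
    (hT' : T' ⊆ T) (s1 : ∀ s ∈ T', s ∈ N.closure (K \ {c, x, o₃}))
    (s2 : t' ∈ N.closure (K \ {c, x, o₃})) (s3 : t ∉ N.closure (K \ {c, x, o₃}))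
    (r1 : ∀ s ∈ T', Eqv N K s x o₂) (r2 : Eqv N K t x o₂) (r3 : ¬ Eqv N K t' x o₂) :
    PP2 (outM N F G H Fo c o₃) (insert c Fo) T' o₁ c t t' := by
  have hcG : c ∉ G := fun h1 => disjoint_left.1 h.th.dFG hc h1
  have hcx : c ≠ x := fun h1 => hcG (h1 ▸ hx)
  have hoQ : o₁ ∉ (F \ Fo) ∪ G := by
    rintro (h1 | h1)
    · exact h1.2 ho
    · exact disjoint_left.1 h.th.dFG h.h1 h1
  have key : ∀ s ∈ T, (s ∈ (N ／ (H \ {o₃})).closure ((F ∪ G) \ {c, x}) ↔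
      s ∈ N.closure (K \ {c, x, o₃})) := by
    intro s hs
    have h1 := h.th.pair_eqv' h.h3 (Or.inl hc) (Or.inr hx) (h.th.nH (h.TK s hs))
    constructor
    · intro h2
      exact (h1.1 (Or.inr h2)).resolve_left hcx
    · intro h2
      exact (h1.2 (Or.inr h2)).resolve_left hcx
  have key2 : ∀ s ∈ T, (s ∈ (N ／ (H \ {o₃})).closure ((F ∪ G) \ {x, o₂}) ↔ Eqv N K s x o₂) := by
    intro s hs
    have h1 := h.th.swap'.pair_eqv h.h3 hx h.h2 (h.th.nH (h.TK s hs))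
    rw [union_comm] at h1
    rw [← h1]
    exact ⟨fun h2 => Or.inr h2, fun h2 => h2.resolve_left hxo⟩
  have hzT : z ∉ T := h.zT
  have h3T : o₃ ∉ T := fun h1 => h.TK o₃ h1 (h.th.H_sub h.h3)
  have hzo : z ≠ o₃ := fun h1 => h.zK (h1 ▸ h.th.H_sub h.h3)
  have h1 := h.long_PP2.sub2 (h.long_cutQ hz ho) h.long_cutG subset_union_right
    (c := c) (Or.inl ⟨hc, hcF⟩) hcG hx h.h2 hxo hoQ hT' ht ht' hzT h3T hzo
    (h.th.nFG (h.TK t ht)) (h.th.nFG (h.TK t' ht')) (h.th.pair h.h3).subset_ground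
    (fun s hs => (key s (hT' hs)).2 (s1 s hs)) ((key t' ht').2 s2)
    (fun h2 => s3 ((key t ht).1 h2)) (fun s hs => (key2 s (hT' hs)).2 (r1 s hs))
    ((key2 t ht).2 r2) (fun h2 => r3 ((key2 t' ht').1 h2))
  rwa [long_sdiff h.th hz.sub] at h1

/-- **An exit of the star with its place on `F` and a near element `F` - `G`**, in the half of the
long row with the right end `c ∈ G`, any part `Fo` of the row. -/
theorem halfPP2 (h : Tri N K F G H T o₁ o₂ o₃ z) (hFo : Fo ⊆ F) (hc : c ∈ G) (hco : c ≠ o₂)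
    (ht : t ∈ T) (htc : ¬ Eqv N K t c o₂) (hzc : Eqv N K z c o₂) (hT' : T' ⊆ T)
    (hTc : ∀ s ∈ T', Eqv N K s c o₂) :
    PP2 (((N ／ (H \ {o₃})) ／ (G \ {c})) ／ (F \ Fo)) (insert c Fo) T' o₁ c z t := by
  have key : ∀ s, s ∉ K → (s ∈ (N ／ (H \ {o₃})).closure ((F ∪ G) \ {c, o₂}) ↔
      Eqv N K s c o₂) := by
    intro s hs
    have h1 := h.th.swap'.pair_eqv h.h3 hc h.h2 (h.th.nH hs)
    rw [union_comm] at h1
    rw [← h1]
    exact ⟨fun h2 => Or.inr h2, fun h2 => h2.resolve_left hco⟩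
  have h3T : o₃ ∉ T := fun h1 => h.TK o₃ h1 (h.th.H_sub h.h3)
  have hzo : o₃ ≠ z := fun h1 => h.zK (h1 ▸ h.th.H_sub h.h3)
  have e1 : (F ∪ G) \ G = F := by
    ext v
    constructor
    · rintro ⟨hv | hv, hv2⟩
      · exact hv
      · exact absurd hv hv2
    · exact fun hv => ⟨Or.inl hv, fun h1 => disjoint_left.1 h.th.dFG hv h1⟩
  have h1 := h.long_PP2.symm.sub2' h.long_cutG hc h.h2 hco
    (fun h1 => disjoint_left.1 h.th.dFG h.h1 h1) hT' ht h3T (h.th.nFG h.zK) hzo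
    (h.th.nFG (h.TK t ht)) (h.th.pair h.h3).subset_ground
    (fun s hs => (key s (h.TK s (hT' hs))).2 (hTc s hs)) ((key z h.zK).2 hzc)
    (fun h2 => htc ((key t (h.TK t ht)).1 h2))
  rw [e1] at h1
  refine h1.con ?_ (sdiff_subset.trans fun v hv => Or.inr hv) Subset.rfl
  rintro v (hv | hv)
  · exact Or.inl hv
  · exact Or.inr (hFo hv)

end Tri

end TST
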