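import Pool.Agent.TST.NearPair
import Pool.Agent.TST.SplitDef2

/-!
# Pairs of exits of a row, from the star (CLAIM A of T-star; helper63)

Star with the legs `F`, `G`, `H`.  The row matroid of `G` is `N ／ rA F H f q`: everything on `F` and
`H` is contracted except `f` and `q` (the representatives of the two other rows at the centre, which
are parallel).  The right end of the row is `q`.
-/

set_option autoImplicit false

open Set
open scoped Matroid

namespace TST

variable {α : Type*} {N : Matroid α} {K F G H Fo A T T' : Set α}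
  {z t t' s x y c d f g q o₁ o₂ o₃ : α}

/-- the contracted part of the two other legs -/
def rA (F H : Set α) (f q : α) : Set α := (F \ {f}) ∪ (H \ {q})

lemma rA_comm : rA F H f q = rA H F q f := union_comm _ _

lemma Theta.rA_sub (h : Theta N K F G H) : rA F H f q ⊆ K := by
  rintro v (hv | hv)
  · exact h.F_sub hv.1
  · exact h.H_sub hv.1

lemma Theta.f_notMem (h : Theta N K F G H) (hf : f ∈ F) : f ∉ rA F H f q := by
  rintro (h1 | h1)
  · exact h1.2 rfl
  · exact disjoint_left.1 h.dFH hf h1.1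

lemma Theta.q_notMem (h : Theta N K F G H) (hq : q ∈ H) : q ∉ rA F H f q := by
  rintro (h1 | h1)
  · exact disjoint_left.1 h.dFH h1.1 hq
  · exact h1.2 rfl

lemma Theta.g_notMem (h : Theta N K F G H) (hg : g ∈ G) : g ∉ rA F H f q := by
  rintro (h1 | h1)
  · exact disjoint_left.1 h.dFG h1.1 hg
  · exact disjoint_left.1 h.dGH hg h1.1

/-- the two representatives are parallel -/
lemma Theta.rowPar (h : Theta N K F G H) (hf : f ∈ F) (hq : q ∈ H) :
    (N ／ rA F H f q).IsCircuit {f, q} := by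
  have h1 : ({f, q} : Set α) = (F ∪ H) \ rA F H f q := by
    ext v
    constructor
    · rintro (hv | hv)
      · rw [hv]
        exact ⟨Or.inl hf, h.f_notMem hf⟩
      · rw [mem_singleton_iff.1 hv]
        exact ⟨Or.inr hq, h.q_notMem hq⟩
    · rintro ⟨hv | hv, hv2⟩
      · by_contra hcon
        exact hv2 (Or.inl ⟨hv, fun h3 => hcon (Or.inl h3)⟩)
      · by_contra hcon
        exact hv2 (Or.inr ⟨hv, fun h3 => hcon (Or.inr h3)⟩)
  rw [h1]
  refine h.cFH.contract_isCircuit ⟨?_, fun h2 => h.f_notMem hf (h2 (Or.inl hf))⟩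
  rintro v (hv | hv)
  · exact Or.inl hv.1
  · exact Or.inr hv.1

/-- the row of `G` with the ends `o₂ ∈ G` and `q` -/
theorem Theta.rowCir (h : Theta N K F G H) (hf : f ∈ F) (hq : q ∈ H) :
    (N ／ rA F H f q).IsCircuit (insert q G) := by
  have h1 := h.swap.swap'.sub_in (Fo := H) Subset.rfl hq
  have h2 := h1.swap.pair hf
  rw [Matroid.contract_contract] at h2
  have e1 : insert q (H \ H) ∪ G = insert q G := by
    rw [sdiff_self]
    ext v
    simp
  have e2 : (H \ {q}) ∪ (F \ {f}) = rA F H f q := union_comm _ _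
  rwa [e1, e2] at h2

/-- the element `f` is spanned by the rest of `F` and `H` -/
lemma Theta.f_cl (h : Theta N K F G H) (hf : f ∈ F) {S : Set α} (hS : ∀ v ∈ F ∪ H, v ≠ f → v ∈ S) :
    f ∈ N.closure S := by
  refine N.closure_subset_closure ?_ (h.cFH.mem_closure_sdiff_singleton_of_mem (Or.inl hf))
  rintro v ⟨hv, hvf⟩
  exact hS v hv hvf

/-- Classes of elements of the row do not change. -/
theorem Theta.rowEqv (h : Theta N K F G H) (hf : f ∈ F) (hq : q ∈ H) (hx : x ∈ G) (hy : y ∈ G)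
    (ht : t ∉ rA F H f q) :
    Eqv (N ／ rA F H f q) (insert q G) t x y ↔ Eqv N K t x y := by
  have hK := h.hK
  have h1 : N.closure (insert q G \ {x, y} ∪ rA F H f q) = N.closure (K \ {x, y}) := by
    have hsub : insert q G \ {x, y} ∪ rA F H f q ⊆ K \ {x, y} := by
      rintro v (⟨hv | hv, hv2⟩ | hv)
      · exact ⟨hv ▸ h.H_sub hq, hv2⟩
      · exact ⟨h.G_sub hv, hv2⟩
      · refine ⟨h.rA_sub hv, ?_⟩
        rintro (h3 | h3)
        · exact h.g_notMem hx (h3 ▸ hv)
        · exact h.g_notMem hy ((mem_singleton_iff.1 h3) ▸ hv)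
    refine subset_antisymm (N.closure_subset_closure hsub) ?_
    refine N.closure_subset_closure_of_subset_closure ?_
    have hxy : ∀ v ∈ F ∪ H, v ∉ ({x, y} : Set α) := by
      intro v hv h3
      have h4 : v ∉ G := by
        intro h5
        rcases hv with hv | hv
        · exact disjoint_left.1 h.dFG hv h5
        · exact disjoint_left.1 h.dGH h5 hv
      rcases h3 with h3 | h3
      · exact h4 (h3 ▸ hx)
      · exact h4 ((mem_singleton_iff.1 h3) ▸ hy)
    rintro v ⟨hv, hv2⟩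
    by_cases hvf : v = f
    · rw [hvf]
      refine h.f_cl hf ?_
      rintro w (hw | hw) hwf
      · exact Or.inr (Or.inl ⟨hw, hwf⟩)
      · by_cases hwq : w = q
        · exact Or.inl ⟨Or.inl hwq, hxy w (Or.inr hw)⟩
        · exact Or.inr (Or.inr ⟨hw, hwq⟩)
    · refine N.subset_closure _ (hsub.trans (sdiff_subset.trans h.ground)) ?_
      rw [hK] at hv
      rcases hv with (hv | hv) | hv
      · exact Or.inr (Or.inl ⟨hv, hvf⟩)
      · exact Or.inl ⟨Or.inr hv, hv2⟩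
      · by_cases hvq : v = q
        · exact Or.inl ⟨Or.inl hvq, hv2⟩
        · exact Or.inr (Or.inr ⟨hv, hvq⟩)
  unfold Eqv
  rw [Matroid.contract_closure_eq, h1]
  exact ⟨fun h2 => h2.imp_right And.left, fun h2 => h2.imp_right fun h3 => ⟨h3, ht⟩⟩

/-- The class of the right end. -/
theorem Theta.rowEqvQ (h : Theta N K F G H) (hf : f ∈ F) (hq : q ∈ H) (hx : x ∈ G)
    (ht : t ∉ rA F H f q) :
    Eqv (N ／ rA F H f q) (insert q G) t q x ↔ t ∈ N.closure (K \ {x, f, q}) := by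
  have hK := h.hK
  have hqG : q ∉ G := fun h1 => disjoint_left.1 h.dGH h1 hq
  have hqx : q ≠ x := fun h1 => hqG (h1 ▸ hx)
  have h1 : insert q G \ {q, x} ∪ rA F H f q = K \ {x, f, q} := by
    rw [hK]
    ext v
    constructor
    · rintro (⟨hv | hv, hv2⟩ | hv | hv)
      · exact absurd (Or.inl hv) hv2
      · refine ⟨Or.inl (Or.inr hv), ?_⟩
        rintro (h3 | h3 | h3)
        · exact hv2 (Or.inr h3)
        · exact disjoint_left.1 h.dFG hf (h3 ▸ hv)
        · exact hqG ((mem_singleton_iff.1 h3) ▸ hv)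
      · refine ⟨Or.inl (Or.inl hv.1), ?_⟩
        rintro (h3 | h3 | h3)
        · exact disjoint_left.1 h.dFG hv.1 (h3 ▸ hx)
        · exact hv.2 h3
        · exact disjoint_left.1 h.dFH hv.1 ((mem_singleton_iff.1 h3) ▸ hq)
      · refine ⟨Or.inr hv.1, ?_⟩
        rintro (h3 | h3 | h3)
        · exact disjoint_left.1 h.dGH hx (h3 ▸ hv.1)
        · exact disjoint_left.1 h.dFH hf (h3 ▸ hv.1)
        · exact hv.2 h3
    · rintro ⟨(hv | hv) | hv, hv2⟩
      · exact Or.inr (Or.inl ⟨hv, fun h3 => hv2 (Or.inr (Or.inl h3))⟩)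
      · refine Or.inl ⟨Or.inr hv, ?_⟩
        rintro (h3 | h3)
        · exact hqG (h3 ▸ hv)
        · exact hv2 (Or.inl h3)
      · exact Or.inr (Or.inr ⟨hv, fun h3 => hv2 (Or.inr (Or.inr h3))⟩)
  unfold Eqv
  rw [Matroid.contract_closure_eq, h1]
  constructor
  · rintro (h2 | h2)
    · exact absurd h2 hqx
    · exact h2.1
  · exact fun h2 => Or.inr ⟨h2, ht⟩

/-- spanned elements of the row -/
lemma Theta.rowCl (h : Theta N K F G H) (hf : f ∈ F) (hq : q ∈ H) (ht : t ∈ N.closure K)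
    (htA : t ∉ rA F H f q) : t ∈ (N ／ rA F H f q).closure (insert q G) := by
  rw [Matroid.contract_closure_eq]
  refine ⟨?_, htA⟩
  have hsub : insert q G ∪ rA F H f q ⊆ K := by
    rintro v ((hv | hv) | hv)
    · exact hv ▸ h.H_sub hq
    · exact h.G_sub hv
    · exact h.rA_sub hv
  refine N.closure_subset_closure_of_subset_closure ?_ ht
  intro v hv
  by_cases hvf : v = f
  · rw [hvf]
    refine h.f_cl hf ?_
    rintro w (hw | hw) hwf
    · exact Or.inr (Or.inl ⟨hw, hwf⟩)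
    · by_cases hwq : w = q
      · exact Or.inl (Or.inl hwq)
      · exact Or.inr (Or.inr ⟨hw, hwq⟩)
  · refine N.subset_closure _ (hsub.trans h.ground) ?_
    rw [h.hK] at hv
    rcases hv with (hv | hv) | hv
    · exact Or.inr (Or.inl ⟨hv, hvf⟩)
    · exact Or.inl (Or.inr hv)
    · by_cases hvq : v = q
      · exact Or.inl (Or.inl hvq)
      · exact Or.inr (Or.inr ⟨hv, hvq⟩)

/-- exchange of the two representatives in a circuit -/
lemma Theta.rowRepl (h : Theta N K F G H) (hf : f ∈ F) (hq : q ∈ H) {C : Set α}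
    (hC : (N ／ rA F H f q).IsCircuit C) (hqC : q ∈ C) (hfC : f ∉ C) :
    (N ／ rA F H f q).IsCircuit (insert f (C \ {q})) := by
  refine circuit_replace hC ?_ hqC hfC
  have h1 := h.rowPar hf hq
  rwa [pair_comm] at h1

/-! ### circuits of the row, lifted to the star -/

/-- the end of the leg `H` is in the lifted circuit -/
lemma Theta.end_mem (h : Theta N K F G H) (hq : q ∈ H) (h3 : o₃ ∈ H) {C S : Set α}
    (hC : N.IsCircuit C) (hqC : q ∈ C) (hCS : ∀ v ∈ C, v ∈ K ∨ v ∈ S)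
    (hS : ∀ s ∈ S, Eqv N K s q o₃) : o₃ ∈ C := by
  by_contra h3C
  have hqo : q ≠ o₃ := fun h4 => h3C (h4 ▸ hqC)
  refine h.swap.swap'.notMem_cl hq h3 hqo ?_
  refine N.closure_subset_closure_of_subset_closure ?_
    (hC.mem_closure_sdiff_singleton_of_mem hqC)
  rintro v ⟨hv, hvq⟩
  rcases hCS v hv with h5 | h5
  · refine N.subset_closure _ (sdiff_subset.trans h.ground) ⟨h5, ?_⟩
    rintro (h8 | h8)
    · exact hvq h8
    · exact h3C ((mem_singleton_iff.1 h8) ▸ hv)
  · exact (hS v h5).resolve_left hqo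

/-- an element which separates `f` from the end: the end of the leg `F` is in the lifted circuit -/
lemma end_mem' {C S : Set α} (hC : N.IsCircuit C) (htC : t ∈ C) (hfC : f ∉ C) (hKE : K ⊆ N.E)
    (hCS : ∀ v ∈ C, v ≠ t → v ∈ K ∨ v ∈ S) (hS : ∀ s ∈ S, Eqv N K s f o₁)
    (ht : ¬ Eqv N K t f o₁) : o₁ ∈ C := by
  by_contra h1
  have hfo : f ≠ o₁ := fun h2 => ht (Or.inl h2)
  refine ht (Or.inr ?_)
  refine N.closure_subset_closure_of_subset_closure ?_
    (hC.mem_closure_sdiff_singleton_of_mem htC)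
  rintro v ⟨hv, hvt⟩
  rcases hCS v hv hvt with h5 | h5
  · refine N.subset_closure _ (sdiff_subset.trans hKE) ⟨h5, ?_⟩
    rintro (h8 | h8)
    · exact hfC (h8 ▸ hv)
    · exact h1 ((mem_singleton_iff.1 h8) ▸ hv)
  · exact (hS v h5).resolve_left hfo

namespace Tri

/-- **One near exit** of the row `G`: `t` has a place on `F` (it separates `f` from the end). -/
theorem rowPP (h : Tri N K F G H T o₁ o₂ o₃ z) (hf : f ∈ F) (hq : q ∈ H) (ht : t ∈ T)
    (htf : ¬ Eqv N K t f o₁) (htq : Eqv N K t q o₃) (hT' : T' ⊆ T)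
    (hTf : ∀ s ∈ T', Eqv N K s f o₁) (hTq : ∀ s ∈ T', Eqv N K s q o₃) :
    PP (N ／ rA F H f q) (insert q G) T' o₂ q t := by
  intro C hCs hC htC h2C hqC
  obtain ⟨C', h1, h2, h3⟩ := hC.exists_subset_isCircuit_of_contract
  have hfK := h.th.F_sub hf
  have hel : ∀ v ∈ C', v ≠ t → (v ∈ K ∧ v ≠ f) ∨ v ∈ T' := by
    intro v hv hvt
    rcases h3 hv with h4 | h4
    · rcases hCs h4 with ((h5 | h5) | h5) | h5
      · exact Or.inl ⟨h5 ▸ h.th.H_sub hq, fun h6 => disjoint_left.1 h.th.dFH (h6 ▸ hf)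
          (h5 ▸ hq)⟩
      · exact Or.inl ⟨h.th.G_sub h5, fun h6 => disjoint_left.1 h.th.dFG hf (h6 ▸ h5)⟩
      · exact Or.inr h5
      · exact absurd h5 hvt
    · exact Or.inl ⟨h.th.rA_sub h4, fun h6 => h.th.f_notMem hf (h6 ▸ h4)⟩
  have hfC : f ∉ C' := by
    intro h4
    rcases hel f h4 (fun h5 => h.TK t ht (h5 ▸ hfK)) with h5 | h5
    · exact h5.2 rfl
    · exact h.TK f (hT' h5) hfK
  have ho1 : o₁ ∈ C' := end_mem' h1 (h2 htC) hfC h.th.ground
    (fun v hv hvt => (hel v hv hvt).imp And.left id) hTf htf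
  have ho3 : o₃ ∈ C' := h.th.end_mem (S := insert t T') hq h.h3 h1 (h2 hqC) (by
    intro v hv
    by_cases hvt : v = t
    · exact Or.inr (Or.inl hvt)
    · exact (hel v hv hvt).imp And.left Or.inr) (by
    rintro s (hs | hs)
    · exact hs ▸ htq
    · exact hTq s hs)
  refine h.p1 C' ?_ h1 ho1 (h2 h2C) ho3
  intro v hv
  by_cases hvt : v = t
  · exact Or.inr (hvt ▸ ht)
  · exact (hel v hv hvt).imp And.left (fun h4 => hT' h4)

/-- **An exit of the star** with its place on `G` against everything which is constant on `H`. -/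
theorem rowP2 (h : Tri N K F G H T o₁ o₂ o₃ z) (hq : q ∈ H) (hzq : Eqv N K z q o₃) (hT' : T' ⊆ T)
    (hTq : ∀ s ∈ T', Eqv N K s q o₃) {C : Set α} (hC : (N ／ rA F H f q).IsCircuit C)
    (hCs : C ⊆ insert q G ∪ T' ∪ {z}) (hzC : z ∈ C) (h2C : o₂ ∈ C) (hqC : q ∈ C) : False := by
  obtain ⟨C', h1, h2, h3⟩ := hC.exists_subset_isCircuit_of_contract
  have hel : ∀ v ∈ C', v ∈ K ∨ v ∈ insert z T' := by
    intro v hv
    rcases h3 hv with h4 | h4
    · rcases hCs h4 with ((h5 | h5) | h5) | h5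
      · exact Or.inl (h5 ▸ h.th.H_sub hq)
      · exact Or.inl (h.th.G_sub h5)
      · exact Or.inr (Or.inr h5)
      · exact Or.inr (Or.inl h5)
    · exact Or.inl (h.th.rA_sub h4)
  have ho3 : o₃ ∈ C' := h.th.end_mem hq h.h3 h1 (h2 hqC) hel (by
    rintro s (hs | hs)
    · exact hs ▸ hzq
    · exact hTq s hs)
  refine h.p2 C' ?_ h1 (h2 hzC) (Or.inr (Or.inr ⟨h2 h2C, ho3⟩))
  intro v hv
  rcases hel v hv with h4 | h4 | h4
  · exact Or.inl (Or.inl h4)
  · exact Or.inr h4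
  · exact Or.inl (Or.inr (hT' h4))

/-- An exit of the star with its place on `G`: the pair with a near element `F` - `G`. -/
theorem rowPP2_exit (h : Tri N K F G H T o₁ o₂ o₃ z) (hq : q ∈ H) (hzq : Eqv N K z q o₃)
    (ht : t ∈ T) (htq : Eqv N K t q o₃) (hT' : T' ⊆ T) (hTq : ∀ s ∈ T', Eqv N K s q o₃) :
    PP2 (N ／ rA F H f q) (insert q G) T' o₂ q z t := by
  intro C hCs hC hzC _ h2C hqC
  refine h.rowP2 (T' := insert t T') hq hzq (insert_subset ht hT') ?_ hC ?_ hzC h2C hqC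
  · rintro s (hs | hs)
    · exact hs ▸ htq
    · exact hTq s hs
  · intro v hv
    rcases hCs hv with (h1 | h1) | h1 | h1
    · exact Or.inl (Or.inl h1)
    · exact Or.inl (Or.inr (Or.inr h1))
    · exact Or.inr h1
    · exact Or.inl (Or.inr (Or.inl h1))

/-- An exit of the star with its place on `G`, alone. -/
theorem rowPP_exit (h : Tri N K F G H T o₁ o₂ o₃ z) (hq : q ∈ H) (hzq : Eqv N K z q o₃)
    (hT' : T' ⊆ T) (hTq : ∀ s ∈ T', Eqv N K s q o₃) :
    PP (N ／ rA F H f q) (insert q G) T' o₂ q z :=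
  fun _ hCs hC hzC h2C hqC => h.rowP2 hq hzq hT' hTq hC hCs hzC h2C hqC

/-- **Near pair with the end on the cut leg**: `t` is a link `F` - `G` at `z`, the other elements may
be near elements `H` - `G`. -/
theorem nearPairF (h : Tri N K F G H T o₁ o₂ o₃ z) (hz : ZCut N K z F Fo G H) (ho : o₁ ∈ Fo)
    (hc : c ∈ Fo) (ht : t ∈ T) (hco : ¬ Eqv N K t c o₁) (hT' : T' ⊆ T)
    (hTc : ∀ s ∈ T', Eqv N K s c o₁) (htT : t ∉ T') (hf : f ∈ F) (hfF : f ∉ Fo)
    (hFc : ∀ s ∈ insert t T', Eqv N K s f c) (hFA : Fo ⊆ A) (hAK : A ⊆ K) {C : Set α}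
    (hC : (N ／ A).IsCircuit C) (hCs : C ⊆ G ∪ {f} ∪ T' ∪ {t}) (htC : t ∈ C) (h2C : o₂ ∈ C)
    (hfC : f ∈ C) : False := by
  have hch := h.link' hz ho hc ht hco hT' hTc htT
  have hfc : f ≠ c := fun h1 => hfF (h1 ▸ hc)
  have hnF : ∀ g ∈ G ∪ H, g ∉ Fo := by
    rintro g (hg | hg) hgF
    · exact disjoint_left.1 h.th.dFG (hz.sub hgF) hg
    · exact disjoint_left.1 h.th.dFH (hz.sub hgF) hg
  have e1 : (N ／ (Fo \ {c})) ／ (A \ (Fo \ {c})) = N ／ A := by
    rw [Matroid.contract_contract, union_sdiff_cancel (sdiff_subset.trans hFA)]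
  rw [← e1] at hC
  obtain ⟨C', h1, h2, h3⟩ := hC.exists_subset_isCircuit_of_contract
  have hel : ∀ w ∈ C', w ∈ insert c (K \ Fo) ∨ w ∈ insert t T' := by
    intro w hw
    rcases h3 hw with h4 | h4
    · rcases hCs h4 with ((h5 | h5) | h5) | h5
      · exact Or.inl (Or.inr ⟨h.th.G_sub h5, hnF w (Or.inl h5)⟩)
      · rw [mem_singleton_iff.1 h5]
        exact Or.inl (Or.inr ⟨h.th.F_sub hf, hfF⟩)
      · exact Or.inr (Or.inr h5)
      · exact Or.inr (Or.inl h5)
    · left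
      by_cases h5 : w ∈ Fo
      · by_cases h6 : w = c
        · exact Or.inl h6
        · exact absurd ⟨h5, h6⟩ h4.2
      · exact Or.inr ⟨hAK h4.1, h5⟩
  have hcC : c ∈ C' := by
    by_contra hcC
    have h5 := h1.mem_closure_sdiff_singleton_of_mem (h2 hfC)
    refine hch.th.notMem_cl (Or.inr ⟨hf, hfF⟩) (Or.inl rfl) hfc ?_
    refine (N ／ (Fo \ {c})).closure_subset_closure_of_subset_closure ?_ h5
    rintro w ⟨hw, hwf⟩
    rcases hel w hw with h6 | h6
    · refine (N ／ (Fo \ {c})).subset_closure _ (sdiff_subset.trans hch.th.ground) ⟨h6, ?_⟩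
      rintro (h8 | h8)
      · exact hwf h8
      · exact hcC ((mem_singleton_iff.1 h8) ▸ hw)
    · have h7 := (hFc w h6).resolve_left hfc
      have hwK : w ∉ K := by
        rcases h6 with h6 | h6
        · exact h6 ▸ h.TK t ht
        · exact h.TK w (hT' h6)
      refine con_spans ?_ h7 (fun h8 => hwK (h.th.F_sub (hz.sub h8.1)))
      rintro v ⟨hv, hv2⟩
      by_cases h8 : v ∈ Fo
      · by_cases h9 : v = c
        · exact Or.inl ⟨Or.inl h9, hv2⟩
        · exact Or.inr ⟨h8, h9⟩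
      · exact Or.inl ⟨Or.inr ⟨hv, h8⟩, hv2⟩
  refine hch.p2 C' ?_ h1 (h2 htC) (Or.inl ⟨hcC, h2 h2C⟩)
  intro w hw
  rcases hel w hw with h4 | h4 | h4
  · exact Or.inl (Or.inl h4)
  · exact Or.inr h4
  · exact Or.inl (Or.inr h4)

/-- **The pair (F - G link, H - G element)** on the row `G`. -/
theorem rowPP2_mixed (h : Tri N K F G H T o₁ o₂ o₃ z) (hz : ZCut N K z F Fo G H) (ho : o₁ ∈ Fo)
    (hc : c ∈ Fo) (hf : f ∈ F) (hfF : f ∉ Fo) (hq : q ∈ H) (ht : t ∈ T)
    (hco : ¬ Eqv N K t c o₁) (htf : Eqv N K t f c) (hx : x ∈ T) (hxc : Eqv N K x c o₁)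
    (hxf : Eqv N K x f c) (hT' : T' ⊆ T) (hTc : ∀ s ∈ T', Eqv N K s c o₁)
    (hTf : ∀ s ∈ T', Eqv N K s f c) : PP2 (N ／ rA F H f q) (insert q G) T' o₂ q t x := by
  intro C hCs hC htC hxC h2C hqC
  have hfK := h.th.F_sub hf
  have hqG : q ∉ G := fun h1 => disjoint_left.1 h.th.dGH h1 hq
  have hne : ∀ s ∈ T, s ≠ q := fun s hs h1 => h.TK s hs (h1 ▸ h.th.H_sub hq)
  have hfC : f ∉ C := by
    intro h4
    rcases hCs h4 with ((h5 | h5) | h5) | h5 | h5
    · exact disjoint_left.1 h.th.dFH hf (h5 ▸ hq)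
    · exact disjoint_left.1 h.th.dFG hf h5
    · exact h.TK f (hT' h5) hfK
    · exact h.TK t ht (h5 ▸ hfK)
    · exact h.TK x hx ((mem_singleton_iff.1 h5) ▸ hfK)
  have hC2 := h.th.rowRepl hf hq hC hqC hfC
  have hFA : Fo ⊆ rA F H f q := fun v hv => Or.inl ⟨hz.sub hv, fun h1 => hfF (h1 ▸ hv)⟩
  have ho2q : o₂ ≠ q := fun h1 => hqG (h1 ▸ h.h2)
  refine h.nearPairF hz ho hc ht hco (T' := insert x T') (insert_subset hx hT') ?_ ?_ hf hfF ?_ hFA
    h.th.rA_sub hC2 ?_ (Or.inr ⟨htC, hne t ht⟩) (Or.inr ⟨h2C, ho2q⟩) (Or.inl rfl)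
  · rintro s (hs | hs)
    · exact hs ▸ hxc
    · exact hTc s hs
  · rintro (h1 | h1)
    · exact hco (h1 ▸ hxc)
    · exact hco (hTc t h1)
  · rintro s (hs | hs | hs)
    · exact hs ▸ htf
    · exact hs ▸ hxf
    · exact hTf s hs
  · rintro v (hv | ⟨hv, hvq⟩)
    · exact Or.inl (Or.inl (Or.inr hv))
    · rcases hCs hv with ((h5 | h5) | h5) | h5 | h5
      · exact absurd h5 hvq
      · exact Or.inl (Or.inl (Or.inl h5))
      · exact Or.inl (Or.inr (Or.inr h5))
      · exact Or.inr h5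
      · exact Or.inl (Or.inr (Or.inl h5))

end Tri

end TST
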