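import Pool.Agent.TST.StarRun

/-!
# Reachable states of a star (CLAIM A of T-star; helper64)

`StarReach` = states of the iterated star step with their history; `StarReach.exists_min` = a minimal
state with a given property.
-/

set_option autoImplicit false

open Set
open scoped Matroid

namespace TST

variable {α : Type*} {T₀ W₀ : Set α} {z c d t w e : α} {X₀ X : Fin 3 → Set α} {i k l : Fin 3}
  {E : α → α → α → Prop} {O A A' : α → Fin 3 → Set α} {B : α → α → α → α → Prop}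

/-- **Reachable states**: innermost cells `X i` and classes `A'` of the exits. -/
inductive StarReach (E : α → α → α → Prop) (O A : α → Fin 3 → Set α) (B : α → α → α → α → Prop)
    (X₀ : Fin 3 → Set α) (T₀ W₀ : Set α) : (Fin 3 → Set α) → (α → Fin 3 → Set α) → Prop where
  | root : StarReach E O A B X₀ T₀ W₀ X₀ A
  | step (X : Fin 3 → Set α) (A' : α → Fin 3 → Set α) (z : α) (i : Fin 3)
      (A₁ : α → Fin 3 → Set α) : StarReach E O A B X₀ T₀ W₀ X A' →
      StarRun E O A B X₀ T₀ W₀ X A' → z ∈ T₀ ∪ W₀ → z ∉ SigT O X₀ T₀ X →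
      (∃ x ∈ X i, x ∉ A' z i) → StarRun E O A B X₀ T₀ W₀ (chX A' X z i) A₁ →
      ((∀ w ∈ T₀ ∪ W₀, w ∉ SigT O X₀ T₀ X → A₁ w = A' w) ∧
        ∀ w ∈ SigT O X₀ T₀ X, w ∉ SigT O X₀ T₀ (chX A' X z i) →
          (∀ l, l ≠ i → A₁ w l = O w l) ∧
          ∃ c ∈ X i, c ∈ A' z i ∧ c ∉ O w i ∧ ∀ x ∈ chX A' X z i i, (x ∈ A₁ w i ↔ E w c x)) →
      StarReach E O A B X₀ T₀ W₀ (chX A' X z i) A₁

namespace StarReach

lemma run (h : StarReach E O A B X₀ T₀ W₀ X A') (h0 : StarRun E O A B X₀ T₀ W₀ X₀ A) :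
    StarRun E O A B X₀ T₀ W₀ X A' := by
  cases h with
  | root => exact h0
  | step X A' z i A₁ _ _ _ _ _ h3 _ => exact h3

lemma sub (h : StarReach E O A B X₀ T₀ W₀ X A') (l : Fin 3) : X l ⊆ X₀ l := by
  induction h with
  | root => exact Subset.refl _
  | step X A' z i A₁ h1 h2 _ _ _ h3 _ ih => exact h3.sub l

/-- the legs are not empty -/
lemma nonempty (h : StarReach E O A B X₀ T₀ W₀ X A') (hX : ∀ l, (X₀ l).Nonempty) (l : Fin 3) :
    (X l).Nonempty := by
  induction h with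
  | root => exact hX l
  | step X A' z i A₁ h1 h2 hz hzT hcut h3 _ ih =>
    by_cases hl : l = i
    · subst hl
      obtain ⟨x, hx, hxA⟩ := hcut
      exact ⟨x, by rw [chX_self]; exact ⟨hx, hxA⟩⟩
    · rw [chX_ne hl]
      exact ih

/-- the next state -/
lemma next (h : StarReach E O A B X₀ T₀ W₀ X A') (h0 : StarRun E O A B X₀ T₀ W₀ X₀ A)
    (hz : z ∈ T₀ ∪ W₀) (hzT : z ∉ SigT O X₀ T₀ X) (hcut : ∃ x ∈ X i, x ∉ A' z i) :
    ∃ A₁, StarReach E O A B X₀ T₀ W₀ (chX A' X z i) A₁ ∧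
      (∀ w ∈ T₀ ∪ W₀, w ∉ SigT O X₀ T₀ X → A₁ w = A' w) ∧
      ∀ w ∈ SigT O X₀ T₀ X, w ∉ SigT O X₀ T₀ (chX A' X z i) →
        (∀ l, l ≠ i → A₁ w l = O w l) ∧
        ∃ c ∈ X i, c ∈ A' z i ∧ c ∉ O w i ∧ ∀ x ∈ chX A' X z i i, (x ∈ A₁ w i ↔ E w c x) := by
  obtain ⟨A₁, h1, h2, h3⟩ := (h.run h0).step hz hzT hcut
  exact ⟨A₁, .step X A' z i A₁ h (h.run h0) hz hzT hcut h1 ⟨h2, h3⟩, h2, h3⟩

/-- what an exit cuts off: the class of the end is not everything; if it is empty, the state is the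
same and the exit separates nothing -/
lemma sig_mono (h : StarRun E O A B X₀ T₀ W₀ X A') :
    SigT O X₀ T₀ (chX A' X z i) ⊆ SigT O X₀ T₀ X := by
  rw [sigT_chX h.sub]
  exact fun t ht => ht.1

/-- **A minimal state with the property `P`**: every exit which cuts a leg and cuts off something
would destroy `P`. -/
theorem exists_min (h0 : StarRun E O A B X₀ T₀ W₀ X₀ A) (hX : ∀ l, (X₀ l).Finite)
    (P : (Fin 3 → Set α) → Prop) (hP : P X₀) : ∃ X A', StarReach E O A B X₀ T₀ W₀ X A' ∧ P X ∧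
      ∀ z ∈ T₀ ∪ W₀, z ∉ SigT O X₀ T₀ X → ∀ i, (∃ x ∈ X i, x ∉ A' z i) →
        (∃ x ∈ X i, x ∈ A' z i) → ¬ P (chX A' X z i) := by
  have key : ∀ n : ℕ, ∀ X A', StarReach E O A B X₀ T₀ W₀ X A' → P X →
      (X 0).ncard + (X 1).ncard + (X 2).ncard = n →
      ∃ X A', StarReach E O A B X₀ T₀ W₀ X A' ∧ P X ∧
      ∀ z ∈ T₀ ∪ W₀, z ∉ SigT O X₀ T₀ X → ∀ i, (∃ x ∈ X i, x ∉ A' z i) →
        (∃ x ∈ X i, x ∈ A' z i) → ¬ P (chX A' X z i) := by
    intro n
    induction n using Nat.strong_induction_on with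
    | _ n ih =>
      intro X A' h1 h2 h3
      by_cases hcon : ∀ z ∈ T₀ ∪ W₀, z ∉ SigT O X₀ T₀ X → ∀ i, (∃ x ∈ X i, x ∉ A' z i) →
          (∃ x ∈ X i, x ∈ A' z i) → ¬ P (chX A' X z i)
      · exact ⟨X, A', h1, h2, hcon⟩
      push Not at hcon
      obtain ⟨z, hz, hzT, i, hcut, ⟨y, hy, hyA⟩, hPc⟩ := hcon
      obtain ⟨A₁, h4, -, -⟩ := h1.next h0 hz hzT hcut
      refine ih _ ?_ (chX A' X z i) A₁ h4 hPc rfl
      rw [← h3]
      have fin : ∀ l, (X l).Finite := fun l => (hX l).subset (h1.sub l)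
      have le : ∀ l, (chX A' X z i l).ncard ≤ (X l).ncard := fun l =>
        ncard_le_ncard (chX_le l) (fin l)
      have lt : (chX A' X z i i).ncard < (X i).ncard := by
        refine ncard_lt_ncard ⟨chX_le i, fun h5 => ?_⟩ (fin i)
        have h6 := h5 hy
        rw [chX_self] at h6
        exact h6.2 hyA
      have l0 := le 0
      have l1 := le 1
      have l2 := le 2
      fin_cases i
      · have lt' : (chX A' X z 0 0).ncard < (X 0).ncard := lt
        show (chX A' X z 0 0).ncard + (chX A' X z 0 1).ncard + (chX A' X z 0 2).ncard < _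
        have l1' : (chX A' X z 0 1).ncard ≤ (X 1).ncard := l1
        have l2' : (chX A' X z 0 2).ncard ≤ (X 2).ncard := l2
        omega
      · have lt' : (chX A' X z 1 1).ncard < (X 1).ncard := lt
        show (chX A' X z 1 0).ncard + (chX A' X z 1 1).ncard + (chX A' X z 1 2).ncard < _
        have l0' : (chX A' X z 1 0).ncard ≤ (X 0).ncard := l0
        have l2' : (chX A' X z 1 2).ncard ≤ (X 2).ncard := l2
        omega
      · have lt' : (chX A' X z 2 2).ncard < (X 2).ncard := lt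
        show (chX A' X z 2 0).ncard + (chX A' X z 2 1).ncard + (chX A' X z 2 2).ncard < _
        have l0' : (chX A' X z 2 0).ncard ≤ (X 0).ncard := l0
        have l1' : (chX A' X z 2 1).ncard ≤ (X 1).ncard := l1
        omega
  exact key _ X₀ A .root hP rfl

end StarReach

end TST
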