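import Pool.Agent.TST.StarStep

/-!
# Iterated star step (CLAIM A of T-star; helper64)

`SigT O X₀ T₀ X` = the elements of `T₀` which are constant outside of the innermost cells `X i`.
`StarRun`: all other elements have a witness for the star with the legs `X i`.
-/

set_option autoImplicit false

open Set
open scoped Matroid

namespace TST

variable {α : Type*} {N : Matroid α} {T T₀ W₀ : Set α} {z c d t w : α} {o : Fin 3 → α}
variable {X₀ X : Fin 3 → Set α} {i j k : Fin 3}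
variable {E : α → α → α → Prop} {O A A' A'' : α → Fin 3 → Set α} {B : α → α → α → α → Prop}

/-- an exit and the triples -/
lemma WD.B_exit (h : WD E O A B X T z N o) (hcut : ∃ l, ∃ x ∈ X l, x ∉ A z l) {f : Fin 3 → α}
    (hf : ∀ l, f l ∈ X l) : z ∈ N.closure (TK X o \ {f 0, f 1, f 2}) ↔ ∃ l, f l ∉ A z l := by
  obtain ⟨i, hcut⟩ := hcut
  obtain ⟨j, k, hij, hik, hjk⟩ := fin3_ex i
  have hz := h.cut hcut hij hik hjk
  have hT := h.hs.tri hij hik hjk
  have htr := trip (f := f) hij hik hjk rfl rfl rfl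
  have hone : ∀ l, l ≠ i → f l ∈ A z l := fun l hl => h.one.2 i l (fun h1 => hl h1.symm) hcut _ (hf l)
  have hne : (∃ l, f l ∉ A z l) ↔ f i ∉ A z i := by
    constructor
    · rintro ⟨l, hl⟩
      by_cases h1 : l = i
      · exact h1 ▸ hl
      · exact absurd (hone l h1) hl
    · exact fun h1 => ⟨i, h1⟩
  rw [hne, ← htr]
  have hfo : ∀ l, f l ∈ leg X o l := fun l => Or.inr (hf l)
  constructor
  · intro h1 h2
    obtain ⟨C, c1, c2, c3⟩ := exists_cir_of_cl h1 (fun h3 => h.hs.zK h3.1)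
    have key : ∀ v ∈ ({f i, f j, f k} : Set α), v ∉ C := by
      intro v hv hvC
      have hvK : v ∈ TK X o := by
        rcases hv with rfl | rfl | hv
        · exact leg_sub i (hfo i)
        · exact leg_sub j (hfo j)
        · exact (mem_singleton_iff.1 hv) ▸ leg_sub k (hfo k)
      rcases c1 hvC with h3 | h3
      · exact h.hs.zK (h3 ▸ hvK)
      · exact h3.2 hv
    rcases hz.all C (c1.trans (insert_subset_insert sdiff_subset)) c2 c3 with h3 | h3 | h3
    · exact key (f i) (Or.inl rfl) (h3 ▸ Or.inr (Or.inr ⟨hf i, h2⟩))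
    · exact key (f j) (Or.inr (Or.inl rfl)) (h3 ▸ Or.inr (Or.inr (hfo j)))
    · exact key (f k) (Or.inr (Or.inr rfl)) (h3 ▸ Or.inr (Or.inr (hfo k)))
  · intro h2
    refine N.closure_subset_closure ?_ (hz.c1.mem_closure_sdiff_singleton_of_mem (Or.inl rfl))
    rintro v ⟨hv, hvz⟩
    have hv2 : v ∈ outP X o i (A z i) := by
      rcases hv with hv | hv
      · exact absurd hv hvz
      · exact hv
    refine ⟨leg_sub i (outP_sub hv2), ?_⟩
    rintro (h3 | h3 | h3)
    · rw [h3] at hv2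
      exact h2 ((h.hA' (hf i)).1 hv2)
    · exact h.hs.dis hij (outP_sub hv2) (h3 ▸ hfo j)
    · exact h.hs.dis hik (outP_sub hv2) ((mem_singleton_iff.1 h3) ▸ hfo k)

/-- the triples in the child, for all elements -/
lemma TSys.child_B (h : TSys N X o T w) {Y : Set α} (hc : c ∈ outP X o i Y) (hd : d ∈ insert w T)
    {x y v : α} (hx : x ∈ Function.update X i (X i \ Y) 0)
    (hy : y ∈ Function.update X i (X i \ Y) 1) (hv : v ∈ Function.update X i (X i \ Y) 2) :
    d ∈ (N ／ (outP X o i Y \ {c})).closure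
        (TK (Function.update X i (X i \ Y)) (Function.update o i c) \ {x, y, v}) ↔
      d ∈ N.closure (TK X o \ {x, y, v}) := by
  have hTK := TK_child h hc
  have hFoK : outP X o i Y ⊆ TK X o := outP_sub.trans (leg_sub i)
  have hnot : d ∉ outP X o i Y := by
    intro h1
    rcases hd with hd | hd
    · exact h.zK (hd ▸ hFoK h1)
    · exact disjoint_left.1 h.dT hd (hFoK h1)
  have hmem : ∀ l, ∀ x ∈ Function.update X i (X i \ Y) l, x ∈ insert c (TK X o \ outP X o i Y) := by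
    intro l x hx
    rw [← hTK]
    exact leg_sub l (Or.inr hx)
  rw [hTK, Matroid.contract_closure_eq]
  have e1 : insert c (TK X o \ outP X o i Y) \ {x, y, v} ∪ (outP X o i Y \ {c}) =
      TK X o \ {x, y, v} := by
    have n1 : ∀ b ∈ ({x, y, v} : Set α), b ∉ outP X o i Y \ {c} := by
      rintro b hb ⟨h1, h2⟩
      have h3 : b ∈ insert c (TK X o \ outP X o i Y) := by
        rcases hb with rfl | rfl | hb
        · exact hmem 0 _ hx
        · exact hmem 1 _ hy
        · exact (mem_singleton_iff.1 hb) ▸ hmem 2 _ hv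
      rcases h3 with h3 | h3
      · exact h2 h3
      · exact h3.2 h1
    ext b
    constructor
    · rintro (⟨h1 | h1, h2⟩ | h1)
      · exact ⟨h1 ▸ hFoK hc, h2⟩
      · exact ⟨h1.1, h2⟩
      · exact ⟨hFoK h1.1, fun h2 => n1 b h2 h1⟩
    · rintro ⟨h1, h2⟩
      by_cases h3 : b ∈ outP X o i Y
      · by_cases h4 : b = c
        · exact Or.inl ⟨Or.inl h4, h2⟩
        · exact Or.inr ⟨h3, h4⟩
      · exact Or.inl ⟨Or.inr ⟨h1, h3⟩, h2⟩
  rw [e1]
  exact ⟨fun h1 => h1.1, fun h1 => ⟨h1, fun h2 => hnot h2.1⟩⟩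

/-- **The triples of a link.** -/
lemma WD.B_link (h : WD E O A B X T z N o) (hcut : ∃ x ∈ X i, x ∉ A z i) (hd : d ∈ T)
    (hc : c ∈ outP X o i (A z i)) (hco : ¬ Eqv N (TK X o) d c (o i))
    (hA1 : ∀ x, x ∈ A' d i ↔ E d c x) (hA2 : ∀ l, l ≠ i → A' d l = O d l)
    (hpl : ∃ l, ∃ x ∈ chX A X z i l, x ∉ A' d l) {f : Fin 3 → α}
    (hf : ∀ l, f l ∈ chX A X z i l) : B d (f 0) (f 1) (f 2) ↔ ∃ l, f l ∉ A' d l := by
  obtain ⟨j, k, hij, hik, hjk⟩ := fin3_ex i
  have hT' : chT O A X T z i ⊆ T := fun t ht => ht.1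
  have hin : ∀ t ∈ chT O A X T z i, ∀ a ∈ outP X o i (A z i), Eqv N (TK X o) t a (o i) :=
    fun t ht => (h.inner ht.1).2 ht.2
  have hdT : d ∉ chT O A X T z i := fun h1 => hco (hin d h1 c hc)
  have hcX : c ∈ X i := by
    rcases hc with h1 | h1
    · exact absurd (Or.inl h1) hco
    · exact h1.1
  have hsys := h.hs.child hc hij hik hjk
    ((h.hs.tri hij hik hjk).link (h.cut hcut hij hik hjk) (Or.inl rfl) hc hd hco hT' hin hdT)
  have hFoK : outP X o i (A z i) ⊆ TK X o := outP_sub.trans (leg_sub i)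
  have hsub : ∀ l, Function.update X i (X i \ A z i) l ⊆ X l := by
    intro l
    by_cases hl : l = i
    · subst hl
      rw [Function.update_self]
      exact sdiff_subset
    · rw [Function.update_of_ne hl]
  have hTK := TK_child h.hs hc
  have hmem : ∀ l, ∀ x ∈ Function.update X i (X i \ A z i) l,
      x ∈ insert c (TK X o \ outP X o i (A z i)) := by
    intro l x hx
    rw [← hTK]
    exact leg_sub l (Or.inr hx)
  have hmo : ∀ l, Function.update o i c l ∈ insert c (TK X o \ outP X o i (A z i)) := by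
    intro l
    rw [← hTK]
    exact leg_sub l (Or.inl rfl)
  have hnot : d ∉ outP X o i (A z i) := fun h1 => h.tK hd (hFoK h1)
  have hE' : ∀ i', ∀ x ∈ chX A X z i i', ∀ y ∈ chX A X z i i',
      (Eqv (N ／ (outP X o i (A z i) \ {c})) (TK (chX A X z i) (Function.update o i c)) d x y ↔
        E d x y) := by
    intro l x hx y hy
    rw [chX, hTK, sub_eqv hFoK hc hnot (hmem l x hx) (hmem l y hy)]
    exact h.hE d (Or.inr hd) l x (hsub l hx) y (hsub l hy)
  have hA'' : ∀ l, ∀ x ∈ chX A X z i l,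
      (Eqv (N ／ (outP X o i (A z i) \ {c})) (TK (chX A X z i) (Function.update o i c)) d
        (Function.update o i c l) x ↔ x ∈ A' d l) := by
    intro l x hx
    rw [chX, hTK, sub_eqv hFoK hc hnot (hmo l) (hmem l x hx)]
    by_cases hl : l = i
    · subst hl
      rw [Function.update_self, hA1]
      exact h.hE d (Or.inr hd) l c hcX x (hsub l hx)
    · rw [Function.update_of_ne hl, hA2 l hl]
      exact h.hO d hd l x (hsub l hx)
  have hw : WD E O A' B (chX A X z i) ∅ d (N ／ (outP X o i (A z i) \ {c}))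
      (Function.update o i c) := by
    refine ⟨?_, ?_, fun t ht => absurd ht (notMem_empty _), hA'', fun t ht => absurd ht
      (notMem_empty _)⟩
    · exact ⟨hsys.th, hsys.oX, empty_subset _, (empty_disjoint _), hsys.zcl, hsys.zK,
        notMem_empty _, fun C hC => hsys.p1 C (hC.trans (union_subset_union_right _
          (empty_subset _))), fun C hC => hsys.p2 C (hC.trans (union_subset_union_left _
          (union_subset_union_right _ (empty_subset _))))⟩
    · rintro t (ht | ht)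
      · exact ht ▸ hE'
      · exact absurd ht (notMem_empty _)
  rw [← hw.B_exit hpl hf, ← h.hB d hd _ (hsub 0 (hf 0)) _ (hsub 1 (hf 1)) _ (hsub 2 (hf 2))]
  exact (h.hs.child_B hc (Or.inr hd) (hf 0) (hf 1) (hf 2)).symm

/-- the elements of `T₀` which are constant outside of the cells `X i` -/
def SigT (O : α → Fin 3 → Set α) (X₀ : Fin 3 → Set α) (T₀ : Set α) (X : Fin 3 → Set α) : Set α :=
  {t | t ∈ T₀ ∧ ∀ i, ∀ x ∈ X₀ i, x ∉ X i → x ∈ O t i}

/-- **State of the iterated star step.** -/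
structure StarRun (E : α → α → α → Prop) (O A : α → Fin 3 → Set α)
    (B : α → α → α → α → Prop) (X₀ : Fin 3 → Set α) (T₀ W₀ : Set α) (X : Fin 3 → Set α)
    (A' : α → Fin 3 → Set α) : Prop where
  dis : Disjoint T₀ W₀
  sub : ∀ i, X i ⊆ X₀ i
  /-- every other element is an exit of the innermost star -/
  wit : ∀ w ∈ T₀ ∪ W₀, w ∉ SigT O X₀ T₀ X → TWit E O A' B X (SigT O X₀ T₀ X) w
  A'W : ∀ w ∈ W₀, A' w = A w
  A'T : ∀ d ∈ T₀, d ∉ SigT O X₀ T₀ X → ∃ i, ∃ c ∈ X₀ i, c ∉ X i ∧ c ∉ O d i ∧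
    (∀ l, l ≠ i → A' d l = O d l) ∧ ∀ x ∈ X i, (x ∈ A' d i ↔ E d c x)
  /-- triples of the links -/
  B' : ∀ d ∈ T₀, d ∉ SigT O X₀ T₀ X → (∃ l, ∃ x ∈ X l, x ∉ A' d l) → ∀ f : Fin 3 → α,
    (∀ l, f l ∈ X l) → (B d (f 0) (f 1) (f 2) ↔ ∃ l, f l ∉ A' d l)

lemma sigT_sub : SigT O X₀ T₀ X ⊆ T₀ := fun _ h => h.1

lemma sigT_self : SigT O X₀ T₀ X₀ = T₀ := by
  ext t
  exact ⟨fun h => h.1, fun h => ⟨h, fun _ _ hx hx2 => absurd hx hx2⟩⟩

/-- the elements of the next star -/
lemma sigT_chX (hX : ∀ i, X i ⊆ X₀ i) :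
    SigT O X₀ T₀ (chX A' X z i) = chT O A' X (SigT O X₀ T₀ X) z i := by
  ext t
  constructor
  · rintro ⟨h1, h2⟩
    refine ⟨⟨h1, fun l x hx hxn => h2 l x hx fun h3 => hxn ?_⟩, fun x hx hxA => ?_⟩
    · by_cases hl : l = i
      · subst hl
        rw [chX, Function.update_self] at h3
        exact h3.1
      · rwa [chX, Function.update_of_ne hl] at h3
    · refine h2 i x (hX i hx) fun h3 => ?_
      rw [chX, Function.update_self] at h3
      exact h3.2 hxA
  · rintro ⟨⟨h1, h2⟩, h3⟩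
    refine ⟨h1, fun l x hx hxn => ?_⟩
    by_cases hxX : x ∈ X l
    · by_cases hl : l = i
      · subst hl
        refine h3 x hxX ?_
        by_contra h4
        exact hxn (by rw [chX, Function.update_self]; exact ⟨hxX, h4⟩)
      · exact absurd (by rwa [chX, Function.update_of_ne hl]) hxn
    · exact h2 l x hx hxX

lemma chX_self : chX A' X z i i = X i \ A' z i := Function.update_self ..

lemma chX_ne {l : Fin 3} (hl : l ≠ i) : chX A' X z i l = X l := Function.update_of_ne hl ..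

lemma chX_le (l : Fin 3) : chX A' X z i l ⊆ X l := by
  by_cases hl : l = i
  · subst hl
    rw [chX_self]
    exact sdiff_subset
  · rw [chX_ne hl]

namespace StarRun

/-- the root -/
theorem root (hd : Disjoint T₀ W₀) (hW : ∀ w ∈ W₀, TWit E O A B X₀ T₀ w) :
    StarRun E O A B X₀ T₀ W₀ X₀ A where
  dis := hd
  sub := fun _ => Subset.rfl
  wit := by
    rw [sigT_self]
    rintro w (hw | hw) h1
    · exact absurd hw h1
    · exact hW w hw
  A'W := fun _ _ => rfl
  A'T := fun d hd h1 => absurd (by rwa [sigT_self]) h1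
  B' := fun d hd h1 => absurd (by rwa [sigT_self]) h1

/-- **One step**: the exit `z` cuts the leg `i`. -/
theorem step (h : StarRun E O A B X₀ T₀ W₀ X A') (hz : z ∈ T₀ ∪ W₀) (hzT : z ∉ SigT O X₀ T₀ X)
    (hcut : ∃ x ∈ X i, x ∉ A' z i) :
    ∃ A'' : α → Fin 3 → Set α, StarRun E O A B X₀ T₀ W₀ (chX A' X z i) A'' ∧
      (∀ w ∈ T₀ ∪ W₀, w ∉ SigT O X₀ T₀ X → A'' w = A' w) ∧
      ∀ w ∈ SigT O X₀ T₀ X, w ∉ SigT O X₀ T₀ (chX A' X z i) →
        (∀ l, l ≠ i → A'' w l = O w l) ∧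
        ∃ c ∈ X i, c ∈ A' z i ∧ c ∉ O w i ∧ ∀ x ∈ chX A' X z i i, (x ∈ A'' w i ↔ E w c x) := by
  have hdis : Disjoint (SigT O X₀ T₀ X) ((T₀ ∪ W₀) \ SigT O X₀ T₀ X) := disjoint_sdiff_right
  obtain ⟨-, h2⟩ := starStep E O A' B X (SigT O X₀ T₀ X) ((T₀ ∪ W₀) \ SigT O X₀ T₀ X) hdis
    fun w hw => h.wit w hw.1 hw.2
  obtain ⟨N, o, hw⟩ := (h.wit z hz hzT).wd
  have hch := sigT_chX (O := O) (T₀ := T₀) (A' := A') (z := z) (i := i) h.sub
  have hex : ∀ t, t ∈ SigT O X₀ T₀ X → t ∉ SigT O X₀ T₀ (chX A' X z i) →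
      ∃ c ∈ X i, c ∈ A' z i ∧ c ∉ O t i := by
    intro t ht htc
    by_contra hcon
    push Not at hcon
    rw [hch] at htc
    exact htc ⟨ht, fun x hx hxA => hcon x hx hxA⟩
  choose! cc hcc1 hcc2 hcc3 using hex
  classical
  refine ⟨fun w l => if w ∈ SigT O X₀ T₀ X then (if l = i then {x | E w (cc w) x} else O w l)
    else A' w l, ?_, ?_, ?_⟩
  · refine ⟨h.dis, fun l => (chX_le l).trans (h.sub l), ?_, ?_, ?_, ?_⟩
    · intro w hw1 hw2
      rw [hch]
      by_cases hwT : w ∈ SigT O X₀ T₀ X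
      · refine hw.link hcut hwT (c := cc w) (Or.inr ⟨hcc1 w hwT hw2, hcc2 w hwT hw2⟩) ?_
          (fun x => ?_) (fun l hl => ?_)
        · rw [hw.hO' hwT (hcc1 w hwT hw2)]
          exact hcc3 w hwT hw2
        · simp only [if_pos hwT, if_true, mem_ofPred_eq]
        · simp only [if_pos hwT, if_neg hl]
      · refine (h.wit w hw1 hwT).old (fun t ht => ht.1) (fun t ht => ht.2) ?_
        ext l x
        simp only [if_neg hwT]
    · intro w hwW
      have hwT : w ∉ SigT O X₀ T₀ X := fun h1 => disjoint_left.1 h.dis h1.1 hwW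
      rw [← h.A'W w hwW]
      ext l x
      simp only [if_neg hwT]
    · intro d hd hd2
      by_cases hdT : d ∈ SigT O X₀ T₀ X
      · refine ⟨i, cc d, h.sub i (hcc1 d hdT hd2), ?_, hcc3 d hdT hd2, fun l hl => ?_,
          fun x _ => ?_⟩
        · rw [chX_self]
          exact fun h3 => h3.2 (hcc2 d hdT hd2)
        · simp only [if_pos hdT, if_neg hl]
        · simp only [if_pos hdT, if_true, mem_ofPred_eq]
      · obtain ⟨m, c, h3, h4, h5, h6, h7⟩ := h.A'T d hd hdT
        refine ⟨m, c, h3, fun h8 => h4 (chX_le m h8), h5, fun l hl => ?_, fun x hx => ?_⟩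
        · simp only [if_neg hdT]
          exact h6 l hl
        · simp only [if_neg hdT]
          exact h7 x (chX_le m hx)
    · intro d hd hd2 hpl f hf
      by_cases hdT : d ∈ SigT O X₀ T₀ X
      · refine hw.B_link (A' := fun w l => if w ∈ SigT O X₀ T₀ X then (if l = i then
          {x | E w (cc w) x} else O w l) else A' w l) hcut hdT (c := cc d)
          (Or.inr ⟨hcc1 d hdT hd2, hcc2 d hdT hd2⟩) ?_
          (fun x => ?_) (fun l hl => ?_) hpl hf
        · rw [hw.hO' hdT (hcc1 d hdT hd2)]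
          exact hcc3 d hdT hd2
        · simp only [if_pos hdT, if_true, mem_ofPred_eq]
        · simp only [if_pos hdT, if_neg hl]
      · simp only [if_neg hdT] at hpl ⊢
        obtain ⟨l, x, hx, hxA⟩ := hpl
        exact h.B' d hd hdT ⟨l, x, chX_le l hx, hxA⟩ f fun l => chX_le l (hf l)
  · intro w _ hwT
    ext l x
    simp only [if_neg hwT]
  · intro w hwT hw2
    refine ⟨fun l hl => ?_, cc w, hcc1 w hwT hw2, hcc2 w hwT hw2, hcc3 w hwT hw2, fun x _ => ?_⟩
    · simp only [if_pos hwT, if_neg hl]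
    · simp only [if_pos hwT, if_true, mem_ofPred_eq]

/-- an exit has at most one place -/
theorem one (h : StarRun E O A B X₀ T₀ W₀ X A') (hz : z ∈ T₀ ∪ W₀) (hzT : z ∉ SigT O X₀ T₀ X) :
    (∀ i, ∀ x ∈ X i, ∀ y ∈ X i, (E z x y ↔ (x ∈ A' z i ↔ y ∈ A' z i))) ∧
      ∀ i j, i ≠ j → (∃ x ∈ X i, x ∉ A' z i) → ∀ y ∈ X j, y ∈ A' z j :=
  (h.wit z hz hzT).facts.one

end StarRun

end TST
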