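import Pool.Agent.TST.StarStepDef

/-!
# Star split: the induction (CLAIM A of T-star, helper33)
-/

open Set
open scoped Matroid

namespace TST

variable {α : Type*} {O A : α → Fin 3 → Set α} {X : Fin 3 → Set α} {T W : Set α} {z t x y : α}
  {i l : Fin 3}

lemma CmpOn.symm {X A B : Set α} (h : CmpOn X A B) : CmpOn X B A := Or.symm h

lemma mem_chX : x ∈ chX A X z i l ↔ x ∈ X l ∧ (l = i → x ∉ A z i) := by
  unfold chX
  by_cases h : l = i
  · subst h
    rw [Function.update_self]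
    exact ⟨fun h1 => ⟨h1.1, fun _ => h1.2⟩, fun h1 => ⟨h1.1, h1.2 rfl⟩⟩
  · rw [Function.update_of_ne h]
    exact ⟨fun h1 => ⟨h1, fun h2 => absurd h2 h⟩, fun h1 => h1.1⟩

lemma chX_sub : chX A X z i l ⊆ X l := fun _ h => (mem_chX.1 h).1

/-- elements of the child are in the class of the end outside of the child -/
lemma chT_key (ht : t ∈ chT O A X T z i) (hx : x ∈ X l) : x ∈ chX A X z i l ∨ x ∈ O t l := by
  by_cases h : l = i ∧ x ∈ A z i
  · obtain ⟨rfl, h1⟩ := h
    exact Or.inr (ht.2 x hx h1)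
  · exact Or.inl (mem_chX.2 ⟨hx, fun h1 h2 => h ⟨h1, h2⟩⟩)

lemma near_chX (ht : t ∈ chT O A X T z i) (h : NearT O X t) : NearT O (chX A X z i) t := by
  obtain ⟨a, b, hab, ⟨x, hx, x1⟩, y, hy, y1⟩ := h
  exact ⟨a, b, hab, ⟨x, (chT_key ht hx).resolve_right x1, x1⟩,
    ⟨y, (chT_key ht hy).resolve_right y1, y1⟩⟩

/-- **The induction of the star split.** -/
theorem starSplit_of_step (hstep : StarStepStmt α) : StarSplitStmt α := by
  classical
  intro E O A B X T W hX hXne hTW hW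
  obtain ⟨n, hn⟩ : ∃ n, (X 0).ncard + (X 1).ncard + (X 2).ncard = n := ⟨_, rfl⟩
  induction n using Nat.strong_induction_on generalizing A X T W with
  | _ n ih =>
  obtain ⟨facts, hst⟩ := hstep E O A B X T W hTW hW
  by_cases hsep : ∃ z ∈ W, ∃ i, (∃ x ∈ X i, x ∈ A z i) ∧ ∃ y ∈ X i, y ∉ A z i
  swap
  · push Not at hsep
    refine ⟨X, ∅, empty_subset _, fun i => Subset.refl _, ?_,
      fun t _ _ => Or.inl fun i x hx h => absurd hx h, fun t ht => absurd ht (notMem_empty t),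
      fun t ht => absurd ht (notMem_empty t), fun t ht hn z hz => (facts z hz).exi t ht hn,
      fun z hz => (facts z hz).one, fun i x hx hx' => absurd hx hx',
      fun i d _ _ z _ t ht => absurd ht (notMem_empty t),
      fun i d _ _ t ht => absurd ht (notMem_empty t)⟩
    rintro d (hd | hd) i x hx y hy
    · rw [(facts d hd).one.1 i x hx y hy]
      by_cases h1 : ∃ x ∈ X i, x ∈ A d i
      · exact iff_of_true (hsep d hd i h1 x hx) (hsep d hd i h1 y hy)
      · exact iff_of_false (fun h => h1 ⟨x, hx, h⟩) (fun h => h1 ⟨y, hy, h⟩)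
    · exact absurd hd (notMem_empty d)
  obtain ⟨z₀, hz₀, i, ⟨x₀, hx₀, hx₀A⟩, y₀, hy₀, hy₀A⟩ := hsep
  obtain ⟨Lz, A', st⟩ := hst z₀ hz₀ i ⟨y₀, hy₀, hy₀A⟩
  have fz := facts z₀ hz₀
  obtain ⟨X', hX'⟩ : ∃ X', X' = chX A X z₀ i := ⟨_, rfl⟩
  obtain ⟨T', hT'⟩ : ∃ T', T' = chT O A X T z₀ i := ⟨_, rfl⟩
  have hTT : T' ⊆ T := by rw [hT']; exact fun t ht => ht.1
  have hXX : ∀ l, X' l ⊆ X l := fun l => by rw [hX']; exact chX_sub
  have key : ∀ t ∈ T', ∀ l, ∀ x ∈ X l, x ∈ X' l ∨ x ∈ O t l := by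
    rw [hT', hX']
    exact fun t ht l x hx => chT_key ht hx
  have hnear : ∀ t ∈ T', NearT O X t → NearT O X' t := by
    rw [hT', hX']
    exact fun t ht h => near_chX ht h
  have hne : ∀ l, l ≠ i → X' l = X l := by
    intro l hl
    rw [hX']
    exact Function.update_of_ne hl _ _
  have hX'l := hne
  have hlt : (X' 0).ncard + (X' 1).ncard + (X' 2).ncard < n := by
    have h1 : ∀ l, (X' l).ncard ≤ (X l).ncard := fun l => ncard_le_ncard (hXX l) (hX l)
    have h2 : (X' i).ncard < (X i).ncard := by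
      refine ncard_lt_ncard ⟨hXX i, fun h => ?_⟩ (hX i)
      have h3 := h hx₀
      rw [hX', mem_chX] at h3
      exact h3.2 rfl hx₀A
    have h0 := h1 0
    have h1' := h1 1
    have h2' := h1 2
    rw [← hn]
    fin_cases i
    · have h3 : (X' 0).ncard < (X 0).ncard := h2
      omega
    · have h3 : (X' 1).ncard < (X 1).ncard := h2
      omega
    · have h3 : (X' 2).ncard < (X 2).ncard := h2
      omega
  obtain ⟨C, Lk', h⟩ := ih _ hlt (A := A') (X := X') (T := T') (W := W ∪ Lz)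
    (fun l => (hX l).subset (hXX l)) (by
      intro l
      by_cases hl : l = i
      · rw [hl]
        refine ⟨y₀, ?_⟩
        rw [hX', mem_chX]
        exact ⟨hy₀, fun _ => hy₀A⟩
      · rw [hne l hl]
        exact hXne l) (by
      rw [disjoint_left]
      rintro t ht (h1 | h1)
      · exact disjoint_left.1 hTW (hTT ht) h1
      · rw [hT'] at ht
        exact disjoint_left.1 st.dis ht h1) (by
      rw [hX', hT']
      exact st.wit) rfl
  have hLkT : Lk' ⊆ T := h.sub.trans hTT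
  have hA'L : ∀ d ∈ Lz, ∀ l, l ≠ i → A' d l = O d l := st.A'L
  -- a link of `z₀` against a link of the child
  have mix : ∀ t ∈ Lz, NearT O X t → ∀ t' ∈ Lk', NearT O X t' → ∀ l,
      CmpOn (X l) (O t l) (O t' l) := by
    intro t ht hn t' ht' hn' l
    have ht'T := h.sub ht'
    by_cases hl : l = i
    · rw [hl]
      refine Or.inl fun x hx h1 => ?_
      rcases key t' ht'T i x hx with h2 | h2
      · rw [hX', mem_chX] at h2
        exact absurd (st.first t ht hn x hx h1) (h2.2 rfl)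
      · exact h2
    · have h1 := h.exi t' ht'T (hnear t' ht'T hn') t (Or.inr ht) l
      rw [hA'L t ht l hl, hne l hl] at h1
      exact h1.symm
  -- near
  have hnearF : ∀ t ∈ Lz ∪ Lk', NearT O X t → ∃ i j k, i ≠ j ∧ i ≠ k ∧ j ≠ k ∧
      (∃ x ∈ X i, x ∉ O t i) ∧ (∃ x ∈ X j, x ∉ O t j) ∧ (∀ x ∈ X k, x ∈ O t k) ∧
      (∀ l, ∀ x ∈ X l, ∀ y ∈ X l, (E t x y ↔ (x ∈ O t l ↔ y ∈ O t l))) ∧
      ∀ x ∈ X 0, ∀ y ∈ X 1, ∀ w ∈ X 2, (k ≠ 0 → x ∉ O t 0) → (k ≠ 1 → y ∉ O t 1) →
        (k ≠ 2 → w ∉ O t 2) → B t x y w := by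
    rintro t (ht | ht) hn
    · exact st.near t ht hn
    have htT := h.sub ht
    have htT' := hTT htT
    obtain ⟨a, b, k, hab, hak, hbk, ⟨x, hx, x1⟩, ⟨y, hy, y1⟩, h3, h4, h5⟩ :=
      h.near t ht (hnear t htT hn)
    have hk : ∀ x ∈ X k, x ∈ O t k := fun x hx => (key t htT k x hx).elim (h3 x) id
    have hcls : ∀ l, ∀ x ∈ X l, ∀ y ∈ X l, (E t x y ↔ (x ∈ O t l ↔ y ∈ O t l)) := by
      intro l x hx y hy
      by_cases hx1 : x ∈ O t l
      · rw [fz.rel t htT' l x hx y hy hx1]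
        exact ⟨fun h => iff_of_true hx1 h, fun h => h.1 hx1⟩
      · by_cases hy1 : y ∈ O t l
        · constructor
          · intro h6
            exact absurd ((fz.rel t htT' l y hy x hx hy1).1 (fz.symm t htT' l x hx y hy h6)) hx1
          · intro h6
            exact absurd (h6.2 hy1) hx1
        · exact h4 l x ((key t htT l x hx).resolve_right hx1) y
            ((key t htT l y hy).resolve_right hy1)
    refine ⟨a, b, k, hab, hak, hbk, ⟨x, hXX a hx, x1⟩, ⟨y, hXX b hy, y1⟩, hk, hcls, ?_⟩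
    -- representatives in the child
    have hrep : ∀ l, ∀ x ∈ X l, (k ≠ l → x ∉ O t l) → ∃ r ∈ X' l, (k ≠ l → r ∉ O t l) ∧
        E t r x := by
      intro l x hx hxk
      by_cases hkl : k = l
      · subst hkl
        have hXne' : (X' k).Nonempty := by
          by_cases hl : k = i
          · rw [hl]
            refine ⟨y₀, ?_⟩
            rw [hX', mem_chX]
            exact ⟨hy₀, fun _ => hy₀A⟩
          · rw [hne k hl]
            exact hXne k
        obtain ⟨r, hr⟩ := hXne'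
        refine ⟨r, hr, fun h => absurd rfl h, ?_⟩
        rw [hcls k r (hXX k hr) x hx]
        exact iff_of_true (hk r (hXX k hr)) (hk x hx)
      · exact ⟨x, (key t htT l x hx).resolve_right (hxk hkl), hxk,
          (hcls l x hx x hx).2 Iff.rfl⟩
    intro x hx y hy w hw hx1 hy1 hw1
    obtain ⟨x', hx', hx2, hx3⟩ := hrep 0 x hx hx1
    obtain ⟨y', hy', hy2, hy3⟩ := hrep 1 y hy hy1
    obtain ⟨w', hw', hw2, hw3⟩ := hrep 2 w hw hw1
    exact fz.tri t htT' x' (hXX 0 hx') x hx y' (hXX 1 hy') y hy w' (hXX 2 hw') w hw hx3 hy3 hw3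
      (h5 x' hx' y' hy' w' hw' hx2 hy2 hw2)
  -- two classes on each leg
  have htwo : ∀ t ∈ Lz ∪ Lk', NearT O X t → ∀ l, ∀ x ∈ X l, ∀ y ∈ X l, x ∉ O t l → y ∉ O t l →
      E t x y := by
    intro t ht hn l x hx y hy h1 h2
    obtain ⟨-, -, -, -, -, -, -, -, -, h3, -⟩ := hnearF t ht hn
    exact (h3 l x hx y hy).2 ⟨fun h4 => absurd h4 h1, fun h4 => absurd h4 h2⟩
  have hzT : ∀ d ∈ T, ∀ l, SameR E O X d l → l ≠ i → d ∈ T' := by
    intro d hd l hS hl
    rw [hT']
    exact ⟨hd, fun x hx _ => hS.1 i hl.symm x hx⟩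
  have hS' : ∀ d l, SameR E O X d l → SameR E O X' d l := fun d l hS =>
    ⟨fun m hm x hx => hS.1 m hm x (hXX m hx), fun x hx y hy => hS.2 x (hXX l hx) y (hXX l hy)⟩
  -- a same-row element which is not constant on the outer part
  have bad : ∀ d ∈ T, d ∉ T' → SameR E O X d i → ∀ t' ∈ Lk', NearT O X t' → ∀ a₂ ∈ X' i,
      ∀ a₃ ∈ X' i, a₂ ∈ O d i → a₃ ∉ O d i → a₂ ∈ O t' i → a₃ ∉ O t' i → False := by
    intro d hd hdT hS t' ht' hn' a₂ h2 a₃ h3 q1 q2 q3 q4
    by_cases hdL : d ∈ Lz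
    · obtain ⟨c, hc, hcO, hcA⟩ := st.A'I d hdL
      rw [← hX'] at hcA
      have h4 := h.exi t' (h.sub ht') (hnear t' (h.sub ht') hn') d (Or.inr hdL) i
      have h5 : a₃ ∈ A' d i := (hcA a₃ h3).2 (hS.2 c hc a₃ (hXX i h3) hcO q2)
      have h6 : a₂ ∉ A' d i := fun h6 =>
        hcO ((fz.rel d hd i a₂ (hXX i h2) c hc q1).1 (fz.symm d hd i c hc a₂ (hXX i h2)
          ((hcA a₂ h2).1 h6)))
      rcases h4 with h4 | h4
      · exact h6 (h4 a₂ h2 q3)
      · exact q4 (h4 a₃ h3 h5)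
    · rw [hT'] at hdT
      obtain ⟨h1, -⟩ := st.outer d hd hdT hdL
      rw [← hX'] at h1
      exact q2 ((fz.rel d hd i a₂ (hXX i h2) a₃ (hXX i h3) q1).1 (h1 i a₂ h2 a₃ h3))
  refine ⟨C, Lz ∪ Lk', ?_, fun l => (h.Csub l).trans (hXX l), ?_, ?_, hnearF, ?_,
    fun t ht hn z hz => (facts z hz).exi t ht hn, fun z hz => (facts z hz).one, ?_, ?_, ?_⟩
  · rintro t (ht | ht)
    exacts [st.sub ht, hLkT ht]
  · -- core
    rintro d (hd | hd | hd)
    exacts [h.core d (Or.inl (Or.inl hd)), h.core d (Or.inl (Or.inr hd)), h.core d (Or.inr hd)]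
  · -- loc
    intro t ht hn
    by_cases htT : t ∈ T'
    · rcases h.loc t htT (fun h1 => hn (Or.inr h1)) with h1 | ⟨h1, h2⟩
      · refine Or.inl fun l x hx hC => ?_
        rcases key t htT l x hx with h3 | h3
        exacts [h1 l x h3 hC, h3]
      · exact Or.inr ⟨h1, fun h3 => h2 (hnear t htT h3)⟩
    · rw [hT'] at htT
      obtain ⟨h1, h2⟩ := st.outer t ht htT (fun h1 => hn (Or.inl h1))
      rw [← hX'] at h1
      exact Or.inr ⟨fun l x hx y hy => h1 l x (h.Csub l hx) y (h.Csub l hy), h2⟩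
  · -- cross
    rintro t (ht | ht) hn t' (ht' | ht') hn' l
    · exact st.cross t ht hn t' ht' hn' l
    · exact Or.inl (mix t ht hn t' ht' hn' l)
    · exact Or.inl (mix t' ht' hn' t ht hn l).symm
    · have k1 := key t (h.sub ht)
      have k2 := key t' (h.sub ht')
      rcases h.cross t ht (hnear t (h.sub ht) hn) t' ht' (hnear t' (h.sub ht') hn') l with
        (h1 | h1) | h1
      · exact Or.inl (Or.inl fun x hx hx1 => (k2 l x hx).elim (fun h2 => h1 x h2 hx1) id)
      · exact Or.inl (Or.inr fun x hx hx1 => (k1 l x hx).elim (fun h2 => h1 x h2 hx1) id)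
      · refine Or.inr fun j hj x hx => ?_
        constructor
        · intro hx1
          exact (k2 j x hx).elim (fun h2 => (h1 j hj x h2).1 hx1) id
        · intro hx1
          exact (k1 j x hx).elim (fun h2 => (h1 j hj x h2).2 hx1) id
  · -- out
    intro l x hx hxC
    by_cases hx' : x ∈ X' l
    · obtain ⟨z, hz, h1⟩ := h.out l x hx' hxC
      refine ⟨z, ?_, h1⟩
      rcases hz with (hz | hz) | hz
      exacts [Or.inl hz, Or.inr (Or.inl hz), Or.inr (Or.inr hz)]
    · refine ⟨z₀, Or.inl hz₀, fun y hy h1 => ?_⟩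
      have hy' := h.Csub l hy
      rw [hX', mem_chX] at hx' hy'
      push Not at hx'
      obtain ⟨h2, h3⟩ := hx' hx
      exact hy'.2 h2 (h2 ▸ ((fz.one.1 l x hx y hy'.1).1 h1).1 (h2.symm ▸ h3))
  · -- zigE
    intro l d hd hS z hz t ht hn
    have htT : t ∈ T := ht.elim (fun h1 => st.sub h1) (fun h1 => hLkT h1)
    exact (facts z hz).zigE l d hd hS t htT hn (htwo t ht hn l)
  · -- zig
    rintro l d hd hS t (ht | ht) hn t' (ht' | ht') hn' hne hz
    · exact st.zig l d hd hS t ht hn t' ht' hn' hne hz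
    · by_cases hl : l = i
      · subst hl
        obtain ⟨a₁, h1, a₂, h2, a₃, h3, ⟨c1, c2⟩, ⟨q1, q2, q3⟩, r1, r2⟩ := hz
        have a1 := st.first t ht hn a₁ h1 c1
        have m3 := (key t' (h.sub ht') l a₃ h3).resolve_right r1
        have a3 : a₃ ∉ A z₀ l := by
          have h4 := m3
          rw [hX', mem_chX] at h4
          exact h4.2 rfl
        by_cases a2 : a₂ ∈ A z₀ l
        · exact (fz.zigE l d hd hS t (st.sub ht) hn (htwo t (Or.inl ht) hn l)).1
            ⟨a₁, h1, a₂, h2, a₃, h3, ⟨c1, c2⟩, ⟨q1, a2, q3⟩, a3, r2⟩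
        · refine bad d hd ?_ hS t' ht' hn' a₂ ?_ a₃ m3 q3 r2 q2 r1
          · rw [hT']
            exact fun h4 => c2 (h4.2 a₁ h1 a1)
          · rw [hX', mem_chX]
            exact ⟨h2, fun _ => a2⟩
      · have h1 := (h.zigE l d (hzT d hd l hS hl) (hS' d l hS) t (Or.inr ht) t' ht'
          (hnear t' (h.sub ht') hn')).2
        rw [hA'L t ht l hl, hX'l l hl] at h1
        exact h1 hz
    · by_cases hl : l = i
      · subst hl
        obtain ⟨a₁, h1, a₂, h2, a₃, h3, ⟨c1, c2⟩, ⟨q1, q2, q3⟩, r1, r2⟩ := hz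
        have a2 := st.first t' ht' hn' a₂ h2 q2
        rcases key t (h.sub ht) l a₂ h2 with h4 | h4
        · rw [hX', mem_chX] at h4
          exact h4.2 rfl a2
        · exact q1 h4
      · have h1 := (h.zigE l d (hzT d hd l hS hl) (hS' d l hS) t' (Or.inr ht') t ht
          (hnear t (h.sub ht) hn)).1
        rw [hA'L t' ht' l hl, hX'l l hl] at h1
        exact h1 hz
    · obtain ⟨a₁, h1, a₂, h2, a₃, h3, ⟨c1, c2⟩, ⟨q1, q2, q3⟩, r1, r2⟩ := hz
      have k1 := key t (h.sub ht)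
      have k2 := key t' (h.sub ht')
      have m2 := (k1 l a₂ h2).resolve_right q1
      have m3 := (k2 l a₃ h3).resolve_right r1
      by_cases hdT : d ∈ T'
      · refine h.zig l d hdT (hS' d l hS) t ht (hnear t (h.sub ht) hn) t' ht'
          (hnear t' (h.sub ht') hn') ?_ ⟨a₁, (key d hdT l a₁ h1).resolve_right c2, a₂, m2, a₃, m3,
          ⟨c1, c2⟩, ⟨q1, q2, q3⟩, r1, r2⟩
        obtain ⟨m, hm, hm'⟩ := hne
        refine ⟨m, hm, fun h4 => hm' fun x hx => ?_⟩
        constructor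
        · intro hx1
          exact (k2 m x hx).elim (fun h5 => (h4 x h5).1 hx1) id
        · intro hx1
          exact (k1 m x hx).elim (fun h5 => (h4 x h5).2 hx1) id
      · by_cases hl : l = i
        · subst hl
          exact bad d hd hdT hS t' ht' hn' a₂ m2 a₃ m3 q3 r2 q2 r1
        · exact hdT (hzT d hd l hS hl)

end TST
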