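import Pool.Agent.TST.SplitDef

/-!
# One step of the star split: definitions (CLAIM A of T-star; helper64)

`StarSysFacts`: what one witness gives.  `StarStep`: what the splitting exit `z`, which cuts the leg
`i`, gives: the child system with the links as new exits.
-/

open Set
open scoped Matroid

namespace TST

variable {α : Type*}

/-- facts for one exit with its witness -/
structure StarSysFacts (E : α → α → α → Prop) (O A : α → Fin 3 → Set α)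
    (B : α → α → α → α → Prop) (X : Fin 3 → Set α) (T : Set α) (z : α) : Prop where
  /-- an exit has at most one place in the star -/
  one : (∀ i, ∀ x ∈ X i, ∀ y ∈ X i, (E z x y ↔ (x ∈ A z i ↔ y ∈ A z i))) ∧
    ∀ i j, i ≠ j → (∃ x ∈ X i, x ∉ A z i) → ∀ y ∈ X j, y ∈ A z j
  /-- the class of the end -/
  rel : ∀ t ∈ T, ∀ l, ∀ x ∈ X l, ∀ y ∈ X l, x ∈ O t l → (E t x y ↔ y ∈ O t l)
  symm : ∀ t ∈ T, ∀ l, ∀ x ∈ X l, ∀ y ∈ X l, E t x y → E t y x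
  /-- near element against the exit -/
  exi : ∀ t ∈ T, NearT O X t → ∀ i, CmpOn (X i) (O t i) (A z i)
  /-- triples -/
  tri : ∀ t ∈ T, ∀ x ∈ X 0, ∀ x' ∈ X 0, ∀ y ∈ X 1, ∀ y' ∈ X 1, ∀ w ∈ X 2, ∀ w' ∈ X 2,
    E t x x' → E t y y' → E t w w' → B t x y w → B t x' y' w'
  /-- zigzags -/
  zigE : ∀ i, ∀ d ∈ T, SameR E O X d i → ∀ t ∈ T, NearT O X t →
    (∀ x ∈ X i, ∀ y ∈ X i, x ∉ O t i → y ∉ O t i → E t x y) →
    ¬ Zig (X i) (O t i) (A z i) (O d i) ∧ ¬ Zig (X i) (A z i) (O t i) (O d i)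

/-- the inner elements of the leg `i` -/
def chX (A : α → Fin 3 → Set α) (X : Fin 3 → Set α) (z : α) (i : Fin 3) : Fin 3 → Set α :=
  Function.update X i (X i \ A z i)

/-- the elements of `T` which are constant on the outer part -/
def chT (O A : α → Fin 3 → Set α) (X : Fin 3 → Set α) (T : Set α) (z : α) (i : Fin 3) : Set α :=
  {t | t ∈ T ∧ ∀ x ∈ X i, x ∈ A z i → x ∈ O t i}

/-- **One step**: the exit `z` cuts the leg `i`.  `Lz` = its links, `A'` = ends of the child. -/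
structure StarStep (E : α → α → α → Prop) (O A : α → Fin 3 → Set α)
    (B : α → α → α → α → Prop) (X : Fin 3 → Set α) (T W : Set α) (z : α) (i : Fin 3)
    (Lz : Set α) (A' : α → Fin 3 → Set α) : Prop where
  sub : Lz ⊆ T
  dis : Disjoint (chT O A X T z i) Lz
  wit : ∀ w ∈ W ∪ Lz, TWit E O A' B (chX A X z i) (chT O A X T z i) w
  A'W : ∀ w ∈ W, A' w = A w
  A'L : ∀ d ∈ Lz, ∀ l, l ≠ i → A' d l = O d l
  /-- outer elements -/
  outer : ∀ t ∈ T, t ∉ chT O A X T z i → t ∉ Lz →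
    (∀ l, ∀ x ∈ chX A X z i l, ∀ y ∈ chX A X z i l, E t x y) ∧ ¬ NearT O X t
  /-- a near link has exactly two places, the first one in the outer part -/
  first : ∀ t ∈ Lz, NearT O X t → ∀ x ∈ X i, x ∈ O t i → x ∈ A z i
  near : ∀ t ∈ Lz, NearT O X t → ∃ i j k, i ≠ j ∧ i ≠ k ∧ j ≠ k ∧
    (∃ x ∈ X i, x ∉ O t i) ∧ (∃ x ∈ X j, x ∉ O t j) ∧ (∀ x ∈ X k, x ∈ O t k) ∧
    (∀ l, ∀ x ∈ X l, ∀ y ∈ X l, (E t x y ↔ (x ∈ O t l ↔ y ∈ O t l))) ∧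
    ∀ x ∈ X 0, ∀ y ∈ X 1, ∀ w ∈ X 2, (k ≠ 0 → x ∉ O t 0) → (k ≠ 1 → y ∉ O t 1) →
      (k ≠ 2 → w ∉ O t 2) → B t x y w
  cross : ∀ t ∈ Lz, NearT O X t → ∀ t' ∈ Lz, NearT O X t' → ∀ i,
    CmpOn (X i) (O t i) (O t' i) ∨ ∀ j, j ≠ i → EqOn (X j) (O t j) (O t' j)
  A'I : ∀ d ∈ Lz, ∃ c ∈ X i, c ∉ O d i ∧ ∀ x ∈ chX A X z i i, (x ∈ A' d i ↔ E d c x)
  zig : ∀ l, ∀ d ∈ T, SameR E O X d l → ∀ t ∈ Lz, NearT O X t → ∀ t' ∈ Lz, NearT O X t' →
    (∃ m, m ≠ l ∧ ¬ EqOn (X m) (O t m) (O t' m)) → ¬ Zig (X l) (O t l) (O t' l) (O d l)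

/-- **The step, statement.** -/
def StarStepStmt (α : Type*) : Prop :=
  ∀ (E : α → α → α → Prop) (O A : α → Fin 3 → Set α) (B : α → α → α → α → Prop)
    (X : Fin 3 → Set α) (T W : Set α), Disjoint T W → (∀ z ∈ W, TWit E O A B X T z) →
    (∀ z ∈ W, StarSysFacts E O A B X T z) ∧
    ∀ z ∈ W, ∀ i, (∃ x ∈ X i, x ∉ A z i) → ∃ (Lz : Set α) (A' : α → Fin 3 → Set α),
      StarStep E O A B X T W z i Lz A'

end TST
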