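import Pool.Agent.TST.Shrink

/-!
# Row H1 of the host (T*): node numbers of the columns after the contraction

Columns at the base level are passes of rows, with separators and the positions of a tile in the
middle window.  After the contraction of all other positions the nodes of a column are consecutive.
-/

open Set Relation

namespace TST

variable {X₀ β : Type*}

/-- Columns at the base level: the column `i` is a pass of the row `R i` with separators `x i b`,
`b ≤ 2 N + 1`, and the positions `y i` of the tile in the middle window. -/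
structure Cols (W : RW X₀ β) (ι : Type*) (N : ℕ) where
  R : ι → β
  x : ι → ℕ → ℕ
  y : ι → Finset ℕ
  up : ι → Prop
  lt : ∀ i, ∀ b ≤ 2 * N + 1, x i b < W.len (R i)
  mon : ∀ i, (up i ∧ ∀ b < 2 * N + 1, x i b < x i (b + 1)) ∨
    (¬ up i ∧ ∀ b < 2 * N + 1, x i (b + 1) < x i b)
  yin : ∀ i, ∀ p ∈ y i, (x i N < p ∧ p < x i (N + 1)) ∨ (x i (N + 1) < p ∧ p < x i N)
  sep : ∀ i i', i ≠ i' → R i = R i' →
    (∀ b ≤ 2 * N + 1, ∀ b' ≤ 2 * N + 1, x i b < x i' b') ∨
      (∀ b ≤ 2 * N + 1, ∀ b' ≤ 2 * N + 1, x i' b' < x i b)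

open Classical in
/-- kept positions: separators, the positions of the tile, and `ex r` (outside of all passes) -/
noncomputable def Cols.K {W : RW X₀ β} {ι : Type*} [Fintype ι] {N : ℕ} (C : Cols W ι N)
    (ex : β → Finset ℕ) (r : β) : Finset ℕ :=
  ex r ∪ (Finset.univ.filter fun i => C.R i = r).biUnion fun i =>
    (Finset.range (2 * N + 2)).image (C.x i) ∪ C.y i

/-- Columns after contraction: the column `i` consists of the nodes `a i, …, a i + 2 N + m i` of the
row `R i`; the middle window has `m i + 1` nodes. -/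
structure Strip (W : RW X₀ β) (ι : Type*) (N : ℕ) where
  R : ι → β
  a : ι → ℕ
  m : ι → ℕ
  up : ι → Prop
  pos : ∀ i, 1 ≤ a i
  lt : ∀ i, a i + 2 * N + m i < W.len (R i)
  dis : ∀ i i', i ≠ i' → R i = R i' →
    a i + 2 * N + m i < a i' ∨ a i' + 2 * N + m i' < a i

open Classical in
/-- node of the column `i` with label `b`: windows `-N ≤ b ≤ N`, more nodes of the middle window are
`N < b ≤ N + m i` -/
noncomputable def Strip.idx {W : RW X₀ β} {ι : Type*} {N : ℕ} (T : Strip W ι N) (i : ι) (b : ℤ) :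
    ℕ :=
  if T.up i then
    (if b ≤ 0 then (T.a i + N + b).toNat else if b ≤ N then (T.a i + N + T.m i + b).toNat
      else (T.a i + b).toNat)
  else
    (if b < 0 then (T.a i + N + T.m i - b).toNat else if b ≤ N then (T.a i + N - b).toNat
      else (T.a i + b).toNat)

/-! ### Counting -/

lemma strip_mono {z : ℕ → ℕ} {n : ℕ} (hz : ∀ b < n, z b < z (b + 1)) {b b' : ℕ} (h : b < b')
    (hb : b' ≤ n) : z b < z b' := by
  induction b', h using Nat.le_induction with
  | base => exact hz b (by omega)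
  | succ m hm ih => exact (ih (by omega)).trans (hz m (by omega))

lemma strip_mono' {z : ℕ → ℕ} {n : ℕ} (hz : ∀ b < n, z b < z (b + 1)) {b b' : ℕ} (h : b ≤ b')
    (hb : b' ≤ n) : z b ≤ z b' := by
  rcases h.lt_or_eq with h | rfl
  · exact (strip_mono hz h hb).le
  · exact le_rfl

/-- number of kept positions below `p`, for `p` inside of a pass -/
lemma strip_count {K y : Finset ℕ} {z : ℕ → ℕ} {n : ℕ} (hz : ∀ b < n, z b < z (b + 1))
    (hy : ∀ p ∈ y, z 0 < p ∧ p < z n) (hyz : ∀ p ∈ y, ∀ b ≤ n, z b ≠ p)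
    (hK : ∀ p, z 0 ≤ p → p ≤ z n → (p ∈ K ↔ p ∈ y ∨ ∃ b ≤ n, z b = p)) {p : ℕ}
    (h0 : z 0 ≤ p) (h1 : p ≤ z n) :
    (K.filter (· < p)).card = (K.filter (· < z 0)).card +
      ((Finset.range (n + 1)).filter fun b => z b < p).card + (y.filter (· < p)).card := by
  classical
  have hinj : Set.InjOn z (((Finset.range (n + 1)).filter fun b => z b < p : Finset ℕ) : Set ℕ) := by
    intro b hb b' hb' h
    rw [Finset.mem_coe, Finset.mem_filter, Finset.mem_range] at hb hb'
    rcases lt_trichotomy b b' with h2 | h2 | h2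
    · have := strip_mono hz h2 (by omega)
      omega
    · exact h2
    · have := strip_mono hz h2 (by omega)
      omega
  have hset : K.filter (· < p) = (K.filter (· < z 0) ∪
      ((Finset.range (n + 1)).filter fun b => z b < p).image z) ∪ y.filter (· < p) := by
    ext q
    rw [Finset.mem_union, Finset.mem_union, Finset.mem_filter, Finset.mem_filter, Finset.mem_filter,
      Finset.mem_image]
    constructor
    · rintro ⟨h2, h3⟩
      rcases Nat.lt_or_ge q (z 0) with h4 | h4
      · exact Or.inl (Or.inl ⟨h2, h4⟩)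
      · rcases (hK q h4 (by omega)).1 h2 with h5 | ⟨b, hb, rfl⟩
        · exact Or.inr ⟨h5, h3⟩
        · refine Or.inl (Or.inr ⟨b, ?_, rfl⟩)
          rw [Finset.mem_filter, Finset.mem_range]
          exact ⟨by omega, h3⟩
    · rintro ((⟨h2, h3⟩ | ⟨b, hb, rfl⟩) | ⟨h2, h3⟩)
      · exact ⟨h2, by omega⟩
      · rw [Finset.mem_filter, Finset.mem_range] at hb
        have h4 := strip_mono' hz (Nat.zero_le b) (by omega)
        exact ⟨(hK _ h4 (by omega)).2 (Or.inr ⟨b, by omega, rfl⟩), hb.2⟩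
      · have h4 := hy q h2
        exact ⟨(hK q h4.1.le h4.2.le).2 (Or.inl h2), h3⟩
  have hd1 : Disjoint (K.filter (· < z 0))
      (((Finset.range (n + 1)).filter fun b => z b < p).image z) := by
    rw [Finset.disjoint_left]
    intro q h2 h3
    rw [Finset.mem_filter] at h2
    rw [Finset.mem_image] at h3
    obtain ⟨b, hb, rfl⟩ := h3
    rw [Finset.mem_filter, Finset.mem_range] at hb
    have h4 := strip_mono' hz (Nat.zero_le b) (by omega)
    omega
  have hd2 : Disjoint (K.filter (· < z 0) ∪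
      ((Finset.range (n + 1)).filter fun b => z b < p).image z) (y.filter (· < p)) := by
    rw [Finset.disjoint_left]
    intro q h2 h3
    rw [Finset.mem_filter] at h3
    rw [Finset.mem_union, Finset.mem_filter, Finset.mem_image] at h2
    rcases h2 with h2 | ⟨b, hb, h4⟩
    · have := hy q h3.1
      omega
    · rw [Finset.mem_filter, Finset.mem_range] at hb
      exact hyz q h3.1 b (by omega) h4
  rw [hset, Finset.card_union_of_disjoint hd2, Finset.card_union_of_disjoint hd1,
    Finset.card_image_of_injOn hinj]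

lemma strip_range {z : ℕ → ℕ} {n : ℕ} (hz : ∀ b < n, z b < z (b + 1)) {b p : ℕ} (hb : b < n)
    (h0 : z b < p) (h1 : p ≤ z (b + 1)) :
    ((Finset.range (n + 1)).filter fun b => z b < p).card = b + 1 := by
  have : (Finset.range (n + 1)).filter (fun b => z b < p) = Finset.range (b + 1) := by
    ext c
    rw [Finset.mem_filter, Finset.mem_range, Finset.mem_range]
    constructor
    · rintro ⟨h2, h3⟩
      by_contra h4
      have := strip_mono' hz (show b + 1 ≤ c by omega) (by omega)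
      omega
    · intro h2
      have := strip_mono' hz (show c ≤ b by omega) (by omega)
      exact ⟨by omega, by omega⟩
  rw [this, Finset.card_range]

/-- **Counting in a pass**, increasing separators. -/
lemma strip_pass {K y : Finset ℕ} {z : ℕ → ℕ} {N : ℕ} (hz : ∀ b < 2 * N + 1, z b < z (b + 1))
    (hy : ∀ p ∈ y, z N < p ∧ p < z (N + 1))
    (hK : ∀ p, z 0 ≤ p → p ≤ z (2 * N + 1) → (p ∈ K ↔ p ∈ y ∨ ∃ b ≤ 2 * N + 1, z b = p)) :
    (∀ b < N, ∀ p, z b < p → p ≤ z (b + 1) →
      (K.filter (· < p)).card = (K.filter (· < z 0)).card + 1 + b) ∧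
    (∀ p, z N < p → p ≤ z (N + 1) →
      (K.filter (· < p)).card = (K.filter (· < z 0)).card + 1 + N + (y.filter (· < p)).card) ∧
    (∀ b, N < b → b < 2 * N + 1 → ∀ p, z b < p → p ≤ z (b + 1) →
      (K.filter (· < p)).card = (K.filter (· < z 0)).card + 1 + b + y.card) ∧
    (K.filter (· < z (2 * N + 1))).card = (K.filter (· < z 0)).card + 1 + 2 * N + y.card := by
  have hy' : ∀ p ∈ y, z 0 < p ∧ p < z (2 * N + 1) := by
    intro p hp
    have h1 := hy p hp
    have h2 := strip_mono' hz (Nat.zero_le N) (by omega)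
    have h3 := strip_mono' hz (show N + 1 ≤ 2 * N + 1 by omega) le_rfl
    exact ⟨by omega, by omega⟩
  have hyz : ∀ p ∈ y, ∀ b ≤ 2 * N + 1, z b ≠ p := by
    rintro p hp b hb rfl
    have h1 := hy _ hp
    rcases Nat.lt_or_ge N b with h | h
    · have := strip_mono' hz (show N + 1 ≤ b by omega) hb
      omega
    · have := strip_mono' hz h (by omega)
      omega
  have key : ∀ b < 2 * N + 1, ∀ p, z b < p → p ≤ z (b + 1) →
      (K.filter (· < p)).card = (K.filter (· < z 0)).card + 1 + b + (y.filter (· < p)).card := by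
    intro b hb p h0 h1
    have h2 := strip_mono' hz (Nat.zero_le b) (by omega)
    have h3 := strip_mono' hz (show b + 1 ≤ 2 * N + 1 by omega) le_rfl
    rw [strip_count hz hy' hyz hK (by omega) (by omega), strip_range hz hb h0 h1]
    omega
  have hhi : ∀ b, N < b → b < 2 * N + 1 → ∀ p, z b < p → p ≤ z (b + 1) →
      (K.filter (· < p)).card = (K.filter (· < z 0)).card + 1 + b + y.card := by
    intro b hb hb' p h0 h1
    rw [key b hb' p h0 h1]
    congr 2
    rw [Finset.filter_true_of_mem]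
    intro q hq
    have h2 := hy q hq
    have h3 := strip_mono' hz (show N + 1 ≤ b by omega) (by omega)
    omega
  have hmid : ∀ p, z N < p → p ≤ z (N + 1) →
      (K.filter (· < p)).card = (K.filter (· < z 0)).card + 1 + N + (y.filter (· < p)).card :=
    fun p h0 h1 => key N (by omega) p h0 h1
  refine ⟨?_, hmid, hhi, ?_⟩
  · intro b hb p h0 h1
    rw [key b (by omega) p h0 h1]
    have : y.filter (· < p) = ∅ := by
      rw [Finset.filter_eq_empty_iff]
      intro q hq
      have h2 := hy q hq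
      have h3 := strip_mono' hz (show b + 1 ≤ N by omega) (by omega)
      omega
    rw [this, Finset.card_empty]
    rfl
  · rcases Nat.eq_zero_or_pos N with rfl | hN
    · have h2 : y.filter (· < z (0 + 1)) = y := by
        rw [Finset.filter_true_of_mem]
        exact fun q hq => (hy q hq).2
      have h3 := hmid (z (0 + 1)) (hz 0 (by omega)) le_rfl
      rw [h2] at h3
      simpa using h3
    · exact hhi (2 * N) (by omega) (by omega) _ (hz _ (by omega)) le_rfl

/-- the separators in increasing order -/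
noncomputable def Cols.z {W : RW X₀ β} {ι : Type*} {N : ℕ} (C : Cols W ι N) (i : ι) (b : ℕ) : ℕ :=
  open Classical in if C.up i then C.x i b else C.x i (2 * N + 1 - b)

section

variable {W : RW X₀ β} {ι : Type*} {N : ℕ} (C : Cols W ι N)

lemma Cols.z_up {i : ι} (h : C.up i) (b : ℕ) : C.z i b = C.x i b := by
  unfold Cols.z
  rw [if_pos h]

lemma Cols.z_dn {i : ι} (h : ¬ C.up i) (b : ℕ) : C.z i b = C.x i (2 * N + 1 - b) := by
  unfold Cols.z
  rw [if_neg h]

lemma Cols.z_mon (i : ι) : ∀ b < 2 * N + 1, C.z i b < C.z i (b + 1) := by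
  intro b hb
  rcases C.mon i with ⟨h1, h2⟩ | ⟨h1, h2⟩
  · rw [C.z_up h1, C.z_up h1]
    exact h2 b hb
  · rw [C.z_dn h1, C.z_dn h1]
    have h3 := h2 (2 * N - b) (by omega)
    rwa [show 2 * N - b + 1 = 2 * N + 1 - b by omega, show 2 * N - b = 2 * N + 1 - (b + 1) by omega]
      at h3

lemma Cols.exists_z (i : ι) {b : ℕ} (hb : b ≤ 2 * N + 1) : ∃ c ≤ 2 * N + 1, C.z i b = C.x i c := by
  by_cases h : C.up i
  · exact ⟨b, hb, C.z_up h b⟩
  · exact ⟨2 * N + 1 - b, by omega, C.z_dn h b⟩

lemma Cols.exists_x (i : ι) {b : ℕ} (hb : b ≤ 2 * N + 1) : ∃ c ≤ 2 * N + 1, C.z i c = C.x i b := by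
  by_cases h : C.up i
  · exact ⟨b, hb, C.z_up h b⟩
  · refine ⟨2 * N + 1 - b, by omega, ?_⟩
    rw [C.z_dn h]
    congr 1
    omega

lemma Cols.y_z (i : ι) : ∀ p ∈ C.y i, C.z i N < p ∧ p < C.z i (N + 1) := by
  intro p hp
  have h0 := C.yin i p hp
  rcases C.mon i with ⟨h1, h2⟩ | ⟨h1, h2⟩
  · rw [C.z_up h1, C.z_up h1]
    have := h2 N (by omega)
    omega
  · rw [C.z_dn h1, C.z_dn h1, show 2 * N + 1 - N = N + 1 by omega,
      show 2 * N + 1 - (N + 1) = N by omega]
    have := h2 N (by omega)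
    omega

/-- positions of the column `i` -/
lemma Cols.pos_z [Fintype ι] {i : ι} {p : ℕ} (hp : p ∈ C.y i ∨ ∃ b ≤ 2 * N + 1, C.x i b = p) :
    C.z i 0 ≤ p ∧ p ≤ C.z i (2 * N + 1) := by
  have hz := C.z_mon i
  rcases hp with hp | ⟨b, hb, rfl⟩
  · have h1 := C.y_z i p hp
    have h2 := strip_mono' hz (Nat.zero_le N) (by omega)
    have h3 := strip_mono' hz (show N + 1 ≤ 2 * N + 1 by omega) le_rfl
    exact ⟨by omega, by omega⟩
  · obtain ⟨c, hc, h⟩ := C.exists_x i hb
    rw [← h]
    exact ⟨strip_mono' hz (Nat.zero_le c) hc, strip_mono' hz hc le_rfl⟩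

lemma Cols.sep_z {i i' : ι} (h : i ≠ i') (hR : C.R i = C.R i') :
    C.z i (2 * N + 1) < C.z i' 0 ∨ C.z i' (2 * N + 1) < C.z i 0 := by
  obtain ⟨b, hb, h1⟩ := C.exists_z i (b := 2 * N + 1) le_rfl
  obtain ⟨b', hb', h1'⟩ := C.exists_z i' (b := 2 * N + 1) le_rfl
  obtain ⟨c, hc, h2⟩ := C.exists_z i (b := 0) (by omega)
  obtain ⟨c', hc', h2'⟩ := C.exists_z i' (b := 0) (by omega)
  rcases C.sep i i' h hR with h3 | h3
  · left
    rw [h1, h2']
    exact h3 b hb c' hc'
  · right
    rw [h1', h2]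
    exact h3 c hc b' hb'

lemma Cols.mem_K [Fintype ι] (ex : β → Finset ℕ) {r : β} {p : ℕ} :
    p ∈ C.K ex r ↔ p ∈ ex r ∨ ∃ i, C.R i = r ∧ (p ∈ C.y i ∨ ∃ b ≤ 2 * N + 1, C.x i b = p) := by
  classical
  unfold Cols.K
  simp only [Finset.mem_union, Finset.mem_biUnion, Finset.mem_filter, Finset.mem_univ, true_and,
    Finset.mem_image, Finset.mem_range]
  constructor
  · rintro (h | ⟨i, h1, ⟨b, hb, h2⟩ | h2⟩)
    · exact Or.inl h
    · exact Or.inr ⟨i, h1, Or.inr ⟨b, by omega, h2⟩⟩
    · exact Or.inr ⟨i, h1, Or.inl h2⟩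
  · rintro (h | ⟨i, h1, h2 | ⟨b, hb, h2⟩⟩)
    · exact Or.inl h
    · exact Or.inr ⟨i, h1, Or.inr h2⟩
    · exact Or.inr ⟨i, h1, Or.inl ⟨b, by omega, h2⟩⟩

/-- kept positions inside of a pass -/
lemma Cols.mem_K_pass [Fintype ι] {ex : β → Finset ℕ}
    (hex : ∀ r, ∀ p ∈ ex r, p < W.len r ∧ ∀ i, C.R i = r →
      (∀ b ≤ 2 * N + 1, p < C.x i b) ∨ (∀ b ≤ 2 * N + 1, C.x i b < p)) (i : ι) (p : ℕ)
    (h0 : C.z i 0 ≤ p) (h1 : p ≤ C.z i (2 * N + 1)) :
    p ∈ C.K ex (C.R i) ↔ p ∈ C.y i ∨ ∃ b ≤ 2 * N + 1, C.z i b = p := by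
  rw [C.mem_K]
  constructor
  · rintro (h | ⟨i', h2, h3⟩)
    · exfalso
      obtain ⟨b, hb, h4⟩ := C.exists_z i (b := 2 * N + 1) le_rfl
      obtain ⟨c, hc, h5⟩ := C.exists_z i (b := 0) (by omega)
      rcases (hex _ p h).2 i rfl with h6 | h6
      · have := h6 c hc
        omega
      · have := h6 b hb
        omega
    · by_cases hii : i' = i
      · subst hii
        rcases h3 with h3 | ⟨b, hb, rfl⟩
        · exact Or.inl h3
        · exact Or.inr (C.exists_x i' hb)
      · exfalso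
        have h4 := C.pos_z h3
        rcases C.sep_z hii h2 with h5 | h5 <;> omega
  · rintro (h | ⟨b, hb, rfl⟩)
    · exact Or.inr ⟨i, rfl, Or.inl h⟩
    · obtain ⟨c, hc, h2⟩ := C.exists_z i hb
      exact Or.inr ⟨i, rfl, Or.inr ⟨c, hc, h2.symm⟩⟩

end

/-- **Row H1**: node numbers of the columns after the contraction, strong form: there is always a
node between two columns of the same row. -/
theorem strip_of_cols' {W : RW X₀ β} {ι : Type*} [Fintype ι] {N : ℕ} (C : Cols W ι N)
    (ex : β → Finset ℕ) (hex : ∀ r, ∀ p ∈ ex r, p < W.len r ∧ ∀ i, C.R i = r →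
      (∀ b ≤ 2 * N + 1, p < C.x i b) ∨ (∀ b ≤ 2 * N + 1, C.x i b < p)) :
    ∃ T : Strip (W.shrink (C.K ex)) ι N, T.R = C.R ∧ T.up = C.up ∧
      (∀ i i', i ≠ i' → T.R i = T.R i' →
        T.a i + 2 * N + T.m i + 1 < T.a i' ∨ T.a i' + 2 * N + T.m i' + 1 < T.a i) ∧
      (∀ i, T.m i = (C.y i).card) ∧
      (∀ i, ∀ b < 2 * N + 1, b ≠ N → ∀ p, (C.x i b < p ∧ p ≤ C.x i (b + 1)) ∨
        (C.x i (b + 1) < p ∧ p ≤ C.x i b) → cnt (C.K ex) (C.R i) p = T.idx i (b - N)) ∧
      (∀ i p, (C.x i N < p ∧ p ≤ C.x i (N + 1)) ∨ (C.x i (N + 1) < p ∧ p ≤ C.x i N) →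
        ∃ b : ℤ, (b = 0 ∨ (N < b ∧ b ≤ N + T.m i)) ∧ cnt (C.K ex) (C.R i) p = T.idx i b) := by
  classical
  have hP := fun i => strip_pass (C.z_mon i) (C.y_z i) (C.mem_K_pass hex i)
  have hzK : ∀ i, ∀ b ≤ 2 * N + 1, C.z i b ∈ C.K ex (C.R i) := by
    intro i b hb
    obtain ⟨c, hc, h2⟩ := C.exists_z i hb
    exact (C.mem_K ex).2 (Or.inr ⟨i, rfl, Or.inr ⟨c, hc, h2.symm⟩⟩)
  have hend : ∀ i, cnt (C.K ex) (C.R i) (C.z i (2 * N + 1)) =
      cnt (C.K ex) (C.R i) (C.z i 0) + 1 + 2 * N + (C.y i).card := fun i => (hP i).2.2.2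
  have hdis : ∀ i i', i ≠ i' → C.R i = C.R i' → C.z i (2 * N + 1) < C.z i' 0 →
      cnt (C.K ex) (C.R i) (C.z i 0) + 1 + 2 * N + (C.y i).card + 1 <
        cnt (C.K ex) (C.R i') (C.z i' 0) + 1 := by
    intro i i' _ hR hlt
    have h1 := cnt_succ_of_mem (hzK i (2 * N + 1) le_rfl)
    have h2 := cnt_mono (C.K ex) (C.R i) (show C.z i (2 * N + 1) + 1 ≤ C.z i' 0 by omega)
    have h3 := hend i
    rw [← hR]
    omega
  refine ⟨⟨C.R, fun i => cnt (C.K ex) (C.R i) (C.z i 0) + 1, fun i => (C.y i).card, C.up,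
    fun i => Nat.le_add_left 1 _, ?_, ?_⟩, rfl, rfl, ?_, fun i => rfl, ?_, ?_⟩
  · intro i
    have h1 := cnt_lt (hzK i (2 * N + 1) le_rfl)
    have h2 := hend i
    change _ < (C.K ex (C.R i)).card
    omega
  · intro i i' hii hR
    rcases C.sep_z hii hR with h | h
    · have h1 := hdis i i' hii hR h
      exact Or.inl (by omega)
    · have h1 := hdis i' i hii.symm hR.symm h
      exact Or.inr (by omega)
  · intro i i' hii hR
    rcases C.sep_z hii hR with h | h
    · exact Or.inl (hdis i i' hii hR h)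
    · exact Or.inr (hdis i' i hii.symm hR.symm h)
  · intro i b hb hbN p hp
    rcases C.mon i with ⟨hu, hm⟩ | ⟨hu, hm⟩
    · -- upwards
      have hp' : C.z i b < p ∧ p ≤ C.z i (b + 1) := by
        rw [C.z_up hu, C.z_up hu]
        have := hm b hb
        omega
      unfold Strip.idx
      rw [if_pos (show C.up i from hu)]
      rcases Nat.lt_or_ge b N with h | h
      · have h1 := (hP i).1 b h p hp'.1 hp'.2
        rw [if_pos (by omega)]
        unfold cnt
        rw [h1]
        push_cast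
        omega
      · have h1 := (hP i).2.2.1 b (by omega) hb p hp'.1 hp'.2
        rw [if_neg (by omega), if_pos (by omega)]
        unfold cnt
        rw [h1]
        push_cast
        omega
    · -- downwards
      have hp' : C.z i (2 * N - b) < p ∧ p ≤ C.z i (2 * N - b + 1) := by
        rw [C.z_dn hu, C.z_dn hu, show 2 * N + 1 - (2 * N - b) = b + 1 by omega,
          show 2 * N + 1 - (2 * N - b + 1) = b by omega]
        have := hm b hb
        omega
      unfold Strip.idx
      rw [if_neg (show ¬ C.up i from hu)]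
      rcases Nat.lt_or_ge b N with h | h
      · have h1 := (hP i).2.2.1 (2 * N - b) (by omega) (by omega) p hp'.1 hp'.2
        rw [if_pos (by omega)]
        unfold cnt
        rw [h1]
        push_cast
        omega
      · have h1 := (hP i).1 (2 * N - b) (by omega) p hp'.1 hp'.2
        rw [if_neg (by omega), if_pos (by omega)]
        unfold cnt
        rw [h1]
        push_cast
        omega
  · intro i p hp
    have hp' : C.z i N < p ∧ p ≤ C.z i (N + 1) := by
      rcases C.mon i with ⟨hu, hm⟩ | ⟨hu, hm⟩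
      · rw [C.z_up hu, C.z_up hu]
        have := hm N (by omega)
        omega
      · rw [C.z_dn hu, C.z_dn hu, show 2 * N + 1 - N = N + 1 by omega,
          show 2 * N + 1 - (N + 1) = N by omega]
        have := hm N (by omega)
        omega
    have h1 := (hP i).2.1 p hp'.1 hp'.2
    have h2 : ((C.y i).filter (· < p)).card ≤ (C.y i).card :=
      Finset.card_le_card (Finset.filter_subset _ _)
    rcases Nat.eq_zero_or_pos ((C.y i).filter (· < p)).card with h3 | h3
    · refine ⟨0, Or.inl rfl, ?_⟩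
      unfold cnt Strip.idx
      rw [h1, h3]
      rcases C.mon i with ⟨hu, _⟩ | ⟨hu, _⟩
      · rw [if_pos (show C.up i from hu), if_pos le_rfl]
        push_cast
        omega
      · rw [if_neg (show ¬ C.up i from hu), if_neg (by omega), if_pos (by omega)]
        push_cast
        omega
    · refine ⟨N + ((C.y i).filter (· < p)).card, Or.inr ⟨by omega, ?_⟩, ?_⟩
      · change (_ : ℤ) ≤ N + ((C.y i).card : ℤ)
        omega
      · unfold cnt Strip.idx
        rw [h1]
        rcases C.mon i with ⟨hu, _⟩ | ⟨hu, _⟩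
        · rw [if_pos (show C.up i from hu), if_neg (by omega), if_neg (by omega)]
          push_cast
          omega
        · rw [if_neg (show ¬ C.up i from hu), if_neg (by omega), if_neg (by omega)]
          push_cast
          omega

/-- **Row H1**: node numbers of the columns after the contraction. -/
theorem strip_of_cols {W : RW X₀ β} {ι : Type*} [Fintype ι] {N : ℕ} (C : Cols W ι N)
    (ex : β → Finset ℕ) (hex : ∀ r, ∀ p ∈ ex r, p < W.len r ∧ ∀ i, C.R i = r →
      (∀ b ≤ 2 * N + 1, p < C.x i b) ∨ (∀ b ≤ 2 * N + 1, C.x i b < p)) :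
    ∃ T : Strip (W.shrink (C.K ex)) ι N, T.R = C.R ∧ T.up = C.up ∧
      (∀ i, T.m i = (C.y i).card) ∧
      (∀ i, ∀ b < 2 * N + 1, b ≠ N → ∀ p, (C.x i b < p ∧ p ≤ C.x i (b + 1)) ∨
        (C.x i (b + 1) < p ∧ p ≤ C.x i b) → cnt (C.K ex) (C.R i) p = T.idx i (b - N)) ∧
      (∀ i p, (C.x i N < p ∧ p ≤ C.x i (N + 1)) ∨ (C.x i (N + 1) < p ∧ p ≤ C.x i N) →
        ∃ b : ℤ, (b = 0 ∨ (N < b ∧ b ≤ N + T.m i)) ∧ cnt (C.K ex) (C.R i) p = T.idx i b) := by
  obtain ⟨T, h1, h2, _, h3⟩ := strip_of_cols' C ex hex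
  exact ⟨T, h1, h2, h3⟩

end TST
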