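import Pool.Agent.TST.StarReach

/-!
# The swallowed labels (CLAIM A of T-star, near step; helper63)

A state of the iterated star step whose exits are constant on the legs of `Fz`.  Labels = sequences of
tiles with the index set `J`, families = indexed by the sets of `M` tiles.  `swallow`: every label which
is reachable from a label touched by real exits is swallowed, up to `(M - 1) * (number of labels)` tile
indices, if the labels of the path on the other legs have no tile in the star.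
-/

set_option autoImplicit false

open Set
open scoped Matroid

namespace TST

variable {α : Type*} {T₀ W₀ : Set α} {z d t w : α} {X₀ X : Fin 3 → Set α} {i l G : Fin 3}
  {E : α → α → α → Prop} {O A A' A'' : α → Fin 3 → Set α} {B : α → α → α → α → Prop}

/-- an exit of the star with the legs `X` -/
def ExR (O : α → Fin 3 → Set α) (X₀ : Fin 3 → Set α) (T₀ W₀ : Set α) (X : Fin 3 → Set α)
    (w : α) : Prop := w ∈ T₀ ∪ W₀ ∧ w ∉ SigT O X₀ T₀ X

/-- every exit is constant on the leg `l` -/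
def QtL (E : α → α → α → Prop) (O : α → Fin 3 → Set α) (X₀ : Fin 3 → Set α) (T₀ W₀ : Set α)
    (X : Fin 3 → Set α) (l : Fin 3) : Prop :=
  ∀ w, ExR O X₀ T₀ W₀ X w → ∀ x ∈ X l, ∀ y ∈ X l, E w x y

/-- a real exit is an exit of the star -/
lemma exR_of_W (hd : Disjoint T₀ W₀) (hw : w ∈ W₀) : ExR O X₀ T₀ W₀ X w :=
  ⟨Or.inr hw, fun h1 => disjoint_left.1 hd (sigT_sub h1) hw⟩

/-- the family `φ` splits the label `p`, in every set of `M` tiles -/
def Spl (E : α → α → α → Prop) (c : ℕ → ℕ → α) (J : Finset ℕ) (M : ℕ) (φ : Finset ℕ → α) (p : ℕ) :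
    Prop := ∀ Q : Finset ℕ, Q ⊆ J → Q.card = M → ∃ a ∈ Q, ∃ b ∈ Q, ¬ E (φ Q) (c p a) (c p b)

/-- a relation which holds for the sets of `M` tiles -/
def AllM (J : Finset ℕ) (M : ℕ) (P : Finset ℕ → Prop) : Prop :=
  ∀ Q : Finset ℕ, Q ⊆ J → Q.card = M → P Q

open Classical in
/-- the indices of the tiles which are still in the star -/
noncomputable def InT (X : Fin 3 → Set α) (c : ℕ → ℕ → α) (lg : ℕ → Fin 3) (J : Finset ℕ) (p : ℕ) :
    Finset ℕ := J.filter fun a => c p a ∈ X (lg p)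

section

variable {c : ℕ → ℕ → α} {lg : ℕ → Fin 3} {J D : Finset ℕ} {M p q a : ℕ} {φ : Finset ℕ → α}

lemma mem_InT : a ∈ InT X c lg J p ↔ a ∈ J ∧ c p a ∈ X (lg p) := by
  classical
  rw [InT, Finset.mem_filter]

lemma Spl.mono {J' : Finset ℕ} (h : Spl E c J M φ p) (hJ : J' ⊆ J) : Spl E c J' M φ p :=
  fun Q hQ => h Q (hQ.trans hJ)

lemma AllM.mono {J' : Finset ℕ} {P : Finset ℕ → Prop} (h : AllM J M P) (hJ : J' ⊆ J) :
    AllM J' M P := fun Q hQ => h Q (hQ.trans hJ)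

/-- a member which splits a swallowed label is no element of the star -/
lemma not_sigT {Q : Finset ℕ}
    (hrel : ∀ t ∈ T₀, ∀ l, ∀ x ∈ X₀ l, ∀ y ∈ X₀ l, x ∈ O t l → y ∈ O t l → E t x y)
    (hc : ∀ a ∈ J, c p a ∈ X₀ (lg p)) (hp : ∀ a ∈ J, a ∉ D → c p a ∉ X (lg p))
    (hs : Spl E c J M φ p) (hQ : Q ⊆ J) (hQM : Q.card = M) (hQD : Disjoint Q D) :
    φ Q ∉ SigT O X₀ T₀ X := by
  rintro ⟨h1, h2⟩
  obtain ⟨a, ha, b, hb, hab⟩ := hs Q hQ hQM
  have hD : ∀ a ∈ Q, a ∉ D := fun a ha => Finset.disjoint_left.1 hQD ha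
  have key : ∀ a ∈ Q, c p a ∈ O (φ Q) (lg p) := fun a ha =>
    h2 (lg p) _ (hc a (hQ ha)) (hp a (hQ ha) (hD a ha))
  exact hab (hrel _ h1 _ _ (hc a (hQ ha)) _ (hc b (hQ hb)) (key a ha) (key b hb))

/-- at most `M - 1` new indices -/
theorem inner_le (hq : QtL E O X₀ T₀ W₀ X (lg q) ∨ ∀ a ∈ J, c q a ∉ X (lg q))
    (hφ : AllM J M fun Q => Disjoint Q D → ExR O X₀ T₀ W₀ X (φ Q)) (hs : Spl E c J M φ q)
    (hM : 0 < M) : (InT X c lg J q \ D).card ≤ M - 1 := by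
  classical
  by_contra h1
  obtain ⟨Q, hQ, hQM⟩ := Finset.exists_subset_card_eq
    (show M ≤ (InT X c lg J q \ D).card by omega)
  have hQI : ∀ a ∈ Q, a ∈ J ∧ c q a ∈ X (lg q) := fun a ha =>
    mem_InT.1 (Finset.mem_sdiff.1 (hQ ha)).1
  have hQJ : Q ⊆ J := fun a ha => (hQI a ha).1
  have hQD : Disjoint Q D := by
    rw [Finset.disjoint_left]
    exact fun a ha => (Finset.mem_sdiff.1 (hQ ha)).2
  obtain ⟨a, ha, b, hb, hab⟩ := hs Q hQJ hQM
  rcases hq with hq | hq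
  · exact hab (hq _ (hφ Q hQJ hQM hQD) _ (hQI a ha).2 _ (hQI b hb).2)
  · exact hq a (hQI a ha).1 (hQI a ha).2

/-- **Swallowed labels.**  `St` = labels of the star, `Ba` = labels which are touched by real exits,
`Ed` = labels which are joined by a family of the star.  Every label which is reachable from a label of
`Ba` is swallowed, with at most `(M - 1) * #St` exceptional indices for all labels together. -/
theorem swallow (hd : Disjoint T₀ W₀)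
    (hrel : ∀ t ∈ T₀, ∀ l, ∀ x ∈ X₀ l, ∀ y ∈ X₀ l, x ∈ O t l → y ∈ O t l → E t x y)
    {St : Finset ℕ} (hM : 0 < M) (hc : ∀ p ∈ St, ∀ a ∈ J, c p a ∈ X₀ (lg p)) {Ba : ℕ → Prop}
    {Ed : ℕ → ℕ → Prop}
    (hBa : ∀ p, Ba p → p ∈ St ∧ (QtL E O X₀ T₀ W₀ X (lg p) ∨ ∀ a ∈ J, c p a ∉ X (lg p)) ∧
      ∃ φ : Finset ℕ → α, (AllM J M fun Q => φ Q ∈ W₀) ∧ Spl E c J M φ p)
    (hEd : ∀ p q, Ed p q → q ∈ St ∧ (QtL E O X₀ T₀ W₀ X (lg q) ∨ ∀ a ∈ J, c q a ∉ X (lg q)) ∧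
      ∃ φ : Finset ℕ → α, (AllM J M fun Q => φ Q ∈ T₀ ∪ W₀) ∧ Spl E c J M φ p ∧
        Spl E c J M φ q) :
    ∃ D : Finset ℕ, D.card ≤ (M - 1) * St.card ∧ D ⊆ J ∧ ∀ p₀ q, Ba p₀ →
      Relation.ReflTransGen Ed p₀ q → q ∈ St ∧ ∀ a ∈ J, a ∉ D → c q a ∉ X (lg q) := by
  classical
  obtain ⟨F, hF⟩ : ∃ F : Finset (Finset ℕ), F = St.powerset.filter fun P =>
      (P.biUnion fun p => InT X c lg J p).card ≤ (M - 1) * P.card := ⟨_, rfl⟩
  have hFne : F.Nonempty := ⟨∅, by rw [hF]; simp⟩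
  obtain ⟨P, hPF, hPmax⟩ := Finset.exists_max_image F Finset.card hFne
  rw [hF, Finset.mem_filter, Finset.mem_powerset] at hPF
  obtain ⟨hPSt, hPc⟩ := hPF
  obtain ⟨D, hD⟩ : ∃ D, D = P.biUnion fun p => InT X c lg J p := ⟨_, rfl⟩
  rw [← hD] at hPc
  have hin : ∀ p ∈ P, ∀ a ∈ J, a ∉ D → c p a ∉ X (lg p) := by
    intro p hp a ha haD h1
    apply haD
    rw [hD, Finset.mem_biUnion]
    exact ⟨p, hp, mem_InT.2 ⟨ha, h1⟩⟩
  -- a label with at most `M - 1` new indices is in `P`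
  have hadd : ∀ q ∈ St, (InT X c lg J q \ D).card ≤ M - 1 → q ∈ P := by
    intro q hq hq3
    by_contra hqP
    have h1 : insert q P ∈ F := by
      rw [hF, Finset.mem_filter, Finset.mem_powerset]
      refine ⟨Finset.insert_subset hq hPSt, ?_⟩
      rw [Finset.biUnion_insert, ← hD, Finset.card_insert_of_notMem hqP]
      have h2 : (InT X c lg J q ∪ D).card ≤ (InT X c lg J q \ D).card + D.card := by
        rw [← Finset.sdiff_union_self_eq_union]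
        exact Finset.card_union_le _ _
      have h3 : (M - 1) * (P.card + 1) = (M - 1) * P.card + (M - 1) := Nat.mul_succ _ _
      omega
    have h2 := hPmax _ h1
    rw [Finset.card_insert_of_notMem hqP] at h2
    omega
  refine ⟨D, hPc.trans (Nat.mul_le_mul_left _ (Finset.card_le_card hPSt)), ?_, ?_⟩
  · intro a ha
    rw [hD, Finset.mem_biUnion] at ha
    obtain ⟨p, -, h1⟩ := ha
    exact (mem_InT.1 h1).1
  intro p₀ q hp₀ hq
  have key : q ∈ P := by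
    induction hq with
    | refl =>
      obtain ⟨h1, h2, φ, h3, h4⟩ := hBa p₀ hp₀
      exact hadd p₀ h1 (inner_le h2 (fun Q hQ hQM _ => exR_of_W hd (h3 Q hQ hQM)) h4 hM)
    | tail _ hpq ih =>
      obtain ⟨h1, h2, φ, h3, h4, h5⟩ := hEd _ _ hpq
      refine hadd _ h1 (inner_le h2 (fun Q hQ hQM hQD => ⟨h3 Q hQ hQM, ?_⟩) h5 hM)
      exact not_sigT hrel (hc _ (hPSt ih)) (hin _ ih) h4 hQ hQM hQD
  exact ⟨hPSt key, hin q key⟩

end

/-- **A quiet state exists**: every exit is constant on all legs -/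
theorem exists_quiet (h0 : StarRun E O A B X₀ T₀ W₀ X₀ A) (hfin : ∀ l, (X₀ l).Finite) :
    ∃ (X : Fin 3 → Set α) (A' : α → Fin 3 → Set α), StarReach E O A B X₀ T₀ W₀ X A' ∧
      ∀ l, QtL E O X₀ T₀ W₀ X l := by
  obtain ⟨X, A', h1, -, h3⟩ := StarReach.exists_min h0 hfin (fun _ => True) trivial
  refine ⟨X, A', h1, ?_⟩
  intro l w hw x hx y hy
  rw [((h1.run h0).one hw.1 hw.2).1 l x hx y hy]
  have key : ∀ x ∈ X l, ∀ y ∈ X l, x ∈ A' w l → y ∈ A' w l := by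
    intro x hx y hy h4
    by_contra h5
    exact h3 w hw.1 hw.2 l ⟨y, hy, h5⟩ ⟨x, hx, h4⟩ trivial
  exact ⟨key x hx y hy, key y hy x hx⟩

/-! ### near elements which leave -/

/-- **A near element of the star has exactly two places**: `k` = third leg -/
def Near2 (E : α → α → α → Prop) (O : α → Fin 3 → Set α) (B : α → α → α → α → Prop)
    (X : Fin 3 → Set α) (t : α) : Prop :=
  ∃ i j k : Fin 3, i ≠ j ∧ i ≠ k ∧ j ≠ k ∧
    (∃ x ∈ X i, x ∉ O t i) ∧ (∃ x ∈ X j, x ∉ O t j) ∧ (∀ x ∈ X k, x ∈ O t k) ∧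
    (∀ l, ∀ x ∈ X l, ∀ y ∈ X l, (E t x y ↔ (x ∈ O t l ↔ y ∈ O t l))) ∧
    ∀ x ∈ X 0, ∀ y ∈ X 1, ∀ w ∈ X 2, (k ≠ 0 → x ∉ O t 0) → (k ≠ 1 → y ∉ O t 1) →
      (k ≠ 2 → w ∉ O t 2) → B t x y w

/-- from a part of the star to the star, for an element which is constant outside of the part -/
lemma Near2.extend (hf : StarSysFacts E O A B X₀ T₀ w) (ht : t ∈ T₀)
    (hX : ∀ l, X l ⊆ X₀ l) (hne : ∀ l, (X l).Nonempty)
    (hcon : ∀ i, ∀ x ∈ X₀ i, x ∉ X i → x ∈ O t i) (h : Near2 E O B X t) : Near2 E O B X₀ t := by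
  obtain ⟨i, j, k, hij, hik, hjk, ⟨x₁, h1, h1'⟩, ⟨x₂, h2, h2'⟩, h3, h4, h5⟩ := h
  have hin : ∀ l, ∀ x ∈ X₀ l, x ∉ O t l → x ∈ X l := by
    intro l x hx hxO
    by_contra h6
    exact hxO (hcon l x hx h6)
  have hk : ∀ x ∈ X₀ k, x ∈ O t k := by
    intro x hx
    by_contra h6
    exact h6 (h3 x (hin k x hx h6))
  refine ⟨i, j, k, hij, hik, hjk, ⟨x₁, hX i h1, h1'⟩, ⟨x₂, hX j h2, h2'⟩, hk, ?_, ?_⟩
  · intro l x hx y hy
    by_cases h6 : x ∈ O t l
    · rw [hf.rel t ht l x hx y hy h6]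
      exact ⟨fun h7 => ⟨fun _ => h7, fun _ => h6⟩, fun h7 => h7.1 h6⟩
    · by_cases h7 : y ∈ O t l
      · have h8 := hf.rel t ht l y hy x hx h7
        exact ⟨fun h9 => absurd (h8.1 (hf.symm t ht l x hx y hy h9)) h6,
          fun h9 => absurd (h9.2 h7) h6⟩
      · exact h4 l x (hin l x hx h6) y (hin l y hy h7)
  · intro x hx y hy v hv c0 c1 c2
    obtain ⟨a, ha⟩ := hne k
    -- replace the element of the third leg
    have key : ∀ l, ∀ x ∈ X₀ l, (k ≠ l → x ∉ O t l) → ∃ x' ∈ X l, (k ≠ l → x' ∉ O t l) ∧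
        E t x' x := by
      intro l x hx hxl
      by_cases hl : k = l
      · subst hl
        exact ⟨a, ha, fun h6 => absurd rfl h6, (hf.rel t ht k a (hX k ha) x hx (h3 a ha)).2
          (hk x hx)⟩
      · have h6 := hin l x hx (hxl hl)
        exact ⟨x, h6, fun _ => hxl hl, (h4 l x h6 x h6).2 Iff.rfl⟩
    obtain ⟨x', hx', cx, ex⟩ := key 0 x hx c0
    obtain ⟨y', hy', cy, ey⟩ := key 1 y hy c1
    obtain ⟨v', hv', cv, ev⟩ := key 2 v hv c2
    exact hf.tri t ht x' (hX 0 hx') x hx y' (hX 1 hy') y hy v' (hX 2 hv') v hv ex ey ev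
      (h5 x' hx' y' hy' v' hv' cx cy cv)

/-- **A near element which leaves the star has exactly two places.** -/
theorem StarReach.near2 {w₀ : α} (h : StarReach E O A B X₀ T₀ W₀ X A')
    (hw : TWit E O A B X₀ T₀ w₀) (hne : ∀ l, (X₀ l).Nonempty) (ht : t ∈ T₀)
    (htX : t ∉ SigT O X₀ T₀ X) (hn : NearT O X₀ t) : Near2 E O B X₀ t := by
  induction h with
  | root => exact absurd (by rwa [sigT_self]) htX
  | step X A' z i A₁ h1 h2 hz hzT hcut h3 _ ih =>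
    by_cases htS : t ∈ SigT O X₀ T₀ X
    · have hcon := htS.2
      obtain ⟨N, o, h4⟩ := (h2.wit z hz hzT).wd
      have htc : t ∉ chT O A' X (SigT O X₀ T₀ X) z i := by
        rw [← sigT_chX h2.sub]
        exact htX
      have hnX : NearT O X t := by
        obtain ⟨a, b, hab, ⟨x, hx, hx2⟩, ⟨y, hy, hy2⟩⟩ := hn
        refine ⟨a, b, hab, ⟨x, ?_, hx2⟩, ⟨y, ?_, hy2⟩⟩
        · by_contra h5
          exact hx2 (hcon a x hx h5)
        · by_contra h5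
          exact hy2 (hcon b y hy h5)
      obtain ⟨-, -, h5⟩ := h4.nearI hcut htS htc hnX
      exact Near2.extend hw.facts ht h2.sub (fun l => h1.nonempty hne l) hcon h5
    · exact ih htS

/-- **The unrestricted form**: near families which split a label reachable from the real exits have
exactly two places, up to `(M - 1) * #St` indices. -/
theorem StarRun.swallow_near {w₀ : α} (h0 : StarRun E O A B X₀ T₀ W₀ X₀ A)
    (hw : TWit E O A B X₀ T₀ w₀) (hfin : ∀ l, (X₀ l).Finite) (hne : ∀ l, (X₀ l).Nonempty)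
    {c : ℕ → ℕ → α} {lg : ℕ → Fin 3} {J St : Finset ℕ} {M : ℕ} (hM : 0 < M)
    (hc : ∀ p ∈ St, ∀ a ∈ J, c p a ∈ X₀ (lg p)) {Ba : ℕ → Prop} {Ed : ℕ → ℕ → Prop}
    (hBa : ∀ p, Ba p → p ∈ St ∧ ∃ φ : Finset ℕ → α, (AllM J M fun Q => φ Q ∈ W₀) ∧
      Spl E c J M φ p)
    (hEd : ∀ p q, Ed p q → q ∈ St ∧ ∃ φ : Finset ℕ → α, (AllM J M fun Q => φ Q ∈ T₀ ∪ W₀) ∧
      Spl E c J M φ p ∧ Spl E c J M φ q) :
    ∃ D : Finset ℕ, D.card ≤ (M - 1) * St.card ∧ D ⊆ J ∧ ∀ p₀ q, Ba p₀ →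
      Relation.ReflTransGen Ed p₀ q → ∀ e : Finset ℕ → α, Spl E c J M e q →
        AllM J M fun Q => Disjoint Q D → e Q ∈ T₀ → NearT O X₀ (e Q) → Near2 E O B X₀ (e Q) := by
  obtain ⟨X, A', h, hq⟩ := exists_quiet h0 hfin
  have hrel : ∀ t ∈ T₀, ∀ l, ∀ x ∈ X₀ l, ∀ y ∈ X₀ l, x ∈ O t l → y ∈ O t l → E t x y :=
    fun t ht l x hx y hy hxO hyO => (hw.facts.rel t ht l x hx y hy hxO).2 hyO
  obtain ⟨D, hD, hDJ, hsw⟩ := swallow h0.dis hrel hM hc (Ba := Ba) (Ed := Ed) (X := X)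
    (fun p hp => by
      obtain ⟨h1, φ, h2, h3⟩ := hBa p hp
      exact ⟨h1, Or.inl (hq _), φ, h2, h3⟩) (fun p q hpq => by
      obtain ⟨h1, φ, h2, h3, h4⟩ := hEd p q hpq
      exact ⟨h1, Or.inl (hq _), φ, h2, h3, h4⟩)
  refine ⟨D, hD, hDJ, ?_⟩
  intro p₀ q hp₀ hq' e he Q hQ hQM hQD heT hn
  obtain ⟨hqS, hin⟩ := hsw p₀ q hp₀ hq'
  exact h.near2 hw hne heT (not_sigT hrel (hc q hqS) hin he hQ hQM hQD) hn

/-- the classes at the root -/
lemma rel_of_root (hw : TWit E O A B X₀ T₀ w) :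
    ∀ t ∈ T₀, ∀ l, ∀ x ∈ X₀ l, ∀ y ∈ X₀ l, x ∈ O t l → y ∈ O t l → E t x y :=
  fun t ht l x hx y hy hxO hyO => (hw.facts.rel t ht l x hx y hy hxO).2 hyO

end TST
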