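import Pool.Agent.TST.HostDef
import Pool.Agent.CW.A1

/-!
# T-star: the top level

`HostExists k K` (rows A and B) and `LinkPattern k` (row D2, patterns) give T-star.
-/

open Set BIC BICS
open scoped Matroid

namespace TSK

universe u

open Mdl Mdj EN Gad

/-- **Rows A + B**: the strip situation exists, with a wall or with a pattern. -/
def HostOut {α : Type u} (M₀ : Matroid α) (u k₁ e N₀ y₀ c h₀ : ℕ) (g : ℕ → ℕ)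
    (Nn mp t n₁ : ℕ) : Prop :=
  ∃ (M : Matroid α) (V σ : Type) (_ : Finite V) (_ : Finite σ) (H : Host V σ) (N : ℤ)
    (S Sf Q E₂ D₂ : Set α) (ends : α → Sym2 (HV V σ)) (n' : ℕ),
    M ≤m M₀ ∧ y₀ ≤ n' ∧ (N₀ : ℤ) ≤ N ∧ HostD M S Sf Q E₂ D₂ ends H N u k₁ e n' ∧
    (PatOut (M ／ Q) S ends H N Nn mp t n₁ ∨
      ∃ (d : ℤ) (h : ℕ) (Z : Finset (EN.Wall.WV h)) (f f' : HV V σ → Option (WZ Z))
        (U : ℤ → (HV V σ → Option (WZ Z)) → Prop), h₀ ≤ h ∧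
        c * (Nat.card σ + Z.card) ≤ h ^ 2 ∧ WallD (M ／ Q) S ends H N d g Z f f' U)

/-- Rows A and B as one statement.  `u` depends on `k` and `K` only; the number of exceptional
vertices `E₁ k₁` does not depend on the depth. -/
def HostExists (k K : ℕ) : Prop :=
  ∃ (u : ℕ) (E₁ : ℕ → ℕ), ∀ (k₁ N₀ y₀ c h₀ : ℕ) (g : ℕ → ℕ) (Nn mp t n₁ : ℕ), ∃ N₁ : ℕ,
    ∀ n ≥ N₁, ∀ {α : Type u} (M : Matroid α) [M.Finite] (C₁ D₁ C₂ D₂ : Set α),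
    C₁ ⊆ M.E → D₁ ⊆ M.E → C₂ ⊆ M.E → D₂ ⊆ M.E → Disjoint C₁ D₁ → Disjoint C₂ D₂ →
    Disjoint (M.E \ (C₁ ∪ D₁)) (M.E \ (C₂ ∪ D₂)) →
    IsBicircular (M ／ C₁ ＼ D₁) (GPlus n) → IsBicircular (M✶ ／ D₂ ＼ C₂) (GPlus n) →
    ((C₁ ∩ D₂).ncard ≤ K * n ^ 4 ∨ (D₁ ∩ C₂).ncard ≤ K * n ^ 4) →
    KGe M (M.E \ (C₁ ∪ D₁)) (M.E \ (C₂ ∪ D₂)) N₁ → HasUniformMinor M k ∨
      HostOut M u k₁ (E₁ k₁) N₀ y₀ c h₀ g Nn mp t n₁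

/-- **Row D2, patterns.** -/
def LinkPattern (k u : ℕ) : Prop :=
  ∃ k₁ : ℕ, ∀ e : ℕ, ∃ N₀ Nn mp t n₁ y₀ : ℕ, ∀ {α : Type u} {V σ : Type}
    [Finite V] [Finite σ] (M : Matroid α) [M.Finite] (S Sf Q E₂ D₂ : Set α)
    (ends : α → Sym2 (HV V σ)) (H : Host V σ) (N : ℤ) (n' : ℕ),
    HostD M S Sf Q E₂ D₂ ends H N u k₁ e n' → (N₀ : ℤ) ≤ N → y₀ ≤ n' →
    PatOut (M ／ Q) S ends H N Nn mp t n₁ → HasUniformMinor M k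

/-- The statement T-star for `k` and `K`. -/
def TStar (k K : ℕ) : Prop :=
  ∃ N₁ : ℕ, ∀ n ≥ N₁, ∀ {α : Type u} (M : Matroid α)
    [M.Finite] (C₁ D₁ C₂ D₂ : Set α),
    C₁ ⊆ M.E → D₁ ⊆ M.E → C₂ ⊆ M.E → D₂ ⊆ M.E → Disjoint C₁ D₁ → Disjoint C₂ D₂ →
    Disjoint (M.E \ (C₁ ∪ D₁)) (M.E \ (C₂ ∪ D₂)) →
    IsBicircular (M ／ C₁ ＼ D₁) (GPlus n) → IsBicircular (M✶ ／ D₂ ＼ C₂) (GPlus n) →
    ((C₁ ∩ D₂).ncard ≤ K * n ^ 4 ∨ (D₁ ∩ C₂).ncard ≤ K * n ^ 4) →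
    KGe M (M.E \ (C₁ ∪ D₁)) (M.E \ (C₂ ∪ D₂)) N₁ → HasUniformMinor M k

/-- **T-star** from its rows. -/
theorem tstar {k K : ℕ} (hH : HostExists.{u} k K) (hL : ∀ u', LinkPattern.{u} k u') :
    TStar.{u} k K := by
  obtain ⟨u, E₁, hH⟩ := hH
  obtain ⟨k₁, hL⟩ := hL u
  obtain ⟨k₂, hF⟩ := linkFloat.{u} k u
  obtain ⟨N₀, Nn, mp, t, n₁, y₀, hL⟩ := hL (E₁ (max k₁ k₂))
  obtain ⟨w, y₁, hF⟩ := hF (E₁ (max k₁ k₂))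
  obtain ⟨c, h₀, g, hP⟩ := patternExists0.{u} Nn mp t n₁ 1 w
  obtain ⟨N₁, hN⟩ := hH (max k₁ k₂) N₀ (max y₀ y₁) c h₀ g Nn mp t n₁
  refine ⟨N₁, ?_⟩
  intro n hn α M _ C₁ D₁ C₂ D₂ b1 b2 b3 b4 b5 b6 b7 b8 b9 b10 b11
  rcases hN n hn M C₁ D₁ C₂ D₂ b1 b2 b3 b4 b5 b6 b7 b8 b9 b10 b11 with h | h
  · exact h
  · obtain ⟨M₁, V, σ, _, _, H, N, S, Sf, Q, E₂, D₂, ends, n', hM, a1, a2, hD, hW⟩ := h
    have fM : M₁.Finite := ⟨M.ground_finite.subset hM.subset⟩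
    have fQ : (M₁ ／ Q).Finite := ⟨fM.ground_finite.subset sdiff_subset⟩
    have key : PatOut (M₁ ／ Q) S ends H N Nn mp t n₁ ∨
        ∃ (h : ℕ) (Z : Finset (EN.Wall.WV h)), FloatOut (M₁ ／ Q) S Sf ends H N Z 1 w := by
      rcases hW with h | ⟨d, h, Z, f, f', U, a3, a4, hW⟩
      · exact Or.inl h
      · rcases hP (M₁ ／ Q) S Sf ends H N d h Z f f' U hD.sub hD.frm hD.gd hD.emb hD.col a3 a4 hW
          with h1 | h1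
        · exact Or.inl h1
        · exact Or.inr ⟨h, Z, h1⟩
    rcases key with h1 | ⟨h, Z, h1⟩
    · exact HasUniformMinor_mono (hL M₁ S Sf Q E₂ D₂ ends H N n' (hD.mono (le_max_left _ _))
        a2 ((le_max_left _ _).trans a1) h1) hM
    · exact HasUniformMinor_mono (hF M₁ S Sf Q E₂ D₂ ends H N n' Z (hD.mono (le_max_right _ _))
        ((le_max_right _ _).trans a1) h1) hM

end TSK
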