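import Pool.Agent.TST.DdStar74
import Pool.Agent.Helper74.DST.V2

/-!
# Theorem DD with T-star, in terms of the graph `G_n^+` (helper74)
-/

set_option autoImplicit false

open Set BIC
open scoped Matroid

namespace BICS

universe u

open DST WPP

/-- The first kind of conflicts: two splitting classes and a class of bounded rank or corank. -/
theorem topDdStar_of {k K : ℕ} (hD : DdStarStmt.{u} k K) : ∃ N : ℕ, ∀ n ≥ N,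
    ∀ {α : Type u} (M : Matroid α) [M.Finite] (C₁ D₁ C₂ D₂ F G H : Set α),
    C₁ ⊆ M.E → D₂ ⊆ M.E → Disjoint (M.E \ (C₁ ∪ D₁)) (M.E \ (C₂ ∪ D₂)) →
    IsBicircular (M ／ C₁ ＼ D₁) (GPlus n) → IsBicircular (M✶ ／ D₂ ＼ C₂) (GPlus n) →
    C₁ ∩ D₂ ⊆ F ∪ G ∪ H →
    N * rk (M ／ (C₁ \ F)) (M.E \ (C₁ ∪ D₁)) ≤ N * rk (M ／ C₁) (M.E \ (C₁ ∪ D₁)) + n ^ 2 →
    N * rk (M✶ ／ (D₂ \ G)) (M.E \ (C₂ ∪ D₂)) ≤ N * rk (M✶ ／ D₂) (M.E \ (C₂ ∪ D₂)) + n ^ 2 →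
    (rk M (C₁ ∩ D₂ ∩ H) ≤ K * n ^ 4 ∨ rk M✶ (C₁ ∩ D₂ ∩ H) ≤ K * n ^ 4) →
    KGe M (M.E \ (C₁ ∪ D₁)) (M.E \ (C₂ ∪ D₂)) N → HasUniformMinor M k := by
  obtain ⟨n₀, h₀⟩ := hD
  refine ⟨4 * n₀ + 2, ?_⟩
  intro n hn α M _ C₁ D₁ C₂ D₂ F G H hC₁ hD₂ hdis hb₁ hb₂ hFG hdef₁ hdef₂ hH hK
  obtain ⟨S₁, e₁, hS₁, hB₁, hG₁, -, hk₁⟩ := split1 (by omega) hC₁ hb₁
  obtain ⟨S₂, e₂, hS₂, hB₂, hG₂, -, hk₂⟩ := split1 (M := M✶) (by omega) hD₂ hb₂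
  rw [Matroid.dual_ground, union_comm D₂ C₂] at hS₂ hk₂
  have hE₁ : M.E \ (C₁ ∪ D₁) ⊆ M.E := sdiff_subset
  have hE₂ : M.E \ (C₂ ∪ D₂) ⊆ M.E := sdiff_subset
  have k1 : KGe M S₁ (M.E \ (C₂ ∪ D₂)) (2 * n₀) := by
    refine hk₁ _ _ hdis ?_
    intro X h1 h2
    have := hK X h1 h2
    omega
  have k2 : KGe M✶ S₂ S₁ n₀ := by
    refine hk₂ _ _ (hdis.symm.mono_right hS₁) ?_
    exact k1.dual (hS₁.trans hE₁)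
  have k3 : KGe M S₁ S₂ n₀ := by
    have := k2.dual (M := M✶) (hS₂.trans hE₂)
    rwa [Matroid.dual_dual] at this
  have num : ∀ a b c d N' : ℕ, n₀ ≤ N' → N' * a ≤ N' * b + n ^ 2 → (∀ q, a ≤ b + q → c ≤ d + q) →
      n₀ * c ≤ n₀ * d + n ^ 2 := by
    intro a b c d N' hN' h1 h2
    have h3 := h2 (a - b) (by omega)
    have h4 : n₀ * (a - b) ≤ n ^ 2 := by
      refine (Nat.mul_le_mul_right _ hN').trans ?_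
      rw [Nat.mul_sub]
      omega
    have h5 := Nat.mul_le_mul_left n₀ h3
    rw [Nat.mul_add] at h5
    omega
  refine h₀ n (by omega) M S₁ S₂ C₁ D₂ F G H e₁ e₂ 0 0 0 0 (hS₁.trans hE₁) (hS₂.trans hE₂)
    (hdis.mono hS₁ hS₂) ?_ ?_ hB₁ hG₁ hB₂ hG₂ hFG ?_ ?_ hH k3
  · exact fun c hc => ⟨hC₁ hc, fun h => (hS₁ h).2 (Or.inl hc)⟩
  · exact fun d hd => ⟨hD₂ hd, fun h => (hS₂ h).2 (Or.inr hd)⟩
  · exact num _ _ _ _ _ (by omega) hdef₁ fun q hq =>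
      defect_mono hC₁ sdiff_subset (fun x hx => ⟨hx.1, fun h => hx.2 (Or.inl h)⟩) hS₁ hq
  · exact num _ _ _ _ _ (by omega) hdef₂ fun q hq => defect_mono (M := M✶) (by exact hD₂)
      sdiff_subset (fun x hx => ⟨hx.1, fun h => hx.2 (Or.inr h)⟩) hS₂ hq

/-- **Item (A)**, in the language of the problem. -/
theorem few_conflictsA (k K : ℕ) (hT : 1 ≤ k → ∀ K' : ℕ, TSK.TStarD.{u} k K') :
    ∃ N : ℕ, ∀ n ≥ N, ∀ (α : Type u) (M : Matroid α), M.Finite → ∀ C₁ D₁ C₂ D₂ : Set α,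
    C₁ ⊆ M.E → D₁ ⊆ M.E → C₂ ⊆ M.E → D₂ ⊆ M.E → Disjoint C₁ D₁ → Disjoint C₂ D₂ →
    Disjoint (M ／ C₁ ＼ D₁).E (M ／ C₂ ＼ D₂).E →
    IsBicircular (M ／ C₁ ＼ D₁) (GPlus n) →
    IsBicircular (M ／ C₂ ＼ D₂)✶ (GPlus n) →
    (∀ X : Set α, (M ／ C₁ ＼ D₁).E ⊆ X → X ⊆ M.E \ (M ／ C₂ ＼ D₂).E →
      (N : ℕ∞) + M.eRk M.E ≤ M.eRk X + M.eRk (M.E \ X)) →
    (∃ F G H : Set α, C₁ ∩ D₂ = F ∪ G ∪ H ∧ (M.eRk H ≤ K * n ^ 4 ∨ M✶.eRk H ≤ K * n ^ 4) ∧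
      N * (M ／ (C₁ \ F)).eRk (M ／ C₁ ＼ D₁).E ≤ N * (M ／ C₁).eRk (M ／ C₁ ＼ D₁).E + n ^ 2 ∧
      N * (M✶ ／ (D₂ \ G)).eRk (M ／ C₂ ＼ D₂).E ≤
        N * (M✶ ／ D₂).eRk (M ／ C₂ ＼ D₂).E + n ^ 2) →
    ∃ U : Matroid α, U ≤m M ∧ U.E.ncard = 2 * k ∧ ∀ B, U.IsBase B ↔ B ⊆ U.E ∧ B.ncard = k := by
  obtain ⟨N, h₁⟩ := topDdStar_of.{u} (ddStar k K hT)
  refine ⟨N, ?_⟩
  intro n hn α M hM C₁ D₁ C₂ D₂ hC₁ hD₁ hC₂ hD₂ hCD₁ hCD₂ hdis hb₁ hb₂ hκ hdef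
  have g₁ : (M ／ C₁ ＼ D₁).E = M.E \ (C₁ ∪ D₁) := by
    rw [Matroid.delete_ground, Matroid.contract_ground, sdiff_sdiff]
  have g₂ : (M ／ C₂ ＼ D₂).E = M.E \ (C₂ ∪ D₂) := by
    rw [Matroid.delete_ground, Matroid.contract_ground, sdiff_sdiff]
  have hd : (M ／ C₂ ＼ D₂)✶ = M✶ ／ D₂ ＼ C₂ := by
    rw [Matroid.dual_delete, Matroid.dual_contract, Matroid.contract_delete_comm _ hCD₂.symm]
  rw [g₁, g₂] at hdis hκ hdef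
  rw [hd] at hb₂
  have hK : KGe M (M.E \ (C₁ ∪ D₁)) (M.E \ (C₂ ∪ D₂)) N := by
    intro X h1 h2
    have h3 := hκ X h1 h2
    rw [← cast_rk, ← cast_rk, ← cast_rk] at h3
    exact_mod_cast h3
  obtain ⟨F, G, H, hFG, hH, hdef₁, hdef₂⟩ := hdef
  have f1 : (M ／ (C₁ \ F)).Finite := ⟨M.ground_finite.subset sdiff_subset⟩
  have f2 : (M ／ C₁).Finite := ⟨M.ground_finite.subset sdiff_subset⟩
  have f3 : (M✶ ／ (D₂ \ G)).Finite := ⟨M✶.ground_finite.subset sdiff_subset⟩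
  have f4 : (M✶ ／ D₂).Finite := ⟨M✶.ground_finite.subset sdiff_subset⟩
  have hHe : C₁ ∩ D₂ ∩ H = H := by
    rw [hFG]
    exact inter_eq_right.2 subset_union_right
  refine h₁ n hn M C₁ D₁ C₂ D₂ F G H hC₁ hD₂ hdis hb₁ hb₂ hFG.subset ?_ ?_ ?_ hK
  · rw [← cast_rk, ← cast_rk] at hdef₁
    exact_mod_cast hdef₁
  · rw [← cast_rk, ← cast_rk] at hdef₂
    exact_mod_cast hdef₂
  · rw [hHe]
    rcases hH with h | h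
    · left
      rw [← cast_rk] at h
      exact_mod_cast h
    · right
      rw [← cast_rk] at h
      exact_mod_cast h

end BICS
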