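import Pool.Agent.TST.FinalR
import Pool.Agent.TST.TopStar74

/-!
# The final statement for MP_5165fa_co in rank form, from T-star for plain grids (helper34)
-/

set_option autoImplicit false

open Set BIC BICS
open scoped Matroid

namespace TSK

universe u

/-- Item (A), from T-star (`ddStar` of helper74). -/
theorem topAR {k K : ℕ} (hT : ∀ K : ℕ, TStarD.{u} k K) : TopAR.{u} k K := by
  obtain ⟨N, h⟩ := topDdStar_of.{u} (ddStar k K fun _ K' => hT K')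
  refine ⟨N, ?_⟩
  intro n hn α M _ C₁ D₁ C₂ D₂ F G H hC₁ hD₂ hdis hb₁ hb₂ hFG hd₁ hd₂ hH hK
  refine h n hn M C₁ D₁ C₂ D₂ F G H hC₁ hD₂ hdis hb₁ hb₂ hFG hd₁ hd₂ ?_ hK
  rcases hH with hH | hH
  · exact Or.inl ((rk_mono M inter_subset_right).trans hH)
  · exact Or.inr ((rk_mono M✶ inter_subset_right).trans hH)

/-- **The conflicts of one kind have small rank or corank**, from T-star. -/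
theorem few_conflicts_rank_of (hT : ∀ k K : ℕ, 1 ≤ k → TStarD.{u} k K) (k K : ℕ) :
    ∃ N : ℕ, ∀ n ≥ N, ∀ (α : Type u) (M : Matroid α), M.Finite → ∀ C₁ D₁ C₂ D₂ : Set α,
    C₁ ⊆ M.E → D₁ ⊆ M.E → C₂ ⊆ M.E → D₂ ⊆ M.E → Disjoint C₁ D₁ → Disjoint C₂ D₂ →
    Disjoint (M ／ C₁ ＼ D₁).E (M ／ C₂ ＼ D₂).E →
    IsBicircular (M ／ C₁ ＼ D₁) (GPlus n) →
    IsBicircular (M ／ C₂ ＼ D₂)✶ (GPlus n) →
    (∀ X : Set α, (M ／ C₁ ＼ D₁).E ⊆ X → X ⊆ M.E \ (M ／ C₂ ＼ D₂).E →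
      (N : ℕ∞) + M.eRk M.E ≤ M.eRk X + M.eRk (M.E \ X)) →
    (∃ F G H : Set α, C₁ ∩ D₂ = F ∪ G ∪ H ∧
        (M.eRk H ≤ K * n ^ 4 ∨ M✶.eRk H ≤ K * n ^ 4) ∧
        N * (M ／ (C₁ \ F)).eRk (M ／ C₁ ＼ D₁).E ≤ N * (M ／ C₁).eRk (M ／ C₁ ＼ D₁).E + n ^ 2 ∧
        N * (M✶ ／ (D₂ \ G)).eRk (M ／ C₂ ＼ D₂).E ≤
          N * (M✶ ／ D₂).eRk (M ／ C₂ ＼ D₂).E + n ^ 2) ∨
      (∃ (F G H : Set α) (q : ℕ), D₁ ∩ C₂ = F ∪ G ∪ H ∧ N * (q + 1) ≤ n ∧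
        ((q + 1) ^ 2 * M.eRk H ≤ K * n ^ 4 ∨ (q + 1) ^ 2 * M✶.eRk H ≤ K * n ^ 4) ∧
        (M ／ C₁).eRk (M ／ C₁ ＼ D₁).E ≤ (M ／ (C₁ ∪ F)).eRk (M ／ C₁ ＼ D₁).E + q ∧
        (M✶ ／ D₂).eRk (M ／ C₂ ＼ D₂).E ≤ (M✶ ／ (D₂ ∪ G)).eRk (M ／ C₂ ＼ D₂).E + q) →
    ∃ U : Matroid α, U ≤m M ∧ U.E.ncard = 2 * k ∧ ∀ B, U.IsBase B ↔ B ⊆ U.E ∧ B.ncard = k :=
  few_conflicts_rank hT (fun k _ hk => topAR fun K => hT k K hk) k K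

end TSK
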