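import Pool.Agent.TST.LinkPattern
import Pool.Agent.CW.A1D

/-!
# T-star for plain grids

`HostExistsD`: rows A and B for the data `Dat` of two plain grids; `TStarD` follows.
-/

open Set BIC BICS
open scoped Matroid

namespace TSK

universe u

open Mdl Mdj EN Gad

/-- Rows A and B as one statement, for plain grids. -/
def HostExistsD (k K : ℕ) : Prop :=
  ∃ (u : ℕ) (E₁ : ℕ → ℕ), ∀ (k₁ N₀ y₀ c h₀ : ℕ) (g : ℕ → ℕ) (Nn mp t n₁ : ℕ), ∃ N₁ : ℕ,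
    ∀ n ≥ N₁, ∀ {α : Type u} (M : Matroid α) [M.Finite] (S₁ S₂ C₁ D₂ : Set α)
    (g₁ g₂ : α → Sym2 (ℕ × ℕ)), CWL.Dat M S₁ S₂ C₁ D₂ g₁ g₂ n →
    ((C₁ ∩ D₂).ncard ≤ K * n ^ 4 ∨ (M.E \ (S₁ ∪ S₂ ∪ C₁ ∪ D₂)).ncard ≤ K * n ^ 4) →
    KGe M S₁ S₂ N₁ → HasUniformMinor M k ∨
      HostOut M u k₁ (E₁ k₁) N₀ y₀ c h₀ g Nn mp t n₁

/-- The statement T-star for plain grids. -/
def TStarD (k K : ℕ) : Prop :=
  ∃ N₁ : ℕ, ∀ n ≥ N₁, ∀ {α : Type u} (M : Matroid α) [M.Finite] (S₁ S₂ C₁ D₂ : Set α)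
    (g₁ g₂ : α → Sym2 (ℕ × ℕ)), CWL.Dat M S₁ S₂ C₁ D₂ g₁ g₂ n →
    ((C₁ ∩ D₂).ncard ≤ K * n ^ 4 ∨ (M.E \ (S₁ ∪ S₂ ∪ C₁ ∪ D₂)).ncard ≤ K * n ^ 4) →
    KGe M S₁ S₂ N₁ → HasUniformMinor M k

/-- From the strip situation to the uniform minor. -/
theorem hostOut_minor (k u : ℕ) (E₁ : ℕ → ℕ) : ∃ (k₁ N₀ y₀ c h₀ : ℕ) (g : ℕ → ℕ)
    (Nn mp t n₁ : ℕ), ∀ {α : Type u} (M : Matroid α) [M.Finite],
    HostOut M u k₁ (E₁ k₁) N₀ y₀ c h₀ g Nn mp t n₁ → HasUniformMinor M k := by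
  obtain ⟨k₁, hL⟩ := linkPattern.{u} k u
  obtain ⟨k₂, hF⟩ := linkFloat.{u} k u
  obtain ⟨N₀, Nn, mp, t, n₁, y₀, hL⟩ := hL (E₁ (max k₁ k₂))
  obtain ⟨w, y₁, hF⟩ := hF (E₁ (max k₁ k₂))
  obtain ⟨c, h₀, g, hP⟩ := patternExists0.{u} Nn mp t n₁ 1 w
  refine ⟨max k₁ k₂, N₀, max y₀ y₁, c, h₀, g, Nn, mp, t, n₁, ?_⟩
  intro α M _ h
  obtain ⟨M₁, V, σ, _, _, H, N, S, Sf, Q, E₂, D₂, ends, n', hM, a1, a2, hD, hW⟩ := h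
  have fM : M₁.Finite := ⟨M.ground_finite.subset hM.subset⟩
  have fQ : (M₁ ／ Q).Finite := ⟨fM.ground_finite.subset sdiff_subset⟩
  have key : PatOut (M₁ ／ Q) S ends H N Nn mp t n₁ ∨
      ∃ (h : ℕ) (Z : Finset (EN.Wall.WV h)), FloatOut (M₁ ／ Q) S Sf ends H N Z 1 w := by
    rcases hW with h | ⟨d, h, Z, f, f', U, a3, a4, hW⟩
    · exact Or.inl h
    · rcases hP (M₁ ／ Q) S Sf ends H N d h Z f f' U hD.sub hD.frm hD.gd hD.emb hD.col a3 a4 hW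
        with h1 | h1
      · exact Or.inl h1
      · exact Or.inr ⟨h, Z, h1⟩
  rcases key with h1 | ⟨h, Z, h1⟩
  · exact HasUniformMinor_mono (hL M₁ S Sf Q E₂ D₂ ends H N n' (hD.mono (le_max_left _ _))
      a2 ((le_max_left _ _).trans a1) h1) hM
  · exact HasUniformMinor_mono (hF M₁ S Sf Q E₂ D₂ ends H N n' Z (hD.mono (le_max_right _ _))
      ((le_max_right _ _).trans a1) h1) hM

/-- **T-star** for plain grids. -/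
theorem tstarD {k K : ℕ} (hH : HostExistsD.{u} k K) : TStarD.{u} k K := by
  obtain ⟨u, E₁, hH⟩ := hH
  obtain ⟨k₁, N₀, y₀, c, h₀, g, Nn, mp, t, n₁, hO⟩ := hostOut_minor.{u} k u E₁
  obtain ⟨N₁, hN⟩ := hH k₁ N₀ y₀ c h₀ g Nn mp t n₁
  refine ⟨N₁, ?_⟩
  intro n hn α M _ S₁ S₂ C₁ D₂ g₁ g₂ hd hc hK
  rcases hN n hn M S₁ S₂ C₁ D₂ g₁ g₂ hd hc hK with h | h
  · exact h
  · exact hO M h

end TSK
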