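import Pool.Agent.TST.ClaimFin
import Pool.Agent.TST.HostEx
import Pool.Agent.TST.LabRowF

/-!
# T-star from the label level and LIFT

`tstarD_all`: T-star for plain grids, from `LabRow` (rows R5, R6) and `LiftRow` (row R8).
`tstarD_of`: from `LabelStmt3` (row R5) and `LiftRow`.  With `few_conflicts_all` it gives the final
statement.
-/

set_option autoImplicit false

open Set BIC BICS
open scoped Matroid

namespace TSH

universe u

/-- **T-star for plain grids.** -/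
theorem tstarD_all (hLab : ∀ β D₀ δ₀ D₁ δ₁ : ℕ, LabRow.{u} β D₀ δ₀ D₁ δ₁)
    (hLift : ∀ k κ : ℕ, 2 ≤ k → ∃ ρ : ℕ, LiftRow.{u} k κ ρ) (k K : ℕ) (_ : 1 ≤ k) :
    TSK.TStarD.{u} k K := by
  refine TSK.tstarD (hostExists_of k K fun l hl κ => ?_)
  obtain ⟨κ', h1, ρ, h2⟩ := claimH_of.{u} l hl hLab (fun κ => hLift l κ hl) κ
  exact ⟨κ', h1, fun ρh => ⟨ρ, h2 ρh⟩⟩

/-- **T-star for plain grids**, from the label level and LIFT. -/
theorem tstarD_of (h3 : TST.LabelStmt3.{u, 0, 0})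
    (hLift : ∀ k κ : ℕ, 2 ≤ k → ∃ ρ : ℕ, LiftRow.{u} k κ ρ) (k K : ℕ) (hk : 1 ≤ k) :
    TSK.TStarD.{u} k K :=
  tstarD_all (labRow h3) hLift k K hk

end TSH
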