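import Pool.Agent.TST.FinalStarD

/-!
# T-star in rank form (helper34)

`TStarD.blocksR`: instead of the number of the elements in conflict of one kind, only their rank in
`M` or in the dual is bounded.  `topDkR_of`: the same for the other kind with the budget `q`.
-/

set_option autoImplicit false

open Set BIC BICS
open scoped Matroid

namespace TSK

universe u

/-- **Extension of the contracted set.**  All elements of `L` but `rk M✶ L` can be contracted without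
change of `M ／ C` on `X`. -/
theorem ext_con {α : Type u} {M : Matroid α} [M.Finite] {C X L : Set α} (hX : X ⊆ M.E)
    (hC : C ⊆ M.E \ X) (hL : L ⊆ M.E \ (C ∪ X)) :
    ∃ X' ⊆ L, (∀ ends : α → Sym2 (ℕ × ℕ), Bic (M ／ C) X ends → Bic (M ／ (C ∪ X')) X ends) ∧
      (L \ X').ncard ≤ rk M✶ L := by
  classical
  have hEf : M.E.Finite := M.ground_finite
  have hLE : L ⊆ M.E := fun z hz => (hL hz).1
  have hLf : L.Finite := hEf.subset hLE
  have hCE : C ⊆ M.E := fun z hz => (hC hz).1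
  obtain ⟨P, hP⟩ : ∃ P : Set α → Prop, ∀ A, P A ↔ A ⊆ L ∧
      rk M (X ∪ C) + rk M (C ∪ A) ≤ rk M (X ∪ (C ∪ A)) + rk M C := ⟨_, fun _ => Iff.rfl⟩
  -- a maximal set
  obtain ⟨A, hA, hmax⟩ : ∃ A, P A ∧ ∀ l ∈ L, l ∉ A → ¬ P (insert l A) := by
    by_contra hcon
    push Not at hcon
    have : ∀ n, ∃ A, P A ∧ n ≤ A.ncard := by
      intro n
      induction n with
      | zero =>
        refine ⟨∅, ?_, Nat.zero_le _⟩
        rw [hP, union_empty]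
        exact ⟨empty_subset _, by omega⟩
      | succ n ih =>
        obtain ⟨A, hA, hn⟩ := ih
        obtain ⟨l, hl, hlA, h⟩ := hcon A hA
        refine ⟨_, h, ?_⟩
        rw [Set.ncard_insert_of_notMem hlA (hLf.subset ((hP A).1 hA).1)]
        omega
    obtain ⟨A, hA, hn⟩ := this (L.ncard + 1)
    have := Set.ncard_le_ncard ((hP A).1 hA).1 hLf
    omega
  rw [hP] at hA
  obtain ⟨hAL, hA⟩ := hA
  have hAE : A ⊆ M.E := hAL.trans hLE
  have hCA : C ∪ A ⊆ M.E := union_subset hCE hAE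
  have hXC : X ⊆ M.E \ C := fun z hz => ⟨hX hz, fun h => (hC h).2 hz⟩
  have hXCA : X ⊆ M.E \ (C ∪ A) := by
    rintro z hz
    refine ⟨hX hz, ?_⟩
    rintro (h | h)
    · exact (hC h).2 hz
    · exact (hL (hAL h)).2 (Or.inr hz)
  refine ⟨A, hAL, ?_, ?_⟩
  · intro ends hB
    have f1 : (M ／ C).Finite := BQ.fin_contract _
    have f2 : (M ／ (C ∪ A)).Finite := BQ.fin_contract _
    refine Bic_of_rk hB hXCA ?_
    intro Y hY
    have e1 := BQ.rk_con (M := M) hCE (hY.trans hXC)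
    have e2 := BQ.rk_con (M := M) hCA (hY.trans hXCA)
    have e3 := rk_submod M (Y ∪ (C ∪ A)) (X ∪ C)
    have e4 := rk_submod M (Y ∪ C) (C ∪ A)
    have e5 : rk M (Y ∪ C) ≤ rk M ((Y ∪ (C ∪ A)) ∩ (X ∪ C)) := by
      refine rk_mono M ?_
      rintro z (hz | hz)
      · exact ⟨Or.inl hz, Or.inl (hY hz)⟩
      · exact ⟨Or.inr (Or.inl hz), Or.inr hz⟩
    have e6 : rk M (X ∪ (C ∪ A)) ≤ rk M ((Y ∪ (C ∪ A)) ∪ (X ∪ C)) := by
      refine rk_mono M ?_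
      rintro z (hz | hz)
      · exact Or.inr (Or.inl hz)
      · exact Or.inl (Or.inr hz)
    have e7 : rk M C ≤ rk M ((Y ∪ C) ∩ (C ∪ A)) :=
      rk_mono M fun z hz => ⟨Or.inr hz, Or.inl hz⟩
    have e8 : rk M (Y ∪ (C ∪ A)) ≤ rk M ((Y ∪ C) ∪ (C ∪ A)) := by
      refine rk_mono M ?_
      rintro z (hz | hz)
      · exact Or.inl (Or.inl hz)
      · exact Or.inr hz
    omega
  · -- the other elements are spanned by `X ∪ C ∪ A`
    obtain ⟨B, hB⟩ : ∃ B, B = L \ A := ⟨_, rfl⟩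
    rw [← hB]
    have hBL : B ⊆ L := by rw [hB]; exact sdiff_subset
    have hBE : B ⊆ M.E := hBL.trans hLE
    obtain ⟨R, hR⟩ : ∃ R, R = X ∪ (C ∪ A) := ⟨_, rfl⟩
    have hRE : R ⊆ M.E \ B := by
      rw [hR]
      rintro z (hz | hz | hz)
      · exact ⟨hX hz, fun h => (hL (hBL h)).2 (Or.inr hz)⟩
      · exact ⟨hCE hz, fun h => (hL (hBL h)).2 (Or.inl hz)⟩
      · refine ⟨hAE hz, fun h => ?_⟩
        rw [hB] at h
        exact h.2 hz
    have hcl : B ⊆ M.closure R := by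
      intro l hl
      by_contra hcon
      have h1 : l ∈ L ∧ l ∉ A := by
        rw [hB] at hl
        exact hl
      have h2 := hmax l h1.1 h1.2
      rw [hP] at h2
      push Not at h2
      have h3 := h2 (insert_subset h1.1 hAL)
      have h4 : rk M (insert l R) = rk M R + 1 := by
        have h5 := M.eRk_insert_eq_add_one (X := R) (e := l) ⟨hLE h1.1, hcon⟩
        rw [← cast_rk, ← cast_rk] at h5
        exact_mod_cast h5
      have h5 : X ∪ (C ∪ insert l A) = insert l R := by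
        rw [hR]
        ext z
        simp only [mem_union, mem_insert_iff]
        tauto
      have h6 : rk M (C ∪ insert l A) ≤ rk M (C ∪ A) + 1 := by
        have h7 := rk_union_le M (X := C ∪ A) (Y := {l}) (finite_singleton l)
        rw [ncard_singleton, union_singleton] at h7
        have h8 : C ∪ insert l A = insert l (C ∪ A) := by
          ext z
          simp only [mem_union, mem_insert_iff]
          tauto
        rw [h8]
        exact h7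
      rw [h5, h4] at h3
      rw [← hR] at hA
      omega
    have h1 := rk_dual hBE
    have h2 : rk M M.E ≤ rk M (M.E \ B) := by
      have h3 : M.E ⊆ M.closure (M.E \ B) := by
        intro z hz
        by_cases hzB : z ∈ B
        · exact M.closure_subset_closure hRE (hcl hzB)
        · exact M.subset_closure _ sdiff_subset ⟨hz, hzB⟩
      have h4 := rk_mono M h3
      rw [rk_closure] at h4
      exact h4
    have h3 : rk M✶ B ≤ rk M✶ L := rk_mono _ hBL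
    omega

/-- **T-star for blocks of plain grids, rank form.** -/
theorem TStarD.blocksR {k K : ℕ} (hT : TStarD.{u} k K) : ∃ N₁ : ℕ, ∀ n ≥ N₁, ∀ {α : Type u}
    (M : Matroid α) [M.Finite] (E₁ E₂ C₁ D₂ : Set α) (e₁ e₂ : α → Sym2 (ℕ × ℕ))
    (x y x' y' : ℕ), E₁ ⊆ M.E → E₂ ⊆ M.E → Disjoint E₁ E₂ → C₁ ⊆ M.E \ E₁ → D₂ ⊆ M.E \ E₂ →
    Bic (M ／ C₁) E₁ e₁ → Grd E₁ e₁ x y n n → Bic (M✶ ／ D₂) E₂ e₂ → Grd E₂ e₂ x' y' n n →
    (rk M (C₁ ∩ D₂) ≤ K * n ^ 4 ∨ rk M✶ (C₁ ∩ D₂) ≤ K * n ^ 4 ∨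
      rk M (M.E \ (E₁ ∪ E₂ ∪ C₁ ∪ D₂)) ≤ K * n ^ 4 ∨
      rk M✶ (M.E \ (E₁ ∪ E₂ ∪ C₁ ∪ D₂)) ≤ K * n ^ 4) →
    KGe M E₁ E₂ N₁ → HasUniformMinor M k := by
  classical
  obtain ⟨N₁, hN⟩ := hT.blocks
  refine ⟨N₁, ?_⟩
  intro n hn α M _ E₁ E₂ C₁ D₂ e₁ e₂ x y x' y' h1 h2 h3 h4 h5 b₁ g₁ b₂ g₂ hc hK
  have hEf : M.E.Finite := M.ground_finite
  have hC₁E : C₁ ⊆ M.E := h4.trans sdiff_subset
  have hD₂E : D₂ ⊆ M.E := h5.trans sdiff_subset
  rcases hc with hc | hc | hc | hc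
  · obtain ⟨C', hC', hCi, hCb, _, _⟩ := basStmt.{u} M C₁ ∅ hC₁E
    refine hN n hn M E₁ E₂ C' D₂ e₁ e₂ x y x' y' h1 h2 h3 (hC'.trans h4) h5 (hCb _ _ b₁) g₁ b₂ g₂
      (Or.inl ?_) hK
    have h6 := rk_indep (hCi.subset (inter_subset_left (t := D₂)))
    have h7 := rk_mono M (inter_subset_inter_left D₂ hC')
    omega
  · obtain ⟨D', hD', hDi, hDb, _, _⟩ := basStmt.{u} M✶ D₂ ∅ hD₂E
    refine hN n hn M E₁ E₂ C₁ D' e₁ e₂ x y x' y' h1 h2 h3 h4 (hD'.trans h5) b₁ g₁ (hDb _ _ b₂) g₂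
      (Or.inl ?_) hK
    have h6 := rk_indep (hDi.subset (inter_subset_right (s := C₁)))
    have h7 := rk_mono M✶ (inter_subset_inter_right C₁ hD')
    omega
  · -- more elements are deleted for the second minor
    obtain ⟨A, hA, hAb, hAc⟩ := ext_con (M := M✶) (C := D₂) (X := E₂)
      (L := M.E \ (E₁ ∪ E₂ ∪ C₁ ∪ D₂)) h2 h5 (fun z hz => ⟨hz.1, fun h => hz.2 (by
        rcases h with h | h
        · exact Or.inr h
        · exact Or.inl (Or.inl (Or.inr h)))⟩)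
    rw [Matroid.dual_dual] at hAc
    refine hN n hn M E₁ E₂ C₁ (D₂ ∪ A) e₁ e₂ x y x' y' h1 h2 h3 h4 ?_ b₁ g₁ (hAb _ b₂) g₂
      (Or.inr ?_) hK
    · rintro z (hz | hz)
      · exact h5 hz
      · exact ⟨(hA hz).1, fun h => (hA hz).2 (Or.inl (Or.inl (Or.inr h)))⟩
    · have h6 : M.E \ (E₁ ∪ E₂ ∪ C₁ ∪ (D₂ ∪ A)) = (M.E \ (E₁ ∪ E₂ ∪ C₁ ∪ D₂)) \ A := by
        ext z
        simp only [mem_sdiff, mem_union]
        tauto
      rw [h6]
      omega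
  · -- more elements are contracted for the first minor
    obtain ⟨A, hA, hAb, hAc⟩ := ext_con (M := M) (C := C₁) (X := E₁)
      (L := M.E \ (E₁ ∪ E₂ ∪ C₁ ∪ D₂)) h1 h4 (fun z hz => ⟨hz.1, fun h => hz.2 (by
        rcases h with h | h
        · exact Or.inl (Or.inr h)
        · exact Or.inl (Or.inl (Or.inl h)))⟩)
    refine hN n hn M E₁ E₂ (C₁ ∪ A) D₂ e₁ e₂ x y x' y' h1 h2 h3 ?_ h5 (hAb _ b₁) g₁ b₂ g₂
      (Or.inr ?_) hK
    · rintro z (hz | hz)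
      · exact h4 hz
      · exact ⟨(hA hz).1, fun h => (hA hz).2 (Or.inl (Or.inl (Or.inl h)))⟩
    · have h6 : M.E \ (E₁ ∪ E₂ ∪ (C₁ ∪ A) ∪ D₂) = (M.E \ (E₁ ∪ E₂ ∪ C₁ ∪ D₂)) \ A := by
        ext z
        simp only [mem_sdiff, mem_union]
        tauto
      rw [h6]
      omega

open BICS.WPP BICS.DST in
/-- The other kind of conflicting elements, with a trade-off, any constant, rank form. -/
theorem topDkR_of {k K : ℕ} (hD : TStarD.{u} k (64 * K + 1)) : ∃ N : ℕ, ∀ n ≥ N,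
    ∀ {α : Type u} (M : Matroid α) [M.Finite] (C₁ D₁ C₂ D₂ F G H : Set α) (q : ℕ),
    C₁ ⊆ M.E → D₁ ⊆ M.E → C₂ ⊆ M.E → D₂ ⊆ M.E → Disjoint (M.E \ (C₁ ∪ D₁)) (M.E \ (C₂ ∪ D₂)) →
    IsBicircular (M ／ C₁ ＼ D₁) (GPlus n) → IsBicircular (M✶ ／ D₂ ＼ C₂) (GPlus n) →
    D₁ ∩ C₂ = F ∪ G ∪ H →
    rk (M ／ C₁) (M.E \ (C₁ ∪ D₁)) ≤ rk (M ／ (C₁ ∪ F)) (M.E \ (C₁ ∪ D₁)) + q →
    rk (M✶ ／ D₂) (M.E \ (C₂ ∪ D₂)) ≤ rk (M✶ ／ (D₂ ∪ G)) (M.E \ (C₂ ∪ D₂)) + q →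
    N * (q + 1) ≤ n → ((q + 1) ^ 2 * rk M H ≤ K * n ^ 4 ∨ (q + 1) ^ 2 * rk M✶ H ≤ K * n ^ 4) →
    KGe M (M.E \ (C₁ ∪ D₁)) (M.E \ (C₂ ∪ D₂)) N → HasUniformMinor M k := by
  obtain ⟨n₀, h₀⟩ := hD.blocksR
  set t2 := n₀ with ht2
  set t1 := t2 + 32 * (t2 + 1) ^ 2 + 1 with ht1
  set T := t1 + 32 * (t1 + 1) ^ 2 + 1 with hT
  set N := 128 * n₀ + 32 * n₀ + 4 * T + 8 * (n₀ + 4 * (t1 + t2 + 2) + 2) + 32 with hN
  refine ⟨N, ?_⟩
  intro n hn α M _ C₁ D₁ C₂ D₂ F G H q hC₁ hD₁ hC₂ hD₂ hdis hb₁ hb₂ hFGH hdef₁ hdef₂ hqn hH hK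
  have hn2 : 2 ≤ n := by omega
  obtain ⟨S₁, e₁, hS₁, hB₁, hG₁, hc₁, hk₁⟩ := split1 hn2 hC₁ hb₁
  obtain ⟨S₂, e₂, hS₂, hB₂, hG₂, hc₂, hk₂⟩ := split1 (M := M✶) hn2 hD₂ hb₂
  rw [Matroid.dual_ground, union_comm D₂ C₂] at hS₂ hk₂ hc₂
  have hE₁ : M.E \ (C₁ ∪ D₁) ⊆ M.E := sdiff_subset
  have hE₂ : M.E \ (C₂ ∪ D₂) ⊆ M.E := sdiff_subset
  have hS₁E : S₁ ⊆ M.E := hS₁.trans hE₁
  have hS₂E : S₂ ⊆ M.E := hS₂.trans hE₂
  have hFD : F ⊆ D₁ ∩ C₂ := by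
    rw [hFGH]; exact subset_union_left.trans subset_union_left
  have hGD : G ⊆ D₁ ∩ C₂ := by
    rw [hFGH]; exact subset_union_right.trans subset_union_left
  have hHD : H ⊆ D₁ ∩ C₂ := by
    rw [hFGH]; exact subset_union_right
  have hFE : F ⊆ M.E := fun z hz => hD₁ (hFD hz).1
  have hGE : G ⊆ M.E := fun z hz => hD₁ (hGD hz).1
  have k1 : KGe M S₁ (M.E \ (C₂ ∪ D₂)) (2 * T) := by
    refine hk₁ _ _ hdis ?_
    intro X h1 h2
    have := hK X h1 h2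
    omega
  have k2 : KGe M✶ S₂ S₁ T := by
    refine hk₂ _ _ (hdis.symm.mono_right hS₁) ?_
    exact k1.dual (hS₁.trans hE₁)
  have k3 : KGe M S₁ S₂ T := by
    have := k2.dual (M := M✶) (hS₂.trans hE₂)
    rwa [Matroid.dual_dual] at this
  have hSd : Disjoint S₁ S₂ := hdis.mono hS₁ hS₂
  have fC : ∀ B : Set α, (M ／ B).Finite := fun B => BQ.fin_contract B
  have fD : ∀ B : Set α, (M✶ ／ B).Finite := fun B => BQ.fin_contract B
  have dS₁ : S₁ ⊆ M.E \ (C₁ ∪ F) := fun z hz =>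
    ⟨hS₁E hz, fun h => (hS₁ hz).2 (h.imp id fun h => (hFD h).1)⟩
  have dS₂ : S₂ ⊆ M✶.E \ (D₂ ∪ G) := fun z hz =>
    ⟨hS₂E hz, fun h => (hS₂ hz).2 (h.elim Or.inr fun h => Or.inl (hGD h).2)⟩
  have hdS₁ : rk (M ／ C₁) S₁ ≤ rk (M ／ (C₁ ∪ F)) S₁ + q := by
    have := quo_mono (M := M) (A := C₁) (B := C₁ ∪ F) (E := M.E \ (C₁ ∪ D₁)) subset_union_left
      (union_subset hC₁ hFE)
      (fun z hz => ⟨hz.1, fun h => hz.2 (h.imp id fun h => (hFD h).1)⟩) S₁ _ hS₁ (Subset.refl _)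
    omega
  have hdS₂ : rk (M✶ ／ D₂) S₂ ≤ rk (M✶ ／ (D₂ ∪ G)) S₂ + q := by
    have := quo_mono (M := M✶) (A := D₂) (B := D₂ ∪ G) (E := M.E \ (C₂ ∪ D₂)) subset_union_left
      (union_subset hD₂ hGE)
      (fun z hz => ⟨hz.1, fun h => hz.2 (h.elim Or.inr fun h => Or.inl (hGD h).2)⟩)
      S₂ _ hS₂ (Subset.refl _)
    omega
  -- the number of blocks
  set b := Nat.sqrt q + 1 with hb
  have hb1 : q < b * b := Nat.sqrt_lt.1 (Nat.lt_succ_self _)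
  have hb2 : b * b ≤ 2 * (q + 1) := by
    have h1 : Nat.sqrt q * Nat.sqrt q ≤ q := Nat.sqrt_le q
    rw [hb]
    nlinarith [sq_nonneg ((Nat.sqrt q : ℤ) - 1)]
  have hbq : b ≤ q + 1 := by
    rw [hb]
    exact Nat.succ_le_succ (Nat.sqrt_le_self q)
  have hbn : N * b ≤ n := (Nat.mul_le_mul_left _ hbq).trans hqn
  have hb0 : 0 < b := Nat.succ_pos _
  set m := n / b with hm
  have hm1 : b * m ≤ n := Nat.mul_div_le n b
  have hm2 : n < b * (m + 1) := Nat.lt_mul_div_succ n hb0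
  have hNm : N ≤ m := by
    rw [hm, Nat.le_div_iff_mul_le hb0]
    exact hbn
  have hnA : n ≤ 2 * b * m := by
    have h1 : b * (m + 1) ≤ 2 * b * m := by
      have : m + 1 ≤ 2 * m := by omega
      calc b * (m + 1) ≤ b * (2 * m) := Nat.mul_le_mul_left _ this
        _ = 2 * b * m := by ring
    omega
  obtain ⟨a₁, a₁', hr₁, hBX⟩ := exact_block2 hC₁ hFE dS₁ hB₁ hdS₁ hb1 hm1
  obtain ⟨a₂, a₂', hr₂, hBY⟩ := exact_block2 (M := M✶) (by exact hD₂) (by exact hGE) dS₂ hB₂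
    hdS₂ hb1 hm1
  set X := blk S₁ e₁ a₁ a₁' m with hX
  set Y := blk S₂ e₂ a₂ a₂' m with hY
  have hXS : X ⊆ S₁ := blk_sub
  have hYS : Y ⊆ S₂ := blk_sub
  have c1 : KGe M X S₂ (t1 + 1) := BQ.kge_blk (C := C₁)
    (fun z hz => ⟨hC₁ hz, fun h => (dS₁ h).2 (Or.inl hz)⟩) hS₁E hSd hB₁ hG₁ hr₁ (by omega) k3
  have c2 : KGe M✶ Y X (t2 + 1) := BQ.kge_blk (M := M✶) (C := D₂)
    (fun z hz => ⟨hD₂ hz, fun h => (dS₂ h).2 (Or.inl hz)⟩) (by exact hS₂E)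
    (hSd.symm.mono_right hXS) hB₂ hG₂ hr₂ (by omega)
    (BQ.KGe.mono_n (c1.dual (hXS.trans hS₁E)) (by omega))
  have c3 : KGe M X Y n₀ := by
    have := c2.dual (M := M✶) (hYS.trans hS₂E)
    rw [Matroid.dual_dual] at this
    exact BQ.KGe.mono_n this (by omega)
  refine h₀ m (by omega) M X Y (C₁ ∪ F) (D₂ ∪ G) e₁ e₂ a₁ a₁' a₂ a₂' (hXS.trans hS₁E)
    (hYS.trans hS₂E) (hSd.mono hXS hYS) ?_ ?_ hBX (Grd_sub hG₁ hr₁) hBY (Grd_sub hG₂ hr₂) ?_ c3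
  · exact fun z hz => ⟨(union_subset hC₁ hFE) hz, fun h => (dS₁ (hXS h)).2 hz⟩
  · exact fun z hz => ⟨(union_subset hD₂ hGE) hz, fun h => (dS₂ (hYS h)).2 hz⟩
  · have hfin : M.E.Finite := M.ground_finite
    have g1 := grd_ncard_le hG₁
    have g2 := grd_ncard_le hG₂
    obtain ⟨R, hR⟩ : ∃ R, R = S₁ ∪ ((M.E \ (C₁ ∪ D₁)) \ S₁) ∪ S₂ ∪ ((M.E \ (C₂ ∪ D₂)) \ S₂) :=
      ⟨_, rfl⟩
    have hRE : R ⊆ M.E := by
      rw [hR]
      rintro e (((h | h) | h) | h)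
      · exact hS₁E h
      · exact h.1.1
      · exact hS₂E h
      · exact h.1.1
    have hRf : R.Finite := hfin.subset hRE
    have hRc : R.ncard ≤ 8 * (n * n) := by
      have h1 : R.ncard ≤ S₁.ncard + ((M.E \ (C₁ ∪ D₁)) \ S₁).ncard + S₂.ncard +
          ((M.E \ (C₂ ∪ D₂)) \ S₂).ncard := by
        rw [hR]
        refine (Set.ncard_union_le _ _).trans (Nat.add_le_add_right ?_ _)
        refine (Set.ncard_union_le _ _).trans (Nat.add_le_add_right ?_ _)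
        exact Set.ncard_union_le _ _
      have : 1 ≤ n * n := Nat.mul_pos (by omega) (by omega)
      omega
    have hsub : M.E \ (X ∪ Y ∪ (C₁ ∪ F) ∪ (D₂ ∪ G)) ⊆ H ∪ R := by
      rw [hR]
      rintro e ⟨he, h2⟩
      have n1 : e ∉ C₁ := fun h => h2 (Or.inl (Or.inr (Or.inl h)))
      have n2 : e ∉ F := fun h => h2 (Or.inl (Or.inr (Or.inr h)))
      have n3 : e ∉ D₂ := fun h => h2 (Or.inr (Or.inl h))
      have n4 : e ∉ G := fun h => h2 (Or.inr (Or.inr h))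
      by_cases s1 : e ∈ S₁
      · exact Or.inr (Or.inl (Or.inl (Or.inl s1)))
      by_cases s2 : e ∈ S₂
      · exact Or.inr (Or.inl (Or.inr s2))
      by_cases hd1 : e ∈ D₁
      · by_cases hc2 : e ∈ C₂
        · have : e ∈ F ∪ G ∪ H := by rw [← hFGH]; exact ⟨hd1, hc2⟩
          rcases this with (h | h) | h
          · exact absurd h n2
          · exact absurd h n4
          · exact Or.inl h
        · exact Or.inr (Or.inr ⟨⟨he, fun h => h.elim hc2 n3⟩, s2⟩)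
      · exact Or.inr (Or.inl (Or.inl (Or.inr ⟨⟨he, fun h => h.elim n1 hd1⟩, s1⟩)))
    have hb4 : b ^ 4 ≤ 4 * (q + 1) ^ 2 := by
      have := Nat.mul_le_mul hb2 hb2
      calc b ^ 4 = b * b * (b * b) := by ring
        _ ≤ 2 * (q + 1) * (2 * (q + 1)) := this
        _ = 4 * (q + 1) ^ 2 := by ring
    have hn4 : n ^ 4 ≤ 64 * (q + 1) ^ 2 * m ^ 4 := by
      calc n ^ 4 ≤ (2 * b * m) ^ 4 := Nat.pow_le_pow_left hnA 4
        _ = 16 * b ^ 4 * m ^ 4 := by ring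
        _ ≤ 16 * (4 * (q + 1) ^ 2) * m ^ 4 :=
          Nat.mul_le_mul_right _ (Nat.mul_le_mul_left _ hb4)
        _ = 64 * (q + 1) ^ 2 * m ^ 4 := by ring
    have h3 : ∀ c : ℕ, (q + 1) ^ 2 * c ≤ K * n ^ 4 → c ≤ 64 * K * m ^ 4 := by
      intro c hc
      have h4 : (q + 1) ^ 2 * c ≤ (q + 1) ^ 2 * (64 * K * m ^ 4) := by
        calc (q + 1) ^ 2 * c ≤ K * n ^ 4 := hc
          _ ≤ K * (64 * (q + 1) ^ 2 * m ^ 4) := Nat.mul_le_mul_left _ hn4
          _ = (q + 1) ^ 2 * (64 * K * m ^ 4) := by ring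
      exact Nat.le_of_mul_le_mul_left h4 (by positivity)
    have h5 : 8 * (n * n) ≤ m ^ 4 := by
      have h6 : n * n ≤ 8 * (q + 1) * (m * m) := by
        calc n * n ≤ (2 * b * m) * (2 * b * m) := Nat.mul_le_mul hnA hnA
          _ = 4 * (b * b) * (m * m) := by ring
          _ ≤ 4 * (2 * (q + 1)) * (m * m) :=
            Nat.mul_le_mul_right _ (Nat.mul_le_mul_left _ hb2)
          _ = 8 * (q + 1) * (m * m) := by ring
      have h7 : 64 * (q + 1) ≤ m * m := by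
        have g : N * (q + 1) * (N * (q + 1)) ≤ 8 * (q + 1) * (m * m) :=
          (Nat.mul_le_mul hqn hqn).trans h6
        have g2 : 8 * (q + 1) * (64 * (q + 1)) ≤ N * (q + 1) * (N * (q + 1)) := by
          have g3 : 512 ≤ N * N := by
            have a1 : 32 ≤ N := by omega
            calc 512 ≤ 32 * 32 := by norm_num
              _ ≤ N * N := Nat.mul_le_mul a1 a1
          calc 8 * (q + 1) * (64 * (q + 1)) = 512 * ((q + 1) * (q + 1)) := by ring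
            _ ≤ N * N * ((q + 1) * (q + 1)) := Nat.mul_le_mul_right _ g3
            _ = N * (q + 1) * (N * (q + 1)) := by ring
        exact Nat.le_of_mul_le_mul_left (g2.trans g) (by positivity)
      calc 8 * (n * n) ≤ 8 * (8 * (q + 1) * (m * m)) := Nat.mul_le_mul_left _ h6
        _ = (64 * (q + 1)) * (m * m) := by ring
        _ ≤ (m * m) * (m * m) := Nat.mul_le_mul_right _ h7
        _ = m ^ 4 := by ring
    have fin : ∀ P : Matroid α, P.Finite → (q + 1) ^ 2 * rk P H ≤ K * n ^ 4 →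
        rk P (M.E \ (X ∪ Y ∪ (C₁ ∪ F) ∪ (D₂ ∪ G))) ≤ (64 * K + 1) * m ^ 4 := by
      intro P hPf hPH
      have h6 := rk_mono P hsub
      have h7 := rk_union_le P (X := H) (Y := R) hRf
      have h8 := h3 _ hPH
      have h9 : (64 * K + 1) * m ^ 4 = 64 * K * m ^ 4 + m ^ 4 := by ring
      rw [h9]
      omega
    rcases hH with hH | hH
    · exact Or.inr (Or.inr (Or.inl (fin M inferInstance hH)))
    · exact Or.inr (Or.inr (Or.inr (fin M✶ inferInstance hH)))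

end TSK
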