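import Pool.Agent.TST.UInst
import Pool.Agent.TST.PreRows

/-!
# Joint ground in a quotient (row H6 of T-star, helper14)

`Quo.ju`: if the full parts over the classes `A i` are jointly unbalanced and every element used is
kept or spanned by the trees, then the classes are jointly unbalanced in the quotient.
-/

open Set Relation
open scoped Matroid

namespace TST

open BIC Gad EN Mdl Mdu Mdj

section

variable {α V V' : Type*} {M : Matroid α} {S S' : Set α} {ends : α → Sym2 V}
  {ends' : α → Sym2 V'} {u : ℕ} {π : V → Option V'} {F : V' → Set α}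

/-- vertices over `A` -/
def ovr (π : V → Option V') (A : Set V') : Set V := {v | ∃ P ∈ A, π v = some P}

/-- **Joint ground in a quotient.** -/
theorem Quo.ju [M.Finite] (hF : FrmU M S ends u) (h : Quo S ends π F S' ends') {ι : Type*}
    (I : Finset ι) {A : ι → Set V'} (hAf : ∀ i ∈ I, (A i).Finite)
    (hne : ∀ i ∈ I, ∀ P ∈ A i, (prt π P).Nonempty) {S₀ S₁ : Set α} (hS₀ : S₀ ⊆ S)
    (hS₁ : S₁ ⊆ S')
    (hel : ∀ i ∈ I, ∀ e ∈ ins S₀ ends (ovr π (A i)),
      e ∈ ins S₁ ends' (A i) ∨ e ∈ M.closure (FO F univ))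
    (hJ : JU M S₀ ends I (fun i => ovr π (A i))) : JU (M ／ FO F univ) S₁ ends' I A := by
  classical
  set O : Set V' := ⋃ i ∈ I, A i with hO
  set R : Set α := ⋃ i ∈ I, ins S₀ ends (ovr π (A i)) with hR
  set K : Set α := ⋃ i ∈ I, ins S₁ ends' (A i) with hK
  have hE : ∀ O', FO F O' ⊆ M.E := fun O' => (h.FO_sub O').trans hF.sub
  have hRS : R ⊆ S := iUnion₂_subset fun i _ e he => hS₀ he.1
  have hKS' : K ⊆ S' := iUnion₂_subset fun i _ e he => hS₁ he.1
  have hKd : K ⊆ M.E \ FO F univ := fun e he =>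
    ⟨hF.sub (h.sub (hKS' he)), Set.disjoint_left.1 (h.S_disj univ) (hKS' he)⟩
  have hJ' : ∑ i ∈ I, (ovr π (A i)).ncard ≤ rk M R := hJ
  -- basis of the elements over the classes
  obtain ⟨B, hB⟩ := M.exists_isBasis R (hRS.trans hF.sub)
  have hBv : ∀ e ∈ B, ∀ v ∈ ends e, ∀ P ∈ Oᶜ, π v ≠ some P := by
    intro e he v hv P hP hvP
    obtain ⟨i, hi, he'⟩ := mem_iUnion₂.1 (hB.subset he)
    obtain ⟨Q, hQ, hvQ⟩ := he'.2 v hv
    rw [hvP] at hvQ
    exact hP ((Option.some.inj hvQ).symm ▸ mem_iUnion₂.2 ⟨i, hi, hQ⟩)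
  have hBi : M.Indep (B ∪ FO F Oᶜ) := h.indep hF hB.indep (hB.subset.trans hRS) Oᶜ
    (fun P hP e he v hv e' he' v' hv' h6 => absurd h6 (hBv e he v hv P hP))
  have hBf : B.Finite := M.ground_finite.subset hB.indep.subset_ground
  have hBd : Disjoint B (FO F Oᶜ) := by
    rw [Set.disjoint_left]
    intro e he he'
    obtain ⟨P, hP, he'⟩ := mem_FO.1 he'
    obtain ⟨v, hv⟩ := exists_mem_ends ends e
    exact hBv e he v hv P hP ((h.F_ins he').2 v hv)
  have h1 : rk M R = B.ncard := by
    have := hB.eRk_eq_eRk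
    rw [← cast_rk, ← cast_rk] at this
    have h8 : rk M B = rk M R := by exact_mod_cast this
    rw [← h8, rk_indep hB.indep]
  have h2 : B.ncard + (FO F Oᶜ).ncard ≤ rk M (R ∪ FO F univ) := by
    rw [← ncard_union_eq hBd hBf (h.F_fin hF _), ← rk_indep hBi]
    refine rk_mono M ?_
    rintro e (he | he)
    · exact Or.inl (hB.subset he)
    · exact Or.inr (by rw [FO_compl F O]; exact Or.inr he)
  have h3 : rk M (R ∪ FO F univ) ≤ rk M (K ∪ FO F univ) := by
    have hsub : R ∪ FO F univ ⊆ M.closure (K ∪ FO F univ) := by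
      have hKE : K ∪ FO F univ ⊆ M.E := union_subset (fun e he => (hKd he).1) (hE univ)
      rintro e (he | he)
      · obtain ⟨i, hi, he⟩ := mem_iUnion₂.1 he
        rcases hel i hi e he with h4 | h4
        · exact M.subset_closure _ hKE (Or.inl (mem_iUnion₂.2 ⟨i, hi, h4⟩))
        · exact M.closure_subset_closure subset_union_right h4
      · exact M.subset_closure _ hKE (Or.inr he)
    have h4 := M.eRk_mono hsub
    rw [M.eRk_closure_eq, ← cast_rk, ← cast_rk] at h4
    exact_mod_cast h4
  have h4 := BICS.rk_contract_set (M := M) (hE univ) hKd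
  have h5 : rk M (FO F univ) = (FO F O).ncard + (FO F Oᶜ).ncard := by
    rw [rk_indep (h.FO_indep hF _), FO_compl F O,
      ncard_union_eq (h.FO_disj disjoint_compl_right) (h.F_fin hF O) (h.F_fin hF Oᶜ)]
  have h6 : (FO F O).ncard ≤ ∑ i ∈ I, (FO F (A i)).ncard := by
    have h7 : FO F O ⊆ ⋃ i ∈ I, FO F (A i) := by
      intro e he
      obtain ⟨P, hP, he⟩ := mem_FO.1 he
      obtain ⟨i, hi, hP⟩ := mem_iUnion₂.1 hP
      exact mem_iUnion₂.2 ⟨i, hi, mem_FO.2 ⟨P, hP, he⟩⟩
    have key : ∀ t : Finset ι, (⋃ i ∈ t, FO F (A i)).ncard ≤ ∑ i ∈ t, (FO F (A i)).ncard := by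
      intro t
      induction t using Finset.induction_on with
      | empty => simp
      | insert i t hit ih =>
        rw [Finset.set_biUnion_insert, Finset.sum_insert hit]
        exact (ncard_union_le _ _).trans (Nat.add_le_add_left ih _)
    refine (ncard_le_ncard h7 ?_).trans (key I)
    exact M.ground_finite.subset (iUnion₂_subset fun i _ => hE _)
  have h7 : ∑ i ∈ I, (ovr π (A i)).ncard = ∑ i ∈ I, (A i).ncard + ∑ i ∈ I, (FO F (A i)).ncard := by
    rw [← Finset.sum_add_distrib]
    exact Finset.sum_congr rfl fun i hi => h.ncard_parts hF (hAf i hi) (hne i hi)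
  show ∑ i ∈ I, (A i).ncard ≤ rk (M ／ FO F univ) K
  omega

end

section

variable {α V σ X : Type*} {H : Host V σ} {N : ℤ} {M : Matroid α} {Sw : Set α}
  {ends : α → Sym2 (HV V σ)} {m : σ → ℕ → ℕ}

/-- A sheet with its middle windows is connected. -/
lemma HostG.shV_vconn (h : HostG H N M Sw ends m) (hN : 1 ≤ N) (s : σ) :
    VConn Sw ends (ShV H N m s) := by
  set r : HV V σ → HV V σ → Prop := fun a b => GAdj Sw ends a b ∧ a ∈ ShV H N m s ∧
    b ∈ ShV H N m s with hr
  have hsym : ∀ u v : HV V σ, ReflTransGen r u v → ReflTransGen r v u := by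
    intro u v h1
    induction h1 with
    | refl => exact ReflTransGen.refl
    | tail _ h2 ih => exact (ReflTransGen.single ⟨h2.1.symm, h2.2.2, h2.2.1⟩).trans ih
  have hmem : ∀ c (b : ℤ), c < H.len s → -N ≤ b → b ≤ N →
      (Sum.inr (s, c, b) : HV V σ) ∈ ShV H N m s := fun c b h1 h2 h3 =>
    ⟨c, b, rfl, h1, h2, by omega⟩
  have hst : ∀ c c' (b b' : ℤ), c < H.len s → c' < H.len s → -N ≤ b → b ≤ N → b ≠ 0 → -N ≤ b' →
      b' ≤ N → b' ≠ 0 → H.Adj N (Sum.inr (s, c, b) : HV V σ) (Sum.inr (s, c', b')) →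
      ReflTransGen r (Sum.inr (s, c, b)) (Sum.inr (s, c', b')) := by
    intro c c' b b' h1 h2 h3 h4 h5 h6 h7 h8 h9
    exact ReflTransGen.single ⟨h.emb _ _ (show NZ H N (Sum.inr (s, c, b) : HV V σ) from
      ⟨h1, h3, h4, h5⟩) (show NZ H N (Sum.inr (s, c', b') : HV V σ) from ⟨h2, h6, h7, h8⟩) h9,
      hmem _ _ h1 h3 h4, hmem _ _ h2 h6 h7⟩
  -- lower half
  have hv1 : ∀ c, c < H.len s → ∀ n : ℕ, (n : ℤ) ≤ N - 1 →
      ReflTransGen r (Sum.inr (s, c, -N)) (Sum.inr (s, c, -N + n)) := by
    intro c hc n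
    induction n with
    | zero =>
      intro _
      have e : -N + ((0 : ℕ) : ℤ) = -N := by simp
      rw [e]
    | succ n ih =>
      intro hn
      push_cast at hn
      refine (ih (by omega)).trans ?_
      exact hst c c _ _ hc hc (by omega) (by omega) (by omega) (by push_cast; omega)
        (by push_cast; omega) (by push_cast; omega)
        (Or.inl ⟨rfl, hc, by omega, by push_cast; omega, Or.inl ⟨rfl, by push_cast; omega⟩⟩)
  -- upper half
  have hv2 : ∀ c, c < H.len s → ∀ n : ℕ, (n : ℤ) ≤ N - 1 →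
      ReflTransGen r (Sum.inr (s, c, 1)) (Sum.inr (s, c, 1 + n)) := by
    intro c hc n
    induction n with
    | zero =>
      intro _
      have e : (1 : ℤ) + ((0 : ℕ) : ℤ) = 1 := by simp
      rw [e]
    | succ n ih =>
      intro hn
      push_cast at hn
      refine (ih (by omega)).trans ?_
      exact hst c c _ _ hc hc (by omega) (by omega) (by omega) (by push_cast; omega)
        (by push_cast; omega) (by push_cast; omega)
        (Or.inl ⟨rfl, hc, by omega, by push_cast; omega, Or.inl ⟨rfl, by push_cast; omega⟩⟩)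
  have hmid : ∀ c, c < H.len s → MidS N s c (m s c) ⊆ ShV H N m s := by
    rintro c hc _ ⟨b, rfl, rfl | ⟨h1, h2⟩⟩
    · exact hmem c 0 hc (by omega) (by omega)
    · exact ⟨c, b, rfl, hc, by omega, h2⟩
  -- through the middle window
  have hm : ∀ c, c < H.len s → ∀ w ∈ MidS N s c (m s c),
      ReflTransGen r (Sum.inr (s, c, -1)) w ∧ ReflTransGen r w (Sum.inr (s, c, 1)) := by
    intro c hc w hw
    obtain ⟨h1, ⟨e, he, a, ha, b, hb, hee⟩, ⟨e', he', a', ha', b', hb', hee'⟩⟩ := h.mid s c hc
    rw [mem_singleton_iff] at ha hb'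
    subst ha hb'
    have hin : ∀ x ∈ MidS N s c (m s c), ∀ y ∈ MidS N s c (m s c), ReflTransGen r x y := by
      intro x hx y hy
      have h2 := h1 x hx y hy
      clear hy
      induction h2 with
      | refl => exact ReflTransGen.refl
      | tail _ h3 ih => exact ih.tail ⟨h3.1, hmid c hc h3.2.1, hmid c hc h3.2.2⟩
    constructor
    · exact (ReflTransGen.single ⟨⟨e, he, hee⟩, hmem c _ hc (by omega) (by omega),
        hmid c hc hb⟩).trans (hin b hb w hw)
    · exact (hin w hw a' ha').trans (ReflTransGen.single ⟨⟨e', he', hee'⟩, hmid c hc ha',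
        hmem c _ hc (by omega) (by omega)⟩)
  have hh : ∀ c, c < H.len s → ReflTransGen r (Sum.inr (s, 0, -N)) (Sum.inr (s, c, -N)) := by
    intro c
    induction c with
    | zero => exact fun _ => ReflTransGen.refl
    | succ c ih =>
      intro hc
      refine (ih (by omega)).trans ?_
      exact hst c (c + 1) _ _ (by omega) hc le_rfl (by omega) (by omega) le_rfl (by omega)
        (by omega) (Or.inl ⟨rfl, hc, le_rfl, by omega, Or.inr ⟨rfl, rfl, by omega⟩⟩)
  have key : ∀ w ∈ ShV H N m s, ReflTransGen r (Sum.inr (s, 0, -N)) w := by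
    rintro w ⟨c, b, rfl, h1, h2, h3⟩
    have hneg : ReflTransGen r (Sum.inr (s, c, -N)) (Sum.inr (s, c, -1)) := by
      have h4 := hv1 c h1 (N - 1).toNat (by omega)
      have e : -N + (((N - 1).toNat : ℕ) : ℤ) = -1 := by omega
      rwa [e] at h4
    rcases lt_or_ge b 0 with h4 | h4
    · have h5 := hv1 c h1 (b + N).toNat (by omega)
      have e : -N + (((b + N).toNat : ℕ) : ℤ) = b := by omega
      rw [e] at h5
      exact (hh c h1).trans h5
    · by_cases h6 : 1 ≤ b ∧ b ≤ N
      · have h5 := hv2 c h1 (b - 1).toNat (by omega)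
        have e : 1 + (((b - 1).toNat : ℕ) : ℤ) = b := by omega
        rw [e] at h5
        have h7 := hm c h1 (Sum.inr (s, c, 0)) ⟨0, rfl, Or.inl rfl⟩
        exact (((hh c h1).trans hneg).trans (h7.1.trans h7.2)).trans h5
      · have h7 := hm c h1 (Sum.inr (s, c, b)) ⟨b, rfl, by omega⟩
        exact ((hh c h1).trans hneg).trans h7.1
  intro x hx y hy
  exact (hsym _ _ (key x hx)).trans (key y hy)

/-- An element inside of one part of a sheet is spanned by the tree of the part. -/
lemma HostG.span_part [M.Finite] (h : HostG H N M Sw ends m) (hN : 1 ≤ N)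
    {F : HV V σ → Set α} {Sk' : Set α} {ek' : α → Sym2 (HV V σ)}
    (hQ : Quo Sw ends (p0 H N m) F Sk' ek') {e : α} (he : e ∈ Sw) {s : σ} {c : ℕ} {b : ℤ}
    (hv : ∀ v ∈ ends e, p0 H N m v = some (Sum.inr (s, c, b))) :
    e ∈ M.closure (F (Sum.inr (s, c, b))) := by
  classical
  set P : HV V σ := Sum.inr (s, c, b) with hP
  obtain ⟨v, hve⟩ := exists_mem_ends ends e
  have hvP := hv v hve
  rcases hQ.tree P with ⟨h1, _⟩ | hA
  · have : v ∈ prt (p0 H N m) P := hvP
    rw [h1] at this
    exact absurd this (Set.notMem_empty v)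
  · by_contra hcl
    have hsub : prt (p0 H N m) P ⊆ ShV H N m s := by
      intro w hw
      rcases p0_eq_some (m := m) hw with ⟨x, rfl, h2⟩ | ⟨s', c', b', rfl, g1, g2, g3, h2⟩
      · exact absurd h2 (by simp [hP])
      · simp only [hP, Sum.inr.injEq, Prod.mk.injEq] at h2
        obtain ⟨rfl, _⟩ := h2
        exact ⟨c', b', rfl, g1, g2, g3⟩
    have hlen : 0 < H.len s := by
      obtain ⟨c', b', _, h2, _⟩ := hsub hvP
      omega
    have hFU : FrmU M Sw ends 0 := h.frm.frmU
    have hFi : M.Indep (F P) := by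
      have h2 := hQ.FO_indep hFU {P}
      refine h2.subset fun x hx => mem_FO.2 ⟨P, rfl, hx⟩
    have heF : e ∉ F P := fun h2 => hcl (M.subset_closure _ hFi.subset_ground h2)
    have h3 : M.Indep (insert e (F P)) :=
      (hFi.notMem_closure_iff_of_notMem heF (h.frm.sub he)).1 hcl
    have h4 := arb_ncard (hQ.fin P) hA
    have h5 : (insert e (F P)).ncard = (prt (p0 H N m) P).ncard := by
      rw [ncard_insert_of_notMem heF h4.1]
      exact h4.2
    have h6 : (prt (p0 H N m) P).ncard ≤ rk M (ins Sw ends (prt (p0 H N m) P)) := by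
      rw [← h5, ← rk_indep h3]
      refine rk_mono M ?_
      rintro x (rfl | hx)
      · exact ⟨he, fun w hw => hv w hw⟩
      · exact ⟨(hQ.F_ins hx).1, fun w hw => (hQ.F_ins hx).2 w hw⟩
    have h7 := h.frm.grow_over (R := ∅) (empty_subset _) (ShV_finite s H N m) hsub ⟨v, hvP⟩
      (h.shV_vconn hN s) (fun x hx => absurd hx (Set.notMem_empty x))
    rw [empty_union, empty_union] at h7
    have h8 := h.bal s hlen
    omega

/-- `HostG.real` of helper57 with the trees of the quotient (his proof, word by word). -/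
theorem HostG.real_quo [M.Finite] (h : HostG H N M Sw ends m) (hN : 1 ≤ N) :
    ∃ F : HV V σ → Set α, Quo Sw ends (p0 H N m) F (Sk H N Sw ends m) (ek H N ends m) ∧
      RealH H N (M ／ FO F univ) (Sk H N Sw ends m) (ek H N ends m) ∧
      ∀ A : Set (HV V σ), (∀ w ∈ A, NZ H N w) → ∀ X ⊆ ins (Sk H N Sw ends m) (ek H N ends m) A,
        X ⊆ ins Sw ends A ∧ rk (M ／ FO F univ) X = rk M X := by
  classical
  obtain ⟨F, hF0, hQ'⟩ := h.quo (by omega)
  have hQ : Quo Sw ends (p0 H N m) F (Sk H N Sw ends m) (ek H N ends m) := hQ'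
  clear hQ'
  have hFU : FrmU M Sw ends 0 := h.frm.frmU
  have hE : ∀ e ∈ Sk H N Sw ends m, ∀ P, ek H N ends m e ≠ s(P, P) := by
    rintro e ⟨_, u, v, u', v', h1, h2, h3, h4⟩ P hP
    rw [ek_of h1 h2 h3] at hP
    rcases Sym2.eq_iff.1 hP with ⟨rfl, rfl⟩ | ⟨rfl, rfl⟩ <;> exact h4 rfl
  have hfr := FrmU.quo hFU hQ (fun e he P hP => absurd hP (hE e he P))
  have hfrm : Frm (M ／ FO F univ) (Sk H N Sw ends m) (ek H N ends m) := frm_of_frmU hfr
  have hnzsub : ∀ A : Set (HV V σ), (∀ w ∈ A, NZ H N w) →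
      ins (Sk H N Sw ends m) (ek H N ends m) A ⊆ ins Sw ends A := by
    rintro A hA e ⟨⟨he, u, v, u', v', h1, h2, h3, h4⟩, he2⟩
    refine ⟨he, ?_⟩
    have hback : ∀ w w', p0 H N m w = some w' → w' ∈ A → w ∈ A := by
      intro w w' hw hw'
      have hnz := hA w' hw'
      rcases p0_eq_some (m := m) hw with ⟨x, rfl, rfl⟩ | ⟨s, c, b, rfl, g1, g2, g3, rfl⟩
      · exact hw'
      · split_ifs at hnz hw' with g4
        · exact absurd rfl hnz.2.2.2
        · exact hw'
    intro w hw
    rw [h1] at hw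
    rw [ek_of h1 h2 h3] at he2
    rcases Sym2.mem_iff.1 hw with rfl | rfl
    · exact hback _ _ h2 (he2 u' (by simp))
    · exact hback _ _ h3 (he2 v' (by simp))
  refine ⟨F, hQ, ⟨hfrm, fun u v huv => h.hadj' hN huv, fun e he u v huv => h.adj he huv, ?_⟩,
    ?_⟩
  · -- balanced pages
    intro s A hAf hAne hAc hAs
    have hEm : rk (M ／ FO F univ) ∅ = 0 := CWL.rk_empty _
    by_cases hAW : A ⊆ ShW H N s
    · have hlen : 0 < H.len s := by
        obtain ⟨w, hw⟩ := hAne
        obtain ⟨c, b, _, h1, _⟩ := hAW hw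
        omega
      have h1 := hfrm.grow_over (R := ∅) (empty_subset _)
        ((ShV_finite s H N m).subset (ShW_sub s)) hAW hAne (ShW_vconn h hN s)
        (fun e he => absurd he (Set.notMem_empty e))
      rw [empty_union, empty_union] at h1
      -- the rank of the sheet
      have h2 := h.bal s hlen
      set O : Set (HV V σ) := ShW H N s with hO
      have h3 := hQ.rk_transfer hFU (O := O) (X := ins (Sk H N Sw ends m) (ek H N ends m) O)
        (fun e he => he)
      have hd1 : ins (Sk H N Sw ends m) (ek H N ends m) O ⊆ M.E \ FO F O := fun e he =>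
        ⟨h.frm.sub he.1.1, Set.disjoint_left.1 (hQ.S_disj O) he.1⟩
      have h4 := BICS.rk_contract_set (M := M) ((hQ.FO_sub O).trans h.frm.sub) hd1
      have h5 : rk M (FO F O) = (FO F O).ncard := rk_indep (hQ.FO_indep hFU O)
      have hsub : ins (Sk H N Sw ends m) (ek H N ends m) O ∪ FO F O ⊆
          ins Sw ends (ShV H N m s) := by
        have hin : ∀ w w', p0 H N m w = some w' → w' ∈ O → w ∈ ShV H N m s := by
          rintro w w' hw hw'
          rcases p0_eq_some (m := m) hw with ⟨x, rfl, rfl⟩ | ⟨s', c, b, rfl, g1, g2, g3, rfl⟩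
          · obtain ⟨_, _, g, _⟩ := hw'
            exact absurd g (by simp)
          · obtain ⟨c', b', g4, _⟩ := hw'
            simp only [Sum.inr.injEq, Prod.mk.injEq] at g4
            obtain ⟨rfl, _⟩ := g4
            exact ⟨c, b, rfl, g1, g2, g3⟩
        rintro e (he | he)
        · refine ⟨he.1.1, fun w hw => ?_⟩
          obtain ⟨P, hP, hwP⟩ := hQ.ends_in he hw
          exact hin w P hwP hP
        · obtain ⟨P, hP, he⟩ := mem_FO.1 he
          exact ⟨(hQ.F_ins he).1, fun w hw => hin w P ((hQ.F_ins he).2 w hw) hP⟩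
      have h6 := rk_mono M hsub
      -- counting
      have h7 : (ShV H N m s).ncard = O.ncard + (FO F O).ncard := by
        have hcount := hQ.ncard_parts hFU (W := O) ((ShV_finite s H N m).subset (ShW_sub s))
        have e1 : {v | ∃ P ∈ O, p0 H N m v = some P} = ShV H N m s := by
          ext w
          constructor
          · rintro ⟨P, hP, hwP⟩
            rcases p0_eq_some (m := m) hwP with ⟨x, rfl, rfl⟩ | ⟨s', c, b, rfl, g1, g2, g3, rfl⟩
            · obtain ⟨_, _, g, _⟩ := hP
              exact absurd g (by simp)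
            · obtain ⟨c', b', g4, _⟩ := hP
              simp only [Sum.inr.injEq, Prod.mk.injEq] at g4
              obtain ⟨rfl, _⟩ := g4
              exact ⟨c, b, rfl, g1, g2, g3⟩
          · rintro ⟨c, b, rfl, g1, g2, g3⟩
            refine ⟨Sum.inr (s, c, if N < b then 0 else b), ?_, ?_⟩
            · refine ⟨c, _, rfl, g1, ?_, ?_⟩ <;> split_ifs <;> omega
            · simp only [p0]
              rw [if_pos ⟨g1, g2, g3⟩]
        rw [e1] at hcount
        refine hcount ?_
        intro P hP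
        obtain ⟨c, b, rfl, g1, g2, g3⟩ := hP
        refine ⟨Sum.inr (s, c, b), ?_⟩
        change p0 H N m _ = _
        simp only [p0]
        rw [if_pos ⟨g1, g2, by omega⟩, if_neg (by omega)]
      omega
    · -- an unused label
      obtain ⟨w, hw, hwn⟩ := Set.not_subset.1 hAW
      obtain ⟨c, b, rfl⟩ := hAs w hw
      have hno : ∀ w', ¬ GAdj (Sk H N Sw ends m) (ek H N ends m) (Sum.inr (s, c, b)) w' := by
        rintro w' ⟨e, he, hee⟩
        have h1 := region_of_adj (by omega) (h.adj he hee) s c b rfl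
        exact hwn ⟨c, b, rfl, h1⟩
      have hA1 : A = {Sum.inr (s, c, b)} := by
        refine Set.Subset.antisymm ?_ (singleton_subset_iff.2 hw)
        intro x hx
        have h1 := hAc _ hw x hx
        rcases Relation.ReflTransGen.cases_head h1 with h2 | ⟨y, h2, _⟩
        · exact h2.symm
        · exact absurd h2.1 (hno y)
      have h2 : ins (Sk H N Sw ends m) (ek H N ends m) A = ∅ := by
        rw [Set.eq_empty_iff_forall_notMem]
        rintro e ⟨he, he2⟩
        obtain ⟨u, v, huv⟩ := exists_pair (ek H N ends m e)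
        have h3 := he2 u (by rw [huv]; simp)
        rw [hA1, mem_singleton_iff] at h3
        subst h3
        exact hno v ⟨e, he, huv⟩
      rw [h2, hEm, hA1, ncard_singleton]
      omega
  · intro A hA X hX
    refine ⟨hX.trans (hnzsub A hA), ?_⟩
    have h1 := hQ.rk_transfer hFU hX
    have h2 : FO F A = ∅ := by
      rw [Set.eq_empty_iff_forall_notMem]
      intro e he
      obtain ⟨P, hP, he⟩ := mem_FO.1 he
      rw [hF0 P (by
        rintro s c hc rfl
        exact (hA _ hP).2.2.2 rfl)] at he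
      exact he
    rw [h1, h2, Matroid.contract_empty]

end

/-- full part of a class at depth `0` -/
def ful {V σ X : Type*} (H : Host V σ) (N : ℤ) (m : σ → ℕ → ℕ) (f : HV V σ → Option X) (y : X) :
    Set (HV V σ) := {w | ∃ P, p0 H N m w = some P ∧ f (Pz N P) = some y}

/-- **The predicate `U` of a host with middle windows, with unbalanced colourings.** -/
theorem HostG.exists_U2 {α : Type*} {V σ X : Type} [Fintype X] {H : Host V σ} {N : ℤ}
    {M : Matroid α} [M.Finite] {Sw S : Set α} {ends : α → Sym2 (HV V σ)} {m : σ → ℕ → ℕ}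
    (h : HostG H N M Sw ends m) (hN : 1 ≤ N)
    (hS : ∀ A : Set (HV V σ), (∀ w ∈ A, NZ H N w) → ins Sw ends A ⊆ ins S ends A) :
    ∃ (F₀ : Set α) (Sk : Set α) (ek : α → Sym2 (HV V σ)), RealH H N (M ／ F₀) Sk ek ∧
      Jnt (X := X) H N (UU N (M ／ F₀) Sk ek) ∧
      TSK.ULast M S ends H N (UU (X := X) N (M ／ F₀) Sk ek) ∧
      ∀ (S₀ : Set α), S₀ ⊆ Sw →
        (∀ e ∈ S₀, ∀ s c c' b b', ends e = s(Sum.inr (s, c, b), Sum.inr (s, c', b')) → c = c') →
        (∀ e ∈ S₀, ∀ v, ends e ≠ s(Sum.inl v, Sum.inl v)) →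
        ∀ f : HV V σ → Option X,
        (∀ s c b y, f (Sum.inr (s, c, b)) = some y → c < H.len s ∧ b = 0) →
        (∀ y, ∃ w, f w = some y) → (∀ y, {w | f w = some y}.Finite) →
        JU M S₀ ends Finset.univ (fun y => ful H N m f y) → UU N (M ／ F₀) Sk ek 0 f := by
  classical
  obtain ⟨F, hQ, hR, hlast⟩ := h.real_quo hN
  refine ⟨FO F univ, _, _, hR, hR.jnt, ?_, ?_⟩
  rotate_left
  · intro S₀ hS₀ hhor hloop f hf1 hf2 hf3 hJ
    have hFU : FrmU M Sw ends 0 := h.frm.frmU
    refine ⟨hf2, hf3, ?_⟩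
    rw [sub_zero]
    refine hQ.ju hFU Finset.univ (A := fun y => Ph N {w | f w = some y}) (S₀ := S₀)
      (fun y _ => finite_Ph (by omega) (hf3 y)) ?_ hS₀ Sd_sub ?_ ?_
    · rintro y _ (v | ⟨s, c, b⟩) hP
      · exact ⟨Sum.inl v, rfl⟩
      · obtain ⟨h1, h2⟩ := hf1 s c (pz N b) y hP
        have h3 : -N ≤ b ∧ b ≤ N := by
          unfold pz at h2
          split_ifs at h2 <;> omega
        refine ⟨Sum.inr (s, c, b), ?_⟩
        change p0 H N m _ = _
        simp only [p0]
        rw [if_pos ⟨h1, h3.1, by omega⟩, if_neg (by omega)]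
    · rintro y _ e ⟨he, hev⟩
      obtain ⟨u, v, huv⟩ := exists_pair (ends e)
      obtain ⟨u', hu', hu⟩ := hev u (by rw [huv]; simp)
      obtain ⟨v', hv', hv⟩ := hev v (by rw [huv]; simp)
      by_cases hne : u' = v'
      · right
        subst hne
        rcases p0_eq_some (m := m) hu with ⟨x, rfl, rfl⟩ | ⟨s, c, b, rfl, g1, g2, g3, rfl⟩
        · rcases p0_eq_some (m := m) hv with ⟨x', rfl, h2⟩ | ⟨s, c, b, rfl, g1, g2, g3, h2⟩
          · have h3 : x = x' := Sum.inl.inj h2
            subst h3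
            exact absurd huv (hloop e he x)
          · exact absurd h2 (by simp)
        · have h4 := h.span_part hN hQ (hS₀ he) (s := s) (c := c) (b := if N < b then 0 else b)
            (by
              intro w hw
              rw [huv, Sym2.mem_iff] at hw
              rcases hw with rfl | rfl
              · exact hu
              · exact hv)
          refine M.closure_subset_closure ?_ h4
          intro x hx
          exact mem_FO.2 ⟨_, mem_univ _, hx⟩
      · left
        have hek : ek H N ends m e = s(u', v') := ek_of huv hu hv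
        refine ⟨⟨⟨hS₀ he, u, v, u', v', huv, hu, hv, hne⟩, ?_⟩, ?_⟩
        · intro s c c' b h1 hcc
          exfalso
          refine hcc ?_
          have key : ∀ a a' : HV V σ, ends e = s(a, a') → p0 H N m a = some (Sum.inr (s, c, b)) →
              p0 H N m a' = some (Sum.inr (s, c', b)) → c = c' := by
            intro a a' haa ha ha'
            rcases p0_eq_some (m := m) ha with ⟨x, rfl, h2⟩ | ⟨s1, c1, b1, rfl, _, _, _, h2⟩
            · exact absurd h2 (by simp)
            · rcases p0_eq_some (m := m) ha' with ⟨x, rfl, h3⟩ | ⟨s2, c2, b2, rfl, _, _, _, h3⟩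
              · exact absurd h3 (by simp)
              · simp only [Sum.inr.injEq, Prod.mk.injEq] at h2 h3
                obtain ⟨rfl, rfl, _⟩ := h2
                obtain ⟨rfl, rfl, _⟩ := h3
                exact hhor e he _ _ _ _ _ haa
          rw [hek] at h1
          rcases Sym2.eq_iff.1 h1 with ⟨rfl, rfl⟩ | ⟨rfl, rfl⟩
          · exact key u v huv hu hv
          · exact key v u (by rw [huv, Sym2.eq_swap]) hv hu
        · intro w hw
          rw [hek, Sym2.mem_iff] at hw
          rcases hw with rfl | rfl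
          · exact hu'
          · exact hv'
    · have e1 : (fun y => ovr (p0 H N m) (Ph N {w | f w = some y})) =
          fun y => ful H N m f y := by
        funext y
        ext w
        constructor
        · rintro ⟨P, hP, hw⟩
          exact ⟨P, hw, hP⟩
        · rintro ⟨P, hw, hP⟩
          exact ⟨P, hP, hw⟩
      rw [e1]
      exact hJ
  intro D f hD hDN hU I hI
  have hF := frm_sd hR.frm (N - D)
  have hnzA : ∀ y ∈ I, ∀ w ∈ Ph (N - D) {w | f w = some y}, NZ H N w := by
    intro y hy w hw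
    have h1 := hI y hy (Pz (N - D) w) hw
    rcases w with v | ⟨s, c, b⟩
    · trivial
    · obtain ⟨h2, h3, h4, h5⟩ := h1
      refine ⟨h2, ?_, ?_, ?_⟩
      · unfold pz at h3
        split_ifs at h3 <;> omega
      · unfold pz at h4
        split_ifs at h4 <;> omega
      · rintro rfl
        apply h5
        rw [pz_mid (by omega) (by omega)]
  have hf : ∀ y ∈ (Finset.univ : Finset X), (Ph (N - D) {w | f w = some y}).Finite :=
    fun y _ => finite_Ph (by omega) (hU.2.1 y)
  have h1 := hU.2.2.restr hF hf (Finset.subset_univ I)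
  have e1 : ∀ y ∈ I, Ph (N - D) {w | f w = some y} = shf (N - D) '' {w | f w = some y} :=
    fun y hy => Ph_eq_shf (by omega) (fun w hw => hI y hy w hw)
  unfold JU at h1 ⊢
  have e2 : ∑ y ∈ I, (shf (N - D) '' {w | f w = some y}).ncard =
      ∑ y ∈ I, (Ph (N - D) {w | f w = some y}).ncard :=
    Finset.sum_congr rfl fun y hy => by rw [e1 y hy]
  rw [e2]
  refine h1.trans ?_
  set A : Set (HV V σ) := {w | NZ H N w} with hA
  have h2 : (⋃ y ∈ I, ins (Sd (Sk H N Sw ends m) (ek H N ends m) (N - D)) (ek H N ends m)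
      (Ph (N - D) {w | f w = some y})) ⊆ ins (Sk H N Sw ends m) (ek H N ends m) A := by
    intro e he
    rw [mem_iUnion₂] at he
    obtain ⟨y, hy, he⟩ := he
    exact ⟨he.1.1, fun w hw => hnzA y hy w (he.2 w hw)⟩
  have h3 := (hlast A (fun w hw => hw) _ h2).2
  rw [h3]
  refine rk_mono M ?_
  intro e he
  rw [mem_iUnion₂] at he ⊢
  obtain ⟨y, hy, he⟩ := he
  refine ⟨y, hy, ?_⟩
  change e ∈ ins S ends (shf (N - D) '' {w | f w = some y})
  rw [← e1 y hy]
  refine hS _ (hnzA y hy) ?_
  exact (hlast _ (hnzA y hy) {e} (singleton_subset_iff.2 ⟨he.1.1, he.2⟩)).1 rfl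

end TST
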