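import Pool.Agent.TST.PreSG
import Pool.Agent.TST.UnbQ

/-!
# The wall of the host of T-star with unbalanced colourings (helper14)

`SG.wallD`: every block of the wall at depth `0` contains rows of a small unbalanced set of nodes
(a brick); these rows are independent after the contraction.  So `WallD` holds.
-/

open Set Relation
open scoped Matroid

namespace TST

open BIC Gad EN BICS Mdl Mdj Mdu

universe u

variable {α : Type u} {X₀ β σ : Type}

section idx

variable {W : RW X₀ β} {ι : Type*} {N : ℕ} {T : Strip W ι N}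

lemma idx_inj (i : ι) {b b' : ℤ} (h1 : -(N : ℤ) ≤ b) (h2 : b ≤ N + T.m i) (h3 : -(N : ℤ) ≤ b')
    (h4 : b' ≤ N + T.m i) (h : T.idx i b = T.idx i b') : b = b' := by
  unfold Strip.idx at h
  split_ifs at h <;> omega

end idx

section lab

variable {W : RW X₀ β} {ln : σ → ℕ} {N : ℕ} {T : Strip W (CI ln) N} {Lm : ℕ}

/-- all vertices of a column are labels of nodes of its row -/
lemma lab_cv {i : CI ln} {b : ℤ} (h1 : -(N : ℤ) ≤ b) (h2 : b ≤ N + T.m i) :
    lab T Lm (W.nd (T.R i) (T.idx i b)) = cv i b := by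
  have h3 := idx_mem (T := T) i h1 h2
  obtain ⟨b', g1, g2, g3, g4⟩ := lab_in (Lm := Lm) h3.1 h3.2
  rw [g4, idx_inj i g1 g2 h1 h2 g3]

/-- consecutive nodes have different labels outside of the columns -/
lemma lab_ne {r : β} {k : ℕ} (hk : k < W.len r) (hl : W.len r ≤ Lm) (hne : W.hd r ≠ W.tl r)
    {v : OV X₀ β Lm} (h1 : lab T Lm (W.nd r k) = Sum.inl v)
    (h2 : lab T Lm (W.nd r (k + 1)) = Sum.inl v) : False := by
  have hout : ∀ k', 0 < k' → k' < W.len r → lab T Lm (W.nd r k') = Sum.inl v →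
      v = Sum.inr (r, Fin.ofNat (Lm + 1) k') := by
    intro k' h0 hk' hv
    rcases lab_cases (T := T) (Lm := Lm) hk'.le (by omega : 1 ≤ W.len r) with
      ⟨i, rfl, a1, a2⟩ | ⟨a1, _⟩
    · obtain ⟨b, _, _, _, g⟩ := lab_in (Lm := Lm) a1 a2
      rw [g] at hv
      exact absurd hv (by simp [cv])
    · rw [lab_not h0 hk' a1] at hv
      exact (Sum.inl.inj hv).symm
  rcases Nat.eq_zero_or_pos k with rfl | h0
  · rw [W.nd_zero] at h1
    have h3 : (Sum.inl (W.hd r) : OV X₀ β Lm) = v := Sum.inl.inj h1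
    rcases (by omega : 0 + 1 < W.len r ∨ 0 + 1 = W.len r) with h4 | h4
    · have h5 := hout (0 + 1) (by omega) h4 h2
      rw [← h3] at h5
      exact absurd h5 (by simp)
    · rw [h4, W.nd_len (by omega)] at h2
      have h5 : (Sum.inl (W.tl r) : OV X₀ β Lm) = v := Sum.inl.inj h2
      exact hne (Sum.inl.inj (h3.trans h5.symm))
  · have h3 := hout k h0 hk h1
    rcases (by omega : k + 1 < W.len r ∨ k + 1 = W.len r) with h4 | h4
    · have h5 := hout (k + 1) (by omega) h4 h2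
      rw [h3] at h5
      have h6 := (Prod.mk.inj (Sum.inr.inj h5)).2
      have h7 := congrArg Fin.val h6
      simp only [Fin.val_ofNat] at h7
      rw [Nat.mod_eq_of_lt (by omega), Nat.mod_eq_of_lt (by omega)] at h7
      omega
    · rw [h4, W.nd_len (by omega)] at h2
      have h5 : (Sum.inl (W.tl r) : OV X₀ β Lm) = v := Sum.inl.inj h2
      rw [← h5] at h3
      exact absurd h3 (by simp)

/-- number of labels of a set of rows -/
lemma ncard_rowL_le {B : Finset β} (hl : ∀ r ∈ B, 1 ≤ W.len r)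
    (hB : {x | ∃ r ∈ B, W.hd r = x ∨ W.tl r = x}.ncard ≤ B.card)
    (hfin : {x | ∃ r ∈ B, W.hd r = x ∨ W.tl r = x}.Finite) :
    (rowL T Lm (B : Set β)).Finite ∧ (rowL T Lm (B : Set β)).ncard ≤ ∑ r ∈ B, W.len r := by
  classical
  set E : Set (HV (OV X₀ β Lm) σ) :=
    (fun x => (Sum.inl (Sum.inl x) : HV (OV X₀ β Lm) σ)) ''
      {x | ∃ r ∈ B, W.hd r = x ∨ W.tl r = x} with hE
  set I : Finset (HV (OV X₀ β Lm) σ) :=
    B.biUnion fun r => (Finset.range (W.len r - 1)).image fun k => lab T Lm (W.nd r (k + 1)) with hI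
  have hsub : rowL T Lm (B : Set β) ⊆ E ∪ ↑I := by
    rintro _ ⟨_, ⟨r, hr, p, hp, rfl⟩, rfl⟩
    have hr' : r ∈ B := hr
    have h1 := hl r hr'
    rcases Nat.eq_zero_or_pos p with rfl | h0
    · left
      rw [W.nd_zero]
      exact ⟨W.hd r, ⟨r, hr', Or.inl rfl⟩, rfl⟩
    · rcases hp.lt_or_eq with h2 | rfl
      · right
        rw [hI, Finset.coe_biUnion, mem_iUnion₂]
        refine ⟨r, hr', ?_⟩
        rw [Finset.mem_coe, Finset.mem_image]
        exact ⟨p - 1, Finset.mem_range.2 (by omega), by rw [Nat.sub_add_cancel h0]⟩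
      · left
        rw [W.nd_len h1]
        exact ⟨W.tl r, ⟨r, hr', Or.inr rfl⟩, rfl⟩
  have hEf : E.Finite := hfin.image _
  have hf : (E ∪ (↑I : Set (HV (OV X₀ β Lm) σ))).Finite := hEf.union I.finite_toSet
  refine ⟨hf.subset hsub, ?_⟩
  have h1 := ncard_le_ncard hsub hf
  have h2 := ncard_union_le E (↑I : Set (HV (OV X₀ β Lm) σ))
  have h3 : E.ncard ≤ B.card := (ncard_image_le hfin).trans hB
  have h4 : (↑I : Set (HV (OV X₀ β Lm) σ)).ncard ≤ ∑ r ∈ B, (W.len r - 1) := by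
    rw [ncard_coe_finset, hI]
    refine Finset.card_biUnion_le.trans (Finset.sum_le_sum fun r _ => ?_)
    exact Finset.card_image_le.trans (by rw [Finset.card_range])
  have h5 : ∑ r ∈ B, W.len r = ∑ r ∈ B, (W.len r - 1) + B.card := by
    rw [Finset.card_eq_sum_ones, ← Finset.sum_add_distrib]
    exact Finset.sum_congr rfl fun r hr => by have := hl r hr; omega
  omega

end lab

/-- number of elements of a set of rows -/
lemma le_ncard_rowE {W : RW X₀ β} {el : β → ℕ → α} (hfin : ∀ B : Set β, (rowE W el B).Finite)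
    (hinj : ∀ r k r' k', k < W.len r → k' < W.len r' → el r k = el r' k' → r = r' ∧ k = k')
    {Y : Type*} (I : Finset Y) (B : Y → Finset β)
    (hd : ∀ y ∈ I, ∀ z ∈ I, y ≠ z → Disjoint (B y) (B z)) :
    ∑ y ∈ I, ∑ r ∈ B y, W.len r ≤ (rowE W el {r | ∃ y ∈ I, r ∈ B y}).ncard := by
  classical
  set K : Finset α := I.biUnion fun y => (B y).biUnion fun r =>
    (Finset.range (W.len r)).image (el r) with hK
  have h1 : K.card = ∑ y ∈ I, ∑ r ∈ B y, W.len r := by
    rw [hK, Finset.card_biUnion]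
    · refine Finset.sum_congr rfl fun y hy => ?_
      rw [Finset.card_biUnion]
      · refine Finset.sum_congr rfl fun r _ => ?_
        rw [Finset.card_image_of_injOn, Finset.card_range]
        intro k hk k' hk' he
        exact (hinj r k r k' (by simpa using hk) (by simpa using hk') he).2
      · intro r _ r' _ hne
        rw [Function.onFun, Finset.disjoint_left]
        intro e he he'
        obtain ⟨k, hk, rfl⟩ := Finset.mem_image.1 he
        obtain ⟨k', hk', he'⟩ := Finset.mem_image.1 he'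
        exact hne (hinj _ _ _ _ (Finset.mem_range.1 hk) (Finset.mem_range.1 hk') he'.symm).1
    · intro y hy z hz hne
      rw [Function.onFun, Finset.disjoint_left]
      intro e he he'
      obtain ⟨r, hr, he⟩ := Finset.mem_biUnion.1 he
      obtain ⟨r', hr', he'⟩ := Finset.mem_biUnion.1 he'
      obtain ⟨k, hk, rfl⟩ := Finset.mem_image.1 he
      obtain ⟨k', hk', he'⟩ := Finset.mem_image.1 he'
      have h2 := (hinj _ _ _ _ (Finset.mem_range.1 hk) (Finset.mem_range.1 hk') he'.symm).1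
      subst h2
      exact Finset.disjoint_left.1 (hd y hy z hz hne) hr hr'
  rw [← h1, ← ncard_coe_finset]
  refine ncard_le_ncard ?_ (hfin _)
  intro e he
  obtain ⟨y, hy, he⟩ := Finset.mem_biUnion.1 (Finset.mem_coe.1 he)
  obtain ⟨r, hr, he⟩ := Finset.mem_biUnion.1 he
  obtain ⟨k, hk, rfl⟩ := Finset.mem_image.1 he
  exact ⟨r, ⟨y, hy, hr⟩, k, Finset.mem_range.1 hk, rfl⟩

section main

variable {M : Matroid α} {el : β → ℕ → α} {ln : σ → ℕ} {N : ℕ} {Lm : ℕ} {Sf : Set α} {Q : Set α}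
  {BQ : Set β} {u : ℕ} {Ed : CI ln → CI ln → Prop} {Rg : Set α}

/-- **The wall of the host.** -/
theorem SG.wallD [M.Finite] [Finite β] [Finite σ] {L h₁ : ℕ} (hL2 : 2 ≤ L)
    {W : RW (EN.Wall.WV (L * h₁)) β} {T : Strip W (CI ln) N}
    {eL : α → Sym2 (HV (OV (EN.Wall.WV (L * h₁)) β Lm) σ)}
    (h : SG M W el T Lm Sf eL Q BQ u Ed Rg) {Lost : Set β} {m : σ → ℕ → ℕ}
    (hG : HostG (hostL (Sh W el T Lost Rg eL) eL N ln) N (M ／ Q) (Sw W el T Lost Rg) eL m)
    (hm : ∀ i : CI ln, m i.1.1 i.1.2 = T.m i)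
    (hS : ∀ A : Set (HV (OV (EN.Wall.WV (L * h₁)) β Lm) σ),
      (∀ w ∈ A, NZ (hostL (Sh W el T Lost Rg eL) eL N ln) N w) →
        ins (Sw W el T Lost Rg) eL A ⊆ ins (Sh W el T Lost Rg eL) eL A)
    (hedge : ∀ a b, (EN.Wall.Wl (L * h₁)).Adj a b → ∃ r, (W.hd r = a ∧ W.tl r = b) ∨
      (W.hd r = b ∧ W.tl r = a))
    {Z : Finset (EN.Wall.WV h₁)} (hZ : ∀ r ∈ Lost, EN.Wall.blk L h₁ (W.hd r) ∈ Z)
    (Br : WZ Z → Finset β)
    (b1 : ∀ y, ∀ r ∈ Br y, EN.Wall.blk L h₁ (W.hd r) = y.1 ∧ EN.Wall.blk L h₁ (W.tl r) = y.1)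
    (b2 : ∀ y, {x | ∃ r ∈ Br y, W.hd r = x ∨ W.tl r = x}.ncard ≤ (Br y).card)
    (b3 : ∀ y, (Br y).Nonempty)
    (b4 : ∀ y, ∀ r ∈ Br y, W.hd r ≠ W.tl r)
    (b5 : (M ／ Q).Indep (rowE W el {r | ∃ y, r ∈ Br y}))
    {g : ℕ → ℕ} (hg : ∀ j ≤ Nat.card (CI ln), (g j : ℤ) ≤ N) :
    ∃ f f' U, TSK.WallD (M ／ Q) (Sh W el T Lost Rg eL) eL
      (hostL (Sh W el T Lost Rg eL) eL N ln) N 0 g Z f f' U := by
  classical
  set H : Host (OV (EN.Wall.WV (L * h₁)) β Lm) σ := hostL (Sh W el T Lost Rg eL) eL N ln with hH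
  have hN : (1 : ℤ) ≤ N := by have := h.N1; omega
  obtain ⟨f₀, c1, c2, c3, hpre⟩ := h.pre (len := ln) hL2 (fun s => Or.inl rfl)
    (fun r _ i _ hi => by have := i.2; omega) hedge hZ
  set f : HV (OV (EN.Wall.WV (L * h₁)) β Lm) σ → Option (WZ Z) :=
    fun v => (f₀ v).bind (bZ L h₁ Z) with hf
  set K : WZ Z → Set (HV (OV (EN.Wall.WV (L * h₁)) β Lm) σ) :=
    fun y => cl0 '' rowL T Lm (Br y : Set β) with hK
  set f' : HV (OV (EN.Wall.WV (L * h₁)) β Lm) σ → Option (WZ Z) :=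
    fun v => (f v).bind (fun y => if v ∈ K y then some y else none) with hf'
  have hf'_iff : ∀ v y, f' v = some y ↔ f v = some y ∧ v ∈ K y := by
    intro v y
    rw [hf']
    simp only [Option.bind_eq_some_iff]
    constructor
    · rintro ⟨z, h1, h2⟩
      split_ifs at h2 with h3
      obtain rfl := Option.some.inj h2
      exact ⟨h1, h3⟩
    · rintro ⟨h1, h2⟩
      exact ⟨y, h1, if_pos h2⟩
  -- good rows
  have hlost : ∀ y, ∀ r ∈ Br y, r ∉ Lost := by
    intro y r hr hrl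
    have h1 := hZ r hrl
    rw [(b1 y r hr).1] at h1
    exact y.2 h1
  have hKf : ∀ y, ∀ v ∈ K y, f v = some y := by
    rintro y _ ⟨_, ⟨_, ⟨r, hr, k, hk, rfl⟩, rfl⟩, rfl⟩
    have hr' : r ∈ Br y := hr
    have hrl := hlost y r hr'
    have hbl := b1 y r hr'
    have hl := (h.len r).1
    have hhd : bZ L h₁ Z (W.hd r) = some y := bZ_eq.2 hbl.1
    have htl : bZ L h₁ Z (W.tl r) = some y := bZ_eq.2 hbl.2
    rcases Nat.eq_zero_or_pos k with rfl | h0
    · rw [W.nd_zero]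
      show (f₀ (Sum.inl (Sum.inl (W.hd r)))).bind _ = _
      rw [c1]
      exact hhd
    · rcases hk.lt_or_eq with h2 | rfl
      · rcases lab_cases (T := T) (Lm := Lm) h2.le hl with ⟨i, rfl, a1, a2⟩ | ⟨a1, v, hv⟩
        · obtain ⟨b, _, _, _, g4⟩ := lab_in (Lm := Lm) a1 a2
          rw [g4]
          show (f₀ (cv i 0)).bind _ = _
          rw [c3 i hrl]
          exact hhd
        · rw [hv]
          show (f₀ (Sum.inl v)).bind _ = _
          rw [c2 r k h0 h2 hrl v hv]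
          exact hhd
      · rw [W.nd_len hl]
        show (f₀ (Sum.inl (Sum.inl (W.tl r)))).bind _ = _
        rw [c1]
        exact htl
  have hK' : ∀ y, ∀ v ∈ K y, f' v = some y := fun y v hv => (hf'_iff v y).2 ⟨hKf y v hv, hv⟩
  -- the full part of a class
  have hmem : ∀ y, ∀ v ∈ rowL T Lm (Br y : Set β), v ∈ ful H N m f' y := by
    rintro y _ ⟨_, ⟨r, hr, k, hk, rfl⟩, rfl⟩
    have hv : lab T Lm (W.nd r k) ∈ rowL T Lm (Br y : Set β) := ⟨_, ⟨r, hr, k, hk, rfl⟩, rfl⟩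
    rcases lab_cases (T := T) (Lm := Lm) hk (h.len r).1 with ⟨i, rfl, a1, a2⟩ | ⟨a1, v, hv'⟩
    · obtain ⟨b, g1, g2, g3, g4⟩ := lab_in (Lm := Lm) a1 a2
      refine ⟨Sum.inr (i.1.1, i.1.2, if (N : ℤ) < b then 0 else b), ?_, ?_⟩
      · rw [g4]
        show p0 H N m (Sum.inr (i.1.1, i.1.2, b)) = _
        simp only [p0]
        rw [if_pos]
        refine ⟨i.2, g1, ?_⟩
        rw [hm i]
        exact g2
      · have h1 : Pz (N : ℤ) (Sum.inr (i.1.1, i.1.2, if (N : ℤ) < b then 0 else b) :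
            HV (OV (EN.Wall.WV (L * h₁)) β Lm) σ) = cl0 (lab T Lm (W.nd (T.R i) k)) := by
          rw [g4]
          simp only [Pz, cv, cl0]
          rw [pz_mid (by split_ifs <;> omega) (by split_ifs <;> omega)]
        rw [h1]
        exact hK' y _ ⟨_, hv, rfl⟩
    · refine ⟨Sum.inl v, ?_, ?_⟩
      · rw [hv']
        rfl
      · have h1 : Pz (N : ℤ) (Sum.inl v : HV (OV (EN.Wall.WV (L * h₁)) β Lm) σ) =
            cl0 (lab T Lm (W.nd r k)) := by
          rw [hv']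
          rfl
        rw [h1]
        exact hK' y _ ⟨_, hv, rfl⟩
  have hful : ∀ y, ful H N m f' y = rowL T Lm (Br y : Set β) := by
    intro y
    refine Set.Subset.antisymm ?_ (hmem y)
    rintro w ⟨P, hP, hPf⟩
    obtain ⟨_, ⟨_, ⟨_, ⟨r, hr, k, hk, rfl⟩, rfl⟩, hcl⟩⟩ := (hf'_iff _ _).1 hPf
    rcases lab_cases (T := T) (Lm := Lm) hk (h.len r).1 with ⟨i, rfl, a1, a2⟩ | ⟨a1, v, hv'⟩
    · obtain ⟨b, g1, g2, g3, g4⟩ := lab_in (Lm := Lm) a1 a2
      rw [g4] at hcl
      rcases p0_eq_some (m := m) hP with ⟨x, rfl, rfl⟩ | ⟨s, c, b', rfl, e1, e2, e3, rfl⟩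
      · exact absurd hcl (by simp [cv, cl0, Pz])
      · simp only [cv, cl0, Pz, Sum.inr.injEq, Prod.mk.injEq] at hcl
        obtain ⟨rfl, rfl, _⟩ := hcl
        rw [hm i] at e3
        refine ⟨_, ⟨T.R i, hr, T.idx i b', ?_, rfl⟩, lab_cv (Lm := Lm) e2 e3⟩
        have h1 := (idx_mem (T := T) i e2 e3).2
        have h2 := T.lt i
        omega
    · rw [hv'] at hcl
      rcases p0_eq_some (m := m) hP with ⟨x, rfl, rfl⟩ | ⟨s, c, b', rfl, e1, e2, e3, rfl⟩
      · have h1 : v = x := by simpa [cl0, Pz] using hcl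
        rw [← h1, ← hv']
        exact ⟨_, ⟨r, hr, k, hk, rfl⟩, rfl⟩
      · exact absurd hcl (by simp [cl0, Pz])
  obtain ⟨F₀, Sk, ek, _, hjnt, hlast, hunb⟩ := hG.exists_U2 (X := WZ Z) hN hS
  refine ⟨f, f', _, ⟨le_rfl, ?_, hpre, fun w y hw => ((hf'_iff w y).1 hw).1, ?_, hjnt, hlast⟩⟩
  · -- depth
    rw [zero_add]
    refine hg _ ?_
    have hfc : {p : σ × ℕ | p.2 < ln p.1}.Finite := by
      refine (finite_iUnion fun s : σ => ((finite_lt_nat (ln s)).image fun c => (s, c))).subset ?_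
      rintro ⟨s, c⟩ hc
      exact mem_iUnion.2 ⟨s, c, hc, rfl⟩
    have hc : Nat.card (CI ln) = {p : σ × ℕ | p.2 < ln p.1}.ncard := rfl
    rw [hc]
    refine ncard_le_ncard ?_ hfc
    rintro ⟨s, c⟩ hp
    exact (hpre.sup s c 0 hp).1
  · refine hunb (rowE W el {r | ∃ y, r ∈ Br y}) ?_ ?_ ?_ f' ?_ ?_ ?_ ?_
    · rintro e ⟨r, ⟨y, hr⟩, k, hk, rfl⟩
      exact Or.inl (Or.inl ⟨r, k, hk, hlost y r hr, rfl⟩)
    · rintro e ⟨r, ⟨y, hr⟩, k, hk, rfl⟩ s c c' b b' he
      rw [(h.row r k hk).2] at he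
      have hcol : ∀ k' ≤ W.len r, ∀ s c b, lab T Lm (W.nd r k') = Sum.inr (s, c, b) →
          ∃ i : CI ln, T.R i = r ∧ T.a i ≤ k' ∧ k' ≤ T.a i + 2 * N + T.m i ∧ i.1 = (s, c) := by
        intro k' hk' s c b hl
        rcases lab_cases (T := T) (Lm := Lm) hk' (h.len r).1 with ⟨i, rfl, a1, a2⟩ | ⟨_, v, hv⟩
        · obtain ⟨b', _, _, _, g4⟩ := lab_in (Lm := Lm) a1 a2
          rw [g4] at hl
          simp only [cv, Sum.inr.injEq, Prod.mk.injEq] at hl
          exact ⟨i, rfl, a1, a2, Prod.ext hl.1 hl.2.1⟩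
        · rw [hv] at hl
          exact absurd hl (by simp)
      have key : ∀ c c' b b', lab T Lm (W.nd r k) = Sum.inr (s, c, b) →
          lab T Lm (W.nd r (k + 1)) = Sum.inr (s, c', b') → c = c' := by
        intro c c' b b' e1 e2
        obtain ⟨i, hi, a1, a2, a3⟩ := hcol k hk.le _ _ _ e1
        obtain ⟨j, hj, d1, d2, d3⟩ := hcol (k + 1) hk _ _ _ e2
        have hij : i = j := by
          by_contra hne
          rcases h.strong i j hne (hi.trans hj.symm) with h1 | h1 <;> omega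
        rw [hij, d3] at a3
        exact (Prod.mk.inj a3).2.symm
      rcases Sym2.eq_iff.1 he with ⟨e1, e2⟩ | ⟨e1, e2⟩
      · exact key _ _ _ _ e1 e2
      · exact (key _ _ _ _ e1 e2).symm
    · rintro e ⟨r, ⟨y, hr⟩, k, hk, rfl⟩ v he
      rw [(h.row r k hk).2] at he
      rcases Sym2.eq_iff.1 he with ⟨e1, e2⟩ | ⟨e1, e2⟩
      · exact lab_ne hk (h.len r).2 (b4 y r hr) e1 e2
      · exact lab_ne hk (h.len r).2 (b4 y r hr) e1 e2
    · intro s c b y hy
      have h1 := hpre.sup s c b (by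
        rw [((hf'_iff _ _).1 hy).1]
        simp)
      exact ⟨h1.1, by omega⟩
    · intro y
      obtain ⟨r, hr⟩ := b3 y
      exact ⟨_, hK' y _ ⟨_, ⟨_, ⟨r, hr, 0, by omega, rfl⟩, rfl⟩, rfl⟩⟩
    · intro y
      refine hpre.fin.subset ?_
      intro w hw
      have h1 := ((hf'_iff w y).1 hw).1
      show f w ≠ none
      rw [h1]
      simp
    · -- joint ground
      have hd : ∀ y z : WZ Z, y ≠ z → Disjoint (Br y) (Br z) := by
        intro y z hne
        rw [Finset.disjoint_left]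
        intro r hr hr'
        exact hne (Subtype.ext ((b1 y r hr).1.symm.trans (b1 z r hr').1))
      have hsum : ∑ y : WZ Z, (ful H N m f' y).ncard ≤ ∑ y : WZ Z, ∑ r ∈ Br y, W.len r := by
        refine Finset.sum_le_sum fun y _ => ?_
        rw [hful y]
        refine (ncard_rowL_le (fun r _ => (h.len r).1) (b2 y) ?_).2
        refine ((Br y).finite_toSet.image W.hd |>.union
          ((Br y).finite_toSet.image W.tl)).subset ?_
        rintro x ⟨r, hr, hx | hx⟩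
        · exact Or.inl ⟨r, hr, hx⟩
        · exact Or.inr ⟨r, hr, hx⟩
      have hfinE : ∀ B : Set β, (rowE W el B).Finite := by
        intro B
        refine (finite_iUnion fun r : β => ((finite_lt_nat (W.len r)).image (el r))).subset ?_
        rintro e ⟨r, _, k, hk, rfl⟩
        exact mem_iUnion.2 ⟨r, k, hk, rfl⟩
      have h2 := le_ncard_rowE hfinE h.inj Finset.univ Br (fun y _ z _ hyz => hd y z hyz)
      have h3 : {r | ∃ y ∈ (Finset.univ : Finset (WZ Z)), r ∈ Br y} = {r | ∃ y, r ∈ Br y} := by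
        ext r
        simp
      rw [h3] at h2
      refine hsum.trans (h2.trans ?_)
      have h4 := rk_indep b5
      rw [← h4]
      refine rk_mono _ ?_
      rintro e ⟨r, ⟨y, hr⟩, k, hk, rfl⟩
      refine mem_iUnion₂.2 ⟨y, Finset.mem_univ _, ⟨r, ⟨y, hr⟩, k, hk, rfl⟩, ?_⟩
      intro v hv
      rw [(h.row r k hk).2, Sym2.mem_iff] at hv
      rcases hv with rfl | rfl
      · exact hmem y _ ⟨_, ⟨r, hr, k, hk.le, rfl⟩, rfl⟩
      · exact hmem y _ ⟨_, ⟨r, hr, k + 1, hk, rfl⟩, rfl⟩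

end main

/-- **Bricks**: six rows around a brick in every block. -/
theorem exists_bricks {L h : ℕ} (hL : 4 ≤ L) {W : RW (EN.Wall.WV (L * h)) β}
    (hedge : ∀ a b, (EN.Wall.Wl (L * h)).Adj a b → ∃ r, (W.hd r = a ∧ W.tl r = b) ∨
      (W.hd r = b ∧ W.tl r = a)) (y : EN.Wall.WV h) :
    ∃ (c : ZMod 6 → EN.Wall.WV (L * h)) (ρ : ZMod 6 → β), Function.Injective c ∧
      Function.Injective ρ ∧ (∀ i, EN.Wall.blk L h (c i) = y) ∧
      (∀ i, (EN.Wall.Wl (L * h)).Adj (c i) (c (i + 1))) ∧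
      ∀ i, (W.hd (ρ i) = c i ∧ W.tl (ρ i) = c (i + 1)) ∨
        (W.hd (ρ i) = c (i + 1) ∧ W.tl (ρ i) = c i) := by
  classical
  have hLI : L * y.1.val + L ≤ 2 * (L * h) := by
    have h1 := y.1.2
    have h2 : L * (y.1.val + 1) ≤ L * (2 * h) := Nat.mul_le_mul_left _ (by omega)
    rw [Nat.mul_add, Nat.mul_one] at h2
    have h3 : L * (2 * h) = 2 * (L * h) := by ring
    omega
  have hLJ : L * y.2.val + L ≤ 2 * (L * h) := by
    have h1 := y.2.2
    have h2 : L * (y.2.val + 1) ≤ L * (2 * h) := Nat.mul_le_mul_left _ (by omega)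
    rw [Nat.mul_add, Nat.mul_one] at h2
    have h3 : L * (2 * h) = 2 * (L * h) := by ring
    omega
  set A := L * y.1.val with hA
  set B := L * y.2.val with hB
  obtain ⟨x, hx, hx2⟩ : ∃ x, (x = A ∨ x = A + 1) ∧ (x + B) % 2 = 0 := by
    rcases Nat.mod_two_eq_zero_or_one (A + B) with h1 | h1
    · exact ⟨A, Or.inl rfl, h1⟩
    · exact ⟨A + 1, Or.inr rfl, by omega⟩
  set q : ℕ → ℕ × ℕ := fun i => if i < 3 then (x + i, B) else (x + 5 - i, B + 1) with hq
  have hqr : ∀ i < 6, (q i).1 < A + L ∧ A ≤ (q i).1 ∧ (q i).2 < B + L ∧ B ≤ (q i).2 := by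
    intro i hi
    rw [hq]
    dsimp only
    split_ifs <;> dsimp only <;> omega
  set c : ZMod 6 → EN.Wall.WV (L * h) := fun i =>
    (⟨(q i.val).1, by have := hqr i.val (ZMod.val_lt i); omega⟩,
      ⟨(q i.val).2, by have := hqr i.val (ZMod.val_lt i); omega⟩) with hc
  have hvl : ∀ i, EN.Wall.vl (c i) = q i.val := fun i => rfl
  have hcinj : Function.Injective c := by
    intro i j hij
    have h1 : q i.val = q j.val := by rw [← hvl, ← hvl, hij]
    have hi := ZMod.val_lt i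
    have hj := ZMod.val_lt j
    refine ZMod.val_injective 6 ?_
    rw [hq] at h1
    dsimp only at h1
    split_ifs at h1 <;> simp only [Prod.mk.injEq] at h1 <;> omega
  have hadj : ∀ i, (EN.Wall.Wl (L * h)).Adj (c i) (c (i + 1)) := by
    intro i
    rw [EN.Wall.adj_iff, hvl, hvl]
    have key : ∀ m < 6, _root_.Iso.WAdj (q m) (q ((m + 1) % 6)) := by
      intro m hm
      unfold _root_.Iso.WAdj
      rw [hq]
      interval_cases m <;> simp <;> omega
    have h1 := key i.val (ZMod.val_lt i)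
    have h2 : (i + 1).val = (i.val + 1) % 6 := by
      rw [ZMod.val_add]
      rfl
    rw [h2]
    exact h1
  have hrow : ∀ i, ∃ r, (W.hd r = c i ∧ W.tl r = c (i + 1)) ∨
      (W.hd r = c (i + 1) ∧ W.tl r = c i) := fun i => hedge _ _ (hadj i)
  choose ρ hρ using hrow
  refine ⟨c, ρ, hcinj, ?_, ?_, hadj, hρ⟩
  · intro i j hij
    have h1 := hρ i
    have h2 := hρ j
    rw [← hij] at h2
    have h3 : (c i = c j ∧ c (i + 1) = c (j + 1)) ∨ (c i = c (j + 1) ∧ c (i + 1) = c j) := by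
      rcases h1 with ⟨a1, a2⟩ | ⟨a1, a2⟩ <;> rcases h2 with ⟨b1, b2⟩ | ⟨b1, b2⟩
      · exact Or.inl ⟨a1.symm.trans b1, a2.symm.trans b2⟩
      · exact Or.inr ⟨a1.symm.trans b1, a2.symm.trans b2⟩
      · exact Or.inr ⟨a2.symm.trans b2, a1.symm.trans b1⟩
      · exact Or.inl ⟨a2.symm.trans b2, a1.symm.trans b1⟩
    rcases h3 with ⟨h3, _⟩ | ⟨h3, h4⟩
    · exact hcinj h3
    · exfalso
      have h5 := hcinj h3
      have h6 := hcinj h4
      rw [h5] at h6
      have h7 : (2 : ZMod 6) = 0 := by linear_combination h6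
      exact absurd h7 (by decide)
  · intro i
    have h1 := hqr i.val (ZMod.val_lt i)
    refine Prod.ext (Fin.ext ?_) (Fin.ext ?_)
    · show (q i.val).1 / L = y.1.val
      rw [Nat.div_eq_iff (by omega)]
      have := Nat.mul_comm y.1.val L
      omega
    · show (q i.val).2 / L = y.2.val
      rw [Nat.div_eq_iff (by omega)]
      have := Nat.mul_comm y.2.val L
      omega

open Classical in
/-- The rows of the bricks: clauses `b1`–`b4` of `SG.wallD`. -/
theorem brick_rows {L h : ℕ} {W : RW (EN.Wall.WV (L * h)) β} {y : EN.Wall.WV h}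
    {c : ZMod 6 → EN.Wall.WV (L * h)} {ρ : ZMod 6 → β} (hc : Function.Injective c)
    (hρ : Function.Injective ρ) (hb : ∀ i, EN.Wall.blk L h (c i) = y)
    (he : ∀ i, (W.hd (ρ i) = c i ∧ W.tl (ρ i) = c (i + 1)) ∨
        (W.hd (ρ i) = c (i + 1) ∧ W.tl (ρ i) = c i)) :
    (∀ r ∈ Finset.univ.image ρ, EN.Wall.blk L h (W.hd r) = y ∧ EN.Wall.blk L h (W.tl r) = y) ∧
      {x | ∃ r ∈ Finset.univ.image ρ, W.hd r = x ∨ W.tl r = x}.ncard ≤
        (Finset.univ.image ρ).card ∧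
      (Finset.univ.image ρ).Nonempty ∧ ∀ r ∈ Finset.univ.image ρ, W.hd r ≠ W.tl r := by
  have hne : ∀ i : ZMod 6, i ≠ i + 1 := by decide
  refine ⟨?_, ?_, ⟨ρ 0, Finset.mem_image_of_mem _ (Finset.mem_univ _)⟩, ?_⟩
  · intro r hr
    obtain ⟨i, _, rfl⟩ := Finset.mem_image.1 hr
    rcases he i with ⟨h1, h2⟩ | ⟨h1, h2⟩ <;> rw [h1, h2] <;> exact ⟨hb _, hb _⟩
  · rw [Finset.card_image_of_injective _ hρ]
    have h1 : {x | ∃ r ∈ Finset.univ.image ρ, W.hd r = x ∨ W.tl r = x} ⊆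
        ↑(Finset.univ.image c) := by
      rintro x ⟨r, hr, hx⟩
      obtain ⟨i, _, rfl⟩ := Finset.mem_image.1 hr
      rw [Finset.mem_coe, Finset.mem_image]
      rcases he i with ⟨h1, h2⟩ | ⟨h1, h2⟩ <;> rcases hx with hx | hx
      · exact ⟨i, Finset.mem_univ _, h1.symm.trans hx⟩
      · exact ⟨i + 1, Finset.mem_univ _, h2.symm.trans hx⟩
      · exact ⟨i + 1, Finset.mem_univ _, h1.symm.trans hx⟩
      · exact ⟨i, Finset.mem_univ _, h2.symm.trans hx⟩
    refine (ncard_le_ncard h1 (Finset.finite_toSet _)).trans ?_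
    rw [ncard_coe_finset, Finset.card_image_of_injective _ hc]
  · intro r hr
    obtain ⟨i, _, rfl⟩ := Finset.mem_image.1 hr
    intro h3
    rcases he i with ⟨h1, h2⟩ | ⟨h1, h2⟩ <;> rw [h1, h2] at h3
    · exact hne i (hc h3)
    · exact hne i (hc h3).symm

end TST
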